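import Mathlib

/-!
# Linear algebra over the integers and interpolation
-/

set_option linter.unusedSectionVars false

namespace Pool.Agent.NH32

open Module

noncomputable section

/-- Rational vectors which are independent over the rational numbers are independent over the
complex numbers. -/
theorem li_cast {X I : Type*} {v : I → X → ℚ} (hv : LinearIndependent ℚ v) :
    LinearIndependent ℂ fun i x => ((v i x : ℚ) : ℂ) := by
  rw [linearIndependent_iff'] at hv ⊢
  intro s a ha i hi
  by_contra hai
  obtain ⟨l, hl⟩ : ∃ l : Module.Dual ℚ ℂ, l (a i) ≠ 0 := by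
    by_contra hcon
    push Not at hcon
    exact hai ((Module.forall_dual_apply_eq_zero_iff ℚ (a i)).1 hcon)
  have h1 := hv s (fun j => l (a j)) (by
    funext x
    rw [Finset.sum_apply]
    have h2 := congrArg l (congrFun ha x)
    rw [Finset.sum_apply, map_sum] at h2
    rw [Pi.zero_apply, map_zero] at h2
    rw [Pi.zero_apply, ← h2]
    refine Finset.sum_congr rfl fun j _ => ?_
    rw [Pi.smul_apply, Pi.smul_apply, smul_eq_mul, smul_eq_mul]
    have h3 : a j * ((v j x : ℚ) : ℂ) = v j x • a j := by rw [Rat.smul_def, mul_comm]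
    rw [h3, map_smul, smul_eq_mul, mul_comm]) i hi
  exact hl h1

/-- Integral vectors. -/
theorem li_castZ {X I : Type*} {v : I → X → ℤ} (hv : LinearIndependent ℤ v) :
    LinearIndependent ℂ fun i x => ((v i x : ℤ) : ℂ) := by
  have h1 : LinearIndependent ℤ fun i (x : X) => ((v i x : ℤ) : ℚ) := by
    let f : (X → ℤ) →ₗ[ℤ] (X → ℚ) :=
      { toFun := fun w x => ((w x : ℤ) : ℚ)
        map_add' := fun a b => by
          funext x
          simp
        map_smul' := fun a b => by
          funext x
          simp }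
    have h2 := hv.map' f (by
      rw [LinearMap.ker_eq_bot]
      intro a b hab
      funext x
      have h3 := congrFun hab x
      change ((a x : ℤ) : ℚ) = ((b x : ℤ) : ℚ) at h3
      exact_mod_cast h3)
    exact h2
  have h2 := (LinearIndependent.iff_fractionRing ℤ ℚ).1 h1
  have h3 := li_cast h2
  have h4 : (fun i (x : X) => ((v i x : ℤ) : ℂ)) = fun i x => ((((v i x : ℤ) : ℚ)) : ℂ) := by
    funext i x
    push_cast
    rfl
  rw [h4]
  exact h3

/-- The number of generators. -/
theorem exists_gens {B I : Type} [Fintype B] [Fintype I] (ε : I → B → ℤ)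
    {N Γ : AddSubgroup (B → ℤ)} (hN : N ≤ Γ) (hΓ : Γ ≤ N ⊔ AddSubgroup.closure (Set.range ε))
    (S : Submodule ℂ (B → ℂ)) (h0 : ∀ n ∈ Γ, ∀ t ∈ S, ∑ b, (n b : ℂ) * t b = 0)
    (h1 : ∀ t ∈ S, (∀ i, ∑ b, (ε i b : ℂ) * t b = 0) → t = 0) :
    ∃ (r : ℕ) (n : Fin r → B → ℤ), r + finrank ℂ S ≤ Fintype.card I ∧ (∀ i, n i ∈ Γ) ∧
      Γ ≤ N ⊔ AddSubgroup.closure (Set.range n) := by
  classical
  let φ : (I → ℤ) →ₗ[ℤ] (B → ℤ) :=
    { toFun := fun m => ∑ i, m i • ε i
      map_add' := fun a b => by
        rw [← Finset.sum_add_distrib]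
        exact Finset.sum_congr rfl fun i _ => by rw [Pi.add_apply, add_smul]
      map_smul' := fun a b => by
        rw [Finset.smul_sum]
        exact Finset.sum_congr rfl fun i _ => by
          rw [Pi.smul_apply, smul_eq_mul, mul_smul]
          rfl }
  have hφ : ∀ m, φ m = ∑ i, m i • ε i := fun _ => rfl
  let G : Submodule ℤ (I → ℤ) := (AddSubgroup.toIntSubmodule Γ).comap φ
  obtain ⟨r, ⟨b⟩⟩ : ∃ r : ℕ, Nonempty (Basis (Fin r) ℤ G) := by
    obtain ⟨r, b⟩ := Submodule.basisOfPid (Pi.basisFun ℤ I) G
    exact ⟨r, ⟨b⟩⟩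
  have hli : LinearIndependent ℤ fun i => ((b i : G) : I → ℤ) :=
    b.linearIndependent.map' G.subtype (by rw [LinearMap.ker_eq_bot]; exact G.injective_subtype)
  have hliC := li_castZ hli
  refine ⟨r, fun i => φ (b i), ?_, fun i => (b i).2, ?_⟩
  · -- the annihilator
    let ψ : (B → ℂ) →ₗ[ℂ] (I → ℂ) :=
      { toFun := fun t i => ∑ b, (ε i b : ℂ) * t b
        map_add' := fun x y => by
          funext i
          simp only [Pi.add_apply, mul_add, Finset.sum_add_distrib]
        map_smul' := fun c x => by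
          funext i
          simp only [Pi.smul_apply, smul_eq_mul, Finset.mul_sum, RingHom.id_apply]
          exact Finset.sum_congr rfl fun _ _ => by ring }
    have hψ : ∀ t i, ψ t i = ∑ b, (ε i b : ℂ) * t b := fun _ _ => rfl
    let C : Matrix (Fin r) I ℂ := Matrix.of fun i x => ((((b i : G) : I → ℤ) x : ℤ) : ℂ)
    have hker : ∀ t ∈ S, C.mulVecLin (ψ t) = 0 := by
      intro t ht
      funext i
      rw [Matrix.mulVecLin_apply]
      change ∑ x, ((((b i : G) : I → ℤ) x : ℤ) : ℂ) * ψ t x = 0
      have h2 := h0 (φ (b i)) (b i).2 t ht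
      rw [hφ] at h2
      have h3 : ∑ c, (((∑ j, ((b i : G) : I → ℤ) j • ε j) c : ℤ) : ℂ) * t c =
          ∑ x, ((((b i : G) : I → ℤ) x : ℤ) : ℂ) * ψ t x := by
        simp only [hψ, Finset.mul_sum, Finset.sum_apply, Pi.smul_apply, smul_eq_mul]
        rw [Finset.sum_comm]
        refine Finset.sum_congr rfl fun c _ => ?_
        push_cast
        rw [Finset.sum_mul]
        exact Finset.sum_congr rfl fun j _ => by ring
      rw [← h3]
      exact h2
    have hle : S.map ψ ≤ LinearMap.ker C.mulVecLin := by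
      rintro _ ⟨t, ht, rfl⟩
      exact hker t ht
    have hinj : finrank ℂ (S.map ψ) = finrank ℂ S := by
      have h2 := LinearMap.finrank_range_of_inj (f := ψ.domRestrict S) (by
        rw [injective_iff_map_eq_zero]
        intro t ht
        refine Subtype.ext (h1 t t.2 fun i => ?_)
        exact congrFun ht i)
      rw [← h2, LinearMap.range_domRestrict]
    have h2 := Submodule.finrank_mono hle
    have h3 := LinearMap.finrank_range_add_finrank_ker C.mulVecLin
    rw [Module.finrank_fintype_fun_eq_card] at h3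
    have h4 : finrank ℂ (LinearMap.range C.mulVecLin) = r := by
      have h5 : LinearIndependent ℂ C.row := hliC
      have h6 := h5.rank_matrix
      rw [Fintype.card_fin] at h6
      exact h6
    rw [h4] at h3
    rw [← hinj]
    omega
  · intro n hn
    obtain ⟨n0, hn0, n1, hn1, rfl⟩ := AddSubgroup.mem_sup.1 (hΓ hn)
    obtain ⟨m, rfl⟩ : ∃ m, φ m = n1 := by
      have h2 : AddSubgroup.closure (Set.range ε) ≤ (LinearMap.range φ).toAddSubgroup := by
        rw [AddSubgroup.closure_le]
        rintro _ ⟨i, rfl⟩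
        refine ⟨Pi.single i 1, ?_⟩
        rw [hφ, Finset.sum_eq_single i]
        · rw [Pi.single_eq_same, one_smul]
        · intro j _ hj
          rw [Pi.single_eq_of_ne hj, zero_smul]
        · intro h
          exact absurd (Finset.mem_univ _) h
      exact h2 hn1
    refine AddSubgroup.add_mem_sup hn0 ?_
    have hm : m ∈ G := by
      change φ m ∈ Γ
      have h2 := Γ.sub_mem hn (hN hn0)
      rwa [add_sub_cancel_left] at h2
    have h2 := b.sum_repr ⟨m, hm⟩
    have h3 := congrArg (fun z : G => φ (z : I → ℤ)) h2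
    beta_reduce at h3
    rw [← h3, Submodule.coe_sum, map_sum]
    refine AddSubgroup.sum_mem _ fun i _ => ?_
    rw [Submodule.coe_smul, map_smul]
    exact AddSubgroup.zsmul_mem _ (AddSubgroup.subset_closure (Set.mem_range_self i)) _

/-- **Interpolation**: an algebra of functions contains all functions which are constant on its
classes. -/
theorem interp {B : Type} [Fintype B] (S : Submodule ℂ (B → ℂ)) (h1 : (1 : B → ℂ) ∈ S)
    (hm : ∀ x ∈ S, ∀ y ∈ S, x * y ∈ S) (f : B → ℂ)
    (hf : ∀ b b', (∀ z ∈ S, z b = z b') → f b = f b') : f ∈ S := by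
  classical
  -- the indicators of the classes
  have key : ∀ b : B, ∃ u ∈ S, ∀ b', u b' = if (∀ z ∈ S, z b = z b') then 1 else 0 := by
    intro b
    have h2 : ∀ b' : B, ∃ u ∈ S, u b = 1 ∧ ((¬ ∀ z ∈ S, z b = z b') → u b' = 0) := by
      intro b'
      by_cases h3 : ∀ z ∈ S, z b = z b'
      · exact ⟨1, h1, rfl, fun h => absurd h3 h⟩
      · push Not at h3
        obtain ⟨z, hz, hzb⟩ := h3
        have h4 : z b - z b' ≠ 0 := sub_ne_zero.2 hzb
        refine ⟨(z b - z b')⁻¹ • (z - z b' • 1), S.smul_mem _ (S.sub_mem hz (S.smul_mem _ h1)),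
          ?_, fun _ => ?_⟩
        · simp only [Pi.smul_apply, Pi.sub_apply, Pi.one_apply, smul_eq_mul, mul_one]
          exact inv_mul_cancel₀ h4
        · simp only [Pi.smul_apply, Pi.sub_apply, Pi.one_apply, smul_eq_mul, mul_one, sub_self,
            mul_zero]
    choose u hu hub huz using h2
    have hprod : ∀ s : Finset B, (∏ b' ∈ s, u b') ∈ S := by
      intro s
      induction s using Finset.induction_on with
      | empty => rw [Finset.prod_empty]; exact h1
      | insert a s ha ih => rw [Finset.prod_insert ha]; exact hm _ (hu a) _ ih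
    refine ⟨∏ b', u b', hprod _, fun c => ?_⟩
    split_ifs with hc
    · rw [← hc _ (hprod _), Finset.prod_apply]
      exact Finset.prod_eq_one fun b' _ => hub b'
    · rw [Finset.prod_apply]
      exact Finset.prod_eq_zero (Finset.mem_univ c) (huz c hc)
  choose u hu huv using key
  let N : B → ℂ := fun b => ∑ c, if (∀ z ∈ S, z c = z b) then 1 else 0
  have hN : ∀ b, N b ≠ 0 := by
    intro b
    have h2 : N b = ((Finset.univ.filter fun c => ∀ z ∈ S, z c = z b).card : ℂ) := by
      change ∑ c, (if (∀ z ∈ S, z c = z b) then (1 : ℂ) else 0) = _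
      rw [Finset.sum_ite, Finset.sum_const_zero, add_zero, Finset.sum_const, nsmul_eq_mul, mul_one]
    rw [h2, Nat.cast_ne_zero]
    refine (Finset.card_pos.2 ⟨b, ?_⟩).ne'
    rw [Finset.mem_filter]
    exact ⟨Finset.mem_univ _, fun _ _ => rfl⟩
  have hNc : ∀ b b', (∀ z ∈ S, z b = z b') → N b = N b' := by
    intro b b' hbb
    change ∑ c, (if (∀ z ∈ S, z c = z b) then (1 : ℂ) else 0) =
      ∑ c, if (∀ z ∈ S, z c = z b') then (1 : ℂ) else 0
    refine Finset.sum_congr rfl fun c _ => ?_
    have h2 : (∀ z ∈ S, z c = z b) ↔ ∀ z ∈ S, z c = z b' :=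
      forall₂_congr fun z hz => by rw [hbb z hz]
    rw [if_congr h2 rfl rfl]
  have h2 : f = ∑ c, (f c / N c) • u c := by
    funext b
    rw [Finset.sum_apply]
    simp only [Pi.smul_apply, smul_eq_mul, huv]
    have h3 : ∀ c, (f c / N c) * (if (∀ z ∈ S, z c = z b) then 1 else 0) =
        (f b / N b) * (if (∀ z ∈ S, z c = z b) then 1 else 0) := by
      intro c
      split_ifs with hc
      · rw [hf c b hc, hNc c b hc]
      · rw [mul_zero, mul_zero]
    rw [Finset.sum_congr rfl fun c _ => h3 c, ← Finset.mul_sum]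
    exact (div_mul_cancel₀ _ (hN b)).symm
  rw [h2]
  exact S.sum_mem fun c _ => S.smul_mem _ (hu c)

end

end Pool.Agent.NH32
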