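import Mathlib

/-!
# The Stone-Weierstrass theorem for algebras which do not separate the points
-/

set_option linter.unusedSectionVars false

namespace Pool.Agent.NH32

noncomputable section

/-- A continuous function which separates no more points than a star subalgebra belongs to the
closure of the subalgebra. -/
theorem mem_closure_of_sep {X : Type*} [TopologicalSpace X] [CompactSpace X]
    (A : StarSubalgebra ℂ C(X, ℂ)) (f : C(X, ℂ))
    (h : ∀ x y, (∀ a ∈ A, a x = a y) → f x = f y) : f ∈ A.topologicalClosure := by
  let s : Setoid X :=
    { r := fun x y => ∀ a ∈ A, a x = a y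
      iseqv := ⟨fun _ _ _ => rfl, fun h1 a ha => (h1 a ha).symm,
        fun h1 h2 a ha => (h1 a ha).trans (h2 a ha)⟩ }
  let π : C(X, Quotient s) := ⟨Quotient.mk s, continuous_quotient_mk'⟩
  let Φ : Quotient s → (A → ℂ) := fun y a => Quotient.lift (fun x => (a : C(X, ℂ)) x)
    (fun x y (hxy : s.r x y) => hxy a a.2) y
  have hΦc : Continuous Φ := by
    refine continuous_pi fun a => ?_
    exact Continuous.quotient_lift (a : C(X, ℂ)).continuous _
  have hΦi : Function.Injective Φ := by
    intro y y' hyy
    induction y using Quotient.inductionOn with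
    | h x =>
      induction y' using Quotient.inductionOn with
      | h x' =>
        apply Quotient.sound
        intro a ha
        exact congrFun hyy ⟨a, ha⟩
  have hT2 : T2Space (Quotient s) := T2Space.of_injective_continuous hΦi hΦc
  have hcs : CompactSpace (Quotient s) := Quotient.compactSpace
  let c : C(Quotient s, ℂ) →⋆ₐ[ℂ] C(X, ℂ) := ContinuousMap.compStarAlgHom' ℂ ℂ π
  have hc : ∀ F x, c F x = F (Quotient.mk s x) := fun F x => rfl
  let A' : StarSubalgebra ℂ C(Quotient s, ℂ) := A.comap c
  have hsep : A'.SeparatesPoints := by
    intro y y' hne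
    induction y using Quotient.inductionOn with
    | h x =>
      induction y' using Quotient.inductionOn with
      | h x' =>
        have h1 : ¬ ∀ a ∈ A, a x = a x' := fun h2 => hne (Quotient.sound h2)
        push Not at h1
        obtain ⟨a, ha, hne'⟩ := h1
        let F : C(Quotient s, ℂ) := ⟨Quotient.lift (fun x => a x) (fun x y (hxy : s.r x y) => hxy a ha),
          Continuous.quotient_lift a.continuous _⟩
        have hF : c F = a := by
          ext z
          rfl
        refine ⟨F, ⟨F, ?_, rfl⟩, hne'⟩
        change c F ∈ A
        rw [hF]
        exact ha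
  have htop := ContinuousMap.starSubalgebra_topologicalClosure_eq_top_of_separatesPoints A' hsep
  let F : C(Quotient s, ℂ) := ⟨Quotient.lift (fun x => f x) (fun x y (hxy : s.r x y) => h x y hxy),
    Continuous.quotient_lift f.continuous _⟩
  have hF : c F = f := by
    ext z
    rfl
  have hFm : F ∈ A'.topologicalClosure := by
    rw [htop]
    trivial
  have hcc : Continuous c := ContinuousMap.continuous_precomp π
  rw [← hF]
  have h1 : F ∈ closure (A' : Set C(Quotient s, ℂ)) := by
    rw [← StarSubalgebra.topologicalClosure_coe]
    exact hFm
  have h2 := map_mem_closure hcc h1 (t := (A : Set C(X, ℂ))) (fun G hG => hG)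
  have h3 : c F ∈ (A.topologicalClosure : Set C(X, ℂ)) := by
    rw [StarSubalgebra.topologicalClosure_coe]
    exact h2
  exact h3

end

end Pool.Agent.NH32
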