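import Mathlib
import Pool.Agent.W437.HC.Act

/-!
# Tensors: the actions of the general linear group and of its Lie algebra
-/

set_option linter.unusedSectionVars false

namespace Pool.Agent.NH32

open Matrix Pool.Agent.W437.HC

noncomputable section

variable {B : Type*} [Fintype B] [DecidableEq B] {κ : Type*} [Fintype κ] [DecidableEq κ]

theorem mvA {m n : Type*} [Fintype n] (M : Matrix m n ℂ) (c : n → ℂ) (i : m) :
    (M *ᵥ c) i = ∑ j, M i j * c j := rfl

/-- The tensor product of a family of matrices. -/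
def kpp (M : κ → Matrix B B ℂ) : Matrix (κ → B) (κ → B) ℂ := of fun I J => ∏ k, M k (I k) (J k)

theorem kpp_apply (M : κ → Matrix B B ℂ) (I J : κ → B) : kpp M I J = ∏ k, M k (I k) (J k) := rfl

theorem kpp_mul (M N : κ → Matrix B B ℂ) : kpp M * kpp N = kpp fun k => M k * N k := by
  ext I J
  simp only [Matrix.mul_apply, kpp_apply]
  rw [Finset.prod_univ_sum]
  rw [Fintype.piFinset_univ]
  refine Finset.sum_congr rfl fun K _ => ?_
  rw [Finset.prod_mul_distrib]

theorem kpp_one : kpp (fun _ : κ => (1 : Matrix B B ℂ)) = 1 := by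
  ext I J
  rw [kpp_apply]
  by_cases h : I = J
  · subst h
    rw [Matrix.one_apply_eq]
    exact Finset.prod_eq_one fun k _ => Matrix.one_apply_eq _
  · rw [Matrix.one_apply_ne h]
    obtain ⟨k, hk⟩ := Function.ne_iff.1 h
    exact Finset.prod_eq_zero (Finset.mem_univ k) (Matrix.one_apply_ne hk)

theorem kpp_conjTranspose (M : κ → Matrix B B ℂ) : (kpp M)ᴴ = kpp fun k => (M k)ᴴ := by
  ext I J
  rw [conjTranspose_apply, kpp_apply, kpp_apply, star_prod]
  rfl

theorem kpp_transpose (M : κ → Matrix B B ℂ) : (kpp M)ᵀ = kpp fun k => (M k)ᵀ := by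
  ext I J
  rfl

theorem kpp_update_add (M : κ → Matrix B B ℂ) (k : κ) (X Y : Matrix B B ℂ) :
    kpp (Function.update M k (X + Y)) =
      kpp (Function.update M k X) + kpp (Function.update M k Y) := by
  ext I J
  rw [Matrix.add_apply, kpp_apply, kpp_apply, kpp_apply,
    ← Finset.mul_prod_erase _ _ (Finset.mem_univ k),
    ← Finset.mul_prod_erase _ _ (Finset.mem_univ k),
    ← Finset.mul_prod_erase _ _ (Finset.mem_univ k)]
  have h2 : ∀ w : Matrix B B ℂ, ∏ l ∈ Finset.univ.erase k, Function.update M k w l (I l) (J l) =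
      ∏ l ∈ Finset.univ.erase k, M l (I l) (J l) := by
    intro w
    refine Finset.prod_congr rfl fun l hl => ?_
    rw [Function.update_of_ne (Finset.ne_of_mem_erase hl)]
  rw [h2, h2, h2, Function.update_self, Function.update_self, Function.update_self,
    Matrix.add_apply]
  ring

theorem kpp_update_smul (M : κ → Matrix B B ℂ) (k : κ) (a : ℂ) (X : Matrix B B ℂ) :
    kpp (Function.update M k (a • X)) = a • kpp (Function.update M k X) := by
  ext I J
  rw [Matrix.smul_apply, kpp_apply, kpp_apply,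
    ← Finset.mul_prod_erase _ _ (Finset.mem_univ k),
    ← Finset.mul_prod_erase _ _ (Finset.mem_univ k)]
  have h2 : ∀ w : Matrix B B ℂ, ∏ l ∈ Finset.univ.erase k, Function.update M k w l (I l) (J l) =
      ∏ l ∈ Finset.univ.erase k, M l (I l) (J l) := by
    intro w
    refine Finset.prod_congr rfl fun l hl => ?_
    rw [Function.update_of_ne (Finset.ne_of_mem_erase hl)]
  rw [h2, h2, Function.update_self, Function.update_self, Matrix.smul_apply, smul_eq_mul,
    smul_eq_mul, mul_assoc]

variable (κ) in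
/-- The tensor power of a matrix. -/
def kp (M : Matrix B B ℂ) : Matrix (κ → B) (κ → B) ℂ := kpp fun _ => M

theorem kp_apply (M : Matrix B B ℂ) (I J : κ → B) : kp κ M I J = ∏ k, M (I k) (J k) := rfl

theorem kp_mul (M N : Matrix B B ℂ) : kp κ (M * N) = kp κ M * kp κ N := (kpp_mul _ _).symm

theorem kp_one : kp κ (1 : Matrix B B ℂ) = 1 := kpp_one

theorem kp_conjTranspose (M : Matrix B B ℂ) : (kp κ M)ᴴ = kp κ Mᴴ := kpp_conjTranspose _

theorem kp_transpose (M : Matrix B B ℂ) : (kp κ M)ᵀ = kp κ Mᵀ := rfl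

variable (κ) in
/-- The derivative of the tensor power. -/
def kd (g X : Matrix B B ℂ) : Matrix (κ → B) (κ → B) ℂ :=
  ∑ k, kpp (Function.update (fun _ => g) k X)

theorem kd_add (g X Y : Matrix B B ℂ) : kd κ g (X + Y) = kd κ g X + kd κ g Y := by
  unfold kd
  rw [← Finset.sum_add_distrib]
  exact Finset.sum_congr rfl fun k _ => kpp_update_add _ k X Y

theorem kd_smul (g : Matrix B B ℂ) (a : ℂ) (X : Matrix B B ℂ) : kd κ g (a • X) = a • kd κ g X := by
  unfold kd
  rw [Finset.smul_sum]
  exact Finset.sum_congr rfl fun k _ => kpp_update_smul _ k a X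

theorem kp_mul_kd (h g X : Matrix B B ℂ) : kp κ h * kd κ g X = kd κ (h * g) (h * X) := by
  unfold kd kp
  rw [Finset.mul_sum]
  refine Finset.sum_congr rfl fun k _ => ?_
  rw [kpp_mul]
  congr 1
  funext l
  by_cases hl : l = k
  · subst hl
    rw [Function.update_self, Function.update_self]
  · rw [Function.update_of_ne hl, Function.update_of_ne hl]

theorem kd_mul_kp (h g X : Matrix B B ℂ) : kd κ g X * kp κ h = kd κ (g * h) (X * h) := by
  unfold kd kp
  rw [Finset.sum_mul]
  refine Finset.sum_congr rfl fun k _ => ?_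
  rw [kpp_mul]
  congr 1
  funext l
  by_cases hl : l = k
  · subst hl
    rw [Function.update_self, Function.update_self]
  · rw [Function.update_of_ne hl, Function.update_of_ne hl]

variable (κ) in
/-- The derivation given by a matrix. -/
def dm (X : Matrix B B ℂ) : Matrix (κ → B) (κ → B) ℂ := kd κ 1 X

theorem dm_add (X Y : Matrix B B ℂ) : dm κ (X + Y) = dm κ X + dm κ Y := kd_add _ _ _

theorem dm_smul (a : ℂ) (X : Matrix B B ℂ) : dm κ (a • X) = a • dm κ X := kd_smul _ _ _

theorem dm_zero : dm κ (0 : Matrix B B ℂ) = 0 := by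
  have h := dm_smul (κ := κ) (0 : ℂ) (0 : Matrix B B ℂ)
  rwa [zero_smul, zero_smul] at h

theorem dm_neg (X : Matrix B B ℂ) : dm κ (-X) = -dm κ X := by
  have h := dm_smul (κ := κ) (-1 : ℂ) X
  rwa [neg_one_smul, neg_one_smul] at h

theorem dm_sub (X Y : Matrix B B ℂ) : dm κ (X - Y) = dm κ X - dm κ Y := by
  rw [sub_eq_add_neg, dm_add, dm_neg, ← sub_eq_add_neg]

variable (κ) in
/-- The derivation as a linear map. -/
def dmL : Matrix B B ℂ →ₗ[ℂ] Matrix (κ → B) (κ → B) ℂ where
  toFun := dm κ
  map_add' := dm_add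
  map_smul' := dm_smul

theorem dm_sum {ι : Type*} (s : Finset ι) (X : ι → Matrix B B ℂ) :
    dm κ (∑ i ∈ s, X i) = ∑ i ∈ s, dm κ (X i) := map_sum (dmL κ) X s

theorem dm_conjTranspose (X : Matrix B B ℂ) : (dm κ X)ᴴ = dm κ Xᴴ := by
  unfold dm kd
  rw [conjTranspose_sum]
  refine Finset.sum_congr rfl fun k _ => ?_
  rw [kpp_conjTranspose]
  congr 1
  funext l
  by_cases hl : l = k
  · subst hl
    rw [Function.update_self, Function.update_self]
  · rw [Function.update_of_ne hl, Function.update_of_ne hl, conjTranspose_one]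

/-- Conjugation of derivations. -/
theorem kp_mul_dm {g X Y : Matrix B B ℂ} (h : g * X = Y * g) :
    kp κ g * dm κ X = dm κ Y * kp κ g := by
  unfold dm
  rw [kp_mul_kd, kd_mul_kp, mul_one, one_mul, h]

theorem kpp_single_apply (k : κ) (X : Matrix B B ℂ) (I J : κ → B) :
    kpp (Function.update (fun _ => (1 : Matrix B B ℂ)) k X) I J =
      if J = Function.update I k (J k) then X (I k) (J k) else 0 := by
  rw [kpp_apply, ← Finset.mul_prod_erase _ _ (Finset.mem_univ k), Function.update_self]
  have h2 : ∏ l ∈ Finset.univ.erase k,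
      Function.update (fun _ => (1 : Matrix B B ℂ)) k X l (I l) (J l) =
      ∏ l ∈ Finset.univ.erase k, (1 : Matrix B B ℂ) (I l) (J l) := by
    refine Finset.prod_congr rfl fun l hl => ?_
    rw [Function.update_of_ne (Finset.ne_of_mem_erase hl)]
  rw [h2]
  split_ifs with h
  · rw [Finset.prod_eq_one, mul_one]
    intro l hl
    have h3 := congrFun h l
    rw [Function.update_of_ne (Finset.ne_of_mem_erase hl)] at h3
    rw [h3, Matrix.one_apply_eq]
  · have h3 : ∃ l, l ≠ k ∧ J l ≠ I l := by
      by_contra hcon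
      push Not at hcon
      apply h
      funext l
      by_cases hl : l = k
      · subst hl
        rw [Function.update_self]
      · rw [Function.update_of_ne hl, hcon l hl]
    obtain ⟨l, hl, hne⟩ := h3
    have h4 : (1 : Matrix B B ℂ) (I l) (J l) = 0 := Matrix.one_apply_ne (Ne.symm hne)
    rw [Finset.prod_eq_zero (Finset.mem_erase.2 ⟨hl, Finset.mem_univ l⟩) h4, mul_zero]

/-- The derivation in coordinates. -/
theorem dm_mulVec (X : Matrix B B ℂ) (c : (κ → B) → ℂ) : dm κ X *ᵥ c = act Xᵀ c := by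
  funext I
  unfold dm kd
  rw [Matrix.sum_mulVec, Finset.sum_apply]
  unfold act
  refine Finset.sum_congr rfl fun k _ => ?_
  unfold mulVec dotProduct
  simp only [kpp_single_apply, ite_mul, zero_mul]
  rw [← Finset.sum_filter]
  refine Finset.sum_bij' (fun J _ => J k) (fun j _ => Function.update I k j) ?_ ?_ ?_ ?_ ?_
  · intro J _
    exact Finset.mem_univ _
  · intro j _
    rw [Finset.mem_filter]
    refine ⟨Finset.mem_univ _, ?_⟩
    rw [Function.update_self]
  · intro J hJ
    rw [Finset.mem_filter] at hJ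
    exact hJ.2.symm
  · intro j _
    rw [Function.update_self]
  · intro J hJ
    rw [Finset.mem_filter] at hJ
    rw [transpose_apply]
    conv_lhs => rw [hJ.2]
    rw [Function.update_self]

theorem dm_mulVec_apply (X : Matrix B B ℂ) (c : (κ → B) → ℂ) (I : κ → B) :
    (dm κ X *ᵥ c) I = ∑ k, ∑ j, X (I k) j * c (Function.update I k j) := by
  rw [dm_mulVec]
  rfl

theorem matrix_ext_mulVec {n : Type*} [Fintype n] [DecidableEq n] {M N : Matrix n n ℂ}
    (h : ∀ c, M *ᵥ c = N *ᵥ c) : M = N :=
  Matrix.toLin'.injective (LinearMap.ext fun c => by rw [toLin'_apply, toLin'_apply, h])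

theorem dm_bracket (X Y : Matrix B B ℂ) :
    dm κ (X * Y - Y * X) = dm κ X * dm κ Y - dm κ Y * dm κ X := by
  refine matrix_ext_mulVec fun c => ?_
  rw [sub_mulVec, ← mulVec_mulVec, ← mulVec_mulVec, dm_mulVec, dm_mulVec, dm_mulVec, dm_mulVec,
    dm_mulVec, act_comm, transpose_sub, transpose_mul, transpose_mul]

/-- The derivation given by a diagonal matrix. -/
theorem dm_diagonal (d : B → ℂ) (c : (κ → B) → ℂ) (I : κ → B) :
    (dm κ (diagonal d) *ᵥ c) I = (∑ k, d (I k)) * c I := by
  rw [dm_mulVec_apply, Finset.sum_mul]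
  refine Finset.sum_congr rfl fun k _ => ?_
  rw [Finset.sum_eq_single (I k)]
  · rw [diagonal_apply_eq, Function.update_eq_self]
  · intro j _ hj
    rw [diagonal_apply_ne _ (fun h => hj h.symm), zero_mul]
  · intro h
    exact absurd (Finset.mem_univ _) h

theorem kp_diagonal (d : B → ℂ) (c : (κ → B) → ℂ) (I : κ → B) :
    (kp κ (diagonal d) *ᵥ c) I = (∏ k, d (I k)) * c I := by
  rw [mvA, Finset.sum_eq_single I]
  · rw [kp_apply]
    congr 1
    exact Finset.prod_congr rfl fun k _ => diagonal_apply_eq _ _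
  · intro J _ hJ
    obtain ⟨k, hk⟩ := Function.ne_iff.1 hJ
    have h4 : diagonal d (I k) (J k) = 0 := diagonal_apply_ne _ (Ne.symm hk)
    rw [kp_apply, Finset.prod_eq_zero (Finset.mem_univ k) h4, zero_mul]
  · intro h
    exact absurd (Finset.mem_univ _) h

/-- The action of a matrix on tensors, as the value of a form. -/
theorem kp_mulVec_apply (M : Matrix B B ℂ) (c : (κ → B) → ℂ) (I : κ → B) :
    (kp κ M *ᵥ c) I = evalF c (fun k => M (I k)) := by
  rw [mvA]
  unfold evalF
  refine Finset.sum_congr rfl fun J _ => ?_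
  rw [kp_apply, mul_comm]

theorem evalF_kp (M : Matrix B B ℂ) (c : (κ → B) → ℂ) (x : κ → B → ℂ) :
    evalF (kp κ Mᵀ *ᵥ c) x = evalF c (fun k => M *ᵥ x k) := by
  unfold evalF
  simp only [mvA, Finset.sum_mul]
  rw [Finset.sum_comm]
  refine Finset.sum_congr rfl fun J _ => ?_
  rw [Finset.prod_univ_sum, Fintype.piFinset_univ, Finset.mul_sum]
  refine Finset.sum_congr rfl fun I _ => ?_
  rw [kp_apply, Finset.prod_mul_distrib]
  simp only [transpose_apply]
  ring

/-- Complex conjugation of tensors. -/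
theorem kp_conj (M : Matrix B B ℂ) (c : (κ → B) → ℂ) :
    (fun I => starRingEnd ℂ ((kp κ M *ᵥ c) I)) =
      kp κ (M.map (starRingEnd ℂ)) *ᵥ fun I => starRingEnd ℂ (c I) := by
  funext I
  simp only [mvA, map_sum, map_mul, kp_apply, map_prod]
  rfl

section deriv

/-- The derivative of the value of a form. -/
theorem hasDerivAt_evalF (c : (κ → B) → ℂ) {x : ℝ → κ → B → ℂ} {x' : κ → B → ℂ} {s : ℝ}
    (hx : ∀ k i, HasDerivAt (fun s => x s k i) (x' k i) s) :
    HasDerivAt (fun s => evalF c (x s)) (∑ k, evalF c (Function.update (x s) k (x' k))) s := by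
  unfold evalF
  rw [Finset.sum_comm]
  refine HasDerivAt.fun_sum fun I _ => ?_
  rw [← Finset.mul_sum]
  refine HasDerivAt.const_mul _ ?_
  have h1 := HasDerivAt.fun_finsetProd (u := Finset.univ) (f := fun k s => x s k (I k))
    (f' := fun k => x' k (I k)) (x := s) fun k _ => hx k (I k)
  refine h1.congr_deriv ?_
  refine Finset.sum_congr rfl fun k _ => ?_
  rw [← Finset.mul_prod_erase _ _ (Finset.mem_univ k), Function.update_self, smul_eq_mul, mul_comm]
  congr 1
  refine Finset.prod_congr rfl fun l hl => ?_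
  rw [Function.update_of_ne (Finset.ne_of_mem_erase hl)]

end deriv

end

end Pool.Agent.NH32
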