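import Mathlib
import Pool.Agent.NH32.Ten
import Pool.Agent.NH32.SW

/-!
# The compact symplectic group
-/

set_option linter.unusedSectionVars false

namespace Pool.Agent.NH32

open Matrix MeasureTheory

noncomputable section

variable {B : Type} [Fintype B] [DecidableEq B]

instance unitary_compact : CompactSpace (Matrix.unitaryGroup B ℂ) := by
  have h1 : IsCompact ((Matrix.unitaryGroup B ℂ : Submonoid (Matrix B B ℂ)) :
      Set (Matrix B B ℂ)) := by
    have h2 : IsCompact (Set.pi Set.univ fun _ : B => Set.pi Set.univ fun _ : B =>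
        Metric.closedBall (0 : ℂ) 1) :=
      isCompact_univ_pi fun _ => isCompact_univ_pi fun _ => isCompact_closedBall _ _
    refine IsCompact.of_isClosed_subset (s := (Set.pi Set.univ fun _ : B =>
      Set.pi Set.univ fun _ : B => Metric.closedBall (0 : ℂ) 1 : Set (B → B → ℂ))) h2 ?_ ?_
    · have h3 : ((Matrix.unitaryGroup B ℂ : Submonoid (Matrix B B ℂ)) : Set (Matrix B B ℂ)) =
          {u | u * star u = 1} := by
        ext u
        exact Matrix.mem_unitaryGroup_iff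
      rw [h3]
      exact isClosed_eq (by fun_prop) continuous_const
    · intro u hu i _ j _
      rw [mem_closedBall_zero_iff]
      exact entry_norm_bound_of_unitary hu i j
  exact isCompact_iff_compactSpace.1 h1

/-- The compact symplectic group. -/
def USp (Om : Matrix B B ℂ) : Subgroup (Matrix.unitaryGroup B ℂ) where
  carrier := {u | (u : Matrix B B ℂ)ᵀ * Om * (u : Matrix B B ℂ) = Om}
  one_mem' := by
    change (1 : Matrix B B ℂ)ᵀ * Om * 1 = Om
    rw [transpose_one, one_mul, mul_one]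
  mul_mem' := by
    intro a b ha hb
    change ((a : Matrix B B ℂ) * (b : Matrix B B ℂ))ᵀ * Om *
      ((a : Matrix B B ℂ) * (b : Matrix B B ℂ)) = Om
    have ha' : (a : Matrix B B ℂ)ᵀ * Om * (a : Matrix B B ℂ) = Om := ha
    have hb' : (b : Matrix B B ℂ)ᵀ * Om * (b : Matrix B B ℂ) = Om := hb
    rw [transpose_mul]
    calc (b : Matrix B B ℂ)ᵀ * (a : Matrix B B ℂ)ᵀ * Om * ((a : Matrix B B ℂ) * (b : Matrix B B ℂ))
        = (b : Matrix B B ℂ)ᵀ * ((a : Matrix B B ℂ)ᵀ * Om * (a : Matrix B B ℂ)) *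
          (b : Matrix B B ℂ) := by
          noncomm_ring
      _ = Om := by rw [ha', hb']
  inv_mem' := by
    intro a ha
    change ((a⁻¹ : Matrix.unitaryGroup B ℂ) : Matrix B B ℂ)ᵀ * Om *
      ((a⁻¹ : Matrix.unitaryGroup B ℂ) : Matrix B B ℂ) = Om
    have ha' : (a : Matrix B B ℂ)ᵀ * Om * (a : Matrix B B ℂ) = Om := ha
    have h1 : (a : Matrix B B ℂ) * ((a⁻¹ : Matrix.unitaryGroup B ℂ) : Matrix B B ℂ) = 1 := by
      have h2 := congrArg (fun z : Matrix.unitaryGroup B ℂ => (z : Matrix B B ℂ))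
        (mul_inv_cancel a)
      exact h2
    have h3 : ((a⁻¹ : Matrix.unitaryGroup B ℂ) : Matrix B B ℂ)ᵀ * (a : Matrix B B ℂ)ᵀ = 1 := by
      rw [← transpose_mul, h1, transpose_one]
    calc ((a⁻¹ : Matrix.unitaryGroup B ℂ) : Matrix B B ℂ)ᵀ * Om *
          ((a⁻¹ : Matrix.unitaryGroup B ℂ) : Matrix B B ℂ)
        = ((a⁻¹ : Matrix.unitaryGroup B ℂ) : Matrix B B ℂ)ᵀ *
          ((a : Matrix B B ℂ)ᵀ * Om * (a : Matrix B B ℂ)) *
          ((a⁻¹ : Matrix.unitaryGroup B ℂ) : Matrix B B ℂ) := by rw [ha']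
      _ = (((a⁻¹ : Matrix.unitaryGroup B ℂ) : Matrix B B ℂ)ᵀ * (a : Matrix B B ℂ)ᵀ) * Om *
          ((a : Matrix B B ℂ) * ((a⁻¹ : Matrix.unitaryGroup B ℂ) : Matrix B B ℂ)) := by
          noncomm_ring
      _ = Om := by rw [h1, h3, one_mul, mul_one]

variable {Om : Matrix B B ℂ}

/-- The matrix of an element of the group. -/
def mt (u : USp Om) : Matrix B B ℂ := ((u : Matrix.unitaryGroup B ℂ) : Matrix B B ℂ)

theorem mt_mul (u v : USp Om) : mt (u * v) = mt u * mt v := rfl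

theorem mt_one : mt (1 : USp Om) = 1 := rfl

theorem mt_inv (u : USp Om) : mt u⁻¹ = (mt u)ᴴ := rfl

theorem mt_sp (u : USp Om) : (mt u)ᵀ * Om * mt u = Om := u.2

theorem mt_mul_inv (u : USp Om) : mt u * mt u⁻¹ = 1 := by
  rw [← mt_mul, mul_inv_cancel, mt_one]

theorem mt_inv_mul (u : USp Om) : mt u⁻¹ * mt u = 1 := by
  rw [← mt_mul, inv_mul_cancel, mt_one]

theorem continuous_mt : Continuous (mt : USp Om → Matrix B B ℂ) :=
  continuous_subtype_val.comp continuous_subtype_val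

/-- Construction of elements of the group. -/
def mkU (u : Matrix B B ℂ) (h1 : uᴴ * u = 1) (h2 : uᵀ * Om * u = Om) : USp Om :=
  ⟨⟨u, Matrix.mem_unitaryGroup_iff'.2 h1⟩, h2⟩

theorem mt_mkU (u : Matrix B B ℂ) (h1 : uᴴ * u = 1) (h2 : uᵀ * Om * u = Om) :
    mt (mkU u h1 h2) = u := rfl

theorem USp_closed : IsClosed (USp Om : Set (Matrix.unitaryGroup B ℂ)) := by
  have h1 : (USp Om : Set (Matrix.unitaryGroup B ℂ)) =
      {u : Matrix.unitaryGroup B ℂ | (u : Matrix B B ℂ)ᵀ * Om * (u : Matrix B B ℂ) = Om} := rfl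
  rw [h1]
  refine isClosed_eq ?_ continuous_const
  have h2 : Continuous fun u : Matrix.unitaryGroup B ℂ => (u : Matrix B B ℂ) :=
    continuous_subtype_val
  fun_prop

instance USp_compact : CompactSpace (USp Om) :=
  isCompact_iff_compactSpace.1 (USp_closed.isCompact)

instance USp_meas : MeasurableSpace (USp Om) := borel _

instance USp_borel : BorelSpace (USp Om) := ⟨rfl⟩

/-- The form is antisymmetric, real, and a complex structure. -/
structure IsOm (Om : Matrix B B ℂ) : Prop where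
  T : Omᵀ = -Om
  sq : Om * Om = -1
  real : Om.map (starRingEnd ℂ) = Om

theorem IsOm.inv_eq (hO : IsOm Om) (u : USp Om) : mt u⁻¹ = (-Om) * (mt u)ᵀ * Om := by
  have h1 := mt_sp u
  have h2 : (-Om) * Om = 1 := by rw [neg_mul, hO.sq, neg_neg]
  calc mt u⁻¹ = ((-Om) * Om) * mt u⁻¹ := by rw [h2, one_mul]
    _ = ((-Om) * ((mt u)ᵀ * Om * mt u)) * mt u⁻¹ := by rw [h1]
    _ = (-Om) * (mt u)ᵀ * Om * (mt u * mt u⁻¹) := by noncomm_ring
    _ = _ := by rw [mt_mul_inv, mul_one]

theorem IsOm.conj_eq (hO : IsOm Om) (u : USp Om) :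
    (mt u).map (starRingEnd ℂ) = Om * mt u * (-Om) := by
  have h1 := congrArg Matrix.transpose (hO.inv_eq u)
  rw [transpose_mul, transpose_mul, transpose_neg, hO.T, transpose_transpose, mt_inv] at h1
  have h2 : ((mt u)ᴴ)ᵀ = (mt u).map (starRingEnd ℂ) := rfl
  rw [← h2, h1]
  noncomm_ring

end

end Pool.Agent.NH32
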