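import Mathlib
import Pool.Agent.NH32.Grp

/-!
# One-parameter groups and invariants
-/

set_option linter.unusedSectionVars false

namespace Pool.Agent.NH32

open Matrix NormedSpace Pool.Agent.W437.HC

noncomputable section

variable {B : Type*} [Fintype B] [DecidableEq B] {κ : Type*} [Fintype κ] [DecidableEq κ]

/-- Solutions of the differential equation `E' = E X`. -/
def IsCurve (E : ℝ → Matrix B B ℂ) (X : Matrix B B ℂ) : Prop :=
  ∀ s i j, HasDerivAt (fun s => E s i j) ((E s * X) i j) s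

theorem IsCurve.deriv {E : ℝ → Matrix B B ℂ} {X : Matrix B B ℂ} (hE : IsCurve E X)
    (x : (κ → B) → ℂ) (I : κ → B) (s : ℝ) :
    HasDerivAt (fun s => (kp κ (E s) *ᵥ x) I) ((kp κ (E s) *ᵥ (dm κ X *ᵥ x)) I) s := by
  simp only [kp_mulVec_apply]
  have h1 := hasDerivAt_evalF x (x := fun s k => E s (I k)) (x' := fun k => (E s * X) (I k))
    (s := s) fun k i => hE s (I k) i
  refine h1.congr_deriv ?_
  rw [dm_mulVec, evalF_act]
  refine Finset.sum_congr rfl fun k _ => ?_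
  congr 2
  funext j
  rw [Matrix.mul_apply, mvA]
  refine Finset.sum_congr rfl fun l _ => ?_
  rw [transpose_apply, mul_comm]

theorem IsCurve.fix {E : ℝ → Matrix B B ℂ} {X : Matrix B B ℂ} (hE : IsCurve E X) (h0 : E 0 = 1)
    {x : (κ → B) → ℂ} (hx : dm κ X *ᵥ x = 0) (s : ℝ) : kp κ (E s) *ᵥ x = x := by
  funext I
  have h1 : ∀ s, HasDerivAt (fun s => (kp κ (E s) *ᵥ x) I) 0 s := by
    intro s
    have h2 := hE.deriv x I s
    rw [hx, mulVec_zero] at h2
    exact h2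
  have h2 := is_const_of_deriv_eq_zero (fun s => (h1 s).differentiableAt)
    (fun s => (h1 s).deriv) s 0
  rw [h2, h0, kp_one, one_mulVec]

theorem IsCurve.of_fix {E : ℝ → Matrix B B ℂ} {X : Matrix B B ℂ} (hE : IsCurve E X) (h0 : E 0 = 1)
    {x : (κ → B) → ℂ} (hx : ∀ s, kp κ (E s) *ᵥ x = x) : dm κ X *ᵥ x = 0 := by
  funext I
  have h1 := hE.deriv x I 0
  have h2 : (fun s => (kp κ (E s) *ᵥ x) I) = fun _ => x I := by
    funext s
    rw [hx]
  rw [h2, h0, kp_one, one_mulVec] at h1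
  exact h1.unique (hasDerivAt_const _ _)

theorem isCurve_exp (X : Matrix B B ℂ) : IsCurve (fun s : ℝ => exp (s • X)) X := by
  intro s i j
  open scoped Matrix.Norms.Operator in
  have h1 : HasDerivAt (fun s : ℝ => exp (s • X)) (exp (s • X) * X) s :=
    hasDerivAt_exp_smul_const (𝕂 := ℝ) X s
  open scoped Matrix.Norms.Operator in
  have h2 := (Matrix.entryLinearMap ℝ ℂ i j).toContinuousLinearMap.hasFDerivAt.comp_hasDerivAt
      s h1
  exact h2

theorem exp_zero_smul (X : Matrix B B ℂ) : exp ((0 : ℝ) • X) = 1 := by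
  rw [zero_smul, exp_zero]

/-- Rotations. -/
theorem isCurve_rot {J : Matrix B B ℂ} (hJ : J * J = -1) :
    IsCurve (fun s : ℝ => (Real.cos s : ℂ) • (1 : Matrix B B ℂ) + (Real.sin s : ℂ) • J) J := by
  intro s i j
  have h1 : (fun s : ℝ => ((Real.cos s : ℂ) • (1 : Matrix B B ℂ) + (Real.sin s : ℂ) • J) i j) =
      fun s : ℝ => (Real.cos s : ℂ) * (1 : Matrix B B ℂ) i j + (Real.sin s : ℂ) * J i j := by
    funext s
    rfl
  rw [h1]
  have h2 : (((Real.cos s : ℂ) • (1 : Matrix B B ℂ) + (Real.sin s : ℂ) • J) * J) i j =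
      ((-Real.sin s : ℝ) : ℂ) * (1 : Matrix B B ℂ) i j + (Real.cos s : ℂ) * J i j := by
    rw [Matrix.add_mul, Matrix.smul_mul, Matrix.smul_mul, hJ, Matrix.one_mul, Matrix.add_apply,
      Matrix.smul_apply, Matrix.smul_apply, Matrix.neg_apply, smul_eq_mul, smul_eq_mul]
    push_cast
    ring
  rw [h2]
  have h3 : HasDerivAt (fun s : ℝ => (Real.cos s : ℂ)) ((-Real.sin s : ℝ) : ℂ) s :=
    (Real.hasDerivAt_cos s).ofReal_comp
  have h4 : HasDerivAt (fun s : ℝ => (Real.sin s : ℂ)) (Real.cos s : ℂ) s :=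
    (Real.hasDerivAt_sin s).ofReal_comp
  exact (h3.mul_const _).add (h4.mul_const _)

theorem fix_of_rot {J : Matrix B B ℂ} (hJ : J * J = -1) {x : (κ → B) → ℂ}
    (hx : dm κ J *ᵥ x = 0) : kp κ J *ᵥ x = x := by
  have h1 := (isCurve_rot hJ).fix (by
    rw [Real.cos_zero, Real.sin_zero]
    simp) hx (Real.pi / 2)
  rw [Real.cos_pi_div_two, Real.sin_pi_div_two] at h1
  simpa using h1

end

noncomputable section

variable {B : Type} [Fintype B] [DecidableEq B] {κ : Type*} [Fintype κ] [DecidableEq κ]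
  {Om : Matrix B B ℂ}

theorem exp_unitary {X : Matrix B B ℂ} (hX : Xᴴ = -X) (s : ℝ) :
    (exp (s • X))ᴴ * exp (s • X) = 1 := by
  rw [← Matrix.exp_conjTranspose, conjTranspose_smul, hX, star_trivial, smul_neg,
    ← Matrix.exp_add_of_commute]
  · rw [neg_add_cancel, exp_zero]
  · exact (Commute.refl (s • X)).neg_left

theorem exp_sp (h2 : Om * Om = -1) {X : Matrix B B ℂ} (hX : Xᵀ * Om + Om * X = 0)
    (s : ℝ) : (exp (s • X))ᵀ * Om * exp (s • X) = Om := by
  have hu : Om * (-Om) = 1 := by rw [mul_neg, h2, neg_neg]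
  have hinv : Om⁻¹ = -Om := Matrix.inv_eq_right_inv hu
  have hunit : IsUnit Om := IsUnit.of_mul_eq_one _ hu
  have h3 : (s • X)ᵀ = Om * (-(s • X)) * Om⁻¹ := by
    rw [hinv]
    have h4 : Xᵀ * Om = -(Om * X) := eq_neg_of_add_eq_zero_left hX
    have h5 : Om * (-(s • X)) * (-Om) = s • (Om * X * Om) := by
      rw [mul_neg, mul_neg, neg_mul, neg_neg, Matrix.mul_smul, Matrix.smul_mul]
    rw [h5, transpose_smul]
    congr 1
    have h6 : Om * X = -(Xᵀ * Om) := by rw [h4, neg_neg]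
    rw [h6, neg_mul, Matrix.mul_assoc, h2, mul_neg, mul_one, neg_neg]
  rw [← Matrix.exp_transpose, h3, Matrix.exp_conj _ _ hunit, Matrix.exp_neg, hinv]
  have h7 : IsUnit (exp (s • X)) := Matrix.isUnit_exp _
  have h8 : (exp (s • X))⁻¹ * exp (s • X) = 1 := Matrix.nonsing_inv_mul _
    ((Matrix.isUnit_iff_isUnit_det _).1 h7)
  calc Om * (exp (s • X))⁻¹ * -Om * Om * exp (s • X)
      = Om * (exp (s • X))⁻¹ * (-(Om * Om)) * exp (s • X) := by noncomm_ring
    _ = Om * ((exp (s • X))⁻¹ * exp (s • X)) := by rw [h2, neg_neg]; noncomm_ring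
    _ = Om := by rw [h8, mul_one]

/-- The elements of the group given by skew-Hermitian elements of the Lie algebra. -/
def eU (h2 : Om * Om = -1) {X : Matrix B B ℂ} (hX : Xᴴ = -X) (hsp : Xᵀ * Om + Om * X = 0)
    (s : ℝ) : USp Om := mkU (exp (s • X)) (exp_unitary hX s) (exp_sp h2 hsp s)

theorem mt_eU (h2 : Om * Om = -1) {X : Matrix B B ℂ} (hX : Xᴴ = -X)
    (hsp : Xᵀ * Om + Om * X = 0) (s : ℝ) : mt (eU h2 hX hsp s) = exp (s • X) := rfl

theorem IsOm.conjT (hO : IsOm Om) : Omᴴ = -Om := by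
  have h1 : Omᴴ = (Om.map (starRingEnd ℂ))ᵀ := rfl
  rw [h1, hO.real, hO.T]

/-- The adjoint of an element of the symplectic Lie algebra. -/
theorem IsOm.sp_adj (hO : IsOm Om) {X : Matrix B B ℂ} (hX : Xᵀ * Om + Om * X = 0) :
    (Xᴴ)ᵀ * Om + Om * Xᴴ = 0 := by
  have h1 := congrArg Matrix.conjTranspose hX
  rw [conjTranspose_add, conjTranspose_mul, conjTranspose_mul, conjTranspose_zero, hO.conjT] at h1
  have h2 : (Xᵀ)ᴴ = (Xᴴ)ᵀ := rfl
  rw [h2] at h1
  have h3 : Om * (-Om * (Xᴴ)ᵀ + Xᴴ * -Om) * Om = -((Om * Om) * ((Xᴴ)ᵀ * Om)) -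
      (Om * Xᴴ) * (Om * Om) := by noncomm_ring
  rw [h1, hO.sq, mul_zero, zero_mul] at h3
  rw [h3]
  noncomm_ring

/-- Invariants of the compact group are killed by the Lie algebra. -/
theorem kill_of_inv (hO : IsOm Om) {x : (κ → B) → ℂ}
    (hx : ∀ u : USp Om, kp κ (mt u) *ᵥ x = x) {X : Matrix B B ℂ} (hX : Xᵀ * Om + Om * X = 0) :
    dm κ X *ᵥ x = 0 := by
  have key : ∀ Y : Matrix B B ℂ, Yᴴ = -Y → Yᵀ * Om + Om * Y = 0 → dm κ Y *ᵥ x = 0 := by
    intro Y hY hsp
    exact (isCurve_exp Y).of_fix (exp_zero_smul Y) fun s => hx (eU hO.sq hY hsp s)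
  have ha := hO.sp_adj hX
  have h1 := key (X - Xᴴ) (by rw [conjTranspose_sub, conjTranspose_conjTranspose]; noncomm_ring)
    (by
      have h3 : (X - Xᴴ)ᵀ * Om + Om * (X - Xᴴ) = (Xᵀ * Om + Om * X) - ((Xᴴ)ᵀ * Om + Om * Xᴴ) := by
        rw [transpose_sub]
        noncomm_ring
      rw [h3, hX, ha, sub_zero])
  have h2 := key (Complex.I • (X + Xᴴ)) (by
      rw [conjTranspose_smul, conjTranspose_add, conjTranspose_conjTranspose]
      have h3 : star Complex.I = -Complex.I := Complex.conj_I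
      rw [h3, neg_smul, add_comm Xᴴ X])
    (by
      have h3 : (Complex.I • (X + Xᴴ))ᵀ * Om + Om * (Complex.I • (X + Xᴴ)) =
          Complex.I • ((Xᵀ * Om + Om * X) + ((Xᴴ)ᵀ * Om + Om * Xᴴ)) := by
        rw [transpose_smul, transpose_add, Matrix.smul_mul, Matrix.mul_smul, ← smul_add]
        congr 1
        noncomm_ring
      rw [h3, hX, ha, add_zero, smul_zero])
  have h3 : X = (1 / 2 : ℂ) • (X - Xᴴ) + (-(Complex.I) / 2 : ℂ) • (Complex.I • (X + Xᴴ)) := by
    rw [smul_smul]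
    have h4 : -(Complex.I) / 2 * Complex.I = 1 / 2 := by
      have := Complex.I_mul_I
      linear_combination (-1 / 2 : ℂ) * this
    rw [h4]
    module
  rw [h3, dm_add, dm_smul, dm_smul (-(Complex.I) / 2 : ℂ), add_mulVec, smul_mulVec, smul_mulVec,
    h1, h2, smul_zero, smul_zero, add_zero]

end

end Pool.Agent.NH32
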