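import Mathlib
import Pool.Agent.NH32.Grp

/-!
# Systems of tensors and compact groups
-/

set_option linter.unusedSectionVars false

namespace Pool.Agent.NH32

open Matrix MeasureTheory

noncomputable section

variable {B : Type} [Fintype B] [DecidableEq B] {Om : Matrix B B ℂ}

/-- A system of tensors which is stable under products, compositions and conjugation, and contains
the invariants of the compact symplectic group. -/
structure Tan (Om : Matrix B B ℂ)
    (T : ∀ (κ : Type) [Fintype κ] [DecidableEq κ], Submodule ℂ ((κ → B) → ℂ)) : Prop where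
  mul : ∀ (κ κ' : Type) [Fintype κ] [DecidableEq κ] [Fintype κ'] [DecidableEq κ']
    (t : (κ → B) → ℂ) (t' : (κ' → B) → ℂ), t ∈ T κ → t' ∈ T κ' →
    (fun I : κ ⊕ κ' → B => t (fun k => I (Sum.inl k)) * t' (fun k => I (Sum.inr k))) ∈ T (κ ⊕ κ')
  comp : ∀ (κ κ' : Type) [Fintype κ] [DecidableEq κ] [Fintype κ'] [DecidableEq κ']
    (ψ : (κ ⊕ κ' → B) → ℂ) (t : (κ' → B) → ℂ), ψ ∈ T (κ ⊕ κ') → t ∈ T κ' →
    (fun I : κ → B => ∑ J : κ' → B, ∑ K : κ' → B, kp κ' Om K J * ψ (Sum.elim I K) * t J) ∈ T κ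
  conj : ∀ (κ : Type) [Fintype κ] [DecidableEq κ] (t : (κ → B) → ℂ), t ∈ T κ →
    (kp κ (-Om) *ᵥ fun I => starRingEnd ℂ (t I)) ∈ T κ
  inv : ∀ (κ : Type) [Fintype κ] [DecidableEq κ] (t : (κ → B) → ℂ),
    (∀ u : USp Om, kp κ (mt u) *ᵥ t = t) → t ∈ T κ

variable {T : ∀ (κ : Type) [Fintype κ] [DecidableEq κ], Submodule ℂ ((κ → B) → ℂ)}

/-- The group fixing a system of tensors. -/
def Fx (Om : Matrix B B ℂ) (T : ∀ (κ : Type) [Fintype κ] [DecidableEq κ],
    Submodule ℂ ((κ → B) → ℂ)) : Subgroup (USp Om) where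
  carrier := {u | ∀ (κ : Type) [Fintype κ] [DecidableEq κ], ∀ t ∈ T κ, kp κ (mt u) *ᵥ t = t}
  one_mem' := by
    intro κ _ _ t _
    rw [mt_one, kp_one, one_mulVec]
  mul_mem' := by
    intro a b ha hb κ _ _ t ht
    rw [mt_mul, kp_mul, ← mulVec_mulVec, hb κ t ht, ha κ t ht]
  inv_mem' := by
    intro a ha κ _ _ t ht
    have h1 := ha κ t ht
    conv_lhs => rw [← h1]
    rw [mulVec_mulVec, ← kp_mul, mt_inv_mul, kp_one, one_mulVec]

theorem continuous_kp (κ : Type) [Fintype κ] [DecidableEq κ] (I J : κ → B) :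
    Continuous fun u : USp Om => kp κ (mt u) I J := by
  simp only [kp_apply]
  refine continuous_finsetProd _ fun k _ => ?_
  exact (continuous_apply (J k)).comp ((continuous_apply (I k)).comp continuous_mt)

theorem continuous_kp_mulVec (κ : Type) [Fintype κ] [DecidableEq κ] (t : (κ → B) → ℂ)
    (I : κ → B) : Continuous fun u : USp Om => (kp κ (mt u) *ᵥ t) I := by
  simp only [mvA]
  exact continuous_finsetSum _ fun J _ => (continuous_kp κ I J).mul continuous_const

/-- The matrix coefficients. -/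
def coef (κ : Type) [Fintype κ] [DecidableEq κ] (t : (κ → B) → ℂ) (I : κ → B) : C(USp Om, ℂ) :=
  ⟨fun v => (kp κ (mt v⁻¹) *ᵥ t) I, (continuous_kp_mulVec κ t I).comp continuous_inv⟩

theorem coef_apply (κ : Type) [Fintype κ] [DecidableEq κ] (t : (κ → B) → ℂ) (I : κ → B)
    (v : USp Om) : coef κ t I v = (kp κ (mt v⁻¹) *ᵥ t) I := rfl

variable (Om T) in
/-- The set of the coefficients. -/
def CoefS : Set C(USp Om, ℂ) := {F | ∃ (κ : Type) (_ : Fintype κ) (_ : DecidableEq κ)
  (t : (κ → B) → ℂ) (I : κ → B), t ∈ T κ ∧ F = coef κ t I}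

theorem kp_prod {κ κ' : Type} [Fintype κ] [DecidableEq κ] [Fintype κ'] [DecidableEq κ']
    (M : Matrix B B ℂ) (t : (κ → B) → ℂ) (t' : (κ' → B) → ℂ) (I : κ ⊕ κ' → B) :
    (kp (κ ⊕ κ') M *ᵥ fun I => t (fun k => I (Sum.inl k)) * t' (fun k => I (Sum.inr k))) I =
      (kp κ M *ᵥ t) (fun k => I (Sum.inl k)) * (kp κ' M *ᵥ t') (fun k => I (Sum.inr k)) := by
  rw [mvA, mvA, mvA, Finset.sum_mul_sum, ← Fintype.sum_prod_type']
  refine Fintype.sum_equiv (Equiv.sumArrowEquivProdArrow κ κ' B) _ _ fun J => ?_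
  rw [kp_apply, kp_apply, kp_apply, Fintype.prod_sum_type]
  simp only [Equiv.sumArrowEquivProdArrow, Equiv.coe_fn_mk, Function.comp_def]
  ring

/-- The algebra of the coefficients. -/
def CoefA (h : Tan Om T) (hO : IsOm Om) : StarSubalgebra ℂ C(USp Om, ℂ) where
  carrier := Submodule.span ℂ (CoefS Om T)
  add_mem' := fun ha hb => Submodule.add_mem _ ha hb
  mul_mem' := by
    intro a b ha hb
    induction ha using Submodule.span_induction with
    | mem a ha =>
      induction hb using Submodule.span_induction with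
      | mem b hb =>
        obtain ⟨κ, i1, i2, t, I, ht, rfl⟩ := ha
        obtain ⟨κ', i3, i4, t', I', ht', rfl⟩ := hb
        refine Submodule.subset_span ⟨κ ⊕ κ', inferInstance, inferInstance, _, Sum.elim I I',
          h.mul κ κ' t t' ht ht', ?_⟩
        ext v
        rw [ContinuousMap.mul_apply, coef_apply, coef_apply, coef_apply, kp_prod]
        rfl
      | zero => rw [mul_zero]; exact Submodule.zero_mem _
      | add x y _ _ hx hy => rw [mul_add]; exact Submodule.add_mem _ hx hy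
      | smul c x _ hx => rw [mul_smul_comm]; exact Submodule.smul_mem _ _ hx
    | zero => rw [zero_mul]; exact Submodule.zero_mem _
    | add x y _ _ hx hy => rw [add_mul]; exact Submodule.add_mem _ hx hy
    | smul c x _ hx => rw [smul_mul_assoc]; exact Submodule.smul_mem _ _ hx
  algebraMap_mem' := by
    intro r
    have h1 : (algebraMap ℂ C(USp Om, ℂ)) r =
        r • coef (Om := Om) Empty (fun _ : Empty → B => (1 : ℂ)) (fun e => e.elim) := by
      ext v
      rw [ContinuousMap.smul_apply, coef_apply, mvA]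
      have h2 : ∀ J : Empty → B, kp Empty (mt v⁻¹) (fun e => e.elim) J * 1 = (1 : ℂ) := by
        intro J
        rw [kp_apply]
        simp
      rw [Finset.sum_congr rfl fun J _ => h2 J]
      simp
    rw [h1]
    refine Submodule.smul_mem _ _ (Submodule.subset_span ⟨Empty, inferInstance, inferInstance, _,
      _, ?_, rfl⟩)
    refine h.inv Empty _ fun u => ?_
    funext I
    rw [mvA]
    have h2 : ∀ J : Empty → B, kp Empty (mt u) I J * 1 = (1 : ℂ) := by
      intro J
      rw [kp_apply]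
      simp
    rw [Finset.sum_congr rfl fun J _ => h2 J]
    simp
  star_mem' := by
    intro a ha
    induction ha using Submodule.span_induction with
    | mem a ha =>
      obtain ⟨κ, i1, i2, t, I, ht, rfl⟩ := ha
      have h1 : star (coef κ t I) = ∑ J : κ → B, kp κ Om I J •
          coef (Om := Om) κ (kp κ (-Om) *ᵥ fun I => starRingEnd ℂ (t I)) J := by
        ext v
        rw [ContinuousMap.star_apply, coef_apply, ContinuousMap.sum_apply]
        have h2 := congrFun (kp_conj (mt v⁻¹) t) I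
        have h3 : star ((kp κ (mt v⁻¹) *ᵥ t) I) = starRingEnd ℂ ((kp κ (mt v⁻¹) *ᵥ t) I) := rfl
        rw [h3, h2, hO.conj_eq, kp_mul, kp_mul, ← mulVec_mulVec, ← mulVec_mulVec, mvA]
        refine Finset.sum_congr rfl fun J _ => ?_
        rw [ContinuousMap.smul_apply, coef_apply, smul_eq_mul]
      rw [h1]
      refine Submodule.sum_mem _ fun J _ => Submodule.smul_mem _ _ ?_
      exact Submodule.subset_span ⟨κ, i1, i2, _, J, h.conj κ t ht, rfl⟩
    | zero => rw [star_zero]; exact Submodule.zero_mem _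
    | add x y _ _ hx hy => rw [star_add]; exact Submodule.add_mem _ hx hy
    | smul c x _ hx => rw [star_smul]; exact Submodule.smul_mem _ _ hx

theorem mem_CoefA {h : Tan Om T} {hO : IsOm Om} {F : C(USp Om, ℂ)} :
    F ∈ CoefA h hO ↔ F ∈ Submodule.span ℂ (CoefS Om T) := Iff.rfl

/-- Haar measure. -/
abbrev hm (Om : Matrix B B ℂ) : Measure (USp Om) := Measure.haar

theorem integrable_C {E : Type*} [NormedAddCommGroup E] [NormedSpace ℝ E] {F : USp Om → E}
    (hF : Continuous F) : Integrable F (hm Om) :=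
  hF.integrable_of_hasCompactSupport (HasCompactSupport.of_compactSpace _)

/-- The average of a function, times a column of the tensor power. -/
def Lam (κ : Type) [Fintype κ] [DecidableEq κ] (I : κ → B) (f : C(USp Om, ℂ)) : (κ → B) → ℂ :=
  fun J => ∫ v, f v * kp κ (mt v) J I ∂(hm Om)

theorem Lam_int (κ : Type) [Fintype κ] [DecidableEq κ] (I J : κ → B) (f : C(USp Om, ℂ)) :
    Integrable (fun v => f v * kp κ (mt v) J I) (hm Om) :=
  integrable_C (f.continuous.mul (continuous_kp κ J I))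

theorem Lam_add (κ : Type) [Fintype κ] [DecidableEq κ] (I : κ → B) (f g : C(USp Om, ℂ)) :
    Lam κ I (f + g) = Lam κ I f + Lam κ I g := by
  funext J
  rw [Pi.add_apply]
  unfold Lam
  rw [← integral_add (Lam_int κ I J f) (Lam_int κ I J g)]
  refine integral_congr_ae (Filter.Eventually.of_forall fun v => ?_)
  change (f + g) v * _ = f v * _ + g v * _
  rw [ContinuousMap.add_apply, add_mul]

theorem Lam_smul (κ : Type) [Fintype κ] [DecidableEq κ] (I : κ → B) (c : ℂ) (f : C(USp Om, ℂ)) :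
    Lam κ I (c • f) = c • Lam κ I f := by
  funext J
  rw [Pi.smul_apply]
  unfold Lam
  rw [← integral_smul]
  refine integral_congr_ae (Filter.Eventually.of_forall fun v => ?_)
  change (c • f) v * _ = c • (f v * _)
  rw [ContinuousMap.smul_apply, smul_eq_mul, smul_eq_mul, mul_assoc]

/-- The average as a linear map. -/
def LamL (κ : Type) [Fintype κ] [DecidableEq κ] (I : κ → B) :
    C(USp Om, ℂ) →ₗ[ℂ] ((κ → B) → ℂ) where
  toFun := Lam κ I
  map_add' := Lam_add κ I
  map_smul' := Lam_smul κ I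

theorem continuous_Lam (κ : Type) [Fintype κ] [DecidableEq κ] (I : κ → B) :
    Continuous (Lam κ I : C(USp Om, ℂ) → ((κ → B) → ℂ)) := by
  refine continuous_pi fun J => ?_
  let l : C(USp Om, ℂ) →ₗ[ℂ] ℂ := (LinearMap.proj J).comp (LamL κ I)
  have hl : ∀ f, l f = Lam κ I f J := fun f => rfl
  obtain ⟨C, hC⟩ : ∃ C : ℝ, ∀ v : USp Om, ‖kp κ (mt v) J I‖ ≤ C := by
    obtain ⟨C, hC⟩ := (isCompact_range (continuous_kp (Om := Om) κ J I)).isBounded.exists_norm_le
    exact ⟨C, fun v => hC _ ⟨v, rfl⟩⟩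
  have h2 : Continuous (l.mkContinuous (C * (hm Om).real Set.univ) fun f => by
      rw [hl]
      unfold Lam
      have h3 := norm_integral_le_of_norm_le_const (μ := hm Om)
        (f := fun v => f v * kp κ (mt v) J I) (C := ‖f‖ * C)
        (Filter.Eventually.of_forall fun v => by
          rw [norm_mul]
          exact mul_le_mul (f.norm_coe_le_norm v) (hC v) (norm_nonneg _) (norm_nonneg _))
      refine h3.trans (le_of_eq ?_)
      ring) := ContinuousLinearMap.continuous _
  exact h2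

theorem Lam_coef (h : Tan Om T) (hO : IsOm Om) {κ κ' : Type} [Fintype κ] [DecidableEq κ]
    [Fintype κ'] [DecidableEq κ'] (I : κ → B) (t : (κ' → B) → ℂ) (J : κ' → B) (ht : t ∈ T κ') :
    Lam (Om := Om) κ I (coef κ' t J) ∈ T κ := by
  -- the averaged tensor
  let ξ : (κ ⊕ κ' → B) → ℂ := fun S => (if (fun k => S (Sum.inl k)) = I then 1 else 0) *
    kp κ' (-Om) J (fun k => S (Sum.inr k))
  have hξ : ∀ (v : USp Om) (S : κ ⊕ κ' → B), (kp (κ ⊕ κ') (mt v) *ᵥ ξ) S =
      kp κ (mt v) (fun k => S (Sum.inl k)) I *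
        ∑ L, kp κ' (mt v) (fun k => S (Sum.inr k)) L * kp κ' (-Om) J L := by
    intro v S
    have h1 := kp_prod (mt v) (fun K : κ → B => if K = I then (1 : ℂ) else 0)
      (fun L : κ' → B => kp κ' (-Om) J L) S
    have h2 : (kp (κ ⊕ κ') (mt v) *ᵥ ξ) S = _ := h1
    rw [h2, mvA, mvA]
    congr 1
    simp
  let ψ : (κ ⊕ κ' → B) → ℂ := fun S => ∫ v, (kp (κ ⊕ κ') (mt v) *ᵥ ξ) S ∂(hm Om)
  have hψ : ψ ∈ T (κ ⊕ κ') := by
    refine h.inv _ _ fun u => ?_
    funext S
    rw [mvA]
    have h1 : ∀ S', kp (κ ⊕ κ') (mt u) S S' * ψ S' =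
        ∫ v, kp (κ ⊕ κ') (mt u) S S' * (kp (κ ⊕ κ') (mt v) *ᵥ ξ) S' ∂(hm Om) := by
      intro S'
      rw [integral_const_mul]
    rw [Finset.sum_congr rfl fun S' _ => h1 S', ← integral_finsetSum]
    · have h2 : ∀ v : USp Om, ∑ S', kp (κ ⊕ κ') (mt u) S S' * (kp (κ ⊕ κ') (mt v) *ᵥ ξ) S' =
          (kp (κ ⊕ κ') (mt (u * v)) *ᵥ ξ) S := by
        intro v
        rw [mt_mul, kp_mul, ← mulVec_mulVec, mvA (kp (κ ⊕ κ') (mt u))]
      rw [integral_congr_ae (Filter.Eventually.of_forall h2)]
      exact integral_mul_left_eq_self (μ := hm Om)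
        (fun v => (kp (κ ⊕ κ') (mt v) *ᵥ ξ) S) u
    · intro S' _
      exact integrable_C (continuous_const.mul (continuous_kp_mulVec _ ξ S'))
  have h1 := h.comp κ κ' ψ t hψ ht
  have h2 : (fun I' : κ → B => ∑ J' : κ' → B, ∑ K : κ' → B,
      kp κ' Om K J' * ψ (Sum.elim I' K) * t J') = Lam (Om := Om) κ I (coef κ' t J) := by
    funext I'
    have h3 : ∀ J' K, kp κ' Om K J' * ψ (Sum.elim I' K) * t J' =
        ∫ v, kp κ' Om K J' * (kp (κ ⊕ κ') (mt v) *ᵥ ξ) (Sum.elim I' K) * t J' ∂(hm Om) := by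
      intro J' K
      rw [integral_mul_const, integral_const_mul]
    have hint : ∀ J' K, Integrable (fun v => kp κ' Om K J' *
        (kp (κ ⊕ κ') (mt v) *ᵥ ξ) (Sum.elim I' K) * t J') (hm Om) := fun J' K =>
      integrable_C ((continuous_const.mul (continuous_kp_mulVec _ ξ _)).mul continuous_const)
    have h4 : ∑ J' : κ' → B, ∑ K : κ' → B, kp κ' Om K J' * ψ (Sum.elim I' K) * t J' =
        ∫ v, ∑ J' : κ' → B, ∑ K : κ' → B, kp κ' Om K J' *
          (kp (κ ⊕ κ') (mt v) *ᵥ ξ) (Sum.elim I' K) * t J' ∂(hm Om) := by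
      rw [integral_finsetSum]
      · refine Finset.sum_congr rfl fun J' _ => ?_
        rw [integral_finsetSum]
        · exact Finset.sum_congr rfl fun K _ => h3 J' K
        · intro K _
          exact hint J' K
      · intro J' _
        exact integrable_finsetSum _ fun K _ => hint J' K
    rw [h4]
    unfold Lam
    refine integral_congr_ae (Filter.Eventually.of_forall fun v => ?_)
    change ∑ J' : κ' → B, ∑ K : κ' → B, kp κ' Om K J' *
          (kp (κ ⊕ κ') (mt v) *ᵥ ξ) (Sum.elim I' K) * t J' = coef κ' t J v * kp κ (mt v) I' I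
    rw [coef_apply, mvA, Finset.sum_mul]
    refine Finset.sum_congr rfl fun J' _ => ?_
    simp only [hξ, Sum.elim_inl, Sum.elim_inr]
    have h5 : kp κ' (mt v⁻¹) J J' = ∑ K, (∑ L, kp κ' (mt v) K L * kp κ' (-Om) J L) *
        kp κ' Om K J' := by
      rw [hO.inv_eq, kp_mul, kp_mul, Matrix.mul_apply]
      refine Finset.sum_congr rfl fun K _ => ?_
      rw [Matrix.mul_apply]
      congr 1
      refine Finset.sum_congr rfl fun L _ => ?_
      rw [← kp_transpose, transpose_apply, mul_comm]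
    rw [h5, Finset.sum_mul, Finset.sum_mul]
    refine Finset.sum_congr rfl fun K _ => ?_
    change kp κ' Om K J' * (kp κ (mt v) I' I * ∑ L, kp κ' (mt v) K L * kp κ' (-Om) J L) * t J' = _
    ring
  rw [← h2]
  exact h1

theorem Lam_span (h : Tan Om T) (hO : IsOm Om) {κ : Type} [Fintype κ] [DecidableEq κ]
    (I : κ → B) {F : C(USp Om, ℂ)} (hF : F ∈ Submodule.span ℂ (CoefS Om T)) :
    Lam κ I F ∈ T κ := by
  induction hF using Submodule.span_induction with
  | mem F hF =>
    obtain ⟨κ', i1, i2, t, J, ht, rfl⟩ := hF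
    exact Lam_coef h hO I t J ht
  | zero =>
    have h5 : Lam κ I (0 : C(USp Om, ℂ)) = 0 := (LamL (Om := Om) κ I).map_zero
    rw [h5]
    exact Submodule.zero_mem _
  | add a b _ _ ha hb =>
    rw [Lam_add]
    exact Submodule.add_mem _ ha hb
  | smul c a _ ha =>
    rw [Lam_smul]
    exact Submodule.smul_mem _ _ ha

/-- **Duality**: a tensor which is fixed by the group fixing a system belongs to the system. -/
theorem tannaka (h : Tan Om T) (hO : IsOm Om) {κ : Type} [Fintype κ] [DecidableEq κ]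
    (x : (κ → B) → ℂ) (hx : ∀ u ∈ Fx Om T, kp κ (mt u) *ᵥ x = x) : x ∈ T κ := by
  -- the coefficients belong to the closure of the algebra
  have h1 : ∀ I : κ → B, coef κ x I ∈ (CoefA h hO).topologicalClosure := by
    intro I
    refine mem_closure_of_sep _ _ fun v w hvw => ?_
    have h2 : w * v⁻¹ ∈ Fx Om T := by
      intro κ' _ _ t ht
      have h3 : kp κ' (mt v⁻¹) *ᵥ t = kp κ' (mt w⁻¹) *ᵥ t := by
        funext J
        exact hvw (coef κ' t J) (Submodule.subset_span ⟨κ', _, _, t, J, ht, rfl⟩)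
      rw [mt_mul, kp_mul, ← mulVec_mulVec, h3, mulVec_mulVec, ← kp_mul, mt_mul_inv, kp_one,
        one_mulVec]
    have h3 := hx _ h2
    rw [coef_apply, coef_apply]
    conv_rhs => rw [← h3]
    rw [mulVec_mulVec, ← kp_mul, mt_mul, ← mul_assoc, mt_inv_mul, one_mul]
  -- averages
  have h2 : ∀ I : κ → B, Lam (Om := Om) κ I (coef κ x I) ∈ T κ := by
    intro I
    have h3 : coef κ x I ∈ closure (CoefA h hO : Set C(USp Om, ℂ)) := by
      rw [← StarSubalgebra.topologicalClosure_coe]
      exact h1 I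
    have hcl : IsClosed (T κ : Set ((κ → B) → ℂ)) := Submodule.closed_of_finiteDimensional _
    have h4 := map_mem_closure (continuous_Lam (Om := Om) κ I) h3 (t := (T κ : Set ((κ → B) → ℂ)))
      (fun F hF => Lam_span h hO I hF)
    rwa [hcl.closure_eq] at h4
  -- the total mass
  have hm0 : (hm Om).real Set.univ ≠ 0 := by
    rw [Measure.real, ENNReal.toReal_ne_zero]
    exact ⟨IsOpen.measure_ne_zero _ isOpen_univ Set.univ_nonempty, measure_ne_top _ _⟩
  have h3 : (∑ I, Lam (Om := Om) κ I (coef κ x I)) = ((hm Om).real Set.univ : ℂ) • x := by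
    funext J
    rw [Finset.sum_apply]
    unfold Lam
    rw [← integral_finsetSum]
    · have h4 : ∀ v : USp Om, ∑ I, coef κ x I v * kp κ (mt v) J I = x J := by
        intro v
        have h5 : ∑ I, coef κ x I v * kp κ (mt v) J I =
            (kp κ (mt v) *ᵥ (kp κ (mt v⁻¹) *ᵥ x)) J := by
          rw [mvA (kp κ (mt v))]
          refine Finset.sum_congr rfl fun I _ => ?_
          rw [coef_apply, mul_comm]
        rw [h5, mulVec_mulVec, ← kp_mul, mt_mul_inv, kp_one, one_mulVec]
      rw [integral_congr_ae (Filter.Eventually.of_forall h4), integral_const, Pi.smul_apply,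
        smul_eq_mul, Complex.real_smul]
    · intro I _
      exact Lam_int κ I J _
  have h4 : x = ((hm Om).real Set.univ : ℂ)⁻¹ • ∑ I, Lam (Om := Om) κ I (coef κ x I) := by
    rw [h3, smul_smul, inv_mul_cancel₀ (by exact_mod_cast hm0), one_smul]
  rw [h4]
  exact Submodule.smul_mem _ _ (Submodule.sum_mem _ fun I _ => h2 I)

end

end Pool.Agent.NH32
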