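import Mathlib
import Pool.Agent.NH32.Ten

/-!
# Decomposable tensors and exterior products of vectors
-/

set_option linter.unusedSectionVars false

namespace Pool.Agent.NH32

open Matrix Equiv

noncomputable section

variable {B : Type*} [Fintype B] [DecidableEq B]

section pt

variable {κ : Type*} [Fintype κ] [DecidableEq κ]

/-- Decomposable tensors. -/
def pt (x : κ → B → ℂ) : (κ → B) → ℂ := fun I => ∏ k, x k (I k)

theorem kp_pt (M : Matrix B B ℂ) (x : κ → B → ℂ) : kp κ M *ᵥ pt x = pt fun k => M *ᵥ x k := by
  funext I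
  rw [mvA]
  unfold pt
  simp only [mvA]
  rw [Finset.prod_univ_sum, Fintype.piFinset_univ]
  refine Finset.sum_congr rfl fun J _ => ?_
  rw [kp_apply, Finset.prod_mul_distrib]

theorem dm_pt (X : Matrix B B ℂ) (x : κ → B → ℂ) :
    dm κ X *ᵥ pt x = ∑ k, pt (Function.update x k (X *ᵥ x k)) := by
  funext I
  rw [dm_mulVec_apply, Finset.sum_apply]
  refine Finset.sum_congr rfl fun k _ => ?_
  unfold pt
  rw [← Finset.mul_prod_erase _ _ (Finset.mem_univ k), Function.update_self, mvA, Finset.sum_mul]
  refine Finset.sum_congr rfl fun j _ => ?_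
  rw [← Finset.mul_prod_erase _ _ (Finset.mem_univ k), Function.update_self, mul_assoc]
  congr 2
  refine Finset.prod_congr rfl fun l hl => ?_
  rw [Function.update_of_ne (Finset.ne_of_mem_erase hl),
    Function.update_of_ne (Finset.ne_of_mem_erase hl)]

end pt

variable {m : ℕ}

/-- The exterior product of vectors. -/
def wd (v : Fin m → B → ℂ) : (Fin m → B) → ℂ := fun I => det (of fun k l => v l (I k))

/-- Alternating tensors. -/
def IsAlt (c : (Fin m → B) → ℂ) : Prop :=
  ∀ (σ : Perm (Fin m)) (I : Fin m → B), c (fun k => I (σ k)) = ((Perm.sign σ : ℤ) : ℂ) * c I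

theorem wd_alt (v : Fin m → B → ℂ) : IsAlt (wd v) := by
  intro σ I
  exact Matrix.det_permute σ (of fun k l => v l (I k))

theorem wd_eq (v : Fin m → B → ℂ) :
    wd v = ∑ σ : Perm (Fin m), ((Perm.sign σ : ℤ) : ℂ) • pt fun k => v (σ k) := by
  funext I
  unfold wd
  rw [← det_transpose, det_apply', Finset.sum_apply]
  refine Finset.sum_congr rfl fun σ _ => ?_
  rw [Pi.smul_apply, smul_eq_mul]
  rfl

theorem kp_wd (M : Matrix B B ℂ) (v : Fin m → B → ℂ) :
    kp (Fin m) M *ᵥ wd v = wd fun l => M *ᵥ v l := by
  rw [wd_eq, wd_eq, mulVec_sum]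
  refine Finset.sum_congr rfl fun σ _ => ?_
  rw [mulVec_smul, kp_pt]

theorem dm_wd (X : Matrix B B ℂ) (v : Fin m → B → ℂ) :
    dm (Fin m) X *ᵥ wd v = ∑ l, wd (Function.update v l (X *ᵥ v l)) := by
  simp only [wd_eq]
  rw [mulVec_sum, Finset.sum_comm]
  refine Finset.sum_congr rfl fun σ _ => ?_
  rw [mulVec_smul, dm_pt, Finset.smul_sum]
  refine Fintype.sum_equiv σ _ _ fun k => ?_
  congr 2
  funext l
  by_cases h : l = k
  · subst h
    rw [Function.update_self, Function.update_self]
  · rw [Function.update_of_ne h, Function.update_of_ne]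
    exact fun h2 => h (σ.injective h2)

theorem wd_eq_zero {v : Fin m → B → ℂ} {l l' : Fin m} (hne : l ≠ l') (h : v l = v l') :
    wd v = 0 := by
  funext I
  exact det_zero_of_column_eq hne fun k => by rw [of_apply, of_apply, h]

/-- The exterior product as a multilinear map. -/
def wdM : MultilinearMap ℂ (fun _ : Fin m => B → ℂ) ((Fin m → B) → ℂ) where
  toFun v := wd v
  map_update_add' := by
    intro inst v l x y
    have : inst = (fun a b => instDecidableEqFin m a b) := Subsingleton.elim _ _
    subst this
    funext I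
    rw [Pi.add_apply]
    have h1 : ∀ z : B → ℂ, wd (Function.update v l z) I =
        det (updateCol (of fun k l => v l (I k)) l (fun k => z (I k))) := by
      intro z
      unfold wd
      congr 1
      ext k l'
      rw [of_apply, updateCol_apply]
      by_cases h : l' = l
      · subst h
        rw [Function.update_self, if_pos rfl]
      · rw [Function.update_of_ne h, if_neg h, of_apply]
    rw [h1, h1, h1, ← det_updateCol_add]
    rfl
  map_update_smul' := by
    intro inst v l a x
    have : inst = (fun a b => instDecidableEqFin m a b) := Subsingleton.elim _ _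
    subst this
    funext I
    rw [Pi.smul_apply, smul_eq_mul]
    have h1 : ∀ z : B → ℂ, wd (Function.update v l z) I =
        det (updateCol (of fun k l => v l (I k)) l (fun k => z (I k))) := by
      intro z
      unfold wd
      congr 1
      ext k l'
      rw [of_apply, updateCol_apply]
      by_cases h : l' = l
      · subst h
        rw [Function.update_self, if_pos rfl]
      · rw [Function.update_of_ne h, if_neg h, of_apply]
    rw [h1, h1, ← det_updateCol_smul]
    rfl

theorem wdM_apply (v : Fin m → B → ℂ) : wdM v = wd v := rfl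

/-- Exterior products with a vector in the span of other vectors vanish. -/
theorem wd_update_sum {v : Fin m → B → ℂ} {l : Fin m} (c : Fin m → ℂ) (hc : c l = 0) :
    wd (Function.update v l (∑ l', c l' • v l')) = 0 := by
  rw [← wdM_apply, MultilinearMap.map_update_sum]
  refine Finset.sum_eq_zero fun l' _ => ?_
  rw [MultilinearMap.map_update_smul, wdM_apply]
  by_cases h : l' = l
  · subst h
    rw [hc, zero_smul]
  · rw [wd_eq_zero (l := l) (l' := l') (Ne.symm h), smul_zero]
    rw [Function.update_self, Function.update_of_ne h]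

/-- The derivation respects alternating tensors. -/
theorem IsAlt.zero : IsAlt (0 : (Fin m → B) → ℂ) := by
  intro σ I
  rw [Pi.zero_apply, Pi.zero_apply, mul_zero]

theorem IsAlt.add {c c' : (Fin m → B) → ℂ} (h : IsAlt c) (h' : IsAlt c') : IsAlt (c + c') := by
  intro σ I
  rw [Pi.add_apply, Pi.add_apply, h, h', mul_add]

theorem IsAlt.smul {c : (Fin m → B) → ℂ} (a : ℂ) (h : IsAlt c) : IsAlt (a • c) := by
  intro σ I
  rw [Pi.smul_apply, Pi.smul_apply, h, smul_eq_mul, smul_eq_mul]
  ring

theorem IsAlt.kp {c : (Fin m → B) → ℂ} (M : Matrix B B ℂ) (h : IsAlt c) :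
    IsAlt (kp (Fin m) M *ᵥ c) := by
  intro σ I
  rw [mvA, mvA, Finset.mul_sum]
  rw [← (Equiv.arrowCongr σ (Equiv.refl B)).symm.sum_comp]
  refine Finset.sum_congr rfl fun J _ => ?_
  have h1 : (Equiv.arrowCongr σ (Equiv.refl B)).symm J = fun k => J (σ k) := rfl
  rw [h1, h, kp_apply, kp_apply]
  have h2 : ∏ k, M (I (σ k)) (J (σ k)) = ∏ k, M (I k) (J k) :=
    Equiv.prod_comp σ fun k => M (I k) (J k)
  rw [h2]
  ring

theorem IsAlt.dm {c : (Fin m → B) → ℂ} (X : Matrix B B ℂ) (h : IsAlt c) :
    IsAlt (dm (Fin m) X *ᵥ c) := by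
  intro σ I
  rw [dm_mulVec_apply, dm_mulVec_apply, Finset.mul_sum]
  refine Fintype.sum_equiv σ _ _ fun k => ?_
  rw [Finset.mul_sum]
  refine Finset.sum_congr rfl fun j _ => ?_
  have h1 : Function.update (fun k => I (σ k)) k j =
      fun l => (Function.update I (σ k) j) (σ l) := by
    funext l
    by_cases hl : l = k
    · subst hl
      rw [Function.update_self, Function.update_self]
    · rw [Function.update_of_ne hl, Function.update_of_ne]
      exact fun h2 => hl (σ.injective h2)
  rw [h1, h]
  ring

/-- Alternating tensors vanish on index tuples with repetitions. -/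
theorem IsAlt.eq_zero {c : (Fin m → B) → ℂ} (h : IsAlt c) {I : Fin m → B} {k l : Fin m}
    (hkl : k ≠ l) (hI : I k = I l) : c I = 0 := by
  have h1 := h (Equiv.swap k l) I
  have h2 : (fun a => I (Equiv.swap k l a)) = I := by
    funext a
    by_cases ha : a = k
    · subst ha
      rw [Equiv.swap_apply_left, hI]
    · by_cases ha' : a = l
      · subst ha'
        rw [Equiv.swap_apply_right, hI]
      · rw [Equiv.swap_apply_of_ne_of_ne ha ha']
  rw [h2, Equiv.Perm.sign_swap hkl] at h1
  push_cast at h1
  have h3 : (2 : ℂ) * c I = 0 := by linear_combination h1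
  exact (mul_eq_zero.1 h3).resolve_left two_ne_zero

end

end Pool.Agent.NH32
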