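import Mathlib
import Pool.Agent.NH32.Wdg
import Pool.Agent.NH32.Tan
import Pool.Agent.NH32.Exp

/-!
# Groups preserving all submodules of exterior powers
-/

set_option linter.unusedSectionVars false

namespace Pool.Agent.NH32

open Matrix Equiv

noncomputable section

section proj

variable {n : Type*} [Fintype n] [DecidableEq n]

/-- Orthogonal projections. -/
theorem exists_proj (E : Submodule ℂ (n → ℂ)) : ∃ p : Matrix n n ℂ, pᴴ = p ∧
    (∀ x, p *ᵥ x ∈ E) ∧ ∀ x ∈ E, p *ᵥ x = x := by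
  let e : (n → ℂ) ≃ₗ[ℂ] EuclideanSpace ℂ n := (WithLp.linearEquiv 2 ℂ (n → ℂ)).symm
  let E' : Submodule ℂ (EuclideanSpace ℂ n) := E.map (e : (n → ℂ) →ₗ[ℂ] EuclideanSpace ℂ n)
  let P : (n → ℂ) →ₗ[ℂ] (n → ℂ) := (e.symm : EuclideanSpace ℂ n →ₗ[ℂ] (n → ℂ)).comp
    ((E'.starProjection : EuclideanSpace ℂ n →ₗ[ℂ] EuclideanSpace ℂ n).comp
      (e : (n → ℂ) →ₗ[ℂ] EuclideanSpace ℂ n))
  have hP : ∀ x, e (P x) = E'.starProjection (e x) := fun x => rfl
  have hm : ∀ x, LinearMap.toMatrix' P *ᵥ x = P x := by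
    intro x
    rw [← Matrix.toLin'_apply, Matrix.toLin'_toMatrix']
  refine ⟨LinearMap.toMatrix' P, ?_, fun x => ?_, fun x hx => ?_⟩
  · ext i j
    rw [conjTranspose_apply]
    have h1 : ∀ i j, LinearMap.toMatrix' P i j =
        inner ℂ (e (Pi.single i 1)) (E'.starProjection (e (Pi.single j 1))) := by
      intro i j
      rw [← hP, LinearMap.toMatrix'_apply]
      have h2 : inner ℂ (e (Pi.single i 1)) (e (P (Pi.single j 1))) =
          (P (Pi.single j 1)) ⬝ᵥ star (Pi.single i 1 : n → ℂ) :=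
        EuclideanSpace.inner_eq_star_dotProduct _ _
      rw [h2]
      have h3 : star (Pi.single i 1 : n → ℂ) = Pi.single i 1 := by
        funext k
        rw [Pi.star_apply]
        by_cases hk : k = i
        · subst hk
          rw [Pi.single_eq_same, star_one]
        · rw [Pi.single_eq_of_ne hk, star_zero]
      rw [h3, dotProduct_single_one]
    rw [h1, h1, ← Submodule.inner_starProjection_left_eq_right]
    exact inner_conj_symm _ _
  · rw [hm]
    have h1 : E'.starProjection (e x) ∈ E' := Submodule.starProjection_apply_mem E' (e x)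
    rw [← hP] at h1
    obtain ⟨y, hy, hy'⟩ := h1
    have h2 : y = P x := e.injective hy'
    rwa [← h2]
  · rw [hm]
    apply e.injective
    rw [hP]
    exact Submodule.starProjection_eq_self_iff.2 ⟨x, hx, rfl⟩

end proj

variable {B : Type} [Fintype B] [DecidableEq B]

/-- The matrix `u` preserves all submodules of exterior powers. -/
def StabP (L : Submodule ℂ (Matrix B B ℂ)) (u : Matrix B B ℂ) : Prop :=
  ∀ (m : ℕ) (E : Submodule ℂ ((Fin m → B) → ℂ)), (∀ c ∈ E, IsAlt c) →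
    (∀ X ∈ L, ∀ c ∈ E, dm (Fin m) X *ᵥ c ∈ E) → ∀ c ∈ E, kp (Fin m) u *ᵥ c ∈ E

/-- The derivation given by `Y` preserves all submodules of exterior powers. -/
def StabL (L : Submodule ℂ (Matrix B B ℂ)) (Y : Matrix B B ℂ) : Prop :=
  ∀ (m : ℕ) (E : Submodule ℂ ((Fin m → B) → ℂ)), (∀ c ∈ E, IsAlt c) →
    (∀ X ∈ L, ∀ c ∈ E, dm (Fin m) X *ᵥ c ∈ E) → ∀ c ∈ E, dm (Fin m) Y *ᵥ c ∈ E

section flat

variable {κ κ' : Type} [Fintype κ] [DecidableEq κ] [Fintype κ'] [DecidableEq κ']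

/-- A matrix as a tensor. -/
def flat (M : Matrix (κ → B) (κ' → B) ℂ) : (κ ⊕ κ' → B) → ℂ :=
  fun S => M (fun k => S (Sum.inl k)) (fun k => S (Sum.inr k))

theorem flat_elim (M : Matrix (κ → B) (κ' → B) ℂ) (I : κ → B) (J : κ' → B) :
    flat M (Sum.elim I J) = M I J := rfl

theorem flat_inj {M N : Matrix (κ → B) (κ' → B) ℂ} (h : flat M = flat N) : M = N := by
  ext I J
  rw [← flat_elim M, h, flat_elim]

theorem kp_flat (u : Matrix B B ℂ) (M : Matrix (κ → B) (κ' → B) ℂ) :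
    kp (κ ⊕ κ') u *ᵥ flat M = flat (kp κ u * M * kp κ' uᵀ) := by
  funext S
  rw [mvA]
  unfold flat
  rw [Matrix.mul_apply]
  simp only [Matrix.mul_apply, Finset.sum_mul]
  rw [Finset.sum_comm, ← Fintype.sum_prod_type']
  refine Fintype.sum_equiv (Equiv.sumArrowEquivProdArrow κ κ' B) _ _ fun J => ?_
  rw [kp_apply, kp_apply, kp_apply, Fintype.prod_sum_type]
  simp only [Equiv.sumArrowEquivProdArrow, Equiv.coe_fn_mk, Function.comp_def, transpose_apply]
  ring

theorem dm_flat (X : Matrix B B ℂ) (M : Matrix (κ → B) (κ' → B) ℂ) :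
    dm (κ ⊕ κ') X *ᵥ flat M = flat (dm κ X * M + M * dm κ' Xᵀ) := by
  funext S
  rw [dm_mulVec_apply, Fintype.sum_sum_type]
  have h1 : flat (dm κ X * M + M * dm κ' Xᵀ) S =
      (dm κ X *ᵥ fun I => M I (fun k => S (Sum.inr k))) (fun k => S (Sum.inl k)) +
      (dm κ' X *ᵥ fun J => M (fun k => S (Sum.inl k)) J) (fun k => S (Sum.inr k)) := by
    unfold flat
    rw [Matrix.add_apply, Matrix.mul_apply, Matrix.mul_apply, mvA, mvA]
    congr 1
    refine Finset.sum_congr rfl fun J _ => ?_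
    have h2 : (dm κ' X)ᵀ = dm κ' Xᵀ := by
      unfold dm kd
      rw [transpose_sum]
      refine Finset.sum_congr rfl fun k _ => ?_
      rw [kpp_transpose]
      congr 1
      funext l
      by_cases hl : l = k
      · subst hl
        rw [Function.update_self, Function.update_self]
      · rw [Function.update_of_ne hl, Function.update_of_ne hl, transpose_one]
    rw [← h2, transpose_apply, mul_comm]
  rw [h1, dm_mulVec_apply, dm_mulVec_apply]
  congr 1
  · refine Finset.sum_congr rfl fun k _ => Finset.sum_congr rfl fun j _ => ?_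
    congr 1
    unfold flat
    congr 1
    · funext l
      by_cases hl : l = k
      · subst hl
        rw [Function.update_self, Function.update_self]
      · rw [Function.update_of_ne hl, Function.update_of_ne]
        exact fun h2 => hl (Sum.inl_injective h2)
  · refine Finset.sum_congr rfl fun k _ => Finset.sum_congr rfl fun j _ => ?_
    congr 1
    unfold flat
    congr 1
    · funext l
      by_cases hl : l = k
      · subst hl
        rw [Function.update_self, Function.update_self]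
      · rw [Function.update_of_ne hl, Function.update_of_ne]
        exact fun h2 => hl (Sum.inr_injective h2)

end flat

variable {Om : Matrix B B ℂ} (hO : IsOm Om)

theorem IsOm.uOu (hO : IsOm Om) (u : USp Om) : mt u * Om * (mt u)ᵀ = Om := by
  have h1 := hO.inv_eq u
  have h2 := mt_mul_inv u
  rw [h1] at h2
  have h3 : mt u * Om * (mt u)ᵀ = (mt u * (-Om * (mt u)ᵀ * Om)) * Om := by
    have h4 : (mt u * (-Om * (mt u)ᵀ * Om)) * Om = -(mt u * Om * (mt u)ᵀ * (Om * Om)) := by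
      noncomm_ring
    rw [h4, hO.sq, mul_neg, mul_one, neg_neg]
  rw [h3, h2, one_mul]

theorem IsOm.OXt (hO : IsOm Om) {X : Matrix B B ℂ} (hX : Xᵀ * Om + Om * X = 0) :
    Om * Xᵀ = (-X) * Om := by
  have h1 : Om * (Xᵀ * Om + Om * X) * Om = Om * Xᵀ * (Om * Om) + (Om * Om) * X * Om := by
    noncomm_ring
  rw [hX, hO.sq, mul_zero, zero_mul, mul_neg, mul_one] at h1
  have h2 : Om * Xᵀ = -1 * X * Om := by
    rw [← sub_eq_zero, ← neg_eq_zero]
    rw [h1]
    abel
  rw [h2, neg_one_mul]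

variable {κ : Type} [Fintype κ] [DecidableEq κ]

include hO in
/-- The group acts on matrices by conjugation. -/
theorem kp_flat_Om (u : USp Om) (M : Matrix (κ → B) (κ → B) ℂ) :
    kp (κ ⊕ κ) (mt u) *ᵥ flat (M * kp κ Om) =
      flat (kp κ (mt u) * M * kp κ (mt u⁻¹) * kp κ Om) := by
  rw [kp_flat]
  congr 1
  have h1 : kp κ Om * kp κ (mt u)ᵀ = kp κ (mt u⁻¹) * kp κ Om := by
    rw [← kp_mul, ← kp_mul]
    congr 1
    have h2 := hO.uOu u
    calc Om * (mt u)ᵀ = (mt u⁻¹ * mt u) * Om * (mt u)ᵀ := by rw [mt_inv_mul, one_mul]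
      _ = mt u⁻¹ * (mt u * Om * (mt u)ᵀ) := by noncomm_ring
      _ = _ := by rw [h2]
  calc kp κ (mt u) * (M * kp κ Om) * kp κ (mt u)ᵀ
      = kp κ (mt u) * M * (kp κ Om * kp κ (mt u)ᵀ) := by noncomm_ring
    _ = _ := by rw [h1]; noncomm_ring

include hO in
theorem dm_flat_Om {X : Matrix B B ℂ} (hX : Xᵀ * Om + Om * X = 0)
    (M : Matrix (κ → B) (κ → B) ℂ) :
    dm (κ ⊕ κ) X *ᵥ flat (M * kp κ Om) = flat ((dm κ X * M - M * dm κ X) * kp κ Om) := by
  rw [dm_flat]
  congr 1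
  have h1 : kp κ Om * dm κ Xᵀ = dm κ (-X) * kp κ Om := kp_mul_dm (hO.OXt hX)
  rw [mul_assoc M, h1, dm_neg]
  noncomm_ring

include hO in
theorem kp_Om_cancel {M N : Matrix (κ → B) (κ → B) ℂ} (h : M * kp κ Om = N * kp κ Om) :
    M = N := by
  have h1 : kp κ Om * kp κ (-Om) = 1 := by
    rw [← kp_mul, mul_neg, hO.sq, neg_neg, kp_one]
  calc M = M * kp κ Om * kp κ (-Om) := by rw [mul_assoc, h1, mul_one]
    _ = N * kp κ Om * kp κ (-Om) := by rw [h]
    _ = N := by rw [mul_assoc, h1, mul_one]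

/-- Alternating in both groups of variables. -/
def IsAlt2 {a b : ℕ} (c : (Fin a ⊕ Fin b → B) → ℂ) : Prop :=
  (∀ J : Fin b → B, IsAlt fun I : Fin a → B => c (Sum.elim I J)) ∧
    ∀ I : Fin a → B, IsAlt fun J : Fin b → B => c (Sum.elim I J)

/-- The data: a Lie algebra with an adjoint. -/
structure LD (Om : Matrix B B ℂ) (L : Submodule ℂ (Matrix B B ℂ)) : Prop where
  br : ∀ X ∈ L, ∀ Y ∈ L, X * Y - Y * X ∈ L
  adj : ∀ X ∈ L, Xᴴ ∈ L
  sp : ∀ X ∈ L, Xᵀ * Om + Om * X = 0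
  gen : ∀ M : Submodule ℂ (Matrix B B ℂ), (∀ D ∈ L, D * D = 1 → D ∈ M) →
    (∀ X ∈ M, ∀ Y ∈ M, X * Y - Y * X ∈ M) → L ≤ M

/-- Matrices commuting with the Lie algebra, alternating on both sides. -/
structure AltEnd (L : Submodule ℂ (Matrix B B ℂ)) {m : ℕ}
    (M : Matrix (Fin m → B) (Fin m → B) ℂ) : Prop where
  l : ∀ (σ : Perm (Fin m)) I J, M (fun k => I (σ k)) J = ((Perm.sign σ : ℤ) : ℂ) * M I J
  r : ∀ (σ : Perm (Fin m)) I J, M I (fun k => J (σ k)) = ((Perm.sign σ : ℤ) : ℂ) * M I J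
  c : ∀ X ∈ L, dm (Fin m) X * M = M * dm (Fin m) X

theorem AltEnd.flat_alt {L : Submodule ℂ (Matrix B B ℂ)} {m : ℕ}
    {M : Matrix (Fin m → B) (Fin m → B) ℂ} (h : AltEnd L M) :
    IsAlt2 (flat (M * kp (Fin m) Om)) := by
  constructor
  · intro J σ I
    change (M * kp (Fin m) Om) (fun k => I (σ k)) J = _ * (M * kp (Fin m) Om) I J
    rw [Matrix.mul_apply, Matrix.mul_apply, Finset.mul_sum]
    refine Finset.sum_congr rfl fun K _ => ?_
    rw [h.l]
    ring
  · intro I σ J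
    change (M * kp (Fin m) Om) I (fun k => J (σ k)) = _ * (M * kp (Fin m) Om) I J
    rw [Matrix.mul_apply, Matrix.mul_apply, Finset.mul_sum]
    rw [← (Equiv.arrowCongr σ (Equiv.refl B)).symm.sum_comp]
    refine Finset.sum_congr rfl fun K _ => ?_
    have h1 : (Equiv.arrowCongr σ (Equiv.refl B)).symm K = fun k => K (σ k) := rfl
    rw [h1, h.r, kp_apply, kp_apply]
    have h2 : ∏ k, Om (K (σ k)) (J (σ k)) = ∏ k, Om (K k) (J k) :=
      Equiv.prod_comp σ fun k => Om (K k) (J k)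
    rw [h2]
    ring

/-- The projection to a stable space of alternating tensors. -/
theorem exists_altEnd {L : Submodule ℂ (Matrix B B ℂ)} (hadj : ∀ X ∈ L, Xᴴ ∈ L) {m : ℕ}
    (E : Submodule ℂ ((Fin m → B) → ℂ)) (h1 : ∀ c ∈ E, IsAlt c)
    (h2 : ∀ X ∈ L, ∀ c ∈ E, dm (Fin m) X *ᵥ c ∈ E) :
    ∃ M : Matrix (Fin m → B) (Fin m → B) ℂ, AltEnd L M ∧ (∀ x, M *ᵥ x ∈ E) ∧
      ∀ x ∈ E, M *ᵥ x = x := by
  obtain ⟨p, hp, hp1, hp2⟩ := exists_proj E
  have hl : ∀ (σ : Perm (Fin m)) I J, p (fun k => I (σ k)) J =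
      ((Perm.sign σ : ℤ) : ℂ) * p I J := by
    intro σ I J
    have h3 := h1 _ (hp1 (Pi.single J 1)) σ I
    have h4 : ∀ I, (p *ᵥ Pi.single J 1) I = p I J := by
      intro I
      rw [mulVec_single_one]
      rfl
    rw [h4, h4] at h3
    exact h3
  refine ⟨p, ⟨hl, fun σ I J => ?_, fun X hX => ?_⟩, hp1, hp2⟩
  · have h3 : ∀ I J, p I J = starRingEnd ℂ (p J I) := by
      intro I J
      conv_lhs => rw [← hp]
      rfl
    rw [h3 I, h3 I J, hl, map_mul]
    congr 1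
    exact map_intCast (starRingEnd ℂ) _
  · have key : ∀ X ∈ L, dm (Fin m) X * p = p * dm (Fin m) X * p := by
      intro X hX
      refine matrix_ext_mulVec fun c => ?_
      rw [← mulVec_mulVec, ← mulVec_mulVec, ← mulVec_mulVec]
      exact (hp2 _ (h2 X hX _ (hp1 c))).symm
    have h3 := congrArg Matrix.conjTranspose (key _ (hadj X hX))
    rw [conjTranspose_mul, conjTranspose_mul, conjTranspose_mul, hp, dm_conjTranspose,
      conjTranspose_conjTranspose] at h3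
    calc dm (Fin m) X * p = p * dm (Fin m) X * p := key X hX
      _ = p * (dm (Fin m) X * p) := mul_assoc _ _ _
      _ = p * dm (Fin m) X := h3.symm

section main

variable {L : Submodule ℂ (Matrix B B ℂ)} (hL : LD Om L)
  {T : ∀ (κ : Type) [Fintype κ] [DecidableEq κ], Submodule ℂ ((κ → B) → ℂ)}
  (hT : ∀ (a b : ℕ) (c : (Fin a ⊕ Fin b → B) → ℂ), IsAlt2 c →
    (∀ X ∈ L, dm (Fin a ⊕ Fin b) X *ᵥ c = 0) → c ∈ T (Fin a ⊕ Fin b))

include hO hL hT in
theorem altEnd_mem {m : ℕ} {M : Matrix (Fin m → B) (Fin m → B) ℂ} (h : AltEnd L M) :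
    flat (M * kp (Fin m) Om) ∈ T (Fin m ⊕ Fin m) := by
  refine hT m m _ h.flat_alt fun X hX => ?_
  rw [dm_flat_Om hO (hL.sp X hX), h.c X hX, sub_self, zero_mul]
  rfl

include hO hL hT in
theorem altEnd_comm {m : ℕ} {M : Matrix (Fin m → B) (Fin m → B) ℂ} (h : AltEnd L M)
    {u : USp Om} (hu : u ∈ Fx Om T) : kp (Fin m) (mt u) * M = M * kp (Fin m) (mt u) := by
  have h1 := hu _ _ (altEnd_mem hO hL hT h)
  rw [kp_flat_Om hO] at h1
  have h2 := kp_Om_cancel hO (flat_inj h1)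
  calc kp (Fin m) (mt u) * M = kp (Fin m) (mt u) * M * (kp (Fin m) (mt u⁻¹) *
        kp (Fin m) (mt u)) := by rw [← kp_mul, mt_inv_mul, kp_one, mul_one]
    _ = (kp (Fin m) (mt u) * M * kp (Fin m) (mt u⁻¹)) * kp (Fin m) (mt u) := by noncomm_ring
    _ = _ := by rw [h2]

include hO hL hT in
theorem altEnd_dm {m : ℕ} {M : Matrix (Fin m → B) (Fin m → B) ℂ} (h : AltEnd L M)
    {Y : Matrix B B ℂ} (hY : Yᵀ * Om + Om * Y = 0)
    (hk : ∀ (κ : Type) [Fintype κ] [DecidableEq κ], ∀ t ∈ T κ, dm κ Y *ᵥ t = 0) :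
    dm (Fin m) Y * M = M * dm (Fin m) Y := by
  have h1 := hk _ _ (altEnd_mem hO hL hT h)
  rw [dm_flat_Om hO hY] at h1
  have h2 : flat ((dm (Fin m) Y * M - M * dm (Fin m) Y) * kp (Fin m) Om) =
      flat ((0 : Matrix (Fin m → B) (Fin m → B) ℂ) * kp (Fin m) Om) := by
    rw [h1, zero_mul]
    rfl
  have h3 := kp_Om_cancel hO (flat_inj h2)
  exact sub_eq_zero.1 h3

include hO hL hT in
/-- The elements of the group preserve the submodules of the exterior powers. -/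
theorem stabP_of_T {u : USp Om} (hu : u ∈ Fx Om T) : StabP L (mt u) := by
  intro m E h1 h2 c hc
  obtain ⟨M, hM, hM1, hM2⟩ := exists_altEnd hL.adj E h1 h2
  have h3 := altEnd_comm hO hL hT hM hu
  have h4 : kp (Fin m) (mt u) *ᵥ c = M *ᵥ (kp (Fin m) (mt u) *ᵥ c) := by
    rw [mulVec_mulVec, ← h3, ← mulVec_mulVec, hM2 c hc]
  rw [h4]
  exact hM1 _

include hO hL hT in
theorem stabL_of_T {Y : Matrix B B ℂ} (hY : Yᵀ * Om + Om * Y = 0)
    (hk : ∀ (κ : Type) [Fintype κ] [DecidableEq κ], ∀ t ∈ T κ, dm κ Y *ᵥ t = 0) :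
    StabL L Y := by
  intro m E h1 h2 c hc
  obtain ⟨M, hM, hM1, hM2⟩ := exists_altEnd hL.adj E h1 h2
  have h3 := altEnd_dm hO hL hT hM hY hk
  have h4 : dm (Fin m) Y *ᵥ c = M *ᵥ (dm (Fin m) Y *ᵥ c) := by
    rw [mulVec_mulVec, ← h3, ← mulVec_mulVec, hM2 c hc]
  rw [h4]
  exact hM1 _

theorem kp_one_apply (M : Matrix B B ℂ) (I J : Fin 1 → B) : kp (Fin 1) M I J = M (I 0) (J 0) := by
  rw [kp_apply, Fin.prod_univ_one]

theorem kp_one_inj {M N : Matrix B B ℂ} (h : kp (Fin 1) M = kp (Fin 1) N) : M = N := by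
  ext i j
  have h1 := congrFun (congrFun h (fun _ => i)) (fun _ => j)
  rwa [kp_one_apply, kp_one_apply] at h1

theorem dm_one_eq (X : Matrix B B ℂ) : dm (Fin 1) X = kp (Fin 1) X := by
  unfold dm kd kp
  rw [Fin.sum_univ_one]
  congr 1
  funext k
  rw [Subsingleton.elim k 0, Function.update_self]

/-- Elements of the commutant as alternating endomorphisms. -/
theorem altEnd_one {M : Matrix B B ℂ} (hM : ∀ X ∈ L, X * M = M * X) :
    AltEnd L (kp (Fin 1) M) := by
  refine ⟨fun σ I J => ?_, fun σ I J => ?_, fun X hX => ?_⟩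
  · rw [Subsingleton.elim σ 1, Perm.sign_one]
    simp
  · rw [Subsingleton.elim σ 1, Perm.sign_one]
    simp
  · rw [dm_one_eq, ← kp_mul, ← kp_mul, hM X hX]

include hO hL hT in
theorem commutant_comm {M : Matrix B B ℂ} (hM : ∀ X ∈ L, X * M = M * X) {u : USp Om}
    (hu : u ∈ Fx Om T) : mt u * M = M * mt u := by
  have h1 := altEnd_comm hO hL hT (altEnd_one hM) hu
  rw [← kp_mul, ← kp_mul] at h1
  exact kp_one_inj h1

include hO hL hT in
theorem commutant_dm {M : Matrix B B ℂ} (hM : ∀ X ∈ L, X * M = M * X) {Y : Matrix B B ℂ}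
    (hY : Yᵀ * Om + Om * Y = 0)
    (hk : ∀ (κ : Type) [Fintype κ] [DecidableEq κ], ∀ t ∈ T κ, dm κ Y *ᵥ t = 0) :
    Y * M = M * Y := by
  have h1 := altEnd_dm hO hL hT (altEnd_one hM) hY hk
  rw [dm_one_eq, ← kp_mul, ← kp_mul] at h1
  exact kp_one_inj h1

end main

end

end Pool.Agent.NH32
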