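import Mathlib

/-!
# Algebras of functions on finite sets, and spaces of matrices
-/

set_option linter.unusedSectionVars false

namespace Pool.Agent.NH32

open Matrix

noncomputable section

/-- A function on a finite set which separates no more points than an algebra of functions belongs to
the algebra. -/
theorem fin_sep {Y : Type*} [Fintype Y] (F : Subalgebra ℂ (Y → ℂ)) (g : Y → ℂ)
    (h : ∀ y y', (∀ f ∈ F, f y = f y') → g y = g y') : g ∈ F := by
  classical
  -- the indicator functions of the level sets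
  have key : ∀ y0 : Y, (fun y => if (∀ f ∈ F, f y = f y0) then (1 : ℂ) else 0) ∈ F := by
    intro y0
    have h1 : ∀ y : Y, ∃ f ∈ F, (∀ y', (∀ f ∈ F, f y' = f y0) → f y' = 1) ∧
        (¬(∀ f ∈ F, f y = f y0) → f y = 0) := by
      intro y
      by_cases hy : ∀ f ∈ F, f y = f y0
      · exact ⟨1, F.one_mem, fun _ _ => rfl, fun h2 => absurd hy h2⟩
      · have hy' := hy
        push Not at hy'
        obtain ⟨f, hf, hne⟩ := hy'
        have hne' : f y0 - f y ≠ 0 := sub_ne_zero.2 (Ne.symm hne)
        refine ⟨(f y0 - f y)⁻¹ • (f - algebraMap ℂ (Y → ℂ) (f y)),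
          F.smul_mem (F.sub_mem hf (F.algebraMap_mem _)) _, fun y' hy' => ?_, fun _ => ?_⟩
        · change (f y0 - f y)⁻¹ * (f y' - f y) = 1
          rw [hy' f hf, inv_mul_cancel₀ hne']
        · change (f y0 - f y)⁻¹ * (f y - f y) = 0
          rw [sub_self, mul_zero]
    choose f hf h2 h3 using h1
    have h4 : (fun y => if (∀ f ∈ F, f y = f y0) then (1 : ℂ) else 0) = ∏ y, f y := by
      funext y
      rw [Finset.prod_apply]
      split_ifs with hy
      · exact (Finset.prod_eq_one fun y' _ => h2 y' y hy).symm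
      · exact (Finset.prod_eq_zero (f := fun c => f c y) (Finset.mem_univ y) (h3 y hy)).symm
    rw [h4]
    exact F.prod_mem fun y _ => hf y
  have h5 : g = ∑ y0, (g y0 * ((Finset.univ.filter fun y => ∀ f ∈ F, f y = f y0).card : ℂ)⁻¹) •
      (fun y => if (∀ f ∈ F, f y = f y0) then (1 : ℂ) else 0) := by
    funext y
    rw [Finset.sum_apply]
    simp only [Pi.smul_apply, smul_eq_mul, mul_ite, mul_one, mul_zero]
    rw [← Finset.sum_filter]
    have h6 : ∀ y0 ∈ Finset.univ.filter (fun y0 => ∀ f ∈ F, f y = f y0),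
        g y0 * ((Finset.univ.filter fun y => ∀ f ∈ F, f y = f y0).card : ℂ)⁻¹ =
        g y * ((Finset.univ.filter fun y0 => ∀ f ∈ F, f y = f y0).card : ℂ)⁻¹ := by
      intro y0 hy0
      rw [Finset.mem_filter] at hy0
      rw [h y y0 hy0.2]
      congr 4
      ext y'
      rw [Finset.mem_filter, Finset.mem_filter]
      constructor
      · rintro ⟨_, h7⟩
        exact ⟨Finset.mem_univ _, fun f hf => by rw [hy0.2 f hf, h7 f hf]⟩
      · rintro ⟨_, h7⟩
        exact ⟨Finset.mem_univ _, fun f hf => by rw [← h7 f hf, hy0.2 f hf]⟩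
    rw [Finset.sum_congr rfl h6, Finset.sum_const, nsmul_eq_mul]
    have h7 : ((Finset.univ.filter fun y0 => ∀ f ∈ F, f y = f y0).card : ℂ) ≠ 0 := by
      rw [Nat.cast_ne_zero, Finset.card_ne_zero]
      exact ⟨y, by rw [Finset.mem_filter]; exact ⟨Finset.mem_univ _, fun _ _ => rfl⟩⟩
    field_simp
  rw [h5]
  exact F.sum_mem fun y0 _ => F.smul_mem (key y0) _

variable {B : Type*} [Fintype B] [DecidableEq B]

/-- Entrywise multiplication. -/
def had (f : B × B → ℂ) (X : Matrix B B ℂ) : Matrix B B ℂ := of fun b b' => f (b, b') * X b b'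

theorem had_apply (f : B × B → ℂ) (X : Matrix B B ℂ) (b b' : B) :
    had f X b b' = f (b, b') * X b b' := rfl

/-- The functions whose entrywise multiplication preserves a space of matrices. -/
def HA (L : Submodule ℂ (Matrix B B ℂ)) : Subalgebra ℂ (B × B → ℂ) where
  carrier := {f | ∀ X ∈ L, had f X ∈ L}
  add_mem' := by
    intro f g hf hg X hX
    have h1 : had (f + g) X = had f X + had g X := by
      ext b b'
      rw [Matrix.add_apply, had_apply, had_apply, had_apply, Pi.add_apply, add_mul]
    rw [h1]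
    exact L.add_mem (hf X hX) (hg X hX)
  mul_mem' := by
    intro f g hf hg X hX
    have h1 : had (f * g) X = had f (had g X) := by
      ext b b'
      rw [had_apply, had_apply, had_apply, Pi.mul_apply, mul_assoc]
    rw [h1]
    exact hf _ (hg X hX)
  algebraMap_mem' := by
    intro r X hX
    have h1 : had (algebraMap ℂ (B × B → ℂ) r) X = r • X := by
      ext b b'
      rfl
    rw [h1]
    exact L.smul_mem _ hX

theorem mem_HA {L : Submodule ℂ (Matrix B B ℂ)} {f : B × B → ℂ} :
    f ∈ HA L ↔ ∀ X ∈ L, had f X ∈ L := Iff.rfl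

/-- Brackets with diagonal matrices. -/
theorem diag_HA {L : Submodule ℂ (Matrix B B ℂ)} {d : B → ℂ}
    (h : ∀ X ∈ L, diagonal d * X - X * diagonal d ∈ L) : (fun p : B × B => d p.1 - d p.2) ∈ HA L := by
  intro X hX
  have h1 : had (fun p : B × B => d p.1 - d p.2) X = diagonal d * X - X * diagonal d := by
    ext b b'
    rw [had_apply, Matrix.sub_apply, diagonal_mul, mul_diagonal]
    ring
  rw [h1]
  exact h X hX

/-- Conjugation with diagonal matrices. -/
theorem conj_HA {L : Submodule ℂ (Matrix B B ℂ)} {d d' : B → ℂ}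
    (h : ∀ X ∈ L, diagonal d * X * diagonal d' ∈ L) : (fun p : B × B => d p.1 * d' p.2) ∈ HA L := by
  intro X hX
  have h1 : had (fun p : B × B => d p.1 * d' p.2) X = diagonal d * X * diagonal d' := by
    ext b b'
    rw [had_apply, mul_diagonal, diagonal_mul]
    ring
  rw [h1]
  exact h X hX

end

end Pool.Agent.NH32
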