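import Mathlib
import Pool.Agent.NH32.Wdg
import Pool.Agent.NH32.Sep

/-!
# Gradings by a diagonal matrix, and modules generated by highest weight vectors
-/

set_option linter.unusedSectionVars false

namespace Pool.Agent.NH32

open Matrix Equiv

noncomputable section

variable {B : Type*} [Fintype B] [DecidableEq B] {κ : Type*} [Fintype κ] [DecidableEq κ]

/-- The real diagonal matrix. -/
def dg (h : B → ℝ) : Matrix B B ℂ := diagonal fun b => (h b : ℂ)

/-- The matrix lowers the weights. -/
def Low (h : B → ℝ) (X : Matrix B B ℂ) : Prop := ∀ b b', X b b' ≠ 0 → h b < h b'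

/-- The matrix raises the weights. -/
def Upp (h : B → ℝ) (X : Matrix B B ℂ) : Prop := ∀ b b', X b b' ≠ 0 → h b' < h b

/-- The matrix preserves the weights. -/
def Zer (h : B → ℝ) (X : Matrix B B ℂ) : Prop := ∀ b b', X b b' ≠ 0 → h b = h b'

/-- Closed under brackets. -/
def BrC (L : Submodule ℂ (Matrix B B ℂ)) : Prop := ∀ X ∈ L, ∀ Y ∈ L, X * Y - Y * X ∈ L

theorem had_mem {L : Submodule ℂ (Matrix B B ℂ)} (hL : BrC L) {h : B → ℝ} (hh : dg h ∈ L)
    (g : ℝ → ℂ) {X : Matrix B B ℂ} (hX : X ∈ L) :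
    had (fun p : B × B => g (h p.1 - h p.2)) X ∈ L := by
  have h1 : (fun p : B × B => g (h p.1 - h p.2)) ∈ HA L := by
    refine fin_sep _ _ fun p q hpq => ?_
    have h2 := hpq _ (diag_HA (d := fun b => (h b : ℂ)) fun X hX => hL _ hh _ hX)
    have h3 : h p.1 - h p.2 = h q.1 - h q.2 := by
      have h4 : (((h p.1 - h p.2 : ℝ)) : ℂ) = ((h q.1 - h q.2 : ℝ) : ℂ) := by
        push_cast
        exact h2
      exact_mod_cast h4
    rw [h3]
  exact h1 X hX

/-- The triangular decomposition. -/
theorem exists_split {L : Submodule ℂ (Matrix B B ℂ)} (hL : BrC L) {h : B → ℝ} (hh : dg h ∈ L)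
    {X : Matrix B B ℂ} (hX : X ∈ L) : ∃ X₁ ∈ L, ∃ X₂ ∈ L, ∃ X₃ ∈ L,
      Low h X₁ ∧ Zer h X₂ ∧ Upp h X₃ ∧ X = X₁ + X₂ + X₃ := by
  refine ⟨_, had_mem hL hh (fun x => if x < 0 then 1 else 0) hX, _,
    had_mem hL hh (fun x => if x = 0 then 1 else 0) hX, _,
    had_mem hL hh (fun x => if 0 < x then 1 else 0) hX, ?_, ?_, ?_, ?_⟩
  · intro b b' hb
    by_contra hcon
    apply hb
    rw [had_apply, if_neg (by intro h2; exact hcon (by linarith)), zero_mul]
  · intro b b' hb
    by_contra hcon
    apply hb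
    rw [had_apply, if_neg (by intro h2; exact hcon (by linarith)), zero_mul]
  · intro b b' hb
    by_contra hcon
    apply hb
    rw [had_apply, if_neg (by intro h2; exact hcon (by linarith)), zero_mul]
  · ext b b'
    rw [Matrix.add_apply, Matrix.add_apply, had_apply, had_apply, had_apply]
    rcases lt_trichotomy (h b - h b') 0 with h1 | h1 | h1
    · rw [if_pos h1, if_neg (ne_of_lt h1), if_neg (not_lt.2 h1.le)]
      ring
    · rw [if_neg (by rw [h1]; exact lt_irrefl _), if_pos h1, if_neg (by rw [h1]; exact lt_irrefl _)]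
      ring
    · rw [if_neg (not_lt.2 h1.le), if_neg (ne_of_gt h1), if_pos h1]
      ring

/-- The words in the lowering elements. -/
inductive Wrd (L : Submodule ℂ (Matrix B B ℂ)) (h : B → ℝ) (e : (κ → B) → ℂ) :
    ((κ → B) → ℂ) → Prop
  | base : Wrd L h e e
  | step (Y : Matrix B B ℂ) (x : (κ → B) → ℂ) (hY : Y ∈ L) (hl : Low h Y) (hx : Wrd L h e x) :
      Wrd L h e (dm κ Y *ᵥ x)

/-- The module generated by a highest weight vector. -/
def Gen (L : Submodule ℂ (Matrix B B ℂ)) (h : B → ℝ) (e : (κ → B) → ℂ) :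
    Submodule ℂ ((κ → B) → ℂ) := Submodule.span ℂ {x | Wrd L h e x}

variable {L : Submodule ℂ (Matrix B B ℂ)} {h : B → ℝ} {e : (κ → B) → ℂ}

theorem Gen_self : e ∈ Gen L h e := Submodule.subset_span Wrd.base

theorem Gen_low {Y : Matrix B B ℂ} (hY : Y ∈ L) (hl : Low h Y) {x : (κ → B) → ℂ}
    (hx : x ∈ Gen L h e) : dm κ Y *ᵥ x ∈ Gen L h e := by
  unfold Gen at hx
  induction hx using Submodule.span_induction with
  | mem x hx => exact Submodule.subset_span (Wrd.step Y x hY hl hx)
  | zero => rw [mulVec_zero]; exact Submodule.zero_mem _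
  | add x y _ _ hx hy => rw [mulVec_add]; exact Submodule.add_mem _ hx hy
  | smul c x _ hx => rw [mulVec_smul]; exact Submodule.smul_mem _ _ hx

/-- The module generated by a highest weight vector is stable. -/
theorem Gen_stable (hL : BrC L) (hh : dg h ∈ L)
    (h1 : ∀ X ∈ L, Upp h X → dm κ X *ᵥ e = 0)
    (h0 : ∀ X ∈ L, Zer h X → ∃ z : ℂ, dm κ X *ᵥ e = z • e)
    {X : Matrix B B ℂ} (hX : X ∈ L) {x : (κ → B) → ℂ} (hx : x ∈ Gen L h e) :
    dm κ X *ᵥ x ∈ Gen L h e := by
  have key : ∀ x, Wrd L h e x → ∀ X ∈ L, dm κ X *ᵥ x ∈ Gen L h e := by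
    intro x hx
    induction hx with
    | base =>
      intro X hX
      obtain ⟨X₁, hX₁, X₂, hX₂, X₃, hX₃, hl, hz, hu, rfl⟩ := exists_split hL hh hX
      obtain ⟨z, hz⟩ := h0 X₂ hX₂ hz
      rw [dm_add, dm_add, add_mulVec, add_mulVec, hz, h1 X₃ hX₃ hu, add_zero]
      exact Submodule.add_mem _ (Gen_low hX₁ hl Gen_self) (Submodule.smul_mem _ _ Gen_self)
    | step Y x hY hl hx ih =>
      intro X hX
      have h2 : dm κ X *ᵥ (dm κ Y *ᵥ x) = dm κ Y *ᵥ (dm κ X *ᵥ x) +
          dm κ (X * Y - Y * X) *ᵥ x := by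
        rw [dm_bracket, sub_mulVec, mulVec_mulVec, mulVec_mulVec]
        abel
      rw [h2]
      exact Submodule.add_mem _ (Gen_low hY hl (ih X hX)) (ih _ (hL X hX Y hY))
  unfold Gen at hx
  induction hx using Submodule.span_induction with
  | mem x hx => exact key x hx X hX
  | zero => rw [mulVec_zero]; exact Submodule.zero_mem _
  | add x y _ _ hx hy => rw [mulVec_add]; exact Submodule.add_mem _ hx hy
  | smul c x _ hx => rw [mulVec_smul]; exact Submodule.smul_mem _ _ hx

theorem Gen_le {N : Submodule ℂ ((κ → B) → ℂ)} (he : e ∈ N)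
    (hN : ∀ Y ∈ L, Low h Y → ∀ x ∈ N, dm κ Y *ᵥ x ∈ N) : Gen L h e ≤ N := by
  refine Submodule.span_le.2 fun x hx => ?_
  induction hx with
  | base => exact he
  | step Y x hY hl _ ih => exact hN Y hY hl x ih

theorem Gen_alt {m : ℕ} {e : (Fin m → B) → ℂ} (he : IsAlt e) :
    ∀ x ∈ Gen L h e, IsAlt x := by
  intro x hx
  unfold Gen at hx
  induction hx using Submodule.span_induction with
  | mem x hx =>
    induction hx with
    | base => exact he
    | step Y x hY hl _ ih => exact ih.dm Y
  | zero => exact IsAlt.zero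
  | add x y _ _ hx hy => exact hx.add hy
  | smul c x _ hx => exact hx.smul c

/-- The weight of an index tuple. -/
def wt (h : B → ℝ) (I : κ → B) : ℝ := ∑ k, h (I k)

theorem wt_update (h : B → ℝ) (I : κ → B) (k : κ) (j : B) :
    wt h (Function.update I k j) = wt h I - h (I k) + h j := by
  unfold wt
  rw [← Finset.add_sum_erase _ _ (Finset.mem_univ k), ← Finset.add_sum_erase _ (fun k => h (I k))
    (Finset.mem_univ k), Function.update_self]
  have h1 : ∑ l ∈ Finset.univ.erase k, h (Function.update I k j l) =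
      ∑ l ∈ Finset.univ.erase k, h (I l) := by
    refine Finset.sum_congr rfl fun l hl => ?_
    rw [Function.update_of_ne (Finset.ne_of_mem_erase hl)]
  rw [h1]
  ring

/-- In the module generated by a highest weight vector, the highest weight space is a line. -/
theorem Gen_top {lam : ℝ} (he : ∀ I, e I ≠ 0 → wt h I = lam) {x : (κ → B) → ℂ}
    (hx : x ∈ Gen L h e) : ∃ z : ℂ, ∀ I, lam ≤ wt h I → x I = z * e I := by
  let N : Submodule ℂ ((κ → B) → ℂ) :=
    { carrier := {x | ∃ z : ℂ, ∀ I, lam ≤ wt h I → x I = z * e I}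
      add_mem' := by
        rintro x y ⟨z, hz⟩ ⟨w, hw⟩
        exact ⟨z + w, fun I hI => by rw [Pi.add_apply, hz I hI, hw I hI, add_mul]⟩
      zero_mem' := ⟨0, fun I _ => by rw [Pi.zero_apply, zero_mul]⟩
      smul_mem' := by
        rintro c x ⟨z, hz⟩
        exact ⟨c * z, fun I hI => by rw [Pi.smul_apply, hz I hI, smul_eq_mul, mul_assoc]⟩ }
  refine Gen_le (N := N) ⟨1, fun I _ => by rw [one_mul]⟩ (fun Y hY hl x hx => ?_) hx
  obtain ⟨z, hz⟩ := hx
  refine ⟨0, fun I hI => ?_⟩
  rw [zero_mul, dm_mulVec_apply]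
  refine Finset.sum_eq_zero fun k _ => Finset.sum_eq_zero fun j _ => ?_
  by_cases hj : Y (I k) j = 0
  · rw [hj, zero_mul]
  · have h2 := hl _ _ hj
    have h3 : lam < wt h (Function.update I k j) := by
      rw [wt_update]
      linarith
    rw [hz _ h3.le]
    by_cases h4 : e (Function.update I k j) = 0
    · rw [h4, mul_zero, mul_zero]
    · exact absurd (he _ h4) (ne_of_gt h3)

/-- The second highest weight space, if the weights are `± 1`. -/
theorem Gen_second (hpm : ∀ b, h b = 1 ∨ h b = -1) {lam : ℝ} (he : ∀ I, e I ≠ 0 → wt h I = lam)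
    {x : (κ → B) → ℂ} (hx : x ∈ Gen L h e) :
    ∃ z : ℂ, ∃ Y ∈ L, Low h Y ∧ ∀ I, lam - 2 ≤ wt h I → x I = z * e I + (dm κ Y *ᵥ e) I := by
  let N : Submodule ℂ ((κ → B) → ℂ) :=
    { carrier := {x | ∃ z : ℂ, ∃ Y ∈ L, Low h Y ∧
        ∀ I, lam - 2 ≤ wt h I → x I = z * e I + (dm κ Y *ᵥ e) I}
      add_mem' := by
        rintro x y ⟨z, Y, hY, hl, hz⟩ ⟨w, Y', hY', hl', hw⟩
        refine ⟨z + w, Y + Y', L.add_mem hY hY', fun b b' hb => ?_, fun I hI => ?_⟩
        · by_cases h1 : Y b b' = 0
          · refine hl' b b' fun h2 => hb ?_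
            rw [Matrix.add_apply, h1, h2, add_zero]
          · exact hl b b' h1
        · rw [Pi.add_apply, hz I hI, hw I hI, dm_add, add_mulVec, Pi.add_apply]
          ring
      zero_mem' := by
        refine ⟨0, 0, L.zero_mem, fun b b' hb => absurd rfl hb, fun I _ => ?_⟩
        rw [Pi.zero_apply, zero_mul, dm_zero, zero_mulVec, Pi.zero_apply, add_zero]
      smul_mem' := by
        rintro c x ⟨z, Y, hY, hl, hz⟩
        refine ⟨c * z, c • Y, L.smul_mem _ hY, fun b b' hb => ?_, fun I hI => ?_⟩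
        · refine hl b b' fun h2 => hb ?_
          rw [Matrix.smul_apply, h2, smul_zero]
        · rw [Pi.smul_apply, hz I hI, dm_smul, smul_mulVec, Pi.smul_apply, smul_eq_mul,
            smul_eq_mul]
          ring }
  refine Gen_le (N := N) ⟨1, 0, L.zero_mem, fun b b' hb => absurd rfl hb, fun I _ => ?_⟩
    (fun Y' hY' hl' x hx => ?_) hx
  · rw [one_mul, dm_zero, zero_mulVec, Pi.zero_apply, add_zero]
  · obtain ⟨z, Y, hY, hl, hz⟩ := hx
    refine ⟨0, z • Y', L.smul_mem _ hY', fun b b' hb => ?_, fun I hI => ?_⟩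
    · refine hl' b b' fun h2 => hb ?_
      rw [Matrix.smul_apply, h2, smul_zero]
    · rw [zero_mul, zero_add, dm_smul, smul_mulVec, Pi.smul_apply, smul_eq_mul, dm_mulVec_apply,
        dm_mulVec_apply, Finset.mul_sum]
      refine Finset.sum_congr rfl fun k _ => ?_
      rw [Finset.mul_sum]
      refine Finset.sum_congr rfl fun j _ => ?_
      by_cases hj : Y' (I k) j = 0
      · rw [hj, zero_mul, zero_mul, mul_zero]
      · have h2 := hl' _ _ hj
        have h5 : h j = 1 ∧ h (I k) = -1 := by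
          rcases hpm j with h6 | h6 <;> rcases hpm (I k) with h7 | h7 <;> rw [h6, h7] at h2
          · exact absurd h2 (lt_irrefl _)
          · exact ⟨h6, h7⟩
          · norm_num at h2
          · exact absurd h2 (lt_irrefl _)
        have h3 : lam ≤ wt h (Function.update I k j) := by
          rw [wt_update, h5.1, h5.2]
          linarith
        have h4 : (dm κ Y *ᵥ e) (Function.update I k j) = 0 := by
          rw [dm_mulVec_apply]
          refine Finset.sum_eq_zero fun l _ => Finset.sum_eq_zero fun i _ => ?_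
          by_cases hi : Y (Function.update I k j l) i = 0
          · rw [hi, zero_mul]
          · have h6 := hl _ _ hi
            by_cases h7 : e (Function.update (Function.update I k j) l i) = 0
            · rw [h7, mul_zero]
            · have h8 := he _ h7
              rw [wt_update h (Function.update I k j) l i] at h8
              linarith
        rw [hz _ (by linarith), h4, add_zero]
        ring

end

end Pool.Agent.NH32
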