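import Mathlib
import Pool.Agent.NH32.Tri
import Pool.Agent.NH32.Stb

/-!
# The group fixing the system normalizes the Lie algebra
-/

set_option linter.unusedSectionVars false

namespace Pool.Agent.NH32

open Matrix Equiv Module

noncomputable section

variable {B : Type} [Fintype B] [DecidableEq B] {L : Submodule ℂ (Matrix B B ℂ)}

/-- Change of coordinates. -/
def cjL (g gi : Matrix B B ℂ) (L : Submodule ℂ (Matrix B B ℂ)) : Submodule ℂ (Matrix B B ℂ) where
  carrier := {X | g * X * gi ∈ L}
  add_mem' := by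
    intro X Y hX hY
    change g * (X + Y) * gi ∈ L
    rw [mul_add, add_mul]
    exact L.add_mem hX hY
  zero_mem' := by
    change g * 0 * gi ∈ L
    rw [mul_zero, zero_mul]
    exact L.zero_mem
  smul_mem' := by
    intro c X hX
    change g * (c • X) * gi ∈ L
    rw [Matrix.mul_smul, Matrix.smul_mul]
    exact L.smul_mem _ hX

theorem mem_cjL {g gi X : Matrix B B ℂ} : X ∈ cjL g gi L ↔ g * X * gi ∈ L := Iff.rfl

/-- Change of coordinates for spaces of tensors. -/
def cjT {κ : Type} [Fintype κ] [DecidableEq κ] (gi : Matrix B B ℂ)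
    (E : Submodule ℂ ((κ → B) → ℂ)) : Submodule ℂ ((κ → B) → ℂ) :=
  E.comap (Matrix.toLin' (kp κ gi))

theorem mem_cjT {κ : Type} [Fintype κ] [DecidableEq κ] {gi : Matrix B B ℂ}
    {E : Submodule ℂ ((κ → B) → ℂ)} {c : (κ → B) → ℂ} : c ∈ cjT gi E ↔ kp κ gi *ᵥ c ∈ E := by
  unfold cjT
  rw [Submodule.mem_comap, Matrix.toLin'_apply]

section cj

variable {g gi : Matrix B B ℂ} (hg : gi * g = 1) {m : ℕ} {E : Submodule ℂ ((Fin m → B) → ℂ)}
  (h1 : ∀ c ∈ E, IsAlt c) (h2 : ∀ X ∈ cjL g gi L, ∀ c ∈ E, dm (Fin m) X *ᵥ c ∈ E)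

include hg in
theorem gg' : g * gi = 1 := mul_eq_one_comm.1 hg

include hg h1 in
theorem cjT_alt : ∀ c ∈ cjT gi E, IsAlt c := by
  intro c hc
  have h3 := (h1 _ (mem_cjT.1 hc)).kp g
  rwa [mulVec_mulVec, ← kp_mul, gg' hg, kp_one, one_mulVec] at h3

include hg h2 in
theorem cjT_stab : ∀ X ∈ L, ∀ c ∈ cjT gi E, dm (Fin m) X *ᵥ c ∈ cjT gi E := by
  intro X hX c hc
  rw [mem_cjT]
  have h3 : kp (Fin m) gi * dm (Fin m) X = dm (Fin m) (gi * X * g) * kp (Fin m) gi :=
    kp_mul_dm (by rw [mul_assoc, gg' hg, mul_one])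
  rw [mulVec_mulVec, h3, ← mulVec_mulVec]
  refine h2 _ ?_ _ (mem_cjT.1 hc)
  rw [mem_cjL]
  have h4 : g * (gi * X * g) * gi = (g * gi) * X * (g * gi) := by noncomm_ring
  rw [h4, gg' hg, one_mul, mul_one]
  exact hX

end cj

theorem StabL.cj {Y : Matrix B B ℂ} (hY : StabL L Y) {g gi : Matrix B B ℂ} (hg : gi * g = 1) :
    StabL (cjL g gi L) (gi * Y * g) := by
  intro m E h1 h2 c hc
  have h3 := hY m (cjT gi E) (cjT_alt hg h1) (cjT_stab hg h2) (kp (Fin m) g *ᵥ c) (by
    rw [mem_cjT, mulVec_mulVec, ← kp_mul, hg, kp_one, one_mulVec]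
    exact hc)
  rw [mem_cjT] at h3
  have h4 : kp (Fin m) gi * dm (Fin m) Y = dm (Fin m) (gi * Y * g) * kp (Fin m) gi :=
    kp_mul_dm (by rw [mul_assoc, gg' hg, mul_one])
  rw [mulVec_mulVec, h4, ← mulVec_mulVec, mulVec_mulVec (M := kp (Fin m) gi), ← kp_mul, hg,
    kp_one, one_mulVec] at h3
  exact h3

theorem StabP.cj {u : Matrix B B ℂ} (hu : StabP L u) {g gi : Matrix B B ℂ} (hg : gi * g = 1) :
    StabP (cjL g gi L) (gi * u * g) := by
  intro m E h1 h2 c hc
  have h3 := hu m (cjT gi E) (cjT_alt hg h1) (cjT_stab hg h2) (kp (Fin m) g *ᵥ c) (by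
    rw [mem_cjT, mulVec_mulVec, ← kp_mul, hg, kp_one, one_mulVec]
    exact hc)
  rw [mem_cjT] at h3
  rw [kp_mul, kp_mul, ← mulVec_mulVec, ← mulVec_mulVec]
  exact h3

theorem cjL_br (hL : BrC L) {g gi : Matrix B B ℂ} (hg : gi * g = 1) : BrC (cjL g gi L) := by
  intro X hX Y hY
  rw [mem_cjL] at hX hY ⊢
  have h1 : g * (X * Y - Y * X) * gi = (g * X * gi) * (g * Y * gi) -
      (g * Y * gi) * (g * X * gi) := by
    have h2 : (g * X * gi) * (g * Y * gi) = g * X * (gi * g) * Y * gi := by noncomm_ring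
    have h3 : (g * Y * gi) * (g * X * gi) = g * Y * (gi * g) * X * gi := by noncomm_ring
    rw [h2, h3, hg]
    noncomm_ring
  rw [h1]
  exact hL _ hX _ hY

/-- The exterior product of standard basis vectors. -/
theorem wd_single {m : ℕ} {s : Fin m → B} (hs : Function.Injective s) :
    wd (fun l => (Pi.single (s l) 1 : B → ℂ)) s = 1 := by
  unfold wd
  have h1 : (of fun k l => (Pi.single (s l) 1 : B → ℂ) (s k) : Matrix (Fin m) (Fin m) ℂ) = 1 := by
    ext k l
    rw [of_apply, Pi.single_apply, Matrix.one_apply]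
    by_cases h : k = l
    · subst h
      rw [if_pos rfl, if_pos rfl]
    · rw [if_neg (fun h2 => h (hs h2)), if_neg h]
  rw [h1, det_one]

/-- The support of an exterior product. -/
theorem wd_supp {m : ℕ} {v : Fin m → B → ℂ} {I : Fin m → B} (h : wd v I ≠ 0) :
    Function.Injective I ∧ ∀ k, ∃ l, v l (I k) ≠ 0 := by
  constructor
  · intro k l hkl
    by_contra hne
    exact h ((wd_alt v).eq_zero hne hkl)
  · intro k
    by_contra hcon
    push Not at hcon
    exact h (det_eq_zero_of_row_eq_zero k fun l => hcon l)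

/-- Lowering elements are determined by their action on the highest weight vector. -/
theorem low_eq_zero {h : B → ℝ} (hpm : ∀ b, h b = 1 ∨ h b = -1) {m : ℕ} {s : Fin m → B}
    (hs : Function.Injective s) (hs1 : ∀ b, h b = 1 ↔ ∃ l, s l = b) {Z : Matrix B B ℂ}
    (hZ : Low h Z)
    (h0 : dm (Fin m) Z *ᵥ wd (fun l => (Pi.single (s l) 1 : B → ℂ)) = 0) : Z = 0 := by
  ext b b'
  rw [Matrix.zero_apply]
  by_contra hne
  have h1 := hZ _ _ hne
  have h2 : h b' = 1 ∧ h b = -1 := by
    rcases hpm b' with h6 | h6 <;> rcases hpm b with h7 | h7 <;> rw [h6, h7] at h1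
    · exact absurd h1 (lt_irrefl _)
    · exact ⟨h6, h7⟩
    · norm_num at h1
    · exact absurd h1 (lt_irrefl _)
  obtain ⟨l, rfl⟩ := (hs1 b').1 h2.1
  have h3 := congrFun h0 (Function.update s l b)
  rw [dm_mulVec_apply, Pi.zero_apply, Finset.sum_eq_single l] at h3
  · rw [Function.update_self, Finset.sum_eq_single (s l)] at h3
    · rw [Function.update_idem, Function.update_eq_self, wd_single hs, mul_one] at h3
      exact hne h3
    · intro j _ hj
      rw [Function.update_idem]
      by_cases h4 : wd (fun l => (Pi.single (s l) 1 : B → ℂ)) (Function.update s l j) = 0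
      · rw [h4, mul_zero]
      · obtain ⟨h5, h6⟩ := wd_supp h4
        obtain ⟨l', hl'⟩ := h6 l
        rw [Function.update_self] at hl'
        have h7 : j = s l' := by
          by_contra hcon
          exact hl' (Pi.single_eq_of_ne hcon _)
        have h8 : l' ≠ l := fun h9 => hj (by rw [h7, h9])
        have h9 := h5 (a₁ := l) (a₂ := l') (by
          rw [Function.update_self, Function.update_of_ne h8, h7])
        exact absurd h9.symm h8
    · intro h4
      exact absurd (Finset.mem_univ _) h4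
  · intro k _ hk
    refine Finset.sum_eq_zero fun j _ => ?_
    rw [Function.update_of_ne hk]
    by_cases h4 : Z (s k) j = 0
    · rw [h4, zero_mul]
    · have h5 := hZ _ _ h4
      have h6 : h (s k) = 1 := (hs1 _).2 ⟨k, rfl⟩
      rcases hpm j with h7 | h7 <;> rw [h6, h7] at h5
      · exact absurd h5 (lt_irrefl _)
      · norm_num at h5
  · intro h4
    exact absurd (Finset.mem_univ _) h4

/-- The lowering elements which preserve the submodules belong to the Lie algebra. -/
theorem low_mem (hL : BrC L) {h : B → ℝ} (hpm : ∀ b, h b = 1 ∨ h b = -1) (hh : dg h ∈ L)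
    {Y : Matrix B B ℂ} (hY : StabL L Y) (hl : Low h Y) : Y ∈ L := by
  obtain ⟨m, s, hs, hs1⟩ : ∃ (m : ℕ) (s : Fin m → B), Function.Injective s ∧
      ∀ b, h b = 1 ↔ ∃ l, s l = b := by
    let S : Finset B := Finset.univ.filter fun b => h b = 1
    refine ⟨S.card, fun l => (S.equivFin.symm l : B), fun l l' hll => ?_, fun b => ?_⟩
    · exact S.equivFin.symm.injective (Subtype.ext hll)
    · constructor
      · intro hb
        have hbS : b ∈ S := by simp [S, hb]
        exact ⟨S.equivFin ⟨b, hbS⟩, by simp⟩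
      · rintro ⟨l, rfl⟩
        exact (Finset.mem_filter.1 (S.equivFin.symm l).2).2
  set w : (Fin m → B) → ℂ := wd (fun l => (Pi.single (s l) 1 : B → ℂ)) with hw
  -- the support
  have hsupp : ∀ I, w I ≠ 0 → ∀ k, h (I k) = 1 := by
    intro I hI k
    obtain ⟨l, hl'⟩ := (wd_supp hI).2 k
    have h7 : I k = s l := by
      by_contra hcon
      exact hl' (Pi.single_eq_of_ne hcon _)
    rw [h7]
    exact (hs1 _).2 ⟨l, rfl⟩
  have he : ∀ I, w I ≠ 0 → wt h I = (m : ℝ) := by
    intro I hI
    unfold wt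
    rw [Finset.sum_congr rfl fun k _ => hsupp I hI k]
    simp
  have hup : ∀ X ∈ L, Upp h X → dm (Fin m) X *ᵥ w = 0 := by
    intro X _ hX
    rw [hw, dm_wd]
    refine Finset.sum_eq_zero fun l _ => ?_
    have h1 : X *ᵥ (Pi.single (s l) 1 : B → ℂ) = 0 := by
      funext b
      rw [mulVec_single_one, Pi.zero_apply]
      by_contra hne
      have h2 := hX _ _ hne
      have h3 : h (s l) = 1 := (hs1 _).2 ⟨l, rfl⟩
      rcases hpm b with h4 | h4 <;> rw [h3, h4] at h2
      · exact absurd h2 (lt_irrefl _)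
      · norm_num at h2
    rw [h1]
    have h2 := wdM.map_update_zero (fun l => (Pi.single (s l) 1 : B → ℂ)) l
    exact h2
  have hz : ∀ X ∈ L, Zer h X → ∃ z : ℂ, dm (Fin m) X *ᵥ w = z • w := by
    intro X _ hX
    refine ⟨∑ l, X (s l) (s l), ?_⟩
    rw [hw, dm_wd, Finset.sum_smul]
    refine Finset.sum_congr rfl fun l _ => ?_
    have h1 : X *ᵥ (Pi.single (s l) 1 : B → ℂ) =
        ∑ l', (fun l' => X (s l') (s l)) l' • (Pi.single (s l') 1 : B → ℂ) := by
      funext b
      rw [mulVec_single_one, Finset.sum_apply]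
      simp only [Pi.smul_apply, smul_eq_mul, Pi.single_apply]
      by_cases hb : h b = 1
      · obtain ⟨l', rfl⟩ := (hs1 b).1 hb
        rw [Finset.sum_eq_single l']
        · rw [if_pos rfl, mul_one]
          rfl
        · intro l'' _ hl''
          rw [if_neg (fun h2 => hl'' (hs h2.symm)), mul_zero]
        · intro h2
          exact absurd (Finset.mem_univ _) h2
      · rw [Finset.sum_eq_zero]
        · by_contra hne
          have h2 := hX _ _ hne
          have h3 : h (s l) = 1 := (hs1 _).2 ⟨l, rfl⟩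
          exact hb (by rw [h2, h3])
        · intro l' _
          rw [if_neg (fun h2 => hb (by rw [h2]; exact (hs1 _).2 ⟨l', rfl⟩)), mul_zero]
    have h2 : X *ᵥ (Pi.single (s l) 1 : B → ℂ) = X (s l) (s l) • (Pi.single (s l) 1 : B → ℂ) +
        ∑ l', (fun l' => if l' = l then 0 else X (s l') (s l)) l' •
          (fun l' => (Pi.single (s l') 1 : B → ℂ)) l' := by
      rw [h1, ← Finset.add_sum_erase _ _ (Finset.mem_univ l)]
      congr 1
      rw [← Finset.add_sum_erase Finset.univ (fun l' => (fun l' => if l' = l then 0 else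
        X (s l') (s l)) l' • (fun l' => (Pi.single (s l') 1 : B → ℂ)) l') (Finset.mem_univ l)]
      simp only [if_true, zero_smul, zero_add]
      refine Finset.sum_congr rfl fun l' hl' => ?_
      rw [if_neg (Finset.ne_of_mem_erase hl')]
    rw [h2]
    have h3 := wdM.map_update_add (fun l => (Pi.single (s l) 1 : B → ℂ)) l
      (X (s l) (s l) • (Pi.single (s l) 1 : B → ℂ))
      (∑ l', (fun l' => if l' = l then 0 else X (s l') (s l)) l' •
          (fun l' => (Pi.single (s l') 1 : B → ℂ)) l')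
    rw [wdM_apply, wdM_apply, wdM_apply] at h3
    rw [h3, wd_update_sum _ (by simp), add_zero]
    have h4 := wdM.map_update_smul (fun l => (Pi.single (s l) 1 : B → ℂ)) l (X (s l) (s l))
      (Pi.single (s l) 1 : B → ℂ)
    rw [wdM_apply, wdM_apply, Function.update_eq_self] at h4
    exact h4
  -- the module generated by the highest weight vector
  have hstab := hY m (Gen L h w) (Gen_alt (wd_alt _))
    (fun X hX c hc => Gen_stable hL hh hup hz hX hc) w Gen_self
  obtain ⟨z, Y', hY', hl', hI⟩ := Gen_second hpm he hstab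
  -- the elements agree
  have hlow : ∀ Z : Matrix B B ℂ, Low h Z → ∀ I, (dm (Fin m) Z *ᵥ w) I ≠ 0 →
      wt h I = (m : ℝ) - 2 := by
    intro Z hZ I hne
    rw [dm_mulVec_apply] at hne
    obtain ⟨k, _, hk⟩ := Finset.exists_ne_zero_of_sum_ne_zero hne
    obtain ⟨j, _, hj⟩ := Finset.exists_ne_zero_of_sum_ne_zero hk
    have h1 := hZ _ _ (left_ne_zero_of_mul hj)
    have h2 := he _ (right_ne_zero_of_mul hj)
    have h3 := hsupp _ (right_ne_zero_of_mul hj) k
    rw [Function.update_self] at h3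
    have h4 : h (I k) = -1 := by
      rcases hpm (I k) with h5 | h5
      · rw [h5, h3] at h1
        exact absurd h1 (lt_irrefl _)
      · exact h5
    rw [wt_update, h3, h4] at h2
    linarith
  have h0 : dm (Fin m) (Y - Y') *ᵥ w = 0 := by
    funext I
    rw [dm_sub, sub_mulVec, Pi.sub_apply, Pi.zero_apply]
    by_cases hw2 : wt h I = (m : ℝ) - 2
    · have h1 := hI I hw2.ge
      have h2 : w I = 0 := by
        by_contra hne
        have := he I hne
        rw [hw2] at this
        linarith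
      rw [h1, h2]
      ring
    · have h1 : (dm (Fin m) Y *ᵥ w) I = 0 := by
        by_contra hne
        exact hw2 (hlow Y hl I hne)
      have h2 : (dm (Fin m) Y' *ᵥ w) I = 0 := by
        by_contra hne
        exact hw2 (hlow Y' hl' I hne)
      rw [h1, h2, sub_zero]
  have h1 : Low h (Y - Y') := by
    intro b b' hb
    by_cases h2 : Y b b' = 0
    · refine hl' b b' fun h3 => hb ?_
      rw [Matrix.sub_apply, h2, h3, sub_zero]
    · exact hl b b' h2
  have h2 := low_eq_zero hpm hs hs1 h1 h0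
  rw [sub_eq_zero.1 h2]
  exact hY'

end

end Pool.Agent.NH32
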