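import Mathlib
import Pool.Agent.NH32.LieB

/-!
# The group fixing the system normalizes the Lie algebra: the proof
-/

set_option linter.unusedSectionVars false

namespace Pool.Agent.NH32

open Matrix Equiv Module

noncomputable section

variable {B : Type} [Fintype B] [DecidableEq B] {L : Submodule ℂ (Matrix B B ℂ)}

/-- Diagonalization of involutions. -/
theorem exists_diag {D : Matrix B B ℂ} (hD : D * D = 1) : ∃ g gi : Matrix B B ℂ, gi * g = 1 ∧
    ∃ h : B → ℝ, (∀ b, h b = 1 ∨ h b = -1) ∧ D * g = g * dg h := by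
  classical
  let E₁ : Submodule ℂ (B → ℂ) := LinearMap.ker (toLin' (D - 1))
  let E₂ : Submodule ℂ (B → ℂ) := LinearMap.ker (toLin' (D + 1))
  have hm₁ : ∀ v, v ∈ E₁ ↔ D *ᵥ v = v := by
    intro v
    rw [LinearMap.mem_ker, toLin'_apply, sub_mulVec, one_mulVec, sub_eq_zero]
  have hm₂ : ∀ v, v ∈ E₂ ↔ D *ᵥ v = -v := by
    intro v
    rw [LinearMap.mem_ker, toLin'_apply, add_mulVec, one_mulVec, add_eq_zero_iff_eq_neg]
  have hc : IsCompl E₁ E₂ := by
    constructor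
    · rw [Submodule.disjoint_def]
      intro v h1 h2
      rw [hm₁] at h1
      rw [hm₂, h1] at h2
      have h3 : (2 : ℂ) • v = 0 := by
        rw [two_smul]
        nth_rewrite 1 [h2]
        rw [neg_add_cancel]
      exact (smul_eq_zero.1 h3).resolve_left two_ne_zero
    · rw [codisjoint_iff, Submodule.eq_top_iff']
      intro v
      have h1 : v = (1 / 2 : ℂ) • (v + D *ᵥ v) + (1 / 2 : ℂ) • (v - D *ᵥ v) := by module
      have h2 : D *ᵥ (D *ᵥ v) = v := by rw [mulVec_mulVec, hD, one_mulVec]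
      rw [h1]
      refine Submodule.add_mem_sup ?_ ?_
      · rw [hm₁, mulVec_smul, mulVec_add, h2, add_comm]
      · rw [hm₂, mulVec_smul, mulVec_sub, h2, ← smul_neg, neg_sub]
  let b := ((finBasis ℂ E₁).prod (finBasis ℂ E₂)).map (Submodule.prodEquivOfIsCompl E₁ E₂ hc)
  have hcard : Fintype.card (Fin (finrank ℂ E₁) ⊕ Fin (finrank ℂ E₂)) = Fintype.card B := by
    rw [← finrank_eq_card_basis b, finrank_fintype_fun_eq_card]
  let e : Fin (finrank ℂ E₁) ⊕ Fin (finrank ℂ E₂) ≃ B := Fintype.equivOfCardEq hcard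
  let b' := b.reindex e
  have hb' : ∀ j, b' j ∈ E₁ ∨ b' j ∈ E₂ := by
    intro j
    have h1 : b' j = b (e.symm j) := Basis.reindex_apply _ _ _
    rw [h1]
    rcases hj : e.symm j with i | i
    · left
      have h2 : b (Sum.inl i) = (finBasis ℂ E₁ i : B → ℂ) := by
        simp [b]
      rw [h2]
      exact (finBasis ℂ E₁ i).2
    · right
      have h2 : b (Sum.inr i) = (finBasis ℂ E₂ i : B → ℂ) := by
        simp [b]
      rw [h2]
      exact (finBasis ℂ E₂ i).2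
  let g : Matrix B B ℂ := (Pi.basisFun ℂ B).toMatrix b'
  have hg : ∀ i j, g i j = b' j i := fun i j => by
    simp [g, Basis.toMatrix_apply]
  refine ⟨g, b'.toMatrix (Pi.basisFun ℂ B), Basis.toMatrix_mul_toMatrix_flip _ _,
    fun j => if b' j ∈ E₁ then 1 else -1, fun j => ?_, ?_⟩
  · by_cases h : b' j ∈ E₁
    · left
      exact if_pos h
    · right
      exact if_neg h
  · ext i j
    unfold dg
    rw [mul_diagonal, Matrix.mul_apply, hg]
    have h1 : ∑ k, D i k * g k j = (D *ᵥ b' j) i := by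
      rw [mvA]
      exact Finset.sum_congr rfl fun k _ => by rw [hg]
    rw [h1]
    beta_reduce
    by_cases h : b' j ∈ E₁
    · rw [if_pos h, (hm₁ _).1 h]
      push_cast
      ring
    · rw [if_neg h, (hm₂ _).1 ((hb' j).resolve_left h), Pi.neg_apply]
      push_cast
      ring

/-- The Lie algebra of the matrices which preserve the submodules of the exterior powers. -/
def SL (L : Submodule ℂ (Matrix B B ℂ)) : Submodule ℂ (Matrix B B ℂ) where
  carrier := {Y | StabL L Y}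
  add_mem' := by
    intro X Y hX hY m E h1 h2 c hc
    rw [dm_add, add_mulVec]
    exact E.add_mem (hX m E h1 h2 c hc) (hY m E h1 h2 c hc)
  zero_mem' := by
    intro m E h1 h2 c hc
    rw [dm_zero, zero_mulVec]
    exact E.zero_mem
  smul_mem' := by
    intro a X hX m E h1 h2 c hc
    rw [dm_smul, smul_mulVec]
    exact E.smul_mem _ (hX m E h1 h2 c hc)

theorem SL_br : BrC (SL L) := by
  intro X hX Y hY m E h1 h2 c hc
  rw [dm_bracket, sub_mulVec, ← mulVec_mulVec, ← mulVec_mulVec]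
  exact E.sub_mem (hX m E h1 h2 _ (hY m E h1 h2 c hc)) (hY m E h1 h2 _ (hX m E h1 h2 c hc))

theorem le_SL : L ≤ SL L := fun X hX _ _ _ h2 c hc => h2 X hX c hc

/-- The components of `Y`. -/
theorem comp_eq {D : Matrix B B ℂ} (hD : D * D = 1) (Y : Matrix B B ℂ) :
    (1 - D) * Y * (1 + D) = (1 / 2 : ℂ) • ((D * (D * Y - Y * D) - (D * Y - Y * D) * D) -
      (2 : ℂ) • (D * Y - Y * D)) := by
  have h1 : D * (D * Y - Y * D) - (D * Y - Y * D) * D = (D * D) * Y + Y * (D * D) -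
      (2 : ℂ) • (D * Y * D) := by
    rw [two_smul]
    noncomm_ring
  rw [h1, hD, one_mul, mul_one]
  have h2 : (1 - D) * Y * (1 + D) = Y - D * Y + Y * D - D * Y * D := by noncomm_ring
  rw [h2]
  module

theorem comp_mem {M : Submodule ℂ (Matrix B B ℂ)} (hM : BrC M) {D : Matrix B B ℂ} (hDM : D ∈ M)
    (hD : D * D = 1) {Y : Matrix B B ℂ} (hY : Y ∈ M) : (1 - D) * Y * (1 + D) ∈ M := by
  rw [comp_eq hD]
  exact M.smul_mem _ (M.sub_mem (hM _ hDM _ (hM _ hDM _ hY)) (M.smul_mem _ (hM _ hDM _ hY)))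

/-- The components of the elements preserving the submodules belong to the Lie algebra. -/
theorem comp_mem_L (hL : BrC L) {D : Matrix B B ℂ} (hDL : D ∈ L) (hD : D * D = 1)
    {Y : Matrix B B ℂ} (hY : Y ∈ SL L) : (1 - D) * Y * (1 + D) ∈ L := by
  have h1 : StabL L ((1 - D) * Y * (1 + D)) := comp_mem SL_br (le_SL hDL) hD hY
  obtain ⟨g, gi, hg, h, hpm, hDg⟩ := exists_diag hD
  have hgg := gg' hg
  have hDe : D = g * dg h * gi := by
    calc D = D * (g * gi) := by rw [hgg, mul_one]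
      _ = (D * g) * gi := by rw [mul_assoc]
      _ = _ := by rw [hDg]
  have h2 := h1.cj hg
  have h3 : gi * D * g = dg h := by
    rw [mul_assoc, hDg, ← mul_assoc, hg, one_mul]
  have h4 : gi * ((1 - D) * Y * (1 + D)) * g = (1 - dg h) * (gi * Y * g) * (1 + dg h) := by
    rw [hDe]
    calc gi * ((1 - g * dg h * gi) * Y * (1 + g * dg h * gi)) * g
        = (gi - (gi * g) * dg h * gi) * Y * (g + g * dg h * (gi * g)) := by noncomm_ring
      _ = _ := by rw [hg]; noncomm_ring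
  have h5 : gi * ((1 - D) * Y * (1 + D)) * g ∈ cjL g gi L := by
    refine low_mem (cjL_br hL hg) hpm ?_ h2 ?_
    · rw [mem_cjL, ← hDe]
      exact hDL
    · rw [h4]
      intro b b' hne
      have h6 : ((1 - dg h) * (gi * Y * g) * (1 + dg h)) b b' =
          (1 - (h b : ℂ)) * (gi * Y * g) b b' * (1 + (h b' : ℂ)) := by
        have h7 : (1 - dg h) = diagonal fun b => (1 - (h b : ℂ)) := by
          unfold dg
          rw [← diagonal_one, diagonal_sub]
        have h8 : (1 + dg h) = diagonal fun b => (1 + (h b : ℂ)) := by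
          unfold dg
          rw [← diagonal_one, diagonal_add]
        rw [h7, h8, mul_diagonal, diagonal_mul]
      rw [h6] at hne
      rcases hpm b with h9 | h9
      · exfalso
        apply hne
        rw [h9]
        push_cast
        ring
      · rcases hpm b' with h10 | h10
        · rw [h9, h10]
          norm_num
        · exfalso
          apply hne
          rw [h10]
          push_cast
          ring
  rw [mem_cjL] at h5
  have h6 : g * (gi * ((1 - D) * Y * (1 + D)) * g) * gi = (g * gi) * ((1 - D) * Y * (1 + D)) *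
      (g * gi) := by noncomm_ring
  rw [h6, hgg, one_mul, mul_one] at h5
  exact h5

theorem br_mem_L (hL : BrC L) {D : Matrix B B ℂ} (hDL : D ∈ L) (hD : D * D = 1)
    {Y : Matrix B B ℂ} (hY : Y ∈ SL L) : D * Y - Y * D ∈ L := by
  have h1 := comp_mem_L hL hDL hD hY
  have h2 := comp_mem_L hL (L.neg_mem hDL) (by rw [neg_mul_neg, hD]) hY
  have h3 : D * Y - Y * D = (1 / 2 : ℂ) • ((1 - -D) * Y * (1 + -D)) -
      (1 / 2 : ℂ) • ((1 - D) * Y * (1 + D)) := by
    have h4 : (1 - -D) * Y * (1 + -D) = Y + D * Y - Y * D - D * Y * D := by noncomm_ring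
    have h5 : (1 - D) * Y * (1 + D) = Y - D * Y + Y * D - D * Y * D := by noncomm_ring
    rw [h4, h5]
    module
  rw [h3]
  exact L.sub_mem (L.smul_mem _ h2) (L.smul_mem _ h1)

variable {Om : Matrix B B ℂ}

/-- The Lie algebra is an ideal in the algebra of the elements preserving the submodules. -/
theorem LD.ideal (hL : LD Om L) {X Y : Matrix B B ℂ} (hX : X ∈ L) (hY : Y ∈ SL L) :
    X * Y - Y * X ∈ L := by
  let M : Submodule ℂ (Matrix B B ℂ) :=
    { carrier := {X | X ∈ L ∧ ∀ Y ∈ SL L, X * Y - Y * X ∈ L}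
      add_mem' := by
        rintro X X' ⟨h1, h2⟩ ⟨h3, h4⟩
        refine ⟨L.add_mem h1 h3, fun Y hY => ?_⟩
        have h5 : (X + X') * Y - Y * (X + X') = (X * Y - Y * X) + (X' * Y - Y * X') := by
          noncomm_ring
        rw [h5]
        exact L.add_mem (h2 Y hY) (h4 Y hY)
      zero_mem' := by
        refine ⟨L.zero_mem, fun Y hY => ?_⟩
        rw [zero_mul, mul_zero, sub_zero]
        exact L.zero_mem
      smul_mem' := by
        rintro c X ⟨h1, h2⟩
        refine ⟨L.smul_mem _ h1, fun Y hY => ?_⟩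
        rw [Matrix.smul_mul, Matrix.mul_smul, ← smul_sub]
        exact L.smul_mem _ (h2 Y hY) }
  have h1 : L ≤ M := by
    refine hL.gen M (fun D hDL hD => ⟨hDL, fun Y hY => br_mem_L hL.br hDL hD hY⟩) ?_
    rintro X ⟨hX, h1⟩ X' ⟨hX', h2⟩
    refine ⟨hL.br X hX X' hX', fun Y hY => ?_⟩
    have h3 : (X * X' - X' * X) * Y - Y * (X * X' - X' * X) =
        (X * (X' * Y - Y * X') - (X' * Y - Y * X') * X) -
        (X' * (X * Y - Y * X) - (X * Y - Y * X) * X') := by noncomm_ring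
    rw [h3]
    exact L.sub_mem (hL.br _ hX _ (h2 Y hY)) (hL.br _ hX' _ (h1 Y hY))
  exact (h1 hX).2 Y hY

/-- Orthogonal projection to a space of matrices. -/
theorem exists_orth (S : Submodule ℂ (Matrix B B ℂ)) (X : Matrix B B ℂ) :
    ∃ s ∈ S, ∀ Z ∈ S, trace (Zᴴ * (X - s)) = 0 := by
  let e : Matrix B B ℂ ≃ₗ[ℂ] (B × B → ℂ) :=
    { toFun := fun X p => X p.1 p.2
      invFun := fun f => of fun i j => f (i, j)
      map_add' := fun _ _ => rfl
      map_smul' := fun _ _ => rfl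
      left_inv := fun _ => rfl
      right_inv := fun _ => rfl }
  obtain ⟨p, hp, hp1, hp2⟩ := exists_proj (S.map (e : Matrix B B ℂ →ₗ[ℂ] (B × B → ℂ)))
  obtain ⟨s, hs, hs'⟩ := hp1 (e X)
  refine ⟨s, hs, fun Z hZ => ?_⟩
  have h1 : ∀ Y : Matrix B B ℂ, trace (Zᴴ * Y) = star (e Z) ⬝ᵥ e Y := by
    intro Y
    unfold trace dotProduct
    simp only [diag_apply, Matrix.mul_apply, conjTranspose_apply, Pi.star_apply]
    rw [Finset.sum_comm, ← Finset.univ_product_univ, Finset.sum_product]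
    rfl
  rw [h1, map_sub]
  have hs2 : e s = p *ᵥ e X := hs'
  have hz : p *ᵥ e Z = e Z := hp2 _ ⟨Z, hZ, rfl⟩
  rw [hs2]
  conv_lhs => rw [← hz]
  rw [star_mulVec, hp, ← dotProduct_mulVec, mulVec_sub]
  have h2 : p *ᵥ (p *ᵥ e X) = p *ᵥ e X := hp2 _ (hp1 _)
  rw [h2, sub_self, dotProduct_zero]

open scoped ComplexOrder in
theorem trace_self_eq_zero {X : Matrix B B ℂ} (h : trace (Xᴴ * X) = 0) : X = 0 :=
  trace_conjTranspose_mul_self_eq_zero_iff.1 h

/-- The components orthogonal to an ideal commute with it. -/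
theorem comm_of_orth {S : Submodule ℂ (Matrix B B ℂ)} (hadj : ∀ X ∈ S, Xᴴ ∈ S) (hbr : BrC S)
    {Y : Matrix B B ℂ} (hY : ∀ X ∈ S, X * Y - Y * X ∈ S) (ho : ∀ Z ∈ S, trace (Zᴴ * Y) = 0)
    {X : Matrix B B ℂ} (hX : X ∈ S) : X * Y = Y * X := by
  rw [← sub_eq_zero]
  apply trace_self_eq_zero
  have h1 := ho _ (hbr _ (hadj X hX) _ (hY X hX))
  rw [← h1]
  obtain ⟨Z, hZ⟩ : ∃ Z, Z = X * Y - Y * X := ⟨_, rfl⟩
  rw [← hZ]
  have h2 : (Xᴴ * Z - Z * Xᴴ)ᴴ = Zᴴ * X - X * Zᴴ := by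
    rw [conjTranspose_sub, conjTranspose_mul, conjTranspose_mul, conjTranspose_conjTranspose]
  rw [h2]
  nth_rewrite 2 [hZ]
  have h3 : trace (Zᴴ * (X * Y - Y * X)) = trace (Zᴴ * X * Y) - trace (Zᴴ * Y * X) := by
    rw [mul_sub, trace_sub, mul_assoc, mul_assoc]
  have h4 : trace ((Zᴴ * X - X * Zᴴ) * Y) = trace (Zᴴ * X * Y) - trace (X * Zᴴ * Y) := by
    rw [sub_mul, trace_sub]
  have h5 : trace (Zᴴ * Y * X) = trace (X * Zᴴ * Y) := by
    rw [trace_mul_comm, mul_assoc]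
  rw [h3, h4, h5]

section main

variable (hO : IsOm Om) (hL : LD Om L)
  {T : ∀ (κ : Type) [Fintype κ] [DecidableEq κ], Submodule ℂ ((κ → B) → ℂ)}
  (hT : ∀ (a b : ℕ) (c : (Fin a ⊕ Fin b → B) → ℂ), IsAlt2 c →
    (∀ X ∈ L, dm (Fin a ⊕ Fin b) X *ᵥ c = 0) → c ∈ T (Fin a ⊕ Fin b))
  (hTL : ∀ (κ : Type) [Fintype κ] [DecidableEq κ], ∀ t ∈ T κ, ∀ X ∈ L, dm κ X *ᵥ t = 0)

/-- The Lie algebra of the group fixing the system. -/
def LT (Om : Matrix B B ℂ) (T : ∀ (κ : Type) [Fintype κ] [DecidableEq κ],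
    Submodule ℂ ((κ → B) → ℂ)) : Submodule ℂ (Matrix B B ℂ) where
  carrier := {Y | Yᵀ * Om + Om * Y = 0 ∧
    ∀ (κ : Type) [Fintype κ] [DecidableEq κ], ∀ t ∈ T κ, dm κ Y *ᵥ t = 0}
  add_mem' := by
    rintro X Y ⟨h1, h2⟩ ⟨h3, h4⟩
    constructor
    · have h5 : (X + Y)ᵀ * Om + Om * (X + Y) = (Xᵀ * Om + Om * X) + (Yᵀ * Om + Om * Y) := by
        rw [transpose_add]
        noncomm_ring
      rw [h5, h1, h3, add_zero]
    · intro κ _ _ t ht
      rw [dm_add, add_mulVec, h2 κ t ht, h4 κ t ht, add_zero]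
  zero_mem' := by
    constructor
    · rw [transpose_zero, zero_mul, mul_zero, add_zero]
    · intro κ _ _ t _
      rw [dm_zero, zero_mulVec]
  smul_mem' := by
    rintro c X ⟨h1, h2⟩
    constructor
    · rw [transpose_smul, Matrix.smul_mul, Matrix.mul_smul, ← smul_add, h1, smul_zero]
    · intro κ _ _ t ht
      rw [dm_smul, smul_mulVec, h2 κ t ht, smul_zero]

include hO hL hT in
theorem LT_le : LT Om T ≤ SL L := fun _ hY => stabL_of_T hO hL hT hY.1 hY.2

include hL hTL in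
theorem le_LT : L ≤ LT Om T := fun X hX => ⟨hL.sp X hX, fun κ _ _ t ht => hTL κ t ht X hX⟩

theorem LT_conj {u : USp Om} (hu : u ∈ Fx Om T) {Y : Matrix B B ℂ} (hY : Y ∈ LT Om T) :
    mt u * Y * mt u⁻¹ ∈ LT Om T := by
  constructor
  · have h1 := hY.1
    have h2 := mt_sp u⁻¹
    have h3 := mt_sp u
    have h4 : (mt u⁻¹)ᵀ * ((mt u)ᵀ * Om * mt u) * mt u⁻¹ = Om := by rw [h3, h2]
    have e1 : (mt u⁻¹)ᵀ * (mt u)ᵀ = 1 := by rw [← transpose_mul, mt_mul_inv, transpose_one]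
    have e2 : (mt u)ᵀ * (mt u⁻¹)ᵀ = 1 := by rw [← transpose_mul, mt_inv_mul, transpose_one]
    have h5 : (mt u * Y * mt u⁻¹)ᵀ * Om + Om * (mt u * Y * mt u⁻¹) =
        (mt u⁻¹)ᵀ * (Yᵀ * Om + Om * Y) * mt u⁻¹ := by
      rw [transpose_mul, transpose_mul]
      have e3 : (mt u)ᵀ * Om = Om * mt u⁻¹ := by
        calc (mt u)ᵀ * Om = (mt u)ᵀ * Om * (mt u * mt u⁻¹) := by rw [mt_mul_inv, mul_one]
          _ = ((mt u)ᵀ * Om * mt u) * mt u⁻¹ := by noncomm_ring
          _ = _ := by rw [h3]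
      have e4 : Om * mt u = (mt u⁻¹)ᵀ * Om := by
        calc Om * mt u = ((mt u⁻¹)ᵀ * (mt u)ᵀ) * (Om * mt u) := by rw [e1, one_mul]
          _ = (mt u⁻¹)ᵀ * ((mt u)ᵀ * Om * mt u) := by noncomm_ring
          _ = _ := by rw [h3]
      calc (mt u⁻¹)ᵀ * (Yᵀ * (mt u)ᵀ) * Om + Om * (mt u * Y * mt u⁻¹)
          = (mt u⁻¹)ᵀ * Yᵀ * ((mt u)ᵀ * Om) + (Om * mt u) * Y * mt u⁻¹ := by noncomm_ring
        _ = _ := by rw [e3, e4]; noncomm_ring
    rw [h5, h1, mul_zero, zero_mul]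
  · intro κ _ _ t ht
    have h1 := hu κ t ht
    have h2 : kp κ (mt u) * dm κ Y = dm κ (mt u * Y * mt u⁻¹) * kp κ (mt u) :=
      kp_mul_dm (by rw [mul_assoc, mul_assoc, mt_inv_mul, mul_one])
    have h3 : dm κ (mt u * Y * mt u⁻¹) *ᵥ (kp κ (mt u) *ᵥ t) = 0 := by
      rw [mulVec_mulVec, ← h2, ← mulVec_mulVec, hY.2 κ t ht, mulVec_zero]
    rwa [h1] at h3

include hO hL hT in
/-- Brackets of elements of the Lie algebra of the group. -/
theorem LT_br {X Y : Matrix B B ℂ} (hX : X ∈ LT Om T) (hY : Y ∈ LT Om T)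
    (hTL : ∀ (κ : Type) [Fintype κ] [DecidableEq κ], ∀ t ∈ T κ, ∀ X ∈ L, dm κ X *ᵥ t = 0) :
    X * Y - Y * X ∈ L := by
  have hdec : ∀ X ∈ LT Om T, ∃ a ∈ L, ∃ c ∈ LT Om T, (∀ Z ∈ L, Z * c = c * Z) ∧ X = a + c := by
    intro X hX
    obtain ⟨s, hs, ho⟩ := exists_orth L X
    have hc : X - s ∈ LT Om T := (LT Om T).sub_mem hX (le_LT hL hTL hs)
    refine ⟨s, hs, X - s, hc, fun Z hZ => ?_, by abel⟩
    exact comm_of_orth hL.adj hL.br (fun X hX => hL.ideal hX (LT_le hO hL hT hc)) ho hZ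
  obtain ⟨a, ha, c, hc, hac, rfl⟩ := hdec X hX
  obtain ⟨a', ha', c', hc', hac', rfl⟩ := hdec Y hY
  have h1 : c' * c = c * c' := commutant_dm hO hL hT hac hc'.1 hc'.2
  have h2 : (a + c) * (a' + c') - (a' + c') * (a + c) = (a * a' - a' * a) +
      (a * c' - c' * a) - (a' * c - c * a') + (c * c' - c' * c) := by noncomm_ring
  rw [h2, hac' a ha, hac a' ha', h1, sub_self, sub_self, sub_self, add_zero, sub_zero, add_zero]
  exact hL.br a ha a' ha'

include hO hL hT hTL in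
/-- **Normalization**: the group fixing the system normalizes the Lie algebra. -/
theorem normal_of_T {u : USp Om} (hu : u ∈ Fx Om T) {X : Matrix B B ℂ} (hX : X ∈ L) :
    mt u * X * mt u⁻¹ ∈ L := by
  -- the derived algebra
  let S : Submodule ℂ (Matrix B B ℂ) :=
    Submodule.span ℂ {Z | ∃ X ∈ L, ∃ Y ∈ L, Z = X * Y - Y * X}
  have hSL : S ≤ L := by
    refine Submodule.span_le.2 ?_
    rintro _ ⟨X, hX, Y, hY, rfl⟩
    exact hL.br X hX Y hY
  have hSm : ∀ X ∈ L, ∀ Y ∈ L, X * Y - Y * X ∈ S := fun X hX Y hY =>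
    Submodule.subset_span ⟨X, hX, Y, hY, rfl⟩
  have hSu : ∀ Z ∈ S, mt u * Z * mt u⁻¹ ∈ L := by
    intro Z hZ
    induction hZ using Submodule.span_induction with
    | mem Z hZ =>
      obtain ⟨X, hX, Y, hY, rfl⟩ := hZ
      have h1 := LT_br hO hL hT (LT_conj hu (le_LT hL hTL hX)) (LT_conj hu (le_LT hL hTL hY)) hTL
      have h2 : mt u * (X * Y - Y * X) * mt u⁻¹ =
          (mt u * X * mt u⁻¹) * (mt u * Y * mt u⁻¹) - (mt u * Y * mt u⁻¹) * (mt u * X * mt u⁻¹) := by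
        have h3 : (mt u * X * mt u⁻¹) * (mt u * Y * mt u⁻¹) =
            mt u * X * (mt u⁻¹ * mt u) * Y * mt u⁻¹ := by noncomm_ring
        have h4 : (mt u * Y * mt u⁻¹) * (mt u * X * mt u⁻¹) =
            mt u * Y * (mt u⁻¹ * mt u) * X * mt u⁻¹ := by noncomm_ring
        rw [h3, h4, mt_inv_mul]
        noncomm_ring
      rw [h2]
      exact h1
    | zero =>
      rw [mul_zero, zero_mul]
      exact L.zero_mem
    | add x y _ _ hx hy =>
      rw [mul_add, add_mul]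
      exact L.add_mem hx hy
    | smul c x _ hx =>
      rw [Matrix.mul_smul, Matrix.smul_mul]
      exact L.smul_mem _ hx
  obtain ⟨s, hs, ho⟩ := exists_orth S X
  have hz : ∀ Y ∈ L, Y * (X - s) = (X - s) * Y := by
    intro Y hY
    rw [← sub_eq_zero]
    apply trace_self_eq_zero
    -- the bracket is orthogonal to itself
    obtain ⟨z, hz⟩ : ∃ z, z = X - s := ⟨_, rfl⟩
    have hzL : z ∈ L := by rw [hz]; exact L.sub_mem hX (hSL hs)
    rw [← hz] at ho ⊢
    obtain ⟨W, hW⟩ : ∃ W, W = Y * z - z * Y := ⟨_, rfl⟩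
    have hWL : W ∈ L := by rw [hW]; exact hL.br _ hY _ hzL
    have h1 := ho _ (hSm _ (hL.adj Y hY) _ hWL)
    rw [← hW, ← h1]
    have h2 : (Yᴴ * W - W * Yᴴ)ᴴ = Wᴴ * Y - Y * Wᴴ := by
      rw [conjTranspose_sub, conjTranspose_mul, conjTranspose_mul, conjTranspose_conjTranspose]
    rw [h2]
    nth_rewrite 2 [hW]
    have h3 : trace (Wᴴ * (Y * z - z * Y)) = trace (Wᴴ * Y * z) - trace (Wᴴ * z * Y) := by
      rw [mul_sub, trace_sub, mul_assoc, mul_assoc]
    have h4 : trace ((Wᴴ * Y - Y * Wᴴ) * z) = trace (Wᴴ * Y * z) - trace (Y * Wᴴ * z) := by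
      rw [sub_mul, trace_sub]
    have h5 : trace (Wᴴ * z * Y) = trace (Y * Wᴴ * z) := by
      rw [trace_mul_comm, mul_assoc]
    rw [h3, h4, h5]
  have h1 : mt u * (X - s) = (X - s) * mt u := commutant_comm hO hL hT hz hu
  have h2 : mt u * X * mt u⁻¹ = (X - s) + mt u * s * mt u⁻¹ := by
    have h3 : mt u * X * mt u⁻¹ = (mt u * (X - s)) * mt u⁻¹ + mt u * s * mt u⁻¹ := by noncomm_ring
    rw [h3, h1, mul_assoc, mt_mul_inv, mul_one]
  rw [h2]
  exact L.add_mem (L.sub_mem hX (hSL hs)) (hSu s hs)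

end main

end

end Pool.Agent.NH32
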