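import Mathlib
import Pool.Agent.NH32.Nor

/-!
# Conjugation of Cartan subalgebras: the maximum principle
-/

set_option linter.unusedSectionVars false

namespace Pool.Agent.NH32

open Matrix NormedSpace

noncomputable section

/-- The second derivative at a maximum. -/
theorem second_order {g g' : ℝ → ℝ} {c : ℝ} (h : ∀ s, HasDerivAt g (g' s) s)
    (h2 : HasDerivAt g' c 0) (hmax : ∀ s, g s ≤ g 0) : g' 0 = 0 ∧ c ≤ 0 := by
  have hloc : IsLocalMax g 0 := Filter.Eventually.of_forall hmax
  have h0 : g' 0 = 0 := hloc.hasDerivAt_eq_zero (h 0)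
  refine ⟨h0, ?_⟩
  by_contra hc
  push Not at hc
  have hd : deriv g = g' := funext fun s => (h s).deriv
  have h3 : IsLocalMin g 0 := isLocalMin_of_deriv_deriv_pos (by rw [hd, h2.deriv]; exact hc)
    (by rw [hd, h0]) (h 0).continuousAt
  have h4 : g =ᶠ[nhds 0] fun _ => g 0 := by
    filter_upwards [h3] with s hs
    exact le_antisymm (hmax s) hs
  have h5 : deriv g =ᶠ[nhds 0] fun _ => 0 := by
    have h6 := h4.deriv
    have h7 : deriv (fun _ : ℝ => g 0) = fun _ => 0 := by
      funext s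
      exact deriv_const s (g 0)
    rwa [h7] at h6
  have h8 := h5.deriv_eq
  rw [hd, h2.deriv, deriv_const] at h8
  exact absurd h8 (ne_of_gt hc)

variable {B : Type} [Fintype B] [DecidableEq B] {L : Submodule ℂ (Matrix B B ℂ)}
  {Om : Matrix B B ℂ}

/-- The adjoint action of the one-parameter group. -/
def adA (X Y : Matrix B B ℂ) (s : ℝ) : Matrix B B ℂ := exp (s • (-X)) * Y * exp (s • X)

open scoped Matrix.Norms.Operator in
theorem hasDerivAt_adA (X Y : Matrix B B ℂ) (s : ℝ) :
    HasDerivAt (adA X Y) (adA X (Y * X - X * Y) s) s := by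
  have h1 : HasDerivAt (fun s : ℝ => exp (s • X)) (exp (s • X) * X) s :=
    hasDerivAt_exp_smul_const (𝕂 := ℝ) X s
  have h2 : HasDerivAt (fun s : ℝ => exp (s • (-X))) (exp (s • (-X)) * (-X)) s :=
    hasDerivAt_exp_smul_const (𝕂 := ℝ) (-X) s
  have h3 := (h2.mul_const Y).mul h1
  refine h3.congr_deriv ?_
  unfold adA
  have h4 : exp (s • X) * X = X * exp (s • X) := by
    have h5 : Commute (s • X) X := (Commute.refl X).smul_left s
    exact h5.exp_left.eq
  rw [h4]
  noncomm_ring

/-- The real part of the trace pairing. -/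
def trH (H : Matrix B B ℂ) : Matrix B B ℂ →ₗ[ℝ] ℝ where
  toFun Y := (trace (Y * H)).re
  map_add' := by
    intro x y
    rw [add_mul, trace_add, Complex.add_re]
  map_smul' := by
    intro c x
    rw [Matrix.smul_mul, trace_smul, RingHom.id_apply, smul_eq_mul, Complex.real_smul,
      Complex.re_ofReal_mul]

theorem trH_apply (H Y : Matrix B B ℂ) : trH H Y = (trace (Y * H)).re := rfl

theorem hasDerivAt_trH (H X Y : Matrix B B ℂ) (s : ℝ) :
    HasDerivAt (fun s => trH H (adA X Y s)) (trH H (adA X (Y * X - X * Y) s)) s := by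
  open scoped Matrix.Norms.Operator in
  exact (trH H).toContinuousLinearMap.hasFDerivAt.comp_hasDerivAt s (hasDerivAt_adA X Y s)

theorem adA_zero (X Y : Matrix B B ℂ) : adA X Y 0 = Y := by
  unfold adA
  rw [zero_smul, zero_smul, exp_zero, one_mul, mul_one]

/-- **The maximum principle**: two Hermitian elements may be made to commute. -/
theorem exists_max (hO : IsOm Om) (hbr : BrC L) (hsp : ∀ X ∈ L, Xᵀ * Om + Om * X = 0)
    (K : Subgroup (USp Om)) (hKc : IsClosed (K : Set (USp Om)))
    (hKe : ∀ (X : Matrix B B ℂ) (hX : X ∈ L) (h : Xᴴ = -X) (s : ℝ), eU hO.sq h (hsp X hX) s ∈ K)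
    {H H₁ : Matrix B B ℂ} (hH : H ∈ L) (hHh : Hᴴ = H) (hH₁ : H₁ᴴ = H₁)
    (hn : ∀ k ∈ K, mt k⁻¹ * H₁ * mt k ∈ L) :
    ∃ k ∈ K, (mt k⁻¹ * H₁ * mt k) * H = H * (mt k⁻¹ * H₁ * mt k) ∧
      ∀ X ∈ L, Xᴴ = -X → trH H (((mt k⁻¹ * H₁ * mt k) * X - X * (mt k⁻¹ * H₁ * mt k)) * X -
        X * ((mt k⁻¹ * H₁ * mt k) * X - X * (mt k⁻¹ * H₁ * mt k))) ≤ 0 := by
  have hcont : Continuous fun k : USp Om => trH H (mt k⁻¹ * H₁ * mt k) := by
    have h1 : ∀ k : USp Om, mt k⁻¹ = (mt k)ᴴ := fun k => mt_inv k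
    simp only [h1, trH_apply]
    have h2 : Continuous fun k : USp Om => ((mt k)ᴴ * H₁ * mt k) * H :=
      (((continuous_mt.matrix_conjTranspose).matrix_mul continuous_const).matrix_mul
        continuous_mt).matrix_mul continuous_const
    exact Complex.continuous_re.comp (h2.matrix_trace)
  obtain ⟨k, hk, hmax⟩ := hKc.isCompact.exists_isMaxOn ⟨1, K.one_mem⟩ hcont.continuousOn
  refine ⟨k, hk, ?_⟩
  set H' : Matrix B B ℂ := mt k⁻¹ * H₁ * mt k with hH'
  have hH'L : H' ∈ L := hn k hk
  have hH'h : H'ᴴ = H' := by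
    rw [hH', conjTranspose_mul, conjTranspose_mul, hH₁, mt_inv, conjTranspose_conjTranspose]
    noncomm_ring
  -- the variation
  have key : ∀ X ∈ L, Xᴴ = -X → trH H (H' * X - X * H') = 0 ∧
      trH H ((H' * X - X * H') * X - X * (H' * X - X * H')) ≤ 0 := by
    intro X hX hXs
    have h1 := second_order (g := fun s => trH H (adA X H' s))
      (g' := fun s => trH H (adA X (H' * X - X * H') s))
      (c := trH H (adA X ((H' * X - X * H') * X - X * (H' * X - X * H')) 0))
      (fun s => hasDerivAt_trH H X H' s) (hasDerivAt_trH H X _ 0) (fun s => by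
        have h2 := hmax (K.mul_mem hk (hKe X hX hXs s))
        have h3 : mt (k * eU hO.sq hXs (hsp X hX) s)⁻¹ * H₁ * mt (k * eU hO.sq hXs (hsp X hX) s) =
            adA X H' s := by
          rw [_root_.mul_inv_rev, mt_mul, mt_mul, hH', mt_eU]
          have h4 : mt (eU hO.sq hXs (hsp X hX) s)⁻¹ = exp (s • (-X)) := by
            rw [mt_inv, mt_eU, ← Matrix.exp_conjTranspose, conjTranspose_smul, hXs, star_trivial]
          rw [h4]
          unfold adA
          noncomm_ring
        beta_reduce at h2 ⊢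
        rw [adA_zero]
        have h5 : trH H (mt (k * eU hO.sq hXs (hsp X hX) s)⁻¹ * H₁ *
            mt (k * eU hO.sq hXs (hsp X hX) s)) ≤ trH H (mt k⁻¹ * H₁ * mt k) := h2
        rw [h3] at h5
        exact h5)
    have h1a := h1.1
    have h1b := h1.2
    beta_reduce at h1a
    rw [adA_zero] at h1a h1b
    exact ⟨h1a, h1b⟩
  refine ⟨?_, fun X hX hXs => (key X hX hXs).2⟩
  -- the first variation
  have hXs : (H * H' - H' * H)ᴴ = -(H * H' - H' * H) := by
    rw [conjTranspose_sub, conjTranspose_mul H H', conjTranspose_mul H' H, hHh, hH'h]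
    noncomm_ring
  have h1 := (key _ (hbr H hH H' hH'L) hXs).1
  obtain ⟨X, hX⟩ : ∃ X, X = H * H' - H' * H := ⟨_, rfl⟩
  rw [← hX] at h1 hXs
  rw [trH_apply] at h1
  have h2 : trace ((H' * X - X * H') * H) = -trace (Xᴴ * X) := by
    have h3 : trace ((H' * X - X * H') * H) = trace (H' * X * H) - trace (X * H' * H) := by
      rw [sub_mul, trace_sub]
    have h4 : trace (H' * X * H) = trace (X * (H * H')) := by
      rw [mul_assoc, trace_mul_comm, mul_assoc]
    rw [h3, h4, hXs, mul_assoc, ← trace_sub, ← mul_sub, ← hX, neg_mul, trace_neg, neg_neg]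
  rw [h2, Complex.neg_re, neg_eq_zero] at h1
  have h3 : trace (Xᴴ * X) = 0 := by
    apply Complex.ext
    · exact h1
    · have h4 : star (trace (Xᴴ * X)) = trace (Xᴴ * X) := by
        rw [← trace_conjTranspose, conjTranspose_mul, conjTranspose_conjTranspose]
      have h5 := congrArg Complex.im h4
      have h6 : (star (trace (Xᴴ * X))).im = -(trace (Xᴴ * X)).im := Complex.conj_im _
      rw [h6] at h5
      rw [Complex.zero_im]
      linarith
  have h4 := trace_self_eq_zero h3
  rw [hX] at h4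
  exact (sub_eq_zero.1 h4).symm

end

end Pool.Agent.NH32
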