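import Mathlib
import Pool.Agent.NH32.Max

/-!
# Cartan subalgebras and regular elements
-/

set_option linter.unusedSectionVars false

namespace Pool.Agent.NH32

open Matrix Module

noncomputable section

variable {B : Type} [Fintype B] [DecidableEq B]

/-- Commuting Hermitian matrices are simultaneously diagonalizable. -/
theorem sim_diag (W : Set (Matrix B B ℂ)) (h1 : ∀ M ∈ W, Mᴴ = M)
    (h2 : ∀ M ∈ W, ∀ N ∈ W, M * N = N * M) :
    ∃ g : Matrix B B ℂ, gᴴ * g = 1 ∧ ∀ M ∈ W, ∃ d : B → ℂ, M * g = g * diagonal d := by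
  classical
  let T : W → (EuclideanSpace ℂ B →ₗ[ℂ] EuclideanSpace ℂ B) := fun M =>
    Matrix.toEuclideanLin (M : Matrix B B ℂ)
  have hTs : ∀ M, (T M).IsSymmetric := fun M =>
    Matrix.isSymmetric_toEuclideanLin_iff.2 (h1 M M.2)
  have hTc : Pairwise (Function.onFun Commute T) := by
    intro M N _
    change T M * T N = T N * T M
    refine LinearMap.ext fun v => ?_
    change T M (T N v) = T N (T M v)
    have h3 : ∀ (M N : W) v, T M (T N v) =
        WithLp.toLp 2 (((M : Matrix B B ℂ) * (N : Matrix B B ℂ)) *ᵥ WithLp.ofLp v) := by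
      intro M N v
      rw [← mulVec_mulVec]
      rfl
    rw [h3, h3, h2 M M.2 N N.2]
  have hint := LinearMap.IsSymmetric.directSum_isInternal_of_pairwise_commute hTs hTc
  have horth := LinearMap.IsSymmetric.orthogonalFamily_iInf_eigenspaces hTs
  let V : (W → ℂ) → Submodule ℂ (EuclideanSpace ℂ B) :=
    fun α => ⨅ j, Module.End.eigenspace (T j) (α j)
  let ι := {α : W → ℂ // V α ≠ ⊥}
  have hfin : Fintype ι := hint.submodule_iSupIndep.fintypeNeBotOfFiniteDimensional
  have hint' : DirectSum.IsInternal (fun α : ι => V α) := DirectSum.isInternal_ne_bot_iff.2 hint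
  have horth' : OrthogonalFamily ℂ (fun α : ι => V α) fun α => (V α).subtypeₗᵢ :=
    horth.comp Subtype.val_injective
  have hn : finrank ℂ (EuclideanSpace ℂ B) = Fintype.card B := finrank_euclideanSpace
  let f := hint'.subordinateOrthonormalBasis hn horth'
  let e : Fin (Fintype.card B) ≃ B := (Fintype.equivFin B).symm
  have hf : ∀ a, f a ∈ V (hint'.subordinateOrthonormalBasisIndex hn a horth').1 := fun a =>
    hint'.subordinateOrthonormalBasis_subordinate hn a horth'
  refine ⟨of fun i j => WithLp.ofLp (f (e.symm j)) i, ?_, fun M hM => ?_⟩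
  · ext i j
    rw [Matrix.mul_apply]
    have h3 := orthonormal_iff_ite.1 f.orthonormal (e.symm i) (e.symm j)
    have h4 : inner ℂ (f (e.symm i)) (f (e.symm j)) =
        (WithLp.ofLp (f (e.symm j))) ⬝ᵥ star (WithLp.ofLp (f (e.symm i))) :=
      EuclideanSpace.inner_eq_star_dotProduct _ _
    rw [h4] at h3
    have h5 : ∑ k, (of fun i j => WithLp.ofLp (f (e.symm j)) i)ᴴ i k *
        (of fun i j => WithLp.ofLp (f (e.symm j)) i : Matrix B B ℂ) k j =
        (WithLp.ofLp (f (e.symm j))) ⬝ᵥ star (WithLp.ofLp (f (e.symm i))) := by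
      unfold dotProduct
      refine Finset.sum_congr rfl fun k _ => ?_
      rw [conjTranspose_apply, of_apply, of_apply, Pi.star_apply, mul_comm]
    rw [h5, h3, Matrix.one_apply]
    by_cases hij : i = j
    · subst hij
      rw [if_pos rfl, if_pos rfl]
    · rw [if_neg (fun h6 => hij (e.symm.injective h6)), if_neg hij]
  · refine ⟨fun j => (hint'.subordinateOrthonormalBasisIndex hn (e.symm j) horth').1 ⟨M, hM⟩, ?_⟩
    ext i j
    rw [mul_diagonal, Matrix.mul_apply]
    have h3 := (Submodule.mem_iInf _).1 (hf (e.symm j)) ⟨M, hM⟩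
    rw [Module.End.mem_eigenspace_iff] at h3
    have h4 := congrFun (congrArg (WithLp.ofLp) h3) i
    have h5 : WithLp.ofLp (T ⟨M, hM⟩ (f (e.symm j))) i = ∑ k, M i k * WithLp.ofLp (f (e.symm j)) k :=
      rfl
    rw [h5] at h4
    simp only [of_apply]
    rw [h4, mul_comm]
    rfl

variable {L : Submodule ℂ (Matrix B B ℂ)}

/-- The commutant. -/
def CM (L : Submodule ℂ (Matrix B B ℂ)) : Submodule ℂ (Matrix B B ℂ) where
  carrier := {M | ∀ X ∈ L, X * M = M * X}
  add_mem' := by
    intro a b ha hb X hX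
    rw [mul_add, add_mul, ha X hX, hb X hX]
  zero_mem' := by
    intro X _
    rw [mul_zero, zero_mul]
  smul_mem' := by
    intro c a ha X hX
    rw [Matrix.mul_smul, Matrix.smul_mul, ha X hX]

/-- The centre of the commutant. -/
def ZM (L : Submodule ℂ (Matrix B B ℂ)) : Submodule ℂ (Matrix B B ℂ) where
  carrier := {M | M ∈ CM L ∧ ∀ N ∈ CM L, N * M = M * N}
  add_mem' := by
    rintro a b ⟨h1, h2⟩ ⟨h3, h4⟩
    exact ⟨(CM L).add_mem h1 h3, fun N hN => by rw [mul_add, add_mul, h2 N hN, h4 N hN]⟩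
  zero_mem' := ⟨(CM L).zero_mem, fun N _ => by rw [mul_zero, zero_mul]⟩
  smul_mem' := by
    rintro c a ⟨h1, h2⟩
    exact ⟨(CM L).smul_mem _ h1, fun N hN => by rw [Matrix.mul_smul, Matrix.smul_mul, h2 N hN]⟩

theorem CM_adj (hadj : ∀ X ∈ L, Xᴴ ∈ L) {M : Matrix B B ℂ} (hM : M ∈ CM L) : Mᴴ ∈ CM L := by
  intro X hX
  have h1 := congrArg Matrix.conjTranspose (hM _ (hadj X hX))
  rw [conjTranspose_mul, conjTranspose_mul, conjTranspose_conjTranspose] at h1
  exact h1.symm

theorem ZM_adj (hadj : ∀ X ∈ L, Xᴴ ∈ L) {M : Matrix B B ℂ} (hM : M ∈ ZM L) : Mᴴ ∈ ZM L := by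
  refine ⟨CM_adj hadj hM.1, fun N hN => ?_⟩
  have h1 := congrArg Matrix.conjTranspose (hM.2 _ (CM_adj hadj hN))
  rw [conjTranspose_mul, conjTranspose_mul, conjTranspose_conjTranspose] at h1
  exact h1.symm

/-- Decomposition into Hermitian parts. -/
theorem herm_dec (X : Matrix B B ℂ) : X = (1 / 2 : ℂ) • (X + Xᴴ) +
    (-(Complex.I) / 2 : ℂ) • (Complex.I • (X - Xᴴ)) := by
  rw [smul_smul]
  have h4 : -(Complex.I) / 2 * Complex.I = 1 / 2 := by
    have := Complex.I_mul_I
    linear_combination (-1 / 2 : ℂ) * this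
  rw [h4]
  module

theorem herm_one (X : Matrix B B ℂ) : (X + Xᴴ)ᴴ = X + Xᴴ := by
  rw [conjTranspose_add, conjTranspose_conjTranspose, add_comm]

theorem herm_two (X : Matrix B B ℂ) : (Complex.I • (X - Xᴴ))ᴴ = Complex.I • (X - Xᴴ) := by
  rw [conjTranspose_smul, conjTranspose_sub, conjTranspose_conjTranspose]
  have h3 : star Complex.I = -Complex.I := Complex.conj_I
  rw [h3, neg_smul, ← smul_neg, neg_sub]

/-- **Cartan subalgebras**: there are coordinates and a regular element. -/
theorem exists_cartan (hadj : ∀ X ∈ L, Xᴴ ∈ L) : ∃ (g : Matrix B B ℂ) (h : B → ℝ),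
    gᴴ * g = 1 ∧ dg h ∈ cjL g gᴴ L ∧
    (∀ X ∈ cjL g gᴴ L, X * dg h = dg h * X → ∃ x : B → ℂ, X = diagonal x ∧
      ∀ b b', h b = h b' → x b = x b') ∧
    ∀ M ∈ ZM L, ∃ x : B → ℂ, gᴴ * M * g = diagonal x := by
  classical
  -- a maximal commutative subspace
  let P : Set (Submodule ℂ (Matrix B B ℂ)) := {t | t ≤ L ∧ (∀ X ∈ t, Xᴴ ∈ t) ∧
    ∀ X ∈ t, ∀ Y ∈ t, X * Y = Y * X}
  have hP0 : P.Nonempty := by
    refine ⟨⊥, bot_le, ?_, ?_⟩
    · intro X hX
      rw [Submodule.mem_bot] at hX ⊢
      rw [hX, conjTranspose_zero]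
    · intro X hX Y _
      rw [Submodule.mem_bot] at hX
      rw [hX, zero_mul, mul_zero]
  obtain ⟨t, ⟨htL, htadj, htc⟩, hmax⟩ := wellFounded_gt.has_min P hP0
  have hmaxH : ∀ X ∈ L, Xᴴ = X → (∀ Y ∈ t, X * Y = Y * X) → X ∈ t := by
    intro X hX hXh hXc
    by_contra hcon
    have h1 : t ⊔ Submodule.span ℂ {X} ∈ P := by
      refine ⟨sup_le htL ?_, ?_, ?_⟩
      · rw [Submodule.span_singleton_le_iff_mem]
        exact hX
      · intro Y hY
        obtain ⟨a, ha, b, hb, rfl⟩ := Submodule.mem_sup.1 hY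
        obtain ⟨c, rfl⟩ := Submodule.mem_span_singleton.1 hb
        rw [conjTranspose_add, conjTranspose_smul, hXh]
        exact Submodule.add_mem_sup (htadj a ha)
          (Submodule.smul_mem _ _ (Submodule.mem_span_singleton_self X))
      · intro Y hY Y' hY'
        obtain ⟨a, ha, b, hb, rfl⟩ := Submodule.mem_sup.1 hY
        obtain ⟨c, rfl⟩ := Submodule.mem_span_singleton.1 hb
        obtain ⟨a', ha', b', hb', rfl⟩ := Submodule.mem_sup.1 hY'
        obtain ⟨c', rfl⟩ := Submodule.mem_span_singleton.1 hb'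
        simp only [mul_add, add_mul, Matrix.smul_mul, Matrix.mul_smul, htc a ha a' ha', hXc a ha,
          hXc a' ha', smul_smul, mul_comm c c']
        abel
    refine hmax _ h1 (lt_of_le_of_ne le_sup_left fun h2 => hcon ?_)
    rw [h2]
    exact Submodule.mem_sup_right (Submodule.mem_span_singleton_self X)
  have hmaxA : ∀ X ∈ L, (∀ Y ∈ t, X * Y = Y * X) → X ∈ t := by
    intro X hX hXc
    have hXc' : ∀ Y ∈ t, Xᴴ * Y = Y * Xᴴ := by
      intro Y hY
      have h1 := congrArg Matrix.conjTranspose (hXc _ (htadj Y hY))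
      rw [conjTranspose_mul, conjTranspose_mul, conjTranspose_conjTranspose] at h1
      exact h1.symm
    rw [herm_dec X]
    refine t.add_mem (t.smul_mem _ (hmaxH _ (L.add_mem hX (hadj X hX)) (herm_one X) ?_))
      (t.smul_mem _ (hmaxH _ (L.smul_mem _ (L.sub_mem hX (hadj X hX))) (herm_two X) ?_))
    · intro Y hY
      rw [add_mul, mul_add, hXc Y hY, hXc' Y hY]
    · intro Y hY
      rw [Matrix.smul_mul, Matrix.mul_smul, sub_mul, mul_sub, hXc Y hY, hXc' Y hY]
  -- simultaneous diagonalization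
  obtain ⟨g, hg, hdiag⟩ := sim_diag {M | Mᴴ = M ∧ (M ∈ t ∨ M ∈ ZM L)} (fun M hM => hM.1) (by
    rintro M ⟨_, hM | hM⟩ N ⟨_, hN | hN⟩
    · exact htc M hM N hN
    · exact hN.1 M (htL hM)
    · exact (hM.1 N (htL hN)).symm
    · exact (hM.2 N hN.1).symm)
  have hgg : g * gᴴ = 1 := mul_eq_one_comm.1 hg
  have hd : ∀ M, (M ∈ t ∨ M ∈ ZM L) → ∃ x : B → ℂ, gᴴ * M * g = diagonal x := by
    intro M hM
    have h1 : ∀ N, Nᴴ = N → (N ∈ t ∨ N ∈ ZM L) → ∃ x : B → ℂ, gᴴ * N * g = diagonal x := by
      intro N hN hN'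
      obtain ⟨d, hd⟩ := hdiag N ⟨hN, hN'⟩
      exact ⟨d, by rw [mul_assoc, hd, ← mul_assoc, hg, one_mul]⟩
    have h2 : ∀ (M : Matrix B B ℂ), (M + Mᴴ ∈ t ∨ M + Mᴴ ∈ ZM L) →
        (Complex.I • (M - Mᴴ) ∈ t ∨ Complex.I • (M - Mᴴ) ∈ ZM L) →
        ∃ x : B → ℂ, gᴴ * M * g = diagonal x := by
      intro M h3 h4
      obtain ⟨x, hx⟩ := h1 _ (herm_one M) h3
      obtain ⟨y, hy⟩ := h1 _ (herm_two M) h4
      refine ⟨(1 / 2 : ℂ) • x + (-(Complex.I) / 2 : ℂ) • y, ?_⟩
      conv_lhs => rw [herm_dec M]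
      rw [mul_add, add_mul, Matrix.mul_smul, Matrix.smul_mul, Matrix.mul_smul (gᴴ)
        (-(Complex.I) / 2 : ℂ), Matrix.smul_mul, hx, hy, ← diagonal_smul, ← diagonal_smul,
        diagonal_add]
      rfl
    rcases hM with hM | hM
    · exact h2 M (Or.inl (t.add_mem hM (htadj M hM)))
        (Or.inl (t.smul_mem _ (t.sub_mem hM (htadj M hM))))
    · exact h2 M (Or.inr ((ZM L).add_mem hM (ZM_adj hadj hM)))
        (Or.inr ((ZM L).smul_mem _ ((ZM L).sub_mem hM (ZM_adj hadj hM))))
  have hback : ∀ X : Matrix B B ℂ, gᴴ * (g * X * gᴴ) * g = X := by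
    intro X
    calc gᴴ * (g * X * gᴴ) * g = (gᴴ * g) * X * (gᴴ * g) := by noncomm_ring
      _ = X := by rw [hg, one_mul, mul_one]
  -- the real functions
  let R : Set (B → ℝ) := {h | g * dg h * gᴴ ∈ t}
  have hR0 : R.Nonempty := by
    refine ⟨0, ?_⟩
    have h1 : dg (0 : B → ℝ) = 0 := by
      unfold dg
      simp
    change g * dg 0 * gᴴ ∈ t
    rw [h1, mul_zero, zero_mul]
    exact t.zero_mem
  obtain ⟨h, hhR, hmin⟩ := (measure fun h : B → ℝ =>
    (Finset.univ.filter fun p : B × B => h p.1 = h p.2).card).wf.has_min R hR0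
  -- the regular element separates everything
  have hsepR : ∀ h' ∈ R, ∀ b b', h b = h b' → h' b = h' b' := by
    intro h' hh' b b' hbb
    by_contra hne
    obtain ⟨ε, hε⟩ := Infinite.exists_notMem_finset (Finset.univ.image fun p : B × B =>
      (h p.1 - h p.2) / (h' p.2 - h' p.1))
    have hε0 : ∀ p : B × B, h p.1 ≠ h p.2 → h p.1 + ε * h' p.1 ≠ h p.2 + ε * h' p.2 := by
      intro p hp heq
      by_cases h1 : h' p.2 - h' p.1 = 0
      · apply hp
        have h2 : h' p.2 = h' p.1 := by linarith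
        rw [h2] at heq
        linarith
      · apply hε
        rw [Finset.mem_image]
        refine ⟨p, Finset.mem_univ _, ?_⟩
        rw [div_eq_iff h1]
        linarith
    have hε1 : ε ≠ 0 := by
      intro h1
      apply hε
      rw [Finset.mem_image]
      exact ⟨(b, b), Finset.mem_univ _, by rw [h1]; simp⟩
    have hm : (fun b => h b + ε * h' b) ∈ R := by
      have h1 : dg (fun b => h b + ε * h' b) = dg h + (ε : ℂ) • dg h' := by
        unfold dg
        rw [← diagonal_smul, diagonal_add]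
        congr 1
        funext b
        simp
      change g * dg (fun b => h b + ε * h' b) * gᴴ ∈ t
      rw [h1, mul_add, add_mul, Matrix.mul_smul, Matrix.smul_mul]
      exact t.add_mem hhR (t.smul_mem _ hh')
    refine hmin _ hm ?_
    change (Finset.univ.filter fun p : B × B => h p.1 + ε * h' p.1 = h p.2 + ε * h' p.2).card <
      (Finset.univ.filter fun p : B × B => h p.1 = h p.2).card
    refine Finset.card_lt_card ⟨?_, ?_⟩
    · intro p hp
      rw [Finset.mem_filter] at hp ⊢
      refine ⟨Finset.mem_univ _, ?_⟩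
      by_contra h1
      exact hε0 p h1 hp.2
    · intro hsub
      have h1 : (b, b') ∈ Finset.univ.filter fun p : B × B => h p.1 = h p.2 := by
        rw [Finset.mem_filter]
        exact ⟨Finset.mem_univ _, hbb⟩
      have h2 := hsub h1
      rw [Finset.mem_filter] at h2
      have h3 := h2.2
      change h b + ε * h' b = h b' + ε * h' b' at h3
      rw [hbb] at h3
      have h4 : ε * (h' b - h' b') = 0 := by linarith
      rcases mul_eq_zero.1 h4 with h5 | h5
      · exact hε1 h5
      · exact hne (by linarith)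
  -- separation for all diagonal elements
  have hsep : ∀ x : B → ℂ, g * diagonal x * gᴴ ∈ t → ∀ b b', h b = h b' → x b = x b' := by
    intro x hx b b' hbb
    have hx' : g * diagonal (star x) * gᴴ ∈ t := by
      have h1 := htadj _ hx
      rw [conjTranspose_mul, conjTranspose_mul, conjTranspose_conjTranspose,
        diagonal_conjTranspose, ← mul_assoc] at h1
      exact h1
    have h1 : (fun b => (x b).re) ∈ R := by
      have h2 : dg (fun b => (x b).re) = (1 / 2 : ℂ) • (diagonal x + diagonal (star x)) := by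
        unfold dg
        rw [diagonal_add, ← diagonal_smul]
        congr 1
        funext b
        rw [Pi.smul_apply, Pi.star_apply, smul_eq_mul]
        have h3 : star (x b) = starRingEnd ℂ (x b) := rfl
        rw [h3, Complex.add_conj]
        push_cast
        ring
      change g * dg (fun b => (x b).re) * gᴴ ∈ t
      rw [h2, Matrix.mul_smul, Matrix.smul_mul, mul_add, add_mul]
      exact t.smul_mem _ (t.add_mem hx hx')
    have h1' : (fun b => (x b).im) ∈ R := by
      have h2 : dg (fun b => (x b).im) =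
          (-(Complex.I) / 2 : ℂ) • (diagonal x - diagonal (star x)) := by
        unfold dg
        rw [diagonal_sub, ← diagonal_smul]
        congr 1
        funext b
        rw [Pi.smul_apply, smul_eq_mul]
        have h3 : star (x b) = starRingEnd ℂ (x b) := rfl
        have h4 : (star x) b = star (x b) := rfl
        rw [h4, h3, Complex.sub_conj]
        have := Complex.I_mul_I
        push_cast
        linear_combination ((x b).im : ℂ) * this
      change g * dg (fun b => (x b).im) * gᴴ ∈ t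
      rw [h2, Matrix.mul_smul, Matrix.smul_mul, mul_sub, sub_mul]
      exact t.smul_mem _ (t.sub_mem hx hx')
    exact Complex.ext (hsepR _ h1 b b' hbb) (hsepR _ h1' b b' hbb)
  refine ⟨g, h, hg, htL hhR, ?_, fun M hM => hd M (Or.inr hM)⟩
  intro X hX hXc
  have hXt : g * X * gᴴ ∈ t := by
    refine hmaxA _ hX fun Y hY => ?_
    obtain ⟨y, hy⟩ := hd Y (Or.inl hY)
    have hY' : Y = g * diagonal y * gᴴ := by
      calc Y = (g * gᴴ) * Y * (g * gᴴ) := by rw [hgg, one_mul, mul_one]
        _ = g * (gᴴ * Y * g) * gᴴ := by noncomm_ring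
        _ = _ := by rw [hy]
    have hyt : g * diagonal y * gᴴ ∈ t := by rw [← hY']; exact hY
    have h1 : X * diagonal y = diagonal y * X := by
      ext b b'
      rw [mul_diagonal, diagonal_mul]
      have h2 := congrFun (congrFun hXc b) b'
      unfold dg at h2
      rw [mul_diagonal, diagonal_mul] at h2
      by_cases h3 : X b b' = 0
      · rw [h3, zero_mul, mul_zero]
      · have h4 : (h b' : ℂ) = (h b : ℂ) := by
          rw [mul_comm] at h2
          exact mul_right_cancel₀ h3 h2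
        have h5 : h b = h b' := by exact_mod_cast h4.symm
        rw [hsep y hyt b b' h5, mul_comm]
    rw [hY']
    calc g * X * gᴴ * (g * diagonal y * gᴴ) = g * X * (gᴴ * g) * diagonal y * gᴴ := by noncomm_ring
      _ = g * (X * diagonal y) * gᴴ := by rw [hg]; noncomm_ring
      _ = g * diagonal y * (gᴴ * g) * X * gᴴ := by rw [h1, hg]; noncomm_ring
      _ = _ := by noncomm_ring
  obtain ⟨x, hx⟩ := hd _ (Or.inl hXt)
  rw [hback] at hx
  refine ⟨x, hx, fun b b' hbb => hsep x ?_ b b' hbb⟩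
  rw [← hx]
  exact hXt

end

end Pool.Agent.NH32
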