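import Mathlib
import Pool.Agent.NH32.Car

/-!
# Chambers
-/

set_option linter.unusedSectionVars false

namespace Pool.Agent.NH32

open Matrix Equiv Module

noncomputable section

variable {B : Type} [Fintype B] [DecidableEq B] {L : Submodule ℂ (Matrix B B ℂ)}

/-- Regular diagonal elements. -/
def Reg (L : Submodule ℂ (Matrix B B ℂ)) (h : B → ℝ) : Prop :=
  ∀ X ∈ L, X * dg h = dg h * X → ∃ x : B → ℂ, X = diagonal x ∧ ∀ b b', h b = h b' → x b = x b'

theorem zer_comm {h : B → ℝ} {X : Matrix B B ℂ} (hX : Zer h X) : X * dg h = dg h * X := by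
  ext b b'
  unfold dg
  rw [mul_diagonal, diagonal_mul]
  by_cases h1 : X b b' = 0
  · rw [h1, zero_mul, mul_zero]
  · rw [hX b b' h1, mul_comm]

theorem dg_comm_zer {h : B → ℝ} {X : Matrix B B ℂ} (hX : X * dg h = dg h * X) : Zer h X := by
  intro b b' hb
  have h2 := congrFun (congrFun hX b) b'
  unfold dg at h2
  rw [mul_diagonal, diagonal_mul, mul_comm] at h2
  have h4 : (h b' : ℂ) = (h b : ℂ) := mul_right_cancel₀ hb h2
  exact_mod_cast h4.symm

/-- The supports of matrices intertwining diagonal matrices. -/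
theorem supp_of_intertwine {h h' : B → ℝ} {u : Matrix B B ℂ} (hu : u * dg h = dg h' * u)
    {a b : B} (hab : u a b ≠ 0) : h' a = h b := by
  have h2 := congrFun (congrFun hu a) b
  unfold dg at h2
  rw [mul_diagonal, diagonal_mul, mul_comm] at h2
  have h4 : (h b : ℂ) = (h' a : ℂ) := mul_right_cancel₀ hab h2
  exact_mod_cast h4.symm

/-- A nonvanishing term of the determinant. -/
theorem exists_perm {u ui : Matrix B B ℂ} (h : ui * u = 1) : ∃ σ : Perm B, ∀ b, u (σ b) b ≠ 0 := by
  have h1 : u.det ≠ 0 := by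
    intro h2
    have h3 := congrArg Matrix.det h
    rw [det_mul, h2, mul_zero, det_one] at h3
    exact zero_ne_one h3
  rw [det_apply] at h1
  obtain ⟨σ, _, hσ⟩ := Finset.exists_ne_zero_of_sum_ne_zero h1
  refine ⟨σ, fun b hb => hσ ?_⟩
  rw [Finset.prod_eq_zero (f := fun i => u (σ i) i) (Finset.mem_univ b) hb, smul_zero]

/-- The standard highest weight vector of an upper set is killed by the raising elements. -/
theorem upp_kill {h : B → ℝ} {m : ℕ} {s : Fin m → B} (hs : Function.Injective s) {c : ℝ}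
    (hs1 : ∀ b, c ≤ h b ↔ ∃ l, s l = b) {X : Matrix B B ℂ} (hX : Upp h X) :
    dm (Fin m) X *ᵥ wd (fun l => (Pi.single (s l) 1 : B → ℂ)) = 0 := by
  rw [dm_wd]
  refine Finset.sum_eq_zero fun l _ => ?_
  have h1 : X *ᵥ (Pi.single (s l) 1 : B → ℂ) =
      ∑ l', (fun l' => X (s l') (s l)) l' • (fun l' => (Pi.single (s l') 1 : B → ℂ)) l' := by
    funext b
    rw [mulVec_single_one, Finset.sum_apply]
    simp only [Pi.smul_apply, smul_eq_mul, Pi.single_apply]
    by_cases hb : c ≤ h b
    · obtain ⟨l', rfl⟩ := (hs1 b).1 hb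
      rw [Finset.sum_eq_single l']
      · rw [if_pos rfl, mul_one]
        rfl
      · intro l'' _ hl''
        rw [if_neg (fun h2 => hl'' (hs h2.symm)), mul_zero]
      · intro h2
        exact absurd (Finset.mem_univ _) h2
    · rw [Finset.sum_eq_zero]
      · by_contra hne
        have h2 := hX _ _ hne
        have h3 : c ≤ h (s l) := (hs1 _).2 ⟨l, rfl⟩
        exact hb (by linarith)
      · intro l' _
        rw [if_neg (fun h2 => hb (by rw [h2]; exact (hs1 _).2 ⟨l', rfl⟩)), mul_zero]
  rw [h1]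
  refine wd_update_sum _ ?_
  by_contra hne
  exact lt_irrefl _ (hX _ _ hne)

/-- **Chambers**: the group elements preserving the order of the weights preserve the weights. -/
theorem same_order (hbr : BrC L) {h : B → ℝ} (hh : dg h ∈ L) (hreg : Reg L h)
    {u ui : Matrix B B ℂ} (hui : ui * u = 1) {h' : B → ℝ}
    (hu : u * dg h = dg h' * u)
    (hch : ∀ X ∈ L, ∀ b b', X b b' ≠ 0 → (h b' < h b ↔ h' b' < h' b))
    (hst : StabP L ui) : h' = h := by
  classical
  have huu : u * ui = 1 := mul_eq_one_comm.1 hui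
  obtain ⟨σ, hσ⟩ := exists_perm hui
  have hσ' : ∀ b, h' (σ b) = h b := fun b => supp_of_intertwine hu (hσ b)
  have hiu : ui * dg h' = dg h * ui := by
    calc ui * dg h' = ui * dg h' * (u * ui) := by rw [huu, mul_one]
      _ = ui * (dg h' * u) * ui := by noncomm_ring
      _ = ui * (u * dg h) * ui := by rw [hu]
      _ = (ui * u) * dg h * ui := by noncomm_ring
      _ = _ := by rw [hui, one_mul]
  -- the inclusion of the upper sets
  have key : ∀ c : ℝ, ∀ b, c ≤ h b → c ≤ h' b := by
    intro c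
    let S : Finset B := Finset.univ.filter fun b => c ≤ h b
    let S' : Finset B := Finset.univ.filter fun b => c ≤ h' b
    have hcard : S'.card = S.card := by
      have h1 : S' = S.map σ.toEmbedding := by
        ext b
        rw [Finset.mem_map_equiv, Finset.mem_filter, Finset.mem_filter]
        have h2 := hσ' (σ.symm b)
        rw [Equiv.apply_symm_apply] at h2
        rw [h2]
        simp
      rw [h1, Finset.card_map]
    obtain ⟨m, s, hs, hs1, hm⟩ : ∃ (m : ℕ) (s : Fin m → B), Function.Injective s ∧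
        (∀ b, c ≤ h b ↔ ∃ l, s l = b) ∧ m = S.card := by
      refine ⟨S.card, fun l => (S.equivFin.symm l : B), fun l l' hll => ?_, fun b => ?_, rfl⟩
      · exact S.equivFin.symm.injective (Subtype.ext hll)
      · constructor
        · intro hb
          have hbS : b ∈ S := by simp [S, hb]
          exact ⟨S.equivFin ⟨b, hbS⟩, by simp⟩
        · rintro ⟨l, rfl⟩
          exact (Finset.mem_filter.1 (S.equivFin.symm l).2).2
    set w : (Fin m → B) → ℂ := wd (fun l => (Pi.single (s l) 1 : B → ℂ)) with hw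
    set e : (Fin m → B) → ℂ := kp (Fin m) u *ᵥ w with he
    have hew : e = wd (fun l => u *ᵥ (Pi.single (s l) 1 : B → ℂ)) := by
      rw [he, hw, kp_wd]
    have hwe : kp (Fin m) ui *ᵥ e = w := by
      rw [he, mulVec_mulVec, ← kp_mul, hui, kp_one, one_mulVec]
    -- the support of `e`
    have hsupp : ∀ I, e I ≠ 0 → Function.Injective I ∧ ∀ k, c ≤ h' (I k) := by
      intro I hI
      rw [hew] at hI
      obtain ⟨h1, h2⟩ := wd_supp hI
      refine ⟨h1, fun k => ?_⟩
      obtain ⟨l, hl⟩ := h2 k
      rw [mulVec_single_one] at hl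
      rw [supp_of_intertwine hu hl]
      exact (hs1 _).2 ⟨l, rfl⟩
    have hsum : ∀ I, e I ≠ 0 → ∀ (f : B → ℂ), ∑ k, f (I k) = ∑ b ∈ S', f b := by
      intro I hI f
      obtain ⟨h1, h2⟩ := hsupp I hI
      have h3 : Finset.univ.image I = S' := by
        refine Finset.eq_of_subset_of_card_le ?_ ?_
        · intro b hb
          obtain ⟨k, _, rfl⟩ := Finset.mem_image.1 hb
          rw [Finset.mem_filter]
          exact ⟨Finset.mem_univ _, h2 k⟩
        · rw [Finset.card_image_of_injective _ h1, hcard, ← hm, Finset.card_univ,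
            Fintype.card_fin]
      rw [← h3, Finset.sum_image fun k _ l _ hkl => h1 hkl]
    have hwt : ∀ I, e I ≠ 0 → wt h I = ∑ b ∈ S', h b := by
      intro I hI
      have h1 := hsum I hI fun b => (h b : ℂ)
      unfold wt
      exact_mod_cast h1
    -- the hypotheses on the highest weight vector
    have hup : ∀ X ∈ L, Upp h X → dm (Fin m) X *ᵥ e = 0 := by
      intro X hX hXu
      have h1 : kp (Fin m) u * dm (Fin m) (ui * X * u) = dm (Fin m) X * kp (Fin m) u :=
        kp_mul_dm (by
          calc u * (ui * X * u) = (u * ui) * X * u := by noncomm_ring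
            _ = X * u := by rw [huu, one_mul])
      rw [he, mulVec_mulVec, ← h1, ← mulVec_mulVec, hw]
      rw [upp_kill hs hs1, mulVec_zero]
      intro b b' hb
      rw [Matrix.mul_apply] at hb
      obtain ⟨a', _, ha'⟩ := Finset.exists_ne_zero_of_sum_ne_zero hb
      have ha2 := left_ne_zero_of_mul ha'
      rw [Matrix.mul_apply] at ha2
      obtain ⟨a, _, ha⟩ := Finset.exists_ne_zero_of_sum_ne_zero ha2
      have h2 : h b = h' a := supp_of_intertwine hiu (left_ne_zero_of_mul ha)
      have h3 : h' a' = h b' := supp_of_intertwine hu (right_ne_zero_of_mul ha')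
      rw [h2, ← h3]
      exact (hch X hX a a' (right_ne_zero_of_mul ha)).1 (hXu _ _ (right_ne_zero_of_mul ha))
    have hz : ∀ X ∈ L, Zer h X → ∃ z : ℂ, dm (Fin m) X *ᵥ e = z • e := by
      intro X hX hXz
      obtain ⟨x, rfl, -⟩ := hreg X hX (zer_comm hXz)
      refine ⟨∑ b ∈ S', x b, ?_⟩
      funext I
      rw [dm_diagonal, Pi.smul_apply, smul_eq_mul]
      by_cases h1 : e I = 0
      · rw [h1, mul_zero, mul_zero]
      · rw [hsum I h1]
    have halt : IsAlt e := by
      rw [hew]
      exact wd_alt _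
    have h1 := hst m (Gen L h e) (Gen_alt halt)
      (fun X hX c hc => Gen_stable hbr hh hup hz hX hc) e Gen_self
    rw [hwe] at h1
    obtain ⟨z, hz'⟩ := Gen_top hwt h1
    -- comparison of the weights
    have hle : ∑ b ∈ S', h b ≤ wt h s := by
      have h2 : wt h s = ∑ b ∈ S, h b := by
        have h3 : Finset.univ.image s = S := by
          ext b
          rw [Finset.mem_image, Finset.mem_filter]
          constructor
          · rintro ⟨l, _, rfl⟩
            exact ⟨Finset.mem_univ _, (hs1 _).2 ⟨l, rfl⟩⟩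
          · rintro ⟨_, hb⟩
            obtain ⟨l, hl⟩ := (hs1 b).1 hb
            exact ⟨l, Finset.mem_univ _, hl⟩
        rw [← h3, Finset.sum_image fun k _ l _ hkl => hs hkl]
        rfl
      rw [h2]
      have h3 : ∑ b ∈ S', (h b - c) ≤ ∑ b ∈ S, (h b - c) := by
        calc ∑ b ∈ S', (h b - c) ≤ ∑ b ∈ S', max (h b - c) 0 :=
              Finset.sum_le_sum fun b _ => le_max_left _ _
          _ ≤ ∑ b, max (h b - c) 0 :=
              Finset.sum_le_sum_of_subset_of_nonneg (Finset.subset_univ _)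
                fun b _ _ => le_max_right _ _
          _ = ∑ b ∈ S, (h b - c) := by
              rw [Finset.sum_filter]
              refine Finset.sum_congr rfl fun b _ => ?_
              by_cases hb : c ≤ h b
              · rw [if_pos hb, max_eq_left (by linarith)]
              · rw [if_neg hb, max_eq_right (by linarith)]
      rw [Finset.sum_sub_distrib, Finset.sum_sub_distrib, Finset.sum_const, Finset.sum_const,
        hcard] at h3
      linarith
    have h2 := hz' s hle
    rw [hw, wd_single hs] at h2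
    have h3 : e s ≠ 0 := by
      intro h4
      rw [h4, mul_zero] at h2
      exact one_ne_zero h2
    intro b hb
    obtain ⟨l, rfl⟩ := (hs1 b).1 hb
    exact (hsupp s h3).2 l
  -- equality
  have hle : ∀ b, h b ≤ h' b := fun b => key (h b) b le_rfl
  have hsum : ∑ b, h' b = ∑ b, h b := by
    rw [← Equiv.sum_comp σ]
    exact Finset.sum_congr rfl fun b _ => hσ' b
  funext b
  by_contra hne
  have h1 : h b < h' b := lt_of_le_of_ne (hle b) (Ne.symm hne)
  have h2 := Finset.sum_lt_sum (fun b _ => hle b) ⟨b, Finset.mem_univ _, h1⟩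
  rw [hsum] at h2
  exact lt_irrefl _ h2

/-- Exterior products of homogeneous vectors. -/
theorem wd_wt {h : B → ℝ} {m : ℕ} {w : Fin m → B → ℂ} {c : Fin m → ℝ}
    (hw : ∀ l b, w l b ≠ 0 → h b = c l) {I : Fin m → B} (hI : wd w I ≠ 0) :
    wt h I = ∑ l, c l := by
  unfold wd at hI
  rw [det_apply] at hI
  obtain ⟨σ, _, hσ⟩ := Finset.exists_ne_zero_of_sum_ne_zero hI
  have h1 : ∀ k, w k (I (σ k)) ≠ 0 := by
    intro k hk
    apply hσ
    rw [Finset.prod_eq_zero (Finset.mem_univ k) (by rw [of_apply, hk]), smul_zero]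
  unfold wt
  rw [← Equiv.sum_comp σ]
  exact Finset.sum_congr rfl fun k _ => hw k _ (h1 k)

theorem det_cons {m : ℕ} (v : B → ℂ) (w : Fin m → B → ℂ) (b : B) (s : Fin m → B)
    (h : ∀ l, w l b = 0) :
    wd (Fin.cons v w : Fin (m + 1) → B → ℂ) (Fin.cons b s : Fin (m + 1) → B) =
      v b * wd w s := by
  unfold wd
  rw [det_succ_row_zero, Fin.sum_univ_succ, Finset.sum_eq_zero, add_zero]
  · simp only [of_apply, Fin.cons_zero, Fin.val_zero, pow_zero, one_mul]
    congr 1
  · intro l _
    simp only [of_apply, Fin.cons_zero, Fin.cons_succ, h, mul_zero, zero_mul]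

/-- **Scalars**: the elements preserving the weights are scalar on the weight spaces. -/
theorem scalar_on (hbr : BrC L) {h : B → ℝ} (hh : dg h ∈ L) (hreg : Reg L h)
    {u ui : Matrix B B ℂ} (hui : ui * u = 1) (hu : u * dg h = dg h * u)
    (hst : StabP L u) {c : ℝ} {v : B → ℂ} (hv : ∀ b, v b ≠ 0 → h b = c) :
    ∃ z : ℂ, u *ᵥ v = z • v := by
  classical
  by_cases hv0 : v = 0
  · exact ⟨0, by rw [hv0, mulVec_zero, smul_zero]⟩
  let S : Finset B := Finset.univ.filter fun b => c < h b
  obtain ⟨m, s, hs, hs1⟩ : ∃ (m : ℕ) (s : Fin m → B), Function.Injective s ∧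
      (∀ b, c < h b ↔ ∃ l, s l = b) := by
    refine ⟨S.card, fun l => (S.equivFin.symm l : B), fun l l' hll => ?_, fun b => ?_⟩
    · exact S.equivFin.symm.injective (Subtype.ext hll)
    · constructor
      · intro hb
        have hbS : b ∈ S := by simp [S, hb]
        exact ⟨S.equivFin ⟨b, hbS⟩, by simp⟩
      · rintro ⟨l, rfl⟩
        exact (Finset.mem_filter.1 (S.equivFin.symm l).2).2
  let w : Fin (m + 1) → B → ℂ := Fin.cons v fun l => (Pi.single (s l) 1 : B → ℂ)
  let cc : Fin (m + 1) → ℝ := Fin.cons c fun l => h (s l)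
  have hw : ∀ l b, w l b ≠ 0 → h b = cc l := by
    intro l
    refine Fin.cases (fun b hb => hv b hb) (fun l b hb => ?_) l
    have h1 : b = s l := by
      by_contra hne
      exact hb (Pi.single_eq_of_ne hne _)
    rw [h1]
    rfl
  have huw : ∀ l b, (u *ᵥ w l) b ≠ 0 → h b = cc l := by
    intro l b hb
    rw [mvA] at hb
    obtain ⟨a, _, ha⟩ := Finset.exists_ne_zero_of_sum_ne_zero hb
    rw [supp_of_intertwine hu (left_ne_zero_of_mul ha)]
    exact hw l a (right_ne_zero_of_mul ha)
  set e : (Fin (m + 1) → B) → ℂ := wd w with he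
  have hwt : ∀ I, e I ≠ 0 → wt h I = ∑ l, cc l := fun I hI => wd_wt hw hI
  -- raising elements
  have hup : ∀ X ∈ L, Upp h X → dm (Fin (m + 1)) X *ᵥ e = 0 := by
    intro X _ hX
    rw [he, dm_wd]
    refine Finset.sum_eq_zero fun l _ => ?_
    have hsup : ∀ b, (X *ᵥ w l) b ≠ 0 → ∃ l', s l' = b ∧ Fin.succ l' ≠ l := by
      intro b hb
      rw [mvA] at hb
      obtain ⟨a, _, ha⟩ := Finset.exists_ne_zero_of_sum_ne_zero hb
      have h1 := hX _ _ (left_ne_zero_of_mul ha)
      have h2 := hw l a (right_ne_zero_of_mul ha)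
      have h3 : c ≤ cc l := by
        refine Fin.cases le_rfl (fun l => ?_) l
        exact ((hs1 _).2 ⟨l, rfl⟩).le
      obtain ⟨l', hl'⟩ := (hs1 b).1 (by rw [h2] at h1; linarith)
      refine ⟨l', hl', fun h4 => ?_⟩
      rw [← h4] at h2
      have h5 : cc (Fin.succ l') = h (s l') := rfl
      rw [h5, hl'] at h2
      rw [h2] at h1
      exact lt_irrefl _ h1
    have h1 : X *ᵥ w l = ∑ l', (Fin.cons 0 (fun l' => if Fin.succ l' = l then 0 else
        (X *ᵥ w l) (s l')) : Fin (m + 1) → ℂ) l' • w l' := by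
      funext b
      rw [Fin.sum_univ_succ]
      simp only [Fin.cons_zero, Fin.cons_succ, zero_smul, zero_add]
      rw [Finset.sum_apply]
      by_cases hb : (X *ᵥ w l) b = 0
      · rw [hb]
        symm
        refine Finset.sum_eq_zero fun l' _ => ?_
        change (if Fin.succ l' = l then 0 else (X *ᵥ w l) (s l')) *
          (Pi.single (s l') 1 : B → ℂ) b = 0
        by_cases h2 : b = s l'
        · rw [← h2, hb]
          split_ifs <;> rw [zero_mul]
        · rw [Pi.single_eq_of_ne h2, mul_zero]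
      · obtain ⟨l', hl', hne⟩ := hsup b hb
        rw [Finset.sum_eq_single l']
        · change _ = (if Fin.succ l' = l then 0 else (X *ᵥ w l) (s l')) *
            (Pi.single (s l') 1 : B → ℂ) b
          rw [if_neg hne, hl', Pi.single_eq_same, mul_one]
        · intro l'' _ hl''
          change (if Fin.succ l'' = l then 0 else (X *ᵥ w l) (s l'')) *
            (Pi.single (s l'') 1 : B → ℂ) b = 0
          rw [Pi.single_eq_of_ne, mul_zero]
          intro h2
          exact hl'' (hs (by rw [hl', h2]))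
        · intro h2
          exact absurd (Finset.mem_univ _) h2
    rw [h1]
    refine wd_update_sum _ ?_
    refine Fin.cases rfl (fun l => ?_) l
    rw [Fin.cons_succ, if_pos rfl]
  have hz : ∀ X ∈ L, Zer h X → ∃ z : ℂ, dm (Fin (m + 1)) X *ᵥ e = z • e := by
    intro X hX hXz
    obtain ⟨x, rfl, hx⟩ := hreg X hX (zer_comm hXz)
    have h1 : ∀ l, ∃ z : ℂ, diagonal x *ᵥ w l = z • w l := by
      intro l
      by_cases h2 : w l = 0
      · exact ⟨0, by rw [h2, mulVec_zero, smul_zero]⟩
      · obtain ⟨b, hb⟩ := Function.ne_iff.1 h2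
        refine ⟨x b, ?_⟩
        funext b'
        rw [mulVec_diagonal, Pi.smul_apply, smul_eq_mul]
        by_cases h3 : w l b' = 0
        · rw [h3, mul_zero, mul_zero]
        · rw [hx b' b (by rw [hw l b' h3, hw l b hb])]
    choose z hz using h1
    refine ⟨∑ l, z l, ?_⟩
    rw [he, dm_wd, Finset.sum_smul]
    refine Finset.sum_congr rfl fun l _ => ?_
    rw [hz l, ← wdM_apply, MultilinearMap.map_update_smul, wdM_apply, Function.update_eq_self]
  have h1 := hst (m + 1) (Gen L h e) (Gen_alt (wd_alt _))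
    (fun X hX c hc => Gen_stable hbr hh hup hz hX hc) e Gen_self
  obtain ⟨z, hz'⟩ := Gen_top hwt h1
  have hue : kp (Fin (m + 1)) u *ᵥ e = wd fun l => u *ᵥ w l := by rw [he, kp_wd]
  have hall : kp (Fin (m + 1)) u *ᵥ e = z • e := by
    funext I
    by_cases h2 : ∑ l, cc l ≤ wt h I
    · rw [hz' I h2, Pi.smul_apply, smul_eq_mul]
    · have h3 : e I = 0 := by
        by_contra hne
        exact h2 (hwt I hne).ge
      have h4 : (kp (Fin (m + 1)) u *ᵥ e) I = 0 := by
        by_contra hne
        rw [hue] at hne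
        exact h2 (wd_wt huw hne).ge
      rw [h4, Pi.smul_apply, h3, smul_zero]
  -- evaluation
  have hsb : ∀ b, h b = c → ∀ l, (Pi.single (s l) 1 : B → ℂ) b = 0 := by
    intro b hb l
    refine Pi.single_eq_of_ne (fun h2 => ?_) _
    have h3 := (hs1 (s l)).2 ⟨l, rfl⟩
    rw [← h2, hb] at h3
    exact lt_irrefl _ h3
  have hev : ∀ b, h b = c → e (Fin.cons b s) = v b := by
    intro b hb
    rw [he]
    change wd (Fin.cons v fun l => (Pi.single (s l) 1 : B → ℂ)) _ = _
    rw [det_cons _ _ _ _ (hsb b hb), wd_single hs, mul_one]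
  obtain ⟨δ, hδ⟩ : ∃ δ : ℂ, δ = wd (fun l => u *ᵥ (Pi.single (s l) 1 : B → ℂ)) s := ⟨_, rfl⟩
  have hev2 : ∀ b, h b = c → (kp (Fin (m + 1)) u *ᵥ e) (Fin.cons b s) = (u *ᵥ v) b * δ := by
    intro b hb
    rw [hue]
    have h2 : (fun l => u *ᵥ w l) = Fin.cons (u *ᵥ v) fun l =>
        u *ᵥ (Pi.single (s l) 1 : B → ℂ) := by
      funext l
      refine Fin.cases rfl (fun l => rfl) l
    rw [h2, det_cons, hδ]
    intro l
    by_contra hne
    have h3 := huw (Fin.succ l) b hne
    have h4 : cc (Fin.succ l) = h (s l) := rfl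
    have h5 := (hs1 (s l)).2 ⟨l, rfl⟩
    rw [h4, hb] at h3
    rw [← h3] at h5
    exact lt_irrefl _ h5
  have hrel : ∀ b, h b = c → (u *ᵥ v) b * δ = z * v b := by
    intro b hb
    rw [← hev2 b hb, hall, Pi.smul_apply, smul_eq_mul, hev b hb]
  have hδ0 : δ ≠ 0 := by
    intro h2
    obtain ⟨b, hb⟩ := Function.ne_iff.1 hv0
    have h3 := hrel b (hv b hb)
    rw [h2, mul_zero] at h3
    have h4 : z = 0 := (mul_eq_zero.1 h3.symm).resolve_right hb
    rw [h4, zero_smul] at hall
    have h5 : e = 0 := by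
      calc e = kp (Fin (m + 1)) ui *ᵥ (kp (Fin (m + 1)) u *ᵥ e) := by
            rw [mulVec_mulVec, ← kp_mul, hui, kp_one, one_mulVec]
        _ = 0 := by rw [hall, mulVec_zero]
    have h6 := hev b (hv b hb)
    rw [h5, Pi.zero_apply] at h6
    exact hb h6.symm
  refine ⟨z / δ, ?_⟩
  funext b
  rw [Pi.smul_apply, smul_eq_mul]
  by_cases hb : h b = c
  · have h2 := hrel b hb
    field_simp
    exact h2
  · have h2 : v b = 0 := by
      by_contra hne
      exact hb (hv b hne)
    have h3 : (u *ᵥ v) b = 0 := by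
      by_contra hne
      exact hb (huw 0 b hne)
    rw [h2, h3, mul_zero]

/-- The elements preserving the weights are diagonal. -/
theorem diag_of_comm (hbr : BrC L) {h : B → ℝ} (hh : dg h ∈ L) (hreg : Reg L h)
    {u ui : Matrix B B ℂ} (hui : ui * u = 1) (hu : u * dg h = dg h * u)
    (hst : StabP L u) : ∃ a : B → ℂ, u = diagonal a ∧ ∀ b b', h b = h b' → a b = a b' := by
  have h1 : ∀ b, ∃ z : ℂ, u *ᵥ (Pi.single b 1 : B → ℂ) = z • Pi.single b 1 := fun b =>
    scalar_on hbr hh hreg hui hu hst (c := h b) fun b' hb' => by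
      by_contra hne
      exact hb' (Pi.single_eq_of_ne (fun h2 => hne (by rw [h2])) _)
  choose a ha using h1
  have h2 : u = diagonal a := by
    ext i j
    have h3 := congrFun (ha j) i
    rw [mulVec_single_one] at h3
    change u i j = _ at h3
    rw [h3, Pi.smul_apply, smul_eq_mul, diagonal_apply]
    by_cases hij : i = j
    · subst hij
      rw [Pi.single_eq_same, mul_one, if_pos rfl]
    · rw [Pi.single_eq_of_ne hij, mul_zero, if_neg hij]
  refine ⟨a, h2, fun b b' hbb => ?_⟩
  by_cases hne : b = b'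
  · rw [hne]
  obtain ⟨z, hz⟩ := scalar_on hbr hh hreg hui hu hst (c := h b)
    (v := Pi.single b 1 + Pi.single b' 1) fun b'' hb'' => by
      by_contra hcon
      apply hb''
      rw [Pi.add_apply, Pi.single_eq_of_ne (fun h4 => hcon (by rw [h4])),
        Pi.single_eq_of_ne (fun h4 => hcon (by rw [h4, hbb])), add_zero]
  rw [h2] at hz
  have h3 := congrFun hz b
  have h4 := congrFun hz b'
  rw [mulVec_diagonal, Pi.smul_apply, Pi.add_apply, Pi.single_eq_same,
    Pi.single_eq_of_ne hne, smul_eq_mul, add_zero, mul_one, mul_one] at h3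
  rw [mulVec_diagonal, Pi.smul_apply, Pi.add_apply, Pi.single_eq_same,
    Pi.single_eq_of_ne (Ne.symm hne), smul_eq_mul, zero_add, mul_one, mul_one] at h4
  rw [h3, h4]

end

end Pool.Agent.NH32
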