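import Mathlib
import Pool.Agent.NH32.Chm

/-!
# Roots
-/

set_option linter.unusedSectionVars false

namespace Pool.Agent.NH32

open Matrix Equiv Module

noncomputable section

variable {B : Type} [Fintype B] [DecidableEq B] {L : Submodule ℂ (Matrix B B ℂ)}

/-- The diagonal elements of the Lie algebra. -/
def TT (L : Submodule ℂ (Matrix B B ℂ)) : Type := {x : B → ℂ // diagonal x ∈ L}

/-- The group of the characters. -/
abbrev PP (L : Submodule ℂ (Matrix B B ℂ)) : Type := (TT L → ℂ) × Additive ℂˣ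

/-- The characters of the coordinates. -/
def pc (L : Submodule ℂ (Matrix B B ℂ)) (a : B → ℂˣ) (b : B) : PP L :=
  (fun x => x.1 b, Additive.ofMul (a b))

/-- Homogeneous matrices. -/
def Hmg (a : B → ℂˣ) (r : PP L) (X : Matrix B B ℂ) : Prop :=
  ∀ b b', X b b' ≠ 0 → pc L a b - pc L a b' = r

/-- The roots. -/
def Rt (L : Submodule ℂ (Matrix B B ℂ)) (a : B → ℂˣ) : Set (PP L) :=
  {r | ∃ X ∈ L, X ≠ 0 ∧ Hmg a r X}

variable {a : B → ℂˣ} {h : B → ℝ}

/-- The homogeneous components. -/
theorem exists_hmg (hbr : BrC L) (hu : ∀ X ∈ L, diagonal (fun b => (a b : ℂ)) * X *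
    diagonal (fun b => ((a b)⁻¹ : ℂˣ).1) ∈ L) {X : Matrix B B ℂ} (hX : X ∈ L) (b b' : B) :
    ∃ Y ∈ L, Y b b' = X b b' ∧ Hmg a (pc L a b - pc L a b') Y := by
  classical
  let g : B × B → ℂ := fun p => if pc L a p.1 - pc L a p.2 = pc L a b - pc L a b' then 1 else 0
  have hg : g ∈ HA L := by
    refine fin_sep _ _ fun p q hpq => ?_
    have h1 : pc L a p.1 - pc L a p.2 = pc L a q.1 - pc L a q.2 := by
      refine Prod.ext ?_ ?_
      · funext x
        exact hpq _ (diag_HA (d := x.1) fun X hX => hbr _ x.2 _ hX)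
      · have h2 := hpq _ (conj_HA hu)
        change Additive.ofMul (a p.1) - Additive.ofMul (a p.2) =
          Additive.ofMul (a q.1) - Additive.ofMul (a q.2)
        rw [← ofMul_div, ← ofMul_div]
        congr 1
        apply Units.ext
        rw [Units.val_div_eq_div_val, Units.val_div_eq_div_val, div_eq_mul_inv, div_eq_mul_inv]
        rw [← Units.val_inv_eq_inv_val, ← Units.val_inv_eq_inv_val]
        exact h2
    change (if pc L a p.1 - pc L a p.2 = pc L a b - pc L a b' then (1 : ℂ) else 0) =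
      if pc L a q.1 - pc L a q.2 = pc L a b - pc L a b' then 1 else 0
    rw [h1]
  refine ⟨had g X, hg X hX, ?_, ?_⟩
  · rw [had_apply]
    change (if pc L a b - pc L a b' = pc L a b - pc L a b' then (1 : ℂ) else 0) * _ = _
    rw [if_pos rfl, one_mul]
  · intro c c' hc
    by_contra hne
    apply hc
    rw [had_apply]
    change (if pc L a c - pc L a c' = pc L a b - pc L a b' then (1 : ℂ) else 0) * _ = _
    rw [if_neg hne, zero_mul]

theorem Hmg.mul {r s : PP L} {X Y : Matrix B B ℂ} (hX : Hmg a r X) (hY : Hmg a s Y) :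
    Hmg a (r + s) (X * Y) := by
  intro b b' hb
  rw [Matrix.mul_apply] at hb
  obtain ⟨c, _, hc⟩ := Finset.exists_ne_zero_of_sum_ne_zero hb
  rw [← hX b c (left_ne_zero_of_mul hc), ← hY c b' (right_ne_zero_of_mul hc)]
  abel

theorem Hmg.adj {r : PP L} {X : Matrix B B ℂ} (hX : Hmg a r X) : Hmg a (-r) Xᴴ := by
  intro b b' hb
  rw [conjTranspose_apply] at hb
  have h1 : X b' b ≠ 0 := fun h2 => hb (by rw [h2, star_zero])
  rw [← hX b' b h1]
  abel

theorem Hmg.sub {r : PP L} {X Y : Matrix B B ℂ} (hX : Hmg a r X) (hY : Hmg a r Y) :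
    Hmg a r (X - Y) := by
  intro b b' hb
  by_cases h1 : X b b' = 0
  · refine hY b b' fun h2 => hb ?_
    rw [Matrix.sub_apply, h1, h2, sub_zero]
  · exact hX b b' h1

theorem exists_entry {X : Matrix B B ℂ} (hX : X ≠ 0) : ∃ b b', X b b' ≠ 0 := by
  by_contra hcon
  push Not at hcon
  exact hX (by ext b b'; exact hcon b b')

/-- The square norm of a matrix. -/
def nsq (X : Matrix B B ℂ) : ℝ := ∑ b, ∑ b', Complex.normSq (X b b')

theorem nsq_nonneg (X : Matrix B B ℂ) : 0 ≤ nsq X :=
  Finset.sum_nonneg fun _ _ => Finset.sum_nonneg fun _ _ => Complex.normSq_nonneg _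

theorem nsq_pos {X : Matrix B B ℂ} (hX : X ≠ 0) : 0 < nsq X := by
  obtain ⟨b, b', hb⟩ := exists_entry hX
  unfold nsq
  refine Finset.sum_pos' (fun _ _ => Finset.sum_nonneg fun _ _ => Complex.normSq_nonneg _)
    ⟨b, Finset.mem_univ _, ?_⟩
  exact Finset.sum_pos' (fun _ _ => Complex.normSq_nonneg _)
    ⟨b', Finset.mem_univ _, Complex.normSq_pos.2 hb⟩

theorem nsq_trace (X : Matrix B B ℂ) : trace (X * Xᴴ) = (nsq X : ℂ) := by
  unfold trace nsq
  push_cast
  refine Finset.sum_congr rfl fun b _ => ?_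
  rw [diag_apply, Matrix.mul_apply]
  refine Finset.sum_congr rfl fun b' _ => ?_
  rw [conjTranspose_apply]
  exact Complex.mul_conj _

/-- The value of a homogeneous matrix on the diagonal elements. -/
theorem trace_hmg {r : PP L} {X : Matrix B B ℂ} (hX : Hmg a r X) (x : TT L) :
    trace ((X * Xᴴ - Xᴴ * X) * diagonal x.1) = r.1 x * (nsq X : ℂ) := by
  have h1 : trace (X * Xᴴ * diagonal x.1) = ∑ b, ∑ b', X b b' * star (X b b') * x.1 b := by
    unfold trace
    refine Finset.sum_congr rfl fun b _ => ?_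
    rw [diag_apply, mul_diagonal, Matrix.mul_apply, Finset.sum_mul]
    rfl
  have h2 : trace (Xᴴ * X * diagonal x.1) = ∑ b, ∑ b', X b b' * star (X b b') * x.1 b' := by
    unfold trace
    rw [Finset.sum_comm]
    refine Finset.sum_congr rfl fun b _ => ?_
    rw [diag_apply, mul_diagonal, Matrix.mul_apply, Finset.sum_mul]
    refine Finset.sum_congr rfl fun b' _ => ?_
    rw [conjTranspose_apply]
    ring
  have h3 : r.1 x * (nsq X : ℂ) = ∑ b, ∑ b', X b b' * star (X b b') * r.1 x := by
    rw [← nsq_trace]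
    unfold trace
    rw [Finset.mul_sum]
    refine Finset.sum_congr rfl fun b _ => ?_
    rw [diag_apply, Matrix.mul_apply, Finset.mul_sum]
    refine Finset.sum_congr rfl fun b' _ => ?_
    rw [conjTranspose_apply]
    ring
  rw [sub_mul, trace_sub, h1, h2, h3, ← Finset.sum_sub_distrib]
  refine Finset.sum_congr rfl fun b _ => ?_
  rw [← Finset.sum_sub_distrib]
  refine Finset.sum_congr rfl fun b' _ => ?_
  by_cases hb : X b b' = 0
  · rw [hb]
    ring
  · have h4 : x.1 b - x.1 b' = r.1 x := by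
      have h5 := congrArg (fun r : PP L => r.1 x) (hX b b' hb)
      exact h5
    rw [← h4]
    ring

/-- The fundamental identity. -/
theorem nsq_identity {r : PP L} {X Y : Matrix B B ℂ} (hY : Hmg a r Y) {τ : TT L}
    (hτ : X * Xᴴ - Xᴴ * X = diagonal τ.1) :
    (nsq (Y * X - X * Y) : ℂ) = (nsq (Y * Xᴴ - Xᴴ * Y) : ℂ) - r.1 τ * (nsq Y : ℂ) := by
  have h0 : diagonal τ.1 * Y - Y * diagonal τ.1 = r.1 τ • Y := by
    ext b b'
    rw [Matrix.sub_apply, diagonal_mul, mul_diagonal, Matrix.smul_apply, smul_eq_mul]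
    by_cases hb : Y b b' = 0
    · rw [hb]
      ring
    · have h5 := congrArg (fun r : PP L => r.1 τ) (hY b b' hb)
      have h6 : τ.1 b - τ.1 b' = r.1 τ := h5
      rw [← h6]
      ring
  have h1 : trace ((diagonal τ.1 * Y - Y * diagonal τ.1) * Yᴴ) = r.1 τ * (nsq Y : ℂ) := by
    rw [h0, Matrix.smul_mul, trace_smul, nsq_trace, smul_eq_mul]
  rw [← h1, ← nsq_trace, ← nsq_trace, ← hτ]
  simp only [conjTranspose_sub, conjTranspose_mul, conjTranspose_conjTranspose, sub_mul, mul_sub,
    trace_sub, ← mul_assoc]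
  have e1 : trace (Y * X * Xᴴ * Yᴴ) = trace (X * Xᴴ * Yᴴ * Y) := by
    rw [mul_assoc, mul_assoc, trace_mul_comm, ← mul_assoc]
  have e2 : trace (Y * X * Yᴴ * Xᴴ) = trace (X * Yᴴ * Xᴴ * Y) := by
    rw [mul_assoc, mul_assoc, trace_mul_comm, ← mul_assoc]
  have e3 : trace (X * Y * Xᴴ * Yᴴ) = trace (X * Y * Xᴴ * Yᴴ) := rfl
  have e4 : trace (X * Y * Yᴴ * Xᴴ) = trace (Xᴴ * X * Y * Yᴴ) := by
    rw [trace_mul_comm, ← mul_assoc, ← mul_assoc]
  have e5 : trace (Y * Xᴴ * X * Yᴴ) = trace (Yᴴ * Y * Xᴴ * X) := by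
    rw [trace_mul_comm, ← mul_assoc, ← mul_assoc]
  have e6 : trace (Y * Xᴴ * Yᴴ * X) = trace (X * Y * Xᴴ * Yᴴ) := by
    rw [trace_mul_comm, ← mul_assoc, ← mul_assoc]
  have e7 : trace (Xᴴ * Y * X * Yᴴ) = trace (X * Yᴴ * Xᴴ * Y) := by
    rw [mul_assoc, trace_mul_comm, ← mul_assoc]
  have e8 : trace (Xᴴ * Y * Yᴴ * X) = trace (X * Xᴴ * Y * Yᴴ) := by
    rw [trace_mul_comm, ← mul_assoc, ← mul_assoc]
  have e9 : trace (Y * Xᴴ * X * Yᴴ) = trace (Y * Xᴴ * X * Yᴴ) := rfl
  have e10 : trace (Y * X * Xᴴ * Yᴴ) = trace (Y * X * Xᴴ * Yᴴ) := rfl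
  rw [e4, e8, e2, e6, e7]
  ring

/-- **Relations between roots**. -/
theorem sum_roots (hbr : BrC L) (hadj : ∀ X ∈ L, Xᴴ ∈ L) (hh : dg h ∈ L) (hreg : Reg L h)
    (n : ℕ) : ∀ l : List (PP L), l.length = n → (∀ r ∈ l, r ∈ Rt L a) → l.sum.1 = 0 →
      l.sum = 0 := by
  classical
  let hT : TT L := ⟨fun b => (h b : ℂ), hh⟩
  have hzer : ∀ {r : PP L} {X : Matrix B B ℂ}, Hmg a r X → r.1 hT = 0 → Zer h X := by
    intro r X hX hr b b' hb
    have h1 := congrArg (fun r : PP L => r.1 hT) (hX b b' hb)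
    beta_reduce at h1
    rw [hr] at h1
    have h2 : (h b : ℂ) - (h b' : ℂ) = 0 := h1
    have h3 : (h b : ℂ) = (h b' : ℂ) := sub_eq_zero.1 h2
    exact_mod_cast h3
  induction n with
  | zero =>
    intro l hl _ _
    rw [List.length_eq_zero_iff.1 hl, List.sum_nil]
  | succ n ih =>
    intro l hl hr hs
    obtain ⟨r, l', rfl⟩ : ∃ r l', l = r :: l' := List.exists_cons_of_length_eq_add_one hl
    rw [List.length_cons, Nat.add_right_cancel_iff] at hl
    obtain ⟨X, hX, hX0, hXr⟩ := hr r List.mem_cons_self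
    have hr' : ∀ s ∈ l', s ∈ Rt L a := fun s hs => hr s (List.mem_cons_of_mem _ hs)
    by_cases hr0 : r.1 = 0
    · -- the trivial root
      have h1 : Zer h X := hzer hXr (by rw [hr0]; rfl)
      obtain ⟨x, rfl, -⟩ := hreg X hX (zer_comm h1)
      obtain ⟨b, b', hb⟩ := exists_entry hX0
      have hbb : b = b' := by
        by_contra hne
        exact hb (diagonal_apply_ne _ hne)
      subst hbb
      have h2 : r = 0 := by rw [← hXr b b hb, sub_self]
      rw [List.sum_cons, h2, zero_add] at hs ⊢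
      exact ih l' hl hr' hs
    · -- a nontrivial root
      have hTX : Hmg a (0 : PP L) (X * Xᴴ - Xᴴ * X) := by
        refine Hmg.sub ?_ ?_
        · have h1 := hXr.mul hXr.adj
          rwa [add_neg_cancel] at h1
        · have h1 := hXr.adj.mul hXr
          rwa [neg_add_cancel] at h1
      have hTXL : X * Xᴴ - Xᴴ * X ∈ L := hbr _ hX _ (hadj X hX)
      obtain ⟨t, ht, -⟩ := hreg _ hTXL (zer_comm (hzer hTX rfl))
      let τ : TT L := ⟨t, by rw [← ht]; exact hTXL⟩
      have hτ : X * Xᴴ - Xᴴ * X = diagonal τ.1 := ht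
      -- the entries are real
      have hreal : ∀ b, star (t b) = t b := by
        intro b
        have h1 : (X * Xᴴ - Xᴴ * X)ᴴ = X * Xᴴ - Xᴴ * X := by
          rw [conjTranspose_sub, conjTranspose_mul, conjTranspose_mul,
            conjTranspose_conjTranspose]
        rw [ht, diagonal_conjTranspose] at h1
        exact congrFun (diagonal_injective h1) b
      have hpos : 0 < (r.1 τ).re := by
        have h1 := trace_hmg hXr τ
        rw [hτ, diagonal_mul_diagonal, trace_diagonal] at h1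
        have h2 : ∑ b, τ.1 b * τ.1 b = ((∑ b, Complex.normSq (t b) : ℝ) : ℂ) := by
          push_cast
          refine Finset.sum_congr rfl fun b _ => ?_
          rw [← Complex.mul_conj]
          congr 1
          exact (hreal b).symm
        rw [h2] at h1
        have h3 := congrArg Complex.re h1
        rw [Complex.ofReal_re, Complex.re_mul_ofReal] at h3
        have hn := nsq_pos hX0
        have h4 : 0 ≤ ∑ b, Complex.normSq (t b) :=
          Finset.sum_nonneg fun _ _ => Complex.normSq_nonneg _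
        rcases h4.lt_or_eq with h5 | h5
        · rw [h3] at h5
          exact (mul_pos_iff_of_pos_right hn).1 h5
        · exfalso
          apply hr0
          have h6 : ∀ b, t b = 0 := by
            intro b
            have h7 := (Finset.sum_eq_zero_iff_of_nonneg
              (fun b _ => Complex.normSq_nonneg (t b))).1 h5.symm b (Finset.mem_univ _)
            exact Complex.normSq_eq_zero.1 h7
          funext x
          have h7 := trace_hmg hXr x
          rw [ht, show t = 0 from funext h6, diagonal_zero', zero_mul, trace_zero] at h7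
          have h8 : (nsq X : ℂ) ≠ 0 := by exact_mod_cast hn.ne'
          exact (mul_eq_zero.1 h7.symm).resolve_right h8
      -- a root with negative value
      obtain ⟨s, hs', hneg⟩ : ∃ s ∈ l', (s.1 τ).re < 0 := by
        by_contra hcon
        push Not at hcon
        have h1 := congrFun hs τ
        rw [List.sum_cons] at h1
        have h2 : r.1 τ + l'.sum.1 τ = 0 := h1
        have h3 : (l'.sum.1 τ).re = (l'.map fun s : PP L => (s.1 τ).re).sum := by
          let φ : PP L →+ ℝ :=
            { toFun := fun s => (s.1 τ).re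
              map_zero' := rfl
              map_add' := fun _ _ => rfl }
          exact map_list_sum φ l'
        have h4 : 0 ≤ (l'.map fun s : PP L => (s.1 τ).re).sum := by
          refine List.sum_nonneg fun x hx => ?_
          obtain ⟨s, hs, rfl⟩ := List.mem_map.1 hx
          exact hcon s hs
        have h5 := congrArg Complex.re h2
        rw [Complex.add_re, h3, Complex.zero_re] at h5
        linarith
      obtain ⟨Y, hY, hY0, hYs⟩ := hr' s hs'
      have hid := nsq_identity hYs hτ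
      have hne : Y * X - X * Y ≠ 0 := by
        intro h0
        rw [h0] at hid
        have h1 := congrArg Complex.re hid
        have h2 : nsq (0 : Matrix B B ℂ) = 0 := by simp [nsq]
        rw [h2, Complex.sub_re, Complex.ofReal_re, Complex.ofReal_re, Complex.re_mul_ofReal] at h1
        have h3 := nsq_nonneg (Y * Xᴴ - Xᴴ * Y)
        have h4 := nsq_pos hY0
        have h5 : (s.1 τ).re * nsq Y < 0 := mul_neg_of_neg_of_pos hneg h4
        linarith
      have hhm : Hmg a (r + s) (Y * X - X * Y) := by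
        refine Hmg.sub ?_ (hXr.mul hYs)
        rw [add_comm]
        exact hYs.mul hXr
      have hperm := List.perm_cons_erase hs'
      have hsum : ((r + s) :: l'.erase s).sum = (r :: l').sum := by
        rw [List.sum_cons, List.sum_cons, hperm.sum_eq, List.sum_cons, add_assoc]
      rw [← hsum] at hs ⊢
      refine ih _ ?_ ?_ hs
      · rw [List.length_cons, List.length_erase_of_mem hs', hl]
        have h1 : 0 < l'.length := List.length_pos_of_mem hs'
        omega
      · intro q hq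
        rcases List.mem_cons.1 hq with rfl | hq
        · exact ⟨_, hbr _ hY _ hX, hne, hhm⟩
        · exact hr' q (List.mem_of_mem_erase hq)

/-- The group generated by the roots. -/
def QQ (L : Submodule ℂ (Matrix B B ℂ)) (a : B → ℂˣ) : AddSubgroup (PP L) :=
  AddSubgroup.closure (Rt L a)

theorem Rt_neg (hadj : ∀ X ∈ L, Xᴴ ∈ L) {r : PP L} (hr : r ∈ Rt L a) : -r ∈ Rt L a := by
  obtain ⟨X, hX, hX0, hXr⟩ := hr
  refine ⟨Xᴴ, hadj X hX, fun h2 => hX0 ?_, hXr.adj⟩
  rw [← conjTranspose_conjTranspose X, h2, conjTranspose_zero]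

theorem QQ_list (hadj : ∀ X ∈ L, Xᴴ ∈ L) {q : PP L} (hq : q ∈ QQ L a) :
    ∃ l : List (PP L), (∀ r ∈ l, r ∈ Rt L a) ∧ l.sum = q := by
  unfold QQ at hq
  induction hq using AddSubgroup.closure_induction with
  | mem q hq => exact ⟨[q], fun r hr => by rwa [List.mem_singleton.1 hr], List.sum_singleton⟩
  | zero => exact ⟨[], fun r hr => absurd hr List.not_mem_nil, List.sum_nil⟩
  | add x y _ _ hx hy =>
    obtain ⟨l, hl, rfl⟩ := hx
    obtain ⟨l', hl', rfl⟩ := hy
    refine ⟨l ++ l', fun r hr => ?_, List.sum_append⟩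
    rcases List.mem_append.1 hr with h1 | h1
    · exact hl r h1
    · exact hl' r h1
  | neg x _ hx =>
    obtain ⟨l, hl, rfl⟩ := hx
    refine ⟨l.map Neg.neg, fun r hr => ?_, ?_⟩
    · obtain ⟨s, hs, rfl⟩ := List.mem_map.1 hr
      exact Rt_neg hadj (hl s hs)
    · exact (List.sum_neg l).symm

theorem QQ_eq_zero (hbr : BrC L) (hadj : ∀ X ∈ L, Xᴴ ∈ L) (hh : dg h ∈ L) (hreg : Reg L h)
    {q : PP L} (hq : q ∈ QQ L a) (h0 : q.1 = 0) : q = 0 := by
  obtain ⟨l, hl, rfl⟩ := QQ_list hadj hq
  exact sum_roots hbr hadj hh hreg l.length l rfl hl h0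

end

end Pool.Agent.NH32
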