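import Mathlib
import Pool.Agent.NH32.Rts

/-!
# Rigidity
-/

set_option linter.unusedSectionVars false

namespace Pool.Agent.NH32

open Matrix Equiv Module NormedSpace

noncomputable section

variable {B : Type} [Fintype B] [DecidableEq B] {L : Submodule ℂ (Matrix B B ℂ)}

/-- The tensors killed by a Lie algebra. -/
def InvL (L : Submodule ℂ (Matrix B B ℂ)) (κ : Type) [Fintype κ] [DecidableEq κ] :
    Submodule ℂ ((κ → B) → ℂ) where
  carrier := {x | ∀ X ∈ L, dm κ X *ᵥ x = 0}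
  add_mem' := by
    intro x y hx hy X hX
    rw [mulVec_add, hx X hX, hy X hX, add_zero]
  zero_mem' := by
    intro X _
    rw [mulVec_zero]
  smul_mem' := by
    intro c x hx X hX
    rw [mulVec_smul, hx X hX, smul_zero]

theorem mem_InvL {κ : Type} [Fintype κ] [DecidableEq κ] {x : (κ → B) → ℂ} :
    x ∈ InvL L κ ↔ ∀ X ∈ L, dm κ X *ᵥ x = 0 := Iff.rfl

section chamber

theorem tr_id (P Z H : Matrix B B ℂ) :
    trace ((P * Z - Z * P) * H) = trace (P * (Z * H - H * Z)) := by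
  rw [sub_mul, trace_sub, mul_sub, trace_sub]
  congr 1
  · rw [mul_assoc]
  · rw [mul_assoc, trace_mul_comm, mul_assoc]

/-- The order of the weights, in diagonal coordinates. -/
theorem chamber_prop (hbr : BrC L) (hadj : ∀ X ∈ L, Xᴴ ∈ L) {h h' : B → ℝ} (hh : dg h ∈ L)
    (hh' : dg h' ∈ L) (hreg : Reg L h) {u ui : Matrix B B ℂ} (hui : ui * u = 1)
    (hun : ∀ X ∈ L, ui * X * u ∈ L) (hu : u * dg h = dg h' * u)
    (h2 : ∀ X ∈ L, Xᴴ = -X → trH (dg h) ((dg h' * X - X * dg h') * X -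
      X * (dg h' * X - X * dg h')) ≤ 0) :
    ∀ X ∈ L, ∀ b b', X b b' ≠ 0 → (h b' < h b ↔ h' b' < h' b) := by
  classical
  have huu : u * ui = 1 := mul_eq_one_comm.1 hui
  intro X hX b b' hb
  obtain ⟨α, hα⟩ : ∃ α, α = h b - h b' := ⟨_, rfl⟩
  obtain ⟨α', hα'⟩ : ∃ α', α' = h' b - h' b' := ⟨_, rfl⟩
  -- the joint component
  let f : B × B → ℂ := fun p => if h p.1 - h p.2 = α ∧ h' p.1 - h' p.2 = α' then 1 else 0
  have hf : f ∈ HA L := by
    refine fin_sep _ _ fun p q hpq => ?_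
    have h3 := hpq _ (diag_HA (d := fun b => (h b : ℂ)) fun X hX => hbr _ hh _ hX)
    have h4 := hpq _ (diag_HA (d := fun b => (h' b : ℂ)) fun X hX => hbr _ hh' _ hX)
    have h5 : h p.1 - h p.2 = h q.1 - h q.2 := by
      have h6 : (((h p.1 - h p.2 : ℝ)) : ℂ) = ((h q.1 - h q.2 : ℝ) : ℂ) := by
        push_cast
        exact h3
      exact_mod_cast h6
    have h6 : h' p.1 - h' p.2 = h' q.1 - h' q.2 := by
      have h7 : (((h' p.1 - h' p.2 : ℝ)) : ℂ) = ((h' q.1 - h' q.2 : ℝ) : ℂ) := by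
        push_cast
        exact h4
      exact_mod_cast h7
    change (if h p.1 - h p.2 = α ∧ h' p.1 - h' p.2 = α' then (1 : ℂ) else 0) =
      if h q.1 - h q.2 = α ∧ h' q.1 - h' q.2 = α' then 1 else 0
    rw [h5, h6]
  obtain ⟨Y, hYdef⟩ : ∃ Y, Y = had f X := ⟨_, rfl⟩
  have hY : Y ∈ L := by rw [hYdef]; exact hf X hX
  have hYb : Y b b' = X b b' := by
    rw [hYdef, had_apply]
    change (if h b - h b' = α ∧ h' b - h' b' = α' then (1 : ℂ) else 0) * _ = _
    rw [if_pos ⟨hα.symm, hα'.symm⟩, one_mul]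
  have hYs : ∀ c c', Y c c' ≠ 0 → h c - h c' = α ∧ h' c - h' c' = α' := by
    intro c c' hc
    by_contra hne
    apply hc
    rw [hYdef, had_apply]
    change (if h c - h c' = α ∧ h' c - h' c' = α' then (1 : ℂ) else 0) * _ = _
    rw [if_neg hne, zero_mul]
  have hbY : ∀ (k : B → ℝ) (β : ℝ), (∀ c c', Y c c' ≠ 0 → k c - k c' = β) →
      dg k * Y - Y * dg k = (β : ℂ) • Y := by
    intro k β hk
    ext c c'
    unfold dg
    rw [Matrix.sub_apply, diagonal_mul, mul_diagonal, Matrix.smul_apply, smul_eq_mul]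
    by_cases hc : Y c c' = 0
    · rw [hc]
      ring
    · rw [← hk c c' hc]
      push_cast
      ring
  have hdg : ∀ k : B → ℝ, (dg k)ᴴ = dg k := by
    intro k
    unfold dg
    rw [diagonal_conjTranspose]
    congr 1
    funext c
    exact Complex.conj_ofReal _
  have hbYH : ∀ (k : B → ℝ) (β : ℝ), (∀ c c', Y c c' ≠ 0 → k c - k c' = β) →
      dg k * Yᴴ - Yᴴ * dg k = -((β : ℂ) • Yᴴ) := by
    intro k β hk
    have h3 := congrArg Matrix.conjTranspose (hbY k β hk)
    rw [conjTranspose_sub, conjTranspose_mul, conjTranspose_mul, hdg, conjTranspose_smul] at h3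
    have h4 : star (β : ℂ) = (β : ℂ) := Complex.conj_ofReal _
    rw [h4] at h3
    rw [← h3, neg_sub]
  -- the case of commuting with the first element
  have case0 : α = 0 → α' = 0 := by
    intro h0
    have h3 : Zer h Y := by
      intro c c' hc
      have := (hYs c c' hc).1
      rw [h0] at this
      linarith
    obtain ⟨y, hy, -⟩ := hreg Y hY (zer_comm h3)
    have h4 : b = b' := by
      by_contra hne
      apply hb
      rw [← hYb, hy]
      exact diagonal_apply_ne _ hne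
    rw [hα', h4, sub_self]
  -- regularity of the second element
  have case1 : α' = 0 → α = 0 := by
    intro h0
    have h3 : Zer h' Y := by
      intro c c' hc
      have := (hYs c c' hc).2
      rw [h0] at this
      linarith
    have h4 := zer_comm h3
    have hcj : ∀ Z ∈ L, Z * dg h' = dg h' * Z → ∃ z : B → ℂ, Z = u * diagonal z * ui := by
      intro Z hZ hZc
      have hiu : dg h' = u * dg h * ui := by
        rw [hu, mul_assoc, huu, mul_one]
      have h5 : (ui * Z * u) * dg h = dg h * (ui * Z * u) := by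
        calc (ui * Z * u) * dg h = ui * Z * (u * dg h * ui) * u := by
              have : ui * Z * (u * dg h * ui) * u = ui * Z * u * dg h * (ui * u) := by noncomm_ring
              rw [this, hui, mul_one]
          _ = ui * (Z * dg h') * u := by rw [hiu]; noncomm_ring
          _ = ui * (dg h' * Z) * u := by rw [hZc]
          _ = (ui * u) * dg h * ui * Z * u := by rw [hiu]; noncomm_ring
          _ = _ := by rw [hui, one_mul]; noncomm_ring
      obtain ⟨z, hz, -⟩ := hreg _ (hun Z hZ) h5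
      refine ⟨z, ?_⟩
      rw [← hz]
      calc Z = (u * ui) * Z * (u * ui) := by rw [huu, one_mul, mul_one]
        _ = _ := by noncomm_ring
    obtain ⟨z, hz⟩ := hcj Y hY h4
    obtain ⟨w, hw⟩ := hcj (dg h) hh (by
      unfold dg
      rw [diagonal_mul_diagonal, diagonal_mul_diagonal]
      congr 1
      funext c
      ring)
    have h5 : Y * dg h = dg h * Y := by
      rw [hz, hw]
      calc u * diagonal z * ui * (u * diagonal w * ui)
          = u * diagonal z * (ui * u) * diagonal w * ui := by noncomm_ring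
        _ = u * (diagonal z * diagonal w) * ui := by rw [hui]; noncomm_ring
        _ = u * (diagonal w * diagonal z) * ui := by
            rw [diagonal_mul_diagonal, diagonal_mul_diagonal]
            congr 3
            funext c
            ring
        _ = u * diagonal w * (ui * u) * diagonal z * ui := by rw [hui]; noncomm_ring
        _ = _ := by noncomm_ring
    have h6 := dg_comm_zer h5 b b' (by rw [hYb]; exact hb)
    rw [hα, h6, sub_self]
  -- the sign
  have hsign : α ≠ 0 → 0 ≤ α * α' := by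
    intro h0
    have hZL : Y - Yᴴ ∈ L := L.sub_mem hY (hadj Y hY)
    have hZs : (Y - Yᴴ)ᴴ = -(Y - Yᴴ) := by
      rw [conjTranspose_sub, conjTranspose_conjTranspose, neg_sub]
    have h3 := h2 _ hZL hZs
    have e1 : dg h' * (Y - Yᴴ) - (Y - Yᴴ) * dg h' = (α' : ℂ) • (Y + Yᴴ) := by
      have e2 := hbY h' α' (fun c c' hc => (hYs c c' hc).2)
      have e3 := hbYH h' α' (fun c c' hc => (hYs c c' hc).2)
      have e4 : dg h' * (Y - Yᴴ) - (Y - Yᴴ) * dg h' = (dg h' * Y - Y * dg h') -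
          (dg h' * Yᴴ - Yᴴ * dg h') := by noncomm_ring
      rw [e4, e2, e3, smul_add, sub_neg_eq_add]
    have e2 : (Y - Yᴴ) * dg h - dg h * (Y - Yᴴ) = -((α : ℂ) • (Y + Yᴴ)) := by
      have e2 := hbY h α (fun c c' hc => (hYs c c' hc).1)
      have e3 := hbYH h α (fun c c' hc => (hYs c c' hc).1)
      have e4 : (Y - Yᴴ) * dg h - dg h * (Y - Yᴴ) = -(dg h * Y - Y * dg h) +
          (dg h * Yᴴ - Yᴴ * dg h) := by noncomm_ring
      rw [e4, e2, e3, smul_add, neg_add]
    rw [e1, trH_apply] at h3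
    have e3 : trace (((α' : ℂ) • (Y + Yᴴ) * (Y - Yᴴ) - (Y - Yᴴ) * (α' : ℂ) • (Y + Yᴴ)) * dg h) =
        -((α' * α : ℝ) : ℂ) * trace ((Y + Yᴴ) * (Y + Yᴴ)ᴴ) := by
      have e4 : (Y + Yᴴ)ᴴ = Y + Yᴴ := herm_one Y
      rw [e4]
      have e5 : trace (((α' : ℂ) • (Y + Yᴴ) * (Y - Yᴴ) - (Y - Yᴴ) * (α' : ℂ) • (Y + Yᴴ)) * dg h) =
          trace (((α' : ℂ) • (Y + Yᴴ)) * ((Y - Yᴴ) * dg h - dg h * (Y - Yᴴ))) := tr_id _ _ _
      rw [e5, e2, mul_neg, trace_neg, Matrix.smul_mul, Matrix.mul_smul, trace_smul, trace_smul,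
        smul_eq_mul, smul_eq_mul]
      push_cast
      ring
    rw [e3, nsq_trace] at h3
    have h4 : (-((α' * α : ℝ) : ℂ) * ((nsq (Y + Yᴴ) : ℝ) : ℂ)).re = -(α' * α) * nsq (Y + Yᴴ) := by
      rw [← Complex.ofReal_neg, ← Complex.ofReal_mul, Complex.ofReal_re]
    rw [h4] at h3
    have h5 : Y + Yᴴ ≠ 0 := by
      intro h6
      have h7 := congrFun (congrFun h6 b) b'
      rw [Matrix.add_apply, conjTranspose_apply, Matrix.zero_apply] at h7
      by_cases h8 : Y b' b = 0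
      · rw [h8, star_zero, add_zero, hYb] at h7
        exact hb h7
      · have h9 := (hYs b' b h8).1
        apply h0
        linarith
    have h6 := nsq_pos h5
    by_contra hneg
    push Not at hneg
    have h7 : 0 < -(α' * α) * nsq (Y + Yᴴ) := mul_pos (by linarith [mul_comm α α']) h6
    linarith
  constructor
  · intro hlt
    have h3 : 0 < α := by rw [hα]; linarith
    have h4 : 0 ≤ α' := by
      by_contra hneg
      push Not at hneg
      have := hsign h3.ne'
      nlinarith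
    have h5 : α' ≠ 0 := fun h6 => h3.ne' (case1 h6)
    have h6 : 0 < α' := lt_of_le_of_ne h4 (Ne.symm h5)
    rw [hα'] at h6
    linarith
  · intro hlt
    have h3 : 0 < α' := by rw [hα']; linarith
    have h5 : α ≠ 0 := fun h6 => h3.ne' (case0 h6)
    have h4 : 0 ≤ α := by
      by_contra hneg
      push Not at hneg
      have := hsign h5
      nlinarith
    have h6 : 0 < α := lt_of_le_of_ne h4 (Ne.symm h5)
    rw [hα] at h6
    linarith

end chamber

variable {Om : Matrix B B ℂ}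

/-- The group fixing the invariants of the Lie algebra. -/
abbrev KK (Om : Matrix B B ℂ) (L : Submodule ℂ (Matrix B B ℂ)) : Subgroup (USp Om) :=
  Fx Om fun κ => InvL L κ

theorem KK_closed : IsClosed (KK Om L : Set (USp Om)) := by
  have h1 : (KK Om L : Set (USp Om)) = ⋂ (κ : Type) (i1 : Fintype κ) (i2 : DecidableEq κ)
      (t : (κ → B) → ℂ) (_ : t ∈ InvL L κ), {u | kp κ (mt u) *ᵥ t = t} := by
    ext u
    simp only [Set.mem_iInter, Set.mem_ofPred_eq]
    exact Iff.rfl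
  rw [h1]
  refine isClosed_iInter fun κ => isClosed_iInter fun i1 => isClosed_iInter fun i2 =>
    isClosed_iInter fun t => isClosed_iInter fun _ => isClosed_eq ?_ continuous_const
  exact continuous_pi fun I => continuous_kp_mulVec κ t I

section main

variable (hO : IsOm Om) (hL : LD Om L)
  {T : ∀ (κ : Type) [Fintype κ] [DecidableEq κ], Submodule ℂ ((κ → B) → ℂ)}
  (hT : ∀ (a b : ℕ) (c : (Fin a ⊕ Fin b → B) → ℂ), IsAlt2 c →
    (∀ X ∈ L, dm (Fin a ⊕ Fin b) X *ᵥ c = 0) → c ∈ T (Fin a ⊕ Fin b))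
  (hTL : ∀ (κ : Type) [Fintype κ] [DecidableEq κ], ∀ t ∈ T κ, ∀ X ∈ L, dm κ X *ᵥ t = 0)

/-- Cartan coordinates. -/
structure Crt (L : Submodule ℂ (Matrix B B ℂ)) (g : Matrix B B ℂ) (h : B → ℝ) : Prop where
  g1 : gᴴ * g = 1
  mem : dg h ∈ cjL g gᴴ L
  reg : Reg (cjL g gᴴ L) h
  zd : ∀ M ∈ ZM L, ∃ x : B → ℂ, gᴴ * M * g = diagonal x

theorem exists_crt (hadj : ∀ X ∈ L, Xᴴ ∈ L) : ∃ g h, Crt L g h := by
  obtain ⟨g, h, h1, h2, h3, h4⟩ := exists_cartan hadj
  exact ⟨g, h, h1, h2, h3, h4⟩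

theorem cjL_adj (hadj : ∀ X ∈ L, Xᴴ ∈ L) {g : Matrix B B ℂ} :
    ∀ X ∈ cjL g gᴴ L, Xᴴ ∈ cjL g gᴴ L := by
  intro X hX
  rw [mem_cjL] at hX ⊢
  have h1 := hadj _ hX
  rw [conjTranspose_mul, conjTranspose_mul, conjTranspose_conjTranspose, ← mul_assoc] at h1
  exact h1

include hTL in
theorem KK_le : KK Om L ≤ Fx Om T := fun _ hu κ _ _ t ht => hu κ t (hTL κ t ht)

include hO hL hT hTL in
/-- The elements of the group fixing the system are diagonal in Cartan coordinates, up to the group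
fixing the invariants of the Lie algebra. -/
theorem exists_diag_form {g : Matrix B B ℂ} {h : B → ℝ} (hc : Crt L g h) {u : USp Om}
    (hu : u ∈ Fx Om T) : ∃ k ∈ KK Om L, ∃ a : B → ℂˣ,
      gᴴ * mt (k⁻¹ * u) * g = diagonal (fun b => (a b : ℂ)) ∧
      ∀ b b', h b = h b' → a b = a b' := by
  have hgg : g * gᴴ = 1 := mul_eq_one_comm.1 hc.g1
  have hdg : ∀ k : B → ℝ, (dg k)ᴴ = dg k := by
    intro k
    unfold dg
    rw [diagonal_conjTranspose]
    congr 1
    funext c
    exact Complex.conj_ofReal _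
  obtain ⟨H, hH⟩ : ∃ H, H = g * dg h * gᴴ := ⟨_, rfl⟩
  have hHL : H ∈ L := by rw [hH]; exact hc.mem
  have hHh : Hᴴ = H := by
    rw [hH, conjTranspose_mul, conjTranspose_mul, conjTranspose_conjTranspose, hdg, ← mul_assoc]
  have hnK : ∀ k ∈ KK Om L, ∀ X ∈ L, mt k⁻¹ * X * mt k ∈ L := by
    intro k hk X hX
    have h1 := normal_of_T hO hL hT hTL (KK_le hTL ((KK Om L).inv_mem hk)) hX
    rwa [inv_inv] at h1
  have hH₁L : mt u * H * mt u⁻¹ ∈ L := normal_of_T hO hL hT hTL hu hHL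
  have hH₁h : (mt u * H * mt u⁻¹)ᴴ = mt u * H * mt u⁻¹ := by
    rw [conjTranspose_mul, conjTranspose_mul, hHh, mt_inv, conjTranspose_conjTranspose,
      ← mul_assoc]
  obtain ⟨k, hk, hcomm, h2nd⟩ := exists_max hO hL.br hL.sp (KK Om L) KK_closed
    (fun X hX hXs s κ _ _ t ht => by
      rw [mt_eU]
      exact (isCurve_exp X).fix (exp_zero_smul X) (ht X hX) s)
    hHL hHh hH₁h (fun k hk => hnK k hk _ hH₁L)
  refine ⟨k, hk, ?_⟩
  obtain ⟨v, hv⟩ : ∃ v, v = k⁻¹ * u := ⟨_, rfl⟩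
  have hvT : v ∈ Fx Om T := by
    rw [hv]
    exact (Fx Om T).mul_mem ((Fx Om T).inv_mem (KK_le hTL hk)) hu
  have hH'v : mt k⁻¹ * (mt u * H * mt u⁻¹) * mt k = mt v * H * mt v⁻¹ := by
    rw [hv, _root_.mul_inv_rev, inv_inv, mt_mul, mt_mul]
    noncomm_ring
  rw [hH'v] at hcomm h2nd
  rw [← hv]
  -- diagonal coordinates
  obtain ⟨M, hM⟩ : ∃ M, M = cjL g gᴴ L := ⟨_, rfl⟩
  have hMbr : BrC M := by rw [hM]; exact cjL_br hL.br hc.g1
  have hMadj : ∀ X ∈ M, Xᴴ ∈ M := by rw [hM]; exact cjL_adj hL.adj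
  have hMh : dg h ∈ M := by rw [hM]; exact hc.mem
  have hMreg : Reg M h := by rw [hM]; exact hc.reg
  obtain ⟨w, hw⟩ : ∃ w, w = gᴴ * mt v * g := ⟨_, rfl⟩
  obtain ⟨wi, hwi⟩ : ∃ wi, wi = gᴴ * mt v⁻¹ * g := ⟨_, rfl⟩
  have hwiw : wi * w = 1 := by
    rw [hw, hwi]
    calc gᴴ * mt v⁻¹ * g * (gᴴ * mt v * g) = gᴴ * mt v⁻¹ * (g * gᴴ) * mt v * g := by noncomm_ring
      _ = gᴴ * (mt v⁻¹ * mt v) * g := by rw [hgg]; noncomm_ring
      _ = 1 := by rw [mt_inv_mul, mul_one, hc.g1]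
  have hwwi : w * wi = 1 := mul_eq_one_comm.1 hwiw
  have hwH : wᴴ = wi := by
    rw [hw, hwi, conjTranspose_mul, conjTranspose_mul, conjTranspose_conjTranspose, mt_inv,
      ← mul_assoc]
  have hmM : ∀ X, X ∈ L → gᴴ * X * g ∈ M := by
    intro X hX
    rw [hM, mem_cjL]
    have h1 : g * (gᴴ * X * g) * gᴴ = (g * gᴴ) * X * (g * gᴴ) := by noncomm_ring
    rw [h1, hgg, one_mul, mul_one]
    exact hX
  obtain ⟨H', hH'⟩ : ∃ H', H' = gᴴ * (mt v * H * mt v⁻¹) * g := ⟨_, rfl⟩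
  have hvn : ∀ X ∈ L, mt v * X * mt v⁻¹ ∈ L := fun X hX => normal_of_T hO hL hT hTL hvT hX
  have hvn' : ∀ X ∈ L, mt v⁻¹ * X * mt v ∈ L := by
    intro X hX
    have h1 := normal_of_T hO hL hT hTL ((Fx Om T).inv_mem hvT) hX
    rwa [inv_inv] at h1
  have hH'M : H' ∈ M := by rw [hH']; exact hmM _ (hvn H hHL)
  have hH'w : H' = w * dg h * wi := by
    rw [hH', hw, hwi, hH]
    noncomm_ring
  have hH'c : H' * dg h = dg h * H' := by
    have h1 := congrArg (fun Z => gᴴ * Z * g) hcomm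
    beta_reduce at h1
    rw [hH] at h1
    have e1 : gᴴ * (mt v * (g * dg h * gᴴ) * mt v⁻¹ * (g * dg h * gᴴ)) * g =
        H' * dg h * (gᴴ * g) := by
      rw [hH', hH]
      noncomm_ring
    have e2 : gᴴ * (g * dg h * gᴴ * (mt v * (g * dg h * gᴴ) * mt v⁻¹)) * g =
        (gᴴ * g) * dg h * H' := by
      rw [hH', hH]
      noncomm_ring
    rw [e1, e2, hc.g1, mul_one, one_mul] at h1
    exact h1
  obtain ⟨x', hx', -⟩ := hMreg H' hH'M hH'c
  have hH'h : H'ᴴ = H' := by
    rw [hH'w, conjTranspose_mul, conjTranspose_mul, hdg, hwH, ← hwH, conjTranspose_conjTranspose,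
      ← mul_assoc]
  obtain ⟨h', hh'⟩ : ∃ h' : B → ℝ, H' = dg h' := by
    refine ⟨fun b => (x' b).re, ?_⟩
    rw [hx'] at hH'h ⊢
    rw [diagonal_conjTranspose] at hH'h
    unfold dg
    congr 1
    funext b
    have h1 := congrFun (diagonal_injective hH'h) b
    exact (Complex.conj_eq_iff_re.1 h1).symm
  have hwh : w * dg h = dg h' * w := by
    rw [← hh', hH'w, mul_assoc, hwiw, mul_one]
  have hwn : ∀ X ∈ M, wi * X * w ∈ M := by
    intro X hX
    rw [hM, mem_cjL] at hX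
    have h1 := hmM _ (hvn' _ hX)
    have h2 : gᴴ * (mt v⁻¹ * (g * X * gᴴ) * mt v) * g = wi * X * w := by
      rw [hw, hwi]
      noncomm_ring
    rw [← h2]
    exact h1
  have h2nd' : ∀ X ∈ M, Xᴴ = -X → trH (dg h) ((dg h' * X - X * dg h') * X -
      X * (dg h' * X - X * dg h')) ≤ 0 := by
    intro X hX hXs
    rw [hM, mem_cjL] at hX
    have hXs' : (g * X * gᴴ)ᴴ = -(g * X * gᴴ) := by
      rw [conjTranspose_mul, conjTranspose_mul, conjTranspose_conjTranspose, hXs]
      noncomm_ring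
    have h1 := h2nd _ hX hXs'
    have h3 : mt v * H * mt v⁻¹ = g * dg h' * gᴴ := by
      rw [← hh', hH']
      calc mt v * H * mt v⁻¹ = (g * gᴴ) * (mt v * H * mt v⁻¹) * (g * gᴴ) := by
            rw [hgg, one_mul, mul_one]
        _ = _ := by noncomm_ring
    rw [h3, hH, trH_apply] at h1
    rw [trH_apply]
    have hmm : ∀ P Q : Matrix B B ℂ, (g * P * gᴴ) * (g * Q * gᴴ) = g * (P * Q) * gᴴ := by
      intro P Q
      calc (g * P * gᴴ) * (g * Q * gᴴ) = g * P * (gᴴ * g) * Q * gᴴ := by noncomm_ring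
        _ = _ := by rw [hc.g1]; noncomm_ring
    have hms : ∀ P Q : Matrix B B ℂ, g * P * gᴴ - g * Q * gᴴ = g * (P - Q) * gᴴ := by
      intro P Q
      noncomm_ring
    rw [hmm, hmm, hms, hmm, hmm, hms, hmm, trace_mul_comm, ← mul_assoc, hc.g1, one_mul] at h1
    exact h1
  have hch := chamber_prop hMbr hMadj hMh (by rw [← hh']; exact hH'M) hMreg hwiw hwn hwh h2nd'
  have hst : StabP M w := by
    rw [hM, hw]
    exact (stabP_of_T hO hL hT hvT).cj hc.g1
  have hst' : StabP M wi := by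
    rw [hM, hwi]
    exact (stabP_of_T hO hL hT ((Fx Om T).inv_mem hvT)).cj hc.g1
  have heq := same_order hMbr hMh hMreg hwiw hwh hch hst'
  rw [heq] at hwh
  obtain ⟨a, ha, ha'⟩ := diag_of_comm hMbr hMh hMreg hwiw hwh hst
  have ha0 : ∀ b, a b ≠ 0 := by
    intro b hb
    have h1 := congrFun (congrFun hwwi b) b
    rw [ha, diagonal_mul, hb, zero_mul, Matrix.one_apply_eq] at h1
    exact zero_ne_one h1
  refine ⟨fun b => Units.mk0 (a b) (ha0 b), ?_, fun b b' hbb => ?_⟩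
  · rw [← hw, ha]
    rfl
  · apply Units.ext
    exact ha' b b' hbb

end main

end

end Pool.Agent.NH32
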