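import Mathlib
import Pool.Agent.NH32.Rig

/-!
# Types of tensors
-/

set_option linter.unusedSectionVars false

namespace Pool.Agent.NH32

open Matrix Equiv Module NormedSpace

noncomputable section

variable {B : Type} [Fintype B] [DecidableEq B] {L : Submodule ℂ (Matrix B B ℂ)}
  {Om : Matrix B B ℂ}

/-- The homomorphism given by the characters of the coordinates. -/
def pcH (M : Submodule ℂ (Matrix B B ℂ)) (a : B → ℂˣ) : (B → ℤ) →+ PP M where
  toFun n := ∑ b, n b • pc M a b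
  map_zero' := by simp
  map_add' := by
    intro m n
    rw [← Finset.sum_add_distrib]
    refine Finset.sum_congr rfl fun b _ => ?_
    rw [Pi.add_apply]
    exact _root_.add_smul (m b) (n b) (pc M a b)

theorem pcH_single (M : Submodule ℂ (Matrix B B ℂ)) (a : B → ℂˣ) (b : B) :
    pcH M a (Pi.single b 1) = pc M a b := by
  change ∑ b', (Pi.single b (1 : ℤ) : B → ℤ) b' • pc M a b' = _
  rw [Finset.sum_eq_single b]
  · rw [Pi.single_eq_same, one_smul]
  · intro b' _ hb'
    rw [Pi.single_eq_of_ne hb', zero_smul]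
  · intro h
    exact absurd (Finset.mem_univ _) h

/-- The type of an index tuple. -/
def eI {κ : Type} [Fintype κ] (I : κ → B) : B → ℤ := ∑ k, Pi.single (I k) 1

theorem pcH_eI (M : Submodule ℂ (Matrix B B ℂ)) (a : B → ℂˣ) {κ : Type} [Fintype κ]
    (I : κ → B) : pcH M a (eI I) = ∑ k, pc M a (I k) := by
  unfold eI
  rw [map_sum]
  exact Finset.sum_congr rfl fun k _ => pcH_single M a (I k)

/-- The coordinates are not separated by the centre of the commutant. -/
def SimZ (L : Submodule ℂ (Matrix B B ℂ)) (g : Matrix B B ℂ) (b b' : B) : Prop :=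
  ∀ z : B → ℂ, g * diagonal z * gᴴ ∈ ZM L → z b = z b'

/-- The trivial types. -/
def N0 (L : Submodule ℂ (Matrix B B ℂ)) (Om g : Matrix B B ℂ) : AddSubgroup (B → ℤ) :=
  AddSubgroup.closure ({n | ∃ b b', SimZ L g b b' ∧ n = Pi.single b 1 - Pi.single b' 1} ∪
    {n | ∃ b b', (gᵀ * Om * g) b b' ≠ 0 ∧ n = Pi.single b 1 + Pi.single b' 1})

section facts

variable {g : Matrix B B ℂ} {h : B → ℝ} (hc : Crt L g h) {a : B → ℂˣ}
  (ha : ∀ b b', h b = h b' → a b = a b')
  (hn : ∀ X ∈ cjL g gᴴ L, diagonal (fun b => (a b : ℂ)) * X *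
    diagonal (fun b => ((a b)⁻¹ : ℂˣ).1) ∈ cjL g gᴴ L)

include hc ha in
theorem pc_of_h {b b' : B} (hbb : h b = h b') : pc (cjL g gᴴ L) a b = pc (cjL g gᴴ L) a b' := by
  refine Prod.ext ?_ ?_
  · funext x
    change x.1 b = x.1 b'
    obtain ⟨y, hy, hy'⟩ := hc.reg _ x.2 (by
      unfold dg
      rw [diagonal_mul_diagonal, diagonal_mul_diagonal]
      congr 1
      funext c
      ring)
    rw [diagonal_injective hy]
    exact hy' b b' hbb
  · change Additive.ofMul (a b) = Additive.ofMul (a b')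
    rw [ha b b' hbb]

include hc ha hn in
/-- Coordinates which are not separated by the centre of the commutant. -/
theorem pc_of_simZ (hbr : BrC L) {b b' : B} (hbb : SimZ L g b b') :
    pc (cjL g gᴴ L) a b - pc (cjL g gᴴ L) a b' ∈ QQ (cjL g gᴴ L) a := by
  classical
  have hgg : g * gᴴ = 1 := mul_eq_one_comm.1 hc.g1
  obtain ⟨M, hM⟩ : ∃ M, M = cjL g gᴴ L := ⟨_, rfl⟩
  rw [← hM] at hn ⊢
  have hMbr : BrC M := by rw [hM]; exact cjL_br hbr hc.g1
  let f : B → ℂ := fun c => if pc M a c - pc M a b ∈ QQ M a then 1 else 0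
  have hf : ∀ c c', pc M a c - pc M a c' ∈ QQ M a → f c = f c' := by
    intro c c' hcc
    have h1 : pc M a c - pc M a b ∈ QQ M a ↔ pc M a c' - pc M a b ∈ QQ M a := by
      constructor
      · intro h2
        have h3 : pc M a c' - pc M a b = (pc M a c - pc M a b) - (pc M a c - pc M a c') := by abel
        rw [h3]
        exact (QQ M a).sub_mem h2 hcc
      · intro h2
        have h3 : pc M a c - pc M a b = (pc M a c' - pc M a b) + (pc M a c - pc M a c') := by abel
        rw [h3]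
        exact (QQ M a).add_mem h2 hcc
    change (if pc M a c - pc M a b ∈ QQ M a then (1 : ℂ) else 0) =
      if pc M a c' - pc M a b ∈ QQ M a then 1 else 0
    by_cases h2 : pc M a c - pc M a b ∈ QQ M a
    · rw [if_pos h2, if_pos (h1.1 h2)]
    · rw [if_neg h2, if_neg (fun h3 => h2 (h1.2 h3))]
  have hcomm : ∀ N : Matrix B B ℂ, (∀ c c', N c c' ≠ 0 → f c = f c') →
      N * diagonal f = diagonal f * N := by
    intro N hN
    ext c c'
    rw [mul_diagonal, diagonal_mul]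
    by_cases h1 : N c c' = 0
    · rw [h1, zero_mul, mul_zero]
    · rw [hN c c' h1, mul_comm]
  have hback : ∀ N : Matrix B B ℂ, (gᴴ * N * g) * diagonal f = diagonal f * (gᴴ * N * g) →
      N * (g * diagonal f * gᴴ) = (g * diagonal f * gᴴ) * N := by
    intro N hN
    have h1 := congrArg (fun Z => g * Z * gᴴ) hN
    beta_reduce at h1
    have e1 : g * (gᴴ * N * g * diagonal f) * gᴴ = (g * gᴴ) * N * (g * diagonal f * gᴴ) := by
      noncomm_ring
    have e2 : g * (diagonal f * (gᴴ * N * g)) * gᴴ = (g * diagonal f * gᴴ) * N * (g * gᴴ) := by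
      noncomm_ring
    rw [e1, e2, hgg, one_mul, mul_one] at h1
    exact h1
  have hmem : g * diagonal f * gᴴ ∈ ZM L := by
    constructor
    · intro X hX
      refine hback X (hcomm _ fun c c' hcc => hf c c' ?_)
      have hXM : gᴴ * X * g ∈ M := by
        rw [hM, mem_cjL]
        have h1 : g * (gᴴ * X * g) * gᴴ = (g * gᴴ) * X * (g * gᴴ) := by noncomm_ring
        rw [h1, hgg, one_mul, mul_one]
        exact hX
      obtain ⟨Y, hY, hYc, hYh⟩ := exists_hmg hMbr hn hXM c c'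
      refine AddSubgroup.subset_closure ⟨Y, hY, fun h0 => hcc ?_, hYh⟩
      rw [← hYc, h0, Matrix.zero_apply]
    · intro N hN
      refine hback N (hcomm _ fun c c' hcc => ?_)
      have h1 : (gᴴ * N * g) * dg h = dg h * (gᴴ * N * g) := by
        have h2 := hN _ hc.mem
        have h3 := congrArg (fun Z => gᴴ * Z * g) h2
        beta_reduce at h3
        have e1 : gᴴ * (g * dg h * gᴴ * N) * g = (gᴴ * g) * dg h * (gᴴ * N * g) := by
          noncomm_ring
        have e2 : gᴴ * (N * (g * dg h * gᴴ)) * g = (gᴴ * N * g) * dg h * (gᴴ * g) := by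
          noncomm_ring
        rw [e1, e2, hc.g1, one_mul, mul_one] at h3
        exact h3.symm
      have h2 := dg_comm_zer h1 c c' hcc
      refine hf c c' ?_
      have h3 : pc M a c = pc M a c' := by
        rw [hM]
        exact pc_of_h hc ha h2
      rw [h3, sub_self]
      exact (QQ M a).zero_mem
  have h1 := hbb f hmem
  have h2 : f b = 1 := by
    change (if pc M a b - pc M a b ∈ QQ M a then (1 : ℂ) else 0) = 1
    rw [if_pos]
    rw [sub_self]
    exact (QQ M a).zero_mem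
  rw [h2] at h1
  by_contra hcon
  have h3 : f b' = 0 := by
    change (if pc M a b' - pc M a b ∈ QQ M a then (1 : ℂ) else 0) = 0
    rw [if_neg]
    intro h4
    apply hcon
    rw [← neg_sub]
    exact (QQ M a).neg_mem h4
  rw [h3] at h1
  exact one_ne_zero h1

include hc in
/-- Coordinates which are paired by the form. -/
theorem pc_of_Om (hsp : ∀ X ∈ L, Xᵀ * Om + Om * X = 0) {v : Matrix B B ℂ}
    (hv : gᴴ * v * g = diagonal (fun b => (a b : ℂ))) (hvs : vᵀ * Om * v = Om) {b b' : B}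
    (hbb : (gᵀ * Om * g) b b' ≠ 0) :
    pc (cjL g gᴴ L) a b + pc (cjL g gᴴ L) a b' = 0 := by
  have hgg : g * gᴴ = 1 := mul_eq_one_comm.1 hc.g1
  have hgt : gᵀ * (gᴴ)ᵀ = 1 := by rw [← transpose_mul, hc.g1, transpose_one]
  have hgt' : (gᴴ)ᵀ * gᵀ = 1 := mul_eq_one_comm.1 hgt
  refine Prod.ext ?_ ?_
  · funext x
    change x.1 b + x.1 b' = 0
    have h1 := hsp _ x.2
    have h2 := congrArg (fun Z => gᵀ * Z * g) h1
    beta_reduce at h2
    rw [mul_zero, zero_mul, transpose_mul, transpose_mul, diagonal_transpose] at h2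
    have e1 : gᵀ * ((gᴴ)ᵀ * (diagonal x.1 * gᵀ) * Om + Om * (g * diagonal x.1 * gᴴ)) * g =
        (gᵀ * (gᴴ)ᵀ) * diagonal x.1 * (gᵀ * Om * g) +
        (gᵀ * Om * g) * diagonal x.1 * (gᴴ * g) := by noncomm_ring
    rw [e1, hgt, hc.g1, one_mul, mul_one] at h2
    have h3 := congrFun (congrFun h2 b) b'
    rw [Matrix.add_apply, diagonal_mul, mul_diagonal, Matrix.zero_apply] at h3
    have h4 : (x.1 b + x.1 b') * (gᵀ * Om * g) b b' = 0 := by linear_combination h3
    exact (mul_eq_zero.1 h4).resolve_right hbb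
  · change Additive.ofMul (a b) + Additive.ofMul (a b') = 0
    rw [← ofMul_mul, ofMul_eq_zero]
    apply Units.ext
    rw [Units.val_mul, Units.val_one]
    have h1 := congrArg (fun Z => gᵀ * Z * g) hvs
    beta_reduce at h1
    have e0 : v = g * diagonal (fun b => (a b : ℂ)) * gᴴ := by
      rw [← hv]
      calc v = (g * gᴴ) * v * (g * gᴴ) := by rw [hgg, one_mul, mul_one]
        _ = _ := by noncomm_ring
    have e1 : gᵀ * (vᵀ * Om * v) * g = diagonal (fun b => (a b : ℂ)) * (gᵀ * Om * g) *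
        diagonal (fun b => (a b : ℂ)) := by
      rw [e0, transpose_mul, transpose_mul, diagonal_transpose]
      calc gᵀ * ((gᴴ)ᵀ * (diagonal (fun b => (a b : ℂ)) * gᵀ) * Om *
            (g * diagonal (fun b => (a b : ℂ)) * gᴴ)) * g
          = (gᵀ * (gᴴ)ᵀ) * diagonal (fun b => (a b : ℂ)) * (gᵀ * Om * g) *
            diagonal (fun b => (a b : ℂ)) * (gᴴ * g) := by noncomm_ring
        _ = _ := by rw [hgt, hc.g1, one_mul, mul_one]
    rw [e1] at h1
    have h3 := congrFun (congrFun h1 b) b'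
    rw [mul_diagonal, diagonal_mul] at h3
    have h4 : ((a b : ℂ) * (a b' : ℂ) - 1) * (gᵀ * Om * g) b b' = 0 := by linear_combination h3
    exact sub_eq_zero.1 ((mul_eq_zero.1 h4).resolve_right hbb)

include hc in
/-- The weights of invariant tensors vanish. -/
theorem fst_eq_zero {κ : Type} [Fintype κ] [DecidableEq κ] {x : (κ → B) → ℂ}
    (hx : x ∈ InvL L κ) {I : κ → B} (hI : (kp κ gᴴ *ᵥ x) I ≠ 0) :
    (pcH (cjL g gᴴ L) a (eI I)).1 = 0 := by
  rw [pcH_eI]
  funext t
  have h1 : (∑ k, pc (cjL g gᴴ L) a (I k)).1 t = ∑ k, t.1 (I k) := by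
    let φ : PP (cjL g gᴴ L) →+ ℂ :=
      { toFun := fun s => s.1 t
        map_zero' := rfl
        map_add' := fun _ _ => rfl }
    exact map_sum φ _ _
  rw [h1]
  have h2 := hx _ t.2
  have h3 : kp κ gᴴ * dm κ (g * diagonal t.1 * gᴴ) = dm κ (diagonal t.1) * kp κ gᴴ :=
    kp_mul_dm (by
      calc gᴴ * (g * diagonal t.1 * gᴴ) = (gᴴ * g) * diagonal t.1 * gᴴ := by noncomm_ring
        _ = _ := by rw [hc.g1, one_mul])
  have h4 : dm κ (diagonal t.1) *ᵥ (kp κ gᴴ *ᵥ x) = 0 := by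
    rw [mulVec_mulVec, ← h3, ← mulVec_mulVec, h2, mulVec_zero]
  have h5 := congrFun h4 I
  rw [dm_diagonal, Pi.zero_apply] at h5
  exact (mul_eq_zero.1 h5).resolve_right hI

theorem kp_conj_diag (hc1 : gᴴ * g = 1) {κ : Type} [Fintype κ] [DecidableEq κ]
    {v : Matrix B B ℂ} {d : B → ℂ} (hv : gᴴ * v * g = diagonal d) (x : (κ → B) → ℂ) (I : κ → B) :
    (kp κ gᴴ *ᵥ (kp κ v *ᵥ x)) I = (∏ k, d (I k)) * (kp κ gᴴ *ᵥ x) I := by
  have hgg : g * gᴴ = 1 := mul_eq_one_comm.1 hc1
  rw [← kp_diagonal, ← hv, kp_mul, kp_mul]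
  have h0 : kp κ g * kp κ gᴴ = 1 := by rw [← kp_mul, hgg, kp_one]
  have h1 : (kp κ gᴴ * kp κ v * kp κ g) *ᵥ (kp κ gᴴ *ᵥ x) = kp κ gᴴ *ᵥ (kp κ v *ᵥ x) := by
    rw [mulVec_mulVec, mulVec_mulVec, mul_assoc (kp κ gᴴ * kp κ v), h0, mul_one]
  rw [h1]

end facts

section main

variable (hO : IsOm Om) (hL : LD Om L)
  {T : ∀ (κ : Type) [Fintype κ] [DecidableEq κ], Submodule ℂ ((κ → B) → ℂ)}
  (hT : ∀ (a b : ℕ) (c : (Fin a ⊕ Fin b → B) → ℂ), IsAlt2 c →
    (∀ X ∈ L, dm (Fin a ⊕ Fin b) X *ᵥ c = 0) → c ∈ T (Fin a ⊕ Fin b))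
  (hTL : ∀ (κ : Type) [Fintype κ] [DecidableEq κ], ∀ t ∈ T κ, ∀ X ∈ L, dm κ X *ᵥ t = 0)

variable (T) in
/-- The types of the tensors of a system. -/
def Occ (g : Matrix B B ℂ) : Set (B → ℤ) := {n | ∃ (κ : Type) (_ : Fintype κ) (_ : DecidableEq κ)
  (x : (κ → B) → ℂ) (I : κ → B), x ∈ T κ ∧ (kp κ gᴴ *ᵥ x) I ≠ 0 ∧ n = eI I}

include hO hL hT hTL in
/-- **Rigidity**: the group fixing the system fixes the invariant tensors whose types are generated
by the types of the tensors of the system. -/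
theorem fix_of_rich {g : Matrix B B ℂ} {h : B → ℝ} (hc : Crt L g h) {κ : Type} [Fintype κ]
    [DecidableEq κ] {x : (κ → B) → ℂ} (hx : x ∈ InvL L κ)
    (hI : ∀ I, (kp κ gᴴ *ᵥ x) I ≠ 0 → eI I ∈ N0 L Om g ⊔ AddSubgroup.closure (Occ T g))
    {u : USp Om} (hu : u ∈ Fx Om T) : kp κ (mt u) *ᵥ x = x := by
  have hgg : g * gᴴ = 1 := mul_eq_one_comm.1 hc.g1
  obtain ⟨k, hk, a, ha, ha'⟩ := exists_diag_form hO hL hT hTL hc hu
  obtain ⟨v, hv⟩ : ∃ v, v = k⁻¹ * u := ⟨_, rfl⟩
  rw [← hv] at ha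
  have hvT : v ∈ Fx Om T := by
    rw [hv]
    exact (Fx Om T).mul_mem ((Fx Om T).inv_mem (KK_le hTL hk)) hu
  have hai : gᴴ * mt v⁻¹ * g = diagonal (fun b => ((a b)⁻¹ : ℂˣ).1) := by
    have h1 : (gᴴ * mt v⁻¹ * g) * diagonal (fun b => (a b : ℂ)) = 1 := by
      rw [← ha]
      calc gᴴ * mt v⁻¹ * g * (gᴴ * mt v * g) = gᴴ * mt v⁻¹ * (g * gᴴ) * mt v * g := by
            noncomm_ring
        _ = gᴴ * (mt v⁻¹ * mt v) * g := by rw [hgg]; noncomm_ring
        _ = 1 := by rw [mt_inv_mul, mul_one, hc.g1]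
    have h2 : diagonal (fun b => (a b : ℂ)) * diagonal (fun b => ((a b)⁻¹ : ℂˣ).1) = 1 := by
      rw [diagonal_mul_diagonal, ← diagonal_one]
      congr 1
      funext b
      rw [← Units.val_mul, mul_inv_cancel, Units.val_one]
    calc gᴴ * mt v⁻¹ * g = (gᴴ * mt v⁻¹ * g) * (diagonal (fun b => (a b : ℂ)) *
          diagonal (fun b => ((a b)⁻¹ : ℂˣ).1)) := by rw [h2, mul_one]
      _ = _ := by rw [← mul_assoc, h1, one_mul]
  have hn : ∀ X ∈ cjL g gᴴ L, diagonal (fun b => (a b : ℂ)) * X *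
      diagonal (fun b => ((a b)⁻¹ : ℂˣ).1) ∈ cjL g gᴴ L := by
    intro X hX
    rw [mem_cjL] at hX ⊢
    have h1 := normal_of_T hO hL hT hTL hvT hX
    rw [← ha, ← hai]
    have h2 : g * (gᴴ * mt v * g * X * (gᴴ * mt v⁻¹ * g)) * gᴴ =
        (g * gᴴ) * (mt v * (g * X * gᴴ) * mt v⁻¹) * (g * gᴴ) := by noncomm_ring
    rw [h2, hgg, one_mul, mul_one]
    exact h1
  obtain ⟨M, hM⟩ : ∃ M, M = cjL g gᴴ L := ⟨_, rfl⟩
  have hMbr : BrC M := by rw [hM]; exact cjL_br hL.br hc.g1
  have hMadj : ∀ X ∈ M, Xᴴ ∈ M := by rw [hM]; exact cjL_adj hL.adj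
  have hMh : dg h ∈ M := by rw [hM]; exact hc.mem
  have hMreg : Reg M h := by rw [hM]; exact hc.reg
  -- the kernel subgroup
  have hN0 : N0 L Om g ≤ (QQ M a).comap (pcH M a) := by
    unfold N0
    rw [AddSubgroup.closure_le]
    rintro n (⟨b, b', hbb, rfl⟩ | ⟨b, b', hbb, rfl⟩)
    · change pcH M a _ ∈ QQ M a
      rw [map_sub, pcH_single, pcH_single, hM]
      exact pc_of_simZ hc ha' hn hL.br hbb
    · change pcH M a _ ∈ QQ M a
      rw [map_add, pcH_single, pcH_single, hM, pc_of_Om hc hL.sp ha (mt_sp v) hbb]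
      exact (QQ _ a).zero_mem
  have hOcc : AddSubgroup.closure (Occ T g) ≤ (QQ M a).comap (pcH M a) := by
    rw [AddSubgroup.closure_le]
    rintro n ⟨κ', i1, i2, y, J, hy, hJ, rfl⟩
    change pcH M a (eI J) ∈ QQ M a
    have h1 : (pcH M a (eI J)).1 = 0 := by
      rw [hM]
      exact fst_eq_zero hc (hTL κ' y hy) hJ
    have h2 : (pcH M a (eI J)).2 = 0 := by
      rw [pcH_eI]
      have h3 : (∑ k, pc M a (J k)).2 = Additive.ofMul (∏ k, a (J k)) := by
        let φ : PP M →+ Additive ℂˣ :=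
          { toFun := fun s => s.2
            map_zero' := rfl
            map_add' := fun _ _ => rfl }
        have h4 := map_sum φ (fun k => pc M a (J k)) Finset.univ
        refine h4.trans ?_
        exact (ofMul_prod _ _).symm
      rw [h3, ofMul_eq_zero]
      apply Units.ext
      rw [Units.coe_prod, Units.val_one]
      have h4 := kp_conj_diag hc.g1 ha y J
      rw [hvT κ' y hy] at h4
      have h5 : (1 - ∏ k, ((a (J k) : ℂˣ) : ℂ)) * (kp κ' gᴴ *ᵥ y) J = 0 := by
        linear_combination h4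
      exact (sub_eq_zero.1 ((mul_eq_zero.1 h5).resolve_right hJ)).symm
    have h3 : pcH M a (eI J) = 0 := Prod.ext h1 h2
    rw [h3]
    exact (QQ M a).zero_mem
  -- the tensor is fixed
  have hvx : kp κ (mt v) *ᵥ x = x := by
    have h1 : kp κ gᴴ *ᵥ (kp κ (mt v) *ᵥ x) = kp κ gᴴ *ᵥ x := by
      funext I
      rw [kp_conj_diag hc.g1 ha x I]
      by_cases hI0 : (kp κ gᴴ *ᵥ x) I = 0
      · rw [hI0, mul_zero]
      · have h2 : pcH M a (eI I) ∈ QQ M a := (sup_le hN0 hOcc) (hI I hI0)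
        have h3 : (pcH M a (eI I)).1 = 0 := by
          rw [hM]
          exact fst_eq_zero hc hx hI0
        have h4 := QQ_eq_zero hMbr hMadj hMh hMreg h2 h3
        have h5 : Additive.ofMul (∏ k, a (I k)) = 0 := by
          have h6 := congrArg Prod.snd h4
          rw [pcH_eI] at h6
          let φ : PP M →+ Additive ℂˣ :=
            { toFun := fun s => s.2
              map_zero' := rfl
              map_add' := fun _ _ => rfl }
          have h7 := map_sum φ (fun k => pc M a (I k)) Finset.univ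
          rw [ofMul_prod]
          exact h7.symm.trans h6
        rw [ofMul_eq_zero] at h5
        have h6 := congrArg (fun z : ℂˣ => (z : ℂ)) h5
        beta_reduce at h6
        rw [Units.coe_prod, Units.val_one] at h6
        rw [h6, one_mul]
    have h0 : ∀ y : (κ → B) → ℂ, kp κ g *ᵥ (kp κ gᴴ *ᵥ y) = y := by
      intro y
      rw [mulVec_mulVec, ← kp_mul, hgg, kp_one, one_mulVec]
    rw [← h0 (kp κ (mt v) *ᵥ x), h1, h0]
  have h1 : u = k * v := by rw [hv, mul_inv_cancel_left]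
  rw [h1, mt_mul, kp_mul, ← mulVec_mulVec, hvx]
  exact hk κ x hx

end main

end

end Pool.Agent.NH32
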