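import Mathlib
import Pool.Agent.NH32.Fix

/-!
# Operations on invariant tensors
-/

set_option linter.unusedSectionVars false

namespace Pool.Agent.NH32

open Matrix Equiv Module

noncomputable section

variable {B : Type} [Fintype B] [DecidableEq B] {L : Submodule ℂ (Matrix B B ℂ)}
  {Om : Matrix B B ℂ}

/-- The product of two tensors. -/
def tp {κ κ' : Type} (t : (κ → B) → ℂ) (t' : (κ' → B) → ℂ) : (κ ⊕ κ' → B) → ℂ :=
  fun I => t (fun k => I (Sum.inl k)) * t' (fun k => I (Sum.inr k))

theorem dm_tp {κ κ' : Type} [Fintype κ] [DecidableEq κ] [Fintype κ'] [DecidableEq κ']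
    (X : Matrix B B ℂ) (t : (κ → B) → ℂ) (t' : (κ' → B) → ℂ) :
    dm (κ ⊕ κ') X *ᵥ tp t t' = tp (dm κ X *ᵥ t) t' + tp t (dm κ' X *ᵥ t') := by
  funext I
  rw [Pi.add_apply]
  unfold tp
  rw [dm_mulVec_apply, dm_mulVec_apply, dm_mulVec_apply, Fintype.sum_sum_type, Finset.sum_mul,
    Finset.mul_sum]
  congr 1
  · refine Finset.sum_congr rfl fun k _ => ?_
    rw [Finset.sum_mul]
    refine Finset.sum_congr rfl fun j _ => ?_
    have h1 : (fun l => Function.update I (Sum.inl k) j (Sum.inl l)) =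
        Function.update (fun l => I (Sum.inl l)) k j := by
      funext l
      by_cases hl : l = k
      · subst hl
        rw [Function.update_self, Function.update_self]
      · rw [Function.update_of_ne hl, Function.update_of_ne (fun h => hl (Sum.inl_injective h))]
    have h2 : (fun l => Function.update I (Sum.inl k) j (Sum.inr l)) = fun l => I (Sum.inr l) := by
      funext l
      rw [Function.update_of_ne (by simp)]
    rw [h1, h2]
    ring
  · refine Finset.sum_congr rfl fun k _ => ?_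
    rw [Finset.mul_sum]
    refine Finset.sum_congr rfl fun j _ => ?_
    have h1 : (fun l => Function.update I (Sum.inr k) j (Sum.inr l)) =
        Function.update (fun l => I (Sum.inr l)) k j := by
      funext l
      by_cases hl : l = k
      · subst hl
        rw [Function.update_self, Function.update_self]
      · rw [Function.update_of_ne hl, Function.update_of_ne (fun h => hl (Sum.inr_injective h))]
    have h2 : (fun l => Function.update I (Sum.inr k) j (Sum.inl l)) = fun l => I (Sum.inl l) := by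
      funext l
      rw [Function.update_of_ne (by simp)]
    rw [h1, h2]
    ring

theorem InvL_tp {κ κ' : Type} [Fintype κ] [DecidableEq κ] [Fintype κ'] [DecidableEq κ']
    {t : (κ → B) → ℂ} {t' : (κ' → B) → ℂ} (ht : t ∈ InvL L κ) (ht' : t' ∈ InvL L κ') :
    tp t t' ∈ InvL L (κ ⊕ κ') := by
  intro X hX
  rw [dm_tp, ht X hX, ht' X hX]
  funext I
  simp [tp]

/-- The composition of tensors. -/
def cmp (M : Matrix B B ℂ) {κ κ' : Type} [Fintype κ] [DecidableEq κ] [Fintype κ'] [DecidableEq κ']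
    (ψ : (κ ⊕ κ' → B) → ℂ) (t : (κ' → B) → ℂ) : (κ → B) → ℂ :=
  fun I => ∑ J : κ' → B, ∑ K : κ' → B, kp κ' M K J * ψ (Sum.elim I K) * t J

theorem cmp_eq (M : Matrix B B ℂ) {κ κ' : Type} [Fintype κ] [DecidableEq κ] [Fintype κ']
    [DecidableEq κ'] (ψ : (κ ⊕ κ' → B) → ℂ) (t : (κ' → B) → ℂ) :
    cmp M ψ t = (of fun I K => ψ (Sum.elim I K)) *ᵥ (kp κ' M *ᵥ t) := by
  funext I
  rw [mvA]
  unfold cmp
  rw [Finset.sum_comm]
  refine Finset.sum_congr rfl fun K _ => ?_
  rw [mvA, Finset.mul_sum]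
  refine Finset.sum_congr rfl fun J _ => ?_
  change kp κ' M K J * ψ (Sum.elim I K) * t J = ψ (Sum.elim I K) * (kp κ' M K J * t J)
  ring

/-- Invariance of a tensor, as a property of the matrix. -/
theorem dm_matrix {κ κ' : Type} [Fintype κ] [DecidableEq κ] [Fintype κ'] [DecidableEq κ']
    {X : Matrix B B ℂ} {ψ : (κ ⊕ κ' → B) → ℂ} (hψ : dm (κ ⊕ κ') X *ᵥ ψ = 0) :
    dm κ X * (of fun I K => ψ (Sum.elim I K)) + (of fun I K => ψ (Sum.elim I K)) * dm κ' Xᵀ =
      0 := by
  ext I K
  have h1 := congrFun hψ (Sum.elim I K)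
  rw [dm_mulVec_apply, Fintype.sum_sum_type] at h1
  rw [Matrix.add_apply, Matrix.zero_apply]
  rw [Pi.zero_apply] at h1
  rw [← h1]
  congr 1
  · have h2 : (dm κ X * (of fun I K => ψ (Sum.elim I K))) I K =
        (dm κ X *ᵥ fun I => ψ (Sum.elim I K)) I := by
      rw [Matrix.mul_apply, mvA]
      rfl
    rw [h2, dm_mulVec_apply]
    refine Finset.sum_congr rfl fun k _ => Finset.sum_congr rfl fun j _ => ?_
    have h3 : Sum.elim (Function.update I k j) K = Function.update (Sum.elim I K) (Sum.inl k) j := by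
      funext l
      rcases l with l | l
      · by_cases hl : l = k
        · subst hl
          simp
        · rw [Sum.elim_inl, Function.update_of_ne hl,
            Function.update_of_ne (fun h => hl (Sum.inl_injective h)), Sum.elim_inl]
      · rw [Sum.elim_inr, Function.update_of_ne (by simp), Sum.elim_inr]
    rw [Sum.elim_inl, h3]
  · have h2 : ((of fun I K => ψ (Sum.elim I K)) * dm κ' Xᵀ) I K =
        (dm κ' X *ᵥ fun K => ψ (Sum.elim I K)) K := by
      rw [Matrix.mul_apply, mvA]
      refine Finset.sum_congr rfl fun J _ => ?_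
      have h3 : dm κ' Xᵀ J K = dm κ' X K J := by
        have h4 : dm κ' Xᵀ = (dm κ' X)ᵀ := by
          unfold dm kd
          rw [transpose_sum]
          refine Finset.sum_congr rfl fun k _ => ?_
          rw [kpp_transpose]
          congr 1
          funext l
          by_cases hl : l = k
          · subst hl
            rw [Function.update_self, Function.update_self]
          · rw [Function.update_of_ne hl, Function.update_of_ne hl, transpose_one]
        rw [h4, transpose_apply]
      rw [h3, of_apply, mul_comm]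
    rw [h2, dm_mulVec_apply]
    refine Finset.sum_congr rfl fun k _ => Finset.sum_congr rfl fun j _ => ?_
    have h3 : Sum.elim I (Function.update K k j) = Function.update (Sum.elim I K) (Sum.inr k) j := by
      funext l
      rcases l with l | l
      · rw [Sum.elim_inl, Function.update_of_ne (by simp), Sum.elim_inl]
      · by_cases hl : l = k
        · subst hl
          simp
        · rw [Sum.elim_inr, Function.update_of_ne hl,
            Function.update_of_ne (fun h => hl (Sum.inr_injective h)), Sum.elim_inr]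
    rw [Sum.elim_inr, h3]

theorem InvL_cmp (hsp : ∀ X ∈ L, Xᵀ * Om + Om * X = 0) {κ κ' : Type} [Fintype κ] [DecidableEq κ]
    [Fintype κ'] [DecidableEq κ'] {ψ : (κ ⊕ κ' → B) → ℂ} {t : (κ' → B) → ℂ}
    (hψ : ψ ∈ InvL L (κ ⊕ κ')) (ht : t ∈ InvL L κ') : cmp Om ψ t ∈ InvL L κ := by
  intro X hX
  rw [cmp_eq]
  have h1 := eq_neg_of_add_eq_zero_left (dm_matrix (hψ X hX))
  have h2 : kp κ' Om * dm κ' (-X) = dm κ' Xᵀ * kp κ' Om := by
    refine kp_mul_dm ?_
    have h3 := eq_neg_of_add_eq_zero_left (hsp X hX)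
    rw [h3, mul_neg]
  rw [mulVec_mulVec, h1, neg_mulVec, ← mulVec_mulVec, mulVec_mulVec _ (dm κ' Xᵀ), ← h2,
    ← mulVec_mulVec, dm_neg, neg_mulVec, ht X hX, neg_zero, mulVec_zero, mulVec_zero, neg_zero]

theorem dm_conj {κ : Type} [Fintype κ] [DecidableEq κ] (X : Matrix B B ℂ) (t : (κ → B) → ℂ) :
    dm κ (X.map (starRingEnd ℂ)) *ᵥ (fun I => starRingEnd ℂ (t I)) =
      fun I => starRingEnd ℂ ((dm κ X *ᵥ t) I) := by
  funext I
  rw [dm_mulVec_apply, dm_mulVec_apply, map_sum]
  refine Finset.sum_congr rfl fun k _ => ?_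
  rw [map_sum]
  refine Finset.sum_congr rfl fun j _ => ?_
  rw [map_mul]
  rfl

/-- The transpose of an element of the Lie algebra. -/
theorem sp_T (hO : IsOm Om) {X : Matrix B B ℂ} (hX : Xᵀ * Om + Om * X = 0) :
    Xᵀ = Om * X * Om := by
  have h3 := eq_neg_of_add_eq_zero_left hX
  have h4 := congrArg (fun Z => Z * Om) h3
  beta_reduce at h4
  rw [mul_assoc, hO.sq, mul_neg, mul_one, neg_mul] at h4
  exact neg_injective h4

theorem InvL_conj (hO : IsOm Om) (hadj : ∀ X ∈ L, Xᴴ ∈ L)
    (hsp : ∀ X ∈ L, Xᵀ * Om + Om * X = 0) {κ : Type} [Fintype κ] [DecidableEq κ]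
    {t : (κ → B) → ℂ} (ht : t ∈ InvL L κ) :
    (kp κ (-Om) *ᵥ fun I => starRingEnd ℂ (t I)) ∈ InvL L κ := by
  intro X hX
  have h1 : (-Om) * ((-(Xᴴ)).map (starRingEnd ℂ)) = X * (-Om) := by
    have h2 : (-(Xᴴ)).map (starRingEnd ℂ) = -Xᵀ := by
      ext i j
      change starRingEnd ℂ (-(starRingEnd ℂ (X j i))) = -(X j i)
      rw [map_neg, Complex.conj_conj]
    rw [h2, sp_T hO (hsp X hX)]
    calc -Om * -(Om * X * Om) = (Om * Om) * X * Om := by noncomm_ring
      _ = X * -Om := by rw [hO.sq]; noncomm_ring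
  rw [mulVec_mulVec, ← kp_mul_dm h1, ← mulVec_mulVec, dm_conj, dm_neg, neg_mulVec,
    ht _ (hadj X hX)]
  have h2 : (fun I : κ → B => starRingEnd ℂ ((-(0 : (κ → B) → ℂ)) I)) = 0 := by
    funext I
    simp
  rw [h2, mulVec_zero]

theorem InvL_inv (hO : IsOm Om) (hsp : ∀ X ∈ L, Xᵀ * Om + Om * X = 0) {κ : Type} [Fintype κ]
    [DecidableEq κ] {t : (κ → B) → ℂ} (ht : ∀ u : USp Om, kp κ (mt u) *ᵥ t = t) :
    t ∈ InvL L κ := fun X hX => kill_of_inv hO ht (hsp X hX)

end

end Pool.Agent.NH32
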