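import Mathlib
import Pool.Agent.NH32.Inv
import Pool.Agent.NH32.Gns

/-!
# Finitely many seeds
-/

set_option linter.unusedSectionVars false

namespace Pool.Agent.NH32

open Matrix Equiv Module

noncomputable section

variable {B : Type} [Fintype B] [DecidableEq B] {L : Submodule ℂ (Matrix B B ℂ)}
  {Om g : Matrix B B ℂ}

theorem eI_elim {κ κ' : Type} [Fintype κ] [Fintype κ'] (I : κ → B) (I' : κ' → B) :
    eI (Sum.elim I I') = eI I + eI I' := by
  unfold eI
  rw [Fintype.sum_sum_type]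
  rfl

theorem eI_sum {κ : Type} [Fintype κ] (I : κ → B) : ∑ b, eI I b = (Fintype.card κ : ℤ) := by
  unfold eI
  simp only [Finset.sum_apply]
  rw [Finset.sum_comm]
  have h1 : ∀ k : κ, ∑ b, (Pi.single (I k) (1 : ℤ) : B → ℤ) b = 1 := by
    intro k
    rw [Finset.sum_eq_single (I k)]
    · rw [Pi.single_eq_same]
    · intro b _ hb
      rw [Pi.single_eq_of_ne hb]
    · intro h
      exact absurd (Finset.mem_univ _) h
  rw [Finset.sum_congr rfl fun k _ => h1 k, Finset.sum_const, nsmul_eq_mul, mul_one,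
    Finset.card_univ]

theorem single_pair (t : B → ℂ) (b : B) :
    ∑ c, (((Pi.single b (1 : ℤ) : B → ℤ) c : ℤ) : ℂ) * t c = t b := by
  rw [Finset.sum_eq_single b]
  · rw [Pi.single_eq_same, Int.cast_one, one_mul]
  · intro c _ hc
    rw [Pi.single_eq_of_ne hc, Int.cast_zero, zero_mul]
  · intro h
    exact absurd (Finset.mem_univ _) h

theorem conj_W (hO : IsOm Om) (g : Matrix B B ℂ) : (-(gᵀ * Om * g)).map (starRingEnd ℂ) =
    -(gᴴ * Om * g.map (starRingEnd ℂ)) := by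
  have h1 : ∀ A : Matrix B B ℂ, (-A).map (starRingEnd ℂ) = -(A.map (starRingEnd ℂ)) := by
    intro A
    ext i j
    rw [map_apply, Matrix.neg_apply, map_neg, Matrix.neg_apply, map_apply]
  rw [h1, Matrix.map_mul, Matrix.map_mul, hO.real]
  rfl

/-- The conjugate of a tensor, in the coordinates. -/
theorem kp_hat (hO : IsOm Om) (hgg : g * gᴴ = 1) {κ : Type} [Fintype κ] [DecidableEq κ]
    (x : (κ → B) → ℂ) :
    kp κ gᴴ *ᵥ (kp κ (-Om) *ᵥ fun I => starRingEnd ℂ (x I)) =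
      kp κ ((-(gᵀ * Om * g)).map (starRingEnd ℂ)) *ᵥ
        fun I => starRingEnd ℂ ((kp κ gᴴ *ᵥ x) I) := by
  have h1 : (fun I => starRingEnd ℂ (x I)) = kp κ (g.map (starRingEnd ℂ)) *ᵥ
      fun I => starRingEnd ℂ ((kp κ gᴴ *ᵥ x) I) := by
    rw [← kp_conj, mulVec_mulVec, ← kp_mul, hgg, kp_one, one_mulVec]
  rw [h1, mulVec_mulVec, mulVec_mulVec, ← kp_mul, ← kp_mul]
  congr 2
  rw [conj_W hO]
  noncomm_ring

theorem eI_add_mem {κ : Type} [Fintype κ] [DecidableEq κ] {I J : κ → B}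
    (h : kp κ ((-(gᵀ * Om * g)).map (starRingEnd ℂ)) I J ≠ 0) : eI I + eI J ∈ N0 L Om g := by
  unfold eI
  rw [← Finset.sum_add_distrib]
  refine AddSubgroup.sum_mem _ fun k _ => ?_
  refine AddSubgroup.subset_closure (Or.inr ⟨I k, J k, fun h0 => h ?_, rfl⟩)
  rw [kp_apply]
  refine Finset.prod_eq_zero (Finset.mem_univ k) ?_
  rw [map_apply, Matrix.neg_apply, h0, neg_zero, map_zero]

/-- The set of the types. -/
def Typ (L : Submodule ℂ (Matrix B B ℂ)) (Om g : Matrix B B ℂ) : Set (B → ℤ) :=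
  {n | ∃ (κ : Type) (_ : Fintype κ) (_ : DecidableEq κ) (x : (κ → B) → ℂ) (I : κ → B),
    x ∈ InvL L κ ∧ (kp κ gᴴ *ᵥ x) I ≠ 0 ∧ n - eI I ∈ N0 L Om g}

theorem Typ_zero : (0 : B → ℤ) ∈ Typ L Om g := by
  refine ⟨Empty, inferInstance, inferInstance, fun _ => 1, fun e => e.elim, ?_, ?_, ?_⟩
  · intro X _
    funext I
    rw [dm_mulVec_apply]
    rfl
  · have h2 : (kp Empty gᴴ *ᵥ fun _ : Empty → B => (1 : ℂ)) (fun e => e.elim) = 1 := by
      rw [mvA]
      have h2 : ∀ J : Empty → B, kp Empty gᴴ (fun e => e.elim) J * 1 = (1 : ℂ) := by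
        intro J
        rw [kp_apply]
        simp
      rw [Finset.sum_congr rfl fun J _ => h2 J]
      simp
    rw [h2]
    exact one_ne_zero
  · have h1 : eI (fun e : Empty => (e.elim : B)) = 0 := by
      unfold eI
      exact Finset.sum_empty
    rw [h1, sub_zero]
    exact (N0 L Om g).zero_mem

theorem Typ_add {m n : B → ℤ} (hm : m ∈ Typ L Om g) (hn : n ∈ Typ L Om g) :
    m + n ∈ Typ L Om g := by
  obtain ⟨κ, i1, i2, x, I, hx, hI, hmI⟩ := hm
  obtain ⟨κ', i3, i4, x', I', hx', hI', hnI⟩ := hn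
  refine ⟨κ ⊕ κ', inferInstance, inferInstance, tp x x', Sum.elim I I', InvL_tp hx hx', ?_, ?_⟩
  · have h1 := kp_prod gᴴ x x' (Sum.elim I I')
    have h2 : (kp (κ ⊕ κ') gᴴ *ᵥ tp x x') (Sum.elim I I') =
        (kp κ gᴴ *ᵥ x) I * (kp κ' gᴴ *ᵥ x') I' := h1
    rw [h2]
    exact mul_ne_zero hI hI'
  · rw [eI_elim]
    have h1 : m + n - (eI I + eI I') = (m - eI I) + (n - eI I') := by abel
    rw [h1]
    exact (N0 L Om g).add_mem hmI hnI

theorem Typ_neg (hO : IsOm Om) (hadj : ∀ X ∈ L, Xᴴ ∈ L) (hsp : ∀ X ∈ L, Xᵀ * Om + Om * X = 0)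
    (hg : gᴴ * g = 1) {n : B → ℤ} (hn : n ∈ Typ L Om g) : -n ∈ Typ L Om g := by
  obtain ⟨κ, i1, i2, x, I, hx, hI, hnI⟩ := hn
  have hgg : g * gᴴ = 1 := mul_eq_one_comm.1 hg
  obtain ⟨W, hW⟩ : ∃ W, W = (-(gᵀ * Om * g)).map (starRingEnd ℂ) := ⟨_, rfl⟩
  have hWi : ∃ V, V * W = 1 := by
    refine ⟨gᵀ * Om * g, ?_⟩
    have h1 : W = -(gᴴ * Om * g.map (starRingEnd ℂ)) := by
      rw [hW, conj_W hO]
    have h3 : gᵀ * g.map (starRingEnd ℂ) = 1 := by
      have h4 : g.map (starRingEnd ℂ) = (gᴴ)ᵀ := rfl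
      rw [h4, ← transpose_mul, hg, transpose_one]
    rw [h1]
    calc gᵀ * Om * g * -(gᴴ * Om * g.map (starRingEnd ℂ)) =
        -(gᵀ * Om * (g * gᴴ) * Om * g.map (starRingEnd ℂ)) := by noncomm_ring
      _ = -(gᵀ * (Om * Om) * g.map (starRingEnd ℂ)) := by rw [hgg]; noncomm_ring
      _ = gᵀ * g.map (starRingEnd ℂ) := by rw [hO.sq]; noncomm_ring
      _ = 1 := h3
  obtain ⟨V, hV⟩ := hWi
  obtain ⟨c, hc⟩ : ∃ c : (κ → B) → ℂ, c = fun I => starRingEnd ℂ ((kp κ gᴴ *ᵥ x) I) := ⟨_, rfl⟩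
  have hcI : c I ≠ 0 := by
    rw [hc]
    exact (map_ne_zero _).2 hI
  obtain ⟨I', hI', hII⟩ : ∃ I', (kp κ W *ᵥ c) I' ≠ 0 ∧ eI I + eI I' ∈ N0 L Om g := by
    by_contra hcon
    push Not at hcon
    classical
    let d : (κ → B) → ℂ := fun J => if eI J - eI I ∈ N0 L Om g then c J else 0
    have hd : kp κ W *ᵥ d = 0 := by
      funext K
      rw [Pi.zero_apply, mvA]
      by_cases hK : eI I + eI K ∈ N0 L Om g
      · have h1 : (kp κ W *ᵥ c) K = 0 := by
          by_contra h2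
          exact hcon K h2 hK
        rw [← h1, mvA]
        refine Finset.sum_congr rfl fun J _ => ?_
        by_cases hKJ : kp κ W K J = 0
        · rw [hKJ, zero_mul, zero_mul]
        · have h2 : eI K + eI J ∈ N0 L Om g := by
            rw [hW] at hKJ
            exact eI_add_mem hKJ
          have h3 : eI J - eI I ∈ N0 L Om g := by
            have h4 : eI J - eI I = (eI K + eI J) - (eI I + eI K) := by abel
            rw [h4]
            exact (N0 L Om g).sub_mem h2 hK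
          change kp κ W K J * (if eI J - eI I ∈ N0 L Om g then c J else 0) = _
          rw [if_pos h3]
      · refine Finset.sum_eq_zero fun J _ => ?_
        by_cases hKJ : kp κ W K J = 0
        · rw [hKJ, zero_mul]
        · have h2 : eI K + eI J ∈ N0 L Om g := by
            rw [hW] at hKJ
            exact eI_add_mem hKJ
          have h3 : ¬ eI J - eI I ∈ N0 L Om g := by
            intro h3
            apply hK
            have h4 : eI I + eI K = (eI K + eI J) - (eI J - eI I) := by abel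
            rw [h4]
            exact (N0 L Om g).sub_mem h2 h3
          change kp κ W K J * (if eI J - eI I ∈ N0 L Om g then c J else 0) = _
          rw [if_neg h3, mul_zero]
    have h1 : d = 0 := by
      have h2 := congrArg (fun z => kp κ V *ᵥ z) hd
      beta_reduce at h2
      rw [mulVec_mulVec, ← kp_mul, hV, kp_one, one_mulVec, mulVec_zero] at h2
      exact h2
    have h2 := congrFun h1 I
    change (if eI I - eI I ∈ N0 L Om g then c I else 0) = 0 at h2
    rw [if_pos (by rw [sub_self]; exact (N0 L Om g).zero_mem)] at h2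
    exact hcI h2
  refine ⟨κ, i1, i2, _, I', InvL_conj hO hadj hsp hx, ?_, ?_⟩
  · rw [kp_hat hO hgg, ← hW, ← hc]
    exact hI'
  · have h1 : -n - eI I' = -(n - eI I) - (eI I + eI I') := by abel
    rw [h1]
    exact (N0 L Om g).sub_mem ((N0 L Om g).neg_mem hnI) hII

/-- The group of the types. -/
def TG (hO : IsOm Om) (hadj : ∀ X ∈ L, Xᴴ ∈ L) (hsp : ∀ X ∈ L, Xᵀ * Om + Om * X = 0)
    (hg : gᴴ * g = 1) : AddSubgroup (B → ℤ) where
  carrier := Typ L Om g
  add_mem' := fun ha hb => Typ_add ha hb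
  zero_mem' := Typ_zero
  neg_mem' := fun ha => Typ_neg hO hadj hsp hg ha

theorem mem_TG {hO : IsOm Om} {hadj : ∀ X ∈ L, Xᴴ ∈ L} {hsp : ∀ X ∈ L, Xᵀ * Om + Om * X = 0}
    {hg : gᴴ * g = 1} {n : B → ℤ} : n ∈ TG hO hadj hsp hg ↔ n ∈ Typ L Om g := Iff.rfl

theorem N0_le (hO : IsOm Om) (hadj : ∀ X ∈ L, Xᴴ ∈ L) (hsp : ∀ X ∈ L, Xᵀ * Om + Om * X = 0)
    (hg : gᴴ * g = 1) : N0 L Om g ≤ TG hO hadj hsp hg := by
  intro n hn
  obtain ⟨κ, i1, i2, x, I, hx, hI, h0⟩ := (Typ_zero : (0 : B → ℤ) ∈ Typ L Om g)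
  refine ⟨κ, i1, i2, x, I, hx, hI, ?_⟩
  have h1 : n - eI I = n + (0 - eI I) := by abel
  rw [h1]
  exact (N0 L Om g).add_mem hn h0

/-- The degrees of the types are even. -/
theorem even_of_inv (hD : ∃ D ∈ L, D * D = 1) {κ : Type} [Fintype κ] [DecidableEq κ]
    {x : (κ → B) → ℂ} (hx : x ∈ InvL L κ) (h0 : x ≠ 0) : Even (Fintype.card κ) := by
  obtain ⟨D, hD, hDD⟩ := hD
  have h1 : (Complex.I • D) * (Complex.I • D) = -1 := by
    rw [smul_mul_smul_comm, hDD, Complex.I_mul_I, neg_one_smul]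
  have h2 := fix_of_rot (κ := κ) h1 (x := x) (hx _ (L.smul_mem _ hD))
  have h3 : kp κ (-1 : Matrix B B ℂ) *ᵥ x = x := by
    rw [← h1, kp_mul, ← mulVec_mulVec, h2, h2]
  by_contra hodd
  rw [Nat.not_even_iff_odd] at hodd
  apply h0
  funext I
  have h4 := congrFun h3 I
  have h5 : (-1 : Matrix B B ℂ) = diagonal fun _ => -1 := by
    rw [← diagonal_one, ← diagonal_neg]
  rw [h5, kp_diagonal, Finset.prod_const, Finset.card_univ, hodd.neg_one_pow] at h4
  have h6 : (2 : ℂ) * x I = 0 := by linear_combination -h4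
  exact (mul_eq_zero.1 h6).resolve_left two_ne_zero

theorem N0_even {n : B → ℤ} (hn : n ∈ N0 L Om g) : Even (∑ b, n b) := by
  unfold N0 at hn
  have hs : ∀ b : B, ∑ c, (Pi.single b (1 : ℤ) : B → ℤ) c = 1 := by
    intro b
    rw [Finset.sum_eq_single b]
    · rw [Pi.single_eq_same]
    · intro c _ hc
      rw [Pi.single_eq_of_ne hc]
    · intro h
      exact absurd (Finset.mem_univ _) h
  induction hn using AddSubgroup.closure_induction with
  | mem n hn =>
    rcases hn with ⟨b, b', _, rfl⟩ | ⟨b, b', _, rfl⟩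
    · simp only [Pi.sub_apply, Finset.sum_sub_distrib, hs, sub_self]
      exact Even.zero
    · simp only [Pi.add_apply, Finset.sum_add_distrib, hs]
      exact ⟨1, rfl⟩
  | zero => simp
  | add x y _ _ hx hy =>
    simp only [Pi.add_apply, Finset.sum_add_distrib]
    exact hx.add hy
  | neg x _ hx =>
    simp only [Pi.neg_apply, Finset.sum_neg_distrib]
    exact hx.neg

theorem Typ_even (hD : ∃ D ∈ L, D * D = 1) {n : B → ℤ} (hn : n ∈ Typ L Om g) :
    Even (∑ b, n b) := by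
  obtain ⟨κ, i1, i2, x, I, hx, hI, hnI⟩ := hn
  have h1 := N0_even hnI
  simp only [Pi.sub_apply, Finset.sum_sub_distrib] at h1
  rw [eI_sum] at h1
  have h2 : x ≠ 0 := by
    rintro rfl
    apply hI
    rw [mulVec_zero]
    rfl
  have h3 : Even (Fintype.card κ : ℤ) := by exact_mod_cast even_of_inv hD hx h2
  have h4 : ∑ b, n b = (∑ b, n b - (Fintype.card κ : ℤ)) + (Fintype.card κ : ℤ) := by ring
  rw [h4]
  exact h1.add h3

end

end Pool.Agent.NH32
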