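import Mathlib
import Pool.Agent.NH32.Sds

/-!
# Finitely many seeds: the number
-/

set_option linter.unusedSectionVars false

namespace Pool.Agent.NH32

open Matrix Equiv Module

noncomputable section

variable {B : Type} [Fintype B] [DecidableEq B] {L : Submodule ℂ (Matrix B B ℂ)}
  {Om g : Matrix B B ℂ}

/-- The functions given by the centre of the commutant. -/
def SZ (L : Submodule ℂ (Matrix B B ℂ)) (g : Matrix B B ℂ) : Submodule ℂ (B → ℂ) where
  carrier := {z | g * diagonal z * gᴴ ∈ ZM L}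
  add_mem' := by
    intro x y hx hy
    have h1 : g * diagonal (x + y) * gᴴ = g * diagonal x * gᴴ + g * diagonal y * gᴴ := by
      rw [show diagonal (x + y) = diagonal x + diagonal y from (diagonal_add x y).symm, mul_add,
        add_mul]
    change g * diagonal (x + y) * gᴴ ∈ ZM L
    rw [h1]
    exact (ZM L).add_mem hx hy
  zero_mem' := by
    change g * diagonal 0 * gᴴ ∈ ZM L
    rw [show diagonal (0 : B → ℂ) = 0 from diagonal_zero, mul_zero, zero_mul]
    exact (ZM L).zero_mem
  smul_mem' := by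
    intro c x hx
    change g * diagonal (c • x) * gᴴ ∈ ZM L
    rw [diagonal_smul, Matrix.mul_smul, Matrix.smul_mul]
    exact (ZM L).smul_mem _ hx

theorem mem_SZ {z : B → ℂ} : z ∈ SZ L g ↔ g * diagonal z * gᴴ ∈ ZM L := Iff.rfl

/-- The functions given by the symmetric elements of the centre of the commutant. -/
def SZp (L : Submodule ℂ (Matrix B B ℂ)) (Om g : Matrix B B ℂ) : Submodule ℂ (B → ℂ) where
  carrier := {z | z ∈ SZ L g ∧ ∀ b b', (gᵀ * Om * g) b b' ≠ 0 → z b = z b'}
  add_mem' := by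
    rintro x y ⟨hx, hx'⟩ ⟨hy, hy'⟩
    exact ⟨(SZ L g).add_mem hx hy, fun b b' h => by
      rw [Pi.add_apply, Pi.add_apply, hx' b b' h, hy' b b' h]⟩
  zero_mem' := ⟨(SZ L g).zero_mem, fun b b' h => rfl⟩
  smul_mem' := by
    rintro c x ⟨hx, hx'⟩
    exact ⟨(SZ L g).smul_mem _ hx, fun b b' h => by rw [Pi.smul_apply, Pi.smul_apply, hx' b b' h]⟩

theorem ZM_mul {M N : Matrix B B ℂ} (hM : M ∈ ZM L) (hN : N ∈ ZM L) : M * N ∈ ZM L := by
  constructor
  · intro X hX
    rw [← mul_assoc, hM.1 X hX, mul_assoc, hN.1 X hX, ← mul_assoc]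
  · intro C hC
    rw [← mul_assoc, hM.2 C hC, mul_assoc, hN.2 C hC, ← mul_assoc]

theorem ZM_one : (1 : Matrix B B ℂ) ∈ ZM L :=
  ⟨fun X _ => by rw [mul_one, one_mul], fun N _ => by rw [mul_one, one_mul]⟩

theorem SZ_one (hg : gᴴ * g = 1) : (1 : B → ℂ) ∈ SZ L g := by
  have hgg : g * gᴴ = 1 := mul_eq_one_comm.1 hg
  rw [mem_SZ, show diagonal (1 : B → ℂ) = 1 from diagonal_one, mul_one, hgg]
  exact ZM_one

theorem SZ_mul (hg : gᴴ * g = 1) {x y : B → ℂ} (hx : x ∈ SZ L g) (hy : y ∈ SZ L g) :
    x * y ∈ SZ L g := by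
  rw [mem_SZ] at hx hy ⊢
  have h1 : g * diagonal (x * y) * gᴴ = (g * diagonal x * gᴴ) * (g * diagonal y * gᴴ) := by
    calc g * diagonal (x * y) * gᴴ = g * (diagonal x * 1 * diagonal y) * gᴴ := by
          rw [mul_one, diagonal_mul_diagonal]
          rfl
      _ = g * (diagonal x * (gᴴ * g) * diagonal y) * gᴴ := by rw [hg]
      _ = _ := by noncomm_ring
  rw [h1]
  exact ZM_mul hx hy

/-- Functions which are constant on the classes. -/
theorem SZ_of (hg : gᴴ * g = 1) {f : B → ℂ} (hf : ∀ b b', SimZ L g b b' → f b = f b') :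
    f ∈ SZ L g :=
  interp (SZ L g) (SZ_one hg) (fun x hx y hy => SZ_mul hg hx hy) f fun b b' h =>
    hf b b' fun z hz => h z hz

/-- The relation between coordinates. -/
def Eqv (L : Submodule ℂ (Matrix B B ℂ)) (Om g : Matrix B B ℂ) (b b' : B) : Prop :=
  Pi.single b 1 - Pi.single b' 1 ∈ N0 L Om g ∨ Pi.single b 1 + Pi.single b' 1 ∈ N0 L Om g

/-- The classes of coordinates. -/
def stB (L : Submodule ℂ (Matrix B B ℂ)) (Om g : Matrix B B ℂ) : Setoid B where
  r := Eqv L Om g
  iseqv := by
    refine ⟨fun b => Or.inl ?_, ?_, ?_⟩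
    · rw [sub_self]
      exact (N0 L Om g).zero_mem
    · rintro b b' (h | h)
      · left
        rw [← neg_sub]
        exact (N0 L Om g).neg_mem h
      · right
        rw [add_comm]
        exact h
    · rintro a b c (h | h) (h' | h')
      · left
        have := (N0 L Om g).add_mem h h'
        have e : (Pi.single a 1 - Pi.single b 1 + (Pi.single b 1 - Pi.single c 1) : B → ℤ) =
          Pi.single a 1 - Pi.single c 1 := by abel
        rwa [e] at this
      · right
        have := (N0 L Om g).add_mem h h'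
        have e : (Pi.single a 1 - Pi.single b 1 + (Pi.single b 1 + Pi.single c 1) : B → ℤ) =
          Pi.single a 1 + Pi.single c 1 := by abel
        rwa [e] at this
      · right
        have := (N0 L Om g).sub_mem h h'
        have e : (Pi.single a 1 + Pi.single b 1 - (Pi.single b 1 - Pi.single c 1) : B → ℤ) =
          Pi.single a 1 + Pi.single c 1 := by abel
        rwa [e] at this
      · left
        have := (N0 L Om g).sub_mem h h'
        have e : (Pi.single a 1 + Pi.single b 1 - (Pi.single b 1 + Pi.single c 1) : B → ℤ) =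
          Pi.single a 1 - Pi.single c 1 := by abel
        rwa [e] at this

theorem eqv_out (q : Quotient (stB L Om g)) (b : B)
    (h : (Quotient.mk (stB L Om g) b) = q) : Eqv L Om g b q.out := by
  have h1 : Quotient.mk (stB L Om g) b = Quotient.mk (stB L Om g) q.out := by
    rw [h, Quotient.out_eq]
  exact Quotient.exact h1

theorem card_le (hg : gᴴ * g = 1) [Fintype (Quotient (stB L Om g))] :
    Fintype.card (Quotient (stB L Om g)) ≤ finrank ℂ (SZp L Om g) := by
  classical
  have hmem : ∀ q : Quotient (stB L Om g),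
      (fun b => if Quotient.mk (stB L Om g) b = q then (1 : ℂ) else 0) ∈ SZp L Om g := by
    intro q
    constructor
    · refine SZ_of hg fun b b' hbb => ?_
      have h1 : Quotient.mk (stB L Om g) b = Quotient.mk (stB L Om g) b' :=
        Quotient.sound (Or.inl (AddSubgroup.subset_closure (Or.inl ⟨b, b', hbb, rfl⟩)))
      rw [h1]
    · intro b b' hbb
      have h1 : Quotient.mk (stB L Om g) b = Quotient.mk (stB L Om g) b' :=
        Quotient.sound (Or.inr (AddSubgroup.subset_closure (Or.inr ⟨b, b', hbb, rfl⟩)))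
      beta_reduce
      rw [h1]
  have hli : LinearIndependent ℂ fun q : Quotient (stB L Om g) =>
      (⟨_, hmem q⟩ : SZp L Om g) := by
    rw [linearIndependent_iff']
    intro s a ha q hq
    have h1 := congrArg (fun z : SZp L Om g => (z : B → ℂ) q.out) ha
    beta_reduce at h1
    rw [Submodule.coe_sum, Finset.sum_apply] at h1
    simp only [Submodule.coe_smul, Pi.smul_apply, smul_eq_mul, Quotient.out_eq, mul_ite, mul_one,
      mul_zero, Submodule.coe_zero, Pi.zero_apply] at h1
    rw [Finset.sum_ite_eq, if_pos hq] at h1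
    exact h1
  exact hli.fintype_card_le_finrank

/-- **Seeds**: finitely many invariant tensors whose types generate the types of all invariant
tensors. -/
theorem exists_seeds (hO : IsOm Om) (hadj : ∀ X ∈ L, Xᴴ ∈ L)
    (hsp : ∀ X ∈ L, Xᵀ * Om + Om * X = 0) (hg : gᴴ * g = 1) (hD : ∃ D ∈ L, D * D = 1)
    (R : ∀ (κ : Type) [Fintype κ] [DecidableEq κ], Set ((κ → B) → ℂ))
    (hR : ∀ (κ : Type) [Fintype κ] [DecidableEq κ], InvL L κ ≤ Submodule.span ℂ (R κ))
    (S : Submodule ℂ (B → ℂ)) (hS : ∀ t ∈ S, ∀ n ∈ Typ L Om g, ∑ b, (n b : ℂ) * t b = 0) :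
    ∃ r : ℕ, r + finrank ℂ S ≤ finrank ℂ (SZp L Om g) ∧
      ((∃ z ∈ SZ L g, z ≠ 0 ∧ ∀ w ∈ SZ L g, z * w ∈ SZp L Om g) →
        r + finrank ℂ S + 1 ≤ finrank ℂ (SZp L Om g)) ∧
      ∃ (κ : Fin r → Type) (_ : ∀ i, Fintype (κ i)) (_ : ∀ i, DecidableEq (κ i))
        (y : ∀ i, (κ i → B) → ℂ), (∀ i, y i ∈ R (κ i)) ∧
        ∀ T : ∀ (κ : Type) [Fintype κ] [DecidableEq κ], Submodule ℂ ((κ → B) → ℂ),
          (∀ i, y i ∈ T (κ i)) → ∀ n ∈ Typ L Om g,
            n ∈ N0 L Om g ⊔ AddSubgroup.closure (Occ T g) := by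
  classical
  obtain ⟨Γ, hΓ⟩ : ∃ Γ, Γ = TG hO hadj hsp hg := ⟨_, rfl⟩
  have hmem : ∀ n, n ∈ Γ ↔ n ∈ Typ L Om g := by
    intro n
    rw [hΓ]
    exact mem_TG
  have hN0 : N0 L Om g ≤ Γ := by rw [hΓ]; exact N0_le hO hadj hsp hg
  -- it is enough to find generators
  have hgen : ∀ (r : ℕ) (n : Fin r → B → ℤ), (∀ i, n i ∈ Γ) →
      Γ ≤ N0 L Om g ⊔ AddSubgroup.closure (Set.range n) →
      ∃ (κ : Fin r → Type) (_ : ∀ i, Fintype (κ i)) (_ : ∀ i, DecidableEq (κ i))
        (y : ∀ i, (κ i → B) → ℂ), (∀ i, y i ∈ R (κ i)) ∧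
        ∀ T : ∀ (κ : Type) [Fintype κ] [DecidableEq κ], Submodule ℂ ((κ → B) → ℂ),
          (∀ i, y i ∈ T (κ i)) → ∀ n ∈ Typ L Om g,
            n ∈ N0 L Om g ⊔ AddSubgroup.closure (Occ T g) := by
    intro r n hn hn'
    have h1 : ∀ i, ∃ (κ : Type) (_ : Fintype κ) (_ : DecidableEq κ) (y : (κ → B) → ℂ)
        (I : κ → B), y ∈ R κ ∧ (kp κ gᴴ *ᵥ y) I ≠ 0 ∧ n i - eI I ∈ N0 L Om g := by
      intro i
      obtain ⟨κ, i1, i2, x, I, hx, hI, hnI⟩ := (hmem _).1 (hn i)
      by_contra hcon
      push Not at hcon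
      apply hI
      have h2 := hR κ hx
      have h3 : ∀ z ∈ Submodule.span ℂ (R κ), (kp κ gᴴ *ᵥ z) I = 0 := by
        intro z hz
        induction hz using Submodule.span_induction with
        | mem z hz =>
          by_contra h4
          exact hcon κ i1 i2 z I hz h4 hnI
        | zero => rw [mulVec_zero]; rfl
        | add a b _ _ ha hb => rw [mulVec_add, Pi.add_apply, ha, hb, add_zero]
        | smul c a _ ha => rw [mulVec_smul, Pi.smul_apply, ha, smul_zero]
      exact h3 x h2
    choose κ i1 i2 y I hy hI hnI using h1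
    refine ⟨κ, i1, i2, y, hy, fun T hT m hm => ?_⟩
    have h2 : AddSubgroup.closure (Set.range n) ≤ N0 L Om g ⊔ AddSubgroup.closure (Occ T g) := by
      rw [AddSubgroup.closure_le]
      rintro _ ⟨i, rfl⟩
      have h3 : n i = (n i - eI (I i)) + eI (I i) := by abel
      rw [SetLike.mem_coe, h3]
      refine AddSubgroup.add_mem_sup (hnI i) (AddSubgroup.subset_closure ?_)
      exact ⟨κ i, i1 i, i2 i, y i, I i, hT i, hI i, rfl⟩
    exact (sup_le le_sup_left h2) (hn' ((hmem m).2 hm))
  have hSΓ : ∀ n ∈ Γ, ∀ t ∈ S, ∑ b, (n b : ℂ) * t b = 0 := fun n hn t ht =>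
    hS t ht n ((hmem n).1 hn)
  have hcard := card_le (L := L) (Om := Om) hg
  -- values of the functions on equivalent coordinates
  have heq : ∀ t ∈ S, ∀ b b', Eqv L Om g b b' → t b' = 0 → t b = 0 := by
    rintro t ht b b' (h | h) h0
    · have h1 := hSΓ _ (hN0 h) t ht
      simp only [Pi.sub_apply, Int.cast_sub, sub_mul, Finset.sum_sub_distrib] at h1
      rw [single_pair, single_pair, h0, sub_zero] at h1
      exact h1
    · have h1 := hSΓ _ (hN0 h) t ht
      simp only [Pi.add_apply, Int.cast_add, add_mul, Finset.sum_add_distrib] at h1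
      rw [single_pair, single_pair, h0, add_zero] at h1
      exact h1
  have hall : ∀ K : AddSubgroup (B → ℤ), (∀ b, Pi.single b 1 ∈ K) → ∀ n, n ∈ K := by
    intro K hK n
    have h1 : n = ∑ b, n b • (Pi.single b 1 : B → ℤ) := by
      funext c
      rw [Finset.sum_apply, Finset.sum_eq_single c]
      · rw [Pi.smul_apply, Pi.single_eq_same, smul_eq_mul, mul_one]
      · intro b _ hb
        rw [Pi.smul_apply, Pi.single_eq_of_ne (Ne.symm hb), smul_zero]
      · intro h
        exact absurd (Finset.mem_univ _) h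
    rw [h1]
    exact K.sum_mem fun b _ => K.zsmul_mem (hK b) _
  by_cases hex : ∃ z ∈ SZ L g, z ≠ 0 ∧ ∀ w ∈ SZ L g, z * w ∈ SZp L Om g
  · -- a symmetric class
    obtain ⟨z, hz, hz0, hzw⟩ := hex
    obtain ⟨b0, hb0⟩ := Function.ne_iff.1 hz0
    rw [Pi.zero_apply] at hb0
    obtain ⟨b1, hb1⟩ : ∃ b1, (gᵀ * Om * g) b0 b1 ≠ 0 := by
      by_contra hcon
      push Not at hcon
      have h1 : (gᵀ * Om * g) * (gᴴ * (-Om) * (gᴴ)ᵀ) = 1 := by
        have hgg : g * gᴴ = 1 := mul_eq_one_comm.1 hg
        have h3 : gᵀ * (gᴴ)ᵀ = 1 := by rw [← transpose_mul, hg, transpose_one]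
        calc (gᵀ * Om * g) * (gᴴ * (-Om) * (gᴴ)ᵀ) = -(gᵀ * Om * (g * gᴴ) * Om * (gᴴ)ᵀ) := by
              noncomm_ring
          _ = -(gᵀ * (Om * Om) * (gᴴ)ᵀ) := by rw [hgg]; noncomm_ring
          _ = gᵀ * (gᴴ)ᵀ := by rw [hO.sq]; noncomm_ring
          _ = 1 := h3
      have h2 := congrFun (congrFun h1 b0) b0
      rw [Matrix.mul_apply, Matrix.one_apply_eq] at h2
      rw [Finset.sum_eq_zero fun j _ => by rw [hcon j, zero_mul]] at h2
      exact zero_ne_one h2
    have hsim : SimZ L g b0 b1 := by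
      intro w hw
      have h1 := (hzw w hw).2 b0 b1 hb1
      have h2 := (hzw 1 (SZ_one hg)).2 b0 b1 hb1
      rw [Pi.mul_apply, Pi.mul_apply] at h1 h2
      rw [Pi.one_apply, Pi.one_apply, mul_one, mul_one] at h2
      rw [← h2] at h1
      exact mul_left_cancel₀ hb0 h1
    have h2b : (2 : ℤ) • (Pi.single b0 1 : B → ℤ) ∈ N0 L Om g := by
      have h1 : (Pi.single b0 1 - Pi.single b1 1 : B → ℤ) ∈ N0 L Om g :=
        AddSubgroup.subset_closure (Or.inl ⟨b0, b1, hsim, rfl⟩)
      have h2 : (Pi.single b0 1 + Pi.single b1 1 : B → ℤ) ∈ N0 L Om g :=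
        AddSubgroup.subset_closure (Or.inr ⟨b0, b1, hb1, rfl⟩)
      have h3 := (N0 L Om g).add_mem h1 h2
      have e : (Pi.single b0 1 - Pi.single b1 1 + (Pi.single b0 1 + Pi.single b1 1) : B → ℤ) =
          (2 : ℤ) • (Pi.single b0 1 : B → ℤ) := by
        rw [two_smul]
        abel
      rwa [e] at h3
    obtain ⟨q0, hq0⟩ : ∃ q0, q0 = Quotient.mk (stB L Om g) b0 := ⟨_, rfl⟩
    let ε : {q : Quotient (stB L Om g) // q ≠ q0} → B → ℤ := fun q =>
      Pi.single q.1.out 1 - Pi.single b0 1
    have hεv : ∀ q, ε q = Pi.single q.1.out 1 - Pi.single b0 1 := fun _ => rfl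
    obtain ⟨K, hK⟩ : ∃ K, K = N0 L Om g ⊔ AddSubgroup.closure (Set.range ε) := ⟨_, rfl⟩
    have hNK : N0 L Om g ≤ K := by rw [hK]; exact le_sup_left
    have hKb : ∀ b, (Pi.single b 1 - Pi.single b0 1 : B → ℤ) ∈ K := by
      intro b
      by_cases hb : Quotient.mk (stB L Om g) b = q0
      · rw [hq0] at hb
        rcases (Quotient.exact hb : Eqv L Om g b b0) with h | h
        · exact hNK h
        · have h1 := K.sub_mem (hNK h) (hNK h2b)
          have e : (Pi.single b 1 + Pi.single b0 1 - (2 : ℤ) • (Pi.single b0 1 : B → ℤ)) =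
              Pi.single b 1 - Pi.single b0 1 := by
            rw [two_smul]
            abel
          rwa [e] at h1
      · have h1 : ε ⟨_, hb⟩ ∈ K := by
          rw [hK]
          exact AddSubgroup.mem_sup_right (AddSubgroup.subset_closure (Set.mem_range_self _))
        rw [hεv] at h1
        rcases eqv_out _ b rfl with h | h
        · have h2 := K.add_mem (hNK h) h1
          have e : ∀ x y z : B → ℤ, x - y + (y - z) = x - z := fun x y z => by abel
          rw [e] at h2
          exact h2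
        · have h2 := K.sub_mem (K.sub_mem (hNK h) h1) (hNK h2b)
          have e : ∀ x y z : B → ℤ, x + y - (y - z) - (2 : ℤ) • z = x - z := fun x y z => by
            rw [two_smul]
            abel
          rw [e] at h2
          exact h2
    have hΓK : Γ ≤ K := by
      intro n hn
      obtain ⟨m, hm⟩ := Typ_even hD ((hmem n).1 hn)
      have h1 : n = ∑ b, n b • (Pi.single b 1 - Pi.single b0 1 : B → ℤ) +
          m • ((2 : ℤ) • (Pi.single b0 1 : B → ℤ)) := by
        have h2 : ∑ b, n b • (Pi.single b 1 - Pi.single b0 1 : B → ℤ) =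
            n - (∑ b, n b) • (Pi.single b0 1 : B → ℤ) := by
          simp only [smul_sub, Finset.sum_sub_distrib]
          rw [← Finset.sum_smul]
          congr 1
          funext c
          rw [Finset.sum_apply, Finset.sum_eq_single c]
          · rw [Pi.smul_apply, Pi.single_eq_same, smul_eq_mul, mul_one]
          · intro b _ hb
            rw [Pi.smul_apply, Pi.single_eq_of_ne (Ne.symm hb), smul_zero]
          · intro h
            exact absurd (Finset.mem_univ _) h
        rw [h2, hm, smul_smul]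
        have h3 : m * 2 = m + m := by ring
        rw [h3]
        abel
      rw [h1]
      exact K.add_mem (K.sum_mem fun b _ => K.zsmul_mem (hKb b) _) (K.zsmul_mem (hNK h2b) _)
    obtain ⟨r, n, hr, hn, hn'⟩ := exists_gens ε hN0 (by rw [← hK]; exact hΓK) S hSΓ (by
      intro t ht hz
      have h0 : t b0 = 0 := by
        have h1 := hSΓ _ (hN0 h2b) t ht
        simp only [Pi.smul_apply, smul_eq_mul, Int.cast_mul, mul_assoc] at h1
        rw [← Finset.mul_sum, single_pair] at h1
        have h3 : ((2 : ℤ) : ℂ) ≠ 0 := by norm_num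
        exact (mul_eq_zero.1 h1).resolve_left h3
      funext b
      by_cases hb : Quotient.mk (stB L Om g) b = q0
      · rw [hq0] at hb
        exact heq t ht b b0 (Quotient.exact hb) h0
      · refine heq t ht b _ (eqv_out _ b rfl) ?_
        have h1 := hz ⟨_, hb⟩
        rw [hεv] at h1
        simp only [Pi.sub_apply, Int.cast_sub, sub_mul, Finset.sum_sub_distrib] at h1
        rw [single_pair, single_pair, h0, sub_zero] at h1
        exact h1)
    have hc : Fintype.card {q : Quotient (stB L Om g) // q ≠ q0} + 1 =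
        Fintype.card (Quotient (stB L Om g)) := by
      have h1 := Fintype.card_subtype_compl (fun q : Quotient (stB L Om g) => q = q0)
      rw [Fintype.card_subtype_eq] at h1
      have h2 : 0 < Fintype.card (Quotient (stB L Om g)) := Fintype.card_pos_iff.2 ⟨q0⟩
      have h3 : Fintype.card {q : Quotient (stB L Om g) // q ≠ q0} =
        Fintype.card {q : Quotient (stB L Om g) // ¬ q = q0} := rfl
      rw [h3, h1]
      omega
    refine ⟨r, by omega, fun _ => by omega, hgen r n hn hn'⟩
  · -- the general case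
    let ε : Quotient (stB L Om g) → B → ℤ := fun q => Pi.single q.out 1
    have hεv : ∀ q, ε q = Pi.single q.out 1 := fun _ => rfl
    obtain ⟨K, hK⟩ : ∃ K, K = N0 L Om g ⊔ AddSubgroup.closure (Set.range ε) := ⟨_, rfl⟩
    have hNK : N0 L Om g ≤ K := by rw [hK]; exact le_sup_left
    have hKb : ∀ b, (Pi.single b 1 : B → ℤ) ∈ K := by
      intro b
      have h1 : ε (Quotient.mk (stB L Om g) b) ∈ K := by
        rw [hK]
        exact AddSubgroup.mem_sup_right (AddSubgroup.subset_closure (Set.mem_range_self _))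
      rw [hεv] at h1
      rcases eqv_out _ b rfl with h | h
      · have h2 := K.add_mem (hNK h) h1
        have e : ∀ x y : B → ℤ, x - y + y = x := fun x y => by abel
        rw [e] at h2
        exact h2
      · have h2 := K.sub_mem (hNK h) h1
        have e : ∀ x y : B → ℤ, x + y - y = x := fun x y => by abel
        rw [e] at h2
        exact h2
    obtain ⟨r, n, hr, hn, hn'⟩ := exists_gens ε hN0 (by
      rw [← hK]
      exact fun n _ => hall K hKb n) S hSΓ (by
      intro t ht hz
      funext b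
      refine heq t ht b _ (eqv_out _ b rfl) ?_
      have h1 := hz (Quotient.mk (stB L Om g) b)
      rw [hεv, single_pair] at h1
      exact h1)
    exact ⟨r, by omega, fun h => absurd h hex, hgen r n hn hn'⟩

end

end Pool.Agent.NH32
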