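import Mathlib
import Pool.Agent.NH32.Sd2

/-!
# Systems of tensors containing the alternating invariants and finitely many seeds
-/

set_option linter.unusedSectionVars false

namespace Pool.Agent.NH32

open Matrix Equiv Module

noncomputable section

variable {B : Type} [Fintype B] [DecidableEq B] {L : Submodule ℂ (Matrix B B ℂ)}
  {Om g : Matrix B B ℂ}

/-- The symmetric elements of the centre of the commutant. -/
def ZMp (L : Submodule ℂ (Matrix B B ℂ)) (Om : Matrix B B ℂ) : Submodule ℂ (Matrix B B ℂ) where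
  carrier := {M | M ∈ ZM L ∧ Mᵀ * Om = Om * M}
  add_mem' := by
    rintro M N ⟨hM, hM'⟩ ⟨hN, hN'⟩
    exact ⟨(ZM L).add_mem hM hN, by rw [transpose_add, add_mul, mul_add, hM', hN']⟩
  zero_mem' := ⟨(ZM L).zero_mem, by rw [transpose_zero, zero_mul, mul_zero]⟩
  smul_mem' := by
    rintro c M ⟨hM, hM'⟩
    exact ⟨(ZM L).smul_mem _ hM, by rw [transpose_smul, Matrix.smul_mul, Matrix.mul_smul, hM']⟩

/-- The elements of the centre of the commutant which kill the invariant tensors. -/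
def ZK (L : Submodule ℂ (Matrix B B ℂ)) : Submodule ℂ (Matrix B B ℂ) where
  carrier := {M | M ∈ ZM L ∧ ∀ (κ : Type) [Fintype κ] [DecidableEq κ], ∀ x ∈ InvL L κ,
    dm κ M *ᵥ x = 0}
  add_mem' := by
    rintro M N ⟨hM, hM'⟩ ⟨hN, hN'⟩
    refine ⟨(ZM L).add_mem hM hN, ?_⟩
    intro κ _ _ x hx
    rw [dm_add, add_mulVec, hM' κ x hx, hN' κ x hx, add_zero]
  zero_mem' := by
    refine ⟨(ZM L).zero_mem, ?_⟩
    intro κ _ _ x _
    rw [dm_zero, zero_mulVec]
  smul_mem' := by
    rintro c M ⟨hM, hM'⟩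
    refine ⟨(ZM L).smul_mem _ hM, ?_⟩
    intro κ _ _ x hx
    rw [dm_smul, smul_mulVec, hM' κ x hx, smul_zero]

/-- The map from functions to matrices. -/
def gD (g : Matrix B B ℂ) : (B → ℂ) →ₗ[ℂ] Matrix B B ℂ where
  toFun z := g * diagonal z * gᴴ
  map_add' := by
    intro x y
    rw [show diagonal (x + y) = diagonal x + diagonal y from (diagonal_add x y).symm, mul_add,
      add_mul]
  map_smul' := by
    intro c x
    rw [diagonal_smul, Matrix.mul_smul, Matrix.smul_mul]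
    rfl

theorem gD_apply (z : B → ℂ) : gD g z = g * diagonal z * gᴴ := rfl

theorem gD_back (hg : gᴴ * g = 1) (z : B → ℂ) : gᴴ * gD g z * g = diagonal z := by
  rw [gD_apply]
  calc gᴴ * (g * diagonal z * gᴴ) * g = (gᴴ * g) * diagonal z * (gᴴ * g) := by noncomm_ring
    _ = diagonal z := by rw [hg, one_mul, mul_one]

theorem gD_inj (hg : gᴴ * g = 1) : Function.Injective (gD g) := by
  intro x y hxy
  have h1 := gD_back hg x
  rw [hxy, gD_back hg y] at h1
  exact (diagonal_injective h1).symm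

theorem gD_T (hg : gᴴ * g = 1) (z : B → ℂ) :
    gᵀ * ((gD g z)ᵀ * Om) * g = diagonal z * (gᵀ * Om * g) := by
  have h3 : gᵀ * (gᴴ)ᵀ = 1 := by rw [← transpose_mul, hg, transpose_one]
  rw [gD_apply, transpose_mul, transpose_mul, diagonal_transpose]
  calc gᵀ * ((gᴴ)ᵀ * (diagonal z * gᵀ) * Om) * g = (gᵀ * (gᴴ)ᵀ) * diagonal z * (gᵀ * Om * g) := by
        noncomm_ring
    _ = _ := by rw [h3, one_mul]

theorem gD_O (hg : gᴴ * g = 1) (z : B → ℂ) :
    gᵀ * (Om * gD g z) * g = (gᵀ * Om * g) * diagonal z := by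
  rw [gD_apply]
  calc gᵀ * (Om * (g * diagonal z * gᴴ)) * g = (gᵀ * Om * g) * diagonal z * (gᴴ * g) := by
        noncomm_ring
    _ = _ := by rw [hg, mul_one]

theorem gT_inj (hg : gᴴ * g = 1) {M N : Matrix B B ℂ} (h : gᵀ * M * g = gᵀ * N * g) : M = N := by
  have hgg : g * gᴴ = 1 := mul_eq_one_comm.1 hg
  have h3 : gᵀ * (gᴴ)ᵀ = 1 := by rw [← transpose_mul, hg, transpose_one]
  have h4 : (gᴴ)ᵀ * gᵀ = 1 := mul_eq_one_comm.1 h3
  have h5 : ∀ P : Matrix B B ℂ, (gᴴ)ᵀ * (gᵀ * P * g) * gᴴ = P := by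
    intro P
    calc (gᴴ)ᵀ * (gᵀ * P * g) * gᴴ = ((gᴴ)ᵀ * gᵀ) * P * (g * gᴴ) := by noncomm_ring
      _ = P := by rw [h4, hgg, one_mul, mul_one]
  rw [← h5 M, h, h5 N]

theorem mem_SZp_iff (hg : gᴴ * g = 1) {z : B → ℂ} : z ∈ SZp L Om g ↔ gD g z ∈ ZMp L Om := by
  constructor
  · rintro ⟨h1, h2⟩
    refine ⟨h1, gT_inj hg ?_⟩
    rw [gD_T hg, gD_O hg]
    ext b b'
    rw [diagonal_mul, mul_diagonal]
    by_cases h3 : (gᵀ * Om * g) b b' = 0
    · rw [h3, mul_zero, zero_mul]
    · rw [h2 b b' h3, mul_comm]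
  · rintro ⟨h1, h2⟩
    refine ⟨h1, fun b b' h3 => ?_⟩
    have h4 := congrArg (fun Z => gᵀ * Z * g) h2
    beta_reduce at h4
    rw [gD_T hg, gD_O hg] at h4
    have h5 := congrFun (congrFun h4 b) b'
    rw [diagonal_mul, mul_diagonal, mul_comm] at h5
    exact mul_left_cancel₀ h3 h5

theorem finrank_SZp (hg : gᴴ * g = 1) (hzd : ∀ M ∈ ZM L, ∃ x : B → ℂ, gᴴ * M * g = diagonal x) :
    finrank ℂ (SZp L Om g) = finrank ℂ (ZMp L Om) := by
  have h1 : (SZp L Om g).map (gD g) = ZMp L Om := by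
    ext M
    constructor
    · rintro ⟨z, hz, rfl⟩
      exact (mem_SZp_iff hg).1 hz
    · intro hM
      have hgg : g * gᴴ = 1 := mul_eq_one_comm.1 hg
      obtain ⟨x, hx⟩ := hzd M hM.1
      have h2 : gD g x = M := by
        rw [gD_apply, ← hx]
        calc g * (gᴴ * M * g) * gᴴ = (g * gᴴ) * M * (g * gᴴ) := by noncomm_ring
          _ = M := by rw [hgg, one_mul, mul_one]
      exact ⟨x, (mem_SZp_iff hg).2 (by rw [h2]; exact hM), h2⟩
  rw [← h1]
  exact (Submodule.equivMapOfInjective _ (gD_inj hg) _).finrank_eq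

theorem Om_inv (hO : IsOm Om) (hsp : ∀ X ∈ L, Xᵀ * Om + Om * X = 0) :
    (fun I : Fin 2 → B => Om (I 0) (I 1)) ∈ InvL L (Fin 2) := by
  intro X hX
  have h1 : X * Om + Om * Xᵀ = 0 := by
    have h2 := congrArg (fun Z => -(Om * Z * Om)) (hsp X hX)
    beta_reduce at h2
    have e1 : -(Om * (Xᵀ * Om + Om * X) * Om) = -(Om * Xᵀ * (Om * Om)) - (Om * Om) * X * Om := by
      noncomm_ring
    rw [e1, hO.sq, mul_zero, zero_mul, neg_zero] at h2
    rw [← h2]
    noncomm_ring
  funext I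
  rw [dm_mulVec_apply, Fin.sum_univ_two]
  have h2 := congrFun (congrFun h1 (I 0)) (I 1)
  rw [Matrix.add_apply, Matrix.mul_apply, Matrix.mul_apply] at h2
  rw [Matrix.zero_apply] at h2
  rw [Pi.zero_apply, ← h2]
  congr 1
  refine Finset.sum_congr rfl fun j _ => ?_
  simp [mul_comm]

theorem Om_kill (hO : IsOm Om) {M : Matrix B B ℂ}
    (h : dm (Fin 2) M *ᵥ (fun I : Fin 2 → B => Om (I 0) (I 1)) = 0) : Mᵀ * Om + Om * M = 0 := by
  have h1 : M * Om + Om * Mᵀ = 0 := by
    ext i j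
    have h2 := congrFun h ![i, j]
    rw [dm_mulVec_apply, Fin.sum_univ_two] at h2
    rw [Pi.zero_apply] at h2
    rw [Matrix.add_apply, Matrix.mul_apply, Matrix.mul_apply, Matrix.zero_apply, ← h2]
    congr 1
    refine Finset.sum_congr rfl fun j _ => ?_
    simp [mul_comm]
  have h2 := congrArg (fun Z => -(Om * Z * Om)) h1
  beta_reduce at h2
  have e1 : -(Om * (M * Om + Om * Mᵀ) * Om) = -(Om * M * (Om * Om)) - (Om * Om) * Mᵀ * Om := by
    noncomm_ring
  rw [e1, hO.sq, mul_zero, zero_mul, neg_zero] at h2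
  rw [← h2]
  noncomm_ring

/-- **The core theorem**: a system of tensors which contains the alternating invariants and
finitely many seeds contains all invariants. -/
theorem core (hO : IsOm Om) (hL : LD Om L) (hD : ∃ D ∈ L, D * D = 1)
    (R : ∀ (κ : Type) [Fintype κ] [DecidableEq κ], Set ((κ → B) → ℂ))
    (hR : ∀ (κ : Type) [Fintype κ] [DecidableEq κ], InvL L κ ≤ Submodule.span ℂ (R κ)) :
    ∃ r : ℕ, r + finrank ℂ (ZK L) ≤ finrank ℂ (ZMp L Om) ∧
      ((∃ z ∈ ZM L, z ≠ 0 ∧ ∀ w ∈ ZM L, z * w ∈ ZMp L Om) →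
        r + finrank ℂ (ZK L) + 1 ≤ finrank ℂ (ZMp L Om)) ∧
      ∃ (κ : Fin r → Type) (_ : ∀ i, Fintype (κ i)) (_ : ∀ i, DecidableEq (κ i))
        (y : ∀ i, (κ i → B) → ℂ), (∀ i, y i ∈ R (κ i)) ∧
        ∀ T : ∀ (κ : Type) [Fintype κ] [DecidableEq κ], Submodule ℂ ((κ → B) → ℂ),
          Tan Om T → (∀ (a b : ℕ) (c : (Fin a ⊕ Fin b → B) → ℂ), IsAlt2 c →
            (∀ X ∈ L, dm (Fin a ⊕ Fin b) X *ᵥ c = 0) → c ∈ T (Fin a ⊕ Fin b)) →
          (∀ (κ : Type) [Fintype κ] [DecidableEq κ], ∀ t ∈ T κ, ∀ X ∈ L, dm κ X *ᵥ t = 0) →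
          (∀ i, y i ∈ T (κ i)) →
          ∀ (κ : Type) [Fintype κ] [DecidableEq κ], InvL L κ ≤ T κ := by
  obtain ⟨g, h, hc⟩ := exists_crt (L := L) hL.adj
  have hg := hc.g1
  have hgg : g * gᴴ = 1 := mul_eq_one_comm.1 hg
  let S : Submodule ℂ (B → ℂ) := (ZK L).comap (gD g)
  have hSr : finrank ℂ S = finrank ℂ (ZK L) := by
    have h1 : S.map (gD g) = ZK L := by
      ext M
      constructor
      · rintro ⟨z, hz, rfl⟩
        exact hz
      · intro hM
        obtain ⟨x, hx⟩ := hc.zd M hM.1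
        have h2 : gD g x = M := by
          rw [gD_apply, ← hx]
          calc g * (gᴴ * M * g) * gᴴ = (g * gᴴ) * M * (g * gᴴ) := by noncomm_ring
            _ = M := by rw [hgg, one_mul, mul_one]
        exact ⟨x, by
          change gD g x ∈ ZK L
          rw [h2]
          exact hM, h2⟩
    rw [← h1]
    exact (Submodule.equivMapOfInjective _ (gD_inj hg) _).finrank_eq
  have hS : ∀ t ∈ S, ∀ n ∈ Typ L Om g, ∑ b, (n b : ℂ) * t b = 0 := by
    rintro t ht n ⟨κ, i1, i2, x, I, hx, hI, hnI⟩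
    obtain ⟨htZ, htk⟩ : gD g t ∈ ZK L := ht
    have hN : ∀ m ∈ N0 L Om g, ∑ b, (m b : ℂ) * t b = 0 := by
      intro m hm
      unfold N0 at hm
      induction hm using AddSubgroup.closure_induction with
      | mem m hm =>
        rcases hm with ⟨b, b', hbb, rfl⟩ | ⟨b, b', hbb, rfl⟩
        · simp only [Pi.sub_apply, Int.cast_sub, sub_mul, Finset.sum_sub_distrib]
          rw [single_pair, single_pair, hbb t htZ, sub_self]
        · simp only [Pi.add_apply, Int.cast_add, add_mul, Finset.sum_add_distrib]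
          rw [single_pair, single_pair]
          have h1 := Om_kill hO (htk (Fin 2) _ (Om_inv hO hL.sp))
          have h2 := congrArg (fun Z => gᵀ * Z * g) h1
          beta_reduce at h2
          rw [mul_add, add_mul, gD_T hg, gD_O hg, mul_zero, zero_mul] at h2
          have h3 := congrFun (congrFun h2 b) b'
          rw [Matrix.add_apply, diagonal_mul, mul_diagonal, Matrix.zero_apply] at h3
          have h4 : (t b + t b') * (gᵀ * Om * g) b b' = 0 := by linear_combination h3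
          exact (mul_eq_zero.1 h4).resolve_right hbb
      | zero => simp
      | add x y _ _ hx hy =>
        simp only [Pi.add_apply, Int.cast_add, add_mul, Finset.sum_add_distrib]
        rw [hx, hy, add_zero]
      | neg x _ hx =>
        simp only [Pi.neg_apply, Int.cast_neg, neg_mul, Finset.sum_neg_distrib]
        rw [hx, neg_zero]
    have h1 : ∑ b, ((eI I b : ℤ) : ℂ) * t b = 0 := by
      have h2 : ∑ b, ((eI I b : ℤ) : ℂ) * t b = ∑ k, t (I k) := by
        unfold eI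
        simp only [Finset.sum_apply, Int.cast_sum, Finset.sum_mul]
        rw [Finset.sum_comm]
        exact Finset.sum_congr rfl fun k _ => single_pair t (I k)
      rw [h2]
      have h3 : kp κ gᴴ * dm κ (gD g t) = dm κ (diagonal t) * kp κ gᴴ :=
        kp_mul_dm (by
          rw [gD_apply]
          calc gᴴ * (g * diagonal t * gᴴ) = (gᴴ * g) * diagonal t * gᴴ := by noncomm_ring
            _ = _ := by rw [hg, one_mul])
      have h4 : dm κ (diagonal t) *ᵥ (kp κ gᴴ *ᵥ x) = 0 := by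
        rw [mulVec_mulVec, ← h3, ← mulVec_mulVec, htk κ x hx, mulVec_zero]
      have h5 := congrFun h4 I
      rw [dm_diagonal, Pi.zero_apply] at h5
      exact (mul_eq_zero.1 h5).resolve_right hI
    have h2 := hN _ hnI
    simp only [Pi.sub_apply, Int.cast_sub, sub_mul, Finset.sum_sub_distrib] at h2
    rw [h1, sub_zero] at h2
    exact h2
  obtain ⟨r, h1, h2, κ, i1, i2, y, hy, hT⟩ := exists_seeds hO hL.adj hL.sp hg hD R hR S hS
  rw [hSr, finrank_SZp hg hc.zd] at h1 h2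
  refine ⟨r, h1, ?_, κ, i1, i2, y, hy, ?_⟩
  · rintro ⟨z, hz, hz0, hzw⟩
    apply h2
    obtain ⟨x, hx⟩ := hc.zd z hz
    have hzx : gD g x = z := by
      rw [gD_apply, ← hx]
      calc g * (gᴴ * z * g) * gᴴ = (g * gᴴ) * z * (g * gᴴ) := by noncomm_ring
        _ = z := by rw [hgg, one_mul, mul_one]
    refine ⟨x, ?_, ?_, fun w hw => ?_⟩
    · rw [mem_SZ, ← gD_apply, hzx]
      exact hz
    · rintro rfl
      rw [map_zero] at hzx
      exact hz0 hzx.symm
    · rw [mem_SZp_iff hg]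
      have h3 : gD g (x * w) = gD g x * gD g w := by
        rw [gD_apply, gD_apply, gD_apply]
        calc g * diagonal (x * w) * gᴴ = g * (diagonal x * 1 * diagonal w) * gᴴ := by
              rw [mul_one, diagonal_mul_diagonal]
              rfl
          _ = g * (diagonal x * (gᴴ * g) * diagonal w) * gᴴ := by rw [hg]
          _ = _ := by noncomm_ring
      rw [h3, hzx]
      exact hzw _ hw
  · intro T hTan hTa hTL hyT κ' _ _ x hx
    refine tannaka hTan hO x fun u hu => ?_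
    refine fix_of_rich hO hL hTa hTL hc hx (fun I hI => ?_) hu
    refine hT T hyT _ ?_
    exact ⟨κ', inferInstance, inferInstance, x, I, hx, hI, by
      rw [sub_self]
      exact (N0 L Om g).zero_mem⟩

end

end Pool.Agent.NH32
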