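import Mathlib
import Pool.Agent.Y90.Defs

/-!
# Systems of classes on abelian varieties, powers, central endomorphisms
-/

namespace Pool.Agent.NH32

open Module Pool.Agent.Y90
open Pool.Agent.H204R3.CM (IsHodge)

/-- `h ∈ H^{κ ⊕ κ'}(X, ℚ)` is the cup product of `f ∈ H^κ(X, ℚ)` and `g ∈ H^κ'(X, ℚ)` (up to a
factor). -/
def IsCup {X : AV} {κ κ' : Type} [Fintype κ] [DecidableEq κ] [Fintype κ'] [DecidableEq κ']
    (f : X.H [⋀^κ]→ₗ[ℚ] ℚ) (g : X.H [⋀^κ']→ₗ[ℚ] ℚ) (h : X.H [⋀^κ ⊕ κ']→ₗ[ℚ] ℚ) : Prop :=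
  ∀ v : κ ⊕ κ' → X.H, h v = ∑ σ : Equiv.Perm (κ ⊕ κ'), ((Equiv.Perm.sign σ : ℤ) : ℚ) *
    (f (fun k => v (σ (Sum.inl k))) * g (fun k => v (σ (Sum.inr k))))

/-- `P` is (isogenous to) the product `X × Y`, with the inclusions `i` and `j`. -/
def IsProd {X Y P : AV} (i : X.H →ₗ[ℚ] P.H) (j : Y.H →ₗ[ℚ] P.H) : Prop :=
  IsHom X P i ∧ IsHom Y P j ∧ Function.Bijective fun w : X.H × Y.H => i w.1 + j w.2

/-- `g ∈ H^κ(X, ℚ)` is the push-forward of `f ∈ H^{κ ⊕ κ'}(P, ℚ)` along the projection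
`P = X × Y → X`, up to a factor: `f` is evaluated at a basis `b` of `H_1(Y, ℚ)`. -/
def IsPush {X Y P : AV} (i : X.H →ₗ[ℚ] P.H) (j : Y.H →ₗ[ℚ] P.H) {κ κ' : Type}
    (b : Basis κ' ℚ Y.H) (f : P.H [⋀^κ ⊕ κ']→ₗ[ℚ] ℚ) (g : X.H [⋀^κ]→ₗ[ℚ] ℚ) : Prop :=
  ∀ v : κ → X.H, g v = f (Sum.elim (fun k => i (v k)) fun k => j (b k))

/-- A system of classes `f ∈ H^κ(X, ℚ)`, for all complex abelian varieties `X` (`A X κ f` says that
`f` belongs to the system), which contains the classes of degree zero and which is stable under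
linear combinations, cup products, pull-backs along homomorphisms and push-forwards along the
projections of products. The algebraic classes (the rational linear combinations of the classes of
algebraic cycles) are such a system. -/
structure Sys where
  /-- the classes of the system -/
  A : (X : AV) → (κ : Type) → (X.H [⋀^κ]→ₗ[ℚ] ℚ) → Prop
  /-- classes of degree zero -/
  unit : ∀ {X : AV} {κ : Type} [IsEmpty κ] (f : X.H [⋀^κ]→ₗ[ℚ] ℚ), A X κ f
  zero : ∀ (X : AV) (κ : Type), A X κ 0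
  add : ∀ {X : AV} {κ : Type} (f g : X.H [⋀^κ]→ₗ[ℚ] ℚ) (_ : A X κ f) (_ : A X κ g), A X κ (f + g)
  smul : ∀ {X : AV} {κ : Type} (a : ℚ) (f : X.H [⋀^κ]→ₗ[ℚ] ℚ) (_ : A X κ f), A X κ (a • f)
  /-- renaming of the variables -/
  reindex : ∀ {X : AV} {κ κ' : Type} (e : κ ≃ κ') (f : X.H [⋀^κ]→ₗ[ℚ] ℚ) (_ : A X κ f),
    A X κ' (f.domDomCongr e)
  /-- cup products (up to a factor) -/
  cup : ∀ {X : AV} {κ κ' : Type} [Fintype κ] [DecidableEq κ] [Fintype κ'] [DecidableEq κ']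
    (f : X.H [⋀^κ]→ₗ[ℚ] ℚ) (g : X.H [⋀^κ']→ₗ[ℚ] ℚ) (_ : A X κ f) (_ : A X κ' g)
    (h : X.H [⋀^κ ⊕ κ']→ₗ[ℚ] ℚ) (_ : IsCup f g h), A X (κ ⊕ κ') h
  /-- pull-backs along homomorphisms `X → Y` -/
  pull : ∀ {X Y : AV} (h : X.H →ₗ[ℚ] Y.H) (_ : IsHom X Y h) {κ : Type} (f : Y.H [⋀^κ]→ₗ[ℚ] ℚ)
    (_ : A Y κ f), A X κ (f.compLinearMap h)
  /-- push-forwards along the projection `P = X × Y → X` -/
  push : ∀ {X Y P : AV} (i : X.H →ₗ[ℚ] P.H) (j : Y.H →ₗ[ℚ] P.H) (_ : IsProd i j)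
    {κ κ' : Type} (b : Basis κ' ℚ Y.H) (f : P.H [⋀^κ ⊕ κ']→ₗ[ℚ] ℚ) (_ : A P (κ ⊕ κ') f)
    (g : X.H [⋀^κ]→ₗ[ℚ] ℚ) (_ : IsPush i j b f g), A X κ g

/-- All Hodge classes on `X` belong to the system. If the system consists of the algebraic classes,
this is the Hodge conjecture for `X`. -/
def Sys.AllHodge (𝒜 : Sys) (X : AV) : Prop :=
  ∀ (κ : Type) [Finite κ] (f : X.H [⋀^κ]→ₗ[ℚ] ℚ), IsHodge X.per f → 𝒜.A X κ f

/-- The homomorphisms `i 0, ..., i (n - 1)` from `A` to `X` give an isogeny `A ^ n → X`. -/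
def IsPow (A X : AV) (n : ℕ) (i : Fin n → (A.H →ₗ[ℚ] X.H)) : Prop :=
  (∀ k, IsHom A X (i k)) ∧ Function.Bijective fun w : Fin n → A.H => ∑ k, i k (w k)

/-- `X` is isogenous to the power `A ^ n`. -/
def IsPower (A X : AV) (n : ℕ) : Prop := ∃ i, IsPow A X n i

/-- `z` is a central element of the endomorphism algebra `End(A) ⊗ ℚ`. -/
def IsCentral (A : AV) (z : A.H →ₗ[ℚ] A.H) : Prop :=
  IsHom A A z ∧ ∀ f : A.H →ₗ[ℚ] A.H, IsHom A A f → z.comp f = f.comp z

/-- `z` is symmetric for the form `E`: it is fixed by the Rosati involution of `E`. -/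
def IsSym {A : AV} (E : A.H → A.H → ℚ) (z : A.H →ₗ[ℚ] A.H) : Prop :=
  ∀ v w, E (z v) w = E v (z w)

/-- The central elements of `End(A) ⊗ ℚ` which are fixed by the Rosati involution of the
polarization `E`. Their space is the product of the maximal totally real subfields of the centres of
the endomorphism algebras of the simple factors of `A` (up to isogeny). -/
def CentSym (A : AV) (E : A.H → A.H → ℚ) : Submodule ℚ (A.H →ₗ[ℚ] A.H) :=
  Submodule.span ℚ {z | IsCentral A z ∧ IsSym E z}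

/-- The endomorphism `z` kills all Hodge classes on all powers of `A`, when it acts diagonally and
as a derivation: on a variety `X` isogenous to the power `A ^ n` the endomorphism `z'` is
`(z, ..., z)`. -/
def Kills (A : AV) (z : A.H →ₗ[ℚ] A.H) : Prop :=
  ∀ (X : AV) (n : ℕ) (i : Fin n → (A.H →ₗ[ℚ] X.H)), IsPow A X n i →
    ∀ z' : X.H →ₗ[ℚ] X.H, (∀ k w, z' (i k w) = i k (z w)) →
      ∀ (m : ℕ) (f : X.H [⋀^Fin m]→ₗ[ℚ] ℚ), IsHodge X.per f →
        ∀ v : Fin m → X.H, ∑ k, f (Function.update v k (z' (v k))) = 0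

/-- The central elements `z` of `End(A) ⊗ ℚ` which kill all Hodge classes on all powers of `A`, when
they act as derivations. Their space is the Lie algebra of the centre of the Hodge group of `A`. -/
def CentHodge (A : AV) : Submodule ℚ (A.H →ₗ[ℚ] A.H) :=
  Submodule.span ℚ {z | IsCentral A z ∧ Kills A z}

/-- The dimension of the symmetric part of the centre of `End(A) ⊗ ℚ`. -/
noncomputable def symDim (A : AV) (E : A.H → A.H → ℚ) : ℕ := finrank ℚ (CentSym A E)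

/-- The dimension of the centre of the Hodge group. -/
noncomputable def hodgeDim (A : AV) : ℕ := finrank ℚ (CentHodge A)

/-- The Rosati involution is trivial on a nonzero ideal of the centre of `End(A) ⊗ ℚ` (so some
simple factor of `A` has a totally real centre). -/
def HasRealFactor (A : AV) (E : A.H → A.H → ℚ) : Prop :=
  ∃ z, IsCentral A z ∧ z ≠ 0 ∧ ∀ w, IsCentral A w → IsSym E (z.comp w)

/-- Hodge classes on the powers of `A`. -/
structure PowClass (A : AV) where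
  /-- a variety isogenous to a power of `A` -/
  Y : AV
  pow : ∃ n, IsPower A Y n
  /-- the index set of the variables -/
  κ : Type
  fin : Finite κ
  /-- the class -/
  f : Y.H [⋀^κ]→ₗ[ℚ] ℚ
  hodge : IsHodge Y.per f

/-- The class belongs to the system. -/
def PowClass.Mem {A : AV} (c : PowClass A) (𝒜 : Sys) : Prop := 𝒜.A c.Y c.κ c.f

end Pool.Agent.NH32
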