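import Mathlib
import Pool.Agent.Y90.Wei8
import Pool.Agent.NH32.Stm

/-!
# The complex span of a system of classes
-/

set_option linter.unusedSectionVars false

namespace Pool.Agent.NH32

open Matrix Module Pool.Agent.W437.HC Pool.Agent.W437.HD Pool.Agent.TH504.CB Pool.Agent.Y90
open Pool.Agent.W548.Odd hiding cv
open Pool.Agent.H204R3.CM (IsHodge)
open Pool.Agent.W437.HP (cK cK_mul cK_one)

noncomputable section

section ra

variable (𝒜 : Sys) (X : AV)

/-- The complex span of the system. -/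
def RA (κ : Type) : Submodule ℂ ((κ → X.H) → ℂ) :=
  Submodule.span ℂ {g | ∃ r, 𝒜.A X κ r ∧ g = fun v => ((r v : ℚ) : ℂ)}

variable {𝒜} {X}

theorem RA_of {κ : Type} {r : X.H [⋀^κ]→ₗ[ℚ] ℚ} (h : 𝒜.A X κ r) :
    (fun v => ((r v : ℚ) : ℂ)) ∈ RA 𝒜 X κ := Submodule.subset_span ⟨r, h, rfl⟩

theorem RA_reindex {κ κ' : Type} (e : κ ≃ κ') {g : (κ → X.H) → ℂ} (hg : g ∈ RA 𝒜 X κ) :
    (fun v => g (fun k => v (e k))) ∈ RA 𝒜 X κ' := by
  unfold RA at hg
  induction hg using Submodule.span_induction with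
  | mem g hg =>
    obtain ⟨r, hr, rfl⟩ := hg
    exact RA_of (𝒜.reindex e _ hr)
  | zero => exact Submodule.zero_mem _
  | add x y _ _ hx hy => exact Submodule.add_mem _ hx hy
  | smul c x _ hx => exact Submodule.smul_mem _ c hx

theorem RA_pull {X Y : AV} (h : X.H →ₗ[ℚ] Y.H) (hh : IsHom X Y h) {κ : Type}
    {g : (κ → Y.H) → ℂ} (hg : g ∈ RA 𝒜 Y κ) : (fun v => g (fun k => h (v k))) ∈ RA 𝒜 X κ := by
  unfold RA at hg
  induction hg using Submodule.span_induction with
  | mem g hg =>
    obtain ⟨r, hr, rfl⟩ := hg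
    exact RA_of (𝒜.pull h hh _ hr)
  | zero => exact Submodule.zero_mem _
  | add x y _ _ hx hy => exact Submodule.add_mem _ hx hy
  | smul c x _ hx => exact Submodule.smul_mem _ c hx

/-- The restriction of a form to one factor of a product, the other variables being fixed. -/
def restr {X Y P : AV} (i : X.H →ₗ[ℚ] P.H) (j : Y.H →ₗ[ℚ] P.H) {κ κ' : Type} (b : κ' → Y.H)
    (f : P.H [⋀^κ ⊕ κ']→ₗ[ℚ] ℚ) : X.H [⋀^κ]→ₗ[ℚ] ℚ where
  toFun v := f (Sum.elim (fun k => i (v k)) fun k => j (b k))
  map_update_add' := by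
    intro _ v k x y
    let _ : DecidableEq κ' := Classical.decEq κ'
    have h1 : ∀ z, (Sum.elim (fun l => i (Function.update v k z l)) fun l => j (b l)) =
        Function.update (Sum.elim (fun l => i (v l)) fun l => j (b l)) (Sum.inl k) (i z) := by
      intro z
      funext l
      rcases l with l | l
      · by_cases hl : l = k
        · subst hl
          simp
        · rw [Sum.elim_inl, Function.update_of_ne hl,
            Function.update_of_ne (fun h => hl (Sum.inl_injective h)), Sum.elim_inl]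
      · rw [Sum.elim_inr, Function.update_of_ne (by simp), Sum.elim_inr]
    rw [h1, h1, h1, map_add, AlternatingMap.map_update_add]
  map_update_smul' := by
    intro _ v k c x
    let _ : DecidableEq κ' := Classical.decEq κ'
    have h1 : ∀ z, (Sum.elim (fun l => i (Function.update v k z l)) fun l => j (b l)) =
        Function.update (Sum.elim (fun l => i (v l)) fun l => j (b l)) (Sum.inl k) (i z) := by
      intro z
      funext l
      rcases l with l | l
      · by_cases hl : l = k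
        · subst hl
          simp
        · rw [Sum.elim_inl, Function.update_of_ne hl,
            Function.update_of_ne (fun h => hl (Sum.inl_injective h)), Sum.elim_inl]
      · rw [Sum.elim_inr, Function.update_of_ne (by simp), Sum.elim_inr]
    rw [h1, h1, map_smul, AlternatingMap.map_update_smul]
  map_eq_zero_of_eq' := by
    intro v k l hkl hne
    refine f.map_eq_zero_of_eq _ (i := Sum.inl k) (j := Sum.inl l) ?_
      (fun h => hne (Sum.inl_injective h))
    rw [Sum.elim_inl, Sum.elim_inl, hkl]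

theorem restr_apply {X Y P : AV} (i : X.H →ₗ[ℚ] P.H) (j : Y.H →ₗ[ℚ] P.H) {κ κ' : Type}
    (b : κ' → Y.H) (f : P.H [⋀^κ ⊕ κ']→ₗ[ℚ] ℚ) (v : κ → X.H) :
    restr i j b f v = f (Sum.elim (fun k => i (v k)) fun k => j (b k)) := rfl

theorem RA_push {X Y P : AV} (i : X.H →ₗ[ℚ] P.H) (hi : IsHom X P i) (j : Y.H →ₗ[ℚ] P.H)
    (hj : IsHom Y P j) (hij : Function.Bijective fun w : X.H × Y.H => i w.1 + j w.2)
    {κ κ' : Type} (b : Basis κ' ℚ Y.H) {g : (κ ⊕ κ' → P.H) → ℂ} (hg : g ∈ RA 𝒜 P (κ ⊕ κ')) :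
    (fun v : κ → X.H => g (Sum.elim (fun k => i (v k)) fun k => j (b k))) ∈ RA 𝒜 X κ := by
  unfold RA at hg
  induction hg using Submodule.span_induction with
  | mem g hg =>
    obtain ⟨r, hr, rfl⟩ := hg
    have h1 := RA_of (𝒜.push i j ⟨hi, hj, hij⟩ b r hr (restr i j b r) fun v => rfl)
    exact h1
  | zero => exact Submodule.zero_mem _
  | add x y _ _ hx hy => exact Submodule.add_mem _ hx hy
  | smul c x _ hx => exact Submodule.smul_mem _ c hx

theorem RA_mul {κ κ' : Type} [Fintype κ] [DecidableEq κ] [Fintype κ'] [DecidableEq κ']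
    {g : (κ → X.H) → ℂ} {g' : (κ' → X.H) → ℂ} (hg : g ∈ RA 𝒜 X κ) (hg' : g' ∈ RA 𝒜 X κ') :
    mulA g g' ∈ RA 𝒜 X (κ ⊕ κ') := by
  unfold RA at hg
  induction hg using Submodule.span_induction with
  | mem g hg =>
    obtain ⟨r, hr, rfl⟩ := hg
    unfold RA at hg'
    induction hg' using Submodule.span_induction with
    | mem g' hg' =>
      obtain ⟨r', hr', rfl⟩ := hg'
      let h : X.H [⋀^κ ⊕ κ']→ₗ[ℚ] ℚ := MultilinearMap.alternatization
        (prd r.toMultilinearMap r'.toMultilinearMap)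
      have hh : ∀ v : κ ⊕ κ' → X.H, h v = ∑ σ : Equiv.Perm (κ ⊕ κ'),
          ((Equiv.Perm.sign σ : ℤ) : ℚ) *
            (r (fun k => v (σ (Sum.inl k))) * r' (fun k => v (σ (Sum.inr k)))) := by
        intro v
        rw [MultilinearMap.alternatization_apply]
        refine Finset.sum_congr rfl fun σ _ => ?_
        rw [MultilinearMap.domDomCongr_apply, prd_apply, Units.smul_def, zsmul_eq_mul]
        rfl
      have h1 := RA_of (𝒜.cup r r' hr hr' h hh)
      have h2 : (fun v => ((h v : ℚ) : ℂ)) =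
          mulA (fun v => ((r v : ℚ) : ℂ)) (fun v => ((r' v : ℚ) : ℂ)) := by
        funext v
        rw [hh]
        unfold mulA
        push_cast
        rfl
      rwa [h2] at h1
    | zero =>
      have h2 : mulA (fun v => ((r v : ℚ) : ℂ)) (0 : (κ' → X.H) → ℂ) = 0 := by
        funext v
        simp [mulA]
      rw [h2]
      exact Submodule.zero_mem _
    | add x y _ _ hx hy =>
      have h2 : mulA (fun v => ((r v : ℚ) : ℂ)) (x + y) = mulA (fun v => ((r v : ℚ) : ℂ)) x +
          mulA (fun v => ((r v : ℚ) : ℂ)) y := by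
        funext v
        simp only [mulA, Pi.add_apply, mul_add, Finset.sum_add_distrib]
      rw [h2]
      exact Submodule.add_mem _ hx hy
    | smul c x _ hx =>
      have h2 : mulA (fun v => ((r v : ℚ) : ℂ)) (c • x) =
          c • mulA (fun v => ((r v : ℚ) : ℂ)) x := by
        funext v
        simp only [mulA, Pi.smul_apply, smul_eq_mul, Finset.mul_sum]
        refine Finset.sum_congr rfl fun σ _ => by ring
      rw [h2]
      exact Submodule.smul_mem _ _ hx
  | zero =>
    have h2 : mulA (0 : (κ → X.H) → ℂ) g' = 0 := by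
      funext v
      simp [mulA]
    rw [h2]
    exact Submodule.zero_mem _
  | add x y _ _ hx hy =>
    have h2 : mulA (x + y) g' = mulA x g' + mulA y g' := by
      funext v
      simp only [mulA, Pi.add_apply, add_mul, mul_add, Finset.sum_add_distrib]
    rw [h2]
    exact Submodule.add_mem _ hx hy
  | smul c x _ hx =>
    have h2 : mulA (c • x) g' = c • mulA x g' := by
      funext v
      simp only [mulA, Pi.smul_apply, smul_eq_mul, Finset.mul_sum]
      refine Finset.sum_congr rfl fun σ _ => by ring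
    rw [h2]
    exact Submodule.smul_mem _ _ hx

theorem RA_lam {κ : Type} {g : (κ → X.H) → ℂ} (hg : g ∈ RA 𝒜 X κ) :
    ∀ l : ℂ →ₗ[ℚ] ℚ, ∃ r, 𝒜.A X κ r ∧ ∀ v, l (g v) = r v := by
  unfold RA at hg
  induction hg using Submodule.span_induction with
  | mem g hg =>
    obtain ⟨r, hr, rfl⟩ := hg
    intro l
    refine ⟨l 1 • r, 𝒜.smul _ _ hr, fun v => ?_⟩
    have h1 : ((r v : ℚ) : ℂ) = r v • (1 : ℂ) := by rw [Rat.smul_def, mul_one]
    beta_reduce
    rw [h1, map_smul, AlternatingMap.smul_apply, smul_eq_mul, smul_eq_mul, mul_comm]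
  | zero =>
    intro l
    refine ⟨0, 𝒜.zero X κ, fun v => ?_⟩
    rw [Pi.zero_apply, map_zero]
    rfl
  | add x y _ _ hx hy =>
    intro l
    obtain ⟨r, hr, h1⟩ := hx l
    obtain ⟨r', hr', h2⟩ := hy l
    refine ⟨r + r', 𝒜.add _ _ hr hr', fun v => ?_⟩
    rw [Pi.add_apply, map_add, h1, h2]
    rfl
  | smul c x _ hx =>
    intro l
    obtain ⟨r, hr, h1⟩ := hx (l.comp ((LinearMap.mulLeft ℂ c).restrictScalars ℚ))
    exact ⟨r, hr, h1⟩

/-- Rational forms in the complex span belong to the system. -/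
theorem RA_descent {κ : Type} {f : X.H [⋀^κ]→ₗ[ℚ] ℚ}
    (hf : (fun v => ((f v : ℚ) : ℂ)) ∈ RA 𝒜 X κ) : 𝒜.A X κ f := by
  obtain ⟨l, hl⟩ := exists_lam
  obtain ⟨r, hr, h1⟩ := RA_lam hf l
  have h2 : r = f := by
    ext v
    rw [← h1]
    have h3 : ((f v : ℚ) : ℂ) = f v • (1 : ℂ) := by rw [Rat.smul_def, mul_one]
    beta_reduce
    rw [h3, map_smul, hl, smul_eq_mul, mul_one]
  rw [← h2]
  exact hr

end ra

end

end Pool.Agent.NH32
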