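import Mathlib
import Pool.Agent.NH32.RA

/-!
# Powers of abelian varieties
-/

set_option linter.unusedSectionVars false

namespace Pool.Agent.NH32

open Matrix Module Pool.Agent.W437.HC Pool.Agent.W437.HD Pool.Agent.TH504.CB Pool.Agent.Y90
open Pool.Agent.H204R3.CM (IsHodge)

noncomputable section

/-- The period map of a power. -/
def perI {H T : Type} [AddCommGroup H] [AddCommGroup T] (per : H →+ T) (ι : Type) :
    (ι → H) →+ (ι → T) where
  toFun w := fun i => per (w i)
  map_zero' := by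
    funext i
    exact map_zero per
  map_add' v w := by
    funext i
    exact map_add per _ _

theorem perI_apply {H T : Type} [AddCommGroup H] [AddCommGroup T] (per : H →+ T) (ι : Type)
    (w : ι → H) (i : ι) : perI per ι w i = per (w i) := rfl

theorem polI {H T : Type} [AddCommGroup H] [Module ℚ H] [AddCommGroup T] [Module ℂ T]
    {per : H →+ T} {E : H → H → ℚ} (hE : IsPolarization per E) (ι : Type) [Fintype ι] :
    IsPolarization (perI per ι) fun v w => ∑ i, E (v i) (w i) := by
  obtain ⟨Ψ, h1, h2, h3, h4⟩ := hE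
  refine ⟨fun u u' => ∑ i, Ψ (u i) (u' i), fun u' => ⟨fun u v => ?_, fun c u => ?_⟩,
    fun u u' => ?_, fun u hu => ?_, fun v w => ?_⟩
  · rw [← Finset.sum_add_distrib]
    exact Finset.sum_congr rfl fun i _ => (h1 (u' i)).map_add _ _
  · rw [smul_eq_mul, Finset.mul_sum]
    exact Finset.sum_congr rfl fun i _ => (h1 (u' i)).map_smul _ _
  · rw [map_sum]
    exact Finset.sum_congr rfl fun i _ => h2 _ _
  · obtain ⟨i, hi⟩ := Function.ne_iff.1 hu
    rw [Complex.re_sum]
    refine Finset.sum_pos' (fun j _ => ?_) ⟨i, Finset.mem_univ _, h3 _ hi⟩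
    by_cases hj : u j = 0
    · have h5 : Ψ (u j) (u j) = 0 := by
        have h6 := (h1 (u j)).map_smul 0 (u j)
        rw [zero_smul, zero_smul] at h6
        have h7 : Ψ (u j) (u j) = Ψ 0 (u j) := by
          conv_lhs => rw [hj]
          rw [hj]
        rw [h7, h6]
      rw [h5]
      exact le_refl _
    · exact (h3 _ hj).le
  · rw [Complex.im_sum, Rat.cast_sum]
    exact Finset.sum_congr rfl fun i _ => h4 _ _

/-- The power `A ^ ι`. -/
def powAV (A : AV) (ι : Type) [Fintype ι] : AV where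
  H := ι → A.H
  T := ι → A.T
  per := perI A.per ι
  span := by
    classical
    rw [eq_top_iff]
    intro t _
    have h1 : t = ∑ i, Pi.single i (t i) := (Finset.univ_sum_single t).symm
    rw [h1]
    refine Submodule.sum_mem _ fun i _ => ?_
    have h2 : t i ∈ Submodule.span ℝ (Set.range A.per) := by rw [A.span]; trivial
    generalize t i = s at h2
    induction h2 using Submodule.span_induction with
    | mem x hx =>
      obtain ⟨w, rfl⟩ := hx
      refine Submodule.subset_span ⟨Pi.single i w, ?_⟩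
      funext j
      rw [perI_apply]
      by_cases hj : j = i
      · subst hj
        rw [Pi.single_eq_same, Pi.single_eq_same]
      · rw [Pi.single_eq_of_ne hj, Pi.single_eq_of_ne hj, map_zero]
    | zero =>
      rw [Pi.single_zero]
      exact Submodule.zero_mem _
    | add x y _ _ hx hy =>
      rw [Pi.single_add]
      exact Submodule.add_mem _ hx hy
    | smul c x _ hx =>
      rw [Pi.single_smul]
      exact Submodule.smul_mem _ _ hx
  rank := by
    rw [finrank_pi_fintype, finrank_pi_fintype, Finset.sum_const, Finset.sum_const, A.rank,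
      smul_eq_mul, smul_eq_mul]
    ring
  pol := by
    obtain ⟨E, hE⟩ := A.pol
    exact ⟨_, polI hE ι⟩

variable {A : AV}

theorem IsHom.comp {X Y Z : AV} {f : Y.H →ₗ[ℚ] Z.H} {g : X.H →ₗ[ℚ] Y.H} (hf : IsHom Y Z f)
    (hg : IsHom X Y g) : IsHom X Z (f ∘ₗ g) := by
  obtain ⟨Ψ, hΨ⟩ := hf
  obtain ⟨Φ, hΦ⟩ := hg
  exact ⟨Ψ ∘ₗ Φ, fun v => by rw [LinearMap.comp_apply, hΦ, hΨ]; rfl⟩

/-- Homomorphisms given by maps of the index sets. -/
def pbI (A : AV) {ι ι' : Type} [Fintype ι] [Fintype ι'] (ρ : ι' → ι) :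
    (powAV A ι).H →ₗ[ℚ] (powAV A ι').H where
  toFun v := fun j => v (ρ j)
  map_add' _ _ := rfl
  map_smul' _ _ := rfl

theorem pbI_hom {ι ι' : Type} [Fintype ι] [Fintype ι'] (ρ : ι' → ι) :
    IsHom (powAV A ι) (powAV A ι') (pbI A ρ) :=
  ⟨{ toFun := fun v j => v (ρ j)
     map_add' := fun _ _ => rfl
     map_smul' := fun _ _ => rfl }, fun _ => rfl⟩

/-- Partial sums. -/
def psI (A : AV) {ι ι' : Type} [Fintype ι] [Fintype ι'] (S : ι' → Finset ι) :
    (powAV A ι).H →ₗ[ℚ] (powAV A ι').H where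
  toFun v := fun j => ∑ k ∈ S j, (v : ι → A.H) k
  map_add' v w := by
    funext j
    exact Finset.sum_add_distrib
  map_smul' c v := by
    funext j
    exact (Finset.smul_sum (r := c) (f := (v : ι → A.H)) (s := S j)).symm

theorem psI_hom {ι ι' : Type} [Fintype ι] [Fintype ι'] (S : ι' → Finset ι) :
    IsHom (powAV A ι) (powAV A ι') (psI A S) :=
  ⟨{ toFun := fun v j => ∑ k ∈ S j, (v : ι → A.T) k
     map_add' := fun v w => by
      funext j
      exact Finset.sum_add_distrib
     map_smul' := fun c v => by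
      funext j
      exact (Finset.smul_sum (r := c) (f := (v : ι → A.T)) (s := S j)).symm }, fun v => by
      funext j
      exact (map_sum A.per (v : ι → A.H) (S j)).symm⟩

/-- The evaluation at an index. -/
def evI (A : AV) {ι : Type} [Fintype ι] (i : ι) : (powAV A ι).H →ₗ[ℚ] A.H where
  toFun v := v i
  map_add' _ _ := rfl
  map_smul' _ _ := rfl

theorem evI_pbI {ι ι' : Type} [Fintype ι] [Fintype ι'] (ρ : ι' → ι) (j : ι')
    (v : (powAV A ι).H) : evI A j (pbI A ρ v) = evI A (ρ j) v := rfl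

theorem evI_psI {ι ι' : Type} [Fintype ι] [Fintype ι'] (S : ι' → Finset ι) (j : ι')
    (v : (powAV A ι).H) : evI A j (psI A S v) = ∑ k ∈ S j, evI A k v := rfl

theorem evI_ext {ι : Type} [Fintype ι] {v w : (powAV A ι).H}
    (h : ∀ i, evI A i v = evI A i w) : v = w := funext h

theorem evI_hom {ι : Type} [Fintype ι] (i : ι) : IsHom (powAV A ι) A (evI A i) :=
  ⟨{ toFun := fun v => v i
     map_add' := fun _ _ => rfl
     map_smul' := fun _ _ => rfl }, fun _ => rfl⟩

/-- The inclusion of a factor. -/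
def sgI (A : AV) {ι : Type} [Fintype ι] [DecidableEq ι] (i : ι) : A.H →ₗ[ℚ] (powAV A ι).H :=
  LinearMap.single ℚ (fun _ : ι => A.H) i

theorem sgI_apply {ι : Type} [Fintype ι] [DecidableEq ι] (i : ι) (v : A.H) :
    sgI A i v = (Pi.single i v : ι → A.H) := rfl

theorem evI_sgI {ι : Type} [Fintype ι] [DecidableEq ι] (i j : ι) (v : A.H) :
    evI A j (sgI A i v) = if j = i then v else 0 := by
  change (Pi.single i v : ι → A.H) j = _
  rw [Pi.single_apply]

theorem sum_sgI {ι : Type} [Fintype ι] [DecidableEq ι] (v : (powAV A ι).H) :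
    ∑ i, sgI A i (evI A i v) = v := Finset.univ_sum_single (v : ι → A.H)

theorem sgI_hom {ι : Type} [Fintype ι] [DecidableEq ι] (i : ι) :
    IsHom A (powAV A ι) (sgI A i) := by
  refine ⟨LinearMap.single ℂ (fun _ : ι => A.T) i, fun v => ?_⟩
  funext j
  change (Pi.single i (A.per v) : ι → A.T) j = A.per ((Pi.single i v : ι → A.H) j)
  by_cases hj : j = i
  · subst hj
    rw [Pi.single_eq_same, Pi.single_eq_same]
  · rw [Pi.single_eq_of_ne hj, Pi.single_eq_of_ne hj, map_zero]

theorem powAV_isPow (A : AV) (n : ℕ) : IsPow A (powAV A (Fin n)) n fun k => sgI A k := by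
  refine ⟨fun k => sgI_hom k, ?_⟩
  have h1 : (fun w : Fin n → A.H => ∑ k, sgI A k (w k)) = id := by
    funext w
    exact Finset.univ_sum_single w
  rw [h1]
  exact Function.bijective_id

/-- The powers indexed by a finite set are powers. -/
theorem powAV_isPower (A : AV) (ι : Type) [Fintype ι] : IsPower A (powAV A ι) (Fintype.card ι) := by
  classical
  let e := Fintype.equivFin ι
  refine ⟨fun k => sgI A (e.symm k), fun k => sgI_hom _, ?_⟩
  have h1 : (fun w : Fin (Fintype.card ι) → A.H => ∑ k, sgI A (e.symm k) (w k)) =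
      fun w => fun i => w (e i) := by
    funext w
    have h2 := Finset.univ_sum_single (fun i => w (e i))
    rw [← h2]
    refine Fintype.sum_equiv e.symm _ _ fun k => ?_
    rw [e.apply_symm_apply]
    rfl
  rw [h1]
  constructor
  · intro v w hvw
    funext k
    have h2 := congrFun hvw (e.symm k)
    simpa using h2
  · intro v
    refine ⟨fun k => (v : ι → A.H) (e.symm k), ?_⟩
    funext i
    change (v : ι → A.H) (e.symm (e i)) = (v : ι → A.H) i
    rw [e.symm_apply_apply]

/-- The isogeny from the power. -/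
def isoP {X : AV} {n : ℕ} {i : Fin n → (A.H →ₗ[ℚ] X.H)} (h : IsPow A X n i) :
    (powAV A (Fin n)).H ≃ₗ[ℚ] X.H :=
  LinearEquiv.ofBijective
    { toFun := fun w => ∑ k, i k ((w : Fin n → A.H) k)
      map_add' := fun v w => by
        rw [← Finset.sum_add_distrib]
        exact Finset.sum_congr rfl fun k _ => map_add _ _ _
      map_smul' := fun c w => by
        rw [Finset.smul_sum]
        exact Finset.sum_congr rfl fun k _ => map_smul _ _ _ } h.2

theorem isoP_apply {X : AV} {n : ℕ} {i : Fin n → (A.H →ₗ[ℚ] X.H)} (h : IsPow A X n i)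
    (w : Fin n → A.H) : isoP h w = ∑ k, i k (w k) := rfl

/-- The inverse of an isogeny. -/
theorem hom_symm {X Y : AV} (e : X.H ≃ₗ[ℚ] Y.H) (he : IsHom X Y e.toLinearMap) :
    IsHom Y X e.symm.toLinearMap := by
  obtain ⟨Ψ, hΨ⟩ := he
  have hs : Function.Surjective (Ψ.restrictScalars ℝ) := by
    rw [← LinearMap.range_eq_top, eq_top_iff, ← Y.span, Submodule.span_le]
    rintro _ ⟨w, rfl⟩
    refine ⟨X.per (e.symm w), ?_⟩
    change Ψ (X.per (e.symm w)) = Y.per w
    rw [hΨ]
    change Y.per (e (e.symm w)) = _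
    rw [e.apply_symm_apply]
  have hd : finrank ℂ X.T = finrank ℂ Y.T := by
    have h1 := e.finrank_eq
    rw [X.rank, Y.rank] at h1
    omega
  have hi : Function.Injective Ψ :=
    (LinearMap.injective_iff_surjective_of_finrank_eq_finrank hd).2 hs
  let Φ : X.T ≃ₗ[ℂ] Y.T := LinearEquiv.ofBijective Ψ ⟨hi, hs⟩
  refine ⟨Φ.symm.toLinearMap, fun v => ?_⟩
  change Φ.symm (Y.per v) = X.per (e.symm v)
  rw [LinearEquiv.symm_apply_eq]
  change _ = Ψ (X.per (e.symm v))
  rw [hΨ]
  change _ = Y.per (e (e.symm v))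
  rw [e.apply_symm_apply]

theorem isoP_hom {X : AV} {n : ℕ} {i : Fin n → (A.H →ₗ[ℚ] X.H)} (h : IsPow A X n i) :
    IsHom (powAV A (Fin n)) X (isoP h).toLinearMap := by
  choose Ψ hΨ using h.1
  refine ⟨∑ k, Ψ k ∘ₗ LinearMap.proj k, fun v => ?_⟩
  rw [LinearMap.sum_apply]
  change ∑ k, Ψ k (A.per ((v : Fin n → A.H) k)) = X.per (∑ k, i k ((v : Fin n → A.H) k))
  rw [map_sum]
  exact Finset.sum_congr rfl fun k _ => hΨ k _

/-- Transport along isogenies. -/
theorem allHodge_iso (𝒜 : Sys) {X Y : AV} (e : X.H ≃ₗ[ℚ] Y.H) (he : IsHom X Y e.toLinearMap)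
    (h : 𝒜.AllHodge X) : 𝒜.AllHodge Y := by
  intro κ _ f hf
  have h1 := hom_symm e he
  obtain ⟨Ψ, hΨ⟩ := he
  have h2 : IsHodge X.per (f.compLinearMap e.toLinearMap) := isHodge_comp e.toLinearMap Ψ hΨ hf
  have h3 := 𝒜.pull e.symm.toLinearMap h1 _ (h κ _ h2)
  have h4 : (f.compLinearMap e.toLinearMap).compLinearMap e.symm.toLinearMap = f := by
    ext v
    rw [AlternatingMap.compLinearMap_apply, AlternatingMap.compLinearMap_apply]
    congr 1
    funext k
    exact e.apply_symm_apply (v k)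
  rwa [h4] at h3

end

end Pool.Agent.NH32
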