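import Mathlib
import Pool.Agent.NH32.Pow
import Pool.Agent.NH32.Inv

/-!
# The forms on powers given by tensors
-/

set_option linter.unusedSectionVars false

namespace Pool.Agent.NH32

open Matrix Module Pool.Agent.W437.HC Pool.Agent.W437.HD Pool.Agent.TH504.CB Pool.Agent.Y90
open Pool.Agent.H204R3.CM (IsHodge)

noncomputable section

/-- Alternation of functions. -/
def altA {κ M : Type} [Fintype κ] [DecidableEq κ] (G : (κ → M) → ℂ) (v : κ → M) : ℂ :=
  ∑ σ : Equiv.Perm κ, ((Equiv.Perm.sign σ : ℤ) : ℂ) * G (fun k => v (σ k))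

theorem altA_add {κ M : Type} [Fintype κ] [DecidableEq κ] (G G' : (κ → M) → ℂ) :
    altA (G + G') = altA G + altA G' := by
  funext v
  simp only [altA, Pi.add_apply, mul_add, Finset.sum_add_distrib]

theorem altA_zero {κ M : Type} [Fintype κ] [DecidableEq κ] :
    altA (0 : (κ → M) → ℂ) = 0 := by
  funext v
  simp only [altA, Pi.zero_apply, mul_zero, Finset.sum_const_zero]

theorem altA_smul {κ M : Type} [Fintype κ] [DecidableEq κ] (a : ℂ) (G : (κ → M) → ℂ) :
    altA (a • G) = a • altA G := by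
  funext v
  simp only [altA, Pi.smul_apply, smul_eq_mul, Finset.mul_sum]
  exact Finset.sum_congr rfl fun σ _ => by ring

/-- Alternation as a linear map. -/
def altL (κ M : Type) [Fintype κ] [DecidableEq κ] : ((κ → M) → ℂ) →ₗ[ℂ] ((κ → M) → ℂ) where
  toFun := altA
  map_add' := altA_add
  map_smul' := altA_smul

theorem altL_apply {κ M : Type} [Fintype κ] [DecidableEq κ] (G : (κ → M) → ℂ) :
    altL κ M G = altA G := rfl

/-- Products of alternations. -/
theorem mulA_altA {X : AV} {κ κ' : Type} [Fintype κ] [DecidableEq κ] [Fintype κ'] [DecidableEq κ']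
    (G : (κ → X.H) → ℂ) (G' : (κ' → X.H) → ℂ) (v : κ ⊕ κ' → X.H) :
    mulA (X := X) (altA G) (altA G') v =
      ((Fintype.card (Equiv.Perm κ) : ℂ) * (Fintype.card (Equiv.Perm κ') : ℂ)) *
        altA (fun w : κ ⊕ κ' → X.H => G (fun k => w (Sum.inl k)) * G' (fun k => w (Sum.inr k))) v
          := by
  have h1 : mulA (X := X) (altA G) (altA G') v =
      ∑ σ : Equiv.Perm (κ ⊕ κ'), ∑ ρ : Equiv.Perm κ, ∑ ρ' : Equiv.Perm κ',
        ((Equiv.Perm.sign σ : ℤ) : ℂ) * (((Equiv.Perm.sign ρ : ℤ) : ℂ) *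
          ((Equiv.Perm.sign ρ' : ℤ) : ℂ)) * (G (fun k => v (σ (Sum.inl (ρ k)))) *
            G' (fun k => v (σ (Sum.inr (ρ' k))))) := by
    unfold mulA altA
    refine Finset.sum_congr rfl fun σ _ => ?_
    rw [Finset.sum_mul_sum, Finset.mul_sum]
    refine Finset.sum_congr rfl fun ρ _ => ?_
    rw [Finset.mul_sum]
    refine Finset.sum_congr rfl fun ρ' _ => ?_
    ring
  rw [h1, Finset.sum_comm]
  have h2 : ∀ ρ : Equiv.Perm κ, ∑ σ : Equiv.Perm (κ ⊕ κ'), ∑ ρ' : Equiv.Perm κ',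
        ((Equiv.Perm.sign σ : ℤ) : ℂ) * (((Equiv.Perm.sign ρ : ℤ) : ℂ) *
          ((Equiv.Perm.sign ρ' : ℤ) : ℂ)) * (G (fun k => v (σ (Sum.inl (ρ k)))) *
            G' (fun k => v (σ (Sum.inr (ρ' k))))) =
      (Fintype.card (Equiv.Perm κ') : ℂ) *
        altA (fun w : κ ⊕ κ' → X.H => G (fun k => w (Sum.inl k)) * G' (fun k => w (Sum.inr k))) v
          := by
    intro ρ
    rw [Finset.sum_comm]
    have h3 : ∀ ρ' : Equiv.Perm κ', ∑ σ : Equiv.Perm (κ ⊕ κ'),
        ((Equiv.Perm.sign σ : ℤ) : ℂ) * (((Equiv.Perm.sign ρ : ℤ) : ℂ) *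
          ((Equiv.Perm.sign ρ' : ℤ) : ℂ)) * (G (fun k => v (σ (Sum.inl (ρ k)))) *
            G' (fun k => v (σ (Sum.inr (ρ' k))))) =
        altA (fun w : κ ⊕ κ' → X.H => G (fun k => w (Sum.inl k)) * G' (fun k => w (Sum.inr k))) v
          := by
      intro ρ'
      unfold altA
      rw [← Equiv.sum_comp (Equiv.mulRight (Equiv.Perm.sumCongr ρ ρ'))
        (fun σ : Equiv.Perm (κ ⊕ κ') => ((Equiv.Perm.sign σ : ℤ) : ℂ) *
          (G (fun k => v (σ (Sum.inl k))) * G' (fun k => v (σ (Sum.inr k)))))]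
      refine Finset.sum_congr rfl fun σ _ => ?_
      have h4 : (Equiv.mulRight (Equiv.Perm.sumCongr ρ ρ')) σ = σ * Equiv.Perm.sumCongr ρ ρ' := rfl
      rw [h4, Equiv.Perm.sign_mul, Equiv.Perm.sign_sumCongr]
      push_cast
      rfl
    rw [Finset.sum_congr rfl fun ρ' _ => h3 ρ', Finset.sum_const, nsmul_eq_mul, Finset.card_univ]
  rw [Finset.sum_congr rfl fun ρ _ => h2 ρ, Finset.sum_const, nsmul_eq_mul, Finset.card_univ]
  ring

variable {A : AV} {B : Type} [Fintype B] [DecidableEq B] (e : A.H ≃ₗ[ℚ] (B → ℚ))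

/-- The value of a tensor on vectors. -/
def vv {κ : Type} [Fintype κ] [DecidableEq κ] (c : (κ → B) → ℂ) (x : κ → A.H) : ℂ :=
  evalF c (fun k => cv (e (x k)))

/-- The form on the power `A ^ ι` given by a tensor, where the slot `k` takes the coordinate
`φ k`. -/
def fm {κ ι : Type} [Fintype κ] [DecidableEq κ] [Fintype ι] (φ : κ → ι) (c : (κ → B) → ℂ) :
    (κ → (powAV A ι).H) → ℂ :=
  altA fun v => vv e c (fun k => evI A (φ k) (v k))

theorem fm_apply {κ ι : Type} [Fintype κ] [DecidableEq κ] [Fintype ι] (φ : κ → ι)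
    (c : (κ → B) → ℂ) (v : κ → (powAV A ι).H) :
    fm e φ c v = ∑ σ : Equiv.Perm κ, ((Equiv.Perm.sign σ : ℤ) : ℂ) *
      vv e c (fun k => evI A (φ k) (v (σ k))) := rfl

/-- The values as a linear map in the tensor. -/
theorem vv_add {κ : Type} [Fintype κ] [DecidableEq κ] (c d : (κ → B) → ℂ) (x : κ → A.H) :
    vv e (c + d) x = vv e c x + vv e d x := by
  simp only [vv, evalF, Pi.add_apply, add_mul, Finset.sum_add_distrib]

theorem vv_smul {κ : Type} [Fintype κ] [DecidableEq κ] (a : ℂ) (c : (κ → B) → ℂ) (x : κ → A.H) :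
    vv e (a • c) x = a * vv e c x := by
  simp only [vv, evalF, Pi.smul_apply, smul_eq_mul, mul_assoc, Finset.mul_sum]

/-- The forms as a linear map in the tensor. -/
def fmL {κ ι : Type} [Fintype κ] [DecidableEq κ] [Fintype ι] (φ : κ → ι) :
    ((κ → B) → ℂ) →ₗ[ℂ] ((κ → (powAV A ι).H) → ℂ) where
  toFun := fm e φ
  map_add' c d := by
    unfold fm
    rw [← altA_add]
    congr 1
    funext v
    exact vv_add e c d _
  map_smul' a c := by
    unfold fm
    rw [RingHom.id_apply, ← altA_smul]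
    congr 1
    funext v
    exact vv_smul e a c _

theorem fmL_apply {κ ι : Type} [Fintype κ] [DecidableEq κ] [Fintype ι] (φ : κ → ι) (c : (κ → B) → ℂ) :
    fmL e φ c = fm e φ c := rfl

variable (𝒜 : Sys)

/-- The tensors whose forms belong to the system. -/
def TQ (κ : Type) [Fintype κ] [DecidableEq κ] : Submodule ℂ ((κ → B) → ℂ) :=
  (RA 𝒜 (powAV A κ) κ).comap (fmL e (id : κ → κ))

variable {e} {𝒜}

theorem mem_TQ {κ : Type} [Fintype κ] [DecidableEq κ] {c : (κ → B) → ℂ} :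
    c ∈ TQ e 𝒜 κ ↔ fm e (id : κ → κ) c ∈ RA 𝒜 (powAV A κ) κ := Iff.rfl

/-- Change of the slots. -/
theorem fm_slots {κ ι ι' : Type} [Fintype κ] [DecidableEq κ] [Fintype ι] [Fintype ι']
    {φ : κ → ι} {c : (κ → B) → ℂ} (h : fm e φ c ∈ RA 𝒜 (powAV A ι) κ) (ρ : ι → ι') :
    fm e (fun k => ρ (φ k)) c ∈ RA 𝒜 (powAV A ι') κ :=
  RA_pull (X := powAV A ι') (Y := powAV A ι) (pbI A ρ) (pbI_hom ρ) h

theorem TQ_slots {κ ι : Type} [Fintype κ] [DecidableEq κ] [Fintype ι] {c : (κ → B) → ℂ}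
    (h : c ∈ TQ e 𝒜 κ) (φ : κ → ι) : fm e φ c ∈ RA 𝒜 (powAV A ι) κ :=
  fm_slots (mem_TQ.1 h) φ

/-- Tensors of degree zero. -/
theorem TQ_empty {κ : Type} [Fintype κ] [DecidableEq κ] [IsEmpty κ] (c : (κ → B) → ℂ) :
    c ∈ TQ e 𝒜 κ := by
  rw [mem_TQ]
  have h1 : fm e (id : κ → κ) c = c isEmptyElim • (fun _ => (((1 : ℚ)) : ℂ)) := by
    funext v
    rw [fm_apply, Fintype.sum_unique, Pi.smul_apply, smul_eq_mul, Rat.cast_one, mul_one]
    rw [Subsingleton.elim (default : Equiv.Perm κ) 1, Equiv.Perm.sign_one]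
    unfold vv evalF
    rw [Fintype.sum_unique]
    simp
    exact congrArg c (Subsingleton.elim _ _)
  rw [h1]
  refine Submodule.smul_mem _ _ ?_
  exact RA_of (X := powAV A κ) (𝒜.unit (AlternatingMap.constOfIsEmpty ℚ (powAV A κ).H κ 1))

/-- Injective slots. -/
theorem TQ_of_inj {κ ι : Type} [Fintype κ] [DecidableEq κ] [Fintype ι] {φ : κ → ι}
    (hφ : Function.Injective φ) {c : (κ → B) → ℂ} (h : fm e φ c ∈ RA 𝒜 (powAV A ι) κ) :
    c ∈ TQ e 𝒜 κ := by
  rcases isEmpty_or_nonempty κ with hκ | hκ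
  · exact TQ_empty c
  · rw [mem_TQ]
    have h1 := fm_slots h (Function.invFun φ)
    have h2 : (fun k => Function.invFun φ (φ k)) = id := by
      funext k
      exact Function.leftInverse_invFun hφ k
    rwa [h2] at h1

theorem evalF_reindex {κ κ' : Type} [Fintype κ] [DecidableEq κ] [Fintype κ'] [DecidableEq κ']
    (f : κ ≃ κ') (c : (κ → B) → ℂ) (x : κ' → B → ℂ) :
    evalF (fun I : κ' → B => c (fun k => I (f k))) x = evalF c (fun k => x (f k)) := by
  unfold evalF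
  refine Fintype.sum_equiv (Equiv.arrowCongr f.symm (Equiv.refl B)) _ _ fun I => ?_
  congr 1
  refine Fintype.prod_equiv f.symm _ _ fun k => ?_
  simp [Equiv.arrowCongr]

/-- Renaming of the slots. -/
theorem fm_reindex {κ κ' ι : Type} [Fintype κ] [DecidableEq κ] [Fintype κ'] [DecidableEq κ']
    [Fintype ι] (f : κ ≃ κ') {φ : κ → ι} {c : (κ → B) → ℂ}
    (h : fm e φ c ∈ RA 𝒜 (powAV A ι) κ) :
    fm e (fun k => φ (f.symm k)) (fun I : κ' → B => c (fun k => I (f k))) ∈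
      RA 𝒜 (powAV A ι) κ' := by
  have h1 := RA_reindex f h
  have h2 : (fun v : κ' → (powAV A ι).H => fm e φ c (fun k => v (f k))) =
      fm e (fun k => φ (f.symm k)) (fun I : κ' → B => c (fun k => I (f k))) := by
    funext v
    rw [fm_apply, fm_apply, ← Equiv.sum_comp (Equiv.permCongr f)
      (fun σ : Equiv.Perm κ' => ((Equiv.Perm.sign σ : ℤ) : ℂ) *
        vv e (fun I : κ' → B => c (fun k => I (f k)))
          (fun k => evI A (φ (f.symm k)) (v (σ k))))]
    refine Finset.sum_congr rfl fun σ _ => ?_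
    rw [Equiv.Perm.sign_permCongr]
    congr 1
    unfold vv
    rw [evalF_reindex f c]
    congr 1
    funext k
    simp only [Equiv.permCongr_apply, Equiv.symm_apply_apply]
  rw [← h2]
  exact h1

theorem TQ_reindex {κ κ' : Type} [Fintype κ] [DecidableEq κ] [Fintype κ'] [DecidableEq κ']
    (f : κ ≃ κ') {c : (κ → B) → ℂ} (h : c ∈ TQ e 𝒜 κ) :
    (fun I : κ' → B => c (fun k => I (f k))) ∈ TQ e 𝒜 κ' := by
  have h1 : fm e (fun k : κ' => (id : κ → κ) (f.symm k)) (fun I : κ' → B => c (fun k => I (f k))) ∈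
      RA 𝒜 (powAV A κ) κ' := fm_reindex f (mem_TQ.1 h)
  exact TQ_of_inj (φ := fun k : κ' => (id : κ → κ) (f.symm k)) f.symm.injective h1

theorem evalF_tp {κ κ' : Type} [Fintype κ] [DecidableEq κ] [Fintype κ'] [DecidableEq κ']
    (c : (κ → B) → ℂ) (c' : (κ' → B) → ℂ) (x : κ ⊕ κ' → B → ℂ) :
    evalF (tp c c') x = evalF c (fun k => x (Sum.inl k)) * evalF c' (fun k => x (Sum.inr k)) := by
  unfold evalF tp
  rw [Finset.sum_mul_sum, ← Fintype.sum_prod_type']
  refine Fintype.sum_equiv (Equiv.sumArrowEquivProdArrow κ κ' B) _ _ fun J => ?_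
  rw [Fintype.prod_sum_type]
  simp only [Equiv.sumArrowEquivProdArrow, Equiv.coe_fn_mk, Function.comp_def]
  ring

/-- Products. -/
theorem fm_mul {κ κ' ι : Type} [Fintype κ] [DecidableEq κ] [Fintype κ'] [DecidableEq κ']
    [Fintype ι] {φ : κ → ι} {φ' : κ' → ι} {c : (κ → B) → ℂ} {c' : (κ' → B) → ℂ}
    (h : fm e φ c ∈ RA 𝒜 (powAV A ι) κ) (h' : fm e φ' c' ∈ RA 𝒜 (powAV A ι) κ') :
    fm e (Sum.elim φ φ') (tp c c') ∈ RA 𝒜 (powAV A ι) (κ ⊕ κ') := by
  have h1 := RA_mul h h'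
  have h2 : fm e (Sum.elim φ φ') (tp c c') = ((Fintype.card (Equiv.Perm κ) : ℂ) *
      (Fintype.card (Equiv.Perm κ') : ℂ))⁻¹ • mulA (X := powAV A ι) (fm e φ c) (fm e φ' c') := by
    funext v
    rw [Pi.smul_apply, smul_eq_mul]
    unfold fm
    have h3 := mulA_altA (X := powAV A ι)
      (fun v : κ → (powAV A ι).H => vv e c (fun k => evI A (φ k) (v k)))
      (fun v : κ' → (powAV A ι).H => vv e c' (fun k => evI A (φ' k) (v k))) v
    rw [h3, ← mul_assoc, inv_mul_cancel₀, one_mul]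
    · congr 1
      funext w
      exact evalF_tp c c' _
    · refine mul_ne_zero ?_ ?_ <;> exact_mod_cast Fintype.card_ne_zero
  rw [h2]
  exact Submodule.smul_mem _ _ h1

theorem TQ_mul {κ κ' : Type} [Fintype κ] [DecidableEq κ] [Fintype κ'] [DecidableEq κ']
    {c : (κ → B) → ℂ} {c' : (κ' → B) → ℂ} (h : c ∈ TQ e 𝒜 κ) (h' : c' ∈ TQ e 𝒜 κ') :
    tp c c' ∈ TQ e 𝒜 (κ ⊕ κ') := by
  have h1 := fm_mul (TQ_slots h (Sum.inl : κ → κ ⊕ κ')) (TQ_slots h' (Sum.inr : κ' → κ ⊕ κ'))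
  have h2 : (Sum.elim Sum.inl Sum.inr : κ ⊕ κ' → κ ⊕ κ') = id := Sum.elim_inl_inr
  rwa [h2] at h1

/-- Complex conjugation. -/
theorem RA_conj {X : AV} {κ : Type} {g : (κ → X.H) → ℂ} (hg : g ∈ RA 𝒜 X κ) :
    (fun v => starRingEnd ℂ (g v)) ∈ RA 𝒜 X κ := by
  unfold RA at hg
  induction hg using Submodule.span_induction with
  | mem g hg =>
    obtain ⟨r, hr, rfl⟩ := hg
    have h1 : (fun v => starRingEnd ℂ (((r v : ℚ) : ℂ))) = fun v => ((r v : ℚ) : ℂ) := by
      funext v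
      exact map_ratCast _ _
    rw [h1]
    exact RA_of hr
  | zero =>
    have h1 : (fun v => starRingEnd ℂ ((0 : (κ → X.H) → ℂ) v)) = 0 := by
      funext v
      exact map_zero _
    rw [h1]
    exact Submodule.zero_mem _
  | add x y _ _ hx hy =>
    have h1 : (fun v => starRingEnd ℂ ((x + y) v)) =
        (fun v => starRingEnd ℂ (x v)) + fun v => starRingEnd ℂ (y v) := by
      funext v
      exact map_add _ _ _
    rw [h1]
    exact Submodule.add_mem _ hx hy
  | smul c x _ hx =>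
    have h1 : (fun v => starRingEnd ℂ ((c • x) v)) =
        (starRingEnd ℂ c) • fun v => starRingEnd ℂ (x v) := by
      funext v
      exact map_mul _ _ _
    rw [h1]
    exact Submodule.smul_mem _ _ hx

theorem vv_conj {κ : Type} [Fintype κ] [DecidableEq κ] (c : (κ → B) → ℂ) (x : κ → A.H) :
    vv e (fun I => starRingEnd ℂ (c I)) x = starRingEnd ℂ (vv e c x) := by
  unfold vv evalF
  rw [map_sum]
  refine Finset.sum_congr rfl fun I _ => ?_
  rw [map_mul, map_prod]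
  congr 1
  refine Finset.prod_congr rfl fun k _ => ?_
  exact (map_ratCast _ _).symm

theorem TQ_conj {κ : Type} [Fintype κ] [DecidableEq κ] {c : (κ → B) → ℂ} (h : c ∈ TQ e 𝒜 κ) :
    (fun I => starRingEnd ℂ (c I)) ∈ TQ e 𝒜 κ := by
  rw [mem_TQ] at h ⊢
  have h1 := RA_conj h
  have h2 : (fun v : κ → (powAV A κ).H => starRingEnd ℂ (fm e (id : κ → κ) c v)) =
      fm e (id : κ → κ) (fun I => starRingEnd ℂ (c I)) := by
    funext v
    rw [fm_apply, fm_apply, map_sum]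
    refine Finset.sum_congr rfl fun σ _ => ?_
    rw [map_mul, vv_conj, map_intCast]
  rw [← h2]
  exact h1

end

end Pool.Agent.NH32
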