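import Mathlib
import Pool.Agent.NH32.Geo1

/-!
# Push-forwards of forms given by tensors
-/

set_option linter.unusedSectionVars false

namespace Pool.Agent.NH32

open Matrix Module Pool.Agent.W437.HC Pool.Agent.W437.HD Pool.Agent.TH504.CB Pool.Agent.Y90
open Pool.Agent.H204R3.CM (IsHodge)

noncomputable section

/-- The alternation of a function which vanishes if the two kinds of variables are mixed. -/
theorem altA_split {κ κ' M : Type} [Fintype κ] [DecidableEq κ] [Fintype κ'] [DecidableEq κ']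
    (G : (κ ⊕ κ' → M) → ℂ) (w : κ ⊕ κ' → M)
    (h0 : ∀ σ : Equiv.Perm (κ ⊕ κ'), (∃ a b, σ (Sum.inl a) = Sum.inr b) →
      G (fun k => w (σ k)) = 0) :
    altA G w = ∑ ρ : Equiv.Perm κ, ∑ ρ' : Equiv.Perm κ', (((Equiv.Perm.sign ρ : ℤ) : ℂ) *
      ((Equiv.Perm.sign ρ' : ℤ) : ℂ)) * G (fun k => w (Equiv.Perm.sumCongr ρ ρ' k)) := by
  classical
  unfold altA
  symm
  convert Finset.sum_subset (M := ℂ)
    (Finset.subset_univ ((Equiv.Perm.sumCongrHom κ κ').range : Set (Equiv.Perm (κ ⊕ κ'))).toFinset)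
    (f := fun σ : Equiv.Perm (κ ⊕ κ') => ((Equiv.Perm.sign σ : ℤ) : ℂ) *
      G (fun k => w (σ k))) ?_
  · rw [← Finset.sum_product', Finset.univ_product_univ]
    refine Finset.sum_nbij (fun σ ↦ σ.fst.sumCongr σ.snd) ?_ ?_ ?_ ?_
    · intro σ₁₂ _
      rw [Set.mem_toFinset]
      exact ⟨σ₁₂, rfl⟩
    · intro σ₁ _ σ₂ _
      dsimp only
      intro h
      have h2 : ∀ x, Equiv.Perm.sumCongr σ₁.fst σ₁.snd x = Equiv.Perm.sumCongr σ₂.fst σ₂.snd x :=
        DFunLike.congr_fun h
      simp only [Sum.map_inr, Sum.map_inl, Equiv.Perm.sumCongr_apply, Sum.forall, Sum.inl.injEq,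
        Sum.inr.injEq] at h2
      ext x
      · exact h2.left x
      · exact h2.right x
    · intro σ hσ
      rw [Finset.mem_coe, Set.mem_toFinset] at hσ
      obtain ⟨σ₁₂, hσ₁₂⟩ := hσ
      use σ₁₂
      rw [← hσ₁₂]
      simp
    · rintro ⟨ρ, ρ'⟩ _
      dsimp only
      rw [Equiv.Perm.sign_sumCongr]
      push_cast
      ring
  · rintro σ - hσn
    have h5 : ¬∀ x, ∃ y, Sum.inl y = σ (Sum.inl x) := by
      rw [Set.mem_toFinset] at hσn
      simpa only [Set.MapsTo, Set.mem_range, forall_exists_index, forall_apply_eq_imp_iff] using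
        _root_.mt Equiv.Perm.mem_sumCongrHom_range_of_perm_mapsTo_inl hσn
    obtain ⟨a, ha⟩ := not_forall.mp h5
    rcases hx : σ (Sum.inl a) with a2 | c
    · have hn := (not_exists.mp ha) a2
      exact absurd hx.symm hn
    · rw [h0 σ ⟨a, c, hx⟩, mul_zero]

variable {A : AV} {B : Type} [Fintype B] [DecidableEq B] {e : A.H ≃ₗ[ℚ] (B → ℚ)}

theorem vv_zero {κ : Type} [Fintype κ] [DecidableEq κ] (c : (κ → B) → ℂ) {x : κ → A.H} {k : κ}
    (h : x k = 0) : vv e c x = 0 := by
  unfold vv evalF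
  refine Finset.sum_eq_zero fun I _ => ?_
  rw [Finset.prod_eq_zero (Finset.mem_univ k), mul_zero]
  beta_reduce
  rw [h, map_zero]
  unfold cv
  simp

/-- The value at basis vectors in some variables. -/
theorem vv_basis {κ : Type} [Fintype κ] [DecidableEq κ] (t : (κ ⊕ B → B) → ℂ) (x : κ → A.H)
    (ρ : B → B) :
    vv e t (Sum.elim x fun b => e.symm (Pi.single (ρ b) 1)) =
      vv e (fun I : κ → B => t (Sum.elim I ρ)) x := by
  unfold vv evalF
  have h1 : ∀ I : κ ⊕ B → B, t I * ∏ k, cv (e (Sum.elim x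
      (fun b => e.symm (Pi.single (ρ b) 1)) k)) (I k) =
      t I * ((∏ k, cv (e (x k)) (I (Sum.inl k))) *
        ∏ b, (if I (Sum.inr b) = ρ b then (1 : ℂ) else 0)) := by
    intro I
    rw [Fintype.prod_sum_type]
    congr 2
    refine Finset.prod_congr rfl fun b _ => ?_
    rw [Sum.elim_inr, e.apply_symm_apply, single_cv, Pi.single_apply]
  rw [Finset.sum_congr rfl fun I _ => h1 I]
  rw [Fintype.sum_equiv (Equiv.sumArrowEquivProdArrow κ B B) _
    (fun p : (κ → B) × (B → B) => t (Sum.elim p.1 p.2) * ((∏ k, cv (e (x k)) (p.1 k)) *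
      ∏ b, (if p.2 b = ρ b then (1 : ℂ) else 0))) (fun I => by
      simp only [Equiv.sumArrowEquivProdArrow, Equiv.coe_fn_mk, Function.comp_def]
      congr 2
      funext k
      rcases k with k | k <;> rfl)]
  rw [Fintype.sum_prod_type]
  refine Finset.sum_congr rfl fun I _ => ?_
  rw [Finset.sum_eq_single ρ]
  · rw [Finset.prod_eq_one fun b _ => if_pos rfl, mul_one]
  · intro ρ' _ hρ
    obtain ⟨b, hb⟩ := Function.ne_iff.1 hρ
    rw [Finset.prod_eq_zero (Finset.mem_univ b) (if_neg hb), mul_zero, mul_zero]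
  · intro h
    exact absurd (Finset.mem_univ _) h

/-- The inclusion of the first factors. -/
def inI (A : AV) (κ : Type) [Fintype κ] : (powAV A κ).H →ₗ[ℚ] (powAV A (κ ⊕ Unit)).H where
  toFun v := fun j => Sum.elim (fun k => evI A k v) (fun _ => 0) j
  map_add' v w := by
    funext j
    rcases j with j | j
    · exact map_add (evI A j) v w
    · exact (add_zero (0 : A.H)).symm
  map_smul' c v := by
    funext j
    rcases j with j | j
    · exact map_smul (evI A j) c v
    · exact (smul_zero c).symm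

theorem evI_inI_inl {κ : Type} [Fintype κ] (k : κ) (v : (powAV A κ).H) :
    evI A (Sum.inl k) (inI A κ v) = evI A k v := rfl

theorem evI_inI_inr {κ : Type} [Fintype κ] (u : Unit) (v : (powAV A κ).H) :
    evI A (Sum.inr u) (inI A κ v) = 0 := rfl

theorem inI_hom {κ : Type} [Fintype κ] : IsHom (powAV A κ) (powAV A (κ ⊕ Unit)) (inI A κ) := by
  refine ⟨{ toFun := fun v j => Sum.elim (v : κ → A.T) (fun _ => 0) j
            map_add' := fun v w => ?_
            map_smul' := fun c v => ?_ }, fun v => ?_⟩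
  · funext j
    rcases j with j | j
    · rfl
    · exact (add_zero (0 : A.T)).symm
  · funext j
    rcases j with j | j
    · rfl
    · exact (smul_zero c).symm
  · funext j
    rcases j with j | j
    · rfl
    · exact (map_zero A.per).symm

theorem inI_bij (κ : Type) [Fintype κ] [DecidableEq κ] :
    Function.Bijective fun w : (powAV A κ).H × A.H =>
      inI A κ w.1 + sgI A (Sum.inr () : κ ⊕ Unit) w.2 := by
  constructor
  · rintro ⟨v, w⟩ ⟨v', w'⟩ h
    have h1 : ∀ j : κ ⊕ Unit, evI A j (inI A κ v) + evI A j (sgI A (Sum.inr () : κ ⊕ Unit) w) =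
        evI A j (inI A κ v') + evI A j (sgI A (Sum.inr () : κ ⊕ Unit) w') := by
      intro j
      have h2 := congrArg (evI A j) h
      beta_reduce at h2
      rw [map_add, map_add] at h2
      exact h2
    refine Prod.ext (evI_ext fun k => ?_) ?_
    · have h2 := h1 (Sum.inl k)
      rw [evI_inI_inl, evI_inI_inl, evI_sgI, evI_sgI, if_neg (by simp), if_neg (by simp),
        add_zero, add_zero] at h2
      exact h2
    · have h2 := h1 (Sum.inr ())
      rw [evI_inI_inr, evI_inI_inr, evI_sgI, evI_sgI, if_pos rfl, if_pos rfl, zero_add,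
        zero_add] at h2
      exact h2
  · intro x
    refine ⟨(pbI A Sum.inl x, evI A (Sum.inr ()) x), evI_ext fun j => ?_⟩
    rw [map_add]
    rcases j with j | j
    · rw [evI_inI_inl, evI_sgI, if_neg (by simp), add_zero, evI_pbI]
    · rw [evI_inI_inr, evI_sgI, if_pos rfl, zero_add]

variable {𝒜 : Sys}

/-- **Push-forward**: the integration over one factor. -/
theorem TQ_push {κ κ₂ R : Type} [Fintype κ] [DecidableEq κ] [Fintype κ₂] [DecidableEq κ₂]
    [Fintype R] [DecidableEq R] (f : κ₂ ⊕ R ≃ B) {c : (κ ⊕ κ₂ → B) → ℂ}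
    (hc : c ∈ TQ e 𝒜 (κ ⊕ κ₂)) {β : (R → B) → ℂ}
    (hβ : fm e (fun _ : R => ()) β ∈ RA 𝒜 (powAV A Unit) R) :
    (fun I : κ → B => ∑ ρ : Equiv.Perm B, ((Equiv.Perm.sign ρ : ℤ) : ℂ) *
      (c (Sum.elim I fun j => ρ (f (Sum.inl j))) * β (fun r => ρ (f (Sum.inr r))))) ∈
      TQ e 𝒜 κ := by
  have h1 : fm e (Sum.map id (fun _ => ()) : κ ⊕ κ₂ → κ ⊕ Unit) c ∈
      RA 𝒜 (powAV A (κ ⊕ Unit)) (κ ⊕ κ₂) := TQ_slots hc _
  have h2 : fm e (fun _ : R => (Sum.inr () : κ ⊕ Unit)) β ∈ RA 𝒜 (powAV A (κ ⊕ Unit)) R :=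
    fm_slots hβ (fun _ => Sum.inr ())
  have h3 := fm_mul h1 h2
  obtain ⟨F, hF⟩ : ∃ F : (κ ⊕ κ₂) ⊕ R ≃ κ ⊕ B, F = (Equiv.sumAssoc κ κ₂ R).trans
    (Equiv.sumCongr (Equiv.refl κ) f) := ⟨_, rfl⟩
  have hF1 : ∀ k, F (Sum.inl (Sum.inl k)) = Sum.inl k := by
    intro k
    rw [hF]
    rfl
  have hF2 : ∀ j, F (Sum.inl (Sum.inr j)) = Sum.inr (f (Sum.inl j)) := by
    intro j
    rw [hF]
    rfl
  have hF3 : ∀ r, F (Sum.inr r) = Sum.inr (f (Sum.inr r)) := by
    intro r
    rw [hF]
    rfl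
  have h4 := fm_reindex F h3
  obtain ⟨φ, hφ⟩ : ∃ φ : κ ⊕ B → κ ⊕ Unit, φ = fun k =>
    Sum.elim (Sum.map id (fun _ => ()) : κ ⊕ κ₂ → κ ⊕ Unit) (fun _ : R => Sum.inr ())
      (F.symm k) := ⟨_, rfl⟩
  have hφ1 : ∀ k, φ (Sum.inl k) = Sum.inl k := by
    intro k
    rw [hφ, ← hF1 k]
    beta_reduce
    rw [F.symm_apply_apply]
    rfl
  have hφ2 : ∀ b, φ (Sum.inr b) = Sum.inr () := by
    intro b
    obtain ⟨x, rfl⟩ := f.surjective b
    rcases x with j | r
    · rw [hφ, ← hF2 j]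
      beta_reduce
      rw [F.symm_apply_apply]
      rfl
    · rw [hφ, ← hF3 r]
      beta_reduce
      rw [F.symm_apply_apply]
      rfl
  obtain ⟨t, ht⟩ : ∃ t : (κ ⊕ B → B) → ℂ, t = fun I => tp c β (fun k => I (F k)) := ⟨_, rfl⟩
  rw [← hφ, ← ht] at h4
  have h5 := RA_push (X := powAV A κ) (Y := A) (P := powAV A (κ ⊕ Unit)) (inI A κ) inI_hom
    (sgI A (Sum.inr () : κ ⊕ Unit)) (sgI_hom _) (inI_bij κ) (Basis.ofEquivFun e) h4
  rw [mem_TQ]
  have h6 : (fun v : κ → (powAV A κ).H => fm e φ t (Sum.elim (fun k => inI A κ (v k))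
      fun k => sgI A (Sum.inr () : κ ⊕ Unit) (Basis.ofEquivFun e k))) =
      fm e (id : κ → κ) (fun I : κ → B => ∑ ρ : Equiv.Perm B, ((Equiv.Perm.sign ρ : ℤ) : ℂ) *
      (c (Sum.elim I fun j => ρ (f (Sum.inl j))) * β (fun r => ρ (f (Sum.inr r))))) := by
    funext v
    have hb : ∀ k, Basis.ofEquivFun e k = e.symm (Pi.single k 1) := fun k => by
      rw [Basis.coe_ofEquivFun]
    unfold fm
    rw [altA_split]
    · rw [altA]
      refine Finset.sum_congr rfl fun ρ _ => ?_
      have h7 : ∀ ρ' : Equiv.Perm B, (fun k : κ ⊕ B => evI A (φ k)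
          ((Sum.elim (fun k => inI A κ (v k)) fun k =>
            sgI A (Sum.inr () : κ ⊕ Unit) (Basis.ofEquivFun e k))
              (Equiv.Perm.sumCongr ρ ρ' k))) =
          Sum.elim (fun k => evI A k (v (ρ k))) (fun b => e.symm (Pi.single (ρ' b) 1)) := by
        intro ρ'
        funext k
        rcases k with k | k
        · rw [hφ1]
          rfl
        · rw [hφ2, Sum.elim_inr]
          change evI A (Sum.inr ()) (sgI A (Sum.inr () : κ ⊕ Unit) (Basis.ofEquivFun e (ρ' k))) = _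
          rw [evI_sgI, if_pos rfl, hb]
      have h8 : ∀ ρ' : Equiv.Perm B, (((Equiv.Perm.sign ρ : ℤ) : ℂ) *
          ((Equiv.Perm.sign ρ' : ℤ) : ℂ)) * vv e t (fun k : κ ⊕ B => evI A (φ k)
          ((Sum.elim (fun k => inI A κ (v k)) fun k =>
            sgI A (Sum.inr () : κ ⊕ Unit) (Basis.ofEquivFun e k))
              (Equiv.Perm.sumCongr ρ ρ' k))) =
          ((Equiv.Perm.sign ρ : ℤ) : ℂ) * vv e (((Equiv.Perm.sign ρ' : ℤ) : ℂ) •
            fun I : κ → B => t (Sum.elim I ρ')) (fun k => evI A k (v (ρ k))) := by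
        intro ρ'
        rw [h7, vv_basis, vv_smul]
        ring
      rw [Finset.sum_congr rfl fun ρ' _ => h8 ρ', ← Finset.mul_sum]
      congr 1
      have h9 : ∀ (s : Finset (Equiv.Perm B)) (x : κ → A.H), ∑ ρ' ∈ s, vv e
          (((Equiv.Perm.sign ρ' : ℤ) : ℂ) • fun I : κ → B => t (Sum.elim I ρ')) x =
          vv e (∑ ρ' ∈ s, ((Equiv.Perm.sign ρ' : ℤ) : ℂ) • fun I : κ → B => t (Sum.elim I ρ')) x := by
        intro s x
        induction s using Finset.induction_on with
        | empty =>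
          rw [Finset.sum_empty, Finset.sum_empty]
          unfold vv evalF
          simp
        | insert a s ha ih => rw [Finset.sum_insert ha, Finset.sum_insert ha, ih, vv_add]
      rw [h9]
      change vv e _ (fun k => evI A k (v (ρ k))) = vv e _ (fun k => evI A (id k) (v (ρ k)))
      congr 1
      funext I
      rw [Finset.sum_apply]
      refine Finset.sum_congr rfl fun ρ' _ => ?_
      rw [Pi.smul_apply, smul_eq_mul, ht]
      change _ * (c _ * β _) = _
      congr 2
      · congr 1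
        funext k
        rcases k with k | k
        · beta_reduce
          rw [hF1]
          rfl
        · beta_reduce
          rw [hF2]
          rfl
      · congr 1
        funext r
        beta_reduce
        rw [hF3]
        rfl
    · rintro σ ⟨a, b, hab⟩
      refine vv_zero (k := Sum.inl a) _ ?_
      beta_reduce
      rw [hφ1, hab, Sum.elim_inr, evI_sgI, if_neg (by simp)]
  rw [← h6]
  exact h5

end

end Pool.Agent.NH32
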