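import Mathlib
import Pool.Agent.NH32.Core

/-!
# The volume form and its contraction with a bivector
-/

set_option linter.unusedSectionVars false

namespace Pool.Agent.NH32

open Matrix Equiv Module

noncomputable section

variable {B : Type} [Fintype B] [DecidableEq B] {κ : Type} [Fintype κ] [DecidableEq κ]

theorem perm_ia {α : Type*} (σ : Perm α) (x : α) : σ⁻¹ (σ x) = x := σ.symm_apply_apply x

theorem perm_ai {α : Type*} (σ : Perm α) (x : α) : σ (σ⁻¹ x) = x := σ.apply_symm_apply x

/-- Alternating tensors. -/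
def Alt (c : (κ → B) → ℂ) : Prop :=
  ∀ (σ : Perm κ) (I : κ → B), c (fun k => I (σ k)) = ((Perm.sign σ : ℤ) : ℂ) * c I

theorem Alt.eq_zero {c : (κ → B) → ℂ} (h : Alt c) {I : κ → B} {k l : κ} (hkl : k ≠ l)
    (hI : I k = I l) : c I = 0 := by
  have h1 := h (swap k l) I
  have h2 : (fun m => I (swap k l m)) = I := by
    funext m
    by_cases hm : m = k
    · subst hm
      rw [swap_apply_left, hI]
    · by_cases hm' : m = l
      · subst hm'
        rw [swap_apply_right, hI]
      · rw [swap_apply_of_ne_of_ne hm hm']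
  rw [h2, Perm.sign_swap hkl] at h1
  push_cast at h1
  have h3 : (2 : ℂ) * c I = 0 := by linear_combination h1
  exact (mul_eq_zero.1 h3).resolve_left two_ne_zero

theorem Alt.ninj {c : (κ → B) → ℂ} (h : Alt c) {I : κ → B} (hI : ¬ Function.Injective I) :
    c I = 0 := by
  rw [Function.Injective] at hI
  push Not at hI
  obtain ⟨k, l, hkl, hne⟩ := hI
  exact h.eq_zero hne hkl

theorem Alt.dm {c : (κ → B) → ℂ} (X : Matrix B B ℂ) (h : Alt c) : Alt (dm κ X *ᵥ c) := by
  intro σ I
  rw [dm_mulVec_apply, dm_mulVec_apply, Finset.mul_sum]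
  refine Fintype.sum_equiv σ _ _ fun k => ?_
  rw [Finset.mul_sum]
  refine Finset.sum_congr rfl fun j _ => ?_
  have h1 : Function.update (fun k => I (σ k)) k j =
      fun l => (Function.update I (σ k) j) (σ l) := by
    funext l
    by_cases hl : l = k
    · subst hl
      rw [Function.update_self, Function.update_self]
    · rw [Function.update_of_ne hl, Function.update_of_ne (fun h => hl (σ.injective h))]
  rw [h1, h σ]
  ring

/-- The volume form. -/
def vol (f : κ ≃ B) : (κ → B) → ℂ :=
  fun K => ∑ τ : Perm B, ((Perm.sign τ : ℤ) : ℂ) * if K = (fun k => τ (f k)) then 1 else 0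

theorem vol_perm (f : κ ≃ B) (ρ : Perm B) : vol f (fun k => ρ (f k)) = ((Perm.sign ρ : ℤ) : ℂ) := by
  unfold vol
  rw [Finset.sum_eq_single ρ]
  · rw [if_pos rfl, mul_one]
  · intro τ _ hτ
    rw [if_neg, mul_zero]
    intro h
    apply hτ
    ext b
    have h1 := congrFun h (f.symm b)
    beta_reduce at h1
    rw [f.apply_symm_apply] at h1
    exact h1.symm
  · intro h
    exact absurd (Finset.mem_univ _) h

theorem vol_alt (f : κ ≃ B) : Alt (vol (B := B) f) := by
  intro σ I
  unfold vol
  rw [Finset.mul_sum]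
  refine Fintype.sum_equiv (Equiv.mulRight (f.permCongr σ⁻¹)) _ _ fun τ => ?_
  have h1 : (Equiv.mulRight (f.permCongr σ⁻¹)) τ = τ * f.permCongr σ⁻¹ := rfl
  rw [h1, Perm.sign_mul, Perm.sign_permCongr, Perm.sign_inv]
  have h2 : ((fun k => I (σ k)) = fun k => τ (f k)) ↔
      (I = fun k => (τ * f.permCongr σ⁻¹) (f k)) := by
    constructor
    · intro h
      funext k
      have h3 := congrFun h (σ⁻¹ k)
      beta_reduce at h3
      rw [perm_ai] at h3
      rw [h3, Perm.mul_apply, Equiv.permCongr_apply, f.symm_apply_apply]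
    · intro h
      funext k
      have h3 := congrFun h (σ k)
      rw [h3, Perm.mul_apply, Equiv.permCongr_apply, f.symm_apply_apply, perm_ia]
  have h4 : (((Perm.sign σ : ℤ)) : ℂ) * (((Perm.sign σ : ℤ)) : ℂ) = 1 := by
    rcases Int.units_eq_one_or (Perm.sign σ) with h | h <;> rw [h] <;> norm_num
  rw [if_congr h2 rfl rfl]
  push_cast
  rw [← mul_assoc, ← mul_assoc, mul_comm (((Perm.sign σ : ℤ)) : ℂ), mul_assoc (((Perm.sign τ : ℤ)) : ℂ),
    h4, mul_one]

/-- Alternating tensors of top degree. -/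
theorem Alt.eq_vol {c : (κ → B) → ℂ} (h : Alt c) (f : κ ≃ B) : c = c f • vol f := by
  funext K
  rw [Pi.smul_apply, smul_eq_mul]
  by_cases hK : Function.Injective K
  · have hb : Function.Bijective K :=
      (Fintype.bijective_iff_injective_and_card K).2 ⟨hK, Fintype.card_congr f⟩
    let K' : κ ≃ B := Equiv.ofBijective K hb
    have h1 : K = fun k => (f.symm.trans K') (f k) := by
      funext k
      rw [Equiv.trans_apply, f.symm_apply_apply]
      rfl
    have h2 : K = fun k => f ((K'.trans f.symm) k) := by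
      funext k
      rw [Equiv.trans_apply, f.apply_symm_apply]
      rfl
    have h3 := h (K'.trans f.symm) f
    rw [← h2] at h3
    have h4 := vol_perm f (f.symm.trans K')
    rw [← h1] at h4
    rw [h3, h4, mul_comm]
    congr 1
    have h5 : f.symm.trans K' = f.permCongr (K'.trans f.symm) := by
      ext b
      rw [Equiv.permCongr_apply, Equiv.trans_apply, Equiv.trans_apply, f.apply_symm_apply]
    rw [h5, Perm.sign_permCongr]
  · rw [h.ninj hK, (vol_alt f).ninj hK, mul_zero]

/-- The volume form is killed by the matrices of trace zero. -/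
theorem dm_vol (f : κ ≃ B) (X : Matrix B B ℂ) : dm κ X *ᵥ vol f = X.trace • vol f := by
  rw [((vol_alt f).dm X).eq_vol f]
  congr 1
  rw [dm_mulVec_apply]
  unfold trace
  refine Fintype.sum_equiv f _ _ fun k => ?_
  rw [Finset.sum_eq_single (f k)]
  · rw [Function.update_eq_self]
    have h1 := vol_perm f 1
    rw [Perm.sign_one] at h1
    have h2 : (fun k => (1 : Perm B) (f k)) = f := rfl
    rw [h2] at h1
    rw [h1]
    push_cast
    rw [mul_one]
    rfl
  · intro j _ hj
    rw [(vol_alt f).ninj, mul_zero]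
    intro hinj
    obtain ⟨l, hl⟩ := f.surjective j
    have hlk : l ≠ k := by
      rintro rfl
      exact hj hl.symm
    apply hlk
    apply hinj
    rw [Function.update_of_ne hlk, Function.update_self, hl]
  · intro h
    exact absurd (Finset.mem_univ _) h

variable {L : Submodule ℂ (Matrix B B ℂ)} {Om : Matrix B B ℂ}

theorem vol_inv (hO : IsOm Om) (hsp : ∀ X ∈ L, Xᵀ * Om + Om * X = 0) (f : κ ≃ B) :
    vol f ∈ InvL L κ := by
  intro X hX
  have h1 : X.trace = 0 := by
    have h2 := sp_T hO (hsp X hX)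
    have h3 : X.trace = (Om * X * Om).trace := by rw [← h2, trace_transpose]
    rw [trace_mul_comm, ← mul_assoc, hO.sq, neg_one_mul, trace_neg] at h3
    have h4 : (2 : ℂ) * X.trace = 0 := by linear_combination h3
    exact (mul_eq_zero.1 h4).resolve_left two_ne_zero
  rw [dm_vol, h1, zero_smul]

/-- The contraction of the volume form with the bivector. -/
def bet (Om : Matrix B B ℂ) {R : Type} [Fintype R] [DecidableEq R] (f : R ⊕ Fin 2 ≃ B) :
    (R → B) → ℂ := fun J => ∑ K : Fin 2 → B, vol f (Sum.elim J K) * Om (K 0) (K 1)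

theorem bet_inv (hO : IsOm Om) (hsp : ∀ X ∈ L, Xᵀ * Om + Om * X = 0) {R : Type} [Fintype R]
    [DecidableEq R] (f : R ⊕ Fin 2 ≃ B) : bet Om f ∈ InvL L R := by
  have h1 := InvL_cmp hsp (vol_inv hO hsp f) (Om_inv hO hsp)
  have h2 : cmp Om (vol f) (fun I : Fin 2 → B => Om (I 0) (I 1)) = bet Om f := by
    funext J
    unfold cmp bet
    rw [Finset.sum_comm]
    refine Finset.sum_congr rfl fun K _ => ?_
    have h3 : ∀ I : Fin 2 → B, kp (Fin 2) Om K I * vol f (Sum.elim J K) * Om (I 0) (I 1) =
        vol f (Sum.elim J K) * (Om (K 0) (I 0) * Om (I 0) (I 1) * Om (K 1) (I 1)) := by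
      intro I
      rw [kp_apply, Fin.prod_univ_two]
      ring
    rw [Finset.sum_congr rfl fun I _ => h3 I, ← Finset.mul_sum]
    congr 1
    rw [← Equiv.sum_comp (finTwoArrowEquiv B).symm, Fintype.sum_prod_type_right]
    have h4 : ∀ y : B, ∑ x : B, Om (K 0) (((finTwoArrowEquiv B).symm (x, y)) 0) *
        Om (((finTwoArrowEquiv B).symm (x, y)) 0) (((finTwoArrowEquiv B).symm (x, y)) 1) *
        Om (K 1) (((finTwoArrowEquiv B).symm (x, y)) 1) = (Om * Om) (K 0) y * Om (K 1) y := by
      intro y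
      rw [Matrix.mul_apply, Finset.sum_mul]
      rfl
    rw [Finset.sum_congr rfl fun y _ => h4 y]
    have h5 : ∑ y, (Om * Om) (K 0) y * Om (K 1) y = ((Om * Om) * Omᵀ) (K 0) (K 1) := by
      rw [Matrix.mul_apply]
      rfl
    rw [h5, hO.sq, hO.T, neg_mul_neg, one_mul]
  rw [← h2]
  exact h1

/-- The value of the form `bet` on the complement of two basis vectors. -/
theorem bet_perm (hO : IsOm Om) {R : Type} [Fintype R] [DecidableEq R] (f : R ⊕ Fin 2 ≃ B)
    (ρ : Perm B) : bet Om f (fun r => ρ (f (Sum.inl r))) =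
      2 * (((Perm.sign ρ : ℤ) : ℂ) * Om (ρ (f (Sum.inr 0))) (ρ (f (Sum.inr 1)))) := by
  unfold bet
  -- the possible values
  let F : (Fin 2 → Fin 2) → (Fin 2 → B) := fun u i => ρ (f (Sum.inr (u i)))
  have hF : Function.Injective F := by
    intro u u' huu
    funext i
    have h1 := congrFun huu i
    have h2 := Sum.inr_injective (f.injective (ρ.injective h1))
    exact h2
  have hsub : ∀ K : Fin 2 → B, K ∉ Finset.univ.image F →
      vol f (Sum.elim (fun r => ρ (f (Sum.inl r))) K) * Om (K 0) (K 1) = 0 := by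
    intro K hK
    rw [(vol_alt f).ninj, zero_mul]
    intro hinj
    apply hK
    have h1 : ∀ i, ∃ j, K i = ρ (f (Sum.inr j)) := by
      intro i
      obtain ⟨x, hx⟩ := f.surjective (ρ.symm (K i))
      rcases x with r | j
      · exfalso
        have h2 : (Sum.elim (fun r => ρ (f (Sum.inl r))) K : R ⊕ Fin 2 → B) (Sum.inl r) =
            (Sum.elim (fun r => ρ (f (Sum.inl r))) K : R ⊕ Fin 2 → B) (Sum.inr i) := by
          rw [Sum.elim_inl, Sum.elim_inr, hx, ρ.apply_symm_apply]
        have h3 := hinj h2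
        simp at h3
      · exact ⟨j, by rw [hx, ρ.apply_symm_apply]⟩
    choose u hu using h1
    rw [Finset.mem_image]
    exact ⟨u, Finset.mem_univ _, by
      funext i
      exact (hu i).symm⟩
  rw [← Finset.sum_subset (Finset.subset_univ (Finset.univ.image F)) fun K _ hK => hsub K hK,
    Finset.sum_image fun a _ b _ h => hF h]
  have hv : ∀ u : Fin 2 → Fin 2, u 0 = u 1 →
      vol f (Sum.elim (fun r => ρ (f (Sum.inl r))) (F u)) * Om (F u 0) (F u 1) = 0 := by
    intro u hu
    rw [(vol_alt f).eq_zero (k := Sum.inr 0) (l := Sum.inr 1) (by simp), zero_mul]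
    rw [Sum.elim_inr, Sum.elim_inr]
    change ρ (f (Sum.inr (u 0))) = ρ (f (Sum.inr (u 1)))
    rw [hu]
  rw [← Equiv.sum_comp (finTwoArrowEquiv (Fin 2)).symm, Fintype.sum_prod_type, Fin.sum_univ_two,
    Fin.sum_univ_two, Fin.sum_univ_two, hv ((finTwoArrowEquiv (Fin 2)).symm (0, 0)) rfl,
    hv ((finTwoArrowEquiv (Fin 2)).symm (1, 1)) rfl, zero_add, add_zero]
  have h1 : (Sum.elim (fun r => ρ (f (Sum.inl r))) (F ((finTwoArrowEquiv (Fin 2)).symm (0, 1))) :
      R ⊕ Fin 2 → B) = fun k => ρ (f k) := by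
    funext k
    rcases k with k | k
    · rfl
    · fin_cases k <;> rfl
  have h2 : (Sum.elim (fun r => ρ (f (Sum.inl r))) (F ((finTwoArrowEquiv (Fin 2)).symm (1, 0))) :
      R ⊕ Fin 2 → B) = fun k => ρ (f (swap (Sum.inr 0) (Sum.inr 1) k)) := by
    funext k
    rcases k with k | k
    · rw [swap_apply_of_ne_of_ne (by simp) (by simp)]
      rfl
    · fin_cases k
      · change ρ (f (Sum.inr 1)) = _
        rw [show ((⟨0, by decide⟩ : Fin 2)) = 0 from rfl, swap_apply_left]
      · change ρ (f (Sum.inr 0)) = _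
        rw [show ((⟨1, by decide⟩ : Fin 2)) = 1 from rfl, swap_apply_right]
  rw [h1, h2, (vol_alt f) (swap (Sum.inr 0) (Sum.inr 1)) (fun k => ρ (f k)), vol_perm,
    Perm.sign_swap (by simp)]
  have h3 : Om (F ((finTwoArrowEquiv (Fin 2)).symm (1, 0)) 0)
      (F ((finTwoArrowEquiv (Fin 2)).symm (1, 0)) 1) =
      -Om (ρ (f (Sum.inr 0))) (ρ (f (Sum.inr 1))) := by
    have h4 := congrFun (congrFun hO.T (ρ (f (Sum.inr 0)))) (ρ (f (Sum.inr 1)))
    rw [transpose_apply, Matrix.neg_apply] at h4
    exact h4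
  rw [h3]
  have h5 : Om (F ((finTwoArrowEquiv (Fin 2)).symm (0, 1)) 0)
      (F ((finTwoArrowEquiv (Fin 2)).symm (0, 1)) 1) =
      Om (ρ (f (Sum.inr 0))) (ρ (f (Sum.inr 1))) := rfl
  rw [h5]
  push_cast
  ring

/-- Sums over permutations of functions of two values. -/
theorem sum_perm_two (p : Fin 2 → B) (hp : Function.Injective p) :
    ∃ N : ℕ, N ≠ 0 ∧ ∀ h : (Fin 2 → B) → ℂ, (∀ K : Fin 2 → B, K 0 = K 1 → h K = 0) →
      ∑ ρ : Perm B, h (fun i => ρ (p i)) = (N : ℂ) * ∑ K, h K := by
  classical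
  refine ⟨(Finset.univ.filter fun ρ : Perm B => (fun i => ρ (p i)) = p).card, ?_, ?_⟩
  · refine (Finset.card_pos.2 ⟨1, ?_⟩).ne'
    rw [Finset.mem_filter]
    exact ⟨Finset.mem_univ _, rfl⟩
  · intro h h0
    have h1 : ∑ ρ : Perm B, h (fun i => ρ (p i)) = ∑ K : Fin 2 → B,
        ∑ ρ ∈ Finset.univ.filter (fun ρ : Perm B => (fun i => ρ (p i)) = K), h K := by
      rw [← Finset.sum_fiberwise_of_maps_to (g := fun ρ : Perm B => (fun i => ρ (p i)))
        (fun ρ _ => Finset.mem_univ _)]
      refine Finset.sum_congr rfl fun K _ => Finset.sum_congr rfl fun ρ hρ => ?_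
      rw [Finset.mem_filter] at hρ
      rw [hρ.2]
    rw [h1, Finset.mul_sum]
    refine Finset.sum_congr rfl fun K _ => ?_
    rw [Finset.sum_const, nsmul_eq_mul]
    by_cases hK : K 0 = K 1
    · rw [h0 K hK, mul_zero, mul_zero]
    · congr 2
      have hKi : Function.Injective K := by
        intro i j hij
        fin_cases i <;> fin_cases j
        · rfl
        · exact absurd hij hK
        · exact absurd hij.symm hK
        · rfl
      obtain ⟨σ, hσ⟩ := Equiv.Perm.exists_extending_pair p K hp hKi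
      refine Finset.card_bij' (fun ρ _ => σ⁻¹ * ρ) (fun ρ _ => σ * ρ) ?_ ?_ ?_ ?_
      · intro ρ hρ
        rw [Finset.mem_filter] at hρ ⊢
        refine ⟨Finset.mem_univ _, ?_⟩
        funext i
        have h2 := congrFun hρ.2 i
        beta_reduce at h2
        rw [Perm.mul_apply, h2, ← hσ, perm_ia]
      · intro ρ hρ
        rw [Finset.mem_filter] at hρ ⊢
        refine ⟨Finset.mem_univ _, ?_⟩
        funext i
        have h2 := congrFun hρ.2 i
        beta_reduce at h2
        rw [Perm.mul_apply, h2, hσ]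
      · intro ρ _
        rw [mul_inv_cancel_left]
      · intro ρ _
        rw [inv_mul_cancel_left]

end

end Pool.Agent.NH32
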