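import Mathlib
import Pool.Agent.NH32.Geo2
import Pool.Agent.NH32.Vol
import Pool.Agent.W437.HC.Assemble

/-!
# Contractions of tensors and invariants of the symplectic group
-/

set_option linter.unusedSectionVars false

namespace Pool.Agent.NH32

open Matrix Module Pool.Agent.W437.HC Pool.Agent.W437.HD Pool.Agent.TH504.CB Pool.Agent.Y90
open Pool.Agent.H204R3.CM (IsHodge)

noncomputable section

variable {A : AV} {B : Type} [Fintype B] [DecidableEq B] {e : A.H ≃ₗ[ℚ] (B → ℚ)} {𝒜 : Sys}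
  {Om : Matrix B B ℂ}

/-- The contraction of two variables. -/
theorem TQ_contr (hO : IsOm Om) {R : Type} [Fintype R] [DecidableEq R] (f : R ⊕ Fin 2 ≃ B)
    (hβ : fm e (fun _ : R => ()) (bet Om f) ∈ RA 𝒜 (powAV A Unit) R) {κ : Type} [Fintype κ]
    [DecidableEq κ] {c : (κ ⊕ Fin 2 → B) → ℂ} (hc : c ∈ TQ e 𝒜 (κ ⊕ Fin 2)) :
    (fun I : κ → B => ∑ K : Fin 2 → B, Om (K 0) (K 1) * c (Sum.elim I K)) ∈ TQ e 𝒜 κ := by
  have h1 := TQ_push (R := R) ((Equiv.sumComm (Fin 2) R).trans f) hc hβ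
  obtain ⟨N, hN, hsum⟩ := sum_perm_two (fun i => f (Sum.inr i)) (fun i j hij =>
    Sum.inr_injective (f.injective hij))
  have h2 : (fun I : κ → B => ∑ K : Fin 2 → B, Om (K 0) (K 1) * c (Sum.elim I K)) =
      (2 * (N : ℂ))⁻¹ • (fun I : κ → B => ∑ ρ : Equiv.Perm B, ((Equiv.Perm.sign ρ : ℤ) : ℂ) *
      (c (Sum.elim I fun j => ρ (((Equiv.sumComm (Fin 2) R).trans f) (Sum.inl j))) *
        bet Om f (fun r => ρ (((Equiv.sumComm (Fin 2) R).trans f) (Sum.inr r))))) := by
    funext I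
    rw [Pi.smul_apply, smul_eq_mul]
    have h3 : ∀ ρ : Equiv.Perm B, ((Equiv.Perm.sign ρ : ℤ) : ℂ) *
        (c (Sum.elim I fun j => ρ (((Equiv.sumComm (Fin 2) R).trans f) (Sum.inl j))) *
          bet Om f (fun r => ρ (((Equiv.sumComm (Fin 2) R).trans f) (Sum.inr r)))) =
        2 * (fun K : Fin 2 → B => Om (K 0) (K 1) * c (Sum.elim I K))
          (fun i => ρ (f (Sum.inr i))) := by
      intro ρ
      have h4 : (fun r => ρ (((Equiv.sumComm (Fin 2) R).trans f) (Sum.inr r))) =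
          fun r => ρ (f (Sum.inl r)) := rfl
      rw [h4, bet_perm hO]
      have h5 : (((Equiv.Perm.sign ρ : ℤ)) : ℂ) * (((Equiv.Perm.sign ρ : ℤ)) : ℂ) = 1 := by
        rcases Int.units_eq_one_or (Equiv.Perm.sign ρ) with h | h <;> rw [h] <;> norm_num
      have h6 : (fun j : Fin 2 => ρ (((Equiv.sumComm (Fin 2) R).trans f) (Sum.inl j))) =
          fun j => ρ (f (Sum.inr j)) := rfl
      rw [h6]
      beta_reduce
      linear_combination (2 * Om (ρ (f (Sum.inr 0))) (ρ (f (Sum.inr 1))) *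
        c (Sum.elim I fun j => ρ (f (Sum.inr j)))) * h5
    have h7 := hsum (fun K => Om (K 0) (K 1) * c (Sum.elim I K)) (by
      intro K hK
      have h4 := congrFun (congrFun hO.T (K 0)) (K 0)
      rw [transpose_apply, Matrix.neg_apply] at h4
      have h5 : (2 : ℂ) * Om (K 0) (K 0) = 0 := by linear_combination h4
      have h6 := (mul_eq_zero.1 h5).resolve_left two_ne_zero
      beta_reduce
      rw [← hK, h6, zero_mul])
    rw [Finset.sum_congr rfl fun ρ _ => h3 ρ, ← Finset.mul_sum]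
    rw [h7]
    have h4 : (N : ℂ) ≠ 0 := Nat.cast_ne_zero.2 hN
    field_simp
  rw [h2]
  exact Submodule.smul_mem _ _ h1

/-- Reindexing of slots for many contractions. -/
def stepE (κ : Type) [Fintype κ] (n : ℕ) :
    κ ⊕ (Fin (n + 1) ⊕ Fin (n + 1)) → (κ ⊕ (Fin n ⊕ Fin n)) ⊕ Fin 2 :=
  Sum.elim (fun k => Sum.inl (Sum.inl k)) (Sum.elim
    (Fin.cons (Sum.inr 0) fun i => Sum.inl (Sum.inr (Sum.inl i)))
    (Fin.cons (Sum.inr 1) fun i => Sum.inl (Sum.inr (Sum.inr i))))

theorem stepE_bij (κ : Type) [Fintype κ] (n : ℕ) : Function.Bijective (stepE κ n) := by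
  rw [Fintype.bijective_iff_surjective_and_card]
  constructor
  · rintro ((k | (i | i)) | j)
    · exact ⟨Sum.inl k, rfl⟩
    · exact ⟨Sum.inr (Sum.inl i.succ), rfl⟩
    · exact ⟨Sum.inr (Sum.inr i.succ), rfl⟩
    · fin_cases j
      · exact ⟨Sum.inr (Sum.inl 0), rfl⟩
      · exact ⟨Sum.inr (Sum.inr 0), rfl⟩
  · simp only [Fintype.card_sum, Fintype.card_fin]
    ring

/-- Many contractions. -/
theorem TQ_contr_many
    (hcon : ∀ (κ : Type) [Fintype κ] [DecidableEq κ] (c : (κ ⊕ Fin 2 → B) → ℂ),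
      c ∈ TQ e 𝒜 (κ ⊕ Fin 2) →
      (fun I : κ → B => ∑ K : Fin 2 → B, Om (K 0) (K 1) * c (Sum.elim I K)) ∈ TQ e 𝒜 κ)
    (n : ℕ) : ∀ (κ : Type) [Fintype κ] [DecidableEq κ] (c : (κ ⊕ (Fin n ⊕ Fin n) → B) → ℂ),
      c ∈ TQ e 𝒜 (κ ⊕ (Fin n ⊕ Fin n)) →
      (fun I : κ → B => ∑ K : Fin n → B, ∑ J : Fin n → B, (∏ i, Om (K i) (J i)) *
        c (Sum.elim I (Sum.elim K J))) ∈ TQ e 𝒜 κ := by
  induction n with
  | zero =>
    intro κ _ _ c hc
    have h1 := TQ_reindex (e := e) (𝒜 := 𝒜) (Equiv.sumEmpty κ (Fin 0 ⊕ Fin 0)) hc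
    have h2 : (fun I : κ → B => ∑ K : Fin 0 → B, ∑ J : Fin 0 → B, (∏ i, Om (K i) (J i)) *
        c (Sum.elim I (Sum.elim K J))) =
        fun I : κ → B => c (fun k => I (Equiv.sumEmpty κ (Fin 0 ⊕ Fin 0) k)) := by
      funext I
      rw [Fintype.sum_unique, Fintype.sum_unique]
      simp only [Finset.univ_eq_empty, Finset.prod_empty, one_mul]
      congr 1
      funext k
      rcases k with k | k
      · rfl
      · exact isEmptyElim k
    rw [h2]
    exact h1
  | succ n ih =>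
    intro κ _ _ c hc
    let F := Equiv.ofBijective _ (stepE_bij κ n)
    have hF : ∀ k, F k = stepE κ n k := fun _ => rfl
    have h1 := TQ_reindex (e := e) (𝒜 := 𝒜) F hc
    have h2 := ih κ _ (hcon _ _ h1)
    have h3 : (fun I : κ → B => ∑ K : Fin (n + 1) → B, ∑ J : Fin (n + 1) → B,
        (∏ i, Om (K i) (J i)) * c (Sum.elim I (Sum.elim K J))) =
        (fun I : κ → B => ∑ K : Fin n → B, ∑ J : Fin n → B, (∏ i, Om (K i) (J i)) *
          (fun I : κ ⊕ (Fin n ⊕ Fin n) → B => ∑ K : Fin 2 → B, Om (K 0) (K 1) *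
            (fun I : (κ ⊕ (Fin n ⊕ Fin n)) ⊕ Fin 2 → B => c (fun k => I (F k)))
              (Sum.elim I K)) (Sum.elim I (Sum.elim K J))) := by
      funext I
      beta_reduce
      have e1 : ∀ h : (Fin (n + 1) → B) → ℂ, ∑ K, h K = ∑ x : B, ∑ K : Fin n → B,
          h (Fin.cons x K) := by
        intro h
        rw [← Fintype.sum_prod_type' (f := fun (x : B) (K : Fin n → B) =>
          h (Fin.cons x K : Fin (n + 1) → B))]
        refine (Fintype.sum_equiv (Fin.consEquiv fun _ => B) _ _ fun p => ?_).symm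
        rfl
      rw [e1]
      simp only [e1]
      have e2 : ∀ (x : B) (K : Fin n → B) (y : B) (J : Fin n → B),
          (∏ i, Om ((Fin.cons x K : Fin (n + 1) → B) i) ((Fin.cons y J : Fin (n + 1) → B) i)) *
            c (Sum.elim I (Sum.elim (Fin.cons x K) (Fin.cons y J))) =
          (∏ i, Om (K i) (J i)) * (Om x y *
            c (fun k => (Sum.elim (Sum.elim I (Sum.elim K J)) ![x, y] :
              (κ ⊕ (Fin n ⊕ Fin n)) ⊕ Fin 2 → B) (F k))) := by
        intro x K y J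
        rw [Fin.prod_univ_succ]
        have e3 : (fun k => (Sum.elim (Sum.elim I (Sum.elim K J)) ![x, y] :
              (κ ⊕ (Fin n ⊕ Fin n)) ⊕ Fin 2 → B) (F k)) =
            Sum.elim I (Sum.elim (Fin.cons x K) (Fin.cons y J)) := by
          funext k
          rw [hF]
          rcases k with k | (k | k)
          · rfl
          · refine Fin.cases ?_ (fun i => ?_) k
            · rfl
            · rfl
          · refine Fin.cases ?_ (fun i => ?_) k
            · rfl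
            · rfl
        rw [e3]
        simp only [Fin.cons_zero, Fin.cons_succ]
        ring
      simp only [e2]
      rw [Finset.sum_comm]
      refine Finset.sum_congr rfl fun K _ => ?_
      have e4 : ∀ J : Fin n → B, (∏ i, Om (K i) (J i)) * ∑ K' : Fin 2 → B, Om (K' 0) (K' 1) *
          c (fun k => (Sum.elim (Sum.elim I (Sum.elim K J)) K' :
            (κ ⊕ (Fin n ⊕ Fin n)) ⊕ Fin 2 → B) (F k)) =
          ∑ x, ∑ y, (∏ i, Om (K i) (J i)) * (Om x y *
            c (fun k => (Sum.elim (Sum.elim I (Sum.elim K J)) ![x, y] :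
              (κ ⊕ (Fin n ⊕ Fin n)) ⊕ Fin 2 → B) (F k))) := by
        intro J
        rw [← Equiv.sum_comp (finTwoArrowEquiv B).symm, Fintype.sum_prod_type, Finset.mul_sum]
        refine Finset.sum_congr rfl fun x _ => ?_
        rw [Finset.mul_sum]
        rfl
      simp only [e4]
      rw [Finset.sum_comm (s := (Finset.univ : Finset (Fin n → B)))]
      refine Finset.sum_congr rfl fun x _ => ?_
      rw [Finset.sum_comm]
    rw [h3]
    exact h2

/-- The composition of tensors of the system. -/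
theorem TQ_cmp
    (hcon : ∀ (κ : Type) [Fintype κ] [DecidableEq κ] (c : (κ ⊕ Fin 2 → B) → ℂ),
      c ∈ TQ e 𝒜 (κ ⊕ Fin 2) →
      (fun I : κ → B => ∑ K : Fin 2 → B, Om (K 0) (K 1) * c (Sum.elim I K)) ∈ TQ e 𝒜 κ)
    {κ κ' : Type} [Fintype κ] [DecidableEq κ] [Fintype κ'] [DecidableEq κ']
    {ψ : (κ ⊕ κ' → B) → ℂ} {t : (κ' → B) → ℂ} (hψ : ψ ∈ TQ e 𝒜 (κ ⊕ κ')) (ht : t ∈ TQ e 𝒜 κ') :
    cmp Om ψ t ∈ TQ e 𝒜 κ := by
  let n := Fintype.card κ'
  let E : κ' ≃ Fin n := Fintype.equivFin κ'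
  have h1 := TQ_mul hψ ht
  let F : (κ ⊕ κ') ⊕ κ' ≃ κ ⊕ (Fin n ⊕ Fin n) :=
    (Equiv.sumAssoc κ κ' κ').trans (Equiv.sumCongr (Equiv.refl κ) (Equiv.sumCongr E E))
  have h2 := TQ_contr_many hcon n κ _ (TQ_reindex F h1)
  have h3 : cmp Om ψ t = fun I : κ → B => ∑ K : Fin n → B, ∑ J : Fin n → B,
      (∏ i, Om (K i) (J i)) * (fun I : κ ⊕ (Fin n ⊕ Fin n) → B =>
        tp ψ t (fun k => I (F k))) (Sum.elim I (Sum.elim K J)) := by
    funext I
    unfold cmp
    rw [Finset.sum_comm]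
    refine Fintype.sum_equiv (Equiv.arrowCongr E (Equiv.refl B)) _ _ fun K => ?_
    refine Fintype.sum_equiv (Equiv.arrowCongr E (Equiv.refl B)) _ _ fun J => ?_
    rw [kp_apply, mul_assoc]
    congr 1
    · refine Fintype.prod_equiv E _ _ fun k => ?_
      simp [Equiv.arrowCongr]
    · change _ = ψ _ * t _
      congr 2
      · funext k
        rcases k with k | k
        · rfl
        · simp [F, Equiv.arrowCongr]
      · funext k
        simp [F, Equiv.arrowCongr]
  rw [h3]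
  exact h2

end

end Pool.Agent.NH32
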