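import Mathlib
import Pool.Agent.NH32.Geo3
import Pool.Agent.Y90.Ppav

/-!
# Hodge classes on powers and invariant tensors
-/

set_option linter.unusedSectionVars false

namespace Pool.Agent.NH32

open Matrix Module Pool.Agent.W437.HC Pool.Agent.W437.HD Pool.Agent.TH504.CB Pool.Agent.Y90
open Pool.Agent.H204R3.CM (IsHodge)

noncomputable section

variable {A : AV} {B : Type} [Fintype B] [DecidableEq B] {e : A.H ≃ₗ[ℚ] (B → ℚ)} {𝒜 : Sys}
  {J : Matrix B B ℝ} {κ ι : Type} [Fintype κ] [DecidableEq κ] [Fintype ι]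

/-- The multilinear form given by a rational tensor. -/
def mlQ (e : A.H ≃ₗ[ℚ] (B → ℚ)) (φ : κ → ι) (c : (κ → B) → ℚ) :
    MultilinearMap ℚ (fun _ : κ => (powAV A ι).H) ℚ :=
  (evalM c).compLinearMap fun k => e.toLinearMap ∘ₗ evI A (φ k)

theorem mlQ_apply (φ : κ → ι) (c : (κ → B) → ℚ) (v : κ → (powAV A ι).H) :
    mlQ e φ c v = evalF c (fun k => e (evI A (φ k) (v k))) := rfl

/-- The alternating form given by a rational tensor. -/
def fmQ (e : A.H ≃ₗ[ℚ] (B → ℚ)) (φ : κ → ι) (c : (κ → B) → ℚ) : (powAV A ι).H [⋀^κ]→ₗ[ℚ] ℚ :=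
  MultilinearMap.alternatization (mlQ e φ c)

theorem fmQ_cast (φ : κ → ι) (c : (κ → B) → ℚ) :
    (fun v => ((fmQ e φ c v : ℚ) : ℂ)) = fm e φ (cst ℂ c) := by
  funext v
  unfold fmQ
  rw [MultilinearMap.alternatization_apply, fm_apply, Rat.cast_sum]
  refine Finset.sum_congr rfl fun σ _ => ?_
  rw [MultilinearMap.domDomCongr_apply, Units.smul_def, zsmul_eq_mul, mlQ_apply, Rat.cast_mul,
    Rat.cast_intCast, evalF_castK]
  rfl

/-- The alternating forms given by rational tensors killed by the complex structure are Hodge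
classes. -/
theorem fmQ_hodge (hc : Cht (A.per.comp e.symm.toLinearMap.toAddMonoidHom) J) (φ : κ → ι)
    {c : (κ → B) → ℚ} (h : IsH (DJ J) c) : IsHodge (powAV A ι).per (fmQ e φ c) := by
  obtain ⟨P, I, hP1, hP2, hI1, hI2⟩ := hc.ex
  have hper : ∀ w : A.H, I (A.per w) = fun i => ((e w i : ℚ) : ℝ) := by
    intro w
    have h1 := hP1 (e w)
    have h2 : (A.per.comp e.symm.toLinearMap.toAddMonoidHom) (e w) = A.per w := by
      change A.per (e.symm (e w)) = _
      rw [e.symm_apply_apply]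
    rw [h2] at h1
    rw [← h1, hI1]
  unfold fmQ
  refine isHodge_alt ((evalM (cst ℝ c)).compLinearMap
    (fun k => I ∘ₗ (LinearMap.proj (φ k) : (ι → A.T) →ₗ[ℝ] A.T)))
    (fun v => ?_) (fun z hz u => ?_)
  · rw [MultilinearMap.compLinearMap_apply, evalM_apply, mlQ_apply, evalF_castK]
    congr 1
    funext k
    exact hper _
  · rw [MultilinearMap.compLinearMap_apply, MultilinearMap.compLinearMap_apply, evalM_apply,
      evalM_apply]
    have h1 : z.re = Real.cos z.arg ∧ z.im = Real.sin z.arg := by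
      have h2 := Complex.norm_mul_cos_arg z
      have h3 := Complex.norm_mul_sin_arg z
      rw [hz, one_mul] at h2 h3
      exact ⟨h2.symm, h3.symm⟩
    have h2 : ∀ t : A.T, I (z • t) = Real.cos z.arg • I t + Real.sin z.arg • (J *ᵥ I t) := by
      intro t
      rw [← hI1 (Real.cos z.arg • I t + Real.sin z.arg • (J *ᵥ I t)), map_add P,
        map_smul P, map_smul P, hP2, hI2, smul_rot, ← h1.1, ← h1.2, Complex.re_add_im]
    have h3 : (fun k => (I ∘ₗ (LinearMap.proj (φ k) : (ι → A.T) →ₗ[ℝ] A.T)) (z • u k)) =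
        fun k => Real.cos z.arg • I ((u k : ι → A.T) (φ k)) +
          Real.sin z.arg • (J *ᵥ I ((u k : ι → A.T) (φ k))) := by
      funext k
      exact h2 _
    refine Eq.trans (congrArg (evalF (cst ℝ c)) h3) ?_
    exact rot_of_act hc.sq ((act_real (J := J) (D := DJ J) rfl).1 h) z.arg _

/-- Expansion of a complex tensor into rational parts. -/
theorem tensor_expand (c : (κ → B) → ℂ) : ∃ (m : ℕ) (z : Fin m → ℂ) (l : Fin m → (ℂ →ₗ[ℚ] ℚ)),
    c = ∑ j, z j • cst ℂ (fun I => l j (c I)) := by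
  let W : Submodule ℚ ℂ := Submodule.span ℚ (Set.range c)
  have : FiniteDimensional ℚ W := FiniteDimensional.span_of_finite ℚ (Set.finite_range _)
  obtain ⟨m, z, l, hl⟩ := exists_coord W
  refine ⟨m, z, l, ?_⟩
  funext I
  rw [Finset.sum_apply]
  exact hl _ (Submodule.subset_span ⟨I, rfl⟩)

/-- Invariant tensors give classes of the system if all Hodge classes belong to the system. -/
theorem fm_of_hodge (hc : Cht (A.per.comp e.symm.toLinearMap.toAddMonoidHom) J)
    {L : Submodule ℂ (Matrix B B ℂ)} (hL : Gal L) (hJ : DJ J ∈ L)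
    (hA : 𝒜.AllHodge (powAV A ι)) (φ : κ → ι) {c : (κ → B) → ℂ} (h : ∀ X ∈ L, act X c = 0) :
    fm e φ c ∈ RA 𝒜 (powAV A ι) κ := by
  obtain ⟨m, z, l, hzl⟩ := tensor_expand c
  have h1 : fm e φ c = ∑ j, z j • fm e φ (cst ℂ (fun I => l j (c I))) := by
    conv_lhs => rw [hzl]
    have h2 := map_sum (fmL e φ) (fun j => z j • cst ℂ (fun I => l j (c I))) Finset.univ
    rw [← fmL_apply, h2]
    refine Finset.sum_congr rfl fun j _ => ?_
    rw [map_smul]
    rfl
  rw [h1]
  refine Submodule.sum_mem _ fun j _ => Submodule.smul_mem _ _ ?_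
  rw [← fmQ_cast]
  exact RA_of (X := powAV A ι) (hA κ _ (fmQ_hodge hc φ (kill_lam hL h (l j) _ hJ)))

/-- The coefficients of a form on a power. -/
def cfI [DecidableEq ι] (e : A.H ≃ₗ[ℚ] (B → ℚ)) (f : (powAV A ι).H [⋀^κ]→ₗ[ℚ] ℚ) (φ : κ → ι) :
    (κ → B) → ℚ :=
  fun I => f (fun k => sgI A (φ k) (e.symm (Pi.single (I k) 1)))

/-- The coefficients of Hodge classes are killed by the complex structure. -/
theorem cfI_isH [DecidableEq ι] (hc : Cht (A.per.comp e.symm.toLinearMap.toAddMonoidHom) J)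
    {f : (powAV A ι).H [⋀^κ]→ₗ[ℚ] ℚ} (hf : IsHodge (powAV A ι).per f) (φ : κ → ι) :
    IsH (DJ J) (cfI e f φ) := by
  obtain ⟨P, I, hP1, hP2, -, -⟩ := hc.ex
  obtain ⟨ψ, hψ1, hψ2⟩ := hf
  rw [act_real (J := J) (D := DJ J) rfl]
  let ψ' : MultilinearMap ℝ (fun _ : κ => B → ℝ) ℝ :=
    ψ.compLinearMap (fun k => (LinearMap.single ℝ (fun _ : ι => A.T) (φ k)).comp P)
  have h0 : ∀ x, ψ' x = ψ (fun k => (Pi.single (φ k) (P (x k)) : ι → A.T)) := fun x => rfl
  have h1 : ∀ x : κ → B → ℝ, ψ (fun k => (Pi.single (φ k) (P (x k)) : ι → A.T)) =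
      evalF (cst ℝ (cfI e f φ)) x := by
    intro x
    rw [← h0, multi_eq]
    congr 1
    funext I
    rw [h0]
    change _ = ((f _ : ℚ) : ℝ)
    rw [← hψ1]
    congr 1
    funext k
    funext j
    change (Pi.single (φ k) (P (Pi.single (I k) 1)) : ι → A.T) j =
      A.per ((Pi.single (φ k) (e.symm (Pi.single (I k) 1)) : ι → A.H) j)
    have h2 := hP1 (Pi.single (I k) 1)
    rw [single_castR] at h2
    by_cases hj : j = φ k
    · subst hj
      rw [Pi.single_eq_same, Pi.single_eq_same, h2]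
      rfl
    · rw [Pi.single_eq_of_ne hj, Pi.single_eq_of_ne hj, map_zero]
  apply act_of_rotate
  intro θ x
  rw [← h1, ← h1]
  refine Eq.trans ?_ (hψ2 (Complex.cos θ + Complex.sin θ * Complex.I) (by
    rw [← Complex.exp_mul_I, Complex.norm_exp_ofReal_mul_I]) _)
  congr 1
  funext k
  rw [map_add, map_smul, map_smul, hP2, smul_rot, Complex.ofReal_cos, Complex.ofReal_sin]
  exact Pi.single_smul _ _ _

/-- The expansion of a form on a power. -/
theorem form_expand [DecidableEq ι] (f : (powAV A ι).H [⋀^κ]→ₗ[ℚ] ℚ) (v : κ → (powAV A ι).H) :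
    f v = ∑ φ : κ → ι, mlQ e φ (cfI e f φ) v := by
  have h1 : f v = f.toMultilinearMap (fun k => ∑ i, sgI A i (evI A i (v k))) := by
    change f v = f (fun k => ∑ i, sgI A i (evI A i (v k)))
    congr 1
    funext k
    exact (sum_sgI _).symm
  rw [h1, MultilinearMap.map_sum]
  refine Finset.sum_congr rfl fun φ _ => ?_
  rw [mlQ_apply]
  let F : MultilinearMap ℚ (fun _ : κ => B → ℚ) ℚ :=
    f.toMultilinearMap.compLinearMap (fun k => (sgI A (φ k)) ∘ₗ e.symm.toLinearMap)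
  have h2 : ∀ x, F x = f (fun k => sgI A (φ k) (e.symm (x k))) := fun x => rfl
  have h3 := multi_eq F (fun k => e (evI A (φ k) (v k)))
  rw [h2] at h3
  have h4 : (fun k => sgI A (φ k) (e.symm (e (evI A (φ k) (v k))))) =
      fun k => sgI A (φ k) (evI A (φ k) (v k)) := by
    funext k
    rw [e.symm_apply_apply]
  rw [h4] at h3
  exact h3

/-- All Hodge classes belong to the system if the invariant tensors do. -/
theorem allHodge_of [DecidableEq ι]
    (hc : Cht (A.per.comp e.symm.toLinearMap.toAddMonoidHom) J)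
    (h : ∀ (κ : Type) [Fintype κ] [DecidableEq κ] (c : (κ → B) → ℚ), IsH (DJ J) c →
      cst ℂ c ∈ TQ e 𝒜 κ) : 𝒜.AllHodge (powAV A ι) := by
  intro κ _ f hf
  classical
  let _ : Fintype κ := Fintype.ofFinite κ
  refine RA_descent ?_
  have h1 : (fun v => ((f v : ℚ) : ℂ)) = (Fintype.card (Equiv.Perm κ) : ℂ)⁻¹ •
      ∑ φ : κ → ι, fm e φ (cst ℂ (cfI e f φ)) := by
    funext v
    rw [Pi.smul_apply, Finset.sum_apply, smul_eq_mul]
    have h2 : ∀ φ : κ → ι, fm e φ (cst ℂ (cfI e f φ)) v = ∑ σ : Equiv.Perm κ,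
        ((Equiv.Perm.sign σ : ℤ) : ℂ) * ((mlQ e φ (cfI e f φ) (fun k => v (σ k)) : ℚ) : ℂ) := by
      intro φ
      rw [fm_apply]
      refine Finset.sum_congr rfl fun σ _ => ?_
      rw [mlQ_apply, evalF_castK]
      rfl
    rw [Finset.sum_congr rfl fun φ _ => h2 φ, Finset.sum_comm]
    have h3 : ∀ σ : Equiv.Perm κ, ∑ φ : κ → ι, ((Equiv.Perm.sign σ : ℤ) : ℂ) *
        ((mlQ e φ (cfI e f φ) (fun k => v (σ k)) : ℚ) : ℂ) = ((f v : ℚ) : ℂ) := by
      intro σ
      rw [← Finset.mul_sum, ← Rat.cast_sum, ← form_expand f (fun k => v (σ k))]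
      have h4 : f (fun k => v (σ k)) = Equiv.Perm.sign σ • f v := f.map_perm v σ
      rw [h4, Units.smul_def, zsmul_eq_mul, Rat.cast_mul, Rat.cast_intCast, ← mul_assoc]
      have h5 : (((Equiv.Perm.sign σ : ℤ)) : ℂ) * (((Equiv.Perm.sign σ : ℤ)) : ℂ) = 1 := by
        rcases Int.units_eq_one_or (Equiv.Perm.sign σ) with h | h <;> rw [h] <;> norm_num
      rw [h5, one_mul]
    rw [Finset.sum_congr rfl fun σ _ => h3 σ, Finset.sum_const, nsmul_eq_mul, Finset.card_univ,
      ← mul_assoc, inv_mul_cancel₀ (by exact_mod_cast Fintype.card_ne_zero), one_mul]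
  rw [h1]
  refine Submodule.smul_mem _ _ (Submodule.sum_mem _ fun φ _ => ?_)
  exact TQ_slots (h κ _ (cfI_isH hc hf φ)) φ

end

end Pool.Agent.NH32
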