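import Mathlib
import Pool.Agent.NH32.Geo4
import Pool.Agent.W548.Odd.Hodge

/-!
# Alternating forms in two groups of variables, invariants of the symplectic group
-/

set_option linter.unusedSectionVars false

namespace Pool.Agent.NH32

open Matrix Module Pool.Agent.W437.HC Pool.Agent.W437.HD Pool.Agent.TH504.CB Pool.Agent.Y90
open Pool.Agent.H204R3.CM (IsHodge)

noncomputable section

section inclexcl

variable {A : AV} {B : Type} [Fintype B] [DecidableEq B] {e : A.H ≃ₗ[ℚ] (B → ℚ)} {𝒜 : Sys}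
  {κ ι : Type} [Fintype κ] [DecidableEq κ] [Fintype ι] [DecidableEq ι]

/-- Extension of scalars as a linear map. -/
def cvL (B : Type) : (B → ℚ) →ₗ[ℚ] (B → ℂ) where
  toFun := cv
  map_add' v w := by
    funext i
    exact Rat.cast_add _ _
  map_smul' c v := by
    funext i
    change ((c * v i : ℚ) : ℂ) = c • ((v i : ℚ) : ℂ)
    rw [Rat.cast_mul, Rat.smul_def]

/-- The values of a tensor as a multilinear map. -/
def vvM (e : A.H ≃ₗ[ℚ] (B → ℚ)) (c : (κ → B) → ℂ) : MultilinearMap ℚ (fun _ : κ => A.H) ℂ :=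
  ((evalM c).restrictScalars ℚ).compLinearMap fun _ => cvL B ∘ₗ e.toLinearMap

theorem vvM_apply (c : (κ → B) → ℂ) (x : κ → A.H) : vvM e c x = vv e c x := rfl

theorem vv_sum (c : (κ → B) → ℂ) (x : κ → κ → A.H) (T : κ → Finset κ) :
    vv e c (fun k => ∑ l ∈ T k, x k l) =
      ∑ ψ ∈ Fintype.piFinset T, vv e c (fun k => x k (ψ k)) := by
  have h1 := (vvM e c).map_sum_finset x T
  exact h1

/-- The form of a permuted tensor. -/
theorem fm_perm {c : (κ → B) → ℂ} {π : Equiv.Perm κ}
    (h : ∀ I : κ → B, c (fun k => I (π k)) = ((Equiv.Perm.sign π : ℤ) : ℂ) * c I) :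
    fm e (fun k => π k) c = fm (ι := κ) e id c := by
  funext v
  rw [fm_apply, fm_apply]
  refine Fintype.sum_equiv (Equiv.mulRight π⁻¹) _ _ fun σ => ?_
  have h1 : (Equiv.mulRight π⁻¹) σ = σ * π⁻¹ := rfl
  rw [h1, Equiv.Perm.sign_mul, Equiv.Perm.sign_inv]
  have h2 : vv e c (fun k => evI A (π k) (v (σ k))) = ((Equiv.Perm.sign π : ℤ) : ℂ) *
      vv e c (fun k => evI A k (v (σ (π⁻¹ k)))) := by
    unfold vv evalF
    rw [Finset.mul_sum]
    refine (Fintype.sum_equiv (Equiv.arrowCongr π⁻¹ (Equiv.refl B)) _ _ fun I => ?_).symm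
    have h3 : (Equiv.arrowCongr π⁻¹ (Equiv.refl B)) I = fun k => I (π k) := by
      funext k
      rfl
    rw [h3, h, ← mul_assoc]
    congr 1
    refine (Fintype.prod_equiv π _ _ fun k => ?_).symm
    beta_reduce
    rw [perm_ia]
  rw [h2]
  change _ = _ * vv e c (fun k => evI A k (v (σ (π⁻¹ k))))
  push_cast
  ring

/-- Recovery of a tensor which is alternating in the variables with the same slot. -/
theorem TQ_of_slots {φ : κ → ι} {c : (κ → B) → ℂ}
    (hc : ∀ π : Equiv.Perm κ, (∀ k, φ (π k) = φ k) →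
      ∀ I : κ → B, c (fun k => I (π k)) = ((Equiv.Perm.sign π : ℤ) : ℂ) * c I)
    (h : fm e φ c ∈ RA 𝒜 (powAV A ι) κ) : c ∈ TQ e 𝒜 κ := by
  classical
  rw [mem_TQ]
  have h1 : ∀ u : Finset κ, (fun v => ∑ ψ ∈ Fintype.piFinset (fun k => uᶜ.filter fun l => φ l = φ k),
      fm (ι := κ) e ψ c v) ∈ RA 𝒜 (powAV A κ) κ := by
    intro u
    have h2 := RA_pull (X := powAV A κ) (Y := powAV A ι) (psI A fun i => uᶜ.filter fun l => φ l = i)
      (psI_hom _) h
    have h3 : (fun v : κ → (powAV A κ).H =>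
        fm e φ c (fun k => psI A (fun i => uᶜ.filter fun l => φ l = i) (v k))) =
        fun v => ∑ ψ ∈ Fintype.piFinset (fun k => uᶜ.filter fun l => φ l = φ k),
          fm (ι := κ) e ψ c v := by
      funext v
      simp only [fm_apply]
      rw [Finset.sum_comm]
      refine Finset.sum_congr rfl fun σ _ => ?_
      rw [← Finset.mul_sum]
      congr 1
      exact vv_sum c (fun k l => evI A l (v (σ k))) _
    rw [← h3]
    exact h2
  have h2 : (fun v => ∑ u : Finset κ, ((-1 : ℂ) ^ u.card) *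
      ∑ ψ ∈ Fintype.piFinset (fun k => uᶜ.filter fun l => φ l = φ k),
        fm (ι := κ) e ψ c v) ∈ RA 𝒜 (powAV A κ) κ := by
    have h3 : (fun v => ∑ u : Finset κ, ((-1 : ℂ) ^ u.card) *
      ∑ ψ ∈ Fintype.piFinset (fun k => uᶜ.filter fun l => φ l = φ k),
        fm (ι := κ) e ψ c v) = ∑ u : Finset κ, ((-1 : ℂ) ^ u.card) •
      (fun v => ∑ ψ ∈ Fintype.piFinset (fun k => uᶜ.filter fun l => φ l = φ k),
        fm (ι := κ) e ψ c v) := by
      funext v
      rw [Finset.sum_apply]
      rfl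
    rw [h3]
    exact Submodule.sum_mem _ fun u _ => Submodule.smul_mem _ _ (h1 u)
  obtain ⟨Q, hQ⟩ : ∃ Q : Finset (κ → κ), Q = Finset.univ.filter fun ψ =>
    (∀ k, φ (ψ k) = φ k) ∧ Function.Surjective ψ := ⟨_, rfl⟩
  have h3 : (fun v => ∑ u : Finset κ, ((-1 : ℂ) ^ u.card) *
      ∑ ψ ∈ Fintype.piFinset (fun k => uᶜ.filter fun l => φ l = φ k),
        fm (ι := κ) e ψ c v) = (Q.card : ℂ) • fm (ι := κ) e id c := by
    funext v
    have h4 : ∀ u : Finset κ, ((-1 : ℂ) ^ u.card) *
      ∑ ψ ∈ Fintype.piFinset (fun k => uᶜ.filter fun l => φ l = φ k), fm (ι := κ) e ψ c v =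
      ∑ ψ : κ → κ, (if (∀ k, φ (ψ k) = φ k) ∧ (∀ k, ψ k ∉ u) then (-1 : ℂ) ^ u.card else 0) *
        fm (ι := κ) e ψ c v := by
      intro u
      have h5 : Fintype.piFinset (fun k => uᶜ.filter fun l => φ l = φ k) =
          Finset.univ.filter fun ψ : κ → κ => (∀ k, φ (ψ k) = φ k) ∧ (∀ k, ψ k ∉ u) := by
        ext ψ
        rw [Fintype.mem_piFinset, Finset.mem_filter]
        constructor
        · intro h6
          refine ⟨Finset.mem_univ _, fun k => ?_, fun k => ?_⟩
          · have h7 := h6 k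
            rw [Finset.mem_filter] at h7
            exact h7.2
          · have h7 := h6 k
            rw [Finset.mem_filter, Finset.mem_compl] at h7
            exact h7.1
        · rintro ⟨-, h6, h7⟩ k
          rw [Finset.mem_filter, Finset.mem_compl]
          exact ⟨h7 k, h6 k⟩
      rw [h5, Finset.mul_sum, Finset.sum_filter]
      refine Finset.sum_congr rfl fun ψ _ => ?_
      split_ifs with h6
      · rfl
      · rw [zero_mul]
    rw [Finset.sum_congr rfl fun u _ => h4 u, Finset.sum_comm]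
    have h5 : ∀ ψ : κ → κ, ∑ u : Finset κ,
        (if (∀ k, φ (ψ k) = φ k) ∧ (∀ k, ψ k ∉ u) then (-1 : ℂ) ^ u.card else 0) *
          fm (ι := κ) e ψ c v = if ψ ∈ Q then fm (ι := κ) e id c v else 0 := by
      intro ψ
      rw [← Finset.sum_mul]
      by_cases h6 : ∀ k, φ (ψ k) = φ k
      · have h7 : ∑ u : Finset κ,
            (if (∀ k, φ (ψ k) = φ k) ∧ (∀ k, ψ k ∉ u) then (-1 : ℂ) ^ u.card else 0) =
            ∑ u ∈ ((Finset.univ.image ψ)ᶜ).powerset, (-1 : ℂ) ^ u.card := by
          rw [← Finset.sum_filter]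
          refine Finset.sum_congr ?_ fun _ _ => rfl
          ext u
          rw [Finset.mem_filter, Finset.mem_powerset]
          constructor
          · rintro ⟨-, -, h8⟩ x hx
            rw [Finset.mem_compl, Finset.mem_image]
            rintro ⟨k, -, rfl⟩
            exact h8 k hx
          · intro h8
            refine ⟨Finset.mem_univ _, h6, fun k hk => ?_⟩
            have h9 := h8 hk
            rw [Finset.mem_compl, Finset.mem_image] at h9
            exact h9 ⟨k, Finset.mem_univ _, rfl⟩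
        have h8 : ∑ u ∈ ((Finset.univ.image ψ)ᶜ).powerset, (-1 : ℂ) ^ u.card =
            if (Finset.univ.image ψ)ᶜ = ∅ then 1 else 0 := by
          have h9 := Finset.sum_powerset_neg_one_pow_card (x := (Finset.univ.image ψ)ᶜ)
          have h10 := congrArg (fun z : ℤ => (z : ℂ)) h9
          push_cast at h10
          exact h10
        rw [h7, h8]
        by_cases h9 : Function.Surjective ψ
        · have h10 : (Finset.univ.image ψ)ᶜ = ∅ := by
            rw [Finset.compl_eq_empty_iff, Finset.eq_univ_iff_forall]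
            intro x
            rw [Finset.mem_image]
            obtain ⟨k, hk⟩ := h9 x
            exact ⟨k, Finset.mem_univ _, hk⟩
          have h11 : ψ ∈ Q := by
            rw [hQ, Finset.mem_filter]
            exact ⟨Finset.mem_univ _, h6, h9⟩
          rw [if_pos h10, if_pos h11, one_mul]
          let π : Equiv.Perm κ := Equiv.ofBijective ψ (Finite.injective_iff_bijective.1
            (Finite.injective_iff_surjective.2 h9))
          have h12 : ψ = fun k => π k := rfl
          rw [h12, fm_perm (hc π h6)]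
        · have h10 : ¬ (Finset.univ.image ψ)ᶜ = ∅ := by
            intro h11
            rw [Finset.compl_eq_empty_iff, Finset.eq_univ_iff_forall] at h11
            apply h9
            intro x
            obtain ⟨k, -, hk⟩ := Finset.mem_image.1 (h11 x)
            exact ⟨k, hk⟩
          have h11 : ψ ∉ Q := by
            rw [hQ, Finset.mem_filter]
            exact fun h12 => h9 h12.2.2
          rw [if_neg h10, if_neg h11, zero_mul]
      · have h7 : ψ ∉ Q := by
          rw [hQ, Finset.mem_filter]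
          exact fun h8 => h6 h8.2.1
        rw [if_neg h7, Finset.sum_eq_zero, zero_mul]
        intro u _
        rw [if_neg fun h8 => h6 h8.1]
    rw [Finset.sum_congr rfl fun ψ _ => h5 ψ, ← Finset.sum_filter, Finset.filter_mem_eq_inter,
      Finset.univ_inter, Finset.sum_const, nsmul_eq_mul]
    rfl
  rw [h3] at h2
  have h4 : (Q.card : ℂ) ≠ 0 := by
    rw [Nat.cast_ne_zero]
    refine (Finset.card_pos.2 ⟨id, ?_⟩).ne'
    rw [hQ, Finset.mem_filter]
    exact ⟨Finset.mem_univ _, fun _ => rfl, Function.surjective_id⟩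
  have h5 := Submodule.smul_mem _ (Q.card : ℂ)⁻¹ h2
  rw [smul_smul, inv_mul_cancel₀ h4, one_smul] at h5
  exact h5

/-- Forms alternating in two groups of variables. -/
theorem TQ_alt2 {a b : ℕ} {c : (Fin a ⊕ Fin b → B) → ℂ} (hc : IsAlt2 c)
    (h : fm e (Sum.elim (fun _ => 0) (fun _ => 1) : Fin a ⊕ Fin b → Fin 2) c ∈
      RA 𝒜 (powAV A (Fin 2)) (Fin a ⊕ Fin b)) : c ∈ TQ e 𝒜 (Fin a ⊕ Fin b) := by
  refine TQ_of_slots (fun π hπ I => ?_) h
  have h1 : π ∈ (Equiv.Perm.sumCongrHom (Fin a) (Fin b)).range := by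
    refine Equiv.Perm.mem_sumCongrHom_range_of_perm_mapsTo_inl ?_
    rintro _ ⟨i, rfl⟩
    have h2 := hπ (Sum.inl i)
    rcases h3 : π (Sum.inl i) with j | j
    · exact ⟨j, rfl⟩
    · rw [h3] at h2
      simp at h2
  obtain ⟨⟨ρ, ρ'⟩, h2⟩ := h1
  have h3 : π = Equiv.Perm.sumCongr ρ ρ' := h2.symm
  rw [h3, Equiv.Perm.sign_sumCongr]
  have h4 : (fun k => I (Equiv.Perm.sumCongr ρ ρ' k)) =
      Sum.elim (fun i => I (Sum.inl (ρ i))) (fun j => I (Sum.inr (ρ' j))) := by
    funext k
    rcases k with k | k <;> rfl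
  have h5 := hc.1 (fun j => I (Sum.inr (ρ' j))) ρ (fun i => I (Sum.inl i))
  have h6 := hc.2 (fun i => I (Sum.inl i)) ρ' (fun j => I (Sum.inr j))
  beta_reduce at h5 h6
  rw [h4, h5, h6]
  have h7 : (Sum.elim (fun i => I (Sum.inl i)) (fun j => I (Sum.inr j)) : Fin a ⊕ Fin b → B) =
      I := by
    funext k
    rcases k with k | k <;> rfl
  rw [h7]
  push_cast
  ring

end inclexcl

section sp

open Pool.Agent.H204R3.SP (JJ InvF MatF matF fft)
open Pool.Agent.W548.Odd (spL)

variable {A : AV} {g : ℕ} {e : A.H ≃ₗ[ℚ] (Fin g ⊕ Fin g → ℚ)} {𝒜 : Sys}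

theorem JJ_Om (x y : Fin g ⊕ Fin g) :
    JJ Sum.swap (Sum.elim (fun _ => (1 : ℂ)) (fun _ => -1)) x y = Om g ℂ x y := by
  rcases x with x | x <;> rcases y with y | y
  · simp [JJ, Om]
  · simp [JJ, Om, Matrix.one_apply, eq_comm]
  · simp only [JJ, Om, Sum.swap_inr, Sum.inl.injEq, Sum.elim_inr, fromBlocks_apply₂₁,
      Matrix.neg_apply, Matrix.one_apply]
    by_cases h : y = x
    · rw [if_pos h, if_pos h.symm]
    · rw [if_neg h, if_neg (Ne.symm h), neg_zero]
  · simp [JJ, Om]

theorem IsOm_Om : IsOm (Om g ℂ) where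
  T := Om_transpose ℂ
  sq := Om_sq ℂ
  real := by
    ext i j
    rcases i with i | i <;> rcases j with j | j <;>
      simp [Om, Matrix.one_apply, apply_ite]

/-- Products of the symplectic form. -/
theorem TQ_matF (hom : (fun I : Fin 2 → Fin g ⊕ Fin g => Om g ℂ (I 0) (I 1)) ∈
    TQ e 𝒜 (Fin 2)) (m : ℕ) :
    (fun I : Fin m × Fin 2 → Fin g ⊕ Fin g => ∏ s, Om g ℂ (I (s, 0)) (I (s, 1))) ∈
      TQ e 𝒜 (Fin m × Fin 2) := by
  induction m with
  | zero => exact TQ_empty _
  | succ m ih =>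
    have h1 := TQ_mul hom ih
    let f : Fin 2 ⊕ (Fin m × Fin 2) → Fin (m + 1) × Fin 2 :=
      Sum.elim (fun j => (0, j)) (fun p => (p.1.succ, p.2))
    have hf : Function.Bijective f := by
      rw [Fintype.bijective_iff_surjective_and_card]
      constructor
      · rintro ⟨s, j⟩
        refine Fin.cases ?_ (fun i => ?_) s
        · exact ⟨Sum.inl j, rfl⟩
        · exact ⟨Sum.inr (i, j), rfl⟩
      · simp only [Fintype.card_sum, Fintype.card_prod, Fintype.card_fin]
        ring
    let F := Equiv.ofBijective f hf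
    have h2 := TQ_reindex (e := e) (𝒜 := 𝒜) F h1
    have h3 : (fun I : Fin (m + 1) × Fin 2 → Fin g ⊕ Fin g =>
        ∏ s, Om g ℂ (I (s, 0)) (I (s, 1))) = fun I : Fin (m + 1) × Fin 2 → Fin g ⊕ Fin g =>
        tp (fun I : Fin 2 → Fin g ⊕ Fin g => Om g ℂ (I 0) (I 1))
          (fun I : Fin m × Fin 2 → Fin g ⊕ Fin g => ∏ s, Om g ℂ (I (s, 0)) (I (s, 1)))
            (fun k => I (F k)) := by
      funext I
      rw [Fin.prod_univ_succ]
      rfl
    rw [h3]
    exact h2

/-- The Hodge operator of a standard abelian variety. -/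
def Dst (g : ℕ) : Matrix (Fin g ⊕ Fin g) (Fin g ⊕ Fin g) ℂ := fromBlocks 1 0 0 (-1)

theorem Dst_sp : (Dst g)ᵀ * Om g ℂ + Om g ℂ * Dst g = 0 := by
  unfold Dst Om
  rw [fromBlocks_transpose, fromBlocks_multiply, fromBlocks_multiply, fromBlocks_add]
  ext i j
  rcases i with i | i <;> rcases j with j | j <;> simp

theorem Dst_sq : Dst g * Dst g = 1 := by
  unfold Dst
  rw [fromBlocks_multiply]
  simp

/-- **Invariants of the symplectic group** belong to the system. -/
theorem TQ_sp (hom : (fun I : Fin 2 → Fin g ⊕ Fin g => Om g ℂ (I 0) (I 1)) ∈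
    TQ e 𝒜 (Fin 2)) {κ : Type} [Fintype κ] [DecidableEq κ] {t : (κ → Fin g ⊕ Fin g) → ℂ}
    (ht : t ∈ InvL (spL g) κ) : t ∈ TQ e 𝒜 κ := by
  by_cases h0 : t = 0
  · rw [h0]
    exact Submodule.zero_mem _
  have h1 : Even (Fintype.card κ) := even_of_inv ⟨Dst g, Dst_sp, Dst_sq⟩ ht h0
  obtain ⟨m, hm⟩ := h1
  have h2 : t ∈ InvF Sum.swap (Sum.elim (fun _ => (1 : ℂ)) (fun _ => -1)) κ := by
    intro b c I
    let N : Matrix (Fin g ⊕ Fin g) (Fin g ⊕ Fin g) ℂ := Matrix.of fun x j =>
      Om g ℂ b x * (if j = c then 1 else 0) + Om g ℂ c x * (if j = b then 1 else 0)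
    have hN : N ∈ spL g := by
      have e1 : Om g ℂ * N = Matrix.of fun y j => (if y = b then (1 : ℂ) else 0) *
          (if j = c then 1 else 0) + (if y = c then 1 else 0) * (if j = b then 1 else 0) := by
        have e2 : Om g ℂ * (Om g ℂ)ᵀ = 1 := by
          rw [Om_transpose, mul_neg, Om_sq, neg_neg]
        ext y j
        rw [Matrix.mul_apply]
        simp only [N, of_apply, mul_add, ← mul_assoc]
        rw [Finset.sum_add_distrib, ← Finset.sum_mul, ← Finset.sum_mul]
        have e3 : ∀ z, ∑ x, Om g ℂ y x * Om g ℂ z x = if y = z then 1 else 0 := by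
          intro z
          have e4 := congrFun (congrFun e2 y) z
          rw [Matrix.mul_apply, Matrix.one_apply] at e4
          rw [← e4]
          rfl
        rw [e3, e3]
      have e2 : (Om g ℂ * N)ᵀ = Om g ℂ * N := by
        rw [e1]
        ext y j
        rw [transpose_apply, of_apply, of_apply]
        ring
      change Nᵀ * Om g ℂ + Om g ℂ * N = 0
      have e3 : Nᵀ * Om g ℂ = -(Om g ℂ * N)ᵀ := by
        rw [transpose_mul, Om_transpose, mul_neg, neg_neg]
      rw [e3, e2, neg_add_cancel]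
    have h3 := congrFun (ht N hN) I
    rw [dm_mulVec_apply, Pi.zero_apply] at h3
    rw [← h3]
    refine Finset.sum_congr rfl fun k _ => ?_
    rw [JJ_Om, JJ_Om]
    simp only [N, of_apply, add_mul, mul_assoc, ite_mul, one_mul, zero_mul]
    rw [Finset.sum_add_distrib, ← Finset.mul_sum, ← Finset.mul_sum, Finset.sum_ite_eq',
      Finset.sum_ite_eq', if_pos (Finset.mem_univ _), if_pos (Finset.mem_univ _)]
  have h3 := fft (inv := (Sum.swap : Fin g ⊕ Fin g → Fin g ⊕ Fin g))
    (jj := Sum.elim (fun _ => (1 : ℂ)) (fun _ => -1)) (fun x => Sum.swap_swap x)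
    (fun x => by rcases x with x | x <;> simp) (fun x => by rcases x with x | x <;> simp) m κ
    (by omega) h2
  unfold MatF at h3
  refine (Submodule.span_le.2 ?_) h3
  rintro _ ⟨E, rfl⟩
  have h4 := TQ_reindex (e := e) (𝒜 := 𝒜) E (TQ_matF hom m)
  have h5 : matF Sum.swap (Sum.elim (fun _ => (1 : ℂ)) (fun _ => -1)) E =
      fun I : κ → Fin g ⊕ Fin g => (fun I : Fin m × Fin 2 → Fin g ⊕ Fin g =>
        ∏ s, Om g ℂ (I (s, 0)) (I (s, 1))) (fun k => I (E k)) := by
    funext I
    unfold matF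
    simp only [JJ_Om]
  rw [SetLike.mem_coe, h5]
  exact h4

end sp

end

end Pool.Agent.NH32
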