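import Mathlib
import Pool.Agent.NH32.Geo5
import Pool.Agent.NH32.Core

/-!
# Orthonormal coordinates
-/

set_option linter.unusedSectionVars false

namespace Pool.Agent.NH32

open Matrix Module Pool.Agent.W437.HC Pool.Agent.W437.HD Pool.Agent.TH504.CB Pool.Agent.Y90
open Pool.Agent.H204R3.CM (IsHodge)
open Pool.Agent.W548.Odd hiding cv

noncomputable section

variable {g : ℕ} {Z : Matrix (Fin g) (Fin g) ℂ}

/-- Orthonormal coordinates for the polarization. -/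
structure YD (Z : Matrix (Fin g) (Fin g) ℂ) (y yi : Matrix (Fin g ⊕ Fin g) (Fin g ⊕ Fin g) ℝ) :
    Prop where
  r : y * yi = 1
  l : yi * y = 1
  pol : Om g ℝ * JR Z = yᵀ * y
  adj : ∀ X ∈ LZ Z, cm yi * (cm yi)ᴴ * Xᴴ * ((cm y)ᴴ * cm y) ∈ LZ Z

theorem exists_YD (h : PM Z) : ∃ y yi, YD Z y yi := by
  have hu : IsUnit (imM Z).det := h.det
  have hDm : DZ Z ∈ LZ Z := DZ_mem
  obtain ⟨y, hy, hyy⟩ := exists_sqrt (OmJ_posDef h.symm h.pos)
  rw [star_eq_conjTranspose, conjTranspose_eq_transpose_of_trivial] at hyy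
  obtain ⟨yi, hyyi⟩ : ∃ yi, y * yi = 1 := hy.exists_right_inv
  have hSSi : cm y * cm yi = 1 := by rw [← cm_mul, hyyi, cm_one]
  refine ⟨y, yi, hyyi, mul_eq_one_comm.1 hyyi, hyy, ?_⟩
  intro X hX
  have hSiS : cm yi * cm y = 1 := mul_eq_one_comm.1 hSSi
  obtain ⟨X', hX'⟩ : ∃ X', X' = X.map (starRingEnd ℂ) := ⟨_, rfl⟩
  have hX'm : X' ∈ LZ Z := by
    rw [hX']
    exact LA_aut (starRingEnd ℂ) hX
  have hXH : Xᴴ = X'ᵀ := by
    rw [hX']
    rfl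
  have h1 : DZ Z * X' * DZ Z ∈ LZ Z := LA_invol hX'm hDm (DZ_sq hu)
  have hJD : cm (JR Z) = Complex.I • DZ Z := by
    change _ = Complex.I • ((-Complex.I) • cm (JR Z))
    rw [smul_smul, show Complex.I * -Complex.I = 1 by simp, one_smul]
  have h2 : cm (JR Z) * X' * cm (JR Z) = -(DZ Z * X' * DZ Z) := by
    rw [hJD, smul_mul_assoc, smul_mul_assoc, mul_smul_comm, smul_smul, Complex.I_mul_I,
      neg_one_smul]
  have h3 : cm (JR Z) * X' * cm (JR Z) ∈ LZ Z := by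
    rw [h2]
    exact Submodule.neg_mem _ h1
  have hOS : Om g ℂ * cm (JR Z) = (cm y)ᵀ * cm y := by
    rw [← cm_Om, ← cm_mul, hyy, cm_mul, cm_transpose]
  have hJ2 : cm (JR Z) * cm (JR Z) = -1 := by
    rw [← cm_mul, JR_sq hu, cm_neg, cm_one]
  have hsp := h.sp hX'm
  have hOX : Om g ℂ * X' = -(X'ᵀ * Om g ℂ) := eq_neg_of_add_eq_zero_right hsp
  have hJ1 : cm (JR Z) = -(Om g ℂ * ((cm y)ᵀ * cm y)) := by
    rw [← hOS, ← mul_assoc, Om_sq, neg_one_mul, neg_neg]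
  have hJO : cm (JR Z) = cm yi * (cm yi)ᵀ * (-(Om g ℂ)) := by
    have e1 : ((cm y)ᵀ * cm y) * cm (JR Z) = -Om g ℂ := by
      rw [← hOS, mul_assoc, hJ2, mul_neg_one]
    have e2 : (cm yi)ᵀ * (cm y)ᵀ = 1 := by rw [← transpose_mul, hSSi, transpose_one]
    have e3 : cm yi * (cm yi)ᵀ * (((cm y)ᵀ * cm y) * cm (JR Z)) = cm (JR Z) := by
      have : cm yi * (cm yi)ᵀ * (((cm y)ᵀ * cm y) * cm (JR Z)) =
          cm yi * (((cm yi)ᵀ * (cm y)ᵀ) * cm y) * cm (JR Z) := by noncomm_ring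
      rw [this, e2, one_mul, hSiS, one_mul]
    rw [← e1, e3]
  have h4 : cm (JR Z) * X' * cm (JR Z) = cm yi * (cm yi)ᵀ * X'ᵀ * ((cm y)ᵀ * cm y) := by
    have e1 : cm (JR Z) * X' * cm (JR Z) =
        (cm yi * (cm yi)ᵀ * (-(Om g ℂ))) * X' * (-(Om g ℂ * ((cm y)ᵀ * cm y))) := by
      rw [← hJO, ← hJ1]
    have e2 : (cm yi * (cm yi)ᵀ * (-(Om g ℂ))) * X' * (-(Om g ℂ * ((cm y)ᵀ * cm y))) =
        (cm yi * (cm yi)ᵀ) * (Om g ℂ * X') * (Om g ℂ * ((cm y)ᵀ * cm y)) := by noncomm_ring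
    rw [e1, e2, hOX]
    have e3 : (cm yi * (cm yi)ᵀ) * -(X'ᵀ * Om g ℂ) * (Om g ℂ * ((cm y)ᵀ * cm y)) =
        -((cm yi * (cm yi)ᵀ) * X'ᵀ * (Om g ℂ * Om g ℂ) * ((cm y)ᵀ * cm y)) := by noncomm_ring
    rw [e3, Om_sq]
    noncomm_ring
  rw [hXH, cm_conjT, cm_conjT, ← h4]
  exact h3

theorem cm_real {n : Type*} (M : Matrix n n ℝ) : (cm M).map (starRingEnd ℂ) = cm M := by
  ext i j
  exact Complex.conj_ofReal _

/-- The transposed Lie algebra. -/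
def Lr (Z : Matrix (Fin g) (Fin g) ℂ) : Submodule ℂ (Matrix (Fin g ⊕ Fin g) (Fin g ⊕ Fin g) ℂ) where
  carrier := {N | Nᵀ ∈ LZ Z}
  add_mem' := fun ha hb => (LZ Z).add_mem ha hb
  zero_mem' := (LZ Z).zero_mem
  smul_mem' := fun c _ ha => (LZ Z).smul_mem c ha

theorem mem_Lr {N : Matrix (Fin g ⊕ Fin g) (Fin g ⊕ Fin g) ℂ} : N ∈ Lr Z ↔ Nᵀ ∈ LZ Z := Iff.rfl

/-- The transposed Lie algebra in the orthonormal coordinates. -/
def Ly (Z : Matrix (Fin g) (Fin g) ℂ) (y yi : Matrix (Fin g ⊕ Fin g) (Fin g ⊕ Fin g) ℝ) :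
    Submodule ℂ (Matrix (Fin g ⊕ Fin g) (Fin g ⊕ Fin g) ℂ) where
  carrier := {N | cm yi * Nᵀ * cm y ∈ LZ Z}
  add_mem' := by
    intro a b ha hb
    change cm yi * (a + b)ᵀ * cm y ∈ LZ Z
    rw [transpose_add, mul_add, add_mul]
    exact (LZ Z).add_mem ha hb
  zero_mem' := by
    change cm yi * 0ᵀ * cm y ∈ LZ Z
    rw [transpose_zero, mul_zero, zero_mul]
    exact (LZ Z).zero_mem
  smul_mem' := by
    intro c a ha
    change cm yi * (c • a)ᵀ * cm y ∈ LZ Z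
    rw [transpose_smul, Matrix.mul_smul, Matrix.smul_mul]
    exact (LZ Z).smul_mem _ ha

variable {y yi : Matrix (Fin g ⊕ Fin g) (Fin g ⊕ Fin g) ℝ}

theorem mem_Ly {N : Matrix (Fin g ⊕ Fin g) (Fin g ⊕ Fin g) ℂ} :
    N ∈ Ly Z y yi ↔ cm yi * Nᵀ * cm y ∈ LZ Z := Iff.rfl

/-- The form in the orthonormal coordinates. -/
def Oy (yi : Matrix (Fin g ⊕ Fin g) (Fin g ⊕ Fin g) ℝ) :
    Matrix (Fin g ⊕ Fin g) (Fin g ⊕ Fin g) ℂ := (cm yi)ᵀ * Om g ℂ * cm yi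

namespace YD

variable (hy : YD Z y yi)
include hy

theorem cr : cm y * cm yi = 1 := by rw [← cm_mul, hy.r, cm_one]

theorem cl : cm yi * cm y = 1 := by rw [← cm_mul, hy.l, cm_one]

theorem crT : (cm yi)ᵀ * (cm y)ᵀ = 1 := by rw [← transpose_mul, hy.cr, transpose_one]

theorem clT : (cm y)ᵀ * (cm yi)ᵀ = 1 := by rw [← transpose_mul, hy.cl, transpose_one]

theorem Oy_eq (hu : IsUnit (imM Z).det) : Oy yi = -(cm y * cm (JR Z) * cm yi) := by
  have hOS : Om g ℂ * cm (JR Z) = (cm y)ᵀ * cm y := by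
    rw [← cm_Om, ← cm_mul, hy.pol, cm_mul, cm_transpose]
  have hJ2 : cm (JR Z) * cm (JR Z) = -1 := by
    rw [← cm_mul, JR_sq hu, cm_neg, cm_one]
  have h1 : Om g ℂ = -((cm y)ᵀ * cm y * cm (JR Z)) := by
    rw [← hOS, mul_assoc, hJ2, mul_neg_one, neg_neg]
  unfold Oy
  rw [h1]
  calc (cm yi)ᵀ * -((cm y)ᵀ * cm y * cm (JR Z)) * cm yi
      = -(((cm yi)ᵀ * (cm y)ᵀ) * cm y * cm (JR Z) * cm yi) := by noncomm_ring
    _ = _ := by rw [hy.crT, one_mul]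

theorem isOm (hu : IsUnit (imM Z).det) : IsOm (Oy yi) where
  T := by
    unfold Oy
    rw [transpose_mul, transpose_mul, transpose_transpose, Om_transpose]
    noncomm_ring
  sq := by
    have hJ2 : cm (JR Z) * cm (JR Z) = -1 := by
      rw [← cm_mul, JR_sq hu, cm_neg, cm_one]
    rw [hy.Oy_eq hu]
    calc -(cm y * cm (JR Z) * cm yi) * -(cm y * cm (JR Z) * cm yi)
        = cm y * cm (JR Z) * (cm yi * cm y) * cm (JR Z) * cm yi := by noncomm_ring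
      _ = cm y * (cm (JR Z) * cm (JR Z)) * cm yi := by rw [hy.cl]; noncomm_ring
      _ = -(cm y * cm yi) := by rw [hJ2]; noncomm_ring
      _ = -1 := by rw [hy.cr]
  real := by
    have h1 : Oy yi = cm (yiᵀ * Om g ℝ * yi) := by
      unfold Oy
      rw [cm_mul, cm_mul, cm_transpose, cm_Om]
    rw [h1, cm_real]

theorem Oy_dual (hu : IsUnit (imM Z).det) : cm y * Om g ℂ * (cm y)ᵀ = Oy yi := by
  have hO := hy.isOm hu
  have h1 : (cm y * Om g ℂ * (cm y)ᵀ) * Oy yi = -1 := by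
    unfold Oy
    calc (cm y * Om g ℂ * (cm y)ᵀ) * ((cm yi)ᵀ * Om g ℂ * cm yi)
        = cm y * Om g ℂ * ((cm y)ᵀ * (cm yi)ᵀ) * Om g ℂ * cm yi := by noncomm_ring
      _ = cm y * (Om g ℂ * Om g ℂ) * cm yi := by rw [hy.clT]; noncomm_ring
      _ = -(cm y * cm yi) := by rw [Om_sq]; noncomm_ring
      _ = -1 := by rw [hy.cr]
  calc cm y * Om g ℂ * (cm y)ᵀ = -((cm y * Om g ℂ * (cm y)ᵀ) * (Oy yi * Oy yi)) := by
        rw [hO.sq]
        noncomm_ring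
    _ = -(((cm y * Om g ℂ * (cm y)ᵀ) * Oy yi) * Oy yi) := by noncomm_ring
    _ = Oy yi := by rw [h1]; noncomm_ring

theorem mem_of (X : Matrix (Fin g ⊕ Fin g) (Fin g ⊕ Fin g) ℂ) (hX : X ∈ LZ Z) :
    (cm y * X * cm yi)ᵀ ∈ Ly Z y yi := by
  rw [mem_Ly, transpose_transpose]
  have h1 : cm yi * (cm y * X * cm yi) * cm y = (cm yi * cm y) * X * (cm yi * cm y) := by
    noncomm_ring
  rw [h1, hy.cl, one_mul, mul_one]
  exact hX

theorem Oy_mem (hu : IsUnit (imM Z).det) : Oy yi ∈ Ly Z y yi := by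
  have h1 := hy.mem_of _ (DZ_mem (Z := Z))
  have h2 : Oy yi = Complex.I • (cm y * DZ Z * cm yi)ᵀ := by
    have hO := hy.isOm hu
    have h3 : (Oy yi)ᵀ = -Oy yi := hO.T
    have h4 : cm y * DZ Z * cm yi = Complex.I • Oy yi := by
      rw [hy.Oy_eq hu]
      change cm y * ((-Complex.I) • cm (JR Z)) * cm yi = _
      rw [Matrix.mul_smul, Matrix.smul_mul, smul_neg, neg_smul]
    rw [h4, transpose_smul, h3, smul_smul, Complex.I_mul_I, neg_one_smul, neg_neg]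
  rw [h2]
  exact (Ly Z y yi).smul_mem _ h1

theorem ld (h : PM Z) : LD (Oy yi) (Ly Z y yi) where
  br := by
    intro X hX Y hY
    rw [mem_Ly] at hX hY ⊢
    have h1 := LZ_br hY hX
    have h2 : cm yi * (X * Y - Y * X)ᵀ * cm y = (cm yi * Yᵀ * cm y) * (cm yi * Xᵀ * cm y) -
        (cm yi * Xᵀ * cm y) * (cm yi * Yᵀ * cm y) := by
      have e1 : (cm yi * Yᵀ * cm y) * (cm yi * Xᵀ * cm y) = cm yi * (Yᵀ * Xᵀ) * cm y := by
        calc (cm yi * Yᵀ * cm y) * (cm yi * Xᵀ * cm y)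
            = cm yi * Yᵀ * (cm y * cm yi) * Xᵀ * cm y := by noncomm_ring
          _ = _ := by rw [hy.cr]; noncomm_ring
      have e2 : (cm yi * Xᵀ * cm y) * (cm yi * Yᵀ * cm y) = cm yi * (Xᵀ * Yᵀ) * cm y := by
        calc (cm yi * Xᵀ * cm y) * (cm yi * Yᵀ * cm y)
            = cm yi * Xᵀ * (cm y * cm yi) * Yᵀ * cm y := by noncomm_ring
          _ = _ := by rw [hy.cr]; noncomm_ring
      rw [e1, e2, transpose_sub, transpose_mul, transpose_mul]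
      noncomm_ring
    rw [h2]
    exact h1
  adj := by
    intro N hN
    rw [mem_Ly] at hN ⊢
    have h1 := hy.adj _ hN
    have h2 : cm yi * (cm yi)ᴴ * (cm yi * Nᵀ * cm y)ᴴ * ((cm y)ᴴ * cm y) =
        cm yi * (Nᴴ)ᵀ * cm y := by
      have e1 : (Nᵀ)ᴴ = (Nᴴ)ᵀ := rfl
      have e2 : (cm yi)ᴴ * (cm y)ᴴ = 1 := by rw [← conjTranspose_mul, hy.cr, conjTranspose_one]
      rw [conjTranspose_mul, conjTranspose_mul, e1]
      calc cm yi * (cm yi)ᴴ * ((cm y)ᴴ * ((Nᴴ)ᵀ * (cm yi)ᴴ)) * ((cm y)ᴴ * cm y)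
          = cm yi * ((cm yi)ᴴ * (cm y)ᴴ) * (Nᴴ)ᵀ * ((cm yi)ᴴ * (cm y)ᴴ) * cm y := by
            noncomm_ring
        _ = _ := by rw [e2]; noncomm_ring
    rw [h2] at h1
    exact h1
  sp := by
    intro N hN
    rw [mem_Ly] at hN
    have h1 := h.sp hN
    have hu := h.det
    have h2 : Nᵀ = cm y * (cm yi * Nᵀ * cm y) * cm yi := by
      calc Nᵀ = (cm y * cm yi) * Nᵀ * (cm y * cm yi) := by rw [hy.cr, one_mul, mul_one]
        _ = _ := by noncomm_ring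
    obtain ⟨X, hX⟩ : ∃ X, X = cm yi * Nᵀ * cm y := ⟨_, rfl⟩
    rw [← hX] at h1 h2
    have h3 : N = (cm yi)ᵀ * Xᵀ * (cm y)ᵀ := by
      rw [← transpose_transpose N, h2, transpose_mul, transpose_mul]
      noncomm_ring
    have h4 : X * Om g ℂ + Om g ℂ * Xᵀ = 0 := by
      have h5 := congrArg (fun W => -(Om g ℂ * W * Om g ℂ)) h1
      beta_reduce at h5
      have e1 : -(Om g ℂ * (Xᵀ * Om g ℂ + Om g ℂ * X) * Om g ℂ) =
          -(Om g ℂ * Xᵀ * (Om g ℂ * Om g ℂ)) - (Om g ℂ * Om g ℂ) * X * Om g ℂ := by noncomm_ring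
      rw [e1, Om_sq, mul_zero, zero_mul, neg_zero] at h5
      rw [← h5]
      noncomm_ring
    rw [h2, ← hy.Oy_dual hu]
    conv_lhs => rw [h3]
    calc cm y * X * cm yi * (cm y * Om g ℂ * (cm y)ᵀ) +
          cm y * Om g ℂ * (cm y)ᵀ * ((cm yi)ᵀ * Xᵀ * (cm y)ᵀ)
        = cm y * X * (cm yi * cm y) * Om g ℂ * (cm y)ᵀ +
          cm y * Om g ℂ * ((cm y)ᵀ * (cm yi)ᵀ) * Xᵀ * (cm y)ᵀ := by noncomm_ring
      _ = cm y * (X * Om g ℂ + Om g ℂ * Xᵀ) * (cm y)ᵀ := by rw [hy.cl, hy.clT]; noncomm_ring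
      _ = 0 := by rw [h4]; noncomm_ring
  gen := by
    intro M hM1 hM2 N hN
    rw [mem_Ly] at hN
    let f : Matrix (Fin g ⊕ Fin g) (Fin g ⊕ Fin g) ℂ →ₗ[ℂ]
        Matrix (Fin g ⊕ Fin g) (Fin g ⊕ Fin g) ℂ :=
      { toFun := fun X => (cm y * X * cm yi)ᵀ
        map_add' := fun a b => by rw [mul_add, add_mul, transpose_add]
        map_smul' := fun c a => by
          rw [Matrix.mul_smul, Matrix.smul_mul, transpose_smul]
          rfl }
    have hf : ∀ X, f X = (cm y * X * cm yi)ᵀ := fun _ => rfl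
    have h1 : LZ Z ≤ M.comap f := by
      refine LZ_le (fun σ => ?_) (fun X hX Y hY => ?_)
      · change f (DS Z σ) ∈ M
        refine hM1 _ (hy.mem_of _ (DS_mem σ)) ?_
        rw [hf, ← transpose_mul]
        have e1 : cm y * DS Z σ * cm yi * (cm y * DS Z σ * cm yi) =
            cm y * (DS Z σ * DS Z σ) * cm yi := by
          calc cm y * DS Z σ * cm yi * (cm y * DS Z σ * cm yi)
              = cm y * DS Z σ * (cm yi * cm y) * DS Z σ * cm yi := by noncomm_ring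
            _ = _ := by rw [hy.cl]; noncomm_ring
        rw [e1, DS_sq h.det, mul_one, hy.cr, transpose_one]
      · change f (X * Y - Y * X) ∈ M
        have h2 := hM2 _ hY _ hX
        have e1 : f (X * Y - Y * X) = f Y * f X - f X * f Y := by
          rw [hf, hf, hf, ← transpose_mul, ← transpose_mul, ← transpose_sub]
          congr 1
          have e2 : ∀ P Q : Matrix (Fin g ⊕ Fin g) (Fin g ⊕ Fin g) ℂ,
              cm y * P * cm yi * (cm y * Q * cm yi) = cm y * (P * Q) * cm yi := by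
            intro P Q
            calc cm y * P * cm yi * (cm y * Q * cm yi)
                = cm y * P * (cm yi * cm y) * Q * cm yi := by noncomm_ring
              _ = _ := by rw [hy.cl]; noncomm_ring
          rw [e2, e2]
          noncomm_ring
        rw [e1]
        exact h2
    have h2 := h1 hN
    change f _ ∈ M at h2
    have h3 : f (cm yi * Nᵀ * cm y) = N := by
      rw [hf]
      have e1 : cm y * (cm yi * Nᵀ * cm y) * cm yi = (cm y * cm yi) * Nᵀ * (cm y * cm yi) := by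
        noncomm_ring
      rw [e1, hy.cr, one_mul, mul_one, transpose_transpose]
    rwa [h3] at h2

theorem exD (h : PM Z) : ∃ D ∈ Ly Z y yi, D * D = 1 := by
  refine ⟨_, hy.mem_of _ DZ_mem, ?_⟩
  rw [← transpose_mul]
  have e1 : cm y * DZ Z * cm yi * (cm y * DZ Z * cm yi) = cm y * (DZ Z * DZ Z) * cm yi := by
    calc cm y * DZ Z * cm yi * (cm y * DZ Z * cm yi)
        = cm y * DZ Z * (cm yi * cm y) * DZ Z * cm yi := by noncomm_ring
      _ = _ := by rw [hy.cl]; noncomm_ring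
  rw [e1, DZ_sq h.det, mul_one, hy.cr, transpose_one]

/-- Transport of the Lie algebra. -/
theorem Lr_to {N : Matrix (Fin g ⊕ Fin g) (Fin g ⊕ Fin g) ℂ} (hN : N ∈ Lr Z) :
    (cm yi)ᵀ * N * (cm y)ᵀ ∈ Ly Z y yi := by
  rw [mem_Ly]
  have h1 : cm yi * ((cm yi)ᵀ * N * (cm y)ᵀ)ᵀ * cm y = (cm yi * cm y) * Nᵀ * (cm yi * cm y) := by
    rw [transpose_mul, transpose_mul, transpose_transpose, transpose_transpose]
    noncomm_ring
  rw [h1, hy.cl, one_mul, mul_one]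
  exact hN

theorem kp_dm {κ : Type} [Fintype κ] [DecidableEq κ]
    (N : Matrix (Fin g ⊕ Fin g) (Fin g ⊕ Fin g) ℂ) :
    kp κ (cm y)ᵀ * dm κ ((cm yi)ᵀ * N * (cm y)ᵀ) = dm κ N * kp κ (cm y)ᵀ := by
  refine kp_mul_dm ?_
  calc (cm y)ᵀ * ((cm yi)ᵀ * N * (cm y)ᵀ) = ((cm y)ᵀ * (cm yi)ᵀ) * N * (cm y)ᵀ := by noncomm_ring
    _ = N * (cm y)ᵀ := by rw [hy.clT, one_mul]

theorem inv_to {κ : Type} [Fintype κ] [DecidableEq κ] {c : (κ → Fin g ⊕ Fin g) → ℂ}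
    (hc : c ∈ InvL (Ly Z y yi) κ) : kp κ (cm y)ᵀ *ᵥ c ∈ InvL (Lr Z) κ := by
  intro N hN
  rw [mulVec_mulVec, ← hy.kp_dm, ← mulVec_mulVec, hc _ (hy.Lr_to hN), mulVec_zero]

theorem inv_from {κ : Type} [Fintype κ] [DecidableEq κ] {c : (κ → Fin g ⊕ Fin g) → ℂ}
    (hc : kp κ (cm y)ᵀ *ᵥ c ∈ InvL (Lr Z) κ) : c ∈ InvL (Ly Z y yi) κ := by
  intro N hN
  have h1 : (cm y)ᵀ * N * (cm yi)ᵀ ∈ Lr Z := by
    rw [mem_Lr, transpose_mul, transpose_mul, transpose_transpose, transpose_transpose,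
      ← mul_assoc]
    exact hN
  have h2 := hc _ h1
  rw [mulVec_mulVec, ← hy.kp_dm, ← mulVec_mulVec] at h2
  have h3 : (cm yi)ᵀ * ((cm y)ᵀ * N * (cm yi)ᵀ) * (cm y)ᵀ = N := by
    calc (cm yi)ᵀ * ((cm y)ᵀ * N * (cm yi)ᵀ) * (cm y)ᵀ
        = ((cm yi)ᵀ * (cm y)ᵀ) * N * ((cm yi)ᵀ * (cm y)ᵀ) := by noncomm_ring
      _ = N := by rw [hy.crT, one_mul, mul_one]
  rw [h3] at h2
  have h4 := congrArg (fun z => kp κ (cm yi)ᵀ *ᵥ z) h2
  beta_reduce at h4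
  rw [mulVec_mulVec, ← kp_mul, hy.crT, kp_one, one_mulVec, mulVec_zero] at h4
  exact h4

end YD

end

end Pool.Agent.NH32
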