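import Mathlib
import Pool.Agent.NH32.App

/-!
# The system of tensors of an abelian variety
-/

set_option linter.unusedSectionVars false

namespace Pool.Agent.NH32

open Matrix Module Pool.Agent.W437.HC Pool.Agent.W437.HD Pool.Agent.TH504.CB Pool.Agent.Y90
open Pool.Agent.H204R3.CM (IsHodge)
open Pool.Agent.W548.Odd hiding cv

noncomputable section

variable {g : ℕ} {Z : Matrix (Fin g) (Fin g) ℂ}

theorem mem_InvLr {κ : Type} [Fintype κ] [DecidableEq κ] {c : (κ → Fin g ⊕ Fin g) → ℂ} :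
    c ∈ InvL (Lr Z) κ ↔ ∀ X ∈ LZ Z, act X c = 0 := by
  constructor
  · intro h X hX
    have h1 := h Xᵀ (by rw [mem_Lr, transpose_transpose]; exact hX)
    rwa [dm_mulVec, transpose_transpose] at h1
  · intro h N hN
    rw [dm_mulVec]
    exact h _ hN

/-- Rational tensors killed by the complex structure are invariant. -/
theorem inv_of_isH {κ : Type} [Fintype κ] [DecidableEq κ] {q : (κ → Fin g ⊕ Fin g) → ℚ}
    (hq : IsH (DZ Z) q) : cst ℂ q ∈ InvL (Lr Z) κ := by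
  rw [mem_InvLr]
  let M : Submodule ℂ (Matrix (Fin g ⊕ Fin g) (Fin g ⊕ Fin g) ℂ) :=
    LinearMap.ker (actL (cst ℂ q))
  have hM : ∀ X, X ∈ M ↔ act X (cst ℂ q) = 0 := fun X => LinearMap.mem_ker
  have h1 : LZ Z ≤ M := by
    refine LZ_le (fun σ => ?_) (fun X hX Y hY => ?_)
    · rw [hM]
      funext I
      have h2 := congrArg σ (congrFun hq I)
      rw [Pi.zero_apply, map_zero] at h2
      rw [Pi.zero_apply, ← h2]
      simp only [act, map_sum, map_mul]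
      refine Finset.sum_congr rfl fun k _ => Finset.sum_congr rfl fun j _ => ?_
      congr 1
      exact (map_ratCast σ _).symm
    · rw [hM] at hX hY ⊢
      exact act_bracket hX hY
  intro X hX
  exact (hM X).1 (h1 hX)

theorem IsAlt2.kp {B : Type} [Fintype B] [DecidableEq B] {a b : ℕ} {c : (Fin a ⊕ Fin b → B) → ℂ}
    (M : Matrix B B ℂ) (h : IsAlt2 c) : IsAlt2 (kp (Fin a ⊕ Fin b) M *ᵥ c) := by
  have key : ∀ (I : Fin a → B) (J : Fin b → B), (NH32.kp (Fin a ⊕ Fin b) M *ᵥ c) (Sum.elim I J) =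
      ∑ I' : Fin a → B, ∑ J' : Fin b → B, NH32.kp (Fin a) M I I' * NH32.kp (Fin b) M J J' *
        c (Sum.elim I' J') := by
    intro I J
    rw [mvA, ← Fintype.sum_prod_type' (f := fun (I' : Fin a → B) (J' : Fin b → B) =>
      NH32.kp (Fin a) M I I' * NH32.kp (Fin b) M J J' * c (Sum.elim I' J'))]
    refine Fintype.sum_equiv (Equiv.sumArrowEquivProdArrow (Fin a) (Fin b) B) _ _ fun K => ?_
    rw [kp_apply, kp_apply, kp_apply, Fintype.prod_sum_type]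
    simp only [Equiv.sumArrowEquivProdArrow, Equiv.coe_fn_mk, Function.comp_def, Sum.elim_inl,
      Sum.elim_inr]
    congr 2
    funext k
    rcases k with k | k <;> rfl
  constructor
  · intro J σ I
    beta_reduce
    rw [key, key]
    have h1 : ∀ J' : Fin b → B, ∀ I : Fin a → B, ∑ I' : Fin a → B, NH32.kp (Fin a) M I I' *
        NH32.kp (Fin b) M J J' * c (Sum.elim I' J') =
        NH32.kp (Fin b) M J J' * (NH32.kp (Fin a) M *ᵥ fun I' => c (Sum.elim I' J')) I := by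
      intro J' I
      rw [mvA, Finset.mul_sum]
      exact Finset.sum_congr rfl fun I' _ => by ring
    have h2 : ∀ I : Fin a → B, ∑ I' : Fin a → B, ∑ J' : Fin b → B, NH32.kp (Fin a) M I I' *
        NH32.kp (Fin b) M J J' * c (Sum.elim I' J') =
        ∑ J' : Fin b → B, NH32.kp (Fin b) M J J' *
          (NH32.kp (Fin a) M *ᵥ fun I' => c (Sum.elim I' J')) I := by
      intro I
      rw [Finset.sum_comm]
      exact Finset.sum_congr rfl fun J' _ => h1 J' I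
    rw [h2, h2, Finset.mul_sum]
    refine Finset.sum_congr rfl fun J' _ => ?_
    rw [(h.1 J').kp M σ I]
    ring
  · intro I σ J
    beta_reduce
    rw [key, key]
    have h1 : ∀ I' : Fin a → B, ∀ J : Fin b → B, ∑ J' : Fin b → B, NH32.kp (Fin a) M I I' *
        NH32.kp (Fin b) M J J' * c (Sum.elim I' J') =
        NH32.kp (Fin a) M I I' * (NH32.kp (Fin b) M *ᵥ fun J' => c (Sum.elim I' J')) J := by
      intro I' J
      rw [mvA, Finset.mul_sum]
      exact Finset.sum_congr rfl fun J' _ => by ring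
    rw [Finset.mul_sum]
    refine Finset.sum_congr rfl fun I' _ => ?_
    rw [h1, h1, (h.2 I').kp M σ J]
    ring

variable {y yi : Matrix (Fin g ⊕ Fin g) (Fin g ⊕ Fin g) ℝ} {A : AV}

/-- The system of tensors in the orthonormal coordinates. -/
def TY (e : A.H ≃ₗ[ℚ] (Fin g ⊕ Fin g → ℚ)) (𝒜 : Sys) (Z : Matrix (Fin g) (Fin g) ℂ)
    (y yi : Matrix (Fin g ⊕ Fin g) (Fin g ⊕ Fin g) ℝ) (κ : Type) [Fintype κ] [DecidableEq κ] :
    Submodule ℂ ((κ → Fin g ⊕ Fin g) → ℂ) :=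
  (TQ e 𝒜 κ).comap (mulVecLin (kp κ (cm y)ᵀ)) ⊓ InvL (Ly Z y yi) κ

theorem mem_TY {e : A.H ≃ₗ[ℚ] (Fin g ⊕ Fin g → ℚ)} {𝒜 : Sys} {κ : Type} [Fintype κ]
    [DecidableEq κ] {c : (κ → Fin g ⊕ Fin g) → ℂ} : c ∈ TY e 𝒜 Z y yi κ ↔
      kp κ (cm y)ᵀ *ᵥ c ∈ TQ e 𝒜 κ ∧ c ∈ InvL (Ly Z y yi) κ := Iff.rfl

/-- The matrix of a transformed tensor. -/
theorem kp_matrix {B : Type} [Fintype B] [DecidableEq B] {κ κ' : Type} [Fintype κ] [DecidableEq κ]
    [Fintype κ'] [DecidableEq κ'] (M : Matrix B B ℂ) (ψ : (κ ⊕ κ' → B) → ℂ) :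
    (of fun (I : κ → B) (K : κ' → B) => (kp (κ ⊕ κ') M *ᵥ ψ) (Sum.elim I K)) =
      kp κ M * (of fun I K => ψ (Sum.elim I K)) * kp κ' Mᵀ := by
  ext I K
  rw [of_apply, mvA, Matrix.mul_apply]
  have h1 : ∀ K', (kp κ M * (of fun I K => ψ (Sum.elim I K))) I K' * kp κ' Mᵀ K' K =
      ∑ I', kp κ M I I' * kp κ' M K K' * ψ (Sum.elim I' K') := by
    intro K'
    rw [Matrix.mul_apply, Finset.sum_mul]
    refine Finset.sum_congr rfl fun I' _ => ?_
    rw [of_apply, ← kp_transpose, transpose_apply]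
    ring
  rw [Finset.sum_congr rfl fun K' _ => h1 K', Finset.sum_comm,
    ← Fintype.sum_prod_type' (f := fun (I' : κ → B) (K' : κ' → B) =>
      kp κ M I I' * kp κ' M K K' * ψ (Sum.elim I' K'))]
  refine Fintype.sum_equiv (Equiv.sumArrowEquivProdArrow κ κ' B) _ _ fun S => ?_
  rw [kp_apply, kp_apply, kp_apply, Fintype.prod_sum_type]
  simp only [Equiv.sumArrowEquivProdArrow, Equiv.coe_fn_mk, Function.comp_def, Sum.elim_inl,
    Sum.elim_inr]
  congr 2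
  funext k
  rcases k with k | k <;> rfl

variable (h : PM Z) (hy : YD Z y yi) {e : A.H ≃ₗ[ℚ] (Fin g ⊕ Fin g → ℚ)} {𝒜 : Sys}
  (hcon : ∀ (κ : Type) [Fintype κ] [DecidableEq κ] (c : (κ ⊕ Fin 2 → Fin g ⊕ Fin g) → ℂ),
    c ∈ TQ e 𝒜 (κ ⊕ Fin 2) →
    (fun I : κ → Fin g ⊕ Fin g => ∑ K : Fin 2 → Fin g ⊕ Fin g,
      Om g ℂ (K 0) (K 1) * c (Sum.elim I K)) ∈ TQ e 𝒜 κ)
  (hom : (fun I : Fin 2 → Fin g ⊕ Fin g => Om g ℂ (I 0) (I 1)) ∈ TQ e 𝒜 (Fin 2))

include h hy hcon hom in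
/-- The system has the properties of the duality theorem. -/
theorem tan_TY : Tan (Oy yi) (TY e 𝒜 Z y yi) where
  mul := by
    intro κ κ' _ _ _ _ t t' ht ht'
    rw [mem_TY] at ht ht' ⊢
    refine ⟨?_, InvL_tp ht.2 ht'.2⟩
    have h1 := TQ_mul ht.1 ht'.1
    have h2 : kp (κ ⊕ κ') (cm y)ᵀ *ᵥ (fun I : κ ⊕ κ' → Fin g ⊕ Fin g =>
        t (fun k => I (Sum.inl k)) * t' (fun k => I (Sum.inr k))) =
        tp (kp κ (cm y)ᵀ *ᵥ t) (kp κ' (cm y)ᵀ *ᵥ t') := by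
      funext I
      exact kp_prod _ t t' I
    rw [h2]
    exact h1
  comp := by
    intro κ κ' _ _ _ _ ψ t hψ ht
    have hld := hy.ld h
    rw [mem_TY] at hψ ht ⊢
    refine ⟨?_, InvL_cmp hld.sp hψ.2 ht.2⟩
    have h1 := TQ_cmp hcon hψ.1 ht.1
    have h2 : kp κ (cm y)ᵀ *ᵥ cmp (Oy yi) ψ t =
        cmp (Om g ℂ) (kp (κ ⊕ κ') (cm y)ᵀ *ᵥ ψ) (kp κ' (cm y)ᵀ *ᵥ t) := by
      rw [cmp_eq, cmp_eq, kp_matrix, transpose_transpose, ← hy.Oy_dual h.det, kp_mul, kp_mul]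
      rw [mulVec_mulVec, mulVec_mulVec, mulVec_mulVec, mulVec_mulVec]
      simp only [Matrix.mul_assoc]
    have h3 : (fun I : κ → Fin g ⊕ Fin g => ∑ J : κ' → Fin g ⊕ Fin g,
        ∑ K : κ' → Fin g ⊕ Fin g, kp κ' (Oy yi) K J * ψ (Sum.elim I K) * t J) =
        cmp (Oy yi) ψ t := rfl
    rw [h3, h2]
    exact h1
  conj := by
    intro κ _ _ t ht
    have hO := hy.isOm h.det
    have hld := hy.ld h
    rw [mem_TY] at ht ⊢
    refine ⟨?_, InvL_conj hO hld.adj hld.sp ht.2⟩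
    have h1 : kp κ (-Oy yi) *ᵥ (fun I => starRingEnd ℂ (t I)) =
        fun I => starRingEnd ℂ (t I) := by
      refine fix_of_rot ?_ ?_
      · rw [neg_mul_neg, hO.sq]
      · have h2 : (-Oy yi).map (starRingEnd ℂ) = -Oy yi := by
          have h3 : (-Oy yi).map (starRingEnd ℂ) = -((Oy yi).map (starRingEnd ℂ)) := by
            ext i j
            rw [Matrix.map_apply, Matrix.neg_apply, map_neg, Matrix.neg_apply, Matrix.map_apply]
          rw [h3, hO.real]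
        rw [← h2, dm_conj, ht.2 _ ((Ly Z y yi).neg_mem (hy.Oy_mem h.det))]
        funext I
        exact map_zero _
    rw [h1]
    have h2 := TQ_conj ht.1
    rw [kp_conj] at h2
    have h3 : ((cm y)ᵀ).map (starRingEnd ℂ) = (cm y)ᵀ := by
      rw [← cm_transpose, cm_real]
    rwa [h3] at h2
  inv := by
    intro κ _ _ t ht
    have hO := hy.isOm h.det
    have hld := hy.ld h
    rw [mem_TY]
    refine ⟨TQ_sp hom ?_, InvL_inv hO hld.sp ht⟩
    intro N hN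
    rw [mulVec_mulVec, ← hy.kp_dm, ← mulVec_mulVec, kill_of_inv hO ht, mulVec_zero]
    have hN' : Nᵀ * Om g ℂ + Om g ℂ * N = 0 := hN
    rw [← hy.Oy_dual h.det, transpose_mul, transpose_mul, transpose_transpose,
      transpose_transpose]
    calc cm y * (Nᵀ * cm yi) * (cm y * Om g ℂ * (cm y)ᵀ) +
          cm y * Om g ℂ * (cm y)ᵀ * ((cm yi)ᵀ * N * (cm y)ᵀ)
        = cm y * Nᵀ * (cm yi * cm y) * Om g ℂ * (cm y)ᵀ +
          cm y * Om g ℂ * ((cm y)ᵀ * (cm yi)ᵀ) * N * (cm y)ᵀ := by noncomm_ring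
      _ = cm y * (Nᵀ * Om g ℂ + Om g ℂ * N) * (cm y)ᵀ := by
          rw [hy.cl, hy.clT]
          noncomm_ring
      _ = 0 := by rw [hN']; noncomm_ring

/-- Rational tensors of Hodge type span the invariants, in the orthonormal coordinates. -/
def RY (Z : Matrix (Fin g) (Fin g) ℂ) (y : Matrix (Fin g ⊕ Fin g) (Fin g ⊕ Fin g) ℝ) (κ : Type)
    [Fintype κ] [DecidableEq κ] : Set ((κ → Fin g ⊕ Fin g) → ℂ) :=
  {c | ∃ q : (κ → Fin g ⊕ Fin g) → ℚ, IsH (DZ Z) q ∧ kp κ (cm y)ᵀ *ᵥ c = cst ℂ q}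

include hy in
theorem inv_le_span (κ : Type) [Fintype κ] [DecidableEq κ] :
    InvL (Ly Z y yi) κ ≤ Submodule.span ℂ (RY Z y κ) := by
  intro c hc
  have h1 := mem_InvLr.1 (hy.inv_to hc)
  obtain ⟨m, z, l, hzl⟩ := tensor_expand (kp κ (cm y)ᵀ *ᵥ c)
  have h2 : c = ∑ j, z j • (kp κ (cm yi)ᵀ *ᵥ cst ℂ (fun I => l j ((kp κ (cm y)ᵀ *ᵥ c) I))) := by
    have h3 := congrArg (fun w => kp κ (cm yi)ᵀ *ᵥ w) hzl
    beta_reduce at h3
    rw [mulVec_mulVec, ← kp_mul, hy.crT, kp_one, one_mulVec, mulVec_sum] at h3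
    conv_lhs => rw [h3]
    exact Finset.sum_congr rfl fun j _ => mulVec_smul _ _ _
  rw [h2]
  refine Submodule.sum_mem _ fun j _ => Submodule.smul_mem _ _ (Submodule.subset_span ?_)
  refine ⟨_, kill_lam gal_LZ h1 (l j) _ DZ_mem, ?_⟩
  rw [mulVec_mulVec, ← kp_mul, hy.clT, kp_one, one_mulVec]

end

end Pool.Agent.NH32
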