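import Mathlib
import Pool.Agent.NH32.App2

/-!
# The square principle in coordinates
-/

set_option linter.unusedSectionVars false

namespace Pool.Agent.NH32

open Matrix Module Pool.Agent.W437.HC Pool.Agent.W437.HD Pool.Agent.TH504.CB Pool.Agent.Y90
open Pool.Agent.H204R3.CM (IsHodge)
open Pool.Agent.W548.Odd hiding cv

noncomputable section

variable {g : ℕ} {Z : Matrix (Fin g) (Fin g) ℂ} {A : AV} {𝒜 : Sys}
  {e : A.H ≃ₗ[ℚ] (Fin g ⊕ Fin g → ℚ)}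

/-- The Hodge classes on `A` are Hodge classes on `A × A`. -/
theorem allHodge_unit (h : 𝒜.AllHodge (powAV A (Fin 2))) : 𝒜.AllHodge (powAV A Unit) := by
  intro κ _ f hf
  obtain ⟨Ψ, hΨ⟩ := pbI_hom (A := A) (fun _ : Unit => (0 : Fin 2))
  have h2 : IsHodge (powAV A (Fin 2)).per (f.compLinearMap (pbI A fun _ : Unit => (0 : Fin 2))) :=
    isHodge_comp _ Ψ hΨ hf
  have h3 := 𝒜.pull (X := powAV A Unit) (pbI A (fun _ : Fin 2 => ())) (pbI_hom _) _ (h κ _ h2)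
  exact h3

theorem Lr_sp (h : PM Z) {N : Matrix (Fin g ⊕ Fin g) (Fin g ⊕ Fin g) ℂ} (hN : N ∈ Lr Z) :
    Nᵀ * Om g ℂ + Om g ℂ * N = 0 := by
  have h1 := h.sp (mem_Lr.1 hN)
  rw [transpose_transpose] at h1
  have h5 := congrArg (fun W => -(Om g ℂ * W * Om g ℂ)) h1
  beta_reduce at h5
  have e1 : -(Om g ℂ * (N * Om g ℂ + Om g ℂ * Nᵀ) * Om g ℂ) =
      -(Om g ℂ * N * (Om g ℂ * Om g ℂ)) - (Om g ℂ * Om g ℂ) * Nᵀ * Om g ℂ := by noncomm_ring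
  rw [e1, Om_sq, mul_zero, zero_mul, neg_zero] at h5
  rw [← h5]
  noncomm_ring

theorem perm_fin_two (π : Equiv.Perm (Fin 2)) : π = 1 ∨ π = Equiv.swap 0 1 := by
  revert π
  decide

variable (h : PM Z) (hc : Cht (A.per.comp e.symm.toLinearMap.toAddMonoidHom) (JR Z))

include h hc in
theorem hom_of (h1 : 𝒜.AllHodge (powAV A Unit)) :
    (fun I : Fin 2 → Fin g ⊕ Fin g => Om g ℂ (I 0) (I 1)) ∈ TQ e 𝒜 (Fin 2) := by
  refine TQ_of_slots (ι := Unit) (φ := fun _ => ()) (fun π _ I => ?_) ?_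
  · rcases perm_fin_two π with hπ | hπ
    · rw [hπ, Equiv.Perm.sign_one]
      simp
    · rw [hπ, Equiv.Perm.sign_swap (by decide)]
      beta_reduce
      rw [Equiv.swap_apply_left, Equiv.swap_apply_right]
      have h2 : Om g ℂ (I 1) (I 0) = (Om g ℂ)ᵀ (I 0) (I 1) := rfl
      rw [h2, Om_transpose]
      simp
  · exact fm_of_hodge hc gal_LZ DZ_mem h1 _
      (mem_InvLr.1 (Om_inv IsOm_Om fun N hN => Lr_sp h hN))

include h hc in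
theorem hcon_of (h1 : 𝒜.AllHodge (powAV A Unit)) (κ : Type) [Fintype κ] [DecidableEq κ]
    (c : (κ ⊕ Fin 2 → Fin g ⊕ Fin g) → ℂ) (hcT : c ∈ TQ e 𝒜 (κ ⊕ Fin 2)) :
    (fun I : κ → Fin g ⊕ Fin g => ∑ K : Fin 2 → Fin g ⊕ Fin g,
      Om g ℂ (K 0) (K 1) * c (Sum.elim I K)) ∈ TQ e 𝒜 κ := by
  rcases Nat.eq_zero_or_pos g with hg | hg
  · subst hg
    have h2 : (fun I : κ → Fin 0 ⊕ Fin 0 => ∑ K : Fin 2 → Fin 0 ⊕ Fin 0,
      Om 0 ℂ (K 0) (K 1) * c (Sum.elim I K)) = 0 := by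
      funext I
      rw [Pi.zero_apply]
      refine Finset.sum_eq_zero fun K _ => ?_
      rcases K 0 with i | i
      · exact i.elim0
      · exact i.elim0
    rw [h2]
    exact Submodule.zero_mem _
  · have hcard : Fintype.card (Fin (2 * g - 2) ⊕ Fin 2) = Fintype.card (Fin g ⊕ Fin g) := by
      simp only [Fintype.card_sum, Fintype.card_fin]
      omega
    let f : Fin (2 * g - 2) ⊕ Fin 2 ≃ Fin g ⊕ Fin g := Fintype.equivOfCardEq hcard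
    exact TQ_contr IsOm_Om f (fm_of_hodge hc gal_LZ DZ_mem h1 _
      (mem_InvLr.1 (bet_inv IsOm_Om (fun N hN => Lr_sp h hN) f))) hcT

variable {y yi : Matrix (Fin g ⊕ Fin g) (Fin g ⊕ Fin g) ℝ} (hy : YD Z y yi)

include hc hy in
theorem hT_of (h2 : 𝒜.AllHodge (powAV A (Fin 2))) (a b : ℕ)
    (c : (Fin a ⊕ Fin b → Fin g ⊕ Fin g) → ℂ) (hcA : IsAlt2 c)
    (hI : c ∈ InvL (Ly Z y yi) (Fin a ⊕ Fin b)) : c ∈ TY e 𝒜 Z y yi (Fin a ⊕ Fin b) := by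
  rw [mem_TY]
  exact ⟨TQ_alt2 (IsAlt2.kp _ hcA) (fm_of_hodge hc gal_LZ DZ_mem h2 _ (mem_InvLr.1 (hy.inv_to hI))),
    hI⟩

include h hc hy in
/-- The square principle, in coordinates. -/
theorem sq_core : ∃ r : ℕ,
    r + finrank ℂ (ZK (Ly Z y yi)) ≤ finrank ℂ (ZMp (Ly Z y yi) (Oy yi)) ∧
    ((∃ z ∈ ZM (Ly Z y yi), z ≠ 0 ∧ ∀ w ∈ ZM (Ly Z y yi), z * w ∈ ZMp (Ly Z y yi) (Oy yi)) →
      r + finrank ℂ (ZK (Ly Z y yi)) + 1 ≤ finrank ℂ (ZMp (Ly Z y yi) (Oy yi))) ∧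
    ∃ (κ : Fin r → Type) (_ : ∀ i, Fintype (κ i)) (_ : ∀ i, DecidableEq (κ i))
      (f : ∀ i, (powAV A (κ i)).H [⋀^κ i]→ₗ[ℚ] ℚ),
      (∀ i, IsHodge (powAV A (κ i)).per (f i)) ∧
      ∀ 𝒜 : Sys, 𝒜.AllHodge (powAV A (Fin 2)) → (∀ i, 𝒜.A (powAV A (κ i)) (κ i) (f i)) →
        ∀ n : ℕ, 𝒜.AllHodge (powAV A (Fin n)) := by
  have hO := hy.isOm h.det
  obtain ⟨r, hr1, hr2, κ, i1, i2, y', hy', hmain⟩ := core hO (hy.ld h) (hy.exD h) (RY Z y)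
    (fun κ _ _ => inv_le_span hy κ)
  choose q hq1 hq2 using hy'
  refine ⟨r, hr1, hr2, κ, i1, i2, fun i => fmQ e (id : κ i → κ i) (q i),
    fun i => fmQ_hodge hc _ (hq1 i), ?_⟩
  intro 𝒜 hA2 hf n
  have hA1 := allHodge_unit hA2
  have hom := hom_of h hc hA1
  have hTan := tan_TY h hy (fun κ => hcon_of h hc hA1 κ) hom
  have h3 := hmain (TY e 𝒜 Z y yi) hTan (fun a b c h1 h2 => hT_of hc hy hA2 a b c h1 h2)
    (fun κ _ _ t ht => (mem_TY.1 ht).2) (fun i => by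
      rw [mem_TY]
      constructor
      · rw [hq2, mem_TQ, ← fmQ_cast]
        exact RA_of (X := powAV A (κ i)) (hf i)
      · refine hy.inv_from ?_
        rw [hq2]
        exact inv_of_isH (hq1 i))
  refine allHodge_of hc fun κ _ _ c hcH => ?_
  have h4 : kp κ (cm y)ᵀ *ᵥ (kp κ (cm yi)ᵀ *ᵥ cst ℂ c) = cst ℂ c := by
    rw [mulVec_mulVec, ← kp_mul, hy.clT, kp_one, one_mulVec]
  have h5 : kp κ (cm yi)ᵀ *ᵥ cst ℂ c ∈ InvL (Ly Z y yi) κ := by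
    refine hy.inv_from ?_
    rw [h4]
    exact inv_of_isH hcH
  have h6 := (mem_TY.1 (h3 κ h5)).1
  rwa [h4] at h6

end

end Pool.Agent.NH32
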