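import Mathlib
import Pool.Agent.NH32.Coo

/-!
# Endomorphisms and matrices
-/

set_option linter.unusedSectionVars false

namespace Pool.Agent.NH32

open Matrix Module Pool.Agent.W437.HC Pool.Agent.W437.HD Pool.Agent.W548.Odd Pool.Agent.TH504.CB
open Pool.Agent.Y90
open Pool.Agent.H204R3.CM (IsHodge)
open Pool.Agent.W437.HP (cK cK_mul cK_one)

noncomputable section

section cast

variable {B : Type} [Fintype B] [DecidableEq B]

theorem cK_inj {F G : Matrix B B ℚ} (h : cK ℂ F = cK ℂ G) : F = G := by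
  ext i j
  have h1 := congrFun (congrFun h i) j
  change ((F i j : ℚ) : ℂ) = ((G i j : ℚ) : ℂ) at h1
  exact_mod_cast h1

theorem cK_map (σ : ℂ ≃+* ℂ) (F : Matrix B B ℚ) : (cK ℂ F).map σ = cK ℂ F := by
  ext i j
  exact map_ratCast σ _

/-- Rationality of the dimension, lower bound. -/
theorem finrank_le_of_cK {S : Submodule ℚ (Matrix B B ℚ)} {V : Submodule ℂ (Matrix B B ℂ)}
    (h : ∀ F ∈ S, cK ℂ F ∈ V) : finrank ℚ S ≤ finrank ℂ V := by
  let b := finBasis ℚ S
  have h1 : LinearIndependent ℚ fun i => ((b i : S) : Matrix B B ℚ) :=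
    b.linearIndependent.map' S.subtype (Submodule.ker_subtype S)
  have h2 : LinearIndependent ℚ fun i => (fun x : B × B => (b i : Matrix B B ℚ) x.1 x.2) := by
    let f : Matrix B B ℚ →ₗ[ℚ] (B × B → ℚ) :=
      { toFun := fun F x => F x.1 x.2
        map_add' := fun _ _ => rfl
        map_smul' := fun _ _ => rfl }
    refine h1.map' f ?_
    rw [LinearMap.ker_eq_bot]
    intro F G hFG
    ext i j
    exact congrFun hFG (i, j)
  have h3 := li_cast h2
  have h4 : LinearIndependent ℂ fun i => (⟨cK ℂ (b i : Matrix B B ℚ), h _ (b i).2⟩ : V) := by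
    let f : V →ₗ[ℂ] (B × B → ℂ) :=
      { toFun := fun F x => (F : Matrix B B ℂ) x.1 x.2
        map_add' := fun _ _ => rfl
        map_smul' := fun _ _ => rfl }
    exact LinearIndependent.of_comp f h3
  have h5 := h4.fintype_card_le_finrank
  rwa [Fintype.card_fin] at h5

/-- Rationality of the dimension, upper bound. -/
theorem finrank_cK_le {S : Submodule ℚ (Matrix B B ℚ)} {V : Submodule ℂ (Matrix B B ℂ)}
    (hV : ∀ (σ : ℂ ≃+* ℂ), ∀ X ∈ V, X.map σ ∈ V)
    (h : ∀ F, cK ℂ F ∈ V → F ∈ S) : finrank ℂ V ≤ finrank ℚ S := by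
  let b := finBasis ℚ S
  have h1 : ∀ X ∈ V, X ∈ Submodule.span ℂ (Set.range fun i => cK ℂ ((b i : S) : Matrix B B ℚ)) := by
    refine rational_induction V hV (p := fun X => X ∈ Submodule.span ℂ
      (Set.range fun i => cK ℂ ((b i : S) : Matrix B B ℚ))) ?_ (Submodule.zero_mem _)
      (fun X Y hX hY => Submodule.add_mem _ hX hY) (fun c X hX => Submodule.smul_mem _ c hX)
    intro F hF'
    have hF : F ∈ S := h F hF'
    have h2 := b.sum_repr ⟨F, hF⟩
    have h3 : F = ∑ i, b.repr ⟨F, hF⟩ i • ((b i : S) : Matrix B B ℚ) := by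
      have h4 := congrArg S.subtype h2
      rw [map_sum] at h4
      refine h4.symm.trans (Finset.sum_congr rfl fun i _ => ?_)
      rw [map_smul]
      rfl
    have h5 : F.map (fun x : ℚ => (x : ℂ)) = ∑ i, ((b.repr ⟨F, hF⟩ i : ℚ) : ℂ) •
        cK ℂ ((b i : S) : Matrix B B ℚ) := by
      have h6 := congrArg (cK ℂ) h3
      rw [Pool.Agent.W437.HP.cK_sum] at h6
      refine h6.trans (Finset.sum_congr rfl fun i _ => ?_)
      ext k l
      simp [cK]
    rw [h5]
    exact Submodule.sum_mem _ fun i _ => Submodule.smul_mem _ _ (Submodule.subset_span ⟨i, rfl⟩)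
  have h2 : finrank ℂ V ≤ finrank ℂ
      (Submodule.span ℂ (Set.range fun i => cK ℂ ((b i : S) : Matrix B B ℚ))) :=
    Submodule.finrank_mono h1
  refine h2.trans ?_
  have h3 := finrank_range_le_card (R := ℂ) (fun i => cK ℂ ((b i : S) : Matrix B B ℚ))
  rw [Fintype.card_fin] at h3
  exact h3

end cast

variable {g : ℕ} {Z : Matrix (Fin g) (Fin g) ℂ} {A : AV}

/-- The matrix of an endomorphism. -/
def mE (e : A.H ≃ₗ[ℚ] (Fin g ⊕ Fin g → ℚ)) :
    (A.H →ₗ[ℚ] A.H) ≃ₗ[ℚ] Matrix (Fin g ⊕ Fin g) (Fin g ⊕ Fin g) ℚ :=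
  (LinearEquiv.conj e).trans LinearMap.toMatrix'

variable {e : A.H ≃ₗ[ℚ] (Fin g ⊕ Fin g → ℚ)}

theorem mE_mulVec (f : A.H →ₗ[ℚ] A.H) (x : Fin g ⊕ Fin g → ℚ) :
    mE e f *ᵥ x = e (f (e.symm x)) := by
  change LinearMap.toMatrix' ((LinearEquiv.conj e) f) *ᵥ x = _
  rw [← Matrix.toLin'_apply, Matrix.toLin'_toMatrix']
  rfl

theorem mE_apply (f : A.H →ₗ[ℚ] A.H) (v : A.H) : e (f v) = mE e f *ᵥ e v := by
  rw [mE_mulVec, e.symm_apply_apply]

theorem mE_comp (f f' : A.H →ₗ[ℚ] A.H) : mE e (f.comp f') = mE e f * mE e f' := by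
  refine Matrix.toLin'.injective (LinearMap.ext fun x => ?_)
  rw [toLin'_apply, toLin'_apply, ← mulVec_mulVec, mE_mulVec, mE_mulVec, mE_mulVec,
    e.symm_apply_apply]
  rfl

/-- Homomorphisms are compatible with the complex structures. -/
theorem hom_commute {J : Matrix (Fin g ⊕ Fin g) (Fin g ⊕ Fin g) ℝ}
    (hc : Cht (A.per.comp e.symm.toLinearMap.toAddMonoidHom) J) {f : A.H →ₗ[ℚ] A.H}
    (hf : IsHom A A f) : cK ℝ (mE e f) * J = J * cK ℝ (mE e f) := by
  obtain ⟨P, I, hP1, hP2, hI1, hI2⟩ := hc.ex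
  obtain ⟨Ψ, hΨ⟩ := hf
  have h1 : ∀ x : Fin g ⊕ Fin g → ℝ, Ψ (P x) = P (cK ℝ (mE e f) *ᵥ x) := by
    intro x
    have h2 : (Ψ.restrictScalars ℝ) ∘ₗ P = P ∘ₗ Matrix.toLin' (cK ℝ (mE e f)) := by
      refine LinearMap.pi_ext' fun i => ?_
      refine LinearMap.ext_ring ?_
      have h3 : (LinearMap.single ℝ (fun _ : Fin g ⊕ Fin g => ℝ) i) 1 =
          fun j => (((Pi.single i 1 : Fin g ⊕ Fin g → ℚ) j : ℚ) : ℝ) := by
        rw [single_castR]
        rfl
      rw [LinearMap.comp_apply, LinearMap.comp_apply, LinearMap.comp_apply, LinearMap.comp_apply,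
        h3, hP1, toLin'_apply]
      have h4 : (cK ℝ (mE e f) *ᵥ fun j => (((Pi.single i 1 : Fin g ⊕ Fin g → ℚ) j : ℚ) : ℝ)) =
          fun j => (((mE e f *ᵥ (Pi.single i 1 : Fin g ⊕ Fin g → ℚ)) j : ℚ) : ℝ) := by
        funext j
        simp [mulVec, dotProduct, cK]
      rw [h4, hP1]
      change Ψ (A.per (e.symm _)) = A.per (e.symm _)
      rw [hΨ, mE_mulVec, e.symm_apply_apply]
    exact congrArg (fun l => l x) h2
  have h2 : ∀ x, (cK ℝ (mE e f) * J) *ᵥ x = (J * cK ℝ (mE e f)) *ᵥ x := by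
    intro x
    rw [← mulVec_mulVec, ← mulVec_mulVec, ← hI1 (cK ℝ (mE e f) *ᵥ J *ᵥ x), ← h1, hP2,
      map_smul, h1, ← hP2, hI1]
  refine Matrix.toLin'.injective (LinearMap.ext fun x => ?_)
  rw [toLin'_apply, toLin'_apply, h2]

theorem cm_cK (F : Matrix (Fin g ⊕ Fin g) (Fin g ⊕ Fin g) ℚ) : cm (cK ℝ F) = cK ℂ F := by
  ext i j
  exact Complex.ofReal_ratCast _

/-- Rational matrices in the commutant of the Lie algebra. -/
theorem cK_mem_CM (F : Matrix (Fin g ⊕ Fin g) (Fin g ⊕ Fin g) ℚ) :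
    cK ℂ F ∈ CM (LZ Z) ↔ cK ℂ F * DZ Z = DZ Z * cK ℂ F := by
  constructor
  · intro h
    exact (h _ DZ_mem).symm
  · intro h
    let M : Submodule ℂ (Matrix (Fin g ⊕ Fin g) (Fin g ⊕ Fin g) ℂ) :=
      { carrier := {X | X * cK ℂ F = cK ℂ F * X}
        add_mem' := by
          intro a b ha hb
          change (a + b) * cK ℂ F = cK ℂ F * (a + b)
          rw [add_mul, mul_add]
          exact congrArg₂ _ ha hb
        zero_mem' := by
          change 0 * cK ℂ F = cK ℂ F * 0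
          rw [zero_mul, mul_zero]
        smul_mem' := by
          intro c a ha
          change (c • a) * cK ℂ F = cK ℂ F * (c • a)
          rw [Matrix.smul_mul, Matrix.mul_smul]
          exact congrArg _ ha }
    have h1 : LZ Z ≤ M := by
      refine LZ_le (fun σ => ?_) (fun X hX Y hY => ?_)
      · change DS Z σ * cK ℂ F = cK ℂ F * DS Z σ
        have h2 := congrArg (fun W => W.map σ) h
        beta_reduce at h2
        have e1 : (cK ℂ F * DZ Z).map σ = (cK ℂ F).map σ * (DZ Z).map σ :=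
          Matrix.map_mul (f := (σ : ℂ →+* ℂ))
        have e2 : (DZ Z * cK ℂ F).map σ = (DZ Z).map σ * (cK ℂ F).map σ :=
          Matrix.map_mul (f := (σ : ℂ →+* ℂ))
        rw [e1, e2, cK_map] at h2
        exact h2.symm
      · change (X * Y - Y * X) * cK ℂ F = cK ℂ F * (X * Y - Y * X)
        have hX' : X * cK ℂ F = cK ℂ F * X := hX
        have hY' : Y * cK ℂ F = cK ℂ F * Y := hY
        calc (X * Y - Y * X) * cK ℂ F = X * (Y * cK ℂ F) - Y * (X * cK ℂ F) := by noncomm_ring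
          _ = (X * cK ℂ F) * Y - (Y * cK ℂ F) * X := by
              rw [hX', hY', ← hX', ← hY', mul_assoc, mul_assoc, ← hX', ← hY']
          _ = _ := by rw [hX', hY']; noncomm_ring
    exact fun X hX => h1 hX

/-- Endomorphisms are the rational elements of the commutant. -/
theorem hom_iff (hc : Cht (A.per.comp e.symm.toLinearMap.toAddMonoidHom) (JR Z))
    (f : A.H →ₗ[ℚ] A.H) : IsHom A A f ↔ cK ℂ (mE e f) ∈ CM (LZ Z) := by
  rw [cK_mem_CM]
  constructor
  · intro hf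
    have h1 := congrArg cm (hom_commute hc hf)
    rw [cm_mul, cm_mul, cm_cK] at h1
    change cK ℂ (mE e f) * ((-Complex.I) • cm (JR Z)) = ((-Complex.I) • cm (JR Z)) * cK ℂ (mE e f)
    rw [Matrix.mul_smul, Matrix.smul_mul, h1]
  · intro h
    obtain ⟨Ψ, hΨ⟩ := Cht.hom hc hc (R := mE e f) h
    refine ⟨Ψ, fun v => ?_⟩
    have h1 := hΨ (e v)
    have h2 : (A.per.comp e.symm.toLinearMap.toAddMonoidHom) (e v) = A.per v := by
      change A.per (e.symm (e v)) = _
      rw [e.symm_apply_apply]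
    have h3 : (A.per.comp e.symm.toLinearMap.toAddMonoidHom) (mE e f *ᵥ e v) = A.per (f v) := by
      change A.per (e.symm (mE e f *ᵥ e v)) = _
      rw [← mE_apply, e.symm_apply_apply]
    rwa [h2, h3] at h1

theorem gal_CM (σ : ℂ ≃+* ℂ) {M : Matrix (Fin g ⊕ Fin g) (Fin g ⊕ Fin g) ℂ}
    (hM : M ∈ CM (LZ Z)) : M.map σ ∈ CM (LZ Z) := by
  intro X hX
  have h1 : X = (X.map σ.symm).map σ := by
    ext i j
    exact (σ.apply_symm_apply _).symm
  have h2 := congrArg (fun W => W.map σ) (hM _ (gal_LZ σ.symm _ hX))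
  beta_reduce at h2
  have e1 : (X.map σ.symm * M).map σ = (X.map σ.symm).map σ * M.map σ :=
    Matrix.map_mul (f := (σ : ℂ →+* ℂ))
  have e2 : (M * X.map σ.symm).map σ = M.map σ * (X.map σ.symm).map σ :=
    Matrix.map_mul (f := (σ : ℂ →+* ℂ))
  rw [e1, e2, ← h1] at h2
  exact h2

theorem gal_ZM (σ : ℂ ≃+* ℂ) {M : Matrix (Fin g ⊕ Fin g) (Fin g ⊕ Fin g) ℂ}
    (hM : M ∈ ZM (LZ Z)) : M.map σ ∈ ZM (LZ Z) := by
  refine ⟨gal_CM σ hM.1, fun N hN => ?_⟩
  have h1 : N = (N.map σ.symm).map σ := by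
    ext i j
    exact (σ.apply_symm_apply _).symm
  have h2 := congrArg (fun W => W.map σ) (hM.2 _ (gal_CM σ.symm hN))
  beta_reduce at h2
  have e1 : (N.map σ.symm * M).map σ = (N.map σ.symm).map σ * M.map σ :=
    Matrix.map_mul (f := (σ : ℂ →+* ℂ))
  have e2 : (M * N.map σ.symm).map σ = M.map σ * (N.map σ.symm).map σ :=
    Matrix.map_mul (f := (σ : ℂ →+* ℂ))
  rw [e1, e2, ← h1] at h2
  exact h2

/-- Central endomorphisms are the rational elements of the centre of the commutant. -/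
theorem central_iff (hc : Cht (A.per.comp e.symm.toLinearMap.toAddMonoidHom) (JR Z))
    (z : A.H →ₗ[ℚ] A.H) : IsCentral A z ↔ cK ℂ (mE e z) ∈ ZM (LZ Z) := by
  constructor
  · rintro ⟨h1, h2⟩
    refine ⟨(hom_iff hc z).1 h1, ?_⟩
    refine rational_induction (CM (LZ Z)) (fun σ X hX => gal_CM σ hX)
      (p := fun N => N * cK ℂ (mE e z) = cK ℂ (mE e z) * N) ?_ ?_ ?_ ?_
    · intro F hF
      have h3 : IsHom A A ((mE e).symm F) := by
        rw [hom_iff hc, LinearEquiv.apply_symm_apply]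
        exact hF
      have h4 := congrArg (mE e) (h2 _ h3)
      rw [mE_comp, mE_comp, LinearEquiv.apply_symm_apply] at h4
      have h5 := congrArg (cK ℂ) h4
      rw [cK_mul, cK_mul] at h5
      exact h5.symm
    · rw [zero_mul, mul_zero]
    · intro X Y hX hY
      rw [add_mul, mul_add, hX, hY]
    · intro c X hX
      rw [Matrix.smul_mul, Matrix.mul_smul, hX]
  · rintro ⟨h1, h2⟩
    refine ⟨(hom_iff hc z).2 h1, fun f hf => ?_⟩
    refine (mE e).injective ?_
    rw [mE_comp, mE_comp]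
    refine cK_inj ?_
    rw [cK_mul, cK_mul]
    exact (h2 _ ((hom_iff hc f).1 hf)).symm

end

end Pool.Agent.NH32
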