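import Mathlib
import Pool.Agent.NH32.Dim

/-!
# The dimensions of the spaces of central endomorphisms
-/

set_option linter.unusedSectionVars false

namespace Pool.Agent.NH32

open Matrix Module Pool.Agent.W437.HC Pool.Agent.W437.HD Pool.Agent.W548.Odd Pool.Agent.TH504.CB
open Pool.Agent.Y90
open Pool.Agent.H204R3.CM (IsHodge)
open Pool.Agent.W437.HP (cK cK_mul cK_one evalF_ext)

noncomputable section

theorem isHodge_reindex {W T : Type*} [AddCommGroup W] [Module ℚ W] [AddCommGroup T] [Module ℂ T]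
    {per : W →+ T} {κ κ' : Type*} (e : κ ≃ κ') {f : W [⋀^κ]→ₗ[ℚ] ℚ}
    (hf : IsHodge per f) : IsHodge per (f.domDomCongr e) := by
  obtain ⟨ψ, h1, h2⟩ := hf
  refine ⟨ψ.domDomCongr e, fun v => ?_, fun z hz u => ?_⟩
  · rw [MultilinearMap.domDomCongr_apply, AlternatingMap.domDomCongr_apply]
    exact h1 _
  · rw [MultilinearMap.domDomCongr_apply, MultilinearMap.domDomCongr_apply]
    exact h2 z hz _

variable {g : ℕ} {Z : Matrix (Fin g) (Fin g) ℂ} {A : AV} {e : A.H ≃ₗ[ℚ] (Fin g ⊕ Fin g → ℚ)}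

/-- The diagonal action on a power. -/
def dgI (ι : Type) [Fintype ι] (z : A.H →ₗ[ℚ] A.H) :
    (powAV A ι).H →ₗ[ℚ] (powAV A ι).H where
  toFun v := fun j => z (v j)
  map_add' v w := by
    funext j
    exact map_add z _ _
  map_smul' c v := by
    funext j
    exact map_smul z _ _

theorem dgI_sgI {ι : Type} [Fintype ι] [DecidableEq ι] (z : A.H →ₗ[ℚ] A.H) (i : ι) (w : A.H) :
    dgI ι z (sgI A i w) = sgI A i (z w) := by
  refine evI_ext fun j => ?_
  change z (evI A j (sgI A i w)) = evI A j (sgI A i (z w))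
  rw [evI_sgI, evI_sgI]
  split_ifs
  · rfl
  · exact map_zero z

theorem sgI_isPow {κ : Type} [Fintype κ] [DecidableEq κ] {m : ℕ} (ε : κ ≃ Fin m) :
    IsPow A (powAV A κ) m fun k => sgI A (ε.symm k) := by
  refine ⟨fun k => sgI_hom _, ?_⟩
  have h1 : (fun w : Fin m → A.H => ∑ k, sgI A (ε.symm k) (w k)) =
      fun w => fun i => w (ε i) := by
    funext w
    have h2 := Finset.univ_sum_single (fun i => w (ε i))
    rw [← h2]
    refine Fintype.sum_equiv ε.symm _ _ fun k => ?_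
    rw [ε.apply_symm_apply]
    rfl
  rw [h1]
  constructor
  · intro v w hvw
    funext k
    have h2 := congrFun hvw (ε.symm k)
    simpa using h2
  · intro v
    refine ⟨fun k => (v : κ → A.H) (ε.symm k), ?_⟩
    funext i
    change (v : κ → A.H) (ε.symm (ε i)) = (v : κ → A.H) i
    rw [ε.symm_apply_apply]

/-- The value of the form of a tensor on vectors in the different factors. -/
theorem fmQ_sgI {κ : Type} [Fintype κ] [DecidableEq κ] (q : (κ → Fin g ⊕ Fin g) → ℚ)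
    (w : κ → A.H) : fmQ e (id : κ → κ) q (fun l => sgI A l (w l)) = evalF q fun l => e (w l) := by
  unfold fmQ
  rw [MultilinearMap.alternatization_apply, Finset.sum_eq_single 1]
  · rw [Equiv.Perm.sign_one, one_smul, MultilinearMap.domDomCongr_apply, mlQ_apply]
    congr 1
    funext k
    rw [evI_sgI]
    simp
  · intro σ _ hσ
    obtain ⟨k, hk⟩ : ∃ k, σ k ≠ k := by
      by_contra hcon
      push Not at hcon
      exact hσ (Equiv.ext hcon)
    rw [MultilinearMap.domDomCongr_apply]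
    have h1 : mlQ e (id : κ → κ) q (fun i => sgI A (σ i) (w (σ i))) = 0 := by
      unfold mlQ
      rw [MultilinearMap.compLinearMap_apply]
      refine (evalM q).map_coord_zero k ?_
      rw [LinearMap.comp_apply, evI_sgI, if_neg (fun h => hk h.symm), map_zero]
    rw [h1, smul_zero]
  · intro h
    exact absurd (Finset.mem_univ _) h

theorem act_of_kills {J : Matrix (Fin g ⊕ Fin g) (Fin g ⊕ Fin g) ℝ}
    (hc : Cht (A.per.comp e.symm.toLinearMap.toAddMonoidHom) J) {z : A.H →ₗ[ℚ] A.H}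
    (hz : Kills A z) {κ : Type} [Fintype κ] [DecidableEq κ] {q : (κ → Fin g ⊕ Fin g) → ℚ}
    (hq : IsH (DJ J) q) : act (mE e z) q = 0 := by
  let ε := Fintype.equivFin κ
  have h1 := hz (powAV A κ) _ _ (sgI_isPow ε) (dgI κ z) (fun k w => dgI_sgI z _ w) _
    ((fmQ e (id : κ → κ) q).domDomCongr ε) (isHodge_reindex ε (fmQ_hodge hc _ hq))
  refine evalF_ext fun x => ?_
  rw [evalF_act]
  have h2 := h1 (fun k => sgI A (ε.symm k) (e.symm (x (ε.symm k))))
  have h3 : ∀ k : κ, evalF q (Function.update x k (mE e z *ᵥ x k)) =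
      (fmQ e (id : κ → κ) q).domDomCongr ε
        (Function.update (fun k => sgI A (ε.symm k) (e.symm (x (ε.symm k)))) (ε k)
          (dgI κ z (sgI A (ε.symm (ε k)) (e.symm (x (ε.symm (ε k))))))) := by
    intro k
    rw [AlternatingMap.domDomCongr_apply]
    have h4 : (Function.update (fun k => sgI A (ε.symm k) (e.symm (x (ε.symm k)))) (ε k)
          (dgI κ z (sgI A (ε.symm (ε k)) (e.symm (x (ε.symm (ε k))))))) ∘ ε =
        fun l => sgI A l (e.symm (Function.update x k (mE e z *ᵥ x k) l)) := by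
      funext l
      rw [Function.comp_apply]
      by_cases hl : l = k
      · subst hl
        rw [Function.update_self, Function.update_self, ε.symm_apply_apply, dgI_sgI, mE_mulVec,
          e.symm_apply_apply]
      · rw [Function.update_of_ne (fun h => hl (ε.injective h)), Function.update_of_ne hl,
          ε.symm_apply_apply]
    have h5 := fmQ_sgI (e := e) q fun l => e.symm (Function.update x k (mE e z *ᵥ x k) l)
    rw [← h4] at h5
    refine Eq.trans ?_ h5.symm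
    congr 1
    funext l
    rw [e.apply_symm_apply]
  rw [Finset.sum_congr rfl fun k _ => h3 k]
  have h6 : evalF (0 : (κ → Fin g ⊕ Fin g) → ℚ) x = 0 := by
    unfold evalF
    refine Finset.sum_eq_zero fun I _ => ?_
    rw [Pi.zero_apply, zero_mul]
  rw [h6, ← h2]
  exact Equiv.sum_comp ε (fun k => (fmQ e (id : κ → κ) q).domDomCongr ε
        (Function.update (fun k => sgI A (ε.symm k) (e.symm (x (ε.symm k)))) k
          (dgI κ z (sgI A (ε.symm k) (e.symm (x (ε.symm k)))))))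

variable {y yi : Matrix (Fin g ⊕ Fin g) (Fin g ⊕ Fin g) ℝ}

/-- The anti-automorphism given by the orthonormal coordinates. -/
def tauE (hy : YD Z y yi) : Matrix (Fin g ⊕ Fin g) (Fin g ⊕ Fin g) ℂ ≃ₗ[ℂ]
    Matrix (Fin g ⊕ Fin g) (Fin g ⊕ Fin g) ℂ where
  toFun X := (cm y * X * cm yi)ᵀ
  map_add' a b := by rw [mul_add, add_mul, transpose_add]
  map_smul' c a := by
    rw [Matrix.mul_smul, Matrix.smul_mul, transpose_smul]
    rfl
  invFun N := cm yi * Nᵀ * cm y
  left_inv X := by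
    have h1 : cm yi * ((cm y * X * cm yi)ᵀ)ᵀ * cm y = (cm yi * cm y) * X * (cm yi * cm y) := by
      rw [transpose_transpose]
      noncomm_ring
    rw [hy.cl, one_mul, mul_one] at h1
    exact h1
  right_inv N := by
    have h1 : cm y * (cm yi * Nᵀ * cm y) * cm yi = (cm y * cm yi) * Nᵀ * (cm y * cm yi) := by
      noncomm_ring
    rw [hy.cr, one_mul, mul_one] at h1
    change (cm y * (cm yi * Nᵀ * cm y) * cm yi)ᵀ = N
    rw [h1, transpose_transpose]

theorem tauE_apply (hy : YD Z y yi) (X : Matrix (Fin g ⊕ Fin g) (Fin g ⊕ Fin g) ℂ) :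
    tauE hy X = (cm y * X * cm yi)ᵀ := rfl

theorem tauE_symm (hy : YD Z y yi) (N : Matrix (Fin g ⊕ Fin g) (Fin g ⊕ Fin g) ℂ) :
    (tauE hy).symm N = cm yi * Nᵀ * cm y := rfl

theorem tauE_mul (hy : YD Z y yi) (X Y : Matrix (Fin g ⊕ Fin g) (Fin g ⊕ Fin g) ℂ) :
    tauE hy (X * Y) = tauE hy Y * tauE hy X := by
  rw [tauE_apply, tauE_apply, tauE_apply, ← transpose_mul]
  congr 1
  calc cm y * (X * Y) * cm yi = cm y * X * 1 * Y * cm yi := by noncomm_ring
    _ = cm y * X * (cm yi * cm y) * Y * cm yi := by rw [hy.cl]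
    _ = _ := by noncomm_ring

theorem tauE_mem (hy : YD Z y yi) (X : Matrix (Fin g ⊕ Fin g) (Fin g ⊕ Fin g) ℂ) :
    tauE hy X ∈ Ly Z y yi ↔ X ∈ LZ Z := by
  rw [mem_Ly, ← tauE_symm hy, LinearEquiv.symm_apply_apply]

theorem tauE_CM (hy : YD Z y yi) (M : Matrix (Fin g ⊕ Fin g) (Fin g ⊕ Fin g) ℂ) :
    tauE hy M ∈ CM (Ly Z y yi) ↔ M ∈ CM (LZ Z) := by
  constructor
  · intro h X hX
    have h1 := h _ ((tauE_mem hy X).2 hX)
    rw [← tauE_mul, ← tauE_mul] at h1
    exact ((tauE hy).injective h1).symm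
  · intro h N hN
    obtain ⟨X, rfl⟩ := (tauE hy).surjective N
    rw [← tauE_mul, ← tauE_mul, h X ((tauE_mem hy X).1 hN)]

theorem tauE_ZM (hy : YD Z y yi) (M : Matrix (Fin g ⊕ Fin g) (Fin g ⊕ Fin g) ℂ) :
    tauE hy M ∈ ZM (Ly Z y yi) ↔ M ∈ ZM (LZ Z) := by
  constructor
  · rintro ⟨h1, h2⟩
    refine ⟨(tauE_CM hy M).1 h1, fun N hN => ?_⟩
    have h3 := h2 _ ((tauE_CM hy N).2 hN)
    rw [← tauE_mul, ← tauE_mul] at h3
    exact ((tauE hy).injective h3).symm
  · rintro ⟨h1, h2⟩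
    refine ⟨(tauE_CM hy M).2 h1, fun N hN => ?_⟩
    obtain ⟨X, rfl⟩ := (tauE hy).surjective N
    rw [← tauE_mul, ← tauE_mul, h2 X ((tauE_CM hy X).1 hN)]

theorem tauE_sym (hy : YD Z y yi) (hu : IsUnit (imM Z).det)
    (M : Matrix (Fin g ⊕ Fin g) (Fin g ⊕ Fin g) ℂ) :
    (tauE hy M)ᵀ * Oy yi = Oy yi * tauE hy M ↔ M * Om g ℂ = Om g ℂ * Mᵀ := by
  have h1 : (tauE hy M)ᵀ * Oy yi = cm y * (M * Om g ℂ) * (cm y)ᵀ := by
    rw [tauE_apply, transpose_transpose, ← hy.Oy_dual hu]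
    calc cm y * M * cm yi * (cm y * Om g ℂ * (cm y)ᵀ)
        = cm y * M * (cm yi * cm y) * Om g ℂ * (cm y)ᵀ := by noncomm_ring
      _ = _ := by rw [hy.cl]; noncomm_ring
  have h2 : Oy yi * tauE hy M = cm y * (Om g ℂ * Mᵀ) * (cm y)ᵀ := by
    rw [tauE_apply, ← hy.Oy_dual hu, transpose_mul, transpose_mul]
    calc cm y * Om g ℂ * (cm y)ᵀ * ((cm yi)ᵀ * (Mᵀ * (cm y)ᵀ))
        = cm y * Om g ℂ * ((cm y)ᵀ * (cm yi)ᵀ) * Mᵀ * (cm y)ᵀ := by noncomm_ring
      _ = _ := by rw [hy.clT]; noncomm_ring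
  rw [h1, h2]
  constructor
  · intro h
    have h3 := congrArg (fun W => cm yi * W * (cm yi)ᵀ) h
    beta_reduce at h3
    have e1 : ∀ W : Matrix (Fin g ⊕ Fin g) (Fin g ⊕ Fin g) ℂ,
        cm yi * (cm y * W * (cm y)ᵀ) * (cm yi)ᵀ = W := by
      intro W
      calc cm yi * (cm y * W * (cm y)ᵀ) * (cm yi)ᵀ
          = (cm yi * cm y) * W * ((cm y)ᵀ * (cm yi)ᵀ) := by noncomm_ring
        _ = W := by rw [hy.cl, hy.clT, one_mul, mul_one]
    rwa [e1, e1] at h3
  · intro h
    rw [h]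

end

end Pool.Agent.NH32
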