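import Mathlib
import Pool.Agent.NH32.Dim2

/-!
# The comparison of the dimensions
-/

set_option linter.unusedSectionVars false

namespace Pool.Agent.NH32

open Matrix Module Pool.Agent.W437.HC Pool.Agent.W437.HD Pool.Agent.W548.Odd Pool.Agent.TH504.CB
open Pool.Agent.Y90
open Pool.Agent.H204R3.CM (IsHodge)
open Pool.Agent.W437.HP (cK cK_mul cK_one evalF_ext)

noncomputable section

variable {g : ℕ} {Z : Matrix (Fin g) (Fin g) ℂ} {A : AV} {e : A.H ≃ₗ[ℚ] (Fin g ⊕ Fin g → ℚ)}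

theorem Om_comm_iff {K : Type*} [Field K] (F : Matrix (Fin g ⊕ Fin g) (Fin g ⊕ Fin g) K) :
    Om g K * F = Fᵀ * Om g K ↔ F * Om g K = Om g K * Fᵀ := by
  have hsq : Om g K * Om g K = -1 := Om_sq K
  constructor
  · intro h
    have h1 := congrArg (fun W => Om g K * W * Om g K) h
    beta_reduce at h1
    have e1 : Om g K * (Om g K * F) * Om g K = (Om g K * Om g K) * F * Om g K := by noncomm_ring
    have e2 : Om g K * (Fᵀ * Om g K) * Om g K = Om g K * Fᵀ * (Om g K * Om g K) := by noncomm_ring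
    rw [e1, e2, hsq, neg_one_mul, mul_neg_one, neg_mul, neg_inj] at h1
    exact h1
  · intro h
    have h1 := congrArg (fun W => Om g K * W * Om g K) h
    beta_reduce at h1
    have e1 : Om g K * (F * Om g K) * Om g K = Om g K * F * (Om g K * Om g K) := by noncomm_ring
    have e2 : Om g K * (Om g K * Fᵀ) * Om g K = (Om g K * Om g K) * Fᵀ * Om g K := by noncomm_ring
    rw [e1, e2, hsq, neg_one_mul, mul_neg_one, neg_mul, neg_inj] at h1
    exact h1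

theorem sym_iff {E : A.H → A.H → ℚ} (hE : ∀ v w, E v w = e w ⬝ᵥ (Om g ℚ *ᵥ e v))
    (f : A.H →ₗ[ℚ] A.H) : IsSym E f ↔
      mE e f * Om g ℚ = Om g ℚ * (mE e f)ᵀ := by
  rw [← Om_comm_iff]
  unfold IsSym
  have h1 : ∀ v w, E (f v) w = e w ⬝ᵥ ((Om g ℚ * mE e f) *ᵥ e v) := by
    intro v w
    rw [hE, mE_apply, mulVec_mulVec]
  have h2 : ∀ v w, E v (f w) = e w ⬝ᵥ (((mE e f)ᵀ * Om g ℚ) *ᵥ e v) := by
    intro v w
    rw [hE, mE_apply, ← mulVec_mulVec, dotProduct_mulVec (e w), vecMul_transpose]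
  constructor
  · intro h
    ext i j
    have h3 := h (e.symm (Pi.single j 1)) (e.symm (Pi.single i 1))
    rw [h1, h2, e.apply_symm_apply, e.apply_symm_apply, mulVec_single_one, mulVec_single_one,
      single_one_dotProduct, single_one_dotProduct] at h3
    exact h3
  · intro h v w
    rw [h1, h2, h]

theorem cK_Om : cK ℂ (Om g ℚ) = Om g ℂ := Om_map ℂ

theorem sym_cast (F : Matrix (Fin g ⊕ Fin g) (Fin g ⊕ Fin g) ℚ) :
    cK ℂ F * Om g ℂ = Om g ℂ * (cK ℂ F)ᵀ ↔ F * Om g ℚ = Om g ℚ * Fᵀ := by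
  rw [← cK_Om, ← cK_mul]
  have h1 : (cK ℂ F)ᵀ = cK ℂ Fᵀ := rfl
  rw [h1, ← cK_mul]
  exact ⟨fun h => cK_inj h, fun h => by rw [h]⟩

theorem Om_mapσ (σ : ℂ ≃+* ℂ) : (Om g ℂ).map σ = Om g ℂ := by
  rw [← cK_Om, cK_map]

variable {y yi : Matrix (Fin g ⊕ Fin g) (Fin g ⊕ Fin g) ℝ} (h : PM Z)
  (hc : Cht (A.per.comp e.symm.toLinearMap.toAddMonoidHom) (JR Z)) (hy : YD Z y yi)

include h in
theorem mem_ZMp_tau {X : Matrix (Fin g ⊕ Fin g) (Fin g ⊕ Fin g) ℂ} :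
    tauE hy X ∈ ZMp (Ly Z y yi) (Oy yi) ↔ X ∈ ZM (LZ Z) ∧ X * Om g ℂ = Om g ℂ * Xᵀ := by
  have h1 : tauE hy X ∈ ZMp (Ly Z y yi) (Oy yi) ↔ tauE hy X ∈ ZM (Ly Z y yi) ∧
      (tauE hy X)ᵀ * Oy yi = Oy yi * tauE hy X := Iff.rfl
  rw [h1, tauE_ZM, tauE_sym hy h.det]

include h hc hy in
theorem dim_sym {E : A.H → A.H → ℚ} (hE : ∀ v w, E v w = e w ⬝ᵥ (Om g ℚ *ᵥ e v)) :
    finrank ℂ (ZMp (Ly Z y yi) (Oy yi)) ≤ symDim A E := by
  unfold symDim
  let V := (ZMp (Ly Z y yi) (Oy yi)).map ((tauE hy).symm :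
    Matrix (Fin g ⊕ Fin g) (Fin g ⊕ Fin g) ℂ →ₗ[ℂ] Matrix (Fin g ⊕ Fin g) (Fin g ⊕ Fin g) ℂ)
  have hVm : ∀ X, X ∈ V ↔ X ∈ ZM (LZ Z) ∧ X * Om g ℂ = Om g ℂ * Xᵀ := by
    intro X
    rw [← mem_ZMp_tau h hy]
    exact Submodule.mem_map_equiv _
  have hV : finrank ℂ V = finrank ℂ (ZMp (Ly Z y yi) (Oy yi)) :=
    LinearEquiv.finrank_map_eq (tauE hy).symm _
  let S := (CentSym A E).map (mE e : (A.H →ₗ[ℚ] A.H) →ₗ[ℚ]
    Matrix (Fin g ⊕ Fin g) (Fin g ⊕ Fin g) ℚ)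
  have hS : finrank ℚ S = finrank ℚ (CentSym A E) := LinearEquiv.finrank_map_eq (mE e) _
  rw [← hV, ← hS]
  refine finrank_cK_le (fun σ X hX => ?_) fun F hF => ?_
  · rw [hVm] at hX ⊢
    refine ⟨gal_ZM σ hX.1, ?_⟩
    have h1 := congrArg (fun W => W.map σ) hX.2
    beta_reduce at h1
    have e1 : (X * Om g ℂ).map σ = X.map σ * (Om g ℂ).map σ :=
      Matrix.map_mul (f := (σ : ℂ →+* ℂ))
    have e2 : (Om g ℂ * Xᵀ).map σ = (Om g ℂ).map σ * (Xᵀ).map σ :=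
      Matrix.map_mul (f := (σ : ℂ →+* ℂ))
    rw [e1, e2, Om_mapσ] at h1
    exact h1
  · rw [hVm] at hF
    refine (Submodule.mem_map_equiv _).2 (Submodule.subset_span ?_)
    have h1 : mE e ((mE e).symm F) = F := (mE e).apply_symm_apply F
    refine ⟨?_, ?_⟩
    · rw [central_iff hc, h1]
      exact hF.1
    · rw [sym_iff hE, h1]
      exact (sym_cast F).1 hF.2

include h hc hy in
theorem dim_hodge : hodgeDim A ≤ finrank ℂ (ZK (Ly Z y yi)) := by
  unfold hodgeDim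
  let V := (ZK (Ly Z y yi)).map ((tauE hy).symm :
    Matrix (Fin g ⊕ Fin g) (Fin g ⊕ Fin g) ℂ →ₗ[ℂ] Matrix (Fin g ⊕ Fin g) (Fin g ⊕ Fin g) ℂ)
  have hVm : ∀ X, X ∈ V ↔ tauE hy X ∈ ZK (Ly Z y yi) := fun X => Submodule.mem_map_equiv _
  have hV : finrank ℂ V = finrank ℂ (ZK (Ly Z y yi)) :=
    LinearEquiv.finrank_map_eq (tauE hy).symm _
  let S := (CentHodge A).map (mE e : (A.H →ₗ[ℚ] A.H) →ₗ[ℚ]
    Matrix (Fin g ⊕ Fin g) (Fin g ⊕ Fin g) ℚ)
  have hS : finrank ℚ S = finrank ℚ (CentHodge A) := LinearEquiv.finrank_map_eq (mE e) _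
  rw [← hV, ← hS]
  refine finrank_le_of_cK fun F hF => ?_
  obtain ⟨z, hz, rfl⟩ := hF
  change cK ℂ (mE e z) ∈ V
  unfold CentHodge at hz
  induction hz using Submodule.span_induction with
  | mem z hz =>
    obtain ⟨hz1, hz2⟩ := hz
    rw [hVm]
    refine ⟨(tauE_ZM hy _).2 ((central_iff hc z).1 hz1), ?_⟩
    intro κ _ _ x hx
    have hx' := inv_le_span hy κ hx
    clear hx
    induction hx' using Submodule.span_induction with
    | mem c hcm =>
      obtain ⟨q, hq1, hq2⟩ := hcm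
      have h1 : kp κ (cm y)ᵀ *ᵥ (dm κ (tauE hy (cK ℂ (mE e z))) *ᵥ c) = 0 := by
        have h2 : tauE hy (cK ℂ (mE e z)) = (cm yi)ᵀ * (cK ℂ (mE e z))ᵀ * (cm y)ᵀ := by
          rw [tauE_apply, transpose_mul, transpose_mul, Matrix.mul_assoc]
        rw [mulVec_mulVec, h2, hy.kp_dm, ← mulVec_mulVec, hq2, dm_mulVec, transpose_transpose]
        have h3 := act_of_kills hc hz2 hq1
        have h4 : act (cK ℂ (mE e z)) (cst ℂ q) = cst ℂ (act (mE e z) q) := act_cst _ _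
        rw [h4, h3]
        funext I
        exact Rat.cast_zero
      have h5 := congrArg (fun w => kp κ (cm yi)ᵀ *ᵥ w) h1
      beta_reduce at h5
      rw [mulVec_mulVec, ← kp_mul, hy.crT, kp_one, one_mulVec, mulVec_zero] at h5
      exact h5
    | zero => rw [mulVec_zero]
    | add a b _ _ ha hb => rw [mulVec_add, ha, hb, add_zero]
    | smul c a _ ha => rw [mulVec_smul, ha, smul_zero]
  | zero =>
    have h1 : cK ℂ (mE e (0 : A.H →ₗ[ℚ] A.H)) = 0 := by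
      rw [map_zero]
      ext i j
      exact Rat.cast_zero
    rw [h1]
    exact V.zero_mem
  | add a b _ _ ha hb =>
    have h1 : cK ℂ (mE e (a + b)) = cK ℂ (mE e a) + cK ℂ (mE e b) := by
      rw [map_add]
      ext i j
      exact Rat.cast_add _ _
    rw [h1]
    exact V.add_mem ha hb
  | smul c a _ ha =>
    have h1 : cK ℂ (mE e (c • a)) = (c : ℂ) • cK ℂ (mE e a) := by
      rw [map_smul]
      ext i j
      exact Rat.cast_mul _ _
    rw [h1]
    exact V.smul_mem _ ha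

include h hc hy in
theorem sym_transfer {E : A.H → A.H → ℚ} (hE : ∀ v w, E v w = e w ⬝ᵥ (Om g ℚ *ᵥ e v))
    (hz : HasRealFactor A E) :
    ∃ z ∈ ZM (Ly Z y yi), z ≠ 0 ∧ ∀ w ∈ ZM (Ly Z y yi), z * w ∈ ZMp (Ly Z y yi) (Oy yi) := by
  obtain ⟨z, hz1, hz2, hz3⟩ := hz
  have hzc := (central_iff hc z).1 hz1
  refine ⟨tauE hy (cK ℂ (mE e z)), (tauE_ZM hy _).2 hzc, ?_, ?_⟩
  · intro h0
    apply hz2
    have h1 : cK ℂ (mE e z) = 0 := (tauE hy).injective (by rw [h0, map_zero])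
    have h2 : mE e z = 0 := cK_inj (by
      rw [h1]
      ext i j
      exact Rat.cast_zero.symm)
    exact (mE e).injective (by rw [h2, map_zero])
  · intro w hw
    obtain ⟨W, rfl⟩ := (tauE hy).surjective w
    rw [tauE_ZM] at hw
    rw [← tauE_mul, mem_ZMp_tau h hy]
    have hcomm : ∀ M ∈ ZM (LZ Z), M * cK ℂ (mE e z) ∈ ZM (LZ Z) := by
      intro M hM
      refine ⟨fun X hX => ?_, fun N hN => ?_⟩
      · rw [← Matrix.mul_assoc, hM.1 X hX, Matrix.mul_assoc, hzc.1 X hX, Matrix.mul_assoc]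
      · rw [← Matrix.mul_assoc, hM.2 N hN, Matrix.mul_assoc, hzc.2 N hN, Matrix.mul_assoc]
    refine ⟨hcomm W hw, ?_⟩
    refine rational_induction (ZM (LZ Z)) (fun σ X hX => gal_ZM σ hX)
      (p := fun W => W * cK ℂ (mE e z) * Om g ℂ = Om g ℂ * (W * cK ℂ (mE e z))ᵀ) ?_ ?_ ?_ ?_ W hw
    · intro F hF
      have h1 : mE e ((mE e).symm F) = F := (mE e).apply_symm_apply F
      have h2 : IsCentral A ((mE e).symm F) := by
        rw [central_iff hc, h1]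
        exact hF
      have h3 := hz3 _ h2
      have h4 := h3
      rw [sym_iff hE, mE_comp, h1] at h4
      have h5 : mE e z * F = F * mE e z := by
        refine cK_inj ?_
        rw [cK_mul, cK_mul]
        exact hF.2 _ hzc.1
      rw [h5] at h4
      have h6 := (sym_cast _).2 h4
      rw [cK_mul] at h6
      exact h6
    · rw [zero_mul, zero_mul, transpose_zero, mul_zero]
    · intro X Y hX hY
      rw [add_mul, add_mul, transpose_add, mul_add, hX, hY]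
    · intro c X hX
      rw [Matrix.smul_mul, Matrix.smul_mul, transpose_smul, Matrix.mul_smul, hX]

end

end Pool.Agent.NH32
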