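import Pool.Agent.NH32.GtC

/-!
# Project G, stage 2, GC1: generation and transitivity
-/

set_option autoImplicit false

namespace Pool.Agent.NH32

namespace GC1

open Matrix

variable {r : ℕ}

theorem self_nonneg (x : Fin r → ℝ) : 0 ≤ x ⬝ᵥ x :=
  Finset.sum_nonneg fun i _ => mul_self_nonneg (x i)

theorem self_pos {x : Fin r → ℝ} (h : x ≠ 0) : 0 < x ⬝ᵥ x :=
  lt_of_le_of_ne (self_nonneg x) fun h0 => h (dotProduct_self_eq_zero.1 h0.symm)

section basic
variable {Φ : Finset (Fin r → ℝ)} {h : Fin r → ℝ} (R : RS Φ h)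
include R

theorem ne_zero {γ : Fin r → ℝ} (hγ : γ ∈ Φ) : γ ≠ 0 := fun h0 => R.z (h0 ▸ hγ)

theorem pos {γ : Fin r → ℝ} (hγ : γ ∈ Φ) : 0 < γ ⬝ᵥ γ := self_pos (ne_zero R hγ)

end basic

theorem pr_sub (γ x y : Fin r → ℝ) : pr γ (x - y) = pr γ x - pr γ y := by
  unfold pr
  rw [sub_dotProduct]
  ring

theorem pr_smul (γ x : Fin r → ℝ) (t : ℝ) : pr γ (t • x) = t * pr γ x := by
  unfold pr
  rw [smul_dotProduct, smul_eq_mul]
  ring

theorem pr_self {γ : Fin r → ℝ} (h : 0 < γ ⬝ᵥ γ) : pr γ γ = 2 := by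
  unfold pr
  rw [mul_div_assoc, div_self h.ne', mul_one]

theorem pr_rf {γ : Fin r → ℝ} (h : 0 < γ ⬝ᵥ γ) (x : Fin r → ℝ) : pr γ (rf γ x) = - pr γ x := by
  unfold rf
  rw [pr_sub, pr_smul, pr_self h]
  ring

theorem rf_neg (γ x : Fin r → ℝ) : rf (-γ) x = rf γ x := by
  unfold rf pr
  rw [dotProduct_neg, dotProduct_neg, neg_dotProduct, neg_neg]
  funext i
  simp only [Pi.sub_apply, Pi.smul_apply, Pi.neg_apply, smul_eq_mul]
  ring

theorem rf_dot {γ : Fin r → ℝ} (h : 0 < γ ⬝ᵥ γ) (x y : Fin r → ℝ) :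
    rf γ x ⬝ᵥ rf γ y = x ⬝ᵥ y := by
  unfold rf pr
  simp only [sub_dotProduct, dotProduct_sub, smul_dotProduct, dotProduct_smul, smul_eq_mul]
  rw [dotProduct_comm γ y]
  field_simp
  ring

theorem rf_sub (γ x y : Fin r → ℝ) : rf γ (x - y) = rf γ x - rf γ y := by
  unfold rf
  rw [pr_sub, sub_smul]
  abel

/-- the sum of two roots with an obtuse angle is a root -/
theorem add_mem {Φ : Finset (Fin r → ℝ)} {h : Fin r → ℝ} (R : RS Φ h) {g a : Fin r → ℝ}
    (hg : g ∈ Φ) (ha : a ∈ Φ) (hneg : g ⬝ᵥ a < 0) (hne : a ≠ -g) : g + a ∈ Φ := by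
  have pg := pos R hg
  have pa := pos R ha
  -- strict Cauchy-Schwarz
  have cs : (g ⬝ᵥ a) ^ 2 < (g ⬝ᵥ g) * (a ⬝ᵥ a) := by
    set t : ℝ := (g ⬝ᵥ a) / (g ⬝ᵥ g) with ht
    have e1 : (a - t • g) ⬝ᵥ (a - t • g) = a ⬝ᵥ a - (g ⬝ᵥ a) ^ 2 / (g ⬝ᵥ g) := by
      simp only [sub_dotProduct, dotProduct_sub, smul_dotProduct, dotProduct_smul, smul_eq_mul]
      rw [dotProduct_comm a g, ht]
      field_simp
      ring
    have e2 : a - t • g ≠ 0 := by
      intro h0
      have h1 : a = t • g := sub_eq_zero.1 h0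
      rcases R.red g hg t (h1 ▸ ha) with h2 | h2
      · rw [h1, h2, one_smul] at hneg
        linarith
      · rw [h2, neg_smul, one_smul] at h1
        exact hne h1
    have e3 := self_pos e2
    rw [e1] at e3
    have e4 : (g ⬝ᵥ a) ^ 2 / (g ⬝ᵥ g) < a ⬝ᵥ a := by linarith
    rw [div_lt_iff₀ pg] at e4
    linarith
  obtain ⟨m, hm⟩ := R.int g hg a ha
  obtain ⟨n, hn⟩ := R.int a ha g hg
  have hm' : (m : ℝ) * (g ⬝ᵥ g) = 2 * (g ⬝ᵥ a) := by
    rw [← hm]
    unfold pr
    rw [dotProduct_comm a g]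
    field_simp
  have hn' : (n : ℝ) * (a ⬝ᵥ a) = 2 * (g ⬝ᵥ a) := by
    rw [← hn]
    unfold pr
    field_simp
  have m0 : (m : ℝ) < 0 := by
    by_contra hcon
    have := mul_nonneg (not_lt.1 hcon) pg.le
    linarith
  have n0 : (n : ℝ) < 0 := by
    by_contra hcon
    have := mul_nonneg (not_lt.1 hcon) pa.le
    linarith
  have mn : (m : ℝ) * n < 4 := by
    have e1 : (m : ℝ) * n * ((g ⬝ᵥ g) * (a ⬝ᵥ a)) = 4 * (g ⬝ᵥ a) ^ 2 := by
      calc (m : ℝ) * n * ((g ⬝ᵥ g) * (a ⬝ᵥ a)) = (m * (g ⬝ᵥ g)) * (n * (a ⬝ᵥ a)) := by ring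
        _ = 4 * (g ⬝ᵥ a) ^ 2 := by rw [hm', hn']; ring
    have e2 : 0 < (g ⬝ᵥ g) * (a ⬝ᵥ a) := mul_pos pg pa
    by_contra hcon
    have := mul_le_mul_of_nonneg_right (not_lt.1 hcon) e2.le
    linarith
  have m1 : m < 0 := by exact_mod_cast m0
  have n1 : n < 0 := by exact_mod_cast n0
  have mn1 : m * n < 4 := by exact_mod_cast mn
  have hcase : m = -1 ∨ n = -1 := by
    by_contra hcon
    push Not at hcon
    have h1 : m ≤ -2 := by omega
    have h2 : n ≤ -2 := by omega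
    nlinarith
  rcases hcase with rfl | rfl
  · have h1 := R.rfl g hg a ha
    unfold rf at h1
    rw [hm] at h1
    have e : a - (((-1 : ℤ) : ℝ)) • g = g + a := by
      push_cast
      rw [neg_smul, one_smul]
      abel
    rwa [e] at h1
  · have h1 := R.rfl a ha g hg
    unfold rf at h1
    rw [hn] at h1
    have e : g - (((-1 : ℤ) : ℝ)) • a = g + a := by
      push_cast
      rw [neg_smul, one_smul]
      abel
    rwa [e] at h1

theorem gen : St_gen := by
  classical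
  intro r Φ h R f hf hex γ hγ hfγ
  set Ψ : Finset (Fin r → ℝ) := Φ.filter fun g => f g = 0 ∧
    ¬ ∃ α ∈ Φ, ∃ β ∈ Φ, f α = 1 ∧ f β = 1 ∧ g = α - β with hΨ
  -- roots of degree one
  have c0 : ∀ g ∈ Ψ, -g ∈ Ψ := by
    intro g hg
    obtain ⟨h1, h2, h3⟩ := Finset.mem_filter.1 hg
    refine Finset.mem_filter.2 ⟨R.neg g h1, by rw [map_neg, h2, neg_zero], ?_⟩
    rintro ⟨α, hα, β, hβ, e1, e2, e3⟩
    exact h3 ⟨β, hβ, α, hα, e2, e1, by rw [← neg_neg g, e3, neg_sub]⟩
  have c1 : ∀ g ∈ Ψ, ∀ a ∈ Φ, f a = 1 → ¬ g ⬝ᵥ a < 0 := by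
    intro g hg a ha h1 h2
    obtain ⟨k1, k2, k3⟩ := Finset.mem_filter.1 hg
    have hne : a ≠ -g := by
      intro h0
      rw [h0, map_neg, k2, neg_zero] at h1
      exact zero_ne_one h1
    refine k3 ⟨g + a, add_mem R k1 ha h2 hne, a, ha, ?_, h1, by abel⟩
    rw [map_add, k2, h1, zero_add]
  have c2 : ∀ g ∈ Ψ, ∀ a ∈ Φ, f a = 1 → g ⬝ᵥ a = 0 := by
    intro g hg a ha h1
    have h2 := c1 g hg a ha h1
    have h3 := c1 (-g) (c0 g hg) a ha h1
    rw [neg_dotProduct] at h3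
    push Not at h2 h3
    linarith
  have c3 : ∀ g ∈ Ψ, ∀ δ ∈ Φ, δ ∉ Ψ → g ⬝ᵥ δ = 0 := by
    intro g hg δ hδ hn
    rcases hf δ hδ with h0 | h1 | h1
    · have h2 : ∃ α ∈ Φ, ∃ β ∈ Φ, f α = 1 ∧ f β = 1 ∧ δ = α - β := by
        by_contra hcon
        exact hn (Finset.mem_filter.2 ⟨hδ, h0, hcon⟩)
      obtain ⟨α, hα, β, hβ, e1, e2, e3⟩ := h2
      rw [e3, dotProduct_sub, c2 g hg α hα e1, c2 g hg β hβ e2, sub_zero]
    · exact c2 g hg δ hδ h1
    · have h2 := c2 g hg (-δ) (R.neg δ hδ) (by rw [map_neg, h1, neg_neg])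
      rw [dotProduct_neg] at h2
      linarith
  rcases R.irr Ψ (Finset.filter_subset _ _) c3 with h1 | h1
  · by_contra hcon
    have h2 : γ ∈ Ψ := Finset.mem_filter.2 ⟨hγ, hfγ, hcon⟩
    rw [h1] at h2
    exact absurd h2 (Finset.notMem_empty _)
  · obtain ⟨δ, hδ, h2⟩ := hex
    rw [← h1] at hδ
    have h3 := (Finset.mem_filter.1 hδ).2.1
    rw [h3] at h2
    exact absurd h2 zero_ne_one

theorem pai : St_pai := by
  classical
  intro r Φ h S R W
  refine ⟨fun γ hγ => ?_, fun s hs s' hs' => ?_⟩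
  · set Ψ : Finset (Fin r → ℝ) := Φ.filter fun g => ∀ s ∈ S, pr g s = 0 with hΨ
    have c1 : ∀ g ∈ Ψ, ∀ δ ∈ Φ, δ ∉ Ψ → g ⬝ᵥ δ = 0 := by
      intro g hg δ hδ hn
      obtain ⟨g1, g2⟩ := Finset.mem_filter.1 hg
      have h1 : ∃ s ∈ S, pr δ s ≠ 0 := by
        by_contra hcon
        push Not at hcon
        exact hn (Finset.mem_filter.2 ⟨hδ, hcon⟩)
      obtain ⟨s, hs, h2⟩ := h1
      have h3 := g2 _ (W.rfl δ hδ s hs)
      unfold rf at h3
      rw [pr_sub, g2 s hs, pr_smul, zero_sub, neg_eq_zero] at h3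
      have h4 : pr g δ = 0 := (mul_eq_zero.1 h3).resolve_left h2
      unfold pr at h4
      have pg := pos R g1
      rw [div_eq_zero_iff] at h4
      rcases h4 with h4 | h4
      · rw [dotProduct_comm]
        linarith
      · exact absurd h4 pg.ne'
    have c2 : Ψ ≠ Φ := by
      intro h1
      obtain ⟨s, hs⟩ := W.ne
      have h2 : ∀ x : Fin r → ℝ, s ⬝ᵥ x = 0 := by
        intro x
        have hx : x ∈ Submodule.span ℝ (Φ : Set (Fin r → ℝ)) := by
          rw [R.spn]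
          exact Submodule.mem_top
        induction hx using Submodule.span_induction with
        | mem y hy =>
          have hy' : y ∈ Φ := hy
          have h3 := (Finset.mem_filter.1 (h1 ▸ hy' : y ∈ Ψ)).2 s hs
          unfold pr at h3
          have py := pos R hy'
          rw [div_eq_zero_iff] at h3
          rcases h3 with h3 | h3
          · linarith
          · exact absurd h3 py.ne'
        | zero => exact dotProduct_zero s
        | add y z _ _ hy hz => rw [dotProduct_add, hy, hz, add_zero]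
        | smul t y _ hy => rw [dotProduct_smul, hy, smul_zero]
      have h3 := dotProduct_self_eq_zero.1 (h2 s)
      exact W.nz (h3 ▸ hs)
    have c3 : Ψ = ∅ := (R.irr Ψ (Finset.filter_subset _ _) c1).resolve_right c2
    have c4 : ∃ s ∈ S, pr γ s ≠ 0 := by
      by_contra hcon
      push Not at hcon
      have h2 : γ ∈ Ψ := Finset.mem_filter.2 ⟨hγ, hcon⟩
      rw [c3] at h2
      exact absurd h2 (Finset.notMem_empty _)
    obtain ⟨s, hs, h2⟩ := c4
    rcases W.min γ hγ s hs with h3 | h3 | h3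
    · exact absurd h3 h2
    · exact ⟨s, hs, h3⟩
    · exact ⟨rf γ s, W.rfl γ hγ s hs, by rw [pr_rf (pos R hγ), h3, neg_neg]⟩
  · have h1 : (S.filter fun t => t ⬝ᵥ t = s ⬝ᵥ s) = S := by
      refine W.tr _ (Finset.filter_subset _ _) ⟨s, Finset.mem_filter.2 ⟨hs, rfl⟩⟩ ?_
      intro γ hγ t ht
      obtain ⟨t1, t2⟩ := Finset.mem_filter.1 ht
      exact Finset.mem_filter.2 ⟨W.rfl γ hγ t t1, by rw [rf_dot (pos R hγ), t2]⟩
    have h2 : s' ∈ S.filter fun t => t ⬝ᵥ t = s ⬝ᵥ s := by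
      rw [h1]
      exact hs'
    exact (Finset.mem_filter.1 h2).2.symm

theorem wtr : St_wtr := by
  classical
  intro r Φ h S R W ⟨c, hc⟩ S' hS' hne hmax hst s hs hsm
  obtain ⟨a₀, ha₀⟩ := W.two
  set T : Finset (Fin r → ℝ) := S.filter fun t => t ∈ S' ∨
    ∃ u ∈ S', ∃ a ∈ Φ, a ⬝ᵥ h = 1 ∧ pr a u = 1 ∧ t = u - a with hT
  have hTS' : S' ⊆ T := fun t ht => Finset.mem_filter.2 ⟨hS' ht, Or.inl ht⟩
  have hprc : ∀ a ∈ Φ, ∀ x : Fin r → ℝ, pr a x = 2 * (x ⬝ᵥ a) / c := by
    intro a ha x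
    unfold pr
    rw [hc a ha]
  -- elements of the second kind
  have mk : ∀ u ∈ S', ∀ a ∈ Φ, a ⬝ᵥ h = 1 → pr a u = 1 → u - a ∈ T := by
    intro u hu a ha h1 h2
    have h3 := W.rfl a ha u (hS' hu)
    unfold rf at h3
    rw [h2, one_smul] at h3
    exact Finset.mem_filter.2 ⟨h3, Or.inr ⟨u, hu, a, ha, h1, h2, rfl⟩⟩
  -- pairing of a positive root with an element of `S'`
  have nn : ∀ u ∈ S', ∀ b ∈ Φ, b ⬝ᵥ h = 1 → pr b u ≠ -1 := by
    intro u hu b hb h1 h2
    have h3 := W.rfl b hb u (hS' hu)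
    unfold rf at h3
    rw [h2, neg_smul, one_smul, sub_neg_eq_add] at h3
    have h4 := hmax u hu _ h3
    rw [add_dotProduct, h1] at h4
    linarith
  have st1 : ∀ b ∈ Φ, b ⬝ᵥ h = 1 → ∀ t ∈ T, rf b t ∈ T := by
    intro b hb hb1 t ht
    obtain ⟨t1, t2⟩ := Finset.mem_filter.1 ht
    have pb := pos R hb
    rcases t2 with t2 | ⟨u, hu, a, ha, a1, a2, rfl⟩
    · rcases W.min b hb t t1 with h1 | h1 | h1
      · unfold rf
        rw [h1, zero_smul, sub_zero]
        exact ht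
      · unfold rf
        rw [h1, one_smul]
        exact mk t t2 b hb hb1 h1
      · exact absurd h1 (nn t t2 b hb hb1)
    · rcases W.min b hb _ t1 with h1 | h1 | h1
      · unfold rf
        rw [h1, zero_smul, sub_zero]
        exact ht
      · exfalso
        have h2 := W.rfl b hb _ t1
        unfold rf at h2
        rw [h1, one_smul] at h2
        have h3 := ha₀ _ h2
        have h4 := ha₀ u (hS' hu)
        rw [sub_dotProduct, sub_dotProduct, a1, hb1] at h3
        rcases h3 with h3 | h3 <;> rcases h4 with h4 | h4 <;> linarith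
      · have h2 := h1
        rw [pr_sub] at h2
        have e1 : rf b (u - a) = u - a + b := by
          unfold rf
          rw [h1, neg_smul, one_smul, sub_neg_eq_add]
        rw [e1]
        rcases W.min b hb u (hS' hu) with h3 | h3 | h3
        · -- `a - b` is a root of degree zero
          have h4 : pr b a = 1 := by linarith
          have h5 : a - b ∈ Φ := by
            have := R.rfl b hb a ha
            unfold rf at this
            rwa [h4, one_smul] at this
          have h6 : (a - b) ⬝ᵥ h = 0 := by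
            rw [sub_dotProduct, a1, hb1, sub_self]
          have h7 : pr (a - b) u = 1 := by
            rw [hprc _ h5, dotProduct_sub]
            rw [hprc a ha] at a2
            rw [hprc b hb] at h3
            have : 2 * (u ⬝ᵥ a - u ⬝ᵥ b) / c = 2 * (u ⬝ᵥ a) / c - 2 * (u ⬝ᵥ b) / c := by ring
            rw [this, a2, h3, sub_zero]
          have h8 := hst _ h5 h6 u hu
          unfold rf at h8
          rw [h7, one_smul] at h8
          have e2 : u - a + b = u - (a - b) := by abel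
          rw [e2]
          exact hTS' h8
        · have h4 : pr b a = 2 := by linarith
          rw [hprc b hb] at h4
          have cpos : 0 < c := by
            rw [← hc b hb]
            exact pb
          have h5 : a ⬝ᵥ b = c := by
            field_simp at h4
            linarith
          have h6 : (a - b) ⬝ᵥ (a - b) = 0 := by
            rw [sub_dotProduct, dotProduct_sub, dotProduct_sub, hc a ha, hc b hb,
              dotProduct_comm b a, h5]
            ring
          have h7 := sub_eq_zero.1 (dotProduct_self_eq_zero.1 h6)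
          rw [h7, sub_add_cancel]
          exact hTS' hu
        · exact absurd h3 (nn u hu b hb hb1)
  have st : ∀ γ ∈ Φ, ∀ t ∈ T, rf γ t ∈ T := by
    intro γ hγ t ht
    rcases R.lev γ hγ with h0 | h1 | h1
    · obtain ⟨t1, t2⟩ := Finset.mem_filter.1 ht
      rcases t2 with t2 | ⟨u, hu, a, ha, a1, a2, rfl⟩
      · exact hTS' (hst γ hγ h0 t t2)
      · rw [rf_sub]
        have pγ := pos R hγ
        refine mk _ (hst γ hγ h0 u hu) _ (R.rfl γ hγ a ha) ?_ ?_
        · unfold rf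
          rw [sub_dotProduct, smul_dotProduct, h0, smul_zero, sub_zero, a1]
        · unfold pr
          rw [rf_dot pγ, rf_dot pγ]
          exact a2
    · exact st1 γ hγ h1 t ht
    · rw [← rf_neg]
      exact st1 (-γ) (R.neg γ hγ) (by rw [neg_dotProduct, h1, neg_neg]) t ht
  have hTT : T = S := by
    refine W.tr T (Finset.filter_subset _ _) ?_ st
    obtain ⟨u, hu⟩ := hne
    exact ⟨u, hTS' hu⟩
  have h1 : s ∈ T := by
    rw [hTT]
    exact hs
  rcases (Finset.mem_filter.1 h1).2 with h2 | ⟨u, hu, a, ha, a1, a2, h3⟩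
  · exact h2
  · exfalso
    have h4 := hsm u (hS' hu)
    rw [h3, sub_dotProduct, a1] at h4
    linarith

end GC1

theorem gen_of : St_gen := GC1.gen

theorem wtr_of : St_wtr := GC1.wtr

theorem pai_of : St_pai := GC1.pai

end Pool.Agent.NH32
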