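import Pool.Agent.NH32.GtC

/-!
# GC2: orthogonal roots of degree zero (helper80)
-/

set_option linter.unusedSectionVars false

namespace Pool.Agent.NH32

open Matrix

noncomputable section

namespace GC2

open Classical

variable {r : ℕ}

/-- the normalised form -/
def B (c : ℝ) (x y : Fin r → ℝ) : ℝ := 2 * (x ⬝ᵥ y) / c

lemma B_comm (c : ℝ) (x y : Fin r → ℝ) : B c x y = B c y x := by
  unfold B; rw [dotProduct_comm]

lemma B_add_left (c : ℝ) (x y z : Fin r → ℝ) : B c (x + y) z = B c x z + B c y z := by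
  unfold B; rw [add_dotProduct]; ring

lemma B_sub_left (c : ℝ) (x y z : Fin r → ℝ) : B c (x - y) z = B c x z - B c y z := by
  unfold B; rw [sub_dotProduct]; ring

lemma B_neg_left (c : ℝ) (x z : Fin r → ℝ) : B c (-x) z = - B c x z := by
  unfold B; rw [neg_dotProduct]; ring

lemma B_smul_left (c t : ℝ) (x z : Fin r → ℝ) : B c (t • x) z = t * B c x z := by
  unfold B; rw [smul_dotProduct, smul_eq_mul]; ring

lemma B_add_right (c : ℝ) (x y z : Fin r → ℝ) : B c z (x + y) = B c z x + B c z y := by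
  rw [B_comm, B_add_left, B_comm c x, B_comm c y]

lemma B_sub_right (c : ℝ) (x y z : Fin r → ℝ) : B c z (x - y) = B c z x - B c z y := by
  rw [B_comm, B_sub_left, B_comm c x, B_comm c y]

lemma B_neg_right (c : ℝ) (x z : Fin r → ℝ) : B c z (-x) = - B c z x := by
  rw [B_comm, B_neg_left, B_comm]

lemma B_smul_right (c t : ℝ) (x z : Fin r → ℝ) : B c z (t • x) = t * B c z x := by
  rw [B_comm, B_smul_left, B_comm]

/-- the situation -/
structure Env (Φ S : Finset (Fin r → ℝ)) (h : Fin r → ℝ) (c : ℝ) (s : Fin r → ℝ) : Prop where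
  rs : RS Φ h
  mw : MW Φ h S
  nrm : ∀ γ ∈ Φ, γ ⬝ᵥ γ = c
  hs : s ∈ S
  max : ∀ s' ∈ S, s' ⬝ᵥ h ≤ s ⬝ᵥ h

/-- pairing with `y` -/
def lin (y : Fin r → ℝ) : (Fin r → ℝ) →ₗ[ℝ] ℝ where
  toFun x := x ⬝ᵥ y
  map_add' a b := add_dotProduct a b y
  map_smul' t a := by rw [smul_dotProduct]; rfl

/-- the roots of degree one which can be subtracted -/
def A (Φ : Finset (Fin r → ℝ)) (h : Fin r → ℝ) (c : ℝ) (s : Fin r → ℝ) : Finset (Fin r → ℝ) :=
  Φ.filter fun a => a ⬝ᵥ h = 1 ∧ B c s a = 1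

/-- the roots of degree zero which can be subtracted -/
def F (Φ : Finset (Fin r → ℝ)) (h : Fin r → ℝ) (c : ℝ) (s : Fin r → ℝ) : Finset (Fin r → ℝ) :=
  Φ.filter fun a => a ⬝ᵥ h = 0 ∧ B c s a = 1

/-- the elements of `A` not orthogonal to `g` -/
def Ag (Φ : Finset (Fin r → ℝ)) (h : Fin r → ℝ) (c : ℝ) (s g : Fin r → ℝ) :
    Finset (Fin r → ℝ) := (A Φ h c s).filter fun a => B c a g = 1

section env

variable {Φ S : Finset (Fin r → ℝ)} {h : Fin r → ℝ} {c : ℝ} {s : Fin r → ℝ}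

lemma mem_A {a : Fin r → ℝ} : a ∈ A Φ h c s ↔ a ∈ Φ ∧ a ⬝ᵥ h = 1 ∧ B c s a = 1 := by
  unfold A; rw [Finset.mem_filter]

lemma mem_F {a : Fin r → ℝ} : a ∈ F Φ h c s ↔ a ∈ Φ ∧ a ⬝ᵥ h = 0 ∧ B c s a = 1 := by
  unfold F; rw [Finset.mem_filter]

lemma mem_Ag {a g : Fin r → ℝ} : a ∈ Ag Φ h c s g ↔ a ∈ A Φ h c s ∧ B c a g = 1 := by
  unfold Ag; rw [Finset.mem_filter]

lemma cpos (E : Env Φ S h c s) : 0 < c := by
  obtain ⟨γ, hγ, h1⟩ := E.rs.ex
  rw [← E.nrm γ hγ]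
  have h2 : 0 ≤ γ ⬝ᵥ γ := Finset.sum_nonneg fun i _ => mul_self_nonneg _
  rcases h2.lt_or_eq with h3 | h3
  · exact h3
  · exfalso
    have h4 := dotProduct_self_eq_zero.1 h3.symm
    rw [h4, zero_dotProduct] at h1
    norm_num at h1

lemma B_nonneg (E : Env Φ S h c s) (x : Fin r → ℝ) : 0 ≤ B c x x := by
  have h2 : 0 ≤ x ⬝ᵥ x := Finset.sum_nonneg fun i _ => mul_self_nonneg _
  have := cpos E
  unfold B
  positivity

lemma B_zero (E : Env Φ S h c s) {x : Fin r → ℝ} (hx : B c x x = 0) : x = 0 := by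
  have := cpos E
  unfold B at hx
  have h1 : x ⬝ᵥ x = 0 := by
    rcases div_eq_zero_iff.1 hx with h | h
    · linarith
    · linarith
  exact dotProduct_self_eq_zero.1 h1

lemma pr_eq (E : Env Φ S h c s) {γ : Fin r → ℝ} (hγ : γ ∈ Φ) (x : Fin r → ℝ) :
    pr γ x = B c x γ := by
  unfold pr B; rw [E.nrm γ hγ]

lemma rf_eq (E : Env Φ S h c s) {γ : Fin r → ℝ} (hγ : γ ∈ Φ) (x : Fin r → ℝ) :
    rf γ x = x - B c x γ • γ := by
  unfold rf; rw [pr_eq E hγ]

lemma B_self (E : Env Φ S h c s) {γ : Fin r → ℝ} (hγ : γ ∈ Φ) : B c γ γ = 2 := by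
  have := cpos E
  unfold B; rw [E.nrm γ hγ]; field_simp

lemma vals (E : Env Φ S h c s) {γ δ : Fin r → ℝ} (hγ : γ ∈ Φ) (hδ : δ ∈ Φ) :
    B c γ δ = 2 ∨ B c γ δ = 1 ∨ B c γ δ = 0 ∨ B c γ δ = -1 ∨ B c γ δ = -2 := by
  obtain ⟨n, hn⟩ := E.rs.int δ hδ γ hγ
  rw [pr_eq E hδ] at hn
  have h1 := B_nonneg E (γ - δ)
  have h2 := B_nonneg E (γ + δ)
  simp only [B_sub_left, B_sub_right, B_add_left, B_add_right, B_self E hγ, B_self E hδ,
    B_comm c δ γ] at h1 h2
  rw [hn] at h1 h2 ⊢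
  have h3 : (n : ℝ) ≤ 2 := by linarith
  have h4 : (-2 : ℝ) ≤ n := by linarith
  have h5 : n ≤ 2 := by exact_mod_cast h3
  have h6 : -2 ≤ n := by exact_mod_cast h4
  interval_cases n <;> norm_num

lemma eq_of_two (E : Env Φ S h c s) {γ δ : Fin r → ℝ} (hγ : γ ∈ Φ) (hδ : δ ∈ Φ)
    (h2 : B c γ δ = 2) : γ = δ := by
  have h1 : B c (γ - δ) (γ - δ) = 0 := by
    simp only [B_sub_left, B_sub_right, B_self E hγ, B_self E hδ, B_comm c δ γ, h2]
    norm_num
  exact sub_eq_zero.1 (B_zero E h1)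

lemma eq_of_neg_two (E : Env Φ S h c s) {γ δ : Fin r → ℝ} (hγ : γ ∈ Φ) (hδ : δ ∈ Φ)
    (h2 : B c γ δ = -2) : γ = -δ := by
  have h1 : B c (γ + δ) (γ + δ) = 0 := by
    simp only [B_add_left, B_add_right, B_self E hγ, B_self E hδ, B_comm c δ γ, h2]
    norm_num
  exact eq_neg_of_add_eq_zero_left (B_zero E h1)

lemma sub_mem (E : Env Φ S h c s) {γ δ : Fin r → ℝ} (hγ : γ ∈ Φ) (hδ : δ ∈ Φ)
    (h2 : B c γ δ = 1) : γ - δ ∈ Φ := by
  have := E.rs.rfl δ hδ γ hγ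
  rwa [rf_eq E hδ, h2, one_smul] at this

lemma add_mem (E : Env Φ S h c s) {γ δ : Fin r → ℝ} (hγ : γ ∈ Φ) (hδ : δ ∈ Φ)
    (h2 : B c γ δ = -1) : γ + δ ∈ Φ := by
  have := E.rs.rfl δ hδ γ hγ
  rwa [rf_eq E hδ, h2, neg_smul, one_smul, sub_neg_eq_add] at this

lemma minS (E : Env Φ S h c s) {x γ : Fin r → ℝ} (hx : x ∈ S) (hγ : γ ∈ Φ) :
    B c x γ = 0 ∨ B c x γ = 1 ∨ B c x γ = -1 := by
  have := E.mw.min γ hγ x hx
  rwa [pr_eq E hγ] at this

lemma subS (E : Env Φ S h c s) {x γ : Fin r → ℝ} (hx : x ∈ S) (hγ : γ ∈ Φ)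
    (h2 : B c x γ = 1) : x - γ ∈ S := by
  have := E.mw.rfl γ hγ x hx
  rwa [rf_eq E hγ, h2, one_smul] at this

lemma addS (E : Env Φ S h c s) {x γ : Fin r → ℝ} (hx : x ∈ S) (hγ : γ ∈ Φ)
    (h2 : B c x γ = -1) : x + γ ∈ S := by
  have := E.mw.rfl γ hγ x hx
  rwa [rf_eq E hγ, h2, neg_smul, one_smul, sub_neg_eq_add] at this

lemma F0 (E : Env Φ S h c s) {x y : Fin r → ℝ} (hx : x ∈ Φ) (hy : y ∈ Φ) (h1 : B c s x = 1)
    (h2 : B c s y = 1) : B c x y = 0 ∨ B c x y = 1 ∨ B c x y = 2 := by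
  rcases vals E hx hy with h | h | h | h | h
  · exact Or.inr (Or.inr h)
  · exact Or.inr (Or.inl h)
  · exact Or.inl h
  · exfalso
    have h3 := minS E E.hs (add_mem E hx hy h)
    rw [B_add_right, h1, h2] at h3
    norm_num at h3
  · exfalso
    have h3 := eq_of_neg_two E hx hy h
    rw [h3, B_neg_right, h2] at h1
    norm_num at h1

lemma pos1 (E : Env Φ S h c s) {γ : Fin r → ℝ} (hγ : γ ∈ Φ) (h1 : γ ⬝ᵥ h = 1) :
    B c s γ = 0 ∨ B c s γ = 1 := by
  rcases minS E E.hs hγ with h2 | h2 | h2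
  · exact Or.inl h2
  · exact Or.inr h2
  · exfalso
    have h3 := E.max _ (addS E E.hs hγ h2)
    rw [add_dotProduct, h1] at h3
    linarith

lemma AA (E : Env Φ S h c s) {a a' : Fin r → ℝ} (ha : a ∈ A Φ h c s) (ha' : a' ∈ A Φ h c s)
    (hne : a ≠ a') : B c a a' = 1 := by
  rw [mem_A] at ha ha'
  rcases F0 E ha.1 ha'.1 ha.2.2 ha'.2.2 with h1 | h1 | h1
  · exfalso
    have h2 := subS E E.hs ha.1 ha.2.2
    have h3 := subS E h2 ha'.1 (by rw [B_sub_left, ha'.2.2, h1, sub_zero])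
    obtain ⟨t, ht⟩ := E.mw.two
    have h4 := ht _ E.hs
    have h5 := ht _ h3
    rw [sub_dotProduct, sub_dotProduct, ha.2.1, ha'.2.1] at h5
    rcases h4 with h4 | h4 <;> rcases h5 with h5 | h5 <;> linarith
  · exact h1
  · exact absurd (eq_of_two E ha.1 ha'.1 h1) hne

lemma A_self (E : Env Φ S h c s) {a : Fin r → ℝ} (ha : a ∈ A Φ h c s) : B c a a = 2 :=
  B_self E (mem_A.1 ha).1

lemma F_self (E : Env Φ S h c s) {a : Fin r → ℝ} (ha : a ∈ F Φ h c s) : B c a a = 2 :=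
  B_self E (mem_F.1 ha).1

lemma AF (E : Env Φ S h c s) {a g : Fin r → ℝ} (ha : a ∈ A Φ h c s) (hg : g ∈ F Φ h c s) :
    B c a g = 0 ∨ B c a g = 1 := by
  rw [mem_A] at ha
  rw [mem_F] at hg
  rcases F0 E ha.1 hg.1 ha.2.2 hg.2.2 with h1 | h1 | h1
  · exact Or.inl h1
  · exact Or.inr h1
  · exfalso
    have h2 := eq_of_two E ha.1 hg.1 h1
    have h3 := ha.2.1
    rw [h2, hg.2.1] at h3
    norm_num at h3

lemma FF (E : Env Φ S h c s) {g g' : Fin r → ℝ} (hg : g ∈ F Φ h c s) (hg' : g' ∈ F Φ h c s) :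
    B c g g' = 0 ∨ B c g g' = 1 ∨ g = g' := by
  rw [mem_F] at hg hg'
  rcases F0 E hg.1 hg'.1 hg.2.2 hg'.2.2 with h1 | h1 | h1
  · exact Or.inl h1
  · exact Or.inr (Or.inl h1)
  · exact Or.inr (Or.inr (eq_of_two E hg.1 hg'.1 h1))

lemma ne_Ag (E : Env Φ S h c s) (hgen : St_gen) {g : Fin r → ℝ} (hg : g ∈ F Φ h c s) :
    ∃ a ∈ A Φ h c s, B c a g = 1 := by
  rw [mem_F] at hg
  obtain ⟨a, ha, b, hb, h1, h2, h3⟩ := hgen r Φ h E.rs (lin h) (fun γ hγ => E.rs.lev γ hγ)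
    E.rs.ex g hg.1 hg.2.1
  replace h1 : a ⬝ᵥ h = 1 := h1
  replace h2 : b ⬝ᵥ h = 1 := h2
  have h4 := hg.2.2
  have h5 := B_self E hg.1
  rw [h3, B_sub_right] at h4
  rw [h3] at h5
  simp only [B_sub_left, B_sub_right, B_self E ha, B_self E hb, B_comm c b a] at h5
  refine ⟨a, mem_A.2 ⟨ha, h1, ?_⟩, ?_⟩
  · rcases pos1 E ha h1 with h6 | h6 <;> rcases pos1 E hb h2 with h7 | h7 <;> linarith
  · rw [h3, B_sub_right, B_self E ha]
    linarith

lemma gen_b (E : Env Φ S h c s) (hgen : St_gen) (hF : (F Φ h c s).Nonempty) {b : Fin r → ℝ}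
    (hb : b ∈ Φ) (h1 : b ⬝ᵥ h = 1) (h2 : B c s b = 0) :
    ∃ a ∈ A Φ h c s, ∃ g ∈ F Φ h c s, b = a - g ∧ B c a g = 1 := by
  have hlin : ∀ x : Fin r → ℝ, ((2 / c) • lin s) x = B c s x := by
    intro x
    rw [LinearMap.smul_apply, B_comm]
    unfold B lin
    simp only [LinearMap.coe_mk, AddHom.coe_mk, smul_eq_mul]
    ring
  obtain ⟨a, ha, g, hg, h3, h4, h5⟩ := hgen r Φ h E.rs ((2 / c) • lin s)
    (fun γ hγ => by rw [hlin]; exact minS E E.hs hγ)
    (by obtain ⟨g, hg⟩ := hF; exact ⟨g, (mem_F.1 hg).1, by rw [hlin]; exact (mem_F.1 hg).2.2⟩)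
    b hb (by rw [hlin]; exact h2)
  rw [hlin] at h3 h4
  have h6 : B c a g = 1 := by
    have := B_self E hb
    rw [h5] at this
    simp only [B_sub_left, B_sub_right, B_self E ha, B_self E hg, B_comm c g a] at this
    linarith
  have h7 : a ⬝ᵥ h - g ⬝ᵥ h = 1 := by rw [← sub_dotProduct, ← h5, h1]
  have h8 : g ⬝ᵥ h ≠ -1 := by
    intro h9
    have h10 := pos1 E (E.rs.neg g hg) (by rw [neg_dotProduct, h9]; norm_num)
    rw [B_neg_right, h4] at h10
    norm_num at h10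
  have h9 : g ⬝ᵥ h = 0 ∧ a ⬝ᵥ h = 1 := by
    rcases E.rs.lev g hg with h | h | h <;> rcases E.rs.lev a ha with h' | h' | h'
    · rw [h, h'] at h7; norm_num at h7
    · exact ⟨h, h'⟩
    · rw [h, h'] at h7; norm_num at h7
    · rw [h, h'] at h7; norm_num at h7
    · rw [h, h'] at h7; norm_num at h7
    · rw [h, h'] at h7; norm_num at h7
    · exact absurd h h8
    · exact absurd h h8
    · exact absurd h h8
  exact ⟨a, mem_A.2 ⟨ha, h9.2, h3⟩, g, mem_F.2 ⟨hg, h9.1, h4⟩, h5, h6⟩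

lemma one (E : Env Φ S h c s) {g g' a : Fin r → ℝ} (hg : g ∈ F Φ h c s) (hg' : g' ∈ F Φ h c s)
    (ha : a ∈ A Φ h c s) (h0 : B c g g' = 0) (h1 : B c a g = 1) (h2 : B c a g' = 1) : False := by
  rw [mem_A] at ha
  rw [mem_F] at hg hg'
  have h3 := sub_mem E ha.1 hg.1 h1
  have h4 := sub_mem E h3 hg'.1 (by rw [B_sub_left, h2, h0, sub_zero])
  have h5 := pos1 E h4 (by rw [sub_dotProduct, sub_dotProduct, ha.2.1, hg.2.1, hg'.2.1]; norm_num)
  rw [B_sub_right, B_sub_right, ha.2.2, hg.2.2, hg'.2.2] at h5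
  norm_num at h5

lemma rf_iso (E : Env Φ S h c s) {d : Fin r → ℝ} (hd : d ∈ Φ) (x y : Fin r → ℝ) :
    B c (rf d x) (rf d y) = B c x y := by
  rw [rf_eq E hd, rf_eq E hd]
  simp only [B_sub_left, B_sub_right, B_smul_left, B_smul_right, B_self E hd, B_comm c d y]
  ring

lemma rf_inv (E : Env Φ S h c s) {d : Fin r → ℝ} (hd : d ∈ Φ) (x : Fin r → ℝ) :
    rf d (rf d x) = x := by
  rw [rf_eq E hd, rf_eq E hd]
  simp only [B_sub_left, B_smul_left, B_self E hd]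
  module

lemma pres (E : Env Φ S h c s) {d : Fin r → ℝ} (hd : d ∈ Φ) (h0 : d ⬝ᵥ h = 0)
    (h1 : B c s d = 0) (x : Fin r → ℝ) :
    (rf d x) ⬝ᵥ h = x ⬝ᵥ h ∧ B c s (rf d x) = B c s x := by
  rw [rf_eq E hd, sub_dotProduct, smul_dotProduct, h0, B_sub_right, B_smul_right, h1]
  simp

lemma pres_A (E : Env Φ S h c s) {d : Fin r → ℝ} (hd : d ∈ Φ) (h0 : d ⬝ᵥ h = 0)
    (h1 : B c s d = 0) {x : Fin r → ℝ} (hx : x ∈ A Φ h c s) : rf d x ∈ A Φ h c s := by
  obtain ⟨h2, h3⟩ := pres E hd h0 h1 x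
  rw [mem_A] at hx ⊢
  rw [h2, h3]
  exact ⟨E.rs.rfl d hd x hx.1, hx.2⟩

lemma pres_F (E : Env Φ S h c s) {d : Fin r → ℝ} (hd : d ∈ Φ) (h0 : d ⬝ᵥ h = 0)
    (h1 : B c s d = 0) {x : Fin r → ℝ} (hx : x ∈ F Φ h c s) : rf d x ∈ F Φ h c s := by
  obtain ⟨h2, h3⟩ := pres E hd h0 h1 x
  rw [mem_F] at hx ⊢
  rw [h2, h3]
  exact ⟨E.rs.rfl d hd x hx.1, hx.2⟩

lemma card_le (E : Env Φ S h c s) {d : Fin r → ℝ} (hd : d ∈ Φ) (h0 : d ⬝ᵥ h = 0)
    (h1 : B c s d = 0) (g : Fin r → ℝ) :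
    (Ag Φ h c s g).card ≤ (Ag Φ h c s (rf d g)).card := by
  refine Finset.card_le_card_of_injOn (rf d) ?_ ?_
  · intro x hx
    rw [Finset.mem_coe, mem_Ag] at hx ⊢
    exact ⟨pres_A E hd h0 h1 hx.1, by rw [rf_iso E hd]; exact hx.2⟩
  · intro x _ y _ hxy
    have := congrArg (rf d) hxy
    rwa [rf_inv E hd, rf_inv E hd] at this

lemma mv (E : Env Φ S h c s) {g i l : Fin r → ℝ} (hg : g ∈ F Φ h c s) (hi : i ∈ A Φ h c s)
    (hl : l ∈ A Φ h c s) (h1 : B c i g = 1) (h2 : B c l g = 0) : g - i + l ∈ F Φ h c s := by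
  have hne : i ≠ l := by
    rintro rfl
    rw [h1] at h2
    norm_num at h2
  have h3 := AA E hi hl hne
  rw [mem_A] at hi hl
  rw [mem_F] at hg ⊢
  have hd := sub_mem E hi.1 hl.1 h3
  have h4 := sub_mem E hg.1 hd (by rw [B_sub_right, B_comm c g i, B_comm c g l, h1, h2]; norm_num)
  have e : g - (i - l) = g - i + l := by abel
  rw [e] at h4
  refine ⟨h4, ?_, ?_⟩
  · rw [add_dotProduct, sub_dotProduct, hg.2.1, hi.2.1, hl.2.1]; norm_num
  · rw [B_add_right, B_sub_right, hg.2.2, hi.2.2, hl.2.2]; norm_num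

lemma two_card (E : Env Φ S h c s) (hgen : St_gen) {g g' : Fin r → ℝ} (hg : g ∈ F Φ h c s)
    (hg' : g' ∈ F Φ h c s) (h0 : B c g g' = 0) :
    (Ag Φ h c s g).card ≤ (Ag Φ h c s g').card := by
  obtain ⟨a, ha, h1⟩ := ne_Ag E hgen hg
  obtain ⟨b, hb, h2⟩ := ne_Ag E hgen hg'
  have h3 : B c b g = 0 := (AF E hb hg).resolve_right fun h => one E hg hg' hb h0 h h2
  have h4 : B c a g' = 0 := (AF E ha hg').resolve_right fun h => one E hg hg' ha h0 h1 h
  have hne : a ≠ b := by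
    rintro rfl
    rw [h1] at h3
    norm_num at h3
  have h5 := AA E ha hb hne
  have ha' := mem_A.1 ha
  have hb' := mem_A.1 hb
  have hg1 := mem_F.1 hg
  have hg2 := mem_F.1 hg'
  have hd := sub_mem E ha'.1 hb'.1 h5
  have hd0 : (a - b) ⬝ᵥ h = 0 := by rw [sub_dotProduct, ha'.2.1, hb'.2.1, sub_self]
  have hd1 : B c s (a - b) = 0 := by rw [B_sub_right, ha'.2.2, hb'.2.2, sub_self]
  have h6 : rf (a - b) g = g - (a - b) := by
    rw [rf_eq E hd, B_sub_right, B_comm c g a, B_comm c g b, h1, h3]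
    simp
  have h7 := pres_F E hd hd0 hd1 hg
  have h8 := card_le E hd hd0 hd1 g
  rw [h6] at h7 h8
  have h7' := mem_F.1 h7
  have h9 : B c (g - (a - b)) g' = 1 := by
    rw [B_sub_left, B_sub_left, h0, h4, h2]; norm_num
  have hd' := sub_mem E h7'.1 hg2.1 h9
  have hd0' : (g - (a - b) - g') ⬝ᵥ h = 0 := by rw [sub_dotProduct, h7'.2.1, hg2.2.1, sub_self]
  have hd1' : B c s (g - (a - b) - g') = 0 := by rw [B_sub_right, h7'.2.2, hg2.2.2, sub_self]
  have h10 := card_le E hd' hd0' hd1' (g - (a - b))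
  have h11 : rf (g - (a - b) - g') (g - (a - b)) = g' := by
    rw [rf_eq E hd', B_sub_right _ _ g', B_self E h7'.1, h9]
    module
  rw [h11] at h10
  exact h8.trans h10

lemma two_le (E : Env Φ S h c s) (hgen : St_gen) {g g' : Fin r → ℝ} (hg : g ∈ F Φ h c s)
    (hg' : g' ∈ F Φ h c s) (h0 : B c g g' = 0) : (Ag Φ h c s g).card ≤ 2 := by
  by_contra hcon
  push Not at hcon
  have h1 := two_card E hgen hg hg' h0
  obtain ⟨a1, a2, a3, m1, m2, m3, n12, n13, n23⟩ := Finset.two_lt_card_iff.1 hcon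
  obtain ⟨b1, k1, b2, k2, n⟩ := Finset.one_lt_card.1 (show 1 < (Ag Φ h c s g').card by omega)
  rw [mem_Ag] at m1 m2 m3 k1 k2
  have z1 : B c b1 g = 0 := (AF E k1.1 hg).resolve_right fun h => one E hg hg' k1.1 h0 h k1.2
  have z2 : B c b2 g = 0 := (AF E k2.1 hg).resolve_right fun h => one E hg hg' k2.1 h0 h k2.2
  have f1 := mv E hg m1.1 k1.1 m1.2 z1
  have f2 := mv E hg m2.1 k2.1 m2.2 z2
  have ne : ∀ a b : Fin r → ℝ, B c a g = 1 → B c b g = 0 → a ≠ b := by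
    rintro a b h1 h2 rfl
    rw [h1] at h2
    norm_num at h2
  have p1 := AA E m1.1 m2.1 n12
  have p2 := AA E m1.1 k2.1 (ne _ _ m1.2 z2)
  have p3 := AA E m2.1 k1.1 (ne _ _ m2.2 z1)
  have p4 := AA E k1.1 k2.1 n
  have p5 := AA E m1.1 m3.1 n13
  have p6 := AA E m2.1 m3.1 n23
  have p7 := AA E m3.1 k1.1 (ne _ _ m3.2 z1)
  have p8 := AA E m3.1 k2.1 (ne _ _ m3.2 z2)
  refine one E f1 f2 m3.1 ?_ ?_ ?_
  · simp only [B_add_left, B_sub_left, B_add_right, B_sub_right, F_self E hg, B_comm c g, m1.2, m2.2,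
      z1, z2, p1, p2, B_comm c b1 a2, p3, p4]
    norm_num
  · simp only [B_add_right, B_sub_right, m3.2, B_comm c a3 a1, p5, p7]
    norm_num
  · simp only [B_add_right, B_sub_right, m3.2, B_comm c a3 a2, p6, p8]
    norm_num

/-- `g` is nonorthogonal exactly to `x`, `y` -/
def Pg (Φ : Finset (Fin r → ℝ)) (h : Fin r → ℝ) (c : ℝ) (s x y g : Fin r → ℝ) : Prop :=
  g ∈ F Φ h c s ∧ B c x g = 1 ∧ B c y g = 1 ∧ ∀ a ∈ A Φ h c s, a ≠ x → a ≠ y → B c a g = 0

lemma Pg_symm {x y g : Fin r → ℝ} (hp : Pg Φ h c s x y g) : Pg Φ h c s y x g :=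
  ⟨hp.1, hp.2.2.1, hp.2.1, fun a ha h1 h2 => hp.2.2.2 a ha h2 h1⟩

lemma Pg_mv (E : Env Φ S h c s) {x y z g : Fin r → ℝ} (hx : x ∈ A Φ h c s) (hy : y ∈ A Φ h c s)
    (hz : z ∈ A Φ h c s) (hxy : x ≠ y) (hzx : z ≠ x) (hzy : z ≠ y) (hp : Pg Φ h c s x y g) :
    Pg Φ h c s z y (g - x + z) := by
  obtain ⟨p1, p2, p3, p4⟩ := hp
  have h0 := p4 z hz hzx hzy
  refine ⟨mv E p1 hx hz p2 h0, ?_, ?_, ?_⟩
  · rw [B_add_right, B_sub_right, h0, AA E hz hx hzx, A_self E hz]; norm_num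
  · rw [B_add_right, B_sub_right, p3, AA E hy hx hxy.symm, AA E hy hz hzy.symm]; norm_num
  · intro a ha h1 h2
    rw [B_add_right, B_sub_right, AA E ha hz h1]
    by_cases h3 : a = x
    · rw [h3, p2, A_self E hx]; norm_num
    · rw [p4 a ha h3 h2, AA E ha hx h3]; norm_num

lemma exP (E : Env Φ S h c s) {x y g : Fin r → ℝ} (hx : x ∈ A Φ h c s) (hy : y ∈ A Φ h c s)
    (hxy : x ≠ y) (hp : Pg Φ h c s x y g) {u v : Fin r → ℝ} (hu : u ∈ A Φ h c s)
    (hv : v ∈ A Φ h c s) (huv : u ≠ v) : ∃ g, Pg Φ h c s u v g := by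
  have step : ∀ x y g z : Fin r → ℝ, x ∈ A Φ h c s → y ∈ A Φ h c s → x ≠ y →
      Pg Φ h c s x y g → z ∈ A Φ h c s → z ≠ y → ∃ g, Pg Φ h c s z y g := by
    intro x y g z hx hy hxy hp hz hzy
    by_cases hzx : z = x
    · exact ⟨g, hzx ▸ hp⟩
    · exact ⟨_, Pg_mv E hx hy hz hxy hzx hzy hp⟩
  by_cases h1 : u = y
  · obtain ⟨g', hg'⟩ := step x y g v hx hy hxy hp hv (by rw [← h1]; exact huv.symm)
    exact ⟨g', by rw [h1]; exact Pg_symm hg'⟩
  · obtain ⟨g', hg'⟩ := step x y g u hx hy hxy hp hu h1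
    obtain ⟨g'', hg''⟩ := step y u g' v hy hu (Ne.symm h1) (Pg_symm hg') hv huv.symm
    exact ⟨g'', Pg_symm hg''⟩

lemma ex_two (hc : 4 ≤ (A Φ h c s).card) (x y : Fin r → ℝ) : ∃ u ∈ A Φ h c s, ∃ v ∈ A Φ h c s,
    u ≠ x ∧ u ≠ y ∧ v ≠ x ∧ v ≠ y ∧ u ≠ v := by
  have h1 : 2 ≤ (((A Φ h c s).erase x).erase y).card := by
    have e1 := Finset.pred_card_le_card_erase (s := A Φ h c s) (a := x)
    have e2 := Finset.pred_card_le_card_erase (s := (A Φ h c s).erase x) (a := y)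
    omega
  obtain ⟨u, hu, v, hv, huv⟩ := Finset.one_lt_card.1 (show 1 < (((A Φ h c s).erase x).erase y).card
    by omega)
  simp only [Finset.mem_erase] at hu hv
  exact ⟨u, hu.2.2, v, hv.2.2, hu.2.1, hu.1, hv.2.1, hv.1, huv⟩

lemma A1 (E : Env Φ S h c s) (hc : 4 ≤ (A Φ h c s).card) {x y g g' : Fin r → ℝ}
    (hx : x ∈ A Φ h c s) (hy : y ∈ A Φ h c s) (hxy : x ≠ y) (hp : Pg Φ h c s x y g)
    (hp' : Pg Φ h c s x y g') : g = g' := by
  obtain ⟨p1, p2, p3, p4⟩ := hp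
  obtain ⟨q1, q2, q3, q4⟩ := hp'
  rcases FF E p1 q1 with h1 | h1 | h1
  · exact (one E p1 q1 hx h1 p2 q2).elim
  · exfalso
    obtain ⟨u, hu, v, hv, n1, n2, n3, n4, n5⟩ := ex_two hc x y
    have f1 := mv E p1 hx hu p2 (p4 u hu n1 n2)
    have f2 := mv E q1 hy hv q3 (q4 v hv n3 n4)
    have e : B c (g - x + u) (g' - y + v) = -1 := by
      simp only [B_add_left, B_sub_left, B_add_right, B_sub_right, h1, B_comm c g y, p3,
        B_comm c g v, p4 v hv n3 n4, q2, AA E hx hy hxy, AA E hx hv n3.symm, q4 u hu n1 n2,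
        AA E hu hy n2, AA E hu hv n5]
      norm_num
    rcases FF E f1 f2 with h2 | h2 | h2
    · rw [e] at h2; norm_num at h2
    · rw [e] at h2; norm_num at h2
    · rw [← h2, F_self E f1] at e; norm_num at e
  · exact h1

lemma A2 (E : Env Φ S h c s) (hgen : St_gen) (hc : 4 ≤ (A Φ h c s).card)
    (hex : ∀ u ∈ A Φ h c s, ∀ v ∈ A Φ h c s, u ≠ v → ∃ g, Pg Φ h c s u v g) {g : Fin r → ℝ}
    (hg : g ∈ F Φ h c s) : ∃ x ∈ A Φ h c s, ∃ y ∈ A Φ h c s, x ≠ y ∧ Pg Φ h c s x y g := by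
  obtain ⟨x, hx, h1⟩ := ne_Ag E hgen hg
  by_cases hm1 : ∀ y ∈ A Φ h c s, y ≠ x → B c y g = 0
  · -- one element
    exfalso
    obtain ⟨y, hy, -, -, n1, -⟩ := ex_two hc x x
    obtain ⟨g', p1, p2, p3, p4⟩ := hex x hx y hy n1.symm
    rcases FF E p1 hg with h2 | h2 | h2
    · exact one E p1 hg hx h2 p2 h1
    · have hg1 := mem_F.1 hg
      have hp1 := mem_F.1 p1
      have hd := sub_mem E hp1.1 hg1.1 h2
      have h3 := pres_A E hd (by rw [sub_dotProduct, hp1.2.1, hg1.2.1, sub_self])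
        (by rw [B_sub_right, hp1.2.2, hg1.2.2, sub_self]) hy
      have h4 : B c y (g' - g) = 1 := by rw [B_sub_right, p3, hm1 y hy n1, sub_zero]
      rw [rf_eq E hd, h4, one_smul] at h3
      have h5 : ∀ t ∈ A Φ h c s, B c (y - (g' - g)) t = 1 := by
        intro t ht
        rw [B_sub_left, B_sub_left, B_comm c g' t, B_comm c g t]
        by_cases h6 : t = y
        · rw [h6, A_self E hy, p3, hm1 y hy n1]; norm_num
        · by_cases h7 : t = x
          · rw [h7, p2, h1, AA E hy hx n1]; norm_num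
          · rw [hm1 t ht h7, p4 t ht h7 h6, AA E hy ht (Ne.symm h6)]; norm_num
      have h6 := h5 _ h3
      rw [A_self E h3] at h6
      norm_num at h6
    · rw [h2, hm1 y hy n1] at p3
      norm_num at p3
  · push Not at hm1
    obtain ⟨y, hy, hyx, hy0⟩ := hm1
    have hy1 : B c y g = 1 := (AF E hy hg).resolve_left hy0
    by_cases hm2 : ∀ a ∈ A Φ h c s, a ≠ x → a ≠ y → B c a g = 0
    · exact ⟨x, hx, y, hy, hyx.symm, hg, h1, hy1, hm2⟩
    · exfalso
      push Not at hm2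
      obtain ⟨k, hk, hkx, hky, hk0⟩ := hm2
      have hk1 : B c k g = 1 := (AF E hk hg).resolve_left hk0
      by_cases hall : ∀ l ∈ A Φ h c s, B c l g = 1
      · obtain ⟨g', p1, p2, p3, p4⟩ := hex x hx y hy hyx.symm
        obtain ⟨u, hu, v, hv, n1, n2, n3, n4, n5⟩ := ex_two hc x y
        rcases FF E hg p1 with h2 | h2 | h2
        · exact one E hg p1 hx h2 h1 p2
        · have hg1 := mem_F.1 hg
          have hp1 := mem_F.1 p1
          have hd := sub_mem E hg1.1 hp1.1 h2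
          have h3 := pres_A E hd (by rw [sub_dotProduct, hp1.2.1, hg1.2.1, sub_self])
            (by rw [B_sub_right, hp1.2.2, hg1.2.2, sub_self]) hu
          have h4 : B c u (g - g') = 1 := by
            rw [B_sub_right, hall u hu, p4 u hu n1 n2, sub_zero]
          rw [rf_eq E hd, h4, one_smul] at h3
          have h5 : B c (u - (g - g')) v = 0 := by
            rw [B_sub_left, B_sub_left, B_comm c g v, B_comm c g' v, hall v hv, p4 v hv n3 n4,
              AA E hu hv n5]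
            norm_num
          by_cases h6 : u - (g - g') = v
          · rw [h6, A_self E hv] at h5; norm_num at h5
          · rw [AA E h3 hv h6] at h5; norm_num at h5
        · have := p4 u hu n1 n2
          rw [← h2, hall u hu] at this
          norm_num at this
      · push Not at hall
        obtain ⟨l, hl, hl0⟩ := hall
        have hl1 : B c l g = 0 := (AF E hl hg).resolve_right hl0
        have hlx : l ≠ x := by rintro rfl; rw [h1] at hl1; norm_num at hl1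
        have hly : l ≠ y := by rintro rfl; rw [hy1] at hl1; norm_num at hl1
        have hlk : l ≠ k := by rintro rfl; rw [hk1] at hl1; norm_num at hl1
        obtain ⟨g', p1, p2, p3, p4⟩ := hex l hl k hk hlk
        rcases FF E hg p1 with h2 | h2 | h2
        · exact one E hg p1 hk h2 hk1 p3
        · have f := mv E hg hx hl h1 hl1
          have h3 : B c (g - x + l) g' = 2 := by
            rw [B_add_left, B_sub_left, h2, p4 x hx hlx.symm hkx.symm, p2]; norm_num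
          have h4 := eq_of_two E (mem_F.1 f).1 (mem_F.1 p1).1 h3
          have h5 := p4 y hy hly.symm hky.symm
          rw [← h4, B_add_right, B_sub_right, hy1, AA E hy hx hyx, AA E hy hl hly.symm] at h5
          norm_num at h5
        · rw [← h2, hl1] at p2
          norm_num at p2

/-! ### case B -/

lemma caseB (E : Env Φ S h c s) {g1 a1 : Fin r → ℝ} (hg1 : g1 ∈ F Φ h c s)
    (ha1 : a1 ∈ A Φ h c s) (h1 : B c a1 g1 = 1) (hu : ∀ a ∈ A Φ h c s, B c a g1 = 1 → a = a1)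
    (hno : ∀ g ∈ F Φ h c s, ∀ g' ∈ F Φ h c s, ∀ x ∈ A Φ h c s, ∀ y ∈ A Φ h c s, x ≠ y →
      B c x g = 1 → B c y g = 1 → B c g g' ≠ 0) :
    ∀ g ∈ F Φ h c s, ∀ x ∈ A Φ h c s, ∀ y ∈ A Φ h c s, B c x g = 1 → B c y g = 1 → x = y := by
  -- the basic reflection
  have key : ∀ g ∈ F Φ h c s, ∀ x ∈ A Φ h c s, ∀ y ∈ A Φ h c s, x ≠ y → B c x g = 1 →
      B c y g = 1 → ∀ z ∈ A Φ h c s, z ≠ a1 → B c z g = 1 → g ≠ g1 →
      B c a1 g = 0 ∧ z - (g - g1) = a1 := by
    intro g hg x hx y hy hxy hx1 hy1 z hz hza hz1 hne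
    have h2 : B c g g1 = 1 := by
      rcases FF E hg hg1 with h | h | h
      · exact absurd h (hno g hg g1 hg1 x hx y hy hxy hx1 hy1)
      · exact h
      · exact absurd h hne
    have hg' := mem_F.1 hg
    have hg1' := mem_F.1 hg1
    have hd := sub_mem E hg'.1 hg1'.1 h2
    have h3 := pres_A E hd (by rw [sub_dotProduct, hg'.2.1, hg1'.2.1, sub_self])
      (by rw [B_sub_right, hg'.2.2, hg1'.2.2, sub_self]) hz
    have hz0 : B c z g1 = 0 := (AF E hz hg1).resolve_right fun h => hza (hu z hz h)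
    have h4 : B c z (g - g1) = 1 := by rw [B_sub_right, hz1, hz0, sub_zero]
    rw [rf_eq E hd, h4, one_smul] at h3
    have h5 : B c (z - (g - g1)) g - B c (z - (g - g1)) g1 = -1 := by
      rw [← B_sub_right, B_sub_left, h4, B_self E hd]; norm_num
    have h6 : B c (z - (g - g1)) g1 = 1 := by
      rcases AF E h3 hg with h | h <;> rcases AF E h3 hg1 with h' | h' <;> linarith
    have h7 := hu _ h3 h6
    refine ⟨?_, h7⟩
    rw [h6, h7] at h5
    linarith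
  have neg1 : ∀ g : Fin r → ℝ, ∀ x ∈ A Φ h c s, x ≠ a1 → B c x g = 1 → g ≠ g1 := by
    rintro g x hx hxa hx1 rfl
    exact hxa (hu x hx hx1)
  -- first step
  have B1 : ∀ g ∈ F Φ h c s, ∀ x ∈ A Φ h c s, ∀ y ∈ A Φ h c s, x ≠ y → B c x g = 1 →
      B c y g = 1 → B c a1 g = 1 := by
    intro g hg x hx y hy hxy hx1 hy1
    rcases AF E ha1 hg with h0 | h0
    · exfalso
      have hxa : x ≠ a1 := by rintro rfl; rw [h0] at hx1; norm_num at hx1
      have hya : y ≠ a1 := by rintro rfl; rw [h0] at hy1; norm_num at hy1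
      have hne := neg1 g x hx hxa hx1
      have e1 := (key g hg x hx y hy hxy hx1 hy1 x hx hxa hx1 hne).2
      have e2 := (key g hg x hx y hy hxy hx1 hy1 y hy hya hy1 hne).2
      exact hxy (sub_left_injective (e1.trans e2.symm))
    · exact h0
  intro g hg x hx y hy hx1 hy1
  by_contra hxy
  have h0 := B1 g hg x hx y hy hxy hx1 hy1
  -- an element different from `a1`
  obtain ⟨z, hz, hza, hz1⟩ : ∃ z ∈ A Φ h c s, z ≠ a1 ∧ B c z g = 1 := by
    by_cases hxa : x = a1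
    · exact ⟨y, hy, fun h => hxy (hxa.trans h.symm), hy1⟩
    · exact ⟨x, hx, hxa, hx1⟩
  have hne := neg1 g z hz hza hz1
  have h2 := (key g hg x hx y hy hxy hx1 hy1 z hz hza hz1 hne).1
  rw [h0] at h2
  norm_num at h2

lemma no_orth (E : Env Φ S h c s) (hgen : St_gen) (hF : (F Φ h c s).Nonempty)
    (hu : ∀ g ∈ F Φ h c s, ∀ x ∈ A Φ h c s, ∀ y ∈ A Φ h c s, B c x g = 1 → B c y g = 1 → x = y)
    {a b : Fin r → ℝ} (ha : a ∈ A Φ h c s) (hb : b ∈ Φ) (hb1 : b ⬝ᵥ h = 1) : B c a b ≠ 0 := by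
  intro h0
  rcases pos1 E hb hb1 with h1 | h1
  · obtain ⟨a', ha', g, hg, h2, h3⟩ := gen_b E hgen hF hb hb1 h1
    rw [h2, B_sub_right] at h0
    have hne : a ≠ a' := by
      rintro rfl
      rw [A_self E ha, h3] at h0
      norm_num at h0
    rw [AA E ha ha' hne] at h0
    exact hne (hu g hg a ha a' ha' (by linarith) h3)
  · by_cases h2 : a = b
    · rw [h2, B_self E hb] at h0
      norm_num at h0
    · rw [AA E ha (mem_A.2 ⟨hb, hb1, h1⟩) h2] at h0
      norm_num at h0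

/-- the conclusion of case B -/
lemma No0_of (E : Env Φ S h c s) (hwtr : St_wtr) (hpai : St_pai)
    (hs : ∀ a ∈ A Φ h c s, ∀ b ∈ Φ, b ⬝ᵥ h = 1 → B c a b ≠ 0) : No0 Φ h := by
  intro α hα β hβ h1 h2 h3
  obtain ⟨s', hs', h4⟩ := (hpai r Φ h S E.rs E.mw).1 α hα
  rw [pr_eq E hα] at h4
  have hmax : ∀ t ∈ S, t ⬝ᵥ h ≤ s' ⬝ᵥ h := by
    intro t ht
    have h5 := subS E hs' hα h4
    obtain ⟨u, hu⟩ := E.mw.two
    have h6 := hu _ hs'
    have h7 := hu _ h5
    have h8 := hu _ ht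
    rw [sub_dotProduct, h1] at h7
    rcases h6 with h6 | h6 <;> rcases h7 with h7 | h7 <;> rcases h8 with h8 | h8 <;> linarith
  have key := hwtr r Φ h S E.rs E.mw ⟨c, E.nrm⟩
    (S.filter fun t => (∀ t' ∈ S, t' ⬝ᵥ h ≤ t ⬝ᵥ h) ∧
      ∀ a ∈ A Φ h c t, ∀ b ∈ Φ, b ⬝ᵥ h = 1 → B c a b ≠ 0)
    (Finset.filter_subset _ _) ⟨s, Finset.mem_filter.2 ⟨E.hs, E.max, hs⟩⟩
    (fun t ht => (Finset.mem_filter.1 ht).2.1) ?_ s' hs' hmax
  · have h5 := (Finset.mem_filter.1 key).2.2 α (mem_A.2 ⟨hα, h1, h4⟩) β hβ h2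
    apply h5
    unfold B
    rw [h3]
    simp
  · intro γ hγ h0 t ht
    rw [Finset.mem_filter] at ht ⊢
    obtain ⟨ht1, ht2, ht3⟩ := ht
    have hrh : ∀ x : Fin r → ℝ, rf γ x ⬝ᵥ h = x ⬝ᵥ h := by
      intro x
      rw [rf_eq E hγ, sub_dotProduct, smul_dotProduct, h0]
      simp
    refine ⟨E.mw.rfl γ hγ t ht1, fun t' ht' => by rw [hrh]; exact ht2 t' ht', ?_⟩
    intro a ha b hb hb1 h5
    rw [mem_A] at ha
    refine ht3 (rf γ a) ?_ (rf γ b) (E.rs.rfl γ hγ b hb) (by rw [hrh]; exact hb1)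
      (by rw [rf_iso E hγ]; exact h5)
    rw [mem_A]
    refine ⟨E.rs.rfl γ hγ a ha.1, by rw [hrh]; exact ha.2.1, ?_⟩
    rw [← rf_iso E hγ, rf_inv E hγ]
    exact ha.2.2

/-! ### case A -/

lemma pair_ind {P : (Fin r → ℝ) → (Fin r → ℝ) → Prop} (T : Finset (Fin r → ℝ))
    (hsymm : ∀ x y, P x y → P y x)
    (hstep : ∀ x ∈ T, ∀ y ∈ T, ∀ z ∈ T, x ≠ y → z ≠ x → z ≠ y → P x y → P z y)
    {x y : Fin r → ℝ} (hx : x ∈ T) (hy : y ∈ T) (hxy : x ≠ y) (hp : P x y) {u v : Fin r → ℝ}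
    (hu : u ∈ T) (hv : v ∈ T) (huv : u ≠ v) : P u v := by
  have step : ∀ x y z : Fin r → ℝ, x ∈ T → y ∈ T → x ≠ y → P x y → z ∈ T → z ≠ y → P z y := by
    intro x y z hx hy hxy hp hz hzy
    by_cases hzx : z = x
    · exact hzx ▸ hp
    · exact hstep x hx y hy z hz hxy hzx hzy hp
  by_cases h1 : u = y
  · have h2 := step x y v hx hy hxy hp hv (by rw [← h1]; exact huv.symm)
    rw [h1]
    exact hsymm _ _ h2
  · have h2 := step x y u hx hy hxy hp hu h1
    have h3 := step y u v hy hu (Ne.symm h1) (hsymm _ _ h2) hv huv.symm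
    exact hsymm _ _ h3

/-- the data of case A -/
structure Dat (Φ : Finset (Fin r → ℝ)) (h : Fin r → ℝ) (c : ℝ) (s z : Fin r → ℝ) : Prop where
  zz : B c z z = 4
  za : ∀ a ∈ A Φ h c s, B c z a = 2
  zh : z ⬝ᵥ h = 2
  sz : B c s z = 1
  ex : ∀ u ∈ A Φ h c s, ∀ v ∈ A Φ h c s, u ≠ v → u + v - z ∈ Φ ∧ B c u (u + v - z) = 1
  un : ∀ g ∈ F Φ h c s, ∃ u ∈ A Φ h c s, ∃ v ∈ A Φ h c s, u ≠ v ∧ g = u + v - z ∧
    ∀ a ∈ A Φ h c s, a ≠ u → a ≠ v → B c a g = 0

lemma exDat (E : Env Φ S h c s) (hgen : St_gen) (hc : 4 ≤ (A Φ h c s).card) {x y g : Fin r → ℝ}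
    (hx : x ∈ A Φ h c s) (hy : y ∈ A Φ h c s) (hxy : x ≠ y) (hp : Pg Φ h c s x y g) :
    Dat Φ h c s (x + y - g) := by
  have hex : ∀ u ∈ A Φ h c s, ∀ v ∈ A Φ h c s, u ≠ v → ∃ g, Pg Φ h c s u v g :=
    fun u hu v hv huv => exP E hx hy hxy hp hu hv huv
  have hZ : ∀ u ∈ A Φ h c s, ∀ v ∈ A Φ h c s, u ≠ v → ∀ g', Pg Φ h c s u v g' →
      g' = u + v - (x + y - g) := by
    intro u hu v hv huv
    refine pair_ind (P := fun u v => ∀ g', Pg Φ h c s u v g' → g' = u + v - (x + y - g))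
      (A Φ h c s) ?_ ?_ hx hy hxy ?_ hu hv huv
    · intro a b hab g' hg'
      rw [hab g' (Pg_symm hg')]
      abel
    · intro a ha b hb w hw hab hwa hwb hP g' hg'
      obtain ⟨g'', hg''⟩ := hex a ha b hb hab
      have h1 := Pg_mv E ha hb hw hab hwa hwb hg''
      have h2 := A1 E hc hw hb hwb hg' h1
      rw [h2, hP g'' hg'']
      abel
    · intro g' hg'
      rw [A1 E hc hx hy hxy hg' hp]
      abel
  obtain ⟨p1, p2, p3, p4⟩ := hp
  have hx' := mem_A.1 hx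
  have hy' := mem_A.1 hy
  have hg' := mem_F.1 p1
  have hxy1 := AA E hx hy hxy
  have hyx1 := AA E hy hx hxy.symm
  refine ⟨?_, ?_, ?_, ?_, ?_, ?_⟩
  · simp only [B_add_left, B_sub_left, B_add_right, B_sub_right, A_self E hx, A_self E hy,
      F_self E p1, hxy1, hyx1, p2, p3, B_comm c g x, B_comm c g y]
    norm_num
  · intro a ha
    rw [B_sub_left, B_add_left, B_comm c g a]
    by_cases h1 : a = x
    · rw [h1, A_self E hx, hyx1, p2]; norm_num
    · by_cases h2 : a = y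
      · rw [h2, A_self E hy, hxy1, p3]; norm_num
      · rw [AA E hx ha (Ne.symm h1), AA E hy ha (Ne.symm h2), p4 a ha h1 h2]; norm_num
  · rw [sub_dotProduct, add_dotProduct, hx'.2.1, hy'.2.1, hg'.2.1]; norm_num
  · rw [B_sub_right, B_add_right, hx'.2.2, hy'.2.2, hg'.2.2]; norm_num
  · intro u hu v hv huv
    obtain ⟨g', hg'⟩ := hex u hu v hv huv
    rw [← hZ u hu v hv huv g' hg']
    exact ⟨(mem_F.1 hg'.1).1, hg'.2.1⟩
  · intro g' hg'
    obtain ⟨u, hu, v, hv, huv, hP⟩ := A2 E hgen hc hex hg'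
    exact ⟨u, hu, v, hv, huv, hZ u hu v hv huv g' hP, hP.2.2.2⟩

section dat

variable {z : Fin r → ℝ}

lemma zsub (E : Env Φ S h c s) (hc : 4 ≤ (A Φ h c s).card) (D : Dat Φ h c s z) {a : Fin r → ℝ}
    (ha : a ∈ A Φ h c s) : z - a ∈ Φ := by
  obtain ⟨u, hu, -, -, h1, -⟩ := ex_two hc a a
  obtain ⟨h2, h3⟩ := D.ex u hu a ha h1
  have h4 := sub_mem E (mem_A.1 hu).1 h2 h3
  have e : u - (u + a - z) = z - a := by abel
  rwa [e] at h4

lemma R1 (E : Env Φ S h c s) (hgen : St_gen) (hF : (F Φ h c s).Nonempty) (D : Dat Φ h c s z)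
    {b : Fin r → ℝ} (hb : b ∈ Φ) (h1 : b ⬝ᵥ h = 1) : ∃ a ∈ A Φ h c s, b = a ∨ b = z - a := by
  rcases pos1 E hb h1 with h2 | h2
  · obtain ⟨a, ha, g, hg, h3, h4⟩ := gen_b E hgen hF hb h1 h2
    obtain ⟨u, hu, v, hv, huv, h5, h6⟩ := D.un g hg
    by_cases h7 : a = u
    · exact ⟨v, hv, Or.inr (by rw [h3, h5, h7]; abel)⟩
    · by_cases h8 : a = v
      · exact ⟨u, hu, Or.inr (by rw [h3, h5, h8]; abel)⟩
      · rw [h6 a ha h7 h8] at h4
        norm_num at h4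
  · exact ⟨b, mem_A.2 ⟨hb, h1, h2⟩, Or.inl rfl⟩

lemma R0 (E : Env Φ S h c s) (hgen : St_gen) (hF : (F Φ h c s).Nonempty) (D : Dat Φ h c s z)
    {γ : Fin r → ℝ} (hγ : γ ∈ Φ) (h1 : γ ⬝ᵥ h = 0) : ∃ u ∈ A Φ h c s, ∃ v ∈ A Φ h c s, u ≠ v ∧
      (γ = u - v ∨ γ = u + v - z ∨ γ = z - u - v) := by
  obtain ⟨a, ha, b, hb, h2, h3, h4⟩ := hgen r Φ h E.rs (lin h) (fun γ hγ => E.rs.lev γ hγ)
    E.rs.ex γ hγ h1
  obtain ⟨u, hu, h5⟩ := R1 E hgen hF D ha h2
  obtain ⟨v, hv, h6⟩ := R1 E hgen hF D hb h3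
  have hself := B_self E hγ
  have hzero : γ ≠ 0 := by
    rintro rfl
    exact E.rs.z hγ
  have hu4 : B c (u + u - z) (u + u - z) = 4 := by
    simp only [B_add_left, B_sub_left, B_add_right, B_sub_right, A_self E hu, D.zz, D.za u hu,
      B_comm c u z]
    norm_num
  rcases h5 with h5 | h5 <;> rcases h6 with h6 | h6 <;> rw [h5, h6] at h4
  · refine ⟨u, hu, v, hv, ?_, Or.inl h4⟩
    rintro rfl
    exact hzero (by rw [h4]; abel)
  · refine ⟨u, hu, v, hv, ?_, Or.inr (Or.inl (by rw [h4]; abel))⟩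
    rintro rfl
    rw [h4, show u - (z - u) = u + u - z by abel, hu4] at hself
    norm_num at hself
  · refine ⟨u, hu, v, hv, ?_, Or.inr (Or.inr h4)⟩
    rintro rfl
    rw [h4, show z - u - u = -(u + u - z) by abel, B_neg_left, B_neg_right, hu4] at hself
    norm_num at hself
  · refine ⟨v, hv, u, hu, ?_, Or.inl (by rw [h4]; abel)⟩
    rintro rfl
    exact hzero (by rw [h4]; abel)

end dat

/-! ### orthonormal bases -/

lemma B_sum {n : ℕ} {e : Fin n → Fin r → ℝ}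
    (hG : ∀ i j, B c (e i) (e j) = if i = j then 1 else 0) (t : Fin n → ℝ) (j : Fin n) :
    B c (∑ k, t k • e k) (e j) = t j := by
  have h1 : B c (∑ k, t k • e k) (e j) = ∑ k, t k * B c (e k) (e j) := by
    unfold B
    rw [sum_dotProduct, Finset.mul_sum, Finset.sum_div]
    refine Finset.sum_congr rfl fun k _ => ?_
    rw [smul_dotProduct, smul_eq_mul]
    ring
  rw [h1]
  simp [hG]

lemma Dro_sgn {n : ℕ} {e : Fin n → Fin r → ℝ} {γ : Fin r → ℝ} (hd : Dro e γ) :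
    ∃ i j, i ≠ j ∧ ∃ a b : ℤ, (a = 1 ∨ a = -1) ∧ (b = 1 ∨ b = -1) ∧
      γ = (a : ℝ) • e i + (b : ℝ) • e j := by
  obtain ⟨i, j, hij, h1 | h1 | h1⟩ := hd
  · exact ⟨i, j, hij, 1, 1, Or.inl rfl, Or.inl rfl, by rw [h1]; push_cast; module⟩
  · exact ⟨i, j, hij, 1, -1, Or.inl rfl, Or.inr rfl, by rw [h1]; push_cast; module⟩
  · exact ⟨i, j, hij, -1, -1, Or.inr rfl, Or.inr rfl, by rw [h1]; push_cast; module⟩

/-- the new signs -/
def upd {n : ℕ} (τ : Fin n → ℤ) (i j : Fin n) (p q : ℤ) : Fin n → ℤ :=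
  fun k => if k = i then p else if k = j then q else τ k

lemma upd_prod {n : ℕ} (τ : Fin n → ℤ) {i j : Fin n} (hij : i ≠ j) (p q : ℤ)
    (hpq : p * q = τ i * τ j) : ∏ k, upd τ i j p q k = ∏ k, τ k := by
  have hj : j ∈ Finset.univ.erase i := by simp [hij.symm]
  have e1 : ∀ f : Fin n → ℤ, ∏ k, f k = (f i * f j) * ∏ k ∈ (Finset.univ.erase i).erase j, f k := by
    intro f
    rw [← Finset.mul_prod_erase Finset.univ f (Finset.mem_univ i),
      ← Finset.mul_prod_erase (Finset.univ.erase i) f hj, mul_assoc]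
  rw [e1, e1 τ, ← hpq]
  congr 1
  · unfold upd
    rw [if_pos rfl, if_neg hij.symm, if_pos rfl]
  · refine Finset.prod_congr rfl fun k hk => ?_
    simp only [Finset.mem_erase] at hk
    unfold upd
    rw [if_neg hk.2.1, if_neg hk.1]

lemma upd_sgn {n : ℕ} {τ : Fin n → ℤ} (hτ : ∀ i, τ i = 1 ∨ τ i = -1) {i j : Fin n} {p q : ℤ}
    (hp : p = 1 ∨ p = -1) (hq : q = 1 ∨ q = -1) : ∀ k, upd τ i j p q k = 1 ∨ upd τ i j p q k = -1 := by
  intro k
  unfold upd
  split_ifs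
  · exact hp
  · exact hq
  · exact hτ k

lemma upd_sum {n : ℕ} (e : Fin n → Fin r → ℝ) (τ : Fin n → ℤ) {i j : Fin n} (hij : i ≠ j)
    (p q : ℤ) : ∑ k, ((upd τ i j p q k : ℝ) / 2) • e k = ∑ k, ((τ k : ℝ) / 2) • e k +
      (((p : ℝ) - τ i) / 2) • e i + (((q : ℝ) - τ j) / 2) • e j := by
  have h1 : ∀ k, ((upd τ i j p q k : ℝ) / 2) • e k = ((τ k : ℝ) / 2) • e k +
      (if k = i then (((p : ℝ) - τ i) / 2) • e i else 0) +
      (if k = j then (((q : ℝ) - τ j) / 2) • e j else 0) := by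
    intro k
    unfold upd
    by_cases h1 : k = i
    · subst h1
      rw [if_pos rfl, if_pos rfl, if_neg hij]
      module
    · by_cases h2 : k = j
      · subst h2
        rw [if_neg h1, if_pos rfl, if_neg h1, if_pos rfl]
        module
      · rw [if_neg h1, if_neg h2, if_neg h1, if_neg h2]
        module
  rw [Finset.sum_congr rfl fun k _ => h1 k, Finset.sum_add_distrib, Finset.sum_add_distrib]
  simp

lemma Hsp_rf (E : Env Φ S h c s) {n : ℕ} {e : Fin n → Fin r → ℝ}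
    (hG : ∀ i j, B c (e i) (e j) = if i = j then 1 else 0) {γ x : Fin r → ℝ} (hγ : γ ∈ Φ)
    (hd : Dro e γ) (hx : Hsp e x) : Hsp e (rf γ x) := by
  obtain ⟨i, j, hij, a, b, ha, hb, h1⟩ := Dro_sgn hd
  obtain ⟨τ, hτ, hpr, h2⟩ := hx
  refine ⟨upd τ i j (-a * b * τ j) (-a * b * τ i), upd_sgn hτ ?_ ?_, ?_, ?_⟩
  · rcases ha with rfl | rfl <;> rcases hb with rfl | rfl <;> rcases hτ j with h | h <;>
      rw [h] <;> norm_num
  · rcases ha with rfl | rfl <;> rcases hb with rfl | rfl <;> rcases hτ i with h | h <;>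
      rw [h] <;> norm_num
  · rw [upd_prod τ hij, hpr]
    rcases ha with rfl | rfl <;> rcases hb with rfl | rfl <;> ring
  · have h3 : B c x γ = (a * τ i + b * τ j) / 2 := by
      rw [h1, B_add_right, B_smul_right, B_smul_right, h2, B_sum hG, B_sum hG]
      ring
    rw [rf_eq E hγ, h3, upd_sum e τ hij, ← h2, h1]
    push_cast
    have ha2 : (a : ℝ) * a = 1 := by
      rcases ha with rfl | rfl <;> norm_num
    have hb2 : (b : ℝ) * b = 1 := by
      rcases hb with rfl | rfl <;> norm_num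
    have e1 : (-(a : ℝ) * b * τ j - τ i) / 2 = -((a * τ i + b * τ j) / 2 * a) := by
      linear_combination (τ i : ℝ) / 2 * ha2
    have e2 : (-(a : ℝ) * b * τ i - τ j) / 2 = -((a * τ i + b * τ j) / 2 * b) := by
      linear_combination (τ j : ℝ) / 2 * hb2
    rw [e1, e2]
    module

lemma Hsp_mem (E : Env Φ S h c s) {n : ℕ} {e : Fin n → Fin r → ℝ}
    (hG : ∀ i j, B c (e i) (e j) = if i = j then 1 else 0)
    (hroot : ∀ i j, i ≠ j → e i + e j ∈ Φ) (hs : s = ∑ k, ((1 : ℝ) / 2) • e k) :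
    ∀ (N : ℕ) (τ : Fin n → ℤ), (∀ i, τ i = 1 ∨ τ i = -1) → ∏ i, τ i = 1 →
      (Finset.univ.filter fun k => τ k = -1).card = N → ∑ k, ((τ k : ℝ) / 2) • e k ∈ S := by
  intro N
  induction N using Nat.strong_induction_on with
  | _ N ih =>
    intro τ hτ hpr hN
    by_cases h0 : ∀ k, τ k = 1
    · have h1 : ∑ k, ((τ k : ℝ) / 2) • e k = s := by
        rw [hs]
        refine Finset.sum_congr rfl fun k _ => ?_
        rw [h0 k]
        norm_num
      rw [h1]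
      exact E.hs
    · push Not at h0
      obtain ⟨i, hi⟩ := h0
      have hi' : τ i = -1 := (hτ i).resolve_left hi
      obtain ⟨j, hj, hj'⟩ : ∃ j, j ≠ i ∧ τ j = -1 := by
        by_contra hcon
        push Not at hcon
        have h1 := Finset.mul_prod_erase Finset.univ τ (Finset.mem_univ i)
        have h2 : ∏ k ∈ Finset.univ.erase i, τ k = 1 := by
          refine Finset.prod_eq_one fun k hk => ?_
          exact (hτ k).resolve_right (hcon k (Finset.ne_of_mem_erase hk))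
        rw [h2, hi', hpr] at h1
        norm_num at h1
      have hlt : (Finset.univ.filter fun k => upd τ i j 1 1 k = -1).card < N := by
        rw [← hN]
        refine Finset.card_lt_card ?_
        rw [Finset.ssubset_iff_of_subset]
        · refine ⟨i, by simp [hi'], fun hh => ?_⟩
          have h7 := (Finset.mem_filter.1 hh).2
          unfold upd at h7
          rw [if_pos rfl] at h7
          norm_num at h7
        · intro k hk
          rw [Finset.mem_filter] at hk ⊢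
          refine ⟨Finset.mem_univ _, ?_⟩
          have h7 := hk.2
          unfold upd at h7
          by_cases k1 : k = i
          · rw [if_pos k1] at h7
            norm_num at h7
          · by_cases k2 : k = j
            · rw [if_neg k1, if_pos k2] at h7
              norm_num at h7
            · rwa [if_neg k1, if_neg k2] at h7
      have h3 := ih _ hlt (upd τ i j 1 1) (upd_sgn hτ (Or.inl rfl) (Or.inl rfl))
        (by rw [upd_prod τ hj.symm 1 1 (by rw [hi', hj']; norm_num), hpr]) rfl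
      have h4 : B c (∑ k, ((upd τ i j 1 1 k : ℝ) / 2) • e k) (e i + e j) = 1 := by
        rw [B_add_right, B_sum hG, B_sum hG]
        unfold upd
        rw [if_pos rfl, if_neg hj, if_pos rfl]
        norm_num
      have h5 := subS E h3 (hroot i j hj.symm) h4
      rw [upd_sum e τ hj.symm, hi', hj'] at h5
      have e1 : ∑ k, ((τ k : ℝ) / 2) • e k + ((((1 : ℤ) : ℝ) - ((-1 : ℤ) : ℝ)) / 2) • e i +
          ((((1 : ℤ) : ℝ) - ((-1 : ℤ) : ℝ)) / 2) • e j - (e i + e j) =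
          ∑ k, ((τ k : ℝ) / 2) • e k := by
        push_cast
        module
      rwa [e1] at h5

lemma caseA (E : Env Φ S h c s) (hgen : St_gen) (hF : (F Φ h c s).Nonempty)
    (hc : 4 ≤ (A Φ h c s).card) {z : Fin r → ℝ} (D : Dat Φ h c s z) : Ty4 Φ h S := by
  have hcp := cpos E
  set m := (A Φ h c s).card with hm
  set al : Fin m → Fin r → ℝ := fun j => ((A Φ h c s).equivFin.symm j : Fin r → ℝ) with hal
  have alm : ∀ j, al j ∈ A Φ h c s := fun j => ((A Φ h c s).equivFin.symm j).2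
  have ali : ∀ i j, al i = al j → i = j := by
    intro i j hij
    exact (A Φ h c s).equivFin.symm.injective (Subtype.ext hij)
  have als : ∀ a ∈ A Φ h c s, ∃ j, al j = a := by
    intro a ha
    refine ⟨(A Φ h c s).equivFin ⟨a, ha⟩, ?_⟩
    simp [hal]
  set e : Fin (m + 1) → Fin r → ℝ :=
    Fin.cons ((1 / 2 : ℝ) • z) (fun j => al j - (1 / 2 : ℝ) • z) with he
  have e0 : e 0 = (1 / 2 : ℝ) • z := by rw [he, Fin.cons_zero]
  have es : ∀ j : Fin m, e j.succ = al j - (1 / 2 : ℝ) • z := fun j => by rw [he, Fin.cons_succ]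
  have hza : ∀ j, B c z (al j) = 2 := fun j => D.za _ (alm j)
  have haz : ∀ j, B c (al j) z = 2 := fun j => by rw [B_comm]; exact hza j
  have hG : ∀ i j, B c (e i) (e j) = if i = j then 1 else 0 := by
    intro i j
    refine Fin.cases ?_ (fun i => ?_) i <;> refine Fin.cases ?_ (fun j => ?_) j
    · rw [e0, B_smul_left, B_smul_right, D.zz, if_pos rfl]; norm_num
    · rw [e0, es, B_smul_left, B_sub_right, B_smul_right, D.zz, hza,
        if_neg (Fin.succ_ne_zero j).symm]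
      norm_num
    · rw [e0, es, B_smul_right, B_sub_left, B_smul_left, D.zz, haz, if_neg (Fin.succ_ne_zero i)]
      norm_num
    · rw [es, es]
      simp only [B_sub_left, B_sub_right, B_smul_left, B_smul_right, D.zz, hza, haz]
      by_cases hij : i = j
      · subst hij
        rw [if_pos rfl, A_self E (alm i)]
        norm_num
      · rw [if_neg (by rwa [Fin.succ_inj]), AA E (alm i) (alm j) fun h => hij (ali i j h)]
        norm_num
  -- the roots
  have hmem : ∀ x, Dro e x → x ∈ Φ := by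
    have plus : ∀ i j, i ≠ j → e i + e j ∈ Φ := by
      intro i j
      refine Fin.cases ?_ (fun i => ?_) i <;> refine Fin.cases ?_ (fun j => ?_) j <;> intro hij
      · exact absurd rfl hij
      · rw [e0, es, show (1 / 2 : ℝ) • z + (al j - (1 / 2 : ℝ) • z) = al j by abel]
        exact (mem_A.1 (alm j)).1
      · rw [e0, es, show al i - (1 / 2 : ℝ) • z + (1 / 2 : ℝ) • z = al i by abel]
        exact (mem_A.1 (alm i)).1
      · have h1 := (D.ex _ (alm i) _ (alm j) fun h => hij (by rw [ali i j h])).1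
        rw [es, es, show al i - (1 / 2 : ℝ) • z + (al j - (1 / 2 : ℝ) • z) = al i + al j - z by
          module]
        exact h1
    have minus : ∀ i j, i ≠ j → e i - e j ∈ Φ := by
      intro i j
      refine Fin.cases ?_ (fun i => ?_) i <;> refine Fin.cases ?_ (fun j => ?_) j <;> intro hij
      · exact absurd rfl hij
      · rw [e0, es, show (1 / 2 : ℝ) • z - (al j - (1 / 2 : ℝ) • z) = z - al j by module]
        exact zsub E hc D (alm j)
      · rw [e0, es, show al i - (1 / 2 : ℝ) • z - (1 / 2 : ℝ) • z = -(z - al i) by module]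
        exact E.rs.neg _ (zsub E hc D (alm i))
      · rw [es, es, show al i - (1 / 2 : ℝ) • z - (al j - (1 / 2 : ℝ) • z) = al i - al j by abel]
        exact sub_mem E (mem_A.1 (alm i)).1 (mem_A.1 (alm j)).1
          (AA E (alm i) (alm j) fun h => hij (by rw [ali i j h]))
    rintro x ⟨i, j, hij, h1 | h1 | h1⟩
    · rw [h1]; exact plus i j hij
    · rw [h1]; exact minus i j hij
    · rw [h1, show -e i - e j = -(e i + e j) by abel]
      exact E.rs.neg _ (plus i j hij)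
  have hD1 : ∀ γ ∈ Φ, γ ⬝ᵥ h = 1 → ∃ j : Fin m, γ = e 0 + e j.succ ∨ γ = e 0 - e j.succ := by
    intro γ hγ h1
    obtain ⟨a, ha, h2⟩ := R1 E hgen hF D hγ h1
    obtain ⟨j, rfl⟩ := als a ha
    refine ⟨j, ?_⟩
    rcases h2 with h2 | h2
    · left; rw [h2, e0, es]; abel
    · right; rw [h2, e0, es]; module
  have hDro : ∀ x, x ∈ Φ ↔ Dro e x := by
    intro x
    refine ⟨fun hx => ?_, hmem x⟩
    rcases E.rs.lev x hx with h1 | h1 | h1
    · obtain ⟨u, hu, v, hv, huv, h2⟩ := R0 E hgen hF D hx h1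
      obtain ⟨i, rfl⟩ := als u hu
      obtain ⟨j, rfl⟩ := als v hv
      have hij : i.succ ≠ j.succ := by
        intro h
        exact huv (by rw [Fin.succ_inj.1 h])
      rcases h2 with h2 | h2 | h2
      · exact ⟨i.succ, j.succ, hij, Or.inr (Or.inl (by rw [h2, es, es]; abel))⟩
      · exact ⟨i.succ, j.succ, hij, Or.inl (by rw [h2, es, es]; module)⟩
      · exact ⟨i.succ, j.succ, hij, Or.inr (Or.inr (by rw [h2, es, es]; module))⟩
    · obtain ⟨j, h2 | h2⟩ := hD1 x hx h1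
      · exact ⟨0, j.succ, (Fin.succ_ne_zero j).symm, Or.inl h2⟩
      · exact ⟨0, j.succ, (Fin.succ_ne_zero j).symm, Or.inr (Or.inl h2)⟩
    · obtain ⟨j, h2 | h2⟩ := hD1 (-x) (E.rs.neg x hx) (by rw [neg_dotProduct, h1]; norm_num)
      · exact ⟨0, j.succ, (Fin.succ_ne_zero j).symm, Or.inr (Or.inr (by
          rw [← neg_neg x, h2]; abel))⟩
      · exact ⟨j.succ, 0, Fin.succ_ne_zero j, Or.inr (Or.inl (by rw [← neg_neg x, h2]; abel))⟩
  -- the span
  have hspan : Submodule.span ℝ (Set.range e) = ⊤ := by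
    rw [eq_top_iff, ← E.rs.spn, Submodule.span_le]
    intro x hx
    have hr : ∀ i, e i ∈ Submodule.span ℝ (Set.range e) := fun i =>
      Submodule.subset_span ⟨i, rfl⟩
    obtain ⟨i, j, -, h1 | h1 | h1⟩ := (hDro x).1 hx
    · rw [h1]; exact Submodule.add_mem _ (hr i) (hr j)
    · rw [h1]; exact Submodule.sub_mem _ (hr i) (hr j)
    · rw [h1]; exact Submodule.sub_mem _ (Submodule.neg_mem _ (hr i)) (hr j)
  have hse : ∀ j, B c s (e j) = 1 / 2 := by
    intro j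
    refine Fin.cases ?_ (fun j => ?_) j
    · rw [e0, B_smul_right, D.sz]; norm_num
    · rw [es, B_sub_right, B_smul_right, D.sz, (mem_A.1 (alm j)).2.2]; norm_num
  have hs : s = ∑ k, ((1 : ℝ) / 2) • e k := by
    have h1 : ∀ j, B c (e j) (s - ∑ k, ((1 : ℝ) / 2) • e k) = 0 := by
      intro j
      rw [B_comm, B_sub_left, hse, B_sum hG]
      norm_num
    have h2 : lin (s - ∑ k, ((1 : ℝ) / 2) • e k) = 0 := by
      refine LinearMap.ext_on hspan ?_
      rintro _ ⟨j, rfl⟩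
      have h3 := h1 j
      unfold B at h3
      have h4 : e j ⬝ᵥ (s - ∑ k, ((1 : ℝ) / 2) • e k) = 0 := by
        rcases div_eq_zero_iff.1 h3 with h5 | h5
        · linarith
        · exact absurd h5 hcp.ne'
      exact h4
    have h3 : (s - ∑ k, ((1 : ℝ) / 2) • e k) ⬝ᵥ (s - ∑ k, ((1 : ℝ) / 2) • e k) = 0 := by
      have := LinearMap.congr_fun h2 (s - ∑ k, ((1 : ℝ) / 2) • e k)
      exact this
    exact sub_eq_zero.1 (dotProduct_self_eq_zero.1 h3)
  have hS : ∀ x, x ∈ S ↔ Hsp e x := by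
    intro x
    constructor
    · intro hx
      have h1 := E.mw.tr (S.filter fun x => Hsp e x) (Finset.filter_subset _ _)
        ⟨s, Finset.mem_filter.2 ⟨E.hs, fun _ => 1, fun _ => Or.inl rfl, by simp, by
          conv_lhs => rw [hs]
          push_cast
          rfl⟩⟩ (fun γ hγ t ht => by
            rw [Finset.mem_filter] at ht ⊢
            exact ⟨E.mw.rfl γ hγ t ht.1, Hsp_rf E hG hγ ((hDro γ).1 hγ) ht.2⟩)
      rw [← h1] at hx
      exact (Finset.mem_filter.1 hx).2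
    · rintro ⟨τ, hτ, hpr, rfl⟩
      exact Hsp_mem E hG (fun i j hij => hmem _ ⟨i, j, hij, Or.inl rfl⟩) hs _ τ hτ hpr rfl
  refine ⟨m + 1, c / 2, e, by omega, ⟨by positivity, ?_, hspan⟩, hDro, hS, 0, Or.inl ?_, ?_⟩
  · intro i j
    have h1 := hG i j
    unfold B at h1
    split_ifs at h1 ⊢ with hij
    · field_simp at h1
      linarith
    · rcases div_eq_zero_iff.1 h1 with h5 | h5
      · linarith
      · exact absurd h5 hcp.ne'
  · rw [e0, smul_dotProduct, D.zh]; norm_num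
  · intro i
    refine Fin.cases ?_ (fun i => ?_) i
    · intro h1; exact absurd rfl h1
    · intro _
      rw [es, sub_dotProduct, smul_dotProduct, D.zh, (mem_A.1 (alm i)).2.1]; norm_num

end env

end GC2

open GC2 in
theorem c2_of (h1 : St_gen) (h2 : St_wtr) (h3 : St_pai) : St_c2 := by
  intro r Φ h S hR hM hc s hs hmax g₁ hg₁ g₂ hg₂ hd1 hd2 hp1 hp2 h12
  obtain ⟨c, hc⟩ := hc
  have E : Env Φ S h c s := ⟨hR, hM, hc, hs, hmax⟩
  rw [pr_eq E hg₁] at hp1
  rw [pr_eq E hg₂] at hp2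
  have f1 : g₁ ∈ F Φ h c s := mem_F.2 ⟨hg₁, hd1, hp1⟩
  have f2 : g₂ ∈ F Φ h c s := mem_F.2 ⟨hg₂, hd2, hp2⟩
  have h0 : B c g₁ g₂ = 0 := by unfold B; rw [h12]; simp
  have hF : (F Φ h c s).Nonempty := ⟨g₁, f1⟩
  by_cases hP : ∃ g ∈ F Φ h c s, ∃ g' ∈ F Φ h c s, B c g g' = 0 ∧ 1 < (Ag Φ h c s g).card
  · -- case A
    obtain ⟨g, hg, g', hg', hgg, hcard⟩ := hP
    have e1 := two_le E h1 hg hg' hgg
    have e2 := two_card E h1 hg hg' hgg
    have e3 : (Ag Φ h c s g).card = 2 := by omega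
    have e4 := two_le E h1 hg' hg (by rw [B_comm]; exact hgg)
    have hdisj : Disjoint (Ag Φ h c s g) (Ag Φ h c s g') := by
      rw [Finset.disjoint_left]
      intro a ha ha'
      exact one E hg hg' (mem_Ag.1 ha).1 hgg (mem_Ag.1 ha).2 (mem_Ag.1 ha').2
    have hsub : Ag Φ h c s g ∪ Ag Φ h c s g' ⊆ A Φ h c s :=
      Finset.union_subset (Finset.filter_subset _ _) (Finset.filter_subset _ _)
    have hc4 : 4 ≤ (A Φ h c s).card := by
      have := Finset.card_le_card hsub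
      rw [Finset.card_union_of_disjoint hdisj] at this
      omega
    obtain ⟨x, y, hxy, hAg⟩ := Finset.card_eq_two.1 e3
    have mx : x ∈ Ag Φ h c s g := by rw [hAg]; simp
    have my : y ∈ Ag Φ h c s g := by rw [hAg]; simp
    rw [mem_Ag] at mx my
    have hp : Pg Φ h c s x y g := by
      refine ⟨hg, mx.2, my.2, fun a ha n1 n2 => ?_⟩
      refine (AF E ha hg).resolve_right fun hh => ?_
      have : a ∈ Ag Φ h c s g := mem_Ag.2 ⟨ha, hh⟩
      rw [hAg, Finset.mem_insert, Finset.mem_singleton] at this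
      exact this.elim n1 n2
    exact Or.inr (caseA E h1 hF hc4 (exDat E h1 hc4 mx.1 my.1 hxy hp))
  · -- case B
    left
    push Not at hP
    have e1 := hP g₁ f1 g₂ f2 h0
    obtain ⟨a1, ha1, hb1⟩ := ne_Ag E h1 f1
    have hu : ∀ a ∈ A Φ h c s, B c a g₁ = 1 → a = a1 := by
      intro a ha hb
      exact Finset.card_le_one.1 e1 a (mem_Ag.2 ⟨ha, hb⟩) a1 (mem_Ag.2 ⟨ha1, hb1⟩)
    refine No0_of E h2 h3 fun a ha b hb hb2 => no_orth E h1 hF ?_ ha hb hb2
    refine caseB E f1 ha1 hb1 hu ?_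
    intro g hg g' hg' x hx y hy hxy hx1 hy1 hgg
    have h5 := hP g hg g' hg' hgg
    exact hxy (Finset.card_le_one.1 h5 x (mem_Ag.2 ⟨hx, hx1⟩) y (mem_Ag.2 ⟨hy, hy1⟩))

end

end Pool.Agent.NH32
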