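import Pool.Agent.NH32.GCb

/-!
# Project G, stage 2: no orthogonal roots of degree zero
-/

set_option linter.unusedSectionVars false

namespace Pool.Agent.NH32

open Matrix

namespace GC3

noncomputable section

open GCb Finset

variable {r : ℕ} {Φ S : Finset (Fin r → ℝ)} {h : Fin r → ℝ} {c : ℝ}

/-- the condition of C3 -/
def Co (Φ S : Finset (Fin r → ℝ)) (h : Fin r → ℝ) : Prop :=
  ∀ s ∈ S, ∀ γ₁ ∈ Φ, ∀ γ₂ ∈ Φ, γ₁ ⬝ᵥ h = 0 →
    γ₂ ⬝ᵥ h = 0 → pr γ₁ s = 1 → pr γ₂ s = 1 → γ₁ ⬝ᵥ γ₂ ≠ 0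

/-- the highest weights -/
def Hi (S : Finset (Fin r → ℝ)) (h s : Fin r → ℝ) : Prop := s ∈ S ∧ ∀ s' ∈ S, s' ⬝ᵥ h ≤ s ⬝ᵥ h

/-- the lowest weights -/
def Lo (S : Finset (Fin r → ℝ)) (h s : Fin r → ℝ) : Prop := s ∈ S ∧ ∀ s' ∈ S, s ⬝ᵥ h ≤ s' ⬝ᵥ h

lemma Co.opp (C : Co Φ S h) : Co Φ S (-h) := by
  intro s hs γ₁ h1 γ₂ h2 e1 e2
  rw [dotProduct_neg, neg_eq_zero] at e1 e2
  exact C s hs γ₁ h1 γ₂ h2 e1 e2

lemma Lo.opp {s : Fin r → ℝ} (H : Lo S h s) : Hi S (-h) s :=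
  ⟨H.1, fun s' hs' => by rw [dotProduct_neg, dotProduct_neg]; exact neg_le_neg (H.2 s' hs')⟩

lemma Hi.h_eq {s s' : Fin r → ℝ} (H : Hi S h s) (H' : Hi S h s') : s ⬝ᵥ h = s' ⬝ᵥ h :=
  le_antisymm (H'.2 s H.1) (H.2 s' H'.1)

/-- the weights of equal length whose difference is a root -/
lemma diff_val (L : SL c Φ h) {s s' : Fin r → ℝ} (hl : s ⬝ᵥ s = s' ⬝ᵥ s')
    (hr : s - s' ∈ Φ) : B c s (s - s') = 1 ∧ B c s' (s - s') = -1 ∧ B c s s' = B c s s - 1 := by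
  have h1 := L.self hr
  have h2 : B c s s = B c s' s' := by unfold B; rw [hl]
  rw [B_sub_left, B_sub_right, B_sub_right] at h1
  rw [B_sub_right, B_sub_right]
  rw [B_comm s' s] at h1 ⊢
  refine ⟨by linarith, by linarith, by linarith⟩

open Classical in
/-- (1) two different highest weights differ by a root -/
theorem hi_diff (ht : St_wtr) (L : SL c Φ h) (W : MW Φ h S) (C : Co Φ S h)
    (hl : ∀ s ∈ S, ∀ s' ∈ S, s ⬝ᵥ s = s' ⬝ᵥ s') {s s' : Fin r → ℝ} (H : Hi S h s)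
    (H' : Hi S h s') : s' = s ∨ s - s' ∈ Φ := by
  set X := S.filter (fun x => Hi S h x ∧ (x = s ∨ s - x ∈ Φ)) with hX
  have hmain : ∀ γ ∈ Φ, γ ⬝ᵥ h = 0 → ∀ x ∈ X, B c x γ = 1 → x - γ ∈ X := by
    intro γ hγ hγ0 x hx hB
    rw [hX, mem_filter] at hx
    obtain ⟨hxS, hxH, hx2⟩ := hx
    have hS' := L.s_sub W hγ hxS hB
    have hh : (x - γ) ⬝ᵥ h = x ⬝ᵥ h := by rw [sub_dotProduct, hγ0, sub_zero]
    rw [hX, mem_filter]
    refine ⟨hS', ⟨hS', fun s' hs' => by rw [hh]; exact hxH.2 s' hs'⟩, ?_⟩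
    rcases hx2 with rfl | hx2
    · right
      have : x - (x - γ) = γ := by abel
      rwa [this]
    · -- x = s - g1
      set g := s - x with hg
      have hxg : x = s - g := by rw [hg]; abel
      obtain ⟨e1, e2, -⟩ := diff_val L (hl s H.1 x hxS) hx2
      have hg0 : g ⬝ᵥ h = 0 := by rw [hg, sub_dotProduct, Hi.h_eq H hxH, sub_self]
      have e3 : B c s γ - B c g γ = 1 := by
        rw [hxg, B_sub_left] at hB; exact hB
      rcases L.s_val W hγ H.1 with e | e | e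
      · right
        have e4 : B c g γ = -1 := by linarith
        have h5 := L.add_mem hx2 hγ e4
        have : s - (x - γ) = g + γ := by rw [hg]; abel
        rwa [this]
      · exfalso
        have e4 : B c g γ = 0 := by linarith
        apply C s H.1 g hx2 γ hγ hg0 hγ0 (by rw [L.pr_eq hx2]; exact e1)
          (by rw [L.pr_eq hγ]; exact e)
        unfold B at e4
        have := L.pos.ne'
        field_simp at e4
        linarith
      · left
        have e4 : B c g γ = -2 := by linarith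
        have h5 := L.eq_of_neg_two hx2 hγ e4
        rw [hxg, h5]; abel
  have hXr : ∀ γ ∈ Φ, γ ⬝ᵥ h = 0 → ∀ x ∈ X, rf γ x ∈ X := by
    intro γ hγ hγ0 x hx
    have hxS : x ∈ S := (mem_filter.1 hx).1
    rw [L.rf_eq hγ]
    rcases L.s_val W hγ hxS with e | e | e
    · rw [e, zero_smul, sub_zero]; exact hx
    · rw [e, one_smul]; exact hmain γ hγ hγ0 x hx e
    · rw [e, neg_one_smul]
      exact hmain (-γ) (L.R.neg γ hγ) (by rw [neg_dotProduct, hγ0, neg_zero]) x hx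
        (by rw [B_neg_right, e, neg_neg])
  have hfin := ht r Φ h S L.R W ⟨c, L.sq⟩ X (filter_subset _ _)
    ⟨s, mem_filter.2 ⟨H.1, H, Or.inl rfl⟩⟩
    (fun x hx s' hs' => (mem_filter.1 hx).2.1.2 s' hs') hXr s' H'.1 H'.2
  exact (mem_filter.1 hfin).2.2

/-- all the data with the consequences of the first step -/
structure Da (c : ℝ) (Φ S : Finset (Fin r → ℝ)) (h : Fin r → ℝ) (N : ℝ) : Prop where
  L : SL c Φ h
  W : MW Φ h S
  gen : ∀ γ ∈ Φ, γ ⬝ᵥ h = 0 → ∃ α ∈ Φ, ∃ β ∈ Φ, α ⬝ᵥ h = 1 ∧ β ⬝ᵥ h = 1 ∧ γ = α - β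
  pai : ∀ γ ∈ Φ, ∃ s ∈ S, B c s γ = 1
  len : ∀ s ∈ S, B c s s = N
  cl : ∀ s ∈ S, Hi S h s ∨ Lo S h s
  hid : ∀ s s', Hi S h s → Hi S h s' → s ≠ s' → s - s' ∈ Φ ∧ B c s s' = N - 1
  lod : ∀ s s', Lo S h s → Lo S h s' → s ≠ s' → s - s' ∈ Φ ∧ B c s s' = N - 1
  hl : ∀ s t, Hi S h s → Lo S h t → s ⬝ᵥ h = t ⬝ᵥ h + 1

theorem exists_Da (hg : St_gen) (ht : St_wtr) (hp : St_pai) (L : SL c Φ h) (W : MW Φ h S)
    (C : Co Φ S h) : ∃ N, Da c Φ S h N := by
  obtain ⟨hp1, hlen⟩ := hp r Φ h S L.R W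
  obtain ⟨s₀, hs₀⟩ := W.ne
  have hlN : ∀ s ∈ S, B c s s = B c s₀ s₀ := by
    intro s hs; unfold B; rw [hlen s hs s₀ hs₀]
  obtain ⟨a, ha⟩ := W.two
  obtain ⟨α, hα, hα1⟩ := L.R.ex
  obtain ⟨s1, hs1, hs1α⟩ := hp1 α hα
  rw [L.pr_eq hα] at hs1α
  have hs2 := L.s_sub W hα hs1 hs1α
  have hh2 : (s1 - α) ⬝ᵥ h = s1 ⬝ᵥ h - 1 := by rw [sub_dotProduct, hα1]
  have hs1a : s1 ⬝ᵥ h = a := by
    rcases ha s1 hs1 with e | e
    · exact e
    · rcases ha _ hs2 with e' | e' <;> rw [hh2, e] at e' <;> exfalso <;> linarith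
  have hhi : ∀ s, Hi S h s ↔ s ∈ S ∧ s ⬝ᵥ h = a := by
    intro s
    constructor
    · rintro ⟨h1, h2⟩
      refine ⟨h1, ?_⟩
      have h3 := h2 s1 hs1
      rcases ha s h1 with e | e
      · exact e
      · rw [hs1a, e] at h3; linarith
    · rintro ⟨h1, h2⟩
      refine ⟨h1, fun s' hs' => ?_⟩
      rcases ha s' hs' with e | e <;> rw [e, h2] <;> linarith
  have hlo : ∀ s, Lo S h s ↔ s ∈ S ∧ s ⬝ᵥ h = a - 1 := by
    intro s
    constructor
    · rintro ⟨h1, h2⟩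
      refine ⟨h1, ?_⟩
      have h3 := h2 _ hs2
      rcases ha s h1 with e | e
      · rw [hh2, hs1a, e] at h3; linarith
      · exact e
    · rintro ⟨h1, h2⟩
      refine ⟨h1, fun s' hs' => ?_⟩
      rcases ha s' hs' with e | e <;> rw [e, h2] <;> linarith
  refine ⟨B c s₀ s₀, L, W, gen_dot hg L.R, ?_, hlN, ?_, ?_, ?_, ?_⟩
  · intro γ hγ
    obtain ⟨s, hs, e⟩ := hp1 γ hγ
    exact ⟨s, hs, by rw [← L.pr_eq hγ]; exact e⟩
  · intro s hs
    rcases ha s hs with e | e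
    · exact Or.inl ((hhi s).2 ⟨hs, e⟩)
    · exact Or.inr ((hlo s).2 ⟨hs, e⟩)
  · intro s s' H H' hne
    rcases hi_diff ht L W C hlen H H' with e | e
    · exact absurd e.symm hne
    · refine ⟨e, ?_⟩
      rw [(diff_val L (hlen s H.1 s' H'.1) e).2.2, hlN s H.1]
  · intro s s' H H' hne
    rcases hi_diff ht L.opp (GCb.MW.opp W) C.opp hlen H.opp H'.opp with e | e
    · exact absurd e.symm hne
    · refine ⟨e, ?_⟩
      rw [(diff_val L (hlen s H.1 s' H'.1) e).2.2, hlN s H.1]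
  · intro s t H H'
    rw [((hhi s).1 H).2, ((hlo t).1 H').2]; ring

section da
variable {N : ℝ}

/-- the products of a highest weight with the positive roots -/
lemma Da.hiv (D : Da c Φ S h N) {s α : Fin r → ℝ} (H : Hi S h s) (hα : α ∈ Φ)
    (h1 : α ⬝ᵥ h = 1) : B c s α = 0 ∨ B c s α = 1 := by
  rcases D.L.s_val D.W hα H.1 with e | e | e
  · exact Or.inl e
  · exact Or.inr e
  · exfalso
    have h2 := D.L.s_add D.W hα H.1 e
    have h3 := H.2 _ h2
    rw [add_dotProduct, h1] at h3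
    linarith

lemma Da.lov (D : Da c Φ S h N) {t α : Fin r → ℝ} (H : Lo S h t) (hα : α ∈ Φ)
    (h1 : α ⬝ᵥ h = 1) : B c t α = 0 ∨ B c t α = -1 := by
  rcases D.L.s_val D.W hα H.1 with e | e | e
  · exact Or.inl e
  · exfalso
    have h2 := D.L.s_sub D.W hα H.1 e
    have h3 := H.2 _ h2
    rw [sub_dotProduct, h1] at h3
    linarith
  · exact Or.inr e

/-- subtraction of a positive root from a highest weight -/
lemma Da.sub_lo (D : Da c Φ S h N) {s α : Fin r → ℝ} (H : Hi S h s) (hα : α ∈ Φ)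
    (h1 : α ⬝ᵥ h = 1) (hB : B c s α = 1) : Lo S h (s - α) := by
  have h2 := D.L.s_sub D.W hα H.1 hB
  rcases D.cl _ h2 with h3 | h3
  · exfalso
    have := h3.2 s H.1
    rw [sub_dotProduct, h1] at this
    linarith
  · exact h3

lemma Da.add_hi (D : Da c Φ S h N) {t α : Fin r → ℝ} (H : Lo S h t) (hα : α ∈ Φ)
    (h1 : α ⬝ᵥ h = 1) (hB : B c t α = -1) : Hi S h (t + α) := by
  have h2 := D.L.s_add D.W hα H.1 hB
  rcases D.cl _ h2 with h3 | h3
  · exact h3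
  · exfalso
    have := h3.2 t H.1
    rw [add_dotProduct, h1] at this
    linarith

/-- each positive root can be subtracted from a highest weight -/
lemma Da.ex_hi (D : Da c Φ S h N) {α : Fin r → ℝ} (hα : α ∈ Φ) (h1 : α ⬝ᵥ h = 1) :
    ∃ s, Hi S h s ∧ B c s α = 1 := by
  obtain ⟨s, hs, e⟩ := D.pai α hα
  rcases D.cl s hs with h2 | h2
  · exact ⟨s, h2, e⟩
  · rcases D.lov h2 hα h1 with e' | e' <;> rw [e] at e' <;> norm_num at e'

/-- (2a) if the positive root `α` is subtracted from only one highest weight `s1` -/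
lemma Da.single (D : Da c Φ S h N) {s1 α : Fin r → ℝ} (H1 : Hi S h s1) (hα : α ∈ Φ)
    (h1 : α ⬝ᵥ h = 1) (hB : B c s1 α = 1)
    (hu : ∀ s, Hi S h s → B c s α = 1 → s = s1) :
    (∀ s, Hi S h s → s - (s1 - α) ∈ Φ) ∧ ∀ t, Lo S h t → s1 - t ∈ Φ := by
  have hlo := D.sub_lo H1 hα h1 hB
  constructor
  · intro s H
    by_cases hs : s = s1
    · subst hs
      have : s - (s - α) = α := by abel
      rwa [this]
    · have e0 : B c s α = 0 := by
        rcases D.hiv H hα h1 with e | e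
        · exact e
        · exact absurd (hu s H e) hs
      have hr := (D.hid s1 s H1 H (Ne.symm hs)).1
      have e1 : B c α (s1 - s) = 1 := by
        rw [B_sub_right, B_comm α s1, B_comm α s, hB, e0, sub_zero]
      have h2 := D.L.sub_mem hα hr e1
      have : s - (s1 - α) = α - (s1 - s) := by abel
      rwa [this]
  · intro t Ht
    by_cases htt : t = s1 - α
    · have : s1 - t = α := by rw [htt]; abel
      rwa [this]
    · have e0 : B c t α = 0 := by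
        rcases D.lov Ht hα h1 with e | e
        · exact e
        · exfalso
          have h2 := D.add_hi Ht hα h1 e
          have h3 : B c (t + α) α = 1 := by rw [B_add_left, e, D.L.self hα]; norm_num
          apply htt
          rw [← hu _ h2 h3]; abel
      have hr := (D.lod (s1 - α) t hlo Ht (Ne.symm htt)).1
      have e1 : B c α (s1 - α - t) = -1 := by
        rw [B_sub_right, B_sub_right, B_comm α s1, hB, D.L.self hα, B_comm α t, e0]; norm_num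
      have h2 := D.L.add_mem hα hr e1
      have : s1 - t = α + (s1 - α - t) := by abel
      rwa [this]

/-- (2b) the special linear case -/
theorem Da.ty1 (D : Da c Φ S h N) {s1 α : Fin r → ℝ} (H1 : Hi S h s1) (hα : α ∈ Φ)
    (h1 : α ⬝ᵥ h = 1) (hB : B c s1 α = 1)
    (hu : ∀ s, Hi S h s → B c s α = 1 → s = s1) : Ty1 Φ S := by
  obtain ⟨hA, -⟩ := D.single H1 hα h1 hB hu
  have hlo := D.sub_lo H1 hα h1 hB
  set t1 := s1 - α with ht1
  have hroot : ∀ s t : Fin r → ℝ, Hi S h s → Lo S h t → s - t ∈ Φ → B c s t = N - 1 := by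
    intro s t H Ht hr
    have h2 : s ⬝ᵥ s = t ⬝ᵥ t := by
      have e1 := D.len s H.1
      have e2 := D.len t Ht.1
      have hc := D.L.pos.ne'
      unfold B at e1 e2
      field_simp at e1 e2
      linarith
    rw [(diff_val D.L h2 hr).2.2, D.len s H.1]
  have key : ∀ s t : Fin r → ℝ, Hi S h s → Lo S h t → s - t ∈ Φ := by
    intro s t H Ht
    have hr := hA s H
    have hb1 : (s - t1) ⬝ᵥ h = 1 := by rw [sub_dotProduct, D.hl s t1 H hlo]; ring
    have hv := hroot s t1 H hlo hr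
    have hb2 : B c s (s - t1) = 1 := by rw [B_sub_right, D.len s H.1, hv]; ring
    refine (D.single H hr hb1 hb2 ?_).2 t Ht
    intro s' H' e'
    by_contra hne
    have hv' := hroot s' t1 H' hlo (hA s' H')
    rw [B_sub_right, hv', (D.hid s' s H' H hne).2] at e'
    norm_num at e'
  -- all differences are roots
  have hall : ∀ s ∈ S, ∀ s' ∈ S, s ≠ s' → s - s' ∈ Φ ∧ B c s s' = N - 1 := by
    intro s hs s' hs' hne
    rcases D.cl s hs with H | H <;> rcases D.cl s' hs' with H' | H'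
    · exact D.hid s s' H H' hne
    · exact ⟨key s s' H H', hroot s s' H H' (key s s' H H')⟩
    · refine ⟨?_, ?_⟩
      · rw [← neg_sub]; exact D.L.R.neg _ (key s' s H' H)
      · rw [B_comm]; exact hroot s' s H' H (key s' s H' H)
    · exact D.lod s s' H H' hne
  intro s hs s' hs' hne
  refine ⟨(hall s hs s' hs' hne).1, fun t ht hts hts' => ?_⟩
  have e1 := (hall s hs t ht (Ne.symm hts)).2
  have e2 := (hall s' hs' t ht (Ne.symm hts')).2
  have e3 : B c (s - s') t = 0 := by rw [B_sub_left, e1, e2, sub_self]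
  unfold B at e3
  have hc := D.L.pos.ne'
  field_simp at e3
  linarith

/-- the transpositions of the highest weights -/
lemma Da.sw1 (D : Da c Φ S h N) {x y : Fin r → ℝ} (Hx : Hi S h x) (Hy : Hi S h y)
    (hxy : x ≠ y) : rf (x - y) x = y := by
  have hr := (D.hid x y Hx Hy hxy)
  rw [D.L.rf_eq hr.1, B_sub_right, D.len x Hx.1, hr.2]
  module

lemma Da.sw3 (D : Da c Φ S h N) {x y z : Fin r → ℝ} (Hx : Hi S h x) (Hy : Hi S h y)
    (Hz : Hi S h z) (hxy : x ≠ y) (hxz : z ≠ x) (hyz : z ≠ y) : rf (x - y) z = z := by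
  have hr := (D.hid x y Hx Hy hxy)
  rw [D.L.rf_eq hr.1, B_sub_right, (D.hid z x Hz Hx hxz).2, (D.hid z y Hz Hy hyz).2]
  module

lemma Da.sw2 (D : Da c Φ S h N) {x y : Fin r → ℝ} (Hx : Hi S h x) (Hy : Hi S h y)
    (hxy : x ≠ y) : rf (x - y) y = x := by
  rw [← neg_sub, rf_neg_left]
  exact D.sw1 Hy Hx (Ne.symm hxy)

lemma Da.rf_root (D : Da c Φ S h N) {x y α : Fin r → ℝ} (Hx : Hi S h x) (Hy : Hi S h y)
    (hxy : x ≠ y) (hα : α ∈ Φ) (h1 : α ⬝ᵥ h = 1) :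
    rf (x - y) α ∈ Φ ∧ rf (x - y) α ⬝ᵥ h = 1 := by
  have hr := (D.hid x y Hx Hy hxy).1
  refine ⟨D.L.R.rfl _ hr _ hα, ?_⟩
  rw [rf_h _, h1]
  rw [sub_dotProduct, Hi.h_eq Hx Hy, sub_self]

lemma Da.rf_pair (D : Da c Φ S h N) {x y : Fin r → ℝ} (Hx : Hi S h x) (Hy : Hi S h y)
    (hxy : x ≠ y) (z α : Fin r → ℝ) :
    B c z (rf (x - y) α) = B c (rf (x - y) z) α := by
  have hr := (D.hid x y Hx Hy hxy).1
  have h1 := D.L.rf_B hr (rf (x - y) z) α
  rw [D.L.rf_rf hr] at h1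
  exact h1

/-- a lowest weight with product one with a root of degree zero is unique -/
lemma Da.uniq_lo (D : Da c Φ S h N) {g t t' : Fin r → ℝ} (hg : g ∈ Φ) (hg0 : g ⬝ᵥ h = 0)
    (H : Lo S h t) (H' : Lo S h t') (e : B c t g = 1) (e' : B c t' g = 1) : t = t' := by
  by_contra hne
  have h1 := D.L.s_sub D.W hg H'.1 e'
  have h2 : Lo S h (t' - g) := by
    refine ⟨h1, fun s hs => ?_⟩
    rw [sub_dotProduct, hg0, sub_zero]
    exact H'.2 s hs
  have h3 : B c t (t' - g) = N - 2 := by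
    rw [B_sub_right, e, (D.lod t t' H H' hne).2]; ring
  by_cases h4 : t = t' - g
  · rw [← h4, D.len t H.1] at h3
    linarith
  · rw [(D.lod t _ H h2 h4).2] at h3
    linarith

/-- (**) a pair of highest weights determines the positive root -/
lemma Da.uniq (D : Da c Φ S h N) {s s' α β : Fin r → ℝ} (H : Hi S h s) (H' : Hi S h s')
    (hne : s ≠ s') (hα : α ∈ Φ) (hα1 : α ⬝ᵥ h = 1) (hβ : β ∈ Φ) (hβ1 : β ⬝ᵥ h = 1)
    (e1 : B c s α = 1) (e2 : B c s' α = 1) (e3 : B c s β = 1) (e4 : B c s' β = 1) : α = β := by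
  have hr := D.hid s s' H H' hne
  have h0 : (s - s') ⬝ᵥ h = 0 := by rw [sub_dotProduct, Hi.h_eq H H', sub_self]
  have hv : ∀ γ, B c s γ = 1 → B c s' γ = 1 → B c (s - γ) (s - s') = 1 := by
    intro γ f1 f2
    rw [B_sub_left, B_sub_right, B_sub_right, B_comm γ s, B_comm γ s', f1, f2, D.len s H.1, hr.2]
    ring
  have h1 := D.uniq_lo hr.1 h0 (D.sub_lo H hα hα1 e1) (D.sub_lo H hβ hβ1 e3) (hv α e1 e2)
    (hv β e3 e4)
  have h2 : s - (s - α) = s - (s - β) := by rw [h1]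
  have h3 : s - (s - α) = α := by abel
  have h4 : s - (s - β) = β := by abel
  rw [← h3, ← h4, h2]

/-- each positive root can be subtracted from two highest weights -/
def Two (c : ℝ) (Φ S : Finset (Fin r → ℝ)) (h : Fin r → ℝ) : Prop :=
  ∀ α ∈ Φ, α ⬝ᵥ h = 1 → ∃ s s', Hi S h s ∧ Hi S h s' ∧ s ≠ s' ∧ B c s α = 1 ∧ B c s' α = 1

lemma Da.two_of (D : Da c Φ S h N) (hT : ¬ Ty1 Φ S) : Two c Φ S h := by
  intro α hα h1
  obtain ⟨s, H, e⟩ := D.ex_hi hα h1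
  by_contra hno
  apply hT
  refine D.ty1 H hα h1 e fun s' H' e' => ?_
  by_contra hne
  exact hno ⟨s', s, H', H, hne, e', e⟩

/-- each pair of highest weights comes from a positive root -/
lemma Da.ex_pair (D : Da c Φ S h N) (T : Two c Φ S h) {s s' : Fin r → ℝ} (H : Hi S h s)
    (H' : Hi S h s') (hne : s ≠ s') :
    ∃ α ∈ Φ, α ⬝ᵥ h = 1 ∧ B c s α = 1 ∧ B c s' α = 1 := by
  obtain ⟨α₀, hα₀, hα₀1⟩ := D.L.R.ex
  obtain ⟨s1, s2, H1, H2, h12, e1, e2⟩ := T α₀ hα₀ hα₀1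
  -- first step
  obtain ⟨α₁, hα₁, hα₁1, s2', H2', h2ne, f1, f2⟩ : ∃ α₁ ∈ Φ, α₁ ⬝ᵥ h = 1 ∧ ∃ s2',
      Hi S h s2' ∧ s2' ≠ s ∧ B c s α₁ = 1 ∧ B c s2' α₁ = 1 := by
    by_cases h1 : s1 = s
    · subst h1
      exact ⟨α₀, hα₀, hα₀1, s2, H2, Ne.symm h12, e1, e2⟩
    · have hr := D.rf_root H1 H h1 hα₀ hα₀1
      refine ⟨rf (s1 - s) α₀, hr.1, hr.2, ?_⟩
      by_cases h2 : s2 = s
      · subst h2
        refine ⟨s1, H1, h1, ?_, ?_⟩
        · rw [D.rf_pair H1 H h1, D.sw2 H1 H h1, e1]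
        · rw [D.rf_pair H1 H h1, D.sw1 H1 H h1, e2]
      · refine ⟨s2, H2, h2, ?_, ?_⟩
        · rw [D.rf_pair H1 H h1, D.sw2 H1 H h1, e1]
        · rw [D.rf_pair H1 H h1, D.sw3 H1 H H2 h1 (Ne.symm h12) h2, e2]
  by_cases h3 : s2' = s'
  · subst h3
    exact ⟨α₁, hα₁, hα₁1, f1, f2⟩
  · have hr := D.rf_root H2' H' h3 hα₁ hα₁1
    refine ⟨rf (s2' - s') α₁, hr.1, hr.2, ?_, ?_⟩
    · rw [D.rf_pair H2' H' h3, D.sw3 H2' H' H h3 (Ne.symm h2ne) hne, f1]
    · rw [D.rf_pair H2' H' h3, D.sw2 H2' H' h3, f2]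

lemma Da.no3 (D : Da c Φ S h N) {s1 s2 s3 s4 α : Fin r → ℝ} (H1 : Hi S h s1) (H2 : Hi S h s2)
    (H3 : Hi S h s3) (H4 : Hi S h s4) (h12 : s1 ≠ s2) (h13 : s1 ≠ s3) (h23 : s2 ≠ s3)
    (hα : α ∈ Φ) (hα1 : α ⬝ᵥ h = 1) (e1 : B c s1 α = 1) (e2 : B c s2 α = 1)
    (e3 : B c s3 α = 1) (e4 : B c s4 α = 0) : False := by
  have h14 : s1 ≠ s4 := by rintro rfl; rw [e1] at e4; norm_num at e4
  have h24 : s2 ≠ s4 := by rintro rfl; rw [e2] at e4; norm_num at e4
  have h34 : s3 ≠ s4 := by rintro rfl; rw [e3] at e4; norm_num at e4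
  have hr := D.rf_root H3 H4 h34 hα hα1
  have f1 : B c s1 (rf (s3 - s4) α) = 1 := by
    rw [D.rf_pair H3 H4 h34, D.sw3 H3 H4 H1 h34 h13 h14, e1]
  have f2 : B c s2 (rf (s3 - s4) α) = 1 := by
    rw [D.rf_pair H3 H4 h34, D.sw3 H3 H4 H2 h34 h23 h24, e2]
  have f4 : B c s4 (rf (s3 - s4) α) = 1 := by
    rw [D.rf_pair H3 H4 h34, D.sw2 H3 H4 h34, e3]
  have := D.uniq H1 H2 h12 hα hα1 hr.1 hr.2 e1 e2 f1 f2
  rw [← this, e4] at f4
  norm_num at f4

lemma Da.notall (D : Da c Φ S h N) (T : Two c Φ S h) {α : Fin r → ℝ} (hα : α ∈ Φ)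
    (hα1 : α ⬝ᵥ h = 1) (hall : ∀ s, Hi S h s → B c s α = 1) : False := by
  have hu : ∀ β ∈ Φ, β ⬝ᵥ h = 1 → β = α := by
    intro β hβ hβ1
    obtain ⟨s, s', H, H', hne, e, e'⟩ := T β hβ hβ1
    exact D.uniq H H' hne hβ hβ1 hα hα1 e e' (hall s H) (hall s' H')
  obtain ⟨s, s', H, H', hne, -, -⟩ := T α hα hα1
  have hr := (D.hid s s' H H' hne).1
  have h0 : (s - s') ⬝ᵥ h = 0 := by rw [sub_dotProduct, Hi.h_eq H H', sub_self]
  obtain ⟨β, hβ, γ, hγ, hβ1, hγ1, e⟩ := D.gen _ hr h0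
  rw [hu β hβ hβ1, hu γ hγ hγ1, sub_self, sub_eq_zero] at e
  exact hne e

/-- exactly two highest weights -/
lemma Da.exact (D : Da c Φ S h N) (T : Two c Φ S h) {s s' x α : Fin r → ℝ} (H : Hi S h s)
    (H' : Hi S h s') (Hx : Hi S h x) (hne : s ≠ s') (hα : α ∈ Φ) (hα1 : α ⬝ᵥ h = 1)
    (e : B c s α = 1) (e' : B c s' α = 1) (h1 : x ≠ s) (h2 : x ≠ s') : B c x α = 0 := by
  rcases D.hiv Hx hα hα1 with e3 | e3
  · exact e3
  · exfalso
    apply D.notall T hα hα1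
    intro y Hy
    rcases D.hiv Hy hα hα1 with e4 | e4
    · exact (D.no3 H H' Hx Hy hne (Ne.symm h1) (Ne.symm h2) hα hα1 e e' e3 e4).elim
    · exact e4

lemma Da.zc (D : Da c Φ S h N) (T : Two c Φ S h) {x y z α β : Fin r → ℝ} (Hx : Hi S h x)
    (Hy : Hi S h y) (Hz : Hi S h z) (hxy : x ≠ y) (hxz : x ≠ z) (hyz : y ≠ z) (hα : α ∈ Φ)
    (hα1 : α ⬝ᵥ h = 1) (hβ : β ∈ Φ) (hβ1 : β ⬝ᵥ h = 1) (e1 : B c x α = 1) (e2 : B c y α = 1)
    (e3 : B c x β = 1) (e4 : B c z β = 1) : x + y - α = x + z - β := by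
  have hr := D.rf_root Hy Hz hyz hα hα1
  have e0 := D.exact T Hx Hy Hz hxy hα hα1 e1 e2 (Ne.symm hxz) (Ne.symm hyz)
  have f1 : B c x (rf (y - z) α) = 1 := by
    rw [D.rf_pair Hy Hz hyz, D.sw3 Hy Hz Hx hyz hxy hxz, e1]
  have f2 : B c z (rf (y - z) α) = 1 := by
    rw [D.rf_pair Hy Hz hyz, D.sw2 Hy Hz hyz, e2]
  have h1 := D.uniq Hx Hz hxz hr.1 hr.2 hβ hβ1 f1 f2 e3 e4
  rw [← h1, D.L.rf_eq (D.hid y z Hy Hz hyz).1, B_sub_right, B_comm α y, B_comm α z, e2, e0]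
  module

/-- the positive roots are the sums of two different highest weights -/
theorem Da.sum_eq (D : Da c Φ S h N) (T : Two c Φ S h) {x y α : Fin r → ℝ} (Hx : Hi S h x)
    (Hy : Hi S h y) (hxy : x ≠ y) (hα : α ∈ Φ) (hα1 : α ⬝ᵥ h = 1) (e1 : B c x α = 1)
    (e2 : B c y α = 1) : α = x + y := by
  -- the element does not depend on the pair
  have key : ∀ u v β, Hi S h u → Hi S h v → u ≠ v → β ∈ Φ → β ⬝ᵥ h = 1 → B c u β = 1 →
      B c v β = 1 → u + v - β = x + y - α := by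
    have step1 : ∀ v β, Hi S h v → x ≠ v → β ∈ Φ → β ⬝ᵥ h = 1 → B c x β = 1 →
        B c v β = 1 → x + v - β = x + y - α := by
      intro v β Hv hxv hβ hβ1 f1 f2
      by_cases hvy : y = v
      · subst hvy
        rw [D.uniq Hx Hy hxy hβ hβ1 hα hα1 f1 f2 e1 e2]
      · exact (D.zc T Hx Hy Hv hxy hxv hvy hα hα1 hβ hβ1 e1 e2 f1 f2).symm
    intro u v β Hu Hv huv hβ hβ1 f1 f2
    by_cases h1 : x = u
    · subst h1
      exact step1 v β Hv huv hβ hβ1 f1 f2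
    · by_cases h2 : x = v
      · subst h2
        rw [add_comm u x]
        exact step1 u β Hu h1 hβ hβ1 f2 f1
      · obtain ⟨δ, hδ, hδ1, g1, g2⟩ := D.ex_pair T Hx Hu h1
        have h3 := step1 u δ Hu h1 hδ hδ1 g1 g2
        have h4 := D.zc T Hu Hx Hv (Ne.symm h1) huv h2 hδ hδ1 hβ hβ1 g2 g1 f1 f2
        rw [← h4, ← h3, add_comm u x]
  have hz1 : ∀ β ∈ Φ, β ⬝ᵥ h = 1 → B c (x + y - α) β = 0 := by
    intro β hβ hβ1
    obtain ⟨u, v, Hu, Hv, huv, f1, f2⟩ := T β hβ hβ1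
    rw [← key u v β Hu Hv huv hβ hβ1 f1 f2, B_sub_left, B_add_left, f1, f2, D.L.self hβ]
    norm_num
  have hz : x + y - α = 0 := by
    apply D.L.ext
    intro γ hγ
    rcases D.L.R.lev γ hγ with h1 | h1 | h1
    · obtain ⟨β, hβ, δ, hδ, hβ1, hδ1, rfl⟩ := D.gen γ hγ h1
      rw [B_sub_right, hz1 β hβ hβ1, hz1 δ hδ hδ1, sub_self]
    · exact hz1 γ hγ h1
    · have h2 := hz1 (-γ) (D.L.R.neg γ hγ) (by rw [neg_dotProduct, h1, neg_neg])
      rw [B_neg_right, neg_eq_zero] at h2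
      exact h2
  exact (sub_eq_zero.1 hz).symm

/-- the sum of two different highest weights is a root -/
lemma Da.sum_mem (D : Da c Φ S h N) (T : Two c Φ S h) {x y : Fin r → ℝ} (Hx : Hi S h x)
    (Hy : Hi S h y) (hxy : x ≠ y) : x + y ∈ Φ ∧ (x + y) ⬝ᵥ h = 1 ∧ B c x (x + y) = 1 := by
  obtain ⟨α, hα, hα1, e1, e2⟩ := D.ex_pair T Hx Hy hxy
  have h1 := D.sum_eq T Hx Hy hxy hα hα1 e1 e2
  rw [← h1]
  exact ⟨hα, hα1, e1⟩

lemma Da.N1 (D : Da c Φ S h N) (T : Two c Φ S h) : N = 1 := by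
  obtain ⟨α₀, hα₀, hα₀1⟩ := D.L.R.ex
  obtain ⟨x, y, Hx, Hy, hxy, e1, e2⟩ := T α₀ hα₀ hα₀1
  have h1 := D.sum_eq T Hx Hy hxy hα₀ hα₀1 e1 e2
  rw [h1, B_add_right, D.len x Hx.1, (D.hid x y Hx Hy hxy).2] at e1
  linarith

lemma Da.ex_ne (D : Da c Φ S h N) (T : Two c Φ S h) (x : Fin r → ℝ) :
    ∃ y, Hi S h y ∧ y ≠ x := by
  obtain ⟨α₀, hα₀, hα₀1⟩ := D.L.R.ex
  obtain ⟨u, v, Hu, Hv, huv, -, -⟩ := T α₀ hα₀ hα₀1
  by_cases h1 : u = x
  · exact ⟨v, Hv, fun h2 => huv (h1.trans h2.symm)⟩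
  · exact ⟨u, Hu, h1⟩

/-- the lowest weights are the opposites of the highest weights -/
lemma Da.lo_neg (D : Da c Φ S h N) (T : Two c Φ S h) {t : Fin r → ℝ} (Ht : Lo S h t) :
    Hi S h (-t) := by
  have h1 : ∃ α ∈ Φ, α ⬝ᵥ h = 1 ∧ B c t α ≠ 0 := by
    by_contra hno
    push Not at hno
    apply D.W.nz
    have hz : t = 0 := by
      apply D.L.ext
      intro γ hγ
      rcases D.L.R.lev γ hγ with h1 | h1 | h1
      · obtain ⟨β, hβ, δ, hδ, hβ1, hδ1, rfl⟩ := D.gen γ hγ h1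
        rw [B_sub_right, hno β hβ hβ1, hno δ hδ hδ1, sub_self]
      · exact hno γ hγ h1
      · have h2 := hno (-γ) (D.L.R.neg γ hγ) (by rw [neg_dotProduct, h1, neg_neg])
        rw [B_neg_right, neg_eq_zero] at h2
        exact h2
    rw [← hz]
    exact Ht.1
  obtain ⟨α, hα, hα1, hB⟩ := h1
  have e1 : B c t α = -1 := by
    rcases D.lov Ht hα hα1 with e | e
    · exact absurd e hB
    · exact e
  have H := D.add_hi Ht hα hα1 e1
  have e2 : B c (t + α) α = 1 := by rw [B_add_left, e1, D.L.self hα]; norm_num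
  obtain ⟨u, v, Hu, Hv, huv, f1, f2⟩ := T α hα hα1
  have h3 := D.sum_eq T Hu Hv huv hα hα1 f1 f2
  by_cases h4 : t + α = u
  · have h6 : t + (u + v) = u := by rw [← h3]; exact h4
    have h7 : t = u - (u + v) := eq_sub_of_add_eq h6
    have : -t = v := by rw [h7]; abel
    rw [this]; exact Hv
  · by_cases h5 : t + α = v
    · have h6 : t + (u + v) = v := by rw [← h3]; exact h5
      have h7 : t = v - (u + v) := eq_sub_of_add_eq h6
      have : -t = u := by rw [h7]; abel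
      rw [this]; exact Hu
    · exfalso
      rw [D.exact T Hu Hv H huv hα hα1 f1 f2 h4 h5] at e2
      norm_num at e2

lemma Da.hi_neg (D : Da c Φ S h N) (T : Two c Φ S h) {s : Fin r → ℝ} (H : Hi S h s) :
    Lo S h (-s) := by
  obtain ⟨x, Hx, hne⟩ := D.ex_ne T s
  obtain ⟨h1, h2, h3⟩ := D.sum_mem T Hx H hne
  have := D.sub_lo Hx h1 h2 h3
  have e : x - (x + s) = -s := by abel
  rwa [e] at this

/-- the roots of degree zero are the differences of two highest weights -/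
lemma Da.zero_root (D : Da c Φ S h N) (T : Two c Φ S h) {γ : Fin r → ℝ} (hγ : γ ∈ Φ)
    (h0 : γ ⬝ᵥ h = 0) : ∃ x y, Hi S h x ∧ Hi S h y ∧ x ≠ y ∧ γ = x - y := by
  obtain ⟨β, hβ, δ, hδ, hβ1, hδ1, e⟩ := D.gen γ hγ h0
  obtain ⟨x, y, Hx, Hy, hxy, e1, e2⟩ := T β hβ hβ1
  obtain ⟨u, v, Hu, Hv, huv, f1, f2⟩ := T δ hδ hδ1
  have hβe := D.sum_eq T Hx Hy hxy hβ hβ1 e1 e2
  have hδe := D.sum_eq T Hu Hv huv hδ hδ1 f1 f2
  have hz : γ ≠ 0 := fun h => D.L.R.z (h ▸ hγ)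
  have hfin : ∀ a b : Fin r → ℝ, Hi S h a → Hi S h b → γ = a - b →
      ∃ x y, Hi S h x ∧ Hi S h y ∧ x ≠ y ∧ γ = x - y := by
    intro a b Ha Hb he
    exact ⟨a, b, Ha, Hb, fun h => hz (by rw [he, h, sub_self]), he⟩
  by_cases h1 : x = u
  · exact hfin y v Hy Hv (by rw [e, hβe, hδe, h1]; abel)
  by_cases h2 : x = v
  · exact hfin y u Hy Hu (by rw [e, hβe, hδe, h2]; abel)
  by_cases h3 : y = u
  · exact hfin x v Hx Hv (by rw [e, hβe, hδe, h3]; abel)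
  by_cases h4 : y = v
  · exact hfin x u Hx Hu (by rw [e, hβe, hδe, h4]; abel)
  exfalso
  have hN := D.N1 T
  have hs := D.L.self hγ
  rw [e, hβe, hδe] at hs
  simp only [B_sub_left, B_sub_right, B_add_left, B_add_right] at hs
  rw [D.len x Hx.1, D.len y Hy.1, D.len u Hu.1, D.len v Hv.1, (D.hid x y Hx Hy hxy).2,
    (D.hid y x Hy Hx (Ne.symm hxy)).2, (D.hid u v Hu Hv huv).2,
    (D.hid v u Hv Hu (Ne.symm huv)).2, (D.hid x u Hx Hu h1).2, (D.hid x v Hx Hv h2).2,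
    (D.hid y u Hy Hu h3).2, (D.hid y v Hy Hv h4).2, (D.hid u x Hu Hx (Ne.symm h1)).2,
    (D.hid v x Hv Hx (Ne.symm h2)).2, (D.hid u y Hu Hy (Ne.symm h3)).2,
    (D.hid v y Hv Hy (Ne.symm h4)).2, hN] at hs
  norm_num at hs

open Classical in
/-- the orthogonal case -/
theorem Da.fin (D : Da c Φ S h N) (T : Two c Φ S h) : Ty2 Φ S ∨ No0 Φ h := by
  have hc := D.L.pos
  have hN := D.N1 T
  subst hN
  set P := S.filter (fun x => Hi S h x) with hP
  let e : Fin P.card → Fin r → ℝ := fun j => ((P.equivFin.symm j : P) : Fin r → ℝ)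
  have he : ∀ j, Hi S h (e j) := fun j => (mem_filter.1 (P.equivFin.symm j).2).2
  have hinj : ∀ i j, e i = e j → i = j := by
    intro i j hij
    exact P.equivFin.symm.injective (Subtype.ext hij)
  have hsurj : ∀ x, Hi S h x → ∃ j, x = e j := by
    intro x hx
    have hxP : x ∈ P := by rw [hP, mem_filter]; exact ⟨hx.1, hx⟩
    refine ⟨P.equivFin ⟨x, hxP⟩, ?_⟩
    show x = ((P.equivFin.symm (P.equivFin ⟨x, hxP⟩) : P) : Fin r → ℝ)
    rw [Equiv.symm_apply_apply]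
  have hB : ∀ i j, B c (e i) (e j) = if i = j then 1 else 0 := by
    intro i j
    by_cases hij : i = j
    · subst hij
      rw [if_pos rfl, D.len _ (he i).1]
    · rw [if_neg hij, (D.hid _ _ (he i) (he j) fun h => hij (hinj i j h)).2, sub_self]
  have hΦ : ∀ x, x ∈ Φ ↔ Dro e x := by
    intro x
    constructor
    · intro hx
      rcases D.L.R.lev x hx with h1 | h1 | h1
      · obtain ⟨u, v, Hu, Hv, huv, rfl⟩ := D.zero_root T hx h1
        obtain ⟨i, rfl⟩ := hsurj u Hu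
        obtain ⟨j, rfl⟩ := hsurj v Hv
        exact ⟨i, j, fun h => huv (by rw [h]), Or.inr (Or.inl rfl)⟩
      · obtain ⟨u, v, Hu, Hv, huv, f1, f2⟩ := T x hx h1
        have h3 := D.sum_eq T Hu Hv huv hx h1 f1 f2
        obtain ⟨i, rfl⟩ := hsurj u Hu
        obtain ⟨j, rfl⟩ := hsurj v Hv
        exact ⟨i, j, fun h => huv (by rw [h]), Or.inl h3⟩
      · have hx' := D.L.R.neg x hx
        have h1' : (-x) ⬝ᵥ h = 1 := by rw [neg_dotProduct, h1, neg_neg]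
        obtain ⟨u, v, Hu, Hv, huv, f1, f2⟩ := T _ hx' h1'
        have h3 := D.sum_eq T Hu Hv huv hx' h1' f1 f2
        obtain ⟨i, rfl⟩ := hsurj u Hu
        obtain ⟨j, rfl⟩ := hsurj v Hv
        refine ⟨i, j, fun h => huv (by rw [h]), Or.inr (Or.inr ?_)⟩
        rw [← neg_neg x, h3]; abel
    · rintro ⟨i, j, hij, rfl | rfl | rfl⟩
      · exact (D.sum_mem T (he i) (he j) fun h => hij (hinj i j h)).1
      · exact (D.hid _ _ (he i) (he j) fun h => hij (hinj i j h)).1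
      · have h1 := (D.sum_mem T (he i) (he j) fun h => hij (hinj i j h)).1
        have : -e i - e j = -(e i + e j) := by abel
        rw [this]
        exact D.L.R.neg _ h1
  have hO : Ort P.card (c / 2) e := by
    refine ⟨by positivity, ?_, ?_⟩
    · intro i j
      have h1 := hB i j
      unfold B at h1
      by_cases hij : i = j
      · rw [if_pos hij] at h1 ⊢
        field_simp at h1
        linarith
      · rw [if_neg hij] at h1 ⊢
        field_simp at h1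
        linarith
    · rw [eq_top_iff, ← D.L.R.spn, Submodule.span_le]
      intro x hx
      obtain ⟨i, j, -, h1⟩ := (hΦ x).1 hx
      have hi : e i ∈ Submodule.span ℝ (Set.range e) := Submodule.subset_span ⟨i, rfl⟩
      have hj : e j ∈ Submodule.span ℝ (Set.range e) := Submodule.subset_span ⟨j, rfl⟩
      rcases h1 with rfl | rfl | rfl
      · exact Submodule.add_mem _ hi hj
      · exact Submodule.sub_mem _ hi hj
      · exact Submodule.sub_mem _ (Submodule.neg_mem _ hi) hj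
  have hS : ∀ x, x ∈ S ↔ ∃ i, x = e i ∨ x = -e i := by
    intro x
    constructor
    · intro hx
      rcases D.cl x hx with h1 | h1
      · obtain ⟨i, hi⟩ := hsurj x h1
        exact ⟨i, Or.inl hi⟩
      · obtain ⟨i, hi⟩ := hsurj _ (D.lo_neg T h1)
        exact ⟨i, Or.inr (by rw [← hi, neg_neg])⟩
    · rintro ⟨i, rfl | rfl⟩
      · exact (he i).1
      · exact (D.hi_neg T (he i)).1
  by_cases hp : 4 ≤ P.card
  · left
    exact ⟨P.card, c / 2, e, hp, hO, hS, hΦ⟩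
  · right
    intro α hα β hβ hα1 hβ1 h0
    obtain ⟨x, y, Hx, Hy, hxy, e1, e2⟩ := T α hα hα1
    obtain ⟨u, v, Hu, Hv, huv, f1, f2⟩ := T β hβ hβ1
    have hαe := D.sum_eq T Hx Hy hxy hα hα1 e1 e2
    have hβe := D.sum_eq T Hu Hv huv hβ hβ1 f1 f2
    obtain ⟨i, rfl⟩ := hsurj x Hx
    obtain ⟨j, rfl⟩ := hsurj y Hy
    obtain ⟨k, rfl⟩ := hsurj u Hu
    obtain ⟨l, rfl⟩ := hsurj v Hv
    have hij : i ≠ j := fun h => hxy (by rw [h])
    have hkl : k ≠ l := fun h => huv (by rw [h])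
    have h1 : B c α β = 0 := by unfold B; rw [h0]; simp
    rw [hαe, hβe, B_add_left, B_add_right, B_add_right, hB, hB, hB, hB] at h1
    have h2 : i = k ∨ i = l ∨ j = k ∨ j = l := by
      have hi := i.2
      have hj := j.2
      have hk := k.2
      have hl := l.2
      have hij' : (i : ℕ) ≠ j := fun h => hij (Fin.ext h)
      have hkl' : (k : ℕ) ≠ l := fun h => hkl (Fin.ext h)
      simp only [Fin.ext_iff]
      omega
    have p1 : (0:ℝ) ≤ if i = k then 1 else 0 := by split_ifs <;> norm_num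
    have p2 : (0:ℝ) ≤ if i = l then 1 else 0 := by split_ifs <;> norm_num
    have p3 : (0:ℝ) ≤ if j = k then 1 else 0 := by split_ifs <;> norm_num
    have p4 : (0:ℝ) ≤ if j = l then 1 else 0 := by split_ifs <;> norm_num
    rcases h2 with h2 | h2 | h2 | h2
    · rw [if_pos h2] at h1; linarith
    · rw [if_pos h2] at h1; linarith
    · rw [if_pos h2] at h1; linarith
    · rw [if_pos h2] at h1; linarith

end da

end

end GC3

open GC3 GCb in
theorem c3_of (h1 : St_gen) (h2 : St_wtr) (h3 : St_pai) : St_c3 := by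
  intro r Φ h S R W hc C
  obtain ⟨c, hc⟩ := hc
  have L : SL c Φ h := ⟨R, hc⟩
  obtain ⟨N, D⟩ := exists_Da h1 h2 h3 L W C
  by_cases hT : Ty1 Φ S
  · exact Or.inl hT
  · exact Or.inr (D.fin (D.two_of hT))

end Pool.Agent.NH32
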