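import Pool.Agent.NH32.GCb

/-!
# Project G, stage 2: no orthogonal roots in the positive part
-/

set_option linter.unusedSectionVars false

namespace Pool.Agent.NH32

open Matrix

namespace GC4

noncomputable section

open GCb Finset

variable {r : ℕ}

/-- the roots are the differences of the vectors of a simplex -/
structure Fr (Φ : Finset (Fin r → ℝ)) (n : ℕ) (d : ℝ) (e : Fin n → Fin r → ℝ) : Prop where
  dpos : 0 < d
  sum : ∑ i, e i = 0
  gram : ∀ i j, e i ⬝ᵥ e j = d * ((if i = j then 1 else 0) - 1 / n)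
  roots : ∀ x, x ∈ Φ ↔ ∃ i j, i ≠ j ∧ x = e i - e j

lemma sum_dot {ι : Type*} (K : Finset ι) (f : ι → Fin r → ℝ) (y : Fin r → ℝ) :
    (∑ i ∈ K, f i) ⬝ᵥ y = ∑ i ∈ K, f i ⬝ᵥ y := by
  classical
  induction K using Finset.induction_on with
  | empty => simp
  | insert a s ha ih => rw [sum_insert ha, sum_insert ha, add_dotProduct, ih]

open Classical in
/-- the simplex -/
theorem exists_frame (hg : St_gen) {Φ : Finset (Fin r → ℝ)} {h : Fin r → ℝ} {c : ℝ}
    (L : SL c Φ h) (h0 : No0 Φ h) : ∃ (n : ℕ) (e : Fin n → Fin r → ℝ) (i₀ : Fin n),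
      Fr Φ n (c / 2) e ∧ ∀ j, j ≠ i₀ → (e i₀ - e j) ⬝ᵥ h = 1 := by
  have hc := L.pos
  set P := Φ.filter (fun x => x ⬝ᵥ h = 1) with hP
  set N := P.card with hN
  let al : Fin N → Fin r → ℝ := fun j => ((P.equivFin.symm j : P) : Fin r → ℝ)
  have hal : ∀ j, al j ∈ Φ ∧ al j ⬝ᵥ h = 1 := fun j => by
    have := (P.equivFin.symm j).2
    exact mem_filter.1 this
  have hinj : ∀ i j, al i = al j → i = j := by
    intro i j hij
    exact P.equivFin.symm.injective (Subtype.ext hij)
  have hsurj : ∀ x ∈ Φ, x ⬝ᵥ h = 1 → ∃ j, x = al j := by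
    intro x hx hx1
    have hxP : x ∈ P := by rw [hP, mem_filter]; exact ⟨hx, hx1⟩
    refine ⟨P.equivFin ⟨x, hxP⟩, ?_⟩
    show x = ((P.equivFin.symm (P.equivFin ⟨x, hxP⟩) : P) : Fin r → ℝ)
    rw [Equiv.symm_apply_apply]
  have hG : ∀ i j, al i ⬝ᵥ al j = c / 2 * (1 + if i = j then 1 else 0) := by
    intro i j
    by_cases hij : i = j
    · subst hij
      rw [if_pos rfl, L.sq _ (hal i).1]; ring
    · rw [if_neg hij]
      rcases L.val1 (hal i).1 (hal j).1 (hal i).2 (hal j).2 with e | e | e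
      · exact absurd (hinj i j e) hij
      · exfalso
        apply h0 _ (hal i).1 _ (hal j).1 (hal i).2 (hal j).2
        unfold B at e
        field_simp at e
        linarith
      · unfold B at e
        field_simp at e
        linarith
  have hB1 : ∀ i j, i ≠ j → al i - al j ∈ Φ := by
    intro i j hij
    apply L.sub_mem (hal i).1 (hal j).1
    unfold B
    rw [hG, if_neg hij]
    field_simp
    ring
  set e₀ : Fin r → ℝ := (1 / ((N : ℝ) + 1)) • ∑ j, al j with he₀
  have hn : (0:ℝ) < (N:ℝ) + 1 := by positivity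
  have hs1 : ∀ i, (∑ j, al j) ⬝ᵥ al i = c / 2 * (N + 1) := by
    intro i
    rw [sum_dot, sum_congr rfl (fun j _ => hG j i), ← mul_sum, sum_add_distrib, sum_const,
      card_univ, Fintype.card_fin, sum_ite_eq' univ i, if_pos (mem_univ _)]
    simp
  have h0a : ∀ i, e₀ ⬝ᵥ al i = c / 2 := by
    intro i
    rw [he₀, smul_dotProduct, hs1, smul_eq_mul]
    field_simp
  have h00 : e₀ ⬝ᵥ e₀ = c / 2 * (1 - 1 / ((N:ℝ) + 1)) := by
    have : e₀ ⬝ᵥ e₀ = (1 / ((N : ℝ) + 1)) * ∑ j : Fin N, al j ⬝ᵥ e₀ := by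
      conv_lhs => rw [he₀]
      rw [smul_dotProduct, sum_dot, smul_eq_mul, ← he₀]
    rw [this, sum_congr rfl (fun j _ => (dotProduct_comm (al j) e₀).trans (h0a j)), sum_const,
      card_univ, Fintype.card_fin, nsmul_eq_mul]
    field_simp
    ring
  let e : Fin (N + 1) → Fin r → ℝ := Fin.cons e₀ (fun j => e₀ - al j)
  have e0 : e 0 = e₀ := rfl
  have es : ∀ j : Fin N, e j.succ = e₀ - al j := fun j => rfl
  refine ⟨N + 1, e, 0, ⟨by positivity, ?_, ?_, ?_⟩, ?_⟩
  · rw [Fin.sum_univ_succ, e0, sum_congr rfl (fun j _ => es j), sum_sub_distrib, sum_const,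
      card_univ, Fintype.card_fin]
    have h1 : (∑ j, al j) = ((N:ℝ) + 1) • e₀ := by
      rw [he₀, smul_smul, mul_one_div_cancel hn.ne', one_smul]
    rw [h1, ← Nat.cast_smul_eq_nsmul ℝ]
    module
  · have hcast : ((N + 1 : ℕ) : ℝ) = (N:ℝ) + 1 := by push_cast; ring
    intro i j
    rw [hcast]
    refine Fin.cases ?_ (fun i' => ?_) i
    · refine Fin.cases ?_ (fun j' => ?_) j
      · rw [if_pos rfl, e0, h00]
      · rw [if_neg (Fin.succ_ne_zero j').symm, e0, es, dotProduct_sub, h00, h0a]; ring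
    · refine Fin.cases ?_ (fun j' => ?_) j
      · rw [if_neg (Fin.succ_ne_zero i'), e0, es, sub_dotProduct, h00,
          dotProduct_comm (al i') e₀, h0a]; ring
      · rw [es, es, sub_dotProduct, dotProduct_sub, dotProduct_sub, h00, h0a,
          dotProduct_comm (al i') e₀, h0a, hG]
        simp only [Fin.succ_inj]
        ring
  · have hne : ∀ j : Fin N, e 0 - e j.succ = al j := by
      intro j; rw [e0, es]; abel
    intro x
    constructor
    · intro hx
      rcases L.R.lev x hx with hx0 | hx0 | hx0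
      · obtain ⟨α, hα, β, hβ, h1, h2, rfl⟩ := gen_dot hg L.R x hx hx0
        obtain ⟨i, rfl⟩ := hsurj α hα h1
        obtain ⟨j, rfl⟩ := hsurj β hβ h2
        have hij : j ≠ i := by
          rintro rfl
          apply L.R.z
          rwa [sub_self] at hx
        refine ⟨j.succ, i.succ, fun h => hij (Fin.succ_injective _ h), ?_⟩
        rw [es, es]; abel
      · obtain ⟨j, rfl⟩ := hsurj x hx hx0
        exact ⟨0, j.succ, (Fin.succ_ne_zero j).symm, (hne j).symm⟩
      · have h1 : (-x) ⬝ᵥ h = 1 := by rw [neg_dotProduct, hx0, neg_neg]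
        obtain ⟨j, hj⟩ := hsurj (-x) (L.R.neg x hx) h1
        refine ⟨j.succ, 0, Fin.succ_ne_zero j, ?_⟩
        rw [← neg_sub, hne, ← hj, neg_neg]
    · rintro ⟨i, j, hij, rfl⟩
      revert hij
      refine Fin.cases ?_ (fun i' => ?_) i
      · refine Fin.cases ?_ (fun j' => ?_) j
        · intro h; exact absurd rfl h
        · intro _; rw [hne]; exact (hal j').1
      · refine Fin.cases ?_ (fun j' => ?_) j
        · intro _; rw [← neg_sub, hne]; exact L.R.neg _ (hal i').1
        · intro hij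
          have h1 : e i'.succ - e j'.succ = al j' - al i' := by rw [es, es]; abel
          rw [h1]
          exact hB1 _ _ fun h => hij (by rw [h])
  · intro j
    refine Fin.cases (fun h => absurd rfl h) (fun j' _ => ?_) j
    rw [e0, es]
    have : e₀ - (e₀ - al j') = al j' := by abel
    rw [this]
    exact (hal j').2

section frame
variable {Φ S : Finset (Fin r → ℝ)} {h : Fin r → ℝ} {n : ℕ} {d : ℝ} {e : Fin n → Fin r → ℝ}

lemma Fr.sumdot (F : Fr Φ n d e) (K : Finset (Fin n)) (j : Fin n) :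
    (∑ i ∈ K, e i) ⬝ᵥ e j = d * ((if j ∈ K then 1 else 0) - (K.card : ℝ) / n) := by
  rw [sum_dot, sum_congr rfl (fun i _ => F.gram i j), ← mul_sum, sum_sub_distrib, sum_const,
    sum_ite_eq' K j, nsmul_eq_mul]
  ring

lemma Fr.sq (F : Fr Φ n d e) {i j : Fin n} (hij : i ≠ j) :
    (e i - e j) ⬝ᵥ (e i - e j) = 2 * d := by
  rw [sub_dotProduct, dotProduct_sub, dotProduct_sub, F.gram, F.gram, F.gram, F.gram,
    if_pos rfl, if_pos rfl, if_neg hij, if_neg hij.symm]
  ring

lemma Fr.pr_eq (F : Fr Φ n d e) {i j : Fin n} (hij : i ≠ j) (x : Fin r → ℝ) :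
    pr (e i - e j) x = x ⬝ᵥ e i / d - x ⬝ᵥ e j / d := by
  have := F.dpos
  unfold pr
  rw [F.sq hij, dotProduct_sub]
  field_simp

lemma Fr.swap (F : Fr Φ n d e) {i j : Fin n} (hij : i ≠ j) (l : Fin n) :
    rf (e i - e j) (e l) = e (Equiv.swap i j l) := by
  have hd := F.dpos.ne'
  unfold rf
  rw [F.pr_eq hij, F.gram, F.gram, mul_div_cancel_left₀ _ hd, mul_div_cancel_left₀ _ hd]
  by_cases h1 : l = i
  · subst h1
    rw [if_pos rfl, if_neg hij, Equiv.swap_apply_left]
    module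
  · by_cases h2 : l = j
    · subst h2
      rw [if_pos rfl, if_neg h1, Equiv.swap_apply_right]
      module
    · rw [if_neg h1, if_neg h2, Equiv.swap_apply_of_ne_of_ne h1 h2]
      module

lemma rf_sum {ι : Type*} (γ : Fin r → ℝ) (K : Finset ι) (f : ι → Fin r → ℝ) :
    rf γ (∑ i ∈ K, f i) = ∑ i ∈ K, rf γ (f i) := by
  unfold rf pr
  rw [sum_dot, sum_sub_distrib, ← sum_smul]
  congr 2
  rw [mul_sum, sum_div]

lemma Fr.exists_K (F : Fr Φ n d e) (R : RS Φ h) (W : MW Φ h S) {s : Fin r → ℝ} (hs : s ∈ S) :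
    ∃ K : Finset (Fin n), s = ∑ i ∈ K, e i := by
  have hd := F.dpos
  obtain ⟨γ, hγ, -⟩ := R.ex
  obtain ⟨i1, j1, -, -⟩ := (F.roots γ).1 hγ
  have : Nonempty (Fin n) := ⟨i1⟩
  have hn : (0:ℝ) < n := by
    have : 0 < n := Fin.pos i1
    exact_mod_cast this
  set x : Fin n → ℝ := fun i => s ⬝ᵥ e i / d with hx
  have hdiff : ∀ i j, i ≠ j → x i - x j = 0 ∨ x i - x j = 1 ∨ x i - x j = -1 := by
    intro i j hij
    have h1 := W.min (e i - e j) ((F.roots _).2 ⟨i, j, hij, rfl⟩) s hs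
    rwa [F.pr_eq hij] at h1
  obtain ⟨m, hm⟩ := Finite.exists_max x
  set K : Finset (Fin n) := univ.filter (fun i => x i = x m) with hK
  have hval : ∀ i, x i = x m - 1 + (if i ∈ K then 1 else 0) := by
    intro i
    by_cases hi : i ∈ K
    · rw [if_pos hi]
      rw [hK, mem_filter] at hi
      rw [hi.2]; ring
    · rw [if_neg hi]
      have hne : x i ≠ x m := fun h => hi (by rw [hK, mem_filter]; exact ⟨mem_univ _, h⟩)
      have him : i ≠ m := fun h => hne (by rw [h])
      have := hm i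
      rcases hdiff i m him with h1 | h1 | h1
      · exact absurd (by linarith) hne
      · linarith
      · linarith
  have hsum : ∑ i, x i = 0 := by
    have h1 : ∑ i, x i = (s ⬝ᵥ ∑ i, e i) / d := by
      rw [dotProduct_comm, sum_dot, sum_div]
      exact sum_congr rfl fun i _ => by rw [hx, dotProduct_comm]
    rw [h1, F.sum]; simp
  have hm1 : (n:ℝ) * (x m - 1) + K.card = 0 := by
    rw [← hsum, sum_congr rfl (fun i _ => hval i), sum_add_distrib, sum_const, card_univ,
      Fintype.card_fin, nsmul_eq_mul, sum_ite_mem, univ_inter, sum_const, nsmul_eq_mul, mul_one]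
  refine ⟨K, ?_⟩
  rw [← sub_eq_zero]
  apply orth_zero R
  intro γ hγ
  obtain ⟨i, j, -, rfl⟩ := (F.roots γ).1 hγ
  have key : ∀ i, (s - ∑ i ∈ K, e i) ⬝ᵥ e i = 0 := by
    intro i
    rw [sub_dotProduct, F.sumdot]
    have h1 : s ⬝ᵥ e i = d * x i := by rw [hx]; field_simp
    rw [h1, hval i]
    have h2 : x m - 1 = -((K.card : ℝ) / n) := by
      field_simp
      linarith
    rw [h2]
    ring
  rw [dotProduct_sub, key, key, sub_zero]

/-- the group generated by the reflections acts by all permutations -/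
lemma Fr.perm (F : Fr Φ n d e) (W : MW Φ h S) {K : Finset (Fin n)} (hK : ∑ i ∈ K, e i ∈ S)
    (σ : Equiv.Perm (Fin n)) : ∑ i ∈ K, e (σ i) ∈ S := by
  induction σ using Equiv.Perm.swap_induction_on with
  | one => simpa using hK
  | swap_mul f x y hxy ih =>
    have h1 : ∑ i ∈ K, e ((Equiv.swap x y * f) i) = rf (e x - e y) (∑ i ∈ K, e (f i)) := by
      rw [rf_sum]
      exact sum_congr rfl fun i _ => by rw [F.swap hxy]; rfl
    rw [h1]
    exact W.rfl _ ((F.roots _).2 ⟨x, y, hxy, rfl⟩) _ ih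

lemma sum_perm {K K' : Finset (Fin n)} (hc : K.card = K'.card) (e : Fin n → Fin r → ℝ) :
    ∃ σ : Equiv.Perm (Fin n), ∑ i ∈ K, e (σ i) = ∑ i ∈ K', e i := by
  let f : {x // x ∈ K} ≃ {x // x ∈ K'} := Finset.equivOfCardEq hc
  refine ⟨f.extendSubtype, ?_⟩
  rw [← Finset.sum_coe_sort K, ← Finset.sum_coe_sort K']
  rw [← f.sum_comp]
  refine sum_congr rfl fun i _ => ?_
  rw [Equiv.extendSubtype_apply_of_mem f i i.2]

open Classical in
/-- the weights are the sums over the sets with `k` elements -/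
theorem Fr.exists_k (F : Fr Φ n d e) (R : RS Φ h) (W : MW Φ h S) :
    ∃ k : ℕ, 1 ≤ k ∧ k + 1 ≤ n ∧
      ∀ x, x ∈ S ↔ ∃ K : Finset (Fin n), K.card = k ∧ x = ∑ i ∈ K, e i := by
  obtain ⟨s₀, hs₀⟩ := W.ne
  obtain ⟨K₀, hK₀⟩ := F.exists_K R W hs₀
  refine ⟨K₀.card, ?_, ?_, ?_⟩
  · by_contra h1
    have h2 : K₀ = ∅ := card_eq_zero.1 (by omega)
    rw [h2, sum_empty] at hK₀
    exact W.nz (hK₀ ▸ hs₀)
  · by_contra h1
    have h2 : K₀ = univ := by
      rw [← card_eq_iff_eq_univ, Fintype.card_fin]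
      have h3 := card_le_univ K₀
      rw [Fintype.card_fin] at h3
      omega
    rw [h2, F.sum] at hK₀
    exact W.nz (hK₀ ▸ hs₀)
  · have hS : S.filter (fun x => ∃ K : Finset (Fin n), K.card = K₀.card ∧ x = ∑ i ∈ K, e i)
        = S := by
      apply W.tr _ (filter_subset _ _)
      · exact ⟨s₀, mem_filter.2 ⟨hs₀, K₀, rfl, hK₀⟩⟩
      · intro γ hγ s hs
        rw [mem_filter] at hs ⊢
        obtain ⟨hs1, K, hK, rfl⟩ := hs
        refine ⟨W.rfl γ hγ _ hs1, ?_⟩
        obtain ⟨i, j, hij, rfl⟩ := (F.roots γ).1 hγ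
        refine ⟨K.map (Equiv.swap i j).toEmbedding, by rw [card_map, hK], ?_⟩
        rw [rf_sum, sum_map]
        exact sum_congr rfl fun l _ => F.swap hij l
    intro x
    constructor
    · intro hx
      rw [← hS, mem_filter] at hx
      exact hx.2
    · rintro ⟨K, hK, rfl⟩
      obtain ⟨σ, hσ⟩ := sum_perm hK.symm e
      rw [← hσ]
      exact F.perm W (hK₀ ▸ hs₀) σ

end frame

end

end GC4

open GC4 GCb in
theorem c4_of (h1 : St_gen) (_h3 : St_pai) : St_c4 := by
  classical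
  intro r Φ h S R W hc h0
  obtain ⟨c, hc⟩ := hc
  have L : SL c Φ h := ⟨R, hc⟩
  obtain ⟨n, e, i₀, F, hi₀⟩ := exists_frame h1 L h0
  obtain ⟨k, hk1, hkn, hS⟩ := F.exists_k R W
  have hd := F.dpos
  have horth : ∀ i j l, l ≠ i → l ≠ j → (e i - e j) ⬝ᵥ e l = 0 := by
    intro i j l hi hj
    rw [sub_dotProduct, F.gram, F.gram, if_neg hi.symm, if_neg hj.symm, sub_self]
  by_cases hk : k = 1
  · left
    subst hk
    have hS1 : ∀ x ∈ S, ∃ i, x = e i := by
      intro x hx
      obtain ⟨K, hK, rfl⟩ := (hS x).1 hx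
      obtain ⟨i, rfl⟩ := Finset.card_eq_one.1 hK
      exact ⟨i, Finset.sum_singleton _ _⟩
    intro s hs s' hs' hne
    obtain ⟨i, rfl⟩ := hS1 s hs
    obtain ⟨j, rfl⟩ := hS1 s' hs'
    have hij : i ≠ j := fun h => hne (by rw [h])
    refine ⟨(F.roots _).2 ⟨i, j, hij, rfl⟩, ?_⟩
    intro t ht hti htj
    obtain ⟨l, rfl⟩ := hS1 t ht
    exact horth i j l (fun h => hti (by rw [h])) (fun h => htj (by rw [h]))
  · by_cases hk' : k + 1 = n
    · left
      have hS1 : ∀ x ∈ S, ∃ i, x = -e i := by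
        intro x hx
        obtain ⟨K, hK, rfl⟩ := (hS x).1 hx
        have hcc : Kᶜ.card = 1 := by
          rw [Finset.card_compl, Fintype.card_fin]; omega
        obtain ⟨i, hi⟩ := Finset.card_eq_one.1 hcc
        refine ⟨i, ?_⟩
        have h2 := Finset.sum_add_sum_compl K e
        rw [F.sum, hi, Finset.sum_singleton] at h2
        exact eq_neg_of_add_eq_zero_left h2
      intro s hs s' hs' hne
      obtain ⟨i, rfl⟩ := hS1 s hs
      obtain ⟨j, rfl⟩ := hS1 s' hs'
      have hij : j ≠ i := fun h => hne (by rw [h])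
      have hd1 : -e i - -e j = e j - e i := by abel
      rw [hd1]
      refine ⟨(F.roots _).2 ⟨j, i, hij, rfl⟩, ?_⟩
      intro t ht hti htj
      obtain ⟨l, rfl⟩ := hS1 t ht
      rw [dotProduct_neg, horth j i l (fun h => htj (by rw [h])) (fun h => hti (by rw [h])),
        neg_zero]
    · right
      exact ⟨n, k, c / 2, e, by omega, by omega, hd, F.sum, F.gram, F.roots, hS, i₀,
        Or.inl hi₀⟩

end Pool.Agent.NH32
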