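import Pool.Agent.NH32.GtC

/-!
# Project G, stage 2: roots of different lengths (helper40)
-/

namespace Pool.Agent.NH32

open Matrix

namespace GC5

variable {r : ℕ}

/-! ### Reflections -/

lemma pr_add (g x y : Fin r → ℝ) : pr g (x + y) = pr g x + pr g y := by
  unfold pr; rw [add_dotProduct]; ring

lemma pr_sub (g x y : Fin r → ℝ) : pr g (x - y) = pr g x - pr g y := by
  unfold pr; rw [sub_dotProduct]; ring

lemma sq_pos {x : Fin r → ℝ} (hx : x ≠ 0) : 0 < x ⬝ᵥ x := by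
  have h1 : 0 ≤ x ⬝ᵥ x := by
    unfold dotProduct
    exact Finset.sum_nonneg fun i _ => mul_self_nonneg _
  refine lt_of_le_of_ne h1 fun h => hx ?_
  exact dotProduct_self_eq_zero.1 h.symm

lemma rf_dot {γ : Fin r → ℝ} (hγ : γ ≠ 0) (x y : Fin r → ℝ) : rf γ x ⬝ᵥ rf γ y = x ⬝ᵥ y := by
  have h := (sq_pos hγ).ne'
  unfold rf pr
  simp only [sub_dotProduct, dotProduct_sub, smul_dotProduct, dotProduct_smul, smul_eq_mul]
  rw [dotProduct_comm γ y]
  field_simp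
  ring

lemma rf_dot_left (γ x y : Fin r → ℝ) : rf γ x ⬝ᵥ y = x ⬝ᵥ y - pr γ x * (γ ⬝ᵥ y) := by
  unfold rf
  rw [sub_dotProduct, smul_dotProduct, smul_eq_mul]

lemma pr_ne {γ x : Fin r → ℝ} (hγ : γ ≠ 0) (h : x ⬝ᵥ γ ≠ 0) : pr γ x ≠ 0 := by
  unfold pr
  exact div_ne_zero (mul_ne_zero two_ne_zero h) (sq_pos hγ).ne'

section
variable {Φ S : Finset (Fin r → ℝ)} {h : Fin r → ℝ}

lemma ne0 (hR : RS Φ h) {γ : Fin r → ℝ} (hγ : γ ∈ Φ) : γ ≠ 0 := by
  rintro rfl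
  exact hR.z hγ

/-- a set of roots stable under the reflections meets every root -/
lemma meet (hR : RS Φ h) {G : (Fin r → ℝ) → Prop} (hG : ∀ g, G g → g ∈ Φ) (hne : ∃ g, G g)
    (hcl : ∀ γ ∈ Φ, ∀ g, G g → G (rf γ g)) {a : Fin r → ℝ} (ha : a ∈ Φ) :
    ∃ g, G g ∧ a ⬝ᵥ g ≠ 0 := by
  classical
  by_contra hc
  push Not at hc
  have h1 := hR.irr (Φ.filter fun γ => ∀ g, G g → γ ⬝ᵥ g = 0) (Finset.filter_subset _ _) (by
    intro γ hγ δ hδ hδ'
    rw [Finset.mem_filter] at hγ hδ'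
    push Not at hδ'
    obtain ⟨g, hg, hg'⟩ := hδ' hδ
    have h2 := hγ.2 _ (hcl δ hδ g hg)
    rw [dotProduct_comm, rf_dot_left, dotProduct_comm g γ, hγ.2 g hg, zero_sub, neg_eq_zero,
      mul_eq_zero] at h2
    have h3 := pr_ne (ne0 hR hδ) (x := g) (by rw [dotProduct_comm]; exact hg')
    rw [dotProduct_comm]
    exact h2.resolve_left h3)
  rcases h1 with h1 | h1
  · have h2 : a ∈ (∅ : Finset (Fin r → ℝ)) := by
      rw [← h1, Finset.mem_filter]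
      exact ⟨ha, hc⟩
    simp at h2
  · obtain ⟨g, hg⟩ := hne
    have h2 := hG g hg
    rw [← h1, Finset.mem_filter] at h2
    exact (sq_pos (ne0 hR (hG g hg))).ne' (h2.2 g hg)

lemma spanG (hR : RS Φ h) {G : (Fin r → ℝ) → Prop} (hG : ∀ g, G g → g ∈ Φ) (hne : ∃ g, G g)
    (hcl : ∀ γ ∈ Φ, ∀ g, G g → G (rf γ g)) : Submodule.span ℝ {g | G g} = ⊤ := by
  rw [eq_top_iff, ← hR.spn, Submodule.span_le]
  intro γ hγ
  obtain ⟨g, hg, hg'⟩ := meet hR hG hne hcl hγ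
  have h1 : pr γ g ≠ 0 := pr_ne (ne0 hR hγ) (by rw [dotProduct_comm]; exact hg')
  have h2 : γ = (pr γ g)⁻¹ • (g - rf γ g) := by
    unfold rf
    rw [sub_sub_cancel, smul_smul, inv_mul_cancel₀ h1, one_smul]
  rw [h2]
  exact Submodule.smul_mem _ _ (Submodule.sub_mem _ (Submodule.subset_span hg)
    (Submodule.subset_span (hcl γ hγ g hg)))

/-- the strict inequality of Cauchy and Schwarz -/
lemma cs (hR : RS Φ h) {a b : Fin r → ℝ} (ha : a ∈ Φ) (hb : b ∈ Φ) (h1 : b ≠ a) (h2 : b ≠ -a) :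
    (a ⬝ᵥ b) ^ 2 < (a ⬝ᵥ a) * (b ⬝ᵥ b) := by
  have hA := sq_pos (ne0 hR ha)
  set t := (a ⬝ᵥ b) / (a ⬝ᵥ a) with ht
  have h3 : b - t • a ≠ 0 := by
    intro h0
    have h4 : b = t • a := sub_eq_zero.1 h0
    rcases hR.red a ha t (h4 ▸ hb) with h5 | h5
    · rw [h5, one_smul] at h4
      exact h1 h4
    · rw [h5, neg_one_smul] at h4
      exact h2 h4
  have h4 := sq_pos h3
  simp only [sub_dotProduct, dotProduct_sub, smul_dotProduct, dotProduct_smul, smul_eq_mul] at h4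
  rw [dotProduct_comm b a] at h4
  have h5 : t * (a ⬝ᵥ a) = a ⬝ᵥ b := by rw [ht]; field_simp
  have h6 : b ⬝ᵥ b - t * (a ⬝ᵥ b) - t * (a ⬝ᵥ b - t * (a ⬝ᵥ a)) = b ⬝ᵥ b - t * (a ⬝ᵥ b) := by
    rw [h5]; ring
  have h7 : 0 < b ⬝ᵥ b - t * (a ⬝ᵥ b) := by
    rw [← h6]
    linarith
  have h8 : 0 < (a ⬝ᵥ a) * (b ⬝ᵥ b - t * (a ⬝ᵥ b)) := mul_pos hA h7
  have h9 : (a ⬝ᵥ a) * (b ⬝ᵥ b - t * (a ⬝ᵥ b)) = (a ⬝ᵥ a) * (b ⬝ᵥ b) - (a ⬝ᵥ b) ^ 2 := by
    calc (a ⬝ᵥ a) * (b ⬝ᵥ b - t * (a ⬝ᵥ b)) =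
          (a ⬝ᵥ a) * (b ⬝ᵥ b) - (t * (a ⬝ᵥ a)) * (a ⬝ᵥ b) := by ring
      _ = _ := by rw [h5]; ring
  linarith

/-- the possible lengths and products -/
lemma len (hR : RS Φ h) {a b : Fin r → ℝ} (ha : a ∈ Φ) (hb : b ∈ Φ) (h1 : b ≠ a) (h2 : b ≠ -a)
    (hab : 0 < a ⬝ᵥ b) :
    (b ⬝ᵥ b = a ⬝ᵥ a ∧ 2 * (a ⬝ᵥ b) = a ⬝ᵥ a) ∨ (b ⬝ᵥ b = 2 * (a ⬝ᵥ a) ∧ 2 * (a ⬝ᵥ b) = b ⬝ᵥ b) ∨
    (a ⬝ᵥ a = 2 * (b ⬝ᵥ b) ∧ 2 * (a ⬝ᵥ b) = a ⬝ᵥ a) ∨
    (b ⬝ᵥ b = 3 * (a ⬝ᵥ a) ∧ 2 * (a ⬝ᵥ b) = b ⬝ᵥ b) ∨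
    (a ⬝ᵥ a = 3 * (b ⬝ᵥ b) ∧ 2 * (a ⬝ᵥ b) = a ⬝ᵥ a) := by
  have hA := sq_pos (ne0 hR ha)
  have hB := sq_pos (ne0 hR hb)
  obtain ⟨m, hm⟩ := hR.int a ha b hb
  obtain ⟨n, hn⟩ := hR.int b hb a ha
  have h3 := cs hR ha hb h1 h2
  unfold pr at hm hn
  rw [dotProduct_comm b a, div_eq_iff hA.ne'] at hm
  rw [div_eq_iff hB.ne'] at hn
  set A := a ⬝ᵥ a
  set B := b ⬝ᵥ b
  set D := a ⬝ᵥ b
  have m0 : (0 : ℝ) < m := by
    by_contra hc
    push Not at hc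
    nlinarith
  have n0 : (0 : ℝ) < n := by
    by_contra hc
    push Not at hc
    nlinarith
  have h4 : (m : ℝ) * n < 4 := by
    by_contra hc
    push Not at hc
    have h5 : (2 * D) * (2 * D) = (m * n) * (A * B) := by
      calc (2 * D) * (2 * D) = (m * A) * (n * B) := by rw [← hm, ← hn]
        _ = _ := by ring
    have h6 : 4 * (A * B) ≤ (m * n) * (A * B) := mul_le_mul_of_nonneg_right hc (by positivity)
    nlinarith
  have m0' : 0 < m := by exact_mod_cast m0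
  have n0' : 0 < n := by exact_mod_cast n0
  have h4' : m * n < 4 := by exact_mod_cast h4
  have m4 : m < 4 := by nlinarith
  have n4 : n < 4 := by nlinarith
  have hc : (m = 1 ∧ n = 1) ∨ (m = 2 ∧ n = 1) ∨ (m = 1 ∧ n = 2) ∨ (m = 3 ∧ n = 1) ∨
      (m = 1 ∧ n = 3) := by
    have : m = 1 ∨ m = 2 ∨ m = 3 := by omega
    have : n = 1 ∨ n = 2 ∨ n = 3 := by omega
    rcases ‹m = 1 ∨ m = 2 ∨ m = 3› with rfl | rfl | rfl <;>
    rcases ‹n = 1 ∨ n = 2 ∨ n = 3› with rfl | rfl | rfl <;> simp at h4' ⊢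
  rcases hc with ⟨rfl, rfl⟩ | ⟨rfl, rfl⟩ | ⟨rfl, rfl⟩ | ⟨rfl, rfl⟩ | ⟨rfl, rfl⟩
  · left
    push_cast at hm hn
    constructor <;> linarith
  · right; left
    push_cast at hm hn
    constructor <;> linarith
  · right; right; left
    push_cast at hm hn
    constructor <;> linarith
  · right; right; right; left
    push_cast at hm hn
    constructor <;> linarith
  · right; right; right; right
    push_cast at hm hn
    constructor <;> linarith

/-- the quotient `3` does not occur -/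
lemma no3 (hR : RS Φ h) (hM : MW Φ h S) (h3 : St_pai) {a b : Fin r → ℝ} (ha : a ∈ Φ)
    (hb : b ∈ Φ) (hA : a ⬝ᵥ a = 3 * (b ⬝ᵥ b)) (hD : 2 * (a ⬝ᵥ b) = a ⬝ᵥ a) : False := by
  have hB := sq_pos (ne0 hR hb)
  obtain ⟨s, hs, hs1⟩ := (h3 r Φ h S hR hM).1 a ha
  have h1 : rf a b = b - a := by
    unfold rf pr
    rw [dotProduct_comm b a, hD, div_self (by rw [hA]; positivity), one_smul]
  have h2 : b - a ∈ Φ := h1 ▸ hR.rfl a ha b hb
  have h4 : (b - a) ⬝ᵥ (b - a) = b ⬝ᵥ b := by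
    simp only [sub_dotProduct, dotProduct_sub]
    rw [dotProduct_comm b a]
    linarith
  have h5 := hM.min _ h2 s hs
  have h6 := hM.min b hb s hs
  unfold pr at hs1 h5 h6
  rw [h4, dotProduct_sub] at h5
  rw [div_eq_iff (by rw [hA]; positivity)] at hs1
  rw [div_eq_iff hB.ne', div_eq_iff hB.ne', div_eq_iff hB.ne'] at h5 h6
  rcases h5 with h5 | h5 | h5 <;> rcases h6 with h6 | h6 | h6 <;> nlinarith

/-- two lengths -/
structure TL (Φ : Finset (Fin r → ℝ)) (c : ℝ) : Prop where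
  pos : 0 < c
  two : ∀ γ ∈ Φ, γ ⬝ᵥ γ = c ∨ γ ⬝ᵥ γ = 2 * c
  sh : ∃ γ ∈ Φ, γ ⬝ᵥ γ = c
  lo : ∃ γ ∈ Φ, γ ⬝ᵥ γ = 2 * c

lemma rf_sq (hR : RS Φ h) {γ x : Fin r → ℝ} (hγ : γ ∈ Φ) : rf γ x ⬝ᵥ rf γ x = x ⬝ᵥ x :=
  rf_dot (ne0 hR hγ) x x

/-- the roots of a given length are stable -/
lemma len_cl (hR : RS Φ h) (c : ℝ) : ∀ γ ∈ Φ, ∀ g, (g ∈ Φ ∧ g ⬝ᵥ g = c) →
    (rf γ g ∈ Φ ∧ rf γ g ⬝ᵥ rf γ g = c) :=
  fun γ hγ g hg => ⟨hR.rfl γ hγ g hg.1, by rw [rf_sq hR hγ]; exact hg.2⟩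

lemma tl (hR : RS Φ h) (hM : MW Φ h S) (h3 : St_pai)
    (hne : ¬ ∃ c, ∀ γ ∈ Φ, γ ⬝ᵥ γ = c) : ∃ c, TL Φ c := by
  obtain ⟨γ₀, hγ₀, -⟩ := hR.ex
  obtain ⟨b, hb, hmin⟩ := Finset.exists_min_image Φ (fun γ => γ ⬝ᵥ γ) ⟨γ₀, hγ₀⟩
  have hB := sq_pos (ne0 hR hb)
  have key : ∀ γ ∈ Φ, γ ⬝ᵥ γ = b ⬝ᵥ b ∨ γ ⬝ᵥ γ = 2 * (b ⬝ᵥ b) := by
    intro γ hγ
    obtain ⟨g, ⟨hg, hgb⟩, hγg⟩ := meet hR (G := fun g => g ∈ Φ ∧ g ⬝ᵥ g = b ⬝ᵥ b)
      (fun g hg => hg.1) ⟨b, hb, _root_.rfl⟩ (len_cl hR _) hγ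
    have hle := hmin γ hγ
    -- choose the sign
    have main : ∀ g' ∈ Φ, g' ⬝ᵥ g' = b ⬝ᵥ b → 0 < γ ⬝ᵥ g' →
        γ ⬝ᵥ γ = b ⬝ᵥ b ∨ γ ⬝ᵥ γ = 2 * (b ⬝ᵥ b) := by
      intro g' hg' hgb' hpos
      by_cases e1 : g' = γ
      · left
        rw [← hgb', e1]
      by_cases e2 : g' = -γ
      · left
        rw [← hgb', e2, neg_dotProduct, dotProduct_neg, neg_neg]
      rcases len hR hγ hg' e1 e2 hpos with h1 | h1 | h1 | h1 | h1
      · left; linarith [h1.1]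
      · left; linarith [h1.1]
      · right; linarith [h1.1]
      · left; linarith [h1.1]
      · exfalso
        exact no3 hR hM h3 hγ hg' h1.1 h1.2
    rcases lt_or_gt_of_ne hγg with h1 | h1
    · refine main (-g) (hR.neg g hg) ?_ ?_
      · rw [neg_dotProduct, dotProduct_neg, neg_neg, hgb]
      · rw [dotProduct_neg]
        linarith
    · exact main g hg hgb h1
  refine ⟨b ⬝ᵥ b, hB, key, ⟨b, hb, _root_.rfl⟩, ?_⟩
  by_contra hc
  push Not at hc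
  exact hne ⟨b ⬝ᵥ b, fun γ hγ => (key γ hγ).resolve_right (hc γ hγ)⟩

section two
variable {c : ℝ}

lemma prodLS (hR : RS Φ h) (hT : TL Φ c) {a b : Fin r → ℝ} (ha : a ∈ Φ) (hb : b ∈ Φ)
    (hA : a ⬝ᵥ a = 2 * c) (hB : b ⬝ᵥ b = c) : a ⬝ᵥ b = 0 ∨ a ⬝ᵥ b = c ∨ a ⬝ᵥ b = -c := by
  have hc := hT.pos
  have main : ∀ b' ∈ Φ, b' ⬝ᵥ b' = c → 0 < a ⬝ᵥ b' → a ⬝ᵥ b' = c := by
    intro b' hb' hB' hpos
    have e1 : b' ≠ a := by
      rintro rfl
      linarith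
    have e2 : b' ≠ -a := by
      rintro rfl
      rw [neg_dotProduct, dotProduct_neg, neg_neg] at hB'
      linarith
    rcases len hR ha hb' e1 e2 hpos with h1 | h1 | h1 | h1 | h1 <;> linarith [h1.1, h1.2]
  rcases lt_trichotomy (a ⬝ᵥ b) 0 with h1 | h1 | h1
  · right; right
    have h2 := main (-b) (hR.neg b hb) (by rw [neg_dotProduct, dotProduct_neg, neg_neg, hB])
      (by rw [dotProduct_neg]; linarith)
    rw [dotProduct_neg] at h2
    linarith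
  · left; exact h1
  · right; left
    exact main b hb hB h1

/-- products of roots of the same length -/
lemma prodEq (hR : RS Φ h) {d : ℝ} (hd : 0 < d) {a b : Fin r → ℝ} (ha : a ∈ Φ) (hb : b ∈ Φ)
    (hA : a ⬝ᵥ a = d) (hB : b ⬝ᵥ b = d) (e1 : b ≠ a) (e2 : b ≠ -a) :
    a ⬝ᵥ b = 0 ∨ a ⬝ᵥ b = d / 2 ∨ a ⬝ᵥ b = -(d / 2) := by
  have main : ∀ b' ∈ Φ, b' ⬝ᵥ b' = d → b' ≠ a → b' ≠ -a → 0 < a ⬝ᵥ b' → a ⬝ᵥ b' = d / 2 := by
    intro b' hb' hB' e1 e2 hpos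
    rcases len hR ha hb' e1 e2 hpos with h1 | h1 | h1 | h1 | h1 <;> linarith [h1.1, h1.2]
  rcases lt_trichotomy (a ⬝ᵥ b) 0 with h1 | h1 | h1
  · right; right
    have h2 := main (-b) (hR.neg b hb) (by rw [neg_dotProduct, dotProduct_neg, neg_neg, hB])
      (by
        intro h0
        apply e2
        rw [← h0, neg_neg])
      (by
        intro h0
        exact e1 (neg_injective h0))
      (by rw [dotProduct_neg]; linarith)
    rw [dotProduct_neg] at h2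
    linarith
  · left; exact h1
  · right; left
    exact main b hb hB e1 e2 h1

lemma minS (hR : RS Φ h) (hM : MW Φ h S) (hT : TL Φ c) {b s : Fin r → ℝ} (hb : b ∈ Φ)
    (hs : s ∈ S) (hB : b ⬝ᵥ b = c) : s ⬝ᵥ b = 0 ∨ s ⬝ᵥ b = c / 2 ∨ s ⬝ᵥ b = -(c / 2) := by
  have hc := hT.pos
  have h1 := hM.min b hb s hs
  unfold pr at h1
  rw [hB, div_eq_iff hc.ne', div_eq_iff hc.ne', div_eq_iff hc.ne'] at h1
  rcases h1 with h1 | h1 | h1
  · left; linarith
  · right; left; linarith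
  · right; right; linarith

lemma minL (hR : RS Φ h) (hM : MW Φ h S) (hT : TL Φ c) {a s : Fin r → ℝ} (ha : a ∈ Φ)
    (hs : s ∈ S) (hA : a ⬝ᵥ a = 2 * c) : s ⬝ᵥ a = 0 ∨ s ⬝ᵥ a = c ∨ s ⬝ᵥ a = -c := by
  have hc := hT.pos
  have h2 : (2 * c) ≠ 0 := by positivity
  have h1 := hM.min a ha s hs
  unfold pr at h1
  rw [hA, div_eq_iff h2, div_eq_iff h2, div_eq_iff h2] at h1
  rcases h1 with h1 | h1 | h1
  · left; linarith
  · right; left; linarith
  · right; right; linarith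

/-- the difference of a long root and a short root -/
lemma sub_mem (hR : RS Φ h) (hT : TL Φ c) {a b : Fin r → ℝ} (ha : a ∈ Φ) (hb : b ∈ Φ)
    (hA : a ⬝ᵥ a = 2 * c) (hB : b ⬝ᵥ b = c) (hD : a ⬝ᵥ b = c) :
    a - b ∈ Φ ∧ (a - b) ⬝ᵥ (a - b) = c := by
  have hc := hT.pos
  have h1 : rf a b = b - a := by
    unfold rf pr
    rw [dotProduct_comm b a, hD, hA, div_self (by positivity), one_smul]
  have h2 : b - a ∈ Φ := h1 ▸ hR.rfl a ha b hb
  refine ⟨?_, ?_⟩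
  · rw [← neg_sub]
    exact hR.neg _ h2
  · simp only [sub_dotProduct, dotProduct_sub]
    rw [dotProduct_comm b a]
    linarith

lemma k1 (hR : RS Φ h) (hM : MW Φ h S) (hT : TL Φ c) {a b s : Fin r → ℝ} (ha : a ∈ Φ)
    (hb : b ∈ Φ) (hA : a ⬝ᵥ a = 2 * c) (hB : b ⬝ᵥ b = c) (hD : a ⬝ᵥ b = c) (hs : s ∈ S) :
    (s ⬝ᵥ a = c → s ⬝ᵥ b = c / 2) ∧ (s ⬝ᵥ a = -c → s ⬝ᵥ b = -(c / 2)) := by
  have hc := hT.pos
  obtain ⟨h1, h2⟩ := sub_mem hR hT ha hb hA hB hD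
  have h3 := minS hR hM hT h1 hs h2
  have h4 := minS hR hM hT hb hs hB
  rw [dotProduct_sub] at h3
  constructor
  · intro h5
    rcases h3 with h3 | h3 | h3 <;> rcases h4 with h4 | h4 | h4 <;> linarith
  · intro h5
    rcases h3 with h3 | h3 | h3 <;> rcases h4 with h4 | h4 | h4 <;> linarith

end two

/-! ### Orthogonal systems -/

lemma ort_exp {n : ℕ} {c : ℝ} {e : Fin n → Fin r → ℝ} (he : Ort n c e) (x : Fin r → ℝ) :
    x = ∑ i, (x ⬝ᵥ e i / c) • e i := by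
  obtain ⟨hc, h1, h2⟩ := he
  have h3 : x ∈ Submodule.span ℝ (Set.range e) := by rw [h2]; trivial
  obtain ⟨a, ha⟩ := (Submodule.mem_span_range_iff_exists_fun ℝ).1 h3
  have h4 : ∀ j, x ⬝ᵥ e j = a j * c := by
    intro j
    rw [← ha, sum_dotProduct, Finset.sum_eq_single j]
    · rw [smul_dotProduct, h1, if_pos _root_.rfl, smul_eq_mul]
    · intro i _ hi
      rw [smul_dotProduct, h1, if_neg hi, smul_zero]
    · intro h
      exact absurd (Finset.mem_univ j) h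
  conv_lhs => rw [← ha]
  refine Finset.sum_congr _root_.rfl fun i _ => ?_
  rw [h4, mul_div_cancel_right₀ _ hc.ne']

lemma ort_dot {n : ℕ} {c : ℝ} {e : Fin n → Fin r → ℝ} (he : Ort n c e) (x y : Fin r → ℝ) :
    x ⬝ᵥ y = ∑ i, (x ⬝ᵥ e i / c) * (y ⬝ᵥ e i) := by
  conv_lhs => rw [ort_exp he x]
  rw [sum_dotProduct]
  refine Finset.sum_congr _root_.rfl fun i _ => ?_
  rw [smul_dotProduct, smul_eq_mul, dotProduct_comm (e i) y]

/-- vectors with two coordinates -/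
lemma dro_of {n : ℕ} {c : ℝ} {e : Fin n → Fin r → ℝ} (he : Ort n c e) {x : Fin r → ℝ}
    (h1 : ∀ i, x ⬝ᵥ e i = 0 ∨ x ⬝ᵥ e i = c ∨ x ⬝ᵥ e i = -c) (h2 : x ⬝ᵥ x = 2 * c) :
    Dro e x := by
  classical
  have hc := he.1
  have h3 : ∑ i, (x ⬝ᵥ e i) ^ 2 = 2 * c ^ 2 := by
    have h4 := ort_dot he x x
    rw [h2] at h4
    have h5 : ∑ i, (x ⬝ᵥ e i / c) * (x ⬝ᵥ e i) = (∑ i, (x ⬝ᵥ e i) ^ 2) / c := by
      rw [Finset.sum_div]
      refine Finset.sum_congr _root_.rfl fun i _ => ?_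
      ring
    rw [h5, eq_div_iff hc.ne'] at h4
    linarith
  have hsq : ∀ i, x ⬝ᵥ e i ≠ 0 → (x ⬝ᵥ e i) ^ 2 = c ^ 2 := by
    intro i hi
    rcases h1 i with h | h | h
    · exact absurd h hi
    · rw [h]
    · rw [h]; ring
  have hc2 : 0 < c ^ 2 := by positivity
  obtain ⟨i, hi⟩ : ∃ i, x ⬝ᵥ e i ≠ 0 := by
    by_contra hcon
    push Not at hcon
    rw [Finset.sum_eq_zero (fun i _ => by rw [hcon i]; ring)] at h3
    linarith
  rw [← Finset.add_sum_erase _ _ (Finset.mem_univ i), hsq i hi] at h3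
  have h4 : ∑ k ∈ Finset.univ.erase i, (x ⬝ᵥ e k) ^ 2 = c ^ 2 := by linarith
  obtain ⟨j, hj, hj'⟩ : ∃ j ∈ Finset.univ.erase i, x ⬝ᵥ e j ≠ 0 := by
    by_contra hcon
    push Not at hcon
    rw [Finset.sum_eq_zero (fun k hk => by rw [hcon k hk]; ring)] at h4
    linarith
  rw [← Finset.add_sum_erase _ _ hj, hsq j hj'] at h4
  have h5 : ∑ k ∈ (Finset.univ.erase i).erase j, (x ⬝ᵥ e k) ^ 2 = 0 := by linarith
  rw [Finset.sum_eq_zero_iff_of_nonneg (fun k _ => sq_nonneg _)] at h5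
  have hij : i ≠ j := fun h => (Finset.mem_erase.1 hj).1 h.symm
  have h6 : x = (x ⬝ᵥ e i / c) • e i + (x ⬝ᵥ e j / c) • e j := by
    conv_lhs => rw [ort_exp he x]
    rw [← Finset.add_sum_erase _ _ (Finset.mem_univ i), ← Finset.add_sum_erase _ _ hj,
      Finset.sum_eq_zero, add_zero]
    intro k hk
    have := h5 k hk
    rw [sq_eq_zero_iff] at this
    rw [this, zero_div, zero_smul]
  rcases h1 i with h | hi' | hi'
  · exact absurd h hi
  · rcases h1 j with h | hj'' | hj''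
    · exact absurd h hj'
    · rw [hi', hj'', div_self hc.ne', one_smul, one_smul] at h6
      exact ⟨i, j, hij, Or.inl h6⟩
    · rw [hi', hj'', div_self hc.ne', neg_div, div_self hc.ne', one_smul, neg_one_smul] at h6
      exact ⟨i, j, hij, Or.inr (Or.inl (by rw [h6, sub_eq_add_neg]))⟩
  · rcases h1 j with h | hj'' | hj''
    · exact absurd h hj'
    · rw [hi', hj'', div_self hc.ne', neg_div, div_self hc.ne', one_smul, neg_one_smul] at h6
      exact ⟨j, i, hij.symm, Or.inr (Or.inl (by rw [h6, sub_eq_add_neg, add_comm]))⟩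
    · rw [hi', hj'', neg_div, div_self hc.ne', neg_one_smul, neg_one_smul] at h6
      exact ⟨i, j, hij, Or.inr (Or.inr (by rw [h6, sub_eq_add_neg]))⟩

/-- an enumeration modulo signs -/
lemma enum {R : Finset (Fin r → ℝ)} {c : ℝ} (hc : 0 < c) (hneg : ∀ x ∈ R, -x ∈ R)
    (hsq : ∀ x ∈ R, x ⬝ᵥ x = c) (hor : ∀ x ∈ R, ∀ y ∈ R, y ≠ x → y ≠ -x → x ⬝ᵥ y = 0)
    (hsp : Submodule.span ℝ (R : Set (Fin r → ℝ)) = ⊤) :
    ∃ (n : ℕ) (e : Fin n → Fin r → ℝ), Ort n c e ∧ ∀ x, x ∈ R ↔ ∃ i, x = e i ∨ x = -e i := by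
  classical
  have hne : ∀ x ∈ R, -x ≠ x := by
    intro x hx h0
    have h1 : x = 0 := by
      funext i
      have h2 := congrFun h0 i
      simp only [Pi.neg_apply] at h2
      show x i = 0
      linarith
    have h2 := hsq x hx
    rw [h1, zero_dotProduct] at h2
    linarith
  -- a maximal subset without opposite elements
  obtain ⟨B, hB, hmax⟩ := Finset.exists_max_image
    (R.powerset.filter fun B => ∀ x ∈ B, -x ∉ B) (fun B => B.card)
    ⟨∅, Finset.mem_filter.2 ⟨Finset.empty_mem_powerset _, by simp⟩⟩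
  rw [Finset.mem_filter, Finset.mem_powerset] at hB
  obtain ⟨hBR, hBn⟩ := hB
  have hcov : ∀ x ∈ R, x ∈ B ∨ -x ∈ B := by
    intro x hx
    by_contra hcon
    push Not at hcon
    have h1 := hmax (insert x B) (by
      rw [Finset.mem_filter, Finset.mem_powerset]
      refine ⟨Finset.insert_subset hx hBR, ?_⟩
      intro y hy hy'
      rw [Finset.mem_insert] at hy hy'
      rcases hy with rfl | hy
      · rcases hy' with hy' | hy'
        · exact hne _ hx hy'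
        · exact hcon.2 hy'
      · rcases hy' with hy' | hy'
        · apply hcon.2
          rw [← hy', neg_neg]
          exact hy
        · exact hBn y hy hy')
    rw [Finset.card_insert_of_notMem hcon.1] at h1
    omega
  set f := B.equivFin with hf
  refine ⟨B.card, fun i => (f.symm i).1, ⟨hc, ?_, ?_⟩, ?_⟩
  · intro i j
    by_cases hij : i = j
    · rw [if_pos hij, hij]
      exact hsq _ (hBR (f.symm j).2)
    · rw [if_neg hij]
      refine hor _ (hBR (f.symm i).2) _ (hBR (f.symm j).2) ?_ ?_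
      · intro h0
        exact hij (f.symm.injective (Subtype.ext h0)).symm
      · intro h0
        exact hBn _ (f.symm i).2 (h0 ▸ (f.symm j).2)
  · rw [eq_top_iff, ← hsp, Submodule.span_le]
    intro x hx
    rcases hcov x hx with h1 | h1
    · exact Submodule.subset_span ⟨f ⟨x, h1⟩, by simp⟩
    · have h2 : -x ∈ Submodule.span ℝ (Set.range fun i => (f.symm i).1) :=
        Submodule.subset_span ⟨f ⟨-x, h1⟩, by simp⟩
      have h3 := Submodule.neg_mem _ h2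
      rwa [neg_neg] at h3
  · intro x
    constructor
    · intro hx
      rcases hcov x hx with h1 | h1
      · exact ⟨f ⟨x, h1⟩, Or.inl (by simp)⟩
      · exact ⟨f ⟨-x, h1⟩, Or.inr (by simp)⟩
    · rintro ⟨i, rfl | rfl⟩
      · exact hBR (f.symm i).2
      · exact hneg _ (hBR (f.symm i).2)

/-- the reflection in a multiple of a vector of the system -/
lemma rf_e (hR : RS Φ h) {n : ℕ} {c : ℝ} {e : Fin n → Fin r → ℝ} (he : Ort n c e) {lam : ℝ}
    (hl : lam ≠ 0) {i : Fin n} (hi : lam • e i ∈ Φ) {x : Fin r → ℝ} (hx : x ∈ Φ) :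
    x - (2 * (x ⬝ᵥ e i) / c) • e i ∈ Φ := by
  have hc := he.1
  have h1 := hR.rfl _ hi x hx
  have h2 : rf (lam • e i) x = x - (2 * (x ⬝ᵥ e i) / c) • e i := by
    unfold rf pr
    rw [smul_smul]
    congr 2
    simp only [dotProduct_smul, smul_dotProduct, smul_eq_mul]
    rw [he.2.1 i i, if_pos _root_.rfl]
    field_simp
  rwa [h2] at h1

lemma to_sub (hR : RS Φ h) {n : ℕ} {c : ℝ} {e : Fin n → Fin r → ℝ} (he : Ort n c e) {lam : ℝ}
    (hl : lam ≠ 0) {i j : Fin n} (hij : i ≠ j) (hj : lam • e j ∈ Φ) (hx : e i + e j ∈ Φ) :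
    e i - e j ∈ Φ := by
  have hc := he.1
  have h1 := rf_e hR he hl hj hx
  have h2 : 2 * ((e i + e j) ⬝ᵥ e j) / c = 2 := by
    rw [add_dotProduct, he.2.1, he.2.1, if_neg hij, if_pos _root_.rfl]
    field_simp
    ring
  rw [h2] at h1
  have h3 : e i + e j - (2 : ℝ) • e j = e i - e j := by
    rw [two_smul]
    abel
  rwa [h3] at h1

lemma to_add (hR : RS Φ h) {n : ℕ} {c : ℝ} {e : Fin n → Fin r → ℝ} (he : Ort n c e) {lam : ℝ}
    (hl : lam ≠ 0) {i j : Fin n} (hij : i ≠ j) (hj : lam • e j ∈ Φ) (hx : e i - e j ∈ Φ) :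
    e i + e j ∈ Φ := by
  have hc := he.1
  have h1 := rf_e hR he hl hj hx
  have h2 : 2 * ((e i - e j) ⬝ᵥ e j) / c = -2 := by
    rw [sub_dotProduct, he.2.1, he.2.1, if_neg hij, if_pos _root_.rfl]
    field_simp
    ring
  rw [h2] at h1
  have h3 : e i - e j - (-2 : ℝ) • e j = e i + e j := by
    rw [neg_smul, two_smul]
    abel
  rwa [h3] at h1

lemma to_tr (hR : RS Φ h) {n : ℕ} {c : ℝ} {e : Fin n → Fin r → ℝ} (he : Ort n c e) {lam : ℝ}
    (hl : lam ≠ 0) (hall : ∀ i, lam • e i ∈ Φ) {i j k : Fin n} (hij : i ≠ j) (hik : i ≠ k)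
    (hjk : j ≠ k) (h1 : e i + e j ∈ Φ) (h2 : e j + e k ∈ Φ) : e i + e k ∈ Φ := by
  have hc := he.1
  rw [add_comm] at h2
  have h3 := to_sub hR he hl hjk.symm (hall j) h2
  have h4 := hR.rfl _ h1 _ h3
  have h5 : pr (e i + e j) (e k - e j) = -1 := by
    unfold pr
    simp only [add_dotProduct, sub_dotProduct, dotProduct_add, he.2.1, if_neg hik.symm,
      if_neg hjk.symm, if_neg hij.symm, if_neg hij, if_true]
    field_simp
    ring
  have h6 : rf (e i + e j) (e k - e j) = e i + e k := by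
    unfold rf
    rw [h5, neg_one_smul]
    abel
  rwa [h6] at h4

/-- all the roots `± e i ± e j` occur -/
lemma alldro (hR : RS Φ h) {n : ℕ} {c : ℝ} {e : Fin n → Fin r → ℝ} (he : Ort n c e) {lam : ℝ}
    (hl : lam ≠ 0) (hall : ∀ i, lam • e i ∈ Φ)
    (h2 : ∀ γ ∈ Φ, Dro e γ ∨ ∃ i, γ = lam • e i ∨ γ = -(lam • e i)) (x : Fin r → ℝ)
    (hx : Dro e x) : x ∈ Φ := by
  classical
  have hc := he.1
  have hE := he.2.1
  -- a root with two nonzero coordinates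
  have pairE : ∀ δ ∈ Φ, ∀ k m : Fin n, k ≠ m → δ ⬝ᵥ e k ≠ 0 → δ ⬝ᵥ e m ≠ 0 → e k + e m ∈ Φ := by
    intro δ hδ k m hkm hk hm
    rcases h2 δ hδ with ⟨i, j, hij, hf⟩ | ⟨i, hf⟩
    · have hcoord : ∀ l, l ≠ i → l ≠ j → δ ⬝ᵥ e l = 0 := by
        intro l hli hlj
        rcases hf with rfl | rfl | rfl
        · rw [add_dotProduct, hE, hE, if_neg hli.symm, if_neg hlj.symm, add_zero]
        · rw [sub_dotProduct, hE, hE, if_neg hli.symm, if_neg hlj.symm, sub_zero]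
        · rw [sub_dotProduct, neg_dotProduct, hE, hE, if_neg hli.symm, if_neg hlj.symm, sub_zero,
            neg_zero]
      have hEij : e i + e j ∈ Φ := by
        rcases hf with rfl | rfl | rfl
        · exact hδ
        · exact to_add hR he hl hij (hall j) hδ
        · have h3 := hR.neg _ hδ
          have h4 : -(-e i - e j) = e i + e j := by abel
          rwa [h4] at h3
      have hk' : k = i ∨ k = j := by
        by_contra hcon
        push Not at hcon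
        exact hk (hcoord k hcon.1 hcon.2)
      have hm' : m = i ∨ m = j := by
        by_contra hcon
        push Not at hcon
        exact hm (hcoord m hcon.1 hcon.2)
      rcases hk' with rfl | rfl <;> rcases hm' with rfl | rfl
      · exact absurd _root_.rfl hkm
      · exact hEij
      · rw [add_comm]; exact hEij
      · exact absurd _root_.rfl hkm
    · exfalso
      have hcoord : ∀ l, l ≠ i → δ ⬝ᵥ e l = 0 := by
        intro l hli
        rcases hf with rfl | rfl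
        · rw [smul_dotProduct, hE, if_neg hli.symm, smul_zero]
        · rw [neg_dotProduct, smul_dotProduct, hE, if_neg hli.symm, smul_zero, neg_zero]
      have hk' : k = i := by
        by_contra hcon
        exact hk (hcoord k hcon)
      have hm' : m = i := by
        by_contra hcon
        exact hm (hcoord m hcon)
      exact hkm (hk'.trans hm'.symm)
  -- connectedness
  have conn : ∀ i₀ j₀ : Fin n, i₀ ≠ j₀ → e i₀ + e j₀ ∈ Φ := by
    intro i₀ j₀ hij₀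
    have h3 := hR.irr (Φ.filter fun γ => ∀ m, ¬ (m = i₀ ∨ e i₀ + e m ∈ Φ) → γ ⬝ᵥ e m = 0)
      (Finset.filter_subset _ _) (by
      intro γ hγ δ hδ hδ'
      rw [Finset.mem_filter] at hγ hδ'
      have h4 : ¬ ∀ m, ¬ (m = i₀ ∨ e i₀ + e m ∈ Φ) → δ ⬝ᵥ e m = 0 := fun h => hδ' ⟨hδ, h⟩
      push Not at h4
      obtain ⟨m, ⟨hm1, hm2⟩, hm3⟩ := h4
      have h5 : ∀ k, (k = i₀ ∨ e i₀ + e k ∈ Φ) → δ ⬝ᵥ e k = 0 := by
        intro k hk
        by_contra hcon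
        have hkm : k ≠ m := by
          rintro rfl
          rcases hk with hk | hk
          · exact hm1 hk
          · exact hm2 hk
        have h6 := pairE δ hδ k m hkm hcon hm3
        rcases hk with rfl | hk
        · exact hm2 h6
        · by_cases hk0 : k = i₀
          · rw [hk0] at h6
            exact hm2 h6
          · exact hm2 (to_tr hR he hl hall (Ne.symm hk0) (Ne.symm hm1) hkm hk h6)
      rw [ort_dot he]
      refine Finset.sum_eq_zero fun k _ => ?_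
      by_cases hk : k = i₀ ∨ e i₀ + e k ∈ Φ
      · rw [h5 k hk, mul_zero]
      · rw [hγ.2 k hk, zero_div, zero_mul])
    have hmem : ∀ i, i = i₀ ∨ e i₀ + e i ∈ Φ →
        lam • e i ∈ Φ.filter fun γ => ∀ m, ¬ (m = i₀ ∨ e i₀ + e m ∈ Φ) → γ ⬝ᵥ e m = 0 := by
      intro i hi
      rw [Finset.mem_filter]
      refine ⟨hall i, fun m hm => ?_⟩
      rw [smul_dotProduct, hE, if_neg, smul_zero]
      rintro rfl
      exact hm hi
    rcases h3 with h3 | h3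
    · have h4 := hmem i₀ (Or.inl _root_.rfl)
      rw [h3] at h4
      simp at h4
    · have h4 := hall j₀
      rw [← h3, Finset.mem_filter] at h4
      by_contra hcon
      have h5 := h4.2 j₀ (by
        rintro (h | h)
        · exact hij₀ h.symm
        · exact hcon h)
      rw [smul_dotProduct, hE, if_pos _root_.rfl, smul_eq_mul] at h5
      rcases mul_eq_zero.1 h5 with h6 | h6
      · exact hl h6
      · exact hc.ne' h6
  obtain ⟨i, j, hij, hf⟩ := hx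
  have h3 := conn i j hij
  rcases hf with rfl | rfl | rfl
  · exact h3
  · exact to_sub hR he hl hij (hall j) h3
  · have h4 := hR.neg _ h3
    have h5 : -(e i + e j) = -e i - e j := by abel
    rwa [h5] at h4

lemma two_le {n : ℕ} {e : Fin n → Fin r → ℝ} {x : Fin r → ℝ} (hx : Dro e x) : 2 ≤ n := by
  obtain ⟨i, j, hij, -⟩ := hx
  by_contra hcon
  apply hij
  apply Fin.ext
  have := i.2
  have := j.2
  omega

/-- the case of orthogonal short roots -/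
lemma caseB (hR : RS Φ h) (hM : MW Φ h S) {c : ℝ} (hT : TL Φ c)
    (hB : ∀ b ∈ Φ, ∀ b' ∈ Φ, b ⬝ᵥ b = c → b' ⬝ᵥ b' = c → b' ≠ b → b' ≠ -b → b ⬝ᵥ b' = 0) :
    Ty5 Φ S := by
  classical
  have hc := hT.pos
  have hsp : Submodule.span ℝ ((Φ.filter fun γ => γ ⬝ᵥ γ = c : Finset (Fin r → ℝ)) :
      Set (Fin r → ℝ)) = ⊤ := by
    have h1 := spanG hR (G := fun g => g ∈ Φ ∧ g ⬝ᵥ g = c) (fun g hg => hg.1)
      (by obtain ⟨b, hb, hbc⟩ := hT.sh; exact ⟨b, hb, hbc⟩) (len_cl hR c)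
    rw [← h1]
    congr 1
    ext x
    simp
  obtain ⟨n, e, he, hRe⟩ := enum (R := Φ.filter fun γ => γ ⬝ᵥ γ = c) hc
    (fun x hx => by
      rw [Finset.mem_filter] at hx ⊢
      refine ⟨hR.neg x hx.1, ?_⟩
      rw [neg_dotProduct, dotProduct_neg, neg_neg, hx.2])
    (fun x hx => (Finset.mem_filter.1 hx).2)
    (fun x hx y hy e1 e2 => by
      rw [Finset.mem_filter] at hx hy
      exact hB x hx.1 y hy.1 hx.2 hy.2 e1 e2) hsp
  have hshort : ∀ x, (x ∈ Φ ∧ x ⬝ᵥ x = c) ↔ ∃ i, x = e i ∨ x = -e i := by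
    intro x
    rw [← hRe x, Finset.mem_filter]
  have hei : ∀ i, e i ∈ Φ ∧ e i ⬝ᵥ e i = c := fun i => (hshort _).2 ⟨i, Or.inl _root_.rfl⟩
  have hlong : ∀ x ∈ Φ, x ⬝ᵥ x = 2 * c → Dro e x := by
    intro x hx hx2
    exact dro_of he (fun i => prodLS hR hT hx (hei i).1 hx2 (hei i).2) hx2
  have hall : ∀ i, (1 : ℝ) • e i ∈ Φ := fun i => by rw [one_smul]; exact (hei i).1
  have h2 : ∀ γ ∈ Φ, Dro e γ ∨ ∃ i, γ = (1 : ℝ) • e i ∨ γ = -((1 : ℝ) • e i) := by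
    intro γ hγ
    rcases hT.two γ hγ with h1 | h1
    · right
      obtain ⟨i, hi⟩ := (hshort γ).1 ⟨hγ, h1⟩
      exact ⟨i, by rwa [one_smul]⟩
    · left
      exact hlong γ hγ h1
  have hdro := alldro hR he one_ne_zero hall h2
  have hn : 2 ≤ n := by
    obtain ⟨a, ha, ha2⟩ := hT.lo
    exact two_le (hlong a ha ha2)
  -- the coordinates of the weights are not zero
  have hcoord : ∀ s ∈ S, ∀ i, s ⬝ᵥ e i = c / 2 ∨ s ⬝ᵥ e i = -(c / 2) := by
    intro s hs i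
    rcases minS hR hM hT (hei i).1 hs (hei i).2 with h1 | h1
    · exfalso
      have hz : ∀ j, s ⬝ᵥ e j = 0 := by
        intro j
        by_cases hij : i = j
        · rw [← hij, h1]
        · have ha1 : e i + e j ∈ Φ := hdro _ ⟨i, j, hij, Or.inl _root_.rfl⟩
          have ha2 : e i - e j ∈ Φ := hdro _ ⟨i, j, hij, Or.inr (Or.inl _root_.rfl)⟩
          have q1 : (e i + e j) ⬝ᵥ (e i + e j) = 2 * c := by
            simp only [add_dotProduct, dotProduct_add, he.2.1, if_neg hij, if_neg (Ne.symm hij),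
              if_true]
            ring
          have q2 : (e i - e j) ⬝ᵥ (e i - e j) = 2 * c := by
            simp only [sub_dotProduct, dotProduct_sub, he.2.1, if_neg hij, if_neg (Ne.symm hij),
              if_true]
            ring
          have d1 : (e i + e j) ⬝ᵥ e i = c := by
            simp only [add_dotProduct, he.2.1, if_neg (Ne.symm hij), if_true]
            ring
          have d2 : (e i - e j) ⬝ᵥ e i = c := by
            simp only [sub_dotProduct, he.2.1, if_neg (Ne.symm hij), if_true]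
            ring
          have k1 := GC5.k1 hR hM hT ha1 (hei i).1 q1 (hei i).2 d1 hs
          have k2 := GC5.k1 hR hM hT ha2 (hei i).1 q2 (hei i).2 d2 hs
          have z1 : s ⬝ᵥ (e i + e j) = 0 := by
            rcases minL hR hM hT ha1 hs q1 with h | h | h
            · exact h
            · have := k1.1 h; linarith
            · have := k1.2 h; linarith
          rw [dotProduct_add] at z1
          linarith
      apply hM.nz
      have h3 := ort_exp he s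
      rw [Finset.sum_eq_zero (fun j _ => by rw [hz j, zero_div, zero_smul])] at h3
      rw [← h3]
      exact hs
    · exact h1
  refine ⟨n, c, e, hn, he, fun x => ⟨fun hx => ?_, ?_⟩, fun x => ⟨fun hx => ?_, ?_⟩⟩
  · rcases h2 x hx with h3 | ⟨i, h3⟩
    · exact Or.inl h3
    · right
      refine ⟨i, ?_⟩
      rwa [one_smul] at h3
  · rintro (h3 | h3)
    · exact hdro x h3
    · exact ((hshort x).2 h3).1
  · refine ⟨fun i => if x ⬝ᵥ e i = c / 2 then 1 else -1, fun i => ?_, ?_⟩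
    · by_cases h3 : x ⬝ᵥ e i = c / 2
      · left; simp [h3]
      · right; simp [h3]
    · conv_lhs => rw [ort_exp he x]
      refine Finset.sum_congr _root_.rfl fun i _ => ?_
      congr 1
      beta_reduce
      by_cases h3 : x ⬝ᵥ e i = c / 2
      · rw [if_pos h3, h3]
        push_cast
        field_simp
      · rw [if_neg h3, (hcoord x hx i).resolve_left h3]
        push_cast
        field_simp
  · rintro ⟨τ, hτ, rfl⟩
    -- change the signs one by one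
    have key : ∀ F : Finset (Fin n), ∃ s ∈ S, ∀ i ∈ F, s ⬝ᵥ e i = (τ i : ℝ) * (c / 2) := by
      intro F
      induction F using Finset.induction_on with
      | empty =>
        obtain ⟨s, hs⟩ := hM.ne
        exact ⟨s, hs, by simp⟩
      | insert i F hi ih =>
        obtain ⟨s, hs, hsF⟩ := ih
        by_cases h3 : s ⬝ᵥ e i = (τ i : ℝ) * (c / 2)
        · refine ⟨s, hs, fun j hj => ?_⟩
          rw [Finset.mem_insert] at hj
          rcases hj with rfl | hj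
          · exact h3
          · exact hsF j hj
        · refine ⟨rf (e i) s, hM.rfl _ (hei i).1 s hs, fun j hj => ?_⟩
          have h4 : pr (e i) s = 2 * (s ⬝ᵥ e i) / c := by
            unfold pr
            rw [(hei i).2]
          rw [Finset.mem_insert] at hj
          rw [rf_dot_left, he.2.1]
          rcases hj with rfl | hj
          · rw [if_pos _root_.rfl, h4]
            have h5 : 2 * (s ⬝ᵥ e j) / c * c = 2 * (s ⬝ᵥ e j) := by field_simp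
            rw [h5]
            rcases hτ j with h6 | h6 <;> rcases hcoord s hs j with h7 | h7
            · exfalso
              apply h3
              rw [h6, h7]
              push_cast
              ring
            · rw [h6, h7]
              push_cast
              ring
            · rw [h6, h7]
              push_cast
              ring
            · exfalso
              apply h3
              rw [h6, h7]
              push_cast
              ring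
          · have hij : i ≠ j := by
              rintro rfl
              exact hi hj
            rw [if_neg hij, mul_zero, sub_zero]
            exact hsF j hj
    obtain ⟨s, hs, hsF⟩ := key Finset.univ
    have h3 : s = ∑ i, ((τ i : ℝ) / 2) • e i := by
      conv_lhs => rw [ort_exp he s]
      refine Finset.sum_congr _root_.rfl fun i _ => ?_
      congr 1
      rw [hsF i (Finset.mem_univ i)]
      field_simp
    rw [← h3]
    exact hs

/-! ### The case of short roots which are not orthogonal -/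

lemma pr_rf {γ x : Fin r → ℝ} (hγ : γ ≠ 0) : pr γ (rf γ x) = -pr γ x := by
  have h := (sq_pos hγ).ne'
  unfold rf pr
  rw [sub_dotProduct, smul_dotProduct, smul_eq_mul]
  field_simp
  ring

lemma rf_rf {γ : Fin r → ℝ} (hγ : γ ≠ 0) (x : Fin r → ℝ) : rf γ (rf γ x) = x := by
  have h1 := pr_rf (x := x) hγ
  have h2 : rf γ (rf γ x) = rf γ x - pr γ (rf γ x) • γ := _root_.rfl
  rw [h2, h1, neg_smul, sub_neg_eq_add]
  unfold rf
  rw [sub_add_cancel]

lemma rf_neg (γ x : Fin r → ℝ) : rf γ (-x) = -rf γ x := by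
  unfold rf pr
  rw [neg_dotProduct, mul_neg, neg_div, neg_smul]
  abel

lemma exC (hR : RS Φ h) {c : ℝ} (hT : TL Φ c)
    (hC : ∃ b ∈ Φ, ∃ b' ∈ Φ, b ⬝ᵥ b = c ∧ b' ⬝ᵥ b' = c ∧ b' ≠ b ∧ b' ≠ -b ∧ b ⬝ᵥ b' ≠ 0)
    {b : Fin r → ℝ} (hb : b ∈ Φ) (hbc : b ⬝ᵥ b = c) :
    ∃ b' ∈ Φ, b' ⬝ᵥ b' = c ∧ b' ≠ b ∧ b' ≠ -b ∧ b ⬝ᵥ b' ≠ 0 := by
  obtain ⟨g, ⟨hg, hgc, g', hg', hgc', e1, e2, e3⟩, hbg⟩ := meet hR
    (G := fun g => g ∈ Φ ∧ g ⬝ᵥ g = c ∧
      ∃ g' ∈ Φ, g' ⬝ᵥ g' = c ∧ g' ≠ g ∧ g' ≠ -g ∧ g ⬝ᵥ g' ≠ 0)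
    (fun g hg => hg.1)
    (by
      obtain ⟨b, hb, b', hb', h1, h2, h3, h4, h5⟩ := hC
      exact ⟨b, hb, h1, b', hb', h2, h3, h4, h5⟩)
    (by
      rintro γ hγ g ⟨hg, hgc, g', hg', hgc', e1, e2, e3⟩
      have hγ0 := ne0 hR hγ
      refine ⟨hR.rfl γ hγ g hg, by rw [rf_sq hR hγ]; exact hgc, rf γ g', hR.rfl γ hγ g' hg',
        by rw [rf_sq hR hγ]; exact hgc', ?_, ?_, ?_⟩
      · intro h0
        apply e1
        rw [← rf_rf hγ0 g', h0, rf_rf hγ0]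
      · intro h0
        apply e2
        rw [← rf_rf hγ0 g', h0, rf_neg, rf_rf hγ0]
      · rw [rf_dot hγ0]
        exact e3) hb
  by_cases h1 : g = b
  · subst h1
    exact ⟨g', hg', hgc', e1, e2, e3⟩
  by_cases h2 : g = -b
  · subst h2
    refine ⟨g', hg', hgc', ?_, e1, ?_⟩
    · intro h0
      apply e2
      rw [h0, neg_neg]
    · intro h0
      apply e3
      rw [neg_dotProduct, h0, neg_zero]
  exact ⟨g, hg, hgc, h1, h2, hbg⟩

/-- a part of the short roots -/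
def Part (Φ : Finset (Fin r → ℝ)) (c : ℝ) (P : (Fin r → ℝ) → Prop) : Prop :=
  ∀ b ∈ Φ, ∀ b' ∈ Φ, b ⬝ᵥ b = c → b' ⬝ᵥ b' = c → P b → ¬ P b' → b ⬝ᵥ b' = 0

lemma Part.not {c : ℝ} {P : (Fin r → ℝ) → Prop} (hP : Part Φ c P) :
    Part Φ c fun x => ¬ P x := by
  intro b hb b' hb' h1 h2 h3 h4
  rw [dotProduct_comm]
  exact hP b' hb' b hb h2 h1 (not_not.1 h4) h3

lemma part_sub (hR : RS Φ h) {c : ℝ} (hT : TL Φ c)
    (hC : ∃ b ∈ Φ, ∃ b' ∈ Φ, b ⬝ᵥ b = c ∧ b' ⬝ᵥ b' = c ∧ b' ≠ b ∧ b' ≠ -b ∧ b ⬝ᵥ b' ≠ 0)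
    {P : (Fin r → ℝ) → Prop} (hP : Part Φ c P) {a b : Fin r → ℝ} (ha : a ∈ Φ) (hb : b ∈ Φ)
    (hA : a ⬝ᵥ a = 2 * c) (hB : b ⬝ᵥ b = c) (hD : a ⬝ᵥ b = c) (hPb : P b) : P (a - b) := by
  have hc := hT.pos
  obtain ⟨h1, h2⟩ := sub_mem hR hT ha hb hA hB hD
  by_contra hcon
  obtain ⟨b', hb', hbc', e1, e2, e3⟩ := exC hR hT hC hb hB
  have hPb' : P b' := by
    by_contra hcon'
    exact e3 (hP b hb b' hb' hB hbc' hPb hcon')
  have h4 := hP b' hb' (a - b) h1 hbc' h2 hPb' hcon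
  rw [dotProduct_sub, dotProduct_comm b' a, dotProduct_comm b' b] at h4
  have h5 := prodEq hR hc hb hb' hB hbc' e1 e2
  have h6 := prodLS hR hT ha hb' hA hbc'
  rcases h5 with h5 | h5 | h5
  · exact e3 h5
  · rcases h6 with h6 | h6 | h6 <;> linarith
  · rcases h6 with h6 | h6 | h6 <;> linarith

lemma conn_short (hR : RS Φ h) {c : ℝ} (hT : TL Φ c)
    (hC : ∃ b ∈ Φ, ∃ b' ∈ Φ, b ⬝ᵥ b = c ∧ b' ⬝ᵥ b' = c ∧ b' ≠ b ∧ b' ≠ -b ∧ b ⬝ᵥ b' ≠ 0)
    {P : (Fin r → ℝ) → Prop} (hP : Part Φ c P) {b : Fin r → ℝ} (hb : b ∈ Φ) (hB : b ⬝ᵥ b = c)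
    (hPb : P b) {x : Fin r → ℝ} (hx : x ∈ Φ) (hxc : x ⬝ᵥ x = c) : P x := by
  classical
  have hc := hT.pos
  by_contra hcon
  have hN : ∀ g ∈ Φ, g ⬝ᵥ g = c → ¬ P g → ¬ P (-g) := by
    intro g hg hgc hPg h0
    have h1 := hP (-g) (hR.neg g hg) g hg
      (by rw [neg_dotProduct, dotProduct_neg, neg_neg, hgc]) hgc h0 hPg
    rw [neg_dotProduct, hgc] at h1
    linarith
  have h1 := hR.irr (Φ.filter fun γ => ∀ g ∈ Φ, g ⬝ᵥ g = c → ¬ P g → γ ⬝ᵥ g = 0)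
    (Finset.filter_subset _ _) (by
    intro γ hγ δ hδ hδ'
    rw [Finset.mem_filter] at hγ hδ'
    have h4 : ¬ ∀ g ∈ Φ, g ⬝ᵥ g = c → ¬ P g → δ ⬝ᵥ g = 0 := fun h => hδ' ⟨hδ, h⟩
    push Not at h4
    obtain ⟨g, hg, hgc, hPg, hδg⟩ := h4
    have hrc : rf δ g ⬝ᵥ rf δ g = c := by rw [rf_sq hR hδ]; exact hgc
    have hr := hR.rfl δ hδ g hg
    have hPr : ¬ P (rf δ g) := by
      rcases hT.two δ hδ with hδc | hδc
      · have hPδ : ¬ P δ := by
          intro h0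
          exact hδg (hP δ hδ g hg hδc hgc h0 hPg)
        intro h0
        have h5 := hP _ hr δ hδ hrc hδc h0 hPδ
        rw [rf_dot_left] at h5
        unfold pr at h5
        have h6 := (sq_pos (ne0 hR hδ)).ne'
        have h7 : g ⬝ᵥ δ - 2 * (g ⬝ᵥ δ) / (δ ⬝ᵥ δ) * (δ ⬝ᵥ δ) = -(g ⬝ᵥ δ) := by
          field_simp
          ring
        rw [h7, dotProduct_comm g δ] at h5
        exact hδg (by linarith)
      · rcases prodLS hR hT hδ hg hδc hgc with h5 | h5 | h5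
        · exact absurd h5 hδg
        · have h6 : rf δ g = -(δ - g) := by
            unfold rf pr
            rw [dotProduct_comm g δ, h5, hδc, div_self (by positivity), one_smul, neg_sub]
          rw [h6]
          obtain ⟨m1, m2⟩ := sub_mem hR hT hδ hg hδc hgc h5
          exact hN _ m1 m2 (part_sub hR hT hC hP.not hδ hg hδc hgc h5 hPg)
        · have h6 : rf δ g = δ - -g := by
            unfold rf pr
            rw [dotProduct_comm g δ, h5, hδc, mul_neg, neg_div, div_self (by positivity),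
              neg_one_smul, sub_neg_eq_add, sub_neg_eq_add, add_comm]
          rw [h6]
          exact part_sub hR hT hC hP.not hδ (hR.neg g hg) hδc
            (by rw [neg_dotProduct, dotProduct_neg, neg_neg, hgc])
            (by rw [dotProduct_neg, h5, neg_neg]) (hN g hg hgc hPg)
    have h5 := hγ.2 _ hr hrc hPr
    rw [dotProduct_comm, rf_dot_left, dotProduct_comm g γ, hγ.2 g hg hgc hPg, zero_sub,
      neg_eq_zero, mul_eq_zero] at h5
    rw [dotProduct_comm]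
    exact h5.resolve_left (pr_ne (ne0 hR hδ) (by rw [dotProduct_comm]; exact hδg)))
  rcases h1 with h1 | h1
  · have h2 : b ∈ (∅ : Finset (Fin r → ℝ)) := by
      rw [← h1, Finset.mem_filter]
      exact ⟨hb, fun g hg hgc hPg => hP b hb g hg hB hgc hPb hPg⟩
    simp at h2
  · have h2 := hx
    rw [← h1, Finset.mem_filter] at h2
    have h3 := h2.2 x hx hxc hcon
    linarith

lemma dist2 (hR : RS Φ h) {c : ℝ} (hT : TL Φ c)
    (hC : ∃ b ∈ Φ, ∃ b' ∈ Φ, b ⬝ᵥ b = c ∧ b' ⬝ᵥ b' = c ∧ b' ≠ b ∧ b' ≠ -b ∧ b ⬝ᵥ b' ≠ 0)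
    {b x : Fin r → ℝ} (hb : b ∈ Φ) (hB : b ⬝ᵥ b = c) (hx : x ∈ Φ) (hX : x ⬝ᵥ x = c) :
    x ⬝ᵥ b ≠ 0 ∨ ∃ y ∈ Φ, y ⬝ᵥ y = c ∧ y ⬝ᵥ b ≠ 0 ∧ y ⬝ᵥ x ≠ 0 := by
  have hc := hT.pos
  refine conn_short hR hT hC (P := fun x => x ⬝ᵥ b ≠ 0 ∨
    ∃ y ∈ Φ, y ⬝ᵥ y = c ∧ y ⬝ᵥ b ≠ 0 ∧ y ⬝ᵥ x ≠ 0) ?_ hb hB (Or.inl (by rw [hB]; exact hc.ne'))
    hx hX
  intro x hx x' hx' hX hX' hPx hPx'
  push Not at hPx'
  obtain ⟨h1, h2⟩ := hPx'
  by_cases hxb : x ⬝ᵥ b = 0
  · rcases hPx with h3 | ⟨y, hy, hyc, hyb, hyx⟩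
    · exact absurd hxb h3
    · have h4 := h2 y hy hyc hyb
      have h5 := h2 (rf x y) (hR.rfl x hx y hy) (by rw [rf_sq hR hx]; exact hyc) (by
        rw [rf_dot_left, hxb, mul_zero, sub_zero]
        exact hyb)
      rw [rf_dot_left, h4, zero_sub, neg_eq_zero, mul_eq_zero] at h5
      exact h5.resolve_left (pr_ne (ne0 hR hx) hyx)
  · exact h2 x hx hX hxb

section C2

variable {c : ℝ}

lemma half (hR : RS Φ h) (hM : MW Φ h S) (hT : TL Φ c) {a z s : Fin r → ℝ} (ha : a ∈ Φ)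
    (hA : a ⬝ᵥ a = 2 * c) (hs : s ∈ S) (hsa : s ⬝ᵥ a = c) (hz : z ∈ Φ) (hZ : z ⬝ᵥ z = c)
    (haz : a ⬝ᵥ z ≠ 0) : s ⬝ᵥ z = (a ⬝ᵥ z) / 2 := by
  rcases prodLS hR hT ha hz hA hZ with h1 | h1 | h1
  · exact absurd h1 haz
  · rw [h1]
    exact (k1 hR hM hT ha hz hA hZ h1 hs).1 hsa
  · have h2 := (k1 hR hM hT ha (hR.neg z hz) hA
      (by rw [neg_dotProduct, dotProduct_neg, neg_neg, hZ])
      (by rw [dotProduct_neg, h1, neg_neg]) hs).1 hsa
    rw [dotProduct_neg] at h2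
    rw [h1]
    linarith

lemma near (hR : RS Φ h) (hM : MW Φ h S) (hT : TL Φ c) {a x z s : Fin r → ℝ} (ha : a ∈ Φ)
    (hA : a ⬝ᵥ a = 2 * c) (hs : s ∈ S) (hsa : s ⬝ᵥ a = c) (hx : x ∈ Φ) (hX : x ⬝ᵥ x = c)
    (hax : a ⬝ᵥ x = 0) (hz : z ∈ Φ) (hZ : z ⬝ᵥ z = c) (haz : a ⬝ᵥ z ≠ 0) (hxz : z ⬝ᵥ x ≠ 0) :
    s ⬝ᵥ x = 0 := by
  have h1 := half hR hM hT ha hA hs hsa hz hZ haz
  have h2 : a ⬝ᵥ rf x z = a ⬝ᵥ z := by
    rw [dotProduct_comm, rf_dot_left, dotProduct_comm x a, hax, mul_zero, sub_zero,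
      dotProduct_comm]
  have h3 := half hR hM hT ha hA hs hsa (hR.rfl x hx z hz) (by rw [rf_sq hR hx]; exact hZ)
    (by rw [h2]; exact haz)
  rw [h2, ← h1, dotProduct_comm, rf_dot_left, dotProduct_comm z s, sub_eq_self,
    mul_eq_zero] at h3
  rw [dotProduct_comm]
  exact h3.resolve_left (pr_ne (ne0 hR hx) hxz)

lemma vanish (hR : RS Φ h) (hT : TL Φ c) {v : Fin r → ℝ}
    (hv : ∀ b ∈ Φ, b ⬝ᵥ b = c → v ⬝ᵥ b = 0) : v = 0 := by
  have h1 := spanG hR (G := fun g => g ∈ Φ ∧ g ⬝ᵥ g = c) (fun g hg => hg.1)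
      (by obtain ⟨b, hb, hbc⟩ := hT.sh; exact ⟨b, hb, hbc⟩) (len_cl hR c)
  have h2 : v ∈ Submodule.span ℝ {g | g ∈ Φ ∧ g ⬝ᵥ g = c} := by
    rw [h1]
    trivial
  have h3 : ∀ x ∈ Submodule.span ℝ {g | g ∈ Φ ∧ g ⬝ᵥ g = c}, v ⬝ᵥ x = 0 := by
    intro x hx
    induction hx using Submodule.span_induction with
    | mem x hx => exact hv x hx.1 hx.2
    | zero => exact dotProduct_zero v
    | add x y _ _ hx hy => rw [dotProduct_add, hx, hy, add_zero]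
    | smul t x _ hx => rw [dotProduct_smul, hx, smul_zero]
  exact dotProduct_self_eq_zero.1 (h3 v h2)

lemma eq_half (hR : RS Φ h) (hM : MW Φ h S) (hT : TL Φ c)
    (hC : ∃ b ∈ Φ, ∃ b' ∈ Φ, b ⬝ᵥ b = c ∧ b' ⬝ᵥ b' = c ∧ b' ≠ b ∧ b' ≠ -b ∧ b ⬝ᵥ b' ≠ 0)
    {a s : Fin r → ℝ} (ha : a ∈ Φ) (hA : a ⬝ᵥ a = 2 * c) (hs : s ∈ S) (hsa : s ⬝ᵥ a = c) :
    s = (1 / 2 : ℝ) • a := by
  have hc := hT.pos
  rw [← sub_eq_zero]
  refine vanish hR hT fun b hb hB => ?_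
  rw [sub_dotProduct, smul_dotProduct, smul_eq_mul]
  by_cases hab : a ⬝ᵥ b = 0
  · rw [hab, mul_zero, sub_zero]
    obtain ⟨b₁, ⟨hb₁, hB₁⟩, hab₁⟩ := meet hR (G := fun g => g ∈ Φ ∧ g ⬝ᵥ g = c)
      (fun g hg => hg.1) (by obtain ⟨b, hb, hbc⟩ := hT.sh; exact ⟨b, hb, hbc⟩) (len_cl hR c) ha
    by_cases hbb : b₁ ⬝ᵥ b = 0
    · rcases dist2 hR hT hC hb₁ hB₁ hb hB with h1 | ⟨y, hy, hY, hy1, hy2⟩
      · rw [dotProduct_comm] at h1
        exact absurd hbb h1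
      · by_cases hay : a ⬝ᵥ y = 0
        · have h2 := near hR hM hT ha hA hs hsa hy hY hay hb₁ hB₁ hab₁
            (by rw [dotProduct_comm]; exact hy1)
          have h3 := near hR hM hT ha hA hs hsa (hR.rfl y hy b hb)
            (by rw [rf_sq hR hy]; exact hB)
            (by rw [dotProduct_comm, rf_dot_left, dotProduct_comm b a, hab, dotProduct_comm y a,
              hay, mul_zero, sub_zero]) hb₁ hB₁ hab₁
            (by
              rw [dotProduct_comm, rf_dot_left, dotProduct_comm b b₁, hbb, zero_sub]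
              exact neg_ne_zero.2 (mul_ne_zero
                (pr_ne (ne0 hR hy) (by rw [dotProduct_comm]; exact hy2)) hy1))
          rw [dotProduct_comm, rf_dot_left, dotProduct_comm y s, h2, mul_zero, sub_zero,
            dotProduct_comm] at h3
          exact h3
        · exact near hR hM hT ha hA hs hsa hb hB hab hy hY hay hy2
    · exact near hR hM hT ha hA hs hsa hb hB hab hb₁ hB₁ hab₁ hbb
  · rw [half hR hM hT ha hA hs hsa hb hB hab]
    ring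

lemma ex_long (hR : RS Φ h) (hM : MW Φ h S) (hT : TL Φ c) {s : Fin r → ℝ} (hs : s ∈ S) :
    ∃ a ∈ Φ, a ⬝ᵥ a = 2 * c ∧ s ⬝ᵥ a = c := by
  have hc := hT.pos
  have hs0 : s ≠ 0 := by
    rintro rfl
    exact hM.nz hs
  obtain ⟨b, hb, hB, hsb⟩ : ∃ b ∈ Φ, b ⬝ᵥ b = c ∧ s ⬝ᵥ b ≠ 0 := by
    by_contra hcon
    push Not at hcon
    exact hs0 (vanish hR hT hcon)
  obtain ⟨a, ⟨ha, hA⟩, hba⟩ := meet hR (G := fun g => g ∈ Φ ∧ g ⬝ᵥ g = 2 * c)
    (fun g hg => hg.1) (by obtain ⟨b, hb, hbc⟩ := hT.lo; exact ⟨b, hb, hbc⟩)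
    (len_cl hR (2 * c)) hb
  have hex : ∃ a' ∈ Φ, a' ⬝ᵥ a' = 2 * c ∧ s ⬝ᵥ a' ≠ 0 := by
    by_cases h1 : s ⬝ᵥ a = 0
    · refine ⟨rf b a, hR.rfl b hb a ha, by rw [rf_sq hR hb]; exact hA, ?_⟩
      rw [dotProduct_comm, rf_dot_left, dotProduct_comm a s, h1, zero_sub, dotProduct_comm b s]
      exact neg_ne_zero.2 (mul_ne_zero (pr_ne (ne0 hR hb) (by rw [dotProduct_comm]; exact hba))
        hsb)
    · exact ⟨a, ha, hA, h1⟩
  obtain ⟨a', ha', hA', hsa'⟩ := hex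
  rcases minL hR hM hT ha' hs hA' with h1 | h1 | h1
  · exact absurd h1 hsa'
  · exact ⟨a', ha', hA', h1⟩
  · refine ⟨-a', hR.neg a' ha', ?_, ?_⟩
    · rw [neg_dotProduct, dotProduct_neg, neg_neg, hA']
    · rw [dotProduct_neg, h1, neg_neg]

end C2

lemma caseC (hR : RS Φ h) (hM : MW Φ h S) (h3 : St_pai) {c : ℝ} (hT : TL Φ c)
    (hC : ∃ b ∈ Φ, ∃ b' ∈ Φ, b ⬝ᵥ b = c ∧ b' ⬝ᵥ b' = c ∧ b' ≠ b ∧ b' ≠ -b ∧ b ⬝ᵥ b' ≠ 0) :
    Ty6 Φ S := by
  classical
  have hc := hT.pos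
  have hS : ∀ s, s ∈ S ↔ ∃ a ∈ Φ, a ⬝ᵥ a = 2 * c ∧ s = (1 / 2 : ℝ) • a := by
    intro s
    constructor
    · intro hs
      obtain ⟨a, ha, hA, hsa⟩ := ex_long hR hM hT hs
      exact ⟨a, ha, hA, eq_half hR hM hT hC ha hA hs hsa⟩
    · rintro ⟨a, ha, hA, rfl⟩
      obtain ⟨s, hs, hs1⟩ := (h3 r Φ h S hR hM).1 a ha
      unfold pr at hs1
      rw [hA, div_eq_iff (by positivity)] at hs1
      have h4 := eq_half hR hM hT hC ha hA hs (by linarith)
      rw [← h4]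
      exact hs
  have hdbl : ∀ s ∈ S, (2 : ℝ) • s ∈ Φ ∧ ((2 : ℝ) • s) ⬝ᵥ ((2 : ℝ) • s) = 2 * c := by
    intro s hs
    obtain ⟨a, ha, hA, rfl⟩ := (hS s).1 hs
    have h4 : (2 : ℝ) • (1 / 2 : ℝ) • a = a := by
      rw [smul_smul]
      norm_num
    rw [h4]
    exact ⟨ha, hA⟩
  have hsq : ∀ s ∈ S, s ⬝ᵥ s = c / 2 := by
    intro s hs
    have h4 := (hdbl s hs).2
    simp only [smul_dotProduct, dotProduct_smul, smul_eq_mul] at h4
    linarith
  have hneg : ∀ s ∈ S, -s ∈ S := by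
    intro s hs
    obtain ⟨a, ha, hA, rfl⟩ := (hS s).1 hs
    refine (hS _).2 ⟨-a, hR.neg a ha, ?_, ?_⟩
    · rw [neg_dotProduct, dotProduct_neg, neg_neg, hA]
    · rw [smul_neg]
  obtain ⟨n, e, he, hSe⟩ := enum (R := S) (c := c / 2) (by positivity) hneg hsq
    (fun x hx y hy e1 e2 => by
      obtain ⟨hx1, hx2⟩ := hdbl x hx
      obtain ⟨hy1, hy2⟩ := hdbl y hy
      have h4 := minL hR hM hT hx1 hy hx2
      have h5 := prodEq hR (by positivity : 0 < 2 * c) hx1 hy1 hx2 hy2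
        (by
          intro h0
          exact e1 (smul_right_injective _ (two_ne_zero (α := ℝ)) h0))
        (by
          intro h0
          rw [← smul_neg] at h0
          exact e2 (smul_right_injective _ (two_ne_zero (α := ℝ)) h0))
      simp only [smul_dotProduct, dotProduct_smul, smul_eq_mul] at h4 h5
      rw [dotProduct_comm y x] at h4
      rcases h4 with h4 | h4 | h4 <;> rcases h5 with h5 | h5 | h5 <;> linarith)
    (by
      have h4 := spanG hR (G := fun g => g ∈ Φ ∧ g ⬝ᵥ g = 2 * c) (fun g hg => hg.1)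
        (by obtain ⟨b, hb, hbc⟩ := hT.lo; exact ⟨b, hb, hbc⟩) (len_cl hR (2 * c))
      rw [eq_top_iff, ← h4, Submodule.span_le]
      rintro g ⟨hg, hg2⟩
      have h5 : (1 / 2 : ℝ) • g ∈ S := (hS _).2 ⟨g, hg, hg2, _root_.rfl⟩
      have h6 : g = (2 : ℝ) • (1 / 2 : ℝ) • g := by
        rw [smul_smul]
        norm_num
      rw [h6]
      exact Submodule.smul_mem _ _ (Submodule.subset_span h5))
  have heS : ∀ i, e i ∈ S := fun i => (hSe _).2 ⟨i, Or.inl _root_.rfl⟩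
  have hshort : ∀ x ∈ Φ, x ⬝ᵥ x = c → Dro e x := by
    intro x hx hX
    refine dro_of he (fun i => ?_) (by rw [hX]; ring)
    obtain ⟨h4, h5⟩ := hdbl _ (heS i)
    have h6 := prodLS hR hT h4 hx h5 hX
    rw [smul_dotProduct, smul_eq_mul, dotProduct_comm] at h6
    rcases h6 with h6 | h6 | h6
    · left; linarith
    · right; left; linarith
    · right; right; linarith
  have h2 : ∀ γ ∈ Φ, Dro e γ ∨ ∃ i, γ = (2 : ℝ) • e i ∨ γ = -((2 : ℝ) • e i) := by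
    intro γ hγ
    rcases hT.two γ hγ with h4 | h4
    · left
      exact hshort γ hγ h4
    · right
      have h5 : (1 / 2 : ℝ) • γ ∈ S := (hS _).2 ⟨γ, hγ, h4, _root_.rfl⟩
      have h6 : γ = (2 : ℝ) • (1 / 2 : ℝ) • γ := by
        rw [smul_smul]
        norm_num
      obtain ⟨i, hi | hi⟩ := (hSe _).1 h5
      · exact ⟨i, Or.inl (by rw [← hi]; exact h6)⟩
      · exact ⟨i, Or.inr (by rw [← smul_neg, ← hi]; exact h6)⟩
  have hdro := alldro hR he two_ne_zero (fun i => (hdbl _ (heS i)).1) h2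
  refine ⟨n, c / 2, e, ?_, he, fun x => ⟨h2 x, ?_⟩, hSe⟩
  · obtain ⟨b, hb, hB⟩ := hT.sh
    exact two_le (hshort b hb hB)
  · rintro (h4 | ⟨i, rfl | rfl⟩)
    · exact hdro x h4
    · exact (hdbl _ (heS i)).1
    · exact hR.neg _ (hdbl _ (heS i)).1

end

end GC5

open GC5 in
/-- **C5.** Roots of different lengths. -/
theorem c5_of (h3 : St_pai) : St_c5 := by
  intro r Φ h S hR hM hne
  obtain ⟨c, hT⟩ := tl hR hM h3 hne
  by_cases hC : ∃ b ∈ Φ, ∃ b' ∈ Φ, b ⬝ᵥ b = c ∧ b' ⬝ᵥ b' = c ∧ b' ≠ b ∧ b' ≠ -b ∧ b ⬝ᵥ b' ≠ 0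
  · right
    exact caseC hR hM h3 hT hC
  · left
    refine caseB hR hM hT fun b hb b' hb' h1 h2 e1 e2 => ?_
    by_contra h4
    exact hC ⟨b, hb, b', hb', h1, h2, e1, e2, h4⟩

end Pool.Agent.NH32
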