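import Pool.Agent.NH32.GtC

/-!
# Project G, stage 2: uniqueness of the weights for the types different from the special linear one
-/

set_option linter.unusedSectionVars false

namespace Pool.Agent.NH32

namespace GC6

open Matrix Finset

section basic

variable {r n : ℕ} {c : ℝ} {e : Fin n → Fin r → ℝ}

lemma dots (hO : Ort n c e) (f : Fin n → ℝ) (j : Fin n) :
    (∑ i, f i • e i) ⬝ᵥ e j = f j * c := by
  rw [sum_dotProduct]
  simp [smul_dotProduct, hO.2.1]

lemma coor (hO : Ort n c e) (x : Fin r → ℝ) : ∃ f : Fin n → ℝ, x = ∑ i, f i • e i := by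
  have h : x ∈ Submodule.span ℝ (Set.range e) := by rw [hO.2.2]; trivial
  obtain ⟨f, hf⟩ := (Submodule.mem_span_range_iff_exists_fun ℝ).1 h
  exact ⟨f, hf.symm⟩

lemma dself (hO : Ort n c e) (i : Fin n) : e i ⬝ᵥ e i = c := by
  rw [hO.2.1, if_pos rfl]

lemma dne (hO : Ort n c e) {i j : Fin n} (h : i ≠ j) : e i ⬝ᵥ e j = 0 := by
  rw [hO.2.1, if_neg h]

/-- the pairing with `a e i + b e j` -/
lemma pra (hO : Ort n c e) (f : Fin n → ℝ) {i j : Fin n} (h : i ≠ j) (a b : ℝ) (ha : a ^ 2 = 1)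
    (hb : b ^ 2 = 1) : pr (a • e i + b • e j) (∑ k, f k • e k) = a * f i + b * f j := by
  have h1 : (a • e i + b • e j) ⬝ᵥ (a • e i + b • e j) = 2 * c := by
    simp only [add_dotProduct, dotProduct_add, smul_dotProduct, dotProduct_smul, smul_eq_mul,
      dself hO, dne hO h, dne hO h.symm]
    linear_combination c * ha + c * hb
  have h2 : (∑ k, f k • e k) ⬝ᵥ (a • e i + b • e j) = (a * f i + b * f j) * c := by
    simp only [dotProduct_add, dotProduct_smul, smul_eq_mul, dots hO]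
    ring
  unfold pr
  rw [h1, h2]
  have := hO.1.ne'
  field_simp

/-- the pairing with `a e i` -/
lemma prb (hO : Ort n c e) (f : Fin n → ℝ) (i : Fin n) (a : ℝ) (ha : a ≠ 0) :
    pr (a • e i) (∑ k, f k • e k) = 2 * f i / a := by
  have h1 : (a • e i) ⬝ᵥ (a • e i) = a ^ 2 * c := by
    simp only [smul_dotProduct, dotProduct_smul, smul_eq_mul, dself hO]
    ring
  have h2 : (∑ k, f k • e k) ⬝ᵥ (a • e i) = a * f i * c := by
    simp only [dotProduct_smul, smul_eq_mul, dots hO]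
    ring
  unfold pr
  rw [h1, h2]
  have := hO.1.ne'
  field_simp

lemma inj (hO : Ort n c e) {f g : Fin n → ℝ} (h : ∑ i, f i • e i = ∑ i, g i • e i) (i : Fin n) :
    f i = g i := by
  have h1 := dots hO f i
  rw [h, dots hO g i] at h1
  exact (mul_right_cancel₀ hO.1.ne' h1).symm

/-- `± e i ± e j` -/
lemma dro_of {i j : Fin n} (h : i ≠ j) (a b : ℝ) (ha : a = 1 ∨ a = -1) (hb : b = 1 ∨ b = -1) :
    Dro e (a • e i + b • e j) := by
  rcases ha with rfl | rfl <;> rcases hb with rfl | rfl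
  · exact ⟨i, j, h, Or.inl (by simp)⟩
  · exact ⟨i, j, h, Or.inr (Or.inl (by simp [sub_eq_add_neg]))⟩
  · exact ⟨j, i, h.symm, Or.inr (Or.inl (by simp [sub_eq_add_neg, add_comm]))⟩
  · exact ⟨i, j, h, Or.inr (Or.inr (by simp [sub_eq_add_neg]))⟩

/-- minuscule vectors, coordinates -/
lemma clsD {f : Fin n → ℝ} (h2 : 2 ≤ n) (hf : ∃ i, f i ≠ 0)
    (h : ∀ i j, i ≠ j → ∀ b : ℝ, b = 1 ∨ b = -1 → f i + b * f j = 0 ∨ f i + b * f j = 1 ∨
      f i + b * f j = -1) :
    (∃ i, (f i = 1 ∨ f i = -1) ∧ ∀ j, j ≠ i → f j = 0) ∨ ∀ i, f i = 1 / 2 ∨ f i = -1 / 2 := by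
  by_cases hh : ∃ i, f i = 1 / 2 ∨ f i = -1 / 2
  · right
    obtain ⟨i, hi⟩ := hh
    intro j
    by_cases hij : i = j
    · rw [← hij]; exact hi
    · have h1 := h i j hij 1 (Or.inl rfl)
      have h3 := h i j hij (-1) (Or.inr rfl)
      rcases hi with hi | hi <;> rw [hi] at h1 h3 <;>
        rcases h1 with h1 | h1 | h1 <;> rcases h3 with h3 | h3 | h3 <;>
        first
          | (left; linarith)
          | (right; linarith)
  · left
    push Not at hh
    obtain ⟨i, hi⟩ := hf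
    refine ⟨i, ?_, ?_⟩
    · have : ∃ j : Fin n, i ≠ j := by
        by_contra hcon
        push Not at hcon
        have h3 := hcon ⟨0, by omega⟩
        have h4 := hcon ⟨1, by omega⟩
        rw [h3] at h4
        have := congrArg Fin.val h4
        simp at this
      obtain ⟨j, hij⟩ := this
      have h1 := h i j hij 1 (Or.inl rfl)
      have h3 := h i j hij (-1) (Or.inr rfl)
      have h4 := hh i
      rcases h1 with h1 | h1 | h1 <;> rcases h3 with h3 | h3 | h3 <;>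
        first
          | (left; linarith)
          | (right; linarith)
          | (exfalso; exact hi (by linarith))
          | (exfalso; exact h4.1 (by linarith))
          | (exfalso; exact h4.2 (by linarith))
    · intro j hji
      have h1 := h i j (Ne.symm hji) 1 (Or.inl rfl)
      have h3 := h i j (Ne.symm hji) (-1) (Or.inr rfl)
      have h4 := hh i
      rcases h1 with h1 | h1 | h1 <;> rcases h3 with h3 | h3 | h3 <;>
        first
          | linarith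
          | (exfalso; exact hi (by linarith))
          | (exfalso; exact h4.1 (by linarith))
          | (exfalso; exact h4.2 (by linarith))

end basic

section count

variable {κ : Type} [Fintype κ]

lemma evenA (m : κ → ℤ) (hs : ∑ k, m k = 0) (p : κ → Prop) [DecidablePred p]
    (hp : ∀ k, Odd (m k) ↔ p k) : Even (univ.filter p).card := by
  have h1 : (2 : ℤ) ∣ ∑ k, (m k - if p k then 1 else 0) := by
    apply Finset.dvd_sum
    intro k _
    by_cases hk : p k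
    · obtain ⟨t, ht⟩ := (hp k).2 hk
      rw [if_pos hk, ht]
      exact ⟨t, by ring⟩
    · have : Even (m k) := by
        rw [← Int.not_odd_iff_even]
        exact fun h => hk ((hp k).1 h)
      obtain ⟨t, ht⟩ := this
      rw [if_neg hk, ht]
      exact ⟨t, by ring⟩
  rw [Finset.sum_sub_distrib, hs, ← Finset.natCast_card_filter] at h1
  have h1' : (2 : ℤ) ∣ 0 - ((univ.filter p).card : ℤ) := h1
  have h2 : (2 : ℤ) ∣ ((univ.filter p).card : ℤ) := by omega
  exact even_iff_two_dvd.2 (by exact_mod_cast h2)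

lemma modB (m : κ → ℤ) (hs : ∑ k, m k = 0) (n : ℤ) (hn : Odd n) (p q : κ → Prop)
    [DecidablePred p] [DecidablePred q]
    (h : ∀ k, (p k ∧ ¬ q k ∧ (4 : ℤ) ∣ m k - n) ∨ (q k ∧ ¬ p k ∧ (4 : ℤ) ∣ m k + n)) :
    (4 : ℤ) ∣ ((univ.filter p).card : ℤ) - (univ.filter q).card := by
  have h1 : (4 : ℤ) ∣ ∑ k, (m k - n * (if p k then 1 else 0) + n * (if q k then 1 else 0)) := by
    apply Finset.dvd_sum
    intro k _
    rcases h k with ⟨h1, h2, h3⟩ | ⟨h1, h2, h3⟩
    · rw [if_pos h1, if_neg h2, mul_one, mul_zero, add_zero]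
      exact h3
    · rw [if_pos h1, if_neg h2, mul_one, mul_zero, sub_zero]
      exact h3
  rw [Finset.sum_add_distrib, Finset.sum_sub_distrib, hs, ← Finset.mul_sum, ← Finset.mul_sum,
    ← Finset.natCast_card_filter, ← Finset.natCast_card_filter] at h1
  have h2 : (4 : ℤ) ∣ n * (((univ.filter p).card : ℤ) - (univ.filter q).card) := by
    have := (dvd_neg (a := (4 : ℤ))).2 h1
    refine (Int.dvd_iff_dvd_of_dvd_sub ?_).1 this
    exact ⟨0, by ring⟩
  have h3 : IsCoprime (4 : ℤ) n := by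
    obtain ⟨t, ht⟩ := hn
    refine Int.isCoprime_iff_gcd_eq_one.2 ?_
    have h4 : Int.gcd 4 n ∣ 4 := by exact_mod_cast Int.gcd_dvd_left (a := 4) (b := n)
    have h5 : ((Int.gcd 4 n : ℕ) : ℤ) ∣ n := Int.gcd_dvd_right (a := 4) (b := n)
    have h6 : Int.gcd 4 n ≤ 4 := Nat.le_of_dvd (by norm_num) h4
    generalize Int.gcd 4 n = g at h4 h5 h6
    interval_cases g
    · simp at h4
    · rfl
    · exfalso; omega
    · exfalso; revert h4; decide
    · exfalso; omega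
  exact h3.dvd_of_dvd_mul_left h2

end count

section mw

variable {r : ℕ} {Φ : Finset (Fin r → ℝ)} {h : Fin r → ℝ} {S S' : Finset (Fin r → ℝ)}

lemma eq_of_mem (hS : MW Φ h S) (hS' : MW Φ h S') {x : Fin r → ℝ} (hx : x ∈ S) (hx' : x ∈ S') :
    S' = S := by
  classical
  have h1 : S.filter (· ∈ S') = S := by
    apply hS.tr _ (Finset.filter_subset _ _) ⟨x, Finset.mem_filter.2 ⟨hx, hx'⟩⟩
    intro γ hγ s hs
    rw [Finset.mem_filter] at hs ⊢
    exact ⟨hS.rfl γ hγ s hs.1, hS'.rfl γ hγ s hs.2⟩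
  have h2 : S'.filter (· ∈ S) = S' := by
    apply hS'.tr _ (Finset.filter_subset _ _) ⟨x, Finset.mem_filter.2 ⟨hx', hx⟩⟩
    intro γ hγ s hs
    rw [Finset.mem_filter] at hs ⊢
    exact ⟨hS'.rfl γ hγ s hs.1, hS.rfl γ hγ s hs.2⟩
  ext y
  constructor
  · intro hy
    rw [← h2] at hy
    exact (Finset.mem_filter.1 hy).2
  · intro hy
    rw [← h1] at hy
    exact (Finset.mem_filter.1 hy).2

lemma rf_neg (γ x : Fin r → ℝ) : rf γ (-x) = -rf γ x := by
  unfold rf pr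
  rw [neg_dotProduct, mul_neg, neg_div, neg_smul, neg_sub]
  abel

lemma eq_neg_of_mem [DecidableEq (Fin r → ℝ)] (hS : MW Φ h S) (hS' : MW Φ h S')
    {x : Fin r → ℝ} (hx : -x ∈ S) (hx' : x ∈ S') : S' = S.image Neg.neg := by
  classical
  have h1 : S.filter (fun y => -y ∈ S') = S := by
    apply hS.tr _ (Finset.filter_subset _ _)
      ⟨-x, Finset.mem_filter.2 ⟨hx, by rw [neg_neg]; exact hx'⟩⟩
    intro γ hγ s hs
    rw [Finset.mem_filter] at hs ⊢
    refine ⟨hS.rfl γ hγ s hs.1, ?_⟩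
    rw [← rf_neg]
    exact hS'.rfl γ hγ _ hs.2
  have h2 : S'.filter (fun y => -y ∈ S) = S' := by
    apply hS'.tr _ (Finset.filter_subset _ _) ⟨x, Finset.mem_filter.2 ⟨hx', hx⟩⟩
    intro γ hγ s hs
    rw [Finset.mem_filter] at hs ⊢
    refine ⟨hS'.rfl γ hγ s hs.1, ?_⟩
    rw [← rf_neg]
    exact hS.rfl γ hγ _ hs.2
  ext y
  rw [Finset.mem_image]
  constructor
  · intro hy
    rw [← h2] at hy
    exact ⟨-y, (Finset.mem_filter.1 hy).2, neg_neg y⟩
  · rintro ⟨z, hz, rfl⟩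
    rw [← h1] at hz
    exact (Finset.mem_filter.1 hz).2

/-- coordinates of the weights, if the roots contain `± e i ± e j` -/
lemma cls {n : ℕ} {c : ℝ} {e : Fin n → Fin r → ℝ} (hn : 2 ≤ n) (hO : Ort n c e)
    (hS : MW Φ h S) (hD : ∀ x, Dro e x → x ∈ Φ) {x : Fin r → ℝ} (hx : x ∈ S) :
    (∃ i, x = e i ∨ x = -e i) ∨ ∃ f : Fin n → ℝ, x = ∑ i, f i • e i ∧
      ∀ i, f i = 1 / 2 ∨ f i = -1 / 2 := by
  obtain ⟨f, hf⟩ := coor hO x
  have h0 : ∃ i, f i ≠ 0 := by
    by_contra hcon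
    push Not at hcon
    apply hS.nz
    have : x = 0 := by
      rw [hf]
      exact Finset.sum_eq_zero fun i _ => by rw [hcon i, zero_smul]
    rw [← this]
    exact hx
  have h1 := clsD hn h0 (by
    intro i j hij b hb
    have h2 := hS.min ((1 : ℝ) • e i + b • e j) (hD _ (dro_of hij 1 b (Or.inl rfl) hb)) x hx
    rw [hf, pra hO f hij 1 b (by norm_num) (by rcases hb with rfl | rfl <;> norm_num), one_mul] at h2
    exact h2)
  rcases h1 with ⟨i, hi, hj⟩ | h1
  · left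
    refine ⟨i, ?_⟩
    have h3 : x = f i • e i := by
      rw [hf]
      exact Finset.sum_eq_single i (fun j _ hji => by rw [hj j hji, zero_smul])
        (fun h => absurd (Finset.mem_univ i) h)
    rcases hi with hi | hi
    · left; rw [h3, hi, one_smul]
    · right; rw [h3, hi, neg_smul, one_smul]
  · exact Or.inr ⟨f, hf, h1⟩

/-- reflections of `± e i` -/
lemma rfe {n : ℕ} {c : ℝ} {e : Fin n → Fin r → ℝ} (hO : Ort n c e) {i j : Fin n} (hij : i ≠ j)
    (a b : ℝ) (ha : a = 1 ∨ a = -1) (hb : b = 1 ∨ b = -1) :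
    rf (a • e i + b • e j) (a • e i) = -(b • e j) := by
  have ha2 : a ^ 2 = 1 := by rcases ha with rfl | rfl <;> norm_num
  have hb2 : b ^ 2 = 1 := by rcases hb with rfl | rfl <;> norm_num
  have h1 : (a • e i + b • e j) ⬝ᵥ (a • e i + b • e j) = 2 * c := by
    simp only [add_dotProduct, dotProduct_add, smul_dotProduct, dotProduct_smul, smul_eq_mul,
      dself hO, dne hO hij, dne hO hij.symm]
    linear_combination c * ha2 + c * hb2
  have h2 : (a • e i) ⬝ᵥ (a • e i + b • e j) = c := by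
    simp only [dotProduct_add, smul_dotProduct, dotProduct_smul, smul_eq_mul,
      dself hO, dne hO hij]
    linear_combination c * ha2
  unfold rf pr
  rw [h1, h2, div_self (mul_ne_zero two_ne_zero hO.1.ne'), one_smul]
  abel

lemma alle {n : ℕ} {c : ℝ} {e : Fin n → Fin r → ℝ} (hO : Ort n c e)
    (hS : MW Φ h S) (hD : ∀ x, Dro e x → x ∈ Φ) {i j : Fin n} (hij : i ≠ j)
    (hx : e i ∈ S ∨ -e i ∈ S) : e j ∈ S ∧ -e j ∈ S := by
  have key : ∀ a : ℝ, (a = 1 ∨ a = -1) → a • e i ∈ S → e j ∈ S ∧ -e j ∈ S := by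
    intro a ha hm
    have h1 := hS.rfl _ (hD _ (dro_of hij a (-1) ha (Or.inr rfl))) _ hm
    have h2 := hS.rfl _ (hD _ (dro_of hij a 1 ha (Or.inl rfl))) _ hm
    rw [rfe hO hij a _ ha (Or.inr rfl)] at h1
    rw [rfe hO hij a _ ha (Or.inl rfl)] at h2
    rw [neg_smul, one_smul, neg_neg] at h1
    rw [one_smul] at h2
    exact ⟨h1, h2⟩
  rcases hx with hx | hx
  · exact key 1 (Or.inl rfl) (by rw [one_smul]; exact hx)
  · exact key (-1) (Or.inr rfl) (by rw [neg_smul, one_smul]; exact hx)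

lemma ndif (hS : MW Φ h S) {s s' : Fin r → ℝ} (hs : s ∈ S) (hs' : s' ∈ S)
    (hd : s ⬝ᵥ h = s' ⬝ᵥ h + 2) : False := by
  obtain ⟨a, ha⟩ := hS.two
  rcases ha s hs with h1 | h1 <;> rcases ha s' hs' with h2 | h2 <;> linarith

lemma pr_sub (γ x y : Fin r → ℝ) : pr γ (x - y) = pr γ x - pr γ y := by
  unfold pr
  rw [sub_dotProduct]
  ring

/-- the half spin weights: changing two signs -/
lemma flip1 {n : ℕ} {c : ℝ} {e : Fin n → Fin r → ℝ} (hO : Ort n c e)
    (hS : MW Φ h S) (hD : ∀ x, Dro e x → x ∈ Φ) {f : Fin n → ℝ}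
    (hf : ∀ i, f i = 1 / 2 ∨ f i = -1 / 2) (hx : ∑ i, f i • e i ∈ S) {i j : Fin n} (hij : i ≠ j) :
    ∑ i, f i • e i - ((2 * f i) • e i + (2 * f j) • e j) ∈ S := by
  have hs : ∀ i, 2 * f i = 1 ∨ 2 * f i = -1 := by
    intro i
    rcases hf i with h | h <;> rw [h] <;> norm_num
  have hq : ∀ i, (2 * f i) ^ 2 = 1 := by
    intro i
    rcases hf i with h | h <;> rw [h] <;> norm_num
  have h1 := hS.rfl _ (hD _ (dro_of (e := e) hij (2 * f i) (2 * f j) (hs i) (hs j))) _ hx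
  have h2 : pr ((2 * f i) • e i + (2 * f j) • e j) (∑ i, f i • e i) = 1 := by
    rw [pra hO f hij _ _ (hq i) (hq j)]
    linear_combination (1 / 2) * hq i + (1 / 2) * hq j
  unfold rf at h1
  rw [h2, one_smul] at h1
  exact h1

lemma flip2 {n : ℕ} {c : ℝ} {e : Fin n → Fin r → ℝ} (hO : Ort n c e)
    (hS : MW Φ h S) (hD : ∀ x, Dro e x → x ∈ Φ) {f : Fin n → ℝ}
    (hf : ∀ i, f i = 1 / 2 ∨ f i = -1 / 2) (hx : ∑ i, f i • e i ∈ S) {i j k l : Fin n}
    (hij : i ≠ j) (hkl : k ≠ l) (hki : k ≠ i) (hkj : k ≠ j) (hli : l ≠ i) (hlj : l ≠ j) :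
    ∑ i, f i • e i - ((2 * f i) • e i + (2 * f j) • e j) - ((2 * f k) • e k + (2 * f l) • e l)
      ∈ S := by
  have hs : ∀ i, 2 * f i = 1 ∨ 2 * f i = -1 := by
    intro i
    rcases hf i with h | h <;> rw [h] <;> norm_num
  have hq : ∀ i, (2 * f i) ^ 2 = 1 := by
    intro i
    rcases hf i with h | h <;> rw [h] <;> norm_num
  have h1 := hS.rfl _ (hD _ (dro_of (e := e) hkl (2 * f k) (2 * f l) (hs k) (hs l))) _
    (flip1 hO hS hD hf hx hij)
  have h2 : pr ((2 * f k) • e k + (2 * f l) • e l) (∑ i, f i • e i) = 1 := by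
    rw [pra hO f hkl _ _ (hq k) (hq l)]
    linear_combination (1 / 2) * hq k + (1 / 2) * hq l
  have h3 : pr ((2 * f k) • e k + (2 * f l) • e l) ((2 * f i) • e i + (2 * f j) • e j) = 0 := by
    unfold pr
    have : ((2 * f i) • e i + (2 * f j) • e j) ⬝ᵥ ((2 * f k) • e k + (2 * f l) • e l) = 0 := by
      simp only [add_dotProduct, dotProduct_add, smul_dotProduct, dotProduct_smul, smul_eq_mul,
        dne hO hki.symm, dne hO hkj.symm, dne hO hli.symm, dne hO hlj.symm]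
      ring
    rw [this, mul_zero, zero_div]
  unfold rf at h1
  rw [pr_sub, h2, h3, sub_zero, one_smul] at h1
  exact h1

/-- the values of `h` on the half spin weights beside those of the orthogonal type -/
lemma hval {n : ℕ} {c : ℝ} {e : Fin n → Fin r → ℝ} (hn : 4 ≤ n) (hO : Ort n c e)
    (hS : MW Φ h S) (hD : ∀ x, Dro e x → x ∈ Φ) (hu : ∀ i, e i ⬝ᵥ h = 1 / 2 ∨ e i ⬝ᵥ h = -1 / 2)
    {f : Fin n → ℝ} (hf : ∀ i, f i = 1 / 2 ∨ f i = -1 / 2) (hx : ∑ i, f i • e i ∈ S) :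
    (∑ i, f i • e i) ⬝ᵥ h = 1 / 2 ∨ (∑ i, f i • e i) ⬝ᵥ h = -1 / 2 := by
  classical
  have hv : ∀ i, f i * (e i ⬝ᵥ h) = 1 / 4 ∨ f i * (e i ⬝ᵥ h) = -1 / 4 := by
    intro i
    rcases hf i with h1 | h1 <;> rcases hu i with h2 | h2 <;> rw [h1, h2] <;> norm_num
  set P : Finset (Fin n) := univ.filter fun i => f i * (e i ⬝ᵥ h) = 1 / 4 with hP
  set M : Finset (Fin n) := univ.filter fun i => ¬ f i * (e i ⬝ᵥ h) = 1 / 4 with hM
  have hPm : ∀ i ∈ P, f i * (e i ⬝ᵥ h) = 1 / 4 := fun i hi => (Finset.mem_filter.1 hi).2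
  have hMm : ∀ i ∈ M, f i * (e i ⬝ᵥ h) = -1 / 4 := fun i hi =>
    (hv i).resolve_left (Finset.mem_filter.1 hi).2
  have hcard : P.card + M.card = n := by
    rw [hP, hM, Finset.card_filter_add_card_filter_not, Finset.card_univ, Fintype.card_fin]
  have hval : (∑ i, f i • e i) ⬝ᵥ h = ((P.card : ℝ) - M.card) / 4 := by
    rw [sum_dotProduct]
    simp only [smul_dotProduct, smul_eq_mul]
    rw [← Finset.sum_filter_add_sum_filter_not univ fun i => f i * (e i ⬝ᵥ h) = 1 / 4]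
    rw [Finset.sum_congr rfl hPm, Finset.sum_congr rfl hMm, Finset.sum_const, Finset.sum_const]
    simp only [nsmul_eq_mul]
    ring
  have d1 : ∀ i j, ((2 * f i) • e i + (2 * f j) • e j) ⬝ᵥ h =
      2 * (f i * (e i ⬝ᵥ h)) + 2 * (f j * (e j ⬝ᵥ h)) := by
    intro i j
    simp only [add_dotProduct, smul_dotProduct, smul_eq_mul]
    ring
  have four : ∀ A : Finset (Fin n), 4 ≤ A.card → ∃ i ∈ A, ∃ j ∈ A, ∃ k ∈ A, ∃ l ∈ A,
      i ≠ j ∧ k ≠ l ∧ k ≠ i ∧ k ≠ j ∧ l ≠ i ∧ l ≠ j := by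
    intro A hA
    obtain ⟨i, hi, j, hj, hij⟩ := Finset.one_lt_card.1 (show 1 < A.card by omega)
    have h2 : 2 ≤ ((A.erase i).erase j).card := by
      rw [Finset.card_erase_of_mem (Finset.mem_erase.2 ⟨hij.symm, hj⟩),
        Finset.card_erase_of_mem hi]
      omega
    obtain ⟨k, hk, l, hl, hkl⟩ := Finset.one_lt_card.1 (show 1 < ((A.erase i).erase j).card by omega)
    rw [Finset.mem_erase, Finset.mem_erase] at hk hl
    exact ⟨i, hi, j, hj, k, hk.2.2, l, hl.2.2, hij, hkl, hk.2.1, hk.1, hl.2.1, hl.1⟩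
  have c1 : ¬ 4 ≤ P.card := by
    intro hA
    obtain ⟨i, hi, j, hj, k, hk, l, hl, h1, h2, h3, h4, h5, h6⟩ := four P hA
    apply ndif hS hx (flip2 hO hS hD hf hx h1 h2 h3 h4 h5 h6)
    rw [sub_dotProduct, sub_dotProduct, d1, d1, hPm i hi, hPm j hj, hPm k hk, hPm l hl]
    ring
  have c2 : ¬ 4 ≤ M.card := by
    intro hA
    obtain ⟨i, hi, j, hj, k, hk, l, hl, h1, h2, h3, h4, h5, h6⟩ := four M hA
    apply ndif hS (flip2 hO hS hD hf hx h1 h2 h3 h4 h5 h6) hx
    rw [sub_dotProduct, sub_dotProduct, d1, d1, hMm i hi, hMm j hj, hMm k hk, hMm l hl]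
    ring
  have c3 : ¬ (2 ≤ P.card ∧ 2 ≤ M.card) := by
    rintro ⟨hA, hB⟩
    obtain ⟨i, hi, j, hj, hij⟩ := Finset.one_lt_card.1 (show 1 < P.card by omega)
    obtain ⟨k, hk, l, hl, hkl⟩ := Finset.one_lt_card.1 (show 1 < M.card by omega)
    apply ndif hS (flip1 hO hS hD hf hx hkl) (flip1 hO hS hD hf hx hij)
    rw [sub_dotProduct, sub_dotProduct, d1, d1, hPm i hi, hPm j hj, hMm k hk, hMm l hl]
    ring
  have c4 : (P.card = 1 ∧ M.card = 3) ∨ (P.card = 3 ∧ M.card = 1) := by omega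
  rw [hval]
  rcases c4 with ⟨h1, h2⟩ | ⟨h1, h2⟩ <;> rw [h1, h2] <;> norm_num

/-- the product and the sum of signs -/
lemma sgn {ι : Type*} [DecidableEq ι] (τ : ι → ℤ) (hτ : ∀ i, τ i = 1 ∨ τ i = -1) (A : Finset ι) :
    (∏ i ∈ A, τ i = 1 ∨ ∏ i ∈ A, τ i = -1) ∧
      ∃ t : ℤ, ∑ i ∈ A, τ i = A.card + ∏ i ∈ A, τ i - 1 + 4 * t := by
  induction A using Finset.induction_on with
  | empty => simp
  | insert a A ha ih =>
    obtain ⟨h1, t, ht⟩ := ih
    rw [Finset.sum_insert ha, Finset.prod_insert ha, Finset.card_insert_of_notMem ha, ht]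
    rcases hτ a with h2 | h2 <;> rw [h2] <;> rcases h1 with h3 | h3 <;> rw [h3]
    · exact ⟨Or.inl (by norm_num), t, by push_cast; ring⟩
    · exact ⟨Or.inr (by norm_num), t, by push_cast; ring⟩
    · exact ⟨Or.inr (by norm_num), t, by push_cast; ring⟩
    · exact ⟨Or.inl (by norm_num), t - 1, by push_cast; ring⟩

lemma tau {n : ℕ} {f : Fin n → ℝ} (hf : ∀ i, f i = 1 / 2 ∨ f i = -1 / 2) :
    ∃ τ : Fin n → ℤ, (∀ i, τ i = 1 ∨ τ i = -1) ∧ ∀ i, f i = (τ i : ℝ) / 2 := by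
  have : ∀ i, ∃ t : ℤ, (t = 1 ∨ t = -1) ∧ f i = (t : ℝ) / 2 := by
    intro i
    rcases hf i with h | h
    · exact ⟨1, Or.inl rfl, by rw [h]; norm_num⟩
    · exact ⟨-1, Or.inr rfl, by rw [h]; norm_num⟩
  choose τ h1 h2 using this
  exact ⟨τ, h1, h2⟩

end mw

section main

variable {r : ℕ} {Φ : Finset (Fin r → ℝ)} {h : Fin r → ℝ} {κ : Type} [Fintype κ]
  {S : κ → Finset (Fin r → ℝ)} {s : κ → Fin r → ℝ}

lemma sum0 (hs : ∑ k, s k = 0) (v : Fin r → ℝ) (m : κ → ℤ) (hm : ∀ k, s k ⬝ᵥ v = m k) :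
    ∑ k, m k = 0 := by
  have : (∑ k, s k) ⬝ᵥ v = 0 := by rw [hs, zero_dotProduct]
  rw [sum_dotProduct] at this
  simp only [hm] at this
  exact_mod_cast this

lemma vecA (hs : ∑ k, s k = 0) (v : Fin r → ℝ) (k₀ : κ)
    [DecidablePred fun k => S k = S k₀]
    (hv : ∀ k, ∃ m : ℤ, s k ⬝ᵥ v = m ∧ (Odd m ↔ S k = S k₀)) :
    Even (univ.filter fun k => S k = S k₀).card := by
  choose m hm hm2 using hv
  exact evenA m (sum0 hs v m hm) _ hm2

/-- the spin type -/
lemma t5 (hM : ∀ k, MW Φ h (S k)) (hm : ∀ k, s k ∈ S k) (hs : ∑ k, s k = 0) (k₀ : κ)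
    [DecidablePred fun k => S k = S k₀] (hT : Ty5 Φ (S k₀)) :
    (∀ x, x ∈ S k₀ → -x ∈ S k₀) ∧ Even (univ.filter fun k => S k = S k₀).card := by
  obtain ⟨n, c, e, hn, hO, hP, hQ⟩ := hT
  refine ⟨?_, ?_⟩
  · intro x hx
    obtain ⟨τ, h1, h2⟩ := (hQ x).1 hx
    refine (hQ _).2 ⟨fun i => - τ i, ?_, ?_⟩
    · intro i
      rcases h1 i with h | h <;> simp [h]
    · rw [h2, ← Finset.sum_neg_distrib]
      refine Finset.sum_congr rfl fun i _ => ?_
      rw [← neg_smul]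
      congr 1
      push_cast
      ring
  · apply vecA hs ((2 / c) • e ⟨0, by omega⟩) k₀
    intro k
    have hD : ∀ x, Dro e x → x ∈ Φ := fun x hx => (hP x).2 (Or.inl hx)
    rcases cls hn hO (hM k) hD (hm k) with ⟨i, hi⟩ | ⟨f, hf, hf2⟩
    · exfalso
      have h1 := (hM k).min (e i) ((hP _).2 (Or.inr ⟨i, Or.inl rfl⟩)) _ (hm k)
      have hc := hO.1.ne'
      rcases hi with hi | hi
      · rw [hi] at h1
        unfold pr at h1
        rw [dself hO, mul_div_assoc, div_self hc] at h1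
        norm_num at h1
      · rw [hi] at h1
        unfold pr at h1
        rw [neg_dotProduct, dself hO, mul_div_assoc, neg_div, div_self hc] at h1
        norm_num at h1
    · obtain ⟨τ, h1, h2⟩ := tau hf2
      have hmem : s k ∈ S k₀ := (hQ _).2 ⟨τ, h1, by
        rw [hf]
        exact Finset.sum_congr rfl fun i _ => by rw [h2 i]⟩
      have hSk : S k = S k₀ := eq_of_mem (hM k₀) (hM k) hmem (hm k)
      refine ⟨τ ⟨0, by omega⟩, ?_, ?_⟩
      · rw [dotProduct_smul, hf, dots hO, h2, smul_eq_mul]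
        have hc := hO.1.ne'
        field_simp
      · refine ⟨fun _ => hSk, fun _ => ?_⟩
        rcases h1 ⟨0, by omega⟩ with h | h <;> rw [h]
        · exact odd_one
        · exact ⟨-1, by norm_num⟩

/-- the symplectic type -/
lemma t6 (hM : ∀ k, MW Φ h (S k)) (hm : ∀ k, s k ∈ S k) (hs : ∑ k, s k = 0) (k₀ : κ)
    [DecidablePred fun k => S k = S k₀] (hT : Ty6 Φ (S k₀)) :
    (∀ x, x ∈ S k₀ → -x ∈ S k₀) ∧ Even (univ.filter fun k => S k = S k₀).card := by
  obtain ⟨n, c, e, hn, hO, hP, hQ⟩ := hT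
  have hc := hO.1.ne'
  refine ⟨?_, ?_⟩
  · intro x hx
    obtain ⟨i, h1 | h1⟩ := (hQ x).1 hx
    · exact (hQ _).2 ⟨i, Or.inr (by rw [h1])⟩
    · exact (hQ _).2 ⟨i, Or.inl (by rw [h1, neg_neg])⟩
  · apply vecA hs ((1 / c) • ∑ i, e i) k₀
    intro k
    have hD : ∀ x, Dro e x → x ∈ Φ := fun x hx => (hP x).2 (Or.inl hx)
    have hdot : ∀ i, e i ⬝ᵥ ((1 / c) • ∑ j, e j) = 1 := by
      intro i
      rw [dotProduct_smul, dotProduct_sum, smul_eq_mul]
      simp only [hO.2.1]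
      rw [Finset.sum_ite_eq univ i fun _ => c, if_pos (Finset.mem_univ i)]
      field_simp
    rcases cls hn hO (hM k) hD (hm k) with ⟨i, hi⟩ | ⟨f, hf, hf2⟩
    · have hmem : s k ∈ S k₀ := (hQ _).2 ⟨i, hi⟩
      have hSk : S k = S k₀ := eq_of_mem (hM k₀) (hM k) hmem (hm k)
      rcases hi with hi | hi
      · exact ⟨1, by rw [hi, hdot]; norm_num, fun _ => hSk, fun _ => odd_one⟩
      · exact ⟨-1, by rw [hi, neg_dotProduct, hdot]; norm_num, fun _ => hSk, fun _ => ⟨-1, by norm_num⟩⟩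
    · exfalso
      have h1 := (hM k).min ((2 : ℝ) • e ⟨0, by omega⟩) ((hP _).2 (Or.inr ⟨_, Or.inl rfl⟩)) _ (hm k)
      rw [hf, prb hO f _ 2 two_ne_zero] at h1
      rcases hf2 ⟨0, by omega⟩ with h2 | h2 <;> rw [h2] at h1 <;> norm_num at h1

/-- the orthogonal type -/
lemma t2 (hR : RS Φ h) (hM : ∀ k, MW Φ h (S k)) (hm : ∀ k, s k ∈ S k) (hs : ∑ k, s k = 0) (k₀ : κ)
    [DecidablePred fun k => S k = S k₀] (hT : Ty2 Φ (S k₀)) :
    (∀ x, x ∈ S k₀ → -x ∈ S k₀) ∧ Even (univ.filter fun k => S k = S k₀).card := by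
  obtain ⟨n, c, e, hn, hO, hQ, hP⟩ := hT
  have hc := hO.1.ne'
  refine ⟨?_, ?_⟩
  · intro x hx
    obtain ⟨i, h1 | h1⟩ := (hQ x).1 hx
    · exact (hQ _).2 ⟨i, Or.inr (by rw [h1])⟩
    · exact (hQ _).2 ⟨i, Or.inl (by rw [h1, neg_neg])⟩
  · have hD : ∀ x, Dro e x → x ∈ Φ := fun x hx => (hP x).2 hx
    have hu : ∀ i, e i ⬝ᵥ h = 1 / 2 ∨ e i ⬝ᵥ h = -1 / 2 := by
      obtain ⟨a, ha⟩ := (hM k₀).two
      have h1 : ∀ i, (e i ⬝ᵥ h = a ∨ e i ⬝ᵥ h = a - 1) ∧ (-(e i ⬝ᵥ h) = a ∨ -(e i ⬝ᵥ h) = a - 1) :=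
        fun i => ⟨ha _ ((hQ _).2 ⟨i, Or.inl rfl⟩),
          by rw [← neg_dotProduct]; exact ha _ ((hQ _).2 ⟨i, Or.inr rfl⟩)⟩
      have h2 : ∃ i, e i ⬝ᵥ h ≠ 0 := by
        by_contra hcon
        push Not at hcon
        obtain ⟨γ, hγ, hγ1⟩ := hR.ex
        obtain ⟨i, j, _, h3 | h3 | h3⟩ := (hP γ).1 hγ <;> rw [h3] at hγ1 <;>
          simp [add_dotProduct, sub_dotProduct, neg_dotProduct, hcon i, hcon j] at hγ1
      obtain ⟨i, hi⟩ := h2
      have h3 : a = 1 / 2 := by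
        rcases h1 i with ⟨h4 | h4, h5 | h5⟩
        · exact absurd (by linarith) hi
        · linarith
        · linarith
        · exact absurd (by linarith) hi
      intro j
      rcases (h1 j).1 with h4 | h4
      · left; rw [h4, h3]
      · right; rw [h4, h3]; norm_num
    apply vecA hs ((2 / c) • e ⟨0, by omega⟩ + (2 : ℝ) • h) k₀
    intro k
    rcases cls (by omega) hO (hM k) hD (hm k) with ⟨i, hi⟩ | ⟨f, hf, hf2⟩
    · have hmem : s k ∈ S k₀ := (hQ _).2 ⟨i, hi⟩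
      have hSk : S k = S k₀ := eq_of_mem (hM k₀) (hM k) hmem (hm k)
      have h1 : ∃ m : ℤ, e i ⬝ᵥ ((2 / c) • e ⟨0, by omega⟩ + (2 : ℝ) • h) = m ∧ Odd m := by
        rw [dotProduct_add, dotProduct_smul, dotProduct_smul, smul_eq_mul, smul_eq_mul, hO.2.1]
        rcases hu i with h1 | h1 <;> rw [h1] <;> split_ifs
        · exact ⟨3, by field_simp; norm_num, ⟨1, by norm_num⟩⟩
        · exact ⟨1, by norm_num, odd_one⟩
        · exact ⟨1, by field_simp; norm_num, odd_one⟩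
        · exact ⟨-1, by norm_num, ⟨-1, by norm_num⟩⟩
      obtain ⟨m, hm1, hm2⟩ := h1
      rcases hi with hi | hi
      · exact ⟨m, by rw [hi, hm1], fun _ => hSk, fun _ => hm2⟩
      · exact ⟨-m, by rw [hi, neg_dotProduct, hm1]; push_cast; rfl, fun _ => hSk, fun _ => hm2.neg⟩
    · have hne : S k ≠ S k₀ := by
        intro hcon
        have h1 := hm k
        rw [hcon] at h1
        obtain ⟨i, hi⟩ := (hQ _).1 h1
        obtain ⟨j, hj⟩ : ∃ j : Fin n, i ≠ j := by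
          by_contra hcon
          push Not at hcon
          have h3 := hcon ⟨0, by omega⟩
          have h4 := hcon ⟨1, by omega⟩
          rw [h3] at h4
          have := congrArg Fin.val h4
          simp at this
        have h2 : s k ⬝ᵥ e j = 0 := by
          rcases hi with hi | hi
          · rw [hi, dne hO hj]
          · rw [hi, neg_dotProduct, dne hO hj, neg_zero]
        rw [hf, dots hO] at h2
        rcases mul_eq_zero.1 h2 with h3 | h3
        · rcases hf2 j with h4 | h4 <;> rw [h4] at h3 <;> norm_num at h3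
        · exact hc h3
      have h1 := hval hn hO (hM k) hD hu hf2 (by rw [← hf]; exact hm k)
      rw [← hf] at h1
      have h2 : ∃ m : ℤ, s k ⬝ᵥ ((2 / c) • e ⟨0, by omega⟩ + (2 : ℝ) • h) = m ∧ Even m := by
        rw [dotProduct_add, dotProduct_smul, dotProduct_smul, smul_eq_mul, smul_eq_mul]
        have h3 : s k ⬝ᵥ e ⟨0, by omega⟩ = f ⟨0, by omega⟩ * c := by rw [hf, dots hO]
        rw [h3]
        rcases hf2 ⟨0, by omega⟩ with h4 | h4 <;> rcases h1 with h1 | h1 <;> rw [h4, h1]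
        · exact ⟨2, by field_simp; norm_num, ⟨1, by norm_num⟩⟩
        · exact ⟨0, by field_simp; norm_num, ⟨0, by norm_num⟩⟩
        · exact ⟨0, by field_simp; norm_num, ⟨0, by norm_num⟩⟩
        · exact ⟨-2, by field_simp; norm_num, ⟨-1, by norm_num⟩⟩
      obtain ⟨m, hm1, hm2⟩ := h2
      exact ⟨m, hm1, fun h => absurd hm2 (Int.not_even_iff_odd.2 h), fun h => absurd h hne⟩

/-- the half spin type: the coordinates -/
lemma t4a {n : ℕ} {c : ℝ} {e : Fin n → Fin r → ℝ} (hn : 5 ≤ n) (hO : Ort n c e)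
    {S : Finset (Fin r → ℝ)} (hS : MW Φ h S) (hD : ∀ x, Dro e x → x ∈ Φ) {i₀ : Fin n}
    (h0 : e i₀ ⬝ᵥ h = 1 ∨ e i₀ ⬝ᵥ h = -1) {x : Fin r → ℝ} (hx : x ∈ S) :
    ∃ τ : Fin n → ℤ, (∀ i, τ i = 1 ∨ τ i = -1) ∧ x = ∑ i, ((τ i : ℝ) / 2) • e i := by
  rcases cls (by omega) hO hS hD hx with ⟨i, hi⟩ | ⟨f, hf, hf2⟩
  · exfalso
    have h1 : e i ∈ S ∨ -e i ∈ S := by
      rcases hi with hi | hi
      · left; rw [← hi]; exact hx
      · right; rw [← hi]; exact hx
    obtain ⟨j, hj⟩ : ∃ j : Fin n, i ≠ j := by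
      by_contra hcon
      push Not at hcon
      have h3 := hcon ⟨0, by omega⟩
      have h4 := hcon ⟨1, by omega⟩
      rw [h3] at h4
      have := congrArg Fin.val h4
      simp at this
    have h2 : e i₀ ∈ S ∧ -e i₀ ∈ S := by
      by_cases hii : i = i₀
      · have h3 := alle hO hS hD hj h1
        rw [← hii]
        exact alle hO hS hD hj.symm (Or.inl h3.1)
      · exact alle hO hS hD hii h1
    rcases h0 with h0 | h0
    · apply ndif hS h2.1 h2.2
      rw [neg_dotProduct, h0]; norm_num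
    · apply ndif hS h2.2 h2.1
      rw [neg_dotProduct, h0]; norm_num
  · obtain ⟨τ, h1, h2⟩ := tau hf2
    exact ⟨τ, h1, by rw [hf]; exact Finset.sum_congr rfl fun i _ => by rw [h2 i]⟩

/-- the half spin type -/
lemma t4 (hM : ∀ k, MW Φ h (S k)) (hm : ∀ k, s k ∈ S k) (hs : ∑ k, s k = 0) (k₀ : κ)
    [DecidablePred fun k => S k = S k₀] [DecidableEq (Fin r → ℝ)]
    [DecidablePred fun k => S k = (S k₀).image Neg.neg] (hT : Ty4 Φ h (S k₀)) :
    ((∀ x, x ∈ S k₀ → -x ∈ S k₀) → Even (univ.filter fun k => S k = S k₀).card) ∧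
    (¬ (∀ x, x ∈ S k₀ → -x ∈ S k₀) → (4 : ℤ) ∣ ((univ.filter fun k => S k = S k₀).card : ℤ) -
      (univ.filter fun k => S k = (S k₀).image Neg.neg).card) := by
  obtain ⟨n, c, e, hn, hO, hP, hQ, i₀, h0, -⟩ := hT
  have hc := hO.1.ne'
  have hD : ∀ x, Dro e x → x ∈ Φ := fun x hx => (hP x).2 hx
  have uniq : ∀ τ σ : Fin n → ℤ, ∑ i, ((τ i : ℝ) / 2) • e i = ∑ i, ((σ i : ℝ) / 2) • e i →
      τ = σ := by
    intro τ σ hh
    funext i
    have h1 := inj hO hh i
    have h2 : (τ i : ℝ) = σ i := by linarith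
    exact_mod_cast h2
  have negs : ∀ τ : Fin n → ℤ, -(∑ i, ((τ i : ℝ) / 2) • e i) = ∑ i, (((-τ i : ℤ) : ℝ) / 2) • e i := by
    intro τ
    rw [← Finset.sum_neg_distrib]
    refine Finset.sum_congr rfl fun i _ => ?_
    rw [← neg_smul]
    congr 1
    push_cast
    ring
  have prn : ∀ τ : Fin n → ℤ, ∏ i, (-τ i) = (-1) ^ n * ∏ i, τ i := by
    intro τ
    have : ∀ i, -τ i = (-1) * τ i := fun i => by ring
    simp only [this]
    rw [Finset.prod_mul_distrib, Finset.prod_const, Finset.card_univ, Fintype.card_fin]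
  have pm : ∀ τ : Fin n → ℤ, (∀ i, τ i = 1 ∨ τ i = -1) → ∀ i, -τ i = 1 ∨ -τ i = -1 := by
    intro τ hτ i
    rcases hτ i with h | h <;> simp [h]
  have mem1 : ∀ τ : Fin n → ℤ, (∀ i, τ i = 1 ∨ τ i = -1) →
      (∑ i, ((τ i : ℝ) / 2) • e i ∈ S k₀ ↔ ∏ i, τ i = 1) := by
    intro τ hτ
    constructor
    · intro h1
      obtain ⟨σ, h2, h3, h4⟩ := (hQ _).1 h1
      rw [uniq τ σ h4]
      exact h3
    · intro h1
      exact (hQ _).2 ⟨τ, hτ, h1, rfl⟩
  have dv : ∀ τ : Fin n → ℤ, (∑ i, ((τ i : ℝ) / 2) • e i) ⬝ᵥ ((1 / c) • ∑ i, e i) =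
      ((∑ i, τ i : ℤ) : ℝ) / 2 := by
    intro τ
    rw [dotProduct_smul, dotProduct_sum, smul_eq_mul]
    simp only [dots hO]
    rw [← Finset.sum_mul, ← Finset.sum_div]
    push_cast
    field_simp
  refine ⟨fun hA => ?_, fun hB => ?_⟩
  · -- `n` is even
    have hev : Even n := by
      by_contra hodd
      rw [Nat.not_even_iff_odd] at hodd
      have h1 : ∑ i, (((fun _ => 1 : Fin n → ℤ) i : ℝ) / 2) • e i ∈ S k₀ :=
        (mem1 (fun _ => 1) (fun _ => Or.inl rfl)).2 (by simp)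
      have h2 := hA _ h1
      rw [negs] at h2
      have h3 := (mem1 (fun i => -(fun _ => 1 : Fin n → ℤ) i)
        (pm _ (fun _ => Or.inl rfl))).1 h2
      rw [prn, hodd.neg_one_pow] at h3
      simp at h3
    obtain ⟨t, ht⟩ := hev
    have ht' : (n : ℝ) = t + t := by exact_mod_cast ht
    apply vecA hs ((1 / c) • ∑ i, e i + ((t + 1 : ℝ) * (2 / c)) • e ⟨0, by omega⟩) k₀
    intro k
    obtain ⟨τ, h1, h2⟩ := t4a hn hO (hM k) hD h0 (hm k)
    obtain ⟨h3, u, hu⟩ := sgn τ h1 univ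
    rw [Finset.card_univ, Fintype.card_fin] at hu
    have h4 : s k ⬝ᵥ ((1 / c) • ∑ i, e i + ((t + 1 : ℝ) * (2 / c)) • e ⟨0, by omega⟩) =
        ((∑ i, τ i : ℤ) : ℝ) / 2 + (t + 1) * τ ⟨0, by omega⟩ := by
      rw [dotProduct_add, dotProduct_smul _ _ (e _), smul_eq_mul, h2, dv, dots hO]
      field_simp
    rcases h3 with h3 | h3
    · have hSk : S k = S k₀ := eq_of_mem (hM k₀) (hM k)
        (by rw [h2]; exact (mem1 τ h1).2 h3) (hm k)
      refine ⟨t + 2 * u + (t + 1) * τ ⟨0, by omega⟩, ?_, fun _ => hSk, fun _ => ?_⟩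
      · rw [h4, hu, h3]
        push_cast
        linear_combination (1 / 2) * ht'
      · rcases h1 ⟨0, by omega⟩ with h5 | h5 <;> rw [h5]
        · exact ⟨t + u, by ring⟩
        · exact ⟨u - 1, by ring⟩
    · have hSk : S k ≠ S k₀ := by
        intro hcon
        have h5 := hm k
        rw [hcon, h2] at h5
        have := (mem1 τ h1).1 h5
        rw [h3] at this
        norm_num at this
      refine ⟨t - 1 + 2 * u + (t + 1) * τ ⟨0, by omega⟩, ?_, fun h => ?_, fun h => absurd h hSk⟩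
      · rw [h4, hu, h3]
        push_cast
        linear_combination (1 / 2) * ht'
      · exfalso
        refine (Int.not_even_iff_odd.2 h) ?_
        rcases h1 ⟨0, by omega⟩ with h5 | h5 <;> rw [h5]
        · exact ⟨t + u, by ring⟩
        · exact ⟨u - 1, by ring⟩
  · -- `n` is odd
    have hodd : Odd n := by
      rw [← Nat.not_even_iff_odd]
      intro hev
      apply hB
      intro x hx
      obtain ⟨σ, h2, h3, h4⟩ := (hQ _).1 hx
      rw [h4, negs]
      refine (mem1 (fun i => -σ i) (pm σ h2)).2 ?_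
      rw [prn, hev.neg_one_pow, h3, one_mul]
    have hne : (S k₀).image Neg.neg ≠ S k₀ := by
      intro hcon
      apply hB
      intro x hx
      rw [← hcon]
      exact Finset.mem_image_of_mem _ hx
    have key : ∀ k, ∃ m : ℤ, s k ⬝ᵥ ((2 : ℝ) • ((1 / c) • ∑ i, e i)) = m ∧
        ((S k = S k₀ ∧ ¬ S k = (S k₀).image Neg.neg ∧ (4 : ℤ) ∣ m - (n : ℤ)) ∨
        (S k = (S k₀).image Neg.neg ∧ ¬ S k = S k₀ ∧ (4 : ℤ) ∣ m + (n : ℤ))) := by
      intro k
      obtain ⟨τ, h1, h2⟩ := t4a hn hO (hM k) hD h0 (hm k)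
      obtain ⟨h3, u, hu⟩ := sgn τ h1 univ
      rw [Finset.card_univ, Fintype.card_fin] at hu
      refine ⟨∑ i, τ i, ?_, ?_⟩
      · rw [dotProduct_smul, h2, dv, smul_eq_mul]
        ring
      · rcases h3 with h3 | h3
        · left
          have hSk : S k = S k₀ := eq_of_mem (hM k₀) (hM k)
            (by rw [h2]; exact (mem1 τ h1).2 h3) (hm k)
          refine ⟨hSk, ?_, u, ?_⟩
          · rw [hSk]; exact hne.symm
          · rw [hu, h3]; ring
        · right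
          have hSk : S k = (S k₀).image Neg.neg := by
            apply eq_neg_of_mem (hM k₀) (hM k) (x := s k) _ (hm k)
            rw [h2, negs]
            refine (mem1 (fun i => -τ i) (pm τ h1)).2 ?_
            rw [prn, hodd.neg_one_pow, h3]
            norm_num
          refine ⟨hSk, ?_, ?_⟩
          · rw [hSk]; exact hne
          · obtain ⟨v, hv⟩ := hodd
            refine ⟨u + v, ?_⟩
            rw [hu, h3, hv]
            push_cast
            ring
    choose m hm1 hm2 using key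
    exact modB m (sum0 hs _ m hm1) n (by exact_mod_cast hodd) _ _ hm2

end main

end GC6

/-- **C6.** -/
theorem c6_all : St_c6 := by
  intro r Φ h hR κ _ _ S hT s hm hs k₀
  have hM : ∀ k, MW Φ h (S k) := fun k => (hT k).1
  rcases (hT k₀).2 with h2 | h4 | h5 | h6
  · obtain ⟨h7, h8⟩ := GC6.t2 hR hM hm hs k₀ h2
    exact ⟨fun _ => h8, fun h => absurd h7 h⟩
  · exact GC6.t4 hM hm hs k₀ h4
  · obtain ⟨h7, h8⟩ := GC6.t5 hM hm hs k₀ h5
    exact ⟨fun _ => h8, fun h => absurd h7 h⟩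
  · obtain ⟨h7, h8⟩ := GC6.t6 hM hm hs k₀ h6
    exact ⟨fun _ => h8, fun h => absurd h7 h⟩

/-- **C6**, the form of the job. -/
theorem c6_of (_ : St_pai) : St_c6 := c6_all

end Pool.Agent.NH32
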