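import Pool.Agent.NH32.GtC

/-!
# Project G, stage 2, job GC7 (helper73): `St_c7`, `St_c8`, `St_c9`
-/

set_option autoImplicit false

namespace Pool.Agent.NH32

open Matrix

noncomputable section

namespace GC7

/-! ### Generalities -/

theorem pair_const {ι R : Type*} (P : ι → Prop) (T : ι → ι → R)
    (symm : ∀ a b, P a → P b → a ≠ b → T a b = T b a)
    (h : ∀ a b d, P a → P b → P d → a ≠ b → a ≠ d → b ≠ d → T a b = T a d) :
    ∀ a b a' b', P a → P b → P a' → P b' → a ≠ b → a' ≠ b' → T a b = T a' b' := by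
  intro a b a' b' pa pb pa' pb' hab hab'
  have h' : ∀ a b d, P a → P b → P d → a ≠ b → a ≠ d → T a b = T a d := by
    intro a b d pa pb pd h1 h2
    by_cases h3 : b = d
    · rw [h3]
    · exact h a b d pa pb pd h1 h2 h3
  by_cases h1 : b' = a
  · subst h1
    rw [symm a' b' pa' pb' hab']
    exact h' b' b a' pa pb pa' hab (Ne.symm hab')
  · rw [h' a b b' pa pb pb' hab (Ne.symm h1), symm a b' pa pb' (Ne.symm h1),
      h' b' a a' pb' pa pa' h1 (Ne.symm hab'), symm b' a' pb' pa' (Ne.symm hab')]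

variable {r : ℕ}

theorem dot_pos {x : Fin r → ℝ} (h : x ≠ 0) : 0 < x ⬝ᵥ x := by
  have h1 : 0 ≤ x ⬝ᵥ x := by
    unfold dotProduct
    exact Finset.sum_nonneg fun i _ => mul_self_nonneg _
  have h2 : x ⬝ᵥ x ≠ 0 := fun h3 => h (dotProduct_self_eq_zero.1 h3)
  exact lt_of_le_of_ne h1 (Ne.symm h2)

theorem ort_ext {n : ℕ} {c : ℝ} {e : Fin n → Fin r → ℝ} (hO : Ort n c e) {x y : Fin r → ℝ}
    (h : ∀ i, x ⬝ᵥ e i = y ⬝ᵥ e i) : x = y := by
  have h1 : ∀ z ∈ Submodule.span ℝ (Set.range e), (x - y) ⬝ᵥ z = 0 := by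
    intro z hz
    induction hz using Submodule.span_induction with
    | mem z hz =>
      obtain ⟨i, rfl⟩ := hz
      rw [sub_dotProduct, h i, sub_self]
    | zero => exact dotProduct_zero _
    | add a b _ _ ha hb => rw [dotProduct_add, ha, hb, add_zero]
    | smul a b _ hb => rw [dotProduct_smul, hb, smul_zero]
  have h2 : (x - y) ⬝ᵥ (x - y) = 0 := h1 _ (by rw [hO.2.2]; exact Submodule.mem_top)
  exact sub_eq_zero.1 (dotProduct_self_eq_zero.1 h2)

theorem dot_sum {n : ℕ} {c : ℝ} {e : Fin n → Fin r → ℝ}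
    (he : ∀ i j, e i ⬝ᵥ e j = if i = j then c else 0) (a : Fin n → ℝ)
    (k : Fin n) : (∑ i, a i • e i) ⬝ᵥ e k = a k * c := by
  rw [sum_dotProduct]
  rw [Finset.sum_eq_single k]
  · rw [smul_dotProduct, he, if_pos rfl, smul_eq_mul]
  · intro i _ hi
    rw [smul_dotProduct, he, if_neg hi, smul_zero]
  · intro h
    exact absurd (Finset.mem_univ k) h

/-! ### The special linear case -/

theorem ty1_prod {Φ S : Finset (Fin r → ℝ)} (hT : Ty1 Φ S) (hne : S.Nonempty)
    (hlen : ∀ s ∈ S, ∀ s' ∈ S, s ⬝ᵥ s = s' ⬝ᵥ s') :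
    ∃ K D : ℝ, ∀ a ∈ S, ∀ b ∈ S, a ⬝ᵥ b = K + if a = b then D else 0 := by
  classical
  by_cases hex : ∃ s ∈ S, ∃ s' ∈ S, s ≠ s'
  · obtain ⟨s, hs, s', hs', hss⟩ := hex
    refine ⟨s ⬝ᵥ s', s ⬝ᵥ s - s ⬝ᵥ s', ?_⟩
    intro a ha b hb
    by_cases hab : a = b
    · rw [if_pos hab, ← hab, hlen a ha s hs]
      ring
    · rw [if_neg hab, add_zero]
      refine pair_const (fun x => x ∈ S) (fun x y => x ⬝ᵥ y) ?_ ?_ a b s s' ha hb hs hs' hab hss
      · intro a b _ _ _
        exact dotProduct_comm a b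
      · intro a b d pa pb pd h1 h2 h3
        have h4 := (hT b pb d pd h3).2 a pa h1 h2
        rw [sub_dotProduct, sub_eq_zero] at h4
        show a ⬝ᵥ b = a ⬝ᵥ d
        rw [dotProduct_comm a b, dotProduct_comm a d, h4]
  · obtain ⟨s, hs⟩ := hne
    refine ⟨s ⬝ᵥ s, 0, ?_⟩
    intro a ha b hb
    have e1 : ∀ a ∈ S, a = s := by
      intro a ha
      by_contra h
      exact hex ⟨a, ha, s, hs, h⟩
    rw [e1 a ha, e1 b hb]
    simp

theorem ty1_root {Φ : Finset (Fin r → ℝ)} {h : Fin r → ℝ} {S : Finset (Fin r → ℝ)}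
    (hR : RS Φ h) (hM : MW Φ h S) (hp : ∀ γ ∈ Φ, ∃ s ∈ S, pr γ s = 1) {γ : Fin r → ℝ}
    (hγ : γ ∈ Φ) : ∃ s ∈ S, ∃ s' ∈ S, s ≠ s' ∧ γ = s - s' := by
  obtain ⟨s, hs, h1⟩ := hp γ hγ
  refine ⟨s, hs, rf γ s, hM.rfl γ hγ s hs, ?_, ?_⟩
  · intro h2
    unfold rf at h2
    rw [h1, one_smul] at h2
    have h3 : γ = 0 := by
      have := sub_eq_self.1 h2.symm
      exact this
    exact hR.z (h3 ▸ hγ)
  · unfold rf
    rw [h1, one_smul, sub_sub_cancel]

theorem no_D {Φ : Finset (Fin r → ℝ)} {h : Fin r → ℝ} {S : Finset (Fin r → ℝ)}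
    (hR : RS Φ h) (hM : MW Φ h S) (hp : ∀ γ ∈ Φ, ∃ s ∈ S, pr γ s = 1) {K D : ℝ}
    (hKD : ∀ a ∈ S, ∀ b ∈ S, a ⬝ᵥ b = K + if a = b then D else 0)
    {n : ℕ} {c : ℝ} {e : Fin n → Fin r → ℝ} (hn : 4 ≤ n) (hO : Ort n c e)
    (hΦ : ∀ x, x ∈ Φ ↔ Dro e x) : False := by
  classical
  obtain ⟨hc, he, -⟩ := hO
  set i0 : Fin n := ⟨0, by omega⟩ with hi0
  set i1 : Fin n := ⟨1, by omega⟩ with hi1
  set i2 : Fin n := ⟨2, by omega⟩ with hi2
  set i3 : Fin n := ⟨3, by omega⟩ with hi3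
  have n01 : i0 ≠ i1 := by simp [hi0, hi1]
  have n02 : i0 ≠ i2 := by simp [hi0, hi2]
  have n03 : i0 ≠ i3 := by simp [hi0, hi3]
  have n12 : i1 ≠ i2 := by simp [hi1, hi2]
  have n13 : i1 ≠ i3 := by simp [hi1, hi3]
  have n23 : i2 ≠ i3 := by simp [hi2, hi3]
  have d00 : e i0 ⬝ᵥ e i0 = c := by rw [he, if_pos rfl]
  have d11 : e i1 ⬝ᵥ e i1 = c := by rw [he, if_pos rfl]
  have d22 : e i2 ⬝ᵥ e i2 = c := by rw [he, if_pos rfl]
  have d01 : e i0 ⬝ᵥ e i1 = 0 := by rw [he, if_neg n01]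
  have d10 : e i1 ⬝ᵥ e i0 = 0 := by rw [he, if_neg n01.symm]
  have d02 : e i0 ⬝ᵥ e i2 = 0 := by rw [he, if_neg n02]
  have d03 : e i0 ⬝ᵥ e i3 = 0 := by rw [he, if_neg n03]
  have d12 : e i1 ⬝ᵥ e i2 = 0 := by rw [he, if_neg n12]
  have d13 : e i1 ⬝ᵥ e i3 = 0 := by rw [he, if_neg n13]
  have d32 : e i3 ⬝ᵥ e i2 = 0 := by rw [he, if_neg n23.symm]
  have mα : e i0 + e i1 ∈ Φ := (hΦ _).2 ⟨i0, i1, n01, Or.inl rfl⟩
  have mβ : e i0 - e i1 ∈ Φ := (hΦ _).2 ⟨i0, i1, n01, Or.inr (Or.inl rfl)⟩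
  have m1 : e i0 + e i2 ∈ Φ := (hΦ _).2 ⟨i0, i2, n02, Or.inl rfl⟩
  have m2 : e i0 - e i2 ∈ Φ := (hΦ _).2 ⟨i0, i2, n02, Or.inr (Or.inl rfl)⟩
  have m3 : e i0 + e i3 ∈ Φ := (hΦ _).2 ⟨i0, i3, n03, Or.inl rfl⟩
  obtain ⟨s, hs, s', hs', hss, hα⟩ := ty1_root hR hM hp mα
  obtain ⟨t, ht, t', ht', htt, hβ⟩ := ty1_root hR hM hp mβ
  have key : ∀ s ∈ S, ∀ s' ∈ S, ∀ u ∈ S, ∀ u' ∈ S, (s - s') ⬝ᵥ (u - u') =
      (if s = u then D else 0) - (if s = u' then D else 0) - (if s' = u then D else 0) +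
        (if s' = u' then D else 0) := by
    intro s hs s' hs' u hu u' hu'
    rw [sub_dotProduct, dotProduct_sub, dotProduct_sub, hKD s hs u hu, hKD s hs u' hu',
      hKD s' hs' u hu, hKD s' hs' u' hu']
    ring
  have hD : c = D := by
    have h1 := key s hs s' hs' s hs s' hs'
    rw [← hα, if_pos rfl, if_neg hss, if_neg (Ne.symm hss), if_pos rfl] at h1
    have h2 : (e i0 + e i1) ⬝ᵥ (e i0 + e i1) = 2 * c := by
      rw [add_dotProduct, dotProduct_add, dotProduct_add, d00, d01, d10, d11]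
      ring
    rw [h2] at h1
    linarith
  subst hD
  have h0 := key s hs s' hs' t ht t' ht'
  have h0' : (e i0 + e i1) ⬝ᵥ (e i0 - e i1) = 0 := by
    rw [add_dotProduct, dotProduct_sub, dotProduct_sub, d00, d01, d10, d11]
    ring
  rw [← hα, ← hβ, h0'] at h0
  have hdist : s ≠ t ∧ s ≠ t' ∧ s' ≠ t ∧ s' ≠ t' := by
    clear key
    grind
  obtain ⟨q1, q2, q3, q4⟩ := hdist
  have two : ∀ γ ∈ Φ, (e i0 + e i1) ⬝ᵥ γ = c → (e i0 - e i1) ⬝ᵥ γ = c →
      γ = s - t' ∨ γ = t - s' := by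
    intro γ hγ h1 h2
    obtain ⟨u, hu, u', hu', huu, rfl⟩ := ty1_root hR hM hp hγ
    rw [hα, key s hs s' hs' u hu u' hu'] at h1
    rw [hβ, key t ht t' ht' u hu u' hu'] at h2
    have h3 : (u = s ∧ u' = t') ∨ (u = t ∧ u' = s') := by
      clear key
      grind
    rcases h3 with ⟨h4, h5⟩ | ⟨h4, h5⟩
    · left; rw [h4, h5]
    · right; rw [h4, h5]
  have t1 := two _ m1 (by rw [add_dotProduct, dotProduct_add, dotProduct_add, d00, d02, d10, d12]; ring)
    (by rw [sub_dotProduct, dotProduct_add, dotProduct_add, d00, d02, d10, d12]; ring)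
  have t2 := two _ m2 (by rw [add_dotProduct, dotProduct_sub, dotProduct_sub, d00, d02, d10, d12]; ring)
    (by rw [sub_dotProduct, dotProduct_sub, dotProduct_sub, d00, d02, d10, d12]; ring)
  have t3 := two _ m3 (by rw [add_dotProduct, dotProduct_add, dotProduct_add, d00, d03, d10, d13]; ring)
    (by rw [sub_dotProduct, dotProduct_add, dotProduct_add, d00, d03, d10, d13]; ring)
  have p1 : (e i0 + e i2) ⬝ᵥ e i2 = c := by rw [add_dotProduct, d02, d22]; ring
  have p2 : (e i0 - e i2) ⬝ᵥ e i2 = -c := by rw [sub_dotProduct, d02, d22]; ring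
  have p3 : (e i0 + e i3) ⬝ᵥ e i2 = 0 := by rw [add_dotProduct, d02, d32]; ring
  have r12 : e i0 + e i2 ≠ e i0 - e i2 := by
    intro h; rw [h, p2] at p1; linarith
  have r13 : e i0 + e i2 ≠ e i0 + e i3 := by
    intro h; rw [h, p3] at p1; linarith
  have r23 : e i0 - e i2 ≠ e i0 + e i3 := by
    intro h; rw [h, p3] at p2; linarith
  rcases t1 with t1 | t1 <;> rcases t2 with t2 | t2 <;> rcases t3 with t3 | t3
  · exact r12 (t1.trans t2.symm)
  · exact r12 (t1.trans t2.symm)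
  · exact r13 (t1.trans t3.symm)
  · exact r23 (t2.trans t3.symm)
  · exact r23 (t2.trans t3.symm)
  · exact r13 (t1.trans t3.symm)
  · exact r12 (t1.trans t2.symm)
  · exact r12 (t1.trans t2.symm)

end GC7

/-- **C7.** -/
theorem c7_of (h3 : St_pai) : St_c7 := by
  intro r Φ h S S' hR hM hM' hT hcase
  obtain ⟨hp, hlen⟩ := h3 r Φ h S hR hM
  obtain ⟨K, D, hKD⟩ := GC7.ty1_prod hT hM.ne hlen
  have hl : ∀ γ ∈ Φ, γ ⬝ᵥ γ = 2 * D := by
    intro γ hγ
    obtain ⟨s, hs, s', hs', hss, rfl⟩ := GC7.ty1_root hR hM hp hγ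
    rw [sub_dotProduct, dotProduct_sub, dotProduct_sub, hKD s hs s hs, hKD s hs s' hs',
      hKD s' hs' s hs, hKD s' hs' s' hs', if_pos rfl, if_neg hss, if_neg (Ne.symm hss), if_pos rfl]
    ring
  rcases hcase with ⟨n, c, e, hn, hO, -, hΦ⟩ | ⟨n, c, e, hn, hO, hΦ, -⟩ | ⟨n, c, e, hn, hO, hΦ, -⟩ |
    ⟨n, c, e, hn, hO, hΦ, -⟩
  · exact GC7.no_D hR hM hp hKD hn hO hΦ
  · exact GC7.no_D hR hM hp hKD (by omega) hO hΦ
  · obtain ⟨hc, he, -⟩ := hO
    have n01 : (⟨0, by omega⟩ : Fin n) ≠ ⟨1, by omega⟩ := by simp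
    have h1 := hl (e ⟨0, by omega⟩) ((hΦ _).2 (Or.inr ⟨_, Or.inl rfl⟩))
    have h2 := hl (e ⟨0, by omega⟩ + e ⟨1, by omega⟩)
      ((hΦ _).2 (Or.inl ⟨_, _, n01, Or.inl rfl⟩))
    rw [he, if_pos rfl] at h1
    rw [add_dotProduct, dotProduct_add, dotProduct_add, he, he, he, he, if_pos rfl, if_neg n01,
      if_neg n01.symm, if_pos rfl] at h2
    linarith
  · obtain ⟨hc, he, -⟩ := hO
    have n01 : (⟨0, by omega⟩ : Fin n) ≠ ⟨1, by omega⟩ := by simp
    have h1 := hl ((2 : ℝ) • e ⟨0, by omega⟩) ((hΦ _).2 (Or.inr ⟨_, Or.inl rfl⟩))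
    have h2 := hl (e ⟨0, by omega⟩ + e ⟨1, by omega⟩)
      ((hΦ _).2 (Or.inl ⟨_, _, n01, Or.inl rfl⟩))
    rw [smul_dotProduct, dotProduct_smul, he, if_pos rfl, smul_eq_mul, smul_eq_mul] at h1
    rw [add_dotProduct, dotProduct_add, dotProduct_add, he, he, he, he, if_pos rfl, if_neg n01,
      if_neg n01.symm, if_pos rfl] at h2
    linarith

namespace GC7

/-! ### Automorphisms -/

theorem perm_id {n : ℕ} (u : Fin n → ℝ) (hu : Function.Injective u) (π : Fin n → Fin n)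
    (hπ : Function.Injective π) (h : ∀ i j, u i < u j ↔ u (π i) < u (π j)) : ∀ i, π i = i := by
  classical
  have hb : Function.Bijective π := Finite.injective_iff_bijective.1 hπ
  set N : Fin n → ℕ := fun i => (Finset.univ.filter fun j => u j < u i).card with hN
  have h1 : ∀ i, N (π i) = N i := by
    intro i
    have e : (Finset.univ.filter fun j => u j < u (π i)) =
        (Finset.univ.filter fun j => u j < u i).image π := by
      ext j
      simp only [Finset.mem_filter, Finset.mem_univ, true_and, Finset.mem_image]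
      constructor
      · intro hj
        obtain ⟨k, rfl⟩ := hb.2 j
        exact ⟨k, (h k i).2 hj, rfl⟩
      · rintro ⟨k, hk, rfl⟩
        exact (h k i).1 hk
    show (Finset.univ.filter fun j => u j < u (π i)).card = _
    rw [e, Finset.card_image_of_injective _ hπ]
  have h2 : ∀ i j, u i < u j → N i < N j := by
    intro i j hij
    apply Finset.card_lt_card
    rw [Finset.ssubset_iff_of_subset]
    · exact ⟨i, by simpa using hij, by simp⟩
    · intro k hk
      simp only [Finset.mem_filter, Finset.mem_univ, true_and] at hk ⊢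
      exact hk.trans hij
  intro i
  apply hu
  rcases lt_trichotomy (u (π i)) (u i) with h3 | h3 | h3
  · have := h2 _ _ h3
    rw [h1] at this
    exact absurd this (lt_irrefl _)
  · exact h3
  · have := h2 _ _ h3
    rw [h1] at this
    exact absurd this (lt_irrefl _)

variable {r : ℕ}

theorem chamber {n : ℕ} {c : ℝ} {e : Fin n → Fin r → ℝ} (hO : Ort n c e)
    {Φ : Finset (Fin r → ℝ)} (hD : ∀ x, Dro e x → x ∈ Φ)
    (A : (Fin r → ℝ) →ₗ[ℝ] (Fin r → ℝ)) (hA : ∀ x y, A x ⬝ᵥ A y = x ⬝ᵥ y)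
    (η : Fin n → ℝ) (hη : ∀ i, η i = 1 ∨ η i = -1) (π : Fin n → Fin n)
    (hAe : ∀ i, A (e i) = η i • e (π i))
    {x : Fin r → ℝ} (hreg : ∀ γ ∈ Φ, γ ⬝ᵥ x ≠ 0) (hch : ∀ γ ∈ Φ, 0 < γ ⬝ᵥ x → 0 < γ ⬝ᵥ A x) :
    (∀ i, A (e i) = η i • e i) ∧ (∀ i, e i ⬝ᵥ A x = η i * (e i ⬝ᵥ x)) ∧
    (∀ i j, i ≠ j → η i = -1 → (e i ⬝ᵥ x) ^ 2 < (e j ⬝ᵥ x) ^ 2) := by
  obtain ⟨hc, he, -⟩ := hO
  have hη2 : ∀ i, η i * η i = 1 := by
    intro i
    rcases hη i with h | h <;> rw [h] <;> norm_num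
  -- signs
  have sg1 : ∀ i j, i ≠ j → 0 < e i ⬝ᵥ x - e j ⬝ᵥ x → 0 < e i ⬝ᵥ A x - e j ⬝ᵥ A x := by
    intro i j hij h
    have := hch (e i - e j) (hD _ ⟨i, j, hij, Or.inr (Or.inl rfl)⟩)
    rw [sub_dotProduct, sub_dotProduct] at this
    exact this h
  have sg2 : ∀ i j, i ≠ j → 0 < e i ⬝ᵥ x + e j ⬝ᵥ x → 0 < e i ⬝ᵥ A x + e j ⬝ᵥ A x := by
    intro i j hij h
    have := hch (e i + e j) (hD _ ⟨i, j, hij, Or.inl rfl⟩)
    rw [add_dotProduct, add_dotProduct] at this
    exact this h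
  have sg3 : ∀ i j, i ≠ j → e i ⬝ᵥ x + e j ⬝ᵥ x < 0 → e i ⬝ᵥ A x + e j ⬝ᵥ A x < 0 := by
    intro i j hij h
    have := hch (-e i - e j) (hD _ ⟨i, j, hij, Or.inr (Or.inr rfl)⟩)
    rw [sub_dotProduct, sub_dotProduct, neg_dotProduct, neg_dotProduct] at this
    have h1 := this (by linarith)
    linarith
  have hsq : ∀ i j, i ≠ j → (e i ⬝ᵥ x) ^ 2 < (e j ⬝ᵥ x) ^ 2 →
      (e i ⬝ᵥ A x) ^ 2 < (e j ⬝ᵥ A x) ^ 2 := by
    intro i j hij h
    have h1 : 0 < (e j ⬝ᵥ x - e i ⬝ᵥ x) * (e j ⬝ᵥ x + e i ⬝ᵥ x) := by nlinarith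
    have h2 : 0 < (e j ⬝ᵥ A x - e i ⬝ᵥ A x) * (e j ⬝ᵥ A x + e i ⬝ᵥ A x) := by
      rcases pos_and_pos_or_neg_and_neg_of_mul_pos h1 with ⟨h3, h4⟩ | ⟨h3, h4⟩
      · exact mul_pos (sg1 j i hij.symm h3) (sg2 j i hij.symm h4)
      · have h5 := sg1 i j hij (by linarith)
        have h6 := sg3 j i hij.symm h4
        exact mul_pos_of_neg_of_neg (by linarith) h6
    nlinarith
  have hYX : ∀ i, e (π i) ⬝ᵥ A x = η i * (e i ⬝ᵥ x) := by
    intro i
    have h1 := hA (e i) x
    rw [hAe, smul_dotProduct, smul_eq_mul] at h1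
    rw [← h1, ← mul_assoc, hη2, one_mul]
  have hYX2 : ∀ i, (e (π i) ⬝ᵥ A x) ^ 2 = (e i ⬝ᵥ x) ^ 2 := by
    intro i
    rw [hYX]
    have := hη2 i
    calc (η i * (e i ⬝ᵥ x)) ^ 2 = (η i * η i) * (e i ⬝ᵥ x) ^ 2 := by ring
      _ = _ := by rw [this, one_mul]
  have hinj : Function.Injective (fun i => (e i ⬝ᵥ x) ^ 2) := by
    intro i j hij
    by_contra hne
    have hij' : (e i ⬝ᵥ x) ^ 2 = (e j ⬝ᵥ x) ^ 2 := hij
    have h1 : (e i ⬝ᵥ x - e j ⬝ᵥ x) * (e i ⬝ᵥ x + e j ⬝ᵥ x) = 0 := by linear_combination hij'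
    rcases mul_eq_zero.1 h1 with h2 | h2
    · refine hreg (e i - e j) (hD _ ⟨i, j, hne, Or.inr (Or.inl rfl)⟩) ?_
      rw [sub_dotProduct]
      exact h2
    · refine hreg (e i + e j) (hD _ ⟨i, j, hne, Or.inl rfl⟩) ?_
      rw [add_dotProduct]
      exact h2
  have hπ : Function.Injective π := by
    intro i j hij
    by_contra hne
    have h1 := hA (e i) (e j)
    rw [hAe, hAe, ← hij, smul_dotProduct, dotProduct_smul, he, if_pos rfl, he, if_neg hne,
      smul_eq_mul, smul_eq_mul] at h1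
    have h2 := hη2 i
    have h3 := hη2 j
    have h4 : η i ≠ 0 := by
      intro h; rw [h] at h2; norm_num at h2
    have h5 : η j ≠ 0 := by
      intro h; rw [h] at h3; norm_num at h3
    exact mul_ne_zero h4 (mul_ne_zero h5 hc.ne') h1
  have hmono : ∀ i j, (e (π i) ⬝ᵥ x) ^ 2 < (e (π j) ⬝ᵥ x) ^ 2 →
      (e i ⬝ᵥ x) ^ 2 < (e j ⬝ᵥ x) ^ 2 := by
    intro i j h
    have h1 : π i ≠ π j := by
      intro h2
      rw [h2] at h
      exact lt_irrefl _ h
    have h2 := hsq _ _ h1 h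
    rwa [hYX2, hYX2] at h2
  have hid : ∀ i, π i = i := by
    refine perm_id (fun i => (e i ⬝ᵥ x) ^ 2) hinj π hπ ?_
    intro i j
    refine ⟨fun h => ?_, fun h => hmono i j h⟩
    rcases lt_trichotomy ((e (π i) ⬝ᵥ x) ^ 2) ((e (π j) ⬝ᵥ x) ^ 2) with h1 | h1 | h1
    · exact h1
    · have h2 : i = j := hπ (hinj h1)
      subst h2
      exact absurd h (lt_irrefl _)
    · have h2 := hmono j i h1
      have h3 : (e i ⬝ᵥ x) ^ 2 < (e j ⬝ᵥ x) ^ 2 := h
      exact absurd (h2.trans h3) (lt_irrefl _)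
  have hY : ∀ i, e i ⬝ᵥ A x = η i * (e i ⬝ᵥ x) := by
    intro i
    have := hYX i
    rwa [hid i] at this
  refine ⟨fun i => by rw [hAe, hid], hY, ?_⟩
  intro i j hij hi
  by_contra hn
  have h0 : (e j ⬝ᵥ x) ^ 2 < (e i ⬝ᵥ x) ^ 2 := by
    rcases lt_or_eq_of_le (not_lt.1 hn) with h | h
    · exact h
    · exact absurd (hinj h).symm hij
  have h1 : 0 < (e i ⬝ᵥ x - e j ⬝ᵥ x) * (e i ⬝ᵥ x + e j ⬝ᵥ x) := by nlinarith
  have h2 := hY i
  rw [hi] at h2
  rcases pos_and_pos_or_neg_and_neg_of_mul_pos h1 with ⟨h3, h4⟩ | ⟨h3, h4⟩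
  · have h5 := sg1 i j hij h3
    have h6 := sg2 i j hij h4
    linarith
  · have h5 := sg1 j i hij.symm (by linarith)
    have h6 := sg3 i j hij h4
    linarith

theorem dro_len {n : ℕ} {c : ℝ} {e : Fin n → Fin r → ℝ}
    (he : ∀ i j, e i ⬝ᵥ e j = if i = j then c else 0) {x : Fin r → ℝ} (h : Dro e x) :
    x ⬝ᵥ x = 2 * c := by
  obtain ⟨i, j, hij, rfl | rfl | rfl⟩ := h
  · rw [add_dotProduct, dotProduct_add, dotProduct_add, he, he, he, he, if_pos rfl, if_neg hij,
      if_neg hij.symm, if_pos rfl]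
    ring
  · rw [sub_dotProduct, dotProduct_sub, dotProduct_sub, he, he, he, he, if_pos rfl, if_neg hij,
      if_neg hij.symm, if_pos rfl]
    ring
  · rw [sub_dotProduct, dotProduct_sub, dotProduct_sub, neg_dotProduct, neg_dotProduct,
      dotProduct_neg, dotProduct_neg, he, he, he, he, if_pos rfl, if_neg hij,
      if_neg hij.symm, if_pos rfl]
    ring

theorem dro_coord {n : ℕ} {c : ℝ} {e : Fin n → Fin r → ℝ}
    (he : ∀ i j, e i ⬝ᵥ e j = if i = j then c else 0) {x : Fin r → ℝ} (h : Dro e x) (k : Fin n) :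
    x ⬝ᵥ e k = 0 ∨ x ⬝ᵥ e k = c ∨ x ⬝ᵥ e k = -c := by
  obtain ⟨i, j, hij, rfl | rfl | rfl⟩ := h
  · rw [add_dotProduct, he, he]
    by_cases h1 : i = k
    · have h2 : ¬ j = k := fun h => hij (h1.trans h.symm)
      rw [if_pos h1, if_neg h2]; right; left; ring
    · by_cases h2 : j = k
      · rw [if_neg h1, if_pos h2]; right; left; ring
      · rw [if_neg h1, if_neg h2]; left; ring
  · rw [sub_dotProduct, he, he]
    by_cases h1 : i = k
    · have h2 : ¬ j = k := fun h => hij (h1.trans h.symm)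
      rw [if_pos h1, if_neg h2]; right; left; ring
    · by_cases h2 : j = k
      · rw [if_neg h1, if_pos h2]; right; right; ring
      · rw [if_neg h1, if_neg h2]; left; ring
  · rw [sub_dotProduct, neg_dotProduct, he, he]
    by_cases h1 : i = k
    · have h2 : ¬ j = k := fun h => hij (h1.trans h.symm)
      rw [if_pos h1, if_neg h2]; right; right; ring
    · by_cases h2 : j = k
      · rw [if_neg h1, if_pos h2]; right; right; ring
      · rw [if_neg h1, if_neg h2]; left; ring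

/-- Bessel's inequality -/
theorem bessel {n : ℕ} {c : ℝ} (hc : 0 < c) {f : Fin n → Fin r → ℝ}
    (hf : ∀ i j, f i ⬝ᵥ f j = if i = j then c else 0) {v : Fin r → ℝ} (hv : v ⬝ᵥ v = c) :
    ∑ i, (f i ⬝ᵥ v) ^ 2 ≤ c ^ 2 := by
  set w : Fin r → ℝ := ∑ i, ((f i ⬝ᵥ v) / c) • f i with hw
  have h1 : w ⬝ᵥ v = (∑ i, (f i ⬝ᵥ v) ^ 2) / c := by
    rw [hw, sum_dotProduct, Finset.sum_div]
    refine Finset.sum_congr rfl fun i _ => ?_
    rw [smul_dotProduct, smul_eq_mul]
    ring
  have h2 : w ⬝ᵥ w = (∑ i, (f i ⬝ᵥ v) ^ 2) / c := by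
    have h3 : ∀ i, f i ⬝ᵥ w = f i ⬝ᵥ v := by
      intro i
      rw [dotProduct_comm (f i) w, hw, dot_sum hf]
      field_simp
    have h4 : w ⬝ᵥ w = ∑ i, ((f i ⬝ᵥ v) / c) * (f i ⬝ᵥ w) := by
      conv_lhs => rw [hw]
      rw [sum_dotProduct]
      refine Finset.sum_congr rfl fun i _ => ?_
      rw [smul_dotProduct, smul_eq_mul]
    rw [h4, Finset.sum_div]
    refine Finset.sum_congr rfl fun i _ => ?_
    rw [h3]
    ring
  have h3 : 0 ≤ (v - w) ⬝ᵥ (v - w) := by
    unfold dotProduct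
    exact Finset.sum_nonneg fun i _ => mul_self_nonneg _
  rw [sub_dotProduct, dotProduct_sub, dotProduct_sub, dotProduct_comm v w, h1, h2, hv] at h3
  have h4 : (∑ i, (f i ⬝ᵥ v) ^ 2) / c ≤ c := by linarith
  rw [div_le_iff₀ hc] at h4
  nlinarith

theorem d_basis {n : ℕ} {c : ℝ} {e : Fin n → Fin r → ℝ} (hO : Ort n c e) (hn : 5 ≤ n)
    (f : Fin n → Fin r → ℝ) (hf : ∀ i j, f i ⬝ᵥ f j = if i = j then c else 0)
    (hp : ∀ i j, i ≠ j → Dro e (f i + f j)) (hm : ∀ i j, i ≠ j → Dro e (f i - f j)) :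
    ∀ i, ∃ k, f i = e k ∨ f i = -e k := by
  have hO' := hO
  obtain ⟨hc, he, -⟩ := hO
  have hc0 := hc.ne'
  have nine : ∀ i j k, i ≠ j → ((f i ⬝ᵥ e k = 0 ∨ f i ⬝ᵥ e k = c ∨ f i ⬝ᵥ e k = -c) ∨
      ((f i ⬝ᵥ e k) ^ 2 = c ^ 2 / 4 ∧ (f j ⬝ᵥ e k) ^ 2 = c ^ 2 / 4)) := by
    intro i j k hij
    have h1 := dro_coord he (hp i j hij) k
    have h2 := dro_coord he (hm i j hij) k
    rw [add_dotProduct] at h1
    rw [sub_dotProduct] at h2
    rcases h1 with h1 | h1 | h1 <;> rcases h2 with h2 | h2 | h2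
    · left; left; linarith
    · right
      have e1 : f i ⬝ᵥ e k = c / 2 := by linarith
      have e2 : f j ⬝ᵥ e k = -c / 2 := by linarith
      rw [e1, e2]; constructor <;> ring
    · right
      have e1 : f i ⬝ᵥ e k = -c / 2 := by linarith
      have e2 : f j ⬝ᵥ e k = c / 2 := by linarith
      rw [e1, e2]; constructor <;> ring
    · right
      have e1 : f i ⬝ᵥ e k = c / 2 := by linarith
      have e2 : f j ⬝ᵥ e k = c / 2 := by linarith
      rw [e1, e2]; constructor <;> ring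
    · left; right; left; linarith
    · left; left; linarith
    · right
      have e1 : f i ⬝ᵥ e k = -c / 2 := by linarith
      have e2 : f j ⬝ᵥ e k = -c / 2 := by linarith
      rw [e1, e2]; constructor <;> ring
    · left; left; linarith
    · left; right; right; linarith
  have three : ∀ i k, f i ⬝ᵥ e k = 0 ∨ f i ⬝ᵥ e k = c ∨ f i ⬝ᵥ e k = -c := by
    intro i k
    by_contra hno
    have h1 : ∀ j, (f j ⬝ᵥ e k) ^ 2 = c ^ 2 / 4 := by
      intro j
      by_cases hij : i = j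
      · obtain ⟨j', hj'⟩ : ∃ j' : Fin n, i ≠ j' := by
          by_cases h : i = ⟨0, by omega⟩
          · exact ⟨⟨1, by omega⟩, by rw [h]; simp⟩
          · exact ⟨_, h⟩
        rcases nine i j' k hj' with h | h
        · exact absurd h hno
        · rw [← hij]; exact h.1
      · rcases nine i j k hij with h | h
        · exact absurd h hno
        · exact h.2
    have h2 := bessel hc hf (v := e k) (by rw [he, if_pos rfl])
    rw [Finset.sum_congr rfl fun i _ => h1 i, Finset.sum_const, Finset.card_univ,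
      Fintype.card_fin, nsmul_eq_mul] at h2
    have h3 : (5 : ℝ) ≤ n := by exact_mod_cast hn
    have h4 : 0 < c ^ 2 := by positivity
    nlinarith
  intro i
  have hex : ∃ k, f i ⬝ᵥ e k ≠ 0 := by
    by_contra hno
    push Not at hno
    have h1 : f i = 0 := ort_ext hO' fun k => by rw [hno k, zero_dotProduct]
    have h2 := hf i i
    rw [if_pos rfl, h1, zero_dotProduct] at h2
    exact hc0 h2.symm
  obtain ⟨k, hk⟩ := hex
  refine ⟨k, ?_⟩
  have hfi : f i ⬝ᵥ f i = c := by rw [hf, if_pos rfl]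
  have hek : e k ⬝ᵥ e k = c := by rw [he, if_pos rfl]
  rcases three i k with h | h | h
  · exact absurd h hk
  · left
    have h1 : (f i - e k) ⬝ᵥ (f i - e k) = 0 := by
      rw [sub_dotProduct, dotProduct_sub, dotProduct_sub, dotProduct_comm (e k) (f i), h, hfi, hek]
      ring
    exact sub_eq_zero.1 (dotProduct_self_eq_zero.1 h1)
  · right
    have h1 : (f i + e k) ⬝ᵥ (f i + e k) = 0 := by
      rw [add_dotProduct, dotProduct_add, dotProduct_add, dotProduct_comm (e k) (f i), h, hfi, hek]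
      ring
    exact eq_neg_of_add_eq_zero_left (dotProduct_self_eq_zero.1 h1)

/-- choice of signs and of the permutation -/
theorem choose_sign {n : ℕ} {e f : Fin n → Fin r → ℝ} (h : ∀ i, ∃ k, f i = e k ∨ f i = -e k) :
    ∃ (η : Fin n → ℝ) (π : Fin n → Fin n), (∀ i, η i = 1 ∨ η i = -1) ∧
      ∀ i, f i = η i • e (π i) := by
  have h1 : ∀ i, ∃ p : ℝ × Fin n, (p.1 = 1 ∨ p.1 = -1) ∧ f i = p.1 • e p.2 := by
    intro i
    obtain ⟨k, hk | hk⟩ := h i
    · exact ⟨(1, k), Or.inl rfl, by rw [one_smul]; exact hk⟩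
    · exact ⟨(-1, k), Or.inr rfl, by rw [neg_one_smul]; exact hk⟩
  choose p hp using h1
  exact ⟨fun i => (p i).1, fun i => (p i).2, fun i => (hp i).1, fun i => (hp i).2⟩

theorem eq_id {n : ℕ} {c : ℝ} {e : Fin n → Fin r → ℝ} (hO : Ort n c e)
    (A : (Fin r → ℝ) →ₗ[ℝ] (Fin r → ℝ)) (η : Fin n → ℝ) (hAe : ∀ i, A (e i) = η i • e i)
    (h : ∀ i, η i = 1) : A = LinearMap.id := by
  refine LinearMap.ext_on hO.2.2 ?_
  rintro _ ⟨i, rfl⟩
  rw [hAe, h, one_smul]
  rfl

end GC7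

/-- **C8.** -/
theorem c8_of : St_c8 := by
  intro r Φ h S hR hM hcase A hA hAΦ hAS x hreg hch
  rcases hcase with ⟨n, c, e, hn, hO, hΦ, hS, -⟩ | ⟨n, c, e, hn, hO, hΦ, hS⟩
  · have hO' := hO
    obtain ⟨hc, he, -⟩ := hO
    have hf : ∀ i j, A (e i) ⬝ᵥ A (e j) = if i = j then c else 0 := fun i j => by rw [hA, he]
    have hbas := GC7.d_basis hO' hn (fun i => A (e i)) hf
      (fun i j hij => by
        show Dro e (A (e i) + A (e j))
        rw [← map_add]
        exact (hΦ _).1 (hAΦ _ ((hΦ _).2 ⟨i, j, hij, Or.inl rfl⟩)))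
      (fun i j hij => by
        show Dro e (A (e i) - A (e j))
        rw [← map_sub]
        exact (hΦ _).1 (hAΦ _ ((hΦ _).2 ⟨i, j, hij, Or.inr (Or.inl rfl)⟩)))
    obtain ⟨η, π, hη, hAe⟩ := GC7.choose_sign hbas
    obtain ⟨h1, h2, h3⟩ := GC7.chamber hO' (fun y hy => (hΦ y).2 hy) A hA η hη π hAe hreg hch
    refine GC7.eq_id hO' A η h1 ?_
    by_contra hno
    push Not at hno
    obtain ⟨i, hi⟩ := hno
    have hi' : η i = -1 := (hη i).resolve_left hi
    have hj : ∀ j, j ≠ i → η j = 1 := by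
      intro j hji
      rcases hη j with h4 | h4
      · exact h4
      · have h5 := h3 i j hji.symm hi'
        have h6 := h3 j i hji h4
        exact absurd (h5.trans h6) (lt_irrefl _)
    -- the weight with all signs equal to one
    have hs0 : (∑ i, (((1 : ℤ) : ℝ) / 2) • e i) ∈ S :=
      (hS _).2 ⟨fun _ => 1, fun _ => Or.inl rfl, by simp, rfl⟩
    obtain ⟨τ, hτ, hprod, heq⟩ := (hS _).1 (hAS _ hs0)
    have h4 : ∀ k, (τ k : ℝ) = η k := by
      intro k
      have h5 : A (∑ i, (((1 : ℤ) : ℝ) / 2) • e i) = ∑ i, (η i / 2) • e i := by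
        rw [map_sum]
        refine Finset.sum_congr rfl fun i _ => ?_
        rw [map_smul, h1, smul_smul]
        congr 1
        push_cast
        ring
      have h6 := congrArg (fun v => v ⬝ᵥ e k) (h5.symm.trans heq)
      rw [GC7.dot_sum he, GC7.dot_sum he] at h6
      have h7 := mul_right_cancel₀ hc.ne' h6
      linarith
    have h5 : (((∏ i, τ i : ℤ)) : ℝ) = -1 := by
      push_cast
      rw [Finset.prod_congr rfl fun k _ => h4 k, Finset.prod_eq_single i, hi']
      · intro j _ hji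
        exact hj j hji
      · intro h
        exact absurd (Finset.mem_univ i) h
    rw [hprod] at h5
    norm_num at h5
  · have hO' := hO
    obtain ⟨hc, he, -⟩ := hO
    have hbas : ∀ i, ∃ k, A (e i) = e k ∨ A (e i) = -e k := by
      intro i
      have h1 := (hΦ _).1 (hAΦ _ ((hΦ (e i)).2 (Or.inr ⟨i, Or.inl rfl⟩)))
      rcases h1 with h1 | h1
      · have h2 := GC7.dro_len he h1
        rw [hA, he, if_pos rfl] at h2
        linarith
      · exact h1
    obtain ⟨η, π, hη, hAe⟩ := GC7.choose_sign hbas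
    obtain ⟨h1, h2, h3⟩ := GC7.chamber hO' (fun y hy => (hΦ y).2 (Or.inl hy)) A hA η hη π hAe
      hreg hch
    refine GC7.eq_id hO' A η h1 ?_
    intro i
    rcases hη i with h4 | h4
    · exact h4
    · exfalso
      have h5 := h2 i
      rw [h4] at h5
      have h6 := hreg (e i) ((hΦ _).2 (Or.inr ⟨i, Or.inl rfl⟩))
      rcases lt_or_gt_of_ne h6 with h7 | h7
      · have h8 := hch (-e i) ((hΦ _).2 (Or.inr ⟨i, Or.inr rfl⟩))
        rw [neg_dotProduct, neg_dotProduct] at h8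
        have h9 := h8 (by linarith)
        linarith
      · have h8 := hch (e i) ((hΦ _).2 (Or.inr ⟨i, Or.inl rfl⟩)) h7
        linarith

namespace GC7

/-! ### Phases -/

theorem exists_phase {z : ℂ} (h : ‖z‖ = 1) : ∃ t : ℝ, Complex.exp ((t : ℂ) * Complex.I) = z :=
  (Complex.norm_eq_one_iff z).1 h

theorem phase {n : ℕ} (hn : 4 ≤ n) (ψ : Fin n → Fin n → ℂ) (h1 : ∀ i j, i ≠ j → ‖ψ i j‖ = 1)
    (hs : ∀ i j, i ≠ j → ψ i j = ψ j i)
    (h4 : ∀ i j k l, i ≠ j → i ≠ k → i ≠ l → j ≠ k → j ≠ l → k ≠ l →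
      ψ i j * ψ k l = ψ i k * ψ j l) :
    ∃ θ : Fin n → ℝ, ∀ i j, i ≠ j →
      ψ i j = Complex.exp ((θ i : ℂ) * Complex.I) * Complex.exp ((θ j : ℂ) * Complex.I) := by
  classical
  set z : Fin n := ⟨0, by omega⟩ with hz
  set a : Fin n := ⟨1, by omega⟩ with ha
  set b : Fin n := ⟨2, by omega⟩ with hb
  have haz : a ≠ z := by simp [ha, hz]
  have hbz : b ≠ z := by simp [hb, hz]
  have hab : a ≠ b := by simp [ha, hb]
  have nz : ∀ i j, i ≠ j → ψ i j ≠ 0 := by
    intro i j hij h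
    have := h1 i j hij
    rw [h, norm_zero] at this
    exact zero_ne_one this
  have hT := pair_const (fun i : Fin n => i ≠ z) (fun i j => ψ z i * ψ z j / ψ i j)
    (fun i j hi hj hij => by
      show ψ z i * ψ z j / ψ i j = ψ z j * ψ z i / ψ j i
      rw [hs i j hij, mul_comm])
    (fun i j d hi hj hd hij hid hjd => by
      show ψ z i * ψ z j / ψ i j = ψ z i * ψ z d / ψ i d
      rw [div_eq_div_iff (nz i j hij) (nz i d hid)]
      have e1 := h4 z j d i (Ne.symm hj) (Ne.symm hd) (Ne.symm hi) hjd (Ne.symm hij) (Ne.symm hid)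
      rw [hs d i (Ne.symm hid), hs j i (Ne.symm hij)] at e1
      linear_combination (ψ z i) * e1)
  set ω : ℂ := ψ z a * ψ z b / ψ a b with hω
  have hωn : ‖ω‖ = 1 := by
    rw [hω, norm_div, norm_mul, h1 z a haz.symm, h1 z b hbz.symm, h1 a b hab]
    norm_num
  obtain ⟨φ, hφ⟩ := exists_phase hωn
  set E0 : ℂ := Complex.exp (((φ / 2 : ℝ) : ℂ) * Complex.I) with hE0
  have hE0n : ‖E0‖ = 1 := by
    rw [hE0]
    exact Complex.norm_exp_ofReal_mul_I _
  have hE00 : E0 ≠ 0 := Complex.exp_ne_zero _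
  have hE0s : E0 * E0 = ω := by
    rw [hE0, ← Complex.exp_add, ← hφ]
    congr 1
    push_cast
    ring
  have hex : ∀ j : Fin n, ∃ t : ℝ, Complex.exp ((t : ℂ) * Complex.I) =
      if j = z then E0 else ψ z j / E0 := by
    intro j
    apply exists_phase
    by_cases hj : j = z
    · rw [if_pos hj]
      exact hE0n
    · rw [if_neg hj, norm_div, h1 z j (Ne.symm hj), hE0n]
      norm_num
  choose θ hθ using hex
  refine ⟨θ, ?_⟩
  intro i j hij
  rw [hθ, hθ]
  by_cases hi : i = z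
  · have hj : j ≠ z := fun h => hij (hi.trans h.symm)
    rw [if_pos hi, if_neg hj, hi]
    field_simp
  · by_cases hj : j = z
    · rw [if_neg hi, if_pos hj, hj, hs i z hi]
      field_simp
    · rw [if_neg hi, if_neg hj]
      have h5 : ψ z i * ψ z j / ψ i j = ω := hT i j a b hi hj haz hbz hij hab
      have h6 := nz i j hij
      have h7 : ψ z i * ψ z j = ω * ψ i j := by
        rw [← h5]
        field_simp
      rw [div_mul_div_comm, h7, hE0s]
      have hω0 : ω ≠ 0 := by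
        rw [← hE0s]
        exact mul_ne_zero hE00 hE00
      field_simp

variable {r : ℕ}

/-- the vector with all coordinates `1/2` except `-1/2` at the places in `M` -/
def wv {n : ℕ} (e : Fin n → Fin r → ℝ) (M : Finset (Fin n)) : Fin r → ℝ :=
  (∑ i, (1 / 2 : ℝ) • e i) - ∑ i ∈ M, e i

theorem wv_eq {n : ℕ} (e : Fin n → Fin r → ℝ) (M : Finset (Fin n)) :
    ∑ i, ((((if i ∈ M then -1 else 1 : ℤ)) : ℝ) / 2) • e i = wv e M := by
  classical
  unfold wv
  have h1 : ∑ i ∈ M, e i = ∑ i, if i ∈ M then e i else 0 := by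
    rw [Finset.sum_ite_mem, Finset.univ_inter]
  rw [h1, ← Finset.sum_sub_distrib]
  refine Finset.sum_congr rfl fun i _ => ?_
  by_cases hi : i ∈ M
  · rw [if_pos hi, if_pos hi]
    ext k
    simp only [Pi.smul_apply, Pi.sub_apply, smul_eq_mul]
    push_cast
    ring
  · rw [if_neg hi, if_neg hi, sub_zero]
    push_cast
    rfl

theorem wv_dot {n : ℕ} {c : ℝ} {e : Fin n → Fin r → ℝ}
    (he : ∀ i j, e i ⬝ᵥ e j = if i = j then c else 0) (M : Finset (Fin n)) (k : Fin n) :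
    wv e M ⬝ᵥ e k = c / 2 - if k ∈ M then c else 0 := by
  classical
  unfold wv
  rw [sub_dotProduct, dot_sum he, sum_dotProduct]
  have h1 : ∑ i ∈ M, e i ⬝ᵥ e k = if k ∈ M then c else 0 := by
    rw [Finset.sum_congr rfl fun i _ => he i k, Finset.sum_ite_eq']
  rw [h1]
  ring

theorem sign_prod {n : ℕ} (M : Finset (Fin n)) :
    ∏ i, (if i ∈ M then (-1 : ℤ) else 1) = (-1) ^ M.card := by
  classical
  rw [Finset.prod_ite_mem, Finset.univ_inter, Finset.prod_const]

theorem sign_set {n : ℕ} (τ : Fin n → ℤ) (hτ : ∀ i, τ i = 1 ∨ τ i = -1) :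
    ∃ M : Finset (Fin n), τ = fun i => if i ∈ M then -1 else 1 := by
  classical
  refine ⟨Finset.univ.filter fun i => τ i = -1, ?_⟩
  funext i
  by_cases h : τ i = -1
  · rw [if_pos (by simp [h])]
    exact h
  · rw [if_neg (by simp [h])]
    exact (hτ i).resolve_right h

theorem wv_insert {n : ℕ} (e : Fin n → Fin r → ℝ) {M : Finset (Fin n)} {i : Fin n}
    (h : i ∉ M) : wv e (insert i M) + e i = wv e M := by
  classical
  unfold wv
  rw [Finset.sum_insert h]
  abel

/-- final step -/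
theorem fin_phase {n : ℕ} {c : ℝ} {e : Fin n → Fin r → ℝ} (hc : c ≠ 0)
    (he : ∀ i j, e i ⬝ᵥ e j = if i = j then c else 0) (θ : Fin n → ℝ) :
    ∃ (x : Fin r → ℝ) (c₁ : ℂ), ∀ M : Finset (Fin n),
      (∏ i ∈ M, Complex.exp ((θ i : ℂ) * Complex.I)) *
        (c₁ * Complex.exp (Complex.I * ((x ⬝ᵥ wv e M : ℝ) : ℂ))) = 1 := by
  classical
  set x : Fin r → ℝ := ∑ i, (θ i / c) • e i with hx
  have hxe : ∀ k, x ⬝ᵥ e k = θ k := by
    intro k
    rw [hx, dot_sum he]
    field_simp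
  refine ⟨x, Complex.exp (-(Complex.I * ((x ⬝ᵥ wv e ∅ : ℝ) : ℂ))), ?_⟩
  intro M
  have h1 : x ⬝ᵥ wv e M = x ⬝ᵥ wv e ∅ - ∑ i ∈ M, θ i := by
    unfold wv
    rw [dotProduct_sub, dotProduct_sub, dotProduct_sum x M, Finset.sum_empty, dotProduct_zero,
      sub_zero, Finset.sum_congr rfl fun i _ => hxe i]
  rw [h1, ← Complex.exp_sum, ← Complex.exp_add, ← Complex.exp_add, Complex.exp_eq_one_iff]
  refine ⟨0, ?_⟩
  rw [← Finset.sum_mul]
  push_cast
  ring

theorem conclude {n : ℕ} {c : ℝ} {e : Fin n → Fin r → ℝ} (hc : c ≠ 0)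
    (he : ∀ i j, e i ⬝ᵥ e j = if i = j then c else 0) (θ : Fin n → ℝ)
    (S : Finset (Fin r → ℝ)) (F : (Fin r → ℝ) → ℂ)
    (h : ∀ s ∈ S, ∃ M : Finset (Fin n), s = wv e M ∧
      F (wv e ∅) = (∏ i ∈ M, Complex.exp ((θ i : ℂ) * Complex.I)) * F (wv e M)) :
    ∃ (x : Fin r → ℝ) (c₀ : ℂ), ∀ s ∈ S,
      F s = c₀ * Complex.exp (Complex.I * ((x ⬝ᵥ s : ℝ) : ℂ)) := by
  obtain ⟨x, c₁, hx⟩ := fin_phase hc he θ
  refine ⟨x, F (wv e ∅) * c₁, ?_⟩
  intro s hs
  obtain ⟨M, rfl, hM⟩ := h s hs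
  have h1 := hx M
  rw [hM]
  linear_combination (-F (wv e M)) * h1

theorem wv_pr1 {n : ℕ} {c : ℝ} {e : Fin n → Fin r → ℝ} (hc : 0 < c)
    (he : ∀ i j, e i ⬝ᵥ e j = if i = j then c else 0) {M : Finset (Fin n)} {i : Fin n}
    (h : i ∈ M) : pr (e i) (wv e M) = -1 := by
  unfold pr
  rw [wv_dot he, if_pos h, he, if_pos rfl]
  field_simp
  ring

theorem wv_pr2 {n : ℕ} {c : ℝ} {e : Fin n → Fin r → ℝ} (hc : 0 < c)
    (he : ∀ i j, e i ⬝ᵥ e j = if i = j then c else 0) {M : Finset (Fin n)} {i j : Fin n}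
    (hij : i ≠ j) (hi : i ∈ M) (hj : j ∈ M) : pr (e i + e j) (wv e M) = -1 := by
  unfold pr
  rw [dro_len he ⟨i, j, hij, Or.inl rfl⟩, dotProduct_add, wv_dot he, wv_dot he, if_pos hi,
    if_pos hj]
  field_simp
  ring

end GC7

/-- **C9.** -/
theorem c9_of : St_c9 := by
  classical
  intro r Φ h S hR hM hcase F χ hF hχ
  rcases hcase with ⟨n, c, e, hn, hO, hΦ, hS, -⟩ | ⟨n, c, e, hn, hO, hΦ, hS⟩
  · obtain ⟨hc, he, -⟩ := hO
    have hmem : ∀ M : Finset (Fin n), Even M.card → GC7.wv e M ∈ S := by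
      intro M hM
      refine (hS _).2 ⟨fun i => if i ∈ M then -1 else 1, ?_, ?_, (GC7.wv_eq e M).symm⟩
      · intro i
        by_cases hi : i ∈ M
        · right; exact if_pos hi
        · left; exact if_neg hi
      · rw [GC7.sign_prod]
        exact hM.neg_one_pow
    have step : ∀ (M : Finset (Fin n)) (i j : Fin n), i ≠ j → i ∉ M → j ∉ M → Even M.card →
        F (GC7.wv e M) = χ (e i + e j) * F (GC7.wv e (insert i (insert j M))) := by
      intro M i j hij hi hj hev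
      have hi' : i ∉ insert j M := by
        rw [Finset.mem_insert]
        push Not
        exact ⟨hij, hi⟩
      have hev' : Even (insert i (insert j M)).card := by
        rw [Finset.card_insert_of_notMem hi', Finset.card_insert_of_notMem hj]
        obtain ⟨k, hk⟩ := hev
        exact ⟨k + 1, by omega⟩
      have h1 := hχ (e i + e j) ((hΦ _).2 ⟨i, j, hij, Or.inl rfl⟩) _ (hmem _ hev')
        (GC7.wv_pr2 hc he hij (Finset.mem_insert_self _ _)
          (Finset.mem_insert_of_mem (Finset.mem_insert_self _ _)))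
      rw [← add_assoc, GC7.wv_insert e hi', GC7.wv_insert e hj] at h1
      exact h1
    have hne : ∀ M : Finset (Fin n), Even M.card → F (GC7.wv e M) ≠ 0 := by
      intro M hM h0
      have := hF _ (hmem M hM)
      rw [h0, norm_zero] at this
      exact zero_ne_one this
    obtain ⟨θ, hθ⟩ := GC7.phase (by omega : 4 ≤ n) (fun i j => χ (e i + e j))
      (fun i j hij => by
        have h1 := step ∅ i j hij (Finset.notMem_empty _) (Finset.notMem_empty _) (by simp)
        have h2 : Even (insert i (insert j (∅ : Finset (Fin n)))).card := by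
          rw [Finset.card_insert_of_notMem (by simpa using hij),
            Finset.card_insert_of_notMem (Finset.notMem_empty _)]
          simp
        have h3 := congrArg norm h1
        rw [norm_mul, hF _ (hmem _ (by simp)), hF _ (hmem _ h2), mul_one] at h3
        exact h3.symm)
      (fun i j _ => by rw [add_comm])
      (fun i j k l hij hik hil hjk hjl hkl => by
        show χ (e i + e j) * χ (e k + e l) = χ (e i + e k) * χ (e j + e l)
        have c2 : ∀ a b : Fin n, a ≠ b → Even (insert a (insert b (∅ : Finset (Fin n)))).card := by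
          intro a b hab
          rw [Finset.card_insert_of_notMem (by simpa using hab),
            Finset.card_insert_of_notMem (Finset.notMem_empty _)]
          simp
        have h1 := step ∅ i j hij (Finset.notMem_empty _) (Finset.notMem_empty _) (by simp)
        have h2 := step (insert i (insert j ∅)) k l hkl
          (by simp [hik.symm, hjk.symm]) (by simp [hil.symm, hjl.symm]) (c2 i j hij)
        have h3 := step ∅ i k hik (Finset.notMem_empty _) (Finset.notMem_empty _) (by simp)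
        have h4 := step (insert i (insert k ∅)) j l hjl
          (by simp [hij.symm, hjk]) (by simp [hil.symm, hkl.symm]) (c2 i k hik)
        have e1 : insert j (insert l (insert i (insert k (∅ : Finset (Fin n))))) =
            insert k (insert l (insert i (insert j ∅))) := by
          ext a
          simp only [Finset.mem_insert, Finset.notMem_empty, or_false]
          tauto
        rw [e1] at h4
        have h5 : Even (insert k (insert l (insert i (insert j (∅ : Finset (Fin n)))))).card := by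
          rw [Finset.card_insert_of_notMem (by simp [hkl, hik.symm, hjk.symm]),
            Finset.card_insert_of_notMem (by simp [hil.symm, hjl.symm]),
            Finset.card_insert_of_notMem (by simpa using hij),
            Finset.card_insert_of_notMem (Finset.notMem_empty _), Finset.card_empty]
          exact ⟨2, rfl⟩
        refine mul_right_cancel₀ (hne _ h5) ?_
        rw [mul_assoc, ← h2, ← h1, mul_assoc, ← h4, ← h3])
    have ind : ∀ (k : ℕ) (M : Finset (Fin n)), M.card = 2 * k → F (GC7.wv e ∅) =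
        (∏ i ∈ M, Complex.exp ((θ i : ℂ) * Complex.I)) * F (GC7.wv e M) := by
      intro k
      induction k with
      | zero =>
        intro M hM
        have : M = ∅ := Finset.card_eq_zero.1 (by omega)
        rw [this]
        simp
      | succ k ih =>
        intro M hM
        obtain ⟨i, hi⟩ : M.Nonempty := Finset.card_pos.1 (by omega)
        have hc1 : (M.erase i).card = 2 * k + 1 := by
          rw [Finset.card_erase_of_mem hi]
          omega
        obtain ⟨j, hj⟩ : (M.erase i).Nonempty := Finset.card_pos.1 (by omega)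
        have hc2 : ((M.erase i).erase j).card = 2 * k := by
          rw [Finset.card_erase_of_mem hj]
          omega
        have hji : j ≠ i := Finset.ne_of_mem_erase hj
        have e1 : M = insert i (insert j ((M.erase i).erase j)) := by
          rw [Finset.insert_erase hj, Finset.insert_erase hi]
        have hj' : j ∉ (M.erase i).erase j := Finset.notMem_erase _ _
        have hi' : i ∉ (M.erase i).erase j := fun h =>
          Finset.notMem_erase i M (Finset.mem_of_mem_erase h)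
        have hi'' : i ∉ insert j ((M.erase i).erase j) := by
          rw [Finset.mem_insert]
          push Not
          exact ⟨hji.symm, hi'⟩
        have h1 := step _ i j hji.symm hi' hj' (by rw [hc2]; exact even_two_mul k)
        have h2 := ih _ hc2
        rw [h2, h1, hθ i j hji.symm]
        conv_rhs => rw [e1, Finset.prod_insert hi'', Finset.prod_insert hj']
        ring
    refine GC7.conclude hc.ne' he θ S F ?_
    intro s hs
    obtain ⟨τ, hτ, hprod, rfl⟩ := (hS s).1 hs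
    obtain ⟨M, rfl⟩ := GC7.sign_set τ hτ
    rw [GC7.sign_prod] at hprod
    have hev : Even M.card := by
      by_contra hodd
      rw [Nat.not_even_iff_odd] at hodd
      rw [hodd.neg_one_pow] at hprod
      norm_num at hprod
    obtain ⟨k, hk⟩ := hev
    exact ⟨M, GC7.wv_eq e M, ind k M (by omega)⟩
  · obtain ⟨hc, he, -⟩ := hO
    have hmem : ∀ M : Finset (Fin n), GC7.wv e M ∈ S := by
      intro M
      refine (hS _).2 ⟨fun i => if i ∈ M then -1 else 1, ?_, (GC7.wv_eq e M).symm⟩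
      intro i
      by_cases hi : i ∈ M
      · right; exact if_pos hi
      · left; exact if_neg hi
    have step : ∀ (M : Finset (Fin n)) (i : Fin n), i ∉ M →
        F (GC7.wv e M) = χ (e i) * F (GC7.wv e (insert i M)) := by
      intro M i hi
      have h1 := hχ (e i) ((hΦ _).2 (Or.inr ⟨i, Or.inl rfl⟩)) _ (hmem (insert i M))
        (GC7.wv_pr1 hc he (Finset.mem_insert_self _ _))
      rw [GC7.wv_insert e hi] at h1
      exact h1
    have hex : ∀ i, ∃ t : ℝ, Complex.exp ((t : ℂ) * Complex.I) = χ (e i) := by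
      intro i
      apply GC7.exists_phase
      have h3 := congrArg norm (step ∅ i (Finset.notMem_empty _))
      rw [norm_mul, hF _ (hmem _), hF _ (hmem _), mul_one] at h3
      exact h3.symm
    choose θ hθ using hex
    have ind : ∀ M : Finset (Fin n), F (GC7.wv e ∅) =
        (∏ i ∈ M, Complex.exp ((θ i : ℂ) * Complex.I)) * F (GC7.wv e M) := by
      intro M
      induction M using Finset.induction_on with
      | empty => simp
      | insert i M hi ih =>
        rw [Finset.prod_insert hi, ih, step M i hi, hθ]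
        ring
    refine GC7.conclude hc.ne' he θ S F ?_
    intro s hs
    obtain ⟨τ, hτ, rfl⟩ := (hS s).1 hs
    obtain ⟨M, rfl⟩ := GC7.sign_set τ hτ
    exact ⟨M, GC7.wv_eq e M, ind M⟩

end

end Pool.Agent.NH32
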