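import Pool.Agent.NH32.GtC

/-!
# Project G, stage 2: basic lemmas on simply laced root data
-/

set_option linter.unusedSectionVars false

namespace Pool.Agent.NH32

open Matrix

namespace GCb

noncomputable section

variable {r : ℕ}

lemma pr_neg_left (γ x : Fin r → ℝ) : pr (-γ) x = -pr γ x := by
  unfold pr
  rw [dotProduct_neg, neg_dotProduct_neg]
  ring

lemma rf_neg_left (γ x : Fin r → ℝ) : rf (-γ) x = rf γ x := by
  unfold rf
  rw [pr_neg_left]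
  simp

/-- the values of `h` do not change under the reflections of degree zero -/
lemma rf_h {γ x h : Fin r → ℝ} (hγ : γ ⬝ᵥ h = 0) : rf γ x ⬝ᵥ h = x ⬝ᵥ h := by
  unfold rf
  rw [sub_dotProduct, smul_dotProduct, hγ]
  simp

/-- a vector orthogonal to all roots is zero -/
lemma orth_zero {Φ : Finset (Fin r → ℝ)} {h : Fin r → ℝ} (R : RS Φ h) {x : Fin r → ℝ}
    (hx : ∀ γ ∈ Φ, x ⬝ᵥ γ = 0) : x = 0 := by
  have h1 : ∀ y : Fin r → ℝ, x ⬝ᵥ y = 0 := by
    intro y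
    have hy : y ∈ Submodule.span ℝ (Φ : Set (Fin r → ℝ)) := by rw [R.spn]; trivial
    refine Submodule.span_induction (p := fun y _ => x ⬝ᵥ y = 0) ?_ ?_ ?_ ?_ hy
    · intro y hy; exact hx y hy
    · simp
    · intro a b _ _ ha hb; rw [dotProduct_add, ha, hb, add_zero]
    · intro t a _ ha; rw [dotProduct_smul, ha]; simp
  exact dotProduct_self_eq_zero.1 (h1 x)

/-- the normalised product -/
def B (c : ℝ) (x y : Fin r → ℝ) : ℝ := 2 * (x ⬝ᵥ y) / c

variable {c : ℝ}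

lemma B_comm (x y : Fin r → ℝ) : B c x y = B c y x := by
  unfold B; rw [dotProduct_comm]

lemma B_add_left (x y z : Fin r → ℝ) : B c (x + y) z = B c x z + B c y z := by
  unfold B; rw [add_dotProduct]; ring

lemma B_add_right (x y z : Fin r → ℝ) : B c z (x + y) = B c z x + B c z y := by
  unfold B; rw [dotProduct_add]; ring

lemma B_sub_left (x y z : Fin r → ℝ) : B c (x - y) z = B c x z - B c y z := by
  unfold B; rw [sub_dotProduct]; ring

lemma B_sub_right (x y z : Fin r → ℝ) : B c z (x - y) = B c z x - B c z y := by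
  unfold B; rw [dotProduct_sub]; ring

lemma B_neg_left (x z : Fin r → ℝ) : B c (-x) z = -B c x z := by
  unfold B; rw [neg_dotProduct]; ring

lemma B_neg_right (x z : Fin r → ℝ) : B c z (-x) = -B c z x := by
  unfold B; rw [dotProduct_neg]; ring

lemma B_smul_left (t : ℝ) (x z : Fin r → ℝ) : B c (t • x) z = t * B c x z := by
  unfold B; rw [smul_dotProduct]; simp only [smul_eq_mul]; ring

lemma B_smul_right (t : ℝ) (x z : Fin r → ℝ) : B c z (t • x) = t * B c z x := by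
  unfold B; rw [dotProduct_smul]; simp only [smul_eq_mul]; ring

lemma B_zero_left (z : Fin r → ℝ) : B c 0 z = 0 := by unfold B; simp

lemma B_zero_right (z : Fin r → ℝ) : B c z 0 = 0 := by unfold B; simp

lemma B_sum_left {ι : Type*} (s : Finset ι) (f : ι → Fin r → ℝ) (z : Fin r → ℝ) :
    B c (∑ i ∈ s, f i) z = ∑ i ∈ s, B c (f i) z := by
  classical
  induction s using Finset.induction_on with
  | empty => rw [Finset.sum_empty, Finset.sum_empty, B_zero_left]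
  | insert a s ha ih => rw [Finset.sum_insert ha, Finset.sum_insert ha, B_add_left, ih]

lemma B_sum_right {ι : Type*} (s : Finset ι) (f : ι → Fin r → ℝ) (z : Fin r → ℝ) :
    B c z (∑ i ∈ s, f i) = ∑ i ∈ s, B c z (f i) := by
  rw [B_comm, B_sum_left]
  exact Finset.sum_congr rfl fun i _ => B_comm _ _

/-- simply laced root data -/
structure SL (c : ℝ) (Φ : Finset (Fin r → ℝ)) (h : Fin r → ℝ) : Prop where
  R : RS Φ h
  sq : ∀ γ ∈ Φ, γ ⬝ᵥ γ = c

section root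
variable {Φ S : Finset (Fin r → ℝ)} {h : Fin r → ℝ}

lemma SL.pos (L : SL c Φ h) : 0 < c := by
  obtain ⟨γ, hγ, _⟩ := L.R.ex
  rw [← L.sq γ hγ]
  have h0 : γ ≠ 0 := fun e => L.R.z (e ▸ hγ)
  have h1 : 0 ≤ γ ⬝ᵥ γ := Finset.sum_nonneg fun i _ => mul_self_nonneg _
  rcases h1.lt_or_eq with h2 | h2
  · exact h2
  · exact absurd (dotProduct_self_eq_zero.1 h2.symm) h0

lemma SL.pr_eq (L : SL c Φ h) {γ : Fin r → ℝ} (hγ : γ ∈ Φ) (x : Fin r → ℝ) :
    pr γ x = B c x γ := by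
  unfold pr B; rw [L.sq γ hγ]

lemma SL.rf_eq (L : SL c Φ h) {γ : Fin r → ℝ} (hγ : γ ∈ Φ) (x : Fin r → ℝ) :
    rf γ x = x - B c x γ • γ := by
  unfold rf; rw [L.pr_eq hγ]

lemma SL.self (L : SL c Φ h) {γ : Fin r → ℝ} (hγ : γ ∈ Φ) : B c γ γ = 2 := by
  unfold B; rw [L.sq γ hγ]
  have := L.pos
  field_simp

/-- `B` is invariant under the reflections -/
lemma SL.rf_B (L : SL c Φ h) {γ : Fin r → ℝ} (hγ : γ ∈ Φ) (x y : Fin r → ℝ) :
    B c (rf γ x) (rf γ y) = B c x y := by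
  rw [L.rf_eq hγ, L.rf_eq hγ, B_sub_left, B_sub_right, B_sub_right, B_smul_left, B_smul_left,
    B_smul_right, B_smul_right, L.self hγ, B_comm γ y]
  ring

lemma SL.rf_rf (L : SL c Φ h) {γ : Fin r → ℝ} (hγ : γ ∈ Φ) (x : Fin r → ℝ) :
    rf γ (rf γ x) = x := by
  rw [L.rf_eq hγ, L.rf_eq hγ, B_sub_left, B_smul_left, L.self hγ]
  module

lemma SL.nn (L : SL c Φ h) (x : Fin r → ℝ) : 0 ≤ B c x x := by
  unfold B
  have := L.pos
  have h1 : 0 ≤ x ⬝ᵥ x := Finset.sum_nonneg fun i _ => mul_self_nonneg _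
  positivity

lemma SL.eq_zero (L : SL c Φ h) {x : Fin r → ℝ} (hx : B c x x = 0) : x = 0 := by
  unfold B at hx
  have h1 := L.pos
  have h2 : x ⬝ᵥ x = 0 := by
    have h3 : c ≠ 0 := h1.ne'
    field_simp at hx
    linarith
  exact dotProduct_self_eq_zero.1 h2

lemma SL.ext (L : SL c Φ h) {x : Fin r → ℝ} (hx : ∀ γ ∈ Φ, B c x γ = 0) : x = 0 := by
  apply orth_zero L.R
  intro γ hγ
  have h1 := hx γ hγ
  unfold B at h1
  have h3 : c ≠ 0 := L.pos.ne'
  field_simp at h1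
  linarith

lemma SL.int (L : SL c Φ h) {γ δ : Fin r → ℝ} (hγ : γ ∈ Φ) (hδ : δ ∈ Φ) :
    ∃ n : ℤ, B c γ δ = n := by
  obtain ⟨n, hn⟩ := L.R.int δ hδ γ hγ
  exact ⟨n, by rw [← hn, L.pr_eq hδ]⟩

/-- the products of two roots -/
lemma SL.val (L : SL c Φ h) {γ δ : Fin r → ℝ} (hγ : γ ∈ Φ) (hδ : δ ∈ Φ) :
    γ = δ ∨ γ = -δ ∨ B c γ δ = 0 ∨ B c γ δ = 1 ∨ B c γ δ = -1 := by
  obtain ⟨n, hn⟩ := L.int hγ hδ
  have h1 := L.nn (γ - δ)
  have h2 := L.nn (γ + δ)
  have e1 : B c (γ - δ) (γ - δ) = 4 - 2 * B c γ δ := by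
    rw [B_sub_left, B_sub_right, B_sub_right, L.self hγ, L.self hδ, B_comm δ γ]; ring
  have e2 : B c (γ + δ) (γ + δ) = 4 + 2 * B c γ δ := by
    rw [B_add_left, B_add_right, B_add_right, L.self hγ, L.self hδ, B_comm δ γ]; ring
  have e3 : n ≤ 2 := by
    have : (n : ℝ) ≤ 2 := by linarith
    exact_mod_cast this
  have e4 : -2 ≤ n := by
    have : (-2 : ℝ) ≤ n := by linarith
    exact_mod_cast this
  have e5 : n = 2 ∨ n = -2 ∨ n = 0 ∨ n = 1 ∨ n = -1 := by omega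
  rcases e5 with e | e | e | e | e
  · left
    rw [e] at hn
    have : γ - δ = 0 := L.eq_zero (by rw [e1, hn]; norm_num)
    exact sub_eq_zero.1 this
  · right; left
    rw [e] at hn
    have : γ + δ = 0 := L.eq_zero (by rw [e2, hn]; norm_num)
    exact eq_neg_of_add_eq_zero_left this
  · right; right; left; rw [hn, e]; norm_num
  · right; right; right; left; rw [hn, e]; norm_num
  · right; right; right; right; rw [hn, e]; norm_num

lemma SL.eq_of_two (L : SL c Φ h) {γ δ : Fin r → ℝ} (hγ : γ ∈ Φ) (hδ : δ ∈ Φ)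
    (hB : B c γ δ = 2) : γ = δ := by
  rcases L.val hγ hδ with e | e | e | e | e
  · exact e
  · rw [e, B_neg_left, L.self hδ] at hB; norm_num at hB
  · rw [e] at hB; norm_num at hB
  · rw [e] at hB; norm_num at hB
  · rw [e] at hB; norm_num at hB

lemma SL.eq_of_neg_two (L : SL c Φ h) {γ δ : Fin r → ℝ} (hγ : γ ∈ Φ) (hδ : δ ∈ Φ)
    (hB : B c γ δ = -2) : γ = -δ :=
  L.eq_of_two hγ (L.R.neg δ hδ) (by rw [B_neg_right, hB]; norm_num)

lemma SL.sub_mem (L : SL c Φ h) {γ δ : Fin r → ℝ} (hγ : γ ∈ Φ) (hδ : δ ∈ Φ)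
    (hB : B c γ δ = 1) : γ - δ ∈ Φ := by
  have := L.R.rfl δ hδ γ hγ
  rwa [L.rf_eq hδ, hB, one_smul] at this

lemma SL.add_mem (L : SL c Φ h) {γ δ : Fin r → ℝ} (hγ : γ ∈ Φ) (hδ : δ ∈ Φ)
    (hB : B c γ δ = -1) : γ + δ ∈ Φ := by
  have := L.R.rfl δ hδ γ hγ
  rwa [L.rf_eq hδ, hB, neg_one_smul, sub_neg_eq_add] at this

/-- two different roots of degree one have product zero or one -/
lemma SL.val1 (L : SL c Φ h) {γ δ : Fin r → ℝ} (hγ : γ ∈ Φ) (hδ : δ ∈ Φ) (h1 : γ ⬝ᵥ h = 1)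
    (h2 : δ ⬝ᵥ h = 1) : γ = δ ∨ B c γ δ = 0 ∨ B c γ δ = 1 := by
  rcases L.val hγ hδ with e | e | e | e | e
  · exact Or.inl e
  · rw [e, neg_dotProduct, h2] at h1; norm_num at h1
  · exact Or.inr (Or.inl e)
  · exact Or.inr (Or.inr e)
  · have h3 := L.add_mem hγ hδ e
    have h4 : (γ + δ) ⬝ᵥ h = 2 := by rw [add_dotProduct, h1, h2]; norm_num
    rcases L.R.lev _ h3 with h5 | h5 | h5 <;> rw [h4] at h5 <;> norm_num at h5

lemma SL.s_val (L : SL c Φ h) (W : MW Φ h S) {γ s : Fin r → ℝ} (hγ : γ ∈ Φ) (hs : s ∈ S) :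
    B c s γ = 0 ∨ B c s γ = 1 ∨ B c s γ = -1 := by
  have := W.min γ hγ s hs
  rwa [L.pr_eq hγ] at this

lemma SL.s_sub (L : SL c Φ h) (W : MW Φ h S) {γ s : Fin r → ℝ} (hγ : γ ∈ Φ) (hs : s ∈ S)
    (hB : B c s γ = 1) : s - γ ∈ S := by
  have := W.rfl γ hγ s hs
  rwa [L.rf_eq hγ, hB, one_smul] at this

lemma SL.s_add (L : SL c Φ h) (W : MW Φ h S) {γ s : Fin r → ℝ} (hγ : γ ∈ Φ) (hs : s ∈ S)
    (hB : B c s γ = -1) : s + γ ∈ S := by
  have := W.rfl γ hγ s hs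
  rwa [L.rf_eq hγ, hB, neg_one_smul, sub_neg_eq_add] at this

/-- the opposite data -/
lemma SL.opp (L : SL c Φ h) : SL c Φ (-h) where
  R := {
    z := L.R.z
    neg := L.R.neg
    rfl := L.R.rfl
    int := L.R.int
    red := L.R.red
    spn := L.R.spn
    irr := L.R.irr
    lev := fun γ hγ => by
      rw [dotProduct_neg]
      rcases L.R.lev γ hγ with e | e | e <;> rw [e] <;> norm_num
    ex := by
      obtain ⟨γ, hγ, e⟩ := L.R.ex
      exact ⟨-γ, L.R.neg γ hγ, by rw [neg_dotProduct_neg, e]⟩ }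
  sq := L.sq

end root

lemma MW.opp {Φ S : Finset (Fin r → ℝ)} {h : Fin r → ℝ} (W : MW Φ h S) : MW Φ (-h) S where
  ne := W.ne
  nz := W.nz
  rfl := W.rfl
  min := W.min
  tr := W.tr
  two := by
    obtain ⟨a, ha⟩ := W.two
    refine ⟨1 - a, fun s hs => ?_⟩
    rw [dotProduct_neg]
    rcases ha s hs with e | e <;> rw [e]
    · right; ring
    · left; ring

/-- the degree of a difference -/
lemma gen_dot (hg : St_gen) {Φ : Finset (Fin r → ℝ)} {h : Fin r → ℝ} (R : RS Φ h) :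
    ∀ γ ∈ Φ, γ ⬝ᵥ h = 0 → ∃ α ∈ Φ, ∃ β ∈ Φ, α ⬝ᵥ h = 1 ∧ β ⬝ᵥ h = 1 ∧ γ = α - β := by
  let f : (Fin r → ℝ) →ₗ[ℝ] ℝ :=
    { toFun := fun x => x ⬝ᵥ h
      map_add' := fun x y => add_dotProduct x y h
      map_smul' := fun t x => by rw [smul_dotProduct]; rfl }
  exact hg r Φ h R f R.lev R.ex

end

end GCb

end Pool.Agent.NH32
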