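import Pool.Agent.NH32.WlA

/-!
# A matrix which kills the invariant tensors of degree two and four
-/

set_option linter.unusedSectionVars false

namespace Pool.Agent.NH32

open Matrix Module Pool.Agent.W437.HC

noncomputable section

namespace WJ1

variable {B : Type} [Fintype B] [DecidableEq B]

theorem dm_re {κ κ' : Type} [Fintype κ] [DecidableEq κ] [Fintype κ'] [DecidableEq κ']
    (e : κ ≃ κ') (X : Matrix B B ℂ) (c : (κ' → B) → ℂ) :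
    dm κ X *ᵥ (fun I : κ → B => c (fun k => I (e.symm k))) =
      fun I : κ → B => (dm κ' X *ᵥ c) (fun k => I (e.symm k)) := by
  rw [dm_mulVec, dm_mulVec]
  exact act_reindex e Xᵀ c

theorem kill {L : Submodule ℂ (Matrix B B ℂ)} {κ κ' : Type} [Fintype κ] [DecidableEq κ]
    [Fintype κ'] [DecidableEq κ'] (e : κ ≃ κ') {Y : Matrix B B ℂ}
    (h : ∀ x ∈ InvL L κ, dm κ Y *ᵥ x = 0) : ∀ x ∈ InvL L κ', dm κ' Y *ᵥ x = 0 := by
  intro x hx
  have h1 : (fun I : κ → B => x (fun k => I (e.symm k))) ∈ InvL L κ := by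
    rw [mem_InvL] at hx ⊢
    intro X hX
    rw [dm_re, hx X hX]
    rfl
  have h2 := h _ h1
  rw [dm_re] at h2
  funext J
  have h3 := congrFun h2 (fun k => J (e k))
  simp only [Equiv.apply_symm_apply] at h3
  exact h3

variable {Om : Matrix B B ℂ} {L : Submodule ℂ (Matrix B B ℂ)}

/-- The matrices as tensors of degree two. -/
def ph (Om : Matrix B B ℂ) : Matrix B B ℂ →ₗ[ℂ] ((Fin 1 ⊕ Fin 1 → B) → ℂ) where
  toFun X := fun S => (X * Om) (S (Sum.inl 0)) (S (Sum.inr 0))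
  map_add' X X' := by
    funext S
    simp [add_mul]
  map_smul' c X := by
    funext S
    simp

theorem ph_apply (X : Matrix B B ℂ) (S : Fin 1 ⊕ Fin 1 → B) :
    ph Om X S = (X * Om) (S (Sum.inl 0)) (S (Sum.inr 0)) := rfl

theorem ph_eq (X : Matrix B B ℂ) : ph Om X = flat (kp (Fin 1) X * kp (Fin 1) Om) := by
  funext S
  rw [← kp_mul]
  unfold flat
  rw [kp_one_apply, ph_apply]

theorem ph_inj (hO : IsOm Om) {X X' : Matrix B B ℂ} (h : ph Om X = ph Om X') : X = X' := by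
  rw [ph_eq, ph_eq] at h
  exact kp_one_inj (kp_Om_cancel hO (flat_inj h))

theorem dm_ph (hO : IsOm Om) {X : Matrix B B ℂ} (hX : Xᵀ * Om + Om * X = 0)
    (X' : Matrix B B ℂ) : dm (Fin 1 ⊕ Fin 1) X *ᵥ ph Om X' = ph Om (X * X' - X' * X) := by
  rw [ph_eq, dm_flat_Om hO hX, dm_one_eq, ← kp_mul, ← kp_mul]
  funext S
  unfold flat
  rw [ph_apply, Matrix.mul_apply, Matrix.mul_apply, ← Equiv.sum_comp (Equiv.funUnique (Fin 1) B)]
  refine Finset.sum_congr rfl fun J _ => ?_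
  rw [Matrix.sub_apply, Matrix.sub_apply, kp_one_apply, kp_one_apply, kp_one_apply]
  rfl

/-- `Y` is skew. -/
theorem skew (hO : IsOm Om) (hL : LD Om L) {Y : Matrix B B ℂ}
    (h2 : ∀ x ∈ InvL L (Fin 1 ⊕ Fin 1), dm (Fin 1 ⊕ Fin 1) Y *ᵥ x = 0) :
    Y * Om + Om * Yᵀ = 0 := by
  have h1 : flat (κ := Fin 1) (κ' := Fin 1) (1 * kp (Fin 1) Om) ∈ InvL L (Fin 1 ⊕ Fin 1) := by
    rw [mem_InvL]
    intro X hX
    rw [dm_flat_Om hO (hL.sp X hX), mul_one, one_mul, sub_self, zero_mul]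
    rfl
  have h3 := h2 _ h1
  rw [one_mul, dm_flat, dm_one_eq, dm_one_eq, ← kp_mul, ← kp_mul] at h3
  ext i j
  have h4 := congrFun h3 (Sum.elim (fun _ => i) (fun _ => j))
  rw [flat_elim, Matrix.add_apply, kp_one_apply, kp_one_apply] at h4
  exact h4

theorem skew' (hO : IsOm Om) {Y : Matrix B B ℂ} (h : Y * Om + Om * Yᵀ = 0) :
    Yᵀ * Om + Om * Y = 0 := by
  have h1 : Om * (Y * Om + Om * Yᵀ) * Om = Om * Y * (Om * Om) + (Om * Om) * Yᵀ * Om := by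
    noncomm_ring
  rw [h, hO.sq, mul_zero, zero_mul, mul_neg, mul_one] at h1
  have h2 : Yᵀ * Om + Om * Y = -(-(Om * Y) + -1 * Yᵀ * Om) := by
    noncomm_ring
  rw [h2, ← h1, neg_zero]

/-- The projection to the Lie algebra. -/
theorem brk (hO : IsOm Om) (hL : LD Om L) {Y : Matrix B B ℂ} (hY : Yᵀ * Om + Om * Y = 0)
    (h4 : ∀ x ∈ InvL L ((Fin 1 ⊕ Fin 1) ⊕ (Fin 1 ⊕ Fin 1)),
      dm ((Fin 1 ⊕ Fin 1) ⊕ (Fin 1 ⊕ Fin 1)) Y *ᵥ x = 0) {X : Matrix B B ℂ} (hX : X ∈ L) :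
    Y * X - X * Y ∈ L := by
  obtain ⟨p, hp, hp1, hp2⟩ := exists_proj (L.map (ph Om))
  have hst : ∀ X ∈ L, ∀ c ∈ L.map (ph Om), dm (Fin 1 ⊕ Fin 1) X *ᵥ c ∈ L.map (ph Om) := by
    rintro X hX _ ⟨X', hX', rfl⟩
    rw [dm_ph hO (hL.sp X hX)]
    exact ⟨_, hL.br X hX X' hX', rfl⟩
  have key : ∀ X ∈ L, dm (Fin 1 ⊕ Fin 1) X * p = p * dm (Fin 1 ⊕ Fin 1) X * p := by
    intro X hX
    refine matrix_ext_mulVec fun c => ?_
    rw [← mulVec_mulVec, ← mulVec_mulVec, ← mulVec_mulVec]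
    exact (hp2 _ (hst X hX _ (hp1 c))).symm
  have hcomm : ∀ X ∈ L, dm (Fin 1 ⊕ Fin 1) X * p = p * dm (Fin 1 ⊕ Fin 1) X := by
    intro X hX
    have h3 := congrArg Matrix.conjTranspose (key _ (hL.adj X hX))
    rw [conjTranspose_mul, conjTranspose_mul, conjTranspose_mul, hp, dm_conjTranspose,
      conjTranspose_conjTranspose] at h3
    calc dm (Fin 1 ⊕ Fin 1) X * p = p * dm (Fin 1 ⊕ Fin 1) X * p := key X hX
      _ = p * (dm (Fin 1 ⊕ Fin 1) X * p) := mul_assoc _ _ _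
      _ = p * dm (Fin 1 ⊕ Fin 1) X := h3.symm
  have h1 : flat (p * kp (Fin 1 ⊕ Fin 1) Om) ∈ InvL L ((Fin 1 ⊕ Fin 1) ⊕ (Fin 1 ⊕ Fin 1)) := by
    rw [mem_InvL]
    intro X hX
    rw [dm_flat_Om hO (hL.sp X hX), hcomm X hX, sub_self, zero_mul]
    rfl
  have h2 := h4 _ h1
  rw [dm_flat_Om hO hY] at h2
  have h3 : flat ((dm (Fin 1 ⊕ Fin 1) Y * p - p * dm (Fin 1 ⊕ Fin 1) Y) *
      kp (Fin 1 ⊕ Fin 1) Om) =
      flat ((0 : Matrix (Fin 1 ⊕ Fin 1 → B) (Fin 1 ⊕ Fin 1 → B) ℂ) *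
        kp (Fin 1 ⊕ Fin 1) Om) := by
    rw [h2, zero_mul]
    rfl
  have h5 := sub_eq_zero.1 (kp_Om_cancel hO (flat_inj h3))
  have h6 : dm (Fin 1 ⊕ Fin 1) Y *ᵥ ph Om X ∈ L.map (ph Om) := by
    have h7 : ph Om X = p *ᵥ ph Om X := (hp2 _ ⟨X, hX, rfl⟩).symm
    rw [h7, mulVec_mulVec, h5, ← mulVec_mulVec]
    exact hp1 _
  rw [dm_ph hO hY] at h6
  obtain ⟨X', hX', h8⟩ := h6
  rw [← ph_inj hO h8]
  exact hX'

end WJ1

open WJ1 in
theorem split_of : St_split := by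
  intro B _ _ Om L hO hL Y h2 h4
  have k2 : ∀ x ∈ InvL L (Fin 1 ⊕ Fin 1), dm (Fin 1 ⊕ Fin 1) Y *ᵥ x = 0 :=
    kill (finSumFinEquiv (m := 1) (n := 1)).symm h2
  have k4 : ∀ x ∈ InvL L ((Fin 1 ⊕ Fin 1) ⊕ (Fin 1 ⊕ Fin 1)),
      dm ((Fin 1 ⊕ Fin 1) ⊕ (Fin 1 ⊕ Fin 1)) Y *ᵥ x = 0 := by
    refine kill ?_ h4
    exact (finSumFinEquiv (m := 2) (n := 2)).symm.trans
      (Equiv.sumCongr (finSumFinEquiv (m := 1) (n := 1)).symm
        (finSumFinEquiv (m := 1) (n := 1)).symm)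
  have hs := skew hO hL k2
  have hY := skew' hO hs
  have hst : st Om Y = -Y := by
    unfold st
    have h1 := hO.OXt hY
    rw [h1, mul_assoc, hO.sq]
    noncomm_ring
  have hB : InB L Y := by
    intro M hM
    have h1 : ph Om M ∈ InvL L (Fin 1 ⊕ Fin 1) := by
      rw [mem_InvL]
      intro X hX
      have h3 : X * M = M * X := hM X hX
      rw [dm_ph hO (hL.sp X hX), h3, sub_self, map_zero]
    have h3 := k2 _ h1
    rw [dm_ph hO hY] at h3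
    have h5 : ph Om (Y * M - M * Y) = ph Om 0 := by rw [h3, map_zero]
    exact sub_eq_zero.1 (ph_inj hO h5)
  refine ⟨hst, hB, ?_⟩
  obtain ⟨X, hX, ho⟩ := exists_orth L Y
  refine ⟨X, hX, ?_⟩
  have hbr : ∀ Z ∈ L, Z * (Y - X) - (Y - X) * Z ∈ L := by
    intro Z hZ
    have h1 := brk hO hL hY k4 hZ
    have h3 := hL.br Z hZ X hX
    have h5 : Z * (Y - X) - (Y - X) * Z = -(Y * Z - Z * Y) - (Z * X - X * Z) := by
      noncomm_ring
    rw [h5]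
    exact L.sub_mem (L.neg_mem h1) h3
  have hC : ∀ Z ∈ L, Z * (Y - X) = (Y - X) * Z := fun Z hZ =>
    comm_of_orth hL.adj hL.br hbr ho hZ
  refine ⟨hC, fun N hN => ?_⟩
  have h1 := hB N hN
  have h3 : X * N = N * X := hN X hX
  rw [mul_sub, sub_mul, h1, h3]

end

end Pool.Agent.NH32
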