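import Mathlib
import Pool.Agent.NH32.Stm

/-!
# Weil classes, the Hodge Lie algebra: definitions for the statements
-/

namespace Pool.Agent.NH32

open Module Pool.Agent.Y90
open Pool.Agent.H204R3.CM (IsHodge)

/-- **Weil classes.** The Hodge class `w ∈ H^n(Y, ℚ)` is a Weil class: there is a number field `K`
of endomorphisms (with rational coefficients) of the abelian variety `Y` such that `H_1(Y, ℚ)` is a
vector space of dimension `n` over `K`, and `w` is balanced: `w (.., a v_k, .., v_l, ..) =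
w (.., v_k, .., a v_l, ..)` for `a ∈ K`. In other words `w` belongs to the subspace `⋀_K^n H^1(Y, ℚ)`
of `H^n(Y, ℚ)`, which has dimension one over `K`. -/
def IsWeil (Y : AV) {n : ℕ} (w : Y.H [⋀^Fin n]→ₗ[ℚ] ℚ) : Prop :=
  IsHodge Y.per w ∧ ∃ (K : Type) (_ : Field K) (_ : Algebra ℚ K) (ρ : K →ₐ[ℚ] Module.End ℚ Y.H),
    FiniteDimensional ℚ K ∧ (∀ a, IsHom Y Y (ρ a)) ∧ finrank ℚ Y.H = n * finrank ℚ K ∧
    ∀ (a : K) (v : Fin n → Y.H) (k l : Fin n),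
      w (Function.update v k (ρ a (v k))) = w (Function.update v l (ρ a (v l)))

/-- The class `f ∈ H^m(X, ℚ)` on the power `X ~ A ^ n` is killed by the diagonal action of the
linear map `z` of `H_1(A, ℚ)` as a derivation: if `z'` is `(z, ..., z)` on `X`, then
`∑_k f (v_1, ..., z' v_k, ..., v_m) = 0`. -/
def KillsClass {A X : AV} {n : ℕ} (i : Fin n → (A.H →ₗ[ℚ] X.H)) (z : A.H →ₗ[ℚ] A.H) {m : ℕ}
    (f : X.H [⋀^Fin m]→ₗ[ℚ] ℚ) : Prop :=
  ∀ z' : X.H →ₗ[ℚ] X.H, (∀ k w, z' (i k w) = i k (z w)) →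
    ∀ v : Fin m → X.H, ∑ k, f (Function.update v k (z' (v k))) = 0

/-- `f ∈ H^4(X, ℚ)` is the cup product of two classes of degree two (up to a factor). -/
def IsCupTwo {X : AV} (f₁ f₂ : X.H [⋀^Fin 2]→ₗ[ℚ] ℚ) (f : X.H [⋀^Fin 4]→ₗ[ℚ] ℚ) : Prop :=
  ∀ v : Fin 4 → X.H, f v = ∑ σ : Equiv.Perm (Fin 4), ((Equiv.Perm.sign σ : ℤ) : ℚ) *
    (f₁ ![v (σ 0), v (σ 1)] * f₂ ![v (σ 2), v (σ 3)])

/-- The classes of degree four on `X` which are linear combinations of products of two Hodge classes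
of degree two (classes of divisors) and of pull-backs of Weil classes along homomorphisms
`X → Y`. -/
def DivWeil (X : AV) : Submodule ℚ (X.H [⋀^Fin 4]→ₗ[ℚ] ℚ) :=
  Submodule.span ℚ ({f | ∃ f₁ f₂ : X.H [⋀^Fin 2]→ₗ[ℚ] ℚ, IsHodge X.per f₁ ∧ IsHodge X.per f₂ ∧
      IsCupTwo f₁ f₂ f} ∪
    {f | ∃ (Y : AV) (h : X.H →ₗ[ℚ] Y.H) (w : Y.H [⋀^Fin 4]→ₗ[ℚ] ℚ), IsHom X Y h ∧ IsWeil Y w ∧
      f = w.compLinearMap h})

end Pool.Agent.NH32
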