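import Mathlib
import Pool.Agent.NH32.WlS
import Pool.Agent.NH32.App3
import Pool.Agent.NH32.Dim3

/-!
# Weil classes: definitions and statements of the lemmas
-/

set_option linter.unusedSectionVars false

namespace Pool.Agent.NH32

open Matrix Module Pool.Agent.W437.HC Pool.Agent.W437.HD Pool.Agent.TH504.CB Pool.Agent.Y90
open Pool.Agent.H204R3.CM (IsHodge)
open Pool.Agent.W548.Odd hiding cv
open Pool.Agent.W437.HP (cK)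

noncomputable section

section mat

variable {B : Type} [Fintype B] [DecidableEq B]

/-- `X` commutes with the commutant of `L`. -/
def InB (L : Submodule ℂ (Matrix B B ℂ)) (X : Matrix B B ℂ) : Prop := ∀ M ∈ CM L, X * M = M * X

/-- The adjoint for the form `Om`. -/
def st (Om M : Matrix B B ℂ) : Matrix B B ℂ := -(Om * Mᵀ * Om)

/-- Minimal central idempotents of the commutant. -/
def Mz (L : Submodule ℂ (Matrix B B ℂ)) (E : Matrix B B ℂ) : Prop :=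
  E ∈ ZM L ∧ E * E = E ∧ E ≠ 0 ∧ ∀ z ∈ ZM L, ∃ c : ℂ, z * E = c • E

/-- Minimal idempotents of the commutant, below `E`. -/
def Me (L : Submodule ℂ (Matrix B B ℂ)) (E e : Matrix B B ℂ) : Prop :=
  e ∈ CM L ∧ e * e = e ∧ e ≠ 0 ∧ E * e = e ∧ ∀ M ∈ CM L, ∃ c : ℂ, e * M * e = c • e

/-- The product of the determinants of the families `a i`. -/
def wI {s : ℕ} {d : Fin s → ℕ} (a : ∀ i, Fin (d i) → B → ℂ) (J : (Σ i, Fin (d i)) → B) : ℂ :=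
  ∏ i, det (of fun j k : Fin (d i) => a i j (J ⟨i, k⟩))

/-- The matrices commuting with the commutant and orthogonal to its centre, skew for `Om`. -/
def Lf (Om : Matrix B B ℂ) (L : Submodule ℂ (Matrix B B ℂ)) (X : Matrix B B ℂ) : Prop :=
  st Om X = -X ∧ InB L X ∧ ∀ M ∈ ZM L, trace (X * M) = 0

end mat

/-- **J1.** -/
def St_split : Prop := ∀ (B : Type) [Fintype B] [DecidableEq B] (Om : Matrix B B ℂ)
  (L : Submodule ℂ (Matrix B B ℂ)), IsOm Om → LD Om L → ∀ Y : Matrix B B ℂ,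
  (∀ x ∈ InvL L (Fin 2), dm (Fin 2) Y *ᵥ x = 0) → (∀ x ∈ InvL L (Fin 4), dm (Fin 4) Y *ᵥ x = 0) →
  st Om Y = -Y ∧ InB L Y ∧ ∃ X ∈ L, Y - X ∈ ZM L

/-- **J2.** -/
def St_cent : Prop := ∀ (B : Type) [Fintype B] [DecidableEq B] (Om : Matrix B B ℂ)
  (L : Submodule ℂ (Matrix B B ℂ)), IsOm Om → LD Om L → ∀ z ∈ ZM L,
  (∀ (s : ℕ) (E : Fin s → Matrix B B ℂ), (∀ i, E i ∈ ZM L ∧ E i * E i = E i) →
    (∀ X ∈ L, ∑ i, trace (X * E i) = 0) → ∑ i, trace (z * E i) = 0) →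
  ∀ (κ : Type) [Fintype κ] [DecidableEq κ], ∀ x ∈ InvL L κ, dm κ z *ᵥ x = 0

/-- **J3a.** Quotients of abelian varieties. -/
def St_quot : Prop := ∀ (X : AV) (W : Type) [AddCommGroup W] [Module ℚ W] (R : X.H →ₗ[ℚ] W),
  Function.Surjective R → IsSub X (LinearMap.ker R) →
  ∃ (Y : AV) (b : Y.H ≃ₗ[ℚ] W), IsHom X Y (b.symm.toLinearMap ∘ₗ R)

/-- **J3b.** Descent of homomorphisms. -/
def St_qhom : Prop := ∀ (X Y Z : AV) (R : X.H →ₗ[ℚ] Y.H), Function.Surjective R → IsHom X Y R →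
  ∀ f : Y.H →ₗ[ℚ] Z.H, IsHom X Z (f ∘ₗ R) → IsHom Y Z f

/-- **J3c.** Descent of Hodge classes. -/
def St_qhodge : Prop := ∀ (X Y : AV) (R : X.H →ₗ[ℚ] Y.H), Function.Surjective R → IsHom X Y R →
  ∀ (n : ℕ) (w : Y.H [⋀^Fin n]→ₗ[ℚ] ℚ), IsHodge X.per (w.compLinearMap R) → IsHodge Y.per w

/-- The tensors given by the pull-backs of Weil classes. -/
def WeilT {B : Type} [Fintype B] [DecidableEq B] {A : AV} (e : A.H ≃ₗ[ℚ] (B → ℚ)) (κ : Type)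
    [Fintype κ] [DecidableEq κ] : Set ((κ → B) → ℚ) :=
  {q | ∃ (Y : AV) (n : ℕ) (w : Y.H [⋀^Fin n]→ₗ[ℚ] ℚ) (ψ : Fin n ≃ κ)
    (φ : κ → (A.H →ₗ[ℚ] Y.H)), IsWeil Y w ∧ (∀ k, IsHom A Y (φ k)) ∧
    ∀ I, q I = w fun l => φ (ψ l) (e.symm (Pi.single (I (ψ l)) 1))}

/-- **J4.** -/
def St_wI : Prop := ∀ (g : ℕ) (Z : Matrix (Fin g) (Fin g) ℂ) (A : AV)
  (e : A.H ≃ₗ[ℚ] (Fin g ⊕ Fin g → ℚ)), PM Z →
  Cht (A.per.comp e.symm.toLinearMap.toAddMonoidHom) (JR Z) →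
  ∀ (s : ℕ) (d : Fin s → ℕ) (a : ∀ i, Fin (d i) → (Fin g ⊕ Fin g) → ℂ),
  (∀ i j b, IsAlgebraic ℚ (a i j b)) → (∀ i, LinearIndependent ℂ (a i)) →
  (∀ i, ∀ N ∈ Lr Z, ∀ j, N *ᵥ a i j ∈ Submodule.span ℂ (Set.range (a i))) →
  wI a ∈ InvL (Lr Z) (Σ i, Fin (d i)) →
  wI a ∈ Submodule.span ℂ ((cst ℂ) '' WeilT e (Σ i, Fin (d i)))

/-- **J5.** -/
def St_TQweil : Prop := ∀ (B : Type) [Fintype B] [DecidableEq B] (A : AV)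
  (e : A.H ≃ₗ[ℚ] (B → ℚ)) (𝒜 : Sys),
  (∀ (Y : AV) (n : ℕ) (w : Y.H [⋀^Fin n]→ₗ[ℚ] ℚ), IsWeil Y w → 𝒜.A Y (Fin n) w) →
  ∀ (κ : Type) [Fintype κ] [DecidableEq κ], ∀ q ∈ WeilT e κ, cst ℂ q ∈ TQ e 𝒜 κ

/-- **J6.** Algebraic idempotents. -/
def St_idem : Prop := ∀ (g : ℕ) (Z : Matrix (Fin g) (Fin g) ℂ), PM Z →
  (∀ E ∈ ZM (Lr Z), E * E = E → ∀ i j, IsAlgebraic ℚ (E i j)) ∧
  ∀ E, Mz (Lr Z) E → ∃ e, Me (Lr Z) E e ∧ ∀ i j, IsAlgebraic ℚ (e i j)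

/-- **J7.** Bases of the ranges of idempotents. -/
def St_bas : Prop := ∀ (B : Type) [Fintype B] [DecidableEq B] (s : ℕ)
  (E : Fin s → Matrix B B ℂ), (∀ i, E i * E i = E i) → (∀ i j k, IsAlgebraic ℚ (E i j k)) →
  ∃ (d : Fin s → ℕ) (a : ∀ i, Fin (d i) → B → ℂ), (∀ i j b, IsAlgebraic ℚ (a i j b)) ∧
    (∀ i, LinearIndependent ℂ (a i)) ∧ (∀ i j, E i *ᵥ a i j = a i j) ∧
    (∀ i v, E i *ᵥ v ∈ Submodule.span ℂ (Set.range (a i))) ∧ wI a ≠ 0 ∧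
    (∀ X : Matrix B B ℂ, (∀ i, X * E i = E i * X) →
      dm (Σ i, Fin (d i)) X *ᵥ wI a = (∑ i, trace (X * E i)) • wI a) ∧
    ∀ u : Matrix B B ℂ, (∀ i, u * E i = E i * u) →
      kp (Σ i, Fin (d i)) u *ᵥ wI a = (∏ i, det (u * E i + 1 - E i)) • wI a

/-- **J8.** The Lie algebra `Lf` kills the pull-backs of Weil classes. -/
def St_lfw : Prop := ∀ (g : ℕ) (Z : Matrix (Fin g) (Fin g) ℂ) (A : AV)
  (e : A.H ≃ₗ[ℚ] (Fin g ⊕ Fin g → ℚ)), PM Z →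
  Cht (A.per.comp e.symm.toLinearMap.toAddMonoidHom) (JR Z) →
  ∀ X, InB (Lr Z) X → (∀ M ∈ ZM (Lr Z), trace (X * M) = 0) →
  ∀ (κ : Type) [Fintype κ] [DecidableEq κ], ∀ q ∈ WeilT e κ, dm κ X *ᵥ cst ℂ q = 0

/-- **J9.** The decomposition of the centre. -/
def St_dec : Prop := ∀ (B : Type) [Fintype B] [DecidableEq B] (L : Submodule ℂ (Matrix B B ℂ)),
  (∀ X ∈ L, Xᴴ ∈ L) → ∃ (s : ℕ) (E : Fin s → Matrix B B ℂ), (∀ i, Mz L (E i)) ∧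
    (∀ i j, i ≠ j → E i * E j = 0) ∧ ∑ i, E i = 1 ∧ (∀ i, (E i)ᴴ = E i) ∧
    (∀ F, Mz L F → ∃ i, F = E i) ∧ ∀ z ∈ ZM L, ∃ x : Fin s → ℂ, z = ∑ i, x i • E i

/-- **J10.** Matrix units. -/
def St_mu : Prop := ∀ (B : Type) [Fintype B] [DecidableEq B] (L : Submodule ℂ (Matrix B B ℂ)),
  (∀ X ∈ L, Xᴴ ∈ L) → ∀ E, Mz L E → ∃ (d m : ℕ) (ε : Fin d → Fin d → Matrix B B ℂ),
    0 < d ∧ 0 < m ∧ (∀ i j, InB L (ε i j)) ∧
    (∀ i j k l, ε i j * ε k l = if j = k then ε i l else 0) ∧ ∑ i, ε i i = E ∧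
    (∀ i j, (ε i j)ᴴ = ε j i) ∧
    (∀ X, InB L X → ∃ x : Fin d → Fin d → ℂ, X * E = ∑ i, ∑ j, x i j • ε i j) ∧
    (∀ i, trace (ε i i) = m) ∧ ∀ e, Me L E e → ∀ i j, trace (ε i j * e) = if i = j then 1 else 0

/-- **J11.** The maximum principle. -/
def St_mx : Prop := ∀ (B : Type) [Fintype B] [DecidableEq B] (Om : Matrix B B ℂ)
  (L : Submodule ℂ (Matrix B B ℂ)), IsOm Om → LD Om L → (∀ X, Lf Om L X → X ∈ L) →
  ∀ u : USp Om, InB L (mt u) →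
  (∀ E, Mz L E → st Om E = E → ∃ e, Me L E e ∧ ∀ k ∈ KK Om L, det (mt (k * u) * e + 1 - e) = 1) →
  ∃ k ∈ KK Om L, mt (k * u) ∈ ZM L ∧ ∀ E, Mz L E → st Om E = E → mt (k * u) * E = E

/-- **J12.** Central elements. -/
def St_fx : Prop := ∀ (B : Type) [Fintype B] [DecidableEq B] (Om : Matrix B B ℂ)
  (L : Submodule ℂ (Matrix B B ℂ)), IsOm Om → LD Om L → (∀ X, Lf Om L X → X ∈ L) →
  ∀ v : USp Om, mt v ∈ ZM L → (∀ E, Mz L E → st Om E = E → mt v * E = E) →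
  ∀ 𝓔 : Set (Matrix B B ℂ), (∀ E, Mz L E → ∃ e ∈ 𝓔, Me L E e) →
  (∀ (s : ℕ) (e : Fin s → Matrix B B ℂ), (∀ i, e i ∈ 𝓔) → (∀ X ∈ L, ∑ i, trace (X * e i) = 0) →
    ∏ i, det (mt v * e i + 1 - e i) = 1) →
  ∀ (κ : Type) [Fintype κ] [DecidableEq κ], ∀ x ∈ InvL L κ, kp κ (mt v) *ᵥ x = x

end

end Pool.Agent.NH32
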