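import Mathlib
import Pool.Agent.NH32.WlA

/-!
# Decomposition of tensors, traces of idempotents
-/

set_option linter.unusedSectionVars false

namespace Pool.Agent.NH32.WJ2

open Matrix Module Pool.Agent.NH32

noncomputable section

section ten

variable {B : Type*} [Fintype B] [DecidableEq B] {κ : Type*} [Fintype κ] [DecidableEq κ]

theorem sum_kpp {s : ℕ} {E : Fin s → Matrix B B ℂ} (h : ∑ i, E i = 1) :
    ∑ f : κ → Fin s, kpp (fun k => E (f k)) = 1 := by
  ext I J
  rw [Matrix.sum_apply, ← kpp_one (κ := κ)]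
  simp only [kpp_apply]
  rw [← h]
  simp only [Matrix.sum_apply]
  rw [Finset.prod_univ_sum, Fintype.piFinset_univ]

theorem dm_comm_kpp {X : Matrix B B ℂ} {M : κ → Matrix B B ℂ} (h : ∀ k, X * M k = M k * X) :
    dm κ X * kpp M = kpp M * dm κ X := by
  unfold dm kd
  rw [Finset.sum_mul, Finset.mul_sum]
  refine Finset.sum_congr rfl fun k _ => ?_
  rw [kpp_mul, kpp_mul]
  congr 1
  funext l
  by_cases hl : l = k
  · subst hl
    rw [Function.update_self, h]
  · rw [Function.update_of_ne hl, one_mul, mul_one]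

theorem dm_mul_kpp {X : Matrix B B ℂ} {M : κ → Matrix B B ℂ} {c : κ → ℂ}
    (h : ∀ k, X * M k = c k • M k) : dm κ X * kpp M = (∑ k, c k) • kpp M := by
  unfold dm kd
  rw [Finset.sum_mul, Finset.sum_smul]
  refine Finset.sum_congr rfl fun k _ => ?_
  rw [kpp_mul]
  have h1 : (fun l => Function.update (fun _ => (1 : Matrix B B ℂ)) k X l * M l) =
      Function.update M k (c k • M k) := by
    funext l
    by_cases hl : l = k
    · subst hl
      rw [Function.update_self, Function.update_self, h]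
    · rw [Function.update_of_ne hl, Function.update_of_ne hl, one_mul]
  rw [h1, kpp_update_smul, Function.update_eq_self]

theorem kpp_smul (c : κ → ℂ) (M : κ → Matrix B B ℂ) :
    kpp (fun k => c k • M k) = (∏ k, c k) • kpp M := by
  ext I J
  rw [Matrix.smul_apply, kpp_apply, kpp_apply, smul_eq_mul, ← Finset.prod_mul_distrib]
  rfl

theorem exists_kpp_ne {s : ℕ} {E : Fin s → Matrix B B ℂ} (h : ∑ i, E i = 1)
    {x : (κ → B) → ℂ} (hx : x ≠ 0) : ∃ f : κ → Fin s, kpp (fun k => E (f k)) *ᵥ x ≠ 0 := by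
  by_contra hcon
  push Not at hcon
  apply hx
  rw [← one_mulVec x, ← sum_kpp (κ := κ) h, sum_mulVec]
  exact Finset.sum_eq_zero fun f _ => hcon f

end ten

section idem

variable {B : Type*} [Fintype B] [DecidableEq B]

/-- Factorization of an idempotent. -/
theorem idem_fac {e : Matrix B B ℂ} (he : e * e = e) :
    ∃ (r : ℕ) (P : Matrix B (Fin r) ℂ) (Q : Matrix (Fin r) B ℂ), P * Q = e ∧ Q * P = 1 := by
  let V : Submodule ℂ (B → ℂ) := LinearMap.range (Matrix.toLin' e)
  let b := Module.finBasis ℂ V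
  let T : (B → ℂ) →ₗ[ℂ] (Fin (finrank ℂ V) → ℂ) :=
    (b.equivFun : V →ₗ[ℂ] (Fin (finrank ℂ V) → ℂ)) ∘ₗ (Matrix.toLin' e).rangeRestrict
  let S : (Fin (finrank ℂ V) → ℂ) →ₗ[ℂ] (B → ℂ) :=
    V.subtype ∘ₗ (b.equivFun.symm : (Fin (finrank ℂ V) → ℂ) →ₗ[ℂ] V)
  refine ⟨finrank ℂ V, LinearMap.toMatrix' S, LinearMap.toMatrix' T, ?_, ?_⟩
  · rw [← LinearMap.toMatrix'_comp]
    have h1 : S ∘ₗ T = Matrix.toLin' e := by
      refine LinearMap.ext fun v => ?_
      change ((b.equivFun.symm (b.equivFun ((Matrix.toLin' e).rangeRestrict v)) : V) : B → ℂ) = _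
      rw [LinearEquiv.symm_apply_apply]
      rfl
    rw [h1, LinearMap.toMatrix'_toLin']
  · rw [← LinearMap.toMatrix'_comp]
    have h1 : T ∘ₗ S = LinearMap.id := by
      refine LinearMap.ext fun v => ?_
      change b.equivFun ((Matrix.toLin' e).rangeRestrict ((b.equivFun.symm v : V) : B → ℂ)) = v
      have h2 : (Matrix.toLin' e).rangeRestrict ((b.equivFun.symm v : V) : B → ℂ) =
          b.equivFun.symm v := by
        apply Subtype.ext
        change Matrix.toLin' e ((b.equivFun.symm v : V) : B → ℂ) = _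
        obtain ⟨w, hw⟩ := (b.equivFun.symm v).2
        rw [← hw, toLin'_apply, toLin'_apply, mulVec_mulVec, he]
      rw [h2, LinearEquiv.apply_symm_apply]
    rw [h1, LinearMap.toMatrix'_id]

/-- The trace and the determinants of an idempotent. -/
theorem idem_trace {e : Matrix B B ℂ} (he : e * e = e) : ∃ r : ℕ, trace e = r ∧
    (e ≠ 0 → 0 < r) ∧ ∀ c : ℂ, det (1 + (c - 1) • e) = c ^ r := by
  obtain ⟨r, P, Q, h1, h2⟩ := idem_fac he
  refine ⟨r, ?_, fun h => ?_, fun c => ?_⟩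
  · rw [← h1, trace_mul_comm, h2, trace_one, Fintype.card_fin]
  · rcases Nat.eq_zero_or_pos r with rfl | hr
    · exfalso
      apply h
      rw [← h1]
      ext i j
      rw [Matrix.mul_apply, Finset.univ_eq_empty, Finset.sum_empty]
      rfl
    · exact hr
  · rw [← h1, ← Matrix.smul_mul, det_one_add_mul_comm, Matrix.mul_smul, h2]
    have h3 : (1 : Matrix (Fin r) (Fin r) ℂ) + (c - 1) • 1 = c • 1 := by
      rw [sub_smul, one_smul, add_sub_cancel]
    rw [h3, det_smul, det_one, mul_one, Fintype.card_fin]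

theorem idem_trace' {e : Matrix B B ℂ} (he : e * e = e) {r : ℕ} (hr : trace e = r) (c : ℂ) :
    det (1 + (c - 1) • e) = c ^ r := by
  obtain ⟨r', h1, -, h2⟩ := idem_trace he
  rw [h2]
  congr 1
  rw [hr] at h1
  exact_mod_cast h1.symm

end idem

section lie

variable {B : Type} [Fintype B] [DecidableEq B] {Om : Matrix B B ℂ}
  {L : Submodule ℂ (Matrix B B ℂ)}

/-- The decomposition of an element of the Lie algebra. -/
theorem dec_L (hL : LD Om L) {X : Matrix B B ℂ} (hX : X ∈ L) :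
    ∃ X' X'' : Matrix B B ℂ, X = X' + X'' ∧ X'' ∈ L ∧ X'' ∈ ZM L ∧
      ∀ M ∈ CM L, trace (X' * M) = 0 := by
  obtain ⟨S, hS⟩ : ∃ S : Submodule ℂ (Matrix B B ℂ), S =
    Submodule.span ℂ {Z | ∃ A ∈ L, ∃ C ∈ L, Z = A * C - C * A} := ⟨_, rfl⟩
  have hSL : S ≤ L := by
    rw [hS, Submodule.span_le]
    rintro _ ⟨A, hA, C, hC, rfl⟩
    exact hL.br A hA C hC
  have hbr : ∀ A ∈ L, ∀ C ∈ L, A * C - C * A ∈ S := fun A hA C hC => by
    rw [hS]
    exact Submodule.subset_span ⟨A, hA, C, hC, rfl⟩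
  have hadj : ∀ Z ∈ S, Zᴴ ∈ S := by
    intro Z hZ
    rw [hS] at hZ
    induction hZ using Submodule.span_induction with
    | mem Z h =>
      obtain ⟨A, hA, C, hC, rfl⟩ := h
      rw [conjTranspose_sub, conjTranspose_mul, conjTranspose_mul]
      exact hbr _ (hL.adj C hC) _ (hL.adj A hA)
    | zero => rw [conjTranspose_zero]; exact S.zero_mem
    | add a b _ _ ha hb => rw [conjTranspose_add]; exact S.add_mem ha hb
    | smul c a _ ha => rw [conjTranspose_smul]; exact S.smul_mem _ ha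
  obtain ⟨s, hs, ho⟩ := exists_orth S X
  have hY : X - s ∈ L := L.sub_mem hX (hSL hs)
  have hcomm : ∀ A ∈ L, A * (X - s) = (X - s) * A := by
    intro A hA
    obtain ⟨Y, hYd⟩ : ∃ Y, Y = X - s := ⟨_, rfl⟩
    rw [← hYd] at hY ho ⊢
    rw [← sub_eq_zero]
    apply trace_self_eq_zero
    obtain ⟨Z, hZ⟩ : ∃ Z, Z = A * Y - Y * A := ⟨_, rfl⟩
    have hZS : Z ∈ S := by rw [hZ]; exact hbr A hA Y hY
    have h1 := ho _ (hbr _ (hL.adj A hA) _ (hSL hZS))
    rw [← h1, ← hZ]
    have h2 : (Aᴴ * Z - Z * Aᴴ)ᴴ = Zᴴ * A - A * Zᴴ := by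
      rw [conjTranspose_sub, conjTranspose_mul, conjTranspose_mul, conjTranspose_conjTranspose]
    rw [h2]
    nth_rewrite 2 [hZ]
    have h3 : trace (Zᴴ * (A * Y - Y * A)) = trace (Zᴴ * A * Y) - trace (Zᴴ * Y * A) := by
      rw [mul_sub, trace_sub, mul_assoc, mul_assoc]
    have h4 : trace ((Zᴴ * A - A * Zᴴ) * Y) = trace (Zᴴ * A * Y) - trace (A * Zᴴ * Y) := by
      rw [sub_mul, trace_sub]
    have h5 : trace (Zᴴ * Y * A) = trace (A * Zᴴ * Y) := by
      rw [trace_mul_comm, mul_assoc]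
    rw [h3, h4, h5]
  refine ⟨s, X - s, by rw [add_sub_cancel], hY, ⟨hcomm, fun N hN => (hN _ hY).symm⟩, ?_⟩
  intro M hM
  rw [hS] at hs
  clear ho hY hcomm
  induction hs using Submodule.span_induction with
  | mem Z h =>
    obtain ⟨A, hA, C, hC, rfl⟩ := h
    rw [sub_mul, trace_sub, mul_assoc C A M, hM A hA, ← mul_assoc C M A, trace_mul_comm (C * M) A,
      ← mul_assoc A C M, mul_assoc A C M, sub_self]
  | zero => rw [zero_mul, trace_zero]
  | add a b _ _ ha hb => rw [add_mul, trace_add, ha, hb, add_zero]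
  | smul c a _ ha => rw [Matrix.smul_mul, trace_smul, ha, smul_zero]

theorem ZM_comm {z w : Matrix B B ℂ} (hz : z ∈ ZM L) (hw : w ∈ ZM L) : z * w = w * z :=
  hw.2 z hz.1

theorem L_comm {X M : Matrix B B ℂ} (hX : X ∈ L) (hM : M ∈ ZM L) : X * M = M * X := hM.1 X hX

end lie

end

end Pool.Agent.NH32.WJ2
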