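import Mathlib
import Pool.Agent.NH32.WJ1
import Pool.Agent.NH32.WJ2A

/-!
# Project G: minimal idempotents of the commutant, classes, definitions and statements
-/

set_option linter.unusedSectionVars false

namespace Pool.Agent.NH32

open Matrix Module Pool.Agent.W437.HC Pool.Agent.W437.HD Pool.Agent.TH504.CB Pool.Agent.Y90
open Pool.Agent.H204R3.CM (IsHodge)
open Pool.Agent.W548.Odd hiding cv

noncomputable section

/-- Complex conjugation. -/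
def cj : ℂ ≃+* ℂ := (Complex.conjAe : ℂ ≃ₐ[ℝ] ℂ).toRingEquiv

section mat

variable {B : Type} [Fintype B] [DecidableEq B]

/-- The derived algebra. -/
def Dr (L : Submodule ℂ (Matrix B B ℂ)) : Submodule ℂ (Matrix B B ℂ) :=
  Submodule.span ℂ {Z | ∃ X ∈ L, ∃ Y ∈ L, Z = X * Y - Y * X}

/-- Minimal Hermitian idempotents of the commutant. Their ranges are the irreducible subspaces. -/
def Mi (L : Submodule ℂ (Matrix B B ℂ)) (e : Matrix B B ℂ) : Prop :=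
  e ∈ CM L ∧ e * e = e ∧ eᴴ = e ∧ e ≠ 0 ∧ ∀ M ∈ CM L, ∃ c : ℂ, e * M * e = c • e

/-- The ideal of the derived algebra which acts on `e`: the orthogonal complement of the kernel. -/
def Ide (L : Submodule ℂ (Matrix B B ℂ)) (e : Matrix B B ℂ) : Submodule ℂ (Matrix B B ℂ) where
  carrier := {X | X ∈ Dr L ∧ ∀ Y ∈ Dr L, Y * e = 0 → trace (X * Y) = 0}
  add_mem' := by
    rintro X X' ⟨h1, h2⟩ ⟨h3, h4⟩
    exact ⟨(Dr L).add_mem h1 h3, fun Y hY he => by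
      rw [add_mul, trace_add, h2 Y hY he, h4 Y hY he, add_zero]⟩
  zero_mem' := ⟨(Dr L).zero_mem, fun Y _ _ => by rw [zero_mul, trace_zero]⟩
  smul_mem' := by
    rintro c X ⟨h1, h2⟩
    exact ⟨(Dr L).smul_mem _ h1, fun Y hY he => by
      rw [Matrix.smul_mul, trace_smul, h2 Y hY he, smul_zero]⟩

/-- Lines. -/
def Li (L : Submodule ℂ (Matrix B B ℂ)) (e : Matrix B B ℂ) : Prop := Mi L e ∧ trace e = 1

/-- Pure minimal idempotents: the ideal acting on `e` is simple. -/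
def Pu (L : Submodule ℂ (Matrix B B ℂ)) (e : Matrix B B ℂ) : Prop :=
  Mi L e ∧ ¬ trace e = 1 ∧ ∀ J : Submodule ℂ (Matrix B B ℂ), J ≤ Dr L →
    (∀ X ∈ L, ∀ Y ∈ J, X * Y - Y * X ∈ J) → (∀ Y ∈ J, Y * e = 0) ∨ Ide L e ≤ J

/-- The normalized trace. -/
def fc (e X : Matrix B B ℂ) : ℂ := trace (X * e) / trace e

/-- The conditions on the element `u`: it fixes the invariants of degree two and four and satisfies
the relations given by the determinants. -/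
structure FixU (Om : Matrix B B ℂ) (L : Submodule ℂ (Matrix B B ℂ)) (u : USp Om) : Prop where
  f2 : ∀ x ∈ InvL L (Fin 2), kp (Fin 2) (mt u) *ᵥ x = x
  f4 : ∀ x ∈ InvL L (Fin 4), kp (Fin 4) (mt u) *ᵥ x = x
  dt : ∀ (s : ℕ) (e : Fin s → Matrix B B ℂ), (∀ i, Mi L (e i)) →
    (∀ X ∈ L, ∑ i, trace (X * e i) = 0) → ∏ i, det (mt u * e i + 1 - e i) = 1

/-- `u` acts on `e` as an element of the group of the ideal belonging to `e`, up to a scalar. -/
def Nor (Om : Matrix B B ℂ) (L : Submodule ℂ (Matrix B B ℂ)) (u : USp Om) (e : Matrix B B ℂ) : Prop :=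
  ∃ k ∈ KK Om L, (∀ e', Mi L e' → (∀ X ∈ Ide L e, X * e' = 0) → mt k * e' = e') ∧
    ∃ c : ℂ, mt (k⁻¹ * u) * e = c • e

/-- The relations for the class of `e₀` among the members of `T`. -/
def Cls (Om : Matrix B B ℂ) (L : Submodule ℂ (Matrix B B ℂ)) (T : Set (Matrix B B ℂ))
    (e₀ : Matrix B B ℂ) : Prop :=
  ∀ v : USp Om, FixU Om L v → ∀ (κ : Type) [Fintype κ] [DecidableEq κ] (e : κ → Matrix B B ℂ)
    (lam : κ → ℂ), (∀ k, e k ∈ T ∧ Ide L (e k) = Ide L e₀ ∧ mt v * e k = lam k • e k) →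
    ∀ x : (κ → B) → ℂ, x ≠ 0 → kpp e *ᵥ x = x → (∀ X ∈ Ide L e₀, dm κ X *ᵥ x = 0) →
    ∃ (n : ℕ) (F : Fin n → Matrix B B ℂ) (mu : Fin n → ℂ),
      (∀ j, Li L (F j) ∧ mt v * F j = mu j • F j) ∧
      (∀ X ∈ L, ∑ k, fc (e k) X + ∑ j, fc (F j) X = 0) ∧ (∏ k, lam k) * ∏ j, mu j = 1

/-- The involutions `Dm σ` generate `L`, and the sign functions which depend on the traces are given
by lines. -/
structure Hull (L : Submodule ℂ (Matrix B B ℂ)) (Dm : (ℂ ≃+* ℂ) → Matrix B B ℂ) : Prop where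
  mem : ∀ σ, Dm σ ∈ L
  sq : ∀ σ, Dm σ * Dm σ = 1
  gen : ∀ M : Submodule ℂ (Matrix B B ℂ), (∀ σ, Dm σ ∈ M) →
    (∀ X ∈ M, ∀ Y ∈ M, X * Y - Y * X ∈ M) → L ≤ M
  odd : ∀ σ, Dm (cj.trans σ) = -Dm σ
  one : ∃ e, Li L e
  hull : ∀ F : (ℂ ≃+* ℂ) → ℤ, (∀ σ, F σ = 1 ∨ F σ = -1) → (∀ σ, F (cj.trans σ) = -F σ) →
    (∀ σ τ, (∀ e, Mi L e → trace (Dm σ * e) = trace (Dm τ * e)) → F σ = F τ) →
    ∃ e, Li L e ∧ ∀ σ, Dm σ * e = (F σ : ℂ) • e

/-- The Lie algebra contains all matrices of trace zero of the corner of `e`. -/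
def Sl (L : Submodule ℂ (Matrix B B ℂ)) (e : Matrix B B ℂ) : Prop :=
  Mi L e ∧ ¬ trace e = 1 ∧ ∀ T : Matrix B B ℂ, e * T * e = T → trace T = 0 → ∃ X ∈ Dr L, X * e = T

end mat

/-- **G1.** Elements which act as scalars on the members of `T`. -/
def St_n1 : Prop := ∀ (B : Type) [Fintype B] [DecidableEq B] (Om : Matrix B B ℂ)
  (L : Submodule ℂ (Matrix B B ℂ)), IsOm Om → LD Om L → ∀ T : Set (Matrix B B ℂ),
  (∀ e ∈ T, Li L e ∨ Pu L e) → ∀ u : USp Om, FixU Om L u → (∀ e ∈ T, ¬ Li L e → Nor Om L u e) →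
  ∃ k ∈ KK Om L, ∀ e ∈ T, ∃ c : ℂ, mt (k⁻¹ * u) * e = c • e

/-- **G2.** The conditions are preserved by the group of `L`. -/
def St_kfix : Prop := ∀ (B : Type) [Fintype B] [DecidableEq B] (Om : Matrix B B ℂ)
  (L : Submodule ℂ (Matrix B B ℂ)), IsOm Om → LD Om L → ∀ u : USp Om, FixU Om L u →
  ∀ k ∈ KK Om L, FixU Om L (k⁻¹ * u)

/-- **G3.** Reduction to the classes. -/
def St_n2 : Prop := ∀ (B : Type) [Fintype B] [DecidableEq B] (Om : Matrix B B ℂ)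
  (L : Submodule ℂ (Matrix B B ℂ)), IsOm Om → LD Om L → ∀ T : Set (Matrix B B ℂ),
  (∀ e ∈ T, Li L e ∨ (Pu L e ∧ Cls Om L T e)) → ∀ v : USp Om, FixU Om L v →
  (∀ e ∈ T, ∃ c : ℂ, mt v * e = c • e) →
  ∀ (κ : Type) [Fintype κ] [DecidableEq κ] (e : κ → Matrix B B ℂ), (∀ k, e k ∈ T) →
  ∀ x ∈ InvL L κ, kpp e *ᵥ x = x → kp κ (mt v) *ᵥ x = x

/-- **G4.** The special linear case: the ideal is simple. -/
def St_slpu : Prop := ∀ (B : Type) [Fintype B] [DecidableEq B] (Om : Matrix B B ℂ)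
  (L : Submodule ℂ (Matrix B B ℂ)), IsOm Om → LD Om L → ∀ e, Sl L e → Pu L e

/-- **G5.** The special linear case: the group. -/
def St_slnor : Prop := ∀ (B : Type) [Fintype B] [DecidableEq B] (Om : Matrix B B ℂ)
  (L : Submodule ℂ (Matrix B B ℂ)), IsOm Om → LD Om L → ∀ u : USp Om, FixU Om L u →
  ∀ e, Sl L e → Nor Om L u e

/-- **G6.** The special linear case: linked idempotents. -/
def St_link : Prop := ∀ (B : Type) [Fintype B] [DecidableEq B] (Om : Matrix B B ℂ)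
  (L : Submodule ℂ (Matrix B B ℂ)), IsOm Om → LD Om L → ∀ e e', Sl L e → Sl L e' →
  Ide L e' = Ide L e → ∃ M : Matrix B B ℂ, M ≠ 0 ∧ e * M = M ∧ (∀ X ∈ Dr L, X * M = M * X) ∧
    (M * e' = M ∨ M * st Om e' = M)

/-- **G7.** Intertwiners for the derived algebra give relations with two lines. -/
def St_rel : Prop := ∀ (B : Type) [Fintype B] [DecidableEq B] (Om : Matrix B B ℂ)
  (L : Submodule ℂ (Matrix B B ℂ)), IsOm Om → LD Om L → ∀ Dm : (ℂ ≃+* ℂ) → Matrix B B ℂ,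
  Hull L Dm → ∀ v : USp Om, FixU Om L v → ∀ (e e' M : Matrix B B ℂ) (a a' : ℂ), Mi L e → Mi L e' →
  M ≠ 0 → e * M = M → M * e' = M → (∀ X ∈ Dr L, X * M = M * X) → mt v * e = a • e →
  mt v * e' = a' • e' → ∃ (F F' : Matrix B B ℂ) (b b' : ℂ), Li L F ∧ Li L F' ∧ mt v * F = b • F ∧
    mt v * F' = b' • F' ∧ (∀ X ∈ L, fc e X + fc F X + fc F' X = fc e' X) ∧ a * b * b' = a'

/-- **G8.** The determinant relation. -/
def St_dl : Prop := ∀ (B : Type) [Fintype B] [DecidableEq B] (Om : Matrix B B ℂ)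
  (L : Submodule ℂ (Matrix B B ℂ)), IsOm Om → LD Om L → ∀ Dm : (ℂ ≃+* ℂ) → Matrix B B ℂ,
  Hull L Dm → ∀ v : USp Om, FixU Om L v → ∀ (e : Matrix B B ℂ) (a : ℂ), Mi L e → mt v * e = a • e →
  ∃ (d : ℕ) (F : Fin d → Matrix B B ℂ) (b : Fin d → ℂ), trace e = d ∧
    (∀ j, Li L (F j) ∧ mt v * F j = b j • F j) ∧
    (∀ X ∈ L, (d : ℂ) * fc e X + ∑ j, fc (F j) X = 0) ∧ a ^ d * ∏ j, b j = 1

/-- **G9.** Counting in the special linear case: if the tensor `x` of the product of the ranges of the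
`e k` is killed by the ideal, and each `e k` or its adjoint (if `s k` is false) is linked to `e₀`, then
the number of the first minus the number of the second is divisible by the dimension. -/
def St_cnt : Prop := ∀ (B : Type) [Fintype B] [DecidableEq B] (Om : Matrix B B ℂ)
  (L : Submodule ℂ (Matrix B B ℂ)), IsOm Om → LD Om L → ∀ (e₀ : Matrix B B ℂ) (d : ℕ), Sl L e₀ →
  trace e₀ = d → ∀ (κ : Type) [Fintype κ] [DecidableEq κ] (e M : κ → Matrix B B ℂ) (s : κ → Bool),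
  (∀ k, Mi L (e k) ∧ M k ≠ 0 ∧ e₀ * M k = M k ∧ (∀ X ∈ Dr L, X * M k = M k * X) ∧
    M k * (if s k then e k else st Om (e k)) = M k) →
  ∀ x : (κ → B) → ℂ, x ≠ 0 → kpp e *ᵥ x = x → (∀ X ∈ Ide L e₀, dm κ X *ᵥ x = 0) →
  (d : ℤ) ∣ ∑ k, (if s k then (1 : ℤ) else -1)

end

end Pool.Agent.NH32
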