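import Mathlib
import Pool.Agent.NH32.WJ2A

/-!
# Central elements fix the invariants
-/

set_option linter.unusedSectionVars false

namespace Pool.Agent.NH32

open Matrix Module WJ2

noncomputable section

namespace WJ12

section st

variable {B : Type} [Fintype B] [DecidableEq B] {Om : Matrix B B ℂ}
  {L : Submodule ℂ (Matrix B B ℂ)}

theorem st_st (hO : IsOm Om) (M : Matrix B B ℂ) : st Om (st Om M) = M := by
  unfold st
  rw [transpose_neg, transpose_mul, transpose_mul, transpose_transpose, hO.T]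
  calc -(Om * -(-Om * (M * -Om)) * Om) = (Om * Om) * M * -(Om * Om) * -1 := by noncomm_ring
    _ = M := by rw [hO.sq]; noncomm_ring

theorem st_mul (hO : IsOm Om) (M N : Matrix B B ℂ) : st Om (M * N) = st Om N * st Om M := by
  unfold st
  rw [transpose_mul]
  calc -(Om * (Nᵀ * Mᵀ) * Om) = (Om * Nᵀ) * (-1) * (Mᵀ * Om) := by noncomm_ring
    _ = (Om * Nᵀ) * (Om * Om) * (Mᵀ * Om) := by rw [hO.sq]
    _ = _ := by noncomm_ring

theorem st_add (M N : Matrix B B ℂ) : st Om (M + N) = st Om M + st Om N := by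
  unfold st
  rw [transpose_add]
  noncomm_ring

theorem st_smul (c : ℂ) (M : Matrix B B ℂ) : st Om (c • M) = c • st Om M := by
  unfold st
  rw [transpose_smul, Matrix.mul_smul, Matrix.smul_mul, smul_neg]

theorem st_neg (M : Matrix B B ℂ) : st Om (-M) = -st Om M := by
  unfold st
  rw [transpose_neg]
  noncomm_ring

theorem st_sub (M N : Matrix B B ℂ) : st Om (M - N) = st Om M - st Om N := by
  rw [sub_eq_add_neg, st_add, st_neg, ← sub_eq_add_neg]

theorem trace_st (hO : IsOm Om) (M : Matrix B B ℂ) : trace (st Om M) = trace M := by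
  unfold st
  rw [trace_neg, trace_mul_comm, ← mul_assoc, hO.sq, neg_one_mul, trace_neg, trace_transpose,
    neg_neg]

theorem st_L (hO : IsOm Om) (hL : LD Om L) {X : Matrix B B ℂ} (hX : X ∈ L) :
    st Om X = -X := by
  have h1 : Xᵀ * Om = -(Om * X) := eq_neg_of_add_eq_zero_left (hL.sp X hX)
  unfold st
  rw [mul_assoc, h1, mul_neg, ← mul_assoc, hO.sq, neg_one_mul, neg_neg]

theorem st_CM (hO : IsOm Om) (hL : LD Om L) {M : Matrix B B ℂ} (hM : M ∈ CM L) :
    st Om M ∈ CM L := by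
  intro X hX
  have h1 := congrArg (st Om) (hM X hX)
  rw [st_mul hO, st_mul hO, st_L hO hL hX, mul_neg, neg_mul, neg_inj] at h1
  exact h1.symm

theorem st_ZM (hO : IsOm Om) (hL : LD Om L) {M : Matrix B B ℂ} (hM : M ∈ ZM L) :
    st Om M ∈ ZM L := by
  refine ⟨st_CM hO hL hM.1, fun N hN => ?_⟩
  have h1 := congrArg (st Om) (hM.2 _ (st_CM hO hL hN))
  rw [st_mul hO, st_mul hO, st_st hO] at h1
  exact h1.symm

theorem st_InB (hO : IsOm Om) (hL : LD Om L) {X : Matrix B B ℂ} (hX : InB L X) :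
    InB L (st Om X) := by
  intro M hM
  have h1 := congrArg (st Om) (hX _ (st_CM hO hL hM))
  rw [st_mul hO, st_mul hO, st_st hO] at h1
  exact h1.symm

theorem st_Mz (hO : IsOm Om) (hL : LD Om L) {E : Matrix B B ℂ} (hE : Mz L E) :
    Mz L (st Om E) := by
  refine ⟨st_ZM hO hL hE.1, ?_, ?_, fun z hz => ?_⟩
  · rw [← st_mul hO, hE.2.1]
  · intro h
    apply hE.2.2.1
    rw [← st_st hO E, h]
    unfold st
    simp
  · obtain ⟨c, hc⟩ := hE.2.2.2 _ (st_ZM hO hL hz)
    refine ⟨c, ?_⟩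
    have h1 := congrArg (st Om) hc
    rw [st_mul hO, st_st hO, st_smul] at h1
    rw [← h1]
    exact ZM_comm hz (st_ZM hO hL hE.1)

end st

end WJ12

open WJ12

/-- **J12.** -/
theorem fx_of (h1 : St_dec) (h2 : St_mu) : St_fx := by
  classical
  intro B _ _ Om L hO hL hLf v hv hvE 𝓔 h𝓔 H κ _ _ x hx
  obtain ⟨s, E, hE, hEE, hsum, hEh, huniq, hsp⟩ := h1 B L hL.adj
  have hwE : ∀ (w : Fin s → ℂ) i, (∑ j, w j • E j) * E i = w i • E i := by
    intro w i
    rw [Finset.sum_mul, Finset.sum_eq_single i]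
    · rw [Matrix.smul_mul, (hE i).2.1]
    · intro j _ hj
      rw [Matrix.smul_mul, hEE j i hj, smul_zero]
    · intro h; exact absurd (Finset.mem_univ _) h
  have hE0 : ∀ i, E i ≠ 0 := fun i => (hE i).2.2.1
  have hEinj : Function.Injective E := by
    intro i j hij
    by_contra hne
    apply hE0 i
    rw [← (hE i).2.1]
    nth_rewrite 2 [hij]
    exact hEE i j hne
  have hcan : ∀ i (a b : ℂ), a • E i = b • E i → a = b := fun i a b h =>
    smul_left_injective ℂ (hE0 i) h
  choose σ hσ using fun i => huniq (st Om (E i)) (st_Mz hO hL (hE i))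
  have hσσ : ∀ i, σ (σ i) = i := fun i => hEinj (by rw [← hσ, ← hσ, st_st hO])
  obtain ⟨c, hc⟩ := hsp (mt v) hv
  have hcE : ∀ i, mt v * E i = c i • E i := fun i => by rw [hc, hwE]
  have hstw : ∀ w ∈ ZM L, ∀ i (a : ℂ), w * E i = a • E i → st Om w * E (σ i) = a • E (σ i) := by
    intro w hw i a h
    have h3 := congrArg (st Om) h
    rw [st_mul hO, st_smul, hσ] at h3
    rw [← h3]
    exact ZM_comm (st_ZM hO hL hw) (hE _).1
  have hcc : ∀ i, c i * c (σ i) = 1 := by
    intro i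
    have h3 : st Om (mt v) = mt v⁻¹ := by
      rw [hO.inv_eq]
      unfold st
      rw [neg_mul, neg_mul]
    have h4 := hstw _ hv i _ (hcE i)
    rw [h3] at h4
    apply hcan (σ i)
    rw [mul_comm, mul_smul, ← h4, ← Matrix.mul_smul, ← hcE (σ i), ← mul_assoc, mt_inv_mul, one_mul,
      one_smul]
  have hfix : ∀ i, σ i = i → c i = 1 := by
    intro i hi
    have h3 := hvE (E i) (hE i) (by rw [hσ, hi])
    rw [hcE] at h3
    exact hcan i _ _ (by rw [h3, one_smul])
  -- the components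
  have hdm : ∀ (w : Fin s → ℂ) (f : κ → Fin s),
      dm κ (∑ j, w j • E j) * kpp (fun k => E (f k)) =
        (∑ k, w (f k)) • kpp (fun k => E (f k)) := fun w f => dm_mul_kpp fun k => hwE w (f k)
  have hx' : kp κ (mt v) *ᵥ x =
      ∑ f : κ → Fin s, (∏ k, c (f k)) • (kpp (fun k => E (f k)) *ᵥ x) := by
    conv_lhs => rw [← one_mulVec x, ← sum_kpp (κ := κ) hsum, sum_mulVec, mulVec_sum]
    refine Finset.sum_congr rfl fun f _ => ?_
    rw [mulVec_mulVec, kp, kpp_mul, ← smul_mulVec, ← kpp_smul]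
    congr 2
    funext k
    exact hcE (f k)
  have hx'' : x = ∑ f : κ → Fin s, kpp (fun k => E (f k)) *ᵥ x := by
    conv_lhs => rw [← one_mulVec x, ← sum_kpp (κ := κ) hsum, sum_mulVec]
  rw [hx']
  conv_rhs => rw [hx'']
  refine Finset.sum_congr rfl fun f _ => ?_
  by_cases hf : kpp (fun k => E (f k)) *ᵥ x = 0
  · rw [hf, smul_zero]
  suffices hp : ∏ k, c (f k) = 1 by rw [hp, one_smul]
  have hyL : ∀ X ∈ L, dm κ X *ᵥ (kpp (fun k => E (f k)) *ᵥ x) = 0 := by
    intro X hX
    rw [mulVec_mulVec, dm_comm_kpp (fun k => L_comm hX (hE (f k)).1), ← mulVec_mulVec, hx X hX,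
      mulVec_zero]
  have key : ∀ w : Fin s → ℂ, (∑ j, w j • E j) ∈ L → ∑ k, w (f k) = 0 := by
    intro w hw
    have h1 := hyL _ hw
    rw [mulVec_mulVec, hdm, smul_mulVec] at h1
    exact (smul_eq_zero.1 h1).resolve_right hf
  obtain ⟨y, hy⟩ : ∃ y, y = kpp (fun k => E (f k)) *ᵥ x := ⟨_, rfl⟩
  obtain ⟨n, hn⟩ : ∃ n : Fin s → ℕ, ∀ i, n i = (Finset.univ.filter fun k => f k = i).card :=
    ⟨_, fun _ => rfl⟩
  have hprod : ∏ k, c (f k) = ∏ i, c i ^ n i := by
    rw [← Finset.prod_fiberwise Finset.univ f (fun k => c (f k))]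
    refine Finset.prod_congr rfl fun i _ => ?_
    rw [hn, ← Finset.prod_const]
    exact Finset.prod_congr rfl fun k hk => by rw [(Finset.mem_filter.1 hk).2]
  have hsumn : ∀ w : Fin s → ℂ, ∑ k, w (f k) = ∑ i, (n i : ℂ) * w i := by
    intro w
    rw [← Finset.sum_fiberwise Finset.univ f (fun k => w (f k))]
    refine Finset.sum_congr rfl fun i _ => ?_
    rw [hn, ← nsmul_eq_mul, ← Finset.sum_const]
    exact Finset.sum_congr rfl fun k hk => by rw [(Finset.mem_filter.1 hk).2]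
  choose d m ε hd hm hεB hεmul hεsum hεH hεspan hεtr hεe using fun i => h2 B L hL.adj (E i) (hE i)
  have htrE : ∀ i, trace (E i) = d i * m i := by
    intro i
    rw [← hεsum i, trace_sum, Finset.sum_congr rfl fun j _ => hεtr i j, Finset.sum_const,
      Finset.card_univ, Fintype.card_fin, nsmul_eq_mul]
  have hN : ∀ i, ∃ N : ℕ, N * d i = n i - n (σ i) := by
    intro i
    by_cases hi : σ i = i
    · exact ⟨0, by rw [hi, zero_mul, Nat.sub_self]⟩
    obtain ⟨p, hp⟩ : ∃ p, p = ε i ⟨0, hd i⟩ ⟨0, hd i⟩ := ⟨_, rfl⟩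
    have hpp : p * p = p := by rw [hp, hεmul, if_pos rfl]
    have hpE : p * E i = p := by
      rw [hp, ← hεsum i, Finset.mul_sum, Finset.sum_eq_single ⟨0, hd i⟩]
      · rw [hεmul, if_pos rfl]
      · intro j _ hj
        rw [hεmul, if_neg (Ne.symm hj)]
      · intro h; exact absurd (Finset.mem_univ _) h
    have hEp : E i * p = p := by
      rw [hp, ← hεsum i, Finset.sum_mul, Finset.sum_eq_single ⟨0, hd i⟩]
      · rw [hεmul, if_pos rfl]
      · intro j _ hj
        rw [hεmul, if_neg hj]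
      · intro h; exact absurd (Finset.mem_univ _) h
    obtain ⟨p', hp'⟩ : ∃ p', p' = st Om p := ⟨_, rfl⟩
    have hpp' : p' * p' = p' := by rw [hp', ← st_mul hO, hpp]
    have hpE' : p' * E (σ i) = p' := by rw [hp', ← hσ, ← st_mul hO, hEp]
    have hEp' : E (σ i) * p' = p' := by rw [hp', ← hσ, ← st_mul hO, hpE]
    have h01 : p * p' = 0 := by
      rw [← hpE, ← hEp', mul_assoc, ← mul_assoc (E i), hEE i (σ i) (Ne.symm hi), zero_mul, mul_zero]
    have h10 : p' * p = 0 := by
      rw [← hpE', ← hEp, mul_assoc, ← mul_assoc (E (σ i)), hEE (σ i) i hi, zero_mul, mul_zero]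
    have hdi : (d i : ℂ) ≠ 0 := Nat.cast_ne_zero.2 (hd i).ne'
    obtain ⟨P, hP⟩ : ∃ P, P = p - (1 / (d i : ℂ)) • E i := ⟨_, rfl⟩
    have hPB : InB L P := by
      intro M hM
      rw [hP, sub_mul, mul_sub, hp, hεB i _ _ M hM, Matrix.smul_mul, Matrix.mul_smul,
        (hE i).1.2 M hM]
    have hPM : ∀ M ∈ ZM L, trace (P * M) = 0 := by
      intro M hM
      obtain ⟨a, ha⟩ := (hE i).2.2.2 M hM
      have h3 : P * M = a • P := by
        have h4 : P = P * E i := by
          rw [hP, sub_mul, hpE, Matrix.smul_mul, (hE i).2.1]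
        calc P * M = P * (E i * M) := by rw [← mul_assoc, ← h4]
          _ = P * (M * E i) := by rw [ZM_comm (hE i).1 hM]
          _ = a • P := by rw [ha, Matrix.mul_smul, ← h4]
      rw [h3, trace_smul, hP, trace_sub, trace_smul, htrE, hp, hεtr, smul_eq_mul, smul_eq_mul]
      field_simp
      ring
    obtain ⟨X, hX⟩ : ∃ X, X = P - st Om P := ⟨_, rfl⟩
    have hXL : X ∈ L := by
      apply hLf
      refine ⟨?_, ?_, fun M hM => ?_⟩
      · rw [hX, st_sub, st_st hO, neg_sub]
      · intro M hM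
        rw [hX, sub_mul, mul_sub, hPB M hM, st_InB hO hL hPB M hM]
      · have h3 : trace (st Om P * M) = 0 := by
          rw [← trace_st hO, st_mul hO, st_st hO, trace_mul_comm]
          exact hPM _ (st_ZM hO hL hM)
        rw [hX, sub_mul, trace_sub, hPM M hM, h3, sub_zero]
    have hXe : X = (p - p') - (1 / (d i : ℂ)) • (E i - E (σ i)) := by
      rw [hX, hP, st_sub, st_smul, hσ, ← hp']
      module
    have h3 := hyL X hXL
    have h4 : dm κ (E i - E (σ i)) * kpp (fun k => E (f k)) =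
        ((n i : ℂ) - n (σ i)) • kpp (fun k => E (f k)) := by
      have h5 := dm_mul_kpp (X := E i - E (σ i)) (M := fun k => E (f k))
        (c := fun k => (if f k = i then (1 : ℂ) else 0) - if f k = σ i then (1 : ℂ) else 0)
        (fun k => by
          have h6 : ∀ j, E j * E (f k) = (if f k = j then (1 : ℂ) else 0) • E (f k) := by
            intro j
            by_cases h : f k = j
            · rw [if_pos h, one_smul, ← h, (hE _).2.1]
            · rw [if_neg h, zero_smul, hEE _ _ (Ne.symm h)]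
          rw [sub_mul, h6, h6, sub_smul])
      rw [h5, Finset.sum_sub_distrib, Finset.sum_boole, Finset.sum_boole, hn, hn]
    have h5 : dm κ (p - p') *ᵥ y = (((n i : ℂ) - n (σ i)) / d i) • y := by
      rw [← hy, hXe, dm_sub, dm_smul, sub_mulVec, smul_mulVec, sub_eq_zero] at h3
      rw [h3, hy, mulVec_mulVec, h4, smul_mulVec, smul_smul]
      congr 1
      ring
    -- the eigenvalues are integers
    obtain ⟨Q, hQ⟩ : ∃ Q : Fin 3 → Matrix B B ℂ, Q = ![p, p', 1 - p - p'] := ⟨_, rfl⟩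
    obtain ⟨q, hq⟩ : ∃ q : Fin 3 → ℤ, q = ![1, -1, 0] := ⟨_, rfl⟩
    have hQs : ∑ i, Q i = 1 := by
      rw [hQ, Fin.sum_univ_three]
      simp
    have hQ1 : ∀ j, (p - p') * Q j = (q j : ℂ) • Q j := by
      intro j
      rw [hQ, hq]
      fin_cases j
      · simp [sub_mul, hpp, h10]
      · simp [sub_mul, hpp', h01]
      · simp [sub_mul, mul_sub, hpp, hpp', h01, h10]
    have hQ2 : ∀ j, (p - p') * Q j = Q j * (p - p') := by
      intro j
      rw [hQ]
      fin_cases j
      · simp [sub_mul, mul_sub, hpp, h10, h01]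
      · simp [sub_mul, mul_sub, hpp', h01, h10]
      · simp [sub_mul, mul_sub, hpp, hpp', h01, h10]
    have hy0 : y ≠ 0 := by rw [hy]; exact hf
    obtain ⟨g, hg⟩ := exists_kpp_ne hQs hy0
    have h6 : (((n i : ℂ) - n (σ i)) / d i) • (kpp (fun k => Q (g k)) *ᵥ y) =
        (∑ k, (q (g k) : ℂ)) • (kpp (fun k => Q (g k)) *ᵥ y) := by
      rw [← mulVec_smul, ← h5, mulVec_mulVec, ← dm_comm_kpp (fun k => hQ2 (g k)),
        dm_mul_kpp (fun k => hQ1 (g k)), smul_mulVec]
    have h7 : ((n i : ℂ) - n (σ i)) / d i = ∑ k, (q (g k) : ℂ) := smul_left_injective ℂ hg h6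
    obtain ⟨z, hz⟩ : ∃ z : ℤ, z = ∑ k, q (g k) := ⟨_, rfl⟩
    have h8 : (n i : ℤ) - n (σ i) = z * d i := by
      have h9 : (n i : ℂ) - n (σ i) = (z : ℂ) * d i := by
        rw [div_eq_iff hdi] at h7
        rw [h7, hz]
        push_cast
        rfl
      exact_mod_cast h9
    have hdpos : (0 : ℤ) < d i := by exact_mod_cast hd i
    rcases le_or_gt 0 z with hz0 | hz0
    · obtain ⟨N, rfl⟩ := Int.eq_ofNat_of_zero_le hz0
      refine ⟨N, ?_⟩
      have h9 : ((N * d i : ℕ) : ℤ) = (n i : ℤ) - n (σ i) := by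
        rw [h8]
        push_cast
        rfl
      omega
    · refine ⟨0, ?_⟩
      have h9 : z * d i < 0 := mul_neg_of_neg_of_pos hz0 hdpos
      rw [← h8] at h9
      omega
  choose N hN using hN
  choose e he𝓔 heM using fun i => h𝓔 (E i) (hE i)
  have hEe : ∀ i, E i * e i = e i := fun i => (heM i).2.2.2.1
  have hetr : ∀ i, trace (e i) = d i := by
    intro i
    rw [← hEe i, ← hεsum i, Finset.sum_mul, trace_sum,
      Finset.sum_congr rfl fun j _ => hεe i (e i) (heM i) j j]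
    simp
  have hwe : ∀ w ∈ ZM L, ∀ i (a : ℂ), w * E i = a • E i → w * e i = a • e i := by
    intro w _ i a h
    rw [← hEe i, ← mul_assoc, h, Matrix.smul_mul]
  obtain ⟨nn, ⟨q⟩⟩ : ∃ nn : ℕ, Nonempty ((Σ i : Fin s, Fin (N i)) ≃ Fin nn) :=
    ⟨_, ⟨Fintype.equivFin _⟩⟩
  have hfam : ∀ X : Matrix B B ℂ, ∑ i, trace (X * e (q.symm i).1) =
      ∑ i, (N i : ℂ) * trace (X * e i) := by
    intro X
    rw [Equiv.sum_comp q.symm (fun p : Σ i : Fin s, Fin (N i) => trace (X * e p.1)),
      Fintype.sum_sigma]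
    refine Finset.sum_congr rfl fun k _ => ?_
    dsimp only
    rw [Finset.sum_const, Finset.card_univ, Fintype.card_fin, nsmul_eq_mul]
  let σe : Fin s ≃ Fin s := ⟨σ, σ, hσσ, hσσ⟩
  have hmin : ∀ i, min (n i) (n (σ i)) + (n i - n (σ i)) = n i := fun i => by omega
  have h3 := H nn (fun i => e (q.symm i).1) (fun i => he𝓔 _) (by
    intro X hX
    rw [hfam]
    obtain ⟨X', X'', hXX, hX'', hXZ, htr'⟩ := dec_L hL hX
    obtain ⟨w, hw⟩ := hsp X'' hXZ
    have h4 := key w (hw ▸ hX'')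
    have hwi : ∀ i, X'' * E i = w i • E i := fun i => by rw [hw, hwE]
    have hws : ∀ i, w (σ i) = -w i := by
      intro i
      have h5 := hstw _ hXZ i _ (hwi i)
      rw [st_L hO hL hX'', neg_mul, hwi, ← neg_smul] at h5
      have := hcan _ _ _ h5
      rw [← this, neg_neg]
    have h5 : ∀ i, (N i : ℂ) * trace (X * e i) = ((n i - n (σ i) : ℕ) : ℂ) * w i := by
      intro i
      rw [hXX, add_mul, trace_add, htr' _ (heM i).1, zero_add, hwe _ hXZ i _ (hwi i), trace_smul,
        hetr, smul_eq_mul, ← hN i]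
      push_cast
      ring
    rw [Finset.sum_congr rfl fun i _ => h5 i]
    rw [hsumn] at h4
    have h6 : ∑ i, (n i : ℂ) * w i = ∑ i, ((min (n i) (n (σ i)) : ℕ) : ℂ) * w i +
        ∑ i, ((n i - n (σ i) : ℕ) : ℂ) * w i := by
      rw [← Finset.sum_add_distrib]
      refine Finset.sum_congr rfl fun i _ => ?_
      rw [← add_mul, ← Nat.cast_add, hmin]
    have h7 : ∑ i, ((min (n i) (n (σ i)) : ℕ) : ℂ) * w i = 0 := by
      have h8 : ∑ i, ((min (n i) (n (σ i)) : ℕ) : ℂ) * w i =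
          -∑ i, ((min (n i) (n (σ i)) : ℕ) : ℂ) * w i := by
        conv_lhs => rw [← Equiv.sum_comp σe]
        rw [← Finset.sum_neg_distrib]
        refine Finset.sum_congr rfl fun i _ => ?_
        change ((min (n (σ i)) (n (σ (σ i))) : ℕ) : ℂ) * w (σ i) = _
        rw [hσσ, hws, min_comm, mul_neg]
      exact self_eq_neg.1 h8
    rw [h6, h7, zero_add] at h4
    exact h4)
  have hdet : ∀ i, det (mt v * e i + 1 - e i) = c i ^ d i := by
    intro i
    rw [hwe _ hv i _ (hcE i)]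
    have h4 : c i • e i + 1 - e i = 1 + (c i - 1) • e i := by module
    rw [h4]
    exact idem_trace' (heM i).2.1 (hetr i) (c i)
  have h4 : ∏ i, c i ^ (n i - n (σ i)) = 1 := by
    rw [← h3, Equiv.prod_comp q.symm (fun p : Σ i : Fin s, Fin (N i) =>
      det (mt v * e p.1 + 1 - e p.1)), Fintype.prod_sigma]
    refine Finset.prod_congr rfl fun i _ => ?_
    dsimp only
    rw [Finset.prod_const, Finset.card_univ, Fintype.card_fin, hdet, ← pow_mul, mul_comm, hN]
  rw [hprod]
  have h5 : ∏ i, c i ^ n i = (∏ i, c i ^ min (n i) (n (σ i))) * ∏ i, c i ^ (n i - n (σ i)) := by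
    rw [← Finset.prod_mul_distrib]
    refine Finset.prod_congr rfl fun i _ => ?_
    rw [← pow_add, hmin]
  rw [h5, h4, mul_one]
  refine Finset.prod_involution (fun i _ => σ i) (fun i _ => ?_) (fun i _ hi => ?_)
    (fun i _ => Finset.mem_univ _) (fun i _ => hσσ i)
  · rw [hσσ, min_comm (n (σ i)), ← mul_pow, hcc, one_pow]
  · intro h
    apply hi
    rw [hfix i h, one_pow]

end

end Pool.Agent.NH32
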