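import Mathlib
import Pool.Agent.NH32.GsA
import Pool.Agent.NH32.WJ12

/-!
# G3: reduction to the classes (helper80)
-/

set_option linter.unusedSectionVars false

namespace Pool.Agent.NH32

open Matrix Module

noncomputable section

namespace GJ3

section slice

variable {B : Type} [Fintype B] [DecidableEq B] {κ : Type} [Fintype κ] [DecidableEq κ]
  (P : κ → Prop) [DecidablePred P]

/-- Merging two families of indices. -/
def mg (I : {k // P k} → B) (J : {k // ¬ P k} → B) : κ → B :=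
  fun k => if h : P k then I ⟨k, h⟩ else J ⟨k, h⟩

theorem mg_pos (I : {k // P k} → B) (J : {k // ¬ P k} → B) (k : {k // P k}) :
    mg P I J k = I k := dif_pos k.2

theorem mg_neg (I : {k // P k} → B) (J : {k // ¬ P k} → B) (k : {k // ¬ P k}) :
    mg P I J k = J k := dif_neg k.2

/-- Slices of a tensor. -/
def slc (x : (κ → B) → ℂ) (J : {k // ¬ P k} → B) : ({k // P k} → B) → ℂ := fun I => x (mg P I J)

theorem kpp_slice {M : κ → Matrix B B ℂ} (hM : ∀ k, ¬ P k → M k = 1) (x : (κ → B) → ℂ)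
    (I : {k // P k} → B) (J : {k // ¬ P k} → B) :
    (kpp M *ᵥ x) (mg P I J) = (kpp (fun k : {k // P k} => M k) *ᵥ slc P x J) I := by
  rw [mvA, mvA, ← (Equiv.piEquivPiSubtypeProd P (fun _ => B)).symm.sum_comp, Fintype.sum_prod_type]
  have e : ∀ (K : {k // P k} → B) (J' : {k // ¬ P k} → B),
      (Equiv.piEquivPiSubtypeProd P (fun _ => B)).symm (K, J') = mg P K J' := fun _ _ => rfl
  have e2 : ∀ (K : {k // P k} → B) (J' : {k // ¬ P k} → B), kpp M (mg P I J) (mg P K J') =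
      (∏ k : {k // P k}, M k (I k) (K k)) *
        ∏ k : {k // ¬ P k}, (1 : Matrix B B ℂ) (J k) (J' k) := by
    intro K J'
    rw [kpp_apply, ← Fintype.prod_subtype_mul_prod_subtype P]
    congr 1
    · exact Finset.prod_congr rfl fun k _ => by rw [mg_pos, mg_pos]
    · exact Finset.prod_congr rfl fun k _ => by rw [mg_neg, mg_neg, hM _ k.2]
  refine Finset.sum_congr rfl fun K _ => ?_
  rw [Finset.sum_eq_single J]
  · rw [e, e2, kpp_apply]
    have h1 : ∏ k : {k // ¬ P k}, (1 : Matrix B B ℂ) (J k) (J k) = 1 :=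
      Finset.prod_eq_one fun k _ => Matrix.one_apply_eq _
    rw [h1, mul_one]
    rfl
  · intro J' _ hJ'
    obtain ⟨k, hk⟩ := Function.ne_iff.1 hJ'
    have h1 : ∏ k : {k // ¬ P k}, (1 : Matrix B B ℂ) (J k) (J' k) = 0 :=
      Finset.prod_eq_zero (Finset.mem_univ k) (Matrix.one_apply_ne (Ne.symm hk))
    rw [e, e2, h1, mul_zero, zero_mul]
  · intro h
    exact absurd (Finset.mem_univ _) h

theorem slc_fix {e : κ → Matrix B B ℂ} (he : ∀ k, e k * e k = e k) {x : (κ → B) → ℂ}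
    (hx : kpp e *ᵥ x = x) (J : {k // ¬ P k} → B) :
    kpp (fun k : {k // P k} => e k) *ᵥ slc P x J = slc P x J := by
  obtain ⟨M, hM⟩ : ∃ M : κ → Matrix B B ℂ, ∀ k, M k = if P k then e k else 1 :=
    ⟨_, fun _ => rfl⟩
  have h1 : kpp M *ᵥ x = x := by
    conv_lhs => rw [← hx]
    rw [mulVec_mulVec, kpp_mul]
    have h2 : (fun k => M k * e k) = e := by
      funext k
      rw [hM]
      split_ifs
      · exact he k
      · exact one_mul _
    rw [h2, hx]
  have h3 : (fun k : {k // P k} => M k) = fun k : {k // P k} => e k := by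
    funext k
    rw [hM, if_pos k.2]
  funext I
  have h2 := kpp_slice P (M := M) (fun k hk => by rw [hM, if_neg hk]) x I J
  rw [h1, h3] at h2
  exact h2.symm

theorem dm_slice {e : κ → Matrix B B ℂ} {X : Matrix B B ℂ} (hX : ∀ k, ¬ P k → X * e k = 0)
    {x : (κ → B) → ℂ} (hx : kpp e *ᵥ x = x) (I : {k // P k} → B) (J : {k // ¬ P k} → B) :
    (dm κ X *ᵥ x) (mg P I J) = (dm {k // P k} X *ᵥ slc P x J) I := by
  unfold dm kd
  rw [sum_mulVec, sum_mulVec, Finset.sum_apply, Finset.sum_apply,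
    ← Fintype.sum_subtype_add_sum_subtype P]
  have h1 : ∑ k : {k // ¬ P k}, (kpp (Function.update (fun _ => (1 : Matrix B B ℂ)) (k : κ) X) *ᵥ x)
      (mg P I J) = 0 := by
    refine Finset.sum_eq_zero fun k _ => ?_
    have h2 : kpp (Function.update (fun _ => (1 : Matrix B B ℂ)) (k : κ) X) *ᵥ x = 0 := by
      conv_lhs => rw [← hx]
      rw [mulVec_mulVec, kpp_mul]
      have h3 : kpp (fun l => Function.update (fun _ => (1 : Matrix B B ℂ)) (k : κ) X l * e l) = 0 := by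
        ext K K'
        rw [kpp_apply, Matrix.zero_apply]
        refine Finset.prod_eq_zero (Finset.mem_univ (k : κ)) ?_
        rw [Function.update_self, hX _ k.2, Matrix.zero_apply]
      rw [h3, zero_mulVec]
    rw [h2, Pi.zero_apply]
  rw [h1, add_zero]
  refine Finset.sum_congr rfl fun k _ => ?_
  rw [kpp_slice P (fun l hl => by
    rw [Function.update_of_ne]
    rintro rfl
    exact hl k.2)]
  congr 3
  funext l
  by_cases hl : l = k
  · subst hl
    rw [Function.update_self, Function.update_self]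
  · rw [Function.update_of_ne hl, Function.update_of_ne (fun h => hl (Subtype.ext h))]

theorem slc_ne {x : (κ → B) → ℂ} (hx : x ≠ 0) : ∃ J : {k // ¬ P k} → B, slc P x J ≠ 0 := by
  obtain ⟨K, hK⟩ := Function.ne_iff.1 hx
  refine ⟨fun k => K k, fun h => hK ?_⟩
  have h1 := congrFun h (fun k => K k)
  have h2 : mg P (fun k => K k) (fun k => K k) = K := by
    funext k
    unfold mg
    split_ifs <;> rfl
  unfold slc at h1
  rw [h2] at h1
  exact h1

end slice

section alg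

variable {B : Type} [Fintype B] [DecidableEq B] {Om : Matrix B B ℂ}
  {L : Submodule ℂ (Matrix B B ℂ)}

theorem br_Dr {X Y : Matrix B B ℂ} (hX : X ∈ L) (hY : Y ∈ L) : X * Y - Y * X ∈ Dr L :=
  Submodule.subset_span ⟨X, hX, Y, hY, rfl⟩

theorem Dr_le (hL : LD Om L) : Dr L ≤ L := by
  unfold Dr
  rw [Submodule.span_le]
  rintro _ ⟨X, hX, Y, hY, rfl⟩
  exact hL.br X hX Y hY

theorem Dr_adj (hL : LD Om L) {Z : Matrix B B ℂ} (hZ : Z ∈ Dr L) : Zᴴ ∈ Dr L := by
  unfold Dr at hZ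
  induction hZ using Submodule.span_induction with
  | mem Z h =>
    obtain ⟨A, hA, C, hC, rfl⟩ := h
    rw [conjTranspose_sub, conjTranspose_mul, conjTranspose_mul]
    exact br_Dr (hL.adj C hC) (hL.adj A hA)
  | zero => rw [conjTranspose_zero]; exact (Dr L).zero_mem
  | add a b _ _ ha hb => rw [conjTranspose_add]; exact (Dr L).add_mem ha hb
  | smul c a _ ha => rw [conjTranspose_smul]; exact (Dr L).smul_mem _ ha

theorem Dr_trace {X M : Matrix B B ℂ} (hX : X ∈ Dr L) (hM : M ∈ CM L) : trace (X * M) = 0 := by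
  unfold Dr at hX
  induction hX using Submodule.span_induction with
  | mem Z h =>
    obtain ⟨A, hA, C, hC, rfl⟩ := h
    rw [sub_mul, trace_sub, mul_assoc C A M, hM A hA, ← mul_assoc C M A, trace_mul_comm (C * M) A,
      ← mul_assoc A C M, mul_assoc A C M, sub_self]
  | zero => rw [zero_mul, trace_zero]
  | add a b _ _ ha hb => rw [add_mul, trace_add, ha, hb, add_zero]
  | smul c a _ ha => rw [Matrix.smul_mul, trace_smul, ha, smul_zero]

theorem Ide_ideal (hL : LD Om L) {e X Y : Matrix B B ℂ} (he : e ∈ CM L) (hX : X ∈ L)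
    (hY : Y ∈ Ide L e) : X * Y - Y * X ∈ Ide L e := by
  refine ⟨br_Dr hX (Dr_le hL hY.1), fun Z hZ hZe => ?_⟩
  have h1 : Z * X - X * Z ∈ Dr L := br_Dr (Dr_le hL hZ) hX
  have h2 : (Z * X - X * Z) * e = 0 := by
    rw [sub_mul, mul_assoc, he X hX, ← mul_assoc, hZe, zero_mul, mul_assoc, hZe, mul_zero, sub_self]
  have h3 := hY.2 _ h1 h2
  rw [← h3, sub_mul, mul_sub, trace_sub, trace_sub]
  congr 1
  · rw [mul_assoc, trace_mul_comm, mul_assoc]
  · rw [mul_assoc]

theorem Ide_zero (hL : LD Om L) {e Y : Matrix B B ℂ} (he : e ∈ CM L) (heH : eᴴ = e)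
    (hY : Y ∈ Ide L e) (h : Y * e = 0) : Y = 0 := by
  apply trace_self_eq_zero
  rw [trace_mul_comm]
  refine hY.2 _ (Dr_adj hL hY.1) ?_
  have h1 : e * Y = 0 := by rw [← he Y (Dr_le hL hY.1), h]
  have h2 := congrArg Matrix.conjTranspose h1
  rwa [conjTranspose_mul, heH, conjTranspose_zero] at h2

/-- Elements of the kernel. -/
def Nk (L : Submodule ℂ (Matrix B B ℂ)) (e : Matrix B B ℂ) : Submodule ℂ (Matrix B B ℂ) where
  carrier := {Y | Y ∈ Dr L ∧ Y * e = 0}
  add_mem' := by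
    rintro X Y ⟨h1, h2⟩ ⟨h3, h4⟩
    exact ⟨(Dr L).add_mem h1 h3, by rw [add_mul, h2, h4, add_zero]⟩
  zero_mem' := ⟨(Dr L).zero_mem, by rw [zero_mul]⟩
  smul_mem' := by
    rintro c X ⟨h1, h2⟩
    exact ⟨(Dr L).smul_mem _ h1, by rw [Matrix.smul_mul, h2, smul_zero]⟩

theorem Nk_adj (hL : LD Om L) {e Y : Matrix B B ℂ} (he : e ∈ CM L) (heH : eᴴ = e)
    (hY : Y ∈ Nk L e) : Yᴴ ∈ Nk L e := by
  refine ⟨Dr_adj hL hY.1, ?_⟩
  have h1 : e * Y = 0 := by rw [← he Y (Dr_le hL hY.1), hY.2]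
  have h2 := congrArg Matrix.conjTranspose h1
  rwa [conjTranspose_mul, heH, conjTranspose_zero] at h2

/-- The decomposition of the derived algebra. -/
theorem Dr_dec (hL : LD Om L) {e X : Matrix B B ℂ} (he : e ∈ CM L) (heH : eᴴ = e)
    (hX : X ∈ Dr L) : ∃ s ∈ Nk L e, X - s ∈ Ide L e := by
  obtain ⟨s, hs, ho⟩ := exists_orth (Nk L e) X
  refine ⟨s, hs, (Dr L).sub_mem hX hs.1, fun Y hY hYe => ?_⟩
  have h1 := ho _ (Nk_adj hL he heH (Y := Y) ⟨hY, hYe⟩)
  rw [conjTranspose_conjTranspose, trace_mul_comm] at h1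
  exact h1

/-- Different classes kill each other. -/
theorem kill_pu (hL : LD Om L) {e e' : Matrix B B ℂ} (h1 : Pu L e) (h2 : Pu L e')
    (hne : Ide L e' ≠ Ide L e) {X : Matrix B B ℂ} (hX : X ∈ Ide L e) : X * e' = 0 := by
  have hm := h1.1
  have hm' := h2.1
  rcases h2.2.2 (Ide L e) (fun Y hY => hY.1) (fun A hA Y hY => Ide_ideal hL hm.1 hA hY) with h3 | h3
  · exact h3 X hX
  rcases h1.2.2 (Ide L e') (fun Y hY => hY.1) (fun A hA Y hY => Ide_ideal hL hm'.1 hA hY) with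
    h4 | h4
  · have h5 : ∀ Y ∈ Ide L e', Y = 0 := fun Y hY =>
      Ide_zero hL hm.1 hm.2.2.1 (h3 hY) (h4 Y hY)
    obtain ⟨s, hs, hs'⟩ := Dr_dec hL hm'.1 hm'.2.2.1 hX.1
    have h6 := h5 _ hs'
    rw [sub_eq_zero] at h6
    rw [h6]
    exact hs.2
  · exact absurd (le_antisymm h3 h4) hne

/-- The corner of an idempotent of rank one. -/
theorem corner {e : Matrix B B ℂ} (he : e * e = e) (ht : trace e = 1) (M : Matrix B B ℂ) :
    e * M * e = trace (M * e) • e := by
  obtain ⟨r, P, Q, h1, h2⟩ := WJ2.idem_fac he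
  have hr : r = 1 := by
    rw [← h1, trace_mul_comm, h2, trace_one, Fintype.card_fin] at ht
    exact_mod_cast ht
  subst hr
  have h3 : Q * M * P = trace (M * e) • (1 : Matrix (Fin 1) (Fin 1) ℂ) := by
    have h4 : trace (Q * M * P) = trace (M * e) := by
      rw [Matrix.mul_assoc, trace_mul_comm, Matrix.mul_assoc, h1]
    ext i j
    rw [Subsingleton.elim i 0, Subsingleton.elim j 0, Matrix.smul_apply, Matrix.one_apply_eq,
      smul_eq_mul, mul_one, ← h4, Matrix.trace_fin_one]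
  calc e * M * e = P * (Q * M * P) * Q := by
        rw [← h1]
        simp only [Matrix.mul_assoc]
    _ = _ := by rw [h3, Matrix.mul_smul, Matrix.mul_one, Matrix.smul_mul, h1]

theorem kill_li {e' X : Matrix B B ℂ} (hL : LD Om L) (h : Li L e') (hX : X ∈ Dr L) :
    X * e' = 0 := by
  obtain ⟨⟨h1, h2, h3, h4, h5⟩, ht⟩ := h
  have h6 : X * e' = e' * X * e' := by
    rw [← h1 X (Dr_le hL hX), mul_assoc, h2]
  rw [h6, corner h2 ht, Dr_trace hX h1, zero_smul]

theorem tr_ne {e : Matrix B B ℂ} (h : Mi L e) : trace e ≠ 0 := by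
  obtain ⟨r, h1, h2, -⟩ := WJ2.idem_trace h.2.1
  rw [h1]
  exact_mod_cast (h2 h.2.2.2.1).ne'

/-- Elements fixing the invariants of degree two commute with the commutant. -/
theorem comm_f2 (hO : IsOm Om) (hL : LD Om L) {v : USp Om}
    (hv : ∀ x ∈ InvL L (Fin 2), kp (Fin 2) (mt v) *ᵥ x = x) {M : Matrix B B ℂ} (hM : M ∈ CM L) :
    mt v * M = M * mt v := by
  obtain ⟨y, hy⟩ : ∃ y : (Fin 2 → B) → ℂ, ∀ I, y I = (M * Om) (I 0) (I 1) := ⟨_, fun _ => rfl⟩
  have hyL : y ∈ InvL L (Fin 2) := by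
    intro X hX
    funext I
    rw [dm_mulVec_apply, Fin.sum_univ_two, Pi.zero_apply]
    have h1 : ∑ j, X (I 0) j * y (Function.update I 0 j) = (X * (M * Om)) (I 0) (I 1) := by
      rw [Matrix.mul_apply]
      refine Finset.sum_congr rfl fun j _ => ?_
      rw [hy, Function.update_self, Function.update_of_ne (by decide)]
    have h2 : ∑ j, X (I 1) j * y (Function.update I 1 j) = ((M * Om) * Xᵀ) (I 0) (I 1) := by
      rw [Matrix.mul_apply]
      refine Finset.sum_congr rfl fun j _ => ?_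
      rw [hy, Function.update_self, Function.update_of_ne (by decide), transpose_apply, mul_comm]
    rw [h1, h2, ← Matrix.add_apply]
    have h3 : X * (M * Om) + M * Om * Xᵀ = 0 := by
      rw [mul_assoc M, hO.OXt (hL.sp X hX), ← mul_assoc, hM X hX]
      noncomm_ring
    rw [h3, Matrix.zero_apply]
  have h1 := hv y hyL
  have h2 : mt v * (M * Om) * (mt v)ᵀ = M * Om := by
    ext i j
    have h3 := congrFun h1 ![i, j]
    rw [mvA] at h3
    rw [← (finTwoArrowEquiv B).symm.sum_comp, Fintype.sum_prod_type] at h3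
    rw [hy] at h3
    have e0 : (![i, j] : Fin 2 → B) 0 = i := rfl
    have e1 : (![i, j] : Fin 2 → B) 1 = j := rfl
    rw [e0, e1] at h3
    rw [← h3, Matrix.mul_apply]
    simp only [Matrix.mul_apply (M := mt v), Finset.sum_mul]
    rw [Finset.sum_comm]
    refine Finset.sum_congr rfl fun a _ => Finset.sum_congr rfl fun b _ => ?_
    rw [kp_apply, Fin.prod_univ_two, hy, transpose_apply]
    have e2 : ((finTwoArrowEquiv B).symm (a, b)) 0 = a := rfl
    have e3 : ((finTwoArrowEquiv B).symm (a, b)) 1 = b := rfl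
    rw [e0, e1, e2, e3]
    ring
  have h4 : Om * (mt v)ᵀ = mt v⁻¹ * Om := by
    have h5 := hO.uOu v
    calc Om * (mt v)ᵀ = (mt v⁻¹ * mt v) * Om * (mt v)ᵀ := by rw [mt_inv_mul, one_mul]
      _ = mt v⁻¹ * (mt v * Om * (mt v)ᵀ) := by noncomm_ring
      _ = _ := by rw [h5]
  have h6 : mt v * M * mt v⁻¹ * Om = M * Om := by
    calc mt v * M * mt v⁻¹ * Om = mt v * M * (mt v⁻¹ * Om) := by noncomm_ring
      _ = mt v * M * (Om * (mt v)ᵀ) := by rw [h4]
      _ = mt v * (M * Om) * (mt v)ᵀ := by noncomm_ring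
      _ = _ := h2
  have h7 : mt v * M * mt v⁻¹ = M := by
    have h8 := congrArg (fun W => W * (-Om)) h6
    beta_reduce at h8
    rw [mul_assoc _ Om (-Om), mul_assoc _ Om (-Om), mul_neg, hO.sq, neg_neg, mul_one, mul_one] at h8
    exact h8
  calc mt v * M = mt v * M * (mt v⁻¹ * mt v) := by rw [mt_inv_mul, mul_one]
    _ = (mt v * M * mt v⁻¹) * mt v := by noncomm_ring
    _ = _ := by rw [h7]

theorem st_H (hO : IsOm Om) (M : Matrix B B ℂ) : (st Om M)ᴴ = st Om Mᴴ := by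
  have h1 : Omᴴ = -Om := by
    have h2 : Omᴴ = (Om.map (starRingEnd ℂ))ᵀ := rfl
    rw [h2, hO.real, hO.T]
  unfold st
  rw [conjTranspose_neg, conjTranspose_mul, conjTranspose_mul, h1]
  have h3 : (Mᵀ)ᴴ = (Mᴴ)ᵀ := rfl
  rw [h3]
  noncomm_ring

theorem Li_st (hO : IsOm Om) (hL : LD Om L) {F : Matrix B B ℂ} (h : Li L F) :
    Li L (st Om F) := by
  obtain ⟨⟨h1, h2, h3, h4, h5⟩, ht⟩ := h
  have ht' : trace (st Om F) = 1 := by rw [WJ12.trace_st hO, ht]
  refine ⟨⟨WJ12.st_CM hO hL h1, ?_, ?_, ?_, fun M hM => ?_⟩, ht'⟩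
  · rw [← WJ12.st_mul hO, h2]
  · rw [st_H hO, h3]
  · intro h0
    rw [h0, trace_zero] at ht'
    exact zero_ne_one ht'
  · obtain ⟨c, hc⟩ := h5 _ (WJ12.st_CM hO hL hM)
    refine ⟨c, ?_⟩
    have h6 := congrArg (st Om) hc
    rw [WJ12.st_mul hO, WJ12.st_mul hO, WJ12.st_st hO, WJ12.st_smul] at h6
    rw [mul_assoc]
    exact h6

theorem v_st (hO : IsOm Om) (hL : LD Om L) {v : USp Om}
    (hv : ∀ x ∈ InvL L (Fin 2), kp (Fin 2) (mt v) *ᵥ x = x) {F : Matrix B B ℂ} (h : Li L F)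
    {mu : ℂ} (hF : mt v * F = mu • F) : mu ≠ 0 ∧ mt v * st Om F = mu⁻¹ • st Om F := by
  have hmu : mu ≠ 0 := by
    rintro rfl
    rw [zero_smul] at hF
    have h1 : F = mt v⁻¹ * (mt v * F) := by rw [← mul_assoc, mt_inv_mul, one_mul]
    rw [hF, mul_zero] at h1
    exact h.1.2.2.2.1 h1
  refine ⟨hmu, ?_⟩
  have h1 : F * mt v = mu • F := by rw [← comm_f2 hO hL hv h.1.1, hF]
  have h2 := congrArg (st Om) h1
  have h3 : st Om (mt v) = mt v⁻¹ := by
    rw [hO.inv_eq]
    unfold st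
    noncomm_ring
  rw [WJ12.st_mul hO, WJ12.st_smul, h3] at h2
  have h4 : st Om F = mu • (mt v * st Om F) := by
    calc st Om F = mt v * (mt v⁻¹ * st Om F) := by rw [← mul_assoc, mt_mul_inv, one_mul]
      _ = _ := by rw [h2, Matrix.mul_smul]
  conv_rhs => rw [h4]
  rw [smul_smul, inv_mul_cancel₀ hmu, one_smul]

theorem fc_st (hO : IsOm Om) (hL : LD Om L) {F X : Matrix B B ℂ} (h : Li L F) (hX : X ∈ L) :
    trace (X * st Om F) = -fc F X := by
  have h1 : X * st Om F = -st Om (F * X) := by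
    rw [WJ12.st_mul hO, WJ12.st_L hO hL hX, neg_mul, neg_neg]
  rw [h1, trace_neg, WJ12.trace_st hO, trace_mul_comm]
  unfold fc
  rw [h.2, div_one]

theorem det_line {v : USp Om} {F : Matrix B B ℂ} (h : Li L F) {c : ℂ} (hc : mt v * F = c • F) :
    det (mt v * F + 1 - F) = c := by
  have h1 := WJ2.idem_trace' h.1.2.1 (r := 1) (by rw [h.2, Nat.cast_one]) c
  rw [pow_one] at h1
  rw [← h1, hc]
  congr 1
  rw [sub_smul, one_smul]
  abel

theorem dt_gen {u : USp Om} (h : FixU Om L u) {ι : Type} [Fintype ι] {e : ι → Matrix B B ℂ}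
    (h1 : ∀ i, Mi L (e i)) (h2 : ∀ X ∈ L, ∑ i, trace (X * e i) = 0) :
    ∏ i, det (mt u * e i + 1 - e i) = 1 := by
  have h3 := h.dt (Fintype.card ι) (fun i => e ((Fintype.equivFin ι).symm i)) (fun i => h1 _)
    (fun X hX => by
      rw [(Fintype.equivFin ι).symm.sum_comp (fun i => trace (X * e i))]
      exact h2 X hX)
  rwa [(Fintype.equivFin ι).symm.prod_comp (fun i => det (mt u * e i + 1 - e i))] at h3

/-- The sum of the normalized traces. -/
theorem sum_fc (hL : LD Om L) {κ : Type} [Fintype κ] [DecidableEq κ] {e : κ → Matrix B B ℂ}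
    (hMi : ∀ k, Mi L (e k)) {x : (κ → B) → ℂ} (hx0 : x ≠ 0) (hxL : x ∈ InvL L κ)
    (hex : kpp e *ᵥ x = x) {X : Matrix B B ℂ} (hX : X ∈ L) : ∑ k, fc (e k) X = 0 := by
  obtain ⟨X', X'', h1, h2, h3, h4⟩ := WJ2.dec_L hL hX
  have h5 : ∀ k, ∃ c : ℂ, X'' * e k = c • e k := by
    intro k
    obtain ⟨g1, g2, g3, g4, g5⟩ := hMi k
    obtain ⟨c, hc⟩ := g5 _ h3.1
    refine ⟨c, ?_⟩
    rw [← hc, ← g1 _ h2, mul_assoc, g2]
  choose c hc using h5
  have h6 : ∀ k, fc (e k) X = c k := by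
    intro k
    unfold fc
    rw [h1, add_mul, trace_add, h4 _ (hMi k).1, zero_add, hc, trace_smul, smul_eq_mul,
      mul_div_assoc, div_self (tr_ne (hMi k)), mul_one]
  rw [Finset.sum_congr rfl fun k _ => h6 k]
  have h7 := hxL X'' h2
  rw [← hex, mulVec_mulVec, WJ2.dm_mul_kpp hc, smul_mulVec, hex] at h7
  exact (smul_eq_zero.1 h7).resolve_right hx0

/-- The relations of one class. -/
theorem cls_step (hL : LD Om L) {T : Set (Matrix B B ℂ)}
    (hT : ∀ e ∈ T, Li L e ∨ (Pu L e ∧ Cls Om L T e)) {v : USp Om} (hv : FixU Om L v)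
    {κ : Type} [Fintype κ] [DecidableEq κ] {e : κ → Matrix B B ℂ} {lam : κ → ℂ}
    (he : ∀ k, e k ∈ T) (hlam : ∀ k, mt v * e k = lam k • e k) {x : (κ → B) → ℂ} (hx0 : x ≠ 0)
    (hxL : x ∈ InvL L κ) (hex : kpp e *ᵥ x = x) (P : κ → Prop) [DecidablePred P] (k₀ : κ)
    (hk₀ : ¬ Li L (e k₀)) (hP : ∀ k, P k ↔ ¬ Li L (e k) ∧ Ide L (e k) = Ide L (e k₀)) :
    ∃ (n : ℕ) (F : Fin n → Matrix B B ℂ) (mu : Fin n → ℂ),
      (∀ j, Li L (F j) ∧ mt v * F j = mu j • F j) ∧
      (∀ X ∈ L, ∑ k : {k // P k}, fc (e k) X + ∑ j, fc (F j) X = 0) ∧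
      (∏ k : {k // P k}, lam k) * ∏ j, mu j = 1 := by
  have hMi : ∀ k, Mi L (e k) := fun k => by
    rcases hT _ (he k) with h | h
    · exact h.1
    · exact h.1.1
  have hPu : ∀ k, ¬ Li L (e k) → Pu L (e k) := fun k hk => ((hT _ (he k)).resolve_left hk).1
  have hC : Cls Om L T (e k₀) := ((hT _ (he k₀)).resolve_left hk₀).2
  obtain ⟨J, hJ⟩ := slc_ne P hx0
  refine hC v hv {k // P k} (fun k => e k) (fun k => lam k)
    (fun k => ⟨he k, ((hP k).1 k.2).2, hlam k⟩) (slc P x J) hJ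
    (slc_fix P (fun k => (hMi k).2.1) hex J) fun X hX => ?_
  funext I
  rw [← dm_slice P (e := e) (X := X) (fun k hk => ?_) hex I J,
    hxL X (Dr_le hL hX.1), Pi.zero_apply, Pi.zero_apply]
  by_cases hl : Li L (e k)
  · exact kill_li hL hl hX.1
  · exact kill_pu hL (hPu k₀ hk₀) (hPu k hl) (fun h => hk ((hP k).2 ⟨hl, h⟩)) hX

end alg

end GJ3

open GJ3

/-- **G3.** -/
theorem n2_of : St_n2 := by
  classical
  intro B _ _ Om L hO hL T hT v hv hsc κ _ _ e he x hxL hex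
  by_cases hx0 : x = 0
  · rw [hx0, mulVec_zero]
  have hsc' : ∀ k, ∃ c : ℂ, mt v * e k = c • e k := fun k => hsc _ (he k)
  choose lam hlam using hsc'
  have h1 : kp κ (mt v) *ᵥ x = (∏ k, lam k) • x := by
    conv_lhs => rw [← hex]
    rw [mulVec_mulVec]
    unfold kp
    rw [kpp_mul, (funext hlam : (fun k => mt v * e k) = fun k => lam k • e k), WJ2.kpp_smul,
      smul_mulVec, hex]
  rw [h1]
  suffices h0 : ∏ k, lam k = 1 by rw [h0, one_smul]
  have hMi : ∀ k, Mi L (e k) := fun k => by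
    rcases hT _ (he k) with h | h
    · exact h.1
    · exact h.1.1
  -- the classes
  obtain ⟨t, ht⟩ : ∃ t : Finset (Submodule ℂ (Matrix B B ℂ)),
      t = (Finset.univ.filter fun k => ¬ Li L (e k)).image fun k => Ide L (e k) := ⟨_, rfl⟩
  have hcl : ∀ q : {q // q ∈ t}, ∃ (n : ℕ) (F : Fin n → Matrix B B ℂ) (mu : Fin n → ℂ),
      (∀ j, Li L (F j) ∧ mt v * F j = mu j • F j) ∧
      (∀ X ∈ L, ∑ k ∈ (Finset.univ.filter fun k => ¬ Li L (e k)).filter
        (fun k => Ide L (e k) = q), fc (e k) X + ∑ j, fc (F j) X = 0) ∧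
      (∏ k ∈ (Finset.univ.filter fun k => ¬ Li L (e k)).filter
        (fun k => Ide L (e k) = q), lam k) * ∏ j, mu j = 1 := by
    rintro ⟨q, hq⟩
    rw [ht, Finset.mem_image] at hq
    obtain ⟨k₀, hk₀, rfl⟩ := hq
    rw [Finset.mem_filter] at hk₀
    obtain ⟨P, hP⟩ : ∃ P : κ → Prop, ∀ k, P k ↔
      ¬ Li L (e k) ∧ Ide L (e k) = Ide L (e k₀) := ⟨_, fun _ => Iff.rfl⟩
    obtain ⟨n, F, mu, g1, g2, g3⟩ := cls_step hL hT hv he hlam hx0 hxL hex P k₀ hk₀.2 hP
    have hmem : ∀ k, k ∈ (Finset.univ.filter fun k => ¬ Li L (e k)).filter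
        (fun k => Ide L (e k) = Ide L (e k₀)) ↔ P k := by
      intro k
      rw [Finset.mem_filter, Finset.mem_filter, hP]
      simp
    refine ⟨n, F, mu, g1, fun X hX => ?_, ?_⟩
    · rw [Finset.sum_subtype _ hmem]
      exact g2 X hX
    · rw [Finset.prod_subtype _ hmem]
      exact g3
  choose n F mu g1 g2 g3 using hcl
  have hmt : ∀ k ∈ Finset.univ.filter fun k => ¬ Li L (e k), Ide L (e k) ∈ t := by
    intro k hk
    rw [ht]
    exact Finset.mem_image_of_mem _ hk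
  -- the family of lines
  let E : ({k // Li L (e k)} ⊕ (Σ q : {q // q ∈ t}, Fin (n q))) → Matrix B B ℂ :=
    Sum.elim (fun k => e k) fun p => st Om (F p.1 p.2)
  have hE1 : ∀ i, Mi L (E i) := by
    rintro (k | p)
    · exact k.2.1
    · exact (Li_st hO hL (g1 p.1 p.2).1).1
  have hE2 : ∀ X ∈ L, ∑ i, trace (X * E i) = 0 := by
    intro X hX
    rw [Fintype.sum_sum_type, Fintype.sum_sigma]
    have a1 : ∑ k : {k // Li L (e k)}, trace (X * E (Sum.inl k)) =
        ∑ k ∈ Finset.univ.filter (fun k => Li L (e k)), fc (e k) X := by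
      rw [Finset.sum_subtype (Finset.univ.filter (fun k => Li L (e k))) (p := fun k => Li L (e k))
        (by simp)]
      refine Finset.sum_congr rfl fun k _ => ?_
      unfold fc
      rw [k.2.2, div_one]
      rfl
    have a2 : ∀ q : {q // q ∈ t}, ∑ j, trace (X * E (Sum.inr ⟨q, j⟩)) =
        ∑ k ∈ (Finset.univ.filter fun k => ¬ Li L (e k)).filter
          (fun k => Ide L (e k) = q), fc (e k) X := by
      intro q
      have b1 : ∑ j, trace (X * E (Sum.inr ⟨q, j⟩)) = -∑ j, fc (F q j) X := by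
        rw [← Finset.sum_neg_distrib]
        exact Finset.sum_congr rfl fun j _ => fc_st hO hL (g1 q j).1 hX
      rw [b1, eq_neg_of_add_eq_zero_left (g2 q X hX)]
    rw [a1, Finset.sum_congr rfl fun q _ => a2 q,
      Finset.sum_coe_sort t (fun q => ∑ k ∈ (Finset.univ.filter fun k => ¬ Li L (e k)).filter
          (fun k => Ide L (e k) = q), fc (e k) X),
      Finset.sum_fiberwise_of_maps_to hmt, Finset.sum_filter_add_sum_filter_not]
    exact sum_fc hL hMi hx0 hxL hex hX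
  have h2 := dt_gen hv hE1 hE2
  rw [Fintype.prod_sum_type, Fintype.prod_sigma] at h2
  have a1 : ∏ k : {k // Li L (e k)}, det (mt v * E (Sum.inl k) + 1 - E (Sum.inl k)) =
      ∏ k ∈ Finset.univ.filter (fun k => Li L (e k)), lam k := by
    rw [Finset.prod_subtype (Finset.univ.filter (fun k => Li L (e k))) (p := fun k => Li L (e k))
      (by simp)]
    exact Finset.prod_congr rfl fun k _ => det_line k.2 (hlam k)
  have a2 : ∀ q : {q // q ∈ t}, ∏ j, det (mt v * E (Sum.inr ⟨q, j⟩) + 1 - E (Sum.inr ⟨q, j⟩)) =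
      ∏ k ∈ (Finset.univ.filter fun k => ¬ Li L (e k)).filter
        (fun k => Ide L (e k) = q), lam k := by
    intro q
    have b1 : ∏ j, det (mt v * E (Sum.inr ⟨q, j⟩) + 1 - E (Sum.inr ⟨q, j⟩)) =
        (∏ j, mu q j)⁻¹ := by
      rw [← Finset.prod_inv_distrib]
      exact Finset.prod_congr rfl fun j _ =>
        det_line (Li_st hO hL (g1 q j).1) (v_st hO hL hv.f2 (g1 q j).1 (g1 q j).2).2
    rw [b1]
    exact (eq_inv_of_mul_eq_one_left (g3 q)).symm
  rw [a1, Finset.prod_congr rfl fun q _ => a2 q,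
    Finset.prod_coe_sort t (fun q => ∏ k ∈ (Finset.univ.filter fun k => ¬ Li L (e k)).filter
        (fun k => Ide L (e k) = q), lam k),
    Finset.prod_fiberwise_of_maps_to hmt, Finset.prod_filter_mul_prod_filter_not] at h2
  exact h2

end

end Pool.Agent.NH32
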