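import Mathlib
import Pool.Agent.NH32.WlA

/-!
# Transport to the orthonormal coordinates
-/

set_option linter.unusedSectionVars false

namespace Pool.Agent.NH32

open Matrix Module Pool.Agent.W437.HC Pool.Agent.W437.HD Pool.Agent.TH504.CB Pool.Agent.Y90
open Pool.Agent.H204R3.CM (IsHodge)
open Pool.Agent.W548.Odd hiding cv
open Pool.Agent.W437.HP (cK)

noncomputable section

section gen

variable {B : Type} [Fintype B] [DecidableEq B] {L L' : Submodule ℂ (Matrix B B ℂ)}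

/-- A multiplicative linear equivalence which maps one Lie algebra to another. -/
structure Tr (L L' : Submodule ℂ (Matrix B B ℂ)) where
  /-- the equivalence -/
  P : Matrix B B ℂ ≃ₗ[ℂ] Matrix B B ℂ
  mul : ∀ M N, P (M * N) = P M * P N
  mem : ∀ X, P X ∈ L' ↔ X ∈ L
  tr : ∀ M, trace (P M) = trace M

namespace Tr

variable (t : Tr L L')

theorem one : t.P 1 = 1 := by
  obtain ⟨M, hM⟩ := t.P.surjective 1
  have h1 := t.mul 1 M
  rw [one_mul, hM, mul_one] at h1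
  exact h1.symm

theorem cm_iff (M : Matrix B B ℂ) : t.P M ∈ CM L' ↔ M ∈ CM L := by
  constructor
  · intro h X hX
    refine t.P.injective ?_
    rw [t.mul, t.mul]
    exact h _ ((t.mem X).2 hX)
  · intro h X' hX'
    obtain ⟨X, rfl⟩ := t.P.surjective X'
    rw [← t.mul, ← t.mul, h X ((t.mem X).1 hX')]

theorem zm_iff (M : Matrix B B ℂ) : t.P M ∈ ZM L' ↔ M ∈ ZM L := by
  constructor
  · rintro ⟨h1, h2⟩
    refine ⟨(t.cm_iff M).1 h1, fun N hN => t.P.injective ?_⟩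
    rw [t.mul, t.mul]
    exact h2 _ ((t.cm_iff N).2 hN)
  · rintro ⟨h1, h2⟩
    refine ⟨(t.cm_iff M).2 h1, fun N' hN' => ?_⟩
    obtain ⟨N, rfl⟩ := t.P.surjective N'
    rw [← t.mul, ← t.mul, h2 N ((t.cm_iff N).1 hN')]

theorem inB_iff (X : Matrix B B ℂ) : InB L' (t.P X) ↔ InB L X := by
  constructor
  · intro h M hM
    refine t.P.injective ?_
    rw [t.mul, t.mul]
    exact h _ ((t.cm_iff M).2 hM)
  · intro h M' hM'
    obtain ⟨M, rfl⟩ := t.P.surjective M'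
    rw [← t.mul, ← t.mul, h M ((t.cm_iff M).1 hM')]

theorem mz_iff (E : Matrix B B ℂ) : Mz L' (t.P E) ↔ Mz L E := by
  unfold Mz
  rw [t.zm_iff]
  refine and_congr Iff.rfl (and_congr ?_ (and_congr ?_ ?_))
  · rw [← t.mul]
    exact t.P.injective.eq_iff
  · exact (LinearEquiv.map_ne_zero_iff t.P)
  · constructor
    · intro h z hz
      obtain ⟨c, hcz⟩ := h _ ((t.zm_iff z).2 hz)
      refine ⟨c, t.P.injective ?_⟩
      rw [t.mul, hcz, map_smul]
    · intro h z' hz'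
      obtain ⟨z, rfl⟩ := t.P.surjective z'
      obtain ⟨c, hcz⟩ := h z ((t.zm_iff z).1 hz')
      exact ⟨c, by rw [← t.mul, hcz, map_smul]⟩

theorem me_iff (E e : Matrix B B ℂ) : Me L' (t.P E) (t.P e) ↔ Me L E e := by
  unfold Me
  rw [t.cm_iff]
  refine and_congr Iff.rfl (and_congr ?_ (and_congr ?_ (and_congr ?_ ?_)))
  · rw [← t.mul]
    exact t.P.injective.eq_iff
  · exact (LinearEquiv.map_ne_zero_iff t.P)
  · rw [← t.mul]
    exact t.P.injective.eq_iff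
  · constructor
    · intro h M hM
      obtain ⟨c, hcz⟩ := h _ ((t.cm_iff M).2 hM)
      refine ⟨c, t.P.injective ?_⟩
      rw [t.mul, t.mul, hcz, map_smul]
    · intro h M' hM'
      obtain ⟨M, rfl⟩ := t.P.surjective M'
      obtain ⟨c, hcz⟩ := h M ((t.cm_iff M).1 hM')
      exact ⟨c, by rw [← t.mul, ← t.mul, hcz, map_smul]⟩

end Tr

end gen

variable {g : ℕ} {Z : Matrix (Fin g) (Fin g) ℂ} {y yi : Matrix (Fin g ⊕ Fin g) (Fin g ⊕ Fin g) ℝ}

/-- The transport to the orthonormal coordinates. -/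
def ph (hy : YD Z y yi) : Tr (Lr Z) (Ly Z y yi) where
  P :=
    { toFun := fun N => (cm yi)ᵀ * N * (cm y)ᵀ
      map_add' := fun a b => by rw [mul_add, add_mul]
      map_smul' := fun c a => by
        rw [Matrix.mul_smul, Matrix.smul_mul]
        rfl
      invFun := fun N => (cm y)ᵀ * N * (cm yi)ᵀ
      left_inv := fun N => by
        beta_reduce
        calc (cm y)ᵀ * ((cm yi)ᵀ * N * (cm y)ᵀ) * (cm yi)ᵀ
            = ((cm y)ᵀ * (cm yi)ᵀ) * N * ((cm y)ᵀ * (cm yi)ᵀ) := by noncomm_ring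
          _ = N := by rw [hy.clT, one_mul, mul_one]
      right_inv := fun N => by
        beta_reduce
        calc (cm yi)ᵀ * ((cm y)ᵀ * N * (cm yi)ᵀ) * (cm y)ᵀ
            = ((cm yi)ᵀ * (cm y)ᵀ) * N * ((cm yi)ᵀ * (cm y)ᵀ) := by noncomm_ring
          _ = N := by rw [hy.crT, one_mul, mul_one] }
  mul := fun M N => by
    change (cm yi)ᵀ * (M * N) * (cm y)ᵀ = ((cm yi)ᵀ * M * (cm y)ᵀ) * ((cm yi)ᵀ * N * (cm y)ᵀ)
    calc (cm yi)ᵀ * (M * N) * (cm y)ᵀ = (cm yi)ᵀ * M * 1 * N * (cm y)ᵀ := by noncomm_ring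
      _ = (cm yi)ᵀ * M * ((cm y)ᵀ * (cm yi)ᵀ) * N * (cm y)ᵀ := by rw [hy.clT]
      _ = _ := by noncomm_ring
  mem := fun N => by
    change (cm yi)ᵀ * N * (cm y)ᵀ ∈ Ly Z y yi ↔ N ∈ Lr Z
    refine ⟨fun h => ?_, hy.Lr_to⟩
    rw [mem_Ly, transpose_mul, transpose_mul, transpose_transpose, transpose_transpose] at h
    have h1 : cm yi * (cm y * (Nᵀ * cm yi)) * cm y = (cm yi * cm y) * Nᵀ * (cm yi * cm y) := by
      noncomm_ring
    rw [h1, hy.cl, one_mul, mul_one] at h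
    exact h
  tr := fun M => by
    change trace ((cm yi)ᵀ * M * (cm y)ᵀ) = trace M
    rw [trace_mul_comm, ← mul_assoc, hy.clT, one_mul]

theorem ph_apply (hy : YD Z y yi) (N : Matrix (Fin g ⊕ Fin g) (Fin g ⊕ Fin g) ℂ) :
    (ph hy).P N = (cm yi)ᵀ * N * (cm y)ᵀ := rfl

theorem tauE_eq (hy : YD Z y yi) (X : Matrix (Fin g ⊕ Fin g) (Fin g ⊕ Fin g) ℂ) :
    tauE hy X = (ph hy).P Xᵀ := by
  rw [tauE_apply, ph_apply, transpose_mul, transpose_mul, mul_assoc]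

/-- Derivations in the two coordinate systems. -/
theorem dm_ph (hy : YD Z y yi) {κ : Type} [Fintype κ] [DecidableEq κ]
    (N : Matrix (Fin g ⊕ Fin g) (Fin g ⊕ Fin g) ℂ) (c : (κ → Fin g ⊕ Fin g) → ℂ) :
    kp κ (cm y)ᵀ *ᵥ (dm κ ((ph hy).P N) *ᵥ c) = dm κ N *ᵥ (kp κ (cm y)ᵀ *ᵥ c) := by
  rw [mulVec_mulVec, ph_apply, hy.kp_dm, mulVec_mulVec]

theorem dm_ph_zero (hy : YD Z y yi) {κ : Type} [Fintype κ] [DecidableEq κ]
    (N : Matrix (Fin g ⊕ Fin g) (Fin g ⊕ Fin g) ℂ) (c : (κ → Fin g ⊕ Fin g) → ℂ) :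
    dm κ ((ph hy).P N) *ᵥ c = 0 ↔ dm κ N *ᵥ (kp κ (cm y)ᵀ *ᵥ c) = 0 := by
  rw [← dm_ph hy]
  constructor
  · intro h
    rw [h, mulVec_zero]
  · intro h
    have h1 := congrArg (fun w => kp κ (cm yi)ᵀ *ᵥ w) h
    beta_reduce at h1
    rw [mulVec_mulVec, ← kp_mul, hy.crT, kp_one, one_mulVec, mulVec_zero] at h1
    exact h1

end

end Pool.Agent.NH32
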