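import Mathlib
import Pool.Agent.NH32.GsA
import Pool.Agent.NH32.WlT

/-!
# Project G: modules over the conjugates of the Hodge operator, definitions and statements
-/

set_option linter.unusedSectionVars false

namespace Pool.Agent.NH32

open Matrix Module Pool.Agent.W437.HC Pool.Agent.W437.HD Pool.Agent.TH504.CB Pool.Agent.Y90
open Pool.Agent.H204R3.CM (IsHodge)
open Pool.Agent.W548.Odd hiding cv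

noncomputable section

/-- The functional `f : H_1(X, ℚ) → ℂ` is of type `(1, 0)`: it comes from a complex linear form on the
tangent space. -/
def H10 (X : AV) (f : X.H →ₗ[ℚ] ℂ) : Prop := ∃ l : X.T →ₗ[ℂ] ℂ, ∀ w, f w = l (X.per w)

/-- The functional `f`, followed by the automorphism `σ` of `ℂ`. -/
def tw {X : AV} (σ : ℂ ≃+* ℂ) (f : X.H →ₗ[ℚ] ℂ) : X.H →ₗ[ℚ] ℂ := (rlm (σ : ℂ →+* ℂ)).comp f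

/-- `f'` is the image of `f ∈ H^1(X, ℂ)` under the conjugate by `σ` of the Hodge operator, which is
`1` on `H^{1,0}` and `-1` on `H^{0,1}`. -/
def IsD (X : AV) (σ : ℂ ≃+* ℂ) (f f' : X.H →ₗ[ℚ] ℂ) : Prop :=
  ∃ a b : X.H →ₗ[ℚ] ℂ, f = a + b ∧ f' = a - b ∧ H10 X (tw σ.symm a) ∧ H10 X (tw cj (tw σ.symm b))

/-- The family of matrices `Δ σ` describes the action of the conjugates of the Hodge operator on a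
subspace of dimension `d` of `H^1(X, ℂ)`. -/
def Rz (X : AV) (d : ℕ) (Δ : (ℂ ≃+* ℂ) → Matrix (Fin d) (Fin d) ℂ) : Prop :=
  ∃ P : Fin d → (X.H →ₗ[ℚ] ℂ), LinearIndependent ℂ P ∧
    ∀ σ j, IsD X σ (P j) (∑ i, Δ σ i j • P i)

/-- No invariant subspaces. -/
def IrD {d : ℕ} (Δ : (ℂ ≃+* ℂ) → Matrix (Fin d) (Fin d) ℂ) : Prop :=
  0 < d ∧ ∀ W : Submodule ℂ (Fin d → ℂ), (∀ σ, ∀ w ∈ W, Δ σ *ᵥ w ∈ W) → W = ⊥ ∨ W = ⊤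

/-- `T` is in the Lie algebra generated by the `Δ σ`. -/
def InD {d : ℕ} (Δ : (ℂ ≃+* ℂ) → Matrix (Fin d) (Fin d) ℂ) (T : Matrix (Fin d) (Fin d) ℂ) : Prop :=
  ∀ M : Submodule ℂ (Matrix (Fin d) (Fin d) ℂ), (∀ σ, Δ σ ∈ M) →
    (∀ X ∈ M, ∀ Y ∈ M, X * Y - Y * X ∈ M) → T ∈ M

/-- All matrices of trace zero are in the Lie algebra generated by the `Δ σ`. -/
def SlD {d : ℕ} (Δ : (ℂ ≃+* ℂ) → Matrix (Fin d) (Fin d) ℂ) : Prop := ∀ T, trace T = 0 → InD Δ T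

/-- The one-dimensional module given by a sign function. -/
def lineD (F : (ℂ ≃+* ℂ) → ℤ) (σ : ℂ ≃+* ℂ) : Matrix (Fin 1) (Fin 1) ℂ := fun _ _ => (F σ : ℂ)

/-- `A` is a factor of `X` (up to isogeny). -/
def Fac (A X : AV) : Prop :=
  ∃ (i : A.H →ₗ[ℚ] X.H) (j : X.H →ₗ[ℚ] A.H), IsHom A X i ∧ IsHom X A j ∧ j ∘ₗ i = LinearMap.id

/-- Each odd sign function on the automorphisms of `ℂ` which depends only on the traces of the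
irreducible modules of `X` is the sign function of a line of `X`. -/
def HullAV (X : AV) : Prop :=
  (∃ Δ : (ℂ ≃+* ℂ) → Matrix (Fin 1) (Fin 1) ℂ, Rz X 1 Δ) ∧
  ∀ F : (ℂ ≃+* ℂ) → ℤ, (∀ σ, F σ = 1 ∨ F σ = -1) → (∀ σ, F (cj.trans σ) = -F σ) →
    (∀ σ τ, (∀ (d : ℕ) (Δ : (ℂ ≃+* ℂ) → Matrix (Fin d) (Fin d) ℂ), IrD Δ → Rz X d Δ →
      trace (Δ σ) = trace (Δ τ)) → F σ = F τ) → Rz X 1 (lineD F)

/-- The conjugates of the Hodge operator in orthonormal coordinates. -/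
def Dy {g : ℕ} (Z : Matrix (Fin g) (Fin g) ℂ) (y yi : Matrix (Fin g ⊕ Fin g) (Fin g ⊕ Fin g) ℝ)
    (σ : ℂ ≃+* ℂ) : Matrix (Fin g ⊕ Fin g) (Fin g ⊕ Fin g) ℂ := (cm y * DS Z σ * cm yi)ᵀ

/-- The coordinates of a functional. -/
def cof {g : ℕ} {X : AV} (e : X.H ≃ₗ[ℚ] (Fin g ⊕ Fin g → ℚ)) (f : X.H →ₗ[ℚ] ℂ) :
    Fin g ⊕ Fin g → ℂ := fun b => f (e.symm (Pi.single b 1))

/-- **G11.** The conjugates of the Hodge operator in coordinates. -/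
def St_coo : Prop := ∀ (g : ℕ) (Z : Matrix (Fin g) (Fin g) ℂ) (X : AV)
  (e : X.H ≃ₗ[ℚ] (Fin g ⊕ Fin g → ℚ)), PM Z →
  Cht (X.per.comp e.symm.toLinearMap.toAddMonoidHom) (JR Z) → ∀ (σ : ℂ ≃+* ℂ)
  (f f' : X.H →ₗ[ℚ] ℂ), IsD X σ f f' ↔ cof e f' = (DS Z σ)ᵀ *ᵥ cof e f

/-- **G12.** Abelian varieties with complex multiplication. -/
def St_cm : Prop := ∀ K : Subfield ℂ, FiniteDimensional ℚ K → (∀ σ : ℂ ≃+* ℂ, ∀ z ∈ K, σ z ∈ K) →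
  (∀ σ : ℂ ≃+* ℂ, ∀ z ∈ K, σ (cj z) = cj (σ z)) → ∀ F : (ℂ ≃+* ℂ) → ℤ,
  (∀ σ, F σ = 1 ∨ F σ = -1) → (∀ σ, F (cj.trans σ) = -F σ) →
  (∀ σ τ, (∀ z ∈ K, σ z = τ z) → F σ = F τ) → ∃ C : AV, Rz C 1 (lineD F) ∧
    ∀ (d : ℕ) (Δ : (ℂ ≃+* ℂ) → Matrix (Fin d) (Fin d) ℂ), IrD Δ → Rz C d Δ → d = 1 ∧
      ∀ σ τ : ℂ ≃+* ℂ, (∀ z ∈ K, σ z = τ z) → trace (Δ σ) = trace (Δ τ)

/-- **G13.** The traces depend on the restriction to a finite extension of `ℚ` of CM type. -/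
def St_fld : Prop := ∀ A : AV, ∃ K : Subfield ℂ, FiniteDimensional ℚ K ∧
  (∀ σ : ℂ ≃+* ℂ, ∀ z ∈ K, σ z ∈ K) ∧ (∀ σ : ℂ ≃+* ℂ, ∀ z ∈ K, σ (cj z) = cj (σ z)) ∧
  Complex.I ∈ K ∧ ∀ σ τ : ℂ ≃+* ℂ, (∀ z ∈ K, σ z = τ z) →
    ∀ (d : ℕ) (Δ : (ℂ ≃+* ℂ) → Matrix (Fin d) (Fin d) ℂ), Rz A d Δ → trace (Δ σ) = trace (Δ τ)

/-- **G14.** Products. -/
def St_pr : Prop := ∀ X Y : AV, ∃ P : AV, Fac X P ∧ Fac Y P ∧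
  ∀ (d : ℕ) (Δ : (ℂ ≃+* ℂ) → Matrix (Fin d) (Fin d) ℂ), IrD Δ → Rz P d Δ → Rz X d Δ ∨ Rz Y d Δ

/-- **G15.** Factors. -/
def St_fac : Prop := (∀ X Y : AV, Fac X Y → ∀ (d : ℕ) (Δ : (ℂ ≃+* ℂ) → Matrix (Fin d) (Fin d) ℂ),
  Rz X d Δ → Rz Y d Δ) ∧ (∀ X Y Z : AV, Fac X Y → Fac Y Z → Fac X Z) ∧
  ∀ (𝒜 : Sys) (X Y : AV), Fac X Y → (∀ (P : AV) (n : ℕ), IsPower Y P n → 𝒜.AllHodge P) →
    ∀ (P : AV) (n : ℕ), IsPower X P n → 𝒜.AllHodge P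

/-- **G16.** The hull. -/
def St_hull : Prop := ∀ A : AV, ∃ X : AV, Fac A X ∧ HullAV X ∧
  ∀ (d : ℕ) (Δ : (ℂ ≃+* ℂ) → Matrix (Fin d) (Fin d) ℂ), IrD Δ → Rz X d Δ → d = 1 ∨ Rz A d Δ

/-- **G17.** Minimal idempotents and modules. -/
def St_mi : Prop := ∀ (g : ℕ) (Z : Matrix (Fin g) (Fin g) ℂ) (X : AV)
  (e : X.H ≃ₗ[ℚ] (Fin g ⊕ Fin g → ℚ)) (y yi : Matrix (Fin g ⊕ Fin g) (Fin g ⊕ Fin g) ℝ), PM Z →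
  Cht (X.per.comp e.symm.toLinearMap.toAddMonoidHom) (JR Z) → YD Z y yi →
  (∀ ε, Mi (Ly Z y yi) ε → ∃ (d : ℕ) (P : Matrix (Fin g ⊕ Fin g) (Fin d) ℂ)
    (Q : Matrix (Fin d) (Fin g ⊕ Fin g) ℂ), P * Q = ε ∧ Q * P = 1 ∧
    IrD (fun σ => Q * Dy Z y yi σ * P) ∧ Rz X d (fun σ => Q * Dy Z y yi σ * P)) ∧
  ∀ (d : ℕ) (Δ : (ℂ ≃+* ℂ) → Matrix (Fin d) (Fin d) ℂ), IrD Δ → Rz X d Δ →
    ∃ (P : Matrix (Fin g ⊕ Fin g) (Fin d) ℂ) (Q : Matrix (Fin d) (Fin g ⊕ Fin g) ℂ),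
      Mi (Ly Z y yi) (P * Q) ∧ Q * P = 1 ∧ ∀ σ, Q * Dy Z y yi σ * P = Δ σ

/-- **G18.** The elements of the group of the system. -/
def St_fixu : Prop := ∀ (g : ℕ) (Z : Matrix (Fin g) (Fin g) ℂ) (X : AV)
  (e : X.H ≃ₗ[ℚ] (Fin g ⊕ Fin g → ℚ)) (y yi : Matrix (Fin g ⊕ Fin g) (Fin g ⊕ Fin g) ℝ), PM Z →
  Cht (X.per.comp e.symm.toLinearMap.toAddMonoidHom) (JR Z) → YD Z y yi → ∀ 𝒜 : Sys,
  (∀ (Y : AV) (f : Y.H [⋀^Fin 2]→ₗ[ℚ] ℚ), IsHodge Y.per f → 𝒜.A Y (Fin 2) f) →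
  (∀ (Y : AV) (f : Y.H [⋀^Fin 4]→ₗ[ℚ] ℚ), IsHodge Y.per f → 𝒜.A Y (Fin 4) f) →
  (∀ (Y : AV) (n : ℕ) (w : Y.H [⋀^Fin n]→ₗ[ℚ] ℚ), IsWeil Y w → 𝒜.A Y (Fin n) w) →
  ∀ u ∈ Fx (Oy yi) (TY e 𝒜 Z y yi), FixU (Oy yi) (Ly Z y yi) u

end

end Pool.Agent.NH32
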