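import Mathlib

/-!
# Project G, stage 2: the root data of level one, definitions and statements
-/

set_option linter.unusedSectionVars false

namespace Pool.Agent.NH32

open Matrix

noncomputable section

/-- The pairing of `x` with the coroot of `γ`. -/
def pr {r : ℕ} (γ x : Fin r → ℝ) : ℝ := 2 * (x ⬝ᵥ γ) / (γ ⬝ᵥ γ)

/-- The reflection. -/
def rf {r : ℕ} (γ x : Fin r → ℝ) : Fin r → ℝ := x - pr γ x • γ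

/-- Irreducible reduced root systems with a vector `h` taking the values `0, 1, -1` on the roots. -/
structure RS {r : ℕ} (Φ : Finset (Fin r → ℝ)) (h : Fin r → ℝ) : Prop where
  z : (0 : Fin r → ℝ) ∉ Φ
  neg : ∀ γ ∈ Φ, -γ ∈ Φ
  rfl : ∀ γ ∈ Φ, ∀ δ ∈ Φ, rf γ δ ∈ Φ
  int : ∀ γ ∈ Φ, ∀ δ ∈ Φ, ∃ n : ℤ, pr γ δ = n
  red : ∀ γ ∈ Φ, ∀ c : ℝ, c • γ ∈ Φ → c = 1 ∨ c = -1
  spn : Submodule.span ℝ (Φ : Set (Fin r → ℝ)) = ⊤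
  irr : ∀ Ψ ⊆ Φ, (∀ γ ∈ Ψ, ∀ δ ∈ Φ, δ ∉ Ψ → γ ⬝ᵥ δ = 0) → Ψ = ∅ ∨ Ψ = Φ
  lev : ∀ γ ∈ Φ, γ ⬝ᵥ h = 0 ∨ γ ⬝ᵥ h = 1 ∨ γ ⬝ᵥ h = -1
  ex : ∃ γ ∈ Φ, γ ⬝ᵥ h = 1

/-- The weights of a minuscule module on which `h` takes two values. -/
structure MW {r : ℕ} (Φ : Finset (Fin r → ℝ)) (h : Fin r → ℝ) (S : Finset (Fin r → ℝ)) : Prop where
  ne : S.Nonempty
  nz : (0 : Fin r → ℝ) ∉ S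
  rfl : ∀ γ ∈ Φ, ∀ s ∈ S, rf γ s ∈ S
  min : ∀ γ ∈ Φ, ∀ s ∈ S, pr γ s = 0 ∨ pr γ s = 1 ∨ pr γ s = -1
  tr : ∀ S' ⊆ S, S'.Nonempty → (∀ γ ∈ Φ, ∀ s ∈ S', rf γ s ∈ S') → S' = S
  two : ∃ a : ℝ, ∀ s ∈ S, s ⬝ᵥ h = a ∨ s ⬝ᵥ h = a - 1

/-- An orthogonal system with squares of the lengths equal to `c`. -/
def Ort {r : ℕ} (n : ℕ) (c : ℝ) (e : Fin n → Fin r → ℝ) : Prop :=
  0 < c ∧ (∀ i j, e i ⬝ᵥ e j = if i = j then c else 0) ∧ Submodule.span ℝ (Set.range e) = ⊤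

/-- The roots `± e i ± e j`. -/
def Dro {r : ℕ} {n : ℕ} (e : Fin n → Fin r → ℝ) (x : Fin r → ℝ) : Prop :=
  ∃ i j, i ≠ j ∧ (x = e i + e j ∨ x = e i - e j ∨ x = -e i - e j)

/-- The vectors `(± e 1 ± ... ± e n) / 2` with the product of the signs equal to `1`. -/
def Hsp {r : ℕ} {n : ℕ} (e : Fin n → Fin r → ℝ) (x : Fin r → ℝ) : Prop :=
  ∃ τ : Fin n → ℤ, (∀ i, τ i = 1 ∨ τ i = -1) ∧ ∏ i, τ i = 1 ∧ x = ∑ i, ((τ i : ℝ) / 2) • e i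

/-- Type 1: the special linear case. -/
def Ty1 {r : ℕ} (Φ S : Finset (Fin r → ℝ)) : Prop := ∀ s ∈ S, ∀ s' ∈ S, s ≠ s' → s - s' ∈ Φ ∧
  ∀ t ∈ S, t ≠ s → t ≠ s' → (s - s') ⬝ᵥ t = 0

/-- Type 2: the orthogonal case. -/
def Ty2 {r : ℕ} (Φ S : Finset (Fin r → ℝ)) : Prop :=
  ∃ (p : ℕ) (c : ℝ) (e : Fin p → Fin r → ℝ), 4 ≤ p ∧ Ort p c e ∧
    (∀ x, x ∈ S ↔ ∃ i, x = e i ∨ x = -e i) ∧ ∀ x, x ∈ Φ ↔ Dro e x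

/-- Type 3: the exterior powers. -/
def Ty3 {r : ℕ} (Φ : Finset (Fin r → ℝ)) (h : Fin r → ℝ) (S : Finset (Fin r → ℝ)) : Prop :=
  ∃ (n k : ℕ) (c : ℝ) (e : Fin n → Fin r → ℝ), 2 ≤ k ∧ k + 2 ≤ n ∧ 0 < c ∧ ∑ i, e i = 0 ∧
    (∀ i j, e i ⬝ᵥ e j = c * ((if i = j then 1 else 0) - 1 / n)) ∧
    (∀ x, x ∈ Φ ↔ ∃ i j, i ≠ j ∧ x = e i - e j) ∧
    (∀ x, x ∈ S ↔ ∃ K : Finset (Fin n), K.card = k ∧ x = ∑ i ∈ K, e i) ∧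
    ∃ i₀, (∀ j, j ≠ i₀ → (e i₀ - e j) ⬝ᵥ h = 1) ∨ ∀ j, j ≠ i₀ → (e i₀ - e j) ⬝ᵥ h = -1

/-- Type 4: the half spin case. -/
def Ty4 {r : ℕ} (Φ : Finset (Fin r → ℝ)) (h : Fin r → ℝ) (S : Finset (Fin r → ℝ)) : Prop :=
  ∃ (n : ℕ) (c : ℝ) (e : Fin n → Fin r → ℝ), 5 ≤ n ∧ Ort n c e ∧ (∀ x, x ∈ Φ ↔ Dro e x) ∧
    (∀ x, x ∈ S ↔ Hsp e x) ∧
    ∃ i₀, (e i₀ ⬝ᵥ h = 1 ∨ e i₀ ⬝ᵥ h = -1) ∧ ∀ i, i ≠ i₀ → e i ⬝ᵥ h = 0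

/-- Type 5: the spin case. -/
def Ty5 {r : ℕ} (Φ S : Finset (Fin r → ℝ)) : Prop :=
  ∃ (n : ℕ) (c : ℝ) (e : Fin n → Fin r → ℝ), 2 ≤ n ∧ Ort n c e ∧
    (∀ x, x ∈ Φ ↔ Dro e x ∨ ∃ i, x = e i ∨ x = -e i) ∧
    ∀ x, x ∈ S ↔ ∃ τ : Fin n → ℤ, (∀ i, τ i = 1 ∨ τ i = -1) ∧ x = ∑ i, ((τ i : ℝ) / 2) • e i

/-- Type 6: the symplectic case. -/
def Ty6 {r : ℕ} (Φ S : Finset (Fin r → ℝ)) : Prop :=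
  ∃ (p : ℕ) (c : ℝ) (e : Fin p → Fin r → ℝ), 2 ≤ p ∧ Ort p c e ∧
    (∀ x, x ∈ Φ ↔ Dro e x ∨ ∃ i, x = (2 : ℝ) • e i ∨ x = -((2 : ℝ) • e i)) ∧
    ∀ x, x ∈ S ↔ ∃ i, x = e i ∨ x = -e i

/-- No two orthogonal roots in the positive part. -/
def No0 {r : ℕ} (Φ : Finset (Fin r → ℝ)) (h : Fin r → ℝ) : Prop :=
  ∀ α ∈ Φ, ∀ β ∈ Φ, α ⬝ᵥ h = 1 → β ⬝ᵥ h = 1 → α ⬝ᵥ β ≠ 0

/-- **C1a.** The roots of degree zero are differences of roots of degree one. -/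
def St_gen : Prop := ∀ (r : ℕ) (Φ : Finset (Fin r → ℝ)) (h : Fin r → ℝ), RS Φ h →
  ∀ f : (Fin r → ℝ) →ₗ[ℝ] ℝ, (∀ γ ∈ Φ, f γ = 0 ∨ f γ = 1 ∨ f γ = -1) → (∃ γ ∈ Φ, f γ = 1) →
  ∀ γ ∈ Φ, f γ = 0 → ∃ α ∈ Φ, ∃ β ∈ Φ, f α = 1 ∧ f β = 1 ∧ γ = α - β

/-- **C1b.** The group of the roots of degree zero is transitive on the weights of highest degree. -/
def St_wtr : Prop := ∀ (r : ℕ) (Φ : Finset (Fin r → ℝ)) (h : Fin r → ℝ) (S : Finset (Fin r → ℝ)),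
  RS Φ h → MW Φ h S → (∃ c, ∀ γ ∈ Φ, γ ⬝ᵥ γ = c) → ∀ S' ⊆ S, S'.Nonempty →
  (∀ s ∈ S', ∀ s' ∈ S, s' ⬝ᵥ h ≤ s ⬝ᵥ h) → (∀ γ ∈ Φ, γ ⬝ᵥ h = 0 → ∀ s ∈ S', rf γ s ∈ S') →
  ∀ s ∈ S, (∀ s' ∈ S, s' ⬝ᵥ h ≤ s ⬝ᵥ h) → s ∈ S'

/-- **C1c.** Each root pairs nontrivially with some weight, and the weights have the same length. -/
def St_pai : Prop := ∀ (r : ℕ) (Φ : Finset (Fin r → ℝ)) (h : Fin r → ℝ) (S : Finset (Fin r → ℝ)),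
  RS Φ h → MW Φ h S → (∀ γ ∈ Φ, ∃ s ∈ S, pr γ s = 1) ∧ ∀ s ∈ S, ∀ s' ∈ S, s ⬝ᵥ s = s' ⬝ᵥ s'

/-- **C2.** Two orthogonal roots of degree zero which can be subtracted from a highest weight. -/
def St_c2 : Prop := ∀ (r : ℕ) (Φ : Finset (Fin r → ℝ)) (h : Fin r → ℝ) (S : Finset (Fin r → ℝ)),
  RS Φ h → MW Φ h S → (∃ c, ∀ γ ∈ Φ, γ ⬝ᵥ γ = c) → ∀ s ∈ S, (∀ s' ∈ S, s' ⬝ᵥ h ≤ s ⬝ᵥ h) →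
  ∀ γ₁ ∈ Φ, ∀ γ₂ ∈ Φ, γ₁ ⬝ᵥ h = 0 → γ₂ ⬝ᵥ h = 0 → pr γ₁ s = 1 → pr γ₂ s = 1 → γ₁ ⬝ᵥ γ₂ = 0 →
  No0 Φ h ∨ Ty4 Φ h S

/-- **C3.** No orthogonal roots as in C2. -/
def St_c3 : Prop := ∀ (r : ℕ) (Φ : Finset (Fin r → ℝ)) (h : Fin r → ℝ) (S : Finset (Fin r → ℝ)),
  RS Φ h → MW Φ h S → (∃ c, ∀ γ ∈ Φ, γ ⬝ᵥ γ = c) → (∀ s ∈ S, ∀ γ₁ ∈ Φ, ∀ γ₂ ∈ Φ, γ₁ ⬝ᵥ h = 0 →
    γ₂ ⬝ᵥ h = 0 → pr γ₁ s = 1 → pr γ₂ s = 1 → γ₁ ⬝ᵥ γ₂ ≠ 0) → Ty1 Φ S ∨ Ty2 Φ S ∨ No0 Φ h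

/-- **C4.** The case without orthogonal roots in the positive part. -/
def St_c4 : Prop := ∀ (r : ℕ) (Φ : Finset (Fin r → ℝ)) (h : Fin r → ℝ) (S : Finset (Fin r → ℝ)),
  RS Φ h → MW Φ h S → (∃ c, ∀ γ ∈ Φ, γ ⬝ᵥ γ = c) → No0 Φ h → Ty1 Φ S ∨ Ty3 Φ h S

/-- **C5.** Roots of different lengths. -/
def St_c5 : Prop := ∀ (r : ℕ) (Φ : Finset (Fin r → ℝ)) (h : Fin r → ℝ) (S : Finset (Fin r → ℝ)),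
  RS Φ h → MW Φ h S → (¬ ∃ c, ∀ γ ∈ Φ, γ ⬝ᵥ γ = c) → Ty5 Φ S ∨ Ty6 Φ S

/-- **C7.** The special linear type is determined by the roots. -/
def St_c7 : Prop := ∀ (r : ℕ) (Φ : Finset (Fin r → ℝ)) (h : Fin r → ℝ) (S S' : Finset (Fin r → ℝ)),
  RS Φ h → MW Φ h S → MW Φ h S' → Ty1 Φ S → (Ty2 Φ S' ∨ Ty4 Φ h S' ∨ Ty5 Φ S' ∨ Ty6 Φ S') → False

/-- **C6.** Uniqueness of the weights for the types different from the special linear one: the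
sets of weights of two such modules are equal, opposite, or disjoint modulo parities. -/
def St_c6 : Prop := ∀ (r : ℕ) (Φ : Finset (Fin r → ℝ)) (h : Fin r → ℝ), RS Φ h →
  ∀ (κ : Type) [Fintype κ] [DecidableEq κ] (S : κ → Finset (Fin r → ℝ)),
  (∀ k, MW Φ h (S k) ∧ (Ty2 Φ (S k) ∨ Ty4 Φ h (S k) ∨ Ty5 Φ (S k) ∨ Ty6 Φ (S k))) →
  ∀ s : κ → Fin r → ℝ, (∀ k, s k ∈ S k) → ∑ k, s k = 0 → ∀ k₀ : κ,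
    ((∀ x, x ∈ S k₀ → -x ∈ S k₀) → Even (Finset.univ.filter fun k => S k = S k₀).card) ∧
    (¬ (∀ x, x ∈ S k₀ → -x ∈ S k₀) → (4 : ℤ) ∣ ((Finset.univ.filter fun k => S k = S k₀).card : ℤ) -
      (Finset.univ.filter fun k => S k = (S k₀).image Neg.neg).card)

/-- **C8.** The automorphisms in the spin cases which preserve a chamber are trivial. -/
def St_c8 : Prop := ∀ (r : ℕ) (Φ : Finset (Fin r → ℝ)) (h : Fin r → ℝ) (S : Finset (Fin r → ℝ)),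
  RS Φ h → MW Φ h S → (Ty4 Φ h S ∨ Ty5 Φ S) → ∀ A : (Fin r → ℝ) →ₗ[ℝ] (Fin r → ℝ),
  (∀ x y, A x ⬝ᵥ A y = x ⬝ᵥ y) → (∀ γ ∈ Φ, A γ ∈ Φ) → (∀ s ∈ S, A s ∈ S) → ∀ x : Fin r → ℝ,
  (∀ γ ∈ Φ, γ ⬝ᵥ x ≠ 0) → (∀ γ ∈ Φ, 0 < γ ⬝ᵥ x → 0 < γ ⬝ᵥ A x) → A = LinearMap.id

/-- **C9.** The phases in the spin cases. -/
def St_c9 : Prop := ∀ (r : ℕ) (Φ : Finset (Fin r → ℝ)) (h : Fin r → ℝ) (S : Finset (Fin r → ℝ)),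
  RS Φ h → MW Φ h S → (Ty4 Φ h S ∨ Ty5 Φ S) → ∀ (c χ : (Fin r → ℝ) → ℂ), (∀ s ∈ S, ‖c s‖ = 1) →
  (∀ γ ∈ Φ, ∀ s ∈ S, pr γ s = -1 → c (s + γ) = χ γ * c s) → ∃ (x : Fin r → ℝ) (c₀ : ℂ),
    ∀ s ∈ S, c s = c₀ * Complex.exp (Complex.I * ((x ⬝ᵥ s : ℝ) : ℂ))

end

end Pool.Agent.NH32
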