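import Mathlib
import Pool.Agent.NH32.GsA
import Pool.Agent.NH32.GtC

/-!
# Project G, stage 2: root vectors, definitions and statements
-/

set_option linter.unusedSectionVars false

namespace Pool.Agent.NH32

open Matrix Module Pool.Agent.W437.HC Pool.Agent.W437.HD Pool.Agent.TH504.CB Pool.Agent.Y90
open Pool.Agent.H204R3.CM (IsHodge)
open Pool.Agent.W548.Odd hiding cv

noncomputable section

section mat

variable {B : Type} [Fintype B] [DecidableEq B]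

/-- The elements of the torus. -/
def tor {r : ℕ} (T : Fin r → Matrix B B ℂ) (x : Fin r → ℝ) : Matrix B B ℂ := ∑ i, (x i : ℂ) • T i

/-- A maximal torus of `s`, commuting with `D`, with an orthonormal basis. -/
structure TV (s : Submodule ℂ (Matrix B B ℂ)) (D : Matrix B B ℂ) (r : ℕ) (T : Fin r → Matrix B B ℂ)
    (h : Fin r → ℝ) : Prop where
  m : ∀ i, T i ∈ s ∧ (T i)ᴴ = T i
  c : ∀ i j, T i * T j = T j * T i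
  t : ∀ i j, trace (T i * T j) = if i = j then 1 else 0
  mx : ∀ Y ∈ s, (∀ i, T i * Y = Y * T i) → Y ∈ Submodule.span ℂ (Set.range T)
  d : ∀ Y ∈ s, D * Y - Y * D = tor T ((2 : ℝ) • h) * Y - Y * tor T ((2 : ℝ) • h)

/-- Root vectors. -/
structure RV (s : Submodule ℂ (Matrix B B ℂ)) (D : Matrix B B ℂ) (r : ℕ) (T : Fin r → Matrix B B ℂ)
    (Φ : Finset (Fin r → ℝ)) (X : (Fin r → ℝ) → Matrix B B ℂ) (h : Fin r → ℝ) : Prop where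
  tv : TV s D r T h
  rs : RS Φ h
  Xm : ∀ γ ∈ Φ, X γ ∈ s ∧ X γ ≠ 0 ∧ X (-γ) = (X γ)ᴴ
  X3 : ∀ γ ∈ Φ, X γ * (X γ)ᴴ * X γ = X γ ∧ X γ * X γ = 0
  Xw : ∀ γ ∈ Φ, ∀ x, tor T x * X γ - X γ * tor T x = ((γ ⬝ᵥ x : ℝ) : ℂ) • X γ
  Xb : ∀ γ ∈ Φ, X γ * (X γ)ᴴ - (X γ)ᴴ * X γ = tor T ((2 / (γ ⬝ᵥ γ)) • γ)
  sp : s ≤ Submodule.span ℂ (Set.range T ∪ X '' Φ)
  one : ∀ γ : Fin r → ℝ, γ ≠ 0 → ∀ Y ∈ s, Y ≠ 0 →
    (∀ x, tor T x * Y - Y * tor T x = ((γ ⬝ᵥ x : ℝ) : ℂ) • Y) → γ ∈ Φ ∧ ∃ c : ℂ, Y = c • X γ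

/-- Weight vectors of the module given by the range of `e`. -/
structure MV {r : ℕ} (T : Fin r → Matrix B B ℂ) (Φ : Finset (Fin r → ℝ))
    (X : (Fin r → ℝ) → Matrix B B ℂ) (h : Fin r → ℝ) (e : Matrix B B ℂ)
    (S : Finset (Fin r → ℝ)) (v : (Fin r → ℝ) → B → ℂ) : Prop where
  mw : MW Φ h S
  on : ∀ s ∈ S, ∀ s' ∈ S, v s ⬝ᵥ star (v s') = if s = s' then 1 else 0
  ee : e = ∑ s ∈ S, vecMulVec (v s) (star (v s))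
  Tv : ∀ s ∈ S, ∀ x, tor T x *ᵥ v s = ((x ⬝ᵥ s : ℝ) : ℂ) • v s
  Xv : ∀ γ ∈ Φ, ∀ s ∈ S, pr γ s = -1 → ∃ c : ℂ, ‖c‖ = 1 ∧ X γ *ᵥ v s = c • v (s + γ)
  X0 : ∀ γ ∈ Φ, ∀ s ∈ S, pr γ s ≠ -1 → X γ *ᵥ v s = 0

/-- The general situation: `e` is pure, `D` is a Hermitian involution which is not a scalar on `e`,
and we have root vectors for the ideal belonging to `e`. -/
structure Rd (Om : Matrix B B ℂ) (L : Submodule ℂ (Matrix B B ℂ)) (e D : Matrix B B ℂ) (r : ℕ)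
    (T : Fin r → Matrix B B ℂ) (Φ : Finset (Fin r → ℝ)) (X : (Fin r → ℝ) → Matrix B B ℂ)
    (h : Fin r → ℝ) : Prop where
  om : IsOm Om
  ld : LD Om L
  pu : Pu L e
  dm : D ∈ L
  dh : Dᴴ = D
  d2 : D * D = 1
  dn : ∀ c : ℂ, D * e ≠ c • e
  rv : RV (Ide L e) D r T Φ X h

/-- The Lie algebra acts on `e` as the full orthogonal or symplectic Lie algebra of a form `J`. -/
def Fu (L : Submodule ℂ (Matrix B B ℂ)) (e : Matrix B B ℂ) : Prop :=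
  Mi L e ∧ ¬ trace e = 1 ∧ ∃ J : Matrix B B ℂ, J ≠ 0 ∧ J * e = J ∧ eᵀ * J = J ∧
    (Jᵀ = -J ∨ (Jᵀ = J ∧ ∃ m : ℕ, trace e = 2 * (m : ℂ))) ∧ (∀ X ∈ Dr L, Xᵀ * J + J * X = 0) ∧
    ∀ T : Matrix B B ℂ, e * T * e = T → Tᵀ * J + J * T = 0 → ∃ X ∈ Dr L, X * e = T

/-- The Lie algebra acts on `e` as on an exterior power of the standard representation of a special
linear Lie algebra. -/
def ATy (L : Submodule ℂ (Matrix B B ℂ)) (e : Matrix B B ℂ) : Prop :=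
  ∃ (n k : ℕ) (φ : Matrix B B ℂ →ₗ[ℂ] Matrix (Fin n) (Fin n) ℂ)
    (ι : (B → ℂ) →ₗ[ℂ] ((Fin k → Fin n) → ℂ)), 2 ≤ k ∧ k + 2 ≤ n ∧
    (∀ X ∈ L, ∀ Y ∈ L, φ (X * Y - Y * X) = φ X * φ Y - φ Y * φ X) ∧
    (∀ X ∈ L, trace (φ X) = 0) ∧ (∀ Z, trace Z = 0 → ∃ X ∈ L, φ X = Z) ∧
    (∀ X ∈ L, (∃ c : ℂ, X * e = c • e) → φ X = 0) ∧
    (∀ v, IsAlt (ι v)) ∧ (∀ v, e *ᵥ v = v → ι v = 0 → v = 0) ∧
    (∀ x, IsAlt x → ∃ v, e *ᵥ v = v ∧ ι v = x) ∧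
    ∀ X ∈ L, ∀ v, e *ᵥ v = v → ι (X *ᵥ v) = dm (Fin k) (φ X) *ᵥ ι v + fc e X • ι v

/-- The involutions `Dm σ` fall in two commuting parts on `e`, both not scalar. -/
def DecL (Dm : (ℂ ≃+* ℂ) → Matrix B B ℂ) (e : Matrix B B ℂ) : Prop :=
  ∃ J : Set (ℂ ≃+* ℂ), (∀ σ ∈ J, ∀ τ, τ ∉ J → (Dm σ * Dm τ - Dm τ * Dm σ) * e = 0) ∧
    (∃ σ ∈ J, ∀ c : ℂ, Dm σ * e ≠ c • e) ∧ ∃ τ, τ ∉ J ∧ ∀ c : ℂ, Dm τ * e ≠ c • e

end mat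

/-- **H1.** Involutions of `L` are conjugate to Hermitian involutions of `L`. -/
def St_herm : Prop := ∀ (B : Type) [Fintype B] [DecidableEq B] (Om : Matrix B B ℂ)
  (L : Submodule ℂ (Matrix B B ℂ)), IsOm Om → LD Om L → ∀ D ∈ L, D * D = 1 →
  ∃ D' ∈ L, D'ᴴ = D' ∧ D' * D' = 1 ∧ ∃ g gi : Matrix B B ℂ, g * gi = 1 ∧ D' = g * D * gi ∧
    (∀ M ∈ CM L, g * M = M * g) ∧ ∀ Y ∈ L, g * Y * gi ∈ L ∧ gi * Y * g ∈ L

/-- **H2.** The torus. -/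
def St_tv : Prop := ∀ (B : Type) [Fintype B] [DecidableEq B] (Om : Matrix B B ℂ)
  (L : Submodule ℂ (Matrix B B ℂ)), IsOm Om → LD Om L → ∀ e, Pu L e → ∀ D ∈ L, Dᴴ = D →
  D * D = 1 → ∃ (r : ℕ) (T : Fin r → Matrix B B ℂ) (h : Fin r → ℝ), TV (Ide L e) D r T h

/-- **H3.** The root vectors. -/
def St_rv : Prop := ∀ (B : Type) [Fintype B] [DecidableEq B] (Om : Matrix B B ℂ)
  (L : Submodule ℂ (Matrix B B ℂ)), IsOm Om → LD Om L → ∀ e, Pu L e → ∀ D ∈ L, Dᴴ = D →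
  D * D = 1 → (∀ c : ℂ, D * e ≠ c • e) → ∀ (r : ℕ) (T : Fin r → Matrix B B ℂ) (h : Fin r → ℝ),
  TV (Ide L e) D r T h → ∃ (Φ : Finset (Fin r → ℝ)) (X : (Fin r → ℝ) → Matrix B B ℂ),
    RV (Ide L e) D r T Φ X h

/-- **H4.** The weight vectors. -/
def St_mv : Prop := ∀ (B : Type) [Fintype B] [DecidableEq B] (Om : Matrix B B ℂ)
  (L : Submodule ℂ (Matrix B B ℂ)) (e₀ D : Matrix B B ℂ) (r : ℕ) (T : Fin r → Matrix B B ℂ)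
  (Φ : Finset (Fin r → ℝ)) (X : (Fin r → ℝ) → Matrix B B ℂ) (h : Fin r → ℝ),
  Rd Om L e₀ D r T Φ X h → ∀ e, Mi L e → Ide L e = Ide L e₀ →
  ∃ (S : Finset (Fin r → ℝ)) (v : (Fin r → ℝ) → B → ℂ), MV T Φ X h e S v

/-- **H5.** Modules with the same weights are linked. -/
def St_hw : Prop := ∀ (B : Type) [Fintype B] [DecidableEq B] (Om : Matrix B B ℂ)
  (L : Submodule ℂ (Matrix B B ℂ)) (e₀ D : Matrix B B ℂ) (r : ℕ) (T : Fin r → Matrix B B ℂ)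
  (Φ : Finset (Fin r → ℝ)) (X : (Fin r → ℝ) → Matrix B B ℂ) (h : Fin r → ℝ),
  Rd Om L e₀ D r T Φ X h → ∀ e e', Mi L e → Mi L e' → Ide L e = Ide L e₀ → Ide L e' = Ide L e₀ →
  ∀ (S S' : Finset (Fin r → ℝ)) (v v' : (Fin r → ℝ) → B → ℂ), MV T Φ X h e S v →
  MV T Φ X h e' S' v' →
  (S' = S → ∃ M : Matrix B B ℂ, M ≠ 0 ∧ e * M = M ∧ (∀ Y ∈ Dr L, Y * M = M * Y) ∧ M * e' = M) ∧
  ((∀ x, x ∈ S' ↔ -x ∈ S) → ∃ M : Matrix B B ℂ, M ≠ 0 ∧ e * M = M ∧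
    (∀ Y ∈ Dr L, Y * M = M * Y) ∧ M * st Om e' = M)

/-- **H6.** Type 1 is the special linear case. -/
def St_t1 : Prop := ∀ (B : Type) [Fintype B] [DecidableEq B] (Om : Matrix B B ℂ)
  (L : Submodule ℂ (Matrix B B ℂ)) (e D : Matrix B B ℂ) (r : ℕ) (T : Fin r → Matrix B B ℂ)
  (Φ : Finset (Fin r → ℝ)) (X : (Fin r → ℝ) → Matrix B B ℂ) (h : Fin r → ℝ),
  Rd Om L e D r T Φ X h → ∀ (S : Finset (Fin r → ℝ)) (v : (Fin r → ℝ) → B → ℂ),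
  MV T Φ X h e S v → Ty1 Φ S → Sl L e

/-- **H7.** Types 2 and 6 are the orthogonal and symplectic cases. -/
def St_t2 : Prop := ∀ (B : Type) [Fintype B] [DecidableEq B] (Om : Matrix B B ℂ)
  (L : Submodule ℂ (Matrix B B ℂ)) (e D : Matrix B B ℂ) (r : ℕ) (T : Fin r → Matrix B B ℂ)
  (Φ : Finset (Fin r → ℝ)) (X : (Fin r → ℝ) → Matrix B B ℂ) (h : Fin r → ℝ),
  Rd Om L e D r T Φ X h → ∀ (S : Finset (Fin r → ℝ)) (v : (Fin r → ℝ) → B → ℂ),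
  MV T Φ X h e S v → (Ty2 Φ S ∨ Ty6 Φ S) → Fu L e

/-- **H8.** Type 3 is the case of exterior powers. -/
def St_t3 : Prop := ∀ (B : Type) [Fintype B] [DecidableEq B] (Om : Matrix B B ℂ)
  (L : Submodule ℂ (Matrix B B ℂ)) (e D : Matrix B B ℂ) (r : ℕ) (T : Fin r → Matrix B B ℂ)
  (Φ : Finset (Fin r → ℝ)) (X : (Fin r → ℝ) → Matrix B B ℂ) (h : Fin r → ℝ),
  Rd Om L e D r T Φ X h → ∀ (S : Finset (Fin r → ℝ)) (v : (Fin r → ℝ) → B → ℂ),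
  MV T Φ X h e S v → Ty3 Φ h S → ATy L e

/-- **H9.** The group in the orthogonal and symplectic cases. -/
def St_funor : Prop := ∀ (B : Type) [Fintype B] [DecidableEq B] (Om : Matrix B B ℂ)
  (L : Submodule ℂ (Matrix B B ℂ)), IsOm Om → LD Om L → ∀ Dm : (ℂ ≃+* ℂ) → Matrix B B ℂ,
  Hull L Dm → ∀ u : USp Om, FixU Om L u → ∀ e, Fu L e → Nor Om L u e

/-- **H10.** The group in the spin cases. -/
def St_spnor : Prop := ∀ (B : Type) [Fintype B] [DecidableEq B] (Om : Matrix B B ℂ)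
  (L : Submodule ℂ (Matrix B B ℂ)) (e D : Matrix B B ℂ) (r : ℕ) (T : Fin r → Matrix B B ℂ)
  (Φ : Finset (Fin r → ℝ)) (X : (Fin r → ℝ) → Matrix B B ℂ) (h : Fin r → ℝ),
  Rd Om L e D r T Φ X h → ∀ (S : Finset (Fin r → ℝ)) (v : (Fin r → ℝ) → B → ℂ),
  MV T Φ X h e S v → (Ty4 Φ h S ∨ Ty5 Φ S) → ∀ u : USp Om, FixU Om L u → Nor Om L u e

/-- **H11.** The quadruple relation for half spin modules. -/
def St_quad : Prop := ∀ (B : Type) [Fintype B] [DecidableEq B] (Om : Matrix B B ℂ)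
  (L : Submodule ℂ (Matrix B B ℂ)) (e D : Matrix B B ℂ) (r : ℕ) (T : Fin r → Matrix B B ℂ)
  (Φ : Finset (Fin r → ℝ)) (X : (Fin r → ℝ) → Matrix B B ℂ) (h : Fin r → ℝ),
  Rd Om L e D r T Φ X h → ∀ (S : Finset (Fin r → ℝ)) (v : (Fin r → ℝ) → B → ℂ),
  MV T Φ X h e S v → Ty4 Φ h S → ¬ (∀ x ∈ S, -x ∈ S) → ∀ e' M : Matrix B B ℂ, Mi L e' → M ≠ 0 →
  e * M = M → M * e' = M → (∀ Y ∈ Dr L, Y * M = M * Y) →
  ∃ x : (Fin 4 → B) → ℂ, x ≠ 0 ∧ kpp ![e, e, e', e'] *ᵥ x = x ∧ ∀ Y ∈ Dr L, dm (Fin 4) Y *ᵥ x = 0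

/-- **H12.** All involutions have trace zero on half spin modules. -/
def St_fc0 : Prop := ∀ (B : Type) [Fintype B] [DecidableEq B] (Om : Matrix B B ℂ)
  (L : Submodule ℂ (Matrix B B ℂ)) (e D : Matrix B B ℂ) (r : ℕ) (T : Fin r → Matrix B B ℂ)
  (Φ : Finset (Fin r → ℝ)) (X : (Fin r → ℝ) → Matrix B B ℂ) (h : Fin r → ℝ),
  Rd Om L e D r T Φ X h → ∀ (S : Finset (Fin r → ℝ)) (v : (Fin r → ℝ) → B → ℂ),
  MV T Φ X h e S v → Ty4 Φ h S → ∀ D' ∈ L, D' * D' = 1 → (∀ c : ℂ, D' * e ≠ c • e) →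
  trace (D' * e) = 0

/-- **H13.** If `e` is not pure, the involutions fall in two commuting parts on `e`. -/
def St_dec2 : Prop := ∀ (B : Type) [Fintype B] [DecidableEq B] (Om : Matrix B B ℂ)
  (L : Submodule ℂ (Matrix B B ℂ)), IsOm Om → LD Om L → ∀ Dm : (ℂ ≃+* ℂ) → Matrix B B ℂ,
  Hull L Dm → ∀ e, Mi L e → ¬ trace e = 1 → ¬ Pu L e → DecL Dm e

/-- **H14.** The recursion. -/
def St_red : Prop := ∀ (B : Type) [Fintype B] [DecidableEq B] (Om : Matrix B B ℂ)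
  (L : Submodule ℂ (Matrix B B ℂ)), IsOm Om → LD Om L → ∀ u : USp Om, FixU Om L u →
  ∀ T : Set (Matrix B B ℂ), (∀ e, Li L e → e ∈ T) → (∀ e ∈ T, Mi L e) →
  (∀ e, Mi L e → e ∈ T ∨ ∃ e₁ e₂ f, Mi L e₁ ∧ Mi L e₂ ∧ Li L f ∧ (trace e₁).re < (trace e).re ∧
    (trace e₂).re < (trace e).re ∧ ∃ t ∈ InvL L (Fin 4), t ≠ 0 ∧
      kpp ![st Om e, e₁, e₂, f] *ᵥ t = t) →
  (∀ (κ : Type) [Fintype κ] [DecidableEq κ] (e : κ → Matrix B B ℂ), (∀ k, e k ∈ T) →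
    ∀ x ∈ InvL L κ, kpp e *ᵥ x = x → kp κ (mt u) *ᵥ x = x) →
  ∀ (κ : Type) [Fintype κ] [DecidableEq κ], ∀ x ∈ InvL L κ, kp κ (mt u) *ᵥ x = x

end

end Pool.Agent.NH32
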