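import Mathlib
import Pool.Agent.NH32.GsB
import Pool.Agent.NH32.GtA

/-!
# Project G, stage 2: families of involutions, definitions and statements
-/

set_option linter.unusedSectionVars false

namespace Pool.Agent.NH32

open Matrix Module Pool.Agent.W437.HC Pool.Agent.W437.HD Pool.Agent.TH504.CB Pool.Agent.Y90
open Pool.Agent.H204R3.CM (IsHodge)
open Pool.Agent.W548.Odd hiding cv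
open scoped ComplexOrder

noncomputable section

/-- The conjugate family: `σ ↦ ρ (Δ (ρ⁻¹ σ))`. -/
def Cjf {d : ℕ} (Δ : (ℂ ≃+* ℂ) → Matrix (Fin d) (Fin d) ℂ) (ρ : ℂ ≃+* ℂ) :
    (ℂ ≃+* ℂ) → Matrix (Fin d) (Fin d) ℂ := fun σ => (Δ (σ.trans ρ.symm)).map ρ

/-- Good families: they come from abelian varieties. -/
structure Gd {d : ℕ} (Δ : (ℂ ≃+* ℂ) → Matrix (Fin d) (Fin d) ℂ) : Prop where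
  sq : ∀ σ, Δ σ * Δ σ = 1
  odd : ∀ σ, Δ (cj.trans σ) = -Δ σ
  eqv : ∃ K : Subfield ℂ, FiniteDimensional ℚ K ∧ ∀ τ : ℂ ≃+* ℂ, (∀ z ∈ K, τ z = z) →
    ∀ σ, Δ (σ.trans τ) = (Δ σ).map τ
  uni : ∀ ρ : ℂ ≃+* ℂ, ∃ S : Matrix (Fin d) (Fin d) ℂ, S.PosDef ∧ ∀ σ, (Cjf Δ ρ σ)ᴴ * S =
    -(S * (Cjf Δ ρ (RingEquiv.refl ℂ) * Cjf Δ ρ (σ.trans cj) * Cjf Δ ρ (RingEquiv.refl ℂ)))

/-- Isomorphic families. -/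
def IsoD {d : ℕ} (Δ Δ' : (ℂ ≃+* ℂ) → Matrix (Fin d) (Fin d) ℂ) : Prop :=
  ∃ G Gi : Matrix (Fin d) (Fin d) ℂ, G * Gi = 1 ∧ Gi * G = 1 ∧ ∀ σ, Δ' σ * G = G * Δ σ

/-- The Lie algebra generated by the family. -/
def LieD {d : ℕ} (Δ : (ℂ ≃+* ℂ) → Matrix (Fin d) (Fin d) ℂ) :
    Submodule ℂ (Matrix (Fin d) (Fin d) ℂ) where
  carrier := {T | InD Δ T}
  add_mem' := fun h h' M h1 h2 => M.add_mem (h M h1 h2) (h' M h1 h2)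
  zero_mem' := fun M _ _ => M.zero_mem
  smul_mem' := fun c _ h M h1 h2 => M.smul_mem c (h M h1 h2)

/-- The involutions fall in two commuting parts, both not scalar. -/
def DecD {d : ℕ} (Δ : (ℂ ≃+* ℂ) → Matrix (Fin d) (Fin d) ℂ) : Prop :=
  ∃ J : Set (ℂ ≃+* ℂ), (∀ σ ∈ J, ∀ τ, τ ∉ J → Δ σ * Δ τ = Δ τ * Δ σ) ∧
    (∃ σ ∈ J, ∀ c : ℂ, Δ σ ≠ c • (1 : Matrix (Fin d) (Fin d) ℂ)) ∧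
    ∃ τ, τ ∉ J ∧ ∀ c : ℂ, Δ τ ≠ c • (1 : Matrix (Fin d) (Fin d) ℂ)

/-- The Lie algebra acts as on the exterior power of the standard representation of `sl n`. -/
structure ATD {d : ℕ} (Δ : (ℂ ≃+* ℂ) → Matrix (Fin d) (Fin d) ℂ) (n k : ℕ)
    (φ : Matrix (Fin d) (Fin d) ℂ →ₗ[ℂ] Matrix (Fin n) (Fin n) ℂ)
    (ι : (Fin d → ℂ) →ₗ[ℂ] ((Fin k → Fin n) → ℂ)) : Prop where
  k2 : 2 ≤ k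
  kn : k + 2 ≤ n
  br : ∀ X ∈ LieD Δ, ∀ Y ∈ LieD Δ, φ (X * Y - Y * X) = φ X * φ Y - φ Y * φ X
  tr : ∀ X ∈ LieD Δ, trace (φ X) = 0
  on : ∀ Z, trace Z = 0 → ∃ X ∈ LieD Δ, φ X = Z
  sc : ∀ X ∈ LieD Δ, (∃ c : ℂ, X = c • (1 : Matrix (Fin d) (Fin d) ℂ)) → φ X = 0
  al : ∀ v, IsAlt (ι v)
  inj : ∀ v, ι v = 0 → v = 0
  sur : ∀ x, IsAlt x → ∃ v, ι v = x
  eqv : ∀ X ∈ LieD Δ, ∀ v, ι (X *ᵥ v) = dm (Fin k) (φ X) *ᵥ ι v + (trace X / d) • ι v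

/-- The family with the signs of the scalar members changed. -/
def twD {d : ℕ} (Δ : (ℂ ≃+* ℂ) → Matrix (Fin d) (Fin d) ℂ) (σ : ℂ ≃+* ℂ) :
    Matrix (Fin d) (Fin d) ℂ :=
  open Classical in if ∃ c : ℂ, Δ σ = c • (1 : Matrix (Fin d) (Fin d) ℂ) then -Δ σ else Δ σ

/-- The action on the tensor product of two modules and a line. -/
def tpD {d₁ d₂ : ℕ} (A : Matrix (Fin d₁) (Fin d₁) ℂ) (A' : Matrix (Fin d₂) (Fin d₂) ℂ) (c : ℂ) :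
    Matrix (Fin d₁ × Fin d₂) (Fin d₁ × Fin d₂) ℂ :=
  kroneckerMap (fun a b => a * b) A (1 : Matrix (Fin d₂) (Fin d₂) ℂ) +
    kroneckerMap (fun a b => a * b) (1 : Matrix (Fin d₁) (Fin d₁) ℂ) A' + c • 1

/-- A nonzero homomorphism between the module of `Δ` and the tensor product of the modules of `Δ₁`,
`Δ₂` and the line of `F`, in one direction or the other. -/
def RedD {d d₁ d₂ : ℕ} (Δ : (ℂ ≃+* ℂ) → Matrix (Fin d) (Fin d) ℂ)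
    (Δ₁ : (ℂ ≃+* ℂ) → Matrix (Fin d₁) (Fin d₁) ℂ) (Δ₂ : (ℂ ≃+* ℂ) → Matrix (Fin d₂) (Fin d₂) ℂ)
    (F : (ℂ ≃+* ℂ) → ℤ) : Prop :=
  (∃ N : Matrix (Fin d) (Fin d₁ × Fin d₂) ℂ, N ≠ 0 ∧ ∀ σ, Δ σ * N = N * tpD (Δ₁ σ) (Δ₂ σ) (F σ)) ∨
  ∃ N : Matrix (Fin d₁ × Fin d₂) (Fin d) ℂ, N ≠ 0 ∧ ∀ σ, tpD (Δ₁ σ) (Δ₂ σ) (F σ) * N = N * Δ σ

/-- Reduction to good families of smaller dimension. -/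
def RedE {d : ℕ} (Δ : (ℂ ≃+* ℂ) → Matrix (Fin d) (Fin d) ℂ) : Prop :=
  ∃ (d₁ d₂ : ℕ) (Δ₁ : (ℂ ≃+* ℂ) → Matrix (Fin d₁) (Fin d₁) ℂ)
    (Δ₂ : (ℂ ≃+* ℂ) → Matrix (Fin d₂) (Fin d₂) ℂ) (F : (ℂ ≃+* ℂ) → ℤ), 0 < d₁ ∧ 0 < d₂ ∧ d₁ < d ∧
    d₂ < d ∧ Gd Δ₁ ∧ Gd Δ₂ ∧ (∀ σ, F σ = 1 ∨ F σ = -1) ∧ Gd (lineD F) ∧ RedD Δ Δ₁ Δ₂ F

/-- Reduction inside `X`. -/
def RedX {d : ℕ} (X : AV) (Δ : (ℂ ≃+* ℂ) → Matrix (Fin d) (Fin d) ℂ) : Prop :=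
  ∃ (d₁ d₂ : ℕ) (Δ₁ : (ℂ ≃+* ℂ) → Matrix (Fin d₁) (Fin d₁) ℂ)
    (Δ₂ : (ℂ ≃+* ℂ) → Matrix (Fin d₂) (Fin d₂) ℂ) (F : (ℂ ≃+* ℂ) → ℤ), d₁ < d ∧ d₂ < d ∧
    Rz X d₁ Δ₁ ∧ Rz X d₂ Δ₂ ∧ Rz X 1 (lineD F) ∧ RedD Δ Δ₁ Δ₂ F

/-- Linear maps with algebraic matrix entries. -/
def AlgM {d n : ℕ} (φ : Matrix (Fin d) (Fin d) ℂ →ₗ[ℂ] Matrix (Fin n) (Fin n) ℂ) : Prop :=
  ∀ i j a b, IsAlgebraic ℚ (φ (Matrix.single i j 1) a b)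

/-- The abelian variety contains all modules needed for the recursion. -/
def Hul2 (X : AV) : Prop :=
  HullAV X ∧ ∀ (d : ℕ) (Δ : (ℂ ≃+* ℂ) → Matrix (Fin d) (Fin d) ℂ), IrD Δ → Rz X d Δ → d ≠ 1 →
    Rz X d (twD Δ) ∧ ((DecD Δ ∨ ∃ n k φ ι, ATD Δ n k φ ι) → RedX X Δ)

/-- The module of `e` is isomorphic for the derived algebra to one where the scalar involutions have
the opposite sign. -/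
def Twc {B : Type} [Fintype B] [DecidableEq B] (L : Submodule ℂ (Matrix B B ℂ))
    (Dm : (ℂ ≃+* ℂ) → Matrix B B ℂ) (e : Matrix B B ℂ) : Prop :=
  ∃ e' M : Matrix B B ℂ, Mi L e' ∧ M ≠ 0 ∧ e * M = M ∧ M * e' = M ∧
    (∀ Y ∈ Dr L, Y * M = M * Y) ∧ ∀ σ, (∃ c : ℂ, Dm σ * e = c • e) → fc e' (Dm σ) = -fc e (Dm σ)

/-- Reduction of a minimal idempotent. -/
def RedL {B : Type} [Fintype B] [DecidableEq B] (Om : Matrix B B ℂ)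
    (L : Submodule ℂ (Matrix B B ℂ)) (e : Matrix B B ℂ) : Prop :=
  ∃ e₁ e₂ f, Mi L e₁ ∧ Mi L e₂ ∧ Li L f ∧ (trace e₁).re < (trace e).re ∧
    (trace e₂).re < (trace e).re ∧ ∃ t ∈ InvL L (Fin 4), t ≠ 0 ∧ kpp ![st Om e, e₁, e₂, f] *ᵥ t = t

/-- **K1.** Abelian varieties from matrices. -/
def St_ej : Prop := ∀ (N : ℕ) (J : Matrix (Fin N) (Fin N) ℝ) (M : Matrix (Fin N) (Fin N) ℚ),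
  J * J = -1 → Mᵀ = -M → Jᵀ * M.map (fun x : ℚ => (x : ℝ)) + M.map (fun x : ℚ => (x : ℝ)) * J = 0 →
  (∀ x, x ≠ 0 → 0 < (J *ᵥ x) ⬝ᵥ (M.map (fun x : ℚ => (x : ℝ)) *ᵥ x)) →
  ∃ (Y : AV) (e : Y.H ≃ₗ[ℚ] (Fin N → ℚ)), ∀ f : Y.H →ₗ[ℚ] ℂ, H10 Y f ↔
    (J.map (fun x : ℝ => (x : ℂ)))ᵀ *ᵥ (fun b => f (e.symm (Pi.single b 1))) =
      Complex.I • fun b => f (e.symm (Pi.single b 1))

/-- **K2.** Rational polarizations from real ones. -/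
def St_pd : Prop := ∀ (N : ℕ) (J M₀ : Matrix (Fin N) (Fin N) ℝ), J * J = -1 → M₀ᵀ = -M₀ →
  (∀ σ : ℂ ≃+* ℂ, (((Complex.I • J.map (fun x : ℝ => (x : ℂ))).map σ)ᵀ *
    M₀.map (fun x : ℝ => (x : ℂ)) + M₀.map (fun x : ℝ => (x : ℂ)) *
    (Complex.I • J.map (fun x : ℝ => (x : ℂ))).map σ = 0)) →
  (∀ x, x ≠ 0 → 0 < (J *ᵥ x) ⬝ᵥ (M₀ *ᵥ x)) →
  ∃ M : Matrix (Fin N) (Fin N) ℚ, Mᵀ = -M ∧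
    Jᵀ * M.map (fun x : ℚ => (x : ℝ)) + M.map (fun x : ℚ => (x : ℝ)) * J = 0 ∧
    ∀ x, x ≠ 0 → 0 < (J *ᵥ x) ⬝ᵥ (M.map (fun x : ℚ => (x : ℝ)) *ᵥ x)

/-- **K3.** The matrices belonging to a good family. -/
def St_gdm : Prop := ∀ (d : ℕ) (Δ : (ℂ ≃+* ℂ) → Matrix (Fin d) (Fin d) ℂ), 0 < d → Gd Δ →
  ∃ (N : ℕ) (J M₀ : Matrix (Fin N) (Fin N) ℝ), J * J = -1 ∧ M₀ᵀ = -M₀ ∧
  (∀ σ : ℂ ≃+* ℂ, (((Complex.I • J.map (fun x : ℝ => (x : ℂ))).map σ)ᵀ *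
    M₀.map (fun x : ℝ => (x : ℂ)) + M₀.map (fun x : ℝ => (x : ℂ)) *
    (Complex.I • J.map (fun x : ℝ => (x : ℂ))).map σ = 0)) ∧
  (∀ x, x ≠ 0 → 0 < (J *ᵥ x) ⬝ᵥ (M₀ *ᵥ x)) ∧
  (∃ P : Fin d → (Fin N → ℂ), LinearIndependent ℂ P ∧ ∀ σ : ℂ ≃+* ℂ, ∀ j,
    ((-(Complex.I • J.map (fun x : ℝ => (x : ℂ)))).map σ)ᵀ *ᵥ P j = ∑ i, Δ σ i j • P i) ∧
  ∀ (d' : ℕ) (Δ' : (ℂ ≃+* ℂ) → Matrix (Fin d') (Fin d') ℂ), IrD Δ' →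
    (∃ P : Fin d' → (Fin N → ℂ), LinearIndependent ℂ P ∧ ∀ σ : ℂ ≃+* ℂ, ∀ j,
      ((-(Complex.I • J.map (fun x : ℝ => (x : ℂ)))).map σ)ᵀ *ᵥ P j = ∑ i, Δ' σ i j • P i) →
    ∃ (ρ : ℂ ≃+* ℂ) (G : Matrix (Fin d) (Fin d') ℂ), G ≠ 0 ∧ ∀ σ, Cjf Δ ρ σ * G = G * Δ' σ

/-- **K4.** Good families are realized by abelian varieties. -/
def St_ex : Prop := ∀ (d : ℕ) (Δ : (ℂ ≃+* ℂ) → Matrix (Fin d) (Fin d) ℂ), 0 < d → Gd Δ →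
  ∃ Y : AV, Rz Y d Δ ∧ ∀ (d' : ℕ) (Δ' : (ℂ ≃+* ℂ) → Matrix (Fin d') (Fin d') ℂ), IrD Δ' →
    Rz Y d' Δ' → d' ≤ d ∧
      ∃ (ρ : ℂ ≃+* ℂ) (G : Matrix (Fin d) (Fin d') ℂ), G ≠ 0 ∧ ∀ σ, Cjf Δ ρ σ * G = G * Δ' σ

/-- **K5.** The constituents of abelian varieties are good families. -/
def St_df : Prop := ∀ (X : AV) (d : ℕ) (Δ : (ℂ ≃+* ℂ) → Matrix (Fin d) (Fin d) ℂ), IrD Δ →
  Rz X d Δ → ∃ Δ' : (ℂ ≃+* ℂ) → Matrix (Fin d) (Fin d) ℂ, Gd Δ' ∧ IrD Δ' ∧ IsoD Δ Δ'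

/-- **K6a.** Specialization of complex numbers to algebraic numbers. -/
def St_spr : Prop := ∀ (m : ℕ) (z : Fin m → ℂ), ∃ (R : Subring ℂ) (f : R →+* ℂ),
  (∀ i, z i ∈ R) ∧ (∀ x : ℂ, IsAlgebraic ℚ x → ∃ hx : x ∈ R, f ⟨x, hx⟩ = x) ∧
    ∀ x : R, IsAlgebraic ℚ (f x)

/-- **K6b.** Spaces of matrices stable under the automorphisms of `ℂ` over a number field are spanned
by matrices with algebraic entries. -/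
def St_lalg : Prop := ∀ (d : ℕ) (M : Submodule ℂ (Matrix (Fin d) (Fin d) ℂ)),
  (∃ K : Subfield ℂ, FiniteDimensional ℚ K ∧
    ∀ τ : ℂ ≃+* ℂ, (∀ z ∈ K, τ z = z) → ∀ X ∈ M, X.map τ ∈ M) →
  ∃ (m : ℕ) (X : Fin m → Matrix (Fin d) (Fin d) ℂ), LinearIndependent ℂ X ∧
    Submodule.span ℂ (Set.range X) = M ∧ ∀ a i j, IsAlgebraic ℚ (X a i j)

/-- **K7.** The decomposable case. -/
def St_r1 : Prop := ∀ (d : ℕ) (Δ : (ℂ ≃+* ℂ) → Matrix (Fin d) (Fin d) ℂ), Gd Δ → IrD Δ →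
  DecD Δ → RedE Δ

/-- **K8.** Algebraicity in the case of exterior powers. -/
def St_r2a : Prop := ∀ (d : ℕ) (Δ : (ℂ ≃+* ℂ) → Matrix (Fin d) (Fin d) ℂ), Gd Δ → IrD Δ →
  ∀ n k φ ι, ATD Δ n k φ ι → ∃ φ' ι', ATD Δ n k φ' ι' ∧ AlgM φ'

/-- **K9a.** New good families from representations. -/
def St_fam : Prop := ∀ (d : ℕ) (Δ : (ℂ ≃+* ℂ) → Matrix (Fin d) (Fin d) ℂ), Gd Δ →
  ∀ (m : ℕ) (φ : Matrix (Fin d) (Fin d) ℂ →ₗ[ℂ] Matrix (Fin m) (Fin m) ℂ)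
    (s : (ℂ ≃+* ℂ) → ℚ), AlgM φ →
  (∀ X ∈ LieD Δ, ∀ Y ∈ LieD Δ, φ (X * Y - Y * X) = φ X * φ Y - φ Y * φ X) →
  (∀ σ, (φ (Δ σ) + (s σ : ℂ) • 1) * (φ (Δ σ) + (s σ : ℂ) • 1) = 1) →
  (∀ σ, s (cj.trans σ) = -s σ) →
  (∀ ρ σ : ℂ ≃+* ℂ, s ((σ.trans cj).trans ρ) = -s (σ.trans ρ)) →
  (∃ K : Subfield ℂ, FiniteDimensional ℚ K ∧ ∀ τ : ℂ ≃+* ℂ, (∀ z ∈ K, τ z = z) →
    ∀ σ : ℂ ≃+* ℂ, s (σ.trans τ) = s σ) →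
  (∀ ρ : ℂ ≃+* ℂ, ∃ S : Matrix (Fin m) (Fin m) ℂ, S.PosDef ∧ ∀ σ : ℂ ≃+* ℂ,
    ((φ (Δ (σ.trans ρ.symm))).map ρ)ᴴ * S = -(S * (φ (Δ ρ.symm * Δ ((σ.trans cj).trans ρ.symm) *
      Δ ρ.symm)).map ρ)) →
  Gd fun σ => φ (Δ σ) + (s σ : ℂ) • (1 : Matrix (Fin m) (Fin m) ℂ)

/-- **K9b.** Duals, conjugates and twists of good families. -/
def St_dtc : Prop := ∀ (d : ℕ) (Δ : (ℂ ≃+* ℂ) → Matrix (Fin d) (Fin d) ℂ), 0 < d → Gd Δ →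
  Gd (fun σ => -(Δ σ)ᵀ) ∧ (∀ ρ, Gd (Cjf Δ ρ)) ∧ Gd (twD Δ)

/-- **K10.** Unitarizability. -/
def St_unit : Prop := ∀ (d n : ℕ) (L : Submodule ℂ (Matrix (Fin d) (Fin d) ℂ))
  (S₀ : Matrix (Fin d) (Fin d) ℂ), S₀.PosDef → (∀ X ∈ L, ∀ Y ∈ L, X * Y - Y * X ∈ L) →
  (∀ X ∈ L, S₀⁻¹ * Xᴴ * S₀ ∈ L) →
  ∀ φ : Matrix (Fin d) (Fin d) ℂ →ₗ[ℂ] Matrix (Fin n) (Fin n) ℂ, 3 ≤ n →
  (∀ X ∈ L, ∀ Y ∈ L, φ (X * Y - Y * X) = φ X * φ Y - φ Y * φ X) → (∀ X ∈ L, trace (φ X) = 0) →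
  (∀ Z, trace Z = 0 → ∃ X ∈ L, φ X = Z) →
  (∀ X ∈ L, φ X = 0 ↔ ∃ c : ℂ, X = c • (1 : Matrix (Fin d) (Fin d) ℂ)) →
  ∃ S : Matrix (Fin n) (Fin n) ℂ, S.PosDef ∧ ∀ X ∈ L, (φ X)ᴴ * S = S * φ (S₀⁻¹ * Xᴴ * S₀)

/-- **K11.** The involutions in the case of exterior powers. -/
def St_typ : Prop := ∀ (d : ℕ) (Δ : (ℂ ≃+* ℂ) → Matrix (Fin d) (Fin d) ℂ), Gd Δ → IrD Δ →
  ∀ n k φ ι, ATD Δ n k φ ι → ∀ σ,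
    ((∃ c : ℂ, (c = 1 ∨ c = -1) ∧ Δ σ = c • (1 : Matrix (Fin d) (Fin d) ℂ)) ∧ φ (Δ σ) = 0) ∨
    ∃ (P : Matrix (Fin n) (Fin n) ℂ) (t : ℤ), P * P = P ∧ trace P = 1 ∧ (t = 1 ∨ t = -1) ∧
      φ (Δ σ) = (t : ℂ) • ((2 : ℂ) • P - (2 / n : ℂ) • 1) ∧ trace (Δ σ) / d = t * (2 * k / n - 1)

/-- **K12.** The case of exterior powers. -/
def St_r2 : Prop := ∀ (d : ℕ) (Δ : (ℂ ≃+* ℂ) → Matrix (Fin d) (Fin d) ℂ), Gd Δ → IrD Δ →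
  (∃ n k φ ι, ATD Δ n k φ ι) → RedE Δ

/-- **K13a.** Finitely many constituents. -/
def St_fin : Prop := ∀ X : AV, ∃ (m : ℕ) (d : Fin m → ℕ)
  (Δ : ∀ i, (ℂ ≃+* ℂ) → Matrix (Fin (d i)) (Fin (d i)) ℂ), (∀ i, IrD (Δ i) ∧ Rz X (d i) (Δ i)) ∧
    ∀ (d' : ℕ) (Δ' : (ℂ ≃+* ℂ) → Matrix (Fin d') (Fin d') ℂ), IrD Δ' → Rz X d' Δ' →
      ∃ i, ∃ G : Matrix (Fin (d i)) (Fin d') ℂ, G ≠ 0 ∧ ∀ σ, Δ i σ * G = G * Δ' σ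

/-- **K13b.** The large hull. -/
def St_hul2 : Prop := ∀ A : AV, ∃ X : AV, Fac A X ∧ Hul2 X

/-- **K14.** From abelian varieties to matrices. -/
def St_br : Prop := ∀ (g : ℕ) (Z : Matrix (Fin g) (Fin g) ℂ) (X : AV)
  (e : X.H ≃ₗ[ℚ] (Fin g ⊕ Fin g → ℚ)) (y yi : Matrix (Fin g ⊕ Fin g) (Fin g ⊕ Fin g) ℝ), PM Z →
  Cht (X.per.comp e.symm.toLinearMap.toAddMonoidHom) (JR Z) → YD Z y yi → Hul2 X →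
  ∀ ε, Mi (Ly Z y yi) ε → ¬ trace ε = 1 → Twc (Ly Z y yi) (Dy Z y yi) ε ∧
    ((DecL (Dy Z y yi) ε ∨ ATy (Ly Z y yi) ε) → RedL (Oy yi) (Ly Z y yi) ε)

end

end Pool.Agent.NH32
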