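import Mathlib
import Pool.Agent.NH32.GtB

/-!
# Project G, stage 3: split Weil classes, definitions and statements
-/

set_option linter.unusedSectionVars false

namespace Pool.Agent.NH32

open Matrix Module Pool.Agent.W437.HC Pool.Agent.W437.HD Pool.Agent.TH504.CB Pool.Agent.Y90
open Pool.Agent.H204R3.CM (IsHodge)
open Pool.Agent.W548.Odd hiding cv

noncomputable section

/-- **Split Weil classes.** The Hodge class `w ∈ H^n(Y, ℚ)` is a split Weil class: there are a CM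
field `K` (a number field with a nontrivial automorphism `c` which is the complex conjugation in each
embedding) of endomorphisms (with rational coefficients) of the abelian variety `Y` such that
`H_1(Y, ℚ)` is a vector space of dimension `n` over `K`, a polarization `E` of `Y` whose Rosati
involution is the complex conjugation on `K`, and a `K`-subspace `W` of `H_1(Y, ℚ)` of half the
dimension with `E = 0` on `W`; and `w` belongs to the subspace `⋀_K^n H^1(Y, ℚ)`, that is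
`w (.., a v_k, .., v_l, ..) = w (.., v_k, .., a v_l, ..)` for `a ∈ K`. -/
def IsSplitWeil (Y : AV) {n : ℕ} (w : Y.H [⋀^Fin n]→ₗ[ℚ] ℚ) : Prop :=
  IsHodge Y.per w ∧ ∃ (K : Type) (_ : Field K) (_ : Algebra ℚ K) (ρ : K →ₐ[ℚ] Module.End ℚ Y.H)
    (c : K → K) (E : Y.H → Y.H → ℚ) (W : Submodule ℚ Y.H),
    FiniteDimensional ℚ K ∧ (∃ a, c a ≠ a) ∧
    (∀ (φ : K →+* ℂ) (a : K), φ (c a) = starRingEnd ℂ (φ a)) ∧
    (∀ a, IsHom Y Y (ρ a)) ∧ finrank ℚ Y.H = n * finrank ℚ K ∧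
    (∀ (a : K) (v : Fin n → Y.H) (k l : Fin n),
      w (Function.update v k (ρ a (v k))) = w (Function.update v l (ρ a (v l)))) ∧
    IsPolarization Y.per E ∧ (∀ a v v', E (ρ a v) v' = E v (ρ (c a) v')) ∧
    (∀ a, ∀ v ∈ W, ρ a v ∈ W) ∧ (∀ v ∈ W, ∀ v' ∈ W, E v v' = 0) ∧
    2 * finrank ℚ W = finrank ℚ Y.H

/-- CM fields in `ℂ`, Galois over `ℚ`, containing `i`. -/
structure CMF (K : Subfield ℂ) : Prop where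
  fin : FiniteDimensional ℚ K
  st : ∀ σ : ℂ ≃+* ℂ, ∀ z ∈ K, σ z ∈ K
  cc : ∀ σ : ℂ ≃+* ℂ, ∀ z ∈ K, σ (cj z) = cj (σ z)
  i : Complex.I ∈ K

/-- Complex conjugation on `K`. -/
def cjk {K : Subfield ℂ} (hK : CMF K) (z : K) : K := ⟨cj z, hK.st cj z z.2⟩

/-- The sign of the imaginary part of the conjugate by `σ⁻¹`. -/
def sgf (κ : ℂ) (σ : ℂ ≃+* ℂ) : ℤ := open Classical in if 0 < (σ.symm κ).im then 1 else -1

/-- The functional with values in `ℂ`. -/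
def toC {K : Subfield ℂ} {H : Type} [AddCommGroup H] [Module ℚ H] (f : H →ₗ[ℚ] K) : H →ₗ[ℚ] ℂ where
  toFun x := (f x : ℂ)
  map_add' x y := by rw [map_add]; rfl
  map_smul' c x := by
    rw [map_smul, RingHom.id_apply, Rat.smul_def, Rat.smul_def]
    rfl

/-- The multiplication by `a` on the vector space `K ^ ι`. -/
def scK (K : Subfield ℂ) (ι : Type) (a : K) : (ι → K) →ₗ[ℚ] (ι → K) :=
  LinearMap.pi fun j => LinearMap.mulLeft ℚ a ∘ₗ LinearMap.proj j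

/-- The form `∑ Tr (κ_j x_j (conjugate of y_j))` on `K ^ ι`. -/
def frK {K : Subfield ℂ} (hK : CMF K) {ι : Type} [Fintype ι] (κ : ι → K) (x y : ι → K) : ℚ :=
  Algebra.trace ℚ K (∑ j, κ j * x j * cjk hK (y j))

/-- The field `K` acts on `Y` by homomorphisms, via the coordinates `b`. -/
def KAct {K : Subfield ℂ} {ι : Type} {Y : AV} (b : Y.H ≃ₗ[ℚ] (ι → K)) : Prop :=
  ∀ a : K, IsHom Y Y (b.symm.toLinearMap ∘ₗ scK K ι a ∘ₗ b.toLinearMap)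

/-- The functionals `P j : H_1(X) → K` give homomorphisms from `X` to `Y`. -/
def KHom {K : Subfield ℂ} {ι : Type} {X Y : AV} (b : Y.H ≃ₗ[ℚ] (ι → K))
    (P : ι → (X.H →ₗ[ℚ] K)) : Prop :=
  ∀ a : K, IsHom X Y (b.symm.toLinearMap ∘ₗ scK K ι a ∘ₗ LinearMap.pi P)

/-- The class `w` is `Tr (a det)` in the coordinates `b`. -/
def IsDet {K : Subfield ℂ} {d : ℕ} {Y : AV} (b : Y.H ≃ₗ[ℚ] (Fin d ⊕ Fin d → K)) (a : K)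
    (w : Y.H [⋀^Fin (d + d)]→ₗ[ℚ] ℚ) : Prop :=
  ∀ v : Fin d ⊕ Fin d → Y.H, w (fun k => v (finSumFinEquiv.symm k)) =
    Algebra.trace ℚ K (a * det (of fun i j => b (v i) j))

/-- The determinant times a product of functionals, as a tensor. -/
def dT {B : Type} [Fintype B] [DecidableEq B] {d : ℕ} (P f : Fin d → B → ℂ)
    (J : Fin d ⊕ Fin d → B) : ℂ :=
  det (of fun i k : Fin d => P i (J (Sum.inl k))) * ∏ j, f j (J (Sum.inr j))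

/-- Multiplicative relations: the element fixes the invariants of degree two and four, and the
determinant of each irreducible module is a product of lines. -/
structure FixS {B : Type} [Fintype B] [DecidableEq B] (Om : Matrix B B ℂ)
    (L : Submodule ℂ (Matrix B B ℂ)) (u : USp Om) : Prop where
  f2 : ∀ x ∈ InvL L (Fin 2), kp (Fin 2) (mt u) *ᵥ x = x
  f4 : ∀ x ∈ InvL L (Fin 4), kp (Fin 4) (mt u) *ᵥ x = x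
  dl : ∀ e, Mi L e → ∃ (d : ℕ) (F : Fin d → Matrix B B ℂ) (b : Fin d → ℂ),
    (∀ j, Li L (F j) ∧ mt u * F j = b j • F j) ∧
    (∀ X ∈ L, trace (X * e) + ∑ j, fc (F j) X = 0) ∧ det (mt u * e + 1 - e) * ∏ j, b j = 1

/-- **D1.** The relations between lines follow from those of degree two and four. -/
def St_lin : Prop := ∀ (B : Type) [Fintype B] [DecidableEq B] (Om : Matrix B B ℂ)
  (L : Submodule ℂ (Matrix B B ℂ)), IsOm Om → LD Om L → ∀ Dm : (ℂ ≃+* ℂ) → Matrix B B ℂ,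
  Hull L Dm → ∀ u : USp Om, (∀ x ∈ InvL L (Fin 2), kp (Fin 2) (mt u) *ᵥ x = x) →
  (∀ x ∈ InvL L (Fin 4), kp (Fin 4) (mt u) *ᵥ x = x) →
  ∀ (s : ℕ) (F : Fin s → Matrix B B ℂ) (b : Fin s → ℂ),
  (∀ i, Li L (F i) ∧ mt u * F i = b i • F i) → (∀ X ∈ L, ∑ i, fc (F i) X = 0) → ∏ i, b i = 1

/-- **D2.** Minimal idempotents with entries in a CM field. -/
def St_rat : Prop := ∀ (g : ℕ) (Z : Matrix (Fin g) (Fin g) ℂ)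
  (y yi : Matrix (Fin g ⊕ Fin g) (Fin g ⊕ Fin g) ℝ), PM Z → YD Z y yi →
  ∃ K : Subfield ℂ, CMF K ∧ ∀ ε, Mi (Ly Z y yi) ε → ∃ ε' M, Mi (Ly Z y yi) ε' ∧
    (∀ i j, ((cm y)ᵀ * ε' * (cm yi)ᵀ) i j ∈ K) ∧ M ∈ CM (Ly Z y yi) ∧ M ≠ 0 ∧ ε * M = M ∧
    M * ε' = M

/-- **D3.** Skew Hermitian forms over `K` can be diagonalized. -/
def St_diag : Prop := ∀ (K : Subfield ℂ), CMF K → ∀ (B : Type) [Fintype B] [DecidableEq B]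
  (M : Matrix B B ℂ), (∀ i j, M i j ∈ K) → Mᴴ = -M → ∃ (d : ℕ) (v : Fin d → B → ℂ)
  (κ : Fin d → ℂ), (∀ j b, v j b ∈ K) ∧ LinearIndependent ℂ v ∧
    (∀ j, κ j ∈ K ∧ cj (κ j) = -κ j ∧ κ j ≠ 0) ∧
    M = ∑ j, κ j • vecMulVec (v j) (star (v j))

/-- **D4a.** Polarizations of quotients. -/
def St_polq : Prop := ∀ (X Y : AV) (R : X.H →ₗ[ℚ] Y.H), IsHom X Y R → Function.Surjective R →
  ∀ Ψ : X.T → X.T → ℂ, (∀ u', IsLinearMap ℂ fun u => Ψ u u') →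
  (∀ u u', Ψ u' u = starRingEnd ℂ (Ψ u u')) → (∀ u, 0 ≤ (Ψ u u).re) → ∀ E : Y.H → Y.H → ℚ,
  (∀ v w, (Ψ (X.per v) (X.per w)).im = E (R v) (R w)) → (∀ v, (∀ w, E v w = 0) → v = 0) →
  IsPolarization Y.per E

/-- **D4b.** The abelian variety with an action of `K` given by a module with coefficients in `K`. -/
def St_yk : Prop := ∀ (X : AV) (K : Subfield ℂ), CMF K → ∀ (d : ℕ) (P : Fin d → (X.H →ₗ[ℚ] K)),
  LinearIndependent ℂ (fun j => toC (P j)) →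
  (∀ σ j, ∃ c : Fin d → ℂ, IsD X σ (toC (P j)) (∑ i, c i • toC (P i))) →
  ∃ (Y : AV) (b : Y.H ≃ₗ[ℚ] (Fin d → K)), KAct b ∧ KHom b P

/-- **D4.** The abelian variety with an action of `K` given by a minimal idempotent. -/
def St_pola : Prop := ∀ (g : ℕ) (Z : Matrix (Fin g) (Fin g) ℂ) (X : AV)
  (e : X.H ≃ₗ[ℚ] (Fin g ⊕ Fin g → ℚ)) (y yi : Matrix (Fin g ⊕ Fin g) (Fin g ⊕ Fin g) ℝ), PM Z →
  Cht (X.per.comp e.symm.toLinearMap.toAddMonoidHom) (JR Z) → YD Z y yi →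
  ∀ (K : Subfield ℂ) (hK : CMF K) (ε : Matrix (Fin g ⊕ Fin g) (Fin g ⊕ Fin g) ℂ),
  Mi (Ly Z y yi) ε → ∀ (d : ℕ) (P : Fin d → (X.H →ₗ[ℚ] K)) (κ : Fin d → K),
  LinearIndependent ℂ (fun j => toC (P j)) → (∀ j, cjk hK (κ j) = -κ j ∧ κ j ≠ 0) →
  (cm y)ᵀ * ε * (cm yi)ᵀ * Om g ℂ =
    ∑ j, (κ j : ℂ) • vecMulVec (cof e (toC (P j))) (star (cof e (toC (P j)))) →
  ∃ (Y : AV) (b : Y.H ≃ₗ[ℚ] (Fin d → K)), KAct b ∧ KHom b P ∧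
    IsPolarization Y.per fun v w => frK hK (fun j => -κ j) (b v) (b w)

/-- **D5.** The signature. -/
def St_sig : Prop := ∀ (g : ℕ) (Z : Matrix (Fin g) (Fin g) ℂ)
  (y yi : Matrix (Fin g ⊕ Fin g) (Fin g ⊕ Fin g) ℝ), PM Z → YD Z y yi →
  ∀ (K : Subfield ℂ), CMF K → ∀ (ε : Matrix (Fin g ⊕ Fin g) (Fin g ⊕ Fin g) ℂ),
  Mi (Ly Z y yi) ε → ∀ (d : ℕ) (v : Fin d → (Fin g ⊕ Fin g) → ℂ) (κ : Fin d → ℂ),
  (∀ j b, v j b ∈ K) → LinearIndependent ℂ v → (∀ j, κ j ∈ K ∧ cj (κ j) = -κ j ∧ κ j ≠ 0) →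
  (cm y)ᵀ * ε * (cm yi)ᵀ * Om g ℂ = ∑ j, κ j • vecMulVec (v j) (star (v j)) →
  ∀ σ, trace (Dy Z y yi σ * ε) = ∑ j, (sgf (κ j) σ : ℂ)

/-- **D6.** Abelian varieties of CM type. -/
def St_cmav : Prop := ∀ (K : Subfield ℂ) (hK : CMF K) (d : ℕ) (κ : Fin d → K),
  (∀ j, cjk hK (κ j) = -κ j ∧ κ j ≠ 0) → ∃ (Y : AV) (b : Y.H ≃ₗ[ℚ] (Fin d → K)), KAct b ∧
    (IsPolarization Y.per fun v w => frK hK κ (b v) (b w)) ∧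
    ∀ (X : AV) (f : Fin d → (X.H →ₗ[ℚ] K)),
      (∀ j σ, IsD X σ (toC (f j)) ((-sgf (κ j) σ : ℂ) • toC (f j))) → KHom b f

/-- **D7a.** The Hodge classes in the split case. -/
def St_hsp : Prop := ∀ (K : Subfield ℂ) (hK : CMF K) (d : ℕ) (κ : Fin d → K), 0 < d →
  (∀ j, cjk hK (κ j) = -κ j ∧ κ j ≠ 0) → ∀ (Y : AV) (b : Y.H ≃ₗ[ℚ] (Fin d ⊕ Fin d → K)), KAct b →
  (IsPolarization Y.per fun v w => frK hK (Sum.elim (fun j => -κ j) κ) (b v) (b w)) →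
  ∀ (a : K) (w : Y.H [⋀^Fin (d + d)]→ₗ[ℚ] ℚ), IsDet b a w → IsHodge Y.per w

/-- **D7b.** The product. -/
def St_prK : Prop := ∀ (K : Subfield ℂ) (hK : CMF K) (d : ℕ) (κ κ' : Fin d → K) (Y₁ : AV)
  (b₁ : Y₁.H ≃ₗ[ℚ] (Fin d → K)), KAct b₁ →
  (IsPolarization Y₁.per fun v w => frK hK κ' (b₁ v) (b₁ w)) → ∀ (Y₂ : AV)
  (b₂ : Y₂.H ≃ₗ[ℚ] (Fin d → K)), KAct b₂ →
  (IsPolarization Y₂.per fun v w => frK hK κ (b₂ v) (b₂ w)) →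
  ∃ (Y : AV) (b : Y.H ≃ₗ[ℚ] (Fin d ⊕ Fin d → K)), KAct b ∧
    (IsPolarization Y.per fun v w => frK hK (Sum.elim κ' κ) (b v) (b w)) ∧
    (∀ (X : AV) (P : Fin d → (X.H →ₗ[ℚ] K)), KHom b₁ P → KHom b (Sum.elim P 0)) ∧
    ∀ (X : AV) (P : Fin d → (X.H →ₗ[ℚ] K)), KHom b₂ P → KHom b (Sum.elim 0 P)

/-- **D7c.** The classes are split Weil classes. -/
def St_spw : Prop := ∀ (K : Subfield ℂ) (hK : CMF K) (d : ℕ) (κ : Fin d → K), 0 < d →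
  (∀ j, cjk hK (κ j) = -κ j ∧ κ j ≠ 0) → ∀ (Y : AV) (b : Y.H ≃ₗ[ℚ] (Fin d ⊕ Fin d → K)), KAct b →
  (IsPolarization Y.per fun v w => frK hK (Sum.elim (fun j => -κ j) κ) (b v) (b w)) →
  ∀ (a : K) (w : Y.H [⋀^Fin (d + d)]→ₗ[ℚ] ℚ), IsDet b a w → IsSplitWeil Y w

/-- **D7d.** The tensors of the pull-backs. -/
def St_ten : Prop := ∀ (K : Subfield ℂ), CMF K → ∀ (d : ℕ) (Y : AV)
  (b : Y.H ≃ₗ[ℚ] (Fin d ⊕ Fin d → K)), ∀ 𝒜 : Sys,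
  (∀ (a : K) (w : Y.H [⋀^Fin (d + d)]→ₗ[ℚ] ℚ), IsDet b a w → 𝒜.A Y (Fin (d + d)) w) →
  ∀ (X : AV) (P f : Fin d → (X.H →ₗ[ℚ] K)), KHom b (Sum.elim P 0) →
  (∀ k, KHom b (Sum.elim 0 (Pi.single k (f k)))) →
  ∀ (B : Type) [Fintype B] [DecidableEq B] (e : X.H ≃ₗ[ℚ] (B → ℚ)),
    dT (fun j c => toC (P j) (e.symm (Pi.single c 1)))
      (fun j c => toC (f j) (e.symm (Pi.single c 1))) ∈ TQ e 𝒜 (Fin d ⊕ Fin d)

/-- **D8.** The action on the determinant tensor. -/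
def St_dT : Prop := ∀ (B : Type) [Fintype B] [DecidableEq B] (d : ℕ) (P f : Fin d → B → ℂ),
  LinearIndependent ℂ P → (∀ j, f j ≠ 0) → dT P f ≠ 0 ∧
  ∀ (u : Matrix B B ℂ) (C : Matrix (Fin d) (Fin d) ℂ) (b : Fin d → ℂ),
    (∀ i, u *ᵥ P i = ∑ k, C k i • P k) → (∀ j, u *ᵥ f j = b j • f j) →
    kp (Fin d ⊕ Fin d) u *ᵥ dT P f = (det C * ∏ j, b j) • dT P f ∧
    dm (Fin d ⊕ Fin d) u *ᵥ dT P f = (trace C + ∑ j, b j) • dT P f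

/-- **D9.** The large hull with further lines. -/
def St_hulK : Prop := ∀ X : AV, Hul2 X → ∀ K : Subfield ℂ, CMF K → ∃ X' : AV, Fac X X' ∧ Hul2 X' ∧
  (∀ F : (ℂ ≃+* ℂ) → ℤ, (∀ σ, F σ = 1 ∨ F σ = -1) → (∀ σ, F (cj.trans σ) = -F σ) →
    (∀ σ τ : ℂ ≃+* ℂ, (∀ z ∈ K, σ z = τ z) → F σ = F τ) → Rz X' 1 (lineD F)) ∧
  ∀ (d : ℕ) (Δ : (ℂ ≃+* ℂ) → Matrix (Fin d) (Fin d) ℂ), IrD Δ → Rz X' d Δ → d = 1 ∨ Rz X d Δ

/-- **D10.** Lines over `K`. -/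
def St_lineK : Prop := ∀ (X : AV) (K : Subfield ℂ), CMF K → ∀ F : (ℂ ≃+* ℂ) → ℤ,
  (∀ σ τ : ℂ ≃+* ℂ, (∀ z ∈ K, σ z = τ z) → F σ = F τ) → Rz X 1 (lineD F) →
  ∃ f : X.H →ₗ[ℚ] K, f ≠ 0 ∧ ∀ σ, IsD X σ (toC f) ((F σ : ℂ) • toC f)

/-- **D11.** The modules over a CM field. -/
def St_modK : Prop := ∀ X : AV, ∃ (K : Subfield ℂ) (hK : CMF K), ∀ (d : ℕ)
  (Δ : (ℂ ≃+* ℂ) → Matrix (Fin d) (Fin d) ℂ), IrD Δ → Rz X d Δ →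
  ∃ (P : Fin d → (X.H →ₗ[ℚ] K)) (κ : Fin d → K) (Δ' : (ℂ ≃+* ℂ) → Matrix (Fin d) (Fin d) ℂ)
    (Y : AV) (b : Y.H ≃ₗ[ℚ] (Fin d → K)), LinearIndependent ℂ (fun j => toC (P j)) ∧
    (∀ j, cjk hK (κ j) = -κ j ∧ κ j ≠ 0) ∧ IsoD Δ' Δ ∧
    (∀ σ j, IsD X σ (toC (P j)) (∑ i, Δ' σ i j • toC (P i))) ∧
    (∀ σ, trace (Δ σ) = ∑ j, (sgf (κ j) σ : ℂ)) ∧ KAct b ∧ KHom b P ∧
    IsPolarization Y.per fun v w => frK hK (fun j => -κ j) (b v) (b w)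

/-- **D12.** The tensors given by the split Weil classes. -/
def St_tnK : Prop := ∀ (X X' : AV), Fac X X' → ∀ (K : Subfield ℂ) (hK : CMF K),
  (∀ F : (ℂ ≃+* ℂ) → ℤ, (∀ σ, F σ = 1 ∨ F σ = -1) → (∀ σ, F (cj.trans σ) = -F σ) →
    (∀ σ τ : ℂ ≃+* ℂ, (∀ z ∈ K, σ z = τ z) → F σ = F τ) → Rz X' 1 (lineD F)) →
  ∀ d : ℕ, 0 < d → ∀ (P : Fin d → (X.H →ₗ[ℚ] K)) (κ : Fin d → K) (Y : AV)
    (b : Y.H ≃ₗ[ℚ] (Fin d → K)), LinearIndependent ℂ (fun j => toC (P j)) →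
  (∀ j, cjk hK (κ j) = -κ j ∧ κ j ≠ 0) → KAct b → KHom b P →
  (IsPolarization Y.per fun v w => frK hK (fun j => -κ j) (b v) (b w)) → ∀ 𝒜 : Sys,
  (∀ (Y : AV) (n : ℕ) (w : Y.H [⋀^Fin n]→ₗ[ℚ] ℚ), IsSplitWeil Y w → 𝒜.A Y (Fin n) w) →
  ∀ (B : Type) [Fintype B] [DecidableEq B] (e : X'.H ≃ₗ[ℚ] (B → ℚ)),
  ∃ P' f : Fin d → (X'.H →ₗ[ℚ] ℂ), LinearIndependent ℂ P' ∧ (∀ j, f j ≠ 0) ∧
    (∀ σ j (c : Fin d → ℂ), IsD X σ (toC (P j)) (∑ i, c i • toC (P i)) →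
      IsD X' σ (P' j) (∑ i, c i • P' i)) ∧
    (∀ σ j, IsD X' σ (f j) ((-sgf (κ j) σ : ℂ) • f j)) ∧
    dT (fun j c => P' j (e.symm (Pi.single c 1))) (fun j c => f j (e.symm (Pi.single c 1))) ∈
      TQ e 𝒜 (Fin d ⊕ Fin d)

/-- **D13.** The relation given by the tensor. -/
def St_dlM : Prop := ∀ (g : ℕ) (Z : Matrix (Fin g) (Fin g) ℂ) (X : AV)
  (e : X.H ≃ₗ[ℚ] (Fin g ⊕ Fin g → ℚ)) (y yi : Matrix (Fin g ⊕ Fin g) (Fin g ⊕ Fin g) ℝ), PM Z →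
  Cht (X.per.comp e.symm.toLinearMap.toAddMonoidHom) (JR Z) → YD Z y yi → ∀ 𝒜 : Sys,
  (∀ (Y : AV) (f : Y.H [⋀^Fin 2]→ₗ[ℚ] ℚ), IsHodge Y.per f → 𝒜.A Y (Fin 2) f) →
  ∀ u ∈ Fx (Oy yi) (TY e 𝒜 Z y yi), ∀ ε, Mi (Ly Z y yi) ε → ∀ (d : ℕ)
    (P : Matrix (Fin g ⊕ Fin g) (Fin d) ℂ) (Q : Matrix (Fin d) (Fin g ⊕ Fin g) ℂ), P * Q = ε →
  Q * P = 1 → ∀ (Δ' : (ℂ ≃+* ℂ) → Matrix (Fin d) (Fin d) ℂ) (s : Fin d → (ℂ ≃+* ℂ) → ℤ),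
  IsoD Δ' (fun σ => Q * Dy Z y yi σ * P) →
  (∀ σ, trace (Q * Dy Z y yi σ * P) = ∑ j, (s j σ : ℂ)) → ∀ P' f : Fin d → (X.H →ₗ[ℚ] ℂ),
  LinearIndependent ℂ P' → (∀ j, f j ≠ 0) → (∀ σ j, IsD X σ (P' j) (∑ i, Δ' σ i j • P' i)) →
  (∀ σ j, IsD X σ (f j) ((-s j σ : ℂ) • f j)) →
  dT (fun j => cof e (P' j)) (fun j => cof e (f j)) ∈ TQ e 𝒜 (Fin d ⊕ Fin d) →
  ∃ (F : Fin d → Matrix (Fin g ⊕ Fin g) (Fin g ⊕ Fin g) ℂ) (b : Fin d → ℂ),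
    (∀ j, Li (Ly Z y yi) (F j) ∧ mt u * F j = b j • F j) ∧
    (∀ X ∈ Ly Z y yi, trace (X * ε) + ∑ j, fc (F j) X = 0) ∧
    det (mt u * ε + 1 - ε) * ∏ j, b j = 1

end

end Pool.Agent.NH32
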