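import Mathlib
import Pool.Agent.NH32.GtD
import Pool.Agent.NH32.GJ3

/-!
# GD1: relations between lines (helper78)
-/

set_option linter.unusedSectionVars false

namespace Pool.Agent.NH32

open Matrix Module

noncomputable section

namespace GD1

section comb

variable {Γ : Type} {s : ℕ}

open Classical in
/-- The type of an element. -/
def ty (G : Fin s → Γ → ℤ) (i0 : Fin s) (σ : Γ) : Fin s → Bool := fun i => decide (G i σ ≠ G i0 σ)

/-- The function with the signs changed on the types in `S`. -/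
def GS (G : Fin s → Γ → ℤ) (i0 : Fin s) (S : Finset (Fin s → Bool)) (σ : Γ) : ℤ :=
  if ty G i0 σ ∈ S then -G i0 σ else G i0 σ

theorem ty_true {G : Fin s → Γ → ℤ} {i0 i : Fin s} {σ : Γ} :
    ty G i0 σ i = true ↔ G i σ ≠ G i0 σ := by
  unfold ty
  exact decide_eq_true_iff

theorem comb (V : (Γ → ℤ) → Prop) (bt : (Γ → ℤ) → ℂ) (hne : ∀ G, V G → bt G ≠ 0)
    (hneg : ∀ G, V G → bt (fun σ => -G σ) = (bt G)⁻¹)
    (hadd : ∀ G₁ G₂ G₃ G₄, V G₁ → V G₂ → V G₃ → V G₄ → (∀ σ, G₁ σ + G₂ σ = G₃ σ + G₄ σ) →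
      bt G₁ * bt G₂ = bt G₃ * bt G₄) (G : Fin s → Γ → ℤ) (hG : ∀ i, V (G i))
    (hpm : ∀ i σ, G i σ = 1 ∨ G i σ = -1) (hV : ∀ i0 S, V (GS G i0 S)) (σ0 : Γ)
    (hsum : ∀ σ, ∑ i, G i σ = 0) : ∏ i, bt (G i) = 1 := by
  by_cases hs : s = 0
  · subst hs
    exact Finset.prod_of_isEmpty _
  obtain ⟨i0, -⟩ : ∃ i0 : Fin s, True := ⟨⟨0, Nat.pos_of_ne_zero hs⟩, trivial⟩
  obtain ⟨b0, hb0⟩ : ∃ b0, b0 = bt (G i0) := ⟨_, rfl⟩
  have hb : b0 ≠ 0 := by
    rw [hb0]
    exact hne _ (hG i0)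
  obtain ⟨f, hf⟩ : ∃ f : Finset (Fin s → Bool) → ℂ, ∀ S, f S = bt (GS G i0 S) / b0 :=
    ⟨_, fun _ => rfl⟩
  have hf_add : ∀ S S', Disjoint S S' → f (S ∪ S') = f S * f S' := by
    intro S S' hd
    have h1 := hadd (GS G i0 S) (GS G i0 S') (G i0) (GS G i0 (S ∪ S')) (hV _ _) (hV _ _) (hG _)
      (hV _ _) (by
        intro σ
        unfold GS
        by_cases h2 : ty G i0 σ ∈ S
        · have h3 : ty G i0 σ ∉ S' := fun h => Finset.disjoint_left.1 hd h2 h
          rw [if_pos h2, if_neg h3, if_pos (Finset.mem_union_left _ h2)]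
          ring
        · by_cases h3 : ty G i0 σ ∈ S'
          · rw [if_neg h2, if_pos h3, if_pos (Finset.mem_union_right _ h3)]
          · rw [if_neg h2, if_neg h3, if_neg]
            intro h
            rcases Finset.mem_union.1 h with h | h
            · exact h2 h
            · exact h3 h)
    rw [hf, hf, hf, div_mul_div_comm, h1, ← hb0, mul_div_mul_left _ _ hb]
  have hf_empty : f ∅ = 1 := by
    have h1 : GS G i0 ∅ = G i0 := by
      funext σ
      unfold GS
      rw [if_neg (Finset.notMem_empty _)]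
    rw [hf, h1, ← hb0, div_self hb]
  have hf_prod : ∀ S, f S = ∏ p ∈ S, f {p} := by
    intro S
    induction S using Finset.induction_on with
    | empty => rw [hf_empty, Finset.prod_empty]
    | insert p S hp ih =>
      rw [Finset.prod_insert hp, ← ih, Finset.insert_eq,
        hf_add _ _ (Finset.disjoint_singleton_left.2 hp)]
  have hG_i : ∀ i, GS G i0 (Finset.univ.filter fun p => p i = true) = G i := by
    intro i
    funext σ
    unfold GS
    by_cases h1 : G i σ = G i0 σ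
    · rw [if_neg, h1]
      intro h2
      exact ty_true.1 (Finset.mem_filter.1 h2).2 h1
    · have h0 : ty G i0 σ ∈ Finset.univ.filter fun p : Fin s → Bool => p i = true :=
        Finset.mem_filter.2 ⟨Finset.mem_univ _, ty_true.2 h1⟩
      rw [if_pos h0]
      rcases hpm i σ with h2 | h2 <;> rcases hpm i0 σ with h3 | h3
      · exact absurd (h2.trans h3.symm) h1
      · rw [h2, h3]
        norm_num
      · rw [h2, h3]
      · exact absurd (h2.trans h3.symm) h1
  have hcount : ∀ σ, s = 2 * (Finset.univ.filter fun i => ty G i0 σ i = true).card := by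
    intro σ
    have h1 : ∀ i, G i σ = G i0 σ - 2 * G i0 σ * (if ty G i0 σ i = true then 1 else 0) := by
      intro i
      by_cases h2 : G i σ = G i0 σ
      · rw [if_neg (fun h => ty_true.1 h h2), h2]
        ring
      · rw [if_pos (ty_true.2 h2)]
        rcases hpm i σ with h3 | h3 <;> rcases hpm i0 σ with h4 | h4
        · exact absurd (h3.trans h4.symm) h2
        · rw [h3, h4]
          norm_num
        · rw [h3, h4]
          norm_num
        · exact absurd (h3.trans h4.symm) h2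
    have h2 := hsum σ
    rw [Finset.sum_congr rfl fun i _ => h1 i, Finset.sum_sub_distrib, ← Finset.mul_sum,
      Finset.sum_const, Finset.card_univ, Fintype.card_fin, Finset.sum_boole, nsmul_eq_mul] at h2
    rcases hpm i0 σ with h4 | h4
    · rw [h4] at h2
      have h5 : (s : ℤ) = 2 * ((Finset.univ.filter fun i => ty G i0 σ i = true).card : ℤ) := by
        linarith
      exact_mod_cast h5
    · rw [h4] at h2
      have h5 : (s : ℤ) = 2 * ((Finset.univ.filter fun i => ty G i0 σ i = true).card : ℤ) := by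
        linarith
      exact_mod_cast h5
  obtain ⟨h, hh⟩ : ∃ h, s = 2 * h := ⟨_, hcount σ0⟩
  have hpow : ∀ p : Fin s → Bool, f {p} ^ (Finset.univ.filter fun i => p i = true).card =
      f {p} ^ h := by
    intro p
    by_cases hp : ∃ σ, ty G i0 σ = p
    · obtain ⟨σ, rfl⟩ := hp
      have h1 := hcount σ
      congr 1
      omega
    · have h1 : GS G i0 {p} = G i0 := by
        funext σ
        unfold GS
        rw [if_neg]
        intro h2
        exact hp ⟨σ, Finset.mem_singleton.1 h2⟩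
      have h2 : f {p} = 1 := by rw [hf, h1, ← hb0, div_self hb]
      rw [h2, one_pow, one_pow]
  have hbt : ∀ i, bt (G i) = b0 * ∏ p, (if p i = true then f {p} else 1) := by
    intro i
    rw [← Finset.prod_filter, ← hf_prod, hf, hG_i, mul_div_cancel₀ _ hb]
  rw [Finset.prod_congr rfl fun i _ => hbt i, Finset.prod_mul_distrib, Finset.prod_const,
    Finset.card_univ, Fintype.card_fin, Finset.prod_comm]
  have h2 : ∀ p : Fin s → Bool, ∏ i, (if p i = true then f {p} else 1) = f {p} ^ h := by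
    intro p
    rw [← hpow p, ← Finset.prod_filter, Finset.prod_const]
  rw [Finset.prod_congr rfl fun p _ => h2 p, Finset.prod_pow, ← hf_prod]
  have h3 : GS G i0 Finset.univ = fun σ => -G i0 σ := by
    funext σ
    unfold GS
    rw [if_pos (Finset.mem_univ _)]
  have h4 : f Finset.univ = b0⁻¹ / b0 := by
    rw [hf, h3, hneg _ (hG i0), ← hb0]
  rw [h4, hh, pow_mul, ← mul_pow]
  have h5 : b0 ^ 2 * (b0⁻¹ / b0) = 1 := by
    field_simp
  rw [h5, one_pow]

end comb

section lines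

variable {B : Type} [Fintype B] [DecidableEq B] {Om : Matrix B B ℂ}
  {L : Submodule ℂ (Matrix B B ℂ)}

theorem X_line {e : Matrix B B ℂ} (h : Li L e) {X : Matrix B B ℂ} (hX : X ∈ L) :
    X * e = trace (X * e) • e := by
  obtain ⟨⟨h1, h2, h3, h4, h5⟩, ht⟩ := h
  have h6 : X * e = e * X * e := by rw [← h1 X hX, mul_assoc, h2]
  exact h6.trans (GJ3.corner h2 ht X)

theorem u_line (hO : IsOm Om) (hL : LD Om L) {u : USp Om}
    (hf2 : ∀ x ∈ InvL L (Fin 2), kp (Fin 2) (mt u) *ᵥ x = x) {e : Matrix B B ℂ} (h : Li L e) :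
    mt u * e = trace (mt u * e) • e := by
  obtain ⟨⟨h1, h2, h3, h4, h5⟩, ht⟩ := h
  have h6 : mt u * e = e * mt u * e := by
    rw [← GJ3.comm_f2 hO hL hf2 h1, mul_assoc, h2]
  exact h6.trans (GJ3.corner h2 ht (mt u))

theorem ex_entry {e : Matrix B B ℂ} (h : e ≠ 0) : ∃ i j, e i j ≠ 0 := by
  by_contra hcon
  push Not at hcon
  exact h (Matrix.ext hcon)

theorem four (hO : IsOm Om) (hL : LD Om L) {Dm : (ℂ ≃+* ℂ) → Matrix B B ℂ} (H : Hull L Dm)
    {u : USp Om} (hf2 : ∀ x ∈ InvL L (Fin 2), kp (Fin 2) (mt u) *ᵥ x = x)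
    (hf4 : ∀ x ∈ InvL L (Fin 4), kp (Fin 4) (mt u) *ᵥ x = x) {e : Fin 4 → Matrix B B ℂ}
    (he : ∀ k, Li L (e k)) (h : ∀ σ, ∑ k, trace (Dm σ * e k) = 0) :
    ∏ k, trace (mt u * e k) = 1 := by
  have hM := H.gen
    { carrier := {X | X ∈ L ∧ ∑ k, trace (X * e k) = 0}
      add_mem' := by
        rintro X Y ⟨h1, h2⟩ ⟨h3, h4⟩
        refine ⟨L.add_mem h1 h3, ?_⟩
        have h5 : ∀ k, trace ((X + Y) * e k) = trace (X * e k) + trace (Y * e k) := by
          intro k
          rw [add_mul, trace_add]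
        rw [Finset.sum_congr rfl fun k _ => h5 k, Finset.sum_add_distrib, h2, h4, add_zero]
      zero_mem' := ⟨L.zero_mem, by simp⟩
      smul_mem' := by
        rintro c X ⟨h1, h2⟩
        refine ⟨L.smul_mem _ h1, ?_⟩
        have h5 : ∀ k, trace ((c • X) * e k) = c * trace (X * e k) := by
          intro k
          rw [Matrix.smul_mul, trace_smul, smul_eq_mul]
        rw [Finset.sum_congr rfl fun k _ => h5 k, ← Finset.mul_sum, h2, mul_zero] }
    (fun σ => ⟨H.mem σ, h σ⟩) (by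
      rintro X ⟨h1, -⟩ Y ⟨h2, -⟩
      refine ⟨hL.br X h1 Y h2, Finset.sum_eq_zero fun k _ => ?_⟩
      rw [GJ3.kill_li hL (he k) (GJ3.br_Dr h1 h2), trace_zero])
  have h1 : ∀ k, ∃ i j, e k i j ≠ 0 := fun k => ex_entry (he k).1.2.2.2.1
  choose I J hIJ using h1
  obtain ⟨y, hy⟩ : ∃ y : (Fin 4 → B) → ℂ, y = Pi.single J 1 := ⟨_, rfl⟩
  obtain ⟨x, hx⟩ : ∃ x, x = kpp e *ᵥ y := ⟨_, rfl⟩
  have hx0 : x ≠ 0 := by
    intro h0
    have h2 := congrFun h0 I
    rw [hx, hy, mulVec_single_one] at h2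
    have h3 : kpp e I J = 0 := h2
    rw [kpp_apply, Finset.prod_eq_zero_iff] at h3
    obtain ⟨k, -, hk⟩ := h3
    exact hIJ k hk
  have hxL : x ∈ InvL L (Fin 4) := by
    intro X hX
    have h2 : ∑ k, trace (X * e k) = 0 := (hM hX).2
    rw [hx, mulVec_mulVec, WJ2.dm_mul_kpp (fun k => X_line (he k) hX), h2, zero_smul,
      zero_mulVec]
  have h2 := hf4 x hxL
  have h3 : kp (Fin 4) (mt u) * kpp e = (∏ k, trace (mt u * e k)) • kpp e := by
    unfold kp
    rw [kpp_mul, ← WJ2.kpp_smul]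
    congr 1
    funext k
    exact u_line hO hL hf2 (he k)
  rw [hx, mulVec_mulVec, h3, smul_mulVec, ← hx] at h2
  have h4 : (∏ k, trace (mt u * e k) - 1) • x = 0 := by
    rw [sub_smul, one_smul, h2, sub_self]
  rcases smul_eq_zero.1 h4 with h5 | h5
  · exact sub_eq_zero.1 h5
  · exact absurd h5 hx0

/-- The line `e` belongs to the sign function `G`. -/
def Ln (L : Submodule ℂ (Matrix B B ℂ)) (Dm : (ℂ ≃+* ℂ) → Matrix B B ℂ) (G : (ℂ ≃+* ℂ) → ℤ)
    (e : Matrix B B ℂ) : Prop := Li L e ∧ ∀ σ, Dm σ * e = (G σ : ℂ) • e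

variable {Dm : (ℂ ≃+* ℂ) → Matrix B B ℂ} {G : (ℂ ≃+* ℂ) → ℤ}

theorem Ln.tr {e : Matrix B B ℂ} (h : Ln L Dm G e) (σ : ℂ ≃+* ℂ) :
    trace (Dm σ * e) = (G σ : ℂ) := by
  rw [h.2, trace_smul, h.1.2, smul_eq_mul, mul_one]

theorem Ln.st (hO : IsOm Om) (hL : LD Om L) (H : Hull L Dm) {e : Matrix B B ℂ}
    (h : Ln L Dm G e) : Ln L Dm (fun σ => -G σ) (st Om e) := by
  refine ⟨GJ3.Li_st hO hL h.1, fun σ => ?_⟩
  have h1 : Dm σ * Pool.Agent.NH32.st Om e = -Pool.Agent.NH32.st Om (e * Dm σ) := by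
    rw [WJ12.st_mul hO, WJ12.st_L hO hL (H.mem σ), neg_mul, neg_neg]
  rw [h1, ← h.1.1.1 (Dm σ) (H.mem σ), h.2, WJ12.st_smul]
  push_cast
  rw [neg_smul]

theorem tr_st (hO : IsOm Om) (hL : LD Om L) {u : USp Om}
    (hf2 : ∀ x ∈ InvL L (Fin 2), kp (Fin 2) (mt u) *ᵥ x = x) {e : Matrix B B ℂ} (h : Li L e) :
    trace (mt u * e) ≠ 0 ∧ trace (mt u * st Om e) = (trace (mt u * e))⁻¹ := by
  obtain ⟨h1, h2⟩ := GJ3.v_st hO hL hf2 h (u_line hO hL hf2 h)
  refine ⟨h1, ?_⟩
  rw [h2, trace_smul, WJ12.trace_st hO, h.2, smul_eq_mul, mul_one]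

theorem same (hO : IsOm Om) (hL : LD Om L) (H : Hull L Dm) {u : USp Om}
    (hf2 : ∀ x ∈ InvL L (Fin 2), kp (Fin 2) (mt u) *ᵥ x = x)
    (hf4 : ∀ x ∈ InvL L (Fin 4), kp (Fin 4) (mt u) *ᵥ x = x) {e e' : Matrix B B ℂ}
    (h : Ln L Dm G e) (h' : Ln L Dm G e') : trace (mt u * e) = trace (mt u * e') := by
  have hs := Ln.st hO hL H h'
  have h1 := four hO hL H hf2 hf4 (e := ![e, st Om e', e', st Om e']) (by
    intro k
    fin_cases k
    · exact h.1
    · exact hs.1
    · exact h'.1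
    · exact hs.1) (by
    intro σ
    rw [Fin.sum_univ_four]
    change trace (Dm σ * e) + trace (Dm σ * st Om e') + trace (Dm σ * e') +
      trace (Dm σ * st Om e') = 0
    rw [h.tr, hs.tr, h'.tr]
    push_cast
    ring)
  rw [Fin.prod_univ_four] at h1
  change trace (mt u * e) * trace (mt u * st Om e') * trace (mt u * e') *
      trace (mt u * st Om e') = 1 at h1
  obtain ⟨h2, h3⟩ := tr_st hO hL hf2 h'.1
  rw [h3] at h1
  field_simp at h1
  exact h1

open Classical in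
/-- The scalar of a sign function. -/
def bt (L : Submodule ℂ (Matrix B B ℂ)) (Dm : (ℂ ≃+* ℂ) → Matrix B B ℂ) (u : USp Om)
    (G : (ℂ ≃+* ℂ) → ℤ) : ℂ :=
  if h : ∃ e, Ln L Dm G e then trace (mt u * h.choose) else 1

theorem bt_eq (hO : IsOm Om) (hL : LD Om L) (H : Hull L Dm) {u : USp Om}
    (hf2 : ∀ x ∈ InvL L (Fin 2), kp (Fin 2) (mt u) *ᵥ x = x)
    (hf4 : ∀ x ∈ InvL L (Fin 4), kp (Fin 4) (mt u) *ᵥ x = x) {e : Matrix B B ℂ}
    (h : Ln L Dm G e) : bt L Dm u G = trace (mt u * e) := by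
  have hex : ∃ e, Ln L Dm G e := ⟨e, h⟩
  unfold bt
  rw [dif_pos hex]
  exact same hO hL H hf2 hf4 hex.choose_spec h

end lines

end GD1

open GD1

/-- **D1.** -/
theorem lin_of : St_lin := by
  intro B _ _ Om L hO hL Dm H u hf2 hf4 s F b hF hsum
  -- the sign functions
  have hsg : ∀ i σ, ∃ n : ℤ, (n = 1 ∨ n = -1) ∧ Dm σ * F i = (n : ℂ) • F i := by
    intro i σ
    have hl := (hF i).1
    have h1 := X_line hl (H.mem σ)
    obtain ⟨c, hc⟩ : ∃ c, c = trace (Dm σ * F i) := ⟨_, rfl⟩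
    rw [← hc] at h1
    have h2 : (c * c) • F i = F i := by
      calc (c * c) • F i = c • (c • F i) := (smul_smul _ _ _).symm
        _ = c • (Dm σ * F i) := by rw [h1]
        _ = Dm σ * (c • F i) := (Matrix.mul_smul _ _ _).symm
        _ = Dm σ * (Dm σ * F i) := by rw [← h1]
        _ = F i := by rw [← mul_assoc, H.sq, one_mul]
    have h3 : (c * c - 1) • F i = 0 := by
      rw [sub_smul, one_smul, h2, sub_self]
    rcases smul_eq_zero.1 h3 with h4 | h4
    · have h5 : (c - 1) * (c + 1) = 0 := by linear_combination h4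
      rcases mul_eq_zero.1 h5 with h6 | h6
      · refine ⟨1, Or.inl rfl, ?_⟩
        rw [h1, sub_eq_zero.1 h6]
        norm_num
      · refine ⟨-1, Or.inr rfl, ?_⟩
        rw [h1, eq_neg_of_add_eq_zero_left h6]
        norm_num
    · exact absurd h4 hl.1.2.2.2.1
  choose G hG1 hG2 using hsg
  have hLn : ∀ i, Ln L Dm (G i) (F i) := fun i => ⟨(hF i).1, hG2 i⟩
  have hb : ∀ i, b i = bt L Dm u (G i) := by
    intro i
    rw [bt_eq hO hL H hf2 hf4 (hLn i), (hF i).2, trace_smul, (hF i).1.2, smul_eq_mul, mul_one]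
  rw [Finset.prod_congr rfl fun i _ => hb i]
  -- properties of the sign functions of lines
  have hodd : ∀ i σ, G i (cj.trans σ) = -G i σ := by
    intro i σ
    have h1 := (hLn i).tr (cj.trans σ)
    rw [H.odd, neg_mul, trace_neg, (hLn i).tr] at h1
    have h2 : (G i (cj.trans σ) : ℂ) = ((-G i σ : ℤ) : ℂ) := by
      rw [← h1]
      push_cast
      rfl
    exact_mod_cast h2
  have hcl : ∀ i σ τ, (∀ e, Mi L e → trace (Dm σ * e) = trace (Dm τ * e)) → G i σ = G i τ := by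
    intro i σ τ h
    have h1 := h (F i) (hF i).1.1
    rw [(hLn i).tr, (hLn i).tr] at h1
    exact_mod_cast h1
  refine comb (fun G => ∃ e, Ln L Dm G e) (bt L Dm u) ?_ ?_ ?_ G (fun i => ⟨_, hLn i⟩) hG1 ?_
    (RingEquiv.refl ℂ) ?_
  · rintro G' ⟨e, he⟩
    rw [bt_eq hO hL H hf2 hf4 he]
    exact (tr_st hO hL hf2 he.1).1
  · rintro G' ⟨e, he⟩
    rw [bt_eq hO hL H hf2 hf4 he, bt_eq hO hL H hf2 hf4 (Ln.st hO hL H he)]
    exact (tr_st hO hL hf2 he.1).2
  · rintro G₁ G₂ G₃ G₄ ⟨e₁, h1⟩ ⟨e₂, h2⟩ ⟨e₃, h3⟩ ⟨e₄, h4⟩ h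
    rw [bt_eq hO hL H hf2 hf4 h1, bt_eq hO hL H hf2 hf4 h2, bt_eq hO hL H hf2 hf4 h3,
      bt_eq hO hL H hf2 hf4 h4]
    have h3' := Ln.st hO hL H h3
    have h4' := Ln.st hO hL H h4
    have h5 := four hO hL H hf2 hf4 (e := ![e₁, e₂, st Om e₃, st Om e₄]) (by
      intro k
      fin_cases k
      · exact h1.1
      · exact h2.1
      · exact h3'.1
      · exact h4'.1) (by
      intro σ
      rw [Fin.sum_univ_four]
      change trace (Dm σ * e₁) + trace (Dm σ * e₂) + trace (Dm σ * st Om e₃) +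
        trace (Dm σ * st Om e₄) = 0
      rw [h1.tr, h2.tr, h3'.tr, h4'.tr]
      have h6 : (G₁ σ : ℂ) + G₂ σ = G₃ σ + G₄ σ := by exact_mod_cast h σ
      push_cast
      linear_combination h6)
    rw [Fin.prod_univ_four] at h5
    change trace (mt u * e₁) * trace (mt u * e₂) * trace (mt u * st Om e₃) *
      trace (mt u * st Om e₄) = 1 at h5
    obtain ⟨g1, g2⟩ := tr_st hO hL hf2 h3.1
    obtain ⟨g3, g4⟩ := tr_st hO hL hf2 h4.1
    rw [g2, g4] at h5
    field_simp at h5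
    exact h5
  · intro i0 S
    have hty : ∀ σ τ, (∀ i, G i σ = G i τ) → ty G i0 σ = ty G i0 τ := by
      intro σ τ h
      funext i
      unfold ty
      rw [h i, h i0]
    have hty' : ∀ σ, ty G i0 (cj.trans σ) = ty G i0 σ := by
      intro σ
      funext i
      rw [Bool.eq_iff_iff, ty_true, ty_true, hodd, hodd]
      exact not_congr neg_inj
    obtain ⟨e, he, he'⟩ := H.hull (GS G i0 S) (by
      intro σ
      unfold GS
      rcases hG1 i0 σ with h | h <;> split_ifs <;> rw [h] <;> simp) (by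
      intro σ
      unfold GS
      rw [hty', hodd]
      split_ifs <;> rfl) (by
      intro σ τ h
      unfold GS
      rw [hty σ τ (fun i => hcl i σ τ h), hcl i0 σ τ h])
    exact ⟨e, he, he'⟩
  · intro σ
    have h1 := hsum (Dm σ) (H.mem σ)
    have h2 : ∀ i, fc (F i) (Dm σ) = (G i σ : ℂ) := by
      intro i
      unfold fc
      rw [(hLn i).tr, (hF i).1.2, div_one]
    rw [Finset.sum_congr rfl fun i _ => h2 i] at h1
    exact_mod_cast h1

end

end Pool.Agent.NH32
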