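import Mathlib
import Pool.Agent.NH32.GsB

/-!
# Project G: products and factors of abelian varieties
-/

set_option linter.unusedSectionVars false

namespace Pool.Agent.NH32

open Matrix Module Pool.Agent.W437.HC Pool.Agent.W437.HD Pool.Agent.TH504.CB Pool.Agent.Y90
open Pool.Agent.H204R3.CM (IsHodge)
open Pool.Agent.W548.Odd hiding cv

noncomputable section

namespace GJ14

/-! ### products -/

/-- The period map of a product. -/
def perP (X Y : AV) : X.H × Y.H →+ X.T × Y.T where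
  toFun w := (X.per w.1, Y.per w.2)
  map_zero' := by
    change (X.per 0, Y.per 0) = 0
    rw [map_zero, map_zero]
    rfl
  map_add' v w := by
    change (X.per (v.1 + w.1), Y.per (v.2 + w.2)) = _
    rw [map_add, map_add]
    rfl

theorem perP_apply (X Y : AV) (w : X.H × Y.H) : perP X Y w = (X.per w.1, Y.per w.2) := rfl

theorem psi_zero {T : Type} [AddCommGroup T] [Module ℂ T] {Ψ : T → T → ℂ}
    (h1 : ∀ u', IsLinearMap ℂ fun u => Ψ u u') (u : T) : Ψ 0 u = 0 := by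
  have h6 := (h1 u).map_smul 0 0
  rw [zero_smul, zero_smul] at h6
  exact h6

theorem psi_nonneg {T : Type} [AddCommGroup T] [Module ℂ T] {Ψ : T → T → ℂ}
    (h1 : ∀ u', IsLinearMap ℂ fun u => Ψ u u') (h3 : ∀ u, u ≠ 0 → 0 < (Ψ u u).re) (u : T) :
    0 ≤ (Ψ u u).re := by
  by_cases hu : u = 0
  · subst hu
    rw [psi_zero h1]
    exact le_refl _
  · exact (h3 u hu).le

theorem polP {X Y : AV} {E : X.H → X.H → ℚ} {F : Y.H → Y.H → ℚ} (hE : IsPolarization X.per E)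
    (hF : IsPolarization Y.per F) :
    IsPolarization (perP X Y) fun v w => E v.1 w.1 + F v.2 w.2 := by
  obtain ⟨Ψ, h1, h2, h3, h4⟩ := hE
  obtain ⟨Φ, g1, g2, g3, g4⟩ := hF
  refine ⟨fun u u' => Ψ u.1 u'.1 + Φ u.2 u'.2, fun u' => ⟨fun u v => ?_, fun c u => ?_⟩,
    fun u u' => ?_, fun u hu => ?_, fun v w => ?_⟩
  · have e1 : Ψ (u.1 + v.1) u'.1 = Ψ u.1 u'.1 + Ψ v.1 u'.1 := (h1 u'.1).map_add u.1 v.1
    have e2 : Φ (u.2 + v.2) u'.2 = Φ u.2 u'.2 + Φ v.2 u'.2 := (g1 u'.2).map_add u.2 v.2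
    change Ψ (u.1 + v.1) u'.1 + Φ (u.2 + v.2) u'.2 = _
    rw [e1, e2]
    ring
  · have e1 : Ψ (c • u.1) u'.1 = c • Ψ u.1 u'.1 := (h1 u'.1).map_smul c u.1
    have e2 : Φ (c • u.2) u'.2 = c • Φ u.2 u'.2 := (g1 u'.2).map_smul c u.2
    change Ψ (c • u.1) u'.1 + Φ (c • u.2) u'.2 = _
    rw [e1, e2, smul_add]
  · change Ψ u'.1 u.1 + Φ u'.2 u.2 = _
    rw [h2 u.1 u'.1, g2 u.2 u'.2, map_add]
  · change 0 < (Ψ u.1 u.1 + Φ u.2 u.2).re
    rw [Complex.add_re]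
    by_cases hu1 : u.1 = 0
    · have hu2 : u.2 ≠ 0 := fun h => hu (Prod.ext hu1 h)
      exact add_pos_of_nonneg_of_pos (psi_nonneg h1 h3 _) (g3 _ hu2)
    · exact add_pos_of_pos_of_nonneg (h3 _ hu1) (psi_nonneg g1 g3 _)
  · change (Ψ (X.per v.1) (X.per w.1) + Φ (Y.per v.2) (Y.per w.2)).im = _
    rw [Complex.add_im, h4, g4, Rat.cast_add]

theorem span1 (X Y : AV) (s : X.T) :
    ((s, 0) : X.T × Y.T) ∈ Submodule.span ℝ (Set.range (perP X Y)) := by
  have h2 : s ∈ Submodule.span ℝ (Set.range X.per) := by rw [X.span]; trivial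
  induction h2 using Submodule.span_induction with
  | mem x hx =>
    obtain ⟨w, rfl⟩ := hx
    refine Submodule.subset_span ⟨(w, 0), ?_⟩
    rw [perP_apply, map_zero]
  | zero => exact Submodule.zero_mem _
  | add x y _ _ hx hy =>
    have h := Submodule.add_mem _ hx hy
    rwa [Prod.mk_add_mk, add_zero] at h
  | smul c x _ hx =>
    have h := Submodule.smul_mem _ c hx
    rwa [Prod.smul_mk, smul_zero] at h

theorem span2 (X Y : AV) (s : Y.T) :
    ((0, s) : X.T × Y.T) ∈ Submodule.span ℝ (Set.range (perP X Y)) := by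
  have h2 : s ∈ Submodule.span ℝ (Set.range Y.per) := by rw [Y.span]; trivial
  induction h2 using Submodule.span_induction with
  | mem x hx =>
    obtain ⟨w, rfl⟩ := hx
    refine Submodule.subset_span ⟨(0, w), ?_⟩
    rw [perP_apply, map_zero]
  | zero => exact Submodule.zero_mem _
  | add x y _ _ hx hy =>
    have h := Submodule.add_mem _ hx hy
    rwa [Prod.mk_add_mk, add_zero] at h
  | smul c x _ hx =>
    have h := Submodule.smul_mem _ c hx
    rwa [Prod.smul_mk, smul_zero] at h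

/-- The product of two abelian varieties. -/
def prodAV (X Y : AV) : AV where
  H := X.H × Y.H
  T := X.T × Y.T
  per := perP X Y
  span := by
    rw [eq_top_iff]
    rintro ⟨s, t⟩ _
    have h := Submodule.add_mem _ (span1 X Y s) (span2 X Y t)
    rwa [Prod.mk_add_mk, add_zero, zero_add] at h
  rank := by
    rw [Module.finrank_prod, Module.finrank_prod, X.rank, Y.rank]
    ring
  pol := by
    obtain ⟨E, hE⟩ := X.pol
    obtain ⟨F, hF⟩ := Y.pol
    exact ⟨_, polP hE hF⟩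

/-- The inclusions and projections. -/
def inX (X Y : AV) : X.H →ₗ[ℚ] (prodAV X Y).H := LinearMap.inl ℚ X.H Y.H
def inY (X Y : AV) : Y.H →ₗ[ℚ] (prodAV X Y).H := LinearMap.inr ℚ X.H Y.H
def prX (X Y : AV) : (prodAV X Y).H →ₗ[ℚ] X.H := LinearMap.fst ℚ X.H Y.H
def prY (X Y : AV) : (prodAV X Y).H →ₗ[ℚ] Y.H := LinearMap.snd ℚ X.H Y.H

theorem inX_hom (X Y : AV) : IsHom X (prodAV X Y) (inX X Y) := by
  refine ⟨LinearMap.inl ℂ X.T Y.T, fun v => ?_⟩
  change ((X.per v, 0) : X.T × Y.T) = (X.per v, Y.per 0)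
  rw [map_zero]

theorem inY_hom (X Y : AV) : IsHom Y (prodAV X Y) (inY X Y) := by
  refine ⟨LinearMap.inr ℂ X.T Y.T, fun v => ?_⟩
  change ((0, Y.per v) : X.T × Y.T) = (X.per 0, Y.per v)
  rw [map_zero]

theorem prX_hom (X Y : AV) : IsHom (prodAV X Y) X (prX X Y) :=
  ⟨LinearMap.fst ℂ X.T Y.T, fun _ => rfl⟩

theorem prY_hom (X Y : AV) : IsHom (prodAV X Y) Y (prY X Y) :=
  ⟨LinearMap.snd ℂ X.T Y.T, fun _ => rfl⟩

theorem fac_X (X Y : AV) : Fac X (prodAV X Y) :=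
  ⟨inX X Y, prX X Y, inX_hom X Y, prX_hom X Y, by ext v; rfl⟩

theorem fac_Y (X Y : AV) : Fac Y (prodAV X Y) :=
  ⟨inY X Y, prY X Y, inY_hom X Y, prY_hom X Y, by ext v; rfl⟩

/-! ### the operators -/

/-- Composition with a homomorphism. -/
def cmpR {X Y : AV} (h : X.H →ₗ[ℚ] Y.H) : (Y.H →ₗ[ℚ] ℂ) →ₗ[ℂ] (X.H →ₗ[ℚ] ℂ) where
  toFun f := f ∘ₗ h
  map_add' _ _ := rfl
  map_smul' _ _ := rfl

theorem cmp_apply {X Y : AV} (h : X.H →ₗ[ℚ] Y.H) (f : Y.H →ₗ[ℚ] ℂ) (v : X.H) :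
    cmpR h f v = f (h v) := rfl

theorem H10_cmpR {X Y : AV} {h : X.H →ₗ[ℚ] Y.H} (hh : IsHom X Y h) {f : Y.H →ₗ[ℚ] ℂ}
    (hf : H10 Y f) : H10 X (cmpR h f) := by
  obtain ⟨Ψ, hΨ⟩ := hh
  obtain ⟨l, hl⟩ := hf
  refine ⟨l ∘ₗ Ψ, fun w => ?_⟩
  rw [cmp_apply, hl, LinearMap.comp_apply, hΨ]

theorem tw_cmpR {X Y : AV} (h : X.H →ₗ[ℚ] Y.H) (σ : ℂ ≃+* ℂ) (f : Y.H →ₗ[ℚ] ℂ) :
    tw σ (cmpR h f) = cmpR h (tw σ f) := rfl

theorem IsD_cmpR {X Y : AV} {h : X.H →ₗ[ℚ] Y.H} (hh : IsHom X Y h) {σ : ℂ ≃+* ℂ}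
    {f f' : Y.H →ₗ[ℚ] ℂ} (hf : IsD Y σ f f') : IsD X σ (cmpR h f) (cmpR h f') := by
  obtain ⟨a, b, h1, h2, h3, h4⟩ := hf
  refine ⟨cmpR h a, cmpR h b, ?_, ?_, ?_, ?_⟩
  · rw [h1, map_add]
  · rw [h2, map_sub]
  · rw [tw_cmpR]; exact H10_cmpR hh h3
  · rw [tw_cmpR, tw_cmpR]; exact H10_cmpR hh h4

theorem H10_add {X : AV} {f g : X.H →ₗ[ℚ] ℂ} (hf : H10 X f) (hg : H10 X g) : H10 X (f + g) := by
  obtain ⟨l, hl⟩ := hf
  obtain ⟨m, hm⟩ := hg
  exact ⟨l + m, fun w => by rw [LinearMap.add_apply, LinearMap.add_apply, hl, hm]⟩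

theorem H10_smul {X : AV} {f : X.H →ₗ[ℚ] ℂ} (c : ℂ) (hf : H10 X f) : H10 X (c • f) := by
  obtain ⟨l, hl⟩ := hf
  exact ⟨c • l, fun w => by rw [LinearMap.smul_apply, LinearMap.smul_apply, hl]⟩

theorem tw_apply {X : AV} (σ : ℂ ≃+* ℂ) (f : X.H →ₗ[ℚ] ℂ) (w : X.H) : tw σ f w = σ (f w) := rfl

theorem tw_add {X : AV} (σ : ℂ ≃+* ℂ) (f g : X.H →ₗ[ℚ] ℂ) : tw σ (f + g) = tw σ f + tw σ g := by
  ext w
  rw [LinearMap.add_apply, tw_apply, tw_apply, tw_apply, LinearMap.add_apply, map_add]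

theorem tw_smul {X : AV} (σ : ℂ ≃+* ℂ) (c : ℂ) (f : X.H →ₗ[ℚ] ℂ) :
    tw σ (c • f) = σ c • tw σ f := by
  ext w
  rw [LinearMap.smul_apply, tw_apply, tw_apply, LinearMap.smul_apply, smul_eq_mul, smul_eq_mul,
    map_mul]

theorem IsD_add {X : AV} {σ : ℂ ≃+* ℂ} {f f' g g' : X.H →ₗ[ℚ] ℂ} (hf : IsD X σ f f')
    (hg : IsD X σ g g') : IsD X σ (f + g) (f' + g') := by
  obtain ⟨a, b, h1, h2, h3, h4⟩ := hf
  obtain ⟨c, d, k1, k2, k3, k4⟩ := hg
  refine ⟨a + c, b + d, ?_, ?_, ?_, ?_⟩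
  · rw [h1, k1]; abel
  · rw [h2, k2]; abel
  · rw [tw_add]; exact H10_add h3 k3
  · rw [tw_add, tw_add]; exact H10_add h4 k4

theorem IsD_smul {X : AV} {σ : ℂ ≃+* ℂ} {f f' : X.H →ₗ[ℚ] ℂ} (c : ℂ) (hf : IsD X σ f f') :
    IsD X σ (c • f) (c • f') := by
  obtain ⟨a, b, h1, h2, h3, h4⟩ := hf
  refine ⟨c • a, c • b, ?_, ?_, ?_, ?_⟩
  · rw [h1, smul_add]
  · rw [h2, smul_sub]
  · rw [tw_smul]; exact H10_smul _ h3
  · rw [tw_smul, tw_smul]; exact H10_smul _ h4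

theorem IsD_zero (X : AV) (σ : ℂ ≃+* ℂ) : IsD X σ 0 0 := by
  have h0 : H10 X (0 : X.H →ₗ[ℚ] ℂ) := ⟨0, fun w => rfl⟩
  have ht : ∀ τ : ℂ ≃+* ℂ, tw τ (0 : X.H →ₗ[ℚ] ℂ) = 0 := by
    intro τ
    ext w
    rw [tw_apply, LinearMap.zero_apply, map_zero]
  refine ⟨0, 0, ?_, ?_, ?_, ?_⟩
  · rw [add_zero]
  · rw [sub_zero]
  · rw [ht]; exact h0
  · rw [ht, ht]; exact h0

theorem IsD_sum {X : AV} {σ : ℂ ≃+* ℂ} {ι : Type} (s : Finset ι) (c : ι → ℂ)
    (f f' : ι → (X.H →ₗ[ℚ] ℂ)) (h : ∀ i, IsD X σ (f i) (f' i)) :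
    IsD X σ (∑ i ∈ s, c i • f i) (∑ i ∈ s, c i • f' i) := by
  classical
  induction s using Finset.induction_on with
  | empty =>
    rw [Finset.sum_empty, Finset.sum_empty]
    exact IsD_zero X σ
  | insert i s hi ih =>
    rw [Finset.sum_insert hi, Finset.sum_insert hi]
    exact IsD_add (IsD_smul _ (h i)) ih

theorem IsD_zero_eq {X : AV} {σ : ℂ ≃+* ℂ} {f' : X.H →ₗ[ℚ] ℂ} (h : IsD X σ 0 f') : f' = 0 := by
  obtain ⟨a, b, h1, h2, ⟨l, hl⟩, ⟨m, hm⟩⟩ := h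
  have hb : b = -a := by
    rw [eq_neg_iff_add_eq_zero, add_comm]
    exact h1.symm
  -- `conj (l x) = - m x`
  have key : ∀ x : X.T, cj (l x) = -(m x) := by
    intro x
    have hx : x ∈ Submodule.span ℝ (Set.range X.per) := by rw [X.span]; trivial
    induction hx using Submodule.span_induction with
    | mem x hx =>
      obtain ⟨w, rfl⟩ := hx
      have e1 := hl w
      have e2 := hm w
      rw [tw_apply] at e1
      rw [tw_apply, tw_apply, hb, LinearMap.neg_apply, map_neg, map_neg, e1] at e2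
      rw [← e2, neg_neg]
    | zero => rw [map_zero, map_zero, map_zero, neg_zero]
    | add x y _ _ hx hy => rw [map_add, map_add, map_add, hx, hy, neg_add]
    | smul c x _ hx =>
      have e1 : c • x = (c : ℂ) • x := (Complex.coe_smul c x).symm
      rw [e1, LinearMap.map_smul, LinearMap.map_smul, smul_eq_mul, smul_eq_mul, map_mul, hx]
      have e2 : cj (c : ℂ) = (c : ℂ) := Complex.conj_ofReal c
      rw [e2]
      ring
  have hm0 : ∀ x : X.T, l x = 0 := by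
    intro x
    have e1 := key (Complex.I • x)
    have e2 := key x
    have e3 : cj Complex.I = -Complex.I := Complex.conj_I
    rw [LinearMap.map_smul, LinearMap.map_smul, smul_eq_mul, smul_eq_mul, map_mul, e3, e2] at e1
    have e4 : Complex.I * (m x + m x) = 0 := by linear_combination e1
    have e5 : m x = 0 := by
      have := (mul_eq_zero.1 e4).resolve_left Complex.I_ne_zero
      linear_combination (1 / 2 : ℂ) * this
    rw [e5, neg_zero] at e2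
    exact (map_eq_zero_iff cj cj.injective).1 e2
  have ha : a = 0 := by
    ext w
    have e1 := hl w
    rw [tw_apply, hm0] at e1
    exact (map_eq_zero_iff σ.symm σ.symm.injective).1 e1
  rw [h2, hb, ha]
  simp

/-! ### modules of a product -/

theorem Rz_cmpR {X P : AV} {h : X.H →ₗ[ℚ] P.H} (hh : IsHom X P h) {d : ℕ}
    {Δ : (ℂ ≃+* ℂ) → Matrix (Fin d) (Fin d) ℂ} {F : Fin d → (P.H →ₗ[ℚ] ℂ)}
    (hF : ∀ σ j, IsD P σ (F j) (∑ i, Δ σ i j • F i)) (σ : ℂ ≃+* ℂ) (j : Fin d) :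
    IsD X σ (cmpR h (F j)) (∑ i, Δ σ i j • cmpR h (F i)) := by
  have h1 := IsD_cmpR hh (hF σ j)
  rw [map_sum] at h1
  simp only [map_smul] at h1
  exact h1

theorem pr_main (X Y : AV) (d : ℕ) (Δ : (ℂ ≃+* ℂ) → Matrix (Fin d) (Fin d) ℂ) (hI : IrD Δ)
    (hR : Rz (prodAV X Y) d Δ) : Rz X d Δ ∨ Rz Y d Δ := by
  obtain ⟨F, hF, hD⟩ := hR
  let W : Submodule ℂ (Fin d → ℂ) :=
    { carrier := {w | ∑ k, w k • cmpR (inX X Y) (F k) = 0}
      add_mem' := by
        intro v w hv hw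
        change ∑ k, (v k + w k) • cmpR (inX X Y) (F k) = 0
        simp only [add_smul, Finset.sum_add_distrib]
        rw [hv, hw, add_zero]
      zero_mem' := by
        change ∑ k, (0 : ℂ) • cmpR (inX X Y) (F k) = 0
        simp only [zero_smul, Finset.sum_const_zero]
      smul_mem' := by
        intro c v hv
        change ∑ k, (c * v k) • cmpR (inX X Y) (F k) = 0
        simp only [mul_smul]
        rw [← Finset.smul_sum, hv, smul_zero] }
  have hW : ∀ w, w ∈ W ↔ ∑ k, w k • cmpR (inX X Y) (F k) = 0 := fun w => Iff.rfl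
  have hinv : ∀ σ, ∀ w ∈ W, Δ σ *ᵥ w ∈ W := by
    intro σ w hw
    rw [hW] at hw ⊢
    have h1 := IsD_sum Finset.univ w _ _ fun k => Rz_cmpR (inX_hom X Y) hD σ k
    rw [hw] at h1
    have h2 := IsD_zero_eq h1
    rw [← h2]
    simp only [Matrix.mulVec, dotProduct, Finset.sum_smul, Finset.smul_sum, smul_smul]
    rw [Finset.sum_comm]
    refine Finset.sum_congr rfl fun i _ => Finset.sum_congr rfl fun k _ => ?_
    rw [mul_comm]
  rcases hI.2 W hinv with h0 | h0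
  · left
    refine ⟨fun k => cmpR (inX X Y) (F k), ?_, fun σ j => Rz_cmpR (inX_hom X Y) hD σ j⟩
    rw [Fintype.linearIndependent_iff]
    intro c hc
    have h1 : c ∈ W := hc
    rw [h0, Submodule.mem_bot] at h1
    intro i
    exact congrFun h1 i
  · right
    refine ⟨fun k => cmpR (inY X Y) (F k), ?_, fun σ j => Rz_cmpR (inY_hom X Y) hD σ j⟩
    rw [Fintype.linearIndependent_iff] at hF ⊢
    intro c hc
    apply hF c
    have h1 : ∑ k, c k • cmpR (inX X Y) (F k) = 0 := by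
      have : c ∈ W := by rw [h0]; trivial
      exact this
    apply LinearMap.ext
    rintro ⟨v, w⟩
    have h2 := congrArg (fun f : X.H →ₗ[ℚ] ℂ => f v) h1
    have h3 := congrArg (fun f : Y.H →ₗ[ℚ] ℂ => f w) hc
    simp only [LinearMap.sum_apply, LinearMap.smul_apply, cmp_apply, LinearMap.zero_apply] at h2 h3
    have h4 : ((v, w) : (prodAV X Y).H) = inX X Y v + inY X Y w := by
      have h5 : ((v, w) : X.H × Y.H) = (v, 0) + (0, w) := by
        rw [Prod.mk_add_mk, add_zero, zero_add]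
      exact h5
    rw [h4, map_add]
    simp only [LinearMap.sum_apply, LinearMap.smul_apply]
    rw [h2, h3, add_zero]
    rfl

end GJ14

open GJ14

theorem pr_of : St_pr := fun X Y =>
  ⟨prodAV X Y, fac_X X Y, fac_Y X Y, fun d Δ hI hR => pr_main X Y d Δ hI hR⟩

namespace GJ14

/-- Coordinatewise maps of powers. -/
def mpI {X Y : AV} (h : X.H →ₗ[ℚ] Y.H) (n : ℕ) :
    (powAV X (Fin n)).H →ₗ[ℚ] (powAV Y (Fin n)).H where
  toFun v := fun k => h ((v : Fin n → X.H) k)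
  map_add' v w := by
    funext k
    exact map_add h _ _
  map_smul' c v := by
    funext k
    exact map_smul h _ _

theorem mpI_hom {X Y : AV} {h : X.H →ₗ[ℚ] Y.H} (hh : IsHom X Y h) (n : ℕ) :
    IsHom (powAV X (Fin n)) (powAV Y (Fin n)) (mpI h n) := by
  obtain ⟨Ψ, hΨ⟩ := hh
  refine ⟨{ toFun := fun v k => Ψ ((v : Fin n → X.T) k)
            map_add' := fun v w => by
              funext k
              exact map_add Ψ _ _
            map_smul' := fun c v => by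
              funext k
              exact map_smul Ψ _ _ }, fun v => ?_⟩
  funext k
  exact hΨ _

end GJ14

theorem fac_of : St_fac := by
  refine ⟨?_, ?_, ?_⟩
  · rintro X Y ⟨i, j, hi, hj, hij⟩ d Δ ⟨F, hF, hD⟩
    let G : Fin d → (Y.H →ₗ[ℚ] ℂ) := fun k => cmpR (X := Y) (Y := X) j (F k)
    refine ⟨G, ?_, fun σ k => Rz_cmpR hj hD σ k⟩
    have hinj : Function.Injective (cmpR j : (X.H →ₗ[ℚ] ℂ) →ₗ[ℂ] (Y.H →ₗ[ℚ] ℂ)) := by
      intro f g hfg
      ext v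
      have h1 := congrArg (fun f : Y.H →ₗ[ℚ] ℂ => f (i v)) hfg
      simp only [cmp_apply] at h1
      have h2 : j (i v) = v := LinearMap.congr_fun hij v
      rwa [h2] at h1
    exact hF.map' _ (LinearMap.ker_eq_bot.2 hinj)
  · rintro X Y Z ⟨i, j, hi, hj, hij⟩ ⟨i', j', hi', hj', hij'⟩
    refine ⟨i' ∘ₗ i, j ∘ₗ j', IsHom.comp hi' hi, IsHom.comp hj hj', ?_⟩
    ext v
    have h1 : j' (i' (i v)) = i v := LinearMap.congr_fun hij' (i v)
    have h2 : j (i v) = v := LinearMap.congr_fun hij v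
    change j (j' (i' (i v))) = v
    rw [h1, h2]
  · rintro 𝒜 X Y ⟨i, j, hi, hj, hij⟩ hY P n ⟨s, hs⟩
    refine allHodge_iso 𝒜 (isoP hs) (isoP_hom hs) ?_
    intro κ _ f hf
    obtain ⟨Ψ, hΨ⟩ := mpI_hom hj n
    have h1 : IsHodge (powAV Y (Fin n)).per (f.compLinearMap (mpI j n)) :=
      isHodge_comp (mpI j n) Ψ hΨ hf
    have h2 := 𝒜.pull (mpI i n) (mpI_hom hi n) _
      (hY (powAV Y (Fin n)) n ⟨_, powAV_isPow Y n⟩ κ _ h1)
    have h3 : (f.compLinearMap (mpI j n)).compLinearMap (mpI i n) = f := by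
      ext v
      rw [AlternatingMap.compLinearMap_apply, AlternatingMap.compLinearMap_apply]
      congr 1
      funext k
      funext l
      exact LinearMap.congr_fun hij _
    rwa [h3] at h2

end

end Pool.Agent.NH32
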