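import Mathlib
import Pool.Agent.NH32.WlA

/-!
# Algebraic idempotents (J6)
-/

set_option linter.unusedSectionVars false

namespace Pool.Agent.NH32

open Matrix Module Pool.Agent.W437.HC Pool.Agent.W437.HD Pool.Agent.TH504.CB Pool.Agent.Y90
open Pool.Agent.W548.Odd hiding cv
open Pool.Agent.W437.HP (cK)

noncomputable section

namespace WJ6

section orbit

open Polynomial

theorem fixed_rat {z : ℂ} (h : ∀ σ : ℂ ≃+* ℂ, σ z = z) : ∃ q : ℚ, z = q := by
  by_contra hcon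
  push Not at hcon
  obtain ⟨σ, hσ⟩ := exists_move hcon
  exact hσ (h σ)

/-- A complex number with finitely many conjugates is algebraic. -/
theorem alg_of_orbit {z : ℂ} (h : (Set.range fun σ : ℂ ≃+* ℂ => σ z).Finite) :
    IsAlgebraic ℚ z := by
  classical
  set T : Finset ℂ := h.toFinset with hT
  have hmem : ∀ w, w ∈ T ↔ ∃ σ : ℂ ≃+* ℂ, σ z = w := by
    intro w
    rw [hT, Set.Finite.mem_toFinset]
    rfl
  set P : ℂ[X] := ∏ w ∈ T, (X - C w) with hP
  have hfix : ∀ σ : ℂ ≃+* ℂ, P.map (σ : ℂ →+* ℂ) = P := by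
    intro σ
    rw [hP, Polynomial.map_prod]
    refine Finset.prod_bij (fun w _ => σ w) ?_ ?_ ?_ ?_
    · intro w hw
      obtain ⟨τ, hτ⟩ := (hmem w).1 hw
      rw [hmem]
      exact ⟨τ.trans σ, by rw [← hτ]; rfl⟩
    · intro a _ b _ hab
      exact σ.injective hab
    · intro w hw
      obtain ⟨τ, hτ⟩ := (hmem w).1 hw
      refine ⟨σ.symm w, (hmem _).2 ⟨τ.trans σ.symm, by rw [← hτ]; rfl⟩, σ.apply_symm_apply w⟩
    · intro w _
      rw [Polynomial.map_sub, Polynomial.map_X, Polynomial.map_C]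
      rfl
  have hcoef : ∀ n, ∃ q : ℚ, P.coeff n = q := by
    intro n
    refine fixed_rat fun σ => ?_
    have h1 := congrArg (fun Q => Q.coeff n) (hfix σ)
    simp only [Polynomial.coeff_map] at h1
    exact h1
  have hlift : P ∈ Polynomial.lifts (algebraMap ℚ ℂ) := by
    rw [Polynomial.lifts_iff_coeff_lifts]
    intro n
    obtain ⟨q, hq⟩ := hcoef n
    exact ⟨q, by rw [hq]; rfl⟩
  obtain ⟨Q, hQ⟩ := (Polynomial.mem_lifts _).1 hlift
  refine ⟨Q, ?_, ?_⟩
  · rintro rfl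
    rw [Polynomial.map_zero] at hQ
    have : P.Monic := by
      rw [hP]
      exact monic_prod_of_monic _ _ fun w _ => monic_X_sub_C w
    rw [← hQ] at this
    exact this.ne_zero rfl
  · rw [Polynomial.aeval_def, Polynomial.eval₂_eq_eval_map, hQ, hP, Polynomial.eval_prod]
    refine Finset.prod_eq_zero ((hmem z).2 ⟨RingEquiv.refl ℂ, rfl⟩) ?_
    simp

end orbit

section comm

variable {B : Type} [Fintype B] [DecidableEq B]

/-- A commutative algebra of matrices has finitely many idempotents. -/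
theorem finite_idem (S : Subalgebra ℂ (Matrix B B ℂ)) (hc : ∀ x ∈ S, ∀ y ∈ S, x * y = y * x) :
    {E : Matrix B B ℂ | E ∈ S ∧ E * E = E}.Finite := by
  let _ : CommRing S := { (inferInstance : Ring S) with
    mul_comm := fun x y => Subtype.ext (hc x x.2 y y.2) }
  have : Module.Finite ℂ S := inferInstance
  have : IsArtinianRing S := IsArtinianRing.of_finite ℂ S
  have : Finite (TopologicalSpace.Clopens (PrimeSpectrum S)) :=
    Finite.of_injective (SetLike.coe : TopologicalSpace.Clopens (PrimeSpectrum S) →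
      Set (PrimeSpectrum S)) SetLike.coe_injective
  have : Finite {e : S // IsIdempotentElem e} :=
    Finite.of_equiv _ (PrimeSpectrum.isIdempotentElemEquivClopens (R := S)).symm.toEquiv
  have h1 : (Set.range fun e : {e : S // IsIdempotentElem e} => ((e : S) : Matrix B B ℂ)).Finite :=
    Set.finite_range _
  refine h1.subset ?_
  rintro E ⟨hE, hEE⟩
  exact ⟨⟨⟨E, hE⟩, Subtype.ext hEE⟩, rfl⟩

theorem CM_mul {L : Submodule ℂ (Matrix B B ℂ)} {M N : Matrix B B ℂ} (hM : M ∈ CM L)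
    (hN : N ∈ CM L) : M * N ∈ CM L := by
  intro X hX
  rw [← mul_assoc, hM X hX, mul_assoc, hN X hX, mul_assoc]

theorem CM_one {L : Submodule ℂ (Matrix B B ℂ)} : (1 : Matrix B B ℂ) ∈ CM L := by
  intro X _
  rw [one_mul, mul_one]

/-- The centre of the commutant as an algebra. -/
def ZA (L : Submodule ℂ (Matrix B B ℂ)) : Subalgebra ℂ (Matrix B B ℂ) where
  carrier := {M | M ∈ ZM L}
  add_mem' := fun ha hb => (ZM L).add_mem ha hb
  mul_mem' := by
    intro a b ha hb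
    refine ⟨CM_mul ha.1 hb.1, fun N hN => ?_⟩
    rw [← mul_assoc, ha.2 N hN, mul_assoc, hb.2 N hN, mul_assoc]
  algebraMap_mem' := by
    intro c
    rw [Algebra.algebraMap_eq_smul_one]
    exact (ZM L).smul_mem c ⟨CM_one, fun N _ => by rw [one_mul, mul_one]⟩

/-- **(a)** for general automorphism-stable spaces -/
theorem alg_central {L : Submodule ℂ (Matrix B B ℂ)}
    (hgal : ∀ (σ : ℂ ≃+* ℂ), ∀ X ∈ ZM L, X.map σ ∈ ZM L) {E : Matrix B B ℂ} (hE : E ∈ ZM L)
    (hEE : E * E = E) (i j : B) : IsAlgebraic ℚ (E i j) := by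
  have hfin := finite_idem (ZA L) (fun x hx y hy => hy.2 x hx.1)
  apply alg_of_orbit
  refine (hfin.image fun F : Matrix B B ℂ => F i j).subset ?_
  rintro _ ⟨σ, rfl⟩
  refine ⟨E.map σ, ⟨hgal σ E hE, ?_⟩, rfl⟩
  have h1 : (E * E).map σ = E.map σ * E.map σ := Matrix.map_mul (f := (σ : ℂ →+* ℂ))
  rw [← h1, hEE]

/-- A minimal idempotent. -/
theorem exists_min {L : Submodule ℂ (Matrix B B ℂ)} (hadj : ∀ X ∈ L, Xᴴ ∈ L) {E : Matrix B B ℂ}
    (hE : E ∈ CM L) (hEE : E * E = E) (hE0 : E ≠ 0) : ∃ p ∈ CM L, p * p = p ∧ p ≠ 0 ∧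
      E * p = p ∧ ∀ M ∈ CM L, ∃ c : ℂ, p * M * p = c • p := by
  classical
  let St : Submodule ℂ (B → ℂ) → Prop := fun K => K ≠ ⊥ ∧ (∀ v ∈ K, E *ᵥ v = v) ∧
    ∀ X ∈ L, ∀ v ∈ K, X *ᵥ v ∈ K
  have hex : ∃ n, ∃ K, St K ∧ finrank ℂ K = n := by
    refine ⟨_, LinearMap.range (Matrix.toLin' E), ⟨?_, ?_, ?_⟩, rfl⟩
    · intro h
      rw [LinearMap.range_eq_bot] at h
      apply hE0
      have := congrArg LinearMap.toMatrix' h
      rwa [LinearMap.toMatrix'_toLin', map_zero] at this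
    · rintro _ ⟨w, rfl⟩
      rw [toLin'_apply, mulVec_mulVec, hEE]
    · rintro X hX _ ⟨w, rfl⟩
      refine ⟨X *ᵥ w, ?_⟩
      rw [toLin'_apply, toLin'_apply, mulVec_mulVec, mulVec_mulVec, hE X hX]
  obtain ⟨K, ⟨hK0, hK1, hK2⟩, hKn⟩ := Nat.find_spec hex
  have hmin : ∀ K', St K' → finrank ℂ K ≤ finrank ℂ K' := by
    intro K' hK'
    rw [hKn]
    exact Nat.find_min' hex ⟨K', hK', rfl⟩
  obtain ⟨p, hp1, hp2, hp3⟩ := exists_proj K
  have hpK : ∀ X ∈ L, p * X * p = X * p := by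
    intro X hX
    refine Matrix.toLin'.injective (LinearMap.ext fun x => ?_)
    rw [toLin'_apply, toLin'_apply, ← mulVec_mulVec, ← mulVec_mulVec, ← mulVec_mulVec]
    exact hp3 _ (hK2 X hX _ (hp2 x))
  have hpC : p ∈ CM L := by
    intro X hX
    have h1 := hpK X hX
    have h2 := congrArg Matrix.conjTranspose (hpK _ (hadj X hX))
    rw [conjTranspose_mul, conjTranspose_mul, conjTranspose_mul, conjTranspose_conjTranspose,
      hp1] at h2
    rw [← h1, mul_assoc, h2]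
  have hpp : p * p = p := by
    refine Matrix.toLin'.injective (LinearMap.ext fun x => ?_)
    rw [toLin'_apply, toLin'_apply, ← mulVec_mulVec]
    exact hp3 _ (hp2 x)
  refine ⟨p, hpC, hpp, ?_, ?_, ?_⟩
  · rintro rfl
    obtain ⟨v, hv, hv0⟩ := (Submodule.ne_bot_iff K).1 hK0
    apply hv0
    rw [← hp3 v hv, zero_mulVec]
  · refine Matrix.toLin'.injective (LinearMap.ext fun x => ?_)
    rw [toLin'_apply, toLin'_apply, ← mulVec_mulVec]
    exact hK1 _ (hp2 x)
  · intro M hM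
    have hN : p * M * p ∈ CM L := CM_mul (CM_mul hpC hM) hpC
    set N := p * M * p with hNd
    have hNK : ∀ v ∈ K, N *ᵥ v ∈ K := by
      intro v _
      rw [hNd, ← mulVec_mulVec, ← mulVec_mulVec]
      exact hp2 _
    let f : K →ₗ[ℂ] K := (Matrix.toLin' N).restrict (fun v hv => by
      rw [toLin'_apply]; exact hNK v hv)
    have : Nontrivial K := (Submodule.nontrivial_iff_ne_bot).2 hK0
    obtain ⟨c, hc⟩ := Module.End.exists_eigenvalue f
    obtain ⟨v, hv⟩ := hc.exists_hasEigenvector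
    have hv1 : N *ᵥ (v : B → ℂ) = c • (v : B → ℂ) := by
      have h1 := hv.apply_eq_smul
      have h2 := congrArg Subtype.val h1
      simpa [f] using h2
    let K' : Submodule ℂ (B → ℂ) := K ⊓ LinearMap.ker (Matrix.toLin' N - c • LinearMap.id)
    have hK' : ∀ v, v ∈ K' ↔ v ∈ K ∧ N *ᵥ v = c • v := by
      intro v
      change v ∈ K ∧ v ∈ LinearMap.ker _ ↔ _
      rw [LinearMap.mem_ker, LinearMap.sub_apply, toLin'_apply, LinearMap.smul_apply,
        LinearMap.id_apply, sub_eq_zero]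
    have hSt : St K' := by
      refine ⟨?_, fun v hv => hK1 v ((hK' v).1 hv).1, fun X hX v hv => ?_⟩
      · rw [Submodule.ne_bot_iff]
        refine ⟨v, (hK' _).2 ⟨v.2, hv1⟩, fun h => hv.2 (Subtype.ext h)⟩
      · obtain ⟨h1, h2⟩ := (hK' v).1 hv
        refine (hK' _).2 ⟨hK2 X hX v h1, ?_⟩
        rw [mulVec_mulVec, ← hN X hX, ← mulVec_mulVec, h2, mulVec_smul]
    have hle : K' ≤ K := inf_le_left
    have heq : K' = K := Submodule.eq_of_le_of_finrank_le hle (hmin K' hSt)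
    refine ⟨c, ?_⟩
    refine Matrix.toLin'.injective (LinearMap.ext fun x => ?_)
    have h1 : p *ᵥ x ∈ K' := by rw [heq]; exact hp2 x
    have h2 := ((hK' _).1 h1).2
    rw [mulVec_mulVec] at h2
    have h3 : N * p = N := by rw [hNd, mul_assoc, hpp]
    rw [h3] at h2
    rw [toLin'_apply, toLin'_apply, h2, smul_mulVec]

end comm

section special

/-- Points of algebras of finite type over algebraically closed fields. -/
theorem exists_point (k A : Type) [Field k] [IsAlgClosed k] [CommRing A] [Nontrivial A]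
    [Algebra k A] [Algebra.FiniteType k A] : Nonempty (A →ₐ[k] k) := by
  obtain ⟨m, hm⟩ := Ideal.exists_maximal A
  let _ : Field (A ⧸ m) := Ideal.Quotient.field m
  have : Module.Finite k (A ⧸ m) := finite_of_finite_type_of_isJacobsonRing k (A ⧸ m)
  have : Algebra.IsAlgebraic k (A ⧸ m) := inferInstance
  exact ⟨(IsAlgClosed.lift (R := k) (S := A ⧸ m) (M := k)).comp (Ideal.Quotient.mkₐ k m)⟩

/-- Specialisation of finitely many complex numbers to algebraic numbers. -/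
theorem exists_special (S : Set ℂ) (hS : S.Finite) :
    Nonempty (Algebra.adjoin (algebraicClosure ℚ ℂ) S →ₐ[algebraicClosure ℚ ℂ]
      algebraicClosure ℚ ℂ) := by
  have h1 : IsAlgClosed (algebraicClosure ℚ ℂ) := (algebraicClosure.isAlgClosure ℚ ℂ).isAlgClosed
  have h2 : Algebra.FiniteType (algebraicClosure ℚ ℂ) (Algebra.adjoin (algebraicClosure ℚ ℂ) S) :=
    (Subalgebra.fg_iff_finiteType _).1 ⟨hS.toFinset, by rw [Set.Finite.coe_toFinset]⟩
  exact exists_point _ _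

end special

section alg

variable {B : Type} [Fintype B] [DecidableEq B]

/-- Specialisation of a minimal idempotent. -/
theorem exists_alg {L : Submodule ℂ (Matrix B B ℂ)}
    (hL : ∀ (σ : ℂ ≃+* ℂ), ∀ X ∈ L, X.map σ ∈ L)
    (hC : ∀ (σ : ℂ ≃+* ℂ), ∀ X ∈ CM L, X.map σ ∈ CM L) {E e0 : Matrix B B ℂ}
    (hE : ∀ i j, IsAlgebraic ℚ (E i j)) (he : Me L E e0) :
    ∃ e, Me L E e ∧ ∀ i j, IsAlgebraic ℚ (e i j) := by
  classical
  obtain ⟨he1, he2, he3, he4, he5⟩ := he
  obtain ⟨i0, j0, h0⟩ : ∃ i j, e0 i j ≠ 0 := by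
    by_contra hcon
    push Not at hcon
    exact he3 (Matrix.ext fun i j => hcon i j)
  obtain ⟨S, hSd⟩ : ∃ S : Set ℂ, S = Set.range (fun x : B × B => e0 x.1 x.2) ∪ {(e0 i0 j0)⁻¹} :=
    ⟨_, rfl⟩
  have hS : S.Finite := by
    rw [hSd]
    exact (Set.finite_range _).union (Set.finite_singleton _)
  obtain ⟨φ⟩ := exists_special S hS
  set A := Algebra.adjoin (algebraicClosure ℚ ℂ) S with hA
  let θ : A →+* ℂ := (algebraMap (algebraicClosure ℚ ℂ) ℂ).comp (φ : A →+* algebraicClosure ℚ ℂ)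
  let ι : A →+* ℂ := (A.val : A →+* ℂ)
  have hι : Function.Injective ι := Subtype.val_injective
  have hθ : ∀ q : algebraicClosure ℚ ℂ, θ (algebraMap _ A q) = (q : ℂ) := by
    intro q
    change algebraMap (algebraicClosure ℚ ℂ) ℂ (φ (algebraMap _ A q)) = _
    rw [AlgHom.commutes]
    rfl
  have tr : ∀ P Q : Matrix B B A, P.map ι = Q.map ι → P.map θ = Q.map θ := by
    intro P Q h
    have : P = Q := Matrix.map_injective hι h
    rw [this]
  have mulι : ∀ P Q : Matrix B B A, (P * Q).map ι = P.map ι * Q.map ι :=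
    fun P Q => Matrix.map_mul (f := ι)
  have mulθ : ∀ P Q : Matrix B B A, (P * Q).map θ = P.map θ * Q.map θ :=
    fun P Q => Matrix.map_mul (f := θ)
  have hex : ∀ F : Matrix B B ℂ, (∀ i j, IsAlgebraic ℚ (F i j)) →
      ∃ FA : Matrix B B A, FA.map ι = F ∧ FA.map θ = F := by
    intro F hF
    refine ⟨of fun i j => algebraMap (algebraicClosure ℚ ℂ) A
      ⟨F i j, mem_algebraicClosure_iff.2 (hF i j)⟩, ?_, ?_⟩
    · ext i j
      rfl
    · ext i j
      rw [Matrix.map_apply, of_apply, hθ]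
  let eA : Matrix B B A := of fun i j => ⟨e0 i j, Algebra.subset_adjoin (by
    rw [hSd]; exact Or.inl ⟨(i, j), rfl⟩)⟩
  let tA : A := ⟨(e0 i0 j0)⁻¹, Algebra.subset_adjoin (by rw [hSd]; exact Or.inr rfl)⟩
  have heA : eA.map ι = e0 := by
    ext i j
    rfl
  have htA : ι tA = (e0 i0 j0)⁻¹ := rfl
  obtain ⟨e, hed⟩ : ∃ e, e = eA.map θ := ⟨_, rfl⟩
  have hcomm : ∀ X : Matrix B B ℂ, (∀ i j, IsAlgebraic ℚ (X i j)) → X * e0 = e0 * X →
      X * e = e * X := by
    intro X hX h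
    obtain ⟨XA, hX1, hX2⟩ := hex X hX
    have h1 := tr (XA * eA) (eA * XA) (by rw [mulι, mulι, hX1, heA, h])
    rwa [mulθ, mulθ, hX2, ← hed] at h1
  have hrat : ∀ (u : Matrix B B ℚ) (i j : B),
      IsAlgebraic ℚ ((u.map (fun x : ℚ => (x : ℂ))) i j) := by
    intro u i j
    rw [Matrix.map_apply]
    exact isAlgebraic_algebraMap (u i j)
  refine ⟨e, ⟨?_, ?_, ?_, ?_, ?_⟩, ?_⟩
  · intro X hX
    refine rational_induction L hL (p := fun X => X * e = e * X) ?_ ?_ ?_ ?_ X hX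
    · intro u hu
      exact hcomm _ (hrat u) (he1 _ hu)
    · rw [zero_mul, mul_zero]
    · intro X Y hX hY
      rw [add_mul, mul_add, hX, hY]
    · intro c X hX
      rw [Matrix.smul_mul, Matrix.mul_smul, hX]
  · have h1 := tr (eA * eA) eA (by rw [mulι, heA, he2])
    rwa [mulθ, ← hed] at h1
  · intro h
    have h1 : eA i0 j0 * tA = 1 := by
      apply hι
      rw [map_mul, htA, map_one]
      change e0 i0 j0 * _ = 1
      exact mul_inv_cancel₀ h0
    have h2 := congrArg θ h1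
    rw [map_mul, map_one] at h2
    have h3 : θ (eA i0 j0) = 0 := by
      have := congrFun (congrFun h i0) j0
      rw [hed, Matrix.map_apply, Matrix.zero_apply] at this
      exact this
    rw [h3, zero_mul] at h2
    exact zero_ne_one h2
  · obtain ⟨EA, hE1, hE2⟩ := hex E hE
    have h1 := tr (EA * eA) eA (by rw [mulι, hE1, heA, he4])
    rwa [mulθ, hE2, ← hed] at h1
  · intro M hM
    refine rational_induction (CM L) hC (p := fun M => ∃ c : ℂ, e * M * e = c • e) ?_ ?_ ?_ ?_ M hM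
    · intro u hu
      obtain ⟨c, hc⟩ := he5 _ hu
      obtain ⟨MA, hM1, hM2⟩ := hex _ (hrat u)
      obtain ⟨cA, hcA⟩ : ∃ cA : A, cA = (eA * MA * eA) i0 j0 * tA := ⟨_, rfl⟩
      have h2 : (eA * MA * eA).map ι = c • e0 := by rw [mulι, mulι, hM1, heA, hc]
      have h1 : ι cA = c := by
        rw [hcA, map_mul, htA]
        have h3 : ι ((eA * MA * eA) i0 j0) = c * e0 i0 j0 := by
          have := congrFun (congrFun h2 i0) j0
          rw [Matrix.map_apply, Matrix.smul_apply, smul_eq_mul] at this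
          exact this
        rw [h3, mul_assoc, mul_inv_cancel₀ h0, mul_one]
      have h4 := tr (eA * MA * eA) (cA • eA) (by
        rw [h2]
        ext i j
        rw [Matrix.map_apply, Matrix.smul_apply, Matrix.smul_apply, smul_eq_mul, smul_eq_mul,
          map_mul, h1]
        rfl)
      refine ⟨θ cA, ?_⟩
      rw [mulθ, mulθ, hM2, ← hed] at h4
      rw [h4, hed]
      ext i j
      rw [Matrix.map_apply, Matrix.smul_apply, Matrix.smul_apply, smul_eq_mul, smul_eq_mul,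
        map_mul, Matrix.map_apply]
    · exact ⟨0, by rw [mul_zero, zero_mul, zero_smul]⟩
    · rintro X Y ⟨c, hc⟩ ⟨d, hd⟩
      exact ⟨c + d, by rw [mul_add, add_mul, hc, hd, add_smul]⟩
    · rintro a X ⟨c, hc⟩
      exact ⟨a * c, by rw [Matrix.mul_smul, Matrix.smul_mul, hc, smul_smul]⟩
  · intro i j
    rw [hed, Matrix.map_apply]
    exact mem_algebraicClosure_iff.1 (φ (eA i j)).2

end alg

section galois

variable {B : Type} [Fintype B] [DecidableEq B] {L : Submodule ℂ (Matrix B B ℂ)}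

theorem gal_CMg (hL : ∀ (σ : ℂ ≃+* ℂ), ∀ X ∈ L, X.map σ ∈ L) (σ : ℂ ≃+* ℂ) (M : Matrix B B ℂ)
    (hM : M ∈ CM L) : M.map σ ∈ CM L := by
  intro X hX
  have h1 : X = (X.map σ.symm).map σ := by
    ext i j
    exact (σ.apply_symm_apply _).symm
  have h2 := congrArg (fun W => W.map σ) (hM _ (hL σ.symm _ hX))
  beta_reduce at h2
  have e1 : (X.map σ.symm * M).map σ = (X.map σ.symm).map σ * M.map σ :=
    Matrix.map_mul (f := (σ : ℂ →+* ℂ))
  have e2 : (M * X.map σ.symm).map σ = M.map σ * (X.map σ.symm).map σ :=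
    Matrix.map_mul (f := (σ : ℂ →+* ℂ))
  rw [e1, e2, ← h1] at h2
  exact h2

theorem gal_ZMg (hL : ∀ (σ : ℂ ≃+* ℂ), ∀ X ∈ L, X.map σ ∈ L) (σ : ℂ ≃+* ℂ) (M : Matrix B B ℂ)
    (hM : M ∈ ZM L) : M.map σ ∈ ZM L := by
  refine ⟨gal_CMg hL σ M hM.1, fun N hN => ?_⟩
  have h1 : N = (N.map σ.symm).map σ := by
    ext i j
    exact (σ.apply_symm_apply _).symm
  have h2 := congrArg (fun W => W.map σ) (hM.2 _ (gal_CMg hL σ.symm N hN))
  beta_reduce at h2
  have e1 : (N.map σ.symm * M).map σ = (N.map σ.symm).map σ * M.map σ :=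
    Matrix.map_mul (f := (σ : ℂ →+* ℂ))
  have e2 : (M * N.map σ.symm).map σ = M.map σ * (N.map σ.symm).map σ :=
    Matrix.map_mul (f := (σ : ℂ →+* ℂ))
  rw [e1, e2, ← h1] at h2
  exact h2

end galois

theorem gal_Lr {g : ℕ} {Z : Matrix (Fin g) (Fin g) ℂ} (σ : ℂ ≃+* ℂ)
    (X : Matrix (Fin g ⊕ Fin g) (Fin g ⊕ Fin g) ℂ) (hX : X ∈ Lr Z) : X.map σ ∈ Lr Z :=
  gal_LZ σ Xᵀ hX

end WJ6

/-- **J6.** -/
theorem idem_of : St_idem := by
  intro g Z hZ
  have hL : ∀ (σ : ℂ ≃+* ℂ), ∀ X ∈ Lr Z, X.map σ ∈ Lr Z := WJ6.gal_Lr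
  have hC := WJ6.gal_CMg hL
  have ha : ∀ E ∈ ZM (Lr Z), E * E = E → ∀ i j, IsAlgebraic ℚ (E i j) :=
    fun E hE hEE i j => WJ6.alg_central (WJ6.gal_ZMg hL) hE hEE i j
  refine ⟨ha, fun E hE => ?_⟩
  obtain ⟨hE1, hE2, hE3, -⟩ := hE
  obtain ⟨y, yi, hy⟩ := exists_YD hZ
  obtain ⟨a, ha'⟩ : ∃ a, a = (cm yi)ᵀ := ⟨_, rfl⟩
  obtain ⟨b, hb'⟩ : ∃ b, b = (cm y)ᵀ := ⟨_, rfl⟩
  have hab : a * b = 1 := by rw [ha', hb']; exact hy.crT
  have hba : b * a = 1 := by rw [ha', hb']; exact hy.clT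
  have hto : ∀ X ∈ Lr Z, a * X * b ∈ Ly Z y yi := fun X hX => by
    rw [ha', hb']; exact hy.Lr_to hX
  have hfrom : ∀ N ∈ Ly Z y yi, b * N * a ∈ Lr Z := by
    intro N hN
    rw [ha', hb', mem_Lr, transpose_mul, transpose_mul, transpose_transpose, transpose_transpose,
      ← mul_assoc]
    exact hN
  have key : ∀ P : Matrix (Fin g ⊕ Fin g) (Fin g ⊕ Fin g) ℂ, b * (a * P * b) * a = P := by
    intro P
    calc b * (a * P * b) * a = (b * a) * P * (b * a) := by noncomm_ring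
      _ = P := by rw [hba, one_mul, mul_one]
  have key2 : ∀ P : Matrix (Fin g ⊕ Fin g) (Fin g ⊕ Fin g) ℂ, a * (b * P * a) * b = P := by
    intro P
    calc a * (b * P * a) * b = (a * b) * P * (a * b) := by noncomm_ring
      _ = P := by rw [hab, one_mul, mul_one]
  have mula : ∀ P Q : Matrix (Fin g ⊕ Fin g) (Fin g ⊕ Fin g) ℂ,
      (a * P * b) * (a * Q * b) = a * (P * Q) * b := by
    intro P Q
    calc (a * P * b) * (a * Q * b) = a * P * (b * a) * Q * b := by noncomm_ring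
      _ = _ := by rw [hba]; noncomm_ring
  have mulb : ∀ P Q : Matrix (Fin g ⊕ Fin g) (Fin g ⊕ Fin g) ℂ,
      (b * P * a) * (b * Q * a) = b * (P * Q) * a := by
    intro P Q
    calc (b * P * a) * (b * Q * a) = b * P * (a * b) * Q * a := by noncomm_ring
      _ = _ := by rw [hab]; noncomm_ring
  have cto : ∀ M ∈ CM (Lr Z), a * M * b ∈ CM (Ly Z y yi) := by
    intro M hM N hN
    have h1 := hM _ (hfrom N hN)
    rw [← key2 N, mula, mula, h1]
  have cfrom : ∀ M ∈ CM (Ly Z y yi), b * M * a ∈ CM (Lr Z) := by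
    intro M hM X hX
    have h1 := hM _ (hto X hX)
    rw [← key X, mulb, mulb, h1]
  have hE0' : a * E * b ≠ 0 := by
    intro h
    apply hE3
    rw [← key E, h, mul_zero, zero_mul]
  obtain ⟨p, hp1, hp2, hp3, hp4, hp5⟩ := WJ6.exists_min (hy.ld hZ).adj (cto E hE1.1)
    (by rw [mula, hE2]) hE0'
  have he0 : Me (Lr Z) E (b * p * a) := by
    refine ⟨cfrom p hp1, by rw [mulb, hp2], ?_, ?_, ?_⟩
    · intro h
      apply hp3
      rw [← key2 p, h, mul_zero, zero_mul]
    · conv_lhs => rw [← key E, mulb, hp4]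
    · intro M hM
      obtain ⟨c, hc⟩ := hp5 _ (cto M hM)
      refine ⟨c, ?_⟩
      rw [← key M, mulb, mulb, hc, Matrix.mul_smul, Matrix.smul_mul]
  exact WJ6.exists_alg hL hC (ha E hE1 hE2) he0


end

end Pool.Agent.NH32
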