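import Mathlib
import Pool.Agent.NH32.GtB
import Pool.Agent.NH32.WJ6

/-!
# K6: specialization and algebraic bases
-/

set_option linter.unusedSectionVars false

namespace Pool.Agent.NH32

open Matrix Module

noncomputable section

namespace GK6

/-- Numbers fixed by the automorphisms over a number field are algebraic. -/
theorem alg_of_fixed {K : Subfield ℂ} (hK : FiniteDimensional ℚ K) {x : ℂ}
    (hx : ∀ τ : ℂ ≃+* ℂ, (∀ z ∈ K, τ z = z) → τ x = x) : IsAlgebraic ℚ x := by
  apply WJ6.alg_of_orbit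
  have hfin : Finite (K →+* ℂ) := by
    exact Finite.of_equiv (K →ₐ[ℚ] ℂ) (RingHom.equivRatAlgHom (R := K) (S := ℂ)).symm
  have hfac : ∃ F : (K →+* ℂ) → ℂ, ∀ σ : ℂ ≃+* ℂ,
      σ x = F ((σ : ℂ →+* ℂ).comp K.subtype) := by
    classical
    refine ⟨fun g => if h : ∃ σ : ℂ ≃+* ℂ, (σ : ℂ →+* ℂ).comp K.subtype = g then h.choose x
      else 0, fun σ => ?_⟩
    have h : ∃ σ' : ℂ ≃+* ℂ, (σ' : ℂ →+* ℂ).comp K.subtype =
        (σ : ℂ →+* ℂ).comp K.subtype := ⟨σ, rfl⟩
    show σ x = dite _ _ _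
    rw [dif_pos h]
    have h1 := h.choose_spec
    obtain ⟨σ', hσ'⟩ : ∃ σ', σ' = h.choose := ⟨_, rfl⟩
    rw [← hσ'] at h1 ⊢
    have h2 := hx (σ.trans σ'.symm) fun z hz => by
      have h3 : σ' z = σ z := congrArg (fun q : K →+* ℂ => q ⟨z, hz⟩) h1
      show σ'.symm (σ z) = z
      rw [← h3, σ'.symm_apply_apply]
    have h3 : σ'.symm (σ x) = x := h2
    rw [← h3, σ'.apply_symm_apply, h3]
  obtain ⟨F, hF⟩ := hfac
  refine (Set.finite_range F).subset ?_
  rintro _ ⟨σ, rfl⟩
  exact ⟨_, (hF σ).symm⟩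

/-- The support of a matrix. -/
def sup {d : ℕ} (X : Matrix (Fin d) (Fin d) ℂ) : Finset (Fin d × Fin d) :=
  Finset.univ.filter fun p => X p.1 p.2 ≠ 0

theorem mem_sup {d : ℕ} {X : Matrix (Fin d) (Fin d) ℂ} {p : Fin d × Fin d} :
    p ∈ sup X ↔ X p.1 p.2 ≠ 0 := by
  unfold sup
  rw [Finset.mem_filter]
  exact ⟨fun h => h.2, fun h => ⟨Finset.mem_univ _, h⟩⟩

theorem span_fixed {d : ℕ} {M : Submodule ℂ (Matrix (Fin d) (Fin d) ℂ)}
    {H : Set (ℂ ≃+* ℂ)} (hM : ∀ τ ∈ H, ∀ X ∈ M, X.map τ ∈ M) :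
    M ≤ Submodule.span ℂ {X | X ∈ M ∧ ∀ τ ∈ H, X.map τ = X} := by
  classical
  have key : ∀ n : ℕ, ∀ X ∈ M, (sup X).card = n →
      X ∈ Submodule.span ℂ {X | X ∈ M ∧ ∀ τ ∈ H, X.map τ = X} := by
    intro n
    induction n using Nat.strong_induction_on with
    | _ n ih =>
      intro X hX hn
      by_cases hX0 : X = 0
      · rw [hX0]
        exact Submodule.zero_mem _
      -- a nonzero element of minimal support inside the support of `X`
      have hex : ∃ k : ℕ, ∃ W ∈ M, W ≠ 0 ∧ sup W ⊆ sup X ∧ (sup W).card = k :=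
        ⟨_, X, hX, hX0, Finset.Subset.refl _, rfl⟩
      obtain ⟨W, hW, hW0, hWX, hWc⟩ := Nat.find_spec hex
      have hmin : ∀ V ∈ M, sup V ⊆ sup X → (sup V).card < (sup W).card → V = 0 := by
        intro V hV hVX hVc
        by_contra hV0
        rw [hWc] at hVc
        exact Nat.find_min hex hVc ⟨V, hV, hV0, hVX, rfl⟩
      obtain ⟨p, hp⟩ : ∃ p : Fin d × Fin d, W p.1 p.2 ≠ 0 := by
        by_contra hcon
        push Not at hcon
        exact hW0 (by ext i j; exact hcon (i, j))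
      obtain ⟨W', hW'⟩ : ∃ W', W' = (W p.1 p.2)⁻¹ • W := ⟨_, rfl⟩
      have hW'M : W' ∈ M := by rw [hW']; exact M.smul_mem _ hW
      have hW'p : W' p.1 p.2 = 1 := by
        rw [hW', Matrix.smul_apply, smul_eq_mul, inv_mul_cancel₀ hp]
      have hW's : ∀ q : Fin d × Fin d, W q.1 q.2 = 0 → W' q.1 q.2 = 0 := by
        intro q hq
        rw [hW', Matrix.smul_apply, hq, smul_zero]
      have hfix : ∀ τ ∈ H, W'.map τ = W' := by
        intro τ hτ
        have h1 : W'.map τ - W' ∈ M := M.sub_mem (hM τ hτ _ hW'M) hW'M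
        have h2 : sup (W'.map τ - W') ⊆ (sup W).erase p := by
          intro q hq
          rw [mem_sup, Matrix.sub_apply, Matrix.map_apply] at hq
          rw [Finset.mem_erase, mem_sup]
          refine ⟨fun h3 => ?_, fun h3 => ?_⟩
          · apply hq
            rw [h3, hW'p, map_one, sub_self]
          · apply hq
            rw [hW's q h3, map_zero, sub_self]
        have h3 : (sup (W'.map τ - W')).card < (sup W).card :=
          lt_of_le_of_lt (Finset.card_le_card h2) (Finset.card_erase_lt_of_mem (mem_sup.2 hp))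
        have h4 := hmin _ h1 ((h2.trans (Finset.erase_subset _ _)).trans hWX) h3
        exact sub_eq_zero.1 h4
      have h5 : X - X p.1 p.2 • W' ∈ Submodule.span ℂ {X | X ∈ M ∧ ∀ τ ∈ H, X.map τ = X} := by
        refine ih _ ?_ _ (M.sub_mem hX (M.smul_mem _ hW'M)) rfl
        rw [← hn]
        have h6 : sup (X - X p.1 p.2 • W') ⊆ (sup X).erase p := by
          intro q hq
          rw [mem_sup, Matrix.sub_apply, Matrix.smul_apply, smul_eq_mul] at hq
          rw [Finset.mem_erase]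
          refine ⟨fun h3 => ?_, ?_⟩
          · apply hq
            rw [h3, hW'p, mul_one, sub_self]
          · by_contra h3
            have h7 : X q.1 q.2 = 0 := by
              by_contra h8
              exact h3 (mem_sup.2 h8)
            have h8 : W q.1 q.2 = 0 := by
              by_contra h9
              exact h3 (hWX (mem_sup.2 h9))
            apply hq
            rw [h7, hW's q h8, mul_zero, sub_self]
        exact lt_of_le_of_lt (Finset.card_le_card h6)
          (Finset.card_erase_lt_of_mem (hWX (mem_sup.2 hp)))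
      have h6 : X = (X - X p.1 p.2 • W') + X p.1 p.2 • W' := by abel
      rw [h6]
      exact Submodule.add_mem _ h5 (Submodule.smul_mem _ _ (Submodule.subset_span ⟨hW'M, hfix⟩))
  exact fun X hX => key _ X hX rfl

end GK6

/-- **K6b.** -/
theorem lalg_of : St_lalg := by
  intro d M hM
  obtain ⟨K, hK, hM⟩ := hM
  obtain ⟨H, hH⟩ : ∃ H : Set (ℂ ≃+* ℂ), H = {τ | ∀ z ∈ K, τ z = z} := ⟨_, rfl⟩
  have h1 := GK6.span_fixed (M := M) (H := H) fun τ hτ X hX => by
    rw [hH] at hτ
    exact hM τ hτ X hX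
  obtain ⟨b, hb, hsp, hli⟩ := exists_linearIndependent ℂ {X | X ∈ M ∧ ∀ τ ∈ H, X.map τ = X}
  have hfin : b.Finite := hli.setFinite
  have : Fintype b := hfin.fintype
  obtain ⟨e⟩ : Nonempty (Fin (Fintype.card b) ≃ b) := ⟨(Fintype.equivFin b).symm⟩
  refine ⟨Fintype.card b, fun i => (e i : Matrix (Fin d) (Fin d) ℂ), ?_, ?_, ?_⟩
  · exact hli.comp e e.injective
  · have h2 : Set.range (fun i => (e i : Matrix (Fin d) (Fin d) ℂ)) = b := by
      ext X
      constructor
      · rintro ⟨i, rfl⟩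
        exact (e i).2
      · intro hX
        exact ⟨e.symm ⟨X, hX⟩, congrArg Subtype.val (e.apply_symm_apply ⟨X, hX⟩)⟩
    rw [h2, hsp]
    refine le_antisymm (Submodule.span_le.2 fun X hX => hX.1) h1
  · intro a i j
    refine GK6.alg_of_fixed hK fun τ hτ => ?_
    have h2 := (hb (e a).2).2 τ (by rw [hH]; exact hτ)
    have h3 := congrFun (congrFun h2 i) j
    exact h3

/-- Points of finitely generated algebras over an algebraically closed field. -/
theorem exists_point (F A : Type) [Field F] [IsAlgClosed F] [CommRing A] [Nontrivial A]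
    [Algebra F A] (hft : Algebra.FiniteType F A) : Nonempty (A →ₐ[F] F) := by
  obtain ⟨I, hI⟩ := Ideal.exists_maximal A
  let _ : Field (A ⧸ I) := Ideal.Quotient.field I
  have h1 : Algebra.FiniteType F (A ⧸ I) :=
    Algebra.FiniteType.of_surjective (Ideal.Quotient.mkₐ F I) (Ideal.Quotient.mkₐ_surjective _ I)
  have h2 : Module.Finite F (A ⧸ I) := finite_of_finite_type_of_isJacobsonRing F (A ⧸ I)
  have h3 : Algebra.IsIntegral F (A ⧸ I) := Algebra.IsIntegral.of_finite F (A ⧸ I)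
  have hb : Function.Bijective (algebraMap F (A ⧸ I)) :=
    IsAlgClosed.algebraMap_bijective_of_isIntegral
  let e : F ≃ₐ[F] (A ⧸ I) := AlgEquiv.ofBijective (Algebra.ofId _ (A ⧸ I)) hb
  exact ⟨e.symm.toAlgHom.comp (Ideal.Quotient.mkₐ F I)⟩

/-- **K6a.** -/
theorem spr_of : St_spr := by
  intro m z
  have hcl : IsAlgClosure ℚ (algebraicClosure ℚ ℂ) := algebraicClosure.isAlgClosure ℚ ℂ
  have hac : IsAlgClosed (algebraicClosure ℚ ℂ) := IsAlgClosure.isAlgClosed ℚ
  obtain ⟨A, hA⟩ : ∃ A : Subalgebra (algebraicClosure ℚ ℂ) ℂ,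
      A = Algebra.adjoin (algebraicClosure ℚ ℂ) (Set.range z) := ⟨_, rfl⟩
  have hft : Algebra.FiniteType (algebraicClosure ℚ ℂ) A := by
    rw [← Subalgebra.fg_iff_finiteType]
    refine ⟨(Set.finite_range z).toFinset, ?_⟩
    rw [Set.Finite.coe_toFinset, hA]
  obtain ⟨g⟩ := exists_point (algebraicClosure ℚ ℂ) A hft
  let ι : A.toSubring →+* A :=
    { toFun := fun x => ⟨x.1, x.2⟩
      map_one' := rfl
      map_mul' := fun _ _ => rfl
      map_zero' := rfl
      map_add' := fun _ _ => rfl }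
  refine ⟨A.toSubring, ((algebraMap (algebraicClosure ℚ ℂ) ℂ).comp (g : A →+* _)).comp ι, ?_, ?_,
    ?_⟩
  · intro i
    show z i ∈ A
    rw [hA]
    exact Algebra.subset_adjoin ⟨i, rfl⟩
  · intro x hx
    have h1 : x ∈ algebraicClosure ℚ ℂ := mem_algebraicClosure_iff.2 hx
    refine ⟨A.algebraMap_mem ⟨x, h1⟩, ?_⟩
    have h2 := g.commutes ⟨x, h1⟩
    exact congrArg Subtype.val h2
  · intro x
    exact mem_algebraicClosure_iff.1 (g (ι x)).2

end

end Pool.Agent.NH32
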