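import Mathlib
import Pool.Agent.NH32.GtD
import Pool.Agent.NH32.GJ14
import Pool.Agent.NH32.GK6
import Pool.Agent.Y4.Aut

/-!
# Project G, stage 3: lines over a CM field
-/

set_option linter.unusedSectionVars false

namespace Pool.Agent.NH32

open Matrix Module Pool.Agent.W437.HC Pool.Agent.W437.HD Pool.Agent.TH504.CB Pool.Agent.Y90
open Pool.Agent.H204R3.CM (IsHodge)
open Pool.Agent.W548.Odd hiding cv

noncomputable section

namespace GD10

/-- Numbers fixed by the automorphisms over a number field belong to the field. -/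
theorem fixed_mem {K : Subfield ℂ} (hK : FiniteDimensional ℚ K) {z : ℂ}
    (hz : ∀ τ : ℂ ≃+* ℂ, (∀ w ∈ K, τ w = w) → τ z = z) : z ∈ K := by
  have halg : IsAlgebraic ℚ z := GK6.alg_of_fixed hK hz
  have hint : IsIntegral K z := (halg.isIntegral).tower_top
  by_contra hzK
  have hrange : z ∉ (algebraMap K ℂ).range := by
    rintro ⟨w, hw⟩
    exact hzK (hw ▸ w.2)
  have h2 : 2 ≤ (minpoly K z).natDegree := (minpoly.two_le_natDegree_iff hint).2 hrange
  have hsep : (minpoly K z).Separable := (minpoly.irreducible hint).separable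
  -- another root
  obtain ⟨w, hw, hwz⟩ : ∃ w : ℂ, Polynomial.aeval w (minpoly K z) = 0 ∧ w ≠ z := by
    have hc : ((minpoly K z).rootSet ℂ).ncard = (minpoly K z).natDegree := by
      rw [← Nat.card_coe_set_eq, Nat.card_eq_fintype_card]
      exact Polynomial.card_rootSet_eq_natDegree hsep (IsAlgClosed.splits _)
    by_contra hcon
    push Not at hcon
    have hsub : (minpoly K z).rootSet ℂ ⊆ {z} := by
      intro w hw
      rw [Polynomial.mem_rootSet] at hw
      exact hcon w hw.2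
    have h3 := Set.ncard_le_ncard hsub (Set.finite_singleton z)
    rw [hc, Set.ncard_singleton] at h3
    omega
  have hwr : w ∈ ((minpoly K z).aroots ℂ) := by
    rw [Polynomial.mem_aroots]
    exact ⟨minpoly.ne_zero hint, hw⟩
  obtain ⟨φ, hφ⟩ : ∃ φ : IntermediateField.adjoin K {z} →ₐ[K] ℂ,
      φ (IntermediateField.AdjoinSimple.gen K z) = w := by
    let e := IntermediateField.algHomAdjoinIntegralEquiv K (K := ℂ) hint
    refine ⟨e.symm ⟨w, hwr⟩, ?_⟩
    exact IntermediateField.algHomAdjoinIntegralEquiv_symm_apply_gen K hint ⟨w, hwr⟩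
  have hfd : FiniteDimensional K (IntermediateField.adjoin K {z}) :=
    IntermediateField.adjoin.finiteDimensional hint
  have hnf : NumberField (IntermediateField.adjoin K {z}) := by
    have : FiniteDimensional ℚ (IntermediateField.adjoin K {z}) := Module.Finite.trans K _
    exact ⟨⟩
  obtain ⟨σ, hσ⟩ := Pool.Agent.Y4.exists_aut_emb (E := IntermediateField.adjoin K {z})
    (algebraMap _ ℂ) (φ : IntermediateField.adjoin K {z} →+* ℂ)
  have h1 : ∀ x ∈ K, σ x = x := by
    intro x hx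
    have h3 := congrArg (fun q : IntermediateField.adjoin K {z} →+* ℂ =>
      q (algebraMap K _ ⟨x, hx⟩)) hσ
    have h4 : φ (algebraMap K _ ⟨x, hx⟩) = algebraMap K ℂ ⟨x, hx⟩ := φ.commutes _
    exact h3.trans h4
  have h5 : σ z = w := by
    have h3 := congrArg (fun q : IntermediateField.adjoin K {z} →+* ℂ =>
      q (IntermediateField.AdjoinSimple.gen K z)) hσ
    exact h3.trans hφ
  exact hwz (h5.symm.trans (hz σ h1))

theorem tw_trans {X : AV} (σ τ : ℂ ≃+* ℂ) (f : X.H →ₗ[ℚ] ℂ) :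
    tw (σ.trans τ) f = tw τ (tw σ f) := rfl

theorem IsD_tw {X : AV} {σ τ : ℂ ≃+* ℂ} {f f' : X.H →ₗ[ℚ] ℂ} (h : IsD X (σ.trans τ.symm) f f') :
    IsD X σ (tw τ f) (tw τ f') := by
  obtain ⟨a, b, h1, h2, h3, h4⟩ := h
  refine ⟨tw τ a, tw τ b, ?_, ?_, ?_, ?_⟩
  · rw [h1, GJ14.tw_add]
  · rw [h2, sub_eq_add_neg, sub_eq_add_neg, GJ14.tw_add]
    congr 1
    ext w
    rw [GJ14.tw_apply, LinearMap.neg_apply, LinearMap.neg_apply, GJ14.tw_apply, map_neg]
  · exact h3
  · exact h4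

end GD10

/-- **D10.** Lines over `K`. -/
theorem lineK_of : St_lineK := by
  classical
  intro X K hK F hF hR
  obtain ⟨P, hP, hPD⟩ := hR
  -- the space of solutions
  obtain ⟨V, hV⟩ : ∃ V : Submodule ℂ (X.H →ₗ[ℚ] ℂ), ∀ f, f ∈ V ↔
      ∀ σ, IsD X σ f ((F σ : ℂ) • f) := by
    refine ⟨{ carrier := {f | ∀ σ, IsD X σ f ((F σ : ℂ) • f)}
              add_mem' := ?_
              zero_mem' := ?_
              smul_mem' := ?_ }, fun f => Iff.rfl⟩
    · intro f g hf hg σ
      rw [smul_add]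
      exact GJ14.IsD_add (hf σ) (hg σ)
    · intro σ
      rw [smul_zero]
      exact GJ14.IsD_zero X σ
    · intro c f hf σ
      rw [smul_comm]
      exact GJ14.IsD_smul c (hf σ)
  have hV0 : ∃ f ∈ V, f ≠ 0 := by
    refine ⟨P 0, ?_, hP.ne_zero 0⟩
    rw [hV]
    intro σ
    have h := hPD σ 0
    rw [Fin.sum_univ_one] at h
    exact h
  have hVt : ∀ τ : ℂ ≃+* ℂ, (∀ z ∈ K, τ z = z) → ∀ f ∈ V, tw τ f ∈ V := by
    intro τ hτ f hf
    rw [hV] at hf ⊢
    intro σ
    have h1 : F (σ.trans τ.symm) = F σ := by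
      refine hF _ _ fun z hz => ?_
      show τ.symm (σ z) = σ z
      rw [RingEquiv.symm_apply_eq]
      exact (hτ _ (hK.st σ z hz)).symm
    have h2 := GD10.IsD_tw (hf (σ.trans τ.symm))
    rw [h1, GJ14.tw_smul, map_intCast] at h2
    exact h2
  -- minimal support
  obtain ⟨b⟩ : Nonempty (Basis (Fin (finrank ℚ X.H)) ℚ X.H) := ⟨finBasis ℚ X.H⟩
  obtain ⟨sup, hsup⟩ : ∃ sup : (X.H →ₗ[ℚ] ℂ) → Finset (Fin (finrank ℚ X.H)),
      ∀ f p, p ∈ sup f ↔ f (b p) ≠ 0 :=
    ⟨fun f => Finset.univ.filter fun p => f (b p) ≠ 0, fun f p => by simp⟩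
  have hex : ∃ k : ℕ, ∃ f ∈ V, f ≠ 0 ∧ (sup f).card = k := by
    obtain ⟨f, hf, hf0⟩ := hV0
    exact ⟨_, f, hf, hf0, rfl⟩
  obtain ⟨f, hf, hf0, hfc⟩ := Nat.find_spec hex
  have hmin : ∀ g ∈ V, (sup g).card < (sup f).card → g = 0 := by
    intro g hg hgc
    by_contra hg0
    rw [hfc] at hgc
    exact Nat.find_min hex hgc ⟨g, hg, hg0, rfl⟩
  obtain ⟨p, hp⟩ : ∃ p, f (b p) ≠ 0 := by
    by_contra hcon
    push Not at hcon
    exact hf0 (b.ext fun i => by rw [hcon i, LinearMap.zero_apply])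
  obtain ⟨g, hg⟩ : ∃ g, g = (f (b p))⁻¹ • f := ⟨_, rfl⟩
  have hgV : g ∈ V := by rw [hg]; exact V.smul_mem _ hf
  have hgp : g (b p) = 1 := by
    rw [hg, LinearMap.smul_apply, smul_eq_mul, inv_mul_cancel₀ hp]
  have hgs : ∀ q, f (b q) = 0 → g (b q) = 0 := by
    intro q hq
    rw [hg, LinearMap.smul_apply, hq, smul_zero]
  have hfix : ∀ τ : ℂ ≃+* ℂ, (∀ z ∈ K, τ z = z) → tw τ g = g := by
    intro τ hτ
    have h1 : tw τ g - g ∈ V := V.sub_mem (hVt τ hτ _ hgV) hgV
    have h2 : sup (tw τ g - g) ⊆ (sup f).erase p := by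
      intro q hq
      rw [hsup, LinearMap.sub_apply, GJ14.tw_apply] at hq
      rw [Finset.mem_erase, hsup]
      refine ⟨fun h3 => ?_, fun h3 => ?_⟩
      · apply hq
        rw [h3, hgp, map_one, sub_self]
      · apply hq
        rw [hgs q h3, map_zero, sub_self]
    have h3 : (sup (tw τ g - g)).card < (sup f).card :=
      lt_of_le_of_lt (Finset.card_le_card h2) (Finset.card_erase_lt_of_mem ((hsup f p).2 hp))
    exact sub_eq_zero.1 (hmin _ h1 h3)
  have hval : ∀ x, g x ∈ K := by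
    intro x
    refine GD10.fixed_mem hK.fin fun τ hτ => ?_
    have h := congrArg (fun q : X.H →ₗ[ℚ] ℂ => q x) (hfix τ hτ)
    exact h
  obtain ⟨F', hF'⟩ : ∃ F' : X.H →ₗ[ℚ] K, toC F' = g := by
    refine ⟨{ toFun := fun x => ⟨g x, hval x⟩
              map_add' := ?_
              map_smul' := ?_ }, ?_⟩
    · intro x y
      exact Subtype.ext (map_add g x y)
    · intro c x
      apply Subtype.ext
      show g (c • x) = ((c • (⟨g x, hval x⟩ : K) : K) : ℂ)
      rw [map_smul, Rat.smul_def, Rat.smul_def]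
      rfl
    · rfl
  refine ⟨F', ?_, ?_⟩
  · intro h
    have h1 : g (b p) = 0 := by
      rw [← hF', h]
      rfl
    rw [hgp] at h1
    exact one_ne_zero h1
  · rw [hF']
    exact (hV g).1 hgV

end

end Pool.Agent.NH32
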