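import Pool.Agent.NH32.GsB

/-!
# Project G, job G11: the Hodge operator in coordinates (helper90)
-/

set_option linter.unusedSectionVars false

namespace Pool.Agent.NH32

open Matrix Module Pool.Agent.W437.HC Pool.Agent.W437.HD Pool.Agent.TH504.CB Pool.Agent.Y90
open Pool.Agent.H204R3.CM (IsHodge)
open Pool.Agent.W548.Odd hiding cv

noncomputable section

namespace GJ11

variable {g : ℕ}

/-- the real extension of a functional -/
def fR (c : Fin g ⊕ Fin g → ℂ) : (Fin g ⊕ Fin g → ℝ) →ₗ[ℝ] ℂ where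
  toFun x := ∑ b, (x b : ℂ) * c b
  map_add' x y := by
    rw [← Finset.sum_add_distrib]
    refine Finset.sum_congr rfl fun b _ => ?_
    rw [Pi.add_apply, Complex.ofReal_add, add_mul]
  map_smul' r x := by
    rw [RingHom.id_apply, Complex.real_smul, Finset.mul_sum]
    refine Finset.sum_congr rfl fun b _ => ?_
    rw [Pi.smul_apply, smul_eq_mul, Complex.ofReal_mul, mul_assoc]

theorem fR_apply (c : Fin g ⊕ Fin g → ℂ) (x : Fin g ⊕ Fin g → ℝ) :
    fR c x = ∑ b, (x b : ℂ) * c b := rfl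

theorem fR_single (c : Fin g ⊕ Fin g → ℂ) (b : Fin g ⊕ Fin g) :
    fR c (Pi.single b 1) = c b := by
  rw [fR_apply, Finset.sum_eq_single b]
  · rw [Pi.single_eq_same, Complex.ofReal_one, one_mul]
  · intro b' _ h
    rw [Pi.single_eq_of_ne h, Complex.ofReal_zero, zero_mul]
  · intro h
    exact absurd (Finset.mem_univ b) h

variable {X : AV} (e : X.H ≃ₗ[ℚ] (Fin g ⊕ Fin g → ℚ))

theorem fR_cast (f : X.H →ₗ[ℚ] ℂ) (w : Fin g ⊕ Fin g → ℚ) :
    fR (cof e f) (fun i => ((w i : ℚ) : ℝ)) = f (e.symm w) := by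
  have h : w = ∑ b, w b • (Pi.single b (1:ℚ) : Fin g ⊕ Fin g → ℚ) := by
    funext i
    rw [Finset.sum_apply, Finset.sum_eq_single i]
    · simp
    · intro b _ hb
      rw [Pi.smul_apply, Pi.single_eq_of_ne (Ne.symm hb), smul_zero]
    · intro h
      exact absurd (Finset.mem_univ i) h
  rw [fR_apply]
  conv_rhs => rw [h]
  rw [map_sum, map_sum]
  refine Finset.sum_congr rfl fun b _ => ?_
  rw [map_smul, map_smul]
  unfold cof
  rw [Rat.smul_def]
  push_cast
  rfl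

theorem mulVec_single' (J : Matrix (Fin g ⊕ Fin g) (Fin g ⊕ Fin g) ℝ) (c : Fin g ⊕ Fin g → ℂ)
    (b : Fin g ⊕ Fin g) :
    fR c (J *ᵥ Pi.single b 1) = ((J.map (fun x : ℝ => (x : ℂ)))ᵀ *ᵥ c) b := by
  rw [fR_apply]
  refine Finset.sum_congr rfl fun i _ => ?_
  change ((∑ j, J i j * (Pi.single b (1:ℝ) : Fin g ⊕ Fin g → ℝ) j : ℝ) : ℂ) * c i =
    ((J i b : ℝ) : ℂ) * c i
  congr 2
  rw [Finset.sum_eq_single b]
  · rw [Pi.single_eq_same, mul_one]
  · intro b' _ h
    rw [Pi.single_eq_of_ne h, mul_zero]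
  · intro h
    exact absurd (Finset.mem_univ b) h

/-- eigenvectors of `D` and of `J` -/
theorem eig_iff (Z : Matrix (Fin g) (Fin g) ℂ) (c : Fin g ⊕ Fin g → ℂ) :
    (DZ Z)ᵀ *ᵥ c = c ↔ ∀ x, fR c (JR Z *ᵥ x) = Complex.I * fR c x := by
  have hD : (DZ Z)ᵀ *ᵥ c = (-Complex.I) • (((JR Z).map (fun x : ℝ => (x : ℂ)))ᵀ *ᵥ c) := by
    unfold DZ
    rw [Matrix.transpose_smul, Matrix.smul_mulVec]
  constructor
  · intro h
    have h1 : (fR c).comp (Matrix.mulVecLin (JR Z)) =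
        (Complex.I • fR c : (Fin g ⊕ Fin g → ℝ) →ₗ[ℝ] ℂ) := by
      refine LinearMap.pi_ext' fun b => LinearMap.ext_ring ?_
      change fR c (JR Z *ᵥ Pi.single b 1) = Complex.I * fR c (Pi.single b 1)
      rw [mulVec_single', fR_single]
      have h2 := congrFun (hD.symm.trans h) b
      rw [Pi.smul_apply, smul_eq_mul] at h2
      rw [← h2, ← mul_assoc, mul_neg, Complex.I_mul_I, neg_neg, one_mul]
    intro x
    exact LinearMap.congr_fun h1 x
  · intro h
    rw [hD]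
    funext b
    have h1 := h (Pi.single b 1)
    rw [mulVec_single', fR_single] at h1
    rw [Pi.smul_apply, h1, smul_eq_mul, ← mul_assoc, neg_mul, Complex.I_mul_I, neg_neg, one_mul]

theorem H10_iff (Z : Matrix (Fin g) (Fin g) ℂ)
    (hc : Cht (X.per.comp e.symm.toLinearMap.toAddMonoidHom) (JR Z)) (f : X.H →ₗ[ℚ] ℂ) :
    H10 X f ↔ (DZ Z)ᵀ *ᵥ cof e f = cof e f := by
  obtain ⟨P, I, hP1, hP2, hI1, hI2⟩ := hc.ex
  have hP1' : ∀ w : Fin g ⊕ Fin g → ℚ, P (fun i => ((w i : ℚ) : ℝ)) = X.per (e.symm w) := hP1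
  rw [eig_iff]
  constructor
  · rintro ⟨l, hl⟩
    have h1 : fR (cof e f) = (l.restrictScalars ℝ).comp P := by
      refine LinearMap.pi_ext' fun b => LinearMap.ext_ring ?_
      change fR (cof e f) (Pi.single b 1) = l (P (Pi.single b 1))
      rw [← single_castR, fR_cast, hP1', hl]
    intro x
    rw [h1]
    change l (P (JR Z *ᵥ x)) = Complex.I * l (P x)
    rw [hP2, map_smul, smul_eq_mul]
  · intro h
    have hIJ : ∀ t, I (Complex.I • t) = JR Z *ᵥ I t := by
      intro t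
      rw [← hI1 (JR Z *ᵥ I t), hP2, hI2]
    refine ⟨{ toFun := fun t => fR (cof e f) (I t), map_add' := ?_, map_smul' := ?_ }, ?_⟩
    · intro s t
      rw [map_add, map_add]
    · intro z t
      rw [RingHom.id_apply]
      have h1 : z • t = z.re • t + z.im • (Complex.I • t) := by
        rw [smul_rot, Complex.re_add_im]
      rw [h1, map_add, map_smul, map_smul, hIJ, map_add, map_smul, map_smul, h, smul_eq_mul,
        Complex.real_smul, Complex.real_smul]
      conv_rhs => rw [← Complex.re_add_im z]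
      ring
    · intro w
      change f w = fR (cof e f) (I (X.per w))
      have h1 : X.per w = P (fun i => ((e w i : ℚ) : ℝ)) := by
        rw [hP1', LinearEquiv.symm_apply_apply]
      rw [h1, hI1, fR_cast, LinearEquiv.symm_apply_apply]

theorem cof_tw (σ : ℂ ≃+* ℂ) (f : X.H →ₗ[ℚ] ℂ) : cof e (tw σ f) = fun b => σ (cof e f b) := rfl

theorem H10_cj_iff (Z : Matrix (Fin g) (Fin g) ℂ)
    (hc : Cht (X.per.comp e.symm.toLinearMap.toAddMonoidHom) (JR Z)) (f : X.H →ₗ[ℚ] ℂ) :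
    H10 X (tw cj f) ↔ (DZ Z)ᵀ *ᵥ cof e f = -cof e f := by
  rw [H10_iff e Z hc, cof_tw]
  have h1 : ∀ c : Fin g ⊕ Fin g → ℂ,
      (fun b => cj (((DZ Z)ᵀ *ᵥ c) b)) = -((DZ Z)ᵀ *ᵥ fun b => cj (c b)) := by
    intro c
    funext b
    unfold Matrix.mulVec dotProduct
    rw [map_sum, Pi.neg_apply, ← Finset.sum_neg_distrib]
    refine Finset.sum_congr rfl fun i _ => ?_
    rw [map_mul, ← neg_mul]
    congr 1
    change (starRingEnd ℂ) (-Complex.I * ((JR Z i b : ℝ) : ℂ)) = -(-Complex.I * ((JR Z i b : ℝ) : ℂ))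
    rw [map_mul, map_neg, Complex.conj_I, Complex.conj_ofReal]
    ring
  constructor
  · intro h
    have h2 := congrArg (fun c : Fin g ⊕ Fin g → ℂ => fun b => cj (c b)) h
    change (fun b => cj (((DZ Z)ᵀ *ᵥ fun b => cj (cof e f b)) b)) =
      (fun b => cj (cj (cof e f b))) at h2
    rw [h1] at h2
    have h3 : (fun b => cj (cj (cof e f b))) = cof e f := by
      funext b
      exact Complex.conj_conj _
    rw [h3] at h2
    rw [← neg_eq_iff_eq_neg]
    exact h2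
  · intro h
    have h2 := h1 (cof e f)
    rw [h] at h2
    rw [← neg_inj, ← h2]
    funext b
    exact map_neg cj _

theorem map_mulVec_symm (Z : Matrix (Fin g) (Fin g) ℂ) (σ : ℂ ≃+* ℂ) (c d : Fin g ⊕ Fin g → ℂ) :
    ((DZ Z)ᵀ *ᵥ fun b => σ.symm (c b)) = (fun b => σ.symm (d b)) ↔ (DS Z σ)ᵀ *ᵥ c = d := by
  have h1 : ∀ b, σ (((DZ Z)ᵀ *ᵥ fun b => σ.symm (c b)) b) = ((DS Z σ)ᵀ *ᵥ c) b := by
    intro b
    unfold Matrix.mulVec dotProduct
    rw [map_sum]
    refine Finset.sum_congr rfl fun i _ => ?_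
    rw [map_mul, RingEquiv.apply_symm_apply]
    rfl
  constructor
  · intro h
    funext b
    rw [← h1, h, RingEquiv.apply_symm_apply]
  · intro h
    funext b
    apply σ.injective
    rw [h1, h, RingEquiv.apply_symm_apply]

end GJ11

open GJ11 in
/-- **G11.** -/
theorem coo_of : St_coo := by
  intro g Z X e h hc σ f f'
  have hA : ∀ a : X.H →ₗ[ℚ] ℂ, H10 X (tw σ.symm a) ↔ (DS Z σ)ᵀ *ᵥ cof e a = cof e a := by
    intro a
    rw [H10_iff e Z hc, cof_tw]
    exact map_mulVec_symm Z σ (cof e a) (cof e a)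
  have hB : ∀ b : X.H →ₗ[ℚ] ℂ, H10 X (tw cj (tw σ.symm b)) ↔
      (DS Z σ)ᵀ *ᵥ cof e b = -cof e b := by
    intro b
    rw [H10_cj_iff e Z hc, cof_tw]
    have h1 : -(fun i => σ.symm (cof e b i)) = fun i => σ.symm ((-cof e b) i) := by
      funext i
      exact (map_neg σ.symm _).symm
    rw [h1]
    exact map_mulVec_symm Z σ (cof e b) (-cof e b)
  have hadd : ∀ a b : X.H →ₗ[ℚ] ℂ, cof e (a + b) = cof e a + cof e b := fun _ _ => rfl
  have hsub : ∀ a b : X.H →ₗ[ℚ] ℂ, cof e (a - b) = cof e a - cof e b := fun _ _ => rfl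
  have hsm : ∀ (r : ℚ) (a : X.H →ₗ[ℚ] ℂ), cof e (r • a) = r • cof e a := fun _ _ => rfl
  have hsq : (DS Z σ)ᵀ * (DS Z σ)ᵀ = 1 := by
    rw [← Matrix.transpose_mul, DS_sq h.det, Matrix.transpose_one]
  constructor
  · rintro ⟨a, b, hf, hf', ha, hb⟩
    rw [hA] at ha
    rw [hB] at hb
    rw [hf, hf', hadd, hsub, Matrix.mulVec_add, ha, hb, sub_eq_add_neg]
  · intro hcf
    have hcf' : (DS Z σ)ᵀ *ᵥ cof e f' = cof e f := by
      rw [hcf, Matrix.mulVec_mulVec, hsq, Matrix.one_mulVec]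
    refine ⟨(1/2 : ℚ) • (f + f'), (1/2 : ℚ) • (f - f'), ?_, ?_, ?_, ?_⟩
    · rw [← smul_add, show f + f' + (f - f') = (2:ℚ) • f by rw [two_smul]; abel, smul_smul]
      norm_num
    · rw [← smul_sub, show f + f' - (f - f') = (2:ℚ) • f' by rw [two_smul]; abel, smul_smul]
      norm_num
    · rw [hA, hsm, hadd, Matrix.mulVec_smul, Matrix.mulVec_add, ← hcf, hcf', add_comm]
    · rw [hB, hsm, hsub, Matrix.mulVec_smul, Matrix.mulVec_sub, ← hcf, hcf', ← smul_neg, neg_sub]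

end

end Pool.Agent.NH32
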