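import Mathlib
import Pool.Agent.NH32.GsB

/-!
# Project G, job G17 (helper87): minimal idempotents and modules
-/

set_option linter.unusedSectionVars false

namespace Pool.Agent.NH32

open Matrix Module Pool.Agent.W437.HC Pool.Agent.Y90
open Pool.Agent.W548.Odd hiding cv

noncomputable section

namespace GJ17

/-! ### Generation -/

section gen

variable {g : ℕ} {Z : Matrix (Fin g) (Fin g) ℂ} {y yi : Matrix (Fin g ⊕ Fin g) (Fin g ⊕ Fin g) ℝ}

theorem Dy_mem (hy : YD Z y yi) (σ : ℂ ≃+* ℂ) : Dy Z y yi σ ∈ Ly Z y yi :=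
  hy.mem_of _ (DS_mem σ)

/-- The Lie algebra is generated by the conjugates of the Hodge operator. -/
theorem Ly_le (hy : YD Z y yi) (M : Submodule ℂ (Matrix (Fin g ⊕ Fin g) (Fin g ⊕ Fin g) ℂ))
    (hM1 : ∀ σ, Dy Z y yi σ ∈ M) (hM2 : ∀ X ∈ M, ∀ Y ∈ M, X * Y - Y * X ∈ M) :
    Ly Z y yi ≤ M := by
  intro N hN
  rw [mem_Ly] at hN
  let f : Matrix (Fin g ⊕ Fin g) (Fin g ⊕ Fin g) ℂ →ₗ[ℂ]
      Matrix (Fin g ⊕ Fin g) (Fin g ⊕ Fin g) ℂ :=
    { toFun := fun X => (cm y * X * cm yi)ᵀ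
      map_add' := fun a b => by rw [mul_add, add_mul, transpose_add]
      map_smul' := fun c a => by
        rw [Matrix.mul_smul, Matrix.smul_mul, transpose_smul]
        rfl }
  have hf : ∀ X, f X = (cm y * X * cm yi)ᵀ := fun _ => rfl
  have h1 : LZ Z ≤ M.comap f := by
    refine LZ_le (fun σ => hM1 σ) (fun X hX Y hY => ?_)
    change f (X * Y - Y * X) ∈ M
    have h2 := hM2 _ hY _ hX
    have e1 : f (X * Y - Y * X) = f Y * f X - f X * f Y := by
      rw [hf, hf, hf, ← transpose_mul, ← transpose_mul, ← transpose_sub]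
      congr 1
      have e2 : ∀ P Q : Matrix (Fin g ⊕ Fin g) (Fin g ⊕ Fin g) ℂ,
          cm y * P * cm yi * (cm y * Q * cm yi) = cm y * (P * Q) * cm yi := by
        intro P Q
        calc cm y * P * cm yi * (cm y * Q * cm yi)
            = cm y * P * (cm yi * cm y) * Q * cm yi := by noncomm_ring
          _ = _ := by rw [hy.cl]; noncomm_ring
      rw [e2, e2]
      noncomm_ring
    rw [e1]
    exact h2
  have h2 := h1 hN
  change f _ ∈ M at h2
  have h3 : f (cm yi * Nᵀ * cm y) = N := by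
    rw [hf]
    have e1 : cm y * (cm yi * Nᵀ * cm y) * cm yi = (cm y * cm yi) * Nᵀ * (cm y * cm yi) := by
      noncomm_ring
    rw [e1, hy.cr, one_mul, mul_one, transpose_transpose]
  rwa [h3] at h2

end gen

/-! ### Projections onto stable subspaces -/

section mat

variable {B : Type} [Fintype B] [DecidableEq B]

/-- The matrices which preserve a subspace. -/
def St (E : Submodule ℂ (B → ℂ)) : Submodule ℂ (Matrix B B ℂ) where
  carrier := {X | ∀ x ∈ E, X *ᵥ x ∈ E}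
  add_mem' := by
    intro a b ha hb x hx
    rw [add_mulVec]
    exact E.add_mem (ha x hx) (hb x hx)
  zero_mem' := by
    intro x _
    rw [zero_mulVec]
    exact E.zero_mem
  smul_mem' := by
    intro c a ha x hx
    rw [smul_mulVec]
    exact E.smul_mem _ (ha x hx)

theorem mem_St {E : Submodule ℂ (B → ℂ)} {X : Matrix B B ℂ} : X ∈ St E ↔ ∀ x ∈ E, X *ᵥ x ∈ E :=
  Iff.rfl

theorem St_br {E : Submodule ℂ (B → ℂ)} {X Y : Matrix B B ℂ} (hX : X ∈ St E) (hY : Y ∈ St E) :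
    X * Y - Y * X ∈ St E := by
  intro x hx
  rw [sub_mulVec, ← mulVec_mulVec, ← mulVec_mulVec]
  exact E.sub_mem (hX _ (hY _ hx)) (hY _ (hX _ hx))

theorem ext_mulVec {C : Type} [Fintype C] [DecidableEq C] {M N : Matrix B C ℂ}
    (h : ∀ x, M *ᵥ x = N *ᵥ x) : M = N :=
  Matrix.toLin'.injective (LinearMap.ext fun x => by
    rw [Matrix.toLin'_apply, Matrix.toLin'_apply]; exact h x)

/-- The orthogonal projection onto a stable subspace is in the commutant. -/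
theorem proj_comm {L : Submodule ℂ (Matrix B B ℂ)} (hadj : ∀ X ∈ L, Xᴴ ∈ L)
    {E : Submodule ℂ (B → ℂ)} (hE : L ≤ St E) {q : Matrix B B ℂ} (hq : qᴴ = q)
    (hq1 : ∀ x, q *ᵥ x ∈ E) (hq2 : ∀ x ∈ E, q *ᵥ x = x) : q ∈ CM L := by
  have h1 : ∀ X ∈ L, X * q = q * X * q := by
    intro X hX
    refine ext_mulVec fun x => ?_
    rw [← mulVec_mulVec, ← mulVec_mulVec, ← mulVec_mulVec]
    exact (hq2 _ (hE hX _ (hq1 x))).symm
  intro X hX
  have h2 := h1 _ (hadj X hX)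
  have h3 := congrArg conjTranspose h2
  rw [conjTranspose_mul, conjTranspose_mul, conjTranspose_mul, conjTranspose_conjTranspose, hq] at h3
  calc X * q = q * X * q := h1 X hX
    _ = q * (X * q) := mul_assoc _ _ _
    _ = q * X := h3.symm

variable {D : (ℂ ≃+* ℂ) → Matrix B B ℂ} {L : Submodule ℂ (Matrix B B ℂ)}

/-- From a minimal idempotent to an irreducible module. -/
theorem ir_of_mi (hD : ∀ σ, D σ ∈ L) (hadj : ∀ X ∈ L, Xᴴ ∈ L)
    (hgen : ∀ M : Submodule ℂ (Matrix B B ℂ), (∀ σ, D σ ∈ M) →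
      (∀ X ∈ M, ∀ Y ∈ M, X * Y - Y * X ∈ M) → L ≤ M) {ε : Matrix B B ℂ} (hε : Mi L ε) {d : ℕ}
    {P : Matrix B (Fin d) ℂ} {Q : Matrix (Fin d) B ℂ} (hPQ : P * Q = ε) (hQP : Q * P = 1) :
    IrD (fun σ => Q * D σ * P) ∧ ∀ σ, D σ * P = P * (Q * D σ * P) := by
  obtain ⟨hc, hi, hh, h0, hm⟩ := hε
  have hεP : ε * P = P := by rw [← hPQ, Matrix.mul_assoc, hQP, Matrix.mul_one]
  have hDP : ∀ σ, D σ * P = P * (Q * D σ * P) := by
    intro σ
    calc D σ * P = D σ * ε * P := by rw [Matrix.mul_assoc, hεP]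
      _ = ε * D σ * P := by rw [hc _ (hD σ)]
      _ = P * (Q * D σ * P) := by rw [← hPQ]; simp only [Matrix.mul_assoc]
  refine ⟨⟨?_, ?_⟩, hDP⟩
  · rcases Nat.eq_zero_or_pos d with h | h
    · exfalso
      apply h0
      subst h
      rw [← hPQ]
      ext i j
      simp [Matrix.mul_apply]
    · exact h
  · intro W hW
    obtain ⟨q, hq, hq1, hq2⟩ := exists_proj (W.map P.mulVecLin)
    have hE : L ≤ St (W.map P.mulVecLin) := by
      refine hgen _ (fun σ => ?_) (fun X hX Y hY => St_br hX hY)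
      rintro _ ⟨w, hw, rfl⟩
      refine ⟨(Q * D σ * P) *ᵥ w, hW σ w hw, ?_⟩
      rw [Matrix.mulVecLin_apply, Matrix.mulVecLin_apply, mulVec_mulVec, mulVec_mulVec, ← hDP σ]
    have hqc := proj_comm hadj hE hq hq1 hq2
    have hεq : ε * q = q := by
      refine ext_mulVec fun x => ?_
      rw [← mulVec_mulVec]
      obtain ⟨w, _, hw⟩ := hq1 x
      rw [← hw, Matrix.mulVecLin_apply, mulVec_mulVec, hεP]
    have hqε : q * ε = q := by
      have h1 := congrArg conjTranspose hεq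
      rwa [conjTranspose_mul, hq, hh] at h1
    obtain ⟨c, hcc⟩ := hm q hqc
    rw [hεq, hqε] at hcc
    by_cases hc0 : c = 0
    · left
      rw [hc0, zero_smul] at hcc
      rw [Submodule.eq_bot_iff]
      intro w hw
      have h1 := hq2 (P *ᵥ w) ⟨w, hw, rfl⟩
      rw [hcc, zero_mulVec] at h1
      have h2 : (Q * P) *ᵥ w = 0 := by rw [← mulVec_mulVec, ← h1, mulVec_zero]
      rwa [hQP, one_mulVec] at h2
    · right
      rw [Submodule.eq_top_iff']
      intro w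
      have h1 : P *ᵥ w = q *ᵥ (c⁻¹ • (P *ᵥ w)) := by
        rw [hcc, smul_mulVec, mulVec_smul, smul_smul, mul_inv_cancel₀ hc0, one_smul,
          mulVec_mulVec, hεP]
      have h2 := hq1 (c⁻¹ • (P *ᵥ w))
      rw [← h1] at h2
      obtain ⟨w', hw', hw''⟩ := h2
      rw [Matrix.mulVecLin_apply] at hw''
      have h3 : (Q * P) *ᵥ w' = (Q * P) *ᵥ w := by
        rw [← mulVec_mulVec, ← mulVec_mulVec, hw'']
      rw [hQP, one_mulVec, one_mulVec] at h3
      rwa [← h3]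

/-- From an irreducible module to a minimal idempotent. -/
theorem mi_of_ir (hD : ∀ σ, D σ ∈ L) (hadj : ∀ X ∈ L, Xᴴ ∈ L)
    (hgen : ∀ M : Submodule ℂ (Matrix B B ℂ), (∀ σ, D σ ∈ M) →
      (∀ X ∈ M, ∀ Y ∈ M, X * Y - Y * X ∈ M) → L ≤ M) {d : ℕ}
    {Δ : (ℂ ≃+* ℂ) → Matrix (Fin d) (Fin d) ℂ} (hΔ : IrD Δ) {P : Matrix B (Fin d) ℂ}
    {Q0 : Matrix (Fin d) B ℂ} (hQP0 : Q0 * P = 1) (hDP : ∀ σ, D σ * P = P * Δ σ) :
    ∃ Q : Matrix (Fin d) B ℂ, Mi L (P * Q) ∧ Q * P = 1 ∧ ∀ σ, Q * D σ * P = Δ σ := by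
  obtain ⟨q, hq, hq1, hq2⟩ := exists_proj (LinearMap.range P.mulVecLin)
  have hE : L ≤ St (LinearMap.range P.mulVecLin) := by
    refine hgen _ (fun σ => ?_) (fun X hX Y hY => St_br hX hY)
    rintro _ ⟨w, rfl⟩
    refine ⟨Δ σ *ᵥ w, ?_⟩
    rw [Matrix.mulVecLin_apply, Matrix.mulVecLin_apply, mulVec_mulVec, mulVec_mulVec, ← hDP σ]
  have hqc := proj_comm hadj hE hq hq1 hq2
  have hqP : q * P = P := by
    refine ext_mulVec fun x => ?_
    rw [← mulVec_mulVec]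
    exact hq2 _ ⟨x, rfl⟩
  have hqq : q * q = q := by
    refine ext_mulVec fun x => ?_
    rw [← mulVec_mulVec]
    exact hq2 _ (hq1 x)
  have hQP : Q0 * q * P = 1 := by rw [Matrix.mul_assoc, hqP, hQP0]
  have hPQ : P * (Q0 * q) = q := by
    refine ext_mulVec fun x => ?_
    obtain ⟨w, hw⟩ := hq1 x
    rw [Matrix.mulVecLin_apply] at hw
    rw [← mulVec_mulVec, ← mulVec_mulVec, ← hw, mulVec_mulVec _ Q0 P, hQP0, one_mulVec]
  have hQD : ∀ σ, Q0 * q * D σ * P = Δ σ := by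
    intro σ
    rw [Matrix.mul_assoc _ (D σ) P, hDP σ, ← Matrix.mul_assoc, hQP, Matrix.one_mul]
  refine ⟨Q0 * q, ⟨?_, ?_, ?_, ?_, ?_⟩, hQP, hQD⟩
  · rw [hPQ]; exact hqc
  · rw [hPQ]; exact hqq
  · rw [hPQ]; exact hq
  · rw [hPQ]
    intro h
    have h1 : (0 : Matrix (Fin d) (Fin d) ℂ) = 1 := by
      rw [← hQP, h, Matrix.mul_zero, Matrix.zero_mul]
    have h2 := congrFun (congrFun h1 ⟨0, hΔ.1⟩) ⟨0, hΔ.1⟩
    rw [Matrix.zero_apply, Matrix.one_apply_eq] at h2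
    exact zero_ne_one h2
  · intro M hM
    obtain ⟨N, hN⟩ : ∃ N, N = Q0 * q * M * P := ⟨_, rfl⟩
    have hNΔ : ∀ σ, N * Δ σ = Δ σ * N := by
      intro σ
      have e1 : N * Δ σ = Q0 * q * D σ * M * P := by
        calc N * Δ σ = Q0 * q * M * (P * Δ σ) := by rw [hN]; simp only [Matrix.mul_assoc]
          _ = Q0 * q * (M * D σ) * P := by rw [← hDP σ]; simp only [Matrix.mul_assoc]
          _ = Q0 * q * D σ * M * P := by rw [← hM _ (hD σ)]; simp only [Matrix.mul_assoc]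
      have e2 : Δ σ * N = Q0 * q * D σ * M * P := by
        calc Δ σ * N = Q0 * q * D σ * (P * (Q0 * q)) * M * P := by
              rw [hN]
              conv_lhs => rw [← hQD σ]
              simp only [Matrix.mul_assoc]
          _ = Q0 * q * (D σ * q) * M * P := by rw [hPQ]; simp only [Matrix.mul_assoc]
          _ = Q0 * (q * q) * D σ * M * P := by rw [hqc _ (hD σ)]; simp only [Matrix.mul_assoc]
          _ = _ := by rw [hqq]
      rw [e1, e2]
    have : Nonempty (Fin d) := ⟨⟨0, hΔ.1⟩⟩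
    have : Nontrivial (Fin d → ℂ) := inferInstance
    obtain ⟨μ, hμ⟩ := Module.End.exists_eigenvalue (Matrix.toLin' N)
    obtain ⟨v, hv⟩ := hμ.exists_hasEigenvector
    have hv1 : N *ᵥ v = μ • v := by
      have := hv.apply_eq_smul
      rwa [Matrix.toLin'_apply] at this
    have hW := hΔ.2 (LinearMap.ker (Matrix.toLin' N - μ • LinearMap.id)) (fun σ w hw => by
      rw [LinearMap.mem_ker, LinearMap.sub_apply, LinearMap.smul_apply, LinearMap.id_apply,
        Matrix.toLin'_apply, sub_eq_zero] at hw ⊢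
      rw [mulVec_mulVec, hNΔ, ← mulVec_mulVec, hw, mulVec_smul])
    have hNμ : N = μ • 1 := by
      refine ext_mulVec fun w => ?_
      rcases hW with hW | hW
      · exfalso
        apply hv.2
        have h1 : v ∈ LinearMap.ker (Matrix.toLin' N - μ • LinearMap.id) := by
          rw [LinearMap.mem_ker, LinearMap.sub_apply, LinearMap.smul_apply, LinearMap.id_apply,
            Matrix.toLin'_apply, hv1, sub_self]
        rw [hW, Submodule.mem_bot] at h1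
        exact h1
      · have h1 : w ∈ LinearMap.ker (Matrix.toLin' N - μ • LinearMap.id) := by
          rw [hW]; exact Submodule.mem_top
        rw [LinearMap.mem_ker, LinearMap.sub_apply, LinearMap.smul_apply, LinearMap.id_apply,
          Matrix.toLin'_apply, sub_eq_zero] at h1
        rw [h1, smul_mulVec, one_mulVec]
    refine ⟨μ, ?_⟩
    calc P * (Q0 * q) * M * (P * (Q0 * q)) = P * N * (Q0 * q) := by
          rw [hN]; simp only [Matrix.mul_assoc]
      _ = μ • (P * (Q0 * q)) := by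
          rw [hNμ, Matrix.mul_smul, Matrix.mul_one, Matrix.smul_mul]

end mat

/-! ### Coordinates -/

section coo

variable {g : ℕ} {X : AV} (e : X.H ≃ₗ[ℚ] (Fin g ⊕ Fin g → ℚ))

/-- The functional with given coordinates. -/
def fn (u : Fin g ⊕ Fin g → ℂ) : X.H →ₗ[ℚ] ℂ where
  toFun h := ∑ b, (e h b) • u b
  map_add' h h' := by
    rw [← Finset.sum_add_distrib]
    refine Finset.sum_congr rfl fun b _ => ?_
    rw [map_add, Pi.add_apply, add_smul]
  map_smul' c h := by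
    rw [Finset.smul_sum]
    refine Finset.sum_congr rfl fun b _ => ?_
    rw [map_smul, Pi.smul_apply, smul_eq_mul, mul_smul, RingHom.id_apply]

theorem cof_fn (u : Fin g ⊕ Fin g → ℂ) : cof e (fn e u) = u := by
  funext b
  change ∑ b', (e (e.symm (Pi.single b 1)) b') • u b' = u b
  rw [LinearEquiv.apply_symm_apply, Finset.sum_eq_single b]
  · rw [Pi.single_eq_same, one_smul]
  · intro b' _ hb
    rw [Pi.single_eq_of_ne hb, zero_smul]
  · intro h
    exact absurd (Finset.mem_univ b) h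

theorem fn_cof (f : X.H →ₗ[ℚ] ℂ) : fn e (cof e f) = f := by
  refine LinearMap.ext fun h => ?_
  change ∑ b, (e h b) • f (e.symm (Pi.single b 1)) = f h
  have h1 : h = ∑ b, (e h b) • e.symm (Pi.single b 1) := by
    apply e.injective
    rw [map_sum]
    funext b
    rw [Finset.sum_apply, Finset.sum_eq_single b]
    · rw [map_smul, LinearEquiv.apply_symm_apply, Pi.smul_apply, Pi.single_eq_same, smul_eq_mul,
        mul_one]
    · intro b' _ hb
      rw [map_smul, LinearEquiv.apply_symm_apply, Pi.smul_apply, Pi.single_eq_of_ne hb.symm,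
        smul_zero]
    · intro h
      exact absurd (Finset.mem_univ b) h
  conv_rhs => rw [h1, map_sum]
  refine Finset.sum_congr rfl fun b _ => ?_
  rw [map_smul]

/-- The coordinates, as a linear equivalence. -/
def ce : (X.H →ₗ[ℚ] ℂ) ≃ₗ[ℂ] (Fin g ⊕ Fin g → ℂ) where
  toFun f := cof e f
  invFun u := fn e u
  map_add' _ _ := rfl
  map_smul' _ _ := rfl
  left_inv f := fn_cof e f
  right_inv u := cof_fn e u

theorem ce_apply (f : X.H →ₗ[ℚ] ℂ) : ce e f = cof e f := rfl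

variable {Z : Matrix (Fin g) (Fin g) ℂ} {y yi : Matrix (Fin g ⊕ Fin g) (Fin g ⊕ Fin g) ℝ}

theorem Dy_mul (hy : YD Z y yi) (σ : ℂ ≃+* ℂ) :
    Dy Z y yi σ * (cm yi)ᵀ = (cm yi)ᵀ * (DS Z σ)ᵀ := by
  unfold Dy
  rw [transpose_mul, transpose_mul]
  calc (cm yi)ᵀ * ((DS Z σ)ᵀ * (cm y)ᵀ) * (cm yi)ᵀ
      = (cm yi)ᵀ * (DS Z σ)ᵀ * ((cm y)ᵀ * (cm yi)ᵀ) := by noncomm_ring
    _ = _ := by rw [hy.clT, mul_one]

theorem isD_iff (h : St_coo) (hZ : PM Z)
    (hC : Cht (X.per.comp e.symm.toLinearMap.toAddMonoidHom) (JR Z)) (hy : YD Z y yi)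
    (σ : ℂ ≃+* ℂ) (f f' : X.H →ₗ[ℚ] ℂ) : IsD X σ f f' ↔
      (cm yi)ᵀ *ᵥ cof e f' = Dy Z y yi σ *ᵥ ((cm yi)ᵀ *ᵥ cof e f) := by
  rw [h g Z X e hZ hC σ f f', mulVec_mulVec, Dy_mul hy, ← mulVec_mulVec]
  constructor
  · intro h1
    rw [h1]
  · intro h1
    have h2 := congrArg (fun v => (cm y)ᵀ *ᵥ v) h1
    beta_reduce at h2
    rwa [mulVec_mulVec, mulVec_mulVec, hy.clT, one_mulVec, one_mulVec] at h2

/-- The matrix of the coordinates of functionals. -/
def pm (yi : Matrix (Fin g ⊕ Fin g) (Fin g ⊕ Fin g) ℝ) {d : ℕ} (P : Fin d → (X.H →ₗ[ℚ] ℂ)) :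
    Matrix (Fin g ⊕ Fin g) (Fin d) ℂ := of fun b j => ((cm yi)ᵀ *ᵥ cof e (P j)) b

theorem pm_mulVec {d : ℕ} (P : Fin d → (X.H →ₗ[ℚ] ℂ)) (w : Fin d → ℂ) :
    pm e yi P *ᵥ w = (cm yi)ᵀ *ᵥ cof e (∑ j, w j • P j) := by
  have h1 : cof e (∑ j, w j • P j) = ∑ j, w j • cof e (P j) := by
    rw [← ce_apply, map_sum]
    refine Finset.sum_congr rfl fun j _ => ?_
    rw [map_smul, ce_apply]
  rw [h1, mulVec_sum]
  funext b
  rw [Finset.sum_apply]
  change ∑ j, ((cm yi)ᵀ *ᵥ cof e (P j)) b * w j = _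
  refine Finset.sum_congr rfl fun j _ => ?_
  rw [mulVec_smul, Pi.smul_apply, smul_eq_mul, mul_comm]

/-- Realizations and intertwining matrices. -/
theorem pm_iff (h : St_coo) (hZ : PM Z)
    (hC : Cht (X.per.comp e.symm.toLinearMap.toAddMonoidHom) (JR Z)) (hy : YD Z y yi) {d : ℕ}
    (P : Fin d → (X.H →ₗ[ℚ] ℂ)) (σ : ℂ ≃+* ℂ) (Δ : Matrix (Fin d) (Fin d) ℂ) :
    (∀ j, IsD X σ (P j) (∑ i, Δ i j • P i)) ↔ Dy Z y yi σ * pm e yi P = pm e yi P * Δ := by
  have h1 : ∀ j, (∑ i, Δ i j • P i) = ∑ i, (fun i => Δ i j) i • P i := fun j => rfl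
  have h2 : ∀ j, IsD X σ (P j) (∑ i, Δ i j • P i) ↔
      (fun b => (pm e yi P * Δ) b j) = (fun b => (Dy Z y yi σ * pm e yi P) b j) := by
    intro j
    rw [isD_iff e h hZ hC hy, h1, ← pm_mulVec]
    rfl
  constructor
  · intro h3
    ext b j
    exact (congrFun ((h2 j).1 (h3 j)) b).symm
  · intro h3 j
    rw [h2, h3]

theorem pm_li (hy : YD Z y yi) {d : ℕ} (P : Fin d → (X.H →ₗ[ℚ] ℂ)) (hP : LinearIndependent ℂ P) :
    ∃ Q0 : Matrix (Fin d) (Fin g ⊕ Fin g) ℂ, Q0 * pm e yi P = 1 := by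
  have hinj : Function.Injective (pm e yi P).mulVecLin := by
    rw [injective_iff_map_eq_zero]
    intro w hw
    rw [Matrix.mulVecLin_apply, pm_mulVec] at hw
    have h2 := congrArg (fun v => (cm y)ᵀ *ᵥ v) hw
    beta_reduce at h2
    rw [mulVec_mulVec, hy.clT, one_mulVec, mulVec_zero, ← ce_apply] at h2
    have h3 : ∑ j, w j • P j = 0 := (ce e).injective (by rw [h2, map_zero])
    funext j
    exact (Fintype.linearIndependent_iff.1 hP) w h3 j
  obtain ⟨l, hl⟩ := LinearMap.exists_leftInverse_of_injective _ (LinearMap.ker_eq_bot.2 hinj)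
  refine ⟨LinearMap.toMatrix' l, ?_⟩
  have h1 : LinearMap.toMatrix' (pm e yi P).mulVecLin = pm e yi P := by
    rw [← Matrix.toLin'_apply', LinearMap.toMatrix'_toLin']
  rw [← h1, ← LinearMap.toMatrix'_comp, hl, LinearMap.toMatrix'_id]

/-- Functionals with a given matrix of coordinates. -/
theorem exists_pm (hy : YD Z y yi) {d : ℕ} (P : Matrix (Fin g ⊕ Fin g) (Fin d) ℂ)
    (Q : Matrix (Fin d) (Fin g ⊕ Fin g) ℂ) (hQP : Q * P = 1) :
    ∃ F : Fin d → (X.H →ₗ[ℚ] ℂ), LinearIndependent ℂ F ∧ pm e yi F = P := by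
  obtain ⟨F, hF⟩ : ∃ F : Fin d → (X.H →ₗ[ℚ] ℂ), F = fun j => fn e ((cm y)ᵀ *ᵥ (fun b => P b j)) :=
    ⟨_, rfl⟩
  have hpm : pm e yi F = P := by
    ext b j
    change ((cm yi)ᵀ *ᵥ cof e (F j)) b = P b j
    rw [hF]
    beta_reduce
    rw [cof_fn, mulVec_mulVec, hy.crT, one_mulVec]
  refine ⟨F, ?_, hpm⟩
  rw [Fintype.linearIndependent_iff]
  intro w hw
  have h1 : P *ᵥ w = 0 := by
    rw [← hpm, pm_mulVec, hw]
    have : cof e (0 : X.H →ₗ[ℚ] ℂ) = 0 := rfl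
    rw [this, mulVec_zero]
  have h2 : (Q * P) *ᵥ w = 0 := by rw [← mulVec_mulVec, h1, mulVec_zero]
  rw [hQP, one_mulVec] at h2
  intro i
  rw [h2]
  rfl

end coo

end GJ17

/-- **G17.** -/
theorem mi_of (h : St_coo) : St_mi := by
  intro g Z X e y yi hZ hC hy
  have hgen := GJ17.Ly_le hy
  have hD := GJ17.Dy_mem hy
  have hadj := (hy.ld hZ).adj
  constructor
  · intro ε hε
    obtain ⟨d, P, Q, hPQ, hQP⟩ := WJ2.idem_fac hε.2.1
    obtain ⟨h1, h2⟩ := GJ17.ir_of_mi hD hadj hgen hε hPQ hQP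
    refine ⟨d, P, Q, hPQ, hQP, h1, ?_⟩
    obtain ⟨F, hF, hpm⟩ := GJ17.exists_pm e hy P Q hQP
    refine ⟨F, hF, fun σ => ?_⟩
    rw [GJ17.pm_iff e h hZ hC hy, hpm]
    exact h2 σ
  · intro d Δ hΔ hR
    obtain ⟨F, hF, hF2⟩ := hR
    obtain ⟨Q0, hQ0⟩ := GJ17.pm_li e hy F hF
    obtain ⟨Q, h1, h2, h3⟩ := GJ17.mi_of_ir hD hadj hgen hΔ hQ0
      (fun σ => (GJ17.pm_iff e h hZ hC hy F σ (Δ σ)).1 (hF2 σ))
    exact ⟨_, Q, h1, h2, h3⟩

end

end Pool.Agent.NH32
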