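import Mathlib
import Pool.Agent.NH32.GtD
import Pool.Agent.NH32.GJ17
import Pool.Agent.NH32.GJ11
import Pool.Agent.NH32.Coo

/-!
# Project G, stage 3: modules over a CM field
-/

set_option linter.unusedSectionVars false

namespace Pool.Agent.NH32

open Matrix Module Pool.Agent.W437.HC Pool.Agent.W437.HD Pool.Agent.TH504.CB Pool.Agent.Y90
open Pool.Agent.H204R3.CM (IsHodge)
open Pool.Agent.W548.Odd hiding cv

noncomputable section

namespace GD11

section mat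

variable {B : Type} [Fintype B] [DecidableEq B]

open scoped ComplexOrder in
/-- Schur's lemma for minimal idempotents. -/
theorem schur {L : Submodule ℂ (Matrix B B ℂ)} (hadj : ∀ X ∈ L, Xᴴ ∈ L) {ε ε' M : Matrix B B ℂ}
    (h1 : Mi L ε) (h2 : Mi L ε') (hM : M ∈ CM L) (hM0 : M ≠ 0) (hl : ε * M = M)
    (hr : M * ε' = M) : ∃ M' : Matrix B B ℂ, M * M' = ε ∧ M' * M = ε' := by
  obtain ⟨hc1, hi1, hh1, hn1, hs1⟩ := h1
  obtain ⟨hc2, hi2, hh2, hn2, hs2⟩ := h2
  have hMa : Mᴴ ∈ CM L := CM_adj hadj hM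
  have hmul : ∀ P ∈ CM L, ∀ Q ∈ CM L, P * Q ∈ CM L := by
    intro P hP Q hQ X hX
    rw [← Matrix.mul_assoc, hP X hX, Matrix.mul_assoc, hQ X hX, Matrix.mul_assoc]
  obtain ⟨c, hc⟩ := hs1 _ (hmul _ hM _ hMa)
  obtain ⟨c', hc'⟩ := hs2 _ (hmul _ hMa _ hM)
  have e1 : Mᴴ * ε = Mᴴ := by
    have h := congrArg conjTranspose hl
    rwa [conjTranspose_mul, hh1] at h
  have e2 : ε' * Mᴴ = Mᴴ := by
    have h := congrArg conjTranspose hr
    rwa [conjTranspose_mul, hh2] at h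
  have e3 : M * Mᴴ = c • ε := by
    rw [← hc, ← Matrix.mul_assoc, hl, Matrix.mul_assoc, e1]
  have e4 : Mᴴ * M = c' • ε' := by
    rw [← hc', ← Matrix.mul_assoc, e2, Matrix.mul_assoc, hr]
  have hc0 : c ≠ 0 := by
    rintro rfl
    rw [zero_smul] at e3
    exact hM0 (self_mul_conjTranspose_eq_zero.1 e3)
  have e5 : c • M = c' • M := by
    have h3 : M * Mᴴ * M = M * (Mᴴ * M) := Matrix.mul_assoc _ _ _
    rw [e3, e4, Matrix.smul_mul, hl, Matrix.mul_smul, hr] at h3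
    exact h3
  have e6 : c = c' := by
    by_contra hne
    have h3 : (c - c') • M = 0 := by rw [sub_smul, e5, sub_self]
    rcases smul_eq_zero.1 h3 with h4 | h4
    · exact hne (sub_eq_zero.1 h4)
    · exact hM0 h4
  refine ⟨c⁻¹ • Mᴴ, ?_, ?_⟩
  · rw [Matrix.mul_smul, e3, smul_smul, inv_mul_cancel₀ hc0, one_smul]
  · rw [Matrix.smul_mul, e4, ← e6, smul_smul, inv_mul_cancel₀ hc0, one_smul]

/-- The matrix with given columns. -/
def cols {d : ℕ} (v : Fin d → B → ℂ) : Matrix B (Fin d) ℂ := of fun b j => v j b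

theorem sum_eq {d : ℕ} (v : Fin d → B → ℂ) (κ : Fin d → ℂ) :
    ∑ j, κ j • vecMulVec (v j) (star (v j)) = cols v * diagonal κ * (cols v)ᴴ := by
  ext a b
  rw [Matrix.sum_apply, Matrix.mul_apply]
  refine Finset.sum_congr rfl fun j _ => ?_
  rw [Matrix.mul_diagonal, Matrix.smul_apply, vecMulVec_apply, conjTranspose_apply]
  simp only [cols, of_apply, Pi.star_apply, smul_eq_mul]
  ring

theorem left_inv {d : ℕ} {v : Fin d → B → ℂ} (hv : LinearIndependent ℂ v) :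
    ∃ Vl : Matrix (Fin d) B ℂ, Vl * cols v = 1 := by
  have h1 : Function.Injective (cols v).mulVec := by
    rw [Matrix.mulVec_injective_iff]
    exact hv
  have h2 : LinearMap.ker (toLin' (cols v)) = ⊥ := by
    rw [LinearMap.ker_eq_bot]
    exact h1
  obtain ⟨f, hf⟩ := LinearMap.exists_leftInverse_of_injective _ h2
  refine ⟨LinearMap.toMatrix' f, ?_⟩
  have h3 := congrArg LinearMap.toMatrix' hf
  rwa [LinearMap.toMatrix'_comp, LinearMap.toMatrix'_toLin', LinearMap.toMatrix'_id] at h3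

/-- The factorization. -/
theorem fac {d : ℕ} {N O : Matrix B B ℂ} (hN : N * N = N) (hO : O * O = -1) {v : Fin d → B → ℂ}
    {κ : Fin d → ℂ} (hv : LinearIndependent ℂ v) (hκ : ∀ j, κ j ≠ 0)
    (h : N * O = ∑ j, κ j • vecMulVec (v j) (star (v j))) :
    ∃ R : Matrix (Fin d) B ℂ, N = cols v * R ∧ R * cols v = 1 := by
  obtain ⟨Vl, hVl⟩ := left_inv hv
  rw [sum_eq] at h
  have h1 : N = cols v * (-(diagonal κ * (cols v)ᴴ * O)) := by
    have h2 : N = -(N * O * O) := by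
      rw [Matrix.mul_assoc, hO, Matrix.mul_neg, Matrix.mul_one, neg_neg]
    rw [h2, h]
    simp only [Matrix.mul_neg, Matrix.mul_assoc]
  have h3 : (cols v)ᴴ * Vlᴴ = 1 := by
    rw [← conjTranspose_mul, hVl, conjTranspose_one]
  have h4 : diagonal κ * diagonal (fun j => (κ j)⁻¹) = 1 := by
    rw [diagonal_mul_diagonal, ← diagonal_one]
    congr 1
    funext j
    exact mul_inv_cancel₀ (hκ j)
  have h5 : cols v = N * (O * Vlᴴ * diagonal (fun j => (κ j)⁻¹)) := by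
    calc cols v = cols v * (diagonal κ * ((cols v)ᴴ * Vlᴴ) * diagonal (fun j => (κ j)⁻¹)) := by
          rw [h3, Matrix.mul_one, h4, Matrix.mul_one]
      _ = (cols v * diagonal κ * (cols v)ᴴ) * Vlᴴ * diagonal (fun j => (κ j)⁻¹) := by
          simp only [Matrix.mul_assoc]
      _ = N * O * Vlᴴ * diagonal (fun j => (κ j)⁻¹) := by rw [← h]
      _ = _ := by simp only [Matrix.mul_assoc]
  have h6 : N * cols v = cols v := by
    conv_lhs => rw [h5]
    rw [← Matrix.mul_assoc, hN, ← h5]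
  refine ⟨_, h1, ?_⟩
  obtain ⟨R, hR⟩ : ∃ R, R = -(diagonal κ * (cols v)ᴴ * O) := ⟨_, rfl⟩
  rw [← hR] at h1 ⊢
  have h7 : cols v * R * cols v = cols v := by rw [← h1, h6]
  calc R * cols v = Vl * cols v * (R * cols v) := by rw [hVl, Matrix.one_mul]
    _ = Vl * (cols v * R * cols v) := by simp only [Matrix.mul_assoc]
    _ = 1 := by rw [h7, hVl]

end mat

section coo

variable {g : ℕ} {X : AV} {K : Subfield ℂ} (e : X.H ≃ₗ[ℚ] (Fin g ⊕ Fin g → ℚ))

/-- The functional with values in `K` with given coordinates. -/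
def pK (u : Fin g ⊕ Fin g → K) : X.H →ₗ[ℚ] K := Fintype.linearCombination ℚ u ∘ₗ e.toLinearMap

theorem cof_pK (u : Fin g ⊕ Fin g → K) : cof e (toC (pK e u)) = fun b => (u b : ℂ) := by
  funext b
  change ((pK e u (e.symm (Pi.single b 1)) : K) : ℂ) = u b
  unfold pK
  rw [LinearMap.comp_apply, LinearEquiv.coe_coe, LinearEquiv.apply_symm_apply,
    Fintype.linearCombination_apply_single, one_smul]

end coo

end GD11

open GD11 GJ17

theorem modK_of (h2 : St_rat) (h3 : St_diag) (h4 : St_pola) (h5 : St_sig) : St_modK := by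
  intro X
  obtain ⟨E, hE⟩ := X.pol
  obtain ⟨g, Z, hZ, e, hc, -⟩ := exists_ppavE X.span X.rank hE
  obtain ⟨y, yi, hy⟩ := exists_YD hZ
  have hO := hy.isOm hZ.det
  have hld := hy.ld hZ
  obtain ⟨K, hK, hrat⟩ := h2 g Z y yi hZ hy
  refine ⟨K, hK, fun d Δ hir hrz => ?_⟩
  -- the idempotent
  obtain ⟨P1, Q1, hmi, hQP, hΔ⟩ := (mi_of coo_of g Z X e y yi hZ hc hy).2 d Δ hir hrz
  obtain ⟨ε', M, hmi', hNK, hM, hM0, hl, hr⟩ := hrat _ hmi
  obtain ⟨N, hNdef⟩ : ∃ N, N = (cm y)ᵀ * ε' * (cm yi)ᵀ := ⟨_, rfl⟩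
  rw [← hNdef] at hNK
  have hDy : ∀ σ, Dy Z y yi σ ∈ Ly Z y yi := fun σ => hy.mem_of _ (DS_mem σ)
  -- `N` is an idempotent
  have hNN : N * N = N := by
    rw [hNdef]
    calc (cm y)ᵀ * ε' * (cm yi)ᵀ * ((cm y)ᵀ * ε' * (cm yi)ᵀ)
        = (cm y)ᵀ * ε' * ((cm yi)ᵀ * (cm y)ᵀ) * ε' * (cm yi)ᵀ := by noncomm_ring
      _ = (cm y)ᵀ * (ε' * ε') * (cm yi)ᵀ := by rw [hy.crT]; noncomm_ring
      _ = _ := by rw [hmi'.2.1]
  -- the form is skew Hermitian
  have hNO : N * Om g ℂ = (cm y)ᵀ * ε' * Oy yi * cm y := by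
    rw [hNdef]
    unfold Oy
    calc (cm y)ᵀ * ε' * (cm yi)ᵀ * Om g ℂ = (cm y)ᵀ * ε' * (cm yi)ᵀ * Om g ℂ * (cm yi * cm y) := by
          rw [hy.cl, mul_one]
      _ = _ := by noncomm_ring
  have hOyH : (Oy yi)ᴴ = -Oy yi := by
    have h6 : (Oy yi)ᴴ = ((Oy yi).map (starRingEnd ℂ))ᵀ := rfl
    rw [h6, hO.real, hO.T]
  have hcom : ε' * Oy yi = Oy yi * ε' := (hmi'.1 _ (hy.Oy_mem hZ.det)).symm
  have hskew : (N * Om g ℂ)ᴴ = -(N * Om g ℂ) := by
    rw [hNO, conjTranspose_mul, conjTranspose_mul, conjTranspose_mul, hOyH, hmi'.2.2.1]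
    have h6 : ((cm y)ᵀ)ᴴ = cm y := by
      have h7 : ((cm y)ᵀ)ᴴ = (cm y).map (starRingEnd ℂ) := rfl
      rw [h7, cm_real]
    have h8 : (cm y)ᴴ = (cm y)ᵀ := by
      have h7 : (cm y)ᴴ = ((cm y).map (starRingEnd ℂ))ᵀ := rfl
      rw [h7, cm_real]
    rw [h6, h8]
    calc (cm y)ᵀ * (-Oy yi * (ε' * cm y)) = -((cm y)ᵀ * (Oy yi * ε') * cm y) := by noncomm_ring
      _ = _ := by rw [← hcom]; noncomm_ring
  have hOK : ∀ i j, Om g ℂ i j ∈ K := by
    intro i j
    unfold Om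
    rcases i with i | i <;> rcases j with j | j
    · simp
    · simp only [fromBlocks_apply₁₂, Matrix.one_apply]
      split_ifs
      · exact K.one_mem
      · exact K.zero_mem
    · simp only [fromBlocks_apply₂₁, Matrix.neg_apply, Matrix.one_apply]
      split_ifs
      · exact K.neg_mem K.one_mem
      · exact K.neg_mem K.zero_mem
    · simp
  have hNOK : ∀ i j, (N * Om g ℂ) i j ∈ K := by
    intro i j
    rw [Matrix.mul_apply]
    exact K.sum_mem fun b _ => K.mul_mem (hNK i b) (hOK b j)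
  obtain ⟨d', v, κ, hvK, hvI, hκ, hsum⟩ := h3 K hK _ (N * Om g ℂ) hNOK hskew
  obtain ⟨R, hR1, hR2⟩ := fac hNN (Om_sq ℂ) hvI (fun j => (hκ j).2.2) hsum
  -- the factorization of `ε'`
  obtain ⟨W, hW⟩ : ∃ W, W = (cm yi)ᵀ * cols v := ⟨_, rfl⟩
  obtain ⟨R', hR'⟩ : ∃ R', R' = R * (cm y)ᵀ := ⟨_, rfl⟩
  have hWR : W * R' = ε' := by
    have h6 : W * R' = (cm yi)ᵀ * N * (cm y)ᵀ := by
      rw [hW, hR', hR1]
      simp only [Matrix.mul_assoc]
    rw [h6, hNdef]
    calc (cm yi)ᵀ * ((cm y)ᵀ * ε' * (cm yi)ᵀ) * (cm y)ᵀ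
        = ((cm yi)ᵀ * (cm y)ᵀ) * ε' * ((cm yi)ᵀ * (cm y)ᵀ) := by noncomm_ring
      _ = ε' := by rw [hy.crT, one_mul, mul_one]
  have hRW : R' * W = 1 := by
    have h6 : R' * W = R * ((cm y)ᵀ * (cm yi)ᵀ) * cols v := by
      rw [hW, hR']
      simp only [Matrix.mul_assoc]
    rw [h6, hy.clT, Matrix.mul_one, hR2]
  have hVW : cols v = (cm y)ᵀ * W := by
    rw [hW, ← Matrix.mul_assoc, hy.clT, Matrix.one_mul]
  have hεW : ε' * W = W := by rw [← hWR, Matrix.mul_assoc, hRW, Matrix.mul_one]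
  have hDW : ∀ σ, Dy Z y yi σ * W = W * (R' * Dy Z y yi σ * W) := by
    intro σ
    have h6 : Dy Z y yi σ * ε' = ε' * Dy Z y yi σ := hmi'.1 _ (hDy σ)
    calc Dy Z y yi σ * W = Dy Z y yi σ * (ε' * W) := by rw [hεW]
      _ = Dy Z y yi σ * ε' * W := by rw [Matrix.mul_assoc]
      _ = W * R' * Dy Z y yi σ * W := by rw [h6, ← hWR]
      _ = _ := by simp only [Matrix.mul_assoc]
  -- Schur
  obtain ⟨M', hMM', hM'M⟩ := schur hld.adj hmi hmi' hM hM0 hl hr
  have hG1 : (Q1 * M * W) * (R' * M' * P1) = 1 := by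
    calc (Q1 * M * W) * (R' * M' * P1) = Q1 * M * (W * R') * M' * P1 := by
          simp only [Matrix.mul_assoc]
      _ = Q1 * (M * ε') * M' * P1 := by rw [hWR]; simp only [Matrix.mul_assoc]
      _ = Q1 * (M * M') * P1 := by rw [hr]; simp only [Matrix.mul_assoc]
      _ = (Q1 * P1) * (Q1 * P1) := by rw [hMM']; simp only [Matrix.mul_assoc]
      _ = 1 := by rw [hQP, Matrix.one_mul]
  have hG2 : (R' * M' * P1) * (Q1 * M * W) = 1 := by
    calc (R' * M' * P1) * (Q1 * M * W) = R' * M' * (P1 * Q1 * M) * W := by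
          simp only [Matrix.mul_assoc]
      _ = R' * (M' * M) * W := by rw [hl]; simp only [Matrix.mul_assoc]
      _ = 1 := by rw [hM'M, Matrix.mul_assoc, hεW, hRW]
  have hdd : d' = d := by
    have h6 : trace ((R' * M' * P1) * (Q1 * M * W)) = trace ((Q1 * M * W) * (R' * M' * P1)) :=
      trace_mul_comm _ _
    rw [hG1, hG2, trace_one, trace_one, Fintype.card_fin, Fintype.card_fin] at h6
    exact_mod_cast h6
  subst hdd
  have hG3 : ∀ σ, Δ σ * (Q1 * M * W) = (Q1 * M * W) * (R' * Dy Z y yi σ * W) := by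
    intro σ
    have h6 : Dy Z y yi σ * M = M * Dy Z y yi σ := hM _ (hDy σ)
    calc Δ σ * (Q1 * M * W) = Q1 * Dy Z y yi σ * (P1 * Q1 * M) * W := by
          rw [← hΔ]
          simp only [Matrix.mul_assoc]
      _ = Q1 * (Dy Z y yi σ * M) * W := by rw [hl]; simp only [Matrix.mul_assoc]
      _ = Q1 * M * (Dy Z y yi σ * W) := by rw [h6]; simp only [Matrix.mul_assoc]
      _ = _ := by
          rw [hDW]
          simp only [Matrix.mul_assoc]
  -- the functionals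
  obtain ⟨P, hP⟩ : ∃ P : Fin d' → (X.H →ₗ[ℚ] K), ∀ j, cof e (toC (P j)) = v j :=
    ⟨fun j => pK e fun b => ⟨v j b, hvK j b⟩, fun j => cof_pK e _⟩
  obtain ⟨κK, hκK⟩ : ∃ κK : Fin d' → K, ∀ j, (κK j : ℂ) = κ j := ⟨fun j => ⟨κ j, (hκ j).1⟩, fun _ => rfl⟩
  have hPI : LinearIndependent ℂ (fun j => toC (P j)) := by
    refine LinearIndependent.of_comp (ce e).toLinearMap ?_
    have h6 : (ce e).toLinearMap ∘ (fun j => toC (P j)) = v := funext fun j => hP j
    rw [h6]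
    exact hvI
  have hκc : ∀ j, cjk hK (κK j) = -κK j ∧ κK j ≠ 0 := by
    intro j
    constructor
    · apply Subtype.ext
      change cj (κK j : ℂ) = -(κK j : ℂ)
      rw [hκK]
      exact (hκ j).2.1
    · intro h6
      apply (hκ j).2.2
      rw [← hκK, h6]
      rfl
  have hsum' : (cm y)ᵀ * ε' * (cm yi)ᵀ * Om g ℂ =
      ∑ j, (κK j : ℂ) • vecMulVec (cof e (toC (P j))) (star (cof e (toC (P j)))) := by
    rw [← hNdef, hsum]
    exact Finset.sum_congr rfl fun j _ => by rw [hκK, hP]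
  obtain ⟨Y, b, hb1, hb2, hb3⟩ := h4 g Z X e y yi hZ hc hy K hK ε' hmi' d' P κK hPI hκc hsum'
  refine ⟨P, κK, fun σ => R' * Dy Z y yi σ * W, Y, b, hPI, hκc,
    ⟨_, _, hG1, hG2, hG3⟩, ?_, ?_, hb1, hb2, hb3⟩
  · intro σ j
    rw [isD_iff e coo_of hZ hc hy]
    have h6 : cof e (∑ i, (R' * Dy Z y yi σ * W) i j • toC (P i)) =
        fun b => (cols v * (R' * Dy Z y yi σ * W)) b j := by
      rw [← ce_apply, map_sum]
      funext b
      rw [Finset.sum_apply, Matrix.mul_apply]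
      refine Finset.sum_congr rfl fun i _ => ?_
      rw [map_smul, ce_apply, hP, Pi.smul_apply, smul_eq_mul, mul_comm]
      rfl
    have h7 : ∀ A : Matrix (Fin g ⊕ Fin g) (Fin g ⊕ Fin g) ℂ, ∀ V : Matrix (Fin g ⊕ Fin g) (Fin d') ℂ,
        A *ᵥ (fun b => V b j) = fun b => (A * V) b j := fun A V => rfl
    have h8 : v j = fun b => cols v b j := rfl
    rw [h6, hP, h8, h7, h7, h7, ← hW, hDW, ← Matrix.mul_assoc, ← hW]
  · intro σ
    have h6 := h5 g Z y yi hZ hy K hK ε' hmi' d' v κ hvK hvI hκ (by rw [← hNdef, hsum]) σ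
    have h7 : trace (Δ σ) = trace (R' * Dy Z y yi σ * W) := by
      calc trace (Δ σ) = trace (Δ σ * ((Q1 * M * W) * (R' * M' * P1))) := by
            rw [hG1, Matrix.mul_one]
        _ = trace ((Q1 * M * W) * ((R' * Dy Z y yi σ * W) * (R' * M' * P1))) := by
            rw [← Matrix.mul_assoc, hG3, Matrix.mul_assoc]
        _ = trace ((R' * Dy Z y yi σ * W) * (R' * M' * P1) * (Q1 * M * W)) := by
            rw [trace_mul_comm]
        _ = _ := by rw [Matrix.mul_assoc, hG2, Matrix.mul_one]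
    have h8 : trace (R' * Dy Z y yi σ * W) = trace (Dy Z y yi σ * ε') := by
      rw [trace_mul_comm, ← Matrix.mul_assoc, hWR, trace_mul_comm]
    rw [h7, h8, h6]
    exact Finset.sum_congr rfl fun j _ => by rw [hκK]

end

end Pool.Agent.NH32
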