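import Pool.Agent.NH32.GtD
import Pool.Agent.NH32.GJ14

/-!
# Project G, stage 3: the tensors given by the split Weil classes
-/

set_option linter.unusedSectionVars false

namespace Pool.Agent.NH32

open Matrix Module Pool.Agent.W437.HC Pool.Agent.W437.HD Pool.Agent.TH504.CB Pool.Agent.Y90
open Pool.Agent.H204R3.CM (IsHodge)
open Pool.Agent.W548.Odd hiding cv

noncomputable section

namespace GD12

theorem cj_im (z : ℂ) : (cj z).im = -z.im := rfl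

theorem cj_re (z : ℂ) : (cj z).re = z.re := rfl

theorem sgf_or (κ : ℂ) (σ : ℂ ≃+* ℂ) : sgf κ σ = 1 ∨ sgf κ σ = -1 := by
  unfold sgf
  split_ifs
  · exact Or.inl rfl
  · exact Or.inr rfl

/-- the conjugates of `κ` are not real -/
theorem im_ne {K : Subfield ℂ} (hK : CMF K) {κ : K} (h : cjk hK κ = -κ ∧ κ ≠ 0) (σ : ℂ ≃+* ℂ) :
    (σ.symm (κ : ℂ)).im ≠ 0 := by
  intro h0
  have h1 : cj (κ : ℂ) = -(κ : ℂ) := congrArg Subtype.val h.1
  have h2 : cj (σ.symm (κ : ℂ)) = -σ.symm (κ : ℂ) := by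
    rw [← hK.cc σ.symm κ κ.2, h1, map_neg]
  have h3 : (σ.symm (κ : ℂ)).re = 0 := by
    have h4 := congrArg Complex.re h2
    rw [cj_re, Complex.neg_re] at h4
    linarith
  have h4 : σ.symm (κ : ℂ) = 0 := Complex.ext h3 h0
  have h5 : (κ : ℂ) = 0 := by
    rw [← σ.apply_symm_apply (κ : ℂ), h4, map_zero]
  exact h.2 (Subtype.ext h5)

theorem sgf_cj {K : Subfield ℂ} (hK : CMF K) {κ : K} (h : cjk hK κ = -κ ∧ κ ≠ 0)
    (σ : ℂ ≃+* ℂ) : sgf (κ : ℂ) (cj.trans σ) = -sgf (κ : ℂ) σ := by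
  have h1 : ((cj.trans σ).symm (κ : ℂ)).im = -(σ.symm (κ : ℂ)).im := rfl
  have h2 := im_ne hK h σ
  unfold sgf
  rw [h1]
  rcases lt_or_gt_of_ne h2 with h3 | h3
  · rw [if_pos (by linarith), if_neg (by linarith)]
    rfl
  · rw [if_neg (by linarith), if_pos h3]

theorem sgf_eq {K : Subfield ℂ} (hK : CMF K) (κ : K) {σ τ : ℂ ≃+* ℂ} (h : ∀ z ∈ K, σ z = τ z) :
    sgf (κ : ℂ) σ = sgf (κ : ℂ) τ := by
  have h1 : σ.symm (κ : ℂ) = τ.symm (κ : ℂ) := by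
    have h2 := h _ (hK.st σ.symm κ κ.2)
    rw [σ.apply_symm_apply] at h2
    rw [h2, τ.symm_apply_apply]
    rw [← h2]
  unfold sgf
  rw [h1]

theorem toC_apply {K : Subfield ℂ} {H : Type} [AddCommGroup H] [Module ℚ H] (f : H →ₗ[ℚ] K)
    (x : H) : toC f x = (f x : ℂ) := rfl

theorem toC_ne {K : Subfield ℂ} {H : Type} [AddCommGroup H] [Module ℚ H] {f : H →ₗ[ℚ] K}
    (hf : f ≠ 0) : toC f ≠ 0 := by
  intro h
  apply hf
  ext x
  have h1 : toC f x = 0 := by rw [h]; rfl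
  exact h1

theorem toC_zero {K : Subfield ℂ} {H : Type} [AddCommGroup H] [Module ℚ H] :
    toC (0 : H →ₗ[ℚ] K) = 0 := by
  ext x
  rfl

theorem H10_zero (X : AV) : H10 X 0 := ⟨0, fun _ => rfl⟩

theorem IsD_zero (X : AV) (σ : ℂ ≃+* ℂ) (c : ℂ) : IsD X σ 0 (c • 0) := by
  refine ⟨0, 0, (add_zero _).symm, ?_, ?_, ?_⟩
  · rw [smul_zero, sub_zero]
  · have h : tw σ.symm (0 : X.H →ₗ[ℚ] ℂ) = 0 := by
      ext x
      exact map_zero σ.symm
    rw [h]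
    exact H10_zero X
  · have h : tw cj (tw σ.symm (0 : X.H →ₗ[ℚ] ℂ)) = 0 := by
      ext x
      change cj (σ.symm 0) = 0
      rw [map_zero, map_zero]
    rw [h]
    exact H10_zero X

theorem KHom_comp {K : Subfield ℂ} {ι : Type} {X X' Y : AV} {b : Y.H ≃ₗ[ℚ] (ι → K)}
    {P : ι → (X.H →ₗ[ℚ] K)} (h : KHom b P) {j : X'.H →ₗ[ℚ] X.H} (hj : IsHom X' X j) :
    KHom b (fun k => P k ∘ₗ j) := by
  intro a
  obtain ⟨Ψ, hΨ⟩ := h a
  obtain ⟨Φ, hΦ⟩ := hj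
  refine ⟨Ψ ∘ₗ Φ, fun v => ?_⟩
  rw [LinearMap.comp_apply, hΦ, hΨ]
  rfl

end GD12

open GD12 in
theorem tnK_of (h6 : St_cmav) (h7 : St_prK) (h8 : St_spw) (h9 : St_ten) (h10 : St_lineK) :
    St_tnK := by
  intro X X' hfac K hK hlines d hd P κ Y b hP hκ hact hhom hpol 𝒜 h𝒜 B _ _ e
  obtain ⟨i, j, hi, hj, hji⟩ := hfac
  obtain ⟨Y2, b2, hact2, hpol2, hlast2⟩ := h6 K hK d κ hκ
  obtain ⟨Y3, b3, hact3, hpol3, hl3, hr3⟩ :=
    h7 K hK d κ (fun j => -κ j) Y b hact hpol Y2 b2 hact2 hpol2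
  have hline : ∀ k : Fin d, ∃ f : X'.H →ₗ[ℚ] K, f ≠ 0 ∧
      ∀ σ, IsD X' σ (toC f) (((-sgf (κ k) σ : ℤ) : ℂ) • toC f) := by
    intro k
    have hdep : ∀ σ τ : ℂ ≃+* ℂ, (∀ z ∈ K, σ z = τ z) → -sgf (κ k : ℂ) σ = -sgf (κ k : ℂ) τ :=
      fun σ τ h => by rw [sgf_eq hK (κ k) h]
    have hrz : Rz X' 1 (lineD fun σ => -sgf (κ k : ℂ) σ) := by
      refine hlines _ (fun σ => ?_) (fun σ => ?_) hdep
      · rcases sgf_or (κ k : ℂ) σ with h | h
        · rw [h]; exact Or.inr rfl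
        · rw [h]; exact Or.inl (neg_neg 1)
      · rw [sgf_cj hK (hκ k)]
    exact h10 X' K hK (fun σ => -sgf (κ k : ℂ) σ) hdep hrz
  choose f hf0 hf using hline
  have hcoe : ∀ k σ, ((-sgf (κ k) σ : ℤ) : ℂ) = (-sgf (κ k) σ : ℂ) := fun k σ => by push_cast; rfl
  have hsurj : Function.Surjective j := by
    intro x
    refine ⟨i x, ?_⟩
    have h := LinearMap.congr_fun hji x
    exact h
  have hinj : Function.Injective (GJ14.cmpR (X := X') (Y := X) j) := by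
    intro g g' h
    ext x
    obtain ⟨x', rfl⟩ := hsurj x
    exact LinearMap.congr_fun h x'
  refine ⟨fun k => toC (P k ∘ₗ j), fun k => toC (f k), ?_, fun k => toC_ne (hf0 k), ?_, ?_, ?_⟩
  · exact hP.map' (GJ14.cmpR (X := X') (Y := X) j) (LinearMap.ker_eq_bot.2 hinj)
  · intro σ k c hc
    have h := GJ14.IsD_cmpR hj hc
    rw [map_sum] at h
    simp only [map_smul] at h
    exact h
  · intro σ k
    have h := hf k σ
    rw [hcoe] at h
    exact h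
  · refine h9 K hK d Y3 b3 𝒜 ?_ X' (fun k => P k ∘ₗ j) f (hl3 X' _ (KHom_comp hhom hj)) ?_ B e
    · intro a w hw
      exact h𝒜 Y3 _ w (h8 K hK d κ hd hκ Y3 b3 hact3 hpol3 a w hw)
    · intro k
      refine hr3 X' _ (hlast2 X' _ fun l σ => ?_)
      by_cases hlk : l = k
      · subst hlk
        rw [Pi.single_eq_same]
        have h := hf l σ
        rw [hcoe] at h
        exact h
      · rw [Pi.single_eq_of_ne hlk, toC_zero]
        exact IsD_zero X' σ _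

end

end Pool.Agent.NH32
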