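import Mathlib
import Pool.Agent.NH32.WlA

/-!
# J7: bases of the ranges of idempotents
-/

set_option linter.unusedSectionVars false

namespace Pool.Agent.NH32.WJ7

open Matrix

variable {B : Type} [Fintype B] [DecidableEq B]

/-- The structure of a single idempotent. -/
theorem single (E : Matrix B B ℂ) (hE : E * E = E) (hA : ∀ j k, IsAlgebraic ℚ (E j k)) :
    ∃ (d : ℕ) (a : Fin d → B → ℂ) (Q : Matrix (Fin d) B ℂ), (∀ j b, IsAlgebraic ℚ (a j b)) ∧
      LinearIndependent ℂ a ∧ (∀ j, E *ᵥ a j = a j) ∧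
      (∀ v, E *ᵥ v ∈ Submodule.span ℂ (Set.range a)) ∧
      (of fun b j => a j b) * Q = E ∧ Q * (of fun b j => a j b) = 1 := by
  obtain ⟨b, hb, hspan, hli⟩ := exists_linearIndependent ℂ (Set.range Eᵀ)
  have hfin : b.Finite := (Set.finite_range Eᵀ).subset hb
  have : Finite b := hfin
  obtain ⟨n, ⟨e⟩⟩ := Finite.exists_equiv_fin b
  have hrange : Set.range (fun j : Fin n => ((e.symm j : b) : B → ℂ)) = b := by
    ext v
    constructor
    · rintro ⟨j, rfl⟩
      exact (e.symm j).2
    · intro hv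
      exact ⟨e ⟨v, hv⟩, by simp⟩
  have hli' : LinearIndependent ℂ (fun j : Fin n => ((e.symm j : b) : B → ℂ)) :=
    hli.comp e.symm e.symm.injective
  have hcol : ∀ j : Fin n, ∃ c, Eᵀ c = ((e.symm j : b) : B → ℂ) := fun j => hb (e.symm j).2
  have hEcol : ∀ c, E *ᵥ Eᵀ c = Eᵀ c := by
    intro c
    ext i
    have : (E * E) i c = E i c := by rw [hE]
    exact this
  have hmem : ∀ c, Eᵀ c ∈ Submodule.span ℂ (Set.range (fun j : Fin n => ((e.symm j : b) : B → ℂ))) := by
    intro c
    rw [hrange, hspan]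
    exact Submodule.subset_span ⟨c, rfl⟩
  have hch : ∀ c, ∃ q : Fin n → ℂ, ∑ j, q j • ((e.symm j : b) : B → ℂ) = Eᵀ c := fun c =>
    (Submodule.mem_span_range_iff_exists_fun ℂ).1 (hmem c)
  choose q hq using hch
  have hPQ : (of fun (b' : B) (j : Fin n) => ((e.symm j : b) : B → ℂ) b') *
      (of fun (j : Fin n) (c : B) => q c j) = E := by
    ext i c
    have := congrFun (hq c) i
    simp only [Finset.sum_apply, Pi.smul_apply, smul_eq_mul, transpose_apply] at this
    rw [Matrix.mul_apply, ← this]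
    exact Finset.sum_congr rfl fun j _ => mul_comm _ _
  have hEa : ∀ j : Fin n, E *ᵥ ((e.symm j : b) : B → ℂ) = ((e.symm j : b) : B → ℂ) := by
    intro j
    obtain ⟨c, hc⟩ := hcol j
    rw [← hc, hEcol]
  have hEP : E * (of fun (b' : B) (j : Fin n) => ((e.symm j : b) : B → ℂ) b') =
      of fun (b' : B) (j : Fin n) => ((e.symm j : b) : B → ℂ) b' := by
    ext i j
    exact congrFun (hEa j) i
  refine ⟨n, fun j => ((e.symm j : b) : B → ℂ), of fun (j : Fin n) (c : B) => q c j, ?_, hli', hEa,
    ?_, hPQ, ?_⟩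
  · intro j b'
    obtain ⟨c, hc⟩ := hcol j
    have := hA b' c
    have e2 : E b' c = ((e.symm j : b) : B → ℂ) b' := congrFun hc b'
    rwa [e2] at this
  · intro v
    have : E *ᵥ v = ∑ c, v c • Eᵀ c := by
      ext i
      simp [mulVec, dotProduct, mul_comm]
    rw [this]
    exact Submodule.sum_mem _ fun c _ => Submodule.smul_mem _ _ (hmem c)
  · -- P (Q P - 1) = 0
    have h0 : (of fun (b' : B) (j : Fin n) => ((e.symm j : b) : B → ℂ) b') *
        ((of fun (j : Fin n) (c : B) => q c j) *
          (of fun (b' : B) (j : Fin n) => ((e.symm j : b) : B → ℂ) b') - 1) = 0 := by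
      rw [Matrix.mul_sub, ← Matrix.mul_assoc, hPQ, hEP, Matrix.mul_one, sub_self]
    have hinj : ∀ C : Matrix (Fin n) (Fin n) ℂ,
        (of fun (b' : B) (j : Fin n) => ((e.symm j : b) : B → ℂ) b') * C = 0 → C = 0 := by
      intro C hC
      ext j k
      have hk : ∑ j, C j k • ((e.symm j : b) : B → ℂ) = 0 := by
        ext i
        have := congrFun (congrFun hC i) k
        rw [Matrix.mul_apply] at this
        simp only [Finset.sum_apply, Pi.smul_apply, smul_eq_mul, Pi.zero_apply]
        rw [Matrix.zero_apply] at this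
        rw [← this]
        exact Finset.sum_congr rfl fun j _ => mul_comm _ _
      exact (Fintype.linearIndependent_iff.1 hli') (fun j => C j k) hk j
    exact sub_eq_zero.1 (hinj _ h0)

/-- The determinants of one block. -/
noncomputable def D {d : ℕ} (a : Fin d → B → ℂ) (J : Fin d → B) : ℂ := det (of fun j k : Fin d => a j (J k))

theorem D_eq {d : ℕ} (a : Fin d → B → ℂ) (J : Fin d → B) :
    D a J = det (of fun k j : Fin d => a j (J k)) := by
  unfold D
  rw [← det_transpose]
  rfl

theorem exists_D_ne {d : ℕ} (a : Fin d → B → ℂ) (Q : Matrix (Fin d) B ℂ)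
    (hQ : Q * (of fun b j => a j b) = 1) : ∃ J, D a J ≠ 0 := by
  by_contra hcon
  push Not at hcon
  have h1 : det (Q * (of fun b j => a j b)) = 1 := by rw [hQ, det_one]
  have h2 : det (Q * (of fun b j => a j b)) =
      detRowAlternating (fun k => ∑ b, Q k b • (fun j => a j b)) := by
    unfold det
    congr 1
    ext k j
    simp [Matrix.mul_apply]
  rw [h2] at h1
  have h3 := (detRowAlternating (n := Fin d) (R := ℂ)).toMultilinearMap.map_sum
    (fun k (b : B) => Q k b • (fun j => a j b))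
  have h4 : detRowAlternating (fun k => ∑ b, Q k b • (fun j => a j b)) =
      ∑ r : Fin d → B, detRowAlternating (fun k => Q k (r k) • (fun j => a j (r k))) := h3
  rw [h4] at h1
  rw [Finset.sum_eq_zero] at h1
  · exact zero_ne_one h1
  · intro r _
    have h5 := (detRowAlternating (n := Fin d) (R := ℂ)).toMultilinearMap.map_smul_univ
      (fun k => Q k (r k)) (fun k j => a j (r k))
    have h6 : detRowAlternating (fun k => Q k (r k) • (fun j => a j (r k))) =
      (∏ k, Q k (r k)) • detRowAlternating (fun k j => a j (r k)) := h5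
    rw [h6]
    have h7 := hcon r
    rw [D_eq] at h7
    have h8 : detRowAlternating (fun k j => a j (r k)) = 0 := h7
    rw [h8, smul_zero]

theorem XP {d : ℕ} {E : Matrix B B ℂ} {P : Matrix B (Fin d) ℂ} {Q : Matrix (Fin d) B ℂ}
    (hPQ : P * Q = E) (hQP : Q * P = 1) {X : Matrix B B ℂ} (hX : X * E = E * X) :
    X * P = P * (Q * X * P) := by
  have : E * P = P := by rw [← hPQ, Matrix.mul_assoc, hQP, Matrix.mul_one]
  calc X * P = X * (E * P) := by rw [this]
    _ = (X * E) * P := (Matrix.mul_assoc _ _ _).symm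
    _ = E * X * P := by rw [hX]
    _ = P * (Q * X * P) := by rw [← hPQ]; simp only [Matrix.mul_assoc]

theorem trC {d : ℕ} {E : Matrix B B ℂ} {P : Matrix B (Fin d) ℂ} {Q : Matrix (Fin d) B ℂ}
    (hPQ : P * Q = E) (X : Matrix B B ℂ) : trace (Q * X * P) = trace (X * E) := by
  rw [Matrix.mul_assoc, Matrix.trace_mul_comm, Matrix.mul_assoc, hPQ]

theorem detC {d : ℕ} {E : Matrix B B ℂ} {P : Matrix B (Fin d) ℂ} {Q : Matrix (Fin d) B ℂ}
    (hPQ : P * Q = E) (hQP : Q * P = 1) (u : Matrix B B ℂ) :
    det (Q * u * P) = det (u * E + 1 - E) := by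
  have h1 : u * E + 1 - E = 1 + ((u - 1) * P) * Q := by
    rw [Matrix.mul_assoc, hPQ, Matrix.sub_mul, Matrix.one_mul]; abel
  have h2 : Q * u * P = 1 + Q * ((u - 1) * P) := by
    rw [Matrix.sub_mul, Matrix.mul_sub, Matrix.one_mul, hQP, Matrix.mul_assoc]; abel
  rw [h1, h2, det_one_add_mul_comm]

/-- rows of the minor -/
theorem kp_block {d : ℕ} (a : Fin d → B → ℂ) (u : Matrix B B ℂ) (C : Matrix (Fin d) (Fin d) ℂ)
    (hC : u * (of fun b j => a j b) = (of fun b j => a j b) * C) (I : Fin d → B) :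
    ∑ J : Fin d → B, (∏ k, u (I k) (J k)) * D a J = det C * D a I := by
  have h3 := (detRowAlternating (n := Fin d) (R := ℂ)).toMultilinearMap.map_sum
    (fun k (b : B) => u (I k) b • (fun j => a j b))
  have h4 : detRowAlternating (fun k => ∑ b, u (I k) b • (fun j => a j b)) =
      ∑ r : Fin d → B, detRowAlternating (fun k => u (I k) (r k) • (fun j => a j (r k))) := h3
  have h6 : ∀ r : Fin d → B, detRowAlternating (fun k => u (I k) (r k) • (fun j => a j (r k))) =
      (∏ k, u (I k) (r k)) * D a r := by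
    intro r
    have h5 := (detRowAlternating (n := Fin d) (R := ℂ)).toMultilinearMap.map_smul_univ
      (fun k => u (I k) (r k)) (fun k j => a j (r k))
    rw [D_eq]
    exact h5
  have h7 : detRowAlternating (fun k => ∑ b, u (I k) b • (fun j => a j b)) = det C * D a I := by
    rw [D_eq, mul_comm, ← det_mul]
    unfold det
    congr 1
    ext k j
    have := congrFun (congrFun hC (I k)) j
    simp only [Matrix.mul_apply, of_apply] at this
    simp only [Finset.sum_apply, Pi.smul_apply, smul_eq_mul, Matrix.mul_apply, of_apply]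
    exact this
  rw [← h7, h4]
  exact (Finset.sum_congr rfl fun r _ => h6 r).symm

theorem sum_updateRow {d : ℕ} (M C : Matrix (Fin d) (Fin d) ℂ) :
    ∑ k, det (M.updateRow k ((M * C) k)) = trace C * det M := by
  have h1 : ∀ (k : Fin d) (v : Fin d → ℂ), det (M.updateRow k v) = ∑ j, adjugate M j k * v j := by
    intro k v
    rw [← det_transpose, ← updateCol_transpose, ← cramer_apply, cramer_eq_adjugate_mulVec,
      ← adjugate_transpose]
    rfl
  have h2 : ∑ k, det (M.updateRow k ((M * C) k)) = trace ((M * C) * adjugate M) := by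
    simp only [h1, trace, diag, Matrix.mul_apply (M := M * C)]
    refine Finset.sum_congr rfl fun k _ => Finset.sum_congr rfl fun j _ => mul_comm _ _
  rw [h2, Matrix.mul_assoc, trace_mul_comm, Matrix.mul_assoc, adjugate_mul, Matrix.mul_smul,
    Matrix.mul_one, trace_smul, smul_eq_mul, mul_comm]

theorem dm_block {d : ℕ} (a : Fin d → B → ℂ) (X : Matrix B B ℂ) (C : Matrix (Fin d) (Fin d) ℂ)
    (hC : X * (of fun b j => a j b) = (of fun b j => a j b) * C) (I : Fin d → B) :
    ∑ k, ∑ b, X (I k) b * D a (Function.update I k b) = trace C * D a I := by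
  rw [D_eq, ← sum_updateRow]
  refine Finset.sum_congr rfl fun k _ => ?_
  have h1 : ∀ b, D a (Function.update I k b) =
      det ((of fun k j : Fin d => a j (I k)).updateRow k (fun j => a j b)) := by
    intro b
    rw [D_eq]
    congr 1
    ext k' j
    by_cases h : k' = k
    · subst h; simp
    · simp [h]
  have h2 : ((of fun k j : Fin d => a j (I k)) * C) k = ∑ b, X (I k) b • (fun j => a j b) := by
    ext j
    have := congrFun (congrFun hC (I k)) j
    simp only [Matrix.mul_apply, of_apply] at this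
    simp only [Finset.sum_apply, Pi.smul_apply, smul_eq_mul, Matrix.mul_apply, of_apply]
    exact this.symm
  rw [h2]
  have h3 : ∀ (s : Finset B), det ((of fun k j : Fin d => a j (I k)).updateRow k
      (∑ b ∈ s, X (I k) b • (fun j => a j b))) =
      ∑ b ∈ s, X (I k) b * det ((of fun k j : Fin d => a j (I k)).updateRow k (fun j => a j b)) := by
    intro s
    classical
    induction s using Finset.induction_on with
    | empty =>
      rw [Finset.sum_empty, Finset.sum_empty]
      exact det_eq_zero_of_row_eq_zero k (fun j => by simp)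
    | insert b s hb ih =>
      rw [Finset.sum_insert hb, Finset.sum_insert hb, det_updateRow_add, det_updateRow_smul, ih]
  rw [h3]
  exact Finset.sum_congr rfl fun b _ => by rw [h1]


/-- The product over the blocks. -/
noncomputable def wJ {s : ℕ} {d : Fin s → ℕ} (a : ∀ i, Fin (d i) → B → ℂ)
    (J : (Σ i, Fin (d i)) → B) : ℂ := ∏ i, D (a i) (fun k => J ⟨i, k⟩)

theorem exists_wJ_ne {s : ℕ} {d : Fin s → ℕ} (a : ∀ i, Fin (d i) → B → ℂ)
    (Q : ∀ i, Matrix (Fin (d i)) B ℂ) (hQ : ∀ i, Q i * (of fun b j => a i j b) = 1) :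
    ∃ J, wJ a J ≠ 0 := by
  choose J hJ using fun i => exists_D_ne (a i) (Q i) (hQ i)
  refine ⟨fun x => J x.1 x.2, ?_⟩
  unfold wJ
  exact Finset.prod_ne_zero_iff.2 fun i _ => hJ i

theorem kp_wJ {s : ℕ} {d : Fin s → ℕ} (a : ∀ i, Fin (d i) → B → ℂ) (u : Matrix B B ℂ)
    (C : ∀ i, Matrix (Fin (d i)) (Fin (d i)) ℂ)
    (hC : ∀ i, u * (of fun b j => a i j b) = (of fun b j => a i j b) * C i)
    (I : (Σ i, Fin (d i)) → B) :
    ∑ J : (Σ i, Fin (d i)) → B, (∏ k, u (I k) (J k)) * wJ a J = (∏ i, det (C i)) * wJ a I := by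
  have h1 : ∑ J : (Σ i, Fin (d i)) → B, (∏ k, u (I k) (J k)) * wJ a J =
      ∑ J : (∀ i, Fin (d i) → B), ∏ i, ((∏ k, u (I ⟨i, k⟩) (J i k)) * D (a i) (J i)) := by
    refine Fintype.sum_equiv (Equiv.piCurry (fun (i : Fin s) (_ : Fin (d i)) => B)) _ _ ?_
    intro J
    rw [Finset.prod_mul_distrib]
    congr 1
    rw [Fintype.prod_sigma]
    rfl
  rw [h1]
  have h2 := Finset.prod_univ_sum (fun (i : Fin s) => (Finset.univ : Finset (Fin (d i) → B)))
    (fun i J => (∏ k, u (I ⟨i, k⟩) (J k)) * D (a i) J)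
  rw [Fintype.piFinset_univ] at h2
  rw [← h2]
  unfold wJ
  rw [← Finset.prod_mul_distrib]
  exact Finset.prod_congr rfl fun i _ => kp_block (a i) u (C i) (hC i) (fun k => I ⟨i, k⟩)

theorem dm_wJ {s : ℕ} {d : Fin s → ℕ} (a : ∀ i, Fin (d i) → B → ℂ) (X : Matrix B B ℂ)
    (C : ∀ i, Matrix (Fin (d i)) (Fin (d i)) ℂ)
    (hC : ∀ i, X * (of fun b j => a i j b) = (of fun b j => a i j b) * C i)
    (I : (Σ i, Fin (d i)) → B) :
    ∑ k, ∑ b, X (I k) b * wJ a (Function.update I k b) = (∑ i, trace (C i)) * wJ a I := by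
  rw [Fintype.sum_sigma, Finset.sum_mul]
  refine Finset.sum_congr rfl fun i _ => ?_
  have h1 : ∀ (k : Fin (d i)) (b : B), wJ a (Function.update I ⟨i, k⟩ b) =
      D (a i) (Function.update (fun k => I ⟨i, k⟩) k b) *
        ∏ i' ∈ Finset.univ.erase i, D (a i') (fun k => I ⟨i', k⟩) := by
    intro k b
    unfold wJ
    rw [← Finset.mul_prod_erase _ _ (Finset.mem_univ i)]
    congr 1
    · congr 1
      funext k'
      by_cases h : k' = k
      · subst h; simp
      · rw [Function.update_of_ne h, Function.update_of_ne]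
        intro h'
        apply h
        simpa using h'
    · refine Finset.prod_congr rfl fun i' hi' => ?_
      congr 1
      funext k'
      rw [Function.update_of_ne]
      intro h'
      exact (Finset.mem_erase.1 hi').1 (congrArg Sigma.fst h')
  have h2 : wJ a I = D (a i) (fun k => I ⟨i, k⟩) *
        ∏ i' ∈ Finset.univ.erase i, D (a i') (fun k => I ⟨i', k⟩) := by
    unfold wJ
    rw [← Finset.mul_prod_erase _ _ (Finset.mem_univ i)]
  rw [h2, ← mul_assoc, ← dm_block (a i) X (C i) (hC i) (fun k => I ⟨i, k⟩), Finset.sum_mul]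
  refine Finset.sum_congr rfl fun k _ => ?_
  rw [Finset.sum_mul]
  refine Finset.sum_congr rfl fun b _ => ?_
  rw [h1, mul_assoc]

end Pool.Agent.NH32.WJ7

namespace Pool.Agent.NH32

open Matrix

theorem bas_of : St_bas := by
  intro B _ _ s E hE hA
  choose d a Q ha hli hEa hspan hPQ hQP using fun i => WJ7.single (E i) (hE i) (hA i)
  refine ⟨d, a, ha, hli, hEa, hspan, ?_, ?_, ?_⟩
  · obtain ⟨J, hJ⟩ := WJ7.exists_wJ_ne a Q hQP
    intro h0
    exact hJ (congrFun h0 J)
  · intro X hX
    have hC := fun i => WJ7.XP (hPQ i) (hQP i) (hX i)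
    funext I
    rw [dm_mulVec_apply, Pi.smul_apply, smul_eq_mul]
    have h1 := WJ7.dm_wJ a X (fun i => Q i * X * of fun b j => a i j b) hC I
    have h2 : ∑ i, trace (Q i * X * of fun b j => a i j b) = ∑ i, trace (X * E i) :=
      Finset.sum_congr rfl fun i _ => WJ7.trC (hPQ i) X
    rw [h2] at h1
    exact h1
  · intro u hu
    have hC := fun i => WJ7.XP (hPQ i) (hQP i) (hu i)
    funext I
    rw [mvA, Pi.smul_apply, smul_eq_mul]
    have h1 := WJ7.kp_wJ a u (fun i => Q i * u * of fun b j => a i j b) hC I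
    have h2 : ∏ i, det (Q i * u * of fun b j => a i j b) = ∏ i, det (u * E i + 1 - E i) :=
      Finset.prod_congr rfl fun i _ => WJ7.detC (hPQ i) (hQP i) u
    rw [h2] at h1
    exact h1

end Pool.Agent.NH32
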