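import Mathlib
import Pool.Agent.NH32.WlA

/-!
# Weil classes: matrix lemmas
-/

set_option linter.unusedSectionVars false

namespace Pool.Agent.NH32

open Matrix Module

noncomputable section

variable {B : Type} [Fintype B] [DecidableEq B] {Om : Matrix B B ℂ}
  {L : Submodule ℂ (Matrix B B ℂ)}

section st

variable (hO : IsOm Om)

theorem st_mul (hO : IsOm Om) (M N : Matrix B B ℂ) : st Om (M * N) = st Om N * st Om M := by
  unfold st
  rw [transpose_mul]
  calc -(Om * (Nᵀ * Mᵀ) * Om) = -(Om * Nᵀ * 1 * Mᵀ * Om) := by noncomm_ring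
    _ = -(Om * Nᵀ * (-(Om * Om)) * Mᵀ * Om) := by rw [hO.sq, neg_neg]
    _ = _ := by noncomm_ring

theorem st_st (hO : IsOm Om) (M : Matrix B B ℂ) : st Om (st Om M) = M := by
  unfold st
  rw [transpose_neg, transpose_mul, transpose_mul, transpose_transpose, hO.T]
  calc -(Om * -(-Om * (M * -Om)) * Om) = (Om * Om) * M * (Om * Om) := by noncomm_ring
    _ = M := by rw [hO.sq]; noncomm_ring

theorem st_trace (hO : IsOm Om) (M : Matrix B B ℂ) : trace (st Om M) = trace M := by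
  unfold st
  rw [trace_neg, trace_mul_comm, ← mul_assoc, hO.sq, neg_one_mul, trace_neg, neg_neg,
    trace_transpose]

theorem st_skew_iff (hO : IsOm Om) (X : Matrix B B ℂ) : st Om X = -X ↔ Xᵀ * Om + Om * X = 0 := by
  unfold st
  constructor
  · intro h
    have h1 := congrArg (fun W => Om * W) h
    beta_reduce at h1
    have e1 : Om * -(Om * Xᵀ * Om) = -((Om * Om) * Xᵀ * Om) := by noncomm_ring
    rw [e1, hO.sq, mul_neg] at h1
    have e2 : -(-1 * Xᵀ * Om) = Xᵀ * Om := by noncomm_ring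
    rw [e2] at h1
    rw [h1, neg_add_cancel]
  · intro h
    have h1 : Xᵀ * Om = -(Om * X) := eq_neg_of_add_eq_zero_left h
    have e1 : -(Om * Xᵀ * Om) = -(Om * (Xᵀ * Om)) := by noncomm_ring
    rw [e1, h1]
    have e2 : -(Om * -(Om * X)) = (Om * Om) * X := by noncomm_ring
    rw [e2, hO.sq, neg_one_mul]

end st

theorem CM_mul {M N : Matrix B B ℂ} (hM : M ∈ CM L) (hN : N ∈ CM L) : M * N ∈ CM L := by
  intro X hX
  rw [← mul_assoc, hM X hX, mul_assoc, hN X hX, mul_assoc]

/-- The decomposition of a reductive Lie algebra, with traces. -/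
theorem dec_L (hld : LD Om L) {X : Matrix B B ℂ} (hX : X ∈ L) : ∃ X₁ ∈ L, ∃ X₂ ∈ L,
    X = X₁ + X₂ ∧ X₂ ∈ ZM L ∧ ∀ M ∈ CM L, trace (X₁ * M) = 0 := by
  let S : Submodule ℂ (Matrix B B ℂ) :=
    Submodule.span ℂ {Y | ∃ P ∈ L, ∃ Q ∈ L, Y = P * Q - Q * P}
  have hS : S ≤ L := by
    refine Submodule.span_le.2 ?_
    rintro _ ⟨P, hP, Q, hQ, rfl⟩
    exact hld.br P hP Q hQ
  obtain ⟨s, hs, hort⟩ := exists_orth S X
  have hX2 : X - s ∈ L := L.sub_mem hX (hS hs)
  have hc : ∀ Y ∈ L, Y * (X - s) = (X - s) * Y := by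
    intro Y hY
    rw [← sub_eq_zero]
    apply trace_self_eq_zero
    obtain ⟨W, hW⟩ : ∃ W, W = Y * (X - s) - (X - s) * Y := ⟨_, rfl⟩
    have hWL : W ∈ L := by rw [hW]; exact hld.br _ hY _ hX2
    have h1 : Yᴴ * W - W * Yᴴ ∈ S :=
      Submodule.subset_span ⟨_, hld.adj Y hY, W, hWL, rfl⟩
    have h2 := hort _ h1
    rw [← hW, ← h2]
    have h3 : (Yᴴ * W - W * Yᴴ)ᴴ = Wᴴ * Y - Y * Wᴴ := by
      rw [conjTranspose_sub, conjTranspose_mul, conjTranspose_mul, conjTranspose_conjTranspose]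
    rw [h3]
    obtain ⟨V, hV⟩ : ∃ V, V = X - s := ⟨_, rfl⟩
    rw [← hV] at hW ⊢
    have h4 : Wᴴ * W = Wᴴ * (Y * V - V * Y) := by rw [← hW]
    rw [h4, mul_sub, sub_mul, trace_sub, trace_sub]
    congr 1
    · rw [mul_assoc]
    · rw [← mul_assoc, trace_mul_comm, ← mul_assoc]
  refine ⟨s, hS hs, X - s, hX2, by rw [add_sub_cancel], ⟨fun Y hY => hc Y hY, fun N hN => ?_⟩, ?_⟩
  · exact (hN _ hX2).symm
  · intro M hM
    have h1 : S ≤ LinearMap.ker
        ((Matrix.traceLinearMap B ℂ ℂ).comp (LinearMap.mulRight ℂ M)) := by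
      refine Submodule.span_le.2 ?_
      rintro _ ⟨P, hP, Q, hQ, rfl⟩
      rw [SetLike.mem_coe, LinearMap.mem_ker, LinearMap.comp_apply]
      change trace ((P * Q - Q * P) * M) = 0
      rw [sub_mul, trace_sub, mul_assoc, hM Q hQ, ← mul_assoc, trace_mul_comm (P * M) Q,
        ← mul_assoc, sub_self]
    exact h1 hs

/-- The trace form on the centre is nondegenerate. -/
theorem zm_zero (hadj : ∀ X ∈ L, Xᴴ ∈ L) {z : Matrix B B ℂ} (hz : z ∈ ZM L)
    (h : ∀ M ∈ ZM L, trace (z * M) = 0) : z = 0 := by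
  apply trace_self_eq_zero
  rw [trace_mul_comm]
  exact h _ (ZM_adj hadj hz)

/-- If the Lefschetz Lie algebra kills the invariants of degree two and four then it is contained
in the Lie algebra. -/
theorem lf_le (h1 : St_split) (hO : IsOm Om) (hld : LD Om L) {X : Matrix B B ℂ}
    (hX : Lf Om L X) (h2 : ∀ x ∈ InvL L (Fin 2), dm (Fin 2) X *ᵥ x = 0)
    (h4 : ∀ x ∈ InvL L (Fin 4), dm (Fin 4) X *ᵥ x = 0) : X ∈ L := by
  obtain ⟨-, -, X', hX', hz⟩ := h1 B Om L hO hld X h2 h4
  obtain ⟨X₁, hX₁, X₂, -, hXe, hX₂z, htr⟩ := dec_L hld hX'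
  have h3 : X - X₁ ∈ ZM L := by
    have e1 : X - X₁ = (X - X') + X₂ := by rw [hXe]; abel
    rw [e1]
    exact (ZM L).add_mem hz hX₂z
  have h5 : X - X₁ = 0 := zm_zero hld.adj h3 fun M hM => by
    rw [sub_mul, trace_sub, hX.2.2 M hM, htr M hM.1, sub_zero]
  rw [sub_eq_zero.1 h5]
  exact hX₁

/-- Invariants of degree two come from the commutant. -/
theorem inv_two (hO : IsOm Om) (hld : LD Om L) {X : Matrix B B ℂ} (hs : st Om X = -X)
    (hB : InB L X) : ∀ x ∈ InvL L (Fin 2), dm (Fin 2) X *ᵥ x = 0 := by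
  intro x hx
  have hdm : ∀ (Y : Matrix B B ℂ) (I : Fin 2 → B), (dm (Fin 2) Y *ᵥ x) I =
      (Y * (of fun i j => x ![i, j]) + (of fun i j => x ![i, j]) * Yᵀ) (I 0) (I 1) := by
    intro Y I
    rw [dm_mulVec_apply, Fin.sum_univ_two, Matrix.add_apply, Matrix.mul_apply, Matrix.mul_apply]
    congr 1
    · refine Finset.sum_congr rfl fun j _ => ?_
      rw [of_apply]
      congr 2
      funext k
      fin_cases k <;> rfl
    · refine Finset.sum_congr rfl fun j _ => ?_
      rw [of_apply, transpose_apply, mul_comm]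
      congr 2
      funext k
      fin_cases k <;> rfl
  obtain ⟨W, hW⟩ : ∃ W : Matrix B B ℂ, W = of fun i j => x ![i, j] := ⟨_, rfl⟩
  rw [← hW] at hdm
  have hL : ∀ Y ∈ L, Y * W + W * Yᵀ = 0 := by
    intro Y hY
    ext i j
    have h1 := hdm Y ![i, j]
    rw [hx Y hY, Pi.zero_apply] at h1
    exact h1.symm
  have hM : W * Om ∈ CM L := by
    intro Y hY
    have h1 : Yᵀ * Om = -(Om * Y) := eq_neg_of_add_eq_zero_left (hld.sp Y hY)
    have h2 : Y * W = -(W * Yᵀ) := eq_neg_of_add_eq_zero_left (hL Y hY)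
    rw [← mul_assoc, h2, neg_mul, mul_assoc, h1, mul_neg, neg_neg, mul_assoc]
  have h1 := hB _ hM
  have hs' : Xᵀ * Om = -(Om * X) := eq_neg_of_add_eq_zero_left ((st_skew_iff hO X).1 hs)
  have h2 : (X * W + W * Xᵀ) * Om = 0 := by
    rw [add_mul, mul_assoc X, h1, mul_assoc W Xᵀ, hs', mul_assoc W Om, mul_neg, add_neg_cancel]
  have h3 : X * W + W * Xᵀ = 0 := by
    have h4 := congrArg (fun V => V * Om) h2
    beta_reduce at h4
    rw [mul_assoc, hO.sq, zero_mul, mul_neg_one, neg_eq_zero] at h4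
    exact h4
  funext I
  rw [hdm X I, h3]
  rfl

/-- The trace of an element of the Lie algebra on a minimal idempotent of a real component. -/
theorem real_trace (h10 : St_mu) (hO : IsOm Om) (hld : LD Om L) {E e : Matrix B B ℂ}
    (hE : Mz L E) (hEs : st Om E = E) (he : Me L E e) {X : Matrix B B ℂ} (hX : X ∈ L) :
    trace (X * e) = 0 := by
  obtain ⟨d, m, ε, -, hm, -, hmul, -, -, hspan, htr, htre⟩ := h10 B L hld.adj E hE
  have hXB : InB L X := fun M hM => hM X hX
  obtain ⟨x, hx⟩ := hspan X hXB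
  have h1 : trace (X * e) = ∑ i, x i i := by
    have h2 : X * e = (X * E) * e := by rw [mul_assoc, he.2.2.2.1]
    rw [h2, hx, Finset.sum_mul, trace_sum]
    refine Finset.sum_congr rfl fun i _ => ?_
    rw [Finset.sum_mul, trace_sum, Finset.sum_eq_single i]
    · rw [Matrix.smul_mul, trace_smul, htre e he, if_pos rfl, smul_eq_mul, mul_one]
    · intro j _ hj
      rw [Matrix.smul_mul, trace_smul, htre e he, if_neg (Ne.symm hj), smul_zero]
    · intro h
      exact absurd (Finset.mem_univ _) h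
  have h2 : trace (X * E) = 0 := by
    have h3 : st Om (X * E) = -(E * X) := by
      rw [st_mul hO, hEs, (st_skew_iff hO X).2 (hld.sp X hX), mul_neg]
    have h4 := st_trace hO (X * E)
    rw [h3, trace_neg, trace_mul_comm E X] at h4
    have h5 : (2 : ℂ) * trace (X * E) = 0 := by linear_combination -h4
    exact (mul_eq_zero.1 h5).resolve_left two_ne_zero
  have h3 : trace (X * E) = (m : ℂ) * ∑ i, x i i := by
    rw [hx, trace_sum, Finset.mul_sum]
    refine Finset.sum_congr rfl fun i _ => ?_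
    rw [trace_sum, Finset.sum_eq_single i]
    · rw [trace_smul, htr, smul_eq_mul, mul_comm]
    · intro j _ hj
      have h6 : trace (ε i j) = 0 := by
        have h7 : ε i j = ε i i * ε i j := by rw [hmul, if_pos rfl]
        rw [h7, trace_mul_comm, hmul, if_neg hj, trace_zero]
      rw [trace_smul, h6, smul_zero]
    · intro h
      exact absurd (Finset.mem_univ _) h
  rw [h1]
  rw [h2] at h3
  exact (mul_eq_zero.1 h3.symm).resolve_left (by exact_mod_cast hm.ne')

end

end Pool.Agent.NH32
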