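import Mathlib
import Pool.Agent.NH32.WlA

/-!
# Weil classes: transfer between classes and tensors
-/

set_option linter.unusedSectionVars false

namespace Pool.Agent.NH32

open Matrix Module Pool.Agent.W437.HC Pool.Agent.W437.HD Pool.Agent.TH504.CB Pool.Agent.Y90
open Pool.Agent.H204R3.CM (IsHodge)
open Pool.Agent.W548.Odd hiding cv
open Pool.Agent.W437.HP (cK cK_mul cK_one evalF_ext)

noncomputable section

variable {g : ℕ} {Z : Matrix (Fin g) (Fin g) ℂ} {A : AV} {e : A.H ≃ₗ[ℚ] (Fin g ⊕ Fin g → ℚ)}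

/-- A linear map kills all Hodge classes if its matrix kills all Hodge tensors. -/
theorem kills_of_act {J : Matrix (Fin g ⊕ Fin g) (Fin g ⊕ Fin g) ℝ}
    (hc : Cht (A.per.comp e.symm.toLinearMap.toAddMonoidHom) J) {z : A.H →ₗ[ℚ] A.H}
    (h : ∀ (κ : Type) [Fintype κ] [DecidableEq κ] (q : (κ → Fin g ⊕ Fin g) → ℚ),
      IsH (DJ J) q → act (mE e z) q = 0) : Kills A z := by
  intro X n i hi z' hz' m f hf v
  obtain ⟨Ψ, hΨ⟩ := isoP_hom hi
  have hf' : IsHodge (powAV A (Fin n)).per (f.compLinearMap (isoP hi).toLinearMap) :=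
    isHodge_comp (isoP hi).toLinearMap Ψ hΨ hf
  obtain ⟨f', hf'def⟩ : ∃ f', f' = f.compLinearMap (isoP hi).toLinearMap := ⟨_, rfl⟩
  rw [← hf'def] at hf'
  obtain ⟨v', hv'⟩ : ∃ v' : Fin m → (powAV A (Fin n)).H, v' = fun k => (isoP hi).symm (v k) :=
    ⟨_, rfl⟩
  have hv : ∀ k, isoP hi (v' k) = v k := by
    intro k
    rw [hv']
    exact (isoP hi).apply_symm_apply _
  have hz : ∀ w : (powAV A (Fin n)).H, z' (isoP hi w) = isoP hi (dgI (Fin n) z w) := by
    intro w
    change z' (∑ k, i k ((w : Fin n → A.H) k)) = ∑ k, i k (z ((w : Fin n → A.H) k))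
    rw [map_sum]
    exact Finset.sum_congr rfl fun k _ => hz' k _
  have h1 : ∀ k, f (Function.update v k (z' (v k))) =
      f' (Function.update v' k (dgI (Fin n) z (v' k))) := by
    intro k
    rw [hf'def, AlternatingMap.compLinearMap_apply]
    congr 1
    funext l
    by_cases hl : l = k
    · subst hl
      rw [Function.update_self, Function.update_self, ← hv l, hz]
      rfl
    · rw [Function.update_of_ne hl, Function.update_of_ne hl, ← hv l]
      rfl
  rw [Finset.sum_congr rfl fun k _ => h1 k]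
  have h2 : ∀ k, f' (Function.update v' k (dgI (Fin n) z (v' k))) =
      ∑ φ : Fin m → Fin n, mlQ e φ (cfI e f' φ) (Function.update v' k (dgI (Fin n) z (v' k))) :=
    fun k => form_expand f' _
  rw [Finset.sum_congr rfl fun k _ => h2 k, Finset.sum_comm]
  refine Finset.sum_eq_zero fun φ _ => ?_
  have h3 : ∀ k, mlQ e φ (cfI e f' φ) (Function.update v' k (dgI (Fin n) z (v' k))) =
      evalF (cfI e f' φ) (Function.update (fun l => e (evI A (φ l) (v' l))) k
        (mE e z *ᵥ (e (evI A (φ k) (v' k))))) := by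
    intro k
    rw [mlQ_apply]
    congr 1
    funext l
    by_cases hl : l = k
    · subst hl
      rw [Function.update_self, Function.update_self, ← mE_apply]
      rfl
    · rw [Function.update_of_ne hl, Function.update_of_ne hl]
  rw [Finset.sum_congr rfl fun k _ => h3 k]
  have h4 := evalF_act (mE e z) (cfI e f' φ) (fun l => e (evI A (φ l) (v' l)))
  rw [h _ _ (cfI_isH hc hf' φ)] at h4
  rw [← h4]
  unfold evalF
  refine Finset.sum_eq_zero fun I _ => ?_
  rw [Pi.zero_apply, zero_mul]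

/-- The value of the form of a tensor on vectors in different slots. -/
theorem fmQ_inj {κ ι : Type} [Fintype κ] [DecidableEq κ] [Fintype ι] [DecidableEq ι] {φ : κ → ι}
    (hφ : Function.Injective φ) (q : (κ → Fin g ⊕ Fin g) → ℚ) (w : κ → A.H) :
    fmQ e φ q (fun l => sgI A (φ l) (w l)) = evalF q fun l => e (w l) := by
  unfold fmQ
  rw [MultilinearMap.alternatization_apply, Finset.sum_eq_single 1]
  · rw [Equiv.Perm.sign_one, one_smul, MultilinearMap.domDomCongr_apply, mlQ_apply]
    congr 1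
    funext k
    rw [evI_sgI]
    simp
  · intro σ _ hσ
    obtain ⟨k, hk⟩ : ∃ k, σ k ≠ k := by
      by_contra hcon
      push Not at hcon
      exact hσ (Equiv.ext hcon)
    rw [MultilinearMap.domDomCongr_apply]
    have h1 : mlQ e φ q (fun i => sgI A (φ (σ i)) (w (σ i))) = 0 := by
      unfold mlQ
      rw [MultilinearMap.compLinearMap_apply]
      refine (evalM q).map_coord_zero k ?_
      rw [LinearMap.comp_apply, evI_sgI, if_neg (fun h => hk (hφ h).symm), map_zero]
    rw [h1, smul_zero]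
  · intro h
    exact absurd (Finset.mem_univ _) h

/-- If the class of a tensor is killed then the tensor is killed. -/
theorem act_of_killsClass {z : A.H →ₗ[ℚ] A.H} {m n : ℕ} {φ : Fin m → Fin n}
    (hφ : Function.Injective φ) {q : (Fin m → Fin g ⊕ Fin g) → ℚ}
    (hz : KillsClass (X := powAV A (Fin n)) (fun k => sgI A k) z (fmQ e φ q)) :
    act (mE e z) q = 0 := by
  refine evalF_ext fun x => ?_
  rw [evalF_act]
  have h2 := hz (dgI (Fin n) z) (fun k w => dgI_sgI z k w)
    (fun k => sgI A (φ k) (e.symm (x k)))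
  have h3 : ∀ k : Fin m, evalF q (Function.update x k (mE e z *ᵥ x k)) =
      fmQ e φ q (Function.update (fun k => sgI A (φ k) (e.symm (x k))) k
          (dgI (Fin n) z (sgI A (φ k) (e.symm (x k))))) := by
    intro k
    have h4 : Function.update (fun k => sgI A (φ k) (e.symm (x k))) k
          (dgI (Fin n) z (sgI A (φ k) (e.symm (x k)))) =
        fun l => sgI A (φ l) (e.symm (Function.update x k (mE e z *ᵥ x k) l)) := by
      funext l
      by_cases hl : l = k
      · subst hl
        rw [Function.update_self, Function.update_self, dgI_sgI, mE_mulVec, e.symm_apply_apply]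
      · rw [Function.update_of_ne hl, Function.update_of_ne hl]
    rw [h4, fmQ_inj hφ]
    congr 1
    funext l
    rw [e.apply_symm_apply]
  rw [Finset.sum_congr rfl fun k _ => h3 k, h2]
  symm
  unfold evalF
  refine Finset.sum_eq_zero fun I _ => ?_
  rw [Pi.zero_apply, zero_mul]

/-- The sum of the maps from the slots. -/
def smI {Y : AV} {n : ℕ} (φ : Fin n → (A.H →ₗ[ℚ] Y.H)) : (powAV A (Fin n)).H →ₗ[ℚ] Y.H :=
  ∑ l, (φ l) ∘ₗ (evI A l)

theorem smI_sgI {Y : AV} {n : ℕ} (φ : Fin n → (A.H →ₗ[ℚ] Y.H)) (l : Fin n) (v : A.H) :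
    smI φ (sgI A l v) = φ l v := by
  unfold smI
  rw [LinearMap.sum_apply, Finset.sum_eq_single l]
  · rw [LinearMap.comp_apply, evI_sgI, if_pos rfl]
  · intro j _ hj
    rw [LinearMap.comp_apply, evI_sgI, if_neg hj, map_zero]
  · intro h
    exact absurd (Finset.mem_univ _) h

theorem IsHom.sum {X Y : AV} {ι : Type} (s : Finset ι) (f : ι → (X.H →ₗ[ℚ] Y.H))
    (h : ∀ i, IsHom X Y (f i)) : IsHom X Y (∑ i ∈ s, f i) := by
  choose Ψ hΨ using h
  refine ⟨∑ i ∈ s, Ψ i, fun v => ?_⟩
  rw [LinearMap.sum_apply, LinearMap.sum_apply, map_sum]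
  exact Finset.sum_congr rfl fun i _ => hΨ i v

theorem smI_hom {Y : AV} {n : ℕ} {φ : Fin n → (A.H →ₗ[ℚ] Y.H)} (h : ∀ l, IsHom A Y (φ l)) :
    IsHom (powAV A (Fin n)) Y (smI φ) :=
  IsHom.sum (X := powAV A (Fin n)) _ _ fun l => IsHom.comp (X := powAV A (Fin n)) (h l) (evI_hom l)

/-- The tensors given by Weil classes are killed if the pull-backs of Weil classes are killed. -/
theorem act_of_weilT {z : A.H →ₗ[ℚ] A.H}
    (hz : ∀ (n : ℕ) (Y : AV) (w : Y.H [⋀^Fin n]→ₗ[ℚ] ℚ) (h : (powAV A (Fin n)).H →ₗ[ℚ] Y.H),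
      IsWeil Y w → IsHom (powAV A (Fin n)) Y h →
      KillsClass (X := powAV A (Fin n)) (fun k => sgI A k) z (w.compLinearMap h))
    {κ : Type} [Fintype κ] [DecidableEq κ] {q : (κ → Fin g ⊕ Fin g) → ℚ} (hq : q ∈ WeilT e κ) :
    act (mE e z) q = 0 := by
  obtain ⟨Y, n, w, ψ, φ, hw, hφ, hqI⟩ := hq
  refine evalF_ext fun x => ?_
  rw [evalF_act]
  let F : MultilinearMap ℚ (fun _ : κ => Fin g ⊕ Fin g → ℚ) ℚ :=
    (w.toMultilinearMap.domDomCongr ψ).compLinearMap fun k => (φ k) ∘ₗ e.symm.toLinearMap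
  have hF : ∀ x, F x = w fun l => φ (ψ l) (e.symm (x (ψ l))) := fun x => rfl
  have hev : ∀ x, evalF q x = w fun l => φ (ψ l) (e.symm (x (ψ l))) := by
    intro x
    rw [← hF, multi_eq F x]
    congr 1
    funext I
    exact hqI I
  have h2 := hz n Y w (smI fun l => φ (ψ l)) hw (smI_hom fun l => hφ _) (dgI (Fin n) z)
    (fun k w => dgI_sgI z k w) (fun l => sgI A l (e.symm (x (ψ l))))
  have h3 : ∀ l : Fin n, evalF q (Function.update x (ψ l) (mE e z *ᵥ x (ψ l))) =
      (w.compLinearMap (smI fun l => φ (ψ l))) (Function.update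
        (fun l => sgI A l (e.symm (x (ψ l)))) l (dgI (Fin n) z (sgI A l (e.symm (x (ψ l)))))) := by
    intro l
    rw [hev, AlternatingMap.compLinearMap_apply]
    congr 1
    funext j
    by_cases hj : j = l
    · subst hj
      rw [Function.update_self, Function.update_self, dgI_sgI, smI_sgI, mE_mulVec,
        e.symm_apply_apply]
    · rw [Function.update_of_ne (fun h => hj (ψ.injective h)), Function.update_of_ne hj, smI_sgI]
  rw [← Equiv.sum_comp ψ fun k => evalF q (Function.update x k (mE e z *ᵥ x k)),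
    Finset.sum_congr rfl fun k _ => h3 k, h2]
  symm
  unfold evalF
  refine Finset.sum_eq_zero fun I _ => ?_
  rw [Pi.zero_apply, zero_mul]

end

end Pool.Agent.NH32
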