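import Mathlib
import Pool.Agent.NH32.WlG
import Pool.Agent.NH32.WlT
import Pool.Agent.NH32.WlB

/-!
# Systems containing the divisors: the system of tensors
-/

set_option linter.unusedSectionVars false

namespace Pool.Agent.NH32

open Matrix Module Pool.Agent.W437.HC Pool.Agent.W437.HD Pool.Agent.TH504.CB Pool.Agent.Y90
open Pool.Agent.H204R3.CM (IsHodge)
open Pool.Agent.W548.Odd hiding cv
open Pool.Agent.W437.HP (cK cK_mul cK_one evalF_ext)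

noncomputable section

variable {g : ℕ} {Z : Matrix (Fin g) (Fin g) ℂ} {A : AV} {e : A.H ≃ₗ[ℚ] (Fin g ⊕ Fin g → ℚ)}
  {y yi : Matrix (Fin g ⊕ Fin g) (Fin g ⊕ Fin g) ℝ} {𝒜 : Sys}

/-- The system contains all Hodge classes of degree two. -/
def HasDiv (𝒜 : Sys) : Prop :=
  ∀ (X : AV) (f : X.H [⋀^Fin 2]→ₗ[ℚ] ℚ), IsHodge X.per f → 𝒜.A X (Fin 2) f

theorem HasDiv.gen (h : HasDiv 𝒜) {X : AV} {κ : Type} (ε : κ ≃ Fin 2) (f : X.H [⋀^κ]→ₗ[ℚ] ℚ)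
    (hf : IsHodge X.per f) : 𝒜.A X κ f := by
  have h1 := 𝒜.reindex ε.symm _ (h X _ (isHodge_reindex ε hf))
  have h2 : (f.domDomCongr ε).domDomCongr ε.symm = f := by
    ext v
    rw [AlternatingMap.domDomCongr_apply, AlternatingMap.domDomCongr_apply]
    congr 1
    funext k
    simp
  rwa [h2] at h1

/-- Invariant tensors of degree two belong to the system. -/
theorem TQ_two (hD : HasDiv 𝒜) (hc : Cht (A.per.comp e.symm.toLinearMap.toAddMonoidHom) (JR Z))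
    {κ : Type} [Fintype κ] [DecidableEq κ] (ε : κ ≃ Fin 2) {c : (κ → Fin g ⊕ Fin g) → ℂ}
    (hcI : c ∈ InvL (Lr Z) κ) : c ∈ TQ e 𝒜 κ := by
  rw [mem_TQ]
  have h := mem_InvLr.1 hcI
  obtain ⟨m, z, l, hzl⟩ := tensor_expand c
  have h1 : fm e (id : κ → κ) c = ∑ j, z j • fm e (id : κ → κ) (cst ℂ (fun I => l j (c I))) := by
    conv_lhs => rw [hzl]
    have h2 := map_sum (fmL e (id : κ → κ)) (fun j => z j • cst ℂ (fun I => l j (c I)))
      Finset.univ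
    rw [← fmL_apply, h2]
    refine Finset.sum_congr rfl fun j _ => ?_
    rw [map_smul]
    rfl
  rw [h1]
  refine Submodule.sum_mem _ fun j _ => Submodule.smul_mem _ _ ?_
  rw [← fmQ_cast]
  exact RA_of (X := powAV A κ) (hD.gen ε _ (fmQ_hodge hc id (kill_lam gal_LZ h (l j) _ DZ_mem)))

theorem hom_div (hZ : PM Z) (hD : HasDiv 𝒜)
    (hc : Cht (A.per.comp e.symm.toLinearMap.toAddMonoidHom) (JR Z)) :
    (fun I : Fin 2 → Fin g ⊕ Fin g => Om g ℂ (I 0) (I 1)) ∈ TQ e 𝒜 (Fin 2) :=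
  TQ_two hD hc (Equiv.refl _) (Om_inv IsOm_Om fun _ hN => Lr_sp hZ hN)

theorem hcon_div (hZ : PM Z) (hD : HasDiv 𝒜)
    (hc : Cht (A.per.comp e.symm.toLinearMap.toAddMonoidHom) (JR Z))
    (κ : Type) [Fintype κ] [DecidableEq κ]
    (c : (κ ⊕ Fin 2 → Fin g ⊕ Fin g) → ℂ) (hcT : c ∈ TQ e 𝒜 (κ ⊕ Fin 2)) :
    (fun I : κ → Fin g ⊕ Fin g => ∑ K : Fin 2 → Fin g ⊕ Fin g,
      Om g ℂ (K 0) (K 1) * c (Sum.elim I K)) ∈ TQ e 𝒜 κ := by
  rcases Nat.eq_zero_or_pos g with hg | hg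
  · subst hg
    have h2 : (fun I : κ → Fin 0 ⊕ Fin 0 => ∑ K : Fin 2 → Fin 0 ⊕ Fin 0,
      Om 0 ℂ (K 0) (K 1) * c (Sum.elim I K)) = 0 := by
      funext I
      rw [Pi.zero_apply]
      refine Finset.sum_eq_zero fun K _ => ?_
      rcases K 0 with i | i
      · exact i.elim0
      · exact i.elim0
    rw [h2]
    exact Submodule.zero_mem _
  · have hcard : Fintype.card (Fin (2 * g - 2) ⊕ Fin 2) = Fintype.card (Fin g ⊕ Fin g) := by
      simp only [Fintype.card_sum, Fintype.card_fin]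
      omega
    let f : Fin (2 * g - 2) ⊕ Fin 2 ≃ Fin g ⊕ Fin g := Fintype.equivOfCardEq hcard
    refine TQ_contr IsOm_Om f (TQ_slots ?_ _) hcT
    exact TQ_sp (hom_div hZ hD hc) (bet_inv (L := spL g) IsOm_Om (fun N hN => hN) f)

/-- The system of tensors has the properties of the duality theorem. -/
theorem tan_div (hZ : PM Z) (hD : HasDiv 𝒜)
    (hc : Cht (A.per.comp e.symm.toLinearMap.toAddMonoidHom) (JR Z)) (hy : YD Z y yi) :
    Tan (Oy yi) (TY e 𝒜 Z y yi) :=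
  tan_TY hZ hy (fun κ => hcon_div hZ hD hc κ) (hom_div hZ hD hc)

/-- The group of the system commutes with the commutant. -/
theorem comm_div (hZ : PM Z) (hD : HasDiv 𝒜)
    (hc : Cht (A.per.comp e.symm.toLinearMap.toAddMonoidHom) (JR Z)) (hy : YD Z y yi)
    {u : USp (Oy yi)} (hu : u ∈ Fx (Oy yi) (TY e 𝒜 Z y yi)) : InB (Ly Z y yi) (mt u) := by
  have hO := hy.isOm hZ.det
  have hld := hy.ld hZ
  intro M hM
  have h1 : flat (kp (Fin 1) M * kp (Fin 1) (Oy yi)) ∈ InvL (Ly Z y yi) (Fin 1 ⊕ Fin 1) := by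
    intro X hX
    rw [dm_flat_Om hO (hld.sp X hX), dm_one_eq, ← kp_mul, ← kp_mul, hM X hX, sub_self, zero_mul]
    rfl
  have h2 : flat (kp (Fin 1) M * kp (Fin 1) (Oy yi)) ∈ TY e 𝒜 Z y yi (Fin 1 ⊕ Fin 1) := by
    rw [mem_TY]
    exact ⟨TQ_two hD hc finSumFinEquiv (hy.inv_to h1), h1⟩
  have h3 := hu _ _ h2
  rw [kp_flat_Om hO] at h3
  have h4 := kp_Om_cancel hO (flat_inj h3)
  rw [← kp_mul, ← kp_mul] at h4
  have h5 := kp_one_inj h4
  calc mt u * M = mt u * M * (mt u⁻¹ * mt u) := by rw [mt_inv_mul, mul_one]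
    _ = (mt u * M * mt u⁻¹) * mt u := by noncomm_ring
    _ = M * mt u := by rw [h5]

/-- The system contains all Weil classes. -/
def HasWeil (𝒜 : Sys) : Prop :=
  ∀ (Y : AV) (n : ℕ) (w : Y.H [⋀^Fin n]→ₗ[ℚ] ℚ), IsWeil Y w → 𝒜.A Y (Fin n) w

/-- The relations given by the Weil classes. -/
theorem det_rel (h4 : St_wI) (h5 : St_TQweil) (h7 : St_bas) (hZ : PM Z) (hWl : HasWeil 𝒜)
    (hc : Cht (A.per.comp e.symm.toLinearMap.toAddMonoidHom) (JR Z)) (hy : YD Z y yi)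
    {u : USp (Oy yi)} (hu : u ∈ Fx (Oy yi) (TY e 𝒜 Z y yi)) (huB : InB (Ly Z y yi) (mt u))
    {s : ℕ} {E : Fin s → Matrix (Fin g ⊕ Fin g) (Fin g ⊕ Fin g) ℂ}
    (hE : ∀ i, E i ∈ CM (Lr Z) ∧ E i * E i = E i ∧ ∀ j k, IsAlgebraic ℚ (E i j k))
    (hX : ∀ X ∈ Lr Z, ∑ i, trace (X * E i) = 0) :
    ∏ i, det (mt u * (ph hy).P (E i) + 1 - (ph hy).P (E i)) = 1 := by
  obtain ⟨d, a, ha1, ha2, ha3, ha4, ha5, ha6, ha7⟩ := h7 _ s E (fun i => (hE i).2.1)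
    (fun i => (hE i).2.2)
  have hcomm : ∀ X ∈ Lr Z, ∀ i, X * E i = E i * X := fun X hX i => (hE i).1 X hX
  have h1 : wI a ∈ InvL (Lr Z) (Σ i, Fin (d i)) := by
    intro X hX'
    rw [ha6 X (hcomm X hX'), hX X hX', zero_smul]
  have h2 : ∀ i, ∀ X ∈ Lr Z, ∀ j, X *ᵥ a i j ∈ Submodule.span ℂ (Set.range (a i)) := by
    intro i X hX' j
    have h3 : X *ᵥ a i j = E i *ᵥ (X *ᵥ a i j) := by
      conv_lhs => rw [← ha3 i j]
      rw [mulVec_mulVec, hcomm X hX' i, ← mulVec_mulVec]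
    rw [h3]
    exact ha4 i _
  have h3 := h4 g Z A e hZ hc s d a ha1 ha2 h2 h1
  have h6 : wI a ∈ TQ e 𝒜 (Σ i, Fin (d i)) := by
    refine (Submodule.span_le.2 ?_) h3
    rintro _ ⟨q, hq, rfl⟩
    exact h5 _ A e 𝒜 hWl _ q hq
  have h8 : kp (Σ i, Fin (d i)) (cm y)ᵀ *ᵥ (kp (Σ i, Fin (d i)) (cm yi)ᵀ *ᵥ wI a) = wI a := by
    rw [mulVec_mulVec, ← kp_mul, hy.clT, kp_one, one_mulVec]
  have h9 : kp (Σ i, Fin (d i)) (cm yi)ᵀ *ᵥ wI a ∈ TY e 𝒜 Z y yi (Σ i, Fin (d i)) := by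
    rw [mem_TY]
    refine ⟨by rw [h8]; exact h6, hy.inv_from ?_⟩
    rw [h8]
    exact h1
  obtain ⟨U, hU⟩ := (ph hy).P.surjective (mt u)
  have hUE : ∀ i, U * E i = E i * U := by
    intro i
    refine (ph hy).P.injective ?_
    rw [(ph hy).mul, (ph hy).mul, hU]
    exact huB _ (((ph hy).cm_iff _).2 (hE i).1)
  have h10 := congrArg (fun w => kp (Σ i, Fin (d i)) (cm y)ᵀ *ᵥ w) (hu _ _ h9)
  beta_reduce at h10
  rw [h8, mulVec_mulVec, mulVec_mulVec, ← kp_mul, ← kp_mul] at h10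
  have h11 : (cm y)ᵀ * mt u * (cm yi)ᵀ = U := by
    rw [← hU, ph_apply]
    calc (cm y)ᵀ * ((cm yi)ᵀ * U * (cm y)ᵀ) * (cm yi)ᵀ
        = ((cm y)ᵀ * (cm yi)ᵀ) * U * ((cm y)ᵀ * (cm yi)ᵀ) := by noncomm_ring
      _ = U := by rw [hy.clT, one_mul, mul_one]
  rw [h11, ha7 U hUE] at h10
  have h12 : ∏ i, det (U * E i + 1 - E i) = 1 := by
    have h13 : (∏ i, det (U * E i + 1 - E i) - 1) • wI a = 0 := by
      rw [sub_smul, h10, one_smul, sub_self]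
    exact sub_eq_zero.1 ((smul_eq_zero.1 h13).resolve_right ha5)
  rw [← h12]
  refine Finset.prod_congr rfl fun i _ => ?_
  have h13 : mt u * (ph hy).P (E i) + 1 - (ph hy).P (E i) =
      (cm yi)ᵀ * (U * E i + 1 - E i) * (cm y)ᵀ := by
    rw [← hU, ← (ph hy).mul, ph_apply, ph_apply]
    have h14 : (1 : Matrix (Fin g ⊕ Fin g) (Fin g ⊕ Fin g) ℂ) = (cm yi)ᵀ * 1 * (cm y)ᵀ := by
      rw [mul_one, hy.crT]
    rw [mul_sub, sub_mul, mul_add, add_mul, ← h14]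
  rw [h13, det_mul_right_comm, hy.crT, one_mul]

end

end Pool.Agent.NH32
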