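import Mathlib
import Pool.Agent.NH32.GtD
import Pool.Agent.NH32.GJ11
import Pool.Agent.NH32.GJ17
import Pool.Agent.NH32.WJ7
import Pool.Agent.NH32.WlD

/-!
# Project G, stage 3, job GD13: the relation given by the tensor
-/

set_option linter.unusedSectionVars false

namespace Pool.Agent.NH32

open Matrix Module Pool.Agent.W437.HC Pool.Agent.W437.HD Pool.Agent.TH504.CB Pool.Agent.Y90
open Pool.Agent.H204R3.CM (IsHodge)
open Pool.Agent.W548.Odd hiding cv

noncomputable section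

namespace GD13

section mat

variable {B : Type} [Fintype B] [DecidableEq B]

/-! ### The tensor -/

theorem kp_det {d : ℕ} (P : Fin d → B → ℂ) (M : Matrix B B ℂ) (I : Fin d → B) :
    (kp (Fin d) M *ᵥ WJ7.D P) I = WJ7.D (fun j => M *ᵥ P j) I := by
  have h3 := (detRowAlternating (n := Fin d) (R := ℂ)).toMultilinearMap.map_sum
    (fun k (b : B) => M (I k) b • (fun j => P j b))
  have h4 : detRowAlternating (fun k => ∑ b, M (I k) b • (fun j => P j b)) =
      ∑ r : Fin d → B, detRowAlternating (fun k => M (I k) (r k) • (fun j => P j (r k))) := h3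
  have h6 : ∀ r : Fin d → B, detRowAlternating (fun k => M (I k) (r k) • (fun j => P j (r k))) =
      (∏ k, M (I k) (r k)) * WJ7.D P r := by
    intro r
    have h5 := (detRowAlternating (n := Fin d) (R := ℂ)).toMultilinearMap.map_smul_univ
      (fun k => M (I k) (r k)) (fun k j => P j (r k))
    rw [WJ7.D_eq]
    exact h5
  have h7 : detRowAlternating (fun k => ∑ b, M (I k) b • (fun j => P j b)) =
      WJ7.D (fun j => M *ᵥ P j) I := by
    rw [WJ7.D_eq]
    unfold det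
    congr 1
    ext k j
    simp only [Finset.sum_apply, Pi.smul_apply, smul_eq_mul, of_apply]
    rfl
  rw [← h7, h4, mvA]
  refine Finset.sum_congr rfl fun r _ => ?_
  rw [h6, kp_apply]

theorem kp_pr {d : ℕ} (f : Fin d → B → ℂ) (M : Matrix B B ℂ) (I : Fin d → B) :
    (kp (Fin d) M *ᵥ fun J : Fin d → B => ∏ j, f j (J j)) I = ∏ j, (M *ᵥ f j) (I j) := by
  rw [mvA]
  simp only [mvA]
  rw [Finset.prod_univ_sum, Fintype.piFinset_univ]
  refine Finset.sum_congr rfl fun J _ => ?_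
  rw [kp_apply, ← Finset.prod_mul_distrib]

theorem kp_dT {d : ℕ} (P f : Fin d → B → ℂ) (M : Matrix B B ℂ) :
    kp (Fin d ⊕ Fin d) M *ᵥ dT P f = dT (fun j => M *ᵥ P j) (fun j => M *ᵥ f j) := by
  funext I
  have h1 := kp_prod M (WJ7.D P) (fun J : Fin d → B => ∏ j, f j (J j)) I
  rw [kp_det, kp_pr] at h1
  exact h1

/-! ### Closure under brackets -/

/-- the matrices which kill a tensor -/
def kil {κ : Type} [Fintype κ] [DecidableEq κ] (t : (κ → B) → ℂ) : Submodule ℂ (Matrix B B ℂ) where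
  carrier := {X | dm κ X *ᵥ t = 0}
  add_mem' := by
    intro a b ha hb
    change dm κ (a + b) *ᵥ t = 0
    rw [dm_add, add_mulVec, show dm κ a *ᵥ t = 0 from ha, show dm κ b *ᵥ t = 0 from hb, add_zero]
  zero_mem' := by
    change dm κ 0 *ᵥ t = 0
    rw [dm_zero, zero_mulVec]
  smul_mem' := by
    intro c a ha
    change dm κ (c • a) *ᵥ t = 0
    rw [dm_smul, smul_mulVec, show dm κ a *ᵥ t = 0 from ha, smul_zero]

theorem kil_br {κ : Type} [Fintype κ] [DecidableEq κ] {t : (κ → B) → ℂ} {X Y : Matrix B B ℂ}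
    (hX : X ∈ kil t) (hY : Y ∈ kil t) : X * Y - Y * X ∈ kil t := by
  change dm κ (X * Y - Y * X) *ᵥ t = 0
  rw [dm_bracket, sub_mulVec, ← mulVec_mulVec, ← mulVec_mulVec,
    show dm κ X *ᵥ t = 0 from hX, show dm κ Y *ᵥ t = 0 from hY, mulVec_zero, mulVec_zero, sub_zero]

/-- the matrices which commute with a matrix -/
def cen (T : Matrix B B ℂ) : Submodule ℂ (Matrix B B ℂ) where
  carrier := {X | X * T = T * X}
  add_mem' := by
    intro a b ha hb
    change (a + b) * T = T * (a + b)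
    rw [add_mul, mul_add, show a * T = T * a from ha, show b * T = T * b from hb]
  zero_mem' := by
    change 0 * T = T * 0
    rw [zero_mul, mul_zero]
  smul_mem' := by
    intro c a ha
    change (c • a) * T = T * (c • a)
    rw [Matrix.smul_mul, Matrix.mul_smul, show a * T = T * a from ha]

theorem cen_br {T X Y : Matrix B B ℂ} (hX : X ∈ cen T) (hY : Y ∈ cen T) :
    X * Y - Y * X ∈ cen T := by
  have hX' : X * T = T * X := hX
  have hY' : Y * T = T * Y := hY
  change (X * Y - Y * X) * T = T * (X * Y - Y * X)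
  have e1 : X * Y * T = T * (X * Y) := by rw [mul_assoc, hY', ← mul_assoc, hX', mul_assoc]
  have e2 : Y * X * T = T * (Y * X) := by rw [mul_assoc, hX', ← mul_assoc, hY', mul_assoc]
  rw [sub_mul, mul_sub, e1, e2]

/-- the members of `L` on which the sum of the traces vanishes -/
def trz (L : Submodule ℂ (Matrix B B ℂ)) {d : ℕ} (ε : Matrix B B ℂ) (F : Fin d → Matrix B B ℂ) :
    Submodule ℂ (Matrix B B ℂ) where
  carrier := {X | X ∈ L ∧ trace (X * ε) + ∑ j, fc (F j) X = 0}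
  add_mem' := by
    rintro a b ⟨ha, ha'⟩ ⟨hb, hb'⟩
    refine ⟨L.add_mem ha hb, ?_⟩
    have e : ∀ j, fc (F j) (a + b) = fc (F j) a + fc (F j) b := by
      intro j
      unfold fc
      rw [add_mul, trace_add, add_div]
    simp only [e]
    rw [add_mul, trace_add, Finset.sum_add_distrib]
    linear_combination ha' + hb'
  zero_mem' := by
    refine ⟨L.zero_mem, ?_⟩
    unfold fc
    simp
  smul_mem' := by
    rintro c a ⟨ha, ha'⟩
    refine ⟨L.smul_mem c ha, ?_⟩
    have e : ∀ j, fc (F j) (c • a) = c * fc (F j) a := by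
      intro j
      unfold fc
      rw [Matrix.smul_mul, trace_smul, smul_eq_mul, mul_div_assoc]
    simp only [e]
    rw [Matrix.smul_mul, trace_smul, ← Finset.mul_sum, smul_eq_mul, ← mul_add, ha', mul_zero]

theorem trace_br {ε X Y : Matrix B B ℂ} (hX : X * ε = ε * X) :
    trace ((X * Y - Y * X) * ε) = 0 := by
  have e1 : (X * Y - Y * X) * ε = X * (Y * ε) - (Y * ε) * X := by
    rw [sub_mul, mul_assoc Y X ε, hX]
    noncomm_ring
  rw [e1, trace_sub, trace_mul_comm, sub_self]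

/-! ### The projection onto a line -/

/-- the rank one idempotent -/
def rk (q : B → ℂ) : Matrix B B ℂ := (star q ⬝ᵥ q)⁻¹ • vecMulVec q (star q)

open scoped ComplexOrder in
theorem nq {q : B → ℂ} (hq : q ≠ 0) : star q ⬝ᵥ q ≠ 0 := fun h =>
  hq (dotProduct_star_self_eq_zero.1 h)

theorem vmv (a b x : B → ℂ) : vecMulVec a b *ᵥ x = (b ⬝ᵥ x) • a := by
  funext i
  rw [mvA, Pi.smul_apply, smul_eq_mul, dotProduct, Finset.sum_mul]
  refine Finset.sum_congr rfl fun j _ => ?_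
  rw [vecMulVec_apply]
  ring

theorem rk_mulVec (q x : B → ℂ) : rk q *ᵥ x = ((star q ⬝ᵥ q)⁻¹ * (star q ⬝ᵥ x)) • q := by
  unfold rk
  rw [smul_mulVec, vmv, smul_smul]

theorem rk_self {q : B → ℂ} (hq : q ≠ 0) : rk q *ᵥ q = q := by
  rw [rk_mulVec, inv_mul_cancel₀ (nq hq), one_smul]

theorem rk_herm (q : B → ℂ) : (rk q)ᴴ = rk q := by
  unfold rk
  rw [conjTranspose_smul, conjTranspose_vecMulVec, star_star, star_inv₀]
  congr 2
  rw [← star_dotProduct_star, star_star, dotProduct_comm]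

theorem rk_trace {q : B → ℂ} (hq : q ≠ 0) : trace (rk q) = 1 := by
  unfold rk
  rw [trace_smul, smul_eq_mul, trace_vecMulVec, dotProduct_comm q (star q), inv_mul_cancel₀ (nq hq)]

theorem rk_cor (q : B → ℂ) (M : Matrix B B ℂ) : ∃ c : ℂ, rk q * M * rk q = c • rk q := by
  refine ⟨(star q ⬝ᵥ q)⁻¹ * (star q ⬝ᵥ (M *ᵥ q)), GJ17.ext_mulVec fun x => ?_⟩
  rw [← mulVec_mulVec, ← mulVec_mulVec, smul_mulVec, rk_mulVec q x, mulVec_smul, mulVec_smul,
    rk_mulVec q (M *ᵥ q), smul_comm]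

theorem rk_idem {q : B → ℂ} (hq : q ≠ 0) : rk q * rk q = rk q := by
  refine GJ17.ext_mulVec fun x => ?_
  rw [← mulVec_mulVec, rk_mulVec q x, mulVec_smul, rk_self hq]

/-- Lines. -/
theorem li_of {L : Submodule ℂ (Matrix B B ℂ)} (hadj : ∀ X ∈ L, Xᴴ ∈ L)
    {q : B → ℂ} (hq : q ≠ 0) (hE : L ≤ GJ17.St (Submodule.span ℂ {q})) : Li L (rk q) := by
  have h1 : rk q ∈ CM L := by
    refine GJ17.proj_comm hadj hE (rk_herm q) (fun x => ?_) (fun x hx => ?_)
    · rw [rk_mulVec]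
      exact Submodule.smul_mem _ _ (Submodule.mem_span_singleton_self q)
    · obtain ⟨c, rfl⟩ := Submodule.mem_span_singleton.1 hx
      rw [mulVec_smul, rk_self hq]
  refine ⟨⟨h1, rk_idem hq, rk_herm q, ?_, fun M _ => rk_cor q M⟩, rk_trace hq⟩
  intro h0
  have h2 := rk_trace hq
  rw [h0, trace_zero] at h2
  exact zero_ne_one h2

theorem col {d : ℕ} {M : Matrix B B ℂ} {R : Matrix B (Fin d) ℂ} {C : Matrix (Fin d) (Fin d) ℂ}
    (h : M * R = R * C) (i : Fin d) :
    M *ᵥ (fun b => R b i) = ∑ k, C k i • (fun b => R b k) := by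
  funext b
  have h1 := congrFun (congrFun h b) i
  rw [Matrix.mul_apply, Matrix.mul_apply] at h1
  rw [mvA, h1, Finset.sum_apply]
  refine Finset.sum_congr rfl fun k _ => ?_
  rw [Pi.smul_apply, smul_eq_mul, mul_comm]

end mat

section coo

variable {g : ℕ} {X : AV} {e : X.H ≃ₗ[ℚ] (Fin g ⊕ Fin g → ℚ)} {Z : Matrix (Fin g) (Fin g) ℂ}
  {y yi : Matrix (Fin g ⊕ Fin g) (Fin g ⊕ Fin g) ℝ}

theorem cof_ne (hy : YD Z y yi) {f : X.H →ₗ[ℚ] ℂ} (hf : f ≠ 0) :
    (cm yi)ᵀ *ᵥ cof e f ≠ 0 := by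
  intro h0
  apply hf
  have h1 := congrArg (fun v => (cm y)ᵀ *ᵥ v) h0
  beta_reduce at h1
  rw [mulVec_mulVec, hy.clT, one_mulVec, mulVec_zero] at h1
  apply (GJ17.ce e).injective
  rw [map_zero]
  exact h1

theorem cof_li (hy : YD Z y yi) {d : ℕ} {P' : Fin d → (X.H →ₗ[ℚ] ℂ)}
    (hP' : LinearIndependent ℂ P') : LinearIndependent ℂ fun j => (cm yi)ᵀ *ᵥ cof e (P' j) := by
  let Φ : (X.H →ₗ[ℚ] ℂ) →ₗ[ℂ] (Fin g ⊕ Fin g → ℂ) :=
    (mulVecLin (cm yi)ᵀ).comp (GJ17.ce e).toLinearMap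
  have hk : LinearMap.ker Φ = ⊥ := by
    rw [LinearMap.ker_eq_bot']
    intro m hm
    by_contra hne
    exact cof_ne (e := e) hy hne hm
  exact hP'.map' Φ hk

end coo

end GD13

open GD13 in
/-- **GD13.** The relation given by the tensor. -/
theorem dlM_of (h : St_dT) : St_dlM := by
  intro g Z X e y yi hZ hC hy 𝒜 hdiv u hu ε hε d P Q hPQ hQP Δ' s hIso htr P' f hP' hf hDP hDf hT
  have hgen := GJ17.Ly_le hy
  have hD := GJ17.Dy_mem hy
  have hadj := (hy.ld hZ).adj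
  have hbr := (hy.ld hZ).br
  have hcomm : InB (Ly Z y yi) (mt u) := comm_div hZ hdiv hC hy hu
  obtain ⟨G, Gi, hG1, hG2, hG⟩ := hIso
  have hG' : ∀ σ, Q * Dy Z y yi σ * P * G = G * Δ' σ := hG
  -- the coordinates
  obtain ⟨p, hp⟩ : ∃ p : Fin d → (Fin g ⊕ Fin g → ℂ), p = fun j => (cm yi)ᵀ *ᵥ cof e (P' j) :=
    ⟨_, rfl⟩
  obtain ⟨q, hq⟩ : ∃ q : Fin d → (Fin g ⊕ Fin g → ℂ), q = fun j => (cm yi)ᵀ *ᵥ cof e (f j) :=
    ⟨_, rfl⟩
  have hpli : LinearIndependent ℂ p := by rw [hp]; exact cof_li hy hP'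
  have hq0 : ∀ j, q j ≠ 0 := fun j => by rw [hq]; exact cof_ne hy (hf j)
  obtain ⟨R, hR⟩ : ∃ R, R = GJ17.pm e yi P' := ⟨_, rfl⟩
  have hRp : ∀ j, (fun b => R b j) = p j := fun j => by rw [hR, hp]; rfl
  have hDR : ∀ σ, Dy Z y yi σ * R = R * Δ' σ := fun σ => by
    rw [hR]
    exact (GJ17.pm_iff e coo_of hZ hC hy P' σ (Δ' σ)).1 (hDP σ)
  have hDq : ∀ σ j, Dy Z y yi σ *ᵥ q j = (-s j σ : ℂ) • q j := by
    intro σ j
    have h1 := (GJ17.isD_iff e coo_of hZ hC hy σ (f j) ((-s j σ : ℂ) • f j)).1 (hDf σ j)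
    rw [hq]
    beta_reduce
    rw [← h1]
    have h2 : cof e ((-s j σ : ℂ) • f j) = (-s j σ : ℂ) • cof e (f j) := rfl
    rw [h2, mulVec_smul]
  obtain ⟨h1, h2⟩ := h (Fin g ⊕ Fin g) d p q hpli hq0
  -- the traces
  have htr' : ∀ σ, trace (Δ' σ) = ∑ j, (s j σ : ℂ) := by
    intro σ
    have h3 : Δ' σ = Gi * (Q * Dy Z y yi σ * P * G) := by
      rw [hG', ← Matrix.mul_assoc, hG2, Matrix.one_mul]
    rw [h3, trace_mul_comm, Matrix.mul_assoc _ G Gi, hG1, Matrix.mul_one, htr]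
  -- the tensor is invariant
  have hcolD : ∀ σ i, Dy Z y yi σ *ᵥ p i = ∑ k, Δ' σ k i • p k := by
    intro σ i
    have h3 := col (hDR σ) i
    simp only [hRp] at h3
    exact h3
  have hinv : dT p q ∈ InvL (Ly Z y yi) (Fin d ⊕ Fin d) := by
    intro Y hY
    refine hgen (kil (dT p q)) (fun σ => ?_) (fun X hX Y hY => kil_br hX hY) hY
    change dm (Fin d ⊕ Fin d) (Dy Z y yi σ) *ᵥ dT p q = 0
    rw [(h2 (Dy Z y yi σ) (Δ' σ) (fun j => (-s j σ : ℂ)) (hcolD σ) (hDq σ)).2, htr',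
      Finset.sum_neg_distrib, add_neg_cancel, zero_smul]
  have hTY : dT p q ∈ TY e 𝒜 Z y yi (Fin d ⊕ Fin d) := by
    rw [mem_TY]
    refine ⟨?_, hinv⟩
    rw [kp_dT]
    have e1 : (fun j => (cm y)ᵀ *ᵥ p j) = fun j => cof e (P' j) := by
      funext j
      rw [hp]
      beta_reduce
      rw [mulVec_mulVec, hy.clT, one_mulVec]
    have e2 : (fun j => (cm y)ᵀ *ᵥ q j) = fun j => cof e (f j) := by
      funext j
      rw [hq]
      beta_reduce
      rw [mulVec_mulVec, hy.clT, one_mulVec]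
    rw [e1, e2]
    exact hT
  have hfix : kp (Fin d ⊕ Fin d) (mt u) *ᵥ dT p q = dT p q := hu _ _ hTY
  -- the lines
  have hLi : ∀ j, Li (Ly Z y yi) (rk (q j)) := by
    intro j
    refine li_of hadj (hq0 j) (hgen _ (fun σ => ?_) (fun X hX Y hY => GJ17.St_br hX hY))
    intro x hx
    obtain ⟨c, rfl⟩ := Submodule.mem_span_singleton.1 hx
    rw [mulVec_smul, hDq]
    exact Submodule.smul_mem _ _ (Submodule.smul_mem _ _ (Submodule.mem_span_singleton_self _))
  have hb : ∀ j, ∃ b : ℂ, mt u * rk (q j) = b • rk (q j) := by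
    intro j
    obtain ⟨c, hc⟩ := rk_cor (q j) (mt u)
    refine ⟨c, ?_⟩
    rw [← hc, ← hcomm _ (hLi j).1.1, Matrix.mul_assoc, rk_idem (hq0 j)]
  choose b hb using hb
  have hbq : ∀ j, mt u *ᵥ q j = b j • q j := by
    intro j
    have h3 := congrArg (fun M => M *ᵥ q j) (hb j)
    beta_reduce at h3
    rwa [← mulVec_mulVec, smul_mulVec, rk_self (hq0 j)] at h3
  -- the intertwining matrix
  have hεc : ∀ Y ∈ Ly Z y yi, Y * ε = ε * Y := hε.1
  have hGiD : ∀ σ, Gi * (Q * Dy Z y yi σ * P) = Δ' σ * Gi := by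
    intro σ
    calc Gi * (Q * Dy Z y yi σ * P) = Gi * (Q * Dy Z y yi σ * P * G) * Gi := by
          rw [Matrix.mul_assoc Gi, Matrix.mul_assoc _ G Gi, hG1, Matrix.mul_one]
      _ = Δ' σ * Gi := by rw [hG', ← Matrix.mul_assoc, hG2, Matrix.one_mul]
  have hT1 : R * Gi * Q ∈ CM (Ly Z y yi) := by
    intro Y hY
    refine hgen (cen (R * Gi * Q)) (fun σ => ?_) (fun X hX Y hY => cen_br hX hY) hY
    change Dy Z y yi σ * (R * Gi * Q) = R * Gi * Q * Dy Z y yi σ
    have hQε : Q * ε = Q := by rw [← hPQ, ← Matrix.mul_assoc, hQP, Matrix.one_mul]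
    calc Dy Z y yi σ * (R * Gi * Q) = Dy Z y yi σ * R * Gi * Q := by
          simp only [Matrix.mul_assoc]
      _ = R * (Δ' σ * Gi) * Q := by rw [hDR]; simp only [Matrix.mul_assoc]
      _ = R * Gi * (Q * (Dy Z y yi σ * (P * Q))) := by rw [← hGiD]; simp only [Matrix.mul_assoc]
      _ = R * Gi * (Q * ε * Dy Z y yi σ) := by
          rw [hPQ, hεc _ (hD σ)]; simp only [Matrix.mul_assoc]
      _ = R * Gi * Q * Dy Z y yi σ := by rw [hQε]; simp only [Matrix.mul_assoc]
  have huε : mt u * ε = ε * mt u := hcomm _ hε.1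
  have hεP : ε * P = P := by rw [← hPQ, Matrix.mul_assoc, hQP, Matrix.mul_one]
  have huP : mt u * P = P * (Q * mt u * P) := by
    calc mt u * P = mt u * ε * P := by rw [Matrix.mul_assoc, hεP]
      _ = ε * mt u * P := by rw [huε]
      _ = P * (Q * mt u * P) := by rw [← hPQ]; simp only [Matrix.mul_assoc]
  have hRT : R * Gi * Q * (P * G) = R := by
    calc R * Gi * Q * (P * G) = R * Gi * (Q * P) * G := by simp only [Matrix.mul_assoc]
      _ = R * (Gi * G) := by rw [hQP, Matrix.mul_one, Matrix.mul_assoc]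
      _ = R := by rw [hG2, Matrix.mul_one]
  have huR : mt u * R = R * (Gi * (Q * mt u * P) * G) := by
    calc mt u * R = mt u * (R * Gi * Q) * (P * G) := by
          rw [Matrix.mul_assoc (mt u), hRT]
      _ = (R * Gi * Q) * (mt u * P) * G := by
          rw [hcomm _ hT1]; simp only [Matrix.mul_assoc]
      _ = R * Gi * (Q * P) * (Q * mt u * P) * G := by rw [huP]; simp only [Matrix.mul_assoc]
      _ = R * (Gi * (Q * mt u * P) * G) := by
          rw [hQP, Matrix.mul_one]; simp only [Matrix.mul_assoc]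
  have hcolu : ∀ i, mt u *ᵥ p i = ∑ k, (Gi * (Q * mt u * P) * G) k i • p k := by
    intro i
    have h3 := col huR i
    simp only [hRp] at h3
    exact h3
  have hdet : det (Gi * (Q * mt u * P) * G) = det (mt u * ε + 1 - ε) := by
    rw [det_mul, det_mul, mul_comm, ← mul_assoc, ← det_mul, hG1, det_one, one_mul,
      WJ7.detC hPQ hQP]
  refine ⟨fun j => rk (q j), b, fun j => ⟨hLi j, hb j⟩, ?_, ?_⟩
  · intro Y hY
    have h3 : Ly Z y yi ≤ trz (Ly Z y yi) ε (fun j => rk (q j)) := by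
      refine hgen _ (fun σ => ⟨hD σ, ?_⟩) ?_
      · have e1 : trace (Dy Z y yi σ * ε) = ∑ j, (s j σ : ℂ) := by
          rw [← htr, ← hPQ, ← Matrix.mul_assoc, trace_mul_comm, Matrix.mul_assoc]
        have e2 : ∀ j, fc (rk (q j)) (Dy Z y yi σ) = -(s j σ : ℂ) := by
          intro j
          have e3 : Dy Z y yi σ * rk (q j) = (-s j σ : ℂ) • rk (q j) := by
            refine GJ17.ext_mulVec fun x => ?_
            rw [← mulVec_mulVec, rk_mulVec, mulVec_smul, hDq, smul_mulVec, rk_mulVec, smul_comm]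
          unfold fc
          rw [e3, trace_smul, rk_trace (hq0 j), smul_eq_mul, mul_one, div_one]
        simp only [e2]
        rw [e1, Finset.sum_neg_distrib, add_neg_cancel]
      · rintro X ⟨hX, -⟩ Y ⟨hY, -⟩
        refine ⟨hbr _ hX _ hY, ?_⟩
        rw [trace_br (hεc X hX), zero_add]
        refine Finset.sum_eq_zero fun j _ => ?_
        unfold fc
        rw [trace_br ((hLi j).1.1 X hX), zero_div]
    exact (h3 hY).2
  · have h3 := (h2 (mt u) (Gi * (Q * mt u * P) * G) b hcolu hbq).1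
    rw [hfix, hdet] at h3
    by_contra hne
    have h4 : ((det (mt u * ε + 1 - ε) * ∏ j, b j) - 1) • dT p q = 0 := by
      rw [sub_smul, one_smul, ← h3, sub_self]
    rcases smul_eq_zero.1 h4 with h5 | h5
    · exact hne (sub_eq_zero.1 h5)
    · exact h1 h5

end

end Pool.Agent.NH32
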