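import Mathlib
import Pool.Agent.NH32.GtB
import Pool.Agent.Y90.Tori

/-!
# Project G, stage 2: abelian varieties from matrices (K1)
-/

set_option linter.unusedSectionVars false

namespace Pool.Agent.NH32

open Matrix Module Pool.Agent.W437.HC Pool.Agent.W437.HD Pool.Agent.TH504.CB Pool.Agent.Y90
open Pool.Agent.W437.HP (cK)

noncomputable section

namespace GK1

variable {N : ℕ}

/-- The complex matrix. -/
abbrev cJ (J : Matrix (Fin N) (Fin N) ℝ) : Matrix (Fin N) (Fin N) ℂ :=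
  J.map (fun x : ℝ => (x : ℂ))

/-- The complex vector of a real vector. -/
def cr (x : Fin N → ℝ) : Fin N → ℂ := fun i => (x i : ℂ)

theorem cr_apply (x : Fin N → ℝ) (i : Fin N) : cr x i = (x i : ℂ) := rfl

theorem cr_add (x y : Fin N → ℝ) : cr (x + y) = cr x + cr y := by
  funext i
  simp [cr]

theorem cr_neg (x : Fin N → ℝ) : cr (-x) = -cr x := by
  funext i
  simp [cr]

theorem cr_smul (a : ℝ) (x : Fin N → ℝ) : cr (a • x) = (a : ℂ) • cr x := by
  funext i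
  simp [cr]

theorem cJ_cr (J : Matrix (Fin N) (Fin N) ℝ) (x : Fin N → ℝ) : cJ J *ᵥ cr x = cr (J *ᵥ x) := by
  funext i
  simp [cr, mulVec, dotProduct]

theorem sqv {J : Matrix (Fin N) (Fin N) ℝ} (hJ : J * J = -1) (x : Fin N → ℝ) :
    J *ᵥ (J *ᵥ x) = -x := by
  rw [mulVec_mulVec, hJ, neg_mulVec, one_mulVec]

/-- The tangent space. -/
def TJ (J : Matrix (Fin N) (Fin N) ℝ) : Submodule ℂ (Fin N → ℂ) where
  carrier := {x | cJ J *ᵥ x = Complex.I • x}
  add_mem' := by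
    intro x y hx hy
    change cJ J *ᵥ (x + y) = Complex.I • (x + y)
    rw [mulVec_add, smul_add, show cJ J *ᵥ x = _ from hx, show cJ J *ᵥ y = _ from hy]
  zero_mem' := by
    change cJ J *ᵥ 0 = Complex.I • 0
    rw [mulVec_zero, smul_zero]
  smul_mem' := by
    intro c x hx
    change cJ J *ᵥ (c • x) = Complex.I • (c • x)
    rw [mulVec_smul, show cJ J *ᵥ x = _ from hx, smul_comm]

theorem PJ_mem {J : Matrix (Fin N) (Fin N) ℝ} (hJ : J * J = -1) (x : Fin N → ℝ) :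
    cr x - Complex.I • cr (J *ᵥ x) ∈ TJ J := by
  change cJ J *ᵥ (cr x - Complex.I • cr (J *ᵥ x)) = Complex.I • (cr x - Complex.I • cr (J *ᵥ x))
  rw [mulVec_sub, mulVec_smul, cJ_cr, cJ_cr, sqv hJ, cr_neg, smul_neg, sub_neg_eq_add, smul_sub,
    smul_smul, Complex.I_mul_I, neg_smul, one_smul, sub_neg_eq_add, add_comm]

/-- The isomorphism of the real space with the tangent space. -/
def PJ {J : Matrix (Fin N) (Fin N) ℝ} (hJ : J * J = -1) : (Fin N → ℝ) →ₗ[ℝ] TJ J where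
  toFun x := ⟨cr x - Complex.I • cr (J *ᵥ x), PJ_mem hJ x⟩
  map_add' x y := by
    apply Subtype.ext
    change cr (x + y) - Complex.I • cr (J *ᵥ (x + y)) =
      (cr x - Complex.I • cr (J *ᵥ x)) + (cr y - Complex.I • cr (J *ᵥ y))
    rw [mulVec_add, cr_add, cr_add, smul_add]
    abel
  map_smul' a x := by
    apply Subtype.ext
    change cr (a • x) - Complex.I • cr (J *ᵥ (a • x)) =
      a • (cr x - Complex.I • cr (J *ᵥ x))
    rw [mulVec_smul, cr_smul, cr_smul, smul_sub]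
    funext i
    simp only [Pi.sub_apply, Pi.smul_apply, smul_eq_mul, Complex.real_smul]
    ring

/-- The real part. -/
def IJ (J : Matrix (Fin N) (Fin N) ℝ) : TJ J →ₗ[ℝ] (Fin N → ℝ) where
  toFun t := fun i => ((t : Fin N → ℂ) i).re
  map_add' s t := by
    funext i
    change ((s : Fin N → ℂ) i + (t : Fin N → ℂ) i).re = _
    rw [Complex.add_re]
    rfl
  map_smul' a t := by
    funext i
    change ((a : ℝ) • ((t : Fin N → ℂ) i)).re = _
    rw [Complex.real_smul, Complex.re_ofReal_mul]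
    rfl

theorem IJ_PJ {J : Matrix (Fin N) (Fin N) ℝ} (hJ : J * J = -1) (x : Fin N → ℝ) :
    IJ J (PJ hJ x) = x := by
  funext i
  change ((cr x - Complex.I • cr (J *ᵥ x)) i).re = x i
  rw [Pi.sub_apply, Pi.smul_apply, smul_eq_mul, cr_apply, cr_apply]
  simp

theorem re_cr (x : Fin N → ℂ) : x = cr (fun i => (x i).re) + Complex.I • cr (fun i => (x i).im) := by
  funext i
  simp only [Pi.add_apply, Pi.smul_apply, smul_eq_mul, cr_apply]
  rw [mul_comm, Complex.re_add_im]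

theorem re_mem {J : Matrix (Fin N) (Fin N) ℝ} {x : Fin N → ℂ} (hx : x ∈ TJ J) :
    J *ᵥ (fun i => (x i).re) = -(fun i => (x i).im) := by
  have h1 : cJ J *ᵥ x = Complex.I • x := hx
  rw [re_cr x, mulVec_add, mulVec_smul, cJ_cr, cJ_cr] at h1
  funext i
  have h2 := congrArg Complex.re (congrFun h1 i)
  simp only [Pi.add_apply, Pi.smul_apply, smul_eq_mul, cr_apply] at h2
  simpa using h2

theorem PJ_IJ {J : Matrix (Fin N) (Fin N) ℝ} (hJ : J * J = -1) (t : TJ J) :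
    PJ hJ (IJ J t) = t := by
  apply Subtype.ext
  change cr (fun i => ((t : Fin N → ℂ) i).re) -
    Complex.I • cr (J *ᵥ (fun i => ((t : Fin N → ℂ) i).re)) = (t : Fin N → ℂ)
  rw [re_mem t.2, cr_neg, smul_neg, sub_neg_eq_add, ← re_cr]

theorem PJ_J {J : Matrix (Fin N) (Fin N) ℝ} (hJ : J * J = -1) (x : Fin N → ℝ) :
    PJ hJ (J *ᵥ x) = Complex.I • PJ hJ x := by
  apply Subtype.ext
  change cr (J *ᵥ x) - Complex.I • cr (J *ᵥ (J *ᵥ x)) =
    Complex.I • (cr x - Complex.I • cr (J *ᵥ x))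
  rw [sqv hJ, cr_neg, smul_neg, sub_neg_eq_add, smul_sub, smul_smul, Complex.I_mul_I, neg_smul,
    one_smul, sub_neg_eq_add, add_comm]

/-- The periods. -/
def pJ {J : Matrix (Fin N) (Fin N) ℝ} (hJ : J * J = -1) : (Fin N → ℚ) →+ TJ J where
  toFun w := PJ hJ (fun i => ((w i : ℚ) : ℝ))
  map_zero' := by
    have h1 : (fun i => (((0 : Fin N → ℚ) i : ℚ) : ℝ)) = 0 := by
      funext i
      simp
    rw [h1, map_zero]
  map_add' v w := by
    have h1 : (fun i => (((v + w) i : ℚ) : ℝ)) =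
        (fun i => ((v i : ℚ) : ℝ)) + fun i => ((w i : ℚ) : ℝ) := by
      funext i
      simp
    rw [h1, map_add]

theorem cht {J : Matrix (Fin N) (Fin N) ℝ} (hJ : J * J = -1) : Cht (pJ hJ) J :=
  ⟨hJ, PJ hJ, IJ J, fun _ => rfl, PJ_J hJ, IJ_PJ hJ, PJ_IJ hJ⟩

theorem f_eq (f : (Fin N → ℚ) →ₗ[ℚ] ℂ) (w : Fin N → ℚ) :
    f w = (fun b => f (Pi.single b 1)) ⬝ᵥ cr (fun i => ((w i : ℚ) : ℝ)) := by
  have h1 : w = ∑ i, w i • (Pi.single i 1 : Fin N → ℚ) := by
    funext j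
    simp [Finset.sum_apply, Pi.single_apply]
  conv_lhs => rw [h1, map_sum]
  unfold dotProduct
  refine Finset.sum_congr rfl fun i _ => ?_
  rw [map_smul, Rat.smul_def, mul_comm, cr_apply, Complex.ofReal_ratCast]

theorem cJ_dot (J : Matrix (Fin N) (Fin N) ℝ) (c x : Fin N → ℂ) :
    c ⬝ᵥ (cJ J *ᵥ x) = ((cJ J)ᵀ *ᵥ c) ⬝ᵥ x := by
  rw [dotProduct_mulVec, mulVec_transpose]

/-- The linear form on the tangent space. -/
def lJ (J : Matrix (Fin N) (Fin N) ℝ) (c : Fin N → ℂ) : TJ J →ₗ[ℂ] ℂ where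
  toFun t := (1 / 2) * (c ⬝ᵥ (t : Fin N → ℂ))
  map_add' s t := by
    change (1 / 2) * (c ⬝ᵥ ((s : Fin N → ℂ) + (t : Fin N → ℂ))) = _
    rw [dotProduct_add]
    ring
  map_smul' a t := by
    change (1 / 2) * (c ⬝ᵥ (a • (t : Fin N → ℂ))) = a * _
    rw [dotProduct_smul, smul_eq_mul]
    ring

theorem col_eq (J : Matrix (Fin N) (Fin N) ℝ) (b : Fin N) :
    J *ᵥ (Pi.single b 1) = ∑ a, J a b • (Pi.single a 1 : Fin N → ℝ) := by
  funext i
  rw [mulVec_single_one]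
  simp [Finset.sum_apply, Pi.single_apply]

theorem main {J : Matrix (Fin N) (Fin N) ℝ} (hJ : J * J = -1) (f : (Fin N → ℚ) →ₗ[ℚ] ℂ) :
    (∃ l : TJ J →ₗ[ℂ] ℂ, ∀ w, f w = l (pJ hJ w)) ↔
      (cJ J)ᵀ *ᵥ (fun b => f (Pi.single b 1)) = Complex.I • fun b => f (Pi.single b 1) := by
  constructor
  · rintro ⟨l, hl⟩
    have h1 : ∀ b : Fin N, f (Pi.single b 1) = l (PJ hJ (Pi.single b 1)) := by
      intro b
      rw [hl]
      change l (PJ hJ (fun j => (((Pi.single b 1 : Fin N → ℚ) j : ℚ) : ℝ))) = _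
      rw [single_castR]
    funext b
    rw [Pi.smul_apply, smul_eq_mul, h1 b, ← smul_eq_mul, ← map_smul, ← PJ_J, col_eq, map_sum,
      map_sum]
    change ∑ a, (cJ J)ᵀ b a * f (Pi.single a 1) = _
    refine Finset.sum_congr rfl fun a _ => ?_
    rw [map_smul, h1 a]
    change ((J a b : ℝ) : ℂ) * _ = _
    have h2 : ∀ t : TJ J, (J a b) • t = ((J a b : ℝ) : ℂ) • t := fun t => rfl
    rw [h2, map_smul, smul_eq_mul]
  · intro h
    refine ⟨lJ J (fun b => f (Pi.single b 1)), fun w => ?_⟩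
    change f w = (1 / 2) * ((fun b => f (Pi.single b 1)) ⬝ᵥ
      (cr (fun i => ((w i : ℚ) : ℝ)) - Complex.I • cr (J *ᵥ (fun i => ((w i : ℚ) : ℝ)))))
    rw [dotProduct_sub, dotProduct_smul, ← cJ_cr, cJ_dot, h, smul_dotProduct, ← f_eq, smul_eq_mul,
      smul_eq_mul]
    linear_combination (1 / 2) * (f w) * Complex.I_mul_I

end GK1

theorem ej_of : St_ej := by
  intro N J M hJ hM hJM hpos
  have hp : ∃ E : (Fin N → ℚ) → (Fin N → ℚ) → ℚ, IsPolarization (GK1.pJ hJ) E :=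
    ⟨_, (GK1.cht hJ).polar M hM hJM hpos⟩
  refine ⟨(GK1.cht hJ).av hp, LinearEquiv.refl ℚ (Fin N → ℚ), fun f => ?_⟩
  exact GK1.main hJ f

end

end Pool.Agent.NH32
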