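import Mathlib
import Pool.Agent.NH32.GtD
import Pool.Agent.NH32.GK1
import Pool.Agent.NH32.GJ14

/-!
# Project G, stage 3: the classes of degree two come from those of degree four (D14)
-/

set_option linter.unusedSectionVars false

namespace Pool.Agent.NH32

open Matrix Module Pool.Agent.W437.HC Pool.Agent.W437.HD Pool.Agent.TH504.CB Pool.Agent.Y90
open Pool.Agent.H204R3.CM (IsHodge)
open Pool.Agent.W548.Odd hiding cv

noncomputable section

namespace GD14

open GJ14

/-! ### the elliptic curve with complex multiplication by `i` -/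

/-- The periods `v 0 + v 1 i`. -/
def pE : (Fin 2 → ℚ) →+ ℂ where
  toFun v := ⟨(v 0 : ℝ), (v 1 : ℝ)⟩
  map_zero' := by
    apply Complex.ext
    · exact Rat.cast_zero
    · exact Rat.cast_zero
  map_add' v w := by
    apply Complex.ext
    · exact Rat.cast_add _ _
    · exact Rat.cast_add _ _

theorem pE_re (v : Fin 2 → ℚ) : (pE v).re = (v 0 : ℝ) := rfl

theorem pE_im (v : Fin 2 → ℚ) : (pE v).im = (v 1 : ℝ) := rfl

/-- The elliptic curve. -/
def ell : AV where
  H := Fin 2 → ℚ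
  T := ℂ
  per := pE
  span := by
    rw [eq_top_iff]
    intro z _
    have h0 : (1 : ℂ) ∈ Submodule.span ℝ (Set.range pE) := by
      refine Submodule.subset_span ⟨![1, 0], ?_⟩
      apply Complex.ext
      · rw [pE_re]; simp
      · rw [pE_im]; simp
    have h1 : Complex.I ∈ Submodule.span ℝ (Set.range pE) := by
      refine Submodule.subset_span ⟨![0, 1], ?_⟩
      apply Complex.ext
      · rw [pE_re]; simp
      · rw [pE_im]; simp
    have h2 : z = z.re • (1 : ℂ) + z.im • Complex.I := by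
      apply Complex.ext <;> simp
    rw [h2]
    exact Submodule.add_mem _ (Submodule.smul_mem _ _ h0) (Submodule.smul_mem _ _ h1)
  rank := by simp
  pol := by
    refine ⟨fun v w => v 1 * w 0 - v 0 * w 1, fun u u' => u * starRingEnd ℂ u', fun u' => ?_,
      fun u u' => ?_, fun u hu => ?_, fun v w => ?_⟩
    · exact ⟨fun a b => add_mul a b _, fun c a => mul_assoc c a _⟩
    · simp [mul_comm]
    · beta_reduce
      rw [Complex.mul_conj, Complex.ofReal_re]
      exact Complex.normSq_pos.2 hu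
    · beta_reduce
      rw [Complex.mul_im, Complex.conj_re, Complex.conj_im, pE_re, pE_re, pE_im, pE_im]
      push_cast
      ring

theorem th0_hodge : IsHodge pE (Pi.basisFun ℚ (Fin 2)).det := by
  refine ⟨(Complex.basisOneI.det).toMultilinearMap, fun v => ?_, fun z hz u => ?_⟩
  · change Complex.basisOneI.det (fun l => pE (v l)) = (((Pi.basisFun ℚ (Fin 2)).det v : ℚ) : ℝ)
    rw [Basis.det_apply, Basis.det_apply, det_fin_two, det_fin_two]
    simp only [Basis.toMatrix_apply, Pi.basisFun_repr, Complex.coe_basisOneI_repr]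
    simp [pE_re, pE_im]
  · change Complex.basisOneI.det (fun l => z * u l) = Complex.basisOneI.det u
    rw [Basis.det_apply, Basis.det_apply, det_fin_two, det_fin_two]
    simp only [Basis.toMatrix_apply, Complex.coe_basisOneI_repr]
    simp only [Matrix.cons_val_zero, Matrix.cons_val_one, Complex.mul_re, Complex.mul_im]
    have h1 : z.re * z.re + z.im * z.im = 1 := by
      have := Complex.normSq_eq_norm_sq z
      rw [hz, Complex.normSq_apply] at this
      simpa using this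
    linear_combination ((u 0).re * (u 1).im - (u 1).re * (u 0).im) * h1

/-- The basis of the homology. -/
def bE : Basis (Fin 2) ℚ ell.H := Pi.basisFun ℚ (Fin 2)

/-- The class of degree two. -/
def thE : ell.H [⋀^Fin 2]→ₗ[ℚ] ℚ := bE.det

theorem thE_hodge : IsHodge ell.per thE := th0_hodge

/-! ### cup products -/

/-- The product of two forms as a multilinear map. -/
def mlC {W : Type*} [AddCommGroup W] [Module ℚ W] {κ κ' : Type*} (f : W [⋀^κ]→ₗ[ℚ] ℚ)
    (g : W [⋀^κ']→ₗ[ℚ] ℚ) : MultilinearMap ℚ (fun _ : κ ⊕ κ' => W) ℚ :=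
  (LinearMap.mul' ℚ ℚ).compMultilinearMap
    (MultilinearMap.domCoprod f.toMultilinearMap g.toMultilinearMap)

theorem mlC_apply {W : Type*} [AddCommGroup W] [Module ℚ W] {κ κ' : Type*}
    (f : W [⋀^κ]→ₗ[ℚ] ℚ) (g : W [⋀^κ']→ₗ[ℚ] ℚ) (v : κ ⊕ κ' → W) :
    mlC f g v = f (fun k => v (Sum.inl k)) * g (fun k => v (Sum.inr k)) := rfl

/-- The cup product. -/
def cupQ {W : Type*} [AddCommGroup W] [Module ℚ W] {κ κ' : Type*} [Fintype κ] [DecidableEq κ]
    [Fintype κ'] [DecidableEq κ'] (f : W [⋀^κ]→ₗ[ℚ] ℚ) (g : W [⋀^κ']→ₗ[ℚ] ℚ) :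
    W [⋀^κ ⊕ κ']→ₗ[ℚ] ℚ :=
  MultilinearMap.alternatization (mlC f g)

theorem cupQ_apply {W : Type*} [AddCommGroup W] [Module ℚ W] {κ κ' : Type*} [Fintype κ]
    [DecidableEq κ] [Fintype κ'] [DecidableEq κ'] (f : W [⋀^κ]→ₗ[ℚ] ℚ) (g : W [⋀^κ']→ₗ[ℚ] ℚ)
    (v : κ ⊕ κ' → W) : cupQ f g v = ∑ σ : Equiv.Perm (κ ⊕ κ'), ((Equiv.Perm.sign σ : ℤ) : ℚ) *
      (f (fun k => v (σ (Sum.inl k))) * g (fun k => v (σ (Sum.inr k)))) := by
  unfold cupQ
  rw [MultilinearMap.alternatization_apply]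
  refine Finset.sum_congr rfl fun σ _ => ?_
  rw [MultilinearMap.domDomCongr_apply, mlC_apply, Units.smul_def, zsmul_eq_mul]

theorem cupQ_hodge {W T : Type*} [AddCommGroup W] [Module ℚ W] [AddCommGroup T] [Module ℂ T]
    {per : W →+ T} {κ κ' : Type*} [Fintype κ] [DecidableEq κ] [Fintype κ'] [DecidableEq κ']
    {f : W [⋀^κ]→ₗ[ℚ] ℚ} {g : W [⋀^κ']→ₗ[ℚ] ℚ} (hf : IsHodge per f) (hg : IsHodge per g) :
    IsHodge per (cupQ f g) := by
  obtain ⟨φ, h1, h2⟩ := hf
  obtain ⟨ψ, g1, g2⟩ := hg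
  refine isHodge_alt ((LinearMap.mul' ℝ ℝ).compMultilinearMap (MultilinearMap.domCoprod φ ψ))
    (fun v => ?_) (fun z hz u => ?_)
  · change φ (fun k => per (v (Sum.inl k))) * ψ (fun k => per (v (Sum.inr k))) = _
    rw [mlC_apply, Rat.cast_mul, h1 fun k => v (Sum.inl k), g1 fun k => v (Sum.inr k)]
  · change φ (fun k => z • u (Sum.inl k)) * ψ (fun k => z • u (Sum.inr k)) =
      φ (fun k => u (Sum.inl k)) * ψ (fun k => u (Sum.inr k))
    rw [h2 z hz fun k => u (Sum.inl k), g2 z hz fun k => u (Sum.inr k)]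

/-- The value of the cup product on vectors in the two factors. -/
theorem cup_val {W : Type*} [AddCommGroup W] [Module ℚ W] {κ κ' : Type*} [Fintype κ]
    [DecidableEq κ] [Fintype κ'] [DecidableEq κ'] (f : W [⋀^κ]→ₗ[ℚ] ℚ) (g : W [⋀^κ']→ₗ[ℚ] ℚ) :
    ∃ c : ℚ, c ≠ 0 ∧ ∀ v : κ ⊕ κ' → W,
      (∀ w : κ → W, (∃ k l, w k = v (Sum.inr l)) → f w = 0) →
      cupQ f g v = c * (f (fun k => v (Sum.inl k)) * g (fun k => v (Sum.inr k))) := by
  classical
  refine ⟨((Finset.univ.filter fun σ : Equiv.Perm (κ ⊕ κ') =>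
    σ ∈ (Equiv.Perm.sumCongrHom κ κ').range).card : ℚ), ?_, fun v hv => ?_⟩
  · rw [Nat.cast_ne_zero, Finset.card_ne_zero]
    exact ⟨1, Finset.mem_filter.2 ⟨Finset.mem_univ _, one_mem _⟩⟩
  · rw [cupQ_apply, ← nsmul_eq_mul, ← Finset.sum_const, Finset.sum_filter]
    refine Finset.sum_congr rfl fun σ _ => ?_
    split_ifs with hσ
    · obtain ⟨⟨a, b⟩, rfl⟩ := hσ
      change ((Equiv.Perm.sign (Equiv.Perm.sumCongr a b) : ℤ) : ℚ) *
        (f ((fun k => v (Sum.inl k)) ∘ a) * g ((fun k => v (Sum.inr k)) ∘ b)) = _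
      rw [Equiv.Perm.sign_sumCongr, AlternatingMap.map_perm, AlternatingMap.map_perm,
        Units.smul_def, Units.smul_def, zsmul_eq_mul, zsmul_eq_mul]
      have h1 : ((Equiv.Perm.sign a : ℤ) : ℚ) * ((Equiv.Perm.sign a : ℤ) : ℚ) = 1 := by
        rw [← Int.cast_mul, Int.units_coe_mul_self, Int.cast_one]
      have h2 : ((Equiv.Perm.sign b : ℤ) : ℚ) * ((Equiv.Perm.sign b : ℤ) : ℚ) = 1 := by
        rw [← Int.cast_mul, Int.units_coe_mul_self, Int.cast_one]
      rw [Units.val_mul, Int.cast_mul]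
      generalize f _ = x
      generalize g _ = y
      linear_combination (((Equiv.Perm.sign b : ℤ) : ℚ) * ((Equiv.Perm.sign b : ℤ) : ℚ) * x * y) * h1
        + x * y * h2
    · have h1 : ∃ k l, σ (Sum.inl k) = Sum.inr l := by
        by_contra hcon
        push Not at hcon
        apply hσ
        refine Equiv.Perm.mem_sumCongrHom_range_of_perm_mapsTo_inl ?_
        rintro _ ⟨k, rfl⟩
        rcases h2 : σ (Sum.inl k) with l | l
        · exact ⟨l, rfl⟩
        · exact absurd h2 (hcon k l)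
      obtain ⟨k, l, hkl⟩ := h1
      rw [hv (fun k => v (σ (Sum.inl k))) ⟨k, l, by rw [hkl]⟩, zero_mul, mul_zero]

/-! ### the product -/

theorem isProd (X Y : AV) : IsProd (inX X Y) (inY X Y) := by
  refine ⟨inX_hom X Y, inY_hom X Y, ?_⟩
  have h1 : (fun w : X.H × Y.H => inX X Y w.1 + inY X Y w.2) = fun w => (w : X.H × Y.H) := by
    funext w
    have h5 : ((w.1, 0) : X.H × Y.H) + (0, w.2) = w := by
      rw [Prod.mk_add_mk, add_zero, zero_add]
    exact h5
  rw [h1]
  exact Function.bijective_id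

end GD14

open GJ14 GD14

/-- The classes of degree two come from those of degree four. -/
theorem two_of_four (𝒜 : Sys)
    (h4 : ∀ (Y : AV) (f : Y.H [⋀^Fin 4]→ₗ[ℚ] ℚ), IsHodge Y.per f → 𝒜.A Y (Fin 4) f) (X : AV)
    (f : X.H [⋀^Fin 2]→ₗ[ℚ] ℚ) (hf : IsHodge X.per f) : 𝒜.A X (Fin 2) f := by
  have h1 : IsHodge (prodAV X ell).per (f.compLinearMap (prX X ell)) := by
    obtain ⟨Ψ, hΨ⟩ := prX_hom X ell
    exact isHodge_comp _ Ψ hΨ hf
  have h2 : IsHodge (prodAV X ell).per (thE.compLinearMap (prY X ell)) := by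
    obtain ⟨Ψ, hΨ⟩ := prY_hom X ell
    exact isHodge_comp _ Ψ hΨ thE_hodge
  have h3 := cupQ_hodge h1 h2
  obtain ⟨c, hc, hc2⟩ := cup_val (f.compLinearMap (prX X ell)) (thE.compLinearMap (prY X ell))
  generalize hF : cupQ (f.compLinearMap (prX X ell)) (thE.compLinearMap (prY X ell)) = F at h3 hc2
  have h5 := h4 _ _ (isHodge_reindex (finSumFinEquiv : Fin 2 ⊕ Fin 2 ≃ Fin 4) h3)
  have h6 := 𝒜.reindex (finSumFinEquiv : Fin 2 ⊕ Fin 2 ≃ Fin 4).symm _ h5
  have h7 : (F.domDomCongr (finSumFinEquiv : Fin 2 ⊕ Fin 2 ≃ Fin 4)).domDomCongr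
      (finSumFinEquiv : Fin 2 ⊕ Fin 2 ≃ Fin 4).symm = F := by
    ext v
    rw [AlternatingMap.domDomCongr_apply, AlternatingMap.domDomCongr_apply]
    congr 1
    funext k
    simp
  rw [h7] at h6
  have h8 : 𝒜.A X (Fin 2) (c • f) := by
    refine 𝒜.push (inX X ell) (inY X ell) (isProd X ell) bE F h6 _ fun v => ?_
    rw [hc2, AlternatingMap.smul_apply, smul_eq_mul]
    · have e1 : (f.compLinearMap (prX X ell)) (fun k => Sum.elim (fun k => inX X ell (v k))
          (fun k => inY X ell (bE k)) (Sum.inl k)) = f v := by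
        rw [AlternatingMap.compLinearMap_apply]
        rfl
      have e2 : (thE.compLinearMap (prY X ell)) (fun k => Sum.elim (fun k => inX X ell (v k))
          (fun k => inY X ell (bE k)) (Sum.inr k)) = 1 := by
        rw [AlternatingMap.compLinearMap_apply]
        exact bE.det_self
      rw [e1, e2, mul_one]
    · rintro w ⟨k, l, hw⟩
      rw [AlternatingMap.compLinearMap_apply]
      refine f.map_coord_zero k ?_
      rw [hw]
      rfl
  have h9 := 𝒜.smul c⁻¹ _ h8
  rwa [smul_smul, inv_mul_cancel₀ hc, one_smul] at h9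

end

end Pool.Agent.NH32
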