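import Mathlib
import Pool.Agent.NH32.WlA

/-!
# The Lefschetz Lie algebra kills Weil classes
-/

set_option linter.unusedSectionVars false

namespace Pool.Agent.NH32.WJ8

open Matrix Module Pool.Agent.W437.HC Pool.Agent.W437.HD Pool.Agent.TH504.CB Pool.Agent.Y90
open Pool.Agent.H204R3.CM (IsHodge)
open Pool.Agent.W548.Odd hiding cv
open Pool.Agent.W437.HP (cK cK_mul cK_one)

noncomputable section

section alt

variable {K : Type*} [Field K] {U N : Type*} [AddCommGroup U] [Module K U]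
  [AddCommGroup N] [Module K N]

/-- The derivation of an alternating form in at least `dim U` variables. -/
theorem sum_update_trace [FiniteDimensional K U] {n : ℕ} (hn : finrank K U ≤ n)
    (f : U [⋀^Fin n]→ₗ[K] N) (T : U →ₗ[K] U) (v : Fin n → U) :
    ∑ k, f (Function.update v k (T (v k))) = LinearMap.trace K U T • f v := by
  rcases hn.lt_or_eq with h | h
  · have h1 : ∀ u : Fin n → U, f u = 0 := by
      intro u
      refine f.map_linearDependent u fun hu => ?_
      have h2 := hu.fintype_card_le_finrank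
      rw [Fintype.card_fin] at h2
      omega
    simp [h1]
  · subst h
    let e := finBasis K U
    have h1 : f = (LinearMap.toSpanSingleton K N (f e)).compAlternatingMap e.det := by
      refine Basis.ext_alternating e fun σ hσ => ?_
      have h2 : Function.Bijective σ := Finite.injective_iff_bijective.1 hσ
      obtain ⟨τ, hτ⟩ : ∃ τ : Equiv.Perm (Fin (finrank K U)), ∀ i, τ i = σ i :=
        ⟨Equiv.ofBijective σ h2, fun i => rfl⟩
      have h3 : ∀ {N' : Type _} [AddCommGroup N'] [Module K N'] (F : U [⋀^Fin (finrank K U)]→ₗ[K] N'),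
          F (fun i => e (σ i)) = (Equiv.Perm.sign τ : ℤ) • F e := by
        intro N' _ _ F
        have h4 : (fun i => e (σ i)) = e ∘ τ := by
          funext i
          rw [Function.comp_apply, hτ]
        rw [h4, F.map_perm]
        rfl
      rw [h3, LinearMap.compAlternatingMap_apply, LinearMap.toSpanSingleton_apply]
      have h4 : e.det (fun i => e (σ i)) = (Equiv.Perm.sign τ : ℤ) • e.det e := by
        have h5 : (fun i => e (σ i)) = e ∘ τ := by
          funext i
          rw [Function.comp_apply, hτ]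
        rw [h5, AlternatingMap.map_perm]
        rfl
      rw [h4, e.det_self, smul_assoc, one_smul]
    have h2 : ∀ u : Fin (finrank K U) → U, f u = (e.toMatrix u).det • f e := by
      intro u
      conv_lhs => rw [h1]
      rw [LinearMap.compAlternatingMap_apply, LinearMap.toSpanSingleton_apply, e.det_apply]
    have h3 : ∀ k, (e.toMatrix (Function.update v k (T (v k)))).det =
        ((e.toMatrix v).adjugate * (LinearMap.toMatrix e e T * e.toMatrix v)) k k := by
      intro k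
      rw [Basis.toMatrix_update, ← cramer_apply, cramer_eq_adjugate_mulVec]
      have h4 : ⇑(e.repr (T (v k))) = fun j => (LinearMap.toMatrix e e T * e.toMatrix v) j k := by
        rw [← LinearMap.toMatrix_mulVec_repr e e T (v k)]
        funext j
        rfl
      rw [h4]
      rfl
    rw [Finset.sum_congr rfl fun k _ => h2 _, ← Finset.sum_smul, h2 v, smul_smul]
    congr 1
    rw [Finset.sum_congr rfl fun k _ => h3 k]
    change trace ((e.toMatrix v).adjugate * (LinearMap.toMatrix e e T * e.toMatrix v)) = _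
    rw [trace_mul_comm, mul_assoc, mul_adjugate, LinearMap.trace_eq_matrix_trace K e,
      Matrix.mul_smul, mul_one, trace_smul, smul_eq_mul, mul_comm]

end alt

section balanced

variable (K : Type*) [Field K] [Algebra ℚ K] 

/-- The dual of `K` as a vector space over `K`. -/
def Du : Type _ := K →ₗ[ℚ] ℚ

instance : AddCommGroup (Du K) := inferInstanceAs (AddCommGroup (K →ₗ[ℚ] ℚ))

instance : Module K (Du K) where
  smul a f := LinearMap.comp f (LinearMap.mulLeft ℚ a)
  one_smul f := LinearMap.ext fun x => congrArg (show K →ₗ[ℚ] ℚ from f) (one_mul x)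
  mul_smul a b f := LinearMap.ext fun x => congrArg (show K →ₗ[ℚ] ℚ from f) (by
    change a * b * x = b * (a * x)
    ring)
  smul_zero a := rfl
  smul_add a f g := rfl
  add_smul a b f := LinearMap.ext fun x => (congrArg (show K →ₗ[ℚ] ℚ from f) (add_mul a b x)).trans
    (map_add (show K →ₗ[ℚ] ℚ from f) _ _)
  zero_smul f := LinearMap.ext fun x => (congrArg (show K →ₗ[ℚ] ℚ from f) (zero_mul x)).trans
    (map_zero (show K →ₗ[ℚ] ℚ from f))

/-- The value of a linear form. -/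
def Du.ev {K : Type*} [Field K] [Algebra ℚ K] (f : Du K) (a : K) : ℚ := (show K →ₗ[ℚ] ℚ from f) a

theorem Du.ev_smul {K : Type*} [Field K] [Algebra ℚ K] (f : Du K) (a c : K) :
    (c • f).ev a = f.ev (c * a) := rfl

theorem Du.ext {K : Type*} [Field K] [Algebra ℚ K] {f f' : Du K} (h : ∀ a, f.ev a = f'.ev a) :
    f = f' := LinearMap.ext h

theorem Du.ev_add {K : Type*} [Field K] [Algebra ℚ K] (f f' : Du K) (a : K) :
    (f + f').ev a = f.ev a + f'.ev a := rfl

variable {K}
variable {U : Type*} [AddCommGroup U] [Module ℚ U] [Module K U] [IsScalarTower ℚ K U]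

/-- The form with values in the dual of `K` given by a balanced form. -/
def Wf0 {n : ℕ} (w : U [⋀^Fin (n + 1)]→ₗ[ℚ] ℚ) (v : Fin (n + 1) → U) : Du K :=
  show K →ₗ[ℚ] ℚ from
    { toFun := fun a => w (Function.update v 0 (a • v 0))
      map_add' := fun a b => by rw [add_smul, w.map_update_add]
      map_smul' := fun c a => by
        rw [smul_assoc, w.map_update_smul]
        rfl }

theorem ev_Wf0 {n : ℕ} (w : U [⋀^Fin (n + 1)]→ₗ[ℚ] ℚ) (v : Fin (n + 1) → U) (a : K) :
    (Wf0 w v).ev a = w (Function.update v 0 (a • v 0)) := rfl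

/-- The form with values in the dual of `K` given by a balanced form. -/
def Wf {n : ℕ} (w : U [⋀^Fin (n + 1)]→ₗ[ℚ] ℚ) (hb : ∀ (a : K) (v : Fin (n + 1) → U)
    (k l : Fin (n + 1)), w (Function.update v k (a • v k)) = w (Function.update v l (a • v l))) :
    U [⋀^Fin (n + 1)]→ₗ[K] Du K where
  toFun v := Wf0 w v
  map_update_add' := by
    intro inst v i x y
    have h : inst = instDecidableEqFin (n + 1) := Subsingleton.elim _ _
    subst h
    refine Du.ext fun a => ?_
    rw [Du.ev_add, ev_Wf0, ev_Wf0, ev_Wf0]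
    by_cases hi : i = 0
    · subst hi
      simp only [Function.update_self, Function.update_idem, smul_add]
      exact w.map_update_add _ _ _ _
    · simp only [Function.update_of_ne (Ne.symm hi)]
      simp only [Function.update_comm (hi)]
      exact w.map_update_add _ _ _ _
  map_update_smul' := by
    intro inst v i c x
    have h : inst = instDecidableEqFin (n + 1) := Subsingleton.elim _ _
    subst h
    refine Du.ext fun a => ?_
    rw [Du.ev_smul, ev_Wf0, ev_Wf0]
    by_cases hi : i = 0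
    · subst hi
      simp only [Function.update_self, Function.update_idem, smul_smul]
      rw [mul_comm]
    · simp only [Function.update_of_ne (Ne.symm hi)]
      have h1 := hb c (Function.update (Function.update v i x) 0 (a • v 0)) i 0
      rw [Function.update_self, Function.update_of_ne hi, Function.update_self,
        Function.update_idem, smul_smul, Function.update_comm hi, Function.update_idem] at h1
      rw [← h1, Function.update_comm hi]
  map_eq_zero_of_eq' := by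
    intro v i j hv hij
    refine Du.ext fun a => ?_
    change (Wf0 w v).ev a = 0
    rw [ev_Wf0]
    have key : ∀ j : Fin (n + 1), j ≠ 0 → v 0 = v j → w (Function.update v 0 (a • v 0)) = 0 := by
      intro j hj hvj
      have h1 := hb a v 0 j
      have h2 := w.map_swap (Function.update v 0 (a • v 0)) (i := 0) (j := j) (Ne.symm hj)
      have h3 : Function.update v 0 (a • v 0) ∘ Equiv.swap 0 j = Function.update v j (a • v j) := by
        funext l
        rw [Function.comp_apply]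
        by_cases hl0 : l = 0
        · subst hl0
          rw [Equiv.swap_apply_left, Function.update_of_ne hj, Function.update_of_ne (Ne.symm hj),
            hvj]
        · by_cases hlj : l = j
          · subst hlj
            rw [Equiv.swap_apply_right, Function.update_self, Function.update_self, hvj]
          · rw [Equiv.swap_apply_of_ne_of_ne hl0 hlj, Function.update_of_ne hl0,
              Function.update_of_ne hlj]
      rw [h3, ← h1] at h2
      linarith
    by_cases hi : i = 0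
    · subst hi
      exact key j (Ne.symm hij) hv
    · by_cases hj : j = 0
      · subst hj
        exact key i hij hv.symm
      · refine w.map_eq_zero_of_eq _ ?_ hij
        rw [Function.update_of_ne hi, Function.update_of_ne hj, hv]

/-- The trace over `ℚ` of the multiples of a `K`-linear map determine the trace. -/
theorem trace_eq_zero [FiniteDimensional ℚ K] [FiniteDimensional K U] (T : U →ₗ[K] U)
    (h : ∀ a : K, LinearMap.trace ℚ U ((a • T).restrictScalars ℚ) = 0) :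
    LinearMap.trace K U T = 0 := by
  classical
  have key : ∀ T : U →ₗ[K] U, LinearMap.trace ℚ U (T.restrictScalars ℚ) =
      Algebra.trace ℚ K (LinearMap.trace K U T) := by
    intro T
    let b := finBasis ℚ K
    let e := finBasis K U
    rw [LinearMap.trace_eq_matrix_trace ℚ (b.smulTower e), LinearMap.trace_eq_matrix_trace K e]
    unfold trace
    rw [map_sum, Fintype.sum_prod_type_right]
    refine Finset.sum_congr rfl fun j _ => ?_
    rw [Algebra.trace_eq_matrix_trace b]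
    unfold trace
    refine Finset.sum_congr rfl fun i _ => ?_
    rw [diag_apply, diag_apply, diag_apply, LinearMap.toMatrix_apply, Algebra.leftMulMatrix_eq_repr_mul,
      LinearMap.toMatrix_apply, Basis.smulTower_repr, Basis.smulTower_apply]
    dsimp only
    congr 2
    rw [LinearMap.restrictScalars_apply, map_smul, map_smul, Finsupp.smul_apply, smul_eq_mul,
      mul_comm]
  by_contra h0
  have h1 := h (LinearMap.trace K U T)⁻¹
  rw [key, map_smul, smul_eq_mul, inv_mul_cancel₀ h0] at h1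
  have h2 := Algebra.trace_algebraMap (R := ℚ) (S := K) 1
  rw [map_one, h1, nsmul_eq_mul, mul_one] at h2
  have h3 : finrank ℚ K = 0 := by exact_mod_cast h2.symm
  exact absurd h3 (finrank_pos (R := ℚ) (M := K)).ne'

/-- **Balanced forms** are killed by the `K`-linear maps of trace zero. -/
theorem balanced_kill [FiniteDimensional ℚ K] [FiniteDimensional K U] {n : ℕ}
    (hn : finrank K U ≤ n) (w : U [⋀^Fin n]→ₗ[ℚ] ℚ) (hb : ∀ (a : K) (v : Fin n → U)
    (k l : Fin n), w (Function.update v k (a • v k)) = w (Function.update v l (a • v l)))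
    (T : U →ₗ[K] U)
    (h : ∀ a : K, LinearMap.trace ℚ U ((a • T).restrictScalars ℚ) = 0) (v : Fin n → U) :
    ∑ k, w (Function.update v k (T (v k))) = 0 := by
  rcases n with _ | n
  · exact Finset.sum_of_isEmpty _
  · have h1 := sum_update_trace hn (Wf w hb) T v
    rw [trace_eq_zero T h, zero_smul] at h1
    have h2 : ∀ u, (Wf w hb u).ev 1 = w u := by
      intro u
      change (Wf0 w u).ev 1 = w u
      rw [ev_Wf0, one_smul, Function.update_eq_self]
    have h3 : ∀ (s : Finset (Fin (n + 1))) (F : Fin (n + 1) → Du K),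
        (∑ k ∈ s, F k).ev 1 = ∑ k ∈ s, (F k).ev 1 := by
      intro s F
      exact map_sum (⟨⟨fun f : Du K => f.ev 1, rfl⟩, fun f g => rfl⟩ : Du K →+ ℚ) F s
    have h4 := congrArg (fun f : Du K => f.ev 1) h1
    beta_reduce at h4
    rw [h3] at h4
    simp only [h2] at h4
    exact h4

end balanced

section gen

variable {n : Type*} [Fintype n] [DecidableEq n]

/-- Projections onto stable subspaces. -/
theorem exists_proj_comm (E : Submodule ℂ (n → ℂ)) (S : Set (Matrix n n ℂ))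
    (hadj : ∀ M ∈ S, Mᴴ ∈ S) (hE : ∀ M ∈ S, ∀ x ∈ E, M *ᵥ x ∈ E) :
    ∃ p : Matrix n n ℂ, (∀ x, p *ᵥ x ∈ E) ∧ (∀ x ∈ E, p *ᵥ x = x) ∧ ∀ M ∈ S, M * p = p * M := by
  obtain ⟨p, hp, hp1, hp2⟩ := exists_proj E
  have h1 : ∀ M ∈ S, p * (M * p) = M * p := by
    intro M hM
    refine Matrix.toLin'.injective (LinearMap.ext fun x => ?_)
    rw [toLin'_apply, toLin'_apply, ← mulVec_mulVec, ← mulVec_mulVec, hp2 _ (hE M hM _ (hp1 x))]
  refine ⟨p, hp1, hp2, fun M hM => ?_⟩
  have h2 := congrArg Matrix.conjTranspose (h1 _ (hadj M hM))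
  rw [conjTranspose_mul, conjTranspose_mul, conjTranspose_conjTranspose, hp] at h2
  rw [← h1 M hM, ← mul_assoc, h2]

variable {B : Type} [Fintype B] [DecidableEq B] {L : Submodule ℂ (Matrix B B ℂ)}

theorem CM_mul' {M N : Matrix B B ℂ} (hM : M ∈ CM L) (hN : N ∈ CM L) : M * N ∈ CM L := by
  intro X hX
  rw [← mul_assoc, hM X hX, mul_assoc, hN X hX, mul_assoc]

/-- The elements commuting with the commutant and orthogonal to its centre are orthogonal to the
commutant. -/
theorem trace_CM (hadj : ∀ X ∈ L, Xᴴ ∈ L) {X : Matrix B B ℂ} (hX : InB L X)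
    (htr : ∀ M ∈ ZM L, trace (X * M) = 0) : ∀ M ∈ CM L, trace (X * M) = 0 := by
  intro M hM
  let S : Submodule ℂ (Matrix B B ℂ) :=
    Submodule.span ℂ {Z | ∃ A ∈ CM L, ∃ C ∈ CM L, Z = A * C - C * A}
  have hSm : ∀ A ∈ CM L, ∀ C ∈ CM L, A * C - C * A ∈ S := fun A hA C hC =>
    Submodule.subset_span ⟨A, hA, C, hC, rfl⟩
  have hSL : S ≤ CM L := by
    refine Submodule.span_le.2 ?_
    rintro _ ⟨A, hA, C, hC, rfl⟩
    exact (CM L).sub_mem (CM_mul' hA hC) (CM_mul' hC hA)
  have hS0 : ∀ s ∈ S, trace (X * s) = 0 := by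
    intro s hs
    induction hs using Submodule.span_induction with
    | mem s hs =>
      obtain ⟨A, hA, C, hC, rfl⟩ := hs
      rw [mul_sub, trace_sub, sub_eq_zero, ← mul_assoc, ← mul_assoc, trace_mul_comm (X * C) A,
        ← mul_assoc, hX A hA]
    | zero => rw [mul_zero, trace_zero]
    | add x y _ _ hx hy => rw [mul_add, trace_add, hx, hy, add_zero]
    | smul c x _ hx => rw [Matrix.mul_smul, trace_smul, hx, smul_zero]
  obtain ⟨s, hs, ho⟩ := exists_orth S M
  obtain ⟨z, hz⟩ : ∃ z, z = M - s := ⟨_, rfl⟩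
  rw [← hz] at ho
  have hzL : z ∈ CM L := by rw [hz]; exact (CM L).sub_mem hM (hSL hs)
  have hzZ : z ∈ ZM L := by
    refine ⟨hzL, fun N hN => ?_⟩
    rw [← sub_eq_zero]
    apply trace_self_eq_zero
    obtain ⟨W, hW⟩ : ∃ W, W = N * z - z * N := ⟨_, rfl⟩
    have hWL : W ∈ CM L := by rw [hW]; exact (CM L).sub_mem (CM_mul' hN hzL) (CM_mul' hzL hN)
    have h1 := ho _ (hSm _ (CM_adj hadj hN) _ hWL)
    rw [← hW, ← h1]
    have h2 : (Nᴴ * W - W * Nᴴ)ᴴ = Wᴴ * N - N * Wᴴ := by
      rw [conjTranspose_sub, conjTranspose_mul, conjTranspose_mul, conjTranspose_conjTranspose]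
    rw [h2]
    nth_rewrite 2 [hW]
    have h3 : trace (Wᴴ * (N * z - z * N)) = trace (Wᴴ * N * z) - trace (Wᴴ * z * N) := by
      rw [mul_sub, trace_sub, mul_assoc, mul_assoc]
    have h4 : trace ((Wᴴ * N - N * Wᴴ) * z) = trace (Wᴴ * N * z) - trace (N * Wᴴ * z) := by
      rw [sub_mul, trace_sub]
    have h5 : trace (Wᴴ * z * N) = trace (N * Wᴴ * z) := by
      rw [trace_mul_comm, mul_assoc]
    rw [h3, h4, h5]
  have h1 : M = s + z := by rw [hz]; abel
  rw [h1, mul_add, trace_add, hS0 s hs, htr z hzZ, add_zero]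

end gen

section diag

variable {B : Type} [Fintype B] [DecidableEq B] {ι : Type} [Fintype ι] [DecidableEq ι]

variable (ι) in
/-- The diagonal action. -/
def dg1 (M : Matrix B B ℂ) : Matrix (ι × B) (ι × B) ℂ := kroneckerMap (· * ·) (1 : Matrix ι ι ℂ) M

theorem dg1_mul (M N : Matrix B B ℂ) : dg1 ι M * dg1 ι N = dg1 ι (M * N) := by
  unfold dg1
  rw [← mul_kronecker_mul, one_mul]

theorem dg1_one : dg1 ι (1 : Matrix B B ℂ) = 1 := one_kronecker_one

theorem dg1_add (M N : Matrix B B ℂ) : dg1 ι (M + N) = dg1 ι M + dg1 ι N := kronecker_add _ _ _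

theorem dg1_sub (M N : Matrix B B ℂ) : dg1 ι (M - N) = dg1 ι M - dg1 ι N := by
  rw [eq_sub_iff_add_eq, ← dg1_add, sub_add_cancel]

theorem dg1_smul (c : ℂ) (M : Matrix B B ℂ) : dg1 ι (c • M) = c • dg1 ι M := kronecker_smul _ _ _

theorem dg1_zero : dg1 ι (0 : Matrix B B ℂ) = 0 := kronecker_zero _

theorem dg1_conjT (M : Matrix B B ℂ) : (dg1 ι M)ᴴ = dg1 ι Mᴴ := by
  unfold dg1
  rw [conjTranspose_kronecker, conjTranspose_one]

theorem dg1_apply (M : Matrix B B ℂ) (i j : ι) (b b' : B) :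
    dg1 ι M (i, b) (j, b') = if i = j then M b b' else 0 := by
  change (1 : Matrix ι ι ℂ) i j * M b b' = _
  rw [Matrix.one_apply]
  split_ifs <;> simp

theorem dg1_mul_apply {C : Type*} (M : Matrix B B ℂ) (Q : Matrix (ι × B) C ℂ) (i : ι) (b : B)
    (c : C) : (dg1 ι M * Q) (i, b) c = ∑ b', M b b' * Q (i, b') c := by
  rw [Matrix.mul_apply, Fintype.sum_prod_type, Finset.sum_eq_single i]
  · exact Finset.sum_congr rfl fun b' _ => by rw [dg1_apply, if_pos rfl]
  · intro j _ hj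
    exact Finset.sum_eq_zero fun b' _ => by rw [dg1_apply, if_neg (Ne.symm hj), zero_mul]
  · intro h
    exact absurd (Finset.mem_univ _) h

theorem mul_dg1_apply {C : Type*} (M : Matrix B B ℂ) (Q : Matrix C (ι × B) ℂ) (i : ι) (b : B)
    (c : C) : (Q * dg1 ι M) c (i, b) = ∑ b', Q c (i, b') * M b' b := by
  rw [Matrix.mul_apply, Fintype.sum_prod_type, Finset.sum_eq_single i]
  · exact Finset.sum_congr rfl fun b' _ => by rw [dg1_apply, if_pos rfl]
  · intro j _ hj
    exact Finset.sum_eq_zero fun b' _ => by rw [dg1_apply, if_neg hj, mul_zero]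
  · intro h
    exact absurd (Finset.mem_univ _) h

/-- The blocks of a matrix. -/
def blk (Q : Matrix (ι × B) (ι × B) ℂ) (i j : ι) : Matrix B B ℂ := of fun b b' => Q (i, b) (j, b')

theorem comm_iff (M : Matrix B B ℂ) (Q : Matrix (ι × B) (ι × B) ℂ) :
    dg1 ι M * Q = Q * dg1 ι M ↔ ∀ i j, M * blk Q i j = blk Q i j * M := by
  constructor
  · intro h i j
    ext b b'
    have h1 := congrFun (congrFun h (i, b)) (j, b')
    rw [dg1_mul_apply, mul_dg1_apply] at h1
    exact h1
  · intro h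
    ext ⟨i, b⟩ ⟨j, b'⟩
    rw [dg1_mul_apply, mul_dg1_apply]
    exact congrFun (congrFun (h i j) b) b'

theorem trace_dg1 (M : Matrix B B ℂ) (Q : Matrix (ι × B) (ι × B) ℂ) :
    trace (dg1 ι M * Q) = ∑ i, trace (M * blk Q i i) := by
  unfold trace
  rw [Fintype.sum_prod_type]
  refine Finset.sum_congr rfl fun i _ => Finset.sum_congr rfl fun b _ => ?_
  rw [diag_apply, diag_apply, dg1_mul_apply]
  rfl

end diag

section coord

variable {g : ℕ} {Z : Matrix (Fin g) (Fin g) ℂ}

theorem LZ_star {y yi : Matrix (Fin g ⊕ Fin g) (Fin g ⊕ Fin g) ℝ} (hy : YD Z y yi)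
    {N : Matrix (Fin g ⊕ Fin g) (Fin g ⊕ Fin g) ℂ} (hN : N ∈ LZ Z) :
    ∃ N' ∈ LZ Z, (cm y * N * cm yi)ᴴ = cm y * N' * cm yi := by
  refine ⟨_, hy.adj N hN, ?_⟩
  rw [conjTranspose_mul, conjTranspose_mul]
  calc (cm yi)ᴴ * (Nᴴ * (cm y)ᴴ) = (cm y * cm yi) * ((cm yi)ᴴ * (Nᴴ * (cm y)ᴴ)) * (cm y * cm yi) := by
        rw [hy.cr, one_mul, mul_one]
    _ = _ := by noncomm_ring

/-- Projections onto stable subspaces commuting with the diagonal action. -/
theorem exists_proj_LZ (hZ : PM Z) {ι : Type} [Fintype ι] [DecidableEq ι]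
    (E : Submodule ℂ (ι × (Fin g ⊕ Fin g) → ℂ))
    (hE : ∀ N ∈ LZ Z, ∀ x ∈ E, dg1 ι N *ᵥ x ∈ E) :
    ∃ p : Matrix (ι × (Fin g ⊕ Fin g)) (ι × (Fin g ⊕ Fin g)) ℂ, (∀ x, p *ᵥ x ∈ E) ∧
      (∀ x ∈ E, p *ᵥ x = x) ∧ ∀ N ∈ LZ Z, dg1 ι N * p = p * dg1 ι N := by
  obtain ⟨y, yi, hy⟩ := exists_YD hZ
  have hl : dg1 ι (cm yi) * dg1 ι (cm y) = 1 := by rw [dg1_mul, hy.cl, dg1_one]
  have hr : dg1 ι (cm y) * dg1 ι (cm yi) = 1 := by rw [dg1_mul, hy.cr, dg1_one]
  let E' : Submodule ℂ (ι × (Fin g ⊕ Fin g) → ℂ) := E.map (mulVecLin (dg1 ι (cm y)))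
  obtain ⟨p, hp1, hp2, hp3⟩ := exists_proj_comm E'
    {M | ∃ N ∈ LZ Z, M = dg1 ι (cm y * N * cm yi)} (by
      rintro _ ⟨N, hN, rfl⟩
      obtain ⟨N', hN', h1⟩ := LZ_star hy hN
      exact ⟨N', hN', by rw [dg1_conjT, h1]⟩) (by
      rintro _ ⟨N, hN, rfl⟩ _ ⟨x, hx, rfl⟩
      refine ⟨dg1 ι N *ᵥ x, hE N hN x hx, ?_⟩
      rw [mulVecLin_apply, mulVecLin_apply, mulVec_mulVec, mulVec_mulVec, dg1_mul, dg1_mul,
        mul_assoc _ (cm yi) (cm y), hy.cl, mul_one])
  refine ⟨dg1 ι (cm yi) * p * dg1 ι (cm y), fun x => ?_, fun x hx => ?_, fun N hN => ?_⟩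
  · obtain ⟨z, hz, h1⟩ := hp1 (dg1 ι (cm y) *ᵥ x)
    rw [← mulVec_mulVec, ← mulVec_mulVec, ← h1, mulVecLin_apply, mulVec_mulVec, hl, one_mulVec]
    exact hz
  · have h1 := hp2 (dg1 ι (cm y) *ᵥ x) ⟨x, hx, rfl⟩
    rw [← mulVec_mulVec, ← mulVec_mulVec, h1, mulVec_mulVec, hl, one_mulVec]
  · have h1 := hp3 _ ⟨N, hN, rfl⟩
    have h2 : dg1 ι (cm y * N * cm yi) = dg1 ι (cm y) * dg1 ι N * dg1 ι (cm yi) := by
      rw [dg1_mul, dg1_mul]
    rw [h2] at h1
    calc dg1 ι N * (dg1 ι (cm yi) * p * dg1 ι (cm y))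
        = (dg1 ι (cm yi) * dg1 ι (cm y)) * dg1 ι N * (dg1 ι (cm yi) * p * dg1 ι (cm y)) := by
          rw [hl, one_mul]
      _ = dg1 ι (cm yi) * (dg1 ι (cm y) * dg1 ι N * dg1 ι (cm yi) * p) * dg1 ι (cm y) := by
          simp only [mul_assoc]
      _ = dg1 ι (cm yi) * (p * (dg1 ι (cm y) * dg1 ι N * dg1 ι (cm yi))) * dg1 ι (cm y) := by
          rw [h1]
      _ = dg1 ι (cm yi) * p * dg1 ι (cm y) * dg1 ι N * (dg1 ι (cm yi) * dg1 ι (cm y)) := by
          simp only [mul_assoc]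
      _ = _ := by rw [hl, mul_one]

/-- The transposed element commutes with the commutant of `LZ Z` and is orthogonal to it. -/
theorem LZ_of_Lr (hZ : PM Z) {X : Matrix (Fin g ⊕ Fin g) (Fin g ⊕ Fin g) ℂ}
    (hX : InB (Lr Z) X) (htr : ∀ M ∈ ZM (Lr Z), trace (X * M) = 0)
    {M : Matrix (Fin g ⊕ Fin g) (Fin g ⊕ Fin g) ℂ} (hM : M ∈ CM (LZ Z)) :
    Xᵀ * M = M * Xᵀ ∧ trace (Xᵀ * M) = 0 := by
  have h1 : Mᵀ ∈ CM (Lr Z) := by
    intro N hN
    have h2 := congrArg Matrix.transpose (hM _ (mem_Lr.1 hN))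
    rw [transpose_mul, transpose_mul, transpose_transpose] at h2
    exact h2.symm
  refine ⟨?_, ?_⟩
  · have h2 := congrArg Matrix.transpose (hX _ h1)
    rw [transpose_mul, transpose_mul, transpose_transpose] at h2
    exact h2.symm
  · obtain ⟨y, yi, hy⟩ := exists_YD hZ
    -- transport to the orthonormal coordinates
    have hto : ∀ W ∈ CM (Ly Z y yi), (cm y)ᵀ * W * (cm yi)ᵀ ∈ CM (Lr Z) := by
      intro W hW N hN
      have h3 := hW _ (hy.Lr_to hN)
      calc N * ((cm y)ᵀ * W * (cm yi)ᵀ)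
          = ((cm y)ᵀ * (cm yi)ᵀ) * N * ((cm y)ᵀ * W * (cm yi)ᵀ) := by rw [hy.clT, one_mul]
        _ = (cm y)ᵀ * ((cm yi)ᵀ * N * (cm y)ᵀ * W) * (cm yi)ᵀ := by simp only [mul_assoc]
        _ = (cm y)ᵀ * (W * ((cm yi)ᵀ * N * (cm y)ᵀ)) * (cm yi)ᵀ := by rw [h3]
        _ = (cm y)ᵀ * W * (cm yi)ᵀ * N * ((cm y)ᵀ * (cm yi)ᵀ) := by simp only [mul_assoc]
        _ = _ := by rw [hy.clT, mul_one]
    have hfrom : ∀ W ∈ CM (Lr Z), (cm yi)ᵀ * W * (cm y)ᵀ ∈ CM (Ly Z y yi) := by
      intro W hW N hN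
      have h3 : (cm y)ᵀ * N * (cm yi)ᵀ ∈ Lr Z := by
        rw [mem_Lr, transpose_mul, transpose_mul, transpose_transpose, transpose_transpose,
          ← mul_assoc]
        exact hN
      have h4 := hW _ h3
      calc N * ((cm yi)ᵀ * W * (cm y)ᵀ)
          = ((cm yi)ᵀ * (cm y)ᵀ) * N * ((cm yi)ᵀ * W * (cm y)ᵀ) := by rw [hy.crT, one_mul]
        _ = (cm yi)ᵀ * ((cm y)ᵀ * N * (cm yi)ᵀ * W) * (cm y)ᵀ := by simp only [mul_assoc]
        _ = (cm yi)ᵀ * (W * ((cm y)ᵀ * N * (cm yi)ᵀ)) * (cm y)ᵀ := by rw [h4]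
        _ = (cm yi)ᵀ * W * (cm y)ᵀ * N * ((cm yi)ᵀ * (cm y)ᵀ) := by simp only [mul_assoc]
        _ = _ := by rw [hy.crT, mul_one]
    have htrc : ∀ W, trace ((cm yi)ᵀ * X * (cm y)ᵀ * W) = trace (X * ((cm y)ᵀ * W * (cm yi)ᵀ)) := by
      intro W
      rw [mul_assoc, mul_assoc, trace_mul_comm]
      simp only [mul_assoc]
    have hcv : ∀ W, (cm yi)ᵀ * ((cm y)ᵀ * W * (cm yi)ᵀ) * (cm y)ᵀ = W := by
      intro W
      calc (cm yi)ᵀ * ((cm y)ᵀ * W * (cm yi)ᵀ) * (cm y)ᵀ
          = ((cm yi)ᵀ * (cm y)ᵀ) * W * ((cm yi)ᵀ * (cm y)ᵀ) := by simp only [mul_assoc]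
        _ = W := by rw [hy.crT, one_mul, mul_one]
    have hcv' : ∀ W, (cm y)ᵀ * ((cm yi)ᵀ * W * (cm y)ᵀ) * (cm yi)ᵀ = W := by
      intro W
      calc (cm y)ᵀ * ((cm yi)ᵀ * W * (cm y)ᵀ) * (cm yi)ᵀ
          = ((cm y)ᵀ * (cm yi)ᵀ) * W * ((cm y)ᵀ * (cm yi)ᵀ) := by simp only [mul_assoc]
        _ = W := by rw [hy.clT, one_mul, mul_one]
    have hXy : InB (Ly Z y yi) ((cm yi)ᵀ * X * (cm y)ᵀ) := by
      intro W hW
      have h3 := hX _ (hto W hW)
      calc (cm yi)ᵀ * X * (cm y)ᵀ * W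
          = (cm yi)ᵀ * X * (cm y)ᵀ * W * ((cm yi)ᵀ * (cm y)ᵀ) := by rw [hy.crT, mul_one]
        _ = (cm yi)ᵀ * (X * ((cm y)ᵀ * W * (cm yi)ᵀ)) * (cm y)ᵀ := by simp only [mul_assoc]
        _ = (cm yi)ᵀ * ((cm y)ᵀ * W * (cm yi)ᵀ * X) * (cm y)ᵀ := by rw [h3]
        _ = ((cm yi)ᵀ * (cm y)ᵀ) * W * ((cm yi)ᵀ * X * (cm y)ᵀ) := by simp only [mul_assoc]
        _ = _ := by rw [hy.crT, one_mul]
    have hkey := trace_CM (hy.ld hZ).adj hXy (fun W hW => by
      rw [htrc]
      refine htr _ ⟨hto W hW.1, fun N hN => ?_⟩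
      have h3 := hW.2 _ (hfrom N hN)
      calc N * ((cm y)ᵀ * W * (cm yi)ᵀ)
          = ((cm y)ᵀ * (cm yi)ᵀ) * N * ((cm y)ᵀ * W * (cm yi)ᵀ) := by rw [hy.clT, one_mul]
        _ = (cm y)ᵀ * ((cm yi)ᵀ * N * (cm y)ᵀ * W) * (cm yi)ᵀ := by simp only [mul_assoc]
        _ = (cm y)ᵀ * (W * ((cm yi)ᵀ * N * (cm y)ᵀ)) * (cm yi)ᵀ := by rw [h3]
        _ = (cm y)ᵀ * W * (cm yi)ᵀ * N * ((cm y)ᵀ * (cm yi)ᵀ) := by simp only [mul_assoc]
        _ = _ := by rw [hy.clT, mul_one]) _ (hfrom _ h1)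
    rw [htrc, hcv'] at hkey
    have h3 : trace (Xᵀ * M) = trace (X * Mᵀ) := by
      rw [← trace_transpose (Xᵀ * M), transpose_mul, transpose_transpose, trace_mul_comm]
    rw [h3]
    exact hkey

end coord

section core

variable {g : ℕ} {Z : Matrix (Fin g) (Fin g) ℂ} {ι C : Type} [Fintype ι] [DecidableEq ι]
  [Fintype C] [DecidableEq C]

theorem ext_mulVec' {m n : Type*} [Fintype n] [DecidableEq n] {M N : Matrix m n ℂ}
    (h : ∀ c, M *ᵥ c = N *ᵥ c) : M = N :=
  Matrix.toLin'.injective (LinearMap.ext fun c => by rw [toLin'_apply, toLin'_apply, h])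

theorem core (hZ : PM Z) (G : Matrix C (ι × (Fin g ⊕ Fin g)) ℂ)
    (S : Matrix (ι × (Fin g ⊕ Fin g)) C ℂ) (hGS : G * S = 1)
    (hst : ∀ N ∈ LZ Z, ∃ D : Matrix C C ℂ, G * dg1 ι N = D * G)
    {X : Matrix (Fin g ⊕ Fin g) (Fin g ⊕ Fin g) ℂ}
    (hX : ∀ M ∈ CM (LZ Z), X * M = M * X ∧ trace (X * M) = 0) :
    ∃ T : Matrix C C ℂ, T * G = G * dg1 ι X ∧ ∀ (R : Matrix C C ℂ) (m : Matrix ι ι ℂ),
      R * G = G * kroneckerMap (· * ·) m (1 : Matrix (Fin g ⊕ Fin g) (Fin g ⊕ Fin g) ℂ) →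
      T * R = R * T ∧ trace (R * T) = 0 := by
  obtain ⟨p, hp1, hp2, hp3⟩ := exists_proj_LZ hZ (LinearMap.ker (mulVecLin G)) (by
    intro N hN x hx
    obtain ⟨D, hD⟩ := hst N hN
    rw [LinearMap.mem_ker, mulVecLin_apply] at hx ⊢
    rw [mulVec_mulVec, hD, ← mulVec_mulVec, hx, mulVec_zero])
  have hGp : G * p = 0 := by
    refine ext_mulVec' fun x => ?_
    have h1 := hp1 x
    rw [LinearMap.mem_ker, mulVecLin_apply] at h1
    rw [← mulVec_mulVec, h1, zero_mulVec]
  have hps : p * (S * G - 1) = S * G - 1 := by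
    refine ext_mulVec' fun x => ?_
    rw [← mulVec_mulVec]
    refine hp2 _ ?_
    rw [LinearMap.mem_ker, mulVecLin_apply, mulVec_mulVec, Matrix.mul_sub, ← Matrix.mul_assoc, hGS, Matrix.one_mul,
      Matrix.mul_one, sub_self, zero_mulVec]
  have h1p : (1 - p) * (S * G) = 1 - p := by
    have h1 : (1 - p) * (S * G) = (S * G - 1) - p * (S * G - 1) + (1 - p) := by noncomm_ring
    rw [h1, hps, sub_self, zero_add]
  have hXp : dg1 ι X * p = p * dg1 ι X := (comm_iff X p).2 fun i j =>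
    (hX _ (fun N hN => (comm_iff N p).1 (hp3 N hN) i j)).1
  have hTG : G * dg1 ι X * (1 - p) * S * G = G * dg1 ι X := by
    calc G * dg1 ι X * (1 - p) * S * G = G * dg1 ι X * ((1 - p) * (S * G)) := by
          simp only [Matrix.mul_assoc]
      _ = G * dg1 ι X - G * (dg1 ι X * p) := by rw [h1p, Matrix.mul_sub, Matrix.mul_one, Matrix.mul_assoc]
      _ = G * dg1 ι X := by rw [hXp, ← Matrix.mul_assoc, hGp, Matrix.zero_mul, sub_zero]
  refine ⟨G * dg1 ι X * (1 - p) * S, hTG, fun R m hR => ?_⟩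
  obtain ⟨T, hT⟩ : ∃ T, T = G * dg1 ι X * (1 - p) * S := ⟨_, rfl⟩
  obtain ⟨K1, hK1⟩ : ∃ K1, K1 = kroneckerMap (· * ·) m
    (1 : Matrix (Fin g ⊕ Fin g) (Fin g ⊕ Fin g) ℂ) := ⟨_, rfl⟩
  have hK : ∀ N, dg1 ι N * K1 = K1 * dg1 ι N := by
    intro N
    rw [hK1]
    unfold dg1
    rw [← mul_kronecker_mul, ← mul_kronecker_mul, Matrix.one_mul, Matrix.mul_one, Matrix.mul_one, Matrix.one_mul]
  rw [← hK1] at hR
  rw [← hT] at hTG ⊢
  constructor
  · have h1 : T * R * G = R * T * G := by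
      rw [Matrix.mul_assoc, hR, ← Matrix.mul_assoc, hTG, Matrix.mul_assoc, hK, ← Matrix.mul_assoc, ← hR, Matrix.mul_assoc, ← hTG,
        Matrix.mul_assoc]
    calc T * R = T * R * (G * S) := by rw [hGS, Matrix.mul_one]
      _ = T * R * G * S := by rw [Matrix.mul_assoc (T * R)]
      _ = R * T * (G * S) := by rw [h1, Matrix.mul_assoc (R * T)]
      _ = R * T := by rw [hGS, Matrix.mul_one]
  · have h1 : trace (R * T) = trace (dg1 ι X * ((1 - p) * K1)) := by
      calc trace (R * T) = trace ((R * G) * (dg1 ι X * (1 - p) * S)) := by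
            rw [hT]; simp only [Matrix.mul_assoc]
        _ = trace (G * (K1 * (dg1 ι X * (1 - p) * S))) := by rw [hR, Matrix.mul_assoc]
        _ = trace (K1 * (dg1 ι X * (1 - p) * S) * G) := trace_mul_comm _ _
        _ = trace (K1 * (dg1 ι X * ((1 - p) * (S * G)))) := by simp only [Matrix.mul_assoc]
        _ = trace (dg1 ι X * (1 - p) * K1) := by rw [h1p, trace_mul_comm]
        _ = _ := by rw [Matrix.mul_assoc]
    rw [h1, trace_dg1]
    refine Finset.sum_eq_zero fun i _ => (hX _ fun N hN => ?_).2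
    refine (comm_iff N _).1 ?_ i i
    have h2 : dg1 ι N * (1 - p) = (1 - p) * dg1 ι N := by
      rw [Matrix.mul_sub, Matrix.sub_mul, Matrix.mul_one, Matrix.one_mul, hp3 N hN]
    rw [← Matrix.mul_assoc, h2, Matrix.mul_assoc, hK, Matrix.mul_assoc]

end core

section tensor

variable {K : Type} [Field K] [Algebra ℚ K] [FiniteDimensional ℚ K] {U : Type} [AddCommGroup U]
  [Module ℚ U] [Module K U] [IsScalarTower ℚ K U] [FiniteDimensional ℚ U]

/-- Multiplication by an element of `K`. -/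
def ml (U : Type) [AddCommGroup U] [Module ℚ U] [Module K U] [IsScalarTower ℚ K U] (a : K) :
    U →ₗ[ℚ] U := ((LinearMap.lsmul K U) a).restrictScalars ℚ

theorem ml_apply (a : K) (u : U) : ml U a u = a • u := rfl

variable {C : Type} [Fintype C] [DecidableEq C]

theorem tensor_kill (b : Basis C ℚ U) {n : ℕ} (hn : finrank K U ≤ n) (w : U [⋀^Fin n]→ₗ[ℚ] ℚ)
    (hb : ∀ (a : K) (v : Fin n → U) (k l : Fin n),
      w (Function.update v k (a • v k)) = w (Function.update v l (a • v l)))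
    (T : Matrix C C ℂ) (hT : ∀ a : K, T * cK ℂ (LinearMap.toMatrix b b (ml U a)) =
      cK ℂ (LinearMap.toMatrix b b (ml U a)) * T ∧
      trace (cK ℂ (LinearMap.toMatrix b b (ml U a)) * T) = 0) :
    act T (cst ℂ (fun J : Fin n → C => w fun l => b (J l))) = 0 := by
  have hfK : FiniteDimensional K U := FiniteDimensional.right ℚ K U
  let V : Submodule ℂ (Matrix C C ℂ) :=
    { carrier := {T | ∀ a : K, T * cK ℂ (LinearMap.toMatrix b b (ml U a)) =
        cK ℂ (LinearMap.toMatrix b b (ml U a)) * T ∧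
        trace (cK ℂ (LinearMap.toMatrix b b (ml U a)) * T) = 0}
      add_mem' := by
        intro x y hx hy a
        constructor
        · rw [add_mul, mul_add, (hx a).1, (hy a).1]
        · rw [mul_add, trace_add, (hx a).2, (hy a).2, add_zero]
      zero_mem' := by
        intro a
        constructor
        · rw [mul_zero, zero_mul]
        · rw [mul_zero, trace_zero]
      smul_mem' := by
        intro c x hx a
        constructor
        · rw [Matrix.smul_mul, Matrix.mul_smul, (hx a).1]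
        · rw [Matrix.mul_smul, trace_smul, (hx a).2, smul_zero] }
  refine rational_induction V (fun σ X hX a => ?_) (p := fun T =>
    act T (cst ℂ (fun J : Fin n → C => w fun l => b (J l))) = 0) ?_ (act_zero_left _)
    (fun X Y hX hY => by rw [act_add_left, hX, hY, add_zero])
    (fun c X hX => by rw [act_smul_left, hX, smul_zero]) T hT
  · constructor
    · have h1 := congrArg (fun W => W.map σ) (hX a).1
      beta_reduce at h1
      have e1 : (X * cK ℂ (LinearMap.toMatrix b b (ml U a))).map σ = X.map σ *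
          (cK ℂ (LinearMap.toMatrix b b (ml U a))).map σ := Matrix.map_mul (f := (σ : ℂ →+* ℂ))
      have e2 : (cK ℂ (LinearMap.toMatrix b b (ml U a)) * X).map σ =
          (cK ℂ (LinearMap.toMatrix b b (ml U a))).map σ * X.map σ :=
        Matrix.map_mul (f := (σ : ℂ →+* ℂ))
      rw [e1, e2, cK_map] at h1
      exact h1
    · have h1 := congrArg σ (hX a).2
      have e2 : (cK ℂ (LinearMap.toMatrix b b (ml U a)) * X).map σ =
          (cK ℂ (LinearMap.toMatrix b b (ml U a))).map σ * X.map σ :=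
        Matrix.map_mul (f := (σ : ℂ →+* ℂ))
      rw [cK_map] at e2
      rw [← e2]
      have e3 : trace ((cK ℂ (LinearMap.toMatrix b b (ml U a)) * X).map σ) =
          σ (trace (cK ℂ (LinearMap.toMatrix b b (ml U a)) * X)) := by
        unfold trace
        rw [map_sum]
        rfl
      rw [e3, h1, map_zero]
  · intro u hu
    have hu1 : ∀ a : K, u * LinearMap.toMatrix b b (ml U a) = LinearMap.toMatrix b b (ml U a) * u ∧
        trace (LinearMap.toMatrix b b (ml U a) * u) = 0 := by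
      intro a
      obtain ⟨h1, h2⟩ := hu a
      constructor
      · apply cK_inj
        rw [cK_mul, cK_mul]
        exact h1
      · have h3 : trace (cK ℂ (LinearMap.toMatrix b b (ml U a)) *
            u.map (fun x : ℚ => (x : ℂ))) =
            ((trace (LinearMap.toMatrix b b (ml U a) * u) : ℚ) : ℂ) := by
          have h4 : cK ℂ (LinearMap.toMatrix b b (ml U a)) * u.map (fun x : ℚ => (x : ℂ)) =
              cK ℂ (LinearMap.toMatrix b b (ml U a) * u) := (cK_mul ℂ _ _).symm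
          rw [h4]
          unfold trace
          push_cast
          rfl
        rw [h3] at h2
        exact_mod_cast h2
    let Tu : U →ₗ[ℚ] U := toLin b b u
    have hTu : LinearMap.toMatrix b b Tu = u := LinearMap.toMatrix_toLin b b u
    have hc : ∀ (a : K) (x : U), Tu (a • x) = a • Tu x := by
      intro a x
      have h1 : Tu ∘ₗ ml U a = ml U a ∘ₗ Tu := by
        apply (LinearMap.toMatrix b b).injective
        rw [LinearMap.toMatrix_comp b b b, LinearMap.toMatrix_comp b b b, hTu, (hu1 a).1]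
      exact congrArg (fun l => l x) h1
    let TK : U →ₗ[K] U :=
      { toFun := Tu
        map_add' := Tu.map_add
        map_smul' := hc }
    have h1 := balanced_kill hn w hb TK (fun a => by
      have h2 : (a • TK).restrictScalars ℚ = ml U a ∘ₗ Tu := rfl
      rw [h2, LinearMap.trace_eq_matrix_trace ℚ b, LinearMap.toMatrix_comp b b b, hTu, (hu1 a).2])
    rw [act_cst]
    funext J
    rw [cst_apply]
    have h2 : act u (fun J : Fin n → C => w fun l => b (J l)) J = 0 := by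
      unfold act
      rw [← h1 fun l => b (J l)]
      refine Finset.sum_congr rfl fun k _ => ?_
      have h3 : TK (b (J k)) = ∑ j, u j (J k) • b j := by
        change toLin b b u (b (J k)) = _
        rw [toLin_self]
      rw [h3, w.map_update_sum]
      refine Finset.sum_congr rfl fun j _ => ?_
      rw [w.map_update_smul, smul_eq_mul]
      congr 1
      change w (fun l => b (Function.update J k j l)) = _
      congr 1
      funext l
      by_cases hl : l = k
      · subst hl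
        rw [Function.update_self, Function.update_self]
      · rw [Function.update_of_ne hl, Function.update_of_ne hl]
    rw [h2, Rat.cast_zero]
    rfl

end tensor

section geo

variable {g : ℕ} {Z : Matrix (Fin g) (Fin g) ℂ}

theorem hom_commute' {A Y : AV} {a : ℕ} {e : A.H ≃ₗ[ℚ] (Fin g ⊕ Fin g → ℚ)}
    {e' : Y.H ≃ₗ[ℚ] (Fin a ⊕ Fin a → ℚ)}
    {J : Matrix (Fin g ⊕ Fin g) (Fin g ⊕ Fin g) ℝ} {J' : Matrix (Fin a ⊕ Fin a) (Fin a ⊕ Fin a) ℝ}
    (hc : Cht (A.per.comp e.symm.toLinearMap.toAddMonoidHom) J)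
    (hc' : Cht (Y.per.comp e'.symm.toLinearMap.toAddMonoidHom) J')
    {f : A.H →ₗ[ℚ] Y.H} (hf : IsHom A Y f) {F : Matrix (Fin a ⊕ Fin a) (Fin g ⊕ Fin g) ℚ}
    (hF : ∀ x, F *ᵥ x = e' (f (e.symm x))) :
    cK ℝ F * J = J' * cK ℝ F := by
  obtain ⟨P, I, hP1, hP2, hI1, hI2⟩ := hc.ex
  obtain ⟨P', I', hP1', hP2', hI1', hI2'⟩ := hc'.ex
  obtain ⟨Ψ, hΨ⟩ := hf
  have h1 : ∀ x : Fin g ⊕ Fin g → ℝ, Ψ (P x) = P' (cK ℝ F *ᵥ x) := by
    intro x
    have h2 : (Ψ.restrictScalars ℝ) ∘ₗ P = P' ∘ₗ Matrix.toLin' (cK ℝ F) := by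
      refine LinearMap.pi_ext' fun i => ?_
      refine LinearMap.ext_ring ?_
      have h3 : (LinearMap.single ℝ (fun _ : Fin g ⊕ Fin g => ℝ) i) 1 =
          fun j => (((Pi.single i 1 : Fin g ⊕ Fin g → ℚ) j : ℚ) : ℝ) := by
        rw [single_castR]
        rfl
      rw [LinearMap.comp_apply, LinearMap.comp_apply, LinearMap.comp_apply, LinearMap.comp_apply,
        h3, hP1, toLin'_apply]
      have h4 : (cK ℝ F *ᵥ fun j => (((Pi.single i 1 : Fin g ⊕ Fin g → ℚ) j : ℚ) : ℝ)) =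
          fun j => (((F *ᵥ (Pi.single i 1 : Fin g ⊕ Fin g → ℚ)) j : ℚ) : ℝ) := by
        funext j
        simp [mulVec, dotProduct, cK]
      rw [h4, hP1']
      change Ψ (A.per (e.symm _)) = Y.per (e'.symm _)
      rw [hΨ, hF, e'.symm_apply_apply]
    exact congrArg (fun l => l x) h2
  have h2 : ∀ x, (cK ℝ F * J) *ᵥ x = (J' * cK ℝ F) *ᵥ x := by
    intro x
    rw [← mulVec_mulVec, ← mulVec_mulVec, ← hI1' (cK ℝ F *ᵥ J *ᵥ x), ← h1, hP2,
      map_smul, h1, ← hP2', hI1']
  refine Matrix.toLin'.injective (LinearMap.ext fun x => ?_)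
  rw [toLin'_apply, toLin'_apply, h2]

theorem hom_commute_DZ {A Y : AV} {a : ℕ} {ZY : Matrix (Fin a) (Fin a) ℂ}
    {e : A.H ≃ₗ[ℚ] (Fin g ⊕ Fin g → ℚ)} {e' : Y.H ≃ₗ[ℚ] (Fin a ⊕ Fin a → ℚ)}
    (hc : Cht (A.per.comp e.symm.toLinearMap.toAddMonoidHom) (JR Z))
    (hc' : Cht (Y.per.comp e'.symm.toLinearMap.toAddMonoidHom) (JR ZY))
    {f : A.H →ₗ[ℚ] Y.H} (hf : IsHom A Y f) {F : Matrix (Fin a ⊕ Fin a) (Fin g ⊕ Fin g) ℚ}
    (hF : ∀ x, F *ᵥ x = e' (f (e.symm x))) :
    cK ℂ F * DZ Z = DZ ZY * cK ℂ F := by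
  have h1 := congrArg (fun W => W.map Complex.ofRealHom) (hom_commute' hc hc' hf hF)
  beta_reduce at h1
  rw [Matrix.map_mul, Matrix.map_mul] at h1
  have h2 : (cK ℝ F).map Complex.ofRealHom = cK ℂ F := by
    ext i j
    exact Complex.ofReal_ratCast _
  rw [h2] at h1
  unfold DZ
  rw [Matrix.mul_smul, Matrix.smul_mul]
  exact congrArg _ h1

variable {ι C : Type} [Fintype ι] [DecidableEq ι] [Fintype C] [DecidableEq C]

theorem dg1_map (σ : ℂ ≃+* ℂ) (M : Matrix (Fin g ⊕ Fin g) (Fin g ⊕ Fin g) ℂ) :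
    (dg1 ι M).map σ = dg1 ι (M.map σ) := by
  ext ⟨i, b⟩ ⟨j, b'⟩
  rw [Matrix.map_apply, dg1_apply, dg1_apply, Matrix.map_apply]
  split_ifs
  · rfl
  · exact map_zero σ

theorem stab_LZ (G : Matrix C (ι × (Fin g ⊕ Fin g)) ℚ)
    (hD : ∃ D : Matrix C C ℂ, cK ℂ G * dg1 ι (DZ Z) = D * cK ℂ G) :
    ∀ N ∈ LZ Z, ∃ D : Matrix C C ℂ, cK ℂ G * dg1 ι N = D * cK ℂ G := by
  let L : Submodule ℂ (Matrix (Fin g ⊕ Fin g) (Fin g ⊕ Fin g) ℂ) :=
    { carrier := {N | ∃ D : Matrix C C ℂ, cK ℂ G * dg1 ι N = D * cK ℂ G}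
      add_mem' := by
        rintro x y ⟨D, hD⟩ ⟨D', hD'⟩
        exact ⟨D + D', by rw [dg1_add, Matrix.mul_add, hD, hD', Matrix.add_mul]⟩
      zero_mem' := ⟨0, by rw [dg1_zero, Matrix.mul_zero, Matrix.zero_mul]⟩
      smul_mem' := by
        rintro c x ⟨D, hD⟩
        exact ⟨c • D, by rw [dg1_smul, Matrix.mul_smul, hD, Matrix.smul_mul]⟩ }
  have h1 : LZ Z ≤ L := by
    refine LZ_le (fun σ => ?_) ?_
    · obtain ⟨D, hD⟩ := hD
      refine ⟨D.map σ, ?_⟩
      have h1 := congrArg (fun W => W.map σ) hD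
      beta_reduce at h1
      have e1 : (cK ℂ G * dg1 ι (DZ Z)).map σ = (cK ℂ G).map σ * (dg1 ι (DZ Z)).map σ :=
        Matrix.map_mul (f := (σ : ℂ →+* ℂ))
      have e2 : (D * cK ℂ G).map σ = D.map σ * (cK ℂ G).map σ :=
        Matrix.map_mul (f := (σ : ℂ →+* ℂ))
      have e3 : (cK ℂ G).map σ = cK ℂ G := by
        ext i j
        exact map_ratCast σ _
      rw [e1, e2, e3, dg1_map] at h1
      exact h1
    · rintro x ⟨D, hD⟩ y ⟨D', hD'⟩
      refine ⟨D * D' - D' * D, ?_⟩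
      rw [dg1_sub, ← dg1_mul, ← dg1_mul, Matrix.mul_sub, ← Matrix.mul_assoc, ← Matrix.mul_assoc,
        hD, hD', Matrix.mul_assoc, Matrix.mul_assoc, hD, hD', ← Matrix.mul_assoc,
        ← Matrix.mul_assoc, Matrix.sub_mul]
  exact fun N hN => h1 hN

variable {A : AV} {e : A.H ≃ₗ[ℚ] (Fin g ⊕ Fin g → ℚ)}

section aux

variable {K : Type} [Field K] [Algebra ℚ K] [FiniteDimensional ℚ K] {U : Type} [AddCommGroup U]
  [Module ℚ U] [Module K U] [IsScalarTower ℚ K U] [FiniteDimensional ℚ U]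

/-- The matrix of a linear map to a space with a basis. -/
def mU (e : A.H ≃ₗ[ℚ] (Fin g ⊕ Fin g → ℚ)) (b : Basis C ℚ U) (f : A.H →ₗ[ℚ] U) :
    Matrix C (Fin g ⊕ Fin g) ℚ := of fun c j => b.repr (f (e.symm (Pi.single j 1))) c

theorem mU_mulVec (b : Basis C ℚ U) (f : A.H →ₗ[ℚ] U) (x : Fin g ⊕ Fin g → ℚ) (c : C) :
    (mU e b f *ᵥ x) c = b.repr (f (e.symm x)) c := by
  have h1 : x = ∑ j, x j • (Pi.single j 1 : Fin g ⊕ Fin g → ℚ) := by
    funext l
    rw [Finset.sum_apply, Finset.sum_eq_single l]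
    · rw [Pi.smul_apply, Pi.single_eq_same, smul_eq_mul, mul_one]
    · intro j _ hj
      rw [Pi.smul_apply, Pi.single_eq_of_ne (Ne.symm hj), smul_zero]
    · intro h
      exact absurd (Finset.mem_univ _) h
  conv_rhs => rw [h1]
  rw [map_sum, map_sum, map_sum, Finsupp.finset_sum_apply]
  change ∑ j, mU e b f c j * x j = _
  refine Finset.sum_congr rfl fun j _ => ?_
  rw [map_smul, map_smul, map_smul, Finsupp.smul_apply, smul_eq_mul, mul_comm]
  rfl

theorem lfw_aux (hZ : PM Z) {X : Matrix (Fin g ⊕ Fin g) (Fin g ⊕ Fin g) ℂ}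
    (hX : InB (Lr Z) X) (htr : ∀ M ∈ ZM (Lr Z), trace (X * M) = 0)
    {κ : Type} [Fintype κ] [DecidableEq κ] {n : ℕ} (hn : finrank K U ≤ n)
    (w : U [⋀^Fin n]→ₗ[ℚ] ℚ)
    (hb : ∀ (a : K) (v : Fin n → U) (k l : Fin n),
      w (Function.update v k (a • v k)) = w (Function.update v l (a • v l)))
    (ψ : Fin n ≃ κ) (φ : κ → (A.H →ₗ[ℚ] U))
    (hspan : Submodule.span K {v | ∃ k x, v = φ k x} = ⊤)
    (hD : ∀ (C : Type) [Fintype C] [DecidableEq C] (b : Basis C ℚ U), ∃ D : Matrix C C ℂ,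
      ∀ (k : κ) (a : K), cK ℂ (mU e b (ml U a ∘ₗ φ k)) * DZ Z = D * cK ℂ (mU e b (ml U a ∘ₗ φ k)))
    (q : (κ → Fin g ⊕ Fin g) → ℚ)
    (hq : ∀ I, q I = w fun l => φ (ψ l) (e.symm (Pi.single (I (ψ l)) 1))) :
    dm κ X *ᵥ cst ℂ q = 0 := by
  classical
  obtain ⟨b, -⟩ : ∃ b : Basis (Fin (finrank ℚ U)) ℚ U, b = finBasis ℚ U := ⟨_, rfl⟩
  obtain ⟨bK, -⟩ : ∃ bK : Basis (Fin (finrank ℚ K)) ℚ K, bK = finBasis ℚ K := ⟨_, rfl⟩
  obtain ⟨Φ, hΦ⟩ : ∃ Φ : κ × Fin (finrank ℚ K) → (A.H →ₗ[ℚ] U),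
    ∀ i, Φ i = ml U (bK i.2) ∘ₗ φ i.1 := ⟨fun i => ml U (bK i.2) ∘ₗ φ i.1, fun _ => rfl⟩
  have hΦa : ∀ k j x, Φ (k, j) x = bK j • φ k x := fun k j x => by rw [hΦ]; rfl
  have hmul : ∀ (a : K) (j : Fin (finrank ℚ K)),
      a * bK j = ∑ l, Algebra.leftMulMatrix bK a l j • bK l := by
    intro a j
    conv_lhs => rw [← bK.sum_repr (a * bK j)]
    exact Finset.sum_congr rfl fun l _ => by rw [Algebra.leftMulMatrix_eq_repr_mul]
  have hsurj : ∀ u : U, ∃ x : κ × Fin (finrank ℚ K) → A.H, u = ∑ i, Φ i (x i) := by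
    intro u
    have h1 : u ∈ Submodule.span K {v | ∃ k x, v = φ k x} := by rw [hspan]; trivial
    induction h1 using Submodule.span_induction with
    | mem u hu =>
      obtain ⟨k, x, rfl⟩ := hu
      refine ⟨fun i => if i.1 = k then bK.repr 1 i.2 • x else 0, ?_⟩
      rw [Fintype.sum_prod_type, Finset.sum_eq_single k]
      · have h2 : φ k x = ∑ j, (bK.repr 1 j • bK j) • φ k x := by
          rw [← Finset.sum_smul, bK.sum_repr, one_smul]
        conv_lhs => rw [h2]
        refine Finset.sum_congr rfl fun j _ => ?_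
        dsimp only
        rw [if_pos rfl, map_smul, hΦa, smul_assoc]
      · intro k' _ hk
        exact Finset.sum_eq_zero fun j _ => by
          dsimp only
          rw [if_neg hk, map_zero]
      · intro h
        exact absurd (Finset.mem_univ _) h
    | zero => exact ⟨0, by simp⟩
    | add u v _ _ hu hv =>
      obtain ⟨x, hx⟩ := hu
      obtain ⟨y, hy⟩ := hv
      refine ⟨x + y, ?_⟩
      rw [hx, hy, ← Finset.sum_add_distrib]
      exact Finset.sum_congr rfl fun i _ => (map_add _ _ _).symm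
    | smul a u _ hu =>
      obtain ⟨x, hx⟩ := hu
      refine ⟨fun i => ∑ j, Algebra.leftMulMatrix bK a i.2 j • x (i.1, j), ?_⟩
      rw [hx, Finset.smul_sum, Fintype.sum_prod_type, Fintype.sum_prod_type]
      refine Finset.sum_congr rfl fun k _ => ?_
      have h2 : ∀ j, a • Φ (k, j) (x (k, j)) =
          ∑ l, Φ (k, l) (Algebra.leftMulMatrix bK a l j • x (k, j)) := by
        intro j
        rw [hΦa, smul_smul, hmul, Finset.sum_smul]
        exact Finset.sum_congr rfl fun l _ => by rw [map_smul, hΦa, smul_assoc]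
      rw [Finset.sum_congr rfl fun j _ => h2 j, Finset.sum_comm]
      exact Finset.sum_congr rfl fun l _ => (map_sum _ _ _).symm
  choose xs hxs using fun c => hsurj (b c)
  -- the matrices
  obtain ⟨G0, hG0⟩ : ∃ G0 : Matrix (Fin (finrank ℚ U))
    ((κ × Fin (finrank ℚ K)) × (Fin g ⊕ Fin g)) ℚ, ∀ c i j, G0 c (i, j) = mU e b (Φ i) c j :=
    ⟨of fun c x => mU e b (Φ x.1) c x.2, fun _ _ _ => rfl⟩
  obtain ⟨S0, hS0⟩ : ∃ S0 : Matrix ((κ × Fin (finrank ℚ K)) × (Fin g ⊕ Fin g))
    (Fin (finrank ℚ U)) ℚ, ∀ c i j, S0 (i, j) c = e (xs c i) j :=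
    ⟨of fun x c => e (xs c x.1) x.2, fun _ _ _ => rfl⟩
  have hGS0 : G0 * S0 = 1 := by
    ext c c'
    rw [Matrix.mul_apply, Fintype.sum_prod_type, Matrix.one_apply]
    have h1 : ∀ i, ∑ j, G0 c (i, j) * S0 (i, j) c' = b.repr (Φ i (xs c' i)) c := by
      intro i
      have h2 := mU_mulVec (e := e) b (Φ i) (e (xs c' i)) c
      rw [e.symm_apply_apply] at h2
      rw [← h2]
      exact Finset.sum_congr rfl fun j _ => by rw [hG0, hS0]
    rw [Finset.sum_congr rfl fun i _ => h1 i, ← Finsupp.finset_sum_apply, ← map_sum, ← hxs,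
      b.repr_self, Finsupp.single_apply]
    by_cases h : c = c'
    · subst h
      simp
    · rw [if_neg h, if_neg (Ne.symm h)]
  have hGS : cK ℂ G0 * cK ℂ S0 = 1 := by
    have h1 := congrArg (fun W => W.map (Rat.castHom ℂ)) hGS0
    beta_reduce at h1
    rw [Matrix.map_mul, Matrix.map_one _ (map_zero _) (map_one _)] at h1
    exact h1
  have hst := stab_LZ (Z := Z) G0 (by
    obtain ⟨D, hD'⟩ := hD (Fin (finrank ℚ U)) b
    refine ⟨D, ?_⟩
    ext c ⟨⟨k, l⟩, j⟩
    rw [mul_dg1_apply, Matrix.mul_apply]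
    have h1 := congrFun (congrFun (hD' k (bK l)) c) j
    rw [Matrix.mul_apply, Matrix.mul_apply] at h1
    have h2 : ∀ c' j', cK ℂ G0 c' ((k, l), j') = cK ℂ (mU e b (ml U (bK l) ∘ₗ φ k)) c' j' := by
      intro c' j'
      change ((G0 c' ((k, l), j') : ℚ) : ℂ) = ((mU e b (ml U (bK l) ∘ₗ φ k) c' j' : ℚ) : ℂ)
      rw [hG0, hΦ]
    rw [Finset.sum_congr rfl fun j' _ => by rw [h2 c j'], h1]
    exact Finset.sum_congr rfl fun c' _ => by rw [h2 c' j])
  obtain ⟨T, hTG, hT⟩ := core hZ (cK ℂ G0) (cK ℂ S0) hGS hst (fun M hM => LZ_of_Lr hZ hX htr hM)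
  -- the multiplications by elements of the field
  have hkill := tensor_kill b hn w hb T (fun a => by
    refine hT _ ((1 : Matrix κ κ ℂ).kronecker (cK ℂ (Algebra.leftMulMatrix bK a))) ?_
    have h1 : LinearMap.toMatrix b b (ml U a) * G0 = G0 * kroneckerMap (· * ·)
        ((1 : Matrix κ κ ℚ).kronecker (Algebra.leftMulMatrix bK a))
        (1 : Matrix (Fin g ⊕ Fin g) (Fin g ⊕ Fin g) ℚ) := by
      ext c ⟨⟨k, l⟩, j⟩
      rw [Matrix.mul_apply]
      have h2 : ∑ c', LinearMap.toMatrix b b (ml U a) c c' * G0 c' ((k, l), j) =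
          b.repr (a • Φ (k, l) (e.symm (Pi.single j 1))) c := by
        rw [← ml_apply, ← LinearMap.toMatrix_mulVec_repr b b (ml U a)]
        exact Finset.sum_congr rfl fun c' _ => by rw [hG0]; rfl
      rw [h2, hΦa, smul_smul, hmul, Finset.sum_smul, map_sum, Finsupp.finset_sum_apply,
        Matrix.mul_apply, Fintype.sum_prod_type, Fintype.sum_prod_type, Finset.sum_eq_single k]
      · refine Finset.sum_congr rfl fun l' _ => ?_
        rw [Finset.sum_eq_single j]
        · change _ = G0 c ((k, l'), j) * ((1 : Matrix κ κ ℚ) k k *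
            Algebra.leftMulMatrix bK a l' l * (1 : Matrix (Fin g ⊕ Fin g) (Fin g ⊕ Fin g) ℚ) j j)
          rw [Matrix.one_apply_eq, Matrix.one_apply_eq, one_mul, mul_one, smul_assoc, map_smul,
            Finsupp.smul_apply, smul_eq_mul, mul_comm, hG0, hΦ]
          rfl
        · intro j' _ hj'
          change G0 c ((k, l'), j') * ((1 : Matrix κ κ ℚ) k k *
            Algebra.leftMulMatrix bK a l' l * (1 : Matrix (Fin g ⊕ Fin g) (Fin g ⊕ Fin g) ℚ) j' j) = 0
          rw [Matrix.one_apply_ne hj', mul_zero, mul_zero]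
        · intro h
          exact absurd (Finset.mem_univ _) h
      · intro k' _ hk'
        refine Finset.sum_eq_zero fun l' _ => Finset.sum_eq_zero fun j' _ => ?_
        change G0 c ((k', l'), j') * ((1 : Matrix κ κ ℚ) k' k *
            Algebra.leftMulMatrix bK a l' l * (1 : Matrix (Fin g ⊕ Fin g) (Fin g ⊕ Fin g) ℚ) j' j) = 0
        rw [Matrix.one_apply_ne hk', zero_mul, zero_mul, mul_zero]
      · intro h
        exact absurd (Finset.mem_univ _) h
    have h3 := congrArg (fun W => W.map (Rat.castHom ℂ)) h1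
    beta_reduce at h3
    rw [Matrix.map_mul, Matrix.map_mul] at h3
    refine h3.trans ?_
    congr 1
    ext ⟨⟨k, l⟩, j⟩ ⟨⟨k', l'⟩, j'⟩
    change (((1 : Matrix κ κ ℚ) k k' * Algebra.leftMulMatrix bK a l l' *
      (1 : Matrix (Fin g ⊕ Fin g) (Fin g ⊕ Fin g) ℚ) j j' : ℚ) : ℂ) =
      (1 : Matrix κ κ ℂ) k k' * ((Algebra.leftMulMatrix bK a l l' : ℚ) : ℂ) *
      (1 : Matrix (Fin g ⊕ Fin g) (Fin g ⊕ Fin g) ℂ) j j'
    rw [Matrix.one_apply, Matrix.one_apply, Matrix.one_apply, Matrix.one_apply]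
    push_cast
    split_ifs <;> simp)
  -- the columns
  obtain ⟨col, hcol⟩ : ∃ col : κ → (Fin g ⊕ Fin g) → Fin (finrank ℚ U) → ℂ,
    ∀ k j c, col k j c = ((mU e b (φ k) c j : ℚ) : ℂ) :=
    ⟨fun k j c => ((mU e b (φ k) c j : ℚ) : ℂ), fun _ _ _ => rfl⟩
  have hcolT : ∀ k j, T *ᵥ col k j = ∑ j', X j j' • col k j' := by
    intro k j
    -- the decomposition
    have h1 : ∀ j c, col k j c = ∑ l, ((bK.repr 1 l : ℚ) : ℂ) * cK ℂ G0 c ((k, l), j) := by
      intro j c
      have h2 : φ k (e.symm (Pi.single j 1)) =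
          ∑ l, bK.repr 1 l • Φ (k, l) (e.symm (Pi.single j 1)) := by
        have h3 : φ k (e.symm (Pi.single j 1)) =
            ∑ l, (bK.repr 1 l • bK l) • φ k (e.symm (Pi.single j 1)) := by
          rw [← Finset.sum_smul, bK.sum_repr, one_smul]
        conv_lhs => rw [h3]
        exact Finset.sum_congr rfl fun l _ => by rw [hΦa, smul_assoc]
      have h3 : mU e b (φ k) c j = ∑ l, bK.repr 1 l * G0 c ((k, l), j) := by
        change b.repr (φ k (e.symm (Pi.single j 1))) c = _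
        rw [h2, map_sum, Finsupp.finset_sum_apply]
        refine Finset.sum_congr rfl fun l _ => ?_
        rw [map_smul, Finsupp.smul_apply, smul_eq_mul, hG0]
        rfl
      rw [hcol, h3]
      push_cast
      rfl
    funext c
    change ∑ c', T c c' * col k j c' = _
    rw [Finset.sum_apply]
    simp only [Pi.smul_apply, smul_eq_mul, h1, Finset.mul_sum]
    rw [Finset.sum_comm, Finset.sum_comm (s := Finset.univ (α := Fin g ⊕ Fin g))]
    refine Finset.sum_congr rfl fun l _ => ?_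
    have h4 := congrFun (congrFun hTG c) ((k, l), j)
    rw [Matrix.mul_apply, mul_dg1_apply] at h4
    calc ∑ c', T c c' * (((bK.repr 1 l : ℚ) : ℂ) * cK ℂ G0 c' ((k, l), j))
        = ((bK.repr 1 l : ℚ) : ℂ) * ∑ c', T c c' * cK ℂ G0 c' ((k, l), j) := by
          rw [Finset.mul_sum]
          exact Finset.sum_congr rfl fun c' _ => by ring
      _ = _ := by
          rw [h4, Finset.mul_sum]
          exact Finset.sum_congr rfl fun j' _ => by rw [transpose_apply]; ring
  -- the value of the tensor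
  obtain ⟨cw, hcw⟩ : ∃ cw : (Fin n → Fin (finrank ℚ U)) → ℚ,
    cw = fun J => w fun l => b (J l) := ⟨_, rfl⟩
  have hval : ∀ u : Fin n → U, w u = evalF cw (fun l => ⇑(b.repr (u l))) := by
    intro u
    have h1 := CF_eval (w.toMultilinearMap.compLinearMap fun _ => b.equivFun.symm.toLinearMap)
      (fun l => ⇑(b.repr (u l)))
    have h2 : CF (w.toMultilinearMap.compLinearMap fun _ => b.equivFun.symm.toLinearMap) = cw := by
      rw [hcw]
      funext J
      change w (fun l => b.equivFun.symm (Pi.single (J l) 1)) = w fun l => b (J l)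
      congr 1
      funext l
      apply b.equivFun.injective
      rw [b.equivFun.apply_symm_apply]
      funext c
      rw [b.equivFun_self, Pi.single_apply]
      by_cases h : c = J l
      · rw [if_pos h, if_pos h.symm]
      · rw [if_neg h, if_neg (Ne.symm h)]
    rw [← h2, ← h1]
    change w u = w fun l => b.equivFun.symm (b.equivFun (u l))
    congr 1
    funext l
    rw [b.equivFun.symm_apply_apply]
  have hqv : ∀ I, cst ℂ q I = evalF (cst ℂ cw) (fun l => col (ψ l) (I (ψ l))) := by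
    intro I
    rw [cst_apply, hq, hval, evalF_castK]
    congr 1
    funext l c
    rw [hcol]
    rfl
  rw [← hcw] at hkill
  rw [dm_mulVec]
  funext I
  unfold act
  have h1 := evalF_act T (cst ℂ cw) (fun l => col (ψ l) (I (ψ l)))
  rw [hkill] at h1
  have h0 : evalF (0 : (Fin n → Fin (finrank ℚ U)) → ℂ) (fun l => col (ψ l) (I (ψ l))) = 0 := by
    unfold evalF
    exact Finset.sum_eq_zero fun J _ => by rw [Pi.zero_apply, zero_mul]
  rw [h0] at h1
  rw [Pi.zero_apply, h1]
  refine (Fintype.sum_equiv ψ _ _ fun l => ?_).symm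
  rw [hcolT]
  have h2 := (evalM (cst ℂ cw)).map_update_sum Finset.univ l
    (fun j => Xᵀ j (I (ψ l)) • col (ψ l) j) (fun l => col (ψ l) (I (ψ l)))
  change evalF (cst ℂ cw) _ = ∑ j, evalF (cst ℂ cw) _ at h2
  refine Eq.trans h2 ?_
  refine Finset.sum_congr rfl fun j _ => ?_
  rw [evalF_update_smul, hqv]
  congr 2
  funext l'
  by_cases hl : l' = l
  · subst hl
    rw [Function.update_self, Function.update_self]
  · rw [Function.update_of_ne hl, Function.update_of_ne (fun h => hl (ψ.injective h))]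

end aux

end geo

end

end Pool.Agent.NH32.WJ8

namespace Pool.Agent.NH32

open Matrix Module Pool.Agent.W437.HC Pool.Agent.W437.HD Pool.Agent.TH504.CB Pool.Agent.Y90
open Pool.Agent.H204R3.CM (IsHodge)
open Pool.Agent.W548.Odd hiding cv
open Pool.Agent.W437.HP (cK cK_mul cK_one)

/-- **The Lefschetz Lie algebra kills the Weil classes.** -/
theorem lfw_of : St_lfw := by
  intro g Z A e hZ hc X hX htr κ _ _ q hq
  obtain ⟨Y, n, w, ψ, φ, ⟨-, K, iK, iA, ρ, hK, hρ, hdim, hbal⟩, hφ, hq⟩ := hq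
  letI : Module K Y.H := Module.compHom Y.H ρ.toRingHom
  have hsm : ∀ (a : K) (v : Y.H), a • v = ρ a v := fun _ _ => rfl
  haveI : IsScalarTower ℚ K Y.H := ⟨fun c a v => by
    rw [hsm, hsm, map_smul]
    rfl⟩
  have hn : finrank K Y.H = n := by
    have h1 := Module.finrank_mul_finrank ℚ K Y.H
    rw [hdim, mul_comm] at h1
    exact Nat.eq_of_mul_eq_mul_right finrank_pos h1
  haveI : FiniteDimensional K Y.H := FiniteDimensional.right ℚ K Y.H
  let U : Submodule K Y.H := Submodule.span K {v | ∃ k x, v = φ k x}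
  have hφU : ∀ k x, φ k x ∈ U := fun k x => Submodule.subset_span ⟨k, x, rfl⟩
  haveI : FiniteDimensional ℚ U :=
    FiniteDimensional.finiteDimensional_submodule (U.restrictScalars ℚ)
  let inc : U →ₗ[ℚ] Y.H := (U.subtype).restrictScalars ℚ
  have hinc : Function.Injective inc := Subtype.val_injective
  refine WJ8.lfw_aux (K := K) (U := U) (e := e) hZ hX htr (n := n) ?_ (w.compLinearMap inc) ?_ ψ
    (fun k => { toFun := fun x => ⟨φ k x, hφU k x⟩
                map_add' := fun x y => Subtype.ext (map_add (φ k) x y)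
                map_smul' := fun c x => Subtype.ext (map_smul (φ k) c x) }) ?_ ?_ q ?_
  · rw [← hn]
    exact Submodule.finrank_le U
  · intro a v k l
    have h1 := hbal a (fun i => inc (v i)) k l
    have h2 : ∀ k, w.compLinearMap inc (Function.update v k (a • v k)) =
        w (Function.update (fun i => inc (v i)) k (ρ a (inc (v k)))) := by
      intro k
      rw [AlternatingMap.compLinearMap_apply]
      congr 1
      funext i
      by_cases hi : i = k
      · subst hi
        rw [Function.update_self, Function.update_self]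
        rfl
      · rw [Function.update_of_ne hi, Function.update_of_ne hi]
    rw [h2, h2]
    exact h1
  · rw [eq_top_iff]
    rintro ⟨u, hu⟩ -
    have h1 : ∀ u (hu : u ∈ U), (⟨u, hu⟩ : U) ∈ Submodule.span K
        {v : U | ∃ k x, v = ⟨φ k x, hφU k x⟩} := by
      intro u hu
      induction hu using Submodule.span_induction with
      | mem u hu' =>
        obtain ⟨k, x, rfl⟩ := hu'
        exact Submodule.subset_span ⟨k, x, rfl⟩
      | zero => exact Submodule.zero_mem _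
      | add x y hx hy h1 h2 => exact Submodule.add_mem _ h1 h2
      | smul a x hx h1 => exact Submodule.smul_mem _ a h1
    exact h1 u hu
  · intro C _ _ b
    obtain ⟨E, hE⟩ := Y.pol
    obtain ⟨a, ZY, hZY, eY, hcY, -⟩ := exists_ppavE Y.span Y.rank hE
    obtain ⟨π, hπ⟩ := inc.exists_leftInverse_of_injective (LinearMap.ker_eq_bot.2 hinc)
    -- the inclusion and the projection
    let P : Matrix (Fin a ⊕ Fin a) C ℚ := LinearMap.toMatrix b (Pi.basisFun ℚ _)
      (eY.toLinearMap ∘ₗ inc)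
    let Q : Matrix C (Fin a ⊕ Fin a) ℚ := LinearMap.toMatrix (Pi.basisFun ℚ _) b
      (π ∘ₗ eY.symm.toLinearMap)
    refine ⟨cK ℂ Q * DZ ZY * cK ℂ P, fun k x => ?_⟩
    let f : A.H →ₗ[ℚ] Y.H := WJ8.ml Y.H x ∘ₗ φ k
    have hf : IsHom A Y f := IsHom.comp (hρ x) (hφ k)
    let F : Matrix (Fin a ⊕ Fin a) (Fin g ⊕ Fin g) ℚ := LinearMap.toMatrix'
      (eY.toLinearMap ∘ₗ f ∘ₗ e.symm.toLinearMap)
    have hF : ∀ x, F *ᵥ x = eY (f (e.symm x)) := by
      intro x
      rw [← toLin'_apply, toLin'_toMatrix']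
      rfl
    have h1 := WJ8.hom_commute_DZ hc hcY hf hF
    obtain ⟨φU, hφU'⟩ : ∃ φU : A.H →ₗ[ℚ] U, φU = WJ8.ml U x ∘ₗ
      ({ toFun := fun x => ⟨φ k x, hφU k x⟩
         map_add' := fun x y => Subtype.ext (map_add (φ k) x y)
         map_smul' := fun c x => Subtype.ext (map_smul (φ k) c x) } : A.H →ₗ[ℚ] U) := ⟨_, rfl⟩
    have hfU : ∀ v, inc (φU v) = f v := by
      intro v
      rw [hφU']
      rfl
    rw [← hφU']
    have hFj : ∀ c j, F c j = eY (f (e.symm (Pi.single j 1))) c := by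
      intro c j
      rw [← hF, mulVec_single_one]
      rfl
    have hPm : P * WJ8.mU e b φU = F := by
      ext c j
      have h2 := congrFun (LinearMap.toMatrix_mulVec_repr b (Pi.basisFun ℚ (Fin a ⊕ Fin a))
        (eY.toLinearMap ∘ₗ inc) (φU (e.symm (Pi.single j 1)))) c
      rw [Pi.basisFun_repr] at h2
      rw [hFj, ← hfU]
      exact h2
    have hQF : Q * F = WJ8.mU e b φU := by
      ext c j
      have h2 := congrFun (LinearMap.toMatrix_mulVec_repr (Pi.basisFun ℚ (Fin a ⊕ Fin a)) b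
        (π ∘ₗ eY.symm.toLinearMap) (eY (f (e.symm (Pi.single j 1))))) c
      have h3 : (π ∘ₗ eY.symm.toLinearMap) (eY (f (e.symm (Pi.single j 1)))) =
          φU (e.symm (Pi.single j 1)) := by
        change π (eY.symm (eY (f (e.symm (Pi.single j 1))))) = _
        rw [eY.symm_apply_apply, ← hfU]
        exact congrArg (fun l => l (φU (e.symm (Pi.single j 1)))) hπ
      rw [h3] at h2
      refine Eq.trans ?_ h2
      rw [Matrix.mul_apply]
      refine Finset.sum_congr rfl fun c' _ => ?_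
      rw [hFj, Pi.basisFun_repr]
    calc cK ℂ (WJ8.mU e b φU) * DZ Z = cK ℂ Q * (cK ℂ F * DZ Z) := by
          rw [← hQF, cK_mul, Matrix.mul_assoc]
      _ = cK ℂ Q * (DZ ZY * cK ℂ (P * WJ8.mU e b φU)) := by rw [h1, hPm]
      _ = _ := by rw [cK_mul]; simp only [Matrix.mul_assoc]
  · intro I
    exact hq I

end Pool.Agent.NH32
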