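import Mathlib
import Pool.Agent.NH32.WlA

/-!
# J9: the decomposition of the centre
-/

set_option autoImplicit false
set_option linter.unusedSectionVars false

namespace Pool.Agent.NH32

open Matrix Module

noncomputable section

namespace WJ9

variable {B : Type} [Fintype B] [DecidableEq B] {L : Submodule ℂ (Matrix B B ℂ)}

theorem CM_one : (1 : Matrix B B ℂ) ∈ CM L := fun X _ => by rw [mul_one, one_mul]

theorem CM_mul {M N : Matrix B B ℂ} (hM : M ∈ CM L) (hN : N ∈ CM L) : M * N ∈ CM L := by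
  intro X hX
  rw [← mul_assoc, hM X hX, mul_assoc, hN X hX, mul_assoc]

/-- the centre as a subalgebra -/
def ZA (L : Submodule ℂ (Matrix B B ℂ)) : Subalgebra ℂ (Matrix B B ℂ) where
  carrier := {M | M ∈ ZM L}
  mul_mem' := by
    rintro M N hM hN
    refine ⟨CM_mul hM.1 hN.1, fun K hK => ?_⟩
    rw [← mul_assoc, hM.2 K hK, mul_assoc, hN.2 K hK, mul_assoc]
  add_mem' := fun hM hN => (ZM L).add_mem hM hN
  algebraMap_mem' := by
    intro c
    rw [Algebra.algebraMap_eq_smul_one]
    exact (ZM L).smul_mem c ⟨CM_one, fun N _ => by rw [mul_one, one_mul]⟩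

/-- conjugated diagonal matrices -/
def Ph (g : Matrix B B ℂ) (hg : gᴴ * g = 1) : (B → ℂ) →ₐ[ℂ] Matrix B B ℂ :=
  AlgHom.ofLinearMap
    { toFun := fun h => g * diagonal h * gᴴ
      map_add' := by
        intro h k
        have h1 : diagonal (h + k) = diagonal h + diagonal k := (diagonal_add h k).symm
        rw [h1, mul_add, add_mul]
      map_smul' := by
        intro c h
        rw [diagonal_smul, Matrix.mul_smul, Matrix.smul_mul, RingHom.id_apply] }
    (by
      change g * diagonal (1 : B → ℂ) * gᴴ = 1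
      have h1 : diagonal (1 : B → ℂ) = 1 := diagonal_one
      rw [h1, mul_one]
      exact mul_eq_one_comm.mp hg)
    (by
      intro h k
      change g * diagonal (h * k) * gᴴ = (g * diagonal h * gᴴ) * (g * diagonal k * gᴴ)
      have h1 : (g * diagonal h * gᴴ) * (g * diagonal k * gᴴ) =
          g * diagonal h * (gᴴ * g) * diagonal k * gᴴ := by noncomm_ring
      have h2 : diagonal (h * k) = diagonal h * diagonal k := (diagonal_mul_diagonal h k).symm
      rw [h1, hg, mul_one, h2, ← mul_assoc g])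

theorem Ph_apply {g : Matrix B B ℂ} (hg : gᴴ * g = 1) (h : B → ℂ) :
    Ph g hg h = g * diagonal h * gᴴ := rfl

theorem Ph_inj {g : Matrix B B ℂ} (hg : gᴴ * g = 1) : Function.Injective (Ph g hg) := by
  intro h k hhk
  rw [Ph_apply, Ph_apply] at hhk
  have h1 : ∀ X : Matrix B B ℂ, gᴴ * (g * X * gᴴ) * g = X := by
    intro X
    calc gᴴ * (g * X * gᴴ) * g = (gᴴ * g) * X * (gᴴ * g) := by noncomm_ring
      _ = X := by rw [hg, one_mul, mul_one]
  have h2 := congrArg (fun Y => gᴴ * Y * g) hhk
  simp only [h1] at h2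
  exact diagonal_injective h2

theorem Ph_star {g : Matrix B B ℂ} (hg : gᴴ * g = 1) (h : B → ℂ) :
    (Ph g hg h)ᴴ = Ph g hg (star h) := by
  rw [Ph_apply, Ph_apply, conjTranspose_mul, conjTranspose_mul, conjTranspose_conjTranspose,
    diagonal_conjTranspose, mul_assoc]

/-- all elements of the centre are conjugated diagonal matrices -/
theorem exists_Ph (hadj : ∀ X ∈ L, Xᴴ ∈ L) : ∃ (g : Matrix B B ℂ) (hg : gᴴ * g = 1),
    ∀ M ∈ ZM L, ∃ h : B → ℂ, M = Ph g hg h := by
  obtain ⟨g, hg, hdiag⟩ := sim_diag {M : Matrix B B ℂ | Mᴴ = M ∧ M ∈ ZM L} (fun M hM => hM.1)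
    (fun M hM N hN => hN.2.2 M hM.2.1)
  have hgg : g * gᴴ = 1 := mul_eq_one_comm.mp hg
  have h1 : ∀ M ∈ ZM L, Mᴴ = M → ∃ h : B → ℂ, M = Ph g hg h := by
    intro M hM hH
    obtain ⟨d, hd⟩ := hdiag M ⟨hH, hM⟩
    refine ⟨d, ?_⟩
    rw [Ph_apply, ← hd, mul_assoc, hgg, mul_one]
  refine ⟨g, hg, fun M hM => ?_⟩
  have hM' := ZM_adj hadj hM
  obtain ⟨a, ha⟩ := h1 (M + Mᴴ) ((ZM L).add_mem hM hM') (herm_one M)
  obtain ⟨b, hb⟩ := h1 (Complex.I • (M - Mᴴ)) ((ZM L).smul_mem _ ((ZM L).sub_mem hM hM'))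
    (herm_two M)
  refine ⟨(1 / 2 : ℂ) • a + (-(Complex.I) / 2 : ℂ) • b, ?_⟩
  rw [map_add, map_smul, map_smul, ← ha, ← hb]
  exact herm_dec M

end WJ9

open WJ9 in
/-- **J9.** -/
theorem dec_of : St_dec := by
  classical
  intro B _ _ L hadj
  obtain ⟨g, hg, hPh⟩ := exists_Ph (L := L) hadj
  set A : Subalgebra ℂ (B → ℂ) := (ZA L).comap (Ph g hg) with hA
  have hmem : ∀ h : B → ℂ, h ∈ A ↔ Ph g hg h ∈ ZM L := fun h => Iff.rfl
  let S : Setoid B := 
    { r := fun b b' => ∀ f ∈ A, f b = f b'
      iseqv := ⟨fun b f _ => rfl, fun h f hf => (h f hf).symm,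
        fun h1 h2 f hf => (h1 f hf).trans (h2 f hf)⟩ }
  let Q := Quotient S
  have : Fintype Q := Fintype.ofFinite _
  let e : Q ≃ Fin (Fintype.card Q) := Fintype.equivFin Q
  let cl : B → Fin (Fintype.card Q) := fun b => e (Quotient.mk S b)
  have hcl : ∀ b b', cl b = cl b' ↔ ∀ f ∈ A, f b = f b' := by
    intro b b'
    simp only [cl, e.apply_eq_iff_eq]
    exact Quotient.eq
  let rep : Fin (Fintype.card Q) → B := fun i => (e.symm i).out
  have hrep : ∀ i, cl (rep i) = i := by
    intro i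
    simp only [cl, rep]
    rw [Quotient.out_eq, e.apply_symm_apply]
  have hconst : ∀ f ∈ A, ∀ b, f b = f (rep (cl b)) := by
    intro f hf b
    exact (hcl b (rep (cl b))).1 (hrep (cl b)).symm f hf
  let ind : Fin (Fintype.card Q) → (B → ℂ) := fun i b => if cl b = i then 1 else 0
  have hind : ∀ i, ind i ∈ A := by
    intro i
    apply fin_sep
    intro y y' h
    simp only [ind]
    rw [(hcl y y').2 h]
  let E : Fin (Fintype.card Q) → Matrix B B ℂ := fun i => Ph g hg (ind i)
  have hmul : ∀ f ∈ A, ∀ i, f * ind i = f (rep i) • ind i := by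
    intro f hf i
    funext b
    simp only [Pi.mul_apply, Pi.smul_apply, smul_eq_mul, ind]
    by_cases hb : cl b = i
    · rw [if_pos hb, hconst f hf b, hb]
    · rw [if_neg hb, mul_zero, mul_zero]
  have hEM : ∀ i, Mz L (E i) := by
    intro i
    refine ⟨(hmem _).1 (hind i), ?_, ?_, ?_⟩
    · change Ph g hg (ind i) * Ph g hg (ind i) = Ph g hg (ind i)
      rw [← map_mul]
      congr 1
      funext b
      simp only [Pi.mul_apply, ind]
      split_ifs <;> simp
    · intro h0
      have h1 : ind i = 0 := Ph_inj hg (by rw [map_zero]; exact h0)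
      have h2 := congrFun h1 (rep i)
      simp only [ind, Pi.zero_apply] at h2
      rw [if_pos (hrep i)] at h2
      exact one_ne_zero h2
    · intro z hz
      obtain ⟨h, rfl⟩ := hPh z hz
      refine ⟨h (rep i), ?_⟩
      change Ph g hg h * Ph g hg (ind i) = h (rep i) • Ph g hg (ind i)
      rw [← map_mul, ← map_smul, hmul h ((hmem h).2 hz) i]
  refine ⟨Fintype.card Q, E, hEM, ?_, ?_, ?_, ?_, ?_⟩
  · intro i j hij
    change Ph g hg (ind i) * Ph g hg (ind j) = 0
    rw [← map_mul, ← map_zero (Ph g hg)]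
    congr 1
    funext b
    simp only [Pi.mul_apply, ind, Pi.zero_apply]
    by_cases hb : cl b = i
    · rw [if_neg (fun h => hij (hb.symm.trans h)), mul_zero]
    · rw [if_neg hb, zero_mul]
  · change ∑ i, Ph g hg (ind i) = 1
    rw [← map_sum, ← map_one (Ph g hg)]
    congr 1
    funext b
    simp [ind, Finset.sum_apply]
  · intro i
    change (Ph g hg (ind i))ᴴ = Ph g hg (ind i)
    rw [Ph_star]
    congr 1
    funext b
    simp only [Pi.star_apply, ind]
    split_ifs <;> simp
  · intro F hF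
    obtain ⟨h1, h2, h3, h4⟩ := hF
    obtain ⟨f, rfl⟩ := hPh F h1
    have hf : f ∈ A := (hmem f).2 h1
    have hff : f * f = f := Ph_inj hg (by rw [map_mul]; exact h2)
    obtain ⟨b, hb⟩ : ∃ b, f b ≠ 0 := by
      by_contra hcon
      push Not at hcon
      apply h3
      have : f = 0 := funext hcon
      rw [this, map_zero]
    have hb1 : f b = 1 := by
      have h5 := congrFun hff b
      rw [Pi.mul_apply] at h5
      exact mul_left_cancel₀ hb (by rw [h5, mul_one])
    refine ⟨cl b, ?_⟩
    obtain ⟨c, hc⟩ := h4 (E (cl b)) (hEM (cl b)).1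
    have h5 : ind (cl b) * f = c • f := by
      apply Ph_inj hg
      rw [map_mul, map_smul]
      exact hc
    have h6 : ind (cl b) * f = f (rep (cl b)) • ind (cl b) := by
      rw [mul_comm]
      exact hmul f hf (cl b)
    have h7 : f (rep (cl b)) = 1 := by rw [← hconst f hf b, hb1]
    have h8 : c = 1 := by
      have h9 := congrFun h5 b
      simp only [Pi.mul_apply, Pi.smul_apply, smul_eq_mul, ind, if_true] at h9
      rw [hb1, mul_one, mul_one] at h9
      exact h9.symm
    change Ph g hg f = Ph g hg (ind (cl b))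
    congr 1
    rw [h8, one_smul] at h5
    rw [h7, one_smul] at h6
    exact h5.symm.trans h6
  · intro z hz
    obtain ⟨h, rfl⟩ := hPh z hz
    have hh : h ∈ A := (hmem h).2 hz
    refine ⟨fun i => h (rep i), ?_⟩
    change Ph g hg h = ∑ i, h (rep i) • Ph g hg (ind i)
    simp only [← map_smul]
    rw [← map_sum]
    congr 1
    funext b
    rw [Finset.sum_apply, Finset.sum_eq_single (cl b)]
    · simp only [Pi.smul_apply, smul_eq_mul, ind, if_true, mul_one]
      exact hconst h hh b
    · intro i _ hi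
      simp only [Pi.smul_apply, smul_eq_mul, ind]
      rw [if_neg (fun h => hi h.symm), mul_zero]
    · intro h
      exact absurd (Finset.mem_univ _) h

end

end Pool.Agent.NH32
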