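import Mathlib
import Pool.Agent.NH32.GsB
import Pool.Agent.NH32.WJ6
import Pool.Agent.NH32.WJ8
import Pool.Agent.NH32.WJ9
import Pool.Agent.NH32.Coo

/-!
# Project G: the field of the traces (G13)
-/

set_option linter.unusedSectionVars false

namespace Pool.Agent.NH32

open Matrix Module Pool.Agent.W437.HC Pool.Agent.W437.HD Pool.Agent.TH504.CB Pool.Agent.Y90
open Pool.Agent.H204R3.CM (IsHodge)
open Pool.Agent.W548.Odd hiding cv
open scoped ComplexOrder

noncomputable section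

namespace GJ13

open WJ2 WJ8

section mat

variable {B : Type} [Fintype B] [DecidableEq B] {L : Submodule ℂ (Matrix B B ℂ)}

/-- Normal idempotents are Hermitian. -/
theorem herm_of {p : Matrix B B ℂ} (hp : p * p = p) (hc : pᴴ * p = p * pᴴ) : pᴴ = p := by
  have hq : pᴴ * pᴴ = pᴴ := by rw [← conjTranspose_mul, hp]
  have h1 : (p - p * pᴴ)ᴴ * (p - p * pᴴ) = 0 := by
    rw [conjTranspose_sub, conjTranspose_mul, conjTranspose_conjTranspose]
    obtain ⟨q, hqd⟩ : ∃ q, q = pᴴ := ⟨_, rfl⟩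
    rw [← hqd] at hc hq ⊢
    have e1 : (q - p * q) * (p - p * q) = q * p - q * p * q - p * (q * p) + p * (q * p) * q := by
      noncomm_ring
    rw [e1, hc]
    have e2 : p * q - p * q * q - p * (p * q) + p * (p * q) * q =
        p * q - p * (q * q) - (p * p) * q + (p * p) * (q * q) := by noncomm_ring
    rw [e2, hp, hq]
    noncomm_ring
  have h2 : p = p * pᴴ := sub_eq_zero.1 (conjTranspose_mul_self_eq_zero.1 h1)
  calc pᴴ = (p * pᴴ)ᴴ := by rw [← h2]
    _ = p * pᴴ := by rw [conjTranspose_mul, conjTranspose_conjTranspose]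
    _ = p := h2.symm

/-- Traces of products with elements of the commutant. -/
theorem trace_dec (hadj : ∀ X ∈ L, Xᴴ ∈ L) {s : ℕ} {E : Fin s → Matrix B B ℂ}
    (hE : ∀ i, Mz L (E i)) (hij : ∀ i j, i ≠ j → E i * E j = 0)
    (hz : ∀ z ∈ ZM L, ∃ x : Fin s → ℂ, z = ∑ i, x i • E i) {X p : Matrix B B ℂ} (hX : InB L X)
    (hp : p ∈ CM L) :
    trace (X * p) = ∑ i, trace (X * E i) * (trace (E i * p) / trace (E i)) := by
  have ht : ∀ i, trace (E i) ≠ 0 := by
    intro i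
    obtain ⟨r, hr, hr0, -⟩ := idem_trace (hE i).2.1
    rw [hr]
    exact_mod_cast (hr0 (hE i).2.2.1).ne'
  obtain ⟨x, hx⟩ : ∃ x, x = ∑ i, (trace (X * E i) / trace (E i)) • E i := ⟨_, rfl⟩
  have hxZ : x ∈ ZM L := by
    rw [hx]
    exact Submodule.sum_mem _ fun i _ => (ZM L).smul_mem _ (hE i).1
  have hxB : InB L (X - x) := by
    intro M hM
    rw [sub_mul, mul_sub, hX M hM, hxZ.2 M hM]
  have h1 : ∀ M ∈ ZM L, trace ((X - x) * M) = 0 := by
    intro M hM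
    obtain ⟨m, rfl⟩ := hz M hM
    rw [Finset.mul_sum, trace_sum]
    refine Finset.sum_eq_zero fun j _ => ?_
    rw [Matrix.mul_smul, trace_smul, sub_mul, trace_sub]
    have h2 : x * E j = (trace (X * E j) / trace (E j)) • E j := by
      rw [hx, Finset.sum_mul, Finset.sum_eq_single j]
      · rw [Matrix.smul_mul, (hE j).2.1]
      · intro i _ hi
        rw [Matrix.smul_mul, hij i j hi, smul_zero]
      · intro h
        exact absurd (Finset.mem_univ j) h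
    rw [h2, trace_smul, smul_eq_mul, smul_eq_mul, div_mul_cancel₀ _ (ht j), sub_self, mul_zero]
  have h2 := trace_CM hadj hxB h1 p hp
  rw [sub_mul, trace_sub, sub_eq_zero] at h2
  rw [h2, hx, Finset.sum_mul, trace_sum]
  refine Finset.sum_congr rfl fun i _ => ?_
  rw [Matrix.smul_mul, trace_smul, smul_eq_mul]
  ring

/-- The trace of an involution times an idempotent commuting with it. -/
theorem trace_int {D E : Matrix B B ℂ} (hD : D * D = 1) (hE : E * E = E) (hc : D * E = E * D) :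
    ∃ n : ℤ, trace (D * E) = n := by
  obtain ⟨r, hr, -, -⟩ := idem_trace hE
  have ha : ((1 / 2 : ℂ) • (E + D * E)) * ((1 / 2 : ℂ) • (E + D * E)) =
      (1 / 2 : ℂ) • (E + D * E) := by
    have e1 : (E + D * E) * (E + D * E) = E * E + (E * D) * E + D * (E * E) + D * (E * D) * E := by
      noncomm_ring
    have e2 : (E + D * E) * (E + D * E) = (2 : ℂ) • (E + D * E) := by
      rw [e1, ← hc, hE]
      have e3 : E + D * E * E + D * E + D * (D * E) * E =
          E + D * (E * E) + D * E + (D * D) * (E * E) := by noncomm_ring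
      rw [e3, hE, hD, one_mul, two_smul]
      abel
    rw [Matrix.smul_mul, Matrix.mul_smul, e2, smul_smul, smul_smul]
    norm_num
  obtain ⟨r', hr', -, -⟩ := idem_trace ha
  rw [trace_smul, trace_add, hr, smul_eq_mul] at hr'
  refine ⟨2 * (r' : ℤ) - r, ?_⟩
  push_cast
  rw [← hr']
  ring

end mat

variable {g : ℕ} {Z : Matrix (Fin g) (Fin g) ℂ}

/-- The complex conjugates of the central idempotents. -/
theorem conj_idem (h : PM Z) {E : Matrix (Fin g ⊕ Fin g) (Fin g ⊕ Fin g) ℂ} (hE : E ∈ ZM (Lr Z))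
    (hEE : E * E = E) : E.map cj = -(Om g ℂ * Eᵀ * Om g ℂ) := by
  obtain ⟨y, yi, hy⟩ := exists_YD h
  have hu := h.det
  have hE' : (ph hy).P E ∈ ZM (Ly Z y yi) := ((ph hy).zm_iff E).2 hE
  have hEE' : (ph hy).P E * (ph hy).P E = (ph hy).P E := by rw [← (ph hy).mul, hEE]
  have h1 := herm_of hEE' (hE'.2 _ (CM_adj (hy.ld h).adj hE'.1))
  rw [ph_apply, conjTranspose_mul, conjTranspose_mul] at h1
  have e1 : ((cm y)ᵀ)ᴴ = cm y := by rw [← cm_conjT, conjTranspose_conjTranspose]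
  have e2 : ((cm yi)ᵀ)ᴴ = cm yi := by rw [← cm_conjT, conjTranspose_conjTranspose]
  rw [e1, e2] at h1
  have h2 : ((cm y)ᵀ * cm y) * Eᴴ = E * ((cm y)ᵀ * cm y) := by
    calc ((cm y)ᵀ * cm y) * Eᴴ = (cm y)ᵀ * (cm y * (Eᴴ * cm yi)) * cm y := by
          have : (cm y)ᵀ * (cm y * (Eᴴ * cm yi)) * cm y =
              (cm y)ᵀ * cm y * Eᴴ * (cm yi * cm y) := by noncomm_ring
          rw [this, hy.cl, mul_one]
      _ = (cm y)ᵀ * ((cm yi)ᵀ * E * (cm y)ᵀ) * cm y := by rw [h1]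
      _ = ((cm y)ᵀ * (cm yi)ᵀ) * E * ((cm y)ᵀ * cm y) := by noncomm_ring
      _ = _ := by rw [hy.clT, one_mul]
  have hOS : (cm y)ᵀ * cm y = Om g ℂ * cm (JR Z) := by
    rw [← cm_Om, ← cm_mul, hy.pol, cm_mul, cm_transpose]
  have hJD : cm (JR Z) = Complex.I • DZ Z := by
    change _ = Complex.I • ((-Complex.I) • cm (JR Z))
    rw [smul_smul, show Complex.I * -Complex.I = 1 by simp, one_smul]
  have hcE : E.map cj ∈ ZM (Lr Z) := WJ6.gal_ZMg WJ6.gal_Lr cj E hE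
  have hEH : (E.map cj)ᵀ = Eᴴ := rfl
  have hDT : (DZ Z)ᵀ ∈ Lr Z := by
    rw [mem_Lr, transpose_transpose]
    exact DZ_mem
  have h3 : DZ Z * Eᴴ = Eᴴ * DZ Z := by
    have h4 := congrArg Matrix.transpose (hcE.1 _ hDT)
    rw [transpose_mul, transpose_mul, transpose_transpose, hEH] at h4
    exact h4.symm
  have h4 : cm (JR Z) * Eᴴ = Eᴴ * cm (JR Z) := by
    rw [hJD, Matrix.smul_mul, Matrix.mul_smul, h3]
  have hJ2 : cm (JR Z) * cm (JR Z) = -1 := by
    rw [← cm_mul, JR_sq hu, cm_neg, cm_one]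
  rw [hOS] at h2
  have h5 : Om g ℂ * Eᴴ * cm (JR Z) = E * Om g ℂ * cm (JR Z) := by
    rw [mul_assoc, ← h4, ← mul_assoc, h2, mul_assoc]
  have h6 : Om g ℂ * Eᴴ = E * Om g ℂ := by
    have h7 := congrArg (fun W => W * cm (JR Z)) h5
    beta_reduce at h7
    rw [mul_assoc, mul_assoc (E * Om g ℂ), hJ2, mul_neg_one, mul_neg_one, neg_inj] at h7
    exact h7
  have h7 : Eᴴ = -(Om g ℂ * (E * Om g ℂ)) := by
    rw [← h6, ← mul_assoc, Om_sq, neg_one_mul, neg_neg]
  have h8 := congrArg Matrix.transpose h7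
  rw [← hEH, transpose_transpose, transpose_neg, transpose_mul, transpose_mul, Om_transpose] at h8
  rw [h8]
  noncomm_ring

/-- The entries of the central idempotents. -/
def Sg (Z : Matrix (Fin g) (Fin g) ℂ) : Set ℂ :=
  {z | ∃ E ∈ ZM (Lr Z), E * E = E ∧ ∃ i j, z = E i j}

theorem Sg_finite : (Sg Z).Finite := by
  have hfin := WJ6.finite_idem (WJ6.ZA (Lr Z)) (fun x hx y hy => hy.2 x hx.1)
  have h1 : (⋃ E ∈ {E : Matrix (Fin g ⊕ Fin g) (Fin g ⊕ Fin g) ℂ |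
      E ∈ WJ6.ZA (Lr Z) ∧ E * E = E}, Set.range fun q : (Fin g ⊕ Fin g) × (Fin g ⊕ Fin g) =>
        E q.1 q.2).Finite := hfin.biUnion fun E _ => Set.finite_range _
  refine h1.subset ?_
  rintro z ⟨E, hE, hEE, i, j, rfl⟩
  exact Set.mem_biUnion (x := E) ⟨hE, hEE⟩ ⟨(i, j), rfl⟩

/-- The field. -/
def KF (Z : Matrix (Fin g) (Fin g) ℂ) : Subfield ℂ := Subfield.closure (insert Complex.I (Sg Z))

theorem mem_KF {E : Matrix (Fin g ⊕ Fin g) (Fin g ⊕ Fin g) ℂ} (hE : E ∈ ZM (Lr Z))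
    (hEE : E * E = E) (i j) : E i j ∈ KF Z :=
  Subfield.subset_closure (Set.mem_insert_of_mem _ ⟨E, hE, hEE, i, j, rfl⟩)

theorem map_idem {E : Matrix (Fin g ⊕ Fin g) (Fin g ⊕ Fin g) ℂ} (hEE : E * E = E)
    (σ : ℂ ≃+* ℂ) : E.map σ * E.map σ = E.map σ := by
  have h1 : (E * E).map σ = E.map σ * E.map σ := Matrix.map_mul (f := (σ : ℂ →+* ℂ))
  rw [← h1, hEE]

theorem sig_I (σ : ℂ ≃+* ℂ) : σ Complex.I = Complex.I ∨ σ Complex.I = -Complex.I := by
  have h1 : σ Complex.I * σ Complex.I = -1 := by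
    rw [← map_mul, Complex.I_mul_I, map_neg, map_one]
  have h2 : (σ Complex.I - Complex.I) * (σ Complex.I + Complex.I) = 0 := by
    have : (σ Complex.I - Complex.I) * (σ Complex.I + Complex.I) =
        σ Complex.I * σ Complex.I - Complex.I * Complex.I := by ring
    rw [this, h1, Complex.I_mul_I, sub_self]
  rcases mul_eq_zero.1 h2 with h | h
  · exact Or.inl (sub_eq_zero.1 h)
  · exact Or.inr (eq_neg_of_add_eq_zero_left h)

theorem KF_stab (σ : ℂ ≃+* ℂ) : ∀ z ∈ KF Z, σ z ∈ KF Z := by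
  have h1 : KF Z ≤ (KF Z).comap (σ : ℂ →+* ℂ) := by
    refine Subfield.closure_le.2 ?_
    intro z hz
    change σ z ∈ KF Z
    rcases hz with rfl | ⟨E, hE, hEE, i, j, rfl⟩
    · have hI : Complex.I ∈ KF Z := Subfield.subset_closure (Set.mem_insert _ _)
      rcases sig_I σ with h | h
      · rw [h]
        exact hI
      · rw [h]
        exact neg_mem hI
    · exact mem_KF (WJ6.gal_ZMg WJ6.gal_Lr σ E hE) (map_idem hEE σ) i j
  exact fun z hz => h1 hz

theorem KF_cj (h : PM Z) (σ : ℂ ≃+* ℂ) : ∀ z ∈ KF Z, σ (cj z) = cj (σ z) := by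
  have h1 : KF Z ≤ RingHom.eqLocusField ((σ : ℂ →+* ℂ).comp (cj : ℂ →+* ℂ))
      ((cj : ℂ →+* ℂ).comp (σ : ℂ →+* ℂ)) := by
    refine Subfield.closure_le.2 ?_
    intro z hz
    change σ (cj z) = cj (σ z)
    rcases hz with rfl | ⟨E, hE, hEE, i, j, rfl⟩
    · have hcI : cj Complex.I = -Complex.I := Complex.conj_I
      rcases sig_I σ with h | h
      · rw [hcI, map_neg, h, hcI]
      · rw [hcI, map_neg, h, map_neg, hcI]
    · have h2 := conj_idem h hE hEE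
      have h3 := conj_idem h (WJ6.gal_ZMg WJ6.gal_Lr σ E hE) (map_idem hEE σ)
      have h4 : (E.map cj).map σ = (E.map σ).map cj := by
        rw [h2, h3]
        have e1 : (Om g ℂ).map σ = Om g ℂ := by
          ext i j
          rcases i with i | i <;> rcases j with j | j <;>
            simp [Om, Matrix.one_apply, apply_ite]
        have e2 : (Om g ℂ * Eᵀ * Om g ℂ).map σ = Om g ℂ * (E.map σ)ᵀ * Om g ℂ := by
          have e3 : (Om g ℂ * Eᵀ * Om g ℂ).map σ =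
              (Om g ℂ * Eᵀ).map σ * (Om g ℂ).map σ := Matrix.map_mul (f := (σ : ℂ →+* ℂ))
          have e4 : (Om g ℂ * Eᵀ).map σ = (Om g ℂ).map σ * Eᵀ.map σ :=
            Matrix.map_mul (f := (σ : ℂ →+* ℂ))
          rw [e3, e4, e1]
          rfl
        rw [← e2]
        ext i j
        exact map_neg σ _
      exact congrFun (congrFun h4 i) j
  exact fun z hz => h1 hz

theorem KF_finite (h : PM Z) : FiniteDimensional ℚ (KF Z) := by
  have hS : (insert Complex.I (Sg Z)).Finite := Sg_finite.insert _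
  have hint : ∀ x ∈ insert Complex.I (Sg Z), IsIntegral ℚ x := by
    intro x hx
    rcases hx with rfl | ⟨E, hE, hEE, i, j, rfl⟩
    · refine ⟨Polynomial.X ^ 2 + 1, ?_, ?_⟩
      · monicity!
      · simp
    · exact ((idem_of g Z h).1 E hE hEE i j).isIntegral
  have hfd : FiniteDimensional ℚ (IntermediateField.adjoin ℚ (insert Complex.I (Sg Z))) := by
    have : Finite (insert Complex.I (Sg Z) : Set ℂ) := hS
    exact IntermediateField.finiteDimensional_adjoin hint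
  have hle : KF Z ≤ (IntermediateField.adjoin ℚ (insert Complex.I (Sg Z))).toSubfield :=
    Subfield.closure_le.2 (IntermediateField.subset_adjoin _ _)
  let f : KF Z →+ IntermediateField.adjoin ℚ (insert Complex.I (Sg Z)) :=
    { toFun := fun x => ⟨x, hle x.2⟩
      map_zero' := rfl
      map_add' := fun _ _ => rfl }
  have hf : Function.Injective f.toRatLinearMap := by
    intro a b hab
    have h1 := congrArg (fun z : IntermediateField.adjoin ℚ (insert Complex.I (Sg Z)) => (z : ℂ)) hab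
    exact Subtype.ext h1
  exact Module.Finite.of_injective f.toRatLinearMap hf

/-- The traces of the products with the central idempotents. -/
theorem trace_eq (h : PM Z) {σ τ : ℂ ≃+* ℂ} (hst : ∀ z ∈ KF Z, σ z = τ z)
    {E : Matrix (Fin g ⊕ Fin g) (Fin g ⊕ Fin g) ℂ} (hE : E ∈ ZM (Lr Z)) (hEE : E * E = E) :
    trace ((DS Z σ)ᵀ * E) = trace ((DS Z τ)ᵀ * E) := by
  have hDT : (DZ Z)ᵀ ∈ Lr Z := by
    rw [mem_Lr, transpose_transpose]
    exact DZ_mem
  have hDD : (DZ Z)ᵀ * (DZ Z)ᵀ = 1 := by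
    rw [← transpose_mul, DZ_sq h.det, transpose_one]
  have key : ∀ ρ : ℂ ≃+* ℂ, trace ((DS Z ρ)ᵀ * E) = trace ((DZ Z)ᵀ * E.map ρ.symm) := by
    intro ρ
    have hF := WJ6.gal_ZMg WJ6.gal_Lr ρ.symm E hE
    obtain ⟨n, hn⟩ := trace_int hDD (map_idem hEE ρ.symm) (hF.1 _ hDT)
    have e1 : (DS Z ρ)ᵀ * E = ((DZ Z)ᵀ * E.map ρ.symm).map ρ := by
      have e2 : ((DZ Z)ᵀ * E.map ρ.symm).map ρ = (DZ Z)ᵀ.map ρ * (E.map ρ.symm).map ρ :=
        Matrix.map_mul (f := (ρ : ℂ →+* ℂ))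
      have e3 : (E.map ρ.symm).map ρ = E := by
        ext i j
        exact ρ.apply_symm_apply _
      rw [e2, e3]
      rfl
    have e2 : ∀ M : Matrix (Fin g ⊕ Fin g) (Fin g ⊕ Fin g) ℂ, trace (M.map ρ) = ρ (trace M) := by
      intro M
      unfold trace
      rw [map_sum]
      rfl
    rw [e1, e2, hn, map_intCast]
  rw [key, key]
  congr 2
  ext i j
  change σ.symm (E i j) = τ.symm (E i j)
  have h1 := KF_stab τ.symm _ (mem_KF hE hEE i j)
  rw [σ.symm_apply_eq, hst _ h1, τ.apply_symm_apply]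

/-- The matrices of a module. -/
theorem exists_CM (h : PM Z) {d : ℕ} {PP : Matrix (Fin g ⊕ Fin g) (Fin d) ℂ}
    (hinj : ∀ c : Fin d → ℂ, PP *ᵥ c = 0 → c = 0) {Δ : (ℂ ≃+* ℂ) → Matrix (Fin d) (Fin d) ℂ}
    (hD : ∀ σ, (DS Z σ)ᵀ * PP = PP * Δ σ) {y yi : Matrix (Fin g ⊕ Fin g) (Fin g ⊕ Fin g) ℝ}
    (hy : YD Z y yi) : ∃ p ∈ CM (Ly Z y yi), ∀ σ, trace (Δ σ) = trace ((ph hy).P (DS Z σ)ᵀ * p) := by
  -- stability
  let S : Submodule ℂ (Matrix (Fin g ⊕ Fin g) (Fin g ⊕ Fin g) ℂ) :=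
    { carrier := {X | ∃ N : Matrix (Fin d) (Fin d) ℂ, Xᵀ * PP = PP * N}
      add_mem' := by
        rintro X Y ⟨N, hN⟩ ⟨M, hM⟩
        exact ⟨N + M, by rw [transpose_add, Matrix.add_mul, Matrix.mul_add, hN, hM]⟩
      zero_mem' := ⟨0, by rw [transpose_zero, Matrix.zero_mul, Matrix.mul_zero]⟩
      smul_mem' := by
        rintro c X ⟨N, hN⟩
        exact ⟨c • N, by rw [transpose_smul, Matrix.smul_mul, Matrix.mul_smul, hN]⟩ }
  have hS : LZ Z ≤ S := by
    refine LZ_le (fun σ => ⟨Δ σ, hD σ⟩) ?_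
    rintro X ⟨N, hN⟩ Y ⟨M, hM⟩
    refine ⟨M * N - N * M, ?_⟩
    rw [transpose_sub, transpose_mul, transpose_mul, Matrix.sub_mul, Matrix.mul_assoc,
      Matrix.mul_assoc, hN, hM, ← Matrix.mul_assoc, ← Matrix.mul_assoc, hN, hM, Matrix.mul_sub,
      Matrix.mul_assoc, Matrix.mul_assoc]
  obtain ⟨Q', hQ'⟩ : ∃ Q', Q' = (cm yi)ᵀ * PP := ⟨_, rfl⟩
  have hP' : ∀ N : Matrix (Fin g ⊕ Fin g) (Fin g ⊕ Fin g) ℂ, ∀ M : Matrix (Fin d) (Fin d) ℂ,
      N * PP = PP * M → (ph hy).P N * Q' = Q' * M := by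
    intro N M hNM
    rw [hQ', ph_apply]
    calc (cm yi)ᵀ * N * (cm y)ᵀ * ((cm yi)ᵀ * PP) =
          (cm yi)ᵀ * N * ((cm y)ᵀ * (cm yi)ᵀ) * PP := by
          simp only [Matrix.mul_assoc]
      _ = (cm yi)ᵀ * (N * PP) := by rw [hy.clT, mul_one, Matrix.mul_assoc]
      _ = _ := by rw [hNM, Matrix.mul_assoc]
  have hinj' : ∀ c : Fin d → ℂ, Q' *ᵥ c = 0 → c = 0 := by
    intro c hc
    refine hinj c ?_
    rw [hQ', ← mulVec_mulVec] at hc
    have h1 := congrArg (fun w => (cm y)ᵀ *ᵥ w) hc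
    beta_reduce at h1
    rw [mulVec_mulVec, hy.clT, one_mulVec, mulVec_zero] at h1
    exact h1
  obtain ⟨p, hp1, hp2, hp3⟩ := exists_proj_comm (LinearMap.range (Matrix.mulVecLin Q'))
    (Ly Z y yi : Set (Matrix (Fin g ⊕ Fin g) (Fin g ⊕ Fin g) ℂ)) (hy.ld h).adj (by
      rintro M hM _ ⟨c, rfl⟩
      obtain ⟨N, rfl⟩ := (ph hy).P.surjective M
      have hN : N ∈ Lr Z := ((ph hy).mem N).1 hM
      obtain ⟨M', hM'⟩ := hS hN
      rw [transpose_transpose] at hM'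
      refine ⟨M' *ᵥ c, ?_⟩
      rw [mulVecLin_apply, mulVecLin_apply, mulVec_mulVec, mulVec_mulVec, hP' _ _ hM'])
  have hpC : p ∈ CM (Ly Z y yi) := fun M hM => hp3 M hM
  have hq : ∃ Q : Matrix (Fin d) (Fin g ⊕ Fin g) ℂ, Q' * Q = p := by
    choose c hc using fun j : Fin g ⊕ Fin g => hp1 (Pi.single j 1)
    refine ⟨of fun i j => c j i, ?_⟩
    ext i j
    have h1 := congrFun (hc j) i
    rw [mulVecLin_apply] at h1
    rw [Matrix.mul_apply]
    have h2 : (p *ᵥ Pi.single j 1) i = p i j := by simp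
    rw [← h2, ← h1]
    rfl
  obtain ⟨Q, hQ⟩ := hq
  have hpQ : p * Q' = Q' := by
    ext i j
    have h1 := congrFun (hp2 (Q' *ᵥ Pi.single j 1) ⟨Pi.single j 1, rfl⟩) i
    rw [mulVec_mulVec] at h1
    simpa using h1
  have hQQ : Q * Q' = 1 := by
    ext i j
    have h1 : Q' *ᵥ ((Q * Q' - 1) *ᵥ Pi.single j 1) = 0 := by
      rw [mulVec_mulVec, Matrix.mul_sub, ← Matrix.mul_assoc, hQ, hpQ, Matrix.mul_one, sub_self,
        zero_mulVec]
    have h2 := congrFun (hinj' _ h1) i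
    simpa [sub_eq_zero] using h2
  refine ⟨p, hpC, fun σ => ?_⟩
  have h1 := hP' _ _ (hD σ)
  calc trace (Δ σ) = trace (Q * Q' * Δ σ) := by rw [hQQ, one_mul]
    _ = trace (Q * ((ph hy).P (DS Z σ)ᵀ * Q')) := by rw [h1, Matrix.mul_assoc]
    _ = trace ((ph hy).P (DS Z σ)ᵀ * Q' * Q) := by rw [trace_mul_comm]
    _ = _ := by rw [Matrix.mul_assoc, hQ]

end GJ13

open GJ13 in
/-- **G13.** -/
theorem fld_of (h11 : St_coo) : St_fld := by
  intro A
  obtain ⟨E₀, hpol⟩ := A.pol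
  obtain ⟨g, Z, hZ, e, hC, -⟩ := exists_ppavE A.span A.rank hpol
  refine ⟨KF Z, KF_finite hZ, KF_stab, KF_cj hZ, Subfield.subset_closure (Set.mem_insert _ _), ?_⟩
  intro σ τ hst d Δ ⟨P, hP, hΔ⟩
  obtain ⟨y, yi, hy⟩ := exists_YD hZ
  obtain ⟨PP, hPP⟩ : ∃ PP : Matrix (Fin g ⊕ Fin g) (Fin d) ℂ, PP = of fun b j => cof e (P j) b :=
    ⟨_, rfl⟩
  have hcol : ∀ c : Fin d → ℂ, PP *ᵥ c = cof e (∑ j, c j • P j) := by
    intro c
    funext b
    rw [hPP]
    unfold cof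
    rw [LinearMap.sum_apply]
    change ∑ j, _ * c j = _
    refine Finset.sum_congr rfl fun j _ => ?_
    change P j (e.symm (Pi.single b 1)) * c j = c j • P j (e.symm (Pi.single b 1))
    rw [smul_eq_mul, mul_comm]
  have hcof : ∀ f : A.H →ₗ[ℚ] ℂ, cof e f = 0 → f = 0 := by
    intro f hf
    refine LinearMap.ext fun w => ?_
    obtain ⟨v, rfl⟩ := e.symm.surjective w
    rw [LinearMap.zero_apply]
    have h1 : v = ∑ b, v b • (Pi.single b 1 : Fin g ⊕ Fin g → ℚ) := by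
      funext b
      simp [Finset.sum_apply, Pi.single_apply]
    rw [h1, map_sum, map_sum]
    refine Finset.sum_eq_zero fun b _ => ?_
    rw [map_smul, map_smul]
    have h2 : f (e.symm (Pi.single b 1)) = 0 := congrFun hf b
    rw [h2, smul_zero]
  have hinj : ∀ c : Fin d → ℂ, PP *ᵥ c = 0 → c = 0 := by
    intro c hc
    rw [hcol] at hc
    funext j
    exact (Fintype.linearIndependent_iff.1 hP) c (hcof _ hc) j
  have hD : ∀ ρ, (DS Z ρ)ᵀ * PP = PP * Δ ρ := by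
    intro ρ
    ext b j
    have h1 := (h11 g Z A e hZ hC ρ _ _).1 (hΔ ρ j)
    have h2 := congrFun h1 b
    have h3 : (PP * Δ ρ) b j = (PP *ᵥ fun i => Δ ρ i j) b := rfl
    rw [h3, hcol, h2, hPP]
    rfl
  obtain ⟨p, hp, htr⟩ := exists_CM hZ hinj hD hy
  obtain ⟨s, E, hE1, hE2, -, -, -, hE3⟩ := dec_of _ (Ly Z y yi) (hy.ld hZ).adj
  have hin : ∀ ρ, InB (Ly Z y yi) ((ph hy).P (DS Z ρ)ᵀ) := by
    intro ρ M hM
    refine hM _ (((ph hy).mem _).2 ?_)
    rw [mem_Lr, transpose_transpose]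
    exact DS_mem ρ
  rw [htr, htr, trace_dec (hy.ld hZ).adj hE1 hE2 hE3 (hin σ) hp,
    trace_dec (hy.ld hZ).adj hE1 hE2 hE3 (hin τ) hp]
  refine Finset.sum_congr rfl fun i _ => ?_
  congr 1
  obtain ⟨F, hF⟩ := (ph hy).P.surjective (E i)
  have hFm : Mz (Lr Z) F := by
    rw [← (ph hy).mz_iff, hF]
    exact hE1 i
  rw [← hF, ← (ph hy).mul, ← (ph hy).mul, (ph hy).tr, (ph hy).tr]
  exact trace_eq hZ hst hFm.1 hFm.2.1

end

end Pool.Agent.NH32
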