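import Mathlib
import Pool.Agent.NH32.GtD
import Pool.Agent.NH32.GJ13
import Pool.Agent.NH32.WJ12

/-!
# Project G, stage 3: minimal idempotents with entries in a CM field (D2)
-/

set_option linter.unusedSectionVars false

namespace Pool.Agent.NH32

open Matrix Module Pool.Agent.W437.HC Pool.Agent.W437.HD Pool.Agent.TH504.CB Pool.Agent.Y90
open Pool.Agent.H204R3.CM (IsHodge)
open Pool.Agent.W548.Odd hiding cv
open scoped ComplexOrder

noncomputable section

namespace GD2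

section mat

variable {B : Type} [Fintype B] [DecidableEq B]

open Polynomial in
/-- The eigenvalues. -/
def ev (N : Matrix B B ℂ) : Finset ℂ := N.charpoly.roots.toFinset

theorem mem_ev {N : Matrix B B ℂ} {l : ℂ} :
    l ∈ ev N ↔ ∃ W : Matrix B B ℂ, W ≠ 0 ∧ N * W = l • W := by
  unfold ev
  rw [Multiset.mem_toFinset, Polynomial.mem_roots (Matrix.charpoly_monic N).ne_zero,
    Polynomial.IsRoot.def, Matrix.eval_charpoly, ← Matrix.exists_mulVec_eq_zero_iff]
  constructor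
  · rintro ⟨v, hv, h⟩
    obtain ⟨i, hi⟩ := Function.ne_iff.1 hv
    refine ⟨of fun i _ => v i, ?_, ?_⟩
    · intro h0
      exact hi (congrFun (congrFun h0 i) i)
    · ext j k
      have h1 := congrFun h j
      rw [sub_mulVec, Pi.sub_apply, Pi.zero_apply, sub_eq_zero] at h1
      rw [Matrix.mul_apply, Matrix.smul_apply, of_apply, smul_eq_mul]
      have h2 : (scalar B l *ᵥ v) j = l * v j := by
        rw [scalar_apply, mulVec_diagonal]
      rw [← h2, h1]
      rfl
  · rintro ⟨W, hW, h⟩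
    obtain ⟨k, hk⟩ : ∃ k, (fun i => W i k) ≠ 0 := by
      by_contra hcon
      push Not at hcon
      apply hW
      ext i k
      exact congrFun (hcon k) i
    refine ⟨fun i => W i k, hk, ?_⟩
    ext j
    rw [sub_mulVec, Pi.sub_apply, Pi.zero_apply, sub_eq_zero]
    have h1 := congrFun (congrFun h j) k
    rw [Matrix.mul_apply, Matrix.smul_apply, smul_eq_mul] at h1
    rw [scalar_apply, mulVec_diagonal, ← h1]
    rfl

theorem ev_card (N : Matrix B B ℂ) : (ev N).card ≤ Fintype.card B := by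
  unfold ev
  refine (Multiset.toFinset_card_le _).trans ((Polynomial.card_roots' _).trans ?_)
  rw [Matrix.charpoly_natDegree_eq_dim]

theorem ev_nonempty {N : Matrix B B ℂ} (h : Nonempty B) : (ev N).Nonempty := by
  have h1 : N.charpoly.degree ≠ 0 := by
    rw [Matrix.charpoly_degree_eq_dim]
    have := Fintype.card_pos_iff.2 h
    exact_mod_cast this.ne'
  obtain ⟨x, hx⟩ := IsAlgClosed.exists_root _ h1
  refine ⟨x, ?_⟩
  unfold ev
  rw [Multiset.mem_toFinset, Polynomial.mem_roots (Matrix.charpoly_monic N).ne_zero]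
  exact hx

theorem comm_aeval {M N : Matrix B B ℂ} (h : M * N = N * M) (q : Polynomial ℂ) :
    M * Polynomial.aeval N q = Polynomial.aeval N q * M := by
  induction q using Polynomial.induction_on' with
  | add p q hp hq => rw [map_add, mul_add, add_mul, hp, hq]
  | monomial n a =>
    rw [Polynomial.aeval_monomial]
    have h1 : Commute M (algebraMap ℂ (Matrix B B ℂ) a) := Algebra.commute_algebraMap_right _ _
    have h2 : Commute M (N ^ n) := (show Commute M N from h).pow_right n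
    exact (h1.mul_right h2).eq

theorem aeval_eig {N W : Matrix B B ℂ} {m : ℂ} (h : N * W = m • W) (q : Polynomial ℂ) :
    Polynomial.aeval N q * W = q.eval m • W := by
  induction q using Polynomial.induction_on' with
  | add p q hp hq => rw [map_add, add_mul, hp, hq, Polynomial.eval_add, add_smul]
  | monomial n a =>
    rw [Polynomial.aeval_monomial, Polynomial.eval_monomial]
    have h1 : N ^ n * W = m ^ n • W := by
      induction n with
      | zero => rw [pow_zero, one_mul, pow_zero, one_smul]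
      | succ n ih => rw [pow_succ, mul_assoc, h, Matrix.mul_smul, ih, smul_smul, pow_succ, mul_comm]
    rw [mul_assoc, h1, Algebra.algebraMap_eq_smul_one, Matrix.smul_mul, one_mul, smul_smul]

theorem nil_zero {N : Matrix B B ℂ} (hN : Nᴴ * N = N * Nᴴ) {k : ℕ} (h : N ^ k = 0) : N = 0 := by
  have h1 : (Nᴴ * N) ^ k = 0 := by
    rw [(show Commute Nᴴ N from hN).mul_pow, h, mul_zero]
  have h2 : ∀ j : ℕ, (Nᴴ * N) ^ (2 ^ j) = 0 → Nᴴ * N = 0 := by
    intro j
    induction j with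
    | zero => intro h; rwa [pow_zero, pow_one] at h
    | succ j ih =>
      intro h
      apply ih
      apply conjTranspose_mul_self_eq_zero.1
      rw [conjTranspose_pow, conjTranspose_mul, conjTranspose_conjTranspose, ← pow_add,
        ← two_mul, ← pow_succ']
      exact h
  have h3 : (Nᴴ * N) ^ (2 ^ k) = 0 := by
    obtain ⟨m, hm⟩ := Nat.exists_eq_add_of_le (Nat.lt_two_pow_self (n := k)).le
    rw [hm, pow_add, h1, zero_mul]
  exact conjTranspose_mul_self_eq_zero.1 (h2 k h3)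

open Polynomial in
theorem ann {N : Matrix B B ℂ} (hN : Nᴴ * N = N * Nᴴ) :
    Polynomial.aeval N (∏ m ∈ ev N, (X - C m)) = 0 := by
  obtain ⟨F, hF⟩ : ∃ F, F = Polynomial.aeval N (∏ m ∈ ev N, (X - C m)) := ⟨_, rfl⟩
  rw [← hF]
  have h1 : Nᴴ * F = F * Nᴴ := by
    rw [hF]
    exact comm_aeval hN _
  have h2 : Fᴴ * N = N * Fᴴ := by
    have h3 := congrArg Matrix.conjTranspose h1
    rw [conjTranspose_mul, conjTranspose_mul, conjTranspose_conjTranspose] at h3
    exact h3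
  have h3 : Fᴴ * F = F * Fᴴ := by
    have h4 := comm_aeval h2 (∏ m ∈ ev N, (X - C m))
    rw [← hF] at h4
    exact h4
  refine nil_zero h3 (k := Fintype.card B) ?_
  have hdvd : N.charpoly ∣ (∏ m ∈ ev N, (X - C m)) ^ Fintype.card B := by
    have hs : N.charpoly.Splits := IsAlgClosed.splits _
    have h4 := hs.eq_prod_roots_of_monic (Matrix.charpoly_monic N)
    rw [h4, Finset.prod_multiset_map_count]
    rw [← Finset.prod_pow]
    refine Finset.prod_dvd_prod_of_dvd _ _ fun m _ => pow_dvd_pow _ ?_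
    refine (Multiset.count_le_card _ _).trans ((Polynomial.card_roots' _).trans ?_)
    rw [Matrix.charpoly_natDegree_eq_dim]
  obtain ⟨q, hq⟩ := hdvd
  rw [hF, ← map_pow, hq, map_mul, Matrix.aeval_self_charpoly, zero_mul]

/-- Lagrange polynomials. -/
def lb (S : Finset ℂ) (l : ℂ) : Polynomial ℂ := Lagrange.basis S id l

/-- The spectral projections. -/
def pj (N : Matrix B B ℂ) (l : ℂ) : Matrix B B ℂ := Polynomial.aeval N (lb (ev N) l)

theorem pj_sum (N : Matrix B B ℂ) (h : Nonempty B) : ∑ l ∈ ev N, pj N l = 1 := by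
  unfold pj lb
  rw [← map_sum, Lagrange.sum_basis (Set.injOn_id _) (ev_nonempty h), map_one]

open Polynomial in
theorem mul_pj {N : Matrix B B ℂ} (hN : Nᴴ * N = N * Nᴴ) {l : ℂ} (hl : l ∈ ev N) :
    N * pj N l = l • pj N l := by
  have h1 : ∃ c : ℂ, (X - C l) * lb (ev N) l = C c * ∏ m ∈ ev N, (X - C m) := by
    refine ⟨∏ j ∈ (ev N).erase l, (l - j)⁻¹, ?_⟩
    unfold lb Lagrange.basis Lagrange.basisDivisor
    rw [Finset.prod_mul_distrib, ← Finset.mul_prod_erase _ _ hl, map_prod]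
    simp only [id]
    ring
  obtain ⟨c, hc⟩ := h1
  have h2 := congrArg (Polynomial.aeval N) hc
  rw [map_mul, map_mul, ann hN, mul_zero, map_sub, Polynomial.aeval_X, Polynomial.aeval_C,
    sub_mul, sub_eq_zero, Algebra.algebraMap_eq_smul_one, Matrix.smul_mul, one_mul] at h2
  exact h2

theorem pj_mul_self {N : Matrix B B ℂ} (hN : Nᴴ * N = N * Nᴴ) {l : ℂ} (hl : l ∈ ev N) :
    pj N l * pj N l = pj N l := by
  have h1 := aeval_eig (mul_pj hN hl) (lb (ev N) l)
  have h2 : (lb (ev N) l).eval l = 1 :=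
    Lagrange.eval_basis_self (v := id) (Set.injOn_id _) hl
  rw [h2, one_smul] at h1
  exact h1

theorem pj_ne {N : Matrix B B ℂ} {l : ℂ} (hl : l ∈ ev N) : pj N l ≠ 0 := by
  obtain ⟨W, hW, h⟩ := mem_ev.1 hl
  intro h0
  have h1 := aeval_eig h (lb (ev N) l)
  have h2 : (lb (ev N) l).eval l = 1 :=
    Lagrange.eval_basis_self (v := id) (Set.injOn_id _) hl
  rw [h2, one_smul] at h1
  apply hW
  rw [← h1]
  change pj N l * W = 0
  rw [h0, zero_mul]

theorem pj_herm {N : Matrix B B ℂ} (hN : Nᴴ * N = N * Nᴴ) {l : ℂ} (hl : l ∈ ev N) :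
    (pj N l)ᴴ = pj N l := by
  refine GJ13.herm_of (pj_mul_self hN hl) ?_
  have h1 : Nᴴ * pj N l = pj N l * Nᴴ := comm_aeval hN _
  have h2 : (pj N l)ᴴ * N = N * (pj N l)ᴴ := by
    have h3 := congrArg Matrix.conjTranspose h1
    rw [conjTranspose_mul, conjTranspose_mul, conjTranspose_conjTranspose] at h3
    exact h3
  exact comm_aeval h2 _

theorem normal_adj {N W : Matrix B B ℂ} (hN : Nᴴ * N = N * Nᴴ) {m : ℂ} (h : N * W = m • W) :
    Nᴴ * W = (starRingEnd ℂ m) • W := by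
  have h1 : (Nᴴ * W - (starRingEnd ℂ m) • W)ᴴ * (Nᴴ * W - (starRingEnd ℂ m) • W) = 0 := by
    have e1 : (Nᴴ * W - (starRingEnd ℂ m) • W)ᴴ = Wᴴ * (N - m • (1 : Matrix B B ℂ)) := by
      rw [conjTranspose_sub, conjTranspose_mul, conjTranspose_conjTranspose, conjTranspose_smul,
        mul_sub, Matrix.mul_smul, mul_one]
      congr 2
      exact Complex.conj_conj m
    have e2 : Nᴴ * W - (starRingEnd ℂ m) • W =
        (Nᴴ - (starRingEnd ℂ m) • (1 : Matrix B B ℂ)) * W := by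
      rw [sub_mul, Matrix.smul_mul, one_mul]
    have e3 : (N - m • (1 : Matrix B B ℂ)) * W = 0 := by
      rw [sub_mul, Matrix.smul_mul, one_mul, h, sub_self]
    have e4 : (N - m • (1 : Matrix B B ℂ)) * (Nᴴ - (starRingEnd ℂ m) • (1 : Matrix B B ℂ)) =
        (Nᴴ - (starRingEnd ℂ m) • (1 : Matrix B B ℂ)) * (N - m • (1 : Matrix B B ℂ)) := by
      simp only [mul_sub, sub_mul, Matrix.mul_smul, Matrix.smul_mul, mul_one, one_mul, hN,
        smul_smul]
      rw [mul_comm m]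
      abel
    rw [e1, e2, mul_assoc, ← mul_assoc (N - m • (1 : Matrix B B ℂ)), e4, mul_assoc, e3, mul_zero,
      mul_zero]
  exact sub_eq_zero.1 (conjTranspose_mul_self_eq_zero.1 h1)

/-- Rational matrices. -/
def Rt (X : Matrix B B ℂ) : Prop := ∀ σ : ℂ ≃+* ℂ, X.map σ = X

theorem map_mulE (σ : ℂ ≃+* ℂ) (M N : Matrix B B ℂ) : (M * N).map σ = M.map σ * N.map σ :=
  Matrix.map_mul (f := (σ : ℂ →+* ℂ))

theorem map_addE (σ : ℂ ≃+* ℂ) (M N : Matrix B B ℂ) : (M + N).map σ = M.map σ + N.map σ := by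
  ext i j
  exact map_add σ _ _

theorem map_subE (σ : ℂ ≃+* ℂ) (M N : Matrix B B ℂ) : (M - N).map σ = M.map σ - N.map σ := by
  ext i j
  exact map_sub σ _ _

theorem map_smulE (σ : ℂ ≃+* ℂ) (c : ℂ) (M : Matrix B B ℂ) : (c • M).map σ = σ c • M.map σ := by
  ext i j
  exact map_mul σ _ _

/-- The support of a matrix. -/
def sup (X : Matrix B B ℂ) : Finset (B × B) :=
  Finset.univ.filter fun p => X p.1 p.2 ≠ 0

theorem mem_sup {X : Matrix B B ℂ} {p : B × B} :
    p ∈ sup X ↔ X p.1 p.2 ≠ 0 := by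
  unfold sup
  rw [Finset.mem_filter]
  exact ⟨fun h => h.2, fun h => ⟨Finset.mem_univ _, h⟩⟩

theorem span_fixed {M : Submodule ℂ (Matrix B B ℂ)}
    (hM : ∀ τ : ℂ ≃+* ℂ, ∀ X ∈ M, X.map τ ∈ M) :
    M ≤ Submodule.span ℂ {X | X ∈ M ∧ Rt X} := by
  classical
  have key : ∀ n : ℕ, ∀ X ∈ M, (sup X).card = n →
      X ∈ Submodule.span ℂ {X | X ∈ M ∧ Rt X} := by
    intro n
    induction n using Nat.strong_induction_on with
    | _ n ih =>
      intro X hX hn
      by_cases hX0 : X = 0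
      · rw [hX0]
        exact Submodule.zero_mem _
      -- a nonzero element of minimal support inside the support of `X`
      have hex : ∃ k : ℕ, ∃ W ∈ M, W ≠ 0 ∧ sup W ⊆ sup X ∧ (sup W).card = k :=
        ⟨_, X, hX, hX0, Finset.Subset.refl _, rfl⟩
      obtain ⟨W, hW, hW0, hWX, hWc⟩ := Nat.find_spec hex
      have hmin : ∀ V ∈ M, sup V ⊆ sup X → (sup V).card < (sup W).card → V = 0 := by
        intro V hV hVX hVc
        by_contra hV0
        rw [hWc] at hVc
        exact Nat.find_min hex hVc ⟨V, hV, hV0, hVX, rfl⟩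
      obtain ⟨p, hp⟩ : ∃ p : B × B, W p.1 p.2 ≠ 0 := by
        by_contra hcon
        push Not at hcon
        exact hW0 (by ext i j; exact hcon (i, j))
      obtain ⟨W', hW'⟩ : ∃ W', W' = (W p.1 p.2)⁻¹ • W := ⟨_, rfl⟩
      have hW'M : W' ∈ M := by rw [hW']; exact M.smul_mem _ hW
      have hW'p : W' p.1 p.2 = 1 := by
        rw [hW', Matrix.smul_apply, smul_eq_mul, inv_mul_cancel₀ hp]
      have hW's : ∀ q : B × B, W q.1 q.2 = 0 → W' q.1 q.2 = 0 := by
        intro q hq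
        rw [hW', Matrix.smul_apply, hq, smul_zero]
      have hfix : Rt W' := by
        intro τ
        have h1 : W'.map τ - W' ∈ M := M.sub_mem (hM τ _ hW'M) hW'M
        have h2 : sup (W'.map τ - W') ⊆ (sup W).erase p := by
          intro q hq
          rw [mem_sup, Matrix.sub_apply, Matrix.map_apply] at hq
          rw [Finset.mem_erase, mem_sup]
          refine ⟨fun h3 => ?_, fun h3 => ?_⟩
          · apply hq
            rw [h3, hW'p, map_one, sub_self]
          · apply hq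
            rw [hW's q h3, map_zero, sub_self]
        have h3 : (sup (W'.map τ - W')).card < (sup W).card :=
          lt_of_le_of_lt (Finset.card_le_card h2) (Finset.card_erase_lt_of_mem (mem_sup.2 hp))
        have h4 := hmin _ h1 ((h2.trans (Finset.erase_subset _ _)).trans hWX) h3
        exact sub_eq_zero.1 h4
      have h5 : X - X p.1 p.2 • W' ∈ Submodule.span ℂ {X | X ∈ M ∧ Rt X} := by
        refine ih _ ?_ _ (M.sub_mem hX (M.smul_mem _ hW'M)) rfl
        rw [← hn]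
        have h6 : sup (X - X p.1 p.2 • W') ⊆ (sup X).erase p := by
          intro q hq
          rw [mem_sup, Matrix.sub_apply, Matrix.smul_apply, smul_eq_mul] at hq
          rw [Finset.mem_erase]
          refine ⟨fun h3 => ?_, ?_⟩
          · apply hq
            rw [h3, hW'p, mul_one, sub_self]
          · by_contra h3
            have h7 : X q.1 q.2 = 0 := by
              by_contra h8
              exact h3 (mem_sup.2 h8)
            have h8 : W q.1 q.2 = 0 := by
              by_contra h9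
              exact h3 (hWX (mem_sup.2 h9))
            apply hq
            rw [h7, hW's q h8, mul_zero, sub_self]
        exact lt_of_le_of_lt (Finset.card_le_card h6)
          (Finset.card_erase_lt_of_mem (hWX (mem_sup.2 hp)))
      have h6 : X = (X - X p.1 p.2 • W') + X p.1 p.2 • W' := by abel
      rw [h6]
      exact Submodule.add_mem _ h5 (Submodule.smul_mem _ _ (Submodule.subset_span ⟨hW'M, hfix⟩))
  exact fun X hX => key _ X hX rfl

/-- A generic combination. -/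
theorem exists_gen (Q : Finset (ℂ × ℂ)) : ∃ t : ℚ, Set.InjOn (fun q : ℂ × ℂ => q.1 + t * q.2) Q := by
  classical
  have hfin : (⋃ p ∈ (Q ×ˢ Q).filter (fun p => p.1 ≠ p.2),
      {t : ℚ | p.1.1 + t * p.1.2 = p.2.1 + t * p.2.2}).Finite := by
    refine Set.Finite.biUnion (Finset.finite_toSet _) fun p hp => ?_
    have hne : p.1 ≠ p.2 := (Finset.mem_filter.1 hp).2
    refine Set.Subsingleton.finite ?_
    intro t ht s hs
    by_contra hts
    have ht' : p.1.1 + t * p.1.2 = p.2.1 + t * p.2.2 := ht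
    have hs' : p.1.1 + s * p.1.2 = p.2.1 + s * p.2.2 := hs
    have h1 : ((t : ℂ) - s) * (p.1.2 - p.2.2) = 0 := by linear_combination ht' - hs'
    have h2 : (t : ℂ) - s ≠ 0 := by
      rw [sub_ne_zero]
      exact_mod_cast hts
    have h3 : p.1.2 = p.2.2 := sub_eq_zero.1 ((mul_eq_zero.1 h1).resolve_left h2)
    have h4 : p.1.1 = p.2.1 := by
      rw [h3] at ht'
      exact add_right_cancel ht'
    exact hne (Prod.ext h4 h3)
  obtain ⟨t, ht⟩ := hfin.exists_notMem
  refine ⟨t, fun q hq q' hq' h => ?_⟩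
  by_contra hne
  apply ht
  refine Set.mem_biUnion (x := (q, q')) ?_ h
  exact Finset.mem_filter.2 ⟨Finset.mem_product.2 ⟨hq, hq'⟩, hne⟩

/-- Commuting normal matrices: more eigenvalues. -/
theorem more_ev {N a : Matrix B B ℂ} (hN : Nᴴ * N = N * Nᴴ) (ha : aᴴ * a = a * aᴴ)
    (hc : N * a = a * N) {l : ℂ} (hl : l ∈ ev N) (hns : ¬ ∃ c : ℂ, pj N l * a * pj N l = c • pj N l) :
    ∃ t : ℚ, (ev N).card < (ev (N + (t : ℂ) • a)).card := by
  classical
  have hB : Nonempty B := by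
    by_contra hcon
    rw [not_nonempty_iff] at hcon
    have := ev_card N
    rw [Fintype.card_eq_zero] at this
    have h1 := Finset.card_pos.2 ⟨l, hl⟩
    omega
  let Q : Finset (ℂ × ℂ) := (ev N ×ˢ ev a).filter fun q => pj a q.2 * pj N q.1 ≠ 0
  have hQ : ∀ q, q ∈ Q ↔ (q.1 ∈ ev N ∧ q.2 ∈ ev a) ∧ pj a q.2 * pj N q.1 ≠ 0 := by
    intro q
    rw [Finset.mem_filter, Finset.mem_product]
  have hQ1 : ∀ m ∈ ev N, ∃ γ, (m, γ) ∈ Q := by
    intro m hm
    by_contra hcon
    push Not at hcon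
    apply pj_ne hm
    rw [← one_mul (pj N m), ← pj_sum a hB, Finset.sum_mul]
    refine Finset.sum_eq_zero fun γ hγ => ?_
    by_contra h0
    exact hcon γ ((hQ _).2 ⟨⟨hm, hγ⟩, h0⟩)
  have hQ2 : ∃ γ γ', γ ≠ γ' ∧ (l, γ) ∈ Q ∧ (l, γ') ∈ Q := by
    obtain ⟨γ, hγ⟩ := hQ1 l hl
    by_contra hcon
    push Not at hcon
    apply hns
    refine ⟨γ, ?_⟩
    have h1 : pj N l = pj a γ * pj N l := by
      conv_lhs => rw [← one_mul (pj N l), ← pj_sum a hB, Finset.sum_mul]
      refine Finset.sum_eq_single_of_mem γ ((hQ _).1 hγ).1.2 fun γ' hγ' hne => ?_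
      by_contra h0
      exact hcon γ γ' (Ne.symm hne) hγ ((hQ _).2 ⟨⟨hl, hγ'⟩, h0⟩)
    have h2 : a * pj N l = γ • pj N l := by
      rw [h1, ← mul_assoc, mul_pj ha ((hQ _).1 hγ).1.2, Matrix.smul_mul]
    rw [mul_assoc, h2, Matrix.mul_smul, pj_mul_self hN hl]
  obtain ⟨t, ht⟩ := exists_gen Q
  refine ⟨t, ?_⟩
  have h1 : Q.image (fun q : ℂ × ℂ => q.1 + t * q.2) ⊆ ev (N + (t : ℂ) • a) := by
    intro z hz
    obtain ⟨q, hq, rfl⟩ := Finset.mem_image.1 hz
    obtain ⟨⟨hq1, hq2⟩, hq3⟩ := (hQ _).1 hq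
    refine mem_ev.2 ⟨_, hq3, ?_⟩
    have e1 : N * (pj a q.2 * pj N q.1) = q.1 • (pj a q.2 * pj N q.1) := by
      have e2 : N * pj a q.2 = pj a q.2 * N := comm_aeval hc _
      rw [← mul_assoc, e2, mul_assoc, mul_pj hN hq1, Matrix.mul_smul]
    have e3 : a * (pj a q.2 * pj N q.1) = q.2 • (pj a q.2 * pj N q.1) := by
      rw [← mul_assoc, mul_pj ha hq2, Matrix.smul_mul]
    rw [add_mul, e1, Matrix.smul_mul, e3, smul_smul, ← add_smul]
  have h2 : (Q.image (fun q : ℂ × ℂ => q.1 + t * q.2)).card = Q.card := Finset.card_image_of_injOn ht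
  have h3 : (ev N).card < Q.card := by
    have e1 : ev N ⊆ Q.image Prod.fst := by
      intro m hm
      obtain ⟨γ, hγ⟩ := hQ1 m hm
      exact Finset.mem_image.2 ⟨_, hγ, rfl⟩
    have e2 : (Q.image Prod.fst).card < Q.card := by
      refine lt_of_le_of_ne Finset.card_image_le fun h => ?_
      have e3 := Finset.card_image_iff.1 h
      obtain ⟨γ, γ', hne, hγ, hγ'⟩ := hQ2
      exact hne (congrArg Prod.snd (e3 hγ hγ' rfl))
    exact (Finset.card_le_card e1).trans_lt e2
  rw [← h2] at h3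
  exact h3.trans_le (Finset.card_le_card h1)

/-- The abstract form. -/
theorem exists_x {A : Submodule ℂ (Matrix B B ℂ)} (h1 : (1 : Matrix B B ℂ) ∈ A)
    (hm : ∀ M ∈ A, ∀ N ∈ A, M * N ∈ A) (hg : ∀ σ : ℂ ≃+* ℂ, ∀ X ∈ A, X.map σ ∈ A)
    (P : Matrix B B ℂ ≃ₗ[ℂ] Matrix B B ℂ) (hP : ∀ M N, P (M * N) = P M * P N)
    (had : ∀ X ∈ A, Rt X → ∃ Y ∈ A, Rt Y ∧ P Y = (P X)ᴴ) :
    ∃ X ∈ A, Rt X ∧ (P X)ᴴ * P X = P X * (P X)ᴴ ∧ ∀ l ∈ ev (P X), ∀ M ∈ A,
      ∃ c : ℂ, pj (P X) l * P M * pj (P X) l = c • pj (P X) l := by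
  classical
  have hex : ∃ n : ℕ, ∃ X ∈ A, Rt X ∧ (P X)ᴴ * P X = P X * (P X)ᴴ ∧
      Fintype.card B - (ev (P X)).card = n := by
    refine ⟨_, 0, A.zero_mem, fun σ => ?_, ?_, rfl⟩
    · ext i j
      exact map_zero σ
    · rw [map_zero, conjTranspose_zero]
  obtain ⟨X, hXA, hXR, hXN, hXn⟩ := Nat.find_spec hex
  have hmax : ∀ X' ∈ A, Rt X' → (P X')ᴴ * P X' = P X' * (P X')ᴴ →
      (ev (P X')).card ≤ (ev (P X)).card := by
    intro X' hA hR hN
    have e1 := Nat.find_min' hex ⟨X', hA, hR, hN, rfl⟩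
    rw [← hXn] at e1
    have e2 := ev_card (P X)
    have e3 := ev_card (P X')
    omega
  refine ⟨X, hXA, hXR, hXN, ?_⟩
  intro l hl M₀ hM₀
  by_contra hcon
  obtain ⟨Y, hYA, hYR, hYP⟩ := had X hXA hXR
  let D : Submodule ℂ (Matrix B B ℂ) :=
    { carrier := {M | M ∈ A ∧ M * X = X * M ∧ M * Y = Y * M}
      add_mem' := by
        rintro a b ⟨a1, a2, a3⟩ ⟨b1, b2, b3⟩
        exact ⟨A.add_mem a1 b1, by rw [add_mul, mul_add, a2, b2], by rw [add_mul, mul_add, a3, b3]⟩
      zero_mem' := ⟨A.zero_mem, by rw [zero_mul, mul_zero], by rw [zero_mul, mul_zero]⟩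
      smul_mem' := by
        rintro c a ⟨a1, a2, a3⟩
        exact ⟨A.smul_mem c a1, by rw [Matrix.smul_mul, Matrix.mul_smul, a2],
          by rw [Matrix.smul_mul, Matrix.mul_smul, a3]⟩ }
  have hDg : ∀ τ : ℂ ≃+* ℂ, ∀ M ∈ D, M.map τ ∈ D := by
    rintro τ M ⟨a1, a2, a3⟩
    refine ⟨hg τ M a1, ?_, ?_⟩
    · have e1 := congrArg (fun W => W.map τ) a2
      beta_reduce at e1
      rw [map_mulE, map_mulE, hXR] at e1
      exact e1
    · have e1 := congrArg (fun W => W.map τ) a3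
      beta_reduce at e1
      rw [map_mulE, map_mulE, hYR] at e1
      exact e1
  let T : Submodule ℂ (Matrix B B ℂ) :=
    { carrier := {M | ∃ c : ℂ, pj (P X) l * P M * pj (P X) l = c • pj (P X) l}
      add_mem' := by
        rintro a b ⟨c, hc⟩ ⟨d, hd⟩
        exact ⟨c + d, by rw [map_add, mul_add, add_mul, hc, hd, add_smul]⟩
      zero_mem' := ⟨0, by rw [map_zero, mul_zero, zero_mul, zero_smul]⟩
      smul_mem' := by
        rintro d a ⟨c, hc⟩
        exact ⟨d * c, by rw [map_smul, Matrix.mul_smul, Matrix.smul_mul, hc, smul_smul]⟩ }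
  -- the projections commute with everything
  have hp1 : P X * pj (P X) l = l • pj (P X) l := mul_pj hXN hl
  have hpH := pj_herm hXN hl
  have hpp := pj_mul_self hXN hl
  have hp2 : pj (P X) l * P X = l • pj (P X) l := by
    rw [← hp1]
    exact (comm_aeval rfl _).symm
  have hp3 : P Y * pj (P X) l = (starRingEnd ℂ l) • pj (P X) l := by
    rw [hYP]
    exact normal_adj hXN hp1
  have hp4 : pj (P X) l * P Y = (starRingEnd ℂ l) • pj (P X) l := by
    rw [← hp3, hYP]
    exact (comm_aeval hXN _).symm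
  -- polynomials in `X` belong to `A`
  have hPinv : ∀ q : Polynomial ℂ, ∀ W, P W = Polynomial.aeval (P X) q → W ∈ A := by
    have hP1 : P 1 = 1 := by
      obtain ⟨M, hM⟩ := P.surjective 1
      have h1 := hP 1 M
      rw [one_mul, hM, mul_one] at h1
      exact h1.symm
    intro q
    have h2 : ∃ W ∈ A, P W = Polynomial.aeval (P X) q := by
      induction q using Polynomial.induction_on' with
      | add p q hp hq =>
        obtain ⟨W, hW, e1⟩ := hp
        obtain ⟨V, hV, e2⟩ := hq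
        exact ⟨W + V, A.add_mem hW hV, by rw [map_add, map_add, e1, e2]⟩
      | monomial n a =>
        have h3 : ∃ W ∈ A, P W = (P X) ^ n := by
          induction n with
          | zero => exact ⟨1, h1, by rw [hP1, pow_zero]⟩
          | succ n ih =>
            obtain ⟨W, hW, e1⟩ := ih
            exact ⟨W * X, hm _ hW _ hXA, by rw [hP, e1, pow_succ]⟩
        obtain ⟨W, hW, e1⟩ := h3
        refine ⟨a • W, A.smul_mem _ hW, ?_⟩
        rw [Polynomial.aeval_monomial, map_smul, e1, Algebra.algebraMap_eq_smul_one,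
          Matrix.smul_mul, one_mul]
    intro W hW
    obtain ⟨V, hV, e1⟩ := h2
    have : W = V := P.injective (by rw [hW, e1])
    rw [this]
    exact hV
  obtain ⟨p, hp⟩ := P.surjective (pj (P X) l)
  have hpA : p ∈ A := hPinv _ p hp
  have hM1 : p * M₀ * p ∈ D := by
    refine ⟨hm _ (hm _ hpA _ hM₀) _ hpA, P.injective ?_, P.injective ?_⟩
    · rw [hP, hP, hP, hP, hP, hP, hp, mul_assoc, hp2, ← mul_assoc, ← mul_assoc, hp1,
        Matrix.mul_smul, Matrix.smul_mul, Matrix.smul_mul]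
    · rw [hP, hP, hP, hP, hP, hP, hp, mul_assoc, hp4, ← mul_assoc, ← mul_assoc, hp3,
        Matrix.mul_smul, Matrix.smul_mul, Matrix.smul_mul]
  have hM1T : p * M₀ * p ∉ T := by
    rintro ⟨c, hc⟩
    apply hcon
    refine ⟨c, ?_⟩
    rw [hP, hP, hp] at hc
    have e1 : pj (P X) l * (pj (P X) l * P M₀ * pj (P X) l) * pj (P X) l =
        (pj (P X) l * pj (P X) l) * P M₀ * (pj (P X) l * pj (P X) l) := by noncomm_ring
    rw [e1, hpp] at hc
    exact hc
  have hexa : ∃ a ∈ D, Rt a ∧ a ∉ T := by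
    by_contra hno
    push Not at hno
    apply hM1T
    have e1 : Submodule.span ℂ {X | X ∈ D ∧ Rt X} ≤ T :=
      Submodule.span_le.2 fun a ha => hno a ha.1 ha.2
    exact e1 (span_fixed hDg hM1)
  obtain ⟨a, haD, haR, haT⟩ := hexa
  obtain ⟨b, hbA, hbR, hbP⟩ := had a haD.1 haR
  have hbD : b ∈ D := by
    refine ⟨hbA, P.injective ?_, P.injective ?_⟩
    · have e1 := congrArg (fun W => (P W)ᴴ) haD.2.2
      beta_reduce at e1
      rw [hP, hP, conjTranspose_mul, conjTranspose_mul, hYP, conjTranspose_conjTranspose,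
        ← hbP] at e1
      rw [hP, hP]
      exact e1.symm
    · have e1 := congrArg (fun W => (P W)ᴴ) haD.2.1
      beta_reduce at e1
      rw [hP, hP, conjTranspose_mul, conjTranspose_mul, ← hYP, ← hbP] at e1
      rw [hP, hP]
      exact e1.symm
  -- an element which is Hermitian or skew Hermitian
  have hexd : ∃ d ∈ D, Rt d ∧ d ∉ T ∧ ((P d)ᴴ = P d ∨ (P d)ᴴ = -P d) := by
    by_cases h : a + b ∈ T
    · refine ⟨a - b, D.sub_mem haD hbD, fun σ => by rw [map_subE, haR, hbR], fun h' => haT ?_,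
        Or.inr ?_⟩
      · have e1 : a = (1 / 2 : ℂ) • ((a + b) + (a - b)) := by
          rw [show (a + b) + (a - b) = (2 : ℂ) • a by rw [two_smul]; abel, smul_smul]
          norm_num
        rw [e1]
        exact T.smul_mem _ (T.add_mem h h')
      · rw [map_sub, hbP, conjTranspose_sub, conjTranspose_conjTranspose, neg_sub]
    · refine ⟨a + b, D.add_mem haD hbD, fun σ => by rw [map_addE, haR, hbR], h, Or.inl ?_⟩
      rw [map_add, hbP, conjTranspose_add, conjTranspose_conjTranspose, add_comm]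
  obtain ⟨d, hdD, hdR, hdT, hdH⟩ := hexd
  have c1 : P d * P X = P X * P d := by rw [← hP, ← hP, hdD.2.1]
  have c2 : P d * (P X)ᴴ = (P X)ᴴ * P d := by rw [← hYP, ← hP, ← hP, hdD.2.2]
  have hdN : (P d)ᴴ * P d = P d * (P d)ᴴ := by
    rcases hdH with h | h
    · rw [h]
    · rw [h, neg_mul, mul_neg]
  obtain ⟨t, ht⟩ := more_ev hXN hdN c1.symm hl hdT
  have e1 : P (X + (t : ℂ) • d) = P X + (t : ℂ) • P d := by rw [map_add, map_smul]
  have e2 := hmax (X + (t : ℂ) • d) (A.add_mem hXA (A.smul_mem _ hdD.1))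
    (fun σ => by rw [map_addE, map_smulE, hXR, hdR, map_ratCast]) (by
      have e3 : ((t : ℂ) • P d)ᴴ = (t : ℂ) • (P d)ᴴ := by
        rw [conjTranspose_smul]
        congr 1
        exact map_ratCast (starRingEnd ℂ) t
      rw [e1, conjTranspose_add, e3]
      rcases hdH with h | h
      · rw [h]
        simp only [mul_add, add_mul, Matrix.mul_smul, Matrix.smul_mul, c1, c2, hXN]
        abel
      · rw [h]
        simp only [mul_add, add_mul, Matrix.mul_smul, Matrix.smul_mul, c1, c2, hXN, neg_mul,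
          mul_neg, smul_neg]
        abel)
  rw [e1] at e2
  omega

theorem aeval_mem {A : Submodule ℂ (Matrix B B ℂ)} (h1 : (1 : Matrix B B ℂ) ∈ A)
    (hm : ∀ M ∈ A, ∀ N ∈ A, M * N ∈ A) {X : Matrix B B ℂ} (hX : X ∈ A) (q : Polynomial ℂ) :
    Polynomial.aeval X q ∈ A := by
  rw [Polynomial.aeval_eq_sum_range]
  have h : ∀ n : ℕ, X ^ n ∈ A := by
    intro n
    induction n with
    | zero => rwa [pow_zero]
    | succ n ih => rw [pow_succ]; exact hm _ ih _ hX
  exact A.sum_mem fun i _ => A.smul_mem _ (h i)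

theorem aeval_entries {K : Subfield ℂ} {X : Matrix B B ℂ} (hX : ∀ i j, X i j ∈ K)
    {q : Polynomial ℂ} (hq : ∀ i, q.coeff i ∈ K) (i j : B) : (Polynomial.aeval X q) i j ∈ K := by
  rw [Polynomial.aeval_eq_sum_range, Matrix.sum_apply]
  refine K.sum_mem fun n _ => ?_
  rw [Matrix.smul_apply, smul_eq_mul]
  refine K.mul_mem (hq n) ?_
  have h : ∀ n : ℕ, ∀ i j, (X ^ n) i j ∈ K := by
    intro n
    induction n with
    | zero =>
      intro i j
      rw [pow_zero, Matrix.one_apply]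
      split_ifs
      · exact K.one_mem
      · exact K.zero_mem
    | succ n ih =>
      intro i j
      rw [pow_succ, Matrix.mul_apply]
      exact K.sum_mem fun k _ => K.mul_mem (ih i k) (hX k j)
  exact h n i j

open Polynomial in
theorem lb_coeff {K : Subfield ℂ} {S : Finset ℂ} (hS : ∀ s ∈ S, s ∈ K) {l : ℂ} (hl : l ∈ K) :
    ∀ i, (lb S l).coeff i ∈ K := by
  unfold lb Lagrange.basis Lagrange.basisDivisor
  refine Finset.prod_induction _ (fun q : ℂ[X] => ∀ i, q.coeff i ∈ K) ?_ ?_ ?_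
  · intro p q hp hq i
    rw [coeff_mul]
    exact K.sum_mem fun x _ => K.mul_mem (hp _) (hq _)
  · intro i
    rw [coeff_one]
    split_ifs
    · exact K.one_mem
    · exact K.zero_mem
  · intro j hj i
    have hjK := hS j (Finset.mem_of_mem_erase hj)
    rw [coeff_C_mul, coeff_sub, coeff_X, coeff_C]
    refine K.mul_mem (K.inv_mem (K.sub_mem hl hjK)) (K.sub_mem ?_ ?_)
    · split_ifs
      · exact K.one_mem
      · exact K.zero_mem
    · split_ifs
      · exact hjK
      · exact K.zero_mem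

/-- The conjugates of the eigenvalues. -/
theorem ev_conj (P : Matrix B B ℂ ≃ₗ[ℂ] Matrix B B ℂ) (hP : ∀ M N, P (M * N) = P M * P N)
    {X Y : Matrix B B ℂ} (hX : Rt X) (hY : Rt Y) (hYX : P Y = (P X)ᴴ)
    (hN : (P X)ᴴ * P X = P X * (P X)ᴴ) (σ : ℂ ≃+* ℂ) {l : ℂ} (hl : l ∈ ev (P X)) :
    σ l ∈ ev (P X) ∧ σ (cj l) = cj (σ l) := by
  obtain ⟨q, hq⟩ := P.surjective (pj (P X) l)
  have h1 : X * q = l • q := P.injective (by rw [hP, hq, mul_pj hN hl, map_smul, hq])
  have h2 : Y * q = (cj l) • q := P.injective (by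
    rw [hP, hq, hYX, normal_adj hN (mul_pj hN hl), map_smul, hq]
    rfl)
  have hq0 : q ≠ 0 := by
    rintro rfl
    rw [map_zero] at hq
    exact pj_ne hl hq.symm
  have hs0 : q.map σ ≠ 0 := by
    intro h0
    apply hq0
    ext i j
    have := congrFun (congrFun h0 i) j
    exact (map_eq_zero_iff σ σ.injective).1 this
  have h3 : X * q.map σ = σ l • q.map σ := by
    have := congrArg (fun W => W.map σ) h1
    beta_reduce at this
    rw [map_mulE, map_smulE, hX] at this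
    exact this
  have h4 : Y * q.map σ = σ (cj l) • q.map σ := by
    have := congrArg (fun W => W.map σ) h2
    beta_reduce at this
    rw [map_mulE, map_smulE, hY] at this
    exact this
  have hW0 : P (q.map σ) ≠ 0 := (LinearEquiv.map_ne_zero_iff P).2 hs0
  have h5 : P X * P (q.map σ) = σ l • P (q.map σ) := by rw [← hP, h3, map_smul]
  have h6 : (P X)ᴴ * P (q.map σ) = σ (cj l) • P (q.map σ) := by rw [← hYX, ← hP, h4, map_smul]
  refine ⟨mem_ev.2 ⟨_, hW0, h5⟩, ?_⟩
  have h7 := normal_adj hN h5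
  rw [h6] at h7
  exact smul_left_injective ℂ hW0 h7

end mat

variable {g : ℕ} {Z : Matrix (Fin g) (Fin g) ℂ}

/-- The Rosati adjoint. -/
theorem adj_eq (h : PM Z) {y yi : Matrix (Fin g ⊕ Fin g) (Fin g ⊕ Fin g) ℝ} (hy : YD Z y yi)
    {X : Matrix (Fin g ⊕ Fin g) (Fin g ⊕ Fin g) ℂ} (hX : X ∈ CM (Lr Z)) (hXR : Rt X) :
    (ph hy).P (-(Om g ℂ * Xᵀ * Om g ℂ)) = ((ph hy).P X)ᴴ := by
  have hu := h.det
  have e1 : ((cm y)ᵀ)ᴴ = cm y := by rw [← cm_conjT, conjTranspose_conjTranspose]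
  have e2 : ((cm yi)ᵀ)ᴴ = cm yi := by rw [← cm_conjT, conjTranspose_conjTranspose]
  have hXH : Xᴴ = Xᵀ := by
    have h1 : (X.map cj)ᵀ = Xᴴ := rfl
    rw [← h1, hXR cj]
  have hOS : (cm y)ᵀ * cm y = Om g ℂ * cm (JR Z) := by
    rw [← cm_Om, ← cm_mul, hy.pol, cm_mul, cm_transpose]
  have hJD : cm (JR Z) = Complex.I • DZ Z := by
    change _ = Complex.I • ((-Complex.I) • cm (JR Z))
    rw [smul_smul, show Complex.I * -Complex.I = 1 by simp, one_smul]
  have hJ2 : cm (JR Z) * cm (JR Z) = -1 := by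
    rw [← cm_mul, JR_sq hu, cm_neg, cm_one]
  have hDT : (DZ Z)ᵀ ∈ Lr Z := by
    rw [mem_Lr, transpose_transpose]
    exact DZ_mem
  have h3 : DZ Z * Xᵀ = Xᵀ * DZ Z := by
    have h4 := congrArg Matrix.transpose (hX _ hDT)
    rw [transpose_mul, transpose_mul, transpose_transpose] at h4
    exact h4.symm
  have h4 : cm (JR Z) * Xᵀ = Xᵀ * cm (JR Z) := by
    rw [hJD, Matrix.smul_mul, Matrix.mul_smul, h3]
  -- the inverse of `(cm y)ᵀ * cm y`
  have h5 : (Om g ℂ * cm (JR Z)) * (cm yi * (cm yi)ᵀ) = 1 := by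
    rw [← hOS]
    calc (cm y)ᵀ * cm y * (cm yi * (cm yi)ᵀ) = (cm y)ᵀ * (cm y * cm yi) * (cm yi)ᵀ := by
          noncomm_ring
      _ = 1 := by rw [hy.cr, mul_one, hy.clT]
  have h6 : cm yi * (cm yi)ᵀ = cm (JR Z) * Om g ℂ := by
    have e3 : (cm (JR Z) * Om g ℂ) * (Om g ℂ * cm (JR Z)) = 1 := by
      calc (cm (JR Z) * Om g ℂ) * (Om g ℂ * cm (JR Z))
          = cm (JR Z) * (Om g ℂ * Om g ℂ) * cm (JR Z) := by noncomm_ring
        _ = 1 := by rw [Om_sq, mul_neg_one, neg_mul, hJ2, neg_neg]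
    calc cm yi * (cm yi)ᵀ = ((cm (JR Z) * Om g ℂ) * (Om g ℂ * cm (JR Z))) *
          (cm yi * (cm yi)ᵀ) := by rw [e3, one_mul]
      _ = (cm (JR Z) * Om g ℂ) * ((Om g ℂ * cm (JR Z)) * (cm yi * (cm yi)ᵀ)) := by noncomm_ring
      _ = _ := by rw [h5, mul_one]
  rw [ph_apply, ph_apply, conjTranspose_mul, conjTranspose_mul, e1, e2, hXH]
  have h7 : -(Om g ℂ * Xᵀ * Om g ℂ) = ((cm y)ᵀ * cm y) * Xᵀ * (cm yi * (cm yi)ᵀ) := by
    rw [hOS, h6]
    calc -(Om g ℂ * Xᵀ * Om g ℂ) = Om g ℂ * Xᵀ * (-1) * Om g ℂ := by noncomm_ring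
      _ = Om g ℂ * Xᵀ * (cm (JR Z) * cm (JR Z)) * Om g ℂ := by rw [hJ2]
      _ = Om g ℂ * (Xᵀ * cm (JR Z)) * cm (JR Z) * Om g ℂ := by noncomm_ring
      _ = Om g ℂ * (cm (JR Z) * Xᵀ) * cm (JR Z) * Om g ℂ := by rw [h4]
      _ = _ := by noncomm_ring
  rw [h7]
  calc (cm yi)ᵀ * ((cm y)ᵀ * cm y * Xᵀ * (cm yi * (cm yi)ᵀ)) * (cm y)ᵀ
      = ((cm yi)ᵀ * (cm y)ᵀ) * cm y * Xᵀ * cm yi * ((cm yi)ᵀ * (cm y)ᵀ) := by noncomm_ring
    _ = _ := by rw [hy.crT, one_mul, mul_one, mul_assoc]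

theorem Om_map (σ : ℂ ≃+* ℂ) : (Om g ℂ).map σ = Om g ℂ := by
  ext i j
  rcases i with i | i <;> rcases j with j | j <;>
    simp [Om, Matrix.one_apply, apply_ite]

theorem exists_adj (h : PM Z) {y yi : Matrix (Fin g ⊕ Fin g) (Fin g ⊕ Fin g) ℝ} (hy : YD Z y yi) :
    ∀ X ∈ CM (Lr Z), Rt X → ∃ Y ∈ CM (Lr Z), Rt Y ∧ (ph hy).P Y = ((ph hy).P X)ᴴ := by
  intro X hX hXR
  refine ⟨_, ?_, fun σ => ?_, adj_eq h hy hX hXR⟩
  · rw [← (ph hy).cm_iff, adj_eq h hy hX hXR]
    exact CM_adj (hy.ld h).adj (((ph hy).cm_iff X).2 hX)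
  · have e3 : (Om g ℂ * Xᵀ * Om g ℂ).map σ = Om g ℂ * Xᵀ * Om g ℂ := by
      rw [map_mulE, map_mulE, Om_map]
      have e4 : Xᵀ.map σ = (X.map σ)ᵀ := rfl
      rw [e4, hXR σ]
    conv_rhs => rw [← e3]
    ext i j
    exact map_neg σ _

theorem closure_finite {S : Set ℂ} (hS : S.Finite) (hint : ∀ x ∈ S, IsIntegral ℚ x) :
    FiniteDimensional ℚ (Subfield.closure S) := by
  have hfd : FiniteDimensional ℚ (IntermediateField.adjoin ℚ S) := by
    have : Finite S := hS
    exact IntermediateField.finiteDimensional_adjoin hint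
  have hle : Subfield.closure S ≤ (IntermediateField.adjoin ℚ S).toSubfield :=
    Subfield.closure_le.2 (IntermediateField.subset_adjoin _ _)
  let f : Subfield.closure S →+ IntermediateField.adjoin ℚ S :=
    { toFun := fun x => ⟨x, hle x.2⟩
      map_zero' := rfl
      map_add' := fun _ _ => rfl }
  have hf : Function.Injective f.toRatLinearMap := by
    intro a b hab
    have h1 := congrArg (fun z : IntermediateField.adjoin ℚ S => (z : ℂ)) hab
    exact Subtype.ext h1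
  exact Module.Finite.of_injective f.toRatLinearMap hf

/-- The field. -/
theorem cmf_closure {S : Finset ℂ} (hS : ∀ σ : ℂ ≃+* ℂ, ∀ l ∈ S, σ l ∈ S)
    (hc : ∀ σ : ℂ ≃+* ℂ, ∀ l ∈ S, σ (cj l) = cj (σ l)) :
    CMF (Subfield.closure (insert Complex.I (S : Set ℂ))) where
  fin := by
    refine closure_finite (S.finite_toSet.insert _) fun x hx => ?_
    rcases hx with rfl | hx
    · refine ⟨Polynomial.X ^ 2 + 1, ?_, ?_⟩
      · monicity!
      · simp
    · refine (WJ6.alg_of_orbit (S.finite_toSet.subset ?_)).isIntegral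
      rintro _ ⟨σ, rfl⟩
      exact hS σ x hx
  st := by
    intro σ
    have h1 : Subfield.closure (insert Complex.I (S : Set ℂ)) ≤
        (Subfield.closure (insert Complex.I (S : Set ℂ))).comap (σ : ℂ →+* ℂ) := by
      refine Subfield.closure_le.2 ?_
      intro z hz
      change σ z ∈ Subfield.closure (insert Complex.I (S : Set ℂ))
      rcases hz with rfl | hz
      · have hI : Complex.I ∈ Subfield.closure (insert Complex.I (S : Set ℂ)) :=
          Subfield.subset_closure (Set.mem_insert _ _)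
        rcases GJ13.sig_I σ with h | h
        · rw [h]
          exact hI
        · rw [h]
          exact neg_mem hI
      · exact Subfield.subset_closure (Set.mem_insert_of_mem _ (hS σ z hz))
    exact fun z hz => h1 hz
  cc := by
    intro σ
    have h1 : Subfield.closure (insert Complex.I (S : Set ℂ)) ≤
        RingHom.eqLocusField ((σ : ℂ →+* ℂ).comp (cj : ℂ →+* ℂ))
        ((cj : ℂ →+* ℂ).comp (σ : ℂ →+* ℂ)) := by
      refine Subfield.closure_le.2 ?_
      intro z hz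
      change σ (cj z) = cj (σ z)
      rcases hz with rfl | hz
      · have hcI : cj Complex.I = -Complex.I := Complex.conj_I
        rcases GJ13.sig_I σ with h | h
        · rw [hcI, map_neg, h, hcI]
        · rw [hcI, map_neg, h, map_neg, hcI]
      · exact hc σ z hz
    exact fun z hz => h1 hz
  i := Subfield.subset_closure (Set.mem_insert _ _)

end GD2

/-- **D2.** -/
theorem rat_of : St_rat := by
  classical
  intro g Z y yi h hy
  have hL : ∀ (σ : ℂ ≃+* ℂ), ∀ X ∈ Lr Z, X.map σ ∈ Lr Z := WJ6.gal_Lr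
  obtain ⟨X, hXA, hXR, hXN, hmin⟩ := GD2.exists_x (A := CM (Lr Z)) WJ6.CM_one
    (fun M hM N hN => WJ6.CM_mul hM hN) (WJ6.gal_CMg hL) (ph hy).P (ph hy).mul
    (GD2.exists_adj h hy)
  obtain ⟨Y, hYA, hYR, hYX⟩ := GD2.exists_adj h hy X hXA hXR
  obtain ⟨N, hN⟩ : ∃ N, N = (ph hy).P X := ⟨_, rfl⟩
  have hconj := fun (σ : ℂ ≃+* ℂ) (l : ℂ) (hl : l ∈ GD2.ev ((ph hy).P X)) =>
    GD2.ev_conj (ph hy).P (ph hy).mul hXR hYR hYX hXN σ hl
  have hK : CMF (Subfield.closure (insert Complex.I ((GD2.ev ((ph hy).P X) : Finset ℂ) : Set ℂ))) :=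
    GD2.cmf_closure (fun σ l hl => (hconj σ l hl).1) fun σ l hl => (hconj σ l hl).2
  obtain ⟨K, hKd⟩ : ∃ K, K = Subfield.closure
    (insert Complex.I ((GD2.ev ((ph hy).P X) : Finset ℂ) : Set ℂ)) := ⟨_, rfl⟩
  rw [← hKd] at hK
  refine ⟨K, hK, ?_⟩
  intro ε hε
  have hB : Nonempty (Fin g ⊕ Fin g) := by
    by_contra hcon
    rw [not_nonempty_iff] at hcon
    exact hε.2.2.2.1 (Subsingleton.elim _ _)
  have hex : ∃ l ∈ GD2.ev ((ph hy).P X), ε * GD2.pj ((ph hy).P X) l ≠ 0 := by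
    by_contra hcon
    push Not at hcon
    apply hε.2.2.2.1
    rw [← mul_one ε, ← GD2.pj_sum ((ph hy).P X) hB, Finset.mul_sum]
    exact Finset.sum_eq_zero hcon
  obtain ⟨l, hl, hl0⟩ := hex
  have hXC : (ph hy).P X ∈ CM (Ly Z y yi) := ((ph hy).cm_iff X).2 hXA
  have hpC : GD2.pj ((ph hy).P X) l ∈ CM (Ly Z y yi) :=
    GD2.aeval_mem WJ6.CM_one (fun M hM N hN => WJ6.CM_mul hM hN) hXC _
  refine ⟨GD2.pj ((ph hy).P X) l, ε * GD2.pj ((ph hy).P X) l,
    ⟨hpC, GD2.pj_mul_self hXN hl, GD2.pj_herm hXN hl, GD2.pj_ne hl, fun M hM => ?_⟩, ?_,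
    WJ6.CM_mul hε.1 hpC, hl0, ?_, ?_⟩
  · obtain ⟨M', rfl⟩ := (ph hy).P.surjective M
    exact hmin l hl M' (((ph hy).cm_iff M').1 hM)
  · have h1 : (cm y)ᵀ * GD2.pj ((ph hy).P X) l * (cm yi)ᵀ =
        Polynomial.aeval X (GD2.lb (GD2.ev ((ph hy).P X)) l) := by
      have h2 : (ph hy).P.symm (GD2.pj ((ph hy).P X) l) =
          Polynomial.aeval X (GD2.lb (GD2.ev ((ph hy).P X)) l) := by
        rw [LinearEquiv.symm_apply_eq]
        let φ : Matrix (Fin g ⊕ Fin g) (Fin g ⊕ Fin g) ℂ ≃ₐ[ℂ]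
            Matrix (Fin g ⊕ Fin g) (Fin g ⊕ Fin g) ℂ :=
          AlgEquiv.ofLinearEquiv (ph hy).P (ph hy).one (ph hy).mul
        exact Polynomial.aeval_algHom_apply φ X _
      exact h2
    rw [h1]
    refine GD2.aeval_entries (fun i j => ?_) (GD2.lb_coeff (fun s hs => ?_) ?_)
    · obtain ⟨q, hq⟩ := WJ6.fixed_rat (z := X i j) fun σ => congrFun (congrFun (hXR σ) i) j
      rw [hq]
      exact SubfieldClass.ratCast_mem K q
    · rw [hKd]
      exact Subfield.subset_closure (Set.mem_insert_of_mem _ hs)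
    · rw [hKd]
      exact Subfield.subset_closure (Set.mem_insert_of_mem _ hl)
  · rw [← mul_assoc, hε.2.1]
  · rw [mul_assoc, GD2.pj_mul_self hXN hl]

end

end Pool.Agent.NH32
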