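import Pool.Agent.NH32.GtD

/-!
# Diagonalization of skew Hermitian forms over a CM field
-/

set_option autoImplicit false

namespace Pool.Agent.NH32

open Module Matrix

namespace GD3

variable {B : Type} [Fintype B] [DecidableEq B]

theorem star_single (a : B) : star (Pi.single a 1 : B → ℂ) = Pi.single a 1 := by
  funext i
  rw [Pi.star_apply]
  by_cases h : i = a
  · rw [h, Pi.single_eq_same, star_one]
  · rw [Pi.single_eq_of_ne h, star_zero]

theorem h_eq (M : Matrix B B ℂ) (a b : B) (t : ℂ) :
    star (Pi.single a 1 + t • Pi.single b 1 : B → ℂ) ⬝ᵥ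
      (M *ᵥ (Pi.single a 1 + t • Pi.single b 1)) =
      M a a + t * M a b + star t * (M b a + t * M b b) := by
  rw [mulVec_add, mulVec_smul, mulVec_single_one, mulVec_single_one, star_add, star_smul,
    star_single, star_single, add_dotProduct, smul_dotProduct, single_one_dotProduct,
    single_one_dotProduct]
  simp only [Pi.add_apply, Pi.smul_apply, smul_eq_mul, col_apply]

/-- a vector at which the form does not vanish -/
theorem exists_x {K : Subfield ℂ} (hK : CMF K) {M : Matrix B B ℂ} (hM : M ≠ 0) :
    ∃ x : B → ℂ, (∀ i, x i ∈ K) ∧ star x ⬝ᵥ (M *ᵥ x) ≠ 0 := by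
  by_contra hcon
  push Not at hcon
  apply hM
  have key : ∀ (a b : B) (t : ℂ), t ∈ K → M a a + t * M a b + star t * (M b a + t * M b b) = 0 := by
    intro a b t ht
    rw [← h_eq]
    refine hcon _ fun i => ?_
    rw [Pi.add_apply, Pi.smul_apply, smul_eq_mul]
    refine K.add_mem ?_ (K.mul_mem ht ?_)
    · by_cases h : i = a
      · rw [h, Pi.single_eq_same]
        exact K.one_mem
      · rw [Pi.single_eq_of_ne h]
        exact K.zero_mem
    · by_cases h : i = b
      · rw [h, Pi.single_eq_same]
        exact K.one_mem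
      · rw [Pi.single_eq_of_ne h]
        exact K.zero_mem
  have hd : ∀ a : B, M a a = 0 := by
    intro a
    have h1 := key a a 0 K.zero_mem
    simpa using h1
  ext a b
  have h1 := key a b 1 K.one_mem
  have h2 := key a b Complex.I hK.i
  rw [hd a, hd b] at h1 h2
  have h3 : star Complex.I = -Complex.I := Complex.conj_I
  rw [h3] at h2
  rw [star_one] at h1
  have h4 : Complex.I * (M a b - M b a) = 0 := by linear_combination h2
  have h5 : M a b - M b a = 0 := (mul_eq_zero.1 h4).resolve_left Complex.I_ne_zero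
  have h6 : (2 : ℂ) * M a b = 0 := by linear_combination h1 + h5
  exact (mul_eq_zero.1 h6).resolve_left two_ne_zero

theorem main {K : Subfield ℂ} (hK : CMF K) : ∀ (k : ℕ) (M : Matrix B B ℂ),
    finrank ℂ (LinearMap.range M.mulVecLin) = k → (∀ i j, M i j ∈ K) → Mᴴ = -M →
    ∃ (d : ℕ) (v : Fin d → B → ℂ) (κ : Fin d → ℂ), (∀ j b, v j b ∈ K) ∧
      LinearIndependent ℂ v ∧ (∀ j, κ j ∈ K ∧ star (κ j) = -κ j ∧ κ j ≠ 0) ∧
      M = ∑ j, κ j • vecMulVec (v j) (star (v j)) ∧
      ∀ z, M *ᵥ z = 0 → ∀ j, star z ⬝ᵥ v j = 0 := by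
  intro k
  induction k using Nat.strong_induction_on with
  | _ k ih =>
    intro M hk hMK hMs
    by_cases hM : M = 0
    · exact ⟨0, Fin.elim0, Fin.elim0, fun j => j.elim0, linearIndependent_empty_type,
        fun j => j.elim0, by rw [hM, Finset.univ_eq_empty, Finset.sum_empty], fun _ _ j => j.elim0⟩
    · obtain ⟨x, hxK, hx⟩ := exists_x hK hM
      have hstK : ∀ z ∈ K, star z ∈ K := fun z hz => hK.st cj z hz
      obtain ⟨c, hc⟩ : ∃ c, c = star x ⬝ᵥ (M *ᵥ x) := ⟨_, rfl⟩
      obtain ⟨w, hw⟩ : ∃ w, w = M *ᵥ x := ⟨_, rfl⟩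
      rw [← hc] at hx
      have hwK : ∀ i, w i ∈ K := fun i => by
        rw [hw]
        exact K.sum_mem fun j _ => K.mul_mem (hMK i j) (hxK j)
      have hcK : c ∈ K := by
        rw [hc, ← hw]
        exact K.sum_mem fun j _ => K.mul_mem (hstK _ (hxK j)) (hwK j)
      -- the adjoint
      have hadj : ∀ z : B → ℂ, star z ᵥ* M = -star (M *ᵥ z) := by
        intro z
        rw [star_mulVec, hMs, vecMul_neg, neg_neg]
      have hcs : star c = -c := by
        have e1 : star c = star (M *ᵥ x) ⬝ᵥ x := by
          rw [hc, star_dotProduct, dotProduct_comm, star_star]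
        have e2 : (star x ᵥ* M) ⬝ᵥ x = c := by
          rw [← dotProduct_mulVec, hc]
        rw [hadj, neg_dotProduct] at e2
        rw [e1, ← e2, neg_neg]
      have hwx : star w ⬝ᵥ x = -c := by
        have e2 : (star x ᵥ* M) ⬝ᵥ x = c := by
          rw [← dotProduct_mulVec, hc]
        rw [hadj, neg_dotProduct] at e2
        rw [hw, ← e2, neg_neg]
      have hxw : star x ⬝ᵥ w = c := by rw [hc, hw]
      have hwz : ∀ z, M *ᵥ z = 0 → star w ⬝ᵥ z = 0 := by
        intro z hz
        have e2 : (star x ᵥ* M) ⬝ᵥ z = 0 := by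
          rw [← dotProduct_mulVec, hz, dotProduct_zero]
        rw [hadj, neg_dotProduct, neg_eq_zero] at e2
        rw [hw]
        exact e2
      have hzw : ∀ z, M *ᵥ z = 0 → star z ⬝ᵥ w = 0 := by
        intro z hz
        rw [hw, dotProduct_mulVec, hadj, hz, star_zero, neg_zero, zero_dotProduct]
      obtain ⟨M', hM'⟩ : ∃ M', M' = M + c⁻¹ • vecMulVec w (star w) := ⟨_, rfl⟩
      have hmv : ∀ z, M' *ᵥ z = M *ᵥ z + (c⁻¹ * (star w ⬝ᵥ z)) • w := by
        intro z
        rw [hM', add_mulVec, smul_mulVec, vecMulVec_mulVec, mul_smul, op_smul_eq_smul]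
      have hM'x : M' *ᵥ x = 0 := by
        rw [hmv, hwx, ← hw, mul_neg, inv_mul_cancel₀ hx, neg_smul, one_smul, add_neg_cancel]
      have hker : ∀ z, M *ᵥ z = 0 → M' *ᵥ z = 0 := by
        intro z hz
        rw [hmv, hz, hwz z hz, mul_zero, zero_smul, add_zero]
      have hlt : finrank ℂ (LinearMap.range M'.mulVecLin) < k := by
        have e1 := LinearMap.finrank_range_add_finrank_ker M.mulVecLin
        have e2 := LinearMap.finrank_range_add_finrank_ker M'.mulVecLin
        have e3 : LinearMap.ker M.mulVecLin < LinearMap.ker M'.mulVecLin := by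
          refine lt_of_le_of_ne (fun z hz => ?_) fun heq => ?_
          · exact hker z hz
          · have e4 : x ∈ LinearMap.ker M'.mulVecLin := hM'x
            rw [← heq] at e4
            have e5 : M *ᵥ x = 0 := e4
            apply hx
            rw [hc, e5, dotProduct_zero]
        have e4 := Submodule.finrank_lt_finrank_of_lt e3
        omega
      have hM'K : ∀ i j, M' i j ∈ K := by
        intro i j
        rw [hM', Matrix.add_apply, Matrix.smul_apply, vecMulVec_apply, smul_eq_mul]
        exact K.add_mem (hMK i j) (K.mul_mem (K.inv_mem hcK) (K.mul_mem (hwK i) (hstK _ (hwK j))))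
      have hM's : M'ᴴ = -M' := by
        rw [hM', conjTranspose_add, hMs, conjTranspose_smul, conjTranspose_vecMulVec, star_star,
          star_inv₀, hcs, inv_neg, neg_smul, neg_add]
      obtain ⟨d, v, κ, hvK, hvi, hκ, hsum, horth⟩ := ih _ hlt M' rfl hM'K hM's
      refine ⟨d + 1, Fin.cons w v, Fin.cons (-c⁻¹) κ, ?_, ?_, ?_, ?_, ?_⟩
      · intro j
        refine Fin.cases ?_ (fun j => ?_) j
        · exact hwK
        · exact hvK j
      · rw [linearIndependent_finCons]
        refine ⟨hvi, fun hmem => ?_⟩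
        have e1 : ∀ u ∈ Submodule.span ℂ (Set.range v), star x ⬝ᵥ u = 0 := by
          intro u hu
          induction hu using Submodule.span_induction with
          | mem u hu =>
            obtain ⟨j, rfl⟩ := hu
            exact horth x hM'x j
          | zero => exact dotProduct_zero _
          | add u u' _ _ h1 h2 => rw [dotProduct_add, h1, h2, add_zero]
          | smul a u _ h1 => rw [dotProduct_smul, h1, smul_zero]
        have e2 := e1 w hmem
        rw [hxw] at e2
        exact hx e2
      · intro j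
        refine Fin.cases ?_ (fun j => ?_) j
        · rw [Fin.cons_zero]
          refine ⟨K.neg_mem (K.inv_mem hcK), ?_, neg_ne_zero.2 (inv_ne_zero hx)⟩
          rw [star_neg, star_inv₀, hcs, inv_neg]
        · rw [Fin.cons_succ]
          exact hκ j
      · rw [Fin.sum_univ_succ, Fin.cons_zero, Fin.cons_zero]
        simp only [Fin.cons_succ]
        rw [← hsum, hM', neg_smul]
        abel
      · intro z hz j
        refine Fin.cases ?_ (fun j => ?_) j
        · rw [Fin.cons_zero]
          exact hzw z hz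
        · rw [Fin.cons_succ]
          exact horth z (hker z hz) j

end GD3

theorem diag_of : St_diag := by
  intro K hK B _ _ M hMK hMs
  obtain ⟨d, v, κ, h1, h2, h3, h4, -⟩ := GD3.main hK _ M rfl hMK hMs
  exact ⟨d, v, κ, h1, h2, h3, h4⟩

end Pool.Agent.NH32
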