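import Mathlib
import Pool.Agent.NH32.WlA

/-!
# Products of determinants and Weil classes
-/

set_option linter.unusedSectionVars false

namespace Pool.Agent.NH32

open Matrix Module Pool.Agent.W437.HC Pool.Agent.W437.HD Pool.Agent.TH504.CB Pool.Agent.Y90
open Pool.Agent.H204R3.CM (IsHodge)
open Pool.Agent.W548.Odd hiding cv

noncomputable section

namespace WJ4

/-! ### Linear combinations of Hodge classes -/

section hodge

variable {W T : Type} [AddCommGroup W] [Module ℚ W] [AddCommGroup T] [Module ℂ T]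
  {per : W →+ T} {κ : Type}

theorem hodge_zero : IsHodge per (0 : W [⋀^κ]→ₗ[ℚ] ℚ) :=
  ⟨0, fun v => by
    rw [_root_.zero_apply, AlternatingMap.zero_apply, Rat.cast_zero],
    fun z _ u => by rw [_root_.zero_apply, _root_.zero_apply]⟩

theorem hodge_add {f g : W [⋀^κ]→ₗ[ℚ] ℚ} (hf : IsHodge per f) (hg : IsHodge per g) :
    IsHodge per (f + g) := by
  obtain ⟨ψ, h1, h2⟩ := hf
  obtain ⟨ψ', h3, h4⟩ := hg
  refine ⟨ψ + ψ', fun v => ?_, fun z hz u => ?_⟩
  · rw [_root_.add_apply, h1, h3, AlternatingMap.add_apply, Rat.cast_add]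
  · rw [_root_.add_apply, _root_.add_apply, h2 z hz, h4 z hz]

theorem hodge_smul (c : ℚ) {f : W [⋀^κ]→ₗ[ℚ] ℚ} (hf : IsHodge per f) : IsHodge per (c • f) := by
  obtain ⟨ψ, h1, h2⟩ := hf
  refine ⟨(c : ℝ) • ψ, fun v => ?_, fun z hz u => ?_⟩
  · rw [_root_.smul_apply, h1, AlternatingMap.smul_apply, smul_eq_mul, smul_eq_mul,
      Rat.cast_mul]
  · rw [_root_.smul_apply, _root_.smul_apply, h2 z hz]

theorem hodge_sum {α : Type} (s : Finset α) (f : α → W [⋀^κ]→ₗ[ℚ] ℚ)
    (h : ∀ i ∈ s, IsHodge per (f i)) : IsHodge per (∑ i ∈ s, f i) := by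
  classical
  induction s using Finset.induction_on with
  | empty =>
    rw [Finset.sum_empty]
    exact hodge_zero
  | insert i s hi ih =>
    rw [Finset.sum_insert hi]
    exact hodge_add (h i (Finset.mem_insert_self i s))
      (ih fun j hj => h j (Finset.mem_insert_of_mem hj))

end hodge

/-- Forms on powers with good coefficients are Hodge classes. -/
theorem hodge_of_cfI {A : AV} {B : Type} [Fintype B] [DecidableEq B] {e : A.H ≃ₗ[ℚ] (B → ℚ)}
    {J : Matrix B B ℝ} {κ ι : Type} [Fintype κ] [DecidableEq κ] [Fintype ι] [DecidableEq ι]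
    (hc : Cht (A.per.comp e.symm.toLinearMap.toAddMonoidHom) J)
    {f : (powAV A ι).H [⋀^κ]→ₗ[ℚ] ℚ} (h : ∀ φ : κ → ι, IsH (DJ J) (cfI e f φ)) :
    IsHodge (powAV A ι).per f := by
  have h1 : f = (Fintype.card (Equiv.Perm κ) : ℚ)⁻¹ • ∑ φ : κ → ι, fmQ e φ (cfI e f φ) := by
    refine AlternatingMap.ext fun v => ?_
    have h2 : ∀ φ : κ → ι, fmQ e φ (cfI e f φ) v = ∑ σ : Equiv.Perm κ,
        ((Equiv.Perm.sign σ : ℤ) : ℚ) * mlQ e φ (cfI e f φ) (fun k => v (σ k)) := by
      intro φ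
      unfold fmQ
      rw [MultilinearMap.alternatization_apply]
      refine Finset.sum_congr rfl fun σ _ => ?_
      rw [MultilinearMap.domDomCongr_apply, Units.smul_def, zsmul_eq_mul]
    have h3 : ∀ σ : Equiv.Perm κ, ∑ φ : κ → ι, ((Equiv.Perm.sign σ : ℤ) : ℚ) *
        mlQ e φ (cfI e f φ) (fun k => v (σ k)) = f v := by
      intro σ
      rw [← Finset.mul_sum, ← form_expand f (fun k => v (σ k))]
      have h4 : f (fun k => v (σ k)) = Equiv.Perm.sign σ • f v := f.map_perm v σ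
      rw [h4, Units.smul_def, zsmul_eq_mul, ← mul_assoc]
      have h5 : (((Equiv.Perm.sign σ : ℤ)) : ℚ) * (((Equiv.Perm.sign σ : ℤ)) : ℚ) = 1 := by
        rcases Int.units_eq_one_or (Equiv.Perm.sign σ) with h | h <;> rw [h] <;> norm_num
      rw [h5, one_mul]
    have h6 : (∑ φ : κ → ι, fmQ e φ (cfI e f φ)) v = ∑ φ : κ → ι, fmQ e φ (cfI e f φ) v :=
      map_sum (⟨⟨fun f => f v, rfl⟩, fun _ _ => rfl⟩ :
        ((powAV A ι).H [⋀^κ]→ₗ[ℚ] ℚ) →+ ℚ) _ _
    rw [AlternatingMap.smul_apply, h6, smul_eq_mul, Finset.sum_congr rfl fun φ _ => h2 φ,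
      Finset.sum_comm, Finset.sum_congr rfl fun σ _ => h3 σ, Finset.sum_const, nsmul_eq_mul,
      Finset.card_univ, ← mul_assoc, inv_mul_cancel₀ (by exact_mod_cast Fintype.card_ne_zero),
      one_mul]
  rw [h1]
  exact hodge_smul _ (hodge_sum _ _ fun φ _ => fmQ_hodge hc φ (h φ))

/-! ### Determinants -/

theorem det_tr {n R : Type} [Fintype n] [DecidableEq n] [CommRing R] (M D : Matrix n n R) :
    ∑ k, (M.updateRow k ((M * D) k)).det = trace D * M.det := by
  have h1 : ∀ k, (M.updateRow k ((M * D) k)).det = (M * D * adjugate M) k k := by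
    intro k
    rw [← cramer_transpose_apply, cramer_eq_adjugate_mulVec, ← adjugate_transpose, mul_apply]
    change ∑ j, (adjugate M)ᵀ k j * (M * D) k j = _
    refine Finset.sum_congr rfl fun j _ => ?_
    rw [transpose_apply, mul_comm]
  rw [Finset.sum_congr rfl fun k _ => h1 k]
  change trace (M * D * adjugate M) = _
  rw [trace_mul_comm, ← Matrix.mul_assoc, adjugate_mul, smul_mul_assoc, one_mul, trace_smul,
    smul_eq_mul, mul_comm]

theorem det_row_sum {n R α : Type} [Fintype n] [DecidableEq n] [CommRing R] [Fintype α]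
    (M : Matrix n n R) (k : n) (c : α → R) (v : α → n → R) :
    (M.updateRow k (∑ b, c b • v b)).det = ∑ b, c b * (M.updateRow k (v b)).det := by
  have h1 : ∀ w, (M.updateRow k w).det = (detRowAlternating (R := R) (n := n)).toMultilinearMap.toLinearMap M k w :=
    fun w => rfl
  rw [h1, map_sum]
  refine Finset.sum_congr rfl fun b _ => ?_
  rw [map_smul, smul_eq_mul, h1]

section TT

variable {B : Type} [Fintype B] [DecidableEq B] {s : ℕ} {d : Fin s → ℕ}
  (a : ∀ i, Fin (d i) → B → ℂ) {κ' : Type} [Fintype κ'] [DecidableEq κ']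

/-- The matrix of the products of determinants. -/
def MT (p : κ' → Fin s) (q : κ' ≃ Σ i, Fin (d i)) (I : κ' → B) : Matrix κ' κ' ℂ :=
  of fun k j => if (q j).1 = p k then a (q j).1 (q j).2 (I k) else 0

/-- The products of determinants. -/
def TT (p : κ' → Fin s) (q : κ' ≃ Σ i, Fin (d i)) (I : κ' → B) : ℂ := det (MT a p q I)

theorem MT_update (p : κ' → Fin s) (q : κ' ≃ Σ i, Fin (d i)) (I : κ' → B) (k : κ') (b : B) :
    MT a p q (Function.update I k b) = (MT a p q I).updateRow k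
      (fun j => if (q j).1 = p k then a (q j).1 (q j).2 b else 0) := by
  ext l j
  by_cases hl : l = k
  · subst hl
    rw [updateRow_self]
    change (if (q j).1 = p l then a (q j).1 (q j).2 (Function.update I l b l) else 0) = _
    rw [Function.update_self]
  · rw [updateRow_ne hl]
    change (if (q j).1 = p l then a (q j).1 (q j).2 (Function.update I k b l) else 0) = _
    rw [Function.update_of_ne hl]
    rfl

theorem act_TT {X : Matrix B B ℂ} {C : Matrix (Σ i, Fin (d i)) (Σ i, Fin (d i)) ℂ}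
    (hC : ∀ y x, x.1 ≠ y.1 → C y x = 0)
    (hX : ∀ (y : Σ i, Fin (d i)) (b : B), (Xᵀ *ᵥ a y.1 y.2) b = ∑ x, C y x * a x.1 x.2 b)
    (p : κ' → Fin s) (q : κ' ≃ Σ i, Fin (d i)) :
    act X (TT a p q) = trace C • TT a p q := by
  funext I
  have h1 : ∀ k, ∑ b, X b (I k) * TT a p q (Function.update I k b) =
      ((MT a p q I).updateRow k ((MT a p q I * of fun k' j => C (q j) (q k')) k)).det := by
    intro k
    have h2 : ((MT a p q I * of fun k' j => C (q j) (q k')) k) =
        ∑ b, X b (I k) • fun j => if (q j).1 = p k then a (q j).1 (q j).2 b else 0 := by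
      funext j
      rw [Finset.sum_apply, mul_apply]
      have h3 : ∑ k', MT a p q I k k' * (of fun k' j => C (q j) (q k')) k' j =
          ∑ x : (Σ i, Fin (d i)), (if x.1 = p k then a x.1 x.2 (I k) else 0) * C (q j) x :=
        Equiv.sum_comp q (fun x : (Σ i, Fin (d i)) =>
          (if x.1 = p k then a x.1 x.2 (I k) else 0) * C (q j) x)
      rw [h3]
      by_cases h : (q j).1 = p k
      · have h4 : ∀ x : (Σ i, Fin (d i)), (if x.1 = p k then a x.1 x.2 (I k) else 0) * C (q j) x =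
            C (q j) x * a x.1 x.2 (I k) := by
          intro x
          by_cases hx : x.1 = p k
          · rw [if_pos hx, mul_comm]
          · rw [if_neg hx, hC (q j) x (fun h5 => hx (h5.trans h)), mul_zero, zero_mul]
        rw [Finset.sum_congr rfl fun x _ => h4 x, ← hX]
        change ∑ b, Xᵀ (I k) b * a (q j).1 (q j).2 b = _
        refine Finset.sum_congr rfl fun b _ => ?_
        rw [Pi.smul_apply, if_pos h, smul_eq_mul, transpose_apply]
      · have h4 : ∀ x : (Σ i, Fin (d i)), (if x.1 = p k then a x.1 x.2 (I k) else 0) * C (q j) x =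
            0 := by
          intro x
          by_cases hx : x.1 = p k
          · rw [hC (q j) x (fun h5 => h (h5.symm.trans hx)), mul_zero]
          · rw [if_neg hx, zero_mul]
        rw [Finset.sum_congr rfl fun x _ => h4 x, Finset.sum_const_zero]
        symm
        refine Finset.sum_eq_zero fun b _ => ?_
        rw [Pi.smul_apply, if_neg h, smul_zero]
    rw [h2, det_row_sum]
    refine Finset.sum_congr rfl fun b _ => ?_
    unfold TT
    rw [MT_update]
  change ∑ k, ∑ b, X b (I k) * TT a p q (Function.update I k b) = trace C * TT a p q I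
  rw [Finset.sum_congr rfl fun k _ => h1 k, det_tr]
  congr 1
  exact Equiv.sum_comp q (fun x => C x x)

/-- The matrix on the family. -/
theorem exists_C {X : Matrix B B ℂ}
    (h : ∀ i j, Xᵀ *ᵥ a i j ∈ Submodule.span ℂ (Set.range (a i))) :
    ∃ C : Matrix (Σ i, Fin (d i)) (Σ i, Fin (d i)) ℂ, (∀ y x, x.1 ≠ y.1 → C y x = 0) ∧
      ∀ (y : Σ i, Fin (d i)) (b : B), (Xᵀ *ᵥ a y.1 y.2) b = ∑ x, C y x * a x.1 x.2 b := by
  have h1 : ∀ i j, ∃ c : Fin (d i) → ℂ, ∑ l, c l • a i l = Xᵀ *ᵥ a i j := fun i j =>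
    (Submodule.mem_span_range_iff_exists_fun ℂ).1 (h i j)
  choose c hc using h1
  refine ⟨blockDiagonal' fun i => of fun j l => c i j l, fun y x hyx => ?_, fun y b => ?_⟩
  · exact blockDiagonal'_apply_ne _ _ _ (Ne.symm hyx)
  · rw [Fintype.sum_sigma, Finset.sum_eq_single y.1]
    · rw [← hc y.1 y.2, Finset.sum_apply]
      refine Finset.sum_congr rfl fun l _ => ?_
      have h2 : (blockDiagonal' fun i => of fun j l => c i j l) y ⟨y.1, l⟩ = c y.1 y.2 l :=
        blockDiagonal'_apply_eq (fun i => of fun j l => c i j l) y.1 y.2 l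
      rw [h2]
      rfl
    · intro i _ hi
      refine Finset.sum_eq_zero fun l _ => ?_
      rw [blockDiagonal'_apply_ne _ _ _ (Ne.symm hi), zero_mul]
    · intro h2
      exact absurd (Finset.mem_univ _) h2

theorem TT_comp (q : κ' ≃ Σ i, Fin (d i)) (J : (Σ i, Fin (d i)) → B) :
    TT a (fun k => (q k).1) q (fun k => J (q k)) = ∏ i, det (of fun j k : Fin (d i) => a i j (J ⟨i, k⟩)) := by
  have h1 : MT a (fun k => (q k).1) q (fun k => J (q k)) =
      (of fun x y : (Σ i, Fin (d i)) => if y.1 = x.1 then a y.1 y.2 (J x) else 0).submatrix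
        q q := rfl
  unfold TT
  rw [h1, det_submatrix_equiv_self]
  have h2 : BlockTriangular (of fun x y : (Σ i, Fin (d i)) =>
      if y.1 = x.1 then a y.1 y.2 (J x) else 0) Sigma.fst := by
    intro x y hxy
    exact if_neg (ne_of_lt hxy)
  rw [h2.det_fintype]
  refine Finset.prod_congr rfl fun i _ => ?_
  rw [← det_transpose, ← det_submatrix_equiv_self (Equiv.sigmaSubtype i).symm]
  congr 1
  ext j k
  exact if_pos rfl

end TT

/-! ### The projection -/

section RR

variable {B : Type} [Fintype B] [DecidableEq B] {s : ℕ} {d : Fin s → ℕ} {A : AV}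
  (e : A.H ≃ₗ[ℚ] (B → ℚ)) {K : IntermediateField ℚ ℂ} {r : ℕ} (β : Basis (Fin r) ℚ K)
  (a : ∀ i, Fin (d i) → B → K)

/-- The homology of the quotient. -/
abbrev WW (d : Fin s → ℕ) (K : IntermediateField ℚ ℂ) : Type := (Σ i, Fin (d i)) → K

/-- The projection. -/
def RR : (powAV A (Fin s × Fin r)).H →ₗ[ℚ] WW d K where
  toFun x := fun y => ∑ m, β m * ∑ b, (e (evI A (y.1, m) x) b) • a y.1 y.2 b
  map_add' u v := by
    funext y
    rw [Pi.add_apply, ← Finset.sum_add_distrib]
    refine Finset.sum_congr rfl fun m _ => ?_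
    rw [← mul_add, ← Finset.sum_add_distrib]
    congr 1
    refine Finset.sum_congr rfl fun b _ => ?_
    rw [map_add, map_add, Pi.add_apply, add_smul]
  map_smul' c v := by
    funext y
    rw [Pi.smul_apply, Finset.smul_sum]
    refine Finset.sum_congr rfl fun m _ => ?_
    rw [RingHom.id_apply, ← mul_smul_comm, Finset.smul_sum]
    congr 1
    refine Finset.sum_congr rfl fun b _ => ?_
    rw [map_smul, map_smul, Pi.smul_apply, smul_assoc]

theorem RR_apply (x : (powAV A (Fin s × Fin r)).H) (y : Σ i, Fin (d i)) :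
    RR e β a x y = ∑ m, β m * ∑ b, (e (evI A (y.1, m) x) b) • a y.1 y.2 b := rfl

theorem RR_sgI (i : Fin s) (m : Fin r) (v : A.H) (y : Σ i, Fin (d i)) :
    RR e β a (sgI A (i, m) v) y =
      if y.1 = i then β m * ∑ b, (e v b) • a y.1 y.2 b else 0 := by
  rw [RR_apply]
  have h1 : ∀ m', β m' * ∑ b, (e (evI A (y.1, m') (sgI A (i, m) v)) b) • a y.1 y.2 b =
      if m' = m then (if y.1 = i then β m * ∑ b, (e v b) • a y.1 y.2 b else 0) else 0 := by
    intro m'
    rw [evI_sgI]
    by_cases hm : m' = m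
    · by_cases hi : y.1 = i
      · rw [if_pos (by rw [hi, hm]), if_pos hm, if_pos hi, hm]
      · rw [if_neg (fun h => hi (congrArg Prod.fst h)), if_pos hm, if_neg hi, map_zero]
        simp
    · rw [if_neg (fun h => hm (congrArg Prod.snd h)), if_neg hm, map_zero]
      simp
  rw [Finset.sum_congr rfl fun m' _ => h1 m', Finset.sum_ite_eq' Finset.univ m,
    if_pos (Finset.mem_univ m)]

theorem RR_surj (ha : ∀ i, LinearIndependent K (a i)) : Function.Surjective (RR (A := A) e β a) := by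
  intro w
  have h1 : ∀ i, ∃ v : B → K, ∀ j : Fin (d i), ∑ b, v b * a i j b = w ⟨i, j⟩ := by
    intro i
    have h2 : LinearMap.range (of (a i)).mulVecLin = ⊤ := by
      apply Submodule.eq_top_of_finrank_eq
      have h3 : (of (a i)).rank = Fintype.card (Fin (d i)) := LinearIndependent.rank_matrix (ha i)
      rw [finrank_fintype_fun_eq_card, ← h3]
      rfl
    obtain ⟨v, hv⟩ := LinearMap.range_eq_top.1 h2 (fun j => w ⟨i, j⟩)
    refine ⟨v, fun j => ?_⟩
    rw [← congrFun hv j, mulVecLin_apply]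
    change _ = ∑ b, a i j b * v b
    exact Finset.sum_congr rfl fun b _ => mul_comm _ _
  choose v hv using h1
  obtain ⟨x, hx⟩ : ∃ x : (powAV A (Fin s × Fin r)).H, ∀ p, e (evI A p x) =
      fun b => β.repr (v p.1 b) p.2 :=
    ⟨fun p : Fin s × Fin r => e.symm (fun b => β.repr (v p.1 b) p.2),
      fun p => e.apply_symm_apply _⟩
  refine ⟨x, ?_⟩
  funext y
  rw [RR_apply]
  have h3 : ∀ b, v y.1 b = ∑ m, β.repr (v y.1 b) m • β m := fun b => (β.sum_repr _).symm
  have h5 : ∀ m, β m * ∑ b, (e (evI A (y.1, m) x) b) • a y.1 y.2 b =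
      ∑ b, (β.repr (v y.1 b) m • β m) * a y.1 y.2 b := by
    intro m
    rw [hx, Finset.mul_sum]
    refine Finset.sum_congr rfl fun b _ => ?_
    rw [mul_smul_comm, smul_mul_assoc]
  rw [Finset.sum_congr rfl fun m _ => h5 m, Finset.sum_comm]
  refine Eq.trans ?_ (hv y.1 y.2)
  refine Finset.sum_congr rfl fun b _ => ?_
  rw [← Finset.sum_mul, ← h3]

end RR

/-! ### The kernel -/

section Sub

variable {g : ℕ} {Z : Matrix (Fin g) (Fin g) ℂ} {s : ℕ} {d : Fin s → ℕ} {A : AV}
  {e : A.H ≃ₗ[ℚ] (Fin g ⊕ Fin g → ℚ)} {K : IntermediateField ℚ ℂ} {r : ℕ}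
  {β : Basis (Fin r) ℚ K} {a : ∀ i, Fin (d i) → (Fin g ⊕ Fin g) → K}

/-- The complex entries. -/
def cA (a : ∀ i, Fin (d i) → (Fin g ⊕ Fin g) → K) (i : Fin s) (j : Fin (d i))
    (b : Fin g ⊕ Fin g) : ℂ := (a i j b : ℂ)

/-- The complex vectors of an element of the power. -/
def cX {ι : Type} [Fintype ι] (e : A.H ≃ₗ[ℚ] (Fin g ⊕ Fin g → ℚ)) (x : (powAV A ι).H) (p : ι) :
    Fin g ⊕ Fin g → ℂ := fun b => ((e (evI A p x) b : ℚ) : ℂ)

theorem RR_coe (x : (powAV A (Fin s × Fin r)).H) (y : Σ i, Fin (d i)) :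
    ((RR e β a x y : K) : ℂ) = ∑ m, (β m : ℂ) * (cX e x (y.1, m) ⬝ᵥ cA a y.1 y.2) := by
  rw [RR_apply]
  have h1 : ∀ z : K, (z : ℂ) = algebraMap K ℂ z := fun _ => rfl
  rw [h1, map_sum]
  refine Finset.sum_congr rfl fun m _ => ?_
  rw [map_mul, map_sum]
  congr 1

/-- The complex span of the kernel. -/
def SK (e : A.H ≃ₗ[ℚ] (Fin g ⊕ Fin g → ℚ)) (β : Basis (Fin r) ℚ K)
    (a : ∀ i, Fin (d i) → (Fin g ⊕ Fin g) → K) :
    Submodule ℂ ((Fin s × Fin r) → (Fin g ⊕ Fin g) → ℂ) :=
  Submodule.span ℂ (cX e '' (LinearMap.ker (RR (A := A) e β a) : Set _))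

theorem mem_SK (hst : ∀ i, ∀ N ∈ Lr Z, ∀ j, N *ᵥ cA a i j ∈ Submodule.span ℂ (Set.range (cA a i))) :
    ∀ N ∈ LZ Z, ∀ x ∈ LinearMap.ker (RR (A := A) e β a),
      (fun p => N *ᵥ cX e x p) ∈ SK e β a := by
  refine rational_induction (LZ Z) gal_LZ ?_ ?_ ?_ ?_
  · intro F hF x hx
    obtain ⟨C, hC1, hC2⟩ := exists_C (cA a) (X := F.map (fun x : ℚ => (x : ℂ)))
      (fun i j => hst i _ (by
        rw [mem_Lr, transpose_transpose]
        exact hF) j)
    obtain ⟨x', hx'⟩ : ∃ x' : (powAV A (Fin s × Fin r)).H, ∀ p, e (evI A p x') =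
        F *ᵥ e (evI A p x) :=
      ⟨fun p : Fin s × Fin r => e.symm (F *ᵥ e (evI A p x)), fun p => e.apply_symm_apply _⟩
    have h1 : ∀ p, cX e x' p = F.map (fun x : ℚ => (x : ℂ)) *ᵥ cX e x p := by
      intro p
      funext b
      unfold cX
      rw [hx']
      simp [mulVec, dotProduct]
    refine Submodule.subset_span ⟨x', ?_, funext h1⟩
    rw [SetLike.mem_coe, LinearMap.mem_ker]
    funext y
    apply Subtype.ext
    rw [RR_coe]
    have h2 : ∀ m, cX e x' (y.1, m) ⬝ᵥ cA a y.1 y.2 =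
        ∑ z, C y z * (cX e x (y.1, m) ⬝ᵥ cA a z.1 z.2) := by
      intro m
      rw [h1, ← vecMul_transpose, ← dotProduct_mulVec]
      unfold dotProduct
      simp only [Finset.mul_sum]
      rw [Finset.sum_comm]
      refine Finset.sum_congr rfl fun b _ => ?_
      rw [hC2, Finset.mul_sum]
      exact Finset.sum_congr rfl fun z _ => by ring
    have h3 : ∀ z : (Σ i, Fin (d i)), C y z *
        ∑ m, (β m : ℂ) * (cX e x (y.1, m) ⬝ᵥ cA a z.1 z.2) = 0 := by
      intro z
      by_cases hz : z.1 = y.1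
      · have h4 := RR_coe (e := e) (β := β) (a := a) x z
        rw [LinearMap.mem_ker.1 hx] at h4
        change (0 : ℂ) = _ at h4
        rw [← hz, ← h4, mul_zero]
      · rw [hC1 y z hz, zero_mul]
    change _ = (0 : ℂ)
    rw [← Finset.sum_const_zero (s := (Finset.univ : Finset (Σ i, Fin (d i)))),
      ← Finset.sum_congr rfl fun z _ => h3 z]
    simp only [Finset.mul_sum]
    rw [Finset.sum_comm]
    refine Finset.sum_congr rfl fun m _ => ?_
    rw [h2, Finset.mul_sum]
    exact Finset.sum_congr rfl fun z _ => by ring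
  · intro x _
    have h1 : (fun p => (0 : Matrix (Fin g ⊕ Fin g) (Fin g ⊕ Fin g) ℂ) *ᵥ cX e x p) =
        (0 : (Fin s × Fin r) → (Fin g ⊕ Fin g) → ℂ) := by
      funext p
      rw [zero_mulVec]
      rfl
    rw [h1]
    exact Submodule.zero_mem _
  · intro X Y hX hY x hx
    have h1 : (fun p => (X + Y) *ᵥ cX e x p) = (fun p => X *ᵥ cX e x p) + fun p => Y *ᵥ cX e x p := by
      funext p
      rw [add_mulVec]
      rfl
    rw [h1]
    exact Submodule.add_mem _ (hX x hx) (hY x hx)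
  · intro c X hX x hx
    have h1 : (fun p => (c • X) *ᵥ cX e x p) = c • (fun p => X *ᵥ cX e x p) := by
      funext p
      rw [smul_mulVec]
      rfl
    rw [h1]
    exact Submodule.smul_mem _ _ (hX x hx)

theorem ker_isSub (hc : Cht (A.per.comp e.symm.toLinearMap.toAddMonoidHom) (JR Z))
    (hst : ∀ i, ∀ N ∈ Lr Z, ∀ j, N *ᵥ cA a i j ∈ Submodule.span ℂ (Set.range (cA a i))) :
    IsSub (powAV A (Fin s × Fin r)) (LinearMap.ker (RR (A := A) e β a)) := by
  obtain ⟨P, -, hP1, hP2, -, -⟩ := hc.ex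
  have hper : ∀ w : A.H, P (fun b => ((e w b : ℚ) : ℝ)) = A.per w := by
    intro w
    rw [hP1]
    change A.per (e.symm (e w)) = _
    rw [e.symm_apply_apply]
  let Q : ((Fin s × Fin r) → (Fin g ⊕ Fin g) → ℂ) →+ (powAV A (Fin s × Fin r)).T :=
    { toFun := fun u => fun p => P (fun b => (u p b).re)
      map_zero' := by
        funext p
        change P (fun b => (0 : ℂ).re) = 0
        rw [Complex.zero_re]
        exact map_zero P
      map_add' := fun u v => by
        funext p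
        change P (fun b => (u p b + v p b).re) = P (fun b => (u p b).re) + P (fun b => (v p b).re)
        rw [← map_add]
        rfl }
  have hQ : ∀ u p, Q u p = P (fun b => (u p b).re) := fun _ _ => rfl
  have key : ∀ u ∈ SK e β a, ∀ c : ℂ, Q (c • u) ∈ Submodule.span ℝ
      ((powAV A (Fin s × Fin r)).per '' (LinearMap.ker (RR (A := A) e β a))) := by
    intro u hu
    induction hu using Submodule.span_induction with
    | mem u hu =>
      obtain ⟨x, hx, rfl⟩ := hu
      intro c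
      have h1 : Q (c • cX e x) = c.re • (powAV A (Fin s × Fin r)).per x := by
        funext p
        change P (fun b => (c * ((e (evI A p x) b : ℚ) : ℂ)).re) = c.re • A.per (evI A p x)
        rw [← hper, ← map_smul]
        congr 1
        funext b
        change (c * ((e (evI A p x) b : ℚ) : ℂ)).re = c.re * ((e (evI A p x) b : ℚ) : ℝ)
        simp
      rw [h1]
      exact Submodule.smul_mem _ _ (Submodule.subset_span ⟨x, hx, rfl⟩)
    | zero =>
      intro c
      rw [smul_zero, map_zero]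
      exact Submodule.zero_mem _
    | add u v _ _ hu hv =>
      intro c
      rw [smul_add, map_add]
      exact Submodule.add_mem _ (hu c) (hv c)
    | smul c' u _ hu =>
      intro c
      rw [smul_smul]
      exact hu _
  intro t ht
  induction ht using Submodule.span_induction with
  | mem t ht =>
    obtain ⟨x, hx, rfl⟩ := ht
    have h1 := key _ (mem_SK hst (DZ Z) DZ_mem x hx) Complex.I
    have h2 : Q (Complex.I • fun p => DZ Z *ᵥ cX e x p) =
        Complex.I • (powAV A (Fin s × Fin r)).per x := by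
      funext p
      change P (fun b => (Complex.I * (DZ Z *ᵥ cX e x p) b).re) = Complex.I • A.per (evI A p x)
      rw [← hper, ← hP2]
      congr 1
      funext b
      have h3 : Complex.I * (DZ Z *ᵥ cX e x p) b =
          (((JR Z *ᵥ fun b => ((e (evI A p x) b : ℚ) : ℝ)) b : ℝ) : ℂ) := by
        unfold DZ
        rw [smul_mulVec, Pi.smul_apply, smul_eq_mul, ← mul_assoc]
        rw [show Complex.I * -Complex.I = 1 by simp, one_mul]
        simp [mulVec, dotProduct, cX]
      rw [h3, Complex.ofReal_re]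
    rw [← h2]
    exact h1
  | zero =>
    rw [smul_zero]
    exact Submodule.zero_mem _
  | add u v _ _ hu hv =>
    rw [smul_add]
    exact Submodule.add_mem _ hu hv
  | smul c u _ hu =>
    rw [smul_comm]
    exact Submodule.smul_mem _ _ hu

end Sub


/-! ### Homomorphisms -/

section hom

theorem per_smul (A : AV) (q : ℚ) (v : A.H) : A.per (q • v) = (q : ℂ) • A.per v := by
  have h := map_ratCast_smul A.per ℚ ℂ q v
  rwa [Rat.cast_id] at h

theorem hom_zero (X Y : AV) : IsHom X Y 0 :=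
  ⟨0, fun v => by
    rw [LinearMap.zero_apply, LinearMap.zero_apply, map_zero]⟩

theorem hom_add {X Y : AV} {f h : X.H →ₗ[ℚ] Y.H} (hf : IsHom X Y f) (hh : IsHom X Y h) :
    IsHom X Y (f + h) := by
  obtain ⟨Ψ, h1⟩ := hf
  obtain ⟨Φ, h2⟩ := hh
  refine ⟨Ψ + Φ, fun v => ?_⟩
  rw [LinearMap.add_apply, LinearMap.add_apply, map_add, h1, h2]

theorem hom_smul {X Y : AV} (q : ℚ) {f : X.H →ₗ[ℚ] Y.H} (hf : IsHom X Y f) :
    IsHom X Y (q • f) := by
  obtain ⟨Ψ, h1⟩ := hf
  refine ⟨(q : ℂ) • Ψ, fun v => ?_⟩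
  rw [LinearMap.smul_apply, LinearMap.smul_apply, per_smul, h1]

theorem hom_sum {X Y : AV} {α : Type} (s : Finset α) (f : α → (X.H →ₗ[ℚ] Y.H))
    (h : ∀ i ∈ s, IsHom X Y (f i)) : IsHom X Y (∑ i ∈ s, f i) := by
  classical
  induction s using Finset.induction_on with
  | empty =>
    rw [Finset.sum_empty]
    exact hom_zero X Y
  | insert i s hi ih =>
    rw [Finset.sum_insert hi]
    exact hom_add (h i (Finset.mem_insert_self i s))
      (ih fun j hj => h j (Finset.mem_insert_of_mem hj))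

variable {B : Type} [Fintype B] [DecidableEq B] {s : ℕ} {d : Fin s → ℕ} {A : AV}
  (e : A.H ≃ₗ[ℚ] (B → ℚ)) {K : IntermediateField ℚ ℂ} {r : ℕ} (β : Basis (Fin r) ℚ K)
  (a : ∀ i, Fin (d i) → B → K)

/-- The multiplication by an element of the field on the power. -/
def mulX (A : AV) (s : ℕ) {K : IntermediateField ℚ ℂ} {r : ℕ} (β : Basis (Fin r) ℚ K) (c : K) :
    (powAV A (Fin s × Fin r)).H →ₗ[ℚ] (powAV A (Fin s × Fin r)).H :=
  ∑ p : Fin s × Fin r, ∑ m : Fin r,
    (β.repr (c * β p.2) m) • (sgI A (p.1, m) ∘ₗ evI A p)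

theorem mulX_hom (c : K) :
    IsHom (powAV A (Fin s × Fin r)) (powAV A (Fin s × Fin r)) (mulX A s β c) :=
  hom_sum _ _ fun _ _ => hom_sum _ _ fun _ _ => hom_smul _ (IsHom.comp (sgI_hom _) (evI_hom _))

/-- The vector of a factor. -/
def vB (a : ∀ i, Fin (d i) → B → K) (i : Fin s) (v : A.H) : WW d K :=
  fun y => if y.1 = i then ∑ b, (e v b) • a y.1 y.2 b else 0

theorem RR_sg (i : Fin s) (m : Fin r) (v : A.H) :
    RR e β a (sgI A (i, m) v) = β m • vB e a i v := by
  funext y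
  rw [RR_sgI, Pi.smul_apply, smul_eq_mul]
  unfold vB
  rw [mul_ite, mul_zero]

theorem RR_eq (x : (powAV A (Fin s × Fin r)).H) :
    RR e β a x = ∑ p : Fin s × Fin r, β p.2 • vB e a p.1 (evI A p x) := by
  conv_lhs => rw [← sum_sgI x]
  rw [map_sum]
  exact Finset.sum_congr rfl fun p _ => RR_sg e β a p.1 p.2 _

theorem RR_mulX (c : K) (x : (powAV A (Fin s × Fin r)).H) :
    RR e β a (mulX A s β c x) = c • RR e β a x := by
  rw [RR_eq e β a x, Finset.smul_sum]
  unfold mulX
  rw [LinearMap.sum_apply, map_sum]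
  refine Finset.sum_congr rfl fun p _ => ?_
  rw [LinearMap.sum_apply, map_sum]
  have h1 : ∀ m, RR e β a (((β.repr (c * β p.2) m) • (sgI A (p.1, m) ∘ₗ evI A p)) x) =
      ((β.repr (c * β p.2) m) • β m) • vB e a p.1 (evI A p x) := by
    intro m
    rw [LinearMap.smul_apply, map_smul, LinearMap.comp_apply, RR_sg, smul_assoc]
  rw [Finset.sum_congr rfl fun m _ => h1 m, ← Finset.sum_smul, β.sum_repr, smul_smul]

/-- The map from the factor. -/
def inX (A : AV) {s : ℕ} {K : IntermediateField ℚ ℂ} {r : ℕ} (β : Basis (Fin r) ℚ K) (i : Fin s) :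
    A.H →ₗ[ℚ] (powAV A (Fin s × Fin r)).H :=
  ∑ m : Fin r, (β.repr 1 m) • sgI A (i, m)

theorem inX_hom (i : Fin s) : IsHom A (powAV A (Fin s × Fin r)) (inX A β i) :=
  hom_sum _ _ fun _ _ => hom_smul _ (sgI_hom _)

theorem RR_inX (i : Fin s) (v : A.H) : RR e β a (inX A β i v) = vB e a i v := by
  unfold inX
  rw [LinearMap.sum_apply, map_sum]
  have h1 : ∀ m, RR e β a (((β.repr 1 m) • sgI A (i, m)) v) =
      ((β.repr 1 m) • β m) • vB e a i v := by
    intro m
    rw [LinearMap.smul_apply, map_smul, RR_sg, smul_assoc]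
  rw [Finset.sum_congr rfl fun m _ => h1 m, ← Finset.sum_smul, β.sum_repr, one_smul]

theorem vB_single (i : Fin s) (b : B) (y : Σ i, Fin (d i)) :
    vB e a i (e.symm (Pi.single b 1)) y = if y.1 = i then a y.1 y.2 b else 0 := by
  unfold vB
  congr 1
  rw [e.apply_symm_apply, Finset.sum_eq_single b]
  · rw [Pi.single_eq_same, one_smul]
  · intro b' _ hb
    rw [Pi.single_eq_of_ne hb, zero_smul]
  · intro h
    exact absurd (Finset.mem_univ _) h

end hom

/-! ### The Weil classes -/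

section weil

/-- The determinant over the rational numbers. -/
def detQ (n : ℕ) : (Fin n → ℂ) [⋀^Fin n]→ₗ[ℚ] ℂ :=
  { (detRowAlternating (R := ℂ) (n := Fin n)).toMultilinearMap.restrictScalars ℚ with
    map_eq_zero_of_eq' := (detRowAlternating (R := ℂ) (n := Fin n)).map_eq_zero_of_eq' }

theorem detQ_apply (n : ℕ) (v : Fin n → Fin n → ℂ) : detQ n v = det (of v) := rfl

variable {s : ℕ} {d : Fin s → ℕ} {K : IntermediateField ℚ ℂ} {Y : AV} (b : Y.H ≃ₗ[ℚ] WW d K)
  {n : ℕ} (ψ : Fin n ≃ Σ i, Fin (d i)) (l : ℂ →ₗ[ℚ] ℚ)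

/-- The complex coordinates. -/
def fB : Y.H →ₗ[ℚ] (Fin n → ℂ) where
  toFun y := fun j => ((b y (ψ j) : K) : ℂ)
  map_add' u v := by
    funext j
    rw [map_add]
    rfl
  map_smul' c v := by
    funext j
    rw [map_smul]
    rfl

/-- The Weil class. -/
def wK : Y.H [⋀^Fin n]→ₗ[ℚ] ℚ := (l.compAlternatingMap (detQ n)).compLinearMap (fB b ψ)

theorem wK_apply (v : Fin n → Y.H) :
    wK b ψ l v = l (det (of fun k j => ((b (v k) (ψ j) : K) : ℂ))) := rfl

/-- The multiplication by the elements of the field. -/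
def rK : K →ₐ[ℚ] Module.End ℚ Y.H :=
  (b.symm.conjAlgEquiv ℚ).toAlgHom.comp (Algebra.lsmul ℚ ℚ (WW d K))

theorem rK_apply (c : K) (y : Y.H) : b (rK b c y) = c • b y := by
  change b (b.symm (c • b y)) = _
  rw [b.apply_symm_apply]

theorem wK_bal (c : K) (v : Fin n → Y.H) (k : Fin n) :
    wK b ψ l (Function.update v k (rK b c (v k))) =
      l ((c : ℂ) * det (of fun k j => ((b (v k) (ψ j) : K) : ℂ))) := by
  rw [wK_apply]
  congr 1
  have h1 : (of fun k' j => ((b (Function.update v k (rK b c (v k)) k') (ψ j) : K) : ℂ)) =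
      (of fun k j => ((b (v k) (ψ j) : K) : ℂ)).updateRow k
        ((c : ℂ) • fun j => ((b (v k) (ψ j) : K) : ℂ)) := by
    ext k' j
    by_cases hk : k' = k
    · subst hk
      rw [updateRow_self, of_apply, Function.update_self, rK_apply]
      rfl
    · rw [updateRow_ne hk, of_apply, Function.update_of_ne hk]
      rfl
  rw [h1, det_updateRow_smul]
  congr 2
  exact updateRow_eq_self _ _

theorem wK_weil [FiniteDimensional ℚ K] (h1 : IsHodge Y.per (wK b ψ l))
    (h2 : ∀ c, IsHom Y Y (rK b c)) : IsWeil Y (wK b ψ l) := by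
  refine ⟨h1, K, inferInstance, inferInstance, rK b, inferInstance, h2, ?_, fun c v k l' => ?_⟩
  · rw [b.finrank_eq, finrank_pi_fintype, Finset.sum_const, Finset.card_univ, smul_eq_mul,
      ← Fintype.card_congr ψ, Fintype.card_fin]
  · rw [wK_bal, wK_bal]

end weil

end WJ4

theorem wI_of (h1 : St_quot) (h2 : St_qhom) (h3 : St_qhodge) : St_wI := by
  intro g Z A e hPM hc s d a halg hli hst hinv
  by_cases h0 : wI a = 0
  · rw [h0]
    exact Submodule.zero_mem _
  -- the field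
  obtain ⟨S, hS⟩ : ∃ S : Set ℂ, S = Set.range fun p : (Σ i, Fin (d i)) × (Fin g ⊕ Fin g) =>
    a p.1.1 p.1.2 p.2 := ⟨_, rfl⟩
  have hSf : Finite S := by
    rw [hS]
    exact Set.finite_range _
  have hSi : ∀ x ∈ S, IsIntegral ℚ x := by
    rw [hS]
    rintro _ ⟨p, rfl⟩
    exact (halg _ _ _).isIntegral
  obtain ⟨K, hK⟩ : ∃ K, K = IntermediateField.adjoin ℚ S := ⟨_, rfl⟩
  have hfd : FiniteDimensional ℚ K := by
    rw [hK]
    exact IntermediateField.finiteDimensional_adjoin hSi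
  have hmem : ∀ i j c, a i j c ∈ K := by
    intro i j c
    rw [hK]
    refine IntermediateField.subset_adjoin ℚ S ?_
    rw [hS]
    exact ⟨(⟨i, j⟩, c), rfl⟩
  let aK : ∀ i, Fin (d i) → (Fin g ⊕ Fin g) → K := fun i j c => ⟨a i j c, hmem i j c⟩
  have haK : WJ4.cA aK = a := rfl
  obtain ⟨r, β⟩ : ∃ r, Nonempty (Basis (Fin r) ℚ K) := ⟨_, ⟨finBasis ℚ K⟩⟩
  obtain ⟨β⟩ := β
  have hliK : ∀ i, LinearIndependent K (aK i) := by
    intro i
    rw [Fintype.linearIndependent_iff]
    intro c hc j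
    have h4 : ∑ j, ((c j : K) : ℂ) • a i j = 0 := by
      funext x
      have h5 := congrArg (algebraMap K ℂ) (congrFun hc x)
      rw [Finset.sum_apply] at h5 ⊢
      rw [map_sum] at h5
      exact h5
    have h6 := Fintype.linearIndependent_iff.1 (hli i) _ h4 j
    exact Subtype.ext h6
  obtain ⟨Y, b, hb⟩ := h1 (powAV A (Fin s × Fin r)) (WJ4.WW d K) (WJ4.RR e β aK)
    (WJ4.RR_surj e β aK hliK) (WJ4.ker_isSub hc hst)
  have hsurj : Function.Surjective (b.symm.toLinearMap ∘ₗ WJ4.RR (A := A) e β aK) :=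
    b.symm.surjective.comp (WJ4.RR_surj e β aK hliK)
  have hbR : ∀ x, b ((b.symm.toLinearMap ∘ₗ WJ4.RR (A := A) e β aK) x) = WJ4.RR e β aK x :=
    fun x => b.apply_symm_apply _
  -- the multiplications
  have hmul : ∀ c, IsHom Y Y (WJ4.rK b c) := by
    intro c
    refine h2 _ Y Y _ hsurj hb _ ?_
    have h4 : WJ4.rK b c ∘ₗ (b.symm.toLinearMap ∘ₗ WJ4.RR (A := A) e β aK) =
        (b.symm.toLinearMap ∘ₗ WJ4.RR (A := A) e β aK) ∘ₗ WJ4.mulX A s β c := by
      refine LinearMap.ext fun x => b.injective ?_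
      rw [LinearMap.comp_apply, WJ4.rK_apply, hbR, LinearMap.comp_apply, hbR, WJ4.RR_mulX]
    rw [h4]
    exact IsHom.comp hb (WJ4.mulX_hom β c)
  -- the invariance of the tensors
  let n := Fintype.card (Σ i, Fin (d i))
  let ψ : Fin n ≃ Σ i, Fin (d i) := (Fintype.equivFin _).symm
  have hwI : WJ4.TT a (fun y => y.1) (Equiv.refl (Σ i, Fin (d i))) = wI a := by
    funext J
    exact WJ4.TT_comp a (Equiv.refl _) J
  have hkill : ∀ X ∈ LZ Z, ∀ p : Fin n → Fin s, act X (WJ4.TT a p ψ) = 0 := by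
    intro X hX p
    have hXr : Xᵀ ∈ Lr Z := by
      rw [mem_Lr, transpose_transpose]
      exact hX
    obtain ⟨C, hC1, hC2⟩ := WJ4.exists_C a (X := X) (fun i j => hst i _ hXr j)
    have h4 := hinv _ hXr
    rw [dm_mulVec, transpose_transpose, ← hwI, WJ4.act_TT a hC1 hC2, hwI] at h4
    rw [WJ4.act_TT a hC1 hC2, (smul_eq_zero.1 h4).resolve_right h0, zero_smul]
  -- the Hodge classes
  have hhodge : ∀ l : ℂ →ₗ[ℚ] ℚ, IsHodge Y.per (WJ4.wK b ψ l) := by
    intro l
    refine h3 _ Y _ hsurj hb _ _ (WJ4.hodge_of_cfI hc fun φ => ?_)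
    have h4 : cfI e ((WJ4.wK b ψ l).compLinearMap
        (b.symm.toLinearMap ∘ₗ WJ4.RR (A := A) e β aK)) φ =
        fun I => l (((∏ k, (β (φ k).2 : ℂ)) • WJ4.TT a (fun k => (φ k).1) ψ) I) := by
      funext I
      unfold cfI
      rw [AlternatingMap.compLinearMap_apply, WJ4.wK_apply]
      congr 1
      rw [Pi.smul_apply, smul_eq_mul]
      unfold WJ4.TT
      rw [← det_mul_column]
      congr 1
      ext k j
      rw [of_apply, of_apply, hbR]
      change ((WJ4.RR e β aK (sgI A ((φ k).1, (φ k).2) (e.symm (Pi.single (I k) 1))) (ψ j) : K) :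
        ℂ) = _
      rw [WJ4.RR_sg, Pi.smul_apply, WJ4.vB_single]
      change _ = (β (φ k).2 : ℂ) * if (ψ j).1 = (φ k).1 then a (ψ j).1 (ψ j).2 (I k) else 0
      split_ifs with h5
      · rfl
      · rw [smul_zero, mul_zero]
        rfl
    rw [h4]
    refine kill_lam gal_LZ (fun X hX => ?_) l _ DZ_mem
    rw [act_smul_right, hkill X hX, smul_zero]
  -- the conclusion
  obtain ⟨m, z, l, hzl⟩ := tensor_expand (wI a)
  rw [hzl]
  refine Submodule.sum_mem _ fun j _ => Submodule.smul_mem _ _ (Submodule.subset_span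
    ⟨_, ?_, rfl⟩)
  refine ⟨Y, n, WJ4.wK b ψ (l j), ψ, fun k =>
    (b.symm.toLinearMap ∘ₗ WJ4.RR (A := A) e β aK) ∘ₗ WJ4.inX A β k.1,
    WJ4.wK_weil b ψ (l j) (hhodge (l j)) hmul, fun k => IsHom.comp hb (WJ4.inX_hom β k.1),
    fun I => ?_⟩
  have h4 : WJ4.TT a (fun k => (ψ k).1) ψ (fun k => I (ψ k)) = wI a I := WJ4.TT_comp a ψ I
  change l j (wI a I) = _
  rw [WJ4.wK_apply, ← h4]
  congr 1
  unfold WJ4.TT
  congr 1
  ext k j'
  rw [of_apply, LinearMap.comp_apply, hbR, WJ4.RR_inX, WJ4.vB_single]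
  change (if (ψ j').1 = (ψ k).1 then a (ψ j').1 (ψ j').2 (I (ψ k)) else 0) = _
  split_ifs with h5
  · rfl
  · rfl

end

end Pool.Agent.NH32
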