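import Pool.Agent.NH32.GtD
import Pool.Agent.NH32.GJ11
import Pool.Agent.NH32.WJ4
import Pool.Agent.Y4.Aut

/-!
# Project G, stage 3, job GD4: the polarized abelian variety of a minimal idempotent (helper73)
-/

set_option linter.unusedSectionVars false

namespace Pool.Agent.NH32

open Matrix Module Pool.Agent.W437.HC Pool.Agent.W437.HD Pool.Agent.TH504.CB Pool.Agent.Y90
open Pool.Agent.H204R3.CM (IsHodge)
open Pool.Agent.W548.Odd hiding cv

noncomputable section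

namespace GD4

/-! ### Linear algebra -/

section lin

variable {B : Type} [Fintype B] [DecidableEq B] {d : ℕ}

/-- a dual family -/
theorem exists_dual {v : Fin d → B → ℂ} (h : LinearIndependent ℂ v) :
    ∃ W : Fin d → B → ℂ, ∀ i j, v j ⬝ᵥ W i = if j = i then 1 else 0 := by
  have h2 : LinearMap.range (of v).mulVecLin = ⊤ := by
    apply Submodule.eq_top_of_finrank_eq
    have h3 : (of v).rank = Fintype.card (Fin d) := LinearIndependent.rank_matrix h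
    rw [finrank_fintype_fun_eq_card, ← h3]
    rfl
  have h3 : ∀ i : Fin d, ∃ w : B → ℂ, (of v) *ᵥ w = Pi.single i 1 := fun i =>
    LinearMap.range_eq_top.1 h2 (Pi.single i 1)
  choose W hW using h3
  refine ⟨W, fun i j => ?_⟩
  have h4 := congrFun (hW i) j
  change v j ⬝ᵥ W i = _ at h4
  rw [h4]
  by_cases hj : j = i
  · subst hj
    rw [Pi.single_eq_same, if_pos rfl]
  · rw [Pi.single_eq_of_ne hj, if_neg hj]

theorem sum_vec_mulVec {κ : Fin d → ℂ} {v : Fin d → B → ℂ} (u : B → ℂ) :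
    (∑ j, κ j • vecMulVec (v j) (star (v j))) *ᵥ u = ∑ j, (κ j * (star (v j) ⬝ᵥ u)) • v j := by
  rw [Matrix.sum_mulVec]
  refine Finset.sum_congr rfl fun j _ => ?_
  rw [smul_mulVec]
  funext b
  change κ j * (∑ b', (v j b * star (v j) b') * u b') = (κ j * (∑ b', star (v j) b' * u b')) * v j b
  rw [Finset.mul_sum, Finset.mul_sum, Finset.sum_mul]
  exact Finset.sum_congr rfl fun b' _ => by ring

variable {N Om : Matrix B B ℂ} {κ : Fin d → ℂ} {v : Fin d → B → ℂ}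

theorem N_mem (hO : Om * Om = -1) (hM : N * Om = ∑ j, κ j • vecMulVec (v j) (star (v j)))
    (u : B → ℂ) : N *ᵥ u ∈ Submodule.span ℂ (Set.range v) := by
  have h1 : N = -((N * Om) * Om) := by rw [mul_assoc, hO, mul_neg_one, neg_neg]
  rw [h1, neg_mulVec, ← mulVec_mulVec, hM, sum_vec_mulVec]
  refine Submodule.neg_mem _ (Submodule.sum_mem _ fun j _ => Submodule.smul_mem _ _ ?_)
  exact Submodule.subset_span ⟨j, rfl⟩

theorem N_fix (hN : N * N = N) (hM : N * Om = ∑ j, κ j • vecMulVec (v j) (star (v j)))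
    (hv : LinearIndependent ℂ v) (hκ : ∀ j, κ j ≠ 0) (i : Fin d) : N *ᵥ v i = v i := by
  obtain ⟨W, hW⟩ := exists_dual hv
  have h1 : (N * Om) *ᵥ star (W i) = κ i • v i := by
    rw [hM, sum_vec_mulVec]
    have h2 : ∀ j, star (v j) ⬝ᵥ star (W i) = if j = i then 1 else 0 := by
      intro j
      rw [star_dotProduct_star, dotProduct_comm, hW]
      by_cases h : j = i
      · rw [if_pos h, star_one]
      · rw [if_neg h, star_zero]
    rw [Finset.sum_eq_single i]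
    · rw [h2, if_pos rfl, mul_one]
    · intro j _ hj
      rw [h2, if_neg hj, mul_zero, zero_smul]
    · intro h
      exact absurd (Finset.mem_univ i) h
  have h3 : v i = (κ i)⁻¹ • (N *ᵥ (Om *ᵥ star (W i))) := by
    rw [mulVec_mulVec, h1, smul_smul, inv_mul_cancel₀ (hκ i), one_smul]
  rw [h3, mulVec_smul, mulVec_mulVec, hN]

theorem stab (hO : Om * Om = -1) (hN : N * N = N)
    (hM : N * Om = ∑ j, κ j • vecMulVec (v j) (star (v j)))
    (hv : LinearIndependent ℂ v) (hκ : ∀ j, κ j ≠ 0) {D : Matrix B B ℂ} (hD : N * D = D * N)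
    (i : Fin d) : ∃ c : Fin d → ℂ, D *ᵥ v i = ∑ j, c j • v j := by
  have h1 : D *ᵥ v i = N *ᵥ (D *ᵥ v i) := by
    rw [mulVec_mulVec, hD, ← mulVec_mulVec, N_fix hN hM hv hκ]
  have h2 := N_mem hO hM (D *ᵥ v i)
  rw [← h1] at h2
  obtain ⟨c, hc⟩ := (Submodule.mem_span_range_iff_exists_fun ℂ).1 h2
  exact ⟨c, hc.symm⟩

end lin

/-! ### The Hermitian form -/

section form

variable {B : Type} [Fintype B] [DecidableEq B]

/-- the sesquilinear form -/
def F (M : Matrix B B ℂ) (z z' : B → ℂ) : ℂ := z ⬝ᵥ (M *ᵥ star z')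

/-- admissible forms -/
structure Adm (M J : Matrix B B ℂ) : Prop where
  sk : Mᴴ = -M
  jm : Jᵀ * M = -(M * J)
  re : Jᴴ = Jᵀ
  sq : J * J = -1
  ps : ∃ A : Matrix B B ℂ, M * J = A * Aᴴ

theorem adj (J : Matrix B B ℂ) (z w : B → ℂ) : (J *ᵥ z) ⬝ᵥ w = z ⬝ᵥ (Jᵀ *ᵥ w) := by
  rw [dotProduct_mulVec, vecMul_transpose]

variable {M J : Matrix B B ℂ}

theorem F_conj (h : Adm M J) (z z' : B → ℂ) : F M z' z = -star (F M z z') := by
  unfold F
  rw [← star_dotProduct_star, star_mulVec, star_star, h.sk, vecMul_neg, neg_dotProduct, neg_neg,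
    dotProduct_mulVec]

theorem F_J (h : Adm M J) (z z' : B → ℂ) : F M (J *ᵥ z) (J *ᵥ z') = F M z z' := by
  unfold F
  have h1 : star (J *ᵥ z') = J *ᵥ star z' := by rw [star_mulVec, h.re, vecMul_transpose]
  rw [adj, h1, mulVec_mulVec, mulVec_mulVec, h.jm, neg_mul, mul_assoc, h.sq, mul_neg_one, neg_neg]

theorem F_pos (h : Adm M J) (z : B → ℂ) : 0 ≤ -(F M (J *ᵥ z) z).re := by
  unfold F
  rw [adj, mulVec_mulVec, h.jm, neg_mulVec, dotProduct_neg, Complex.neg_re, neg_neg]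
  obtain ⟨A, hA⟩ := h.ps
  have h1 : z ᵥ* A = star (Aᴴ *ᵥ star z) := by
    rw [star_mulVec, star_star, conjTranspose_conjTranspose]
  rw [hA, ← mulVec_mulVec, dotProduct_mulVec, h1]
  change 0 ≤ (∑ b, star ((Aᴴ *ᵥ star z) b) * (Aᴴ *ᵥ star z) b).re
  rw [Complex.re_sum]
  refine Finset.sum_nonneg fun b _ => ?_
  rw [mul_comm]
  change 0 ≤ ((Aᴴ *ᵥ star z) b * (starRingEnd ℂ) ((Aᴴ *ᵥ star z) b)).re
  rw [Complex.mul_conj, Complex.ofReal_re]
  exact Complex.normSq_nonneg _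

theorem F_add (z₁ z₂ z' : B → ℂ) : F M (z₁ + z₂) z' = F M z₁ z' + F M z₂ z' := add_dotProduct _ _ _

theorem F_smul (c : ℂ) (z z' : B → ℂ) : F M (c • z) z' = c * F M z z' := by
  unfold F
  rw [smul_dotProduct, smul_eq_mul]

variable {r : ℕ}

/-- the coordinates belonging to an embedding -/
def zz (w : Fin r → ℂ) (x : Fin r → B → ℝ) : B → ℂ := fun b => ∑ m, w m * (x m b : ℂ)

theorem zz_add (w : Fin r → ℂ) (x x' : Fin r → B → ℝ) : zz w (x + x') = zz w x + zz w x' := by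
  funext b
  rw [Pi.add_apply]
  unfold zz
  rw [← Finset.sum_add_distrib]
  refine Finset.sum_congr rfl fun m _ => ?_
  rw [Pi.add_apply, Pi.add_apply, Complex.ofReal_add, mul_add]

theorem zz_smul (w : Fin r → ℂ) (c : ℝ) (x : Fin r → B → ℝ) : zz w (c • x) = (c : ℂ) • zz w x := by
  funext b
  rw [Pi.smul_apply, smul_eq_mul]
  unfold zz
  rw [Finset.mul_sum]
  refine Finset.sum_congr rfl fun m _ => ?_
  rw [Pi.smul_apply, Pi.smul_apply, smul_eq_mul, Complex.ofReal_mul]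
  ring

/-- the action of a real matrix -/
def ja (J : Matrix B B ℝ) (x : Fin r → B → ℝ) : Fin r → B → ℝ := fun m => J *ᵥ x m

theorem zz_J (J : Matrix B B ℝ) (w : Fin r → ℂ) (x : Fin r → B → ℝ) :
    zz w (ja J x) = cm J *ᵥ zz w x := by
  funext b
  change ∑ m, w m * ((∑ b', J b b' * x m b' : ℝ) : ℂ) =
    ∑ b', (J b b' : ℂ) * ∑ m, w m * (x m b' : ℂ)
  simp only [Finset.mul_sum, Complex.ofReal_sum, Complex.ofReal_mul]
  rw [Finset.sum_comm]
  exact Finset.sum_congr rfl fun b' _ => Finset.sum_congr rfl fun m _ => by ring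

theorem ja_add (J : Matrix B B ℝ) (x x' : Fin r → B → ℝ) : ja J (x + x') = ja J x + ja J x' := by
  funext m
  exact mulVec_add _ _ _

theorem ja_smul (J : Matrix B B ℝ) (c : ℝ) (x : Fin r → B → ℝ) : ja J (c • x) = c • ja J x := by
  funext m
  exact mulVec_smul J c (x m)

theorem ja_ja {J : Matrix B B ℝ} (hJ : J * J = -1) (x : Fin r → B → ℝ) :
    ja J (ja J x) = -x := by
  funext m
  change J *ᵥ (J *ᵥ x m) = -(x m)
  rw [mulVec_mulVec, hJ, neg_mulVec, one_mulVec]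

variable {Φ : Type} [Fintype Φ] (Mf : Φ → Matrix B B ℂ) (w : Φ → Fin r → ℂ)

/-- the real form -/
def sR (x x' : Fin r → B → ℝ) : ℝ := -∑ φ, (F (Mf φ) (zz (w φ) x) (zz (w φ) x')).re

theorem sR_add (x₁ x₂ x' : Fin r → B → ℝ) :
    sR Mf w (x₁ + x₂) x' = sR Mf w x₁ x' + sR Mf w x₂ x' := by
  unfold sR
  rw [← neg_add, ← Finset.sum_add_distrib]
  congr 1
  refine Finset.sum_congr rfl fun φ _ => ?_
  rw [zz_add, F_add, Complex.add_re]

theorem sR_smul (c : ℝ) (x x' : Fin r → B → ℝ) : sR Mf w (c • x) x' = c * sR Mf w x x' := by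
  unfold sR
  rw [mul_neg, Finset.mul_sum]
  congr 1
  refine Finset.sum_congr rfl fun φ _ => ?_
  rw [zz_smul, F_smul, Complex.re_ofReal_mul]

variable {Mf} {JJ : Matrix B B ℝ} (hM : ∀ φ, Adm (Mf φ) (cm JJ))
include hM

theorem sR_anti (x x' : Fin r → B → ℝ) : sR Mf w x' x = -sR Mf w x x' := by
  unfold sR
  rw [neg_neg, ← Finset.sum_neg_distrib]
  refine Finset.sum_congr rfl fun φ _ => ?_
  rw [F_conj (hM φ), Complex.neg_re, neg_neg]
  rfl

theorem sR_J (x x' : Fin r → B → ℝ) : sR Mf w (ja JJ x) (ja JJ x') = sR Mf w x x' := by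
  unfold sR
  congr 1
  refine Finset.sum_congr rfl fun φ _ => ?_
  rw [zz_J, zz_J, F_J (hM φ)]

theorem sR_pos (x : Fin r → B → ℝ) : 0 ≤ sR Mf w (ja JJ x) x := by
  unfold sR
  rw [← Finset.sum_neg_distrib]
  refine Finset.sum_nonneg fun φ _ => ?_
  rw [zz_J]
  exact F_pos (hM φ) _

theorem sR_J' (hJ : JJ * JJ = -1) (x x' : Fin r → B → ℝ) :
    sR Mf w (ja JJ x') x = sR Mf w (ja JJ x) x' := by
  have h1 : -x' = (-1 : ℝ) • x' := by rw [neg_one_smul]
  rw [← sR_J w hM (ja JJ x') x, ja_ja hJ, h1, sR_smul, sR_anti w hM (ja JJ x) x']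
  ring

end form

/-! ### The conjugates of the idempotent -/

section data

variable {g : ℕ} {Z : Matrix (Fin g) (Fin g) ℂ} {y yi : Matrix (Fin g ⊕ Fin g) (Fin g ⊕ Fin g) ℝ}
  {ε : Matrix (Fin g ⊕ Fin g) (Fin g ⊕ Fin g) ℂ}

/-- the idempotent in the rational coordinates -/
def NN (y yi : Matrix (Fin g ⊕ Fin g) (Fin g ⊕ Fin g) ℝ)
    (ε : Matrix (Fin g ⊕ Fin g) (Fin g ⊕ Fin g) ℂ) : Matrix (Fin g ⊕ Fin g) (Fin g ⊕ Fin g) ℂ :=
  (cm y)ᵀ * ε * (cm yi)ᵀ

theorem Dy_mem' (hy : YD Z y yi) (σ : ℂ ≃+* ℂ) : Dy Z y yi σ ∈ Ly Z y yi := by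
  rw [mem_Ly]
  unfold Dy
  rw [transpose_transpose]
  have h1 : cm yi * (cm y * DS Z σ * cm yi) * cm y =
      (cm yi * cm y) * DS Z σ * (cm yi * cm y) := by noncomm_ring
  rw [h1, hy.cl, one_mul, mul_one]
  exact DS_mem σ

theorem NN_comm (hy : YD Z y yi) (hε : Mi (Ly Z y yi) ε) (σ : ℂ ≃+* ℂ) :
    NN y yi ε * (DS Z σ)ᵀ = (DS Z σ)ᵀ * NN y yi ε := by
  have h1 : (DS Z σ)ᵀ = (cm y)ᵀ * Dy Z y yi σ * (cm yi)ᵀ := by
    unfold Dy
    rw [transpose_mul, transpose_mul]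
    have h2 : (cm y)ᵀ * ((cm yi)ᵀ * ((DS Z σ)ᵀ * (cm y)ᵀ)) * (cm yi)ᵀ =
        ((cm y)ᵀ * (cm yi)ᵀ) * (DS Z σ)ᵀ * ((cm y)ᵀ * (cm yi)ᵀ) := by noncomm_ring
    rw [h2, hy.clT, one_mul, mul_one]
  have h3 := hε.1 _ (Dy_mem' hy σ)
  rw [h1]
  unfold NN
  have e1 : (cm y)ᵀ * ε * (cm yi)ᵀ * ((cm y)ᵀ * Dy Z y yi σ * (cm yi)ᵀ) =
      (cm y)ᵀ * ε * ((cm yi)ᵀ * (cm y)ᵀ) * Dy Z y yi σ * (cm yi)ᵀ := by noncomm_ring
  have e2 : (cm y)ᵀ * Dy Z y yi σ * (cm yi)ᵀ * ((cm y)ᵀ * ε * (cm yi)ᵀ) =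
      (cm y)ᵀ * Dy Z y yi σ * ((cm yi)ᵀ * (cm y)ᵀ) * ε * (cm yi)ᵀ := by noncomm_ring
  rw [e1, e2, hy.crT, mul_one, mul_one, mul_assoc (cm y)ᵀ ε, ← h3, ← mul_assoc (cm y)ᵀ]

theorem NN_idem (hy : YD Z y yi) (hε : Mi (Ly Z y yi) ε) : NN y yi ε * NN y yi ε = NN y yi ε := by
  unfold NN
  have e1 : (cm y)ᵀ * ε * (cm yi)ᵀ * ((cm y)ᵀ * ε * (cm yi)ᵀ) =
      (cm y)ᵀ * ε * ((cm yi)ᵀ * (cm y)ᵀ) * ε * (cm yi)ᵀ := by noncomm_ring
  rw [e1, hy.crT, mul_one, mul_assoc (cm y)ᵀ ε ε, hε.2.1]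

theorem cmJ_sp (hZ : PM Z) : (cm (JR Z))ᵀ * Om g ℂ = -(Om g ℂ * cm (JR Z)) := by
  have h1 := JR_sp hZ.symm
  have h2 : (JR Z)ᵀ * Om g ℝ = -(Om g ℝ * JR Z) := eq_neg_of_add_eq_zero_left h1
  rw [← cm_Om, ← cm_transpose, ← cm_mul, h2, cm_neg, cm_mul]

theorem cmJ_comm {N : Matrix (Fin g ⊕ Fin g) (Fin g ⊕ Fin g) ℂ}
    (h : ∀ σ : ℂ ≃+* ℂ, N * (DS Z σ)ᵀ = (DS Z σ)ᵀ * N) (σ : ℂ ≃+* ℂ) :
    (cm (JR Z))ᵀ * N.map σ = N.map σ * (cm (JR Z))ᵀ := by
  have h1 := congrArg (fun A : Matrix (Fin g ⊕ Fin g) (Fin g ⊕ Fin g) ℂ => A.map σ) (h σ.symm)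
  have h2 : ((DS Z σ.symm)ᵀ).map σ = (DZ Z)ᵀ := by
    ext i j
    exact σ.apply_symm_apply _
  change (N * (DS Z σ.symm)ᵀ).map σ = ((DS Z σ.symm)ᵀ * N).map σ at h1
  rw [Matrix.map_mul, Matrix.map_mul, h2] at h1
  have h3 : (cm (JR Z))ᵀ = Complex.I • (DZ Z)ᵀ := by
    change (cm (JR Z))ᵀ = Complex.I • ((-Complex.I) • cm (JR Z))ᵀ
    rw [transpose_smul, smul_smul, mul_neg, Complex.I_mul_I, neg_neg, one_smul]
  rw [h3, smul_mul_assoc, mul_smul_comm, h1]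

/-- The conjugates are admissible. -/
theorem adm (hZ : PM Z) (hy : YD Z y yi) {N : Matrix (Fin g ⊕ Fin g) (Fin g ⊕ Fin g) ℂ}
    (hN : N * N = N) (hc : ∀ σ : ℂ ≃+* ℂ, N * (DS Z σ)ᵀ = (DS Z σ)ᵀ * N) (σ : ℂ ≃+* ℂ)
    (hs : ((N * Om g ℂ).map σ)ᴴ = -((N * Om g ℂ).map σ)) :
    Adm ((N * Om g ℂ).map σ) (cm (JR Z)) := by
  have hO : (Om g ℂ).map σ = Om g ℂ := Om_aut (σ : ℂ →+* ℂ)
  have hM : (N * Om g ℂ).map σ = N.map σ * Om g ℂ := by rw [Matrix.map_mul, hO]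
  have hjm : (cm (JR Z))ᵀ * (N * Om g ℂ).map σ = -((N * Om g ℂ).map σ * cm (JR Z)) := by
    rw [hM, ← mul_assoc, cmJ_comm hc, mul_assoc, cmJ_sp hZ, mul_neg, mul_assoc]
  have hre : (cm (JR Z))ᴴ = (cm (JR Z))ᵀ := cm_conjT _
  have hNN : N.map σ * N.map σ = N.map σ := by rw [← Matrix.map_mul, hN]
  have hG : (N * Om g ℂ).map σ * cm (JR Z) = N.map σ * ((cm y)ᵀ * cm y) := by
    rw [hM, mul_assoc, ← cm_Om, ← cm_mul, hy.pol, cm_mul, cm_transpose]
  have hH : ((N * Om g ℂ).map σ * cm (JR Z))ᴴ = (N * Om g ℂ).map σ * cm (JR Z) := by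
    rw [conjTranspose_mul, hs, hre, mul_neg, hjm, neg_neg]
  refine ⟨hs, hjm, hre, ?_, N.map σ * (cm y)ᵀ, ?_⟩
  · rw [← cm_mul, JR_sq hZ.det, cm_neg, cm_one]
  · have h1 : N.map σ * ((N * Om g ℂ).map σ * cm (JR Z)) = (N * Om g ℂ).map σ * cm (JR Z) := by
      rw [hG, ← mul_assoc, hNN]
    have h2 : ((cm y)ᵀ)ᴴ = cm y := by rw [← cm_conjT, conjTranspose_conjTranspose]
    rw [← h1]
    conv_lhs => rw [← hH, hG]
    rw [conjTranspose_mul, conjTranspose_mul, conjTranspose_mul, h2, cm_conjT]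
    simp only [mul_assoc]

end data

/-! ### Functionals with values in the field -/

section fld

variable {g : ℕ} {X : AV} (e : X.H ≃ₗ[ℚ] (Fin g ⊕ Fin g → ℚ)) {K : Subfield ℂ}

/-- the coordinates, as a linear map -/
def cofL : (X.H →ₗ[ℚ] ℂ) →ₗ[ℂ] ((Fin g ⊕ Fin g) → ℂ) where
  toFun f := cof e f
  map_add' _ _ := rfl
  map_smul' _ _ := rfl

theorem cofL_inj : Function.Injective (cofL e) := by
  rw [injective_iff_map_eq_zero]
  intro f hf
  refine LinearMap.ext fun h => ?_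
  have h1 := GJ11.fR_cast e f (e h)
  have h2 : cof e f = 0 := hf
  rw [LinearEquiv.symm_apply_apply, h2, GJ11.fR_apply] at h1
  rw [← h1, LinearMap.zero_apply]
  exact Finset.sum_eq_zero fun b _ => by rw [Pi.zero_apply, mul_zero]

theorem cof_sum {d : ℕ} (c : Fin d → ℂ) (f : Fin d → (X.H →ₗ[ℚ] ℂ)) :
    cof e (∑ i, c i • f i) = ∑ i, c i • cof e (f i) := by
  change cofL e (∑ i, c i • f i) = ∑ i, c i • cofL e (f i)
  rw [map_sum]
  exact Finset.sum_congr rfl fun i _ => map_smul _ _ _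

/-- coordinates of functionals with values in the field -/
theorem fn_eq (f : X.H →ₗ[ℚ] K) (h : X.H) : f h = ∑ b, e h b • f (e.symm (Pi.single b 1)) := by
  have h1 : e h = ∑ b, e h b • (Pi.single b (1:ℚ) : Fin g ⊕ Fin g → ℚ) := by
    funext i
    rw [Finset.sum_apply, Finset.sum_eq_single i]
    · simp
    · intro b _ hb
      rw [Pi.smul_apply, Pi.single_eq_of_ne (Ne.symm hb), smul_zero]
    · intro h
      exact absurd (Finset.mem_univ i) h
  have h2 : h = e.symm (∑ b, e h b • (Pi.single b (1:ℚ) : Fin g ⊕ Fin g → ℚ)) := by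
    rw [← h1, LinearEquiv.symm_apply_apply]
  conv_lhs => rw [h2]
  rw [map_sum, map_sum]
  refine Finset.sum_congr rfl fun b _ => ?_
  rw [map_smul, map_smul]

theorem cj_star (hK : CMF K) (σ : ℂ ≃+* ℂ) {z : ℂ} (hz : z ∈ K) : star (σ z) = σ (star z) :=
  (hK.cc σ z hz).symm

theorem map_M (hK : CMF K) {B : Type} [Fintype B] [DecidableEq B] {d : ℕ} {κ : Fin d → ℂ}
    {v : Fin d → B → ℂ} (hv : ∀ j b, v j b ∈ K) (σ : ℂ ≃+* ℂ) :
    (∑ j, κ j • vecMulVec (v j) (star (v j))).map σ =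
      ∑ j, σ (κ j) • vecMulVec (fun b => σ (v j b)) (star (fun b => σ (v j b))) := by
  ext a b
  rw [Matrix.map_apply, Matrix.sum_apply, Matrix.sum_apply, map_sum]
  refine Finset.sum_congr rfl fun j _ => ?_
  change σ (κ j * (v j a * star (v j b))) = σ (κ j) * (σ (v j a) * star (σ (v j b)))
  rw [map_mul, map_mul, cj_star hK σ (hv j b)]

theorem skew_M (hK : CMF K) {B : Type} [Fintype B] [DecidableEq B] {d : ℕ} {κ : Fin d → ℂ}
    (hκ : ∀ j, κ j ∈ K ∧ star (κ j) = -κ j)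
    {v : Fin d → B → ℂ} (hv : ∀ j b, v j b ∈ K) (σ : ℂ ≃+* ℂ) :
    ((∑ j, κ j • vecMulVec (v j) (star (v j))).map σ)ᴴ =
      -((∑ j, κ j • vecMulVec (v j) (star (v j))).map σ) := by
  rw [map_M hK hv, conjTranspose_sum, ← Finset.sum_neg_distrib]
  refine Finset.sum_congr rfl fun j _ => ?_
  ext a b
  change star (σ (κ j) * (σ (v j b) * star (σ (v j a)))) =
    -(σ (κ j) * (σ (v j a) * star (σ (v j b))))
  rw [star_mul', star_mul', star_star, cj_star hK σ (hκ j).1, (hκ j).2, map_neg]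
  ring

theorem exists_sig (hK : CMF K) (φ : K →ₐ[ℚ] ℂ) : ∃ σ : ℂ ≃+* ℂ, ∀ z : K, σ z = φ z := by
  have : FiniteDimensional ℚ K := hK.fin
  have : NumberField K := ⟨⟩
  obtain ⟨σ, hσ⟩ := Pool.Agent.Y4.exists_aut_emb (E := K) K.subtype (φ : K →+* ℂ)
  exact ⟨σ, fun z => RingHom.congr_fun hσ z⟩

/-- surjectivity over the field -/
theorem exists_coef {d : ℕ} {a : Fin d → (Fin g ⊕ Fin g) → K}
    (ha : LinearIndependent ℂ fun j b => (a j b : ℂ)) (w : Fin d → K) :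
    ∃ k : (Fin g ⊕ Fin g) → K, ∀ j, ∑ b, k b * a j b = w j := by
  have h0 : LinearIndependent K a := by
    have h1 : LinearIndependent K fun (j : Fin d) (b : Fin g ⊕ Fin g) => (a j b : ℂ) :=
      ha.restrict_scalars (by
        intro x x' h
        have h2 : (x : ℂ) * 1 = (x' : ℂ) * 1 := h
        rw [mul_one, mul_one] at h2
        exact Subtype.ext h2)
    exact LinearIndependent.of_comp (f :=
      ({ toFun := fun x b => (x b : ℂ)
         map_add' := fun _ _ => rfl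
         map_smul' := fun _ _ => rfl } : ((Fin g ⊕ Fin g) → K) →ₗ[K] ((Fin g ⊕ Fin g) → ℂ))) h1
  have h2 : LinearMap.range (of a).mulVecLin = ⊤ := by
    apply Submodule.eq_top_of_finrank_eq
    have h3 : (of a).rank = Fintype.card (Fin d) := LinearIndependent.rank_matrix h0
    rw [finrank_fintype_fun_eq_card, ← h3]
    rfl
  obtain ⟨v, hv⟩ := LinearMap.range_eq_top.1 h2 w
  refine ⟨v, fun j => ?_⟩
  rw [← congrFun hv j, mulVecLin_apply]
  change _ = ∑ b, a j b * v b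
  exact Finset.sum_congr rfl fun b _ => mul_comm _ _

/-! ### The main computation -/

variable {d r : ℕ} (β : Fin r → K) (P : Fin d → (X.H →ₗ[ℚ] K))

theorem zz_dot (φ : K →ₐ[ℚ] ℂ) {σ : ℂ ≃+* ℂ} (hσ : ∀ z : K, σ z = φ z) (h : Fin r → X.H)
    (j : Fin d) :
    zz (fun m => φ (β m)) (fun m b => ((e (h m) b : ℚ) : ℝ)) ⬝ᵥ
      (fun b => σ (cof e (toC (P j)) b)) = φ (∑ m, β m * P j (h m)) := by
  have h1 : ∀ m, φ (β m * P j (h m)) =
      ∑ b, φ (β m) * (((e (h m) b : ℚ) : ℝ) : ℂ) * σ (cof e (toC (P j)) b) := by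
    intro m
    rw [map_mul, fn_eq e (P j) (h m), map_sum, Finset.mul_sum]
    refine Finset.sum_congr rfl fun b _ => ?_
    rw [Rat.smul_def, map_mul, map_ratCast, ← hσ (P j (e.symm (Pi.single b 1))), ← mul_assoc,
      Complex.ofReal_ratCast]
    rfl
  rw [map_sum, Finset.sum_congr rfl fun m _ => h1 m, Finset.sum_comm]
  change ∑ b, (∑ m, φ (β m) * (((e (h m) b : ℚ) : ℝ) : ℂ)) * σ (cof e (toC (P j)) b) = _
  refine Finset.sum_congr rfl fun b _ => ?_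
  rw [Finset.sum_mul]

theorem F_eq (hK : CMF K) {κ : Fin d → K} (φ : K →ₐ[ℚ] ℂ) {σ : ℂ ≃+* ℂ}
    (hσ : ∀ z : K, σ z = φ z) (h h' : Fin r → X.H) :
    F ((∑ j, (κ j : ℂ) • vecMulVec (cof e (toC (P j))) (star (cof e (toC (P j))))).map σ)
      (zz (fun m => φ (β m)) (fun m b => ((e (h m) b : ℚ) : ℝ)))
      (zz (fun m => φ (β m)) (fun m b => ((e (h' m) b : ℚ) : ℝ))) =
    φ (∑ j, κ j * (∑ m, β m * P j (h m)) * cjk hK (∑ m, β m * P j (h' m))) := by
  have hv : ∀ j b, cof e (toC (P j)) b ∈ K := fun j b => (P j (e.symm (Pi.single b 1))).2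
  unfold F
  rw [map_M hK hv, sum_vec_mulVec, dotProduct_sum, map_sum]
  refine Finset.sum_congr rfl fun j _ => ?_
  rw [dotProduct_smul, zz_dot e β P φ hσ, star_dotProduct_star, zz_dot e β P φ hσ, smul_eq_mul,
    map_mul, map_mul, hσ, ← hσ (∑ m, β m * P j (h' m)), cj_star hK σ (Subtype.prop _)]
  have h3 : φ (cjk hK (∑ m, β m * P j (h' m))) =
      σ (star ((∑ m, β m * P j (h' m) : K) : ℂ)) := (hσ _).symm
  rw [h3]
  ring

end fld

end GD4

open GD4 in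
/-- **D4.** -/
theorem pola_of (h1 : St_polq) (h2 : St_yk) : St_pola := by
  intro g Z X e y yi hZ hc hy K hK ε hε d P κ hP hκ hM
  have hfin : FiniteDimensional ℚ K := hK.fin
  have hnf : NumberField K := ⟨⟩
  have hM' : NN y yi ε * Om g ℂ =
      ∑ j, (κ j : ℂ) • vecMulVec (cof e (toC (P j))) (star (cof e (toC (P j)))) := hM
  have hvK : ∀ j b, cof e (toC (P j)) b ∈ K := fun j b => (P j (e.symm (Pi.single b 1))).2
  have hli : LinearIndependent ℂ fun j => cof e (toC (P j)) :=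
    hP.map' (cofL e) (LinearMap.ker_eq_bot.2 (cofL_inj e))
  have hκ' : ∀ j, (κ j : ℂ) ∈ K ∧ star (κ j : ℂ) = -(κ j : ℂ) := fun j =>
    ⟨(κ j).2, congrArg (Subtype.val : K → ℂ) (hκ j).1⟩
  have hst : ∀ σ j, ∃ c : Fin d → ℂ, IsD X σ (toC (P j)) (∑ i, c i • toC (P i)) := by
    intro σ j
    obtain ⟨c, hc'⟩ := stab (Om_sq ℂ) (NN_idem hy hε) hM' hli
      (fun j h => (hκ j).2 (Subtype.ext h)) (NN_comm hy hε σ) j
    refine ⟨c, (coo_of g Z X e hZ hc σ _ _).2 ?_⟩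
    rw [cof_sum, hc']
  obtain ⟨Y, b, hb1, hb2⟩ := h2 X K hK d P hP hst
  refine ⟨Y, b, hb1, hb2, ?_⟩
  set r := finrank ℚ K with hr
  set β : Basis (Fin r) ℚ K := finBasis ℚ K with hβ
  obtain ⟨R, hR⟩ : ∃ R : (powAV X (Fin r)).H →ₗ[ℚ] Y.H, R =
      ∑ m, (b.symm.toLinearMap ∘ₗ scK K (Fin d) (β m) ∘ₗ LinearMap.pi P) ∘ₗ evI X m := ⟨_, rfl⟩
  have hRh : IsHom (powAV X (Fin r)) Y R := by
    rw [hR]
    exact WJ4.hom_sum _ _ fun m _ => IsHom.comp (hb2 (β m)) (evI_hom m)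
  have hRb : ∀ (h : (powAV X (Fin r)).H) (j : Fin d),
      b (R h) j = ∑ m, β m * P j ((h : Fin r → X.H) m) := by
    intro h j
    rw [hR, LinearMap.sum_apply, map_sum, Finset.sum_apply]
    refine Finset.sum_congr rfl fun m _ => ?_
    change b (b.symm (scK K (Fin d) (β m) (LinearMap.pi P (evI X m h)))) j = _
    rw [LinearEquiv.apply_symm_apply]
    rfl
  have hRs : Function.Surjective R := by
    intro t
    obtain ⟨k, hk⟩ := exists_coef (g := g) (a := fun j b' => P j (e.symm (Pi.single b' 1))) hli (b t)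
    obtain ⟨x, hx⟩ : ∃ x : (powAV X (Fin r)).H, ∀ m, e ((x : Fin r → X.H) m) =
        fun b' => β.repr (k b') m :=
      ⟨fun m : Fin r => e.symm (fun b' => β.repr (k b') m), fun m => e.apply_symm_apply _⟩
    refine ⟨x, b.injective ?_⟩
    funext j
    rw [hRb, ← hk j]
    have h5 : ∀ m, β m * P j ((x : Fin r → X.H) m) =
        ∑ b', (β.repr (k b') m • β m) * P j (e.symm (Pi.single b' 1)) := by
      intro m
      rw [fn_eq e (P j), hx, Finset.mul_sum]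
      refine Finset.sum_congr rfl fun b' _ => ?_
      rw [mul_smul_comm, smul_mul_assoc]
    rw [Finset.sum_congr rfl fun m _ => h5 m, Finset.sum_comm]
    refine Finset.sum_congr rfl fun b' _ => ?_
    rw [← Finset.sum_mul, β.sum_repr]
  obtain ⟨Pp, I, hP1, hP2, hI1, hI2⟩ := hc.ex
  have hP1' : ∀ w : Fin g ⊕ Fin g → ℚ, Pp (fun i => ((w i : ℚ) : ℝ)) = X.per (e.symm w) := hP1
  have hIJ : ∀ t, I (Complex.I • t) = JR Z *ᵥ I t := by
    intro t
    rw [← hI1 (JR Z *ᵥ I t), hP2, hI2]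
  have hIc : ∀ (c : ℂ) t, I (c • t) = c.re • I t + c.im • (JR Z *ᵥ I t) := by
    intro c t
    have h3 : c • t = c.re • t + c.im • (Complex.I • t) := by rw [smul_rot, Complex.re_add_im]
    rw [h3, map_add, map_smul, map_smul, hIJ]
  have hIp : ∀ h : X.H, I (X.per h) = fun i => ((e h i : ℚ) : ℝ) := by
    intro h
    have h3 : X.per h = Pp (fun i => ((e h i : ℚ) : ℝ)) := by
      rw [hP1', LinearEquiv.symm_apply_apply]
    rw [h3, hI1]
  choose sg hsg using exists_sig hK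
  obtain ⟨Mf, hMf⟩ : ∃ Mf : (K →ₐ[ℚ] ℂ) → Matrix (Fin g ⊕ Fin g) (Fin g ⊕ Fin g) ℂ,
      ∀ φ, Mf φ = (NN y yi ε * Om g ℂ).map (sg φ) := ⟨_, fun _ => rfl⟩
  have hadm : ∀ φ, Adm (Mf φ) (cm (JR Z)) := by
    intro φ
    rw [hMf]
    refine adm hZ hy (NN_idem hy hε) (NN_comm hy hε) (sg φ) ?_
    rw [hM']
    exact skew_M hK hκ' hvK (sg φ)
  obtain ⟨s, hs⟩ : ∃ s : (Fin r → (Fin g ⊕ Fin g) → ℝ) → (Fin r → (Fin g ⊕ Fin g) → ℝ) → ℝ,
      s = sR Mf (fun φ m => φ (β m)) := ⟨_, rfl⟩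
  have hJJ : JR Z * JR Z = -1 := JR_sq hZ.det
  have hsadd : ∀ x₁ x₂ x', s (x₁ + x₂) x' = s x₁ x' + s x₂ x' := by
    rw [hs]; exact sR_add _ _
  have hssm : ∀ (c : ℝ) x x', s (c • x) x' = c * s x x' := by
    rw [hs]; exact sR_smul _ _
  have hsanti : ∀ x x', s x' x = -s x x' := by
    rw [hs]; exact sR_anti _ hadm
  have hspos : ∀ x, 0 ≤ s (ja (JR Z) x) x := by
    rw [hs]; exact sR_pos _ hadm
  have hsJ : ∀ x x', s (ja (JR Z) x') x = s (ja (JR Z) x) x' := by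
    rw [hs]; exact sR_J' _ hadm hJJ
  obtain ⟨xx, hxx⟩ : ∃ xx : (powAV X (Fin r)).T → (Fin r → (Fin g ⊕ Fin g) → ℝ),
      ∀ u, xx u = fun m => I ((u : Fin r → X.T) m) := ⟨_, fun _ => rfl⟩
  have hxadd : ∀ u u', xx (u + u') = xx u + xx u' := by
    intro u u'
    rw [hxx, hxx, hxx]
    funext m
    exact map_add I _ _
  have hxsm : ∀ (c : ℂ) u, xx (c • u) = c.re • xx u + c.im • ja (JR Z) (xx u) := by
    intro c u
    rw [hxx, hxx]
    funext m
    exact hIc c _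
  have hkey : ∀ h h' : (powAV X (Fin r)).H, s (xx ((powAV X (Fin r)).per h))
      (xx ((powAV X (Fin r)).per h')) =
      ((frK hK (fun j => -κ j) (b (R h)) (b (R h')) : ℚ) : ℝ) := by
    intro h h'
    have h3 : ∀ h : (powAV X (Fin r)).H, xx ((powAV X (Fin r)).per h) =
        fun m b' => ((e ((h : Fin r → X.H) m) b' : ℚ) : ℝ) := by
      intro h
      rw [hxx]
      funext m
      exact hIp _
    rw [h3, h3, hs]
    unfold sR
    have h4 : ∀ φ : K →ₐ[ℚ] ℂ, F (Mf φ)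
        (zz (fun m => φ (β m)) (fun m b' => ((e ((h : Fin r → X.H) m) b' : ℚ) : ℝ)))
        (zz (fun m => φ (β m)) (fun m b' => ((e ((h' : Fin r → X.H) m) b' : ℚ) : ℝ))) =
        φ (∑ j, κ j * b (R h) j * cjk hK (b (R h') j)) := by
      intro φ
      rw [hMf, hM']
      refine (F_eq e β P hK φ (hsg φ) (h : Fin r → X.H) (h' : Fin r → X.H)).trans ?_
      congr 1
      refine Finset.sum_congr rfl fun j _ => ?_
      rw [hRb, hRb]
    rw [Finset.sum_congr rfl fun φ _ => congrArg Complex.re (h4 φ), ← Complex.re_sum,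
      ← trace_eq_sum_embeddings ℂ]
    unfold frK
    have h5 : ∑ j, -κ j * b (R h) j * cjk hK (b (R h') j) =
        -∑ j, κ j * b (R h) j * cjk hK (b (R h') j) := by
      rw [← Finset.sum_neg_distrib]
      refine Finset.sum_congr rfl fun j _ => ?_
      rw [neg_mul, neg_mul]
    rw [h5, map_neg, Rat.cast_neg]
    congr 1
  refine h1 (powAV X (Fin r)) Y R hRh hRs
    (fun u u' => ((s (ja (JR Z) (xx u)) (xx u') : ℝ) : ℂ) + Complex.I * ((s (xx u) (xx u') : ℝ) : ℂ))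
    ?_ ?_ ?_ _ ?_ ?_
  · intro u'
    refine ⟨fun u₁ u₂ => ?_, fun c u => ?_⟩
    · rw [hxadd, ja_add, hsadd, hsadd]
      push_cast
      ring
    · rw [hxsm, ja_add, ja_smul, ja_smul, ja_ja hJJ, hsadd, hsadd, hssm, hssm, hssm, hssm]
      have h3 : -xx u = (-1 : ℝ) • xx u := by rw [neg_one_smul]
      rw [h3, hssm, smul_eq_mul]
      conv_rhs => rw [← Complex.re_add_im c]
      push_cast
      linear_combination (-(c.im : ℂ) * s (xx u) (xx u')) * Complex.I_mul_I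
  · intro u u'
    rw [hsanti (xx u) (xx u'), hsJ (xx u) (xx u'), map_add, map_mul, Complex.conj_I,
      Complex.conj_ofReal, Complex.conj_ofReal]
    push_cast
    ring
  · intro u
    rw [Complex.add_re, Complex.ofReal_re, Complex.I_mul_re, Complex.ofReal_im, neg_zero, add_zero]
    exact hspos _
  · intro h h'
    rw [Complex.add_im, Complex.ofReal_im, Complex.I_mul_im, Complex.ofReal_re, zero_add, hkey]
  · intro v hv
    apply b.injective
    rw [map_zero]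
    funext j
    have h3 : ∀ a : K, Algebra.trace ℚ K (-κ j * b v j * a) = 0 := by
      intro a
      have h4 := hv (b.symm (Pi.single j (cjk hK a)))
      unfold frK at h4
      rw [LinearEquiv.apply_symm_apply, Finset.sum_eq_single j] at h4
      · rw [Pi.single_eq_same] at h4
        have h5 : cjk hK (cjk hK a) = a := Subtype.ext (Complex.conj_conj _)
        rwa [h5] at h4
      · intro i _ hi
        rw [Pi.single_eq_of_ne hi]
        have h5 : cjk hK (0 : K) = 0 := Subtype.ext (map_zero cj)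
        rw [h5, mul_zero]
      · intro h
        exact absurd (Finset.mem_univ j) h
    have h6 : -κ j * b v j = 0 := by
      refine (traceForm_nondegenerate ℚ K).1 _ fun a => ?_
      rw [Algebra.traceForm_apply]
      exact h3 a
    rcases mul_eq_zero.1 h6 with h7 | h7
    · exact absurd (neg_eq_zero.1 h7) (hκ j).2
    · exact h7

end

end Pool.Agent.NH32
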