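import Mathlib
import Pool.Agent.Y90.Defs
import Pool.Agent.NH32.WlA

/-!
# Quotients of abelian varieties
-/

namespace Pool.Agent.NH32

namespace WJ3

open Module Pool.Agent.Y90
open Pool.Agent.H204R3.CM (IsHodge)

theorem per_smul (X : AV) (c : ℚ) (v : X.H) : X.per (c • v) = (c : ℝ) • X.per v := by
  simpa using map_ratCast_smul X.per ℚ ℝ c v

theorem span_basis (X : AV) {ι : Type} [Fintype ι] (b : Basis ι ℚ X.H) :
    ⊤ ≤ Submodule.span ℝ (Set.range fun i => X.per (b i)) := by
  rw [← X.span, Submodule.span_le]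
  rintro _ ⟨v, rfl⟩
  rw [← b.sum_repr v, map_sum]
  refine Submodule.sum_mem _ fun i _ => ?_
  rw [per_smul]
  exact Submodule.smul_mem _ _ (Submodule.subset_span ⟨i, rfl⟩)

theorem finrank_T (X : AV) : finrank ℝ X.T = finrank ℚ X.H := by
  rw [X.rank, finrank_real_of_complex]

/-- The basis of `X.T` given by a basis of `X.H`. -/
noncomputable def pB (X : AV) {ι : Type} [Fintype ι] (b : Basis ι ℚ X.H) : Basis ι ℝ X.T :=
  basisOfTopLeSpanOfCardEqFinrank (fun i => X.per (b i)) (span_basis X b)
    (by rw [finrank_T, finrank_eq_card_basis b])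

theorem pB_apply (X : AV) {ι : Type} [Fintype ι] (b : Basis ι ℚ X.H) (i : ι) :
    pB X b i = X.per (b i) := by
  simp [pB]

theorem exists_ext (X : AV) {V : Type} [AddCommGroup V] [Module ℝ V] (g : X.H →+ V) :
    ∃ G : X.T →ₗ[ℝ] V, ∀ v, G (X.per v) = g v := by
  refine ⟨(pB X (finBasis ℚ X.H)).constr ℝ (fun i => g (finBasis ℚ X.H i)), fun v => ?_⟩
  have h : ∀ i, (pB X (finBasis ℚ X.H)).constr ℝ (fun i => g (finBasis ℚ X.H i))
      (X.per (finBasis ℚ X.H i)) = g (finBasis ℚ X.H i) := by
    intro i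
    rw [← pB_apply, Basis.constr_basis]
  conv_lhs => rw [← (finBasis ℚ X.H).sum_repr v]
  conv_rhs => rw [← (finBasis ℚ X.H).sum_repr v]
  rw [map_sum, map_sum, map_sum]
  refine Finset.sum_congr rfl fun i _ => ?_
  rw [per_smul, map_smul, h]
  have := map_ratCast_smul g ℚ ℝ ((finBasis ℚ X.H).repr v i) (finBasis ℚ X.H i)
  simpa using this.symm

theorem ext_eq (X : AV) {V : Type} [AddCommGroup V] [Module ℝ V] (F G : X.T →ₗ[ℝ] V)
    (h : ∀ v, F (X.per v) = G (X.per v)) : F = G := by
  refine (pB X (finBasis ℚ X.H)).ext fun i => ?_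
  rw [pB_apply]
  exact h _

theorem per_inj (X : AV) {v : X.H} (h : X.per v = 0) : v = 0 := by
  have h0 : ∑ i, ((((finBasis ℚ X.H).repr v i : ℚ)) : ℝ) • pB X (finBasis ℚ X.H) i = 0 := by
    rw [← h]
    conv_rhs => rw [← (finBasis ℚ X.H).sum_repr v]
    rw [map_sum]
    refine Finset.sum_congr rfl fun i _ => ?_
    rw [per_smul, pB_apply]
  have h1 := Fintype.linearIndependent_iff.1 (pB X (finBasis ℚ X.H)).linearIndependent _ h0
  have h2 : (finBasis ℚ X.H).repr v = 0 := by
    ext i
    simpa using h1 i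
  simpa using h2

theorem li_per (X : AV) {κ : Type} (v : κ → X.H) (hv : LinearIndependent ℚ v) :
    LinearIndependent ℝ fun k => X.per (v k) := by
  classical
  have hs := hv.linearIndepOn_id
  have hf : Finite (hs.extend (Set.subset_univ (Set.range v))) :=
    Module.Finite.finite_basis (Basis.extend hs)
  have := Fintype.ofFinite (hs.extend (Set.subset_univ (Set.range v)))
  have h := (pB X (Basis.extend hs)).linearIndependent
  have h2 := h.comp (fun k : κ => (⟨v k, hs.subset_extend _ (Set.mem_range_self k)⟩ :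
    hs.extend (Set.subset_univ (Set.range v))))
    (fun k l hkl => hv.injective (congrArg Subtype.val hkl))
  convert h2 using 1
  funext k
  simp only [Function.comp_apply]
  rw [pB_apply, Basis.extend_apply_self]

theorem finrank_span_per (X : AV) (U : Submodule ℚ X.H) :
    finrank ℝ (Submodule.span ℝ (X.per '' U)) = finrank ℚ U := by
  have h1 : LinearIndependent ℚ fun i => ((finBasis ℚ U i : U) : X.H) :=
    (finBasis ℚ U).linearIndependent.map' U.subtype (Submodule.ker_subtype U)
  have h2 := li_per X _ h1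
  have h3 : Submodule.span ℝ (X.per '' U) =
      Submodule.span ℝ (Set.range fun i => X.per ((finBasis ℚ U i : U) : X.H)) := by
    apply le_antisymm
    · rw [Submodule.span_le]
      rintro _ ⟨v, hv, rfl⟩
      have h4 := (finBasis ℚ U).sum_repr ⟨v, hv⟩
      have h5 : v = ∑ i, (finBasis ℚ U).repr ⟨v, hv⟩ i • ((finBasis ℚ U i : U) : X.H) := by
        have h6 := congrArg (fun z : U => U.subtype z) h4
        simp only [map_sum, map_smul, Submodule.subtype_apply] at h6
        exact h6.symm
      rw [h5, map_sum]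
      refine Submodule.sum_mem _ fun i _ => ?_
      rw [per_smul]
      exact Submodule.smul_mem _ _ (Submodule.subset_span ⟨i, rfl⟩)
    · rw [Submodule.span_le]
      rintro _ ⟨i, rfl⟩
      exact Submodule.subset_span ⟨_, (finBasis ℚ U i).2, rfl⟩
  rw [h3, finrank_span_eq_card h2, Fintype.card_fin]

theorem surj_of_hom (X Y : AV) (R : X.H →ₗ[ℚ] Y.H) (hR : Function.Surjective R)
    (P : X.T →ₗ[ℂ] Y.T) (hP : ∀ v, P (X.per v) = Y.per (R v)) : Function.Surjective P := by
  have h : (⊤ : Submodule ℝ Y.T) ≤ LinearMap.range (P.restrictScalars ℝ) := by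
    rw [← Y.span, Submodule.span_le]
    rintro _ ⟨y, rfl⟩
    obtain ⟨v, rfl⟩ := hR y
    exact ⟨X.per v, hP v⟩
  intro t
  obtain ⟨x, hx⟩ := h (Submodule.mem_top : t ∈ ⊤)
  exact ⟨x, hx⟩

end WJ3

open Module Pool.Agent.Y90 WJ3
open Pool.Agent.H204R3.CM (IsHodge)

theorem quot_of : St_quot := by
  intro X W _ _ R hR hU
  obtain ⟨E, Ψ, hl, hc, hp, hE⟩ := X.pol
  have hadd : ∀ s t u, Ψ (s + t) u = Ψ s u + Ψ t u := fun s t u => (hl u).map_add s t
  have hsm : ∀ (c : ℂ) t u, Ψ (c • t) u = c * Ψ t u := fun c t u => (hl u).map_smul c t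
  have hadd' : ∀ s t u, Ψ s (t + u) = Ψ s t + Ψ s u := by
    intro s t u
    rw [hc, hadd, map_add, ← hc, ← hc]
  have hsm' : ∀ (c : ℂ) t u, Ψ t (c • u) = starRingEnd ℂ c * Ψ t u := by
    intro c t u
    rw [hc, hsm, map_mul, ← hc]
  have hrs : ∀ (r : ℝ) t u, Ψ (r • t) u = (r : ℂ) * Ψ t u := fun r t u => hsm r t u
  have hrs' : ∀ (r : ℝ) t u, Ψ t (r • u) = (r : ℂ) * Ψ t u := by
    intro r t u
    have := hsm' (r : ℂ) t u
    rw [Complex.conj_ofReal] at this
    exact this
  set U : Submodule ℚ X.H := LinearMap.ker R with hUdef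
  let B : LinearMap.BilinForm ℚ X.H := LinearMap.mk₂ ℚ E
    (fun v v' w => by
      have : ((E (v + v') w : ℚ) : ℝ) = ((E v w + E v' w : ℚ) : ℝ) := by
        push_cast
        rw [← hE, ← hE, ← hE, map_add, hadd, Complex.add_im]
      exact_mod_cast this)
    (fun c v w => by
      have : ((E (c • v) w : ℚ) : ℝ) = ((c • E v w : ℚ) : ℝ) := by
        rw [smul_eq_mul]
        push_cast
        rw [← hE, ← hE, per_smul, hrs, Complex.im_ofReal_mul]
      exact_mod_cast this)
    (fun v w w' => by
      have : ((E v (w + w') : ℚ) : ℝ) = ((E v w + E v w' : ℚ) : ℝ) := by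
        push_cast
        rw [← hE, ← hE, ← hE, map_add, hadd', Complex.add_im]
      exact_mod_cast this)
    (fun c v w => by
      have : ((E v (c • w) : ℚ) : ℝ) = ((c • E v w : ℚ) : ℝ) := by
        rw [smul_eq_mul]
        push_cast
        rw [← hE, ← hE, per_smul, hrs', Complex.im_ofReal_mul]
      exact_mod_cast this)
  have hB : ∀ v w, B v w = E v w := fun v w => rfl
  have hE0 : ∀ v w, E v w = -E w v := by
    intro v w
    have : ((E v w : ℚ) : ℝ) = ((-E w v : ℚ) : ℝ) := by
      push_cast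
      rw [← hE, ← hE, hc, Complex.conj_im]
    exact_mod_cast this
  have hrefl : B.IsRefl := by
    intro v w h
    rw [hB] at h ⊢
    rw [hE0, h, neg_zero]
  set U' : Submodule ℚ X.H := B.orthogonal U with hU'def
  let V2 : Submodule ℂ X.T :=
    { carrier := {t | ∀ u ∈ U, Ψ t (X.per u) = 0}
      add_mem' := by
        intro s t hs ht u hu
        rw [hadd, hs u hu, ht u hu, add_zero]
      zero_mem' := by
        intro u _
        have := hsm 0 0 (X.per u)
        simpa using this
      smul_mem' := by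
        intro c t ht u hu
        rw [hsm, ht u hu, mul_zero] }
  let V1 : Submodule ℂ X.T :=
    { carrier := Submodule.span ℝ (X.per '' U)
      add_mem' := fun hs ht => Submodule.add_mem _ hs ht
      zero_mem' := Submodule.zero_mem _
      smul_mem' := by
        intro c t ht
        have h1 : c • t = c.re • t + c.im • (Complex.I • t) := by
          conv_lhs => rw [← Complex.re_add_im c]
          rw [add_smul, mul_smul]
          rfl
        change c • t ∈ Submodule.span ℝ (X.per '' U)
        rw [h1]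
        exact Submodule.add_mem _ (Submodule.smul_mem _ _ ht)
          (Submodule.smul_mem _ _ (hU t ht)) }
  have hV1 : ∀ t, t ∈ V1 ↔ t ∈ Submodule.span ℝ (X.per '' U) := fun t => Iff.rfl
  have hV2 : ∀ t, t ∈ V2 ↔ ∀ u ∈ U, Ψ t (X.per u) = 0 := fun t => Iff.rfl
  -- Ψ t s = 0 for t in V2, s in V1
  have h12 : ∀ t ∈ V2, ∀ s ∈ V1, Ψ t s = 0 := by
    intro t ht s hs
    induction hs using Submodule.span_induction with
    | mem x hx =>
      obtain ⟨u, hu, rfl⟩ := hx
      exact ht u hu
    | zero =>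
      have := hsm' 0 t 0
      simpa using this
    | add x y _ _ hx hy => rw [hadd', hx, hy, add_zero]
    | smul r x _ hx => rw [hrs', hx, mul_zero]
  have hdef : ∀ t, Ψ t t = 0 → t = 0 := by
    intro t ht
    by_contra h
    have := hp t h
    rw [ht] at this
    simp at this
  have hA : ∀ v ∈ U', X.per v ∈ V2 := by
    intro v hv u hu
    have h1 : ∀ u ∈ U, E u v = 0 := by
      intro u hu
      have := (LinearMap.BilinForm.mem_orthogonal_iff.1 hv) u hu
      exact this
    have h2 : ∀ s ∈ Submodule.span ℝ (X.per '' U), (Ψ s (X.per v)).im = 0 := by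
      intro s hs
      induction hs using Submodule.span_induction with
      | mem x hx =>
        obtain ⟨u, hu, rfl⟩ := hx
        rw [hE, h1 u hu]
        simp
      | zero =>
        have := hsm 0 0 (X.per v)
        have h3 : Ψ 0 (X.per v) = 0 := by simpa using this
        rw [h3]
        rfl
      | add x y _ _ hx hy => rw [hadd, Complex.add_im, hx, hy, add_zero]
      | smul r x _ hx => rw [hrs, Complex.im_ofReal_mul, hx, mul_zero]
    have h3 : X.per u ∈ Submodule.span ℝ (X.per '' U) := Submodule.subset_span ⟨u, hu, rfl⟩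
    have h4 := h2 _ h3
    have h5 := h2 _ (hU _ h3)
    rw [hsm] at h5
    simp at h5
    rw [hc, Complex.ext (z := Ψ (X.per u) (X.per v)) (w := 0) h5 h4, map_zero]
  have hdisj : Disjoint U U' := by
    rw [Submodule.disjoint_def]
    intro v hv hv'
    apply per_inj X
    apply hdef
    exact hA v hv' v hv
  have hcompl : IsCompl U U' := (LinearMap.BilinForm.isCompl_orthogonal_iff_disjoint hrefl).2 hdisj
  have hsplit : ∀ v : X.H, ∃ u ∈ U, ∃ u' ∈ U', v = u + u' := by
    intro v
    have : v ∈ U ⊔ U' := by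
      rw [hcompl.sup_eq_top]
      trivial
    obtain ⟨u, hu, u', hu', h⟩ := Submodule.mem_sup.1 this
    exact ⟨u, hu, u', hu', h.symm⟩
  have hdisj2 : ∀ t, t ∈ V2 → t ∈ V1 → t = 0 := fun t h2 h1 => hdef t (h12 t h2 t h1)
  have hsum : ∀ t : X.T, ∃ s ∈ V1, ∃ s' ∈ Submodule.span ℝ (X.per '' U'), t = s + s' := by
    intro t
    have ht : t ∈ Submodule.span ℝ (Set.range X.per) := by
      rw [X.span]
      trivial
    induction ht using Submodule.span_induction with
    | mem x hx =>
      obtain ⟨v, rfl⟩ := hx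
      obtain ⟨u, hu, u', hu', rfl⟩ := hsplit v
      exact ⟨X.per u, Submodule.subset_span ⟨u, hu, rfl⟩, X.per u',
        Submodule.subset_span ⟨u', hu', rfl⟩, map_add _ _ _⟩
    | zero => exact ⟨0, V1.zero_mem, 0, Submodule.zero_mem _, (add_zero 0).symm⟩
    | add x y _ _ hx hy =>
      obtain ⟨s, hs, s', hs', rfl⟩ := hx
      obtain ⟨r, hr, r', hr', rfl⟩ := hy
      exact ⟨s + r, V1.add_mem hs hr, s' + r', Submodule.add_mem _ hs' hr', by abel⟩
    | smul c x _ hx =>
      obtain ⟨s, hs, s', hs', rfl⟩ := hx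
      refine ⟨c • s, ?_, c • s', Submodule.smul_mem _ _ hs', smul_add _ _ _⟩
      rw [hV1] at hs ⊢
      exact Submodule.smul_mem _ _ hs
  have hS2 : ∀ s ∈ Submodule.span ℝ (X.per '' U'), s ∈ V2 := by
    intro s hs
    have : Submodule.span ℝ (X.per '' U') ≤ V2.restrictScalars ℝ := by
      rw [Submodule.span_le]
      rintro _ ⟨v, hv, rfl⟩
      exact hA v hv
    exact this hs
  have hV2S : ∀ t ∈ V2, t ∈ Submodule.span ℝ (X.per '' U') := by
    intro t ht
    obtain ⟨s, hs, s', hs', rfl⟩ := hsum t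
    have h1 : s ∈ V2 := by
      have := V2.sub_mem ht (hS2 s' hs')
      simpa using this
    rw [hdisj2 s h1 hs, zero_add]
    exact hs'
  have hcompl2 : IsCompl V2 V1 := by
    refine ⟨?_, ?_⟩
    · rw [Submodule.disjoint_def]
      exact hdisj2
    · rw [codisjoint_iff, eq_top_iff]
      intro t _
      obtain ⟨s, hs, s', hs', rfl⟩ := hsum t
      exact Submodule.add_mem _ (Submodule.mem_sup_right hs) (Submodule.mem_sup_left (hS2 s' hs'))
  let perY : U' →+ V2 :=
    { toFun := fun v => ⟨X.per v, hA v.1 v.2⟩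
      map_zero' := Subtype.ext (map_zero X.per)
      map_add' := fun v w => Subtype.ext (map_add X.per _ _) }
  have hspan : Submodule.span ℝ (Set.range perY) = ⊤ := by
    rw [eq_top_iff]
    rintro ⟨t, ht⟩ _
    have key : ∀ s ∈ Submodule.span ℝ (X.per '' U'),
        ∃ q ∈ Submodule.span ℝ (Set.range perY), (q : X.T) = s := by
      intro s hs
      induction hs using Submodule.span_induction with
      | mem x hx =>
        obtain ⟨v, hv, rfl⟩ := hx
        exact ⟨perY ⟨v, hv⟩, Submodule.subset_span ⟨_, rfl⟩, rfl⟩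
      | zero => exact ⟨0, Submodule.zero_mem _, rfl⟩
      | add x y _ _ hx hy =>
        obtain ⟨s, hs, rfl⟩ := hx
        obtain ⟨r, hr, rfl⟩ := hy
        exact ⟨s + r, Submodule.add_mem _ hs hr, rfl⟩
      | smul c x _ hx =>
        obtain ⟨s, hs, rfl⟩ := hx
        exact ⟨c • s, Submodule.smul_mem _ _ hs, rfl⟩
    obtain ⟨q, hq, hqt⟩ := key t (hV2S t ht)
    have : q = ⟨t, ht⟩ := Subtype.ext hqt
    rw [← this]
    exact hq
  have hrank : finrank ℚ U' = 2 * finrank ℂ V2 := by
    rw [← finrank_span_per X U', ← finrank_real_of_complex]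
    have h1 : Submodule.span ℝ (X.per '' U') = V2.restrictScalars ℝ := by
      ext t
      exact ⟨hS2 t, hV2S t⟩
    rw [h1]
    rfl
  let Y : AV :=
    { H := U'
      T := V2
      per := perY
      span := hspan
      rank := hrank
      pol := ⟨fun v w => E v w, fun t s => Ψ t s, fun u' =>
        ⟨fun s t => hadd _ _ _, fun c t => hsm _ _ _⟩, fun u u' => hc _ _, fun u hu => hp _ (by
          intro h
          exact hu (Subtype.ext h)), fun v w => hE _ _⟩ }
  have hbij : Function.Bijective (R.domRestrict U') := by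
    constructor
    · rw [← LinearMap.ker_eq_bot, eq_bot_iff]
      rintro ⟨v, hv⟩ h
      have h1 : R v = 0 := h
      have h2 : v = 0 := Submodule.disjoint_def.1 hdisj v (by rw [hUdef]; exact h1) hv
      exact Subtype.ext h2
    · intro w
      obtain ⟨v, rfl⟩ := hR w
      obtain ⟨u, hu, u', hu', rfl⟩ := hsplit v
      refine ⟨⟨u', hu'⟩, ?_⟩
      have h1 : R u = 0 := hu
      change R u' = R (u + u')
      rw [map_add, h1, zero_add]
  refine ⟨Y, LinearEquiv.ofBijective (R.domRestrict U') hbij, Submodule.projectionOnto V2 V1 hcompl2,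
    fun v => ?_⟩
  obtain ⟨u, hu, u', hu', rfl⟩ := hsplit v
  have h1 : R u = 0 := hu
  have h2 : (LinearEquiv.ofBijective (R.domRestrict U') hbij).symm (R (u + u')) = ⟨u', hu'⟩ := by
    rw [LinearEquiv.symm_apply_eq]
    change R (u + u') = R u'
    rw [map_add, h1, zero_add]
  rw [map_add, map_add]
  have h3 : Submodule.projectionOnto V2 V1 hcompl2 (X.per u) = 0 := by
    rw [Submodule.projectionOnto_apply_eq_zero_iff]
    exact Submodule.subset_span ⟨u, hu, rfl⟩
  have h4 : Submodule.projectionOnto V2 V1 hcompl2 (X.per u') = ⟨X.per u', hA u' hu'⟩ :=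
    Submodule.projectionOnto_apply_of_mem_left hcompl2 (hA u' hu')
  change _ = Y.per ((LinearEquiv.ofBijective (R.domRestrict U') hbij).symm (R (u + u')))
  rw [h2, h3, h4, zero_add]
  rfl

theorem qhom_of : St_qhom := by
  rintro X Y Z R hR ⟨P, hP⟩ f ⟨Q, hQ⟩
  obtain ⟨F, hF⟩ := exists_ext Y (Z.per.comp f.toAddMonoidHom)
  have h1 : F ∘ₗ P.restrictScalars ℝ = Q.restrictScalars ℝ := by
    refine ext_eq X _ _ fun v => ?_
    change F (P (X.per v)) = Q (X.per v)
    rw [hP, hF, hQ]
    rfl
  have h2 : ∀ x, F (P x) = Q x := fun x => LinearMap.congr_fun h1 x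
  have hs := surj_of_hom X Y R hR P hP
  refine ⟨{ toFun := F, map_add' := map_add F, map_smul' := ?_ }, hF⟩
  intro c t
  obtain ⟨x, rfl⟩ := hs t
  rw [← map_smul, h2, h2, map_smul]
  rfl

theorem qhodge_of : St_qhodge := by
  rintro X Y R hR ⟨P, hP⟩ n w ⟨ψ, h1, h2⟩
  obtain ⟨s, hs⟩ := R.exists_rightInverse_of_surjective (LinearMap.range_eq_top.2 hR)
  obtain ⟨S, hS⟩ := exists_ext Y (X.per.comp s.toAddMonoidHom)
  have hs' : ∀ y, R (s y) = y := fun y => LinearMap.congr_fun hs y
  have hS' : ∀ y, S (Y.per y) = X.per (s y) := hS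
  have h3 : ∀ y : Fin n → Y.H, ψ (fun l => S (Y.per (y l))) = w y := by
    intro y
    simp only [hS']
    rw [h1]
    simp [hs']
  have h4 : (ψ.compLinearMap fun _ => S).compLinearMap (fun _ => P.restrictScalars ℝ) = ψ := by
    refine Basis.ext_multilinear (fun _ => pB X (finBasis ℚ X.H)) fun i => ?_
    simp only [pB_apply]
    change ψ (fun l => S (P (X.per _))) = ψ (fun l => X.per _)
    rw [h1]
    simp only [hP]
    rw [h3]
    rfl
  have h5 : ∀ x : Fin n → X.T, ψ (fun l => S (P (x l))) = ψ x := fun x => congrArg (fun q => q x) h4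
  refine ⟨ψ.compLinearMap fun _ => S, h3, fun z hz u => ?_⟩
  have hsj := surj_of_hom X Y R hR P hP
  choose x hx using fun l => hsj (u l)
  have hx' : u = fun l => P (x l) := funext fun l => (hx l).symm
  subst hx'
  change ψ (fun l => S (z • P (x l))) = ψ (fun l => S (P (x l)))
  rw [h5]
  have h6 := h5 (fun l => z • x l)
  simp only [map_smul] at h6
  rw [h6, h2 z hz]

end Pool.Agent.NH32
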