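import Mathlib
import Pool.Agent.NH32.GtD
import Pool.Agent.NH32.WJ3

/-!
# Project G, stage 3, D4a: polarizations of quotients
-/

namespace Pool.Agent.NH32

namespace GD4a

open Module Matrix Pool.Agent.Y90 WJ3

section forms

variable {T : Type} [AddCommGroup T] [Module ℂ T] {Ψ : T → T → ℂ}

theorem qadl (h1 : ∀ u', IsLinearMap ℂ fun u => Ψ u u') (s t u : T) :
    Ψ (s + t) u = Ψ s u + Ψ t u := (h1 u).map_add s t

theorem qsml (h1 : ∀ u', IsLinearMap ℂ fun u => Ψ u u') (c : ℂ) (t u : T) :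
    Ψ (c • t) u = c * Ψ t u := (h1 u).map_smul c t

theorem qadr (h1 : ∀ u', IsLinearMap ℂ fun u => Ψ u u')
    (h2 : ∀ u u', Ψ u' u = starRingEnd ℂ (Ψ u u')) (s t u : T) :
    Ψ s (t + u) = Ψ s t + Ψ s u := by
  rw [h2, qadl h1, map_add, ← h2, ← h2]

theorem qsmr (h1 : ∀ u', IsLinearMap ℂ fun u => Ψ u u')
    (h2 : ∀ u u', Ψ u' u = starRingEnd ℂ (Ψ u u')) (c : ℂ) (t u : T) :
    Ψ t (c • u) = starRingEnd ℂ c * Ψ t u := by
  rw [h2, qsml h1, map_mul, ← h2]

/-- The imaginary part as a real linear functional of the first variable. -/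
def imLq (h1 : ∀ u', IsLinearMap ℂ fun u => Ψ u u') (u' : T) : T →ₗ[ℝ] ℝ where
  toFun u := (Ψ u u').im
  map_add' s t := by rw [qadl h1, Complex.add_im]
  map_smul' r t := by
    have h : Ψ (r • t) u' = (r : ℂ) * Ψ t u' := qsml h1 (r : ℂ) t u'
    rw [h, Complex.im_ofReal_mul, RingHom.id_apply, smul_eq_mul]

/-- The imaginary part as a real linear functional of the second variable. -/
def imRq (h1 : ∀ u', IsLinearMap ℂ fun u => Ψ u u')
    (h2 : ∀ u u', Ψ u' u = starRingEnd ℂ (Ψ u u')) (u : T) : T →ₗ[ℝ] ℝ where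
  toFun u' := (Ψ u u').im
  map_add' s t := by rw [qadr h1 h2, Complex.add_im]
  map_smul' r t := by
    have h : Ψ u (r • t) = starRingEnd ℂ (r : ℂ) * Ψ u t := qsmr h1 h2 (r : ℂ) u t
    rw [h, Complex.conj_ofReal, Complex.im_ofReal_mul, RingHom.id_apply, smul_eq_mul]

/-- The radical of a semidefinite form. -/
theorem csq (h1 : ∀ u', IsLinearMap ℂ fun u => Ψ u u')
    (h2 : ∀ u u', Ψ u' u = starRingEnd ℂ (Ψ u u')) (h3 : ∀ u, 0 ≤ (Ψ u u).re) (t : T)
    (ht : (Ψ t t).re ≤ 0) (u : T) : Ψ t u = 0 := by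
  have ht0 : (Ψ t t).re = 0 := le_antisymm ht (h3 t)
  by_contra hz
  have hz0 : 0 < Complex.normSq (Ψ t u) := Complex.normSq_pos.2 hz
  have key : ∀ n : ℝ, 0 ≤ -2 * n * Complex.normSq (Ψ t u) + (Ψ u u).re := by
    intro n
    have h := h3 ((-(n : ℂ) * starRingEnd ℂ (Ψ t u)) • t + u)
    rw [qadl h1, qadr h1 h2, qadr h1 h2, qsml h1, qsml h1, qsmr h1 h2, qsmr h1 h2,
      h2 t u] at h
    set z := Ψ t u
    have e1 : (-(n : ℂ) * starRingEnd ℂ z * (starRingEnd ℂ (-(n : ℂ) * starRingEnd ℂ z) * Ψ t t)).re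
        = n ^ 2 * Complex.normSq z * (Ψ t t).re := by
      have : -(n : ℂ) * starRingEnd ℂ z * (starRingEnd ℂ (-(n : ℂ) * starRingEnd ℂ z) * Ψ t t)
          = ((n ^ 2 * Complex.normSq z : ℝ) : ℂ) * Ψ t t := by
        rw [map_mul, map_neg, Complex.conj_ofReal, Complex.conj_conj]
        push_cast
        rw [Complex.normSq_eq_conj_mul_self]
        ring
      rw [this, Complex.re_ofReal_mul]
    have e2 : (-(n : ℂ) * starRingEnd ℂ z * z).re = -n * Complex.normSq z := by
      have : -(n : ℂ) * starRingEnd ℂ z * z = ((-n * Complex.normSq z : ℝ) : ℂ) := by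
        push_cast
        rw [Complex.normSq_eq_conj_mul_self]
        ring
      rw [this, Complex.ofReal_re]
    have e3 : (starRingEnd ℂ (-(n : ℂ) * starRingEnd ℂ z) * starRingEnd ℂ z).re
        = -n * Complex.normSq z := by
      rw [← map_mul, Complex.conj_re, e2]
    rw [Complex.add_re, Complex.add_re, Complex.add_re, e1, e2, e3, ht0] at h
    linarith
  have h := key (((Ψ u u).re + 1) / (2 * Complex.normSq (Ψ t u)))
  have e : -2 * (((Ψ u u).re + 1) / (2 * Complex.normSq (Ψ t u))) * Complex.normSq (Ψ t u)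
      = -((Ψ u u).re + 1) := by
    field_simp
  rw [e] at h
  linarith

end forms

end GD4a

open Module Matrix Pool.Agent.Y90 WJ3 GD4a

theorem polq_of : St_polq := by
  intro X Y R hR hsurj Ψ h1 h2 h3 E hE hnd
  obtain ⟨Φ, hΦ⟩ := hR
  have hΦs : Function.Surjective Φ := surj_of_hom X Y R hsurj Φ hΦ
  have hrs : ∀ (r : ℝ) t u, Ψ (r • t) u = (r : ℂ) * Ψ t u := fun r t u => qsml h1 r t u
  have hrs' : ∀ (r : ℝ) t u, Ψ t (r • u) = (r : ℂ) * Ψ t u := by
    intro r t u
    have := qsmr h1 h2 (r : ℂ) t u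
    rw [Complex.conj_ofReal] at this
    exact this
  let B : Y.H →ₗ[ℚ] Y.H →ₗ[ℚ] ℚ := LinearMap.mk₂ ℚ E
    (fun v v' w => by
      obtain ⟨v, rfl⟩ := hsurj v
      obtain ⟨v', rfl⟩ := hsurj v'
      obtain ⟨w, rfl⟩ := hsurj w
      have : ((E (R v + R v') (R w) : ℚ) : ℝ) = ((E (R v) (R w) + E (R v') (R w) : ℚ) : ℝ) := by
        push_cast
        rw [← map_add, ← hE, ← hE, ← hE, map_add, qadl h1, Complex.add_im]
      exact_mod_cast this)
    (fun c v w => by
      obtain ⟨v, rfl⟩ := hsurj v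
      obtain ⟨w, rfl⟩ := hsurj w
      have : ((E (c • R v) (R w) : ℚ) : ℝ) = ((c • E (R v) (R w) : ℚ) : ℝ) := by
        rw [smul_eq_mul]
        push_cast
        rw [← map_smul, ← hE, ← hE, per_smul, hrs, Complex.im_ofReal_mul]
      exact_mod_cast this)
    (fun v w w' => by
      obtain ⟨v, rfl⟩ := hsurj v
      obtain ⟨w, rfl⟩ := hsurj w
      obtain ⟨w', rfl⟩ := hsurj w'
      have : ((E (R v) (R w + R w') : ℚ) : ℝ) = ((E (R v) (R w) + E (R v) (R w') : ℚ) : ℝ) := by
        push_cast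
        rw [← map_add, ← hE, ← hE, ← hE, map_add, qadr h1 h2, Complex.add_im]
      exact_mod_cast this)
    (fun c v w => by
      obtain ⟨v, rfl⟩ := hsurj v
      obtain ⟨w, rfl⟩ := hsurj w
      have : ((E (R v) (c • R w) : ℚ) : ℝ) = ((c • E (R v) (R w) : ℚ) : ℝ) := by
        rw [smul_eq_mul]
        push_cast
        rw [← map_smul, ← hE, ← hE, per_smul, hrs', Complex.im_ofReal_mul]
      exact_mod_cast this)
  have hB : ∀ v w, B v w = E v w := fun v w => rfl
  -- the kernel of `Φ` is in the radical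
  have hker : ∀ k, Φ k = 0 → ∀ t, Ψ k t = 0 := by
    intro k hk
    have hw : ∀ w, (Ψ k (X.per w)).im = 0 := by
      intro w
      let g : Y.H →+ ℝ :=
        { toFun := fun y => ((B y (R w) : ℚ) : ℝ)
          map_zero' := by simp
          map_add' := by intro a b; simp }
      obtain ⟨G, hG⟩ := exists_ext Y g
      have h := ext_eq X (imLq h1 (X.per w)) (G ∘ₗ Φ.restrictScalars ℝ) (fun v => by
        change (Ψ (X.per v) (X.per w)).im = G (Φ (X.per v))
        rw [hΦ, hG, hE]
        rfl)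
      have h' := LinearMap.congr_fun h k
      change (Ψ k (X.per w)).im = G (Φ k) at h'
      rw [h', hk, map_zero]
    have him : ∀ t, (Ψ k t).im = 0 := by
      intro t
      have h := ext_eq X (imRq h1 h2 k) 0 (fun v => hw v)
      exact LinearMap.congr_fun h t
    intro t
    apply Complex.ext
    · have h := him (Complex.I • t)
      rw [qsmr h1 h2] at h
      simpa using h
    · simpa using him t
  obtain ⟨s, hs⟩ := Φ.exists_rightInverse_of_surjective (LinearMap.range_eq_top.2 hΦs)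
  have hs' : ∀ t, Φ (s t) = t := fun t => LinearMap.congr_fun hs t
  have hval : ∀ v w, (Ψ (s (Y.per v)) (s (Y.per w))).im = E v w := by
    intro v w
    obtain ⟨v, rfl⟩ := hsurj v
    obtain ⟨w, rfl⟩ := hsurj w
    have e1 : s (Y.per (R v)) = (s (Y.per (R v)) - X.per v) + X.per v := by abel
    have e2 : s (Y.per (R w)) = (s (Y.per (R w)) - X.per w) + X.per w := by abel
    have k1 : Φ (s (Y.per (R v)) - X.per v) = 0 := by rw [map_sub, hs', hΦ, sub_self]
    have k2 : Φ (s (Y.per (R w)) - X.per w) = 0 := by rw [map_sub, hs', hΦ, sub_self]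
    rw [e1, e2, qadl h1, qadr h1 h2, qadr h1 h2, hker _ k1, hker _ k1, zero_add, zero_add,
      h2 _ (X.per v), hker _ k2, map_zero, zero_add, hE]
  refine ⟨fun t u => Ψ (s t) (s u), fun u' => ⟨fun a b => ?_, fun c a => ?_⟩, fun u u' => h2 _ _,
    fun t ht => ?_, hval⟩
  · change Ψ (s (a + b)) (s u') = _
    rw [map_add, qadl h1]
  · change Ψ (s (c • a)) (s u') = _
    rw [map_smul, qsml h1, smul_eq_mul]
  · by_contra hcon
    push Not at hcon
    apply ht
    have h0 := csq h1 h2 h3 (s t) hcon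
    -- the Gram matrix
    let M : Matrix (Fin (finrank ℚ Y.H)) (Fin (finrank ℚ Y.H)) ℚ :=
      fun i j => B (finBasis ℚ Y.H i) (finBasis ℚ Y.H j)
    have hdet : M.det ≠ 0 := by
      intro hd
      obtain ⟨v, hv, hvM⟩ := Matrix.exists_vecMul_eq_zero_iff.2 hd
      apply hv
      have hy : ∑ i, v i • finBasis ℚ Y.H i = 0 := by
        apply hnd
        intro w
        rw [← hB]
        have hz : B (∑ i, v i • finBasis ℚ Y.H i) = 0 := by
          refine (finBasis ℚ Y.H).ext fun j => ?_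
          have h : (v ᵥ* M) j = 0 := congrFun hvM j
          rw [LinearMap.zero_apply, map_sum, LinearMap.sum_apply]
          refine Eq.trans ?_ h
          simp only [Matrix.vecMul, dotProduct, map_smul, LinearMap.smul_apply, smul_eq_mul]
          rfl
        rw [hz, LinearMap.zero_apply]
      funext i
      exact Fintype.linearIndependent_iff.1 (finBasis ℚ Y.H).linearIndependent v hy i
    have hdet' : (M.map (Rat.castHom ℝ)).det ≠ 0 := by
      rw [← RingHom.mapMatrix_apply, ← RingHom.map_det]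
      intro h
      apply hdet
      have : ((M.det : ℚ) : ℝ) = 0 := h
      exact_mod_cast this
    set r : Fin (finrank ℚ Y.H) → ℝ := fun i => (pB Y (finBasis ℚ Y.H)).repr t i with hr
    have hr0 : r = 0 := by
      by_contra hne
      apply hdet'
      refine Matrix.exists_vecMul_eq_zero_iff.1 ⟨r, hne, ?_⟩
      funext j
      have h := congrArg Complex.im (h0 (s (Y.per (finBasis ℚ Y.H j))))
      have h' : (imLq h1 (s (Y.per (finBasis ℚ Y.H j))) ∘ₗ s.restrictScalars ℝ) t = 0 := h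
      rw [← (pB Y (finBasis ℚ Y.H)).sum_repr t, map_sum] at h'
      rw [Pi.zero_apply, ← h']
      simp only [Matrix.vecMul, dotProduct, map_smul, smul_eq_mul, pB_apply]
      refine Finset.sum_congr rfl fun i _ => ?_
      have e3 : (imLq h1 (s (Y.per (finBasis ℚ Y.H j))) ∘ₗ s.restrictScalars ℝ)
          (Y.per (finBasis ℚ Y.H i)) = E (finBasis ℚ Y.H i) (finBasis ℚ Y.H j) := hval _ _
      rw [e3]
      rfl
    rw [← (pB Y (finBasis ℚ Y.H)).sum_repr t]
    refine Finset.sum_eq_zero fun i _ => ?_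
    have h := congrFun hr0 i
    change (pB Y (finBasis ℚ Y.H)).repr t i = 0 at h
    rw [h, zero_smul]

end Pool.Agent.NH32
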