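import Mathlib
import Pool.Agent.NH32.GsB
import Pool.Agent.Y4.Aut

/-!
# Project G, job G12: abelian varieties with complex multiplication

For a field `K` of CM type which is stable under the automorphisms of `ℂ`, and an odd sign function
on the automorphisms which depends only on the restriction to `K`, the CM type of the embeddings with
sign `1` gives an abelian variety with `H_1 = K`; its modules are one-dimensional, and their signs
depend only on the restriction to `K`.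
-/

set_option linter.unusedSectionVars false

namespace Pool.Agent.NH32

open Matrix Module
open Pool.Agent.Y90 (AV IsPolarization)

noncomputable section

namespace GJ12

variable {K : Type} [Field K] [NumberField K]

/-- the complex conjugate of an embedding -/
def cc (τ : K →+* ℂ) : K →+* ℂ := (starRingEnd ℂ).comp τ

theorem cc_apply (τ : K →+* ℂ) (x : K) : cc τ x = starRingEnd ℂ (τ x) := rfl

theorem cc_cc (τ : K →+* ℂ) : cc (cc τ) = τ := by
  ext x
  rw [cc_apply, cc_apply, Complex.conj_conj]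

variable {Φ : Set (K →+* ℂ)} (hΦ : ∀ τ, cc τ ∈ Φ ↔ τ ∉ Φ)

include hΦ in
theorem real_rep (u : Φ → ℂ) : ∃ r : Free.ChooseBasisIndex ℤ (NumberField.RingOfIntegers K) → ℝ,
    ∀ τ : Φ, u τ = ∑ j, (r j : ℂ) * τ.1 (NumberField.integralBasis K j) := by
  classical
  let v : (K →+* ℂ) → ℂ := fun τ => if h : τ ∈ Φ then u ⟨τ, h⟩ else
    starRingEnd ℂ (u ⟨cc τ, (hΦ τ).2 h⟩)
  have hv : ∀ τ, v (cc τ) = starRingEnd ℂ (v τ) := by
    intro τ
    by_cases h : τ ∈ Φ
    · have h1 : cc τ ∉ Φ := fun h2 => (hΦ τ).1 h2 h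
      simp only [v]
      rw [dif_neg h1, dif_pos h]
      congr 3
      exact cc_cc τ
    · have h1 : cc τ ∈ Φ := (hΦ τ).2 h
      simp only [v]
      rw [dif_pos h1, dif_neg h, Complex.conj_conj]
  let s := (NumberField.canonicalEmbedding.latticeBasis K).repr v
  have hs : ∀ τ, v τ = ∑ j, s j * τ (NumberField.integralBasis K j) := by
    intro τ
    have h1 := congrFun ((NumberField.canonicalEmbedding.latticeBasis K).sum_repr v) τ
    rw [← h1, Finset.sum_apply]
    refine Finset.sum_congr rfl fun j _ => ?_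
    rw [Pi.smul_apply, NumberField.canonicalEmbedding.latticeBasis_apply, smul_eq_mul]
    rfl
  refine ⟨fun j => (s j).re, fun τ => ?_⟩
  have h1 : v τ.1 = u τ := by
    simp only [v]
    rw [dif_pos τ.2]
  have h2 : v τ.1 = ∑ j, starRingEnd ℂ (s j) * τ.1 (NumberField.integralBasis K j) := by
    have h3 := hs (cc τ.1)
    rw [hv] at h3
    have h4 := congrArg (starRingEnd ℂ) h3
    rw [Complex.conj_conj, map_sum] at h4
    rw [h4]
    refine Finset.sum_congr rfl fun j _ => ?_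
    rw [map_mul, cc_apply, Complex.conj_conj]
  have h3 : v τ.1 + v τ.1 = ∑ j, 2 * (((s j).re : ℂ) * τ.1 (NumberField.integralBasis K j)) := by
    nth_rewrite 1 [hs]
    rw [h2, ← Finset.sum_add_distrib]
    refine Finset.sum_congr rfl fun j _ => ?_
    have h5 := Complex.add_conj (s j)
    push_cast at h5
    linear_combination (τ.1 (NumberField.integralBasis K j)) * h5
  rw [← Finset.mul_sum, h1] at h3
  linear_combination h3 / 2

/-- the periods -/
def per (Φ : Set (K →+* ℂ)) : K →+ (Φ → ℂ) where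
  toFun x τ := τ.1 x
  map_zero' := by
    funext τ
    exact map_zero _
  map_add' x y := by
    funext τ
    exact map_add _ _ _

theorem per_apply (x : K) (τ : Φ) : per Φ x τ = τ.1 x := rfl

include hΦ in
theorem span_per : Submodule.span ℝ (Set.range (per Φ)) = ⊤ := by
  rw [eq_top_iff]
  intro u _
  obtain ⟨r, hr⟩ := real_rep hΦ u
  have h1 : u = ∑ j, r j • per Φ (NumberField.integralBasis K j) := by
    funext τ
    rw [hr, Finset.sum_apply]
    refine Finset.sum_congr rfl fun j _ => ?_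
    rw [Pi.smul_apply, per_apply, Complex.real_smul]
  rw [h1]
  exact Submodule.sum_mem _ fun j _ => Submodule.smul_mem _ _ (Submodule.subset_span ⟨_, rfl⟩)

/-- the two halves of the embeddings -/
def half (hΦ : ∀ τ, cc τ ∈ Φ ↔ τ ∉ Φ) : {τ // τ ∈ Φ} ≃ {τ // ¬ τ ∈ Φ} where
  toFun τ := ⟨cc τ.1, fun h => (hΦ τ.1).1 h τ.2⟩
  invFun τ := ⟨cc τ.1, (hΦ τ.1).2 τ.2⟩
  left_inv τ := Subtype.ext (cc_cc τ.1)
  right_inv τ := Subtype.ext (cc_cc τ.1)

theorem sum_all (hΦ : ∀ τ, cc τ ∈ Φ ↔ τ ∉ Φ) [Fintype Φ] {M : Type*} [AddCommMonoid M]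
    (f : (K →+* ℂ) → M) : ∑ τ, f τ = ∑ τ : Φ, (f τ.1 + f (cc τ.1)) := by
  classical
  rw [← (Equiv.sumCompl fun τ => τ ∈ Φ).sum_comp f, Fintype.sum_sum_type,
    Finset.sum_add_distrib]
  have h1 : ∑ x : {τ // ¬ τ ∈ Φ}, f x.1 = ∑ τ : {τ // τ ∈ Φ}, f (cc τ.1) :=
    ((half hΦ).sum_comp fun a => f a.1).symm
  have h2 : ∑ x : {τ // ¬ τ ∈ Φ}, f ((Equiv.sumCompl fun τ => τ ∈ Φ) (Sum.inr x)) =
      ∑ x : {τ // ¬ τ ∈ Φ}, f x.1 := rfl
  rw [h2, h1]
  congr 1

theorem rank_eq (hΦ : ∀ τ, cc τ ∈ Φ ↔ τ ∉ Φ) [Fintype Φ] :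
    finrank ℚ K = 2 * Fintype.card Φ := by
  rw [← NumberField.Embeddings.card K ℂ]
  have h1 := sum_all hΦ (M := ℕ) fun _ => 1
  simp only [Finset.sum_const, Finset.card_univ, smul_eq_mul, mul_one] at h1
  rw [h1]
  ring

/-- an element with given signs -/
theorem exists_xi (hΦ : ∀ τ, cc τ ∈ Φ ↔ τ ∉ Φ) (c : K →+* K)
    (hc : ∀ (τ : K →+* ℂ) x, τ (c x) = starRingEnd ℂ (τ x)) (hcc : ∀ x, c (c x) = x) :
    ∃ ξ : K, c ξ = -ξ ∧ ∀ τ : Φ, 0 < (τ.1 ξ).im := by
  classical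
  have _ : Fintype Φ := Fintype.ofFinite _
  let ι := Free.ChooseBasisIndex ℤ (NumberField.RingOfIntegers K)
  let G : (ι → ℝ) → Φ → ℝ := fun r τ => (∑ j, (r j : ℂ) * τ.1 (NumberField.integralBasis K j)).im
  have hG : ∀ τ, Continuous fun r => G r τ := by
    intro τ
    refine Complex.continuous_im.comp (continuous_finsetSum _ fun j _ => ?_)
    exact (Complex.continuous_ofReal.comp (continuous_apply j)).mul continuous_const
  have hopen : IsOpen {r | ∀ τ, 0 < G r τ} := by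
    have : {r | ∀ τ, 0 < G r τ} = ⋂ τ, {r | 0 < G r τ} := by
      ext r
      simp
    rw [this]
    exact isOpen_iInter_of_finite fun τ => isOpen_lt continuous_const (hG τ)
  obtain ⟨r, hr⟩ := real_rep hΦ fun _ => Complex.I
  have hne : {r | ∀ τ, 0 < G r τ}.Nonempty := by
    refine ⟨r, fun τ => ?_⟩
    have h1 : G r τ = (Complex.I).im := by rw [hr τ]
    rw [h1, Complex.I_im]
    exact one_pos
  obtain ⟨q, hq⟩ := (DenseRange.piMap fun _ : ι => Rat.denseRange_cast (𝕜 := ℝ)).exists_mem_open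
    hopen hne
  let η : K := ∑ j, q j • NumberField.integralBasis K j
  have hη : ∀ τ : Φ, 0 < (τ.1 η).im := by
    intro τ
    have h1 := hq τ
    have h2 : τ.1 η = ∑ j, (((Pi.map (fun (_ : ι) (x : ℚ) => (x : ℝ)) q) j : ℝ) : ℂ) *
        τ.1 (NumberField.integralBasis K j) := by
      simp only [η, map_sum]
      refine Finset.sum_congr rfl fun j _ => ?_
      rw [Rat.smul_def, map_mul, map_ratCast, Pi.map_apply]
      push_cast
      rfl
    rw [h2]
    exact h1
  refine ⟨η - c η, ?_, fun τ => ?_⟩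
  · rw [map_sub, hcc]
    ring
  · rw [map_sub, hc, Complex.sub_im, Complex.conj_im]
    linarith [hη τ]

theorem exists_pol (hΦ : ∀ τ, cc τ ∈ Φ ↔ τ ∉ Φ) (c : K →+* K)
    (hc : ∀ (τ : K →+* ℂ) x, τ (c x) = starRingEnd ℂ (τ x)) (hcc : ∀ x, c (c x) = x) :
    ∃ E : K → K → ℚ, IsPolarization (per Φ) E := by
  classical
  have _ : Fintype Φ := Fintype.ofFinite _
  obtain ⟨ξ, hξ1, hξ2⟩ := exists_xi hΦ c hc hcc
  have hre : ∀ τ : K →+* ℂ, (τ ξ).re = 0 := by
    intro τ
    have h1 := hc τ ξ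
    rw [hξ1, map_neg] at h1
    have h2 := congrArg Complex.re h1
    rw [Complex.neg_re, Complex.conj_re] at h2
    linarith
  refine ⟨fun x y => -Algebra.trace ℚ K (ξ * x * c y),
    fun u u' => ∑ τ, (2 * ((τ.1 ξ).im : ℂ)) * (u τ * starRingEnd ℂ (u' τ)), ?_, ?_, ?_, ?_⟩
  · intro u'
    constructor
    · intro x y
      rw [← Finset.sum_add_distrib]
      refine Finset.sum_congr rfl fun τ _ => ?_
      rw [Pi.add_apply]
      ring
    · intro a x
      rw [smul_eq_mul, Finset.mul_sum]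
      refine Finset.sum_congr rfl fun τ _ => ?_
      rw [Pi.smul_apply, smul_eq_mul]
      ring
  · intro u u'
    rw [map_sum]
    refine Finset.sum_congr rfl fun τ _ => ?_
    rw [map_mul, map_mul, map_mul, Complex.conj_conj, Complex.conj_ofReal]
    have : starRingEnd ℂ 2 = 2 := Complex.conj_ofNat 2
    rw [this]
    ring
  · intro u hu
    obtain ⟨τ₀, hτ₀⟩ := Function.ne_iff.1 hu
    rw [Complex.re_sum]
    have h1 : ∀ τ : Φ, ((2 * ((τ.1 ξ).im : ℂ)) * (u τ * starRingEnd ℂ (u τ))).re =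
        2 * (τ.1 ξ).im * Complex.normSq (u τ) := by
      intro τ
      rw [Complex.mul_conj]
      have : (2 * ((τ.1 ξ).im : ℂ)) * (Complex.normSq (u τ) : ℂ) =
        ((2 * (τ.1 ξ).im * Complex.normSq (u τ) : ℝ) : ℂ) := by push_cast; ring
      rw [this, Complex.ofReal_re]
    simp only [h1]
    refine Finset.sum_pos' (fun τ _ => ?_) ⟨τ₀, Finset.mem_univ _, ?_⟩
    · have := hξ2 τ
      have := Complex.normSq_nonneg (u τ)
      positivity
    · have h2 := hξ2 τ₀
      have h3 : 0 < Complex.normSq (u τ₀) := Complex.normSq_pos.2 hτ₀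
      positivity
  · intro x y
    have h1 : ((Algebra.trace ℚ K (ξ * x * c y) : ℚ) : ℂ) = ∑ τ : K →+* ℂ, τ (ξ * x * c y) := by
      have h2 := trace_eq_sum_embeddings (K := ℚ) (L := K) ℂ (x := ξ * x * c y)
      rw [eq_ratCast] at h2
      rw [h2, ← (RingHom.equivRatAlgHom K ℂ).sum_comp]
      rfl
    rw [sum_all hΦ] at h1
    have h3 := congrArg Complex.re h1
    rw [Complex.re_sum] at h3
    rw [Complex.im_sum]
    have h4 : (((Algebra.trace ℚ K (ξ * x * c y) : ℚ) : ℂ)).re =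
        ((Algebra.trace ℚ K (ξ * x * c y) : ℚ) : ℝ) := by
      rw [← Complex.ofReal_ratCast, Complex.ofReal_re]
    rw [h4] at h3
    rw [Rat.cast_neg, h3, ← Finset.sum_neg_distrib]
    refine Finset.sum_congr rfl fun τ _ => ?_
    rw [per_apply, per_apply, cc_apply, Complex.add_re, Complex.conj_re, map_mul, map_mul, hc]
    have h5 := hre τ.1
    simp only [Complex.mul_re, Complex.mul_im, Complex.conj_re, Complex.conj_im,
      Complex.ofReal_re, Complex.ofReal_im, Complex.re_ofNat, Complex.im_ofNat, h5]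
    ring

/-- an embedding as a rational linear map -/
def em (τ : K →+* ℂ) : K →ₗ[ℚ] ℂ := (RingHom.equivRatAlgHom K ℂ τ).toLinearMap

theorem em_apply (τ : K →+* ℂ) (x : K) : em τ x = τ x := rfl

theorem em_li : LinearIndependent ℂ (em : (K →+* ℂ) → K →ₗ[ℚ] ℂ) :=
  (linearIndependent_toLinearMap ℚ K ℂ).comp _ (RingHom.equivRatAlgHom K ℂ).injective

/-- the basis of the embeddings -/
def emB : Basis (K →+* ℂ) ℂ (K →ₗ[ℚ] ℂ) :=
  basisOfLinearIndependentOfCardEqFinrank em_li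
    (by rw [NumberField.Embeddings.card, Module.finrank_linearMap_self])

theorem emB_apply (τ : K →+* ℂ) : emB τ = em τ := by
  rw [emB, coe_basisOfLinearIndependentOfCardEqFinrank]

/-- the abelian variety -/
def cmAV (hΦ : ∀ τ, cc τ ∈ Φ ↔ τ ∉ Φ) (hpol : ∃ E : K → K → ℚ, IsPolarization (per Φ) E) :
    AV where
  H := K
  T := Φ → ℂ
  finH := NumberField.to_finiteDimensional
  per := per Φ
  span := span_per hΦ
  rank := by
    classical
    have _ : Fintype Φ := Fintype.ofFinite _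
    rw [Module.finrank_fintype_fun_eq_card]
    exact rank_eq hΦ
  pol := hpol

/-- the embedding followed by the inverse of `σ` -/
def pb (σ : ℂ ≃+* ℂ) (τ : K →+* ℂ) : K →+* ℂ := (σ.symm : ℂ →+* ℂ).comp τ

theorem pb_apply (σ : ℂ ≃+* ℂ) (τ : K →+* ℂ) (x : K) : pb σ τ x = σ.symm (τ x) := rfl

theorem pb_cj (σ : ℂ ≃+* ℂ) (τ : K →+* ℂ) : pb (cj.trans σ) τ = cc (pb σ τ) := by
  ext x
  rfl

variable (hpol : ∃ E : K → K → ℚ, IsPolarization (per Φ) E)

theorem H10_em (τ : Φ) (f : K →ₗ[ℚ] ℂ) (h : ∀ x, f x = τ.1 x) : H10 (cmAV hΦ hpol) f :=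
  ⟨LinearMap.proj τ, fun w => h w⟩

theorem H10_repr (σ : ℂ ≃+* ℂ) (a : K →ₗ[ℚ] ℂ)
    (h : H10 (cmAV hΦ hpol) (tw (X := cmAV hΦ hpol) σ.symm a)) (τ : K →+* ℂ)
    (hτ : pb σ τ ∉ Φ) : emB.repr a τ = 0 := by
  classical
  have _ : Fintype Φ := Fintype.ofFinite _
  obtain ⟨l, hl⟩ : ∃ l : (Φ → ℂ) →ₗ[ℂ] ℂ, ∀ x, σ.symm (a x) = l (per Φ x) := h
  have h1 : a = ∑ ρ : Φ, σ (l (Pi.single ρ 1)) • emB ((σ : ℂ →+* ℂ).comp ρ.1) := by
    refine LinearMap.ext fun x => ?_
    have h2 : σ.symm (a x) = l (per Φ x) := hl x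
    have h3 : a x = σ (l (per Φ x)) := by rw [← h2, RingEquiv.apply_symm_apply]
    have h4 : l (per Φ x) = ∑ ρ : Φ, ρ.1 x * l (Pi.single ρ 1) := by
      have h5 : per Φ x = ∑ ρ : Φ, ρ.1 x • (Pi.single ρ 1 : Φ → ℂ) := by
        funext ρ
        rw [Finset.sum_apply, Finset.sum_eq_single ρ]
        · rw [Pi.smul_apply, Pi.single_eq_same, smul_eq_mul, mul_one, per_apply]
        · intro ρ' _ hne
          rw [Pi.smul_apply, Pi.single_eq_of_ne hne.symm, smul_zero]
        · intro h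
          exact absurd (Finset.mem_univ _) h
      conv_lhs => rw [h5]
      rw [map_sum]
      refine Finset.sum_congr rfl fun ρ _ => ?_
      rw [map_smul, smul_eq_mul]
    rw [h3, h4, map_sum, LinearMap.sum_apply]
    refine Finset.sum_congr rfl fun ρ _ => ?_
    rw [LinearMap.smul_apply, emB_apply, em_apply, map_mul, smul_eq_mul, mul_comm]
    rfl
  rw [h1, map_sum, Finsupp.finsetSum_apply]
  refine Finset.sum_eq_zero fun ρ _ => ?_
  rw [map_smul, Finsupp.smul_apply, Basis.repr_self, Finsupp.single_apply, if_neg, smul_zero]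
  rintro rfl
  apply hτ
  have h5 : pb σ ((σ : ℂ →+* ℂ).comp ρ.1) = ρ.1 := by
    ext x
    exact σ.symm_apply_apply _
  rw [h5]
  exact ρ.2

open Classical in
/-- the sign -/
def sg (Φ : Set (K →+* ℂ)) (σ : ℂ ≃+* ℂ) (τ : K →+* ℂ) : ℂ := if pb σ τ ∈ Φ then 1 else -1

theorem IsD_repr (σ : ℂ ≃+* ℂ) (f f' : K →ₗ[ℚ] ℂ) (h : IsD (cmAV hΦ hpol) σ f f')
    (τ : K →+* ℂ) : emB.repr f' τ = sg Φ σ τ * emB.repr f τ := by
  obtain ⟨a, b, h1, h2, h3, h4⟩ := h
  have h1' : f = (show K →ₗ[ℚ] ℂ from a) + (show K →ₗ[ℚ] ℂ from b) := h1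
  have h2' : f' = (show K →ₗ[ℚ] ℂ from a) - (show K →ₗ[ℚ] ℂ from b) := h2
  rw [h1', h2', map_add, map_sub, Finsupp.add_apply, Finsupp.sub_apply]
  rw [sg]
  split_ifs with h
  · have h5 : emB.repr (show K →ₗ[ℚ] ℂ from b) τ = 0 := by
      refine H10_repr hΦ hpol (cj.trans σ) b ?_ τ ?_
      · exact h4
      · rw [pb_cj, hΦ]
        exact fun h6 => h6 h
    rw [h5]
    ring
  · have h5 : emB.repr (show K →ₗ[ℚ] ℂ from a) τ = 0 := H10_repr hΦ hpol σ a h3 τ h
    rw [h5]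
    ring

theorem irr (d : ℕ) (Δ : (ℂ ≃+* ℂ) → Matrix (Fin d) (Fin d) ℂ) (hI : IrD Δ)
    (hR : Rz (cmAV hΦ hpol) d Δ) : d = 1 ∧ ∃ τ, ∀ σ, trace (Δ σ) = sg Φ σ τ := by
  obtain ⟨hd, hI⟩ := hI
  obtain ⟨P, hP, hD⟩ := hR
  have hP0 : P ⟨0, hd⟩ ≠ 0 := hP.ne_zero _
  let r : Fin d → (K →+* ℂ) → ℂ := fun i τ => emB.repr (show K →ₗ[ℚ] ℂ from P i) τ
  have hr : ∀ σ j τ, ∑ i, Δ σ i j * r i τ = sg Φ σ τ * r j τ := by
    intro σ j τ
    have h1 := IsD_repr hΦ hpol σ _ _ (hD σ j) τ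
    refine Eq.trans ?_ h1
    have h2 : (∑ i, Δ σ i j • P i : (cmAV hΦ hpol).H →ₗ[ℚ] ℂ) =
      (∑ i, Δ σ i j • (show K →ₗ[ℚ] ℂ from P i)) := rfl
    rw [h2, map_sum, Finsupp.finsetSum_apply]
    refine Finset.sum_congr rfl fun i _ => ?_
    rw [map_smul, Finsupp.smul_apply, smul_eq_mul]
  obtain ⟨τ, hτ⟩ : ∃ τ, r ⟨0, hd⟩ τ ≠ 0 := by
    by_contra hcon
    push Not at hcon
    apply hP0
    have h1 : emB.repr (show K →ₗ[ℚ] ℂ from P ⟨0, hd⟩) = 0 := Finsupp.ext hcon
    exact (LinearEquiv.map_eq_zero_iff _).1 h1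
  let φ : (Fin d → ℂ) →ₗ[ℂ] ℂ := Fintype.linearCombination ℂ fun i => r i τ
  have hφ : ∀ w, φ w = ∑ i, w i * r i τ := by
    intro w
    rw [Fintype.linearCombination_apply]
    simp only [smul_eq_mul]
  have hinv : ∀ σ w, φ (Δ σ *ᵥ w) = sg Φ σ τ * φ w := by
    intro σ w
    rw [hφ, hφ, Finset.mul_sum]
    simp only [Matrix.mulVec, dotProduct, Finset.sum_mul]
    rw [Finset.sum_comm]
    refine Finset.sum_congr rfl fun j _ => ?_
    have h1 := hr σ j τ
    have h2 : sg Φ σ τ * (w j * r j τ) = w j * (sg Φ σ τ * r j τ) := by ring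
    rw [h2, ← h1, Finset.mul_sum]
    refine Finset.sum_congr rfl fun i _ => ?_
    ring
  have hs : φ (Pi.single ⟨0, hd⟩ 1) = r ⟨0, hd⟩ τ := by
    rw [hφ, Finset.sum_eq_single ⟨0, hd⟩]
    · rw [Pi.single_eq_same, one_mul]
    · intro i _ hne
      rw [Pi.single_eq_of_ne hne, zero_mul]
    · intro h
      exact absurd (Finset.mem_univ _) h
  have hker : LinearMap.ker φ = ⊥ := by
    rcases hI (LinearMap.ker φ) (fun σ w hw => by
      rw [LinearMap.mem_ker] at hw ⊢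
      rw [hinv, hw, mul_zero]) with h | h
    · exact h
    · exfalso
      have h1 : (Pi.single ⟨0, hd⟩ 1 : Fin d → ℂ) ∈ LinearMap.ker φ := by
        rw [h]
        exact Submodule.mem_top
      rw [LinearMap.mem_ker, hs] at h1
      exact hτ h1
  have hd1 : d = 1 := by
    have h1 := LinearMap.finrank_le_finrank_of_injective (LinearMap.ker_eq_bot.1 hker)
    rw [Module.finrank_fin_fun, Module.finrank_self] at h1
    omega
  subst hd1
  refine ⟨rfl, τ, fun σ => ?_⟩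
  have h1 := hr σ 0 τ
  rw [Fin.sum_univ_one] at h1
  rw [Matrix.trace_fin_one]
  exact mul_right_cancel₀ hτ h1

end GJ12

open GJ12 in
/-- **G12.** -/
theorem cm_of : St_cm := by
  classical
  intro K hK hst hcj F hF1 hF2 hF3
  have _ : NumberField K := ⟨⟩
  let rs : (ℂ ≃+* ℂ) → (K →+* ℂ) := fun σ => (σ : ℂ →+* ℂ).comp K.subtype
  have hrs : ∀ τ : K →+* ℂ, ∃ σ, rs σ = τ := fun τ => Y4.exists_aut_emb K.subtype τ
  have hval : ∀ (τ : K →+* ℂ) x, τ x ∈ K := by
    intro τ x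
    obtain ⟨σ, rfl⟩ := hrs τ
    exact hst σ x.1 x.2
  have hinvK : ∀ σ τ : ℂ ≃+* ℂ, (∀ z ∈ K, σ z = τ z) → ∀ z ∈ K, σ.symm z = τ.symm z := by
    intro σ τ h z hz
    have h1 : σ.symm z ∈ K := hst σ.symm z hz
    have h2 := h _ h1
    rw [RingEquiv.apply_symm_apply] at h2
    have h3 := congrArg τ.symm h2
    rw [RingEquiv.symm_apply_apply] at h3
    exact h3.symm
  let Φ : Set (K →+* ℂ) := {τ | ∃ σ, F σ = 1 ∧ τ = rs σ.symm}
  have hmem : ∀ σ, rs σ.symm ∈ Φ ↔ F σ = 1 := by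
    intro σ
    constructor
    · rintro ⟨ρ, hρ, h⟩
      rw [← hρ]
      refine hF3 σ ρ ?_
      have h1 := hinvK σ.symm ρ.symm fun z hz => by
        have := DFunLike.congr_fun h (⟨z, hz⟩ : K)
        exact this
      exact h1
    · intro h
      exact ⟨σ, h, rfl⟩
  have hcc : ∀ σ : ℂ ≃+* ℂ, cc (rs σ.symm) = rs (cj.trans σ).symm := by
    intro σ
    ext x
    rfl
  have hΦ : ∀ τ, cc τ ∈ Φ ↔ τ ∉ Φ := by
    intro τ
    obtain ⟨σ, rfl⟩ := hrs τ
    have h1 : rs σ = rs σ.symm.symm := rfl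
    rw [h1, hcc, hmem, hmem, hF2]
    rcases hF1 σ.symm with h | h <;> rw [h] <;> decide
  let c : K →+* K := ((cj : ℂ →+* ℂ).comp K.subtype).codRestrict K fun x => hst cj x.1 x.2
  have hc : ∀ (τ : K →+* ℂ) x, τ (c x) = starRingEnd ℂ (τ x) := by
    intro τ x
    obtain ⟨σ, rfl⟩ := hrs τ
    exact hcj σ x.1 x.2
  have hcc' : ∀ x, c (c x) = x := fun x => Subtype.ext (Complex.conj_conj x.1)
  have hpol := exists_pol hΦ c hc hcc'
  refine ⟨cmAV hΦ hpol, ?_, ?_⟩
  · refine ⟨fun _ => em K.subtype, ?_, fun σ j => ?_⟩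
    · have hne : em K.subtype ≠ 0 := by
        intro h
        have h1 := DFunLike.congr_fun h (1 : K)
        have h2 : em K.subtype (1 : K) = 1 := rfl
        exact one_ne_zero (h2.symm.trans h1)
      have hli : LinearIndependent ℂ (fun _ : Fin 1 => em K.subtype) :=
        LinearIndependent.of_subsingleton 0 hne
      exact hli
    · have h1 : (∑ i : Fin 1, lineD F σ i j • em K.subtype) = (F σ : ℂ) • em K.subtype := by
        rw [Finset.univ_unique, Finset.sum_singleton]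
        rfl
      refine Eq.subst (motive := fun f => IsD (cmAV hΦ hpol) σ (em K.subtype) f) h1.symm ?_
      rcases hF1 σ with h | h
      · refine ⟨em K.subtype, 0, (add_zero _).symm, ?_, ?_, ?_⟩
        · rw [h, Int.cast_one, one_smul]
          exact (sub_zero (em K.subtype)).symm
        · exact H10_em hΦ hpol ⟨rs σ.symm, (hmem σ).2 h⟩ _ fun x => rfl
        · refine ⟨0, fun w => ?_⟩
          rw [LinearMap.zero_apply]
          change cj (σ.symm 0) = 0
          rw [map_zero, map_zero]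
      · refine ⟨0, em K.subtype, (zero_add _).symm, ?_, ?_, ?_⟩
        · rw [h, Int.cast_neg, Int.cast_one, neg_smul, one_smul]
          exact (zero_sub (em K.subtype)).symm
        · refine ⟨0, fun w => ?_⟩
          rw [LinearMap.zero_apply]
          change σ.symm 0 = 0
          rw [map_zero]
        · have h2 : F (cj.trans σ) = 1 := by rw [hF2, h, neg_neg]
          exact H10_em hΦ hpol ⟨rs (cj.trans σ).symm, (hmem _).2 h2⟩ _ fun x => rfl
  · intro d Δ hI hR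
    obtain ⟨h1, τ, hτ⟩ := irr hΦ hpol d Δ hI hR
    refine ⟨h1, fun σ σ' hσ => ?_⟩
    rw [hτ, hτ, sg, sg]
    have h2 : pb σ τ = pb σ' τ := by
      ext x
      exact hinvK σ σ' hσ _ (hval τ x)
    rw [h2]

end

end Pool.Agent.NH32
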