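import Mathlib
import Pool.Agent.NH32.GtD
import Pool.Agent.NH32.GJ12

/-!
# Project G, stage 3, job GD6: abelian varieties of CM type with a given polarization
-/

set_option linter.unusedSectionVars false

namespace Pool.Agent.NH32

open Matrix Module
open Pool.Agent.Y90 (AV IsPolarization IsHom)

noncomputable section

namespace GD6

open GJ12

variable {K : Subfield ℂ}

/-- the restriction of an automorphism -/
def rs (K : Subfield ℂ) (σ : ℂ ≃+* ℂ) : K →+* ℂ := (σ : ℂ →+* ℂ).comp K.subtype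

theorem rs_apply (σ : ℂ ≃+* ℂ) (x : K) : rs K σ x = σ x := rfl

theorem exists_rs [FiniteDimensional ℚ K] (τ : K →+* ℂ) : ∃ σ, rs K σ = τ := by
  have _ : NumberField K := ⟨⟩
  exact Y4.exists_aut_emb K.subtype τ

theorem emb_cjk (hK : CMF K) (τ : K →+* ℂ) (x : K) : τ (cjk hK x) = starRingEnd ℂ (τ x) := by
  have _ := hK.fin
  obtain ⟨σ, rfl⟩ := exists_rs τ
  exact hK.cc σ x.1 x.2

/-- the embeddings where `κ` has negative imaginary part -/
def Ph (κ : K) : Set (K →+* ℂ) := {τ | (τ κ).im < 0}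

theorem im_ne (hK : CMF K) {κ : K} (h1 : cjk hK κ = -κ) (h2 : κ ≠ 0) (τ : K →+* ℂ) :
    (τ κ).re = 0 ∧ (τ κ).im ≠ 0 := by
  have h3 := emb_cjk hK τ κ
  rw [h1, map_neg] at h3
  have h4 := congrArg Complex.re h3
  rw [Complex.neg_re, Complex.conj_re] at h4
  have h5 : (τ κ).re = 0 := by linarith
  refine ⟨h5, fun h6 => h2 ?_⟩
  have h7 : τ κ = 0 := Complex.ext h5 h6
  exact (map_eq_zero τ).1 h7

variable [NumberField K]

theorem Ph_cc (hK : CMF K) {κ : K} (h1 : cjk hK κ = -κ) (h2 : κ ≠ 0) (τ : K →+* ℂ) :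
    cc τ ∈ Ph κ ↔ τ ∉ Ph κ := by
  have h3 := (im_ne hK h1 h2 τ).2
  have h4 : (cc τ κ).im = -(τ κ).im := by
    rw [cc_apply, Complex.conj_im]
  change (cc τ κ).im < 0 ↔ ¬ (τ κ).im < 0
  rw [h4]
  constructor
  · intro h5
    linarith
  · intro h5
    have := lt_of_le_of_ne (not_lt.1 h5) (Ne.symm h3)
    linarith

/-- the polarization of one factor -/
theorem pol_one (hK : CMF K) {κ : K} (h1 : cjk hK κ = -κ) (h2 : κ ≠ 0) :
    IsPolarization (per (Ph κ)) fun x y => Algebra.trace ℚ K (κ * x * cjk hK y) := by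
  classical
  have _ : Fintype (Ph κ) := Fintype.ofFinite _
  have hΦ := Ph_cc hK h1 h2
  refine ⟨fun u u' => ∑ τ, (-2 * ((τ.1 κ).im : ℂ)) * (u τ * starRingEnd ℂ (u' τ)), ?_, ?_, ?_, ?_⟩
  · intro u'
    constructor
    · intro x y
      rw [← Finset.sum_add_distrib]
      refine Finset.sum_congr rfl fun τ _ => ?_
      rw [Pi.add_apply]
      ring
    · intro a x
      rw [smul_eq_mul, Finset.mul_sum]
      refine Finset.sum_congr rfl fun τ _ => ?_
      rw [Pi.smul_apply, smul_eq_mul]
      ring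
  · intro u u'
    rw [map_sum]
    refine Finset.sum_congr rfl fun τ _ => ?_
    rw [map_mul, map_mul, map_mul, Complex.conj_conj, Complex.conj_ofReal, map_neg]
    have : starRingEnd ℂ 2 = 2 := Complex.conj_ofNat 2
    rw [this]
    ring
  · intro u hu
    obtain ⟨τ₀, hτ₀⟩ := Function.ne_iff.1 hu
    rw [Complex.re_sum]
    have h3 : ∀ τ : Ph κ, ((-2 * ((τ.1 κ).im : ℂ)) * (u τ * starRingEnd ℂ (u τ))).re =
        2 * (-(τ.1 κ).im) * Complex.normSq (u τ) := by
      intro τ
      rw [Complex.mul_conj]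
      have : (-2 * ((τ.1 κ).im : ℂ)) * (Complex.normSq (u τ) : ℂ) =
        ((2 * (-(τ.1 κ).im) * Complex.normSq (u τ) : ℝ) : ℂ) := by push_cast; ring
      rw [this, Complex.ofReal_re]
    simp only [h3]
    have hneg : ∀ τ : Ph κ, 0 < -(τ.1 κ).im := fun τ => by
      have := τ.2
      change (τ.1 κ).im < 0 at this
      linarith
    refine Finset.sum_pos' (fun τ _ => ?_) ⟨τ₀, Finset.mem_univ _, ?_⟩
    · have := hneg τ
      have := Complex.normSq_nonneg (u τ)
      positivity
    · have h4 := hneg τ₀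
      have h5 : 0 < Complex.normSq (u τ₀) := Complex.normSq_pos.2 hτ₀
      positivity
  · intro x y
    have h3 : ((Algebra.trace ℚ K (κ * x * cjk hK y) : ℚ) : ℂ) =
        ∑ τ : K →+* ℂ, τ (κ * x * cjk hK y) := by
      have h2 := trace_eq_sum_embeddings (K := ℚ) (L := K) ℂ (x := κ * x * cjk hK y)
      rw [eq_ratCast] at h2
      rw [h2, ← (RingHom.equivRatAlgHom K ℂ).sum_comp]
      rfl
    rw [sum_all hΦ] at h3
    have h4 := congrArg Complex.re h3
    rw [Complex.re_sum] at h4
    rw [Complex.im_sum]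
    have h5 : (((Algebra.trace ℚ K (κ * x * cjk hK y) : ℚ) : ℂ)).re =
        ((Algebra.trace ℚ K (κ * x * cjk hK y) : ℚ) : ℝ) := by
      rw [← Complex.ofReal_ratCast, Complex.ofReal_re]
    rw [h5] at h4
    rw [h4]
    refine Finset.sum_congr rfl fun τ _ => ?_
    rw [per_apply, per_apply, cc_apply, Complex.add_re, Complex.conj_re, map_mul, map_mul,
      emb_cjk hK]
    have h6 := (im_ne hK h1 h2 τ.1).1
    simp only [Complex.mul_re, Complex.mul_im, Complex.conj_re, Complex.conj_im, Complex.neg_re,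
      Complex.neg_im, Complex.ofReal_re, Complex.ofReal_im, Complex.re_ofNat, Complex.im_ofNat, h6]
    ring

variable {d : ℕ}

/-- the periods -/
def perP (κ : Fin d → K) : (Fin d → K) →+ ((j : Fin d) → (Ph (κ j) → ℂ)) where
  toFun x j := per (Ph (κ j)) (x j)
  map_zero' := by
    funext j
    exact map_zero _
  map_add' x y := by
    funext j
    exact map_add _ _ _

theorem perP_apply (κ : Fin d → K) (x : Fin d → K) (j : Fin d) (τ : Ph (κ j)) :
    perP κ x j τ = τ.1 (x j) := rfl

theorem span_perP (hK : CMF K) {κ : Fin d → K} (h : ∀ j, cjk hK (κ j) = -κ j ∧ κ j ≠ 0) :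
    Submodule.span ℝ (Set.range (perP κ)) = ⊤ := by
  classical
  rw [eq_top_iff]
  intro u _
  have h1 : u = ∑ j, LinearMap.single ℝ (fun j => (Ph (κ j) → ℂ)) j (u j) := by
    funext j
    rw [Finset.sum_apply, Finset.sum_eq_single j]
    · rw [LinearMap.single_apply, Pi.single_eq_same]
    · intro i _ hne
      rw [LinearMap.single_apply, Pi.single_eq_of_ne hne.symm]
    · intro h
      exact absurd (Finset.mem_univ _) h
  rw [h1]
  refine Submodule.sum_mem _ fun j _ => ?_
  have h2 : u j ∈ Submodule.span ℝ (Set.range (per (Ph (κ j)))) := by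
    rw [span_per (Ph_cc hK (h j).1 (h j).2)]
    exact Submodule.mem_top
  have h3 : Submodule.map (LinearMap.single ℝ (fun j => (Ph (κ j) → ℂ)) j)
      (Submodule.span ℝ (Set.range (per (Ph (κ j))))) ≤
      Submodule.span ℝ (Set.range (perP κ)) := by
    rw [Submodule.map_span_le]
    rintro _ ⟨x, rfl⟩
    refine Submodule.subset_span ⟨Pi.single j x, ?_⟩
    funext i
    by_cases hi : i = j
    · subst hi
      rw [LinearMap.single_apply, Pi.single_eq_same]
      change per (Ph (κ i)) ((Pi.single i x : Fin d → K) i) = _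
      rw [Pi.single_eq_same]
    · rw [LinearMap.single_apply, Pi.single_eq_of_ne hi]
      change per (Ph (κ i)) ((Pi.single j x : Fin d → K) i) = _
      rw [Pi.single_eq_of_ne hi, map_zero]
  exact h3 ⟨_, h2, rfl⟩

theorem pol_all (hK : CMF K) {κ : Fin d → K} (h : ∀ j, cjk hK (κ j) = -κ j ∧ κ j ≠ 0) :
    IsPolarization (perP κ) fun x y => frK hK κ x y := by
  choose Ψ hl hs hp hE using fun j => pol_one hK (h j).1 (h j).2
  refine ⟨fun u u' => ∑ j, Ψ j (u j) (u' j), ?_, ?_, ?_, ?_⟩
  · intro u'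
    constructor
    · intro x y
      rw [← Finset.sum_add_distrib]
      exact Finset.sum_congr rfl fun j _ => (hl j (u' j)).map_add _ _
    · intro a x
      rw [Finset.smul_sum]
      exact Finset.sum_congr rfl fun j _ => (hl j (u' j)).map_smul _ _
  · intro u u'
    rw [map_sum]
    exact Finset.sum_congr rfl fun j _ => hs j _ _
  · intro u hu
    obtain ⟨j₀, hj₀⟩ := Function.ne_iff.1 hu
    rw [Complex.re_sum]
    refine Finset.sum_pos' (fun j _ => ?_) ⟨j₀, Finset.mem_univ _, hp j₀ _ hj₀⟩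
    by_cases hj : u j = 0
    · rw [hj]
      have h0 : Ψ j 0 0 = 0 := by
        have h1 := (hl j 0).map_smul 0 0
        rw [zero_smul, zero_smul] at h1
        exact h1
      rw [h0, Complex.zero_re]
    · exact (hp j _ hj).le
  · intro x y
    change _ = ((Algebra.trace ℚ K (∑ j, κ j * x j * cjk hK (y j)) : ℚ) : ℝ)
    rw [Complex.im_sum, map_sum, Rat.cast_sum]
    exact Finset.sum_congr rfl fun j _ => hE j _ _

/-- the multiplication by an element of `K` on the tangent space -/
def mulT (κ : Fin d → K) (a : K) :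
    ((j : Fin d) → (Ph (κ j) → ℂ)) →ₗ[ℂ] ((j : Fin d) → (Ph (κ j) → ℂ)) where
  toFun u j τ := τ.1 a * u j τ
  map_add' u v := by
    funext j τ
    exact mul_add _ _ _
  map_smul' c u := by
    funext j τ
    exact mul_left_comm _ _ _

/-- the abelian variety -/
def cmY (hK : CMF K) {κ : Fin d → K} (h : ∀ j, cjk hK (κ j) = -κ j ∧ κ j ≠ 0) : AV where
  H := Fin d → K
  T := (j : Fin d) → (Ph (κ j) → ℂ)
  finH := inferInstance
  per := perP κ
  span := span_perP hK h
  rank := by
    classical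
    have _ : ∀ j, Fintype (Ph (κ j)) := fun j => Fintype.ofFinite _
    rw [Module.finrank_pi_fintype, Module.finrank_pi_fintype, Finset.mul_sum]
    refine Finset.sum_congr rfl fun j _ => ?_
    rw [Module.finrank_fintype_fun_eq_card]
    exact rank_eq (Ph_cc hK (h j).1 (h j).2)
  pol := ⟨_, pol_all hK h⟩

end GD6

open GD6 in
/-- **GD6.** Abelian varieties of CM type. -/
theorem cmav_of : St_cmav := by
  intro K hK d κ h
  have _ := hK.fin
  have _ : NumberField K := ⟨⟩
  refine ⟨cmY hK h, LinearEquiv.refl ℚ (Fin d → K), ?_, ?_, ?_⟩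
  · intro a
    refine ⟨mulT κ a, fun v => ?_⟩
    funext j τ
    exact (map_mul τ.1 a (v j)).symm
  · exact pol_all hK h
  · intro X f hf a
    have key : ∀ (j : Fin d) (τ : Ph (κ j)), ∃ l : X.T →ₗ[ℂ] ℂ, ∀ w, τ.1 (f j w) = l (X.per w) := by
      intro j τ
      obtain ⟨ρ, hρ⟩ := exists_rs τ.1
      have h1 : sgf (κ j) ρ.symm = -1 := by
        have h2 : (ρ (κ j : ℂ)).im < 0 := by
          have h3 : (τ.1 (κ j)).im < 0 := τ.2
          rw [← hρ] at h3
          exact h3
        rw [sgf, if_neg]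
        exact not_lt.2 (le_of_lt h2)
      obtain ⟨u, v, h2, h3, h4, -⟩ := hf j ρ.symm
      rw [h1, Int.cast_neg, Int.cast_one, neg_neg, one_smul] at h3
      have h5 : v = 0 := by
        have h6 : v + v = 0 := by
          have h7 : u + v - (u - v) = 0 := by rw [← h2, ← h3, sub_self]
          rw [← h7]
          abel
        have h8 : (2 : ℂ) • v = 0 := by rw [two_smul]; exact h6
        exact (smul_eq_zero.1 h8).resolve_left two_ne_zero
      rw [h5, add_zero] at h2
      rw [← h2] at h4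
      obtain ⟨l, hl⟩ := h4
      refine ⟨l, fun w => ?_⟩
      rw [← hl w, ← hρ]
      rfl
    choose l hl using key
    refine ⟨LinearMap.pi fun j => LinearMap.pi fun τ => (τ.1 a) • l j τ, fun v => ?_⟩
    funext j τ
    change τ.1 a * l j τ (X.per v) = τ.1 (a * f j v)
    rw [map_mul, hl]

end

end Pool.Agent.NH32
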