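import Mathlib
import Pool.Agent.NH32.GtD
import Pool.Agent.NH32.GJ12
import Pool.Agent.NH32.GD6
import Pool.Agent.NH32.WJ3
import Pool.Agent.NH32.WJ4

/-!
# Project G, stage 3, job GD4b: the abelian variety of a module over `K`
-/

set_option linter.unusedSectionVars false

namespace Pool.Agent.NH32

open Matrix Module
open Pool.Agent.Y90 (AV IsPolarization IsHom IsSub)

noncomputable section

namespace GD4b

/-! ### Functionals of type `(1, 0)` -/

theorem H10_zero (X : AV) : H10 X 0 := ⟨0, fun w => by simp⟩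

theorem H10_add {X : AV} {f g : X.H →ₗ[ℚ] ℂ} (hf : H10 X f) (hg : H10 X g) : H10 X (f + g) := by
  obtain ⟨l, hl⟩ := hf
  obtain ⟨l', hl'⟩ := hg
  exact ⟨l + l', fun w => by rw [LinearMap.add_apply, LinearMap.add_apply, hl, hl']⟩

theorem H10_smul {X : AV} (c : ℂ) {f : X.H →ₗ[ℚ] ℂ} (hf : H10 X f) : H10 X (c • f) := by
  obtain ⟨l, hl⟩ := hf
  exact ⟨c • l, fun w => by rw [LinearMap.smul_apply, LinearMap.smul_apply, hl]⟩

theorem H10_sum {X : AV} {α : Type} (s : Finset α) (f : α → (X.H →ₗ[ℚ] ℂ))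
    (h : ∀ i ∈ s, H10 X (f i)) : H10 X (∑ i ∈ s, f i) := by
  classical
  induction s using Finset.induction_on with
  | empty =>
    rw [Finset.sum_empty]
    exact H10_zero X
  | insert i s hi ih =>
    rw [Finset.sum_insert hi]
    exact H10_add (h i (Finset.mem_insert_self i s))
      (ih fun j hj => h j (Finset.mem_insert_of_mem hj))

theorem H10_comp {X Y : AV} {f : Y.H →ₗ[ℚ] ℂ} (hf : H10 Y f) {h : X.H →ₗ[ℚ] Y.H}
    (hh : IsHom X Y h) : H10 X (f ∘ₗ h) := by
  obtain ⟨l, hl⟩ := hf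
  obtain ⟨Ψ, hΨ⟩ := hh
  exact ⟨l ∘ₗ Ψ, fun w => by rw [LinearMap.comp_apply, LinearMap.comp_apply, hl, hΨ]⟩

theorem tw_apply {X : AV} (σ : ℂ ≃+* ℂ) (f : X.H →ₗ[ℚ] ℂ) (v : X.H) : tw σ f v = σ (f v) := rfl

theorem span_ind (Y : AV) {p : Y.T → Prop} (h1 : ∀ v, p (Y.per v))
    (h2 : ∀ u u', p u → p u' → p (u + u')) (h3 : ∀ (r : ℝ) u, p u → p (r • u)) (u : Y.T) : p u := by
  have hu : u ∈ Submodule.span ℝ (Set.range Y.per) := by rw [Y.span]; trivial
  induction hu using Submodule.span_induction with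
  | mem x hx => obtain ⟨v, rfl⟩ := hx; exact h1 v
  | zero => rw [← map_zero Y.per]; exact h1 0
  | add x y _ _ hx hy => exact h2 x y hx hy
  | smul r x _ hx => exact h3 r x hx

/-- Functionals which are a sum of functionals of type `(1, 0)` and `(0, 1)` with difference zero on
the kernel. -/
def Gk (N : AV) (U : Submodule ℚ N.H) (f : N.H →ₗ[ℚ] ℂ) : Prop :=
  ∃ a b : N.H →ₗ[ℚ] ℂ, f = a + b ∧ H10 N a ∧ H10 N (tw cj b) ∧ ∀ x ∈ U, a x = b x

theorem tw_add {X : AV} (σ : ℂ ≃+* ℂ) (f g : X.H →ₗ[ℚ] ℂ) : tw σ (f + g) = tw σ f + tw σ g := by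
  refine LinearMap.ext fun v => ?_
  rw [tw_apply, LinearMap.add_apply, LinearMap.add_apply, map_add, tw_apply, tw_apply]

theorem tw_smul {X : AV} (σ : ℂ ≃+* ℂ) (c : ℂ) (f : X.H →ₗ[ℚ] ℂ) :
    tw σ (c • f) = σ c • tw σ f := by
  refine LinearMap.ext fun v => ?_
  rw [tw_apply, LinearMap.smul_apply, LinearMap.smul_apply, smul_eq_mul, map_mul, tw_apply,
    smul_eq_mul]

theorem tw_sum {X : AV} {α : Type} (s : Finset α) (σ : ℂ ≃+* ℂ) (f : α → (X.H →ₗ[ℚ] ℂ)) :
    tw σ (∑ i ∈ s, f i) = ∑ i ∈ s, tw σ (f i) := by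
  refine LinearMap.ext fun v => ?_
  rw [tw_apply, LinearMap.sum_apply, LinearMap.sum_apply, map_sum]
  exact Finset.sum_congr rfl fun i _ => (tw_apply σ (f i) v).symm

theorem Gk_zero (N : AV) (U : Submodule ℚ N.H) : Gk N U 0 :=
  ⟨0, 0, by simp, H10_zero N, by
    have h : tw cj (0 : N.H →ₗ[ℚ] ℂ) = 0 := LinearMap.ext fun v => by
      rw [tw_apply, LinearMap.zero_apply, map_zero]
    rw [h]
    exact H10_zero N, fun _ _ => rfl⟩

theorem Gk_add {N : AV} {U : Submodule ℚ N.H} {f g : N.H →ₗ[ℚ] ℂ} (hf : Gk N U f)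
    (hg : Gk N U g) : Gk N U (f + g) := by
  obtain ⟨a, b, h1, h2, h3, h4⟩ := hf
  obtain ⟨a', b', h1', h2', h3', h4'⟩ := hg
  refine ⟨a + a', b + b', by rw [h1, h1']; abel, H10_add h2 h2', ?_, fun x hx => ?_⟩
  · rw [tw_add]
    exact H10_add h3 h3'
  · rw [LinearMap.add_apply, LinearMap.add_apply, h4 x hx, h4' x hx]

theorem Gk_smul {N : AV} {U : Submodule ℚ N.H} (c : ℂ) {f : N.H →ₗ[ℚ] ℂ} (hf : Gk N U f) :
    Gk N U (c • f) := by
  obtain ⟨a, b, h1, h2, h3, h4⟩ := hf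
  refine ⟨c • a, c • b, by rw [h1, smul_add], H10_smul c h2, ?_, fun x hx => ?_⟩
  · rw [tw_smul]
    exact H10_smul _ h3
  · rw [LinearMap.smul_apply, LinearMap.smul_apply, h4 x hx]

/-- The criterion for kernels. -/
theorem isSub_ker (N : AV) {W : Type} [AddCommGroup W] [Module ℚ W] (R : N.H →ₗ[ℚ] W)
    (hR : Function.Surjective R) (h : ∀ μ : W →ₗ[ℚ] ℂ, Gk N (LinearMap.ker R) (μ ∘ₗ R)) :
    IsSub N (LinearMap.ker R) := by
  intro t ht
  by_contra hne
  obtain ⟨l, hl1, hl2⟩ := Submodule.exists_le_ker_of_notMem hne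
  obtain ⟨s, hs⟩ := R.exists_rightInverse_of_surjective (LinearMap.range_eq_top.2 hR)
  -- the functional
  let f : N.H →ₗ[ℚ] ℂ :=
    (AddMonoidHom.toRatLinearMap
      { toFun := fun v => ((l (N.per v) : ℝ) : ℂ)
        map_zero' := by simp
        map_add' := fun v w => by rw [map_add, map_add, Complex.ofReal_add] })
  have hf : ∀ v, f v = ((l (N.per v) : ℝ) : ℂ) := fun v => rfl
  have hf0 : ∀ x ∈ LinearMap.ker R, f x = 0 := by
    intro x hx
    rw [hf]
    have h1 : l (N.per x) = 0 := hl2 (Submodule.subset_span ⟨x, hx, rfl⟩)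
    rw [h1, Complex.ofReal_zero]
  have hfR : f = (f ∘ₗ s) ∘ₗ R := by
    refine LinearMap.ext fun x => ?_
    have h1 : x - s (R x) ∈ LinearMap.ker R := by
      rw [LinearMap.mem_ker, map_sub]
      have h2 : R (s (R x)) = R x := LinearMap.congr_fun hs (R x)
      rw [h2, sub_self]
    have h3 := hf0 _ h1
    rw [map_sub] at h3
    exact sub_eq_zero.1 h3
  obtain ⟨a, b, h1, ⟨la, h2⟩, ⟨lb, h3⟩, h4⟩ := h (f ∘ₗ s)
  rw [← hfR] at h1
  have hla : ∀ u : N.T, ((l u : ℝ) : ℂ) = la u + starRingEnd ℂ (lb u) := by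
    refine span_ind N (fun v => ?_) (fun u u' hu hu' => ?_) (fun r u hu => ?_)
    · rw [← hf, h1, LinearMap.add_apply, h2, ← h3, tw_apply]
      change _ = _ + starRingEnd ℂ (starRingEnd ℂ (b v))
      rw [Complex.conj_conj]
    · rw [map_add, Complex.ofReal_add, hu, hu', map_add, map_add, map_add]
      ring
    · rw [map_smul, smul_eq_mul, Complex.ofReal_mul, hu]
      have e1 : la (r • u) = (r : ℂ) * la u := by
        rw [← Complex.coe_smul, map_smul, smul_eq_mul]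
      have e2 : lb (r • u) = (r : ℂ) * lb u := by
        rw [← Complex.coe_smul, map_smul, smul_eq_mul]
      rw [e1, e2, map_mul, Complex.conj_ofReal]
      ring
  have hV : ∀ u ∈ Submodule.span ℝ (N.per '' (LinearMap.ker R : Set N.H)),
      la u = starRingEnd ℂ (lb u) := by
    intro u hu
    induction hu using Submodule.span_induction with
    | mem u hu =>
      obtain ⟨x, hx, rfl⟩ := hu
      rw [← h2, ← h3, h4 x hx, tw_apply]
      change _ = starRingEnd ℂ (starRingEnd ℂ (b x))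
      rw [Complex.conj_conj]
    | zero => simp
    | add u v _ _ hu hv => rw [map_add, map_add, map_add, hu, hv]
    | smul r u _ hu =>
      have e1 : la (r • u) = (r : ℂ) * la u := by
        rw [← Complex.coe_smul, map_smul, smul_eq_mul]
      have e2 : lb (r • u) = (r : ℂ) * lb u := by
        rw [← Complex.coe_smul, map_smul, smul_eq_mul]
      rw [e1, e2, map_mul, Complex.conj_ofReal, hu]
  have h5 := hla (Complex.I • t)
  rw [map_smul la, map_smul lb, smul_eq_mul, smul_eq_mul, map_mul, Complex.conj_I, ← hV t ht] at h5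
  apply hl1
  have h6 : ((l (Complex.I • t) : ℝ) : ℂ) = 0 := by
    rw [h5]
    ring
  exact_mod_cast h6

/-! ### The projection -/

variable {X : AV} {K : Subfield ℂ} {d r : ℕ} (β : Basis (Fin r) ℚ K) (P : Fin d → (X.H →ₗ[ℚ] K))

/-- The projection. -/
def R : (powAV X (Fin r)).H →ₗ[ℚ] (Fin d → K) :=
  LinearMap.pi fun j => ∑ m, LinearMap.mulLeft ℚ (β m) ∘ₗ P j ∘ₗ evI X m

theorem R_apply (x : (powAV X (Fin r)).H) (j : Fin d) :
    R β P x j = ∑ m, β m * P j (evI X m x) := by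
  unfold R
  rw [LinearMap.pi_apply, LinearMap.sum_apply]
  rfl

theorem R_sg (m : Fin r) (v : X.H) : R β P (sgI X m v) = β m • fun j => P j v := by
  funext j
  rw [R_apply, Finset.sum_eq_single m]
  · rw [evI_sgI, if_pos rfl]
    rfl
  · intro m' _ hm
    rw [evI_sgI, if_neg hm, map_zero, mul_zero]
  · intro h
    exact absurd (Finset.mem_univ _) h

theorem R_surj (hP : LinearIndependent ℂ (fun j => toC (P j))) :
    Function.Surjective (R β P) := by
  intro w
  let e := finBasis ℚ X.H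
  let a : Fin d → Fin (finrank ℚ X.H) → K := fun j b => P j (e b)
  have hli : LinearIndependent K a := by
    rw [Fintype.linearIndependent_iff]
    intro c hc j
    have h4 : ∑ j, ((c j : K) : ℂ) • toC (P j) = 0 := by
      refine e.ext fun b => ?_
      have h5 := congrArg (K.subtype) (congrFun hc b)
      rw [Finset.sum_apply, map_sum] at h5
      rw [LinearMap.sum_apply, LinearMap.zero_apply]
      exact h5
    have h6 := Fintype.linearIndependent_iff.1 hP _ h4 j
    exact Subtype.ext h6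
  have h2 : LinearMap.range (of a).mulVecLin = ⊤ := by
    apply Submodule.eq_top_of_finrank_eq
    have h3 : (of a).rank = Fintype.card (Fin d) := LinearIndependent.rank_matrix hli
    rw [finrank_fintype_fun_eq_card, ← h3]
    rfl
  obtain ⟨v, hv⟩ := LinearMap.range_eq_top.1 h2 w
  have hv' : ∀ j, ∑ b, v b * P j (e b) = w j := by
    intro j
    rw [← congrFun hv j, mulVecLin_apply]
    change _ = ∑ b, a j b * v b
    exact Finset.sum_congr rfl fun b _ => mul_comm _ _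
  obtain ⟨x, hx⟩ : ∃ x : (powAV X (Fin r)).H, ∀ m, evI X m x = ∑ b, β.repr (v b) m • e b :=
    ⟨fun m : Fin r => ∑ b, β.repr (v b) m • e b, fun m => rfl⟩
  refine ⟨x, ?_⟩
  funext j
  rw [R_apply]
  have h5 : ∀ m, β m * P j (evI X m x) = ∑ b, (β.repr (v b) m • β m) * P j (e b) := by
    intro m
    rw [hx, map_sum, Finset.mul_sum]
    refine Finset.sum_congr rfl fun b _ => ?_
    rw [map_smul, mul_smul_comm, smul_mul_assoc]
  rw [Finset.sum_congr rfl fun m _ => h5 m, Finset.sum_comm]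
  refine Eq.trans ?_ (hv' j)
  refine Finset.sum_congr rfl fun b _ => ?_
  rw [← Finset.sum_mul, β.sum_repr]

/-! ### Functionals on `K ^ d` -/

theorem Gk_all [NumberField K] (U : Submodule ℚ (powAV X (Fin r)).H)
    (h : ∀ (τ : K →+* ℂ) (j : Fin d),
      Gk (powAV X (Fin r)) U ((GJ12.em τ ∘ₗ LinearMap.proj j) ∘ₗ R β P))
    (μ : (Fin d → K) →ₗ[ℚ] ℂ) : Gk (powAV X (Fin r)) U (μ ∘ₗ R β P) := by
  have h1 : ∀ j, ∀ ν : K →ₗ[ℚ] ℂ, Gk (powAV X (Fin r)) U ((ν ∘ₗ LinearMap.proj j) ∘ₗ R β P) := by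
    intro j ν
    have h2 : ν ∈ Submodule.span ℂ (Set.range (GJ12.em : (K →+* ℂ) → K →ₗ[ℚ] ℂ)) := by
      have h3 := GJ12.emB (K := K).span_eq
      have h4 : (GJ12.emB : (K →+* ℂ) → K →ₗ[ℚ] ℂ) = GJ12.em := funext fun τ => GJ12.emB_apply τ
      rw [h4] at h3
      rw [h3]
      trivial
    induction h2 using Submodule.span_induction with
    | mem ν hν =>
      obtain ⟨τ, rfl⟩ := hν
      exact h τ j
    | zero => exact Gk_zero _ _
    | add a b _ _ ha hb => exact Gk_add ha hb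
    | smul c a _ ha => exact Gk_smul c ha
  have h2 : μ ∘ₗ R β P = ∑ j, ((μ ∘ₗ LinearMap.single ℚ (fun _ => K) j) ∘ₗ LinearMap.proj j) ∘ₗ
      R β P := by
    refine LinearMap.ext fun x => ?_
    rw [LinearMap.sum_apply, LinearMap.comp_apply]
    conv_lhs => rw [← Finset.univ_sum_single (R β P x)]
    rw [map_sum]
    rfl
  rw [h2]
  have h3 : ∀ s : Finset (Fin d), Gk (powAV X (Fin r)) U
      (∑ j ∈ s, ((μ ∘ₗ LinearMap.single ℚ (fun _ => K) j) ∘ₗ LinearMap.proj j) ∘ₗ R β P) := by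
    intro s
    induction s using Finset.induction_on with
    | empty =>
      rw [Finset.sum_empty]
      exact Gk_zero _ _
    | insert i s hi ih =>
      rw [Finset.sum_insert hi]
      exact Gk_add (h1 _ _) ih
  exact h3 _

theorem Gk_emb [NumberField K]
    (hD : ∀ σ j, ∃ c : Fin d → ℂ, IsD X σ (toC (P j)) (∑ i, c i • toC (P i)))
    (τ : K →+* ℂ) (j : Fin d) :
    Gk (powAV X (Fin r)) (LinearMap.ker (R β P)) ((GJ12.em τ ∘ₗ LinearMap.proj j) ∘ₗ R β P) := by
  obtain ⟨σ, rfl⟩ := GD6.exists_rs τ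
  obtain ⟨c, a, b, h1, h2, h3, h4⟩ := hD σ.symm j
  rw [RingEquiv.symm_symm] at h3 h4
  have hPj : ∀ v, ((P j v : K) : ℂ) = a v + b v := fun v => LinearMap.congr_fun h1 v
  have hc : ∀ v, ∑ i, c i * ((P i v : K) : ℂ) = a v - b v := by
    intro v
    have h := LinearMap.congr_fun h2 v
    rw [LinearMap.sum_apply] at h
    exact h
  refine ⟨∑ m, σ (β m) • (tw σ a ∘ₗ evI X m), ∑ m, σ (β m) • (tw σ b ∘ₗ evI X m), ?_, ?_, ?_, ?_⟩
  · refine LinearMap.ext fun x => ?_
    rw [LinearMap.add_apply, LinearMap.sum_apply, LinearMap.sum_apply, ← Finset.sum_add_distrib]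
    change σ ((R β P x j : K) : ℂ) = _
    rw [R_apply]
    have e1 : ((∑ m, β m * P j (evI X m x) : K) : ℂ) =
        ∑ m, ((β m : K) : ℂ) * ((P j (evI X m x) : K) : ℂ) := map_sum K.subtype _ _
    rw [e1, map_sum]
    refine Finset.sum_congr rfl fun m _ => ?_
    rw [map_mul, hPj, map_add, mul_add]
    rfl
  · exact H10_sum _ _ fun m _ => H10_smul _ (H10_comp h3 (evI_hom m))
  · rw [tw_sum]
    refine H10_sum _ _ fun m _ => ?_
    rw [tw_smul]
    exact H10_smul _ (H10_comp h4 (evI_hom m))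
  · intro x hx
    rw [← sub_eq_zero, LinearMap.sum_apply, LinearMap.sum_apply, ← Finset.sum_sub_distrib]
    have e1 : ∀ m, (σ (β m) • (tw σ a ∘ₗ evI X m)) x - (σ (β m) • (tw σ b ∘ₗ evI X m)) x =
        ∑ i, σ (c i) * σ (((β m : K) : ℂ) * ((P i (evI X m x) : K) : ℂ)) := by
      intro m
      change σ (β m) * σ (a (evI X m x)) - σ (β m) * σ (b (evI X m x)) = _
      rw [← mul_sub, ← map_sub, ← hc, ← map_mul, Finset.mul_sum, map_sum]
      refine Finset.sum_congr rfl fun i _ => ?_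
      rw [← map_mul]
      congr 1
      ring
    rw [Finset.sum_congr rfl fun m _ => e1 m, Finset.sum_comm]
    refine Finset.sum_eq_zero fun i _ => ?_
    rw [← Finset.mul_sum, ← map_sum]
    have e2 : ∑ m, ((β m : K) : ℂ) * ((P i (evI X m x) : K) : ℂ) = ((R β P x i : K) : ℂ) := by
      rw [R_apply]
      exact (map_sum K.subtype (fun m => β m * P i (evI X m x)) Finset.univ).symm
    rw [e2, LinearMap.mem_ker.1 hx]
    change σ (c i) * σ ((0 : K) : ℂ) = 0
    rw [ZeroMemClass.coe_zero, map_zero, mul_zero]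

/-! ### Homomorphisms -/

/-- The map from the factor. -/
def inX (X : AV) {K : Subfield ℂ} {r : ℕ} (β : Basis (Fin r) ℚ K) (a : K) :
    X.H →ₗ[ℚ] (powAV X (Fin r)).H := ∑ m : Fin r, (β.repr a m) • sgI X m

theorem inX_hom (a : K) : IsHom X (powAV X (Fin r)) (inX X β a) :=
  WJ4.hom_sum _ _ fun _ _ => WJ4.hom_smul _ (sgI_hom _)

theorem R_inX (a : K) (v : X.H) : R β P (inX X β a v) = a • fun j => P j v := by
  unfold inX
  rw [LinearMap.sum_apply, map_sum]
  have h1 : ∀ m, R β P (((β.repr a m) • sgI X m) v) =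
      ((β.repr a m) • β m) • fun j => P j v := by
    intro m
    rw [LinearMap.smul_apply, map_smul, R_sg, smul_assoc]
  rw [Finset.sum_congr rfl fun m _ => h1 m, ← Finset.sum_smul, β.sum_repr]

/-- The multiplication on the power. -/
def mulX (X : AV) {K : Subfield ℂ} {r : ℕ} (β : Basis (Fin r) ℚ K) (a : K) :
    (powAV X (Fin r)).H →ₗ[ℚ] (powAV X (Fin r)).H :=
  ∑ m : Fin r, inX X β (a * β m) ∘ₗ evI X m

theorem mulX_hom (a : K) : IsHom (powAV X (Fin r)) (powAV X (Fin r)) (mulX X β a) :=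
  WJ4.hom_sum _ _ fun _ _ => IsHom.comp (inX_hom β _) (evI_hom _)

theorem R_mulX (a : K) (x : (powAV X (Fin r)).H) : R β P (mulX X β a x) = a • R β P x := by
  unfold mulX
  rw [LinearMap.sum_apply, map_sum]
  have h1 : ∀ m, R β P ((inX X β (a * β m) ∘ₗ evI X m) x) =
      (a * β m) • fun j => P j (evI X m x) := by
    intro m
    rw [LinearMap.comp_apply, R_inX]
  rw [Finset.sum_congr rfl fun m _ => h1 m]
  funext j
  rw [Finset.sum_apply, Pi.smul_apply, R_apply, smul_eq_mul, Finset.mul_sum]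
  refine Finset.sum_congr rfl fun m _ => ?_
  rw [Pi.smul_apply, smul_eq_mul, mul_assoc]

end GD4b

open GD4b in
/-- **D4b.** -/
theorem yk_of : St_yk := by
  intro X K hK d P hli hD
  have _ := hK.fin
  have _ : NumberField K := ⟨⟩
  obtain ⟨r, β⟩ : ∃ r, Nonempty (Basis (Fin r) ℚ K) := ⟨_, ⟨finBasis ℚ K⟩⟩
  obtain ⟨β⟩ := β
  obtain ⟨Y, b, hb⟩ := quot_of (powAV X (Fin r)) (Fin d → K) (GD4b.R β P)
    (R_surj β P hli) (isSub_ker _ _ (R_surj β P hli) (Gk_all β P _ fun τ j => Gk_emb β P hD τ j))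
  have hsurj : Function.Surjective (b.symm.toLinearMap ∘ₗ GD4b.R β P) :=
    b.symm.surjective.comp (R_surj β P hli)
  refine ⟨Y, b, fun a => ?_, fun a => ?_⟩
  · refine qhom_of _ Y Y _ hsurj hb _ ?_
    have h4 : (b.symm.toLinearMap ∘ₗ scK K (Fin d) a ∘ₗ b.toLinearMap) ∘ₗ
        (b.symm.toLinearMap ∘ₗ GD4b.R β P) = (b.symm.toLinearMap ∘ₗ GD4b.R β P) ∘ₗ mulX X β a := by
      refine LinearMap.ext fun x => ?_
      change b.symm (scK K (Fin d) a (b (b.symm (GD4b.R β P x)))) =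
        b.symm (GD4b.R β P (mulX X β a x))
      rw [b.apply_symm_apply, R_mulX]
      rfl
    rw [h4]
    exact IsHom.comp hb (mulX_hom β a)
  · have h4 : b.symm.toLinearMap ∘ₗ scK K (Fin d) a ∘ₗ LinearMap.pi P =
        (b.symm.toLinearMap ∘ₗ GD4b.R β P) ∘ₗ inX X β a := by
      refine LinearMap.ext fun v => ?_
      change b.symm (scK K (Fin d) a (fun j => P j v)) = b.symm (GD4b.R β P (inX X β a v))
      rw [R_inX]
      rfl
    rw [h4]
    exact IsHom.comp hb (inX_hom β a)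

end

end Pool.Agent.NH32
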