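import Mathlib
import Pool.Agent.NH32.GtD

/-!
# Project G, stage 3: the signature
-/

set_option linter.unusedSectionVars false

namespace Pool.Agent.NH32

open Matrix Module Pool.Agent.W437.HC Pool.Agent.W437.HD Pool.Agent.TH504.CB Pool.Agent.Y90
open Pool.Agent.W548.Odd hiding cv
open scoped ComplexOrder

noncomputable section

namespace GD5

variable {d : ℕ}

theorem quad (G : Matrix (Fin d) (Fin d) ℂ) (hG : G.PosDef) (r : Fin d → ℝ) (hr : ∀ j, r j ≠ 0)
    (s : ℝ) (c : Fin d → ℂ) (hc0 : c ≠ 0)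
    (hc : (G * diagonal fun j => (r j : ℂ)) *ᵥ c = (s : ℂ) • c) :
    0 < s * ∑ j, r j * ‖c j‖ ^ 2 := by
  set x : Fin d → ℂ := fun j => (r j : ℂ) * c j with hx
  have hx1 : (diagonal fun j => (r j : ℂ)) *ᵥ c = x := by
    funext j
    rw [mulVec_diagonal]
  have hx0 : x ≠ 0 := by
    intro h
    apply hc0
    funext j
    have h1 := congrFun h j
    simp only [hx, Pi.zero_apply, mul_eq_zero] at h1
    rcases h1 with h1 | h1
    · exact absurd (Complex.ofReal_eq_zero.1 h1) (hr j)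
    · exact h1
  have h1 : G *ᵥ x = (s : ℂ) • c := by
    rw [← hx1, mulVec_mulVec, hc]
  have h2 := hG.dotProduct_mulVec_pos hx0
  rw [h1] at h2
  have h3 : star x ⬝ᵥ ((s : ℂ) • c) = ((s * ∑ j, r j * ‖c j‖ ^ 2 : ℝ) : ℂ) := by
    rw [dotProduct_smul, smul_eq_mul]
    push_cast
    congr 1
    unfold dotProduct
    refine Finset.sum_congr rfl fun j _ => ?_
    rw [Pi.star_apply, hx, star_mul', mul_assoc]
    have h4 : star (c j) * c j = ((‖c j‖ : ℂ)) ^ 2 := by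
      rw [← starRingEnd_apply, Complex.conj_mul']
    rw [h4]
    congr 1
    exact Complex.conj_ofReal _
  rw [h3] at h2
  exact_mod_cast h2

theorem sig_aux (G : Matrix (Fin d) (Fin d) ℂ) (hG : G.PosDef) (r : Fin d → ℝ)
    (hr : ∀ j, r j ≠ 0)
    (h : (G * diagonal fun j => (r j : ℂ)) * (G * diagonal fun j => (r j : ℂ)) = 1) :
    trace (G * diagonal fun j => (r j : ℂ)) = ∑ j, ((if 0 < r j then 1 else -1 : ℤ) : ℂ) := by
  have hq := quad G hG r hr
  generalize (G * diagonal fun j => (r j : ℂ)) = C at h hq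
  -- the eigenspaces
  have key : ∀ s : ℂ, s * s = 1 → ∃ E : Submodule ℂ (Fin d → ℂ), (∀ c, c ∈ E ↔ C *ᵥ c = s • c) ∧
      2 * (finrank ℂ E : ℂ) = d + s * trace C := by
    intro s hs
    let E : Submodule ℂ (Fin d → ℂ) := LinearMap.ker (toLin' C - s • LinearMap.id)
    have hE : ∀ c, c ∈ E ↔ C *ᵥ c = s • c := by
      intro c
      rw [LinearMap.mem_ker, LinearMap.sub_apply, toLin'_apply, LinearMap.smul_apply,
        LinearMap.id_apply, sub_eq_zero]
    refine ⟨E, hE, ?_⟩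
    have hp : LinearMap.IsProj E (toLin' ((1 / 2 : ℂ) • (1 + s • C))) := by
      constructor
      · intro x
        rw [hE, toLin'_apply, mulVec_mulVec, ← smul_mulVec]
        congr 1
        rw [Matrix.mul_smul, mul_add, mul_one, Matrix.mul_smul, h, smul_comm s]
        congr 1
        rw [smul_add, smul_smul, hs, one_smul]
        abel
      · intro x hx
        rw [hE] at hx
        rw [toLin'_apply, smul_mulVec, add_mulVec, one_mulVec, smul_mulVec, hx, smul_smul, hs,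
          one_smul, ← two_smul ℂ x, smul_smul]
        norm_num
    have h1 := hp.trace
    rw [Matrix.trace_toLin'_eq, trace_smul, trace_add, trace_one, trace_smul, Fintype.card_fin,
      smul_eq_mul, smul_eq_mul] at h1
    rw [← h1]
    ring
  obtain ⟨E₁, hE₁, ht₁⟩ := key 1 (one_mul 1)
  obtain ⟨E₂, hE₂, ht₂⟩ := key (-1) (by ring)
  -- restriction to coordinates
  have hinj : ∀ (E : Submodule ℂ (Fin d → ℂ)) (p : Fin d → Prop) [DecidablePred p],
      (∀ c ∈ E, (∀ j, p j → c j = 0) → c = 0) →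
      finrank ℂ E ≤ (Finset.univ.filter p).card := by
    intro E p _ hE
    let f : E →ₗ[ℂ] ({j // p j} → ℂ) := (LinearMap.funLeft ℂ ℂ Subtype.val).comp E.subtype
    have hf : Function.Injective f := by
      rw [injective_iff_map_eq_zero]
      intro c hc
      apply Subtype.ext
      refine hE c c.2 fun j hj => ?_
      exact congrFun hc ⟨j, hj⟩
    have h1 := LinearMap.finrank_le_finrank_of_injective hf
    rwa [Module.finrank_fintype_fun_eq_card, Fintype.card_subtype] at h1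
  have hb₁ : finrank ℂ E₁ ≤ (Finset.univ.filter fun j => 0 < r j).card := by
    apply hinj
    intro c hc h0
    by_contra hne
    rw [hE₁] at hc
    have h1 := hq 1 c hne (by rw [hc]; norm_num)
    rw [one_mul] at h1
    have h2 : ∑ j, r j * ‖c j‖ ^ 2 ≤ 0 := by
      refine Finset.sum_nonpos fun j _ => ?_
      by_cases hj : 0 < r j
      · rw [h0 j hj, norm_zero]
        norm_num
      · exact mul_nonpos_of_nonpos_of_nonneg (not_lt.1 hj) (by positivity)
    linarith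
  have hb₂ : finrank ℂ E₂ ≤ (Finset.univ.filter fun j => ¬ 0 < r j).card := by
    apply hinj
    intro c hc h0
    by_contra hne
    rw [hE₂] at hc
    have h1 := hq (-1) c hne (by rw [hc]; norm_num)
    have h2 : 0 ≤ ∑ j, r j * ‖c j‖ ^ 2 := by
      refine Finset.sum_nonneg fun j _ => ?_
      by_cases hj : 0 < r j
      · positivity
      · rw [h0 j hj, norm_zero]
        norm_num
    linarith
  have hcard := Finset.card_filter_add_card_filter_not (s := Finset.univ) (fun j => 0 < r j)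
  rw [Finset.card_univ, Fintype.card_fin] at hcard
  have hsum : finrank ℂ E₁ + finrank ℂ E₂ = d := by
    have h1 : ((2 * (finrank ℂ E₁ + finrank ℂ E₂) : ℕ) : ℂ) = ((2 * d : ℕ) : ℂ) := by
      push_cast
      linear_combination ht₁ + ht₂
    have h2 : 2 * (finrank ℂ E₁ + finrank ℂ E₂) = 2 * d := by exact_mod_cast h1
    omega
  have e₁ : finrank ℂ E₁ = (Finset.univ.filter fun j => 0 < r j).card := by omega
  have e₂ : finrank ℂ E₂ = (Finset.univ.filter fun j => ¬ 0 < r j).card := by omega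
  have h1 : trace C = (finrank ℂ E₁ : ℂ) - finrank ℂ E₂ := by
    linear_combination (-1 / 2 : ℂ) * ht₁ + (1 / 2 : ℂ) * ht₂
  rw [h1, e₁, e₂, ← Int.cast_sum, Finset.sum_ite, Finset.sum_const, Finset.sum_const]
  simp only [nsmul_eq_mul, mul_one, mul_neg, Int.cast_add, Int.cast_neg, Int.cast_natCast]
  ring

theorem sig_core {n : Type} [Fintype n] [DecidableEq n] (H : Matrix n n ℂ)
    (W : Matrix n (Fin d) ℂ) (hW : Function.Injective W.mulVec) (r : Fin d → ℝ)
    (hr : ∀ j, r j ≠ 0) (hH : H = W * diagonal (fun j => (r j : ℂ)) * Wᴴ)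
    (h3 : H * H * H = H) : trace H = ∑ j, ((if 0 < r j then 1 else -1 : ℤ) : ℂ) := by
  have hG : (Wᴴ * W).PosDef := Matrix.PosDef.conjTranspose_mul_self W hW
  set G := Wᴴ * W with hGd
  set R : Matrix (Fin d) (Fin d) ℂ := diagonal fun j => (r j : ℂ) with hR
  have hGu : IsUnit G := hG.isUnit
  have hRu : IsUnit R := by
    rw [Matrix.isUnit_iff_isUnit_det, hR, det_diagonal, isUnit_iff_ne_zero]
    exact Finset.prod_ne_zero_iff.2 fun j _ => Complex.ofReal_ne_zero.2 (hr j)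
  have h4 : (G * R) * (G * R) * (G * R) * G = (G * R) * G := by
    have h5 : Wᴴ * (H * H * H) * W = Wᴴ * H * W := by rw [h3]
    rw [hH] at h5
    have h6 : Wᴴ * (W * R * Wᴴ * (W * R * Wᴴ) * (W * R * Wᴴ)) * W =
        (G * R) * (G * R) * (G * R) * G := by
      rw [hGd]
      simp only [Matrix.mul_assoc]
    have h7 : Wᴴ * (W * R * Wᴴ) * W = (G * R) * G := by
      rw [hGd]
      simp only [Matrix.mul_assoc]
    rw [h6, h7] at h5
    exact h5
  have h5 : (G * R) * (G * R) * (G * R) = G * R := hGu.mul_right_cancel h4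
  have h6 : (G * R) * (G * R) = 1 := by
    refine (hGu.mul hRu).mul_right_cancel ?_
    rw [h5, one_mul]
  rw [← sig_aux G hG r hr h6, hH, trace_mul_comm, ← Matrix.mul_assoc]


variable {g : ℕ} {Z : Matrix (Fin g) (Fin g) ℂ} {y yi : Matrix (Fin g ⊕ Fin g) (Fin g ⊕ Fin g) ℝ}

theorem DZ_y (hZ : PM Z) (hy : YD Z y yi) :
    (DZ Z)ᵀ * (cm y)ᵀ = (-Complex.I) • (Om g ℂ * cm yi) := by
  have hu := hZ.det
  have hJ2 : cm (JR Z) * cm (JR Z) = -1 := by
    rw [← cm_mul, JR_sq hu, cm_neg, cm_one]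
  have hOS : Om g ℂ * cm (JR Z) = (cm y)ᵀ * cm y := by
    rw [← cm_Om, ← cm_mul, hy.pol, cm_mul, cm_transpose]
  have hJO : (cm (JR Z))ᵀ * Om g ℂ = -(Om g ℂ * cm (JR Z)) := by
    have h1 := JR_sp hZ.symm
    have h2 : (JR Z)ᵀ * Om g ℝ = -(Om g ℝ * JR Z) := eq_neg_of_add_eq_zero_left h1
    rw [← cm_Om, ← cm_transpose, ← cm_mul, h2, cm_neg, cm_mul]
  have h3 : (cm (JR Z))ᵀ * (cm y)ᵀ = Om g ℂ * cm yi := by
    calc (cm (JR Z))ᵀ * (cm y)ᵀ = (cm (JR Z))ᵀ * ((cm y)ᵀ * (cm y * cm yi)) := by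
          rw [hy.cr, mul_one]
      _ = (cm (JR Z))ᵀ * ((cm y)ᵀ * cm y) * cm yi := by noncomm_ring
      _ = ((cm (JR Z))ᵀ * Om g ℂ) * cm (JR Z) * cm yi := by rw [← hOS]; noncomm_ring
      _ = -(Om g ℂ * (cm (JR Z) * cm (JR Z)) * cm yi) := by rw [hJO]; noncomm_ring
      _ = Om g ℂ * cm yi := by rw [hJ2]; noncomm_ring
  have h4 : (DZ Z)ᵀ = (-Complex.I) • (cm (JR Z))ᵀ := by
    change ((-Complex.I) • cm (JR Z))ᵀ = _
    rw [transpose_smul]
  rw [h4, Matrix.smul_mul, h3]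

end GD5

open GD5

/-- **D5.** The signature. -/
theorem sig_of : St_sig := by
  intro g Z y yi hZ hy K hK ε hε d v κ hvK hv hκ hN σ
  obtain ⟨hεC, hεε, -, -, -⟩ := hε
  have hu := hZ.det
  obtain ⟨τ, hτ⟩ : ∃ τ : ℂ ≃+* ℂ, τ = σ.symm := ⟨_, rfl⟩
  have hστ : ∀ x, σ (τ x) = x := by
    intro x
    rw [hτ]
    exact σ.apply_symm_apply x
  have hτσ : ∀ x, τ (σ x) = x := by
    intro x
    rw [hτ]
    exact σ.symm_apply_apply x
  set N : Matrix (Fin g ⊕ Fin g) (Fin g ⊕ Fin g) ℂ := (cm y)ᵀ * ε * (cm yi)ᵀ with hNd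
  have hNN : N * N = N := by
    calc N * N = (cm y)ᵀ * ε * ((cm yi)ᵀ * (cm y)ᵀ) * ε * (cm yi)ᵀ := by rw [hNd]; noncomm_ring
      _ = (cm y)ᵀ * (ε * ε) * (cm yi)ᵀ := by rw [hy.crT]; noncomm_ring
      _ = N := by rw [hεε]
  have hDy : Dy Z y yi σ = (cm yi)ᵀ * (DS Z σ)ᵀ * (cm y)ᵀ := by
    unfold Dy
    rw [transpose_mul, transpose_mul, ← mul_assoc]
  have hcomm : (DS Z σ)ᵀ * N = N * (DS Z σ)ᵀ := by
    have h1 : Dy Z y yi σ * ε = ε * Dy Z y yi σ := hεC _ (hy.mem_of _ (DS_mem σ))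
    rw [hDy] at h1
    calc (DS Z σ)ᵀ * N = ((cm y)ᵀ * (cm yi)ᵀ) * (DS Z σ)ᵀ * ((cm y)ᵀ * ε * (cm yi)ᵀ) := by
          rw [hy.clT, one_mul]
      _ = (cm y)ᵀ * ((cm yi)ᵀ * (DS Z σ)ᵀ * (cm y)ᵀ * ε) * (cm yi)ᵀ := by noncomm_ring
      _ = (cm y)ᵀ * (ε * ((cm yi)ᵀ * (DS Z σ)ᵀ * (cm y)ᵀ)) * (cm yi)ᵀ := by rw [h1]
      _ = N * (DS Z σ)ᵀ * ((cm y)ᵀ * (cm yi)ᵀ) := by rw [hNd]; noncomm_ring
      _ = N * (DS Z σ)ᵀ := by rw [hy.clT, mul_one]
  set N' : Matrix (Fin g ⊕ Fin g) (Fin g ⊕ Fin g) ℂ := N.map τ with hN'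
  have hNN' : N' * N' = N' := by rw [hN', ← Matrix.map_mul, hNN]
  have hDτ : ((DS Z σ)ᵀ).map τ = (DZ Z)ᵀ := by
    ext i j
    exact hτσ _
  have hcomm' : (DZ Z)ᵀ * N' = N' * (DZ Z)ᵀ := by
    rw [← hDτ, hN', ← Matrix.map_mul, ← Matrix.map_mul, hcomm]
  set v' : Fin d → (Fin g ⊕ Fin g) → ℂ := fun j b => τ (v j b) with hv'
  have hκ' : ∀ j, τ (κ j) = ((τ (κ j)).im : ℂ) * Complex.I := by
    intro j
    have h1 := hK.cc τ (κ j) (hκ j).1
    rw [(hκ j).2.1, map_neg] at h1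
    have h2 : (τ (κ j)).re = 0 := by
      have h3 := congrArg Complex.re h1
      have h4 : (cj (τ (κ j))).re = (τ (κ j)).re := rfl
      rw [h4, Complex.neg_re] at h3
      linarith
    apply Complex.ext <;> simp [h2]
  set r : Fin d → ℝ := fun j => (τ (κ j)).im with hrd
  have hr : ∀ j, r j ≠ 0 := by
    intro j h0
    have h1 := hκ' j
    have h2 : (τ (κ j)).im = 0 := h0
    rw [h2, Complex.ofReal_zero, zero_mul] at h1
    exact (hκ j).2.2 ((map_eq_zero τ).1 h1)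
  set V : Matrix (Fin g ⊕ Fin g) (Fin d) ℂ := of fun b j => v' j b with hV
  have hNO : N' * Om g ℂ = Complex.I • (V * diagonal (fun j => (r j : ℂ)) * Vᴴ) := by
    have h1 : N' * Om g ℂ = (N * Om g ℂ).map τ := by
      have h2 : (Om g ℂ).map τ = Om g ℂ := Om_aut (τ : ℂ →+* ℂ)
      rw [Matrix.map_mul, h2]
    rw [h1, hN]
    ext a b
    rw [Matrix.map_apply, Matrix.sum_apply, map_sum, Matrix.smul_apply, Matrix.mul_apply,
      smul_eq_mul, Finset.mul_sum]
    refine Finset.sum_congr rfl fun j _ => ?_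
    rw [Matrix.smul_apply, vecMulVec_apply, smul_eq_mul, map_mul, map_mul, hκ' j, mul_diagonal,
      conjTranspose_apply, hV, of_apply, of_apply]
    have h3 : τ (star (v j) b) = star (v' j b) := hK.cc τ (v j b) (hvK j b)
    rw [h3]
    ring
  set W : Matrix (Fin g ⊕ Fin g) (Fin d) ℂ := (cm yi)ᵀ * V with hW
  set H : Matrix (Fin g ⊕ Fin g) (Fin g ⊕ Fin g) ℂ := (cm yi)ᵀ * (N' * (DZ Z)ᵀ) * (cm y)ᵀ with hH
  have hHW : H = W * diagonal (fun j => (r j : ℂ)) * Wᴴ := by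
    have h1 : H = (-Complex.I) • ((cm yi)ᵀ * (N' * Om g ℂ) * cm yi) := by
      rw [hH, Matrix.mul_assoc, Matrix.mul_assoc, DZ_y hZ hy, Matrix.mul_smul, Matrix.mul_smul,
        Matrix.mul_assoc, Matrix.mul_assoc]
    have h2 : ((cm yi)ᵀ)ᴴ = cm yi := by
      rw [← cm_conjT, conjTranspose_conjTranspose]
    rw [h1, hNO, hW, conjTranspose_mul, h2, Matrix.mul_smul, Matrix.smul_mul, smul_smul]
    have h3 : -Complex.I * Complex.I = 1 := by simp
    rw [h3, one_smul]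
    simp only [Matrix.mul_assoc]
  have hDD : (DZ Z)ᵀ * (DZ Z)ᵀ = 1 := by
    rw [← transpose_mul, DZ_sq hu, transpose_one]
  have hH3 : H * H * H = H := by
    have h1 : H * H = (cm yi)ᵀ * N' * (cm y)ᵀ := by
      calc H * H = (cm yi)ᵀ * (N' * (DZ Z)ᵀ) * ((cm y)ᵀ * (cm yi)ᵀ) * (N' * (DZ Z)ᵀ) *
            (cm y)ᵀ := by rw [hH]; noncomm_ring
        _ = (cm yi)ᵀ * N' * ((DZ Z)ᵀ * N') * (DZ Z)ᵀ * (cm y)ᵀ := by
            rw [hy.clT]; noncomm_ring
        _ = (cm yi)ᵀ * (N' * N') * ((DZ Z)ᵀ * (DZ Z)ᵀ) * (cm y)ᵀ := by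
            rw [hcomm']; noncomm_ring
        _ = (cm yi)ᵀ * N' * (cm y)ᵀ := by rw [hNN', hDD, mul_one]
    calc H * H * H = (cm yi)ᵀ * N' * ((cm y)ᵀ * (cm yi)ᵀ) * (N' * (DZ Z)ᵀ) * (cm y)ᵀ := by
          rw [h1, hH]; noncomm_ring
      _ = (cm yi)ᵀ * ((N' * N') * (DZ Z)ᵀ) * (cm y)ᵀ := by rw [hy.clT]; noncomm_ring
      _ = H := by rw [hNN']
  have hWinj : Function.Injective W.mulVec := by
    have h1 : LinearIndependent ℂ v' := by
      rw [Fintype.linearIndependent_iff] at hv ⊢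
      intro c hc j
      have h2 : ∑ i, σ (c i) • v i = 0 := by
        funext b
        have h3 := congrArg σ (congrFun hc b)
        rw [Finset.sum_apply, map_sum] at h3
        rw [Finset.sum_apply]
        refine Eq.trans (Finset.sum_congr rfl fun i _ => ?_) (h3.trans (map_zero σ))
        rw [Pi.smul_apply, Pi.smul_apply, smul_eq_mul, smul_eq_mul, map_mul, hv', hστ]
      have h4 := hv _ h2 j
      exact (map_eq_zero σ).1 h4
    have h2 : Function.Injective V.mulVec := by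
      rw [Matrix.mulVec_injective_iff]
      exact h1
    intro a b hab
    have h3 : (cm y)ᵀ *ᵥ (W *ᵥ a) = (cm y)ᵀ *ᵥ (W *ᵥ b) := by
      have h4 : W *ᵥ a = W *ᵥ b := hab
      rw [h4]
    rw [mulVec_mulVec, mulVec_mulVec, hW, ← Matrix.mul_assoc, hy.clT, Matrix.one_mul] at h3
    exact h2 h3
  have hfin := sig_core H W hWinj r hr hHW hH3
  have htr : trace (Dy Z y yi σ * ε) = σ (trace H) := by
    have h1 : trace (Dy Z y yi σ * ε) = trace ((DS Z σ)ᵀ * N) := by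
      rw [hDy, Matrix.mul_assoc, Matrix.mul_assoc, trace_mul_comm, hNd]
      simp only [Matrix.mul_assoc]
    have h2 : trace H = trace ((DZ Z)ᵀ * N') := by
      rw [hH, trace_mul_comm, ← Matrix.mul_assoc, hy.clT, Matrix.one_mul, hcomm']
    have h3 : (DS Z σ)ᵀ * N = ((DZ Z)ᵀ * N').map σ := by
      rw [Matrix.map_mul]
      congr 1
      ext i j
      exact (hστ _).symm
    rw [h1, h2, h3]
    unfold trace
    rw [map_sum]
    rfl
  rw [htr, hfin, map_sum]
  refine Finset.sum_congr rfl fun j _ => ?_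
  rw [map_intCast]
  congr 1
  unfold sgf
  rw [← hτ]

end

end Pool.Agent.NH32
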