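import Mathlib
import Pool.Agent.NH32.GtD
import Pool.Agent.NH32.WJ3
import Pool.Agent.Y4.Aut

/-!
# Project G, stage 3: split Weil classes are Hodge classes
-/

set_option linter.unusedSectionVars false

namespace Pool.Agent.NH32

open Matrix Module Pool.Agent.W437.HC Pool.Agent.W437.HD Pool.Agent.TH504.CB Pool.Agent.Y90
open Pool.Agent.H204R3.CM (IsHodge)

noncomputable section

namespace GD7a

/-! ### Linear algebra -/

theorem finrank_ker_le {d : ℕ} (f : (Fin d ⊕ Fin d → ℂ) →ₗ[ℂ] (Fin d ⊕ Fin d → ℂ))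
    (h : ∀ x, f x = 0 → (∀ j, x (Sum.inl j) = x (Sum.inr j)) → x = 0) :
    finrank ℂ (LinearMap.ker f) ≤ d := by
  let g : LinearMap.ker f →ₗ[ℂ] (Fin d → ℂ) :=
    { toFun := fun x j => x.1 (Sum.inl j) - x.1 (Sum.inr j)
      map_add' := fun x y => by
        funext j
        simp only [Submodule.coe_add, Pi.add_apply]
        ring
      map_smul' := fun c x => by
        funext j
        simp only [Submodule.coe_smul, Pi.smul_apply, smul_eq_mul, RingHom.id_apply]
        ring }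
  have hg : Function.Injective g := by
    rw [← LinearMap.ker_eq_bot, LinearMap.ker_eq_bot']
    intro x hx
    apply Subtype.ext
    refine h x.1 x.2 fun j => ?_
    have := congrFun hx j
    exact sub_eq_zero.1 this
  have := LinearMap.finrank_le_finrank_of_injective hg
  simpa using this

theorem det_rot {d : ℕ} (M : Matrix (Fin d ⊕ Fin d) (Fin d ⊕ Fin d) ℂ) (hM : M * M = -1)
    (h1 : ∀ x, M *ᵥ x = Complex.I • x → (∀ j, x (Sum.inl j) = x (Sum.inr j)) → x = 0)
    (h2 : ∀ x, M *ᵥ x = (-Complex.I) • x → (∀ j, x (Sum.inl j) = x (Sum.inr j)) → x = 0)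
    (x y : ℝ) (h : x ^ 2 + y ^ 2 = 1) :
    det ((x : ℂ) • (1 : Matrix (Fin d ⊕ Fin d) (Fin d ⊕ Fin d) ℂ) + (y : ℂ) • M) = 1 := by
  let f : (Fin d ⊕ Fin d → ℂ) →ₗ[ℂ] (Fin d ⊕ Fin d → ℂ) := toLin' M
  have hf : ∀ x, f x = M *ᵥ x := fun x => toLin'_apply M x
  have hff : ∀ x, M *ᵥ (M *ᵥ x) = -x := fun x => by
    rw [mulVec_mulVec, hM, neg_mulVec, one_mulVec]
  let P := LinearMap.ker (f - Complex.I • LinearMap.id)
  let Q := LinearMap.ker (f - (-Complex.I) • LinearMap.id)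
  have hP : ∀ x, x ∈ P ↔ M *ᵥ x = Complex.I • x := fun x => by
    rw [LinearMap.mem_ker, LinearMap.sub_apply, hf, sub_eq_zero, LinearMap.smul_apply,
      LinearMap.id_apply]
  have hQ : ∀ x, x ∈ Q ↔ M *ᵥ x = (-Complex.I) • x := fun x => by
    rw [LinearMap.mem_ker, LinearMap.sub_apply, hf, sub_eq_zero, LinearMap.smul_apply,
      LinearMap.id_apply]
  have hP1 : finrank ℂ P ≤ d := finrank_ker_le _ fun x hx => h1 x ((hP x).1 hx)
  have hQ1 : finrank ℂ Q ≤ d := finrank_ker_le _ fun x hx => h2 x ((hQ x).1 hx)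
  have hc : IsCompl P Q := by
    refine IsCompl.of_eq ?_ ?_
    · rw [eq_bot_iff]
      rintro x ⟨hx1, hx2⟩
      have e1 := (hP x).1 hx1
      have e2 := (hQ x).1 hx2
      have e3 : (2 * Complex.I) • x = 0 := by
        rw [two_mul, add_smul]
        nth_rewrite 1 [← e1]
        rw [e2, neg_smul, neg_add_cancel]
      rcases smul_eq_zero.1 e3 with h | h
      · simp [Complex.I_ne_zero] at h
      · exact h
    · rw [eq_top_iff]
      intro x _
      have e1 : x = (2 : ℂ)⁻¹ • (x - Complex.I • M *ᵥ x) + (2 : ℂ)⁻¹ • (x + Complex.I • M *ᵥ x) := by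
        rw [← smul_add, sub_add_add_cancel, ← two_smul ℂ x, smul_smul, inv_mul_cancel₀ two_ne_zero,
          one_smul]
      rw [e1]
      refine Submodule.add_mem_sup (Submodule.smul_mem _ _ ?_) (Submodule.smul_mem _ _ ?_)
      · rw [hP, mulVec_sub, mulVec_smul, hff, smul_sub, smul_smul, Complex.I_mul_I, smul_neg,
          neg_smul, one_smul]
        abel
      · rw [hQ, mulVec_add, mulVec_smul, hff, smul_add, smul_smul, neg_mul, Complex.I_mul_I,
          smul_neg, neg_neg, one_smul, neg_smul]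
        abel
  have hd : finrank ℂ P + finrank ℂ Q = d + d := by
    have := Submodule.finrank_add_eq_of_isCompl hc
    rw [this]
    simp
  have hP2 : finrank ℂ P = d := by omega
  have hQ2 : finrank ℂ Q = d := by omega
  let e := Submodule.prodEquivOfIsCompl P Q hc
  have key : toLin' ((x : ℂ) • (1 : Matrix (Fin d ⊕ Fin d) (Fin d ⊕ Fin d) ℂ) + (y : ℂ) • M) =
      e.toLinearMap ∘ₗ (LinearMap.prodMap (((x : ℂ) + y * Complex.I) • LinearMap.id)
        (((x : ℂ) - y * Complex.I) • LinearMap.id)) ∘ₗ e.symm.toLinearMap := by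
    have h3 : toLin' ((x : ℂ) • (1 : Matrix (Fin d ⊕ Fin d) (Fin d ⊕ Fin d) ℂ) + (y : ℂ) • M) ∘ₗ
        e.toLinearMap = e.toLinearMap ∘ₗ
        (LinearMap.prodMap (((x : ℂ) + y * Complex.I) • LinearMap.id)
        (((x : ℂ) - y * Complex.I) • LinearMap.id)) := by
      refine LinearMap.ext fun p => ?_
      rw [LinearMap.comp_apply, LinearMap.comp_apply, LinearEquiv.coe_coe, toLin'_apply,
        Submodule.coe_prodEquivOfIsCompl', LinearMap.prodMap_apply,
        Submodule.coe_prodEquivOfIsCompl', add_mulVec, smul_mulVec, smul_mulVec, one_mulVec,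
        mulVec_add, (hP _).1 p.1.2, (hQ _).1 p.2.2]
      rw [LinearMap.smul_apply, LinearMap.smul_apply, LinearMap.id_apply, LinearMap.id_apply,
        Submodule.coe_smul, Submodule.coe_smul]
      funext k
      simp only [Pi.add_apply, Pi.smul_apply, smul_eq_mul]
      ring
    rw [← LinearMap.comp_assoc, ← h3, LinearMap.comp_assoc]
    refine LinearMap.ext fun p => ?_
    simp
  rw [← LinearMap.det_toLin', key, LinearMap.det_conj, LinearMap.det_prodMap, LinearMap.det_smul,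
    LinearMap.det_smul, LinearMap.det_id, LinearMap.det_id, hP2, hQ2, mul_one, mul_one, ← mul_pow]
  have : ((x : ℂ) + y * Complex.I) * ((x : ℂ) - y * Complex.I) = ((x ^ 2 + y ^ 2 : ℝ) : ℂ) := by
    push_cast
    linear_combination (-(y : ℂ) ^ 2) * Complex.I_mul_I
  rw [this, h, Complex.ofReal_one, one_pow]

/-! ### Embeddings of the field -/

variable {K : Subfield ℂ} (hK : CMF K)

include hK in
theorem emb_cj (φ : K →ₐ[ℚ] ℂ) (z : K) : φ (cjk hK z) = starRingEnd ℂ (φ z) := by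
  have _ : NumberField K := { to_charZero := inferInstance, to_finiteDimensional := hK.fin }
  obtain ⟨σ, hσ⟩ := Pool.Agent.Y4.exists_aut_emb K.subtype φ.toRingHom
  have h1 : ∀ z : K, σ (z : ℂ) = φ z := fun z => by
    have := congrArg (fun g : K →+* ℂ => g z) hσ
    simpa using this
  rw [← h1, ← h1]
  exact hK.cc σ z z.2

/-- The complex conjugate embedding. -/
def cj' (φ : K →ₐ[ℚ] ℂ) : K →ₐ[ℚ] ℂ :=
  (Complex.conjAe.toAlgHom.restrictScalars ℚ).comp φ

theorem cj'_apply (φ : K →ₐ[ℚ] ℂ) (z : K) : cj' φ z = starRingEnd ℂ (φ z) := rfl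

theorem cj'_cj' (φ : K →ₐ[ℚ] ℂ) : cj' (cj' φ) = φ :=
  AlgHom.ext fun z => by rw [cj'_apply, cj'_apply, Complex.conj_conj]

include hK in
theorem cj'_ne (φ : K →ₐ[ℚ] ℂ) : φ ≠ cj' φ := by
  intro h
  have h1 : φ ⟨Complex.I, hK.i⟩ = starRingEnd ℂ (φ ⟨Complex.I, hK.i⟩) := by
    conv_lhs => rw [h]
    rfl
  have h2 : φ ⟨Complex.I, hK.i⟩ * φ ⟨Complex.I, hK.i⟩ = -1 := by
    rw [← map_mul]
    have : (⟨Complex.I, hK.i⟩ : K) * ⟨Complex.I, hK.i⟩ = -1 :=
      Subtype.ext (by simp)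
    rw [this, map_neg, map_one]
  obtain ⟨r, hr⟩ := Complex.conj_eq_iff_real.1 h1.symm
  rw [hr] at h2
  have h3 : r * r = -1 := by exact_mod_cast h2
  nlinarith

open Classical in
include hK in
theorem exists_dual (φ : K →ₐ[ℚ] ℂ) : ∃ (s : Finset K) (c : K → ℂ), ∀ φ' : K →ₐ[ℚ] ℂ,
    ∑ a ∈ s, c a * φ' a = if φ' = φ then 1 else 0 := by
  have _ := hK.fin
  let S : Submodule ℂ ((K →ₐ[ℚ] ℂ) → ℂ) :=
    Submodule.span ℂ (Set.range fun a : K => fun φ' : K →ₐ[ℚ] ℂ => φ' a)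
  have hS : S = ⊤ := by
    by_contra hne
    obtain ⟨f, hf, hSf⟩ := Submodule.exists_le_ker_of_lt_top S (lt_top_iff_ne_top.2 hne)
    apply hf
    have h1 : ∀ a : K, ∑ φ' : K →ₐ[ℚ] ℂ, f (Pi.single φ' 1) * φ' a = 0 := by
      intro a
      have h2 : f (fun φ' : K →ₐ[ℚ] ℂ => φ' a) = 0 := hSf (Submodule.subset_span ⟨a, rfl⟩)
      rw [← h2]
      conv_rhs => rw [LinearMap.pi_apply_eq_sum_univ f (fun φ' : K →ₐ[ℚ] ℂ => φ' a)]
      refine Finset.sum_congr rfl fun φ' _ => ?_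
      rw [smul_eq_mul, mul_comm]
      congr 2
      funext ψ
      rw [Pi.single_apply]
      simp [eq_comm]
    have h3 := linearIndependent_algHom_toLinearMap ℚ K ℂ
    rw [Fintype.linearIndependent_iff] at h3
    have h4 := h3 (fun φ' => f (Pi.single φ' 1)) (by
      refine LinearMap.ext fun a => ?_
      rw [LinearMap.sum_apply]
      simpa using h1 a)
    refine LinearMap.pi_ext' fun φ' => LinearMap.ext_ring ?_
    simpa using h4 φ'
  have h5 : (Pi.single φ 1 : (K →ₐ[ℚ] ℂ) → ℂ) ∈ S := by rw [hS]; trivial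
  obtain ⟨c, hc⟩ := Finsupp.mem_span_range_iff_exists_finsupp.1 h5
  refine ⟨c.support, c, fun φ' => ?_⟩
  have h6 := congrFun hc φ'
  rw [Finsupp.sum, Finset.sum_apply] at h6
  simp only [Pi.smul_apply, smul_eq_mul, Pi.single_apply] at h6
  exact h6

/-! ### The coordinates on the tangent space -/

theorem span_ind (Y : AV) {p : Y.T → Prop} (h1 : ∀ v, p (Y.per v))
    (h2 : ∀ u u', p u → p u' → p (u + u')) (h3 : ∀ (r : ℝ) u, p u → p (r • u)) (u : Y.T) : p u := by
  have hu : u ∈ Submodule.span ℝ (Set.range Y.per) := by rw [Y.span]; trivial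
  induction hu using Submodule.span_induction with
  | mem x hx => obtain ⟨v, rfl⟩ := hx; exact h1 v
  | zero => rw [← map_zero Y.per]; exact h1 0
  | add x y _ _ hx hy => exact h2 x y hx hy
  | smul r x _ hx => exact h3 r x hx

variable {ι : Type} [Fintype ι] [DecidableEq ι] {Y : AV} (b : Y.H ≃ₗ[ℚ] (ι → K))

theorem exists_X (φ : K →ₐ[ℚ] ℂ) : ∃ X : Y.T →ₗ[ℝ] (ι → ℂ), ∀ v, X (Y.per v) =
    fun j => φ (b v j) :=
  WJ3.exists_ext Y
    { toFun := fun v j => φ (b v j)
      map_zero' := by funext j; simp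
      map_add' := fun v w => by funext j; simp }

/-- The coordinates. -/
def X (φ : K →ₐ[ℚ] ℂ) : Y.T →ₗ[ℝ] (ι → ℂ) := (exists_X b φ).choose

theorem X_per (φ : K →ₐ[ℚ] ℂ) (v : Y.H) (j : ι) : X b φ (Y.per v) j = φ (b v j) :=
  congrFun ((exists_X b φ).choose_spec v) j

theorem X_cj (φ : K →ₐ[ℚ] ℂ) (u : Y.T) (j : ι) :
    X b (cj' φ) u j = starRingEnd ℂ (X b φ u j) := by
  revert j
  refine span_ind Y (p := fun u => ∀ j, X b (cj' φ) u j = starRingEnd ℂ (X b φ u j))
    (fun v j => ?_) (fun u u' h h' j => ?_) (fun r u h j => ?_) u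
  · rw [X_per, X_per, cj'_apply]
  · rw [map_add, map_add, Pi.add_apply, Pi.add_apply, h, h', map_add]
  · rw [map_smul, map_smul, Pi.smul_apply, Pi.smul_apply, h, Complex.real_smul, Complex.real_smul,
      map_mul, Complex.conj_ofReal]

/-- The complex structure in the coordinates. -/
def Mx (φ : K →ₐ[ℚ] ℂ) : Matrix ι ι ℂ :=
  of fun i j => X b φ (Complex.I • Y.per (b.symm (Pi.single j 1))) i

variable {b}

theorem X_Psi (φ : K →ₐ[ℚ] ℂ) {a : K} {Ψ : Y.T →ₗ[ℂ] Y.T}
    (hΨ : ∀ v, Ψ (Y.per v) =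
      Y.per ((b.symm.toLinearMap ∘ₗ scK K ι a ∘ₗ b.toLinearMap) v)) (u : Y.T) :
    X b φ (Ψ u) = φ a • X b φ u := by
  refine span_ind Y (p := fun u => X b φ (Ψ u) = φ a • X b φ u)
    (fun v => ?_) (fun u u' h h' => ?_) (fun r u h => ?_) u
  · rw [hΨ]
    funext j
    rw [X_per, Pi.smul_apply, X_per, smul_eq_mul, ← map_mul]
    congr 1
    change b (b.symm (scK K ι a (b v))) j = _
    rw [b.apply_symm_apply]
    rfl
  · rw [map_add, map_add, map_add, h, h', smul_add]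
  · have e1 : Ψ (r • u) = r • Ψ u := (Ψ.restrictScalars ℝ).map_smul r u
    rw [e1, map_smul, map_smul, h, smul_comm]

theorem X_I (hb : KAct b) (φ : K →ₐ[ℚ] ℂ) (u : Y.T) :
    X b φ (Complex.I • u) = Mx b φ *ᵥ X b φ u := by
  refine span_ind Y (p := fun u => X b φ (Complex.I • u) = Mx b φ *ᵥ X b φ u)
    (fun v => ?_) (fun u u' h h' => ?_) (fun r u h => ?_) u
  · choose Ψ hΨ using hb
    have h1 : Y.per v = ∑ j, Ψ (b v j) (Y.per (b.symm (Pi.single j 1))) := by
      simp_rw [hΨ]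
      rw [← map_sum]
      congr 1
      apply b.injective
      rw [map_sum]
      funext k
      rw [Finset.sum_apply]
      have h2 : ∀ j, b ((b.symm.toLinearMap ∘ₗ scK K ι (b v j) ∘ₗ b.toLinearMap)
          (b.symm (Pi.single j 1))) k = if k = j then b v j else 0 := by
        intro j
        change b (b.symm (scK K ι (b v j) (b (b.symm (Pi.single j 1))))) k = _
        rw [b.apply_symm_apply, b.apply_symm_apply]
        change b v j * (Pi.single j 1 : ι → K) k = _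
        rw [Pi.single_apply]
        split_ifs <;> simp
      simp_rw [h2]
      simp
    conv_lhs => rw [h1, Finset.smul_sum, map_sum]
    funext i
    rw [Finset.sum_apply]
    simp only [mulVec, dotProduct, Mx, of_apply]
    refine Finset.sum_congr rfl fun j _ => ?_
    rw [← map_smul (Ψ (b v j)), X_Psi φ (hΨ (b v j)), Pi.smul_apply, smul_eq_mul, X_per, mul_comm]
  · rw [smul_add, map_add, map_add, h, h', mulVec_add]
  · rw [smul_comm Complex.I r u, (X b φ).map_smul, (X b φ).map_smul, h, mulVec_smul]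

theorem X_smul (hb : KAct b) (φ : K →ₐ[ℚ] ℂ) (z : ℂ) (u : Y.T) :
    X b φ (z • u) = ((z.re : ℂ) • (1 : Matrix ι ι ℂ) + (z.im : ℂ) • Mx b φ) *ᵥ X b φ u := by
  have h1 : z • u = z.re • u + z.im • (Complex.I • u) := by
    conv_lhs => rw [← Complex.re_add_im z]
    rw [add_smul, mul_smul, Complex.coe_smul, Complex.coe_smul]
  rw [h1, map_add, map_smul, map_smul, X_I hb, add_mulVec, smul_mulVec, smul_mulVec, one_mulVec,
    Complex.coe_smul, Complex.coe_smul]

open Classical in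
include hK in
theorem exists_lift (φ : K →ₐ[ℚ] ℂ) (x : ι → ℂ) : ∃ u : Y.T, X b φ u = x ∧
    ∀ φ', φ' ≠ φ → φ' ≠ cj' φ → X b φ' u = 0 := by
  obtain ⟨s, c, hc⟩ := exists_dual hK φ
  have h1 : ∀ φ' : K →ₐ[ℚ] ℂ, ∀ j, X b φ' (∑ a ∈ s, ∑ j, (2 * (c a * x j).re) •
      Y.per (b.symm (Pi.single j a))) j = (if φ' = φ then x j else 0) +
      (if φ' = cj' φ then starRingEnd ℂ (x j) else 0) := by
    intro φ' j
    have h2 : ∀ a ∈ s, X b φ' (∑ j, (2 * (c a * x j).re) •
      Y.per (b.symm (Pi.single j a))) j = x j * (c a * φ' a) +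
        starRingEnd ℂ (x j) * starRingEnd ℂ (c a * cj' φ' a) := by
      intro a _
      rw [map_sum, Finset.sum_apply, Finset.sum_eq_single j]
      · rw [map_smul, Pi.smul_apply, X_per, b.apply_symm_apply, Pi.single_eq_same,
          Complex.real_smul, cj'_apply, map_mul, Complex.conj_conj]
        have h3 : ((2 * (c a * x j).re : ℝ) : ℂ) = c a * x j + starRingEnd ℂ (c a * x j) := by
          rw [Complex.add_conj]
        rw [h3, map_mul]
        ring
      · intro k _ hk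
        rw [map_smul, Pi.smul_apply, X_per, b.apply_symm_apply, Pi.single_eq_of_ne hk.symm,
          map_zero, smul_zero]
      · intro h
        exact absurd (Finset.mem_univ j) h
    rw [map_sum, Finset.sum_apply, Finset.sum_congr rfl h2, Finset.sum_add_distrib,
      ← Finset.mul_sum, ← Finset.mul_sum, ← map_sum, hc, hc]
    have h4 : cj' φ' = φ ↔ φ' = cj' φ := by
      constructor
      · rintro rfl
        rw [cj'_cj']
      · rintro rfl
        rw [cj'_cj']
    simp only [h4]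
    split_ifs <;> simp
  refine ⟨∑ a ∈ s, ∑ j, (2 * (c a * x j).re) • Y.per (b.symm (Pi.single j a)),
    funext fun j => ?_, fun φ' h h' => funext fun j => ?_⟩
  · rw [h1, if_pos rfl, if_neg (cj'_ne hK φ), add_zero]
  · rw [h1, if_neg h, if_neg h', add_zero, Pi.zero_apply]

include hK in
theorem Mx_sq (hb : KAct b) (φ : K →ₐ[ℚ] ℂ) : Mx b φ * Mx b φ = -1 := by
  have h : ∀ x, (Mx b φ * Mx b φ) *ᵥ x = (-1 : Matrix ι ι ℂ) *ᵥ x := by
    intro x
    obtain ⟨u, hu, -⟩ := exists_lift (b := b) hK φ x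
    rw [← mulVec_mulVec, ← hu, ← X_I hb, ← X_I hb, smul_smul, Complex.I_mul_I, neg_smul, one_smul,
      map_neg, neg_mulVec, one_mulVec]
  exact ext_of_mulVec_single fun i => h _

/-! ### The polarization -/

variable [FiniteDimensional ℚ K]

theorem trace_eq (z : K) : ((Algebra.trace ℚ K z : ℚ) : ℂ) = ∑ φ : K →ₐ[ℚ] ℂ, φ z := by
  have := trace_eq_sum_embeddings (K := ℚ) (L := K) ℂ (x := z)
  rw [← this]
  rfl

theorem form_eq {κ : ι → K} {Ψ : Y.T → Y.T → ℂ} (h1 : ∀ u', IsLinearMap ℂ fun u => Ψ u u')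
    (h2 : ∀ u u', Ψ u' u = starRingEnd ℂ (Ψ u u'))
    (h3 : ∀ v w, (Ψ (Y.per v) (Y.per w)).im = frK hK κ (b v) (b w)) (u u' : Y.T) :
    (((Ψ u u').im : ℝ) : ℂ) =
      ∑ φ : K →ₐ[ℚ] ℂ, ∑ j, φ (κ j) * X b φ u j * starRingEnd ℂ (X b φ u' j) := by
  have ha1 : ∀ u₁ u₂ u', Ψ (u₁ + u₂) u' = Ψ u₁ u' + Ψ u₂ u' := fun u₁ u₂ u' => (h1 u').map_add u₁ u₂
  have hr1 : ∀ (r : ℝ) u u', Ψ (r • u) u' = r * Ψ u u' := fun r u u' => by
    have := (h1 u').map_smul (r : ℂ) u
    simpa using this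
  have ha2 : ∀ u u₁ u₂, Ψ u (u₁ + u₂) = Ψ u u₁ + Ψ u u₂ := fun u u₁ u₂ => by
    rw [h2, ha1, map_add, ← h2, ← h2]
  have hr2 : ∀ (r : ℝ) u u', Ψ u (r • u') = r * Ψ u u' := fun r u u' => by
    rw [h2, hr1, map_mul, ← h2, Complex.conj_ofReal]
  revert u
  refine span_ind Y (p := fun u' => ∀ u, (((Ψ u u').im : ℝ) : ℂ) =
      ∑ φ : K →ₐ[ℚ] ℂ, ∑ j, φ (κ j) * X b φ u j * starRingEnd ℂ (X b φ u' j))
    (fun w u => ?_) (fun u₁ u₂ i1 i2 u => ?_) (fun r u' i1 u => ?_) u'
  · refine span_ind Y (p := fun u => (((Ψ u (Y.per w)).im : ℝ) : ℂ) =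
      ∑ φ : K →ₐ[ℚ] ℂ, ∑ j, φ (κ j) * X b φ u j * starRingEnd ℂ (X b φ (Y.per w) j))
      (fun v => ?_) (fun u₁ u₂ i1 i2 => ?_) (fun r u i1 => ?_) u
    · rw [h3, frK]
      have e1 : (((Algebra.trace ℚ K (∑ j, κ j * b v j * cjk hK (b w j)) : ℚ) : ℝ) : ℂ) =
          ((Algebra.trace ℚ K (∑ j, κ j * b v j * cjk hK (b w j)) : ℚ) : ℂ) := by norm_cast
      rw [e1, trace_eq]
      refine Finset.sum_congr rfl fun φ _ => ?_
      rw [map_sum]
      refine Finset.sum_congr rfl fun j _ => ?_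
      rw [map_mul, map_mul, emb_cj, X_per, X_per]
    · rw [ha1, Complex.add_im, Complex.ofReal_add, i1, i2, ← Finset.sum_add_distrib]
      refine Finset.sum_congr rfl fun φ _ => ?_
      rw [← Finset.sum_add_distrib]
      refine Finset.sum_congr rfl fun j _ => ?_
      rw [map_add, Pi.add_apply]
      ring
    · rw [hr1, Complex.im_ofReal_mul, Complex.ofReal_mul, i1, Finset.mul_sum]
      refine Finset.sum_congr rfl fun φ _ => ?_
      rw [Finset.mul_sum]
      refine Finset.sum_congr rfl fun j _ => ?_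
      rw [map_smul, Pi.smul_apply, Complex.real_smul]
      ring
  · rw [ha2, Complex.add_im, Complex.ofReal_add, i1, i2, ← Finset.sum_add_distrib]
    refine Finset.sum_congr rfl fun φ _ => ?_
    rw [← Finset.sum_add_distrib]
    refine Finset.sum_congr rfl fun j _ => ?_
    rw [map_add, Pi.add_apply, map_add]
    ring
  · rw [hr2, Complex.im_ofReal_mul, Complex.ofReal_mul, i1, Finset.mul_sum]
    refine Finset.sum_congr rfl fun φ _ => ?_
    rw [Finset.mul_sum]
    refine Finset.sum_congr rfl fun j _ => ?_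
    rw [map_smul, Pi.smul_apply, Complex.real_smul, map_mul, Complex.conj_ofReal]
    ring

/-- No eigenvector of the complex structure is isotropic. -/
theorem eig_zero {κ : ι → K} {Ψ : Y.T → Y.T → ℂ} (h1 : ∀ u', IsLinearMap ℂ fun u => Ψ u u')
    (h2 : ∀ u u', Ψ u' u = starRingEnd ℂ (Ψ u u')) (h4 : ∀ u, u ≠ 0 → 0 < (Ψ u u).re)
    (h3 : ∀ v w, (Ψ (Y.per v) (Y.per w)).im = frK hK κ (b v) (b w)) (hb : KAct b)
    (φ : K →ₐ[ℚ] ℂ) (ε : ℂ) (x : ι → ℂ) (hx : Mx b φ *ᵥ x = ε • x)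
    (h0 : ∑ j, φ (κ j) * x j * starRingEnd ℂ (x j) = 0) : x = 0 := by
  by_contra hne
  obtain ⟨u, hu, hu'⟩ := exists_lift (b := b) hK φ x
  have hu0 : u ≠ 0 := by
    rintro rfl
    apply hne
    rw [← hu, map_zero]
  have e1 := h4 u hu0
  have e2 : Ψ (Complex.I • u) u = Complex.I * Ψ u u := (h1 u).map_smul _ _
  have e3 : (Ψ u u).re = (Ψ (Complex.I • u) u).im := by
    rw [e2]
    simp
  have e4 := form_eq hK h1 h2 h3 (Complex.I • u) u
  have e5 : ∑ φ : K →ₐ[ℚ] ℂ, ∑ j, φ (κ j) * X b φ (Complex.I • u) j *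
      starRingEnd ℂ (X b φ u j) = 0 := by
    have f1 : ∑ j, φ (κ j) * X b φ (Complex.I • u) j * starRingEnd ℂ (X b φ u j) = 0 := by
      rw [X_I hb, hu, hx]
      have : ∀ j, φ (κ j) * (ε • x) j * starRingEnd ℂ (x j) =
          ε * (φ (κ j) * x j * starRingEnd ℂ (x j)) := fun j => by
        rw [Pi.smul_apply, smul_eq_mul]
        ring
      rw [Finset.sum_congr rfl fun j _ => this j, ← Finset.mul_sum, h0, mul_zero]
    rw [Finset.sum_eq_zero]
    intro ψ _
    by_cases hψ : ψ = φ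
    · rw [hψ, f1]
    by_cases hψ' : ψ = cj' φ
    · rw [hψ']
      have : ∀ j, cj' φ (κ j) * X b (cj' φ) (Complex.I • u) j * starRingEnd ℂ (X b (cj' φ) u j) =
          starRingEnd ℂ (φ (κ j) * X b φ (Complex.I • u) j * starRingEnd ℂ (X b φ u j)) := fun j => by
        rw [X_cj, X_cj, cj'_apply, map_mul, map_mul]
      rw [Finset.sum_congr rfl fun j _ => this j, ← map_sum, f1, map_zero]
    · rw [hu' ψ hψ hψ']
      simp
  rw [e5] at e4
  rw [e3] at e1
  have e6 : (Ψ (Complex.I • u) u).im = 0 := by exact_mod_cast e4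
  linarith

end GD7a

open GD7a in
theorem hsp_of : St_hsp := by
  intro K hK d κ _ _ Y b hb hpol a w hw
  have _ := hK.fin
  obtain ⟨Ψ, h1, h2, h4, h3⟩ := hpol
  have hdet : ∀ (φ : K →ₐ[ℚ] ℂ) (z : ℂ), ‖z‖ = 1 →
      det ((z.re : ℂ) • (1 : Matrix (Fin d ⊕ Fin d) (Fin d ⊕ Fin d) ℂ) +
        (z.im : ℂ) • Mx b φ) = 1 := by
    intro φ z hz
    have key : ∀ (ε : ℂ) x, Mx b φ *ᵥ x = ε • x → (∀ j, x (Sum.inl j) = x (Sum.inr j)) →
        x = 0 := by
      intro ε x hx hj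
      refine eig_zero hK h1 h2 h4 h3 hb φ ε x hx ?_
      rw [Fintype.sum_sum_type, ← Finset.sum_add_distrib]
      refine Finset.sum_eq_zero fun j _ => ?_
      rw [hj j, Sum.elim_inl, Sum.elim_inr, map_neg]
      ring
    refine det_rot _ (Mx_sq hK hb φ) (key _) (key _) _ _ ?_
    have := Complex.sq_norm z
    rw [hz, Complex.normSq_apply] at this
    nlinarith
  let D : MultilinearMap ℝ (fun _ : Fin d ⊕ Fin d => (Fin d ⊕ Fin d → ℂ)) ℂ :=
    ((detRowAlternating : (Fin d ⊕ Fin d → ℂ) [⋀^Fin d ⊕ Fin d]→ₗ[ℂ] ℂ).toMultilinearMap).restrictScalars ℝ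
  have hD : ∀ A, D A = det (of A) := fun A => rfl
  let ψ : MultilinearMap ℝ (fun _ : Fin (d + d) => Y.T) ℝ :=
    ∑ φ : K →ₐ[ℚ] ℂ, (Complex.reLm ∘ₗ LinearMap.mulLeft ℝ (φ a)).compMultilinearMap
      ((D.compLinearMap fun _ => X b φ).domDomCongr finSumFinEquiv)
  have hψ : ∀ u, ψ u = ∑ φ : K →ₐ[ℚ] ℂ,
      (φ a * det (of fun i => X b φ (u (finSumFinEquiv i)))).re := by
    intro u
    change (∑ φ : K →ₐ[ℚ] ℂ, (Complex.reLm ∘ₗ LinearMap.mulLeft ℝ (φ a)).compMultilinearMap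
      ((D.compLinearMap fun _ => X b φ).domDomCongr finSumFinEquiv)) u = _
    rw [_root_.sum_apply]
    rfl
  refine ⟨ψ, fun v => ?_, fun z hz u => ?_⟩
  · have e1 := hw (fun i => v (finSumFinEquiv i))
    simp only [Equiv.apply_symm_apply] at e1
    rw [hψ, ← Complex.re_sum]
    have e2 : ((w v : ℚ) : ℂ) = ∑ φ : K →ₐ[ℚ] ℂ,
        φ a * det (of fun i => X b φ (Y.per (v (finSumFinEquiv i)))) := by
      rw [e1, trace_eq]
      refine Finset.sum_congr rfl fun φ _ => ?_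
      rw [map_mul, AlgHom.map_det]
      congr 2
      ext i j
      rw [AlgHom.mapMatrix_apply, map_apply, of_apply, of_apply, X_per]
    rw [← e2]
    simp
  · rw [hψ, hψ]
    refine Finset.sum_congr rfl fun φ _ => ?_
    congr 2
    have e1 : (of fun i => X b φ (z • u (finSumFinEquiv i))) =
        (of fun i => X b φ (u (finSumFinEquiv i))) *
        ((z.re : ℂ) • (1 : Matrix (Fin d ⊕ Fin d) (Fin d ⊕ Fin d) ℂ) + (z.im : ℂ) • Mx b φ)ᵀ := by
      ext i j
      rw [of_apply, X_smul hb, mul_apply]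
      simp only [mulVec, dotProduct, transpose_apply, of_apply]
      exact Finset.sum_congr rfl fun k _ => mul_comm _ _
    rw [e1, det_mul, det_transpose, hdet φ z hz, mul_one]

end

end Pool.Agent.NH32
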