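import Pool.Agent.NH32.GtD
import Pool.Agent.NH32.GJ14

/-!
# Project G, stage 3: products of abelian varieties with an action of a CM field
-/

set_option linter.unusedSectionVars false

namespace Pool.Agent.NH32

open Matrix Module Pool.Agent.W437.HC Pool.Agent.W437.HD Pool.Agent.TH504.CB Pool.Agent.Y90
open Pool.Agent.H204R3.CM (IsHodge)
open Pool.Agent.W548.Odd hiding cv

noncomputable section

namespace GD7b

variable {K : Subfield ℂ} {d : ℕ} {Y₁ Y₂ : AV}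

/-- the coordinates of a product -/
def bb (b₁ : Y₁.H ≃ₗ[ℚ] (Fin d → K)) (b₂ : Y₂.H ≃ₗ[ℚ] (Fin d → K)) :
    (GJ14.prodAV Y₁ Y₂).H ≃ₗ[ℚ] (Fin d ⊕ Fin d → K) :=
  (LinearEquiv.prodCongr b₁ b₂) ≪≫ₗ (LinearEquiv.sumArrowLequivProdArrow (Fin d) (Fin d) ℚ K).symm

theorem bb_inl (b₁ : Y₁.H ≃ₗ[ℚ] (Fin d → K)) (b₂ : Y₂.H ≃ₗ[ℚ] (Fin d → K))
    (v : Y₁.H × Y₂.H) (j : Fin d) : bb b₁ b₂ v (Sum.inl j) = b₁ v.1 j := rfl

theorem bb_inr (b₁ : Y₁.H ≃ₗ[ℚ] (Fin d → K)) (b₂ : Y₂.H ≃ₗ[ℚ] (Fin d → K))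
    (v : Y₁.H × Y₂.H) (j : Fin d) : bb b₁ b₂ v (Sum.inr j) = b₂ v.2 j := rfl

theorem symm_eq (b₁ : Y₁.H ≃ₗ[ℚ] (Fin d → K)) (b₂ : Y₂.H ≃ₗ[ℚ] (Fin d → K))
    (x : Fin d ⊕ Fin d → K) (v : Y₁.H × Y₂.H) (h1 : ∀ j, b₁ v.1 j = x (Sum.inl j))
    (h2 : ∀ j, b₂ v.2 j = x (Sum.inr j)) : (bb b₁ b₂).symm x = v := by
  refine (LinearEquiv.symm_apply_eq (bb b₁ b₂) (x := x) (y := v)).2 ?_
  funext j
  cases j with
  | inl j => rw [bb_inl, h1]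
  | inr j => rw [bb_inr, h2]

theorem scK_apply (ι : Type) (a : K) (x : ι → K) (j : ι) : scK K ι a x j = a * x j := rfl

end GD7b

open GD7b in
/-- **D7b** -/
theorem prK_of : St_prK := by
  intro K hK d κ κ' Y₁ b₁ hb₁ hp₁ Y₂ b₂ hb₂ hp₂
  refine ⟨GJ14.prodAV Y₁ Y₂, bb b₁ b₂, fun a => ?_, ?_, fun X P hP a => ?_, fun X P hP a => ?_⟩
  · obtain ⟨Λ₁, h1⟩ := hb₁ a
    obtain ⟨Λ₂, h2⟩ := hb₂ a
    refine ⟨LinearMap.prodMap Λ₁ Λ₂, fun v => ?_⟩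
    have e : ((bb b₁ b₂).symm.toLinearMap ∘ₗ scK K (Fin d ⊕ Fin d) a ∘ₗ (bb b₁ b₂).toLinearMap) v =
        ((b₁.symm.toLinearMap ∘ₗ scK K (Fin d) a ∘ₗ b₁.toLinearMap) v.1,
          (b₂.symm.toLinearMap ∘ₗ scK K (Fin d) a ∘ₗ b₂.toLinearMap) v.2) := by
      refine symm_eq b₁ b₂ _ _ (fun j => ?_) (fun j => ?_)
      · change b₁ (b₁.symm (scK K (Fin d) a (b₁ v.1))) j = a * b₁ v.1 j
        rw [LinearEquiv.apply_symm_apply]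
        rfl
      · change b₂ (b₂.symm (scK K (Fin d) a (b₂ v.2))) j = a * b₂ v.2 j
        rw [LinearEquiv.apply_symm_apply]
        rfl
    rw [e]
    change (Λ₁ (Y₁.per v.1), Λ₂ (Y₂.per v.2)) = (Y₁.per _, Y₂.per _)
    rw [h1, h2]
  · have h := GJ14.polP hp₁ hp₂
    have e : (fun v w : (GJ14.prodAV Y₁ Y₂).H =>
        frK hK (Sum.elim κ' κ) (bb b₁ b₂ v) (bb b₁ b₂ w)) =
        fun v w => frK hK κ' (b₁ v.1) (b₁ w.1) + frK hK κ (b₂ v.2) (b₂ w.2) := by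
      funext v w
      unfold frK
      rw [Fintype.sum_sum_type, map_add]
      rfl
    rw [e]
    exact h
  · obtain ⟨Λ, h1⟩ := hP a
    refine ⟨LinearMap.inl ℂ Y₁.T Y₂.T ∘ₗ Λ, fun v => ?_⟩
    have e : ((bb b₁ b₂).symm.toLinearMap ∘ₗ scK K (Fin d ⊕ Fin d) a ∘ₗ
        LinearMap.pi (Sum.elim P 0)) v =
        ((b₁.symm.toLinearMap ∘ₗ scK K (Fin d) a ∘ₗ LinearMap.pi P) v, 0) := by
      refine symm_eq b₁ b₂ _ _ (fun j => ?_) (fun j => ?_)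
      · change b₁ (b₁.symm (scK K (Fin d) a (LinearMap.pi P v))) j = a * P j v
        rw [LinearEquiv.apply_symm_apply]
        rfl
      · change b₂ 0 j = a * (0 : X.H →ₗ[ℚ] K) v
        rw [map_zero, LinearMap.zero_apply, mul_zero]
        rfl
    rw [e]
    change (Λ (X.per v), (0 : Y₂.T)) = (Y₁.per _, Y₂.per 0)
    rw [h1, map_zero]
  · obtain ⟨Λ, h1⟩ := hP a
    refine ⟨LinearMap.inr ℂ Y₁.T Y₂.T ∘ₗ Λ, fun v => ?_⟩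
    have e : ((bb b₁ b₂).symm.toLinearMap ∘ₗ scK K (Fin d ⊕ Fin d) a ∘ₗ
        LinearMap.pi (Sum.elim 0 P)) v =
        (0, (b₂.symm.toLinearMap ∘ₗ scK K (Fin d) a ∘ₗ LinearMap.pi P) v) := by
      refine symm_eq b₁ b₂ _ _ (fun j => ?_) (fun j => ?_)
      · change b₁ 0 j = a * (0 : X.H →ₗ[ℚ] K) v
        rw [map_zero, LinearMap.zero_apply, mul_zero]
        rfl
      · change b₂ (b₂.symm (scK K (Fin d) a (LinearMap.pi P v))) j = a * P j v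
        rw [LinearEquiv.apply_symm_apply]
        rfl
    rw [e]
    change ((0 : Y₁.T), Λ (X.per v)) = (Y₁.per 0, Y₂.per _)
    rw [h1, map_zero]

end

end Pool.Agent.NH32
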