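import Mathlib
import Pool.Agent.NH32.GtD
import Pool.Agent.Y4.Aut

/-!
# Project G, stage 3: the classes are split Weil classes
-/

set_option linter.unusedSectionVars false

namespace Pool.Agent.NH32

open Matrix Module Pool.Agent.W437.HC Pool.Agent.W437.HD Pool.Agent.TH504.CB Pool.Agent.Y90
open Pool.Agent.H204R3.CM (IsHodge)
open Pool.Agent.W548.Odd hiding cv

noncomputable section

namespace GD7c

variable {K : Subfield ℂ} {ι : Type} {Y : AV}

/-- the action of the field -/
def rh (b : Y.H ≃ₗ[ℚ] (ι → K)) : K →ₐ[ℚ] Module.End ℚ Y.H where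
  toFun a := b.symm.toLinearMap ∘ₗ scK K ι a ∘ₗ b.toLinearMap
  map_one' := by
    refine LinearMap.ext fun v => ?_
    change b.symm (fun j => 1 * b v j) = v
    simp only [one_mul]
    exact b.symm_apply_apply v
  map_mul' a a' := by
    refine LinearMap.ext fun v => ?_
    change b.symm (fun j => a * a' * b v j) =
      b.symm (fun j => a * b (b.symm (fun j => a' * b v j)) j)
    rw [b.apply_symm_apply]
    simp only [mul_assoc]
  map_zero' := by
    refine LinearMap.ext fun v => ?_
    change b.symm (fun j => 0 * b v j) = 0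
    simp only [zero_mul]
    exact map_zero b.symm
  map_add' a a' := by
    refine LinearMap.ext fun v => ?_
    change b.symm (fun j => (a + a') * b v j) =
      b.symm (fun j => a * b v j) + b.symm (fun j => a' * b v j)
    rw [← map_add]
    congr 1
    funext j
    exact add_mul _ _ _
  commutes' q := by
    refine LinearMap.ext fun v => ?_
    change b.symm (fun j => algebraMap ℚ K q * b v j) = q • v
    have h : (fun j => algebraMap ℚ K q * b v j) = q • b v := by
      funext j
      rw [Pi.smul_apply, Algebra.smul_def]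
    rw [h, map_smul, b.symm_apply_apply]

theorem b_rh (b : Y.H ≃ₗ[ℚ] (ι → K)) (a : K) (v : Y.H) (j : ι) :
    b (rh b a v) j = a * b v j := by
  change b (b.symm (fun j => a * b v j)) j = _
  rw [b.apply_symm_apply]

theorem cjk_mul (hK : CMF K) (x y : K) : cjk hK (x * y) = cjk hK x * cjk hK y := by
  apply Subtype.ext
  exact map_mul cj (x : ℂ) y

theorem cjk_cjk (hK : CMF K) (x : K) : cjk hK (cjk hK x) = x := by
  apply Subtype.ext
  exact Complex.conj_conj (x : ℂ)

/-- the isotropic subspace -/
def Ws {d : ℕ} (b : Y.H ≃ₗ[ℚ] (Fin d ⊕ Fin d → K)) : Submodule ℚ Y.H where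
  carrier := {v | ∀ j, b v (Sum.inl j) = b v (Sum.inr j)}
  add_mem' := by
    intro v w hv hw j
    rw [map_add, Pi.add_apply, Pi.add_apply, hv j, hw j]
  zero_mem' := by
    intro j
    rw [map_zero]
    rfl
  smul_mem' := by
    intro q v hv j
    rw [map_smul, Pi.smul_apply, Pi.smul_apply, hv j]

/-- the isotropic subspace in coordinates -/
def eW {d : ℕ} (b : Y.H ≃ₗ[ℚ] (Fin d ⊕ Fin d → K)) : Ws b ≃ₗ[ℚ] (Fin d → K) where
  toFun v := fun j => b v.1 (Sum.inl j)
  map_add' v w := by
    funext j
    change b (v.1 + w.1) (Sum.inl j) = _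
    rw [map_add]
    rfl
  map_smul' q v := by
    funext j
    change b (q • v.1) (Sum.inl j) = _
    rw [map_smul]
    rfl
  invFun x := ⟨b.symm (Sum.elim x x), fun j => by rw [b.apply_symm_apply]; rfl⟩
  left_inv v := by
    apply Subtype.ext
    change b.symm (Sum.elim (fun j => b v.1 (Sum.inl j)) (fun j => b v.1 (Sum.inl j))) = v.1
    have h : Sum.elim (fun j => b v.1 (Sum.inl j)) (fun j => b v.1 (Sum.inl j)) = b v.1 := by
      funext j
      rcases j with j | j
      · rfl
      · exact v.2 j
    rw [h, b.symm_apply_apply]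
  right_inv x := by
    funext j
    change b (b.symm (Sum.elim x x)) (Sum.inl j) = x j
    rw [b.apply_symm_apply]
    rfl

/-- the class in terms of families indexed by `Fin (d + d)` -/
theorem isDet' {d : ℕ} {b : Y.H ≃ₗ[ℚ] (Fin d ⊕ Fin d → K)} {a : K}
    {w : Y.H [⋀^Fin (d + d)]→ₗ[ℚ] ℚ} (h : IsDet b a w) (v : Fin (d + d) → Y.H) :
    w v = Algebra.trace ℚ K (a * det (of fun i j => b (v (finSumFinEquiv i)) j)) := by
  have h1 := h fun i => v (finSumFinEquiv i)
  rw [← h1]
  congr 1
  funext k
  rw [Equiv.apply_symm_apply]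

theorem det_bal {d : ℕ} (b : Y.H ≃ₗ[ℚ] (Fin d ⊕ Fin d → K)) (a : K) (v : Fin (d + d) → Y.H)
    (k : Fin (d + d)) :
    det (of fun i j => b (Function.update v k (rh b a (v k)) (finSumFinEquiv i)) j) =
      a * det (of fun i j => b (v (finSumFinEquiv i)) j) := by
  have h1 : (of fun i j => b (Function.update v k (rh b a (v k)) (finSumFinEquiv i)) j) =
      updateRow (of fun i j => b (v (finSumFinEquiv i)) j) (finSumFinEquiv.symm k)
        (a • fun j => b (v k) j) := by
    ext1 i
    intro j
    by_cases hi : i = finSumFinEquiv.symm k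
    · subst hi
      rw [updateRow_self, of_apply, Equiv.apply_symm_apply, Function.update_self, b_rh]
      rfl
    · rw [updateRow_ne hi, of_apply, of_apply, Function.update_of_ne]
      intro h
      exact hi (by rw [← h, Equiv.symm_apply_apply])
  rw [h1, det_updateRow_smul]
  congr 2
  ext1 i
  intro j
  by_cases hi : i = finSumFinEquiv.symm k
  · subst hi
    rw [updateRow_self, of_apply, Equiv.apply_symm_apply]
  · rw [updateRow_ne hi]

end GD7c

open GD7c in
/-- **D7c.** -/
theorem spw_of (h : St_hsp) : St_spw := by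
  intro K hK d κ hd hκ Y b hb hpol a w hw
  have hfin : FiniteDimensional ℚ K := hK.fin
  have hrk : finrank ℚ Y.H = (d + d) * finrank ℚ K := by
    rw [b.finrank_eq, Module.finrank_pi_fintype, Finset.sum_const, Finset.card_univ,
      Fintype.card_sum, Fintype.card_fin, smul_eq_mul]
  refine ⟨h K hK d κ hd hκ Y b hb hpol a w hw, K, inferInstance, inferInstance, rh b, cjk hK,
    fun v w => frK hK (Sum.elim (fun j => -κ j) κ) (b v) (b w), Ws b, hfin, ?_, ?_, ?_, hrk, ?_,
    hpol, ?_, ?_, ?_, ?_⟩
  · refine ⟨⟨Complex.I, hK.i⟩, fun hc => ?_⟩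
    have h1 : cj Complex.I = Complex.I := congrArg Subtype.val hc
    have h2 : starRingEnd ℂ Complex.I = Complex.I := h1
    rw [Complex.conj_I] at h2
    have h3 : (2 : ℂ) * Complex.I = 0 := by linear_combination -h2
    exact (mul_ne_zero two_ne_zero Complex.I_ne_zero) h3
  · intro φ x
    have hnf : NumberField K := ⟨⟩
    obtain ⟨σ, hσ⟩ := Pool.Agent.Y4.exists_aut_emb K.subtype φ
    have h1 : ∀ y : K, φ y = σ (y : ℂ) := fun y => (RingHom.congr_fun hσ y).symm
    rw [h1, h1]
    exact hK.cc σ x x.2
  · exact fun x => hb x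
  · intro x v k l
    rw [isDet' hw, isDet' hw, det_bal, det_bal]
  · intro x v v'
    change Algebra.trace ℚ K (∑ j, Sum.elim (fun j => -κ j) κ j * b (rh b x v) j *
        cjk hK (b v' j)) = Algebra.trace ℚ K (∑ j, Sum.elim (fun j => -κ j) κ j * b v j *
        cjk hK (b (rh b (cjk hK x) v') j))
    refine congrArg _ (Finset.sum_congr rfl fun j _ => ?_)
    rw [b_rh, b_rh, cjk_mul, cjk_cjk]
    ring
  · intro x v hv j
    rw [b_rh, b_rh, hv j]
  · intro v hv v' hv'
    change Algebra.trace ℚ K (∑ j, Sum.elim (fun j => -κ j) κ j * b v j *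
        cjk hK (b v' j)) = 0
    rw [Fintype.sum_sum_type]
    have h1 : ∑ j, Sum.elim (fun j => -κ j) κ (Sum.inl j) * b v (Sum.inl j) *
        cjk hK (b v' (Sum.inl j)) = -∑ j, Sum.elim (fun j => -κ j) κ (Sum.inr j) *
          b v (Sum.inr j) * cjk hK (b v' (Sum.inr j)) := by
      rw [← Finset.sum_neg_distrib]
      refine Finset.sum_congr rfl fun j _ => ?_
      rw [hv j, hv' j, Sum.elim_inl, Sum.elim_inr]
      ring
    rw [h1, neg_add_cancel, map_zero]
  · rw [(eW b).finrank_eq, hrk, Module.finrank_pi_fintype, Finset.sum_const, Finset.card_univ,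
      Fintype.card_fin, smul_eq_mul]
    ring

end

end Pool.Agent.NH32
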