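import Mathlib
import Pool.Agent.NH32.WlA
import Pool.Agent.NH32.Geo5

/-!
# Weil classes in the system of tensors
-/

set_option linter.unusedSectionVars false

namespace Pool.Agent.NH32.WJ5

open Matrix Module Pool.Agent.W437.HC Pool.Agent.W437.HD Pool.Agent.TH504.CB Pool.Agent.Y90
open Pool.Agent.NH32
open Pool.Agent.H204R3.CM (IsHodge)

noncomputable section

/-- Sums of homomorphisms. -/
theorem hom_sum {X Y : AV} {ι : Type} (S : Finset ι) (f : ι → (X.H →ₗ[ℚ] Y.H))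
    (h : ∀ k, IsHom X Y (f k)) : IsHom X Y (∑ k ∈ S, f k) := by
  choose Ψ hΨ using h
  refine ⟨∑ k ∈ S, Ψ k, fun v => ?_⟩
  rw [LinearMap.sum_apply, LinearMap.sum_apply, map_sum]
  exact Finset.sum_congr rfl fun k _ => hΨ k v

/-- Inclusion-exclusion: the surjective functions. -/
theorem incl_excl {n : ℕ} {κ : Type} [Fintype κ] [DecidableEq κ] (T : (Fin n → κ) → ℚ) :
    ∑ u : Finset κ, (-1 : ℚ) ^ u.card * ∑ f ∈ Fintype.piFinset (fun _ : Fin n => uᶜ), T f =
      ∑ f ∈ Finset.univ.filter (fun f : Fin n → κ => Function.Surjective f), T f := by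
  classical
  have h4 : ∀ u : Finset κ, (-1 : ℚ) ^ u.card * ∑ f ∈ Fintype.piFinset (fun _ : Fin n => uᶜ), T f =
      ∑ f : Fin n → κ, (if ∀ k, f k ∉ u then (-1 : ℚ) ^ u.card else 0) * T f := by
    intro u
    have h5 : Fintype.piFinset (fun _ : Fin n => uᶜ) =
        Finset.univ.filter fun f : Fin n → κ => ∀ k, f k ∉ u := by
      ext f
      rw [Fintype.mem_piFinset, Finset.mem_filter]
      simp only [Finset.mem_compl, Finset.mem_univ, true_and]
    rw [h5, Finset.mul_sum, Finset.sum_filter]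
    refine Finset.sum_congr rfl fun f _ => ?_
    split_ifs with h6
    · rfl
    · rw [zero_mul]
  rw [Finset.sum_congr rfl fun u _ => h4 u, Finset.sum_comm, Finset.sum_filter]
  refine Finset.sum_congr rfl fun f _ => ?_
  rw [← Finset.sum_mul]
  have h7 : ∑ u : Finset κ, (if ∀ k, f k ∉ u then (-1 : ℚ) ^ u.card else 0) =
      ∑ u ∈ ((Finset.univ.image f)ᶜ).powerset, (-1 : ℚ) ^ u.card := by
    rw [← Finset.sum_filter]
    refine Finset.sum_congr ?_ fun _ _ => rfl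
    ext u
    rw [Finset.mem_filter, Finset.mem_powerset]
    constructor
    · rintro ⟨-, h8⟩ x hx
      rw [Finset.mem_compl, Finset.mem_image]
      rintro ⟨k, -, rfl⟩
      exact h8 k hx
    · intro h8
      refine ⟨Finset.mem_univ _, fun k hk => ?_⟩
      have h9 := h8 hk
      rw [Finset.mem_compl, Finset.mem_image] at h9
      exact h9 ⟨k, Finset.mem_univ _, rfl⟩
  have h8 : ∑ u ∈ ((Finset.univ.image f)ᶜ).powerset, (-1 : ℚ) ^ u.card =
      if (Finset.univ.image f)ᶜ = ∅ then 1 else 0 := by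
    have h9 := Finset.sum_powerset_neg_one_pow_card (x := (Finset.univ.image f)ᶜ)
    have h10 := congrArg (fun z : ℤ => (z : ℚ)) h9
    push_cast at h10
    exact h10
  rw [h7, h8]
  by_cases h9 : Function.Surjective f
  · have h10 : (Finset.univ.image f)ᶜ = ∅ := by
      rw [Finset.compl_eq_empty_iff, Finset.eq_univ_iff_forall]
      intro x
      rw [Finset.mem_image]
      obtain ⟨k, hk⟩ := h9 x
      exact ⟨k, Finset.mem_univ _, hk⟩
    rw [if_pos h10, if_pos h9, one_mul]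
  · have h10 : ¬ (Finset.univ.image f)ᶜ = ∅ := by
      intro h11
      rw [Finset.compl_eq_empty_iff, Finset.eq_univ_iff_forall] at h11
      apply h9
      intro x
      obtain ⟨k, -, hk⟩ := Finset.mem_image.1 (h11 x)
      exact ⟨k, hk⟩
    rw [if_neg h10, if_neg h9, zero_mul]

/-- The surjective functions are the permutations. -/
theorem sum_surj {n : ℕ} {κ : Type} [Fintype κ] [DecidableEq κ] (ψ : Fin n ≃ κ)
    (T : (Fin n → κ) → ℚ) :
    ∑ f ∈ Finset.univ.filter (fun f : Fin n → κ => Function.Surjective f), T f =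
      ∑ σ : Equiv.Perm κ, T (fun l => σ (ψ l)) := by
  classical
  symm
  refine Finset.sum_bij (fun (σ : Equiv.Perm κ) _ => fun l => σ (ψ l)) ?_ ?_ ?_ ?_
  · intro σ _
    rw [Finset.mem_filter]
    exact ⟨Finset.mem_univ _, σ.surjective.comp ψ.surjective⟩
  · intro σ _ σ' _ h
    ext k
    have h1 := congrFun h (ψ.symm k)
    simpa using h1
  · intro f hf
    rw [Finset.mem_filter] at hf
    have h1 : Function.Surjective (fun k => f (ψ.symm k)) := hf.2.comp ψ.symm.surjective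
    refine ⟨Equiv.ofBijective (fun k => f (ψ.symm k)) (Finite.injective_iff_bijective.1
      (Finite.injective_iff_surjective.2 h1)), Finset.mem_univ _, ?_⟩
    funext l
    rw [Equiv.ofBijective_apply, Equiv.symm_apply_apply]
  · intro σ _
    rfl

section one

variable {A Y : AV} {B : Type} [Fintype B] [DecidableEq B] (e : A.H ≃ₗ[ℚ] (B → ℚ))
  {κ : Type} [Fintype κ] [DecidableEq κ] {n : ℕ} (w : Y.H [⋀^Fin n]→ₗ[ℚ] ℚ) (ψ : Fin n ≃ κ)
  (φ : κ → (A.H →ₗ[ℚ] Y.H))

/-- The values as a multilinear map. -/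
def MW : MultilinearMap ℚ (fun _ : κ => A.H) ℚ :=
  (w.toMultilinearMap.domDomCongr ψ).compLinearMap φ

theorem MW_apply (x : κ → A.H) : MW w ψ φ x = w (fun l => φ (ψ l) (x (ψ l))) := rfl

/-- The values of the tensor. -/
theorem vv_q (q : (κ → B) → ℚ)
    (hq : ∀ I, q I = w fun l => φ (ψ l) (e.symm (Pi.single (I (ψ l)) 1))) (x : κ → A.H) :
    vv e (cst ℂ q) x = ((MW w ψ φ x : ℚ) : ℂ) := by
  have h1 : ∀ k, x k = ∑ b, e (x k) b • e.symm (Pi.single b 1) := by
    intro k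
    apply e.injective
    rw [map_sum]
    simp only [map_smul, LinearEquiv.apply_symm_apply]
    funext j
    rw [Finset.sum_apply]
    simp only [Pi.smul_apply, Pi.single_apply, smul_eq_mul, mul_ite, mul_one, mul_zero]
    rw [Finset.sum_ite_eq, if_pos (Finset.mem_univ _)]
  have h2 : MW w ψ φ x = ∑ I : κ → B, (∏ k, e (x k) (I k)) * q I := by
    have h3 : MW w ψ φ x = MW w ψ φ (fun k => ∑ b, e (x k) b • e.symm (Pi.single b 1)) :=
      congrArg _ (funext h1)
    rw [h3, MultilinearMap.map_sum]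
    refine Finset.sum_congr rfl fun I _ => ?_
    rw [MultilinearMap.map_smul_univ, MW_apply, ← hq, smul_eq_mul]
  rw [h2]
  unfold vv evalF
  push_cast
  refine Finset.sum_congr rfl fun I _ => ?_
  rw [mul_comm]
  rfl

/-- The permuted values. -/
theorem perm_val (v : κ → (powAV A κ).H) (σ : Equiv.Perm κ) :
    w (fun l => φ (σ (ψ l)) (evI A (σ (ψ l)) (v (ψ l)))) =
      ((Equiv.Perm.sign σ : ℤ) : ℚ) * MW w ψ φ (fun k => evI A k (v (σ⁻¹ k))) := by
  rw [MW_apply]
  have h1 := w.map_perm (fun l => φ (ψ l) (evI A (ψ l) (v (σ⁻¹ (ψ l)))))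
    (Equiv.permCongr ψ.symm σ)
  have h2 : (fun l => φ (ψ l) (evI A (ψ l) (v (σ⁻¹ (ψ l))))) ∘ (Equiv.permCongr ψ.symm σ) =
      fun l => φ (σ (ψ l)) (evI A (σ (ψ l)) (v (ψ l))) := by
    funext l
    simp only [Function.comp_apply, Equiv.permCongr_apply, Equiv.symm_symm,
      Equiv.apply_symm_apply, Equiv.Perm.inv_def, Equiv.symm_apply_apply]
  rw [h2] at h1
  rw [h1, Equiv.Perm.sign_permCongr, Units.smul_def, zsmul_eq_mul]

/-- **The form of a Weil class** as an alternating sum of pull-backs. -/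
theorem key (v : κ → (powAV A κ).H) :
    ∑ u : Finset κ, (-1 : ℚ) ^ u.card *
      w (fun l => (∑ k ∈ uᶜ, (φ k) ∘ₗ (evI A k)) (v (ψ l))) =
      ∑ σ : Equiv.Perm κ, ((Equiv.Perm.sign σ : ℤ) : ℚ) *
        MW w ψ φ (fun k => evI A k (v (σ k))) := by
  have h1 : ∀ u : Finset κ, w (fun l => (∑ k ∈ uᶜ, (φ k) ∘ₗ (evI A k)) (v (ψ l))) =
      ∑ f ∈ Fintype.piFinset (fun _ : Fin n => uᶜ),
        w (fun l => φ (f l) (evI A (f l) (v (ψ l)))) := by
    intro u
    have h2 := w.toMultilinearMap.map_sum_finset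
      (fun (l : Fin n) (k : κ) => φ k (evI A k (v (ψ l)))) (fun _ => uᶜ)
    have h3 : (fun l => (∑ k ∈ uᶜ, (φ k) ∘ₗ (evI A k)) (v (ψ l))) =
        fun l => ∑ k ∈ uᶜ, φ k (evI A k (v (ψ l))) := by
      funext l
      rw [LinearMap.sum_apply]
      rfl
    rw [h3]
    exact h2
  rw [Finset.sum_congr rfl fun u _ => by rw [h1 u]]
  rw [incl_excl, sum_surj ψ]
  rw [Finset.sum_congr rfl fun σ _ => perm_val w ψ φ v σ]
  refine Fintype.sum_equiv (Equiv.inv (Equiv.Perm κ)) _ _ fun σ => ?_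
  rw [Equiv.inv_apply, Equiv.Perm.sign_inv]

end one

end

end Pool.Agent.NH32.WJ5

namespace Pool.Agent.NH32

open Matrix Module Pool.Agent.W437.HC Pool.Agent.W437.HD Pool.Agent.TH504.CB Pool.Agent.Y90
open Pool.Agent.H204R3.CM (IsHodge)
open WJ5

/-- **J5.** -/
theorem TQweil_of : St_TQweil := by
  intro B _ _ A e 𝒜 hW κ _ _ q hq
  obtain ⟨Y, n, w, ψ, φ, hw, hφ, hqI⟩ := hq
  rw [mem_TQ]
  have h1 : ∀ u : Finset κ, (fun v : κ → (powAV A κ).H =>
      ((w (fun l => (∑ k ∈ uᶜ, (φ k) ∘ₗ (evI A k)) (v (ψ l))) : ℚ) : ℂ)) ∈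
      RA 𝒜 (powAV A κ) κ := by
    intro u
    have hΦ : IsHom (powAV A κ) Y (∑ k ∈ uᶜ, (φ k) ∘ₗ (evI A k)) :=
      hom_sum _ _ fun k => IsHom.comp (hφ k) (evI_hom k)
    have h2 := RA_of (hW Y n w hw)
    have h3 := RA_pull (X := powAV A κ) (Y := Y) _ hΦ h2
    exact RA_reindex ψ h3
  have h2 : fm e (id : κ → κ) (cst ℂ q) = ∑ u : Finset κ, ((-1 : ℂ) ^ u.card) •
      (fun v : κ → (powAV A κ).H =>
        ((w (fun l => (∑ k ∈ uᶜ, (φ k) ∘ₗ (evI A k)) (v (ψ l))) : ℚ) : ℂ)) := by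
    funext v
    rw [Finset.sum_apply, fm_apply]
    have h3 := key w ψ φ v
    simp only [Pi.smul_apply, smul_eq_mul]
    obtain ⟨T, hT⟩ : ∃ T : Finset κ → ℚ, T = fun u =>
      w (fun l => (∑ k ∈ uᶜ, (φ k) ∘ₗ (evI A k)) (v (ψ l))) := ⟨_, rfl⟩
    have hT' : ∀ u, w (fun l => (∑ k ∈ uᶜ, (φ k) ∘ₗ (evI A k)) (v (ψ l))) = T u := fun u => by
      rw [hT]
    rw [Finset.sum_congr rfl fun u _ => by rw [hT' u]] at h3
    rw [Finset.sum_congr rfl (g := fun u => (-1 : ℂ) ^ u.card * ((T u : ℚ) : ℂ))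
      fun u _ => by rw [hT' u]]
    have h4 := congrArg (fun z : ℚ => (z : ℂ)) h3
    push_cast at h4
    rw [h4]
    refine Finset.sum_congr rfl fun σ _ => ?_
    rw [vv_q e w ψ φ q hqI]
    rfl
  rw [h2]
  exact Submodule.sum_mem _ fun u _ => Submodule.smul_mem _ _ (h1 u)

end Pool.Agent.NH32
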