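import Pool.Agent.NH32.GtD
import Pool.Agent.NH32.WJ5

/-!
# Project G, stage 3: the tensors of the pull-backs
-/

set_option linter.unusedSectionVars false

namespace Pool.Agent.NH32

open Matrix Module Pool.Agent.W437.HC Pool.Agent.W437.HD Pool.Agent.TH504.CB Pool.Agent.Y90
open Pool.Agent.H204R3.CM (IsHodge)
open Pool.Agent.W548.Odd hiding cv

noncomputable section

namespace GD7d

open WJ5

/-- The pull-backs of a class of the system. -/
theorem TQ_pull {A Y : AV} {B : Type} [Fintype B] [DecidableEq B] (e : A.H ≃ₗ[ℚ] (B → ℚ))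
    (𝒜 : Sys) {κ : Type} [Fintype κ] [DecidableEq κ] {n : ℕ} (w : Y.H [⋀^Fin n]→ₗ[ℚ] ℚ)
    (hw : 𝒜.A Y (Fin n) w) (ψ : Fin n ≃ κ) (φ : κ → (A.H →ₗ[ℚ] Y.H)) (hφ : ∀ k, IsHom A Y (φ k))
    (q : (κ → B) → ℚ)
    (hqI : ∀ I, q I = w fun l => φ (ψ l) (e.symm (Pi.single (I (ψ l)) 1))) :
    cst ℂ q ∈ TQ e 𝒜 κ := by
  rw [mem_TQ]
  have h1 : ∀ u : Finset κ, (fun v : κ → (powAV A κ).H =>
      ((w (fun l => (∑ k ∈ uᶜ, (φ k) ∘ₗ (evI A k)) (v (ψ l))) : ℚ) : ℂ)) ∈
      RA 𝒜 (powAV A κ) κ := by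
    intro u
    have hΦ : IsHom (powAV A κ) Y (∑ k ∈ uᶜ, (φ k) ∘ₗ (evI A k)) :=
      hom_sum _ _ fun k => IsHom.comp (hφ k) (evI_hom k)
    have h2 := RA_of hw
    have h3 := RA_pull (X := powAV A κ) (Y := Y) _ hΦ h2
    exact RA_reindex ψ h3
  have h2 : fm e (id : κ → κ) (cst ℂ q) = ∑ u : Finset κ, ((-1 : ℂ) ^ u.card) •
      (fun v : κ → (powAV A κ).H =>
        ((w (fun l => (∑ k ∈ uᶜ, (φ k) ∘ₗ (evI A k)) (v (ψ l))) : ℚ) : ℂ)) := by
    funext v
    rw [Finset.sum_apply, fm_apply]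
    have h3 := key w ψ φ v
    simp only [Pi.smul_apply, smul_eq_mul]
    obtain ⟨T, hT⟩ : ∃ T : Finset κ → ℚ, T = fun u =>
      w (fun l => (∑ k ∈ uᶜ, (φ k) ∘ₗ (evI A k)) (v (ψ l))) := ⟨_, rfl⟩
    have hT' : ∀ u, w (fun l => (∑ k ∈ uᶜ, (φ k) ∘ₗ (evI A k)) (v (ψ l))) = T u := fun u => by
      rw [hT]
    rw [Finset.sum_congr rfl fun u _ => by rw [hT' u]] at h3
    rw [Finset.sum_congr rfl (g := fun u => (-1 : ℂ) ^ u.card * ((T u : ℚ) : ℂ))
      fun u _ => by rw [hT' u]]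
    have h4 := congrArg (fun z : ℚ => (z : ℂ)) h3
    push_cast at h4
    rw [h4]
    refine Finset.sum_congr rfl fun σ _ => ?_
    rw [vv_q e w ψ φ q hqI]
    rfl
  rw [h2]
  exact Submodule.sum_mem _ fun u _ => Submodule.smul_mem _ _ (h1 u)

variable {K : Subfield ℂ} {d : ℕ} {Y : AV}

/-- The determinant over the rational numbers. -/
def detK (K : Subfield ℂ) (n : ℕ) : (Fin n → K) [⋀^Fin n]→ₗ[ℚ] K :=
  { (detRowAlternating (R := K) (n := Fin n)).toMultilinearMap.restrictScalars ℚ with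
    map_eq_zero_of_eq' := (detRowAlternating (R := K) (n := Fin n)).map_eq_zero_of_eq' }

theorem detK_apply (n : ℕ) (v : Fin n → Fin n → K) : detK K n v = det (of v) := rfl

/-- The class `Tr (a det)`. -/
def wA (b : Y.H ≃ₗ[ℚ] (Fin d ⊕ Fin d → K)) (a : K) : Y.H [⋀^Fin (d + d)]→ₗ[ℚ] ℚ :=
  ((Algebra.trace ℚ K ∘ₗ LinearMap.mulLeft ℚ a).compAlternatingMap (detK K (d + d))).compLinearMap
    (LinearMap.funLeft ℚ K (finSumFinEquiv (m := d) (n := d)).symm ∘ₗ b.toLinearMap)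

theorem wA_apply (b : Y.H ≃ₗ[ℚ] (Fin d ⊕ Fin d → K)) (a : K) (v : Fin (d + d) → Y.H) :
    wA b a v = Algebra.trace ℚ K (a * det (of fun k j : Fin (d + d) =>
      b (v k) (finSumFinEquiv.symm j))) := rfl

theorem wA_isDet (b : Y.H ≃ₗ[ℚ] (Fin d ⊕ Fin d → K)) (a : K) : IsDet b a (wA b a) := by
  intro v
  rw [wA_apply]
  have h1 : (of fun k j : Fin (d + d) => b (v (finSumFinEquiv.symm k)) (finSumFinEquiv.symm j)) =
      (of fun i j => b (v i) j).submatrix (finSumFinEquiv (m := d) (n := d)).symm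
        (finSumFinEquiv (m := d) (n := d)).symm := rfl
  rw [h1, det_submatrix_equiv_self]

end GD7d

open GD7d in
/-- **D7d** -/
theorem ten_of : St_ten := by
  intro K hK d Y b 𝒜 hA X P f hP hf B _ _ e
  have hfin : FiniteDimensional ℚ K := hK.fin
  -- the homomorphisms
  let φ : Fin d ⊕ Fin d → (X.H →ₗ[ℚ] Y.H) := Sum.elim
    (fun _ => b.symm.toLinearMap ∘ₗ scK K _ 1 ∘ₗ LinearMap.pi (Sum.elim P 0))
    (fun k => b.symm.toLinearMap ∘ₗ scK K _ 1 ∘ₗ LinearMap.pi (Sum.elim 0 (Pi.single k (f k))))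
  have hφ : ∀ k, IsHom X Y (φ k) := by
    intro k
    cases k with
    | inl k => exact hP 1
    | inr k => exact hf k 1
  have hφl : ∀ (k : Fin d) (x : X.H) (j : Fin d ⊕ Fin d),
      b (φ (Sum.inl k) x) j = (Sum.elim P 0 : Fin d ⊕ Fin d → (X.H →ₗ[ℚ] K)) j x := by
    intro k x j
    change b (b.symm (scK K _ 1 (LinearMap.pi (Sum.elim P 0) x))) j = _
    rw [LinearEquiv.apply_symm_apply]
    change 1 * (Sum.elim P 0 : Fin d ⊕ Fin d → (X.H →ₗ[ℚ] K)) j x = _
    rw [one_mul]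
  have hφr : ∀ (k : Fin d) (x : X.H) (j : Fin d ⊕ Fin d), b (φ (Sum.inr k) x) j =
      (Sum.elim 0 (Pi.single k (f k)) : Fin d ⊕ Fin d → (X.H →ₗ[ℚ] K)) j x := by
    intro k x j
    change b (b.symm (scK K _ 1 (LinearMap.pi (Sum.elim 0 (Pi.single k (f k))) x))) j = _
    rw [LinearEquiv.apply_symm_apply]
    change 1 * (Sum.elim 0 (Pi.single k (f k)) : Fin d ⊕ Fin d → (X.H →ₗ[ℚ] K)) j x = _
    rw [one_mul]
  -- the values of the tensor in `K`
  obtain ⟨D, hD⟩ : ∃ D : ((Fin d ⊕ Fin d) → B) → K, D = fun J =>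
    det (of fun i k : Fin d => P i (e.symm (Pi.single (J (Sum.inl k)) 1))) *
      ∏ j, f j (e.symm (Pi.single (J (Sum.inr j)) 1)) := ⟨_, rfl⟩
  have hDdet : ∀ J, det (of fun i j : Fin d ⊕ Fin d =>
      b (φ i (e.symm (Pi.single (J i) 1))) j) = D J := by
    intro J
    have h1 : (of fun i j : Fin d ⊕ Fin d => b (φ i (e.symm (Pi.single (J i) 1))) j) =
        fromBlocks (of fun i k : Fin d => P i (e.symm (Pi.single (J (Sum.inl k)) 1)))ᵀ 0 0
          (diagonal fun j => f j (e.symm (Pi.single (J (Sum.inr j)) 1))) := by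
      ext i j
      rw [of_apply]
      cases i with
      | inl i =>
        rw [hφl]
        cases j with
        | inl j => rfl
        | inr j => rfl
      | inr i =>
        rw [hφr]
        cases j with
        | inl j => rfl
        | inr j =>
          rw [fromBlocks_apply₂₂, Sum.elim_inr, diagonal_apply]
          by_cases h : i = j
          · subst h
            rw [Pi.single_eq_same, if_pos rfl]
          · rw [Pi.single_eq_of_ne (Ne.symm h), if_neg h]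
            rfl
    rw [h1, det_fromBlocks_zero₂₁, det_transpose, det_diagonal, hD]
  have hdT : dT (fun j c => toC (P j) (e.symm (Pi.single c 1)))
      (fun j c => toC (f j) (e.symm (Pi.single c 1))) = fun J => ((D J : K) : ℂ) := by
    funext J
    unfold dT
    rw [hD]
    have h0 : ∀ z : K, ((z : K) : ℂ) = K.subtype z := fun _ => rfl
    beta_reduce
    rw [h0, map_mul, map_prod, RingHom.map_det]
    rfl
  -- dual bases
  let β := Module.finBasis ℚ K
  let β' := β.traceDual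
  obtain ⟨q, hq⟩ : ∃ q : Fin (finrank ℚ K) → ((Fin d ⊕ Fin d) → B) → ℚ,
    q = fun i J => Algebra.trace ℚ K (β i * D J) := ⟨_, rfl⟩
  have hqT : ∀ i, cst ℂ (q i) ∈ TQ e 𝒜 (Fin d ⊕ Fin d) := by
    intro i
    refine TQ_pull e 𝒜 (wA b (β i)) (hA (β i) _ (wA_isDet b (β i))) finSumFinEquiv.symm φ hφ (q i)
      fun J => ?_
    have h1 := wA_isDet b (β i) (fun k => φ k (e.symm (Pi.single (J k) 1)))
    rw [h1, hDdet, hq]
  have hsum : (fun J => ((D J : K) : ℂ)) = ∑ i, ((β' i : K) : ℂ) • cst ℂ (q i) := by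
    funext J
    rw [Finset.sum_apply]
    have h1 : D J = ∑ i, q i J • β' i := by
      rw [← β'.sum_repr (D J)]
      refine Finset.sum_congr rfl fun i _ => ?_
      rw [Module.Basis.traceDual_repr_apply, Algebra.traceForm_apply, hq, mul_comm]
    have h2 := congrArg K.subtype h1
    rw [map_sum] at h2
    refine h2.trans (Finset.sum_congr rfl fun i _ => ?_)
    rw [Pi.smul_apply, smul_eq_mul, cst_apply, Rat.smul_def, map_mul, map_ratCast, mul_comm]
    rfl
  rw [hdT, hsum]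
  exact Submodule.sum_mem _ fun i _ => Submodule.smul_mem _ _ (hqT i)

end

end Pool.Agent.NH32
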