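import Mathlib
import Pool.Agent.NH32.GtD
import Pool.Agent.NH32.WJ7

/-!
# Project G, D8: the action on the determinant tensor
-/

set_option linter.unusedSectionVars false

namespace Pool.Agent.NH32

open Matrix

namespace GD8

variable {B : Type} [Fintype B] [DecidableEq B]

/-- a left inverse of the matrix with linearly independent columns -/
theorem exists_left {d : ℕ} {P : Fin d → B → ℂ} (h : LinearIndependent ℂ P) :
    ∃ Q : Matrix (Fin d) B ℂ, Q * (of fun b j => P j b) = 1 := by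
  have hker : LinearMap.ker (Matrix.toLin' (of fun b j => P j b : Matrix B (Fin d) ℂ)) = ⊥ := by
    rw [LinearMap.ker_eq_bot']
    intro c hc
    have h1 : ∑ j, c j • P j = 0 := by
      rw [← hc]
      funext b
      rw [Matrix.toLin'_apply]
      simp only [Finset.sum_apply, Pi.smul_apply, smul_eq_mul, mulVec, dotProduct, of_apply]
      exact Finset.sum_congr rfl fun j _ => mul_comm _ _
    funext j
    exact (Fintype.linearIndependent_iff.1 h) c h1 j
  obtain ⟨g, hg⟩ := LinearMap.exists_leftInverse_of_injective _ hker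
  refine ⟨LinearMap.toMatrix' g, ?_⟩
  have h2 := congrArg LinearMap.toMatrix' hg
  rw [LinearMap.toMatrix'_comp, LinearMap.toMatrix'_toLin', LinearMap.toMatrix'_id] at h2
  exact h2

theorem dT_eq {d : ℕ} (P f : Fin d → B → ℂ) (J : Fin d ⊕ Fin d → B) :
    dT P f J = WJ7.D P (fun k => J (Sum.inl k)) * ∏ j, f j (J (Sum.inr j)) := rfl

theorem mat_eq {d : ℕ} {P : Fin d → B → ℂ} {u : Matrix B B ℂ} {C : Matrix (Fin d) (Fin d) ℂ}
    (hC : ∀ i, u *ᵥ P i = ∑ k, C k i • P k) :
    u * (of fun b j => P j b) = (of fun b j => P j b) * C := by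
  ext b i
  have h := congrFun (hC i) b
  simp only [Finset.sum_apply, Pi.smul_apply, smul_eq_mul] at h
  simp only [Matrix.mul_apply, of_apply]
  have h2 : ∑ j, u b j * P i j = (u *ᵥ P i) b := rfl
  rw [h2, h]
  exact Finset.sum_congr rfl fun k _ => mul_comm _ _

theorem ev_eq {d : ℕ} {f : Fin d → B → ℂ} {u : Matrix B B ℂ} {b : Fin d → ℂ}
    (hf : ∀ j, u *ᵥ f j = b j • f j) (j : Fin d) (i : B) :
    ∑ c, u i c * f j c = b j * f j i := congrFun (hf j) i

theorem kp_dT {d : ℕ} {P f : Fin d → B → ℂ} {u : Matrix B B ℂ} {C : Matrix (Fin d) (Fin d) ℂ}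
    {b : Fin d → ℂ} (hC : ∀ i, u *ᵥ P i = ∑ k, C k i • P k) (hf : ∀ j, u *ᵥ f j = b j • f j) :
    kp (Fin d ⊕ Fin d) u *ᵥ dT P f = (det C * ∏ j, b j) • dT P f := by
  funext I
  rw [mvA, ← Equiv.sum_comp (Equiv.sumArrowEquivProdArrow (Fin d) (Fin d) B).symm,
    Fintype.sum_prod_type]
  have h1 : ∀ J₁ J₂ : Fin d → B,
      kp (Fin d ⊕ Fin d) u I ((Equiv.sumArrowEquivProdArrow (Fin d) (Fin d) B).symm (J₁, J₂)) *
        dT P f ((Equiv.sumArrowEquivProdArrow (Fin d) (Fin d) B).symm (J₁, J₂)) =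
      ((∏ k, u (I (Sum.inl k)) (J₁ k)) * WJ7.D P J₁) *
        ∏ j, (u (I (Sum.inr j)) (J₂ j) * f j (J₂ j)) := by
    intro J₁ J₂
    rw [kp_apply, dT_eq, Fintype.prod_sum_type, Finset.prod_mul_distrib]
    simp only [Equiv.sumArrowEquivProdArrow_symm_apply_inl,
      Equiv.sumArrowEquivProdArrow_symm_apply_inr]
    ring
  simp only [h1]
  have h2 : ∀ J₁ : Fin d → B, ∑ J₂ : Fin d → B,
      ((∏ k, u (I (Sum.inl k)) (J₁ k)) * WJ7.D P J₁) *
        ∏ j, (u (I (Sum.inr j)) (J₂ j) * f j (J₂ j)) =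
      ((∏ k, u (I (Sum.inl k)) (J₁ k)) * WJ7.D P J₁) *
        ∏ j, (b j * f j (I (Sum.inr j))) := by
    intro J₁
    rw [← Finset.mul_sum]
    congr 1
    have h3 := Finset.prod_univ_sum (fun _ : Fin d => (Finset.univ : Finset B))
      (fun j c => u (I (Sum.inr j)) c * f j c)
    rw [Fintype.piFinset_univ] at h3
    rw [← h3]
    exact Finset.prod_congr rfl fun j _ => ev_eq hf j _
  simp only [h2]
  rw [← Finset.sum_mul, WJ7.kp_block P u C (mat_eq hC) (fun k => I (Sum.inl k)),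
    Finset.prod_mul_distrib, Pi.smul_apply, smul_eq_mul, dT_eq]
  ring

theorem dm_dT {d : ℕ} {P f : Fin d → B → ℂ} {u : Matrix B B ℂ} {C : Matrix (Fin d) (Fin d) ℂ}
    {b : Fin d → ℂ} (hC : ∀ i, u *ᵥ P i = ∑ k, C k i • P k) (hf : ∀ j, u *ᵥ f j = b j • f j) :
    dm (Fin d ⊕ Fin d) u *ᵥ dT P f = (trace C + ∑ j, b j) • dT P f := by
  funext I
  rw [dm_mulVec_apply, Fintype.sum_sum_type, Pi.smul_apply, smul_eq_mul, add_mul]
  congr 1
  · have h1 : ∀ (k : Fin d) (c : B), dT P f (Function.update I (Sum.inl k) c) =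
        WJ7.D P (Function.update (fun k => I (Sum.inl k)) k c) * ∏ j, f j (I (Sum.inr j)) := by
      intro k c
      rw [dT_eq]
      congr 1
      · congr 1
        funext k'
        by_cases h : k' = k
        · subst h; simp
        · rw [Function.update_of_ne h, Function.update_of_ne (by simpa using h)]
    have h2 : ∑ k : Fin d, ∑ c, u (I (Sum.inl k)) c * dT P f (Function.update I (Sum.inl k) c) =
        (∑ k : Fin d, ∑ c, u (I (Sum.inl k)) c *
          WJ7.D P (Function.update (fun k => I (Sum.inl k)) k c)) * ∏ j, f j (I (Sum.inr j)) := by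
      rw [Finset.sum_mul]
      refine Finset.sum_congr rfl fun k _ => ?_
      rw [Finset.sum_mul]
      refine Finset.sum_congr rfl fun c _ => ?_
      rw [h1, mul_assoc]
    rw [h2, WJ7.dm_block P u C (mat_eq hC) (fun k => I (Sum.inl k)), dT_eq, mul_assoc]
  · rw [Finset.sum_mul]
    refine Finset.sum_congr rfl fun k _ => ?_
    have h1 : ∀ c : B, dT P f (Function.update I (Sum.inr k) c) =
        WJ7.D P (fun k => I (Sum.inl k)) *
          (f k c * ∏ j ∈ Finset.univ.erase k, f j (I (Sum.inr j))) := by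
      intro c
      rw [dT_eq]
      congr 1
      rw [← Finset.mul_prod_erase _ _ (Finset.mem_univ k), Function.update_self]
      congr 1
      refine Finset.prod_congr rfl fun j hj => ?_
      rw [Function.update_of_ne]
      simpa using Finset.ne_of_mem_erase hj
    simp only [h1]
    have h2 : ∑ c, u (I (Sum.inr k)) c * (WJ7.D P (fun k => I (Sum.inl k)) *
        (f k c * ∏ j ∈ Finset.univ.erase k, f j (I (Sum.inr j)))) =
        (∑ c, u (I (Sum.inr k)) c * f k c) * (WJ7.D P (fun k => I (Sum.inl k)) *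
          ∏ j ∈ Finset.univ.erase k, f j (I (Sum.inr j))) := by
      rw [Finset.sum_mul]
      refine Finset.sum_congr rfl fun c _ => ?_
      ring
    rw [h2, ev_eq hf k, dT_eq, ← Finset.mul_prod_erase _ _ (Finset.mem_univ k)]
    ring

end GD8

open GD8 in
theorem dT_of : St_dT := by
  intro B _ _ d P f hP hf
  refine ⟨?_, fun u C b hC hb => ⟨kp_dT hC hb, dm_dT hC hb⟩⟩
  obtain ⟨Q, hQ⟩ := exists_left hP
  obtain ⟨J₁, hJ₁⟩ := WJ7.exists_D_ne P Q hQ
  have hex : ∀ j, ∃ c, f j c ≠ 0 := fun j => Function.ne_iff.1 (hf j)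
  choose J₂ hJ₂ using hex
  intro h0
  have h1 := congrFun h0 (Sum.elim J₁ J₂)
  rw [dT_eq] at h1
  have h2 : (WJ7.D P fun k => (Sum.elim J₁ J₂ : Fin d ⊕ Fin d → B) (Sum.inl k)) = WJ7.D P J₁ := rfl
  rw [h2] at h1
  refine (mul_ne_zero hJ₁ ?_) h1
  exact Finset.prod_ne_zero_iff.2 fun j _ => hJ₂ j

end Pool.Agent.NH32
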