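import Pool.Agent.NH32.GsB

/-!
# Project G, G16: the hull
-/

set_option linter.unusedSectionVars false

namespace Pool.Agent.NH32

open Matrix Module Pool.Agent.W437.HC Pool.Agent.W437.HD Pool.Agent.TH504.CB Pool.Agent.Y90
open Pool.Agent.H204R3.CM (IsHodge)
open Pool.Agent.W548.Odd hiding cv

noncomputable section

namespace GJ16

/-- equality of the restrictions to `K` -/
def RK (K : Subfield ℂ) (σ τ : ℂ ≃+* ℂ) : Prop := ∀ z ∈ K, σ z = τ z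

/-- odd sign functions depending only on the restriction to `K` -/
def SF (K : Subfield ℂ) : Set ((ℂ ≃+* ℂ) → ℤ) :=
  {F | (∀ σ, F σ = 1 ∨ F σ = -1) ∧ (∀ σ, F (cj.trans σ) = -F σ) ∧
    ∀ σ τ, (∀ z ∈ K, σ z = τ z) → F σ = F τ}

/-- restriction -/
def res (K : Subfield ℂ) (σ : ℂ ≃+* ℂ) : K →+* ℂ := (σ : ℂ →+* ℂ).comp K.subtype

theorem res_eq (K : Subfield ℂ) (σ τ : ℂ ≃+* ℂ) (h : res K σ = res K τ) : ∀ z ∈ K, σ z = τ z := by
  intro z hz
  exact congrArg (fun f : K →+* ℂ => f ⟨z, hz⟩) h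

theorem fin_hom (K : Subfield ℂ) (hK : FiniteDimensional ℚ K) : Finite (K →+* ℂ) :=
  Finite.of_equiv (K →ₐ[ℚ] ℂ) (RingHom.equivRatAlgHom (R := K) (S := ℂ)).symm

theorem SF_fin (K : Subfield ℂ) (hK : FiniteDimensional ℚ K) : (SF K).Finite := by
  classical
  have := fin_hom K hK
  let g : ((ℂ ≃+* ℂ) → ℤ) → Set (K →+* ℂ) := fun F => {ρ | ∃ σ, res K σ = ρ ∧ F σ = 1}
  refine Set.Finite.of_finite_image (f := g) (Set.toFinite _) ?_
  intro F hF F' hF' hg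
  have key : ∀ F ∈ SF K, ∀ σ, F σ = 1 ↔ res K σ ∈ g F := by
    intro F hF σ
    constructor
    · intro h
      exact ⟨σ, rfl, h⟩
    · rintro ⟨τ, hτ, h⟩
      rw [hF.2.2 σ τ (res_eq K σ τ hτ.symm), h]
  funext σ
  have hg' : g F = g F' := hg
  have h1 : F σ = 1 ↔ F' σ = 1 := by rw [key F hF, key F' hF', hg']
  rcases hF.1 σ with h | h <;> rcases hF'.1 σ with h' | h'
  · rw [h, h']
  · exact absurd (h1.mp h) (by rw [h']; norm_num)
  · exact absurd (h1.mpr h') (by rw [h]; norm_num)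
  · rw [h, h']

open Classical in
/-- the sign function of `I` -/
def F0 (σ : ℂ ≃+* ℂ) : ℤ := if σ Complex.I = Complex.I then 1 else -1

theorem sI (σ : ℂ ≃+* ℂ) : σ Complex.I = Complex.I ∨ σ Complex.I = -Complex.I := by
  have h : σ Complex.I * σ Complex.I = Complex.I * Complex.I := by
    rw [← map_mul, Complex.I_mul_I, map_neg, map_one]
  exact mul_self_eq_mul_self_iff.mp h

theorem cj_I : cj Complex.I = -Complex.I := Complex.conj_I

theorem I_ne : (-Complex.I : ℂ) ≠ Complex.I := by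
  intro h
  have := congrArg Complex.im h
  norm_num at this

theorem F0_mem (K : Subfield ℂ) (hI : Complex.I ∈ K) : F0 ∈ SF K := by
  refine ⟨fun σ => ?_, fun σ => ?_, fun σ τ h => ?_⟩
  · unfold F0
    split_ifs
    · exact Or.inl rfl
    · exact Or.inr rfl
  · have e : (cj.trans σ) Complex.I = - σ Complex.I := by
      rw [RingEquiv.trans_apply, cj_I, map_neg]
    unfold F0
    rw [e]
    rcases sI σ with h | h
    · rw [h, if_neg I_ne, if_pos rfl]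
    · rw [h, neg_neg, if_pos rfl, if_neg I_ne, neg_neg]
  · unfold F0
    rw [h _ hI]

theorem fac_refl (A : AV) : Fac A A :=
  ⟨LinearMap.id, LinearMap.id, ⟨LinearMap.id, fun _ => rfl⟩, ⟨LinearMap.id, fun _ => rfl⟩, rfl⟩

/-- induction over lists of sign functions -/
theorem list_hull (h1 : St_cm) (h3 : St_pr) (h4 : St_fac) (A : AV) (K : Subfield ℂ)
    (hK : FiniteDimensional ℚ K) (hs : ∀ σ : ℂ ≃+* ℂ, ∀ z ∈ K, σ z ∈ K)
    (hc : ∀ σ : ℂ ≃+* ℂ, ∀ z ∈ K, σ (cj z) = cj (σ z)) (l : List ((ℂ ≃+* ℂ) → ℤ))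
    (hl : ∀ F ∈ l, F ∈ SF K) : ∃ X : AV, Fac A X ∧
    (∀ (d : ℕ) (Δ : (ℂ ≃+* ℂ) → Matrix (Fin d) (Fin d) ℂ), IrD Δ → Rz X d Δ →
      Rz A d Δ ∨ (d = 1 ∧ ∀ σ τ : ℂ ≃+* ℂ, (∀ z ∈ K, σ z = τ z) → trace (Δ σ) = trace (Δ τ))) ∧
    ∀ F ∈ l, Rz X 1 (lineD F) := by
  induction l with
  | nil => exact ⟨A, fac_refl A, fun d Δ _ h => Or.inl h, fun F hF => absurd hF List.not_mem_nil⟩
  | cons F l ih =>
    obtain ⟨X, hX, hX2, hX3⟩ := ih (fun G hG => hl G (List.mem_cons_of_mem _ hG))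
    obtain ⟨hF1, hF2, hF3⟩ := hl F List.mem_cons_self
    obtain ⟨C, hC, hC2⟩ := h1 K hK hs hc F hF1 hF2 hF3
    obtain ⟨P, hP1, hP2, hP3⟩ := h3 X C
    refine ⟨P, h4.2.1 A X P hX hP1, fun d Δ hΔ hR => ?_, fun G hG => ?_⟩
    · rcases hP3 d Δ hΔ hR with h | h
      · exact hX2 d Δ hΔ h
      · exact Or.inr (hC2 d Δ hΔ h)
    · rcases List.mem_cons.mp hG with rfl | hG
      · exact h4.1 C P hP2 1 _ hC
      · exact h4.1 X P hP1 1 _ (hX3 G hG)

end GJ16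

theorem hull_of (h1 : St_cm) (h2 : St_fld) (h3 : St_pr) (h4 : St_fac) : St_hull := by
  intro A
  obtain ⟨K, hK, hs, hc, hI, hA⟩ := h2 A
  obtain ⟨X, hX, hX2, hX3⟩ := GJ16.list_hull h1 h3 h4 A K hK hs hc (GJ16.SF_fin K hK).toFinset.toList
    (fun F hF => by
      rw [Finset.mem_toList, Set.Finite.mem_toFinset] at hF
      exact hF)
  have hX3' : ∀ F ∈ GJ16.SF K, Rz X 1 (lineD F) := fun F hF => hX3 F (by
    rw [Finset.mem_toList, Set.Finite.mem_toFinset]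
    exact hF)
  refine ⟨X, hX, ⟨⟨_, hX3' GJ16.F0 (GJ16.F0_mem K hI)⟩, fun F hF1 hF2 hF3 => ?_⟩,
    fun d Δ hΔ hR => ?_⟩
  · refine hX3' F ⟨hF1, hF2, fun σ τ hst => hF3 σ τ fun d Δ hΔ hR => ?_⟩
    rcases hX2 d Δ hΔ hR with h | h
    · exact hA σ τ hst d Δ h
    · exact h.2 σ τ hst
  · rcases hX2 d Δ hΔ hR with h | h
    · exact Or.inr h
    · exact Or.inl h.1

end

end Pool.Agent.NH32
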