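import Pool.Agent.NH32.GtD
import Pool.Agent.NH32.GJ16

/-!
# Project G, stage 3, D9: the hull with more lines
-/

set_option linter.unusedSectionVars false

namespace Pool.Agent.NH32

open Matrix Module Pool.Agent.W437.HC Pool.Agent.W437.HD Pool.Agent.TH504.CB Pool.Agent.Y90
open Pool.Agent.H204R3.CM (IsHodge)
open Pool.Agent.W548.Odd hiding cv

noncomputable section

namespace GD9

theorem fd_sub (K : Subfield ℂ) (E : IntermediateField ℚ ℂ) (hE : FiniteDimensional ℚ E)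
    (h : ∀ x ∈ K, x ∈ E) : FiniteDimensional ℚ K := by
  let f : K →+ E :=
    { toFun := fun x => ⟨x, h x x.2⟩
      map_zero' := rfl
      map_add' := fun _ _ => rfl }
  have hf : Function.Injective f.toRatLinearMap := by
    intro a b hab
    have h1 := congrArg (fun z : E => (z : ℂ)) hab
    exact Subtype.ext h1
  exact Module.Finite.of_injective f.toRatLinearMap hf

theorem fd_int (K : Subfield ℂ) (hK : FiniteDimensional ℚ K) (E : IntermediateField ℚ ℂ)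
    (h : ∀ x ∈ E, x ∈ K) : FiniteDimensional ℚ E := by
  let f : E →+ K :=
    { toFun := fun x => ⟨x, h x x.2⟩
      map_zero' := rfl
      map_add' := fun _ _ => rfl }
  have hf : Function.Injective f.toRatLinearMap := by
    intro a b hab
    have h1 := congrArg (fun z : K => (z : ℂ)) hab
    exact Subtype.ext h1
  exact Module.Finite.of_injective f.toRatLinearMap hf

/-- the intermediate field -/
def toI (K : Subfield ℂ) : IntermediateField ℚ ℂ :=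
  K.toIntermediateField fun x => by
    rw [eq_ratCast]
    exact SubfieldClass.ratCast_mem K x

theorem mem_toI {K : Subfield ℂ} {x : ℂ} : x ∈ toI K ↔ x ∈ K := Iff.rfl

theorem fd_sup (K₁ K₂ : Subfield ℂ) (h1 : FiniteDimensional ℚ K₁)
    (h2 : FiniteDimensional ℚ K₂) : FiniteDimensional ℚ (K₁ ⊔ K₂ : Subfield ℂ) := by
  have e1 : FiniteDimensional ℚ (toI K₁) := fd_int K₁ h1 _ fun x hx => hx
  have e2 : FiniteDimensional ℚ (toI K₂) := fd_int K₂ h2 _ fun x hx => hx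
  have e4 : FiniteDimensional ℚ (toI K₁ ⊔ toI K₂ : IntermediateField ℚ ℂ) :=
    IntermediateField.finiteDimensional_sup _ _
  refine fd_sub _ _ e4 ?_
  have h3 : K₁ ⊔ K₂ ≤ (toI K₁ ⊔ toI K₂ : IntermediateField ℚ ℂ).toSubfield := by
    refine sup_le (fun x hx => ?_) fun x hx => ?_
    · have h3 : toI K₁ ≤ toI K₁ ⊔ toI K₂ := le_sup_left
      exact h3 (mem_toI.2 hx)
    · have h3 : toI K₂ ≤ toI K₁ ⊔ toI K₂ := le_sup_right
      exact h3 (mem_toI.2 hx)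
  exact fun x hx => h3 hx

theorem st_sup (K₁ K₂ : Subfield ℂ) (h1 : ∀ σ : ℂ ≃+* ℂ, ∀ z ∈ K₁, σ z ∈ K₁)
    (h2 : ∀ σ : ℂ ≃+* ℂ, ∀ z ∈ K₂, σ z ∈ K₂) (σ : ℂ ≃+* ℂ) :
    ∀ z ∈ K₁ ⊔ K₂, σ z ∈ K₁ ⊔ K₂ := by
  have h3 : K₁ ⊔ K₂ ≤ (K₁ ⊔ K₂).comap (σ : ℂ →+* ℂ) := by
    refine sup_le (fun x hx => ?_) fun x hx => ?_
    · have h3 : K₁ ≤ K₁ ⊔ K₂ := le_sup_left
      exact Subfield.mem_comap.2 (h3 (h1 σ x hx))
    · have h3 : K₂ ≤ K₁ ⊔ K₂ := le_sup_right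
      exact Subfield.mem_comap.2 (h3 (h2 σ x hx))
  exact fun z hz => Subfield.mem_comap.1 (h3 hz)

theorem cc_sup (K₁ K₂ : Subfield ℂ) (h1 : ∀ σ : ℂ ≃+* ℂ, ∀ z ∈ K₁, σ (cj z) = cj (σ z))
    (h2 : ∀ σ : ℂ ≃+* ℂ, ∀ z ∈ K₂, σ (cj z) = cj (σ z)) (σ : ℂ ≃+* ℂ) :
    ∀ z ∈ K₁ ⊔ K₂, σ (cj z) = cj (σ z) := by
  have h3 : K₁ ⊔ K₂ ≤ RingHom.eqLocusField ((cj.trans σ : ℂ ≃+* ℂ) : ℂ →+* ℂ)
      ((σ.trans cj : ℂ ≃+* ℂ) : ℂ →+* ℂ) :=
    sup_le (fun x hx => h1 σ x hx) fun x hx => h2 σ x hx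
  exact fun z hz => h3 hz

end GD9

theorem hulK_of (h1 : St_cm) (h2 : St_fld) (h3 : St_pr) (h4 : St_fac) : St_hulK := by
  intro X hX K hK
  obtain ⟨K0, hK0, hs0, hc0, hI0, hA0⟩ := h2 X
  have hfd := GD9.fd_sup K K0 hK.fin hK0
  have hst := GD9.st_sup K K0 hK.st hs0
  have hcc := GD9.cc_sup K K0 hK.cc hc0
  have hle1 : K ≤ K ⊔ K0 := le_sup_left
  have hle2 : K0 ≤ K ⊔ K0 := le_sup_right
  obtain ⟨X', hX', hX2, hX3⟩ := GJ16.list_hull h1 h3 h4 X (K ⊔ K0) hfd hst hcc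
    (GJ16.SF_fin (K ⊔ K0) hfd).toFinset.toList
    (fun F hF => by
      rw [Finset.mem_toList, Set.Finite.mem_toFinset] at hF
      exact hF)
  have hX3' : ∀ F ∈ GJ16.SF (K ⊔ K0), Rz X' 1 (lineD F) := fun F hF => hX3 F (by
    rw [Finset.mem_toList, Set.Finite.mem_toFinset]
    exact hF)
  have hlast : ∀ (d : ℕ) (Δ : (ℂ ≃+* ℂ) → Matrix (Fin d) (Fin d) ℂ), IrD Δ → Rz X' d Δ →
      d = 1 ∨ Rz X d Δ := fun d Δ hΔ hR => by
    rcases hX2 d Δ hΔ hR with h | h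
    · exact Or.inr h
    · exact Or.inl h.1
  refine ⟨X', hX', ⟨⟨⟨_, hX3' GJ16.F0 (GJ16.F0_mem _ (hle1 hK.i))⟩, fun F hF1 hF2 hF3 => ?_⟩,
    fun d Δ hΔ hR hd => ?_⟩, fun F hF1 hF2 hF3 => ?_, hlast⟩
  · refine hX3' F ⟨hF1, hF2, fun σ τ hst' => hF3 σ τ fun d Δ hΔ hR => ?_⟩
    rcases hX2 d Δ hΔ hR with h | h
    · exact hA0 σ τ (fun z hz => hst' z (hle2 hz)) d Δ h
    · exact h.2 σ τ hst'
  · have hRX : Rz X d Δ := by
      rcases hlast d Δ hΔ hR with h | h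
      · exact absurd h hd
      · exact h
    obtain ⟨h5, h6⟩ := hX.2 d Δ hΔ hRX hd
    refine ⟨h4.1 X X' hX' d _ h5, fun h7 => ?_⟩
    obtain ⟨d₁, d₂, Δ₁, Δ₂, F, hd1, hd2, hR1, hR2, hR3, hRed⟩ := h6 h7
    exact ⟨d₁, d₂, Δ₁, Δ₂, F, hd1, hd2, h4.1 X X' hX' d₁ Δ₁ hR1, h4.1 X X' hX' d₂ Δ₂ hR2,
      h4.1 X X' hX' 1 _ hR3, hRed⟩
  · exact hX3' F ⟨hF1, hF2, fun σ τ hst' => hF3 σ τ fun z hz => hst' z (hle1 hz)⟩

end

end Pool.Agent.NH32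

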