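import Pool.Agent.NH32.GtA

/-!
# Project G, stage 2: Hermitian involutions (GH1)
-/

namespace Pool.Agent.NH32

open Matrix

noncomputable section

namespace GH1

/-- the fourth root -/
def q4 (x : ℝ) : ℝ := Real.sqrt (Real.sqrt x)

theorem q4_pow {x : ℝ} (hx : 0 ≤ x) : q4 x ^ 4 = x := by
  unfold q4
  have h1 := Real.sq_sqrt hx
  have h2 := Real.sq_sqrt (Real.sqrt_nonneg x)
  calc Real.sqrt (Real.sqrt x) ^ 4 = (Real.sqrt (Real.sqrt x) ^ 2) ^ 2 := by ring
    _ = x := by rw [h2, h1]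

theorem q4_pos {x : ℝ} (hx : 0 < x) : 0 < q4 x := Real.sqrt_pos.2 (Real.sqrt_pos.2 hx)

theorem q4_mul {x : ℝ} (hx : 0 ≤ x) (y : ℝ) : q4 (x * y) = q4 x * q4 y := by
  unfold q4
  rw [Real.sqrt_mul hx, Real.sqrt_mul (Real.sqrt_nonneg x)]

theorem q4_inv (x : ℝ) : q4 x⁻¹ = (q4 x)⁻¹ := by
  unfold q4
  rw [Real.sqrt_inv, Real.sqrt_inv]

variable {B : Type} [Fintype B] [DecidableEq B]

open scoped ComplexOrder in
/-- spectral theorem for `Dᴴ D` -/
theorem spec {D : Matrix B B ℂ} (hD : D * D = 1) : ∃ (U : Matrix B B ℂ) (p : B → ℝ),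
    Uᴴ * U = 1 ∧ U * Uᴴ = 1 ∧ (∀ i, 0 < p i) ∧
      Dᴴ * D = U * diagonal (fun i => (p i : ℂ)) * Uᴴ := by
  have hinj : Function.Injective D.mulVec := by
    intro x y h
    have h1 : D *ᵥ (D *ᵥ x) = D *ᵥ (D *ᵥ y) := congrArg _ h
    rwa [Matrix.mulVec_mulVec, Matrix.mulVec_mulVec, hD, Matrix.one_mulVec,
      Matrix.one_mulVec] at h1
  have hp : (Dᴴ * D).PosDef := Matrix.PosDef.conjTranspose_mul_self D hinj
  have hH : (Dᴴ * D).IsHermitian := hp.1
  refine ⟨(hH.eigenvectorUnitary : Matrix B B ℂ), hH.eigenvalues, ?_, ?_, ?_, ?_⟩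
  · exact Unitary.coe_star_mul_self hH.eigenvectorUnitary
  · exact Unitary.coe_mul_star_self hH.eigenvectorUnitary
  · intro i
    exact hp.eigenvalues_pos i
  · have h1 := hH.spectral_theorem
    rw [Unitary.conjStarAlgAut_apply] at h1
    exact h1

/-- the operator of the function `f` -/
def Fn (U : Matrix B B ℂ) (f : B → ℝ) : Matrix B B ℂ := U * diagonal (fun i => (f i : ℂ)) * Uᴴ

theorem Fn_mul {U : Matrix B B ℂ} (h1 : Uᴴ * U = 1) (f g : B → ℝ) :
    Fn U f * Fn U g = Fn U (fun i => f i * g i) := by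
  unfold Fn
  have e : U * diagonal (fun i => (f i : ℂ)) * Uᴴ * (U * diagonal (fun i => (g i : ℂ)) * Uᴴ) =
      U * diagonal (fun i => (f i : ℂ)) * (Uᴴ * U) * diagonal (fun i => (g i : ℂ)) * Uᴴ := by
    simp only [Matrix.mul_assoc]
  rw [e, h1, Matrix.mul_one, Matrix.mul_assoc U, diagonal_mul_diagonal]
  congr 3
  funext i
  push_cast
  rfl

theorem Fn_one {U : Matrix B B ℂ} (h2 : U * Uᴴ = 1) : Fn U (fun _ => 1) = 1 := by
  unfold Fn
  have : (diagonal (fun _ : B => ((1 : ℝ) : ℂ)) : Matrix B B ℂ) = 1 := by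
    rw [Complex.ofReal_one]
    exact diagonal_one
  rw [this, Matrix.mul_one, h2]

theorem Fn_herm (U : Matrix B B ℂ) (f : B → ℝ) : (Fn U f)ᴴ = Fn U f := by
  unfold Fn
  rw [conjTranspose_mul, conjTranspose_mul, conjTranspose_conjTranspose,
    diagonal_conjTranspose, Matrix.mul_assoc]
  congr 3
  funext i
  exact Complex.conj_ofReal _

/-- entries in the eigenbasis -/
theorem entry {U : Matrix B B ℂ} (h1 : Uᴴ * U = 1) (M : Matrix B B ℂ) (f g : B → ℝ) (i j : B) :
    (Uᴴ * (Fn U f * M * Fn U g) * U) i j = (f i : ℂ) * (Uᴴ * M * U) i j * (g j : ℂ) := by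
  have e : Uᴴ * (Fn U f * M * Fn U g) * U =
      diagonal (fun i => (f i : ℂ)) * (Uᴴ * M * U) * diagonal (fun i => (g i : ℂ)) := by
    unfold Fn
    calc _ = (Uᴴ * U) * diagonal (fun i => (f i : ℂ)) * (Uᴴ * M * U) *
          diagonal (fun i => (g i : ℂ)) * (Uᴴ * U) := by simp only [Matrix.mul_assoc]
      _ = _ := by rw [h1, Matrix.one_mul, Matrix.mul_one]
  rw [e, mul_diagonal, diagonal_mul]

theorem ext_entry {U : Matrix B B ℂ} (h2 : U * Uᴴ = 1) {M N : Matrix B B ℂ}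
    (h : ∀ i j, (Uᴴ * M * U) i j = (Uᴴ * N * U) i j) : M = N := by
  have e : Uᴴ * M * U = Uᴴ * N * U := by
    ext i j
    exact h i j
  calc M = (U * Uᴴ) * M * (U * Uᴴ) := by rw [h2, Matrix.one_mul, Matrix.mul_one]
    _ = U * (Uᴴ * M * U) * Uᴴ := by simp only [Matrix.mul_assoc]
    _ = U * (Uᴴ * N * U) * Uᴴ := by rw [e]
    _ = (U * Uᴴ) * N * (U * Uᴴ) := by simp only [Matrix.mul_assoc]
    _ = N := by rw [h2, Matrix.one_mul, Matrix.mul_one]

/-- `q`-th power map of a relation `f i x = x g j` -/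
theorem comm_entry {U : Matrix B B ℂ} (h1 : Uᴴ * U = 1) (h2 : U * Uᴴ = 1) (M : Matrix B B ℂ)
    (f g f' g' : B → ℝ) (hfg : ∀ i j, f i = g j → f' i = g' j) (h : Fn U f * M = M * Fn U g) :
    Fn U f' * M = M * Fn U g' := by
  have o : Fn U (fun _ => (1 : ℝ)) = 1 := Fn_one h2
  apply ext_entry h2
  intro i j
  have e1 := entry h1 M f (fun _ => 1) i j
  have e2 := entry h1 M (fun _ => 1) g i j
  have e3 := entry h1 M f' (fun _ => 1) i j
  have e4 := entry h1 M (fun _ => 1) g' i j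
  rw [o, Matrix.mul_one] at e1 e3
  rw [o, Matrix.one_mul] at e2 e4
  rw [h, e2] at e1
  rw [e3, e4]
  simp only [Complex.ofReal_one, one_mul, mul_one] at e1 ⊢
  by_cases hz : (Uᴴ * M * U) i j = 0
  · rw [hz, mul_zero, zero_mul]
  · have h3 : (g j : ℂ) = (f i : ℂ) := by
      apply mul_left_cancel₀ hz
      rw [e1, mul_comm]
    have h4 : f i = g j := by exact_mod_cast h3.symm
    rw [hfg i j h4, mul_comm]

/-- conjugation as a linear map -/
def Cj (P Pi : Matrix B B ℂ) : Module.End ℂ (Matrix B B ℂ) where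
  toFun Y := P * Y * Pi
  map_add' := by
    intro x y
    rw [Matrix.mul_add, Matrix.add_mul]
  map_smul' := by
    intro c x
    rw [Matrix.mul_smul, Matrix.smul_mul, RingHom.id_apply]

omit [DecidableEq B] in
theorem Cj_apply (P Pi Y : Matrix B B ℂ) : Cj P Pi Y = P * Y * Pi := rfl

omit [Fintype B] [DecidableEq B] in
theorem inv_aeval {L : Submodule ℂ (Matrix B B ℂ)} {φ : Module.End ℂ (Matrix B B ℂ)}
    (h : ∀ Y ∈ L, φ Y ∈ L) (q : Polynomial ℂ) : ∀ Y ∈ L, Polynomial.aeval φ q Y ∈ L := by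
  have hp : ∀ n : ℕ, ∀ Y ∈ L, (φ ^ n) Y ∈ L := by
    intro n
    induction n with
    | zero => intro Y hY; rw [pow_zero]; exact hY
    | succ n ih => intro Y hY; rw [pow_succ, Module.End.mul_apply]; exact ih _ (h Y hY)
  induction q using Polynomial.induction_on' with
  | add a b ha hb =>
    intro Y hY
    rw [map_add, LinearMap.add_apply]
    exact L.add_mem (ha Y hY) (hb Y hY)
  | monomial n a =>
    intro Y hY
    rw [Polynomial.aeval_monomial, Module.End.mul_apply]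
    exact L.smul_mem a (hp n Y hY)

theorem entry_aeval {U : Matrix B B ℂ} (h1 : Uᴴ * U = 1) (f g : B → ℝ) (q : Polynomial ℂ)
    (Y : Matrix B B ℂ) (i j : B) :
    (Uᴴ * (Polynomial.aeval (Cj (Fn U f) (Fn U g)) q Y) * U) i j =
      q.eval ((f i : ℂ) * (g j : ℂ)) * (Uᴴ * Y * U) i j := by
  have hp : ∀ n : ℕ, ∀ Y : Matrix B B ℂ, (Uᴴ * ((Cj (Fn U f) (Fn U g)) ^ n) Y * U) i j =
      ((f i : ℂ) * (g j : ℂ)) ^ n * (Uᴴ * Y * U) i j := by
    intro n
    induction n with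
    | zero => intro Y; rw [pow_zero, pow_zero, one_mul]; rfl
    | succ n ih =>
      intro Y
      rw [pow_succ, Module.End.mul_apply, ih, Cj_apply, entry h1, pow_succ]
      ring
  induction q using Polynomial.induction_on' with
  | add a b ha hb =>
    rw [map_add, LinearMap.add_apply, Matrix.mul_add, Matrix.add_mul, Matrix.add_apply, ha, hb,
      Polynomial.eval_add]
    ring
  | monomial n a =>
    have e : Polynomial.aeval (Cj (Fn U f) (Fn U g)) (Polynomial.monomial n a) Y =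
        a • ((Cj (Fn U f) (Fn U g)) ^ n) Y := by
      rw [Polynomial.aeval_monomial, Module.End.mul_apply]
      rfl
    rw [e, Polynomial.eval_monomial, Matrix.mul_smul, Matrix.smul_mul, Matrix.smul_apply,
      smul_eq_mul, hp n Y, ← mul_assoc]

/-- interpolation -/
theorem interp (s : Finset ℂ) (F : ℂ → ℂ) : ∃ q : Polynomial ℂ, ∀ z ∈ s, q.eval z = F z := by
  classical
  refine ⟨Lagrange.interpolate s id F, fun z hz => ?_⟩
  have := Lagrange.eval_interpolate_at_node (s := s) (v := id) F Function.injective_id.injOn hz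
  exact this

/-- a power of the conjugation preserves `L` -/
theorem conj_mem {U : Matrix B B ℂ} (h1 : Uᴴ * U = 1) (h2 : U * Uᴴ = 1)
    {L : Submodule ℂ (Matrix B B ℂ)} (f g f' g' : B → ℝ) (F : ℝ → ℝ)
    (hF : ∀ i j, F (f i * g j) = f' i * g' j)
    (h : ∀ Y ∈ L, Fn U f * Y * Fn U g ∈ L) : ∀ Y ∈ L, Fn U f' * Y * Fn U g' ∈ L := by
  classical
  intro Y hY
  obtain ⟨q, hq⟩ := interp (Finset.univ.image fun x : B × B => (f x.1 : ℂ) * (g x.2 : ℂ))
    (fun z => ((F z.re : ℝ) : ℂ))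
  have e : Fn U f' * Y * Fn U g' = Polynomial.aeval (Cj (Fn U f) (Fn U g)) q Y := by
    apply ext_entry h2
    intro i j
    rw [entry h1, entry_aeval h1, hq _ (Finset.mem_image.2 ⟨(i, j), Finset.mem_univ _, rfl⟩)]
    have e2 : ((f i : ℂ) * (g j : ℂ)).re = f i * g j := by
      rw [← Complex.ofReal_mul, Complex.ofReal_re]
    rw [e2, hF]
    push_cast
    ring
  rw [e]
  exact inv_aeval (φ := Cj (Fn U f) (Fn U g)) h q Y hY

end GH1

open GH1

theorem herm_of : St_herm := by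
  intro B _ _ Om L _ hL D hD hDD
  obtain ⟨U, p, h1, h2, hp, hP⟩ := spec hDD
  have hP' : Dᴴ * D = Fn U p := hP
  have hA : Dᴴ ∈ L := hL.adj D hD
  have hAA : Dᴴ * Dᴴ = 1 := by rw [← conjTranspose_mul, hDD, conjTranspose_one]
  -- the inverse of `P`
  have hQ : D * Dᴴ = Fn U (fun i => (p i)⁻¹) := by
    have e1 : (D * Dᴴ) * Fn U p = 1 := by
      rw [← hP']
      calc D * Dᴴ * (Dᴴ * D) = D * (Dᴴ * Dᴴ) * D := by simp only [Matrix.mul_assoc]
        _ = 1 := by rw [hAA, Matrix.mul_one, hDD]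
    have e2 : Fn U p * Fn U (fun i => (p i)⁻¹) = 1 := by
      rw [Fn_mul h1, ← Fn_one h2]
      congr 1
      funext i
      exact mul_inv_cancel₀ (hp i).ne'
    calc D * Dᴴ = (D * Dᴴ) * (Fn U p * Fn U (fun i => (p i)⁻¹)) := by rw [e2, Matrix.mul_one]
      _ = ((D * Dᴴ) * Fn U p) * Fn U (fun i => (p i)⁻¹) := by simp only [Matrix.mul_assoc]
      _ = _ := by rw [e1, Matrix.one_mul]
  obtain ⟨R, hR⟩ : ∃ R, R = Fn U (fun i => q4 (p i)) := ⟨_, rfl⟩
  obtain ⟨Ri, hRi⟩ : ∃ R, R = Fn U (fun i => q4 (p i)⁻¹) := ⟨_, rfl⟩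
  have q0 : ∀ i, q4 (p i) * q4 (p i)⁻¹ = 1 := by
    intro i
    rw [q4_inv]
    exact mul_inv_cancel₀ (q4_pos (hp i)).ne'
  have r1 : R * Ri = 1 := by
    rw [hR, hRi, Fn_mul h1, ← Fn_one h2]
    congr 1
    funext i
    exact q0 i
  have r2 : Ri * R = 1 := by
    rw [hR, hRi, Fn_mul h1, ← Fn_one h2]
    congr 1
    funext i
    rw [mul_comm]
    exact q0 i
  have rH : Rᴴ = R := by rw [hR]; exact Fn_herm U _
  have r4 : R * R * (R * R) = Dᴴ * D := by
    rw [hP', hR, Fn_mul h1, Fn_mul h1]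
    congr 1
    funext i
    have := q4_pow (hp i).le
    linear_combination this
  -- `D R = R⁻¹ D`
  have c0 : Fn U (fun i => (p i)⁻¹) * D = D * Fn U p := by
    rw [← hQ, ← hP', Matrix.mul_assoc]
  have c1 : Ri * D = D * R := by
    rw [hR, hRi]
    refine comm_entry h1 h2 D (fun i => (p i)⁻¹) p _ _ ?_ c0
    intro i j h
    rw [← h]
  have c2 : D * Ri = R * D := by
    calc D * Ri = (R * Ri) * D * Ri := by rw [r1, Matrix.one_mul]
      _ = R * (Ri * D) * Ri := by simp only [Matrix.mul_assoc]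
      _ = R * D * (R * Ri) := by rw [c1]; simp only [Matrix.mul_assoc]
      _ = R * D := by rw [r1, Matrix.mul_one]
  have hDh : Dᴴ = Dᴴ * D * D := by rw [Matrix.mul_assoc, hDD, Matrix.mul_one]
  -- conjugation by `P` preserves `L`
  have inv : ∀ E ∈ L, E * E = 1 → ∀ Y ∈ L, E * Y * E ∈ L := by
    intro E hE hEE Y hY
    have h3 := hL.br E hE _ (hL.br E hE Y hY)
    have e : E * Y * E = Y - (1 / 2 : ℂ) • (E * (E * Y - Y * E) - (E * Y - Y * E) * E) := by
      have e2 : E * (E * Y - Y * E) - (E * Y - Y * E) * E = (2 : ℂ) • (Y - E * Y * E) := by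
        calc E * (E * Y - Y * E) - (E * Y - Y * E) * E
            = (E * E) * Y - E * Y * E - (E * Y * E - Y * (E * E)) := by
              rw [Matrix.mul_sub, Matrix.sub_mul]
              simp only [Matrix.mul_assoc]
          _ = (2 : ℂ) • (Y - E * Y * E) := by
              rw [hEE, Matrix.one_mul, Matrix.mul_one, two_smul]
              abel
      rw [e2, smul_smul]
      norm_num
    rw [e]
    exact L.sub_mem hY (L.smul_mem _ h3)
  have cP : ∀ Y ∈ L, Fn U p * Y * Fn U (fun i => (p i)⁻¹) ∈ L := by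
    intro Y hY
    rw [← hP', ← hQ]
    have e : Dᴴ * D * Y * (D * Dᴴ) = Dᴴ * (D * Y * D) * Dᴴ := by simp only [Matrix.mul_assoc]
    rw [e]
    exact inv _ hA hAA _ (inv D hD hDD Y hY)
  have cR : ∀ Y ∈ L, R * Y * Ri ∈ L := by
    rw [hR, hRi]
    refine conj_mem h1 h2 p (fun i => (p i)⁻¹) _ _ q4 ?_ cP
    intro i j
    exact q4_mul (hp i).le _
  have cR' : ∀ Y ∈ L, Ri * Y * R ∈ L := by
    rw [hR, hRi]
    refine conj_mem h1 h2 p (fun i => (p i)⁻¹) _ _ (fun x => q4 x⁻¹) ?_ cP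
    intro i j
    rw [mul_inv, inv_inv]
    exact q4_mul (inv_pos.2 (hp i)).le _
  refine ⟨R * D * Ri, cR D hD, ?_, ?_, R, Ri, r1, rfl, ?_, fun Y hY => ⟨cR Y hY, cR' Y hY⟩⟩
  · -- Hermitian
    have e1 : R * D * Ri = R * R * D := by rw [Matrix.mul_assoc, c2, Matrix.mul_assoc]
    rw [e1, conjTranspose_mul, conjTranspose_mul, rH, hDh, ← r4]
    -- `P D R² = R² D`
    have e2 : D * (R * R) = Ri * Ri * D := by
      calc D * (R * R) = (D * R) * R := by rw [Matrix.mul_assoc]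
        _ = Ri * (D * R) := by rw [← c1, Matrix.mul_assoc, ← c1]
        _ = Ri * Ri * D := by rw [← c1, Matrix.mul_assoc]
    calc R * R * (R * R) * D * (R * R) = R * R * (R * R) * (D * (R * R)) := by
          rw [Matrix.mul_assoc]
      _ = R * R * (R * (R * Ri) * Ri) * D := by rw [e2]; simp only [Matrix.mul_assoc]
      _ = R * R * D := by rw [r1, Matrix.mul_one, r1, Matrix.mul_one]
  · calc R * D * Ri * (R * D * Ri) = R * D * (Ri * R) * D * Ri := by
          simp only [Matrix.mul_assoc]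
      _ = R * (D * D) * Ri := by rw [r2, Matrix.mul_one, Matrix.mul_assoc R D D]
      _ = 1 := by rw [hDD, Matrix.mul_one, r1]
  · -- commutes with the commutant
    intro M hM
    have hM' : ∀ X ∈ L, X * M = M * X := hM
    have e1 : Fn U p * M = M * Fn U p := by
      rw [← hP', Matrix.mul_assoc, hM' D hD, ← Matrix.mul_assoc, hM' _ hA, Matrix.mul_assoc]
    rw [hR]
    refine comm_entry h1 h2 M p p _ _ ?_ e1
    intro i j h
    rw [h]

end

end Pool.Agent.NH32
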