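import Pool.Agent.NH32.GsA

/-!
# Elements of the group which act as scalars on given minimal idempotents
-/

set_option linter.unusedSectionVars false

namespace Pool.Agent.NH32

open Matrix Module

noncomputable section

namespace GJ1

variable {B : Type} [Fintype B] [DecidableEq B] {Om : Matrix B B ℂ}
  {L : Submodule ℂ (Matrix B B ℂ)}

/-! ### The derived algebra -/

theorem Dr_le (hL : LD Om L) : Dr L ≤ L := by
  unfold Dr
  refine Submodule.span_le.2 ?_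
  rintro _ ⟨X, hX, Y, hY, rfl⟩
  exact hL.br X hX Y hY

theorem br_mem {X Y : Matrix B B ℂ} (hX : X ∈ L) (hY : Y ∈ L) : X * Y - Y * X ∈ Dr L :=
  Submodule.subset_span ⟨X, hX, Y, hY, rfl⟩

theorem Dr_adj (hL : LD Om L) {X : Matrix B B ℂ} (hX : X ∈ Dr L) : Xᴴ ∈ Dr L := by
  unfold Dr at hX
  induction hX using Submodule.span_induction with
  | mem Z hZ =>
    obtain ⟨X, hX, Y, hY, rfl⟩ := hZ
    have h1 : (X * Y - Y * X)ᴴ = Yᴴ * Xᴴ - Xᴴ * Yᴴ := by
      rw [conjTranspose_sub, conjTranspose_mul, conjTranspose_mul]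
    rw [h1]
    exact br_mem (hL.adj Y hY) (hL.adj X hX)
  | zero =>
    rw [conjTranspose_zero]
    exact (Dr L).zero_mem
  | add x y _ _ hx hy =>
    rw [conjTranspose_add]
    exact (Dr L).add_mem hx hy
  | smul c x _ hx =>
    rw [conjTranspose_smul]
    exact (Dr L).smul_mem _ hx

/-- The kernel of `e` in the derived algebra. -/
def Kr (L : Submodule ℂ (Matrix B B ℂ)) (e : Matrix B B ℂ) : Submodule ℂ (Matrix B B ℂ) where
  carrier := {Y | Y ∈ Dr L ∧ Y * e = 0}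
  add_mem' := by
    rintro X Y ⟨h1, h2⟩ ⟨h3, h4⟩
    exact ⟨(Dr L).add_mem h1 h3, by rw [add_mul, h2, h4, add_zero]⟩
  zero_mem' := ⟨(Dr L).zero_mem, zero_mul _⟩
  smul_mem' := by
    rintro c X ⟨h1, h2⟩
    exact ⟨(Dr L).smul_mem _ h1, by rw [Matrix.smul_mul, h2, smul_zero]⟩

theorem Kr_adj (hL : LD Om L) {e : Matrix B B ℂ} (he : e ∈ CM L) (heh : eᴴ = e)
    {Y : Matrix B B ℂ} (hY : Y ∈ Kr L e) : Yᴴ ∈ Kr L e := by
  refine ⟨Dr_adj hL hY.1, ?_⟩
  have h1 : Y * e = e * Y := he Y (Dr_le hL hY.1)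
  have h2 : Yᴴ * e = (e * Y)ᴴ := by rw [conjTranspose_mul, heh]
  rw [h2, ← h1, hY.2, conjTranspose_zero]

theorem Ide_adj (hL : LD Om L) {e : Matrix B B ℂ} (he : e ∈ CM L) (heh : eᴴ = e)
    {X : Matrix B B ℂ} (hX : X ∈ Ide L e) : Xᴴ ∈ Ide L e := by
  refine ⟨Dr_adj hL hX.1, fun Y hY hYe => ?_⟩
  have h0 : Yᴴ ∈ Kr L e := Kr_adj hL he heh ⟨hY, hYe⟩
  have h1 := hX.2 Yᴴ h0.1 h0.2
  have h2 : trace (Xᴴ * Y) = star (trace (X * Yᴴ)) := by
    rw [← trace_conjTranspose, conjTranspose_mul, conjTranspose_conjTranspose, trace_mul_comm]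
  rw [h2, h1, star_zero]

theorem Ide_br (hL : LD Om L) {e : Matrix B B ℂ} (he : e ∈ CM L) {X Z : Matrix B B ℂ}
    (hX : X ∈ L) (hZ : Z ∈ Ide L e) : X * Z - Z * X ∈ Ide L e := by
  refine ⟨br_mem hX (Dr_le hL hZ.1), fun Y hY hYe => ?_⟩
  have h0 : (Y * X - X * Y) * e = 0 := by
    have h3 : X * e = e * X := he X hX
    rw [sub_mul, mul_assoc, h3, ← mul_assoc, hYe, zero_mul, mul_assoc, hYe, mul_zero, sub_zero]
  have h1 := hZ.2 (Y * X - X * Y) (br_mem (Dr_le hL hY) hX) h0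
  have h2 : trace ((X * Z - Z * X) * Y) = trace (Z * (Y * X - X * Y)) := by
    rw [sub_mul, trace_sub, mul_sub, trace_sub]
    congr 1
    · rw [mul_assoc, trace_mul_comm, mul_assoc]
    · rw [mul_assoc]
  rw [h2, h1]

theorem Ide_zero (hL : LD Om L) {e : Matrix B B ℂ} (he : e ∈ CM L) (heh : eᴴ = e)
    {X : Matrix B B ℂ} (hX : X ∈ Ide L e) (h0 : X * e = 0) : X = 0 :=
  trace_self_eq_zero ((Ide_adj hL he heh hX).2 X hX.1 h0)

theorem Dr_dec (hL : LD Om L) {e : Matrix B B ℂ} (he : e ∈ CM L) (heh : eᴴ = e)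
    {X : Matrix B B ℂ} (hX : X ∈ Dr L) : ∃ a ∈ Ide L e, ∃ b ∈ Kr L e, X = a + b := by
  obtain ⟨b, hb, ho⟩ := exists_orth (Kr L e) X
  refine ⟨X - b, ⟨(Dr L).sub_mem hX hb.1, fun Y hY hYe => ?_⟩, b, hb, by abel⟩
  have h1 := ho Yᴴ (Kr_adj hL he heh ⟨hY, hYe⟩)
  rw [conjTranspose_conjTranspose] at h1
  rw [trace_mul_comm]
  exact h1

/-- Reductivity. -/
theorem L_dec (hL : LD Om L) {X : Matrix B B ℂ} (hX : X ∈ L) :
    ∃ z ∈ ZM L, z ∈ L ∧ ∃ d ∈ Dr L, X = z + d := by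
  obtain ⟨s, hs, ho⟩ := exists_orth (Dr L) X
  have hzL : X - s ∈ L := L.sub_mem hX (Dr_le hL hs)
  have hz : ∀ Y ∈ L, Y * (X - s) = (X - s) * Y := by
    intro Y hY
    rw [← sub_eq_zero]
    apply trace_self_eq_zero
    obtain ⟨z, hz⟩ : ∃ z, z = X - s := ⟨_, rfl⟩
    rw [← hz] at ho hzL ⊢
    obtain ⟨W, hW⟩ : ∃ W, W = Y * z - z * Y := ⟨_, rfl⟩
    have hWL : W ∈ L := by rw [hW]; exact hL.br _ hY _ hzL
    have h1 := ho _ (br_mem (hL.adj Y hY) hWL)
    rw [← hW, ← h1]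
    have h2 : (Yᴴ * W - W * Yᴴ)ᴴ = Wᴴ * Y - Y * Wᴴ := by
      rw [conjTranspose_sub, conjTranspose_mul, conjTranspose_mul, conjTranspose_conjTranspose]
    rw [h2]
    nth_rewrite 2 [hW]
    have h3 : trace (Wᴴ * (Y * z - z * Y)) = trace (Wᴴ * Y * z) - trace (Wᴴ * z * Y) := by
      rw [mul_sub, trace_sub, mul_assoc, mul_assoc]
    have h4 : trace ((Wᴴ * Y - Y * Wᴴ) * z) = trace (Wᴴ * Y * z) - trace (Y * Wᴴ * z) := by
      rw [sub_mul, trace_sub]
    have h5 : trace (Wᴴ * z * Y) = trace (Y * Wᴴ * z) := by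
      rw [trace_mul_comm, mul_assoc]
    rw [h3, h4, h5]
  refine ⟨X - s, ⟨hz, fun N hN => ?_⟩, hzL, s, hs, by abel⟩
  exact (hN _ hzL).symm

/-! ### Minimal idempotents -/

theorem Ide_ne (hL : LD Om L) {e : Matrix B B ℂ} (hM : Mi L e) (ht : ¬ trace e = 1) :
    ∃ X ∈ Ide L e, X ≠ 0 := by
  by_contra hcon
  push Not at hcon
  obtain ⟨hc, hee, heh, h0, hmin⟩ := hM
  have h1 : ∀ X ∈ L, ∃ c : ℂ, X * e = c • e := by
    intro X hX
    obtain ⟨z, hz, hzL, d, hd, rfl⟩ := L_dec hL hX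
    obtain ⟨a, ha, b, hb, rfl⟩ := Dr_dec hL hc heh hd
    obtain ⟨c, hc'⟩ := hmin z hz.1
    refine ⟨c, ?_⟩
    have h2 : e * z = z * e := hz.2 e hc
    rw [hcon a ha, zero_add, add_mul, hb.2, add_zero, ← hc', h2, mul_assoc, hee]
  have h2 : ∀ M : Matrix B B ℂ, e * M * e ∈ CM L := by
    intro M X hX
    obtain ⟨c, hc'⟩ := h1 X hX
    have h3 : e * X = c • e := by rw [← hc X hX, hc']
    calc X * (e * M * e) = (X * e) * M * e := by noncomm_ring
      _ = c • (e * M * e) := by rw [hc', Matrix.smul_mul, Matrix.smul_mul]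
      _ = e * M * (e * X) := by rw [h3, Matrix.mul_smul]
      _ = _ := by noncomm_ring
  have h3 : ∀ M : Matrix B B ℂ, ∃ c : ℂ, e * M * e = c • e := by
    intro M
    obtain ⟨c, hc'⟩ := hmin _ (h2 M)
    refine ⟨c, ?_⟩
    rw [← hc']
    calc e * M * e = (e * e) * M * (e * e) := by rw [hee]
      _ = _ := by noncomm_ring
  apply ht
  obtain ⟨i, j, hij⟩ : ∃ i j, e i j ≠ 0 := by
    by_contra hcon2
    push Not at hcon2
    exact h0 (by ext i j; exact hcon2 i j)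
  obtain ⟨c, hc'⟩ := h3 (Matrix.single j i 1)
  have h4 : (e * Matrix.single j i (1 : ℂ) * e) i j = e i j * e i j := by
    rw [Matrix.mul_apply, Finset.sum_eq_single i]
    · rw [Matrix.mul_single_apply_same, mul_one]
    · intro b _ hb
      rw [Matrix.mul_single_apply_of_ne _ _ _ _ _ hb, zero_mul]
    · intro h
      exact absurd (Finset.mem_univ _) h
  have h5 : trace (e * Matrix.single j i (1 : ℂ) * e) = e i j := by
    rw [trace_mul_comm, ← mul_assoc, hee, trace_mul_single]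
    simp
  rw [hc', Matrix.smul_apply, smul_eq_mul] at h4
  have h6 : c = e i j := mul_right_cancel₀ hij h4
  rw [hc', trace_smul, smul_eq_mul, h6] at h5
  exact mul_left_cancel₀ hij (by rw [h5, mul_one])

theorem line_scal {e : Matrix B B ℂ} (he : e * e = e) (ht : trace e = 1) (M : Matrix B B ℂ) :
    ∃ c : ℂ, e * M * e = c • e := by
  obtain ⟨r, P, Q, h1, h2⟩ := WJ2.idem_fac he
  have h3 : r = 1 := by
    have h4 : trace e = r := by rw [← h1, trace_mul_comm, h2, trace_one, Fintype.card_fin]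
    rw [ht] at h4
    exact_mod_cast h4.symm
  subst h3
  have h4 : Q * M * P = (Q * M * P) 0 0 • (1 : Matrix (Fin 1) (Fin 1) ℂ) := by
    ext i j
    rw [Subsingleton.elim i 0, Subsingleton.elim j 0, Matrix.smul_apply, Matrix.one_apply_eq,
      smul_eq_mul, mul_one]
  refine ⟨(Q * M * P) 0 0, ?_⟩
  calc e * M * e = P * (Q * M * P) * Q := by rw [← h1]; simp only [Matrix.mul_assoc]
    _ = _ := by rw [h4]; simp [h1]

/-- Two ideals are equal or kill the other idempotent. -/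
theorem dich (hL : LD Om L) {e e' : Matrix B B ℂ} (h : Pu L e) (h' : Pu L e') :
    Ide L e = Ide L e' ∨ ((∀ X ∈ Ide L e, X * e' = 0) ∧ ∀ X ∈ Ide L e', X * e = 0) := by
  have k1 := h.2.2 (Ide L e') (fun X hX => hX.1) (fun X hX Y hY => Ide_br hL h'.1.1 hX hY)
  have k2 := h'.2.2 (Ide L e) (fun X hX => hX.1) (fun X hX Y hY => Ide_br hL h.1.1 hX hY)
  rcases k1 with k1 | k1
  · rcases k2 with k2 | k2
    · exact Or.inr ⟨k2, k1⟩
    · exfalso
      obtain ⟨X, hX, hX0⟩ := Ide_ne hL h'.1 h'.2.1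
      exact hX0 (Ide_zero hL h.1.1 h.1.2.2.1 (k2 hX) (k1 X hX))
  · rcases k2 with k2 | k2
    · exfalso
      obtain ⟨X, hX, hX0⟩ := Ide_ne hL h.1 h.2.1
      exact hX0 (Ide_zero hL h'.1.1 h'.1.2.2.1 (k1 hX) (k2 X hX))
    · exact Or.inl (le_antisymm k1 k2)

/-- There are finitely many ideals. -/
theorem fin_ide (hL : LD Om L) {T : Set (Matrix B B ℂ)} (hT : ∀ e ∈ T, Pu L e) :
    {J | ∃ e ∈ T, Ide L e = J}.Finite := by
  have hind : iSupIndep (fun J : {J | ∃ e ∈ T, Ide L e = J} => J.1) := by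
    rintro ⟨J, e, he, hJ⟩
    rw [Submodule.disjoint_def]
    intro X hX hX'
    let N : Submodule ℂ (Matrix B B ℂ) :=
      { carrier := {Y | Y * e = 0}
        add_mem' := by
          intro a b (ha : a * e = 0) (hb : b * e = 0)
          change (a + b) * e = 0
          rw [add_mul, ha, hb, add_zero]
        zero_mem' := zero_mul e
        smul_mem' := by
          intro c a (ha : a * e = 0)
          change (c • a) * e = 0
          rw [Matrix.smul_mul, ha, smul_zero] }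
    have h1 : (⨆ (j : {J | ∃ e ∈ T, Ide L e = J}) (_ : j ≠ ⟨J, e, he, hJ⟩), j.1) ≤ N := by
      refine iSup_le fun j => iSup_le fun hj => ?_
      obtain ⟨J', e', he', hJ'⟩ := j
      intro Y hY
      change Y * e = 0
      rcases dich hL (hT e he) (hT e' he') with h2 | h2
      · exfalso
        apply hj
        apply Subtype.ext
        change J' = J
        rw [← hJ, ← hJ', h2]
      · refine h2.2 Y ?_
        rw [hJ']
        exact hY
    have h2 : X * e = 0 := h1 hX'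
    have h3 : X ∈ Ide L e := by rw [hJ]; exact hX
    exact Ide_zero hL (hT e he).1.1 (hT e he).1.2.2.1 h3 h2
  have h1 := WellFoundedGT.finite_ne_bot_of_iSupIndep hind
  have h2 : {J : {J | ∃ e ∈ T, Ide L e = J} | J.1 ≠ ⊥} = Set.univ := by
    rw [Set.eq_univ_iff_forall]
    rintro ⟨J, e, he, hJ⟩ h3
    obtain ⟨X, hX, hX0⟩ := Ide_ne hL (hT e he).1 (hT e he).2.1
    rw [hJ] at hX
    have h4 : J = ⊥ := h3
    rw [h4] at hX
    exact hX0 ((Submodule.mem_bot ℂ).1 hX)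
  rw [h2] at h1
  exact Set.finite_coe_iff.1 (Set.finite_univ_iff.1 h1)

/-! ### Elements fixing the invariants of degree two and four -/

/-- The element fixes the invariants of degree two and four. -/
def F24 (L : Submodule ℂ (Matrix B B ℂ)) (u : USp Om) : Prop :=
  (∀ x ∈ InvL L (Fin 2), kp (Fin 2) (mt u) *ᵥ x = x) ∧
    ∀ x ∈ InvL L (Fin 4), kp (Fin 4) (mt u) *ᵥ x = x

theorem F24.inv {u : USp Om} (h : F24 L u) : F24 L u⁻¹ := by
  constructor
  · intro x hx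
    conv_lhs => rw [← h.1 x hx]
    rw [mulVec_mulVec, ← kp_mul, mt_inv_mul, kp_one, one_mulVec]
  · intro x hx
    conv_lhs => rw [← h.2 x hx]
    rw [mulVec_mulVec, ← kp_mul, mt_inv_mul, kp_one, one_mulVec]

theorem F24.mul {u v : USp Om} (h : F24 L u) (h' : F24 L v) : F24 L (u * v) := by
  constructor
  · intro x hx
    rw [mt_mul, kp_mul, ← mulVec_mulVec, h'.1 x hx, h.1 x hx]
  · intro x hx
    rw [mt_mul, kp_mul, ← mulVec_mulVec, h'.2 x hx, h.2 x hx]

theorem F24_of_KK {k : USp Om} (hk : k ∈ KK Om L) : F24 L k :=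
  ⟨fun x hx => hk (Fin 2) x hx, fun x hx => hk (Fin 4) x hx⟩

theorem kp_re {κ κ' : Type} [Fintype κ] [DecidableEq κ] [Fintype κ'] [DecidableEq κ']
    (e : κ ≃ κ') (X : Matrix B B ℂ) (c : (κ' → B) → ℂ) :
    kp κ X *ᵥ (fun I : κ → B => c (fun k => I (e.symm k))) =
      fun I : κ → B => (kp κ' X *ᵥ c) (fun k => I (e.symm k)) := by
  funext I
  rw [mvA, mvA]
  refine Fintype.sum_equiv (Equiv.arrowCongr e (Equiv.refl B)) _ _ fun J => ?_
  rw [kp_apply, kp_apply]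
  have h1 : (Equiv.arrowCongr e (Equiv.refl B)) J = fun k => J (e.symm k) := rfl
  rw [h1]
  congr 1
  exact (Equiv.prod_comp e.symm fun k => X (I k) (J k)).symm

theorem fixR {κ κ' : Type} [Fintype κ] [DecidableEq κ] [Fintype κ'] [DecidableEq κ']
    (e : κ ≃ κ') {Y : Matrix B B ℂ}
    (h : ∀ x ∈ InvL L κ, kp κ Y *ᵥ x = x) : ∀ x ∈ InvL L κ', kp κ' Y *ᵥ x = x := by
  intro x hx
  have h1 : (fun I : κ → B => x (fun k => I (e.symm k))) ∈ InvL L κ := by
    rw [mem_InvL] at hx ⊢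
    intro X hX
    rw [WJ1.dm_re, hx X hX]
    rfl
  have h2 := h _ h1
  rw [kp_re] at h2
  funext J
  have h3 := congrFun h2 (fun k => J (e k))
  simp only [Equiv.apply_symm_apply] at h3
  exact h3

theorem comm (hO : IsOm Om) (hL : LD Om L) {u : USp Om} (hu : F24 L u) {M : Matrix B B ℂ}
    (hM : M ∈ CM L) : mt u * M = M * mt u := by
  have k2 := fixR (L := L) (finSumFinEquiv (m := 1) (n := 1)).symm hu.1
  have h1 : WJ1.ph Om M ∈ InvL L (Fin 1 ⊕ Fin 1) := by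
    rw [mem_InvL]
    intro X hX
    have h3 : X * M = M * X := hM X hX
    rw [WJ1.dm_ph hO (hL.sp X hX), h3, sub_self, map_zero]
  have h2 := k2 _ h1
  have h3 : kp (Fin 1 ⊕ Fin 1) (mt u) *ᵥ WJ1.ph Om M = WJ1.ph Om (mt u * M * mt u⁻¹) := by
    rw [WJ1.ph_eq, WJ1.ph_eq, kp_flat_Om hO, ← kp_mul, ← kp_mul]
  rw [h3] at h2
  have h4 := WJ1.ph_inj hO h2
  calc mt u * M = mt u * M * (mt u⁻¹ * mt u) := by rw [mt_inv_mul, mul_one]
    _ = (mt u * M * mt u⁻¹) * mt u := by noncomm_ring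
    _ = _ := by rw [h4]

theorem conj_split (hO : IsOm Om) (hL : LD Om L) {u : USp Om} (hu : F24 L u) {X : Matrix B B ℂ}
    (hX : X ∈ L) : ∃ X' ∈ L, ∃ z ∈ ZM L, mt u * X * mt u⁻¹ = X' + z := by
  have key : ∀ (κ : Type) [Fintype κ] [DecidableEq κ], ∀ x ∈ InvL L κ,
      kp κ (mt u) *ᵥ x = x → dm κ (mt u * X * mt u⁻¹) *ᵥ x = 0 := by
    intro κ _ _ x hx hux
    have h2 : kp κ (mt u) * dm κ X = dm κ (mt u * X * mt u⁻¹) * kp κ (mt u) :=
      kp_mul_dm (by rw [mul_assoc, mul_assoc, mt_inv_mul, mul_one])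
    have h3 : dm κ (mt u * X * mt u⁻¹) *ᵥ (kp κ (mt u) *ᵥ x) = 0 := by
      rw [mulVec_mulVec, ← h2, ← mulVec_mulVec, hx X hX, mulVec_zero]
    rwa [hux] at h3
  obtain ⟨-, -, X', hX', hz⟩ := split_of B Om L hO hL (mt u * X * mt u⁻¹)
    (fun x hx => key _ x hx (hu.1 x hx)) (fun x hx => key _ x hx (hu.2 x hx))
  exact ⟨X', hX', _, hz, by abel⟩

theorem conj_Dr (hO : IsOm Om) (hL : LD Om L) {u : USp Om} (hu : F24 L u) {X : Matrix B B ℂ}
    (hX : X ∈ Dr L) : mt u * X * mt u⁻¹ ∈ Dr L := by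
  unfold Dr at hX
  induction hX using Submodule.span_induction with
  | mem Z hZ =>
    obtain ⟨X, hX, Y, hY, rfl⟩ := hZ
    obtain ⟨X', hX', z, hz, h1⟩ := conj_split hO hL hu hX
    obtain ⟨Y', hY', w, hw, h2⟩ := conj_split hO hL hu hY
    have h3 : mt u * (X * Y - Y * X) * mt u⁻¹ =
        (mt u * X * mt u⁻¹) * (mt u * Y * mt u⁻¹) - (mt u * Y * mt u⁻¹) * (mt u * X * mt u⁻¹) := by
      have h3 : (mt u * X * mt u⁻¹) * (mt u * Y * mt u⁻¹) =
          mt u * X * (mt u⁻¹ * mt u) * Y * mt u⁻¹ := by noncomm_ring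
      have h4 : (mt u * Y * mt u⁻¹) * (mt u * X * mt u⁻¹) =
          mt u * Y * (mt u⁻¹ * mt u) * X * mt u⁻¹ := by noncomm_ring
      rw [h3, h4, mt_inv_mul]
      noncomm_ring
    have e1 : X' * w = w * X' := hw.1 X' hX'
    have e2 : Y' * z = z * Y' := hz.1 Y' hY'
    have e3 : z * w = w * z := hw.2 z hz.1
    rw [h3, h1, h2]
    have h4 : (X' + z) * (Y' + w) - (Y' + w) * (X' + z) = (X' * Y' - Y' * X') +
        (X' * w - w * X') - (Y' * z - z * Y') + (z * w - w * z) := by noncomm_ring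
    rw [h4, e1, e2, e3, sub_self, sub_self, sub_self, add_zero, sub_zero, add_zero]
    exact br_mem hX' hY'
  | zero =>
    rw [mul_zero, zero_mul]
    exact (Dr L).zero_mem
  | add x y _ _ hx hy =>
    rw [mul_add, add_mul]
    exact (Dr L).add_mem hx hy
  | smul c x _ hx =>
    rw [Matrix.mul_smul, Matrix.smul_mul]
    exact (Dr L).smul_mem _ hx

/-- An element acting on `e` as a scalar commutes with the ideal. -/
theorem comm_Ide (hO : IsOm Om) (hL : LD Om L) {v : USp Om} (hv : F24 L v) {e : Matrix B B ℂ}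
    (he : e ∈ CM L) (heh : eᴴ = e) {c : ℂ} (hc : mt v * e = c • e) {X : Matrix B B ℂ}
    (hX : X ∈ Ide L e) : mt v * X = X * mt v := by
  have hve := comm hO hL hv he
  have hve' := comm hO hL hv.inv he
  have hXe : X * e = e * X := he X (Dr_le hL hX.1)
  have h1 : mt v * X * mt v⁻¹ ∈ Ide L e := by
    refine ⟨conj_Dr hO hL hv hX.1, fun Y hY hYe => ?_⟩
    have h2 : mt v⁻¹ * Y * mt v ∈ Dr L := by
      have h3 := conj_Dr hO hL hv.inv hY
      rwa [inv_inv] at h3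
    have h3 : mt v⁻¹ * Y * mt v * e = 0 := by
      rw [mul_assoc, hve, ← mul_assoc, mul_assoc (mt v⁻¹), hYe, mul_zero, zero_mul]
    have h4 := hX.2 _ h2 h3
    have h5 : trace (mt v * X * mt v⁻¹ * Y) = trace (X * (mt v⁻¹ * Y * mt v)) := by
      rw [mul_assoc, mul_assoc, trace_mul_comm, mul_assoc, mul_assoc]
    rw [h5, h4]
  have h2 : (mt v * X * mt v⁻¹ - X) * e = 0 := by
    have h3 : mt v * X * mt v⁻¹ * e = X * e := by
      calc mt v * X * mt v⁻¹ * e = mt v * X * (mt v⁻¹ * e) := by noncomm_ring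
        _ = mt v * (X * e) * mt v⁻¹ := by rw [hve']; noncomm_ring
        _ = (mt v * e) * X * mt v⁻¹ := by rw [hXe]; noncomm_ring
        _ = c • (X * e * mt v⁻¹) := by rw [hc, hXe, Matrix.smul_mul, Matrix.smul_mul]
        _ = X * mt v⁻¹ * (c • e) := by
            rw [Matrix.mul_smul, mul_assoc X, ← hve', ← mul_assoc]
        _ = X * (mt v⁻¹ * mt v) * e := by rw [← hc]; noncomm_ring
        _ = X * e := by rw [mt_inv_mul, mul_one]
    rw [sub_mul, h3, sub_self]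
  have h3 := Ide_zero hL he heh ((Ide L e).sub_mem h1 hX) h2
  have h4 : mt v * X * mt v⁻¹ = X := sub_eq_zero.1 h3
  calc mt v * X = mt v * X * (mt v⁻¹ * mt v) := by rw [mt_inv_mul, mul_one]
    _ = (mt v * X * mt v⁻¹) * mt v := by noncomm_ring
    _ = _ := by rw [h4]

/-- An element commuting with the ideal acts on `e` as a scalar. -/
theorem scal_of (hO : IsOm Om) (hL : LD Om L) {v : USp Om} (hv : F24 L v) {e : Matrix B B ℂ}
    (hM : Mi L e) (h : ∀ X ∈ Ide L e, mt v * X = X * mt v) : ∃ c : ℂ, mt v * e = c • e := by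
  obtain ⟨he, hee, heh, h0, hmin⟩ := hM
  have hve := comm hO hL hv he
  have h1 : mt v * e ∈ CM L := by
    intro X hX
    obtain ⟨z, hz, hzL, d, hd, rfl⟩ := L_dec hL hX
    obtain ⟨a, ha, b, hb, rfl⟩ := Dr_dec hL he heh hd
    have hvz := comm hO hL hv hz.1
    have hze : z * e = e * z := he z hzL
    have hae : a * e = e * a := he a (Dr_le hL ha.1)
    have hbe : b * e = e * b := he b (Dr_le hL hb.1)
    have hb0 : e * b = 0 := by rw [← hbe, hb.2]
    have e1 : z * (mt v * e) = mt v * e * z := by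
      rw [← mul_assoc, ← hvz, mul_assoc, hze, mul_assoc]
    have e2 : a * (mt v * e) = mt v * e * a := by
      rw [← mul_assoc, ← h a ha, mul_assoc, hae, mul_assoc]
    have e3 : b * (mt v * e) = mt v * e * b := by
      rw [hve, ← mul_assoc, hb.2, zero_mul, ← hve, mul_assoc, hb0, mul_zero]
    rw [add_mul, add_mul, mul_add, mul_add, e1, e2, e3]
  obtain ⟨c, hc⟩ := hmin _ h1
  refine ⟨c, ?_⟩
  rw [← hc, ← mul_assoc, ← hve, mul_assoc, hee, mul_assoc, hee]

end GJ1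

open GJ1 in
theorem n1_of : St_n1 := by
  classical
  intro B _ _ Om L hO hL T hT u hu hnor
  have hu24 : F24 L u := ⟨hu.f2, hu.f4⟩
  -- the members which are not lines
  obtain ⟨T', hT'⟩ : ∃ T' : Set (Matrix B B ℂ), T' = {e | e ∈ T ∧ ¬ Li L e} := ⟨_, rfl⟩
  have hpu : ∀ e ∈ T', Pu L e := by
    intro e he
    rw [hT'] at he
    exact (hT e he.1).resolve_left he.2
  have hnor' : ∀ e ∈ T', Nor Om L u e := by
    intro e he
    rw [hT'] at he
    exact hnor e he.1 he.2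
  have hfin := fin_ide hL hpu
  -- representatives
  have hrep : ∀ J : Submodule ℂ (Matrix B B ℂ), ∃ (r : Matrix B B ℂ) (k : USp Om),
      (∃ e ∈ T', Ide L e = J) → (r ∈ T' ∧ Ide L r = J ∧ k ∈ KK Om L ∧
        (∀ e', Mi L e' → (∀ X ∈ J, X * e' = 0) → mt k * e' = e') ∧
        ∃ c : ℂ, mt u * r = c • (mt k * r)) := by
    intro J
    by_cases hJ : ∃ e ∈ T', Ide L e = J
    · obtain ⟨e, he, hJ'⟩ := hJ
      obtain ⟨k, hk, h1, c, h2⟩ := hnor' e he
      refine ⟨e, k, fun _ => ⟨he, hJ', hk, fun e' he' h => h1 e' he' (by rwa [hJ']), c, ?_⟩⟩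
      have h3 : mt u = mt k * mt (k⁻¹ * u) := by
        rw [← mt_mul, mul_inv_cancel_left]
      rw [h3, mul_assoc, h2, Matrix.mul_smul]
    · exact ⟨0, 1, fun h => absurd h hJ⟩
  choose r κ hr using hrep
  have claim : ∀ F : Finset (Submodule ℂ (Matrix B B ℂ)), (∀ J ∈ F, ∃ e ∈ T', Ide L e = J) →
      ∃ k ∈ KK Om L, (∀ J ∈ F, mt k * r J = mt (κ J) * r J) ∧
        ∀ e', Mi L e' → (∀ J ∈ F, ∀ X ∈ J, X * e' = 0) → mt k * e' = e' := by
    intro F
    induction F using Finset.induction_on with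
    | empty =>
      intro _
      refine ⟨1, (KK Om L).one_mem, fun J hJ => absurd hJ (Finset.notMem_empty J), fun e' _ _ => ?_⟩
      rw [mt_one, one_mul]
    | insert J F hJF ih =>
      intro hF
      obtain ⟨k, hk, h1, h2⟩ := ih fun J' hJ' => hF J' (Finset.mem_insert_of_mem hJ')
      obtain ⟨hJ1, hJ2, hJ3, hJ4, c, hJ5⟩ := hr J (hF J (Finset.mem_insert_self _ _))
      have hkill : ∀ J' ∈ F, (∀ X ∈ J, X * r J' = 0) ∧ ∀ X ∈ J', X * r J = 0 := by
        intro J' hJ'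
        obtain ⟨g1, g2, -, -, -⟩ := hr J' (hF J' (Finset.mem_insert_of_mem hJ'))
        rcases dich hL (hpu _ hJ1) (hpu _ g1) with h3 | h3
        · exfalso
          rw [hJ2, g2] at h3
          exact hJF (h3 ▸ hJ')
        · rw [hJ2, g2] at h3
          exact h3
      refine ⟨κ J * k, (KK Om L).mul_mem hJ3 hk, fun J' hJ' => ?_, fun e' he' h3 => ?_⟩
      · rw [mt_mul, mul_assoc]
        rcases Finset.mem_insert.1 hJ' with rfl | hJ'
        · rw [h2 _ (hpu _ hJ1).1 fun J'' hJ'' => (hkill J'' hJ'').2]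
        · obtain ⟨g1, g2, g3, g4, -⟩ := hr J' (hF J' (Finset.mem_insert_of_mem hJ'))
          rw [h1 J' hJ', comm hO hL (F24_of_KK g3) (hpu _ g1).1.1, ← mul_assoc,
            hJ4 _ (hpu _ g1).1 (hkill J' hJ').1]
      · rw [mt_mul, mul_assoc, h2 e' he' fun J' hJ' => h3 J' (Finset.mem_insert_of_mem hJ'),
          hJ4 e' he' (h3 J (Finset.mem_insert_self _ _))]
  obtain ⟨k, hk, h1, -⟩ := claim hfin.toFinset fun J hJ => by
    have := (Set.Finite.mem_toFinset hfin).1 hJ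
    exact this
  refine ⟨k, hk, fun e he => ?_⟩
  have hv24 : F24 L (k⁻¹ * u) := (F24_of_KK ((KK Om L).inv_mem hk)).mul hu24
  by_cases hl : Li L e
  · obtain ⟨c, hc⟩ := line_scal hl.1.2.1 hl.2 (mt (k⁻¹ * u))
    refine ⟨c, ?_⟩
    rw [← hc, ← comm hO hL hv24 hl.1.1, mul_assoc, hl.1.2.1]
  · have heT : e ∈ T' := by rw [hT']; exact ⟨he, hl⟩
    obtain ⟨g1, g2, g3, g4, c, g5⟩ := hr (Ide L e) ⟨e, heT, rfl⟩
    have h2 := h1 (Ide L e) ((Set.Finite.mem_toFinset hfin).2 ⟨e, heT, rfl⟩)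
    have h3 : mt (k⁻¹ * u) * r (Ide L e) = c • r (Ide L e) := by
      rw [mt_mul, mul_assoc, g5, ← h2, Matrix.mul_smul, ← mul_assoc, mt_inv_mul, one_mul]
    refine scal_of hO hL hv24 (hpu e heT).1 fun X hX => ?_
    rw [← g2] at hX
    exact comm_Ide hO hL hv24 (hpu _ g1).1.1 (hpu _ g1).1.2.2.1 h3 hX

end

end Pool.Agent.NH32
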