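import Pool.Agent.NH32.GsA

/-!
# The special linear case: the group
-/

set_option linter.unusedSectionVars false

namespace Pool.Agent.NH32

open Matrix Module NormedSpace

noncomputable section

namespace GJ5

variable {B : Type} [Fintype B] [DecidableEq B] {Om : Matrix B B ℂ}
  {L : Submodule ℂ (Matrix B B ℂ)}

theorem expA {X P : Matrix B B ℂ} {d : B → ℂ} (h : X * P = P * diagonal d) :
    exp ((1 : ℝ) • X) * P = P * diagonal fun b => Complex.exp (d b) := by
  have key : ∀ i b (s : ℝ), HasDerivAt (fun s : ℝ => (exp (s • X) * P) i b *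
      Complex.exp (-((s : ℂ) * d b))) 0 s := by
    intro i b s
    have h1 : HasDerivAt (fun s : ℝ => (exp (s • X) * P) i b) ((exp (s • X) * X * P) i b) s := by
      have h2 : ∀ M : Matrix B B ℂ, (M * P) i b = ∑ k, M i k * P k b := fun M =>
        Matrix.mul_apply
      simp only [h2]
      exact HasDerivAt.fun_sum fun k _ => (isCurve_exp X s i k).mul_const _
    have h3 : HasDerivAt (fun s : ℝ => Complex.exp (-((s : ℂ) * d b)))
        (Complex.exp (-((s : ℂ) * d b)) * (-d b)) s := by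
      have h4 : HasDerivAt (fun s : ℝ => -((s : ℂ) * d b)) (-d b) s := by
        have h5 : HasDerivAt (fun s : ℝ => (s : ℂ)) 1 s := Complex.ofRealCLM.hasDerivAt
        have h6 := (h5.mul_const (d b)).neg
        rw [one_mul] at h6
        exact h6
      exact h4.cexp
    refine (h1.mul h3).congr_deriv ?_
    have h7 : (exp (s • X) * X * P) i b = (exp (s • X) * P) i b * d b := by
      rw [mul_assoc, h, ← mul_assoc, mul_diagonal]
    rw [h7]
    ring
  ext i b
  have h2 := is_const_of_deriv_eq_zero (fun s => (key i b s).differentiableAt)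
    (fun s => (key i b s).deriv) 1 0
  beta_reduce at h2
  rw [exp_zero_smul, one_mul] at h2
  rw [mul_diagonal]
  simp only [Complex.ofReal_one, one_mul, Complex.ofReal_zero, zero_mul, neg_zero,
    Complex.exp_zero, mul_one] at h2
  rw [← h2, mul_assoc, ← Complex.exp_add, neg_add_cancel, Complex.exp_zero, mul_one]

theorem kp_re {κ κ' : Type} [Fintype κ] [DecidableEq κ] [Fintype κ'] [DecidableEq κ']
    (e : κ ≃ κ') (M : Matrix B B ℂ) (c : (κ' → B) → ℂ) :
    kp κ M *ᵥ (fun I : κ → B => c (fun k => I (e.symm k))) =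
      fun I : κ → B => (kp κ' M *ᵥ c) (fun k => I (e.symm k)) := by
  funext I
  rw [mvA, mvA]
  rw [← Equiv.sum_comp (Equiv.arrowCongr e (Equiv.refl B))]
  refine Finset.sum_congr rfl fun J _ => ?_
  rw [kp_apply, kp_apply]
  congr 1
  rw [← Equiv.prod_comp e]
  refine Finset.prod_congr rfl fun k _ => ?_
  simp

theorem fix_re {κ κ' : Type} [Fintype κ] [DecidableEq κ]
    [Fintype κ'] [DecidableEq κ'] (e : κ ≃ κ') {M : Matrix B B ℂ}
    (h : ∀ x ∈ InvL L κ, kp κ M *ᵥ x = x) : ∀ x ∈ InvL L κ', kp κ' M *ᵥ x = x := by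
  intro x hx
  have h1 : (fun I : κ → B => x (fun k => I (e.symm k))) ∈ InvL L κ := by
    rw [mem_InvL] at hx ⊢
    intro X hX
    rw [WJ1.dm_re, hx X hX]
    rfl
  have h2 := h _ h1
  rw [kp_re] at h2
  funext J
  have h3 := congrFun h2 (fun k => J (e k))
  simp only [Equiv.apply_symm_apply] at h3
  exact h3

/-- The elements fixing the invariants of degree two commute with the commutant. -/
theorem comm_CM (hO : IsOm Om) (hL : LD Om L) {u : USp Om}
    (h : ∀ x ∈ InvL L (Fin 2), kp (Fin 2) (mt u) *ᵥ x = x) {M : Matrix B B ℂ} (hM : M ∈ CM L) :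
    mt u * M = M * mt u := by
  have k2 : ∀ x ∈ InvL L (Fin 1 ⊕ Fin 1), kp (Fin 1 ⊕ Fin 1) (mt u) *ᵥ x = x :=
    fix_re (finSumFinEquiv (m := 1) (n := 1)).symm h
  have h1 : WJ1.ph Om M ∈ InvL L (Fin 1 ⊕ Fin 1) := by
    rw [mem_InvL]
    intro X hX
    have h3 : X * M = M * X := hM X hX
    rw [WJ1.dm_ph hO (hL.sp X hX), h3, sub_self, map_zero]
  have h3 := k2 _ h1
  rw [WJ1.ph_eq, kp_flat_Om hO, ← kp_mul, ← kp_mul] at h3
  have h4 := kp_one_inj (kp_Om_cancel hO (flat_inj h3))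
  calc mt u * M = mt u * M * (mt u⁻¹ * mt u) := by rw [mt_inv_mul, mul_one]
    _ = (mt u * M * mt u⁻¹) * mt u := by noncomm_ring
    _ = M * mt u := by rw [h4]

theorem Dr_le (hL : LD Om L) : Dr L ≤ L := by
  refine Submodule.span_le.2 ?_
  rintro Z ⟨X, hX, Y, hY, rfl⟩
  exact hL.br X hX Y hY

theorem Dr_adj (hL : LD Om L) {X : Matrix B B ℂ} (hX : X ∈ Dr L) : Xᴴ ∈ Dr L := by
  refine Submodule.span_induction (p := fun X _ => Xᴴ ∈ Dr L) ?_ ?_ ?_ ?_ hX
  · rintro Z ⟨X, hX, Y, hY, rfl⟩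
    refine Submodule.subset_span ⟨Yᴴ, hL.adj Y hY, Xᴴ, hL.adj X hX, ?_⟩
    rw [conjTranspose_sub, conjTranspose_mul, conjTranspose_mul]
  · rw [conjTranspose_zero]
    exact (Dr L).zero_mem
  · intro X Y _ _ h1 h2
    rw [conjTranspose_add]
    exact (Dr L).add_mem h1 h2
  · intro c X _ h1
    rw [conjTranspose_smul]
    exact (Dr L).smul_mem _ h1

/-- The elements of the derived algebra killing `e`. -/
def Ker (L : Submodule ℂ (Matrix B B ℂ)) (e : Matrix B B ℂ) : Submodule ℂ (Matrix B B ℂ) where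
  carrier := {X | X ∈ Dr L ∧ X * e = 0}
  add_mem' := by
    rintro X Y ⟨h1, h2⟩ ⟨h3, h4⟩
    exact ⟨(Dr L).add_mem h1 h3, by rw [add_mul, h2, h4, add_zero]⟩
  zero_mem' := ⟨(Dr L).zero_mem, zero_mul _⟩
  smul_mem' := by
    rintro c X ⟨h1, h2⟩
    exact ⟨(Dr L).smul_mem _ h1, by rw [Matrix.smul_mul, h2, smul_zero]⟩

theorem kill_adj (hL : LD Om L) {e : Matrix B B ℂ} (he : e ∈ CM L) (heh : eᴴ = e)
    {X : Matrix B B ℂ} (hX : X ∈ L) (h : X * e = 0) : Xᴴ * e = 0 := by
  have h1 : Xᴴ * e = e * Xᴴ := he _ (hL.adj X hX)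
  have h2 := congrArg Matrix.conjTranspose h
  rw [conjTranspose_mul, heh, conjTranspose_zero] at h2
  rw [h1, h2]

theorem Ide_dec (hL : LD Om L) {e : Matrix B B ℂ} (he : e ∈ CM L) (heh : eᴴ = e)
    {X' : Matrix B B ℂ} (hX' : X' ∈ Dr L) : ∃ X ∈ Ide L e, X * e = X' * e := by
  obtain ⟨s, hs, ho⟩ := exists_orth (Ker L e) X'
  refine ⟨X' - s, ⟨(Dr L).sub_mem hX' hs.1, fun Y hY hYe => ?_⟩, ?_⟩
  · have h1 := ho Yᴴ ⟨Dr_adj hL hY, kill_adj hL he heh (Dr_le hL hY) hYe⟩
    rw [conjTranspose_conjTranspose] at h1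
    rw [trace_mul_comm]
    exact h1
  · rw [sub_mul, hs.2, sub_zero]

theorem Ide_adj (hL : LD Om L) {e : Matrix B B ℂ} (he : e ∈ CM L) (heh : eᴴ = e)
    {X : Matrix B B ℂ} (hX : X ∈ Ide L e) : Xᴴ ∈ Ide L e := by
  refine ⟨Dr_adj hL hX.1, fun Y hY hYe => ?_⟩
  have h1 := hX.2 Yᴴ (Dr_adj hL hY) (kill_adj hL he heh (Dr_le hL hY) hYe)
  have h2 := congrArg star h1
  rw [← trace_conjTranspose, conjTranspose_mul, conjTranspose_conjTranspose, star_zero,
    trace_mul_comm] at h2
  exact h2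

theorem Ide_zero (hL : LD Om L) {e : Matrix B B ℂ} (he : e ∈ CM L) (heh : eᴴ = e)
    {X : Matrix B B ℂ} (hX : X ∈ Ide L e) (h : X * e = 0) : X = 0 := by
  apply trace_self_eq_zero
  rw [trace_mul_comm]
  exact hX.2 Xᴴ (Dr_adj hL hX.1) (kill_adj hL he heh (Dr_le hL hX.1) h)

end GJ5

open GJ5 in
/-- **G5.** The special linear case: the group. -/
theorem slnor_of : St_slnor := by
  intro B _ _ Om L hO hL u hu e hSl
  obtain ⟨⟨he, hee, heh, he0, -⟩, -, hsl⟩ := hSl
  have hue : mt u * e = e * mt u := comm_CM hO hL hu.f2 he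
  have hUU : mt u * (mt u)ᴴ = 1 := mt_mul_inv u
  have hUU' : (mt u)ᴴ * mt u = 1 := mt_inv_mul u
  have hue' : (mt u)ᴴ * e = e * (mt u)ᴴ := by
    have h1 := congrArg Matrix.conjTranspose hue
    rw [conjTranspose_mul, conjTranspose_mul, heh] at h1
    exact h1.symm
  -- common diagonalization
  obtain ⟨g, hg, hd⟩ := sim_diag {M | M = mt u + (mt u)ᴴ ∨ M = Complex.I • (mt u - (mt u)ᴴ) ∨
      M = e} (by
      rintro M (rfl | rfl | rfl)
      · exact herm_one _
      · exact herm_two _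
      · exact heh) (by
      rintro M (rfl | rfl | rfl) N (rfl | rfl | rfl)
      · rfl
      · rw [Matrix.mul_smul, Matrix.smul_mul]
        congr 1
        have h1 : (mt u + (mt u)ᴴ) * (mt u - (mt u)ᴴ) = mt u * mt u + (mt u)ᴴ * mt u -
            mt u * (mt u)ᴴ - (mt u)ᴴ * (mt u)ᴴ := by noncomm_ring
        have h2 : (mt u - (mt u)ᴴ) * (mt u + (mt u)ᴴ) = mt u * mt u + mt u * (mt u)ᴴ -
            (mt u)ᴴ * mt u - (mt u)ᴴ * (mt u)ᴴ := by noncomm_ring
        rw [h1, h2, hUU, hUU']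
      · rw [add_mul, mul_add, hue, hue']
      · rw [Matrix.mul_smul, Matrix.smul_mul]
        congr 1
        have h1 : (mt u + (mt u)ᴴ) * (mt u - (mt u)ᴴ) = mt u * mt u + (mt u)ᴴ * mt u -
            mt u * (mt u)ᴴ - (mt u)ᴴ * (mt u)ᴴ := by noncomm_ring
        have h2 : (mt u - (mt u)ᴴ) * (mt u + (mt u)ᴴ) = mt u * mt u + mt u * (mt u)ᴴ -
            (mt u)ᴴ * mt u - (mt u)ᴴ * (mt u)ᴴ := by noncomm_ring
        rw [h1, h2, hUU, hUU']
      · rfl
      · rw [Matrix.smul_mul, Matrix.mul_smul, sub_mul, mul_sub, hue, hue']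
      · rw [add_mul, mul_add, hue, hue']
      · rw [Matrix.smul_mul, Matrix.mul_smul, sub_mul, mul_sub, hue, hue']
      · rfl)
  obtain ⟨d1, hd1⟩ := hd _ (Or.inl rfl)
  obtain ⟨d2, hd2⟩ := hd _ (Or.inr (Or.inl rfl))
  obtain ⟨ep, hep⟩ := hd e (Or.inr (Or.inr rfl))
  have hg' : g * gᴴ = 1 := mul_eq_one_comm.1 hg
  obtain ⟨mu, hmu⟩ : ∃ mu : B → ℂ, mt u * g = g * diagonal mu := by
    refine ⟨fun b => (1 / 2 : ℂ) * d1 b + (-(Complex.I) / 2 : ℂ) * d2 b, ?_⟩
    have h1 := herm_dec (mt u)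
    have h2 : (diagonal fun b => (1 / 2 : ℂ) * d1 b + (-(Complex.I) / 2 : ℂ) * d2 b) =
        (1 / 2 : ℂ) • diagonal d1 + (-(Complex.I) / 2 : ℂ) • diagonal d2 := by
      ext i j
      by_cases hij : i = j
      · subst hij
        simp
      · simp [diagonal_apply_ne _ hij]
    rw [h2]
    conv_lhs => rw [h1]
    rw [add_mul, Matrix.smul_mul, Matrix.smul_mul, hd1, hd2, mul_add, Matrix.mul_smul,
      Matrix.mul_smul]
  -- the eigenvalues of e
  have hcan : ∀ {M N : Matrix B B ℂ}, g * M = g * N → M = N := by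
    intro M N h
    have h1 := congrArg (fun Z => gᴴ * Z) h
    beta_reduce at h1
    rwa [← mul_assoc, ← mul_assoc, hg, one_mul, one_mul] at h1
  have hep2 : ∀ b, ep b = 1 ∨ ep b = 0 := by
    intro b
    have h1 : e * (e * g) = e * g := by rw [← mul_assoc, hee]
    rw [hep, ← mul_assoc, hep, mul_assoc, diagonal_mul_diagonal] at h1
    have h2 := congrFun (congrFun (hcan h1) b) b
    rw [diagonal_apply_eq, diagonal_apply_eq] at h2
    have h3 : ep b * (ep b - 1) = 0 := by linear_combination h2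
    rcases mul_eq_zero.1 h3 with h4 | h4
    · exact Or.inr h4
    · exact Or.inl (sub_eq_zero.1 h4)
  have hmu2 : ∀ b, ‖mu b‖ = 1 := by
    intro b
    have h1 : (mt u * g)ᴴ * (mt u * g) = 1 := by
      rw [conjTranspose_mul, mul_assoc, ← mul_assoc (mt u)ᴴ, hUU', one_mul, hg]
    rw [hmu, conjTranspose_mul, mul_assoc, ← mul_assoc gᴴ, hg, one_mul,
      diagonal_conjTranspose, diagonal_mul_diagonal] at h1
    have h2 := congrFun (congrFun h1 b) b
    rw [diagonal_apply_eq, one_apply_eq] at h2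
    have h3 : star (mu b) * mu b = ((‖mu b‖ ^ 2 : ℝ) : ℂ) := by
      have h4 := Complex.conj_mul' (mu b)
      push_cast
      exact h4
    have h5 : star (mu b) * mu b = 1 := h2
    rw [h3] at h5
    have h6 : ‖mu b‖ ^ 2 = 1 := by exact_mod_cast h5
    have h7 := norm_nonneg (mu b)
    nlinarith
  classical
  let th : B → ℝ := fun b => Complex.arg (mu b)
  have hth : ∀ b, Complex.exp (th b * Complex.I) = mu b := by
    intro b
    have h1 := Complex.norm_mul_exp_arg_mul_I (mu b)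
    rw [hmu2 b, Complex.ofReal_one, one_mul] at h1
    exact h1
  -- the trace
  let S : Finset B := Finset.univ.filter fun b => ep b = 1
  have he_eq : e = g * diagonal ep * gᴴ := by
    rw [← hep, mul_assoc, hg', mul_one]
  have hS0 : (S.card : ℝ) ≠ 0 := by
    intro h0
    apply he0
    have h1 : S = ∅ := Finset.card_eq_zero.1 (by exact_mod_cast h0)
    have h2 : ep = 0 := by
      funext b
      rcases hep2 b with h3 | h3
      · have h4 : b ∈ S := Finset.mem_filter.2 ⟨Finset.mem_univ _, h3⟩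
        rw [h1] at h4
        exact absurd h4 (Finset.notMem_empty _)
      · exact h3
    rw [he_eq, h2]
    have h5 : diagonal (0 : B → ℂ) = 0 := diagonal_zero
    rw [h5, mul_zero, zero_mul]
  obtain ⟨h, hh⟩ : ∃ h : ℝ, h = (∑ b ∈ S, th b) / S.card := ⟨_, rfl⟩
  let lam : B → ℂ := fun b => if ep b = 1 then ((th b - h : ℝ) : ℂ) * Complex.I else 0
  have hlam1 : ∀ b, ep b = 1 → lam b = ((th b - h : ℝ) : ℂ) * Complex.I := fun b hb => if_pos hb
  have hlam0 : ∀ b, ep b = 0 → lam b = 0 := fun b hb => if_neg (by rw [hb]; exact zero_ne_one)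
  have hel : ∀ b, ep b * lam b = lam b := by
    intro b
    rcases hep2 b with h1 | h1
    · rw [h1, one_mul]
    · rw [hlam0 b h1, mul_zero]
  obtain ⟨T, hT⟩ : ∃ T, T = g * diagonal lam * gᴴ := ⟨_, rfl⟩
  have heg : gᴴ * e = diagonal ep * gᴴ := by
    rw [he_eq, ← mul_assoc, ← mul_assoc, hg, one_mul]
  have hTe : e * T * e = T := by
    have h1 : e * T * e = (e * g) * diagonal lam * (gᴴ * e) := by rw [hT]; noncomm_ring
    rw [h1, hep, heg]
    have h2 : g * diagonal ep * diagonal lam * (diagonal ep * gᴴ) =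
        g * (diagonal ep * diagonal lam * diagonal ep) * gᴴ := by noncomm_ring
    rw [h2, diagonal_mul_diagonal, diagonal_mul_diagonal, hT]
    congr 3
    funext b
    rw [hel b, mul_comm, hel b]
  have hTtr : trace T = 0 := by
    rw [hT, trace_mul_comm, ← mul_assoc, hg, one_mul, trace_diagonal]
    have h1 : ∑ b, lam b = ∑ b ∈ S, lam b := by
      symm
      refine Finset.sum_subset (Finset.subset_univ _) fun b _ hb => ?_
      rcases hep2 b with h2 | h2
      · have h3 : b ∈ S := Finset.mem_filter.2 ⟨Finset.mem_univ _, h2⟩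
        exact absurd h3 hb
      · exact hlam0 b h2
    have h2 : ∑ b ∈ S, lam b = ∑ b ∈ S, ((th b - h : ℝ) : ℂ) * Complex.I :=
      Finset.sum_congr rfl fun b hb => hlam1 b (Finset.mem_filter.1 hb).2
    have h3 : ∑ b ∈ S, (th b - h) = 0 := by
      rw [Finset.sum_sub_distrib, Finset.sum_const, nsmul_eq_mul, hh, mul_div_cancel₀ _ hS0,
        sub_self]
    rw [h1, h2, ← Finset.sum_mul, ← Complex.ofReal_sum, h3, Complex.ofReal_zero, zero_mul]
  have hTh : Tᴴ = -T := by
    rw [hT, conjTranspose_mul, conjTranspose_mul, conjTranspose_conjTranspose,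
      diagonal_conjTranspose, ← mul_assoc]
    have h1 : (star lam : B → ℂ) = -lam := by
      funext b
      rw [Pi.star_apply, Pi.neg_apply]
      rcases hep2 b with h2 | h2
      · rw [hlam1 b h2, star_mul']
        have h3 : star (((th b - h : ℝ) : ℂ)) = ((th b - h : ℝ) : ℂ) := Complex.conj_ofReal _
        have h4 : star Complex.I = -Complex.I := Complex.conj_I
        rw [h3, h4, mul_neg]
      · rw [hlam0 b h2, star_zero, neg_zero]
    rw [h1]
    have h5 : diagonal (-lam) = -diagonal lam := (diagonal_neg lam).symm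
    rw [h5]
    noncomm_ring
  -- the element of the Lie algebra
  obtain ⟨X', hX', hX'e⟩ := hsl T hTe hTtr
  obtain ⟨X, hX, hXe⟩ := Ide_dec hL he heh hX'
  rw [hX'e] at hXe
  have hXL : X ∈ L := Dr_le hL hX.1
  have hXH : Xᴴ * e = -T := by
    have h1 : Xᴴ * e = e * Xᴴ := he _ (hL.adj X hXL)
    have h2 := congrArg Matrix.conjTranspose hXe
    rw [conjTranspose_mul, heh, hTh] at h2
    rw [h1, h2]
  have hskew : Xᴴ = -X := by
    have h1 : X + Xᴴ = 0 := Ide_zero hL he heh ((Ide L e).add_mem hX (Ide_adj hL he heh hX)) (by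
      rw [add_mul, hXe, hXH, add_neg_cancel])
    exact (neg_eq_of_add_eq_zero_right h1).symm
  have hsp := hL.sp X hXL
  refine ⟨eU hO.sq hskew hsp 1, ?_, ?_, Complex.exp (h * Complex.I), ?_⟩
  · intro κ _ _ x hx
    exact (isCurve_exp X).fix (exp_zero_smul X) (hx X hXL) 1
  · intro e' _ he'
    rw [mt_eU]
    have h1 : X * e' = e' * diagonal (fun _ => 0) := by
      rw [he' X hX, diagonal_zero, mul_zero]
    rw [expA h1]
    simp only [Complex.exp_zero]
    rw [diagonal_one, mul_one]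
  · have h1 : X * (e * g) = (e * g) * diagonal lam := by
      rw [← mul_assoc, hXe, hT, mul_assoc, hg, mul_one, hep, mul_assoc, diagonal_mul_diagonal]
      congr 2
      funext b
      exact (hel b).symm
    have h2 := expA h1
    have h3 : mt u * e = Complex.exp (h * Complex.I) • (exp ((1 : ℝ) • X) * e) := by
      have h4 : exp ((1 : ℝ) • X) * e = exp ((1 : ℝ) • X) * (e * g) * gᴴ := by
        rw [mul_assoc, mul_assoc, hg', mul_one]
      have h5 : mt u * e = g * (diagonal mu * diagonal ep) * gᴴ := by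
        calc mt u * e = mt u * e * (g * gᴴ) := by rw [hg', mul_one]
          _ = mt u * (e * g) * gᴴ := by noncomm_ring
          _ = mt u * (g * diagonal ep) * gᴴ := by rw [hep]
          _ = (mt u * g) * diagonal ep * gᴴ := by noncomm_ring
          _ = g * (diagonal mu * diagonal ep) * gᴴ := by rw [hmu]; noncomm_ring
      rw [h4, h2, h5, hep, mul_assoc g (diagonal ep), diagonal_mul_diagonal,
        diagonal_mul_diagonal, ← Matrix.smul_mul, ← Matrix.mul_smul, ← diagonal_smul]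
      congr 3
      funext b
      rw [Pi.smul_apply, smul_eq_mul]
      rcases hep2 b with h6 | h6
      · rw [h6, hlam1 b h6, one_mul, mul_one, ← hth b, ← Complex.exp_add]
        congr 1
        push_cast
        ring
      · rw [h6, mul_zero, zero_mul, mul_zero]
    rw [mt_mul, mul_assoc, h3, Matrix.mul_smul]
    congr 1
    rw [← mt_eU hO.sq hskew hsp, ← mul_assoc, mt_inv_mul, one_mul]

end

end Pool.Agent.NH32
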