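import Pool.Agent.NH32.GtA
import Pool.Agent.NH32.GJ1
import Pool.Agent.NH32.GJ5

/-!
# Project G, stage 2: the group in the spin cases
-/

set_option linter.unusedSectionVars false

namespace Pool.Agent.NH32

open Matrix Module NormedSpace

noncomputable section

namespace GH10

variable {B : Type} [Fintype B] [DecidableEq B] {Om : Matrix B B ℂ}
  {L : Submodule ℂ (Matrix B B ℂ)} {e D : Matrix B B ℂ} {r : ℕ} {T : Fin r → Matrix B B ℂ}
  {Φ : Finset (Fin r → ℝ)} {X : (Fin r → ℝ) → Matrix B B ℂ} {h : Fin r → ℝ}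

/-! ### The torus -/

theorem tor_add (T : Fin r → Matrix B B ℂ) (x y : Fin r → ℝ) :
    tor T (x + y) = tor T x + tor T y := by
  unfold tor
  rw [← Finset.sum_add_distrib]
  refine Finset.sum_congr rfl fun i _ => ?_
  rw [Pi.add_apply, Complex.ofReal_add, add_smul]

theorem tor_smul (T : Fin r → Matrix B B ℂ) (a : ℝ) (x : Fin r → ℝ) :
    tor T (a • x) = (a : ℂ) • tor T x := by
  unfold tor
  rw [Finset.smul_sum]
  refine Finset.sum_congr rfl fun i _ => ?_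
  rw [Pi.smul_apply, smul_eq_mul, Complex.ofReal_mul, mul_smul]

theorem tor_mem {s : Submodule ℂ (Matrix B B ℂ)} (ht : ∀ i, T i ∈ s) (x : Fin r → ℝ) :
    tor T x ∈ s := s.sum_mem fun i _ => s.smul_mem _ (ht i)

theorem tor_herm (ht : ∀ i, (T i)ᴴ = T i) (x : Fin r → ℝ) : (tor T x)ᴴ = tor T x := by
  unfold tor
  rw [conjTranspose_sum]
  refine Finset.sum_congr rfl fun i _ => ?_
  rw [conjTranspose_smul, ht i]
  congr 1
  exact Complex.conj_ofReal _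

theorem tor_single (T : Fin r → Matrix B B ℂ) (i : Fin r) : tor T (Pi.single i 1) = T i := by
  unfold tor
  rw [Finset.sum_eq_single i]
  · rw [Pi.single_eq_same, Complex.ofReal_one, one_smul]
  · intro j _ hj
    rw [Pi.single_eq_of_ne hj, Complex.ofReal_zero, zero_smul]
  · intro hi
    exact absurd (Finset.mem_univ i) hi

theorem tor_trace (ht : ∀ i j, trace (T i * T j) = if i = j then 1 else 0) (x y : Fin r → ℝ) :
    trace (tor T x * tor T y) = ((x ⬝ᵥ y : ℝ) : ℂ) := by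
  unfold tor dotProduct
  rw [Finset.sum_mul, trace_sum, Complex.ofReal_sum]
  refine Finset.sum_congr rfl fun i _ => ?_
  rw [Finset.mul_sum, trace_sum, Finset.sum_eq_single i]
  · rw [Matrix.smul_mul, Matrix.mul_smul, trace_smul, trace_smul, ht i i, if_pos rfl]
    simp
  · intro j _ hj
    rw [Matrix.smul_mul, Matrix.mul_smul, trace_smul, trace_smul, ht i j, if_neg hj.symm]
    simp
  · intro hi
    exact absurd (Finset.mem_univ i) hi

theorem tor_comm (ht : ∀ i j, T i * T j = T j * T i) (x y : Fin r → ℝ) :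
    tor T x * tor T y = tor T y * tor T x := by
  unfold tor
  rw [Finset.sum_mul, Finset.mul_sum]
  refine Finset.sum_congr rfl fun i _ => ?_
  rw [Finset.mul_sum, Finset.sum_mul]
  refine Finset.sum_congr rfl fun j _ => ?_
  rw [Matrix.smul_mul, Matrix.mul_smul, Matrix.smul_mul, Matrix.mul_smul, ht i j, smul_comm]

theorem dot_self {x : Fin r → ℝ} (hx : x ⬝ᵥ x = 0) : x = 0 := dotProduct_self_eq_zero.1 hx

theorem tor_inj (ht : ∀ i j, trace (T i * T j) = if i = j then 1 else 0) {x y : Fin r → ℝ}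
    (hxy : tor T x = tor T y) : x = y := by
  have h1 : ∀ z, x ⬝ᵥ z = y ⬝ᵥ z := by
    intro z
    have h2 := tor_trace ht x z
    have h3 := tor_trace ht y z
    rw [hxy, h3] at h2
    exact_mod_cast h2.symm
  have h2 : (x - y) ⬝ᵥ (x - y) = 0 := by
    rw [sub_dotProduct, h1, sub_self]
  exact sub_eq_zero.1 (dot_self h2)

theorem tor_zero (T : Fin r → Matrix B B ℂ) : tor T 0 = 0 := by
  unfold tor
  refine Finset.sum_eq_zero fun i _ => ?_
  rw [Pi.zero_apply, Complex.ofReal_zero, zero_smul]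

theorem tor_sum (T : Fin r → Matrix B B ℂ) (x : Fin r → ℝ) (a : Fin r → Fin r → ℝ)
    (F : Finset (Fin r)) : tor T (∑ i ∈ F, x i • a i) = ∑ i ∈ F, (x i : ℂ) • tor T (a i) := by
  classical
  induction F using Finset.induction_on with
  | empty => rw [Finset.sum_empty, Finset.sum_empty, tor_zero]
  | insert i F hi ih => rw [Finset.sum_insert hi, Finset.sum_insert hi, tor_add, tor_smul, ih]

/-! ### Elements commuting with a regular element of the torus -/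

theorem root_orth (R : RV (Ide L e) D r T Φ X h) {γ δ : Fin r → ℝ} (hγ : γ ∈ Φ) (hδ : δ ∈ Φ)
    (hne : γ ≠ δ) : trace ((X δ)ᴴ * X γ) = 0 := by
  obtain ⟨x, hx⟩ : ∃ x, x = γ - δ := ⟨_, rfl⟩
  have h1 := R.Xw γ hγ x
  have h2 := R.Xw (-δ) (R.rs.neg δ hδ) x
  rw [(R.Xm δ hδ).2.2] at h2
  have h3 : tor T x * ((X δ)ᴴ * X γ) - ((X δ)ᴴ * X γ) * tor T x =
      (tor T x * (X δ)ᴴ - (X δ)ᴴ * tor T x) * X γ + (X δ)ᴴ * (tor T x * X γ - X γ * tor T x) := by
    noncomm_ring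
  rw [h1, h2, Matrix.smul_mul, Matrix.mul_smul, ← add_smul] at h3
  have h4 := congrArg trace h3
  rw [trace_sub, trace_mul_comm, sub_self, trace_smul, smul_eq_mul, ← Complex.ofReal_add] at h4
  have h5 : -δ ⬝ᵥ x + γ ⬝ᵥ x = x ⬝ᵥ x := by
    rw [← add_dotProduct, hx]
    congr 1
    abel
  rw [h5] at h4
  have h6 : ((x ⬝ᵥ x : ℝ) : ℂ) ≠ 0 := by
    intro h0
    have h7 : x = 0 := dot_self (by exact_mod_cast h0)
    rw [hx] at h7
    exact hne (sub_eq_zero.1 h7)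
  exact (mul_eq_zero.1 h4.symm).resolve_left h6

theorem span_of_comm (R : RV (Ide L e) D r T Φ X h) {x₀ : Fin r → ℝ}
    (hx : ∀ γ ∈ Φ, γ ⬝ᵥ x₀ ≠ 0) {Y : Matrix B B ℂ} (hY : Y ∈ Ide L e)
    (hc : Y * tor T x₀ = tor T x₀ * Y) : Y ∈ Submodule.span ℂ (Set.range T) := by
  have h1 := R.sp hY
  rw [Submodule.span_union, Submodule.mem_sup] at h1
  obtain ⟨y, hy, z, hz, rfl⟩ := h1
  rw [Submodule.mem_span_image_finset_iff_exists_fun'] at hz
  obtain ⟨b, rfl⟩ := hz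
  have hy' : y * tor T x₀ = tor T x₀ * y := by
    refine Submodule.span_induction (p := fun y _ => y * tor T x₀ = tor T x₀ * y) ?_ ?_ ?_ ?_ hy
    · rintro _ ⟨i, rfl⟩
      rw [← tor_single T i]
      exact tor_comm R.tv.c _ _
    · rw [zero_mul, mul_zero]
    · intro a b _ _ ha hb
      rw [add_mul, mul_add, ha, hb]
    · intro c a _ ha
      rw [Matrix.smul_mul, Matrix.mul_smul, ha]
  have h2 : (∑ γ ∈ Φ, b γ • X γ) * tor T x₀ = tor T x₀ * ∑ γ ∈ Φ, b γ • X γ := by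
    rw [add_mul, mul_add, hy'] at hc
    exact add_left_cancel hc
  have h3 : ∑ γ ∈ Φ, (b γ * ((γ ⬝ᵥ x₀ : ℝ) : ℂ)) • X γ = 0 := by
    have h4 : tor T x₀ * (∑ γ ∈ Φ, b γ • X γ) - (∑ γ ∈ Φ, b γ • X γ) * tor T x₀ =
        ∑ γ ∈ Φ, (b γ * ((γ ⬝ᵥ x₀ : ℝ) : ℂ)) • X γ := by
      rw [Finset.mul_sum, Finset.sum_mul, ← Finset.sum_sub_distrib]
      refine Finset.sum_congr rfl fun γ hγ => ?_
      rw [Matrix.mul_smul, Matrix.smul_mul, ← smul_sub, R.Xw γ hγ, smul_smul]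
    rw [← h4, h2, sub_self]
  have h4 : ∀ δ ∈ Φ, b δ = 0 := by
    intro δ hδ
    have h5 := congrArg (fun Z => trace ((X δ)ᴴ * Z)) h3
    beta_reduce at h5
    rw [mul_zero, trace_zero, Finset.mul_sum, trace_sum, Finset.sum_eq_single δ] at h5
    · rw [Matrix.mul_smul, trace_smul, smul_eq_mul] at h5
      have h6 : trace ((X δ)ᴴ * X δ) ≠ 0 := fun h0 => (R.Xm δ hδ).2.1 (trace_self_eq_zero h0)
      have h7 := (mul_eq_zero.1 h5).resolve_right h6
      refine (mul_eq_zero.1 h7).resolve_right fun h0 => hx δ hδ ?_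
      exact_mod_cast h0
    · intro γ hγ hne
      rw [Matrix.mul_smul, trace_smul, root_orth R hγ hδ hne, smul_zero]
    · intro h0
      exact absurd hδ h0
  have h5 : ∑ γ ∈ Φ, b γ • X γ = 0 :=
    Finset.sum_eq_zero fun γ hγ => by rw [h4 γ hγ, zero_smul]
  rw [h5, add_zero]
  exact hy

theorem span_comm (R : RV (Ide L e) D r T Φ X h) {Y Z : Matrix B B ℂ}
    (hY : Y ∈ Submodule.span ℂ (Set.range T)) (hZ : Z ∈ Submodule.span ℂ (Set.range T)) :
    Y * Z = Z * Y := by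
  refine Submodule.span_induction (p := fun Y _ => Y * Z = Z * Y) ?_ ?_ ?_ ?_ hY
  · rintro _ ⟨i, rfl⟩
    refine Submodule.span_induction (p := fun Z _ => T i * Z = Z * T i) ?_ ?_ ?_ ?_ hZ
    · rintro _ ⟨j, rfl⟩
      exact R.tv.c i j
    · rw [zero_mul, mul_zero]
    · intro a b _ _ ha hb
      rw [add_mul, mul_add, ha, hb]
    · intro c a _ ha
      rw [Matrix.smul_mul, Matrix.mul_smul, ha]
  · rw [zero_mul, mul_zero]
  · intro a b _ _ ha hb
    rw [add_mul, mul_add, ha, hb]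
  · intro c a _ ha
    rw [Matrix.smul_mul, Matrix.mul_smul, ha]

theorem dotProduct_self_nonneg' (x : Fin r → ℝ) : 0 ≤ x ⬝ᵥ x :=
  Finset.sum_nonneg fun i _ => mul_self_nonneg (x i)

theorem real_of_span (R : RV (Ide L e) D r T Φ X h) {Y : Matrix B B ℂ} (hYh : Yᴴ = Y)
    (hY : Y ∈ Submodule.span ℂ (Set.range T)) : ∃ x : Fin r → ℝ, Y = tor T x := by
  rw [Submodule.mem_span_range_iff_exists_fun] at hY
  obtain ⟨c, hc⟩ := hY
  have h1 : ∀ i, trace (T i * Y) = c i := by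
    intro i
    rw [← hc, Finset.mul_sum, trace_sum, Finset.sum_eq_single i]
    · rw [Matrix.mul_smul, trace_smul, R.tv.t i i, if_pos rfl, smul_eq_mul, mul_one]
    · intro j _ hj
      rw [Matrix.mul_smul, trace_smul, R.tv.t i j, if_neg hj.symm, smul_zero]
    · intro hi
      exact absurd (Finset.mem_univ i) hi
  have h2 : ∀ i, ((c i).re : ℂ) = c i := by
    intro i
    rw [← Complex.conj_eq_iff_re]
    have h3 : star (trace (T i * Y)) = trace (T i * Y) := by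
      rw [← trace_conjTranspose, conjTranspose_mul, hYh, (R.tv.m i).2, trace_mul_comm]
    rw [h1] at h3
    exact h3
  refine ⟨fun i => (c i).re, ?_⟩
  unfold tor
  rw [← hc]
  exact Finset.sum_congr rfl fun i _ => by rw [h2 i]

/-- The elements of `K` normalise the ideal. -/
theorem conj_Ide (hO : IsOm Om) (hL : LD Om L) {v : USp Om} (hv : GJ1.F24 L v)
    {e : Matrix B B ℂ} (he : e ∈ CM L) {Y : Matrix B B ℂ} (hY : Y ∈ Ide L e) :
    mt v * Y * mt v⁻¹ ∈ Ide L e := by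
  have hve := GJ1.comm hO hL hv he
  refine ⟨GJ1.conj_Dr hO hL hv hY.1, fun Z hZ hZe => ?_⟩
  have h2 : mt v⁻¹ * Z * mt v ∈ Dr L := by
    have h3 := GJ1.conj_Dr hO hL hv.inv hZ
    rwa [inv_inv] at h3
  have h3 : mt v⁻¹ * Z * mt v * e = 0 := by
    rw [mul_assoc, hve, ← mul_assoc, mul_assoc (mt v⁻¹), hZe, mul_zero, zero_mul]
  have h4 := hY.2 _ h2 h3
  have h5 : trace (mt v * Y * mt v⁻¹ * Z) = trace (Y * (mt v⁻¹ * Z * mt v)) := by
    rw [mul_assoc, mul_assoc, trace_mul_comm, mul_assoc, mul_assoc]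
  rw [h5, h4]

/-- The elements of `K` fix what is killed by the ideal. -/
theorem fix_of_kill {s : Submodule ℂ (Matrix B B ℂ)} {k : USp Om} (hk : k ∈ KK Om s)
    {M : Matrix B B ℂ} (hM : ∀ X ∈ s, X * M = 0) : mt k * M = M := by
  ext i j
  have h1 : (fun I : Fin 1 → B => M (I 0) j) ∈ InvL s (Fin 1) := by
    rw [mem_InvL]
    intro X hX
    rw [dm_one_eq]
    funext I
    rw [mvA]
    have h2 := congrFun (congrFun (hM X hX) (I 0)) j
    rw [Matrix.mul_apply] at h2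
    rw [← Equiv.sum_comp (Equiv.funUnique (Fin 1) B).symm]
    rw [Pi.zero_apply]
    rw [Matrix.zero_apply] at h2
    rw [← h2]
    refine Finset.sum_congr rfl fun b _ => ?_
    rw [kp_one_apply]
    rfl
  have h2 := congrFun (hk (Fin 1) _ h1) (fun _ => i)
  rw [mvA, ← Equiv.sum_comp (Equiv.funUnique (Fin 1) B).symm] at h2
  rw [Matrix.mul_apply]
  rw [← h2]
  refine Finset.sum_congr rfl fun b _ => ?_
  rw [kp_one_apply]
  rfl

theorem KK_mono {s : Submodule ℂ (Matrix B B ℂ)} (hs : s ≤ L) : KK Om s ≤ KK Om L :=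
  fun _ hu κ _ _ t ht => hu κ t fun X hX => ht X (hs hX)

/-- A regular element. -/
theorem exists_reg (hz : (0 : Fin r → ℝ) ∉ Φ) : ∃ x₀ : Fin r → ℝ, ∀ γ ∈ Φ, γ ⬝ᵥ x₀ ≠ 0 := by
  let f : Φ → Module.Dual ℝ (Fin r → ℝ) := fun γ =>
    { toFun := fun x => γ.1 ⬝ᵥ x
      map_add' := fun x y => dotProduct_add _ _ _
      map_smul' := fun c x => by rw [dotProduct_smul, RingHom.id_apply] }
  obtain ⟨x, hx⟩ := Module.Dual.exists_forall_ne_zero_of_forall_exists f fun γ => ⟨γ.1, fun h0 => by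
    have h1 : γ.1 ⬝ᵥ γ.1 = 0 := h0
    exact hz (dot_self h1 ▸ γ.2)⟩
  exact ⟨x, fun γ hγ => hx ⟨γ, hγ⟩⟩

/-! ### The automorphism -/

section aut

variable {v : USp Om}

/-- Conjugation of the torus by an element normalising it. -/
structure Cnj (T : Fin r → Matrix B B ℂ) (v : USp Om)
    (A : (Fin r → ℝ) →ₗ[ℝ] (Fin r → ℝ)) : Prop where
  c : ∀ x, mt v * tor T x * mt v⁻¹ = tor T (A x)

theorem Cnj.comm {A : (Fin r → ℝ) →ₗ[ℝ] (Fin r → ℝ)} (hA : Cnj T v A) (x : Fin r → ℝ) :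
    mt v * tor T x = tor T (A x) * mt v := by
  rw [← hA.c x, mul_assoc, mt_inv_mul, mul_one]

theorem Cnj.iso {A : (Fin r → ℝ) →ₗ[ℝ] (Fin r → ℝ)} (hA : Cnj T v A)
    (ht : ∀ i j, trace (T i * T j) = if i = j then 1 else 0) (x y : Fin r → ℝ) :
    A x ⬝ᵥ A y = x ⬝ᵥ y := by
  have h1 := tor_trace ht (A x) (A y)
  have h2 := tor_trace ht x y
  have h3 : trace (tor T (A x) * tor T (A y)) = trace (tor T x * tor T y) := by
    rw [← hA.c x, ← hA.c y]
    calc trace (mt v * tor T x * mt v⁻¹ * (mt v * tor T y * mt v⁻¹))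
        = trace (mt v * (tor T x * (mt v⁻¹ * mt v) * tor T y * mt v⁻¹)) := by
          congr 1
          noncomm_ring
      _ = trace (tor T x * tor T y * (mt v⁻¹ * mt v)) := by
          rw [trace_mul_comm, mt_inv_mul]
          congr 1
          rw [mul_one, mul_assoc (tor T x * tor T y), mt_inv_mul]
      _ = _ := by rw [mt_inv_mul, mul_one]
  rw [h1, h2] at h3
  exact_mod_cast h3

theorem Cnj.surj {A : (Fin r → ℝ) →ₗ[ℝ] (Fin r → ℝ)} (hA : Cnj T v A)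
    (ht : ∀ i j, trace (T i * T j) = if i = j then 1 else 0) : Function.Surjective A := by
  rw [← LinearMap.injective_iff_surjective, ← LinearMap.ker_eq_bot, LinearMap.ker_eq_bot']
  intro x hx
  have h1 := hA.iso ht x x
  rw [hx, zero_dotProduct] at h1
  exact dot_self h1.symm

/-- The roots are permuted. -/
theorem Cnj.root (R : RV (Ide L e) D r T Φ X h) {A : (Fin r → ℝ) →ₗ[ℝ] (Fin r → ℝ)}
    (hA : Cnj T v A) (hv : ∀ Y ∈ Ide L e, mt v * Y * mt v⁻¹ ∈ Ide L e) {γ : Fin r → ℝ}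
    (hγ : γ ∈ Φ) : A γ ∈ Φ ∧ ∃ c : ℂ, mt v * X γ = c • (X (A γ) * mt v) := by
  have h0 : γ ≠ 0 := fun h0 => R.rs.z (h0 ▸ hγ)
  have hA0 : A γ ≠ 0 := by
    intro h1
    have h2 := hA.iso R.tv.t γ γ
    rw [h1, zero_dotProduct] at h2
    exact h0 (dot_self h2.symm)
  have hY0 : mt v * X γ * mt v⁻¹ ≠ 0 := by
    intro h1
    apply (R.Xm γ hγ).2.1
    calc X γ = (mt v⁻¹ * mt v) * X γ * (mt v⁻¹ * mt v) := by rw [mt_inv_mul, one_mul, mul_one]
      _ = mt v⁻¹ * (mt v * X γ * mt v⁻¹) * mt v := by noncomm_ring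
      _ = 0 := by rw [h1, mul_zero, zero_mul]
  obtain ⟨h1, c, h2⟩ := R.one (A γ) hA0 _ (hv _ (R.Xm γ hγ).1) hY0 (fun x => by
    obtain ⟨y, rfl⟩ := hA.surj R.tv.t x
    rw [hA.iso R.tv.t γ y, ← hA.c y]
    have e1 : mt v * tor T y * mt v⁻¹ * (mt v * X γ * mt v⁻¹) =
        mt v * tor T y * (mt v⁻¹ * mt v) * X γ * mt v⁻¹ := by noncomm_ring
    have e2 : mt v * X γ * mt v⁻¹ * (mt v * tor T y * mt v⁻¹) =
        mt v * X γ * (mt v⁻¹ * mt v) * tor T y * mt v⁻¹ := by noncomm_ring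
    rw [e1, e2, mt_inv_mul, mul_one, mul_one]
    have e3 : mt v * tor T y * X γ * mt v⁻¹ - mt v * X γ * tor T y * mt v⁻¹ =
        mt v * (tor T y * X γ - X γ * tor T y) * mt v⁻¹ := by noncomm_ring
    rw [e3, R.Xw γ hγ, Matrix.mul_smul, Matrix.smul_mul])
  refine ⟨h1, c, ?_⟩
  rw [← Matrix.smul_mul, ← h2, mul_assoc, mt_inv_mul, mul_one]

end aut

/-! ### The weights -/

theorem vmv_mulVec (a b c : B → ℂ) : vecMulVec a b *ᵥ c = (b ⬝ᵥ c) • a := by
  funext i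
  rw [mvA, Pi.smul_apply, smul_eq_mul]
  unfold dotProduct
  rw [Finset.sum_mul]
  refine Finset.sum_congr rfl fun j _ => ?_
  rw [vecMulVec_apply]
  ring

theorem sum_mulVec' {ι : Type*} (F : Finset ι) (M : ι → Matrix B B ℂ) (y : B → ℂ) :
    (∑ t ∈ F, M t) *ᵥ y = ∑ t ∈ F, M t *ᵥ y := by
  funext i
  rw [mvA, Finset.sum_apply]
  simp only [mvA]
  rw [Finset.sum_comm]
  refine Finset.sum_congr rfl fun j _ => ?_
  rw [Matrix.sum_apply, Finset.sum_mul]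

variable {S : Finset (Fin r → ℝ)} {w : (Fin r → ℝ) → B → ℂ}

theorem e_mulVec (M : MV T Φ X h e S w) (y : B → ℂ) :
    e *ᵥ y = ∑ t ∈ S, (star (w t) ⬝ᵥ y) • w t := by
  conv_lhs => rw [M.ee]
  rw [sum_mulVec']
  exact Finset.sum_congr rfl fun t _ => vmv_mulVec _ _ _

theorem w_dot (M : MV T Φ X h e S w) {s t : Fin r → ℝ} (hs : s ∈ S) (ht : t ∈ S) :
    star (w t) ⬝ᵥ w s = if s = t then 1 else 0 := by
  rw [dotProduct_comm]
  exact M.on s hs t ht

theorem w_ne (M : MV T Φ X h e S w) {s : Fin r → ℝ} (hs : s ∈ S) : w s ≠ 0 := by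
  intro h0
  have h1 := w_dot M hs hs
  rw [h0, dotProduct_zero, if_pos rfl] at h1
  exact zero_ne_one h1

theorem e_w (M : MV T Φ X h e S w) {s : Fin r → ℝ} (hs : s ∈ S) : e *ᵥ w s = w s := by
  rw [e_mulVec M, Finset.sum_eq_single s]
  · rw [w_dot M hs hs, if_pos rfl, one_smul]
  · intro t ht hne
    rw [w_dot M hs ht, if_neg hne.symm, zero_smul]
  · intro h0
    exact absurd hs h0

theorem star_adj (M : Matrix B B ℂ) (hM : Mᴴ = M) (a b : B → ℂ) :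
    star a ⬝ᵥ (M *ᵥ b) = star (M *ᵥ a) ⬝ᵥ b := by
  rw [star_mulVec, hM, ← dotProduct_mulVec]

theorem wt_image {v : USp Om} (R : RV (Ide L e) D r T Φ X h) (M : MV T Φ X h e S w)
    {A : (Fin r → ℝ) →ₗ[ℝ] (Fin r → ℝ)} (hA : Cnj T v A) (hve : mt v * e = e * mt v)
    {s : Fin r → ℝ} (hs : s ∈ S) :
    A s ∈ S ∧ ∃ c : ℂ, ‖c‖ = 1 ∧ mt v *ᵥ w s = c • w (A s) := by
  obtain ⟨y, hy⟩ : ∃ y, y = mt v *ᵥ w s := ⟨_, rfl⟩
  have hey : y = ∑ t ∈ S, (star (w t) ⬝ᵥ y) • w t := by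
    rw [← e_mulVec M, hy, mulVec_mulVec, ← hve, ← mulVec_mulVec, e_w M hs]
  have hyy : star y ⬝ᵥ y = 1 := by
    rw [hy, star_mulVec, ← dotProduct_mulVec, mulVec_mulVec]
    have h1 : (mt v)ᴴ * mt v = 1 := mt_inv_mul v
    rw [h1, one_mulVec, w_dot M hs hs, if_pos rfl]
  have htor : ∀ z, tor T (A z) *ᵥ y = ((z ⬝ᵥ s : ℝ) : ℂ) • y := by
    intro z
    rw [hy, mulVec_mulVec, ← hA.comm z, ← mulVec_mulVec, M.Tv s hs z, mulVec_smul]
  have hc : ∀ t ∈ S, star (w t) ⬝ᵥ y ≠ 0 → A s = t := by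
    intro t ht h0
    obtain ⟨z, hz⟩ := hA.surj R.tv.t (A s - t)
    have h1 := star_adj (tor T (A z)) (tor_herm (fun i => (R.tv.m i).2) _) (w t) y
    rw [htor z, M.Tv t ht, dotProduct_smul, star_smul, smul_dotProduct, smul_eq_mul,
      smul_eq_mul] at h1
    have h2 : star (((A z ⬝ᵥ t : ℝ) : ℂ)) = ((A z ⬝ᵥ t : ℝ) : ℂ) := Complex.conj_ofReal _
    rw [h2] at h1
    have h3 : ((z ⬝ᵥ s : ℝ) : ℂ) = ((A z ⬝ᵥ t : ℝ) : ℂ) := mul_right_cancel₀ h0 h1
    have h4 : z ⬝ᵥ s = A z ⬝ᵥ t := by exact_mod_cast h3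
    have h5 : (A s - t) ⬝ᵥ (A s - t) = 0 := by
      rw [dotProduct_sub]
      nth_rewrite 1 [← hz]
      nth_rewrite 1 [← hz]
      rw [hA.iso R.tv.t, h4, sub_self]
    exact sub_eq_zero.1 (dot_self h5)
  have hex : ∃ t ∈ S, star (w t) ⬝ᵥ y ≠ 0 := by
    by_contra hcon
    push Not at hcon
    have h1 : y = 0 := by
      rw [hey]
      exact Finset.sum_eq_zero fun t ht => by rw [hcon t ht, zero_smul]
    rw [h1, dotProduct_zero] at hyy
    exact zero_ne_one hyy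
  obtain ⟨t, ht, ht0⟩ := hex
  have hAs := hc t ht ht0
  subst hAs
  have hy2 : y = (star (w (A s)) ⬝ᵥ y) • w (A s) := by
    conv_lhs => rw [hey]
    refine Finset.sum_eq_single _ (fun t' ht' hne => ?_) fun h0 => absurd ht h0
    have h1 : star (w t') ⬝ᵥ y = 0 := by
      by_contra h2
      exact hne (hc t' ht' h2).symm
    rw [h1, zero_smul]
  refine ⟨ht, star (w (A s)) ⬝ᵥ y, ?_, by rw [← hy]; exact hy2⟩
  obtain ⟨c, hcc⟩ : ∃ c, c = star (w (A s)) ⬝ᵥ y := ⟨_, rfl⟩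
  rw [← hcc] at hy2 ⊢
  rw [hy2, star_smul, smul_dotProduct, dotProduct_smul, w_dot M ht ht, if_pos rfl, smul_eq_mul,
    smul_eq_mul, mul_one] at hyy
  have h3 : star c * c = ((‖c‖ ^ 2 : ℝ) : ℂ) := by
    have h4 := Complex.conj_mul' c
    push_cast
    exact h4
  rw [h3] at hyy
  have h6 : ‖c‖ ^ 2 = 1 := by exact_mod_cast hyy
  have h7 := norm_nonneg c
  nlinarith

end GH10

open GH10 in
/-- **H10.** The group in the spin cases. -/
theorem spnor_of (h1 : St_c8) (h2 : St_c9) : St_spnor := by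
  intro B _ _ Om L e D r T Φ X h R S w M hty u hu
  have hO := R.om
  have hL := R.ld
  have he : e ∈ CM L := R.pu.1.1
  have heh : eᴴ = e := R.pu.1.2.2.1
  have hsL : Ide L e ≤ L := fun Y hY => GJ1.Dr_le hL hY.1
  have hbr : BrC (Ide L e) := fun Y hY Z hZ => GJ1.Ide_br hL he (hsL hY) hZ
  have hsp : ∀ Y ∈ Ide L e, Yᵀ * Om + Om * Y = 0 := fun Y hY => hL.sp Y (hsL hY)
  have hKK : KK Om (Ide L e) ≤ KK Om L := KK_mono hsL
  have hu24 : GJ1.F24 L u := ⟨hu.f2, hu.f4⟩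
  have hTm : ∀ i, T i ∈ Ide L e := fun i => (R.rv.tv.m i).1
  have hTh : ∀ i, (T i)ᴴ = T i := fun i => (R.rv.tv.m i).2
  obtain ⟨x₀, hx₀⟩ := exists_reg (Φ := Φ) R.rv.rs.z
  have hconj : ∀ k : USp Om, mt k⁻¹ * (mt u * tor T x₀ * mt u⁻¹) * mt k =
      mt (k⁻¹ * u) * tor T x₀ * mt (k⁻¹ * u)⁻¹ := by
    intro k
    rw [_root_.mul_inv_rev, inv_inv, mt_mul, mt_mul]
    noncomm_ring
  have hHh := tor_herm hTh x₀
  have hH1h : (mt u * tor T x₀ * mt u⁻¹)ᴴ = mt u * tor T x₀ * mt u⁻¹ := by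
    rw [conjTranspose_mul, conjTranspose_mul, hHh, mt_inv, conjTranspose_conjTranspose,
      ← mul_assoc]
  obtain ⟨k, hk, hcomm, h2nd⟩ := exists_max hO hbr hsp (KK Om (Ide L e)) KK_closed
    (fun X hX hXs s κ _ _ t ht => by
      rw [mt_eU]
      exact (isCurve_exp X).fix (exp_zero_smul X) (ht X hX) s)
    (tor_mem hTm x₀) hHh hH1h (fun k hk => by
      rw [hconj]
      exact conj_Ide hO hL ((GJ1.F24_of_KK ((KK Om L).inv_mem (hKK hk))).mul hu24) he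
        (tor_mem hTm x₀))
  have hv24 : GJ1.F24 L (k⁻¹ * u) := (GJ1.F24_of_KK ((KK Om L).inv_mem (hKK hk))).mul hu24
  rw [hconj] at hcomm h2nd
  obtain ⟨v, hv⟩ : ∃ v, v = k⁻¹ * u := ⟨_, rfl⟩
  rw [← hv] at hcomm h2nd hv24
  have hvI : ∀ Y ∈ Ide L e, mt v * Y * mt v⁻¹ ∈ Ide L e := fun Y hY => conj_Ide hO hL hv24 he hY
  have hvI' : ∀ Y ∈ Ide L e, mt v⁻¹ * Y * mt v ∈ Ide L e := by
    intro Y hY
    have h3 := conj_Ide hO hL hv24.inv he hY
    rwa [inv_inv] at h3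
  have hve : mt v * e = e * mt v := GJ1.comm hO hL hv24 he
  have hcjh : ∀ Y : Matrix B B ℂ, Yᴴ = Y → (mt v * Y * mt v⁻¹)ᴴ = mt v * Y * mt v⁻¹ := by
    intro Y hY
    rw [conjTranspose_mul, conjTranspose_mul, hY, mt_inv, conjTranspose_conjTranspose,
      ← mul_assoc]
  -- the image of the regular element
  obtain ⟨x₁, hx₁⟩ := real_of_span R.rv (hcjh _ hHh)
    (span_of_comm R.rv hx₀ (hvI _ (tor_mem hTm x₀)) hcomm)
  have hvx : mt v * tor T x₀ = tor T x₁ * mt v := by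
    rw [← hx₁, mul_assoc, mt_inv_mul, mul_one]
  have hvx' : mt v⁻¹ * tor T x₁ = tor T x₀ * mt v⁻¹ := by
    rw [← hx₁, ← mul_assoc, ← mul_assoc, mt_inv_mul, one_mul]
  have hreg : ∀ γ ∈ Φ, γ ⬝ᵥ x₁ ≠ 0 := by
    have key : ∀ γ ∈ Φ, γ ⬝ᵥ x₁ = 0 → mt v⁻¹ * X γ * mt v ∈ Submodule.span ℂ (Set.range T) := by
      intro γ hγ h0
      refine span_of_comm R.rv hx₀ (hvI' _ (R.rv.Xm γ hγ).1) ?_
      have h3 := R.rv.Xw γ hγ x₁
      rw [h0, Complex.ofReal_zero, zero_smul, sub_eq_zero] at h3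
      calc mt v⁻¹ * X γ * mt v * tor T x₀ = mt v⁻¹ * X γ * (mt v * tor T x₀) := mul_assoc _ _ _
        _ = mt v⁻¹ * (X γ * tor T x₁) * mt v := by rw [hvx]; noncomm_ring
        _ = (mt v⁻¹ * tor T x₁) * X γ * mt v := by rw [← h3]; noncomm_ring
        _ = _ := by rw [hvx']; noncomm_ring
    intro γ hγ h0
    have k1 := key γ hγ h0
    have k2 := key (-γ) (R.rv.rs.neg γ hγ) (by rw [neg_dotProduct, h0, neg_zero])
    rw [(R.rv.Xm γ hγ).2.2] at k2
    have k3 := span_comm R.rv k1 k2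
    have e1 : ∀ P Q : Matrix B B ℂ, mt v⁻¹ * P * mt v * (mt v⁻¹ * Q * mt v) =
        mt v⁻¹ * (P * Q) * mt v := by
      intro P Q
      calc mt v⁻¹ * P * mt v * (mt v⁻¹ * Q * mt v) =
          mt v⁻¹ * P * (mt v * mt v⁻¹) * Q * mt v := by noncomm_ring
        _ = _ := by rw [mt_mul_inv]; noncomm_ring
    rw [e1, e1] at k3
    have k4 : X γ * (X γ)ᴴ = (X γ)ᴴ * X γ := by
      have e2 : ∀ P : Matrix B B ℂ, P = mt v * (mt v⁻¹ * P * mt v) * mt v⁻¹ := by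
        intro P
        calc P = (mt v * mt v⁻¹) * P * (mt v * mt v⁻¹) := by rw [mt_mul_inv, one_mul, mul_one]
          _ = _ := by noncomm_ring
      rw [e2 (X γ * (X γ)ᴴ), k3, ← e2]
    apply (R.rv.Xm γ hγ).2.1
    rw [← (R.rv.X3 γ hγ).1, k4, mul_assoc, (R.rv.X3 γ hγ).2, mul_zero]
  -- the automorphism
  have ha : ∀ i, ∃ a : Fin r → ℝ, mt v * T i * mt v⁻¹ = tor T a := by
    intro i
    refine real_of_span R.rv (hcjh _ (hTh i)) (span_of_comm R.rv hreg (hvI _ (hTm i)) ?_)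
    have h3 : T i * tor T x₀ = tor T x₀ * T i := by
      rw [← tor_single T i]
      exact tor_comm R.rv.tv.c _ _
    calc mt v * T i * mt v⁻¹ * tor T x₁ = mt v * T i * (mt v⁻¹ * tor T x₁) := mul_assoc _ _ _
      _ = mt v * (T i * tor T x₀) * mt v⁻¹ := by rw [hvx']; noncomm_ring
      _ = (mt v * tor T x₀) * T i * mt v⁻¹ := by rw [h3]; noncomm_ring
      _ = _ := by rw [hvx]; noncomm_ring
  choose a ha using ha
  let A : (Fin r → ℝ) →ₗ[ℝ] (Fin r → ℝ) :=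
    { toFun := fun x => ∑ i, x i • a i
      map_add' := fun x y => by
        rw [← Finset.sum_add_distrib]
        exact Finset.sum_congr rfl fun i _ => by rw [Pi.add_apply, add_smul]
      map_smul' := fun c x => by
        rw [RingHom.id_apply, Finset.smul_sum]
        exact Finset.sum_congr rfl fun i _ => by rw [Pi.smul_apply, smul_eq_mul, mul_smul] }
  have hA : Cnj T v A := ⟨fun x => by
    have h3 : tor T (A x) = ∑ i, (x i : ℂ) • tor T (a i) := tor_sum T x a Finset.univ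
    rw [h3]
    unfold tor
    rw [Finset.mul_sum, Finset.sum_mul]
    refine Finset.sum_congr rfl fun i _ => ?_
    rw [Matrix.mul_smul, Matrix.smul_mul, ha i]
    rfl⟩
  have hAx : A x₀ = x₁ := tor_inj R.rv.tv.t (by rw [← hA.c x₀, hx₁])
  have hpos : ∀ γ ∈ Φ, 0 < γ ⬝ᵥ x₀ → 0 < γ ⬝ᵥ A x₀ := by
    intro γ hγ hp
    rw [hAx]
    refine lt_of_le_of_ne ?_ (hreg γ hγ).symm
    have hm : X γ - (X γ)ᴴ ∈ Ide L e := (Ide L e).sub_mem (R.rv.Xm γ hγ).1
      (GJ1.Ide_adj hL he heh (R.rv.Xm γ hγ).1)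
    have h3 := h2nd (X γ - (X γ)ᴴ) hm (by
      rw [conjTranspose_sub, conjTranspose_conjTranspose]
      noncomm_ring)
    rw [hx₁] at h3
    have h4 := R.rv.Xw γ hγ x₁
    have h5 := R.rv.Xw (-γ) (R.rv.rs.neg γ hγ) x₁
    rw [(R.rv.Xm γ hγ).2.2, neg_dotProduct, Complex.ofReal_neg, neg_smul] at h5
    have h6 : tor T x₁ * (X γ - (X γ)ᴴ) - (X γ - (X γ)ᴴ) * tor T x₁ =
        ((γ ⬝ᵥ x₁ : ℝ) : ℂ) • (X γ + (X γ)ᴴ) := by
      have h7 : tor T x₁ * (X γ - (X γ)ᴴ) - (X γ - (X γ)ᴴ) * tor T x₁ =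
          (tor T x₁ * X γ - X γ * tor T x₁) - (tor T x₁ * (X γ)ᴴ - (X γ)ᴴ * tor T x₁) := by
        noncomm_ring
      rw [h7, h4, h5, sub_neg_eq_add, ← smul_add]
    rw [h6] at h3
    have h8 : ((γ ⬝ᵥ x₁ : ℝ) : ℂ) • (X γ + (X γ)ᴴ) * (X γ - (X γ)ᴴ) -
        (X γ - (X γ)ᴴ) * ((γ ⬝ᵥ x₁ : ℝ) : ℂ) • (X γ + (X γ)ᴴ) =
        ((γ ⬝ᵥ x₁ : ℝ) : ℂ) • ((-2 : ℝ) : ℂ) • (X γ * (X γ)ᴴ - (X γ)ᴴ * X γ) := by
      rw [Matrix.smul_mul, Matrix.mul_smul, ← smul_sub]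
      congr 1
      have h9 : ((-2 : ℝ) : ℂ) • (X γ * (X γ)ᴴ - (X γ)ᴴ * X γ) =
          (-2 : ℤ) • (X γ * (X γ)ᴴ - (X γ)ᴴ * X γ) := by
        rw [← Int.cast_smul_eq_zsmul ℂ]
        norm_num
      rw [h9]
      noncomm_ring
    rw [h8, R.rv.Xb γ hγ, trH_apply, Matrix.smul_mul, Matrix.smul_mul, trace_smul, trace_smul,
      tor_trace R.rv.tv.t, smul_eq_mul, smul_eq_mul, ← Complex.ofReal_mul, ← Complex.ofReal_mul,
      Complex.ofReal_re, smul_dotProduct, smul_eq_mul] at h3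
    have hγγ : 0 < γ ⬝ᵥ γ := by
      refine lt_of_le_of_ne (dotProduct_self_nonneg' γ) fun h0 => ?_
      exact R.rv.rs.z (dot_self h0.symm ▸ hγ)
    have h10 : 0 < 2 / (γ ⬝ᵥ γ) * (γ ⬝ᵥ x₀) := mul_pos (div_pos two_pos hγγ) hp
    nlinarith
  have hve' : ∀ s ∈ S, A s ∈ S ∧ ∃ c : ℂ, ‖c‖ = 1 ∧ mt v *ᵥ w s = c • w (A s) := fun s hs =>
    wt_image R.rv M hA hve hs
  have hid := h1 r Φ h S R.rv.rs M.mw hty A (hA.iso R.rv.tv.t)
    (fun γ hγ => (hA.root R.rv hvI hγ).1) (fun s hs => (hve' s hs).1) x₀ hx₀ hpos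
  -- the phases
  have hχ : ∀ γ, ∃ c : ℂ, γ ∈ Φ → mt v * X γ = c • (X γ * mt v) := by
    intro γ
    by_cases hγ : γ ∈ Φ
    · obtain ⟨-, c, hc⟩ := hA.root R.rv hvI hγ
      rw [hid, LinearMap.id_apply] at hc
      exact ⟨c, fun _ => hc⟩
    · exact ⟨0, fun h0 => absurd h0 hγ⟩
  have hc : ∀ s, ∃ c : ℂ, s ∈ S → ‖c‖ = 1 ∧ mt v *ᵥ w s = c • w s := by
    intro s
    by_cases hs : s ∈ S
    · obtain ⟨-, c, hc⟩ := hve' s hs
      rw [hid, LinearMap.id_apply] at hc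
      exact ⟨c, fun _ => hc⟩
    · exact ⟨0, fun h0 => absurd h0 hs⟩
  choose χ hχ using hχ
  choose c hc using hc
  obtain ⟨x, c₀, hx⟩ := h2 r Φ h S R.rv.rs M.mw hty c χ (fun s hs => (hc s hs).1)
    (fun γ hγ s hs hp => by
      have hsγ : s + γ ∈ S := by
        have h3 := M.mw.rfl γ hγ s hs
        unfold rf at h3
        rwa [hp, neg_smul, one_smul, sub_neg_eq_add] at h3
      obtain ⟨d, hd, hd'⟩ := M.Xv γ hγ s hs hp
      have h3 := congrArg (fun Z => Z *ᵥ w s) (hχ γ hγ)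
      beta_reduce at h3
      rw [← mulVec_mulVec, hd', mulVec_smul, (hc _ hsγ).2, smul_mulVec, ← mulVec_mulVec,
        (hc s hs).2, mulVec_smul, hd', smul_smul, smul_smul, smul_smul] at h3
      have h4 : (d * c (s + γ) - χ γ * c s * d) • w (s + γ) = 0 := by
        rw [sub_smul, h3, sub_eq_zero]
      have h5 := (smul_eq_zero.1 h4).resolve_right (w_ne M hsγ)
      have h6 : d ≠ 0 := by
        intro h0
        rw [h0, norm_zero] at hd
        exact zero_ne_one hd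
      have h7 : d * (c (s + γ) - χ γ * c s) = 0 := by linear_combination h5
      exact sub_eq_zero.1 ((mul_eq_zero.1 h7).resolve_left h6))
  obtain ⟨W, hW⟩ : ∃ W, W = Complex.I • tor T x := ⟨_, rfl⟩
  have hWm : W ∈ Ide L e := by rw [hW]; exact (Ide L e).smul_mem _ (tor_mem hTm x)
  have hWs : Wᴴ = -W := by
    rw [hW, conjTranspose_smul, tor_herm hTh]
    have h3 : star Complex.I = -Complex.I := Complex.conj_I
    rw [h3, neg_smul]
  have hk' : eU hO.sq hWs (hsp W hWm) 1 ∈ KK Om (Ide L e) := by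
    intro κ _ _ t ht
    rw [mt_eU]
    exact (isCurve_exp W).fix (exp_zero_smul W) (ht W hWm) 1
  obtain ⟨k', hk'e⟩ : ∃ k', k' = eU hO.sq hWs (hsp W hWm) 1 := ⟨_, rfl⟩
  rw [← hk'e] at hk'
  refine ⟨k * k', hKK ((KK Om (Ide L e)).mul_mem hk hk'), fun e' _ he' =>
    fix_of_kill ((KK Om (Ide L e)).mul_mem hk hk') he', c₀, ?_⟩
  have hP : ∀ s ∈ S, mt v * vecMulVec (w s) (star (w s)) =
      c₀ • (mt k' * vecMulVec (w s) (star (w s))) := by
    intro s hs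
    have h3 : W * vecMulVec (w s) (star (w s)) = vecMulVec (w s) (star (w s)) *
        diagonal fun _ => Complex.I * ((x ⬝ᵥ s : ℝ) : ℂ) := by
      rw [mul_vecMulVec, hW, smul_mulVec, M.Tv s hs, smul_smul]
      ext i j
      rw [mul_diagonal, vecMulVec_apply, vecMulVec_apply, Pi.smul_apply, smul_eq_mul]
      ring
    have h4 : mt k' * vecMulVec (w s) (star (w s)) =
        Complex.exp (Complex.I * ((x ⬝ᵥ s : ℝ) : ℂ)) • vecMulVec (w s) (star (w s)) := by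
      rw [hk'e, mt_eU, GJ5.expA h3]
      ext i j
      rw [mul_diagonal, Matrix.smul_apply, smul_eq_mul, mul_comm]
    rw [h4, smul_smul, ← hx s hs, mul_vecMulVec, (hc s hs).2]
    ext i j
    rw [vecMulVec_apply, Matrix.smul_apply, vecMulVec_apply, Pi.smul_apply, smul_eq_mul,
      smul_eq_mul, mul_assoc]
  have hPe : mt v * e = c₀ • (mt k' * e) := by
    rw [M.ee, Finset.mul_sum, Finset.mul_sum, Finset.smul_sum]
    exact Finset.sum_congr rfl hP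
  have hkv : (k * k')⁻¹ * u = k'⁻¹ * v := by
    rw [hv, _root_.mul_inv_rev, mul_assoc]
  rw [hkv, mt_mul, mul_assoc, hPe, Matrix.mul_smul, ← mul_assoc, mt_inv_mul, one_mul]

end

end Pool.Agent.NH32
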