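import Pool.Agent.NH32.GtA
import Pool.Agent.NH32.GJ1
import Pool.Agent.NH32.GC1

set_option linter.unusedSectionVars false

namespace Pool.Agent.NH32

open Matrix Module
open scoped ComplexOrder

noncomputable section

namespace GH11

/-! ### Linking two cyclic modules -/

section words

variable {B : Type} [Fintype B] [DecidableEq B] {J : Type} [Fintype J] [DecidableEq J]

/-- The words in the adjoints of the elements of `Rs`. -/
inductive Wd (Rs : Set (Matrix B B ℂ)) (R : Matrix B B ℂ →ₗ[ℂ] Matrix J J ℂ) (Q : J → ℂ) :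
    (J → ℂ) → Prop
  | base : Wd Rs R Q Q
  | step (X : Matrix B B ℂ) (w : J → ℂ) (hX : Xᴴ ∈ Rs) (hw : Wd Rs R Q w) :
      Wd Rs R Q (R X *ᵥ w)

/-- The span of the words. -/
def Us (Rs : Set (Matrix B B ℂ)) (R : Matrix B B ℂ →ₗ[ℂ] Matrix J J ℂ) (Q : J → ℂ) :
    Submodule ℂ (J → ℂ) := Submodule.span ℂ {w | Wd Rs R Q w}

variable {Rs : Set (Matrix B B ℂ)} {R : Matrix B B ℂ →ₗ[ℂ] Matrix J J ℂ} {Q : J → ℂ}

theorem Us_self : Q ∈ Us Rs R Q := Submodule.subset_span Wd.base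

theorem Us_low {X : Matrix B B ℂ} (hX : Xᴴ ∈ Rs) {w : J → ℂ} (hw : w ∈ Us Rs R Q) :
    R X *ᵥ w ∈ Us Rs R Q := by
  unfold Us at hw
  induction hw using Submodule.span_induction with
  | mem x hx => exact Submodule.subset_span (Wd.step X x hX hx)
  | zero => rw [mulVec_zero]; exact Submodule.zero_mem _
  | add x y _ _ hx hy => rw [mulVec_add]; exact Submodule.add_mem _ hx hy
  | smul c x _ hx => rw [mulVec_smul]; exact Submodule.smul_mem _ _ hx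

theorem Us_le {N : Submodule ℂ (J → ℂ)} (hQ : Q ∈ N)
    (hN : ∀ X, Xᴴ ∈ Rs → ∀ w ∈ N, R X *ᵥ w ∈ N) : Us Rs R Q ≤ N := by
  refine Submodule.span_le.2 fun x hx => ?_
  induction hx with
  | base => exact hQ
  | step X w hX _ ih => exact hN X hX w ih

theorem Us_stable {g : Submodule ℂ (Matrix B B ℂ)} {Ts : Set (Matrix B B ℂ)}
    (hbr : ∀ X ∈ g, ∀ Y ∈ g, X * Y - Y * X ∈ g) (hadj : ∀ X ∈ g, Xᴴ ∈ g) (hRg : ∀ X ∈ Rs, X ∈ g)
    (hsp : g ≤ Submodule.span ℂ (Rs ∪ Ts ∪ {X | Xᴴ ∈ Rs}))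
    (hR : ∀ X ∈ g, ∀ Y ∈ g, R (X * Y - Y * X) = R X * R Y - R Y * R X)
    (h1 : ∀ X ∈ Rs, R X *ᵥ Q = 0) (h0 : ∀ X ∈ Ts, ∃ z : ℂ, R X *ᵥ Q = z • Q)
    {X : Matrix B B ℂ} (hX : X ∈ g) {w : J → ℂ} (hw : w ∈ Us Rs R Q) : R X *ᵥ w ∈ Us Rs R Q := by
  have base : ∀ X ∈ g, R X *ᵥ Q ∈ Us Rs R Q := by
    intro X hX
    have h2 := hsp hX
    clear hX
    induction h2 using Submodule.span_induction with
    | mem X hX =>
      rcases hX with (hX | hX) | hX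
      · rw [h1 X hX]
        exact Submodule.zero_mem _
      · obtain ⟨z, hz⟩ := h0 X hX
        rw [hz]
        exact Submodule.smul_mem _ _ Us_self
      · exact Us_low hX Us_self
    | zero => rw [map_zero, zero_mulVec]; exact Submodule.zero_mem _
    | add X Y _ _ hX hY => rw [map_add, add_mulVec]; exact Submodule.add_mem _ hX hY
    | smul c X _ hX => rw [map_smul, smul_mulVec]; exact Submodule.smul_mem _ _ hX
  have key : ∀ w, Wd Rs R Q w → ∀ X ∈ g, R X *ᵥ w ∈ Us Rs R Q := by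
    intro w hw
    induction hw with
    | base => exact base
    | step Y w hY hw ih =>
      intro X hX
      have hYg : Y ∈ g := by
        have h3 := hadj _ (hRg _ hY)
        rwa [conjTranspose_conjTranspose] at h3
      have h2 : R X *ᵥ (R Y *ᵥ w) = R Y *ᵥ (R X *ᵥ w) + R (X * Y - Y * X) *ᵥ w := by
        rw [hR X hX Y hYg, sub_mulVec, mulVec_mulVec, mulVec_mulVec]
        abel
      rw [h2]
      exact Submodule.add_mem _ (Us_low hY (ih X hX)) (ih _ (hbr X hX Y hYg))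
  unfold Us at hw
  induction hw using Submodule.span_induction with
  | mem x hx => exact key x hx X hX
  | zero => rw [mulVec_zero]; exact Submodule.zero_mem _
  | add x y _ _ hx hy => rw [mulVec_add]; exact Submodule.add_mem _ hx hy
  | smul c x _ hx => rw [mulVec_smul]; exact Submodule.smul_mem _ _ hx

/-- The projection to a subspace which is stable under `T` and its adjoint commutes with `T`. -/
theorem proj_comm {p T : Matrix J J ℂ} {W : Submodule ℂ (J → ℂ)} (hp : pᴴ = p)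
    (hpW : ∀ x, p *ᵥ x ∈ W) (hpx : ∀ x ∈ W, p *ᵥ x = x) (h1 : ∀ x ∈ W, T *ᵥ x ∈ W)
    (h2 : ∀ x ∈ W, Tᴴ *ᵥ x ∈ W) : T * p = p * T := by
  have key : ∀ S : Matrix J J ℂ, (∀ x ∈ W, S *ᵥ x ∈ W) → p * (S * p) = S * p := by
    intro S hS
    refine matrix_ext_mulVec fun c => ?_
    rw [← mulVec_mulVec]
    refine hpx _ ?_
    rw [← mulVec_mulVec]
    exact hS _ (hpW c)
  have h3 := key T h1
  have h4 := congrArg Matrix.conjTranspose (key _ h2)
  rw [conjTranspose_mul, conjTranspose_mul, hp, conjTranspose_conjTranspose, mul_assoc] at h4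
  rw [← h3, h4]

theorem adj_dot (A : Matrix J J ℂ) (x q : J → ℂ) :
    star q ⬝ᵥ (A *ᵥ x) = star (Aᴴ *ᵥ q) ⬝ᵥ x := by
  rw [star_mulVec, conjTranspose_conjTranspose, dotProduct_mulVec]

end words

section link

variable {B : Type} [Fintype B] [DecidableEq B] {ι : Type} [Fintype ι] [DecidableEq ι]

/-- The sum of the action and the twisted dual action. -/
def RR (ρ : Matrix B B ℂ →ₗ[ℂ] Matrix ι ι ℂ) (W : Matrix B B ℂ) :
    Matrix B B ℂ →ₗ[ℂ] Matrix (ι ⊕ ι) (ι ⊕ ι) ℂ where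
  toFun X := fromBlocks (ρ X) 0 0 (trace (X * W) • (1 : Matrix ι ι ℂ) - (ρ X)ᵀ)
  map_add' X Y := by
    rw [fromBlocks_add, map_add, add_mul, trace_add, add_smul, transpose_add, add_zero]
    congr 1
    abel
  map_smul' c X := by
    rw [RingHom.id_apply, fromBlocks_smul, map_smul, Matrix.smul_mul, trace_smul, smul_zero,
      transpose_smul, smul_sub, smul_assoc]

theorem RR_apply (ρ : Matrix B B ℂ →ₗ[ℂ] Matrix ι ι ℂ) (W X : Matrix B B ℂ) :
    RR ρ W X = fromBlocks (ρ X) 0 0 (trace (X * W) • (1 : Matrix ι ι ℂ) - (ρ X)ᵀ) := rfl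

theorem fb_sub (A A' B' B'' C C' D D' : Matrix ι ι ℂ) :
    fromBlocks A B' C D - fromBlocks A' B'' C' D' =
      fromBlocks (A - A') (B' - B'') (C - C') (D - D') := by
  ext i j
  rcases i with i | i <;> rcases j with j | j <;> rfl

/-- The data for the link of two vectors. -/
structure Lk (g : Submodule ℂ (Matrix B B ℂ)) (Rs Ts : Set (Matrix B B ℂ))
    (ρ : Matrix B B ℂ →ₗ[ℂ] Matrix ι ι ℂ) (W : Matrix B B ℂ) (q p : ι → ℂ) : Prop where
  br : ∀ X ∈ g, ∀ Y ∈ g, X * Y - Y * X ∈ g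
  adj : ∀ X ∈ g, Xᴴ ∈ g
  Rg : ∀ X ∈ Rs, X ∈ g
  sp : g ≤ Submodule.span ℂ (Rs ∪ Ts ∪ {X | Xᴴ ∈ Rs})
  rb : ∀ X Y, ρ (X * Y - Y * X) = ρ X * ρ Y - ρ Y * ρ X
  ra : ∀ X, ρ Xᴴ = (ρ X)ᴴ
  Wc : ∀ X ∈ g, X * W = W * X
  Wh : Wᴴ = W
  q0 : q ≠ 0
  p0 : p ≠ 0
  Rq : ∀ X ∈ Rs, ρ X *ᵥ q = 0 ∧ ρ Xᴴ *ᵥ p = 0 ∧ trace (X * W) = 0
  Tq : ∀ X ∈ Ts, ∃ z : ℂ, ρ X *ᵥ q = z • q ∧ ρ Xᴴ *ᵥ p = star (trace (X * W) - z) • p

variable {g : Submodule ℂ (Matrix B B ℂ)} {Rs Ts : Set (Matrix B B ℂ)}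
  {ρ : Matrix B B ℂ →ₗ[ℂ] Matrix ι ι ℂ} {W : Matrix B B ℂ} {q p : ι → ℂ}

theorem RR_br (h : Lk g Rs Ts ρ W q p) {X Y : Matrix B B ℂ} (hY : Y ∈ g) :
    RR ρ W (X * Y - Y * X) = RR ρ W X * RR ρ W Y - RR ρ W Y * RR ρ W X := by
  have h1 : trace ((X * Y - Y * X) * W) = 0 := by
    have h2 : trace (Y * X * W) = trace (X * Y * W) := by
      rw [mul_assoc, trace_mul_comm, mul_assoc, ← h.Wc Y hY, mul_assoc]
    rw [sub_mul, trace_sub, h2, sub_self]
  rw [RR_apply, RR_apply, RR_apply, fromBlocks_multiply, fromBlocks_multiply, fb_sub, h1,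
    h.rb, transpose_sub, transpose_mul, transpose_mul]
  congr 1
  · simp
  · simp
  · simp
  · simp only [mul_zero, zero_add, sub_mul, mul_sub, Matrix.smul_mul, Matrix.mul_smul,
      one_mul, mul_one, zero_smul]
    rw [smul_smul, smul_smul, mul_comm (trace (Y * W))]
    abel

theorem RR_adj (h : Lk g Rs Ts ρ W q p) (X : Matrix B B ℂ) : RR ρ W Xᴴ = (RR ρ W X)ᴴ := by
  rw [RR_apply, RR_apply, fromBlocks_conjTranspose, conjTranspose_zero, h.ra]
  congr 1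
  rw [conjTranspose_sub, conjTranspose_smul, conjTranspose_one]
  congr 2
  rw [← trace_conjTranspose, conjTranspose_mul, h.Wh, trace_mul_comm]

theorem tr_star (A : Matrix ι ι ℂ) (x : ι → ℂ) : Aᵀ *ᵥ star x = star (Aᴴ *ᵥ x) := by
  rw [star_mulVec, conjTranspose_conjTranspose, mulVec_transpose]

/-- **The link.** -/
theorem link (h : Lk g Rs Ts ρ W q p) : ∃ M : Matrix ι ι ℂ, M ≠ 0 ∧
    (∀ X ∈ g, ρ X * M + M * (ρ X)ᵀ = trace (X * W) • M) ∧
    (∀ (f : Matrix ι ι ℂ) (z : ℂ), (∀ X ∈ g, f * ρ X = ρ X * f) → f *ᵥ q = z • q →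
      f * M = z • M) ∧
    ∀ (f : Matrix ι ι ℂ) (z : ℂ), (∀ X ∈ g, f * ρ X = ρ X * f) → f *ᵥ p = z • p →
      M * fᵀ = z • M := by
  obtain ⟨Q, hQ⟩ : ∃ Q : ι ⊕ ι → ℂ, Q = Sum.elim q (star p) := ⟨_, rfl⟩
  have hk1 : ∀ X ∈ Rs, RR ρ W X *ᵥ Sum.elim q (0 : ι → ℂ) = 0 := by
    intro X hX
    rw [RR_apply, fromBlocks_mulVec, Sum.elim_comp_inl, Sum.elim_comp_inr, (h.Rq X hX).1]
    funext i
    rcases i with i | i <;> simp
  have hk2 : ∀ X ∈ Rs, RR ρ W X *ᵥ Sum.elim (0 : ι → ℂ) (star p) = 0 := by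
    intro X hX
    rw [RR_apply, fromBlocks_mulVec, Sum.elim_comp_inl, Sum.elim_comp_inr, (h.Rq X hX).2.2,
      zero_smul, zero_sub, neg_mulVec, tr_star, ← h.ra, (h.Rq X hX).2.1]
    funext i
    rcases i with i | i <;> simp
  have hs : ∀ a b : ℂ, Sum.elim (a • q) (b • star p) =
      a • Sum.elim q (0 : ι → ℂ) + b • Sum.elim (0 : ι → ℂ) (star p) := by
    intro a b
    funext i
    rcases i with i | i <;> simp
  have hk : ∀ X ∈ Rs, ∀ a b : ℂ, RR ρ W X *ᵥ Sum.elim (a • q) (b • star p) = 0 := by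
    intro X hX a b
    rw [hs, mulVec_add, mulVec_smul, mulVec_smul, hk1 X hX, hk2 X hX, smul_zero, smul_zero,
      add_zero]
  have hQ1 : Q = Sum.elim ((1 : ℂ) • q) ((1 : ℂ) • star p) := by rw [hQ, one_smul, one_smul]
  have hT : ∀ X ∈ Ts, ∃ z : ℂ, RR ρ W X *ᵥ Q = z • Q := by
    intro X hX
    obtain ⟨z, hz1, hz2⟩ := h.Tq X hX
    refine ⟨z, ?_⟩
    rw [hQ, RR_apply, fromBlocks_mulVec, Sum.elim_comp_inl, Sum.elim_comp_inr, hz1, sub_mulVec,
      smul_mulVec, one_mulVec, tr_star, ← h.ra, hz2]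
    funext i
    rcases i with i | i
    · simp
    · simp
      ring
  have hst : ∀ X ∈ g, ∀ w ∈ Us Rs (RR ρ W) Q, RR ρ W X *ᵥ w ∈ Us Rs (RR ρ W) Q := fun X hX w hw =>
    Us_stable h.br h.adj h.Rg h.sp (fun X _ Y hY => RR_br h hY)
      (fun X hX => by rw [hQ1]; exact hk X hX 1 1) hT hX hw
  obtain ⟨P, hP, hP1, hP2⟩ := exists_proj (Us Rs (RR ρ W) Q)
  have hc : ∀ X ∈ g, RR ρ W X * P = P * RR ρ W X := fun X hX =>
    proj_comm hP hP1 hP2 (hst X hX) (by rw [← RR_adj h]; exact hst _ (h.adj X hX))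
  obtain ⟨A, M, C, D, hABCD⟩ : ∃ A M C D, P = fromBlocks A M C D :=
    ⟨_, _, _, _, (fromBlocks_toBlocks P).symm⟩
  have hCM : Cᴴ = M ∧ Mᴴ = C := by
    rw [hABCD, fromBlocks_conjTranspose, fromBlocks_inj] at hP
    exact ⟨hP.2.1, hP.2.2.1⟩
  -- matrices which commute with everything and act on `Q` as a scalar
  have hF : ∀ (F : Matrix (ι ⊕ ι) (ι ⊕ ι) ℂ) (z : ℂ), (∀ X ∈ g, F * RR ρ W X = RR ρ W X * F) →
      F *ᵥ Q = z • Q → F * P = z • P := by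
    intro F z h1 h2
    let N : Submodule ℂ (ι ⊕ ι → ℂ) :=
      { carrier := {w | F *ᵥ w = z • w}
        add_mem' := by
          intro x y hx hy
          change F *ᵥ (x + y) = z • (x + y)
          rw [mulVec_add, hx, hy, smul_add]
        zero_mem' := by
          change F *ᵥ 0 = z • (0 : ι ⊕ ι → ℂ)
          rw [mulVec_zero, smul_zero]
        smul_mem' := by
          intro c x hx
          change F *ᵥ (c • x) = z • (c • x)
          rw [mulVec_smul, hx, smul_comm] }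
    have h3 : Us Rs (RR ρ W) Q ≤ N := by
      refine Us_le h2 fun X hX w hw => ?_
      have hXg : X ∈ g := by
        have h4 := h.adj _ (h.Rg _ hX)
        rwa [conjTranspose_conjTranspose] at h4
      change F *ᵥ (RR ρ W X *ᵥ w) = z • (RR ρ W X *ᵥ w)
      rw [mulVec_mulVec, h1 X hXg, ← mulVec_mulVec]
      have h5 : F *ᵥ w = z • w := hw
      rw [h5, mulVec_smul]
    refine matrix_ext_mulVec fun c => ?_
    rw [← mulVec_mulVec, smul_mulVec]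
    exact h3 (hP1 c)
  refine ⟨M, fun hM0 => ?_, fun X hX => ?_, fun f z h1 h2 => ?_, fun f z h1 h2 => ?_⟩
  · -- the block is nonzero
    have hC0 : C = 0 := by rw [← hCM.2, hM0, conjTranspose_zero]
    have h1 := hP2 _ (Us_self (Rs := Rs) (R := RR ρ W) (Q := Q))
    rw [hABCD, hQ, fromBlocks_mulVec, Sum.elim_comp_inl, Sum.elim_comp_inr, hM0, hC0, zero_mulVec,
      zero_mulVec, add_zero, zero_add] at h1
    have h2 : A *ᵥ q = q := by
      have h3 := congrArg (fun w : ι ⊕ ι → ℂ => w ∘ Sum.inl) h1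
      simpa using h3
    have h3 : Sum.elim q (0 : ι → ℂ) ∈ Us Rs (RR ρ W) Q := by
      have h4 := hP1 (Sum.elim q (0 : ι → ℂ))
      rwa [hABCD, fromBlocks_mulVec, Sum.elim_comp_inl, Sum.elim_comp_inr, hM0, hC0, zero_mulVec,
        zero_mulVec, mulVec_zero, add_zero, add_zero, h2] at h4
    obtain ⟨al, hal⟩ : ∃ al : ℂ, al = star q ⬝ᵥ q := ⟨_, rfl⟩
    obtain ⟨be, hbe⟩ : ∃ be : ℂ, be = star (star p) ⬝ᵥ star p := ⟨_, rfl⟩
    have hal0 : al ≠ 0 := by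
      rw [hal]
      exact fun h5 => h.q0 (dotProduct_star_self_eq_zero.1 h5)
    have hbe0 : be ≠ 0 := by
      rw [hbe]
      exact fun h5 => h.p0 (star_eq_zero.1 (dotProduct_star_self_eq_zero.1 h5))
    obtain ⟨Z, hZ⟩ : ∃ Z : ι ⊕ ι → ℂ, Z = Sum.elim (star be • q) ((-star al) • star p) := ⟨_, rfl⟩
    let N : Submodule ℂ (ι ⊕ ι → ℂ) :=
      { carrier := {w | star Z ⬝ᵥ w = 0}
        add_mem' := by
          intro x y hx hy
          change star Z ⬝ᵥ (x + y) = 0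
          rw [dotProduct_add, hx, hy, add_zero]
        zero_mem' := dotProduct_zero _
        smul_mem' := by
          intro c x hx
          change star Z ⬝ᵥ (c • x) = 0
          rw [dotProduct_smul, hx, smul_zero] }
    have h6 : Us Rs (RR ρ W) Q ≤ N := by
      refine Us_le ?_ fun X hX w _ => ?_
      · change star Z ⬝ᵥ Q = 0
        rw [hZ, hQ]
        have h7 : star (Sum.elim (star be • q) ((-star al) • star p)) =
            Sum.elim (be • star q) ((-al) • star (star p)) := by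
          funext i
          rcases i with i | i <;> simp
        rw [h7, sumElim_dotProduct_sumElim, smul_dotProduct, smul_dotProduct, ← hal, ← hbe]
        simp [mul_comm]
      · change star Z ⬝ᵥ (RR ρ W X *ᵥ w) = 0
        rw [adj_dot, ← RR_adj h, hZ, hk _ hX, star_zero, zero_dotProduct]
    have h8 : star Z ⬝ᵥ Sum.elim q (0 : ι → ℂ) = 0 := h6 h3
    rw [hZ] at h8
    have h7 : star (Sum.elim (star be • q) ((-star al) • star p)) =
        Sum.elim (be • star q) ((-al) • star (star p)) := by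
      funext i
      rcases i with i | i <;> simp
    rw [h7, sumElim_dotProduct_sumElim, smul_dotProduct, dotProduct_zero, add_zero, ← hal,
      smul_eq_mul] at h8
    exact (mul_ne_zero hbe0 hal0) h8
  · have h1 := hc X hX
    rw [hABCD, RR_apply, fromBlocks_multiply, fromBlocks_multiply, fromBlocks_inj] at h1
    have h2 := h1.2.1
    rw [zero_mul, add_zero, mul_zero, zero_add, mul_sub, Matrix.mul_smul, mul_one] at h2
    rw [h2]
    abel
  · have h3 := hF (fromBlocks f 0 0 (z • 1)) z (fun X hX => by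
      rw [RR_apply, fromBlocks_multiply, fromBlocks_multiply, h1 X hX]
      simp) (by
      rw [hQ, fromBlocks_mulVec, Sum.elim_comp_inl, Sum.elim_comp_inr, h2]
      funext i
      rcases i with i | i <;> simp [smul_mulVec])
    rw [hABCD, fromBlocks_multiply, fromBlocks_smul, fromBlocks_inj] at h3
    have h4 := h3.2.1
    rwa [zero_mul, add_zero] at h4
  · have h3 := hF (fromBlocks (star z • 1) 0 0 (fᵀ)ᴴ) (star z) (fun X hX => by
      have h5 := congrArg Matrix.conjTranspose (congrArg Matrix.transpose (h1 _ (h.adj X hX)))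
      rw [h.ra, transpose_mul, transpose_mul, conjTranspose_mul, conjTranspose_mul] at h5
      have h6 : ((ρ X)ᴴᵀ)ᴴ = (ρ X)ᵀ := by
        ext i j
        simp
      rw [h6] at h5
      rw [RR_apply, fromBlocks_multiply, fromBlocks_multiply]
      congr 1
      · simp
      · simp
      · simp
      · simp only [mul_zero, zero_add, mul_sub, sub_mul, Matrix.mul_smul,
          Matrix.smul_mul, mul_one, one_mul, h5]) (by
      have h5 : (fᵀ)ᴴ *ᵥ star p = star z • star p := by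
        have h6 : (fᵀ)ᴴ = (fᴴ)ᵀ := rfl
        rw [h6, tr_star, conjTranspose_conjTranspose, h2, star_smul]
      rw [hQ, fromBlocks_mulVec, Sum.elim_comp_inl, Sum.elim_comp_inr, h5]
      funext i
      rcases i with i | i <;> simp [smul_mulVec])
    rw [hABCD, fromBlocks_multiply, fromBlocks_smul, fromBlocks_inj] at h3
    have h4 := h3.2.2.1
    rw [zero_mul, zero_add] at h4
    have h5 := congrArg Matrix.conjTranspose h4
    rw [conjTranspose_mul, conjTranspose_conjTranspose, hCM.1, conjTranspose_smul, hCM.1,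
      star_star] at h5
    exact h5

end link

/-! ### The torus and the root vectors -/

section roots

variable {B : Type} [Fintype B] [DecidableEq B] {s : Submodule ℂ (Matrix B B ℂ)}
  {D : Matrix B B ℂ} {r : ℕ} {T : Fin r → Matrix B B ℂ} {Φ : Finset (Fin r → ℝ)}
  {X : (Fin r → ℝ) → Matrix B B ℂ} {h : Fin r → ℝ}

theorem tor_single (i : Fin r) : tor T (Pi.single i 1) = T i := by
  unfold tor
  rw [Finset.sum_eq_single i]
  · rw [Pi.single_eq_same, Complex.ofReal_one, one_smul]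
  · intro j _ hj
    rw [Pi.single_eq_of_ne hj, Complex.ofReal_zero, zero_smul]
  · intro hi
    exact absurd (Finset.mem_univ i) hi

theorem tor_zero : tor T 0 = 0 := by
  unfold tor
  simp

theorem tor_adj (hv : TV s D r T h) (x : Fin r → ℝ) : (tor T x)ᴴ = tor T x := by
  unfold tor
  rw [conjTranspose_sum]
  refine Finset.sum_congr rfl fun i _ => ?_
  rw [conjTranspose_smul, (hv.m i).2]
  congr 1
  exact Complex.conj_ofReal _

theorem tor_mem (hv : TV s D r T h) (x : Fin r → ℝ) : tor T x ∈ s :=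
  Submodule.sum_mem _ fun i _ => s.smul_mem _ (hv.m i).1

theorem tor_comm (hv : TV s D r T h) (x y : Fin r → ℝ) : tor T x * tor T y = tor T y * tor T x := by
  unfold tor
  rw [Finset.sum_mul_sum, Finset.sum_mul_sum, Finset.sum_comm]
  refine Finset.sum_congr rfl fun i _ => Finset.sum_congr rfl fun j _ => ?_
  rw [Matrix.smul_mul, Matrix.mul_smul, Matrix.smul_mul, Matrix.mul_smul, smul_comm, hv.c]

theorem tor_trace (hv : TV s D r T h) (x y : Fin r → ℝ) :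
    trace (tor T x * tor T y) = ((x ⬝ᵥ y : ℝ) : ℂ) := by
  unfold tor dotProduct
  rw [Finset.sum_mul_sum, trace_sum, Complex.ofReal_sum]
  refine Finset.sum_congr rfl fun i _ => ?_
  rw [trace_sum, Finset.sum_eq_single i]
  · rw [Matrix.smul_mul, Matrix.mul_smul, trace_smul, trace_smul, hv.t, if_pos rfl]
    push_cast
    simp
  · intro j _ hj
    rw [Matrix.smul_mul, Matrix.mul_smul, trace_smul, trace_smul, hv.t, if_neg (Ne.symm hj)]
    simp
  · intro hi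
    exact absurd (Finset.mem_univ i) hi

theorem X_trace (hv : RV s D r T Φ X h) {γ : Fin r → ℝ} (hγ : γ ∈ Φ) (x : Fin r → ℝ) :
    trace (X γ * tor T x) = 0 := by
  have h1 : trace ((tor T γ * X γ - X γ * tor T γ) * tor T x) = 0 := by
    rw [sub_mul, trace_sub, sub_eq_zero, mul_assoc, trace_mul_comm, mul_assoc, mul_assoc,
      tor_comm hv.tv x]
  rw [hv.Xw γ hγ, Matrix.smul_mul, trace_smul, smul_eq_mul] at h1
  refine (mul_eq_zero.1 h1).resolve_left fun h2 => ?_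
  have h3 : γ ⬝ᵥ γ = 0 := by exact_mod_cast h2
  have h4 : γ = 0 := dotProduct_self_eq_zero.1 h3
  exact hv.rs.z (h4 ▸ hγ)

/-- The Lie algebra spanned by the torus and the root vectors orthogonal to `y`. -/
def gy (T : Fin r → Matrix B B ℂ) (Φ : Finset (Fin r → ℝ)) (X : (Fin r → ℝ) → Matrix B B ℂ)
    (y : Fin r → ℝ) : Submodule ℂ (Matrix B B ℂ) :=
  Submodule.span ℂ (Set.range (tor T) ∪ X '' {γ | γ ∈ Φ ∧ γ ⬝ᵥ y = 0})

theorem tor_gy (x y : Fin r → ℝ) : tor T x ∈ gy T Φ X y :=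
  Submodule.subset_span (Or.inl ⟨x, rfl⟩)

theorem X_gy {y γ : Fin r → ℝ} (hγ : γ ∈ Φ) (hy : γ ⬝ᵥ y = 0) : X γ ∈ gy T Φ X y :=
  Submodule.subset_span (Or.inr ⟨γ, ⟨hγ, hy⟩, rfl⟩)

theorem X_br (hv : RV s D r T Φ X h) (hs : ∀ Y ∈ s, ∀ Z ∈ s, Y * Z - Z * Y ∈ s)
    {y γ δ : Fin r → ℝ} (hγ : γ ∈ Φ) (hδ : δ ∈ Φ) (hγy : γ ⬝ᵥ y = 0) (hδy : δ ⬝ᵥ y = 0) :
    X γ * X δ - X δ * X γ ∈ gy T Φ X y := by
  by_cases h0 : γ + δ = 0
  · have h1 : δ = -γ := (neg_eq_of_add_eq_zero_right h0).symm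
    rw [h1, (hv.Xm γ hγ).2.2, hv.Xb γ hγ]
    exact tor_gy _ _
  · obtain ⟨Z, hZ⟩ : ∃ Z, Z = X γ * X δ - X δ * X γ := ⟨_, rfl⟩
    rw [← hZ]
    by_cases hZ0 : Z = 0
    · rw [hZ0]
      exact Submodule.zero_mem _
    · have hw : ∀ x, tor T x * Z - Z * tor T x = (((γ + δ) ⬝ᵥ x : ℝ) : ℂ) • Z := by
        intro x
        have e1 : tor T x * X γ = X γ * tor T x + ((γ ⬝ᵥ x : ℝ) : ℂ) • X γ := by
          rw [← hv.Xw γ hγ x]
          abel
        have e2 : tor T x * X δ = X δ * tor T x + ((δ ⬝ᵥ x : ℝ) : ℂ) • X δ := by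
          rw [← hv.Xw δ hδ x]
          abel
        have e3 : tor T x * (X γ * X δ) = X γ * X δ * tor T x +
            (((γ ⬝ᵥ x : ℝ) : ℂ) + ((δ ⬝ᵥ x : ℝ) : ℂ)) • (X γ * X δ) := by
          rw [← mul_assoc, e1, add_mul, mul_assoc, e2, mul_add, Matrix.smul_mul, Matrix.mul_smul,
            add_smul, ← mul_assoc]
          abel
        have e4 : tor T x * (X δ * X γ) = X δ * X γ * tor T x +
            (((γ ⬝ᵥ x : ℝ) : ℂ) + ((δ ⬝ᵥ x : ℝ) : ℂ)) • (X δ * X γ) := by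
          rw [← mul_assoc, e2, add_mul, mul_assoc, e1, mul_add, Matrix.smul_mul, Matrix.mul_smul,
            add_smul, ← mul_assoc]
          abel
        rw [hZ, mul_sub, e3, e4, sub_mul, add_dotProduct, Complex.ofReal_add, smul_sub]
        abel
      obtain ⟨h2, c, hc⟩ := hv.one (γ + δ) h0 Z
        (by rw [hZ]; exact hs _ (hv.Xm γ hγ).1 _ (hv.Xm δ hδ).1) hZ0 hw
      rw [hc]
      exact Submodule.smul_mem _ _ (X_gy h2 (by rw [add_dotProduct, hγy, hδy, add_zero]))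

theorem gy_br (hv : RV s D r T Φ X h) (hs : ∀ Y ∈ s, ∀ Z ∈ s, Y * Z - Z * Y ∈ s)
    (y : Fin r → ℝ) : ∀ Y ∈ gy T Φ X y, ∀ Z ∈ gy T Φ X y, Y * Z - Z * Y ∈ gy T Φ X y := by
  intro Y hY Z hZ
  unfold gy at hY hZ
  induction hY, hZ using Submodule.span_induction₂ with
  | mem_mem Y Z hY hZ =>
    rcases hY with ⟨x, rfl⟩ | ⟨γ, ⟨hγ, hγy⟩, rfl⟩ <;>
      rcases hZ with ⟨x', rfl⟩ | ⟨δ, ⟨hδ, hδy⟩, rfl⟩
    · rw [tor_comm hv.tv x x', sub_self]
      exact Submodule.zero_mem _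
    · rw [hv.Xw δ hδ]
      exact Submodule.smul_mem _ _ (X_gy hδ hδy)
    · rw [← neg_sub, hv.Xw γ hγ]
      exact Submodule.neg_mem _ (Submodule.smul_mem _ _ (X_gy hγ hγy))
    · exact X_br hv hs hγ hδ hγy hδy
  | zero_left Z _ =>
    rw [zero_mul, mul_zero, sub_zero]
    exact Submodule.zero_mem _
  | zero_right Y _ =>
    rw [zero_mul, mul_zero, sub_zero]
    exact Submodule.zero_mem _
  | add_left Y Y' Z _ _ _ h1 h2 =>
    have e : (Y + Y') * Z - Z * (Y + Y') = (Y * Z - Z * Y) + (Y' * Z - Z * Y') := by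
      rw [add_mul, mul_add]
      abel
    rw [e]
    exact Submodule.add_mem _ h1 h2
  | add_right Y Z Z' _ _ _ h1 h2 =>
    have e : Y * (Z + Z') - (Z + Z') * Y = (Y * Z - Z * Y) + (Y * Z' - Z' * Y) := by
      rw [add_mul, mul_add]
      abel
    rw [e]
    exact Submodule.add_mem _ h1 h2
  | smul_left c Y Z _ _ h1 =>
    rw [Matrix.smul_mul, Matrix.mul_smul, ← smul_sub]
    exact Submodule.smul_mem _ _ h1
  | smul_right c Y Z _ _ h1 =>
    rw [Matrix.smul_mul, Matrix.mul_smul, ← smul_sub]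
    exact Submodule.smul_mem _ _ h1

theorem gy_adj (hv : RV s D r T Φ X h) (y : Fin r → ℝ) : ∀ Y ∈ gy T Φ X y, Yᴴ ∈ gy T Φ X y := by
  intro Y hY
  unfold gy at hY
  induction hY using Submodule.span_induction with
  | mem Y hY =>
    rcases hY with ⟨x, rfl⟩ | ⟨γ, ⟨hγ, hγy⟩, rfl⟩
    · rw [tor_adj hv.tv]
      exact tor_gy _ _
    · rw [← (hv.Xm γ hγ).2.2]
      exact X_gy (hv.rs.neg γ hγ) (by rw [neg_dotProduct, hγy, neg_zero])
  | zero =>
    rw [conjTranspose_zero]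
    exact Submodule.zero_mem _
  | add Y Z _ _ h1 h2 =>
    rw [conjTranspose_add]
    exact Submodule.add_mem _ h1 h2
  | smul c Y _ h1 =>
    rw [conjTranspose_smul]
    exact Submodule.smul_mem _ _ h1

theorem gy_le (hv : RV s D r T Φ X h) (y : Fin r → ℝ) : gy T Φ X y ≤ s := by
  unfold gy
  refine Submodule.span_le.2 ?_
  rintro Y (⟨x, rfl⟩ | ⟨γ, ⟨hγ, -⟩, rfl⟩)
  · exact tor_mem hv.tv x
  · exact (hv.Xm γ hγ).1

theorem le_gy (hv : RV s D r T Φ X h) : s ≤ gy T Φ X 0 := by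
  refine hv.sp.trans (Submodule.span_le.2 ?_)
  rintro Y (⟨i, rfl⟩ | ⟨γ, hγ, rfl⟩)
  · rw [← tor_single (T := T) i]
    exact tor_gy _ _
  · exact X_gy hγ (dotProduct_zero γ)

theorem gy_comm (hv : RV s D r T Φ X h) (y : Fin r → ℝ) :
    ∀ Y ∈ gy T Φ X y, Y * tor T y = tor T y * Y := by
  intro Y hY
  unfold gy at hY
  induction hY using Submodule.span_induction with
  | mem Y hY =>
    rcases hY with ⟨x, rfl⟩ | ⟨γ, ⟨hγ, hγy⟩, rfl⟩
    · exact tor_comm hv.tv x y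
    · have h1 := hv.Xw γ hγ y
      rw [hγy, Complex.ofReal_zero, zero_smul, sub_eq_zero] at h1
      exact h1.symm
  | zero => rw [zero_mul, mul_zero]
  | add Y Z _ _ h1 h2 => rw [add_mul, mul_add, h1, h2]
  | smul c Y _ h1 => rw [Matrix.smul_mul, Matrix.mul_smul, h1]

/-- The spanning set given by a set of roots containing each root or its opposite. -/
theorem gy_sp (hv : RV s D r T Φ X h) (y : Fin r → ℝ) (P : (Fin r → ℝ) → Prop)
    (hP : ∀ γ ∈ Φ, P γ ∨ P (-γ)) : gy T Φ X y ≤ Submodule.span ℂ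
      (X '' {γ | γ ∈ Φ ∧ γ ⬝ᵥ y = 0 ∧ P γ} ∪ Set.range (tor T) ∪
        {Y | Yᴴ ∈ X '' {γ | γ ∈ Φ ∧ γ ⬝ᵥ y = 0 ∧ P γ}}) := by
  unfold gy
  refine Submodule.span_mono ?_
  rintro Y (⟨x, rfl⟩ | ⟨γ, ⟨hγ, hγy⟩, rfl⟩)
  · exact Or.inl (Or.inr ⟨x, rfl⟩)
  · rcases hP γ hγ with h1 | h1
    · exact Or.inl (Or.inl ⟨γ, ⟨hγ, hγy, h1⟩, rfl⟩)
    · exact Or.inr ⟨-γ, ⟨hv.rs.neg γ hγ, by rw [neg_dotProduct, hγy, neg_zero], h1⟩,
        (hv.Xm γ hγ).2.2⟩

end roots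

/-! ### The tensors of degree two -/

section two

variable {B : Type} [Fintype B] [DecidableEq B]

/-- A matrix as a tensor of degree two. -/
def t2 (N : Matrix B B ℂ) : (Fin 2 → B) → ℂ := fun I => N (I 0) (I 1)

theorem t2_inj {M N : Matrix B B ℂ} (h : t2 M = t2 N) : M = N := by
  ext i j
  exact congrFun h ![i, j]

theorem kp_t2 (u N : Matrix B B ℂ) : kp (Fin 2) u *ᵥ t2 N = t2 (u * N * uᵀ) := by
  funext I
  rw [mvA]
  unfold t2
  rw [Matrix.mul_apply]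
  simp only [Matrix.mul_apply, Finset.sum_mul]
  rw [Finset.sum_comm, ← Fintype.sum_prod_type']
  refine Fintype.sum_equiv (finTwoArrowEquiv B) _ _ fun J => ?_
  rw [kp_apply, Fin.prod_univ_two]
  change u (I 0) (J 0) * u (I 1) (J 1) * N (J 0) (J 1) =
    u (I 0) (J 0) * N (J 0) (J 1) * u (I 1) (J 1)
  ring

theorem dm_t2 (X N : Matrix B B ℂ) : dm (Fin 2) X *ᵥ t2 N = t2 (X * N + N * Xᵀ) := by
  funext I
  rw [dm_mulVec_apply, Fin.sum_univ_two]
  unfold t2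
  rw [Matrix.add_apply, Matrix.mul_apply, Matrix.mul_apply]
  congr 1
  refine Finset.sum_congr rfl fun j _ => ?_
  simp [mul_comm]

theorem dm_tr {κ : Type} [Fintype κ] [DecidableEq κ] (X : Matrix B B ℂ) :
    (dm κ X)ᵀ = dm κ Xᵀ := by
  unfold dm kd
  rw [transpose_sum]
  refine Finset.sum_congr rfl fun k _ => ?_
  rw [kpp_transpose]
  congr 1
  funext l
  by_cases hl : l = k
  · subst hl
    rw [Function.update_self, Function.update_self]
  · rw [Function.update_of_ne hl, Function.update_of_ne hl, transpose_one]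

end two

/-! ### The invariant -/

section inv

variable {B : Type} [Fintype B] [DecidableEq B] {Om : Matrix B B ℂ}
  {L : Submodule ℂ (Matrix B B ℂ)} {e D : Matrix B B ℂ} {r : ℕ}
  {T : Fin r → Matrix B B ℂ} {Φ : Finset (Fin r → ℝ)} {X : (Fin r → ℝ) → Matrix B B ℂ}
  {h : Fin r → ℝ} {S : Finset (Fin r → ℝ)} {v : (Fin r → ℝ) → B → ℂ}

theorem e_mulVec (hm : MV T Φ X h e S v) (w : B → ℂ) :
    e *ᵥ w = ∑ s ∈ S, (star (v s) ⬝ᵥ w) • v s := by
  rw [hm.ee, sum_mulVec]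
  refine Finset.sum_congr rfl fun s _ => ?_
  funext b
  rw [Pi.smul_apply, smul_eq_mul, mvA]
  simp only [vecMulVec_apply, dotProduct, Finset.sum_mul]
  exact Finset.sum_congr rfl fun j _ => by ring

theorem e_v (hm : MV T Φ X h e S v) {a : Fin r → ℝ} (ha : a ∈ S) : e *ᵥ v a = v a := by
  rw [e_mulVec hm, Finset.sum_eq_single a]
  · rw [dotProduct_comm, hm.on a ha a ha, if_pos rfl, one_smul]
  · intro b hb hba
    rw [dotProduct_comm, hm.on a ha b hb, if_neg (Ne.symm hba), zero_smul]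
  · intro h1
    exact absurd ha h1

theorem v_ne (hm : MV T Φ X h e S v) {a : Fin r → ℝ} (ha : a ∈ S) : v a ≠ 0 := by
  intro h0
  have h1 := hm.on a ha a ha
  rw [h0, zero_dotProduct, if_pos rfl] at h1
  exact zero_ne_one h1

theorem pr_neg_left (γ x : Fin r → ℝ) : pr (-γ) x = -pr γ x := by
  unfold pr
  rw [dotProduct_neg, neg_dotProduct, dotProduct_neg, neg_neg]
  ring

/-- The weights of a root string. -/
theorem no_up (hm : MV T Φ X h e S v) {γ μ a : Fin r → ℝ} (hγ : γ ∈ Φ) (hμ : 0 < γ ⬝ᵥ μ)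
    (hmax : ∀ s ∈ S, s ⬝ᵥ μ ≤ a ⬝ᵥ μ) {s : Fin r → ℝ} (hs : s ∈ S) (hsa : s ⬝ᵥ μ = a ⬝ᵥ μ) :
    pr γ s ≠ -1 := by
  intro h1
  have h2 := hm.mw.rfl γ hγ s hs
  unfold rf at h2
  have h3 := hmax _ h2
  rw [h1, sub_dotProduct, smul_dotProduct, smul_eq_mul] at h3
  linarith

/-- Root vectors of positive degree kill the vectors of highest degree. -/
theorem kill_top {γ μ a : Fin r → ℝ} {s' : Submodule ℂ (Matrix B B ℂ)}
    (hv : RV s' D r T Φ X h) (hm : MV T Φ X h e S v) (hγ : γ ∈ Φ)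
    (hμ : 0 < γ ⬝ᵥ μ) (hmax : ∀ s ∈ S, s ⬝ᵥ μ ≤ a ⬝ᵥ μ) {w : B → ℂ} (hw : e *ᵥ w = w)
    (hw' : tor T μ *ᵥ w = ((a ⬝ᵥ μ : ℝ) : ℂ) • w) : X γ *ᵥ w = 0 := by
  rw [← hw, e_mulVec hm, mulVec_sum]
  refine Finset.sum_eq_zero fun s hs => ?_
  rw [mulVec_smul]
  by_cases h1 : s ⬝ᵥ μ = a ⬝ᵥ μ
  · rw [hm.X0 γ hγ s hs (no_up hm hγ hμ hmax hs h1), smul_zero]
  · have h2 : star (v s) ⬝ᵥ (tor T μ *ᵥ w) = ((s ⬝ᵥ μ : ℝ) : ℂ) * (star (v s) ⬝ᵥ w) := by
      rw [adj_dot, tor_adj hv.tv, hm.Tv s hs, star_smul, smul_dotProduct, smul_eq_mul,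
        dotProduct_comm μ s]
      congr 1
      exact Complex.conj_ofReal _
    rw [hw', dotProduct_smul, smul_eq_mul] at h2
    have h3 : (((a ⬝ᵥ μ : ℝ) : ℂ) - ((s ⬝ᵥ μ : ℝ) : ℂ)) * (star (v s) ⬝ᵥ w) = 0 := by
      rw [sub_mul, h2, sub_self]
    have h4 : (((a ⬝ᵥ μ : ℝ) : ℂ) - ((s ⬝ᵥ μ : ℝ) : ℂ)) ≠ 0 := by
      intro h5
      rw [sub_eq_zero] at h5
      exact h1 (by exact_mod_cast h5.symm)
    rw [(mul_eq_zero.1 h3).resolve_left h4, zero_smul]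

theorem kill_mat {γ μ a : Fin r → ℝ} {s' : Submodule ℂ (Matrix B B ℂ)}
    (hv : RV s' D r T Φ X h) (hm : MV T Φ X h e S v) (hγ : γ ∈ Φ)
    (hμ : 0 < γ ⬝ᵥ μ) (hmax : ∀ s ∈ S, s ⬝ᵥ μ ≤ a ⬝ᵥ μ) {M : Matrix B B ℂ} (hM : e * M = M)
    (hM' : tor T μ * M = ((a ⬝ᵥ μ : ℝ) : ℂ) • M) : X γ * M = 0 := by
  refine matrix_ext_mulVec fun c => ?_
  rw [← mulVec_mulVec, zero_mulVec]
  refine kill_top hv hm hγ hμ hmax ?_ ?_
  · rw [mulVec_mulVec, hM]
  · rw [mulVec_mulVec, hM', smul_mulVec]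

/-- The tensor of degree two of weight `μ` which is killed by the root vectors of nonnegative
degree. -/
theorem exists_q {s' : Submodule ℂ (Matrix B B ℂ)} (hbr : ∀ Y ∈ s', ∀ Z ∈ s', Y * Z - Z * Y ∈ s')
    (hec : ∀ Y ∈ s', Y * e = e * Y) (hv : RV s' D r T Φ X h) (hm : MV T Φ X h e S v)
    {μ a b : Fin r → ℝ} (ha : a ∈ S) (hb : b ∈ S) (hab : a + b = μ)
    (hmax : ∀ s ∈ S, s ⬝ᵥ μ ≤ a ⬝ᵥ μ) (hba : b ⬝ᵥ μ = a ⬝ᵥ μ) :
    ∃ q : (Fin 2 → B) → ℂ, q ≠ 0 ∧ kp (Fin 2) e *ᵥ q = q ∧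
      (∀ γ ∈ Φ, 0 ≤ γ ⬝ᵥ μ → dm (Fin 2) (X γ) *ᵥ q = 0) ∧
      ∀ x, dm (Fin 2) (tor T x) *ᵥ q = ((x ⬝ᵥ μ : ℝ) : ℂ) • q := by
  have hlk : Lk (gy T Φ X μ) (X '' {γ | γ ∈ Φ ∧ γ ⬝ᵥ μ = 0 ∧ 0 ≤ pr γ a}) (Set.range (tor T))
      (LinearMap.id : Matrix B B ℂ →ₗ[ℂ] Matrix B B ℂ) (tor T μ) (v a) (v b) := by
    refine ⟨gy_br hv hbr μ, gy_adj hv μ, ?_, gy_sp hv μ _ fun γ _ => ?_, fun _ _ => rfl,
      fun _ => rfl, gy_comm hv μ, tor_adj hv.tv μ, v_ne hm ha, v_ne hm hb, ?_, ?_⟩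
    · rintro _ ⟨γ, ⟨h1, h2, -⟩, rfl⟩
      exact X_gy h1 h2
    · rw [pr_neg_left]
      rcases le_total 0 (pr γ a) with h1 | h1
      · exact Or.inl h1
      · exact Or.inr (by linarith)
    · rintro _ ⟨γ, ⟨h1, h2, h3⟩, rfl⟩
      refine ⟨hm.X0 γ h1 a ha (by linarith), ?_, X_trace hv h1 μ⟩
      change (X γ)ᴴ *ᵥ v b = 0
      rw [← (hv.Xm γ h1).2.2]
      refine hm.X0 _ (hv.rs.neg γ h1) b hb ?_
      have h4 : b = μ - a := by rw [← hab]; abel
      have h5 : pr γ μ = 0 := by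
        unfold pr
        rw [dotProduct_comm, h2, mul_zero, zero_div]
      rw [pr_neg_left, h4, GC1.pr_sub, h5]
      linarith
    · rintro _ ⟨x, rfl⟩
      refine ⟨((x ⬝ᵥ a : ℝ) : ℂ), hm.Tv a ha x, ?_⟩
      change (tor T x)ᴴ *ᵥ v b = _
      rw [tor_adj hv.tv, hm.Tv b hb x, tor_trace hv.tv, ← hab, dotProduct_add]
      congr 1
      rw [← Complex.ofReal_sub, add_sub_cancel_left]
      exact (Complex.conj_ofReal _).symm
  obtain ⟨M, hM0, hM1, hM2, hM3⟩ := link hlk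
  have he1 : e * M = M := by
    have h1 := hM2 e 1 (fun Y hY => (hec Y (gy_le hv μ hY)).symm) (by rw [e_v hm ha, one_smul])
    rwa [one_smul] at h1
  have he2 : M * eᵀ = M := by
    have h1 := hM3 e 1 (fun Y hY => (hec Y (gy_le hv μ hY)).symm) (by rw [e_v hm hb, one_smul])
    rwa [one_smul] at h1
  have ht1 : tor T μ * M = ((a ⬝ᵥ μ : ℝ) : ℂ) • M :=
    hM2 _ _ (fun Y hY => (gy_comm hv μ Y hY).symm) (by rw [hm.Tv a ha, dotProduct_comm])
  have ht2 : M * (tor T μ)ᵀ = ((a ⬝ᵥ μ : ℝ) : ℂ) • M :=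
    hM3 _ _ (fun Y hY => (gy_comm hv μ Y hY).symm) (by rw [hm.Tv b hb, dotProduct_comm, hba])
  refine ⟨t2 M, fun h0 => hM0 (t2_inj h0), ?_, fun γ hγ hγμ => ?_, fun x => ?_⟩
  · rw [kp_t2, he1, he2]
  · rw [dm_t2]
    rcases hγμ.lt_or_eq with h1 | h1
    · have h2 := kill_mat hv hm hγ h1 hmax he1 ht1
      have h3 : X γ * Mᵀ = 0 := by
        refine kill_mat hv hm hγ h1 hmax ?_ ?_
        · have h4 := congrArg Matrix.transpose he2
          rwa [transpose_mul, transpose_transpose] at h4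
        · have h4 := congrArg Matrix.transpose ht2
          rwa [transpose_mul, transpose_transpose, transpose_smul] at h4
      have h5 := congrArg Matrix.transpose h3
      rw [transpose_mul, transpose_transpose, transpose_zero] at h5
      rw [h2, h5, add_zero]
      rfl
    · have h2 := hM1 (X γ) (X_gy hγ h1.symm)
      rw [X_trace hv hγ, zero_smul] at h2
      change X γ * M + M * (X γ)ᵀ = 0 at h2
      rw [h2]
      rfl
  · rw [dm_t2]
    have h2 := hM1 (tor T x) (tor_gy x μ)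
    rw [tor_trace hv.tv] at h2
    change tor T x * M + M * (tor T x)ᵀ = _ at h2
    rw [h2]
    rfl

/-- The invariant of degree four. -/
theorem exists_inv {s' : Submodule ℂ (Matrix B B ℂ)} (hbr : ∀ Y ∈ s', ∀ Z ∈ s', Y * Z - Z * Y ∈ s')
    (hec : ∀ Y ∈ s', Y * e = e * Y) (hv : RV s' D r T Φ X h) (hm : MV T Φ X h e S v)
    {μ a b a' b' : Fin r → ℝ} (ha : a ∈ S) (hb : b ∈ S) (hab : a + b = μ)
    (hmax : ∀ s ∈ S, s ⬝ᵥ μ ≤ a ⬝ᵥ μ) (hba : b ⬝ᵥ μ = a ⬝ᵥ μ)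
    (ha' : a' ∈ S) (hb' : b' ∈ S) (hab' : a' + b' = -μ)
    (hmax' : ∀ s ∈ S, s ⬝ᵥ (-μ) ≤ a' ⬝ᵥ (-μ)) (hba' : b' ⬝ᵥ (-μ) = a' ⬝ᵥ (-μ)) :
    ∃ x : (Fin 2 ⊕ Fin 2 → B) → ℂ, x ≠ 0 ∧ kp (Fin 2 ⊕ Fin 2) e *ᵥ x = x ∧
      ∀ Y ∈ s', dm (Fin 2 ⊕ Fin 2) Y *ᵥ x = 0 := by
  obtain ⟨q, hq0, hq1, hq2, hq3⟩ := exists_q hbr hec hv hm ha hb hab hmax hba
  obtain ⟨p, hp0, hp1, hp2, hp3⟩ := exists_q hbr hec hv hm ha' hb' hab' hmax' hba'
  have hlk : Lk (gy T Φ X 0) (X '' {γ | γ ∈ Φ ∧ γ ⬝ᵥ 0 = 0 ∧ 0 ≤ γ ⬝ᵥ μ}) (Set.range (tor T))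
      (dmL (Fin 2)) (tor T 0) q p := by
    refine ⟨gy_br hv hbr 0, gy_adj hv 0, ?_, gy_sp hv 0 _ fun γ _ => ?_, fun Y Z => dm_bracket Y Z,
      fun Y => (dm_conjTranspose Y).symm, gy_comm hv 0, tor_adj hv.tv 0, hq0, hp0, ?_, ?_⟩
    · rintro _ ⟨γ, ⟨h1, h2, -⟩, rfl⟩
      exact X_gy h1 h2
    · rw [neg_dotProduct]
      rcases le_total 0 (γ ⬝ᵥ μ) with h1 | h1
      · exact Or.inl h1
      · exact Or.inr (by linarith)
    · rintro _ ⟨γ, ⟨h1, -, h3⟩, rfl⟩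
      refine ⟨hq2 γ h1 h3, ?_, X_trace hv h1 0⟩
      change dm (Fin 2) (X γ)ᴴ *ᵥ p = 0
      rw [← (hv.Xm γ h1).2.2]
      exact hp2 _ (hv.rs.neg γ h1) (by rw [neg_dotProduct, dotProduct_neg, neg_neg]; exact h3)
    · rintro _ ⟨x, rfl⟩
      refine ⟨((x ⬝ᵥ μ : ℝ) : ℂ), hq3 x, ?_⟩
      change dm (Fin 2) (tor T x)ᴴ *ᵥ p = _
      rw [tor_adj hv.tv, hp3 x, tor_zero, mul_zero, trace_zero, zero_sub, star_neg, dotProduct_neg,
        Complex.ofReal_neg]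
      congr 2
      exact (Complex.conj_ofReal _).symm
  obtain ⟨M, hM0, hM1, hM2, hM3⟩ := link hlk
  have hcm : ∀ Y ∈ gy T Φ X 0, kp (Fin 2) e * dmL (Fin 2) Y = dmL (Fin 2) Y * kp (Fin 2) e :=
    fun Y hY => (WJ2.dm_comm_kpp fun _ => hec Y (gy_le hv 0 hY)).symm
  have he1 : kp (Fin 2) e * M = M := by
    have h1 := hM2 (kp (Fin 2) e) 1 hcm (by rw [hq1, one_smul])
    rwa [one_smul] at h1
  have he2 : M * kp (Fin 2) eᵀ = M := by
    have h1 := hM3 (kp (Fin 2) e) 1 hcm (by rw [hp1, one_smul])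
    rwa [one_smul, kp_transpose] at h1
  refine ⟨flat M, fun h0 => hM0 (flat_inj h0), ?_, fun Y hY => ?_⟩
  · rw [kp_flat, he1, he2]
  · have h1 := hM1 Y (le_gy hv hY)
    rw [tor_zero, mul_zero, trace_zero, zero_smul] at h1
    change dm (Fin 2) Y * M + M * (dm (Fin 2) Y)ᵀ = 0 at h1
    rw [dm_tr] at h1
    rw [dm_flat, h1]
    rfl

end inv

/-! ### The half spin weights -/

section comb

variable {r n : ℕ} {c : ℝ} {E : Fin n → Fin r → ℝ}

theorem sg_dot (hE : Ort n c E) (τ : Fin n → ℤ) (z : Fin n) :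
    (∑ i, ((τ i : ℝ) / 2) • E i) ⬝ᵥ E z = (τ z : ℝ) / 2 * c := by
  rw [sum_dotProduct, Finset.sum_eq_single z]
  · rw [smul_dotProduct, hE.2.1, if_pos rfl, smul_eq_mul]
  · intro j _ hj
    rw [smul_dotProduct, hE.2.1, if_neg hj, smul_zero]
  · intro h1
    exact absurd (Finset.mem_univ z) h1

theorem prod_neg_odd (hn : Odd n) {τ : Fin n → ℤ} (hp : ∏ i, τ i = 1) : ∏ i, (-τ i) = -1 := by
  rw [Finset.prod_neg, hp, Finset.card_univ, Fintype.card_fin, hn.neg_one_pow, mul_one]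

theorem pair (hE : Ort n c E) (hn : Odd n) {S : Finset (Fin r → ℝ)} (hS : ∀ x, x ∈ S ↔ Hsp E x)
    {τ : Fin n → ℤ} (hτ : ∀ i, τ i = 1 ∨ τ i = -1) (hp : ∏ i, τ i = 1) (z : Fin n) :
    ∃ a ∈ S, ∃ b ∈ S, a + b = (τ z : ℝ) • E z ∧
      (∀ s ∈ S, s ⬝ᵥ ((τ z : ℝ) • E z) ≤ a ⬝ᵥ ((τ z : ℝ) • E z)) ∧
      b ⬝ᵥ ((τ z : ℝ) • E z) = a ⬝ᵥ ((τ z : ℝ) • E z) := by
  obtain ⟨τ', hz, hτ'⟩ : ∃ τ' : Fin n → ℤ, τ' z = τ z ∧ ∀ i, i ≠ z → τ' i = -τ i :=
    ⟨fun i => if i = z then τ z else -τ i, if_pos rfl, fun i hi => if_neg hi⟩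
  have h1 : ∀ i, τ' i = 1 ∨ τ' i = -1 := by
    intro i
    by_cases hi : i = z
    · rw [hi, hz]
      exact hτ z
    · rw [hτ' i hi]
      rcases hτ i with h2 | h2 <;> rw [h2]
      · exact Or.inr rfl
      · exact Or.inl (neg_neg 1)
  have h2 : ∏ i, τ' i = 1 := by
    have h3 := prod_neg_odd hn hp
    rw [← Finset.mul_prod_erase _ _ (Finset.mem_univ z)] at h3 ⊢
    have h4 : ∏ i ∈ Finset.univ.erase z, τ' i = ∏ i ∈ Finset.univ.erase z, (-τ i) := by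
      refine Finset.prod_congr rfl fun i hi => ?_
      exact hτ' i (Finset.ne_of_mem_erase hi)
    rw [h4, hz]
    linarith
  have hzz : (τ z : ℝ) * τ z = 1 := by
    rcases hτ z with h3 | h3 <;> rw [h3] <;> norm_num
  refine ⟨_, (hS _).2 ⟨τ, hτ, hp, rfl⟩, _, (hS _).2 ⟨τ', h1, h2, rfl⟩, ?_, ?_, ?_⟩
  · rw [← Finset.sum_add_distrib, Finset.sum_eq_single z]
    · rw [hz, ← add_smul]
      congr 1
      ring
    · intro j _ hj
      rw [← add_smul, hτ' j hj]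
      push_cast
      rw [neg_div, add_neg_cancel, zero_smul]
    · intro h3
      exact absurd (Finset.mem_univ z) h3
  · intro s hs
    obtain ⟨τs, h3, -, rfl⟩ := (hS s).1 hs
    rw [dotProduct_smul, dotProduct_smul, sg_dot hE, sg_dot hE, smul_eq_mul, smul_eq_mul]
    have h4 : (τ z : ℝ) * τs z ≤ 1 := by
      rcases hτ z with h5 | h5 <;> rcases h3 z with h6 | h6 <;> rw [h5, h6] <;> norm_num
    have h5 := mul_le_mul_of_nonneg_right h4 (show 0 ≤ c / 2 by linarith [hE.1])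
    have h6 : (τ z : ℝ) * ((τ z : ℝ) / 2 * c) = 1 * (c / 2) := by rw [← hzz]; ring
    have h7 : (τ z : ℝ) * ((τs z : ℝ) / 2 * c) = τ z * τs z * (c / 2) := by ring
    rw [h6, h7]
    exact h5
  · rw [dotProduct_smul, dotProduct_smul, sg_dot hE, sg_dot hE, hz]

theorem odd_of {S : Finset (Fin r → ℝ)} (hS : ∀ x, x ∈ S ↔ Hsp E x)
    (hns : ¬ ∀ x ∈ S, -x ∈ S) : Odd n := by
  by_contra hcon
  rw [Nat.not_odd_iff_even] at hcon
  refine hns fun x hx => ?_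
  obtain ⟨τ, h1, h2, rfl⟩ := (hS x).1 hx
  refine (hS _).2 ⟨fun i => -τ i, fun i => ?_, ?_, ?_⟩
  · rcases h1 i with h3 | h3
    · exact Or.inr (congrArg Neg.neg h3)
    · exact Or.inl ((congrArg Neg.neg h3).trans (neg_neg 1))
  · rw [Finset.prod_neg, h2, Finset.card_univ, Fintype.card_fin, hcon.neg_one_pow, mul_one]
  · rw [← Finset.sum_neg_distrib]
    refine Finset.sum_congr rfl fun i _ => ?_
    push_cast
    rw [neg_div, neg_smul]

theorem two_signs (z l : Fin n) (hzl : z ≠ l) : ∃ τ : Fin n → ℤ, (∀ i, τ i = 1 ∨ τ i = -1) ∧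
    ∏ i, τ i = 1 ∧ τ z = -1 := by
  refine ⟨fun i => (if i = z then -1 else 1) * (if i = l then -1 else 1), fun i => ?_, ?_, ?_⟩
  · dsimp only
    split_ifs <;> simp
  · rw [Finset.prod_mul_distrib, Finset.prod_ite_eq', Finset.prod_ite_eq',
      if_pos (Finset.mem_univ z), if_pos (Finset.mem_univ l)]
    norm_num
  · simp only [if_true, if_neg hzl, mul_one]

end comb

/-! ### The transfer to the linked idempotent -/

section fin

variable {B : Type} [Fintype B] [DecidableEq B] {Om : Matrix B B ℂ}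
  {L : Submodule ℂ (Matrix B B ℂ)} {e : Matrix B B ℂ}

theorem MM_scal (hL : LD Om L) (hMi : Mi L e) {M : Matrix B B ℂ} (heM : e * M = M)
    (hMc : ∀ Y ∈ Dr L, Y * M = M * Y) (hM0 : M ≠ 0) : ∃ c : ℂ, c ≠ 0 ∧ M * Mᴴ = c • e := by
  obtain ⟨he1, he2, he3, -, he5⟩ := hMi
  have hMe : Mᴴ * e = Mᴴ := by
    have h1 := congrArg Matrix.conjTranspose heM
    rwa [conjTranspose_mul, he3] at h1
  have hcm : M * Mᴴ ∈ CM L := by
    intro Y hY
    obtain ⟨z, hz, -, d, hd, rfl⟩ := GJ1.L_dec hL hY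
    obtain ⟨c, hc⟩ := he5 z hz.1
    have hze : z * e = c • e := by
      rw [← hc, hz.2 e he1, mul_assoc, he2]
    have hez : e * z = c • e := by rw [hz.2 e he1, hze]
    have h1 : z * M = c • M := by
      rw [← heM, ← mul_assoc, hze, Matrix.smul_mul]
    have h2 : Mᴴ * z = c • Mᴴ := by
      rw [← hMe, mul_assoc, hez, Matrix.mul_smul]
    have h3 : Mᴴ * d = d * Mᴴ := by
      have h4 := congrArg Matrix.conjTranspose (hMc _ (GJ1.Dr_adj hL hd))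
      rwa [conjTranspose_mul, conjTranspose_mul, conjTranspose_conjTranspose] at h4
    rw [add_mul, mul_add, ← mul_assoc, h1, ← mul_assoc, hMc d hd, mul_assoc M Mᴴ z, h2,
      mul_assoc M d, ← h3, Matrix.smul_mul, Matrix.mul_smul, mul_assoc M Mᴴ d]
  obtain ⟨c, hc⟩ := he5 _ hcm
  have h1 : e * (M * Mᴴ) * e = M * Mᴴ := by
    rw [← mul_assoc, heM, mul_assoc, hMe]
  rw [h1] at hc
  refine ⟨c, fun h0 => hM0 ?_, hc⟩
  rw [h0, zero_smul] at hc
  exact Matrix.self_mul_conjTranspose_eq_zero.1 hc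

end fin

end GH11

/-- **GH11**: the quadruple relation for half spin modules. -/
theorem quad_of (_h0 : St_pai) : St_quad := by
  intro B _ _ Om L e D r T Φ X h hR S v hm hTy hns e' M he' hM0 heM hMe' hMc
  obtain ⟨n, c, E, hn5, hE, -, hS, -⟩ := hTy
  have hL := hR.ld
  have hMi : Mi L e := hR.pu.1
  have hodd := GH11.odd_of hS hns
  have hn0 : 0 < n := by omega
  have hn1 : 1 < n := by omega
  obtain ⟨z, hz⟩ : ∃ z : Fin n, z = ⟨0, hn0⟩ := ⟨_, rfl⟩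
  obtain ⟨l, hl⟩ : ∃ l : Fin n, l = ⟨1, hn1⟩ := ⟨_, rfl⟩
  have hzl : z ≠ l := by
    rw [hz, hl]
    intro h1
    have h2 := congrArg Fin.val h1
    simp at h2
  obtain ⟨a, ha, b, hb, hab, hmax, hba⟩ := GH11.pair hE hodd hS (τ := fun _ => 1)
    (fun _ => Or.inl rfl) (by simp) z
  obtain ⟨τ, hτ1, hτ2, hτ3⟩ := GH11.two_signs z l hzl
  obtain ⟨a', ha', b', hb', hab', hmax', hba'⟩ := GH11.pair hE hodd hS hτ1 hτ2 z
  have e1 : (((1 : ℤ) : ℝ)) • E z = E z := by rw [Int.cast_one, one_smul]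
  have e2 : ((τ z : ℝ)) • E z = -E z := by rw [hτ3, Int.cast_neg, Int.cast_one, neg_smul, one_smul]
  rw [e1] at hab hmax hba
  rw [e2] at hab' hmax' hba'
  have hsL : ∀ Y ∈ Ide L e, Y ∈ L := fun Y hY => GJ1.Dr_le hL hY.1
  obtain ⟨x, hx0, hx1, hx2⟩ := GH11.exists_inv (s' := Ide L e)
    (fun Y hY Z hZ => GJ1.Ide_br hL hMi.1 (hsL Y hY) hZ) (fun Y hY => hMi.1 Y (hsL Y hY)) hR.rv hm
    ha hb hab hmax hba ha' hb' hab' hmax' hba'
  -- the tensor of degree four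
  obtain ⟨y, hy⟩ : ∃ y : (Fin 4 → B) → ℂ, y = fun I => x (fun k => I (finSumFinEquiv k)) :=
    ⟨_, rfl⟩
  have hy1 : kp (Fin 4) e *ᵥ y = y := by
    have h1 := GJ1.kp_re (finSumFinEquiv (m := 2) (n := 2)).symm e x
    rw [hx1] at h1
    rw [hy]
    exact h1
  have hy2 : ∀ Y ∈ Ide L e, dm (Fin 4) Y *ᵥ y = 0 := by
    intro Y hY
    have h1 := WJ1.dm_re (finSumFinEquiv (m := 2) (n := 2)).symm Y x
    rw [hx2 Y hY] at h1
    rw [hy]
    exact h1
  have hy0 : y ≠ 0 := by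
    intro h1
    apply hx0
    funext I
    have h2 := congrFun h1 (fun k => I (finSumFinEquiv.symm k))
    rw [hy] at h2
    simpa using h2
  have hyD : ∀ Y ∈ Dr L, dm (Fin 4) Y *ᵥ y = 0 := by
    intro Y hY
    obtain ⟨a, ha, b, hb, rfl⟩ := GJ1.Dr_dec hL hMi.1 hMi.2.2.1 hY
    rw [dm_add, add_mulVec, hy2 a ha, zero_add, ← hy1, mulVec_mulVec]
    have h1 : dm (Fin 4) b * kpp (fun _ : Fin 4 => e) = (∑ _k : Fin 4, (0 : ℂ)) • kpp (fun _ => e) :=
      WJ2.dm_mul_kpp fun _ => by rw [hb.2, zero_smul]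
    change (dm (Fin 4) b * kpp (fun _ : Fin 4 => e)) *ᵥ y = 0
    rw [h1, Finset.sum_const_zero, zero_smul, zero_mulVec]
  obtain ⟨c', hc0, hc'⟩ := GH11.MM_scal hL hMi heM hMc hM0
  have he2 := hMi.2.1
  have he3 := hMi.2.2.1
  have hMe : Mᴴ * e = Mᴴ := by
    have h1 := congrArg Matrix.conjTranspose heM
    rwa [conjTranspose_mul, he3] at h1
  have he'M : e' * Mᴴ = Mᴴ := by
    have h1 := congrArg Matrix.conjTranspose hMe'
    rwa [conjTranspose_mul, he'.2.2.1] at h1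
  have hMhc : ∀ Y ∈ Dr L, Y * Mᴴ = Mᴴ * Y := by
    intro Y hY
    have h4 := congrArg Matrix.conjTranspose (hMc _ (GJ1.Dr_adj hL hY))
    rw [conjTranspose_mul, conjTranspose_mul, conjTranspose_conjTranspose] at h4
    exact h4.symm
  have hyE : kpp ![e, e, Mᴴ, Mᴴ] *ᵥ y = kpp ![1, 1, Mᴴ, Mᴴ] *ᵥ y := by
    nth_rewrite 2 [← hy1]
    rw [mulVec_mulVec]
    change _ = (kpp ![1, 1, Mᴴ, Mᴴ] * kpp (fun _ : Fin 4 => e)) *ᵥ y
    rw [kpp_mul]
    congr 2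
    funext k
    fin_cases k <;> simp [hMe]
  refine ⟨kpp ![1, 1, Mᴴ, Mᴴ] *ᵥ y, fun h1 => ?_, ?_, fun Y hY => ?_⟩
  · apply hy0
    have h2 : kpp ![1, 1, M, M] *ᵥ (kpp ![1, 1, Mᴴ, Mᴴ] *ᵥ y) = (c' * c') • y := by
      nth_rewrite 1 [← hy1]
      rw [mulVec_mulVec, mulVec_mulVec]
      change (kpp ![1, 1, M, M] * kpp ![1, 1, Mᴴ, Mᴴ] * kpp (fun _ : Fin 4 => e)) *ᵥ y = _
      rw [kpp_mul, kpp_mul]
      have h3 : (fun k : Fin 4 => ![1, 1, M, M] k * ![1, 1, Mᴴ, Mᴴ] k * e) =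
          fun k => ![1, 1, c', c'] k • e := by
        funext k
        fin_cases k <;> simp [hc', he2]
      rw [h3, WJ2.kpp_smul, smul_mulVec]
      have h4 : kpp (fun _ : Fin 4 => e) *ᵥ y = y := hy1
      rw [h4]
      congr 1
      simp [Fin.prod_univ_four]
    rw [h1, mulVec_zero] at h2
    exact (smul_eq_zero.1 h2.symm).resolve_left (mul_ne_zero hc0 hc0)
  · rw [← hyE, mulVec_mulVec, kpp_mul]
    congr 2
    funext k
    fin_cases k <;> simp [he2, he'M]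
  · have h1 : dm (Fin 4) Y * kpp ![1, 1, Mᴴ, Mᴴ] = kpp ![1, 1, Mᴴ, Mᴴ] * dm (Fin 4) Y := by
      refine WJ2.dm_comm_kpp fun k => ?_
      fin_cases k <;> simp [hMhc Y hY]
    rw [mulVec_mulVec, h1, ← mulVec_mulVec, hyD Y hY, mulVec_zero]

end

end Pool.Agent.NH32
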