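import Mathlib
import Pool.Agent.NH32.GsA
import Pool.Agent.NH32.WJ7
import Pool.Agent.NH32.WJ2A

/-!
# G2 (job 552, helper59): the conditions are preserved by the group of `L`
-/

set_option linter.unusedSectionVars false

namespace Pool.Agent.NH32

open Matrix Module Pool.Agent.W437.HC

noncomputable section

namespace GJ2

variable {B : Type} [Fintype B] [DecidableEq B] {Om : Matrix B B ℂ}
  {L : Submodule ℂ (Matrix B B ℂ)}

/-- A matrix as a tensor of degree two. -/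
def t2 (N : Matrix B B ℂ) : (Fin 2 → B) → ℂ := fun I => N (I 0) (I 1)

theorem t2_inj {M N : Matrix B B ℂ} (h : t2 M = t2 N) : M = N := by
  ext i j
  exact congrFun h ![i, j]

theorem kp_t2 (u N : Matrix B B ℂ) : kp (Fin 2) u *ᵥ t2 N = t2 (u * N * uᵀ) := by
  funext I
  rw [mvA]
  unfold t2
  rw [Matrix.mul_apply]
  simp only [Matrix.mul_apply, Finset.sum_mul]
  rw [Finset.sum_comm, ← Fintype.sum_prod_type']
  refine Fintype.sum_equiv (finTwoArrowEquiv B) _ _ fun J => ?_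
  rw [kp_apply, Fin.prod_univ_two]
  change u (I 0) (J 0) * u (I 1) (J 1) * N (J 0) (J 1) =
    u (I 0) (J 0) * N (J 0) (J 1) * u (I 1) (J 1)
  ring

theorem dm_t2 (X N : Matrix B B ℂ) : dm (Fin 2) X *ᵥ t2 N = t2 (X * N + N * Xᵀ) := by
  funext I
  rw [dm_mulVec_apply, Fin.sum_univ_two]
  unfold t2
  rw [Matrix.add_apply, Matrix.mul_apply, Matrix.mul_apply]
  congr 1
  refine Finset.sum_congr rfl fun j _ => ?_
  simp [mul_comm]

theorem comm_of_f2 (hO : IsOm Om) (hL : LD Om L) {u : USp Om}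
    (hu : ∀ x ∈ InvL L (Fin 2), kp (Fin 2) (mt u) *ᵥ x = x) {M : Matrix B B ℂ} (hM : M ∈ CM L) :
    mt u * M = M * mt u := by
  have h1 : t2 (M * Om) ∈ InvL L (Fin 2) := by
    rw [mem_InvL]
    intro X hX
    rw [dm_t2]
    have h2 : X * (M * Om) + M * Om * Xᵀ = 0 := by
      have h3 := hO.OXt (hL.sp X hX)
      have h4 : X * M = M * X := hM X hX
      calc X * (M * Om) + M * Om * Xᵀ = (X * M) * Om + M * (Om * Xᵀ) := by noncomm_ring
        _ = 0 := by rw [h3, h4]; noncomm_ring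
    rw [h2]
    rfl
  have h2 := hu _ h1
  rw [kp_t2] at h2
  have h3 := t2_inj h2
  have h5 : Om * (mt u)ᵀ = mt u⁻¹ * Om := by
    have h6 := hO.uOu u
    calc Om * (mt u)ᵀ = (mt u⁻¹ * mt u) * Om * (mt u)ᵀ := by rw [mt_inv_mul, one_mul]
      _ = mt u⁻¹ * (mt u * Om * (mt u)ᵀ) := by noncomm_ring
      _ = _ := by rw [h6]
  have h7 : mt u * M * mt u⁻¹ * Om = M * Om := by
    calc mt u * M * mt u⁻¹ * Om = mt u * M * (mt u⁻¹ * Om) := by noncomm_ring
      _ = mt u * (M * Om) * (mt u)ᵀ := by rw [← h5]; noncomm_ring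
      _ = _ := h3
  have h8 : mt u * M * mt u⁻¹ = M := by
    have h9 := congrArg (fun Z => -(Z * Om)) h7
    beta_reduce at h9
    rw [mul_assoc, mul_assoc M, hO.sq, mul_neg, mul_neg, neg_neg, neg_neg, mul_one, mul_one] at h9
    exact h9
  calc mt u * M = mt u * M * (mt u⁻¹ * mt u) := by rw [mt_inv_mul, mul_one]
    _ = (mt u * M * mt u⁻¹) * mt u := by noncomm_ring
    _ = M * mt u := by rw [h8]

theorem f2_KK {k : USp Om} (hk : k ∈ KK Om L) :
    ∀ x ∈ InvL L (Fin 2), kp (Fin 2) (mt k) *ᵥ x = x := fun x hx => hk (Fin 2) x hx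

theorem det_mul_idem {e a b : Matrix B B ℂ} (he : e * e = e) (hb : b * e = e * b) :
    det (a * b * e + 1 - e) = det (a * e + 1 - e) * det (b * e + 1 - e) := by
  rw [← det_mul]
  congr 1
  have h1 : (a * e + 1 - e) * (b * e + 1 - e) = a * (e * b) * e + a * e - a * (e * e) + b * e + 1
      - e - (e * b) * e - e + e * e := by noncomm_ring
  rw [h1, ← hb, he]
  have h2 : a * (b * e) * e = a * b * (e * e) := by noncomm_ring
  have h3 : b * e * e = b * (e * e) := by noncomm_ring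
  rw [h2, h3, he]
  abel

/-- The determinant relations for the group of `L`. -/
theorem dt_KK (hO : IsOm Om) (hL : LD Om L) {k : USp Om} (hk : k ∈ KK Om L) (s : ℕ)
    (e : Fin s → Matrix B B ℂ) (he : ∀ i, Mi L (e i))
    (htr : ∀ X ∈ L, ∑ i, trace (X * e i) = 0) : ∏ i, det (mt k * e i + 1 - e i) = 1 := by
  choose d P Q hPQ hQP using fun i => WJ2.idem_fac (he i).2.1
  set a : ∀ i, Fin (d i) → B → ℂ := fun i j b => P i b j with ha
  have hPa : ∀ i, (of fun b j => a i j b) = P i := fun i => rfl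
  have hcom : ∀ i, mt k * e i = e i * mt k := fun i => comm_of_f2 hO hL (f2_KK hk) (he i).1
  have hne : WJ7.wJ a ≠ 0 := by
    obtain ⟨J, hJ⟩ := WJ7.exists_wJ_ne a Q (fun i => by rw [hPa]; exact hQP i)
    intro h0
    exact hJ (congrFun h0 J)
  have hinv : WJ7.wJ a ∈ InvL L (Σ i, Fin (d i)) := by
    rw [mem_InvL]
    intro X hX
    have hXe : ∀ i, X * e i = e i * X := fun i => (he i).1 X hX
    have hC := fun i => WJ7.XP (hPQ i) (hQP i) (hXe i)
    funext I
    rw [dm_mulVec_apply]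
    have h1 := WJ7.dm_wJ a X (fun i => Q i * X * P i) (fun i => by rw [hPa]; exact hC i) I
    have h2 : ∑ i, trace (Q i * X * P i) = ∑ i, trace (X * e i) :=
      Finset.sum_congr rfl fun i _ => WJ7.trC (hPQ i) X
    rw [h2, htr X hX, zero_mul] at h1
    exact h1
  have hfix := hk (Σ i, Fin (d i)) (WJ7.wJ a) hinv
  obtain ⟨I, hI⟩ := Function.ne_iff.1 hne
  have h3 := congrFun hfix I
  rw [mvA] at h3
  have hC := fun i => WJ7.XP (hPQ i) (hQP i) (hcom i)
  have h1 := WJ7.kp_wJ a (mt k) (fun i => Q i * mt k * P i) (fun i => by rw [hPa]; exact hC i) I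
  have h2 : ∏ i, det (Q i * mt k * P i) = ∏ i, det (mt k * e i + 1 - e i) :=
    Finset.prod_congr rfl fun i _ => WJ7.detC (hPQ i) (hQP i) (mt k)
  rw [h2] at h1
  have h4 : (∏ i, det (mt k * e i + 1 - e i)) * WJ7.wJ a I = 1 * WJ7.wJ a I := by
    rw [← h1, one_mul]
    exact h3
  exact mul_right_cancel₀ hI h4

end GJ2

theorem kfix_of : St_kfix := by
  intro B _ _ Om L hO hL u hu k hk
  have hk' : k⁻¹ ∈ KK Om L := (KK Om L).inv_mem hk
  refine ⟨?_, ?_, ?_⟩
  · intro x hx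
    rw [mt_mul, kp_mul, ← mulVec_mulVec, hu.f2 x hx]
    exact hk' (Fin 2) x hx
  · intro x hx
    rw [mt_mul, kp_mul, ← mulVec_mulVec, hu.f4 x hx]
    exact hk' (Fin 4) x hx
  · intro s e he htr
    have h1 : ∀ i, det (mt (k⁻¹ * u) * e i + 1 - e i) =
        det (mt k⁻¹ * e i + 1 - e i) * det (mt u * e i + 1 - e i) := by
      intro i
      rw [mt_mul]
      exact GJ2.det_mul_idem (he i).2.1 (GJ2.comm_of_f2 hO hL hu.f2 (he i).1)
    rw [Finset.prod_congr rfl fun i _ => h1 i, Finset.prod_mul_distrib,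
      GJ2.dt_KK hO hL hk' s e he htr, hu.dt s e he htr, one_mul]

end

end Pool.Agent.NH32
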