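import Mathlib
import Pool.Agent.NH32.GsA

/-!
# Project G, G9: counting in the special linear case
-/

set_option linter.unusedSectionVars false

namespace Pool.Agent.NH32

open Matrix NormedSpace

noncomputable section

namespace GJ9

variable {B : Type} [Fintype B] [DecidableEq B] {Om : Matrix B B ℂ}
  {L : Submodule ℂ (Matrix B B ℂ)}

/-! ### exponentials -/

theorem exp_inter {X Y M : Matrix B B ℂ} (h : X * M = M * Y) : exp X * M = M * exp Y := by
  have h1 : ∀ n : ℕ, X ^ n * M = M * Y ^ n := by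
    intro n
    induction n with
    | zero => rw [pow_zero, pow_zero, one_mul, mul_one]
    | succ n ih => rw [pow_succ, mul_assoc, h, ← mul_assoc, ih, mul_assoc, ← pow_succ]
  open scoped Matrix.Norms.Operator in
  have hX := (expSeries_summable' (𝕂 := ℂ) X).hasSum
  open scoped Matrix.Norms.Operator in
  have hY := (expSeries_summable' (𝕂 := ℂ) Y).hasSum
  open scoped Matrix.Norms.Operator in
  have hX' := hX.mul_right M
  open scoped Matrix.Norms.Operator in
  have hY' := hY.mul_left M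
  have e : (fun n : ℕ => ((n.factorial : ℂ)⁻¹ • X ^ n) * M) =
      fun n : ℕ => M * ((n.factorial : ℂ)⁻¹ • Y ^ n) := by
    funext n
    rw [Matrix.smul_mul, Matrix.mul_smul, h1]
  rw [e] at hX'
  have e2 := hX'.unique hY'
  rw [exp_eq_tsum ℂ]
  exact e2

theorem exp_scalar {X Q : Matrix B B ℂ} {c : ℂ} (h : X * Q = c • Q) :
    exp X * Q = Complex.exp c • Q := by
  have h1 : X * Q = Q * diagonal (fun _ => c) := by
    rw [h]
    ext i j
    rw [mul_diagonal, Matrix.smul_apply, smul_eq_mul, mul_comm]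
  rw [exp_inter h1, Matrix.exp_diagonal]
  ext i j
  rw [mul_diagonal, Matrix.smul_apply, smul_eq_mul, mul_comm]
  congr 1
  rw [Pi.coe_exp, Complex.exp_eq_exp_ℂ]

/-! ### the adjoint `st` -/

theorem st_mul (hO : IsOm Om) (M N : Matrix B B ℂ) : st Om (M * N) = st Om N * st Om M := by
  unfold st
  rw [transpose_mul]
  have h : -(Om * Nᵀ * Om) * -(Om * Mᵀ * Om) = Om * Nᵀ * (Om * Om) * Mᵀ * Om := by noncomm_ring
  rw [h, hO.sq]
  noncomm_ring

theorem st_st (hO : IsOm Om) (M : Matrix B B ℂ) : st Om (st Om M) = M := by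
  unfold st
  rw [transpose_neg, transpose_mul, transpose_mul, transpose_transpose, hO.T]
  have h : -(Om * -(-Om * (M * -Om)) * Om) = (Om * Om) * M * (Om * Om) := by noncomm_ring
  rw [h, hO.sq]
  noncomm_ring

theorem st_smul (c : ℂ) (M : Matrix B B ℂ) : st Om (c • M) = c • st Om M := by
  unfold st
  rw [transpose_smul, Matrix.mul_smul, Matrix.smul_mul, smul_neg]

theorem st_conj (hO : IsOm Om) (M : Matrix B B ℂ) : st Om Mᴴ = (st Om M)ᴴ := by
  unfold st
  rw [conjTranspose_neg, conjTranspose_mul, conjTranspose_mul, hO.conjT]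
  have h : (Mᴴ)ᵀ = (Mᵀ)ᴴ := rfl
  rw [h]
  noncomm_ring

theorem st_mem (hO : IsOm Om) (hL : LD Om L) {X : Matrix B B ℂ} (hX : X ∈ L) :
    st Om X = -X := by
  unfold st
  have h1 : Xᵀ * Om = -(Om * X) := eq_neg_of_add_eq_zero_left (hL.sp X hX)
  rw [mul_assoc, h1, mul_neg, ← mul_assoc, hO.sq]
  noncomm_ring

theorem st_CM (hO : IsOm Om) (hL : LD Om L) {M : Matrix B B ℂ} (hM : M ∈ CM L) :
    st Om M ∈ CM L := by
  intro X hX
  have h1 := congrArg (st Om) (hM X hX)
  rw [st_mul hO, st_mul hO, st_mem hO hL hX, mul_neg, neg_mul, neg_inj] at h1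
  exact h1.symm

theorem st_Mi (hO : IsOm Om) (hL : LD Om L) {e : Matrix B B ℂ} (h : Mi L e) :
    Mi L (st Om e) := by
  obtain ⟨h1, h2, h3, h4, h5⟩ := h
  refine ⟨st_CM hO hL h1, ?_, ?_, ?_, ?_⟩
  · rw [← st_mul hO, h2]
  · rw [← st_conj hO, h3]
  · intro h0
    apply h4
    have h6 := congrArg (st Om) h0
    rw [st_st hO] at h6
    rw [h6]
    unfold st
    rw [transpose_zero, mul_zero, zero_mul, neg_zero]
  · intro M hM
    obtain ⟨c, hc⟩ := h5 _ (st_CM hO hL hM)
    refine ⟨c, ?_⟩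
    have h6 := congrArg (st Om) hc
    rw [st_mul hO, st_mul hO, st_st hO, st_smul, ← mul_assoc] at h6
    exact h6

/-! ### the derived algebra -/

theorem Dr_le (hL : LD Om L) : Dr L ≤ L := by
  refine Submodule.span_le.2 ?_
  rintro _ ⟨X, hX, Y, hY, rfl⟩
  exact hL.br X hX Y hY

theorem Dr_adj (hL : LD Om L) {X : Matrix B B ℂ} (hX : X ∈ Dr L) : Xᴴ ∈ Dr L := by
  induction hX using Submodule.span_induction with
  | mem Z hZ =>
    obtain ⟨X, hX, Y, hY, rfl⟩ := hZ
    refine Submodule.subset_span ⟨Yᴴ, hL.adj Y hY, Xᴴ, hL.adj X hX, ?_⟩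
    rw [conjTranspose_sub, conjTranspose_mul, conjTranspose_mul]
  | zero =>
    rw [conjTranspose_zero]
    exact (Dr L).zero_mem
  | add x y _ _ hx hy =>
    rw [conjTranspose_add]
    exact (Dr L).add_mem hx hy
  | smul c x _ hx =>
    rw [conjTranspose_smul]
    exact (Dr L).smul_mem _ hx

/-- `L` is the sum of its centre and its derived algebra. -/
theorem dec (hL : LD Om L) {X : Matrix B B ℂ} (hX : X ∈ L) :
    ∃ s ∈ Dr L, X - s ∈ CM L ∧ ∀ Y ∈ L, Y * (X - s) = (X - s) * Y := by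
  obtain ⟨s, hs, ho⟩ := exists_orth (Dr L) X
  have hz : ∀ Y ∈ L, Y * (X - s) = (X - s) * Y := by
    intro Y hY
    rw [← sub_eq_zero]
    apply trace_self_eq_zero
    obtain ⟨z, hz⟩ : ∃ z, z = X - s := ⟨_, rfl⟩
    have hzL : z ∈ L := by rw [hz]; exact L.sub_mem hX (Dr_le hL hs)
    rw [← hz] at ho ⊢
    obtain ⟨W, hW⟩ : ∃ W, W = Y * z - z * Y := ⟨_, rfl⟩
    have hWL : W ∈ L := by rw [hW]; exact hL.br _ hY _ hzL
    have h1 := ho _ (Submodule.subset_span ⟨Yᴴ, hL.adj Y hY, W, hWL, rfl⟩)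
    rw [← hW, ← h1]
    have h2 : (Yᴴ * W - W * Yᴴ)ᴴ = Wᴴ * Y - Y * Wᴴ := by
      rw [conjTranspose_sub, conjTranspose_mul, conjTranspose_mul, conjTranspose_conjTranspose]
    rw [h2]
    nth_rewrite 2 [hW]
    have h3 : trace (Wᴴ * (Y * z - z * Y)) = trace (Wᴴ * Y * z) - trace (Wᴴ * z * Y) := by
      rw [mul_sub, trace_sub, mul_assoc, mul_assoc]
    have h4 : trace ((Wᴴ * Y - Y * Wᴴ) * z) = trace (Wᴴ * Y * z) - trace (Y * Wᴴ * z) := by
      rw [sub_mul, trace_sub]
    have h5 : trace (Wᴴ * z * Y) = trace (Y * Wᴴ * z) := by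
      rw [trace_mul_comm, mul_assoc]
    rw [h3, h4, h5]
  exact ⟨s, hs, fun Y hY => hz Y hY, hz⟩

/-- The component of an element of the derived algebra in the ideal belonging to `e`. -/
theorem comp_Ide (hL : LD Om L) {e X : Matrix B B ℂ} (he : e ∈ CM L) (heH : eᴴ = e)
    (hX : X ∈ Dr L) : ∃ H ∈ Ide L e, H * e = X * e := by
  let N : Submodule ℂ (Matrix B B ℂ) :=
    { carrier := {Y | Y ∈ Dr L ∧ Y * e = 0}
      add_mem' := by
        rintro a b ⟨h1, h2⟩ ⟨h3, h4⟩
        exact ⟨(Dr L).add_mem h1 h3, by rw [add_mul, h2, h4, add_zero]⟩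
      zero_mem' := ⟨(Dr L).zero_mem, zero_mul _⟩
      smul_mem' := by
        rintro c a ⟨h1, h2⟩
        exact ⟨(Dr L).smul_mem _ h1, by rw [Matrix.smul_mul, h2, smul_zero]⟩ }
  obtain ⟨s, hs, ho⟩ := exists_orth N X
  refine ⟨X - s, ⟨(Dr L).sub_mem hX hs.1, fun Y hY hYe => ?_⟩, ?_⟩
  · have hYN : Yᴴ ∈ N := by
      refine ⟨Dr_adj hL hY, ?_⟩
      have h1 : (e * Y)ᴴ = 0 := by
        rw [← he Y (Dr_le hL hY), hYe, conjTranspose_zero]
      rw [conjTranspose_mul, heH] at h1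
      exact h1
    have h2 := ho _ hYN
    rw [conjTranspose_conjTranspose] at h2
    rw [trace_mul_comm]
    exact h2
  · rw [sub_mul, hs.2, sub_zero]

/-! ### the element `H` -/

theorem trace_ne {e : Matrix B B ℂ} (h1 : e * e = e) (h2 : eᴴ = e) (h3 : e ≠ 0) :
    trace e ≠ 0 := by
  intro h
  apply h3
  apply trace_self_eq_zero
  rw [h2, h1, h]

/-- A rank one projection below `e`. -/
theorem exists_line {e : Matrix B B ℂ} (h1 : e * e = e) (h2 : eᴴ = e) (h3 : e ≠ 0) :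
    ∃ p : Matrix B B ℂ, p * p = p ∧ e * p = p ∧ p * e = p ∧ trace p = 1 := by
  have h4 : ∃ v : B → ℂ, e *ᵥ v ≠ 0 := by
    by_contra hcon
    push Not at hcon
    apply h3
    refine matrix_ext_mulVec fun c => ?_
    rw [hcon, zero_mulVec]
  obtain ⟨v, hv⟩ := h4
  obtain ⟨u, hu⟩ : ∃ u, u = e *ᵥ v := ⟨_, rfl⟩
  rw [← hu] at hv
  have heu : e *ᵥ u = u := by rw [hu, mulVec_mulVec, h1]
  have hn : star u ⬝ᵥ u ≠ 0 := by
    intro h
    apply hv
    open scoped ComplexOrder in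
    exact dotProduct_star_self_eq_zero.1 h
  have hue : star u ᵥ* e = star u := by
    have h5 := congrArg star heu
    rw [star_mulVec, h2] at h5
    exact h5
  refine ⟨(star u ⬝ᵥ u)⁻¹ • vecMulVec u (star u), ?_, ?_, ?_, ?_⟩
  · rw [Matrix.smul_mul, Matrix.mul_smul, vecMulVec_mul_vecMulVec, smul_smul, vecMulVec_smul,
      smul_smul]
    congr 1
    field_simp
  · rw [Matrix.mul_smul, mul_vecMulVec, heu]
  · rw [Matrix.smul_mul, vecMulVec_mul, hue]
  · rw [trace_smul, trace_vecMulVec, smul_eq_mul, dotProduct_comm]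
    exact inv_mul_cancel₀ (by rw [dotProduct_comm]; exact hn)

end GJ9

open GJ9

theorem cnt_of : St_cnt := by
  intro B _ _ Om L hO hL e₀ d hSl htr κ _ _ e M s hk x hx hkx hkill
  obtain ⟨⟨c1, c2, c3, c4, c5⟩, -, hSl3⟩ := hSl
  have hd : (d : ℂ) ≠ 0 := by rw [← htr]; exact trace_ne c2 c3 c4
  obtain ⟨p, p1, p2, p3, p4⟩ := exists_line c2 c3 c4
  obtain ⟨T, hT⟩ : ∃ T, T = p - (d : ℂ)⁻¹ • e₀ := ⟨_, rfl⟩
  obtain ⟨X', hX', hXT⟩ := hSl3 T (by
    rw [hT, mul_sub, sub_mul, p2, p3, Matrix.mul_smul, Matrix.smul_mul, c2, c2])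
    (by rw [hT, trace_sub, trace_smul, p4, htr, smul_eq_mul, inv_mul_cancel₀ hd, sub_self])
  obtain ⟨H, hH, hHe⟩ := comp_Ide hL c1 c3 hX'
  rw [hXT] at hHe
  have hHD : H ∈ Dr L := hH.1
  have hHL : H ∈ L := Dr_le hL hHD
  -- the exponential
  obtain ⟨X, hXdef⟩ : ∃ X, X = (2 * Real.pi * Complex.I : ℂ) • H := ⟨_, rfl⟩
  have hXL : X ∈ L := by rw [hXdef]; exact L.smul_mem _ hHL
  obtain ⟨ζ, hζ⟩ : ∃ ζ, ζ = Complex.exp (-(2 * Real.pi * Complex.I / d)) := ⟨_, rfl⟩
  have hζ0 : ζ ≠ 0 := by rw [hζ]; exact Complex.exp_ne_zero _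
  obtain ⟨z, hz⟩ : ∃ z, z = exp X := ⟨_, rfl⟩
  have hHp : H * p = (1 - (d : ℂ)⁻¹) • p := by
    have h1 : H * p = T * p := by rw [← hHe, mul_assoc, p2]
    rw [h1, hT, sub_mul, p1, Matrix.smul_mul, p2, sub_smul, one_smul]
  have hHq : H * (e₀ - p) = (-(d : ℂ)⁻¹) • (e₀ - p) := by
    rw [mul_sub, hHe, hHp, hT, smul_sub, sub_smul, one_smul, neg_smul, neg_smul]
    abel
  have hzp : z * p = ζ • p := by
    rw [hz, exp_scalar (c := 2 * Real.pi * Complex.I * (1 - (d : ℂ)⁻¹))]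
    · rw [hζ]
      congr 1
      rw [Complex.exp_eq_exp_iff_exists_int]
      exact ⟨1, by push_cast; ring⟩
    · rw [hXdef, Matrix.smul_mul, hHp, smul_smul]
  have hzq : z * (e₀ - p) = ζ • (e₀ - p) := by
    rw [hz, exp_scalar (c := 2 * Real.pi * Complex.I * (-(d : ℂ)⁻¹))]
    · rw [hζ]
      congr 2
      ring
    · rw [hXdef, Matrix.smul_mul, hHq, smul_smul]
  have hze : z * e₀ = ζ • e₀ := by
    have h1 : e₀ = p + (e₀ - p) := by abel
    rw [h1, mul_add, hzp, hzq, smul_add]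
  -- `z` is symplectic
  have hzsp : zᵀ * Om * z = Om := by
    have h1 := exp_sp hO.sq (hL.sp X hXL) 1
    rw [one_smul] at h1
    rw [hz]
    exact h1
  -- the linked idempotents
  have key : ∀ e' N : Matrix B B ℂ, Mi L e' → N ≠ 0 → e₀ * N = N →
      (∀ X ∈ Dr L, X * N = N * X) → N * e' = N → z * e' = ζ • e' := by
    intro e' N he' hN0 hN1 hN2 hN3
    obtain ⟨k1, k2, k3, k4, k5⟩ := he'
    have hN4 : ∀ X ∈ Dr L, X * Nᴴ = Nᴴ * X := by
      intro X hX
      have h1 := congrArg Matrix.conjTranspose (hN2 _ (Dr_adj hL hX))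
      rw [conjTranspose_mul, conjTranspose_mul, conjTranspose_conjTranspose] at h1
      exact h1.symm
    have hN5 : e' * Nᴴ = Nᴴ := by
      have h1 := congrArg Matrix.conjTranspose hN3
      rw [conjTranspose_mul, k3] at h1
      exact h1
    have hcm : Nᴴ * N ∈ CM L := by
      intro Y hY
      obtain ⟨s, hs, hs1, hs2⟩ := dec hL hY
      have e1 : s * (Nᴴ * N) = Nᴴ * N * s := by
        rw [← mul_assoc, hN4 s hs, mul_assoc, hN2 s hs, mul_assoc]
      obtain ⟨c, hc⟩ := k5 _ hs1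
      have hcom : (Y - s) * e' = c • e' := by
        have h1 : (Y - s) ∈ L := L.sub_mem hY (Dr_le hL hs)
        rw [← hc, mul_assoc, k1 _ h1, ← mul_assoc, k2]
      have hcom2 : e' * (Y - s) = c • e' := by
        have h1 : (Y - s) ∈ L := L.sub_mem hY (Dr_le hL hs)
        rw [← k1 _ h1, hcom]
      have e2 : (Y - s) * (Nᴴ * N) = Nᴴ * N * (Y - s) := by
        calc (Y - s) * (Nᴴ * N) = ((Y - s) * e') * Nᴴ * N := by
              rw [mul_assoc (Y - s), hN5, mul_assoc]
          _ = c • (Nᴴ * N) := by rw [hcom, Matrix.smul_mul, hN5, Matrix.smul_mul]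
          _ = Nᴴ * (N * (e' * (Y - s))) := by
              rw [hcom2, Matrix.mul_smul, hN3, Matrix.mul_smul]
          _ = Nᴴ * N * (Y - s) := by rw [← mul_assoc N, hN3, mul_assoc]
      have e3 : Y = s + (Y - s) := by abel
      rw [e3, add_mul, e1, e2, ← mul_add]
    obtain ⟨c, hc⟩ := k5 _ hcm
    have hc2 : Nᴴ * N = c • e' := by
      rw [← hc, ← mul_assoc, hN5, mul_assoc, hN3]
    have hc0 : c ≠ 0 := by
      intro h0
      apply hN0
      apply trace_self_eq_zero
      rw [hc2, h0, zero_smul, trace_zero]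
    have hzN : z * Nᴴ = Nᴴ * z := by
      rw [hz]
      refine exp_inter ?_
      rw [hXdef, Matrix.smul_mul, hN4 H hHD, Matrix.mul_smul]
    have hzN2 : z * N = ζ • N := by
      rw [← hN1, ← mul_assoc, hze, Matrix.smul_mul]
    have h6 : c • (z * e') = c • (ζ • e') := by
      rw [← Matrix.mul_smul, ← hc2, ← mul_assoc, hzN, mul_assoc, hzN2, Matrix.mul_smul, hc2,
        smul_comm]
    exact smul_right_injective _ hc0 h6
  -- the action on `e k`
  have hact : ∀ k, z * e k = (if s k then ζ else ζ⁻¹) • e k := by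
    intro k
    obtain ⟨g1, g2, g3, g4, g5⟩ := hk k
    by_cases hs : s k = true
    · rw [if_pos hs] at g5
      rw [if_pos hs]
      exact key _ _ g1 g2 g3 g4 g5
    · rw [if_neg hs] at g5
      rw [if_neg hs]
      have h1 := key _ _ (st_Mi hO hL g1) g2 g3 g4 g5
      -- `st`
      have h2 : z * (Om * (e k)ᵀ) = ζ • (Om * (e k)ᵀ) := by
        have h3 : st Om (e k) * Om = Om * (e k)ᵀ := by
          unfold st
          rw [neg_mul, mul_assoc, hO.sq, mul_neg, mul_one, neg_neg]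
        have h4 := congrArg (fun A => A * Om) h1
        beta_reduce at h4
        rw [mul_assoc, h3, Matrix.smul_mul, h3] at h4
        exact h4
      have h5 : (e k)ᵀ = ζ • (zᵀ * (e k)ᵀ) := by
        have h6 := congrArg (fun A => zᵀ * Om * A) h2
        beta_reduce at h6
        rw [← mul_assoc, hzsp, ← mul_assoc, hO.sq, Matrix.mul_smul] at h6
        have h7 : zᵀ * Om * (Om * (e k)ᵀ) = -(zᵀ * (e k)ᵀ) := by
          rw [mul_assoc, ← mul_assoc Om, hO.sq]
          noncomm_ring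
        rw [h7, neg_mul, one_mul, smul_neg, neg_inj] at h6
        exact h6
      have h8 : e k = ζ • (e k * z) := by
        have h9 := congrArg Matrix.transpose h5
        rw [transpose_smul, transpose_mul, transpose_transpose, transpose_transpose] at h9
        exact h9
      have h10 : z * e k = e k * z := by
        rw [hz]
        refine exp_inter ?_
        exact g1.1 X hXL
      rw [h10]
      conv_rhs => rw [h8]
      rw [smul_smul, inv_mul_cancel₀ hζ0, one_smul]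
  -- the tensor
  have hfix : kp κ z *ᵥ x = x := by
    have h1 := (isCurve_exp X).fix (exp_zero_smul X) (x := x) (by
      rw [hXdef, dm_smul, smul_mulVec, hkill H hH, smul_zero]) 1
    rw [one_smul] at h1
    rw [hz]
    exact h1
  have hprod : kp κ z * kpp e = (∏ k, (if s k then ζ else ζ⁻¹)) • kpp e := by
    unfold kp
    rw [kpp_mul]
    ext I J
    rw [kpp_apply, Matrix.smul_apply, kpp_apply, smul_eq_mul, ← Finset.prod_mul_distrib]
    refine Finset.prod_congr rfl fun k _ => ?_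
    rw [hact k, Matrix.smul_apply, smul_eq_mul]
  have hone : (∏ k, (if s k then ζ else ζ⁻¹)) = 1 := by
    have h1 : kp κ z *ᵥ (kpp e *ᵥ x) = (∏ k, (if s k then ζ else ζ⁻¹)) • (kpp e *ᵥ x) := by
      rw [mulVec_mulVec, hprod, smul_mulVec]
    rw [hkx, hfix] at h1
    by_contra hne
    apply hx
    have h2 : ((∏ k, (if s k then ζ else ζ⁻¹)) - 1) • x = 0 := by
      rw [sub_smul, one_smul, ← h1, sub_self]
    exact (smul_eq_zero.1 h2).resolve_left (sub_ne_zero.2 hne)
  have hexp : ∀ k, (if s k then ζ else ζ⁻¹) =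
      Complex.exp (-(2 * Real.pi * Complex.I / d) * ((if s k then (1 : ℤ) else -1 : ℤ) : ℂ)) := by
    intro k
    by_cases hs : s k = true
    · rw [if_pos hs, if_pos hs, Int.cast_one, mul_one, hζ]
    · rw [if_neg hs, if_neg hs, hζ, ← Complex.exp_neg]
      congr 1
      push_cast
      ring
  rw [Finset.prod_congr rfl fun k _ => hexp k, ← Complex.exp_sum, ← Finset.mul_sum,
    Complex.exp_eq_one_iff] at hone
  obtain ⟨n, hn⟩ := hone
  refine ⟨-n, ?_⟩
  have hpi : (2 * Real.pi * Complex.I : ℂ) ≠ 0 := Complex.two_pi_I_ne_zero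
  have h1 : (∑ k, ((if s k then (1 : ℤ) else -1 : ℤ) : ℂ)) = d * (-n) := by
    have h2 : (2 * Real.pi * Complex.I : ℂ) * (∑ k, ((if s k then (1 : ℤ) else -1 : ℤ) : ℂ)) =
        (2 * Real.pi * Complex.I : ℂ) * (d * (-n)) := by
      have h3 : (2 * Real.pi * Complex.I : ℂ) * (∑ k, ((if s k then (1 : ℤ) else -1 : ℤ) : ℂ)) =
          -d * (-(2 * Real.pi * Complex.I / d) *
            (∑ k, ((if s k then (1 : ℤ) else -1 : ℤ) : ℂ))) := by
        field_simp
      rw [h3, hn]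
      ring
    exact mul_left_cancel₀ hpi h2
  exact_mod_cast h1

end

end Pool.Agent.NH32
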