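import Pool.Agent.NH32.GtA
import Pool.Agent.NH32.GJ1
import Pool.Agent.NH32.GJ2
import Pool.Agent.NH32.GJ9
import Pool.Agent.NH32.Max

/-!
# The recursion for products of minimal idempotents; traces on half spin modules
-/

set_option linter.unusedSectionVars false

namespace Pool.Agent.NH32

open Matrix Module

noncomputable section

namespace GH12

variable {B : Type} [Fintype B] [DecidableEq B]

/-! ### One factor split off -/

section split

variable {κ : Type} [Fintype κ] [DecidableEq κ]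

/-- a tensor as a matrix: the factor `k0` is split off -/
def Mx (k0 : κ) (x : (κ → B) → ℂ) : Matrix ({k // k ≠ k0} → B) B ℂ :=
  of fun I b => x ((Equiv.funSplitAt k0 B).symm (b, I))

theorem Mx_inj (k0 : κ) {x y : (κ → B) → ℂ} (h : Mx k0 x = Mx k0 y) : x = y := by
  funext J
  have h1 := congrFun (congrFun h ((Equiv.funSplitAt k0 B J).2)) ((Equiv.funSplitAt k0 B J).1)
  change x ((Equiv.funSplitAt k0 B).symm (Equiv.funSplitAt k0 B J)) =
    y ((Equiv.funSplitAt k0 B).symm (Equiv.funSplitAt k0 B J)) at h1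
  rwa [Equiv.symm_apply_apply] at h1

theorem Mx_zero (k0 : κ) : Mx k0 (0 : (κ → B) → ℂ) = 0 := rfl

theorem Mx_sum (k0 : κ) {ι : Type} (s : Finset ι) (x : ι → (κ → B) → ℂ) :
    Mx k0 (∑ i ∈ s, x i) = ∑ i ∈ s, Mx k0 (x i) := by
  ext I b
  rw [Matrix.sum_apply]
  exact Finset.sum_apply _ _ _

theorem ins_self (k0 : κ) (b : B) (I : {k // k ≠ k0} → B) :
    (Equiv.funSplitAt k0 B).symm (b, I) k0 = b := by
  simp [Equiv.funSplitAt]

theorem ins_ne (k0 : κ) (b : B) (I : {k // k ≠ k0} → B) (k : {k // k ≠ k0}) :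
    (Equiv.funSplitAt k0 B).symm (b, I) k.1 = I k := by
  simp [Equiv.funSplitAt, k.2]

theorem Mx_kpp (k0 : κ) (A : κ → Matrix B B ℂ) (x : (κ → B) → ℂ) :
    Mx k0 (kpp A *ᵥ x) = kpp (fun k : {k // k ≠ k0} => A k.1) * Mx k0 x * (A k0)ᵀ := by
  ext I b
  have h1 : Mx k0 (kpp A *ᵥ x) I b = ∑ J, kpp A ((Equiv.funSplitAt k0 B).symm (b, I)) J * x J := rfl
  rw [h1, ← (Equiv.funSplitAt k0 B).symm.sum_comp, Fintype.sum_prod_type, Matrix.mul_apply]
  refine Finset.sum_congr rfl fun b' _ => ?_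
  rw [Matrix.mul_apply, Finset.sum_mul]
  refine Finset.sum_congr rfl fun I' _ => ?_
  have h2 : kpp A ((Equiv.funSplitAt k0 B).symm (b, I)) ((Equiv.funSplitAt k0 B).symm (b', I')) =
      A k0 b b' * kpp (fun k : {k // k ≠ k0} => A k.1) I I' := by
    rw [kpp_apply, kpp_apply, Fintype.prod_eq_mul_prod_subtype_ne _ k0, ins_self, ins_self]
    congr 1
    refine Finset.prod_congr rfl fun k _ => ?_
    rw [ins_ne, ins_ne]
  rw [h2, transpose_apply]
  change _ * Mx k0 x I' b' = _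
  ring

theorem Mx_kp (k0 : κ) (u : Matrix B B ℂ) (x : (κ → B) → ℂ) :
    Mx k0 (kp κ u *ᵥ x) = kp {k // k ≠ k0} u * Mx k0 x * uᵀ := Mx_kpp k0 _ x

theorem Mx_dm (k0 : κ) (X : Matrix B B ℂ) (x : (κ → B) → ℂ) :
    Mx k0 (dm κ X *ᵥ x) = dm {k // k ≠ k0} X * Mx k0 x + Mx k0 x * Xᵀ := by
  have h1 : dm κ X *ᵥ x = ∑ k, kpp (Function.update (fun _ => (1 : Matrix B B ℂ)) k X) *ᵥ x := by
    unfold dm kd
    rw [sum_mulVec]
  rw [h1, Mx_sum, Fintype.sum_eq_add_sum_subtype_ne _ k0, add_comm]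
  congr 1
  · have h2 : dm {k // k ≠ k0} X * Mx k0 x = ∑ k : {k // k ≠ k0},
        kpp (Function.update (fun _ => (1 : Matrix B B ℂ)) k X) * Mx k0 x := by
      unfold dm kd
      rw [Matrix.sum_mul]
    rw [h2]
    refine Finset.sum_congr rfl fun k _ => ?_
    rw [Mx_kpp, Function.update_of_ne (Ne.symm k.2), transpose_one, Matrix.mul_one]
    congr 2
    funext l
    by_cases hl : l = k
    · subst hl
      rw [Function.update_self, Function.update_self]
    · rw [Function.update_of_ne hl, Function.update_of_ne (fun h => hl (Subtype.ext h))]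
  · rw [Mx_kpp, Function.update_self]
    have h3 : (fun k : {k // k ≠ k0} =>
        Function.update (fun _ => (1 : Matrix B B ℂ)) k0 X k.1) = fun _ => 1 := by
      funext k
      rw [Function.update_of_ne k.2]
    rw [h3, kpp_one, Matrix.one_mul]

theorem dm_T (X : Matrix B B ℂ) : (dm κ X)ᵀ = dm κ Xᵀ := by
  unfold dm kd
  rw [transpose_sum]
  refine Finset.sum_congr rfl fun k _ => ?_
  rw [kpp_transpose]
  congr 1
  funext l
  by_cases hl : l = k
  · subst hl
    rw [Function.update_self, Function.update_self]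
  · rw [Function.update_of_ne hl, Function.update_of_ne hl, transpose_one]

theorem kpp_flat {κ' : Type} [Fintype κ'] [DecidableEq κ'] (A : κ → Matrix B B ℂ)
    (A' : κ' → Matrix B B ℂ) (M : Matrix (κ → B) (κ' → B) ℂ) :
    kpp (Sum.elim A A') *ᵥ flat M = flat (kpp A * M * (kpp A')ᵀ) := by
  funext S
  rw [mvA]
  unfold flat
  rw [Matrix.mul_apply]
  simp only [Matrix.mul_apply, Finset.sum_mul]
  rw [Finset.sum_comm, ← Fintype.sum_prod_type']
  refine Fintype.sum_equiv (Equiv.sumArrowEquivProdArrow κ κ' B) _ _ fun J => ?_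
  have h1 : kpp (Sum.elim A A') S J = kpp A (fun k => S (Sum.inl k)) (fun k => J (Sum.inl k)) *
      kpp A' (fun k => S (Sum.inr k)) (fun k => J (Sum.inr k)) := by
    rw [kpp_apply, kpp_apply, kpp_apply, Fintype.prod_sum_type]
    rfl
  rw [h1, transpose_apply]
  change _ * M (fun k => J (Sum.inl k)) (fun k => J (Sum.inr k)) =
    kpp A (fun k => S (Sum.inl k)) (fun k => J (Sum.inl k)) *
      M (fun k => J (Sum.inl k)) (fun k => J (Sum.inr k)) *
      kpp A' (fun k => S (Sum.inr k)) (fun k => J (Sum.inr k))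
  ring

end split

/-! ### Minimal idempotents -/

section mini

variable {Om : Matrix B B ℂ} {L : Submodule ℂ (Matrix B B ℂ)}

/-- the rank of an idempotent -/
def rk (e : Matrix B B ℂ) : ℕ := ⌊(trace e).re⌋₊

theorem rk_eq {e : Matrix B B ℂ} (he : e * e = e) : trace e = (rk e : ℂ) := by
  obtain ⟨r, hr, -, -⟩ := WJ2.idem_trace he
  unfold rk
  rw [hr, Complex.natCast_re, Nat.floor_natCast]

theorem rk_pos {e : Matrix B B ℂ} (he : e * e = e) (h0 : e ≠ 0) : 0 < rk e := by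
  obtain ⟨r, hr, h1, -⟩ := WJ2.idem_trace he
  have h2 := rk_eq he
  rw [hr] at h2
  have h3 : r = rk e := by exact_mod_cast h2
  rw [← h3]
  exact h1 h0

theorem rk_zero {e : Matrix B B ℂ} (he : e * e = e) (h0 : rk e = 0) : e = 0 := by
  by_contra h
  have := rk_pos he h
  omega

/-- a Hermitian idempotent of the commutant is a sum of minimal ones -/
theorem exists_dec (hadj : ∀ X ∈ L, Xᴴ ∈ L) : ∀ (m : ℕ) (p : Matrix B B ℂ), p ∈ CM L → p * p = p →
    pᴴ = p → rk p ≤ m → ∃ (s : ℕ) (E : Fin s → Matrix B B ℂ), (∀ i, Mi L (E i)) ∧ ∑ i, E i = p := by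
  intro m
  induction m with
  | zero =>
    intro p _ hp2 _ hr
    have h0 : p = 0 := rk_zero hp2 (by omega)
    exact ⟨0, Fin.elim0, fun i => i.elim0, by rw [h0]; simp⟩
  | succ m ih =>
    intro p hp hp2 hpH hr
    by_cases hp0 : p = 0
    · exact ⟨0, Fin.elim0, fun i => i.elim0, by rw [hp0]; simp⟩
    -- a nonzero Hermitian idempotent of the commutant below `p` of minimal rank
    have hex : ∃ r : ℕ, ∃ e : Matrix B B ℂ, e ∈ CM L ∧ e * e = e ∧ eᴴ = e ∧ e ≠ 0 ∧ p * e = e ∧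
        rk e = r := ⟨rk p, p, hp, hp2, hpH, hp0, hp2, rfl⟩
    classical
    obtain ⟨e, he, he2, heH, he0, hpe, her⟩ := Nat.find_spec hex
    have hmin := fun r (hr : r < Nat.find hex) => Nat.find_min hex hr
    rw [← her] at hmin
    have hep : e * p = e := by
      have h1 := congrArg conjTranspose hpe
      rwa [conjTranspose_mul, hpH, heH] at h1
    have hMi : Mi L e := by
      refine ⟨he, he2, heH, he0, fun M hM => ?_⟩
      -- an eigenvalue of `e M e` on the range of `e`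
      obtain ⟨N, hN⟩ : ∃ N, N = e * M * e := ⟨_, rfl⟩
      rw [← hN]
      have hNe : N * e = N := by rw [hN, mul_assoc, he2]
      have heN : e * N = N := by rw [hN, ← mul_assoc, ← mul_assoc, he2]
      have hNC : N ∈ CM L := by
        intro X hX
        rw [hN, ← mul_assoc, ← mul_assoc, he X hX, mul_assoc e X M, hM X hX, mul_assoc e (M * X) e,
          mul_assoc M X e, he X hX]
        noncomm_ring
      let V : Submodule ℂ (B → ℂ) := LinearMap.range (Matrix.toLin' e)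
      have hV : ∀ v ∈ V, e *ᵥ v = v := by
        rintro _ ⟨w, rfl⟩
        rw [toLin'_apply, mulVec_mulVec, he2]
      have hVn : Nontrivial V := by
        obtain ⟨w, hw⟩ : ∃ w, e *ᵥ w ≠ 0 := by
          by_contra hcon
          push Not at hcon
          apply he0
          refine matrix_ext_mulVec fun c => ?_
          rw [hcon c, zero_mulVec]
        exact ⟨⟨⟨e *ᵥ w, w, toLin'_apply _ _⟩, 0, fun h => hw (congrArg Subtype.val h)⟩⟩
      let F : V →ₗ[ℂ] V := (Matrix.toLin' N).restrict (p := V) (q := V) fun v _ =>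
        ⟨N *ᵥ v, by rw [toLin'_apply, toLin'_apply, mulVec_mulVec, heN]⟩
      obtain ⟨c, hc⟩ := Module.End.exists_eigenvalue F
      obtain ⟨v, hv⟩ := hc.exists_hasEigenvector
      have hv1 : N *ᵥ (v : B → ℂ) = c • (v : B → ℂ) := by
        have h1 := congrArg Subtype.val hv.apply_eq_smul
        exact h1
      have hv0 : (v : B → ℂ) ≠ 0 := fun h => hv.2 (Subtype.ext h)
      refine ⟨c, ?_⟩
      let K : Submodule ℂ (B → ℂ) :=
        { carrier := {w | e *ᵥ w = w ∧ N *ᵥ w = c • w}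
          add_mem' := by
            rintro a b ⟨h1, h2⟩ ⟨h3, h4⟩
            exact ⟨by rw [mulVec_add, h1, h3], by rw [mulVec_add, h2, h4, smul_add]⟩
          zero_mem' := ⟨mulVec_zero _, by rw [mulVec_zero, smul_zero]⟩
          smul_mem' := by
            rintro a b ⟨h1, h2⟩
            exact ⟨by rw [mulVec_smul, h1], by rw [mulVec_smul, h2, smul_comm]⟩ }
      obtain ⟨q, hqH, hq1, hq2⟩ := exists_proj K
      have hqC : q ∈ CM L := by
        have h1 : ∀ X ∈ L, X * q = q * X * q := by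
          intro X hX
          refine matrix_ext_mulVec fun x => ?_
          rw [← mulVec_mulVec, ← mulVec_mulVec, ← mulVec_mulVec]
          refine (hq2 _ ?_).symm
          obtain ⟨h2, h3⟩ := hq1 x
          refine ⟨?_, ?_⟩
          · rw [mulVec_mulVec, ← he X hX, ← mulVec_mulVec, h2]
          · rw [mulVec_mulVec, ← hNC X hX, ← mulVec_mulVec, h3, mulVec_smul]
        intro X hX
        have h3 := congrArg conjTranspose (h1 _ (hadj X hX))
        rw [conjTranspose_mul, conjTranspose_mul, conjTranspose_mul, conjTranspose_conjTranspose,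
          hqH] at h3
        calc X * q = q * X * q := h1 X hX
          _ = q * (X * q) := mul_assoc _ _ _
          _ = q * X := h3.symm
      have hqq : q * q = q := by
        refine matrix_ext_mulVec fun x => ?_
        rw [← mulVec_mulVec, hq2 _ (hq1 x)]
      have heq : e * q = q := by
        refine matrix_ext_mulVec fun x => ?_
        rw [← mulVec_mulVec, (hq1 x).1]
      have hqe : q * e = q := by
        have h1 := congrArg conjTranspose heq
        rwa [conjTranspose_mul, hqH, heH] at h1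
      have hq0 : q ≠ 0 := by
        rintro rfl
        have h1 := hq2 (v : B → ℂ) ⟨hV _ v.2, hv1⟩
        rw [zero_mulVec] at h1
        exact hv0 h1.symm
      -- `q = e` by minimality
      have hd : (e - q) * (e - q) = e - q := by
        rw [sub_mul, mul_sub, mul_sub, he2, heq, hqe, hqq, sub_self, sub_zero]
      have hr1 : rk q = rk e := by
        have h1 := rk_eq hqq
        have h2 := rk_eq hd
        have h3 := rk_eq he2
        rw [trace_sub, h1, h3] at h2
        have h4 : rk e = rk (e - q) + rk q := by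
          have h5 : (rk e : ℂ) = (rk (e - q) : ℂ) + rk q := by rw [← h2]; ring
          exact_mod_cast h5
        by_contra hne
        exact hmin (rk q) (by omega) ⟨q, hqC, hqq, hqH, hq0, by rw [← heq, ← mul_assoc, hpe], rfl⟩
      have hqe' : e - q = 0 := by
        apply rk_zero hd
        have h1 := rk_eq hqq
        have h2 := rk_eq hd
        have h3 := rk_eq he2
        rw [trace_sub, h1, h3, hr1, sub_self] at h2
        exact_mod_cast h2.symm
      have hqe2 : q = e := (sub_eq_zero.1 hqe').symm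
      refine matrix_ext_mulVec fun x => ?_
      rw [← hNe, ← mulVec_mulVec, ← hqe2, (hq1 x).2, smul_mulVec]
    -- the complement
    have hd : (p - e) * (p - e) = p - e := by
      rw [sub_mul, mul_sub, mul_sub, hp2, hep, hpe, he2, sub_self, sub_zero]
    have hdC : p - e ∈ CM L := (CM L).sub_mem hp he
    have hdH : (p - e)ᴴ = p - e := by rw [conjTranspose_sub, hpH, heH]
    have hdr : rk (p - e) ≤ m := by
      have h1 := rk_eq hp2
      have h2 := rk_eq hd
      have h3 := rk_eq he2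
      rw [trace_sub, h1, h3] at h2
      have h4 : rk p = rk (p - e) + rk e := by
        have h5 : (rk p : ℂ) = (rk (p - e) : ℂ) + rk e := by rw [← h2]; ring
        exact_mod_cast h5
      have h5 := rk_pos he2 he0
      omega
    obtain ⟨s, E, hE, hsum⟩ := ih _ hdC hd hdH hdr
    refine ⟨s + 1, Fin.cons e E, ?_, ?_⟩
    · intro i
      refine Fin.cases ?_ (fun i => ?_) i
      · exact hMi
      · exact hE i
    · rw [Fin.sum_univ_succ]
      simp only [Fin.cons_zero, Fin.cons_succ]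
      rw [hsum]
      abel

/-! ### The recursion -/

theorem fix_split {κ : Type} [Fintype κ] [DecidableEq κ] {A : κ → Matrix B B ℂ}
    (hA : ∀ k, A k * A k = A k) {x : (κ → B) → ℂ} (hx : kpp A *ᵥ x = x) (k0 : κ) :
    kpp (fun k : {k // k ≠ k0} => A k.1) * Mx k0 x = Mx k0 x ∧ Mx k0 x * (A k0)ᵀ = Mx k0 x := by
  have h1 := Mx_kpp k0 A x
  rw [hx] at h1
  have h2 : kpp (fun k : {k // k ≠ k0} => A k.1) * kpp (fun k : {k // k ≠ k0} => A k.1) =
      kpp (fun k : {k // k ≠ k0} => A k.1) := by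
    rw [kpp_mul]
    congr 1
    funext k
    exact hA k.1
  have h3 : (A k0)ᵀ * (A k0)ᵀ = (A k0)ᵀ := by rw [← transpose_mul, hA]
  constructor
  · calc kpp (fun k : {k // k ≠ k0} => A k.1) * Mx k0 x
        = kpp (fun k : {k // k ≠ k0} => A k.1) *
          (kpp (fun k : {k // k ≠ k0} => A k.1) * Mx k0 x * (A k0)ᵀ) := by rw [← h1]
      _ = (kpp (fun k : {k // k ≠ k0} => A k.1) * kpp (fun k : {k // k ≠ k0} => A k.1)) *
          Mx k0 x * (A k0)ᵀ := by simp only [Matrix.mul_assoc]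
      _ = _ := by rw [h2, ← h1]
  · calc Mx k0 x * (A k0)ᵀ
        = (kpp (fun k : {k // k ≠ k0} => A k.1) * Mx k0 x * (A k0)ᵀ) * (A k0)ᵀ := by rw [← h1]
      _ = kpp (fun k : {k // k ≠ k0} => A k.1) * Mx k0 x * ((A k0)ᵀ * (A k0)ᵀ) := by
          simp only [Matrix.mul_assoc]
      _ = _ := by rw [h3, ← h1]

open scoped ComplexOrder in
theorem mul_H_zero {m : Type} [Fintype m] {Q : Matrix B m ℂ} (h : Q * Qᴴ = 0) : Q = 0 :=
  Matrix.self_mul_conjTranspose_eq_zero.1 h

theorem four_lt {a b c : ℕ} (ha : a < c) (hb : b < c) (hc : 2 ≤ c) : 4 ^ a + 4 ^ b + 4 < 4 ^ c := by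
  obtain ⟨d, rfl⟩ : ∃ d, c = d + 1 := ⟨c - 1, by omega⟩
  have h1 : 4 ^ a ≤ 4 ^ d := Nat.pow_le_pow_right (by norm_num) (by omega)
  have h2 : 4 ^ b ≤ 4 ^ d := Nat.pow_le_pow_right (by norm_num) (by omega)
  have h3 : 4 ^ 1 ≤ 4 ^ d := Nat.pow_le_pow_right (by norm_num) (by omega)
  have h4 : 4 ^ (d + 1) = 4 * 4 ^ d := by rw [pow_succ]; ring
  omega

theorem rec_claim (hO : IsOm Om) (hL : LD Om L) {u : USp Om} (hu : FixU Om L u)
    {T : Set (Matrix B B ℂ)} (hLi : ∀ e, Li L e → e ∈ T)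
    (hst : ∀ e, Mi L e → e ∈ T ∨ ∃ e₁ e₂ f, Mi L e₁ ∧ Mi L e₂ ∧ Li L f ∧
      (trace e₁).re < (trace e).re ∧ (trace e₂).re < (trace e).re ∧ ∃ t ∈ InvL L (Fin 4), t ≠ 0 ∧
      kpp ![st Om e, e₁, e₂, f] *ᵥ t = t)
    (hT : ∀ (κ : Type) [Fintype κ] [DecidableEq κ] (e : κ → Matrix B B ℂ), (∀ k, e k ∈ T) →
      ∀ x ∈ InvL L κ, kpp e *ᵥ x = x → kp κ (mt u) *ᵥ x = x) :
    ∀ (N : ℕ) (κ : Type) [Fintype κ] [DecidableEq κ] (e : κ → Matrix B B ℂ), (∀ k, Mi L (e k)) →
      ∑ k, 4 ^ rk (e k) ≤ N → ∀ x ∈ InvL L κ, kpp e *ᵥ x = x → kp κ (mt u) *ᵥ x = x := by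
  intro N
  induction N using Nat.strong_induction_on with
  | _ N ih =>
  intro κ _ _ e he hN x hx hex
  by_cases hall : ∀ k, e k ∈ T
  · exact hT κ e hall x hx hex
  push Not at hall
  obtain ⟨k0, hk0⟩ := hall
  obtain ⟨e₁, e₂, f, h1, h2, hf, hr1, hr2, t, ht, ht0, hte⟩ := (hst _ (he k0)).resolve_left hk0
  obtain ⟨a, ha⟩ : ∃ a : Fin 4 → Matrix B B ℂ, a = ![st Om (e k0), e₁, e₂, f] := ⟨_, rfl⟩
  have ha0 : a 0 = st Om (e k0) := by rw [ha]; rfl
  have ha1 : a 1 = e₁ := by rw [ha]; rfl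
  have ha2 : a 2 = e₂ := by rw [ha]; rfl
  have ha3 : a 3 = f := by rw [ha]; rfl
  rw [← ha] at hte
  have hstM : Mi L (st Om (e k0)) := GJ9.st_Mi hO hL (he k0)
  have haM : ∀ j, Mi L (a j) := by
    intro j
    fin_cases j
    · change Mi L (a 0)
      rw [ha0]
      exact hstM
    · change Mi L (a 1)
      rw [ha1]
      exact h1
    · change Mi L (a 2)
      rw [ha2]
      exact h2
    · change Mi L (a 3)
      rw [ha3]
      exact hf.1
  obtain ⟨hPe, hPe0⟩ := fix_split (fun k => (he k).2.1) hex k0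
  obtain ⟨hQe', hQe0'⟩ := fix_split (fun k => (haM k).2.1) hte 0
  obtain ⟨P, hP⟩ : ∃ P, P = Mx k0 x := ⟨_, rfl⟩
  obtain ⟨Q, hQ⟩ : ∃ Q, Q = (Mx 0 t)ᵀ := ⟨_, rfl⟩
  have hQT : Mx 0 t = Qᵀ := by rw [hQ, transpose_transpose]
  rw [← hP] at hPe hPe0
  rw [hQT] at hQe' hQe0'
  have hQe : Q * (kpp fun k : {k : Fin 4 // k ≠ 0} => a k.1)ᵀ = Q := by
    have h3 := congrArg Matrix.transpose hQe'
    rwa [transpose_mul, transpose_transpose] at h3
  have hQe0 : st Om (e k0) * Q = Q := by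
    have h3 := congrArg Matrix.transpose hQe0'
    rwa [transpose_mul, transpose_transpose, transpose_transpose, ha0] at h3
  have hPi : ∀ X ∈ L, dm {k // k ≠ k0} X * P = -(P * Xᵀ) := by
    intro X hX
    have h3 := Mx_dm k0 X x
    rw [hx X hX, Mx_zero, ← hP] at h3
    exact eq_neg_of_add_eq_zero_left h3.symm
  have hQi : ∀ X ∈ L, Q * dm {k : Fin 4 // k ≠ 0} Xᵀ = -(X * Q) := by
    intro X hX
    have h3 := Mx_dm 0 X t
    rw [ht X hX, Mx_zero, hQT] at h3
    have h4 := congrArg Matrix.transpose h3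
    rw [transpose_add, transpose_mul, transpose_mul, transpose_transpose, transpose_transpose,
      dm_T, transpose_zero] at h4
    exact eq_neg_of_add_eq_zero_left h4.symm
  -- the new tensor
  have hx' : flat (P * Om * Q) ∈ InvL L ({k // k ≠ k0} ⊕ {k : Fin 4 // k ≠ 0}) := by
    intro X hX
    have h3 : dm {k // k ≠ k0} X * (P * Om * Q) + P * Om * Q * dm {k : Fin 4 // k ≠ 0} Xᵀ = 0 := by
      have h4 : dm {k // k ≠ k0} X * (P * Om * Q) = (dm {k // k ≠ k0} X * P) * Om * Q := by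
        simp only [Matrix.mul_assoc]
      rw [h4, hPi X hX, Matrix.mul_assoc (P * Om), hQi X hX]
      have h5 : -(P * Xᵀ) * Om * Q + P * Om * -(X * Q) = -(P * (Xᵀ * Om + Om * X) * Q) := by
        rw [Matrix.mul_add, Matrix.add_mul]
        simp only [Matrix.mul_assoc, Matrix.neg_mul, Matrix.mul_neg, neg_add]
      rw [h5, hL.sp X hX, Matrix.mul_zero, Matrix.zero_mul, neg_zero]
    rw [dm_flat, h3]
    rfl
  have hex' : kpp (Sum.elim (fun k : {k // k ≠ k0} => e k.1) fun k : {k : Fin 4 // k ≠ 0} => a k.1)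
      *ᵥ flat (P * Om * Q) = flat (P * Om * Q) := by
    rw [kpp_flat]
    congr 1
    have h4 : kpp (fun k : {k // k ≠ k0} => e k.1) * (P * Om * Q) =
        (kpp (fun k : {k // k ≠ k0} => e k.1) * P) * Om * Q := by simp only [Matrix.mul_assoc]
    rw [h4, hPe, Matrix.mul_assoc (P * Om), hQe]
  -- the ranks
  have hrk1 : rk e₁ < rk (e k0) := by
    have h3 : ((rk e₁ : ℝ)) < rk (e k0) := by
      rw [rk_eq h1.2.1, rk_eq (he k0).2.1, Complex.natCast_re, Complex.natCast_re] at hr1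
      exact hr1
    exact_mod_cast h3
  have hrk2 : rk e₂ < rk (e k0) := by
    have h3 : ((rk e₂ : ℝ)) < rk (e k0) := by
      rw [rk_eq h2.2.1, rk_eq (he k0).2.1, Complex.natCast_re, Complex.natCast_re] at hr2
      exact hr2
    exact_mod_cast h3
  have hrkf : rk f = 1 := by
    have h3 := rk_eq hf.1.2.1
    rw [hf.2] at h3
    exact_mod_cast h3.symm
  have hrk0 : 2 ≤ rk (e k0) := by
    have h3 := rk_pos (he k0).2.1 (he k0).2.2.2.1
    have h4 : rk (e k0) ≠ 1 := by
      intro h4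
      apply hk0
      refine hLi _ ⟨he k0, ?_⟩
      rw [rk_eq (he k0).2.1, h4, Nat.cast_one]
    omega
  have hlt : ∑ k, 4 ^ rk ((Sum.elim (fun k : {k // k ≠ k0} => e k.1)
      fun k : {k : Fin 4 // k ≠ 0} => a k.1) k) < N := by
    rw [Fintype.sum_sum_type]
    simp only [Sum.elim_inl, Sum.elim_inr]
    have h3 := Fintype.sum_eq_add_sum_subtype_ne (fun k => 4 ^ rk (e k)) k0
    have h4 := Fintype.sum_eq_add_sum_subtype_ne (fun k : Fin 4 => 4 ^ rk (a k)) 0
    rw [Fin.sum_univ_four, ha1, ha2, ha3, hrkf] at h4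
    have h5 := four_lt hrk1 hrk2 hrk0
    omega
  have hind := ih _ hlt ({k // k ≠ k0} ⊕ {k : Fin 4 // k ≠ 0})
    (Sum.elim (fun k : {k // k ≠ k0} => e k.1) fun k : {k : Fin 4 // k ≠ 0} => a k.1)
    (by
      rintro (k | k)
      · exact he k.1
      · exact haM k.1) le_rfl _ hx' hex'
  rw [kp_flat] at hind
  have hind' := flat_inj hind
  -- `u` and the tensor `t`
  have hut : mt u * Q * kp {k : Fin 4 // k ≠ 0} (mt u)ᵀ = Q := by
    have h3 := Mx_kp 0 (mt u) t
    rw [hu.f4 t ht, hQT] at h3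
    have h4 := congrArg Matrix.transpose h3
    rw [transpose_mul, transpose_mul, transpose_transpose, transpose_transpose,
      kp_transpose, ← Matrix.mul_assoc] at h4
    exact h4.symm
  have hsp := mt_sp u
  have hcomm : mt u * e k0 = e k0 * mt u := GJ1.comm hO hL ⟨hu.f2, hu.f4⟩ (he k0).1
  obtain ⟨Y, hY⟩ : ∃ Y, Y = kp {k // k ≠ k0} (mt u) * P * (mt u)ᵀ := ⟨_, rfl⟩
  have hYQ : Y * Om * Q = P * Om * Q := by
    calc Y * Om * Q = Y * Om * (mt u * Q * kp {k : Fin 4 // k ≠ 0} (mt u)ᵀ) := by rw [hut]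
      _ = kp {k // k ≠ k0} (mt u) * P * ((mt u)ᵀ * Om * mt u) * Q *
          kp {k : Fin 4 // k ≠ 0} (mt u)ᵀ := by
          rw [hY]
          simp only [Matrix.mul_assoc]
      _ = kp {k // k ≠ k0} (mt u) * (P * Om * Q) * kp {k : Fin 4 // k ≠ 0} (mt u)ᵀ := by
          rw [hsp]
          simp only [Matrix.mul_assoc]
      _ = _ := hind'
  have hYe : Y * (e k0)ᵀ = Y := by
    have h3 : (mt u)ᵀ * (e k0)ᵀ = (e k0)ᵀ * (mt u)ᵀ := by
      rw [← transpose_mul, ← transpose_mul, hcomm]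
    rw [hY, Matrix.mul_assoc, h3, ← Matrix.mul_assoc, Matrix.mul_assoc _ P, hPe0]
  obtain ⟨W, hW⟩ : ∃ W, W = Y - P := ⟨_, rfl⟩
  have hWQ : W * Om * Q = 0 := by
    rw [hW, Matrix.sub_mul, Matrix.sub_mul, hYQ, sub_self]
  have hWe : W * (e k0)ᵀ = W := by rw [hW, Matrix.sub_mul, hYe, hPe0]
  -- the commutant
  have hQH : ∀ X ∈ L, Qᴴ * X = -(dm {k : Fin 4 // k ≠ 0} Xᵀ * Qᴴ) := by
    intro X hX
    have h3 := congrArg conjTranspose (hQi _ (hL.adj X hX))
    rw [conjTranspose_mul, conjTranspose_neg, conjTranspose_mul, conjTranspose_conjTranspose,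
      dm_conjTranspose] at h3
    have h4 : ((Xᴴ)ᵀ)ᴴ = Xᵀ := by
      ext i j
      simp [conjTranspose_apply]
    rw [h4] at h3
    rw [h3, neg_neg]
  have hC : Q * Qᴴ ∈ CM L := by
    intro X hX
    have h3 : X * Q = -(Q * dm {k : Fin 4 // k ≠ 0} Xᵀ) := by rw [hQi X hX, neg_neg]
    rw [← Matrix.mul_assoc, h3, Matrix.mul_assoc Q Qᴴ X, hQH X hX]
    simp only [Matrix.mul_assoc, Matrix.neg_mul, Matrix.mul_neg]
  obtain ⟨c, hc⟩ := hstM.2.2.2.2 _ hC
  have hQHe : Qᴴ * st Om (e k0) = Qᴴ := by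
    have h3 := congrArg conjTranspose hQe0
    rwa [conjTranspose_mul, hstM.2.2.1] at h3
  have hc' : Q * Qᴴ = c • st Om (e k0) := by
    rw [← hc, ← Matrix.mul_assoc, hQe0, Matrix.mul_assoc, hQHe]
  have hc0 : c ≠ 0 := by
    rintro rfl
    rw [zero_smul] at hc'
    have h3 : Q = 0 := mul_H_zero hc'
    apply ht0
    apply Mx_inj 0
    rw [hQT, h3, transpose_zero, Mx_zero]
  have hW1 : W * Om * st Om (e k0) = 0 := by
    have h3 : W * Om * (Q * Qᴴ) = 0 := by rw [← Matrix.mul_assoc, hWQ, Matrix.zero_mul]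
    rw [hc', Matrix.mul_smul] at h3
    exact (smul_eq_zero.1 h3).resolve_left hc0
  have hW2 : W * Om = 0 := by
    have h3 : W * Om * st Om (e k0) = W * Om := by
      unfold st
      calc W * Om * -(Om * (e k0)ᵀ * Om) = -(W * (Om * Om) * (e k0)ᵀ * Om) := by
            simp only [Matrix.mul_assoc, Matrix.mul_neg]
        _ = W * (e k0)ᵀ * Om := by
            rw [hO.sq, Matrix.mul_neg, Matrix.mul_one]
            simp only [Matrix.neg_mul, neg_neg]
        _ = _ := by rw [hWe]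
    rw [← h3, hW1]
  have hW3 : W = 0 := by
    calc W = -(W * (Om * Om)) := by rw [hO.sq, Matrix.mul_neg, Matrix.mul_one, neg_neg]
      _ = 0 := by rw [← Matrix.mul_assoc, hW2, Matrix.zero_mul, neg_zero]
  apply Mx_inj k0
  rw [Mx_kp, ← hP, ← hY]
  rw [hW] at hW3
  exact sub_eq_zero.1 hW3

end mini

end GH12

namespace GH12

/-! ### Sign vectors -/

theorem core5 {b0 b1 b2 b3 b4 C : ℝ} (hC : C = 1 ∨ C = -1)
    (h01 : b0 + b1 = 0 ∨ b0 + b1 = 2 * C) (h02 : b0 + b2 = 0 ∨ b0 + b2 = 2 * C)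
    (h12 : b1 + b2 = 0 ∨ b1 + b2 = 2 * C) (h03 : b0 + b3 = 0 ∨ b0 + b3 = 2 * C)
    (h13 : b1 + b3 = 0 ∨ b1 + b3 = 2 * C) (h23 : b2 + b3 = 0 ∨ b2 + b3 = 2 * C)
    (h04 : b0 + b4 = 0 ∨ b0 + b4 = 2 * C) (h14 : b1 + b4 = 0 ∨ b1 + b4 = 2 * C)
    (h24 : b2 + b4 = 0 ∨ b2 + b4 = 2 * C) (h34 : b3 + b4 = 0 ∨ b3 + b4 = 2 * C)
    (q0 : b1 + b2 + b3 + b4 = 0 ∨ b1 + b2 + b3 + b4 = 2 * C)
    (q1 : b0 + b2 + b3 + b4 = 0 ∨ b0 + b2 + b3 + b4 = 2 * C)
    (q2 : b0 + b1 + b3 + b4 = 0 ∨ b0 + b1 + b3 + b4 = 2 * C)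
    (q3 : b0 + b1 + b2 + b4 = 0 ∨ b0 + b1 + b2 + b4 = 2 * C)
    (q4 : b0 + b1 + b2 + b3 = 0 ∨ b0 + b1 + b2 + b3 = 2 * C) : b0 = 0 ∨ b0 = 2 * C := by
  rcases hC with rfl | rfl <;> rcases h01 with h01 | h01 <;> rcases h02 with h02 | h02 <;>
    rcases h12 with h12 | h12 <;>
    first
    | exact Or.inl (by linarith)
    | exact Or.inr (by linarith)
    | (exfalso
       rcases h03 with h03 | h03 <;> rcases h13 with h13 | h13 <;> rcases h23 with h23 | h23 <;>
         first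
         | linarith
         | (rcases h04 with h04 | h04 <;> rcases h14 with h14 | h14 <;>
              rcases h24 with h24 | h24 <;>
              first
              | linarith
              | (rcases h34 with h34 | h34 <;>
                  first
                  | linarith
                  | (rcases q0 with q | q <;> linarith)
                  | (rcases q1 with q | q <;> linarith)
                  | (rcases q2 with q | q <;> linarith)
                  | (rcases q3 with q | q <;> linarith)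
                  | (rcases q4 with q | q <;> linarith))))

theorem sgn_lemma {n : ℕ} (hn : 5 ≤ n) (a : Fin n → ℝ) (c : ℝ)
    (H : ∀ τ : Fin n → ℤ, (∀ i, τ i = 1 ∨ τ i = -1) → ∏ i, τ i = 1 →
      c + ∑ i, (τ i : ℝ) / 2 * a i = 1 ∨ c + ∑ i, (τ i : ℝ) / 2 * a i = -1) :
    c = 0 ∨ ∀ i, a i = 0 := by
  classical
  obtain ⟨C, hCd⟩ : ∃ C, C = c + ∑ i, a i / 2 := ⟨_, rfl⟩
  have hC : C = 1 ∨ C = -1 := by
    have h1 := H (fun _ => 1) (fun _ => Or.inl rfl) (by simp)
    have h2 : ∑ i, (((1 : ℤ) : ℝ)) / 2 * a i = ∑ i, a i / 2 := by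
      refine Finset.sum_congr rfl fun i _ => ?_
      push_cast
      ring
    rw [h2, ← hCd] at h1
    exact h1
  have key : ∀ F : Finset (Fin n), Even F.card → ∑ i ∈ F, a i = 0 ∨ ∑ i ∈ F, a i = 2 * C := by
    intro F hF
    have h1 := H (fun i => if i ∈ F then -1 else 1)
      (fun i => by by_cases h : i ∈ F <;> simp [h]) (by
        rw [Finset.prod_ite, Finset.prod_const, Finset.prod_const_one, mul_one,
          Finset.filter_mem_eq_inter, Finset.univ_inter]
        exact hF.neg_one_pow)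
    have h2 : ∑ i, ((((if i ∈ F then -1 else 1 : ℤ)) : ℝ)) / 2 * a i =
        ∑ i, a i / 2 - ∑ i ∈ F, a i := by
      have h3 : ∑ i ∈ F, a i = ∑ i, if i ∈ F then a i else 0 := by
        rw [Finset.sum_ite_mem, Finset.univ_inter]
      rw [h3, ← Finset.sum_sub_distrib]
      refine Finset.sum_congr rfl fun i _ => ?_
      by_cases h : i ∈ F
      · simp only [h, if_true]
        push_cast
        ring
      · simp only [h, if_false]
        push_cast
        ring
    rw [h2] at h1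
    have h3 : c + (∑ i, a i / 2 - ∑ i ∈ F, a i) = C - ∑ i ∈ F, a i := by rw [hCd]; ring
    rw [h3] at h1
    rcases hC with h4 | h4 <;> rcases h1 with h1 | h1
    · left; linarith
    · right; linarith
    · right; linarith
    · left; linarith
  have pair : ∀ i j, i ≠ j → a i + a j = 0 ∨ a i + a j = 2 * C := by
    intro i j hij
    have h1 := key {i, j} (by rw [Finset.card_pair hij]; exact even_two)
    rwa [Finset.sum_pair hij] at h1
  have quad : ∀ i j k l, i ≠ j → i ≠ k → i ≠ l → j ≠ k → j ≠ l → k ≠ l →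
      a i + a j + a k + a l = 0 ∨ a i + a j + a k + a l = 2 * C := by
    intro i j k l hij hik hil hjk hjl hkl
    have h2 : ({i, j, k, l} : Finset (Fin n)).card = 4 := by
      rw [Finset.card_insert_of_notMem (by simp [hij, hik, hil]),
        Finset.card_insert_of_notMem (by simp [hjk, hjl]),
        Finset.card_insert_of_notMem (by simp [hkl]), Finset.card_singleton]
    have h1 := key {i, j, k, l} (by rw [h2]; exact ⟨2, rfl⟩)
    rw [Finset.sum_insert (by simp [hij, hik, hil]), Finset.sum_insert (by simp [hjk, hjl]),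
      Finset.sum_insert (by simp [hkl]), Finset.sum_singleton] at h1
    rcases h1 with h1 | h1
    · left; linarith
    · right; linarith
  have all : ∀ i, a i = 0 ∨ a i = 2 * C := by
    intro i
    obtain ⟨f, hf⟩ : ∃ f : Fin 5 → Fin n,
        f = fun t => Equiv.swap (Fin.castLE hn 0) i (Fin.castLE hn t) := ⟨_, rfl⟩
    have hinj : Function.Injective f := by
      rw [hf]
      intro s t hst
      exact Fin.castLE_injective hn ((Equiv.swap _ _).injective hst)
    have h0 : f 0 = i := by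
      rw [hf]
      exact Equiv.swap_apply_left _ _
    have hne : ∀ s t : Fin 5, s ≠ t → f s ≠ f t := fun s t h => hinj.ne h
    rw [← h0]
    exact core5 hC (pair _ _ (hne 0 1 (by decide))) (pair _ _ (hne 0 2 (by decide)))
      (pair _ _ (hne 1 2 (by decide))) (pair _ _ (hne 0 3 (by decide)))
      (pair _ _ (hne 1 3 (by decide))) (pair _ _ (hne 2 3 (by decide)))
      (pair _ _ (hne 0 4 (by decide))) (pair _ _ (hne 1 4 (by decide)))
      (pair _ _ (hne 2 4 (by decide))) (pair _ _ (hne 3 4 (by decide)))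
      (quad (f 1) (f 2) (f 3) (f 4) (hne _ _ (by decide)) (hne _ _ (by decide))
        (hne _ _ (by decide)) (hne _ _ (by decide)) (hne _ _ (by decide)) (hne _ _ (by decide)))
      (quad (f 0) (f 2) (f 3) (f 4) (hne _ _ (by decide)) (hne _ _ (by decide))
        (hne _ _ (by decide)) (hne _ _ (by decide)) (hne _ _ (by decide)) (hne _ _ (by decide)))
      (quad (f 0) (f 1) (f 3) (f 4) (hne _ _ (by decide)) (hne _ _ (by decide))
        (hne _ _ (by decide)) (hne _ _ (by decide)) (hne _ _ (by decide)) (hne _ _ (by decide)))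
      (quad (f 0) (f 1) (f 2) (f 4) (hne _ _ (by decide)) (hne _ _ (by decide))
        (hne _ _ (by decide)) (hne _ _ (by decide)) (hne _ _ (by decide)) (hne _ _ (by decide)))
      (quad (f 0) (f 1) (f 2) (f 3) (hne _ _ (by decide)) (hne _ _ (by decide))
        (hne _ _ (by decide)) (hne _ _ (by decide)) (hne _ _ (by decide)) (hne _ _ (by decide)))
  by_cases h0 : ∀ i, a i = 0
  · exact Or.inr h0
  left
  push Not at h0
  obtain ⟨i0, hi0⟩ := h0
  have h1 := (all i0).resolve_left hi0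
  have hC0 : C ≠ 0 := by
    rcases hC with h | h <;> rw [h] <;> norm_num
  have h2 : ∀ j, j ≠ i0 → a j = 0 := by
    intro j hj
    rcases all j with h3 | h3
    · exact h3
    · exfalso
      rcases pair i0 j (Ne.symm hj) with h4 | h4
      · apply hC0
        linarith
      · apply hC0
        linarith
  have h3 : ∑ i, a i / 2 = C := by
    rw [Finset.sum_eq_single i0 (fun j _ hj => by rw [h2 j hj, zero_div])
      (fun h => absurd (Finset.mem_univ _) h), h1]
    ring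
  rw [h3] at hCd
  linarith

/-! ### The torus -/

section torus

variable {B : Type} [Fintype B] [DecidableEq B] {Om : Matrix B B ℂ}
  {L : Submodule ℂ (Matrix B B ℂ)}

theorem Dr_trace {X M : Matrix B B ℂ} (hX : X ∈ Dr L) (hM : M ∈ CM L) : trace (X * M) = 0 := by
  unfold Dr at hX
  induction hX using Submodule.span_induction with
  | mem Z h =>
    obtain ⟨A, hA, C, hC, rfl⟩ := h
    rw [sub_mul, trace_sub, mul_assoc C A M, hM A hA, ← mul_assoc C M A, trace_mul_comm (C * M) A,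
      ← mul_assoc A C M, mul_assoc A C M, sub_self]
  | zero => rw [zero_mul, trace_zero]
  | add a b _ _ ha hb => rw [add_mul, trace_add, ha, hb, add_zero]
  | smul c a _ ha => rw [Matrix.smul_mul, trace_smul, ha, smul_zero]

/-- a regular vector -/
theorem exists_reg {r : ℕ} (Φ : Finset (Fin r → ℝ)) (h0 : (0 : Fin r → ℝ) ∉ Φ) :
    ∃ x : Fin r → ℝ, ∀ γ ∈ Φ, γ ⬝ᵥ x ≠ 0 := by
  let F : {γ // γ ∈ Φ} → Module.Dual ℝ (Fin r → ℝ) := fun γ =>
    { toFun := fun x => γ.1 ⬝ᵥ x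
      map_add' := fun x y => dotProduct_add _ _ _
      map_smul' := fun c x => by rw [dotProduct_smul]; rfl }
  obtain ⟨x, hx⟩ := Module.Dual.exists_forall_ne_zero_of_forall_exists F fun γ => by
    refine ⟨γ.1, fun h => ?_⟩
    have h1 : γ.1 ⬝ᵥ γ.1 = 0 := h
    rw [dotProduct_self_eq_zero] at h1
    exact h0 (h1 ▸ γ.2)
  exact ⟨x, fun γ hγ => hx ⟨γ, hγ⟩⟩

theorem tor_mem {s : Submodule ℂ (Matrix B B ℂ)} {r : ℕ} {T : Fin r → Matrix B B ℂ}
    (h : ∀ i, T i ∈ s) (x : Fin r → ℝ) : tor T x ∈ s :=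
  s.sum_mem fun i _ => s.smul_mem _ (h i)

theorem tor_herm {r : ℕ} {T : Fin r → Matrix B B ℂ} (h : ∀ i, (T i)ᴴ = T i) (x : Fin r → ℝ) :
    (tor T x)ᴴ = tor T x := by
  unfold tor
  rw [conjTranspose_sum]
  refine Finset.sum_congr rfl fun i _ => ?_
  rw [conjTranspose_smul, h]
  congr 1
  exact Complex.conj_ofReal _

theorem tor_comm {r : ℕ} {T : Fin r → Matrix B B ℂ} (h : ∀ i j, T i * T j = T j * T i)
    (x : Fin r → ℝ) {Y : Matrix B B ℂ} (hY : Y ∈ Submodule.span ℂ (Set.range T)) :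
    tor T x * Y = Y * tor T x := by
  induction hY using Submodule.span_induction with
  | mem Z hZ =>
    obtain ⟨j, rfl⟩ := hZ
    unfold tor
    rw [Finset.sum_mul, Finset.mul_sum]
    refine Finset.sum_congr rfl fun i _ => ?_
    rw [Matrix.smul_mul, Matrix.mul_smul, h]
  | zero => rw [mul_zero, zero_mul]
  | add a b _ _ ha hb => rw [mul_add, add_mul, ha, hb]
  | smul c a _ ha => rw [Matrix.mul_smul, Matrix.smul_mul, ha]

variable {s : Submodule ℂ (Matrix B B ℂ)} {D : Matrix B B ℂ} {r : ℕ} {T : Fin r → Matrix B B ℂ}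
  {Φ : Finset (Fin r → ℝ)} {X : (Fin r → ℝ) → Matrix B B ℂ} {h : Fin r → ℝ}

theorem orth_X (R : RV s D r T Φ X h) {γ δ : Fin r → ℝ} (hγ : γ ∈ Φ) (hδ : δ ∈ Φ) (hne : γ ≠ δ) :
    trace (X γ * (X δ)ᴴ) = 0 := by
  have h1 := R.Xw γ hγ (γ - δ)
  have h2 := R.Xw (-δ) (R.rs.neg δ hδ) (γ - δ)
  rw [(R.Xm δ hδ).2.2] at h2
  have h3 : trace ((tor T (γ - δ) * X γ - X γ * tor T (γ - δ)) * (X δ)ᴴ) =
      -trace (X γ * (tor T (γ - δ) * (X δ)ᴴ - (X δ)ᴴ * tor T (γ - δ))) := by
    rw [sub_mul, trace_sub, mul_sub, trace_sub, neg_sub, mul_assoc, trace_mul_comm, mul_assoc,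
      mul_assoc (X γ) (tor T (γ - δ))]
  rw [h1, h2, Matrix.smul_mul, Matrix.mul_smul, trace_smul, trace_smul, smul_eq_mul,
    smul_eq_mul] at h3
  have h4 : (((γ - δ) ⬝ᵥ (γ - δ) : ℝ) : ℂ) * trace (X γ * (X δ)ᴴ) = 0 := by
    rw [sub_dotProduct, Complex.ofReal_sub, sub_mul, h3, neg_dotProduct, Complex.ofReal_neg]
    ring
  rcases mul_eq_zero.1 h4 with h5 | h5
  · exfalso
    have h6 : (γ - δ) ⬝ᵥ (γ - δ) = 0 := by exact_mod_cast h5
    rw [dotProduct_self_eq_zero, sub_eq_zero] at h6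
    exact hne h6
  · exact h5

/-- the centralizer of a regular element is the torus -/
theorem mem_torus (R : RV s D r T Φ X h) {x0 : Fin r → ℝ} (hx0 : ∀ γ ∈ Φ, γ ⬝ᵥ x0 ≠ 0)
    {Y : Matrix B B ℂ} (hY : Y ∈ s) (hc : tor T x0 * Y = Y * tor T x0) :
    Y ∈ Submodule.span ℂ (Set.range T) := by
  have h1 := R.sp hY
  rw [Submodule.span_union, Submodule.mem_sup] at h1
  obtain ⟨τ, hτ, ξ, hξ, rfl⟩ := h1
  rw [Submodule.mem_span_image_finset_iff_exists_fun'] at hξ
  obtain ⟨b, rfl⟩ := hξ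
  have h2 := tor_comm R.tv.c x0 hτ
  have h3 : ∑ γ ∈ Φ, (b γ * ((γ ⬝ᵥ x0 : ℝ) : ℂ)) • X γ = 0 := by
    have h4 : tor T x0 * (∑ γ ∈ Φ, b γ • X γ) - (∑ γ ∈ Φ, b γ • X γ) * tor T x0 = 0 := by
      rw [mul_add, add_mul, h2] at hc
      exact sub_eq_zero.2 (add_left_cancel hc)
    rw [← h4, Finset.mul_sum, Finset.sum_mul, ← Finset.sum_sub_distrib]
    refine Finset.sum_congr rfl fun γ hγ => ?_
    rw [Matrix.mul_smul, Matrix.smul_mul, ← smul_sub, R.Xw γ hγ, smul_smul]
  have h4 : ∀ δ ∈ Φ, b δ = 0 := by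
    intro δ hδ
    have h5 : trace ((∑ γ ∈ Φ, (b γ * ((γ ⬝ᵥ x0 : ℝ) : ℂ)) • X γ) * (X δ)ᴴ) = 0 := by
      rw [h3, zero_mul, trace_zero]
    rw [Finset.sum_mul, trace_sum, Finset.sum_eq_single δ] at h5
    · rw [Matrix.smul_mul, trace_smul, smul_eq_mul] at h5
      rcases mul_eq_zero.1 h5 with h6 | h6
      · rcases mul_eq_zero.1 h6 with h7 | h7
        · exact h7
        · exact absurd (by exact_mod_cast h7) (hx0 δ hδ)
      · exfalso
        have h7 : X δ = 0 := by
          have h8 := trace_self_eq_zero (X := (X δ)ᴴ) (by rwa [conjTranspose_conjTranspose])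
          have h9 := congrArg conjTranspose h8
          rwa [conjTranspose_conjTranspose, conjTranspose_zero] at h9
        exact (R.Xm δ hδ).2.1 h7
    · intro γ hγ hne
      rw [Matrix.smul_mul, trace_smul, orth_X R hγ hδ hne, smul_zero]
    · intro hn
      exact absurd hδ hn
  have h5 : ∑ γ ∈ Φ, b γ • X γ = 0 :=
    Finset.sum_eq_zero fun γ hγ => by rw [h4 γ hγ, zero_smul]
  rw [h5, add_zero]
  exact hτ

/-- Hermitian elements of the torus -/
theorem herm_torus (R : TV s D r T h) {Y : Matrix B B ℂ}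
    (hY : Y ∈ Submodule.span ℂ (Set.range T)) (hYH : Yᴴ = Y) : ∃ x : Fin r → ℝ, Y = tor T x := by
  rw [Submodule.mem_span_range_iff_exists_fun] at hY
  obtain ⟨c, rfl⟩ := hY
  have h1 : ∀ j, trace ((∑ i, c i • T i) * T j) = c j := by
    intro j
    rw [Finset.sum_mul, trace_sum, Finset.sum_eq_single j]
    · rw [Matrix.smul_mul, trace_smul, R.t, if_pos rfl, smul_eq_mul, mul_one]
    · intro i _ hij
      rw [Matrix.smul_mul, trace_smul, R.t, if_neg hij, smul_zero]
    · intro hn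
      exact absurd (Finset.mem_univ _) hn
  have h2 : ∀ j, star (c j) = c j := by
    intro j
    conv_lhs => rw [← h1 j]
    rw [← trace_conjTranspose, conjTranspose_mul, hYH, (R.m j).2, trace_mul_comm, h1]
  refine ⟨fun j => (c j).re, ?_⟩
  unfold tor
  refine Finset.sum_congr rfl fun j _ => ?_
  congr 1
  exact (Complex.conj_eq_iff_re.1 (h2 j)).symm

theorem conj_Ide (hO : IsOm Om) (hL : LD Om L) {v : USp Om} (hv : GJ1.F24 L v) {e : Matrix B B ℂ}
    (he : e ∈ CM L) {X : Matrix B B ℂ} (hX : X ∈ Ide L e) : mt v * X * mt v⁻¹ ∈ Ide L e := by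
  have hve := GJ1.comm hO hL hv he
  refine ⟨GJ1.conj_Dr hO hL hv hX.1, fun Y hY hYe => ?_⟩
  have h2 : mt v⁻¹ * Y * mt v ∈ Dr L := by
    have h3 := GJ1.conj_Dr hO hL hv.inv hY
    rwa [inv_inv] at h3
  have h3 : mt v⁻¹ * Y * mt v * e = 0 := by
    rw [mul_assoc, hve, ← mul_assoc, mul_assoc (mt v⁻¹), hYe, mul_zero, zero_mul]
  have h4 := hX.2 _ h2 h3
  have h5 : trace (mt v * X * mt v⁻¹ * Y) = trace (X * (mt v⁻¹ * Y * mt v)) := by
    rw [mul_assoc, mul_assoc, trace_mul_comm, mul_assoc, mul_assoc]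
  rw [h5, h4]

theorem KK_mono (hs : s ≤ L) {k : USp Om} (hk : k ∈ KK Om s) : k ∈ KK Om L :=
  fun κ _ _ t ht => hk κ t fun X hX => ht X (hs hX)

theorem ev {e : Matrix B B ℂ} {S : Finset (Fin r → ℝ)} {v : (Fin r → ℝ) → B → ℂ}
    (hM : MV T Φ X h e S v) {t : Fin r → ℝ} (ht : t ∈ S) : e *ᵥ v t = v t := by
  rw [hM.ee, sum_mulVec, Finset.sum_eq_single t]
  · rw [vecMulVec_mulVec, dotProduct_comm, hM.on t ht t ht, if_pos rfl]
    simp
  · intro u hu hne
    rw [vecMulVec_mulVec, dotProduct_comm, hM.on t ht u hu, if_neg (Ne.symm hne)]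
    simp
  · intro hn
    exact absurd ht hn

theorem vne {e : Matrix B B ℂ} {S : Finset (Fin r → ℝ)} {v : (Fin r → ℝ) → B → ℂ}
    (hM : MV T Φ X h e S v) {t : Fin r → ℝ} (ht : t ∈ S) : v t ≠ 0 := by
  intro h0
  have h1 := hM.on t ht t ht
  rw [if_pos rfl, h0, zero_dotProduct] at h1
  exact zero_ne_one h1

end torus

end GH12

open GH12 in
/-- **H12.** -/
theorem fc0_of (hst : St_herm) : St_fc0 := by
  intro B _ _ Om L e D r T Φ X h hR S v hM hT4 D' hD' hD2 hDn
  obtain ⟨n, c, ε, hn, -, -, hS, -⟩ := hT4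
  have hO := hR.om
  have hL := hR.ld
  have hMi : Mi L e := hR.pu.1
  obtain ⟨he, he2, heH, he0, hmin⟩ := id hMi
  obtain ⟨D1, hD1, hD1H, hD12, g, gi, hg, hD1e, hgc, -⟩ := hst B Om L hO hL D' hD' hD2
  have hgi : gi * g = 1 := mul_eq_one_comm.1 hg
  have hge : g * e = e * g := hgc e he
  have hgie : gi * e = e * gi := by
    calc gi * e = gi * e * (g * gi) := by rw [hg, mul_one]
      _ = gi * (g * e) * gi := by rw [hge]; noncomm_ring
      _ = (gi * g) * e * gi := by noncomm_ring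
      _ = _ := by rw [hgi, one_mul]
  have htr : trace (D1 * e) = trace (D' * e) := by
    have h1 : D1 * e = g * (D' * e) * gi := by
      rw [hD1e, mul_assoc (g * D') gi e, hgie]
      noncomm_ring
    rw [h1, trace_mul_comm, ← mul_assoc, hgi, one_mul]
  have hD1n : ∀ c : ℂ, D1 * e ≠ c • e := by
    intro c hc
    apply hDn c
    have h1 : D' = gi * D1 * g := by
      rw [hD1e]
      calc D' = (gi * g) * D' * (gi * g) := by rw [hgi, one_mul, mul_one]
        _ = _ := by noncomm_ring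
    rw [h1, mul_assoc, hge, ← mul_assoc, mul_assoc gi, hc, Matrix.mul_smul, Matrix.smul_mul, hgie,
      mul_assoc, hgi, mul_one]
  rw [← htr]
  -- the components
  obtain ⟨z0, hz0, hz0L, d, hd, hdec⟩ := GJ1.L_dec hL hD1
  obtain ⟨a0, ha0, b0, hb0, rfl⟩ := GJ1.Dr_dec hL he heH hd
  obtain ⟨z, hz⟩ : ∃ z, z = (1 / 2 : ℂ) • (z0 + z0ᴴ) := ⟨_, rfl⟩
  obtain ⟨y, hy⟩ : ∃ y, y = (1 / 2 : ℂ) • (a0 + a0ᴴ) := ⟨_, rfl⟩
  have hzC : z ∈ CM L := by
    rw [hz]
    exact (CM L).smul_mem _ ((CM L).add_mem hz0.1 (CM_adj hL.adj hz0.1))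
  have hze : z * e = e * z := by
    have h1 : z0 * e = e * z0 := (hz0.2 e he).symm
    have h2 : z0ᴴ * e = e * z0ᴴ := by
      have h3 := congrArg conjTranspose h1
      rw [conjTranspose_mul, conjTranspose_mul, heH] at h3
      exact h3.symm
    rw [hz, Matrix.smul_mul, Matrix.mul_smul, add_mul, mul_add, h1, h2]
  have hyI : y ∈ Ide L e := by
    rw [hy]
    exact (Ide L e).smul_mem _ ((Ide L e).add_mem ha0 (GJ1.Ide_adj hL he heH ha0))
  have hyH : yᴴ = y := by
    rw [hy, conjTranspose_smul, conjTranspose_add, conjTranspose_conjTranspose, add_comm]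
    congr 1
    simp
  have hDe : D1 * e = z * e + y * e := by
    have h1 : D1 * e = z0 * e + a0 * e := by
      rw [hdec, add_mul, add_mul, hb0.2, add_zero]
    have h2 : D1 * e = z0ᴴ * e + a0ᴴ * e := by
      conv_lhs => rw [← hD1H]
      rw [hdec, conjTranspose_add, conjTranspose_add, add_mul, add_mul,
        (GJ1.Kr_adj hL he heH hb0).2, add_zero]
    have h3 : D1 * e = (1 / 2 : ℂ) • (D1 * e + D1 * e) := by
      rw [← two_smul ℂ (D1 * e), smul_smul]
      norm_num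
    rw [h3]
    nth_rewrite 1 [h1]
    rw [h2, hz, hy, Matrix.smul_mul, Matrix.smul_mul, ← smul_add, add_mul, add_mul]
    congr 1
    abel
  obtain ⟨c', hc'⟩ := hmin z hzC
  have hzc : z * e = c' • e := by rw [← hc', ← hze, mul_assoc, he2]
  -- the maximum principle
  have hsL : Ide L e ≤ L := fun Y hY => GJ1.Dr_le hL hY.1
  obtain ⟨x0, hx0⟩ := exists_reg Φ hR.rv.rs.z
  obtain ⟨k, hk, hcomm, -⟩ := exists_max (L := Ide L e) hO
    (fun A hA C hC => GJ1.Ide_br hL he (hsL hA) hC) (fun A hA => hL.sp A (hsL hA))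
    (KK Om (Ide L e)) KK_closed
    (fun A hA hAs s κ _ _ t ht => by
      rw [mt_eU]
      exact (isCurve_exp A).fix (exp_zero_smul A) (ht A hA) s)
    (tor_mem (fun i => (hR.rv.tv.m i).1) x0) (tor_herm (fun i => (hR.rv.tv.m i).2) x0) hyH
    (fun k hk => by
      have h1 := conj_Ide hO hL (GJ1.F24_of_KK (KK_mono hsL ((KK Om (Ide L e)).inv_mem hk))) he hyI
      rwa [inv_inv] at h1)
  have hkL : k ∈ KK Om L := KK_mono hsL hk
  have hk24 := GJ1.F24_of_KK hkL
  have hke := GJ1.comm hO hL hk24 he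
  have hkz := GJ1.comm hO hL hk24 hzC
  obtain ⟨y', hy'⟩ : ∃ y', y' = mt k⁻¹ * y * mt k := ⟨_, rfl⟩
  rw [← hy'] at hcomm
  have hy'I : y' ∈ Ide L e := by
    have h1 := conj_Ide hO hL (GJ1.F24_of_KK (KK_mono hsL ((KK Om (Ide L e)).inv_mem hk))) he hyI
    rw [inv_inv] at h1
    rw [hy']
    exact h1
  have hy'H : y'ᴴ = y' := by
    rw [hy', conjTranspose_mul, conjTranspose_mul, hyH, mt_inv, conjTranspose_conjTranspose,
      ← mul_assoc]
  obtain ⟨x1, hx1⟩ := herm_torus hR.rv.tv (mem_torus hR.rv hx0 hy'I hcomm.symm) hy'H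
  -- the conjugate involution
  obtain ⟨D2, hD2d⟩ : ∃ D2, D2 = mt k⁻¹ * D1 * mt k := ⟨_, rfl⟩
  have hD22 : D2 * D2 = 1 := by
    have h1 : D2 * D2 = mt k⁻¹ * (D1 * (mt k * mt k⁻¹) * D1) * mt k := by
      rw [hD2d]
      noncomm_ring
    rw [h1, mt_mul_inv, mul_one, hD12, mul_one, mt_inv_mul]
  have hD2e : D2 * e = c' • e + y' * e := by
    have h1 : D2 * e = mt k⁻¹ * (D1 * e) * mt k := by
      rw [hD2d, mul_assoc, hke]
      noncomm_ring
    have h2 : mt k⁻¹ * e * mt k = e := by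
      rw [mul_assoc, ← hke, ← mul_assoc, mt_inv_mul, one_mul]
    rw [h1, hDe, hzc, mul_add, add_mul, Matrix.mul_smul, Matrix.smul_mul, h2, hy']
    congr 1
    rw [mul_assoc, mul_assoc, ← hke]
    noncomm_ring
  have hact : ∀ t ∈ S, D2 *ᵥ v t = (c' + ((x1 ⬝ᵥ t : ℝ) : ℂ)) • v t := by
    intro t ht
    have h1 : D2 *ᵥ v t = (D2 * e) *ᵥ v t := by rw [← mulVec_mulVec, ev hM ht]
    rw [h1, hD2e, add_mulVec, smul_mulVec, ← mulVec_mulVec, ev hM ht, hx1, hM.Tv t ht, add_smul]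
  have hval : ∀ t ∈ S, c' + ((x1 ⬝ᵥ t : ℝ) : ℂ) = 1 ∨ c' + ((x1 ⬝ᵥ t : ℝ) : ℂ) = -1 := by
    intro t ht
    have h1 : (D2 * D2) *ᵥ v t = ((c' + ((x1 ⬝ᵥ t : ℝ) : ℂ)) * (c' + ((x1 ⬝ᵥ t : ℝ) : ℂ))) • v t := by
      rw [← mulVec_mulVec, hact t ht, mulVec_smul, hact t ht, smul_smul]
    rw [hD22, one_mulVec] at h1
    have h2 : ((c' + ((x1 ⬝ᵥ t : ℝ) : ℂ)) * (c' + ((x1 ⬝ᵥ t : ℝ) : ℂ)) - 1) • v t = 0 := by
      rw [sub_smul, ← h1, one_smul, sub_self]
    have h3 := (smul_eq_zero.1 h2).resolve_right (vne hM ht)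
    exact mul_self_eq_one_iff.1 (sub_eq_zero.1 h3)
  obtain ⟨t0, ht0⟩ := hM.mw.ne
  have hc'im : c'.im = 0 := by
    rcases hval t0 ht0 with h1 | h1
    · have h2 := congrArg Complex.im h1
      simpa using h2
    · have h2 := congrArg Complex.im h1
      simpa using h2
  have hval' : ∀ t ∈ S, c'.re + x1 ⬝ᵥ t = 1 ∨ c'.re + x1 ⬝ᵥ t = -1 := by
    intro t ht
    rcases hval t ht with h1 | h1
    · left
      have h2 := congrArg Complex.re h1
      simpa using h2
    · right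
      have h2 := congrArg Complex.re h1
      simpa using h2
  have hdot : ∀ τ : Fin n → ℤ, x1 ⬝ᵥ (∑ i, ((τ i : ℝ) / 2) • ε i) =
      ∑ i, (τ i : ℝ) / 2 * (x1 ⬝ᵥ ε i) := by
    intro τ
    rw [dotProduct_sum]
    refine Finset.sum_congr rfl fun i _ => ?_
    rw [dotProduct_smul, smul_eq_mul]
  have hfin := sgn_lemma hn (fun i => x1 ⬝ᵥ ε i) c'.re (fun τ h1 h2 => by
    have h3 := hval' _ ((hS (∑ i, ((τ i : ℝ) / 2) • ε i)).2 ⟨τ, h1, h2, rfl⟩)
    rw [hdot] at h3
    exact h3)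
  rcases hfin with h1 | h1
  · have h2 : c' = 0 := Complex.ext h1 hc'im
    rw [hDe, hzc, h2, zero_smul, zero_add]
    exact Dr_trace hyI.1 he
  · exfalso
    have h2 : y' * e = 0 := by
      rw [hM.ee, Finset.mul_sum]
      refine Finset.sum_eq_zero fun t ht => ?_
      obtain ⟨τ, -, -, hτ⟩ := (hS t).1 ht
      have h3 : x1 ⬝ᵥ t = 0 := by
        rw [hτ, hdot]
        exact Finset.sum_eq_zero fun i _ => by rw [h1 i, mul_zero]
      rw [mul_vecMulVec, hx1, hM.Tv t ht, h3, Complex.ofReal_zero, zero_smul]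
      simp
    rw [h2, add_zero] at hD2e
    apply hD1n c'
    have h3 : D1 = mt k * D2 * mt k⁻¹ := by
      rw [hD2d]
      calc D1 = (mt k * mt k⁻¹) * D1 * (mt k * mt k⁻¹) := by rw [mt_mul_inv, one_mul, mul_one]
        _ = _ := by noncomm_ring
    have hke' : mt k⁻¹ * e = e * mt k⁻¹ := GJ1.comm hO hL hk24.inv he
    rw [h3, mul_assoc, hke', ← mul_assoc, mul_assoc (mt k), hD2e, Matrix.mul_smul, Matrix.smul_mul,
      hke, mul_assoc, mt_mul_inv, mul_one]

open GH12 in
/-- **H14.** -/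
theorem red_of : St_red := by
  intro B _ _ Om L hO hL u hu T hLi hTM hst hT κ _ _ x hx
  obtain ⟨s, E, hE, hsum⟩ := exists_dec (L := L) hL.adj (rk (1 : Matrix B B ℂ)) 1
    (fun X _ => by rw [mul_one, one_mul]) (mul_one 1) conjTranspose_one le_rfl
  have h1 : x = ∑ f : κ → Fin s, kpp (fun k => E (f k)) *ᵥ x := by
    rw [← sum_mulVec, WJ2.sum_kpp hsum, one_mulVec]
  have h2 : ∀ f : κ → Fin s, kp κ (mt u) *ᵥ (kpp (fun k => E (f k)) *ᵥ x) =
      kpp (fun k => E (f k)) *ᵥ x := by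
    intro f
    refine rec_claim hO hL hu hLi hst hT _ κ (fun k => E (f k)) (fun k => hE _) le_rfl _ ?_ ?_
    · intro X hX
      rw [mulVec_mulVec, WJ2.dm_comm_kpp fun k => (hE (f k)).1 X hX, ← mulVec_mulVec, hx X hX,
        mulVec_zero]
    · rw [mulVec_mulVec, kpp_mul]
      congr 2
      funext k
      exact (hE (f k)).2.1
  conv_lhs => rw [h1]
  rw [mulVec_sum]
  conv_rhs => rw [h1]
  exact Finset.sum_congr rfl fun f _ => h2 f

end

end Pool.Agent.NH32
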