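import Pool.Agent.NH32.GtA
import Pool.Agent.NH32.GJ1

/-!
# Project G, stage 2, GH13: the impure case
-/

set_option linter.unusedSectionVars false

namespace Pool.Agent.NH32

open Matrix Module

noncomputable section

namespace GH13

variable {B : Type} [Fintype B] [DecidableEq B] {Om : Matrix B B ℂ}
  {L : Submodule ℂ (Matrix B B ℂ)}

/-- The trace of an element of the derived algebra on the range of a commuting matrix. -/
theorem trace_Dr {e : Matrix B B ℂ} (he : e ∈ CM L) {X : Matrix B B ℂ} (hX : X ∈ Dr L) :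
    trace (X * e) = 0 := by
  unfold Dr at hX
  induction hX using Submodule.span_induction with
  | mem x hx =>
    obtain ⟨A, hA, C, hC, rfl⟩ := hx
    have h1 : trace (C * A * e) = trace (A * C * e) := by
      rw [mul_assoc, he A hA, ← mul_assoc, trace_mul_comm, ← mul_assoc]
    rw [sub_mul, trace_sub, h1, sub_self]
  | zero => rw [zero_mul, trace_zero]
  | add x y _ _ h1 h2 => rw [add_mul, trace_add, h1, h2, add_zero]
  | smul c x _ h => rw [Matrix.smul_mul, trace_smul, h, smul_zero]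

theorem trace_ne {e : Matrix B B ℂ} (hM : Mi L e) : trace e ≠ 0 := by
  obtain ⟨-, hee, heh, h0, -⟩ := hM
  intro h
  apply h0
  apply trace_self_eq_zero
  rw [heh, hee, h]

/-- Irreducibility: an ideal which kills a part of `e` kills `e`. -/
theorem irr (hL : LD Om L) {e : Matrix B B ℂ} (hM : Mi L e) (N : Submodule ℂ (Matrix B B ℂ))
    (hN : ∀ X ∈ L, ∀ Y ∈ N, X * Y - Y * X ∈ N) {M : Matrix B B ℂ} (hM0 : M ≠ 0) (heM : e * M = M)
    (hNM : ∀ Y ∈ N, Y * M = 0) : ∀ Y ∈ N, Y * e = 0 := by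
  obtain ⟨hc, hee, heh, h0, hmin⟩ := hM
  let U : Submodule ℂ (Matrix B B ℂ) :=
    { carrier := {Z | e * Z = Z ∧ ∀ Y ∈ N, Y * Z = 0}
      add_mem' := by
        rintro a b ⟨h1, h2⟩ ⟨h3, h4⟩
        exact ⟨by rw [mul_add, h1, h3], fun Y hY => by rw [mul_add, h2 Y hY, h4 Y hY, add_zero]⟩
      zero_mem' := ⟨mul_zero _, fun Y _ => mul_zero _⟩
      smul_mem' := by
        rintro c a ⟨h1, h2⟩
        exact ⟨by rw [Matrix.mul_smul, h1], fun Y hY => by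
          rw [Matrix.mul_smul, h2 Y hY, smul_zero]⟩ }
  have hUr : ∀ Z ∈ U, ∀ W : Matrix B B ℂ, Z * W ∈ U := by
    rintro Z ⟨h1, h2⟩ W
    exact ⟨by rw [← mul_assoc, h1], fun Y hY => by rw [← mul_assoc, h2 Y hY, zero_mul]⟩
  have hUl : ∀ X ∈ L, ∀ Z ∈ U, X * Z ∈ U := by
    rintro X hX Z ⟨h1, h2⟩
    refine ⟨?_, fun Y hY => ?_⟩
    · rw [← mul_assoc, ← hc X hX, mul_assoc, h1]
    · have h3 := h2 _ (hN X hX Y hY)
      rw [sub_mul, mul_assoc, h2 Y hY, mul_zero, zero_sub, neg_eq_zero] at h3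
      rw [← mul_assoc, h3]
  obtain ⟨P, hP, ho⟩ := exists_orth U 1
  have h1 : ∀ Z ∈ U, Zᴴ * (1 - P) = 0 := by
    intro Z hZ
    apply trace_self_eq_zero
    have h2 := ho _ (hUr Z hZ ((Zᴴ * (1 - P))))
    rw [conjTranspose_mul] at h2
    rw [← h2, mul_assoc]
  have h2 : ∀ Z ∈ U, Pᴴ * Z = Z := by
    intro Z hZ
    have h3 := congrArg Matrix.conjTranspose (h1 Z hZ)
    rw [conjTranspose_mul, conjTranspose_conjTranspose, conjTranspose_sub, conjTranspose_one,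
      sub_mul, one_mul, conjTranspose_zero, sub_eq_zero] at h3
    exact h3.symm
  have h3 : Pᴴ = P := by
    have h4 := h2 P hP
    have h5 := congrArg Matrix.conjTranspose h4
    rw [conjTranspose_mul, conjTranspose_conjTranspose, h4] at h5
    exact h5.symm
  have h4 : ∀ Z ∈ U, P * Z = Z := by
    intro Z hZ
    have := h2 Z hZ
    rwa [h3] at this
  have hPc : P ∈ CM L := by
    intro X hX
    have k1 := h4 _ (hUl X hX P hP)
    have k2 := congrArg Matrix.conjTranspose (h4 _ (hUl _ (hL.adj X hX) P hP))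
    rw [conjTranspose_mul, conjTranspose_mul, conjTranspose_conjTranspose, h3, mul_assoc] at k2
    rw [← mul_assoc] at k1
    rw [← k1, mul_assoc]
    exact k2
  obtain ⟨c, hc'⟩ := hmin P hPc
  have h5 : e * P = P := hP.1
  have h6 : P * e = P := by
    have := congrArg Matrix.conjTranspose h5
    rwa [conjTranspose_mul, h3, heh] at this
  rw [h5, h6] at hc'
  have hP0 : P ≠ 0 := by
    intro h
    apply hM0
    have := h4 M ⟨heM, hNM⟩
    rw [h, zero_mul] at this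
    exact this.symm
  have hc0 : c ≠ 0 := by
    rintro rfl
    rw [zero_smul] at hc'
    exact hP0 hc'
  intro Y hY
  have h7 := hP.2 Y hY
  rw [hc', Matrix.mul_smul] at h7
  exact (smul_eq_zero.1 h7).resolve_left hc0

section

variable (hL : LD Om L) {e : Matrix B B ℂ} (hM : Mi L e)
include hL hM

/-- elements of the ideal commute with the kernel -/
theorem Ide_Kr {X Y : Matrix B B ℂ} (hX : X ∈ Ide L e) (hY : Y ∈ GJ1.Kr L e) :
    X * Y = Y * X := by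
  have hYL := GJ1.Dr_le hL hY.1
  have h1 := GJ1.Ide_br hL hM.1 hYL hX
  have h2 : (Y * X - X * Y) * e = 0 := by
    have h3 : X * e = e * X := hM.1 X (GJ1.Dr_le hL hX.1)
    rw [sub_mul, mul_assoc, h3, ← mul_assoc, hY.2, zero_mul, mul_assoc, hY.2, mul_zero, sub_zero]
  have h3 := GJ1.Ide_zero hL hM.1 hM.2.2.1 h1 h2
  exact (sub_eq_zero.1 h3).symm

/-- the decomposition of the elements of `L` -/
theorem dec {X : Matrix B B ℂ} (hX : X ∈ L) : ∃ z ∈ ZM L, ∃ a ∈ Ide L e, ∃ b ∈ GJ1.Kr L e,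
    X = z + a + b := by
  obtain ⟨z, hz, -, d, hd, rfl⟩ := GJ1.L_dec hL hX
  obtain ⟨a, ha, b, hb, rfl⟩ := GJ1.Dr_dec hL hM.1 hM.2.2.1 hd
  exact ⟨z, hz, a, ha, b, hb, by abel⟩

/-- the centre of the ideal is zero -/
theorem cent {X : Matrix B B ℂ} (hX : X ∈ Ide L e) (h : ∀ Y ∈ Ide L e, Y * X = X * Y) : X = 0 := by
  have hXL : X ∈ L := GJ1.Dr_le hL hX.1
  have hXc : X ∈ CM L := by
    intro W hW
    obtain ⟨z, hz, a, ha, b, hb, rfl⟩ := dec hL hM hW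
    rw [add_mul, add_mul, mul_add, mul_add, h a ha, hz.1 X hXL, Ide_Kr hL hM hX hb]
  obtain ⟨c, hc⟩ := hM.2.2.2.2 X hXc
  have h1 : X * e = e * X := hM.1 X hXL
  have h2 : X * e = c • e := by
    rw [← hc, ← h1, mul_assoc, hM.2.1]
  have h3 := trace_Dr hM.1 hX.1
  rw [h2, trace_smul, smul_eq_mul] at h3
  have h4 : c = 0 := (mul_eq_zero.1 h3).resolve_right (trace_ne hM)
  rw [h4, zero_smul] at h2
  exact GJ1.Ide_zero hL hM.1 hM.2.2.1 hX h2

end

/-- two commuting complementary ideals in the ideal of `e` -/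
structure Sp (L : Submodule ℂ (Matrix B B ℂ)) (e : Matrix B B ℂ)
    (I1 I2 : Submodule ℂ (Matrix B B ℂ)) : Prop where
  l1 : I1 ≤ Ide L e
  l2 : I2 ≤ Ide L e
  b1 : ∀ X ∈ L, ∀ Y ∈ I1, X * Y - Y * X ∈ I1
  b2 : ∀ X ∈ L, ∀ Y ∈ I2, X * Y - Y * X ∈ I2
  su : ∀ X ∈ Ide L e, ∃ a ∈ I1, ∃ b ∈ I2, X = a + b
  cm : ∀ X ∈ I1, ∀ Y ∈ I2, X * Y = Y * X
  n1 : ∃ X ∈ I1, X ≠ 0
  n2 : ∃ X ∈ I2, X ≠ 0

theorem Sp.symm {e : Matrix B B ℂ} {I1 I2 : Submodule ℂ (Matrix B B ℂ)} (h : Sp L e I1 I2) :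
    Sp L e I2 I1 where
  l1 := h.l2
  l2 := h.l1
  b1 := h.b2
  b2 := h.b1
  su := fun X hX => by
    obtain ⟨a, ha, b, hb, h1⟩ := h.su X hX
    exact ⟨b, hb, a, ha, by rw [h1, add_comm]⟩
  cm := fun X hX Y hY => (h.cm Y hY X hX).symm
  n1 := h.n2
  n2 := h.n1

/-- If `e` is not pure, the ideal splits. -/
theorem exists_sp (hL : LD Om L) {e : Matrix B B ℂ} (hM : Mi L e) (ht : ¬ trace e = 1)
    (hP : ¬ Pu L e) : ∃ I1 I2, Sp L e I1 I2 := by
  have hJ : ∃ J : Submodule ℂ (Matrix B B ℂ), J ≤ Dr L ∧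
      (∀ X ∈ L, ∀ Y ∈ J, X * Y - Y * X ∈ J) ∧ (∃ Y ∈ J, Y * e ≠ 0) ∧ ¬ Ide L e ≤ J := by
    by_contra hcon
    apply hP
    refine ⟨hM, ht, fun J h1 h2 => ?_⟩
    by_contra hcon2
    push Not at hcon2
    exact hcon ⟨J, h1, h2, hcon2.1, hcon2.2⟩
  obtain ⟨J, hJ1, hJ2, ⟨Y0, hY0, hY0e⟩, hJ4⟩ := hJ
  let I1 : Submodule ℂ (Matrix B B ℂ) := Ide L e ⊓ J
  let I2 : Submodule ℂ (Matrix B B ℂ) :=
    { carrier := {Y | Y ∈ Ide L e ∧ ∀ Z ∈ I1, trace (Zᴴ * Y) = 0}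
      add_mem' := by
        rintro a b ⟨h1, h2⟩ ⟨h3, h4⟩
        exact ⟨(Ide L e).add_mem h1 h3, fun Z hZ => by
          rw [mul_add, trace_add, h2 Z hZ, h4 Z hZ, add_zero]⟩
      zero_mem' := ⟨(Ide L e).zero_mem, fun Z _ => by rw [mul_zero, trace_zero]⟩
      smul_mem' := by
        rintro c a ⟨h1, h2⟩
        exact ⟨(Ide L e).smul_mem _ h1, fun Z hZ => by
          rw [Matrix.mul_smul, trace_smul, h2 Z hZ, smul_zero]⟩ }
  have hb1 : ∀ X ∈ L, ∀ Y ∈ I1, X * Y - Y * X ∈ I1 := fun X hX Y hY =>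
    ⟨GJ1.Ide_br hL hM.1 hX hY.1, hJ2 X hX Y hY.2⟩
  have hb2 : ∀ X ∈ L, ∀ Y ∈ I2, X * Y - Y * X ∈ I2 := by
    rintro X hX Y ⟨h1, h2⟩
    refine ⟨GJ1.Ide_br hL hM.1 hX h1, fun Z hZ => ?_⟩
    have h3 := h2 _ (hb1 _ (hL.adj X hX) Z hZ)
    rw [← h3, conjTranspose_sub, conjTranspose_mul, conjTranspose_mul,
      conjTranspose_conjTranspose, mul_sub, sub_mul, trace_sub, trace_sub]
    congr 1
    · rw [mul_assoc]
    · rw [← mul_assoc, trace_mul_comm, ← mul_assoc]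
  have hdis : ∀ X ∈ I1, X ∈ I2 → X = 0 := fun X h1 h2 => trace_self_eq_zero (h2.2 X h1)
  refine ⟨I1, I2, ⟨inf_le_left, fun X hX => hX.1, hb1, hb2, ?_, ?_, ?_, ?_⟩⟩
  · intro X hX
    obtain ⟨s, hs, ho⟩ := exists_orth I1 X
    exact ⟨s, hs, X - s, ⟨(Ide L e).sub_mem hX hs.1, ho⟩, by abel⟩
  · intro X hX Y hY
    have h1 := hb2 X (GJ1.Dr_le hL hX.1.1) Y hY
    have h2 : X * Y - Y * X ∈ I1 := by
      have := I1.neg_mem (hb1 Y (GJ1.Dr_le hL hY.1.1) X hX)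
      rwa [neg_sub] at this
    exact sub_eq_zero.1 (hdis _ h2 h1)
  · by_contra hcon
    push Not at hcon
    obtain ⟨a, ha, b, hb, hab⟩ := GJ1.Dr_dec hL hM.1 hM.2.2.1 (hJ1 hY0)
    have h1 : a = 0 := by
      refine cent hL hM ha fun Z hZ => ?_
      have h2 : Z * Y0 - Y0 * Z ∈ I1 := by
        refine ⟨?_, hJ2 Z (GJ1.Dr_le hL hZ.1) Y0 hY0⟩
        have := (Ide L e).neg_mem (GJ1.Ide_br hL hM.1 (GJ1.Dr_le hL (hJ1 hY0)) hZ)
        rwa [neg_sub] at this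
      have h3 := hcon _ h2
      rw [hab, mul_add, add_mul, Ide_Kr hL hM hZ hb] at h3
      have h4 : Z * a - a * Z = 0 := by
        rw [← h3]
        abel
      exact sub_eq_zero.1 h4
    rw [h1, zero_add] at hab
    rw [hab] at hY0e
    exact hY0e hb.2
  · by_contra hcon
    push Not at hcon
    apply hJ4
    intro X hX
    obtain ⟨s, hs, ho⟩ := exists_orth I1 X
    have h1 := hcon (X - s) ⟨(Ide L e).sub_mem hX hs.1, ho⟩
    rw [sub_eq_zero.1 h1]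
    exact hs.2

section

variable (hL : LD Om L) {e : Matrix B B ℂ} (hM : Mi L e) {I1 I2 : Submodule ℂ (Matrix B B ℂ)}
  (hS : Sp L e I1 I2)
include hL hM hS

/-- brackets with an element of `L` -/
theorem dec2 {X : Matrix B B ℂ} (hX : X ∈ L) : ∃ z ∈ ZM L, ∃ a ∈ I1, ∃ b ∈ I2,
    ∃ d ∈ GJ1.Kr L e, X = z + a + b + d := by
  obtain ⟨z, hz, c, hc, d, hd, rfl⟩ := dec hL hM hX
  obtain ⟨a, ha, b, hb, rfl⟩ := hS.su c hc
  exact ⟨z, hz, a, ha, b, hb, d, hd, by abel⟩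

theorem br1 {z a b d Y : Matrix B B ℂ} (hz : z ∈ ZM L) (_ha : a ∈ I1) (hb : b ∈ I2)
    (hd : d ∈ GJ1.Kr L e) (hY : Y ∈ I1) :
    (z + a + b + d) * Y - Y * (z + a + b + d) = a * Y - Y * a := by
  have hYL : Y ∈ L := GJ1.Dr_le hL (hS.l1 hY).1
  have h1 : z * Y = Y * z := (hz.1 Y hYL).symm
  have h2 : b * Y = Y * b := (hS.cm Y hY b hb).symm
  have h3 : d * Y = Y * d := (Ide_Kr hL hM (hS.l1 hY) hd).symm
  simp only [add_mul, mul_add]
  rw [h1, h2, h3]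
  abel

/-- elements of `I1` and of `I2` with product zero -/
theorem prod_zero {C C' : Matrix B B ℂ} (hC : C ∈ I1) (hC' : C' ∈ I2) (h : C * C' = 0) :
    C = 0 ∨ C' = 0 := by
  by_cases h0 : C' = 0
  · exact Or.inr h0
  left
  have hC'e : C' * e ≠ 0 := fun h1 => h0 (GJ1.Ide_zero hL hM.1 hM.2.2.1 (hS.l2 hC') h1)
  let N : Submodule ℂ (Matrix B B ℂ) :=
    { carrier := {Y | Y ∈ I1 ∧ Y * C' = 0}
      add_mem' := by
        rintro a b ⟨h1, h2⟩ ⟨h3, h4⟩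
        exact ⟨I1.add_mem h1 h3, by rw [add_mul, h2, h4, add_zero]⟩
      zero_mem' := ⟨I1.zero_mem, zero_mul _⟩
      smul_mem' := by
        rintro c a ⟨h1, h2⟩
        exact ⟨I1.smul_mem _ h1, by rw [Matrix.smul_mul, h2, smul_zero]⟩ }
  have hN : ∀ X ∈ L, ∀ Y ∈ N, X * Y - Y * X ∈ N := by
    rintro X hX Y ⟨h1, h2⟩
    refine ⟨hS.b1 X hX Y h1, ?_⟩
    obtain ⟨z, hz, a, ha, b, hb, d, hd, rfl⟩ := dec2 hL hM hS hX
    rw [br1 hL hM hS hz ha hb hd h1, sub_mul, mul_assoc, h2, mul_zero, mul_assoc,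
      hS.cm a ha C' hC', ← mul_assoc, h2, zero_mul, sub_zero]
  have h1 := irr hL hM N hN hC'e (by
    rw [← mul_assoc, ← hM.1 C' (GJ1.Dr_le hL (hS.l2 hC').1), mul_assoc, hM.2.1])
    (fun Y hY => by rw [← mul_assoc, hY.2, zero_mul])
  exact GJ1.Ide_zero hL hM.1 hM.2.2.1 (hS.l1 hC) (h1 C ⟨hC, h⟩)

/-- an involution commutes with one of the two ideals -/
theorem inv_comm {D : Matrix B B ℂ} (hD : D ∈ L) (h2 : D * D = 1) :
    (∀ Y ∈ I1, Y * D = D * Y) ∨ ∀ Y ∈ I2, Y * D = D * Y := by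
  by_contra hcon
  push Not at hcon
  obtain ⟨⟨Y, hY, hYD⟩, Y', hY', hYD'⟩ := hcon
  have anti : ∀ Z : Matrix B B ℂ, (Z * D - D * Z) * D + D * (Z * D - D * Z) = 0 := by
    intro Z
    have h3 : (Z * D - D * Z) * D + D * (Z * D - D * Z) = Z * (D * D) - D * D * Z := by
      noncomm_ring
    rw [h3, h2, mul_one, one_mul, sub_self]
  have mem : ∀ (I : Submodule ℂ (Matrix B B ℂ)), (∀ X ∈ L, ∀ Y ∈ I, X * Y - Y * X ∈ I) →
      ∀ Z ∈ I, Z * D - D * Z ∈ I := by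
    intro I hI Z hZ
    have := I.neg_mem (hI D hD Z hZ)
    rwa [neg_sub] at this
  set C := Y * D - D * Y with hC
  set C' := Y' * D - D * Y' with hC'
  have mC : C ∈ I1 := mem I1 hS.b1 Y hY
  have mC' : C' ∈ I2 := mem I2 hS.b2 Y' hY'
  have c1 : C * Y' = Y' * C := hS.cm C mC Y' hY'
  have c2 : C * C' = C' * C := hS.cm C mC C' mC'
  have h3 : C * D + D * C = 0 := anti Y
  have h4 : C * C' + C' * C = 0 := by
    have h5 : C * C' + C' * C = Y' * (C * D + D * C) - (C * D + D * C) * Y' := by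
      rw [hC']
      have e1 : C * (Y' * D - D * Y') + (Y' * D - D * Y') * C =
          C * Y' * D - C * D * Y' + (Y' * D * C - D * (Y' * C)) := by noncomm_ring
      rw [e1, c1]
      have e2 : D * (Y' * C) = D * C * Y' := by rw [← c1, mul_assoc]
      rw [e2]
      noncomm_ring
    rw [h5, h3, mul_zero, zero_mul, sub_zero]
  have h5 : C * C' = 0 := by
    rw [← c2] at h4
    have h6 : (2 : ℂ) • (C * C') = 0 := by rw [two_smul]; exact h4
    exact (smul_eq_zero.1 h6).resolve_left two_ne_zero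
  rcases prod_zero hL hM hS mC mC' h5 with h6 | h6
  · exact hYD (sub_eq_zero.1 h6)
  · exact hYD' (sub_eq_zero.1 h6)

/-- an involution commuting with `I2` has no component there -/
theorem no_comp {D : Matrix B B ℂ} (hD : D ∈ L) (h : ∀ Y ∈ I2, Y * D = D * Y) :
    ∃ z ∈ ZM L, ∃ a ∈ I1, ∃ d ∈ GJ1.Kr L e, D = z + a + d := by
  obtain ⟨z, hz, a, ha, b, hb, d, hd, rfl⟩ := dec2 hL hM hS hD
  have hb0 : b = 0 := by
    refine cent hL hM (hS.l2 hb) fun Y hY => ?_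
    obtain ⟨y1, hy1, y2, hy2, rfl⟩ := hS.su Y hY
    have h1 := h y2 hy2
    have h2 : (z + b + a + d) * y2 - y2 * (z + b + a + d) = b * y2 - y2 * b :=
      br1 hL hM hS.symm hz hb ha hd hy2
    have h3 : z + b + a + d = z + a + b + d := by abel
    rw [h3, ← h1, sub_self] at h2
    have h4 : y2 * b = b * y2 := (sub_eq_zero.1 h2.symm).symm
    rw [add_mul, mul_add, h4, hS.cm y1 hy1 b hb]
  exact ⟨z, hz, a, ha, d, hd, by rw [hb0, add_zero]⟩

/-- not all the involutions commute with `I1` -/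
theorem exists_nc {Dm : (ℂ ≃+* ℂ) → Matrix B B ℂ} (hH : Hull L Dm) :
    ∃ σ, ¬ ∀ Y ∈ I1, Y * Dm σ = Dm σ * Y := by
  by_contra hcon
  push Not at hcon
  let M : Submodule ℂ (Matrix B B ℂ) :=
    { carrier := {X | ∀ Y ∈ I1, Y * X = X * Y}
      add_mem' := by
        intro a b ha hb Y hY
        rw [mul_add, add_mul, ha Y hY, hb Y hY]
      zero_mem' := by
        intro Y _
        rw [mul_zero, zero_mul]
      smul_mem' := by
        intro c a ha Y hY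
        rw [Matrix.mul_smul, Matrix.smul_mul, ha Y hY] }
  have h1 : L ≤ M := by
    refine hH.gen M hcon ?_
    intro X hX Z hZ Y hY
    have e1 : Y * (X * Z - Z * X) = (Y * X) * Z - (Y * Z) * X := by noncomm_ring
    have e2 : (X * Z - Z * X) * Y = X * (Z * Y) - Z * (X * Y) := by noncomm_ring
    rw [e1, e2, hX Y hY, hZ Y hY, ← hX Y hY, ← hZ Y hY]
    have e3 : Y * X * Z = X * (Y * Z) := by rw [hX Y hY, mul_assoc]
    have e4 : Y * Z * X = Z * (Y * X) := by rw [hZ Y hY, mul_assoc]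
    rw [e3, e4]
  obtain ⟨X, hX, hX0⟩ := hS.n1
  refine hX0 (cent hL hM (hS.l1 hX) fun Y hY => ?_)
  exact (h1 (GJ1.Dr_le hL hY.1) X hX).symm

/-- an element of `L` which acts as a scalar on `e` commutes with the ideal -/
theorem not_scal {D : Matrix B B ℂ} (hD : D ∈ L) (h : ¬ ∀ Y ∈ I1, Y * D = D * Y) (c : ℂ) :
    D * e ≠ c • e := by
  intro hc
  apply h
  intro Y hY
  have hYL : Y ∈ L := GJ1.Dr_le hL (hS.l1 hY).1
  have hYe : Y * e = e * Y := hM.1 Y hYL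
  have h1 : Y * D - D * Y ∈ I1 := by
    have := I1.neg_mem (hS.b1 D hD Y hY)
    rwa [neg_sub] at this
  refine sub_eq_zero.1 (GJ1.Ide_zero hL hM.1 hM.2.2.1 (hS.l1 h1) ?_)
  rw [sub_mul, mul_assoc, hc, mul_assoc, hYe, ← mul_assoc, hc, Matrix.mul_smul, Matrix.smul_mul,
    hYe, sub_self]

end

end GH13

open GH13 in
theorem dec2_of : St_dec2 := by
  intro B _ _ Om L hO hL Dm hH e hM ht hP
  obtain ⟨I1, I2, hS⟩ := exists_sp hL hM ht hP
  refine ⟨{σ | ¬ ∀ Y ∈ I1, Y * Dm σ = Dm σ * Y}, ?_, ?_, ?_⟩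
  · intro σ hσ τ hτ
    have h1 : ∀ Y ∈ I2, Y * Dm σ = Dm σ * Y :=
      (inv_comm hL hM hS (hH.mem σ) (hH.sq σ)).resolve_left hσ
    have h2 : ∀ Y ∈ I1, Y * Dm τ = Dm τ * Y := by
      by_contra hcon
      exact hτ hcon
    obtain ⟨z, hz, a, ha, d, hd, e1⟩ := no_comp hL hM hS (hH.mem σ) h1
    obtain ⟨z', hz', a', ha', d', hd', e2⟩ := no_comp hL hM hS.symm (hH.mem τ) h2
    have k1 : a * d' = d' * a := Ide_Kr hL hM (hS.l1 ha) hd'
    have k2 : a' * d = d * a' := Ide_Kr hL hM (hS.l2 ha') hd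
    have k3 : a * a' = a' * a := hS.cm a ha a' ha'
    have k4 : Dm σ * z' = z' * Dm σ := hz'.1 _ (hH.mem σ)
    have k5 : (a' + d') * z = z * (a' + d') :=
      hz.1 _ (L.add_mem (GJ1.Dr_le hL (hS.l2 ha').1) (GJ1.Dr_le hL hd'.1))
    have h3 : Dm σ * Dm τ - Dm τ * Dm σ = d * d' - d' * d := by
      have h4 : Dm σ * Dm τ - Dm τ * Dm σ =
          Dm σ * (a' + d') - (a' + d') * Dm σ := by
        have h5 : Dm τ = z' + (a' + d') := by rw [e2]; abel
        rw [h5, mul_add, add_mul, k4]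
        abel
      rw [h4, e1]
      have h5 : (z + a + d) * (a' + d') - (a' + d') * (z + a + d) =
          (z * (a' + d') - (a' + d') * z) + (a * a' - a' * a) + (a * d' - d' * a) +
          (d * a' - a' * d) + (d * d' - d' * d) := by noncomm_ring
      rw [h5, k1, k2, k3, k5]
      abel
    rw [h3, sub_mul, mul_assoc, hd'.2, mul_zero, mul_assoc, hd.2, mul_zero, sub_zero]
  · obtain ⟨σ, hσ⟩ := exists_nc hL hM hS hH
    exact ⟨σ, hσ, not_scal hL hM hS (hH.mem σ) hσ⟩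
  · obtain ⟨τ, hτ⟩ := exists_nc hL hM hS.symm hH
    refine ⟨τ, ?_, not_scal hL hM hS.symm (hH.mem τ) hτ⟩
    intro h
    exact h ((inv_comm hL hM hS (hH.mem τ) (hH.sq τ)).resolve_right hτ)

end

end Pool.Agent.NH32
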