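import Pool.Agent.NH32.GtA
import Pool.Agent.NH32.GJ1

/-!
# Project G, stage 2: the torus (H2)
-/

set_option linter.unusedSectionVars false

namespace Pool.Agent.NH32

open Matrix Module

noncomputable section

namespace GH2

variable {B : Type} [Fintype B] [DecidableEq B] {Om : Matrix B B ℂ}
  {L : Submodule ℂ (Matrix B B ℂ)}

/-- A Hermitian element of the ideal with the same bracket action as `D`. -/
theorem comp (hL : LD Om L) {e D : Matrix B B ℂ} (he : e ∈ CM L) (heh : eᴴ = e) (hD : D ∈ L)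
    (hDh : Dᴴ = D) : ∃ y ∈ Ide L e, yᴴ = y ∧ ∀ Y ∈ Ide L e, D * Y - Y * D = y * Y - Y * y := by
  obtain ⟨z, hz, hzL, d, hd, hzd⟩ := GJ1.L_dec hL hD
  obtain ⟨a, ha, b, hb, hab⟩ := GJ1.Dr_dec hL he heh hd
  have hI : ∀ Y ∈ Ide L e, Y ∈ L := fun Y hY => GJ1.Dr_le hL hY.1
  have h1 : ∀ Y ∈ Ide L e, D * Y - Y * D = a * Y - Y * a := by
    intro Y hY
    have h2 : Y * z = z * Y := hz.1 Y (hI Y hY)
    have h3 : b * Y - Y * b = 0 := by
      refine GJ1.Ide_zero hL he heh (GJ1.Ide_br hL he (GJ1.Dr_le hL hb.1) hY) ?_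
      have h4 : Y * e = e * Y := he Y (hI Y hY)
      rw [sub_mul, mul_assoc, h4, ← mul_assoc, hb.2, zero_mul, mul_assoc, hb.2, mul_zero, sub_zero]
    have h5 : D * Y - Y * D = (z * Y - Y * z) + (a * Y - Y * a) + (b * Y - Y * b) := by
      rw [hzd, hab]
      noncomm_ring
    rw [h5, h2, h3, sub_self, zero_add, add_zero]
  have h2 : ∀ Y ∈ Ide L e, D * Y - Y * D = aᴴ * Y - Y * aᴴ := by
    intro Y hY
    have h3 := congrArg Matrix.conjTranspose (h1 _ (GJ1.Ide_adj hL he heh hY))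
    rw [conjTranspose_sub, conjTranspose_mul, conjTranspose_mul, conjTranspose_sub,
      conjTranspose_mul, conjTranspose_mul, conjTranspose_conjTranspose, hDh] at h3
    have h4 : D * Y - Y * D = -(Y * D - D * Y) := by abel
    rw [h4, h3]
    abel
  refine ⟨(1 / 2 : ℂ) • (a + aᴴ), (Ide L e).smul_mem _ ((Ide L e).add_mem ha
    (GJ1.Ide_adj hL he heh ha)), ?_, fun Y hY => ?_⟩
  · rw [conjTranspose_smul, conjTranspose_add, conjTranspose_conjTranspose, add_comm aᴴ]
    congr 1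
    have : star (1 / 2 : ℂ) = 1 / 2 := by
      change starRingEnd ℂ (1 / 2) = 1 / 2
      rw [map_div₀, map_one, map_ofNat]
    exact this
  · have h3 : ((1 / 2 : ℂ) • (a + aᴴ)) * Y - Y * ((1 / 2 : ℂ) • (a + aᴴ)) =
        (1 / 2 : ℂ) • ((a * Y - Y * a) + (aᴴ * Y - Y * aᴴ)) := by
      rw [Matrix.smul_mul, Matrix.mul_smul, ← smul_sub]
      congr 1
      noncomm_ring
    rw [h3, ← h1 Y hY, ← h2 Y hY, ← two_smul ℂ, smul_smul]
    norm_num

/-- A maximal commutative subspace. -/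
theorem exists_max_comm {s : Submodule ℂ (Matrix B B ℂ)} (hadj : ∀ X ∈ s, Xᴴ ∈ s)
    {y : Matrix B B ℂ} (hy : y ∈ s) (hyh : yᴴ = y) :
    ∃ t : Submodule ℂ (Matrix B B ℂ), t ≤ s ∧ y ∈ t ∧ (∀ X ∈ t, Xᴴ ∈ t) ∧
      (∀ X ∈ t, ∀ Y ∈ t, X * Y = Y * X) ∧ ∀ X ∈ s, (∀ Y ∈ t, X * Y = Y * X) → X ∈ t := by
  classical
  let P : Set (Submodule ℂ (Matrix B B ℂ)) := {t | t ≤ s ∧ y ∈ t ∧ (∀ X ∈ t, Xᴴ ∈ t) ∧
    ∀ X ∈ t, ∀ Y ∈ t, X * Y = Y * X}
  have hP0 : P.Nonempty := by
    refine ⟨Submodule.span ℂ {y}, ?_, Submodule.mem_span_singleton_self y, ?_, ?_⟩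
    · rw [Submodule.span_singleton_le_iff_mem]
      exact hy
    · intro X hX
      obtain ⟨c, rfl⟩ := Submodule.mem_span_singleton.1 hX
      rw [conjTranspose_smul, hyh]
      exact Submodule.smul_mem _ _ (Submodule.mem_span_singleton_self y)
    · intro X hX Y hY
      obtain ⟨c, rfl⟩ := Submodule.mem_span_singleton.1 hX
      obtain ⟨c', rfl⟩ := Submodule.mem_span_singleton.1 hY
      simp only [Matrix.smul_mul, Matrix.mul_smul, smul_smul, mul_comm c c']
  obtain ⟨t, ⟨htL, hyt, htadj, htc⟩, hmax⟩ := wellFounded_gt.has_min P hP0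
  have hmaxH : ∀ X ∈ s, Xᴴ = X → (∀ Y ∈ t, X * Y = Y * X) → X ∈ t := by
    intro X hX hXh hXc
    by_contra hcon
    have h1 : t ⊔ Submodule.span ℂ {X} ∈ P := by
      refine ⟨sup_le htL ?_, Submodule.mem_sup_left hyt, ?_, ?_⟩
      · rw [Submodule.span_singleton_le_iff_mem]
        exact hX
      · intro Y hY
        obtain ⟨a, ha, b, hb, rfl⟩ := Submodule.mem_sup.1 hY
        obtain ⟨c, rfl⟩ := Submodule.mem_span_singleton.1 hb
        rw [conjTranspose_add, conjTranspose_smul, hXh]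
        exact Submodule.add_mem_sup (htadj a ha)
          (Submodule.smul_mem _ _ (Submodule.mem_span_singleton_self X))
      · intro Y hY Y' hY'
        obtain ⟨a, ha, b, hb, rfl⟩ := Submodule.mem_sup.1 hY
        obtain ⟨c, rfl⟩ := Submodule.mem_span_singleton.1 hb
        obtain ⟨a', ha', b', hb', rfl⟩ := Submodule.mem_sup.1 hY'
        obtain ⟨c', rfl⟩ := Submodule.mem_span_singleton.1 hb'
        simp only [mul_add, add_mul, Matrix.smul_mul, Matrix.mul_smul, htc a ha a' ha', hXc a ha,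
          hXc a' ha', smul_smul, mul_comm c c']
        abel
    refine hmax _ h1 (lt_of_le_of_ne le_sup_left fun h2 => hcon ?_)
    rw [h2]
    exact Submodule.mem_sup_right (Submodule.mem_span_singleton_self X)
  refine ⟨t, htL, hyt, htadj, htc, ?_⟩
  intro X hX hXc
  have hXc' : ∀ Y ∈ t, Xᴴ * Y = Y * Xᴴ := by
    intro Y hY
    have h1 := congrArg Matrix.conjTranspose (hXc _ (htadj Y hY))
    rw [conjTranspose_mul, conjTranspose_mul, conjTranspose_conjTranspose] at h1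
    exact h1.symm
  rw [herm_dec X]
  refine t.add_mem (t.smul_mem _ (hmaxH _ (s.add_mem hX (hadj X hX)) (herm_one X) ?_))
    (t.smul_mem _ (hmaxH _ (s.smul_mem _ (s.sub_mem hX (hadj X hX))) (herm_two X) ?_))
  · intro Y hY
    rw [add_mul, mul_add, hXc Y hY, hXc' Y hY]
  · intro Y hY
    rw [Matrix.smul_mul, Matrix.mul_smul, sub_mul, mul_sub, hXc Y hY, hXc' Y hY]

/-- orthonormal Hermitian families -/
def ON (t : Submodule ℂ (Matrix B B ℂ)) {r : ℕ} (T : Fin r → Matrix B B ℂ) : Prop :=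
  (∀ i, T i ∈ t ∧ (T i)ᴴ = T i) ∧ ∀ i j, trace (T i * T j) = if i = j then 1 else 0

theorem ON.coeff {t : Submodule ℂ (Matrix B B ℂ)} {r : ℕ} {T : Fin r → Matrix B B ℂ}
    (h : ON t T) (c : Fin r → ℂ) (j : Fin r) : trace (T j * ∑ i, c i • T i) = c j := by
  rw [Finset.mul_sum, trace_sum, Finset.sum_eq_single j]
  · rw [Matrix.mul_smul, trace_smul, h.2, if_pos rfl, smul_eq_mul, mul_one]
  · intro i _ hi
    rw [Matrix.mul_smul, trace_smul, h.2, if_neg (Ne.symm hi), smul_zero]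
  · intro h1
    exact absurd (Finset.mem_univ _) h1

theorem ON.card {t : Submodule ℂ (Matrix B B ℂ)} {r : ℕ} {T : Fin r → Matrix B B ℂ}
    (h : ON t T) : r ≤ finrank ℂ (Matrix B B ℂ) := by
  have h1 : LinearIndependent ℂ T := by
    rw [Fintype.linearIndependent_iff]
    intro g hg i
    have h2 := h.coeff g i
    rw [hg, mul_zero, trace_zero] at h2
    exact h2.symm
  have := h1.fintype_card_le_finrank
  rwa [Fintype.card_fin] at this

/-- A nonzero Hermitian element orthogonal to the family extends it. -/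
theorem ON.ext {t : Submodule ℂ (Matrix B B ℂ)} {r : ℕ} {T : Fin r → Matrix B B ℂ}
    (h : ON t T) {Z : Matrix B B ℂ} (hZ : Z ∈ t) (hZh : Zᴴ = Z) (hZ0 : Z ≠ 0)
    (ho : ∀ i, trace (T i * Z) = 0) : ∃ T' : Fin (r + 1) → Matrix B B ℂ, ON t T' := by
  have h1 : trace (Z * Z) = ((∑ i, ∑ j, ‖Z i j‖ ^ 2 : ℝ) : ℂ) := by
    have e : trace (Z * Z) = trace (Zᴴ * Z) := by rw [hZh]
    rw [e, trace]
    simp only [diag_apply, Matrix.mul_apply, conjTranspose_apply]
    rw [Finset.sum_comm]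
    push_cast
    refine Finset.sum_congr rfl fun i _ => Finset.sum_congr rfl fun j _ => ?_
    have := Complex.conj_mul' (Z i j)
    exact this
  have h2 : 0 < ∑ i, ∑ j, ‖Z i j‖ ^ 2 := by
    obtain ⟨i, j, hij⟩ : ∃ i j, Z i j ≠ 0 := by
      by_contra hcon
      push Not at hcon
      exact hZ0 (by ext i j; exact hcon i j)
    refine Finset.sum_pos' (fun i _ => Finset.sum_nonneg fun j _ => by positivity)
      ⟨i, Finset.mem_univ _, Finset.sum_pos' (fun j _ => by positivity) ⟨j, Finset.mem_univ _, ?_⟩⟩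
    have : 0 < ‖Z i j‖ := norm_pos_iff.2 hij
    positivity
  obtain ⟨q, hq⟩ : ∃ q : ℝ, q = ∑ i, ∑ j, ‖Z i j‖ ^ 2 := ⟨_, rfl⟩
  rw [← hq] at h1 h2
  let c : ℝ := 1 / Real.sqrt q
  have hc : c * c * q = 1 := by
    have h3 : Real.sqrt q ≠ 0 := (Real.sqrt_pos.2 h2).ne'
    have h4 := Real.mul_self_sqrt h2.le
    have : c * c * q = q / (Real.sqrt q * Real.sqrt q) := by
      simp only [c]
      field_simp
    rw [this, h4, div_self h2.ne']
  refine ⟨Fin.cons ((c : ℂ) • Z) T, ?_, ?_⟩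
  · intro i
    refine Fin.cases ?_ (fun i => ?_) i
    · rw [Fin.cons_zero]
      refine ⟨t.smul_mem _ hZ, ?_⟩
      rw [conjTranspose_smul, hZh]
      congr 1
      exact Complex.conj_ofReal c
    · rw [Fin.cons_succ]
      exact h.1 i
  · intro i j
    refine Fin.cases ?_ (fun i => ?_) i <;> refine Fin.cases ?_ (fun j => ?_) j
    · rw [Fin.cons_zero, if_pos rfl, Matrix.smul_mul, Matrix.mul_smul, trace_smul, trace_smul, h1,
        smul_eq_mul, smul_eq_mul, ← Complex.ofReal_mul, ← Complex.ofReal_mul, ← mul_assoc, hc,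
        Complex.ofReal_one]
    · rw [Fin.cons_zero, Fin.cons_succ, if_neg (Fin.succ_ne_zero j).symm, Matrix.smul_mul,
        trace_smul, trace_mul_comm, ho, smul_zero]
    · rw [Fin.cons_zero, Fin.cons_succ, if_neg (Fin.succ_ne_zero i), Matrix.mul_smul,
        trace_smul, ho, smul_zero]
    · rw [Fin.cons_succ, Fin.cons_succ, h.2]
      simp only [Fin.succ_inj]

theorem exists_on {t : Submodule ℂ (Matrix B B ℂ)} (htadj : ∀ X ∈ t, Xᴴ ∈ t) :
    ∃ (r : ℕ) (T : Fin r → Matrix B B ℂ), ON t T ∧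
      ∀ Y ∈ t, Y = ∑ i, trace (T i * Y) • T i := by
  by_contra hcon
  push Not at hcon
  have hall : ∀ r : ℕ, ∃ T : Fin r → Matrix B B ℂ, ON t T := by
    intro r
    induction r with
    | zero => exact ⟨Fin.elim0, fun i => i.elim0, fun i => i.elim0⟩
    | succ r ih =>
      obtain ⟨T, hT⟩ := ih
      obtain ⟨Y, hY, hne⟩ := hcon r T hT
      obtain ⟨Z, hZ⟩ : ∃ Z, Z = Y - ∑ i, trace (T i * Y) • T i := ⟨_, rfl⟩
      have hZt : Z ∈ t := by
        rw [hZ]
        exact t.sub_mem hY (t.sum_mem fun i _ => t.smul_mem _ (hT.1 i).1)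
      have hZ0 : Z ≠ 0 := by
        rw [hZ]
        exact sub_ne_zero.2 hne
      have ho : ∀ i, trace (T i * Z) = 0 := by
        intro i
        rw [hZ, mul_sub, trace_sub, hT.coeff, sub_self]
      have ho' : ∀ i, trace (T i * Zᴴ) = 0 := by
        intro i
        have h1 : trace (T i * Zᴴ) = star (trace (T i * Z)) := by
          rw [← trace_conjTranspose, conjTranspose_mul, (hT.1 i).2, trace_mul_comm]
        rw [h1, ho, star_zero]
      by_cases h1 : Z + Zᴴ = 0
      · by_cases h2 : Complex.I • (Z - Zᴴ) = 0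
        · exfalso
          apply hZ0
          rw [herm_dec Z, h1, h2, smul_zero, smul_zero, add_zero]
        · refine hT.ext (t.smul_mem _ (t.sub_mem hZt (htadj Z hZt))) (herm_two Z) h2 fun i => ?_
          rw [Matrix.mul_smul, trace_smul, mul_sub, trace_sub, ho, ho', sub_zero, smul_zero]
      · refine hT.ext (t.add_mem hZt (htadj Z hZt)) (herm_one Z) h1 fun i => ?_
        rw [mul_add, trace_add, ho, ho', add_zero]
  obtain ⟨T, hT⟩ := hall (finrank ℂ (Matrix B B ℂ) + 1)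
  have := hT.card
  omega

end GH2

open GH2 in
/-- **H2.** The torus. -/
theorem tv_of : St_tv := by
  intro B _ _ Om L hO hL e he D hD hDh hD2
  have hec : e ∈ CM L := he.1.1
  have heh : eᴴ = e := he.1.2.2.1
  obtain ⟨y, hy, hyh, hyD⟩ := comp hL hec heh hD hDh
  obtain ⟨t, hts, hyt, htadj, htc, htm⟩ :=
    exists_max_comm (fun X hX => GJ1.Ide_adj hL hec heh hX) hy hyh
  obtain ⟨r, T, hT, hTs⟩ := exists_on htadj
  have hspan : ∀ Y ∈ t, Y ∈ Submodule.span ℂ (Set.range T) := by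
    intro Y hY
    rw [hTs Y hY]
    exact Submodule.sum_mem _ fun i _ => Submodule.smul_mem _ _ (Submodule.subset_span ⟨i, rfl⟩)
  refine ⟨r, T, fun i => 1 / 2 * (trace (T i * y)).re, ⟨fun i => ⟨hts (hT.1 i).1, (hT.1 i).2⟩,
    fun i j => htc _ (hT.1 i).1 _ (hT.1 j).1, hT.2, fun Y hY hc => ?_, fun Y hY => ?_⟩⟩
  · refine hspan Y (htm Y hY fun Z hZ => ?_)
    rw [hTs Z hZ, Finset.mul_sum, Finset.sum_mul]
    refine Finset.sum_congr rfl fun i _ => ?_
    rw [Matrix.mul_smul, Matrix.smul_mul, hc i]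
  · have h1 : tor T ((2 : ℝ) • fun i => 1 / 2 * (trace (T i * y)).re) = y := by
      conv_rhs => rw [hTs y hyt]
      unfold tor
      refine Finset.sum_congr rfl fun i _ => ?_
      congr 1
      have h2 : star (trace (T i * y)) = trace (T i * y) := by
        rw [← trace_conjTranspose, conjTranspose_mul, (hT.1 i).2, hyh, trace_mul_comm]
      have h3 : ((trace (T i * y)).re : ℂ) = trace (T i * y) := Complex.conj_eq_iff_re.1 h2
      rw [Pi.smul_apply, smul_eq_mul, ← mul_assoc]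
      norm_num
      exact h3
    rw [h1]
    exact hyD Y hY

end

end Pool.Agent.NH32
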