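import Mathlib
import Pool.Agent.NH32.GsA
import Pool.Agent.NH32.Nor
import Pool.Agent.Y4.G.Full
import Pool.Agent.Y4.G.Link

/-!
# G4: the special linear case, the ideal is simple
-/

set_option linter.unusedSectionVars false

namespace Pool.Agent.NH32

open Matrix Module

noncomputable section

namespace GJ4

variable {B : Type} [Fintype B] [DecidableEq B] {Om : Matrix B B ℂ}
  {L : Submodule ℂ (Matrix B B ℂ)} {e : Matrix B B ℂ}

theorem Dr_le (hL : LD Om L) : Dr L ≤ L := by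
  unfold Dr
  rw [Submodule.span_le]
  rintro _ ⟨X, hX, Y, hY, rfl⟩
  exact hL.br X hX Y hY

theorem br_mem_Dr {X Y : Matrix B B ℂ} (hX : X ∈ L) (hY : Y ∈ L) : X * Y - Y * X ∈ Dr L :=
  Submodule.subset_span ⟨X, hX, Y, hY, rfl⟩

theorem Dr_adj (hL : LD Om L) {X : Matrix B B ℂ} (hX : X ∈ Dr L) : Xᴴ ∈ Dr L := by
  unfold Dr at hX
  induction hX using Submodule.span_induction with
  | mem x hx =>
    obtain ⟨A, hA, C, hC, rfl⟩ := hx
    have h1 : (A * C - C * A)ᴴ = Cᴴ * Aᴴ - Aᴴ * Cᴴ := by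
      rw [conjTranspose_sub, conjTranspose_mul, conjTranspose_mul]
    rw [h1]
    exact br_mem_Dr (hL.adj C hC) (hL.adj A hA)
  | zero =>
    rw [conjTranspose_zero]
    exact Submodule.zero_mem _
  | add x y _ _ h1 h2 =>
    rw [conjTranspose_add]
    exact Submodule.add_mem _ h1 h2
  | smul c x _ h =>
    rw [conjTranspose_smul]
    exact Submodule.smul_mem _ _ h

/-- The trace of an element of the derived algebra on the range of a commuting matrix. -/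
theorem trace_Dr (he : e ∈ CM L) {X : Matrix B B ℂ} (hX : X ∈ Dr L) : trace (X * e) = 0 := by
  unfold Dr at hX
  induction hX using Submodule.span_induction with
  | mem x hx =>
    obtain ⟨A, hA, C, hC, rfl⟩ := hx
    have h1 : trace (C * A * e) = trace (A * C * e) := by
      rw [mul_assoc, he A hA, ← mul_assoc, trace_mul_comm, ← mul_assoc]
    rw [sub_mul, trace_sub, h1, sub_self]
  | zero => rw [zero_mul, trace_zero]
  | add x y _ _ h1 h2 => rw [add_mul, trace_add, h1, h2, add_zero]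
  | smul c x _ h => rw [Matrix.smul_mul, trace_smul, h, smul_zero]

/-- The kernel of `e`. -/
def Ker (L : Submodule ℂ (Matrix B B ℂ)) (e : Matrix B B ℂ) : Submodule ℂ (Matrix B B ℂ) where
  carrier := {X | X ∈ Dr L ∧ X * e = 0}
  add_mem' := by
    rintro X Y ⟨h1, h2⟩ ⟨h3, h4⟩
    exact ⟨(Dr L).add_mem h1 h3, by rw [add_mul, h2, h4, add_zero]⟩
  zero_mem' := ⟨(Dr L).zero_mem, zero_mul _⟩
  smul_mem' := by
    rintro c X ⟨h1, h2⟩
    exact ⟨(Dr L).smul_mem _ h1, by rw [Matrix.smul_mul, h2, smul_zero]⟩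

theorem Ker_adj (hL : LD Om L) (he : e ∈ CM L) (heh : eᴴ = e) {X : Matrix B B ℂ}
    (hX : X ∈ Dr L) (h : X * e = 0) : Xᴴ * e = 0 := by
  have h1 : (X * e)ᴴ = e * Xᴴ := by rw [conjTranspose_mul, heh]
  rw [h, conjTranspose_zero] at h1
  rw [he _ (hL.adj _ (Dr_le hL hX)), ← h1]

/-- The decomposition of the derived algebra. -/
theorem exists_comp (hL : LD Om L) (he : e ∈ CM L) (heh : eᴴ = e) {X : Matrix B B ℂ}
    (hX : X ∈ Dr L) : ∃ A ∈ Ide L e, A * e = X * e := by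
  obtain ⟨s, hs, hs2⟩ := exists_orth (Ker L e) X
  refine ⟨X - s, ⟨(Dr L).sub_mem hX hs.1, fun Y hY hYe => ?_⟩, ?_⟩
  · have h1 := hs2 Yᴴ ⟨Dr_adj hL hY, Ker_adj hL he heh hY hYe⟩
    rw [conjTranspose_conjTranspose] at h1
    rw [trace_mul_comm, h1]
  · rw [sub_mul, hs.2, sub_zero]

theorem eq_zero (hL : LD Om L) (he : e ∈ CM L) (heh : eᴴ = e) {X : Matrix B B ℂ}
    (hX : X ∈ Ide L e) (h : X * e = 0) : X = 0 := by
  have h1 := hX.2 Xᴴ (Dr_adj hL hX.1) (Ker_adj hL he heh hX.1 h)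
  exact trace_self_eq_zero (by rw [trace_mul_comm]; exact h1)

theorem Ide_br (hL : LD Om L) (he : e ∈ CM L) {A X : Matrix B B ℂ} (hA : A ∈ L)
    (hX : X ∈ Ide L e) : A * X - X * A ∈ Ide L e := by
  refine ⟨br_mem_Dr hA (Dr_le hL hX.1), fun Y hY hYe => ?_⟩
  have h1 : (Y * A - A * Y) * e = 0 := by
    rw [sub_mul, mul_assoc, he A hA, ← mul_assoc, hYe, zero_mul, mul_assoc, hYe, mul_zero,
      sub_zero]
  have h2 := hX.2 _ (br_mem_Dr (Dr_le hL hY) hA) h1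
  have h3 : trace ((A * X - X * A) * Y) = trace (X * (Y * A - A * Y)) := by
    rw [sub_mul, mul_sub, trace_sub, trace_sub, mul_assoc, trace_mul_comm, mul_assoc, mul_assoc]
  rw [h3, h2]

theorem comm_ker (hL : LD Om L) (he : e ∈ CM L) (heh : eᴴ = e) {A Y : Matrix B B ℂ}
    (hA : A ∈ Ide L e) (hY : Y ∈ Dr L) (hYe : Y * e = 0) : A * Y - Y * A = 0 := by
  have h1 := Ide_br hL he (Dr_le hL hY) hA
  have h2 : (Y * A - A * Y) * e = 0 := by
    rw [sub_mul, mul_assoc, he A (Dr_le hL hA.1), ← mul_assoc, hYe, zero_mul, mul_assoc, hYe,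
      mul_zero, sub_zero]
  have h3 := eq_zero hL he heh h1 h2
  rw [← neg_sub, h3, neg_zero]

/-- The bracket on the corner. -/
theorem br_e (he : e ∈ CM L) (he2 : e * e = e) {X Y : Matrix B B ℂ} (hX : X ∈ L) (hY : Y ∈ L) :
    (X * e) * (Y * e) - (Y * e) * (X * e) = (X * Y - Y * X) * e := by
  have h1 : ∀ X Y : Matrix B B ℂ, Y ∈ L → (X * e) * (Y * e) = X * Y * e := by
    intro X Y hY
    rw [mul_assoc, ← mul_assoc e, ← he Y hY, mul_assoc Y, he2, mul_assoc]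
  rw [h1 X Y hY, h1 Y X hX, sub_mul]

end GJ4

open GJ4 in
/-- **G4.** The special linear case: the ideal is simple. -/
theorem slpu_of : St_slpu := by
  intro B _ _ Om L hO hL e hSl
  obtain ⟨hMi, htr1, hsl⟩ := hSl
  obtain ⟨he, he2, heh, he0, hM⟩ := hMi
  refine ⟨⟨he, he2, heh, he0, hM⟩, htr1, fun J hJ hJi => ?_⟩
  by_cases hcase : ∀ Y ∈ J, Y * e = 0
  · exact Or.inl hcase
  right
  push Not at hcase
  obtain ⟨Y0, hY0, hY0e⟩ := hcase
  -- matrices of trace zero of the corner come from the ideal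
  have hsl' : ∀ T : Matrix B B ℂ, e * T = T → T * e = T → trace T = 0 →
      ∃ X ∈ Ide L e, X * e = T := by
    intro T h1 h2 h3
    obtain ⟨X, hX, hXe⟩ := hsl T (by rw [h1, h2]) h3
    obtain ⟨A, hA, hAe⟩ := exists_comp hL he heh hX
    exact ⟨A, hA, by rw [hAe, hXe]⟩
  have hle : ∀ X ∈ L, e * (X * e) = X * e ∧ (X * e) * e = X * e := by
    intro X hX
    refine ⟨?_, by rw [mul_assoc, he2]⟩
    rw [he X hX, ← mul_assoc, he2]
  have htr : trace e ≠ 0 := by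
    intro h
    apply he0
    apply trace_self_eq_zero
    rw [heh, he2, h]
  have hns : ∀ X ∈ Dr L, X * e ≠ 0 → ∀ lam : ℂ, X * e ≠ lam • e := by
    intro X hX hne lam h
    have h1 := trace_Dr he hX
    rw [h, trace_smul, smul_eq_mul] at h1
    rcases mul_eq_zero.1 h1 with h2 | h2
    · apply hne
      rw [h, h2, zero_smul]
    · exact htr h2
  have hvl : ∀ v l : B → ℂ, e *ᵥ v = v → l ᵥ* e = l → l ⬝ᵥ v = 0 →
      ∃ X ∈ Ide L e, X * e = vecMulVec v l := by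
    intro v l hv hl hlv
    refine hsl' _ ?_ ?_ ?_
    · rw [mul_vecMulVec, hv]
    · rw [vecMulVec_mul, hl]
    · rw [trace_vecMulVec, dotProduct_comm]
      exact hlv
  -- all matrices of trace zero of the corner come from a nonzero ideal
  have hfull : ∀ K : Submodule ℂ (Matrix B B ℂ), K ≤ Dr L →
      (∀ X ∈ Ide L e, ∀ Y ∈ K, X * Y - Y * X ∈ K) → (∃ Y ∈ K, Y * e ≠ 0) →
      ∀ X ∈ Dr L, ∃ Y ∈ K, Y * e = X * e := by
    rintro K hK hKi ⟨Y1, hY1, hY1e⟩ X hX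
    have hnil : Y4.G.Nil (Y4.G.im K e) e := by
      refine Y4.G.nil_of_ideal he2 ?_ ?_ (x := Y1 * e) ⟨Y1, hY1, rfl⟩ (hns Y1 (hK hY1) hY1e)
      · rintro v l hv hl hlv _ ⟨Y, hY, rfl⟩
        obtain ⟨A, hA, hAe⟩ := hvl v l hv hl hlv
        rw [← hAe, br_e he he2 (Dr_le hL hA.1) (Dr_le hL (hK hY))]
        exact ⟨_, hKi A hA Y hY, rfl⟩
      · rintro _ ⟨Y, hY, rfl⟩
        exact hle Y (Dr_le hL (hK hY))
    have h1 := hle X (Dr_le hL hX)
    exact Y4.G.traceless_mem hnil he2 h1.1 h1.2 (trace_Dr he hX)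
  have hJfull := hfull J hJ (fun X hX Y hY => hJi X (Dr_le hL hX.1) Y hY) ⟨Y0, hY0, hY0e⟩
  -- the span of the brackets
  let K : Submodule ℂ (Matrix B B ℂ) :=
    Submodule.span ℂ {Z | ∃ X ∈ Ide L e, ∃ Y ∈ Ide L e, Z = X * Y - Y * X}
  have hbrK : ∀ X ∈ Ide L e, ∀ Y ∈ Ide L e, X * Y - Y * X ∈ K := fun X hX Y hY =>
    Submodule.subset_span ⟨X, hX, Y, hY, rfl⟩
  have hKI : K ≤ Ide L e := by
    rw [Submodule.span_le]
    rintro _ ⟨X, hX, Y, hY, rfl⟩
    exact Ide_br hL he (Dr_le hL hX.1) hY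
  have hKJ : K ≤ J := by
    rw [Submodule.span_le]
    rintro _ ⟨Z, hZ, W, hW, rfl⟩
    obtain ⟨Y, hY, hYe⟩ := hJfull W hW.1
    have h1 := comm_ker hL he heh hZ ((Dr L).sub_mem (hJ hY) hW.1)
      (by rw [sub_mul, hYe, sub_self])
    have h2 : Z * W - W * Z = Z * Y - Y * Z - (Z * (Y - W) - (Y - W) * Z) := by noncomm_ring
    rw [h2, h1, sub_zero]
    exact hJi Z (Dr_le hL hZ.1) Y hY
  -- a nonzero bracket
  have hne : ∃ Y ∈ K, Y * e ≠ 0 := by
    obtain ⟨X0, hX0, hX0e⟩ := exists_comp hL he heh (hJ hY0)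
    have hx0 : X0 * e ≠ 0 := by rw [hX0e]; exact hY0e
    obtain ⟨v, k, hv, hk, hkv, hne⟩ : ∃ v k : B → ℂ, e *ᵥ v = v ∧ k ᵥ* e = k ∧ k ⬝ᵥ v = 0 ∧
        k ⬝ᵥ ((X0 * e) *ᵥ v) ≠ 0 := by
      by_contra hcon
      push Not at hcon
      have h1 := hle X0 (Dr_le hL hX0.1)
      obtain ⟨lam, hlam⟩ := Y4.G.scalar_of_nil he2 h1.1 h1.2 hcon
      exact hns X0 hX0.1 hx0 lam hlam
    obtain ⟨A, hA, hAe⟩ := hvl v k hv hk hkv
    refine ⟨A * X0 - X0 * A, hbrK A hA X0 hX0, fun h => hne ?_⟩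
    rw [← br_e he he2 (Dr_le hL hA.1) (Dr_le hL hX0.1), hAe, sub_eq_zero] at h
    -- `y z = z y` with `y = v k`
    obtain ⟨z, hz⟩ : ∃ z, z = X0 * e := ⟨_, rfl⟩
    rw [← hz] at h ⊢
    have h3 : vecMulVec v k * z * vecMulVec v k = (k ⬝ᵥ (z *ᵥ v)) • vecMulVec v k := by
      rw [vecMulVec_mul, Y4.G.vmv_mul, dotProduct_mulVec]
    rw [h, mul_assoc, Y4.G.vmv_mul, hkv, zero_smul, mul_zero] at h3
    rcases smul_eq_zero.1 h3.symm with h4 | h4
    · exact h4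
    · by_contra hcon
      have hv0 : v = 0 ∨ k = 0 := by
        by_contra hc
        push Not at hc
        obtain ⟨i, hi⟩ := Function.ne_iff.1 hc.1
        obtain ⟨j, hj⟩ := Function.ne_iff.1 hc.2
        have h5 := congrFun (congrFun h4 i) j
        rw [vecMulVec_apply] at h5
        exact mul_ne_zero hi hj h5
      rcases hv0 with rfl | rfl
      · exact hcon (by rw [mulVec_zero, dotProduct_zero])
      · exact hcon (by rw [zero_dotProduct])
  have hKfull := hfull K (fun X hX => (hKI hX).1)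
    (fun X hX Y hY => hbrK X hX Y (hKI hY)) hne
  intro X hX
  obtain ⟨Y, hY, hYe⟩ := hKfull X hX.1
  have h1 := eq_zero hL he heh ((Ide L e).sub_mem hX (hKI hY)) (by rw [sub_mul, hYe, sub_self])
  rw [sub_eq_zero.1 h1]
  exact hKJ hY

end

end Pool.Agent.NH32
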