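import Pool.Agent.NH32.GtA
import Pool.Agent.NH32.GJ1
import Pool.Agent.NH32.GJ3
import Pool.Agent.NH32.GJ4
import Pool.Agent.NH32.Rts

/-!
# GH3: the root vectors (helper68)
-/

set_option linter.unusedSectionVars false

namespace Pool.Agent.NH32

open Matrix Module

noncomputable section

namespace GH3

variable {B : Type} [Fintype B] [DecidableEq B] {s : Submodule ℂ (Matrix B B ℂ)}
  {D : Matrix B B ℂ} {r : ℕ} {T : Fin r → Matrix B B ℂ} {h : Fin r → ℝ}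

/-! ### Vectors -/

theorem dot_pos {x : Fin r → ℝ} (hx : x ≠ 0) : 0 < x ⬝ᵥ x := by
  have h1 : 0 ≤ x ⬝ᵥ x := Finset.sum_nonneg fun i _ => mul_self_nonneg _
  rcases h1.lt_or_eq with h2 | h2
  · exact h2
  · exact absurd (dotProduct_self_eq_zero.1 h2.symm) hx

theorem rf_dot (a x y : Fin r → ℝ) : rf a x ⬝ᵥ y = x ⬝ᵥ rf a y := by
  unfold rf pr
  rw [sub_dotProduct, dotProduct_sub, smul_dotProduct, dotProduct_smul, smul_eq_mul, smul_eq_mul,
    dotProduct_comm y a]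
  ring

theorem rf_rf {a : Fin r → ℝ} (ha : a ≠ 0) (x : Fin r → ℝ) : rf a (rf a x) = x := by
  have h0 := (dot_pos ha).ne'
  have h1 : pr a (rf a x) = - pr a x := by
    unfold rf pr
    rw [sub_dotProduct, smul_dotProduct, smul_eq_mul]
    field_simp
    ring
  unfold rf at h1 ⊢
  rw [h1]
  module

theorem rf_norm {a : Fin r → ℝ} (ha : a ≠ 0) (x : Fin r → ℝ) : rf a x ⬝ᵥ rf a x = x ⬝ᵥ x := by
  rw [rf_dot, rf_rf ha]

theorem rf_smul (a x : Fin r → ℝ) (c : ℝ) : rf a (c • x) = c • rf a x := by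
  unfold rf pr
  rw [smul_dotProduct, smul_eq_mul, smul_sub, smul_smul]
  congr 2
  ring

theorem rf_ne {a : Fin r → ℝ} (ha : a ≠ 0) {x : Fin r → ℝ} (hx : x ≠ 0) : rf a x ≠ 0 := by
  intro h0
  apply hx
  rw [← rf_rf ha x, h0]
  unfold rf pr
  simp

/-! ### The torus -/

theorem tor_add (x y : Fin r → ℝ) : tor T (x + y) = tor T x + tor T y := by
  unfold tor
  rw [← Finset.sum_add_distrib]
  refine Finset.sum_congr rfl fun i _ => ?_
  rw [Pi.add_apply, Complex.ofReal_add, add_smul]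

theorem tor_smul (c : ℝ) (x : Fin r → ℝ) : tor T (c • x) = (c : ℂ) • tor T x := by
  unfold tor
  rw [Finset.smul_sum]
  refine Finset.sum_congr rfl fun i _ => ?_
  rw [Pi.smul_apply, smul_eq_mul, Complex.ofReal_mul, smul_smul]

theorem tor_neg (x : Fin r → ℝ) : tor T (-x) = - tor T x := by
  unfold tor
  rw [← Finset.sum_neg_distrib]
  refine Finset.sum_congr rfl fun i _ => ?_
  rw [Pi.neg_apply, Complex.ofReal_neg, neg_smul]

theorem tor_sub (x y : Fin r → ℝ) : tor T (x - y) = tor T x - tor T y := by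
  rw [sub_eq_add_neg, tor_add, tor_neg, ← sub_eq_add_neg]

theorem tor_single (i : Fin r) : tor T (Pi.single i 1) = T i := by
  unfold tor
  rw [Finset.sum_eq_single i]
  · rw [Pi.single_eq_same, Complex.ofReal_one, one_smul]
  · intro j _ hj
    rw [Pi.single_eq_of_ne hj, Complex.ofReal_zero, zero_smul]
  · intro hi
    exact absurd (Finset.mem_univ i) hi

theorem tor_H (hT : ∀ i, (T i)ᴴ = T i) (x : Fin r → ℝ) : (tor T x)ᴴ = tor T x := by
  unfold tor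
  rw [conjTranspose_sum]
  refine Finset.sum_congr rfl fun i _ => ?_
  rw [conjTranspose_smul, hT i]
  congr 1
  exact Complex.conj_ofReal _

theorem tor_mem (hT : ∀ i, T i ∈ s) (x : Fin r → ℝ) : tor T x ∈ s :=
  s.sum_mem fun i _ => s.smul_mem _ (hT i)

theorem trace_tor (ht : ∀ i j, trace (T i * T j) = if i = j then 1 else 0) (x : Fin r → ℝ)
    (i : Fin r) : trace (tor T x * T i) = (x i : ℂ) := by
  unfold tor
  rw [Finset.sum_mul, trace_sum, Finset.sum_eq_single i]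
  · rw [Matrix.smul_mul, trace_smul, ht, if_pos rfl, smul_eq_mul, mul_one]
  · intro j _ hj
    rw [Matrix.smul_mul, trace_smul, ht, if_neg hj, smul_zero]
  · intro hi
    exact absurd (Finset.mem_univ i) hi

theorem tor_inj (ht : ∀ i j, trace (T i * T j) = if i = j then 1 else 0) {x : Fin r → ℝ}
    (h0 : tor T x = 0) : x = 0 := by
  funext i
  have h1 := trace_tor ht x i
  rw [h0, zero_mul, trace_zero] at h1
  exact_mod_cast h1.symm

theorem exp_tor (ht : ∀ i j, trace (T i * T j) = if i = j then 1 else 0) {Y : Matrix B B ℂ}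
    (hY : Y ∈ Submodule.span ℂ (Set.range T)) : Y = ∑ i, trace (Y * T i) • T i := by
  induction hY using Submodule.span_induction with
  | mem x hx =>
    obtain ⟨j, rfl⟩ := hx
    rw [Finset.sum_eq_single j]
    · rw [ht, if_pos rfl, one_smul]
    · intro i _ hi
      rw [ht, if_neg (Ne.symm hi), zero_smul]
    · intro hi
      exact absurd (Finset.mem_univ j) hi
  | zero => simp
  | add x y _ _ hx hy =>
    nth_rewrite 1 [hx]
    nth_rewrite 1 [hy]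
    rw [← Finset.sum_add_distrib]
    refine Finset.sum_congr rfl fun i _ => ?_
    rw [add_mul, trace_add, add_smul]
  | smul c x _ hx =>
    nth_rewrite 1 [hx]
    rw [Finset.smul_sum]
    refine Finset.sum_congr rfl fun i _ => ?_
    rw [Matrix.smul_mul, trace_smul, smul_smul, smul_eq_mul]

/-! ### Weight vectors -/

/-- The weight vectors of `s`. -/
def Wt (s : Submodule ℂ (Matrix B B ℂ)) (T : Fin r → Matrix B B ℂ) (γ : Fin r → ℝ)
    (Y : Matrix B B ℂ) : Prop :=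
  Y ∈ s ∧ ∀ x : Fin r → ℝ, tor T x * Y - Y * tor T x = ((γ ⬝ᵥ x : ℝ) : ℂ) • Y

/-- The abstract situation. -/
structure Ab (s : Submodule ℂ (Matrix B B ℂ)) (D : Matrix B B ℂ) (r : ℕ)
    (T : Fin r → Matrix B B ℂ) (h : Fin r → ℝ) : Prop where
  tv : TV s D r T h
  br : ∀ X ∈ s, ∀ Y ∈ s, X * Y - Y * X ∈ s
  adj : ∀ X ∈ s, Xᴴ ∈ s
  cen : ∀ X ∈ s, (∀ Y ∈ s, X * Y = Y * X) → X = 0
  sim : ∀ J ≤ s, (∀ X ∈ s, ∀ Y ∈ J, X * Y - Y * X ∈ J) → (∀ Y ∈ J, Y = 0) ∨ s ≤ J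
  d2 : D * D = 1
  nc : ∃ Y ∈ s, D * Y ≠ Y * D

theorem Wt.smul {γ : Fin r → ℝ} {Y : Matrix B B ℂ} (hY : Wt s T γ Y) (c : ℂ) :
    Wt s T γ (c • Y) := by
  refine ⟨s.smul_mem _ hY.1, fun x => ?_⟩
  rw [Matrix.mul_smul, Matrix.smul_mul, ← smul_sub, hY.2 x, smul_comm]

theorem Wt.sub {γ : Fin r → ℝ} {Y Z : Matrix B B ℂ} (hY : Wt s T γ Y) (hZ : Wt s T γ Z) :
    Wt s T γ (Y - Z) := by
  refine ⟨s.sub_mem hY.1 hZ.1, fun x => ?_⟩
  rw [smul_sub, ← hY.2 x, ← hZ.2 x]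
  noncomm_ring

variable (hA : Ab s D r T h)

include hA

theorem Wt.br {γ δ : Fin r → ℝ} {Y Z : Matrix B B ℂ} (hY : Wt s T γ Y) (hZ : Wt s T δ Z) :
    Wt s T (γ + δ) (Y * Z - Z * Y) := by
  refine ⟨hA.br _ hY.1 _ hZ.1, fun x => ?_⟩
  have h1 := hY.2 x
  have h2 := hZ.2 x
  have e1 : tor T x * (Y * Z - Z * Y) - (Y * Z - Z * Y) * tor T x =
      ((tor T x * Y - Y * tor T x) * Z - Z * (tor T x * Y - Y * tor T x)) +
      (Y * (tor T x * Z - Z * tor T x) - (tor T x * Z - Z * tor T x) * Y) := by noncomm_ring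
  rw [e1, h1, h2, add_dotProduct, Complex.ofReal_add, add_smul]
  simp only [Matrix.smul_mul, Matrix.mul_smul]
  rw [smul_sub, smul_sub]

theorem Wt.adj {γ : Fin r → ℝ} {Y : Matrix B B ℂ} (hY : Wt s T γ Y) : Wt s T (-γ) Yᴴ := by
  refine ⟨hA.adj _ hY.1, fun x => ?_⟩
  have h1 := congrArg Matrix.conjTranspose (hY.2 x)
  rw [conjTranspose_sub, conjTranspose_mul, conjTranspose_mul, tor_H (fun i => (hA.tv.m i).2),
    conjTranspose_smul] at h1
  have h2 : star ((γ ⬝ᵥ x : ℝ) : ℂ) = ((γ ⬝ᵥ x : ℝ) : ℂ) := Complex.conj_ofReal _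
  rw [h2] at h1
  rw [neg_dotProduct, Complex.ofReal_neg, neg_smul, ← h1, neg_sub]

theorem wtT (i : Fin r) : Wt s T 0 (T i) := by
  refine ⟨(hA.tv.m i).1, fun x => ?_⟩
  rw [zero_dotProduct, Complex.ofReal_zero, zero_smul, sub_eq_zero]
  unfold tor
  rw [Finset.sum_mul, Finset.mul_sum]
  refine Finset.sum_congr rfl fun j _ => ?_
  rw [Matrix.smul_mul, Matrix.mul_smul, hA.tv.c j i]

theorem Wt.span {Y : Matrix B B ℂ} (hY : Wt s T 0 Y) :
    Y ∈ Submodule.span ℂ (Set.range T) := by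
  refine hA.tv.mx Y hY.1 fun i => ?_
  have h1 := hY.2 (Pi.single i 1)
  rw [zero_dotProduct, Complex.ofReal_zero, zero_smul, tor_single, sub_eq_zero] at h1
  exact h1

/-- The coefficients of the brackets of weight zero. -/
theorem br_coef {γ : Fin r → ℝ} {X Y : Matrix B B ℂ} (hX : Wt s T γ X) (hY : Wt s T γ Y) :
    Y * Xᴴ - Xᴴ * Y = trace (Xᴴ * Y) • tor T γ := by
  have h1 : Wt s T 0 (Y * Xᴴ - Xᴴ * Y) := by
    have := Wt.br hA hY (Wt.adj hA hX)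
    rwa [add_neg_cancel] at this
  rw [exp_tor hA.tv.t (Wt.span hA h1)]
  unfold tor
  rw [Finset.smul_sum]
  refine Finset.sum_congr rfl fun i _ => ?_
  have h2 : trace ((Y * Xᴴ - Xᴴ * Y) * T i) = trace (Xᴴ * (T i * Y - Y * T i)) := by
    rw [sub_mul, mul_sub, trace_sub, trace_sub, mul_assoc, trace_mul_comm Y, mul_assoc,
      mul_assoc]
  have h3 := hY.2 (Pi.single i 1)
  rw [tor_single] at h3
  rw [h2, h3, Matrix.mul_smul, trace_smul, smul_smul, smul_eq_mul, mul_comm]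
  congr 3
  rw [dotProduct_single, mul_one]

theorem Wt.level {γ : Fin r → ℝ} {Y : Matrix B B ℂ} (hY : Wt s T γ Y) :
    D * Y - Y * D = ((2 * (γ ⬝ᵥ h) : ℝ) : ℂ) • Y := by
  rw [hA.tv.d Y hY.1, hY.2, dotProduct_smul, smul_eq_mul]

theorem lev_of {γ : Fin r → ℝ} {Y : Matrix B B ℂ} (hY : Wt s T γ Y) (h0 : Y ≠ 0) :
    γ ⬝ᵥ h = 0 ∨ γ ⬝ᵥ h = 1 ∨ γ ⬝ᵥ h = -1 := by
  have h1 := Wt.level hA hY
  obtain ⟨c, hc⟩ : ∃ c : ℝ, c = γ ⬝ᵥ h := ⟨_, rfl⟩
  rw [← hc] at h1 ⊢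
  have h2 : D * (D * (D * Y - Y * D) - (D * Y - Y * D) * D) -
      (D * (D * Y - Y * D) - (D * Y - Y * D) * D) * D = 4 * (D * Y - Y * D) := by
    have e1 : D * (D * (D * Y - Y * D) - (D * Y - Y * D) * D) -
      (D * (D * Y - Y * D) - (D * Y - Y * D) * D) * D = (D * D) * D * Y - 3 * ((D * D) * Y * D) +
        3 * (D * Y * (D * D)) - Y * D * (D * D) := by noncomm_ring
    rw [e1, hA.d2]
    noncomm_ring
  have h3 : D * Y - Y * D = ((2 * c : ℝ) : ℂ) • Y := h1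
  have h4 : ∀ a : ℂ, D * (a • Y) - (a • Y) * D = (a * ((2 * c : ℝ) : ℂ)) • Y := by
    intro a
    rw [Matrix.mul_smul, Matrix.smul_mul, ← smul_sub, h3, smul_smul]
  rw [h3, h4, h4] at h2
  have h5 : (4 : Matrix B B ℂ) * (((2 * c : ℝ) : ℂ) • Y) = ((4 : ℂ) * ((2 * c : ℝ) : ℂ)) • Y := by
    rw [← smul_smul]
    have : (4 : Matrix B B ℂ) = (4 : ℂ) • (1 : Matrix B B ℂ) := by
      ext i j
      simp [Matrix.ofNat_apply, Matrix.one_apply]
    rw [this, Matrix.smul_mul, one_mul]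
  rw [h5, ← sub_eq_zero, ← sub_smul] at h2
  have h6 := (smul_eq_zero.1 h2).resolve_right h0
  have h7 : 2 * c * (2 * c) * (2 * c) - 4 * (2 * c) = 0 := by
    have : ((2 * c * (2 * c) * (2 * c) - 4 * (2 * c) : ℝ) : ℂ) = 0 := by
      push_cast at h6 ⊢
      exact h6
    exact_mod_cast this
  have h8 : c * ((c - 1) * (c + 1)) = 0 := by linear_combination h7 / 8
  rcases mul_eq_zero.1 h8 with h9 | h9
  · exact Or.inl h9
  · rcases mul_eq_zero.1 h9 with h9 | h9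
    · exact Or.inr (Or.inl (by linarith))
    · exact Or.inr (Or.inr (by linarith))

theorem lev_one {γ : Fin r → ℝ} {Y : Matrix B B ℂ} (hY : Wt s T γ Y) (h1 : γ ⬝ᵥ h = 1) :
    D * Y = Y ∧ Y * D = -Y := by
  have h2 := Wt.level hA hY
  rw [h1, mul_one] at h2
  have h3 : D * Y - Y * D = 2 * Y := by
    rw [h2]
    have : (2 : Matrix B B ℂ) = (2 : ℂ) • (1 : Matrix B B ℂ) := by
      ext i j
      simp [Matrix.ofNat_apply, Matrix.one_apply]
    rw [this, Matrix.smul_mul, one_mul]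
    push_cast
    rfl
  have h4 : D * (D * Y - Y * D) + (D * Y - Y * D) * D = 0 := by
    have e1 : D * (D * Y - Y * D) + (D * Y - Y * D) * D = (D * D) * Y - Y * (D * D) := by
      noncomm_ring
    rw [e1, hA.d2, one_mul, mul_one, sub_self]
  rw [h3] at h4
  have h5 : D * Y + Y * D = 0 := by
    have e1 : D * (2 * Y) + 2 * Y * D = (2 : ℂ) • (D * Y + Y * D) := by
      rw [two_mul, two_smul]
      noncomm_ring
    rw [e1] at h4
    exact (smul_eq_zero.1 h4).resolve_left two_ne_zero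
  have h6 : (2 : ℂ) • (D * Y) = (2 : ℂ) • Y := by
    rw [two_smul, two_smul]
    have e1 : D * Y + D * Y = (D * Y - Y * D) + (D * Y + Y * D) := by noncomm_ring
    rw [e1, h3, h5, add_zero, two_mul]
  have h7 : D * Y = Y := smul_right_injective _ (two_ne_zero' ℂ) h6
  refine ⟨h7, ?_⟩
  rw [h7] at h5
  exact (neg_eq_of_add_eq_zero_right h5).symm

theorem mul_zero_one {γ δ : Fin r → ℝ} {Y Z : Matrix B B ℂ} (hY : Wt s T γ Y)
    (h1 : γ ⬝ᵥ h = 1) (hZ : Wt s T δ Z) (h2 : δ ⬝ᵥ h = 1) : Y * Z = 0 := by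
  have h3 := (lev_one hA hY h1).2
  have h4 := (lev_one hA hZ h2).1
  have h5 : Y * Z = -(Y * Z) := by
    nth_rewrite 1 [← h4]
    rw [← mul_assoc, h3, neg_mul]
  have h6 : (2 : ℂ) • (Y * Z) = 0 := by
    rw [two_smul]
    nth_rewrite 1 [h5]
    exact neg_add_cancel _
  exact (smul_eq_zero.1 h6).resolve_left two_ne_zero

/-- A root vector: `X X^H X = X` and `X X = 0`, it spans its weight space. -/
structure Good (s : Submodule ℂ (Matrix B B ℂ)) (T : Fin r → Matrix B B ℂ) (γ : Fin r → ℝ)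
    (X : Matrix B B ℂ) : Prop where
  wt : Wt s T γ X
  g0 : γ ≠ 0
  ne : X ≠ 0
  p3 : X * Xᴴ * X = X
  p2 : X * X = 0
  b : X * Xᴴ - Xᴴ * X = tor T ((2 / (γ ⬝ᵥ γ)) • γ)
  one : ∀ Y, Wt s T γ Y → ∃ c : ℂ, Y = c • X

theorem good_of_lev {γ : Fin r → ℝ} {X : Matrix B B ℂ} (hX : Wt s T γ X) (h0 : X ≠ 0)
    (h1 : γ ⬝ᵥ h = 1) : ∃ X', Good s T γ X' := by
  have hg : γ ≠ 0 := by
    rintro rfl
    rw [zero_dotProduct] at h1
    exact zero_ne_one h1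
  have hg2 := dot_pos hg
  have hXX : X * X = 0 := mul_zero_one hA hX h1 hX h1
  obtain ⟨N, hN, hN2⟩ : ∃ N : ℝ, 0 < N ∧ trace (Xᴴ * X) = (N : ℂ) := by
    refine ⟨nsq X, nsq_pos h0, ?_⟩
    rw [trace_mul_comm, nsq_trace]
  have hb := br_coef hA hX hX
  rw [hN2] at hb
  have hb2 : X * Xᴴ - Xᴴ * X = tor T (N • γ) := by rw [hb, tor_smul]
  -- the cube
  have h3 : (2 : ℂ) • (X * Xᴴ * X) = ((N * (γ ⬝ᵥ γ) : ℝ) : ℂ) • X := by
    have e1 := hX.2 (N • γ)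
    rw [← hb2, dotProduct_smul, smul_eq_mul] at e1
    rw [← e1, two_smul]
    have e2 : (X * Xᴴ - Xᴴ * X) * X - X * (X * Xᴴ - Xᴴ * X) =
        X * Xᴴ * X + X * Xᴴ * X - Xᴴ * (X * X) - (X * X) * Xᴴ := by noncomm_ring
    rw [e2, hXX, mul_zero, zero_mul, sub_zero, sub_zero]
  obtain ⟨κ, hκ⟩ : ∃ κ : ℝ, κ = N * (γ ⬝ᵥ γ) / 2 := ⟨_, rfl⟩
  have hκ0 : 0 < κ := by rw [hκ]; positivity
  have h4 : X * Xᴴ * X = (κ : ℂ) • X := by
    have e1 : (2 : ℂ) • (X * Xᴴ * X) = (2 : ℂ) • ((κ : ℂ) • X) := by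
      rw [h3, smul_smul, hκ]
      congr 1
      push_cast
      ring
    exact smul_right_injective _ (two_ne_zero' ℂ) e1
  obtain ⟨c, hc⟩ : ∃ c : ℝ, c = (Real.sqrt κ)⁻¹ := ⟨_, rfl⟩
  have hc2 : c * c * κ = 1 := by
    rw [hc]
    have := Real.mul_self_sqrt hκ0.le
    have h5 : Real.sqrt κ ≠ 0 := (Real.sqrt_pos.2 hκ0).ne'
    field_simp
    linarith
  have hc0 : c ≠ 0 := by
    rintro rfl
    simp at hc2
  have hcs : star (c : ℂ) = (c : ℂ) := Complex.conj_ofReal _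
  have hcC : (c : ℂ) * c * κ = 1 := by exact_mod_cast hc2
  have hX' : Wt s T γ ((c : ℂ) • X) := hX.smul _
  have hp3 : ((c : ℂ) • X) * ((c : ℂ) • X)ᴴ * ((c : ℂ) • X) = (c : ℂ) • X := by
    rw [conjTranspose_smul, hcs]
    simp only [Matrix.smul_mul, Matrix.mul_smul, smul_smul]
    rw [h4, smul_smul]
    congr 1
    linear_combination (c : ℂ) * hcC
  have hp2 : ((c : ℂ) • X) * ((c : ℂ) • X) = 0 := by
    rw [Matrix.smul_mul, Matrix.mul_smul, hXX, smul_zero, smul_zero]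
  have hbb : ((c : ℂ) • X) * ((c : ℂ) • X)ᴴ - ((c : ℂ) • X)ᴴ * ((c : ℂ) • X) =
      tor T ((2 / (γ ⬝ᵥ γ)) • γ) := by
    rw [conjTranspose_smul, hcs]
    simp only [Matrix.smul_mul, Matrix.mul_smul, smul_smul]
    rw [← smul_sub, hb2, tor_smul, tor_smul, smul_smul]
    congr 1
    have e1 : c * c * N = 2 / (γ ⬝ᵥ γ) := by
      rw [hκ] at hc2
      rw [eq_div_iff hg2.ne']
      linear_combination 2 * hc2
    exact_mod_cast e1
  obtain ⟨Z, hZ⟩ : ∃ Z, Z = (c : ℂ) • X := ⟨_, rfl⟩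
  rw [← hZ] at hX' hp3 hp2 hbb
  have hZ0 : Z ≠ 0 := by
    rw [hZ]
    exact smul_ne_zero (by exact_mod_cast hc0) h0
  refine ⟨Z, hX', hg, hZ0, hp3, hp2, hbb, fun Y hY => ?_⟩
  have hZt : trace (Zᴴ * Z) ≠ 0 := by
    rw [trace_mul_comm, nsq_trace]
    exact_mod_cast (nsq_pos hZ0).ne'
  obtain ⟨a, ha⟩ : ∃ a : ℂ, a = trace (Zᴴ * Y) / trace (Zᴴ * Z) := ⟨_, rfl⟩
  refine ⟨a, ?_⟩
  rw [← sub_eq_zero]
  obtain ⟨W, hW⟩ : ∃ W, W = Y - a • Z := ⟨_, rfl⟩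
  have hWt : Wt s T γ W := by rw [hW]; exact hY.sub (hX'.smul a)
  have hW0 : trace (Zᴴ * W) = 0 := by
    rw [hW, mul_sub, trace_sub, Matrix.mul_smul, trace_smul, smul_eq_mul, ha,
      div_mul_cancel₀ _ hZt, sub_self]
  rw [← hW]
  have k1 := br_coef hA hX' hWt
  rw [hW0, zero_smul, sub_eq_zero] at k1
  have k2 := (lev_one hA hWt h1).1
  have k5 : Wt s T (-γ) Zᴴ := Wt.adj hA hX'
  -- `D Zᴴ = - Zᴴ`
  have k6 : D * Zᴴ = - Zᴴ := by
    have e1 := Wt.level hA k5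
    rw [neg_dotProduct, h1] at e1
    have e2 : D * (D * Zᴴ - Zᴴ * D) + (D * Zᴴ - Zᴴ * D) * D = 0 := by
      have e1 : D * (D * Zᴴ - Zᴴ * D) + (D * Zᴴ - Zᴴ * D) * D = (D * D) * Zᴴ - Zᴴ * (D * D) := by
        noncomm_ring
      rw [e1, hA.d2, one_mul, mul_one, sub_self]
    rw [e1, Matrix.mul_smul, Matrix.smul_mul, ← smul_add] at e2
    have e3 : D * Zᴴ + Zᴴ * D = 0 :=
      (smul_eq_zero.1 e2).resolve_left (by norm_num)
    have e4 : (2 : ℂ) • (D * Zᴴ) = (2 : ℂ) • (-Zᴴ) := by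
      have e5 : D * Zᴴ + D * Zᴴ = (D * Zᴴ - Zᴴ * D) + (D * Zᴴ + Zᴴ * D) := by noncomm_ring
      rw [two_smul, e5, e3, add_zero, e1, smul_neg, ← neg_smul]
      congr 1
      push_cast
      ring
    exact smul_right_injective _ (two_ne_zero' ℂ) e4
  have k7 : W * Zᴴ = 0 := by
    have e1 : D * (W * Zᴴ) = W * Zᴴ := by rw [← mul_assoc, k2]
    have e2 : D * (W * Zᴴ) = - (W * Zᴴ) := by
      rw [k1, ← mul_assoc, k6, neg_mul]
    have e3 : (2 : ℂ) • (W * Zᴴ) = 0 := by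
      rw [two_smul]
      nth_rewrite 1 [← e1]
      rw [e2]
      exact neg_add_cancel _
    exact (smul_eq_zero.1 e3).resolve_left two_ne_zero
  have k8 : Zᴴ * W = 0 := by rw [← k1, k7]
  have k9 := hWt.2 ((2 / (γ ⬝ᵥ γ)) • γ)
  rw [← hbb, dotProduct_smul, smul_eq_mul, div_mul_cancel₀ _ hg2.ne'] at k9
  have k10 : (Z * Zᴴ - Zᴴ * Z) * W - W * (Z * Zᴴ - Zᴴ * Z) =
      Z * (Zᴴ * W) - Zᴴ * (Z * W) - (W * Z) * Zᴴ + (W * Zᴴ) * Z := by noncomm_ring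
  rw [k10, k8, k7, mul_zero_one hA hX' h1 hWt h1, mul_zero_one hA hWt h1 hX' h1] at k9
  simp only [mul_zero, zero_mul, sub_zero, add_zero] at k9
  exact (smul_eq_zero.1 k9.symm).resolve_left (by norm_num)

theorem Good.adj {γ : Fin r → ℝ} {X : Matrix B B ℂ} (hX : Good s T γ X) : Good s T (-γ) Xᴴ := by
  refine ⟨Wt.adj hA hX.wt, neg_ne_zero.2 hX.g0, ?_, ?_, ?_, ?_, ?_⟩
  · intro h0
    apply hX.ne
    rw [← conjTranspose_conjTranspose X, h0, conjTranspose_zero]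
  · have h1 := congrArg Matrix.conjTranspose hX.p3
    rw [conjTranspose_mul, conjTranspose_mul, conjTranspose_conjTranspose, ← mul_assoc] at h1
    rw [conjTranspose_conjTranspose]
    exact h1
  · rw [← conjTranspose_mul, hX.p2, conjTranspose_zero]
  · rw [conjTranspose_conjTranspose, ← neg_sub, hX.b, neg_dotProduct, dotProduct_neg, neg_neg,
      smul_neg, tor_neg]
  · intro Y hY
    have h1 := Wt.adj hA hY
    rw [neg_neg] at h1
    obtain ⟨c, hc⟩ := hX.one _ h1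
    refine ⟨star c, ?_⟩
    rw [← conjTranspose_conjTranspose Y, hc, conjTranspose_smul]

omit hA in
theorem Good.neg {γ : Fin r → ℝ} {X : Matrix B B ℂ} (hX : Good s T γ X) : Good s T γ (-X) := by
  refine ⟨?_, hX.g0, neg_ne_zero.2 hX.ne, ?_, ?_, ?_, ?_⟩
  · have := hX.wt.smul (-1)
    rwa [neg_one_smul] at this
  · rw [conjTranspose_neg, neg_mul_neg, mul_neg, hX.p3]
  · rw [neg_mul_neg, hX.p2]
  · rw [conjTranspose_neg, neg_mul_neg, neg_mul_neg, hX.b]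
  · intro Y hY
    obtain ⟨c, hc⟩ := hX.one Y hY
    exact ⟨-c, by rw [hc, neg_smul_neg]⟩

/-! ### Reflections -/

/-- The element which gives the reflection. -/
def wm (X : Matrix B B ℂ) : Matrix B B ℂ := 1 + (X - Xᴴ) + (X - Xᴴ) * (X - Xᴴ)

omit hA

theorem wm_neg (X : Matrix B B ℂ) : wm (-X) = 1 - (X - Xᴴ) + (X - Xᴴ) * (X - Xᴴ) := by
  unfold wm
  rw [conjTranspose_neg]
  noncomm_ring

theorem wm_H (X : Matrix B B ℂ) : (wm X)ᴴ = wm (-X) := by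
  rw [wm_neg]
  unfold wm
  rw [conjTranspose_add, conjTranspose_add, conjTranspose_mul, conjTranspose_sub,
    conjTranspose_conjTranspose, conjTranspose_one]
  noncomm_ring

section refl

variable {a : Fin r → ℝ} {X : Matrix B B ℂ} (hX : Good s T a X)

include hX

theorem Good.p3' : Xᴴ * X * Xᴴ = Xᴴ := by
  have h1 := congrArg Matrix.conjTranspose hX.p3
  rw [conjTranspose_mul, conjTranspose_mul, conjTranspose_conjTranspose, ← mul_assoc] at h1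
  exact h1

theorem Good.p2' : Xᴴ * Xᴴ = 0 := by
  rw [← conjTranspose_mul, hX.p2, conjTranspose_zero]

theorem Good.Z2 : (X - Xᴴ) * (X - Xᴴ) = - (X * Xᴴ + Xᴴ * X) := by
  have e1 : (X - Xᴴ) * (X - Xᴴ) = X * X + Xᴴ * Xᴴ - (X * Xᴴ + Xᴴ * X) := by noncomm_ring
  rw [e1, hX.p2, hX.p2', add_zero, zero_sub]

theorem Good.Z3 : (X - Xᴴ) * (X - Xᴴ) * (X - Xᴴ) + (X - Xᴴ) = 0 := by
  rw [hX.Z2]
  have e1 : -(X * Xᴴ + Xᴴ * X) * (X - Xᴴ) + (X - Xᴴ) = X - X * Xᴴ * X + X * (Xᴴ * Xᴴ) -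
      Xᴴ * (X * X) + (Xᴴ * X * Xᴴ - Xᴴ) := by noncomm_ring
  rw [e1, hX.p3, hX.p3', hX.p2, hX.p2', mul_zero, mul_zero, sub_self, sub_self]
  simp

theorem Good.wm_mul : wm X * wm (-X) = 1 := by
  rw [wm_neg]
  unfold wm
  have h3 := hX.Z3
  obtain ⟨Z, hZ⟩ : ∃ Z, Z = X - Xᴴ := ⟨_, rfl⟩
  rw [← hZ] at h3 ⊢
  have e1 : (1 + Z + Z * Z) * (1 - Z + Z * Z) = 1 + Z * (Z * Z * Z + Z) := by noncomm_ring
  rw [e1, h3, mul_zero, add_zero]

theorem Good.wm_mul' : wm (-X) * wm X = 1 := mul_eq_one_comm.1 hX.wm_mul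

theorem Good.wm_tor (hT : ∀ i, (T i)ᴴ = T i) (x : Fin r → ℝ) :
    wm X * tor T x * wm (-X) = tor T (rf a x) := by
  have h0 := hX.wt.2 x
  obtain ⟨c, hc⟩ : ∃ c : ℂ, c = ((a ⬝ᵥ x : ℝ) : ℂ) := ⟨_, rfl⟩
  have hcs : star c = c := by rw [hc]; exact Complex.conj_ofReal _
  have h0' := congrArg Matrix.conjTranspose h0
  rw [← hc] at h0 h0'
  rw [conjTranspose_sub, conjTranspose_mul, conjTranspose_mul, tor_H hT, conjTranspose_smul,
    hcs] at h0'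
  have hK := hX.b
  have hR : tor T (rf a x) = tor T x - c • tor T ((2 / (a ⬝ᵥ a)) • a) := by
    unfold rf pr
    rw [tor_sub, tor_smul, tor_smul, smul_smul, hc]
    congr 2
    rw [← Complex.ofReal_mul, dotProduct_comm x a]
    congr 1
    ring
  rw [hR, ← hK]
  have hw := hX.wm_mul
  rw [wm_neg] at hw ⊢
  unfold wm at hw ⊢
  have hp2 := hX.p2
  have hp2' := hX.p2'
  have hp3 := hX.p3
  have hp3' := hX.p3'
  obtain ⟨H, hH⟩ : ∃ H, H = tor T x := ⟨_, rfl⟩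
  rw [← hH] at h0 h0' ⊢
  obtain ⟨Y, hY⟩ : ∃ Y, Y = Xᴴ := ⟨_, rfl⟩
  rw [← hY] at hw hp2' hp3 hp3' h0' ⊢
  have e1 : (X - Y) * H = H * (X - Y) - c • (X + Y) := by
    rw [smul_add, ← h0, ← h0']
    noncomm_ring
  have e2 : (X - Y) * (X + Y) = X * Y - Y * X := by
    have : (X - Y) * (X + Y) = X * X + X * Y - Y * X - Y * Y := by noncomm_ring
    rw [this, hp2, hp2', zero_add, sub_zero]
  have e3 : (X + Y) * (X - Y) = -(X * Y - Y * X) := by
    have : (X + Y) * (X - Y) = X * X - Y * Y - (X * Y - Y * X) := by noncomm_ring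
    rw [this, hp2, hp2', sub_zero, zero_sub]
  have e4 : (X * Y - Y * X) * (X - Y) = X + Y := by
    have : (X * Y - Y * X) * (X - Y) = X * Y * X - X * (Y * Y) - Y * (X * X) + Y * X * Y := by
      noncomm_ring
    rw [this, hp2, hp2', hp3, hp3', mul_zero, mul_zero, sub_zero, sub_zero]
  obtain ⟨Z, hZ⟩ : ∃ Z, Z = X - Y := ⟨_, rfl⟩
  obtain ⟨E, hE⟩ : ∃ E, E = X + Y := ⟨_, rfl⟩
  obtain ⟨K, hKK⟩ : ∃ K, K = X * Y - Y * X := ⟨_, rfl⟩
  rw [← hZ] at e1 e2 e3 e4 hw ⊢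
  rw [← hE] at e1 e2 e3 e4
  rw [← hKK] at e2 e3 e4 ⊢
  have e5 : E * (1 - Z + Z * Z) = K := by
    have : E * (1 - Z + Z * Z) = E - E * Z + E * Z * Z := by noncomm_ring
    rw [this, e3, neg_mul, e4]
    abel
  have e6 : (1 + Z + Z * Z) * H = H * (1 + Z + Z * Z) - c • E := by
    have f1 : (1 + Z + Z * Z) * H = H + Z * H + Z * (Z * H) := by noncomm_ring
    have f2 : Z * (H * Z - c • E) = (Z * H) * Z - c • (Z * E) := by
      rw [mul_sub, Matrix.mul_smul, mul_assoc]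
    have f3 : (H * Z - c • E) * Z = H * (Z * Z) - c • (E * Z) := by
      rw [sub_mul, Matrix.smul_mul, mul_assoc]
    rw [f1, e1, f2, e1, f3, e2, e3, smul_neg]
    noncomm_ring
  rw [e6, sub_mul, mul_assoc, hw, mul_one, Matrix.smul_mul, e5]

/-- Conjugation preserves `s`. -/
theorem Good.wm_mem (hbr : ∀ X ∈ s, ∀ Y ∈ s, X * Y - Y * X ∈ s) (hadj : ∀ X ∈ s, Xᴴ ∈ s)
    {Y : Matrix B B ℂ} (hY : Y ∈ s) : wm X * Y * wm (-X) ∈ s := by
  rw [wm_neg]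
  unfold wm
  have h3 := hX.Z3
  have hZs : X - Xᴴ ∈ s := s.sub_mem hX.wt.1 (hadj _ hX.wt.1)
  obtain ⟨Z, hZ⟩ : ∃ Z, Z = X - Xᴴ := ⟨_, rfl⟩
  rw [← hZ] at h3 hZs ⊢
  have a1 := hbr _ hZs _ hY
  have a2 := hbr _ hZs _ a1
  have a3 := hbr _ hZs _ a2
  have a4 := hbr _ hZs _ a3
  have e1 : (6 : ℤ) • ((1 + Z + Z * Z) * Y * (1 - Z + Z * Z)) = (6 : ℤ) • Y +
      (8 : ℤ) • (Z * Y - Y * Z) + (7 : ℤ) • (Z * (Z * Y - Y * Z) - (Z * Y - Y * Z) * Z) +
      (2 : ℤ) • (Z * (Z * (Z * Y - Y * Z) - (Z * Y - Y * Z) * Z) -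
        (Z * (Z * Y - Y * Z) - (Z * Y - Y * Z) * Z) * Z) +
      (Z * (Z * (Z * (Z * Y - Y * Z) - (Z * Y - Y * Z) * Z) -
        (Z * (Z * Y - Y * Z) - (Z * Y - Y * Z) * Z) * Z) -
        (Z * (Z * (Z * Y - Y * Z) - (Z * Y - Y * Z) * Z) -
        (Z * (Z * Y - Y * Z) - (Z * Y - Y * Z) * Z) * Z) * Z) +
      ((2 : ℤ) • (Y * (Z * Z * Z + Z)) - (2 : ℤ) • ((Z * Z * Z + Z) * Y) -
        Z * (Z * Z * Z + Z) * Y - Y * (Z * Z * Z + Z) * Z + (4 : ℤ) • ((Z * Z * Z + Z) * Y * Z) +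
        (4 : ℤ) • (Z * Y * (Z * Z * Z + Z))) := by noncomm_ring
  rw [h3] at e1
  simp only [mul_zero, zero_mul, smul_zero, sub_zero, add_zero] at e1
  have h6 : (6 : ℤ) • ((1 + Z + Z * Z) * Y * (1 - Z + Z * Z)) ∈ s := by
    rw [e1]
    exact s.add_mem (s.add_mem (s.add_mem (s.add_mem (zsmul_mem hY _) (zsmul_mem a1 _))
      (zsmul_mem a2 _)) (zsmul_mem a3 _)) a4
  have h7 := s.smul_mem ((6 : ℂ)⁻¹) h6
  have h8 : (6 : ℂ)⁻¹ • ((6 : ℤ) • ((1 + Z + Z * Z) * Y * (1 - Z + Z * Z))) =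
      (1 + Z + Z * Z) * Y * (1 - Z + Z * Z) := by
    rw [← Int.cast_smul_eq_zsmul ℂ, smul_smul]
    norm_num
  rw [h8] at h7
  exact h7

end refl

section refl2

variable (hA : Ab s D r T h) {a : Fin r → ℝ} {X : Matrix B B ℂ} (hX : Good s T a X)

include hA hX

theorem Wt.refl {γ : Fin r → ℝ} {Y : Matrix B B ℂ} (hY : Wt s T γ Y) :
    Wt s T (rf a γ) (wm X * Y * wm (-X)) := by
  refine ⟨hX.wm_mem hA.br hA.adj hY.1, fun x => ?_⟩
  have h1 := hX.wm_tor (fun i => (hA.tv.m i).2) (rf a x)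
  rw [rf_rf hX.g0] at h1
  have h2 := hY.2 (rf a x)
  have h3 := hX.wm_mul'
  rw [← h1, rf_dot, ← Matrix.smul_mul, ← Matrix.mul_smul, ← h2]
  obtain ⟨w, hw⟩ : ∃ w, w = wm X := ⟨_, rfl⟩
  obtain ⟨v, hv⟩ : ∃ v, v = wm (-X) := ⟨_, rfl⟩
  rw [← hw, ← hv] at h3 ⊢
  have e1 : w * tor T (rf a x) * v * (w * Y * v) = w * (tor T (rf a x) * (v * w) * Y) * v := by
    noncomm_ring
  have e2 : w * Y * v * (w * tor T (rf a x) * v) = w * (Y * (v * w) * tor T (rf a x)) * v := by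
    noncomm_ring
  rw [e1, e2, h3, mul_one, mul_one]
  noncomm_ring

theorem conj_ne {Y : Matrix B B ℂ} (hY : Y ≠ 0) : wm X * Y * wm (-X) ≠ 0 := by
  intro h0
  apply hY
  have h3 := hX.wm_mul'
  calc Y = (wm (-X) * wm X) * Y * (wm (-X) * wm X) := by rw [h3, one_mul, mul_one]
    _ = wm (-X) * (wm X * Y * wm (-X)) * wm X := by noncomm_ring
    _ = 0 := by rw [h0, mul_zero, zero_mul]

theorem Good.refl {γ : Fin r → ℝ} {Y : Matrix B B ℂ} (hY : Good s T γ Y) :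
    Good s T (rf a γ) (wm X * Y * wm (-X)) := by
  have h3 := hX.wm_mul'
  have hH : (wm X * Y * wm (-X))ᴴ = wm X * Yᴴ * wm (-X) := by
    rw [conjTranspose_mul, conjTranspose_mul, wm_H, wm_H, neg_neg, mul_assoc]
  have hm : ∀ M N : Matrix B B ℂ, wm X * M * wm (-X) * (wm X * N * wm (-X)) =
      wm X * (M * N) * wm (-X) := by
    intro M N
    have e1 : wm X * M * wm (-X) * (wm X * N * wm (-X)) =
      wm X * (M * (wm (-X) * wm X) * N) * wm (-X) := by noncomm_ring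
    rw [e1, h3, mul_one]
  refine ⟨Wt.refl hA hX hY.wt, rf_ne hX.g0 hY.g0, conj_ne hA hX hY.ne, ?_, ?_, ?_, ?_⟩
  · rw [hH, hm, hm, hY.p3]
  · rw [hm, hY.p2, mul_zero, zero_mul]
  · rw [hH, hm, hm, rf_norm hX.g0, ← rf_smul, ← hX.wm_tor (fun i => (hA.tv.m i).2), ← hY.b]
    noncomm_ring
  · intro W hW
    have h4 := Wt.refl hA hX.neg hW
    rw [rf_rf hX.g0, neg_neg] at h4
    obtain ⟨c, hc⟩ := hY.one _ h4
    refine ⟨c, ?_⟩
    have h5 := hX.wm_mul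
    calc W = (wm X * wm (-X)) * W * (wm X * wm (-X)) := by rw [h5, one_mul, mul_one]
      _ = wm X * (wm (-X) * W * wm X) * wm (-X) := by noncomm_ring
      _ = _ := by rw [hc, Matrix.mul_smul, Matrix.smul_mul]

end refl2

/-! ### The decomposition in weight vectors -/

theorem comp_mem (W : Submodule ℂ (Matrix B B ℂ))
    (hW : ∀ x : Fin r → ℝ, ∀ Y ∈ W, tor T x * Y - Y * tor T x ∈ W) (F : Finset (Fin r → ℝ)) :
    ∀ γ : Fin r → ℝ, γ ∉ F → ∀ v : (Fin r → ℝ) → Matrix B B ℂ,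
    (∀ δ x, tor T x * v δ - v δ * tor T x = ((δ ⬝ᵥ x : ℝ) : ℂ) • v δ) →
    v γ + ∑ δ ∈ F, v δ ∈ W → v γ ∈ W := by
  classical
  induction F using Finset.induction_on with
  | empty =>
    intro γ _ v _ h1
    simpa using h1
  | insert δ F hδ ih =>
    intro γ hγ v hv h1
    have hne : γ - δ ≠ 0 := by
      intro h0
      apply hγ
      rw [sub_eq_zero.1 h0]
      exact Finset.mem_insert_self _ _
    obtain ⟨x, hx⟩ : ∃ x, x = γ - δ := ⟨_, rfl⟩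
    have hk : 0 < γ ⬝ᵥ x - δ ⬝ᵥ x := by
      rw [← sub_dotProduct, hx]
      exact dot_pos hne
    obtain ⟨k, hk'⟩ : ∃ k : ℝ, k = γ ⬝ᵥ x - δ ⬝ᵥ x := ⟨_, rfl⟩
    rw [← hk'] at hk
    have hkC : (k : ℂ) ≠ 0 := by exact_mod_cast hk.ne'
    rw [Finset.sum_insert hδ] at h1
    have h2 := W.sub_mem (hW x _ h1) (W.smul_mem ((δ ⬝ᵥ x : ℝ) : ℂ) h1)
    have h3 : tor T x * (v γ + (v δ + ∑ δ ∈ F, v δ)) - (v γ + (v δ + ∑ δ ∈ F, v δ)) * tor T x -
        ((δ ⬝ᵥ x : ℝ) : ℂ) • (v γ + (v δ + ∑ δ ∈ F, v δ)) =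
        (k : ℂ) • v γ + ∑ ε ∈ F, ((ε ⬝ᵥ x - δ ⬝ᵥ x : ℝ) : ℂ) • v ε := by
      have e1 : tor T x * (v γ + (v δ + ∑ δ ∈ F, v δ)) - (v γ + (v δ + ∑ δ ∈ F, v δ)) * tor T x =
          (tor T x * v γ - v γ * tor T x) + ((tor T x * v δ - v δ * tor T x) +
          (tor T x * (∑ δ ∈ F, v δ) - (∑ δ ∈ F, v δ) * tor T x)) := by noncomm_ring
      have e2 : tor T x * (∑ δ ∈ F, v δ) - (∑ δ ∈ F, v δ) * tor T x =
          ∑ ε ∈ F, ((ε ⬝ᵥ x : ℝ) : ℂ) • v ε := by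
        rw [Finset.mul_sum, Finset.sum_mul, ← Finset.sum_sub_distrib]
        exact Finset.sum_congr rfl fun ε _ => hv ε x
      have e3 : ∑ ε ∈ F, ((ε ⬝ᵥ x - δ ⬝ᵥ x : ℝ) : ℂ) • v ε =
          ∑ ε ∈ F, ((ε ⬝ᵥ x : ℝ) : ℂ) • v ε - ((δ ⬝ᵥ x : ℝ) : ℂ) • ∑ ε ∈ F, v ε := by
        rw [Finset.smul_sum, ← Finset.sum_sub_distrib]
        refine Finset.sum_congr rfl fun ε _ => ?_
        rw [Complex.ofReal_sub, sub_smul]
      rw [e1, e2, e3, hv, hv, hk', Complex.ofReal_sub]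
      module
    rw [h3] at h2
    have h4 := W.smul_mem ((k : ℂ)⁻¹) h2
    rw [smul_add, smul_smul, inv_mul_cancel₀ hkC, one_smul, Finset.smul_sum] at h4
    have hγF : γ ∉ F := fun h => hγ (Finset.mem_insert_of_mem h)
    have h5 := ih γ hγF
      (fun ε => if ε = γ then v γ else (k : ℂ)⁻¹ • ((ε ⬝ᵥ x - δ ⬝ᵥ x : ℝ) : ℂ) • v ε) (by
        intro ε y
        by_cases hε : ε = γ
        · simp only [if_pos hε]
          rw [hε]
          exact hv γ y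
        · simp only [if_neg hε]
          rw [Matrix.mul_smul, Matrix.mul_smul, Matrix.smul_mul, Matrix.smul_mul, ← smul_sub,
            ← smul_sub, hv ε y]
          simp only [smul_smul]
          congr 1
          ring) (by
        simp only [if_true]
        have e1 : ∑ ε ∈ F, (if ε = γ then v γ else
            (k : ℂ)⁻¹ • ((ε ⬝ᵥ x - δ ⬝ᵥ x : ℝ) : ℂ) • v ε) =
            ∑ ε ∈ F, (k : ℂ)⁻¹ • ((ε ⬝ᵥ x - δ ⬝ᵥ x : ℝ) : ℂ) • v ε := by
          refine Finset.sum_congr rfl fun ε hε => ?_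
          rw [if_neg (show ¬ ε = γ from fun h1 => hγF (h1 ▸ hε))]
        rw [e1]
        exact h4)
    simpa using h5

section dec

variable (hA : Ab s D r T h)

include hA

theorem exists_G : ∃ G : Finset (Fin r → ℝ), (∀ γ Y, Wt s T γ Y → Y ≠ 0 → γ ∈ G) ∧
    ∀ Y ∈ s, ∃ c : (Fin r → ℝ) → Matrix B B ℂ, (∀ γ ∈ G, Wt s T γ (c γ)) ∧ Y = ∑ γ ∈ G, c γ := by
  classical
  obtain ⟨g, hg, hd⟩ := sim_diag (Set.range T) (by
    rintro _ ⟨i, rfl⟩
    exact (hA.tv.m i).2) (by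
    rintro _ ⟨i, rfl⟩ _ ⟨j, rfl⟩
    exact hA.tv.c i j)
  have hgg : g * gᴴ = 1 := mul_eq_one_comm.1 hg
  have hd' : ∀ i, ∃ d : B → ℂ, T i * g = g * diagonal d := fun i => hd _ ⟨i, rfl⟩
  choose d hd using hd'
  have hreal : ∀ i b, d i b = ((d i b).re : ℂ) := by
    intro i b
    have h1 : diagonal (d i) = gᴴ * T i * g := by rw [mul_assoc, hd, ← mul_assoc, hg, one_mul]
    have h2 : (diagonal (d i))ᴴ = diagonal (d i) := by
      rw [h1, conjTranspose_mul, conjTranspose_mul, conjTranspose_conjTranspose, (hA.tv.m i).2,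
        mul_assoc]
    have h3 := congrFun (congrFun h2 b) b
    rw [conjTranspose_apply, diagonal_apply_eq] at h3
    exact (Complex.conj_eq_iff_re.1 h3).symm
  obtain ⟨t, ht⟩ : ∃ t : B → Fin r → ℝ, t = fun b i => (d i b).re := ⟨_, rfl⟩
  have htor : ∀ x : Fin r → ℝ, tor T x * g = g * diagonal fun b => ((t b ⬝ᵥ x : ℝ) : ℂ) := by
    intro x
    unfold tor
    rw [Finset.sum_mul]
    have e1 : (diagonal fun b => ((t b ⬝ᵥ x : ℝ) : ℂ)) = ∑ i, (x i : ℂ) • diagonal (d i) := by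
      ext b b'
      rw [Matrix.sum_apply]
      by_cases hb : b = b'
      · subst hb
        rw [diagonal_apply_eq]
        unfold dotProduct
        push_cast
        refine Finset.sum_congr rfl fun i _ => ?_
        rw [Matrix.smul_apply, diagonal_apply_eq, smul_eq_mul, hreal i b, ht, mul_comm]
      · rw [diagonal_apply_ne _ hb]
        symm
        refine Finset.sum_eq_zero fun i _ => ?_
        rw [Matrix.smul_apply, diagonal_apply_ne _ hb, smul_zero]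
    rw [e1, Finset.mul_sum]
    refine Finset.sum_congr rfl fun i _ => ?_
    rw [Matrix.smul_mul, Matrix.mul_smul, hd]
  have htor' : ∀ x : Fin r → ℝ, gᴴ * tor T x = (diagonal fun b => ((t b ⬝ᵥ x : ℝ) : ℂ)) * gᴴ := by
    intro x
    calc gᴴ * tor T x = gᴴ * (tor T x * g) * gᴴ := by rw [mul_assoc, mul_assoc, hgg, mul_one]
      _ = _ := by rw [htor, ← mul_assoc, hg, one_mul]
  obtain ⟨G, hG⟩ : ∃ G : Finset (Fin r → ℝ), G = (Finset.univ : Finset (B × B)).image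
    fun p => t p.1 - t p.2 := ⟨_, rfl⟩
  refine ⟨G, ?_, ?_⟩
  · intro γ Y hY h0
    have h1 : gᴴ * Y * g ≠ 0 := by
      intro h2
      apply h0
      calc Y = (g * gᴴ) * Y * (g * gᴴ) := by rw [hgg, one_mul, mul_one]
        _ = g * (gᴴ * Y * g) * gᴴ := by noncomm_ring
        _ = 0 := by rw [h2, mul_zero, zero_mul]
    obtain ⟨b, b', hb⟩ := exists_entry h1
    have h2 : γ = t b - t b' := by
      refine dotProduct_eq _ _ fun x => ?_
      have h3 := hY.2 x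
      have h4 : (diagonal fun b => ((t b ⬝ᵥ x : ℝ) : ℂ)) * (gᴴ * Y * g) -
          (gᴴ * Y * g) * (diagonal fun b => ((t b ⬝ᵥ x : ℝ) : ℂ)) =
          ((γ ⬝ᵥ x : ℝ) : ℂ) • (gᴴ * Y * g) := by
        rw [← Matrix.smul_mul, ← Matrix.mul_smul, ← h3, mul_assoc (gᴴ * Y), ← htor,
          ← mul_assoc, ← mul_assoc, ← htor']
        noncomm_ring
      have h5 := congrFun (congrFun h4 b) b'
      rw [Matrix.sub_apply, Matrix.diagonal_mul, Matrix.mul_diagonal, Matrix.smul_apply,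
        smul_eq_mul, mul_comm _ (((t b' ⬝ᵥ x : ℝ) : ℂ)), ← sub_mul] at h5
      have h6 := mul_right_cancel₀ hb h5
      rw [sub_dotProduct]
      exact_mod_cast h6.symm
    rw [hG, h2]
    exact Finset.mem_image.2 ⟨(b, b'), Finset.mem_univ _, rfl⟩
  · intro Y hY
    obtain ⟨E, hE⟩ : ∃ E : B × B → Matrix B B ℂ, E = fun p =>
      g * Matrix.single p.1 p.2 ((gᴴ * Y * g) p.1 p.2) * gᴴ := ⟨_, rfl⟩
    have hEw : ∀ p x, tor T x * E p - E p * tor T x =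
        (((t p.1 - t p.2) ⬝ᵥ x : ℝ) : ℂ) • E p := by
      intro p x
      rw [hE]
      have e1 : tor T x * (g * Matrix.single p.1 p.2 ((gᴴ * Y * g) p.1 p.2) * gᴴ) -
          g * Matrix.single p.1 p.2 ((gᴴ * Y * g) p.1 p.2) * gᴴ * tor T x =
          (tor T x * g) * Matrix.single p.1 p.2 ((gᴴ * Y * g) p.1 p.2) * gᴴ -
          g * Matrix.single p.1 p.2 ((gᴴ * Y * g) p.1 p.2) * (gᴴ * tor T x) := by noncomm_ring
      rw [e1, htor, htor']
      obtain ⟨c, hc⟩ : ∃ c : ℂ, c = (gᴴ * Y * g) p.1 p.2 := ⟨_, rfl⟩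
      rw [← hc]
      have e2 : (diagonal fun b => ((t b ⬝ᵥ x : ℝ) : ℂ)) * Matrix.single p.1 p.2 c =
          ((t p.1 ⬝ᵥ x : ℝ) : ℂ) • Matrix.single p.1 p.2 c := by
        ext i j
        rw [Matrix.diagonal_mul, Matrix.smul_apply, smul_eq_mul]
        by_cases hi : p.1 = i
        · rw [hi]
        · rw [Matrix.single_apply_of_row_ne hi, mul_zero, mul_zero]
      have e3 : Matrix.single p.1 p.2 c * (diagonal fun b => ((t b ⬝ᵥ x : ℝ) : ℂ)) =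
          ((t p.2 ⬝ᵥ x : ℝ) : ℂ) • Matrix.single p.1 p.2 c := by
        ext i j
        rw [Matrix.mul_diagonal, Matrix.smul_apply, smul_eq_mul, mul_comm]
        by_cases hj : p.2 = j
        · rw [hj]
        · rw [Matrix.single_apply_of_col_ne _ _ hj, mul_zero, mul_zero]
      have e4 : g * (diagonal fun b => ((t b ⬝ᵥ x : ℝ) : ℂ)) * Matrix.single p.1 p.2 c * gᴴ =
          ((t p.1 ⬝ᵥ x : ℝ) : ℂ) • (g * Matrix.single p.1 p.2 c * gᴴ) := by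
        rw [mul_assoc g, e2, Matrix.mul_smul, Matrix.smul_mul]
      have e5 : g * Matrix.single p.1 p.2 c * ((diagonal fun b => ((t b ⬝ᵥ x : ℝ) : ℂ)) * gᴴ) =
          ((t p.2 ⬝ᵥ x : ℝ) : ℂ) • (g * Matrix.single p.1 p.2 c * gᴴ) := by
        rw [← mul_assoc, mul_assoc g, e3, Matrix.mul_smul, Matrix.smul_mul]
      rw [e4, e5, sub_dotProduct, Complex.ofReal_sub, sub_smul, hc]
    obtain ⟨c, hc⟩ : ∃ c : (Fin r → ℝ) → Matrix B B ℂ, c = fun γ =>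
      ∑ p ∈ (Finset.univ : Finset (B × B)).filter fun p => t p.1 - t p.2 = γ, E p := ⟨_, rfl⟩
    have hcw : ∀ δ x, tor T x * c δ - c δ * tor T x = ((δ ⬝ᵥ x : ℝ) : ℂ) • c δ := by
      intro δ x
      rw [hc]
      simp only
      rw [Finset.mul_sum, Finset.sum_mul, ← Finset.sum_sub_distrib, Finset.smul_sum]
      refine Finset.sum_congr rfl fun p hp => ?_
      rw [hEw, (Finset.mem_filter.1 hp).2]
    have hsum : Y = ∑ γ ∈ G, c γ := by
      have e1 : ∑ γ ∈ G, c γ = ∑ p : B × B, E p := by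
        rw [hc]
        refine Finset.sum_fiberwise_of_maps_to (fun p _ => ?_) E
        rw [hG]
        exact Finset.mem_image.2 ⟨p, Finset.mem_univ _, rfl⟩
      have e2 : ∑ p : B × B, E p = g * (gᴴ * Y * g) * gᴴ := by
        rw [hE, ← Finset.sum_mul, ← Finset.mul_sum]
        congr 2
        rw [Fintype.sum_prod_type]
        exact (Matrix.matrix_eq_sum_single _).symm
      rw [e1, e2]
      calc Y = (g * gᴴ) * Y * (g * gᴴ) := by rw [hgg, one_mul, mul_one]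
        _ = _ := by noncomm_ring
    refine ⟨c, fun γ hγ => ⟨?_, fun x => hcw γ x⟩, hsum⟩
    refine comp_mem s (fun x Z hZ => hA.br _ (tor_mem (fun i => (hA.tv.m i).1) x) _ hZ)
      (G.erase γ) γ (Finset.notMem_erase γ G) c hcw ?_
    rw [Finset.add_sum_erase G c hγ, ← hsum]
    exact hY

theorem ind {P : Matrix B B ℂ → Prop} (h0 : P 0) (ha : ∀ Y Z, P Y → P Z → P (Y + Z))
    (hw : ∀ γ Y, Wt s T γ Y → P Y) : ∀ Y ∈ s, P Y := by
  obtain ⟨G, -, hG⟩ := exists_G hA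
  intro Y hY
  obtain ⟨c, hc, hs⟩ := hG Y hY
  rw [hs]
  exact Finset.sum_induction c P ha h0 fun γ hγ => hw γ _ (hc γ hγ)

/-- Elements commuting with all weight vectors of nonzero level are zero. -/
theorem J_zero {Y : Matrix B B ℂ} (hY : Y ∈ s)
    (hc : ∀ a A, Wt s T a A → a ⬝ᵥ h ≠ 0 → Y * A = A * Y) : Y = 0 := by
  obtain ⟨J, hJ⟩ : ∃ J : Submodule ℂ (Matrix B B ℂ), ∀ Z, Z ∈ J ↔ Z ∈ s ∧
      ∀ a A, Wt s T a A → a ⬝ᵥ h ≠ 0 → Z * A = A * Z :=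
    ⟨{ carrier := {Z | Z ∈ s ∧ ∀ a A, Wt s T a A → a ⬝ᵥ h ≠ 0 → Z * A = A * Z}
       add_mem' := by
         rintro X Z ⟨h1, h2⟩ ⟨h3, h4⟩
         exact ⟨s.add_mem h1 h3, fun a A ha h0 => by rw [add_mul, mul_add, h2 a A ha h0,
           h4 a A ha h0]⟩
       zero_mem' := ⟨s.zero_mem, fun _ _ _ _ => by rw [zero_mul, mul_zero]⟩
       smul_mem' := by
         rintro c X ⟨h1, h2⟩
         exact ⟨s.smul_mem _ h1, fun a A ha h0 => by rw [Matrix.smul_mul, Matrix.mul_smul,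
           h2 a A ha h0]⟩ }, fun Z => Iff.rfl⟩
  have hid : ∀ X ∈ s, ∀ Z ∈ J, X * Z - Z * X ∈ J := by
    intro X hX Z hZ
    revert X
    refine ind hA ?_ ?_ ?_
    · rw [zero_mul, mul_zero, sub_zero]
      exact J.zero_mem
    · intro X X' h1 h2
      have e1 : (X + X') * Z - Z * (X + X') = (X * Z - Z * X) + (X' * Z - Z * X') := by
        noncomm_ring
      rw [e1]
      exact J.add_mem h1 h2
    · intro β X hX
      rw [hJ] at hZ ⊢
      by_cases hβ : β ⬝ᵥ h = 0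
      · refine ⟨hA.br _ hX.1 _ hZ.1, fun a A ha h0 => ?_⟩
        have h1 := hZ.2 a A ha h0
        have h2 := hZ.2 (β + a) (X * A - A * X) (Wt.br hA hX ha) (by
          rw [add_dotProduct, hβ, zero_add]
          exact h0)
        rw [← sub_eq_zero]
        have e1 : (X * Z - Z * X) * A - A * (X * Z - Z * X) =
            X * (Z * A - A * Z) - (Z * A - A * Z) * X -
            (Z * (X * A - A * X) - (X * A - A * X) * Z) := by noncomm_ring
        rw [e1, h1, h2]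
        noncomm_ring
      · rw [hZ.2 β X hX hβ, sub_self]
        exact ⟨s.zero_mem, fun _ _ _ _ => by rw [zero_mul, mul_zero]⟩
  rcases hA.sim J (fun Z hZ => ((hJ Z).1 hZ).1) hid with h1 | h1
  · exact h1 Y ((hJ Y).2 ⟨hY, hc⟩)
  · exfalso
    obtain ⟨Z, hZ, hne⟩ := hA.nc
    apply hne
    revert Z
    intro Z hZ _
    refine ind hA (P := fun Z => D * Z = Z * D) ?_ ?_ ?_ Z hZ
    · rw [mul_zero, zero_mul]
    · intro X X' h1 h2
      rw [mul_add, add_mul, h1, h2]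
    · intro a A ha
      by_cases h0 : a ⬝ᵥ h = 0
      · have h2 := Wt.level hA ha
        rw [h0, mul_zero, Complex.ofReal_zero, zero_smul] at h2
        exact sub_eq_zero.1 h2
      · have h2 : A = 0 := hA.cen A ha.1 fun X hX => (((hJ X).1 (h1 hX)).2 a A ha h0).symm
        rw [h2, mul_zero, zero_mul]

/-- Weights of level zero are not orthogonal to the weights of nonzero level. -/
theorem exists_a {γ : Fin r → ℝ} {Y : Matrix B B ℂ} (hg : γ ≠ 0) (hY : Wt s T γ Y) (h0 : Y ≠ 0)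
    (h1 : γ ⬝ᵥ h = 0) : ∃ a A, Wt s T a A ∧ A ≠ 0 ∧ a ⬝ᵥ h ≠ 0 ∧ γ ⬝ᵥ a ≠ 0 := by
  by_contra hcon
  push Not at hcon
  apply h0
  refine J_zero hA hY.1 fun a A ha h2 => ?_
  by_contra h3
  have h4 : Y * A - A * Y ≠ 0 := fun h5 => h3 (sub_eq_zero.1 h5)
  have h5 : A ≠ 0 := by
    rintro rfl
    exact h3 (by rw [mul_zero, zero_mul])
  have h6 := hcon a A ha h5 h2
  have h7 := hcon (γ + a) _ (Wt.br hA hY ha) h4 (by
    rw [add_dotProduct, h1, zero_add]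
    exact h2)
  rw [dotProduct_add, h6, add_zero] at h7
  exact (dot_pos hg).ne' h7

/-- Weights of nonzero level have root vectors. -/
theorem good_lev {γ : Fin r → ℝ} {Y : Matrix B B ℂ} (hY : Wt s T γ Y) (h0 : Y ≠ 0)
    (h1 : γ ⬝ᵥ h ≠ 0) : ∃ X, Good s T γ X := by
  rcases lev_of hA hY h0 with h2 | h2 | h2
  · exact absurd h2 h1
  · exact good_of_lev hA hY h0 h2
  · obtain ⟨X, hX⟩ := good_of_lev hA (Wt.adj hA hY) (by
      intro h3
      apply h0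
      rw [← conjTranspose_conjTranspose Y, h3, conjTranspose_zero]) (by
      rw [neg_dotProduct, h2, neg_neg])
    have h3 := Good.adj hA hX
    rw [neg_neg] at h3
    exact ⟨_, h3⟩

theorem rf_lev {a γ : Fin r → ℝ} (ha : a ≠ 0) (h1 : γ ⬝ᵥ h = 0) (h2 : a ⬝ᵥ h ≠ 0)
    (h3 : γ ⬝ᵥ a ≠ 0) : rf a γ ⬝ᵥ h ≠ 0 := by
  unfold rf pr
  rw [sub_dotProduct, smul_dotProduct, h1, zero_sub, smul_eq_mul]
  have h4 := (dot_pos ha).ne'
  refine neg_ne_zero.2 (mul_ne_zero (div_ne_zero (mul_ne_zero two_ne_zero h3) h4) h2)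

theorem good_all {γ : Fin r → ℝ} {Y : Matrix B B ℂ} (hg : γ ≠ 0) (hY : Wt s T γ Y)
    (h0 : Y ≠ 0) : ∃ X, Good s T γ X := by
  by_cases h1 : γ ⬝ᵥ h = 0
  · obtain ⟨a, A, ha, hA0, hah, hag⟩ := exists_a hA hg hY h0 h1
    obtain ⟨X, hX⟩ := good_lev hA ha hA0 hah
    obtain ⟨X', hX'⟩ := good_lev hA (Wt.refl hA hX hY) (conj_ne hA hX h0)
      (rf_lev hA hX.g0 h1 hah hag)
    have h2 := Good.refl hA hX hX'
    rw [rf_rf hX.g0] at h2
    exact ⟨_, h2⟩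
  · exact good_lev hA hY h0 h1

/-- Multiples of roots. -/
theorem red_of {γ : Fin r → ℝ} {Y Z : Matrix B B ℂ} (hg : γ ≠ 0) (hY : Wt s T γ Y) (h0 : Y ≠ 0)
    {c : ℝ} (hc : c ≠ 0) (hZ : Wt s T (c • γ) Z) (hZ0 : Z ≠ 0) : c = 1 ∨ c = -1 := by
  have key : ∀ {γ : Fin r → ℝ} {Y Z : Matrix B B ℂ}, Wt s T γ Y → Y ≠ 0 → γ ⬝ᵥ h ≠ 0 →
      Wt s T (c • γ) Z → Z ≠ 0 → c = 1 ∨ c = -1 := by
    intro γ Y Z hY h0 h1 hZ hZ0
    have h2 := lev_of hA hZ hZ0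
    rw [smul_dotProduct, smul_eq_mul] at h2
    rcases lev_of hA hY h0 with h3 | h3 | h3
    · exact absurd h3 h1
    · rw [h3, mul_one] at h2
      exact h2.resolve_left hc
    · rw [h3] at h2
      rcases h2 with h2 | h2 | h2
      · exact absurd (by linarith) hc
      · exact Or.inr (by linarith)
      · exact Or.inl (by linarith)
  by_cases h1 : γ ⬝ᵥ h = 0
  · obtain ⟨a, A, ha, hA0, hah, hag⟩ := exists_a hA hg hY h0 h1
    obtain ⟨X, hX⟩ := good_lev hA ha hA0 hah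
    have h3 := Wt.refl hA hX hZ
    rw [rf_smul] at h3
    exact key (Wt.refl hA hX hY) (conj_ne hA hX h0) (rf_lev hA hX.g0 h1 hah hag) h3
      (conj_ne hA hX hZ0)
  · exact key hY h0 h1 hZ hZ0

/-- Integrality. -/
theorem int_of {γ δ : Fin r → ℝ} {X Y : Matrix B B ℂ} (hX : Good s T γ X) (hY : Wt s T δ Y)
    (h0 : Y ≠ 0) : ∃ n : ℤ, pr γ δ = n := by
  obtain ⟨H, hH⟩ : ∃ H, H = X * Xᴴ - Xᴴ * X := ⟨_, rfl⟩
  have hH3 : H * H * H = H := by
    have e1 : H * H = X * Xᴴ * X * Xᴴ + Xᴴ * X * Xᴴ * X - X * (Xᴴ * Xᴴ) * X - Xᴴ * (X * X) * Xᴴ := by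
      rw [hH]
      noncomm_ring
    rw [hX.p2, hX.p2', hX.p3, hX.p3', mul_zero, mul_zero, zero_mul, zero_mul, sub_zero,
      sub_zero] at e1
    rw [e1, hH]
    have e2 : (X * Xᴴ + Xᴴ * X) * (X * Xᴴ - Xᴴ * X) = X * Xᴴ * X * Xᴴ + Xᴴ * (X * X) * Xᴴ -
        X * (Xᴴ * Xᴴ) * X - Xᴴ * X * Xᴴ * X := by noncomm_ring
    rw [e2, hX.p2, hX.p2', hX.p3, hX.p3', mul_zero, mul_zero, zero_mul, zero_mul, add_zero,
      sub_zero]
  have hb := hY.2 ((2 / (γ ⬝ᵥ γ)) • γ)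
  rw [← hX.b, ← hH] at hb
  have hpr : δ ⬝ᵥ (2 / (γ ⬝ᵥ γ)) • γ = pr γ δ := by
    unfold pr
    rw [dotProduct_smul, smul_eq_mul]
    ring
  rw [hpr] at hb
  obtain ⟨c, hc⟩ : ∃ c : ℝ, c = pr γ δ := ⟨_, rfl⟩
  rw [← hc] at hb ⊢
  have h1 : H * Y = Y * H + (c : ℂ) • Y := by rw [← hb]; abel
  -- `Y (H + c)^3 = Y (H + c)`
  have h2 : H * (H * (H * Y)) = H * Y := by
    rw [← mul_assoc, ← mul_assoc, hH3]
  have h3 : H * (H * (H * Y)) = Y * (H * H * H) + (3 * c : ℂ) • (Y * (H * H)) +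
      (3 * c * c : ℂ) • (Y * H) + (c * c * c : ℂ) • Y := by
    have f1 : H * (Y * H) = Y * (H * H) + (c : ℂ) • (Y * H) := by
      rw [← mul_assoc, h1, add_mul, Matrix.smul_mul, mul_assoc]
    have f2 : H * (Y * (H * H)) = Y * (H * H * H) + (c : ℂ) • (Y * (H * H)) := by
      rw [← mul_assoc, h1, add_mul, Matrix.smul_mul, mul_assoc, mul_assoc]
    rw [h1]
    simp only [mul_add, Matrix.mul_smul, h1, f1, f2, smul_add, smul_smul]
    module
  rw [h3, h1, hH3] at h2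
  by_cases hc0 : c = 0
  · exact ⟨0, by rw [hc0, Int.cast_zero]⟩
  have hcC : (c : ℂ) ≠ 0 := by exact_mod_cast hc0
  have hH3' : H * (H * H) = H := by rw [← mul_assoc, hH3]
  have k1 : (3 : ℂ) • (Y * (H * H)) + (3 * c : ℂ) • (Y * H) + (c * c - 1 : ℂ) • Y = 0 := by
    have k0 : (c : ℂ) • ((3 : ℂ) • (Y * (H * H)) + (3 * c : ℂ) • (Y * H) +
        (c * c - 1 : ℂ) • Y) = 0 := by
      rw [← sub_eq_zero.2 h2]
      module
    exact (smul_eq_zero.1 k0).resolve_left hcC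
  have k2 : (3 * c : ℂ) • (Y * (H * H)) + (c * c + 2 : ℂ) • (Y * H) = 0 := by
    have e1 := congrArg (fun M => M * H) k1
    simp only [add_mul, Matrix.smul_mul, mul_assoc, zero_mul, hH3'] at e1
    rw [← e1]
    module
  have k3 : (c * c - 1 : ℂ) • ((2 : ℂ) • (Y * H) + (c : ℂ) • Y) = 0 := by
    have e1 : (c * c - 1 : ℂ) • ((2 : ℂ) • (Y * H) + (c : ℂ) • Y) =
        (c : ℂ) • ((3 : ℂ) • (Y * (H * H)) + (3 * c : ℂ) • (Y * H) + (c * c - 1 : ℂ) • Y) -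
        ((3 * c : ℂ) • (Y * (H * H)) + (c * c + 2 : ℂ) • (Y * H)) := by module
    rw [e1, k1, k2, smul_zero, sub_zero]
  rcases smul_eq_zero.1 k3 with k4 | k4
  · have k5 : c * c - 1 = 0 := by exact_mod_cast k4
    have k6 : (c - 1) * (c + 1) = 0 := by linear_combination k5
    rcases mul_eq_zero.1 k6 with k7 | k7
    · exact ⟨1, by push_cast; linarith⟩
    · exact ⟨-1, by push_cast; linarith⟩
  · have k5 : Y * H = (-(c / 2) : ℂ) • Y := by
      have e1 : (2 : ℂ) • (Y * H) = (2 : ℂ) • ((-(c / 2) : ℂ) • Y) := by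
        rw [eq_neg_of_add_eq_zero_left k4, smul_smul, ← neg_smul]
        congr 1
        ring
      exact smul_right_injective _ (two_ne_zero' ℂ) e1
    have k6 : Y * H * H * H = Y * H := by
      rw [mul_assoc, mul_assoc, hH3']
    have k7 : (-(c / 2) * (-(c / 2) * -(c / 2)) + c / 2 : ℂ) • Y = 0 := by
      rw [k5, Matrix.smul_mul, k5, smul_smul, Matrix.smul_mul, k5, smul_smul] at k6
      rw [← sub_eq_zero.2 k6, ← sub_smul]
      congr 1
      ring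
    have k8 := (smul_eq_zero.1 k7).resolve_right h0
    have k9 : -(c / 2) * (-(c / 2) * -(c / 2)) + c / 2 = 0 := by exact_mod_cast k8
    have k10 : c * ((c - 2) * (c + 2)) = 0 := by linear_combination (-8) * k9
    rcases mul_eq_zero.1 k10 with k11 | k11
    · exact absurd k11 hc0
    · rcases mul_eq_zero.1 k11 with k12 | k12
      · exact ⟨2, by push_cast; linarith⟩
      · exact ⟨-2, by push_cast; linarith⟩

omit hA in
theorem exists_pos : ∃ P : (Fin r → ℝ) → Prop, ∀ γ, γ ≠ 0 → (P γ ↔ ¬ P (-γ)) := by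
  refine ⟨fun γ => WellOrderingRel γ (-γ), fun γ hγ => ?_⟩
  have h1 : γ ≠ -γ := by
    intro h2
    apply hγ
    funext i
    have := congrFun h2 i
    rw [Pi.neg_apply] at this
    rw [Pi.zero_apply]
    linarith
  simp only [neg_neg]
  constructor
  · intro h2 h3
    exact asymm_of WellOrderingRel h2 h3
  · intro h2
    rcases trichotomous_of WellOrderingRel γ (-γ) with h3 | h3 | h3
    · exact h3
    · exact absurd h3 h1
    · exact absurd h3 h2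

/-- The brackets of orthogonal parts vanish. -/
theorem br_orth {Φ Ψ : Finset (Fin r → ℝ)}
    (hΦ : ∀ γ, γ ∈ Φ ↔ γ ≠ 0 ∧ ∃ Y, Wt s T γ Y ∧ Y ≠ 0)
    (ho : ∀ γ ∈ Ψ, ∀ δ ∈ Φ, δ ∉ Ψ → γ ⬝ᵥ δ = 0) {γ δ : Fin r → ℝ} (hγ : γ ∈ Ψ) (hγ' : γ ∈ Φ)
    (hδ : δ ∈ Φ) (hδ' : δ ∉ Ψ) {X Y : Matrix B B ℂ} (hX : Wt s T γ X) (hY : Wt s T δ Y) :
    X * Y - Y * X = 0 := by
  by_contra h0
  have h1 := Wt.br hA hX hY
  have h2 := ho γ hγ δ hδ hδ'
  have hg := dot_pos ((hΦ γ).1 hγ').1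
  have hd := dot_pos ((hΦ δ).1 hδ).1
  have h3 : γ + δ ≠ 0 := by
    intro h3
    have h4 : γ ⬝ᵥ (γ + δ) = 0 := by rw [h3, dotProduct_zero]
    rw [dotProduct_add, h2, add_zero] at h4
    exact hg.ne' h4
  have h4 : γ + δ ∈ Φ := (hΦ _).2 ⟨h3, _, h1, h0⟩
  by_cases h5 : γ + δ ∈ Ψ
  · have h6 := ho _ h5 δ hδ hδ'
    rw [add_dotProduct, h2, zero_add] at h6
    exact hd.ne' h6
  · have h6 := ho γ hγ _ h4 h5
    rw [dotProduct_add, h2, add_zero] at h6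
    exact hg.ne' h6

theorem irr_of {Φ : Finset (Fin r → ℝ)} (hΦ : ∀ γ, γ ∈ Φ ↔ γ ≠ 0 ∧ ∃ Y, Wt s T γ Y ∧ Y ≠ 0)
    (Ψ : Finset (Fin r → ℝ)) (hΨ : Ψ ⊆ Φ)
    (ho : ∀ γ ∈ Ψ, ∀ δ ∈ Φ, δ ∉ Ψ → γ ⬝ᵥ δ = 0) : Ψ = ∅ ∨ Ψ = Φ := by
  obtain ⟨J, hJ⟩ : ∃ J : Submodule ℂ (Matrix B B ℂ), ∀ Z, Z ∈ J ↔ Z ∈ s ∧
      ∀ δ A, δ ∈ Φ → δ ∉ Ψ → Wt s T δ A → Z * A = A * Z :=
    ⟨{ carrier := {Z | Z ∈ s ∧ ∀ δ A, δ ∈ Φ → δ ∉ Ψ → Wt s T δ A → Z * A = A * Z}
       add_mem' := by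
         rintro X Z ⟨h1, h2⟩ ⟨h3, h4⟩
         exact ⟨s.add_mem h1 h3, fun a A ha h0 h5 => by rw [add_mul, mul_add, h2 a A ha h0 h5,
           h4 a A ha h0 h5]⟩
       zero_mem' := ⟨s.zero_mem, fun _ _ _ _ _ => by rw [zero_mul, mul_zero]⟩
       smul_mem' := by
         rintro c X ⟨h1, h2⟩
         exact ⟨s.smul_mem _ h1, fun a A ha h0 h5 => by rw [Matrix.smul_mul, Matrix.mul_smul,
           h2 a A ha h0 h5]⟩ }, fun Z => Iff.rfl⟩
  have hid : ∀ X ∈ s, ∀ Z ∈ J, X * Z - Z * X ∈ J := by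
    intro X hX Z hZ
    revert X
    refine ind hA ?_ ?_ ?_
    · rw [zero_mul, mul_zero, sub_zero]
      exact J.zero_mem
    · intro X X' h1 h2
      have e1 : (X + X') * Z - Z * (X + X') = (X * Z - Z * X) + (X' * Z - Z * X') := by
        noncomm_ring
      rw [e1]
      exact J.add_mem h1 h2
    · intro β X hX
      by_cases hX0 : X = 0
      · rw [hX0, zero_mul, mul_zero, sub_zero]
        exact J.zero_mem
      rw [hJ] at hZ ⊢
      by_cases hβ : β ∈ Φ ∧ β ∉ Ψ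
      · rw [hZ.2 β X hβ.1 hβ.2 hX, sub_self]
        exact ⟨s.zero_mem, fun _ _ _ _ _ => by rw [zero_mul, mul_zero]⟩
      · refine ⟨hA.br _ hX.1 _ hZ.1, fun δ A hδ hδ' ha => ?_⟩
        have h1 := hZ.2 δ A hδ hδ' ha
        have h2 : Z * (X * A - A * X) = (X * A - A * X) * Z := by
          by_cases hβ0 : β = 0
          · have h3 := Wt.br hA hX ha
            rw [hβ0, zero_add] at h3
            exact hZ.2 δ _ hδ hδ' h3
          · have h3 : β ∈ Φ := (hΦ β).2 ⟨hβ0, X, hX, hX0⟩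
            have h4 : β ∈ Ψ := by
              by_contra h4
              exact hβ ⟨h3, h4⟩
            rw [br_orth hA hΦ ho h4 h3 hδ hδ' hX ha, mul_zero, zero_mul]
        rw [← sub_eq_zero]
        have e1 : (X * Z - Z * X) * A - A * (X * Z - Z * X) =
            X * (Z * A - A * Z) - (Z * A - A * Z) * X -
            (Z * (X * A - A * X) - (X * A - A * X) * Z) := by noncomm_ring
        rw [e1, h1, h2]
        noncomm_ring
  rcases hA.sim J (fun Z hZ => ((hJ Z).1 hZ).1) hid with h1 | h1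
  · left
    rw [Finset.eq_empty_iff_forall_notMem]
    intro γ hγ
    obtain ⟨-, X, hX, hX0⟩ := (hΦ γ).1 (hΨ hγ)
    apply hX0
    refine h1 X ((hJ X).2 ⟨hX.1, fun δ A hδ hδ' ha => ?_⟩)
    exact sub_eq_zero.1 (br_orth hA hΦ ho hγ (hΨ hγ) hδ hδ' hX ha)
  · right
    refine Finset.Subset.antisymm hΨ fun δ hδ => ?_
    by_contra hδ'
    obtain ⟨-, A, ha, ha0⟩ := (hΦ δ).1 hδ
    apply ha0
    exact hA.cen A ha.1 fun X hX => (((hJ X).1 (h1 hX)).2 δ A hδ hδ' ha).symm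

theorem spn_of {Φ : Finset (Fin r → ℝ)} (hΦ : ∀ γ, γ ∈ Φ ↔ γ ≠ 0 ∧ ∃ Y, Wt s T γ Y ∧ Y ≠ 0) :
    Submodule.span ℝ (Φ : Set (Fin r → ℝ)) = ⊤ := by
  by_contra hne
  obtain ⟨f, hf, hf2⟩ := Submodule.exists_le_ker_of_lt_top _ (lt_top_iff_ne_top.2 hne)
  obtain ⟨y, hy⟩ : ∃ y : Fin r → ℝ, y = fun i => f (Pi.single i 1) := ⟨_, rfl⟩
  have hfy : ∀ x, f x = x ⬝ᵥ y := by
    intro x
    rw [LinearMap.pi_apply_eq_sum_univ f x, hy]
    unfold dotProduct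
    refine Finset.sum_congr rfl fun i _ => ?_
    rw [smul_eq_mul]
    congr 2
    funext j
    rw [Pi.single_apply]
    simp only [eq_comm]
  have h1 : ∀ γ ∈ Φ, γ ⬝ᵥ y = 0 := by
    intro γ hγ
    rw [← hfy]
    exact hf2 (Submodule.subset_span hγ)
  have h2 : tor T y = 0 := by
    refine hA.cen _ (tor_mem (fun i => (hA.tv.m i).1) y) ?_
    refine ind hA ?_ ?_ ?_
    · rw [zero_mul, mul_zero]
    · intro X X' h1 h2
      rw [mul_add, add_mul, h1, h2]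
    · intro γ Y hY
      have h3 := hY.2 y
      by_cases hY0 : Y = 0
      · rw [hY0, zero_mul, mul_zero]
      · have h4 : γ ⬝ᵥ y = 0 := by
          by_cases hγ : γ = 0
          · rw [hγ, zero_dotProduct]
          · exact h1 γ ((hΦ γ).2 ⟨hγ, Y, hY, hY0⟩)
        rw [h4, Complex.ofReal_zero, zero_smul] at h3
        exact sub_eq_zero.1 h3
  have h3 : y = 0 := tor_inj hA.tv.t h2
  apply hf
  ext x
  rw [LinearMap.comp_apply, hfy, h3, dotProduct_zero]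
  rfl

theorem main : ∃ (Φ : Finset (Fin r → ℝ)) (X : (Fin r → ℝ) → Matrix B B ℂ),
    RV s D r T Φ X h := by
  classical
  obtain ⟨G, hG, hG2⟩ := exists_G hA
  obtain ⟨Φ, hΦd⟩ : ∃ Φ : Finset (Fin r → ℝ), Φ = G.filter fun γ => γ ≠ 0 ∧
    ∃ Y, Wt s T γ Y ∧ Y ≠ 0 := ⟨_, rfl⟩
  have hΦ : ∀ γ, γ ∈ Φ ↔ γ ≠ 0 ∧ ∃ Y, Wt s T γ Y ∧ Y ≠ 0 := by
    intro γ
    rw [hΦd, Finset.mem_filter]
    exact ⟨fun h1 => h1.2, fun h1 => ⟨by
      obtain ⟨-, Y, hY, hY0⟩ := h1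
      exact hG γ Y hY hY0, h1⟩⟩
  have hneg : ∀ γ ∈ Φ, -γ ∈ Φ := by
    intro γ hγ
    obtain ⟨h1, Y, hY, hY0⟩ := (hΦ γ).1 hγ
    refine (hΦ _).2 ⟨neg_ne_zero.2 h1, _, Wt.adj hA hY, ?_⟩
    intro h2
    apply hY0
    rw [← conjTranspose_conjTranspose Y, h2, conjTranspose_zero]
  have hex : ∀ γ, ∃ X, γ ∈ Φ → Good s T γ X := by
    intro γ
    by_cases hγ : γ ∈ Φ
    · obtain ⟨h1, Y, hY, hY0⟩ := (hΦ γ).1 hγ
      obtain ⟨X, hX⟩ := good_all hA h1 hY hY0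
      exact ⟨X, fun _ => hX⟩
    · exact ⟨0, fun h1 => absurd h1 hγ⟩
  choose X0 hX0 using hex
  obtain ⟨P, hP⟩ := exists_pos (r := r)
  obtain ⟨X, hXd⟩ : ∃ X : (Fin r → ℝ) → Matrix B B ℂ, X = fun γ =>
    if P γ then X0 γ else (X0 (-γ))ᴴ := ⟨_, rfl⟩
  have hX : ∀ γ ∈ Φ, Good s T γ (X γ) := by
    intro γ hγ
    rw [hXd]
    simp only
    split_ifs with h1
    · exact hX0 γ hγ
    · have h2 := Good.adj hA (hX0 _ (hneg γ hγ))
      rw [neg_neg] at h2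
      exact h2
  have hXn : ∀ γ ∈ Φ, X (-γ) = (X γ)ᴴ := by
    intro γ hγ
    have h1 := hP γ ((hΦ γ).1 hγ).1
    rw [hXd]
    simp only
    by_cases h2 : P γ
    · rw [if_neg (h1.1 h2), if_pos h2, neg_neg]
    · have h3 : P (-γ) := by
        by_contra h4
        exact h2 (h1.2 h4)
      rw [if_pos h3, if_neg h2, conjTranspose_conjTranspose]
  refine ⟨Φ, X, ?_⟩
  refine ⟨hA.tv, ?_, ?_, ?_, ?_, ?_, ?_, ?_⟩
  · refine ⟨?_, hneg, ?_, ?_, ?_, spn_of hA hΦ, irr_of hA hΦ, ?_, ?_⟩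
    · intro h1
      exact ((hΦ 0).1 h1).1 rfl
    · intro γ hγ δ hδ
      obtain ⟨h1, Y, hY, hY0⟩ := (hΦ δ).1 hδ
      exact (hΦ _).2 ⟨rf_ne (hX γ hγ).g0 h1, _, Wt.refl hA (hX γ hγ) hY,
        conj_ne hA (hX γ hγ) hY0⟩
    · intro γ hγ δ hδ
      obtain ⟨h1, Y, hY, hY0⟩ := (hΦ δ).1 hδ
      exact int_of hA (hX γ hγ) hY hY0
    · intro γ hγ c hc
      obtain ⟨h1, Y, hY, hY0⟩ := (hΦ γ).1 hγ
      obtain ⟨h2, Z, hZ, hZ0⟩ := (hΦ _).1 hc
      refine red_of hA h1 hY hY0 ?_ hZ hZ0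
      rintro rfl
      exact h2 (zero_smul _ _)
    · intro γ hγ
      obtain ⟨h1, Y, hY, hY0⟩ := (hΦ γ).1 hγ
      exact lev_of hA hY hY0
    · by_contra hcon
      push Not at hcon
      obtain ⟨Z, hZ, hne⟩ := hA.nc
      apply hne
      refine ind hA (P := fun Z => D * Z = Z * D) ?_ ?_ ?_ Z hZ
      · rw [mul_zero, zero_mul]
      · intro X X' h1 h2
        rw [mul_add, add_mul, h1, h2]
      · intro a A ha
        by_cases hA0 : A = 0
        · rw [hA0, mul_zero, zero_mul]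
        by_cases ha0 : a = 0
        · have h2 := Wt.level hA ha
          rw [ha0, zero_dotProduct, mul_zero, Complex.ofReal_zero, zero_smul] at h2
          exact sub_eq_zero.1 h2
        have h3 : a ∈ Φ := (hΦ a).2 ⟨ha0, A, ha, hA0⟩
        rcases lev_of hA ha hA0 with h4 | h4 | h4
        · have h2 := Wt.level hA ha
          rw [h4, mul_zero, Complex.ofReal_zero, zero_smul] at h2
          exact sub_eq_zero.1 h2
        · exact absurd h4 (hcon a h3)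
        · exfalso
          refine hcon (-a) (hneg a h3) ?_
          rw [neg_dotProduct, h4, neg_neg]
  · intro γ hγ
    exact ⟨(hX γ hγ).wt.1, (hX γ hγ).ne, hXn γ hγ⟩
  · intro γ hγ
    exact ⟨(hX γ hγ).p3, (hX γ hγ).p2⟩
  · intro γ hγ x
    exact (hX γ hγ).wt.2 x
  · intro γ hγ
    exact (hX γ hγ).b
  · intro Y hY
    obtain ⟨c, hc, hs⟩ := hG2 Y hY
    rw [hs]
    refine Submodule.sum_mem _ fun γ hγ => ?_
    by_cases h0 : γ = 0
    · have h1 := hc γ hγ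
      rw [h0] at h1 ⊢
      exact Submodule.span_mono Set.subset_union_left (Wt.span hA h1)
    · by_cases h1 : c γ = 0
      · rw [h1]
        exact Submodule.zero_mem _
      · have h2 : γ ∈ Φ := (hΦ γ).2 ⟨h0, _, hc γ hγ, h1⟩
        obtain ⟨d, hd⟩ := (hX γ h2).one _ (hc γ hγ)
        rw [hd]
        exact Submodule.smul_mem _ _ (Submodule.subset_span (Or.inr ⟨γ, h2, rfl⟩))
  · intro γ hγ Y hY hY0 hw
    have h1 : γ ∈ Φ := (hΦ γ).2 ⟨hγ, Y, ⟨hY, hw⟩, hY0⟩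
    exact ⟨h1, (hX γ h1).one Y ⟨hY, hw⟩⟩

end dec

/-! ### The ideal of a pure idempotent -/

section pure

variable {Om : Matrix B B ℂ} {L : Submodule ℂ (Matrix B B ℂ)} {e : Matrix B B ℂ}

theorem comm_L (hL : LD Om L) (he : e ∈ CM L) (heh : eᴴ = e) {J : Submodule ℂ (Matrix B B ℂ)}
    (hJ : J ≤ Ide L e) {Y : Matrix B B ℂ} (hY : Y ∈ J)
    (hb : ∀ X ∈ Ide L e, X * Y - Y * X ∈ J) : ∀ X ∈ L, X * Y - Y * X ∈ J := by
  intro X hX
  obtain ⟨z, hz, hzL, d, hd, rfl⟩ := GJ1.L_dec hL hX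
  obtain ⟨a, ha, b, hb', rfl⟩ := GJ1.Dr_dec hL he heh hd
  have hYL : Y ∈ L := GJ1.Dr_le hL (hJ hY).1
  have h1 : Y * z = z * Y := hz.1 Y hYL
  have h2 := GJ4.comm_ker hL he heh (hJ hY) hb'.1 hb'.2
  have e1 : (z + (a + b)) * Y - Y * (z + (a + b)) = (z * Y - Y * z) + (a * Y - Y * a) -
      (Y * b - b * Y) := by noncomm_ring
  rw [e1, h1, h2, sub_self, zero_add, sub_zero]
  exact hb a ha

theorem cen_of (hL : LD Om L) (he : e ∈ CM L) (heh : eᴴ = e) {X : Matrix B B ℂ}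
    (hX : X ∈ Ide L e) (hc : ∀ Y ∈ Ide L e, X * Y = Y * X) : X = 0 := by
  have h1 : ∀ W ∈ L, W * X = X * W := by
    intro W hW
    obtain ⟨z, hz, hzL, d, hd, rfl⟩ := GJ1.L_dec hL hW
    obtain ⟨a, ha, b, hb', rfl⟩ := GJ1.Dr_dec hL he heh hd
    have k1 : X * z = z * X := hz.1 X (GJ1.Dr_le hL hX.1)
    have k2 := GJ4.comm_ker hL he heh hX hb'.1 hb'.2
    have k3 := hc a ha
    have k4 : X * b = b * X := sub_eq_zero.1 k2
    rw [add_mul, add_mul, mul_add, mul_add, k1, k3, k4]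
  have h2 : Xᴴ ∈ CM L := CM_adj hL.adj h1
  have h3 := GJ3.Dr_trace hX.1 h2
  exact trace_self_eq_zero (by rw [trace_mul_comm]; exact h3)

end pure

end GH3

open GH3 in
/-- **H3.** The root vectors. -/
theorem rv_of : St_rv := by
  intro B _ _ Om L hO hL e hP D hD hDh hD2 hn r T h hT
  obtain ⟨⟨he, hee, heh, he0, hmin⟩, hte, hpu⟩ := hP
  refine main (s := Ide L e) (D := D) ⟨hT, ?_, ?_, ?_, ?_, hD2, ?_⟩
  · intro X hX Y hY
    exact GJ1.Ide_br hL he (GJ1.Dr_le hL hX.1) hY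
  · intro X hX
    exact GJ1.Ide_adj hL he heh hX
  · intro X hX hc
    exact cen_of hL he heh hX hc
  · intro J hJ hb
    rcases hpu J (fun Y hY => (hJ hY).1) (fun X hX Y hY =>
      comm_L hL he heh hJ hY (fun Z hZ => hb Z hZ Y hY) X hX) with h1 | h1
    · exact Or.inl fun Y hY => GJ1.Ide_zero hL he heh (hJ hY) (h1 Y hY)
    · exact Or.inr h1
  · by_contra hcon
    push Not at hcon
    obtain ⟨z, hz, hzL, d, hd, hDz⟩ := GJ1.L_dec hL hD
    obtain ⟨a, ha, b, hb', rfl⟩ := GJ1.Dr_dec hL he heh hd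
    have ha0 : a = 0 := by
      refine cen_of hL he heh ha fun Y hY => ?_
      have k1 : Y * z = z * Y := hz.1 Y (GJ1.Dr_le hL hY.1)
      have k2 : Y * b = b * Y := sub_eq_zero.1 (GJ4.comm_ker hL he heh hY hb'.1 hb'.2)
      have k3 := hcon Y hY
      have k4 : a = D - z - b := by rw [hDz]; abel
      rw [k4, sub_mul, sub_mul, mul_sub, mul_sub, k3, k1, k2]
    obtain ⟨c, hc⟩ := hmin z hz.1
    refine hn c ?_
    have h2 : e * z = z * e := hz.2 e he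
    rw [hDz, ha0, zero_add, add_mul, hb'.2, add_zero, ← hc, h2, mul_assoc, hee]

end

end Pool.Agent.NH32
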