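import Mathlib
import Pool.Agent.NH32.GtA
import Pool.Agent.NH32.GJ1

/-!
# H4: the weight vectors
-/

set_option linter.unusedSectionVars false

namespace Pool.Agent.NH32

open Matrix Module

noncomputable section

namespace GH4

variable {B : Type} [Fintype B] [DecidableEq B] {r : ℕ}

theorem dot_adj (M : Matrix B B ℂ) (v w : B → ℂ) :
    (M *ᵥ v) ⬝ᵥ star w = v ⬝ᵥ star (Mᴴ *ᵥ w) := by
  rw [star_mulVec, conjTranspose_conjTranspose, dotProduct_comm, dotProduct_mulVec,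
    dotProduct_comm]

open scoped ComplexOrder in
theorem dot_self {v : B → ℂ} (h : v ⬝ᵥ star v = 0) : v = 0 := by
  rwa [dotProduct_comm, dotProduct_star_self_eq_zero] at h

theorem dot_star (v w : B → ℂ) : v ⬝ᵥ star w = star (w ⬝ᵥ star v) := by
  unfold dotProduct
  rw [star_sum]
  refine Finset.sum_congr rfl fun i _ => ?_
  rw [Pi.star_apply, Pi.star_apply, star_mul', star_star, mul_comm]

/-- Weight vectors. -/
def IsW (T : Fin r → Matrix B B ℂ) (e : Matrix B B ℂ) (m : Fin r → ℝ) (v : B → ℂ) : Prop :=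
  e *ᵥ v = v ∧ ∀ i, T i *ᵥ v = (m i : ℂ) • v

/-- The data. -/
structure AD (s : Submodule ℂ (Matrix B B ℂ)) (T : Fin r → Matrix B B ℂ)
    (Φ : Finset (Fin r → ℝ)) (X : (Fin r → ℝ) → Matrix B B ℂ) (e : Matrix B B ℂ) : Prop where
  z : (0 : Fin r → ℝ) ∉ Φ
  neg : ∀ γ ∈ Φ, -γ ∈ Φ
  br : ∀ Y ∈ s, ∀ Z ∈ s, Y * Z - Z * Y ∈ s
  Tm : ∀ i, T i ∈ s ∧ (T i)ᴴ = T i
  Tc : ∀ i j, T i * T j = T j * T i
  Xm : ∀ γ ∈ Φ, X γ ∈ s ∧ X (-γ) = (X γ)ᴴ
  X3 : ∀ γ ∈ Φ, X γ * (X γ)ᴴ * X γ = X γ ∧ X γ * X γ = 0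
  Xw : ∀ γ ∈ Φ, ∀ x, tor T x * X γ - X γ * tor T x = ((γ ⬝ᵥ x : ℝ) : ℂ) • X γ
  Xb : ∀ γ ∈ Φ, X γ * (X γ)ᴴ - (X γ)ᴴ * X γ = tor T ((2 / (γ ⬝ᵥ γ)) • γ)
  sp : s ≤ Submodule.span ℂ (Set.range T ∪ X '' Φ)
  e2 : e * e = e
  eh : eᴴ = e
  e0 : e ≠ 0
  ec : ∀ Y ∈ s, Y * e = e * Y
  irr : ∀ W : Submodule ℂ (B → ℂ), (∀ w ∈ W, e *ᵥ w = w) → (∀ Y ∈ s, ∀ w ∈ W, Y *ᵥ w ∈ W) →
    W = ⊥ ∨ ∀ w, e *ᵥ w = w → w ∈ W

section

variable {s : Submodule ℂ (Matrix B B ℂ)} {T : Fin r → Matrix B B ℂ}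
    {Φ : Finset (Fin r → ℝ)} {X : (Fin r → ℝ) → Matrix B B ℂ} {e : Matrix B B ℂ}

theorem tor_mulVec {m : Fin r → ℝ} {v : B → ℂ} (h : IsW T e m v) (x : Fin r → ℝ) :
    tor T x *ᵥ v = ((x ⬝ᵥ m : ℝ) : ℂ) • v := by
  unfold tor
  rw [Matrix.sum_mulVec]
  have h1 : ∀ i ∈ Finset.univ, ((x i : ℂ) • T i) *ᵥ v = ((x i * m i : ℝ) : ℂ) • v := by
    intro i _
    rw [smul_mulVec, h.2 i, smul_smul]
    push_cast
    rfl
  rw [Finset.sum_congr rfl h1, ← Finset.sum_smul]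
  congr 1
  unfold dotProduct
  push_cast
  rfl

theorem tor_single (i : Fin r) : tor T (Pi.single i 1) = T i := by
  unfold tor
  rw [Finset.sum_eq_single i]
  · simp
  · intro j _ hj
    rw [Pi.single_eq_of_ne hj]
    simp
  · intro h
    exact absurd (Finset.mem_univ i) h

theorem IsW.smul {m : Fin r → ℝ} {v : B → ℂ} (h : IsW T e m v) (c : ℂ) : IsW T e m (c • v) :=
  ⟨by rw [mulVec_smul, h.1], fun i => by rw [mulVec_smul, h.2 i, smul_comm]⟩

theorem IsW.sub {m : Fin r → ℝ} {v w : B → ℂ} (h : IsW T e m v) (h' : IsW T e m w) :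
    IsW T e m (v - w) :=
  ⟨by rw [mulVec_sub, h.1, h'.1], fun i => by rw [mulVec_sub, h.2 i, h'.2 i, smul_sub]⟩

/-- Different weights are orthogonal. -/
theorem orth (hA : AD s T Φ X e) {m m' : Fin r → ℝ} {v w : B → ℂ} (h : IsW T e m v)
    (h' : IsW T e m' w) (hm : m ≠ m') : v ⬝ᵥ star w = 0 := by
  obtain ⟨i, hi⟩ := Function.ne_iff.1 hm
  have h1 := dot_adj (T i) v w
  rw [(hA.Tm i).2, h.2 i, h'.2 i, smul_dotProduct, star_smul, dotProduct_smul] at h1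
  have h2 : star ((m' i : ℝ) : ℂ) = ((m' i : ℝ) : ℂ) := Complex.conj_ofReal _
  rw [h2, smul_eq_mul, smul_eq_mul] at h1
  have h3 : ((m i : ℂ) - (m' i : ℂ)) * (v ⬝ᵥ star w) = 0 := by rw [sub_mul, h1, sub_self]
  rcases mul_eq_zero.1 h3 with h4 | h4
  · exact absurd (by exact_mod_cast sub_eq_zero.1 h4) hi
  · exact h4

/-- A root vector shifts the weight. -/
theorem shift (hA : AD s T Φ X e) {m γ : Fin r → ℝ} (hγ : γ ∈ Φ) {v : B → ℂ} (h : IsW T e m v) :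
    IsW T e (m + γ) (X γ *ᵥ v) := by
  refine ⟨?_, fun i => ?_⟩
  · rw [mulVec_mulVec, ← hA.ec _ (hA.Xm γ hγ).1, ← mulVec_mulVec, h.1]
  · have h1 := hA.Xw γ hγ (Pi.single i 1)
    rw [tor_single, dotProduct_single, mul_one] at h1
    have h2 : T i * X γ = X γ * T i + ((γ i : ℝ) : ℂ) • X γ := by rw [← h1]; abel
    rw [mulVec_mulVec, h2, add_mulVec, ← mulVec_mulVec, h.2 i, mulVec_smul, smul_mulVec,
      ← add_smul, Pi.add_apply]
    push_cast
    rfl

theorem gg_pos {γ : Fin r → ℝ} (h : γ ≠ 0) : 0 < γ ⬝ᵥ γ := by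
  have h1 : γ ⬝ᵥ γ ≠ 0 := fun h2 => h (dotProduct_self_eq_zero.1 h2)
  have h2 : 0 ≤ γ ⬝ᵥ γ := Finset.sum_nonneg fun i _ => mul_self_nonneg _
  exact lt_of_le_of_ne h2 (Ne.symm h1)

theorem PQ (hA : AD s T Φ X e) {m γ : Fin r → ℝ} (hγ : γ ∈ Φ) {v : B → ℂ} (h : IsW T e m v) :
    X γ *ᵥ ((X γ)ᴴ *ᵥ v) - (X γ)ᴴ *ᵥ (X γ *ᵥ v) = ((pr γ m : ℝ) : ℂ) • v := by
  rw [mulVec_mulVec, mulVec_mulVec, ← sub_mulVec, hA.Xb γ hγ, tor_mulVec h]
  congr 2
  unfold pr
  rw [smul_dotProduct, smul_eq_mul, dotProduct_comm γ m]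
  ring

theorem P0 (hA : AD s T Φ X e) {m γ : Fin r → ℝ} (hγ : γ ∈ Φ) {v : B → ℂ} (h : IsW T e m v)
    (ha : pr γ m ≠ 1) : X γ *ᵥ ((X γ)ᴴ *ᵥ v) = 0 := by
  have h1 := congrArg (fun w => X γ *ᵥ ((X γ)ᴴ *ᵥ w)) (PQ hA hγ h)
  have h2 : (X γ)ᴴ *ᵥ ((X γ)ᴴ *ᵥ (X γ *ᵥ v)) = 0 := by
    rw [mulVec_mulVec, ← conjTranspose_mul, (hA.X3 γ hγ).2, conjTranspose_zero, zero_mulVec]
  have h3 : X γ *ᵥ ((X γ)ᴴ *ᵥ (X γ *ᵥ ((X γ)ᴴ *ᵥ v))) = X γ *ᵥ ((X γ)ᴴ *ᵥ v) := by
    rw [mulVec_mulVec, mulVec_mulVec, (hA.X3 γ hγ).1]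
  simp only [mulVec_sub, h2, sub_zero, h3, mulVec_smul] at h1
  have h4 : (1 - ((pr γ m : ℝ) : ℂ)) • (X γ *ᵥ ((X γ)ᴴ *ᵥ v)) = 0 := by
    rw [sub_smul, one_smul, ← h1, sub_self]
  rcases smul_eq_zero.1 h4 with h5 | h5
  · exact absurd (by exact_mod_cast (sub_eq_zero.1 h5).symm) ha
  · exact h5

theorem Q0 (hA : AD s T Φ X e) {m γ : Fin r → ℝ} (hγ : γ ∈ Φ) {v : B → ℂ} (h : IsW T e m v)
    (ha : pr γ m ≠ -1) : (X γ)ᴴ *ᵥ (X γ *ᵥ v) = 0 := by
  have h1 := congrArg (fun w => (X γ)ᴴ *ᵥ (X γ *ᵥ w)) (PQ hA hγ h)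
  have h2 : X γ *ᵥ (X γ *ᵥ ((X γ)ᴴ *ᵥ v)) = 0 := by
    rw [mulVec_mulVec, (hA.X3 γ hγ).2, zero_mulVec]
  have h3 : (X γ)ᴴ *ᵥ (X γ *ᵥ ((X γ)ᴴ *ᵥ (X γ *ᵥ v))) = (X γ)ᴴ *ᵥ (X γ *ᵥ v) := by
    have h4 : X γ *ᵥ ((X γ)ᴴ *ᵥ (X γ *ᵥ v)) = X γ *ᵥ v := by
      rw [mulVec_mulVec, mulVec_mulVec, (hA.X3 γ hγ).1]
    rw [h4]
  simp only [mulVec_sub, h2, zero_sub, mulVec_neg, h3, mulVec_smul] at h1
  have h4 : (1 + ((pr γ m : ℝ) : ℂ)) • ((X γ)ᴴ *ᵥ (X γ *ᵥ v)) = 0 := by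
    rw [add_smul, one_smul, ← h1, add_neg_cancel]
  rcases smul_eq_zero.1 h4 with h5 | h5
  · exfalso
    apply ha
    have h6 : ((pr γ m : ℝ) : ℂ) = -1 := by linear_combination h5
    exact_mod_cast h6
  · exact h5

theorem X_zero (hA : AD s T Φ X e) {m γ : Fin r → ℝ} (hγ : γ ∈ Φ) {v : B → ℂ} (h : IsW T e m v)
    (ha : pr γ m ≠ -1) : X γ *ᵥ v = 0 := by
  apply dot_self
  rw [dot_adj, Q0 hA hγ h ha, star_zero, dotProduct_zero]

theorem X_inv (hA : AD s T Φ X e) {m γ : Fin r → ℝ} (hγ : γ ∈ Φ) {v : B → ℂ} (h : IsW T e m v)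
    (ha : pr γ m = -1) : (X γ)ᴴ *ᵥ (X γ *ᵥ v) = v := by
  have h1 := PQ hA hγ h
  rw [P0 hA hγ h (by rw [ha]; norm_num), ha, zero_sub] at h1
  have h2 : (((-1 : ℝ)) : ℂ) • v = -v := by push_cast; rw [neg_smul, one_smul]
  rw [h2] at h1
  exact neg_inj.1 h1

theorem X_inv' (hA : AD s T Φ X e) {m γ : Fin r → ℝ} (hγ : γ ∈ Φ) {v : B → ℂ} (h : IsW T e m v)
    (ha : pr γ m = 1) : X γ *ᵥ ((X γ)ᴴ *ᵥ v) = v := by
  have h1 := PQ hA hγ h
  rw [Q0 hA hγ h (by rw [ha]; norm_num), ha, sub_zero] at h1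
  rw [h1]
  simp

theorem pr_cases (hA : AD s T Φ X e) {m γ : Fin r → ℝ} (hγ : γ ∈ Φ) {v : B → ℂ}
    (h : IsW T e m v) (hv : v ≠ 0) : pr γ m = 0 ∨ pr γ m = 1 ∨ pr γ m = -1 := by
  by_cases h1 : pr γ m = 1
  · exact Or.inr (Or.inl h1)
  by_cases h2 : pr γ m = -1
  · exact Or.inr (Or.inr h2)
  · left
    have h3 := PQ hA hγ h
    rw [P0 hA hγ h h1, Q0 hA hγ h h2, sub_zero] at h3
    rcases smul_eq_zero.1 h3.symm with h4 | h4
    · exact_mod_cast h4
    · exact absurd h4 hv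

theorem pr_neg (γ m : Fin r → ℝ) : pr (-γ) m = -pr γ m := by
  unfold pr
  rw [neg_dotProduct_neg, dotProduct_neg]
  ring

theorem rf_neg (γ m : Fin r → ℝ) : rf (-γ) m = rf γ m := by
  unfold rf
  rw [pr_neg, neg_smul_neg]

theorem rf_of_neg_one {γ m : Fin r → ℝ} (h : pr γ m = -1) : rf γ m = m + γ := by
  unfold rf
  rw [h, neg_one_smul, sub_neg_eq_add]

theorem rf_of_zero {γ m : Fin r → ℝ} (h : pr γ m = 0) : rf γ m = m := by
  unfold rf
  rw [h, zero_smul, sub_zero]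

theorem pr_add_self {γ : Fin r → ℝ} (hγ : γ ≠ 0) (m : Fin r → ℝ) : pr γ (m + γ) = pr γ m + 2 := by
  unfold pr
  have h1 := (gg_pos hγ).ne'
  rw [add_dotProduct]
  field_simp

theorem AD.ne (hA : AD s T Φ X e) {γ : Fin r → ℝ} (hγ : γ ∈ Φ) : γ ≠ 0 := fun h => hA.z (h ▸ hγ)

/-- A regular element. -/
theorem exists_reg (Φ : Finset (Fin r → ℝ)) (hz : (0 : Fin r → ℝ) ∉ Φ) :
    ∃ x : Fin r → ℝ, ∀ γ ∈ Φ, γ ⬝ᵥ x ≠ 0 := by
  let p : (Fin r → ℝ) → Polynomial ℝ := fun γ => ∑ i : Fin r, Polynomial.monomial (i : ℕ) (γ i)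
  have hp : ∀ γ, γ ≠ 0 → p γ ≠ 0 := by
    intro γ hγ h0
    apply hγ
    funext i
    have h1 := congrArg (fun q => Polynomial.coeff q (i : ℕ)) h0
    simp only [p, Polynomial.finsetSum_coeff, Polynomial.coeff_monomial,
      Polynomial.coeff_zero] at h1
    rw [Finset.sum_eq_single i] at h1
    · simpa using h1
    · intro j _ hj
      rw [if_neg (fun h2 => hj (Fin.ext h2))]
    · intro h2
      exact absurd (Finset.mem_univ i) h2
  have h1 : ∏ γ ∈ Φ, p γ ≠ 0 := Finset.prod_ne_zero_iff.2 fun γ hγ => hp γ fun h2 => hz (h2 ▸ hγ)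
  obtain ⟨t, ht⟩ : ∃ t, (∏ γ ∈ Φ, p γ).eval t ≠ 0 := by
    by_contra hcon
    push Not at hcon
    exact h1 (Polynomial.funext fun t => by rw [hcon t, Polynomial.eval_zero])
  rw [Polynomial.eval_prod, Finset.prod_ne_zero_iff] at ht
  refine ⟨fun i => t ^ (i : ℕ), fun γ hγ h2 => ht γ hγ ?_⟩
  simp only [p, Polynomial.eval_finsetSum, Polynomial.eval_monomial]
  exact h2

/-- The words. -/
inductive Wd (Φ : Finset (Fin r → ℝ)) (X : (Fin r → ℝ) → Matrix B B ℂ) (x₀ : Fin r → ℝ)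
    (v : B → ℂ) : (B → ℂ) → Prop
  | base : Wd Φ X x₀ v v
  | step (γ : Fin r → ℝ) (w : B → ℂ) (hγ : γ ∈ Φ) (hl : γ ⬝ᵥ x₀ < 0) (hw : Wd Φ X x₀ v w) :
      Wd Φ X x₀ v (X γ *ᵥ w)

/-- The module generated by a highest weight vector. -/
def WM (Φ : Finset (Fin r → ℝ)) (X : (Fin r → ℝ) → Matrix B B ℂ) (x₀ : Fin r → ℝ)
    (v : B → ℂ) : Submodule ℂ (B → ℂ) := Submodule.span ℂ {w | Wd Φ X x₀ v w}

theorem WM_low {x₀ : Fin r → ℝ} {v : B → ℂ} {γ : Fin r → ℝ} (hγ : γ ∈ Φ) (hl : γ ⬝ᵥ x₀ < 0)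
    {w : B → ℂ} (hw : w ∈ WM Φ X x₀ v) : X γ *ᵥ w ∈ WM Φ X x₀ v := by
  unfold WM at hw
  induction hw using Submodule.span_induction with
  | mem x hx => exact Submodule.subset_span (Wd.step γ x hγ hl hx)
  | zero => rw [mulVec_zero]; exact Submodule.zero_mem _
  | add x y _ _ hx hy => rw [mulVec_add]; exact Submodule.add_mem _ hx hy
  | smul c x _ hx => rw [mulVec_smul]; exact Submodule.smul_mem _ _ hx

theorem WM_stable (hA : AD s T Φ X e) {x₀ : Fin r → ℝ} (hx₀ : ∀ γ ∈ Φ, γ ⬝ᵥ x₀ ≠ 0)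
    {m : Fin r → ℝ} {v : B → ℂ} (hv : IsW T e m v)
    (hmax : ∀ m' u, IsW T e m' u → u ≠ 0 → m' ⬝ᵥ x₀ ≤ m ⬝ᵥ x₀) {Y : Matrix B B ℂ} (hY : Y ∈ s)
    {w : B → ℂ} (hw : w ∈ WM Φ X x₀ v) : Y *ᵥ w ∈ WM Φ X x₀ v := by
  have hbase : ∀ Y ∈ Submodule.span ℂ (Set.range T ∪ X '' Φ), Y *ᵥ v ∈ WM Φ X x₀ v := by
    intro Y h1
    induction h1 using Submodule.span_induction with
    | mem Z hZ =>
      rcases hZ with ⟨i, rfl⟩ | ⟨γ, hγ, rfl⟩
      · rw [hv.2 i]
        exact Submodule.smul_mem _ _ (Submodule.subset_span Wd.base)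
      · rcases lt_or_gt_of_ne (hx₀ γ hγ) with h2 | h2
        · exact Submodule.subset_span (Wd.step γ v hγ h2 Wd.base)
        · have h3 : X γ *ᵥ v = 0 := by
            by_contra h4
            have h5 := hmax _ _ (shift hA hγ hv) h4
            rw [add_dotProduct] at h5
            linarith
          rw [h3]
          exact Submodule.zero_mem _
    | zero => rw [zero_mulVec]; exact Submodule.zero_mem _
    | add a b _ _ ha hb =>
      rw [add_mulVec]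
      exact Submodule.add_mem _ ha hb
    | smul c a _ ha =>
      rw [smul_mulVec]
      exact Submodule.smul_mem _ _ ha
  have key : ∀ w, Wd Φ X x₀ v w → ∀ Y ∈ s, Y *ᵥ w ∈ WM Φ X x₀ v := by
    intro w hw
    induction hw with
    | base => exact fun Y hY => hbase Y (hA.sp hY)
    | step γ w hγ hl hw ih =>
      intro Y hY
      have h2 : Y *ᵥ (X γ *ᵥ w) = X γ *ᵥ (Y *ᵥ w) + (Y * X γ - X γ * Y) *ᵥ w := by
        rw [sub_mulVec, mulVec_mulVec, mulVec_mulVec]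
        abel
      rw [h2]
      exact Submodule.add_mem _ (WM_low hγ hl (ih Y hY)) (ih _ (hA.br Y hY _ (hA.Xm γ hγ).1))
  unfold WM at hw
  induction hw using Submodule.span_induction with
  | mem x hx => exact key x hx Y hY
  | zero => rw [mulVec_zero]; exact Submodule.zero_mem _
  | add x y _ _ hx hy => rw [mulVec_add]; exact Submodule.add_mem _ hx hy
  | smul c x _ hx => rw [mulVec_smul]; exact Submodule.smul_mem _ _ hx

/-- A word is a weight vector. -/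
theorem Wd_wt (hA : AD s T Φ X e) {x₀ : Fin r → ℝ} {m : Fin r → ℝ} {v : B → ℂ}
    (hv : IsW T e m v) {w : B → ℂ} (hw : Wd Φ X x₀ v w) :
    w = v ∨ ∃ m', IsW T e m' w ∧ m' ⬝ᵥ x₀ < m ⬝ᵥ x₀ := by
  induction hw with
  | base => exact Or.inl rfl
  | step γ w hγ hl _ ih =>
    right
    rcases ih with rfl | ⟨m', h1, h2⟩
    · refine ⟨m + γ, shift hA hγ hv, ?_⟩
      rw [add_dotProduct]
      linarith
    · refine ⟨m' + γ, shift hA hγ h1, ?_⟩
      rw [add_dotProduct]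
      linarith

/-- The highest weight space is a line. -/
theorem top_line (hA : AD s T Φ X e) {x₀ : Fin r → ℝ} (hx₀ : ∀ γ ∈ Φ, γ ⬝ᵥ x₀ ≠ 0)
    {m : Fin r → ℝ} {v : B → ℂ} (hv : IsW T e m v) (hv0 : v ≠ 0)
    (hmax : ∀ m' u, IsW T e m' u → u ≠ 0 → m' ⬝ᵥ x₀ ≤ m ⬝ᵥ x₀) {u : B → ℂ}
    (hu : IsW T e m u) : ∃ c : ℂ, u = c • v := by
  have hfull : ∀ w, e *ᵥ w = w → w ∈ WM Φ X x₀ v := by
    have hE : ∀ w ∈ WM Φ X x₀ v, e *ᵥ w = w := by
      intro w hw
      unfold WM at hw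
      induction hw using Submodule.span_induction with
      | mem x hx =>
        rcases Wd_wt hA hv hx with rfl | ⟨m', h1, -⟩
        · exact hv.1
        · exact h1.1
      | zero => rw [mulVec_zero]
      | add x y _ _ hx hy => rw [mulVec_add, hx, hy]
      | smul c x _ hx => rw [mulVec_smul, hx]
    rcases hA.irr (WM Φ X x₀ v) hE (fun Y hY w hw => WM_stable hA hx₀ hv hmax hY hw) with h1 | h1
    · exfalso
      apply hv0
      have h2 : v ∈ WM Φ X x₀ v := Submodule.subset_span Wd.base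
      rw [h1] at h2
      exact (Submodule.mem_bot ℂ).1 h2
    · exact h1
  have hvv : v ⬝ᵥ star v ≠ 0 := fun h => hv0 (dot_self h)
  refine ⟨(u ⬝ᵥ star v) / (v ⬝ᵥ star v), ?_⟩
  obtain ⟨c, hc⟩ : ∃ c, c = (u ⬝ᵥ star v) / (v ⬝ᵥ star v) := ⟨_, rfl⟩
  rw [← hc]
  have h1 : IsW T e m (u - c • v) := hu.sub (hv.smul c)
  have h2 : v ⬝ᵥ star (u - c • v) = 0 := by
    have h3 : (u - c • v) ⬝ᵥ star v = 0 := by
      rw [sub_dotProduct, smul_dotProduct, hc, smul_eq_mul, div_mul_cancel₀ _ hvv, sub_self]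
    rw [dot_star, h3, star_zero]
  have h3 : ∀ w ∈ WM Φ X x₀ v, w ⬝ᵥ star (u - c • v) = 0 := by
    intro w hw
    unfold WM at hw
    induction hw using Submodule.span_induction with
    | mem x hx =>
      rcases Wd_wt hA hv hx with rfl | ⟨m', h4, h5⟩
      · exact h2
      · exact orth hA h4 h1 fun h6 => by rw [h6] at h5; exact lt_irrefl _ h5
    | zero => rw [zero_dotProduct]
    | add x y _ _ hx hy => rw [add_dotProduct, hx, hy, add_zero]
    | smul c x _ hx => rw [smul_dotProduct, hx, smul_zero]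
  have h4 := dot_self (h3 _ (hfull _ h1.1))
  exact sub_eq_zero.1 h4

/-- A line of weight vectors. -/
def One (T : Fin r → Matrix B B ℂ) (e : Matrix B B ℂ) (m : Fin r → ℝ) : Prop :=
  ∃ v, v ⬝ᵥ star v = 1 ∧ IsW T e m v ∧ ∀ u, IsW T e m u → ∃ c : ℂ, u = c • v

theorem One_step (hA : AD s T Φ X e) {m γ : Fin r → ℝ} (hγ : γ ∈ Φ) (ha : pr γ m = -1)
    (h : One T e m) : One T e (m + γ) := by
  obtain ⟨v, hv1, hv, hu⟩ := h
  refine ⟨X γ *ᵥ v, ?_, shift hA hγ hv, fun u hu' => ?_⟩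
  · rw [dot_adj, X_inv hA hγ hv ha, hv1]
  · have h1 : X γ *ᵥ ((X γ)ᴴ *ᵥ u) = u := by
      refine X_inv' hA hγ hu' ?_
      rw [pr_add_self (hA.ne hγ), ha]
      norm_num
    have h2 := shift hA (hA.neg γ hγ) hu'
    rw [(hA.Xm γ hγ).2, add_neg_cancel_right] at h2
    obtain ⟨c, hc⟩ := hu _ h2
    refine ⟨c, ?_⟩
    rw [← h1, hc, mulVec_smul]

/-- The set of weights is a single orbit. -/
theorem trans (hA : AD s T Φ X e) {S S' : Finset (Fin r → ℝ)}
    (hS : ∀ m ∈ S, ∃ v, v ≠ 0 ∧ IsW T e m v) (hsub : S' ⊆ S) (hne : S'.Nonempty)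
    (hrf : ∀ γ ∈ Φ, ∀ m ∈ S', rf γ m ∈ S') : S' = S := by
  obtain ⟨W, hW⟩ : ∃ W : Submodule ℂ (B → ℂ), W = Submodule.span ℂ {v | ∃ m ∈ S', IsW T e m v} :=
    ⟨_, rfl⟩
  have hst : ∀ Y ∈ Submodule.span ℂ (Set.range T ∪ X '' Φ), ∀ w ∈ W, Y *ᵥ w ∈ W := by
    intro Y hY w hw
    rw [hW] at hw
    induction hw using Submodule.span_induction with
    | mem v hv =>
      obtain ⟨m, hm, hv⟩ := hv
      induction hY using Submodule.span_induction with
      | mem Z hZ =>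
        rcases hZ with ⟨i, rfl⟩ | ⟨γ, hγ, rfl⟩
        · rw [hv.2 i, hW]
          exact Submodule.smul_mem _ _ (Submodule.subset_span ⟨m, hm, hv⟩)
        · by_cases h1 : pr γ m = -1
          · rw [hW]
            refine Submodule.subset_span ⟨m + γ, ?_, shift hA hγ hv⟩
            rw [← rf_of_neg_one h1]
            exact hrf γ hγ m hm
          · rw [X_zero hA hγ hv h1]
            exact W.zero_mem
      | zero => rw [zero_mulVec]; exact W.zero_mem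
      | add a b _ _ ha hb => rw [add_mulVec]; exact W.add_mem ha hb
      | smul c a _ ha => rw [smul_mulVec]; exact W.smul_mem _ ha
    | zero => rw [mulVec_zero]; exact W.zero_mem
    | add x y _ _ hx hy => rw [mulVec_add]; exact W.add_mem hx hy
    | smul c x _ hx => rw [mulVec_smul]; exact W.smul_mem _ hx
  have hfull : ∀ w, e *ᵥ w = w → w ∈ W := by
    have hE : ∀ w ∈ W, e *ᵥ w = w := by
      intro w hw
      rw [hW] at hw
      induction hw using Submodule.span_induction with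
      | mem x hx =>
        obtain ⟨m, hm, hv⟩ := hx
        exact hv.1
      | zero => rw [mulVec_zero]
      | add x y _ _ hx hy => rw [mulVec_add, hx, hy]
      | smul c x _ hx => rw [mulVec_smul, hx]
    rcases hA.irr W hE (fun Y hY w hw => hst Y (hA.sp hY) w hw) with h1 | h1
    · exfalso
      obtain ⟨m, hm⟩ := hne
      obtain ⟨v, hv0, hv⟩ := hS m (hsub hm)
      have h2 : v ∈ W := by
        rw [hW]
        exact Submodule.subset_span ⟨m, hm, hv⟩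
      rw [h1] at h2
      exact hv0 ((Submodule.mem_bot ℂ).1 h2)
    · exact h1
  refine Finset.Subset.antisymm hsub fun m hm => ?_
  by_contra hcon
  obtain ⟨u, hu0, hu⟩ := hS m hm
  apply hu0
  apply dot_self
  have h3 : ∀ w ∈ W, w ⬝ᵥ star u = 0 := by
    intro w hw
    rw [hW] at hw
    induction hw using Submodule.span_induction with
    | mem x hx =>
      obtain ⟨m', hm', hv⟩ := hx
      exact orth hA hv hu fun h6 => hcon (h6 ▸ hm')
    | zero => rw [zero_dotProduct]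
    | add x y _ _ hx hy => rw [add_dotProduct, hx, hy, add_zero]
    | smul c x _ hx => rw [smul_dotProduct, hx, smul_zero]
  exact h3 _ (hfull _ hu.1)

/-- The set of weights. -/
theorem exists_wts (hA : AD s T Φ X e) : ∃ S : Finset (Fin r → ℝ), S.Nonempty ∧
    ∀ m, m ∈ S ↔ ∃ v, v ≠ 0 ∧ IsW T e m v := by
  have hH : ∀ M ∈ insert e (Set.range T), Mᴴ = M := by
    rintro M (rfl | ⟨i, rfl⟩)
    · exact hA.eh
    · exact (hA.Tm i).2
  have hC : ∀ M ∈ insert e (Set.range T), ∀ N ∈ insert e (Set.range T), M * N = N * M := by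
    rintro M (rfl | ⟨i, rfl⟩) N (rfl | ⟨j, rfl⟩)
    · rfl
    · exact (hA.ec _ (hA.Tm j).1).symm
    · exact hA.ec _ (hA.Tm i).1
    · exact hA.Tc i j
  obtain ⟨g, hg, hd⟩ := sim_diag _ hH hC
  have hg' : g * gᴴ = 1 := mul_eq_one_comm.1 hg
  obtain ⟨ε, hε⟩ := hd e (Set.mem_insert _ _)
  choose d hd' using fun i => hd (T i) (Set.mem_insert_of_mem _ ⟨i, rfl⟩)
  have hcol : ∀ (M : Matrix B B ℂ) (δ : B → ℂ), M * g = g * diagonal δ → ∀ b,
      M *ᵥ (g *ᵥ Pi.single b 1) = δ b • (g *ᵥ Pi.single b 1) := by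
    intro M δ hM b
    rw [mulVec_mulVec, hM, ← mulVec_mulVec, diagonal_mulVec_single, mul_one, ← mulVec_smul]
    congr 1
    ext j
    by_cases hj : j = b
    · subst hj; simp
    · simp [Pi.single_eq_of_ne hj]
  have hfin : {m : Fin r → ℝ | ∃ v, v ≠ 0 ∧ IsW T e m v}.Finite := by
    refine (Set.finite_range (fun b : B => fun i => (d i b).re)).subset ?_
    rintro m ⟨v, hv0, hv⟩
    have hc0 : gᴴ *ᵥ v ≠ 0 := by
      intro h0
      apply hv0
      have h1 := congrArg (fun w => g *ᵥ w) h0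
      simpa only [mulVec_mulVec, hg', one_mulVec, mulVec_zero] using h1
    obtain ⟨b, hb⟩ := Function.ne_iff.1 hc0
    refine ⟨b, funext fun i => ?_⟩
    have h1 : gᴴ * T i = diagonal (d i) * gᴴ := by
      calc gᴴ * T i = gᴴ * (T i * g) * gᴴ := by
            rw [mul_assoc, mul_assoc, hg', mul_one]
        _ = gᴴ * g * diagonal (d i) * gᴴ := by rw [hd' i, ← mul_assoc]
        _ = _ := by rw [hg, one_mul]
    have h2 := congrArg (fun M => (M *ᵥ v) b) h1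
    simp only [← mulVec_mulVec, hv.2 i, mulVec_smul, Pi.smul_apply, mulVec_diagonal,
      smul_eq_mul] at h2
    have h3 : (m i : ℂ) = d i b := mul_right_cancel₀ hb h2
    show (d i b).re = m i
    rw [← h3, Complex.ofReal_re]
  refine ⟨hfin.toFinset, ?_, fun m => by rw [Set.Finite.mem_toFinset]; exact Iff.rfl⟩
  rw [Set.Finite.toFinset_nonempty]
  obtain ⟨b, hb⟩ : ∃ b, e *ᵥ (g *ᵥ Pi.single b 1) ≠ 0 := by
    by_contra hcon
    push Not at hcon
    apply hA.e0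
    have h1 : e * g = 0 := by
      ext i j
      have h2 := congrFun (hcon j) i
      rw [mulVec_mulVec, mulVec_single_one] at h2
      exact h2
    calc e = e * g * gᴴ := by rw [mul_assoc, hg', mul_one]
      _ = 0 := by rw [h1, zero_mul]
  have hub : g *ᵥ Pi.single b (1 : ℂ) ≠ 0 := fun h => hb (by rw [h, mulVec_zero])
  have hεb := hcol e ε hε b
  have hε1 : ε b = 1 := by
    have h1 : e *ᵥ (e *ᵥ (g *ᵥ Pi.single b 1)) = e *ᵥ (g *ᵥ Pi.single b 1) := by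
      rw [mulVec_mulVec, hA.e2]
    rw [hεb, mulVec_smul, hεb, smul_smul] at h1
    have h2 : (ε b * ε b - ε b) • (g *ᵥ Pi.single b (1 : ℂ)) = 0 := by rw [sub_smul, h1, sub_self]
    rcases smul_eq_zero.1 h2 with h3 | h3
    · have h4 : ε b ≠ 0 := fun h5 => hb (by rw [hεb, h5, zero_smul])
      have h5 : ε b * (ε b - 1) = 0 := by linear_combination h3
      rcases mul_eq_zero.1 h5 with h6 | h6
      · exact absurd h6 h4
      · exact sub_eq_zero.1 h6
    · exact absurd h3 hub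
  refine ⟨fun i => (d i b).re, g *ᵥ Pi.single b 1, hub, by rw [hεb, hε1, one_smul], fun i => ?_⟩
  have h1 := hcol (T i) (d i) (hd' i) b
  rw [h1]
  congr 1
  have h2 := dot_adj (T i) (g *ᵥ Pi.single b (1 : ℂ)) (g *ᵥ Pi.single b (1 : ℂ))
  rw [(hA.Tm i).2, h1, smul_dotProduct, star_smul, dotProduct_smul, smul_eq_mul,
    smul_eq_mul] at h2
  have h3 := mul_right_cancel₀ (fun h => hub (dot_self h)) h2
  exact (Complex.conj_eq_iff_re.1 h3.symm).symm

/-- The main statement. -/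
theorem main (hA : AD s T Φ X e) {γ₀ : Fin r → ℝ} (hγ₀ : γ₀ ∈ Φ) (hnt : X γ₀ * e ≠ 0)
    {D : Matrix B B ℂ} {h : Fin r → ℝ} (hD2 : D * D = 1) {c₀ : ℂ}
    (hDe : D * e = tor T ((2 : ℝ) • h) * e + c₀ • e) :
    ∃ (S : Finset (Fin r → ℝ)) (v : (Fin r → ℝ) → B → ℂ), MV T Φ X h e S v := by
  classical
  obtain ⟨S, hne, hS⟩ := exists_wts hA
  obtain ⟨x₀, hx₀⟩ := exists_reg Φ hA.z
  have hS' : ∀ m ∈ S, ∃ v, v ≠ 0 ∧ IsW T e m v := fun m hm => (hS m).1 hm
  have hstep : ∀ γ ∈ Φ, ∀ m ∈ S, pr γ m = -1 → m + γ ∈ S := by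
    intro γ hγ m hm ha
    obtain ⟨v, hv0, hv⟩ := hS' m hm
    refine (hS _).2 ⟨X γ *ᵥ v, fun h0 => hv0 ?_, shift hA hγ hv⟩
    rw [← X_inv hA hγ hv ha, h0, mulVec_zero]
  have hmin : ∀ γ ∈ Φ, ∀ m ∈ S, pr γ m = 0 ∨ pr γ m = 1 ∨ pr γ m = -1 := by
    intro γ hγ m hm
    obtain ⟨v, hv0, hv⟩ := hS' m hm
    exact pr_cases hA hγ hv hv0
  have hgen : ∀ P : (Fin r → ℝ) → Prop, (∀ γ ∈ Φ, ∀ m ∈ S, P m → pr γ m = -1 → P (m + γ)) →
      ∀ γ ∈ Φ, ∀ m ∈ S, P m → P (rf γ m) := by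
    intro P hP γ hγ m hm hPm
    rcases hmin γ hγ m hm with ha | ha | ha
    · rwa [rf_of_zero ha]
    · have ha' : pr (-γ) m = -1 := by rw [pr_neg, ha]
      rw [← rf_neg, rf_of_neg_one ha']
      exact hP _ (hA.neg γ hγ) m hm hPm ha'
    · rw [rf_of_neg_one ha]
      exact hP γ hγ m hm hPm ha
  have hrf : ∀ γ ∈ Φ, ∀ m ∈ S, rf γ m ∈ S := fun γ hγ m hm =>
    hgen (fun m => m ∈ S) (fun γ hγ m hm _ ha => hstep γ hγ m hm ha) γ hγ m hm hm
  have hone : ∀ m ∈ S, One T e m := by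
    have h1 : S.filter (fun m => One T e m) = S := by
      refine trans hA hS' (Finset.filter_subset _ _) ?_ fun γ hγ m hm => ?_
      · obtain ⟨m, hm, hmax⟩ := S.exists_max_image (fun m => m ⬝ᵥ x₀) hne
        obtain ⟨v, hv0, hv⟩ := hS' m hm
        refine ⟨m, Finset.mem_filter.2 ⟨hm, ?_⟩⟩
        have h2 := fun {u} (hu : IsW T e m u) => top_line hA hx₀ hv hv0
          (fun m' u hu hu0 => hmax m' ((hS m').2 ⟨u, hu0, hu⟩)) hu
        obtain ⟨a, ha, haa⟩ : ∃ a : ℝ, 0 < a ∧ v ⬝ᵥ star v = ((a : ℝ) : ℂ) := by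
          refine ⟨∑ i, ‖v i‖ ^ 2, ?_, ?_⟩
          · obtain ⟨i, hi⟩ := Function.ne_iff.1 hv0
            refine Finset.sum_pos' (fun i _ => sq_nonneg _) ⟨i, Finset.mem_univ i, ?_⟩
            have h3 : 0 < ‖v i‖ := norm_pos_iff.2 hi
            positivity
          · unfold dotProduct
            push_cast
            refine Finset.sum_congr rfl fun i _ => ?_
            rw [Pi.star_apply]
            exact Complex.mul_conj' _
        refine ⟨((Real.sqrt a)⁻¹ : ℂ) • v, ?_, hv.smul _, fun u hu => ?_⟩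
        · rw [smul_dotProduct, star_smul, dotProduct_smul, haa, smul_eq_mul, smul_eq_mul]
          have h3 : star (((Real.sqrt a)⁻¹ : ℂ)) = ((Real.sqrt a)⁻¹ : ℂ) := by
            rw [← Complex.ofReal_inv]
            exact Complex.conj_ofReal _
          rw [h3, ← Complex.ofReal_inv, ← Complex.ofReal_mul, ← Complex.ofReal_mul]
          have h4 : (Real.sqrt a)⁻¹ * ((Real.sqrt a)⁻¹ * a) = 1 := by
            have h5 := Real.mul_self_sqrt ha.le
            have h6 : Real.sqrt a ≠ 0 := (Real.sqrt_pos.2 ha).ne'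
            field_simp
            rw [sq, h5]
          rw [h4, Complex.ofReal_one]
        · obtain ⟨c, hc⟩ := h2 hu
          refine ⟨c * (Real.sqrt a : ℂ), ?_⟩
          have h6 : (Real.sqrt a : ℂ) ≠ 0 := by
            exact_mod_cast (Real.sqrt_pos.2 ha).ne'
          rw [smul_smul, mul_assoc, mul_inv_cancel₀ h6, mul_one, hc]
      · rw [Finset.mem_filter] at hm ⊢
        exact ⟨hrf γ hγ m hm.1, hgen (fun m => One T e m)
          (fun γ hγ m _ hPm ha => One_step hA hγ ha hPm) γ hγ m hm.1 hm.2⟩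
    intro m hm
    rw [← h1] at hm
    exact (Finset.mem_filter.1 hm).2
  choose! v hv1 hvw hvu using hone
  have htr : ∀ S' ⊆ S, S'.Nonempty → (∀ γ ∈ Φ, ∀ s ∈ S', rf γ s ∈ S') → S' = S :=
    fun S' hsub hne' hrf' => trans hA hS' hsub hne' hrf'
  -- the span of the vectors `v m`
  have hfull : ∀ w, e *ᵥ w = w → w ∈ Submodule.span ℂ (v '' S) := by
    have hst : ∀ Y ∈ Submodule.span ℂ (Set.range T ∪ X '' Φ), ∀ w ∈ Submodule.span ℂ (v '' S),
        Y *ᵥ w ∈ Submodule.span ℂ (v '' S) := by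
      intro Y hY w hw
      induction hw using Submodule.span_induction with
      | mem w hw =>
        obtain ⟨m, hm, rfl⟩ := hw
        have hm' : m ∈ S := hm
        induction hY using Submodule.span_induction with
        | mem Z hZ =>
          rcases hZ with ⟨i, rfl⟩ | ⟨γ, hγ, rfl⟩
          · rw [(hvw m hm').2 i]
            exact Submodule.smul_mem _ _ (Submodule.subset_span ⟨m, hm, rfl⟩)
          · by_cases h1 : pr γ m = -1
            · have h2 := hstep γ hγ m hm' h1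
              obtain ⟨c, hc⟩ := hvu _ h2 _ (shift hA hγ (hvw m hm'))
              rw [hc]
              exact Submodule.smul_mem _ _ (Submodule.subset_span ⟨_, h2, rfl⟩)
            · rw [X_zero hA hγ (hvw m hm') h1]
              exact Submodule.zero_mem _
        | zero => rw [zero_mulVec]; exact Submodule.zero_mem _
        | add a b _ _ ha hb => rw [add_mulVec]; exact Submodule.add_mem _ ha hb
        | smul c a _ ha => rw [smul_mulVec]; exact Submodule.smul_mem _ _ ha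
      | zero => rw [mulVec_zero]; exact Submodule.zero_mem _
      | add x y _ _ hx hy => rw [mulVec_add]; exact Submodule.add_mem _ hx hy
      | smul c x _ hx => rw [mulVec_smul]; exact Submodule.smul_mem _ _ hx
    have hE : ∀ w ∈ Submodule.span ℂ (v '' S), e *ᵥ w = w := by
      intro w hw
      induction hw using Submodule.span_induction with
      | mem x hx =>
        obtain ⟨m, hm, rfl⟩ := hx
        exact (hvw m hm).1
      | zero => rw [mulVec_zero]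
      | add x y _ _ hx hy => rw [mulVec_add, hx, hy]
      | smul c x _ hx => rw [mulVec_smul, hx]
    rcases hA.irr _ hE (fun Y hY w hw => hst Y (hA.sp hY) w hw) with h1 | h1
    · exfalso
      obtain ⟨m, hm⟩ := hne
      have h2 : v m ∈ Submodule.span ℂ (v '' S) := Submodule.subset_span ⟨m, hm, rfl⟩
      rw [h1] at h2
      have h3 := hv1 m hm
      rw [(Submodule.mem_bot ℂ).1 h2, zero_dotProduct] at h3
      exact zero_ne_one h3
    · exact h1
  have hon : ∀ s ∈ S, ∀ s' ∈ S, v s ⬝ᵥ star (v s') = if s = s' then 1 else 0 := by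
    intro a ha b hb
    by_cases hab : a = b
    · subst hab
      rw [if_pos rfl, hv1 a ha]
    · rw [if_neg hab]
      exact orth hA (hvw a ha) (hvw b hb) hab
  refine ⟨S, v, ⟨hne, ?_, hrf, hmin, htr, ?_⟩, hon, ?_, fun m hm x => tor_mulVec (hvw m hm) x, ?_,
    fun γ hγ m hm ha => X_zero hA hγ (hvw m hm) ha⟩
  · intro h0
    have h1 : ({0} : Finset (Fin r → ℝ)) = S := by
      refine htr _ (Finset.singleton_subset_iff.2 h0) (Finset.singleton_nonempty _) ?_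
      intro γ hγ m hm
      rw [Finset.mem_singleton] at hm ⊢
      subst hm
      unfold rf pr
      simp
    apply hnt
    refine Matrix.toLin'.injective (LinearMap.ext fun w => ?_)
    rw [toLin'_apply, map_zero, LinearMap.zero_apply, ← mulVec_mulVec]
    have h2 := hfull (e *ᵥ w) (by rw [mulVec_mulVec, hA.e2])
    have h3 : ∀ w ∈ Submodule.span ℂ (v '' S), X γ₀ *ᵥ w = 0 := by
      intro w hw
      induction hw using Submodule.span_induction with
      | mem x hx =>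
        obtain ⟨m, hm, rfl⟩ := hx
        have hm' : m ∈ S := hm
        refine X_zero hA hγ₀ (hvw m hm') ?_
        rw [← h1, Finset.mem_singleton] at hm'
        rw [hm']
        unfold pr
        simp
      | zero => rw [mulVec_zero]
      | add x y _ _ hx hy => rw [mulVec_add, hx, hy, add_zero]
      | smul c x _ hx => rw [mulVec_smul, hx, smul_zero]
    exact h3 _ h2
  · refine ⟨(1 - c₀.re) / 2, fun m hm => ?_⟩
    have hvm := hvw m hm
    have h1 : D *ᵥ v m = ((((2 : ℝ) • h) ⬝ᵥ m : ℝ) + c₀) • v m := by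
      conv_lhs => rw [← hvm.1, mulVec_mulVec, hDe, add_mulVec, ← mulVec_mulVec, hvm.1,
        tor_mulVec hvm, smul_mulVec, hvm.1]
      rw [add_smul]
    have h2 : D *ᵥ (D *ᵥ v m) = v m := by rw [mulVec_mulVec, hD2, one_mulVec]
    rw [h1, mulVec_smul, h1, smul_smul] at h2
    have h0 : v m ≠ 0 := by
      intro h3
      have h4 := hv1 m hm
      rw [h3, zero_dotProduct] at h4
      exact zero_ne_one h4
    obtain ⟨q, hq⟩ : ∃ q : ℂ, q = ((((2 : ℝ) • h) ⬝ᵥ m : ℝ) : ℂ) + c₀ := ⟨_, rfl⟩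
    rw [← hq] at h2
    have h3 : (q * q - 1) • v m = 0 := by rw [sub_smul, h2, one_smul, sub_self]
    have h4 : q * q - 1 = 0 := (smul_eq_zero.1 h3).resolve_right h0
    have h5 : (q - 1) * (q + 1) = 0 := by linear_combination h4
    have h6 : q.re = 2 * (m ⬝ᵥ h) + c₀.re := by
      rw [hq, Complex.add_re, Complex.ofReal_re, smul_dotProduct, smul_eq_mul, dotProduct_comm]
    rcases mul_eq_zero.1 h5 with h7 | h7
    · left
      have h8 : q.re = 1 := by rw [sub_eq_zero.1 h7, Complex.one_re]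
      linarith
    · right
      have h8 : q.re = -1 := by
        rw [eq_neg_of_add_eq_zero_left h7, Complex.neg_re, Complex.one_re]
      linarith
  · obtain ⟨M, hM⟩ : ∃ M, M = ∑ s ∈ S, vecMulVec (v s) (star (v s)) := ⟨_, rfl⟩
    rw [← hM]
    have h1 : ∀ m ∈ S, M *ᵥ v m = v m := by
      intro m hm
      rw [hM, Matrix.sum_mulVec, Finset.sum_eq_single m]
      · rw [vecMulVec_mulVec, dotProduct_comm, hv1 m hm]
        simp
      · intro m' hm' hne'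
        rw [vecMulVec_mulVec, dotProduct_comm, orth hA (hvw m hm) (hvw m' hm') hne'.symm]
        simp
      · intro h2
        exact absurd hm h2
    have h2 : ∀ w ∈ Submodule.span ℂ (v '' S), M *ᵥ w = w := by
      intro w hw
      induction hw using Submodule.span_induction with
      | mem x hx =>
        obtain ⟨m, hm, rfl⟩ := hx
        exact h1 m hm
      | zero => rw [mulVec_zero]
      | add x y _ _ hx hy => rw [mulVec_add, hx, hy]
      | smul c x _ hx => rw [mulVec_smul, hx]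
    have h3 : M * e = e := by
      refine Matrix.toLin'.injective (LinearMap.ext fun w => ?_)
      rw [toLin'_apply, toLin'_apply, ← mulVec_mulVec]
      exact h2 _ (hfull (e *ᵥ w) (by rw [mulVec_mulVec, hA.e2]))
    have h4 : M * e = M := by
      rw [hM, Finset.sum_mul]
      refine Finset.sum_congr rfl fun m hm => ?_
      rw [vecMulVec_mul]
      congr 1
      have h5 := congrArg star (hvw m hm).1
      rwa [star_mulVec, hA.eh] at h5
    rw [← h3, h4]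
  · intro γ hγ m hm ha
    obtain ⟨c, hc⟩ := hvu _ (hstep γ hγ m hm ha) _ (shift hA hγ (hvw m hm))
    refine ⟨c, ?_, hc⟩
    have h1 : (X γ *ᵥ v m) ⬝ᵥ star (X γ *ᵥ v m) = 1 := by
      rw [dot_adj, X_inv hA hγ (hvw m hm) ha, hv1 m hm]
    rw [hc, smul_dotProduct, star_smul, dotProduct_smul, hv1 _ (hstep γ hγ m hm ha), smul_eq_mul,
      smul_eq_mul, mul_one] at h1
    have h2 : c * star c = ((‖c‖ ^ 2 : ℝ) : ℂ) := by
      push_cast
      exact Complex.mul_conj' c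
    rw [h2] at h1
    have h3 : ‖c‖ ^ 2 = 1 := by exact_mod_cast h1
    exact (pow_eq_one_iff_of_nonneg (norm_nonneg c) two_ne_zero).1 h3

end

section glue

variable {Om : Matrix B B ℂ} {L : Submodule ℂ (Matrix B B ℂ)}

/-- The ideal acts irreducibly. -/
theorem irr_of (hL : LD Om L) {e : Matrix B B ℂ} (he : Mi L e) (W : Submodule ℂ (B → ℂ))
    (hW : ∀ w ∈ W, e *ᵥ w = w) (hs : ∀ Y ∈ Ide L e, ∀ w ∈ W, Y *ᵥ w ∈ W) :
    W = ⊥ ∨ ∀ w, e *ᵥ w = w → w ∈ W := by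
  obtain ⟨hc, h2, hh, h0, hm⟩ := he
  have hst : ∀ Y ∈ L, ∀ w ∈ W, Y *ᵥ w ∈ W := by
    intro Y hY w hw
    obtain ⟨z, hz, hzL, d, hd, rfl⟩ := GJ1.L_dec hL hY
    obtain ⟨a, ha, b, hb, rfl⟩ := GJ1.Dr_dec hL hc hh hd
    obtain ⟨c, hcz⟩ := hm z hz.1
    have h3 : z *ᵥ w = c • w := by
      have h4 : e * z * e = z * e := by rw [hz.2 e hc, mul_assoc, h2]
      have h5 : z * e = c • e := by rw [← h4, hcz]
      calc z *ᵥ w = (z * e) *ᵥ w := by rw [← mulVec_mulVec, hW w hw]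
        _ = c • w := by rw [h5, smul_mulVec, hW w hw]
    have h4 : b *ᵥ w = 0 := by
      calc b *ᵥ w = (b * e) *ᵥ w := by rw [← mulVec_mulVec, hW w hw]
        _ = 0 := by rw [hb.2, zero_mulVec]
    rw [add_mulVec, add_mulVec, h3, h4, add_zero]
    exact W.add_mem (W.smul_mem _ hw) (hs a ha w hw)
  obtain ⟨q, hq, hq1, hq2⟩ := exists_proj W
  have key : ∀ Y ∈ L, q * (Y * q) = Y * q := by
    intro Y hY
    refine Matrix.toLin'.injective (LinearMap.ext fun x => ?_)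
    rw [toLin'_apply, toLin'_apply, ← mulVec_mulVec, ← mulVec_mulVec]
    exact hq2 _ (hst Y hY _ (hq1 x))
  have hqc : q ∈ CM L := by
    intro Y hY
    have h4 := congrArg Matrix.conjTranspose (key _ (hL.adj Y hY))
    rw [conjTranspose_mul, conjTranspose_mul, hq, conjTranspose_conjTranspose, mul_assoc] at h4
    rw [← key Y hY, h4]
  have heq : e * q = q := by
    refine Matrix.toLin'.injective (LinearMap.ext fun x => ?_)
    rw [toLin'_apply, toLin'_apply, ← mulVec_mulVec]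
    exact hW _ (hq1 x)
  have hqe : q * e = q := by
    have h1 := congrArg conjTranspose heq
    rwa [conjTranspose_mul, hq, hh] at h1
  obtain ⟨c, hcc⟩ := hm q hqc
  rw [heq, hqe] at hcc
  by_cases hc0 : c = 0
  · left
    rw [hc0, zero_smul] at hcc
    rw [Submodule.eq_bot_iff]
    intro w hw
    rw [← hq2 w hw, hcc, zero_mulVec]
  · right
    intro w hw
    have h1 : w = q *ᵥ (c⁻¹ • w) := by
      rw [hcc, smul_mulVec, mulVec_smul, smul_smul, mul_inv_cancel₀ hc0, one_smul, hw]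
    rw [h1]
    exact hq1 _

theorem AD_of {e₀ D : Matrix B B ℂ} {T : Fin r → Matrix B B ℂ} {Φ : Finset (Fin r → ℝ)}
    {X : (Fin r → ℝ) → Matrix B B ℂ} {h : Fin r → ℝ} (hR : Rd Om L e₀ D r T Φ X h)
    {e : Matrix B B ℂ} (he : Mi L e) (hI : Ide L e = Ide L e₀) : AD (Ide L e) T Φ X e := by
  have hL := hR.ld
  have hrv := hR.rv
  rw [← hI] at hrv
  exact
    { z := hrv.rs.z
      neg := hrv.rs.neg
      br := fun Y hY Z hZ => GJ1.Ide_br hL he.1 (GJ1.Dr_le hL hY.1) hZ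
      Tm := hrv.tv.m
      Tc := hrv.tv.c
      Xm := fun γ hγ => ⟨(hrv.Xm γ hγ).1, (hrv.Xm γ hγ).2.2⟩
      X3 := hrv.X3
      Xw := hrv.Xw
      Xb := hrv.Xb
      sp := hrv.sp
      e2 := he.2.1
      eh := he.2.2.1
      e0 := he.2.2.2.1
      ec := fun Y hY => he.1 Y (GJ1.Dr_le hL hY.1)
      irr := fun W hW hs => irr_of hL he W hW hs }

end glue

end GH4

/-- **H4.** -/
theorem mv_of : St_mv := by
  intro B _ _ Om L e₀ D r T Φ X h hR e he hI
  have hA := GH4.AD_of hR he hI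
  have hL := hR.ld
  obtain ⟨γ₀, hγ₀, -⟩ := hR.rv.rs.ex
  have hnt : X γ₀ * e ≠ 0 := by
    intro h0
    exact (hR.rv.Xm γ₀ hγ₀).2.1 (GJ1.Ide_zero hL he.1 he.2.2.1 (hA.Xm γ₀ hγ₀).1 h0)
  obtain ⟨tt, htt⟩ : ∃ tt, tt = tor T ((2 : ℝ) • h) := ⟨_, rfl⟩
  have httm : tt ∈ Ide L e := by
    rw [htt]
    unfold tor
    exact Submodule.sum_mem _ fun i _ => Submodule.smul_mem _ _ (hA.Tm i).1
  obtain ⟨K, hK⟩ : ∃ K, K = D - tt := ⟨_, rfl⟩
  have hKL : K ∈ L := by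
    rw [hK]
    exact L.sub_mem hR.dm (GJ1.Dr_le hL httm.1)
  have hKs : ∀ Y ∈ Ide L e, K * Y = Y * K := by
    intro Y hY
    have h1 := hR.rv.tv.d Y (hI ▸ hY)
    rw [← htt] at h1
    rw [hK, sub_mul, mul_sub, sub_eq_sub_iff_add_eq_add]
    have h2 : D * Y = tt * Y - Y * tt + Y * D := by rw [← h1]; abel
    rw [h2]
    abel
  have hKc : K * e ∈ CM L := by
    intro Y hY
    obtain ⟨z, hz, hzL, d, hd, rfl⟩ := GJ1.L_dec hL hY
    obtain ⟨a, ha, b, hb, rfl⟩ := GJ1.Dr_dec hL he.1 he.2.2.1 hd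
    have hbL : b ∈ L := GJ1.Dr_le hL hb.1
    have haL : a ∈ L := GJ1.Dr_le hL ha.1
    have h1 : b * (K * e) = 0 := by
      rw [he.1 K hKL, ← mul_assoc, hb.2, zero_mul]
    have h2 : K * e * b = 0 := by
      rw [mul_assoc, ← he.1 b hbL, hb.2, mul_zero]
    have h3 : a * (K * e) = K * e * a := by
      rw [← mul_assoc, ← hKs a ha, mul_assoc, he.1 a haL, mul_assoc]
    have h4 : z * (K * e) = K * e * z := by
      rw [← mul_assoc, ← hz.1 K hKL, mul_assoc, he.1 z hzL, mul_assoc]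
    rw [add_mul, add_mul, mul_add, mul_add, h1, h2, h3, h4]
  obtain ⟨c₀, hc₀⟩ := he.2.2.2.2 _ hKc
  have hKe : K * e = c₀ • e := by
    rw [← hc₀, ← mul_assoc, ← he.1 K hKL, mul_assoc, mul_assoc, he.2.1, he.2.1]
  have hDe : D * e = tor T ((2 : ℝ) • h) * e + c₀ • e := by
    rw [← htt, ← hKe, hK, sub_mul]
    abel
  exact GH4.main hA hγ₀ hnt hR.d2 hDe

end

end Pool.Agent.NH32
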