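import Mathlib
import Pool.Agent.NH32.GtA
import Pool.Agent.NH32.GJ1
import Pool.Agent.NH32.GJ9

/-!
# Project G, stage 2, H5: modules with the same weights are linked
-/

set_option linter.unusedSectionVars false

namespace Pool.Agent.NH32

open Matrix Module

noncomputable section

namespace GH5

variable {B : Type} [Fintype B] [DecidableEq B] {Om : Matrix B B ℂ}
  {L : Submodule ℂ (Matrix B B ℂ)}

/-- The projection to a subspace which is stable under `T` and its adjoint commutes with `T`. -/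
theorem proj_comm {p T : Matrix B B ℂ} {W : Submodule ℂ (B → ℂ)} (hp : pᴴ = p)
    (hpW : ∀ x, p *ᵥ x ∈ W) (hpx : ∀ x ∈ W, p *ᵥ x = x) (h1 : ∀ x ∈ W, T *ᵥ x ∈ W)
    (h2 : ∀ x ∈ W, Tᴴ *ᵥ x ∈ W) : T * p = p * T := by
  have key : ∀ S : Matrix B B ℂ, (∀ x ∈ W, S *ᵥ x ∈ W) → p * (S * p) = S * p := by
    intro S hS
    refine matrix_ext_mulVec fun c => ?_
    rw [← mulVec_mulVec]
    refine hpx _ ?_
    rw [← mulVec_mulVec]
    exact hS _ (hpW c)
  have h3 := key T h1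
  have h4 := congrArg Matrix.conjTranspose (key _ h2)
  rw [conjTranspose_mul, conjTranspose_mul, hp, conjTranspose_conjTranspose, mul_assoc] at h4
  rw [← h3, h4]

theorem ker_eq (hL : LD Om L) {e e' : Matrix B B ℂ} (he' : Mi L e')
    (hI : Ide L e' = Ide L e) {Y : Matrix B B ℂ} (hY : Y ∈ Dr L) (h : Y * e = 0) :
    Y * e' = 0 := by
  obtain ⟨a, ha, b, hb, hab⟩ := GJ1.Dr_dec hL he'.1 he'.2.2.1 hY
  have haH := GJ1.Ide_adj hL he'.1 he'.2.2.1 ha
  have h5 : a = 0 := by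
    apply trace_self_eq_zero
    have h6 : a = Y - b := by rw [hab, add_sub_cancel_right]
    nth_rewrite 2 [h6]
    rw [mul_sub, trace_sub]
    have h7 : trace (aᴴ * Y) = 0 := by
      have h8 := haH
      rw [hI] at h8
      exact h8.2 Y hY h
    have h8 : trace (aᴴ * b) = 0 := haH.2 b hb.1 hb.2
    rw [h7, h8, sub_zero]
  rw [hab, h5, zero_add, hb.2]

/-- The range of a minimal idempotent is irreducible under its ideal. -/
theorem irr (hL : LD Om L) {e : Matrix B B ℂ} (h : Mi L e) {W : Submodule ℂ (B → ℂ)}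
    (hW : ∀ x ∈ W, e *ᵥ x = x) (hs : ∀ Y ∈ Ide L e, ∀ x ∈ W, Y *ᵥ x ∈ W) {x₀ : B → ℂ}
    (hx₀ : x₀ ∈ W) (hne : x₀ ≠ 0) {x : B → ℂ} (hx : e *ᵥ x = x) : x ∈ W := by
  obtain ⟨he, hee, heh, h0, hmin⟩ := h
  obtain ⟨p, hp, hp1, hp2⟩ := exists_proj W
  have hep : e * p = p := by
    refine matrix_ext_mulVec fun c => ?_
    rw [← mulVec_mulVec]
    exact hW _ (hp1 c)
  have hpe : p * e = p := by
    have h1 := congrArg Matrix.conjTranspose hep
    rwa [conjTranspose_mul, heh, hp] at h1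
  have hpC : p ∈ CM L := by
    intro Y hY
    obtain ⟨z, hz, hzL, d, hd, rfl⟩ := GJ1.L_dec hL hY
    obtain ⟨a, ha, b, hb, rfl⟩ := GJ1.Dr_dec hL he heh hd
    obtain ⟨c, hc⟩ := hmin z hz.1
    have h1 : e * z = z * e := hz.2 e he
    have h2 : z * e = c • e := by rw [← hc, h1, mul_assoc, hee]
    have hzp : z * p = c • p := by
      rw [← hep, ← mul_assoc, h2, Matrix.smul_mul, hep]
    have hpz : p * z = c • p := by
      rw [← hpe, mul_assoc, h1, h2, Matrix.mul_smul, hpe]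
    have hap : a * p = p * a :=
      proj_comm hp hp1 hp2 (hs a ha) (hs _ (GJ1.Ide_adj hL he heh ha))
    have hbp : b * p = 0 := by rw [← hep, ← mul_assoc, hb.2, zero_mul]
    have hbe : b * e = e * b := he b (GJ1.Dr_le hL hb.1)
    have hpb : p * b = 0 := by rw [← hpe, mul_assoc, ← hbe, hb.2, mul_zero]
    rw [add_mul, add_mul, mul_add, mul_add, hzp, hpz, hap, hbp, hpb]
  obtain ⟨c, hc⟩ := hmin p hpC
  rw [hep, hpe] at hc
  have h1 : c • x₀ = x₀ := by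
    have h2 := hp2 _ hx₀
    rw [hc, smul_mulVec, hW _ hx₀] at h2
    exact h2
  have hc1 : c = 1 := by
    by_contra hne1
    have h2 : (c - 1) • x₀ = 0 := by rw [sub_smul, h1, one_smul, sub_self]
    exact hne ((smul_eq_zero.1 h2).resolve_left (sub_ne_zero.2 hne1))
  have h3 : p *ᵥ x = x := by rw [hc, hc1, one_smul, hx]
  rw [← h3]
  exact hp1 x

/-- Words in the lowering operators. -/
inductive Wd {r : ℕ} (Φ : Finset (Fin r → ℝ)) (X : (Fin r → ℝ) → Matrix B B ℂ) (x₀ : Fin r → ℝ)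
    (a a' : B → ℂ) : (B → ℂ) × (B → ℂ) → Prop
  | base : Wd Φ X x₀ a a' (a, a')
  | step (γ : Fin r → ℝ) (w : (B → ℂ) × (B → ℂ)) (hγ : γ ∈ Φ) (hn : γ ⬝ᵥ x₀ < 0)
      (hw : Wd Φ X x₀ a a' w) : Wd Φ X x₀ a a' (X γ *ᵥ w.1, X γ *ᵥ w.2)

/-- The module generated by a pair of highest weight vectors is the graph of an isomorphism. -/
theorem main (hL : LD Om L) {e e' : Matrix B B ℂ} (he : Mi L e) (he' : Mi L e')
    (hI : Ide L e' = Ide L e) {r : ℕ} {T : Fin r → Matrix B B ℂ} {Φ : Finset (Fin r → ℝ)}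
    {X : (Fin r → ℝ) → Matrix B B ℂ} (x₀ : Fin r → ℝ) (hreg : ∀ γ ∈ Φ, γ ⬝ᵥ x₀ ≠ 0)
    (hXm : ∀ γ ∈ Φ, X γ ∈ Ide L e) (hneg : ∀ γ ∈ Φ, -γ ∈ Φ ∧ X (-γ) = (X γ)ᴴ)
    (hsp : Ide L e ≤ Submodule.span ℂ (Set.range T ∪ X '' Φ))
    {a a' : B → ℂ} (ha : e *ᵥ a = a) (ha' : e' *ᵥ a' = a') (hn : star a ⬝ᵥ a = 1)
    (hn' : star a' ⬝ᵥ a' = 1) (hT : ∀ i, ∃ c : ℂ, T i *ᵥ a = c • a ∧ T i *ᵥ a' = c • a')
    (hX : ∀ γ ∈ Φ, 0 < γ ⬝ᵥ x₀ → X γ *ᵥ a = 0 ∧ X γ *ᵥ a' = 0) :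
    ∃ M : Matrix B B ℂ, M ≠ 0 ∧ e * M = M ∧ (∀ Y ∈ Dr L, Y * M = M * Y) ∧ M * e' = M := by
  obtain ⟨U, hU⟩ : ∃ U : Submodule ℂ ((B → ℂ) × (B → ℂ)),
      U = Submodule.span ℂ {w | Wd Φ X x₀ a a' w} := ⟨_, rfl⟩
  have hbase : (a, a') ∈ U := by
    rw [hU]
    exact Submodule.subset_span Wd.base
  -- lowering operators
  have hlow : ∀ γ ∈ Φ, γ ⬝ᵥ x₀ < 0 → ∀ w ∈ U, (X γ *ᵥ w.1, X γ *ᵥ w.2) ∈ U := by
    intro γ hγ hγ0 w hw
    rw [hU] at hw ⊢
    induction hw using Submodule.span_induction with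
    | mem w hw => exact Submodule.subset_span (Wd.step γ w hγ hγ0 hw)
    | zero =>
      rw [Prod.fst_zero, Prod.snd_zero, mulVec_zero]
      exact Submodule.zero_mem _
    | add w w' _ _ h1 h2 =>
      rw [Prod.fst_add, Prod.snd_add, mulVec_add, mulVec_add, ← Prod.mk_add_mk]
      exact Submodule.add_mem _ h1 h2
    | smul c w _ h1 =>
      rw [Prod.smul_fst, Prod.smul_snd, mulVec_smul, mulVec_smul, ← Prod.smul_mk]
      exact Submodule.smul_mem _ _ h1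
  have hsp0 : ∀ Z ∈ Submodule.span ℂ (Set.range T ∪ X '' Φ), (Z *ᵥ a, Z *ᵥ a') ∈ U := by
    intro Z hZ
    induction hZ using Submodule.span_induction with
    | mem Z hZ =>
      rcases hZ with ⟨i, rfl⟩ | ⟨γ, hγ, rfl⟩
      · obtain ⟨c, h1, h2⟩ := hT i
        rw [h1, h2, ← Prod.smul_mk]
        exact U.smul_mem _ hbase
      · rcases lt_or_gt_of_ne (hreg γ hγ) with h1 | h1
        · exact hlow γ hγ h1 _ hbase
        · obtain ⟨h2, h3⟩ := hX γ hγ h1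
          rw [h2, h3]
          exact U.zero_mem
    | zero =>
      rw [zero_mulVec, zero_mulVec]
      exact U.zero_mem
    | add Z Z' _ _ h1 h2 =>
      rw [add_mulVec, add_mulVec, ← Prod.mk_add_mk]
      exact U.add_mem h1 h2
    | smul c Z _ h1 =>
      rw [smul_mulVec, smul_mulVec, ← Prod.smul_mk]
      exact U.smul_mem _ h1
  have key : ∀ w, Wd Φ X x₀ a a' w → ∀ Z ∈ Ide L e, (Z *ᵥ w.1, Z *ᵥ w.2) ∈ U := by
    intro w hw
    induction hw with
    | base => exact fun Z hZ => hsp0 Z (hsp hZ)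
    | step γ w hγ hγ0 hw ih =>
      intro Z hZ
      have h2 : (Z *ᵥ (X γ *ᵥ w.1), Z *ᵥ (X γ *ᵥ w.2)) =
          (X γ *ᵥ (Z *ᵥ w.1), X γ *ᵥ (Z *ᵥ w.2)) +
          ((Z * X γ - X γ * Z) *ᵥ w.1, (Z * X γ - X γ * Z) *ᵥ w.2) := by
        rw [Prod.mk_add_mk, sub_mulVec, sub_mulVec]
        simp only [mulVec_mulVec, add_sub_cancel]
      rw [h2]
      refine U.add_mem (hlow γ hγ hγ0 _ (ih Z hZ)) (ih _ ?_)
      exact GJ1.Ide_br hL he.1 (GJ1.Dr_le hL hZ.1) (hXm γ hγ)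
  have hst : ∀ Z ∈ Ide L e, ∀ w ∈ U, (Z *ᵥ w.1, Z *ᵥ w.2) ∈ U := by
    intro Z hZ w hw
    rw [hU] at hw
    induction hw using Submodule.span_induction with
    | mem w hw => exact key w hw Z hZ
    | zero =>
      rw [Prod.fst_zero, Prod.snd_zero, mulVec_zero]
      exact Submodule.zero_mem _
    | add w w' _ _ h1 h2 =>
      rw [Prod.fst_add, Prod.snd_add, mulVec_add, mulVec_add, ← Prod.mk_add_mk]
      exact Submodule.add_mem _ h1 h2
    | smul c w _ h1 =>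
      rw [Prod.smul_fst, Prod.smul_snd, mulVec_smul, mulVec_smul, ← Prod.smul_mk]
      exact Submodule.smul_mem _ _ h1
  -- the top coordinate
  have htop : ∀ w ∈ U, star a ⬝ᵥ w.1 = star a' ⬝ᵥ w.2 ∧ e *ᵥ w.1 = w.1 ∧ e' *ᵥ w.2 = w.2 := by
    intro w hw
    rw [hU] at hw
    induction hw using Submodule.span_induction with
    | mem w hw =>
      induction hw with
      | base => exact ⟨by rw [hn, hn'], ha, ha'⟩
      | step γ w hγ hγ0 hw ih =>
        obtain ⟨-, h1, h2⟩ := ih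
        have hγL : X γ ∈ L := GJ1.Dr_le hL (hXm γ hγ).1
        have h3 : 0 < (-γ) ⬝ᵥ x₀ := by rw [neg_dotProduct]; linarith
        obtain ⟨h4, h5⟩ := hX (-γ) (hneg γ hγ).1 h3
        rw [(hneg γ hγ).2] at h4 h5
        refine ⟨?_, ?_, ?_⟩
        · have h6 : ∀ b x : B → ℂ, (X γ)ᴴ *ᵥ b = 0 → star b ⬝ᵥ (X γ *ᵥ x) = 0 := by
            intro b x hb
            have h7 := congrArg star hb
            rw [star_mulVec, conjTranspose_conjTranspose, star_zero] at h7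
            rw [dotProduct_mulVec, h7, zero_dotProduct]
          rw [h6 a _ h4, h6 a' _ h5]
        · rw [mulVec_mulVec, ← he.1 _ hγL, ← mulVec_mulVec, h1]
        · rw [mulVec_mulVec, ← he'.1 _ hγL, ← mulVec_mulVec, h2]
    | zero =>
      rw [Prod.fst_zero, Prod.snd_zero, mulVec_zero, mulVec_zero, dotProduct_zero, dotProduct_zero]
      exact ⟨rfl, rfl, rfl⟩
    | add w w' _ _ h1 h2 =>
      rw [Prod.fst_add, Prod.snd_add, mulVec_add, mulVec_add, dotProduct_add, dotProduct_add,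
        h1.1, h1.2.1, h1.2.2, h2.1, h2.2.1, h2.2.2]
      exact ⟨rfl, rfl, rfl⟩
    | smul c w _ h1 =>
      rw [Prod.smul_fst, Prod.smul_snd, mulVec_smul, mulVec_smul, dotProduct_smul,
        dotProduct_smul, h1.1, h1.2.1, h1.2.2]
      exact ⟨rfl, rfl, rfl⟩
  have ha0 : a ≠ 0 := by
    rintro rfl
    rw [dotProduct_zero] at hn
    exact zero_ne_one hn
  have ha0' : a' ≠ 0 := by
    rintro rfl
    rw [dotProduct_zero] at hn'
    exact zero_ne_one hn'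
  -- the first component is determined by the second one
  have hK1 : ∀ w : B → ℂ, (w, (0 : B → ℂ)) ∈ U → w = 0 := by
    intro w hw
    by_contra hne
    have h1 : a ∈ U.comap (LinearMap.inl ℂ (B → ℂ) (B → ℂ)) := by
      refine irr hL he (fun x hx => (htop _ hx).2.1) (fun Z hZ x hx => ?_) (x₀ := w) hw hne ha
      have h2 := hst Z hZ _ hx
      simp only [LinearMap.inl_apply, mulVec_zero] at h2
      exact h2
    have h2 := (htop _ h1).1
    simp only [LinearMap.inl_apply, dotProduct_zero] at h2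
    rw [hn] at h2
    exact one_ne_zero h2
  -- all vectors of the second module occur
  have hP2 : ∀ x : B → ℂ, e' *ᵥ x = x → ∃ w ∈ U, w.2 = x := by
    intro x hx
    have h1 : x ∈ U.map (LinearMap.snd ℂ (B → ℂ) (B → ℂ)) := by
      refine irr hL he' (W := U.map (LinearMap.snd ℂ (B → ℂ) (B → ℂ))) ?_ ?_ (x₀ := a')
        (Submodule.mem_map.2 ⟨_, hbase, rfl⟩) ha0' hx
      · rintro _ ⟨w, hw, rfl⟩
        exact (htop w hw).2.2
      · rintro Z hZ _ ⟨w, hw, rfl⟩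
        rw [hI] at hZ
        exact ⟨_, hst Z hZ w hw, rfl⟩
    obtain ⟨w, hw, hwx⟩ := h1
    exact ⟨w, hw, hwx⟩
  obtain ⟨g, hg⟩ := LinearMap.exists_leftInverse_of_injective
    ((LinearMap.snd ℂ (B → ℂ) (B → ℂ)).comp U.subtype) (by
      rw [LinearMap.ker_eq_bot']
      rintro ⟨⟨w, w'⟩, hw⟩ h1
      simp only [LinearMap.comp_apply, Submodule.subtype_apply, LinearMap.snd_apply] at h1
      subst h1
      have h2 := hK1 w hw
      subst h2
      rfl)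
  obtain ⟨M, hM⟩ : ∃ M : Matrix B B ℂ, M = LinearMap.toMatrix'
      (((LinearMap.fst ℂ (B → ℂ) (B → ℂ)).comp U.subtype).comp (g.comp (toLin' e'))) := ⟨_, rfl⟩
  have hMw : ∀ w ∈ U, ∀ x : B → ℂ, w.2 = e' *ᵥ x → M *ᵥ x = w.1 := by
    intro w hw x hx
    have h1 : M *ᵥ x = (g (e' *ᵥ x)).1.1 := by
      rw [hM, ← toLin'_apply, toLin'_toMatrix']
      rfl
    have h2 : g (e' *ᵥ x) = ⟨w, hw⟩ := by
      have h3 := LinearMap.congr_fun hg ⟨w, hw⟩
      rw [← hx]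
      exact h3
    rw [h1, h2]
  have hex : ∀ x : B → ℂ, ∃ w ∈ U, w.2 = e' *ᵥ x := fun x =>
    hP2 _ (by rw [mulVec_mulVec, he'.2.1])
  refine ⟨M, ?_, ?_, ?_, ?_⟩
  · intro h0
    have h1 := hMw _ hbase a' ha'.symm
    rw [h0, zero_mulVec] at h1
    exact ha0 h1.symm
  · refine matrix_ext_mulVec fun x => ?_
    obtain ⟨w, hw, hwx⟩ := hex x
    rw [← mulVec_mulVec, hMw w hw x hwx]
    exact (htop w hw).2.1
  · intro Y hY
    refine matrix_ext_mulVec fun x => ?_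
    obtain ⟨w, hw, hwx⟩ := hex x
    obtain ⟨c, hc, b, hb, rfl⟩ := GJ1.Dr_dec hL he.1 he.2.2.1 hY
    have hYL : c + b ∈ L := GJ1.Dr_le hL hY
    have hb' : b * e' = 0 := ker_eq hL he' hI hb.1 hb.2
    have h1 := hst c hc w hw
    have h2 : (c *ᵥ w.1, c *ᵥ w.2).2 = e' *ᵥ ((c + b) *ᵥ x) := by
      rw [mulVec_mulVec, ← he'.1 _ hYL, add_mul, hb', add_zero, ← mulVec_mulVec, ← hwx]
    rw [← mulVec_mulVec, ← mulVec_mulVec, hMw _ h1 _ h2, hMw w hw x hwx, add_mulVec]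
    have h3 : b *ᵥ w.1 = 0 := by
      rw [← (htop w hw).2.1, mulVec_mulVec, hb.2, zero_mulVec]
    rw [h3, add_zero]
  · refine matrix_ext_mulVec fun x => ?_
    obtain ⟨w, hw, hwx⟩ := hex x
    have h2 : w.2 = e' *ᵥ (e' *ᵥ x) := by rw [mulVec_mulVec, he'.2.1, hwx]
    rw [← mulVec_mulVec, hMw w hw _ h2, hMw w hw x hwx]

/-- A vector which is orthogonal to none of the roots. -/
theorem exists_reg {r : ℕ} {Φ : Finset (Fin r → ℝ)} (hz : (0 : Fin r → ℝ) ∉ Φ) :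
    ∃ x₀ : Fin r → ℝ, ∀ γ ∈ Φ, γ ⬝ᵥ x₀ ≠ 0 := by
  obtain ⟨x, hx⟩ := Module.Dual.exists_forall_ne_zero_of_forall_exists
    (fun γ : Φ => (dotProductBilin ℝ ℝ γ.1 : (Fin r → ℝ) →ₗ[ℝ] ℝ)) (fun γ => ⟨γ.1, fun h => hz (by
      have h1 : γ.1 ⬝ᵥ γ.1 = 0 := h
      rw [dotProduct_self_eq_zero] at h1
      rw [← h1]
      exact γ.2)⟩)
  exact ⟨x, fun γ hγ => hx ⟨γ, hγ⟩⟩

theorem tor_single {r : ℕ} (T : Fin r → Matrix B B ℂ) (i : Fin r) :
    tor T (Pi.single i 1) = T i := by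
  unfold tor
  rw [Finset.sum_eq_single i]
  · rw [Pi.single_eq_same, Complex.ofReal_one, one_smul]
  · intro j _ hj
    rw [Pi.single_eq_of_ne hj, Complex.ofReal_zero, zero_smul]
  · intro h
    exact absurd (Finset.mem_univ _) h

theorem MV.fix {r : ℕ} {T : Fin r → Matrix B B ℂ} {Φ : Finset (Fin r → ℝ)}
    {X : (Fin r → ℝ) → Matrix B B ℂ} {h : Fin r → ℝ} {e : Matrix B B ℂ}
    {S : Finset (Fin r → ℝ)} {v : (Fin r → ℝ) → B → ℂ} (hM : MV T Φ X h e S v)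
    {m : Fin r → ℝ} (hm : m ∈ S) : e *ᵥ v m = v m := by
  classical
  rw [hM.ee, Matrix.sum_mulVec, Finset.sum_eq_single m]
  · rw [vecMulVec_mulVec, dotProduct_comm, hM.on m hm m hm, if_pos rfl]
    simp
  · intro s hs hsm
    rw [vecMulVec_mulVec, dotProduct_comm, hM.on m hm s hs, if_neg (fun h' => hsm h'.symm)]
    simp
  · intro h'
    exact absurd hm h'

theorem st_Ide (hO : IsOm Om) (hL : LD Om L) {e : Matrix B B ℂ} (he : e ∈ CM L) :
    Ide L (st Om e) = Ide L e := by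
  have key : ∀ Y ∈ Dr L, (Y * st Om e = 0 ↔ Y * e = 0) := by
    intro Y hY
    have hYL : Y ∈ L := GJ1.Dr_le hL hY
    have h1 : st Om (Y * st Om e) = -(Y * e) := by
      rw [GJ9.st_mul hO, GJ9.st_st hO, GJ9.st_mem hO hL hYL, mul_neg, he Y hYL]
    have h0 : st Om (0 : Matrix B B ℂ) = 0 := by
      unfold st
      rw [transpose_zero, mul_zero, zero_mul, neg_zero]
    constructor
    · intro h
      rw [h, h0] at h1
      exact neg_eq_zero.1 h1.symm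
    · intro h
      rw [h, neg_zero] at h1
      have h2 := congrArg (st Om) h1
      rwa [GJ9.st_st hO, h0] at h2
  ext Z
  constructor
  · rintro ⟨h1, h2⟩
    exact ⟨h1, fun Y hY hYe => h2 Y hY ((key Y hY).2 hYe)⟩
  · rintro ⟨h1, h2⟩
    exact ⟨h1, fun Y hY hYe => h2 Y hY ((key Y hY).1 hYe)⟩

end GH5

open GH5

theorem hw_of : St_hw := by
  intro B _ _ Om L e₀ D r T Φ X h hR e e' he he' hI hI' S S' v v' hM hM'
  classical
  have hL := hR.ld
  have hO := hR.om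
  have hrv := hR.rv
  obtain ⟨x₀, hreg⟩ := exists_reg hrv.rs.z
  obtain ⟨m, hm, hmax⟩ := S.exists_max_image (fun s => s ⬝ᵥ x₀) hM.mw.ne
  have hpos : ∀ γ ∈ Φ, 0 < γ ⬝ᵥ x₀ → pr γ m ≠ -1 := by
    intro γ hγ hγ0 h1
    have h2 := hM.mw.rfl γ hγ m hm
    unfold rf at h2
    rw [h1, neg_smul, one_smul, sub_neg_eq_add] at h2
    have h3 := hmax _ h2
    rw [add_dotProduct] at h3
    linarith
  have hXm : ∀ γ ∈ Φ, X γ ∈ Ide L e := by
    intro γ hγ
    rw [hI]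
    exact (hrv.Xm γ hγ).1
  have hneg : ∀ γ ∈ Φ, -γ ∈ Φ ∧ X (-γ) = (X γ)ᴴ := fun γ hγ =>
    ⟨hrv.rs.neg γ hγ, (hrv.Xm γ hγ).2.2⟩
  have hsp : Ide L e ≤ Submodule.span ℂ (Set.range T ∪ X '' Φ) := by
    rw [hI]
    exact hrv.sp
  have hTs : ∀ (w : B → ℂ) (t : Fin r → ℝ), (∀ x, tor T x *ᵥ w = ((x ⬝ᵥ t : ℝ) : ℂ) • w) →
      ∀ i, T i *ᵥ w = ((t i : ℝ) : ℂ) • w := by
    intro w t hw i
    have h1 := hw (Pi.single i 1)
    rwa [tor_single, single_one_dotProduct] at h1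
  have hn : star (v m) ⬝ᵥ v m = 1 := by
    rw [dotProduct_comm, hM.on m hm m hm, if_pos rfl]
  refine ⟨fun hS => ?_, fun hS => ?_⟩
  · have hm' : m ∈ S' := by rw [hS]; exact hm
    refine main hL he he' (hI'.trans hI.symm) x₀ hreg hXm hneg hsp (MV.fix hM hm)
      (MV.fix hM' hm') hn (by rw [dotProduct_comm, hM'.on m hm' m hm', if_pos rfl])
      (fun i => ⟨_, hTs _ m (hM.Tv m hm) i, hTs _ m (hM'.Tv m hm') i⟩)
      (fun γ hγ hγ0 => ⟨hM.X0 γ hγ m hm (hpos γ hγ hγ0), hM'.X0 γ hγ m hm' (hpos γ hγ hγ0)⟩)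
  · have hm' : -m ∈ S' := (hS (-m)).2 (by rw [neg_neg]; exact hm)
    obtain ⟨w, hw⟩ : ∃ w, w = v' (-m) := ⟨_, rfl⟩
    have hOH : Omᴴ = -Om := hO.conjT
    -- the action on the vector of the dual module
    have hact : ∀ Y ∈ L, Y *ᵥ (Om *ᵥ star w) = -(Om *ᵥ star (Yᴴ *ᵥ w)) := by
      intro Y hY
      have h1 : Y * Om = -(Om * Yᵀ) := by
        have h2 := GJ9.st_mem hO hL hY
        unfold st at h2
        have h3 := congrArg (fun Z => Z * Om) h2
        beta_reduce at h3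
        rw [neg_mul, mul_assoc, hO.sq, mul_neg, mul_one, neg_neg, neg_mul] at h3
        rw [h3, neg_neg]
      rw [mulVec_mulVec, h1, neg_mulVec, ← mulVec_mulVec, star_mulVec,
        conjTranspose_conjTranspose, mulVec_transpose]
    have hTL : ∀ i, T i ∈ L := fun i => GJ1.Dr_le hL (hrv.tv.m i).1.1
    refine main hL he (GJ9.st_Mi hO hL he')
      ((st_Ide hO hL he'.1).trans (hI'.trans hI.symm)) x₀ hreg hXm hneg hsp (a' := Om *ᵥ star w)
      (MV.fix hM hm) ?_ hn ?_ (fun i => ⟨_, hTs _ m (hM.Tv m hm) i, ?_⟩)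
      (fun γ hγ hγ0 => ⟨hM.X0 γ hγ m hm (hpos γ hγ hγ0), ?_⟩)
    · unfold st
      have h1 : e'ᵀ *ᵥ star w = star w := by
        have h2 : star (e' *ᵥ w) = star w := by rw [hw, MV.fix hM' hm']
        rw [star_mulVec, he'.2.2.1] at h2
        rw [mulVec_transpose, h2]
      rw [neg_mulVec, mulVec_mulVec, mul_assoc, hO.sq, mul_neg, mul_one, neg_mulVec, neg_neg,
        ← mulVec_mulVec, h1]
    · rw [star_mulVec, hOH, star_star, ← dotProduct_mulVec, mulVec_mulVec, neg_mul, hO.sq,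
        neg_neg, one_mulVec, hw, hM'.on _ hm' _ hm', if_pos rfl]
    · rw [hact _ (hTL i), (hrv.tv.m i).2, hTs w (-m) (by rw [hw]; exact hM'.Tv _ hm') i]
      rw [star_smul, mulVec_smul, Pi.neg_apply, Complex.ofReal_neg, ← neg_smul]
      congr 1
      simp
    · have hγL : X γ ∈ L := GJ1.Dr_le hL (hrv.Xm γ hγ).1.1
      have h1 : pr (-γ) (-m) ≠ -1 := by
        have h2 : pr (-γ) (-m) = pr γ m := by
          unfold pr
          simp
        rw [h2]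
        exact hpos γ hγ hγ0
      rw [hact _ hγL, ← (hneg γ hγ).2, hw, hM'.X0 _ (hneg γ hγ).1 _ hm' h1, star_zero,
        mulVec_zero, neg_zero]

end

end Pool.Agent.NH32
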