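import Mathlib
import Pool.Agent.NH32.GtA

/-!
# Project G, stage 2, H6: type 1 is the special linear case
-/

set_option linter.unusedSectionVars false

namespace Pool.Agent.NH32

open Matrix Module Pool.Agent.W437.HC Pool.Agent.W437.HD Pool.Agent.TH504.CB Pool.Agent.Y90
open Pool.Agent.H204R3.CM (IsHodge)
open Pool.Agent.W548.Odd hiding cv

noncomputable section

namespace GH6

variable {B : Type} [Fintype B] [DecidableEq B]

/-- the matrix units -/
def mus {r : ℕ} (v : (Fin r → ℝ) → B → ℂ) (s s' : Fin r → ℝ) : Matrix B B ℂ :=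
  vecMulVec (v s) (star (v s'))

theorem mus_mul {r : ℕ} {v : (Fin r → ℝ) → B → ℂ} {S : Finset (Fin r → ℝ)}
    (hon : ∀ s ∈ S, ∀ s' ∈ S, v s ⬝ᵥ star (v s') = if s = s' then 1 else 0)
    {a b c d : Fin r → ℝ} (hb : b ∈ S) (hc : c ∈ S) :
    mus v a b * mus v c d = if b = c then mus v a d else 0 := by
  unfold mus
  rw [vecMulVec_mul_vecMulVec, dotProduct_comm, hon c hc b hb]
  by_cases h : b = c
  · rw [if_pos h, if_pos h.symm, one_smul]
  · rw [if_neg h, if_neg (fun h' => h h'.symm), zero_smul]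
    ext i j
    simp [vecMulVec_apply]

end GH6

open GH6

theorem t1_of : St_t1 := by
  intro B _ _ Om L e D r T Φ X h hR S v hM hT
  classical
  refine ⟨hR.pu.1, hR.pu.2.1, ?_⟩
  have hrv := hR.rv
  have hL := hR.ld
  -- the space of the `Y e`, `Y ∈ Dr L`
  let M : Submodule ℂ (Matrix B B ℂ) := (Dr L).map (LinearMap.mulRight ℂ e)
  have hMm : ∀ Y ∈ Dr L, Y * e ∈ M := fun Y hY => ⟨Y, hY, rfl⟩
  have hon := hM.on
  have hee : e = ∑ s ∈ S, mus v s s := hM.ee
  -- off-diagonal units
  have hE : ∀ s ∈ S, ∀ s' ∈ S, s ≠ s' → ∃ Y ∈ Dr L, Y * e = mus v s s' := by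
    intro s hs s' hs' hne
    obtain ⟨hΦ, hort⟩ := hT s hs s' hs' hne
    have hγ : (s - s') ⬝ᵥ (s - s') ≠ 0 := by
      intro h0
      rw [dotProduct_self_eq_zero] at h0
      rw [h0] at hΦ
      exact hrv.rs.z hΦ
    have hpr : pr (s - s') s - pr (s - s') s' = 2 := by
      unfold pr
      rw [← sub_div, ← mul_sub, ← sub_dotProduct, mul_div_assoc, div_self hγ, mul_one]
    have hprs' : pr (s - s') s' = -1 := by
      rcases hM.mw.min _ hΦ s hs with h1 | h1 | h1 <;>
        rcases hM.mw.min _ hΦ s' hs' with h2 | h2 | h2 <;> rw [h1, h2] at hpr <;>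
        first | exact h2 | norm_num at hpr
    have hprs : pr (s - s') s ≠ -1 := by
      intro h1
      rw [h1, hprs'] at hpr
      norm_num at hpr
    have hprt : ∀ t ∈ S, t ≠ s → t ≠ s' → pr (s - s') t ≠ -1 := by
      intro t ht h1 h2
      have h3 : pr (s - s') t = 0 := by
        unfold pr
        rw [dotProduct_comm, hort t ht h1 h2]
        simp
      rw [h3]
      norm_num
    obtain ⟨c, hc, hXc⟩ := hM.Xv _ hΦ s' hs' hprs'
    have hc0 : c ≠ 0 := by
      rintro rfl
      simp at hc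
    have h1 : X (s - s') * e = c • mus v s s' := by
      rw [hee, Finset.mul_sum, Finset.sum_eq_single s']
      · unfold mus
        rw [mul_vecMulVec, hXc, add_sub_cancel, smul_vecMulVec]
      · intro t ht hts
        unfold mus
        rw [mul_vecMulVec]
        have h2 : X (s - s') *ᵥ v t = 0 := by
          by_cases hts' : t = s
          · rw [hts']
            exact hM.X0 _ hΦ s hs hprs
          · exact hM.X0 _ hΦ t ht (hprt t ht hts' hts)
        rw [h2, zero_vecMulVec]
      · intro h2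
        exact absurd hs' h2
    refine ⟨c⁻¹ • X (s - s'), (Dr L).smul_mem _ (hrv.Xm _ hΦ).1.1, ?_⟩
    rw [Matrix.smul_mul, h1, smul_smul, inv_mul_cancel₀ hc0, one_smul]
  have hEM : ∀ s ∈ S, ∀ s' ∈ S, s ≠ s' → mus v s s' ∈ M := by
    intro s hs s' hs' hne
    obtain ⟨Y, hY, hYe⟩ := hE s hs s' hs' hne
    rw [← hYe]
    exact hMm Y hY
  have hemus : ∀ s ∈ S, ∀ s' ∈ S, e * mus v s s' = mus v s s' := by
    intro s hs s' hs'
    rw [hee, Finset.sum_mul, Finset.sum_eq_single s]
    · rw [mus_mul hon hs hs, if_pos rfl]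
    · intro t ht hts
      rw [mus_mul hon ht hs, if_neg hts]
    · intro h2
      exact absurd hs h2
  have hDL : Dr L ≤ L := by
    refine Submodule.span_le.2 ?_
    rintro Z ⟨A, hA, A', hA', rfl⟩
    exact hL.br A hA A' hA'
  have hDM : ∀ s ∈ S, ∀ s' ∈ S, mus v s s - mus v s' s' ∈ M := by
    intro s hs s' hs'
    by_cases hne : s = s'
    · rw [hne, sub_self]
      exact M.zero_mem
    · obtain ⟨Y, hY, hYe⟩ := hE s hs s' hs' hne
      obtain ⟨Z, hZ, hZe⟩ := hE s' hs' s hs (fun h' => hne h'.symm)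
      have h1 : (Y * Z - Z * Y) * e = mus v s s - mus v s' s' := by
        have h2 : Y * Z * e = mus v s s := by
          rw [Matrix.mul_assoc, hZe, ← hemus s' hs' s hs, ← Matrix.mul_assoc, hYe,
            mus_mul hon hs' hs', if_pos rfl]
        have h3 : Z * Y * e = mus v s' s' := by
          rw [Matrix.mul_assoc, hYe, ← hemus s hs s' hs', ← Matrix.mul_assoc, hZe,
            mus_mul hon hs hs, if_pos rfl]
        rw [sub_mul, h2, h3]
      rw [← h1]
      exact hMm _ (Submodule.subset_span ⟨Y, hDL hY, Z, hDL hZ, rfl⟩)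
  -- the general matrix
  intro A hA htr
  obtain ⟨s0, hs0⟩ := hM.mw.ne
  obtain ⟨a, ha⟩ : ∃ a : (Fin r → ℝ) → (Fin r → ℝ) → ℂ,
      ∀ s s', a s s' = star (v s) ⬝ᵥ (A *ᵥ v s') := ⟨_, fun _ _ => rfl⟩
  have hterm : ∀ s s', mus v s s * A * mus v s' s' = a s s' • mus v s s' := by
    intro s s'
    unfold mus
    rw [Matrix.mul_assoc, mul_vecMulVec, vecMulVec_mul_vecMulVec, ← ha, vecMulVec_smul]
  have hsum : A = ∑ s ∈ S, ∑ s' ∈ S, a s s' • mus v s s' := by
    conv_lhs => rw [← hA]
    rw [hee, Finset.sum_mul, Finset.sum_mul]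
    refine Finset.sum_congr rfl fun s _ => ?_
    rw [Finset.mul_sum]
    exact Finset.sum_congr rfl fun s' _ => hterm s s'
  have htrmu : ∀ s ∈ S, ∀ s' ∈ S, trace (mus v s s') = if s = s' then 1 else 0 := by
    intro s hs s' hs'
    unfold mus
    rw [trace_vecMulVec, hon s hs s' hs']
  have htr2 : ∑ s ∈ S, a s s = 0 := by
    rw [hsum, trace_sum] at htr
    rw [← htr]
    refine Finset.sum_congr rfl fun s hs => ?_
    rw [trace_sum, Finset.sum_eq_single s]
    · rw [trace_smul, htrmu s hs s hs, if_pos rfl, smul_eq_mul, mul_one]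
    · intro t ht hts
      rw [trace_smul, htrmu s hs t ht, if_neg (fun h' => hts h'.symm), smul_zero]
    · intro h2
      exact absurd hs h2
  have hsum2 : A = ∑ s ∈ S, ∑ s' ∈ S,
      a s s' • (mus v s s' - if s = s' then mus v s0 s0 else 0) := by
    have h1 : ∑ s ∈ S, ∑ s' ∈ S, a s s' • (mus v s s' - if s = s' then mus v s0 s0 else 0) =
        A - ∑ s ∈ S, a s s • mus v s0 s0 := by
      conv_rhs => rw [hsum]
      rw [← Finset.sum_sub_distrib]
      refine Finset.sum_congr rfl fun s hs => ?_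
      simp_rw [smul_sub]
      rw [Finset.sum_sub_distrib]
      congr 1
      rw [Finset.sum_eq_single s]
      · rw [if_pos rfl]
      · intro t _ hts
        rw [if_neg (fun h' => hts h'.symm), smul_zero]
      · intro h2
        exact absurd hs h2
    rw [h1, ← Finset.sum_smul, htr2, zero_smul, sub_zero]
  have hAM : A ∈ M := by
    rw [hsum2]
    refine Submodule.sum_mem _ fun s hs => Submodule.sum_mem _ fun s' hs' =>
      Submodule.smul_mem _ _ ?_
    by_cases hss : s = s'
    · rw [if_pos hss, ← hss]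
      exact hDM s hs s0 hs0
    · rw [if_neg hss, sub_zero]
      exact hEM s hs s' hs' hss
  obtain ⟨Y, hY, hYe⟩ := hAM
  exact ⟨Y, hY, hYe⟩

end

end Pool.Agent.NH32
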