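import Mathlib
import Pool.Agent.NH32.GtA
import Pool.Agent.NH32.GJ4

/-!
# Project G, stage 2, H7: types 2 and 6 are the orthogonal and symplectic cases
-/

set_option linter.unusedSectionVars false

namespace Pool.Agent.NH32

open Matrix Module Pool.Agent.W437.HC Pool.Agent.W437.HD Pool.Agent.TH504.CB Pool.Agent.Y90
open Pool.Agent.H204R3.CM (IsHodge)
open Pool.Agent.W548.Odd hiding cv

noncomputable section

namespace GH7

variable {B : Type} [Fintype B] [DecidableEq B]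

/-- the matrix units -/
def mus {r : ℕ} (v : (Fin r → ℝ) → B → ℂ) (s s' : Fin r → ℝ) : Matrix B B ℂ :=
  vecMulVec (v s) (star (v s'))

/-- The common features of the sets of weights of types 2 and 6. -/
structure Sy {r : ℕ} (Φ S : Finset (Fin r → ℝ)) (c : ℝ) : Prop where
  c0 : 0 < c
  sq : ∀ s ∈ S, s ⬝ᵥ s = c
  ng : ∀ s ∈ S, -s ∈ S
  tri : ∀ s ∈ S, ∀ t ∈ S, t = s ∨ t = -s ∨ s ⬝ᵥ t = 0
  rt : ∀ s ∈ S, ∀ t ∈ S, t ≠ s → t ≠ -s → t - s ∈ Φ
  th : ∀ s ∈ S, ∃ t ∈ S, t ≠ s ∧ t ≠ -s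

theorem ort_sq {r n : ℕ} {c : ℝ} {e : Fin n → Fin r → ℝ} (h : Ort n c e) (i : Fin n) :
    e i ⬝ᵥ e i = c := by rw [h.2.1, if_pos rfl]

theorem ort_ne {r n : ℕ} {c : ℝ} {e : Fin n → Fin r → ℝ} (h : Ort n c e) {i j : Fin n}
    (hij : i ≠ j) : e i ⬝ᵥ e j = 0 := by rw [h.2.1, if_neg hij]

theorem sy_of {r p : ℕ} {Φ S : Finset (Fin r → ℝ)} {c : ℝ} {e : Fin p → Fin r → ℝ} (hp : 2 ≤ p)
    (he : Ort p c e) (hS : ∀ x, x ∈ S ↔ ∃ i, x = e i ∨ x = -e i) (hΦ : ∀ x, Dro e x → x ∈ Φ) :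
    Sy Φ S c := by
  refine ⟨he.1, ?_, ?_, ?_, ?_, ?_⟩
  · intro s hs
    obtain ⟨i, rfl | rfl⟩ := (hS s).1 hs
    · exact ort_sq he i
    · rw [neg_dotProduct_neg, ort_sq he i]
  · intro s hs
    obtain ⟨i, rfl | rfl⟩ := (hS s).1 hs
    · exact (hS _).2 ⟨i, Or.inr rfl⟩
    · exact (hS _).2 ⟨i, Or.inl (neg_neg _)⟩
  · intro s hs t ht
    obtain ⟨i, hi⟩ := (hS s).1 hs
    obtain ⟨j, hj⟩ := (hS t).1 ht
    by_cases hij : i = j
    · subst hij
      rcases hi with rfl | rfl <;> rcases hj with rfl | rfl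
      · exact Or.inl rfl
      · exact Or.inr (Or.inl rfl)
      · exact Or.inr (Or.inl (neg_neg _).symm)
      · exact Or.inl rfl
    · right; right
      rcases hi with rfl | rfl <;> rcases hj with rfl | rfl <;>
        simp [neg_dotProduct, dotProduct_neg, ort_ne he hij]
  · intro s hs t ht h1 h2
    obtain ⟨i, hi⟩ := (hS s).1 hs
    obtain ⟨j, hj⟩ := (hS t).1 ht
    have hij : i ≠ j := by
      rintro rfl
      rcases hi with rfl | rfl <;> rcases hj with rfl | rfl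
      · exact h1 rfl
      · exact h2 rfl
      · exact h2 (neg_neg _).symm
      · exact h1 rfl
    apply hΦ
    rcases hi with rfl | rfl <;> rcases hj with rfl | rfl
    · exact ⟨j, i, hij.symm, Or.inr (Or.inl rfl)⟩
    · exact ⟨j, i, hij.symm, Or.inr (Or.inr rfl)⟩
    · exact ⟨j, i, hij.symm, Or.inl (sub_neg_eq_add _ _)⟩
    · exact ⟨i, j, hij, Or.inr (Or.inl (by abel))⟩
  · intro s hs
    obtain ⟨i, hi⟩ := (hS s).1 hs
    obtain ⟨j, hij⟩ : ∃ j : Fin p, i ≠ j := by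
      by_cases h0 : i = ⟨0, by omega⟩
      · exact ⟨⟨1, by omega⟩, by rw [h0]; simp⟩
      · exact ⟨_, h0⟩
    refine ⟨e j, (hS _).2 ⟨j, Or.inl rfl⟩, ?_, ?_⟩
    · intro h
      have h1 := ort_sq he j
      have h2 : e i ⬝ᵥ e j = 0 := ort_ne he hij
      rcases hi with rfl | rfl
      · rw [h, ort_sq he] at h2
        exact he.1.ne' h2
      · nth_rewrite 1 [h] at h1
        rw [neg_dotProduct, h2, neg_zero] at h1
        exact he.1.ne h1
    · intro h
      have h1 := ort_sq he j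
      have h2 : e i ⬝ᵥ e j = 0 := ort_ne he hij
      nth_rewrite 1 [h] at h1
      rcases hi with rfl | rfl
      · rw [neg_dotProduct, h2, neg_zero] at h1
        exact he.1.ne h1
      · rw [neg_neg, h2] at h1
        exact he.1.ne h1

theorem Sy.ne_neg {r : ℕ} {Φ S : Finset (Fin r → ℝ)} {c : ℝ} (h : Sy Φ S c) {s : Fin r → ℝ}
    (hs : s ∈ S) : -s ≠ s := by
  intro h1
  have h2 := h.sq s hs
  nth_rewrite 1 [← h1] at h2
  rw [neg_dotProduct, h.sq s hs] at h2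
  linarith [h.c0]

theorem Sy.even {r : ℕ} {Φ S : Finset (Fin r → ℝ)} {c : ℝ} (h : Sy Φ S c) :
    ∃ m : ℕ, S.card = 2 * m := by
  have h1 : ∑ s ∈ S, (1 : ZMod 2) = 0 :=
    Finset.sum_involution (fun s _ => -s) (fun s _ => by decide) (fun s hs _ => h.ne_neg hs)
      (fun s hs => h.ng s hs) (fun s _ => neg_neg s)
  rw [Finset.sum_const, nsmul_one] at h1
  obtain ⟨m, hm⟩ := (ZMod.natCast_eq_zero_iff_even.1 h1)
  exact ⟨m, by omega⟩

/-- The pairing with a difference of weights. -/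
theorem Sy.pr_sub {r : ℕ} {Φ S : Finset (Fin r → ℝ)} {c : ℝ} (h : Sy Φ S c) {s t : Fin r → ℝ}
    (hs : s ∈ S) (ht : t ∈ S) (h1 : t ≠ s) (h2 : t ≠ -s) :
    pr (t - s) s = -1 ∧ pr (t - s) (-t) = -1 ∧ ∀ u ∈ S, u ≠ s → u ≠ -t → pr (t - s) u ≠ -1 := by
  have hc := h.c0
  have hst : s ⬝ᵥ t = 0 := by
    rcases h.tri s hs t ht with h3 | h3 | h3
    · exact absurd h3 h1
    · exact absurd h3 h2
    · exact h3
  have hts : t ⬝ᵥ s = 0 := by rw [dotProduct_comm, hst]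
  have hg : (t - s) ⬝ᵥ (t - s) = 2 * c := by
    rw [sub_dotProduct, dotProduct_sub, dotProduct_sub, h.sq t ht, h.sq s hs, hst, hts]
    ring
  have key : ∀ u, pr (t - s) u = (u ⬝ᵥ t - u ⬝ᵥ s) / c := by
    intro u
    unfold pr
    rw [hg, dotProduct_sub]
    field_simp
  refine ⟨?_, ?_, ?_⟩
  · rw [key, hst, h.sq s hs, zero_sub, neg_div, div_self hc.ne']
  · rw [key, neg_dotProduct, neg_dotProduct, h.sq t ht, hts, neg_zero, sub_zero, neg_div,
      div_self hc.ne']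
  · intro u hu h3 h4 h5
    rw [key, div_eq_iff hc.ne'] at h5
    have h6 : u ⬝ᵥ t = 0 ∨ u ⬝ᵥ t = c := by
      rcases h.tri t ht u hu with h7 | h7 | h7
      · right
        rw [h7, h.sq t ht]
      · exact absurd h7 h4
      · left
        rw [dotProduct_comm, h7]
    have h7 : u ⬝ᵥ s = 0 ∨ u ⬝ᵥ s = -c := by
      rcases h.tri s hs u hu with h7 | h7 | h7
      · exact absurd h7 h3
      · right
        rw [h7, neg_dotProduct, h.sq s hs]
      · left
        rw [dotProduct_comm, h7]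
    rcases h6 with h6 | h6 <;> rcases h7 with h7 | h7 <;> rw [h6, h7] at h5 <;> linarith

/-- The pairing with the double of a weight. -/
theorem Sy.pr_two {r : ℕ} {Φ S : Finset (Fin r → ℝ)} {c : ℝ} (h : Sy Φ S c) {s : Fin r → ℝ}
    (hs : s ∈ S) : pr ((2 : ℝ) • s) (-s) = -1 ∧
      ∀ u ∈ S, u ≠ -s → pr ((2 : ℝ) • s) u ≠ -1 := by
  have hc := h.c0
  have key : ∀ u, pr ((2 : ℝ) • s) u = (u ⬝ᵥ s) / c := by
    intro u
    unfold pr
    rw [dotProduct_smul, dotProduct_smul, smul_dotProduct, h.sq s hs, smul_eq_mul, smul_eq_mul,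
      smul_eq_mul]
    field_simp
  refine ⟨?_, ?_⟩
  · rw [key, neg_dotProduct, h.sq s hs, neg_div, div_self hc.ne']
  · intro u hu h1 h2
    rw [key, div_eq_iff hc.ne'] at h2
    rcases h.tri s hs u hu with h3 | h3 | h3
    · rw [h3, h.sq s hs] at h2
      linarith
    · exact h1 h3
    · rw [dotProduct_comm, h3] at h2
      linarith

/-- Invariance of a form. -/
theorem rel {Y J : Matrix B B ℂ} (h : Yᵀ * J + J * Y = 0) (x y : B → ℂ) :
    (Y *ᵥ x) ⬝ᵥ (J *ᵥ y) + x ⬝ᵥ (J *ᵥ (Y *ᵥ y)) = 0 := by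
  have h1 : x ⬝ᵥ ((Yᵀ * J + J * Y) *ᵥ y) = 0 := by rw [h, zero_mulVec, dotProduct_zero]
  rw [add_mulVec, dotProduct_add, ← mulVec_mulVec, ← mulVec_mulVec, dotProduct_mulVec x Yᵀ,
    vecMul_transpose] at h1
  exact h1

theorem eq_zero_of {r : ℕ} {S : Finset (Fin r → ℝ)} {v : (Fin r → ℝ) → B → ℂ}
    {e P : Matrix B B ℂ} (hee : e = ∑ s ∈ S, vecMulVec (v s) (star (v s))) (h1 : P * e = P)
    (h2 : eᵀ * P = P) (h : ∀ s ∈ S, ∀ t ∈ S, v s ⬝ᵥ (P *ᵥ v t) = 0) : P = 0 := by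
  have h3 : P = eᵀ * P * e := by rw [h2, h1]
  rw [h3, hee, transpose_sum, Finset.sum_mul, Finset.sum_mul]
  refine Finset.sum_eq_zero fun s hs => ?_
  rw [Finset.mul_sum]
  refine Finset.sum_eq_zero fun t ht => ?_
  rw [transpose_vecMulVec, Matrix.mul_assoc, mul_vecMulVec, vecMulVec_mul_vecMulVec, h s hs t ht,
    zero_smul, vecMulVec_zero]

/-- The form. -/
structure Fo (L : Submodule ℂ (Matrix B B ℂ)) (e J : Matrix B B ℂ) : Prop where
  ne : J ≠ 0
  r : J * e = J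
  l : eᵀ * J = J
  i : ∀ Y ∈ Dr L, Yᵀ * J + J * Y = 0

theorem exists_fo {Om : Matrix B B ℂ} {L : Submodule ℂ (Matrix B B ℂ)} (hO : IsOm Om)
    (hL : LD Om L) {e : Matrix B B ℂ} (heh : eᴴ = e) {M : Matrix B B ℂ} (hM : M ≠ 0)
    (h1 : e * M = M) (h2 : ∀ Y ∈ Dr L, Y * M = M * Y) (h3 : M * st Om e = M) :
    Fo L e (Om * Mᴴ) := by
  have hOH : Omᴴ = -Om := by
    have h5 : Om.map star = Om := hO.real
    have h6 : Omᴴ = (Om.map star)ᵀ := rfl
    rw [h6, h5, hO.T]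
  have hst : (st Om e)ᴴ = st Om e := by
    have h4 : (eᵀ)ᴴ = eᵀ := by
      conv_rhs => rw [← heh]
      rfl
    unfold st
    rw [conjTranspose_neg, conjTranspose_mul, conjTranspose_mul, hOH, h4]
    noncomm_ring
  have h4 : st Om e * Mᴴ = Mᴴ := by
    conv_rhs => rw [← h3]
    rw [conjTranspose_mul, hst]
  refine ⟨?_, ?_, ?_, ?_⟩
  · intro h
    apply hM
    have h5 : Om * (Om * Mᴴ) = -Mᴴ := by rw [← mul_assoc, hO.sq, neg_one_mul]
    rw [h, mul_zero] at h5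
    rw [← conjTranspose_eq_zero]
    exact neg_eq_zero.1 h5.symm
  · have h5 : Mᴴ * e = Mᴴ := by
      conv_rhs => rw [← h1]
      rw [conjTranspose_mul, heh]
    rw [mul_assoc, h5]
  · have h5 : Om * (st Om e * Mᴴ) = eᵀ * (Om * Mᴴ) := by
      unfold st
      have h6 : Om * (-(Om * eᵀ * Om) * Mᴴ) = -(Om * Om) * (eᵀ * (Om * Mᴴ)) := by noncomm_ring
      rw [h6, hO.sq, neg_neg, one_mul]
    rw [← h5, h4]
  · intro Y hY
    have h5 := h2 _ (GJ4.Dr_adj hL hY)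
    have h6 : Mᴴ * Y = Y * Mᴴ := by
      have h7 := congrArg Matrix.conjTranspose h5
      rw [conjTranspose_mul, conjTranspose_mul, conjTranspose_conjTranspose] at h7
      exact h7
    have h7 := hL.sp Y (GJ4.Dr_le hL hY)
    have h8 : Yᵀ * (Om * Mᴴ) + Om * Mᴴ * Y = (Yᵀ * Om + Om * Y) * Mᴴ := by
      rw [mul_assoc Om, h6]
      noncomm_ring
    rw [h8, h7, zero_mul]

theorem on_e {r : ℕ} {S : Finset (Fin r → ℝ)} {v : (Fin r → ℝ) → B → ℂ}
    (hon : ∀ s ∈ S, ∀ s' ∈ S, v s ⬝ᵥ star (v s') = if s = s' then 1 else 0)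
    {Y : Matrix B B ℂ} {e : Matrix B B ℂ} (hee : e = ∑ s ∈ S, vecMulVec (v s) (star (v s))) :
    Y * e = ∑ s ∈ S, vecMulVec (Y *ᵥ v s) (star (v s)) := by
  rw [hee, Finset.mul_sum]
  exact Finset.sum_congr rfl fun s _ => by rw [mul_vecMulVec]

/-- The situation: weight vectors and a form. -/
structure Si (Om : Matrix B B ℂ) (L : Submodule ℂ (Matrix B B ℂ)) (e D : Matrix B B ℂ) (r : ℕ)
    (T : Fin r → Matrix B B ℂ) (Φ : Finset (Fin r → ℝ)) (X : (Fin r → ℝ) → Matrix B B ℂ)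
    (h : Fin r → ℝ) (S : Finset (Fin r → ℝ)) (v : (Fin r → ℝ) → B → ℂ) (c : ℝ)
    (J : Matrix B B ℂ) : Prop where
  rd : Rd Om L e D r T Φ X h
  mv : MV T Φ X h e S v
  sy : Sy Φ S c
  fo : Fo L e J

section si

variable {Om : Matrix B B ℂ} {L : Submodule ℂ (Matrix B B ℂ)} {e D : Matrix B B ℂ} {r : ℕ}
  {T : Fin r → Matrix B B ℂ} {Φ : Finset (Fin r → ℝ)} {X : (Fin r → ℝ) → Matrix B B ℂ}
  {h : Fin r → ℝ} {S : Finset (Fin r → ℝ)} {v : (Fin r → ℝ) → B → ℂ} {c : ℝ} {J : Matrix B B ℂ}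

theorem tor_mem (hs : Si Om L e D r T Φ X h S v c J) (x : Fin r → ℝ) : tor T x ∈ Dr L := by
  unfold tor
  exact Submodule.sum_mem _ fun i _ => Submodule.smul_mem _ _ (hs.rd.rv.tv.m i).1.1

/-- The form is monomial. -/
theorem form_zero (hs : Si Om L e D r T Φ X h S v c J) {s t : Fin r → ℝ} (h1 : s ∈ S) (h2 : t ∈ S)
    (hst : t ≠ -s) : v s ⬝ᵥ (J *ᵥ v t) = 0 := by
  have h3 := rel (hs.fo.i _ (tor_mem hs (s + t))) (v s) (v t)
  rw [hs.mv.Tv s h1, hs.mv.Tv t h2, smul_dotProduct, mulVec_smul, dotProduct_smul, ← add_smul] at h3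
  rcases smul_eq_zero.1 h3 with h4 | h4
  · exfalso
    rw [← Complex.ofReal_add, ← dotProduct_add, Complex.ofReal_eq_zero, dotProduct_self_eq_zero]
      at h4
    exact hst (eq_neg_of_add_eq_zero_right h4)
  · exact h4

/-- The relation for a root vector. -/
theorem root_rel (hs : Si Om L e D r T Φ X h S v c J) {s t : Fin r → ℝ} (h1 : s ∈ S) (h2 : t ∈ S)
    (hst : t ≠ s) (hst' : t ≠ -s) : ∃ a b : ℂ, a ≠ 0 ∧ b ≠ 0 ∧ X (t - s) *ᵥ v s = a • v t ∧
      X (t - s) *ᵥ v (-t) = b • v (-s) ∧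
      a * (v t ⬝ᵥ (J *ᵥ v (-t))) + b * (v s ⬝ᵥ (J *ᵥ v (-s))) = 0 := by
  have hΦ := hs.sy.rt s h1 t h2 hst hst'
  obtain ⟨h3, h4, -⟩ := hs.sy.pr_sub h1 h2 hst hst'
  obtain ⟨a, ha, ha2⟩ := hs.mv.Xv _ hΦ s h1 h3
  obtain ⟨b, hb, hb2⟩ := hs.mv.Xv _ hΦ (-t) (hs.sy.ng t h2) h4
  rw [add_sub_cancel] at ha2
  rw [show -t + (t - s) = -s by abel] at hb2
  refine ⟨a, b, ?_, ?_, ha2, hb2, ?_⟩
  · rintro rfl
    simp at ha
  · rintro rfl
    simp at hb
  · have h5 := rel (hs.fo.i _ (hs.rd.rv.Xm _ hΦ).1.1) (v s) (v (-t))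
    rw [ha2, hb2, smul_dotProduct, mulVec_smul, dotProduct_smul, smul_eq_mul, smul_eq_mul] at h5
    exact h5

/-- The form is nondegenerate. -/
theorem form_ne (hs : Si Om L e D r T Φ X h S v c J) {s : Fin r → ℝ} (h1 : s ∈ S) :
    v s ⬝ᵥ (J *ᵥ v (-s)) ≠ 0 := by
  -- propagation
  have key : ∀ s ∈ S, ∀ t ∈ S, t ≠ s → t ≠ -s → v t ⬝ᵥ (J *ᵥ v (-t)) = 0 →
      v s ⬝ᵥ (J *ᵥ v (-s)) = 0 := by
    intro s h1 t h2 h3 h4 h5
    obtain ⟨a, b, -, hb, -, -, h6⟩ := root_rel hs h1 h2 h3 h4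
    rw [h5, mul_zero, zero_add] at h6
    exact (mul_eq_zero.1 h6).resolve_left hb
  intro h0
  apply hs.fo.ne
  refine eq_zero_of hs.mv.ee hs.fo.r hs.fo.l fun t ht u hu => ?_
  by_cases hut : u = -t
  · subst hut
    by_cases h2 : t = s
    · rw [h2]
      exact h0
    · by_cases h3 : t = -s
      · obtain ⟨u, hu1, hu2, hu3⟩ := hs.sy.th s h1
        have h4 : v u ⬝ᵥ (J *ᵥ v (-u)) = 0 := by
          refine key u hu1 s h1 (Ne.symm hu2) ?_ h0
          intro h5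
          exact hu3 (by rw [h5, neg_neg])
        refine key t ht u hu1 ?_ ?_ h4
        · rw [h3]
          exact hu3
        · rw [h3, neg_neg]
          exact hu2
      · refine key t ht s h1 (Ne.symm h2) ?_ h0
        intro h5
        exact h3 (by rw [h5, neg_neg])
  · exact form_zero hs ht hu hut

/-- The form is symmetric or alternating if this is so on opposite weight vectors. -/
theorem form_tr (hs : Si Om L e D r T Φ X h S v c J) (η : ℂ)
    (h1 : ∀ s ∈ S, v (-s) ⬝ᵥ (J *ᵥ v s) = η * (v s ⬝ᵥ (J *ᵥ v (-s)))) : Jᵀ = η • J := by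
  have hT : ∀ x y : B → ℂ, x ⬝ᵥ (Jᵀ *ᵥ y) = y ⬝ᵥ (J *ᵥ x) := by
    intro x y
    rw [dotProduct_mulVec, vecMul_transpose, dotProduct_comm]
  rw [← sub_eq_zero]
  refine eq_zero_of hs.mv.ee ?_ ?_ fun s hs1 t ht => ?_
  · have h2 : Jᵀ * e = Jᵀ := by
      have h3 := congrArg Matrix.transpose hs.fo.l
      rw [transpose_mul, transpose_transpose] at h3
      exact h3
    rw [sub_mul, Matrix.smul_mul, h2, hs.fo.r]
  · have h2 : eᵀ * Jᵀ = Jᵀ := by rw [← transpose_mul, hs.fo.r]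
    rw [mul_sub, Matrix.mul_smul, h2, hs.fo.l]
  · rw [sub_mulVec, dotProduct_sub, hT, smul_mulVec, dotProduct_smul, smul_eq_mul]
    by_cases hst : t = -s
    · rw [hst, h1 s hs1, sub_self]
    · rw [form_zero hs hs1 ht hst, form_zero hs ht hs1 (fun h2 => hst (by rw [h2, neg_neg])),
        mul_zero, sub_zero]

theorem mus_mul (hs : Si Om L e D r T Φ X h S v c J) {s t : Fin r → ℝ} (h1 : s ∈ S)
    (h2 : t ∈ S) {A : Matrix B B ℂ} :
    mus v s s * A * mus v t t = (star (v s) ⬝ᵥ (A *ᵥ v t)) • mus v s t := by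
  unfold mus
  rw [Matrix.mul_assoc, mul_vecMulVec, vecMulVec_mul_vecMulVec, vecMulVec_smul]

theorem corner (hs : Si Om L e D r T Φ X h S v c J) {A : Matrix B B ℂ} (hA : e * A * e = A) :
    A = ∑ s ∈ S, ∑ t ∈ S, (star (v s) ⬝ᵥ (A *ᵥ v t)) • mus v s t := by
  have hee : e = ∑ s ∈ S, mus v s s := hs.mv.ee
  conv_lhs => rw [← hA]
  rw [hee, Finset.sum_mul, Finset.sum_mul]
  refine Finset.sum_congr rfl fun s h1 => ?_
  rw [Finset.mul_sum]
  exact Finset.sum_congr rfl fun t h2 => mus_mul hs h1 h2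

/-- The image of a weight vector. -/
theorem app (hs : Si Om L e D r T Φ X h S v c J) {A : Matrix B B ℂ} (hA : e * A * e = A)
    {t : Fin r → ℝ} (ht : t ∈ S) :
    A *ᵥ v t = ∑ s ∈ S, (star (v s) ⬝ᵥ (A *ᵥ v t)) • v s := by
  have h1 : e * A = A := by
    have h2 := hs.rd.pu.1.2.1
    rw [← hA, ← mul_assoc, ← mul_assoc, h2]
  have h3 : A *ᵥ v t = e *ᵥ (A *ᵥ v t) := by rw [mulVec_mulVec, h1]
  nth_rewrite 1 [h3]
  rw [hs.mv.ee, sum_mulVec]
  refine Finset.sum_congr rfl fun s _ => ?_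
  rw [vecMulVec_mulVec]
  simp

/-- The relation for the entries of an invariant matrix. -/
theorem entry (hs : Si Om L e D r T Φ X h S v c J) {A : Matrix B B ℂ} (hA : e * A * e = A)
    (hAJ : Aᵀ * J + J * A = 0) {s t : Fin r → ℝ} (h1 : s ∈ S) (h2 : t ∈ S) :
    (star (v s) ⬝ᵥ (A *ᵥ v t)) * (v s ⬝ᵥ (J *ᵥ v (-s))) +
      (star (v (-t)) ⬝ᵥ (A *ᵥ v (-s))) * (v t ⬝ᵥ (J *ᵥ v (-t))) = 0 := by
  have h3 := rel hAJ (v t) (v (-s))
  have hs' := hs.sy.ng s h1
  have ht' := hs.sy.ng t h2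
  have h4 : (A *ᵥ v t) ⬝ᵥ (J *ᵥ v (-s)) =
      (star (v s) ⬝ᵥ (A *ᵥ v t)) * (v s ⬝ᵥ (J *ᵥ v (-s))) := by
    nth_rewrite 1 [app hs hA h2]
    rw [sum_dotProduct, Finset.sum_eq_single s]
    · rw [smul_dotProduct, smul_eq_mul]
    · intro u hu hus
      rw [smul_dotProduct, form_zero hs hu hs' (fun h5 => hus (neg_injective h5).symm), smul_zero]
    · intro h5
      exact absurd h1 h5
  have h5 : v t ⬝ᵥ (J *ᵥ (A *ᵥ v (-s))) =
      (star (v (-t)) ⬝ᵥ (A *ᵥ v (-s))) * (v t ⬝ᵥ (J *ᵥ v (-t))) := by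
    nth_rewrite 1 [app hs hA hs']
    rw [mulVec_sum, dotProduct_sum, Finset.sum_eq_single (-t)]
    · rw [mulVec_smul, dotProduct_smul, smul_eq_mul]
    · intro u hu hut
      rw [mulVec_smul, dotProduct_smul, form_zero hs h2 hu hut, smul_zero]
    · intro h6
      exact absurd ht' h6
  rw [h4, h5] at h3
  exact h3

/-- Fullness. -/
theorem full (hs : Si Om L e D r T Φ X h S v c J)
    (h2 : ∀ s ∈ S, (2 : ℝ) • s ∈ Φ ∨ v (-s) ⬝ᵥ (J *ᵥ v s) = v s ⬝ᵥ (J *ᵥ v (-s)))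
    {A : Matrix B B ℂ} (hA : e * A * e = A) (hAJ : Aᵀ * J + J * A = 0) :
    ∃ Y ∈ Dr L, Y * e = A := by
  let M : Submodule ℂ (Matrix B B ℂ) := (Dr L).map (LinearMap.mulRight ℂ e)
  have hMm : ∀ Y ∈ Dr L, Y * e ∈ M := fun Y hY => ⟨Y, hY, rfl⟩
  obtain ⟨a, ha⟩ : ∃ a : (Fin r → ℝ) → (Fin r → ℝ) → ℂ,
      ∀ s s', a s s' = star (v s) ⬝ᵥ (A *ᵥ v s') := ⟨_, fun _ _ => rfl⟩
  obtain ⟨j, hj⟩ : ∃ j : (Fin r → ℝ) → ℂ, ∀ s, j s = v s ⬝ᵥ (J *ᵥ v (-s)) :=
    ⟨_, fun _ => rfl⟩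
  have hj0 : ∀ s ∈ S, j s ≠ 0 := fun s h1 => by rw [hj]; exact form_ne hs h1
  have hent : ∀ s ∈ S, ∀ t ∈ S, a (-t) (-s) = -(a s t * j s / j t) := by
    intro s h3 t h4
    have h5 := entry hs hA hAJ h3 h4
    rw [← ha, ← ha, ← hj, ← hj] at h5
    have h6 := hj0 t h4
    field_simp
    linear_combination h5
  have hterm : ∀ s ∈ S, ∀ t ∈ S, a s t • mus v s t + a (-t) (-s) • mus v (-t) (-s) ∈ M := by
    intro s h3 t h4
    by_cases hst : s = t
    · -- diagonal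
      subst hst
      have h5 := hent s h3 s h3
      rw [mul_div_assoc, div_self (hj0 s h3), mul_one] at h5
      rw [h5]
      have h6 : tor T ((1 / c) • s) * e = mus v s s - mus v (-s) (-s) := by
        rw [on_e hs.mv.on hs.mv.ee]
        have h7 : ∀ u ∈ S, vecMulVec (tor T ((1 / c) • s) *ᵥ v u) (star (v u)) =
            (((1 / c) * (s ⬝ᵥ u) : ℝ) : ℂ) • mus v u u := by
          intro u hu
          rw [hs.mv.Tv u hu, smul_vecMulVec, smul_dotProduct, smul_eq_mul]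
          rfl
        rw [Finset.sum_congr rfl h7, Finset.sum_eq_add s (-s) (hs.sy.ne_neg h3).symm]
        · rw [dotProduct_neg, hs.sy.sq s h3]
          have h8 := hs.sy.c0.ne'
          have h9 : 1 / c * c = 1 := by field_simp
          have h10 : 1 / c * -c = -1 := by field_simp
          rw [h9, h10, Complex.ofReal_one, one_smul, Complex.ofReal_neg, Complex.ofReal_one,
            neg_one_smul, sub_eq_add_neg]
        · intro u hu hus
          rcases hs.sy.tri s h3 u hu with h8 | h8 | h8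
          · exact absurd h8 hus.1
          · exact absurd h8 hus.2
          · rw [h8, mul_zero, Complex.ofReal_zero, zero_smul]
        · intro h8
          exact absurd h3 h8
        · intro h8
          exact absurd (hs.sy.ng s h3) h8
      have h7 : a s s • mus v s s + -a s s • mus v (-s) (-s) =
          a s s • (tor T ((1 / c) • s) * e) := by
        rw [h6, smul_sub, neg_smul, sub_eq_add_neg]
      rw [h7]
      exact M.smul_mem _ (hMm _ (tor_mem hs _))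
    · by_cases hst' : s = -t
      · -- opposite weights
        have h5 : t = -s := by rw [hst', neg_neg]
        subst h5
        rw [neg_neg] at hst'
        rw [neg_neg]
        rcases h2 s h3 with h6 | h6
        · obtain ⟨h7, h8⟩ := hs.sy.pr_two h3
          obtain ⟨b, hb, hb2⟩ := hs.mv.Xv _ h6 (-s) h4 h7
          have hb0 : b ≠ 0 := by
            rintro rfl
            simp at hb
          rw [show -s + (2 : ℝ) • s = s by rw [two_smul]; abel] at hb2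
          have h9 : X ((2 : ℝ) • s) * e = b • mus v s (-s) := by
            rw [on_e hs.mv.on hs.mv.ee, Finset.sum_eq_single (-s)]
            · rw [hb2, smul_vecMulVec]
              rfl
            · intro u hu hus
              rw [hs.mv.X0 _ h6 u hu (h8 u hu hus), zero_vecMulVec]
            · intro h10
              exact absurd h4 h10
          have h10 : mus v s (-s) = b⁻¹ • (X ((2 : ℝ) • s) * e) := by
            rw [h9, smul_smul, inv_mul_cancel₀ hb0, one_smul]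
          rw [h10]
          exact M.add_mem (M.smul_mem _ (M.smul_mem _ (hMm _ (hs.rd.rv.Xm _ h6).1.1)))
            (M.smul_mem _ (M.smul_mem _ (hMm _ (hs.rd.rv.Xm _ h6).1.1)))
        · have h7 := hent s h3 (-s) h4
          have h8 : j (-s) = j s := by
            rw [hj, hj, neg_neg, h6]
          rw [h8, mul_div_assoc, div_self (hj0 s h3), mul_one, neg_neg] at h7
          have h9 : a s (-s) = 0 := by linear_combination h7 / 2
          rw [h9, zero_smul, add_zero]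
          exact M.zero_mem
      · -- the generic case
        have hst2 : s ≠ t := hst
        obtain ⟨b, b', hb, hb', h5, h6, h7⟩ := root_rel hs h4 h3 hst2 hst'
        have hΦ := hs.sy.rt t h4 s h3 hst2 hst'
        obtain ⟨h8, h9, h10⟩ := hs.sy.pr_sub h4 h3 hst2 hst'
        have h11 : X (s - t) * e = b • mus v s t + b' • mus v (-t) (-s) := by
          rw [on_e hs.mv.on hs.mv.ee, Finset.sum_eq_add t (-s) (fun h12 => hst' (by rw [h12, neg_neg]))]
          · rw [h5, h6, smul_vecMulVec, smul_vecMulVec]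
            rfl
          · intro u hu hus
            rw [hs.mv.X0 _ hΦ u hu (h10 u hu hus.1 hus.2), zero_vecMulVec]
          · intro h12
            exact absurd h4 h12
          · intro h12
            exact absurd (hs.sy.ng s h3) h12
        have h12 := hent s h3 t h4
        rw [← hj, ← hj] at h7
        have h13 : b' = -(b * j s / j t) := by
          have h14 := hj0 t h4
          field_simp
          linear_combination h7
        have h15 : a s t • mus v s t + a (-t) (-s) • mus v (-t) (-s) =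
            (a s t / b) • (X (s - t) * e) := by
          rw [h11, h12, h13, smul_add, smul_smul, smul_smul]
          have h16 : a s t / b * b = a s t := by field_simp
          have h17 : a s t / b * -(b * j s / j t) = -(a s t * j s / j t) := by field_simp
          rw [h16, h17]
        rw [h15]
        exact M.smul_mem _ (hMm _ (hs.rd.rv.Xm _ hΦ).1.1)
  have hsum : (2 : ℂ) • A =
      ∑ s ∈ S, ∑ t ∈ S, (a s t • mus v s t + a (-t) (-s) • mus v (-t) (-s)) := by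
    have h3 : A = ∑ s ∈ S, ∑ t ∈ S, a s t • mus v s t := by
      simp_rw [ha]
      exact corner hs hA
    have h4 : A = ∑ s ∈ S, ∑ t ∈ S, a (-t) (-s) • mus v (-t) (-s) := by
      nth_rewrite 1 [h3]
      rw [Finset.sum_comm]
      have h5 : ∀ u, u ∈ S ↔ -u ∈ S := fun u => ⟨hs.sy.ng u, fun h6 => by
        have h7 := hs.sy.ng _ h6
        rwa [neg_neg] at h7⟩
      refine Finset.sum_equiv (Equiv.neg _) (fun u => by simpa using h5 u) fun t ht => ?_
      refine Finset.sum_equiv (Equiv.neg _) (fun u => by simpa using h5 u) fun s hs1 => ?_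
      simp
    rw [two_smul]
    nth_rewrite 1 [h3]
    nth_rewrite 1 [h4]
    rw [← Finset.sum_add_distrib]
    exact Finset.sum_congr rfl fun s _ => by rw [← Finset.sum_add_distrib]
  have hAM : A ∈ M := by
    have h3 : A = (2 : ℂ)⁻¹ • ((2 : ℂ) • A) := by
      rw [smul_smul, inv_mul_cancel₀ two_ne_zero, one_smul]
    rw [h3, hsum]
    exact M.smul_mem _ (Submodule.sum_mem _ fun s h4 => Submodule.sum_mem _ fun t h5 =>
      hterm s h4 t h5)
  obtain ⟨Y, hY, hYe⟩ := hAM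
  exact ⟨Y, hY, hYe⟩

/-- Root vectors whose sum is not a root commute. -/
theorem root_comm (hs : Si Om L e D r T Φ X h S v c J) {α β : Fin r → ℝ} (hα : α ∈ Φ)
    (hβ : β ∈ Φ) (h0 : α + β ≠ 0) (h1 : α + β ∉ Φ) : X α * X β = X β * X α := by
  rw [← sub_eq_zero]
  by_contra hne
  have hP := (hs.rd.rv.Xm α hα).1
  have hQ := (hs.rd.rv.Xm β hβ).1
  refine h1 (hs.rd.rv.one _ h0 _ (GJ4.Ide_br hs.rd.ld hs.rd.pu.1.1
    (GJ4.Dr_le hs.rd.ld hP.1) hQ) hne fun x => ?_).1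
  have h2 := hs.rd.rv.Xw α hα x
  have h3 := hs.rd.rv.Xw β hβ x
  have h4 : tor T x * (X α * X β - X β * X α) - (X α * X β - X β * X α) * tor T x =
      (tor T x * X α - X α * tor T x) * X β + X α * (tor T x * X β - X β * tor T x) -
        (tor T x * X β - X β * tor T x) * X α - X β * (tor T x * X α - X α * tor T x) := by
    noncomm_ring
  rw [h4, h2, h3, add_dotProduct, Complex.ofReal_add, Matrix.smul_mul, Matrix.smul_mul,
    Matrix.mul_smul, Matrix.mul_smul, smul_sub, add_smul, add_smul]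
  abel

/-- The sign in type 2. -/
theorem sign2 (hs : Si Om L e D r T Φ X h S v c J) (h2 : ∀ s ∈ S, (2 : ℝ) • s ∉ Φ)
    {t : Fin r → ℝ} (ht : t ∈ S) : v (-t) ⬝ᵥ (J *ᵥ v t) = v t ⬝ᵥ (J *ᵥ v (-t)) := by
  obtain ⟨s, hs1, hst, hst'⟩ := hs.sy.th t ht
  have ht' := hs.sy.ng t ht
  obtain ⟨a, b, -, hb, h3, h4, h5⟩ := root_rel hs ht' hs1 hst' (by rw [neg_neg]; exact hst)
  obtain ⟨a', b', -, hb', h6, h7, h8⟩ := root_rel hs ht hs1 hst hst'
  have hα := hs.sy.rt (-t) ht' s hs1 hst' (by rw [neg_neg]; exact hst)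
  have hβ := hs.sy.rt t ht s hs1 hst hst'
  have hab : s - -t + (s - t) = (2 : ℝ) • s := by
    rw [two_smul]
    abel
  have hs0 : (2 : ℝ) • s ≠ 0 := by
    intro h9
    have h10 : s = 0 := (smul_eq_zero.1 h9).resolve_left two_ne_zero
    have h11 := hs.sy.sq s hs1
    rw [h10, zero_dotProduct] at h11
    exact hs.sy.c0.ne h11
  have h9 := root_comm hs hα hβ (by rw [hab]; exact hs0) (by rw [hab]; exact h2 s hs1)
  have h10 := congrArg (fun Z => Z *ᵥ v (-s)) h9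
  simp only [← mulVec_mulVec] at h10
  rw [neg_neg] at h4
  rw [h7, h4, mulVec_smul, mulVec_smul, h3, h6, smul_smul, smul_smul] at h10
  have h11 : b' * a = b * a' := by
    have h12 := congrArg (fun z => z ⬝ᵥ star (v s)) h10
    simp only [smul_dotProduct] at h12
    rw [hs.mv.on s hs1 s hs1, if_pos rfl, smul_eq_mul, smul_eq_mul, mul_one, mul_one] at h12
    exact h12
  rw [neg_neg] at h5
  have h12 : b * b' * (v (-t) ⬝ᵥ (J *ᵥ v t) - v t ⬝ᵥ (J *ᵥ v (-t))) = 0 := by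
    linear_combination b' * h5 - b * h8 - (v s ⬝ᵥ (J *ᵥ v (-s))) * h11
  rcases mul_eq_zero.1 h12 with h13 | h13
  · exact absurd h13 (mul_ne_zero hb hb')
  · exact sub_eq_zero.1 h13

/-- The sign in type 6. -/
theorem sign6 (hs : Si Om L e D r T Φ X h S v c J) {s : Fin r → ℝ} (hs1 : s ∈ S)
    (h2 : (2 : ℝ) • s ∈ Φ) : v (-s) ⬝ᵥ (J *ᵥ v s) = -(v s ⬝ᵥ (J *ᵥ v (-s))) := by
  obtain ⟨h7, -⟩ := hs.sy.pr_two hs1
  obtain ⟨b, hb, hb2⟩ := hs.mv.Xv _ h2 (-s) (hs.sy.ng s hs1) h7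
  have hb0 : b ≠ 0 := by
    rintro rfl
    simp at hb
  rw [show -s + (2 : ℝ) • s = s by rw [two_smul]; abel] at hb2
  have h5 := rel (hs.fo.i _ (hs.rd.rv.Xm _ h2).1.1) (v (-s)) (v (-s))
  rw [hb2, smul_dotProduct, mulVec_smul, dotProduct_smul, smul_eq_mul, smul_eq_mul,
    ← mul_add] at h5
  rw [eq_neg_iff_add_eq_zero, add_comm]
  exact (mul_eq_zero.1 h5).resolve_left hb0

end si

theorem fu_of {Om : Matrix B B ℂ} {L : Submodule ℂ (Matrix B B ℂ)} {e D : Matrix B B ℂ} {r : ℕ}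
    {T : Fin r → Matrix B B ℂ} {Φ : Finset (Fin r → ℝ)} {X : (Fin r → ℝ) → Matrix B B ℂ}
    {h : Fin r → ℝ} {S : Finset (Fin r → ℝ)} {v : (Fin r → ℝ) → B → ℂ} {c : ℝ}
    {J : Matrix B B ℂ} (hs : Si Om L e D r T Φ X h S v c J)
    (h2 : (∀ s ∈ S, (2 : ℝ) • s ∈ Φ) ∨ ∀ s ∈ S, (2 : ℝ) • s ∉ Φ) : Fu L e := by
  refine ⟨hs.rd.pu.1, hs.rd.pu.2.1, J, hs.fo.ne, hs.fo.r, hs.fo.l, ?_, hs.fo.i, ?_⟩
  · rcases h2 with h2 | h2
    · left
      rw [form_tr hs (-1) fun s hs1 => by rw [sign6 hs hs1 (h2 s hs1), neg_one_mul], neg_one_smul]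
    · right
      refine ⟨?_, ?_⟩
      · rw [form_tr hs 1 fun s hs1 => by rw [sign2 hs h2 hs1, one_mul], one_smul]
      · obtain ⟨m, hm⟩ := hs.sy.even
        refine ⟨m, ?_⟩
        have h3 : trace e = ∑ s ∈ S, (1 : ℂ) := by
          rw [hs.mv.ee, trace_sum]
          refine Finset.sum_congr rfl fun s hs1 => ?_
          rw [trace_vecMulVec, hs.mv.on s hs1 s hs1, if_pos rfl]
        rw [h3, Finset.sum_const, nsmul_one, hm]
        push_cast
        rfl
  · intro A hA hAJ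
    refine full hs ?_ hA hAJ
    intro s hs1
    rcases h2 with h2 | h2
    · exact Or.inl (h2 s hs1)
    · exact Or.inr (sign2 hs h2 hs1)

end GH7

open GH7 in
/-- **H7.** Types 2 and 6 are the orthogonal and symplectic cases. -/
theorem t2_of (h1 : St_hw) : St_t2 := by
  intro B _ _ Om L e D r T Φ X h hR S v hM hT
  obtain ⟨c, hsy, h2⟩ : ∃ c : ℝ, Sy Φ S c ∧
      ((∀ s ∈ S, (2 : ℝ) • s ∈ Φ) ∨ ∀ s ∈ S, (2 : ℝ) • s ∉ Φ) := by
    rcases hT with ⟨p, c, f, hp, hf, hS, hΦ⟩ | ⟨p, c, f, hp, hf, hΦ, hS⟩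
    · have hsy : Sy Φ S c := sy_of (by omega) hf hS fun x hx => (hΦ x).2 hx
      refine ⟨c, hsy, Or.inr fun s hs h3 => ?_⟩
      have h4 : ((2 : ℝ) • s) ⬝ᵥ ((2 : ℝ) • s) = 4 * c := by
        rw [smul_dotProduct, dotProduct_smul, hsy.sq s hs, smul_eq_mul, smul_eq_mul]
        ring
      have h5 : ((2 : ℝ) • s) ⬝ᵥ ((2 : ℝ) • s) = 2 * c := by
        obtain ⟨i, j, hij, h6⟩ := (hΦ _).1 h3
        have h7 := ort_ne hf hij
        have h8 := ort_ne hf hij.symm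
        have h9 := ort_sq hf i
        have h10 := ort_sq hf j
        rcases h6 with h6 | h6 | h6 <;> rw [h6] <;>
          simp only [add_dotProduct, dotProduct_add, sub_dotProduct, dotProduct_sub,
            neg_dotProduct, dotProduct_neg, h7, h8, h9, h10] <;> ring
      have h6 := hf.1
      linarith
    · have hsy : Sy Φ S c := sy_of hp hf hS fun x hx => (hΦ x).2 (Or.inl hx)
      refine ⟨c, hsy, Or.inl fun s hs => ?_⟩
      obtain ⟨i, rfl | rfl⟩ := (hS s).1 hs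
      · exact (hΦ _).2 (Or.inr ⟨i, Or.inl rfl⟩)
      · exact (hΦ _).2 (Or.inr ⟨i, Or.inr (smul_neg _ _)⟩)
  have hmi := hR.pu.1
  obtain ⟨-, h3⟩ := h1 B Om L e D r T Φ X h hR e e hmi hmi rfl rfl S S v v hM hM
  obtain ⟨M, hM0, hM1, hM2, hM3⟩ := h3 fun x => ⟨hsy.ng x, fun h4 => by
    have h5 := hsy.ng _ h4
    rwa [neg_neg] at h5⟩
  have hfo := exists_fo hR.om hR.ld hmi.2.2.1 hM0 hM1 hM2 hM3
  exact fu_of ⟨hR, hM, hsy, hfo⟩ h2


end

end Pool.Agent.NH32
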