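import Mathlib
import Pool.Agent.NH32.Wdg

/-!
# Project G, stage 2, H8: combinatorics of phases and alternating tensors (helper49)
-/

set_option linter.unusedSectionVars false

namespace Pool.Agent.NH32

open Matrix Equiv

noncomputable section

namespace GH8

section comb

variable {α : Type*} [DecidableEq α]

/-- a function which is invariant under exchanges is constant -/
theorem exch {N : Finset α} {k : ℕ} {b : Finset α → ℂ}
    (h : ∀ P ⊆ N, P.card = k → ∀ i ∈ N, ∀ j ∈ N, i ∉ P → j ∉ P → i ≠ j →
      b (insert i P) = b (insert j P)) :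
    ∀ (m : ℕ) (M M' : Finset α), M ⊆ N → M' ⊆ N → M.card = k+1 → M'.card = k+1 →
      (M \ M').card = m → b M = b M' := by
  intro m
  induction m with
  | zero =>
    intro M M' hM hM' c c' hc
    rw [Finset.card_eq_zero, Finset.sdiff_eq_empty_iff_subset] at hc
    rw [Finset.eq_of_subset_of_card_le hc (by omega)]
  | succ m ih =>
    intro M M' hM hM' c c' hc
    obtain ⟨i, hi⟩ : (M \ M').Nonempty := Finset.card_pos.1 (by omega)
    have hc2 : (M' \ M).card = (M \ M').card := (Finset.card_sdiff_comm (by omega)).symm
    obtain ⟨j, hj⟩ : (M' \ M).Nonempty := Finset.card_pos.1 (by omega)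
    rw [Finset.mem_sdiff] at hi hj
    have hij : i ≠ j := by
      rintro rfl
      exact hi.2 hj.1
    have e1 : insert i (M.erase i) = M := Finset.insert_erase hi.1
    have hjP : j ∉ M.erase i := fun hh => hj.2 (Finset.mem_of_mem_erase hh)
    have h1 := h (M.erase i) ((Finset.erase_subset _ _).trans hM)
      (by rw [Finset.card_erase_of_mem hi.1]; omega) i (hM hi.1) j (hM' hj.1)
      (Finset.notMem_erase _ _) hjP hij
    rw [e1] at h1
    rw [h1]
    apply ih _ _ _ hM' _ c'
    · have e2 : insert j (M.erase i) \ M' = (M \ M').erase i := by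
        ext x
        simp only [Finset.mem_sdiff, Finset.mem_insert, Finset.mem_erase]
        constructor
        · rintro ⟨h2 | h2, h3⟩
          · rw [h2] at h3
            exact absurd hj.1 h3
          · exact ⟨h2.1, h2.2, h3⟩
        · rintro ⟨h2, h3, h4⟩
          exact ⟨Or.inr ⟨h2, h3⟩, h4⟩
      rw [e2, Finset.card_erase_of_mem (by rw [Finset.mem_sdiff]; exact hi)]
      omega
    · intro x hx
      rw [Finset.mem_insert] at hx
      rcases hx with rfl | hx
      · exact hM' hj.1
      · exact hM (Finset.mem_of_mem_erase hx)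
    · rw [Finset.card_insert_of_notMem hjP, Finset.card_erase_of_mem hi.1]
      omega

/-- the hexagon relation -/
def Hex (N : Finset α) (k : ℕ) (r : α → Finset α → ℂ) : Prop :=
  ∀ P ⊆ N, P.card + 1 = k → ∀ i ∈ N, ∀ j ∈ N, ∀ l ∈ N, i ∉ P → j ∉ P → l ∉ P → i ≠ j → j ≠ l →
    i ≠ l → r j (insert i (insert j P)) * r i (insert i (insert l P)) *
      r l (insert j (insert l P)) = r l (insert i (insert l P)) * r j (insert j (insert l P)) *
      r i (insert i (insert j P))

/-- cocycles are coboundaries -/
theorem cob (N : Finset α) : ∀ (k : ℕ) (r : α → Finset α → ℂ),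
    (∀ K ⊆ N, K.card = k+1 → ∀ j ∈ K, r j K ≠ 0) → Hex N k r →
    ∃ μ : Finset α → ℂ, (∀ K, μ K ≠ 0) ∧
      ∀ K ⊆ N, K.card = k+1 → ∀ j ∈ K, r j K * μ (K.erase j) = μ K := by
  induction N using Finset.induction_on with
  | empty =>
    intro k r _ _
    refine ⟨fun _ => 1, fun _ => one_ne_zero, fun K hK hc => ?_⟩
    rw [Finset.subset_empty.1 hK] at hc
    simp at hc
  | insert z N hz ih =>
    intro k r hr hex
    rcases k with _ | k
    · refine ⟨fun K => if K ⊆ insert z N ∧ K.card = 1 then ∑ j ∈ K, r j K else 1, ?_, ?_⟩
      · intro K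
        dsimp only
        split_ifs with h
        · obtain ⟨j, hj⟩ := Finset.card_eq_one.1 h.2
          have h1 := hr K h.1 (by omega) j (by rw [hj]; exact Finset.mem_singleton_self j)
          rw [hj, Finset.sum_singleton, ← hj]
          exact h1
        · exact one_ne_zero
      · intro K hK hc j hj
        obtain ⟨j', hj'⟩ := Finset.card_eq_one.1 hc
        have : j = j' := by rw [hj', Finset.mem_singleton] at hj; exact hj
        subst this
        dsimp only
        have n1 : ¬ (K.erase j ⊆ insert z N ∧ (K.erase j).card = 1) := by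
          rintro ⟨-, h⟩
          rw [Finset.card_erase_of_mem hj] at h
          omega
        rw [if_neg n1, mul_one, if_pos ⟨hK, by omega⟩, hj', Finset.sum_singleton]
    · have hzK : ∀ K ⊆ N, z ∉ K := fun K hK hh => hz (hK hh)
      have sub1 : ∀ K ⊆ N, K ⊆ insert z N := fun K hK => hK.trans (Finset.subset_insert _ _)
      have sub2 : ∀ K ⊆ N, insert z K ⊆ insert z N := fun K hK => Finset.insert_subset_insert _ hK
      have nez : ∀ i ∈ N, i ≠ z := by
        rintro i hi rfl
        exact hz hi
      obtain ⟨μ1, h1, e1⟩ := ih (k+1) r (fun K hK hc j hj => hr K (sub1 K hK) hc j hj)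
        (fun P hP hc i hi j hj l hl => hex P (sub1 P hP) hc i (Finset.mem_insert_of_mem hi) j
          (Finset.mem_insert_of_mem hj) l (Finset.mem_insert_of_mem hl))
      obtain ⟨μ2, h2, e2⟩ := ih k (fun j K => r j (insert z K))
        (fun K hK hc j hj => hr _ (sub2 K hK) (by
          rw [Finset.card_insert_of_notMem (hzK K hK)]; omega) j (Finset.mem_insert_of_mem hj))
        (by
          intro P hP hc i hi j hj l hl iP jP lP ij jl il
          have h3 := hex (insert z P) (sub2 P hP) (by
            rw [Finset.card_insert_of_notMem (hzK P hP)]; omega) i (Finset.mem_insert_of_mem hi) j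
            (Finset.mem_insert_of_mem hj) l (Finset.mem_insert_of_mem hl)
            (by rw [Finset.mem_insert, not_or]; exact ⟨nez i hi, iP⟩)
            (by rw [Finset.mem_insert, not_or]; exact ⟨nez j hj, jP⟩)
            (by rw [Finset.mem_insert, not_or]; exact ⟨nez l hl, lP⟩) ij jl il
          have e : ∀ x y : α, insert x (insert y (insert z P)) = insert z (insert x (insert y P)) :=
            fun x y => by
              rw [Finset.insert_comm y z, Finset.insert_comm x z]
          rw [e, e, e] at h3
          exact h3)
      set b : Finset α → ℂ := fun M => r z (insert z M) * μ1 M / μ2 M with hb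
      have b0 : ∀ M ⊆ N, M.card = k+1 → b M ≠ 0 := by
        intro M hM hc
        exact div_ne_zero (mul_ne_zero (hr _ (sub2 M hM) (by
          rw [Finset.card_insert_of_notMem (hzK M hM)]; omega) z (Finset.mem_insert_self _ _))
          (h1 M)) (h2 M)
      have bc : ∀ M M' : Finset α, M ⊆ N → M' ⊆ N → M.card = k+1 → M'.card = k+1 →
          b M = b M' := by
        intro M M' hM hM' c c'
        refine exch (N := N) (k := k) (b := b) ?_ _ M M' hM hM' c c' rfl
        intro P hP hc i hi j hj iP jP ij
        have hiP : insert i P ⊆ N := Finset.insert_subset hi hP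
        have hjP : insert j P ⊆ N := Finset.insert_subset hj hP
        have hijP : insert i (insert j P) ⊆ N := Finset.insert_subset hi hjP
        have ijP : i ∉ insert j P := by
          rw [Finset.mem_insert, not_or]; exact ⟨ij, iP⟩
        have jiP : j ∉ insert i P := by
          rw [Finset.mem_insert, not_or]; exact ⟨ij.symm, jP⟩
        have ci : (insert i P).card = k+1 := by rw [Finset.card_insert_of_notMem iP, hc]
        have cj : (insert j P).card = k+1 := by rw [Finset.card_insert_of_notMem jP, hc]
        have cij : (insert i (insert j P)).card = k+2 := by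
          rw [Finset.card_insert_of_notMem ijP, cj]
        have h3 := hex P (sub1 P hP) (by omega) i (Finset.mem_insert_of_mem hi) j
          (Finset.mem_insert_of_mem hj) z (Finset.mem_insert_self _ _) iP jP (hzK P hP) ij
          (nez j hj) (nez i hi)
        -- the values
        have a1 := e1 (insert i (insert j P)) hijP cij j
          (Finset.mem_insert_of_mem (Finset.mem_insert_self _ _))
        have a2 := e1 (insert i (insert j P)) hijP cij i (Finset.mem_insert_self _ _)
        have a3 := e2 (insert i P) hiP ci i (Finset.mem_insert_self _ _)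
        have a4 := e2 (insert j P) hjP cj j (Finset.mem_insert_self _ _)
        rw [Finset.erase_insert ijP] at a2
        have e3 : (insert i (insert j P)).erase j = insert i P := by
          rw [Finset.insert_comm, Finset.erase_insert jiP]
        rw [e3] at a1
        rw [Finset.erase_insert iP] at a3
        rw [Finset.erase_insert jP] at a4
        have e4 : ∀ x, insert x (insert z P) = insert z (insert x P) := fun x =>
          Finset.insert_comm _ _ _
        rw [e4, e4] at h3
        rw [hb]
        dsimp only at a3 a4 ⊢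
        have n1 := h1 (insert i P)
        have n2 := h1 (insert j P)
        have n3 := h2 (insert i P)
        have n4 := h2 (insert j P)
        have n5 := h2 P
        have n6 := h1 (insert i (insert j P))
        rw [div_eq_div_iff n3 n4]
        have r1 : r j (insert i (insert j P)) = μ1 (insert i (insert j P)) / μ1 (insert i P) := by
          rw [eq_div_iff n1]; exact a1
        have r2 : r i (insert i (insert j P)) = μ1 (insert i (insert j P)) / μ1 (insert j P) := by
          rw [eq_div_iff n2]; exact a2
        have r3 : r i (insert z (insert i P)) = μ2 (insert i P) / μ2 P := by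
          rw [eq_div_iff n5]; exact a3
        have r4 : r j (insert z (insert j P)) = μ2 (insert j P) / μ2 P := by
          rw [eq_div_iff n5]; exact a4
        rw [r1, r2, r3, r4] at h3
        field_simp at h3
        linear_combination -h3
      -- the constant
      obtain ⟨β, hβ0, hβ⟩ : ∃ β : ℂ, β ≠ 0 ∧ ∀ M ⊆ N, M.card = k+1 → b M = β := by
        by_cases hM : ∃ M ⊆ N, M.card = k+1
        · obtain ⟨M, hM, hc⟩ := hM
          exact ⟨b M, b0 M hM hc, fun M' hM' hc' => bc M' M hM' hM hc' hc⟩
        · exact ⟨1, one_ne_zero, fun M hM' hc => absurd ⟨M, hM', hc⟩ hM⟩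
      refine ⟨fun K => if z ∈ K then β * μ2 (K.erase z) else μ1 K, ?_, ?_⟩
      · intro K
        dsimp only
        split_ifs
        · exact mul_ne_zero hβ0 (h2 _)
        · exact h1 _
      · intro K hK hc j hj
        dsimp only
        by_cases hzK' : z ∈ K
        · have hK' : K.erase z ⊆ N := by
            intro x hx
            rw [Finset.mem_erase] at hx
            exact (Finset.mem_insert.1 (hK hx.2)).resolve_left hx.1
          have hc' : (K.erase z).card = k+1 := by rw [Finset.card_erase_of_mem hzK']; omega
          have eK : insert z (K.erase z) = K := Finset.insert_erase hzK'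
          rw [if_pos hzK']
          by_cases hjz : j = z
          · subst hjz
            rw [if_neg (Finset.notMem_erase _ _)]
            have h3 := hβ _ hK' hc'
            rw [hb] at h3
            simp only [eK] at h3
            have n := h2 (K.erase j)
            rw [div_eq_iff n] at h3
            exact h3
          · have hzj : z ∈ K.erase j := Finset.mem_erase.2 ⟨fun hh => hjz hh.symm, hzK'⟩
            rw [if_pos hzj]
            have h3 := e2 (K.erase z) hK' hc' j (Finset.mem_erase.2 ⟨hjz, hj⟩)
            rw [eK, Finset.erase_right_comm] at h3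
            rw [← h3]
            ring
        · have hK' : K ⊆ N := by
            intro x hx
            rcases Finset.mem_insert.1 (hK hx) with rfl | h4
            · exact absurd hx hzK'
            · exact h4
          rw [if_neg hzK', if_neg fun hh => hzK' (Finset.mem_of_mem_erase hh)]
          exact e1 K hK' hc j hj

end comb

section alt

variable {n k : ℕ}

/-- exterior products of basis vectors -/
def sg (J : Fin k → Fin n) : (Fin k → Fin n) → ℂ := wd fun l => Pi.single (J l) 1

theorem sg_alt (J : Fin k → Fin n) : IsAlt (sg J) := wd_alt _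

theorem sg_self {J : Fin k → Fin n} (hJ : Function.Injective J) : sg J J = 1 := by
  unfold sg wd
  have : (of fun a b => (Pi.single (J b) (1:ℂ) : Fin n → ℂ) (J a)) = (1 : Matrix (Fin k) (Fin k) ℂ) := by
    ext a b
    rw [of_apply, Pi.single_apply, Matrix.one_apply]
    by_cases h : a = b
    · rw [if_pos (by rw [h]), if_pos h]
    · rw [if_neg fun hh => h (hJ hh), if_neg h]
  rw [this, det_one]

theorem sg_comp (J : Fin k → Fin n) (σ : Perm (Fin k)) :
    sg (fun a => J (σ a)) = ((Perm.sign σ : ℤ) : ℂ) • sg J := by
  funext I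
  rw [Pi.smul_apply, smul_eq_mul]
  exact Matrix.det_permute' σ (of fun a b => (Pi.single (J b) (1:ℂ) : Fin n → ℂ) (I a))

theorem sg_zero {J I : Fin k → Fin n} {a : Fin k} (h : ∀ b, I a ≠ J b) : sg J I = 0 := by
  unfold sg wd
  refine det_eq_zero_of_row_eq_zero a fun b => ?_
  show (Pi.single (J b) (1:ℂ) : Fin n → ℂ) (I a) = 0
  rw [Pi.single_apply, if_neg (h b)]

theorem sg_rep {J : Fin k → Fin n} {a b : Fin k} (hab : a ≠ b) (h : J a = J b) : sg J = 0 := by
  unfold sg
  exact wd_eq_zero hab (by rw [h])

theorem single_mulVec_single (i j l : Fin n) : (Matrix.single i j (1:ℂ)) *ᵥ (Pi.single l 1) =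
    if l = j then Pi.single i 1 else (0 : Fin n → ℂ) := by
  funext x
  rw [Matrix.mulVec_single_one, Matrix.col_apply, Matrix.single_apply]
  by_cases h : l = j
  · subst h
    rw [if_pos rfl, Pi.single_apply]
    by_cases hx : x = i
    · rw [if_pos ⟨hx.symm, rfl⟩, if_pos hx]
    · rw [if_neg fun hh => hx hh.1.symm, if_neg hx]
  · rw [if_neg h, if_neg fun hh => h hh.2.symm, Pi.zero_apply]

theorem dm_sg (i j : Fin n) (J : Fin k → Fin n) : dm (Fin k) (Matrix.single i j (1:ℂ)) *ᵥ sg J =
    ∑ l, if J l = j then sg (Function.update J l i) else 0 := by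
  unfold sg
  rw [dm_wd]
  refine Finset.sum_congr rfl fun l _ => ?_
  rw [single_mulVec_single]
  by_cases h : J l = j
  · rw [if_pos h, if_pos h]
    congr 1
    funext l'
    by_cases hl : l' = l
    · subst hl
      rw [Function.update_self, Function.update_self]
    · rw [Function.update_of_ne hl, Function.update_of_ne hl]
  · rw [if_neg h, if_neg h, ← wdM_apply]
    exact MultilinearMap.map_coord_zero _ l (by rw [Function.update_self])

theorem same_range {J J' : Fin k → Fin n} (hJ : Function.Injective J)
    (hJ' : Function.Injective J') (h : Finset.univ.image J' = Finset.univ.image J) :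
    ∃ σ : Perm (Fin k), J' = fun a => J (σ a) := by
  have h1 : ∀ a, ∃ b, J b = J' a := by
    intro a
    have : J' a ∈ Finset.univ.image J := by
      rw [← h]; exact Finset.mem_image_of_mem _ (Finset.mem_univ _)
    obtain ⟨b, -, hb⟩ := Finset.mem_image.1 this
    exact ⟨b, hb⟩
  choose s hs using h1
  have hi : Function.Injective s := by
    intro a b hab
    apply hJ'
    rw [← hs a, ← hs b, hab]
  refine ⟨Equiv.ofBijective s (Finite.injective_iff_bijective.1 hi), ?_⟩
  funext a
  rw [Equiv.ofBijective_apply, hs]

/-- a tuple with the given range -/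
def oc (z : Fin n) (k : ℕ) (K : Finset (Fin n)) : Fin k → Fin n := by
  classical
  exact if h : ∃ J : Fin k → Fin n, Function.Injective J ∧ Finset.univ.image J = K then h.choose
    else fun _ => z

variable {z : Fin n}

theorem oc_spec {K : Finset (Fin n)} (hK : K.card = k) :
    Function.Injective (oc z k K) ∧ Finset.univ.image (oc z k K) = K := by
  have h : ∃ J : Fin k → Fin n, Function.Injective J ∧ Finset.univ.image J = K := by
    refine ⟨K.orderEmbOfFin hK, (K.orderEmbOfFin hK).injective, ?_⟩
    exact Finset.image_orderEmbOfFin_univ K hK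
  unfold oc
  rw [dif_pos h]
  exact h.choose_spec

theorem oc_mem {K : Finset (Fin n)} (hK : K.card = k) (b : Fin k) : oc z k K b ∈ K := by
  have h1 := (oc_spec (z := z) hK).2
  have h2 := Finset.mem_image_of_mem (oc z k K) (Finset.mem_univ b)
  rw [h1] at h2
  exact h2

/-- the basis of the alternating tensors -/
def eK (z : Fin n) (k : ℕ) (K : Finset (Fin n)) : (Fin k → Fin n) → ℂ := sg (oc z k K)

theorem eK_alt (K : Finset (Fin n)) : IsAlt (eK z k K) := sg_alt _

theorem eK_oc {K K' : Finset (Fin n)} (hK : K.card = k) (hK' : K'.card = k) :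
    eK z k K (oc z k K') = if K = K' then 1 else 0 := by
  by_cases h : K = K'
  · subst h
    rw [if_pos rfl]
    exact sg_self (oc_spec hK).1
  · rw [if_neg h]
    have h1 : ¬ K' ⊆ K := by
      intro hh
      exact h (Finset.eq_of_subset_of_card_le hh (by omega)).symm
    obtain ⟨x, hx, hxK⟩ := Finset.not_subset.1 h1
    rw [← (oc_spec (z := z) hK').2] at hx
    obtain ⟨a, -, ha⟩ := Finset.mem_image.1 hx
    refine sg_zero (a := a) fun b hb => hxK ?_
    rw [← ha, hb]
    exact oc_mem hK b

theorem inj_of_ne {x : (Fin k → Fin n) → ℂ} (hx : IsAlt x) {I : Fin k → Fin n} (h : x I ≠ 0) :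
    Function.Injective I := by
  intro a b hab
  by_contra hne
  exact h (hx.eq_zero hne hab)

theorem card_of_inj {I : Fin k → Fin n} (h : Function.Injective I) :
    (Finset.univ.image I).card = k := by
  rw [Finset.card_image_of_injective _ h, Finset.card_univ, Fintype.card_fin]

theorem alt_exp {x : (Fin k → Fin n) → ℂ} (hx : IsAlt x) :
    x = ∑ K ∈ Finset.powersetCard k Finset.univ, x (oc z k K) • eK z k K := by
  funext I
  rw [Finset.sum_apply]
  by_cases hI : Function.Injective I
  · have hc := card_of_inj hI
    obtain ⟨hj, hr⟩ := oc_spec (z := z) hc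
    obtain ⟨σ, hσ⟩ := same_range hj hI hr.symm
    have h1 : ∀ y : (Fin k → Fin n) → ℂ, IsAlt y → y I = ((Perm.sign σ : ℤ) : ℂ) *
        y (oc z k (Finset.univ.image I)) := by
      intro y hy
      rw [← hy σ]
      exact congrArg y hσ
    rw [h1 x hx, Finset.sum_eq_single (Finset.univ.image I)]
    · rw [Pi.smul_apply, smul_eq_mul, h1 _ (eK_alt _), eK_oc hc hc, if_pos rfl]
      ring
    · intro K hK hne
      rw [Finset.mem_powersetCard] at hK
      rw [Pi.smul_apply, smul_eq_mul, h1 _ (eK_alt _), eK_oc hK.2 hc, if_neg hne]
      ring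
    · intro hh
      exact absurd (Finset.mem_powersetCard.2 ⟨Finset.subset_univ _, hc⟩) hh
  · have h1 : ∀ y : (Fin k → Fin n) → ℂ, IsAlt y → y I = 0 := by
      intro y hy
      by_contra h
      exact hI (inj_of_ne hy h)
    rw [h1 x hx]
    symm
    refine Finset.sum_eq_zero fun K _ => ?_
    rw [Pi.smul_apply, h1 _ (eK_alt _), smul_zero]

theorem dm_eK0 {K : Finset (Fin n)} (hK : K.card = k) {i j : Fin n} (hj : j ∉ K) :
    dm (Fin k) (Matrix.single i j (1:ℂ)) *ᵥ eK z k K = 0 := by
  unfold eK
  rw [dm_sg]
  refine Finset.sum_eq_zero fun l _ => ?_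
  rw [if_neg]
  intro hh
  apply hj
  rw [← hh]
  exact oc_mem hK l

theorem dm_eK1 {K : Finset (Fin n)} (hK : K.card = k) {i j : Fin n} (hi : i ∈ K) (hij : i ≠ j) :
    dm (Fin k) (Matrix.single i j (1:ℂ)) *ᵥ eK z k K = 0 := by
  unfold eK
  rw [dm_sg]
  refine Finset.sum_eq_zero fun l _ => ?_
  split_ifs with h
  · rw [← (oc_spec (z := z) hK).2] at hi
    obtain ⟨a, -, ha⟩ := Finset.mem_image.1 hi
    have hal : a ≠ l := by
      rintro rfl
      exact hij (ha.symm.trans h)
    refine sg_rep hal ?_
    rw [Function.update_of_ne hal, Function.update_self, ha]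
  · rfl

theorem sg_update {J : Fin k → Fin n} (hJ : Function.Injective J) {i : Fin n} (l : Fin k)
    (hi : i ∉ Finset.univ.image J) : Function.Injective (Function.update J l i) ∧
      Finset.univ.image (Function.update J l i) = insert i ((Finset.univ.image J).erase (J l)) := by
  have hne : ∀ a, J a ≠ i := by
    intro a ha
    apply hi
    rw [← ha]
    exact Finset.mem_image_of_mem _ (Finset.mem_univ _)
  constructor
  · intro a b hab
    by_cases ha : a = l
    · by_cases hb : b = l
      · rw [ha, hb]
      · rw [ha, Function.update_self, Function.update_of_ne hb] at hab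
        exact absurd hab.symm (hne b)
    · by_cases hb : b = l
      · rw [hb, Function.update_self, Function.update_of_ne ha] at hab
        exact absurd hab (hne a)
      · rw [Function.update_of_ne ha, Function.update_of_ne hb] at hab
        exact hJ hab
  · ext x
    rw [Finset.mem_image, Finset.mem_insert, Finset.mem_erase, Finset.mem_image]
    constructor
    · rintro ⟨a, -, ha⟩
      by_cases hal : a = l
      · rw [hal, Function.update_self] at ha
        exact Or.inl ha.symm
      · rw [Function.update_of_ne hal] at ha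
        refine Or.inr ⟨?_, a, Finset.mem_univ _, ha⟩
        rw [← ha]
        exact fun hh => hal (hJ hh)
    · rintro (rfl | ⟨h1, a, -, ha⟩)
      · exact ⟨l, Finset.mem_univ _, Function.update_self _ _ _⟩
      · refine ⟨a, Finset.mem_univ _, ?_⟩
        rw [Function.update_of_ne, ha]
        rintro rfl
        exact h1 ha.symm

theorem dm_sg1 {J : Fin k → Fin n} (hJ : Function.Injective J) (i : Fin n) (l : Fin k) :
    dm (Fin k) (Matrix.single i (J l) (1:ℂ)) *ᵥ sg J = sg (Function.update J l i) := by
  rw [dm_sg, Finset.sum_eq_single l]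
  · rw [if_pos rfl]
  · intro a _ hal
    rw [if_neg fun hh => hal (hJ hh)]
  · intro hh
    exact absurd (Finset.mem_univ _) hh

theorem dm_eK {K : Finset (Fin n)} (hK : K.card = k) {i j : Fin n} (hj : j ∈ K) (hi : i ∉ K) :
    ∃ τ : ℂ, τ * τ = 1 ∧
      dm (Fin k) (Matrix.single i j (1:ℂ)) *ᵥ eK z k K = τ • eK z k (insert i (K.erase j)) ∧
      dm (Fin k) (Matrix.single j i (1:ℂ)) *ᵥ eK z k (insert i (K.erase j)) = τ • eK z k K := by
  obtain ⟨h1, h2⟩ := oc_spec (z := z) hK
  have hj' := hj
  rw [← h2] at hj'
  obtain ⟨l, -, hl⟩ := Finset.mem_image.1 hj'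
  obtain ⟨h3, h4⟩ := sg_update h1 l (i := i) (by rw [h2]; exact hi)
  rw [h2, hl] at h4
  have hK' : (insert i (K.erase j)).card = k := by
    rw [← h4]
    exact card_of_inj h3
  obtain ⟨h5, h6⟩ := oc_spec (z := z) hK'
  obtain ⟨σ, hσ⟩ := same_range h5 h3 (by rw [h4, h6])
  have hτ : (((Perm.sign σ : ℤ) : ℂ)) * ((Perm.sign σ : ℤ) : ℂ) = 1 := by
    have : ((Perm.sign σ : ℤ)) * (Perm.sign σ : ℤ) = 1 := by
      rw [← Units.val_mul, Int.units_mul_self, Units.val_one]
    exact_mod_cast this
  have h7 : sg (Function.update (oc z k K) l i) = ((Perm.sign σ : ℤ) : ℂ) •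
      eK z k (insert i (K.erase j)) := by
    rw [hσ]
    exact sg_comp _ σ
  refine ⟨((Perm.sign σ : ℤ) : ℂ), hτ, ?_, ?_⟩
  · unfold eK
    rw [← hl, dm_sg1 h1, h7, hl]
    rfl
  · have h8 : eK z k (insert i (K.erase j)) = ((Perm.sign σ : ℤ) : ℂ) •
        sg (Function.update (oc z k K) l i) := by
      rw [h7, smul_smul, hτ, one_smul]
    rw [h8, mulVec_smul]
    congr 1
    have h9 := dm_sg1 h3 j l
    rw [Function.update_self] at h9
    rw [h9, Function.update_idem]
    unfold eK
    rw [← hl, Function.update_eq_self]

theorem supp_eK {K : Finset (Fin n)} (hK : K.card = k) {I : Fin k → Fin n}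
    (h : eK z k K I ≠ 0) : Function.Injective I ∧ Finset.univ.image I = K := by
  have h1 := inj_of_ne (eK_alt K) h
  refine ⟨h1, Finset.eq_of_subset_of_card_le ?_ (by rw [card_of_inj h1, hK])⟩
  intro x hx
  obtain ⟨a, -, ha⟩ := Finset.mem_image.1 hx
  by_contra hxK
  apply h
  refine sg_zero (a := a) fun b hb => hxK ?_
  rw [← ha, hb]
  exact oc_mem hK b

theorem dm_diag_eK {K : Finset (Fin n)} (hK : K.card = k) (d : Fin n → ℂ) :
    dm (Fin k) (diagonal d) *ᵥ eK z k K = (∑ i ∈ K, d i) • eK z k K := by
  funext I
  rw [dm_diagonal, Pi.smul_apply, smul_eq_mul]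
  by_cases h : eK z k K I = 0
  · rw [h, mul_zero, mul_zero]
  · obtain ⟨h1, h2⟩ := supp_eK hK h
    rw [← h2, Finset.sum_image fun a _ b _ hab => h1 hab]

/-- the general linear Lie algebra acts faithfully on the alternating tensors -/
theorem faithful (hk : 1 ≤ k) (hkn : k + 1 ≤ n) {Z : Matrix (Fin n) (Fin n) ℂ}
    (h : ∀ x, IsAlt x → dm (Fin k) Z *ᵥ x = 0) : Z = 0 := by
  have h1 : ∀ i j, i ≠ j → Z i j = 0 := by
    intro i j hij
    obtain ⟨P, hP, hc⟩ := Finset.exists_subset_card_eq
      (s := (Finset.univ.erase i).erase j) (n := k-1) (by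
        rw [Finset.card_erase_of_mem (Finset.mem_erase.2 ⟨hij.symm, Finset.mem_univ _⟩),
          Finset.card_erase_of_mem (Finset.mem_univ _), Finset.card_univ, Fintype.card_fin]
        omega)
    have jP : j ∉ P := fun hh => (Finset.mem_erase.1 (hP hh)).1 rfl
    have iP : i ∉ P := fun hh => (Finset.mem_erase.1 (Finset.mem_erase.1 (hP hh)).2).1 rfl
    have hK : (insert j P).card = k := by
      rw [Finset.card_insert_of_notMem jP]; omega
    obtain ⟨J, hJ, hr⟩ : ∃ J : Fin k → Fin n, Function.Injective J ∧
        Finset.univ.image J = insert j P := ⟨_, oc_spec (z := i) hK⟩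
    have hj' : j ∈ Finset.univ.image J := by rw [hr]; exact Finset.mem_insert_self _ _
    obtain ⟨l, -, hl⟩ := Finset.mem_image.1 hj'
    have hiJ : ∀ a, J a ≠ i := by
      intro a ha
      have : i ∈ insert j P := by
        rw [← hr, ← ha]
        exact Finset.mem_image_of_mem _ (Finset.mem_univ _)
      rw [Finset.mem_insert] at this
      rcases this with h2 | h2
      · exact hij h2
      · exact iP h2
    have h2 := congrFun (h (sg J) (sg_alt J)) (Function.update J l i)
    rw [dm_mulVec_apply, Pi.zero_apply, Finset.sum_eq_single l] at h2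
    · rw [Finset.sum_eq_single j] at h2
      · rw [Function.update_self, Function.update_idem, ← hl, Function.update_eq_self,
          sg_self hJ, mul_one] at h2
        rw [← hl]
        exact h2
      · intro b _ hb
        rw [Function.update_idem]
        have : sg J (Function.update J l b) = 0 := by
          by_contra hne
          have hinj := inj_of_ne (sg_alt J) hne
          by_cases hbJ : ∃ a, J a = b
          · obtain ⟨a, ha⟩ := hbJ
            have hal : a ≠ l := by
              rintro rfl
              exact hb (ha.symm.trans hl)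
            exact hal (hinj (by rw [Function.update_of_ne hal, Function.update_self, ha]))
          · apply hne
            refine sg_zero (a := l) fun c hc => hbJ ⟨c, ?_⟩
            rw [Function.update_self] at hc
            exact hc.symm
        rw [this, mul_zero]
      · intro hh
        exact absurd (Finset.mem_univ _) hh
    · intro a _ hal
      refine Finset.sum_eq_zero fun b _ => ?_
      have : sg J (Function.update (Function.update J l i) a b) = 0 := by
        refine sg_zero (a := l) fun c hc => hiJ c ?_
        rw [Function.update_of_ne hal.symm, Function.update_self] at hc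
        exact hc.symm
      rw [this, mul_zero]
    · intro hh
      exact absurd (Finset.mem_univ _) hh
  have h2 : Z = diagonal fun i => Z i i := by
    ext i j
    by_cases hij : i = j
    · subst hij
      rw [diagonal_apply_eq]
    · rw [diagonal_apply_ne _ hij, h1 i j hij]
  have h3 : ∀ K : Finset (Fin n), K.card = k → ∑ i ∈ K, Z i i = 0 := by
    intro K hK
    obtain ⟨z, -⟩ : K.Nonempty := Finset.card_pos.1 (by omega)
    have h4 := h (eK z k K) (eK_alt K)
    rw [h2, dm_diag_eK hK] at h4
    have h5 := congrFun h4 (oc z k K)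
    rw [Pi.smul_apply, eK_oc hK hK, if_pos rfl, smul_eq_mul, mul_one, Pi.zero_apply] at h5
    simpa using h5
  have h4 : ∀ i j, i ≠ j → Z i i = Z j j := by
    intro i j hij
    obtain ⟨P, hP, hc⟩ := Finset.exists_subset_card_eq
      (s := (Finset.univ.erase i).erase j) (n := k-1) (by
        rw [Finset.card_erase_of_mem (Finset.mem_erase.2 ⟨hij.symm, Finset.mem_univ _⟩),
          Finset.card_erase_of_mem (Finset.mem_univ _), Finset.card_univ, Fintype.card_fin]
        omega)
    have jP : j ∉ P := fun hh => (Finset.mem_erase.1 (hP hh)).1 rfl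
    have iP : i ∉ P := fun hh => (Finset.mem_erase.1 (Finset.mem_erase.1 (hP hh)).2).1 rfl
    have e1 := h3 (insert i P) (by rw [Finset.card_insert_of_notMem iP]; omega)
    have e2 := h3 (insert j P) (by rw [Finset.card_insert_of_notMem jP]; omega)
    rw [Finset.sum_insert iP] at e1
    rw [Finset.sum_insert jP] at e2
    linear_combination e1 - e2
  have h5 : ∀ i, Z i i = 0 := by
    intro i
    obtain ⟨P, hP, hc⟩ := Finset.exists_subset_card_eq
      (s := (Finset.univ : Finset (Fin n))) (n := k) (by
        rw [Finset.card_univ, Fintype.card_fin]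
        omega)
    have e1 := h3 P hc
    have e2 : ∑ j ∈ P, Z j j = ∑ j ∈ P, Z i i := by
      refine Finset.sum_congr rfl fun j _ => ?_
      by_cases hij : i = j
      · rw [hij]
      · exact (h4 i j hij).symm
    rw [e2, Finset.sum_const, hc, nsmul_eq_mul] at e1
    have hk0 : (k : ℂ) ≠ 0 := by exact_mod_cast (by omega : k ≠ 0)
    exact (mul_eq_zero.1 e1).resolve_left hk0
  rw [h2]
  ext i j
  by_cases hij : i = j
  · subst hij
    rw [diagonal_apply_eq, h5, Matrix.zero_apply]
  · rw [diagonal_apply_ne _ hij, Matrix.zero_apply]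

end alt

end GH8

end

end Pool.Agent.NH32
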