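import Mathlib
import Pool.Agent.NH32.GsA
import Pool.Agent.Y4.G.Link

/-!
# Project G, job 6: linked idempotents in the special linear case
-/

set_option linter.unusedSectionVars false
set_option linter.unusedVariables false

namespace Pool.Agent.NH32

open Matrix Module

noncomputable section

namespace GJ6

variable {B : Type} [Fintype B] [DecidableEq B] {Om : Matrix B B ℂ}
  {L : Submodule ℂ (Matrix B B ℂ)}

theorem Dr_br {X Y : Matrix B B ℂ} (hX : X ∈ L) (hY : Y ∈ L) : X * Y - Y * X ∈ Dr L :=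
  Submodule.subset_span ⟨X, hX, Y, hY, rfl⟩

theorem Dr_le (hL : LD Om L) : Dr L ≤ L := by
  unfold Dr
  rw [Submodule.span_le]
  rintro _ ⟨A, hA, C, hC, rfl⟩
  exact hL.br A hA C hC

theorem Dr_adj (hL : LD Om L) {Z : Matrix B B ℂ} (hZ : Z ∈ Dr L) : Zᴴ ∈ Dr L := by
  unfold Dr at hZ
  induction hZ using Submodule.span_induction with
  | mem Z h =>
    obtain ⟨A, hA, C, hC, rfl⟩ := h
    rw [conjTranspose_sub, conjTranspose_mul, conjTranspose_mul]
    exact Dr_br (hL.adj C hC) (hL.adj A hA)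
  | zero => rw [conjTranspose_zero]; exact (Dr L).zero_mem
  | add a b _ _ ha hb => rw [conjTranspose_add]; exact (Dr L).add_mem ha hb
  | smul c a _ ha => rw [conjTranspose_smul]; exact (Dr L).smul_mem _ ha

theorem Dr_trace {X M : Matrix B B ℂ} (hX : X ∈ Dr L) (hM : M ∈ CM L) : trace (X * M) = 0 := by
  unfold Dr at hX
  induction hX using Submodule.span_induction with
  | mem Z h =>
    obtain ⟨A, hA, C, hC, rfl⟩ := h
    rw [sub_mul, trace_sub, mul_assoc C A M, hM A hA, ← mul_assoc C M A, trace_mul_comm (C * M) A,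
      ← mul_assoc A C M, mul_assoc A C M, sub_self]
  | zero => rw [zero_mul, trace_zero]
  | add a b _ _ ha hb => rw [add_mul, trace_add, ha, hb, add_zero]
  | smul c a _ ha => rw [Matrix.smul_mul, trace_smul, ha, smul_zero]

/-- The Lie algebra is the sum of its centre and the derived algebra. -/
theorem dec_Dr (hL : LD Om L) {X : Matrix B B ℂ} (hX : X ∈ L) :
    ∃ X' X'' : Matrix B B ℂ, X = X' + X'' ∧ X' ∈ Dr L ∧ X'' ∈ L ∧ X'' ∈ ZM L := by
  obtain ⟨s, hs, ho⟩ := exists_orth (Dr L) X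
  have hY : X - s ∈ L := L.sub_mem hX (Dr_le hL hs)
  have hcomm : ∀ A ∈ L, A * (X - s) = (X - s) * A := by
    intro A hA
    obtain ⟨Y, hYd⟩ : ∃ Y, Y = X - s := ⟨_, rfl⟩
    rw [← hYd] at hY ho ⊢
    rw [← sub_eq_zero]
    apply trace_self_eq_zero
    obtain ⟨Z, hZ⟩ : ∃ Z, Z = A * Y - Y * A := ⟨_, rfl⟩
    have hZS : Z ∈ Dr L := by rw [hZ]; exact Dr_br hA hY
    have h1 := ho _ (Dr_br (hL.adj A hA) (Dr_le hL hZS))
    rw [← h1, ← hZ]
    have h2 : (Aᴴ * Z - Z * Aᴴ)ᴴ = Zᴴ * A - A * Zᴴ := by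
      rw [conjTranspose_sub, conjTranspose_mul, conjTranspose_mul, conjTranspose_conjTranspose]
    rw [h2]
    nth_rewrite 2 [hZ]
    have h3 : trace (Zᴴ * (A * Y - Y * A)) = trace (Zᴴ * A * Y) - trace (Zᴴ * Y * A) := by
      rw [mul_sub, trace_sub, mul_assoc, mul_assoc]
    have h4 : trace ((Zᴴ * A - A * Zᴴ) * Y) = trace (Zᴴ * A * Y) - trace (A * Zᴴ * Y) := by
      rw [sub_mul, trace_sub]
    have h5 : trace (Zᴴ * Y * A) = trace (A * Zᴴ * Y) := by
      rw [trace_mul_comm, mul_assoc]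
    rw [h3, h4, h5]
  exact ⟨s, X - s, by rw [add_sub_cancel], hs, hY, hcomm, fun N hN => (hN _ hY).symm⟩

/-- Hermitian idempotents of the commutant. -/
structure He (L : Submodule ℂ (Matrix B B ℂ)) (e : Matrix B B ℂ) : Prop where
  cm : e ∈ CM L
  sq : e * e = e
  hh : eᴴ = e

theorem He.of {e : Matrix B B ℂ} (h : Mi L e) : He L e := ⟨h.1, h.2.1, h.2.2.1⟩

/-- Decomposition of the derived algebra. -/
theorem dec_Ide (hL : LD Om L) {e : Matrix B B ℂ} (he : He L e) {X : Matrix B B ℂ}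
    (hX : X ∈ Dr L) :
    ∃ X1 X2 : Matrix B B ℂ, X = X1 + X2 ∧ X1 ∈ Ide L e ∧ X2 ∈ Dr L ∧ X2 * e = 0 := by
  obtain ⟨S, hS⟩ : ∃ S : Submodule ℂ (Matrix B B ℂ), ∀ Y, Y ∈ S ↔ (Y ∈ Dr L ∧ Y * e = 0) :=
    ⟨{ carrier := {Y | Y ∈ Dr L ∧ Y * e = 0}
       add_mem' := fun {a b} ha hb => ⟨(Dr L).add_mem ha.1 hb.1, by rw [add_mul, ha.2, hb.2, add_zero]⟩
       zero_mem' := ⟨(Dr L).zero_mem, zero_mul _⟩
       smul_mem' := fun c a ha => ⟨(Dr L).smul_mem _ ha.1, by rw [Matrix.smul_mul, ha.2, smul_zero]⟩ },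
      fun Y => Iff.rfl⟩
  obtain ⟨s, hs, ho⟩ := exists_orth S X
  obtain ⟨hs1, hs2⟩ := (hS s).1 hs
  refine ⟨X - s, s, by rw [sub_add_cancel], ⟨(Dr L).sub_mem hX hs1, fun Y hY hYe => ?_⟩, hs1, hs2⟩
  have h1 : Yᴴ ∈ S := by
    refine (hS _).2 ⟨Dr_adj hL hY, ?_⟩
    have h2 := congrArg Matrix.conjTranspose hYe
    rw [conjTranspose_mul, he.hh, conjTranspose_zero] at h2
    rw [← he.cm _ (Dr_le hL (Dr_adj hL hY))] at h2
    exact h2
  have h2 := ho _ h1
  rw [conjTranspose_conjTranspose, trace_mul_comm] at h2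
  exact h2

theorem mul_zero_adj (hL : LD Om L) {e : Matrix B B ℂ} (he : He L e) {Y : Matrix B B ℂ}
    (hY : Y ∈ Dr L) (h : Y * e = 0) : Yᴴ * e = 0 := by
  have h2 := congrArg Matrix.conjTranspose h
  rw [conjTranspose_mul, he.hh, conjTranspose_zero] at h2
  rw [← he.cm _ (Dr_le hL (Dr_adj hL hY))] at h2
  exact h2

theorem Ide_adj (hL : LD Om L) {e : Matrix B B ℂ} (he : He L e) {X : Matrix B B ℂ}
    (hX : X ∈ Ide L e) : Xᴴ ∈ Ide L e := by
  refine ⟨Dr_adj hL hX.1, fun Y hY hYe => ?_⟩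
  have h1 := hX.2 _ (Dr_adj hL hY) (mul_zero_adj hL he hY hYe)
  have h2 := congrArg star h1
  rw [← trace_conjTranspose, conjTranspose_mul, conjTranspose_conjTranspose, star_zero,
    trace_mul_comm] at h2
  exact h2

theorem Ide_br (hL : LD Om L) {e : Matrix B B ℂ} (he : He L e) {X Z : Matrix B B ℂ}
    (hZ : Z ∈ L) (hX : X ∈ Ide L e) : Z * X - X * Z ∈ Ide L e := by
  refine ⟨Dr_br hZ (Dr_le hL hX.1), fun Y hY hYe => ?_⟩
  have h1 := hX.2 _ (Dr_br (Dr_le hL hY) hZ) (by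
    rw [sub_mul, mul_assoc Y, he.cm Z hZ, ← mul_assoc, hYe, zero_mul, mul_assoc Z, hYe, mul_zero,
      sub_zero])
  rw [← h1, sub_mul, mul_sub, trace_sub, trace_sub]
  have h2 : trace (Z * X * Y) = trace (X * (Y * Z)) := by
    rw [mul_assoc, trace_mul_comm, mul_assoc]
  rw [h2, mul_assoc X Z Y]

theorem Ide_inj (hL : LD Om L) {e : Matrix B B ℂ} (he : He L e) {X : Matrix B B ℂ}
    (hX : X ∈ Ide L e) (h : X * e = 0) : X = 0 := by
  have h1 := hX.2 _ (Dr_adj hL hX.1) (mul_zero_adj hL he hX.1 h)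
  rw [trace_mul_comm] at h1
  exact trace_self_eq_zero h1

theorem ker_eq (hL : LD Om L) {e e' : Matrix B B ℂ} (he : He L e) (he' : He L e')
    (hI : Ide L e' = Ide L e) {Y : Matrix B B ℂ} (hY : Y ∈ Dr L) (h : Y * e = 0) : Y * e' = 0 := by
  obtain ⟨Y1, Y2, h1, h2, h3, h4⟩ := dec_Ide hL he' hY
  have h5 : Y1 = 0 := by
    apply trace_self_eq_zero
    have h6 : Y1 = Y - Y2 := by rw [h1, add_sub_cancel_right]
    nth_rewrite 2 [h6]
    rw [mul_sub, trace_sub]
    have h7 : trace (Y1ᴴ * Y) = 0 := by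
      have h8 := Ide_adj hL he' h2
      rw [hI] at h8
      exact h8.2 Y hY h
    have h8 : trace (Y1ᴴ * Y2) = 0 := (Ide_adj hL he' h2).2 Y2 h3 h4
    rw [h7, h8, sub_zero]
  rw [h1, h5, zero_add, h4]

theorem st_mul_Om (hO : IsOm Om) {Y : Matrix B B ℂ} (hY : Yᵀ * Om + Om * Y = 0) :
    Y * Om = -(Om * Yᵀ) := by
  have h1 : Om * Y = -(Yᵀ * Om) := by rw [eq_neg_iff_add_eq_zero, add_comm]; exact hY
  have h2 : Om * (Om * Y) * Om = Om * (-(Yᵀ * Om)) * Om := by rw [h1]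
  rw [← mul_assoc Om Om Y, hO.sq, neg_mul, one_mul, neg_mul, mul_neg, neg_mul, mul_assoc Om,
    mul_assoc Yᵀ, hO.sq, mul_neg, mul_one, mul_neg, neg_neg] at h2
  rw [← h2, neg_neg]

theorem star_Om (hO : IsOm Om) : Omᴴ = -Om := by
  have h1 : Omᴴ = (Om.map (starRingEnd ℂ))ᵀ := rfl
  rw [h1, hO.real, hO.T]

theorem main (hO : IsOm Om) (hL : LD Om L) {e e' : Matrix B B ℂ} (hs : Sl L e) (hs' : Sl L e')
    (hI : Ide L e' = Ide L e) : ∃ M : Matrix B B ℂ, M ≠ 0 ∧ e * M = M ∧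
      (∀ X ∈ Dr L, X * M = M * X) ∧ (M * e' = M ∨ M * st Om e' = M) := by
  have he := He.of hs.1
  have he' := He.of hs'.1
  have hc : ∀ X ∈ Dr L, X * e = e * X := fun X hX => he.cm X (Dr_le hL hX)
  have hc' : ∀ X ∈ Dr L, X * e' = e' * X := fun X hX => he'.cm X (Dr_le hL hX)
  let Φ : Matrix B B ℂ →ₗ[ℂ] (Matrix B B ℂ × Matrix B B ℂ) :=
    { toFun := fun X => (X * e, X * e')
      map_add' := fun X Y => by
        ext1
        · exact add_mul _ _ _
        · exact add_mul _ _ _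
      map_smul' := fun c X => by
        ext1
        · exact Matrix.smul_mul _ _ _
        · exact Matrix.smul_mul _ _ _ }
  have hΦ : ∀ X, Φ X = (X * e, X * e') := fun X => rfl
  have hbr : ∀ (f X Z : Matrix B B ℂ), f * f = f → X * f = f * X → Z * f = f * Z →
      X * f * (Z * f) - Z * f * (X * f) = (X * Z - Z * X) * f := by
    intro f X Z hf hX hZ
    have h1 : ∀ P Q : Matrix B B ℂ, Q * f = f * Q → P * f * (Q * f) = P * Q * f := by
      intro P Q hQ
      rw [mul_assoc P f, ← mul_assoc f Q f, ← hQ, mul_assoc Q f f, hf, mul_assoc]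
    rw [h1 X Z hZ, h1 Z X hX, sub_mul]
  have H : Y4.G.Link ((Ide L e).map Φ) e e' := by
    refine ⟨?_, ?_, ?_, ?_, ?_, ?_, ?_, ?_, ?_, ?_, ?_, ?_, he.sq, he.hh, he'.sq, he'.hh⟩
    · rintro _ ⟨X, hX, rfl⟩ _ ⟨Z, hZ, rfl⟩
      refine ⟨X * Z - Z * X, Ide_br hL he (Dr_le hL hX.1) hZ, ?_⟩
      rw [hΦ, hΦ, hΦ]
      ext1
      · exact (hbr e X Z he.sq (hc X hX.1) (hc Z hZ.1)).symm
      · exact (hbr e' X Z he'.sq (hc' X hX.1) (hc' Z hZ.1)).symm
    · rintro _ ⟨X, hX, rfl⟩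
      have h1 := Ide_adj hL he hX
      refine ⟨Xᴴ, h1, ?_⟩
      rw [hΦ, hΦ]
      ext1
      · change Xᴴ * e = (X * e)ᴴ
        rw [conjTranspose_mul, he.hh, hc _ h1.1]
      · change Xᴴ * e' = (X * e')ᴴ
        rw [conjTranspose_mul, he'.hh, hc' _ h1.1]
    · rintro _ ⟨X, hX, rfl⟩
      change e * (X * e) = X * e
      rw [← mul_assoc, ← hc X hX.1, mul_assoc, he.sq]
    · rintro _ ⟨X, hX, rfl⟩
      change X * e * e = X * e
      rw [mul_assoc, he.sq]
    · rintro _ ⟨X, hX, rfl⟩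
      change e' * (X * e') = X * e'
      rw [← mul_assoc, ← hc' X hX.1, mul_assoc, he'.sq]
    · rintro _ ⟨X, hX, rfl⟩
      change X * e' * e' = X * e'
      rw [mul_assoc, he'.sq]
    · rintro _ ⟨X, hX, rfl⟩
      exact Dr_trace hX.1 he.cm
    · rintro _ ⟨X, hX, rfl⟩
      exact Dr_trace hX.1 he'.cm
    · intro v l hv hl hlv
      obtain ⟨X, hX, hXe⟩ := hs.2.2 (vecMulVec v l) (by
        rw [mul_vecMulVec, vecMulVec_mul, hv, hl]) (by
        rw [trace_vecMulVec, dotProduct_comm, hlv])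
      obtain ⟨X1, X2, h1, h2, -, h4⟩ := dec_Ide hL he hX
      refine ⟨X1 * e', X1, h2, ?_⟩
      rw [hΦ, ← hXe, h1, add_mul, h4, add_zero]
    · intro v l hv hl hlv
      obtain ⟨X, hX, hXe⟩ := hs'.2.2 (vecMulVec v l) (by
        rw [mul_vecMulVec, vecMulVec_mul, hv, hl]) (by
        rw [trace_vecMulVec, dotProduct_comm, hlv])
      obtain ⟨X1, X2, h1, h2, -, h4⟩ := dec_Ide hL he' hX
      rw [hI] at h2
      refine ⟨X1 * e, X1, h2, ?_⟩
      rw [hΦ, ← hXe, h1, add_mul, h4, add_zero]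
    · rintro _ ⟨X, hX, rfl⟩ h
      have h1 : X = 0 := Ide_inj hL he hX h
      rw [h1, map_zero]
      rfl
    · rintro _ ⟨X, hX, rfl⟩ h
      have hX' := hX
      rw [SetLike.mem_coe, ← hI] at hX'
      have h1 : X = 0 := Ide_inj hL he' hX' h
      rw [h1, map_zero]
      rfl
  obtain ⟨r, P, Q, h1, h2⟩ := WJ2.idem_fac he.sq
  have htr : trace e = r := by
    rw [← h1, trace_mul_comm, h2, trace_one, Fintype.card_fin]
  have hr : 2 ≤ r := by
    rcases r with _ | _ | r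
    · exfalso
      apply hs.1.2.2.2.1
      rw [← h1]
      ext i j
      rw [Matrix.mul_apply, Finset.univ_eq_empty, Finset.sum_empty]
      rfl
    · exfalso
      apply hs.2.1
      rw [htr]
      simp
    · omega
  obtain ⟨a, b, hab⟩ : ∃ a b : Fin r, a ≠ b := ⟨⟨0, by omega⟩, ⟨1, by omega⟩, by
    intro h
    have := congrArg Fin.val h
    simp at this⟩
  have hw : e *ᵥ (P *ᵥ Pi.single a 1) = P *ᵥ Pi.single a 1 := by
    rw [← h1, mulVec_mulVec, Matrix.mul_assoc, h2, Matrix.mul_one]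
  have hl : (Pi.single b 1 ᵥ* Q) ᵥ* e = Pi.single b 1 ᵥ* Q := by
    rw [← h1, vecMul_vecMul, ← Matrix.mul_assoc, h2, Matrix.one_mul]
  have hlw : (Pi.single b 1 ᵥ* Q) ⬝ᵥ (P *ᵥ Pi.single a 1) = 0 := by
    rw [← dotProduct_mulVec, mulVec_mulVec, h2, one_mulVec, single_one_dotProduct,
      Pi.single_eq_of_ne (Ne.symm hab)]
  have hw0 : P *ᵥ Pi.single a 1 ≠ 0 := by
    intro h
    have h3 : Q *ᵥ (P *ᵥ Pi.single a 1) = Pi.single a 1 := by
      rw [mulVec_mulVec, h2, one_mulVec]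
    rw [h, mulVec_zero] at h3
    have h4 := congrFun h3 a
    rw [Pi.single_eq_same] at h4
    exact zero_ne_one h4
  have hl0 : Pi.single b 1 ᵥ* Q ≠ 0 := by
    intro h
    have h3 : (Pi.single b 1 ᵥ* Q) ᵥ* P = Pi.single b 1 := by
      rw [vecMul_vecMul, h2, vecMul_one]
    rw [h, zero_vecMul] at h3
    have h4 := congrFun h3 b
    rw [Pi.single_eq_same] at h4
    exact zero_ne_one h4
  -- from the ideal to the derived algebra
  have hext : ∀ M : Matrix B B ℂ, (∀ X ∈ Ide L e, X * M = M * X) →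
      (∀ Y ∈ Dr L, Y * e = 0 → Y * M = 0 ∧ M * Y = 0) → ∀ X ∈ Dr L, X * M = M * X := by
    intro M hM hM' X hX
    obtain ⟨X1, X2, h3, h4, h5, h6⟩ := dec_Ide hL he hX
    obtain ⟨h7, h8⟩ := hM' X2 h5 h6
    rw [h3, add_mul, mul_add, hM X1 h4, h7, h8]
  rcases H.main hl hw hlw hw0 hl0 hs'.1.2.2.2.1 with ⟨T, hT0, hT1, hT2, hT3⟩ | ⟨T, hT0, hT1, hT2, hT3⟩
  · have k1 : e * Tᴴ = Tᴴ := by
      rw [← he.hh, ← conjTranspose_mul, hT2]
    have k2 : Tᴴ * e' = Tᴴ := by
      rw [← he'.hh, ← conjTranspose_mul, hT1]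
    refine ⟨Tᴴ, ?_, k1, hext _ ?_ ?_, Or.inl k2⟩
    · intro h
      apply hT0
      rw [← conjTranspose_conjTranspose T, h, conjTranspose_zero]
    · intro X hX
      have h3 := hT3 (Xᴴ * e, Xᴴ * e') ⟨Xᴴ, Ide_adj hL he hX, rfl⟩
      dsimp only at h3
      have h4 := congrArg Matrix.conjTranspose h3
      rw [conjTranspose_mul, conjTranspose_mul, conjTranspose_mul, conjTranspose_mul,
        conjTranspose_conjTranspose, he.hh, he'.hh, ← mul_assoc, k2, ← hc X hX.1, mul_assoc,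
        k1] at h4
      exact h4.symm
    · intro Y hY hYe
      have h3 := ker_eq hL he he' hI hY hYe
      constructor
      · rw [← k1, ← mul_assoc, hYe, zero_mul]
      · rw [← k2, mul_assoc, ← hc' Y hY, h3, mul_zero]
  · have hOm : Om * Om = -1 := hO.sq
    have hst : (st Om e')ᴴ = st Om e' := by
      unfold st
      rw [conjTranspose_neg, conjTranspose_mul, conjTranspose_mul, star_Om hO]
      have h3 : e'ᵀᴴ = e'ᵀ := by
        change (e'ᴴ)ᵀ = e'ᵀ
        rw [he'.hh]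
      rw [h3]
      noncomm_ring
    obtain ⟨N, hN⟩ : ∃ N, N = Om * T := ⟨_, rfl⟩
    have q1 : st Om e' * N = N := by
      unfold st
      rw [hN, neg_mul, mul_assoc, ← mul_assoc Om Om T, hOm, neg_mul, one_mul, mul_neg, neg_neg,
        mul_assoc, hT1]
    have q2 : N * e = N := by rw [hN, mul_assoc, hT2]
    have k1 : e * Nᴴ = Nᴴ := by
      nth_rewrite 1 [← he.hh]
      rw [← conjTranspose_mul, q2]
    have k2 : Nᴴ * st Om e' = Nᴴ := by
      nth_rewrite 1 [← hst]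
      rw [← conjTranspose_mul, q1]
    have q3 : ∀ X ∈ Ide L e, X * N = N * X := by
      intro X hX
      have h3 := hT3 (X * e, X * e') ⟨X, hX, rfl⟩
      dsimp only at h3
      have h4 := st_mul_Om hO (hL.sp X (Dr_le hL hX.1))
      have h5 : (X * e')ᵀ * T = Xᵀ * T := by
        rw [hc' X hX.1, transpose_mul, mul_assoc, hT1]
      have h6 : T * (X * e) = T * X := by
        rw [hc X hX.1, ← mul_assoc, hT2]
      rw [neg_mul, h5, h6] at h3
      rw [hN, mul_assoc, ← h3, ← mul_assoc, h4, neg_mul, mul_neg, mul_assoc]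
    have q4 : ∀ Y ∈ Dr L, Y * e = 0 → Y * st Om e' = 0 := by
      intro Y hY hYe
      have h3 := ker_eq hL he he' hI hY hYe
      have h4 := st_mul_Om hO (hL.sp Y (Dr_le hL hY))
      unfold st
      rw [mul_neg, neg_eq_zero, ← mul_assoc, ← mul_assoc, h4,
        neg_mul, neg_mul, neg_eq_zero, mul_assoc Om, ← transpose_mul, ← hc' Y hY, h3,
        transpose_zero, mul_zero, zero_mul]
    refine ⟨Nᴴ, ?_, k1, hext _ ?_ ?_, Or.inr k2⟩
    · intro h
      apply hT0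
      have h3 : Om * T = 0 := by
        rw [← hN, ← conjTranspose_conjTranspose N, h, conjTranspose_zero]
      have h4 : Om * (Om * T) = 0 := by rw [h3, mul_zero]
      rw [← mul_assoc, hOm, neg_mul, one_mul, neg_eq_zero] at h4
      exact h4
    · intro X hX
      have h3 := q3 _ (Ide_adj hL he hX)
      have h4 := congrArg Matrix.conjTranspose h3
      rw [conjTranspose_mul, conjTranspose_mul, conjTranspose_conjTranspose] at h4
      exact h4.symm
    · intro Y hY hYe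
      have h4 := q4 _ (Dr_adj hL hY) (mul_zero_adj hL he hY hYe)
      have h5 := congrArg Matrix.conjTranspose h4
      rw [conjTranspose_mul, conjTranspose_conjTranspose, conjTranspose_zero, hst] at h5
      constructor
      · rw [← k1, ← mul_assoc, hYe, zero_mul]
      · rw [← k2, mul_assoc, h5, mul_zero]

end GJ6

theorem link_of : St_link := by
  intro B _ _ Om L hO hL e e' hs hs' hI
  exact GJ6.main hO hL hs hs' hI

end

end Pool.Agent.NH32
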