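import Mathlib
import Pool.Agent.NH32.GJ6

/-!
# Project G, job 7: intertwiners for the derived algebra and relations with two lines
-/

set_option linter.unusedSectionVars false
set_option linter.unusedVariables false

namespace Pool.Agent.NH32

open Matrix Module

noncomputable section

namespace GJ7

open GJ6

variable {B : Type} [Fintype B] [DecidableEq B]

theorem kp_re {κ κ' : Type} [Fintype κ] [DecidableEq κ] [Fintype κ'] [DecidableEq κ']
    (e : κ ≃ κ') (u : Matrix B B ℂ) (c : (κ' → B) → ℂ) :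
    kp κ u *ᵥ (fun I : κ → B => c (fun k => I (e.symm k))) =
      fun I : κ → B => (kp κ' u *ᵥ c) (fun k => I (e.symm k)) := by
  funext I
  rw [mvA, mvA, ← Equiv.sum_comp (Equiv.arrowCongr e (Equiv.refl B))]
  refine Finset.sum_congr rfl fun J _ => ?_
  rw [kp_apply, kp_apply, ← Equiv.prod_comp e.symm]
  rfl

theorem fixes {L : Submodule ℂ (Matrix B B ℂ)} {κ κ' : Type} [Fintype κ] [DecidableEq κ]
    [Fintype κ'] [DecidableEq κ'] (e : κ ≃ κ') {u : Matrix B B ℂ}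
    (h : ∀ x ∈ InvL L κ, kp κ u *ᵥ x = x) : ∀ x ∈ InvL L κ', kp κ' u *ᵥ x = x := by
  intro x hx
  have h1 : (fun I : κ → B => x (fun k => I (e.symm k))) ∈ InvL L κ := by
    rw [mem_InvL] at hx ⊢
    intro X hX
    rw [WJ1.dm_re, hx X hX]
    rfl
  have h2 := h _ h1
  rw [kp_re] at h2
  funext J
  have h3 := congrFun h2 (fun k => J (e k))
  simp only [Equiv.apply_symm_apply] at h3
  exact h3

variable {Om : Matrix B B ℂ} {L : Submodule ℂ (Matrix B B ℂ)}

theorem kp_ph (hO : IsOm Om) (u : USp Om) (X : Matrix B B ℂ) :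
    kp (Fin 1 ⊕ Fin 1) (mt u) *ᵥ WJ1.ph Om X = WJ1.ph Om (mt u * X * mt u⁻¹) := by
  rw [WJ1.ph_eq, kp_flat_Om hO, ← kp_mul, ← kp_mul, WJ1.ph_eq]

/-- An element which fixes the invariants of degree two commutes with the commutant. -/
theorem comm_f2 (hO : IsOm Om) (hL : LD Om L) {u : USp Om}
    (h : ∀ x ∈ InvL L (Fin 2), kp (Fin 2) (mt u) *ᵥ x = x) {M : Matrix B B ℂ} (hM : M ∈ CM L) :
    mt u * M = M * mt u := by
  have h1 := fixes (finSumFinEquiv (m := 1) (n := 1)).symm h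
  have h2 : WJ1.ph Om M ∈ InvL L (Fin 1 ⊕ Fin 1) := by
    rw [mem_InvL]
    intro X hX
    rw [WJ1.dm_ph hO (hL.sp X hX), hM X hX, sub_self, map_zero]
  have h3 := h1 _ h2
  rw [kp_ph hO] at h3
  have h4 := WJ1.ph_inj hO h3
  have h5 : mt u * M * mt u⁻¹ * mt u = M * mt u := by rw [h4]
  rw [mul_assoc, mt_inv_mul, mul_one] at h5
  exact h5

/-- The tensor product of two tensors of degree two. -/
def pp (x y : (Fin 1 ⊕ Fin 1 → B) → ℂ) : ((Fin 1 ⊕ Fin 1) ⊕ (Fin 1 ⊕ Fin 1) → B) → ℂ :=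
  flat (vecMulVec x y)

theorem pp_apply (x y : (Fin 1 ⊕ Fin 1 → B) → ℂ) (S : (Fin 1 ⊕ Fin 1) ⊕ (Fin 1 ⊕ Fin 1) → B) :
    pp x y S = x (fun k => S (Sum.inl k)) * y (fun k => S (Sum.inr k)) := rfl

theorem dm_tr {κ : Type} [Fintype κ] [DecidableEq κ] (X : Matrix B B ℂ) :
    (dm κ X)ᵀ = dm κ Xᵀ := by
  unfold dm kd
  rw [transpose_sum]
  refine Finset.sum_congr rfl fun k _ => ?_
  rw [kpp_transpose]
  congr 1
  funext l
  by_cases hl : l = k
  · subst hl
    rw [Function.update_self, Function.update_self]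
  · rw [Function.update_of_ne hl, Function.update_of_ne hl, transpose_one]

theorem kp_pp (u : Matrix B B ℂ) (x y : (Fin 1 ⊕ Fin 1 → B) → ℂ) :
    kp _ u *ᵥ pp x y = pp (kp _ u *ᵥ x) (kp _ u *ᵥ y) := by
  unfold pp
  rw [kp_flat, ← kp_transpose, mul_vecMulVec, vecMulVec_mul, vecMul_transpose]

theorem dm_pp (X : Matrix B B ℂ) (x y : (Fin 1 ⊕ Fin 1 → B) → ℂ) :
    dm _ X *ᵥ pp x y = pp (dm _ X *ᵥ x) y + pp x (dm _ X *ᵥ y) := by
  unfold pp
  rw [dm_flat, ← dm_tr, mul_vecMulVec, vecMulVec_mul, vecMul_transpose]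
  rfl

theorem pp_smul_l (c : ℂ) (x y : (Fin 1 ⊕ Fin 1 → B) → ℂ) : pp (c • x) y = c • pp x y := by
  funext S
  rw [pp_apply, Pi.smul_apply, Pi.smul_apply, pp_apply, smul_eq_mul, smul_eq_mul, mul_assoc]

theorem pp_smul_r (c : ℂ) (x y : (Fin 1 ⊕ Fin 1 → B) → ℂ) : pp x (c • y) = c • pp x y := by
  funext S
  rw [pp_apply, Pi.smul_apply, Pi.smul_apply, pp_apply, smul_eq_mul, smul_eq_mul, mul_left_comm]

theorem pp_ne {x y : (Fin 1 ⊕ Fin 1 → B) → ℂ} (hx : x ≠ 0) (hy : y ≠ 0) : pp x y ≠ 0 := by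
  obtain ⟨I, hI⟩ := Function.ne_iff.1 hx
  obtain ⟨J, hJ⟩ := Function.ne_iff.1 hy
  intro h
  have h1 := congrFun h (Sum.elim I J)
  rw [pp_apply] at h1
  exact mul_ne_zero hI hJ h1

/-- Lines. -/
theorem line_sc {e X : Matrix B B ℂ} (h2 : e * e = e) (ht : trace e = 1) (hX : X * e = e * X) :
    X * e = trace (X * e) • e := by
  obtain ⟨r, P, Q, h3, h4⟩ := WJ2.idem_fac h2
  have htr : trace e = r := by
    rw [← h3, trace_mul_comm, h4, trace_one, Fintype.card_fin]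
  have hr : r = 1 := by
    rw [ht] at htr
    exact_mod_cast htr.symm
  subst hr
  have h5 : ∀ W : Matrix (Fin 1) (Fin 1) ℂ, W = trace W • (1 : Matrix (Fin 1) (Fin 1) ℂ) := by
    intro W
    ext i j
    rw [Subsingleton.elim i 0, Subsingleton.elim j 0]
    simp [trace]
  have h6 : X * e = P * (Q * X * P) * Q := by
    calc X * e = X * (e * e) := by rw [h2]
      _ = e * X * e := by rw [← mul_assoc, hX]
      _ = P * (Q * X * P) * Q := by
        rw [← h3]
        simp only [Matrix.mul_assoc]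
  have h7 : trace (X * e) = trace (Q * X * P) := by
    rw [← h3, ← Matrix.mul_assoc, trace_mul_comm, ← Matrix.mul_assoc]
  rw [h7, h6, h5 (Q * X * P), Matrix.mul_smul, Matrix.smul_mul, Matrix.mul_one, h3]
  simp [trace]

theorem ce_scal {e z : Matrix B B ℂ} (he : Mi L e) (hz : z ∈ CM L) (hc : e * z = z * e) :
    z * e = fc e z • e := by
  obtain ⟨c, h1⟩ := he.2.2.2.2 z hz
  have h2 : z * e = c • e := by
    rw [← h1, hc, mul_assoc, he.2.1]
  obtain ⟨r, h3, h4, -⟩ := WJ2.idem_trace he.2.1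
  have h5 := h4 he.2.2.2.1
  have h6 : trace e ≠ 0 := by
    rw [h3]
    exact_mod_cast h5.ne'
  unfold fc
  rw [h2, trace_smul, smul_eq_mul, mul_div_assoc, div_self h6, mul_one]

theorem fc_Dr {e X : Matrix B B ℂ} (he : e ∈ CM L) (hX : X ∈ Dr L) : fc e X = 0 := by
  unfold fc
  rw [Dr_trace hX he, zero_div]

theorem fc_add (e X Y : Matrix B B ℂ) : fc e (X + Y) = fc e X + fc e Y := by
  unfold fc
  rw [add_mul, trace_add, add_div]

theorem fc_smul (e X : Matrix B B ℂ) (c : ℂ) : fc e (c • X) = c * fc e X := by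
  unfold fc
  rw [Matrix.smul_mul, trace_smul, smul_eq_mul, mul_div_assoc]

theorem fc_neg (e X : Matrix B B ℂ) : fc e (-X) = -fc e X := by
  unfold fc
  rw [neg_mul, trace_neg, neg_div]

theorem tr_ne {e : Matrix B B ℂ} (he : Mi L e) : trace e ≠ 0 := by
  obtain ⟨r, h3, h4, -⟩ := WJ2.idem_trace he.2.1
  rw [h3]
  exact_mod_cast (h4 he.2.2.2.1).ne'

/-- Intertwiners. -/
theorem itw (hL : LD Om L) {e e' M : Matrix B B ℂ} (he : Mi L e) (he' : Mi L e')
    (h1 : e * M = M) (h2 : M * e' = M) (hM : ∀ X ∈ Dr L, X * M = M * X) {X : Matrix B B ℂ}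
    (hX : X ∈ L) : X * M = M * X + (fc e X - fc e' X) • M := by
  obtain ⟨X', X'', h3, h4, h5, h6⟩ := dec_Dr hL hX
  have h7 := ce_scal he h6.1 (h6.2 e he.1)
  have h8 := ce_scal he' h6.1 (h6.2 e' he'.1)
  have h9 : X'' * M = fc e X'' • M := by
    calc X'' * M = X'' * e * M := by rw [mul_assoc, h1]
      _ = _ := by rw [h7, Matrix.smul_mul, h1]
  have h10 : M * X'' = fc e' X'' • M := by
    calc M * X'' = M * (e' * X'') := by rw [← mul_assoc, h2]
      _ = _ := by rw [h6.2 e' he'.1, h8, Matrix.mul_smul, h2]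
  rw [h3, add_mul, mul_add, hM X' h4, h9, h10, fc_add, fc_add, fc_Dr he.1 h4, fc_Dr he'.1 h4,
    zero_add, zero_add, sub_smul]
  abel

/-- The values of the differences at involutions. -/
theorem del {D M : Matrix B B ℂ} (hM : M ≠ 0) (hD : D * D = 1) {δ : ℂ}
    (h : D * M = M * D + δ • M) : δ = 0 ∨ δ = 2 ∨ δ = -2 := by
  by_cases h0 : δ = 0
  · exact Or.inl h0
  right
  have h1 : D * M = M * (D + δ • 1) := by
    rw [mul_add, Matrix.mul_smul, mul_one]
    exact h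
  have h2 : M = M * ((D + δ • 1) * (D + δ • 1)) := by
    calc M = D * (D * M) := by rw [← mul_assoc, hD, one_mul]
      _ = D * (M * (D + δ • 1)) := by rw [← h1]
      _ = D * M * (D + δ • 1) := (mul_assoc _ _ _).symm
      _ = M * (D + δ • 1) * (D + δ • 1) := by rw [h1]
      _ = _ := mul_assoc _ _ _
  have h3 : (D + δ • (1 : Matrix B B ℂ)) * (D + δ • 1) = 1 + (2 * δ) • D + (δ * δ) • 1 := by
    rw [add_mul, mul_add, mul_add, hD]
    simp only [Matrix.mul_smul, Matrix.smul_mul, mul_one, one_mul, smul_smul]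
    module
  rw [h3] at h2
  have h4 : M * ((2 * δ) • D + (δ * δ) • 1) = 0 := by
    have h5 : M * (1 + (2 * δ) • D + (δ * δ) • 1) = M + M * ((2 * δ) • D + (δ * δ) • 1) := by
      rw [add_assoc, mul_add M 1, mul_one]
    rw [h5] at h2
    exact left_eq_add.1 h2
  have h5 : M * D = (-(δ / 2)) • M := by
    have h6 : M * ((2 * δ) • D + (δ * δ) • 1) = (2 * δ) • (M * D + (δ / 2) • M) := by
      rw [mul_add, Matrix.mul_smul, Matrix.mul_smul, mul_one, smul_add, smul_smul]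
      congr 2
      ring
    rw [h6] at h4
    have h7 := (smul_eq_zero.1 h4).resolve_left (mul_ne_zero two_ne_zero h0)
    rw [neg_smul]
    exact eq_neg_of_add_eq_zero_left h7
  have h6 : M = (δ ^ 2 / 4) • M := by
    calc M = M * D * D := by rw [mul_assoc, hD, mul_one]
      _ = _ := by
        rw [h5, Matrix.smul_mul, h5, smul_smul]
        congr 1
        ring
  have h7 : (1 - δ ^ 2 / 4) • M = 0 := by
    rw [sub_smul, one_smul, ← h6, sub_self]
  have h8 := (smul_eq_zero.1 h7).resolve_right hM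
  have h9 : (δ - 2) * (δ + 2) = 0 := by linear_combination (-4) * h8
  rcases mul_eq_zero.1 h9 with h | h
  · exact Or.inl (sub_eq_zero.1 h)
  · exact Or.inr (eq_neg_of_add_eq_zero_left h)

/-- Signs of lines. -/
theorem sgn {D G : Matrix B B ℂ} (hG : G ≠ 0) (hD : D * D = 1) {c : ℂ} (h : D * G = c • G) :
    c = 1 ∨ c = -1 := by
  have h1 : G = (c * c) • G := by
    calc G = D * (D * G) := by rw [← mul_assoc, hD, one_mul]
      _ = _ := by rw [h, Matrix.mul_smul, h, smul_smul]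
  have h2 : (1 - c * c) • G = 0 := by rw [sub_smul, one_smul, ← h1, sub_self]
  have h3 := (smul_eq_zero.1 h2).resolve_right hG
  have h4 : (c - 1) * (c + 1) = 0 := by linear_combination -h3
  rcases mul_eq_zero.1 h4 with h | h
  · exact Or.inl (sub_eq_zero.1 h)
  · exact Or.inr (eq_neg_of_add_eq_zero_left h)

theorem main (hO : IsOm Om) (hL : LD Om L) {Dm : (ℂ ≃+* ℂ) → Matrix B B ℂ} (H : Hull L Dm)
    {v : USp Om} (hv : FixU Om L v) {e e' M : Matrix B B ℂ} {a a' : ℂ} (he : Mi L e)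
    (he' : Mi L e') (hM0 : M ≠ 0) (h1 : e * M = M) (h2 : M * e' = M)
    (hM : ∀ X ∈ Dr L, X * M = M * X) (hve : mt v * e = a • e) (hve' : mt v * e' = a' • e') :
    ∃ (F F' : Matrix B B ℂ) (b b' : ℂ), Li L F ∧ Li L F' ∧ mt v * F = b • F ∧
    mt v * F' = b' • F' ∧ (∀ X ∈ L, fc e X + fc F X + fc F' X = fc e' X) ∧ a * b * b' = a' := by
  obtain ⟨G, hG⟩ := H.one
  have hGl : ∀ σ, Dm σ * G = trace (Dm σ * G) • G := fun σ =>
    line_sc hG.1.2.1 hG.2 (hG.1.1 _ (H.mem σ))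
  have hGs : ∀ σ, trace (Dm σ * G) = 1 ∨ trace (Dm σ * G) = -1 := fun σ =>
    sgn hG.1.2.2.2.1 (H.sq σ) (hGl σ)
  obtain ⟨δ, hδ⟩ : ∃ δ : (ℂ ≃+* ℂ) → ℂ, ∀ σ, δ σ = fc e (Dm σ) - fc e' (Dm σ) :=
    ⟨fun σ => fc e (Dm σ) - fc e' (Dm σ), fun σ => rfl⟩
  have hδ3 : ∀ σ, δ σ = 0 ∨ δ σ = 2 ∨ δ σ = -2 := fun σ =>
    del hM0 (H.sq σ) (by rw [hδ]; exact itw hL he he' h1 h2 hM (H.mem σ))
  have hδo : ∀ σ, δ (cj.trans σ) = -δ σ := by
    intro σ
    rw [hδ, hδ, H.odd, fc_neg, fc_neg]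
    ring
  have hgo : ∀ σ, trace (Dm (cj.trans σ) * G) = -trace (Dm σ * G) := by
    intro σ
    rw [H.odd, neg_mul, trace_neg]
  have hdep : ∀ σ τ, (∀ e, Mi L e → trace (Dm σ * e) = trace (Dm τ * e)) →
      δ σ = δ τ ∧ trace (Dm σ * G) = trace (Dm τ * G) := by
    intro σ τ h
    refine ⟨?_, h G hG.1⟩
    rw [hδ, hδ]
    unfold fc
    rw [h e he, h e' he']
  classical
  obtain ⟨F, hF⟩ : ∃ F : (ℂ ≃+* ℂ) → ℤ, ∀ σ, F σ = if δ σ = 2 then -1 else if δ σ = -2 then 1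
    else if trace (Dm σ * G) = 1 then 1 else -1 := ⟨_, fun σ => rfl⟩
  obtain ⟨F', hF'⟩ : ∃ F' : (ℂ ≃+* ℂ) → ℤ, ∀ σ, F' σ = if δ σ = 2 then -1 else if δ σ = -2 then 1
    else if trace (Dm σ * G) = 1 then -1 else 1 := ⟨_, fun σ => rfl⟩
  have n1 : (2 : ℂ) ≠ -2 := by norm_num
  have n2 : (-2 : ℂ) ≠ 2 := by norm_num
  have n3 : (0 : ℂ) ≠ 2 := by norm_num
  have n4 : (0 : ℂ) ≠ -2 := by norm_num
  have n5 : (-1 : ℂ) ≠ 1 := by norm_num
  have kF : ∀ σ, ((F σ : ℂ) = if δ σ = 2 then -1 else if δ σ = -2 then 1 else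
      trace (Dm σ * G)) := by
    intro σ
    rw [hF]
    split_ifs with k1 k2 k3
    · push_cast; rfl
    · push_cast; rfl
    · rw [k3]; push_cast; rfl
    · rcases hGs σ with h | h
      · exact absurd h k3
      · rw [h]; push_cast; rfl
  have kF' : ∀ σ, ((F' σ : ℂ) = if δ σ = 2 then -1 else if δ σ = -2 then 1 else
      -trace (Dm σ * G)) := by
    intro σ
    rw [hF']
    split_ifs with k1 k2 k3
    · push_cast; rfl
    · push_cast; rfl
    · rw [k3]; push_cast; rfl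
    · rcases hGs σ with h | h
      · exact absurd h k3
      · rw [h]; push_cast; ring
  have pF : ∀ σ, F σ = 1 ∨ F σ = -1 := by
    intro σ
    rw [hF]
    split_ifs <;> simp
  have pF' : ∀ σ, F' σ = 1 ∨ F' σ = -1 := by
    intro σ
    rw [hF']
    split_ifs <;> simp
  have oF : ∀ σ, F (cj.trans σ) = -F σ := by
    intro σ
    have h3 : ((F (cj.trans σ) : ℤ) : ℂ) = ((-F σ : ℤ) : ℂ) := by
      rw [Int.cast_neg, kF, kF, hδo, hgo]
      rcases hδ3 σ with h | h | h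
      · rw [h, neg_zero, if_neg n3, if_neg n4, if_neg n3, if_neg n4]
      · rw [h, if_neg n2, if_pos rfl, if_pos rfl, neg_neg]
      · rw [h, neg_neg, if_pos rfl, if_neg n2, if_pos rfl]
    exact_mod_cast h3
  have oF' : ∀ σ, F' (cj.trans σ) = -F' σ := by
    intro σ
    have h3 : ((F' (cj.trans σ) : ℤ) : ℂ) = ((-F' σ : ℤ) : ℂ) := by
      rw [Int.cast_neg, kF', kF', hδo, hgo]
      rcases hδ3 σ with h | h | h
      · rw [h, neg_zero, if_neg n3, if_neg n4, if_neg n3, if_neg n4]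
      · rw [h, if_neg n2, if_pos rfl, if_pos rfl, neg_neg]
      · rw [h, neg_neg, if_pos rfl, if_neg n2, if_pos rfl]
    exact_mod_cast h3
  obtain ⟨F1, hF1, hF1s⟩ := H.hull F pF oF (fun σ τ h => by
    obtain ⟨h3, h4⟩ := hdep σ τ h
    rw [hF, hF, h3, h4])
  obtain ⟨F2, hF2, hF2s⟩ := H.hull F' pF' oF' (fun σ τ h => by
    obtain ⟨h3, h4⟩ := hdep σ τ h
    rw [hF', hF', h3, h4])
  have hrel : ∀ X ∈ L, fc e X + fc F1 X + fc F2 X = fc e' X := by
    obtain ⟨N, hN⟩ : ∃ N : Submodule ℂ (Matrix B B ℂ), ∀ X, X ∈ N ↔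
        (X ∈ L ∧ fc e X + fc F1 X + fc F2 X = fc e' X) :=
      ⟨{ carrier := {X | X ∈ L ∧ fc e X + fc F1 X + fc F2 X = fc e' X}
         add_mem' := by
           rintro X Y ⟨k1, k2⟩ ⟨k3, k4⟩
           refine ⟨L.add_mem k1 k3, ?_⟩
           rw [fc_add, fc_add, fc_add, fc_add, ← k2, ← k4]
           ring
         zero_mem' := by
           refine ⟨L.zero_mem, ?_⟩
           unfold fc
           simp
         smul_mem' := by
           rintro c X ⟨k1, k2⟩
           refine ⟨L.smul_mem _ k1, ?_⟩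
           rw [fc_smul, fc_smul, fc_smul, fc_smul, ← k2]
           ring }, fun X => Iff.rfl⟩
    have h3 : L ≤ N := by
      refine H.gen N (fun σ => (hN _).2 ⟨H.mem σ, ?_⟩) ?_
      · have h4 : fc F1 (Dm σ) = F σ := by
          unfold fc
          rw [hF1s, trace_smul, hF1.2, smul_eq_mul, mul_one, div_one]
        have h5 : fc F2 (Dm σ) = F' σ := by
          unfold fc
          rw [hF2s, trace_smul, hF2.2, smul_eq_mul, mul_one, div_one]
        have h6 : fc e (Dm σ) = fc e' (Dm σ) + δ σ := by rw [hδ]; ring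
        rw [h4, h5, h6, kF, kF']
        rcases hδ3 σ with h | h | h
        · rw [h, if_neg n3, if_neg n4, if_neg n3, if_neg n4]; ring
        · rw [h, if_pos rfl, if_pos rfl]; ring
        · rw [h, if_neg n2, if_pos rfl, if_neg n2, if_pos rfl]; ring
      · intro X hX Y hY
        have hX' := ((hN X).1 hX).1
        have hY' := ((hN Y).1 hY).1
        refine (hN _).2 ⟨hL.br X hX' Y hY', ?_⟩
        rw [fc_Dr he.1 (Dr_br hX' hY'), fc_Dr he'.1 (Dr_br hX' hY'),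
          fc_Dr hF1.1.1 (Dr_br hX' hY'), fc_Dr hF2.1.1 (Dr_br hX' hY')]
        ring
    intro X hX
    exact ((hN X).1 (h3 hX)).2
  have hcomm : ∀ {N : Matrix B B ℂ}, N ∈ CM L → mt v * N = N * mt v := fun hN =>
    comm_f2 hO hL hv.f2 hN
  have b1 := line_sc hF1.1.2.1 hF1.2 (hcomm hF1.1.1)
  have b2 := line_sc hF2.1.2.1 hF2.2 (hcomm hF2.1.1)
  obtain ⟨b, hb⟩ : ∃ b, b = trace (mt v * F1) := ⟨_, rfl⟩
  obtain ⟨b', hb'⟩ : ∃ b', b' = trace (mt v * F2) := ⟨_, rfl⟩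
  rw [← hb] at b1
  rw [← hb'] at b2
  refine ⟨F1, F2, b, b', hF1, hF2, b1, b2, hrel, ?_⟩
  -- vectors in the lines
  have hvec : ∀ {F : Matrix B B ℂ}, F * F = F → F ≠ 0 → ∃ f : B → ℂ, f ≠ 0 ∧ F *ᵥ f = f := by
    intro F hFF hF0
    by_contra hcon
    push Not at hcon
    apply hF0
    ext i j
    have h3 := hcon (F *ᵥ Pi.single j 1)
    by_cases h4 : F *ᵥ Pi.single j 1 = 0
    · have h5 := congrFun h4 i
      rw [mulVec_single_one] at h5
      exact h5
    · exact absurd (by rw [mulVec_mulVec, hFF]) (h3 h4)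
  obtain ⟨f, hf0, hf⟩ := hvec hF1.1.2.1 hF1.1.2.2.2.1
  obtain ⟨f', hf0', hf'⟩ := hvec hF2.1.2.1 hF2.1.2.2.2.1
  obtain ⟨N, hN⟩ : ∃ N, N = -(vecMulVec f f' * Om) := ⟨_, rfl⟩
  have hNO : N * Om = vecMulVec f f' := by
    rw [hN, neg_mul, mul_assoc, hO.sq, mul_neg, mul_one, neg_neg]
  have hN0 : WJ1.ph Om N ≠ 0 := by
    intro h
    have h3 : N = 0 := WJ1.ph_inj hO (by rw [h, map_zero])
    rw [h3, zero_mul] at hNO
    obtain ⟨i, hi⟩ := Function.ne_iff.1 hf0
    obtain ⟨j, hj⟩ := Function.ne_iff.1 hf0'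
    have h4 := congrFun (congrFun hNO i) j
    rw [vecMulVec_apply] at h4
    exact mul_ne_zero hi hj h4.symm
  have hMp0 : WJ1.ph Om M ≠ 0 := by
    intro h
    exact hM0 (WJ1.ph_inj hO (by rw [h, map_zero]))
  have hXf : ∀ X ∈ L, X * N - N * X = (fc F1 X + fc F2 X) • N := by
    intro X hX
    have k1 : X *ᵥ f = fc F1 X • f := by
      have h3 := line_sc hF1.1.2.1 hF1.2 (hF1.1.1 X hX)
      have h4 : fc F1 X = trace (X * F1) := by unfold fc; rw [hF1.2, div_one]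
      nth_rewrite 1 [← hf]
      rw [mulVec_mulVec, h3, smul_mulVec, hf, h4]
    have k2 : X *ᵥ f' = fc F2 X • f' := by
      have h3 := line_sc hF2.1.2.1 hF2.2 (hF2.1.1 X hX)
      have h4 : fc F2 X = trace (X * F2) := by unfold fc; rw [hF2.2, div_one]
      nth_rewrite 1 [← hf']
      rw [mulVec_mulVec, h3, smul_mulVec, hf', h4]
    have k3 : Om * X = -(Xᵀ * Om) := by
      rw [eq_neg_iff_add_eq_zero, add_comm]
      exact hL.sp X hX
    have k4 : X * N = fc F1 X • N := by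
      rw [hN, mul_neg, ← mul_assoc, mul_vecMulVec, k1, smul_vecMulVec, Matrix.smul_mul, smul_neg]
    have k5 : N * X = -(fc F2 X • N) := by
      rw [hN, neg_mul, mul_assoc, k3, mul_neg, neg_neg, ← mul_assoc, vecMulVec_mul,
        vecMul_transpose, k2, vecMulVec_smul, Matrix.smul_mul, smul_neg, neg_neg]
    rw [k4, k5, add_smul, sub_neg_eq_add]
  have hvN : mt v * N * mt v⁻¹ = (b * b') • N := by
    have k1 : mt v *ᵥ f = b • f := by
      nth_rewrite 1 [← hf]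
      rw [mulVec_mulVec, b1, smul_mulVec, hf]
    have k2 : mt v *ᵥ f' = b' • f' := by
      nth_rewrite 1 [← hf']
      rw [mulVec_mulVec, b2, smul_mulVec, hf']
    have k3 : Om * mt v⁻¹ = (mt v)ᵀ * Om := by
      have h3 := mt_sp v
      calc Om * mt v⁻¹ = (mt v)ᵀ * Om * mt v * mt v⁻¹ := by rw [h3]
        _ = _ := by rw [mul_assoc, mt_mul_inv, mul_one]
    have k4 : mt v * N = b • N := by
      rw [hN, mul_neg, ← mul_assoc, mul_vecMulVec, k1, smul_vecMulVec, Matrix.smul_mul, smul_neg]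
    have k5 : N * mt v⁻¹ = b' • N := by
      rw [hN, neg_mul, mul_assoc, k3, ← mul_assoc, vecMulVec_mul,
        vecMul_transpose, k2, vecMulVec_smul, Matrix.smul_mul, smul_neg]
    rw [k4, Matrix.smul_mul, k5, smul_smul]
  have hvM : a' • (mt v * M * mt v⁻¹) = a • M := by
    have k1 : mt v * M = a • M := by
      calc mt v * M = mt v * e * M := by rw [mul_assoc, h1]
        _ = _ := by rw [hve, Matrix.smul_mul, h1]
    have k2 : M * mt v = a' • M := by
      calc M * mt v = M * (e' * mt v) := by rw [← mul_assoc, h2]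
        _ = _ := by rw [← hcomm he'.1, hve', Matrix.mul_smul, h2]
    have k3 : M = a' • (M * mt v⁻¹) := by
      calc M = M * mt v * mt v⁻¹ := by rw [mul_assoc, mt_mul_inv, mul_one]
        _ = _ := by rw [k2, Matrix.smul_mul]
    rw [k1, Matrix.smul_mul, smul_comm, ← k3]
  obtain ⟨z, hz⟩ : ∃ z, z = pp (WJ1.ph Om M) (WJ1.ph Om N) := ⟨_, rfl⟩
  have hz0 : z ≠ 0 := by rw [hz]; exact pp_ne hMp0 hN0
  have hzI : z ∈ InvL L ((Fin 1 ⊕ Fin 1) ⊕ (Fin 1 ⊕ Fin 1)) := by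
    rw [mem_InvL]
    intro X hX
    have k1 : X * M - M * X = (fc e X - fc e' X) • M := by
      rw [itw hL he he' h1 h2 hM hX, add_sub_cancel_left]
    rw [hz, dm_pp, WJ1.dm_ph hO (hL.sp X hX), WJ1.dm_ph hO (hL.sp X hX), k1, hXf X hX, map_smul,
      map_smul, pp_smul_l, pp_smul_r, ← add_smul]
    have k2 : fc e X - fc e' X + (fc F1 X + fc F2 X) = 0 := by
      rw [← hrel X hX]
      ring
    rw [k2, zero_smul]
  have h4 := fixes (((Equiv.sumCongr (finSumFinEquiv (m := 1) (n := 1))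
    (finSumFinEquiv (m := 1) (n := 1))).trans (finSumFinEquiv (m := 2) (n := 2))).symm) hv.f4 z hzI
  rw [hz, kp_pp, kp_ph hO, kp_ph hO, hvN, map_smul, pp_smul_r] at h4
  have h5 : a' • pp (WJ1.ph Om M) (WJ1.ph Om N) =
      (a * b * b') • pp (WJ1.ph Om M) (WJ1.ph Om N) := by
    nth_rewrite 1 [← h4]
    rw [smul_comm, ← pp_smul_l, ← map_smul, hvM, map_smul, pp_smul_l, smul_smul]
    congr 1
    ring
  rw [← hz, ← sub_eq_zero, ← sub_smul] at h5
  exact (sub_eq_zero.1 ((smul_eq_zero.1 h5).resolve_right hz0)).symm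

end GJ7

theorem rel_of : St_rel := by
  intro B _ _ Om L hO hL Dm H v hv e e' M a a' he he' hM0 h1 h2 hM hve hve'
  exact GJ7.main hO hL H hv he he' hM0 h1 h2 hM hve hve'

end

end Pool.Agent.NH32
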