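import Mathlib
import Pool.Agent.NH32.GtA
import Pool.Agent.NH32.GH8a
import Pool.Agent.NH32.GH13
import Pool.Agent.NH32.GJ7

/-!
# Project G, stage 2, H8: type 3, exterior powers (helper49)
-/

set_option linter.unusedSectionVars false

namespace Pool.Agent.NH32

open Matrix Equiv

noncomputable section

namespace GH8

/-! ### creation and annihilation -/

/-- the creation and annihilation operators of a module -/
structure MA {I : Type*} [Fintype I] [DecidableEq I] {n : ℕ} (z : Fin n) (k : ℕ)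
    (A : Fin n → Matrix I I ℂ) (v : Finset (Fin n) → I → ℂ) (a : Fin n → Finset (Fin n) → ℂ) :
    Prop where
  nz : ∀ K : Finset (Fin n), K.card = k → v K ≠ 0
  a0 : ∀ K : Finset (Fin n), K.card = k → z ∉ K → ∀ j ∈ K, a j K ≠ 0
  up : ∀ K : Finset (Fin n), K.card = k → z ∉ K → ∀ j ∈ K,
    A j *ᵥ v K = a j K • v (insert z (K.erase j))
  dn : ∀ K : Finset (Fin n), K.card = k → z ∉ K → ∀ j ∈ K,
    (A j)ᴴ *ᵥ v (insert z (K.erase j)) = (a j K)⁻¹ • v K
  u0 : ∀ K : Finset (Fin n), K.card = k → z ∈ K → ∀ j, j ≠ z → A j *ᵥ v K = 0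
  d0 : ∀ K : Finset (Fin n), K.card = k → z ∉ K → ∀ j, j ≠ z → (A j)ᴴ *ᵥ v K = 0
  u1 : ∀ K : Finset (Fin n), K.card = k → ∀ j, j ≠ z → j ∉ K → A j *ᵥ v K = 0
  d1 : ∀ K : Finset (Fin n), K.card = k → ∀ j, j ≠ z → j ∈ K → (A j)ᴴ *ᵥ v K = 0
  rel : ∀ i j l : Fin n, i ≠ z → j ≠ z → l ≠ z → i ≠ j → j ≠ l → i ≠ l →
    ((A i)ᴴ * A j - A j * (A i)ᴴ) * A l = A l * ((A i)ᴴ * A j - A j * (A i)ᴴ)

section

variable {I : Type*} [Fintype I] [DecidableEq I] {n : ℕ} {z : Fin n} {k : ℕ}
    {A : Fin n → Matrix I I ℂ} {v : Finset (Fin n) → I → ℂ} {a : Fin n → Finset (Fin n) → ℂ}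

theorem MA.hex (h : MA z k A v a) {P : Finset (Fin n)} {i j l : Fin n} (hc : P.card + 2 = k)
    (zP : z ∉ P) (iz : i ≠ z) (jz : j ≠ z) (lz : l ≠ z) (iP : i ∉ P) (jP : j ∉ P) (lP : l ∉ P)
    (ij : i ≠ j) (jl : j ≠ l) (il : i ≠ l) :
    -(a j (insert i (insert j P)) * a i (insert i (insert l P)) * a l (insert j (insert l P))) =
      a l (insert i (insert l P)) * a j (insert j (insert l P)) * a i (insert i (insert j P)) := by
  have ni : ∀ x y : Fin n, x ≠ y → x ∉ P → x ∉ insert y P := fun x y h1 h2 => by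
    rw [Finset.mem_insert, not_or]; exact ⟨h1, h2⟩
  have nz : ∀ x y : Fin n, x ≠ z → y ≠ z → z ∉ insert x (insert y P) := fun x y h1 h2 => by
    rw [Finset.mem_insert, Finset.mem_insert, not_or, not_or]
    exact ⟨h1.symm, h2.symm, zP⟩
  have cc : ∀ x y : Fin n, x ≠ y → x ∉ P → y ∉ P → (insert x (insert y P)).card = k := by
    intro x y h1 h2 h3
    rw [Finset.card_insert_of_notMem (ni x y h1 h2), Finset.card_insert_of_notMem h3]
    omega
  have cz : ∀ x : Fin n, x ≠ z → x ∉ P → (insert z (insert x P)).card = k := by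
    intro x h1 h2
    rw [Finset.card_insert_of_notMem (ni z x h1.symm zP), Finset.card_insert_of_notMem h2]
    omega
  have e1 : ∀ x y : Fin n, x ≠ y → x ∉ P → (insert x (insert y P)).erase x = insert y P :=
    fun x y h1 h2 => Finset.erase_insert (ni x y h1 h2)
  have e2 : ∀ x y : Fin n, x ≠ y → y ∉ P → (insert x (insert y P)).erase y = insert x P := by
    intro x y h1 h2
    rw [Finset.insert_comm, e1 y x h1.symm h2]
  have m1 : ∀ x y : Fin n, x ∈ insert x (insert y P) := fun x y => Finset.mem_insert_self _ _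
  have m2 : ∀ x y : Fin n, y ∈ insert x (insert y P) := fun x y =>
    Finset.mem_insert_of_mem (Finset.mem_insert_self _ _)
  -- the actions
  have A1 := h.up _ (cc j l jl jP lP) (nz j l jz lz) l (m2 j l)
  rw [e2 j l jl lP] at A1
  have A2 := h.dn _ (cc i j ij iP jP) (nz i j iz jz) i (m1 i j)
  rw [e1 i j ij iP] at A2
  have A3 := h.up _ (cc i j ij iP jP) (nz i j iz jz) j (m2 i j)
  rw [e2 i j ij jP] at A3
  have A4 := h.u0 _ (cz j jz jP) (Finset.mem_insert_self _ _) j jz
  have A5 := h.d0 _ (cc j l jl jP lP) (nz j l jz lz) i iz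
  have A6 := h.up _ (cc j l jl jP lP) (nz j l jz lz) j (m1 j l)
  rw [e1 j l jl jP] at A6
  have A7 := h.dn _ (cc i l il iP lP) (nz i l iz lz) i (m1 i l)
  rw [e1 i l il iP] at A7
  have A8 := h.up _ (cc i l il iP lP) (nz i l iz lz) l (m2 i l)
  rw [e2 i l il lP] at A8
  have B1 := congrArg (fun M => M *ᵥ v (insert j (insert l P))) (h.rel i j l iz jz lz ij jl il)
  rw [← mulVec_mulVec, A1, sub_mulVec, mulVec_smul, mulVec_smul, ← mulVec_mulVec, A4, mulVec_zero,
    ← mulVec_mulVec, A2, mulVec_smul, A3, ← mulVec_mulVec, sub_mulVec, ← mulVec_mulVec, A6,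
    mulVec_smul, A7, ← mulVec_mulVec, A5, mulVec_zero, sub_zero, mulVec_smul, mulVec_smul, A8] at B1
  have n1 := h.a0 _ (cc i j ij iP jP) (nz i j iz jz) i (m1 i j)
  have n2 := h.a0 _ (cc i l il iP lP) (nz i l iz lz) i (m1 i l)
  have B2 : (-(a l (insert j (insert l P)) * (a i (insert i (insert j P)))⁻¹ *
      a j (insert i (insert j P))) - a j (insert j (insert l P)) *
      (a i (insert i (insert l P)))⁻¹ * a l (insert i (insert l P))) •
      v (insert z (insert i P)) = 0 := by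
    rw [sub_smul, sub_eq_zero]
    simp only [smul_smul, smul_zero, zero_sub] at B1
    rw [neg_smul, mul_assoc, mul_assoc]
    exact B1
  have B3 := (smul_eq_zero.1 B2).resolve_right (h.nz _ (cz i iz iP))
  field_simp at B3
  linear_combination B3

/-- the phases -/
theorem MA.mu {I' : Type*} [Fintype I'] [DecidableEq I'] {A' : Fin n → Matrix I' I' ℂ}
    {v' : Finset (Fin n) → I' → ℂ} {b : Fin n → Finset (Fin n) → ℂ} (h : MA z k A v a)
    (h' : MA z k A' v' b) (hk : 1 ≤ k) : ∃ μ : Finset (Fin n) → ℂ, (∀ K, μ K ≠ 0) ∧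
      ∀ K : Finset (Fin n), K.card = k → z ∉ K → ∀ j ∈ K,
        a j K * μ (insert z (K.erase j)) = b j K * μ K := by
  obtain ⟨k', rfl⟩ : ∃ k', k = k' + 1 := ⟨k - 1, by omega⟩
  have zN : ∀ K ⊆ (Finset.univ : Finset (Fin n)).erase z, z ∉ K := fun K hK hz =>
    (Finset.mem_erase.1 (hK hz)).1 rfl
  obtain ⟨μ, h1, h2⟩ := cob ((Finset.univ : Finset (Fin n)).erase z) k' (fun j K => a j K / b j K)
    (fun K hK hc j hj => div_ne_zero (h.a0 K hc (zN K hK) j hj) (h'.a0 K hc (zN K hK) j hj))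
    (by
      intro P hP hc i hi j hj l hl iP jP lP ij jl il
      have iz := (Finset.mem_erase.1 hi).1
      have jz := (Finset.mem_erase.1 hj).1
      have lz := (Finset.mem_erase.1 hl).1
      have x1 := h.hex (by omega) (zN P hP) iz jz lz iP jP lP ij jl il
      have x2 := h'.hex (by omega) (zN P hP) iz jz lz iP jP lP ij jl il
      have sb : ∀ x ∈ (Finset.univ : Finset (Fin n)).erase z, ∀ y ∈ (Finset.univ :
          Finset (Fin n)).erase z, z ∉ insert x (insert y P) := by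
        intro x hx y hy
        apply zN
        exact Finset.insert_subset hx (Finset.insert_subset hy hP)
      have cc : ∀ x y : Fin n, x ≠ y → x ∉ P → y ∉ P → (insert x (insert y P)).card = k'+1 := by
        intro x y h1 h2 h3
        rw [Finset.card_insert_of_notMem, Finset.card_insert_of_notMem h3]
        · omega
        · rw [Finset.mem_insert, not_or]; exact ⟨h1, h2⟩
      have m1 : ∀ x y : Fin n, x ∈ insert x (insert y P) := fun x y => Finset.mem_insert_self _ _
      have m2 : ∀ x y : Fin n, y ∈ insert x (insert y P) := fun x y =>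
        Finset.mem_insert_of_mem (Finset.mem_insert_self _ _)
      have n1 := h'.a0 _ (cc i j ij iP jP) (sb i hi j hj) j (m2 i j)
      have n2 := h'.a0 _ (cc i l il iP lP) (sb i hi l hl) i (m1 i l)
      have n3 := h'.a0 _ (cc j l jl jP lP) (sb j hj l hl) l (m2 j l)
      have n4 := h'.a0 _ (cc i l il iP lP) (sb i hi l hl) l (m2 i l)
      have n5 := h'.a0 _ (cc j l jl jP lP) (sb j hj l hl) j (m1 j l)
      have n6 := h'.a0 _ (cc i j ij iP jP) (sb i hi j hj) i (m1 i j)
      dsimp only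
      rw [div_mul_div_comm, div_mul_div_comm, div_mul_div_comm, div_mul_div_comm, ← x1, ← x2,
        neg_div_neg_eq])
  refine ⟨fun K => if z ∈ K then μ (K.erase z) else μ K, ?_, ?_⟩
  · intro K
    dsimp only
    split_ifs <;> exact h1 _
  · intro K hc hz j hj
    have hzj : z ∉ K.erase j := fun hh => hz (Finset.mem_of_mem_erase hh)
    dsimp only
    rw [if_pos (Finset.mem_insert_self _ _), if_neg hz, Finset.erase_insert hzj]
    have h3 := h2 K (fun x hx => Finset.mem_erase.2 ⟨fun hh => hz (by rw [← hh]; exact hx),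
      Finset.mem_univ _⟩) hc j hj
    have n1 := h'.a0 K hc hz j hj
    rw [← h3]
    field_simp

/-- the alternating tensors -/
theorem MA_alt (z : Fin n) (k : ℕ) : ∃ b, MA z k
    (fun j => dm (Fin k) (Matrix.single z j (1:ℂ))) (eK z k) b := by
  have hH : ∀ i j : Fin n, (dm (Fin k) (Matrix.single i j (1:ℂ)))ᴴ =
      dm (Fin k) (Matrix.single j i (1:ℂ)) := by
    intro i j
    rw [dm_conjTranspose, conjTranspose_single, star_one]
  have h1 : ∀ (j : Fin n) (K : Finset (Fin n)), ∃ τ : ℂ, K.card = k → z ∉ K → j ∈ K →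
      τ * τ = 1 ∧ dm (Fin k) (Matrix.single z j (1:ℂ)) *ᵥ eK z k K =
        τ • eK z k (insert z (K.erase j)) ∧
      dm (Fin k) (Matrix.single j z (1:ℂ)) *ᵥ eK z k (insert z (K.erase j)) = τ • eK z k K := by
    intro j K
    by_cases h : K.card = k ∧ z ∉ K ∧ j ∈ K
    · obtain ⟨τ, hτ⟩ := dm_eK (z := z) h.1 h.2.2 h.2.1
      exact ⟨τ, fun _ _ _ => hτ⟩
    · exact ⟨0, fun h1 h2 h3 => absurd ⟨h1, h2, h3⟩ h⟩
  choose b hb using h1
  refine ⟨b, ?_, ?_, ?_, ?_, ?_, ?_, ?_, ?_, ?_⟩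
  · intro K hK h0
    have h2 := eK_oc (z := z) hK hK
    rw [h0, if_pos rfl] at h2
    exact zero_ne_one h2
  · intro K hc hz j hj h0
    have := (hb j K hc hz hj).1
    rw [h0, mul_zero] at this
    exact zero_ne_one this
  · intro K hc hz j hj
    exact (hb j K hc hz hj).2.1
  · intro K hc hz j hj
    rw [hH, (hb j K hc hz hj).2.2, inv_eq_of_mul_eq_one_left (hb j K hc hz hj).1]
  · intro K hc hz j hj
    exact dm_eK1 hc hz hj.symm
  · intro K hc hz j hj
    rw [hH]
    exact dm_eK0 hc hz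
  · intro K hc j hj hjK
    exact dm_eK0 hc hjK
  · intro K hc j hj hjK
    rw [hH]
    exact dm_eK1 hc hjK hj
  · intro i j l iz jz lz ij jl il
    rw [hH, ← dm_bracket]
    have e1 : Matrix.single i z (1:ℂ) * Matrix.single z j (1:ℂ) -
        Matrix.single z j (1:ℂ) * Matrix.single i z (1:ℂ) = Matrix.single i j (1:ℂ) := by
      rw [Matrix.single_mul_single_same, Matrix.single_mul_single_of_ne _ _ _ _ ij.symm, sub_zero,
        mul_one]
    rw [e1, ← sub_eq_zero, ← dm_bracket, Matrix.single_mul_single_of_ne _ _ _ _ jz,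
      Matrix.single_mul_single_of_ne _ _ _ _ il.symm, sub_zero, dm_zero]

end

/-! ### weights -/

section wt

variable {B : Type} [Fintype B] [DecidableEq B] {r : ℕ} {T : Fin r → Matrix B B ℂ}

/-- weight vectors for the torus -/
def Wt (T : Fin r → Matrix B B ℂ) (γ : Fin r → ℝ) (Y : Matrix B B ℂ) : Prop :=
  ∀ x, tor T x * Y - Y * tor T x = ((γ ⬝ᵥ x : ℝ) : ℂ) • Y

theorem Wt.mul {γ δ : Fin r → ℝ} {Y Z : Matrix B B ℂ} (hY : Wt T γ Y) (hZ : Wt T δ Z) :
    Wt T (γ + δ) (Y * Z) := by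
  intro x
  have h1 : tor T x * (Y * Z) - Y * Z * tor T x = (tor T x * Y - Y * tor T x) * Z +
      Y * (tor T x * Z - Z * tor T x) := by
    noncomm_ring
  rw [h1, hY x, hZ x, Matrix.smul_mul, Matrix.mul_smul, ← add_smul, add_dotProduct]
  push_cast
  rfl

theorem Wt.sub {γ : Fin r → ℝ} {Y Z : Matrix B B ℂ} (hY : Wt T γ Y) (hZ : Wt T γ Z) :
    Wt T γ (Y - Z) := by
  intro x
  have h1 : tor T x * (Y - Z) - (Y - Z) * tor T x = (tor T x * Y - Y * tor T x) -
      (tor T x * Z - Z * tor T x) := by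
    noncomm_ring
  rw [h1, hY x, hZ x, smul_sub]

theorem Wt.trace {γ δ : Fin r → ℝ} {Y Z : Matrix B B ℂ} (hY : Wt T γ Y) (hZ : Wt T δ Z)
    (h : γ + δ ≠ 0) : trace (Y * Z) = 0 := by
  have h1 := congrArg Matrix.trace ((hY.mul hZ) (γ + δ))
  rw [trace_sub, trace_mul_comm, sub_self, trace_smul, smul_eq_mul] at h1
  have h2 : ((γ + δ) ⬝ᵥ (γ + δ) : ℝ) ≠ 0 := by
    intro h0
    exact h (dotProduct_self_eq_zero.1 h0)
  have h3 : (((γ + δ) ⬝ᵥ (γ + δ) : ℝ) : ℂ) ≠ 0 := by exact_mod_cast h2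
  exact (mul_eq_zero.1 h1.symm).resolve_left h3

theorem Wt.tor (hT : ∀ i j, T i * T j = T j * T i) (x : Fin r → ℝ) : Wt T 0 (tor T x) := by
  intro y
  have : Pool.Agent.NH32.tor T y * Pool.Agent.NH32.tor T x =
      Pool.Agent.NH32.tor T x * Pool.Agent.NH32.tor T y := by
    unfold Pool.Agent.NH32.tor
    rw [Finset.sum_mul_sum, Finset.sum_mul_sum, Finset.sum_comm]
    refine Finset.sum_congr rfl fun i _ => Finset.sum_congr rfl fun j _ => ?_
    rw [Matrix.smul_mul, Matrix.mul_smul, Matrix.smul_mul, Matrix.mul_smul, hT j i, smul_smul,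
      smul_smul, mul_comm]
  rw [this, sub_self, zero_dotProduct, Complex.ofReal_zero, zero_smul]

theorem tor_add (x y : Fin r → ℝ) : tor T (x + y) = tor T x + tor T y := by
  unfold tor
  rw [← Finset.sum_add_distrib]
  refine Finset.sum_congr rfl fun i _ => ?_
  rw [Pi.add_apply, Complex.ofReal_add, add_smul]

theorem tor_zero : tor T (0 : Fin r → ℝ) = 0 := by
  unfold tor
  refine Finset.sum_eq_zero fun i _ => ?_
  rw [Pi.zero_apply, Complex.ofReal_zero, zero_smul]

theorem tor_sum {ι : Type*} (s : Finset ι) (f : ι → Fin r → ℝ) :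
    tor T (∑ i ∈ s, f i) = ∑ i ∈ s, tor T (f i) := by
  classical
  induction s using Finset.induction_on with
  | empty => rw [Finset.sum_empty, Finset.sum_empty, tor_zero]
  | insert a s ha ih => rw [Finset.sum_insert ha, Finset.sum_insert ha, tor_add, ih]

theorem tor_single (i : Fin r) : tor T (Pi.single i 1) = T i := by
  unfold tor
  rw [Finset.sum_eq_single i]
  · rw [Pi.single_eq_same, Complex.ofReal_one, one_smul]
  · intro j _ hj
    rw [Pi.single_eq_of_ne hj, Complex.ofReal_zero, zero_smul]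
  · intro hh
    exact absurd (Finset.mem_univ _) hh

theorem tor_trace (hT : ∀ i j, trace (T i * T j) = if i = j then 1 else 0) (x y : Fin r → ℝ) :
    trace (tor T x * tor T y) = ((x ⬝ᵥ y : ℝ) : ℂ) := by
  unfold tor
  rw [Finset.sum_mul_sum, trace_sum]
  unfold dotProduct
  rw [Complex.ofReal_sum]
  refine Finset.sum_congr rfl fun i _ => ?_
  rw [trace_sum, Finset.sum_eq_single i]
  · rw [Matrix.smul_mul, Matrix.mul_smul, trace_smul, trace_smul, hT, if_pos rfl]
    simp
  · intro j _ hj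
    rw [Matrix.smul_mul, Matrix.mul_smul, trace_smul, trace_smul, hT, if_neg hj.symm]
    simp
  · intro hh
    exact absurd (Finset.mem_univ _) hh

end wt

/-! ### the data -/

/-- the data of type 3 -/
structure Dat {B : Type} [Fintype B] [DecidableEq B] (Om : Matrix B B ℂ)
    (L : Submodule ℂ (Matrix B B ℂ)) (e D : Matrix B B ℂ) (r : ℕ) (T : Fin r → Matrix B B ℂ)
    (Φ : Finset (Fin r → ℝ)) (X : (Fin r → ℝ) → Matrix B B ℂ) (h : Fin r → ℝ)
    (S : Finset (Fin r → ℝ)) (v : (Fin r → ℝ) → B → ℂ) (n k : ℕ) (c : ℝ)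
    (ε : Fin n → Fin r → ℝ) : Prop where
  rd : Rd Om L e D r T Φ X h
  mv : MV T Φ X h e S v
  k2 : 2 ≤ k
  kn : k + 2 ≤ n
  c0 : 0 < c
  sum : ∑ i, ε i = 0
  dot : ∀ i j, ε i ⬝ᵥ ε j = c * ((if i = j then 1 else 0) - 1 / n)
  phi : ∀ x, x ∈ Φ ↔ ∃ i j, i ≠ j ∧ x = ε i - ε j
  ss : ∀ x, x ∈ S ↔ ∃ K : Finset (Fin n), K.card = k ∧ x = ∑ i ∈ K, ε i

section dat

variable {B : Type} [Fintype B] [DecidableEq B] {Om : Matrix B B ℂ}
    {L : Submodule ℂ (Matrix B B ℂ)} {e D : Matrix B B ℂ} {r : ℕ} {T : Fin r → Matrix B B ℂ}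
    {Φ : Finset (Fin r → ℝ)} {X : (Fin r → ℝ) → Matrix B B ℂ} {h : Fin r → ℝ}
    {S : Finset (Fin r → ℝ)} {v : (Fin r → ℝ) → B → ℂ} {n k : ℕ} {c : ℝ}
    {ε : Fin n → Fin r → ℝ}

/-- the weights -/
def sK (ε : Fin n → Fin r → ℝ) (K : Finset (Fin n)) : Fin r → ℝ := ∑ i ∈ K, ε i

variable (H : Dat Om L e D r T Φ X h S v n k c ε)
include H

theorem mem {i j : Fin n} (hij : i ≠ j) : ε i - ε j ∈ Φ := (H.phi _).2 ⟨i, j, hij, rfl⟩

theorem memS {K : Finset (Fin n)} (hK : K.card = k) : sK ε K ∈ S := (H.ss _).2 ⟨K, hK, rfl⟩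

theorem gg {i j : Fin n} (hij : i ≠ j) : (ε i - ε j) ⬝ᵥ (ε i - ε j) = 2 * c := by
  rw [sub_dotProduct, dotProduct_sub, dotProduct_sub, H.dot, H.dot, H.dot, H.dot, if_pos rfl,
    if_neg hij, if_neg hij.symm, if_pos rfl]
  ring

theorem sdot (K : Finset (Fin n)) (i : Fin n) :
    sK ε K ⬝ᵥ ε i = c * ((if i ∈ K then 1 else 0) - K.card / n) := by
  unfold sK
  rw [sum_dotProduct]
  have h1 : ∀ j ∈ K, ε j ⬝ᵥ ε i = c * (if j = i then 1 else 0) - c / n := by
    intro j _
    rw [H.dot]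
    ring
  rw [Finset.sum_congr rfl h1, Finset.sum_sub_distrib, ← Finset.mul_sum, Finset.sum_ite_eq',
    Finset.sum_const, nsmul_eq_mul]
  ring

theorem pr_s (K : Finset (Fin n)) {i j : Fin n} (hij : i ≠ j) :
    pr (ε i - ε j) (sK ε K) = (if i ∈ K then 1 else 0) - (if j ∈ K then 1 else 0) := by
  unfold pr
  rw [gg H hij, dotProduct_sub, sdot H, sdot H]
  have := H.c0
  field_simp
  ring

theorem sK_inj {K K' : Finset (Fin n)} (hK : K.card = k) (hK' : K'.card = k)
    (hs : sK ε K = sK ε K') : K = K' := by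
  ext i
  have h1 := sdot H K i
  have h2 := sdot H K' i
  rw [hs, h2, hK, hK'] at h1
  have h3 := mul_left_cancel₀ H.c0.ne' h1
  by_cases hi : i ∈ K <;> by_cases hi' : i ∈ K' <;> simp [hi, hi'] at h3 ⊢ <;> linarith

theorem sK_move {K : Finset (Fin n)} {i j : Fin n} (hj : j ∈ K) (hi : i ∉ K) :
    sK ε K + (ε i - ε j) = sK ε (insert i (K.erase j)) := by
  unfold sK
  have hi' : i ∉ K.erase j := fun hh => hi (Finset.mem_of_mem_erase hh)
  rw [Finset.sum_insert hi', ← Finset.add_sum_erase K ε hj]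
  abel

theorem card_move {K : Finset (Fin n)} (hK : K.card = k) {i j : Fin n} (hj : j ∈ K)
    (hi : i ∉ K) : (insert i (K.erase j)).card = k := by
  have hi' : i ∉ K.erase j := fun hh => hi (Finset.mem_of_mem_erase hh)
  have : 0 < K.card := Finset.card_pos.2 ⟨j, hj⟩
  rw [Finset.card_insert_of_notMem hi', Finset.card_erase_of_mem hj]
  omega

theorem Xadj {i j : Fin n} (hij : i ≠ j) : (X (ε i - ε j))ᴴ = X (ε j - ε i) := by
  rw [← (H.rd.rv.Xm _ (mem H hij)).2.2, neg_sub]

theorem Xmem {i j : Fin n} (hij : i ≠ j) : X (ε i - ε j) ∈ Ide L e :=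
  (H.rd.rv.Xm _ (mem H hij)).1

theorem Xwt {i j : Fin n} (hij : i ≠ j) : Wt T (ε i - ε j) (X (ε i - ε j)) :=
  H.rd.rv.Xw _ (mem H hij)

theorem v_ne {K : Finset (Fin n)} (hK : K.card = k) : v (sK ε K) ≠ 0 := by
  intro h0
  have h1 := H.mv.on _ (memS H hK) _ (memS H hK)
  rw [h0, if_pos rfl, zero_dotProduct] at h1
  exact zero_ne_one h1

theorem X_zero {K : Finset (Fin n)} (hK : K.card = k) {i j : Fin n} (hij : i ≠ j)
    (hh : ¬ (j ∈ K ∧ i ∉ K)) : X (ε i - ε j) *ᵥ v (sK ε K) = 0 := by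
  refine H.mv.X0 _ (mem H hij) _ (memS H hK) ?_
  rw [pr_s H K hij]
  by_cases hi : i ∈ K <;> by_cases hj : j ∈ K
  · rw [if_pos hi, if_pos hj]; norm_num
  · rw [if_pos hi, if_neg hj]; norm_num
  · exact absurd ⟨hj, hi⟩ hh
  · rw [if_neg hi, if_neg hj]; norm_num

theorem X_act {K : Finset (Fin n)} (hK : K.card = k) {i j : Fin n} (hj : j ∈ K) (hi : i ∉ K) :
    ∃ a : ℂ, a ≠ 0 ∧ X (ε i - ε j) *ᵥ v (sK ε K) = a • v (sK ε (insert i (K.erase j))) ∧
      X (ε j - ε i) *ᵥ v (sK ε (insert i (K.erase j))) = a⁻¹ • v (sK ε K) := by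
  have hij : i ≠ j := by
    rintro rfl
    exact hi hj
  have hK' := card_move H hK hj hi
  obtain ⟨a, ha, h1⟩ := H.mv.Xv _ (mem H hij) _ (memS H hK) (by
    rw [pr_s H K hij, if_neg hi, if_pos hj]; norm_num)
  rw [sK_move H hj hi] at h1
  have ha0 : a ≠ 0 := by
    rintro rfl
    simp at ha
  obtain ⟨b, hb, h2⟩ := H.mv.Xv _ (mem H hij.symm) _ (memS H hK') (by
    have e1 : i ∈ insert i (K.erase j) := Finset.mem_insert_self _ _
    have e2 : j ∉ insert i (K.erase j) := by
      rw [Finset.mem_insert, not_or]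
      exact ⟨hij.symm, Finset.notMem_erase _ _⟩
    rw [pr_s H _ hij.symm, if_neg e2, if_pos e1]; norm_num)
  have e3 : sK ε (insert i (K.erase j)) + (ε j - ε i) = sK ε K := by
    rw [← sK_move H hj hi]; abel
  rw [e3] at h2
  refine ⟨a, ha0, h1, ?_⟩
  have h3 := congrArg (fun M => M *ᵥ v (sK ε K)) (H.rd.rv.X3 _ (mem H hij)).1
  rw [Xadj H hij, ← mulVec_mulVec, ← mulVec_mulVec, h1, mulVec_smul, h2, mulVec_smul, mulVec_smul,
    h1, smul_smul, smul_smul] at h3
  have h4 : (a * b * a - a) • v (sK ε (insert i (K.erase j))) = 0 := by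
    rw [sub_smul, h3, sub_self]
  have h5 := (smul_eq_zero.1 h4).resolve_right (v_ne H hK')
  have h6 : b = a⁻¹ := by
    apply eq_inv_of_mul_eq_one_left
    have h7 : a * (b * a - 1) = 0 := by linear_combination h5
    have h8 := (mul_eq_zero.1 h7).resolve_left ha0
    linear_combination h8
  rw [h2, h6]

/-- no root of the form `ε i - ε j + ε z - ε l` -/
theorem not_root {i j z l : Fin n} (ij : i ≠ j) (iz : i ≠ z) (jz : j ≠ z) (lz : l ≠ z)
    (jl : j ≠ l) (il : i ≠ l) : (ε i - ε j + (ε z - ε l)) ∉ Φ ∧ ε i - ε j + (ε z - ε l) ≠ 0 := by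
  have h1 : (ε i - ε j + (ε z - ε l)) ⬝ᵥ (ε i - ε j + (ε z - ε l)) = 4 * c := by
    simp only [add_dotProduct, dotProduct_add, sub_dotProduct, dotProduct_sub, H.dot, if_true,
      if_neg ij, if_neg ij.symm, if_neg iz, if_neg iz.symm, if_neg jz, if_neg jz.symm, if_neg lz,
      if_neg lz.symm, if_neg jl, if_neg jl.symm, if_neg il, if_neg il.symm]
    ring
  have hc := H.c0
  constructor
  · intro hm
    obtain ⟨x, y, hxy, he⟩ := (H.phi _).1 hm
    rw [he, gg H hxy] at h1
    linarith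
  · intro h0
    rw [h0, zero_dotProduct] at h1
    linarith

theorem Ide_br' {Y Z : Matrix B B ℂ} (hY : Y ∈ Ide L e) (hZ : Z ∈ Ide L e) :
    Y * Z - Z * Y ∈ Ide L e :=
  GJ1.Ide_br H.rd.ld H.rd.pu.1.1 (GJ1.Dr_le H.rd.ld hY.1) hZ

theorem MA_v (z : Fin n) : ∃ a, MA z k (fun j => X (ε z - ε j)) (fun K => v (sK ε K)) a := by
  have h1 : ∀ (j : Fin n) (K : Finset (Fin n)), ∃ a : ℂ, K.card = k → z ∉ K → j ∈ K →
      a ≠ 0 ∧ X (ε z - ε j) *ᵥ v (sK ε K) = a • v (sK ε (insert z (K.erase j))) ∧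
      X (ε j - ε z) *ᵥ v (sK ε (insert z (K.erase j))) = a⁻¹ • v (sK ε K) := by
    intro j K
    by_cases hh : K.card = k ∧ z ∉ K ∧ j ∈ K
    · obtain ⟨a, ha⟩ := X_act H hh.1 hh.2.2 hh.2.1
      exact ⟨a, fun _ _ _ => ha⟩
    · exact ⟨0, fun h1 h2 h3 => absurd ⟨h1, h2, h3⟩ hh⟩
  choose a ha using h1
  refine ⟨a, ?_, ?_, ?_, ?_, ?_, ?_, ?_, ?_, ?_⟩
  · intro K hK
    exact v_ne H hK
  · intro K hc hz j hj
    exact (ha j K hc hz hj).1
  · intro K hc hz j hj
    exact (ha j K hc hz hj).2.1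
  · intro K hc hz j hj
    have hne : z ≠ j := by
      rintro rfl
      exact hz hj
    rw [Xadj H hne]
    exact (ha j K hc hz hj).2.2
  · intro K hc hz j hj
    exact X_zero H hc hj.symm fun hh => hh.2 hz
  · intro K hc hz j hj
    rw [Xadj H hj.symm]
    exact X_zero H hc hj fun hh => hz hh.1
  · intro K hc j hj hjK
    exact X_zero H hc hj.symm fun hh => hjK hh.1
  · intro K hc j hj hjK
    rw [Xadj H hj.symm]
    exact X_zero H hc hj fun hh => hh.2 hjK
  · intro i j l iz jz lz ij jl il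
    rw [Xadj H iz.symm]
    have w1 : Wt T (ε i - ε j) (X (ε i - ε z) * X (ε z - ε j) - X (ε z - ε j) * X (ε i - ε z)) := by
      have g1 := (Xwt H iz).mul (Xwt H jz.symm)
      have g2 := (Xwt H jz.symm).mul (Xwt H iz)
      rw [show ε i - ε z + (ε z - ε j) = ε i - ε j by abel] at g1
      rw [show ε z - ε j + (ε i - ε z) = ε i - ε j by abel] at g2
      exact g1.sub g2
    have w2 := w1.mul (Xwt H lz.symm)
    have w3 := (Xwt H lz.symm).mul w1
    rw [show ε z - ε l + (ε i - ε j) = ε i - ε j + (ε z - ε l) by abel] at w3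
    have w4 := w2.sub w3
    rw [← sub_eq_zero]
    by_contra hne
    obtain ⟨n1, n2⟩ := not_root H ij iz jz lz jl il
    exact n1 (H.rd.rv.one _ n2 _ (Ide_br' H (Ide_br' H (Xmem H iz) (Xmem H jz.symm))
      (Xmem H lz.symm)) hne w4).1

/-! ### the root vectors -/

theorem ee_ne {i j : Fin n} (hij : i ≠ j) : ε i - ε j ≠ 0 := by
  intro h0
  have h1 := gg H hij
  rw [h0, zero_dotProduct] at h1
  have := H.c0
  linarith

theorem wt_ne {i j a b : Fin n} (hij : i ≠ j) (hh : ¬ (a = i ∧ b = j)) :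
    ε i - ε j + (ε b - ε a) ≠ 0 := by
  intro h0
  have hc := H.c0
  have h1 : (ε i - ε j + (ε b - ε a)) ⬝ᵥ ε i = 0 := by rw [h0, zero_dotProduct]
  have h2 : (ε i - ε j + (ε b - ε a)) ⬝ᵥ ε j = 0 := by rw [h0, zero_dotProduct]
  simp only [add_dotProduct, sub_dotProduct, H.dot, if_true, if_neg hij, if_neg hij.symm] at h1 h2
  have h3 : (1:ℝ) + (if b = i then 1 else 0) - (if a = i then 1 else 0) = 0 := by
    have : c * ((1:ℝ) + (if b = i then 1 else 0) - (if a = i then 1 else 0)) = 0 := by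
      linear_combination h1
    exact (mul_eq_zero.1 this).resolve_left hc.ne'
  have h4 : (-1:ℝ) + (if b = j then 1 else 0) - (if a = j then 1 else 0) = 0 := by
    have : c * ((-1:ℝ) + (if b = j then 1 else 0) - (if a = j then 1 else 0)) = 0 := by
      linear_combination h2
    exact (mul_eq_zero.1 this).resolve_left hc.ne'
  have ha : a = i := by
    by_contra hne
    rw [if_neg hne] at h3
    split_ifs at h3 <;> norm_num at h3
  have hb : b = j := by
    by_contra hne
    rw [if_neg hne] at h4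
    split_ifs at h4 <;> norm_num at h4
  exact hh ⟨ha, hb⟩

omit H in
/-- the root vectors -/
def G (X : (Fin r → ℝ) → Matrix B B ℂ) (ε : Fin n → Fin r → ℝ) (z i j : Fin n) : Matrix B B ℂ :=
  if i = z ∨ j = z then X (ε i - ε j) else
    X (ε i - ε z) * X (ε z - ε j) - X (ε z - ε j) * X (ε i - ε z)

variable {z : Fin n}

omit H in
theorem G_z1 (j : Fin n) : G X ε z z j = X (ε z - ε j) := by
  unfold G
  rw [if_pos (Or.inl rfl)]

omit H in
theorem G_z2 (i : Fin n) : G X ε z i z = X (ε i - ε z) := by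
  unfold G
  rw [if_pos (Or.inr rfl)]

omit H in
theorem G_o {i j : Fin n} (iz : i ≠ z) (jz : j ≠ z) : G X ε z i j = G X ε z i z * G X ε z z j -
    G X ε z z j * G X ε z i z := by
  rw [G_z1, G_z2]
  unfold G
  rw [if_neg (by rw [not_or]; exact ⟨iz, jz⟩)]

theorem G_mem {i j : Fin n} (hij : i ≠ j) : G X ε z i j ∈ Ide L e := by
  by_cases iz : i = z
  · subst iz
    rw [G_z1]
    exact Xmem H hij
  · by_cases jz : j = z
    · subst jz
      rw [G_z2]
      exact Xmem H hij
    · rw [G_o iz jz, G_z1, G_z2]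
      exact Ide_br' H (Xmem H iz) (Xmem H (Ne.symm jz))

theorem G_wt {i j : Fin n} (hij : i ≠ j) : Wt T (ε i - ε j) (G X ε z i j) := by
  by_cases iz : i = z
  · subst iz
    rw [G_z1]
    exact Xwt H hij
  · by_cases jz : j = z
    · subst jz
      rw [G_z2]
      exact Xwt H hij
    · rw [G_o iz jz, G_z1, G_z2]
      have g1 := (Xwt H iz).mul (Xwt H (Ne.symm jz))
      have g2 := (Xwt H (Ne.symm jz)).mul (Xwt H iz)
      rw [show ε i - ε z + (ε z - ε j) = ε i - ε j by abel] at g1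
      rw [show ε z - ε j + (ε i - ε z) = ε i - ε j by abel] at g2
      exact g1.sub g2

theorem G_adj {i j : Fin n} (hij : i ≠ j) : (G X ε z i j)ᴴ = G X ε z j i := by
  by_cases iz : i = z
  · subst iz
    rw [G_z1, G_z2]
    exact Xadj H hij
  · by_cases jz : j = z
    · subst jz
      rw [G_z2, G_z1]
      exact Xadj H hij
    · rw [G_o iz jz, G_o jz iz, G_z1, G_z2, G_z1, G_z2, conjTranspose_sub, conjTranspose_mul,
        conjTranspose_mul, Xadj H iz, Xadj H (Ne.symm jz)]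

theorem G_ne {i j : Fin n} (hij : i ≠ j) : G X ε z i j ≠ 0 := by
  by_cases iz : i = z
  · subst iz
    rw [G_z1]
    exact (H.rd.rv.Xm _ (mem H hij)).2.1
  · by_cases jz : j = z
    · subst jz
      rw [G_z2]
      exact (H.rd.rv.Xm _ (mem H hij)).2.1
    · rw [G_o iz jz, G_z1, G_z2]
      intro h0
      obtain ⟨P, hP, hc⟩ := Finset.exists_subset_card_eq
        (s := (((Finset.univ : Finset (Fin n)).erase i).erase j).erase z) (n := k-1) (by
          rw [Finset.card_erase_of_mem (Finset.mem_erase.2 ⟨Ne.symm jz, Finset.mem_erase.2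
              ⟨Ne.symm iz, Finset.mem_univ _⟩⟩),
            Finset.card_erase_of_mem (Finset.mem_erase.2 ⟨hij.symm, Finset.mem_univ _⟩),
            Finset.card_erase_of_mem (Finset.mem_univ _), Finset.card_univ, Fintype.card_fin]
          have := H.kn
          have := H.k2
          omega)
      have zP : z ∉ P := fun hh => (Finset.mem_erase.1 (hP hh)).1 rfl
      have jP : j ∉ P := fun hh => (Finset.mem_erase.1 (Finset.mem_erase.1 (hP hh)).2).1 rfl
      have iP : i ∉ P := fun hh => (Finset.mem_erase.1 (Finset.mem_erase.1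
        (Finset.mem_erase.1 (hP hh)).2).2).1 rfl
      have hk2 := H.k2
      have hK : (insert j P).card = k := by
        rw [Finset.card_insert_of_notMem jP]; omega
      have hK2 : (insert i P).card = k := by
        rw [Finset.card_insert_of_notMem iP]; omega
      have zK : z ∉ insert j P := by
        rw [Finset.mem_insert, not_or]; exact ⟨Ne.symm jz, zP⟩
      have zK2 : z ∉ insert i P := by
        rw [Finset.mem_insert, not_or]; exact ⟨Ne.symm iz, zP⟩
      obtain ⟨a, ha, h1, -⟩ := X_act H hK (Finset.mem_insert_self j P) zK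
      obtain ⟨b, hb, -, h2⟩ := X_act H hK2 (Finset.mem_insert_self i P) zK2
      rw [Finset.erase_insert jP] at h1
      rw [Finset.erase_insert iP] at h2
      have h3 := X_zero H hK (i := i) (j := z) iz fun hh => zK hh.1
      have h4 := congrArg (fun M => M *ᵥ v (sK ε (insert j P))) h0
      rw [sub_mulVec, ← mulVec_mulVec, h1, mulVec_smul, h2, ← mulVec_mulVec, h3, mulVec_zero,
        sub_zero, zero_mulVec, smul_smul] at h4
      rcases smul_eq_zero.1 h4 with h5 | h5
      · exact mul_ne_zero ha (inv_ne_zero hb) h5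
      · exact v_ne H hK2 h5

theorem G_X {i j : Fin n} (hij : i ≠ j) : ∃ c' : ℂ, X (ε i - ε j) = c' • G X ε z i j := by
  obtain ⟨-, c', hc'⟩ := H.rd.rv.one _ (ee_ne H hij) _ (G_mem H (z := z) hij) (G_ne H hij)
    (G_wt H hij)
  have h0 : c' ≠ 0 := by
    rintro rfl
    rw [zero_smul] at hc'
    exact G_ne H hij hc'
  refine ⟨c'⁻¹, ?_⟩
  rw [hc', smul_smul, inv_mul_cancel₀ h0, one_smul]

theorem nu_ne {i j : Fin n} (hij : i ≠ j) : trace (G X ε z i j * G X ε z j i) ≠ 0 := by
  rw [← G_adj H hij.symm]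
  intro h0
  exact G_ne H hij.symm (trace_self_eq_zero h0)

omit H in
/-- the matrices which give the coordinates -/
def Fm (T : Fin r → Matrix B B ℂ) (X : (Fin r → ℝ) → Matrix B B ℂ) (ε : Fin n → Fin r → ℝ)
    (z i j : Fin n) : Matrix B B ℂ :=
  if i = j then tor T (ε i) else (trace (G X ε z i j * G X ε z j i))⁻¹ • G X ε z j i

omit H in
/-- the map to the matrices of size `n` -/
def ph (T : Fin r → Matrix B B ℂ) (X : (Fin r → ℝ) → Matrix B B ℂ) (ε : Fin n → Fin r → ℝ)
    (z : Fin n) : Matrix B B ℂ →ₗ[ℂ] Matrix (Fin n) (Fin n) ℂ where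
  toFun Y := of fun i j => trace (Y * Fm T X ε z i j)
  map_add' Y Z := by
    ext i j
    simp [add_mul]
  map_smul' a Y := by
    ext i j
    simp

omit H in
theorem ph_apply (Y : Matrix B B ℂ) (i j : Fin n) :
    ph T X ε z Y i j = trace (Y * Fm T X ε z i j) := rfl

theorem tor_mem (x : Fin r → ℝ) : tor T x ∈ Ide L e := by
  unfold tor
  exact Submodule.sum_mem _ fun i _ => Submodule.smul_mem _ _ (H.rd.rv.tv.m i).1

theorem Fm_mem (i j : Fin n) : Fm T X ε z i j ∈ Ide L e := by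
  unfold Fm
  split_ifs with h1
  · exact tor_mem H _
  · exact Submodule.smul_mem _ _ (G_mem H (Ne.symm h1))

theorem ph_G {i j : Fin n} (hij : i ≠ j) : ph T X ε z (G X ε z i j) = Matrix.single i j 1 := by
  ext a b
  rw [ph_apply, Matrix.single_apply]
  unfold Fm
  by_cases hab : a = b
  · subst hab
    rw [if_pos rfl, if_neg (by rintro ⟨rfl, rfl⟩; exact hij rfl)]
    refine (G_wt H hij).trace (Wt.tor H.rd.rv.tv.c _) ?_
    rw [add_zero]
    exact ee_ne H hij
  · rw [if_neg hab, Matrix.mul_smul, trace_smul, smul_eq_mul]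
    by_cases hh : i = a ∧ j = b
    · obtain ⟨rfl, rfl⟩ := hh
      rw [if_pos ⟨rfl, rfl⟩, inv_mul_cancel₀ (nu_ne H hij)]
    · rw [if_neg hh, (G_wt H hij).trace (G_wt H (Ne.symm hab)) (wt_ne H hij (by
        rintro ⟨rfl, rfl⟩; exact hh ⟨rfl, rfl⟩)), mul_zero]

theorem ph_tor (x : Fin r → ℝ) : ph T X ε z (tor T x) =
    diagonal fun i => ((x ⬝ᵥ ε i : ℝ) : ℂ) := by
  ext a b
  rw [ph_apply]
  unfold Fm
  by_cases hab : a = b
  · subst hab
    rw [if_pos rfl, diagonal_apply_eq, tor_trace H.rd.rv.tv.t]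
  · rw [if_neg hab, diagonal_apply_ne _ hab, Matrix.mul_smul, trace_smul,
      (Wt.tor H.rd.rv.tv.c x).trace (G_wt H (Ne.symm hab)) (by
        rw [zero_add]; exact ee_ne H (Ne.symm hab)), smul_zero]

/-! ### the map to the alternating tensors -/

omit H in
/-- the map -/
def io (v : (Fin r → ℝ) → B → ℂ) (ε : Fin n → Fin r → ℝ) (z : Fin n) (k : ℕ)
    (μ : Finset (Fin n) → ℂ) : (B → ℂ) →ₗ[ℂ] ((Fin k → Fin n) → ℂ) where
  toFun w := ∑ K ∈ Finset.powersetCard k Finset.univ,
    ((star (v (sK ε K)) ⬝ᵥ w) * μ K) • eK z k K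
  map_add' w w' := by
    rw [← Finset.sum_add_distrib]
    refine Finset.sum_congr rfl fun K _ => ?_
    rw [dotProduct_add, add_mul, add_smul]
  map_smul' a w := by
    rw [Finset.smul_sum]
    refine Finset.sum_congr rfl fun K _ => ?_
    rw [dotProduct_smul, RingHom.id_apply, smul_smul, smul_eq_mul, mul_assoc]

omit H in
theorem io_apply (μ : Finset (Fin n) → ℂ) (w : B → ℂ) : io v ε z k μ w =
    ∑ K ∈ Finset.powersetCard k Finset.univ, ((star (v (sK ε K)) ⬝ᵥ w) * μ K) • eK z k K := rfl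

theorem orth {K K' : Finset (Fin n)} (hK : K.card = k) (hK' : K'.card = k) :
    star (v (sK ε K)) ⬝ᵥ v (sK ε K') = if K = K' then 1 else 0 := by
  rw [dotProduct_comm, H.mv.on _ (memS H hK') _ (memS H hK)]
  by_cases h1 : K = K'
  · subst h1
    rw [if_pos rfl, if_pos rfl]
  · rw [if_neg h1, if_neg fun hh => h1 (sK_inj H hK' hK hh).symm]

theorem io_v (μ : Finset (Fin n) → ℂ) {K : Finset (Fin n)} (hK : K.card = k) :
    io v ε z k μ (v (sK ε K)) = μ K • eK z k K := by
  rw [io_apply, Finset.sum_eq_single K]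
  · rw [orth H hK hK, if_pos rfl, one_mul]
  · intro K' hK' hne
    rw [orth H (Finset.mem_powersetCard.1 hK').2 hK, if_neg hne, zero_mul, zero_smul]
  · intro hh
    exact absurd (Finset.mem_powersetCard.2 ⟨Finset.subset_univ _, hK⟩) hh

theorem e_mulVec (w : B → ℂ) : e *ᵥ w = ∑ K ∈ Finset.powersetCard k Finset.univ,
    (star (v (sK ε K)) ⬝ᵥ w) • v (sK ε K) := by
  have hS : S = (Finset.powersetCard k (Finset.univ : Finset (Fin n))).image (sK ε) := by
    ext x
    rw [H.ss, Finset.mem_image]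
    constructor
    · rintro ⟨K, hK, rfl⟩
      exact ⟨K, Finset.mem_powersetCard.2 ⟨Finset.subset_univ _, hK⟩, rfl⟩
    · rintro ⟨K, hK, rfl⟩
      exact ⟨K, (Finset.mem_powersetCard.1 hK).2, rfl⟩
  have h1 : e = ∑ K ∈ Finset.powersetCard k (Finset.univ : Finset (Fin n)),
      vecMulVec (v (sK ε K)) (star (v (sK ε K))) := by
    have h2 := H.mv.ee
    rw [hS, Finset.sum_image] at h2
    · exact h2
    · intro K hK K' hK' hh
      exact sK_inj H (Finset.mem_powersetCard.1 hK).2 (Finset.mem_powersetCard.1 hK').2 hh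
  conv_lhs => rw [h1]
  rw [Matrix.sum_mulVec]
  refine Finset.sum_congr rfl fun K _ => ?_
  rw [Matrix.vecMulVec_mulVec]
  funext b
  simp [mul_comm]

theorem e_v {K : Finset (Fin n)} (hK : K.card = k) : e *ᵥ v (sK ε K) = v (sK ε K) := by
  rw [e_mulVec H, Finset.sum_eq_single K]
  · rw [orth H hK hK, if_pos rfl, one_smul]
  · intro K' hK' hne
    rw [orth H (Finset.mem_powersetCard.1 hK').2 hK, if_neg hne, zero_smul]
  · intro hh
    exact absurd (Finset.mem_powersetCard.2 ⟨Finset.subset_univ _, hK⟩) hh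

omit H in
/-- the property of the elements of the ideal -/
def Qp (T : Fin r → Matrix B B ℂ) (X : (Fin r → ℝ) → Matrix B B ℂ) (v : (Fin r → ℝ) → B → ℂ)
    (ε : Fin n → Fin r → ℝ) (z : Fin n) (k : ℕ) (μ : Finset (Fin n) → ℂ) (e Y : Matrix B B ℂ) :
    Prop :=
  ∀ w, e *ᵥ w = w → io v ε z k μ (Y *ᵥ w) = dm (Fin k) (ph T X ε z Y) *ᵥ io v ε z k μ w

theorem Qp_bas {μ : Finset (Fin n) → ℂ} {Y : Matrix B B ℂ}
    (hY : ∀ K : Finset (Fin n), K.card = k → io v ε z k μ (Y *ᵥ v (sK ε K)) =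
      dm (Fin k) (ph T X ε z Y) *ᵥ (μ K • eK z k K)) : Qp T X v ε z k μ e Y := by
  intro w hw
  rw [e_mulVec H] at hw
  rw [← hw, mulVec_sum, map_sum, map_sum, mulVec_sum]
  refine Finset.sum_congr rfl fun K hK => ?_
  have hc := (Finset.mem_powersetCard.1 hK).2
  rw [mulVec_smul, map_smul, map_smul, mulVec_smul, hY K hc, io_v H μ hc]

omit H in
theorem Qp_add {μ : Finset (Fin n) → ℂ} {Y Z : Matrix B B ℂ} (hY : Qp T X v ε z k μ e Y)
    (hZ : Qp T X v ε z k μ e Z) : Qp T X v ε z k μ e (Y + Z) := by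
  intro w hw
  rw [add_mulVec, map_add, map_add, dm_add, add_mulVec, hY w hw, hZ w hw]

omit H in
theorem Qp_smul {μ : Finset (Fin n) → ℂ} (a : ℂ) {Y : Matrix B B ℂ}
    (hY : Qp T X v ε z k μ e Y) : Qp T X v ε z k μ e (a • Y) := by
  intro w hw
  rw [smul_mulVec, map_smul, map_smul, dm_smul, smul_mulVec, hY w hw]

theorem Qp_tor (μ : Finset (Fin n) → ℂ) (x : Fin r → ℝ) : Qp T X v ε z k μ e (tor T x) := by
  refine Qp_bas H fun K hK => ?_
  rw [H.mv.Tv _ (memS H hK), map_smul, io_v H μ hK, ph_tor H, mulVec_smul, dm_diag_eK hK,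
    smul_comm]
  congr 2
  rw [← Complex.ofReal_sum]
  congr 1
  unfold sK
  rw [dotProduct_sum]

/-- the phases -/
structure Ph (X : (Fin r → ℝ) → Matrix B B ℂ) (v : (Fin r → ℝ) → B → ℂ) (ε : Fin n → Fin r → ℝ)
    (z : Fin n) (k : ℕ) (μ : Finset (Fin n) → ℂ) (a b : Fin n → Finset (Fin n) → ℂ) : Prop where
  ma : MA z k (fun j => X (ε z - ε j)) (fun K => v (sK ε K)) a
  mb : MA z k (fun j => dm (Fin k) (Matrix.single z j (1:ℂ))) (eK z k) b
  m0 : ∀ K, μ K ≠ 0
  eq : ∀ K : Finset (Fin n), K.card = k → z ∉ K → ∀ j ∈ K,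
    a j K * μ (insert z (K.erase j)) = b j K * μ K

theorem exists_Ph (z : Fin n) : ∃ μ a b, Ph X v ε z k μ a b := by
  obtain ⟨a, ha⟩ := MA_v H z
  obtain ⟨b, hb⟩ := MA_alt z k
  obtain ⟨μ, h1, h2⟩ := ha.mu hb (by have := H.k2; omega)
  exact ⟨μ, a, b, ha, hb, h1, h2⟩

variable {μ : Finset (Fin n) → ℂ} {a b : Fin n → Finset (Fin n) → ℂ} (hp : Ph X v ε z k μ a b)
include hp

theorem Qp_up {j : Fin n} (jz : j ≠ z) : Qp T X v ε z k μ e (G X ε z z j) := by
  refine Qp_bas H fun K hK => ?_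
  rw [ph_G H (Ne.symm jz), G_z1, mulVec_smul]
  by_cases hz : z ∈ K
  · have h1 := hp.ma.u0 K hK hz j jz
    have h2 := hp.mb.u0 K hK hz j jz
    rw [h1, h2, map_zero, smul_zero]
  · by_cases hj : j ∈ K
    · have h1 := hp.ma.up K hK hz j hj
      have h2 := hp.mb.up K hK hz j hj
      rw [h1, h2, map_smul, io_v H μ (card_move H hK hj hz), smul_smul, smul_smul,
        hp.eq K hK hz j hj, mul_comm]
    · have h1 := hp.ma.u1 K hK j jz hj
      have h2 := hp.mb.u1 K hK j jz hj
      rw [h1, h2, map_zero, smul_zero]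

theorem Qp_dn {i : Fin n} (iz : i ≠ z) : Qp T X v ε z k μ e (G X ε z i z) := by
  refine Qp_bas H fun K hK => ?_
  have hH : (dm (Fin k) (Matrix.single z i (1:ℂ)))ᴴ = dm (Fin k) (Matrix.single i z (1:ℂ)) := by
    rw [dm_conjTranspose, conjTranspose_single, star_one]
  rw [ph_G H iz, G_z2, mulVec_smul, ← Xadj H (Ne.symm iz), ← hH]
  by_cases hz : z ∈ K
  · by_cases hi : i ∈ K
    · have h1 := hp.ma.d1 K hK i iz hi
      have h2 := hp.mb.d1 K hK i iz hi
      rw [h1, h2, map_zero, smul_zero]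
    · have hi' : i ∉ K.erase z := fun hh => hi (Finset.mem_of_mem_erase hh)
      have hK1 := card_move H hK hz hi
      have hz1 : z ∉ insert i (K.erase z) := by
        rw [Finset.mem_insert, not_or]
        exact ⟨Ne.symm iz, Finset.notMem_erase _ _⟩
      have e1 : insert z ((insert i (K.erase z)).erase i) = K := by
        rw [Finset.erase_insert hi', Finset.insert_erase hz]
      have h1 := hp.ma.dn _ hK1 hz1 i (Finset.mem_insert_self _ _)
      have h2 := hp.mb.dn _ hK1 hz1 i (Finset.mem_insert_self _ _)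
      have h3 := hp.eq _ hK1 hz1 i (Finset.mem_insert_self _ _)
      have n1 := hp.ma.a0 _ hK1 hz1 i (Finset.mem_insert_self _ _)
      have n2 := hp.mb.a0 _ hK1 hz1 i (Finset.mem_insert_self _ _)
      rw [e1] at h1 h2 h3
      rw [h1, h2, map_smul, io_v H μ hK1, smul_smul, smul_smul]
      congr 1
      field_simp
      linear_combination -h3
  · have h1 := hp.ma.d0 K hK hz i iz
    have h2 := hp.mb.d0 K hK hz i iz
    rw [h1, h2, map_zero, smul_zero]

omit hp in
/-- the ideal respects the range of `e` -/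
theorem e_Y {Y : Matrix B B ℂ} (hY : Y ∈ L) {w : B → ℂ} (hw : e *ᵥ w = w) :
    e *ᵥ (Y *ᵥ w) = Y *ᵥ w := by
  have h1 : Y * e = e * Y := H.rd.pu.1.1 Y hY
  rw [mulVec_mulVec, ← h1, ← mulVec_mulVec, hw]

theorem Qp_G {i j : Fin n} (hij : i ≠ j) : Qp T X v ε z k μ e (G X ε z i j) := by
  by_cases iz : i = z
  · subst iz
    exact Qp_up H hp (Ne.symm hij)
  · by_cases jz : j = z
    · subst jz
      exact Qp_dn H hp hij
    · intro w hw
      have g1 := Qp_up H hp jz
      have g2 := Qp_dn H hp iz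
      have m1 : G X ε z i z ∈ L := GJ1.Dr_le H.rd.ld (G_mem H iz).1
      have m2 : G X ε z z j ∈ L := GJ1.Dr_le H.rd.ld (G_mem H (Ne.symm jz)).1
      rw [ph_G H hij]
      have e1 : Matrix.single i j (1:ℂ) = Matrix.single i z (1:ℂ) * Matrix.single z j (1:ℂ) -
          Matrix.single z j (1:ℂ) * Matrix.single i z (1:ℂ) := by
        rw [Matrix.single_mul_single_same, Matrix.single_mul_single_of_ne _ _ _ _ hij.symm,
          sub_zero, mul_one]
      rw [e1, dm_bracket, G_o iz jz, sub_mulVec, map_sub, ← mulVec_mulVec, ← mulVec_mulVec,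
        g2 _ (e_Y H m2 hw), g1 _ hw, g1 _ (e_Y H m1 hw), g2 _ hw, sub_mulVec, ph_G H iz,
        ph_G H (Ne.symm jz), ← mulVec_mulVec, ← mulVec_mulVec]

theorem Qp_Ide {Y : Matrix B B ℂ} (hY : Y ∈ Ide L e) : Qp T X v ε z k μ e Y := by
  have h1 := H.rd.rv.sp hY
  clear hY
  induction h1 using Submodule.span_induction with
  | mem Y hm =>
    rcases hm with ⟨i, rfl⟩ | ⟨γ, hγ, rfl⟩
    · rw [← tor_single (T := T) i]
      exact Qp_tor H μ _
    · obtain ⟨i, j, hij, rfl⟩ := (H.phi _).1 (Finset.mem_coe.1 hγ)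
      obtain ⟨c', hc'⟩ := G_X H (z := z) hij
      rw [hc']
      exact Qp_smul _ (Qp_G H hp hij)
  | zero =>
    intro w _
    rw [zero_mulVec, map_zero, map_zero, dm_zero, zero_mulVec]
  | add Y Z _ _ h1 h2 => exact Qp_add h1 h2
  | smul a Y _ h1 => exact Qp_smul a h1

theorem ph_cent {Y : Matrix B B ℂ} (hY : Y ∈ CM L) : ph T X ε z Y = 0 := by
  ext i j
  rw [ph_apply, trace_mul_comm, Matrix.zero_apply]
  exact GH13.trace_Dr hY (Fm_mem H i j).1

theorem ph_Kr {Y : Matrix B B ℂ} (hY : Y ∈ GJ1.Kr L e) : ph T X ε z Y = 0 := by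
  ext i j
  rw [ph_apply, trace_mul_comm, Matrix.zero_apply]
  exact (Fm_mem H i j).2 Y hY.1 hY.2

theorem Lp {Y : Matrix B B ℂ} (hY : Y ∈ L) {w : B → ℂ} (hw : e *ᵥ w = w) :
    io v ε z k μ (Y *ᵥ w) = dm (Fin k) (ph T X ε z Y) *ᵥ io v ε z k μ w +
      fc e Y • io v ε z k μ w := by
  obtain ⟨y, hy, a, ha, b, hb, rfl⟩ := GH13.dec H.rd.ld H.rd.pu.1 hY
  have h1 : y * e = fc e y • e := GJ7.ce_scal H.rd.pu.1 hy.1 (hy.2 e H.rd.pu.1.1)
  have h2 : y *ᵥ w = fc e y • w := by
    conv_lhs => rw [← hw]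
    rw [mulVec_mulVec, h1, smul_mulVec, hw]
  have h3 : b *ᵥ w = 0 := by
    conv_lhs => rw [← hw]
    rw [mulVec_mulVec, hb.2, zero_mulVec]
  have h4 : fc e (y + a + b) = fc e y := by
    rw [GJ7.fc_add, GJ7.fc_add, GJ7.fc_Dr H.rd.pu.1.1 ha.1, GJ7.fc_Dr H.rd.pu.1.1 hb.1, add_zero,
      add_zero]
  rw [h4, add_mulVec, add_mulVec, h3, add_zero, h2, map_add, map_smul, Qp_Ide H hp ha w hw,
    map_add, map_add, ph_cent H hp hy.1, ph_Kr H hp hb, zero_add, add_zero, add_comm]

end dat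

end GH8

open GH8

theorem t3_of : St_t3 := by
  intro B _ _ Om L e D r T Φ X h hR S v hM hT
  obtain ⟨n, k, c, ε, k2, kn, c0, hsum, hdot, hphi, hss, -⟩ := hT
  have H : Dat Om L e D r T Φ X h S v n k c ε := ⟨hR, hM, k2, kn, c0, hsum, hdot, hphi, hss⟩
  obtain ⟨z⟩ : Nonempty (Fin n) := ⟨⟨0, by omega⟩⟩
  obtain ⟨μ, a, b, hp⟩ := exists_Ph H z
  have hLd := hR.ld
  have hMi := hR.pu.1
  have hsur : ∀ x : (Fin k → Fin n) → ℂ, IsAlt x → ∃ w, e *ᵥ w = w ∧ io v ε z k μ w = x := by
    intro x hx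
    refine ⟨∑ K ∈ Finset.powersetCard k Finset.univ, (x (oc z k K) * (μ K)⁻¹) • v (sK ε K),
      ?_, ?_⟩
    · rw [mulVec_sum]
      refine Finset.sum_congr rfl fun K hK => ?_
      rw [mulVec_smul, e_v H (Finset.mem_powersetCard.1 hK).2]
    · rw [map_sum]
      conv_rhs => rw [alt_exp (z := z) hx]
      refine Finset.sum_congr rfl fun K hK => ?_
      rw [map_smul, io_v H μ (Finset.mem_powersetCard.1 hK).2, smul_smul, mul_assoc,
        inv_mul_cancel₀ (hp.m0 K), mul_one]
  refine ⟨n, k, ph T X ε z, io v ε z k μ, k2, kn, ?_, ?_, ?_, ?_, ?_, ?_, hsur, ?_⟩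
  · intro Y hY Z hZ
    rw [← sub_eq_zero]
    refine faithful (k := k) (by omega) (by omega) fun x hx => ?_
    obtain ⟨w, hw, rfl⟩ := hsur x hx
    have hYZ := hLd.br Y hY Z hZ
    have h1 := Lp H hp hYZ hw
    have h2 := Lp H hp hY (e_Y H hZ hw)
    have h3 := Lp H hp hZ (e_Y H hY hw)
    have h4 := Lp H hp hY hw
    have h5 := Lp H hp hZ hw
    rw [GJ7.fc_Dr hMi.1 (GJ1.br_mem hY hZ), zero_smul, add_zero, sub_mulVec, map_sub,
      ← mulVec_mulVec, ← mulVec_mulVec, h2, h3, h4, h5] at h1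
    rw [dm_sub, dm_bracket, sub_mulVec, ← h1, sub_mulVec, ← mulVec_mulVec, ← mulVec_mulVec,
      mulVec_add, mulVec_add, mulVec_smul, mulVec_smul, smul_add, smul_add, smul_smul, smul_smul,
      mul_comm (fc e Z) (fc e Y)]
    abel
  · intro Y _
    unfold Matrix.trace
    have h1 : ∀ i, (ph T X ε z Y).diag i = Matrix.trace (Y * tor T (ε i)) := by
      intro i
      rw [diag_apply, ph_apply]
      unfold Fm
      rw [if_pos rfl]
    have h2 := congrArg (fun M => Matrix.trace (Y * M)) (tor_sum (T := T) Finset.univ ε)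
    rw [hsum, tor_zero, mul_zero, Matrix.trace_zero, Finset.mul_sum, Matrix.trace_sum] at h2
    rw [Finset.sum_congr rfl fun i _ => h1 i]
    exact h2.symm
  · intro Z hZ
    refine ⟨∑ i, ∑ j, (if i = j then (Z i i / c) • tor T (ε i) else Z i j • G X ε z i j), ?_, ?_⟩
    · refine GJ1.Dr_le hLd (Submodule.sum_mem _ fun i _ => Submodule.sum_mem _ fun j _ => ?_)
      split_ifs with hij
      · exact (Dr L).smul_mem _ (tor_mem H _).1
      · exact (Dr L).smul_mem _ (G_mem H hij).1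
    · rw [map_sum]
      have h1 : ∀ i, ph T X ε z (∑ j, (if i = j then (Z i i / c) • tor T (ε i) else
          Z i j • G X ε z i j)) = ∑ j, (if i = j then (Z i i / c) •
            (diagonal fun l => ((ε i ⬝ᵥ ε l : ℝ) : ℂ)) else Z i j • Matrix.single i j (1:ℂ)) := by
        intro i
        rw [map_sum]
        refine Finset.sum_congr rfl fun j _ => ?_
        split_ifs with hij
        · rw [map_smul, ph_tor H]
        · rw [map_smul, ph_G H hij]
      rw [Finset.sum_congr rfl fun i _ => h1 i]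
      have hn : (n : ℂ) ≠ 0 := by exact_mod_cast (by omega : n ≠ 0)
      have hcc : (c : ℂ) ≠ 0 := by exact_mod_cast c0.ne'
      ext x y
      rw [Matrix.sum_apply]
      by_cases hxy : x = y
      · subst hxy
        have h2 : ∀ i, (∑ j, (if i = j then (Z i i / c) •
            (diagonal fun l => ((ε i ⬝ᵥ ε l : ℝ) : ℂ)) else Z i j • Matrix.single i j (1:ℂ))) x x =
            Z i i * ((if i = x then 1 else 0) - 1 / n) := by
          intro i
          rw [Matrix.sum_apply, Finset.sum_eq_single i]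
          · rw [if_pos rfl, Matrix.smul_apply, diagonal_apply_eq, hdot, smul_eq_mul]
            by_cases hix : i = x
            · rw [if_pos hix, if_pos hix]
              push_cast
              field_simp
            · rw [if_neg hix, if_neg hix]
              push_cast
              field_simp
          · intro j _ hj
            rw [if_neg (Ne.symm hj), Matrix.smul_apply, Matrix.single_apply, if_neg, smul_zero]
            rintro ⟨rfl, rfl⟩
            exact hj rfl
          · intro hh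
            exact absurd (Finset.mem_univ _) hh
        rw [Finset.sum_congr rfl fun i _ => h2 i]
        have h3 : ∑ i, Z i i * ((if i = x then (1:ℂ) else 0) - 1 / n) = Z x x -
            (∑ i, Z i i) * (1 / n) := by
          simp only [mul_sub]
          rw [Finset.sum_sub_distrib, ← Finset.sum_mul]
          simp
        have h4 : ∑ i, Z i i = 0 := hZ
        rw [h3, h4, zero_mul, sub_zero]
      · have h2 : ∀ i, (∑ j, (if i = j then (Z i i / c) •
            (diagonal fun l => ((ε i ⬝ᵥ ε l : ℝ) : ℂ)) else Z i j • Matrix.single i j (1:ℂ))) x y =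
            if i = x then Z x y else 0 := by
          intro i
          rw [Matrix.sum_apply]
          by_cases hix : i = x
          · subst hix
            rw [if_pos rfl, Finset.sum_eq_single y]
            · rw [if_neg hxy, Matrix.smul_apply, Matrix.single_apply, if_pos ⟨rfl, rfl⟩, smul_eq_mul,
                mul_one]
            · intro j _ hj
              split_ifs with hij
              · rw [Matrix.smul_apply, diagonal_apply_ne _ hxy, smul_zero]
              · rw [Matrix.smul_apply, Matrix.single_apply, if_neg fun hh => hj hh.2, smul_zero]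
            · intro hh
              exact absurd (Finset.mem_univ _) hh
          · rw [if_neg hix]
            refine Finset.sum_eq_zero fun j _ => ?_
            split_ifs with hij
            · rw [Matrix.smul_apply, diagonal_apply_ne _ hxy, smul_zero]
            · rw [Matrix.smul_apply, Matrix.single_apply, if_neg fun hh => hix hh.1, smul_zero]
        rw [Finset.sum_congr rfl fun i _ => h2 i]
        simp
  · rintro Y hY ⟨c', hc'⟩
    obtain ⟨y, hy, a', ha, b', hb, rfl⟩ := GH13.dec hLd hMi hY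
    have h1 : y * e = fc e y • e := GJ7.ce_scal hMi hy.1 (hy.2 e hMi.1)
    have h2 : a' * e = (c' - fc e y) • e := by
      rw [sub_smul, ← hc', ← h1, add_mul, add_mul, hb.2]
      abel
    have h3 := GH13.trace_Dr hMi.1 ha.1
    rw [h2, trace_smul, smul_eq_mul] at h3
    have h4 := (mul_eq_zero.1 h3).resolve_right (GH13.trace_ne hMi)
    rw [h4, zero_smul] at h2
    have h5 := GJ1.Ide_zero hLd hMi.1 hMi.2.2.1 ha h2
    rw [map_add, map_add, ph_cent H hp hy.1, ph_Kr H hp hb, h5, map_zero, add_zero, add_zero]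
  · intro w
    rw [io_apply]
    refine Finset.sum_induction _ IsAlt (fun _ _ h1 h2 => h1.add h2) IsAlt.zero fun K _ => ?_
    exact (eK_alt K).smul _
  · intro w hw h0
    rw [← hw, e_mulVec H]
    refine Finset.sum_eq_zero fun K hK => ?_
    have hc := (Finset.mem_powersetCard.1 hK).2
    have h1 := congrFun h0 (oc z k K)
    rw [io_apply, Finset.sum_apply, Pi.zero_apply, Finset.sum_eq_single K] at h1
    · rw [Pi.smul_apply, eK_oc hc hc, if_pos rfl, smul_eq_mul, mul_one] at h1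
      rw [(mul_eq_zero.1 h1).resolve_right (hp.m0 K), zero_smul]
    · intro K' hK' hne
      rw [Pi.smul_apply, eK_oc (Finset.mem_powersetCard.1 hK').2 hc, if_neg hne, smul_zero]
    · intro hh
      exact absurd hK hh
  · intro Y hY w hw
    exact Lp H hp hY hw

end

end Pool.Agent.NH32
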