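import Pool.Agent.NH32.GtA
import Pool.Agent.NH32.GJ1
import Pool.Agent.NH32.GJ3
import Pool.Agent.NH32.GJ5
import Pool.Agent.NH32.GJ7
import Pool.Agent.NH32.GJ9

/-!
# Project G, stage 2, job 9: the group in the orthogonal and symplectic cases
-/

set_option linter.unusedSectionVars false
set_option linter.unusedVariables false

namespace Pool.Agent.NH32

open Matrix Module NormedSpace

noncomputable section

namespace GH9

variable {B : Type} [Fintype B] [DecidableEq B] {Om : Matrix B B ℂ}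
  {L : Submodule ℂ (Matrix B B ℂ)}

/-! ### Unitary matrices -/

/-- Diagonalization of unitary matrices. -/
theorem udiag {W : Matrix B B ℂ} (hW : W * Wᴴ = 1) :
    ∃ (g : Matrix B B ℂ) (mu : B → ℂ), gᴴ * g = 1 ∧ W * g = g * diagonal mu := by
  have hW' : Wᴴ * W = 1 := mul_eq_one_comm.1 hW
  obtain ⟨g, hg, hd⟩ := sim_diag {M | M = W + Wᴴ ∨ M = Complex.I • (W - Wᴴ)} (by
      rintro M (rfl | rfl)
      · exact herm_one _
      · exact herm_two _) (by
      rintro M (rfl | rfl) N (rfl | rfl)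
      · rfl
      · rw [Matrix.mul_smul, Matrix.smul_mul]
        congr 1
        have h1 : (W + Wᴴ) * (W - Wᴴ) = W * W + Wᴴ * W - W * Wᴴ - Wᴴ * Wᴴ := by noncomm_ring
        have h2 : (W - Wᴴ) * (W + Wᴴ) = W * W + W * Wᴴ - Wᴴ * W - Wᴴ * Wᴴ := by noncomm_ring
        rw [h1, h2, hW, hW']
      · rw [Matrix.mul_smul, Matrix.smul_mul]
        congr 1
        have h1 : (W + Wᴴ) * (W - Wᴴ) = W * W + Wᴴ * W - W * Wᴴ - Wᴴ * Wᴴ := by noncomm_ring
        have h2 : (W - Wᴴ) * (W + Wᴴ) = W * W + W * Wᴴ - Wᴴ * W - Wᴴ * Wᴴ := by noncomm_ring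
        rw [h1, h2, hW, hW']
      · rfl)
  obtain ⟨d1, hd1⟩ := hd _ (Or.inl rfl)
  obtain ⟨d2, hd2⟩ := hd _ (Or.inr rfl)
  refine ⟨g, fun b => (1 / 2 : ℂ) * d1 b + (-(Complex.I) / 2 : ℂ) * d2 b, hg, ?_⟩
  have h1 := herm_dec W
  have h2 : (diagonal fun b => (1 / 2 : ℂ) * d1 b + (-(Complex.I) / 2 : ℂ) * d2 b) =
      (1 / 2 : ℂ) • diagonal d1 + (-(Complex.I) / 2 : ℂ) • diagonal d2 := by
    ext i j
    by_cases hij : i = j
    · subst hij
      simp
    · simp [diagonal_apply_ne _ hij]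
  rw [h2]
  conv_lhs => rw [h1]
  rw [add_mul, Matrix.smul_mul, Matrix.smul_mul, hd1, hd2, mul_add, Matrix.mul_smul,
    Matrix.mul_smul]

theorem dot_real (x : B → ℂ) : star x ⬝ᵥ x = ((∑ i, ‖x i‖ ^ 2 : ℝ) : ℂ) := by
  rw [dotProduct]
  push_cast
  refine Finset.sum_congr rfl fun i _ => ?_
  rw [Pi.star_apply]
  exact Complex.conj_mul' (x i)

/-- Normalization of vectors. -/
theorem nrm {x : B → ℂ} (hx : x ≠ 0) : ∃ r : ℂ, r ≠ 0 ∧ star (r • x) ⬝ᵥ (r • x) = 1 := by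
  have h1 := dot_real x
  have h2 : 0 < ∑ i, ‖x i‖ ^ 2 := by
    obtain ⟨i, hi⟩ := Function.ne_iff.1 hx
    refine Finset.sum_pos' (fun i _ => sq_nonneg _) ⟨i, Finset.mem_univ _, ?_⟩
    have h3 : 0 < ‖x i‖ := norm_pos_iff.2 hi
    positivity
  obtain ⟨t, ht⟩ : ∃ t : ℝ, t = ∑ i, ‖x i‖ ^ 2 := ⟨_, rfl⟩
  rw [← ht] at h1 h2
  refine ⟨((Real.sqrt t)⁻¹ : ℝ), ?_, ?_⟩
  · rw [Complex.ofReal_ne_zero]
    exact inv_ne_zero (Real.sqrt_pos.2 h2).ne'
  · rw [star_smul, smul_dotProduct, dotProduct_smul, h1, smul_eq_mul, smul_eq_mul]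
    have h3 : star ((((Real.sqrt t)⁻¹ : ℝ)) : ℂ) = (((Real.sqrt t)⁻¹ : ℝ) : ℂ) :=
      Complex.conj_ofReal _
    rw [h3, ← Complex.ofReal_mul, ← Complex.ofReal_mul]
    have h4 : (Real.sqrt t)⁻¹ * ((Real.sqrt t)⁻¹ * t) = 1 := by
      rw [← mul_assoc, ← mul_inv, Real.mul_self_sqrt h2.le, inv_mul_cancel₀ h2.ne']
    rw [h4, Complex.ofReal_one]

/-- An isotropic eigenvector. -/
theorem find {W J : Matrix B B ℂ} (hW : W * Wᴴ = 1) (hWJ : Wᵀ * J * W = J) (hne : W ≠ 1)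
    (hdet : Jᵀ = -J ∨ det W = 1) : ∃ (x : B → ℂ) (lam : ℂ), star x ⬝ᵥ x = 1 ∧
      W *ᵥ x = lam • x ∧ lam ≠ 1 ∧ x ⬝ᵥ (J *ᵥ x) = 0 := by
  obtain ⟨g, mu, hg, hgW⟩ := udiag hW
  have hg' : g * gᴴ = 1 := mul_eq_one_comm.1 hg
  have hcol : ∀ b, W *ᵥ (fun i => g i b) = mu b • fun i => g i b := by
    intro b
    funext i
    have h1 := congrFun (congrFun hgW i) b
    rw [mul_diagonal, Matrix.mul_apply] at h1
    rw [Pi.smul_apply, smul_eq_mul, mul_comm, ← h1]
    rfl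
  have horth : ∀ b b', star (fun i => g i b) ⬝ᵥ (fun i => g i b') = if b = b' then 1 else 0 := by
    intro b b'
    have h1 := congrFun (congrFun hg b) b'
    rw [Matrix.mul_apply, one_apply] at h1
    rw [← h1]
    rfl
  have key : ∀ (x : B → ℂ) (lam : ℂ), x ≠ 0 → W *ᵥ x = lam • x → lam ≠ 1 →
      x ⬝ᵥ (J *ᵥ x) = 0 → ∃ (x : B → ℂ) (lam : ℂ), star x ⬝ᵥ x = 1 ∧
      W *ᵥ x = lam • x ∧ lam ≠ 1 ∧ x ⬝ᵥ (J *ᵥ x) = 0 := by
    intro x lam hx h1 h2 h3
    obtain ⟨r, hr, h4⟩ := nrm hx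
    refine ⟨r • x, lam, h4, ?_, h2, ?_⟩
    · rw [mulVec_smul, h1, smul_comm]
    · rw [mulVec_smul, smul_dotProduct, dotProduct_smul, h3, smul_zero, smul_zero]
  by_contra hcon
  have hcon' : ∀ (x : B → ℂ) (lam : ℂ), x ≠ 0 → W *ᵥ x = lam • x → lam ≠ 1 →
      x ⬝ᵥ (J *ᵥ x) ≠ 0 := fun x lam h1 h2 h3 h4 => hcon (key x lam h1 h2 h3 h4)
  have hx0 : ∀ b, (fun i => g i b) ≠ 0 := by
    intro b h0
    have h1 := horth b b
    rw [h0, if_pos rfl, dotProduct_zero] at h1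
    exact zero_ne_one h1
  have hm1 : ∀ b, mu b ≠ 1 → mu b = -1 := by
    intro b hb
    have h1 := hcon' _ _ (hx0 b) (hcol b) hb
    have h2 : (fun i => g i b) ⬝ᵥ ((Wᵀ * J * W) *ᵥ (fun i => g i b)) =
        mu b * mu b * ((fun i => g i b) ⬝ᵥ (J *ᵥ (fun i => g i b))) := by
      rw [← mulVec_mulVec, ← mulVec_mulVec, dotProduct_mulVec, vecMul_transpose, hcol,
        mulVec_smul, smul_dotProduct, dotProduct_smul, smul_eq_mul, smul_eq_mul, mul_assoc]
    rw [hWJ] at h2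
    have h3 : (mu b - 1) * (mu b + 1) * ((fun i => g i b) ⬝ᵥ (J *ᵥ (fun i => g i b))) = 0 := by
      linear_combination -h2
    rcases mul_eq_zero.1 h3 with h4 | h4
    · rcases mul_eq_zero.1 h4 with h5 | h5
      · exact absurd (sub_eq_zero.1 h5) hb
      · exact eq_neg_of_add_eq_zero_left h5
    · exact absurd h4 h1
  obtain ⟨b, hb⟩ : ∃ b, mu b ≠ 1 := by
    by_contra h0
    push Not at h0
    apply hne
    have h1 : mu = fun _ => 1 := funext h0
    rw [h1] at hgW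
    have h2 : (diagonal fun _ : B => (1 : ℂ)) = 1 := diagonal_one
    rw [h2, mul_one] at hgW
    calc W = W * (g * gᴴ) := by rw [hg', mul_one]
      _ = W * g * gᴴ := by rw [mul_assoc]
      _ = 1 := by rw [hgW, hg']
  by_cases hu : ∃ b', b' ≠ b ∧ mu b' ≠ 1
  · obtain ⟨b', hbb, hb'⟩ := hu
    obtain ⟨A, hA⟩ : ∃ A, A = (fun i => g i b) ⬝ᵥ (J *ᵥ (fun i => g i b)) := ⟨_, rfl⟩
    obtain ⟨A', hA'⟩ : ∃ A', A' = (fun i => g i b) ⬝ᵥ (J *ᵥ (fun i => g i b')) +
      (fun i => g i b') ⬝ᵥ (J *ᵥ (fun i => g i b)) := ⟨_, rfl⟩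
    obtain ⟨C, hC⟩ : ∃ C, C = (fun i => g i b') ⬝ᵥ (J *ᵥ (fun i => g i b')) := ⟨_, rfl⟩
    have hA0 : A ≠ 0 := by
      rw [hA]
      exact hcon' _ _ (hx0 b) (hcol b) hb
    obtain ⟨z, hz⟩ : ∃ z : ℂ, A * (z * z) + A' * z + C = 0 := by
      obtain ⟨s, hs⟩ := IsAlgClosed.exists_pow_nat_eq (discrim A A' C) (n := 2) (by norm_num)
      exact exists_quadratic_eq_zero hA0 ⟨s, by rw [← hs, pow_two]⟩
    refine hcon' (z • (fun i => g i b) + fun i => g i b') (-1) ?_ ?_ ?_ ?_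
    · intro h0
      have h1 := congrArg (fun w => star (fun i => g i b') ⬝ᵥ w) h0
      beta_reduce at h1
      rw [dotProduct_add, dotProduct_smul, horth, horth, if_neg hbb, if_pos rfl, smul_zero,
        zero_add, dotProduct_zero] at h1
      exact one_ne_zero h1
    · rw [mulVec_add, mulVec_smul, hcol, hcol, hm1 b hb, hm1 b' hb', smul_add, smul_comm]
    · norm_num
    · rw [mulVec_add, mulVec_smul, dotProduct_add, add_dotProduct, add_dotProduct,
        smul_dotProduct, smul_dotProduct, dotProduct_smul, dotProduct_smul, ← hA, ← hC,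
        smul_eq_mul, smul_eq_mul, smul_eq_mul, smul_eq_mul]
      linear_combination hz - z * hA'
  · push Not at hu
    rcases hdet with h | h
    · apply hcon' _ _ (hx0 b) (hcol b) hb
      obtain ⟨x, hx⟩ : ∃ x : B → ℂ, x = fun i => g i b := ⟨_, rfl⟩
      rw [← hx]
      have h1 : x ⬝ᵥ (J *ᵥ x) = -(x ⬝ᵥ (J *ᵥ x)) := by
        conv_lhs => rw [dotProduct_mulVec, ← mulVec_transpose, h, dotProduct_comm]
        rw [neg_mulVec, dotProduct_neg]
      exact self_eq_neg.1 h1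
    · have h1 : det W = ∏ i, mu i := by
        have h2 : W = g * diagonal mu * gᴴ := by
          rw [← hgW, mul_assoc, hg', mul_one]
        rw [h2, det_mul, det_mul, det_diagonal, mul_comm, ← mul_assoc, ← det_mul, hg, det_one,
          one_mul]
      have h2 : ∏ i, mu i = -1 := by
        rw [← Finset.mul_prod_erase _ _ (Finset.mem_univ b), hm1 b hb]
        rw [Finset.prod_eq_one fun b' hb' => hu b' (Finset.ne_of_mem_erase hb'), mul_one]
      rw [h1, h2] at h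
      norm_num at h

/-! ### Forms -/

/-- The data of a form on the range of `e`. -/
structure FDt (e J : Matrix B B ℂ) (s : ℂ) : Prop where
  ee : e * e = e
  eh : eᴴ = e
  Je : J * e = J
  eJ : eᵀ * J = J
  JJ : Jᴴ * J = e
  JT : Jᵀ = s • J
  s2 : s = 1 ∨ s = -1

theorem FDt.ss {e J : Matrix B B ℂ} {s : ℂ} (h : FDt e J s) : s * s = 1 := by
  rcases h.s2 with h | h <;> rw [h] <;> norm_num

theorem FDt.st {e J : Matrix B B ℂ} {s : ℂ} (h : FDt e J s) : star s = s := by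
  rcases h.s2 with h | h <;> rw [h] <;> simp

theorem FDt.JHT {e J : Matrix B B ℂ} {s : ℂ} (h : FDt e J s) : (Jᴴ)ᵀ = s • Jᴴ := by
  have h1 : (Jᴴ)ᵀ = (Jᵀ)ᴴ := rfl
  rw [h1, h.JT, conjTranspose_smul, h.st]

theorem FDt.JJ' {e J : Matrix B B ℂ} {s : ℂ} (h : FDt e J s) : J * Jᴴ = eᵀ := by
  have h1 := congrArg Matrix.transpose h.JJ
  rw [transpose_mul, h.JHT, h.JT, Matrix.smul_mul, Matrix.mul_smul, smul_smul, h.ss, one_smul] at h1
  exact h1

/-- The projections to an isotropic vector and its image. -/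
theorem pq {e J : Matrix B B ℂ} {s : ℂ} (h : FDt e J s) {x : B → ℂ} (hx1 : star x ⬝ᵥ x = 1)
    (hex : e *ᵥ x = x) (hiso : x ⬝ᵥ (J *ᵥ x) = 0) {W : Matrix B B ℂ} (hW : W * Wᴴ = 1)
    (hWJ : Wᵀ * J * W = J) {lam : ℂ} (hlam : W *ᵥ x = lam • x) :
    ∃ p q : Matrix B B ℂ, (p * p = p ∧ q * q = q ∧ p * q = 0 ∧ q * p = 0 ∧ pᴴ = p ∧ qᴴ = q) ∧
      (e * p = p ∧ e * q = q) ∧ (J * p = qᵀ * J ∧ J * q = pᵀ * J) ∧
      (W * p = lam • p ∧ W * q = star lam • q) ∧ p *ᵥ x = x ∧ trace p = 1 ∧ trace q = 1 := by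
  obtain ⟨y, hy⟩ : ∃ y, y = star (J *ᵥ x) := ⟨_, rfl⟩
  have hsy : star y = J *ᵥ x := by rw [hy, star_star]
  have y1 : star y ⬝ᵥ y = 1 := by
    rw [dotProduct_comm]
    nth_rewrite 1 [hy]
    rw [hsy, star_mulVec, ← dotProduct_mulVec, mulVec_mulVec, h.JJ, hex, hx1]
  have y2 : star y ⬝ᵥ x = 0 := by
    rw [hsy, dotProduct_comm, hiso]
  have y3 : star x ⬝ᵥ y = 0 := by
    have h1 := congrArg star y2
    rw [star_dotProduct, star_star, star_zero] at h1
    rw [← h1, dotProduct_comm]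
  have ey : e *ᵥ y = y := by
    have h1 : e *ᵥ y = star ((J *ᵥ x) ᵥ* eᴴ) := by
      rw [star_vecMul, conjTranspose_conjTranspose, hy]
    rw [h1, h.eh, ← mulVec_transpose, mulVec_mulVec, h.eJ, hy]
  have Wy : W *ᵥ y = star lam • y := by
    have h1 : W *ᵥ y = star ((J *ᵥ x) ᵥ* Wᴴ) := by
      rw [star_vecMul, conjTranspose_conjTranspose, hy]
    have h2 : (Wᴴ)ᵀ * J = J * W := by
      have h3 : (Wᴴ)ᵀ * Wᵀ = 1 := by rw [← transpose_mul, hW, transpose_one]
      calc (Wᴴ)ᵀ * J = (Wᴴ)ᵀ * (Wᵀ * J * W) := by rw [hWJ]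
        _ = ((Wᴴ)ᵀ * Wᵀ) * J * W := by noncomm_ring
        _ = _ := by rw [h3, one_mul]
    rw [h1, ← mulVec_transpose, mulVec_mulVec, h2, ← mulVec_mulVec, hlam, mulVec_smul, star_smul,
      hy]
  have Jy : J *ᵥ y = s • star x := by
    have h1 : J *ᵥ y = star ((J *ᵥ x) ᵥ* Jᴴ) := by
      rw [star_vecMul, conjTranspose_conjTranspose, hy]
    rw [h1, ← mulVec_transpose, h.JHT, smul_mulVec, mulVec_mulVec, h.JJ, hex, star_smul, h.st]
  have yJ : y ᵥ* J = star x := by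
    rw [← mulVec_transpose, h.JT, smul_mulVec, Jy, smul_smul, h.ss, one_smul]
  have xJ : x ᵥ* J = s • star y := by
    rw [← mulVec_transpose, h.JT, smul_mulVec, hsy]
  refine ⟨vecMulVec x (star x), vecMulVec y (star y), ⟨?_, ?_, ?_, ?_, ?_, ?_⟩, ⟨?_, ?_⟩,
    ⟨?_, ?_⟩, ⟨?_, ?_⟩, ?_, ?_, ?_⟩
  · rw [mul_vecMulVec, vecMulVec_mulVec, hx1]; simp
  · rw [mul_vecMulVec, vecMulVec_mulVec, y1]; simp
  · rw [mul_vecMulVec, vecMulVec_mulVec, y3]; simp
  · rw [mul_vecMulVec, vecMulVec_mulVec, y2]; simp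
  · rw [conjTranspose_vecMulVec, star_star]
  · rw [conjTranspose_vecMulVec, star_star]
  · rw [mul_vecMulVec, hex]
  · rw [mul_vecMulVec, ey]
  · rw [mul_vecMulVec, transpose_vecMulVec, vecMulVec_mul, yJ, hsy]
  · rw [mul_vecMulVec, transpose_vecMulVec, vecMulVec_mul, xJ, Jy, smul_vecMulVec, vecMulVec_smul]
  · rw [mul_vecMulVec, hlam, smul_vecMulVec]
  · rw [mul_vecMulVec, Wy, smul_vecMulVec]
  · rw [vecMulVec_mulVec, hx1]; simp
  · rw [trace_vecMulVec, dotProduct_comm, hx1]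
  · rw [trace_vecMulVec, dotProduct_comm, y1]

/-! ### Elements of the group -/

/-- Exponentials. -/
theorem grp1 (hO : IsOm Om) (hL : LD Om L) {e : Matrix B B ℂ} (he : e ∈ CM L) (heh : eᴴ = e)
    {T : Matrix B B ℂ} (hT1 : ∃ X ∈ Dr L, X * e = T) (hT2 : Tᴴ = -T) (hT3 : e * T = T) :
    ∃ k ∈ KK Om L, (∀ e', Mi L e' → (∀ X ∈ Ide L e, X * e' = 0) → mt k * e' = e') ∧
      ∀ (Q : Matrix B B ℂ) (c : ℂ), e * Q = Q → T * Q = c • Q → mt k * Q = Complex.exp c • Q := by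
  obtain ⟨X', hX', hX'e⟩ := hT1
  obtain ⟨X, hX, hXe⟩ := GJ5.Ide_dec hL he heh hX'
  rw [hX'e] at hXe
  have hXL : X ∈ L := GJ5.Dr_le hL hX.1
  have hXH : Xᴴ * e = -T := by
    have h1 : Xᴴ * e = e * Xᴴ := he _ (hL.adj X hXL)
    have h2 := congrArg Matrix.conjTranspose hXe
    rw [conjTranspose_mul, heh, hT2] at h2
    rw [h1, h2]
  have hskew : Xᴴ = -X := by
    have h1 : X + Xᴴ = 0 := GJ5.Ide_zero hL he heh
      ((Ide L e).add_mem hX (GJ5.Ide_adj hL he heh hX)) (by rw [add_mul, hXe, hXH, add_neg_cancel])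
    exact (neg_eq_of_add_eq_zero_right h1).symm
  have hsp := hL.sp X hXL
  have hexp : ∀ (Q : Matrix B B ℂ) (c : ℂ), X * Q = c • Q →
      mt (eU hO.sq hskew hsp 1) * Q = Complex.exp c • Q := by
    intro Q c h
    rw [mt_eU]
    have h1 : X * Q = Q * diagonal (fun _ => c) := by
      rw [h]
      ext i j
      rw [mul_diagonal, Matrix.smul_apply, smul_eq_mul, mul_comm]
    rw [GJ5.expA h1]
    ext i j
    rw [mul_diagonal, Matrix.smul_apply, smul_eq_mul, mul_comm]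
  refine ⟨eU hO.sq hskew hsp 1, ?_, ?_, ?_⟩
  · intro κ _ _ x hx
    exact (isCurve_exp X).fix (exp_zero_smul X) (hx X hXL) 1
  · intro e' _ he'
    rw [hexp e' 0 (by rw [he' X hX, zero_smul]), Complex.exp_zero, one_smul]
  · intro Q c hQ hc
    refine hexp Q c ?_
    rw [← hc, ← hXe, mul_assoc, hQ]

/-- The determinant. -/
theorem det_pq {p q : Matrix B B ℂ} (hp : p * p = p) (hq : q * q = q) (hpq : p * q = 0)
    (htp : trace p = 1) (htq : trace q = 1) (a b : ℂ) :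
    det (1 + a • p + b • q) = (1 + a) * (1 + b) := by
  have h1 : 1 + a • p + b • q = (1 + a • p) * (1 + b • q) := by
    rw [add_mul, one_mul, Matrix.smul_mul, mul_add, mul_one, Matrix.mul_smul, hpq, smul_zero,
      add_zero]
    abel
  have h2 := WJ2.idem_trace' hp (r := 1) (by rw [htp, Nat.cast_one]) (1 + a)
  have h3 := WJ2.idem_trace' hq (r := 1) (by rw [htq, Nat.cast_one]) (1 + b)
  rw [add_sub_cancel_left, pow_one] at h2 h3
  rw [h1, det_mul, h2, h3]

/-- The induction. -/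
theorem ind (hO : IsOm Om) (hL : LD Om L) {e J : Matrix B B ℂ} {s : ℂ} (he : e ∈ CM L)
    (h : FDt e J s)
    (hfull : ∀ T : Matrix B B ℂ, e * T * e = T → Tᵀ * J + J * T = 0 → ∃ X ∈ Dr L, X * e = T) :
    ∀ (n : ℕ) (W : Matrix B B ℂ), Fintype.card B < n + finrank ℂ (LinearMap.ker (W - 1).mulVecLin) →
      W * Wᴴ = 1 → W * (1 - e) = 1 - e → Wᵀ * J * W = J → (Jᵀ = -J ∨ det W = 1) →
      ∃ k ∈ KK Om L, (∀ e', Mi L e' → (∀ X ∈ Ide L e, X * e' = 0) → mt k * e' = e') ∧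
        mt k * e = W * e := by
  intro n
  induction n with
  | zero =>
    intro W h1
    exfalso
    rw [zero_add] at h1
    have h2 := Submodule.finrank_le (LinearMap.ker (W - 1).mulVecLin)
    rw [Module.finrank_pi] at h2
    omega
  | succ n ih =>
    intro W hn hW hWe hWJ hdet
    by_cases hW1 : W = 1
    · refine ⟨1, (KK Om L).one_mem, fun e' _ _ => by rw [mt_one, one_mul], ?_⟩
      rw [hW1, mt_one]
    obtain ⟨x, lam, hx1, hWx, hlam1, hiso⟩ := find hW hWJ hW1 hdet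
    have hW' : Wᴴ * W = 1 := mul_eq_one_comm.1 hW
    -- the eigenvalue
    have hlam : star lam * lam = 1 := by
      have h1 : star (W *ᵥ x) ⬝ᵥ (W *ᵥ x) = 1 := by
        rw [star_mulVec, ← dotProduct_mulVec, mulVec_mulVec, hW', one_mulVec, hx1]
      rw [hWx, star_smul, smul_dotProduct, dotProduct_smul, hx1, smul_eq_mul, smul_eq_mul,
        mul_one] at h1
      exact h1
    have hlam' : lam * star lam = 1 := by rw [mul_comm, hlam]
    have hnorm : ‖lam‖ = 1 := by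
      have h3 : star lam * lam = ((‖lam‖ ^ 2 : ℝ) : ℂ) := by
        push_cast
        exact Complex.conj_mul' lam
      rw [hlam] at h3
      have h6 : ‖lam‖ ^ 2 = 1 := by exact_mod_cast h3.symm
      have h7 := norm_nonneg lam
      nlinarith
    obtain ⟨θ, hθ⟩ : ∃ θ : ℝ, Complex.exp (θ * Complex.I) = lam := by
      refine ⟨Complex.arg lam, ?_⟩
      have h1 := Complex.norm_mul_exp_arg_mul_I lam
      rw [hnorm, Complex.ofReal_one, one_mul] at h1
      exact h1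
    have hθ' : Complex.exp (-(θ * Complex.I)) = star lam := by
      rw [Complex.exp_neg, hθ]
      exact inv_eq_of_mul_eq_one_right hlam'
    -- the vector is in the range of e
    have heW : (1 - e) * W = 1 - e := by
      have h1 : Wᴴ * (1 - e) = 1 - e := by
        calc Wᴴ * (1 - e) = Wᴴ * (W * (1 - e)) := by rw [hWe]
          _ = _ := by rw [← mul_assoc, hW', one_mul]
      have h2 := congrArg Matrix.conjTranspose h1
      rw [conjTranspose_mul, conjTranspose_conjTranspose, conjTranspose_sub, conjTranspose_one,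
        h.eh] at h2
      exact h2
    have hex : e *ᵥ x = x := by
      have h1 : (1 - e) *ᵥ (W *ᵥ x) = (1 - e) *ᵥ x := by rw [mulVec_mulVec, heW]
      rw [hWx, mulVec_smul] at h1
      have h2 : (lam - 1) • ((1 - e) *ᵥ x) = 0 := by rw [sub_smul, one_smul, h1, sub_self]
      have h3 := (smul_eq_zero.1 h2).resolve_left (sub_ne_zero.2 hlam1)
      rw [sub_mulVec, one_mulVec] at h3
      exact (sub_eq_zero.1 h3).symm
    obtain ⟨p, q, ⟨pp, qq, hpq, hqp, hpH, hqH⟩, ⟨ep, eq'⟩, ⟨Jp, Jq⟩, ⟨Wp, Wq⟩, hpx, htp, htq⟩ :=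
      pq h hx1 hex hiso hW hWJ hWx
    have pe : p * e = p := by
      have h1 := congrArg Matrix.conjTranspose ep
      rwa [conjTranspose_mul, h.eh, hpH] at h1
    have qe : q * e = q := by
      have h1 := congrArg Matrix.conjTranspose eq'
      rwa [conjTranspose_mul, h.eh, hqH] at h1
    -- the element of the group
    obtain ⟨T, hT⟩ : ∃ T, T = (θ * Complex.I) • (p - q) := ⟨_, rfl⟩
    have hT1 : e * T * e = T := by
      rw [hT, Matrix.mul_smul, Matrix.smul_mul, mul_sub, ep, eq', sub_mul, pe, qe]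
    have hT2 : Tᴴ = -T := by
      rw [hT, conjTranspose_smul, conjTranspose_sub, hpH, hqH, ← neg_smul]
      congr 1
      rw [star_mul']
      have h3 : star (θ : ℂ) = (θ : ℂ) := Complex.conj_ofReal _
      have h4 : star Complex.I = -Complex.I := Complex.conj_I
      rw [h3, h4, mul_neg]
    have hT3 : Tᵀ * J + J * T = 0 := by
      rw [hT, transpose_smul, transpose_sub, Matrix.smul_mul, Matrix.mul_smul, sub_mul, mul_sub,
        Jp, Jq, ← smul_add]
      rw [sub_add_sub_cancel, sub_self, smul_zero]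
    obtain ⟨k1, hk1, hk1e, hk1Q⟩ := grp1 hO hL he h.eh (hfull T hT1 hT3) hT2 (by
      rw [hT, Matrix.mul_smul, mul_sub, ep, eq'])
    have kp1 : mt k1 * p = lam • p := by
      rw [hk1Q p (θ * Complex.I) ep (by rw [hT, Matrix.smul_mul, sub_mul, pp, hqp, sub_zero]), hθ]
    have kq1 : mt k1 * q = star lam • q := by
      rw [hk1Q q (-(θ * Complex.I)) eq' (by
        rw [hT, Matrix.smul_mul, sub_mul, qq, hpq, zero_sub, smul_neg, neg_smul]), hθ']
    have kr1 : mt k1 * (e - p - q) = e - p - q := by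
      rw [hk1Q (e - p - q) 0 (by rw [mul_sub, mul_sub, h.ee, ep, eq']) (by
        rw [hT, Matrix.smul_mul, zero_smul]
        have h1 : (p - q) * (e - p - q) = 0 := by
          rw [sub_mul, mul_sub, mul_sub, mul_sub, mul_sub, pe, pp, hpq, qe, hqp, qq]
          abel
        rw [h1, smul_zero]), Complex.exp_zero, one_smul]
    -- the inverse
    obtain ⟨a, ha⟩ : ∃ a, a = star lam - 1 := ⟨_, rfl⟩
    obtain ⟨b, hb⟩ : ∃ b, b = lam - 1 := ⟨_, rfl⟩
    have hab : a + b + a * b = 0 := by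
      rw [ha, hb]
      linear_combination hlam
    have hsa : star a = b := by rw [ha, hb, star_sub, star_star, star_one]
    have hsb : star b = a := by rw [ha, hb, star_sub, star_one]
    obtain ⟨Z, hZ⟩ : ∃ Z : Matrix B B ℂ, Z = 1 + a • p + b • q := ⟨_, rfl⟩
    have hZH : Zᴴ = 1 + b • p + a • q := by
      rw [hZ, conjTranspose_add, conjTranspose_add, conjTranspose_one, conjTranspose_smul,
        conjTranspose_smul, hpH, hqH, hsa, hsb]
    have hmul : ∀ a b a' b' : ℂ, (1 + a • p + b • q) * (1 + a' • p + b' • q) =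
        1 + (a + a' + a * a') • p + (b + b' + b * b') • q := by
      intro a b a' b'
      have h1 : (1 + a • p + b • q) * (1 + a' • p + b' • q) = 1 + a • p + b • q + a' • p + b' • q +
          (a * a') • (p * p) + (b * b') • (q * q) + (a * b') • (p * q) + (b * a') • (q * p) := by
        simp only [add_mul, mul_add, one_mul, mul_one, Matrix.smul_mul, Matrix.mul_smul, smul_smul]
        rw [mul_comm a' a, mul_comm b' b, mul_comm b' a, mul_comm a' b]
        abel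
      rw [h1, pp, qq, hpq, hqp, smul_zero, smul_zero, add_smul, add_smul, add_smul, add_smul]
      abel
    have hZZ : Z * Zᴴ = 1 := by
      rw [hZH, hZ, hmul, hab]
      have h1 : b + a + b * a = 0 := by rw [← hab]; ring
      rw [h1, zero_smul, zero_smul, add_zero, add_zero]
    have hZe : Z * (1 - e) = 1 - e := by
      rw [hZ, add_mul, add_mul, one_mul, Matrix.smul_mul, Matrix.smul_mul, mul_sub, mul_sub, pe, qe,
        mul_one, mul_one, sub_self, sub_self, smul_zero, smul_zero, add_zero, add_zero]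
    have hZJ : Zᵀ * J * Z = J := by
      have h1 : Zᵀ * J = J * (1 + b • p + a • q) := by
        rw [hZ, transpose_add, transpose_add, transpose_one, transpose_smul, transpose_smul,
          add_mul, add_mul, Matrix.smul_mul, Matrix.smul_mul, ← Jp, ← Jq, mul_add, mul_add,
          Matrix.mul_smul, Matrix.mul_smul, one_mul, mul_one]
        abel
      rw [h1, mul_assoc, ← hZH]
      have h2 : Zᴴ * Z = 1 := mul_eq_one_comm.1 hZZ
      rw [h2, mul_one]
    have hZdet : det Z = 1 := by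
      rw [hZ, det_pq pp qq hpq htp htq, ha, hb]
      linear_combination hlam
    -- the induction hypothesis
    have hker : finrank ℂ (LinearMap.ker (W - 1).mulVecLin) <
        finrank ℂ (LinearMap.ker (W * Z - 1).mulVecLin) := by
      apply Submodule.finrank_lt_finrank_of_lt
      have hmem : ∀ (M : Matrix B B ℂ) v, v ∈ LinearMap.ker (M - 1).mulVecLin ↔ M *ᵥ v = v := by
        intro M v
        rw [LinearMap.mem_ker, mulVecLin_apply, sub_mulVec, one_mulVec, sub_eq_zero]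
      have kill : ∀ (p : Matrix B B ℂ) (c : ℂ) v, pᴴ = p → c ≠ 1 → c * star c = 1 →
          W * p = c • p → W *ᵥ v = v → p *ᵥ v = 0 := by
        intro p c v hpH hc1 hcc hWp hv
        have h1 : p * Wᴴ = star c • p := by
          have h2 := congrArg Matrix.conjTranspose hWp
          rwa [conjTranspose_mul, hpH, conjTranspose_smul, hpH] at h2
        have h2 : p * W = c • p := by
          calc p * W = (c * star c) • (p * W) := by rw [hcc, one_smul]
            _ = c • (star c • p) * W := by rw [smul_smul, Matrix.smul_mul]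
            _ = c • (p * Wᴴ * W) := by rw [← h1, Matrix.smul_mul]
            _ = _ := by rw [mul_assoc, hW', mul_one]
        have h3 : p *ᵥ v = c • (p *ᵥ v) := by
          conv_lhs => rw [← hv, mulVec_mulVec, h2, smul_mulVec]
        have h4 : (1 - c) • (p *ᵥ v) = 0 := by rw [sub_smul, one_smul, ← h3, sub_self]
        exact (smul_eq_zero.1 h4).resolve_left (sub_ne_zero.2 (Ne.symm hc1))
      refine lt_of_le_of_ne (fun v hv => ?_) (fun h0 => ?_)
      · rw [hmem] at hv ⊢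
        have h1 := kill p lam v hpH hlam1 hlam' Wp hv
        have h2 := kill q (star lam) v hqH (by
          intro h0
          apply hlam1
          have h3 := congrArg star h0
          rwa [star_star, star_one] at h3) (by rw [star_star, hlam]) Wq hv
        rw [← mulVec_mulVec, hZ, add_mulVec, add_mulVec, one_mulVec, smul_mulVec, smul_mulVec,
          h1, h2, smul_zero, smul_zero, add_zero, add_zero, hv]
      · have h1 : x ∈ LinearMap.ker (W * Z - 1).mulVecLin := by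
          rw [hmem, ← mulVec_mulVec]
          have h2 : q *ᵥ x = 0 := by
            rw [← hpx, mulVec_mulVec, hqp, zero_mulVec]
          rw [hZ, add_mulVec, add_mulVec, one_mulVec, smul_mulVec, smul_mulVec, h2, hpx, smul_zero,
            add_zero]
          have h3 : x + a • x = star lam • x := by
            rw [ha, sub_smul, one_smul, add_sub_cancel]
          rw [h3, mulVec_smul, hWx, smul_smul, hlam, one_smul]
        rw [← h0, hmem, hWx] at h1
        have h2 : (lam - 1) • x = 0 := by rw [sub_smul, one_smul, h1, sub_self]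
        have h3 := (smul_eq_zero.1 h2).resolve_left (sub_ne_zero.2 hlam1)
        rw [h3, dotProduct_zero] at hx1
        exact zero_ne_one hx1
    obtain ⟨k2, hk2, hk2e, hk2W⟩ := ih (W * Z) (by omega) (by
      calc W * Z * (W * Z)ᴴ = W * (Z * Zᴴ) * Wᴴ := by rw [conjTranspose_mul]; noncomm_ring
        _ = 1 := by rw [hZZ, mul_one, hW]) (by rw [mul_assoc, hZe, hWe]) (by
      calc (W * Z)ᵀ * J * (W * Z) = Zᵀ * (Wᵀ * J * W) * Z := by rw [transpose_mul]; noncomm_ring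
        _ = J := by rw [hWJ, hZJ]) (by
      rcases hdet with h1 | h1
      · exact Or.inl h1
      · exact Or.inr (by rw [det_mul, h1, hZdet, one_mul]))
    refine ⟨k2 * k1, (KK Om L).mul_mem hk2 hk1, fun e' he' hX => ?_, ?_⟩
    · rw [mt_mul, mul_assoc, hk1e e' he' hX, hk2e e' he' hX]
    · have h1 : mt k1 * e = e * (1 + b • p + a • q) := by
        have h2 : e = (e - p - q) + p + q := by abel
        have h3 : mt k1 * e = (e - p - q) + lam • p + star lam • q := by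
          nth_rewrite 1 [h2]
          rw [mul_add, mul_add, kr1, kp1, kq1]
        rw [h3, mul_add, mul_add, Matrix.mul_smul, Matrix.mul_smul, ep, eq', mul_one, ha, hb,
          sub_smul, sub_smul, one_smul, one_smul]
        abel
      have h4 : e * Zᴴ = Zᴴ * e := by
        rw [hZH, mul_add, mul_add, add_mul, add_mul, Matrix.mul_smul, Matrix.mul_smul,
          Matrix.smul_mul, Matrix.smul_mul, ep, eq', pe, qe, mul_one, one_mul]
      calc mt (k2 * k1) * e = mt k2 * (mt k1 * e) := by rw [mt_mul, mul_assoc]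
        _ = (mt k2 * e) * Zᴴ := by rw [h1, ← hZH, mul_assoc]
        _ = W * Z * (e * Zᴴ) := by rw [hk2W, mul_assoc]
        _ = W * (Z * Zᴴ) * e := by rw [h4]; noncomm_ring
        _ = _ := by rw [hZZ, mul_one]

/-! ### The relation with two lines -/

section rel

open GJ6 GJ7

/-- Intertwiners give relations with two lines. -/
theorem two_lines (hO : IsOm Om) (hL : LD Om L) {Dm : (ℂ ≃+* ℂ) → Matrix B B ℂ} (H : Hull L Dm)
    {v : USp Om} (hv : FixU Om L v) {e e' M : Matrix B B ℂ} {a : ℂ} (he : Mi L e)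
    (he' : Mi L e') (hM0 : M ≠ 0) (h1 : e * M = M) (h2 : M * e' = M)
    (hM : ∀ X ∈ Dr L, X * M = M * X) (hvM : mt v * M * mt v⁻¹ = a • M) :
    ∃ (F F' : Matrix B B ℂ) (b b' : ℂ), Li L F ∧ Li L F' ∧ mt v * F = b • F ∧
    mt v * F' = b' • F' ∧ (∀ X ∈ L, fc e X + fc F X + fc F' X = fc e' X) ∧ a * (b * b') = 1 := by
  obtain ⟨G, hG⟩ := H.one
  have hGl : ∀ σ, Dm σ * G = trace (Dm σ * G) • G := fun σ =>
    line_sc hG.1.2.1 hG.2 (hG.1.1 _ (H.mem σ))
  have hGs : ∀ σ, trace (Dm σ * G) = 1 ∨ trace (Dm σ * G) = -1 := fun σ =>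
    sgn hG.1.2.2.2.1 (H.sq σ) (hGl σ)
  obtain ⟨δ, hδ⟩ : ∃ δ : (ℂ ≃+* ℂ) → ℂ, ∀ σ, δ σ = fc e (Dm σ) - fc e' (Dm σ) :=
    ⟨fun σ => fc e (Dm σ) - fc e' (Dm σ), fun σ => rfl⟩
  have hδ3 : ∀ σ, δ σ = 0 ∨ δ σ = 2 ∨ δ σ = -2 := fun σ =>
    del hM0 (H.sq σ) (by rw [hδ]; exact itw hL he he' h1 h2 hM (H.mem σ))
  have hδo : ∀ σ, δ (cj.trans σ) = -δ σ := by
    intro σ
    rw [hδ, hδ, H.odd, fc_neg, fc_neg]
    ring
  have hgo : ∀ σ, trace (Dm (cj.trans σ) * G) = -trace (Dm σ * G) := by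
    intro σ
    rw [H.odd, neg_mul, trace_neg]
  have hdep : ∀ σ τ, (∀ e, Mi L e → trace (Dm σ * e) = trace (Dm τ * e)) →
      δ σ = δ τ ∧ trace (Dm σ * G) = trace (Dm τ * G) := by
    intro σ τ h
    refine ⟨?_, h G hG.1⟩
    rw [hδ, hδ]
    unfold fc
    rw [h e he, h e' he']
  classical
  obtain ⟨F, hF⟩ : ∃ F : (ℂ ≃+* ℂ) → ℤ, ∀ σ, F σ = if δ σ = 2 then -1 else if δ σ = -2 then 1
    else if trace (Dm σ * G) = 1 then 1 else -1 := ⟨_, fun σ => rfl⟩
  obtain ⟨F', hF'⟩ : ∃ F' : (ℂ ≃+* ℂ) → ℤ, ∀ σ, F' σ = if δ σ = 2 then -1 else if δ σ = -2 then 1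
    else if trace (Dm σ * G) = 1 then -1 else 1 := ⟨_, fun σ => rfl⟩
  have n1 : (2 : ℂ) ≠ -2 := by norm_num
  have n2 : (-2 : ℂ) ≠ 2 := by norm_num
  have n3 : (0 : ℂ) ≠ 2 := by norm_num
  have n4 : (0 : ℂ) ≠ -2 := by norm_num
  have n5 : (-1 : ℂ) ≠ 1 := by norm_num
  have kF : ∀ σ, ((F σ : ℂ) = if δ σ = 2 then -1 else if δ σ = -2 then 1 else
      trace (Dm σ * G)) := by
    intro σ
    rw [hF]
    split_ifs with k1 k2 k3
    · push_cast; rfl
    · push_cast; rfl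
    · rw [k3]; push_cast; rfl
    · rcases hGs σ with h | h
      · exact absurd h k3
      · rw [h]; push_cast; rfl
  have kF' : ∀ σ, ((F' σ : ℂ) = if δ σ = 2 then -1 else if δ σ = -2 then 1 else
      -trace (Dm σ * G)) := by
    intro σ
    rw [hF']
    split_ifs with k1 k2 k3
    · push_cast; rfl
    · push_cast; rfl
    · rw [k3]; push_cast; rfl
    · rcases hGs σ with h | h
      · exact absurd h k3
      · rw [h]; push_cast; ring
  have pF : ∀ σ, F σ = 1 ∨ F σ = -1 := by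
    intro σ
    rw [hF]
    split_ifs <;> simp
  have pF' : ∀ σ, F' σ = 1 ∨ F' σ = -1 := by
    intro σ
    rw [hF']
    split_ifs <;> simp
  have oF : ∀ σ, F (cj.trans σ) = -F σ := by
    intro σ
    have h3 : ((F (cj.trans σ) : ℤ) : ℂ) = ((-F σ : ℤ) : ℂ) := by
      rw [Int.cast_neg, kF, kF, hδo, hgo]
      rcases hδ3 σ with h | h | h
      · rw [h, neg_zero, if_neg n3, if_neg n4, if_neg n3, if_neg n4]
      · rw [h, if_neg n2, if_pos rfl, if_pos rfl, neg_neg]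
      · rw [h, neg_neg, if_pos rfl, if_neg n2, if_pos rfl]
    exact_mod_cast h3
  have oF' : ∀ σ, F' (cj.trans σ) = -F' σ := by
    intro σ
    have h3 : ((F' (cj.trans σ) : ℤ) : ℂ) = ((-F' σ : ℤ) : ℂ) := by
      rw [Int.cast_neg, kF', kF', hδo, hgo]
      rcases hδ3 σ with h | h | h
      · rw [h, neg_zero, if_neg n3, if_neg n4, if_neg n3, if_neg n4]
      · rw [h, if_neg n2, if_pos rfl, if_pos rfl, neg_neg]
      · rw [h, neg_neg, if_pos rfl, if_neg n2, if_pos rfl]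
    exact_mod_cast h3
  obtain ⟨F1, hF1, hF1s⟩ := H.hull F pF oF (fun σ τ h => by
    obtain ⟨h3, h4⟩ := hdep σ τ h
    rw [hF, hF, h3, h4])
  obtain ⟨F2, hF2, hF2s⟩ := H.hull F' pF' oF' (fun σ τ h => by
    obtain ⟨h3, h4⟩ := hdep σ τ h
    rw [hF', hF', h3, h4])
  have hrel : ∀ X ∈ L, fc e X + fc F1 X + fc F2 X = fc e' X := by
    obtain ⟨N, hN⟩ : ∃ N : Submodule ℂ (Matrix B B ℂ), ∀ X, X ∈ N ↔
        (X ∈ L ∧ fc e X + fc F1 X + fc F2 X = fc e' X) :=
      ⟨{ carrier := {X | X ∈ L ∧ fc e X + fc F1 X + fc F2 X = fc e' X}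
         add_mem' := by
           rintro X Y ⟨k1, k2⟩ ⟨k3, k4⟩
           refine ⟨L.add_mem k1 k3, ?_⟩
           rw [fc_add, fc_add, fc_add, fc_add, ← k2, ← k4]
           ring
         zero_mem' := by
           refine ⟨L.zero_mem, ?_⟩
           unfold fc
           simp
         smul_mem' := by
           rintro c X ⟨k1, k2⟩
           refine ⟨L.smul_mem _ k1, ?_⟩
           rw [fc_smul, fc_smul, fc_smul, fc_smul, ← k2]
           ring }, fun X => Iff.rfl⟩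
    have h3 : L ≤ N := by
      refine H.gen N (fun σ => (hN _).2 ⟨H.mem σ, ?_⟩) ?_
      · have h4 : fc F1 (Dm σ) = F σ := by
          unfold fc
          rw [hF1s, trace_smul, hF1.2, smul_eq_mul, mul_one, div_one]
        have h5 : fc F2 (Dm σ) = F' σ := by
          unfold fc
          rw [hF2s, trace_smul, hF2.2, smul_eq_mul, mul_one, div_one]
        have h6 : fc e (Dm σ) = fc e' (Dm σ) + δ σ := by rw [hδ]; ring
        rw [h4, h5, h6, kF, kF']
        rcases hδ3 σ with h | h | h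
        · rw [h, if_neg n3, if_neg n4, if_neg n3, if_neg n4]; ring
        · rw [h, if_pos rfl, if_pos rfl]; ring
        · rw [h, if_neg n2, if_pos rfl, if_neg n2, if_pos rfl]; ring
      · intro X hX Y hY
        have hX' := ((hN X).1 hX).1
        have hY' := ((hN Y).1 hY).1
        refine (hN _).2 ⟨hL.br X hX' Y hY', ?_⟩
        rw [fc_Dr he.1 (Dr_br hX' hY'), fc_Dr he'.1 (Dr_br hX' hY'),
          fc_Dr hF1.1.1 (Dr_br hX' hY'), fc_Dr hF2.1.1 (Dr_br hX' hY')]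
        ring
    intro X hX
    exact ((hN X).1 (h3 hX)).2
  have hcomm : ∀ {N : Matrix B B ℂ}, N ∈ CM L → mt v * N = N * mt v := fun hN =>
    comm_f2 hO hL hv.f2 hN
  have b1 := line_sc hF1.1.2.1 hF1.2 (hcomm hF1.1.1)
  have b2 := line_sc hF2.1.2.1 hF2.2 (hcomm hF2.1.1)
  obtain ⟨b, hb⟩ : ∃ b, b = trace (mt v * F1) := ⟨_, rfl⟩
  obtain ⟨b', hb'⟩ : ∃ b', b' = trace (mt v * F2) := ⟨_, rfl⟩
  rw [← hb] at b1
  rw [← hb'] at b2
  refine ⟨F1, F2, b, b', hF1, hF2, b1, b2, hrel, ?_⟩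
  -- vectors in the lines
  have hvec : ∀ {F : Matrix B B ℂ}, F * F = F → F ≠ 0 → ∃ f : B → ℂ, f ≠ 0 ∧ F *ᵥ f = f := by
    intro F hFF hF0
    by_contra hcon
    push Not at hcon
    apply hF0
    ext i j
    have h3 := hcon (F *ᵥ Pi.single j 1)
    by_cases h4 : F *ᵥ Pi.single j 1 = 0
    · have h5 := congrFun h4 i
      rw [mulVec_single_one] at h5
      exact h5
    · exact absurd (by rw [mulVec_mulVec, hFF]) (h3 h4)
  obtain ⟨f, hf0, hf⟩ := hvec hF1.1.2.1 hF1.1.2.2.2.1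
  obtain ⟨f', hf0', hf'⟩ := hvec hF2.1.2.1 hF2.1.2.2.2.1
  obtain ⟨N, hN⟩ : ∃ N, N = -(vecMulVec f f' * Om) := ⟨_, rfl⟩
  have hNO : N * Om = vecMulVec f f' := by
    rw [hN, neg_mul, mul_assoc, hO.sq, mul_neg, mul_one, neg_neg]
  have hN0 : WJ1.ph Om N ≠ 0 := by
    intro h
    have h3 : N = 0 := WJ1.ph_inj hO (by rw [h, map_zero])
    rw [h3, zero_mul] at hNO
    obtain ⟨i, hi⟩ := Function.ne_iff.1 hf0
    obtain ⟨j, hj⟩ := Function.ne_iff.1 hf0'
    have h4 := congrFun (congrFun hNO i) j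
    rw [vecMulVec_apply] at h4
    exact mul_ne_zero hi hj h4.symm
  have hMp0 : WJ1.ph Om M ≠ 0 := by
    intro h
    exact hM0 (WJ1.ph_inj hO (by rw [h, map_zero]))
  have hXf : ∀ X ∈ L, X * N - N * X = (fc F1 X + fc F2 X) • N := by
    intro X hX
    have k1 : X *ᵥ f = fc F1 X • f := by
      have h3 := line_sc hF1.1.2.1 hF1.2 (hF1.1.1 X hX)
      have h4 : fc F1 X = trace (X * F1) := by unfold fc; rw [hF1.2, div_one]
      nth_rewrite 1 [← hf]
      rw [mulVec_mulVec, h3, smul_mulVec, hf, h4]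
    have k2 : X *ᵥ f' = fc F2 X • f' := by
      have h3 := line_sc hF2.1.2.1 hF2.2 (hF2.1.1 X hX)
      have h4 : fc F2 X = trace (X * F2) := by unfold fc; rw [hF2.2, div_one]
      nth_rewrite 1 [← hf']
      rw [mulVec_mulVec, h3, smul_mulVec, hf', h4]
    have k3 : Om * X = -(Xᵀ * Om) := by
      rw [eq_neg_iff_add_eq_zero, add_comm]
      exact hL.sp X hX
    have k4 : X * N = fc F1 X • N := by
      rw [hN, mul_neg, ← mul_assoc, mul_vecMulVec, k1, smul_vecMulVec, Matrix.smul_mul, smul_neg]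
    have k5 : N * X = -(fc F2 X • N) := by
      rw [hN, neg_mul, mul_assoc, k3, mul_neg, neg_neg, ← mul_assoc, vecMulVec_mul,
        vecMul_transpose, k2, vecMulVec_smul, Matrix.smul_mul, smul_neg, neg_neg]
    rw [k4, k5, add_smul, sub_neg_eq_add]
  have hvN : mt v * N * mt v⁻¹ = (b * b') • N := by
    have k1 : mt v *ᵥ f = b • f := by
      nth_rewrite 1 [← hf]
      rw [mulVec_mulVec, b1, smul_mulVec, hf]
    have k2 : mt v *ᵥ f' = b' • f' := by
      nth_rewrite 1 [← hf']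
      rw [mulVec_mulVec, b2, smul_mulVec, hf']
    have k3 : Om * mt v⁻¹ = (mt v)ᵀ * Om := by
      have h3 := mt_sp v
      calc Om * mt v⁻¹ = (mt v)ᵀ * Om * mt v * mt v⁻¹ := by rw [h3]
        _ = _ := by rw [mul_assoc, mt_mul_inv, mul_one]
    have k4 : mt v * N = b • N := by
      rw [hN, mul_neg, ← mul_assoc, mul_vecMulVec, k1, smul_vecMulVec, Matrix.smul_mul, smul_neg]
    have k5 : N * mt v⁻¹ = b' • N := by
      rw [hN, neg_mul, mul_assoc, k3, ← mul_assoc, vecMulVec_mul,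
        vecMul_transpose, k2, vecMulVec_smul, Matrix.smul_mul, smul_neg]
    rw [k4, Matrix.smul_mul, k5, smul_smul]
  obtain ⟨z, hz⟩ : ∃ z, z = pp (WJ1.ph Om M) (WJ1.ph Om N) := ⟨_, rfl⟩
  have hz0 : z ≠ 0 := by rw [hz]; exact pp_ne hMp0 hN0
  have hzI : z ∈ InvL L ((Fin 1 ⊕ Fin 1) ⊕ (Fin 1 ⊕ Fin 1)) := by
    rw [mem_InvL]
    intro X hX
    have k1 : X * M - M * X = (fc e X - fc e' X) • M := by
      rw [itw hL he he' h1 h2 hM hX, add_sub_cancel_left]
    rw [hz, dm_pp, WJ1.dm_ph hO (hL.sp X hX), WJ1.dm_ph hO (hL.sp X hX), k1, hXf X hX, map_smul,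
      map_smul, pp_smul_l, pp_smul_r, ← add_smul]
    have k2 : fc e X - fc e' X + (fc F1 X + fc F2 X) = 0 := by
      rw [← hrel X hX]
      ring
    rw [k2, zero_smul]
  have h4 := fixes (((Equiv.sumCongr (finSumFinEquiv (m := 1) (n := 1))
    (finSumFinEquiv (m := 1) (n := 1))).trans (finSumFinEquiv (m := 2) (n := 2))).symm) hv.f4 z hzI
  rw [hz, kp_pp, kp_ph hO, kp_ph hO, hvN, hvM, map_smul, map_smul, pp_smul_l, pp_smul_r,
    smul_smul, ← hz] at h4
  have h5 : (a * (b * b') - 1) • z = 0 := by rw [sub_smul, one_smul, h4, sub_self]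
  exact sub_eq_zero.1 ((smul_eq_zero.1 h5).resolve_right hz0)

end rel

/-! ### The scalar -/

/-- Schur's lemma for forms. -/
theorem schur (hL : LD Om L) {e J J' : Matrix B B ℂ} (he : Mi L e) (h1 : J * e = J)
    (h2 : J' * e = J') (h3 : ∀ X ∈ Dr L, Xᵀ * J + J * X = 0)
    (h4 : ∀ X ∈ Dr L, Xᵀ * J' + J' * X = 0) : ∃ c : ℂ, Jᴴ * J' = c • e := by
  have heJ : e * Jᴴ = Jᴴ := by
    have h5 := congrArg Matrix.conjTranspose h1
    rwa [conjTranspose_mul, he.2.2.1] at h5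
  have heN : e * (Jᴴ * J') = Jᴴ * J' := by rw [← mul_assoc, heJ]
  have hNe : (Jᴴ * J') * e = Jᴴ * J' := by rw [mul_assoc, h2]
  have hD : ∀ X ∈ Dr L, X * (Jᴴ * J') = (Jᴴ * J') * X := by
    intro X hX
    have h5 := h3 _ (GJ1.Dr_adj hL hX)
    have h6 := congrArg Matrix.conjTranspose (eq_neg_of_add_eq_zero_left h5)
    have h7 : ((Xᴴ)ᵀ * J)ᴴ = Jᴴ * Xᵀ := by
      rw [conjTranspose_mul]
      have h8 : ((Xᴴ)ᵀ)ᴴ = ((Xᴴ)ᴴ)ᵀ := rfl
      rw [h8, conjTranspose_conjTranspose]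
    rw [h7, conjTranspose_neg, conjTranspose_mul, conjTranspose_conjTranspose] at h6
    have h8 : X * Jᴴ = -(Jᴴ * Xᵀ) := by rw [h6, neg_neg]
    have h9 := eq_neg_of_add_eq_zero_left (h4 X hX)
    rw [← mul_assoc, h8, neg_mul, mul_assoc, h9, mul_neg, neg_neg, mul_assoc]
  have hCM : Jᴴ * J' ∈ CM L := by
    intro X hX
    obtain ⟨X', X'', k1, k2, k3, k4⟩ := GJ6.dec_Dr hL hX
    have k5 := GJ7.ce_scal he k4.1 (k4.2 e he.1)
    have k6 : X'' * (Jᴴ * J') = fc e X'' • (Jᴴ * J') := by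
      calc X'' * (Jᴴ * J') = X'' * e * (Jᴴ * J') := by rw [mul_assoc, heN]
        _ = _ := by rw [k5, Matrix.smul_mul, heN]
    have k7 : (Jᴴ * J') * X'' = fc e X'' • (Jᴴ * J') := by
      calc (Jᴴ * J') * X'' = (Jᴴ * J') * (e * X'') := by rw [← mul_assoc (Jᴴ * J'), hNe]
        _ = _ := by rw [k4.2 e he.1, k5, Matrix.mul_smul, hNe]
    rw [k1, add_mul, mul_add, hD X' k2, k6, k7]
  obtain ⟨c, hc⟩ := he.2.2.2.2 _ hCM
  exact ⟨c, by rw [← hc, heN, hNe]⟩

theorem norm_one {c : ℂ} (h : star c * c = 1) : ‖c‖ = 1 := by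
  have h3 : star c * c = ((‖c‖ ^ 2 : ℝ) : ℂ) := by
    push_cast
    exact Complex.conj_mul' c
  rw [h] at h3
  have h6 : ‖c‖ ^ 2 = 1 := by exact_mod_cast h3.symm
  have h7 := norm_nonneg c
  nlinarith

theorem of_norm_one {c : ℂ} (h : ‖c‖ = 1) : star c * c = 1 := by
  have h3 : star c * c = ((‖c‖ ^ 2 : ℝ) : ℂ) := by
    push_cast
    exact Complex.conj_mul' c
  rw [h3, h]
  norm_num

/-- Normalization of the form. -/
theorem normJ (hL : LD Om L) {e J : Matrix B B ℂ} (he : Mi L e) (h0 : J ≠ 0) (h1 : J * e = J)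
    (h3 : ∀ X ∈ Dr L, Xᵀ * J + J * X = 0) :
    ∃ r : ℝ, r ≠ 0 ∧ ((r : ℂ) • J)ᴴ * ((r : ℂ) • J) = e := by
  obtain ⟨c, hc⟩ := schur hL he h1 h1 h3 h3
  obtain ⟨w, hw0, hw⟩ : ∃ w : B → ℂ, w ≠ 0 ∧ e *ᵥ w = w := by
    by_contra hcon
    push Not at hcon
    apply he.2.2.2.1
    ext i j
    have h5 := hcon (e *ᵥ Pi.single j 1)
    by_cases h4 : e *ᵥ Pi.single j 1 = 0
    · have h5 := congrFun h4 i
      rw [mulVec_single_one] at h5
      exact h5
    · exact absurd (by rw [mulVec_mulVec, he.2.1]) (h5 h4)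
  obtain ⟨r, hr, hr1⟩ := nrm hw0
  obtain ⟨x, hx⟩ : ∃ x, x = r • w := ⟨_, rfl⟩
  rw [← hx] at hr1
  have hex : e *ᵥ x = x := by rw [hx, mulVec_smul, hw]
  have h4 : star (J *ᵥ x) ⬝ᵥ (J *ᵥ x) = c := by
    rw [star_mulVec, ← dotProduct_mulVec, mulVec_mulVec, hc, smul_mulVec, hex, dotProduct_smul,
      hr1, smul_eq_mul, mul_one]
  rw [dot_real] at h4
  obtain ⟨t, ht⟩ : ∃ t : ℝ, t = ∑ i, ‖(J *ᵥ x) i‖ ^ 2 := ⟨_, rfl⟩
  have ht0 : 0 ≤ t := by
    rw [ht]
    exact Finset.sum_nonneg fun i _ => sq_nonneg _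
  rw [← ht] at h4
  have ht1 : t ≠ 0 := by
    intro h5
    apply h0
    apply trace_self_eq_zero
    rw [hc, ← h4, h5, Complex.ofReal_zero, zero_smul, trace_zero]
  have ht2 : 0 < t := lt_of_le_of_ne ht0 (Ne.symm ht1)
  refine ⟨(Real.sqrt t)⁻¹, inv_ne_zero (Real.sqrt_pos.2 ht2).ne', ?_⟩
  have h5 : star ((((Real.sqrt t)⁻¹ : ℝ)) : ℂ) = (((Real.sqrt t)⁻¹ : ℝ) : ℂ) :=
    Complex.conj_ofReal _
  rw [conjTranspose_smul, h5, Matrix.smul_mul, Matrix.mul_smul, smul_smul, hc, ← h4, smul_smul,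
    ← Complex.ofReal_mul, ← Complex.ofReal_mul]
  have h6 : (Real.sqrt t)⁻¹ * (Real.sqrt t)⁻¹ * t = 1 := by
    rw [← mul_inv, Real.mul_self_sqrt ht2.le, inv_mul_cancel₀ ht1]
  rw [h6, Complex.ofReal_one, one_smul]

/-- The scalar of the form. -/
theorem scal (hO : IsOm Om) (hL : LD Om L) {u : USp Om} (hu : GJ1.F24 L u) {e J : Matrix B B ℂ}
    {s : ℂ} (he : Mi L e) (h : FDt e J s) (h3 : ∀ X ∈ Dr L, Xᵀ * J + J * X = 0) :
    ∃ c : ℂ, ‖c‖ = 1 ∧ (mt u)ᵀ * J * mt u = (c * c) • J := by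
  have hue : mt u * e = e * mt u := GJ1.comm hO hL hu he.1
  have hUU : mt u * (mt u)ᴴ = 1 := mt_mul_inv u
  have hUU' : (mt u)ᴴ * mt u = 1 := mt_inv_mul u
  obtain ⟨J', hJ'⟩ : ∃ J', J' = (mt u)ᵀ * J * mt u := ⟨_, rfl⟩
  have k1 : J' * e = J' := by
    rw [hJ', mul_assoc, hue, ← mul_assoc, mul_assoc _ J, h.Je]
  have k2 : ∀ X ∈ Dr L, Xᵀ * J' + J' * X = 0 := by
    intro X hX
    have h5 := h3 _ (GJ1.conj_Dr hO hL hu hX)
    have h6 : Xᵀ * J' + J' * X = (mt u)ᵀ * ((mt u * X * mt u⁻¹)ᵀ * J +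
        J * (mt u * X * mt u⁻¹)) * mt u := by
      have h7 : (mt u)ᵀ * (mt u⁻¹)ᵀ = 1 := by rw [← transpose_mul, mt_inv_mul, transpose_one]
      rw [hJ', transpose_mul, transpose_mul]
      calc Xᵀ * ((mt u)ᵀ * J * mt u) + (mt u)ᵀ * J * mt u * X =
          1 * Xᵀ * (mt u)ᵀ * J * mt u + (mt u)ᵀ * J * mt u * X * 1 := by noncomm_ring
        _ = ((mt u)ᵀ * (mt u⁻¹)ᵀ) * Xᵀ * (mt u)ᵀ * J * mt u +
            (mt u)ᵀ * J * mt u * X * (mt u⁻¹ * mt u) := by rw [h7, mt_inv_mul]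
        _ = _ := by noncomm_ring
    rw [h6, h5, mul_zero, zero_mul]
  obtain ⟨c2, hc2⟩ := schur hL he h.Je k1 h3 k2
  have k3 : eᵀ * J' = J' := by
    have h5 : eᵀ * (mt u)ᵀ = (mt u)ᵀ * eᵀ := by rw [← transpose_mul, hue, transpose_mul]
    rw [hJ', ← mul_assoc, ← mul_assoc, h5, mul_assoc _ eᵀ, h.eJ]
  have k4 : J' = c2 • J := by
    calc J' = J * Jᴴ * J' := by rw [h.JJ', k3]
      _ = J * (Jᴴ * J') := by rw [mul_assoc]
      _ = _ := by rw [hc2, Matrix.mul_smul, h.Je]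
  have k5 : J'ᴴ * J' = e := by
    have h5 : ((mt u)ᵀ)ᴴ * (mt u)ᵀ = 1 := by
      have h6 : ((mt u)ᵀ)ᴴ = ((mt u)ᴴ)ᵀ := rfl
      rw [h6, ← transpose_mul, hUU, transpose_one]
    rw [hJ', conjTranspose_mul, conjTranspose_mul]
    calc (mt u)ᴴ * (Jᴴ * ((mt u)ᵀ)ᴴ) * ((mt u)ᵀ * J * mt u) =
        (mt u)ᴴ * (Jᴴ * (((mt u)ᵀ)ᴴ * (mt u)ᵀ) * J) * mt u := by noncomm_ring
      _ = (mt u)ᴴ * e * mt u := by rw [h5, mul_one, h.JJ]
      _ = _ := by rw [mul_assoc, ← hue, ← mul_assoc, hUU', one_mul]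
  have k6 : star c2 * c2 = 1 := by
    rw [k4, conjTranspose_smul, Matrix.smul_mul, Matrix.mul_smul, h.JJ, smul_smul] at k5
    have h5 : (star c2 * c2 - 1) • e = 0 := by rw [sub_smul, one_smul, k5, sub_self]
    exact sub_eq_zero.1 ((smul_eq_zero.1 h5).resolve_right he.2.2.2.1)
  obtain ⟨c, hc⟩ := IsAlgClosed.exists_pow_nat_eq c2 (n := 2) (by norm_num)
  refine ⟨c, ?_, ?_⟩
  · have h5 := norm_one k6
    rw [← hc, norm_pow] at h5
    have h6 := norm_nonneg c
    nlinarith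
  · rw [← hJ', k4, ← hc, pow_two]

/-- The determinant in the symmetric case. -/
theorem detu (hO : IsOm Om) (hL : LD Om L) {Dm : (ℂ ≃+* ℂ) → Matrix B B ℂ} (H : Hull L Dm)
    {u : USp Om} (hu : FixU Om L u) {e J : Matrix B B ℂ} {s : ℂ} (he : Mi L e) (h : FDt e J s)
    (h3 : ∀ X ∈ Dr L, Xᵀ * J + J * X = 0) {c : ℂ} (hc : star c * c = 1)
    (hcJ : (mt u)ᵀ * J * mt u = c • J) {m : ℕ} (hm : trace e = 2 * (m : ℂ)) :
    det (mt u * e + 1 - e) = c ^ m := by
  have he1 : Mi L (st Om e) := GJ9.st_Mi hO hL he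
  obtain ⟨M, hM⟩ : ∃ M, M = -(Om * J) := ⟨_, rfl⟩
  have hJ0 : J ≠ 0 := by
    intro h0
    apply he.2.2.2.1
    rw [← h.JJ, h0, mul_zero]
  have hM0 : M ≠ 0 := by
    intro h0
    apply hJ0
    have h5 : Om * M = J := by rw [hM, mul_neg, ← mul_assoc, hO.sq, neg_mul, one_mul, neg_neg]
    rw [← h5, h0, mul_zero]
  have k1 : st Om e * M = M := by
    unfold st
    calc -(Om * eᵀ * Om) * M = Om * eᵀ * (Om * Om) * J := by rw [hM]; noncomm_ring
      _ = -(Om * (eᵀ * J)) := by rw [hO.sq]; noncomm_ring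
      _ = M := by rw [h.eJ, hM]
  have k2 : M * e = M := by rw [hM, neg_mul, mul_assoc, h.Je]
  have k3 : ∀ X ∈ Dr L, X * M = M * X := by
    intro X hX
    have h5 := GJ6.st_mul_Om hO (hL.sp X (GJ1.Dr_le hL hX))
    have h6 := eq_neg_of_add_eq_zero_left (h3 X hX)
    calc X * M = -(X * Om) * J := by rw [hM]; noncomm_ring
      _ = Om * (Xᵀ * J) := by rw [h5]; noncomm_ring
      _ = _ := by rw [h6, hM]; noncomm_ring
  have k4 : mt u * M * mt u⁻¹ = star c • M := by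
    have h5 : mt u * Om = Om * (mt u⁻¹)ᵀ := by
      have h6 := hO.uOu u
      have h7 : (mt u)ᵀ * (mt u⁻¹)ᵀ = 1 := by rw [← transpose_mul, mt_inv_mul, transpose_one]
      calc mt u * Om = mt u * Om * ((mt u)ᵀ * (mt u⁻¹)ᵀ) := by rw [h7, mul_one]
        _ = mt u * Om * (mt u)ᵀ * (mt u⁻¹)ᵀ := by noncomm_ring
        _ = _ := by rw [h6]
    have h6 : (mt u⁻¹)ᵀ * J * mt u⁻¹ = star c • J := by
      have h7 : (mt u⁻¹)ᵀ * (mt u)ᵀ = 1 := by rw [← transpose_mul, mt_mul_inv, transpose_one]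
      have h8 : J = c • ((mt u⁻¹)ᵀ * J * mt u⁻¹) := by
        calc J = ((mt u⁻¹)ᵀ * (mt u)ᵀ) * J * (mt u * mt u⁻¹) := by
              rw [h7, mt_mul_inv, one_mul, mul_one]
          _ = (mt u⁻¹)ᵀ * ((mt u)ᵀ * J * mt u) * mt u⁻¹ := by noncomm_ring
          _ = _ := by rw [hcJ, Matrix.mul_smul, Matrix.smul_mul]
      conv_rhs => rw [h8]
      rw [smul_smul, hc, one_smul]
    calc mt u * M * mt u⁻¹ = -((mt u * Om) * J * mt u⁻¹) := by rw [hM]; noncomm_ring
      _ = -(Om * ((mt u⁻¹)ᵀ * J * mt u⁻¹)) := by rw [h5]; noncomm_ring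
      _ = _ := by rw [h6, Matrix.mul_smul, hM, smul_neg]
  obtain ⟨F, F', b, b', hF, hF', hb, hb', hrel, hbb⟩ :=
    two_lines hO hL H hu he1 he hM0 k1 k2 k3 k4
  obtain ⟨hb0, hst⟩ := GJ3.v_st hO hL hu.f2 hF hb
  obtain ⟨hb0', hst'⟩ := GJ3.v_st hO hL hu.f2 hF' hb'
  have hte : trace e ≠ 0 := GJ7.tr_ne he
  have hfce : ∀ X ∈ L, fc (st Om e) X = -fc e X := by
    intro X hX
    have h5 : X * st Om e = -st Om (e * X) := by
      rw [WJ12.st_mul hO, WJ12.st_L hO hL hX, neg_mul, neg_neg]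
    unfold fc
    rw [h5, trace_neg, WJ12.trace_st hO, WJ12.trace_st hO, trace_mul_comm, neg_div]
  have hdt := GJ3.dt_gen hu (ι := Option (Fin m ⊕ Fin m))
    (e := fun i => match i with
      | none => e
      | some (Sum.inl _) => st Om F
      | some (Sum.inr _) => st Om F') (by
      rintro (_ | (i | i))
      · exact he
      · exact (GJ3.Li_st hO hL hF).1
      · exact (GJ3.Li_st hO hL hF').1) (by
      intro X hX
      rw [Fintype.sum_option, Fintype.sum_sum_type]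
      simp only [Finset.sum_const, Finset.card_univ, Fintype.card_fin, nsmul_eq_mul]
      rw [GJ3.fc_st hO hL hF hX, GJ3.fc_st hO hL hF' hX]
      have h5 := hrel X hX
      rw [hfce X hX] at h5
      have h6 : fc e X * (2 * (m : ℂ)) = trace (X * e) := by
        rw [← hm]
        unfold fc
        rw [div_mul_cancel₀ _ hte]
      linear_combination -h6 - (m : ℂ) * h5)
  rw [Fintype.prod_option, Fintype.prod_sum_type] at hdt
  simp only [Finset.prod_const, Finset.card_univ, Fintype.card_fin] at hdt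
  rw [GJ3.det_line (GJ3.Li_st hO hL hF) hst, GJ3.det_line (GJ3.Li_st hO hL hF') hst'] at hdt
  have h5 : b * b' = c := by
    have h6 : c * (star c * (b * b')) = c := by rw [hbb, mul_one]
    rw [← mul_assoc, mul_comm c, hc, one_mul] at h6
    exact h6
  rw [← h5, mul_pow]
  have hbm : b ^ m ≠ 0 := pow_ne_zero _ hb0
  have hbm' : b' ^ m ≠ 0 := pow_ne_zero _ hb0'
  rw [inv_pow, inv_pow] at hdt
  field_simp at hdt
  exact hdt

end GH9

open GH9 in
/-- **H9.** The group in the orthogonal and symplectic cases. -/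
theorem funor_of : St_funor := by
  intro B _ _ Om L hO hL Dm H u hu e hFu
  obtain ⟨hMi, -, J0, hJ00, hJ0e, heJ0, hsym, hJ0D, hfull0⟩ := hFu
  have hu24 : GJ1.F24 L u := ⟨hu.f2, hu.f4⟩
  have hue : mt u * e = e * mt u := GJ1.comm hO hL hu24 hMi.1
  obtain ⟨he, hee, heh, he0, hmin⟩ := id hMi
  have hUU : mt u * (mt u)ᴴ = 1 := mt_mul_inv u
  obtain ⟨r, hr0, hrJ⟩ := normJ hL hMi hJ00 hJ0e hJ0D
  have hr0' : (r : ℂ) ≠ 0 := Complex.ofReal_ne_zero.2 hr0
  obtain ⟨J, hJ⟩ : ∃ J, J = (r : ℂ) • J0 := ⟨_, rfl⟩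
  rw [← hJ] at hrJ
  obtain ⟨s, hs, hsJ⟩ : ∃ s : ℂ, (s = 1 ∨ s = -1) ∧ Jᵀ = s • J := by
    rcases hsym with h | ⟨h, -⟩
    · exact ⟨-1, Or.inr rfl, by rw [hJ, transpose_smul, h, smul_neg, neg_smul, one_smul]⟩
    · exact ⟨1, Or.inl rfl, by rw [hJ, transpose_smul, h, one_smul]⟩
  have hD : FDt e J s := ⟨hee, heh, by rw [hJ, Matrix.smul_mul, hJ0e],
    by rw [hJ, Matrix.mul_smul, heJ0], hrJ, hsJ, hs⟩
  have hJD : ∀ X ∈ Dr L, Xᵀ * J + J * X = 0 := by
    intro X hX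
    rw [hJ, Matrix.mul_smul, Matrix.smul_mul, ← smul_add, hJ0D X hX, smul_zero]
  have hfull : ∀ T : Matrix B B ℂ, e * T * e = T → Tᵀ * J + J * T = 0 →
      ∃ X ∈ Dr L, X * e = T := by
    intro T h1 h2
    refine hfull0 T h1 ?_
    rw [hJ, Matrix.mul_smul, Matrix.smul_mul, ← smul_add] at h2
    exact (smul_eq_zero.1 h2).resolve_left hr0'
  obtain ⟨c, hcn, hcJ⟩ := scal hO hL hu24 hMi hD hJD
  have hc := of_norm_one hcn
  have hc' : c * star c = 1 := by rw [mul_comm, hc]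
  obtain ⟨W, hW⟩ : ∃ W, W = star c • (mt u * e) + (1 - e) := ⟨_, rfl⟩
  have he1 : e * (1 - e) = 0 := by rw [mul_sub, mul_one, hee, sub_self]
  have he2 : (1 - e) * e = 0 := by rw [sub_mul, one_mul, hee, sub_self]
  have he3 : (1 - e) * (1 - e) = 1 - e := by rw [mul_sub, mul_one, he2, sub_zero]
  have w1 : W * Wᴴ = 1 := by
    rw [hW, conjTranspose_add, conjTranspose_smul, star_star, conjTranspose_mul,
      conjTranspose_sub, conjTranspose_one, heh, add_mul, mul_add, mul_add, he3]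
    have h1 : star c • (mt u * e) * (1 - e) = 0 := by
      rw [Matrix.smul_mul, mul_assoc, he1, mul_zero, smul_zero]
    have h2 : (1 - e) * (c • (e * (mt u)ᴴ)) = 0 := by
      rw [Matrix.mul_smul, ← mul_assoc, he2, zero_mul, smul_zero]
    have h3 : star c • (mt u * e) * (c • (e * (mt u)ᴴ)) = e := by
      rw [Matrix.smul_mul, Matrix.mul_smul, smul_smul, hc, one_smul]
      calc mt u * e * (e * (mt u)ᴴ) = (mt u * (e * e)) * (mt u)ᴴ := by noncomm_ring
        _ = e * (mt u * (mt u)ᴴ) := by rw [hee, hue, mul_assoc]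
        _ = _ := by rw [hUU, mul_one]
    rw [h1, h2, h3]
    abel
  have w2 : W * (1 - e) = 1 - e := by
    rw [hW, add_mul, he3, Matrix.smul_mul, mul_assoc, he1, mul_zero, smul_zero, zero_add]
  have w3 : Wᵀ * J * W = J := by
    have h1 : (1 - e)ᵀ * J = 0 := by
      rw [transpose_sub, transpose_one, sub_mul, one_mul, hD.eJ, sub_self]
    have h2 : J * (1 - e) = 0 := by rw [mul_sub, mul_one, hD.Je, sub_self]
    have h3 : Wᵀ * J = star c • ((mt u)ᵀ * J) := by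
      rw [hW, transpose_add, transpose_smul, add_mul, h1, add_zero, Matrix.smul_mul,
        hue, transpose_mul, mul_assoc, hD.eJ]
    rw [h3, hW, mul_add, Matrix.smul_mul, Matrix.smul_mul, mul_assoc _ J (1 - e), h2, mul_zero,
      smul_zero, add_zero, Matrix.mul_smul, ← mul_assoc, hcJ, Matrix.smul_mul, hD.Je, smul_smul,
      smul_smul]
    have h4 : star c * star c * (c * c) = 1 := by
      linear_combination (star c * c + 1) * hc
    rw [h4, one_smul]
  have w4 : Jᵀ = -J ∨ det W = 1 := by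
    rcases hsym with h | ⟨h, m, hm⟩
    · exact Or.inl (by rw [hJ, transpose_smul, h, smul_neg])
    · right
      have hcc : star (c * c) * (c * c) = 1 := by
        rw [star_mul']
        linear_combination (star c * c + 1) * hc
      have h1 := detu hO hL H hu hMi hD hJD hcc hcJ hm
      have h2 : W = (1 + (star c - 1) • e) * (mt u * e + 1 - e) := by
        have h3 : (1 + (star c - 1) • e) * (mt u * e + 1 - e) = (mt u * e + 1 - e) +
            (star c - 1) • (e * (mt u * e) + e * (1 - e)) := by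
          rw [add_mul, one_mul, Matrix.smul_mul, mul_sub, mul_add, mul_sub]
          congr 2
          rw [add_sub_assoc]
        rw [h3, he1, add_zero, ← mul_assoc, ← hue, mul_assoc, hee, hW, sub_smul, one_smul]
        abel
      have h3 := WJ2.idem_trace' hee (r := 2 * m) (by rw [hm]; push_cast; ring) (star c)
      rw [h2, det_mul, h3, h1, pow_mul, ← mul_pow]
      have h4 : star c ^ 2 * (c * c) = 1 := by
        linear_combination (star c * c + 1) * hc
      rw [h4, one_pow]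
  obtain ⟨k, hk, hke, hkW⟩ := ind hO hL he hD hfull (Fintype.card B + 1) W (by omega) w1 w2 w3 w4
  refine ⟨k, hk, hke, c, ?_⟩
  have h1 : mt u * e = c • (mt k * e) := by
    have h2 : W * e = star c • (mt u * e) := by
      rw [hW, add_mul, he2, add_zero, Matrix.smul_mul, mul_assoc, hee]
    rw [hkW, h2, smul_smul, hc', one_smul]
  rw [mt_mul, mul_assoc, h1, Matrix.mul_smul, ← mul_assoc, mt_inv_mul, one_mul]

end

end Pool.Agent.NH32
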