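import Mathlib

/-!
# Matrix units for the commutant: the linear algebra
-/

set_option linter.unusedSectionVars false

namespace Pool.Agent.NH32.WJ10

open Matrix Module
open scoped ComplexOrder

noncomputable section

variable {B : Type} [Fintype B] [DecidableEq B]

/-- Eigenvalues lower the rank. -/
theorem rank_lt (y h w : Matrix B B ℂ) (hh : h ≠ 0) (hyw : y * h = h * w) :
    ∃ c : ℂ, (y * h - c • h).rank < h.rank := by
  classical
  let V : Submodule ℂ (B → ℂ) := LinearMap.range h.mulVecLin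
  have hV : V ≠ ⊥ := by
    intro h0
    apply hh
    have h1 : h.mulVecLin = 0 := LinearMap.range_eq_bot.1 h0
    ext i j
    have h2 := congrFun (LinearMap.congr_fun h1 (Pi.single j 1)) i
    rw [mulVecLin_apply, mulVec_single_one] at h2
    exact h2
  have hinv : ∀ x ∈ V, y.mulVecLin x ∈ V := by
    rintro _ ⟨x, rfl⟩
    refine ⟨w *ᵥ x, ?_⟩
    simp only [mulVecLin_apply, mulVec_mulVec, hyw]
  let T : V →ₗ[ℂ] V := y.mulVecLin.restrict hinv
  have hnt : Nontrivial V := Submodule.nontrivial_iff_ne_bot.2 hV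
  obtain ⟨c, hc⟩ := Module.End.exists_eigenvalue T
  obtain ⟨v, hv⟩ := hc.exists_hasEigenvector
  refine ⟨c, ?_⟩
  let T' : V →ₗ[ℂ] V := T - c • LinearMap.id
  have hT : ∀ u : V, (T' u : B → ℂ) = y *ᵥ (u : B → ℂ) - c • (u : B → ℂ) := by
    intro u
    rfl
  have h2 : LinearMap.range (y * h - c • h).mulVecLin ≤
      (LinearMap.range T').map V.subtype := by
    rintro _ ⟨x, rfl⟩
    refine ⟨T' ⟨h.mulVecLin x, ⟨x, rfl⟩⟩, ⟨_, rfl⟩, ?_⟩
    rw [Submodule.subtype_apply, hT]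
    simp only [mulVecLin_apply, sub_mulVec, smul_mulVec, mulVec_mulVec]
  have h3 : finrank ℂ (LinearMap.range T') < finrank ℂ V := by
    have h4 := LinearMap.finrank_range_add_finrank_ker T'
    have h5 : 0 < finrank ℂ (LinearMap.ker T') := by
      have h7 : T' v = 0 := by
        have h6 := hv.apply_eq_smul
        change T v - c • v = 0
        rw [h6, sub_self]
      rw [Nat.pos_iff_ne_zero]
      intro h8
      have h9 := Submodule.finrank_eq_zero.1 h8
      have h10 : v ∈ LinearMap.ker T' := h7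
      rw [h9, Submodule.mem_bot] at h10
      exact hv.2 h10
    omega
  calc (y * h - c • h).rank = finrank ℂ (LinearMap.range (y * h - c • h).mulVecLin) := rfl
    _ ≤ finrank ℂ ((LinearMap.range T').map V.subtype) :=
        Submodule.finrank_mono h2
    _ = finrank ℂ (LinearMap.range T') :=
        by rw [Submodule.finrank_map_subtype_eq]
    _ < finrank ℂ V := h3

/-- The properties of the commutant. -/
structure Alg (A : Submodule ℂ (Matrix B B ℂ)) : Prop where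
  one : 1 ∈ A
  mul : ∀ a ∈ A, ∀ b ∈ A, a * b ∈ A
  adj : ∀ a ∈ A, aᴴ ∈ A

variable {A : Submodule ℂ (Matrix B B ℂ)} {E : Matrix B B ℂ}

/-- Minimal projections. -/
theorem min_proj (hA : Alg A) (hE : E ∈ A) (hEE : E * E = E) (hE0 : E ≠ 0)
    (hEc : ∀ a ∈ A, a * E = E * a) : ∃ p ∈ A, pᴴ = p ∧ p * p = p ∧ p ≠ 0 ∧ E * p = p ∧
    ∀ N ∈ A, ∃ c : ℂ, p * N * p = c • p := by
  classical
  obtain ⟨x, ⟨hx1, hx2, hx3⟩, hmin⟩ := (measure (fun x : Matrix B B ℂ => x.rank)).wf.has_min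
    {x | x ∈ A ∧ E * x = x ∧ x ≠ 0} ⟨E, hE, hEE, hE0⟩
  have hmin' : ∀ y ∈ A, E * y = y → y.rank < x.rank → y = 0 := by
    intro y hy hy' hlt
    by_contra h0
    exact hmin y ⟨hy, hy', h0⟩ hlt
  let h : Matrix B B ℂ := xᴴ * x
  have hh0 : h ≠ 0 := fun h0 => hx3 (conjTranspose_mul_self_eq_zero.1 h0)
  have hhA : h ∈ A := hA.mul _ (hA.adj _ hx1) _ hx1
  have hhE : E * h = h := by
    change E * (xᴴ * x) = xᴴ * x
    rw [← mul_assoc, ← hEc _ (hA.adj _ hx1), mul_assoc, hx2]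
  have hhr : h.rank ≤ x.rank := rank_mul_le_right _ _
  have hhH : hᴴ = h := by
    change (xᴴ * x)ᴴ = xᴴ * x
    rw [conjTranspose_mul, conjTranspose_conjTranspose]
  obtain ⟨c, hc⟩ := rank_lt h h h hh0 rfl
  have h1 : h * h - c • h = 0 := by
    refine hmin' _ (A.sub_mem (hA.mul _ hhA _ hhA) (A.smul_mem _ hhA)) ?_ (lt_of_lt_of_le hc hhr)
    rw [mul_sub, ← mul_assoc, hhE, Matrix.mul_smul, hhE]
  have h2 : h * h = c • h := sub_eq_zero.1 h1
  have hc0 : c ≠ 0 := by
    rintro rfl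
    rw [zero_smul] at h2
    apply hh0
    apply conjTranspose_mul_self_eq_zero.1
    rw [hhH, h2]
  have hcr : star c = c := by
    have h3 := congrArg conjTranspose h2
    rw [conjTranspose_mul, hhH, conjTranspose_smul, hhH, h2] at h3
    have h4 : (c - star c) • h = 0 := by rw [sub_smul, h3, sub_self]
    rcases smul_eq_zero.1 h4 with h5 | h5
    · exact (sub_eq_zero.1 h5).symm
    · exact absurd h5 hh0
  obtain ⟨p, hp⟩ : ∃ p : Matrix B B ℂ, p = c⁻¹ • h := ⟨_, rfl⟩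
  have hpA : p ∈ A := hp ▸ A.smul_mem _ hhA
  have hp0 : p ≠ 0 := hp ▸ smul_ne_zero (inv_ne_zero hc0) hh0
  have hpp : p * p = p := by
    rw [hp, Matrix.smul_mul, Matrix.mul_smul, h2, smul_smul, smul_smul]
    congr 1
    field_simp
  have hpE : E * p = p := by
    rw [hp, Matrix.mul_smul, hhE]
  have hpr : p.rank ≤ x.rank := by
    refine le_trans ?_ hhr
    have h3 : p = (c⁻¹ • (1 : Matrix B B ℂ)) * h := by
      rw [hp, Matrix.smul_mul, one_mul]
    rw [h3]
    exact rank_mul_le_right _ _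
  refine ⟨p, hpA, ?_, hpp, hp0, hpE, fun N hN => ?_⟩
  · rw [hp, conjTranspose_smul, hhH, star_inv₀, hcr]
  · obtain ⟨c', hc'⟩ := rank_lt (p * N) p (N * p) hp0 (mul_assoc _ _ _)
    refine ⟨c', sub_eq_zero.1 (hmin' _ ?_ ?_ (lt_of_lt_of_le hc' hpr))⟩
    · exact A.sub_mem (hA.mul _ (hA.mul _ hpA _ hN) _ hpA) (A.smul_mem _ hpA)
    · rw [mul_sub, Matrix.mul_smul, hpE, ← mul_assoc, ← mul_assoc, hpE]

/-- Orthonormal bases. -/
theorem onb {n : Type} [Fintype n] [DecidableEq n] (S : Submodule ℂ (n → ℂ)) :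
    ∃ (m : ℕ) (f : Fin m → n → ℂ), (∀ k, f k ∈ S) ∧
      (∀ k l, star (f k) ⬝ᵥ f l = if k = l then 1 else 0) ∧
      ∀ a ∈ S, a = ∑ k, (star (f k) ⬝ᵥ a) • f k := by
  let e : (n → ℂ) ≃ₗ[ℂ] EuclideanSpace ℂ n := (WithLp.linearEquiv 2 ℂ (n → ℂ)).symm
  let S' : Submodule ℂ (EuclideanSpace ℂ n) := S.map (e : (n → ℂ) →ₗ[ℂ] EuclideanSpace ℂ n)
  let b := stdOrthonormalBasis ℂ S'
  have hin : ∀ x y : EuclideanSpace ℂ n, inner ℂ x y = star (e.symm x) ⬝ᵥ e.symm y := by
    intro x y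
    rw [dotProduct_comm]
    exact EuclideanSpace.inner_eq_star_dotProduct _ _
  refine ⟨_, fun k => e.symm (b k : EuclideanSpace ℂ n), fun k => ?_, fun k l => ?_, fun a ha => ?_⟩
  · obtain ⟨y, hy, hy'⟩ := (b k).2
    change e.symm (b k : EuclideanSpace ℂ n) ∈ S
    rw [← hy']
    simpa using hy
  · rw [← hin]
    have h1 := orthonormal_iff_ite.1 b.orthonormal k l
    exact h1
  · have h1 : e a ∈ S' := ⟨a, ha, rfl⟩
    have h2 := b.sum_repr ⟨e a, h1⟩
    have h3 := congrArg (fun z : S' => e.symm (z : EuclideanSpace ℂ n)) h2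
    simp only [Submodule.coe_sum, Submodule.coe_smul, map_sum, map_smul,
      LinearEquiv.symm_apply_apply] at h3
    refine h3.symm.trans (Finset.sum_congr rfl fun k _ => ?_)
    congr 1
    rw [OrthonormalBasis.repr_apply_apply]
    have h4 : inner ℂ (b k) (⟨e a, h1⟩ : S') = inner ℂ (b k : EuclideanSpace ℂ n) (e a) := rfl
    rw [h4, hin, LinearEquiv.symm_apply_apply]

/-- The Hilbert module of a minimal projection. -/
theorem hilb (hA : Alg A) {p : Matrix B B ℂ} (hp : p ∈ A) (hpH : pᴴ = p) (hpp : p * p = p)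
    (hp0 : p ≠ 0) (hpm : ∀ N ∈ A, ∃ c : ℂ, p * N * p = c • p) :
    ∃ (m : ℕ) (v : Fin m → Matrix B B ℂ), (∀ k, v k ∈ A) ∧ (∀ k, v k * p = v k) ∧
      (∀ k l, (v k)ᴴ * v l = if k = l then p else 0) ∧
      ∀ a ∈ A, a * p = a → a = ∑ k, v k * ((v k)ᴴ * a) := by
  classical
  -- the trace of `p`
  obtain ⟨τ, hτ0, hτ⟩ : ∃ τ : ℝ, 0 < τ ∧ trace p = (τ : ℂ) := by
    have h1 : 0 ≤ trace (pᴴ * p) := (posSemidef_conjTranspose_mul_self p).trace_nonneg
    have h2 : trace (pᴴ * p) ≠ 0 := fun h => hp0 (trace_conjTranspose_mul_self_eq_zero_iff.1 h)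
    rw [hpH, hpp] at h1 h2
    rw [Complex.le_def] at h1
    refine ⟨(trace p).re, lt_of_le_of_ne h1.1 fun h => h2 ?_, ?_⟩
    · exact Complex.ext h.symm h1.2.symm
    · exact Complex.ext rfl h1.2.symm
  have hτ0' : (τ : ℂ) ≠ 0 := by
    exact_mod_cast hτ0.ne'
  -- the subspace
  let cu : Matrix B B ℂ ≃ₗ[ℂ] (B × B → ℂ) := (LinearEquiv.curry ℂ ℂ B B).symm
  let H : Submodule ℂ (Matrix B B ℂ) :=
    { carrier := {a | a ∈ A ∧ a * p = a}
      add_mem' := by
        rintro a b ⟨ha, ha'⟩ ⟨hb, hb'⟩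
        exact ⟨A.add_mem ha hb, by rw [add_mul, ha', hb']⟩
      zero_mem' := ⟨A.zero_mem, zero_mul _⟩
      smul_mem' := by
        rintro c a ⟨ha, ha'⟩
        exact ⟨A.smul_mem c ha, by rw [Matrix.smul_mul, ha']⟩ }
  have hcu : ∀ a b : Matrix B B ℂ, star (cu a) ⬝ᵥ cu b = trace (aᴴ * b) := by
    intro a b
    rw [trace, dotProduct, Fintype.sum_prod_type, Finset.sum_comm]
    refine Finset.sum_congr rfl fun j _ => ?_
    rw [diag_apply, Matrix.mul_apply]
    rfl
  obtain ⟨m, f, hf1, hf2, hf3⟩ := onb (H.map (cu : Matrix B B ℂ →ₗ[ℂ] (B × B → ℂ)))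
  have hw : ∀ k, ∃ w ∈ H, cu w = f k := fun k => hf1 k
  choose w hwH hwf using hw
  have hin : ∀ a ∈ H, ∀ b ∈ H, ∃ c : ℂ, aᴴ * b = c • p ∧ trace (aᴴ * b) = c * τ := by
    rintro a ⟨ha, ha'⟩ b ⟨hb, hb'⟩
    obtain ⟨c, hc⟩ := hpm (aᴴ * b) (hA.mul _ (hA.adj _ ha) _ hb)
    have h1 : aᴴ * b = p * (aᴴ * b) * p := by
      have h2 : p * aᴴ = aᴴ := by
        have h3 := congrArg conjTranspose ha'
        rwa [conjTranspose_mul, hpH] at h3
      rw [← mul_assoc p, h2, mul_assoc, hb']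
    refine ⟨c, h1.trans hc, ?_⟩
    rw [h1, hc, trace_smul, hτ, smul_eq_mul]
  have hsq : ((Real.sqrt τ : ℝ) : ℂ) * ((Real.sqrt τ : ℝ) : ℂ) = (τ : ℂ) := by
    rw [← Complex.ofReal_mul, Real.mul_self_sqrt hτ0.le]
  have hst : star ((Real.sqrt τ : ℝ) : ℂ) = ((Real.sqrt τ : ℝ) : ℂ) := Complex.conj_ofReal _
  refine ⟨m, fun k => ((Real.sqrt τ : ℝ) : ℂ) • w k, fun k => A.smul_mem _ (hwH k).1, fun k => ?_,
    fun k l => ?_, fun a ha ha' => ?_⟩
  · rw [Matrix.smul_mul, (hwH k).2]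
  · obtain ⟨c, hc1, hc2⟩ := hin _ (hwH k) _ (hwH l)
    rw [conjTranspose_smul, hst, Matrix.smul_mul, Matrix.mul_smul, smul_smul, hsq, hc1, smul_smul]
    rw [← hcu, hwf, hwf, hf2] at hc2
    rw [mul_comm, ← hc2]
    by_cases hkl : k = l
    · rw [if_pos hkl, if_pos hkl, one_smul]
    · rw [if_neg hkl, if_neg hkl, zero_smul]
  · have h1 := hf3 (cu a) ⟨a, ⟨ha, ha'⟩, rfl⟩
    have h2 : cu a = cu (∑ k, trace ((w k)ᴴ * a) • w k) := by
      rw [h1, map_sum]
      refine Finset.sum_congr rfl fun k _ => ?_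
      rw [map_smul, hwf, ← hwf k, hcu]
    have h3 := cu.injective h2
    refine h3.trans (Finset.sum_congr rfl fun k _ => ?_)
    obtain ⟨c, hc1, hc2⟩ := hin _ (hwH k) _ ⟨ha, ha'⟩
    rw [hc2, conjTranspose_smul, hst, Matrix.smul_mul, Matrix.smul_mul, Matrix.mul_smul, smul_smul,
      hsq, hc1, Matrix.mul_smul, (hwH k).2, smul_smul, mul_comm]

/-- An orthonormal basis of the range of a projection. -/
theorem rng {p : Matrix B B ℂ} (hpH : pᴴ = p) (hpp : p * p = p) :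
    ∃ (d : ℕ) (f : Fin d → B → ℂ), (∀ i, p *ᵥ f i = f i) ∧
      (∀ i j, star (f i) ⬝ᵥ f j = if i = j then 1 else 0) ∧
      ∑ i, vecMulVec (f i) (star (f i)) = p := by
  classical
  obtain ⟨d, f, hf1, hf2, hf3⟩ := onb (LinearMap.range p.mulVecLin)
  have h1 : ∀ i, p *ᵥ f i = f i := by
    intro i
    obtain ⟨x, hx⟩ := hf1 i
    rw [← hx, mulVecLin_apply, mulVec_mulVec, hpp]
  refine ⟨d, f, h1, hf2, ?_⟩
  have h2 : ∀ a, (∑ i, vecMulVec (f i) (star (f i))) *ᵥ a = p *ᵥ a := by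
    intro a
    have h3 := hf3 (p *ᵥ a) ⟨a, rfl⟩
    rw [h3, sum_mulVec]
    refine Finset.sum_congr rfl fun i _ => ?_
    have h4 : star (f i) ⬝ᵥ p *ᵥ a = star (f i) ⬝ᵥ a := by
      rw [dotProduct_mulVec]
      congr 1
      have h5 := congrArg star (h1 i)
      rw [star_mulVec, hpH] at h5
      exact h5
    rw [h4]
    ext b
    rw [mulVec, dotProduct, Pi.smul_apply, smul_eq_mul, dotProduct, Finset.sum_mul]
    refine Finset.sum_congr rfl fun c _ => ?_
    rw [vecMulVec_apply]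
    ring
  ext b c
  have h3 := congrFun (h2 (Pi.single c 1)) b
  rw [mulVec_single_one, mulVec_single_one] at h3
  exact h3

/-- **Matrix units.** -/
theorem core (hA : Alg A) (hE : E ∈ A) (hEE : E * E = E) (hE0 : E ≠ 0)
    (hEc : ∀ a ∈ A, a * E = E * a)
    (hEm : ∀ z ∈ A, (∀ a ∈ A, a * z = z * a) → ∃ c : ℂ, z * E = c • E) :
    ∃ (d m : ℕ) (ε : Fin d → Fin d → Matrix B B ℂ),
    0 < d ∧ 0 < m ∧ (∀ i j, ∀ M ∈ A, ε i j * M = M * ε i j) ∧
    (∀ i j k l, ε i j * ε k l = if j = k then ε i l else 0) ∧ ∑ i, ε i i = E ∧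
    (∀ i j, (ε i j)ᴴ = ε j i) ∧
    (∀ X, (∀ M ∈ A, X * M = M * X) → ∃ x : Fin d → Fin d → ℂ, X * E = ∑ i, ∑ j, x i j • ε i j) ∧
    (∀ i, trace (ε i i) = m) ∧ ∀ e ∈ A, e * e = e → e ≠ 0 → E * e = e →
      (∀ M ∈ A, ∃ c : ℂ, e * M * e = c • e) →
      ∀ i j, trace (ε i j * e) = if i = j then 1 else 0 := by
  classical
  obtain ⟨p, hpA, hpH, hpp, hp0, hpE, hpm⟩ := min_proj hA hE hEE hE0 hEc
  obtain ⟨m, v, hvA, hvp, hvv, hvs⟩ := hilb hA hpA hpH hpp hp0 hpm
  obtain ⟨d, f, hf1, hf2, hf3⟩ := rng hpH hpp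
  have hpv : ∀ k, p * (v k)ᴴ = (v k)ᴴ := by
    intro k
    have h1 := congrArg conjTranspose (hvp k)
    rwa [conjTranspose_mul, hpH] at h1
  -- the sum `Q` is `E`
  have hQ : ∑ k, v k * (v k)ᴴ = E := by
    obtain ⟨Q, hQd⟩ : ∃ Q, Q = ∑ k, v k * (v k)ᴴ := ⟨_, rfl⟩
    rw [← hQd]
    have hQ1 : ∀ a ∈ A, a * p = a → Q * a = a := by
      intro a ha ha'
      conv_rhs => rw [hvs a ha ha']
      rw [hQd, Finset.sum_mul]
      exact Finset.sum_congr rfl fun k _ => mul_assoc _ _ _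
    have hQA : Q ∈ A := hQd ▸ A.sum_mem fun k _ => hA.mul _ (hvA k) _ (hA.adj _ (hvA k))
    have hQH : Qᴴ = Q := by
      rw [hQd, conjTranspose_sum]
      refine Finset.sum_congr rfl fun k _ => ?_
      rw [conjTranspose_mul, conjTranspose_conjTranspose]
    have hQ2 : ∀ M ∈ A, Q * (M * Q) = M * Q := by
      intro M hM
      have h1 : M * Q = ∑ k, (M * v k) * (v k)ᴴ := by
        rw [hQd, Finset.mul_sum]
        exact Finset.sum_congr rfl fun k _ => (mul_assoc _ _ _).symm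
      rw [h1, Finset.mul_sum]
      refine Finset.sum_congr rfl fun k _ => ?_
      rw [← mul_assoc, hQ1 _ (hA.mul _ hM _ (hvA k)) (by rw [mul_assoc, hvp])]
    have hQ3 : ∀ M ∈ A, M * Q = Q * M := by
      intro M hM
      have h1 := congrArg conjTranspose (hQ2 _ (hA.adj _ hM))
      rw [conjTranspose_mul, conjTranspose_mul, hQH, conjTranspose_conjTranspose] at h1
      rw [← hQ2 M hM, ← mul_assoc, h1]
    have hEQ : E * Q = Q := by
      rw [hQd, Finset.mul_sum]
      refine Finset.sum_congr rfl fun k _ => ?_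
      rw [← mul_assoc, ← hEc _ (hvA k)]
      conv_lhs => rw [← hvp k, mul_assoc (v k), hEc _ hpA, hpE, hvp]
    obtain ⟨c, hc⟩ := hEm Q hQA hQ3
    have h1 : (1 - c) • p = 0 := by
      have h2 : Q * E * p = c • p := by rw [hc, Matrix.smul_mul, hpE]
      rw [mul_assoc, hpE, hQ1 p hpA hpp] at h2
      rw [sub_smul, one_smul, ← h2, sub_self]
    have h3 : c = 1 := by
      rcases smul_eq_zero.1 h1 with h4 | h4
      · exact (sub_eq_zero.1 h4).symm
      · exact absurd h4 hp0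
    rw [h3, one_smul, hEc Q hQA, hEQ] at hc
    exact hc
  -- scalars
  have hsc : ∀ a ∈ A, ∀ k l, ∃ c : ℂ, (v k)ᴴ * a * v l = c • p := by
    intro a ha k l
    obtain ⟨c, hc⟩ := hpm ((v k)ᴴ * a * v l) (hA.mul _ (hA.mul _ (hA.adj _ (hvA k)) _ ha) _ (hvA l))
    refine ⟨c, ?_⟩
    rw [← hc, ← mul_assoc p, ← mul_assoc p, hpv, mul_assoc _ (v l), hvp]
  -- the map `Φ`
  let Φ : Matrix B B ℂ → Matrix B B ℂ := fun G => ∑ k, v k * G * (v k)ᴴ
  have hΦm : ∀ G G', Φ G * Φ G' = Φ (G * p * G') := by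
    intro G G'
    change (∑ k, v k * G * (v k)ᴴ) * (∑ k, v k * G' * (v k)ᴴ) = ∑ k, v k * (G * p * G') * (v k)ᴴ
    rw [Finset.sum_mul_sum]
    refine Finset.sum_congr rfl fun k _ => ?_
    rw [Finset.sum_eq_single k]
    · have h1 : v k * G * (v k)ᴴ * (v k * G' * (v k)ᴴ) =
          v k * G * ((v k)ᴴ * v k) * G' * (v k)ᴴ := by noncomm_ring
      rw [h1, hvv, if_pos rfl]
      noncomm_ring
    · intro l _ hl
      have h1 : v k * G * (v k)ᴴ * (v l * G' * (v l)ᴴ) =
          v k * G * ((v k)ᴴ * v l) * G' * (v l)ᴴ := by noncomm_ring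
      rw [h1, hvv, if_neg (Ne.symm hl)]
      simp
    · intro h
      exact absurd (Finset.mem_univ k) h
  have hΦH : ∀ G, (Φ G)ᴴ = Φ Gᴴ := by
    intro G
    change (∑ k, v k * G * (v k)ᴴ)ᴴ = ∑ k, v k * Gᴴ * (v k)ᴴ
    rw [conjTranspose_sum]
    refine Finset.sum_congr rfl fun k _ => ?_
    rw [conjTranspose_mul, conjTranspose_mul, conjTranspose_conjTranspose, mul_assoc]
  have hΦp : Φ p = E := by
    rw [← hQ]
    change (∑ k, v k * p * (v k)ᴴ) = _
    refine Finset.sum_congr rfl fun k _ => ?_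
    rw [hvp]
  have hΦ0 : Φ 0 = 0 := by
    change (∑ k, v k * 0 * (v k)ᴴ) = 0
    simp
  have hΦs : ∀ (n : ℕ) (G : Fin n → Matrix B B ℂ), Φ (∑ i, G i) = ∑ i, Φ (G i) := by
    intro n G
    change (∑ k, v k * (∑ i, G i) * (v k)ᴴ) = ∑ i, ∑ k, v k * G i * (v k)ᴴ
    rw [Finset.sum_comm]
    refine Finset.sum_congr rfl fun k _ => ?_
    rw [Finset.mul_sum, Finset.sum_mul]
  have hΦc : ∀ (c : ℂ) G, Φ (c • G) = c • Φ G := by
    intro c G
    change (∑ k, v k * (c • G) * (v k)ᴴ) = c • ∑ k, v k * G * (v k)ᴴ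
    rw [Finset.smul_sum]
    refine Finset.sum_congr rfl fun k _ => ?_
    rw [Matrix.mul_smul, Matrix.smul_mul]
  have hΦA : ∀ G, p * G = G → G * p = G → ∀ M ∈ A, Φ G * M = M * Φ G := by
    intro G hG1 hG2 M hM
    have h1 : ∀ k, M * v k = ∑ l, v l * ((v l)ᴴ * M * v k) := by
      intro k
      rw [hvs (M * v k) (hA.mul _ hM _ (hvA k)) (by rw [mul_assoc, hvp])]
      refine Finset.sum_congr rfl fun l _ => ?_
      rw [mul_assoc (v l)ᴴ]
    have h2 : ∀ l, (v l)ᴴ * M = ∑ k, ((v l)ᴴ * M * v k) * (v k)ᴴ := by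
      intro l
      have h3 := hvs (Mᴴ * v l) (hA.mul _ (hA.adj _ hM) _ (hvA l)) (by rw [mul_assoc, hvp])
      have h4 := congrArg conjTranspose h3
      rw [conjTranspose_mul, conjTranspose_conjTranspose, conjTranspose_sum] at h4
      refine h4.trans (Finset.sum_congr rfl fun k _ => ?_)
      rw [conjTranspose_mul, conjTranspose_mul, conjTranspose_mul, conjTranspose_conjTranspose,
        conjTranspose_conjTranspose]
    have h5 : Φ G * M = ∑ l, ∑ k, v l * G * ((v l)ᴴ * M * v k) * (v k)ᴴ := by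
      change (∑ l, v l * G * (v l)ᴴ) * M = _
      rw [Finset.sum_mul]
      refine Finset.sum_congr rfl fun l _ => ?_
      rw [mul_assoc (v l * G), h2 l, Finset.mul_sum]
      refine Finset.sum_congr rfl fun k _ => ?_
      rw [← h2 l]
      noncomm_ring
    have h6 : M * Φ G = ∑ k, ∑ l, v l * ((v l)ᴴ * M * v k) * G * (v k)ᴴ := by
      change M * (∑ k, v k * G * (v k)ᴴ) = _
      rw [Finset.mul_sum]
      refine Finset.sum_congr rfl fun k _ => ?_
      rw [← mul_assoc, ← mul_assoc, h1 k, Finset.sum_mul, Finset.sum_mul]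
    rw [h5, h6, Finset.sum_comm]
    refine Finset.sum_congr rfl fun k _ => Finset.sum_congr rfl fun l _ => ?_
    obtain ⟨c, hc⟩ := hsc M hM l k
    rw [hc, Matrix.mul_smul, Matrix.mul_smul, Matrix.smul_mul, Matrix.smul_mul, Matrix.smul_mul,
      mul_assoc (v l) G, hG2, mul_assoc (v l) p, hG1]
  -- the rank one matrices
  let F : Fin d → Fin d → Matrix B B ℂ := fun i j => vecMulVec (f i) (star (f j))
  have hF1 : ∀ i j, p * F i j = F i j := by
    intro i j
    change p * vecMulVec (f i) (star (f j)) = vecMulVec (f i) (star (f j))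
    rw [mul_vecMulVec, hf1]
  have hFH : ∀ i j, (F i j)ᴴ = F j i := by
    intro i j
    change (vecMulVec (f i) (star (f j)))ᴴ = vecMulVec (f j) (star (f i))
    rw [conjTranspose_vecMulVec, star_star]
  have hF2 : ∀ i j, F i j * p = F i j := by
    intro i j
    have h1 := congrArg conjTranspose (hF1 j i)
    rwa [conjTranspose_mul, hpH, hFH] at h1
  have hFX : ∀ i j k l (X : Matrix B B ℂ), F i j * X * F k l = (star (f j) ⬝ᵥ X *ᵥ f k) • F i l := by
    intro i j k l X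
    change vecMulVec (f i) (star (f j)) * X * vecMulVec (f k) (star (f l)) =
      (star (f j) ⬝ᵥ X *ᵥ f k) • vecMulVec (f i) (star (f l))
    rw [mul_assoc, mul_vecMulVec, vecMulVec_mul_vecMulVec]
    ext b c
    simp only [vecMulVec_apply, Matrix.smul_apply, Pi.smul_apply, smul_eq_mul]
    ring
  have hFF : ∀ i j k l, F i j * p * F k l = if j = k then F i l else 0 := by
    intro i j k l
    rw [hFX, hf1, hf2]
    by_cases hjk : j = k
    · rw [if_pos hjk, if_pos hjk, one_smul]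
    · rw [if_neg hjk, if_neg hjk, zero_smul]
  have hFt : ∀ i j, trace (F i j) = if i = j then 1 else 0 := by
    intro i j
    change trace (vecMulVec (f i) (star (f j))) = _
    rw [trace_vecMulVec, dotProduct_comm, hf2]
    by_cases hij : i = j
    · rw [if_pos hij, if_pos hij.symm]
    · rw [if_neg hij, if_neg (Ne.symm hij)]
  have hFs : ∑ i, F i i = p := hf3
  refine ⟨d, m, fun i j => Φ (F i j), ?_, ?_, fun i j => hΦA _ (hF1 i j) (hF2 i j),
    fun i j k l => ?_, ?_, fun i j => ?_, fun X hX => ?_, fun i => ?_, ?_⟩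
  · rw [Nat.pos_iff_ne_zero]
    rintro rfl
    apply hp0
    rw [← hFs]
    rfl
  · rw [Nat.pos_iff_ne_zero]
    rintro rfl
    apply hE0
    rw [← hQ]
    rfl
  · change Φ (F i j) * Φ (F k l) = if j = k then Φ (F i l) else 0
    rw [hΦm, hFF]
    by_cases hjk : j = k
    · rw [if_pos hjk, if_pos hjk]
    · rw [if_neg hjk, if_neg hjk, hΦ0]
  · change ∑ i, Φ (F i i) = E
    rw [← hΦs, hFs, hΦp]
  · change (Φ (F i j))ᴴ = Φ (F j i)
    rw [hΦH, hFH]
  · refine ⟨fun i j => star (f i) ⬝ᵥ X *ᵥ f j, ?_⟩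
    have h1 : X * E = Φ (p * X * p) := by
      rw [← hQ, Finset.mul_sum]
      change _ = ∑ k, v k * (p * X * p) * (v k)ᴴ
      refine Finset.sum_congr rfl fun k _ => ?_
      have h2 : v k * (p * X * p) * (v k)ᴴ = (v k * p) * X * (p * (v k)ᴴ) := by noncomm_ring
      rw [h2, hvp, hpv, ← mul_assoc, hX _ (hvA k)]
    have h3 : p * X * p = ∑ i, ∑ j, (star (f i) ⬝ᵥ X *ᵥ f j) • F i j := by
      rw [← hFs, Finset.sum_mul, Finset.sum_mul]
      refine Finset.sum_congr rfl fun i _ => ?_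
      rw [Finset.mul_sum]
      exact Finset.sum_congr rfl fun j _ => hFX _ _ _ _ _
    rw [h1, h3, hΦs]
    refine Finset.sum_congr rfl fun i _ => ?_
    rw [hΦs]
    exact Finset.sum_congr rfl fun j _ => hΦc _ _
  · change trace (∑ k, v k * F i i * (v k)ᴴ) = m
    rw [trace_sum]
    have h1 : ∀ k, trace (v k * F i i * (v k)ᴴ) = 1 := by
      intro k
      rw [trace_mul_comm, ← mul_assoc, hvv, if_pos rfl, hF1, hFt, if_pos rfl]
    simp only [h1, Finset.sum_const, Finset.card_univ, Fintype.card_fin, nsmul_eq_mul, mul_one]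
  · intro e he hee he0 hEe hem i j
    have key : ∑ k, (v k)ᴴ * e * v k = p := by
      obtain ⟨l, hl⟩ : ∃ l, e * v l ≠ 0 := by
        by_contra hcon
        push Not at hcon
        apply he0
        rw [← hEe, ← hEc e he, ← hQ, Finset.mul_sum]
        refine Finset.sum_eq_zero fun k _ => ?_
        rw [← mul_assoc, hcon k, zero_mul]
      obtain ⟨a, ha⟩ : ∃ a, a = e * v l := ⟨_, rfl⟩
      rw [← ha] at hl
      have haA : a ∈ A := ha ▸ hA.mul _ he _ (hvA l)
      have hap : a * p = a := by rw [ha, mul_assoc, hvp]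
      have hea : e * a = a := by rw [ha, ← mul_assoc, hee]
      have hpa : p * aᴴ = aᴴ := by
        have h1 := congrArg conjTranspose hap
        rwa [conjTranspose_mul, hpH] at h1
      obtain ⟨t, ht⟩ := hpm (aᴴ * a) (hA.mul _ (hA.adj _ haA) _ haA)
      have ht' : aᴴ * a = t • p := by
        rw [← ht, ← mul_assoc p, hpa, mul_assoc, hap]
      have ht0 : t ≠ 0 := by
        rintro rfl
        rw [zero_smul] at ht'
        exact hl (conjTranspose_mul_self_eq_zero.1 ht')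
      have h2 : ∀ k, ∃ c : ℂ, e * v k = c • a := by
        intro k
        obtain ⟨c, hc⟩ := hem (v k * aᴴ) (hA.mul _ (hvA k) _ (hA.adj _ haA))
        refine ⟨t⁻¹ * c, ?_⟩
        have h3 : e * (v k * aᴴ) * e * v l = t • (e * v k) := by
          have h4 : e * (v k * aᴴ) * e * v l = e * v k * (aᴴ * (e * v l)) := by noncomm_ring
          rw [h4, ← ha, ht', Matrix.mul_smul, mul_assoc e, hvp]
        rw [hc, Matrix.smul_mul, ← ha] at h3
        rw [mul_smul, h3, smul_smul, inv_mul_cancel₀ ht0, one_smul]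
      choose c hc using h2
      have h3 : ∀ k, ∃ s : ℂ, (v k)ᴴ * a = s • p := by
        intro k
        obtain ⟨s, hs⟩ := hsc e he k l
        exact ⟨s, by rw [ha, ← mul_assoc, hs]⟩
      choose s hs using h3
      have h4 : a = (∑ k, s k * c k) • a := by
        have h5 : a = ∑ k, s k • v k := by
          refine (hvs a haA hap).trans (Finset.sum_congr rfl fun k _ => ?_)
          rw [hs, Matrix.mul_smul, hvp]
        conv_lhs => rw [← hea, h5, Finset.mul_sum]
        rw [Finset.sum_smul]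
        refine Finset.sum_congr rfl fun k _ => ?_
        rw [Matrix.mul_smul, hc, smul_smul]
      have h6 : ∑ k, s k * c k = 1 := by
        have h7 : (1 - ∑ k, s k * c k) • a = 0 := by rw [sub_smul, one_smul, ← h4, sub_self]
        rcases smul_eq_zero.1 h7 with h8 | h8
        · exact (sub_eq_zero.1 h8).symm
        · exact absurd h8 hl
      calc ∑ k, (v k)ᴴ * e * v k = ∑ k, (s k * c k) • p := by
            refine Finset.sum_congr rfl fun k _ => ?_
            rw [mul_assoc, hc, Matrix.mul_smul, hs, smul_smul, mul_comm]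
        _ = p := by rw [← Finset.sum_smul, h6, one_smul]
    have h1 : trace (Φ (F i j) * e) = trace (F i j * p) := by
      change trace ((∑ k, v k * F i j * (v k)ᴴ) * e) = _
      rw [Finset.sum_mul, trace_sum, ← key, Finset.mul_sum, trace_sum]
      refine Finset.sum_congr rfl fun k _ => ?_
      rw [mul_assoc, mul_assoc, trace_mul_comm, mul_assoc, mul_assoc]
    change trace (Φ (F i j) * e) = _
    rw [h1, hF2, hFt]

end

end Pool.Agent.NH32.WJ10
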