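import Mathlib
import Pool.Agent.NH32.WlA
import Pool.Agent.NH32.WJ10a

/-!
# Matrix units for the commutant
-/

set_option linter.unusedSectionVars false

namespace Pool.Agent.NH32

open Matrix Module

noncomputable section

theorem mu_of : St_mu := by
  intro B _ _ L hadj E hE
  obtain ⟨hEZ, hEE, hE0, hEm⟩ := hE
  have hA : WJ10.Alg (CM L) := by
    refine ⟨fun X _ => by rw [mul_one, one_mul], fun a ha b hb X hX => ?_, fun a ha =>
      CM_adj hadj ha⟩
    rw [← mul_assoc, ha X hX, mul_assoc, hb X hX, ← mul_assoc]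
  obtain ⟨d, m, ε, hd, hm, h1, h2, h3, h4, h5, h6, h7⟩ := WJ10.core hA hEZ.1 hEE hE0 hEZ.2
    (fun z hz hz' => hEm z ⟨hz, hz'⟩)
  refine ⟨d, m, ε, hd, hm, h1, h2, h3, h4, h5, h6, fun e he => ?_⟩
  exact h7 e he.1 he.2.1 he.2.2.1 he.2.2.2.1 he.2.2.2.2

end

end Pool.Agent.NH32
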