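import Mathlib
import Pool.Agent.NH32.WlA

/-!
# Weil classes: the maximum principle (J11)
-/

set_option linter.unusedSectionVars false

namespace Pool.Agent.NH32

open Matrix NormedSpace

noncomputable section

namespace WJ11

variable {B : Type} [Fintype B] [DecidableEq B] {L : Submodule ℂ (Matrix B B ℂ)}
  {Om : Matrix B B ℂ}

/-! ### the adjoint for the form -/

theorem st_mul (hO : IsOm Om) (M N : Matrix B B ℂ) : st Om (M * N) = st Om N * st Om M := by
  unfold st
  rw [transpose_mul]
  have h1 : -(Om * Nᵀ * Om) * -(Om * Mᵀ * Om) = Om * Nᵀ * (Om * Om) * Mᵀ * Om := by noncomm_ring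
  rw [h1, hO.sq]
  noncomm_ring

theorem st_st (hO : IsOm Om) (M : Matrix B B ℂ) : st Om (st Om M) = M := by
  unfold st
  rw [transpose_neg, transpose_mul, transpose_mul, transpose_transpose, hO.T]
  have h1 : -(Om * -(-Om * (M * -Om)) * Om) = (Om * Om) * M * (Om * Om) := by noncomm_ring
  rw [h1, hO.sq]
  noncomm_ring

theorem st_H (hO : IsOm Om) (M : Matrix B B ℂ) : st Om Mᴴ = (st Om M)ᴴ := by
  unfold st
  rw [conjTranspose_neg, conjTranspose_mul, conjTranspose_mul, hO.conjT]
  have h1 : (Mᵀ)ᴴ = (Mᴴ)ᵀ := rfl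
  rw [h1]
  noncomm_ring

theorem st_trace (hO : IsOm Om) (M : Matrix B B ℂ) : trace (st Om M) = trace M := by
  unfold st
  rw [trace_neg, mul_assoc, trace_mul_comm, mul_assoc, hO.sq, mul_neg, mul_one, trace_neg,
    neg_neg, trace_transpose]

theorem st_add (M N : Matrix B B ℂ) : st Om (M + N) = st Om M + st Om N := by
  unfold st
  rw [transpose_add]
  noncomm_ring

theorem st_sub (M N : Matrix B B ℂ) : st Om (M - N) = st Om M - st Om N := by
  unfold st
  rw [transpose_sub]
  noncomm_ring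

theorem st_neg (M : Matrix B B ℂ) : st Om (-M) = -st Om M := by
  unfold st
  rw [transpose_neg]
  noncomm_ring

theorem st_smul (c : ℂ) (M : Matrix B B ℂ) : st Om (c • M) = c • st Om M := by
  unfold st
  rw [transpose_smul, Matrix.mul_smul, Matrix.smul_mul, smul_neg]

theorem st_zero : st Om (0 : Matrix B B ℂ) = 0 := by
  unfold st
  rw [transpose_zero, mul_zero, zero_mul, neg_zero]

theorem st_L (hO : IsOm Om) {X : Matrix B B ℂ} (hX : Xᵀ * Om + Om * X = 0) : st Om X = -X := by
  unfold st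
  rw [hO.OXt hX]
  rw [neg_mul, neg_mul, neg_neg, mul_assoc, hO.sq, mul_neg, mul_one]

theorem st_mt (hO : IsOm Om) (u : USp Om) : st Om (mt u) = (mt u)ᴴ := by
  rw [← mt_inv, hO.inv_eq u]
  unfold st
  noncomm_ring

theorem st_CM (hO : IsOm Om) (hL : LD Om L) {M : Matrix B B ℂ} (hM : M ∈ CM L) :
    st Om M ∈ CM L := by
  intro X hX
  have h1 := st_L hO (hL.sp X hX)
  have h2 := congrArg (st Om) (hM X hX)
  rw [st_mul hO, st_mul hO, h1, mul_neg, neg_mul, neg_inj] at h2
  exact h2.symm

theorem st_ZM (hO : IsOm Om) (hL : LD Om L) {M : Matrix B B ℂ} (hM : M ∈ ZM L) :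
    st Om M ∈ ZM L := by
  refine ⟨st_CM hO hL hM.1, fun N hN => ?_⟩
  have h2 := congrArg (st Om) (hM.2 _ (st_CM hO hL hN))
  rw [st_mul hO, st_mul hO, st_st hO] at h2
  exact h2.symm

theorem st_Mz (hO : IsOm Om) (hL : LD Om L) {E : Matrix B B ℂ} (hE : Mz L E) :
    Mz L (st Om E) := by
  obtain ⟨h1, h2, h3, h4⟩ := hE
  refine ⟨st_ZM hO hL h1, ?_, ?_, fun z hz => ?_⟩
  · rw [← st_mul hO, h2]
  · intro h5
    apply h3
    rw [← st_st hO E, h5, st_zero]
  · obtain ⟨c, hc⟩ := h4 _ (st_ZM hO hL hz)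
    refine ⟨c, ?_⟩
    have h5 := congrArg (st Om) hc
    rw [st_mul hO, st_st hO, st_smul] at h5
    rw [← h5]
    exact (hz.2 _ (st_ZM hO hL h1).1).symm

/-! ### the bicommutant -/

theorem InB.mul {X Y : Matrix B B ℂ} (hX : InB L X) (hY : InB L Y) : InB L (X * Y) := by
  intro M hM
  rw [mul_assoc, hY M hM, ← mul_assoc, hX M hM, mul_assoc]

theorem InB.add {X Y : Matrix B B ℂ} (hX : InB L X) (hY : InB L Y) : InB L (X + Y) := by
  intro M hM
  rw [add_mul, mul_add, hX M hM, hY M hM]

theorem InB.sub {X Y : Matrix B B ℂ} (hX : InB L X) (hY : InB L Y) : InB L (X - Y) := by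
  intro M hM
  rw [sub_mul, mul_sub, hX M hM, hY M hM]

theorem InB.smul {X : Matrix B B ℂ} (c : ℂ) (hX : InB L X) : InB L (c • X) := by
  intro M hM
  rw [Matrix.smul_mul, Matrix.mul_smul, hX M hM]

theorem InB.H (hL : LD Om L) {X : Matrix B B ℂ} (hX : InB L X) : InB L Xᴴ := by
  intro M hM
  have h1 := congrArg Matrix.conjTranspose (hX _ (CM_adj hL.adj hM))
  rw [conjTranspose_mul, conjTranspose_mul, conjTranspose_conjTranspose] at h1
  exact h1.symm

theorem InB.st (hO : IsOm Om) (hL : LD Om L) {X : Matrix B B ℂ} (hX : InB L X) :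
    InB L (st Om X) := by
  intro M hM
  have h1 := congrArg (NH32.st Om) (hX _ (st_CM hO hL hM))
  rw [st_mul hO, st_mul hO, st_st hO] at h1
  exact h1.symm

theorem InB.of_ZM {X : Matrix B B ℂ} (hX : X ∈ ZM L) : InB L X := fun M hM => (hX.2 M hM).symm

theorem InB.of_KK (hO : IsOm Om) (hL : LD Om L) {k : USp Om} (hk : k ∈ KK Om L) :
    InB L (mt k) := by
  intro M hM
  exact commutant_comm hO hL (T := fun κ => InvL L κ) (fun a b c _ h => h) hM hk

/-! ### skew elements -/

/-- Elements below a real idempotent. -/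
theorem Lf_real (hO : IsOm Om) {E X : Matrix B B ℂ} (hE : Mz L E)
    (h1 : NH32.st Om X = -X) (h2 : InB L X) (h3 : X * E = X) : Lf Om L X := by
  refine ⟨h1, h2, fun M hM => ?_⟩
  obtain ⟨c, hc⟩ := hE.2.2.2 M hM
  have h4 : trace X = 0 := by
    have h5 := st_trace hO X
    rw [h1, trace_neg] at h5
    linear_combination (-1 / 2 : ℂ) * h5
  have h5 : X * M = c • X := by
    calc X * M = X * E * M := by rw [h3]
      _ = X * (E * M) := mul_assoc _ _ _
      _ = X * (M * E) := by rw [hM.2 E hE.1.1]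
      _ = _ := by rw [hc, Matrix.mul_smul, h3]
  rw [h5, trace_smul, h4, smul_zero]

/-- Elements below a nonreal idempotent. -/
theorem Lf_nonreal (hO : IsOm Om) (hL : LD Om L) {E A : Matrix B B ℂ} (hE : Mz L E)
    (h2 : InB L A) (h3 : A * E = A) (h4 : trace A = 0) : Lf Om L (A - NH32.st Om A) := by
  have key : ∀ M ∈ ZM L, trace (A * M) = 0 := by
    intro M hM
    obtain ⟨c, hc⟩ := hE.2.2.2 M hM
    have h5 : A * M = c • A := by
      calc A * M = A * E * M := by rw [h3]
        _ = A * (E * M) := mul_assoc _ _ _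
        _ = A * (M * E) := by rw [hM.2 E hE.1.1]
        _ = _ := by rw [hc, Matrix.mul_smul, h3]
    rw [h5, trace_smul, h4, smul_zero]
  refine ⟨?_, InB.sub h2 (InB.st hO hL h2), fun M hM => ?_⟩
  · rw [st_sub, st_st hO, neg_sub]
  · rw [sub_mul, trace_sub, key M hM, zero_sub, neg_eq_zero]
    have h5 : NH32.st Om A * M = NH32.st Om (NH32.st Om M * A) := by
      rw [st_mul hO, st_st hO]
    rw [h5, st_trace hO, trace_mul_comm]
    exact key _ (st_ZM hO hL hM)

/-! ### exponentials -/

theorem exp_eig {X Q : Matrix B B ℂ} {c : ℂ} (h : X * Q = c • Q) (s : ℝ) :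
    exp (s • X) * Q = Complex.exp (s * c) • Q := by
  have hE := isCurve_exp X
  ext i j
  have h1 : ∀ s : ℝ, HasDerivAt (fun s : ℝ => (exp (s • X) * Q) i j)
      (c * (exp (s • X) * Q) i j) s := by
    intro s
    have h2 : (fun s : ℝ => (exp (s • X) * Q) i j) =
        fun s : ℝ => ∑ k, exp (s • X) i k * Q k j := by
      funext s
      rw [Matrix.mul_apply]
    rw [h2]
    have h3 : HasDerivAt (fun s : ℝ => ∑ k, exp (s • X) i k * Q k j)
        (∑ k, (exp (s • X) * X) i k * Q k j) s :=
      HasDerivAt.fun_sum fun k _ => (hE s i k).mul_const _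
    refine h3.congr_deriv ?_
    have h4 : ∑ k, (exp (s • X) * X) i k * Q k j = (exp (s • X) * X * Q) i j := by
      rw [Matrix.mul_apply]
    rw [h4, mul_assoc, h, Matrix.mul_smul, Matrix.smul_apply, smul_eq_mul]
  have h5 : ∀ s : ℝ, HasDerivAt
      (fun s : ℝ => Complex.exp (-((s : ℂ) * c)) * (exp (s • X) * Q) i j) 0 s := by
    intro s
    have h6 : HasDerivAt (fun s : ℝ => Complex.exp (-((s : ℂ) * c)))
        (Complex.exp (-((s : ℂ) * c)) * (-c)) s := by
      have h7 : HasDerivAt (fun s : ℝ => -((s : ℂ) * c)) (-c) s := by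
        have h8 : HasDerivAt (fun s : ℝ => (s : ℂ)) 1 s := Complex.ofRealCLM.hasDerivAt
        have h9 := (h8.mul_const c).neg
        rwa [one_mul] at h9
      exact h7.cexp
    refine (h6.mul (h1 s)).congr_deriv ?_
    ring
  have h7 := is_const_of_deriv_eq_zero (fun s => (h5 s).differentiableAt)
    (fun s => (h5 s).deriv) s 0
  beta_reduce at h7
  rw [exp_zero_smul, one_mul, Complex.ofReal_zero, zero_mul, neg_zero, Complex.exp_zero,
    one_mul] at h7
  rw [Matrix.smul_apply, smul_eq_mul, ← h7, ← mul_assoc, ← Complex.exp_add, add_neg_cancel,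
    Complex.exp_zero, one_mul]

theorem exp_fix {X Q : Matrix B B ℂ} (h : X * Q = 0) (s : ℝ) : exp (s • X) * Q = Q := by
  have h1 := exp_eig (c := 0) (by rw [h, zero_smul]) s (X := X) (Q := Q)
  rwa [mul_zero, Complex.exp_zero, one_smul] at h1

theorem hasDerivAt_tr (X W : Matrix B B ℂ) :
    HasDerivAt (fun s : ℝ => trace (exp (s • X) * W)) (trace (X * W)) 0 := by
  have hE := isCurve_exp X
  have h2 : (fun s : ℝ => trace (exp (s • X) * W)) =
      fun s : ℝ => ∑ i, ∑ k, exp (s • X) i k * W k i := by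
    funext s
    unfold trace
    simp only [diag_apply, Matrix.mul_apply]
  rw [h2]
  have h3 : HasDerivAt (fun s : ℝ => ∑ i, ∑ k, exp (s • X) i k * W k i)
      (∑ i, ∑ k, (exp ((0 : ℝ) • X) * X) i k * W k i) 0 :=
    HasDerivAt.fun_sum fun i _ => HasDerivAt.fun_sum fun k _ => (hE 0 i k).mul_const _
  refine h3.congr_deriv ?_
  rw [exp_zero_smul, one_mul]
  unfold trace
  simp only [diag_apply, Matrix.mul_apply]

theorem exists_exp_ne {X : Matrix B B ℂ} (hX : X ≠ 0) : ∃ s : ℝ, exp (s • X) ≠ 1 := by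
  by_contra hcon
  push Not at hcon
  apply hX
  ext i j
  have h1 : HasDerivAt (fun s : ℝ => exp (s • X) i j) ((exp ((0 : ℝ) • X) * X) i j) 0 :=
    isCurve_exp X 0 i j
  have h2 : (fun s : ℝ => exp (s • X) i j) = fun _ => (1 : Matrix B B ℂ) i j := by
    funext s
    rw [hcon s]
  rw [h2, exp_zero_smul, one_mul] at h1
  rw [Matrix.zero_apply]
  exact h1.unique (hasDerivAt_const _ _)

theorem tr_self_nonneg (X : Matrix B B ℂ) : 0 ≤ (trace (Xᴴ * X)).re := by
  rw [Matrix.trace, Complex.re_sum]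
  refine Finset.sum_nonneg fun i _ => ?_
  rw [diag_apply, Matrix.mul_apply, Complex.re_sum]
  refine Finset.sum_nonneg fun k _ => ?_
  rw [conjTranspose_apply]
  have h5 : star (X k i) * X k i = (Complex.normSq (X k i) : ℂ) :=
    (Complex.normSq_eq_conj_mul_self).symm
  rw [h5, Complex.ofReal_re]
  exact Complex.normSq_nonneg _

theorem tr_self_real (X : Matrix B B ℂ) : (trace (Xᴴ * X)).im = 0 := by
  have h4 : star (trace (Xᴴ * X)) = trace (Xᴴ * X) := by
    rw [← trace_conjTranspose, conjTranspose_mul, conjTranspose_conjTranspose]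
  have h5 := congrArg Complex.im h4
  have h6 : (star (trace (Xᴴ * X))).im = -(trace (Xᴴ * X)).im := Complex.conj_im _
  rw [h6] at h5
  linarith

theorem tr_self_pos {X : Matrix B B ℂ} (hX : X ≠ 0) : 0 < (trace (Xᴴ * X)).re := by
  refine lt_of_le_of_ne (tr_self_nonneg X) fun h => hX ?_
  exact trace_self_eq_zero (Complex.ext h.symm (tr_self_real X))

/-- The trace of a unitary matrix. -/
theorem unitary_tr {U : Matrix B B ℂ} (hU : Uᴴ * U = 1) (h : U ≠ 1) :
    0 < (trace (1 - U)).re := by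
  have h1 : (1 - U)ᴴ * (1 - U) = (1 - U) + (1 - U)ᴴ := by
    rw [conjTranspose_sub, conjTranspose_one]
    have h2 : (1 - Uᴴ) * (1 - U) = 1 - U - Uᴴ + Uᴴ * U := by noncomm_ring
    rw [h2, hU]
    abel
  have h2 : trace ((1 - U)ᴴ * (1 - U)) = ((2 * (trace (1 - U)).re : ℝ) : ℂ) := by
    rw [h1, trace_add, trace_conjTranspose]
    exact Complex.add_conj _
  have h3 : (trace ((1 - U)ᴴ * (1 - U))).re = 2 * (trace (1 - U)).re := by
    rw [h2, Complex.ofReal_re]
  have h4 : 0 ≤ (trace ((1 - U)ᴴ * (1 - U))).re := by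
    rw [Matrix.trace, Complex.re_sum]
    refine Finset.sum_nonneg fun i _ => ?_
    rw [diag_apply, Matrix.mul_apply, Complex.re_sum]
    refine Finset.sum_nonneg fun k _ => ?_
    rw [conjTranspose_apply]
    have h5 : star ((1 - U) k i) * (1 - U) k i = (Complex.normSq ((1 - U) k i) : ℂ) := by
      exact (Complex.normSq_eq_conj_mul_self).symm
    rw [h5, Complex.ofReal_re]
    exact Complex.normSq_nonneg _
  rcases h4.lt_or_eq with h5 | h5
  · rw [h3] at h5
    linarith
  · exfalso
    rw [h3] at h5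
    have h6 : trace ((1 - U)ᴴ * (1 - U)) = 0 := by
      rw [h2, ← h5, Complex.ofReal_zero]
    have h7 := trace_self_eq_zero h6
    exact h (sub_eq_zero.1 h7).symm

/-- Involutions. -/
theorem invol {D : Matrix B B ℂ} (hD : D * D = 1) : ∃ N : ℕ, det D = (-1) ^ N ∧
    trace D = trace (1 : Matrix B B ℂ) - 2 * N ∧ (N = 0 → D = 1) := by
  classical
  obtain ⟨g, gi, hg, h, hpm, hDg⟩ := exists_diag hD
  have hgg : g * gi = 1 := mul_eq_one_comm.1 hg
  have hDe : D = g * dg h * gi := by
    calc D = D * (g * gi) := by rw [hgg, mul_one]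
      _ = (D * g) * gi := by rw [mul_assoc]
      _ = _ := by rw [hDg]
  refine ⟨(Finset.univ.filter fun b => h b = -1).card, ?_, ?_, fun h0 => ?_⟩
  · have h1 : det D = det (dg h) := by
      rw [hDe, det_mul, det_mul, mul_comm (det g), mul_assoc, ← det_mul, hgg, det_one, mul_one]
    rw [h1]
    unfold dg
    rw [det_diagonal, ← Finset.prod_filter_mul_prod_filter_not Finset.univ (fun b => h b = -1)]
    have h2 : ∏ x ∈ Finset.univ.filter (fun b => h b = -1), ((h x : ℝ) : ℂ) =
        (-1) ^ (Finset.univ.filter fun b => h b = -1).card := by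
      rw [Finset.prod_congr rfl (g := fun _ => (-1 : ℂ)), Finset.prod_const]
      intro x hx
      rw [(Finset.mem_filter.1 hx).2]
      push_cast
      ring
    have h3 : ∏ x ∈ Finset.univ.filter (fun b => ¬ h b = -1), ((h x : ℝ) : ℂ) = 1 := by
      refine Finset.prod_eq_one fun x hx => ?_
      rw [(hpm x).resolve_right (Finset.mem_filter.1 hx).2]
      push_cast
      ring
    rw [h2, h3, mul_one]
  · have h1 : trace D = trace (dg h) := by
      rw [hDe, trace_mul_comm, ← mul_assoc, hg, one_mul]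
    rw [h1]
    unfold dg
    rw [trace_diagonal, trace_one]
    have h2 : ∀ b, ((h b : ℝ) : ℂ) = 1 - 2 * (if h b = -1 then (1 : ℂ) else 0) := by
      intro b
      rcases hpm b with h3 | h3
      · rw [h3, if_neg (by norm_num)]
        push_cast
        ring
      · rw [h3, if_pos rfl]
        push_cast
        ring
    rw [Finset.sum_congr rfl fun b _ => h2 b, Finset.sum_sub_distrib, ← Finset.mul_sum,
      Finset.sum_boole, Finset.sum_const, Finset.card_univ, nsmul_eq_mul, mul_one]
  · rw [Finset.card_eq_zero, Finset.filter_eq_empty_iff] at h0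
    have h1 : dg h = 1 := by
      unfold dg
      rw [← diagonal_one]
      congr 1
      funext b
      rw [(hpm b).resolve_right (h0 (Finset.mem_univ b))]
      push_cast
      ring
    rw [hDe, h1, mul_one, hgg]

/-! ### matrix units -/

/-- An idempotent matrix all of whose compressions commute has trace `0` or `1`. -/
theorem cube {d : ℕ} {x : Matrix (Fin d) (Fin d) ℂ} (hx : x * x = x)
    (h : ∀ y z : Matrix (Fin d) (Fin d) ℂ, x * y * x * z * x = x * z * x * y * x) :
    trace x ^ 3 = trace x := by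
  have key : ∀ (i j k l a b : Fin d), x a i * x j k * x l b = x a k * x l i * x j b := by
    intro i j k l a b
    have h1 : ∀ (i j k l : Fin d), (x * single i j (1 : ℂ) * x * single k l (1 : ℂ) * x) a b =
        x a i * x j k * x l b := by
      intro i j k l
      have h2 : x * single i j (1 : ℂ) * x * single k l (1 : ℂ) * x =
          x * single i j (1 : ℂ) * (x * (single k l (1 : ℂ) * x)) := by
        simp only [mul_assoc]
      have h3 : ∀ (y : Matrix (Fin d) (Fin d) ℂ) (i j a b : Fin d),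
          (x * single i j (1 : ℂ) * y) a b = x a i * y j b := by
        intro y i j a b
        rw [Matrix.mul_apply, Finset.sum_eq_single j]
        · rw [mul_single_apply_same, mul_one]
        · intro c _ hc
          rw [mul_single_apply_of_ne _ _ _ _ _ hc, zero_mul]
        · intro hj
          exact absurd (Finset.mem_univ j) hj
      rw [h2, h3, ← mul_assoc, h3, mul_assoc]
    have h2 := congrFun (congrFun (h (single i j 1) (single k l 1)) a) b
    rw [h1, h1] at h2
    exact h2
  have h1 : trace x ^ 3 = ∑ a, ∑ j, ∑ b, x a a * x j j * x b b := by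
    unfold trace
    simp only [diag_apply]
    rw [pow_succ, pow_two, Finset.sum_mul_sum, Finset.sum_mul]
    refine Finset.sum_congr rfl fun a _ => ?_
    rw [Finset.sum_mul]
    refine Finset.sum_congr rfl fun j _ => ?_
    rw [Finset.mul_sum]
  have h2 : trace (x * (x * x)) = ∑ a, ∑ j, ∑ b, x a j * x b a * x j b := by
    unfold trace
    simp only [diag_apply, Matrix.mul_apply]
    refine Finset.sum_congr rfl fun a _ => ?_
    refine Finset.sum_congr rfl fun j _ => ?_
    rw [Finset.mul_sum]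
    refine Finset.sum_congr rfl fun b _ => ?_
    ring
  rw [h1, Finset.sum_congr rfl fun a _ => Finset.sum_congr rfl fun j _ =>
    Finset.sum_congr rfl fun b _ => key a j j b a b, ← h2, hx, hx]

section mu

variable {E e : Matrix B B ℂ} {d : ℕ} {ε : Fin d → Fin d → Matrix B B ℂ}

/-- The element with given coordinates. -/
def sm (ε : Fin d → Fin d → Matrix B B ℂ) (x : Matrix (Fin d) (Fin d) ℂ) : Matrix B B ℂ :=
  ∑ i, ∑ j, x i j • ε i j

theorem sm_mul (h : ∀ i j k l, ε i j * ε k l = if j = k then ε i l else 0)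
    (x y : Matrix (Fin d) (Fin d) ℂ) : sm ε x * sm ε y = sm ε (x * y) := by
  unfold sm
  rw [Finset.sum_mul]
  refine Finset.sum_congr rfl fun i _ => ?_
  have h1 : ∀ j, (x i j • ε i j) * (∑ k, ∑ l, y k l • ε k l) =
      ∑ l, (x i j * y j l) • ε i l := by
    intro j
    rw [Finset.mul_sum, Finset.sum_eq_single j]
    · rw [Finset.mul_sum]
      refine Finset.sum_congr rfl fun l _ => ?_
      rw [Matrix.smul_mul, Matrix.mul_smul, h, if_pos rfl, smul_smul]
    · intro k _ hk
      rw [Finset.mul_sum]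
      refine Finset.sum_eq_zero fun l _ => ?_
      rw [Matrix.smul_mul, Matrix.mul_smul, h, if_neg (Ne.symm hk), smul_zero, smul_zero]
    · intro hj
      exact absurd (Finset.mem_univ j) hj
  rw [Finset.sum_mul, Finset.sum_congr rfl fun j _ => h1 j, Finset.sum_comm]
  refine Finset.sum_congr rfl fun l _ => ?_
  rw [← Finset.sum_smul, Matrix.mul_apply]

theorem sm_tr (h : ∀ i j, trace (ε i j * e) = if i = j then 1 else 0)
    (x : Matrix (Fin d) (Fin d) ℂ) : trace (sm ε x * e) = trace x := by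
  unfold sm
  rw [Finset.sum_mul, trace_sum]
  unfold Matrix.trace
  refine Finset.sum_congr rfl fun i _ => ?_
  have h1 : diag ((∑ j, x i j • ε i j) * e) = diag ((∑ j, x i j • ε i j) * e) := rfl
  change trace ((∑ j, x i j • ε i j) * e) = _
  rw [Finset.sum_mul, trace_sum, Finset.sum_eq_single i]
  · rw [Matrix.smul_mul, trace_smul, h, if_pos rfl, smul_eq_mul, mul_one, diag_apply]
  · intro j _ hj
    rw [Matrix.smul_mul, trace_smul, h, if_neg (Ne.symm hj), smul_zero]
  · intro hj
    exact absurd (Finset.mem_univ i) hj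

theorem sm_inj (h1 : ∀ i j k l, ε i j * ε k l = if j = k then ε i l else 0)
    (h2 : ∀ i j, trace (ε i j * e) = if i = j then 1 else 0)
    {x y : Matrix (Fin d) (Fin d) ℂ} (h : sm ε x = sm ε y) : x = y := by
  rw [← sub_eq_zero]
  apply trace_self_eq_zero
  have h3 : ∀ z, trace (z * (x - y)) = 0 := by
    intro z
    rw [mul_sub, trace_sub, ← sm_tr h2, ← sm_tr h2, ← sm_mul h1, ← sm_mul h1, h, sub_self]
  exact h3 _

end mu

/-! ### the function -/

open Classical in
/-- The summands of the function to be maximized. -/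
def fF (Om E w : Matrix B B ℂ) : ℝ :=
  if NH32.st Om E = E then (trace (w * E)).re else Complex.normSq (trace (w * E))

theorem fF_continuous (Om' E : Matrix B B ℂ) (u : USp Om) :
    Continuous fun k : USp Om => fF Om' E (mt (k * u)) := by
  have h1 : Continuous fun k : USp Om => trace (mt (k * u) * E) := by
    have h2 : Continuous fun k : USp Om => mt k * mt u * E :=
      (continuous_mt.matrix_mul continuous_const).matrix_mul continuous_const
    exact h2.matrix_trace
  unfold fF
  split_ifs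
  · exact Complex.continuous_re.comp h1
  · exact Complex.continuous_normSq.comp h1

theorem exists_fmax {s : ℕ} (E : Fin s → Matrix B B ℂ) (u : USp Om) :
    ∃ k ∈ KK Om L, ∀ k' ∈ KK Om L,
      ∑ i, fF Om (E i) (mt (k' * u)) ≤ ∑ i, fF Om (E i) (mt (k * u)) := by
  have hcont : Continuous fun k : USp Om => ∑ i, fF Om (E i) (mt (k * u)) :=
    continuous_finsetSum _ fun i _ => fF_continuous Om (E i) u
  obtain ⟨k, hk, hmax⟩ := (KK_closed (Om := Om) (L := L)).isCompact.exists_isMaxOn
    ⟨1, (KK Om L).one_mem⟩ hcont.continuousOn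
  exact ⟨k, hk, fun k' hk' => hmax hk'⟩

/-- The data at a maximum. -/
structure Dat (Om : Matrix B B ℂ) (L : Submodule ℂ (Matrix B B ℂ)) {s : ℕ}
    (E : Fin s → Matrix B B ℂ) (w : Matrix B B ℂ) : Prop where
  hO : IsOm Om
  hL : LD Om L
  hLf : ∀ X, Lf Om L X → X ∈ L
  hE : ∀ i, Mz L (E i)
  ho : ∀ i j, i ≠ j → E i * E j = 0
  hh : ∀ i, (E i)ᴴ = E i
  hB : InB L w
  h1 : w * wᴴ = 1
  h2 : wᴴ * w = 1
  hst : NH32.st Om w = wᴴ
  hmax : ∀ X ∈ L, Xᴴ = -X → ∀ t : ℝ,
    ∑ i, fF Om (E i) (exp (t • X) * w) ≤ ∑ i, fF Om (E i) w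
  hst' : ∀ X ∈ L, Xᴴ = -X → ∀ t : ℝ, NH32.st Om (exp (t • X)) = (exp (t • X))ᴴ

namespace Dat

variable {s : ℕ} {E : Fin s → Matrix B B ℂ} {w : Matrix B B ℂ} (D : Dat Om L E w)
include D

theorem wE (i : Fin s) : w * E i = E i * w := D.hB _ (D.hE i).1.1

theorem wHE (i : Fin s) : wᴴ * E i = E i * wᴴ := InB.H D.hL D.hB _ (D.hE i).1.1

theorem EE (i : Fin s) : E i * E i = E i := (D.hE i).2.1

theorem max_real {i : Fin s} (hi : NH32.st Om (E i) = E i) {X : Matrix B B ℂ} (hX : X ∈ L)
    (hXh : Xᴴ = -X) (hXE : X * E i = X) (t : ℝ) :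
    (trace (exp (t • X) * (w * E i))).re ≤ (trace (w * E i)).re := by
  classical
  have h1 := D.hmax X hX hXh t
  have h2 : ∀ j, j ≠ i → fF Om (E j) (exp (t • X) * w) = fF Om (E j) w := by
    intro j hj
    have h3 : X * E j = 0 := by rw [← hXE, mul_assoc, D.ho i j (Ne.symm hj), mul_zero]
    have h4 : exp (t • X) * w * E j = w * E j := by
      rw [mul_assoc, D.wE, ← mul_assoc, exp_fix h3]
    unfold fF
    rw [h4]
  rw [← Finset.add_sum_erase _ _ (Finset.mem_univ i), ← Finset.add_sum_erase _ _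
    (Finset.mem_univ i), Finset.sum_congr rfl fun j hj => h2 j (Finset.ne_of_mem_erase hj)] at h1
  have h5 := le_of_add_le_add_right h1
  unfold fF at h5
  rw [if_pos hi, if_pos hi, mul_assoc] at h5
  exact h5

/-- The first variation in the real case. -/
theorem real_one {i : Fin s} (hi : NH32.st Om (E i) = E i) : w * E i = wᴴ * E i := by
  obtain ⟨A, hA⟩ : ∃ A, A = (w - wᴴ) * E i := ⟨_, rfl⟩
  have hstH : NH32.st Om wᴴ = w := by rw [st_H D.hO, D.hst, conjTranspose_conjTranspose]
  have hAh : Aᴴ = -A := by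
    rw [hA, conjTranspose_mul, D.hh, conjTranspose_sub, conjTranspose_conjTranspose, mul_sub,
      sub_mul, D.wE, D.wHE]
    abel
  have hAst : NH32.st Om A = -A := by
    rw [hA, st_mul D.hO, hi, st_sub, D.hst, hstH, mul_sub, sub_mul, D.wE, D.wHE]
    abel
  have hAB : InB L A := by
    rw [hA]
    exact InB.mul (InB.sub D.hB (InB.H D.hL D.hB)) (InB.of_ZM (D.hE i).1)
  have hAE : A * E i = A := by rw [hA, mul_assoc, D.EE]
  have hAL : A ∈ L := D.hLf _ (Lf_real D.hO (D.hE i) hAst hAB hAE)
  have h1 : HasDerivAt (fun t : ℝ => (trace (exp (t • A) * (w * E i))).re)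
      (trace (A * (w * E i))).re 0 :=
    Complex.reCLM.hasFDerivAt.comp_hasDerivAt 0 (hasDerivAt_tr A (w * E i))
  have h2 : IsLocalMax (fun t : ℝ => (trace (exp (t • A) * (w * E i))).re) 0 := by
    refine Filter.Eventually.of_forall fun t => ?_
    beta_reduce
    rw [exp_zero_smul, one_mul]
    exact D.max_real hi hAL hAh hAE t
  have h3 := h2.hasDerivAt_eq_zero h1
  have h4 : trace (Aᴴ * A) = 0 := by
    have h5 : star (trace (A * (w * E i))) = -trace (A * (wᴴ * E i)) := by
      rw [← trace_conjTranspose, conjTranspose_mul, conjTranspose_mul, D.hh, hAh, mul_neg,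
        trace_neg, trace_mul_comm, ← D.wHE]
    have h6 : trace (A * (w * E i)) + star (trace (A * (w * E i))) = 0 := by
      have h7 : trace (A * (w * E i)) + star (trace (A * (w * E i))) =
          ((2 * (trace (A * (w * E i))).re : ℝ) : ℂ) := Complex.add_conj _
      rw [h7, h3, mul_zero, Complex.ofReal_zero]
    rw [h5, ← sub_eq_add_neg, ← trace_sub, ← mul_sub, ← sub_mul, ← hA] at h6
    rw [hAh, neg_mul, trace_neg, h6, neg_zero]
  have h5 := trace_self_eq_zero h4
  rw [hA, sub_mul] at h5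
  exact sub_eq_zero.1 h5

/-- The real case. -/
theorem real_two (hmu : St_mu) {i : Fin s} (hi : NH32.st Om (E i) = E i)
    {e : Matrix B B ℂ} (he : Me L (E i) e) (hdet : det (w * e + 1 - e) = 1) : w * E i = E i := by
  have h1 := D.real_one hi
  have hww : w * (w * E i) = E i := by rw [h1, ← mul_assoc, D.h1, one_mul]
  obtain ⟨P, hP⟩ : ∃ P, P = (1 / 2 : ℂ) • (E i - w * E i) := ⟨_, rfl⟩
  have hEw : E i * (w * E i) = w * E i := by rw [D.wE, ← mul_assoc, D.EE]
  have hwE2 : w * E i * (w * E i) = E i := by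
    rw [mul_assoc, hEw, hww]
  have hPP : P * P = P := by
    rw [hP, Matrix.smul_mul, Matrix.mul_smul, smul_smul]
    have h2 : (E i - w * E i) * (E i - w * E i) = (2 : ℂ) • (E i - w * E i) := by
      have h3 : (E i - w * E i) * (E i - w * E i) = E i * E i - E i * (w * E i) -
          w * (E i * E i) + w * E i * (w * E i) := by noncomm_ring
      rw [h3, hwE2, hEw, D.EE]
      module
    rw [h2, smul_smul]
    norm_num
  have hPh : Pᴴ = P := by
    rw [hP, conjTranspose_smul, conjTranspose_sub, conjTranspose_mul, D.hh, ← D.wHE, ← h1]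
    congr 1
    norm_num
  have hPst : NH32.st Om P = P := by
    rw [hP, st_smul, st_sub, st_mul D.hO, hi, D.hst, ← D.wHE, ← h1]
  have hPB : InB L P := by
    rw [hP]
    exact InB.smul _ (InB.sub (InB.of_ZM (D.hE i).1) (InB.mul D.hB (InB.of_ZM (D.hE i).1)))
  have hPE : P * E i = P := by
    rw [hP, Matrix.smul_mul, sub_mul, mul_assoc, D.EE]
  have hwP : w * E i = E i - (2 : ℂ) • P := by
    rw [hP, smul_smul]
    norm_num
  suffices hP0 : P = 0 by
    rw [hwP, hP0, smul_zero, sub_zero]
  -- all compressions are symmetric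
  have hsym : ∀ X, InB L X → P * X * P = X → NH32.st Om X = X := by
    intro X hXB hXP
    by_contra hne
    obtain ⟨X1, hX1⟩ : ∃ X1, X1 = X - NH32.st Om X := ⟨_, rfl⟩
    have hX10 : X1 ≠ 0 := by
      rw [hX1]
      intro h2
      exact hne (sub_eq_zero.1 h2).symm
    have hX1st : NH32.st Om X1 = -X1 := by rw [hX1, st_sub, st_st D.hO, neg_sub]
    have hX1B : InB L X1 := by
      rw [hX1]
      exact InB.sub hXB (InB.st D.hO D.hL hXB)
    have hX1P : P * X1 * P = X1 := by
      have h2 := congrArg (NH32.st Om) hXP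
      rw [st_mul D.hO, st_mul D.hO, hPst, ← mul_assoc] at h2
      rw [hX1, mul_sub, sub_mul, hXP, h2]
    -- a skew element
    obtain ⟨Y, hY0, hYh, hYst, hYB, hYP⟩ : ∃ Y, Y ≠ 0 ∧ Yᴴ = -Y ∧ NH32.st Om Y = -Y ∧ InB L Y ∧
        Y * P = Y := by
      have hHP : P * X1ᴴ * P = X1ᴴ := by
        have h2 := congrArg Matrix.conjTranspose hX1P
        rw [conjTranspose_mul, conjTranspose_mul, hPh, ← mul_assoc] at h2
        exact h2
      have hXP' : X1 * P = X1 := by
        rw [← hX1P, mul_assoc, hPP]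
      have hHP' : X1ᴴ * P = X1ᴴ := by
        rw [← hHP, mul_assoc, hPP]
      have hHst : NH32.st Om X1ᴴ = -X1ᴴ := by rw [st_H D.hO, hX1st, conjTranspose_neg]
      by_cases h2 : X1 - X1ᴴ = 0
      · refine ⟨Complex.I • (X1 + X1ᴴ), ?_, ?_, ?_, ?_, ?_⟩
        · rw [← sub_eq_zero.1 h2, ← two_smul ℂ X1, smul_smul]
          intro h3
          rcases smul_eq_zero.1 h3 with h4 | h4
          · exact (mul_ne_zero Complex.I_ne_zero two_ne_zero) h4
          · exact hX10 h4
        · rw [conjTranspose_smul, conjTranspose_add, conjTranspose_conjTranspose]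
          have h3 : star Complex.I = -Complex.I := Complex.conj_I
          rw [h3, neg_smul, add_comm X1ᴴ X1]
        · rw [st_smul, st_add, hX1st, hHst, ← neg_add, smul_neg]
        · exact InB.smul _ (InB.add hX1B (InB.H D.hL hX1B))
        · rw [Matrix.smul_mul, add_mul, hXP', hHP']
      · refine ⟨X1 - X1ᴴ, h2, ?_, ?_, ?_, ?_⟩
        · rw [conjTranspose_sub, conjTranspose_conjTranspose, neg_sub]
        · rw [st_sub, hX1st, hHst]
          abel
        · exact InB.sub hX1B (InB.H D.hL hX1B)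
        · rw [sub_mul, hXP', hHP']
    have hYE : Y * E i = Y := by
      rw [← hYP, mul_assoc, hPE]
    have hYL : Y ∈ L := D.hLf _ (Lf_real D.hO (D.hE i) hYst hYB hYE)
    obtain ⟨t, ht⟩ := exists_exp_ne hY0
    have h2 := D.max_real hi hYL hYh hYE t
    have h3 : exp (t • Y) * (1 - P) = 1 - P := by
      refine exp_fix ?_ t
      rw [mul_sub, mul_one, hYP, sub_self]
    have h4 : exp (t • Y) * (E i - P) = E i - P := by
      have h5 : E i - P = (1 - P) * E i := by rw [sub_mul, one_mul, hPE]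
      rw [h5, ← mul_assoc, h3]
    have h5 : exp (t • Y) * (w * E i) = w * E i + (1 - exp (t • Y)) := by
      have h6 : exp (t • Y) - exp (t • Y) * P = 1 - P := by rw [← h3, mul_sub, mul_one]
      have h7 : w * E i = (E i - P) - P := by
        rw [hwP]
        module
      rw [h7, mul_sub, h4]
      have h8 : exp (t • Y) * P = exp (t • Y) - (1 - P) := by rw [← h6]; abel
      rw [h8]
      abel
    rw [h5, trace_add, Complex.add_re] at h2
    have h6 := unitary_tr (exp_unitary hYh t) ht
    linarith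
  -- the compressions commute
  have hcomm : ∀ Y Z, InB L Y → InB L Z → P * Y * P * Z * P = P * Z * P * Y * P := by
    intro Y Z hY hZ
    have hY' : InB L (P * Y * P) := InB.mul (InB.mul hPB hY) hPB
    have hZ' : InB L (P * Z * P) := InB.mul (InB.mul hPB hZ) hPB
    have e1 : ∀ Y, P * (P * Y * P) * P = P * Y * P := by
      intro Y
      calc P * (P * Y * P) * P = (P * P) * Y * (P * P) := by noncomm_ring
        _ = _ := by rw [hPP]
    have e2 : ∀ Y Z, (P * Y * P) * (P * Z * P) = P * Y * P * Z * P := by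
      intro Y Z
      calc (P * Y * P) * (P * Z * P) = P * Y * (P * P) * Z * P := by noncomm_ring
        _ = _ := by rw [hPP]
    have h2 := hsym _ hY' (e1 Y)
    have h3 := hsym _ hZ' (e1 Z)
    have h4 := hsym ((P * Y * P) * (P * Z * P)) (InB.mul hY' hZ') (by
      rw [e2]
      calc P * (P * Y * P * Z * P) * P = (P * P) * Y * P * Z * (P * P) := by noncomm_ring
        _ = _ := by rw [hPP])
    rw [st_mul D.hO, h2, h3, e2, e2] at h4
    exact h4.symm
  -- matrix units
  obtain ⟨d, m, ε, hd, hm, hεB, hεm, hεs, hεh, hεr, hεt, hεe⟩ := hmu B L D.hL.adj (E i) (D.hE i)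
  obtain ⟨x, hxP⟩ : ∃ x : Matrix (Fin d) (Fin d) ℂ, P = sm ε x := by
    obtain ⟨x, hx⟩ := hεr P hPB
    exact ⟨x, by rw [← hPE, hx]; rfl⟩
  have htr := hεe e he
  have hsB : ∀ y, InB L (sm ε y) := by
    intro y
    unfold sm
    intro M hM
    simp only [Finset.sum_mul, Finset.mul_sum, Matrix.smul_mul, Matrix.mul_smul]
    refine Finset.sum_congr rfl fun a _ => Finset.sum_congr rfl fun b _ => ?_
    rw [hεB a b M hM]
  have hxx : x * x = x := by
    refine sm_inj (e := e) hεm htr ?_
    rw [← sm_mul hεm, ← hxP, hPP]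
  have hcube := cube hxx fun y z => by
    refine sm_inj (e := e) hεm htr ?_
    simp only [← sm_mul hεm]
    rw [← hxP]
    exact hcomm _ _ (hsB y) (hsB z)
  -- the determinant
  have hPe : P * e = e * P := hPB e he.1
  have hPe2 : (P * e) * (P * e) = P * e := by
    calc (P * e) * (P * e) = P * (e * P) * e := by noncomm_ring
      _ = (P * P) * (e * e) := by rw [← hPe]; noncomm_ring
      _ = _ := by rw [hPP, he.2.1]
  have hDe : w * e + 1 - e = 1 - (2 : ℂ) • (P * e) := by
    have h2 : P * e = (1 / 2 : ℂ) • (e - w * e) := by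
      rw [hP, Matrix.smul_mul, sub_mul, mul_assoc, he.2.2.2.1]
    rw [h2, smul_smul]
    norm_num
    abel
  have hDD : (1 - (2 : ℂ) • (P * e)) * (1 - (2 : ℂ) • (P * e)) = 1 := by
    have h2 : (1 - (2 : ℂ) • (P * e)) * (1 - (2 : ℂ) • (P * e)) =
        1 - (4 : ℂ) • (P * e) + (4 : ℂ) • ((P * e) * (P * e)) := by
      obtain ⟨R, hR⟩ : ∃ R, R = P * e := ⟨_, rfl⟩
      rw [← hR]
      have h3 : ∀ T : Matrix B B ℂ, (1 - T) * (1 - T) = 1 - T - T + T * T := fun T => by
        noncomm_ring
      rw [h3, Matrix.smul_mul, Matrix.mul_smul]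
      module
    rw [h2, hPe2]
    module
  obtain ⟨N, hN1, hN2, hN3⟩ := invol hDD
  rw [← hDe, hdet] at hN1
  have htrN : trace x = N := by
    rw [← sm_tr htr, ← hxP]
    rw [trace_sub, trace_smul, smul_eq_mul] at hN2
    linear_combination (-1 / 2 : ℂ) * hN2
  rw [htrN] at hcube
  have hN : N ^ 3 = N := by exact_mod_cast hcube
  have hN01 : N = 0 ∨ N = 1 := by
    rcases Nat.eq_zero_or_pos N with h | h
    · exact Or.inl h
    · right
      have h2 : N * (N * N) = N * 1 := by
        rw [mul_one]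
        calc N * (N * N) = N ^ 3 := by ring
          _ = N := hN
      have h3 := Nat.eq_of_mul_eq_mul_left h h2
      nlinarith
  have hN0 : N = 0 := by
    rcases hN01 with h | h
    · exact h
    · exfalso
      rw [h] at hN1
      norm_num at hN1
  have hD1 := hN3 hN0
  have hPe0 : P * e = 0 := by
    have h2 : (2 : ℂ) • (P * e) = 0 := by
      have h3 := congrArg (fun M => 1 - M) hD1
      beta_reduce at h3
      rw [sub_self, sub_sub_cancel] at h3
      exact h3
    exact (smul_eq_zero.1 h2).resolve_left two_ne_zero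
  have hx0 : x = 0 := by
    apply trace_self_eq_zero
    rw [← sm_tr htr, ← sm_mul hεm, ← hxP, mul_assoc, hPe0, mul_zero, trace_zero]
  rw [hxP, hx0]
  unfold sm
  simp

theorem conj_tr {i i' : Fin s} (hi' : NH32.st Om (E i) = E i') {v : Matrix B B ℂ}
    (hv : NH32.st Om v = vᴴ) : trace (v * E i') = star (trace (v * E i)) := by
  have h1 : NH32.st Om (E i') = E i := by rw [← hi', st_st D.hO]
  rw [← st_trace D.hO (v * E i'), st_mul D.hO, h1, hv, ← trace_conjTranspose,
    conjTranspose_mul, D.hh]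

theorem max_nonreal {i i' : Fin s} (hi' : NH32.st Om (E i) = E i') (hne : i ≠ i')
    (hne' : NH32.st Om (E i) ≠ E i) {A : Matrix B B ℂ} (hAB : InB L A) (hAE : A * E i = A)
    (hAh : Aᴴ = -A) (hAt : trace A = 0) (t : ℝ) :
    Complex.normSq (trace (exp (t • A) * (w * E i))) ≤ Complex.normSq (trace (w * E i)) := by
  classical
  obtain ⟨S, hS⟩ : ∃ S, S = NH32.st Om A := ⟨_, rfl⟩
  obtain ⟨X, hX⟩ : ∃ X, X = A - S := ⟨_, rfl⟩
  have hXL : X ∈ L := by
    rw [hX, hS]
    exact D.hLf _ (Lf_nonreal D.hO D.hL (D.hE i) hAB hAE hAt)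
  have hXh : Xᴴ = -X := by
    rw [hX, conjTranspose_sub, hAh, hS, ← st_H D.hO, hAh, st_neg]
    abel
  have hEA : E i * A = A := by rw [← hAB _ (D.hE i).1.1, hAE]
  have hSE : S * E i' = S := by
    have h1 := congrArg (NH32.st Om) hEA
    rw [st_mul D.hO, hi', ← hS] at h1
    exact h1
  have hES : E i' * S = S := by
    have h1 := congrArg (NH32.st Om) hAE
    rw [st_mul D.hO, hi', ← hS] at h1
    exact h1
  have hSEi : S * E i = 0 := by
    rw [← hSE, mul_assoc, D.ho i' i (Ne.symm hne), mul_zero]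
  have hAS : A * S = 0 := by
    rw [← hAE, ← hES]
    calc A * E i * (E i' * S) = A * (E i * E i') * S := by noncomm_ring
      _ = 0 := by rw [D.ho i i' hne, mul_zero, zero_mul]
  have hSA : S * A = 0 := by
    rw [← hSE, ← hEA]
    calc S * E i' * (E i * A) = S * (E i' * E i) * A := by noncomm_ring
      _ = 0 := by rw [D.ho i' i (Ne.symm hne), mul_zero, zero_mul]
  have hexp : exp (t • X) * E i = exp (t • A) * E i := by
    have h1 : t • X = t • A + t • (-S) := by
      rw [hX, sub_eq_add_neg, smul_add]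
    have h2 : Commute (t • A) (t • (-S)) := by
      have h3 : Commute A (-S) := by
        change A * -S = -S * A
        rw [mul_neg, neg_mul, hAS, hSA]
      exact (h3.smul_left t).smul_right t
    have h3 : exp (t • (-S)) * E i = E i := exp_fix (by rw [neg_mul, hSEi, neg_zero]) t
    rw [h1, Matrix.exp_add_of_commute _ _ h2, mul_assoc, h3]
  have hfi : ∀ v, fF Om (E i) v = Complex.normSq (trace (v * E i)) := by
    intro v
    unfold fF
    rw [if_neg hne']
  have hi2 : NH32.st Om (E i') = E i := by rw [← hi', st_st D.hO]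
  have hfi' : ∀ v, fF Om (E i') v = Complex.normSq (trace (v * E i')) := by
    intro v
    unfold fF
    rw [if_neg]
    rw [hi2, ← hi']
    exact fun h => hne' h.symm
  have hother : ∀ j, j ≠ i → j ≠ i' → fF Om (E j) (exp (t • X) * w) = fF Om (E j) w := by
    intro j hj hj'
    have h3 : X * E j = 0 := by
      rw [hX, sub_mul, ← hAE, mul_assoc, D.ho i j (Ne.symm hj), mul_zero, ← hSE, mul_assoc,
        D.ho i' j (Ne.symm hj'), mul_zero, sub_zero]
    have h4 : exp (t • X) * w * E j = w * E j := by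
      rw [mul_assoc, D.wE, ← mul_assoc, exp_fix h3]
    unfold fF
    rw [h4]
  have h1 := D.hmax X hXL hXh t
  have hm : i' ∈ Finset.univ.erase i := Finset.mem_erase.2 ⟨Ne.symm hne, Finset.mem_univ _⟩
  rw [← Finset.add_sum_erase _ _ (Finset.mem_univ i), ← Finset.add_sum_erase _ _
    (Finset.mem_univ i), ← Finset.add_sum_erase _ _ hm, ← Finset.add_sum_erase _ _ hm,
    Finset.sum_congr rfl fun j hj => hother j
      (Finset.ne_of_mem_erase (Finset.mem_of_mem_erase hj)) (Finset.ne_of_mem_erase hj),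
    ← add_assoc, ← add_assoc] at h1
  have h2 := le_of_add_le_add_right h1
  have hst2 : NH32.st Om (exp (t • X) * w) = (exp (t • X) * w)ᴴ := by
    rw [st_mul D.hO, D.hst, D.hst' X hXL hXh t, conjTranspose_mul]
  rw [hfi, hfi, hfi', hfi', D.conj_tr hi' hst2, D.conj_tr hi' D.hst] at h2
  have h3 : ∀ z : ℂ, Complex.normSq (star z) = Complex.normSq z := fun z => Complex.normSq_conj z
  rw [h3, h3] at h2
  have h4 : exp (t • X) * w * E i = exp (t • A) * (w * E i) := by
    rw [mul_assoc, D.wE, ← mul_assoc, hexp, mul_assoc]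
  rw [h4] at h2
  linarith

/-- The nonreal case. -/
theorem nonreal {i i' : Fin s} (hi' : NH32.st Om (E i) = E i')
    (hne' : NH32.st Om (E i) ≠ E i) : ∃ c : ℂ, w * E i = c • E i := by
  have hne : i ≠ i' := by
    intro h
    apply hne'
    rw [hi', ← h]
  obtain ⟨t₀, ht₀⟩ : ∃ t₀, t₀ = trace (w * E i) := ⟨_, rfl⟩
  have hEB : InB L (E i) := InB.of_ZM (D.hE i).1
  have hwEH : (w * E i)ᴴ = wᴴ * E i := by rw [conjTranspose_mul, D.hh, ← D.wHE]
  have htH : trace (wᴴ * E i) = star t₀ := by rw [← hwEH, trace_conjTranspose, ht₀]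
  have hB1 : InB L (w * E i) := InB.mul D.hB hEB
  have hB2 : InB L (wᴴ * E i) := InB.mul (InB.H D.hL D.hB) hEB
  have hE1 : w * E i * E i = w * E i := by rw [mul_assoc, D.EE]
  have hE2 : wᴴ * E i * E i = wᴴ * E i := by rw [mul_assoc, D.EE]
  have hww : wᴴ * E i * (w * E i) = E i := by
    rw [D.wE, mul_assoc, ← mul_assoc (E i) (E i) w, D.EE, ← D.wE, ← mul_assoc, D.h2, one_mul]
  have hww' : w * E i * (wᴴ * E i) = E i := by
    rw [D.wHE, mul_assoc, ← mul_assoc (E i) (E i) wᴴ, D.EE, ← D.wHE, ← mul_assoc, D.h1, one_mul]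
  by_cases h0 : t₀ = 0
  · exfalso
    have key : ∀ A, InB L A → A * E i = A → Aᴴ = -A → trace A = 0 →
        trace (A * (w * E i)) = 0 := by
      intro A h1 h2 h3 h4
      have h5 : ∀ t : ℝ, trace (exp (t • A) * (w * E i)) = 0 := by
        intro t
        have h6 := D.max_nonreal hi' hne hne' h1 h2 h3 h4 t
        rw [← ht₀, h0, Complex.normSq_zero] at h6
        exact Complex.normSq_eq_zero.1 (le_antisymm h6 (Complex.normSq_nonneg _))
      have h6 := hasDerivAt_tr A (w * E i)
      rw [funext h5] at h6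
      exact h6.unique (hasDerivAt_const _ _)
    have k1 := key (wᴴ * E i - w * E i) (InB.sub hB2 hB1) (by rw [sub_mul, hE2, hE1]) (by
      rw [conjTranspose_sub, hwEH, ← hwEH, conjTranspose_conjTranspose, neg_sub]) (by
      rw [trace_sub, htH, ← ht₀, h0, star_zero, sub_zero])
    have k2 := key (Complex.I • (wᴴ * E i + w * E i)) (InB.smul _ (InB.add hB2 hB1))
      (by rw [Matrix.smul_mul, add_mul, hE2, hE1]) (by
      have h3 : star Complex.I = -Complex.I := Complex.conj_I
      rw [conjTranspose_smul, conjTranspose_add, hwEH, ← hwEH, conjTranspose_conjTranspose, h3,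
        neg_smul, add_comm]) (by
      rw [trace_smul, trace_add, htH, ← ht₀, h0, star_zero, add_zero, smul_zero])
    rw [sub_mul, trace_sub] at k1
    rw [Matrix.smul_mul, trace_smul, add_mul, trace_add] at k2
    have k3 := (smul_eq_zero.1 k2).resolve_left Complex.I_ne_zero
    rw [hww] at k1 k3
    have k4 : trace ((E i)ᴴ * E i) = 0 := by
      rw [D.hh, D.EE]
      linear_combination (1 / 2 : ℂ) * k1 + (1 / 2 : ℂ) * k3
    exact (D.hE i).2.2.1 (trace_self_eq_zero k4)
  -- the trace is not zero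
  have hss : star t₀ * t₀ = ((‖t₀‖ ^ 2 : ℝ) : ℂ) := by
    have h1 : star t₀ * t₀ = (Complex.normSq t₀ : ℂ) := (Complex.normSq_eq_conj_mul_self).symm
    rw [h1, Complex.normSq_eq_norm_sq]
  obtain ⟨r, hr⟩ : ∃ r, r = ‖t₀‖ := ⟨_, rfl⟩
  have hr0 : 0 < r := by rw [hr]; exact norm_pos_iff.2 h0
  have hrC : (r : ℂ) ≠ 0 := Complex.ofReal_ne_zero.2 hr0.ne'
  rw [← hr] at hss
  push_cast at hss
  -- Hermitian
  have hNN : star t₀ • (w * E i) = t₀ • (wᴴ * E i) := by
    obtain ⟨A, hA⟩ : ∃ A, A = star t₀ • (w * E i) - t₀ • (wᴴ * E i) := ⟨_, rfl⟩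
    have hAB : InB L A := by rw [hA]; exact InB.sub (InB.smul _ hB1) (InB.smul _ hB2)
    have hAE : A * E i = A := by
      rw [hA, sub_mul, Matrix.smul_mul, Matrix.smul_mul, hE1, hE2]
    have hwEH' : (wᴴ * E i)ᴴ = w * E i := by rw [← hwEH, conjTranspose_conjTranspose]
    have hAh : Aᴴ = -A := by
      rw [hA, conjTranspose_sub, conjTranspose_smul, conjTranspose_smul, hwEH, hwEH', star_star,
        neg_sub]
    have hAt : trace A = 0 := by
      rw [hA, trace_sub, trace_smul, trace_smul, htH, ← ht₀, smul_eq_mul, smul_eq_mul]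
      ring
    have h1 := hasDerivAt_tr A (w * E i)
    have hre : HasDerivAt (fun t : ℝ => (trace (exp (t • A) * (w * E i))).re)
        (trace (A * (w * E i))).re 0 := Complex.reCLM.hasFDerivAt.comp_hasDerivAt 0 h1
    have him : HasDerivAt (fun t : ℝ => (trace (exp (t • A) * (w * E i))).im)
        (trace (A * (w * E i))).im 0 := Complex.imCLM.hasFDerivAt.comp_hasDerivAt 0 h1
    have h2 := (hre.mul hre).add (him.mul him)
    have h3 : IsLocalMax (fun t : ℝ => Complex.normSq (trace (exp (t • A) * (w * E i)))) 0 := by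
      refine Filter.Eventually.of_forall fun t => ?_
      beta_reduce
      rw [exp_zero_smul, one_mul]
      exact D.max_nonreal hi' hne hne' hAB hAE hAh hAt t
    have h4 := h3.hasDerivAt_eq_zero h2
    rw [exp_zero_smul, one_mul, ← ht₀] at h4
    have h5 : (star t₀ * trace (A * (w * E i))).re = 0 := by
      have h6 : (star t₀).re = t₀.re := Complex.conj_re _
      have h7 : (star t₀).im = -t₀.im := Complex.conj_im _
      rw [Complex.mul_re, h6, h7]
      linarith
    have h6 : star t₀ * trace (A * (w * E i)) = trace (A * (star t₀ • (w * E i))) := by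
      rw [Matrix.mul_smul, trace_smul, smul_eq_mul]
    rw [h6] at h5
    have h7 : star (trace (A * (star t₀ • (w * E i)))) = -trace (A * (t₀ • (wᴴ * E i))) := by
      rw [← trace_conjTranspose, conjTranspose_mul, conjTranspose_smul, hwEH, star_star, hAh,
        mul_neg, trace_neg, trace_mul_comm]
    have h8 : trace (Aᴴ * A) = 0 := by
      have h9 : trace (A * (star t₀ • (w * E i))) + star (trace (A * (star t₀ • (w * E i)))) =
          ((2 * (trace (A * (star t₀ • (w * E i)))).re : ℝ) : ℂ) := Complex.add_conj _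
      rw [h5, mul_zero, Complex.ofReal_zero, h7, ← sub_eq_add_neg, ← trace_sub, ← mul_sub,
        ← hA] at h9
      rw [hAh, neg_mul, trace_neg, h9, neg_zero]
    have h9 := trace_self_eq_zero h8
    rw [hA] at h9
    exact sub_eq_zero.1 h9
  obtain ⟨V, hV⟩ : ∃ V, V = (star t₀ / r) • (w * E i) := ⟨_, rfl⟩
  have hV2 : V = (t₀ / r) • (wᴴ * E i) := by
    rw [hV, div_eq_inv_mul, div_eq_inv_mul, ← smul_smul, ← smul_smul, hNN]
  have hrs : star (r : ℂ) = r := Complex.conj_ofReal _
  have hVh : Vᴴ = V := by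
    rw [hV, conjTranspose_smul, hwEH, star_div₀, star_star, hrs, ← hV2, hV]
  have hVV : V * V = E i := by
    nth_rewrite 2 [hV2]
    rw [hV, Matrix.smul_mul, Matrix.mul_smul, smul_smul, hww']
    have h1 : star t₀ / r * (t₀ / r) = 1 := by
      rw [div_mul_div_comm, hss]
      field_simp
    rw [h1, one_smul]
  have hVB : InB L V := by rw [hV]; exact InB.smul _ hB1
  have hVE : V * E i = V := by rw [hV, Matrix.smul_mul, hE1]
  have hEV : E i * V = V := by rw [← hVB _ (D.hE i).1.1, hVE]
  have hVt : trace V = r := by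
    rw [hV, trace_smul, ← ht₀, smul_eq_mul, div_mul_eq_mul_div, hss]
    field_simp
  have hwV : w * E i = (t₀ / r) • V := by
    rw [hV, smul_smul]
    have h1 : t₀ / r * (star t₀ / r) = 1 := by
      rw [div_mul_div_comm, mul_comm t₀, hss]
      field_simp
    rw [h1, one_smul]
  refine ⟨t₀ / r, ?_⟩
  suffices hVE' : E i - V = 0 by
    rw [hwV, sub_eq_zero.1 hVE']
  by_contra hP0
  obtain ⟨P, hP⟩ : ∃ P, P = (1 / 2 : ℂ) • (E i - V) := ⟨_, rfl⟩
  obtain ⟨Q, hQ⟩ : ∃ Q, Q = (1 / 2 : ℂ) • (E i + V) := ⟨_, rfl⟩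
  have hP0' : P ≠ 0 := by
    intro h1
    rw [hP] at h1
    exact hP0 ((smul_eq_zero.1 h1).resolve_left (by norm_num))
  have h12 : star (1 / 2 : ℂ) = 1 / 2 := by
    have h1 : (1 / 2 : ℂ) = ((1 / 2 : ℝ) : ℂ) := by push_cast; ring
    rw [h1]
    exact Complex.conj_ofReal _
  have hPh : Pᴴ = P := by rw [hP, conjTranspose_smul, conjTranspose_sub, D.hh, hVh, h12]
  have hQh : Qᴴ = Q := by rw [hQ, conjTranspose_smul, conjTranspose_add, D.hh, hVh, h12]
  have hPP : P * P = P := by
    rw [hP, Matrix.smul_mul, Matrix.mul_smul, smul_smul, sub_mul, mul_sub, mul_sub, D.EE, hVV,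
      hVE, hEV]
    module
  have hQQ : Q * Q = Q := by
    rw [hQ, Matrix.smul_mul, Matrix.mul_smul, smul_smul, add_mul, mul_add, mul_add, D.EE, hVV,
      hVE, hEV]
    module
  have hPQ : P * Q = 0 := by
    rw [hP, hQ, Matrix.smul_mul, Matrix.mul_smul, smul_smul, sub_mul, mul_add, mul_add, D.EE,
      hVV, hVE, hEV]
    module
  have hQP : Q * P = 0 := by
    rw [hP, hQ, Matrix.smul_mul, Matrix.mul_smul, smul_smul, add_mul, mul_sub, mul_sub, D.EE,
      hVV, hVE, hEV]
    module
  have hPB : InB L P := by rw [hP]; exact InB.smul _ (InB.sub hEB hVB)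
  have hQB : InB L Q := by rw [hQ]; exact InB.smul _ (InB.add hEB hVB)
  have hPE : P * E i = P := by rw [hP, Matrix.smul_mul, sub_mul, D.EE, hVE]
  have hQE : Q * E i = Q := by rw [hQ, Matrix.smul_mul, add_mul, D.EE, hVE]
  have hVQP : V = Q - P := by
    rw [hP, hQ]
    module
  obtain ⟨b, hb⟩ : ∃ b : ℝ, trace P = b := by
    refine ⟨(trace P).re, ?_⟩
    have h1 : star (trace P) = trace P := by rw [← trace_conjTranspose, hPh]
    exact (Complex.conj_eq_iff_re.1 h1).symm
  obtain ⟨a, ha⟩ : ∃ a : ℝ, trace Q = a := by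
    refine ⟨(trace Q).re, ?_⟩
    have h1 : star (trace Q) = trace Q := by rw [← trace_conjTranspose, hQh]
    exact (Complex.conj_eq_iff_re.1 h1).symm
  have hab : a - b = r := by
    have h1 : trace V = a - b := by rw [hVQP, trace_sub, ha, hb]
    rw [hVt] at h1
    exact_mod_cast h1.symm
  have hb0 : 0 < b := by
    have h1 := tr_self_pos hP0'
    rw [hPh, hPP, hb, Complex.ofReal_re] at h1
    exact h1
  have ha0 : 0 < a := by linarith
  obtain ⟨A, hA⟩ : ∃ A, A = (Complex.I * b) • Q - (Complex.I * a) • P := ⟨_, rfl⟩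
  have hIs : ∀ c : ℝ, star (Complex.I * c) = -(Complex.I * c) := by
    intro c
    have h3 : star Complex.I = -Complex.I := Complex.conj_I
    have h4 : star (c : ℂ) = c := Complex.conj_ofReal _
    rw [star_mul', h3, h4, neg_mul]
  have hAh : Aᴴ = -A := by
    rw [hA, conjTranspose_sub, conjTranspose_smul, conjTranspose_smul, hPh, hQh, hIs, hIs,
      neg_smul, neg_smul]
    abel
  have hAt : trace A = 0 := by
    rw [hA, trace_sub, trace_smul, trace_smul, ha, hb, smul_eq_mul, smul_eq_mul]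
    ring
  have hAB : InB L A := by rw [hA]; exact InB.sub (InB.smul _ hQB) (InB.smul _ hPB)
  have hAE : A * E i = A := by rw [hA, sub_mul, Matrix.smul_mul, Matrix.smul_mul, hPE, hQE]
  have hAQ : A * Q = (Complex.I * b) • Q := by
    rw [hA, sub_mul, Matrix.smul_mul, Matrix.smul_mul, hPQ, hQQ, smul_zero, sub_zero]
  have hAP : A * P = (-(Complex.I * a)) • P := by
    rw [hA, sub_mul, Matrix.smul_mul, Matrix.smul_mul, hPP, hQP, smul_zero, zero_sub, neg_smul]
  have h1 := D.max_nonreal hi' hne hne' hAB hAE hAh hAt (Real.pi / (a + b))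
  rw [← ht₀] at h1
  have hab0 : a + b ≠ 0 := by linarith
  have hab0' : (a : ℂ) + b ≠ 0 := by exact_mod_cast hab0
  obtain ⟨z, hz⟩ : ∃ z, z = Complex.exp (((Real.pi / (a + b) : ℝ) : ℂ) * (Complex.I * b)) :=
    ⟨_, rfl⟩
  have hz2 : Complex.exp (((Real.pi / (a + b) : ℝ) : ℂ) * (-(Complex.I * a))) = -z := by
    have h2 : ((Real.pi / (a + b) : ℝ) : ℂ) * (-(Complex.I * a)) =
        ((Real.pi / (a + b) : ℝ) : ℂ) * (Complex.I * b) - Real.pi * Complex.I := by
      push_cast
      field_simp
      ring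
    rw [h2, Complex.exp_sub, Complex.exp_pi_mul_I, ← hz, div_neg, div_one]
  have hzn : Complex.normSq z = 1 := by
    have h2 : ((Real.pi / (a + b) : ℝ) : ℂ) * (Complex.I * b) =
        ((Real.pi / (a + b) * b : ℝ) : ℂ) * Complex.I := by
      push_cast
      ring
    rw [hz, h2, Complex.normSq_eq_norm_sq, Complex.norm_exp_ofReal_mul_I, one_pow]
  have h2 : trace (exp ((Real.pi / (a + b)) • A) * (w * E i)) = (t₀ / r) * (z * (a + b)) := by
    rw [hwV, hVQP, Matrix.mul_smul, mul_sub, exp_eig hAQ, exp_eig hAP, ← hz, hz2, trace_smul,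
      trace_sub, trace_smul, trace_smul, ha, hb, smul_eq_mul, smul_eq_mul, smul_eq_mul]
    ring
  rw [h2, Complex.normSq_mul, Complex.normSq_mul, hzn, one_mul] at h1
  have h3 : Complex.normSq (t₀ / r) = 1 := by
    rw [Complex.normSq_eq_norm_sq, norm_div, ← hr, Complex.norm_real, Real.norm_eq_abs,
      abs_of_pos hr0, div_self hr0.ne', one_pow]
  have h4 : Complex.normSq ((a : ℂ) + b) = (a + b) ^ 2 := by
    rw [← Complex.ofReal_add, Complex.normSq_ofReal]
    ring
  have h5 : Complex.normSq t₀ = r ^ 2 := by rw [Complex.normSq_eq_norm_sq, hr]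
  rw [h3, h4, h5, one_mul, ← hab] at h1
  nlinarith [mul_pos ha0 hb0]

end Dat

end WJ11

open WJ11 in
/-- **J11.** The maximum principle. -/
theorem mx_of (h1 : St_dec) (h2 : St_mu) : St_mx := by
  intro B _ _ Om L hO hL hLf u hu hdet
  obtain ⟨s, E, hE, ho, hs, hh, hall, hspan⟩ := h1 B L hL.adj
  obtain ⟨k, hk, hmax⟩ := exists_fmax (Om := Om) (L := L) E u
  have D : Dat Om L E (mt (k * u)) :=
    { hO := hO
      hL := hL
      hLf := hLf
      hE := hE
      ho := ho
      hh := hh
      hB := by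
        rw [mt_mul]
        exact InB.mul (InB.of_KK hO hL hk) hu
      h1 := by rw [← mt_inv, mt_mul_inv]
      h2 := by rw [← mt_inv, mt_inv_mul]
      hst := st_mt hO _
      hmax := by
        intro X hX hXh t
        have h3 : eU hO.sq hXh (hL.sp X hX) t ∈ KK Om L := by
          intro κ _ _ y hy
          rw [mt_eU]
          exact (isCurve_exp X).fix (exp_zero_smul X) (hy X hX) t
        have h4 := hmax _ ((KK Om L).mul_mem h3 hk)
        rw [mul_assoc, mt_mul (eU hO.sq hXh (hL.sp X hX) t), mt_eU] at h4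
        exact h4
      hst' := by
        intro X hX hXh t
        have h3 := st_mt hO (eU hO.sq hXh (hL.sp X hX) t)
        rw [mt_eU] at h3
        exact h3 }
  have hreal : ∀ i, st Om (E i) = E i → mt (k * u) * E i = E i := by
    intro i hi
    obtain ⟨e, he, hde⟩ := hdet (E i) (hE i) hi
    exact D.real_two h2 hi he (hde k hk)
  have hscal : ∀ i, ∃ c : ℂ, mt (k * u) * E i = c • E i := by
    intro i
    by_cases hi : st Om (E i) = E i
    · exact ⟨1, by rw [hreal i hi, one_smul]⟩
    · obtain ⟨i', hi'⟩ := hall _ (st_Mz hO hL (hE i))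
      exact D.nonreal hi' hi
  choose c hc using hscal
  refine ⟨k, hk, ?_, fun F hF hFst => ?_⟩
  · have h3 : mt (k * u) = ∑ i, c i • E i := by
      calc mt (k * u) = mt (k * u) * ∑ i, E i := by rw [hs, mul_one]
        _ = ∑ i, mt (k * u) * E i := by rw [Finset.mul_sum]
        _ = _ := Finset.sum_congr rfl fun i _ => hc i
    rw [h3]
    exact (ZM L).sum_mem fun i _ => (ZM L).smul_mem _ (hE i).1
  · obtain ⟨i, rfl⟩ := hall F hF
    exact hreal i hFst

end

end Pool.Agent.NH32
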