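import Mathlib
import Pool.Agent.NH32.WJ2A

/-!
# Central elements and traces
-/

set_option linter.unusedSectionVars false

namespace Pool.Agent.NH32

open Matrix Module WJ2

noncomputable section

/-- **J2.** -/
theorem cent_of (h : St_dec) : St_cent := by
  classical
  intro B _ _ Om L hO hL z hz H κ _ _ x hx
  obtain ⟨s, E, hE, hEE, hsum, hEh, -, hsp⟩ := h B L hL.adj
  obtain ⟨c, hc⟩ := hsp z hz
  have hwE : ∀ (w : Fin s → ℂ) i, (∑ j, w j • E j) * E i = w i • E i := by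
    intro w i
    rw [Finset.sum_mul, Finset.sum_eq_single i]
    · rw [Matrix.smul_mul, (hE i).2.1]
    · intro j _ hj
      rw [Matrix.smul_mul, hEE j i hj, smul_zero]
    · intro h; exact absurd (Finset.mem_univ _) h
  have hdm : ∀ (w : Fin s → ℂ) (f : κ → Fin s),
      dm κ (∑ j, w j • E j) * kpp (fun k => E (f k)) =
        (∑ k, w (f k)) • kpp (fun k => E (f k)) := fun w f => dm_mul_kpp fun k => hwE w (f k)
  have hx' : dm κ z *ᵥ x =
      ∑ f : κ → Fin s, (∑ k, c (f k)) • (kpp (fun k => E (f k)) *ᵥ x) := by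
    conv_lhs => rw [← one_mulVec x, ← sum_kpp (κ := κ) hsum, sum_mulVec, mulVec_sum]
    refine Finset.sum_congr rfl fun f _ => ?_
    rw [mulVec_mulVec, hc, hdm, smul_mulVec]
  rw [hx']
  refine Finset.sum_eq_zero fun f _ => ?_
  by_cases hf : kpp (fun k => E (f k)) *ᵥ x = 0
  · rw [hf, smul_zero]
  have hyL : ∀ X ∈ L, dm κ X *ᵥ (kpp (fun k => E (f k)) *ᵥ x) = 0 := by
    intro X hX
    rw [mulVec_mulVec, dm_comm_kpp (fun k => L_comm hX (hE (f k)).1), ← mulVec_mulVec, hx X hX,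
      mulVec_zero]
  have key : ∀ w : Fin s → ℂ, (∑ j, w j • E j) ∈ L → ∑ k, w (f k) = 0 := by
    intro w hw
    have h1 := hyL _ hw
    rw [mulVec_mulVec, hdm, smul_mulVec] at h1
    exact (smul_eq_zero.1 h1).resolve_right hf
  -- traces
  choose r hr using fun i => idem_trace (hE i).2.1
  obtain ⟨R, hR⟩ : ∃ R : Fin s → ℕ, ∀ i, R i = ∏ j ∈ Finset.univ.erase i, r j := ⟨_, fun _ => rfl⟩
  obtain ⟨N, hN⟩ : ∃ N : ℕ, N = ∏ j, r j := ⟨_, rfl⟩
  have hRN : ∀ i, R i * r i = N := fun i => by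
    rw [hR, hN]
    exact Finset.prod_erase_mul _ _ (Finset.mem_univ i)
  have hN0 : (N : ℂ) ≠ 0 := by
    rw [Nat.cast_ne_zero, hN, Finset.prod_ne_zero_iff]
    intro i _
    exact ((hr i).2.1 (hE i).2.2.1).ne'
  have htr : ∀ (w : Fin s → ℂ) i, trace ((∑ j, w j • E j) * E i) = w i * r i := fun w i => by
    rw [hwE, trace_smul, (hr i).1, smul_eq_mul]
  obtain ⟨n, ⟨e⟩⟩ : ∃ n : ℕ, Nonempty ((Σ k : κ, Fin (R (f k))) ≃ Fin n) :=
    ⟨_, ⟨Fintype.equivFin _⟩⟩
  have hfam : ∀ X : Matrix B B ℂ, ∑ i, trace (X * E (f (e.symm i).1)) =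
      ∑ k, (R (f k) : ℂ) * trace (X * E (f k)) := by
    intro X
    rw [Equiv.sum_comp e.symm (fun p : Σ k : κ, Fin (R (f k)) => trace (X * E (f p.1))),
      Fintype.sum_sigma]
    refine Finset.sum_congr rfl fun k _ => ?_
    dsimp only
    rw [Finset.sum_const, Finset.card_univ, Fintype.card_fin, nsmul_eq_mul]
  have h1 := H n (fun i => E (f (e.symm i).1)) (fun i => ⟨(hE _).1, (hE _).2.1⟩) (by
    intro X hX
    rw [hfam]
    obtain ⟨X', X'', hXX, hX'', hXZ, htr'⟩ := dec_L hL hX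
    obtain ⟨w, hw⟩ := hsp X'' hXZ
    have h2 := key w (hw ▸ hX'')
    have h3 : ∀ k, (R (f k) : ℂ) * trace (X * E (f k)) = N * w (f k) := by
      intro k
      rw [hXX, add_mul, trace_add, htr' _ (hE _).1.1, zero_add, hw, htr, ← hRN (f k)]
      push_cast
      ring
    rw [Finset.sum_congr rfl fun k _ => h3 k, ← Finset.mul_sum, h2, mul_zero])
  rw [hfam] at h1
  have h3 : ∀ k, (R (f k) : ℂ) * trace (z * E (f k)) = N * c (f k) := by
    intro k
    rw [hc, htr, ← hRN (f k)]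
    push_cast
    ring
  rw [Finset.sum_congr rfl fun k _ => h3 k, ← Finset.mul_sum] at h1
  rw [(mul_eq_zero.1 h1).resolve_left hN0, zero_smul]

end

end Pool.Agent.NH32
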