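import Mathlib
import Pool.Agent.NH32.WlG
import Pool.Agent.NH32.WlT

/-!
# The Hodge Lie algebra is determined by codimension two and Weil classes
-/

set_option linter.unusedSectionVars false

namespace Pool.Agent.NH32

open Matrix Module Pool.Agent.W437.HC Pool.Agent.W437.HD Pool.Agent.TH504.CB Pool.Agent.Y90
open Pool.Agent.H204R3.CM (IsHodge)
open Pool.Agent.W548.Odd hiding cv
open Pool.Agent.W437.HP (cK cK_mul cK_one evalF_ext)

noncomputable section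

variable {g : ℕ} {Z : Matrix (Fin g) (Fin g) ℂ} {A : AV} {e : A.H ≃ₗ[ℚ] (Fin g ⊕ Fin g → ℚ)}
  {y yi : Matrix (Fin g ⊕ Fin g) (Fin g ⊕ Fin g) ℝ}

theorem act_cK (F : Matrix (Fin g ⊕ Fin g) (Fin g ⊕ Fin g) ℚ) {κ : Type} [Fintype κ]
    [DecidableEq κ] (q : (κ → Fin g ⊕ Fin g) → ℚ) :
    dm κ (cK ℂ F)ᵀ *ᵥ cst ℂ q = cst ℂ (act F q) := by
  rw [dm_mulVec, transpose_transpose]
  exact act_cst F q

theorem cst_eq_zero {κ : Type} {q : (κ → Fin g ⊕ Fin g) → ℚ} (h : cst ℂ q = 0) : q = 0 := by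
  funext I
  have h1 := congrFun h I
  rw [Pi.zero_apply] at h1 ⊢
  change ((q I : ℚ) : ℂ) = 0 at h1
  exact_mod_cast h1

/-- A matrix kills the invariants if it kills the rational ones. -/
theorem kill_inv (hy : YD Z y yi) {κ : Type} [Fintype κ] [DecidableEq κ]
    {N : Matrix (Fin g ⊕ Fin g) (Fin g ⊕ Fin g) ℂ}
    (h : ∀ q : (κ → Fin g ⊕ Fin g) → ℚ, IsH (DZ Z) q → dm κ N *ᵥ cst ℂ q = 0) :
    ∀ x ∈ InvL (Ly Z y yi) κ, dm κ ((ph hy).P N) *ᵥ x = 0 := by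
  intro x hx
  have h1 := inv_le_span hy κ hx
  clear hx
  induction h1 using Submodule.span_induction with
  | mem x hx =>
    obtain ⟨q, hq, hqx⟩ := hx
    rw [dm_ph_zero, hqx]
    exact h q hq
  | zero => rw [mulVec_zero]
  | add a b _ _ ha hb => rw [mulVec_add, ha, hb, add_zero]
  | smul c a _ ha => rw [mulVec_smul, ha, smul_zero]

/-- **Idempotents.** If a matrix `Y` kills the pull-backs of the Weil classes then its traces on the
central idempotents satisfy the relations of the Lie algebra. -/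
theorem trace_rel (h4 : St_wI) (h6 : St_idem) (h7 : St_bas) (hZ : PM Z)
    (hc : Cht (A.per.comp e.symm.toLinearMap.toAddMonoidHom) (JR Z))
    {N : Matrix (Fin g ⊕ Fin g) (Fin g ⊕ Fin g) ℂ}
    (hN : InB (Lr Z) N)
    (hW : ∀ (κ : Type) [Fintype κ] [DecidableEq κ], ∀ q ∈ WeilT e κ, dm κ N *ᵥ cst ℂ q = 0)
    {s : ℕ} {E : Fin s → Matrix (Fin g ⊕ Fin g) (Fin g ⊕ Fin g) ℂ}
    (hE : ∀ i, E i ∈ ZM (Lr Z) ∧ E i * E i = E i)
    (hX : ∀ X ∈ Lr Z, ∑ i, trace (X * E i) = 0) : ∑ i, trace (N * E i) = 0 := by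
  obtain ⟨d, a, ha1, ha2, ha3, ha4, ha5, ha6, -⟩ := h7 _ s E (fun i => (hE i).2)
    (fun i => (h6 g Z hZ).1 _ (hE i).1 (hE i).2)
  have hcomm : ∀ X ∈ Lr Z, ∀ i, X * E i = E i * X := fun X hX i => (hE i).1.1 X hX
  have h1 : wI a ∈ InvL (Lr Z) (Σ i, Fin (d i)) := by
    intro X hX'
    rw [ha6 X (hcomm X hX'), hX X hX', zero_smul]
  have h2 : ∀ i, ∀ X ∈ Lr Z, ∀ j, X *ᵥ a i j ∈ Submodule.span ℂ (Set.range (a i)) := by
    intro i X hX' j
    have h3 : X *ᵥ a i j = E i *ᵥ (X *ᵥ a i j) := by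
      conv_lhs => rw [← ha3 i j]
      rw [mulVec_mulVec, hcomm X hX' i, ← mulVec_mulVec]
    rw [h3]
    exact ha4 i _
  have h3 := h4 g Z A e hZ hc s d a ha1 ha2 h2 h1
  have h5 : dm (Σ i, Fin (d i)) N *ᵥ wI a = 0 := by
    generalize wI a = t at h3
    induction h3 using Submodule.span_induction with
    | mem x hx =>
      obtain ⟨q, hq, rfl⟩ := hx
      exact hW _ q hq
    | zero => rw [mulVec_zero]
    | add a b _ _ ha hb => rw [mulVec_add, ha, hb, add_zero]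
    | smul c a _ ha => rw [mulVec_smul, ha, smul_zero]
  rw [ha6 N (fun i => hN _ (hE i).1.1)] at h5
  exact (smul_eq_zero.1 h5).resolve_right ha5

/-- The theorem in coordinates. -/
theorem hodgeLie_core (h1 : St_split) (h2 : St_cent) (h4 : St_wI) (h6 : St_idem) (h7 : St_bas)
    (hZ : PM Z) (hc : Cht (A.per.comp e.symm.toLinearMap.toAddMonoidHom) (JR Z))
    (hy : YD Z y yi) {N : Matrix (Fin g ⊕ Fin g) (Fin g ⊕ Fin g) ℂ}
    (hN2 : ∀ q : (Fin 2 → Fin g ⊕ Fin g) → ℚ, IsH (DZ Z) q → dm (Fin 2) N *ᵥ cst ℂ q = 0)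
    (hN4 : ∀ q : (Fin 4 → Fin g ⊕ Fin g) → ℚ, IsH (DZ Z) q → dm (Fin 4) N *ᵥ cst ℂ q = 0)
    (hW : ∀ (κ : Type) [Fintype κ] [DecidableEq κ], ∀ q ∈ WeilT e κ, dm κ N *ᵥ cst ℂ q = 0)
    (κ : Type) [Fintype κ] [DecidableEq κ] :
    ∀ x ∈ InvL (Ly Z y yi) κ, dm κ ((ph hy).P N) *ᵥ x = 0 := by
  have hO := hy.isOm hZ.det
  have hld := hy.ld hZ
  obtain ⟨-, hB, X, hX, hYX⟩ := h1 _ _ _ hO hld ((ph hy).P N) (kill_inv hy hN2) (kill_inv hy hN4)
  have hNB : InB (Lr Z) N := ((ph hy).inB_iff N).1 hB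
  have hz := h2 _ _ _ hO hld _ hYX (by
    intro s E hE hXE
    have h3 : ∀ i, ∃ E', (ph hy).P E' = E i := fun i => (ph hy).P.surjective _
    choose E' hE' using h3
    have hE'z : ∀ i, E' i ∈ ZM (Lr Z) ∧ E' i * E' i = E' i := by
      intro i
      refine ⟨((ph hy).zm_iff _).1 (by rw [hE']; exact (hE i).1), (ph hy).P.injective ?_⟩
      rw [(ph hy).mul, hE']
      exact (hE i).2
    have h5 := trace_rel h4 h6 h7 hZ hc hNB hW hE'z (by
      intro X' hX'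
      rw [← hXE _ (((ph hy).mem X').2 hX')]
      refine Finset.sum_congr rfl fun i _ => ?_
      rw [← hE', ← (ph hy).mul, (ph hy).tr])
    have h6 : ∑ i, trace ((ph hy).P N * E i) = 0 := by
      rw [← h5]
      refine Finset.sum_congr rfl fun i _ => ?_
      rw [← hE', ← (ph hy).mul, (ph hy).tr]
    have h7 : ∑ i, trace (((ph hy).P N - X) * E i) =
        ∑ i, trace ((ph hy).P N * E i) - ∑ i, trace (X * E i) := by
      rw [← Finset.sum_sub_distrib]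
      refine Finset.sum_congr rfl fun i _ => ?_
      rw [sub_mul, trace_sub]
    rw [h7, h6, hXE X hX, sub_zero]) κ
  intro x hx
  have h3 : dm κ ((ph hy).P N) = dm κ ((ph hy).P N - X) + dm κ X := by
    rw [← dm_add, sub_add_cancel]
  rw [h3, add_mulVec, hz x hx, hx X hX, add_zero]

/-- **The Hodge Lie algebra.** -/
theorem hodgeLie (h1 : St_split) (h2 : St_cent) (h4 : St_wI) (h6 : St_idem) (h7 : St_bas)
    (A : AV) (z : A.H →ₗ[ℚ] A.H)
    (hH : ∀ (X : AV) (i : Fin 4 → (A.H →ₗ[ℚ] X.H)), IsPow A X 4 i → ∀ m, m ≤ 4 →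
      ∀ f : X.H [⋀^Fin m]→ₗ[ℚ] ℚ, IsHodge X.per f → KillsClass i z f)
    (hW : ∀ (X : AV) (n : ℕ) (i : Fin n → (A.H →ₗ[ℚ] X.H)), IsPow A X n i → ∀ (Y : AV)
      (h : X.H →ₗ[ℚ] Y.H) (m : ℕ) (w : Y.H [⋀^Fin m]→ₗ[ℚ] ℚ), IsHom X Y h → IsWeil Y w →
      KillsClass i z (w.compLinearMap h)) : Kills A z := by
  obtain ⟨E, hE⟩ := A.pol
  obtain ⟨g, Z, hZ, e, hc, -⟩ := exists_ppavE A.span A.rank hE
  obtain ⟨y, yi, hy⟩ := exists_YD hZ
  have hq : ∀ (m : ℕ) (φ : Fin m → Fin 4), Function.Injective φ → m ≤ 4 →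
      ∀ q : (Fin m → Fin g ⊕ Fin g) → ℚ, IsH (DZ Z) q →
      dm (Fin m) (cK ℂ (mE e z))ᵀ *ᵥ cst ℂ q = 0 := by
    intro m φ hφ hm q hq
    rw [act_cK, act_of_killsClass (A := A) (e := e) hφ (hH (powAV A (Fin 4)) _
      (powAV_isPow A 4) m hm _ (fmQ_hodge hc φ hq))]
    funext I
    exact Rat.cast_zero
  have hw : ∀ (κ : Type) [Fintype κ] [DecidableEq κ], ∀ q ∈ WeilT e κ,
      dm κ (cK ℂ (mE e z))ᵀ *ᵥ cst ℂ q = 0 := by
    intro κ _ _ q hqW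
    rw [act_cK, act_of_weilT (fun n Y w h hw hh => hW (powAV A (Fin n)) n _
      (powAV_isPow A n) Y h n w hh hw) hqW]
    funext I
    exact Rat.cast_zero
  refine kills_of_act hc fun κ _ _ q hqH => cst_eq_zero ?_
  rw [← act_cK]
  have h3 := hodgeLie_core h1 h2 h4 h6 h7 hZ hc hy
    (hq 2 ![0, 1] (by decide) (by norm_num)) (hq 4 id Function.injective_id le_rfl) hw κ
    (kp κ (cm yi)ᵀ *ᵥ cst ℂ q) (by
      refine hy.inv_from ?_
      rw [mulVec_mulVec, ← kp_mul, hy.clT, kp_one, one_mulVec]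
      exact inv_of_isH hqH)
  rw [dm_ph_zero, mulVec_mulVec (cst ℂ q), ← kp_mul, hy.clT, kp_one, one_mulVec] at h3
  exact h3

end

end Pool.Agent.NH32
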