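import Mathlib
import Pool.Agent.NH32.WlD
import Pool.Agent.NH32.WlX

/-!
# The criterion in codimension two
-/

set_option linter.unusedSectionVars false

namespace Pool.Agent.NH32

open Matrix Module Pool.Agent.W437.HC Pool.Agent.W437.HD Pool.Agent.TH504.CB Pool.Agent.Y90
open Pool.Agent.H204R3.CM (IsHodge)
open Pool.Agent.W548.Odd hiding cv
open Pool.Agent.W437.HP (cK cK_mul cK_one evalF_ext)

noncomputable section

variable {g : ℕ} {Z : Matrix (Fin g) (Fin g) ℂ} {A : AV} {e : A.H ≃ₗ[ℚ] (Fin g ⊕ Fin g → ℚ)}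
  {y yi : Matrix (Fin g ⊕ Fin g) (Fin g ⊕ Fin g) ℝ} {𝒜 : Sys}

/-- Products of killed tensors are killed. -/
theorem kill_prod {B : Type} [Fintype B] [DecidableEq B] {N : Matrix B B ℂ}
    {t t' : (Fin 2 → B) → ℂ} (h : dm (Fin 2) N *ᵥ t = 0) (h' : dm (Fin 2) N *ᵥ t' = 0)
    (σ : Equiv.Perm (Fin 4)) :
    dm (Fin 4) N *ᵥ (fun I : Fin 4 → B => t ![I (σ 0), I (σ 1)] * t' ![I (σ 2), I (σ 3)]) = 0 := by
  funext I
  rw [dm_mulVec_apply, Pi.zero_apply]
  rw [← Equiv.sum_comp σ, Fin.sum_univ_four]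
  have e1 := congrFun h ![I (σ 0), I (σ 1)]
  have e2 := congrFun h' ![I (σ 2), I (σ 3)]
  rw [dm_mulVec_apply, Pi.zero_apply, Fin.sum_univ_two] at e1 e2
  have hne : ∀ a b : Fin 4, a ≠ b → σ a ≠ σ b := fun a b hab h => hab (σ.injective h)
  have u1 : ∀ (x y z : B), Function.update (![x, y] : Fin 2 → B) 0 z = ![z, y] := by
    intro x y z
    funext k
    fin_cases k <;> rfl
  have u2 : ∀ (x y z : B), Function.update (![x, y] : Fin 2 → B) 1 z = ![x, z] := by
    intro x y z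
    funext k
    fin_cases k <;> rfl
  simp only [u1, u2, Matrix.cons_val_zero, Matrix.cons_val_one] at e1 e2
  simp only [Function.update_self, Function.update_of_ne (hne 0 1 (by decide)),
    Function.update_of_ne (hne 0 2 (by decide)), Function.update_of_ne (hne 0 3 (by decide)),
    Function.update_of_ne (hne 1 0 (by decide)), Function.update_of_ne (hne 1 2 (by decide)),
    Function.update_of_ne (hne 1 3 (by decide)), Function.update_of_ne (hne 2 0 (by decide)),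
    Function.update_of_ne (hne 2 1 (by decide)), Function.update_of_ne (hne 2 3 (by decide)),
    Function.update_of_ne (hne 3 0 (by decide)), Function.update_of_ne (hne 3 1 (by decide)),
    Function.update_of_ne (hne 3 2 (by decide))]
  have e3 : (∑ j, N (I (σ 0)) j * (t ![j, I (σ 1)] * t' ![I (σ 2), I (σ 3)])) +
      (∑ j, N (I (σ 1)) j * (t ![I (σ 0), j] * t' ![I (σ 2), I (σ 3)])) = 0 := by
    have e4 := congrArg (fun x => x * t' ![I (σ 2), I (σ 3)]) e1
    beta_reduce at e4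
    rw [zero_mul, add_mul, Finset.sum_mul, Finset.sum_mul] at e4
    rw [← e4]
    congr 1 <;> exact Finset.sum_congr rfl fun j _ => by ring
  have e5 : (∑ j, N (I (σ 2)) j * (t ![I (σ 0), I (σ 1)] * t' ![j, I (σ 3)])) +
      (∑ j, N (I (σ 3)) j * (t ![I (σ 0), I (σ 1)] * t' ![I (σ 2), j])) = 0 := by
    have e4 := congrArg (fun x => t ![I (σ 0), I (σ 1)] * x) e2
    beta_reduce at e4
    rw [mul_zero, mul_add, Finset.mul_sum, Finset.mul_sum] at e4
    rw [← e4]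
    congr 1 <;> exact Finset.sum_congr rfl fun j _ => by ring
  linear_combination e3 + e5

/-- The matrices of the Lefschetz Lie algebra kill the tensors of degree four if all Hodge classes
of degree four on the fourth power are generated by divisors and Weil classes. -/
theorem lf_kill_four (h8 : St_lfw) (hZ : PM Z)
    (hc : Cht (A.per.comp e.symm.toLinearMap.toAddMonoidHom) (JR Z)) (hy : YD Z y yi)
    (hA : ∀ f : (powAV A (Fin 4)).H [⋀^Fin 4]→ₗ[ℚ] ℚ, IsHodge (powAV A (Fin 4)).per f →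
      f ∈ DivWeil (powAV A (Fin 4)))
    {N : Matrix (Fin g ⊕ Fin g) (Fin g ⊕ Fin g) ℂ} (hN : Lf (Oy yi) (Ly Z y yi) ((ph hy).P N))
    {q : (Fin 4 → Fin g ⊕ Fin g) → ℚ} (hq : IsH (DZ Z) q) : dm (Fin 4) N *ᵥ cst ℂ q = 0 := by
  have hO := hy.isOm hZ.det
  have hld := hy.ld hZ
  have hNB : InB (Lr Z) N := ((ph hy).inB_iff N).1 hN.2.1
  have hNt : ∀ M ∈ ZM (Lr Z), trace (N * M) = 0 := by
    intro M hM
    rw [← (ph hy).tr, (ph hy).mul]
    exact hN.2.2 _ (((ph hy).zm_iff M).2 hM)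
  have hN2 : ∀ q : (Fin 2 → Fin g ⊕ Fin g) → ℚ, IsH (DZ Z) q → dm (Fin 2) N *ᵥ cst ℂ q = 0 := by
    intro q hq
    have h1 := inv_two hO hld hN.1 hN.2.1 (kp (Fin 2) (cm yi)ᵀ *ᵥ cst ℂ q) (by
      refine hy.inv_from ?_
      rw [mulVec_mulVec, ← kp_mul, hy.clT, kp_one, one_mulVec]
      exact inv_of_isH hq)
    rw [dm_ph_zero, mulVec_mulVec (cst ℂ q), ← kp_mul, hy.clT, kp_one, one_mulVec] at h1
    exact h1
  have key : ∀ f ∈ DivWeil (powAV A (Fin 4)),
      dm (Fin 4) N *ᵥ cst ℂ (cfI e f (id : Fin 4 → Fin 4)) = 0 := by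
    intro f hf
    induction hf using Submodule.span_induction with
    | mem f hf =>
      rcases hf with ⟨f₁, f₂, hf₁, hf₂, hf⟩ | ⟨Y, h, w, hh, hw, rfl⟩
      · have h1 : cst ℂ (cfI e f (id : Fin 4 → Fin 4)) = ∑ σ : Equiv.Perm (Fin 4),
            ((Equiv.Perm.sign σ : ℤ) : ℂ) • (fun I : Fin 4 → Fin g ⊕ Fin g =>
              cst ℂ (cfI e f₁ ![σ 0, σ 1]) ![I (σ 0), I (σ 1)] *
              cst ℂ (cfI e f₂ ![σ 2, σ 3]) ![I (σ 2), I (σ 3)]) := by
          funext I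
          rw [Finset.sum_apply]
          change ((f (fun k => sgI A k (e.symm (Pi.single (I k) 1))) : ℚ) : ℂ) = _
          rw [hf, Rat.cast_sum]
          refine Finset.sum_congr rfl fun σ _ => ?_
          rw [Rat.cast_mul, Rat.cast_mul, Rat.cast_intCast, Pi.smul_apply, smul_eq_mul]
          have e1 : ∀ (f₁ : (powAV A (Fin 4)).H [⋀^Fin 2]→ₗ[ℚ] ℚ) (a b : Fin 4),
              f₁ ![sgI A a (e.symm (Pi.single (I a) 1)), sgI A b (e.symm (Pi.single (I b) 1))] =
              cfI e f₁ ![a, b] ![I a, I b] := by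
            intro f₁ a b
            unfold cfI
            congr 1
            funext k
            fin_cases k <;> rfl
          rw [e1, e1]
          rfl
        rw [h1, mulVec_sum]
        refine Finset.sum_eq_zero fun σ _ => ?_
        rw [mulVec_smul, kill_prod (hN2 _ (cfI_isH hc hf₁ _)) (hN2 _ (cfI_isH hc hf₂ _)), smul_zero]
      · refine h8 g Z A e hZ hc N hNB hNt (Fin 4) _ ?_
        refine ⟨Y, 4, w, Equiv.refl _, fun k => h ∘ₗ sgI A k, hw, fun k => ?_, fun I => ?_⟩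
        · exact IsHom.comp (Y := powAV A (Fin 4)) hh (sgI_hom k)
        · rfl
    | zero =>
      have h1 : cst ℂ (cfI e (0 : (powAV A (Fin 4)).H [⋀^Fin 4]→ₗ[ℚ] ℚ) (id : Fin 4 → Fin 4)) =
          0 := by
        funext I
        exact Rat.cast_zero
      rw [h1, mulVec_zero]
    | add f f' _ _ ha hb =>
      have h1 : cst ℂ (cfI e (f + f') (id : Fin 4 → Fin 4)) = cst ℂ (cfI e f (id : Fin 4 → Fin 4)) +
          cst ℂ (cfI e f' (id : Fin 4 → Fin 4)) := by
        funext I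
        exact Rat.cast_add _ _
      rw [h1, mulVec_add, ha, hb, add_zero]
    | smul c f _ ha =>
      have h1 : cst ℂ (cfI e (c • f) (id : Fin 4 → Fin 4)) =
          (c : ℂ) • cst ℂ (cfI e f (id : Fin 4 → Fin 4)) := by
        funext I
        exact Rat.cast_mul _ _
      rw [h1, mulVec_smul, ha, smul_zero]
  have h1 := key _ (hA _ (fmQ_hodge hc (id : Fin 4 → Fin 4) hq))
  have h2 : cfI e (fmQ e (id : Fin 4 → Fin 4) q) (id : Fin 4 → Fin 4) = q := by
    funext I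
    unfold cfI
    have h3 := fmQ_inj (e := e) Function.injective_id q
      (fun k => e.symm (Pi.single (I k) 1))
    refine h3.trans ?_
    have h4 : (fun l => e (e.symm (Pi.single (I l) 1))) =
        fun l => (Pi.single (I l) 1 : Fin g ⊕ Fin g → ℚ) := by
      funext l
      exact e.apply_symm_apply _
    rw [h4]
    unfold evalF
    rw [Finset.sum_eq_single I]
    · simp
    · intro J _ hJ
      obtain ⟨k, hk⟩ := Function.ne_iff.1 hJ
      rw [Finset.prod_eq_zero (Finset.mem_univ k) (Pi.single_eq_of_ne hk 1), mul_zero]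
    · intro h
      exact absurd (Finset.mem_univ _) h
  rwa [h2] at h1

/-- **The criterion in codimension two**, in coordinates. -/
theorem crit_core (h1 : St_split) (h4 : St_wI) (h5 : St_TQweil) (h6 : St_idem) (h7 : St_bas)
    (h8 : St_lfw) (h10 : St_mu) (h11 : St_mx) (h12 : St_fx) (hZ : PM Z)
    (hc : Cht (A.per.comp e.symm.toLinearMap.toAddMonoidHom) (JR Z)) (hy : YD Z y yi)
    (hA : ∀ f : (powAV A (Fin 4)).H [⋀^Fin 4]→ₗ[ℚ] ℚ, IsHodge (powAV A (Fin 4)).per f →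
      f ∈ DivWeil (powAV A (Fin 4)))
    (hD : HasDiv 𝒜) (hWl : HasWeil 𝒜) (n : ℕ) : 𝒜.AllHodge (powAV A (Fin n)) := by
  have hO := hy.isOm hZ.det
  have hld := hy.ld hZ
  -- the Lefschetz Lie algebra
  have hlf : ∀ X, Lf (Oy yi) (Ly Z y yi) X → X ∈ Ly Z y yi := by
    intro X hX
    obtain ⟨N, rfl⟩ := (ph hy).P.surjective X
    refine lf_le h1 hO hld hX (inv_two hO hld hX.1 hX.2.1) ?_
    exact kill_inv hy fun q hq => lf_kill_four h8 hZ hc hy hA hX hq
  -- the group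
  have hfix : ∀ u ∈ Fx (Oy yi) (TY e 𝒜 Z y yi), ∀ (κ : Type) [Fintype κ] [DecidableEq κ],
      ∀ x ∈ InvL (Ly Z y yi) κ, kp κ (mt u) *ᵥ x = x := by
    intro u hu
    have huB := comm_div hZ hD hc hy hu
    have hKK : ∀ k ∈ KK (Oy yi) (Ly Z y yi), k ∈ Fx (Oy yi) (TY e 𝒜 Z y yi) := by
      intro k hk κ _ _ t ht
      exact hk κ t (mem_TY.1 ht).2
    obtain ⟨k, hk, hkz, hkE⟩ := h11 _ _ _ hO hld hlf u huB (by
      intro E hE hEs
      obtain ⟨E', rfl⟩ := (ph hy).P.surjective E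
      obtain ⟨e', he', halg⟩ := (h6 g Z hZ).2 E' (((ph hy).mz_iff E').1 hE)
      refine ⟨(ph hy).P e', ((ph hy).me_iff E' e').2 he', fun k hk => ?_⟩
      have hku : k * u ∈ Fx (Oy yi) (TY e 𝒜 Z y yi) := Subgroup.mul_mem _ (hKK k hk) hu
      have h13 := det_rel (s := 1) (E := fun _ => e') h4 h5 h7 hZ hWl hc hy hku
        (comm_div hZ hD hc hy hku) (fun _ => ⟨he'.1, he'.2.1, halg⟩) (by
          intro X hX
          rw [Fin.sum_univ_one, ← (ph hy).tr, (ph hy).mul]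
          exact real_trace h10 hO hld hE hEs (((ph hy).me_iff E' e').2 he')
            (((ph hy).mem X).2 hX))
      rwa [Fin.prod_univ_one] at h13)
    have hku : k * u ∈ Fx (Oy yi) (TY e 𝒜 Z y yi) := Subgroup.mul_mem _ (hKK k hk) hu
    have h13 := h12 _ _ _ hO hld hlf (k * u) hkz hkE
      {M | ∃ e' ∈ CM (Lr Z), e' * e' = e' ∧ (∀ i j, IsAlgebraic ℚ (e' i j)) ∧ M = (ph hy).P e'}
      (by
        intro E hE
        obtain ⟨E', rfl⟩ := (ph hy).P.surjective E
        obtain ⟨e', he', halg⟩ := (h6 g Z hZ).2 E' (((ph hy).mz_iff E').1 hE)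
        exact ⟨(ph hy).P e', ⟨e', he'.1, he'.2.1, halg, rfl⟩, ((ph hy).me_iff E' e').2 he'⟩)
      (by
        intro s E hE hXE
        choose E' hE'1 hE'2 hE'3 hE'4 using hE
        have h14 := det_rel h4 h5 h7 hZ hWl hc hy hku (comm_div hZ hD hc hy hku) (E := E')
          (fun i => ⟨hE'1 i, hE'2 i, hE'3 i⟩) (by
            intro X hX
            rw [← hXE _ (((ph hy).mem X).2 hX)]
            refine Finset.sum_congr rfl fun i _ => ?_
            rw [hE'4, ← (ph hy).mul, (ph hy).tr])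
        rw [← h14]
        refine Finset.prod_congr rfl fun i _ => ?_
        rw [hE'4])
    intro κ _ _ x hx
    have h14 := h13 κ x hx
    have h15 := hk κ x hx
    have h16 : kp κ (mt k) *ᵥ (kp κ (mt u) *ᵥ x) = kp κ (mt k) *ᵥ x := by
      rw [mulVec_mulVec, ← kp_mul, ← mt_mul, h14, h15]
    have h18 : ∀ w : (κ → Fin g ⊕ Fin g) → ℂ, kp κ (mt k⁻¹) *ᵥ (kp κ (mt k) *ᵥ w) = w := by
      intro w
      rw [mulVec_mulVec, ← kp_mul, mt_inv_mul, kp_one, one_mulVec]
    have h17 := congrArg (fun w => kp κ (mt k⁻¹) *ᵥ w) h16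
    beta_reduce at h17
    rwa [h18, h18] at h17
  have hT := tan_div hZ hD hc hy
  refine allHodge_of hc fun κ _ _ c hcH => ?_
  have h14 : kp κ (cm y)ᵀ *ᵥ (kp κ (cm yi)ᵀ *ᵥ cst ℂ c) = cst ℂ c := by
    rw [mulVec_mulVec, ← kp_mul, hy.clT, kp_one, one_mulVec]
  have h15 : kp κ (cm yi)ᵀ *ᵥ cst ℂ c ∈ InvL (Ly Z y yi) κ := by
    refine hy.inv_from ?_
    rw [h14]
    exact inv_of_isH hcH
  have h16 := (mem_TY.1 (tannaka hT hO _ fun u hu => hfix u hu κ _ h15)).1
  rwa [h14] at h16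

/-- **The criterion in codimension two.** -/
theorem criterion (h1 : St_split) (h4 : St_wI) (h5 : St_TQweil) (h6 : St_idem) (h7 : St_bas)
    (h8 : St_lfw) (h10 : St_mu) (h11 : St_mx) (h12 : St_fx) (A : AV)
    (hA : ∀ X : AV, IsPower A X 4 → ∀ f : X.H [⋀^Fin 4]→ₗ[ℚ] ℚ, IsHodge X.per f → f ∈ DivWeil X)
    (𝒜 : Sys) (hD : HasDiv 𝒜) (hWl : HasWeil 𝒜) (X : AV) (n : ℕ) (hX : IsPower A X n) :
    𝒜.AllHodge X := by
  obtain ⟨E, hE⟩ := A.pol
  obtain ⟨g, Z, hZ, e, hc, -⟩ := exists_ppavE A.span A.rank hE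
  obtain ⟨y, yi, hy⟩ := exists_YD hZ
  obtain ⟨i, hX⟩ := hX
  refine allHodge_iso 𝒜 (isoP hX) (isoP_hom hX) ?_
  exact crit_core h1 h4 h5 h6 h7 h8 h10 h11 h12 hZ hc hy
    (fun f hf => hA _ ⟨_, powAV_isPow A 4⟩ f hf) hD hWl n

end

end Pool.Agent.NH32
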