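import Mathlib
import Pool.Agent.NH32.WlX
import Pool.Agent.NH32.WlW
import Pool.Agent.NH32.WJ1
import Pool.Agent.NH32.WJ2
import Pool.Agent.NH32.WJ3
import Pool.Agent.NH32.WJ4
import Pool.Agent.NH32.WJ5
import Pool.Agent.NH32.WJ6
import Pool.Agent.NH32.WJ7
import Pool.Agent.NH32.WJ8
import Pool.Agent.NH32.WJ9
import Pool.Agent.NH32.WJ10
import Pool.Agent.NH32.WJ11
import Pool.Agent.NH32.WJ12

/-!
# Weil classes: the two theorems
-/

namespace Pool.Agent.NH32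

open Module Pool.Agent.Y90
open Pool.Agent.H204R3.CM (IsHodge)
open Matrix Pool.Agent.W437.HC Pool.Agent.W437.HD Pool.Agent.TH504.CB
open Pool.Agent.W548.Odd hiding cv

/-- The Hodge Lie algebra is given by the Hodge classes of degree at most four on the fourth power and
the Weil classes. -/
theorem hodgeLie_iff (A : AV) (z : A.H →ₗ[ℚ] A.H) :
    Kills A z ↔ (∀ (X : AV) (i : Fin 4 → (A.H →ₗ[ℚ] X.H)), IsPow A X 4 i → ∀ m, m ≤ 4 →
        ∀ f : X.H [⋀^Fin m]→ₗ[ℚ] ℚ, IsHodge X.per f → KillsClass i z f) ∧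
      ∀ (X : AV) (n : ℕ) (i : Fin n → (A.H →ₗ[ℚ] X.H)), IsPow A X n i → ∀ (Y : AV)
        (h : X.H →ₗ[ℚ] Y.H) (m : ℕ) (w : Y.H [⋀^Fin m]→ₗ[ℚ] ℚ), IsHom X Y h → IsWeil Y w →
        KillsClass i z (w.compLinearMap h) := by
  constructor
  · intro hK
    refine ⟨fun X i hi m _ f hf z' hz' v => hK X 4 i hi z' hz' m f hf v, ?_⟩
    intro X n i hi Y h m w hh hw z' hz' v
    obtain ⟨Ψ, hΨ⟩ := hh
    exact hK X n i hi z' hz' m _ (isHodge_comp h Ψ hΨ hw.1) v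
  · rintro ⟨h1, h2⟩
    exact hodgeLie split_of (cent_of dec_of) (wI_of quot_of qhom_of qhodge_of) idem_of bas_of A z h1 h2

/-- The criterion in codimension two. -/
theorem codim_two (A : AV)
    (hA : ∀ X : AV, IsPower A X 4 → ∀ f : X.H [⋀^Fin 4]→ₗ[ℚ] ℚ, IsHodge X.per f → f ∈ DivWeil X)
    (𝒜 : Sys) (hD : HasDiv 𝒜) (hWl : HasWeil 𝒜) (X : AV) (n : ℕ) (hX : IsPower A X n) :
    𝒜.AllHodge X :=
  criterion split_of (wI_of quot_of qhom_of qhodge_of) TQweil_of idem_of bas_of lfw_of mu_of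
    (mx_of dec_of mu_of) (fx_of dec_of mu_of) A hA 𝒜 hD hWl X n hX

end Pool.Agent.NH32
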