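import Mathlib
import Pool.Agent.NH32.GsB
import Pool.Agent.NH32.WlF

/-!
# G18: the elements of the group of the system
-/

set_option linter.unusedSectionVars false

namespace Pool.Agent.NH32

open Matrix Module Pool.Agent.W437.HC Pool.Agent.W437.HD Pool.Agent.TH504.CB Pool.Agent.Y90
open Pool.Agent.H204R3.CM (IsHodge)
open Pool.Agent.W548.Odd hiding cv
open Pool.Agent.W437.HP (cK cK_mul cK_one evalF_ext)

noncomputable section

namespace GJ18

section mat

variable {B : Type} [Fintype B] [DecidableEq B] {L : Submodule ℂ (Matrix B B ℂ)}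

theorem cm_mul {M N : Matrix B B ℂ} (hM : M ∈ CM L) (hN : N ∈ CM L) : M * N ∈ CM L := by
  intro X hX
  rw [← mul_assoc, hM X hX, mul_assoc, hN X hX, mul_assoc]

/-- The projection to a subspace which is stable under `T` and its adjoint commutes with `T`. -/
theorem proj_comm {p T : Matrix B B ℂ} {W : Submodule ℂ (B → ℂ)} (hp : pᴴ = p)
    (hpW : ∀ x, p *ᵥ x ∈ W) (hpx : ∀ x ∈ W, p *ᵥ x = x) (h1 : ∀ x ∈ W, T *ᵥ x ∈ W)
    (h2 : ∀ x ∈ W, Tᴴ *ᵥ x ∈ W) : T * p = p * T := by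
  have key : ∀ S : Matrix B B ℂ, (∀ x ∈ W, S *ᵥ x ∈ W) → p * (S * p) = S * p := by
    intro S hS
    refine matrix_ext_mulVec fun c => ?_
    rw [← mulVec_mulVec]
    refine hpx _ ?_
    rw [← mulVec_mulVec]
    exact hS _ (hpW c)
  have h3 := key T h1
  have h4 := congrArg Matrix.conjTranspose (key _ h2)
  rw [conjTranspose_mul, conjTranspose_mul, hp, conjTranspose_conjTranspose, mul_assoc] at h4
  rw [← h3, h4]

/-- Two minimal idempotents below the same minimal central idempotent are linked. -/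
theorem exists_link (hadj : ∀ X ∈ L, Xᴴ ∈ L) {E e e' : Matrix B B ℂ} (hE : Mz L E)
    (he : Me L E e) (he' : Me L E e') : ∃ M ∈ CM L, e' * M * e ≠ 0 := by
  by_contra hcon
  push Not at hcon
  let W : Submodule ℂ (B → ℂ) := Submodule.span ℂ {w | ∃ M ∈ CM L, ∃ v, w = (M * e) *ᵥ v}
  obtain ⟨p, hp, hp1, hp2⟩ := exists_proj W
  have hW : ∀ T : Matrix B B ℂ, (∀ M ∈ CM L, ∀ v, T *ᵥ ((M * e) *ᵥ v) ∈ W) →
      ∀ x ∈ W, T *ᵥ x ∈ W := by
    intro T hT x hx
    induction hx using Submodule.span_induction with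
    | mem x hx =>
      obtain ⟨M, hM, v, rfl⟩ := hx
      exact hT M hM v
    | zero => rw [mulVec_zero]; exact W.zero_mem
    | add a b _ _ ha hb => rw [mulVec_add]; exact W.add_mem ha hb
    | smul c a _ ha => rw [mulVec_smul]; exact W.smul_mem _ ha
  have hC : ∀ T ∈ CM L, ∀ x ∈ W, T *ᵥ x ∈ W := by
    intro T hT
    refine hW T fun M hM v => Submodule.subset_span ⟨T * M, cm_mul hT hM, v, ?_⟩
    rw [mulVec_mulVec, mul_assoc]
  have hX : ∀ X ∈ L, ∀ x ∈ W, X *ᵥ x ∈ W := by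
    intro X hX
    refine hW X fun M hM v => Submodule.subset_span ⟨M, hM, X *ᵥ v, ?_⟩
    rw [mulVec_mulVec, mulVec_mulVec, ← mul_assoc, hM X hX, mul_assoc, he.1 X hX, mul_assoc]
  have hpC : p ∈ CM L := fun X hX' => proj_comm hp hp1 hp2 (hX X hX') (hX _ (hadj X hX'))
  have hpZ : p ∈ ZM L :=
    ⟨hpC, fun N hN => proj_comm hp hp1 hp2 (hC N hN) (hC _ (CM_adj hadj hN))⟩
  have hpe : p * e = e := by
    refine matrix_ext_mulVec fun v => ?_
    rw [← mulVec_mulVec]
    exact hp2 _ (Submodule.subset_span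
      ⟨1, fun X _ => by rw [mul_one, one_mul], v, by rw [one_mul]⟩)
  have he'p : e' * p = 0 := by
    refine matrix_ext_mulVec fun v => ?_
    rw [← mulVec_mulVec, zero_mulVec]
    have h0 : ∀ x ∈ W, e' *ᵥ x = 0 := by
      intro x hx
      induction hx using Submodule.span_induction with
      | mem x hx =>
        obtain ⟨M, hM, v, rfl⟩ := hx
        rw [mulVec_mulVec, ← mul_assoc, hcon M hM, zero_mulVec]
      | zero => rw [mulVec_zero]
      | add a b _ _ ha hb => rw [mulVec_add, ha, hb, add_zero]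
      | smul c a _ ha => rw [mulVec_smul, ha, smul_zero]
    exact h0 _ (hp1 v)
  obtain ⟨c, hc⟩ := hE.2.2.2 p hpZ
  have h1 : c • e = e := by
    calc c • e = c • (E * e) := by rw [he.2.2.2.1]
      _ = (p * E) * e := by rw [hc, Matrix.smul_mul]
      _ = p * (E * e) := mul_assoc _ _ _
      _ = e := by rw [he.2.2.2.1, hpe]
  have hc1 : c = 1 := by
    by_contra hne
    have h2 : (c - 1) • e = 0 := by rw [sub_smul, h1, one_smul, sub_self]
    exact he.2.2.1 ((smul_eq_zero.1 h2).resolve_left (sub_ne_zero.2 hne))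
  refine he'.2.2.1 ?_
  calc e' = E * e' := he'.2.2.2.1.symm
    _ = (p * E) * e' := by rw [hc, hc1, one_smul]
    _ = p * e' := by rw [mul_assoc, he'.2.2.2.1]
    _ = e' * p := (hpZ.2 e' he'.1).symm
    _ = 0 := he'p

/-- Two minimal idempotents below the same minimal central idempotent are conjugate. -/
theorem exists_conj (hadj : ∀ X ∈ L, Xᴴ ∈ L) {E e e' : Matrix B B ℂ} (hE : Mz L E)
    (he : Me L E e) (heH : eᴴ = e) (he' : Me L E e') :
    ∃ a ∈ CM L, ∃ b ∈ CM L, a * b = e ∧ b * a = e' := by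
  obtain ⟨M, hM, hw0⟩ := exists_link hadj hE he he'
  obtain ⟨w, hw⟩ : ∃ w, w = e' * M * e := ⟨_, rfl⟩
  rw [← hw] at hw0
  have hwC : w ∈ CM L := by
    rw [hw]
    exact cm_mul (cm_mul he'.1 hM) he.1
  have hwH : wᴴ ∈ CM L := CM_adj hadj hwC
  have hwe : w * e = w := by rw [hw, mul_assoc, he.2.1]
  have he'w : e' * w = w := by rw [hw, ← mul_assoc, ← mul_assoc, he'.2.1]
  have hewH : e * wᴴ = wᴴ := by
    have h1 := congrArg conjTranspose hwe
    rwa [conjTranspose_mul, heH] at h1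
  have hww : wᴴ * w ≠ 0 := fun h => hw0 (trace_self_eq_zero (by rw [h, trace_zero]))
  obtain ⟨c, hc⟩ := he.2.2.2.2 (wᴴ * w) (cm_mul hwH hwC)
  have hc' : wᴴ * w = c • e := by
    rw [← hc, ← mul_assoc, hewH, mul_assoc, hwe]
  have hc0 : c ≠ 0 := by
    rintro rfl
    rw [zero_smul] at hc'
    exact hww hc'
  obtain ⟨a, ha⟩ : ∃ a, a = c⁻¹ • (wᴴ * e') := ⟨_, rfl⟩
  have haC : a ∈ CM L := by
    rw [ha]
    exact (CM L).smul_mem _ (cm_mul hwH he'.1)
  have hab : a * w = e := by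
    rw [ha, Matrix.smul_mul, mul_assoc, he'w, hc', smul_smul, inv_mul_cancel₀ hc0, one_smul]
  have hwa : e' * (w * a) * e' = w * a := by
    have h1 : a * e' = a := by rw [ha, Matrix.smul_mul, mul_assoc, he'.2.1]
    rw [← mul_assoc, he'w, mul_assoc, h1]
  obtain ⟨c', hc2⟩ := he'.2.2.2.2 (w * a) (cm_mul hwC haC)
  rw [hwa] at hc2
  have h3 : (w * a) * (w * a) = w * a := by
    calc (w * a) * (w * a) = w * (a * w) * a := by noncomm_ring
      _ = w * a := by rw [hab, hwe]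
  have hw1 : w * a ≠ 0 := by
    intro h
    have h4 : e = 0 := by
      calc e = e * e := he.2.1.symm
        _ = (a * w) * (a * w) := by rw [hab]
        _ = a * (w * a) * w := by noncomm_ring
        _ = 0 := by rw [h, mul_zero, zero_mul]
    exact he.2.2.1 h4
  have hc1 : c' = 1 := by
    rw [hc2, Matrix.smul_mul, Matrix.mul_smul, he'.2.1, smul_smul] at h3
    have h5 : (c' * c' - c') • e' = 0 := by rw [sub_smul, h3, sub_self]
    have h6 := (smul_eq_zero.1 h5).resolve_right he'.2.2.1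
    have h7 : c' * (c' - 1) = 0 := by linear_combination h6
    rcases mul_eq_zero.1 h7 with h8 | h8
    · exact absurd (by rw [hc2, h8, zero_smul]) hw1
    · exact sub_eq_zero.1 h8
  exact ⟨a, haC, w, hwC, hab, by rw [hc2, hc1, one_smul]⟩

/-- Traces on conjugate idempotents. -/
theorem trace_conj {X a b e e' : Matrix B B ℂ} (hX : InB L X) (ha : a ∈ CM L)
    (hab : a * b = e) (hba : b * a = e') : trace (X * e) = trace (X * e') := by
  rw [← hab, ← hba, ← mul_assoc, hX a ha, trace_mul_comm, ← mul_assoc]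
  rw [trace_mul_comm (b * a) X, ← mul_assoc, trace_mul_comm]

/-- Determinants on conjugate idempotents. -/
theorem det_conj {u a b e e' : Matrix B B ℂ} (hu : InB L u) (ha : a ∈ CM L)
    (hab : a * b = e) (hba : b * a = e') : det (u * e + 1 - e) = det (u * e' + 1 - e') := by
  have h1 : u * e + 1 - e = 1 + a * ((u - 1) * b) := by
    rw [← hab]
    calc u * (a * b) + 1 - a * b = (u * a) * b + 1 - a * b := by rw [mul_assoc]
      _ = (a * u) * b + 1 - a * b := by rw [hu a ha]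
      _ = 1 + a * ((u - 1) * b) := by noncomm_ring
  have h2 : u * e' + 1 - e' = 1 + ((u - 1) * b) * a := by
    rw [← hba]
    noncomm_ring
  rw [h1, h2, det_one_add_mul_comm]

/-- The minimal central idempotent above a minimal idempotent. -/
theorem exists_above (hadj : ∀ X ∈ L, Xᴴ ∈ L) {e : Matrix B B ℂ} (he : Mi L e) :
    ∃ E, Mz L E ∧ Me L E e := by
  obtain ⟨s, E, h1, -, h3, -, -, -⟩ := dec_of B L hadj
  have h7 : ∃ i, E i * e ≠ 0 := by
    by_contra hcon
    push Not at hcon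
    refine he.2.2.2.1 ?_
    calc e = (∑ i, E i) * e := by rw [h3, one_mul]
      _ = ∑ i, E i * e := Finset.sum_mul _ _ _
      _ = 0 := Finset.sum_eq_zero fun i _ => hcon i
  obtain ⟨i, hi⟩ := h7
  obtain ⟨c, hc⟩ := he.2.2.2.2 (E i) (h1 i).1.1
  have h8 : E i * e = c • e := by
    rw [← hc, (h1 i).1.2 e he.1, mul_assoc, he.2.1]
  have h9 : (c * c - c) • e = 0 := by
    have h10 : E i * (E i * e) = E i * e := by rw [← mul_assoc, (h1 i).2.1]
    rw [h8, Matrix.mul_smul, h8, smul_smul] at h10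
    rw [sub_smul, h10, sub_self]
  have h11 := (smul_eq_zero.1 h9).resolve_right he.2.2.2.1
  have h12 : c * (c - 1) = 0 := by linear_combination h11
  have h13 : c = 1 := by
    rcases mul_eq_zero.1 h12 with h14 | h14
    · exact absurd (by rw [h8, h14, zero_smul]) hi
    · exact sub_eq_zero.1 h14
  exact ⟨E i, h1 i, he.1, he.2.1, he.2.2.2.1, by rw [h8, h13, one_smul], he.2.2.2.2⟩

end mat

variable {g : ℕ} {Z : Matrix (Fin g) (Fin g) ℂ} {A : AV} {e : A.H ≃ₗ[ℚ] (Fin g ⊕ Fin g → ℚ)}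
  {y yi : Matrix (Fin g ⊕ Fin g) (Fin g ⊕ Fin g) ℝ} {𝒜 : Sys}

/-- Invariant tensors of a degree in which the system contains all Hodge classes. -/
theorem TQ_deg {m : ℕ} (hD : ∀ (X : AV) (f : X.H [⋀^Fin m]→ₗ[ℚ] ℚ), IsHodge X.per f →
    𝒜.A X (Fin m) f) (hc : Cht (A.per.comp e.symm.toLinearMap.toAddMonoidHom) (JR Z))
    {c : (Fin m → Fin g ⊕ Fin g) → ℂ} (hcI : c ∈ InvL (Lr Z) (Fin m)) : c ∈ TQ e 𝒜 (Fin m) := by
  rw [mem_TQ]
  have h := mem_InvLr.1 hcI
  obtain ⟨n, z, l, hzl⟩ := tensor_expand c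
  have h1 : fm e (id : Fin m → Fin m) c =
      ∑ j, z j • fm e (id : Fin m → Fin m) (cst ℂ (fun I => l j (c I))) := by
    conv_lhs => rw [hzl]
    have h2 := map_sum (fmL e (id : Fin m → Fin m)) (fun j => z j • cst ℂ (fun I => l j (c I)))
      Finset.univ
    rw [← fmL_apply, h2]
    refine Finset.sum_congr rfl fun j _ => ?_
    rw [map_smul]
    rfl
  rw [h1]
  refine Submodule.sum_mem _ fun j _ => Submodule.smul_mem _ _ ?_
  rw [← fmQ_cast]
  exact RA_of (X := powAV A (Fin m)) (hD _ _ (fmQ_hodge hc id (kill_lam gal_LZ h (l j) _ DZ_mem)))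

theorem fix_deg {m : ℕ} (hD : ∀ (X : AV) (f : X.H [⋀^Fin m]→ₗ[ℚ] ℚ), IsHodge X.per f →
    𝒜.A X (Fin m) f) (hc : Cht (A.per.comp e.symm.toLinearMap.toAddMonoidHom) (JR Z))
    (hy : YD Z y yi) {u : USp (Oy yi)} (hu : u ∈ Fx (Oy yi) (TY e 𝒜 Z y yi))
    (x : (Fin m → Fin g ⊕ Fin g) → ℂ) (hx : x ∈ InvL (Ly Z y yi) (Fin m)) :
    kp (Fin m) (mt u) *ᵥ x = x :=
  hu _ _ (mem_TY.2 ⟨TQ_deg hD hc (hy.inv_to hx), hx⟩)

end GJ18

/-- **G18.** -/
theorem fixu_of : St_fixu := by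
  intro g Z X e y yi hZ hc hy 𝒜 h2 h4 hW u hu
  have hO := hy.isOm hZ.det
  have hld := hy.ld hZ
  have huB := comm_div hZ h2 hc hy hu
  refine ⟨GJ18.fix_deg h2 hc hy hu, GJ18.fix_deg h4 hc hy hu, fun s ε hε hX => ?_⟩
  choose E hE1 hE2 using fun i => GJ18.exists_above hld.adj (hε i)
  choose E' hE' using fun i => (ph hy).P.surjective (E i)
  have hM : ∀ i, ∃ ε', Me (Lr Z) (E' i) ε' ∧ ∀ j k, IsAlgebraic ℚ (ε' j k) := fun i =>
    (idem_of g Z hZ).2 (E' i) (((ph hy).mz_iff (E' i)).1 (by rw [hE']; exact hE1 i))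
  choose ε' hε'1 hε'2 using hM
  have hP : ∀ i, Me (Ly Z y yi) (E i) ((ph hy).P (ε' i)) := by
    intro i
    have h5 := ((ph hy).me_iff (E' i) (ε' i)).2 (hε'1 i)
    rwa [hE'] at h5
  choose a ha b hb hab hba using fun i =>
    GJ18.exists_conj hld.adj (hE1 i) (hE2 i) (hε i).2.2.1 (hP i)
  have h6 := det_rel (wI_of quot_of qhom_of qhodge_of) TQweil_of bas_of hZ hW hc hy hu huB
    (E := ε') (fun i => ⟨(hε'1 i).1, (hε'1 i).2.1, hε'2 i⟩) (by
      intro N hN
      rw [← hX _ (((ph hy).mem N).2 hN)]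
      refine Finset.sum_congr rfl fun i _ => ?_
      rw [← (ph hy).tr, (ph hy).mul]
      refine (GJ18.trace_conj (L := Ly Z y yi) (fun M hM => ?_) (ha i) (hab i) (hba i)).symm
      exact hM _ (((ph hy).mem N).2 hN))
  rw [← h6]
  exact Finset.prod_congr rfl fun i _ => GJ18.det_conj huB (ha i) (hab i) (hba i)

end

end Pool.Agent.NH32
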