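import Mathlib
import Pool.Agent.NH32.GsA

/-!
# Project G, job G8: the determinant relation
-/

namespace Pool.Agent.NH32

open Matrix Module Pool.Agent.W437.HC Pool.Agent.W437.HD Pool.Agent.TH504.CB Pool.Agent.Y90
open Pool.Agent.H204R3.CM (IsHodge)
open Pool.Agent.W548.Odd hiding cv
open WJ2

namespace GJ8

variable {B : Type} [Fintype B] [DecidableEq B] {Om : Matrix B B ℂ}
  {L : Submodule ℂ (Matrix B B ℂ)}

/-- An element which fixes the invariants of degree two commutes with the commutant. -/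
theorem comm_of_f2 (hO : IsOm Om) (hL : LD Om L) {u : USp Om}
    (hf : ∀ x ∈ InvL L (Fin 2), kp (Fin 2) (mt u) *ᵥ x = x) {M : Matrix B B ℂ} (hM : M ∈ CM L) :
    mt u * M = M * mt u := by
  have hx : (fun I : Fin 2 → B => (M * Om) (I 0) (I 1)) ∈ InvL L (Fin 2) := by
    intro X hX
    have h1 : X * (M * Om) + (M * Om) * Xᵀ = 0 := by
      rw [mul_assoc M, hO.OXt (hL.sp X hX), ← mul_assoc, hM X hX]
      noncomm_ring
    funext I
    rw [dm_mulVec_apply, Fin.sum_univ_two]
    have h2 := congrFun (congrFun h1 (I 0)) (I 1)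
    rw [Matrix.add_apply, Matrix.mul_apply, Matrix.mul_apply (M := M * Om)] at h2
    rw [Matrix.zero_apply] at h2
    rw [Pi.zero_apply, ← h2]
    congr 1
    refine Finset.sum_congr rfl fun j _ => ?_
    simp [mul_comm]
  have h2 := hf _ hx
  have h3 : mt u * (M * Om) * (mt u)ᵀ = M * Om := by
    ext i j
    have h4 := congrFun h2 ![i, j]
    rw [Matrix.mulVec, dotProduct] at h4
    rw [← (finTwoArrowEquiv B).symm.sum_comp, Fintype.sum_prod_type] at h4
    refine Eq.trans ?_ h4
    rw [Matrix.mul_apply]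
    simp only [Matrix.mul_apply (M := mt u), Finset.sum_mul]
    rw [Finset.sum_comm]
    refine Finset.sum_congr rfl fun k _ => ?_
    refine Finset.sum_congr rfl fun l _ => ?_
    rw [kp_apply, Fin.prod_univ_two]
    simp only [finTwoArrowEquiv_symm_apply, Matrix.cons_val_zero, Matrix.cons_val_one,
      Matrix.transpose_apply]
    ring
  have h6 : Om * (mt u)ᵀ = mt u⁻¹ * Om := by
    have h2 := hO.uOu u
    calc Om * (mt u)ᵀ = (mt u⁻¹ * mt u) * Om * (mt u)ᵀ := by rw [mt_inv_mul, one_mul]
      _ = mt u⁻¹ * (mt u * Om * (mt u)ᵀ) := by noncomm_ring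
      _ = _ := by rw [h2]
  have h7 : mt u * M * mt u⁻¹ * Om = M * Om := by
    rw [← h3, mul_assoc (mt u * M), ← h6]
    noncomm_ring
  have h8 : mt u * M * mt u⁻¹ = M := by
    calc mt u * M * mt u⁻¹ = -(mt u * M * mt u⁻¹ * Om * Om) := by
          rw [mul_assoc _ Om Om, hO.sq, mul_neg, mul_one, neg_neg]
      _ = -(M * Om * Om) := by rw [h7]
      _ = M := by rw [mul_assoc, hO.sq, mul_neg, mul_one, neg_neg]
  calc mt u * M = (mt u * M * mt u⁻¹) * mt u := by
        rw [mul_assoc, mt_inv_mul, mul_one]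
    _ = M * mt u := by rw [h8]

/-- A matrix commuting with an idempotent of rank one acts on it as a scalar. -/
theorem line_smul {E X : Matrix B B ℂ} (he : E * E = E) (ht : trace E = 1)
    (hc : X * E = E * X) : ∃ c : ℂ, X * E = c • E := by
  obtain ⟨r, P, Q, h1, h2⟩ := idem_fac he
  have hr : (r : ℂ) = 1 := by
    rw [← ht, ← h1, trace_mul_comm, h2, trace_one, Fintype.card_fin]
  have hr1 : r = 1 := by exact_mod_cast hr
  subst hr1
  refine ⟨(Q * X * P) 0 0, ?_⟩
  have h3 : Q * X * P = ((Q * X * P) 0 0) • (1 : Matrix (Fin 1) (Fin 1) ℂ) := by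
    ext i j
    rw [Subsingleton.elim i 0, Subsingleton.elim j 0]
    simp
  calc X * E = X * (E * E) := by rw [he]
    _ = E * X * E := by rw [← mul_assoc, hc]
    _ = P * (Q * X * P) * Q := by
        rw [← h1]
        simp only [Matrix.mul_assoc]
    _ = ((Q * X * P) 0 0) • E := by
        rw [h3, Matrix.mul_smul, Matrix.mul_one, Matrix.smul_mul, h1]
        simp

/-- The trace of an involution on the range of an idempotent. -/
theorem inv_trace {e D : Matrix B B ℂ} (he : e * e = e) (hD : D * D = 1) (hc : D * e = e * D)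
    {d : ℕ} (hd : trace e = d) : ∃ p : ℕ, trace (D * e) = 2 * (p : ℂ) - d ∧ p ≤ d := by
  have hP : ∀ s : ℂ, s * s = 1 →
      ((2 : ℂ)⁻¹ • (e + s • (D * e))) * ((2 : ℂ)⁻¹ • (e + s • (D * e))) =
        (2 : ℂ)⁻¹ • (e + s • (D * e)) := by
    intro s hs
    have h1 : e * (D * e) = D * e := by rw [← mul_assoc, ← hc, mul_assoc, he]
    have h2 : (D * e) * e = D * e := by rw [mul_assoc, he]
    have h3 : (D * e) * (D * e) = e := by
      rw [mul_assoc, h1, ← mul_assoc, hD, one_mul]
    rw [Matrix.smul_mul, Matrix.mul_smul, add_mul, mul_add, mul_add, Matrix.mul_smul,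
      Matrix.smul_mul, Matrix.smul_mul, Matrix.mul_smul, he, h1, h2, h3, smul_smul s s, hs,
      one_smul]
    congr 1
    have h4 : e + s • (D * e) + (s • (D * e) + e) = (2 : ℂ) • (e + s • (D * e)) := by
      rw [two_smul]
      abel
    rw [h4, smul_smul]
    norm_num
  obtain ⟨p, hp, -, -⟩ := idem_trace (hP 1 (by norm_num))
  obtain ⟨m, hm, -, -⟩ := idem_trace (hP (-1) (by norm_num))
  rw [trace_smul, trace_add, trace_smul, hd, smul_eq_mul, smul_eq_mul] at hp hm
  refine ⟨p, ?_, ?_⟩
  · linear_combination 2 * hp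
  · have h5 : ((p : ℂ)) + m = d := by linear_combination -hp - hm
    have h6 : p + m = d := by exact_mod_cast h5
    omega

theorem sum_sign (p d : ℕ) : ∑ j ∈ Finset.range d, (if j < p then (-1 : ℤ) else 1) =
    if d ≤ p then -(d : ℤ) else d - 2 * p := by
  induction d with
  | zero => simp
  | succ d ih =>
    rw [Finset.sum_range_succ, ih]
    push_cast
    split_ifs <;> omega

theorem sum_sign' (p d : ℕ) (h : p ≤ d) : ∑ j : Fin d, (if (j : ℕ) < p then (-1 : ℤ) else 1) =
    d - 2 * p := by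
  rw [Fin.sum_univ_eq_sum_range (fun j => if j < p then (-1 : ℤ) else 1), sum_sign]
  split_ifs <;> omega

theorem det_smul_idem {e X : Matrix B B ℂ} (he : e * e = e) {d : ℕ} (hd : trace e = d) {c : ℂ}
    (h : X * e = c • e) : det (X * e + 1 - e) = c ^ d := by
  rw [← idem_trace' he hd c, h]
  congr 1
  rw [sub_smul, one_smul]
  abel

end GJ8

open GJ8 in
/-- **G8.** -/
theorem dl_of : St_dl := by
  intro B _ _ Om L hO hL Dm hH v hv e a he hva
  obtain ⟨heC, hee, heH, he0, heM⟩ := he
  have he : Mi L e := ⟨heC, hee, heH, he0, heM⟩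
  obtain ⟨d, hd, hdpos, -⟩ := idem_trace hee
  have hd0 : 0 < d := hdpos he0
  obtain ⟨G, hG⟩ := hH.one
  obtain ⟨hGM, hGt⟩ := hG
  have hGG : G * G = G := hGM.2.1
  -- the numbers p(σ)
  have hp : ∀ σ, ∃ p : ℕ, trace (Dm σ * e) = 2 * (p : ℂ) - d ∧ p ≤ d := fun σ =>
    inv_trace hee (hH.sq σ) (heC _ (hH.mem σ)) hd
  choose p hp1 hp2 using hp
  -- the signs g(σ)
  have hg : ∀ σ, ∃ g : ℤ, (g = 1 ∨ g = -1) ∧ trace (Dm σ * G) = (g : ℂ) := by
    intro σ
    obtain ⟨c, hc⟩ := line_smul hGG hGt (hGM.1 _ (hH.mem σ))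
    have h1 : G = (c * c) • G := by
      have h2 : Dm σ * (Dm σ * G) = G := by rw [← mul_assoc, hH.sq, one_mul]
      rw [hc, Matrix.mul_smul, hc, smul_smul] at h2
      exact h2.symm
    have h2 := congrArg trace h1
    rw [trace_smul, hGt, smul_eq_mul, mul_one] at h2
    have h3 : trace (Dm σ * G) = c := by rw [hc, trace_smul, hGt, smul_eq_mul, mul_one]
    rcases mul_self_eq_one_iff.1 h2.symm with h | h
    · exact ⟨1, Or.inl rfl, by rw [h3, h]; simp⟩
    · exact ⟨-1, Or.inr rfl, by rw [h3, h]; simp⟩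
  choose g hg1 hg2 using hg
  have hpodd : ∀ σ, p (cj.trans σ) = d - p σ := by
    intro σ
    have h1 := hp1 (cj.trans σ)
    rw [hH.odd, neg_mul, trace_neg, hp1 σ] at h1
    have h2 : ((p (cj.trans σ) : ℕ) : ℂ) + p σ = d := by linear_combination (-1/2 : ℂ) * h1
    have h3 : p (cj.trans σ) + p σ = d := by exact_mod_cast h2
    omega
  have hgodd : ∀ σ, g (cj.trans σ) = -g σ := by
    intro σ
    have h1 := hg2 (cj.trans σ)
    rw [hH.odd, neg_mul, trace_neg, hg2 σ] at h1
    exact_mod_cast h1.symm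
  let F : Fin d → (ℂ ≃+* ℂ) → ℤ := fun j σ =>
    if g σ = 1 then (if (j : ℕ) < p σ then -1 else 1)
    else (if (j : ℕ) < d - p σ then 1 else -1)
  have hF1 : ∀ j σ, F j σ = 1 ∨ F j σ = -1 := by
    intro j σ
    simp only [F]
    split_ifs <;> simp
  have hFodd : ∀ j σ, F j (cj.trans σ) = -F j σ := by
    intro j σ
    simp only [F]
    rw [hpodd, hgodd]
    have h1 : d - (d - p σ) = p σ := by
      have := hp2 σ
      omega
    rw [h1]
    rcases hg1 σ with h | h
    · rw [h]
      norm_num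
      split_ifs <;> rfl
    · rw [h]
      norm_num
      split_ifs <;> rfl
  have hFt : ∀ j σ τ, (∀ e, Mi L e → trace (Dm σ * e) = trace (Dm τ * e)) → F j σ = F j τ := by
    intro j σ τ h
    have h1 := h e he
    rw [hp1, hp1] at h1
    have h2 : ((p σ : ℕ) : ℂ) = p τ := by linear_combination (1/2 : ℂ) * h1
    have h3 : p σ = p τ := by exact_mod_cast h2
    have h4 := h G hGM
    rw [hg2, hg2] at h4
    have h5 : g σ = g τ := by exact_mod_cast h4
    simp only [F]
    rw [h3, h5]
  have hFsum : ∀ σ, ∑ j, F j σ = d - 2 * p σ := by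
    intro σ
    simp only [F]
    rcases hg1 σ with h | h
    · simp only [h, if_true]
      exact sum_sign' _ _ (hp2 σ)
    · have h1 := sum_sign' (d - p σ) d (by omega)
      have h2 : ∀ j : Fin d, (if g σ = 1 then (if (j : ℕ) < p σ then (-1 : ℤ) else 1)
          else (if (j : ℕ) < d - p σ then 1 else -1)) =
          -(if (j : ℕ) < d - p σ then (-1 : ℤ) else 1) := by
        intro j
        rw [h]
        norm_num
        split_ifs <;> rfl
      rw [Finset.sum_congr rfl fun j _ => h2 j, Finset.sum_neg_distrib, h1]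
      have := hp2 σ
      omega
  have hE := fun j => hH.hull (F j) (hF1 j) (hFodd j) (hFt j)
  choose E hE1 hE2 using hE
  -- the relation
  have hrel : ∀ X ∈ L, trace (X * e) + ∑ j, trace (X * E j) = 0 := by
    let M : Submodule ℂ (Matrix B B ℂ) :=
      { carrier := {X | X ∈ L ∧ trace (X * e) + ∑ j, trace (X * E j) = 0}
        add_mem' := by
          rintro X Y ⟨h1, h2⟩ ⟨h3, h4⟩
          refine ⟨L.add_mem h1 h3, ?_⟩
          simp only [add_mul, trace_add, Finset.sum_add_distrib]
          linear_combination h2 + h4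
        zero_mem' := by
          refine ⟨L.zero_mem, ?_⟩
          simp
        smul_mem' := by
          rintro c X ⟨h1, h2⟩
          refine ⟨L.smul_mem _ h1, ?_⟩
          simp only [Matrix.smul_mul, trace_smul, smul_eq_mul, ← Finset.mul_sum]
          linear_combination c * h2 }
    have hM : L ≤ M := by
      refine hH.gen M ?_ ?_
      · intro σ
        refine ⟨hH.mem σ, ?_⟩
        have h1 : ∀ j, trace (Dm σ * E j) = (F j σ : ℂ) := by
          intro j
          rw [hE2, trace_smul, (hE1 j).2, smul_eq_mul, mul_one]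
        rw [Finset.sum_congr rfl fun j _ => h1 j, hp1]
        have h2 : ((∑ j, F j σ : ℤ) : ℂ) = ((d - 2 * p σ : ℤ) : ℂ) := by rw [hFsum]
        push_cast at h2
        rw [h2]
        ring
      · rintro X ⟨hX, -⟩ Y ⟨hY, -⟩
        refine ⟨hL.br X hX Y hY, ?_⟩
        have h1 : ∀ N ∈ CM L, trace ((X * Y - Y * X) * N) = 0 := by
          intro N hN
          rw [sub_mul, trace_sub, mul_assoc, mul_assoc Y X N, hN X hX, ← mul_assoc Y N X,
            trace_mul_comm (Y * N) X, sub_self]
        rw [h1 e heC, Finset.sum_congr rfl fun j _ => h1 (E j) (hE1 j).1.1]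
        simp
    exact fun X hX => (hM hX).2
  have hvE : ∀ j, ∃ b : ℂ, mt v * E j = b • E j := fun j =>
    line_smul (hE1 j).1.2.1 (hE1 j).2 (comm_of_f2 hO hL hv.f2 (hE1 j).1.1)
  choose b hb using hvE
  refine ⟨d, E, b, hd, fun j => ⟨hE1 j, hb j⟩, ?_, ?_⟩
  · intro X hX
    have h1 : (d : ℂ) * fc e X = trace (X * e) := by
      unfold fc
      rw [hd]
      have : (d : ℂ) ≠ 0 := by exact_mod_cast hd0.ne'
      field_simp
    have h2 : ∀ j, fc (E j) X = trace (X * E j) := by
      intro j
      unfold fc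
      rw [(hE1 j).2, div_one]
    rw [h1, Finset.sum_congr rfl fun j _ => h2 j]
    exact hrel X hX
  · have h1 := hv.dt (d + 1) (Fin.cons e E) (by
      intro i
      refine Fin.cases ?_ (fun j => ?_) i
      · exact he
      · exact (hE1 j).1) (by
      intro X hX
      rw [Fin.sum_univ_succ]
      simp only [Fin.cons_zero, Fin.cons_succ]
      exact hrel X hX)
    rw [Fin.prod_univ_succ] at h1
    simp only [Fin.cons_zero, Fin.cons_succ] at h1
    rw [det_smul_idem hee hd hva] at h1
    have h2 : ∀ j, det (mt v * E j + 1 - E j) = b j := by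
      intro j
      rw [det_smul_idem (d := 1) (hE1 j).1.2.1 (by rw [(hE1 j).2]; simp) (hb j), pow_one]
    rw [Finset.prod_congr rfl fun j _ => h2 j] at h1
    exact h1

end Pool.Agent.NH32
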