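import Mathlib
import Pool.Agent.NH32.GtB

/-!
# Project G, stage 2, K10: unitarizability (helper87)

The Kempf-Ness argument: the functional `g ↦ Σ |g φ(X_i) g⁻¹|²`, where the `X_i` are an orthonormal
basis of `L`, has a minimum `g`; there the moment map vanishes, and the skew elements of `L` act by
matrices which are skew for `gᴴ g`.
-/

set_option autoImplicit false

namespace Pool.Agent.NH32

open Matrix
open scoped ComplexOrder

namespace GK10

/-! ### the Hermitian product of matrices -/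

/-- the Frobenius product -/
def ip {n : ℕ} (A B : Matrix (Fin n) (Fin n) ℂ) : ℂ := trace (A * Bᴴ)

/-- the square of the Frobenius norm -/
noncomputable def Nf {n : ℕ} (A : Matrix (Fin n) (Fin n) ℂ) : ℝ := ∑ a, ∑ b, ‖A a b‖ ^ 2

variable {n : ℕ}

theorem Nf_nonneg (A : Matrix (Fin n) (Fin n) ℂ) : 0 ≤ Nf A :=
  Finset.sum_nonneg fun _ _ => Finset.sum_nonneg fun _ _ => by positivity

theorem le_Nf (A : Matrix (Fin n) (Fin n) ℂ) (a b : Fin n) : ‖A a b‖ ^ 2 ≤ Nf A := by
  have h1 : ‖A a b‖ ^ 2 ≤ ∑ b, ‖A a b‖ ^ 2 :=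
    Finset.single_le_sum (f := fun b => ‖A a b‖ ^ 2) (fun _ _ => by positivity) (Finset.mem_univ b)
  have h2 : ∑ b, ‖A a b‖ ^ 2 ≤ Nf A :=
    Finset.single_le_sum (f := fun a => ∑ b, ‖A a b‖ ^ 2)
      (fun _ _ => Finset.sum_nonneg fun _ _ => by positivity) (Finset.mem_univ a)
  exact h1.trans h2

theorem ip_eq (A B : Matrix (Fin n) (Fin n) ℂ) : ip A B = ∑ a, ∑ b, A a b * star (B a b) := by
  unfold ip
  rw [trace]
  refine Finset.sum_congr rfl fun a _ => ?_
  rw [diag_apply, mul_apply]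
  rfl

theorem ip_self (A : Matrix (Fin n) (Fin n) ℂ) : ip A A = (Nf A : ℂ) := by
  rw [ip_eq]
  unfold Nf
  push_cast
  refine Finset.sum_congr rfl fun a _ => Finset.sum_congr rfl fun b _ => ?_
  rw [Complex.star_def, Complex.mul_conj, Complex.normSq_eq_norm_sq]
  push_cast
  rfl

theorem Nf_eq_zero {A : Matrix (Fin n) (Fin n) ℂ} (h : Nf A = 0) : A = 0 := by
  ext a b
  have h1 := le_Nf A a b
  rw [h] at h1
  have h2 : ‖A a b‖ ^ 2 = 0 := le_antisymm h1 (by positivity)
  exact norm_eq_zero.1 (pow_eq_zero_iff two_ne_zero |>.1 h2)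

theorem ip_star (A B : Matrix (Fin n) (Fin n) ℂ) : star (ip A B) = ip B A := by
  unfold ip
  rw [← trace_conjTranspose, conjTranspose_mul, conjTranspose_conjTranspose]

theorem ip_add_left (A B C : Matrix (Fin n) (Fin n) ℂ) : ip (A + B) C = ip A C + ip B C := by
  unfold ip
  rw [add_mul, trace_add]

theorem ip_sub_left (A B C : Matrix (Fin n) (Fin n) ℂ) : ip (A - B) C = ip A C - ip B C := by
  unfold ip
  rw [sub_mul, trace_sub]

theorem ip_smul_left (c : ℂ) (A B : Matrix (Fin n) (Fin n) ℂ) : ip (c • A) B = c * ip A B := by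
  unfold ip
  rw [smul_mul, trace_smul, smul_eq_mul]

theorem ip_add_right (A B C : Matrix (Fin n) (Fin n) ℂ) : ip A (B + C) = ip A B + ip A C := by
  rw [← ip_star, ip_add_left, star_add, ip_star, ip_star]

theorem ip_smul_right (c : ℂ) (A B : Matrix (Fin n) (Fin n) ℂ) :
    ip A (c • B) = star c * ip A B := by
  rw [← ip_star, ip_smul_left, star_mul', ip_star]

theorem ip_neg_right (A B : Matrix (Fin n) (Fin n) ℂ) : ip A (-B) = -ip A B := by
  unfold ip
  rw [conjTranspose_neg, mul_neg, trace_neg]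

theorem ip_sum_left {ι : Type*} (s : Finset ι) (f : ι → Matrix (Fin n) (Fin n) ℂ)
    (A : Matrix (Fin n) (Fin n) ℂ) : ip (∑ i ∈ s, f i) A = ∑ i ∈ s, ip (f i) A := by
  unfold ip
  rw [Finset.sum_mul, trace_sum]

theorem ip_sum_right {ι : Type*} (s : Finset ι) (f : ι → Matrix (Fin n) (Fin n) ℂ)
    (A : Matrix (Fin n) (Fin n) ℂ) : ip A (∑ i ∈ s, f i) = ∑ i ∈ s, ip A (f i) := by
  rw [← ip_star, ip_sum_left, star_sum]
  exact Finset.sum_congr rfl fun i _ => ip_star _ _

/-- the adjoint of a commutator operator -/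
theorem ip_ad (W Z Y : Matrix (Fin n) (Fin n) ℂ) :
    ip (W * Z - Z * W) Y = ip Z (Wᴴ * Y - Y * Wᴴ) := by
  unfold ip
  rw [conjTranspose_sub, conjTranspose_mul, conjTranspose_mul, conjTranspose_conjTranspose, sub_mul,
    mul_sub, trace_sub, trace_sub]
  congr 1
  · rw [Matrix.mul_assoc, trace_mul_comm, Matrix.mul_assoc]
  · rw [Matrix.mul_assoc]

/-! ### a reproducing family -/

theorem exists_family {d : ℕ} (L : Submodule ℂ (Matrix (Fin d) (Fin d) ℂ))
    {R Ri : Matrix (Fin d) (Fin d) ℂ} (h1 : R * Ri = 1) (h2 : Ri * R = 1) :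
    ∃ (m : ℕ) (X : Fin m → Matrix (Fin d) (Fin d) ℂ), (∀ i, X i ∈ L) ∧
      ∀ Y ∈ L, ∑ i, ip (R * Y * Ri) (R * X i * Ri) • X i = Y := by
  let core : InnerProductSpace.Core ℂ L :=
    { inner := fun x y => ip (R * y.1 * Ri) (R * x.1 * Ri)
      conj_inner_symm := fun x y => ip_star _ _
      re_inner_nonneg := fun x => by
        change 0 ≤ (ip (R * x.1 * Ri) (R * x.1 * Ri)).re
        rw [ip_self, Complex.ofReal_re]
        exact Nf_nonneg _
      add_left := fun x y z => by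
        change ip (R * z.1 * Ri) (R * (x.1 + y.1) * Ri) = _
        rw [mul_add, add_mul, ip_add_right]
      smul_left := fun x y r => by
        change ip (R * y.1 * Ri) (R * (r • x.1) * Ri) = _
        rw [Matrix.mul_smul, Matrix.smul_mul, ip_smul_right]
        rfl
      definite := fun x hx => by
        change ip (R * x.1 * Ri) (R * x.1 * Ri) = 0 at hx
        rw [ip_self] at hx
        have h3 := Nf_eq_zero (by exact_mod_cast hx)
        apply Subtype.ext
        have h4 : x.1 = Ri * (R * x.1 * Ri) * R := by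
          have e : Ri * (R * x.1 * Ri) * R = (Ri * R) * x.1 * (Ri * R) := by
            simp only [Matrix.mul_assoc]
          rw [e, h2, Matrix.one_mul, Matrix.mul_one]
        rw [h4, h3, Matrix.mul_zero, Matrix.zero_mul]
        rfl }
  let _ : NormedAddCommGroup L := @InnerProductSpace.Core.toNormedAddCommGroup ℂ L _ _ _ core
  let _ : InnerProductSpace ℂ L := InnerProductSpace.ofCore core.toCore
  have b := stdOrthonormalBasis ℂ L
  refine ⟨Module.finrank ℂ L, fun i => (b i).1, fun i => (b i).2, fun Y hY => ?_⟩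
  have h3 := b.sum_repr' ⟨Y, hY⟩
  have h4 := congrArg (Submodule.subtype L) h3
  rw [map_sum] at h4
  exact h4

/-! ### the functional -/

/-- the sum of the squares of the norms -/
noncomputable def FF {ι : Type} [Fintype ι] (Z : ι → Matrix (Fin n) (Fin n) ℂ)
    (g : Matrix (Fin n) (Fin n) ℂ) : ℝ := ∑ i, Nf (g * Z i * adjugate g)

section

variable {ι : Type} [Fintype ι] (Z : ι → Matrix (Fin n) (Fin n) ℂ)

theorem FF_nonneg (g : Matrix (Fin n) (Fin n) ℂ) : 0 ≤ FF Z g :=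
  Finset.sum_nonneg fun _ _ => Nf_nonneg _

theorem continuous_FF : Continuous (FF Z) := by
  unfold FF Nf
  refine continuous_finsetSum _ fun i _ => continuous_finsetSum _ fun a _ =>
    continuous_finsetSum _ fun b _ => ?_
  have h1 : Continuous fun g : Matrix (Fin n) (Fin n) ℂ => g * Z i * adjugate g :=
    (continuous_id.matrix_mul continuous_const).matrix_mul continuous_id.matrix_adjugate
  exact (h1.matrix_elem a b).norm.pow 2

theorem exists_big (hn : 0 < n) {q : Matrix (Fin n) (Fin n) ℂ} (hq : det q = 1) :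
    ∃ k b, (2 * (Nat.factorial n : ℝ))⁻¹ < ‖q k b‖ := by
  by_contra hcon
  push Not at hcon
  have h1 := det_le (abv := IsAbsoluteValue.toAbsoluteValue (norm : ℂ → ℝ)) (A := q) hcon
  have h2 : (IsAbsoluteValue.toAbsoluteValue (norm : ℂ → ℝ)) q.det = ‖q.det‖ := rfl
  have hf : (1 : ℝ) ≤ Nat.factorial n := by exact_mod_cast Nat.factorial_pos n
  have h3 : ((2 * (Nat.factorial n : ℝ))⁻¹) ^ n ≤ (2 * (Nat.factorial n : ℝ))⁻¹ := by
    apply pow_le_of_le_one (by positivity) _ hn.ne'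
    apply inv_le_one_of_one_le₀
    linarith
  rw [h2, hq, norm_one, Fintype.card_fin, nsmul_eq_mul] at h1
  have h4 : (Nat.factorial n : ℝ) * ((2 * (Nat.factorial n : ℝ))⁻¹) ^ n ≤
      (Nat.factorial n : ℝ) * (2 * (Nat.factorial n : ℝ))⁻¹ :=
    mul_le_mul_of_nonneg_left h3 (by positivity)
  have h5 : (Nat.factorial n : ℝ) * (2 * (Nat.factorial n : ℝ))⁻¹ = 1 / 2 := by
    field_simp
  linarith

theorem bound (hn : 0 < n) (hspan : ∀ E : Matrix (Fin n) (Fin n) ℂ, trace E = 0 →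
    ∃ c : ι → ℂ, E = ∑ i, c i • Z i) (R₀ : ℝ) : ∃ C : ℝ, ∀ g : Matrix (Fin n) (Fin n) ℂ,
    det g = 1 → FF Z g ≤ R₀ → ∀ a j, ‖g a j‖ ≤ C := by
  have hn' : (n : ℂ) ≠ 0 := by exact_mod_cast hn.ne'
  have h1 : ∀ j k : Fin n, ∃ c : ι → ℂ, single j k (1 : ℂ) -
      ((if j = k then (1 : ℂ) else 0) / n) • (1 : Matrix (Fin n) (Fin n) ℂ) =
        ∑ i, c i • Z i := by
    intro j k
    apply hspan
    rw [trace_sub, trace_smul, trace_one, Fintype.card_fin, smul_eq_mul, div_mul_cancel₀ _ hn']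
    by_cases h : j = k
    · subst h
      rw [if_pos rfl, trace_single_eq_same, sub_self]
    · rw [if_neg h, trace_single_eq_of_ne _ _ _ h, sub_self]
  choose c hc using h1
  obtain ⟨C₁, hC₁⟩ : ∃ C₁ : ℝ, C₁ = (∑ j, ∑ k, ∑ i, ‖c j k i‖) * √R₀ + 1 := ⟨_, rfl⟩
  refine ⟨C₁ * (2 * (Nat.factorial n : ℝ)), ?_⟩
  intro g hg hF a j
  have hq : det (adjugate g) = 1 := by rw [det_adjugate, hg, one_pow]
  obtain ⟨k, b, hkb⟩ := exists_big hn hq
  have hR : 0 ≤ R₀ := (FF_nonneg Z g).trans hF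
  have h2 : ∀ i, ‖(g * Z i * adjugate g) a b‖ ≤ √R₀ := by
    intro i
    apply Real.le_sqrt_of_sq_le
    refine (le_Nf _ a b).trans (le_trans ?_ hF)
    exact Finset.single_le_sum (f := fun i => Nf (g * Z i * adjugate g))
      (fun _ _ => Nf_nonneg _) (Finset.mem_univ i)
  have h3 : g a j * adjugate g k b = ∑ i, c j k i * (g * Z i * adjugate g) a b +
      ((if j = k then (1 : ℂ) else 0) / n) * (1 : Matrix (Fin n) (Fin n) ℂ) a b := by
    have e1 : g * single j k (1 : ℂ) * adjugate g = ∑ i, c j k i • (g * Z i * adjugate g) +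
        ((if j = k then (1 : ℂ) else 0) / n) • (1 : Matrix (Fin n) (Fin n) ℂ) := by
      have e2 : single j k (1 : ℂ) = ∑ i, c j k i • Z i +
          ((if j = k then (1 : ℂ) else 0) / n) • (1 : Matrix (Fin n) (Fin n) ℂ) := by
        rw [← hc]
        abel
      rw [e2, mul_add, add_mul, Finset.mul_sum, Finset.sum_mul]
      congr 1
      · refine Finset.sum_congr rfl fun i _ => ?_
        rw [Matrix.mul_smul, Matrix.smul_mul]
      · rw [Matrix.mul_smul, Matrix.smul_mul, Matrix.mul_one, mul_adjugate, hg, one_smul]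
    have e3 := congrFun (congrFun e1 a) b
    rw [single_eq_single_vecMulVec_single, mul_vecMulVec, vecMulVec_mul, vecMulVec_apply,
      mulVec_single_one, single_one_vecMul] at e3
    rw [Matrix.add_apply, Matrix.sum_apply, Matrix.smul_apply, smul_eq_mul] at e3
    exact e3
  have h4 : ‖g a j‖ * ‖adjugate g k b‖ ≤ C₁ := by
    rw [← norm_mul, h3, hC₁]
    refine (norm_add_le _ _).trans (add_le_add ?_ ?_)
    · refine (norm_sum_le _ _).trans ?_
      have h5 : ∑ i, ‖c j k i * (g * Z i * adjugate g) a b‖ ≤ (∑ i, ‖c j k i‖) * √R₀ := by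
        rw [Finset.sum_mul]
        refine Finset.sum_le_sum fun i _ => ?_
        rw [norm_mul]
        exact mul_le_mul_of_nonneg_left (h2 i) (norm_nonneg _)
      refine h5.trans (mul_le_mul_of_nonneg_right ?_ (Real.sqrt_nonneg _))
      have h6 : ∑ i, ‖c j k i‖ ≤ ∑ k, ∑ i, ‖c j k i‖ :=
        Finset.single_le_sum (f := fun k => ∑ i, ‖c j k i‖)
          (fun _ _ => Finset.sum_nonneg fun _ _ => norm_nonneg _) (Finset.mem_univ k)
      have h7 : ∑ k, ∑ i, ‖c j k i‖ ≤ ∑ j, ∑ k, ∑ i, ‖c j k i‖ :=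
        Finset.single_le_sum (f := fun j => ∑ k, ∑ i, ‖c j k i‖)
          (fun _ _ => Finset.sum_nonneg fun _ _ => Finset.sum_nonneg fun _ _ => norm_nonneg _)
          (Finset.mem_univ j)
      exact h6.trans h7
    · rw [norm_mul, norm_div, Complex.norm_natCast]
      have hn1 : (1 : ℝ) ≤ n := by exact_mod_cast hn
      have h5 : ‖(if j = k then (1 : ℂ) else 0)‖ / n ≤ 1 := by
        split_ifs
        · rw [norm_one]
          exact (div_le_one (by linarith)).2 hn1
        · rw [norm_zero, zero_div]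
          exact zero_le_one
      have h6 : ‖(1 : Matrix (Fin n) (Fin n) ℂ) a b‖ ≤ 1 := by
        rw [Matrix.one_apply]
        split_ifs
        · rw [norm_one]
        · rw [norm_zero]
          exact zero_le_one
      exact mul_le_one₀ h5 (norm_nonneg _) h6
  have hf : (0 : ℝ) < 2 * (Nat.factorial n : ℝ) := by positivity
  have h5 : ‖g a j‖ * (2 * (Nat.factorial n : ℝ))⁻¹ ≤ C₁ :=
    (mul_le_mul_of_nonneg_left hkb.le (norm_nonneg _)).trans h4
  rw [← div_eq_mul_inv, div_le_iff₀ hf] at h5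
  exact h5

theorem exists_min (hn : 0 < n) (hspan : ∀ E : Matrix (Fin n) (Fin n) ℂ, trace E = 0 →
    ∃ c : ι → ℂ, E = ∑ i, c i • Z i) : ∃ g : Matrix (Fin n) (Fin n) ℂ, det g = 1 ∧
      ∀ g', det g' = 1 → FF Z g ≤ FF Z g' := by
  obtain ⟨C, hC⟩ := bound Z hn hspan (FF Z 1)
  have hK : IsCompact {g : Matrix (Fin n) (Fin n) ℂ | det g = 1 ∧ ∀ a j, ‖g a j‖ ≤ C} := by
    have h1 : IsCompact (Set.pi Set.univ fun _ : Fin n => Set.pi Set.univ fun _ : Fin n =>
        Metric.closedBall (0 : ℂ) C) :=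
      isCompact_univ_pi fun _ => isCompact_univ_pi fun _ => isCompact_closedBall 0 C
    refine h1.of_isClosed_subset ?_ ?_
    · refine IsClosed.inter (isClosed_eq continuous_id.matrix_det continuous_const) ?_
      have h2 : {g : Matrix (Fin n) (Fin n) ℂ | ∀ a j, ‖g a j‖ ≤ C} =
          ⋂ a, ⋂ j, {g : Matrix (Fin n) (Fin n) ℂ | ‖g a j‖ ≤ C} := by
        ext g
        simp
      have h3 : IsClosed {g : Matrix (Fin n) (Fin n) ℂ | ∀ a j, ‖g a j‖ ≤ C} := by
        rw [h2]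
        exact isClosed_iInter fun a => isClosed_iInter fun j =>
          isClosed_le (continuous_id.matrix_elem a j).norm continuous_const
      exact h3
    · rintro g ⟨-, hg⟩ a - j -
      rw [mem_closedBall_zero_iff]
      exact hg a j
  have hne : {g : Matrix (Fin n) (Fin n) ℂ | det g = 1 ∧ ∀ a j, ‖g a j‖ ≤ C}.Nonempty :=
    ⟨1, det_one, hC 1 det_one le_rfl⟩
  obtain ⟨g, hg, hmin⟩ := hK.exists_isMinOn hne (continuous_FF Z).continuousOn
  refine ⟨g, hg.1, fun g' hg' => ?_⟩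
  have h1 : FF Z g ≤ FF Z 1 := hmin ⟨det_one, hC 1 det_one le_rfl⟩
  rcases le_total (FF Z g') (FF Z 1) with h | h
  · exact hmin ⟨hg', hC g' hg' h⟩
  · exact h1.trans h

end

/-! ### the condition of first order -/

theorem quartic {c₁ c₂ c₃ c₄ : ℝ} (h : ∀ t : ℝ, 0 ≤ c₁ * t + c₂ * t ^ 2 + c₃ * t ^ 3 + c₄ * t ^ 4) :
    c₁ = 0 := by
  have h1 : HasDerivAt (fun t : ℝ => c₁ * t + c₂ * t ^ 2 + c₃ * t ^ 3 + c₄ * t ^ 4) c₁ 0 := by
    have h2 := ((((hasDerivAt_id (0 : ℝ)).const_mul c₁).add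
      ((hasDerivAt_pow 2 (0 : ℝ)).const_mul c₂)).add
      ((hasDerivAt_pow 3 (0 : ℝ)).const_mul c₃)).add ((hasDerivAt_pow 4 (0 : ℝ)).const_mul c₄)
    exact HasDerivAt.congr_deriv h2 (by simp)
  have h3 : IsLocalMin (fun t : ℝ => c₁ * t + c₂ * t ^ 2 + c₃ * t ^ 3 + c₄ * t ^ 4) 0 := by
    apply Filter.Eventually.of_forall
    intro t
    simpa using h t
  exact h3.hasDerivAt_eq_zero h1

theorem Nf_expand (A B D : Matrix (Fin n) (Fin n) ℂ) : ∃ c₂ c₃ c₄ : ℝ, ∀ t : ℝ,
    Nf (A + (t : ℂ) • B + ((t : ℂ) ^ 2) • D) = Nf A + 2 * (ip B A).re * t + c₂ * t ^ 2 +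
      c₃ * t ^ 3 + c₄ * t ^ 4 := by
  refine ⟨(ip B B + ip D A + ip A D).re, (ip D B + ip B D).re, (ip D D).re, fun t => ?_⟩
  have h1 : ∀ X : Matrix (Fin n) (Fin n) ℂ, Nf X = (ip X X).re := fun X => by
    rw [ip_self, Complex.ofReal_re]
  have h2 : (ip A B).re = (ip B A).re := by
    rw [← ip_star]
    rfl
  have hr : ∀ r : ℝ, star (r : ℂ) = r := fun r => Complex.conj_ofReal r
  have ht3 : (t : ℂ) ^ 2 = ((t ^ 2 : ℝ) : ℂ) := by push_cast; rfl
  rw [h1 (A + _ + _), h1 A, ht3]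
  simp only [ip_add_left, ip_add_right, ip_smul_left, ip_smul_right, hr, Complex.add_re,
    Complex.re_ofReal_mul, mul_add]
  rw [h2]
  ring

section

variable {ι : Type} [Fintype ι]

theorem det_nil {w l : Fin n → ℂ} (h : l ⬝ᵥ w = 0) (t : ℂ) :
    det (1 + t • vecMulVec w l) = 1 := by
  have h1 := det_one_add_replicateCol_mul_replicateRow (ι := Unit) (t • w) l
  rw [← vecMulVec_eq, smul_vecMulVec, dotProduct_smul, h, smul_zero, add_zero] at h1
  exact h1

theorem nil_sq {w l : Fin n → ℂ} (h : l ⬝ᵥ w = 0) : vecMulVec w l * vecMulVec w l = 0 := by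
  rw [vecMulVec_mul_vecMulVec, h]
  simp

theorem adj_nil {w l : Fin n → ℂ} (h : l ⬝ᵥ w = 0) (t : ℂ) :
    adjugate (1 + t • vecMulVec w l) = 1 - t • vecMulVec w l := by
  have h1 : (1 + t • vecMulVec w l) * (1 - t • vecMulVec w l) = 1 := by
    rw [add_mul, mul_sub, mul_sub, Matrix.one_mul, Matrix.one_mul, Matrix.mul_one,
      Matrix.smul_mul, Matrix.mul_smul, nil_sq h, smul_zero, smul_zero]
    abel
  have h2 := adjugate_mul (1 + t • vecMulVec w l)
  rw [det_nil h, one_smul] at h2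
  calc adjugate (1 + t • vecMulVec w l) = adjugate (1 + t • vecMulVec w l) *
      ((1 + t • vecMulVec w l) * (1 - t • vecMulVec w l)) := by rw [h1, Matrix.mul_one]
    _ = 1 - t • vecMulVec w l := by rw [← Matrix.mul_assoc, h2, Matrix.one_mul]

/-- the moment map vanishes at a minimum -/
theorem moment (hn : 0 < n) (Z : ι → Matrix (Fin n) (Fin n) ℂ) {g : Matrix (Fin n) (Fin n) ℂ}
    (hg : det g = 1) (hmin : ∀ g', det g' = 1 → FF Z g ≤ FF Z g') (H : Matrix (Fin n) (Fin n) ℂ) :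
    ∑ i, ip (H * (g * Z i * adjugate g) - (g * Z i * adjugate g) * H)
      (g * Z i * adjugate g) = 0 := by
  obtain ⟨Y, hY⟩ : ∃ Y : ι → Matrix (Fin n) (Fin n) ℂ, ∀ i, Y i = g * Z i * adjugate g :=
    ⟨_, fun _ => rfl⟩
  simp only [← hY]
  -- nilpotent matrices of rank one, real part
  have h1 : ∀ w l : Fin n → ℂ, l ⬝ᵥ w = 0 →
      (∑ i, ip (vecMulVec w l * Y i - Y i * vecMulVec w l) (Y i)).re = 0 := by
    intro w l hl
    choose c₂ c₃ c₄ hc using fun i => Nf_expand (Y i) (vecMulVec w l * Y i - Y i * vecMulVec w l)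
      (-(vecMulVec w l * Y i * vecMulVec w l))
    have h2 : ∀ t : ℝ, FF Z ((1 + (t : ℂ) • vecMulVec w l) * g) =
        FF Z g + 2 * (∑ i, ip (vecMulVec w l * Y i - Y i * vecMulVec w l) (Y i)).re * t +
          (∑ i, c₂ i) * t ^ 2 + (∑ i, c₃ i) * t ^ 3 + (∑ i, c₄ i) * t ^ 4 := by
      intro t
      have e1 : ∀ i, Nf ((1 + (t : ℂ) • vecMulVec w l) * g * Z i *
          adjugate ((1 + (t : ℂ) • vecMulVec w l) * g)) =
          Nf (Y i) + 2 * (ip (vecMulVec w l * Y i - Y i * vecMulVec w l) (Y i)).re * t +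
            c₂ i * t ^ 2 + c₃ i * t ^ 3 + c₄ i * t ^ 4 := by
        intro i
        rw [← hc]
        congr 1
        rw [adjugate_mul_distrib, adj_nil hl]
        have e2 : (1 + (t : ℂ) • vecMulVec w l) * g * Z i * (adjugate g *
            (1 - (t : ℂ) • vecMulVec w l)) = (1 + (t : ℂ) • vecMulVec w l) * Y i *
              (1 - (t : ℂ) • vecMulVec w l) := by
          rw [hY]
          simp only [Matrix.mul_assoc]
        rw [e2, add_mul, mul_sub, Matrix.one_mul, Matrix.mul_one, Matrix.smul_mul,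
          Matrix.mul_smul, add_mul, Matrix.smul_mul, smul_add, smul_smul, smul_sub, smul_neg,
          pow_two]
        abel
      have e3 : FF Z ((1 + (t : ℂ) • vecMulVec w l) * g) = ∑ i, (Nf (Y i) +
          2 * (ip (vecMulVec w l * Y i - Y i * vecMulVec w l) (Y i)).re * t +
            c₂ i * t ^ 2 + c₃ i * t ^ 3 + c₄ i * t ^ 4) := by
        unfold FF
        exact Finset.sum_congr rfl fun i _ => e1 i
      rw [e3]
      simp only [Finset.sum_add_distrib, ← Finset.sum_mul, ← Finset.mul_sum, Complex.re_sum]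
      have e4 : FF Z g = ∑ i, Nf (Y i) := by
        unfold FF
        exact Finset.sum_congr rfl fun i _ => by rw [hY]
      rw [e4]
    have h3 := quartic (c₁ := 2 * (∑ i, ip (vecMulVec w l * Y i - Y i * vecMulVec w l) (Y i)).re)
      (c₂ := ∑ i, c₂ i) (c₃ := ∑ i, c₃ i) (c₄ := ∑ i, c₄ i) (fun t => by
        have e1 := hmin ((1 + (t : ℂ) • vecMulVec w l) * g) (by
          rw [det_mul, det_nil hl, hg, one_mul])
        rw [h2] at e1
        linarith)
    linarith
  -- nilpotent matrices of rank one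
  obtain ⟨Λ, hΛ⟩ : ∃ Λ : Matrix (Fin n) (Fin n) ℂ →ₗ[ℂ] ℂ, ∀ H, Λ H =
      ∑ i, ip (H * Y i - Y i * H) (Y i) := by
    refine ⟨⟨⟨fun H => ∑ i, ip (H * Y i - Y i * H) (Y i), ?_⟩, ?_⟩, fun _ => rfl⟩
    · intro H H'
      rw [← Finset.sum_add_distrib]
      refine Finset.sum_congr rfl fun i _ => ?_
      rw [← ip_add_left]
      congr 1
      rw [add_mul, mul_add]
      abel
    · intro r H
      rw [RingHom.id_apply, smul_eq_mul, Finset.mul_sum]
      refine Finset.sum_congr rfl fun i _ => ?_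
      rw [← ip_smul_left]
      congr 1
      rw [Matrix.smul_mul, Matrix.mul_smul, smul_sub]
  rw [← hΛ]
  have h2 : ∀ w l : Fin n → ℂ, l ⬝ᵥ w = 0 → Λ (vecMulVec w l) = 0 := by
    intro w l hl
    apply Complex.ext
    · rw [hΛ]
      exact h1 w l hl
    · have h3 := h1 (Complex.I • w) l (by rw [dotProduct_smul, hl, smul_zero])
      rw [← hΛ, smul_vecMulVec, map_smul, smul_eq_mul, Complex.I_mul_re] at h3
      rw [Complex.zero_im]
      linarith
  have h3 : ∀ j k : Fin n, j ≠ k → Λ (single j k 1) = 0 := by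
    intro j k hjk
    rw [single_eq_single_vecMulVec_single]
    apply h2
    rw [dotProduct_comm, single_dotProduct, one_mul, Pi.single_eq_of_ne hjk]
  have h4 : ∀ j k : Fin n, Λ (single j j 1) = Λ (single k k 1) := by
    intro j k
    by_cases hjk : j = k
    · rw [hjk]
    have h5 := h2 (Pi.single j 1 + Pi.single k 1) (Pi.single j 1 - Pi.single k 1) (by
      rw [dotProduct_add, sub_dotProduct, sub_dotProduct]
      simp only [single_dotProduct, one_mul, Pi.single_eq_same, Pi.single_eq_of_ne hjk,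
        Pi.single_eq_of_ne (Ne.symm hjk)]
      ring)
    rw [add_vecMulVec, vecMulVec_sub, vecMulVec_sub, ← single_eq_single_vecMulVec_single,
      ← single_eq_single_vecMulVec_single, ← single_eq_single_vecMulVec_single,
      ← single_eq_single_vecMulVec_single, map_add, map_sub, map_sub, h3 j k hjk,
      h3 k j (Ne.symm hjk)] at h5
    linear_combination h5
  have h5 : Λ 1 = 0 := by
    rw [hΛ]
    apply Finset.sum_eq_zero
    intro i _
    rw [Matrix.one_mul, Matrix.mul_one, sub_self]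
    unfold ip
    rw [Matrix.zero_mul, trace_zero]
  have h6 : ∀ j : Fin n, Λ (single j j 1) = 0 := by
    intro j
    have e1 : (1 : Matrix (Fin n) (Fin n) ℂ) = ∑ k, single k k 1 := by
      ext a b
      rw [Matrix.sum_apply, Matrix.one_apply]
      simp only [Matrix.single_apply]
      by_cases h : a = b
      · subst h
        simp
      · rw [if_neg h]
        symm
        apply Finset.sum_eq_zero
        intro k _
        rw [if_neg]
        rintro ⟨h7, h8⟩
        exact h (h7.symm.trans h8)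
    rw [e1, map_sum, Finset.sum_congr rfl fun k _ => h4 k j, Finset.sum_const, Finset.card_univ,
      Fintype.card_fin, nsmul_eq_mul] at h5
    exact (mul_eq_zero.1 h5).resolve_left (by exact_mod_cast hn.ne')
  rw [matrix_eq_sum_single H, map_sum]
  apply Finset.sum_eq_zero
  intro j _
  rw [map_sum]
  apply Finset.sum_eq_zero
  intro k _
  have e1 : single j k (H j k) = H j k • single j k (1 : ℂ) := by
    rw [smul_single, smul_eq_mul, mul_one]
  rw [e1, map_smul]
  by_cases h : j = k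
  · rw [h, h6, smul_zero]
  · rw [h3 j k h, smul_zero]

/-- the skew elements -/
theorem skew {Y : ι → Matrix (Fin n) (Fin n) ℂ} (hn : 0 < n)
    (hspan : ∀ E : Matrix (Fin n) (Fin n) ℂ, trace E = 0 → ∃ c : ι → ℂ, E = ∑ i, c i • Y i)
    (hM : ∀ H, ∑ i, ip (H * Y i - Y i * H) (Y i) = 0) {W : Matrix (Fin n) (Fin n) ℂ}
    (hW : trace W = 0) {A : ι → ι → ℂ} (hA : ∀ i j, A j i = -star (A i j))
    (hWA : ∀ i, W * Y i - Y i * W = ∑ j, A j i • Y j) : Wᴴ = -W := by
  -- invariance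
  have h1 : ∑ i, ip (W * (W * Y i - Y i * W) - (W * Y i - Y i * W) * W) (Y i) +
      ∑ i, ip (W * Y i - Y i * W) (W * Y i - Y i * W) = 0 := by
    have e1 : ∀ i, ip (W * (W * Y i - Y i * W) - (W * Y i - Y i * W) * W) (Y i) =
        ∑ j, A j i * ip (W * Y j - Y j * W) (Y i) := by
      intro i
      rw [hWA i, Finset.mul_sum, Finset.sum_mul, ← Finset.sum_sub_distrib, ip_sum_left]
      refine Finset.sum_congr rfl fun j _ => ?_
      rw [← ip_smul_left]
      congr 1
      rw [Matrix.mul_smul, Matrix.smul_mul, smul_sub]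
    have e2 : ∀ i, ip (W * Y i - Y i * W) (W * Y i - Y i * W) =
        ∑ j, star (A j i) * ip (W * Y i - Y i * W) (Y j) := by
      intro i
      refine (congrArg (ip (W * Y i - Y i * W)) (hWA i)).trans ?_
      rw [ip_sum_right]
      exact Finset.sum_congr rfl fun j _ => ip_smul_right _ _ _
    rw [Finset.sum_congr rfl fun i _ => e1 i, Finset.sum_congr rfl fun i _ => e2 i,
      Finset.sum_comm (f := fun i j => star (A j i) * ip (W * Y i - Y i * W) (Y j)),
      ← Finset.sum_add_distrib]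
    apply Finset.sum_eq_zero
    intro i _
    rw [← Finset.sum_add_distrib]
    apply Finset.sum_eq_zero
    intro j _
    rw [hA i j]
    ring
  have hVW : (Wᴴ)ᴴ = W := conjTranspose_conjTranspose W
  -- the moment condition
  have h2 : ∑ i, ip (W * Y i - Y i * W) (W * Y i - Y i * W) =
      ∑ i, ip (Wᴴ * Y i - Y i * Wᴴ) (Wᴴ * Y i - Y i * Wᴴ) := by
    rw [← sub_eq_zero, ← Finset.sum_sub_distrib, ← hM (Wᴴ * W - W * Wᴴ)]
    refine Finset.sum_congr rfl fun i _ => ?_
    have e1 : ip (W * Y i - Y i * W) (W * Y i - Y i * W) =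
        ip (Wᴴ * (W * Y i - Y i * W) - (W * Y i - Y i * W) * Wᴴ) (Y i) := by
      rw [ip_ad Wᴴ, hVW]
    have e2 : ip (Wᴴ * Y i - Y i * Wᴴ) (Wᴴ * Y i - Y i * Wᴴ) =
        ip (W * (Wᴴ * Y i - Y i * Wᴴ) - (Wᴴ * Y i - Y i * Wᴴ) * W) (Y i) := by
      rw [ip_ad W]
    rw [e1, e2, ← ip_sub_left]
    congr 1
    noncomm_ring
  have h3 : ∑ i, ip (W * Y i - Y i * W) (Wᴴ * Y i - Y i * Wᴴ) =
      -∑ i, ip (W * Y i - Y i * W) (W * Y i - Y i * W) := by
    rw [eq_neg_iff_add_eq_zero, ← h1]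
    congr 1
    exact Finset.sum_congr rfl fun i _ => (ip_ad _ _ _).symm
  have h4 : ∑ i, ip (Wᴴ * Y i - Y i * Wᴴ) (W * Y i - Y i * W) =
      -∑ i, ip (W * Y i - Y i * W) (W * Y i - Y i * W) := by
    have e1 := congrArg star h3
    rw [star_neg, star_sum, star_sum] at e1
    simp only [ip_star] at e1
    exact e1
  have h5 : ∑ i, ip ((W + Wᴴ) * Y i - Y i * (W + Wᴴ)) ((W + Wᴴ) * Y i - Y i * (W + Wᴴ)) = 0 := by
    have e1 : ∀ i, ip ((W + Wᴴ) * Y i - Y i * (W + Wᴴ)) ((W + Wᴴ) * Y i - Y i * (W + Wᴴ)) =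
        ip (W * Y i - Y i * W) (W * Y i - Y i * W) +
        ip (W * Y i - Y i * W) (Wᴴ * Y i - Y i * Wᴴ) +
        ip (Wᴴ * Y i - Y i * Wᴴ) (W * Y i - Y i * W) +
        ip (Wᴴ * Y i - Y i * Wᴴ) (Wᴴ * Y i - Y i * Wᴴ) := by
      intro i
      have e2 : (W + Wᴴ) * Y i - Y i * (W + Wᴴ) = (W * Y i - Y i * W) +
          (Wᴴ * Y i - Y i * Wᴴ) := by
        rw [add_mul, mul_add]
        abel
      rw [e2, ip_add_left, ip_add_right, ip_add_right]
      ring
    rw [Finset.sum_congr rfl fun i _ => e1 i, Finset.sum_add_distrib, Finset.sum_add_distrib,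
      Finset.sum_add_distrib, h3, h4, ← h2]
    ring
  have h6 : ∀ i, (W + Wᴴ) * Y i = Y i * (W + Wᴴ) := by
    intro i
    simp only [ip_self] at h5
    have e1 : ∑ i, Nf ((W + Wᴴ) * Y i - Y i * (W + Wᴴ)) = 0 := by exact_mod_cast h5
    have e2 := (Finset.sum_eq_zero_iff_of_nonneg fun i _ => Nf_nonneg _).1 e1 i (Finset.mem_univ i)
    exact sub_eq_zero.1 (Nf_eq_zero e2)
  have h7 : ∀ E : Matrix (Fin n) (Fin n) ℂ, trace E = 0 → (W + Wᴴ) * E = E * (W + Wᴴ) := by
    intro E hE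
    obtain ⟨c, rfl⟩ := hspan E hE
    rw [Finset.mul_sum, Finset.sum_mul]
    refine Finset.sum_congr rfl fun i _ => ?_
    rw [Matrix.mul_smul, Matrix.smul_mul, h6]
  obtain ⟨r, hr⟩ := mem_range_scalar_of_commute_single (M := W + Wᴴ) (fun j k hjk =>
    (h7 _ (trace_single_eq_of_ne _ _ _ hjk)).symm)
  have h8 : trace (W + Wᴴ) = 0 := by
    rw [trace_add, trace_conjTranspose, hW, star_zero, add_zero]
  have h9 : r = 0 := by
    rw [← hr, scalar_apply, trace_diagonal, Finset.sum_const, Finset.card_univ, Fintype.card_fin,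
      nsmul_eq_mul] at h8
    exact (mul_eq_zero.1 h8).resolve_left (by exact_mod_cast hn.ne')
  rw [h9, map_zero] at hr
  exact eq_neg_of_add_eq_zero_right hr.symm

end

end GK10

/-- **K10.** -/
theorem unit_of : St_unit := by
  intro d n L S₀ hS hbr hst φ hn hφ htr hon hker
  have hn0 : 0 < n := by omega
  -- the square root
  obtain ⟨R, hR⟩ : ∃ R : Matrix (Fin d) (Fin d) ℂ, S₀ = Rᴴ * R := by
    open scoped MatrixOrder in
    obtain ⟨R, hR⟩ := CStarAlgebra.nonneg_iff_eq_star_mul_self.mp hS.posSemidef.nonneg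
    exact ⟨R, hR⟩
  have hdet : det S₀ ≠ 0 := hS.det_pos.ne'
  have hRu : IsUnit (det R) := by
    rw [hR, det_mul] at hdet
    exact isUnit_iff_ne_zero.2 (right_ne_zero_of_mul hdet)
  obtain ⟨Ri, hRi⟩ : ∃ Ri, Ri = R⁻¹ := ⟨_, rfl⟩
  have h1 : R * Ri = 1 := by rw [hRi, mul_nonsing_inv _ hRu]
  have h2 : Ri * R = 1 := by rw [hRi, nonsing_inv_mul _ hRu]
  have h1H : Riᴴ * Rᴴ = 1 := by rw [← conjTranspose_mul, h1, conjTranspose_one]
  have h2H : Rᴴ * Riᴴ = 1 := by rw [← conjTranspose_mul, h2, conjTranspose_one]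
  have hSi : S₀⁻¹ = Ri * Riᴴ := by
    apply inv_eq_right_inv
    rw [hR, Matrix.mul_assoc, ← Matrix.mul_assoc R, h1, Matrix.one_mul, h2H]
  have hSH : S₀ᴴ = S₀ := hS.isHermitian
  have hSS : S₀⁻¹ * S₀ = 1 := nonsing_inv_mul _ (isUnit_iff_ne_zero.2 hdet)
  have hSS' : S₀ * S₀⁻¹ = 1 := mul_nonsing_inv _ (isUnit_iff_ne_zero.2 hdet)
  -- the family
  obtain ⟨m, X, hXL, hX⟩ := GK10.exists_family L h1 h2
  have hspan : ∀ E : Matrix (Fin n) (Fin n) ℂ, trace E = 0 →
      ∃ c : Fin m → ℂ, E = ∑ i, c i • φ (X i) := by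
    intro E hE
    obtain ⟨Y, hY, rfl⟩ := hon E hE
    refine ⟨fun i => GK10.ip (R * Y * Ri) (R * X i * Ri), ?_⟩
    have e1 := congrArg φ (hX Y hY)
    rw [map_sum] at e1
    rw [← e1]
    exact Finset.sum_congr rfl fun i _ => map_smul _ _ _
  obtain ⟨g, hg, hmin⟩ := GK10.exists_min (fun i => φ (X i)) hn0 hspan
  have hM := GK10.moment hn0 (fun i => φ (X i)) hg hmin
  obtain ⟨q, hq⟩ : ∃ q, q = adjugate g := ⟨_, rfl⟩
  have hgq : g * q = 1 := by rw [hq, mul_adjugate, hg, one_smul]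
  have hqg : q * g = 1 := by rw [hq, adjugate_mul, hg, one_smul]
  simp only [← hq] at hM
  have hspan' : ∀ E : Matrix (Fin n) (Fin n) ℂ, trace E = 0 →
      ∃ c : Fin m → ℂ, E = ∑ i, c i • (g * φ (X i) * q) := by
    intro E hE
    obtain ⟨c, hc⟩ := hspan (q * E * g) (by
      rw [trace_mul_comm, ← Matrix.mul_assoc, hgq, Matrix.one_mul, hE])
    refine ⟨c, ?_⟩
    have e1 : E = g * (q * E * g) * q := by
      have e2 : g * (q * E * g) * q = (g * q) * E * (g * q) := by simp only [Matrix.mul_assoc]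
      rw [e2, hgq, Matrix.one_mul, Matrix.mul_one]
    rw [e1, hc, Finset.mul_sum, Finset.sum_mul]
    refine Finset.sum_congr rfl fun i _ => ?_
    rw [Matrix.mul_smul, Matrix.smul_mul]
  -- skew elements
  have key : ∀ z ∈ L, S₀⁻¹ * zᴴ * S₀ = -z → (φ z)ᴴ * (gᴴ * g) = -((gᴴ * g) * φ z) := by
    intro z hz hzs
    have hzk : (R * z * Ri)ᴴ = -(R * z * Ri) := by
      have e1 : R * (S₀⁻¹ * zᴴ * S₀) * Ri = Riᴴ * zᴴ * Rᴴ := by
        rw [hSi, hR]
        have e2 : R * (Ri * Riᴴ * zᴴ * (Rᴴ * R)) * Ri = (R * Ri) * Riᴴ * zᴴ * Rᴴ * (R * Ri) := by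
          simp only [Matrix.mul_assoc]
        rw [e2, h1, Matrix.one_mul, Matrix.mul_one]
      rw [conjTranspose_mul, conjTranspose_mul, ← Matrix.mul_assoc, ← e1, hzs, Matrix.mul_neg,
        Matrix.neg_mul]
    have hbrk : ∀ Y, R * (z * Y - Y * z) * Ri = (R * z * Ri) * (R * Y * Ri) -
        (R * Y * Ri) * (R * z * Ri) := by
      intro Y
      have e2 : ∀ A B : Matrix (Fin d) (Fin d) ℂ, R * A * Ri * (R * B * Ri) = R * (A * B) * Ri := by
        intro A B
        have e3 : R * A * Ri * (R * B * Ri) = R * A * (Ri * R) * B * Ri := by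
          simp only [Matrix.mul_assoc]
        rw [e3, h2, Matrix.mul_one]
        simp only [Matrix.mul_assoc]
      rw [e2, e2, mul_sub, sub_mul]
    have hW : (g * φ z * q)ᴴ = -(g * φ z * q) := by
      refine GK10.skew (Y := fun i => g * φ (X i) * q) (W := g * φ z * q)
        (A := fun j i => GK10.ip (R * (z * X i - X i * z) * Ri) (R * X j * Ri)) hn0 hspan' hM ?_ ?_ ?_
      · rw [trace_mul_comm, ← Matrix.mul_assoc, hqg, Matrix.one_mul, htr z hz]
      · intro i j
        change GK10.ip (R * (z * X i - X i * z) * Ri) (R * X j * Ri) =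
          -star (GK10.ip (R * (z * X j - X j * z) * Ri) (R * X i * Ri))
        rw [GK10.ip_star, hbrk, hbrk, GK10.ip_ad, hzk, ← GK10.ip_neg_right]
        congr 1
        noncomm_ring
      · intro i
        have e2 : ∀ A B : Matrix (Fin n) (Fin n) ℂ, g * A * q * (g * B * q) = g * (A * B) * q := by
          intro A B
          have e3 : g * A * q * (g * B * q) = g * A * (q * g) * B * q := by
            simp only [Matrix.mul_assoc]
          rw [e3, hqg, Matrix.mul_one]
          simp only [Matrix.mul_assoc]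
        change g * φ z * q * (g * φ (X i) * q) - g * φ (X i) * q * (g * φ z * q) =
          ∑ j, GK10.ip (R * (z * X i - X i * z) * Ri) (R * X j * Ri) • (g * φ (X j) * q)
        rw [e2, e2, ← sub_mul, ← mul_sub, ← hφ z hz (X i) (hXL i)]
        have e4 := congrArg φ (hX _ (hbr z hz (X i) (hXL i)))
        rw [← e4, map_sum, Finset.mul_sum, Finset.sum_mul]
        refine Finset.sum_congr rfl fun j _ => ?_
        rw [map_smul, Matrix.mul_smul, Matrix.smul_mul]
    have e5 : (φ z)ᴴ * (gᴴ * g) = gᴴ * (g * φ z * q)ᴴ * g := by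
      rw [conjTranspose_mul, conjTranspose_mul]
      have e6 : gᴴ * (qᴴ * ((φ z)ᴴ * gᴴ)) * g = (gᴴ * qᴴ) * (φ z)ᴴ * gᴴ * g := by
        simp only [Matrix.mul_assoc]
      rw [e6, ← conjTranspose_mul, hqg, conjTranspose_one, Matrix.one_mul]
      simp only [Matrix.mul_assoc]
    rw [e5, hW, Matrix.mul_neg, Matrix.neg_mul, neg_inj]
    have e6 : gᴴ * (g * φ z * q) * g = gᴴ * g * φ z * (q * g) := by
      simp only [Matrix.mul_assoc]
    rw [e6, hqg, Matrix.mul_one]
  refine ⟨gᴴ * g, ?_, ?_⟩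
  · apply PosDef.conjTranspose_mul_self
    intro v w hvw
    have e1 : q *ᵥ (g *ᵥ v) = q *ᵥ (g *ᵥ w) := congrArg (fun u => q *ᵥ u) hvw
    rw [mulVec_mulVec, mulVec_mulVec, hqg, one_mulVec, one_mulVec] at e1
    exact e1
  · intro Y hY
    obtain ⟨Ys, hYs⟩ : ∃ Ys, Ys = S₀⁻¹ * Yᴴ * S₀ := ⟨_, rfl⟩
    have hYsL : Ys ∈ L := by
      rw [hYs]
      exact hst Y hY
    have hss : S₀⁻¹ * Ysᴴ * S₀ = Y := by
      rw [hYs, conjTranspose_mul, conjTranspose_mul, conjTranspose_conjTranspose, hSH,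
        conjTranspose_nonsing_inv, hSH]
      have e1 : S₀⁻¹ * (S₀ * (Y * S₀⁻¹)) * S₀ = (S₀⁻¹ * S₀) * Y * (S₀⁻¹ * S₀) := by
        simp only [Matrix.mul_assoc]
      rw [e1, hSS, Matrix.one_mul, Matrix.mul_one]
    obtain ⟨z₁, hz₁⟩ : ∃ z₁, z₁ = (1 / 2 : ℂ) • (Y - Ys) := ⟨_, rfl⟩
    obtain ⟨z₂, hz₂⟩ : ∃ z₂, z₂ = (-Complex.I / 2 : ℂ) • (Y + Ys) := ⟨_, rfl⟩
    have a1 : z₁ ∈ L := by
      rw [hz₁]
      exact L.smul_mem _ (L.sub_mem hY hYsL)
    have a2 : z₂ ∈ L := by
      rw [hz₂]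
      exact L.smul_mem _ (L.add_mem hY hYsL)
    have b1 : S₀⁻¹ * z₁ᴴ * S₀ = -z₁ := by
      rw [hz₁, conjTranspose_smul, conjTranspose_sub, Matrix.mul_smul, Matrix.smul_mul, mul_sub,
        sub_mul, hss, ← hYs]
      have e1 : star (1 / 2 : ℂ) = 1 / 2 := by simp
      rw [e1, ← smul_neg]
      congr 1
      abel
    have b2 : S₀⁻¹ * z₂ᴴ * S₀ = -z₂ := by
      rw [hz₂, conjTranspose_smul, conjTranspose_add, Matrix.mul_smul, Matrix.smul_mul, mul_add,
        add_mul, hss, ← hYs]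
      have e1 : star (-Complex.I / 2 : ℂ) = -(-Complex.I / 2) := by
        simp
        ring
      rw [e1, neg_smul, add_comm Ys Y]
    have c1 := key z₁ a1 b1
    have c2 := key z₂ a2 b2
    have hY1 : Y = z₁ + Complex.I • z₂ := by
      rw [hz₁, hz₂, smul_smul]
      have e1 : Complex.I * (-Complex.I / 2) = 1 / 2 := by
        have := Complex.I_mul_I
        linear_combination (-1 / 2 : ℂ) * this
      rw [e1]
      module
    have hY2 : Ys = -z₁ + Complex.I • z₂ := by
      rw [hz₁, hz₂, smul_smul]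
      have e1 : Complex.I * (-Complex.I / 2) = 1 / 2 := by
        have := Complex.I_mul_I
        linear_combination (-1 / 2 : ℂ) * this
      rw [e1]
      module
    rw [← hYs, hY2, hY1, map_add, map_add, map_neg, map_smul, conjTranspose_add,
      conjTranspose_smul, add_mul, Matrix.smul_mul, c1, c2, mul_add, Matrix.mul_neg,
      Matrix.mul_smul, smul_neg]
    have e1 : star Complex.I = -Complex.I := Complex.conj_I
    rw [e1, neg_smul, neg_neg]

end Pool.Agent.NH32
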