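import Mathlib
import Pool.Agent.NH32.GtB

/-!
# K11: the involutions in the case of exterior powers
-/

set_option linter.unusedSectionVars false

namespace Pool.Agent.NH32

open Matrix Module

noncomputable section

namespace GK11

/-! ### Eigentensors -/

theorem wd_ne_zero {n k : ℕ} {v : Fin k → Fin n → ℂ} (hv : LinearIndependent ℂ v) : wd v ≠ 0 := by
  have hk : k ≤ n := by
    have h1 := hv.fintype_card_le_finrank
    rwa [Fintype.card_fin, Module.finrank_fin_fun] at h1
  -- a left inverse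
  have hinj : LinearMap.ker (Fintype.linearCombination ℂ v) = ⊥ := by
    rw [LinearMap.ker_eq_bot]
    exact hv.fintypeLinearCombination_injective
  obtain ⟨f, hf⟩ := LinearMap.exists_leftInverse_of_injective _ hinj
  have hf' : ∀ l, f (v l) = Pi.single l 1 := by
    intro l
    have h1 := LinearMap.congr_fun hf (Pi.single l 1)
    rw [LinearMap.comp_apply, Fintype.linearCombination_apply_single, one_smul,
      LinearMap.id_apply] at h1
    exact h1
  let g : (Fin k → ℂ) →ₗ[ℂ] (Fin n → ℂ) :=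
    { toFun := fun c i => if h : (i : ℕ) < k then c ⟨i, h⟩ else 0
      map_add' := by
        intro c c'
        funext i
        simp only [Pi.add_apply]
        split_ifs <;> simp
      map_smul' := by
        intro a c
        funext i
        simp only [Pi.smul_apply, RingHom.id_apply]
        split_ifs <;> simp }
  let M : Matrix (Fin n) (Fin n) ℂ := LinearMap.toMatrix' (g.comp f)
  have hM : ∀ l, M *ᵥ v l = Pi.single (Fin.castLE hk l) 1 := by
    intro l
    have h1 : M *ᵥ v l = (g.comp f) (v l) := by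
      rw [← Matrix.toLin'_apply, Matrix.toLin'_toMatrix']
    rw [h1, LinearMap.comp_apply, hf' l]
    funext i
    show (if h : (i : ℕ) < k then (Pi.single l (1 : ℂ) : Fin k → ℂ) ⟨i, h⟩ else 0) = _
    by_cases hi : i = Fin.castLE hk l
    · subst hi
      rw [Pi.single_eq_same, dif_pos (by exact l.2)]
      simp
    · rw [Pi.single_eq_of_ne hi]
      split_ifs with h
      · rw [Pi.single_eq_of_ne]
        intro h2
        apply hi
        apply Fin.ext
        rw [← h2]
        rfl
      · rfl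
  intro h0
  have h1 := kp_wd M v
  rw [h0, mulVec_zero] at h1
  have h2 := congrFun h1 (fun a => Fin.castLE hk a)
  simp only [hM] at h2
  unfold wd at h2
  have h3 : (of fun a l => (Pi.single (Fin.castLE hk l) (1 : ℂ) : Fin n → ℂ) (Fin.castLE hk a)) =
      (1 : Matrix (Fin k) (Fin k) ℂ) := by
    ext a l
    rw [of_apply]
    by_cases hal : a = l
    · subst hal
      rw [Pi.single_eq_same, Matrix.one_apply_eq]
    · rw [Matrix.one_apply_ne hal, Pi.single_eq_of_ne]
      exact fun h => hal (Fin.castLE_injective hk h)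
  rw [h3, det_one] at h2
  exact zero_ne_one h2

theorem eig_tensor {n : ℕ} {P : Matrix (Fin n) (Fin n) ℂ} (hP : P * P = P) {j i : ℕ}
    (hj : j ≤ finrank ℂ (LinearMap.range (toLin' P)))
    (hi : i ≤ finrank ℂ (LinearMap.ker (toLin' P))) :
    ∃ x : (Fin (j + i) → Fin n) → ℂ, x ≠ 0 ∧ IsAlt x ∧ dm (Fin (j + i)) P *ᵥ x = (j : ℂ) • x := by
  obtain ⟨a, ha⟩ := exists_linearIndependent_of_le_finrank hj
  obtain ⟨b, hb⟩ := exists_linearIndependent_of_le_finrank hi
  have ha' : LinearIndependent ℂ (fun l => (a l : Fin n → ℂ)) :=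
    ha.map' (Submodule.subtype _) (Submodule.ker_subtype _)
  have hb' : LinearIndependent ℂ (fun l => (b l : Fin n → ℂ)) :=
    hb.map' (Submodule.subtype _) (Submodule.ker_subtype _)
  have hPa : ∀ l, P *ᵥ (a l : Fin n → ℂ) = a l := by
    intro l
    obtain ⟨y, hy⟩ := (a l).2
    rw [← hy, toLin'_apply, mulVec_mulVec, hP]
  have hPb : ∀ l, P *ᵥ (b l : Fin n → ℂ) = 0 := by
    intro l
    have h1 := (b l).2
    rwa [LinearMap.mem_ker, toLin'_apply] at h1
  have hdis : Disjoint (Submodule.span ℂ (Set.range fun l => (a l : Fin n → ℂ)))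
      (Submodule.span ℂ (Set.range fun l => (b l : Fin n → ℂ))) := by
    rw [Submodule.disjoint_def]
    intro x hx hx'
    have h1 : P *ᵥ x = x := by
      clear hx'
      induction hx using Submodule.span_induction with
      | mem x hx =>
        obtain ⟨l, rfl⟩ := hx
        exact hPa l
      | zero => rw [mulVec_zero]
      | add x y _ _ hx1 hy1 => rw [mulVec_add, hx1, hy1]
      | smul c x _ hx1 => rw [mulVec_smul, hx1]
    have h2 : P *ᵥ x = 0 := by
      clear h1 hx
      induction hx' using Submodule.span_induction with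
      | mem x hx =>
        obtain ⟨l, rfl⟩ := hx
        exact hPb l
      | zero => rw [mulVec_zero]
      | add x y _ _ hx hy => rw [mulVec_add, hx, hy, add_zero]
      | smul c x _ hx => rw [mulVec_smul, hx, smul_zero]
    rw [← h1, h2]
  obtain ⟨v, hv⟩ : ∃ v : Fin (j + i) → Fin n → ℂ, v = Sum.elim (fun l => (a l : Fin n → ℂ))
      (fun l => (b l : Fin n → ℂ)) ∘ finSumFinEquiv.symm := ⟨_, rfl⟩
  have hli : LinearIndependent ℂ v := by
    rw [hv]
    exact (ha'.sum_type hb' hdis).comp _ finSumFinEquiv.symm.injective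
  refine ⟨wd v, wd_ne_zero hli, wd_alt v, ?_⟩
  rw [dm_wd, Fin.sum_univ_add]
  have h1 : ∀ l : Fin j, wd (Function.update v (Fin.castAdd i l) (P *ᵥ v (Fin.castAdd i l))) =
      wd v := by
    intro l
    have h2 : v (Fin.castAdd i l) = a l := by
      rw [hv, Function.comp_apply, finSumFinEquiv_symm_apply_castAdd]
      rfl
    rw [h2, hPa l, ← h2, Function.update_eq_self]
  have h2 : ∀ l : Fin i, wd (Function.update v (Fin.natAdd j l) (P *ᵥ v (Fin.natAdd j l))) =
      0 := by
    intro l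
    have h2 : v (Fin.natAdd j l) = b l := by
      rw [hv, Function.comp_apply, finSumFinEquiv_symm_apply_natAdd]
      rfl
    rw [h2, hPb l, ← wdM_apply]
    exact wdM.map_coord_zero _ (Function.update_self _ _ _)
  rw [Finset.sum_congr rfl fun l _ => h1 l, Finset.sum_congr rfl fun l _ => h2 l,
    Finset.sum_const, Finset.sum_const_zero, add_zero, Finset.card_univ, Fintype.card_fin]
  exact (Nat.cast_smul_eq_nsmul ℂ j (wd v)).symm

/-! ### The structure of the matrix -/

theorem vm_inj {n : ℕ} {u w l : Fin n → ℂ} (hl : l ≠ 0) (h : vecMulVec u l = vecMulVec w l) :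
    u = w := by
  obtain ⟨i, hi⟩ := Function.ne_iff.1 hl
  funext a
  have h1 := congrFun (congrFun h a) i
  rw [vecMulVec_apply, vecMulVec_apply] at h1
  exact mul_right_cancel₀ hi h1

/-- The cubic relation for an eigenvalue. -/
theorem cubic {n : ℕ} {Y : Matrix (Fin n) (Fin n) ℂ}
    (h4 : ∀ W : Matrix (Fin n) (Fin n) ℂ, Y * (Y * (Y * W - W * Y) - (Y * W - W * Y) * Y) -
      (Y * (Y * W - W * Y) - (Y * W - W * Y) * Y) * Y = (4 : ℂ) • (Y * W - W * Y)) {y : ℂ}
    {l : Fin n → ℂ} (hl : l ≠ 0) (hly : l ᵥ* Y = y • l) :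
    (Y - y • 1) * ((Y - y • 1) * (Y - y • 1)) = (4 : ℂ) • (Y - y • 1) := by
  obtain ⟨Z, hZ⟩ : ∃ Z, Z = Y - y • (1 : Matrix (Fin n) (Fin n) ℂ) := ⟨_, rfl⟩
  rw [← hZ]
  refine Matrix.toLin'.injective (LinearMap.ext fun w => ?_)
  rw [toLin'_apply, toLin'_apply]
  apply vm_inj hl
  have key : ∀ u : Fin n → ℂ, Y * vecMulVec u l - vecMulVec u l * Y = vecMulVec (Z *ᵥ u) l := by
    intro u
    rw [vecMulVec_mul, hly, mul_vecMulVec, hZ, sub_mulVec, smul_mulVec, one_mulVec]
    ext a b
    rw [Matrix.sub_apply, vecMulVec_apply, vecMulVec_apply, vecMulVec_apply, Pi.sub_apply,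
      Pi.smul_apply, Pi.smul_apply, smul_eq_mul, smul_eq_mul]
    ring
  have h5 := h4 (vecMulVec w l)
  rw [key, key, key] at h5
  rw [← mulVec_mulVec, ← mulVec_mulVec, h5, smul_mulVec]
  ext a b
  rw [Matrix.smul_apply, vecMulVec_apply, vecMulVec_apply, Pi.smul_apply, smul_eq_mul,
    smul_eq_mul, mul_assoc]

theorem split_Y {n : ℕ} (hn : 0 < n) {Y : Matrix (Fin n) (Fin n) ℂ}
    (h4 : ∀ W : Matrix (Fin n) (Fin n) ℂ, Y * (Y * (Y * W - W * Y) - (Y * W - W * Y) * Y) -
      (Y * (Y * W - W * Y) - (Y * W - W * Y) * Y) * Y = (4 : ℂ) • (Y * W - W * Y)) :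
    ∃ (y : ℂ) (P : Matrix (Fin n) (Fin n) ℂ), P * P = P ∧ Y = y • 1 + (2 : ℂ) • P := by
  -- left eigenvalues
  obtain ⟨E, hE⟩ : ∃ E : ℂ → Prop, E = fun y => ∃ l : Fin n → ℂ, l ≠ 0 ∧ l ᵥ* Y = y • l := ⟨_, rfl⟩
  have hex : ∃ y, E y := by
    have : Nonempty (Fin n) := ⟨⟨0, hn⟩⟩
    obtain ⟨y, hy⟩ := Module.End.exists_eigenvalue (toLin' Yᵀ)
    obtain ⟨l, hl⟩ := hy.exists_hasEigenvector
    rw [hE]
    refine ⟨y, l, hl.2, ?_⟩
    have h1 := hl.apply_eq_smul
    rwa [toLin'_apply, mulVec_transpose] at h1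
  have hcub : ∀ y, E y → (Y - y • 1) * ((Y - y • 1) * (Y - y • 1)) = (4 : ℂ) • (Y - y • 1) := by
    intro y hy
    rw [hE] at hy
    obtain ⟨l, hl, hly⟩ := hy
    exact cubic h4 hl hly
  have hdif : ∀ y y', E y → E y' → (y' - y) * ((y' - y) * (y' - y)) = 4 * (y' - y) := by
    intro y y' hy hy'
    have h1 := hcub y hy
    rw [hE] at hy'
    obtain ⟨l, hl, hly⟩ := hy'
    have h2 : l ᵥ* (Y - y • 1) = (y' - y) • l := by
      rw [vecMul_sub, hly, vecMul_smul, vecMul_one, sub_smul]
    have h3 := congrArg (fun M => l ᵥ* M) h1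
    simp only [← vecMul_vecMul, h2, smul_vecMul, vecMul_smul] at h3
    obtain ⟨i, hi⟩ := Function.ne_iff.1 hl
    have h5 := congrFun h3 i
    simp only [Pi.smul_apply, smul_eq_mul] at h5
    exact mul_right_cancel₀ hi (by linear_combination h5)
  obtain ⟨y, hy, hy2⟩ : ∃ y, E y ∧ ¬ E (y - 2) := by
    obtain ⟨y, hy⟩ := hex
    by_cases h1 : E (y - 2)
    · refine ⟨y - 2, h1, fun h2 => ?_⟩
      have h3 := hdif _ _ hy h2
      have h6 : (y - 2 - 2 - y : ℂ) = -4 := by ring
      rw [h6] at h3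
      norm_num at h3
    · exact ⟨y, hy, h1⟩
  obtain ⟨Z, hZ⟩ : ∃ Z, Z = Y - y • (1 : Matrix (Fin n) (Fin n) ℂ) := ⟨_, rfl⟩
  have hZ3 : Z * (Z * Z) = (4 : ℂ) • Z := by rw [hZ]; exact hcub y hy
  have hdet : IsUnit (Z + (2 : ℂ) • 1) := by
    rw [Matrix.isUnit_iff_isUnit_det, isUnit_iff_ne_zero]
    intro h0
    obtain ⟨l, hl, h1⟩ := Matrix.exists_vecMul_eq_zero_iff.2 h0
    apply hy2
    rw [hE]
    refine ⟨l, hl, ?_⟩
    rw [hZ, vecMul_add, vecMul_sub, vecMul_smul, vecMul_smul, vecMul_one] at h1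
    have h2 : l ᵥ* Y = l ᵥ* Y - y • l + (2 : ℂ) • l + (y - 2) • l := by
      rw [sub_smul]
      abel
    rw [h2, h1, zero_add]
  have hZ2 : Z * Z = (2 : ℂ) • Z := by
    have h1 : (Z + (2 : ℂ) • 1) * (Z * Z - (2 : ℂ) • Z) = 0 := by
      rw [add_mul, mul_sub, mul_sub, hZ3, Matrix.mul_smul, Matrix.smul_mul, Matrix.smul_mul,
        one_mul, one_mul, smul_smul]
      norm_num
    have h2 := hdet.mul_left_cancel (h1.trans (mul_zero _).symm)
    exact sub_eq_zero.1 h2
  refine ⟨y, (1 / 2 : ℂ) • Z, ?_, ?_⟩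
  · rw [Matrix.smul_mul, Matrix.mul_smul, hZ2, smul_smul, smul_smul]
    norm_num
  · rw [smul_smul, hZ]
    norm_num

theorem rank_P {n : ℕ} {P : Matrix (Fin n) (Fin n) ℂ} (hP : P * P = P) :
    ∃ m m' : ℕ, m = finrank ℂ (LinearMap.range (toLin' P)) ∧
      m' = finrank ℂ (LinearMap.ker (toLin' P)) ∧ m + m' = n ∧ trace P = m := by
  refine ⟨_, _, rfl, rfl, ?_, ?_⟩
  · rw [LinearMap.finrank_range_add_finrank_ker, Module.finrank_fin_fun]
  · have h1 : LinearMap.IsProj (LinearMap.range (toLin' P)) (toLin' P) := by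
      refine ⟨fun x => ⟨x, rfl⟩, ?_⟩
      rintro _ ⟨x, rfl⟩
      rw [toLin'_apply, toLin'_apply, mulVec_mulVec, hP]
    have h2 := h1.trace
    rwa [Matrix.trace_toLin'_eq] at h2

theorem dm_one (k n : ℕ) (x : (Fin k → Fin n) → ℂ) :
    dm (Fin k) (1 : Matrix (Fin n) (Fin n) ℂ) *ᵥ x = (k : ℂ) • x := by
  funext I
  rw [dm_mulVec_apply, Pi.smul_apply, smul_eq_mul]
  have h1 : ∀ a : Fin k, ∑ j, (1 : Matrix (Fin n) (Fin n) ℂ) (I a) j *
      x (Function.update I a j) = x I := by
    intro a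
    rw [Finset.sum_eq_single (I a)]
    · rw [Matrix.one_apply_eq, one_mul, Function.update_eq_self]
    · intro j _ hj
      rw [Matrix.one_apply_ne hj.symm, zero_mul]
    · intro h
      exact absurd (Finset.mem_univ _) h
  rw [Finset.sum_congr rfl fun a _ => h1 a, Finset.sum_const, Finset.card_univ, Fintype.card_fin,
    nsmul_eq_mul]

end GK11

/-- **K11.** -/
theorem typ_of : St_typ := by
  intro d Δ hG hI n k φ ι hA σ
  have hXm : Δ σ ∈ LieD Δ := fun M h1 _ => h1 σ
  have hX2 := hG.sq σ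
  have hbr : ∀ X ∈ LieD Δ, ∀ Y ∈ LieD Δ, X * Y - Y * X ∈ LieD Δ := fun X hX Y hY M h1 h2 =>
    h2 _ (hX M h1 h2) _ (hY M h1 h2)
  obtain ⟨X, hX⟩ : ∃ X, X = Δ σ := ⟨_, rfl⟩
  rw [← hX] at hXm hX2 ⊢
  have hn : 0 < n := by have := hA.k2; have := hA.kn; omega
  have hd : (d : ℂ) ≠ 0 := by
    have := hI.1
    exact_mod_cast this.ne'
  have hn' : (n : ℂ) ≠ 0 := by exact_mod_cast hn.ne'
  -- the cubic relation
  have hcubX : ∀ Z : Matrix (Fin d) (Fin d) ℂ, X * (X * (X * Z - Z * X) - (X * Z - Z * X) * X) -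
      (X * (X * Z - Z * X) - (X * Z - Z * X) * X) * X = (4 : ℂ) • (X * Z - Z * X) := by
    intro Z
    have h1 : X * (X * Z - Z * X) - (X * Z - Z * X) * X = (2 : ℂ) • (Z - X * Z * X) := by
      have h2 : X * (X * Z - Z * X) - (X * Z - Z * X) * X =
          (X * X) * Z - (2 : ℂ) • (X * Z * X) + Z * (X * X) := by
        rw [two_smul]
        noncomm_ring
      rw [h2, hX2, one_mul, mul_one, smul_sub, two_smul ℂ Z]
      abel
    rw [h1, Matrix.mul_smul, Matrix.smul_mul, ← smul_sub]
    have h3 : X * (Z - X * Z * X) - (Z - X * Z * X) * X =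
        X * Z - (X * X) * Z * X - Z * X + X * Z * (X * X) := by noncomm_ring
    rw [h3, hX2, one_mul, mul_one]
    have h4 : X * Z - Z * X - Z * X + X * Z = (2 : ℂ) • (X * Z - Z * X) := by
      rw [two_smul]
      abel
    rw [h4, smul_smul]
    norm_num
  have h4 : ∀ W : Matrix (Fin n) (Fin n) ℂ, φ X * (φ X * (φ X * W - W * φ X) -
      (φ X * W - W * φ X) * φ X) - (φ X * (φ X * W - W * φ X) - (φ X * W - W * φ X) * φ X) * φ X =
      (4 : ℂ) • (φ X * W - W * φ X) := by
    intro W
    obtain ⟨W₀, hW₀⟩ : ∃ W₀, W₀ = W - (trace W / n) • (1 : Matrix (Fin n) (Fin n) ℂ) := ⟨_, rfl⟩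
    have ht : trace W₀ = 0 := by
      rw [hW₀, trace_sub, trace_smul, trace_one, Fintype.card_fin, smul_eq_mul,
        div_mul_cancel₀ _ hn', sub_self]
    have hbW : φ X * W - W * φ X = φ X * W₀ - W₀ * φ X := by
      rw [hW₀, mul_sub, sub_mul, Matrix.mul_smul, Matrix.smul_mul, mul_one, one_mul]
      abel
    rw [hbW]
    obtain ⟨Z, hZ, hZW⟩ := hA.on W₀ ht
    have h1 := hA.br X hXm Z hZ
    have h2 := hA.br X hXm _ (hbr X hXm Z hZ)
    have h3 := hA.br X hXm _ (hbr X hXm _ (hbr X hXm Z hZ))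
    rw [hcubX Z, map_smul, h1, h2, h1] at h3
    rw [← hZW, ← h3]
  obtain ⟨y, P, hP, hY⟩ := GK11.split_Y hn h4
  obtain ⟨m, m', hm, hm', hmm, htr⟩ := GK11.rank_P hP
  have hy : (n : ℂ) * y + 2 * m = 0 := by
    have h1 := hA.tr X hXm
    rw [hY, trace_add, trace_smul, trace_smul, trace_one, Fintype.card_fin, htr, smul_eq_mul,
      smul_eq_mul] at h1
    linear_combination h1
  obtain ⟨τ, hτ⟩ : ∃ τ, τ = trace X / d := ⟨_, rfl⟩
  rw [← hτ]
  -- the scalar case
  have hscal : φ X = 0 → (∃ c : ℂ, (c = 1 ∨ c = -1) ∧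
      X = c • (1 : Matrix (Fin d) (Fin d) ℂ)) ∧ φ X = 0 := by
    intro h0
    refine ⟨?_, h0⟩
    have h1 : X = τ • (1 : Matrix (Fin d) (Fin d) ℂ) := by
      refine Matrix.toLin'.injective (LinearMap.ext fun v => ?_)
      rw [toLin'_apply, toLin'_apply, smul_mulVec, one_mulVec, ← sub_eq_zero]
      apply hA.inj
      rw [map_sub, map_smul, hA.eqv X hXm, h0, dm_zero, zero_mulVec, zero_add, hτ, sub_self]
    refine ⟨τ, ?_, h1⟩
    have h2 := hX2
    rw [h1, Matrix.smul_mul, Matrix.mul_smul, one_mul, smul_smul] at h2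
    have h3 := congrArg trace h2
    rw [trace_smul, trace_one, Fintype.card_fin, smul_eq_mul] at h3
    have h5 : τ * τ = 1 := mul_right_cancel₀ hd (h3.trans (one_mul _).symm)
    have h6 : (τ - 1) * (τ + 1) = 0 := by linear_combination h5
    rcases mul_eq_zero.1 h6 with h7 | h7
    · exact Or.inl (sub_eq_zero.1 h7)
    · exact Or.inr (eq_neg_of_add_eq_zero_left h7)
  -- the eigenvalues on exterior powers
  have hval : ∀ j i : ℕ, j ≤ m → i ≤ m' → j + i = k →
      (k * y + 2 * j + τ) * (k * y + 2 * j + τ) = 1 := by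
    intro j i hj hi hji
    subst hji
    obtain ⟨x, hx0, hxa, hx⟩ := GK11.eig_tensor hP (hm ▸ hj) (hm' ▸ hi)
    obtain ⟨v, hv⟩ := hA.sur x hxa
    have h1 : X *ᵥ v = (((j + i : ℕ) : ℂ) * y + 2 * j + τ) • v := by
      rw [← sub_eq_zero]
      apply hA.inj
      rw [map_sub, map_smul, hA.eqv X hXm, hv, hY, dm_add, dm_smul, dm_smul, add_mulVec,
        smul_mulVec, smul_mulVec, GK11.dm_one, hx, ← hτ, smul_smul, smul_smul, ← add_smul,
        ← add_smul, ← sub_smul]
      have h2 : y * ((j + i : ℕ) : ℂ) + 2 * (j : ℂ) + τ -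
          (((j + i : ℕ) : ℂ) * y + 2 * j + τ) = 0 := by ring
      rw [h2, zero_smul]
    have h2 : X *ᵥ (X *ᵥ v) = v := by rw [mulVec_mulVec, hX2, one_mulVec]
    rw [h1, mulVec_smul, h1, smul_smul] at h2
    have hv0 : v ≠ 0 := fun h => hx0 (by rw [← hv, h, map_zero])
    obtain ⟨a, ha⟩ := Function.ne_iff.1 hv0
    have h3 := congrFun h2 a
    rw [Pi.smul_apply, smul_eq_mul] at h3
    exact mul_right_cancel₀ ha (h3.trans (one_mul _).symm)
  have hpm : ∀ q : ℂ, q * q = 1 → q = 1 ∨ q = -1 := by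
    intro q hq
    have h6 : (q - 1) * (q + 1) = 0 := by linear_combination hq
    rcases mul_eq_zero.1 h6 with h7 | h7
    · exact Or.inl (sub_eq_zero.1 h7)
    · exact Or.inr (eq_neg_of_add_eq_zero_left h7)
  have hk2 := hA.k2
  have hkn := hA.kn
  by_cases hm0 : m = 0
  · left
    apply hscal
    have h1 : P = 0 := by
      rw [hm0] at hm
      have h2 : LinearMap.range (toLin' P) = ⊥ := Submodule.finrank_eq_zero.1 hm.symm
      rw [LinearMap.range_eq_bot] at h2
      exact (LinearEquiv.map_eq_zero_iff _).1 h2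
    rw [hm0, Nat.cast_zero, mul_zero, add_zero] at hy
    rw [hY, h1, (mul_eq_zero.1 hy).resolve_left hn', zero_smul, smul_zero, add_zero]
  by_cases hm0' : m' = 0
  · left
    apply hscal
    have h1 : P = 1 := by
      rw [hm0'] at hm'
      have h2 : LinearMap.ker (toLin' P) = ⊥ := Submodule.finrank_eq_zero.1 hm'.symm
      rw [LinearMap.ker_eq_bot] at h2
      refine Matrix.toLin'.injective (LinearMap.ext fun v => h2 ?_)
      rw [toLin'_apply, toLin'_apply, toLin'_apply, toLin'_apply, one_mulVec, mulVec_mulVec, hP]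
    have h2 : (n : ℂ) * (y + 2) = 0 := by
      have h3 : (m : ℂ) = n := by exact_mod_cast (by omega : m = n)
      rw [h3] at hy
      linear_combination hy
    have h3 : y + 2 = 0 := (mul_eq_zero.1 h2).resolve_left hn'
    rw [hY, h1, ← add_smul, h3, zero_smul]
  right
  by_cases hm1 : m = 1
  · -- the rank is one
    have e0 := hpm _ (hval 0 k (by omega) (by omega) (by omega))
    have e1 := hpm _ (hval 1 (k - 1) (by omega) (by omega) (by omega))
    rw [hm1, Nat.cast_one] at hy
    have hy' : y = -2 / n := by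
      field_simp
      linear_combination hy
    have hk : (k : ℂ) * y + τ = -1 := by
      push_cast at e0 e1
      rcases e0 with e0 | e0
      · exfalso
        rcases e1 with e1 | e1
        · have : (2 : ℂ) = 0 := by linear_combination e1 - e0
          norm_num at this
        · have : (4 : ℂ) = 0 := by linear_combination e1 - e0
          norm_num at this
      · linear_combination e0
    refine ⟨P, 1, hP, by rw [htr, hm1, Nat.cast_one], Or.inl rfl, ?_, ?_⟩
    · rw [hY, hy', Int.cast_one, one_smul]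
      rw [sub_eq_add_neg, ← neg_smul, add_comm]
      congr 2
      ring
    · rw [hy'] at hk
      push_cast
      linear_combination hk
  by_cases hm1' : m' = 1
  · have e0 := hpm _ (hval k 0 (by omega) (by omega) (by omega))
    have e1 := hpm _ (hval (k - 1) 1 (by omega) (by omega) (by omega))
    have hmc : (m : ℂ) = n - 1 := by
      have : ((m + 1 : ℕ) : ℂ) = n := by exact_mod_cast (by omega : m + 1 = n)
      push_cast at this
      linear_combination this
    have hkc : ((k - 1 : ℕ) : ℂ) = k - 1 := by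
      rw [Nat.cast_sub (by omega), Nat.cast_one]
    rw [hmc] at hy
    have hy' : y = -2 + 2 / n := by
      field_simp
      linear_combination hy
    rw [hkc] at e1
    have hk : (k : ℂ) * y + 2 * k + τ = 1 := by
      rcases e0 with e0 | e0
      · exact e0
      · exfalso
        rcases e1 with e1 | e1
        · have : (4 : ℂ) = 0 := by linear_combination e0 - e1
          norm_num at this
        · have : (2 : ℂ) = 0 := by linear_combination e0 - e1
          norm_num at this
    refine ⟨1 - P, -1, ?_, ?_, Or.inr rfl, ?_, ?_⟩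
    · have h1 : (1 - P) * (1 - P) = 1 - P - P + P * P := by noncomm_ring
      rw [h1, hP]
      abel
    · rw [trace_sub, trace_one, Fintype.card_fin, htr, hmc]
      ring
    · rw [hY, hy', smul_sub (2 : ℂ) 1 P]
      ext a b
      simp only [Matrix.add_apply, Matrix.sub_apply, Matrix.smul_apply, smul_eq_mul]
      push_cast
      ring
    · rw [hy'] at hk
      push_cast
      linear_combination hk
  · exfalso
    -- at least three values
    have hex : ∃ j i : ℕ, j + 2 ≤ m ∧ i + 2 ≤ m' ∧ j + (i + 2) = k := by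
      refine ⟨min (m - 2) (k - 2), k - 2 - min (m - 2) (k - 2), ?_, ?_, ?_⟩ <;> omega
    obtain ⟨j, i, hj, hi, hji⟩ := hex
    have e0 := hpm _ (hval j (i + 2) (by omega) (by omega) (by omega))
    have e1 := hpm _ (hval (j + 2) i (by omega) (by omega) (by omega))
    push_cast at e0 e1
    rcases e0 with e0 | e0 <;> rcases e1 with e1 | e1
    · have : (4 : ℂ) = 0 := by linear_combination e1 - e0
      norm_num at this
    · have : (6 : ℂ) = 0 := by linear_combination e1 - e0
      norm_num at this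
    · have : (2 : ℂ) = 0 := by linear_combination e1 - e0
      norm_num at this
    · have : (4 : ℂ) = 0 := by linear_combination e1 - e0
      norm_num at this

end

end Pool.Agent.NH32
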