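import Mathlib
import Pool.Agent.NH32.Wdg

/-!
# Project G, stage 2: alternating tensors in coordinates (for K12)
-/

set_option linter.unusedSectionVars false

namespace Pool.Agent.NH32

open Matrix Module

noncomputable section

namespace GK12

variable {n : ℕ} {j : ℕ}

/-- The subsets with `j` elements, in some order. -/
def sset (n j : ℕ) (a : Fin (n.choose j)) : {s : Finset (Fin n) // s.card = j} :=
  (Fintype.equivFinOfCardEq (by rw [Fintype.card_finset_len, Fintype.card_fin])).symm a

/-- The elements of the subset in increasing order. -/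
def od (a : Fin (n.choose j)) : Fin j ↪o Fin n := (sset n j a).1.orderEmbOfFin (sset n j a).2

theorem od_mem (a : Fin (n.choose j)) (k : Fin j) : od a k ∈ (sset n j a).1 :=
  Finset.orderEmbOfFin_mem _ _ _

theorem od_surj {a : Fin (n.choose j)} {x : Fin n} (hx : x ∈ (sset n j a).1) :
    ∃ k, od a k = x := by
  have h := Finset.range_orderEmbOfFin (sset n j a).1 (sset n j a).2
  have h1 : x ∈ Set.range (od a) := by
    rw [show Set.range (od a) = ((sset n j a).1 : Set (Fin n)) from h]
    exact hx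
  exact h1

theorem sset_inj {a b : Fin (n.choose j)} (h : (sset n j a).1 = (sset n j b).1) : a = b :=
  (Fintype.equivFinOfCardEq (by rw [Fintype.card_finset_len, Fintype.card_fin])).symm.injective
    (Subtype.ext h)

theorem sset_surj (s : Finset (Fin n)) (hs : s.card = j) :
    ∃ a : Fin (n.choose j), (sset n j a).1 = s := by
  obtain ⟨a, ha⟩ := (Fintype.equivFinOfCardEq (α := {s : Finset (Fin n) // s.card = j})
    (n := n.choose j) (by rw [Fintype.card_finset_len, Fintype.card_fin])).symm.surjective ⟨s, hs⟩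
  exact ⟨a, congrArg Subtype.val ha⟩

/-- The basis of the alternating tensors. -/
def PP (n j : ℕ) : Matrix (Fin j → Fin n) (Fin (n.choose j)) ℂ :=
  of fun I a => wd (fun l => (Pi.single (od a l) 1 : Fin n → ℂ)) I

/-- The coordinates. -/
def QQ (n j : ℕ) : Matrix (Fin (n.choose j)) (Fin j → Fin n) ℂ :=
  of fun a I => if I = od a then 1 else 0

theorem PP_apply (I : Fin j → Fin n) (a : Fin (n.choose j)) :
    PP n j I a = det (of fun k l => if I k = od a l then (1 : ℂ) else 0) := by
  change det _ = det _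
  congr 1
  ext k l
  change (Pi.single (od a l) 1 : Fin n → ℂ) (I k) = _
  rw [of_apply, Pi.single_apply]

theorem QQ_mul {m : Type*} (M : Matrix (Fin j → Fin n) m ℂ) (a : Fin (n.choose j)) (b : m) :
    (QQ n j * M) a b = M (od a) b := by
  rw [Matrix.mul_apply]
  simp [QQ]

theorem QQ_mulVec (x : (Fin j → Fin n) → ℂ) (a : Fin (n.choose j)) :
    (QQ n j *ᵥ x) a = x (od a) := by
  rw [mvA]
  simp [QQ]

theorem QQ_PP : QQ n j * PP n j = 1 := by
  ext a b
  rw [QQ_mul, PP_apply]
  by_cases h : a = b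
  · subst h
    rw [Matrix.one_apply_eq]
    have h1 : (of fun k l => if od a k = od a l then (1 : ℂ) else 0) = (1 : Matrix (Fin j) (Fin j) ℂ) := by
      ext k l
      rw [of_apply, Matrix.one_apply]
      simp only [EmbeddingLike.apply_eq_iff_eq]
    rw [h1, det_one]
  · rw [Matrix.one_apply_ne h]
    have h1 : ∃ k, od a k ∉ (sset n j b).1 := by
      by_contra hcon
      push Not at hcon
      apply h
      apply sset_inj
      apply Finset.eq_of_subset_of_card_le
      · intro x hx
        obtain ⟨k, rfl⟩ := od_surj hx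
        exact hcon k
      · rw [(sset n j a).2, (sset n j b).2]
    obtain ⟨k, hk⟩ := h1
    apply det_eq_zero_of_row_eq_zero k
    intro l
    rw [of_apply, if_neg]
    intro h2
    apply hk
    rw [h2]
    exact od_mem b l

theorem PP_alt (a : Fin (n.choose j)) : IsAlt (fun I => PP n j I a) := wd_alt _

theorem alt_sum {ι : Type*} (s : Finset ι) (f : ι → (Fin j → Fin n) → ℂ)
    (h : ∀ i ∈ s, IsAlt (f i)) : IsAlt (∑ i ∈ s, f i) := by
  classical
  induction s using Finset.induction_on with
  | empty => rw [Finset.sum_empty]; exact IsAlt.zero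
  | insert i s hi ih =>
    rw [Finset.sum_insert hi]
    exact (h i (Finset.mem_insert_self _ _)).add
      (ih fun i' hi' => h i' (Finset.mem_insert_of_mem hi'))

theorem PP_mulVec_alt (y : Fin (n.choose j) → ℂ) : IsAlt (PP n j *ᵥ y) := by
  have h : PP n j *ᵥ y = ∑ a, y a • fun I => PP n j I a := by
    funext I
    rw [mvA, Finset.sum_apply]
    refine Finset.sum_congr rfl fun a _ => ?_
    rw [Pi.smul_apply, smul_eq_mul, mul_comm]
  rw [h]
  exact alt_sum _ _ fun a _ => (PP_alt a).smul _

/-- Alternating tensors are determined by their coordinates. -/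
theorem alt_ext {x : (Fin j → Fin n) → ℂ} (hx : IsAlt x)
    (h : ∀ a : Fin (n.choose j), x (od a) = 0) : x = 0 := by
  funext I
  rw [Pi.zero_apply]
  by_cases hI : Function.Injective I
  · obtain ⟨a, ha⟩ := sset_surj (Finset.univ.image I)
      (by rw [Finset.card_image_of_injective _ hI, Finset.card_fin])
    have h1 : ∀ k, ∃ l, od a l = I k := by
      intro k
      apply od_surj
      rw [ha]
      exact Finset.mem_image_of_mem _ (Finset.mem_univ _)
    choose f hf using h1
    have h2 : Function.Injective f := by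
      intro k l hkl
      apply hI
      rw [← hf, ← hf, hkl]
    have h3 := hx (Equiv.ofBijective f (Finite.injective_iff_bijective.1 h2)) (od a)
    have h4 : (fun k => od a ((Equiv.ofBijective f (Finite.injective_iff_bijective.1 h2)) k)) =
        I := by
      funext k
      exact hf k
    rw [h4, h, mul_zero] at h3
    exact h3
  · rw [Function.Injective] at hI
    push Not at hI
    obtain ⟨k, l, h1, h2⟩ := hI
    exact hx.eq_zero h2 h1

theorem PQ_alt {x : (Fin j → Fin n) → ℂ} (hx : IsAlt x) : PP n j *ᵥ (QQ n j *ᵥ x) = x := by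
  have h1 : IsAlt (PP n j *ᵥ (QQ n j *ᵥ x) + (-1 : ℂ) • x) :=
    (PP_mulVec_alt _).add (hx.smul _)
  have h2 := alt_ext h1 (fun a => by
    have h3 : (QQ n j *ᵥ (PP n j *ᵥ (QQ n j *ᵥ x) + (-1 : ℂ) • x)) a = 0 := by
      rw [mulVec_add, mulVec_mulVec, QQ_PP, one_mulVec, mulVec_smul, neg_one_smul, add_neg_cancel]
      rfl
    rwa [QQ_mulVec] at h3)
  rw [neg_one_smul] at h2
  exact add_neg_eq_zero.1 h2

theorem PQ_mul {m : Type*} [Fintype m] [DecidableEq m] {M : Matrix (Fin j → Fin n) m ℂ}
    (h : ∀ b, IsAlt fun I => M I b) : PP n j * (QQ n j * M) = M := by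
  ext I b
  have h1 := congrFun (PQ_alt (h b)) I
  have h2 : (fun a => (QQ n j * M) a b) = QQ n j *ᵥ (fun I => M I b) := by
    funext a
    rw [QQ_mul, QQ_mulVec]
  rw [← h2] at h1
  exact h1

variable (j) in
/-- The action on alternating tensors. -/
def RR (Y : Matrix (Fin n) (Fin n) ℂ) : Matrix (Fin (n.choose j)) (Fin (n.choose j)) ℂ :=
  QQ n j * (dm (Fin j) Y * PP n j)

theorem PP_RR (Y : Matrix (Fin n) (Fin n) ℂ) : PP n j * RR j Y = dm (Fin j) Y * PP n j := by
  unfold RR
  rw [PQ_mul]
  intro b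
  exact (PP_alt b).dm Y

theorem RR_add (X Y : Matrix (Fin n) (Fin n) ℂ) : RR j (X + Y) = RR j X + RR j Y := by
  unfold RR
  rw [dm_add, Matrix.add_mul, Matrix.mul_add]

theorem RR_smul (a : ℂ) (X : Matrix (Fin n) (Fin n) ℂ) : RR j (a • X) = a • RR j X := by
  unfold RR
  rw [dm_smul, Matrix.smul_mul, Matrix.mul_smul]

theorem RR_sub (X Y : Matrix (Fin n) (Fin n) ℂ) : RR j (X - Y) = RR j X - RR j Y := by
  unfold RR
  rw [dm_sub, Matrix.sub_mul, Matrix.mul_sub]

theorem RR_neg (X : Matrix (Fin n) (Fin n) ℂ) : RR j (-X) = -RR j X := by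
  unfold RR
  rw [dm_neg, Matrix.neg_mul, Matrix.mul_neg]

theorem RR_zero : RR j (0 : Matrix (Fin n) (Fin n) ℂ) = 0 := by
  unfold RR
  rw [dm_zero, Matrix.zero_mul, Matrix.mul_zero]

variable (n j) in
/-- The action on alternating tensors as a linear map. -/
def RRL : Matrix (Fin n) (Fin n) ℂ →ₗ[ℂ] Matrix (Fin (n.choose j)) (Fin (n.choose j)) ℂ where
  toFun := RR j
  map_add' := RR_add
  map_smul' := RR_smul

theorem RR_mul (X Y : Matrix (Fin n) (Fin n) ℂ) :
    RR j X * RR j Y = QQ n j * (dm (Fin j) X * dm (Fin j) Y * PP n j) := by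
  conv_lhs => rw [RR, Matrix.mul_assoc, Matrix.mul_assoc, PP_RR]
  rw [Matrix.mul_assoc]

theorem RR_bracket (X Y : Matrix (Fin n) (Fin n) ℂ) :
    RR j (X * Y - Y * X) = RR j X * RR j Y - RR j Y * RR j X := by
  rw [RR_mul, RR_mul, ← Matrix.mul_sub, ← Matrix.sub_mul, ← dm_bracket]
  rfl

theorem dm_one : dm (Fin j) (1 : Matrix (Fin n) (Fin n) ℂ) = (j : ℂ) • 1 := by
  unfold dm kd
  have h : ∀ k : Fin j, kpp (Function.update (fun _ : Fin j => (1 : Matrix (Fin n) (Fin n) ℂ)) k 1) =
      1 := by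
    intro k
    have h1 : Function.update (fun _ : Fin j => (1 : Matrix (Fin n) (Fin n) ℂ)) k 1 =
        fun _ => 1 := Function.update_eq_self k _
    rw [h1, kpp_one]
  rw [Finset.sum_congr rfl fun k _ => h k, Finset.sum_const, Finset.card_fin]
  rw [← Nat.cast_smul_eq_nsmul ℂ]

theorem RR_one : RR j (1 : Matrix (Fin n) (Fin n) ℂ) = (j : ℂ) • 1 := by
  unfold RR
  rw [dm_one, Matrix.smul_mul, Matrix.mul_smul, Matrix.one_mul, QQ_PP]

theorem dm_map (ρ : ℂ ≃+* ℂ) (Y : Matrix (Fin n) (Fin n) ℂ) :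
    (dm (Fin j) Y).map ρ = dm (Fin j) (Y.map ρ) := by
  ext I J
  unfold dm kd
  rw [map_apply, Matrix.sum_apply, Matrix.sum_apply, map_sum]
  refine Finset.sum_congr rfl fun k _ => ?_
  rw [kpp_apply, kpp_apply, map_prod]
  refine Finset.prod_congr rfl fun l _ => ?_
  by_cases h : l = k
  · subst h
    rw [Function.update_self, Function.update_self, map_apply]
  · rw [Function.update_of_ne h, Function.update_of_ne h, Matrix.one_apply]
    split_ifs
    · exact map_one ρ
    · exact map_zero ρ

theorem PP_map (ρ : ℂ ≃+* ℂ) : (PP n j).map ρ = PP n j := by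
  ext I a
  rw [map_apply, PP_apply]
  have h := RingHom.map_det (ρ : ℂ →+* ℂ) (of fun k l => if I k = od a l then (1 : ℂ) else 0)
  rw [show ρ (det (of fun k l => if I k = od a l then (1 : ℂ) else 0)) =
    (ρ : ℂ →+* ℂ) (det (of fun k l => if I k = od a l then (1 : ℂ) else 0)) from rfl, h]
  congr 1
  ext k l
  rw [RingHom.mapMatrix_apply, map_apply, of_apply]
  split_ifs
  · exact map_one ρ
  · exact map_zero ρ

theorem QQ_map (ρ : ℂ ≃+* ℂ) : (QQ n j).map ρ = QQ n j := by
  ext a I
  rw [map_apply]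
  unfold QQ
  rw [of_apply]
  split_ifs
  · exact map_one ρ
  · exact map_zero ρ

theorem RR_map (ρ : ℂ ≃+* ℂ) (Y : Matrix (Fin n) (Fin n) ℂ) :
    (RR j Y).map ρ = RR j (Y.map ρ) := by
  unfold RR
  rw [Matrix.map_mul, Matrix.map_mul, PP_map, QQ_map, dm_map]

section rank1

/-- Idempotents of trace one. -/
theorem rank1 {U : Matrix (Fin n) (Fin n) ℂ} (hU : U * U = U) (ht : trace U = 1) :
    ∃ u v : Fin n → ℂ, (∀ a b, U a b = u a * v b) ∧ ∑ a, v a * u a = 1 := by
  have h1 : LinearMap.IsProj (LinearMap.range (toLin' U)) (toLin' U) := by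
    refine ⟨fun x => ⟨x, rfl⟩, ?_⟩
    rintro _ ⟨x, rfl⟩
    rw [toLin'_apply, toLin'_apply, mulVec_mulVec, hU]
  have h2 := h1.trace
  rw [Matrix.trace_toLin'_eq, ht] at h2
  have h3 : finrank ℂ (LinearMap.range (toLin' U)) = 1 := by exact_mod_cast h2.symm
  obtain ⟨u, -, hu⟩ := finrank_eq_one_iff'.1 h3
  have h4 : ∀ b, ∃ c : ℂ, c • (u : Fin n → ℂ) = U *ᵥ Pi.single b 1 := by
    intro b
    obtain ⟨c, hc⟩ := hu ⟨U *ᵥ Pi.single b 1, ⟨Pi.single b 1, by rw [toLin'_apply]⟩⟩
    exact ⟨c, congrArg Subtype.val hc⟩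
  choose v hv using h4
  have h5 : ∀ a b, U a b = (u : Fin n → ℂ) a * v b := by
    intro a b
    have h6 := congrFun (hv b) a
    rw [mulVec_single_one] at h6
    rw [Pi.smul_apply, smul_eq_mul, mul_comm] at h6
    exact h6.symm
  refine ⟨u, v, h5, ?_⟩
  rw [← ht]
  unfold trace
  refine Finset.sum_congr rfl fun a _ => ?_
  rw [diag_apply, h5, mul_comm]

theorem alt_swap {x : (Fin j → Fin n) → ℂ} (hx : IsAlt x) (I : Fin j → Fin n) {k l : Fin j}
    (hkl : l ≠ k) (b c : Fin n) : x (Function.update (Function.update I k b) l c) =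
      -x (Function.update (Function.update I k c) l b) := by
  have h1 := hx (Equiv.swap k l) (Function.update (Function.update I k c) l b)
  rw [Equiv.Perm.sign_swap hkl.symm] at h1
  have h2 : (fun a => Function.update (Function.update I k c) l b (Equiv.swap k l a)) =
      Function.update (Function.update I k b) l c := by
    funext a
    by_cases ha : a = k
    · subst ha
      rw [Equiv.swap_apply_left, Function.update_self, Function.update_of_ne hkl.symm,
        Function.update_self]
    · by_cases ha' : a = l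
      · subst ha'
        rw [Equiv.swap_apply_right, Function.update_self, Function.update_of_ne hkl.symm,
          Function.update_self]
      · rw [Equiv.swap_apply_of_ne_of_ne ha ha', Function.update_of_ne ha',
          Function.update_of_ne ha, Function.update_of_ne ha', Function.update_of_ne ha]
  rw [h2] at h1
  rw [h1]
  push_cast
  ring

theorem dm_sq {U : Matrix (Fin n) (Fin n) ℂ} {u v : Fin n → ℂ} (h : ∀ a b, U a b = u a * v b)
    (h1 : ∑ a, v a * u a = 1) {x : (Fin j → Fin n) → ℂ} (hx : IsAlt x) :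
    dm (Fin j) U *ᵥ (dm (Fin j) U *ᵥ x) = dm (Fin j) U *ᵥ x := by
  funext I
  rw [dm_mulVec_apply, dm_mulVec_apply]
  refine Finset.sum_congr rfl fun k _ => ?_
  have h2 : ∀ b, (dm (Fin j) U *ᵥ x) (Function.update I k b) =
      (u b * ∑ c, v c * x (Function.update I k c)) +
      ∑ l ∈ Finset.univ.erase k, u (I l) *
        ∑ c, v c * x (Function.update (Function.update I k b) l c) := by
    intro b
    rw [dm_mulVec_apply, ← Finset.add_sum_erase _ _ (Finset.mem_univ k), Function.update_self]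
    congr 1
    · rw [Finset.mul_sum]
      refine Finset.sum_congr rfl fun c _ => ?_
      rw [Function.update_idem, h, mul_assoc]
    · refine Finset.sum_congr rfl fun l hl => ?_
      rw [Finset.mul_sum]
      refine Finset.sum_congr rfl fun c _ => ?_
      rw [Function.update_of_ne (Finset.ne_of_mem_erase hl), h, mul_assoc]
  have h3 : ∀ l ∈ Finset.univ.erase k, ∑ b, v b * ∑ c, v c *
      x (Function.update (Function.update I k b) l c) = 0 := by
    intro l hl
    have h4 : ∑ b, v b * ∑ c, v c * x (Function.update (Function.update I k b) l c) =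
        -∑ b, v b * ∑ c, v c * x (Function.update (Function.update I k b) l c) := by
      conv_lhs =>
        enter [2, b]
        rw [Finset.mul_sum]
      rw [Finset.sum_comm, ← Finset.sum_neg_distrib]
      refine Finset.sum_congr rfl fun c _ => ?_
      rw [Finset.mul_sum, ← Finset.sum_neg_distrib]
      refine Finset.sum_congr rfl fun b _ => ?_
      rw [alt_swap hx I (Finset.ne_of_mem_erase hl) b c]
      ring
    have h5 : (2 : ℂ) * ∑ b, v b * ∑ c, v c *
        x (Function.update (Function.update I k b) l c) = 0 := by linear_combination h4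
    exact (mul_eq_zero.1 h5).resolve_left two_ne_zero
  have h6 : ∑ b, U (I k) b * (dm (Fin j) U *ᵥ x) (Function.update I k b) =
      u (I k) * ((∑ b, v b * u b) * ∑ c, v c * x (Function.update I k c)) +
      u (I k) * ∑ l ∈ Finset.univ.erase k, u (I l) * ∑ b, v b * ∑ c, v c *
        x (Function.update (Function.update I k b) l c) := by
    simp only [h2, h]
    rw [Finset.sum_mul, Finset.mul_sum, Finset.mul_sum]
    have h7 : ∀ l ∈ Finset.univ.erase k, u (I k) * (u (I l) * ∑ b, v b * ∑ c, v c *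
        x (Function.update (Function.update I k b) l c)) = ∑ b, u (I k) * v b * (u (I l) *
        ∑ c, v c * x (Function.update (Function.update I k b) l c)) := by
      intro l _
      rw [Finset.mul_sum, Finset.mul_sum]
      refine Finset.sum_congr rfl fun b _ => ?_
      ring
    rw [Finset.sum_congr rfl h7, Finset.sum_comm, ← Finset.sum_add_distrib]
    refine Finset.sum_congr rfl fun b _ => ?_
    rw [mul_add, Finset.mul_sum (Finset.univ.erase k)]
    ring
  have h8 : ∑ l ∈ Finset.univ.erase k, u (I l) * ∑ b, v b * ∑ c, v c *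
      x (Function.update (Function.update I k b) l c) = 0 :=
    Finset.sum_eq_zero fun l hl => by rw [h3 l hl, mul_zero]
  rw [h6, h1, one_mul, h8, mul_zero, add_zero, Finset.mul_sum]
  refine Finset.sum_congr rfl fun c _ => ?_
  rw [h, mul_assoc]

theorem RR_sq {U : Matrix (Fin n) (Fin n) ℂ} (hU : U * U = U) (ht : trace U = 1) :
    RR j U * RR j U = RR j U := by
  obtain ⟨u, v, h, h1⟩ := rank1 hU ht
  rw [RR_mul]
  conv_rhs => rw [RR]
  congr 1
  ext I b
  have h2 := congrFun (dm_sq h h1 (PP_alt (n := n) (j := j) b)) I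
  rw [mulVec_mulVec] at h2
  exact h2

end rank1

section unitary

open scoped ComplexOrder MatrixOrder

theorem exists_sqrt {m : Type*} [Fintype m] [DecidableEq m] {H : Matrix m m ℂ} (hH : H.PosDef) :
    ∃ y : Matrix m m ℂ, IsUnit y ∧ H = star y * y :=
  CStarAlgebra.isStrictlyPositive_iff_eq_star_mul_self.mp hH.isStrictlyPositive

theorem kp_posDef {S : Matrix (Fin n) (Fin n) ℂ} (hS : S.PosDef) : (kp (Fin j) S).PosDef := by
  obtain ⟨y, ⟨z, hz⟩, hy⟩ := exists_sqrt hS
  have h1 : kp (Fin j) S = (kp (Fin j) y)ᴴ * kp (Fin j) y := by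
    rw [kp_conjTranspose, ← kp_mul, hy]
    rfl
  rw [h1]
  apply PosDef.conjTranspose_mul_self
  intro a b hab
  have h2 : kp (Fin j) ((z⁻¹ : (Matrix (Fin n) (Fin n) ℂ)ˣ) : Matrix (Fin n) (Fin n) ℂ) *
      kp (Fin j) y = 1 := by
    rw [← kp_mul, ← hz, Units.inv_mul, kp_one]
  have h3 := congrArg (fun t => kp (Fin j) ((z⁻¹ : (Matrix (Fin n) (Fin n) ℂ)ˣ) :
    Matrix (Fin n) (Fin n) ℂ) *ᵥ t) hab
  beta_reduce at h3
  rwa [mulVec_mulVec, mulVec_mulVec, h2, one_mulVec, one_mulVec] at h3

/-- The form on alternating tensors. -/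
def SS (j : ℕ) (S : Matrix (Fin n) (Fin n) ℂ) :
    Matrix (Fin (n.choose j)) (Fin (n.choose j)) ℂ := (PP n j)ᴴ * kp (Fin j) S * PP n j

theorem SS_posDef {S : Matrix (Fin n) (Fin n) ℂ} (hS : S.PosDef) : (SS j S).PosDef := by
  apply (kp_posDef hS).conjTranspose_mul_mul_same
  intro a b hab
  have h3 := congrArg (fun t => QQ n j *ᵥ t) hab
  beta_reduce at h3
  rwa [mulVec_mulVec, mulVec_mulVec, QQ_PP, one_mulVec, one_mulVec] at h3

theorem RR_adj {S Y Y' : Matrix (Fin n) (Fin n) ℂ} (h : Yᴴ * S = S * Y') :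
    (RR j Y)ᴴ * SS j S = SS j S * RR j Y' := by
  have h1 : kp (Fin j) S * dm (Fin j) Y' = (dm (Fin j) Y)ᴴ * kp (Fin j) S := by
    rw [dm_conjTranspose]
    exact kp_mul_dm h.symm
  unfold SS
  calc (RR j Y)ᴴ * ((PP n j)ᴴ * kp (Fin j) S * PP n j)
      = ((RR j Y)ᴴ * (PP n j)ᴴ) * kp (Fin j) S * PP n j := by simp only [Matrix.mul_assoc]
    _ = (PP n j)ᴴ * ((dm (Fin j) Y)ᴴ * kp (Fin j) S) * PP n j := by
      rw [← conjTranspose_mul, PP_RR, conjTranspose_mul]
      simp only [Matrix.mul_assoc]
    _ = (PP n j)ᴴ * kp (Fin j) S * (dm (Fin j) Y' * PP n j) := by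
      rw [← h1]
      simp only [Matrix.mul_assoc]
    _ = (PP n j)ᴴ * kp (Fin j) S * PP n j * RR j Y' := by
      rw [← PP_RR]
      simp only [Matrix.mul_assoc]

end unitary

section contr

/-- Contraction of the first index. -/
def CC (a : Fin n) (x : (Fin (j + 1) → Fin n) → ℂ) : (Fin j → Fin n) → ℂ :=
  fun I => x (Fin.cons a I)

theorem CC_add (a : Fin n) (x y : (Fin (j + 1) → Fin n) → ℂ) : CC a (x + y) = CC a x + CC a y :=
  rfl

theorem CC_smul (a : Fin n) (c : ℂ) (x : (Fin (j + 1) → Fin n) → ℂ) :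
    CC a (c • x) = c • CC a x := rfl

theorem CC_alt (a : Fin n) {x : (Fin (j + 1) → Fin n) → ℂ} (hx : IsAlt x) : IsAlt (CC a x) := by
  intro σ I
  unfold CC
  have h1 := hx (Equiv.Perm.decomposeFin.symm (0, σ)) (Fin.cons a I : Fin (j + 1) → Fin n)
  have h2 : (fun k => (Fin.cons a I : Fin (j + 1) → Fin n)
      (Equiv.Perm.decomposeFin.symm (0, σ) k)) = Fin.cons a (fun k => I (σ k)) := by
    funext k
    refine Fin.cases ?_ (fun k => ?_) k
    · rw [Equiv.Perm.decomposeFin_symm_apply_zero, Fin.cons_zero, Fin.cons_zero]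
    · rw [Equiv.Perm.decomposeFin_symm_apply_succ, Equiv.swap_self, Equiv.refl_apply,
        Fin.cons_succ, Fin.cons_succ]
  rw [h2, Equiv.Perm.decomposeFin.symm_sign, if_pos rfl, one_mul] at h1
  exact h1

/-- The action and contractions. -/
theorem CC_dm (a : Fin n) (Y : Matrix (Fin n) (Fin n) ℂ) (x : (Fin (j + 1) → Fin n) → ℂ) :
    CC a (dm (Fin (j + 1)) Y *ᵥ x) = (∑ b, Y a b • CC b x) + dm (Fin j) Y *ᵥ CC a x := by
  funext I
  rw [Pi.add_apply, Finset.sum_apply, dm_mulVec_apply]
  unfold CC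
  rw [dm_mulVec_apply, Fin.sum_univ_succ]
  congr 1
  · refine Finset.sum_congr rfl fun b _ => ?_
    rw [Fin.cons_zero, Fin.update_cons_zero]
    rfl
  · refine Finset.sum_congr rfl fun k _ => Finset.sum_congr rfl fun b _ => ?_
    rw [Fin.cons_succ, ← Fin.cons_update]

theorem CC_ne {x : (Fin (j + 1) → Fin n) → ℂ} (hx : x ≠ 0) : ∃ a, CC a x ≠ 0 := by
  by_contra hcon
  push Not at hcon
  apply hx
  funext I
  have h1 := congrFun (hcon (I 0)) (fun k => I k.succ)
  unfold CC at h1
  have h2 : (Fin.cons (I 0) (fun k : Fin j => I k.succ) : Fin (j + 1) → Fin n) = I :=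
    Fin.cons_self_tail I
  rw [h2] at h1
  exact h1

end contr

section alg

/-- The field of algebraic numbers. -/
abbrev AQ : IntermediateField ℚ ℂ := algebraicClosure ℚ ℂ

theorem PP_alg (I : Fin j → Fin n) (a : Fin (n.choose j)) : PP n j I a ∈ AQ := by
  rw [PP_apply, det_apply]
  refine sum_mem fun σ _ => ?_
  rw [Units.smul_def, zsmul_eq_mul]
  refine mul_mem (intCast_mem _ _) (prod_mem fun k _ => ?_)
  rw [of_apply]
  split_ifs
  · exact one_mem _
  · exact zero_mem _

theorem QQ_alg (a : Fin (n.choose j)) (I : Fin j → Fin n) : QQ n j a I ∈ AQ := by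
  unfold QQ
  rw [of_apply]
  split_ifs
  · exact one_mem _
  · exact zero_mem _

theorem RR_alg {Y : Matrix (Fin n) (Fin n) ℂ} (hY : ∀ a b, IsAlgebraic ℚ (Y a b))
    (a b : Fin (n.choose j)) : IsAlgebraic ℚ (RR j Y a b) := by
  rw [← mem_algebraicClosure_iff]
  unfold RR
  rw [Matrix.mul_apply]
  refine sum_mem fun I _ => mul_mem (QQ_alg _ _) ?_
  rw [Matrix.mul_apply]
  refine sum_mem fun J _ => mul_mem ?_ (PP_alg _ _)
  unfold dm kd
  rw [Matrix.sum_apply]
  refine sum_mem fun k _ => ?_
  rw [kpp_apply]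
  refine prod_mem fun l _ => ?_
  by_cases h : l = k
  · subst h
    rw [Function.update_self]
    exact mem_algebraicClosure_iff.2 (hY _ _)
  · rw [Function.update_of_ne h, Matrix.one_apply]
    split_ifs
    · exact one_mem _
    · exact zero_mem _

end alg

section nums

theorem choose_gt {n k : ℕ} (hk : 2 ≤ k) (hn : k + 2 ≤ n) : n < n.choose k := by
  induction n generalizing k with
  | zero => omega
  | succ n ih =>
    obtain ⟨k, rfl⟩ : ∃ i, k = i + 1 := ⟨k - 1, by omega⟩
    rw [Nat.choose_succ_succ']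
    by_cases h : k + 1 + 2 ≤ n
    · have h1 := ih hk h
      have h2 : 0 < n.choose k := Nat.choose_pos (by omega)
      omega
    · by_cases h3 : 2 ≤ k
      · have h1 := ih h3 (by omega)
        have h2 : 0 < n.choose (k + 1) := Nat.choose_pos (by omega)
        omega
      · have h4 : k = 1 := by omega
        have h5 : n = 3 := by omega
        subst h4 h5
        decide

theorem choose_lt_up {n j : ℕ} (h : 2 * (j + 1) ≤ n) : n.choose j < n.choose (j + 1) := by
  have h1 := Nat.choose_succ_right_eq n j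
  have h2 : 0 < n.choose j := Nat.choose_pos (by omega)
  have h3 : j + 1 < n - j := by omega
  have h4 : n.choose j * (j + 1) < n.choose (j + 1) * (j + 1) := by
    rw [h1]
    exact Nat.mul_lt_mul_of_pos_left h3 h2
  exact lt_of_mul_lt_mul_right h4 (Nat.zero_le _)

theorem choose_lt_down {n k : ℕ} (hk : k ≤ n) (h : n < 2 * k) : n.choose (k + 1) < n.choose k := by
  have h1 := Nat.choose_succ_right_eq n k
  have h2 : 0 < n.choose k := Nat.choose_pos hk
  have h3 : n - k < k + 1 := by omega
  have h4 : n.choose (k + 1) * (k + 1) < n.choose k * (k + 1) := by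
    rw [h1]
    exact Nat.mul_lt_mul_of_pos_left h3 h2
  exact lt_of_mul_lt_mul_right h4 (Nat.zero_le _)

end nums

end GK12

end

end Pool.Agent.NH32
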