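import Mathlib
import Pool.Agent.NH32.GtB

/-!
# Project G, stage 2, K9: new good families
-/

set_option linter.unusedSectionVars false

namespace Pool.Agent.NH32

open Matrix Module
open scoped ComplexOrder

noncomputable section

namespace GK9

/-! ### number fields in `ℂ` -/

theorem fd_sub (K : Subfield ℂ) (E : IntermediateField ℚ ℂ) (hE : FiniteDimensional ℚ E)
    (h : ∀ x ∈ K, x ∈ E) : FiniteDimensional ℚ K := by
  let f : K →+ E :=
    { toFun := fun x => ⟨x, h x x.2⟩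
      map_zero' := rfl
      map_add' := fun _ _ => rfl }
  have hf : Function.Injective f.toRatLinearMap := by
    intro a b hab
    have h1 := congrArg (fun z : E => (z : ℂ)) hab
    exact Subtype.ext h1
  exact Module.Finite.of_injective f.toRatLinearMap hf

theorem fd_int (K : Subfield ℂ) (hK : FiniteDimensional ℚ K) (E : IntermediateField ℚ ℂ)
    (h : ∀ x ∈ E, x ∈ K) : FiniteDimensional ℚ E := by
  let f : E →+ K :=
    { toFun := fun x => ⟨x, h x x.2⟩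
      map_zero' := rfl
      map_add' := fun _ _ => rfl }
  have hf : Function.Injective f.toRatLinearMap := by
    intro a b hab
    have h1 := congrArg (fun z : K => (z : ℂ)) hab
    exact Subtype.ext h1
  exact Module.Finite.of_injective f.toRatLinearMap hf

/-- the intermediate field -/
def toI (K : Subfield ℂ) : IntermediateField ℚ ℂ :=
  K.toIntermediateField fun x => by
    rw [eq_ratCast]
    exact SubfieldClass.ratCast_mem K x

theorem mem_toI {K : Subfield ℂ} {x : ℂ} : x ∈ toI K ↔ x ∈ K := Iff.rfl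

/-- number fields containing two given ones and a finite set of algebraic numbers -/
theorem exists_sup (K₁ K₂ : Subfield ℂ) (h1 : FiniteDimensional ℚ K₁)
    (h2 : FiniteDimensional ℚ K₂) (F : Set ℂ) (hF : F.Finite) (hFa : ∀ x ∈ F, IsAlgebraic ℚ x) :
    ∃ K : Subfield ℂ, FiniteDimensional ℚ K ∧ (∀ x ∈ K₁, x ∈ K) ∧ (∀ x ∈ K₂, x ∈ K) ∧
      ∀ x ∈ F, x ∈ K := by
  have e1 : FiniteDimensional ℚ (toI K₁) := fd_int K₁ h1 _ fun x hx => hx
  have e2 : FiniteDimensional ℚ (toI K₂) := fd_int K₂ h2 _ fun x hx => hx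
  have e3 : FiniteDimensional ℚ (IntermediateField.adjoin ℚ F) := by
    have : Finite F := hF
    exact IntermediateField.finiteDimensional_adjoin fun x hx => (hFa x hx).isIntegral
  have e4 : FiniteDimensional ℚ (toI K₁ ⊔ toI K₂ : IntermediateField ℚ ℂ) :=
    IntermediateField.finiteDimensional_sup _ _
  have e5 : FiniteDimensional ℚ
      (toI K₁ ⊔ toI K₂ ⊔ IntermediateField.adjoin ℚ F : IntermediateField ℚ ℂ) :=
    IntermediateField.finiteDimensional_sup _ _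
  refine ⟨(toI K₁ ⊔ toI K₂ ⊔ IntermediateField.adjoin ℚ F : IntermediateField ℚ ℂ).toSubfield,
    fd_sub _ _ e5 fun x hx => hx, fun x hx => ?_, fun x hx => ?_, fun x hx => ?_⟩
  · have h3 : toI K₁ ≤ toI K₁ ⊔ toI K₂ ⊔ IntermediateField.adjoin ℚ F :=
      le_sup_left.trans le_sup_left
    exact h3 (mem_toI.2 hx)
  · have h3 : toI K₂ ≤ toI K₁ ⊔ toI K₂ ⊔ IntermediateField.adjoin ℚ F :=
      le_sup_right.trans le_sup_left
    exact h3 (mem_toI.2 hx)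
  · have h3 : IntermediateField.adjoin ℚ F ≤ toI K₁ ⊔ toI K₂ ⊔ IntermediateField.adjoin ℚ F :=
      le_sup_right
    exact h3 (IntermediateField.subset_adjoin _ _ hx)

theorem fd_map (K : Subfield ℂ) (hK : FiniteDimensional ℚ K) (ρ : ℂ ≃+* ℂ) :
    FiniteDimensional ℚ (K.map (ρ : ℂ →+* ℂ)) := by
  let f : (K.map (ρ : ℂ →+* ℂ)) →+ K :=
    { toFun := fun x => ⟨ρ.symm x, by
        obtain ⟨y, hy, hyx⟩ := x.2
        have h1 : ρ y = x := hyx
        rw [← h1, RingEquiv.symm_apply_apply]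
        exact hy⟩
      map_zero' := by
        apply Subtype.ext
        exact map_zero ρ.symm
      map_add' := fun a b => by
        apply Subtype.ext
        exact map_add ρ.symm a.1 b.1 }
  have hf : Function.Injective f.toRatLinearMap := by
    intro a b hab
    have h1 := congrArg (fun z : K => (z : ℂ)) hab
    have h2 : ρ.symm a.1 = ρ.symm b.1 := h1
    exact Subtype.ext (ρ.symm.injective h2)
  exact Module.Finite.of_injective f.toRatLinearMap hf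

/-! ### maps of matrices -/

variable {d m : ℕ}

theorem mp_mul (ρ : ℂ ≃+* ℂ) (X Y : Matrix (Fin d) (Fin d) ℂ) :
    (X * Y).map ρ = X.map ρ * Y.map ρ := Matrix.map_mul (f := (ρ : ℂ →+* ℂ))

theorem mp_one (ρ : ℂ ≃+* ℂ) : (1 : Matrix (Fin d) (Fin d) ℂ).map ρ = 1 :=
  Matrix.map_one ρ (map_zero ρ) (map_one ρ)

theorem mp_add (ρ : ℂ ≃+* ℂ) (X Y : Matrix (Fin d) (Fin d) ℂ) :
    (X + Y).map ρ = X.map ρ + Y.map ρ := by
  ext i j
  exact map_add ρ _ _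

theorem mp_neg (ρ : ℂ ≃+* ℂ) (X : Matrix (Fin d) (Fin d) ℂ) :
    (-X).map ρ = -X.map ρ := by
  ext i j
  exact map_neg ρ _

theorem mp_smul (ρ : ℂ ≃+* ℂ) (c : ℂ) (X : Matrix (Fin d) (Fin d) ℂ) :
    (c • X).map ρ = ρ c • X.map ρ := by
  ext i j
  exact map_mul ρ _ _

theorem mp_mp (ρ ρ' : ℂ ≃+* ℂ) (X : Matrix (Fin d) (Fin d) ℂ) :
    (X.map ρ).map ρ' = X.map (ρ.trans ρ') := by
  ext i j
  rfl

theorem mp_scal (ρ : ℂ ≃+* ℂ) (X : Matrix (Fin d) (Fin d) ℂ) :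
    (∃ c : ℂ, X.map ρ = c • (1 : Matrix (Fin d) (Fin d) ℂ)) ↔
      ∃ c : ℂ, X = c • (1 : Matrix (Fin d) (Fin d) ℂ) := by
  constructor
  · rintro ⟨c, hc⟩
    refine ⟨ρ.symm c, ?_⟩
    have h1 := congrArg (fun Z : Matrix (Fin d) (Fin d) ℂ => Z.map ρ.symm) hc
    beta_reduce at h1
    rw [mp_mp, mp_smul, mp_one] at h1
    rw [← h1]
    ext i j
    simp
  · rintro ⟨c, hc⟩
    exact ⟨ρ c, by rw [hc, mp_smul, mp_one]⟩

/-- the double bracket -/
theorem dbl {D X : Matrix (Fin d) (Fin d) ℂ} (hD : D * D = 1) :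
    D * X * D = X - (1 / 2 : ℂ) • (D * (D * X - X * D) - (D * X - X * D) * D) := by
  have h1 : D * (D * X - X * D) - (D * X - X * D) * D =
      (D * D) * X + X * (D * D) - (D * X * D + D * X * D) := by noncomm_ring
  rw [h1, hD, one_mul, mul_one, ← two_smul ℂ X, ← two_smul ℂ (D * X * D), smul_sub, smul_smul,
    smul_smul]
  norm_num

end GK9

open GK9

theorem fam_of : St_fam := by
  intro d Δ hG m φ s hA hbr hsq hodd hcj hK hun
  have hmem : ∀ σ, Δ σ ∈ LieD Δ := fun σ M h1 _ => h1 σ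
  have hbm : ∀ X ∈ LieD Δ, ∀ Y ∈ LieD Δ, X * Y - Y * X ∈ LieD Δ :=
    fun X hX Y hY M h1 h2 => h2 _ (hX M h1 h2) _ (hY M h1 h2)
  refine ⟨hsq, ?_, ?_, ?_⟩
  · intro σ
    show φ (Δ (cj.trans σ)) + (s (cj.trans σ) : ℂ) • 1 = -(φ (Δ σ) + (s σ : ℂ) • 1)
    rw [hG.odd, map_neg, hodd, neg_add, Rat.cast_neg, neg_smul]
  · obtain ⟨K₁, hK₁, h1⟩ := hG.eqv
    obtain ⟨K₂, hK₂, h2⟩ := hK
    obtain ⟨K, hKf, k1, k2, k3⟩ := exists_sup K₁ K₂ hK₁ hK₂
      (Set.range fun p : (Fin d × Fin d) × (Fin m × Fin m) =>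
        φ (Matrix.single p.1.1 p.1.2 1) p.2.1 p.2.2) (Set.finite_range _) (by
        rintro _ ⟨p, rfl⟩
        exact hA _ _ _ _)
    refine ⟨K, hKf, fun τ hτ σ => ?_⟩
    show φ (Δ (σ.trans τ)) + (s (σ.trans τ) : ℂ) • 1 = (φ (Δ σ) + (s σ : ℂ) • 1).map τ
    have hφ : ∀ X : Matrix (Fin d) (Fin d) ℂ, φ (X.map τ) = (φ X).map τ := by
      intro X
      have e1 : ∀ Y : Matrix (Fin d) (Fin d) ℂ,
          φ Y = ∑ i, ∑ j, Y i j • φ (Matrix.single i j 1) := by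
        intro Y
        conv_lhs => rw [Matrix.matrix_eq_sum_single Y]
        rw [map_sum]
        refine Finset.sum_congr rfl fun i _ => ?_
        rw [map_sum]
        refine Finset.sum_congr rfl fun j _ => ?_
        rw [← map_smul]
        congr 1
        rw [Matrix.smul_single, smul_eq_mul, mul_one]
      ext a b
      rw [e1 (X.map τ), e1 X, Matrix.map_apply, Matrix.sum_apply, Matrix.sum_apply, map_sum]
      refine Finset.sum_congr rfl fun i _ => ?_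
      rw [Matrix.sum_apply, Matrix.sum_apply, map_sum]
      refine Finset.sum_congr rfl fun j _ => ?_
      rw [Matrix.smul_apply, Matrix.smul_apply, smul_eq_mul, smul_eq_mul, map_mul,
        Matrix.map_apply, hτ _ (k3 _ ⟨((i, j), (a, b)), rfl⟩)]
    rw [h1 τ (fun z hz => hτ z (k1 z hz)), h2 τ (fun z hz => hτ z (k2 z hz)), hφ, mp_add,
      mp_smul, mp_one, map_ratCast]
  · intro ρ
    obtain ⟨S, hS, hSσ⟩ := hun ρ
    refine ⟨S, hS, fun σ => ?_⟩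
    obtain ⟨D, hD⟩ : ∃ D, D = Δ ρ.symm := ⟨_, rfl⟩
    obtain ⟨E, hE⟩ : ∃ E, E = Δ ((σ.trans cj).trans ρ.symm) := ⟨_, rfl⟩
    obtain ⟨a, ha⟩ : ∃ a, a = s ρ.symm := ⟨_, rfl⟩
    have hDL : D ∈ LieD Δ := by rw [hD]; exact hmem _
    have hEL : E ∈ LieD Δ := by rw [hE]; exact hmem _
    have hDD : D * D = 1 := by rw [hD]; exact hG.sq _
    have hD' : (φ D + (a : ℂ) • 1) * (φ D + (a : ℂ) • 1) = 1 := by
      rw [hD, ha]
      exact hsq _
    have e1 : φ (D * E * D) = (φ D + (a : ℂ) • 1) * φ E * (φ D + (a : ℂ) • 1) := by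
      rw [dbl hDD, dbl hD', map_sub, map_smul, hbr D hDL _ (hbm D hDL E hEL), hbr D hDL E hEL]
      congr 2
      simp only [add_mul, mul_add, Matrix.smul_mul, Matrix.mul_smul, one_mul, mul_one, mul_sub,
        sub_mul]
      abel
    have hs : s ((σ.trans cj).trans ρ.symm) = -s (σ.trans ρ.symm) := hcj _ _
    have hC1 : Cjf (fun σ => φ (Δ σ) + (s σ : ℂ) • (1 : Matrix (Fin m) (Fin m) ℂ)) ρ
        (RingEquiv.refl ℂ) = (φ D + (a : ℂ) • 1).map ρ := by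
      rw [hD, ha]
      rfl
    have hC2 : Cjf (fun σ => φ (Δ σ) + (s σ : ℂ) • (1 : Matrix (Fin m) (Fin m) ℂ)) ρ
        (σ.trans cj) = (φ E).map ρ - (s (σ.trans ρ.symm) : ℂ) • 1 := by
      show (φ (Δ ((σ.trans cj).trans ρ.symm)) +
        (s ((σ.trans cj).trans ρ.symm) : ℂ) • (1 : Matrix (Fin m) (Fin m) ℂ)).map ρ = _
      rw [← hE, hs, mp_add, mp_smul, mp_one, map_ratCast, Rat.cast_neg, neg_smul, sub_eq_add_neg]
    have hC3 : Cjf (fun σ => φ (Δ σ) + (s σ : ℂ) • (1 : Matrix (Fin m) (Fin m) ℂ)) ρ σ =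
        (φ (Δ (σ.trans ρ.symm))).map ρ + (s (σ.trans ρ.symm) : ℂ) • 1 := by
      show (φ (Δ (σ.trans ρ.symm)) +
        (s (σ.trans ρ.symm) : ℂ) • (1 : Matrix (Fin m) (Fin m) ℂ)).map ρ = _
      rw [mp_add, mp_smul, mp_one, map_ratCast]
    have h3 := hSσ σ
    rw [← hD, ← hE, e1, mp_mul, mp_mul] at h3
    have hDm : (φ D + (a : ℂ) • 1).map ρ * (φ D + (a : ℂ) • 1).map ρ = 1 := by
      rw [← mp_mul, hD', mp_one]
    rw [hC1, hC2, hC3, conjTranspose_add, conjTranspose_smul, conjTranspose_one, add_mul, h3,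
      mul_sub, sub_mul, Matrix.mul_smul, mul_one, Matrix.smul_mul _ ((φ D + (a : ℂ) • 1).map ρ),
      hDm, Matrix.smul_mul, one_mul, mul_sub, Matrix.mul_smul, mul_one]
    have h4 : star (((s (σ.trans ρ.symm) : ℚ) : ℂ)) = ((s (σ.trans ρ.symm) : ℚ) : ℂ) := by
      rw [Complex.star_def, map_ratCast]
    rw [h4, neg_sub]
    abel

theorem dtc_of : St_dtc := by
  intro d Δ hd hG
  refine ⟨⟨?_, ?_, ?_, ?_⟩, fun ρ => ⟨?_, ?_, ?_, ?_⟩, ⟨?_, ?_, ?_, ?_⟩⟩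
  · intro σ
    show -(Δ σ)ᵀ * -(Δ σ)ᵀ = 1
    rw [neg_mul_neg, ← transpose_mul, hG.sq, transpose_one]
  · intro σ
    show -(Δ (cj.trans σ))ᵀ = - -(Δ σ)ᵀ
    rw [hG.odd, transpose_neg]
  · obtain ⟨K, hK, h1⟩ := hG.eqv
    refine ⟨K, hK, fun τ hτ σ => ?_⟩
    show -(Δ (σ.trans τ))ᵀ = (-(Δ σ)ᵀ).map τ
    rw [h1 τ hτ, mp_neg]
    rfl
  · intro ρ
    obtain ⟨S, hS, hSσ⟩ := hG.uni ρ
    refine ⟨(S⁻¹)ᵀ, hS.inv.transpose, fun σ => ?_⟩
    have hc : ∀ τ, Cjf (fun σ => -(Δ σ)ᵀ) ρ τ = -(Cjf Δ ρ τ)ᵀ := by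
      intro τ
      show (-(Δ (τ.trans ρ.symm))ᵀ).map ρ = -((Δ (τ.trans ρ.symm)).map ρ)ᵀ
      rw [mp_neg]
      rfl
    rw [hc, hc, hc]
    have hSu : IsUnit S.det := hS.isUnit.map (Matrix.detMonoidHom)
    have h1 := hSσ σ
    obtain ⟨A, hA⟩ : ∃ A, A = Cjf Δ ρ σ := ⟨_, rfl⟩
    obtain ⟨P, hP⟩ : ∃ P, P = Cjf Δ ρ (RingEquiv.refl ℂ) := ⟨_, rfl⟩
    obtain ⟨Q, hQ⟩ : ∃ Q, Q = Cjf Δ ρ (σ.trans cj) := ⟨_, rfl⟩
    rw [← hA, ← hP, ← hQ] at h1 ⊢
    -- `Aᴴ S = - S P Q P`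
    have h2 : S⁻¹ * Aᴴ = -(P * Q * P * S⁻¹) := by
      have h3 : S⁻¹ * (Aᴴ * S) * S⁻¹ = S⁻¹ * (-(S * (P * Q * P))) * S⁻¹ := by rw [h1]
      rw [mul_assoc, mul_assoc, Matrix.mul_nonsing_inv _ hSu, mul_one] at h3
      rw [h3, mul_neg, neg_mul, ← mul_assoc S⁻¹ S, Matrix.nonsing_inv_mul _ hSu, one_mul]
    have h4 := congrArg Matrix.transpose h2
    rw [transpose_mul, transpose_neg, transpose_mul, transpose_mul, transpose_mul] at h4
    have h5 : (-Aᵀ)ᴴ = -(Aᴴ)ᵀ := by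
      rw [conjTranspose_neg]
      rfl
    rw [h5, neg_mul, h4]
    simp only [neg_neg, neg_mul, mul_neg, mul_assoc]
  · intro σ
    show (Δ (σ.trans ρ.symm)).map ρ * (Δ (σ.trans ρ.symm)).map ρ = 1
    rw [← mp_mul, hG.sq, mp_one]
  · intro σ
    show (Δ ((cj.trans σ).trans ρ.symm)).map ρ = -(Δ (σ.trans ρ.symm)).map ρ
    have h1 : (cj.trans σ).trans ρ.symm = cj.trans (σ.trans ρ.symm) := rfl
    rw [h1, hG.odd, mp_neg]
  · obtain ⟨K, hK, h1⟩ := hG.eqv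
    refine ⟨K.map (ρ : ℂ →+* ℂ), fd_map K hK ρ, fun τ hτ σ => ?_⟩
    show (Δ ((σ.trans τ).trans ρ.symm)).map ρ = ((Δ (σ.trans ρ.symm)).map ρ).map τ
    have h2 : (σ.trans τ).trans ρ.symm = (σ.trans ρ.symm).trans ((ρ.trans τ).trans ρ.symm) := by
      ext x
      simp
    rw [h2, h1 _ fun z hz => ?_, mp_mp, mp_mp]
    · congr 1
      ext x
      simp
    · have h3 := hτ (ρ z) ⟨z, hz, rfl⟩
      simp [h3]
  · intro ρ'
    obtain ⟨S, hS, hSσ⟩ := hG.uni (ρ.trans ρ')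
    exact ⟨S, hS, fun σ => hSσ σ⟩
  · intro σ
    show twD Δ σ * twD Δ σ = 1
    unfold twD
    split_ifs
    · rw [neg_mul_neg, hG.sq]
    · exact hG.sq σ
  · intro σ
    have h1 : (∃ c : ℂ, Δ (cj.trans σ) = c • (1 : Matrix (Fin d) (Fin d) ℂ)) ↔
        ∃ c : ℂ, Δ σ = c • (1 : Matrix (Fin d) (Fin d) ℂ) := by
      rw [hG.odd]
      constructor
      · rintro ⟨c, hc⟩
        exact ⟨-c, by rw [neg_smul, ← hc, neg_neg]⟩
      · rintro ⟨c, hc⟩
        exact ⟨-c, by rw [neg_smul, ← hc]⟩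
    show twD Δ (cj.trans σ) = -twD Δ σ
    unfold twD
    by_cases h : ∃ c : ℂ, Δ σ = c • (1 : Matrix (Fin d) (Fin d) ℂ)
    · rw [if_pos (h1.2 h), if_pos h, hG.odd]
    · rw [if_neg (fun h' => h (h1.1 h')), if_neg h, hG.odd]
  · obtain ⟨K, hK, h1⟩ := hG.eqv
    refine ⟨K, hK, fun τ hτ σ => ?_⟩
    show twD Δ (σ.trans τ) = (twD Δ σ).map τ
    unfold twD
    rw [h1 τ hτ σ]
    by_cases h : ∃ c : ℂ, Δ σ = c • (1 : Matrix (Fin d) (Fin d) ℂ)
    · rw [if_pos ((mp_scal τ _).2 h), if_pos h, mp_neg]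
    · rw [if_neg (fun h' => h ((mp_scal τ _).1 h')), if_neg h]
  · intro ρ
    obtain ⟨S, hS, hSσ⟩ := hG.uni ρ
    refine ⟨S, hS, fun σ => ?_⟩
    have hSu : IsUnit S.det := hS.isUnit.map (Matrix.detMonoidHom)
    -- the sign
    obtain ⟨ε, hε⟩ : ∃ ε : (ℂ ≃+* ℂ) → ℂ, ∀ τ, ε τ = (open Classical in
      if ∃ c : ℂ, Cjf Δ ρ τ = c • (1 : Matrix (Fin d) (Fin d) ℂ) then -1 else 1) :=
      ⟨_, fun _ => rfl⟩
    have hc : ∀ τ, Cjf (twD Δ) ρ τ = ε τ • Cjf Δ ρ τ := by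
      intro τ
      rw [hε]
      show (twD Δ (τ.trans ρ.symm)).map ρ = _
      unfold twD Cjf
      by_cases h : ∃ c : ℂ, Δ (τ.trans ρ.symm) = c • (1 : Matrix (Fin d) (Fin d) ℂ)
      · rw [if_pos ((mp_scal ρ _).2 h), if_pos h, mp_neg, neg_one_smul]
      · rw [if_neg (fun h' => h ((mp_scal ρ _).1 h')), if_neg h, one_smul]
    have hε2 : ∀ τ, ε τ * ε τ = 1 ∧ star (ε τ) = ε τ := by
      intro τ
      rw [hε]
      split_ifs
      · constructor
        · norm_num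
        · simp
      · constructor
        · norm_num
        · simp
    have hsq : ∀ τ, Cjf Δ ρ τ * Cjf Δ ρ τ = 1 := by
      intro τ
      show (Δ (τ.trans ρ.symm)).map ρ * (Δ (τ.trans ρ.symm)).map ρ = 1
      rw [← mp_mul, hG.sq, mp_one]
    obtain ⟨P, hP⟩ : ∃ P, P = Cjf Δ ρ (RingEquiv.refl ℂ) := ⟨_, rfl⟩
    have hPP : P * P = 1 := by rw [hP]; exact hsq _
    have h1 := hSσ σ
    have hiff : (∃ c : ℂ, Cjf Δ ρ (σ.trans cj) = c • (1 : Matrix (Fin d) (Fin d) ℂ)) ↔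
        ∃ c : ℂ, Cjf Δ ρ σ = c • (1 : Matrix (Fin d) (Fin d) ℂ) := by
      rw [← hP] at h1
      constructor
      · rintro ⟨c, hc'⟩
        rw [hc', Matrix.mul_smul, mul_one, Matrix.smul_mul, hPP, Matrix.mul_smul, mul_one,
          ← neg_smul] at h1
        have h2 : (Cjf Δ ρ σ)ᴴ = (-c) • 1 := by
          have h3 : (Cjf Δ ρ σ)ᴴ * S * S⁻¹ = (-c) • S * S⁻¹ := by rw [h1]
          rwa [mul_assoc, Matrix.mul_nonsing_inv _ hSu, mul_one, Matrix.smul_mul,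
            Matrix.mul_nonsing_inv _ hSu] at h3
        refine ⟨star (-c), ?_⟩
        rw [← conjTranspose_conjTranspose (Cjf Δ ρ σ), h2, conjTranspose_smul, conjTranspose_one]
      · rintro ⟨c, hc'⟩
        rw [hc', conjTranspose_smul, conjTranspose_one, Matrix.smul_mul, one_mul] at h1
        have h2 : P * Cjf Δ ρ (σ.trans cj) * P = (-star c) • 1 := by
          have h3 : S⁻¹ * (star c • S) = S⁻¹ * -(S * (P * Cjf Δ ρ (σ.trans cj) * P)) := by rw [h1]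
          rw [Matrix.mul_smul, Matrix.nonsing_inv_mul _ hSu, mul_neg, ← mul_assoc S⁻¹ S,
            Matrix.nonsing_inv_mul _ hSu, one_mul] at h3
          rw [neg_smul, h3, neg_neg]
        refine ⟨-star c, ?_⟩
        have h4 : P * (P * Cjf Δ ρ (σ.trans cj) * P) * P = Cjf Δ ρ (σ.trans cj) := by
          calc P * (P * Cjf Δ ρ (σ.trans cj) * P) * P =
              (P * P) * Cjf Δ ρ (σ.trans cj) * (P * P) := by noncomm_ring
            _ = _ := by rw [hPP, one_mul, mul_one]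
        rw [← h4, h2, Matrix.mul_smul, mul_one, Matrix.smul_mul, hPP]
    have hεc : ε (σ.trans cj) = ε σ := by
      rw [hε, hε]
      by_cases h : ∃ c : ℂ, Cjf Δ ρ σ = c • (1 : Matrix (Fin d) (Fin d) ℂ)
      · rw [if_pos (hiff.2 h), if_pos h]
      · rw [if_neg (fun h' => h (hiff.1 h')), if_neg h]
    rw [hc, hc, hc, hεc, conjTranspose_smul, (hε2 σ).2, Matrix.smul_mul, h1]
    simp only [Matrix.smul_mul, Matrix.mul_smul, smul_smul, smul_neg]
    congr 2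
    have h5 := (hε2 (RingEquiv.refl ℂ)).1
    linear_combination (-(ε σ)) * h5

end

end Pool.Agent.NH32
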