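import Mathlib
import Pool.Agent.NH32.GtB
import Pool.Agent.NH32.GK9
import Pool.Agent.NH32.GK12a

/-!
# Project G, stage 2, K12: the case of exterior powers
-/

set_option linter.unusedSectionVars false

namespace Pool.Agent.NH32

open Matrix Module
open scoped ComplexOrder

noncomputable section

namespace GK12

open GK9

section lie

variable {d : ℕ} {Δ : (ℂ ≃+* ℂ) → Matrix (Fin d) (Fin d) ℂ}

theorem mem_D (σ : ℂ ≃+* ℂ) : Δ σ ∈ LieD Δ := fun _ h1 _ => h1 σ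

theorem br_D {X Y : Matrix (Fin d) (Fin d) ℂ} (hX : X ∈ LieD Δ) (hY : Y ∈ LieD Δ) :
    X * Y - Y * X ∈ LieD Δ := fun M h1 h2 => h2 _ (hX M h1 h2) _ (hY M h1 h2)

theorem le_D {M : Submodule ℂ (Matrix (Fin d) (Fin d) ℂ)} (h1 : ∀ σ, Δ σ ∈ M)
    (h2 : ∀ X ∈ M, ∀ Y ∈ M, X * Y - Y * X ∈ M) {X : Matrix (Fin d) (Fin d) ℂ}
    (hX : X ∈ LieD Δ) : X ∈ M := hX M h1 h2

theorem dxd_D {D X : Matrix (Fin d) (Fin d) ℂ} (hD : D ∈ LieD Δ) (hX : X ∈ LieD Δ)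
    (h : D * D = 1) : D * X * D ∈ LieD Δ := by
  rw [dbl h]
  exact Submodule.sub_mem _ hX (Submodule.smul_mem _ _ (br_D hD (br_D hD hX)))

variable {n k : ℕ} {φ : Matrix (Fin d) (Fin d) ℂ →ₗ[ℂ] Matrix (Fin n) (Fin n) ℂ}
  {ι : (Fin d → ℂ) →ₗ[ℂ] ((Fin k → Fin n) → ℂ)}

theorem ker_phi (hA : ATD Δ n k φ ι) {X : Matrix (Fin d) (Fin d) ℂ} (hX : X ∈ LieD Δ)
    (h : φ X = 0) : ∃ c : ℂ, X = c • (1 : Matrix (Fin d) (Fin d) ℂ) := by
  refine ⟨trace X / d, ?_⟩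
  apply matrix_ext_mulVec
  intro v
  have h1 := hA.eqv X hX v
  rw [h, dm_zero, zero_mulVec, zero_add] at h1
  have h2 := hA.inj (X *ᵥ v - (trace X / d) • v) (by rw [map_sub, map_smul, h1, sub_self])
  rw [sub_eq_zero] at h2
  rw [h2, smul_mulVec, one_mulVec]

variable (φ) in
/-- The conjugate representation. -/
def phr (ρ : ℂ ≃+* ℂ) : Matrix (Fin d) (Fin d) ℂ →ₗ[ℂ] Matrix (Fin n) (Fin n) ℂ where
  toFun X := (φ (X.map ρ.symm)).map ρ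
  map_add' X Y := by rw [mp_add, map_add, mp_add]
  map_smul' c X := by
    rw [mp_smul, map_smul, mp_smul, RingEquiv.apply_symm_apply]
    rfl

theorem phr_apply (ρ : ℂ ≃+* ℂ) (X : Matrix (Fin d) (Fin d) ℂ) :
    phr φ ρ X = (φ (X.map ρ.symm)).map ρ := rfl

theorem mp_sub (ρ : ℂ ≃+* ℂ) (X Y : Matrix (Fin d) (Fin d) ℂ) :
    (X - Y).map ρ = X.map ρ - Y.map ρ := by
  ext i j
  exact map_sub ρ _ _

theorem mp_zero (ρ : ℂ ≃+* ℂ) : (0 : Matrix (Fin d) (Fin d) ℂ).map ρ = 0 := by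
  ext i j
  exact map_zero ρ

theorem mp_symm (ρ : ℂ ≃+* ℂ) (X : Matrix (Fin d) (Fin d) ℂ) : (X.map ρ.symm).map ρ = X := by
  ext i j
  exact ρ.apply_symm_apply _

theorem mp_symm' (ρ : ℂ ≃+* ℂ) (X : Matrix (Fin d) (Fin d) ℂ) : (X.map ρ).map ρ.symm = X := by
  ext i j
  exact ρ.symm_apply_apply _

theorem mp_trace (ρ : ℂ ≃+* ℂ) (X : Matrix (Fin d) (Fin d) ℂ) : trace (X.map ρ) = ρ (trace X) := by
  unfold trace
  rw [map_sum]
  rfl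

/-- The conjugate Lie algebra. -/
def Lr (Δ : (ℂ ≃+* ℂ) → Matrix (Fin d) (Fin d) ℂ) (ρ : ℂ ≃+* ℂ) :
    Submodule ℂ (Matrix (Fin d) (Fin d) ℂ) where
  carrier := {X | X.map ρ.symm ∈ LieD Δ}
  add_mem' := by
    intro X Y hX hY
    change (X + Y).map ρ.symm ∈ LieD Δ
    rw [mp_add]
    exact Submodule.add_mem _ hX hY
  zero_mem' := by
    change (0 : Matrix (Fin d) (Fin d) ℂ).map ρ.symm ∈ LieD Δ
    rw [mp_zero]
    exact Submodule.zero_mem _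
  smul_mem' := by
    intro c X hX
    change (c • X).map ρ.symm ∈ LieD Δ
    rw [mp_smul]
    exact Submodule.smul_mem _ _ hX

theorem mem_Lr {ρ : ℂ ≃+* ℂ} {X : Matrix (Fin d) (Fin d) ℂ} :
    X ∈ Lr Δ ρ ↔ X.map ρ.symm ∈ LieD Δ := Iff.rfl

theorem br_Lr {ρ : ℂ ≃+* ℂ} {X Y : Matrix (Fin d) (Fin d) ℂ} (hX : X ∈ Lr Δ ρ)
    (hY : Y ∈ Lr Δ ρ) : X * Y - Y * X ∈ Lr Δ ρ := by
  rw [mem_Lr] at hX hY ⊢
  rw [mp_sub, mp_mul, mp_mul]
  exact br_D hX hY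

theorem Cjf_one (ρ : ℂ ≃+* ℂ) : Cjf Δ ρ (RingEquiv.refl ℂ) = (Δ ρ.symm).map ρ := rfl

theorem star_uni {ρ : ℂ ≃+* ℂ} {S₀ : Matrix (Fin d) (Fin d) ℂ} (hS : S₀.PosDef)
    (hu : ∀ σ, (Cjf Δ ρ σ)ᴴ * S₀ = -(S₀ * (Cjf Δ ρ (RingEquiv.refl ℂ) * Cjf Δ ρ (σ.trans cj) *
      Cjf Δ ρ (RingEquiv.refl ℂ)))) (σ : ℂ ≃+* ℂ) :
    S₀⁻¹ * ((Δ (σ.trans ρ.symm)).map ρ)ᴴ * S₀ =
      -(Δ ρ.symm * Δ ((σ.trans cj).trans ρ.symm) * Δ ρ.symm).map ρ := by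
  have h1 := hu σ
  have h2 : IsUnit S₀.det := (Matrix.isUnit_iff_isUnit_det _).1 hS.isUnit
  have h3 : (Cjf Δ ρ σ) = (Δ (σ.trans ρ.symm)).map ρ := rfl
  rw [h3] at h1
  rw [Matrix.mul_assoc, h1, Matrix.mul_neg, ← Matrix.mul_assoc, Matrix.nonsing_inv_mul _ h2,
    Matrix.one_mul, mp_mul, mp_mul]
  rfl

theorem star_Lr (hG : Gd Δ) {ρ : ℂ ≃+* ℂ} {S₀ : Matrix (Fin d) (Fin d) ℂ} (hS : S₀.PosDef)
    (hu : ∀ σ, (Cjf Δ ρ σ)ᴴ * S₀ = -(S₀ * (Cjf Δ ρ (RingEquiv.refl ℂ) * Cjf Δ ρ (σ.trans cj) *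
      Cjf Δ ρ (RingEquiv.refl ℂ)))) {X : Matrix (Fin d) (Fin d) ℂ} (hX : X ∈ Lr Δ ρ) :
    S₀⁻¹ * Xᴴ * S₀ ∈ Lr Δ ρ := by
  have h2 : IsUnit S₀.det := (Matrix.isUnit_iff_isUnit_det _).1 hS.isUnit
  let M : Submodule ℂ (Matrix (Fin d) (Fin d) ℂ) :=
    { carrier := {Z | S₀⁻¹ * (Z.map ρ)ᴴ * S₀ ∈ Lr Δ ρ}
      add_mem' := by
        intro Z W hZ hW
        change S₀⁻¹ * ((Z + W).map ρ)ᴴ * S₀ ∈ Lr Δ ρ
        rw [mp_add, conjTranspose_add, Matrix.mul_add, Matrix.add_mul]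
        exact Submodule.add_mem _ hZ hW
      zero_mem' := by
        change S₀⁻¹ * ((0 : Matrix (Fin d) (Fin d) ℂ).map ρ)ᴴ * S₀ ∈ Lr Δ ρ
        rw [mp_zero, conjTranspose_zero, Matrix.mul_zero, Matrix.zero_mul]
        exact Submodule.zero_mem _
      smul_mem' := by
        intro c Z hZ
        change S₀⁻¹ * ((c • Z).map ρ)ᴴ * S₀ ∈ Lr Δ ρ
        rw [mp_smul, conjTranspose_smul, Matrix.mul_smul, Matrix.smul_mul]
        exact Submodule.smul_mem _ _ hZ }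
  have h3 : X.map ρ.symm ∈ M := by
    refine le_D (Δ := Δ) ?_ ?_ hX
    · intro σ
      change S₀⁻¹ * ((Δ σ).map ρ)ᴴ * S₀ ∈ Lr Δ ρ
      have h4 := star_uni hS hu (σ.trans ρ)
      have h5 : (σ.trans ρ).trans ρ.symm = σ := by
        ext x
        exact ρ.symm_apply_apply _
      rw [h5] at h4
      rw [h4]
      apply Submodule.neg_mem
      rw [mem_Lr, mp_symm']
      exact dxd_D (mem_D _) (mem_D _) (hG.sq _)
    · intro Z hZ W hW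
      change S₀⁻¹ * ((Z * W - W * Z).map ρ)ᴴ * S₀ ∈ Lr Δ ρ
      have h4 : S₀⁻¹ * ((Z * W - W * Z).map ρ)ᴴ * S₀ =
          (S₀⁻¹ * (W.map ρ)ᴴ * S₀) * (S₀⁻¹ * (Z.map ρ)ᴴ * S₀) -
          (S₀⁻¹ * (Z.map ρ)ᴴ * S₀) * (S₀⁻¹ * (W.map ρ)ᴴ * S₀) := by
        have h5 : ∀ A B : Matrix (Fin d) (Fin d) ℂ, (S₀⁻¹ * A * S₀) * (S₀⁻¹ * B * S₀) =
            S₀⁻¹ * (A * B) * S₀ := by
          intro A B
          calc (S₀⁻¹ * A * S₀) * (S₀⁻¹ * B * S₀) = S₀⁻¹ * A * (S₀ * S₀⁻¹) * B * S₀ := by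
                simp only [Matrix.mul_assoc]
            _ = S₀⁻¹ * (A * B) * S₀ := by
                rw [Matrix.mul_nonsing_inv _ h2, Matrix.mul_one]
                simp only [Matrix.mul_assoc]
        rw [h5, h5, mp_sub, mp_mul, mp_mul, conjTranspose_sub, conjTranspose_mul,
          conjTranspose_mul, Matrix.mul_sub, Matrix.sub_mul]
      rw [h4]
      exact br_Lr hW hZ
  have h4 : S₀⁻¹ * ((X.map ρ.symm).map ρ)ᴴ * S₀ ∈ Lr Δ ρ := h3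
  rwa [mp_symm] at h4

theorem uni_phi (h4 : St_unit) (hG : Gd Δ) (hA : ATD Δ n k φ ι) (ρ : ℂ ≃+* ℂ) :
    ∃ S : Matrix (Fin n) (Fin n) ℂ, S.PosDef ∧ ∀ σ : ℂ ≃+* ℂ,
      ((φ (Δ (σ.trans ρ.symm))).map ρ)ᴴ * S =
        -(S * (φ (Δ ρ.symm * Δ ((σ.trans cj).trans ρ.symm) * Δ ρ.symm)).map ρ) := by
  obtain ⟨S₀, hS₀, hu⟩ := hG.uni ρ
  obtain ⟨S, hS, h⟩ := h4 d n (Lr Δ ρ) S₀ hS₀ (fun X hX Y hY => br_Lr hX hY)
    (fun X hX => star_Lr hG hS₀ hu hX) (phr φ ρ) (by have := hA.k2; have := hA.kn; omega)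
    (by
      intro X hX Y hY
      rw [phr_apply, phr_apply, phr_apply, mp_sub, mp_mul, mp_mul, hA.br _ hX _ hY, mp_sub,
        mp_mul, mp_mul])
    (by
      intro X hX
      rw [phr_apply, mp_trace, hA.tr _ hX, map_zero])
    (by
      intro Z hZ
      obtain ⟨X, hX, hXZ⟩ := hA.on (Z.map ρ.symm) (by rw [mp_trace, hZ, map_zero])
      refine ⟨X.map ρ, ?_, ?_⟩
      · rw [mem_Lr, mp_symm']
        exact hX
      · rw [phr_apply, mp_symm', hXZ, mp_symm])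
    (by
      intro X hX
      rw [phr_apply]
      constructor
      · intro h0
        have h1 : φ (X.map ρ.symm) = 0 := by
          rw [← mp_symm' ρ (φ (X.map ρ.symm)), h0, mp_zero]
        exact (mp_scal ρ.symm X).1 (ker_phi hA hX h1)
      · intro h0
        rw [hA.sc _ hX ((mp_scal ρ.symm X).2 h0), mp_zero])
  refine ⟨S, hS, fun σ => ?_⟩
  have h5 := h ((Δ (σ.trans ρ.symm)).map ρ) (by
    rw [mem_Lr, mp_symm']
    exact mem_D _)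
  rw [star_uni hS₀ hu σ, phr_apply, mp_symm', map_neg, phr_apply, mp_symm', Matrix.mul_neg] at h5
  exact h5

theorem tr_sim {m : ℕ} {S A B : Matrix (Fin m) (Fin m) ℂ} (hS : S.PosDef)
    (h : Aᴴ * S = -(S * B)) : starRingEnd ℂ (trace A) = -trace B := by
  have h2 : IsUnit S.det := (Matrix.isUnit_iff_isUnit_det _).1 hS.isUnit
  have h3 : Aᴴ = -(S * B * S⁻¹) := by
    calc Aᴴ = Aᴴ * (S * S⁻¹) := by rw [Matrix.mul_nonsing_inv _ h2, Matrix.mul_one]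
      _ = (Aᴴ * S) * S⁻¹ := by rw [Matrix.mul_assoc]
      _ = -(S * B * S⁻¹) := by rw [h, Matrix.neg_mul]
  have h4 : starRingEnd ℂ (trace A) = trace Aᴴ := (trace_conjTranspose A).symm
  rw [h4, h3, trace_neg, trace_mul_comm, ← Matrix.mul_assoc, Matrix.nonsing_inv_mul _ h2,
    Matrix.one_mul]

theorem tr_sim3 {m : ℕ} {S A B : Matrix (Fin m) (Fin m) ℂ} (hS : S.PosDef)
    (h : Aᴴ * S = -(S * B)) : starRingEnd ℂ (trace (A * A * A)) = -trace (B * B * B) := by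
  apply tr_sim hS
  rw [conjTranspose_mul, conjTranspose_mul]
  have e1 : Aᴴ * (S * B) = -(S * (B * B)) := by
    rw [← Matrix.mul_assoc, h, Matrix.neg_mul, Matrix.mul_assoc]
  have e2 : Aᴴ * (S * (B * B)) = -(S * (B * (B * B))) := by
    rw [← Matrix.mul_assoc, h, Matrix.neg_mul, Matrix.mul_assoc]
  calc Aᴴ * (Aᴴ * Aᴴ) * S = Aᴴ * (Aᴴ * (Aᴴ * S)) := by simp only [Matrix.mul_assoc]
    _ = -(S * (B * B * B)) := by
      rw [h, Matrix.mul_neg, e1, neg_neg, e2, Matrix.mul_assoc B B B]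

end lie

section psi

/-- Representations of the matrices derived from the standard one. -/
structure Psi (n m j : ℕ) (ψ : Matrix (Fin n) (Fin n) ℂ →ₗ[ℂ] Matrix (Fin m) (Fin m) ℂ) : Prop where
  br : ∀ X Y, ψ (X * Y - Y * X) = ψ X * ψ Y - ψ Y * ψ X
  one : ψ 1 = (j : ℂ) • 1
  sq : ∀ U, U * U = U → trace U = 1 → ψ U * ψ U = ψ U
  mp : ∀ (ρ : ℂ ≃+* ℂ) Y, (ψ Y).map ρ = ψ (Y.map ρ)
  adj : ∀ S, S.PosDef → ∃ S' : Matrix (Fin m) (Fin m) ℂ, S'.PosDef ∧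
    ∀ Y Y', Yᴴ * S = S * Y' → (ψ Y)ᴴ * S' = S' * ψ Y'
  alg : ∀ Y, (∀ a b, IsAlgebraic ℚ (Y a b)) → ∀ a b, IsAlgebraic ℚ (ψ Y a b)

theorem psi_RR (n j : ℕ) : Psi n (n.choose j) j (RRL n j) where
  br := RR_bracket
  one := RR_one
  sq := fun _ h1 h2 => RR_sq h1 h2
  mp := RR_map
  adj := fun S hS => ⟨SS j S, SS_posDef hS, fun _ _ h => RR_adj h⟩
  alg := fun _ hY a b => RR_alg hY a b

theorem psi_id (n : ℕ) : Psi n n 1 (LinearMap.id) where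
  br := fun _ _ => rfl
  one := by rw [LinearMap.id_apply, Nat.cast_one, one_smul]
  sq := fun _ h _ => h
  mp := fun _ _ => rfl
  adj := fun S hS => ⟨S, hS, fun _ _ h => h⟩
  alg := fun _ h => h

variable {d : ℕ} {Δ : (ℂ ≃+* ℂ) → Matrix (Fin d) (Fin d) ℂ} {n k : ℕ}
  {φ : Matrix (Fin d) (Fin d) ℂ →ₗ[ℂ] Matrix (Fin n) (Fin n) ℂ}
  {ι : (Fin d → ℂ) →ₗ[ℂ] ((Fin k → Fin n) → ℂ)}

/-- The types of the involutions. -/
structure TC (Δ : (ℂ ≃+* ℂ) → Matrix (Fin d) (Fin d) ℂ) (n k : ℕ)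
    (φ : Matrix (Fin d) (Fin d) ℂ →ₗ[ℂ] Matrix (Fin n) (Fin n) ℂ) (T C : (ℂ ≃+* ℂ) → ℤ) :
    Prop where
  cs : ∀ σ, (T σ = 0 ∧ (C σ = 1 ∨ C σ = -1) ∧ φ (Δ σ) = 0) ∨
    (C σ = 0 ∧ (T σ = 1 ∨ T σ = -1) ∧ ∃ U : Matrix (Fin n) (Fin n) ℂ, U * U = U ∧ trace U = 1 ∧
      φ (Δ σ) = (T σ : ℂ) • ((2 : ℂ) • U - (2 / n : ℂ) • 1))
  tr : ∀ σ, trace (Δ σ) / d = T σ * (2 * k / n - 1) + C σ

theorem exists_TC (h5 : St_typ) (hG : Gd Δ) (hI : IrD Δ) (hA : ATD Δ n k φ ι) :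
    ∃ T C : (ℂ ≃+* ℂ) → ℤ, TC Δ n k φ T C := by
  have hd : (d : ℂ) ≠ 0 := Nat.cast_ne_zero.2 hI.1.ne'
  have h1 : ∀ σ, ∃ t c : ℤ, ((t = 0 ∧ (c = 1 ∨ c = -1) ∧ φ (Δ σ) = 0) ∨
      (c = 0 ∧ (t = 1 ∨ t = -1) ∧ ∃ U : Matrix (Fin n) (Fin n) ℂ, U * U = U ∧ trace U = 1 ∧
        φ (Δ σ) = (t : ℂ) • ((2 : ℂ) • U - (2 / n : ℂ) • 1))) ∧
      trace (Δ σ) / d = t * (2 * k / n - 1) + c := by
    intro σ
    rcases h5 d Δ hG hI n k φ ι hA σ with ⟨⟨c, hc, hc2⟩, h0⟩ | ⟨U, t, h6, h7, h8, h9, h10⟩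
    · have e1 : trace (Δ σ) / d = c := by
        rw [hc2, trace_smul, trace_one, Fintype.card_fin, smul_eq_mul, mul_div_assoc, div_self hd,
          mul_one]
      rcases hc with rfl | rfl
      · exact ⟨0, 1, Or.inl ⟨rfl, Or.inl rfl, h0⟩, by rw [e1]; push_cast; ring⟩
      · exact ⟨0, -1, Or.inl ⟨rfl, Or.inr rfl, h0⟩, by rw [e1]; push_cast; ring⟩
    · exact ⟨t, 0, Or.inr ⟨rfl, h8, U, h6, h7, h9⟩, by rw [h10]; push_cast; ring⟩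
  choose T C hTC using h1
  exact ⟨T, C, fun σ => (hTC σ).1, fun σ => (hTC σ).2⟩

/-- The constant. -/
def kap (n : ℕ) : ℚ := 8 * (1 - 1 / n) * (1 - 2 / n)

theorem kap_ne (hn : 4 ≤ n) : kap n ≠ 0 := by
  have h0 : (0 : ℚ) < n := by exact_mod_cast (by omega : 0 < n)
  have h1 : (1 : ℚ) / n < 1 := by
    rw [div_lt_one h0]
    exact_mod_cast (by omega : 1 < n)
  have h2 : (2 : ℚ) / n < 1 := by
    rw [div_lt_one h0]
    exact_mod_cast (by omega : 2 < n)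
  unfold kap
  have h3 : (0 : ℚ) < 1 - 1 / n := by linarith
  have h4 : (0 : ℚ) < 1 - 2 / n := by linarith
  positivity

variable {T C : (ℂ ≃+* ℂ) → ℤ}

theorem TC.cube (h : TC Δ n k φ T C) (hn : 4 ≤ n) (σ : ℂ ≃+* ℂ) :
    trace (φ (Δ σ) * φ (Δ σ) * φ (Δ σ)) = (((kap n * (T σ : ℚ) : ℚ)) : ℂ) := by
  rcases h.cs σ with ⟨h1, -, h2⟩ | ⟨-, h1, U, h2, h3, h4⟩
  · rw [h2, h1, Matrix.mul_zero, trace_zero]
    simp
  · have e1 : φ (Δ σ) * φ (Δ σ) * φ (Δ σ) =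
        ((T σ : ℂ) ^ 3) • ((8 - 24 / n + 24 / n ^ 2 : ℂ) • U - (8 / n ^ 3 : ℂ) • 1) := by
      rw [h4]
      simp only [Matrix.smul_mul, Matrix.mul_smul, Matrix.sub_mul, Matrix.mul_sub, Matrix.one_mul,
        Matrix.mul_one, h2]
      module
    have e2 : (T σ : ℂ) ^ 3 = T σ := by
      rcases h1 with h1 | h1 <;> rw [h1] <;> norm_num
    have hn0 : (n : ℂ) ≠ 0 := Nat.cast_ne_zero.2 (by omega)
    rw [e1, trace_smul, trace_sub, trace_smul, trace_smul, h3, trace_one, Fintype.card_fin, e2]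
    unfold kap
    push_cast
    simp only [smul_eq_mul]
    field_simp
    ring

theorem TC.Ceq (h : TC Δ n k φ T C) (σ : ℂ ≃+* ℂ) :
    trace (Δ σ) / d = (((T σ : ℚ) * (2 * k / n - 1) + C σ : ℚ) : ℂ) := by
  rw [h.tr σ]
  push_cast
  rfl

theorem TC.of_T (h : TC Δ n k φ T C) (hn : 4 ≤ n) {σ σ' : ℂ ≃+* ℂ} {e : ℤ}
    (h1 : trace (φ (Δ σ') * φ (Δ σ') * φ (Δ σ')) =
      (e : ℂ) * (((kap n * (T σ : ℚ) : ℚ)) : ℂ)) : T σ' = e * T σ := by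
  rw [h.cube hn] at h1
  have h2 : kap n * (T σ' : ℚ) = (e : ℚ) * (kap n * (T σ : ℚ)) := by exact_mod_cast h1
  have h3 : (T σ' : ℚ) = (e : ℚ) * T σ := by
    apply mul_left_cancel₀ (kap_ne hn)
    rw [h2]
    ring
  exact_mod_cast h3

theorem TC.of_C (h : TC Δ n k φ T C) {σ σ' : ℂ ≃+* ℂ} {e : ℤ} (hT : T σ' = e * T σ)
    (h1 : trace (Δ σ') / d = (e : ℂ) * (((T σ : ℚ) * (2 * k / n - 1) + C σ : ℚ) : ℂ)) :
    C σ' = e * C σ := by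
  rw [h.Ceq] at h1
  have h2 : (T σ' : ℚ) * (2 * k / n - 1) + C σ' =
      (e : ℚ) * ((T σ : ℚ) * (2 * k / n - 1) + C σ) := by exact_mod_cast h1
  rw [hT] at h2
  push_cast at h2
  have h3 : (C σ' : ℚ) = (e : ℚ) * C σ := by linear_combination h2
  exact_mod_cast h3

theorem TC.odd (h : TC Δ n k φ T C) (hn : 4 ≤ n) (hG : Gd Δ) (σ : ℂ ≃+* ℂ) :
    T (cj.trans σ) = -T σ ∧ C (cj.trans σ) = -C σ := by
  have h1 : T (cj.trans σ) = -1 * T σ := by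
    apply h.of_T hn
    rw [hG.odd, map_neg, ← h.cube hn σ]
    have e1 : -φ (Δ σ) * -φ (Δ σ) * -φ (Δ σ) = -(φ (Δ σ) * φ (Δ σ) * φ (Δ σ)) := by
      simp only [Matrix.neg_mul, Matrix.mul_neg, neg_neg]
    rw [e1, trace_neg]
    push_cast
    ring
  have h2 : C (cj.trans σ) = -1 * C σ := by
    apply h.of_C h1
    rw [hG.odd, trace_neg, ← h.Ceq σ]
    push_cast
    ring
  exact ⟨by rw [h1]; ring, by rw [h2]; ring⟩

theorem phi_map {K : Subfield ℂ}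
    (hK : ∀ i j a b, φ (Matrix.single i j 1) a b ∈ K) {τ : ℂ ≃+* ℂ} (hτ : ∀ z ∈ K, τ z = z)
    (X : Matrix (Fin d) (Fin d) ℂ) : φ (X.map τ) = (φ X).map τ := by
  have e1 : ∀ Y : Matrix (Fin d) (Fin d) ℂ,
      φ Y = ∑ i, ∑ j, Y i j • φ (Matrix.single i j 1) := by
    intro Y
    conv_lhs => rw [Matrix.matrix_eq_sum_single Y]
    rw [map_sum]
    refine Finset.sum_congr rfl fun i _ => ?_
    rw [map_sum]
    refine Finset.sum_congr rfl fun j _ => ?_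
    rw [← map_smul]
    congr 1
    rw [Matrix.smul_single, smul_eq_mul, mul_one]
  ext a b
  rw [e1 (X.map τ), e1 X, Matrix.map_apply, Matrix.sum_apply, Matrix.sum_apply, map_sum]
  refine Finset.sum_congr rfl fun i _ => ?_
  rw [Matrix.sum_apply, Matrix.sum_apply, map_sum]
  refine Finset.sum_congr rfl fun j _ => ?_
  rw [Matrix.smul_apply, Matrix.smul_apply, smul_eq_mul, smul_eq_mul, map_mul,
    Matrix.map_apply, hτ _ (hK i j a b)]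

theorem TC.fld (h : TC Δ n k φ T C) (hn : 4 ≤ n) (hG : Gd Δ) (hAl : AlgM φ) :
    ∃ K : Subfield ℂ, FiniteDimensional ℚ K ∧ ∀ τ : ℂ ≃+* ℂ, (∀ z ∈ K, τ z = z) →
      ∀ σ : ℂ ≃+* ℂ, T (σ.trans τ) = T σ ∧ C (σ.trans τ) = C σ := by
  obtain ⟨K₁, hK₁, h1⟩ := hG.eqv
  obtain ⟨K, hKf, k1, -, k3⟩ := exists_sup K₁ K₁ hK₁ hK₁
    (Set.range fun p : (Fin d × Fin d) × (Fin n × Fin n) =>
      φ (Matrix.single p.1.1 p.1.2 1) p.2.1 p.2.2) (Set.finite_range _) (by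
      rintro _ ⟨p, rfl⟩
      exact hAl _ _ _ _)
  refine ⟨K, hKf, fun τ hτ σ => ?_⟩
  have hφ := phi_map (φ := φ) (K := K) (fun i j a b => k3 _ ⟨((i, j), (a, b)), rfl⟩) hτ
  have h2 := h1 τ (fun z hz => hτ z (k1 z hz)) σ
  have h3 : T (σ.trans τ) = 1 * T σ := by
    apply h.of_T hn
    rw [h2, hφ, ← mp_mul, ← mp_mul, mp_trace, h.cube hn σ, map_ratCast]
    push_cast
    ring
  have h4 : C (σ.trans τ) = 1 * C σ := by
    apply h.of_C h3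
    have e1 : trace ((Δ σ).map τ) / d = τ (trace (Δ σ) / d) := by
      rw [mp_trace, map_div₀, map_natCast]
    rw [h2, e1, h.Ceq σ, map_ratCast]
    push_cast
    ring
  exact ⟨by rw [h3, one_mul], by rw [h4, one_mul]⟩

theorem TC.sqr (h : TC Δ n k φ T C) {m j : ℕ}
    {ψ : Matrix (Fin n) (Fin n) ℂ →ₗ[ℂ] Matrix (Fin m) (Fin m) ℂ} (hψ : Psi n m j ψ)
    (σ : ℂ ≃+* ℂ) :
    (ψ (φ (Δ σ)) + (((T σ : ℚ) * (2 * j / n - 1) + C σ : ℚ) : ℂ) • 1) *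
      (ψ (φ (Δ σ)) + (((T σ : ℚ) * (2 * j / n - 1) + C σ : ℚ) : ℂ) • 1) = 1 := by
  rcases h.cs σ with ⟨h1, h2, h3⟩ | ⟨h1, h2, U, h3, h4, h5⟩
  · rw [h3, map_zero, zero_add, h1, Matrix.smul_mul, Matrix.mul_smul, Matrix.one_mul, smul_smul]
    rcases h2 with h2 | h2 <;> rw [h2] <;> norm_num
  · have e0 : ψ (φ (Δ σ)) + (((T σ : ℚ) * (2 * j / n - 1) + C σ : ℚ) : ℂ) • 1 =
        (T σ : ℂ) • ((2 : ℂ) • ψ U - 1) := by
      rw [h5, map_smul, map_sub, map_smul, map_smul, hψ.one, h1]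
      push_cast
      module
    have e2 : (T σ : ℂ) * T σ = 1 := by
      rcases h2 with h2 | h2 <;> rw [h2] <;> norm_num
    rw [e0, Matrix.smul_mul, Matrix.mul_smul, smul_smul, e2, one_smul]
    simp only [Matrix.smul_mul, Matrix.mul_smul, Matrix.sub_mul, Matrix.mul_sub, Matrix.one_mul,
      Matrix.mul_one, hψ.sq U h3 h4]
    module

theorem TC.cjr (h : TC Δ n k φ T C) (hn : 4 ≤ n) (h4 : St_unit) (hG : Gd Δ) (hI : IrD Δ)
    (hA : ATD Δ n k φ ι) (ρ σ : ℂ ≃+* ℂ) :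
    T ((σ.trans cj).trans ρ) = -T (σ.trans ρ) ∧ C ((σ.trans cj).trans ρ) = -C (σ.trans ρ) := by
  have hd : (d : ℂ) ≠ 0 := Nat.cast_ne_zero.2 hI.1.ne'
  have hT : T ((σ.trans cj).trans ρ) = -1 * T (σ.trans ρ) := by
    obtain ⟨S, hS, hu⟩ := uni_phi h4 hG hA ρ.symm
    have h6 := hu σ
    rw [RingEquiv.symm_symm] at h6
    have h7 := tr_sim3 hS h6
    have hs := h.sqr (psi_id n) ρ
    rw [LinearMap.id_apply] at hs
    obtain ⟨E, hE⟩ : ∃ E, E = Δ ((σ.trans cj).trans ρ) := ⟨_, rfl⟩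
    obtain ⟨D, hD⟩ : ∃ D, D = Δ ρ := ⟨_, rfl⟩
    obtain ⟨a, ha⟩ : ∃ a : ℂ, a = (((T ρ : ℚ) * (2 * (1 : ℕ) / n - 1) + C ρ : ℚ) : ℂ) := ⟨_, rfl⟩
    have hEL : E ∈ LieD Δ := by rw [hE]; exact mem_D _
    have hDL : D ∈ LieD Δ := by rw [hD]; exact mem_D _
    have hDD : D * D = 1 := by rw [hD]; exact hG.sq _
    rw [← hE, ← hD] at h7
    rw [← hD, ← ha] at hs
    have e1 : φ (D * E * D) = (φ D + a • 1) * φ E * (φ D + a • 1) := by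
      rw [dbl hDD, dbl hs, map_sub, map_smul, hA.br D hDL _ (br_D hDL hEL), hA.br D hDL E hEL]
      congr 2
      simp only [add_mul, mul_add, Matrix.smul_mul, Matrix.mul_smul, one_mul, mul_one, mul_sub,
        sub_mul]
      abel
    have e2 : φ (D * E * D) * φ (D * E * D) * φ (D * E * D) =
        (φ D + a • 1) * (φ E * φ E * φ E) * (φ D + a • 1) := by
      rw [e1]
      obtain ⟨D', hD'⟩ : ∃ D', D' = φ D + a • (1 : Matrix (Fin n) (Fin n) ℂ) := ⟨_, rfl⟩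
      rw [← hD'] at hs ⊢
      calc D' * φ E * D' * (D' * φ E * D') * (D' * φ E * D')
          = D' * φ E * (D' * D') * φ E * (D' * D') * φ E * D' := by simp only [Matrix.mul_assoc]
        _ = D' * (φ E * φ E * φ E) * D' := by
          rw [hs]
          simp only [Matrix.mul_assoc, Matrix.one_mul]
    have e3 : trace (φ (D * E * D) * φ (D * E * D) * φ (D * E * D)) =
        trace (φ E * φ E * φ E) := by
      rw [e2, trace_mul_comm, ← Matrix.mul_assoc, hs, Matrix.one_mul]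
    rw [← mp_mul, ← mp_mul, ← mp_mul, ← mp_mul, mp_trace, mp_trace, e3, h.cube hn, hE,
      h.cube hn] at h7
    rw [map_ratCast, map_ratCast, map_ratCast] at h7
    apply h.of_T hn
    rw [h.cube hn]
    have h8 : (((kap n * (T ((σ.trans cj).trans ρ) : ℚ) : ℚ)) : ℂ) =
        -(((kap n * (T (σ.trans ρ) : ℚ) : ℚ)) : ℂ) := by
      rw [h7, neg_neg]
    rw [h8]
    push_cast
    ring
  have hC : C ((σ.trans cj).trans ρ) = -1 * C (σ.trans ρ) := by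
    obtain ⟨S₀, hS₀, hu⟩ := hG.uni ρ.symm
    have h6 := tr_sim hS₀ (hu σ)
    have e0 : Cjf Δ ρ.symm (RingEquiv.refl ℂ) = (Δ ρ).map ρ.symm := rfl
    have e1 : Cjf Δ ρ.symm σ = (Δ (σ.trans ρ)).map ρ.symm := rfl
    have e2 : Cjf Δ ρ.symm (σ.trans cj) = (Δ ((σ.trans cj).trans ρ)).map ρ.symm := rfl
    rw [e0, e1, e2, trace_mul_comm, ← Matrix.mul_assoc, ← mp_mul, hG.sq, mp_one, Matrix.one_mul,
      mp_trace, mp_trace] at h6
    have e3 : ∀ σ', trace (Δ σ') = (((T σ' : ℚ) * (2 * k / n - 1) + C σ' : ℚ) : ℂ) * (d : ℂ) := by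
      intro σ'
      rw [← h.Ceq σ', div_mul_cancel₀ _ hd]
    rw [e3, e3, map_mul, map_mul, map_ratCast, map_natCast, map_ratCast, map_mul, map_ratCast,
      map_natCast, map_natCast] at h6
    apply h.of_C hT
    rw [h.Ceq]
    have h7 : ((((T ((σ.trans cj).trans ρ) : ℚ) * (2 * k / n - 1) +
        C ((σ.trans cj).trans ρ) : ℚ)) : ℂ) =
        -((((T (σ.trans ρ) : ℚ) * (2 * k / n - 1) + C (σ.trans ρ) : ℚ)) : ℂ) := by
      apply mul_right_cancel₀ hd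
      rw [neg_mul, h6, neg_neg]
    rw [h7]
    push_cast
    ring
  exact ⟨by rw [hT]; ring, by rw [hC]; ring⟩

end psi

section fam

variable {d : ℕ} {Δ : (ℂ ≃+* ℂ) → Matrix (Fin d) (Fin d) ℂ} {n k : ℕ}
  {φ : Matrix (Fin d) (Fin d) ℂ →ₗ[ℂ] Matrix (Fin n) (Fin n) ℂ}
  {ι : (Fin d → ℂ) →ₗ[ℂ] ((Fin k → Fin n) → ℂ)} {T C : (ℂ ≃+* ℂ) → ℤ}

/-- The shift. -/
def sj (n j : ℕ) (T C : (ℂ ≃+* ℂ) → ℤ) (σ : ℂ ≃+* ℂ) : ℚ :=
  (T σ : ℚ) * (2 * j / n - 1) + C σ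

theorem TC.good (h : TC Δ n k φ T C) (hn : 4 ≤ n) (h2 : St_fam) (h4 : St_unit) (hG : Gd Δ)
    (hI : IrD Δ) (hA : ATD Δ n k φ ι) (hAl : AlgM φ) {m j : ℕ}
    {ψ : Matrix (Fin n) (Fin n) ℂ →ₗ[ℂ] Matrix (Fin m) (Fin m) ℂ} (hψ : Psi n m j ψ) :
    Gd fun σ => ψ (φ (Δ σ)) + ((sj n j T C σ : ℚ) : ℂ) • (1 : Matrix (Fin m) (Fin m) ℂ) := by
  refine h2 d Δ hG m (ψ.comp φ) (sj n j T C) ?_ ?_ ?_ ?_ ?_ ?_ ?_
  · intro i j' a b
    exact hψ.alg _ (hAl i j') a b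
  · intro X hX Y hY
    change ψ (φ (X * Y - Y * X)) = ψ (φ X) * ψ (φ Y) - ψ (φ Y) * ψ (φ X)
    rw [hA.br X hX Y hY, hψ.br]
  · intro σ
    exact h.sqr hψ σ
  · intro σ
    unfold sj
    rw [(h.odd hn hG σ).1, (h.odd hn hG σ).2]
    push_cast
    ring
  · intro ρ σ
    unfold sj
    rw [(h.cjr hn h4 hG hI hA ρ σ).1, (h.cjr hn h4 hG hI hA ρ σ).2]
    push_cast
    ring
  · obtain ⟨K, hK, h6⟩ := h.fld hn hG hAl
    refine ⟨K, hK, fun τ hτ σ => ?_⟩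
    unfold sj
    rw [(h6 τ hτ σ).1, (h6 τ hτ σ).2]
  · intro ρ
    obtain ⟨S, hS, hu⟩ := uni_phi h4 hG hA ρ
    obtain ⟨S', hS', hadj⟩ := hψ.adj S hS
    refine ⟨S', hS', fun σ => ?_⟩
    change ((ψ (φ (Δ (σ.trans ρ.symm)))).map ρ)ᴴ * S' =
      -(S' * (ψ (φ (Δ ρ.symm * Δ ((σ.trans cj).trans ρ.symm) * Δ ρ.symm))).map ρ)
    rw [hψ.mp, hψ.mp]
    have h7 := hadj _ (-(φ (Δ ρ.symm * Δ ((σ.trans cj).trans ρ.symm) * Δ ρ.symm)).map ρ)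
      ((hu σ).trans (Matrix.mul_neg _ _).symm)
    rw [h7, map_neg, Matrix.mul_neg]

theorem TC.line (h : TC Δ n k φ T C) (hn : 4 ≤ n) (h2 : St_fam) (h4 : St_unit) (hG : Gd Δ)
    (hI : IrD Δ) (hA : ATD Δ n k φ ι) (hAl : AlgM φ) {e : ℤ} (he : e = 1 ∨ e = -1) :
    (∀ σ, e * (T σ - C σ) = 1 ∨ e * (T σ - C σ) = -1) ∧
      Gd (lineD fun σ => e * (T σ - C σ)) := by
  have hF : ∀ σ, e * (T σ - C σ) = 1 ∨ e * (T σ - C σ) = -1 := by
    intro σ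
    rcases h.cs σ with ⟨h6, h7, -⟩ | ⟨h6, h7, -⟩
    · rw [h6]
      rcases h7 with h7 | h7 <;> rw [h7] <;> rcases he with he | he <;> rw [he] <;> norm_num
    · rw [h6]
      rcases h7 with h7 | h7 <;> rw [h7] <;> rcases he with he | he <;> rw [he] <;> norm_num
  refine ⟨hF, ?_⟩
  have h5 : (lineD fun σ => e * (T σ - C σ)) = fun σ =>
      (0 : Matrix (Fin d) (Fin d) ℂ →ₗ[ℂ] Matrix (Fin 1) (Fin 1) ℂ) (Δ σ) +
        (((e * (T σ - C σ) : ℤ) : ℚ) : ℂ) • (1 : Matrix (Fin 1) (Fin 1) ℂ) := by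
    funext σ
    ext a b
    have ha : a = b := Subsingleton.elim _ _
    subst ha
    rw [LinearMap.zero_apply, zero_add, Matrix.smul_apply, Matrix.one_apply_eq, smul_eq_mul,
      mul_one]
    unfold lineD
    push_cast
    rfl
  rw [h5]
  refine h2 d Δ hG 1 0 (fun σ => ((e * (T σ - C σ) : ℤ) : ℚ)) ?_ ?_ ?_ ?_ ?_ ?_ ?_
  · intro i j' a b
    exact isAlgebraic_zero
  · intro X _ Y _
    rw [LinearMap.zero_apply, LinearMap.zero_apply, LinearMap.zero_apply, Matrix.mul_zero,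
      sub_zero]
  · intro σ
    rw [LinearMap.zero_apply, zero_add, Matrix.smul_mul, Matrix.mul_smul, Matrix.one_mul,
      smul_smul]
    rcases hF σ with h6 | h6 <;> rw [h6] <;> norm_num
  · intro σ
    rw [(h.odd hn hG σ).1, (h.odd hn hG σ).2]
    push_cast
    ring
  · intro ρ σ
    rw [(h.cjr hn h4 hG hI hA ρ σ).1, (h.cjr hn h4 hG hI hA ρ σ).2]
    push_cast
    ring
  · obtain ⟨K, hK, h6⟩ := h.fld hn hG hAl
    refine ⟨K, hK, fun τ hτ σ => ?_⟩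
    rw [(h6 τ hτ σ).1, (h6 τ hτ σ).2]
  · intro ρ
    refine ⟨1, PosDef.one, fun σ => ?_⟩
    rw [LinearMap.zero_apply, LinearMap.zero_apply, mp_zero, conjTranspose_zero,
      Matrix.zero_mul, Matrix.mul_zero, neg_zero]

theorem rect_ext {p q : Type*} [Fintype p] [Fintype q] [DecidableEq q] {M N : Matrix p q ℂ}
    (h : ∀ v, M *ᵥ v = N *ᵥ v) : M = N := by
  apply (Matrix.toLin' (R := ℂ) (m := p) (n := q)).injective
  apply LinearMap.ext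
  intro v
  rw [toLin'_apply, toLin'_apply, h]

theorem tpD_mulVec {d₁ d₂ : ℕ} (A : Matrix (Fin d₁) (Fin d₁) ℂ) (A' : Matrix (Fin d₂) (Fin d₂) ℂ)
    (c : ℂ) (w : Fin d₁ × Fin d₂ → ℂ) (s : Fin d₁) (a : Fin d₂) :
    (tpD A A' c *ᵥ w) (s, a) = (A *ᵥ fun s' => w (s', a)) s + (A' *ᵥ fun b => w (s, b)) a +
      c * w (s, a) := by
  unfold tpD
  rw [add_mulVec, add_mulVec, smul_mulVec, one_mulVec, Pi.add_apply, Pi.add_apply, Pi.smul_apply,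
    smul_eq_mul]
  congr 2
  · rw [mvA, mvA, Fintype.sum_prod_type]
    refine Finset.sum_congr rfl fun s' _ => ?_
    rw [Finset.sum_eq_single a]
    · rw [kroneckerMap_apply, Matrix.one_apply_eq, mul_one]
    · intro b _ hb
      rw [kroneckerMap_apply, Matrix.one_apply_ne hb.symm, mul_zero, zero_mul]
    · intro hb
      exact absurd (Finset.mem_univ _) hb
  · rw [mvA, mvA, Fintype.sum_prod_type, Finset.sum_eq_single s]
    · refine Finset.sum_congr rfl fun b _ => ?_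
      rw [kroneckerMap_apply, Matrix.one_apply_eq, one_mul]
    · intro s' _ hs
      refine Finset.sum_eq_zero fun b _ => ?_
      rw [kroneckerMap_apply, Matrix.one_apply_ne hs.symm, zero_mul, zero_mul]
    · intro hb
      exact absurd (Finset.mem_univ _) hb

theorem RR_QQ {j : ℕ} (Y : Matrix (Fin n) (Fin n) ℂ) {y : (Fin j → Fin n) → ℂ} (hy : IsAlt y) :
    RR j Y *ᵥ (QQ n j *ᵥ y) = QQ n j *ᵥ (dm (Fin j) Y *ᵥ y) := by
  unfold RR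
  rw [← mulVec_mulVec, ← mulVec_mulVec, PQ_alt hy]

theorem dim_eq (hA : ATD Δ n k φ ι) : d = n.choose k := by
  let f : (Fin d → ℂ) →ₗ[ℂ] (Fin (n.choose k) → ℂ) := (toLin' (QQ n k)).comp ι
  have hf : ∀ v, f v = QQ n k *ᵥ ι v := fun v => rfl
  have h1 : Function.Injective f := by
    rw [← LinearMap.ker_eq_bot, LinearMap.ker_eq_bot']
    intro v hv
    rw [hf] at hv
    apply hA.inj
    rw [← PQ_alt (hA.al v), hv, mulVec_zero]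
  have h2 : Function.Surjective f := by
    intro y
    obtain ⟨v, hv⟩ := hA.sur _ (PP_mulVec_alt y)
    refine ⟨v, ?_⟩
    rw [hf, hv, mulVec_mulVec, QQ_PP, one_mulVec]
  have h3 := (LinearEquiv.ofBijective f ⟨h1, h2⟩).finrank_eq
  rwa [Module.finrank_fin_fun, Module.finrank_fin_fun] at h3

end fam

section caseA

variable {d : ℕ} {Δ : (ℂ ≃+* ℂ) → Matrix (Fin d) (Fin d) ℂ} {n j : ℕ}
  {φ : Matrix (Fin d) (Fin d) ℂ →ₗ[ℂ] Matrix (Fin n) (Fin n) ℂ}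
  {ι : (Fin d → ℂ) →ₗ[ℂ] ((Fin (j + 1) → Fin n) → ℂ)} {T C : (ℂ ≃+* ℂ) → ℤ}

/-- The homomorphism to the tensor product. -/
def NA (ι : (Fin d → ℂ) →ₗ[ℂ] ((Fin (j + 1) → Fin n) → ℂ)) :
    Matrix (Fin (n.choose j) × Fin n) (Fin d) ℂ :=
  of fun p i => ι (Pi.single i 1) (Fin.cons p.2 (od p.1))

theorem NA_mulVec (v : Fin d → ℂ) (s : Fin (n.choose j)) (a : Fin n) :
    (NA ι *ᵥ v) (s, a) = CC a (ι v) (od s) := by
  have h1 : v = ∑ i, v i • (Pi.single i 1 : Fin d → ℂ) := by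
    funext l
    simp [Finset.sum_apply, Pi.single_apply]
  conv_rhs => rw [h1, map_sum]
  rw [mvA]
  unfold CC
  rw [Finset.sum_apply]
  refine Finset.sum_congr rfl fun i _ => ?_
  rw [map_smul, Pi.smul_apply, smul_eq_mul, mul_comm]
  rfl

theorem NA_eq (hA : ATD Δ n (j + 1) φ ι) (h : TC Δ n (j + 1) φ T C) (σ : ℂ ≃+* ℂ) :
    tpD (RR j (φ (Δ σ)) + ((sj n j T C σ : ℚ) : ℂ) • 1)
      (φ (Δ σ) + ((sj n 1 T C σ : ℚ) : ℂ) • 1) ((1 * (T σ - C σ) : ℤ) : ℂ) * NA ι =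
      NA ι * Δ σ := by
  apply rect_ext
  intro v
  funext p
  obtain ⟨s, a⟩ := p
  rw [← mulVec_mulVec, ← mulVec_mulVec, tpD_mulVec, NA_mulVec, NA_mulVec, hA.eqv _ (mem_D σ),
    CC_add, CC_smul, CC_dm]
  have e1 : (fun s' => (NA ι *ᵥ v) (s', a)) = QQ n j *ᵥ (CC a (ι v)) := by
    funext s'
    rw [NA_mulVec, QQ_mulVec]
  have e2 : (fun b => (NA ι *ᵥ v) (s, b)) = fun b => CC b (ι v) (od s) := by
    funext b
    rw [NA_mulVec]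
  have e3 : trace (Δ σ) / d = ((sj n j T C σ : ℚ) : ℂ) + ((sj n 1 T C σ : ℚ) : ℂ) +
      ((1 * (T σ - C σ) : ℤ) : ℂ) := by
    rw [h.tr]
    unfold sj
    push_cast
    ring
  have e4 : (φ (Δ σ) *ᵥ fun b => CC b (ι v) (od s)) a =
      ∑ b, φ (Δ σ) a b * CC b (ι v) (od s) := mvA _ _ _
  rw [e1, e2, add_mulVec, smul_mulVec, one_mulVec, RR_QQ _ (CC_alt a (hA.al v)), Pi.add_apply,
    Pi.smul_apply, QQ_mulVec, QQ_mulVec, add_mulVec, smul_mulVec, one_mulVec, Pi.add_apply,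
    Pi.smul_apply, e4, e3]
  simp only [Pi.add_apply, Pi.smul_apply, Finset.sum_apply, smul_eq_mul]
  ring

theorem NA_ne (hd : 0 < d) (hA : ATD Δ n (j + 1) φ ι) : NA ι ≠ 0 := by
  intro h0
  have h1 : ι (Pi.single ⟨0, hd⟩ 1) ≠ 0 := by
    intro h2
    have h3 := congrFun (hA.inj _ h2) ⟨0, hd⟩
    rw [Pi.single_eq_same, Pi.zero_apply] at h3
    exact one_ne_zero h3
  obtain ⟨a, ha⟩ := CC_ne h1
  apply ha
  apply alt_ext (CC_alt a (hA.al _))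
  intro s
  rw [← NA_mulVec, h0, zero_mulVec]
  rfl

end caseA

section caseB

variable {d : ℕ} {Δ : (ℂ ≃+* ℂ) → Matrix (Fin d) (Fin d) ℂ} {n k : ℕ}
  {φ : Matrix (Fin d) (Fin d) ℂ →ₗ[ℂ] Matrix (Fin n) (Fin n) ℂ}
  {ι : (Fin d → ℂ) →ₗ[ℂ] ((Fin k → Fin n) → ℂ)} {T C : (ℂ ≃+* ℂ) → ℤ}

/-- The contraction. -/
def LB (n k : ℕ) : (Fin (n.choose (k + 1)) × Fin n → ℂ) →ₗ[ℂ] ((Fin k → Fin n) → ℂ) where
  toFun w := ∑ a, CC a (PP n (k + 1) *ᵥ fun s => w (s, a))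
  map_add' v w := by
    rw [← Finset.sum_add_distrib]
    refine Finset.sum_congr rfl fun a _ => ?_
    rw [← CC_add, ← mulVec_add]
    rfl
  map_smul' c w := by
    rw [RingHom.id_apply, Finset.smul_sum]
    refine Finset.sum_congr rfl fun a _ => ?_
    rw [← CC_smul, ← mulVec_smul]
    rfl

theorem LB_apply (w : Fin (n.choose (k + 1)) × Fin n → ℂ) :
    LB n k w = ∑ a, CC a (PP n (k + 1) *ᵥ fun s => w (s, a)) := rfl

theorem LB_alt (w : Fin (n.choose (k + 1)) × Fin n → ℂ) : IsAlt (LB n k w) := by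
  rw [LB_apply]
  exact alt_sum _ _ fun a _ => CC_alt a (PP_mulVec_alt _)

theorem LB_tp (Y : Matrix (Fin n) (Fin n) ℂ) (s s1 c : ℂ)
    (w : Fin (n.choose (k + 1)) × Fin n → ℂ) :
    LB n k (tpD (RR (k + 1) Y + s • 1) (-(Y + s1 • 1)ᵀ) c *ᵥ w) =
      dm (Fin k) Y *ᵥ LB n k w + (s - s1 + c) • LB n k w := by
  have e1 : ∀ a, CC a (PP n (k + 1) *ᵥ
      fun t => (tpD (RR (k + 1) Y + s • 1) (-(Y + s1 • 1)ᵀ) c *ᵥ w) (t, a)) =
      ((∑ b, Y a b • CC b (PP n (k + 1) *ᵥ fun t => w (t, a))) +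
        dm (Fin k) Y *ᵥ CC a (PP n (k + 1) *ᵥ fun t => w (t, a))) +
      (s - s1 + c) • CC a (PP n (k + 1) *ᵥ fun t => w (t, a)) -
      ∑ b, Y b a • CC a (PP n (k + 1) *ᵥ fun t => w (t, b)) := by
    intro a
    have e2 : (fun t => (tpD (RR (k + 1) Y + s • 1) (-(Y + s1 • 1)ᵀ) c *ᵥ w) (t, a)) =
        RR (k + 1) Y *ᵥ (fun t => w (t, a)) + (s - s1 + c) • (fun t => w (t, a)) -
          ∑ b, Y b a • fun t => w (t, b) := by
      funext t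
      rw [tpD_mulVec, add_mulVec, smul_mulVec, one_mulVec, neg_mulVec, transpose_add,
        transpose_smul, transpose_one, add_mulVec, smul_mulVec, one_mulVec]
      simp only [Pi.add_apply, Pi.sub_apply, Pi.neg_apply, Pi.smul_apply, smul_eq_mul,
        Finset.sum_apply, mvA, transpose_apply]
      ring
    rw [e2, mulVec_sub, mulVec_add, mulVec_smul, mulVec_mulVec, PP_RR, ← mulVec_mulVec,
      mulVec_sum, ← CC_dm]
    funext I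
    unfold CC
    simp only [Pi.add_apply, Pi.sub_apply, Pi.smul_apply, smul_eq_mul, Finset.sum_apply,
      mulVec_smul]
  rw [LB_apply, Finset.sum_congr rfl fun a _ => e1 a, Finset.sum_sub_distrib,
    Finset.sum_add_distrib, Finset.sum_add_distrib, Finset.sum_comm, ← Finset.smul_sum,
    ← mulVec_sum, ← LB_apply]
  have e3 : ∑ b, ∑ a, Y a b • CC b (PP n (k + 1) *ᵥ fun t => w (t, a)) =
      ∑ a, ∑ b, Y b a • CC a (PP n (k + 1) *ᵥ fun t => w (t, b)) := rfl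
  rw [e3]
  abel

theorem exists_kp' (hA : ATD Δ n k φ ι) : ∃ κ' : ((Fin k → Fin n) → ℂ) →ₗ[ℂ] (Fin d → ℂ),
    (∀ v, κ' (ι v) = v) ∧ ∀ x, IsAlt x → ι (κ' x) = x := by
  obtain ⟨g, hg⟩ := LinearMap.exists_leftInverse_of_injective ι
    (LinearMap.ker_eq_bot'.2 hA.inj)
  have h1 : ∀ v, g (ι v) = v := fun v => LinearMap.congr_fun hg v
  refine ⟨g, h1, fun x hx => ?_⟩
  obtain ⟨v, rfl⟩ := hA.sur x hx
  rw [h1]

theorem NB (hA : ATD Δ n k φ ι) (h : TC Δ n k φ T C) (hk : k + 1 ≤ n) :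
    ∃ N : Matrix (Fin d) (Fin (n.choose (k + 1)) × Fin n) ℂ, N ≠ 0 ∧ ∀ σ,
      Δ σ * N = N * tpD (RR (k + 1) (φ (Δ σ)) + ((sj n (k + 1) T C σ : ℚ) : ℂ) • 1)
        (-(φ (Δ σ) + ((sj n 1 T C σ : ℚ) : ℂ) • 1)ᵀ) ((-1 * (T σ - C σ) : ℤ) : ℂ) := by
  obtain ⟨κ', h1, h2⟩ := exists_kp' hA
  have h3 : ∀ w, LinearMap.toMatrix' (κ'.comp (LB n k)) *ᵥ w = κ' (LB n k w) := by
    intro w
    rw [LinearMap.toMatrix'_mulVec]
    rfl
  refine ⟨LinearMap.toMatrix' (κ'.comp (LB n k)), ?_, fun σ => ?_⟩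
  · intro h0
    have h4 : 0 < n.choose (k + 1) := Nat.choose_pos hk
    have h5 : PP n (k + 1) *ᵥ Pi.single ⟨0, h4⟩ 1 ≠ 0 := by
      intro h6
      have h7 := congrArg (fun t => QQ n (k + 1) *ᵥ t) h6
      beta_reduce at h7
      rw [mulVec_mulVec, QQ_PP, one_mulVec, mulVec_zero] at h7
      have h8 := congrFun h7 ⟨0, h4⟩
      rw [Pi.single_eq_same, Pi.zero_apply] at h8
      exact one_ne_zero h8
    obtain ⟨a, ha⟩ := CC_ne h5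
    let w : Fin (n.choose (k + 1)) × Fin n → ℂ := fun p =>
      if p.2 = a then (Pi.single ⟨0, h4⟩ 1 : Fin (n.choose (k + 1)) → ℂ) p.1 else 0
    have h6 : LB n k w = CC a (PP n (k + 1) *ᵥ Pi.single ⟨0, h4⟩ 1) := by
      rw [LB_apply, Finset.sum_eq_single a]
      · congr 2
        funext s
        exact if_pos rfl
      · intro b _ hb
        have h7 : (fun s => w (s, b)) = 0 := by
          funext s
          exact if_neg hb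
        rw [h7, mulVec_zero]
        rfl
      · intro hb
        exact absurd (Finset.mem_univ _) hb
    apply ha
    rw [← h6, ← h2 _ (LB_alt w), ← h3, h0, zero_mulVec, map_zero]
  · apply rect_ext
    intro w
    rw [← mulVec_mulVec, ← mulVec_mulVec, h3, h3]
    have e3 : trace (Δ σ) / d = ((sj n (k + 1) T C σ : ℚ) : ℂ) - ((sj n 1 T C σ : ℚ) : ℂ) +
        ((-1 * (T σ - C σ) : ℤ) : ℂ) := by
      rw [h.tr]
      unfold sj
      push_cast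
      ring
    have h4 : ι (Δ σ *ᵥ κ' (LB n k w)) = LB n k
        (tpD (RR (k + 1) (φ (Δ σ)) + ((sj n (k + 1) T C σ : ℚ) : ℂ) • 1)
        (-(φ (Δ σ) + ((sj n 1 T C σ : ℚ) : ℂ) • 1)ᵀ) ((-1 * (T σ - C σ) : ℤ) : ℂ) *ᵥ w) := by
      rw [hA.eqv _ (mem_D σ), h2 _ (LB_alt w), LB_tp, e3]
    rw [← h4, h1]

end caseB

end GK12

open GK12

/-- **K12.** -/
theorem r2_of (h1 : St_r2a) (h2 : St_fam) (h3 : St_dtc) (h4 : St_unit) (h5 : St_typ) : St_r2 := by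
  intro d Δ hG hI hex
  obtain ⟨n, k, φ₀, ι₀, hA₀⟩ := hex
  obtain ⟨φ, ι, hA, hAl⟩ := h1 d Δ hG hI n k φ₀ ι₀ hA₀
  obtain ⟨T, C, hTC⟩ := exists_TC h5 hG hI hA
  have hk2 := hA.k2
  have hkn := hA.kn
  have hn : 4 ≤ n := by omega
  have hd := dim_eq hA
  have hnd : n < d := by
    rw [hd]
    exact choose_gt hk2 hkn
  have hW := hTC.good hn h2 h4 hG hI hA hAl (psi_id n)
  by_cases hc : 2 * k ≤ n
  · obtain ⟨j, rfl⟩ : ∃ j, k = j + 1 := ⟨k - 1, by omega⟩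
    have hV := hTC.good hn h2 h4 hG hI hA hAl (psi_RR n j)
    have hF := hTC.line hn h2 h4 hG hI hA hAl (e := 1) (Or.inl rfl)
    refine ⟨n.choose j, n, _, _, fun σ => 1 * (T σ - C σ), Nat.choose_pos (by omega), by omega, ?_,
      hnd, hV, hW, hF.1, hF.2, Or.inr ⟨NA ι, NA_ne hI.1 hA, fun σ => NA_eq hA hTC σ⟩⟩
    rw [hd]
    exact choose_lt_up hc
  · have hV := hTC.good hn h2 h4 hG hI hA hAl (psi_RR n (k + 1))
    have hF := hTC.line hn h2 h4 hG hI hA hAl (e := -1) (Or.inr rfl)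
    obtain ⟨N, hN0, hN⟩ := NB hA hTC (by omega)
    refine ⟨n.choose (k + 1), n, _, _, fun σ => -1 * (T σ - C σ), Nat.choose_pos (by omega),
      by omega, ?_, hnd, hV, (h3 n _ (by omega) hW).1, hF.1, hF.2, Or.inl ⟨N, hN0, fun σ => hN σ⟩⟩
    rw [hd]
    exact choose_lt_down (by omega) (by omega)


end

end Pool.Agent.NH32
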