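import Mathlib
import Pool.Agent.NH32.GtB
import Pool.Agent.NH32.GJ14

/-!
# Project G, stage 2, job GK13: finitely many constituents and the large hull (helper48)
-/

set_option linter.unusedSectionVars false

namespace Pool.Agent.NH32

open Matrix Module Pool.Agent.W437.HC Pool.Agent.W437.HD Pool.Agent.TH504.CB Pool.Agent.Y90
open Pool.Agent.H204R3.CM (IsHodge)
open Pool.Agent.W548.Odd hiding cv

noncomputable section

namespace GK13

open GJ14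

variable {X : AV}

theorem IsD_unique {σ : ℂ ≃+* ℂ} {f g g' : X.H →ₗ[ℚ] ℂ} (h : IsD X σ f g) (h' : IsD X σ f g') :
    g = g' := by
  have h1 := IsD_add h (IsD_smul (-1) h')
  have h2 : f + (-1 : ℂ) • f = 0 := by rw [neg_smul, one_smul, add_neg_cancel]
  rw [h2] at h1
  have h3 := IsD_zero_eq h1
  rw [neg_smul, one_smul, ← sub_eq_add_neg, sub_eq_zero] at h3
  exact h3

/-- Combinations. -/
def Ph {d : ℕ} (P : Fin d → (X.H →ₗ[ℚ] ℂ)) : (Fin d → ℂ) →ₗ[ℂ] (X.H →ₗ[ℚ] ℂ) where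
  toFun w := ∑ k, w k • P k
  map_add' v w := by
    simp only [Pi.add_apply, add_smul, Finset.sum_add_distrib]
  map_smul' c v := by
    simp only [Pi.smul_apply, smul_eq_mul, mul_smul, Finset.smul_sum, RingHom.id_apply]

theorem Ph_apply {d : ℕ} (P : Fin d → (X.H →ₗ[ℚ] ℂ)) (w : Fin d → ℂ) :
    Ph P w = ∑ k, w k • P k := rfl

theorem Ph_D {d : ℕ} {P : Fin d → (X.H →ₗ[ℚ] ℂ)} {D : Matrix (Fin d) (Fin d) ℂ} {σ : ℂ ≃+* ℂ}
    (hD : ∀ j, IsD X σ (P j) (∑ i, D i j • P i)) (w : Fin d → ℂ) :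
    IsD X σ (Ph P w) (Ph P (D *ᵥ w)) := by
  have h1 := IsD_sum Finset.univ w _ _ hD
  have h2 : Ph P (D *ᵥ w) = ∑ k, w k • ∑ i, D i k • P i := by
    rw [Ph_apply]
    simp only [Matrix.mulVec, dotProduct, Finset.sum_smul, Finset.smul_sum, smul_smul]
    rw [Finset.sum_comm]
    refine Finset.sum_congr rfl fun i _ => Finset.sum_congr rfl fun k _ => ?_
    rw [mul_comm]
  rw [h2]
  exact h1

/-- Realizations by linear maps. -/
theorem rz_iff {d : ℕ} {Δ : (ℂ ≃+* ℂ) → Matrix (Fin d) (Fin d) ℂ} : Rz X d Δ ↔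
    ∃ Φ : (Fin d → ℂ) →ₗ[ℂ] (X.H →ₗ[ℚ] ℂ), Function.Injective Φ ∧
      ∀ σ w, IsD X σ (Φ w) (Φ (Δ σ *ᵥ w)) := by
  constructor
  · rintro ⟨P, hP, hD⟩
    refine ⟨Ph P, ?_, fun σ w => Ph_D (hD σ) w⟩
    rw [Fintype.linearIndependent_iff] at hP
    rw [injective_iff_map_eq_zero]
    intro w hw
    funext i
    exact hP w hw i
  · rintro ⟨Φ, hΦ, hD⟩
    refine ⟨fun j => Φ (Pi.single j 1), ?_, fun σ j => ?_⟩
    · have h1 := (Pi.basisFun ℂ (Fin d)).linearIndependent.map' Φ (LinearMap.ker_eq_bot.2 hΦ)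
      have h2 : (Φ ∘ (Pi.basisFun ℂ (Fin d)) : Fin d → (X.H →ₗ[ℚ] ℂ)) =
          fun j => Φ (Pi.single j 1) := by
        funext j
        rw [Function.comp_apply, Pi.basisFun_apply]
      rwa [h2] at h1
    · have h1 := hD σ (Pi.single j 1)
      have h2 : Φ (Δ σ *ᵥ Pi.single j 1) = ∑ i, Δ σ i j • Φ (Pi.single i 1) := by
        rw [Matrix.mulVec_single_one]
        have h3 : (Δ σ).col j = ∑ i, Δ σ i j • (Pi.single i (1 : ℂ) : Fin d → ℂ) := by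
          funext k
          rw [Finset.sum_apply, Finset.sum_eq_single k]
          · rw [Pi.smul_apply, Pi.single_eq_same, smul_eq_mul, mul_one]
            rfl
          · intro b _ hb
            rw [Pi.smul_apply, Pi.single_eq_of_ne (Ne.symm hb), smul_zero]
          · intro h
            exact absurd (Finset.mem_univ k) h
        rw [h3, map_sum]
        refine Finset.sum_congr rfl fun i _ => ?_
        rw [map_smul]
      rwa [h2] at h1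

/-! ### finitely many constituents -/

/-- Irreducible modules with a map to the cohomology. -/
structure Con (X : AV) where
  d : ℕ
  Δ : (ℂ ≃+* ℂ) → Matrix (Fin d) (Fin d) ℂ
  Φ : (Fin d → ℂ) →ₗ[ℂ] (X.H →ₗ[ℚ] ℂ)
  ir : IrD Δ
  inj : Function.Injective Φ
  D : ∀ σ w, IsD X σ (Φ w) (Φ (Δ σ *ᵥ w))

/-- The sum map. -/
def Tot {ι : Type} [Fintype ι] (c : ι → Con X) : (∀ i, Fin (c i).d → ℂ) →ₗ[ℂ] (X.H →ₗ[ℚ] ℂ) where
  toFun v := ∑ i, (c i).Φ (v i)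
  map_add' v w := by
    simp only [Pi.add_apply, map_add, Finset.sum_add_distrib]
  map_smul' c v := by
    simp only [Pi.smul_apply, map_smul, Finset.smul_sum, RingHom.id_apply]

theorem Tot_apply {ι : Type} [Fintype ι] (c : ι → Con X) (v : ∀ i, Fin (c i).d → ℂ) :
    Tot c v = ∑ i, (c i).Φ (v i) := rfl

theorem Tot_D {ι : Type} [Fintype ι] (c : ι → Con X) (σ : ℂ ≃+* ℂ) (v : ∀ i, Fin (c i).d → ℂ) :
    IsD X σ (Tot c v) (Tot c fun i => (c i).Δ σ *ᵥ v i) := by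
  have h1 := IsD_sum Finset.univ (fun _ : ι => (1 : ℂ)) _ _ fun i => (c i).D σ (v i)
  simp only [one_smul] at h1
  exact h1

theorem Tot_le {ι : Type} [Fintype ι] (c : ι → Con X) (hc : Function.Injective (Tot c)) :
    ∑ i, (c i).d ≤ finrank ℂ (X.H →ₗ[ℚ] ℂ) := by
  have h1 := LinearMap.finrank_le_finrank_of_injective hc
  rw [Module.finrank_pi_fintype] at h1
  simpa only [Module.finrank_fin_fun] using h1

theorem ex_con (X : AV) : ∃ (ι : Type) (_ : Fintype ι) (c : ι → Con X),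
    Function.Injective (Tot c) ∧ ∀ (κ : Type) [Fintype κ] (c' : κ → Con X),
      Function.Injective (Tot c') → ∑ i, (c' i).d ≤ ∑ i, (c i).d := by
  let S : Set ℕ := {n | ∃ (ι : Type) (_ : Fintype ι) (c : ι → Con X),
    Function.Injective (Tot c) ∧ ∑ i, (c i).d = n}
  have hne : S.Nonempty := by
    refine ⟨0, Empty, inferInstance, fun i => i.elim, ?_, ?_⟩
    · intro v w _
      funext i
      exact i.elim
    · exact Finset.sum_of_isEmpty _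
  have hb : BddAbove S := by
    refine ⟨finrank ℂ (X.H →ₗ[ℚ] ℂ), ?_⟩
    rintro n ⟨ι, _, c, hc, rfl⟩
    exact Tot_le c hc
  obtain ⟨ι, hι, c, hc, hn⟩ := Nat.sSup_mem hne hb
  refine ⟨ι, hι, c, hc, ?_⟩
  intro κ _ c' hc'
  rw [hn]
  exact le_csSup hb ⟨κ, inferInstance, c', hc', rfl⟩

/-- The family with one more member. -/
def ext1 {ι : Type} (c₀ : Con X) (c : ι → Con X) : Option ι → Con X
  | none => c₀
  | some i => c i

end GK13

open GK13 GJ14 in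
/-- **K13a.** -/
theorem fin_of : St_fin := by
  intro X
  obtain ⟨ι, _, c, hc, hmax⟩ := ex_con X
  have key : ∀ c₀ : Con X, ∃ i, ∃ G : Matrix (Fin (c i).d) (Fin c₀.d) ℂ, G ≠ 0 ∧
      ∀ σ, (c i).Δ σ * G = G * c₀.Δ σ := by
    intro c₀
    let W : Submodule ℂ (Fin c₀.d → ℂ) := (LinearMap.range (Tot c)).comap c₀.Φ
    have hW : ∀ σ, ∀ w ∈ W, c₀.Δ σ *ᵥ w ∈ W := by
      intro σ w hw
      obtain ⟨v, hv⟩ := hw
      refine ⟨fun i => (c i).Δ σ *ᵥ v i, ?_⟩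
      have h1 := Tot_D c σ v
      rw [hv] at h1
      exact IsD_unique h1 (c₀.D σ w)
    rcases c₀.ir.2 W hW with h0 | h0
    · exfalso
      have h1 : Function.Injective (Tot (ext1 c₀ c)) := by
        rw [injective_iff_map_eq_zero]
        intro v hv
        rw [Tot_apply, Fintype.sum_option] at hv
        obtain ⟨w₀, hw₀⟩ : ∃ w₀ : Fin c₀.d → ℂ, w₀ = v none := ⟨_, rfl⟩
        obtain ⟨w, hw⟩ : ∃ w : ∀ i, Fin (c i).d → ℂ, ∀ i, w i = v (some i) :=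
          ⟨fun i => v (some i), fun i => rfl⟩
        have hv' : c₀.Φ w₀ + Tot c w = 0 := by
          rw [Tot_apply, hw₀]
          have h3 : ∑ i, (c i).Φ (w i) = ∑ i, (ext1 c₀ c (some i)).Φ (v (some i)) :=
            Finset.sum_congr rfl fun i _ => congrArg (c i).Φ (hw i)
          rw [h3]
          exact hv
        have h2 : w₀ ∈ W := by
          refine ⟨-w, ?_⟩
          rw [map_neg, neg_eq_iff_add_eq_zero, add_comm]
          exact hv'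
        rw [h0, Submodule.mem_bot] at h2
        rw [h2, map_zero, zero_add, ← map_zero (Tot c)] at hv'
        have h5 := hc hv'
        funext o
        rcases o with _ | i
        · exact hw₀.symm.trans h2
        · exact (hw i).symm.trans (congrFun h5 i)
      have h6 := hmax (Option ι) (ext1 c₀ c) h1
      rw [Fintype.sum_option] at h6
      have h7 := c₀.ir.1
      have h8 : c₀.d + ∑ i, (c i).d ≤ ∑ i, (c i).d := h6
      omega
    · have h1 : ∀ k, ∃ v, Tot c v = c₀.Φ (Pi.single k 1) := by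
        intro k
        have : Pi.single k 1 ∈ W := by rw [h0]; trivial
        exact this
      choose v hv using h1
      have h2 : ∀ σ k i, (c i).Δ σ *ᵥ v k i = ∑ l, c₀.Δ σ l k • v l i := by
        intro σ k
        have h3 := Tot_D c σ (v k)
        rw [hv] at h3
        have h4 := IsD_unique h3 (c₀.D σ (Pi.single k 1))
        have h5 : c₀.Φ (c₀.Δ σ *ᵥ Pi.single k 1) = Tot c (∑ l, c₀.Δ σ l k • v l) := by
          rw [map_sum, Matrix.mulVec_single_one]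
          have h3 : (c₀.Δ σ).col k = ∑ i, c₀.Δ σ i k • (Pi.single i (1 : ℂ) : Fin c₀.d → ℂ) := by
            funext l
            rw [Finset.sum_apply, Finset.sum_eq_single l]
            · rw [Pi.smul_apply, Pi.single_eq_same, smul_eq_mul, mul_one]
              rfl
            · intro b _ hb
              rw [Pi.smul_apply, Pi.single_eq_of_ne (Ne.symm hb), smul_zero]
            · intro h
              exact absurd (Finset.mem_univ l) h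
          rw [h3, map_sum]
          refine Finset.sum_congr rfl fun i _ => ?_
          rw [map_smul, map_smul, hv]
        rw [h5] at h4
        have h6 := hc h4
        intro i
        have h7 := congrFun h6 i
        rw [h7, Finset.sum_apply]
        rfl
      have hd : 0 < c₀.d := c₀.ir.1
      have h3 : ∃ i, v ⟨0, hd⟩ i ≠ 0 := by
        by_contra hno
        push Not at hno
        have h4 : v ⟨0, hd⟩ = 0 := funext hno
        have h5 := hv ⟨0, hd⟩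
        rw [h4, map_zero] at h5
        have h6 := c₀.inj ((map_zero c₀.Φ).trans h5)
        have h7 := congrFun h6 ⟨0, hd⟩
        rw [Pi.single_eq_same] at h7
        exact zero_ne_one h7
      obtain ⟨i, hi⟩ := h3
      refine ⟨i, Matrix.of fun j k => v k i j, ?_, ?_⟩
      · intro h4
        apply hi
        funext j
        exact congrFun (congrFun h4 j) ⟨0, hd⟩
      · intro σ
        ext j k
        have h5 := congrFun (h2 σ k i) j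
        rw [Finset.sum_apply] at h5
        rw [Matrix.mul_apply, Matrix.mul_apply]
        refine Eq.trans h5 (Finset.sum_congr rfl fun l _ => ?_)
        rw [Pi.smul_apply, smul_eq_mul, mul_comm]
        rfl
  let e := Fintype.equivFin ι
  refine ⟨Fintype.card ι, fun i => (c (e.symm i)).d, fun i => (c (e.symm i)).Δ, fun i => ?_, ?_⟩
  · exact ⟨(c (e.symm i)).ir, rz_iff.2 ⟨(c (e.symm i)).Φ, (c (e.symm i)).inj, (c (e.symm i)).D⟩⟩
  · intro d' Δ' hI hR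
    obtain ⟨Φ, hΦ, hD⟩ := rz_iff.1 hR
    obtain ⟨i₀, hG⟩ := key ⟨d', Δ', Φ, hI, hΦ, hD⟩
    obtain ⟨i, rfl⟩ := e.symm.surjective i₀
    exact ⟨i, hG⟩

namespace GK13

open GJ14

/-! ### isomorphic families -/

variable {d : ℕ} {Δ Δ' Δ'' : (ℂ ≃+* ℂ) → Matrix (Fin d) (Fin d) ℂ} {X X' : AV}

theorem iso_symm (h : IsoD Δ Δ') : IsoD Δ' Δ := by
  obtain ⟨G, Gi, h1, h2, h3⟩ := h
  refine ⟨Gi, G, h2, h1, fun σ => ?_⟩
  have h4 : Gi * (Δ' σ * G) * Gi = Gi * (G * Δ σ) * Gi := by rw [h3]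
  rw [← mul_assoc Gi G, h2, one_mul, mul_assoc, mul_assoc, h1, mul_one] at h4
  exact h4.symm

theorem iso_trans (h : IsoD Δ Δ') (h' : IsoD Δ' Δ'') : IsoD Δ Δ'' := by
  obtain ⟨G, Gi, h1, h2, h3⟩ := h
  obtain ⟨H, Hi, k1, k2, k3⟩ := h'
  refine ⟨H * G, Gi * Hi, ?_, ?_, fun σ => ?_⟩
  · rw [mul_assoc, ← mul_assoc G, h1, one_mul, k1]
  · rw [mul_assoc, ← mul_assoc Hi, k2, one_mul, h2]
  · rw [← mul_assoc, k3, mul_assoc, h3, mul_assoc]

theorem iso_eq {G Gi : Matrix (Fin d) (Fin d) ℂ} (h1 : G * Gi = 1)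
    (h3 : ∀ σ, Δ' σ * G = G * Δ σ) (σ : ℂ ≃+* ℂ) : Δ' σ = G * Δ σ * Gi := by
  rw [← h3, mul_assoc, h1, mul_one]

theorem iso_rz (h : IsoD Δ Δ') (hR : Rz X d Δ) : Rz X d Δ' := by
  obtain ⟨G, Gi, h1, h2, h3⟩ := h
  obtain ⟨Φ, hΦ, hD⟩ := rz_iff.1 hR
  refine rz_iff.2 ⟨Φ ∘ₗ Matrix.mulVecLin Gi, ?_, fun σ w => ?_⟩
  · refine hΦ.comp ?_
    intro v w hvw
    have h4 : G *ᵥ (Gi *ᵥ v) = G *ᵥ (Gi *ᵥ w) := congrArg (fun x => G *ᵥ x) hvw
    rwa [Matrix.mulVec_mulVec, Matrix.mulVec_mulVec, h1, Matrix.one_mulVec, Matrix.one_mulVec]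
      at h4
  · have h4 := hD σ (Gi *ᵥ w)
    have h5 : Δ σ *ᵥ (Gi *ᵥ w) = Gi *ᵥ (Δ' σ *ᵥ w) := by
      rw [Matrix.mulVec_mulVec, Matrix.mulVec_mulVec, iso_eq h1 h3, ← mul_assoc, ← mul_assoc, h2,
        one_mul]
    rw [h5] at h4
    exact h4

theorem schur_inj {d₁ d₂ : ℕ} {Δ : (ℂ ≃+* ℂ) → Matrix (Fin d₁) (Fin d₁) ℂ}
    {Δ' : (ℂ ≃+* ℂ) → Matrix (Fin d₂) (Fin d₂) ℂ} (h' : IrD Δ') {G : Matrix (Fin d₁) (Fin d₂) ℂ}
    (hG : G ≠ 0) (hi : ∀ σ, Δ σ * G = G * Δ' σ) : Function.Injective (Matrix.mulVecLin G) := by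
  rw [← LinearMap.ker_eq_bot]
  rcases h'.2 (LinearMap.ker (Matrix.mulVecLin G)) (by
    intro σ w hw
    rw [LinearMap.mem_ker, Matrix.mulVecLin_apply] at hw ⊢
    rw [Matrix.mulVec_mulVec, ← hi, ← Matrix.mulVec_mulVec, hw, Matrix.mulVec_zero]) with h | h
  · exact h
  · exfalso
    apply hG
    have h8 : Matrix.mulVecLin G = 0 := LinearMap.ker_eq_top.mp h
    ext i j
    have h9 := congrFun (LinearMap.congr_fun h8 (Pi.single j 1)) i
    rw [Matrix.mulVecLin_apply, Matrix.mulVec_single_one] at h9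
    exact h9

theorem schur_dim {d₁ d₂ : ℕ} {Δ : (ℂ ≃+* ℂ) → Matrix (Fin d₁) (Fin d₁) ℂ}
    {Δ' : (ℂ ≃+* ℂ) → Matrix (Fin d₂) (Fin d₂) ℂ} (h : IrD Δ) (h' : IrD Δ')
    {G : Matrix (Fin d₁) (Fin d₂) ℂ} (hG : G ≠ 0) (hi : ∀ σ, Δ σ * G = G * Δ' σ) : d₂ = d₁ := by
  have h1 := schur_inj h' hG hi
  have h2 : LinearMap.range (Matrix.mulVecLin G) = ⊤ := by
    rcases h.2 (LinearMap.range (Matrix.mulVecLin G)) (by
      rintro σ w ⟨v, rfl⟩
      refine ⟨Δ' σ *ᵥ v, ?_⟩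
      rw [Matrix.mulVecLin_apply, Matrix.mulVecLin_apply, Matrix.mulVec_mulVec,
        Matrix.mulVec_mulVec, hi]) with h | h
    · exfalso
      apply hG
      have h8 : Matrix.mulVecLin G = 0 := LinearMap.range_eq_bot.mp h
      ext i j
      have h9 := congrFun (LinearMap.congr_fun h8 (Pi.single j 1)) i
      rw [Matrix.mulVecLin_apply, Matrix.mulVec_single_one] at h9
      exact h9
    · exact h
  have h3 := LinearEquiv.finrank_eq
    (LinearEquiv.ofBijective (Matrix.mulVecLin G) ⟨h1, LinearMap.range_eq_top.1 h2⟩)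
  rwa [Module.finrank_fin_fun, Module.finrank_fin_fun] at h3

theorem schur_iso (h' : IrD Δ') {G : Matrix (Fin d) (Fin d) ℂ} (hG : G ≠ 0)
    (hi : ∀ σ, Δ σ * G = G * Δ' σ) : IsoD Δ' Δ := by
  have h1 := schur_inj h' hG hi
  have h2 : IsUnit G := Matrix.mulVec_injective_iff_isUnit.1 h1
  have h3 : IsUnit G.det := (Matrix.isUnit_iff_isUnit_det G).1 h2
  exact ⟨G, G⁻¹, Matrix.mul_nonsing_inv G h3, Matrix.nonsing_inv_mul G h3, hi⟩

/-- Change of the name of the dimension. -/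
def cst {d m : ℕ} (h : d = m) (Δ : (ℂ ≃+* ℂ) → Matrix (Fin d) (Fin d) ℂ) :
    (ℂ ≃+* ℂ) → Matrix (Fin m) (Fin m) ℂ := h ▸ Δ

theorem cst_ir {d m : ℕ} (h : d = m) {Δ : (ℂ ≃+* ℂ) → Matrix (Fin d) (Fin d) ℂ} (hI : IrD Δ) :
    IrD (cst h Δ) := by
  subst h
  exact hI

theorem cst_rz {d m : ℕ} (h : d = m) {Δ : (ℂ ≃+* ℂ) → Matrix (Fin d) (Fin d) ℂ}
    (hR : Rz X d Δ) : Rz X m (cst h Δ) := by
  subst h
  exact hR

theorem cst_iso {d m : ℕ} (h : d = m) {Δ : (ℂ ≃+* ℂ) → Matrix (Fin d) (Fin d) ℂ}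
    {Δ' : (ℂ ≃+* ℂ) → Matrix (Fin m) (Fin m) ℂ} (h' : IrD Δ') {G : Matrix (Fin d) (Fin m) ℂ}
    (hG : G ≠ 0) (hi : ∀ σ, Δ σ * G = G * Δ' σ) : IsoD (cst h Δ) Δ' := by
  subst h
  exact iso_symm (schur_iso h' hG hi)

/-- Finitely many modules of a given dimension. -/
theorem fin2 (hfin : St_fin) (X : AV) (m : ℕ) : ∃ (ι : Type) (_ : Fintype ι)
    (Δ : ι → (ℂ ≃+* ℂ) → Matrix (Fin m) (Fin m) ℂ), (∀ i, IrD (Δ i) ∧ Rz X m (Δ i)) ∧
      ∀ Δ' : (ℂ ≃+* ℂ) → Matrix (Fin m) (Fin m) ℂ, IrD Δ' → Rz X m Δ' →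
        ∃ i, IsoD (Δ i) Δ' := by
  classical
  obtain ⟨M, d, Δ, h1, h2⟩ := hfin X
  refine ⟨{i : Fin M // d i = m}, inferInstance, fun i => cst i.2 (Δ i.1),
    fun i => ⟨cst_ir i.2 (h1 i.1).1, cst_rz i.2 (h1 i.1).2⟩, ?_⟩
  intro Δ' hI hR
  obtain ⟨i, G, hG, hi⟩ := h2 m Δ' hI hR
  have h3 := schur_dim (h1 i).1 hI hG hi
  exact ⟨⟨i, h3.symm⟩, cst_iso h3.symm hI hG hi⟩

/-! ### scalars and twists -/

theorem sc_iso {G Gi : Matrix (Fin d) (Fin d) ℂ} (h1 : G * Gi = 1) (h2 : Gi * G = 1)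
    (h3 : ∀ σ, Δ' σ * G = G * Δ σ) (σ : ℂ ≃+* ℂ) :
    (∃ c : ℂ, Δ' σ = c • (1 : Matrix (Fin d) (Fin d) ℂ)) ↔
      ∃ c : ℂ, Δ σ = c • (1 : Matrix (Fin d) (Fin d) ℂ) := by
  constructor
  · rintro ⟨c, hc⟩
    refine ⟨c, ?_⟩
    have h4 : Gi * (Δ' σ * G) = Gi * (G * Δ σ) := by rw [h3]
    rw [← mul_assoc Gi G, h2, one_mul, hc] at h4
    rw [← h4, Matrix.smul_mul, Matrix.mul_smul, one_mul, h2]
  · rintro ⟨c, hc⟩
    refine ⟨c, ?_⟩
    rw [iso_eq h1 h3, hc, Matrix.mul_smul, Matrix.smul_mul, mul_one, h1]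

theorem iso_tw (h : IsoD Δ Δ') : IsoD (twD Δ) (twD Δ') := by
  obtain ⟨G, Gi, h1, h2, h3⟩ := h
  refine ⟨G, Gi, h1, h2, fun σ => ?_⟩
  unfold twD
  by_cases hs : ∃ c : ℂ, Δ σ = c • (1 : Matrix (Fin d) (Fin d) ℂ)
  · rw [if_pos hs, if_pos ((sc_iso h1 h2 h3 σ).2 hs), neg_mul, mul_neg, h3]
  · rw [if_neg hs, if_neg fun h => hs ((sc_iso h1 h2 h3 σ).1 h), h3]

theorem sc_neg (σ : ℂ ≃+* ℂ) : (∃ c : ℂ, -Δ σ = c • (1 : Matrix (Fin d) (Fin d) ℂ)) ↔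
    ∃ c : ℂ, Δ σ = c • (1 : Matrix (Fin d) (Fin d) ℂ) := by
  constructor
  · rintro ⟨c, hc⟩
    exact ⟨-c, by rw [neg_smul, ← hc, neg_neg]⟩
  · rintro ⟨c, hc⟩
    exact ⟨-c, by rw [neg_smul, ← hc]⟩

theorem tw_tw : twD (twD Δ) = Δ := by
  funext σ
  by_cases hs : ∃ c : ℂ, Δ σ = c • (1 : Matrix (Fin d) (Fin d) ℂ)
  · have h1 : twD Δ σ = -Δ σ := by
      unfold twD
      rw [if_pos hs]
    have h2 : twD (twD Δ) σ = -(twD Δ σ) := by
      rw [twD, if_pos (by rw [h1]; exact (sc_neg σ).2 hs)]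
    rw [h2, h1, neg_neg]
  · have h1 : twD Δ σ = Δ σ := by
      unfold twD
      rw [if_neg hs]
    have h2 : twD (twD Δ) σ = twD Δ σ := by
      rw [twD, if_neg (by rw [h1]; exact hs)]
    rw [h2, h1]

theorem sc_map (M : Matrix (Fin d) (Fin d) ℂ) (ρ : ℂ ≃+* ℂ) :
    (∃ c : ℂ, M.map ρ = c • (1 : Matrix (Fin d) (Fin d) ℂ)) ↔
      ∃ c : ℂ, M = c • (1 : Matrix (Fin d) (Fin d) ℂ) := by
  have hm : ∀ (τ : ℂ ≃+* ℂ) (c : ℂ), (c • (1 : Matrix (Fin d) (Fin d) ℂ)).map τ =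
      τ c • (1 : Matrix (Fin d) (Fin d) ℂ) := by
    intro τ c
    ext i j
    rw [Matrix.map_apply, Matrix.smul_apply, Matrix.smul_apply, smul_eq_mul, smul_eq_mul, map_mul]
    congr 1
    rw [Matrix.one_apply]
    split_ifs
    · exact map_one τ
    · exact map_zero τ
  constructor
  · rintro ⟨c, hc⟩
    refine ⟨ρ.symm c, ?_⟩
    rw [← hm, ← hc]
    ext i j
    rw [Matrix.map_apply, Matrix.map_apply, RingEquiv.symm_apply_apply]
  · rintro ⟨c, hc⟩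
    exact ⟨ρ c, by rw [hc, hm]⟩

theorem tw_cjf (ρ : ℂ ≃+* ℂ) : twD (Cjf Δ ρ) = Cjf (twD Δ) ρ := by
  funext σ
  by_cases hs : ∃ c : ℂ, Δ (σ.trans ρ.symm) = c • (1 : Matrix (Fin d) (Fin d) ℂ)
  · rw [twD, if_pos (by exact (sc_map _ ρ).2 hs), Cjf, Cjf, twD, if_pos hs]
    ext i j
    rw [Matrix.neg_apply, Matrix.map_apply, Matrix.map_apply, Matrix.neg_apply, map_neg]
  · rw [twD, if_neg (by exact fun h => hs ((sc_map _ ρ).1 h)), Cjf, Cjf, twD, if_neg hs]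

theorem tw_ir (h : IrD Δ) : IrD (twD Δ) := by
  refine ⟨h.1, fun W hW => h.2 W fun σ w hw => ?_⟩
  by_cases hs : ∃ c : ℂ, Δ σ = c • (1 : Matrix (Fin d) (Fin d) ℂ)
  · have h1 : Δ σ = -(twD Δ σ) := by
      unfold twD
      rw [if_pos hs, neg_neg]
    rw [h1, Matrix.neg_mulVec]
    exact W.neg_mem (hW σ w hw)
  · have h1 : Δ σ = twD Δ σ := by
      unfold twD
      rw [if_neg hs]
    rw [h1]
    exact hW σ w hw

theorem IsD_tw {σ ρ : ℂ ≃+* ℂ} {f f' : X.H →ₗ[ℚ] ℂ} (h : IsD X σ f f') :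
    IsD X (σ.trans ρ) (tw ρ f) (tw ρ f') := by
  obtain ⟨a, b, h1, h2, h3, h4⟩ := h
  have hk : ∀ g : X.H →ₗ[ℚ] ℂ, tw (σ.trans ρ).symm (tw ρ g) = tw σ.symm g := by
    intro g
    ext w
    rw [tw_apply, tw_apply, tw_apply]
    change σ.symm (ρ.symm (ρ (g w))) = σ.symm (g w)
    rw [RingEquiv.symm_apply_apply]
  refine ⟨tw ρ a, tw ρ b, ?_, ?_, ?_, ?_⟩
  · rw [h1, tw_add]
  · rw [h2]
    ext w
    rw [LinearMap.sub_apply, tw_apply, tw_apply, tw_apply, LinearMap.sub_apply, map_sub]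
  · rw [hk]
    exact h3
  · rw [hk]
    exact h4

theorem cjf_rz (ρ : ℂ ≃+* ℂ) (hR : Rz X d Δ) : Rz X d (Cjf Δ ρ) := by
  obtain ⟨Φ, hΦ, hD⟩ := rz_iff.1 hR
  let Ψ : (Fin d → ℂ) →ₗ[ℂ] (X.H →ₗ[ℚ] ℂ) :=
    { toFun := fun w => tw ρ (Φ fun k => ρ.symm (w k))
      map_add' := by
        intro v w
        have h1 : (fun k => ρ.symm ((v + w) k)) =
            (fun k => ρ.symm (v k)) + fun k => ρ.symm (w k) := by
          funext k
          exact map_add ρ.symm _ _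
        rw [h1, map_add, tw_add]
      map_smul' := by
        intro c v
        have h1 : (fun k => ρ.symm ((c • v) k)) = ρ.symm c • fun k => ρ.symm (v k) := by
          funext k
          exact map_mul ρ.symm _ _
        rw [h1, map_smul, tw_smul, RingEquiv.apply_symm_apply, RingHom.id_apply] }
  have hΨ : ∀ w, Ψ w = tw ρ (Φ fun k => ρ.symm (w k)) := fun _ => rfl
  refine rz_iff.2 ⟨Ψ, ?_, fun σ w => ?_⟩
  · intro v w hvw
    rw [hΨ, hΨ] at hvw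
    have h1 : (Φ fun k => ρ.symm (v k)) = Φ fun k => ρ.symm (w k) := by
      ext x
      have h2 := LinearMap.congr_fun hvw x
      rw [tw_apply, tw_apply] at h2
      exact ρ.injective h2
    have h2 := hΦ h1
    funext k
    exact ρ.symm.injective (congrFun h2 k)
  · rw [hΨ, hΨ]
    have h1 := IsD_tw (ρ := ρ) (hD (σ.trans ρ.symm) fun k => ρ.symm (w k))
    have h2 : (σ.trans ρ.symm).trans ρ = σ := by
      ext z
      change ρ (ρ.symm (σ z)) = σ z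
      rw [RingEquiv.apply_symm_apply]
    have h3 : (fun k => ρ.symm ((Cjf Δ ρ σ *ᵥ w) k)) =
        Δ (σ.trans ρ.symm) *ᵥ fun k => ρ.symm (w k) := by
      funext k
      simp only [Matrix.mulVec, dotProduct, map_sum, map_mul, Cjf, Matrix.map_apply,
        RingEquiv.symm_apply_apply]
    rw [h2] at h1
    rw [h3]
    exact h1

/-! ### the properties are invariant -/

theorem iso_dec (h : IsoD Δ Δ') (hD : DecD Δ) : DecD Δ' := by
  obtain ⟨G, Gi, h1, h2, h3⟩ := h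
  obtain ⟨J, k1, ⟨σ, k2, k3⟩, τ, k4, k5⟩ := hD
  refine ⟨J, fun σ hσ τ hτ => ?_, ⟨σ, k2, fun c hc => ?_⟩, τ, k4, fun c hc => ?_⟩
  · have h4 : ∀ A B : Matrix (Fin d) (Fin d) ℂ, G * A * Gi * (G * B * Gi) = G * (A * B) * Gi := by
      intro A B
      calc G * A * Gi * (G * B * Gi) = G * A * (Gi * G) * B * Gi := by
            simp only [mul_assoc]
        _ = G * (A * B) * Gi := by rw [h2, mul_one, mul_assoc G A B]
    rw [iso_eq h1 h3 σ, iso_eq h1 h3 τ, h4, h4, k1 σ hσ τ hτ]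
  · obtain ⟨c', hc'⟩ := (sc_iso h1 h2 h3 σ).1 ⟨c, hc⟩
    exact k3 c' hc'
  · obtain ⟨c', hc'⟩ := (sc_iso h1 h2 h3 τ).1 ⟨c, hc⟩
    exact k5 c' hc'

theorem lie_conj {G Gi : Matrix (Fin d) (Fin d) ℂ} (h1 : G * Gi = 1) (h2 : Gi * G = 1)
    (h3 : ∀ σ, Δ' σ * G = G * Δ σ) {T : Matrix (Fin d) (Fin d) ℂ} (hT : T ∈ LieD Δ') :
    Gi * T * G ∈ LieD Δ := by
  have hT' : InD Δ' T := hT
  change InD Δ (Gi * T * G)
  intro M hM1 hM2
  let M' : Submodule ℂ (Matrix (Fin d) (Fin d) ℂ) :=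
    { carrier := {Y | Gi * Y * G ∈ M}
      add_mem' := by
        intro Y Z hY hZ
        change Gi * (Y + Z) * G ∈ M
        rw [mul_add, add_mul]
        exact M.add_mem hY hZ
      zero_mem' := by
        change Gi * 0 * G ∈ M
        rw [mul_zero, zero_mul]
        exact M.zero_mem
      smul_mem' := by
        intro c Y hY
        change Gi * (c • Y) * G ∈ M
        rw [Matrix.mul_smul, Matrix.smul_mul]
        exact M.smul_mem c hY }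
  refine hT' M' (fun σ => ?_) fun Y hY Z hZ => ?_
  · change Gi * Δ' σ * G ∈ M
    rw [mul_assoc, h3, ← mul_assoc, h2, one_mul]
    exact hM1 σ
  · change Gi * (Y * Z - Z * Y) * G ∈ M
    have h4 : ∀ A B : Matrix (Fin d) (Fin d) ℂ, Gi * (A * B) * G = Gi * A * G * (Gi * B * G) := by
      intro A B
      calc Gi * (A * B) * G = Gi * A * 1 * B * G := by
            simp only [mul_assoc, mul_one, one_mul]
        _ = Gi * A * G * (Gi * B * G) := by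
            rw [← h1]
            simp only [mul_assoc]
    rw [mul_sub, sub_mul, h4, h4]
    exact hM2 _ hY _ hZ

theorem iso_atd {n k : ℕ} {φ : Matrix (Fin d) (Fin d) ℂ →ₗ[ℂ] Matrix (Fin n) (Fin n) ℂ}
    {ι : (Fin d → ℂ) →ₗ[ℂ] ((Fin k → Fin n) → ℂ)} (h : IsoD Δ Δ') (hA : ATD Δ n k φ ι) :
    ∃ φ' ι', ATD Δ' n k φ' ι' := by
  obtain ⟨G, Gi, h1, h2, h3⟩ := h
  have h3' : ∀ σ, Δ σ * Gi = Gi * Δ' σ := by
    intro σ
    rw [iso_eq h1 h3, ← mul_assoc, ← mul_assoc, h2, one_mul]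
  have h4 : ∀ A B : Matrix (Fin d) (Fin d) ℂ, Gi * (A * B) * G = Gi * A * G * (Gi * B * G) := by
    intro A B
    calc Gi * (A * B) * G = Gi * A * 1 * B * G := by
          simp only [mul_assoc, mul_one, one_mul]
      _ = Gi * A * G * (Gi * B * G) := by
          rw [← h1]
          simp only [mul_assoc]
  let c : Matrix (Fin d) (Fin d) ℂ →ₗ[ℂ] Matrix (Fin d) (Fin d) ℂ :=
    { toFun := fun X => Gi * X * G
      map_add' := by
        intro X Y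
        rw [mul_add, add_mul]
      map_smul' := by
        intro c X
        rw [Matrix.mul_smul, Matrix.smul_mul, RingHom.id_apply] }
  have hc : ∀ X, c X = Gi * X * G := fun _ => rfl
  refine ⟨φ ∘ₗ c, ι ∘ₗ Matrix.mulVecLin Gi, ?_⟩
  constructor
  · exact hA.k2
  · exact hA.kn
  · intro X hX Y hY
    rw [LinearMap.comp_apply, LinearMap.comp_apply, LinearMap.comp_apply, hc, hc, hc,
      mul_sub, sub_mul, h4, h4]
    exact hA.br _ (lie_conj h1 h2 h3 hX) _ (lie_conj h1 h2 h3 hY)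
  · intro X hX
    exact hA.tr _ (lie_conj h1 h2 h3 hX)
  · intro Z hZ
    obtain ⟨X, hX, hXZ⟩ := hA.on Z hZ
    refine ⟨G * X * Gi, lie_conj h2 h1 h3' hX, ?_⟩
    rw [LinearMap.comp_apply, hc]
    have h5 : Gi * (G * X * Gi) * G = X := by
      calc Gi * (G * X * Gi) * G = (Gi * G) * X * (Gi * G) := by
            simp only [mul_assoc]
        _ = X := by rw [h2, one_mul, mul_one]
    rw [h5, hXZ]
  · rintro X hX ⟨b, hb⟩
    refine hA.sc _ (lie_conj h1 h2 h3 hX) ⟨b, ?_⟩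
    rw [hc, hb, Matrix.mul_smul, Matrix.smul_mul, mul_one, h2]
  · intro v
    exact hA.al _
  · intro v hv
    have h5 := hA.inj (Gi *ᵥ v) hv
    have h6 : G *ᵥ (Gi *ᵥ v) = 0 := by rw [h5, Matrix.mulVec_zero]
    rwa [Matrix.mulVec_mulVec, h1, Matrix.one_mulVec] at h6
  · intro x hx
    obtain ⟨v, hv⟩ := hA.sur x hx
    refine ⟨G *ᵥ v, ?_⟩
    rw [LinearMap.comp_apply, Matrix.mulVecLin_apply, Matrix.mulVec_mulVec, h2,
      Matrix.one_mulVec, hv]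
  · intro X hX v
    have h5 := hA.eqv _ (lie_conj h1 h2 h3 hX) (Gi *ᵥ v)
    have h6 : (Gi * X * G) *ᵥ (Gi *ᵥ v) = Gi *ᵥ (X *ᵥ v) := by
      rw [Matrix.mulVec_mulVec, Matrix.mulVec_mulVec, mul_assoc, h1, mul_one]
    have h7 : trace (Gi * X * G) = trace X := by
      rw [Matrix.trace_mul_comm, ← mul_assoc, h1, one_mul]
    rw [h6, h7] at h5
    exact h5

theorem iso_red {d₁ d₂ : ℕ} {Δ₁ : (ℂ ≃+* ℂ) → Matrix (Fin d₁) (Fin d₁) ℂ}
    {Δ₂ : (ℂ ≃+* ℂ) → Matrix (Fin d₂) (Fin d₂) ℂ} {F : (ℂ ≃+* ℂ) → ℤ} (h : IsoD Δ Δ')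
    (hR : RedD Δ Δ₁ Δ₂ F) : RedD Δ' Δ₁ Δ₂ F := by
  obtain ⟨G, Gi, h1, h2, h3⟩ := h
  rcases hR with ⟨N, hN, hN'⟩ | ⟨N, hN, hN'⟩
  · left
    refine ⟨G * N, fun h0 => hN ?_, fun σ => ?_⟩
    · have h4 : Gi * (G * N) = 0 := by rw [h0, Matrix.mul_zero]
      rwa [← Matrix.mul_assoc, h2, Matrix.one_mul] at h4
    · rw [← Matrix.mul_assoc, h3, Matrix.mul_assoc, hN', Matrix.mul_assoc]
  · right
    refine ⟨N * Gi, fun h0 => hN ?_, fun σ => ?_⟩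
    · have h4 : N * Gi * G = 0 := by rw [h0, Matrix.zero_mul]
      rwa [Matrix.mul_assoc, h2, Matrix.mul_one] at h4
    · have h5 : Gi * Δ' σ = Δ σ * Gi := by
        rw [iso_eq h1 h3, ← mul_assoc, ← mul_assoc, h2, one_mul]
      rw [← Matrix.mul_assoc, hN', Matrix.mul_assoc, Matrix.mul_assoc, h5]

theorem iso_redX (h : IsoD Δ Δ') (hR : RedX X Δ) : RedX X Δ' := by
  obtain ⟨d₁, d₂, Δ₁, Δ₂, F, k1, k2, k3, k4, k5, k6⟩ := hR
  exact ⟨d₁, d₂, Δ₁, Δ₂, F, k1, k2, k3, k4, k5, iso_red h k6⟩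

/-- The two special cases. -/
def Sp {d : ℕ} (Δ : (ℂ ≃+* ℂ) → Matrix (Fin d) (Fin d) ℂ) : Prop :=
  DecD Δ ∨ ∃ n k φ ι, ATD Δ n k φ ι

theorem iso_sp (h : IsoD Δ Δ') (hS : Sp Δ) : Sp Δ' := by
  rcases hS with hS | ⟨n, k, φ, ι, hS⟩
  · exact Or.inl (iso_dec h hS)
  · obtain ⟨φ', ι', h1⟩ := iso_atd h hS
    exact Or.inr ⟨n, k, φ', ι', h1⟩

/-! ### products -/

theorem fac_rfl (A : AV) : Fac A A :=
  ⟨LinearMap.id, LinearMap.id, ⟨LinearMap.id, fun _ => rfl⟩, ⟨LinearMap.id, fun _ => rfl⟩, rfl⟩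

theorem prod_of (hpr : St_pr) (hfac : St_fac) (X : AV) {ι : Type} [Fintype ι] (Y : ι → AV) :
    ∃ P : AV, Fac X P ∧ (∀ i, Fac (Y i) P) ∧
      ∀ (d : ℕ) (Δ : (ℂ ≃+* ℂ) → Matrix (Fin d) (Fin d) ℂ), IrD Δ → Rz P d Δ →
        Rz X d Δ ∨ ∃ i, Rz (Y i) d Δ := by
  classical
  have key : ∀ s : Finset ι, ∃ P : AV, Fac X P ∧ (∀ i ∈ s, Fac (Y i) P) ∧
      ∀ (d : ℕ) (Δ : (ℂ ≃+* ℂ) → Matrix (Fin d) (Fin d) ℂ), IrD Δ → Rz P d Δ →
        Rz X d Δ ∨ ∃ i, Rz (Y i) d Δ := by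
    intro s
    induction s using Finset.induction_on with
    | empty =>
      exact ⟨X, fac_rfl X, fun i hi => absurd hi (Finset.notMem_empty i), fun d Δ _ h => Or.inl h⟩
    | insert a s ha ih =>
      obtain ⟨P, h1, h2, h3⟩ := ih
      obtain ⟨Q, k1, k2, k3⟩ := hpr P (Y a)
      refine ⟨Q, hfac.2.1 _ _ _ h1 k1, fun i hi => ?_, fun d Δ hI hR => ?_⟩
      · rcases Finset.mem_insert.1 hi with rfl | hi
        · exact k2
        · exact hfac.2.1 _ _ _ (h2 i hi) k1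
      · rcases k3 d Δ hI hR with h | h
        · exact h3 d Δ hI h
        · exact Or.inr ⟨a, h⟩
  obtain ⟨P, h1, h2, h3⟩ := key Finset.univ
  exact ⟨P, h1, fun i => h2 i (Finset.mem_univ i), h3⟩

/-! ### the steps -/

/-- Adding a twist. -/
theorem step_tw (hx : St_ex) (hdf : St_df) (hdtc : St_dtc) (X : AV) (m : ℕ)
    (Δ : (ℂ ≃+* ℂ) → Matrix (Fin m) (Fin m) ℂ) (hI : IrD Δ) (hR : Rz X m Δ) :
    ∃ Y : AV, Rz Y m (twD Δ) ∧ ∀ (d : ℕ) (Δ' : (ℂ ≃+* ℂ) → Matrix (Fin d) (Fin d) ℂ), IrD Δ' →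
      Rz Y d Δ' → d ≤ m ∧ (d = m → Rz X d (twD Δ')) := by
  obtain ⟨E, hE, hEI, hiso⟩ := hdf X m Δ hI hR
  obtain ⟨-, -, hT⟩ := hdtc m E hEI.1 hE
  obtain ⟨Y, hY, hY'⟩ := hx m (twD E) hEI.1 hT
  refine ⟨Y, iso_rz (iso_symm (iso_tw hiso)) hY, ?_⟩
  intro d Δ' hI' hR'
  obtain ⟨h1, ρ, G, hG, hi⟩ := hY' d Δ' hI' hR'
  refine ⟨h1, ?_⟩
  rintro rfl
  have h2 : IsoD Δ' (Cjf (twD E) ρ) := schur_iso hI' hG hi
  have h3 := iso_tw h2
  rw [tw_cjf, tw_tw] at h3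
  exact iso_rz (iso_symm h3) (cjf_rz ρ (iso_rz hiso hR))

/-- Adding the modules needed for the reduction. -/
theorem step_red (hx : St_ex) (hdf : St_df) (hr1 : St_r1) (hr2 : St_r2) (hfac : St_fac)
    (hpr : St_pr) (X : AV) (m : ℕ) (hm : 2 ≤ m) (Δ : (ℂ ≃+* ℂ) → Matrix (Fin m) (Fin m) ℂ)
    (hI : IrD Δ) (hR : Rz X m Δ) (hS : Sp Δ) :
    ∃ Y : AV, RedX Y Δ ∧ ∀ (d : ℕ) (Δ' : (ℂ ≃+* ℂ) → Matrix (Fin d) (Fin d) ℂ), IrD Δ' →
      Rz Y d Δ' → d < m := by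
  obtain ⟨E, hE, hEI, hiso⟩ := hdf X m Δ hI hR
  have hred : RedE E := by
    rcases iso_sp hiso hS with h | h
    · exact hr1 m E hE hEI h
    · exact hr2 m E hE hEI h
  obtain ⟨d₁, d₂, Δ₁, Δ₂, F, a1, a2, a3, a4, a5, a6, a7, a8, a9⟩ := hred
  obtain ⟨Y₁, b1, b2⟩ := hx d₁ Δ₁ a1 a5
  obtain ⟨Y₂, c1, c2⟩ := hx d₂ Δ₂ a2 a6
  obtain ⟨Y₃, e1, e2⟩ := hx 1 (lineD F) one_pos a8
  obtain ⟨P, p1, p2, p3⟩ := hpr Y₁ Y₂
  obtain ⟨Q, q1, q2, q3⟩ := hpr P Y₃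
  refine ⟨Q, iso_redX (iso_symm hiso) ⟨d₁, d₂, Δ₁, Δ₂, F, a3, a4, ?_, ?_, ?_, a9⟩, ?_⟩
  · exact hfac.1 _ _ q1 _ _ (hfac.1 _ _ p1 _ _ b1)
  · exact hfac.1 _ _ q1 _ _ (hfac.1 _ _ p2 _ _ c1)
  · exact hfac.1 _ _ q2 _ _ e1
  · intro d Δ' hI' hR'
    rcases q3 d Δ' hI' hR' with h | h
    · rcases p3 d Δ' hI' h with h | h
      · exact lt_of_le_of_lt (b2 d Δ' hI' h).1 a3
      · exact lt_of_le_of_lt (c2 d Δ' hI' h).1 a4
    · have := (e2 d Δ' hI' h).1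
      omega

/-- The property to be reached. -/
def Sat (X : AV) (d : ℕ) (Δ : (ℂ ≃+* ℂ) → Matrix (Fin d) (Fin d) ℂ) : Prop :=
  Rz X d (twD Δ) ∧ (Sp Δ → RedX X Δ)

theorem fac_redX (hfac : St_fac) (hF : Fac X X') (hR : RedX X Δ) : RedX X' Δ := by
  obtain ⟨d₁, d₂, Δ₁, Δ₂, F, k1, k2, k3, k4, k5, k6⟩ := hR
  exact ⟨d₁, d₂, Δ₁, Δ₂, F, k1, k2, hfac.1 _ _ hF _ _ k3, hfac.1 _ _ hF _ _ k4,
    hfac.1 _ _ hF _ _ k5, k6⟩

theorem fac_sat (hfac : St_fac) (hF : Fac X X') (hS : Sat X d Δ) : Sat X' d Δ :=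
  ⟨hfac.1 _ _ hF _ _ hS.1, fun h => fac_redX hfac hF (hS.2 h)⟩

/-- All modules of dimension larger than `m` have the property. -/
def PS (X : AV) (m : ℕ) : Prop :=
  ∀ (d : ℕ) (Δ : (ℂ ≃+* ℂ) → Matrix (Fin d) (Fin d) ℂ), IrD Δ → Rz X d Δ → m < d → Sat X d Δ

theorem ps_top (X : AV) : ∃ m, 1 ≤ m ∧ PS X m := by
  refine ⟨finrank ℂ (X.H →ₗ[ℚ] ℂ) + 1, Nat.le_add_left _ _, ?_⟩
  intro d Δ _ hR hd
  exfalso
  obtain ⟨Φ, hΦ, -⟩ := rz_iff.1 hR
  have h1 := LinearMap.finrank_le_finrank_of_injective hΦ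
  rw [Module.finrank_fin_fun] at h1
  omega

theorem step_ps (hx : St_ex) (hdf : St_df) (hr1 : St_r1) (hr2 : St_r2) (hdtc : St_dtc)
    (hfin : St_fin) (hpr : St_pr) (hfac : St_fac) (X : AV) (m : ℕ) (hm : 1 ≤ m)
    (hP : PS X (m + 1)) : ∃ X' : AV, Fac X X' ∧ PS X' m := by
  classical
  -- the twists
  obtain ⟨ι, _, D, hD, hD'⟩ := fin2 hfin X (m + 1)
  choose Y hY hY' using fun i => step_tw hx hdf hdtc X (m + 1) (D i) (hD i).1 (hD i).2
  obtain ⟨X₁, f1, f2, f3⟩ := prod_of hpr hfac X Y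
  have hP1 : PS X₁ (m + 1) := by
    intro d Δ hI hR hd
    rcases f3 d Δ hI hR with h | ⟨i, h⟩
    · exact fac_sat hfac f1 (hP d Δ hI h hd)
    · have := (hY' i d Δ hI h).1
      omega
  have hT1 : ∀ Δ : (ℂ ≃+* ℂ) → Matrix (Fin (m + 1)) (Fin (m + 1)) ℂ, IrD Δ → Rz X₁ (m + 1) Δ →
      Rz X₁ (m + 1) (twD Δ) := by
    intro Δ hI hR
    rcases f3 _ Δ hI hR with h | ⟨i, h⟩
    · obtain ⟨i, hi⟩ := hD' Δ hI h
      exact hfac.1 _ _ (f2 i) _ _ (iso_rz (iso_tw hi) (hY i))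
    · exact hfac.1 _ _ f1 _ _ ((hY' i _ Δ hI h).2 rfl)
  -- the reductions
  obtain ⟨κ, _, E, hE, hE'⟩ := fin2 hfin X₁ (m + 1)
  have hZ : ∀ i : κ, ∃ Y : AV, (Sp (E i) → RedX Y (E i)) ∧
      ∀ (d : ℕ) (Δ' : (ℂ ≃+* ℂ) → Matrix (Fin d) (Fin d) ℂ), IrD Δ' →
        Rz Y d Δ' → d < m + 1 ∨ Rz X₁ d Δ' := by
    intro i
    by_cases hs : Sp (E i)
    · obtain ⟨Y, h1, h2⟩ := step_red hx hdf hr1 hr2 hfac hpr X₁ (m + 1) (by omega) (E i) (hE i).1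
        (hE i).2 hs
      exact ⟨Y, fun _ => h1, fun d Δ' hI hR => Or.inl (h2 d Δ' hI hR)⟩
    · exact ⟨X₁, fun h => absurd h hs, fun d Δ' _ hR => Or.inr hR⟩
  choose Z hZ hZ' using hZ
  obtain ⟨X₂, g1, g2, g3⟩ := prod_of hpr hfac X₁ Z
  refine ⟨X₂, hfac.2.1 _ _ _ f1 g1, ?_⟩
  intro d Δ hI hR hd
  have h1 : Rz X₁ d Δ := by
    rcases g3 d Δ hI hR with h | ⟨i, h⟩
    · exact h
    · rcases hZ' i d Δ hI h with h' | h'
      · omega
      · exact h'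
  rcases Nat.eq_or_lt_of_le (show m + 1 ≤ d from hd) with h2 | h2
  · subst h2
    refine ⟨hfac.1 _ _ g1 _ _ (hT1 Δ hI h1), fun hs => ?_⟩
    obtain ⟨i, hi⟩ := hE' Δ hI h1
    exact fac_redX hfac (g2 i) (iso_redX hi (hZ i (iso_sp (iso_symm hi) hs)))
  · exact fac_sat hfac g1 (hP1 d Δ hI h1 h2)

end GK13

open GK13 in
/-- **K13b.** The large hull. -/
theorem hul2_of (hx : St_ex) (hdf : St_df) (hr1 : St_r1) (hr2 : St_r2) (hdtc : St_dtc)
    (hfin : St_fin) (hpr : St_pr) (hfac : St_fac) (hh : St_hull) : St_hul2 := by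
  intro A
  have key : ∀ m, 1 ≤ m → ∀ X : AV, PS X m → ∃ X' : AV, Fac X X' ∧ PS X' 1 := by
    intro m hm
    induction m, hm using Nat.le_induction with
    | base => exact fun X hP => ⟨X, fac_rfl X, hP⟩
    | succ m hm ih =>
      intro X hP
      obtain ⟨X₁, h1, h2⟩ := step_ps hx hdf hr1 hr2 hdtc hfin hpr hfac X m hm hP
      obtain ⟨X₂, h3, h4⟩ := ih X₁ h2
      exact ⟨X₂, hfac.2.1 _ _ _ h1 h3, h4⟩
  obtain ⟨m, hm, hP⟩ := ps_top A
  obtain ⟨X, h1, h2⟩ := key m hm A hP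
  obtain ⟨X₃, h3, h4, h5⟩ := hh X
  refine ⟨X₃, hfac.2.1 _ _ _ h1 h3, h4, ?_⟩
  intro d Δ hI hR hd
  rcases h5 d Δ hI hR with h | h
  · exact absurd h hd
  · have h6 := hI.1
    exact fac_sat hfac h3 (h2 d Δ hI h (by omega))

end

end Pool.Agent.NH32
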