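import Pool.Agent.NH32.GtB
import Pool.Agent.NH32.GJ17

/-!
# Project G, stage 2, job K14: from abelian varieties to matrices
-/

set_option linter.unusedSectionVars false
set_option linter.unusedVariables false

namespace Pool.Agent.NH32

open Matrix Module Pool.Agent.W437.HC Pool.Agent.Y90
open Pool.Agent.W548.Odd hiding cv

noncomputable section

namespace GK14

section mat

variable {B : Type} [Fintype B] [DecidableEq B] {L : Submodule ℂ (Matrix B B ℂ)}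
  {D : (ℂ ≃+* ℂ) → Matrix B B ℂ}

/-- A family of matrices which generates the Lie algebra. -/
structure Gn (L : Submodule ℂ (Matrix B B ℂ)) (D : (ℂ ≃+* ℂ) → Matrix B B ℂ) : Prop where
  mem : ∀ σ, D σ ∈ L
  adj : ∀ X ∈ L, Xᴴ ∈ L
  br : ∀ X ∈ L, ∀ Y ∈ L, X * Y - Y * X ∈ L
  gen : ∀ M : Submodule ℂ (Matrix B B ℂ), (∀ σ, D σ ∈ M) →
    (∀ X ∈ M, ∀ Y ∈ M, X * Y - Y * X ∈ M) → L ≤ M

/-- Coordinates on the range of an idempotent of the commutant. -/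
structure Pc (L : Submodule ℂ (Matrix B B ℂ)) (ε : Matrix B B ℂ) {d : ℕ} (P : Matrix B (Fin d) ℂ)
    (Q : Matrix (Fin d) B ℂ) : Prop where
  cm : ε ∈ CM L
  pq : P * Q = ε
  qp : Q * P = 1

variable {ε : Matrix B B ℂ} {d : ℕ} {P : Matrix B (Fin d) ℂ} {Q : Matrix (Fin d) B ℂ}

theorem Pc.eP (h : Pc L ε P Q) : ε * P = P := by
  rw [← h.pq, Matrix.mul_assoc, h.qp, Matrix.mul_one]

theorem Pc.Qe (h : Pc L ε P Q) : Q * ε = Q := by
  rw [← h.pq, ← Matrix.mul_assoc, h.qp, Matrix.one_mul]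

theorem Pc.YP (h : Pc L ε P Q) {Y : Matrix B B ℂ} (hY : Y ∈ L) : Y * P = P * (Q * Y * P) := by
  calc Y * P = Y * ε * P := by rw [Matrix.mul_assoc, h.eP]
    _ = ε * Y * P := by rw [h.cm Y hY]
    _ = P * (Q * Y * P) := by rw [← h.pq]; simp only [Matrix.mul_assoc]

theorem Pc.QY (h : Pc L ε P Q) {Y : Matrix B B ℂ} (hY : Y ∈ L) : Q * Y = Q * Y * P * Q := by
  calc Q * Y = Q * ε * Y := by rw [h.Qe]
    _ = Q * (Y * ε) := by rw [h.cm Y hY, Matrix.mul_assoc]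
    _ = Q * Y * P * Q := by rw [← h.pq]; simp only [Matrix.mul_assoc]

theorem Pc.mul (h : Pc L ε P Q) {Y : Matrix B B ℂ} (hY : Y ∈ L) (Y' : Matrix B B ℂ) :
    Q * (Y * Y') * P = (Q * Y * P) * (Q * Y' * P) := by
  calc Q * (Y * Y') * P = (Q * Y) * Y' * P := by simp only [Matrix.mul_assoc]
    _ = (Q * Y * P * Q) * Y' * P := by rw [← h.QY hY]
    _ = _ := by simp only [Matrix.mul_assoc]

theorem Pc.brk (h : Pc L ε P Q) {Y Y' : Matrix B B ℂ} (hY : Y ∈ L) (hY' : Y' ∈ L) :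
    Q * (Y * Y' - Y' * Y) * P = (Q * Y * P) * (Q * Y' * P) - (Q * Y' * P) * (Q * Y * P) := by
  rw [Matrix.mul_sub, Matrix.sub_mul, h.mul hY, h.mul hY']

theorem Pc.tre (h : Pc L ε P Q) : trace ε = (d : ℂ) := by
  rw [← h.pq, trace_mul_comm, h.qp, trace_one, Fintype.card_fin]

theorem Pc.trY (h : Pc L ε P Q) (Y : Matrix B B ℂ) : trace (Y * ε) = trace (Q * Y * P) := by
  rw [← h.pq, ← Matrix.mul_assoc, trace_mul_comm, ← Matrix.mul_assoc]

theorem Pc.sc (h : Pc L ε P Q) {Y : Matrix B B ℂ} (hY : Y ∈ L) (c : ℂ) :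
    Y * ε = c • ε ↔ Q * Y * P = c • (1 : Matrix (Fin d) (Fin d) ℂ) := by
  constructor
  · intro h1
    calc Q * Y * P = Q * Y * (ε * P) := by rw [h.eP]
      _ = Q * (Y * ε) * P := by simp only [Matrix.mul_assoc]
      _ = _ := by rw [h1, Matrix.mul_smul, h.Qe, Matrix.smul_mul, h.qp]
  · intro h1
    calc Y * ε = Y * P * Q := by rw [← h.pq, Matrix.mul_assoc]
      _ = P * (Q * Y * P) * Q := by rw [← h.YP hY]
      _ = _ := by rw [h1, Matrix.mul_smul, Matrix.mul_one, Matrix.smul_mul, h.pq]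

/-! ### Twists -/

theorem twD_pos {Δ : (ℂ ≃+* ℂ) → Matrix (Fin d) (Fin d) ℂ} {σ : ℂ ≃+* ℂ}
    (h : ∃ c : ℂ, Δ σ = c • (1 : Matrix (Fin d) (Fin d) ℂ)) : twD Δ σ = -Δ σ := by
  unfold twD
  exact if_pos h

theorem twD_neg {Δ : (ℂ ≃+* ℂ) → Matrix (Fin d) (Fin d) ℂ} {σ : ℂ ≃+* ℂ}
    (h : ¬ ∃ c : ℂ, Δ σ = c • (1 : Matrix (Fin d) (Fin d) ℂ)) : twD Δ σ = Δ σ := by
  unfold twD
  exact if_neg h

theorem irD_tw {Δ : (ℂ ≃+* ℂ) → Matrix (Fin d) (Fin d) ℂ} (h : IrD Δ) : IrD (twD Δ) := by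
  refine ⟨h.1, fun W hW => h.2 W fun σ w hw => ?_⟩
  have h1 := hW σ w hw
  by_cases h2 : ∃ c : ℂ, Δ σ = c • (1 : Matrix (Fin d) (Fin d) ℂ)
  · rw [twD_pos h2, neg_mulVec] at h1
    exact W.neg_mem_iff.1 h1
  · rwa [twD_neg h2] at h1

/-- Modules which differ by scalars. -/
theorem sc_gen (h : Gn L D) (hP : Pc L ε P Q) {ε' : Matrix B B ℂ} {P' : Matrix B (Fin d) ℂ}
    {Q' : Matrix (Fin d) B ℂ} (hP' : Pc L ε' P' Q')
    (hc : ∀ σ, ∃ c : ℂ, Q * D σ * P = Q' * D σ * P' + c • (1 : Matrix (Fin d) (Fin d) ℂ)) :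
    ∀ Y ∈ L, ∃ c : ℂ, Q * Y * P = Q' * Y * P' + c • (1 : Matrix (Fin d) (Fin d) ℂ) := by
  obtain ⟨N, hN⟩ : ∃ N : Submodule ℂ (Matrix B B ℂ), ∀ Y, Y ∈ N ↔ (Y ∈ L ∧
      ∃ c : ℂ, Q * Y * P = Q' * Y * P' + c • (1 : Matrix (Fin d) (Fin d) ℂ)) :=
    ⟨{ carrier := {Y | Y ∈ L ∧
        ∃ c : ℂ, Q * Y * P = Q' * Y * P' + c • (1 : Matrix (Fin d) (Fin d) ℂ)}
       add_mem' := by
         rintro a b ⟨h1, c, hc⟩ ⟨h2, c', hc'⟩
         refine ⟨L.add_mem h1 h2, c + c', ?_⟩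
         rw [Matrix.mul_add, Matrix.add_mul, hc, hc', Matrix.mul_add, Matrix.add_mul, add_smul]
         abel
       zero_mem' := ⟨L.zero_mem, 0, by simp⟩
       smul_mem' := by
         rintro a b ⟨h1, c, hc⟩
         refine ⟨L.smul_mem _ h1, a * c, ?_⟩
         rw [Matrix.mul_smul, Matrix.smul_mul, hc, Matrix.mul_smul, Matrix.smul_mul, smul_add,
           smul_smul] }, fun Y => Iff.rfl⟩
  have h1 : L ≤ N := by
    refine h.gen N (fun σ => (hN _).2 ⟨h.mem σ, hc σ⟩) (fun X hX Y hY => ?_)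
    obtain ⟨hX1, c, hX2⟩ := (hN X).1 hX
    obtain ⟨hY1, c', hY2⟩ := (hN Y).1 hY
    refine (hN _).2 ⟨h.br X hX1 Y hY1, 0, ?_⟩
    rw [hP.brk hX1 hY1, hP'.brk hX1 hY1, hX2, hY2, zero_smul, add_zero]
    simp only [Matrix.add_mul, Matrix.mul_add, Matrix.smul_mul, Matrix.mul_smul, Matrix.one_mul,
      Matrix.mul_one]
    rw [smul_add, smul_add, smul_smul, smul_smul, mul_comm c' c]
    abel
  exact fun Y hY => ((hN Y).1 (h1 hY)).2

/-- Modules which differ by scalars are isomorphic for the derived algebra. -/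
theorem Dr_same (h : Gn L D) (hP : Pc L ε P Q) {ε' : Matrix B B ℂ} {P' : Matrix B (Fin d) ℂ}
    {Q' : Matrix (Fin d) B ℂ} (hP' : Pc L ε' P' Q')
    (hc : ∀ σ, ∃ c : ℂ, Q * D σ * P = Q' * D σ * P' + c • (1 : Matrix (Fin d) (Fin d) ℂ)) :
    ∀ Y ∈ Dr L, Y ∈ L ∧ Q * Y * P = Q' * Y * P' := by
  have h1 := sc_gen h hP hP' hc
  intro Y hY
  unfold Dr at hY
  induction hY using Submodule.span_induction with
  | mem Z hZ =>
    obtain ⟨X, hX, Y, hY, rfl⟩ := hZ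
    refine ⟨h.br X hX Y hY, ?_⟩
    obtain ⟨c, hX2⟩ := h1 X hX
    obtain ⟨c', hY2⟩ := h1 Y hY
    rw [hP.brk hX hY, hP'.brk hX hY, hX2, hY2]
    simp only [Matrix.add_mul, Matrix.mul_add, Matrix.smul_mul, Matrix.mul_smul, Matrix.one_mul,
      Matrix.mul_one]
    rw [smul_add, smul_add, smul_smul, smul_smul, mul_comm c' c]
    abel
  | zero => exact ⟨L.zero_mem, by simp⟩
  | add a b _ _ ha hb =>
    refine ⟨L.add_mem ha.1 hb.1, ?_⟩
    rw [Matrix.mul_add, Matrix.add_mul, ha.2, hb.2, Matrix.mul_add, Matrix.add_mul]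
  | smul c a _ ha =>
    refine ⟨L.smul_mem _ ha.1, ?_⟩
    rw [Matrix.mul_smul, Matrix.smul_mul, ha.2, Matrix.mul_smul, Matrix.smul_mul]

theorem twc_of (h : Gn L D) (hd : 0 < d) (hP : Pc L ε P Q) {P' : Matrix B (Fin d) ℂ}
    {Q' : Matrix (Fin d) B ℂ} (hε' : Mi L (P' * Q')) (hP' : Pc L (P' * Q') P' Q')
    (htw : ∀ σ, Q' * D σ * P' = twD (fun σ => Q * D σ * P) σ) : Twc L D ε := by
  have hc : ∀ σ, ∃ c : ℂ, Q * D σ * P = Q' * D σ * P' + c • (1 : Matrix (Fin d) (Fin d) ℂ) := by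
    intro σ
    by_cases h2 : ∃ c : ℂ, Q * D σ * P = c • (1 : Matrix (Fin d) (Fin d) ℂ)
    · obtain ⟨c, hc⟩ := h2
      refine ⟨c + c, ?_⟩
      rw [htw σ, twD_pos (Δ := fun σ => Q * D σ * P) ⟨c, hc⟩]
      beta_reduce
      rw [hc, add_smul]
      abel
    · refine ⟨0, ?_⟩
      rw [htw σ, twD_neg (Δ := fun σ => Q * D σ * P) h2, zero_smul, add_zero]
  have hDr := Dr_same h hP hP' hc
  have hd0 : (d : ℂ) ≠ 0 := by exact_mod_cast hd.ne'
  refine ⟨P' * Q', P * Q', hε', ?_, ?_, ?_, ?_, ?_⟩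
  · intro h0
    have h1 : Q * (P * Q') * P' = 1 := by
      calc Q * (P * Q') * P' = (Q * P) * (Q' * P') := by simp only [Matrix.mul_assoc]
        _ = 1 := by rw [hP.qp, hP'.qp, Matrix.mul_one]
    rw [h0, Matrix.mul_zero, Matrix.zero_mul] at h1
    have h2 := congrFun (congrFun h1 ⟨0, hd⟩) ⟨0, hd⟩
    rw [Matrix.zero_apply, Matrix.one_apply_eq] at h2
    exact zero_ne_one h2
  · rw [← Matrix.mul_assoc, hP.eP]
  · rw [Matrix.mul_assoc, ← Matrix.mul_assoc Q', hP'.qp, Matrix.one_mul]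
  · intro Y hY
    obtain ⟨hYL, hY2⟩ := hDr Y hY
    calc Y * (P * Q') = (Y * P) * Q' := by rw [Matrix.mul_assoc]
      _ = P * (Q * Y * P) * Q' := by rw [hP.YP hYL]
      _ = P * (Q' * Y * P' * Q') := by rw [hY2]; simp only [Matrix.mul_assoc]
      _ = _ := by rw [← hP'.QY hYL, Matrix.mul_assoc]
  · rintro σ ⟨c, hc⟩
    have h1 := (hP.sc (h.mem σ) c).1 hc
    unfold fc
    rw [hP'.tre, hP.tre, hP'.trY, hP.trY, htw σ, twD_pos (Δ := fun σ => Q * D σ * P) ⟨c, h1⟩,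
      trace_neg, neg_div]

/-! ### The two types of reducible modules -/

theorem dec_of' (h : Gn L D) (hP : Pc L ε P Q) (hd : DecL D ε) :
    DecD (fun σ => Q * D σ * P) := by
  obtain ⟨J, h1, ⟨σ, hσ, h2⟩, τ, hτ, h3⟩ := hd
  refine ⟨J, fun σ hσ τ hτ => ?_, ⟨σ, hσ, fun c hc => h2 c ((hP.sc (h.mem σ) c).2 hc)⟩, τ, hτ,
    fun c hc => h3 c ((hP.sc (h.mem τ) c).2 hc)⟩
  beta_reduce
  rw [← sub_eq_zero, ← hP.brk (h.mem σ) (h.mem τ)]
  calc Q * (D σ * D τ - D τ * D σ) * P = Q * ((D σ * D τ - D τ * D σ) * (ε * P)) := by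
        rw [hP.eP, Matrix.mul_assoc]
    _ = Q * (((D σ * D τ - D τ * D σ) * ε) * P) := by rw [Matrix.mul_assoc _ ε P]
    _ = 0 := by rw [h1 σ hσ τ hτ, Matrix.zero_mul, Matrix.mul_zero]

/-- Compression. -/
def cp (P : Matrix B (Fin d) ℂ) (Q : Matrix (Fin d) B ℂ) :
    Matrix B B ℂ →ₗ[ℂ] Matrix (Fin d) (Fin d) ℂ where
  toFun Y := Q * Y * P
  map_add' a b := by rw [Matrix.mul_add, Matrix.add_mul]
  map_smul' c a := by rw [Matrix.mul_smul, Matrix.smul_mul, RingHom.id_apply]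

theorem cp_apply (Y : Matrix B B ℂ) : cp P Q Y = Q * Y * P := rfl

theorem LieD_iff (h : Gn L D) (hP : Pc L ε P Q) {X : Matrix (Fin d) (Fin d) ℂ} :
    X ∈ LieD (fun σ => Q * D σ * P) ↔ ∃ Y ∈ L, X = Q * Y * P := by
  constructor
  · intro hX
    have h1 : X ∈ L.map (cp P Q) := by
      refine hX _ (fun σ => ⟨D σ, h.mem σ, rfl⟩) ?_
      rintro _ ⟨Y, hY, rfl⟩ _ ⟨Y', hY', rfl⟩
      refine ⟨Y * Y' - Y' * Y, h.br Y hY Y' hY', ?_⟩
      rw [cp_apply, cp_apply, cp_apply, hP.brk hY hY']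
    obtain ⟨Y, hY, hYX⟩ := h1
    exact ⟨Y, hY, hYX.symm⟩
  · rintro ⟨Y, hY, rfl⟩ M hM1 hM2
    have h1 : L ≤ L ⊓ M.comap (cp P Q) := by
      refine h.gen _ (fun σ => ⟨h.mem σ, hM1 σ⟩) ?_
      rintro X ⟨hX1, hX2⟩ Y ⟨hY1, hY2⟩
      refine ⟨h.br X hX1 Y hY1, ?_⟩
      change Q * (X * Y - Y * X) * P ∈ M
      rw [hP.brk hX1 hY1]
      exact hM2 _ hX2 _ hY2
    exact (h1 hY).2

theorem factor {V W U : Type*} [AddCommGroup V] [Module ℂ V] [AddCommGroup W] [Module ℂ W]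
    [AddCommGroup U] [Module ℂ U] (f : V →ₗ[ℂ] W) (k : V →ₗ[ℂ] U) (S : Submodule ℂ V)
    (h : ∀ v ∈ S, f v = 0 → k v = 0) : ∃ l : W →ₗ[ℂ] U, ∀ v ∈ S, l (f v) = k v := by
  let f' := f.domRestrict S
  let k' := k.domRestrict S
  have hk : LinearMap.ker f' ≤ LinearMap.ker k' := by
    rintro ⟨v, hv⟩ h1
    exact h v hv h1
  have hinj : LinearMap.ker ((LinearMap.ker f').liftQ f' le_rfl) = ⊥ :=
    Submodule.ker_liftQ_eq_bot _ _ _ le_rfl
  obtain ⟨l, hl⟩ := LinearMap.exists_leftInverse_of_injective _ hinj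
  refine ⟨((LinearMap.ker f').liftQ k' hk).comp l, fun v hv => ?_⟩
  have h1 := LinearMap.congr_fun hl ((LinearMap.ker f').mkQ ⟨v, hv⟩)
  have h2 : ((LinearMap.ker f').liftQ f' le_rfl) ((LinearMap.ker f').mkQ ⟨v, hv⟩) = f v := by
    rw [Submodule.mkQ_apply, Submodule.liftQ_apply]
    rfl
  rw [LinearMap.comp_apply, h2, LinearMap.id_apply] at h1
  rw [LinearMap.comp_apply, h1, Submodule.mkQ_apply, Submodule.liftQ_apply]
  rfl

theorem aty_of (h : Gn L D) (hP : Pc L ε P Q) (hA : ATy L ε) :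
    ∃ n k φ ι, ATD (fun σ => Q * D σ * P) n k φ ι := by
  obtain ⟨n, k, φ, ι, h2, h3, a1, a2, a3, a4, a5, a6, a7, a8⟩ := hA
  obtain ⟨φ', hφ⟩ := factor (cp P Q) φ L (fun Y hY h0 => a4 Y hY ⟨0, by
    rw [hP.sc hY, zero_smul]
    exact h0⟩)
  have hφ' : ∀ Y ∈ L, φ' (Q * Y * P) = φ Y := hφ
  refine ⟨n, k, φ', ι ∘ₗ P.mulVecLin, h2, h3, ?_, ?_, ?_, ?_, ?_, ?_, ?_, ?_⟩
  · intro X' hX' Y' hY'
    obtain ⟨X, hX, rfl⟩ := (LieD_iff h hP).1 hX'
    obtain ⟨Y, hY, rfl⟩ := (LieD_iff h hP).1 hY'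
    rw [← hP.brk hX hY, hφ' _ (h.br X hX Y hY), hφ' X hX, hφ' Y hY, a1 X hX Y hY]
  · intro X' hX'
    obtain ⟨X, hX, rfl⟩ := (LieD_iff h hP).1 hX'
    rw [hφ' X hX, a2 X hX]
  · intro Z hZ
    obtain ⟨X, hX, hXZ⟩ := a3 Z hZ
    exact ⟨Q * X * P, (LieD_iff h hP).2 ⟨X, hX, rfl⟩, by rw [hφ' X hX, hXZ]⟩
  · rintro X' hX' ⟨c, hc⟩
    obtain ⟨X, hX, rfl⟩ := (LieD_iff h hP).1 hX'
    rw [hφ' X hX]
    exact a4 X hX ⟨c, (hP.sc hX c).2 hc⟩
  · intro v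
    exact a5 _
  · intro v hv
    have h1 : P *ᵥ v = 0 := a6 _ (by rw [mulVec_mulVec, hP.eP]) hv
    have h4 : (Q * P) *ᵥ v = 0 := by rw [← mulVec_mulVec, h1, mulVec_zero]
    rwa [hP.qp, one_mulVec] at h4
  · intro x hx
    obtain ⟨w, hw1, hw2⟩ := a7 x hx
    refine ⟨Q *ᵥ w, ?_⟩
    rw [LinearMap.comp_apply, Matrix.mulVecLin_apply, mulVec_mulVec, hP.pq, hw1, hw2]
  · intro X' hX' v
    obtain ⟨X, hX, rfl⟩ := (LieD_iff h hP).1 hX'
    have h1 := a8 X hX (P *ᵥ v) (by rw [mulVec_mulVec, hP.eP])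
    rw [LinearMap.comp_apply, LinearMap.comp_apply, Matrix.mulVecLin_apply,
      Matrix.mulVecLin_apply, hφ' X hX, mulVec_mulVec, ← hP.YP hX, ← mulVec_mulVec, h1]
    unfold fc
    rw [hP.tre, hP.trY]

/-! ### Minimal idempotents -/

theorem exists_Mi (hadj : ∀ X ∈ L, Xᴴ ∈ L) {V : Type} [AddCommGroup V] (Φ : Matrix B B ℂ → V)
    (hΦ : ∀ a b, Φ (a + b) = Φ a + Φ b) : ∀ (n : ℕ) (q : Matrix B B ℂ), trace q = (n : ℂ) →
      q ∈ CM L → q * q = q → qᴴ = q → Φ q ≠ 0 →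
      ∃ e, Mi L e ∧ e * q = e ∧ Φ e ≠ 0 ∧ (trace e).re ≤ n := by
  intro n
  induction n using Nat.strong_induction_on with
  | _ n ih =>
  intro q hn hq hqq hqh hΦq
  by_cases hmi : Mi L q
  · refine ⟨q, hmi, hqq, hΦq, ?_⟩
    rw [hn]
    simp
  have hq0 : q ≠ 0 := by
    rintro rfl
    apply hΦq
    have h1 := hΦ 0 0
    rw [add_zero] at h1
    exact left_eq_add.1 h1
  obtain ⟨M, hM, hMc⟩ : ∃ M ∈ CM L, ∀ c : ℂ, q * M * q ≠ c • q := by
    by_contra hcon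
    push Not at hcon
    exact hmi ⟨hq, hqq, hqh, hq0, hcon⟩
  obtain ⟨r, P, Q, hPQ, hQP⟩ := WJ2.idem_fac hqq
  have hr0 : 0 < r := by
    rcases Nat.eq_zero_or_pos r with h | h
    · exfalso
      apply hq0
      subst h
      rw [← hPQ]
      ext i j
      simp [Matrix.mul_apply]
    · exact h
  have : Nonempty (Fin r) := ⟨⟨0, hr0⟩⟩
  have : Nontrivial (Fin r → ℂ) := inferInstance
  obtain ⟨μ, hμ⟩ := Module.End.exists_eigenvalue (Matrix.toLin' (Q * M * P))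
  obtain ⟨v, hv⟩ := hμ.exists_hasEigenvector
  have hv1 : (Q * M * P) *ᵥ v = μ • v := by
    have := hv.apply_eq_smul
    rwa [Matrix.toLin'_apply] at this
  have hqP : q * P = P := by rw [← hPQ, Matrix.mul_assoc, hQP, Matrix.mul_one]
  obtain ⟨E, hE⟩ : ∃ E : Submodule ℂ (B → ℂ), ∀ x, x ∈ E ↔
      (q *ᵥ x = x ∧ (q * M * q) *ᵥ x = μ • x) :=
    ⟨{ carrier := {x | q *ᵥ x = x ∧ (q * M * q) *ᵥ x = μ • x}
       add_mem' := by
         rintro a b ⟨h1, h2⟩ ⟨h3, h4⟩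
         exact ⟨by rw [mulVec_add, h1, h3], by rw [mulVec_add, h2, h4, smul_add]⟩
       zero_mem' := ⟨by rw [mulVec_zero], by rw [mulVec_zero, smul_zero]⟩
       smul_mem' := by
         rintro c a ⟨h1, h2⟩
         exact ⟨by rw [mulVec_smul, h1], by rw [mulVec_smul, h2, smul_comm]⟩ }, fun x => Iff.rfl⟩
  obtain ⟨p, hp, hp1, hp2⟩ := exists_proj E
  have hqMq : q * M * q ∈ CM L := by
    intro X hX
    calc X * (q * M * q) = (X * q) * M * q := by noncomm_ring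
      _ = q * (X * M) * q := by rw [hq X hX]; noncomm_ring
      _ = q * M * (X * q) := by rw [hM X hX]; noncomm_ring
      _ = _ := by rw [hq X hX]; noncomm_ring
  have hEs : L ≤ GJ17.St E := by
    intro X hX x hx
    rw [hE] at hx ⊢
    refine ⟨?_, ?_⟩
    · rw [mulVec_mulVec, ← hq X hX, ← mulVec_mulVec, hx.1]
    · rw [mulVec_mulVec, ← hqMq X hX, ← mulVec_mulVec, hx.2, mulVec_smul]
  have hpc : p ∈ CM L := GJ17.proj_comm hadj hEs hp hp1 hp2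
  have hpp : p * p = p := by
    refine GJ17.ext_mulVec fun x => ?_
    rw [← mulVec_mulVec]
    exact hp2 _ (hp1 x)
  have hqp : q * p = p := by
    refine GJ17.ext_mulVec fun x => ?_
    rw [← mulVec_mulVec]
    exact ((hE _).1 (hp1 x)).1
  have hpq : p * q = p := by
    have h1 := congrArg conjTranspose hqp
    rwa [conjTranspose_mul, hp, hqh] at h1
  have hp0 : p ≠ 0 := by
    intro h0
    apply hv.2
    have h1 : P *ᵥ v ∈ E := by
      rw [hE]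
      refine ⟨by rw [mulVec_mulVec, hqP], ?_⟩
      calc (q * M * q) *ᵥ (P *ᵥ v) = (P * (Q * M * P)) *ᵥ v := by
            rw [mulVec_mulVec, Matrix.mul_assoc (q * M), hqP, ← hPQ]
            simp only [Matrix.mul_assoc]
        _ = μ • (P *ᵥ v) := by rw [← mulVec_mulVec, hv1, mulVec_smul]
    have h2 := hp2 _ h1
    rw [h0, zero_mulVec] at h2
    have h3 : (Q * P) *ᵥ v = 0 := by rw [← mulVec_mulVec, ← h2, mulVec_zero]
    rwa [hQP, one_mulVec] at h3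
  have hpne : q - p ≠ 0 := by
    intro h0
    have h1 : q = p := sub_eq_zero.1 h0
    apply hMc μ
    refine GJ17.ext_mulVec fun x => ?_
    have h2 := ((hE _).1 (hp1 x)).2
    rw [← h1, mulVec_mulVec, Matrix.mul_assoc (q * M), hqq] at h2
    rw [h2, smul_mulVec]
  have hrr : (q - p) * (q - p) = q - p := by
    rw [mul_sub, sub_mul, sub_mul, hqq, hqp, hpq, hpp]
    abel
  obtain ⟨m, hm1, hm2, -⟩ := WJ2.idem_trace hpp
  obtain ⟨m', hm1', hm2', -⟩ := WJ2.idem_trace hrr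
  have hm := hm2 hp0
  have hm' := hm2' hpne
  have hmm : m + m' = n := by
    have h1 : ((m + m' : ℕ) : ℂ) = n := by
      push_cast
      rw [← hn, ← hm1, ← hm1', trace_sub]
      ring
    exact_mod_cast h1
  have hle : (m : ℝ) ≤ n := by exact_mod_cast (by omega : m ≤ n)
  have hle' : (m' : ℝ) ≤ n := by exact_mod_cast (by omega : m' ≤ n)
  by_cases hΦp : Φ p = 0
  · obtain ⟨e, he1, he2, he3, he4⟩ := ih m' (by omega) (q - p) hm1' ((CM L).sub_mem hq hpc) hrr (by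
      rw [conjTranspose_sub, hqh, hp]) (by
      intro h0
      apply hΦq
      have h1 := hΦ p (q - p)
      rwa [add_sub_cancel, hΦp, h0, add_zero] at h1)
    refine ⟨e, he1, ?_, he3, he4.trans hle'⟩
    have h1 : (q - p) * q = q - p := by rw [sub_mul, hqq, hpq]
    rw [← he2, mul_assoc, h1]
  · obtain ⟨e, he1, he2, he3, he4⟩ := ih m (by omega) p hm1 hpc hpp hp hΦp
    refine ⟨e, he1, ?_, he3, he4.trans hle⟩
    rw [← he2, mul_assoc, hpq]

/-- Projections onto modules. -/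
theorem proj_of (h : Gn L D) {Δ : (ℂ ≃+* ℂ) → Matrix (Fin d) (Fin d) ℂ}
    {Q0 : Matrix (Fin d) B ℂ} (hQP0 : Q0 * P = 1) (hDP : ∀ σ, D σ * P = P * Δ σ) :
    ∃ Q : Matrix (Fin d) B ℂ, (P * Q)ᴴ = P * Q ∧ Pc L (P * Q) P Q ∧
      ∀ σ, Q * D σ * P = Δ σ := by
  obtain ⟨q, hq, hq1, hq2⟩ := exists_proj (LinearMap.range P.mulVecLin)
  have hE : L ≤ GJ17.St (LinearMap.range P.mulVecLin) := by
    refine h.gen _ (fun σ => ?_) (fun X hX Y hY => GJ17.St_br hX hY)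
    rintro _ ⟨w, rfl⟩
    refine ⟨Δ σ *ᵥ w, ?_⟩
    rw [Matrix.mulVecLin_apply, Matrix.mulVecLin_apply, mulVec_mulVec, mulVec_mulVec, ← hDP σ]
  have hqc := GJ17.proj_comm h.adj hE hq hq1 hq2
  have hqP : q * P = P := by
    refine GJ17.ext_mulVec fun x => ?_
    rw [← mulVec_mulVec]
    exact hq2 _ ⟨x, rfl⟩
  have hQP : Q0 * q * P = 1 := by rw [Matrix.mul_assoc, hqP, hQP0]
  have hPQ : P * (Q0 * q) = q := by
    refine GJ17.ext_mulVec fun x => ?_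
    obtain ⟨w, hw⟩ := hq1 x
    rw [Matrix.mulVecLin_apply] at hw
    rw [← mulVec_mulVec, ← mulVec_mulVec, ← hw, mulVec_mulVec _ Q0 P, hQP0, one_mulVec]
  refine ⟨Q0 * q, by rw [hPQ, hq], ⟨by rw [hPQ]; exact hqc, rfl, hQP⟩, fun σ => ?_⟩
  rw [Matrix.mul_assoc _ (D σ) P, hDP σ, ← Matrix.mul_assoc, hQP, Matrix.one_mul]

/-! ### Tensors -/

theorem kpp3 (a b c : Matrix B B ℂ) (I J : Fin 3 → B) :
    kpp ![a, b, c] I J = a (I 0) (J 0) * b (I 1) (J 1) * c (I 2) (J 2) := by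
  rw [kpp_apply, Fin.prod_univ_three]
  rfl

theorem sum3 (f0 f1 f2 : B → ℂ) : ∑ I : Fin 3 → B, f0 (I 0) * f1 (I 1) * f2 (I 2) =
    (∑ b, f0 b) * (∑ b, f1 b) * (∑ b, f2 b) := by
  have h1 := Finset.prod_univ_sum (fun _ : Fin 3 => (Finset.univ : Finset B))
    (fun k b => (![f0, f1, f2] : Fin 3 → B → ℂ) k b)
  rw [Fintype.piFinset_univ, Fin.prod_univ_three] at h1
  simp only [Fin.prod_univ_three] at h1
  exact h1.symm

variable {d₁ d₂ : ℕ}

/-- The tensor product of three maps. -/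
def R3 (P₁ : Matrix B (Fin d₁) ℂ) (P₂ : Matrix B (Fin d₂) ℂ) (P₃ : Matrix B (Fin 1) ℂ) :
    Matrix (Fin 3 → B) (Fin d₁ × Fin d₂) ℂ :=
  of fun I p => P₁ (I 0) p.1 * P₂ (I 1) p.2 * P₃ (I 2) 0

theorem R3_apply (P₁ : Matrix B (Fin d₁) ℂ) (P₂ : Matrix B (Fin d₂) ℂ) (P₃ : Matrix B (Fin 1) ℂ)
    (I : Fin 3 → B) (p : Fin d₁ × Fin d₂) :
    R3 P₁ P₂ P₃ I p = P₁ (I 0) p.1 * P₂ (I 1) p.2 * P₃ (I 2) 0 := rfl

theorem R3_left {P₁ : Matrix B (Fin d₁) ℂ} {P₂ : Matrix B (Fin d₂) ℂ} {P₃ : Matrix B (Fin 1) ℂ}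
    {Q₁ : Matrix (Fin d₁) B ℂ} {Q₂ : Matrix (Fin d₂) B ℂ} {Q₃ : Matrix (Fin 1) B ℂ}
    (h1 : Q₁ * P₁ = 1) (h2 : Q₂ * P₂ = 1) (h3 : Q₃ * P₃ = 1) :
    (R3 Q₁ᵀ Q₂ᵀ Q₃ᵀ)ᵀ * R3 P₁ P₂ P₃ = 1 := by
  ext p p'
  rw [Matrix.mul_apply]
  have h4 : ∀ I : Fin 3 → B, (R3 Q₁ᵀ Q₂ᵀ Q₃ᵀ)ᵀ p I * R3 P₁ P₂ P₃ I p' =
      (Q₁ p.1 (I 0) * P₁ (I 0) p'.1) * (Q₂ p.2 (I 1) * P₂ (I 1) p'.2) *
        (Q₃ 0 (I 2) * P₃ (I 2) 0) := by
    intro I
    rw [transpose_apply, R3_apply, R3_apply, transpose_apply, transpose_apply, transpose_apply]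
    ring
  rw [Finset.sum_congr rfl fun I _ => h4 I,
    sum3 (fun b => Q₁ p.1 b * P₁ b p'.1) (fun b => Q₂ p.2 b * P₂ b p'.2)
      (fun b => Q₃ 0 b * P₃ b 0)]
  rw [← Matrix.mul_apply, ← Matrix.mul_apply, ← Matrix.mul_apply, h1, h2, h3]
  rw [Matrix.one_apply, Matrix.one_apply, Matrix.one_apply_eq, Matrix.one_apply]
  by_cases h5 : p = p'
  · subst h5
    simp
  · rw [if_neg h5]
    by_cases h6 : p.1 = p'.1
    · have h7 : p.2 ≠ p'.2 := fun h7 => h5 (Prod.ext h6 h7)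
      rw [if_neg h7]
      simp
    · rw [if_neg h6]
      simp

theorem R3_right {P₁ : Matrix B (Fin d₁) ℂ} {P₂ : Matrix B (Fin d₂) ℂ} {P₃ : Matrix B (Fin 1) ℂ}
    {Q₁ : Matrix (Fin d₁) B ℂ} {Q₂ : Matrix (Fin d₂) B ℂ} {Q₃ : Matrix (Fin 1) B ℂ} :
    R3 P₁ P₂ P₃ * (R3 Q₁ᵀ Q₂ᵀ Q₃ᵀ)ᵀ = kpp ![P₁ * Q₁, P₂ * Q₂, P₃ * Q₃] := by
  ext I J
  rw [Matrix.mul_apply, kpp_apply, Fin.prod_univ_three, Fintype.sum_prod_type]
  have h4 : ∀ i j, R3 P₁ P₂ P₃ I (i, j) * (R3 Q₁ᵀ Q₂ᵀ Q₃ᵀ)ᵀ (i, j) J =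
      (P₁ (I 0) i * Q₁ i (J 0)) * ((P₂ (I 1) j * Q₂ j (J 1)) * (P₃ (I 2) 0 * Q₃ 0 (J 2))) := by
    intro i j
    rw [transpose_apply, R3_apply, R3_apply, transpose_apply, transpose_apply, transpose_apply]
    ring
  simp only [h4, ← Finset.mul_sum, ← Finset.sum_mul]
  have h5 : P₃ (I 2) 0 * Q₃ 0 (J 2) = (P₃ * Q₃) (I 2) (J 2) := by
    rw [Matrix.mul_apply, Fin.sum_univ_one]
  rw [← Matrix.mul_apply, ← Matrix.mul_apply, h5, ← mul_assoc]
  rfl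

theorem R3_dm {P₁ : Matrix B (Fin d₁) ℂ} {P₂ : Matrix B (Fin d₂) ℂ} {P₃ : Matrix B (Fin 1) ℂ}
    {X : Matrix B B ℂ} {A₁ : Matrix (Fin d₁) (Fin d₁) ℂ} {A₂ : Matrix (Fin d₂) (Fin d₂) ℂ} {c : ℂ}
    (h1 : X * P₁ = P₁ * A₁) (h2 : X * P₂ = P₂ * A₂) (h3 : X * P₃ = c • P₃) :
    dm (Fin 3) X * R3 P₁ P₂ P₃ = R3 P₁ P₂ P₃ * tpD A₁ A₂ c := by
  ext I p
  obtain ⟨i, j⟩ := p
  have e1 : (dm (Fin 3) X * R3 P₁ P₂ P₃) I (i, j) =
      (dm (Fin 3) X *ᵥ (fun J => R3 P₁ P₂ P₃ J (i, j))) I := rfl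
  rw [e1, dm_mulVec_apply, Fin.sum_univ_three]
  have n10 : (1 : Fin 3) ≠ 0 := by decide
  have n20 : (2 : Fin 3) ≠ 0 := by decide
  have n21 : (2 : Fin 3) ≠ 1 := by decide
  have f0 : ∑ b, X (I 0) b * R3 P₁ P₂ P₃ (Function.update I 0 b) (i, j) =
      (P₁ * A₁) (I 0) i * P₂ (I 1) j * P₃ (I 2) 0 := by
    rw [← h1, Matrix.mul_apply, Finset.sum_mul, Finset.sum_mul]
    refine Finset.sum_congr rfl fun b _ => ?_
    rw [R3_apply, Function.update_self, Function.update_of_ne n10, Function.update_of_ne n20]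
    ring
  have f1 : ∑ b, X (I 1) b * R3 P₁ P₂ P₃ (Function.update I 1 b) (i, j) =
      P₁ (I 0) i * (P₂ * A₂) (I 1) j * P₃ (I 2) 0 := by
    rw [← h2, Matrix.mul_apply, Finset.mul_sum, Finset.sum_mul]
    refine Finset.sum_congr rfl fun b _ => ?_
    rw [R3_apply, Function.update_self, Function.update_of_ne n10.symm,
      Function.update_of_ne n21]
    ring
  have f2 : ∑ b, X (I 2) b * R3 P₁ P₂ P₃ (Function.update I 2 b) (i, j) =
      c * (P₁ (I 0) i * P₂ (I 1) j * P₃ (I 2) 0) := by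
    have h4 := congrFun (congrFun h3 (I 2)) 0
    rw [Matrix.mul_apply, Matrix.smul_apply, smul_eq_mul] at h4
    have h5 : c * (P₁ (I 0) i * P₂ (I 1) j * P₃ (I 2) 0) =
        P₁ (I 0) i * P₂ (I 1) j * (c * P₃ (I 2) 0) := by ring
    rw [h5, ← h4, Finset.mul_sum]
    refine Finset.sum_congr rfl fun b _ => ?_
    rw [R3_apply, Function.update_self, Function.update_of_ne n20.symm,
      Function.update_of_ne n21.symm]
    ring
  rw [f0, f1, f2]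
  unfold tpD
  rw [Matrix.mul_add, Matrix.mul_add, Matrix.add_apply, Matrix.add_apply]
  congr 1
  · congr 1
    · rw [Matrix.mul_apply (M := R3 P₁ P₂ P₃), Fintype.sum_prod_type]
      rw [Matrix.mul_apply, Finset.sum_mul, Finset.sum_mul]
      refine Finset.sum_congr rfl fun a _ => ?_
      rw [Finset.sum_eq_single j]
      · rw [R3_apply, kroneckerMap_apply, Matrix.one_apply_eq]
        ring
      · intro b _ hb
        rw [kroneckerMap_apply, Matrix.one_apply_ne hb]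
        ring
      · intro h
        exact absurd (Finset.mem_univ _) h
    · rw [Matrix.mul_apply (M := R3 P₁ P₂ P₃), Fintype.sum_prod_type_right]
      rw [Matrix.mul_apply, Finset.mul_sum, Finset.sum_mul]
      refine Finset.sum_congr rfl fun a _ => ?_
      rw [Finset.sum_eq_single i]
      · rw [R3_apply, kroneckerMap_apply, Matrix.one_apply_eq]
        ring
      · intro b _ hb
        rw [kroneckerMap_apply, Matrix.one_apply_ne hb]
        ring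
      · intro h
        exact absurd (Finset.mem_univ _) h
  · rw [Matrix.mul_smul, Matrix.mul_one, Matrix.smul_apply, smul_eq_mul, R3_apply]

theorem dm_tr {κ : Type} [Fintype κ] [DecidableEq κ] (X : Matrix B B ℂ) :
    (dm κ X)ᵀ = dm κ Xᵀ := by
  unfold dm kd
  rw [transpose_sum]
  refine Finset.sum_congr rfl fun k _ => ?_
  rw [kpp_transpose]
  congr 1
  funext l
  by_cases hl : l = k
  · subst hl
    rw [Function.update_self, Function.update_self]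
  · rw [Function.update_of_ne hl, Function.update_of_ne hl, transpose_one]

theorem tpD_T (A₁ : Matrix (Fin d₁) (Fin d₁) ℂ) (A₂ : Matrix (Fin d₂) (Fin d₂) ℂ) (c : ℂ) :
    (tpD A₁ A₂ c)ᵀ = tpD A₁ᵀ A₂ᵀ c := by
  unfold tpD
  rw [transpose_add, transpose_add, transpose_smul, transpose_one, ← kroneckerMap_transpose,
    ← kroneckerMap_transpose, transpose_one, transpose_one]

theorem R3_dm' {Q₁ : Matrix (Fin d₁) B ℂ} {Q₂ : Matrix (Fin d₂) B ℂ} {Q₃ : Matrix (Fin 1) B ℂ}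
    {X : Matrix B B ℂ} {A₁ : Matrix (Fin d₁) (Fin d₁) ℂ} {A₂ : Matrix (Fin d₂) (Fin d₂) ℂ} {c : ℂ}
    (h1 : Q₁ * X = A₁ * Q₁) (h2 : Q₂ * X = A₂ * Q₂) (h3 : Q₃ * X = c • Q₃) :
    (R3 Q₁ᵀ Q₂ᵀ Q₃ᵀ)ᵀ * dm (Fin 3) X = tpD A₁ A₂ c * (R3 Q₁ᵀ Q₂ᵀ Q₃ᵀ)ᵀ := by
  have h4 := R3_dm (P₁ := Q₁ᵀ) (P₂ := Q₂ᵀ) (P₃ := Q₃ᵀ) (X := Xᵀ) (A₁ := A₁ᵀ) (A₂ := A₂ᵀ) (c := c)
    (by rw [← transpose_mul, h1, transpose_mul]) (by rw [← transpose_mul, h2, transpose_mul])
    (by rw [← transpose_mul, h3, transpose_smul])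
  have h5 := congrArg Matrix.transpose h4
  rw [transpose_mul, transpose_mul, dm_tr, transpose_transpose, tpD_T, transpose_transpose,
    transpose_transpose] at h5
  exact h5

/-- Intertwiners of the family are intertwiners of the Lie algebra. -/
theorem int_gen (h : Gn L D) {T : Matrix (Fin 3 → B) B ℂ}
    (hT : ∀ σ, dm (Fin 3) (D σ) * T = T * D σ) : ∀ Y ∈ L, dm (Fin 3) Y * T = T * Y := by
  obtain ⟨N, hN⟩ : ∃ N : Submodule ℂ (Matrix B B ℂ), ∀ Y, Y ∈ N ↔ dm (Fin 3) Y * T = T * Y :=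
    ⟨{ carrier := {Y | dm (Fin 3) Y * T = T * Y}
       add_mem' := by
         intro a b (ha : _ = _) (hb : _ = _)
         change dm (Fin 3) (a + b) * T = T * (a + b)
         rw [dm_add, Matrix.add_mul, Matrix.mul_add, ha, hb]
       zero_mem' := by
         change dm (Fin 3) 0 * T = T * 0
         rw [dm_zero, Matrix.zero_mul, Matrix.mul_zero]
       smul_mem' := by
         intro c a (ha : _ = _)
         change dm (Fin 3) (c • a) * T = T * (c • a)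
         rw [dm_smul, Matrix.smul_mul, Matrix.mul_smul, ha] }, fun Y => Iff.rfl⟩
  have h1 : L ≤ N := by
    refine h.gen N (fun σ => (hN _).2 (hT σ)) (fun X hX Y hY => ?_)
    rw [hN] at hX hY ⊢
    have e1 : dm (Fin 3) X * dm (Fin 3) Y * T = T * (X * Y) := by
      rw [Matrix.mul_assoc, hY, ← Matrix.mul_assoc, hX, Matrix.mul_assoc]
    have e2 : dm (Fin 3) Y * dm (Fin 3) X * T = T * (Y * X) := by
      rw [Matrix.mul_assoc, hX, ← Matrix.mul_assoc, hY, Matrix.mul_assoc]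
    rw [dm_bracket, Matrix.sub_mul, e1, e2, Matrix.mul_sub]
  exact fun Y hY => (hN Y).1 (h1 hY)

variable {Om : Matrix B B ℂ}

/-- From intertwiners to tensors. -/
theorem ten_of (hO : IsOm Om) (hsp : ∀ X ∈ L, Xᵀ * Om + Om * X = 0) {T : Matrix (Fin 3 → B) B ℂ}
    (hT0 : T ≠ 0) (hT : ∀ Y ∈ L, dm (Fin 3) Y * T = T * Y) {e₁ e₂ f : Matrix B B ℂ}
    (hk : kpp ![e₁, e₂, f] * T = T) (hε : T * ε = T) :
    ∃ t ∈ InvL L (Fin 4), t ≠ 0 ∧ kpp ![st Om ε, e₁, e₂, f] *ᵥ t = t := by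
  obtain ⟨S, hS⟩ : ∃ S, S = T * Om := ⟨_, rfl⟩
  have hS0 : S ≠ 0 := by
    intro h0
    apply hT0
    have h1 : S * Om = -T := by rw [hS, Matrix.mul_assoc, hO.sq, Matrix.mul_neg, Matrix.mul_one]
    rw [h0, Matrix.zero_mul] at h1
    exact (neg_eq_zero.1 h1.symm)
  have hSY : ∀ Y ∈ L, S * Yᵀ + dm (Fin 3) Y * S = 0 := by
    intro Y hY
    have h1 : Y * Om = -(Om * Yᵀ) := by
      have h2 := hsp Y hY
      have h3 : Om * Y = -(Yᵀ * Om) := eq_neg_of_add_eq_zero_right h2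
      have h4 : Om * (Om * Y) * Om = Om * (-(Yᵀ * Om)) * Om := by rw [h3]
      have h5 : Om * (Om * Y) * Om = (Om * Om) * Y * Om := by noncomm_ring
      have h6 : Om * (-(Yᵀ * Om)) * Om = -(Om * Yᵀ * (Om * Om)) := by noncomm_ring
      rw [h5, h6, hO.sq] at h4
      have h7 : (-1 : Matrix B B ℂ) * Y * Om = -(Y * Om) := by noncomm_ring
      have h8 : -(Om * Yᵀ * (-1 : Matrix B B ℂ)) = Om * Yᵀ := by noncomm_ring
      rw [h7, h8] at h4
      rw [← h4, neg_neg]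
    rw [hS, ← Matrix.mul_assoc, hT Y hY, Matrix.mul_assoc, Matrix.mul_assoc, h1, Matrix.mul_neg]
    exact add_neg_cancel _
  have hSk : kpp ![e₁, e₂, f] * S * (st Om ε)ᵀ = S := by
    have h1 : Om * (st Om ε)ᵀ = ε * Om := by
      unfold st
      rw [transpose_neg, transpose_mul, transpose_mul, transpose_transpose, hO.T]
      calc Om * -(-Om * (ε * -Om)) = -((Om * Om) * ε * Om) := by noncomm_ring
        _ = _ := by rw [hO.sq]; noncomm_ring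
    rw [hS, ← Matrix.mul_assoc, hk, Matrix.mul_assoc, h1, ← Matrix.mul_assoc, hε]
  refine ⟨fun I => S (fun k => I k.succ) (I 0), ?_, ?_, ?_⟩
  · rw [mem_InvL]
    intro Y hY
    funext I
    rw [dm_mulVec_apply, Fin.sum_univ_succ]
    have h1 := congrFun (congrFun (hSY Y hY) (fun k => I k.succ)) (I 0)
    rw [Matrix.add_apply, Matrix.zero_apply] at h1
    rw [Pi.zero_apply, ← h1]
    congr 1
    · rw [Matrix.mul_apply]
      refine Finset.sum_congr rfl fun j _ => ?_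
      rw [transpose_apply, mul_comm, Function.update_self]
      congr 2
    · have h2 : (dm (Fin 3) Y * S) (fun k => I k.succ) (I 0) =
          (dm (Fin 3) Y *ᵥ (fun J => S J (I 0))) (fun k => I k.succ) := rfl
      rw [h2, dm_mulVec_apply]
      refine Finset.sum_congr rfl fun k _ => Finset.sum_congr rfl fun j _ => ?_
      rw [Function.update_of_ne (Fin.succ_ne_zero k).symm]
      congr 2
      funext l
      by_cases hl : l = k
      · subst hl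
        rw [Function.update_self, Function.update_self]
      · rw [Function.update_of_ne hl, Function.update_of_ne (fun h => hl (Fin.succ_injective _ h))]
  · intro h0
    apply hS0
    ext J b
    have h1 := congrFun h0 (Fin.cons b J)
    simp only [Fin.cons_succ, Fin.cons_zero] at h1
    exact h1
  · funext I
    rw [Matrix.mulVec, dotProduct]
    rw [← (Fin.consEquiv (fun _ : Fin 4 => B)).sum_comp, Fintype.sum_prod_type]
    have h1 := congrFun (congrFun hSk (fun k => I k.succ)) (I 0)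
    refine Eq.trans ?_ h1
    rw [Matrix.mul_apply]
    refine Finset.sum_congr rfl fun b _ => ?_
    rw [Matrix.mul_apply, Finset.sum_mul]
    refine Finset.sum_congr rfl fun J _ => ?_
    rw [kpp_apply, kpp_apply, Fin.prod_univ_succ, transpose_apply]
    simp only [Fin.consEquiv_apply, Fin.cons_zero, Fin.cons_succ, Matrix.cons_val_zero,
      Matrix.cons_val_succ]
    ring

/-- The reduction. -/
theorem red_of (hO : IsOm Om) (hsp : ∀ X ∈ L, Xᵀ * Om + Om * X = 0) (h : Gn L D)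
    (hP : Pc L ε P Q) (hεh : εᴴ = ε) {Δ₁ : (ℂ ≃+* ℂ) → Matrix (Fin d₁) (Fin d₁) ℂ}
    {Δ₂ : (ℂ ≃+* ℂ) → Matrix (Fin d₂) (Fin d₂) ℂ} {F : (ℂ ≃+* ℂ) → ℤ} (hd₁ : d₁ < d)
    (hd₂ : d₂ < d) {P₁ : Matrix B (Fin d₁) ℂ} {Q₁ : Matrix (Fin d₁) B ℂ} {P₂ : Matrix B (Fin d₂) ℂ}
    {Q₂ : Matrix (Fin d₂) B ℂ} {P₃ : Matrix B (Fin 1) ℂ} {Q₃ : Matrix (Fin 1) B ℂ}
    (h₁ : Pc L (P₁ * Q₁) P₁ Q₁) (h₁' : (P₁ * Q₁)ᴴ = P₁ * Q₁) (h₁D : ∀ σ, Q₁ * D σ * P₁ = Δ₁ σ)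
    (h₂ : Pc L (P₂ * Q₂) P₂ Q₂) (h₂' : (P₂ * Q₂)ᴴ = P₂ * Q₂) (h₂D : ∀ σ, Q₂ * D σ * P₂ = Δ₂ σ)
    (h₃ : Pc L (P₃ * Q₃) P₃ Q₃) (h₃' : Mi L (P₃ * Q₃)) (h₃D : ∀ σ, Q₃ * D σ * P₃ = lineD F σ)
    (hR : RedD (fun σ => Q * D σ * P) Δ₁ Δ₂ F) : RedL Om L ε := by
  have hline : ∀ σ, lineD F σ = (F σ : ℂ) • (1 : Matrix (Fin 1) (Fin 1) ℂ) := by
    intro σ
    ext i j
    rw [Subsingleton.elim i 0, Subsingleton.elim j 0, Matrix.smul_apply, Matrix.one_apply_eq,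
      smul_eq_mul, mul_one]
    rfl
  obtain ⟨R, hRd⟩ : ∃ R, R = R3 P₁ P₂ P₃ := ⟨_, rfl⟩
  obtain ⟨R', hRd'⟩ : ∃ R', R' = (R3 Q₁ᵀ Q₂ᵀ Q₃ᵀ)ᵀ := ⟨_, rfl⟩
  have hR'R : R' * R = 1 := by rw [hRd, hRd', R3_left h₁.qp h₂.qp h₃.qp]
  have hRR' : R * R' = kpp ![P₁ * Q₁, P₂ * Q₂, P₃ * Q₃] := by rw [hRd, hRd', R3_right]
  have hdR : ∀ σ, dm (Fin 3) (D σ) * R = R * tpD (Δ₁ σ) (Δ₂ σ) (F σ) := by
    intro σ
    rw [hRd]
    refine R3_dm ?_ ?_ ?_
    · rw [h₁.YP (h.mem σ), h₁D]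
    · rw [h₂.YP (h.mem σ), h₂D]
    · rw [h₃.YP (h.mem σ), h₃D, hline, Matrix.mul_smul, Matrix.mul_one]
  have hdR' : ∀ σ, R' * dm (Fin 3) (D σ) = tpD (Δ₁ σ) (Δ₂ σ) (F σ) * R' := by
    intro σ
    rw [hRd']
    refine R3_dm' ?_ ?_ ?_
    · rw [h₁.QY (h.mem σ), h₁D]
    · rw [h₂.QY (h.mem σ), h₂D]
    · rw [h₃.QY (h.mem σ), h₃D, hline, Matrix.smul_mul, Matrix.one_mul]
  -- the intertwiner
  obtain ⟨T, hT0, hT, hTk, hTε⟩ : ∃ T : Matrix (Fin 3 → B) B ℂ, T ≠ 0 ∧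
      (∀ Y ∈ L, dm (Fin 3) Y * T = T * Y) ∧ kpp ![P₁ * Q₁, P₂ * Q₂, P₃ * Q₃] * T = T ∧
      T * ε = T := by
    rcases hR with ⟨N, hN0, hN⟩ | ⟨N, hN0, hN⟩
    · obtain ⟨U, hU⟩ : ∃ U, U = P * N * R' := ⟨_, rfl⟩
      have hU1 : ∀ σ, D σ * U = U * dm (Fin 3) (D σ) := by
        intro σ
        calc D σ * U = (D σ * P) * N * R' := by rw [hU]; simp only [Matrix.mul_assoc]
          _ = P * ((Q * D σ * P) * N) * R' := by rw [hP.YP (h.mem σ)]; simp only [Matrix.mul_assoc]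
          _ = P * N * (tpD (Δ₁ σ) (Δ₂ σ) (F σ) * R') := by rw [hN σ]; simp only [Matrix.mul_assoc]
          _ = _ := by rw [← hdR', hU]; simp only [Matrix.mul_assoc]
      have hU2 : ∀ Y ∈ L, Y * U = U * dm (Fin 3) Y := by
        obtain ⟨K, hK⟩ : ∃ K : Submodule ℂ (Matrix B B ℂ), ∀ Y, Y ∈ K ↔
            Y * U = U * dm (Fin 3) Y :=
          ⟨{ carrier := {Y | Y * U = U * dm (Fin 3) Y}
             add_mem' := by
               intro a b (ha : _ = _) (hb : _ = _)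
               change (a + b) * U = U * dm (Fin 3) (a + b)
               rw [dm_add, Matrix.add_mul, Matrix.mul_add, ha, hb]
             zero_mem' := by
               change 0 * U = U * dm (Fin 3) 0
               rw [dm_zero, Matrix.zero_mul, Matrix.mul_zero]
             smul_mem' := by
               intro c a (ha : _ = _)
               change (c • a) * U = U * dm (Fin 3) (c • a)
               rw [dm_smul, Matrix.smul_mul, Matrix.mul_smul, ha] }, fun Y => Iff.rfl⟩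
        have h1 : L ≤ K := by
          refine h.gen K (fun σ => (hK _).2 (hU1 σ)) (fun X hX Y hY => ?_)
          rw [hK] at hX hY ⊢
          have e1 : X * Y * U = U * (dm (Fin 3) X * dm (Fin 3) Y) := by
            rw [Matrix.mul_assoc, hY, ← Matrix.mul_assoc, hX, Matrix.mul_assoc]
          have e2 : Y * X * U = U * (dm (Fin 3) Y * dm (Fin 3) X) := by
            rw [Matrix.mul_assoc, hX, ← Matrix.mul_assoc, hY, Matrix.mul_assoc]
          rw [dm_bracket, Matrix.sub_mul, e1, e2, Matrix.mul_sub]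
        exact fun Y hY => (hK Y).1 (h1 hY)
      refine ⟨Uᴴ, ?_, ?_, ?_, ?_⟩
      · intro h0
        apply hN0
        have h1 : U = 0 := by rw [← conjTranspose_conjTranspose U, h0, conjTranspose_zero]
        calc N = (Q * P) * N * (R' * R) := by rw [hP.qp, hR'R, Matrix.one_mul, Matrix.mul_one]
          _ = Q * U * R := by rw [hU]; simp only [Matrix.mul_assoc]
          _ = 0 := by rw [h1, Matrix.mul_zero, Matrix.zero_mul]
      · intro Y hY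
        have h1 := congrArg conjTranspose (hU2 _ (h.adj Y hY))
        rw [conjTranspose_mul, conjTranspose_mul, conjTranspose_conjTranspose, dm_conjTranspose,
          conjTranspose_conjTranspose] at h1
        exact h1.symm
      · have h1 : U * kpp ![P₁ * Q₁, P₂ * Q₂, P₃ * Q₃] = U := by
          rw [← hRR']
          calc U * (R * R') = P * N * ((R' * R) * R') := by rw [hU]; simp only [Matrix.mul_assoc]
            _ = _ := by rw [hR'R, Matrix.one_mul, hU]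
        have h2 := congrArg conjTranspose h1
        rw [conjTranspose_mul, kpp_conjTranspose] at h2
        have h4 : (fun k => ((![P₁ * Q₁, P₂ * Q₂, P₃ * Q₃] : Fin 3 → Matrix B B ℂ) k)ᴴ) =
            ![P₁ * Q₁, P₂ * Q₂, P₃ * Q₃] := by
          funext k
          fin_cases k
          · exact h₁'
          · exact h₂'
          · exact h₃'.2.2.1
        rwa [h4] at h2
      · have h1 : ε * U = U := by
          rw [hU, ← Matrix.mul_assoc, ← Matrix.mul_assoc, hP.eP]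
        have h2 := congrArg conjTranspose h1
        rwa [conjTranspose_mul, hεh] at h2
    · refine ⟨R * N * Q, ?_, ?_, ?_, ?_⟩
      · intro h0
        apply hN0
        calc N = (R' * R) * N * (Q * P) := by rw [hP.qp, hR'R, Matrix.one_mul, Matrix.mul_one]
          _ = R' * (R * N * Q) * P := by simp only [Matrix.mul_assoc]
          _ = 0 := by rw [h0, Matrix.mul_zero, Matrix.zero_mul]
      · refine int_gen h fun σ => ?_
        calc dm (Fin 3) (D σ) * (R * N * Q) = (dm (Fin 3) (D σ) * R) * N * Q := by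
              simp only [Matrix.mul_assoc]
          _ = R * (tpD (Δ₁ σ) (Δ₂ σ) (F σ) * N) * Q := by rw [hdR]; simp only [Matrix.mul_assoc]
          _ = R * N * (Q * D σ * P * Q) := by rw [hN σ]; simp only [Matrix.mul_assoc]
          _ = _ := by rw [← hP.QY (h.mem σ)]; simp only [Matrix.mul_assoc]
      · rw [← hRR']
        calc R * R' * (R * N * Q) = R * ((R' * R) * N * Q) := by simp only [Matrix.mul_assoc]
          _ = _ := by rw [hR'R, Matrix.one_mul]; simp only [Matrix.mul_assoc]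
      · rw [Matrix.mul_assoc, hP.Qe]
  -- minimal idempotents
  have hadd1 : ∀ a b c d : Matrix B B ℂ, kpp ![a + b, c, d] = kpp ![a, c, d] + kpp ![b, c, d] := by
    intro a b c d
    ext I J
    rw [Matrix.add_apply, kpp3, kpp3, kpp3, Matrix.add_apply]
    ring
  have hadd2 : ∀ a b c d : Matrix B B ℂ, kpp ![c, a + b, d] = kpp ![c, a, d] + kpp ![c, b, d] := by
    intro a b c d
    ext I J
    rw [Matrix.add_apply, kpp3, kpp3, kpp3, Matrix.add_apply]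
    ring
  obtain ⟨e₁, he₁, he₁q, he₁T, he₁t⟩ := exists_Mi h.adj
    (fun a => kpp ![a, P₂ * Q₂, P₃ * Q₃] * T) (fun a b => by
      beta_reduce
      rw [hadd1, Matrix.add_mul]) d₁ (P₁ * Q₁) h₁.tre h₁.cm (by
      rw [Matrix.mul_assoc, ← Matrix.mul_assoc Q₁, h₁.qp, Matrix.one_mul]) h₁' (by
      beta_reduce
      rw [hTk]
      exact hT0)
  obtain ⟨e₂, he₂, he₂q, he₂T, he₂t⟩ := exists_Mi h.adj
    (fun a => kpp ![e₁, a, P₃ * Q₃] * T) (fun a b => by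
      beta_reduce
      rw [hadd2, Matrix.add_mul]) d₂ (P₂ * Q₂) h₂.tre h₂.cm (by
      rw [Matrix.mul_assoc, ← Matrix.mul_assoc Q₂, h₂.qp, Matrix.one_mul]) h₂' he₁T
  have hte : (trace ε).re = d := by rw [hP.tre]; simp
  refine ⟨e₁, e₂, P₃ * Q₃, he₁, he₂, ⟨h₃', by rw [h₃.tre]; simp⟩, ?_, ?_, ?_⟩
  · rw [hte]
    exact lt_of_le_of_lt he₁t (by exact_mod_cast hd₁)
  · rw [hte]
    exact lt_of_le_of_lt he₂t (by exact_mod_cast hd₂)
  · refine ten_of hO hsp (T := kpp ![e₁, e₂, P₃ * Q₃] * T) he₂T ?_ ?_ ?_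
    · intro Y hY
      rw [← Matrix.mul_assoc, WJ2.dm_comm_kpp (fun k => ?_), Matrix.mul_assoc, hT Y hY,
        Matrix.mul_assoc]
      fin_cases k
      · exact he₁.1 Y hY
      · exact he₂.1 Y hY
      · exact h₃'.1 Y hY
    · rw [← Matrix.mul_assoc, kpp_mul]
      congr 2
      funext k
      fin_cases k
      · exact he₁.2.1
      · exact he₂.2.1
      · exact h₃'.2.1
    · rw [Matrix.mul_assoc, hTε]

end mat

end GK14

open GK14 in
/-- **K14.** From abelian varieties to matrices. -/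
theorem br_of (h1 : St_coo) (h2 : St_mi) : St_br := by
  intro g Z X e y yi hZ hC hy hH ε hε htr
  have hG : Gn (Ly Z y yi) (Dy Z y yi) := ⟨GJ17.Dy_mem hy, (hy.ld hZ).adj, (hy.ld hZ).br,
    GJ17.Ly_le hy⟩
  obtain ⟨k1, k2⟩ := h2 g Z X e y yi hZ hC hy
  obtain ⟨d, P, Q, hPQ, hQP, hir, hrz⟩ := k1 ε hε
  have hP : Pc (Ly Z y yi) ε P Q := ⟨hε.1, hPQ, hQP⟩
  have hd1 : d ≠ 1 := by
    rintro rfl
    apply htr
    rw [hP.tre]
    simp
  obtain ⟨hH1, hH2⟩ := hH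
  obtain ⟨htw, hred⟩ := hH2 d _ hir hrz hd1
  refine ⟨?_, fun hor => ?_⟩
  · obtain ⟨P', Q', hMi', hQP', hD'⟩ := k2 d _ (irD_tw hir) htw
    exact twc_of hG hir.1 hP hMi' ⟨hMi'.1, rfl, hQP'⟩ hD'
  · have hor' : DecD (fun σ => Q * Dy Z y yi σ * P) ∨
        ∃ n k φ ι, ATD (fun σ => Q * Dy Z y yi σ * P) n k φ ι := by
      rcases hor with h | h
      · exact Or.inl (dec_of' hG hP h)
      · exact Or.inr (aty_of hG hP h)
    obtain ⟨d₁, d₂, Δ₁, Δ₂, F, hd₁, hd₂, hr₁, hr₂, hr₃, hR⟩ := hred hor'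
    have key : ∀ (d' : ℕ) (Δ' : (ℂ ≃+* ℂ) → Matrix (Fin d') (Fin d') ℂ), Rz X d' Δ' →
        ∃ (P' : Matrix (Fin g ⊕ Fin g) (Fin d') ℂ) (Q' : Matrix (Fin d') (Fin g ⊕ Fin g) ℂ),
          (P' * Q')ᴴ = P' * Q' ∧ Pc (Ly Z y yi) (P' * Q') P' Q' ∧
            ∀ σ, Q' * Dy Z y yi σ * P' = Δ' σ := by
      rintro d' Δ' ⟨F', hF, hF2⟩
      obtain ⟨Q0, hQ0⟩ := GJ17.pm_li e hy F' hF
      obtain ⟨Q', q1, q2, q3⟩ := proj_of hG hQ0
        (fun σ => (GJ17.pm_iff e h1 hZ hC hy F' σ (Δ' σ)).1 (hF2 σ))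
      exact ⟨_, Q', q1, q2, q3⟩
    obtain ⟨P₁, Q₁, a1, a2, a3⟩ := key d₁ Δ₁ hr₁
    obtain ⟨P₂, Q₂, b1, b2, b3⟩ := key d₂ Δ₂ hr₂
    have hir3 : IrD (lineD F) := by
      refine ⟨one_pos, fun W _ => ?_⟩
      by_cases hW : W = ⊥
      · exact Or.inl hW
      · right
        obtain ⟨w, hw, hw0⟩ := (Submodule.ne_bot_iff W).1 hW
        have h0 : w 0 ≠ 0 := by
          intro h0
          apply hw0
          funext i
          rw [Subsingleton.elim i 0, h0]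
          rfl
        rw [Submodule.eq_top_iff']
        intro x
        have h3 : x = (x 0 / w 0) • w := by
          funext i
          rw [Subsingleton.elim i 0, Pi.smul_apply, smul_eq_mul, div_mul_cancel₀ _ h0]
        rw [h3]
        exact W.smul_mem _ hw
    obtain ⟨P₃, Q₃, c1, c2, c3⟩ := k2 1 _ hir3 hr₃
    exact red_of (hy.isOm hZ.det) (hy.ld hZ).sp hG hP hε.2.2.1 hd₁ hd₂ a2 a1 a3 b2 b1 b3
      ⟨c1.1, rfl, c2⟩ c1 c3 hR

end

end Pool.Agent.NH32
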