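import Mathlib
import Pool.Agent.NH32.GtB
import Pool.Agent.W548.Odd.LA

/-!
# Project G, stage 2: rational polarizations from real ones (K2)
-/

set_option linter.unusedSectionVars false

namespace Pool.Agent.NH32

open Matrix Module Topology
open Pool.Agent.W548.Odd (rational_induction)

noncomputable section

namespace GK2

variable {N : ℕ}

/-- The Hodge operator. -/
def iJ (J : Matrix (Fin N) (Fin N) ℝ) : Matrix (Fin N) (Fin N) ℂ :=
  Complex.I • J.map (fun x : ℝ => (x : ℂ))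

/-- The skew forms for which all conjugates of the Hodge operator are skew. -/
def VJ (J : Matrix (Fin N) (Fin N) ℝ) : Submodule ℂ (Matrix (Fin N) (Fin N) ℂ) where
  carrier := {X | Xᵀ = -X ∧ ∀ σ : ℂ ≃+* ℂ, ((iJ J).map σ)ᵀ * X + X * (iJ J).map σ = 0}
  add_mem' := by
    rintro X Y ⟨hX1, hX2⟩ ⟨hY1, hY2⟩
    refine ⟨?_, fun σ => ?_⟩
    · rw [transpose_add, hX1, hY1, neg_add]
    · have h : ((iJ J).map σ)ᵀ * (X + Y) + (X + Y) * (iJ J).map σ =
          (((iJ J).map σ)ᵀ * X + X * (iJ J).map σ) + (((iJ J).map σ)ᵀ * Y + Y * (iJ J).map σ) := by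
        rw [Matrix.mul_add, Matrix.add_mul]
        abel
      rw [h, hX2, hY2, add_zero]
  zero_mem' := ⟨by rw [transpose_zero, neg_zero],
    fun σ => by rw [Matrix.mul_zero, Matrix.zero_mul, add_zero]⟩
  smul_mem' := by
    rintro c X ⟨hX1, hX2⟩
    refine ⟨?_, fun σ => ?_⟩
    · rw [transpose_smul, hX1, smul_neg]
    · rw [Matrix.mul_smul, Matrix.smul_mul, ← smul_add, hX2, smul_zero]

theorem VJ_gal (J : Matrix (Fin N) (Fin N) ℝ) (τ : ℂ ≃+* ℂ) (X : Matrix (Fin N) (Fin N) ℂ)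
    (hX : X ∈ VJ J) : X.map τ ∈ VJ J := by
  obtain ⟨h1, h2⟩ := hX
  refine ⟨?_, fun σ => ?_⟩
  · ext i j
    have h3 := congrArg τ (congrFun (congrFun h1 i) j)
    rw [transpose_apply, neg_apply, map_neg] at h3
    exact h3
  · have e : ((iJ J).map (σ.trans τ.symm)).map τ = (iJ J).map σ := by
      ext i j
      simp
    have h4 : (((iJ J).map (σ.trans τ.symm))ᵀ * X + X * (iJ J).map (σ.trans τ.symm)).map τ =
        ((iJ J).map σ)ᵀ * X.map τ + X.map τ * (iJ J).map σ := by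
      rw [Matrix.map_add _ (map_add τ), Matrix.map_mul, Matrix.map_mul, e, ← e]
      rfl
    rw [← h4, h2 (σ.trans τ.symm)]
    exact Matrix.map_zero _ (map_zero τ)

/-- The rational elements. -/
def CJ (J : Matrix (Fin N) (Fin N) ℝ) : Set (Matrix (Fin N) (Fin N) ℝ) :=
  {R | ∃ u : Matrix (Fin N) (Fin N) ℚ, u.map (fun x : ℚ => (x : ℂ)) ∈ VJ J ∧
    R = u.map (fun x : ℚ => (x : ℝ))}

theorem re_mem (J : Matrix (Fin N) (Fin N) ℝ) :
    ∀ X ∈ VJ J, ∀ z : ℂ, (z • X).map Complex.re ∈ closure (CJ J) := by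
  refine rational_induction (VJ J) (VJ_gal J) ?_ ?_ ?_ ?_
  · intro u hu z
    have h1 : (z • u.map (fun x : ℚ => (x : ℂ))).map Complex.re =
        z.re • u.map (fun x : ℚ => (x : ℝ)) := by
      ext i j
      simp
    rw [h1]
    have h2 : z.re ∈ closure (Set.range (Rat.cast : ℚ → ℝ)) := Rat.denseRange_cast z.re
    refine map_mem_closure (f := fun t : ℝ => t • u.map (fun x : ℚ => (x : ℝ)))
      (continuous_id.smul continuous_const) h2 ?_
    rintro _ ⟨q, rfl⟩
    refine ⟨q • u, ?_, ?_⟩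
    · have h3 : (q • u).map (fun x : ℚ => (x : ℂ)) = (q : ℂ) • u.map (fun x : ℚ => (x : ℂ)) := by
        ext i j
        simp
      rw [h3]
      exact Submodule.smul_mem _ _ hu
    · ext i j
      simp
  · intro z
    apply subset_closure
    refine ⟨0, ?_, ?_⟩
    · have h1 : (0 : Matrix (Fin N) (Fin N) ℚ).map (fun x : ℚ => (x : ℂ)) = 0 := by
        ext i j
        simp
      rw [h1]
      exact Submodule.zero_mem _
    · ext i j
      simp
  · intro X Y hX hY z
    have h1 : (z • (X + Y)).map Complex.re = (z • X).map Complex.re + (z • Y).map Complex.re := by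
      ext i j
      simp only [Matrix.map_apply, Matrix.smul_apply, Matrix.add_apply, smul_add, Complex.add_re]
    rw [h1]
    refine map_mem_closure₂ continuous_add (hX z) (hY z) ?_
    rintro _ ⟨u, hu, rfl⟩ _ ⟨v, hv, rfl⟩
    refine ⟨u + v, ?_, ?_⟩
    · have h3 : (u + v).map (fun x : ℚ => (x : ℂ)) =
          u.map (fun x : ℚ => (x : ℂ)) + v.map (fun x : ℚ => (x : ℂ)) := by
        ext i j
        simp
      rw [h3]
      exact Submodule.add_mem _ hu hv
    · ext i j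
      simp
  · intro c X hX z
    rw [smul_smul]
    exact hX _

theorem pos_nhds (J M₀ : Matrix (Fin N) (Fin N) ℝ)
    (h : ∀ x, x ≠ 0 → 0 < (J *ᵥ x) ⬝ᵥ (M₀ *ᵥ x)) :
    ∀ᶠ M in 𝓝 M₀, ∀ x, x ≠ 0 → 0 < (J *ᵥ x) ⬝ᵥ (M *ᵥ x) := by
  have h1 : ∀ᶠ M in 𝓝 M₀, ∀ x ∈ Metric.sphere (0 : Fin N → ℝ) 1,
      0 < (J *ᵥ x) ⬝ᵥ (M *ᵥ x) := by
    refine (isCompact_sphere 0 1).eventually_forall_of_forall_eventually fun y hy => ?_
    have hc : Continuous fun z : Matrix (Fin N) (Fin N) ℝ × (Fin N → ℝ) =>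
        (J *ᵥ z.2) ⬝ᵥ (z.1 *ᵥ z.2) :=
      (continuous_const.matrix_mulVec continuous_snd).dotProduct
        (continuous_fst.matrix_mulVec continuous_snd)
    refine (hc.tendsto (M₀, y)).eventually (lt_mem_nhds (h y ?_))
    rintro rfl
    simp at hy
  filter_upwards [h1] with M hM x hx
  have h2 : ‖x‖ ≠ 0 := norm_ne_zero_iff.2 hx
  have h3 := hM (‖x‖⁻¹ • x) (by
    rw [mem_sphere_zero_iff_norm, norm_smul, norm_inv, norm_norm, inv_mul_cancel₀ h2])
  rw [mulVec_smul, mulVec_smul, smul_dotProduct, dotProduct_smul, smul_eq_mul, smul_eq_mul] at h3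
  have h4 : 0 < ‖x‖⁻¹ := inv_pos.2 (lt_of_le_of_ne (norm_nonneg _) (Ne.symm h2))
  exact pos_of_mul_pos_right (pos_of_mul_pos_right h3 h4.le) h4.le

theorem ofReal_inj {A B : Matrix (Fin N) (Fin N) ℝ}
    (h : A.map (fun x : ℝ => (x : ℂ)) = B.map (fun x : ℝ => (x : ℂ))) : A = B := by
  ext i j
  exact Complex.ofReal_injective (congrFun (congrFun h i) j)

end GK2

theorem pd_of : St_pd := by
  intro N J M₀ hJ hM hs hpos
  have h1 : M₀.map (fun x : ℝ => (x : ℂ)) ∈ GK2.VJ J := by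
    refine ⟨?_, hs⟩
    ext i j
    have h2 := congrFun (congrFun hM i) j
    rw [transpose_apply, neg_apply] at h2
    rw [transpose_apply, neg_apply, map_apply, map_apply, h2, Complex.ofReal_neg]
  have h2 := GK2.re_mem J _ h1 1
  have h3 : ((1 : ℂ) • M₀.map (fun x : ℝ => (x : ℂ))).map Complex.re = M₀ := by
    ext i j
    simp
  rw [h3] at h2
  obtain ⟨R, hR, u, hu, rfl⟩ := mem_closure_iff_nhds.1 h2 _ (GK2.pos_nhds J M₀ hpos)
  refine ⟨u, ?_, ?_, hR⟩
  · ext i j
    have h4 := congrFun (congrFun hu.1 i) j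
    rw [transpose_apply, Matrix.neg_apply, map_apply, map_apply] at h4
    rw [transpose_apply, Matrix.neg_apply]
    exact_mod_cast h4
  · have h4 := hu.2 (RingEquiv.refl ℂ)
    have h5 : (GK2.iJ J).map (RingEquiv.refl ℂ) =
        Complex.I • J.map (fun x : ℝ => (x : ℂ)) := by
      ext i j
      simp [GK2.iJ]
    rw [h5, transpose_smul, Matrix.smul_mul, Matrix.mul_smul, ← smul_add] at h4
    have h6 := (smul_eq_zero.1 h4).resolve_left Complex.I_ne_zero
    apply GK2.ofReal_inj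
    have h7 : (Jᵀ * u.map (fun x : ℚ => (x : ℝ)) + u.map (fun x : ℚ => (x : ℝ)) * J).map
        (fun x : ℝ => (x : ℂ)) = (J.map (fun x : ℝ => (x : ℂ)))ᵀ * u.map (fun x : ℚ => (x : ℂ)) +
        u.map (fun x : ℚ => (x : ℂ)) * J.map (fun x : ℝ => (x : ℂ)) := by
      ext i j
      simp [Matrix.mul_apply]
    rw [h7, h6]
    ext i j
    simp

end

end Pool.Agent.NH32
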