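import Mathlib
import Pool.Agent.NH32.GtB
import Pool.Agent.Y4.Aut

/-!
# Project G, stage 2, K3: the matrices belonging to a good family
-/

set_option linter.unusedSectionVars false

namespace Pool.Agent.NH32

open Matrix Module
open scoped ComplexOrder Classical

noncomputable section

namespace GK3

section emb

variable (K : Type) [Field K] [NumberField K]

/-- The matrix of the embeddings. -/
def EM : Matrix (Fin (finrank ℚ K)) (K →+* ℂ) ℂ := fun a ψ => ψ (finBasis ℚ K a)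

theorem EM_inj (x : (K →+* ℂ) → ℂ) (hx : EM K *ᵥ x = 0) : x = 0 := by
  have h1 : ∀ k : K, ∑ ψ : K →+* ℂ, x ψ * ψ k = 0 := by
    let L : K →ₗ[ℚ] ℂ := ∑ ψ : K →+* ℂ, (LinearMap.mulLeft ℚ (x ψ)).comp
      (ψ.toRatAlgHom.toLinearMap)
    have hL : L = 0 := by
      apply (finBasis ℚ K).ext
      intro a
      have h2 := congrFun hx a
      simp only [mulVec, dotProduct, EM, Pi.zero_apply] at h2
      simp only [L, LinearMap.sum_apply, LinearMap.comp_apply, LinearMap.mulLeft_apply,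
        LinearMap.zero_apply]
      rw [← h2]
      refine Finset.sum_congr rfl fun ψ _ => ?_
      rw [mul_comm]
      rfl
    intro k
    have h3 := LinearMap.congr_fun hL k
    simp only [L, LinearMap.sum_apply, LinearMap.comp_apply, LinearMap.mulLeft_apply,
      LinearMap.zero_apply] at h3
    exact h3
  have h2 : LinearIndependent ℂ (fun f : K →+* ℂ => (fun k => f k : K → ℂ)) :=
    (linearIndependent_monoidHom K ℂ).comp (fun f : K →+* ℂ => (f : K →* ℂ))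
      RingHom.coe_monoidHom_injective
  rw [Fintype.linearIndependent_iff] at h2
  funext ψ
  refine h2 x ?_ ψ
  funext k
  rw [Finset.sum_apply]
  simpa using h1 k

theorem EM_inv : ∃ EI : Matrix (K →+* ℂ) (Fin (finrank ℚ K)) ℂ, EM K * EI = 1 ∧ EI * EM K = 1 := by
  let g : (K →+* ℂ) ≃ Fin (finrank ℚ K) :=
    Fintype.equivFinOfCardEq (NumberField.Embeddings.card K ℂ)
  let E' : Matrix (Fin (finrank ℚ K)) (Fin (finrank ℚ K)) ℂ := (EM K).submatrix id g.symm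
  have hinj : Function.Injective E'.mulVec := by
    intro x y hxy
    have h1 : EM K *ᵥ ((x - y) ∘ g) = 0 := by
      have h2 : E' *ᵥ (x - y) = 0 := by
        rw [mulVec_sub]
        exact sub_eq_zero.mpr hxy
      rw [← h2]
      funext a
      simp only [mulVec, dotProduct, E', submatrix_apply, id_eq]
      exact Fintype.sum_equiv g _ _ fun ψ => by simp
    have h2 := EM_inj K _ h1
    funext a
    have h3 := congrFun h2 (g.symm a)
    simp only [Function.comp_apply, Equiv.apply_symm_apply, Pi.sub_apply, Pi.zero_apply] at h3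
    exact sub_eq_zero.mp h3
  have hu : IsUnit E'.det := (Matrix.isUnit_iff_isUnit_det _).mp
    (Matrix.mulVec_injective_iff_isUnit.mp hinj)
  have hE : EM K = E'.submatrix id g := by
    ext a ψ
    simp [E']
  refine ⟨E'⁻¹.submatrix g id, ?_, ?_⟩
  · rw [hE, submatrix_mul_equiv, mul_nonsing_inv _ hu]
    rfl
  · rw [hE]
    have h1 := submatrix_mul_equiv (E'⁻¹) E' g (Equiv.refl _) g
    rw [Equiv.coe_refl] at h1
    rw [h1, nonsing_inv_mul _ hu, submatrix_one_equiv]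

end emb

section ind

variable {d : ℕ} {Δ : (ℂ ≃+* ℂ) → Matrix (Fin d) (Fin d) ℂ} {K : Subfield ℂ}

theorem cjf_congr (hK : ∀ τ : ℂ ≃+* ℂ, (∀ z ∈ K, τ z = z) → ∀ σ, Δ (σ.trans τ) = (Δ σ).map τ)
    (ρ ρ' : ℂ ≃+* ℂ) (h : ∀ z ∈ K, ρ z = ρ' z) (σ : ℂ ≃+* ℂ) : Cjf Δ ρ σ = Cjf Δ ρ' σ := by
  have h1 := hK (ρ.trans ρ'.symm) (fun z hz => by
    rw [RingEquiv.trans_apply, h z hz, RingEquiv.symm_apply_apply]) (σ.trans ρ.symm)
  have h2 : (σ.trans ρ.symm).trans (ρ.trans ρ'.symm) = σ.trans ρ'.symm := by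
    ext z
    simp
  rw [h2] at h1
  unfold Cjf
  rw [h1, Matrix.map_map]
  congr 1
  funext z
  simp

theorem cjf_trans (ρ t σ : ℂ ≃+* ℂ) : Cjf Δ (ρ.trans t) (σ.trans t) = (Cjf Δ ρ σ).map t := by
  unfold Cjf
  have h2 : (σ.trans t).trans (ρ.trans t).symm = σ.trans ρ.symm := by
    ext z
    simp
  rw [h2, Matrix.map_map]
  rfl

/-- The matrices on the components. -/
def Ae (Δ : (ℂ ≃+* ℂ) → Matrix (Fin d) (Fin d) ℂ) (K : Subfield ℂ) [NumberField K] (ψ : K →+* ℂ)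
    (σ : ℂ ≃+* ℂ) : Matrix (Fin d) (Fin d) ℂ :=
  Cjf Δ (Pool.Agent.Y4.exists_aut_emb K.subtype ψ).choose σ

variable [NumberField K]

theorem ext_spec (ψ : K →+* ℂ) (z : ℂ) (hz : z ∈ K) :
    (Pool.Agent.Y4.exists_aut_emb K.subtype ψ).choose z = ψ ⟨z, hz⟩ :=
  RingHom.congr_fun (Pool.Agent.Y4.exists_aut_emb K.subtype ψ).choose_spec ⟨z, hz⟩

theorem Ae_eq (hK : ∀ τ : ℂ ≃+* ℂ, (∀ z ∈ K, τ z = z) → ∀ σ, Δ (σ.trans τ) = (Δ σ).map τ)
    (ψ : K →+* ℂ) (ρ : ℂ ≃+* ℂ) (h : ∀ z (hz : z ∈ K), ρ z = ψ ⟨z, hz⟩) (σ : ℂ ≃+* ℂ) :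
    Ae Δ K ψ σ = Cjf Δ ρ σ :=
  cjf_congr hK _ _ (fun z hz => by rw [ext_spec ψ z hz, h z hz]) σ

/-- The action of the automorphisms on the embeddings. -/
def fs (K : Subfield ℂ) (s : ℂ ≃+* ℂ) : (K →+* ℂ) ≃ (K →+* ℂ) where
  toFun ψ := (s : ℂ →+* ℂ).comp ψ
  invFun ψ := (s.symm : ℂ →+* ℂ).comp ψ
  left_inv ψ := by
    ext z
    simp
  right_inv ψ := by
    ext z
    simp

theorem Ae_map (hK : ∀ τ : ℂ ≃+* ℂ, (∀ z ∈ K, τ z = z) → ∀ σ, Δ (σ.trans τ) = (Δ σ).map τ)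
    (ψ : K →+* ℂ) (t σ : ℂ ≃+* ℂ) : (Ae Δ K ψ σ).map t = Ae Δ K (fs K t ψ) (σ.trans t) := by
  rw [Ae_eq hK (fs K t ψ) ((Pool.Agent.Y4.exists_aut_emb K.subtype ψ).choose.trans t)
    (fun z hz => ?_), cjf_trans]
  · rfl
  · rw [RingEquiv.trans_apply, ext_spec ψ z hz]
    rfl

theorem Ae_sq (hsq : ∀ σ, Δ σ * Δ σ = 1) (ψ : K →+* ℂ) (σ : ℂ ≃+* ℂ) :
    Ae Δ K ψ σ * Ae Δ K ψ σ = 1 := by
  unfold Ae Cjf
  rw [← Matrix.map_mul, hsq, Matrix.map_one _ (map_zero _) (map_one _)]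

theorem Ae_odd (hodd : ∀ σ, Δ (cj.trans σ) = -Δ σ) (ψ : K →+* ℂ) (σ : ℂ ≃+* ℂ) :
    Ae Δ K ψ (cj.trans σ) = -Ae Δ K ψ σ := by
  unfold Ae Cjf
  have h1 : (cj.trans σ).trans (Pool.Agent.Y4.exists_aut_emb K.subtype ψ).choose.symm =
      cj.trans (σ.trans (Pool.Agent.Y4.exists_aut_emb K.subtype ψ).choose.symm) := rfl
  rw [h1, hodd]
  ext i j
  simp

end ind

section blk

variable {d N : ℕ} {K : Subfield ℂ} [NumberField K] (e : Fin N ≃ Fin d × Fin (finrank ℚ K))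
  (EI : Matrix (K →+* ℂ) (Fin (finrank ℚ K)) ℂ)

/-- The matrix of the basis. -/
def CM : Matrix (Fin N) (Fin d × (K →+* ℂ)) ℂ :=
  (kroneckerMap (fun a b => a * b) (1 : Matrix (Fin d) (Fin d) ℂ) (EM K)).submatrix e id

/-- The inverse matrix. -/
def CN : Matrix (Fin d × (K →+* ℂ)) (Fin N) ℂ :=
  (kroneckerMap (fun a b => a * b) (1 : Matrix (Fin d) (Fin d) ℂ) EI).submatrix id e

/-- The matrices acting by given matrices on the components. -/
def Ph (X : (K →+* ℂ) → Matrix (Fin d) (Fin d) ℂ) : Matrix (Fin N) (Fin N) ℂ :=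
  CM e * blockDiagonal X * CN e EI

variable {EI} (h1 : EM K * EI = 1) (h2 : EI * EM K = 1)

include h1 in
theorem CM_CN : CM e * CN e EI = 1 := by
  unfold CM CN
  have h3 := submatrix_mul_equiv (kroneckerMap (fun a b => a * b) (1 : Matrix (Fin d) (Fin d) ℂ)
    (EM K)) (kroneckerMap (fun a b => a * b) (1 : Matrix (Fin d) (Fin d) ℂ) EI) e (Equiv.refl _) e
  rw [Equiv.coe_refl] at h3
  rw [h3, ← mul_kronecker_mul, h1, one_mul, one_kronecker_one, submatrix_one_equiv]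

include h2 in
theorem CN_CM : CN e EI * CM e = 1 := by
  unfold CM CN
  rw [submatrix_mul_equiv, ← mul_kronecker_mul, h2, one_mul, one_kronecker_one]
  rfl

include h2 in
theorem Ph_mul (X Y : (K →+* ℂ) → Matrix (Fin d) (Fin d) ℂ) :
    Ph e EI X * Ph e EI Y = Ph e EI fun ψ => X ψ * Y ψ := by
  unfold Ph
  have h3 := CN_CM e h2
  calc CM e * blockDiagonal X * CN e EI * (CM e * blockDiagonal Y * CN e EI) =
      CM e * blockDiagonal X * (CN e EI * CM e) * blockDiagonal Y * CN e EI := by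
        simp only [Matrix.mul_assoc]
    _ = _ := by
        rw [h3, Matrix.mul_one, Matrix.mul_assoc (CM e), ← blockDiagonal_mul]

theorem Ph_neg (X : (K →+* ℂ) → Matrix (Fin d) (Fin d) ℂ) :
    Ph e EI (fun ψ => -X ψ) = -Ph e EI X := by
  unfold Ph
  have h3 : (blockDiagonal fun ψ => -X ψ) = -blockDiagonal X := blockDiagonal_neg X
  rw [h3, Matrix.mul_neg, Matrix.neg_mul]

include h1 in
theorem Ph_one : Ph e EI (fun _ => (1 : Matrix (Fin d) (Fin d) ℂ)) = 1 := by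
  unfold Ph
  have h3 : (blockDiagonal fun _ : K →+* ℂ => (1 : Matrix (Fin d) (Fin d) ℂ)) = 1 :=
    blockDiagonal_one
  rw [h3, Matrix.mul_one, CM_CN e h1]

/-- The action on the indices. -/
def gs (d : ℕ) (K : Subfield ℂ) (s : ℂ ≃+* ℂ) : (Fin d × (K →+* ℂ)) ≃ (Fin d × (K →+* ℂ)) :=
  (Equiv.refl _).prodCongr (fs K s)

theorem CM_map (s : ℂ ≃+* ℂ) : (CM e).map s = (CM e).submatrix id (gs d K s) := by
  ext p x
  simp only [CM, map_apply, submatrix_apply, kroneckerMap_apply, id_eq, map_mul, gs, EM,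
    Equiv.prodCongr_apply, Equiv.coe_refl, Prod.map]
  congr 1
  rw [one_apply, apply_ite s, map_one, map_zero]

include h1 h2 in
theorem CN_map (s : ℂ ≃+* ℂ) : (CN e EI).map s = (CN e EI).submatrix (gs d K s) id := by
  have h3 : (CM e).map s * (CN e EI).submatrix (gs d K s) id = 1 := by
    rw [CM_map, submatrix_mul_equiv, CM_CN e h1]
    rfl
  have h4 : (CN e EI).map s * (CM e).map s = 1 := by
    rw [← Matrix.map_mul, CN_CM e h2, Matrix.map_one _ (map_zero _) (map_one _)]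
  calc (CN e EI).map s = (CN e EI).map s * ((CM e).map s * (CN e EI).submatrix (gs d K s) id) := by
        rw [h3, Matrix.mul_one]
    _ = _ := by rw [← Matrix.mul_assoc, h4, Matrix.one_mul]

include h1 h2 in
theorem Ph_map (s : ℂ ≃+* ℂ) (X Y : (K →+* ℂ) → Matrix (Fin d) (Fin d) ℂ)
    (hXY : ∀ ψ, Y (fs K s ψ) = (X ψ).map s) : (Ph e EI X).map s = Ph e EI Y := by
  unfold Ph
  rw [Matrix.map_mul, Matrix.map_mul, CM_map, CN_map e h1 h2]
  have h3 : (blockDiagonal X).map s = (blockDiagonal Y).submatrix (gs d K s) (gs d K s) := by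
    ext x y
    simp only [map_apply, submatrix_apply, blockDiagonal_apply, gs, Equiv.prodCongr_apply,
      Equiv.coe_refl, Prod.map, id_eq, (fs K s).injective.eq_iff]
    rw [apply_ite s, map_zero, hXY]
    rfl
  rw [h3, submatrix_mul_equiv, submatrix_mul_equiv]
  rfl

/-- The Gram matrices. -/
def Gr (EI : Matrix (K →+* ℂ) (Fin (finrank ℚ K)) ℂ) (S : (K →+* ℂ) → Matrix (Fin d) (Fin d) ℂ) :
    Matrix (Fin N) (Fin N) ℂ :=
  (CN e EI)ᴴ * blockDiagonal S * CN e EI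

theorem blk_pos (S : (K →+* ℂ) → Matrix (Fin d) (Fin d) ℂ) (hS : ∀ ψ, (S ψ).PosDef) :
    (blockDiagonal S).PosDef := by
  refine PosDef.of_dotProduct_mulVec_pos ?_ ?_
  · unfold IsHermitian
    rw [blockDiagonal_conjTranspose]
    congr 1
    funext ψ
    exact (hS ψ).1
  · intro x hx
    have h3 : star x ⬝ᵥ (blockDiagonal S *ᵥ x) =
        ∑ ψ, star (fun i => x (i, ψ)) ⬝ᵥ (S ψ *ᵥ fun i => x (i, ψ)) := by
      simp only [dotProduct, mulVec]
      rw [Fintype.sum_prod_type_right]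
      refine Finset.sum_congr rfl fun ψ _ => Finset.sum_congr rfl fun i _ => ?_
      simp only [Pi.star_apply]
      congr 1
      rw [Fintype.sum_prod_type_right, Finset.sum_eq_single ψ]
      · simp [blockDiagonal_apply]
      · intro ψ' _ hψ
        refine Finset.sum_eq_zero fun j _ => ?_
        rw [blockDiagonal_apply, if_neg (fun h => hψ h.symm), zero_mul]
      · intro h
        exact absurd (Finset.mem_univ _) h
    rw [h3]
    obtain ⟨⟨i, ψ⟩, hi⟩ := Function.ne_iff.mp hx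
    refine Finset.sum_pos' (fun ψ _ => (hS ψ).posSemidef.dotProduct_mulVec_nonneg _)
      ⟨ψ, Finset.mem_univ _, (hS ψ).dotProduct_mulVec_pos ?_⟩
    intro h0
    exact hi (congrFun h0 i)

include h1 h2 in
theorem Gr_pos (S : (K →+* ℂ) → Matrix (Fin d) (Fin d) ℂ) (hS : ∀ ψ, (S ψ).PosDef) :
    (Gr e EI S).PosDef := by
  refine (blk_pos S hS).conjTranspose_mul_mul_same ?_
  intro x y hxy
  have h3 : CM e *ᵥ (CN e EI *ᵥ x) = CM e *ᵥ (CN e EI *ᵥ y) := by
    have : CN e EI *ᵥ x = CN e EI *ᵥ y := hxy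
    rw [this]
  rwa [mulVec_mulVec, mulVec_mulVec, CM_CN e h1, one_mulVec, one_mulVec] at h3

include h2 in
theorem Gr_mul (S X : (K →+* ℂ) → Matrix (Fin d) (Fin d) ℂ) :
    Gr e EI S * Ph e EI X = Gr e EI fun ψ => S ψ * X ψ := by
  unfold Ph Gr
  have h3 := CN_CM e h2
  calc (CN e EI)ᴴ * blockDiagonal S * CN e EI * (CM e * blockDiagonal X * CN e EI) =
      (CN e EI)ᴴ * blockDiagonal S * (CN e EI * CM e) * blockDiagonal X * CN e EI := by
        simp only [Matrix.mul_assoc]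
    _ = _ := by
        rw [h3, Matrix.mul_one, Matrix.mul_assoc ((CN e EI)ᴴ), ← blockDiagonal_mul]

include h2 in
theorem Ph_Gr (S X : (K →+* ℂ) → Matrix (Fin d) (Fin d) ℂ) :
    (Ph e EI X)ᴴ * Gr e EI S = Gr e EI fun ψ => (X ψ)ᴴ * S ψ := by
  unfold Ph Gr
  have h3 : (CM e)ᴴ * (CN e EI)ᴴ = 1 := by
    rw [← conjTranspose_mul, CN_CM e h2, conjTranspose_one]
  rw [conjTranspose_mul, conjTranspose_mul, blockDiagonal_conjTranspose]
  calc (CN e EI)ᴴ * ((blockDiagonal fun k => (X k)ᴴ) * (CM e)ᴴ) *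
        ((CN e EI)ᴴ * blockDiagonal S * CN e EI) =
      (CN e EI)ᴴ * (blockDiagonal fun k => (X k)ᴴ) * ((CM e)ᴴ * (CN e EI)ᴴ) * blockDiagonal S *
        CN e EI := by
        simp only [Matrix.mul_assoc]
    _ = _ := by
        rw [h3, Matrix.mul_one, Matrix.mul_assoc ((CN e EI)ᴴ), ← blockDiagonal_mul]

theorem Gr_neg (S : (K →+* ℂ) → Matrix (Fin d) (Fin d) ℂ) :
    Gr e EI (fun ψ => -S ψ) = -Gr e EI S := by
  unfold Gr
  have h3 : (blockDiagonal fun ψ => -S ψ) = -blockDiagonal S := blockDiagonal_neg S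
  rw [h3, Matrix.mul_neg, Matrix.neg_mul]

theorem map_cj {a b : Type} (M : Matrix a b ℂ) : M.map cj = M.map star := rfl

include h1 h2 in
theorem Gr_map (S : (K →+* ℂ) → Matrix (Fin d) (Fin d) ℂ)
    (hS : ∀ ψ, S (fs K cj ψ) = (S ψ).map cj) : (Gr e EI S).map cj = Gr e EI S := by
  unfold Gr
  rw [Matrix.map_mul, Matrix.map_mul]
  have h3 : (blockDiagonal S).map cj = (blockDiagonal S).submatrix (gs d K cj) (gs d K cj) := by
    ext x y
    simp only [map_apply, submatrix_apply, blockDiagonal_apply, gs, Equiv.prodCongr_apply,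
      Equiv.coe_refl, Prod.map, id_eq, (fs K cj).injective.eq_iff]
    rw [apply_ite cj, map_zero, hS]
    rfl
  have h4 : ((CN e EI)ᴴ).map cj = ((CN e EI)ᴴ).submatrix id (gs d K cj) := by
    have h5 := CN_map e h1 h2 cj
    ext p x
    have h6 := congrFun (congrFun h5 x) p
    simp only [map_apply, submatrix_apply, id_eq, conjTranspose_apply] at h6 ⊢
    rw [← h6]
    change star (star (CN e EI x p)) = star (star (CN e EI x p))
    rfl
  rw [h3, h4, CN_map e h1 h2, submatrix_mul_equiv, submatrix_mul_equiv]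
  rfl

end blk

/-- The real matrix given by a matrix fixed by complex conjugation. -/
theorem re_of {a b : Type} (M : Matrix a b ℂ) (h : M.map cj = M) :
    (M.map Complex.re).map (fun x : ℝ => (x : ℂ)) = M := by
  ext i j
  have h1 : (starRingEnd ℂ) (M i j) = M i j := congrFun (congrFun h i) j
  simp only [map_apply]
  exact Complex.conj_eq_iff_re.mp h1

theorem of_inj {a b : Type} {M M' : Matrix a b ℝ}
    (h : M.map (fun x : ℝ => (x : ℂ)) = M'.map (fun x : ℝ => (x : ℂ))) : M = M' := by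
  ext i j
  exact Complex.ofReal_injective (congrFun (congrFun h i) j)

theorem of_mul {a b c : Type} [Fintype b] (M : Matrix a b ℝ) (M' : Matrix b c ℝ) :
    (M * M').map (fun x : ℝ => (x : ℂ)) =
      M.map (fun x : ℝ => (x : ℂ)) * M'.map (fun x : ℝ => (x : ℂ)) := by
  ext i j
  simp [mul_apply]

theorem cj_cj {a b : Type} (M : Matrix a b ℂ) : (M.map cj).map cj = M := by
  ext i j
  change star (star (M i j)) = M i j
  exact star_star _

theorem fs_cj (K : Subfield ℂ) (ψ : K →+* ℂ) : fs K cj (fs K cj ψ) = ψ := by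
  ext z
  change star (star (ψ z)) = ψ z
  exact star_star _

theorem gkT {a b : Type} (M : Matrix a b ℂ) : (M.map cj)ᵀ = Mᴴ := rfl

theorem gkH {a b : Type} (M : Matrix a b ℂ) : (M.map cj)ᴴ = Mᵀ := by
  ext i j
  change star (star (M j i)) = M j i
  exact star_star _

end GK3

open GK3

/-- **K3.** -/
theorem gdm_of : St_gdm := by
  intro d Δ hd hΔ
  obtain ⟨K, hKf, hK⟩ := hΔ.eqv
  have : NumberField K := { to_finiteDimensional := hKf }
  let N : ℕ := d * finrank ℚ K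
  let e : Fin N ≃ Fin d × Fin (finrank ℚ K) := finProdFinEquiv.symm
  obtain ⟨EI, h1, h2⟩ := EM_inv K
  have hCC := CM_CN e h1 (d := d)
  have hCC' := CN_CM e h2 (d := d)
  obtain ⟨DS, hDS⟩ : ∃ DS : (ℂ ≃+* ℂ) → Matrix (Fin N) (Fin N) ℂ,
    DS = fun σ => Ph e EI (fun ψ => Ae Δ K ψ σ) := ⟨_, rfl⟩
  have hDmap : ∀ t σ : ℂ ≃+* ℂ, (DS σ).map t = DS (σ.trans t) := by
    intro t σ
    rw [hDS]
    exact Ph_map e h1 h2 t _ _ (fun ψ => (Ae_map hK ψ t σ).symm)
  have hDsq : ∀ σ, DS σ * DS σ = 1 := by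
    intro σ
    rw [hDS]
    dsimp only
    rw [Ph_mul e h2, ← Ph_one e h1]
    congr 1
    funext ψ
    exact Ae_sq hΔ.sq ψ σ
  have hDodd : ∀ σ, DS (cj.trans σ) = -DS σ := by
    intro σ
    rw [hDS]
    dsimp only
    rw [← Ph_neg]
    congr 1
    funext ψ
    exact Ae_odd hΔ.odd ψ σ
  obtain ⟨D, hD⟩ : ∃ D : Matrix (Fin N) (Fin N) ℂ, D = DS (RingEquiv.refl ℂ) := ⟨_, rfl⟩
  have hDσ : ∀ σ : ℂ ≃+* ℂ, D.map σ = DS σ := by
    intro σ
    rw [hD, hDmap]
    rfl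
  have hDD : D * D = 1 := by rw [hD, hDsq]
  have hDcj : D.map cj = -D := by
    rw [hDσ, hD, ← hDodd]
    rfl
  obtain ⟨Jc, hJc⟩ : ∃ Jc : Matrix (Fin N) (Fin N) ℂ, Jc = Complex.I • Dᵀ := ⟨_, rfl⟩
  have hcI : cj Complex.I = -Complex.I := Complex.conj_I
  have hJr : Jc.map cj = Jc := by
    have h3 : ∀ i j, cj (D i j) = -D i j := fun i j => congrFun (congrFun hDcj i) j
    ext i j
    rw [hJc]
    simp only [map_apply, Matrix.smul_apply, transpose_apply, smul_eq_mul, map_mul, hcI, h3]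
    ring
  have hIJ : Complex.I • Jc = -Dᵀ := by
    rw [hJc, smul_smul, Complex.I_mul_I, neg_one_smul]
  obtain ⟨J, hJ⟩ : ∃ J : Matrix (Fin N) (Fin N) ℝ, J.map (fun x : ℝ => (x : ℂ)) = Jc :=
    ⟨_, re_of Jc hJr⟩
  -- the Gram matrix
  choose T hT hT2 using fun ψ : K →+* ℂ =>
    hΔ.uni (Pool.Agent.Y4.exists_aut_emb K.subtype ψ).choose
  have hT3 : ∀ ψ σ, (Ae Δ K ψ σ)ᴴ * T ψ = -(T ψ * (Ae Δ K ψ (RingEquiv.refl ℂ) *
      Ae Δ K ψ (σ.trans cj) * Ae Δ K ψ (RingEquiv.refl ℂ))) := hT2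
  obtain ⟨T', hT'⟩ : ∃ T' : (K →+* ℂ) → Matrix (Fin d) (Fin d) ℂ,
    T' = fun ψ => (T (fs K cj ψ)).map cj := ⟨_, rfl⟩
  have hT'p : ∀ ψ, (T' ψ).PosDef := by
    intro ψ
    have h3 : (T (fs K cj ψ))ᴴ = T (fs K cj ψ) := (hT _).1
    have h4 : T' ψ = (T (fs K cj ψ))ᵀ := by
      rw [hT']
      dsimp only
      conv_lhs => rw [← h3, ← gkT, transpose_map, cj_cj]
    rw [h4]
    exact (hT _).transpose
  have hccσ : ∀ σ : ℂ ≃+* ℂ, (σ.trans cj).trans cj = σ := by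
    intro σ
    ext z
    change star (star (σ z)) = σ z
    exact star_star _
  have hT'3 : ∀ ψ σ, (Ae Δ K ψ σ)ᴴ * T' ψ = -(T' ψ * (Ae Δ K ψ (RingEquiv.refl ℂ) *
      Ae Δ K ψ (σ.trans cj) * Ae Δ K ψ (RingEquiv.refl ℂ))) := by
    intro ψ σ
    have h3 := hT3 (fs K cj ψ) (σ.trans cj)
    have h4 : ∀ τ, (Ae Δ K (fs K cj ψ) τ).map cj = Ae Δ K ψ (τ.trans cj) := by
      intro τ
      rw [Ae_map hK, fs_cj]
    have h5 := congrArg (fun M : Matrix (Fin d) (Fin d) ℂ => M.map cj) h3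
    rw [Matrix.map_mul] at h5
    have h6 : (((Ae Δ K (fs K cj ψ) (σ.trans cj))ᴴ).map cj) = (Ae Δ K ψ σ)ᴴ := by
      have h7 := h4 (σ.trans cj)
      rw [hccσ] at h7
      rw [← h7]
      rfl
    have h8 : ∀ M : Matrix (Fin d) (Fin d) ℂ, (-M).map cj = -(M.map cj) := by
      intro M
      ext i j
      simp
    have h9 : Ae Δ K ψ ((RingEquiv.refl ℂ).trans cj) = -Ae Δ K ψ (RingEquiv.refl ℂ) := by
      rw [← Ae_odd hΔ.odd ψ]
      rfl
    rw [h6, h8, Matrix.map_mul, Matrix.map_mul, Matrix.map_mul, h4, h4, h9, hccσ] at h5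
    rw [hT']
    dsimp only
    rw [h5]
    simp only [Matrix.neg_mul, Matrix.mul_neg, neg_neg]
  obtain ⟨S, hS⟩ : ∃ S : (K →+* ℂ) → Matrix (Fin d) (Fin d) ℂ, S = fun ψ => T ψ + T' ψ :=
    ⟨_, rfl⟩
  have hSp : ∀ ψ, (S ψ).PosDef := by
    intro ψ
    rw [hS]
    exact (hT ψ).add (hT'p ψ)
  have hS3 : ∀ ψ σ, (Ae Δ K ψ σ)ᴴ * S ψ = -(S ψ * (Ae Δ K ψ (RingEquiv.refl ℂ) *
      Ae Δ K ψ (σ.trans cj) * Ae Δ K ψ (RingEquiv.refl ℂ))) := by
    intro ψ σ
    rw [hS]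
    dsimp only
    rw [Matrix.mul_add, hT3, hT'3, Matrix.add_mul, neg_add]
  have hScj : ∀ ψ, S (fs K cj ψ) = (S ψ).map cj := by
    intro ψ
    have h3 : (T ψ + (T (fs K cj ψ)).map cj).map cj = (T ψ).map cj + T (fs K cj ψ) := by
      conv_rhs => rw [← cj_cj (T (fs K cj ψ))]
      ext i j
      simp
    rw [hS, hT']
    dsimp only
    rw [h3, fs_cj, add_comm]
  obtain ⟨G, hG⟩ : ∃ G : Matrix (Fin N) (Fin N) ℂ, G = Gr e EI S := ⟨_, rfl⟩
  have hGp : G.PosDef := by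
    rw [hG]
    exact Gr_pos e h1 h2 S hSp
  have hGcj : G.map cj = G := by
    rw [hG]
    exact Gr_map e h1 h2 S hScj
  have hGT : Gᵀ = G := by
    have h3 : Gᴴ = G := hGp.1
    rw [← gkT, hGcj] at h3
    exact h3
  have hG2 : ∀ σ, (DS σ)ᴴ * G = -(G * (D * DS (σ.trans cj) * D)) := by
    intro σ
    rw [hG, hD, hDS]
    dsimp only
    rw [Ph_Gr e h2, Ph_mul e h2, Ph_mul e h2, Gr_mul e h2, ← Gr_neg]
    congr 1
    funext ψ
    exact hS3 ψ σ
  have hG3 : ∀ σ, (DS σ)ᵀ * G = -(G * (D * DS σ * D)) := by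
    intro σ
    have h3 := hG2 (σ.trans cj)
    rw [hccσ, ← hDmap, gkH] at h3
    exact h3
  have hG4 : Dᵀ * G = -(G * D) := by
    have h3 := hG3 (RingEquiv.refl ℂ)
    rw [← hD, hDD, Matrix.one_mul] at h3
    exact h3
  -- the inverse
  have hGu : IsUnit G.det := (Matrix.isUnit_iff_isUnit_det _).mp hGp.isUnit
  obtain ⟨Gi, hGi⟩ : ∃ Gi : Matrix (Fin N) (Fin N) ℂ, Gi = G⁻¹ := ⟨_, rfl⟩
  have hGGi : G * Gi = 1 := by rw [hGi, mul_nonsing_inv _ hGu]
  have hGiG : Gi * G = 1 := by rw [hGi, nonsing_inv_mul _ hGu]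
  have hGip : Gi.PosDef := by
    rw [hGi]
    exact hGp.inv
  have hGicj : Gi.map cj = Gi := by
    have h3 : Gi.map cj * G = 1 := by
      conv_lhs => rw [← hGcj]
      rw [← Matrix.map_mul, hGiG, Matrix.map_one _ (map_zero _) (map_one _)]
    calc Gi.map cj = Gi.map cj * (G * Gi) := by rw [hGGi, Matrix.mul_one]
      _ = Gi := by rw [← Matrix.mul_assoc, h3, Matrix.one_mul]
  have hGiT : Giᵀ = Gi := by
    have h3 : Giᴴ = Gi := hGip.1
    rw [← gkT, hGicj] at h3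
    exact h3
  have hG5 : Gi * Dᵀ = -(D * Gi) := by
    calc Gi * Dᵀ = Gi * (Dᵀ * G) * Gi := by
          rw [Matrix.mul_assoc, Matrix.mul_assoc, hGGi, Matrix.mul_one]
      _ = _ := by
          rw [hG4, Matrix.mul_neg, ← Matrix.mul_assoc, hGiG, Matrix.one_mul, Matrix.neg_mul]
  have hG6 : ∀ σ, D * Gi * (DS σ)ᵀ = -(DS σ * (D * Gi)) := by
    intro σ
    calc D * Gi * (DS σ)ᵀ = D * Gi * ((DS σ)ᵀ * G) * Gi := by
          rw [Matrix.mul_assoc (D * Gi), Matrix.mul_assoc _ G Gi, hGGi, Matrix.mul_one]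
      _ = -(D * (Gi * G) * (D * DS σ * D) * Gi) := by
          rw [hG3, Matrix.mul_neg, Matrix.neg_mul]
          simp only [Matrix.mul_assoc]
      _ = -(D * D * DS σ * (D * Gi)) := by
          rw [hGiG, Matrix.mul_one]
          simp only [Matrix.mul_assoc]
      _ = _ := by rw [hDD, Matrix.one_mul]
  -- the polarization
  obtain ⟨Mc, hMc⟩ : ∃ Mc : Matrix (Fin N) (Fin N) ℂ, Mc = (-Complex.I) • (D * Gi) := ⟨_, rfl⟩
  have hMr : Mc.map cj = Mc := by
    have h3 : (D * Gi).map cj = -(D * Gi) := by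
      rw [Matrix.map_mul, hDcj, hGicj, Matrix.neg_mul]
    have h4 : ∀ i j, cj ((D * Gi) i j) = -(D * Gi) i j := fun i j => congrFun (congrFun h3 i) j
    ext i j
    rw [hMc]
    simp only [map_apply, Matrix.smul_apply, smul_eq_mul, map_mul, map_neg, hcI, h4]
    ring
  obtain ⟨M, hM⟩ : ∃ M : Matrix (Fin N) (Fin N) ℝ, M.map (fun x : ℝ => (x : ℂ)) = Mc :=
    ⟨_, re_of Mc hMr⟩
  obtain ⟨Gr', hGr'⟩ : ∃ M : Matrix (Fin N) (Fin N) ℝ, M.map (fun x : ℝ => (x : ℂ)) = Gi :=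
    ⟨_, re_of Gi hGicj⟩
  have hneg : ∀ σ : ℂ ≃+* ℂ, ((-Dᵀ).map σ)ᵀ = -DS σ := by
    intro σ
    rw [← hDσ]
    ext i j
    simp
  have hpos' : ∀ σ : ℂ ≃+* ℂ, ((-(Complex.I • Jc)).map σ)ᵀ = DS σ := by
    intro σ
    rw [hIJ, neg_neg, ← hDσ]
    rfl
  refine ⟨N, J, M, ?_, ?_, ?_, ?_, ?_, ?_⟩
  · apply of_inj
    rw [of_mul, hJ, hJc, smul_mul_smul_comm, ← transpose_mul, hDD, Complex.I_mul_I, transpose_one]
    ext i j
    by_cases hij : i = j <;> simp [hij, one_apply]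
  · apply of_inj
    have h3 : (Mᵀ).map (fun x : ℝ => (x : ℂ)) = (M.map (fun x : ℝ => (x : ℂ)))ᵀ := rfl
    have h4 : (-M).map (fun x : ℝ => (x : ℂ)) = -(M.map (fun x : ℝ => (x : ℂ))) := by
      ext i j
      simp
    rw [h3, h4, hM, hMc, transpose_smul, transpose_mul, hGiT, hG5, smul_neg]
  · intro σ
    rw [hJ, hM, hIJ, hneg, hMc]
    have h3 : (-Dᵀ).map σ = -(DS σ)ᵀ := by
      have h4 := congrArg transpose (hneg σ)
      rw [transpose_transpose, transpose_neg] at h4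
      exact h4
    rw [h3, Matrix.mul_smul, Matrix.smul_mul, Matrix.mul_neg, hG6, neg_neg, Matrix.neg_mul,
      smul_neg, neg_add_cancel]
  · intro x hx
    have h3 : Jᵀ * M = Gr' := by
      apply of_inj
      have h4 : (Jᵀ).map (fun x : ℝ => (x : ℂ)) = (J.map (fun x : ℝ => (x : ℂ)))ᵀ := rfl
      rw [of_mul, h4, hJ, hM, hGr', hJc, hMc, transpose_smul, transpose_transpose,
        smul_mul_smul_comm, ← Matrix.mul_assoc, hDD, Matrix.one_mul, mul_neg, Complex.I_mul_I,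
        neg_neg, one_smul]
    have h4 : (J *ᵥ x) ⬝ᵥ (M *ᵥ x) = x ⬝ᵥ (Gr' *ᵥ x) := by
      rw [← h3, ← mulVec_mulVec, dotProduct_mulVec x, vecMul_transpose]
    have h5 : ((x ⬝ᵥ (Gr' *ᵥ x) : ℝ) : ℂ) =
        star (fun i => (x i : ℂ)) ⬝ᵥ (Gi *ᵥ fun i => (x i : ℂ)) := by
      rw [← hGr']
      simp [dotProduct, mulVec]
    have h6 : (fun i => (x i : ℂ)) ≠ 0 := by
      intro h
      apply hx
      funext i
      exact Complex.ofReal_injective (congrFun h i)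
    have h7 := hGip.dotProduct_mulVec_pos h6
    rw [← h5] at h7
    rw [h4]
    exact_mod_cast h7
  · refine ⟨fun j p => GK3.CM e p (j, K.subtype), ?_, ?_⟩
    · rw [Fintype.linearIndependent_iff]
      intro c hc i
      have h3 : CN e EI *ᵥ (∑ j, c j • fun p => GK3.CM e p (j, K.subtype)) = 0 := by
        rw [hc, mulVec_zero]
      have h4 := congrFun h3 (i, K.subtype)
      rw [mulVec_sum, Finset.sum_apply] at h4
      have h5 : ∀ j, (CN e EI *ᵥ (c j • fun p => GK3.CM e p (j, K.subtype))) (i, K.subtype) =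
          c j * (1 : Matrix (Fin d × (K →+* ℂ)) (Fin d × (K →+* ℂ)) ℂ) (i, K.subtype)
            (j, K.subtype) := by
        intro j
        rw [mulVec_smul, Pi.smul_apply, smul_eq_mul, ← hCC']
        rfl
      rw [Finset.sum_congr rfl fun j _ => h5 j] at h4
      simpa [one_apply] using h4
    · intro σ j
      rw [hJ, hpos', hDS]
      dsimp only
      have h3 : Ph e EI (fun ψ => Ae Δ K ψ σ) * GK3.CM e =
          GK3.CM e * blockDiagonal fun ψ => Ae Δ K ψ σ := by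
        unfold Ph
        rw [Matrix.mul_assoc, hCC', Matrix.mul_one]
      have h4 : Ae Δ K K.subtype σ = Δ σ := by
        rw [Ae_eq hK K.subtype (RingEquiv.refl ℂ) (fun z hz => rfl)]
        rfl
      funext p
      have h5 := congrFun (congrFun h3 p) (j, K.subtype)
      rw [Finset.sum_apply]
      refine h5.trans ?_
      rw [mul_apply, Fintype.sum_prod_type_right, Finset.sum_eq_single K.subtype]
      · refine Finset.sum_congr rfl fun i _ => ?_
        rw [blockDiagonal_apply, if_pos rfl, h4, mul_comm]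
        rfl
      · intro ψ _ hψ
        refine Finset.sum_eq_zero fun i _ => ?_
        rw [blockDiagonal_apply, if_neg hψ, mul_zero]
      · intro h
        exact absurd (Finset.mem_univ _) h
  · rintro d' Δ' hI ⟨P, hP, hPe⟩
    have h3 : ∀ σ j, DS σ *ᵥ P j = ∑ i, Δ' σ i j • P i := by
      intro σ j
      have h4 := hPe σ j
      rw [hJ, hpos'] at h4
      exact h4
    have h4 : ∃ ψ : K →+* ℂ, ∃ j i, (CN e EI *ᵥ P j) (i, ψ) ≠ 0 := by
      by_contra hcon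
      push Not at hcon
      have h5 : P ⟨0, hI.1⟩ = 0 := by
        have h6 : CN e EI *ᵥ P ⟨0, hI.1⟩ = 0 := by
          funext x
          exact hcon x.2 _ x.1
        rw [← one_mulVec (P ⟨0, hI.1⟩), ← hCC, ← mulVec_mulVec, h6, mulVec_zero]
      exact hP.ne_zero _ h5
    obtain ⟨ψ, j₀, i₀, h5⟩ := h4
    refine ⟨(Pool.Agent.Y4.exists_aut_emb K.subtype ψ).choose,
      fun i j => (CN e EI *ᵥ P j) (i, ψ), fun h => h5 (congrFun (congrFun h i₀) j₀), ?_⟩
    intro σ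
    obtain ⟨Gψ, hGψ⟩ : ∃ Gψ : Matrix (Fin d) (Fin d') ℂ,
      Gψ = fun i j => (CN e EI *ᵥ P j) (i, ψ) := ⟨_, rfl⟩
    rw [← hGψ]
    have h10 : Ae Δ K ψ σ * Gψ = Gψ * Δ' σ := ?_
    · exact h10
    rw [hGψ]
    have h6 : CN e EI * DS σ = blockDiagonal (fun ψ => Ae Δ K ψ σ) * CN e EI := by
      rw [hDS]
      dsimp only
      unfold Ph
      rw [← Matrix.mul_assoc, ← Matrix.mul_assoc, hCC', Matrix.one_mul]
    ext i j
    have h7 : CN e EI *ᵥ (DS σ *ᵥ P j) =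
        blockDiagonal (fun ψ => Ae Δ K ψ σ) *ᵥ (CN e EI *ᵥ P j) := by
      rw [mulVec_mulVec, h6, mulVec_mulVec]
    rw [h3] at h7
    have h8 := congrFun h7 (i, ψ)
    rw [mulVec_sum, Finset.sum_apply] at h8
    rw [mul_apply, mul_apply]
    have h9 : (blockDiagonal (fun ψ => Ae Δ K ψ σ) *ᵥ (CN e EI *ᵥ P j)) (i, ψ) =
        ∑ k, Ae Δ K ψ σ i k * (CN e EI *ᵥ P j) (k, ψ) := by
      rw [mulVec, dotProduct, Fintype.sum_prod_type_right, Finset.sum_eq_single ψ]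
      · refine Finset.sum_congr rfl fun k _ => ?_
        rw [blockDiagonal_apply, if_pos rfl]
      · intro ψ' _ hψ
        refine Finset.sum_eq_zero fun k _ => ?_
        rw [blockDiagonal_apply, if_neg (fun h => hψ h.symm), zero_mul]
      · intro h
        exact absurd (Finset.mem_univ _) h
    rw [← h9, ← h8]
    refine Finset.sum_congr rfl fun k _ => ?_
    rw [mulVec_smul, Pi.smul_apply, smul_eq_mul, mul_comm]

end

end Pool.Agent.NH32
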