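import Pool.Agent.NH32.GtB

/-!
# Project G, stage 2, job GK4: good families are realized by abelian varieties (helper90)
-/

set_option linter.unusedSectionVars false

namespace Pool.Agent.NH32

open Matrix Module Pool.Agent.W437.HC Pool.Agent.W437.HD Pool.Agent.TH504.CB Pool.Agent.Y90
open Pool.Agent.H204R3.CM (IsHodge)
open Pool.Agent.W548.Odd hiding cv
open scoped ComplexOrder

noncomputable section

namespace GK4

variable {N : ℕ} {Y : AV} (e : Y.H ≃ₗ[ℚ] (Fin N → ℚ))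

/-- the coordinates of a functional -/
def cE : (Y.H →ₗ[ℚ] ℂ) →ₗ[ℂ] (Fin N → ℂ) where
  toFun f := fun b => f (e.symm (Pi.single b 1))
  map_add' _ _ := rfl
  map_smul' _ _ := rfl

theorem cE_apply (f : Y.H →ₗ[ℚ] ℂ) (b : Fin N) : cE e f b = f (e.symm (Pi.single b 1)) := rfl

/-- the functional with given coordinates -/
def fE (v : Fin N → ℂ) : Y.H →ₗ[ℚ] ℂ where
  toFun x := ∑ b, ((e x b : ℚ) : ℂ) * v b
  map_add' x y := by
    rw [← Finset.sum_add_distrib]
    refine Finset.sum_congr rfl fun b _ => ?_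
    rw [map_add, Pi.add_apply, Rat.cast_add, add_mul]
  map_smul' r x := by
    rw [RingHom.id_apply, Finset.smul_sum]
    refine Finset.sum_congr rfl fun b _ => ?_
    rw [map_smul, Pi.smul_apply, smul_eq_mul, Rat.cast_mul, mul_assoc, Rat.smul_def]

theorem cE_fE (v : Fin N → ℂ) : cE e (fE e v) = v := by
  funext b
  change (∑ b', ((e (e.symm (Pi.single b 1)) b' : ℚ) : ℂ) * v b') = v b
  rw [LinearEquiv.apply_symm_apply, Finset.sum_eq_single b]
  · rw [Pi.single_eq_same, Rat.cast_one, one_mul]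
  · intro b' _ h
    rw [Pi.single_eq_of_ne h, Rat.cast_zero, zero_mul]
  · intro h
    exact absurd (Finset.mem_univ b) h

theorem cE_inj : Function.Injective (cE e) := by
  intro f f' h
  refine LinearMap.ext fun x => ?_
  have hx : x = ∑ b, (e x b) • e.symm (Pi.single b 1) := by
    apply e.injective
    rw [map_sum]
    funext i
    rw [Finset.sum_apply, Finset.sum_eq_single i]
    · rw [map_smul, LinearEquiv.apply_symm_apply, Pi.smul_apply, Pi.single_eq_same, smul_eq_mul,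
        mul_one]
    · intro b _ hb
      rw [map_smul, LinearEquiv.apply_symm_apply, Pi.smul_apply, Pi.single_eq_of_ne (Ne.symm hb),
        smul_zero]
    · intro h
      exact absurd (Finset.mem_univ i) h
  rw [hx, map_sum, map_sum]
  refine Finset.sum_congr rfl fun b _ => ?_
  rw [map_smul, map_smul]
  congr 1
  exact congrFun h b

theorem cE_tw (σ : ℂ ≃+* ℂ) (f : Y.H →ₗ[ℚ] ℂ) : cE e (tw σ f) = fun b => σ (cE e f b) := rfl

/-- the operator `D` -/
def DJ (J : Matrix (Fin N) (Fin N) ℝ) : Matrix (Fin N) (Fin N) ℂ :=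
  -(Complex.I • J.map (fun x : ℝ => (x : ℂ)))

theorem eig_iff (J : Matrix (Fin N) (Fin N) ℝ) (c : Fin N → ℂ) :
    (J.map (fun x : ℝ => (x : ℂ)))ᵀ *ᵥ c = Complex.I • c ↔ (DJ J)ᵀ *ᵥ c = c := by
  have h1 : (DJ J)ᵀ *ᵥ c = (-Complex.I) • ((J.map (fun x : ℝ => (x : ℂ)))ᵀ *ᵥ c) := by
    unfold DJ
    rw [Matrix.transpose_neg, Matrix.transpose_smul, Matrix.neg_mulVec, Matrix.smul_mulVec,
      neg_smul]
  rw [h1]
  constructor
  · intro h
    rw [h, smul_smul, neg_mul, Complex.I_mul_I, neg_neg, one_smul]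
  · intro h
    conv_rhs => rw [← h]
    rw [smul_smul, mul_neg, Complex.I_mul_I, neg_neg, one_smul]

theorem DJ_sq {J : Matrix (Fin N) (Fin N) ℝ} (hJ : J * J = -1) : DJ J * DJ J = 1 := by
  have h1 : J.map (fun x : ℝ => (x : ℂ)) * J.map (fun x : ℝ => (x : ℂ)) = -1 := by
    have h2 : (J * J).map (Complex.ofRealHom : ℝ →+* ℂ) =
        J.map (Complex.ofRealHom : ℝ →+* ℂ) * J.map (Complex.ofRealHom : ℝ →+* ℂ) :=
      Matrix.map_mul
    rw [hJ] at h2
    have h3 : (-1 : Matrix (Fin N) (Fin N) ℝ).map (Complex.ofRealHom : ℝ →+* ℂ) = -1 := by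
      ext i j
      rw [Matrix.map_apply, Matrix.neg_apply, Matrix.neg_apply, map_neg, Matrix.one_apply,
        Matrix.one_apply]
      split_ifs <;> simp
    rw [h3] at h2
    exact h2.symm
  unfold DJ
  rw [neg_mul_neg, smul_mul_smul_comm, h1, Complex.I_mul_I, smul_neg, neg_smul, one_smul, neg_neg]

theorem DJ_sq_map {J : Matrix (Fin N) (Fin N) ℝ} (hJ : J * J = -1) (σ : ℂ ≃+* ℂ) :
    ((DJ J).map σ)ᵀ * ((DJ J).map σ)ᵀ = 1 := by
  have h1 : (DJ J * DJ J).map (σ : ℂ →+* ℂ) = (DJ J).map (σ : ℂ →+* ℂ) * (DJ J).map (σ : ℂ →+* ℂ) :=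
    Matrix.map_mul
  rw [DJ_sq hJ] at h1
  have h2 : (1 : Matrix (Fin N) (Fin N) ℂ).map (σ : ℂ →+* ℂ) = 1 :=
    Matrix.map_one _ (map_zero _) (map_one _)
  rw [h2] at h1
  rw [← Matrix.transpose_mul]
  have h3 : (DJ J).map σ * (DJ J).map σ = 1 := h1.symm
  rw [h3, Matrix.transpose_one]

theorem map_mulVec_symm (J : Matrix (Fin N) (Fin N) ℝ) (σ : ℂ ≃+* ℂ) (c d : Fin N → ℂ) :
    ((DJ J)ᵀ *ᵥ fun b => σ.symm (c b)) = (fun b => σ.symm (d b)) ↔
      ((DJ J).map σ)ᵀ *ᵥ c = d := by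
  have h1 : ∀ b, σ (((DJ J)ᵀ *ᵥ fun b => σ.symm (c b)) b) = (((DJ J).map σ)ᵀ *ᵥ c) b := by
    intro b
    unfold Matrix.mulVec dotProduct
    rw [map_sum]
    refine Finset.sum_congr rfl fun i _ => ?_
    rw [map_mul, RingEquiv.apply_symm_apply]
    rfl
  constructor
  · intro h
    funext b
    rw [← h1, h, RingEquiv.apply_symm_apply]
  · intro h
    funext b
    apply σ.injective
    rw [h1, h, RingEquiv.apply_symm_apply]

theorem cj_iff (J : Matrix (Fin N) (Fin N) ℝ) (c : Fin N → ℂ) :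
    ((DJ J)ᵀ *ᵥ fun b => cj (c b)) = (fun b => cj (c b)) ↔ (DJ J)ᵀ *ᵥ c = -c := by
  have h1 : ∀ c : Fin N → ℂ,
      (fun b => cj (((DJ J)ᵀ *ᵥ c) b)) = -((DJ J)ᵀ *ᵥ fun b => cj (c b)) := by
    intro c
    funext b
    unfold Matrix.mulVec dotProduct
    rw [map_sum, Pi.neg_apply, ← Finset.sum_neg_distrib]
    refine Finset.sum_congr rfl fun i _ => ?_
    rw [map_mul, ← neg_mul]
    congr 1
    change (starRingEnd ℂ) (-(Complex.I * ((J i b : ℝ) : ℂ))) = -(-(Complex.I * ((J i b : ℝ) : ℂ)))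
    rw [map_neg, map_mul, Complex.conj_I, Complex.conj_ofReal]
    ring
  have h3 : ∀ c : Fin N → ℂ, (fun b => cj (cj (c b))) = c := by
    intro c
    funext b
    exact Complex.conj_conj _
  constructor
  · intro h
    have h2 := congrArg (fun c : Fin N → ℂ => fun b => cj (c b)) h
    change (fun b => cj (((DJ J)ᵀ *ᵥ fun b => cj (c b)) b)) = (fun b => cj (cj (c b))) at h2
    rw [h1, h3] at h2
    rw [← neg_eq_iff_eq_neg]
    exact h2
  · intro h
    have h2 := h1 c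
    rw [h] at h2
    rw [← neg_inj, ← h2]
    funext b
    exact map_neg cj _

/-- the conjugates of the Hodge operator in coordinates -/
theorem isD_iff {J : Matrix (Fin N) (Fin N) ℝ} (hJ : J * J = -1)
    (hY : ∀ f : Y.H →ₗ[ℚ] ℂ, H10 Y f ↔
      (J.map (fun x : ℝ => (x : ℂ)))ᵀ *ᵥ (fun b => f (e.symm (Pi.single b 1))) =
        Complex.I • fun b => f (e.symm (Pi.single b 1))) (σ : ℂ ≃+* ℂ) (f f' : Y.H →ₗ[ℚ] ℂ) :
    IsD Y σ f f' ↔ cE e f' = ((DJ J).map σ)ᵀ *ᵥ cE e f := by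
  have hH : ∀ f : Y.H →ₗ[ℚ] ℂ, H10 Y f ↔ (DJ J)ᵀ *ᵥ cE e f = cE e f := by
    intro f
    rw [← eig_iff]
    exact hY f
  have hA : ∀ a : Y.H →ₗ[ℚ] ℂ, H10 Y (tw σ.symm a) ↔ ((DJ J).map σ)ᵀ *ᵥ cE e a = cE e a := by
    intro a
    rw [hH, cE_tw]
    exact map_mulVec_symm J σ (cE e a) (cE e a)
  have hB : ∀ b : Y.H →ₗ[ℚ] ℂ, H10 Y (tw cj (tw σ.symm b)) ↔
      ((DJ J).map σ)ᵀ *ᵥ cE e b = -cE e b := by
    intro b
    rw [hH, cE_tw, cj_iff, cE_tw]
    have h1 : -(fun i => σ.symm (cE e b i)) = fun i => σ.symm ((-cE e b) i) := by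
      funext i
      exact (map_neg σ.symm _).symm
    rw [h1]
    exact map_mulVec_symm J σ (cE e b) (-cE e b)
  have hsq := DJ_sq_map hJ σ
  have hsm : ∀ (r : ℚ) (a : Y.H →ₗ[ℚ] ℂ), cE e (r • a) = r • cE e a := fun _ _ => rfl
  constructor
  · rintro ⟨a, b, hf, hf', ha, hb⟩
    rw [hA] at ha
    rw [hB] at hb
    rw [hf, hf', map_add, map_sub, Matrix.mulVec_add, ha, hb, sub_eq_add_neg]
  · intro hcf
    have hcf' : ((DJ J).map σ)ᵀ *ᵥ cE e f' = cE e f := by
      rw [hcf, Matrix.mulVec_mulVec, hsq, Matrix.one_mulVec]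
    refine ⟨(1/2 : ℚ) • (f + f'), (1/2 : ℚ) • (f - f'), ?_, ?_, ?_, ?_⟩
    · rw [← smul_add, show f + f' + (f - f') = (2:ℚ) • f by rw [two_smul]; abel, smul_smul]
      norm_num
    · rw [← smul_sub, show f + f' - (f - f') = (2:ℚ) • f' by rw [two_smul]; abel, smul_smul]
      norm_num
    · rw [hA, hsm, map_add, Matrix.mulVec_smul, Matrix.mulVec_add, ← hcf, hcf', add_comm]
    · rw [hB, hsm, map_sub, Matrix.mulVec_smul, Matrix.mulVec_sub, ← hcf, hcf', ← smul_neg, neg_sub]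

end GK4

open GK4 in
/-- **K4.** -/
theorem ex_of (h1 : St_ej) (h2 : St_pd) (h3 : St_gdm) : St_ex := by
  intro d Δ hd hG
  obtain ⟨N, J, M₀, hJ, hM0, hrel, hpos, ⟨P, hP1, hP2⟩, hlast⟩ := h3 d Δ hd hG
  obtain ⟨M, hM, hrel', hpos'⟩ := h2 N J M₀ hJ hM0 hrel hpos
  obtain ⟨Y, e, hY⟩ := h1 N J M hJ hM hrel' hpos'
  refine ⟨Y, ⟨fun j => fE e (P j), ?_, ?_⟩, ?_⟩
  · refine LinearIndependent.of_comp (cE e) ?_
    have h4 : (cE e) ∘ (fun j => fE e (P j)) = P := by
      funext j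
      exact cE_fE e (P j)
    rw [h4]
    exact hP1
  · intro σ j
    rw [isD_iff e hJ hY, map_sum, cE_fE]
    refine Eq.trans ?_ (hP2 σ j).symm
    refine Finset.sum_congr rfl fun i _ => ?_
    rw [map_smul]
    exact congrArg (Δ σ i j • ·) (cE_fE e (P i))
  · intro d' Δ' hI ⟨P', hP'1, hP'2⟩
    have h5 : ∃ P : Fin d' → (Fin N → ℂ), LinearIndependent ℂ P ∧ ∀ σ : ℂ ≃+* ℂ, ∀ j,
        ((-(Complex.I • J.map (fun x : ℝ => (x : ℂ)))).map σ)ᵀ *ᵥ P j =
          ∑ i, Δ' σ i j • P i := by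
      refine ⟨fun j => cE e (P' j), ?_, ?_⟩
      · exact hP'1.map' (cE e) (LinearMap.ker_eq_bot.mpr (cE_inj e))
      · intro σ j
        have h6 := (isD_iff e hJ hY σ _ _).mp (hP'2 σ j)
        rw [map_sum] at h6
        refine Eq.trans h6.symm ?_
        refine Finset.sum_congr rfl fun i _ => ?_
        rw [map_smul]
    obtain ⟨ρ, G, hG0, hG1⟩ := hlast d' Δ' hI h5
    refine ⟨?_, ρ, G, hG0, hG1⟩
    have h7 : LinearMap.ker (Matrix.mulVecLin G) = ⊥ := by
      rcases hI.2 (LinearMap.ker (Matrix.mulVecLin G)) (by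
        intro σ w hw
        rw [LinearMap.mem_ker, Matrix.mulVecLin_apply] at hw ⊢
        rw [Matrix.mulVec_mulVec, ← hG1, ← Matrix.mulVec_mulVec, hw, Matrix.mulVec_zero]) with h | h
      · exact h
      · exfalso
        apply hG0
        have h8 : Matrix.mulVecLin G = 0 := LinearMap.ker_eq_top.mp h
        ext i j
        have h9 := congrFun (LinearMap.congr_fun h8 (Pi.single j 1)) i
        rw [Matrix.mulVecLin_apply, Matrix.mulVec_single_one] at h9
        exact h9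
    have h10 := LinearMap.finrank_le_finrank_of_injective (LinearMap.ker_eq_bot.mp h7)
    rwa [Module.finrank_fin_fun, Module.finrank_fin_fun] at h10

end

end Pool.Agent.NH32
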