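import Mathlib
import Pool.Agent.NH32.GtB
import Pool.Agent.NH32.WJ6
import Pool.Agent.NH32.WJ7
import Pool.Agent.NH32.WJ9
import Pool.Agent.NH32.GJ18
import Pool.Agent.NH32.Coo

/-!
# Project G, stage 2, K5: the constituents of abelian varieties are good families
-/

set_option linter.unusedSectionVars false

namespace Pool.Agent.NH32

open Matrix Module Pool.Agent.W437.HC Pool.Agent.W437.HD Pool.Agent.TH504.CB Pool.Agent.Y90
open Pool.Agent.H204R3.CM (IsHodge)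
open Pool.Agent.W548.Odd hiding cv
open scoped ComplexOrder

noncomputable section

namespace GK5

/-- A number field containing finitely many given algebraic numbers. -/
theorem exists_field {S : Set ℂ} (hS : S.Finite) (hA : ∀ x ∈ S, IsAlgebraic ℚ x) :
    ∃ K : Subfield ℂ, FiniteDimensional ℚ K ∧ ∀ x ∈ S, x ∈ K := by
  have hfd : FiniteDimensional ℚ (IntermediateField.adjoin ℚ S) := by
    have : Finite S := hS
    exact IntermediateField.finiteDimensional_adjoin fun x hx => (hA x hx).isIntegral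
  refine ⟨(IntermediateField.adjoin ℚ S).toSubfield, ?_, fun x hx =>
    IntermediateField.subset_adjoin ℚ S hx⟩
  let f : (IntermediateField.adjoin ℚ S).toSubfield →+ IntermediateField.adjoin ℚ S :=
    { toFun := fun x => ⟨x, x.2⟩
      map_zero' := rfl
      map_add' := fun _ _ => rfl }
  have hf : Function.Injective f.toRatLinearMap := by
    intro a b hab
    have h1 := congrArg (fun z : IntermediateField.adjoin ℚ S => (z : ℂ)) hab
    exact Subtype.ext h1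
  exact Module.Finite.of_injective f.toRatLinearMap hf

variable {g : ℕ} {Z : Matrix (Fin g) (Fin g) ℂ} {y yi : Matrix (Fin g ⊕ Fin g) (Fin g ⊕ Fin g) ℝ}

theorem Dy_ph (hy : YD Z y yi) (σ : ℂ ≃+* ℂ) : (ph hy).P (DS Z σ)ᵀ = Dy Z y yi σ := by
  rw [ph_apply]
  unfold Dy
  rw [transpose_mul, transpose_mul, mul_assoc]

theorem DST_mem (σ : ℂ ≃+* ℂ) : (DS Z σ)ᵀ ∈ Lr Z := by
  rw [mem_Lr, transpose_transpose]
  exact DS_mem σ

theorem Dy_mem (hy : YD Z y yi) (σ : ℂ ≃+* ℂ) : Dy Z y yi σ ∈ Ly Z y yi :=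
  hy.mem_of _ (DS_mem σ)

theorem DZ_cj (i j : Fin g ⊕ Fin g) : cj (DZ Z i j) = -DZ Z i j := by
  have h1 : DZ Z i j = -Complex.I * ((JR Z i j : ℝ) : ℂ) := rfl
  rw [h1, map_mul, map_neg]
  have h2 : cj Complex.I = -Complex.I := Complex.conj_I
  have h3 : cj ((JR Z i j : ℝ) : ℂ) = ((JR Z i j : ℝ) : ℂ) := Complex.conj_ofReal _
  rw [h2, h3]
  ring

theorem DS_odd (σ : ℂ ≃+* ℂ) : DS Z (cj.trans σ) = -DS Z σ := by
  ext i j
  change σ (cj (DZ Z i j)) = -σ (DZ Z i j)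
  rw [DZ_cj, map_neg]

theorem Dy_conj (σ : ℂ ≃+* ℂ) : (Dy Z y yi σ)ᴴ = (Dy Z y yi (σ.trans cj))ᵀ := by
  unfold Dy
  rw [transpose_transpose]
  have h1 : ((cm y * DS Z σ * cm yi)ᵀ)ᴴ = (cm y * DS Z σ * cm yi).map (starRingEnd ℂ) := rfl
  rw [h1, Matrix.map_mul, Matrix.map_mul, cm_real, cm_real]
  rfl

theorem Oy_Dy (h : PM Z) (hy : YD Z y yi) :
    Oy yi = Complex.I • Dy Z y yi (RingEquiv.refl ℂ) := by
  have hO := hy.isOm h.det
  have h3 : (Oy yi)ᵀ = -Oy yi := hO.T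
  have h4 : cm y * DZ Z * cm yi = Complex.I • Oy yi := by
    rw [hy.Oy_eq h.det]
    change cm y * ((-Complex.I) • cm (JR Z)) * cm yi = _
    rw [Matrix.mul_smul, Matrix.smul_mul, smul_neg, neg_smul]
  have h5 : Dy Z y yi (RingEquiv.refl ℂ) = (cm y * DZ Z * cm yi)ᵀ := rfl
  rw [h5, h4, transpose_smul, h3, smul_smul, Complex.I_mul_I, neg_one_smul, neg_neg]

theorem Dy_adj (h : PM Z) (hy : YD Z y yi) (σ : ℂ ≃+* ℂ) : (Dy Z y yi σ)ᴴ =
    -(Dy Z y yi (RingEquiv.refl ℂ) * Dy Z y yi (σ.trans cj) * Dy Z y yi (RingEquiv.refl ℂ)) := by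
  rw [Dy_conj]
  obtain ⟨N, hN⟩ : ∃ N, N = Dy Z y yi (σ.trans cj) := ⟨_, rfl⟩
  have hmem : N ∈ Ly Z y yi := by
    rw [hN]
    exact Dy_mem hy _
  have hsp := (hy.ld h).sp N hmem
  have hO := hy.isOm h.det
  have h1 : Nᵀ = Oy yi * N * Oy yi := by
    have h2 : Nᵀ * Oy yi = -(Oy yi * N) := eq_neg_of_add_eq_zero_left hsp
    have h3 := congrArg (fun W => W * Oy yi) h2
    beta_reduce at h3
    rw [mul_assoc, hO.sq, mul_neg_one, neg_mul, neg_inj] at h3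
    exact h3
  rw [← hN, h1, Oy_Dy h hy, Matrix.smul_mul, Matrix.smul_mul, Matrix.mul_smul, smul_smul,
    Complex.I_mul_I, neg_one_smul]

/-- The families given by idempotents with algebraic entries are good. -/
theorem key (h : PM Z) (hy : YD Z y yi) {e : Matrix (Fin g ⊕ Fin g) (Fin g ⊕ Fin g) ℂ}
    (he : e ∈ CM (Lr Z)) (heA : ∀ i j, IsAlgebraic ℚ (e i j)) {d : ℕ}
    {P : Matrix (Fin g ⊕ Fin g) (Fin d) ℂ} {Q : Matrix (Fin d) (Fin g ⊕ Fin g) ℂ}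
    (hPA : ∀ b j, IsAlgebraic ℚ (P b j)) (hPQ : P * Q = e) (hQP : Q * P = 1) :
    Gd fun σ => Q * (DS Z σ)ᵀ * P := by
  have heP : e * P = P := by rw [← hPQ, Matrix.mul_assoc, hQP, Matrix.mul_one]
  have hDD : ∀ σ, (DS Z σ)ᵀ * (DS Z σ)ᵀ = 1 := by
    intro σ
    rw [← transpose_mul, DS_sq h.det, transpose_one]
  have hcomm : ∀ σ, (DS Z σ)ᵀ * P = P * (Q * (DS Z σ)ᵀ * P) := by
    intro σ
    calc (DS Z σ)ᵀ * P = (DS Z σ)ᵀ * e * P := by rw [Matrix.mul_assoc, heP]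
      _ = e * (DS Z σ)ᵀ * P := by rw [he _ (DST_mem σ)]
      _ = _ := by rw [← hPQ]; simp only [Matrix.mul_assoc]
  refine ⟨?_, ?_, ?_, ?_⟩
  · intro σ
    calc Q * (DS Z σ)ᵀ * P * (Q * (DS Z σ)ᵀ * P) = Q * (DS Z σ)ᵀ * ((DS Z σ)ᵀ * P) := by
          rw [hcomm σ]
          simp only [Matrix.mul_assoc]
      _ = Q * ((DS Z σ)ᵀ * (DS Z σ)ᵀ) * P := by simp only [Matrix.mul_assoc]
      _ = 1 := by rw [hDD, Matrix.mul_one, hQP]
  · intro σ
    rw [DS_odd, transpose_neg, Matrix.mul_neg, Matrix.neg_mul]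
  · obtain ⟨K, hK1, hK2⟩ := exists_field
      (S := Set.range (fun q : (Fin g ⊕ Fin g) × (Fin g ⊕ Fin g) => e q.1 q.2) ∪
        Set.range (fun q : (Fin g ⊕ Fin g) × Fin d => P q.1 q.2))
      ((Set.finite_range _).union (Set.finite_range _)) (by
        rintro x (⟨q, rfl⟩ | ⟨q, rfl⟩)
        · exact heA _ _
        · exact hPA _ _)
    refine ⟨K, hK1, fun τ hτ σ => ?_⟩
    have hPτ : P.map τ = P := by
      ext i j
      exact hτ _ (hK2 _ (Or.inr ⟨(i, j), rfl⟩))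
    have heτ : e.map τ = e := by
      ext i j
      exact hτ _ (hK2 _ (Or.inl ⟨(i, j), rfl⟩))
    have hQτ : Q.map τ = Q := by
      have h1 : P * Q.map τ = e := by
        have h2 : (P * Q).map τ = P.map τ * Q.map τ := Matrix.map_mul (f := (τ : ℂ →+* ℂ))
        rw [hPQ, heτ, hPτ] at h2
        exact h2.symm
      calc Q.map τ = Q * P * Q.map τ := by rw [hQP, Matrix.one_mul]
        _ = Q * (P * Q) := by rw [Matrix.mul_assoc, h1, hPQ]
        _ = Q := by rw [← Matrix.mul_assoc, hQP, Matrix.one_mul]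
    have h3 : (Q * (DS Z σ)ᵀ * P).map τ = (Q.map τ * ((DS Z σ)ᵀ).map τ) * P.map τ := by
      have h4 : (Q * (DS Z σ)ᵀ * P).map τ = (Q * (DS Z σ)ᵀ).map τ * P.map τ :=
        Matrix.map_mul (f := (τ : ℂ →+* ℂ))
      have h5 : (Q * (DS Z σ)ᵀ).map τ = Q.map τ * ((DS Z σ)ᵀ).map τ :=
        Matrix.map_mul (f := (τ : ℂ →+* ℂ))
      rw [h4, h5]
    rw [h3, hQτ, hPτ]
    rfl
  · intro ρ
    -- the conjugate data
    obtain ⟨Pr, hPr⟩ : ∃ Pr, Pr = P.map ρ := ⟨_, rfl⟩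
    obtain ⟨Qr, hQr⟩ : ∃ Qr, Qr = Q.map ρ := ⟨_, rfl⟩
    have hQPr : Qr * Pr = 1 := by
      have h2 : (Q * P).map ρ = Q.map ρ * P.map ρ := Matrix.map_mul (f := (ρ : ℂ →+* ℂ))
      rw [hQr, hPr, ← h2, hQP, Matrix.map_one _ (map_zero ρ) (map_one ρ)]
    have hPQr : Pr * Qr = e.map ρ := by
      have h2 : (P * Q).map ρ = P.map ρ * Q.map ρ := Matrix.map_mul (f := (ρ : ℂ →+* ℂ))
      rw [hQr, hPr, ← h2, hPQ]
    have her : e.map ρ ∈ CM (Lr Z) := WJ6.gal_CMg WJ6.gal_Lr ρ e he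
    have hCj : ∀ σ, Cjf (fun σ => Q * (DS Z σ)ᵀ * P) ρ σ = Qr * (DS Z σ)ᵀ * Pr := by
      intro σ
      change (Q * (DS Z (σ.trans ρ.symm))ᵀ * P).map ρ = _
      have h4 : (Q * (DS Z (σ.trans ρ.symm))ᵀ * P).map ρ =
          (Q * (DS Z (σ.trans ρ.symm))ᵀ).map ρ * P.map ρ := Matrix.map_mul (f := (ρ : ℂ →+* ℂ))
      have h5 : (Q * (DS Z (σ.trans ρ.symm))ᵀ).map ρ = Q.map ρ * ((DS Z (σ.trans ρ.symm))ᵀ).map ρ :=
        Matrix.map_mul (f := (ρ : ℂ →+* ℂ))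
      have h6 : ((DS Z (σ.trans ρ.symm))ᵀ).map ρ = (DS Z σ)ᵀ := by
        ext i j
        change ρ (ρ.symm (σ (DZ Z j i))) = σ (DZ Z j i)
        exact ρ.apply_symm_apply _
      rw [h4, h5, h6, hPr, hQr]
    obtain ⟨P1, hP1⟩ : ∃ P1, P1 = (cm yi)ᵀ * Pr := ⟨_, rfl⟩
    obtain ⟨Q1, hQ1⟩ : ∃ Q1, Q1 = Qr * (cm y)ᵀ := ⟨_, rfl⟩
    have hQP1 : Q1 * P1 = 1 := by
      rw [hQ1, hP1]
      calc Qr * (cm y)ᵀ * ((cm yi)ᵀ * Pr) = Qr * ((cm y)ᵀ * (cm yi)ᵀ) * Pr := by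
            simp only [Matrix.mul_assoc]
        _ = 1 := by rw [hy.clT, Matrix.mul_one, hQPr]
    have hPQ1 : P1 * Q1 = (ph hy).P (e.map ρ) := by
      rw [ph_apply, hQ1, hP1, ← hPQr]
      simp only [Matrix.mul_assoc]
    have hC1 : P1 * Q1 ∈ CM (Ly Z y yi) := by
      rw [hPQ1]
      exact ((ph hy).cm_iff _).2 her
    have hB : ∀ σ, Qr * (DS Z σ)ᵀ * Pr = Q1 * Dy Z y yi σ * P1 := by
      intro σ
      rw [← Dy_ph hy, ph_apply, hQ1, hP1]
      calc Qr * (DS Z σ)ᵀ * Pr =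
            Qr * ((cm y)ᵀ * (cm yi)ᵀ) * (DS Z σ)ᵀ * ((cm y)ᵀ * (cm yi)ᵀ) * Pr := by
            rw [hy.clT, Matrix.mul_one, Matrix.mul_one]
        _ = _ := by simp only [Matrix.mul_assoc]
    have hDP : ∀ σ, Dy Z y yi σ * P1 = P1 * (Q1 * Dy Z y yi σ * P1) := by
      intro σ
      calc Dy Z y yi σ * P1 = Dy Z y yi σ * (P1 * Q1) * P1 := by
            rw [Matrix.mul_assoc, Matrix.mul_assoc, hQP1, Matrix.mul_one]
        _ = (P1 * Q1) * Dy Z y yi σ * P1 := by rw [hC1 _ (Dy_mem hy σ)]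
        _ = _ := by simp only [Matrix.mul_assoc]
    refine ⟨P1ᴴ * P1, ?_, fun σ => ?_⟩
    · refine Matrix.PosDef.conjTranspose_mul_self _ ?_
      intro v w hvw
      have h1 := congrArg (fun u => Q1 *ᵥ u) hvw
      beta_reduce at h1
      rw [mulVec_mulVec, mulVec_mulVec, hQP1, one_mulVec, one_mulVec] at h1
      exact h1
    · rw [hCj, hCj, hCj, hB, hB, hB]
      calc (Q1 * Dy Z y yi σ * P1)ᴴ * (P1ᴴ * P1)
          = (P1 * (Q1 * Dy Z y yi σ * P1))ᴴ * P1 := by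
            rw [conjTranspose_mul P1]
            simp only [Matrix.mul_assoc]
        _ = P1ᴴ * (Dy Z y yi σ)ᴴ * P1 := by rw [← hDP, conjTranspose_mul]
        _ = -(P1ᴴ * (Dy Z y yi (RingEquiv.refl ℂ) * (Dy Z y yi (σ.trans cj) *
              (Dy Z y yi (RingEquiv.refl ℂ) * P1)))) := by
            rw [Dy_adj h hy, Matrix.mul_neg, Matrix.neg_mul]
            simp only [Matrix.mul_assoc]
        _ = _ := by
            rw [hDP (RingEquiv.refl ℂ), ← Matrix.mul_assoc (Dy Z y yi (σ.trans cj)),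
              hDP (σ.trans cj), ← Matrix.mul_assoc (Dy Z y yi (RingEquiv.refl ℂ)),
              ← Matrix.mul_assoc (Dy Z y yi (RingEquiv.refl ℂ)), hDP (RingEquiv.refl ℂ)]
            simp only [Matrix.mul_assoc]

end GK5

open GK5 in
/-- **K5.** -/
theorem df_of (_h1 : St_coo) (h2 : St_mi) : St_df := by
  intro X d Δ hI hR
  obtain ⟨E₀, hpol⟩ := X.pol
  obtain ⟨g, Z, hZ, ee, hC, -⟩ := exists_ppavE X.span X.rank hpol
  obtain ⟨y, yi, hy⟩ := exists_YD hZ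
  obtain ⟨P, Q, hMi, hQP, hΔ⟩ := (h2 g Z X ee y yi hZ hC hy).2 d Δ hI hR
  have hadj := (hy.ld hZ).adj
  obtain ⟨E, hE, hEe⟩ := GJ18.exists_above hadj hMi
  obtain ⟨F, rfl⟩ := (ph hy).P.surjective E
  have hF : Mz (Lr Z) F := ((ph hy).mz_iff F).1 hE
  obtain ⟨e0, he0, hA⟩ := (idem_of g Z hZ).2 F hF
  have he' : Me (Ly Z y yi) ((ph hy).P F) ((ph hy).P e0) := ((ph hy).me_iff F e0).2 he0
  obtain ⟨a, ha, b, hb, hab, hba⟩ := GJ18.exists_conj hadj hE hEe hMi.2.2.1 he'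
  obtain ⟨d', A, Q0, hAA, -, -, -, hPQ0, hQP0⟩ := WJ7.single e0 he0.2.1 hA
  obtain ⟨P0, hP0⟩ : ∃ P0 : Matrix (Fin g ⊕ Fin g) (Fin d') ℂ, P0 = of fun b j => A j b := ⟨_, rfl⟩
  rw [← hP0] at hPQ0 hQP0
  have hPA : ∀ b j, IsAlgebraic ℚ (P0 b j) := by
    intro b j
    rw [hP0]
    exact hAA j b
  have hdd : d = d' := by
    have h1 : trace (P * Q) = (d : ℂ) := by
      rw [trace_mul_comm, hQP, trace_one, Fintype.card_fin]
    have h3 : trace (P0 * Q0) = (d' : ℂ) := by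
      rw [trace_mul_comm, hQP0, trace_one, Fintype.card_fin]
    have h4 : trace (P * Q) = trace (P0 * Q0) := by
      rw [hPQ0, ← (ph hy).tr e0, ← hab, ← hba, trace_mul_comm]
    rw [h1, h3] at h4
    exact_mod_cast h4
  subst hdd
  have hGd := key hZ hy he0.1 hA hPA hPQ0 hQP0
  -- the isomorphism
  obtain ⟨P1, hP1⟩ : ∃ P1, P1 = (cm yi)ᵀ * P0 := ⟨_, rfl⟩
  obtain ⟨Q1, hQ1⟩ : ∃ Q1, Q1 = Q0 * (cm y)ᵀ := ⟨_, rfl⟩
  have hQP1 : Q1 * P1 = 1 := by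
    rw [hQ1, hP1]
    calc Q0 * (cm y)ᵀ * ((cm yi)ᵀ * P0) = Q0 * ((cm y)ᵀ * (cm yi)ᵀ) * P0 := by
          simp only [Matrix.mul_assoc]
      _ = 1 := by rw [hy.clT, Matrix.mul_one, hQP0]
  have hPQ1 : P1 * Q1 = b * a := by
    rw [hba, ph_apply, hQ1, hP1, ← hPQ0]
    simp only [Matrix.mul_assoc]
  have hB : ∀ σ, Q0 * (DS Z σ)ᵀ * P0 = Q1 * Dy Z y yi σ * P1 := by
    intro σ
    rw [← Dy_ph hy, ph_apply, hQ1, hP1]
    calc Q0 * (DS Z σ)ᵀ * P0 =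
          Q0 * ((cm y)ᵀ * (cm yi)ᵀ) * (DS Z σ)ᵀ * ((cm y)ᵀ * (cm yi)ᵀ) * P0 := by
          rw [hy.clT, Matrix.mul_one, Matrix.mul_one]
      _ = _ := by simp only [Matrix.mul_assoc]
  have hQba : Q1 * (b * a) = Q1 := by
    rw [← hPQ1, ← Matrix.mul_assoc, hQP1, Matrix.one_mul]
  have hbaP : (b * a) * P1 = P1 := by
    rw [← hPQ1, Matrix.mul_assoc, hQP1, Matrix.mul_one]
  have habP : (a * b) * P = P := by
    rw [hab, Matrix.mul_assoc, hQP, Matrix.mul_one]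
  have hQab : Q * (a * b) = Q := by
    rw [hab, ← Matrix.mul_assoc, hQP, Matrix.one_mul]
  obtain ⟨G, hG⟩ : ∃ G, G = Q1 * b * P := ⟨_, rfl⟩
  obtain ⟨Gi, hGi⟩ : ∃ Gi, Gi = Q * a * P1 := ⟨_, rfl⟩
  have hGG : G * Gi = 1 := by
    rw [hG, hGi]
    calc Q1 * b * P * (Q * a * P1) = Q1 * b * (P * Q) * a * P1 := by
          simp only [Matrix.mul_assoc]
      _ = (Q1 * (b * a)) * ((b * a) * P1) := by
          rw [← hab]
          simp only [Matrix.mul_assoc]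
      _ = 1 := by rw [hQba, hbaP, hQP1]
  have hGiG : Gi * G = 1 := by
    rw [hG, hGi]
    calc Q * a * P1 * (Q1 * b * P) = Q * a * (P1 * Q1) * b * P := by
          simp only [Matrix.mul_assoc]
      _ = (Q * (a * b)) * ((a * b) * P) := by
          rw [hPQ1]
          simp only [Matrix.mul_assoc]
      _ = 1 := by rw [hQab, habP, hQP]
  have hint : ∀ σ, (Q0 * (DS Z σ)ᵀ * P0) * G = G * Δ σ := by
    intro σ
    have hDm := Dy_mem (Z := Z) hy σ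
    rw [hB, hG, ← hΔ σ]
    calc Q1 * Dy Z y yi σ * P1 * (Q1 * b * P) = Q1 * (Dy Z y yi σ * (P1 * Q1)) * b * P := by
          simp only [Matrix.mul_assoc]
      _ = Q1 * (b * a) * (Dy Z y yi σ * b) * P := by
          rw [hPQ1]
          have h5 : b * a ∈ CM (Ly Z y yi) := GJ18.cm_mul hb ha
          rw [h5 _ hDm]
          simp only [Matrix.mul_assoc]
      _ = Q1 * b * Dy Z y yi σ * P := by
          rw [hQba, hb _ hDm]
          simp only [Matrix.mul_assoc]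
      _ = Q1 * b * (Dy Z y yi σ * (P * Q)) * P := by
          have h6 : P * Q * P = P := by rw [Matrix.mul_assoc, hQP, Matrix.mul_one]
          rw [Matrix.mul_assoc (Q1 * b) (Dy Z y yi σ * (P * Q)) P, Matrix.mul_assoc _ (P * Q) P, h6]
          simp only [Matrix.mul_assoc]
      _ = Q1 * b * (P * Q * Dy Z y yi σ) * P := by rw [hMi.1 _ hDm]
      _ = _ := by simp only [Matrix.mul_assoc]
  refine ⟨fun σ => Q0 * (DS Z σ)ᵀ * P0, hGd, ⟨hI.1, ?_⟩, G, Gi, hGG, hGiG, hint⟩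
  intro W hW
  have hW' := hI.2 (W.comap G.mulVecLin) (fun σ w hw => by
    change G *ᵥ (Δ σ *ᵥ w) ∈ W
    rw [mulVec_mulVec, ← hint, ← mulVec_mulVec]
    exact hW σ _ hw)
  rcases hW' with h3 | h3
  · left
    rw [Submodule.eq_bot_iff]
    intro w hw
    have h4 : Gi *ᵥ w ∈ W.comap G.mulVecLin := by
      change G *ᵥ (Gi *ᵥ w) ∈ W
      rw [mulVec_mulVec, hGG, one_mulVec]
      exact hw
    rw [h3, Submodule.mem_bot] at h4
    have h5 := congrArg (fun v => G *ᵥ v) h4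
    beta_reduce at h5
    rwa [mulVec_mulVec, hGG, one_mulVec, mulVec_zero] at h5
  · right
    rw [Submodule.eq_top_iff']
    intro w
    have h4 : Gi *ᵥ w ∈ W.comap G.mulVecLin := by
      rw [h3]
      exact Submodule.mem_top
    change G *ᵥ (Gi *ᵥ w) ∈ W at h4
    rwa [mulVec_mulVec, hGG, one_mulVec] at h4

end

end Pool.Agent.NH32
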