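import Mathlib
import Pool.Agent.NH32.GtB
import Pool.Agent.NH32.WJ6

/-!
# GK7: the decomposable case (helper80)
-/

set_option linter.unusedSectionVars false

namespace Pool.Agent.NH32

open Matrix Module
open scoped ComplexOrder

noncomputable section

namespace GK7

/-! ### Linear algebra -/

section lin

variable {d : ℕ}

/-- A normal involution is self-adjoint. -/
theorem normal_inv {S X Y : Matrix (Fin d) (Fin d) ℂ} (hS : S.PosDef) (h1 : Xᴴ * S = S * Y)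
    (h2 : X * X = 1) (h3 : X * Y = Y * X) : Y = X := by
  have hSi := hS.isUnit
  have hSH : Sᴴ = S := hS.1
  have h4 : Yᴴ * S = S * X := by
    have := congrArg conjTranspose h1
    rw [conjTranspose_mul, conjTranspose_mul, conjTranspose_conjTranspose, hSH] at this
    exact this.symm
  have h5 : Xᴴ * Xᴴ = 1 := by rw [← conjTranspose_mul, h2, conjTranspose_one]
  have h6 : Y * Y = 1 := by
    have h7 : S * (Y * Y) = S * 1 := by
      rw [← mul_assoc, ← h1, mul_assoc, ← h1, ← mul_assoc, h5, one_mul, mul_one]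
    exact hSi.mul_left_cancel h7
  have h7 : (X * Y) * (X * Y) = 1 := by
    calc (X * Y) * (X * Y) = (X * X) * (Y * Y) := by rw [mul_assoc, ← mul_assoc Y X Y, ← h3]; noncomm_ring
      _ = 1 := by rw [h2, h6, one_mul]
  have h8 : ∀ v : Fin d → ℂ, (X * Y) *ᵥ v - v = 0 := by
    intro v
    set u := (X * Y) *ᵥ v - v with hu
    have hTu : (X * Y) *ᵥ u = -u := by
      rw [hu, mulVec_sub, mulVec_mulVec, h7, one_mulVec]
      abel
    by_contra hne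
    have hpos := hS.dotProduct_mulVec_pos hne
    have e1 : star u ⬝ᵥ (S *ᵥ ((X * Y) *ᵥ u)) = star (Y *ᵥ u) ⬝ᵥ (S *ᵥ (Y *ᵥ u)) := by
      rw [mulVec_mulVec, ← mul_assoc, ← h4, star_mulVec, ← dotProduct_mulVec, mulVec_mulVec,
        mulVec_mulVec, mul_assoc]
    rw [hTu, mulVec_neg, dotProduct_neg] at e1
    have h9 := hS.posSemidef.dotProduct_mulVec_nonneg (Y *ᵥ u)
    rw [← e1] at h9
    have h10 : star u ⬝ᵥ (S *ᵥ u) ≤ 0 := neg_nonneg.1 h9
    exact absurd hpos (not_lt_of_ge h10)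
  have h9 : X * Y = 1 := by
    ext i j
    have := congrFun (h8 (Pi.single j 1)) i
    rw [Pi.sub_apply, mulVec_single_one, Pi.zero_apply, sub_eq_zero] at this
    rw [Matrix.one_apply, Pi.single_apply] at *
    exact this
  calc Y = (X * X) * Y := by rw [h2, one_mul]
    _ = X * (X * Y) := by rw [mul_assoc]
    _ = X := by rw [h9, mul_one]

/-- Schur's lemma. -/
theorem schur {Δ : (ℂ ≃+* ℂ) → Matrix (Fin d) (Fin d) ℂ} (hI : IrD Δ)
    {X : Matrix (Fin d) (Fin d) ℂ} (hX : ∀ σ, X * Δ σ = Δ σ * X) : ∃ c : ℂ, X = c • 1 := by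
  have : Nonempty (Fin d) := ⟨⟨0, hI.1⟩⟩
  obtain ⟨c, hc⟩ := Module.End.exists_eigenvalue (Matrix.toLin' X)
  obtain ⟨v, hv⟩ := hc.exists_hasEigenvector
  refine ⟨c, ?_⟩
  have h1 := hI.2 (LinearMap.ker (Matrix.toLin' (X - c • 1))) ?_
  · rcases h1 with h1 | h1
    · exfalso
      apply hv.2
      have h2 : v ∈ LinearMap.ker (Matrix.toLin' (X - c • 1)) := by
        rw [LinearMap.mem_ker, Matrix.toLin'_apply, sub_mulVec, smul_mulVec, one_mulVec]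
        have := hv.apply_eq_smul
        rw [Matrix.toLin'_apply] at this
        rw [this, sub_self]
      rw [h1] at h2
      exact h2
    · rw [LinearMap.ker_eq_top] at h1
      have h2 : X - c • 1 = 0 := Matrix.toLin'.injective (by rw [h1, map_zero])
      exact sub_eq_zero.1 h2
  · intro σ w hw
    rw [LinearMap.mem_ker, Matrix.toLin'_apply] at hw ⊢
    rw [mulVec_mulVec, show (X - c • 1) * Δ σ = Δ σ * (X - c • 1) by
      rw [sub_mul, mul_sub, hX]; simp, ← mulVec_mulVec, hw, mulVec_zero]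

end lin

/-! ### Fields -/

/-- coordinates -/
theorem span_coe {K : Subfield ℂ} {n : ℕ} (b : Basis (Fin n) ℚ K) (x : ℂ) (hx : x ∈ K) :
    x = ∑ i, ((b.repr ⟨x, hx⟩ i : ℚ) : ℂ) * ((b i : K) : ℂ) := by
  have h1 := b.sum_repr ⟨x, hx⟩
  have h3 := congrArg (fun z : K => (z : ℂ)) h1
  simp only [AddSubmonoidClass.coe_finsetSum] at h3
  refine h3.symm.trans (Finset.sum_congr rfl fun i _ => ?_)
  rw [Rat.smul_def]
  push_cast
  rfl

/-- enlarging a number field by finitely many algebraic numbers -/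
theorem exists_field (K : Subfield ℂ) (hK : FiniteDimensional ℚ K) (T : Set ℂ) (hT : T.Finite)
    (hTa : ∀ x ∈ T, IsAlgebraic ℚ x) :
    ∃ K' : Subfield ℂ, FiniteDimensional ℚ K' ∧ K ≤ K' ∧ T ⊆ K' := by
  classical
  let b := Module.finBasis ℚ K
  set T' : Set ℂ := T ∪ Set.range (fun i => ((b i : K) : ℂ)) with hT'
  have hfin : T'.Finite := hT.union (Set.finite_range _)
  have hint : ∀ x ∈ T', IsIntegral ℚ x := by
    rintro x (hx | ⟨i, rfl⟩)
    · exact (hTa x hx).isIntegral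
    · have h1 : IsIntegral ℚ (b i : K) := IsIntegral.of_finite ℚ (b i)
      exact h1.map (IsScalarTower.toAlgHom ℚ K ℂ)
  have hfd : FiniteDimensional ℚ (IntermediateField.adjoin ℚ T') := by
    have : Finite T' := hfin
    exact IntermediateField.finiteDimensional_adjoin hint
  set L := IntermediateField.adjoin ℚ T' with hL
  refine ⟨L.toSubfield, ?_, ?_, ?_⟩
  · let f : L.toSubfield →+ L :=
      { toFun := fun x => ⟨x, x.2⟩
        map_zero' := rfl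
        map_add' := fun _ _ => rfl }
    have hf : Function.Injective f.toRatLinearMap := by
      intro a b hab
      have h1 := congrArg (fun z : L => (z : ℂ)) hab
      exact Subtype.ext h1
    exact Module.Finite.of_injective f.toRatLinearMap hf
  · intro x hx
    have h2 := span_coe b x hx
    change x ∈ L
    rw [h2]
    refine sum_mem fun i _ => mul_mem ?_ ?_
    · exact SubfieldClass.ratCast_mem L _
    · exact IntermediateField.subset_adjoin ℚ T' (Or.inr ⟨i, rfl⟩)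
  · intro x hx
    exact IntermediateField.subset_adjoin ℚ T' (Or.inl hx)

/-- the composite of two number fields -/
theorem field_sup (K K' : Subfield ℂ) (hK : FiniteDimensional ℚ K) (hK' : FiniteDimensional ℚ K') :
    ∃ K2 : Subfield ℂ, FiniteDimensional ℚ K2 ∧ K ≤ K2 ∧ K' ≤ K2 := by
  let b := Module.finBasis ℚ K'
  obtain ⟨K2, hK2, hle2, hsub2⟩ := exists_field K hK
    (Set.range (fun i => ((b i : K') : ℂ))) (Set.finite_range _) (by
      rintro _ ⟨i, rfl⟩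
      have h1 : IsIntegral ℚ (b i : K') := IsIntegral.of_finite ℚ (b i)
      exact (h1.map (IsScalarTower.toAlgHom ℚ K' ℂ)).isAlgebraic)
  refine ⟨K2, hK2, hle2, ?_⟩
  intro x hx
  rw [span_coe b x hx]
  refine sum_mem fun i _ => mul_mem ?_ ?_
  · exact SubfieldClass.ratCast_mem K2 _
  · exact hsub2 ⟨i, rfl⟩

/-- finitely many conjugates over a number field -/
theorem alg_of_orbit_K {K : Subfield ℂ} (hK : FiniteDimensional ℚ K) {z : ℂ}
    (h : {w : ℂ | ∃ τ : ℂ ≃+* ℂ, (∀ x ∈ K, τ x = x) ∧ τ z = w}.Finite) : IsAlgebraic ℚ z := by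
  classical
  apply WJ6.alg_of_orbit
  let res : (ℂ ≃+* ℂ) → (K →+* ℂ) := fun σ => (σ : ℂ →+* ℂ).comp K.subtype
  have hfin : Finite (K →+* ℂ) :=
    Finite.of_equiv (K →ₐ[ℚ] ℂ) (RingHom.equivRatAlgHom (R := K) (S := ℂ)).symm
  let pick : (K →+* ℂ) → (ℂ ≃+* ℂ) := fun φ =>
    if h : ∃ σ, res σ = φ then h.choose else RingEquiv.refl ℂ
  have hpick : ∀ σ, res (pick (res σ)) = res σ := by
    intro σ
    have h1 : ∃ σ', res σ' = res σ := ⟨σ, rfl⟩
    simp only [pick, dif_pos h1]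
    exact h1.choose_spec
  have h2 : (⋃ φ : K →+* ℂ, (fun w => pick φ w) ''
      {w : ℂ | ∃ τ : ℂ ≃+* ℂ, (∀ x ∈ K, τ x = x) ∧ τ z = w}).Finite :=
    Set.finite_iUnion fun φ => h.image _
  refine h2.subset ?_
  rintro _ ⟨σ, rfl⟩
  rw [Set.mem_iUnion]
  refine ⟨res σ, (pick (res σ)).symm (σ z), ⟨σ.trans (pick (res σ)).symm, ?_, rfl⟩, ?_⟩
  · intro x hx
    have h3 : pick (res σ) x = σ x := congrArg (fun f : K →+* ℂ => f ⟨x, hx⟩) (hpick σ)
    rw [RingEquiv.trans_apply, ← h3, RingEquiv.symm_apply_apply]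
  · exact RingEquiv.apply_symm_apply _ _

/-! ### The sign of `I` -/

lemma I_or (σ : ℂ ≃+* ℂ) : σ Complex.I = Complex.I ∨ σ Complex.I = -Complex.I := by
  have h1 : σ Complex.I * σ Complex.I = -1 := by
    rw [← map_mul, Complex.I_mul_I, map_neg, map_one]
  have h2 : (σ Complex.I - Complex.I) * (σ Complex.I + Complex.I) = 0 := by
    have h3 := Complex.I_mul_I
    linear_combination h1 - h3
  rcases mul_eq_zero.1 h2 with h | h
  · exact Or.inl (sub_eq_zero.1 h)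
  · exact Or.inr (eq_neg_of_add_eq_zero_left h)

lemma I_ne : Complex.I ≠ -Complex.I := by
  intro h
  have h1 := congrArg Complex.im h
  simp at h1
  norm_num at h1

open Classical in
/-- the sign -/
def eps (σ : ℂ ≃+* ℂ) : ℤ := if σ Complex.I = Complex.I then 1 else -1

lemma eps_or (σ : ℂ ≃+* ℂ) : eps σ = 1 ∨ eps σ = -1 := by
  unfold eps; split_ifs
  · exact Or.inl rfl
  · exact Or.inr rfl

lemma eps_pos {σ : ℂ ≃+* ℂ} (h : σ Complex.I = Complex.I) : eps σ = 1 := if_pos h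

lemma eps_neg {σ : ℂ ≃+* ℂ} (h : σ Complex.I = -Complex.I) : eps σ = -1 := by
  unfold eps
  rw [if_neg]
  rw [h]
  exact I_ne.symm

lemma eps_sq (σ : ℂ ≃+* ℂ) : (eps σ : ℂ) * eps σ = 1 := by
  rcases eps_or σ with h | h <;> rw [h] <;> norm_num

lemma cj_I : cj Complex.I = -Complex.I := Complex.conj_I

lemma cj_cj (z : ℂ) : cj (cj z) = z := Complex.conj_conj z

lemma eps_odd (σ : ℂ ≃+* ℂ) : eps (cj.trans σ) = -eps σ := by
  rcases I_or σ with h | h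
  · rw [eps_pos h, eps_neg]
    rw [RingEquiv.trans_apply, cj_I, map_neg, h]
  · rw [eps_neg h, eps_pos, neg_neg]
    rw [RingEquiv.trans_apply, cj_I, map_neg, h, neg_neg]

lemma eps_con (ρ σ : ℂ ≃+* ℂ) : eps ((σ.trans cj).trans ρ.symm) = -eps (σ.trans ρ.symm) := by
  have h0 : ((σ.trans cj).trans ρ.symm) Complex.I = -(σ.trans ρ.symm) Complex.I := by
    simp only [RingEquiv.trans_apply]
    rcases I_or σ with h | h
    · rw [h, cj_I, map_neg]
    · rw [h, map_neg, cj_I, map_neg, map_neg]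
  rcases I_or (σ.trans ρ.symm) with h | h
  · rw [eps_pos h, eps_neg (by rw [h0, h])]
  · rw [eps_neg h, eps_pos (by rw [h0, h, neg_neg]), neg_neg]

lemma eps_fix {τ : ℂ ≃+* ℂ} (h : τ Complex.I = Complex.I) (σ : ℂ ≃+* ℂ) :
    eps (σ.trans τ) = eps σ := by
  rcases I_or σ with h1 | h1
  · rw [eps_pos h1, eps_pos]
    rw [RingEquiv.trans_apply, h1, h]
  · rw [eps_neg h1, eps_neg]
    rw [RingEquiv.trans_apply, h1, map_neg, h]

lemma isAlg_I : IsAlgebraic ℚ Complex.I := by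
  refine IsIntegral.isAlgebraic ⟨Polynomial.X ^ 2 + 1, ?_, ?_⟩
  · monicity!
  · simp

/-! ### Conjugate families -/

section cjf

variable {d : ℕ} {Δ : (ℂ ≃+* ℂ) → Matrix (Fin d) (Fin d) ℂ}

lemma map_mul' {l m n : Type} [Fintype m] (ρ : ℂ ≃+* ℂ) (X : Matrix l m ℂ) (Y : Matrix m n ℂ) :
    (X * Y).map ρ = X.map ρ * Y.map ρ := Matrix.map_mul (f := (ρ : ℂ →+* ℂ))

lemma map_one' {m : Type} [DecidableEq m] (ρ : ℂ ≃+* ℂ) :
    (1 : Matrix m m ℂ).map ρ = 1 := Matrix.map_one _ (map_zero ρ) (map_one ρ)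

lemma map_neg' {l m : Type} (ρ : ℂ ≃+* ℂ) (X : Matrix l m ℂ) : (-X).map ρ = -(X.map ρ) := by
  ext i j; exact map_neg ρ _

lemma map_sub' {l m : Type} (ρ : ℂ ≃+* ℂ) (X Y : Matrix l m ℂ) :
    (X - Y).map ρ = X.map ρ - Y.map ρ := by
  ext i j; exact map_sub ρ _ _

lemma map_add' {l m : Type} (ρ : ℂ ≃+* ℂ) (X Y : Matrix l m ℂ) :
    (X + Y).map ρ = X.map ρ + Y.map ρ := by
  ext i j; exact map_add ρ _ _

lemma map_smul' {l m : Type} (ρ : ℂ ≃+* ℂ) (c : ℂ) (X : Matrix l m ℂ) :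
    (c • X).map ρ = ρ c • X.map ρ := by
  ext i j; exact map_mul ρ _ _

lemma map_trans {l m : Type} (ρ τ : ℂ ≃+* ℂ) (X : Matrix l m ℂ) :
    X.map (ρ.trans τ) = (X.map ρ).map τ := rfl

lemma map_symm_map {l m : Type} (ρ : ℂ ≃+* ℂ) (X : Matrix l m ℂ) : (X.map ρ).map ρ.symm = X := by
  ext i j; exact ρ.symm_apply_apply _

lemma map_map_symm {l m : Type} (ρ : ℂ ≃+* ℂ) (X : Matrix l m ℂ) : (X.map ρ.symm).map ρ = X := by
  ext i j; exact ρ.apply_symm_apply _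

lemma map_inj {l m : Type} (ρ : ℂ ≃+* ℂ) {X Y : Matrix l m ℂ} (h : X.map ρ = Y.map ρ) : X = Y := by
  rw [← map_symm_map ρ X, h, map_symm_map]

lemma Cjf_sq (hG : Gd Δ) (ρ σ : ℂ ≃+* ℂ) : Cjf Δ ρ σ * Cjf Δ ρ σ = 1 := by
  unfold Cjf
  rw [← map_mul', hG.sq, map_one']

lemma Cjf_cj (hG : Gd Δ) (ρ : ℂ ≃+* ℂ) : Cjf Δ ρ cj = -Cjf Δ ρ (RingEquiv.refl ℂ) := by
  unfold Cjf
  rw [← map_neg']
  congr 1
  exact hG.odd ρ.symm

lemma Cjf_one (hG : Gd Δ) {ρ : ℂ ≃+* ℂ} {S : Matrix (Fin d) (Fin d) ℂ}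
    (hS : ∀ σ, (Cjf Δ ρ σ)ᴴ * S = -(S * (Cjf Δ ρ (RingEquiv.refl ℂ) * Cjf Δ ρ (σ.trans cj) *
      Cjf Δ ρ (RingEquiv.refl ℂ)))) :
    (Cjf Δ ρ (RingEquiv.refl ℂ))ᴴ * S = S * Cjf Δ ρ (RingEquiv.refl ℂ) := by
  rw [hS (RingEquiv.refl ℂ)]
  have h1 : (RingEquiv.refl ℂ).trans cj = cj := rfl
  rw [h1, Cjf_cj hG, mul_neg, neg_mul, mul_neg, neg_neg, Cjf_sq hG, one_mul]

/-- the properties of the set `J` -/
structure JP (Δ : (ℂ ≃+* ℂ) → Matrix (Fin d) (Fin d) ℂ) (J : Set (ℂ ≃+* ℂ)) : Prop where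
  com : ∀ σ ∈ J, ∀ τ, τ ∉ J → Δ σ * Δ τ = Δ τ * Δ σ
  odd : ∀ σ, cj.trans σ ∈ J ↔ σ ∈ J
  con : ∀ ρ σ : ℂ ≃+* ℂ, σ ∈ J → ((σ.trans ρ).trans cj).trans ρ.symm ∈ J
  fld : ∃ K : Subfield ℂ, FiniteDimensional ℚ K ∧ ∀ τ : ℂ ≃+* ℂ, (∀ z ∈ K, τ z = z) →
    ∀ σ : ℂ ≃+* ℂ, σ.trans τ ∈ J ↔ σ ∈ J

lemma JP.compl {J : Set (ℂ ≃+* ℂ)} (h : JP Δ J) : JP Δ Jᶜ where
  com := fun σ hσ τ hτ => (h.com τ (Set.notMem_compl_iff.1 hτ) σ hσ).symm
  odd := fun σ => not_congr (h.odd σ)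
  con := by
    intro ρ σ hσ h1
    apply hσ
    have h2 := h.con ρ _ h1
    have e : (((((σ.trans ρ).trans cj).trans ρ.symm).trans ρ).trans cj).trans ρ.symm = σ := by
      ext z
      simp [RingEquiv.trans_apply, cj_cj]
    rwa [e] at h2
  fld := by
    obtain ⟨K, hK, h1⟩ := h.fld
    exact ⟨K, hK, fun τ hτ σ => not_congr (h1 τ hτ σ)⟩

open Classical in
/-- the restricted family -/
def fam (Δ : (ℂ ≃+* ℂ) → Matrix (Fin d) (Fin d) ℂ) (J : Set (ℂ ≃+* ℂ)) {m : ℕ}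
    (P : Matrix (Fin d) (Fin m) ℂ) (Q : Matrix (Fin m) (Fin d) ℂ) (σ : ℂ ≃+* ℂ) :
    Matrix (Fin m) (Fin m) ℂ := if σ ∈ J then Q * Δ σ * P else (eps σ : ℂ) • 1

lemma fam_pos {J : Set (ℂ ≃+* ℂ)} {m : ℕ} {P : Matrix (Fin d) (Fin m) ℂ}
    {Q : Matrix (Fin m) (Fin d) ℂ} {σ : ℂ ≃+* ℂ} (h : σ ∈ J) : fam Δ J P Q σ = Q * Δ σ * P :=
  if_pos h

lemma fam_neg {J : Set (ℂ ≃+* ℂ)} {m : ℕ} {P : Matrix (Fin d) (Fin m) ℂ}
    {Q : Matrix (Fin m) (Fin d) ℂ} {σ : ℂ ≃+* ℂ} (h : σ ∉ J) : fam Δ J P Q σ = (eps σ : ℂ) • 1 :=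
  if_neg h

/-- Good families from invariant subspaces. -/
theorem gd_fam (hG : Gd Δ) {J : Set (ℂ ≃+* ℂ)} (hJ : JP Δ J) {m : ℕ}
    {P : Matrix (Fin d) (Fin m) ℂ} {Q : Matrix (Fin m) (Fin d) ℂ} (hQP : Q * P = 1)
    (hst : ∀ σ ∈ J, Δ σ * P = P * (Q * Δ σ * P)) (haP : ∀ i j, IsAlgebraic ℚ (P i j))
    (haQ : ∀ i j, IsAlgebraic ℚ (Q i j)) : Gd (fam Δ J P Q) := by
  have hsq : ∀ σ, fam Δ J P Q σ * fam Δ J P Q σ = 1 := by
    intro σ
    by_cases h : σ ∈ J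
    · rw [fam_pos h]
      calc Q * Δ σ * P * (Q * Δ σ * P) = Q * Δ σ * (P * (Q * Δ σ * P)) := by
            simp only [Matrix.mul_assoc]
        _ = Q * (Δ σ * Δ σ) * P := by rw [← hst σ h]; simp only [Matrix.mul_assoc]
        _ = 1 := by rw [hG.sq, Matrix.mul_one, hQP]
    · rw [fam_neg h, smul_mul_smul_comm, eps_sq, one_smul, Matrix.one_mul]
  refine ⟨hsq, ?_, ?_, ?_⟩
  · intro σ
    by_cases h : σ ∈ J
    · rw [fam_pos h, fam_pos ((hJ.odd σ).2 h), hG.odd, Matrix.mul_neg, Matrix.neg_mul]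
    · rw [fam_neg h, fam_neg (fun h1 => h ((hJ.odd σ).1 h1)), eps_odd]
      push_cast
      rw [neg_smul]
  · obtain ⟨K, hK, h1⟩ := hG.eqv
    obtain ⟨K', hK', h2⟩ := hJ.fld
    obtain ⟨K1, hK1, hle, hsub⟩ := exists_field K hK
      ({Complex.I} ∪ Set.range (fun ij : Fin d × Fin m => P ij.1 ij.2) ∪
        Set.range (fun ij : Fin m × Fin d => Q ij.1 ij.2))
      (((Set.finite_singleton _).union (Set.finite_range _)).union (Set.finite_range _)) (by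
        rintro x ((hx | ⟨ij, rfl⟩) | ⟨ij, rfl⟩)
        · rw [Set.mem_singleton_iff.1 hx]; exact isAlg_I
        · exact haP _ _
        · exact haQ _ _)
    obtain ⟨K2, hK2, hle2, hsub2⟩ := field_sup K1 K' hK1 hK'
    refine ⟨K2, hK2, fun τ hτ σ => ?_⟩
    have hP : P.map τ = P := by
      ext i j
      exact hτ _ (hle2 (hsub (Or.inl (Or.inr ⟨(i, j), rfl⟩))))
    have hQ : Q.map τ = Q := by
      ext i j
      exact hτ _ (hle2 (hsub (Or.inr ⟨(i, j), rfl⟩)))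
    have hI : τ Complex.I = Complex.I := hτ _ (hle2 (hsub (Or.inl (Or.inl rfl))))
    have h3 := h2 τ (fun z hz => hτ z (hsub2 hz)) σ
    by_cases h : σ ∈ J
    · rw [fam_pos h, fam_pos (h3.2 h), map_mul', map_mul', hP, hQ,
        h1 τ (fun z hz => hτ z (hle2 (hle hz)))]
    · rw [fam_neg h, fam_neg (fun h4 => h (h3.1 h4)), eps_fix hI, map_smul', map_one', map_intCast]
  · intro ρ
    obtain ⟨S, hS, hu⟩ := hG.uni ρ
    have hPQ : Q.map ρ * P.map ρ = 1 := by rw [← map_mul', hQP, map_one']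
    have hC : ∀ σ : ℂ ≃+* ℂ, σ.trans ρ.symm ∈ J →
        Cjf Δ ρ σ * P.map ρ = P.map ρ * Cjf (fam Δ J P Q) ρ σ := by
      intro σ hσ
      unfold Cjf
      rw [← map_mul', hst _ hσ, map_mul', fam_pos hσ]
    have hsq' : ∀ σ, Cjf (fam Δ J P Q) ρ σ * Cjf (fam Δ J P Q) ρ σ = 1 := by
      intro σ
      unfold Cjf
      rw [← map_mul', hsq, map_one']
    have hCn : ∀ σ : ℂ ≃+* ℂ, σ.trans ρ.symm ∉ J →
        Cjf (fam Δ J P Q) ρ σ = (eps (σ.trans ρ.symm) : ℂ) • 1 := by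
      intro σ hσ
      unfold Cjf
      rw [fam_neg hσ, map_smul', map_one', map_intCast]
    refine ⟨(P.map ρ)ᴴ * S * P.map ρ, hS.conjTranspose_mul_mul_same ?_, fun σ => ?_⟩
    · intro x y hxy
      have := congrArg (fun v => Q.map ρ *ᵥ v) hxy
      simpa [mulVec_mulVec, hPQ] using this
    · by_cases h : σ.trans ρ.symm ∈ J
      · have h4 : (σ.trans cj).trans ρ.symm ∈ J := by
          have := hJ.con ρ _ h
          have e : (((σ.trans ρ.symm).trans ρ).trans cj).trans ρ.symm =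
              (σ.trans cj).trans ρ.symm := by
            ext z; simp
          rwa [e] at this
        have h5 : (Cjf (fam Δ J P Q) ρ σ)ᴴ * ((P.map ρ)ᴴ * S * P.map ρ) =
            -((P.map ρ)ᴴ * (S * (Cjf Δ ρ (RingEquiv.refl ℂ) * Cjf Δ ρ (σ.trans cj) *
              Cjf Δ ρ (RingEquiv.refl ℂ))) * P.map ρ) := by
          calc (Cjf (fam Δ J P Q) ρ σ)ᴴ * ((P.map ρ)ᴴ * S * P.map ρ) =
              (P.map ρ * Cjf (fam Δ J P Q) ρ σ)ᴴ * S * P.map ρ := by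
                rw [conjTranspose_mul]; simp only [Matrix.mul_assoc]
            _ = (P.map ρ)ᴴ * ((Cjf Δ ρ σ)ᴴ * S) * P.map ρ := by
                rw [← hC σ h, conjTranspose_mul]; simp only [Matrix.mul_assoc]
            _ = _ := by rw [hu σ, Matrix.mul_neg, Matrix.neg_mul]
        rw [h5]
        congr 1
        by_cases h6 : (RingEquiv.refl ℂ).trans ρ.symm ∈ J
        · have e1 := hC _ h6
          have e2 := hC _ h4
          calc (P.map ρ)ᴴ * (S * (Cjf Δ ρ (RingEquiv.refl ℂ) * Cjf Δ ρ (σ.trans cj) *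
              Cjf Δ ρ (RingEquiv.refl ℂ))) * P.map ρ =
              (P.map ρ)ᴴ * S * (Cjf Δ ρ (RingEquiv.refl ℂ) * (Cjf Δ ρ (σ.trans cj) *
              (Cjf Δ ρ (RingEquiv.refl ℂ) * P.map ρ))) := by simp only [Matrix.mul_assoc]
            _ = (P.map ρ)ᴴ * S * ((Cjf Δ ρ (RingEquiv.refl ℂ) * (Cjf Δ ρ (σ.trans cj) *
              P.map ρ)) * Cjf (fam Δ J P Q) ρ (RingEquiv.refl ℂ)) := by
                rw [e1]; simp only [Matrix.mul_assoc]
            _ = (P.map ρ)ᴴ * S * (((Cjf Δ ρ (RingEquiv.refl ℂ) * P.map ρ) *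
              Cjf (fam Δ J P Q) ρ (σ.trans cj)) *
              Cjf (fam Δ J P Q) ρ (RingEquiv.refl ℂ)) := by
                rw [e2]; simp only [Matrix.mul_assoc]
            _ = _ := by rw [e1]; simp only [Matrix.mul_assoc]
        · have hc : Cjf Δ ρ (RingEquiv.refl ℂ) * Cjf Δ ρ (σ.trans cj) =
              Cjf Δ ρ (σ.trans cj) * Cjf Δ ρ (RingEquiv.refl ℂ) := by
            unfold Cjf
            rw [← map_mul', ← map_mul', hJ.com _ h4 _ h6]
          have e2 := hC _ h4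
          rw [hc, Matrix.mul_assoc (Cjf Δ ρ (σ.trans cj)), Cjf_sq hG, Matrix.mul_one]
          have h7 : Cjf (fam Δ J P Q) ρ (RingEquiv.refl ℂ) * Cjf (fam Δ J P Q) ρ (σ.trans cj) *
              Cjf (fam Δ J P Q) ρ (RingEquiv.refl ℂ) = Cjf (fam Δ J P Q) ρ (σ.trans cj) := by
            have h8 := hsq' (RingEquiv.refl ℂ)
            rw [hCn _ h6, smul_mul_smul_comm, Matrix.one_mul] at h8
            rw [hCn _ h6, Matrix.smul_mul, Matrix.one_mul, Matrix.mul_smul, Matrix.mul_one, smul_smul]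
            have h9 : (eps ((RingEquiv.refl ℂ).trans ρ.symm) : ℂ) *
              eps ((RingEquiv.refl ℂ).trans ρ.symm) = 1 := eps_sq _
            rw [h9, one_smul]
          rw [h7, ← Matrix.mul_assoc, Matrix.mul_assoc ((P.map ρ)ᴴ * S), e2]
          simp only [Matrix.mul_assoc]
      · have h4 : (σ.trans cj).trans ρ.symm ∉ J := by
          intro h5
          apply h
          have := hJ.con ρ _ h5
          have e : ((((σ.trans cj).trans ρ.symm).trans ρ).trans cj).trans ρ.symm =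
              σ.trans ρ.symm := by
            ext z; simp [cj_cj]
          rwa [e] at this
        rw [hCn _ h, hCn _ h4, eps_con]
        have h8 := hsq' (RingEquiv.refl ℂ)
        rw [conjTranspose_smul, conjTranspose_one, Matrix.smul_mul, Matrix.one_mul, Matrix.mul_smul,
          Matrix.mul_one, Matrix.smul_mul, h8, Matrix.mul_smul, Matrix.mul_one]
        push_cast
        rw [neg_smul, neg_neg]
        congr 1
        simp

end cjf

/-! ### The components -/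

section comp

variable {d : ℕ} {Δ : (ℂ ≃+* ℂ) → Matrix (Fin d) (Fin d) ℂ}

/-- not commuting -/
def R (Δ : (ℂ ≃+* ℂ) → Matrix (Fin d) (Fin d) ℂ) (σ τ : ℂ ≃+* ℂ) : Prop :=
  Δ σ * Δ τ ≠ Δ τ * Δ σ

lemma R_symm {σ τ : ℂ ≃+* ℂ} (h : R Δ σ τ) : R Δ τ σ := fun h1 => h h1.symm

/-- connected by a chain -/
def Rel (Δ : (ℂ ≃+* ℂ) → Matrix (Fin d) (Fin d) ℂ) (σ τ : ℂ ≃+* ℂ) : Prop :=
  Relation.ReflTransGen (R Δ) σ τ

lemma Rel.symm {σ τ : ℂ ≃+* ℂ} (h : Rel Δ σ τ) : Rel Δ τ σ := by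
  induction h with
  | refl => exact Relation.ReflTransGen.refl
  | tail _ h2 ih => exact Relation.ReflTransGen.head (R_symm h2) ih

lemma Rel.trans {σ τ υ : ℂ ≃+* ℂ} (h : Rel Δ σ τ) (h' : Rel Δ τ υ) : Rel Δ σ υ :=
  Relation.ReflTransGen.trans h h'

lemma Rel.step {σ τ υ : ℂ ≃+* ℂ} (h : Rel Δ σ τ) (h' : R Δ τ υ) : Rel Δ σ υ :=
  Relation.ReflTransGen.tail h h'

/-- the component of `s` -/
def Cp (Δ : (ℂ ≃+* ℂ) → Matrix (Fin d) (Fin d) ℂ) (s : ℂ ≃+* ℂ) : Set (ℂ ≃+* ℂ) :=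
  {σ | Rel Δ s σ}

lemma Cp_self (s : ℂ ≃+* ℂ) : s ∈ Cp Δ s := Relation.ReflTransGen.refl

lemma Cp_nb {s t : ℂ ≃+* ℂ} (h : R Δ s t) {σ : ℂ ≃+* ℂ} (hσ : σ ∈ Cp Δ s) :
    ∃ τ ∈ Cp Δ s, R Δ σ τ := by
  rcases Relation.ReflTransGen.cases_tail hσ with h1 | ⟨c, h1, h2⟩
  · subst h1
    exact ⟨t, Relation.ReflTransGen.single h, h⟩
  · exact ⟨c, h1, R_symm h2⟩

lemma Cp_com {s σ τ : ℂ ≃+* ℂ} (hσ : σ ∈ Cp Δ s) (hτ : τ ∉ Cp Δ s) :
    Δ σ * Δ τ = Δ τ * Δ σ := by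
  by_contra h
  exact hτ (Rel.step hσ h)

lemma Cp_neg {s t : ℂ ≃+* ℂ} (h : R Δ s t) {σ κ : ℂ ≃+* ℂ} (hσ : σ ∈ Cp Δ s)
    (hκ : Δ κ = -Δ σ) : κ ∈ Cp Δ s := by
  obtain ⟨τ, hτ, h1⟩ := Cp_nb h hσ
  refine Rel.step hτ ?_
  intro h2
  apply h1
  rw [hκ, Matrix.mul_neg, Matrix.neg_mul, neg_inj] at h2
  exact h2.symm

lemma cj_trans_cj (σ : ℂ ≃+* ℂ) : cj.trans (cj.trans σ) = σ := by
  ext z; simp [cj_cj]

lemma Cp_odd (hG : Gd Δ) {s t : ℂ ≃+* ℂ} (h : R Δ s t) (σ : ℂ ≃+* ℂ) :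
    cj.trans σ ∈ Cp Δ s ↔ σ ∈ Cp Δ s := by
  constructor
  · intro h1
    have h2 := Cp_neg h h1 (hG.odd (cj.trans σ))
    rwa [cj_trans_cj] at h2
  · intro h1
    exact Cp_neg h h1 (hG.odd σ)

lemma Cp_con (hG : Gd Δ) {s t : ℂ ≃+* ℂ} (h : R Δ s t) (ρ σ : ℂ ≃+* ℂ) (hσ : σ ∈ Cp Δ s) :
    ((σ.trans ρ).trans cj).trans ρ.symm ∈ Cp Δ s := by
  by_contra hκ
  obtain ⟨S, hS, hu⟩ := hG.uni ρ
  have h1 := Cjf_one hG hu
  set A1 := Cjf Δ ρ (RingEquiv.refl ℂ) with hA1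
  have hX : Cjf Δ ρ (σ.trans ρ) = (Δ σ).map ρ := by
    unfold Cjf
    congr 2
    ext z; simp
  have hZ : Cjf Δ ρ ((σ.trans ρ).trans cj) = (Δ (((σ.trans ρ).trans cj).trans ρ.symm)).map ρ := rfl
  have h2 := hu (σ.trans ρ)
  rw [hX, hZ] at h2
  set X := (Δ σ).map ρ with hXd
  set Z := (Δ (((σ.trans ρ).trans cj).trans ρ.symm)).map ρ with hZd
  have hXZ : X * Z = Z * X := by
    rw [hXd, hZd, ← map_mul', ← map_mul', Cp_com hσ hκ]
  have hXX : X * X = 1 := by rw [hXd, ← map_mul', hG.sq, map_one']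
  have hAA : A1 * A1 = 1 := Cjf_sq hG ρ _
  have hY : -(A1 * Z * A1) = -Z := by
    by_cases h3 : (RingEquiv.refl ℂ).trans ρ.symm ∈ Cp Δ s
    · have h4 : A1 * Z = Z * A1 := by
        rw [hA1, hZd]
        unfold Cjf
        rw [← map_mul', ← map_mul', Cp_com h3 hκ]
      rw [h4, Matrix.mul_assoc, hAA, Matrix.mul_one]
    · have h4 : X * A1 = A1 * X := by
        rw [hXd, hA1]
        unfold Cjf
        rw [← map_mul', ← map_mul', Cp_com hσ h3]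
      set Y := -(A1 * Z * A1) with hYd
      have h5 : Xᴴ * S = S * Y := by rw [h2, hYd, Matrix.mul_neg]
      have h6 : S * (A1 * Y) = S * (Y * A1) := by
        have e1 : (A1 * X)ᴴ * S = S * (Y * A1) := by
          rw [conjTranspose_mul, Matrix.mul_assoc, h1, ← Matrix.mul_assoc, h5, Matrix.mul_assoc]
        have e2 : (X * A1)ᴴ * S = S * (A1 * Y) := by
          rw [conjTranspose_mul, Matrix.mul_assoc, h5, ← Matrix.mul_assoc, h1, Matrix.mul_assoc]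
        rw [← e1, ← e2, h4]
      have h7 : A1 * Y = Y * A1 := hS.isUnit.mul_left_cancel h6
      calc Y = A1 * A1 * Y := by rw [hAA, Matrix.one_mul]
        _ = A1 * Y * A1 := by rw [Matrix.mul_assoc, h7, ← Matrix.mul_assoc, h7]
        _ = -(A1 * A1 * Z * (A1 * A1)) := by
            rw [hYd, Matrix.mul_neg, Matrix.neg_mul]
            simp only [Matrix.mul_assoc]
        _ = -Z := by rw [hAA, Matrix.one_mul, Matrix.mul_one]
  have h5 : Xᴴ * S = S * (-Z) := by rw [h2, ← hY, Matrix.mul_neg]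
  have h6 := normal_inv hS h5 hXX (by rw [Matrix.mul_neg, Matrix.neg_mul, hXZ])
  have h7 : Δ (((σ.trans ρ).trans cj).trans ρ.symm) = -Δ σ := by
    apply map_inj ρ
    rw [map_neg', ← hZd, ← hXd, ← h6, neg_neg]
  exact hκ (Cp_neg h hσ h7)

/-! ### finitely many components -/

/-- the classes -/
def st (Δ : (ℂ ≃+* ℂ) → Matrix (Fin d) (Fin d) ℂ) : Setoid (ℂ ≃+* ℂ) where
  r := Rel Δ
  iseqv := ⟨fun _ => Relation.ReflTransGen.refl, fun h => h.symm, fun h h' => h.trans h'⟩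

/-- the nontrivial classes -/
def Ncl (Δ : (ℂ ≃+* ℂ) → Matrix (Fin d) (Fin d) ℂ) : Type :=
  {q : Quotient (st Δ) // ∃ a b, Quotient.mk (st Δ) a = q ∧ R Δ a b}

lemma comm_comm {X Y Z : Matrix (Fin d) (Fin d) ℂ} (h1 : X * Z = Z * X) (h2 : Y * Z = Z * Y) :
    (X * Y - Y * X) * Z = Z * (X * Y - Y * X) := by
  rw [sub_mul, mul_sub, mul_assoc X Y Z, h2, ← mul_assoc X, h1, mul_assoc Y X Z, h1,
    ← mul_assoc Y, h2]
  simp only [mul_assoc]

lemma scalar_zero (hI : IrD Δ) {X : Matrix (Fin d) (Fin d) ℂ} (hX : ∀ σ, X * Δ σ = Δ σ * X)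
    (ht : trace X = 0) : X = 0 := by
  obtain ⟨c, hc⟩ := schur hI hX
  rw [hc, trace_smul, trace_one, Fintype.card_fin, smul_eq_mul] at ht
  have hd : (d : ℂ) ≠ 0 := Nat.cast_ne_zero.2 hI.1.ne'
  rw [hc, (mul_eq_zero.1 ht).resolve_right hd, zero_smul]

lemma fin_cls (hI : IrD Δ) : Finite (Ncl Δ) := by
  choose a b hab using fun q : Ncl Δ => q.2
  set c : Ncl Δ → Matrix (Fin d) (Fin d) ℂ := fun q => Δ (a q) * Δ (b q) - Δ (b q) * Δ (a q)
    with hc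
  have hc0 : ∀ q, c q ≠ 0 := fun q h => (hab q).2 (sub_eq_zero.1 h)
  have hcl : ∀ (q : Ncl Δ) (σ : ℂ ≃+* ℂ), Quotient.mk (st Δ) σ ≠ q.1 →
      c q * Δ σ = Δ σ * c q := by
    intro q σ hσ
    have h1 : ¬ Rel Δ (a q) σ := by
      intro h
      apply hσ
      rw [← (hab q).1]
      exact (Quotient.sound (s := st Δ) h).symm
    have h2 : ¬ Rel Δ (b q) σ := by
      intro h
      exact h1 (Rel.trans (Relation.ReflTransGen.single (hab q).2) h)
    exact comm_comm (Cp_com (Cp_self _) h1) (Cp_com (Cp_self _) h2)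
  have hlin : LinearIndependent ℂ c := by
    classical
    rw [linearIndependent_iff']
    intro s g hg i hi
    have h1 : g i • c i = -∑ j ∈ s.erase i, g j • c j := by
      rw [← Finset.add_sum_erase s _ hi] at hg
      exact eq_neg_of_add_eq_zero_left hg
    have h2 : g i • c i = 0 := by
      refine scalar_zero hI (fun σ => ?_) ?_
      · by_cases hσ : Quotient.mk (st Δ) σ = i.1
        · rw [h1, neg_mul, mul_neg, Finset.sum_mul, Finset.mul_sum]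
          congr 1
          refine Finset.sum_congr rfl fun j hj => ?_
          rw [smul_mul_assoc, mul_smul_comm, hcl j σ]
          intro h3
          exact Finset.ne_of_mem_erase hj (Subtype.ext (h3.symm.trans hσ))
        · rw [smul_mul_assoc, mul_smul_comm, hcl i σ hσ]
      · rw [trace_smul, hc]
        simp only [trace_sub]
        rw [trace_mul_comm, sub_self, smul_zero]
    exact (smul_eq_zero.1 h2).resolve_right (hc0 i)
  exact hlin.finite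

/-- the commutators of a component -/
def gC (Δ : (ℂ ≃+* ℂ) → Matrix (Fin d) (Fin d) ℂ) (s : ℂ ≃+* ℂ) :
    Submodule ℂ (Matrix (Fin d) (Fin d) ℂ) :=
  Submodule.span ℂ {X | ∃ a ∈ Cp Δ s, ∃ b ∈ Cp Δ s, X = Δ a * Δ b - Δ b * Δ a}

lemma gC_eq {s s' : ℂ ≃+* ℂ} (h : Rel Δ s s') : gC Δ s = gC Δ s' := by
  have : Cp Δ s = Cp Δ s' := by
    ext σ
    exact ⟨fun h1 => h.symm.trans h1, fun h1 => h.trans h1⟩
  unfold gC
  rw [this]

lemma gC_comm {s σ : ℂ ≃+* ℂ} {X : Matrix (Fin d) (Fin d) ℂ} (hX : X ∈ gC Δ s)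
    (hσ : σ ∉ Cp Δ s) : X * Δ σ = Δ σ * X := by
  unfold gC at hX
  induction hX using Submodule.span_induction with
  | mem x hx =>
    obtain ⟨a, ha, b, hb, rfl⟩ := hx
    exact comm_comm (Cp_com ha hσ) (Cp_com hb hσ)
  | zero => rw [zero_mul, mul_zero]
  | add x y _ _ h1 h2 => rw [add_mul, mul_add, h1, h2]
  | smul c x _ h1 => rw [smul_mul_assoc, mul_smul_comm, h1]

lemma gC_trace {s : ℂ ≃+* ℂ} {X : Matrix (Fin d) (Fin d) ℂ} (hX : X ∈ gC Δ s) :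
    trace X = 0 := by
  unfold gC at hX
  induction hX using Submodule.span_induction with
  | mem x hx =>
    obtain ⟨a, ha, b, hb, rfl⟩ := hx
    rw [trace_sub, trace_mul_comm, sub_self]
  | zero => exact trace_zero _ _
  | add x y _ _ h1 h2 => rw [trace_add, h1, h2, add_zero]
  | smul c x _ h1 => rw [trace_smul, h1, smul_zero]

lemma R_map {K : Subfield ℂ} (he : ∀ τ : ℂ ≃+* ℂ, (∀ z ∈ K, τ z = z) →
    ∀ σ, Δ (σ.trans τ) = (Δ σ).map τ) {τ : ℂ ≃+* ℂ} (hτ : ∀ z ∈ K, τ z = z) {a b : ℂ ≃+* ℂ}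
    (h : R Δ a b) : R Δ (a.trans τ) (b.trans τ) := by
  intro h1
  rw [he τ hτ, he τ hτ, ← map_mul', ← map_mul'] at h1
  exact h (map_inj τ h1)

lemma Rel_map {K : Subfield ℂ} (he : ∀ τ : ℂ ≃+* ℂ, (∀ z ∈ K, τ z = z) →
    ∀ σ, Δ (σ.trans τ) = (Δ σ).map τ) {τ : ℂ ≃+* ℂ} (hτ : ∀ z ∈ K, τ z = z) {a b : ℂ ≃+* ℂ}
    (h : Rel Δ a b) : Rel Δ (a.trans τ) (b.trans τ) := by
  induction h with
  | refl => exact Relation.ReflTransGen.refl
  | tail _ h2 ih => exact ih.step (R_map he hτ h2)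

lemma gC_map {K : Subfield ℂ} (he : ∀ τ : ℂ ≃+* ℂ, (∀ z ∈ K, τ z = z) →
    ∀ σ, Δ (σ.trans τ) = (Δ σ).map τ) {τ : ℂ ≃+* ℂ} (hτ : ∀ z ∈ K, τ z = z) {s : ℂ ≃+* ℂ}
    {X : Matrix (Fin d) (Fin d) ℂ} (hX : X ∈ gC Δ s) : X.map τ ∈ gC Δ (s.trans τ) := by
  unfold gC at hX
  induction hX using Submodule.span_induction with
  | mem x hx =>
    obtain ⟨a, ha, b, hb, rfl⟩ := hx
    refine Submodule.subset_span ⟨a.trans τ, Rel_map he hτ ha, b.trans τ, Rel_map he hτ hb, ?_⟩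
    rw [he τ hτ, he τ hτ, map_sub', map_mul', map_mul']
  | zero =>
    have : (0 : Matrix (Fin d) (Fin d) ℂ).map τ = 0 := by ext i j; exact map_zero τ
    rw [this]
    exact Submodule.zero_mem _
  | add x y _ _ h1 h2 => rw [map_add']; exact Submodule.add_mem _ h1 h2
  | smul c x _ h1 => rw [map_smul']; exact Submodule.smul_mem _ _ h1

lemma symm_fix {K : Subfield ℂ} {τ : ℂ ≃+* ℂ} (hτ : ∀ z ∈ K, τ z = z) :
    ∀ z ∈ K, τ.symm z = z := by
  intro z hz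
  rw [RingEquiv.symm_apply_eq]
  exact (hτ z hz).symm

/-- the support -/
def sp (X : Matrix (Fin d) (Fin d) ℂ) : Finset (Fin d × Fin d) :=
  open Classical in Finset.univ.filter fun p => X p.1 p.2 ≠ 0

lemma mem_sp {X : Matrix (Fin d) (Fin d) ℂ} {p : Fin d × Fin d} : p ∈ sp X ↔ X p.1 p.2 ≠ 0 := by
  unfold sp; rw [Finset.mem_filter]; simp

/-- the component is stable over a number field -/
lemma Cp_fld (hG : Gd Δ) (hI : IrD Δ) {s t : ℂ ≃+* ℂ} (h : R Δ s t) :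
    ∃ K : Subfield ℂ, FiniteDimensional ℚ K ∧ ∀ τ : ℂ ≃+* ℂ, (∀ z ∈ K, τ z = z) →
    ∀ σ : ℂ ≃+* ℂ, σ.trans τ ∈ Cp Δ s ↔ σ ∈ Cp Δ s := by
  classical
  obtain ⟨K, hK, he⟩ := hG.eqv
  -- an element of minimal support
  have hex : ∃ n, ∃ y ∈ gC Δ s, y ≠ 0 ∧ (sp y).card = n :=
    ⟨_, Δ s * Δ t - Δ t * Δ s, Submodule.subset_span ⟨s, Cp_self s, t,
      Relation.ReflTransGen.single h, rfl⟩, fun h1 => h (sub_eq_zero.1 h1), rfl⟩
  obtain ⟨y0, hy0, hy0n, hcard⟩ := Nat.find_spec hex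
  have hmin : ∀ z ∈ gC Δ s, z ≠ 0 → (sp y0).card ≤ (sp z).card := by
    intro z hz hz0
    rw [hcard]
    exact Nat.find_min' hex ⟨z, hz, hz0, rfl⟩
  obtain ⟨p, hp⟩ : ∃ p : Fin d × Fin d, y0 p.1 p.2 ≠ 0 := by
    by_contra hcon
    push Not at hcon
    exact hy0n (by ext i j; exact hcon (i, j))
  set y := (y0 p.1 p.2)⁻¹ • y0 with hy
  have hyp : y p.1 p.2 = 1 := by
    rw [hy, Matrix.smul_apply, smul_eq_mul, inv_mul_cancel₀ hp]
  have hys : sp y = sp y0 := by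
    ext q
    rw [mem_sp, mem_sp, hy, Matrix.smul_apply, smul_eq_mul]
    simp [hp]
  have hyg : y ∈ gC Δ s := Submodule.smul_mem _ _ hy0
  -- uniqueness
  have huniq : ∀ τ τ' : ℂ ≃+* ℂ, (∀ z ∈ K, τ z = z) → (∀ z ∈ K, τ' z = z) →
      Rel Δ (s.trans τ) (s.trans τ') → y.map τ = y.map τ' := by
    intro τ τ' hτ hτ' hrel
    by_contra hne
    have hz : y.map τ - y.map τ' ∈ gC Δ (s.trans τ) := by
      refine Submodule.sub_mem _ (gC_map he hτ hyg) ?_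
      rw [gC_eq hrel]
      exact gC_map he hτ' hyg
    have hw := gC_map he (symm_fix hτ) hz
    have e : (s.trans τ).trans τ.symm = s := by ext z; simp
    rw [e] at hw
    have hw0 : (y.map τ - y.map τ').map τ.symm ≠ 0 := by
      intro h1
      apply hne
      have h2 : y.map τ - y.map τ' = 0 := by
        apply map_inj τ.symm
        rw [h1]
        ext i j; exact (map_zero τ.symm).symm
      exact sub_eq_zero.1 h2
    have h3 := hmin _ hw hw0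
    have h4 : sp ((y.map τ - y.map τ').map τ.symm) ⊆ (sp y0).erase p := by
      intro q hq
      rw [mem_sp] at hq
      have hq' : τ (y q.1 q.2) - τ' (y q.1 q.2) ≠ 0 := by
        intro h5
        apply hq
        change τ.symm (τ (y q.1 q.2) - τ' (y q.1 q.2)) = 0
        rw [h5, map_zero]
      rw [Finset.mem_erase, ← hys, mem_sp]
      refine ⟨?_, ?_⟩
      · rintro rfl
        apply hq'
        rw [hyp, map_one, map_one, sub_self]
      · intro h5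
        apply hq'
        rw [h5, map_zero, map_zero, sub_self]
    have h5 := Finset.card_le_card h4
    rw [Finset.card_erase_of_mem (mem_sp.2 hp)] at h5
    have h6 : 0 < (sp y0).card := Finset.card_pos.2 ⟨p, mem_sp.2 hp⟩
    omega
  -- finitely many conjugates
  have hfin : {Y : Matrix (Fin d) (Fin d) ℂ | ∃ τ : ℂ ≃+* ℂ, (∀ z ∈ K, τ z = z) ∧
      y.map τ = Y}.Finite := by
    have := fin_cls hI
    let g : Ncl Δ → Matrix (Fin d) (Fin d) ℂ := fun q =>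
      if h : ∃ τ : ℂ ≃+* ℂ, (∀ z ∈ K, τ z = z) ∧ Quotient.mk (st Δ) (s.trans τ) = q.1 then
        y.map h.choose else 0
    refine (Set.finite_range g).subset ?_
    rintro Y ⟨τ, hτ, rfl⟩
    refine ⟨⟨Quotient.mk (st Δ) (s.trans τ), s.trans τ, t.trans τ, rfl, R_map he hτ h⟩, ?_⟩
    have h1 : ∃ τ' : ℂ ≃+* ℂ, (∀ z ∈ K, τ' z = z) ∧ Quotient.mk (st Δ) (s.trans τ') =
      Quotient.mk (st Δ) (s.trans τ) := ⟨τ, hτ, rfl⟩
    change (if h : ∃ τ' : ℂ ≃+* ℂ, (∀ z ∈ K, τ' z = z) ∧ Quotient.mk (st Δ) (s.trans τ') =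
      Quotient.mk (st Δ) (s.trans τ) then y.map h.choose else 0) = y.map τ
    rw [dif_pos h1]
    exact huniq _ _ h1.choose_spec.1 hτ (Quotient.exact (s := st Δ) h1.choose_spec.2)
  have halg : ∀ i j, IsAlgebraic ℚ (y i j) := by
    intro i j
    apply alg_of_orbit_K hK
    refine (hfin.image fun Y : Matrix (Fin d) (Fin d) ℂ => Y i j).subset ?_
    rintro _ ⟨τ, hτ, rfl⟩
    exact ⟨y.map τ, ⟨τ, hτ, rfl⟩, rfl⟩
  obtain ⟨K', hK', hle, hsub⟩ := exists_field K hK (Set.range fun ij : Fin d × Fin d => y ij.1 ij.2)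
    (Set.finite_range _) (by rintro _ ⟨ij, rfl⟩; exact halg _ _)
  -- the fixing automorphisms
  have key : ∀ τ : ℂ ≃+* ℂ, (∀ z ∈ K', τ z = z) → Rel Δ s (s.trans τ) := by
    intro τ hτ
    by_contra hcon
    have hyτ : y.map τ = y := by
      ext i j
      exact hτ _ (hsub ⟨(i, j), rfl⟩)
    have h1 := gC_map he (fun z hz => hτ z (hle hz)) hyg
    rw [hyτ] at h1
    have h2 : y = 0 := by
      refine scalar_zero hI (fun σ => ?_) (gC_trace hyg)
      by_cases hσ : σ ∈ Cp Δ s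
      · refine gC_comm h1 fun h3 => hcon ?_
        exact Rel.trans hσ (Rel.symm h3)
      · exact gC_comm hyg hσ
    rw [h2] at hyp
    exact zero_ne_one hyp
  have one : ∀ τ : ℂ ≃+* ℂ, (∀ z ∈ K', τ z = z) → ∀ σ : ℂ ≃+* ℂ, σ ∈ Cp Δ s →
      σ.trans τ ∈ Cp Δ s := by
    intro τ hτ σ hσ
    exact (key τ hτ).trans (Rel_map he (fun z hz => hτ z (hle hz)) hσ)
  refine ⟨K', hK', fun τ hτ σ => ⟨fun h1 => ?_, one τ hτ σ⟩⟩
  have h2 := one τ.symm (symm_fix hτ) _ h1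
  have e : (σ.trans τ).trans τ.symm = σ := by ext z; simp
  rwa [e] at h2

lemma Cp_JP (hG : Gd Δ) (hI : IrD Δ) {s t : ℂ ≃+* ℂ} (h : R Δ s t) : JP Δ (Cp Δ s) where
  com := fun _ hσ _ hτ => Cp_com hσ hτ
  odd := Cp_odd hG h
  con := Cp_con hG h
  fld := Cp_fld hG hI h

end comp

/-! ### The algebras -/

section alg

variable {d : ℕ} {Δ : (ℂ ≃+* ℂ) → Matrix (Fin d) (Fin d) ℂ}

/-- the algebra of a set of automorphisms -/
def alg (Δ : (ℂ ≃+* ℂ) → Matrix (Fin d) (Fin d) ℂ) (J : Set (ℂ ≃+* ℂ)) :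
    Subalgebra ℂ (Matrix (Fin d) (Fin d) ℂ) := Algebra.adjoin ℂ (Δ '' J)

lemma alg_mem {J : Set (ℂ ≃+* ℂ)} {σ : ℂ ≃+* ℂ} (h : σ ∈ J) : Δ σ ∈ alg Δ J :=
  Algebra.subset_adjoin ⟨σ, h, rfl⟩

lemma alg_comm {J : Set (ℂ ≃+* ℂ)} {X Z : Matrix (Fin d) (Fin d) ℂ} (hX : X ∈ alg Δ J)
    (hZ : ∀ σ ∈ J, Δ σ * Z = Z * Δ σ) : X * Z = Z * X := by
  unfold alg at hX
  induction hX using Algebra.adjoin_induction with
  | mem x hx =>
    obtain ⟨σ, hσ, rfl⟩ := hx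
    exact hZ σ hσ
  | algebraMap c =>
    rw [Algebra.algebraMap_eq_smul_one, smul_mul_assoc, one_mul, mul_smul_comm, mul_one]
  | add x y _ _ h1 h2 => rw [add_mul, mul_add, h1, h2]
  | mul x y _ _ h1 h2 => rw [mul_assoc, h2, ← mul_assoc, h1, mul_assoc]

lemma alg_map (hG : Gd Δ) {J : Set (ℂ ≃+* ℂ)} (hJ : JP Δ J) :
    ∃ K : Subfield ℂ, FiniteDimensional ℚ K ∧ ∀ τ : ℂ ≃+* ℂ, (∀ z ∈ K, τ z = z) →
      ∀ X ∈ alg Δ J, X.map τ ∈ alg Δ J := by
  obtain ⟨K, hK, h1⟩ := hG.eqv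
  obtain ⟨K', hK', h2⟩ := hJ.fld
  obtain ⟨K2, hK2, hle, hle'⟩ := field_sup K K' hK hK'
  refine ⟨K2, hK2, fun τ hτ X hX => ?_⟩
  unfold alg at hX
  induction hX using Algebra.adjoin_induction with
  | mem x hx =>
    obtain ⟨σ, hσ, rfl⟩ := hx
    rw [← h1 τ fun z hz => hτ z (hle hz)]
    exact alg_mem ((h2 τ (fun z hz => hτ z (hle' hz)) σ).2 hσ)
  | algebraMap c =>
    rw [Algebra.algebraMap_eq_smul_one, map_smul', map_one', ← Algebra.algebraMap_eq_smul_one]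
    exact Subalgebra.algebraMap_mem _ _
  | add x y _ _ h1 h2 => rw [map_add']; exact Subalgebra.add_mem _ h1 h2
  | mul x y _ _ h1 h2 => rw [map_mul']; exact Subalgebra.mul_mem _ h1 h2

lemma alg_basis (h : St_lalg) (hG : Gd Δ) {J : Set (ℂ ≃+* ℂ)} (hJ : JP Δ J) :
    ∃ (m : ℕ) (X : Fin m → Matrix (Fin d) (Fin d) ℂ),
      (∀ Z, Z ∈ Submodule.span ℂ (Set.range X) ↔ Z ∈ alg Δ J) ∧
      ∀ a i j, IsAlgebraic ℚ (X a i j) := by
  obtain ⟨m, X, -, h2, h3⟩ := h d (Subalgebra.toSubmodule (alg Δ J)) (alg_map hG hJ)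
  exact ⟨m, X, fun Z => by rw [h2]; exact Iff.rfl, h3⟩

/-! ### Specialization -/

lemma spr' (h1 : St_spr) (κ : Type) [Finite κ] (z : κ → ℂ) : ∃ (R : Subring ℂ) (f : R →+* ℂ),
    (∀ i, z i ∈ R) ∧ (∀ x : ℂ, IsAlgebraic ℚ x → ∃ hx : x ∈ R, f ⟨x, hx⟩ = x) ∧
      ∀ x : R, IsAlgebraic ℚ (f x) := by
  obtain ⟨n, ⟨e⟩⟩ := Finite.exists_equiv_fin κ
  obtain ⟨R, f, h2, h3, h4⟩ := h1 n (fun i => z (e.symm i))
  refine ⟨R, f, fun i => ?_, h3, h4⟩
  have := h2 (e i)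
  rwa [Equiv.symm_apply_apply] at this

lemma spec_rel {R : Subring ℂ} {f : R →+* ℂ}
    (h3 : ∀ x : ℂ, IsAlgebraic ℚ x → ∃ hx : x ∈ R, f ⟨x, hx⟩ = x) {l v : Fin d → ℂ}
    (hl : ∀ i, l i ∈ R) (hv : ∀ i, v i ∈ R) {X : Matrix (Fin d) (Fin d) ℂ}
    (hX : ∀ i j, IsAlgebraic ℚ (X i j)) (h0 : l ⬝ᵥ (X *ᵥ v) = 0) :
    (fun i => f ⟨l i, hl i⟩) ⬝ᵥ (X *ᵥ fun i => f ⟨v i, hv i⟩) = 0 := by
  choose hx hfx using fun i j => h3 (X i j) (hX i j)
  have h1 : (∑ i, (⟨l i, hl i⟩ : R) * ∑ j, (⟨X i j, hx i j⟩ : R) * (⟨v j, hv j⟩ : R)) = 0 := by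
    apply Subtype.ext
    push_cast
    exact h0
  have h2 := congrArg f h1
  rw [map_sum, map_zero] at h2
  rw [← h2]
  unfold dotProduct mulVec dotProduct
  refine Finset.sum_congr rfl fun i _ => ?_
  rw [map_mul, map_sum]
  congr 1
  refine Finset.sum_congr rfl fun j _ => ?_
  rw [map_mul, hfx]

lemma exists_scale {v : Fin d → ℂ} (hv : v ≠ 0) : ∃ (c : ℂ) (k : Fin d), c ≠ 0 ∧ (c • v) k = 1 := by
  obtain ⟨k, hk⟩ := Function.ne_iff.1 hv
  exact ⟨(v k)⁻¹, k, inv_ne_zero hk, by rw [Pi.smul_apply, smul_eq_mul, inv_mul_cancel₀ hk]⟩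

lemma vec_lem (h1 : St_spr) {m m' : ℕ} {X : Fin m → Matrix (Fin d) (Fin d) ℂ}
    {Y : Fin m' → Matrix (Fin d) (Fin d) ℂ} (hX : ∀ a i j, IsAlgebraic ℚ (X a i j))
    (hY : ∀ a i j, IsAlgebraic ℚ (Y a i j)) {v l l' : Fin d → ℂ} (hv : v ≠ 0) (hl : l ≠ 0)
    (hl' : l' ≠ 0) (h2 : ∀ a, l ⬝ᵥ (X a *ᵥ v) = 0) (h3 : ∀ a, l' ⬝ᵥ (Y a *ᵥ v) = 0) :
    ∃ v' w w' : Fin d → ℂ, v' ≠ 0 ∧ w ≠ 0 ∧ w' ≠ 0 ∧ (∀ i, IsAlgebraic ℚ (v' i)) ∧
      (∀ a, w ⬝ᵥ (X a *ᵥ v') = 0) ∧ ∀ a, w' ⬝ᵥ (Y a *ᵥ v') = 0 := by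
  obtain ⟨c, k, -, hk⟩ := exists_scale hv
  obtain ⟨c1, k1, -, hk1⟩ := exists_scale hl
  obtain ⟨c2, k2, -, hk2⟩ := exists_scale hl'
  obtain ⟨R, f, hz, ha, hb⟩ := spr' h1 (Fin d ⊕ (Fin d ⊕ Fin d))
    (Sum.elim (c • v) (Sum.elim (c1 • l) (c2 • l')))
  have hv1 : ∀ i, (c • v) i ∈ R := fun i => hz (Sum.inl i)
  have hl1 : ∀ i, (c1 • l) i ∈ R := fun i => hz (Sum.inr (Sum.inl i))
  have hl2 : ∀ i, (c2 • l') i ∈ R := fun i => hz (Sum.inr (Sum.inr i))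
  have one : ∀ (u : Fin d → ℂ) (hu : ∀ i, u i ∈ R) (k : Fin d), u k = 1 →
      (fun i => f ⟨u i, hu i⟩) ≠ 0 := by
    intro u hu k hk h0
    have h4 := congrFun h0 k
    have h5 : (⟨u k, hu k⟩ : R) = 1 := Subtype.ext hk
    simp only [h5, map_one, Pi.zero_apply] at h4
    exact one_ne_zero h4
  refine ⟨fun i => f ⟨(c • v) i, hv1 i⟩, fun i => f ⟨(c1 • l) i, hl1 i⟩,
    fun i => f ⟨(c2 • l') i, hl2 i⟩, one _ _ k hk, one _ _ k1 hk1, one _ _ k2 hk2,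
    fun i => hb _, fun a => ?_, fun a => ?_⟩
  · refine spec_rel ha hl1 hv1 (hX a) ?_
    rw [mulVec_smul, dotProduct_smul, smul_dotProduct, h2 a, smul_zero, smul_zero]
  · refine spec_rel ha hl2 hv1 (hY a) ?_
    rw [mulVec_smul, dotProduct_smul, smul_dotProduct, h3 a, smul_zero, smul_zero]

lemma linv (h1 : St_spr) {m : ℕ} {P : Matrix (Fin d) (Fin m) ℂ} {Q : Matrix (Fin m) (Fin d) ℂ}
    (hP : ∀ i j, IsAlgebraic ℚ (P i j)) (hQP : Q * P = 1) :
    ∃ Q' : Matrix (Fin m) (Fin d) ℂ, Q' * P = 1 ∧ ∀ i j, IsAlgebraic ℚ (Q' i j) := by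
  obtain ⟨R, f, hz, ha, hb⟩ := spr' h1 (Fin m × Fin d) (fun p => Q p.1 p.2)
  have hQ : ∀ i j, Q i j ∈ R := fun i j => hz (i, j)
  refine ⟨fun i j => f ⟨Q i j, hQ i j⟩, ?_, fun i j => hb _⟩
  choose hx hfx using fun i j => ha (P i j) (hP i j)
  ext i j
  have h2 : (∑ k, (⟨Q i k, hQ i k⟩ : R) * (⟨P k j, hx k j⟩ : R)) = if i = j then 1 else 0 := by
    apply Subtype.ext
    have h3 := congrFun (congrFun hQP i) j
    rw [Matrix.mul_apply, Matrix.one_apply] at h3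
    push_cast
    rw [h3]
    split_ifs <;> rfl
  have h3 := congrArg f h2
  rw [map_sum] at h3
  change (∑ k, f ⟨Q i k, hQ i k⟩ * P k j) = (1 : Matrix (Fin m) (Fin m) ℂ) i j
  rw [Matrix.one_apply]
  have h4 : f (if i = j then 1 else 0) = if i = j then 1 else 0 := by
    split_ifs
    · exact map_one f
    · exact map_zero f
  rw [h4] at h3
  rw [← h3]
  refine Finset.sum_congr rfl fun k _ => ?_
  rw [map_mul, hfx]

/-- a basis of the cyclic subspace -/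
lemma cols (h1 : St_spr) {J : Set (ℂ ≃+* ℂ)} {n : ℕ} {X : Fin n → Matrix (Fin d) (Fin d) ℂ}
    (hX : ∀ Z, Z ∈ Submodule.span ℂ (Set.range X) ↔ Z ∈ alg Δ J)
    (hXa : ∀ a i j, IsAlgebraic ℚ (X a i j)) {v w : Fin d → ℂ} (hv : v ≠ 0) (hw : w ≠ 0)
    (hva : ∀ i, IsAlgebraic ℚ (v i)) (hwX : ∀ a, w ⬝ᵥ (X a *ᵥ v) = 0) :
    ∃ (m : ℕ) (P : Matrix (Fin d) (Fin m) ℂ) (Q : Matrix (Fin m) (Fin d) ℂ)
      (c : Fin m → Matrix (Fin d) (Fin d) ℂ), 0 < m ∧ m < d ∧ Q * P = 1 ∧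
      (∀ i j, IsAlgebraic ℚ (P i j)) ∧ (∀ i j, IsAlgebraic ℚ (Q i j)) ∧ (∀ k, c k ∈ alg Δ J) ∧
      (∀ k i, P i k = (c k *ᵥ v) i) ∧ ∀ Z ∈ alg Δ J, P *ᵥ (Q *ᵥ (Z *ᵥ v)) = Z *ᵥ v := by
  classical
  obtain ⟨κ, a, hinj, hspan, hlin⟩ := exists_linearIndependent' ℂ (fun i => X i *ᵥ v)
  have hfin : Finite κ := Finite.of_injective a hinj
  obtain ⟨m, ⟨e⟩⟩ := Finite.exists_equiv_fin κ
  set c : Fin m → Matrix (Fin d) (Fin d) ℂ := fun k => X (a (e.symm k)) with hc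
  set P : Matrix (Fin d) (Fin m) ℂ := fun i k => (c k *ᵥ v) i with hP
  have hcol : P.col = (((fun i => X i *ᵥ v) ∘ a) ∘ e.symm) := by
    funext k
    rfl
  have hPlin : LinearIndependent ℂ P.col := by
    rw [hcol]
    exact hlin.comp _ e.symm.injective
  have hrange : Set.range P.col = Set.range ((fun i => X i *ᵥ v) ∘ a) := by
    rw [hcol]
    exact e.symm.surjective.range_comp _
  have hPinj : Function.Injective P.mulVec := Matrix.mulVec_injective_iff.2 hPlin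
  obtain ⟨g, hg⟩ := LinearMap.exists_leftInverse_of_injective P.mulVecLin
    (LinearMap.ker_eq_bot.2 hPinj)
  have hQ0 : LinearMap.toMatrix' g * P = 1 := by
    have h2 := congrArg LinearMap.toMatrix' hg
    rw [LinearMap.toMatrix'_comp, LinearMap.toMatrix'_id] at h2
    rw [← h2]
    congr 1
    rw [← Matrix.toLin'_apply', LinearMap.toMatrix'_toLin']
  have hPa : ∀ i j, IsAlgebraic ℚ (P i j) := by
    intro i j
    change IsAlgebraic ℚ (∑ q, X (a (e.symm j)) i q * v q)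
    exact (IsIntegral.sum _ fun q _ => (hXa _ _ _).isIntegral.mul (hva _).isIntegral).isAlgebraic
  obtain ⟨Q, hQP, hQa⟩ := linv h1 hPa hQ0
  have hZ : ∀ Z ∈ alg Δ J, ∃ x, Z *ᵥ v = P *ᵥ x := by
    intro Z hZ
    let T : Matrix (Fin d) (Fin d) ℂ →ₗ[ℂ] (Fin d → ℂ) :=
      { toFun := fun Z => Z *ᵥ v
        map_add' := fun A B => add_mulVec A B v
        map_smul' := fun c A => smul_mulVec c A v }
    have h2 : Submodule.span ℂ (Set.range X) ≤
        (Submodule.span ℂ (Set.range fun i => X i *ᵥ v)).comap T := by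
      rw [Submodule.span_le]
      rintro _ ⟨i, rfl⟩
      exact Submodule.subset_span ⟨i, rfl⟩
    have h3 : Z *ᵥ v ∈ Submodule.span ℂ (Set.range fun i => X i *ᵥ v) := h2 ((hX Z).2 hZ)
    rw [← hspan, ← hrange, ← Matrix.range_mulVecLin] at h3
    obtain ⟨x, hx⟩ := h3
    exact ⟨x, hx.symm⟩
  have hm : 0 < m := by
    by_contra hm
    have hm0 : m = 0 := by omega
    obtain ⟨x, hx⟩ := hZ 1 (Subalgebra.one_mem _)
    rw [one_mulVec] at hx
    apply hv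
    rw [hx]
    subst hm0
    ext i
    simp [mulVec, dotProduct]
  refine ⟨m, P, Q, c, hm, ?_, hQP, hPa, hQa, fun k => (hX _).1 (Submodule.subset_span ⟨_, rfl⟩),
    fun k i => rfl, ?_⟩
  · have hle : m ≤ d := by
      have := hPlin.fintype_card_le_finrank
      simpa using this
    rcases hle.lt_or_eq with h | h
    · exact h
    · exfalso
      apply hw
      subst h
      have hPQ : P * Q = 1 := mul_eq_one_comm.mp hQP
      have h5 : w ᵥ* P = 0 := by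
        ext k
        exact hwX (a (e.symm k))
      calc w = w ᵥ* (P * Q) := by rw [hPQ, vecMul_one]
        _ = (w ᵥ* P) ᵥ* Q := by rw [vecMul_vecMul]
        _ = 0 := by rw [h5, zero_vecMul]
  · intro Z hZ'
    obtain ⟨x, hx⟩ := hZ Z hZ'
    rw [hx, mulVec_mulVec x Q P, hQP, one_mulVec]

/-- common eigenvectors of commuting involutions -/
lemma ev_lem (hd : 0 < d) {X Y : Matrix (Fin d) (Fin d) ℂ} (hX : X * X = 1) (hY : Y * Y = 1)
    (hXY : X * Y = Y * X) : ∃ (v : Fin d → ℂ) (a b : ℂ), v ≠ 0 ∧ X *ᵥ v = a • v ∧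
      Y *ᵥ v = b • v := by
  obtain ⟨a, b, ha, hb, hne⟩ : ∃ a b : ℂ, (a = 1 ∨ a = -1) ∧ (b = 1 ∨ b = -1) ∧
      (1 + a • X) * (1 + b • Y) ≠ 0 := by
    by_contra hcon
    push Not at hcon
    have e1 := hcon 1 1 (Or.inl rfl) (Or.inl rfl)
    have e2 := hcon 1 (-1) (Or.inl rfl) (Or.inr rfl)
    have e3 := hcon (-1) 1 (Or.inr rfl) (Or.inl rfl)
    have e4 := hcon (-1) (-1) (Or.inr rfl) (Or.inr rfl)
    have e5 : (4 : ℂ) • (1 : Matrix (Fin d) (Fin d) ℂ) =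
        ((1 + (1 : ℂ) • X) * (1 + (1 : ℂ) • Y) + (1 + (1 : ℂ) • X) * (1 + (-1 : ℂ) • Y)) +
        ((1 + (-1 : ℂ) • X) * (1 + (1 : ℂ) • Y) + (1 + (-1 : ℂ) • X) * (1 + (-1 : ℂ) • Y)) := by
      rw [← mul_add, ← mul_add, ← add_mul]
      have f1 : (1 + (1 : ℂ) • Y + (1 + (-1 : ℂ) • Y)) = (2 : ℂ) • (1 : Matrix (Fin d) (Fin d) ℂ) := by
        module
      have f2 : (1 + (1 : ℂ) • X + (1 + (-1 : ℂ) • X)) = (2 : ℂ) • (1 : Matrix (Fin d) (Fin d) ℂ) := by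
        module
      rw [f1, f2, smul_mul_smul_comm, one_mul]
      norm_num
    rw [e1, e2, e3, e4] at e5
    have e6 := congrFun (congrFun e5 ⟨0, hd⟩) ⟨0, hd⟩
    simp at e6
  obtain ⟨w, hw⟩ : ∃ w, ((1 + a • X) * (1 + b • Y)) *ᵥ w ≠ 0 := by
    by_contra hcon
    push Not at hcon
    apply hne
    ext i j
    have := congrFun (hcon (Pi.single j 1)) i
    rw [mulVec_single_one] at this
    exact this
  have haa : a * a = 1 := by rcases ha with rfl | rfl <;> norm_num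
  have hbb : b * b = 1 := by rcases hb with rfl | rfl <;> norm_num
  refine ⟨_, a, b, hw, ?_, ?_⟩
  · rw [mulVec_mulVec, ← smul_mulVec, ← mul_assoc]
    congr 1
    rw [← smul_mul_assoc]
    congr 1
    rw [mul_add, mul_one, mul_smul_comm, hX, smul_add, smul_smul, haa, one_smul, add_comm]
  · rw [mulVec_mulVec, ← smul_mulVec]
    congr 1
    have e1 : Y * (1 + a • X) = (1 + a • X) * Y := by
      rw [mul_add, add_mul, mul_one, one_mul, mul_smul_comm, smul_mul_assoc, hXY]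
    rw [← mul_assoc, e1, mul_assoc, ← mul_smul_comm]
    congr 1
    rw [mul_add, mul_one, mul_smul_comm, hY, smul_add, smul_smul, hbb, one_smul, add_comm]

/-- a linear form vanishing on the cyclic subspace -/
lemma row_lem {J : Set (ℂ ≃+* ℂ)} {X : Matrix (Fin d) (Fin d) ℂ} {a : ℂ} {v : Fin d → ℂ}
    (hX : ∀ c : ℂ, X ≠ c • 1) (hc : ∀ σ ∈ J, Δ σ * X = X * Δ σ) (hv : X *ᵥ v = a • v) :
    ∃ l : Fin d → ℂ, l ≠ 0 ∧ ∀ Z ∈ alg Δ J, l ⬝ᵥ (Z *ᵥ v) = 0 := by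
  have h1 : X - a • 1 ≠ 0 := fun h => hX a (sub_eq_zero.1 h)
  obtain ⟨p, hp⟩ := Function.ne_iff.1 h1
  refine ⟨(X - a • 1) p, hp, fun Z hZ => ?_⟩
  have h2 : (X - a • 1) *ᵥ (Z *ᵥ v) = 0 := by
    rw [sub_mulVec, smul_mulVec, one_mulVec, mulVec_mulVec, ← alg_comm hZ hc, ← mulVec_mulVec, hv,
      mulVec_smul, sub_self]
  exact congrFun h2 p

/-- stability of the columns -/
lemma st_cols {J : Set (ℂ ≃+* ℂ)} {m : ℕ} {P : Matrix (Fin d) (Fin m) ℂ}
    {Q : Matrix (Fin m) (Fin d) ℂ} {c : Fin m → Matrix (Fin d) (Fin d) ℂ} {v : Fin d → ℂ}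
    (hc : ∀ k, c k ∈ alg Δ J) (hPc : ∀ k i, P i k = (c k *ᵥ v) i)
    (hZ : ∀ Z ∈ alg Δ J, P *ᵥ (Q *ᵥ (Z *ᵥ v)) = Z *ᵥ v) : ∀ σ ∈ J, Δ σ * P = P * (Q * Δ σ * P) := by
  intro σ hσ
  have hcol : ∀ (M : Matrix (Fin d) (Fin d) ℂ) (k : Fin m), (M * P).col k = (M * c k) *ᵥ v := by
    intro M k
    rw [← mulVec_mulVec]
    funext i
    change ∑ j, M i j * P j k = ∑ j, M i j * (c k *ᵥ v) j
    exact Finset.sum_congr rfl fun j _ => by rw [hPc]
  have h1 : P * (Q * Δ σ * P) = P * (Q * (Δ σ * P)) := by rw [Matrix.mul_assoc]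
  rw [h1]
  ext i k
  have h2 := hZ (Δ σ * c k) (Subalgebra.mul_mem _ (alg_mem hσ) (hc k))
  rw [← hcol] at h2
  exact (congrFun h2 i).symm

end alg

/-! ### Lines and tensor products -/

lemma lineD_eq (F : (ℂ ≃+* ℂ) → ℤ) (σ : ℂ ≃+* ℂ) :
    lineD F σ = (F σ : ℂ) • (1 : Matrix (Fin 1) (Fin 1) ℂ) := by
  ext i j
  rw [Subsingleton.elim i j]
  simp [lineD]

lemma gd_line (K0 : Subfield ℂ) (hK0 : FiniteDimensional ℚ K0) : Gd (lineD fun σ => -eps σ) := by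
  refine ⟨fun σ => ?_, fun σ => ?_, ?_, fun ρ => ⟨1, Matrix.PosDef.one, fun σ => ?_⟩⟩
  · rw [lineD_eq, smul_mul_smul_comm]
    push_cast
    rw [neg_mul_neg, eps_sq, one_smul, one_mul]
  · rw [lineD_eq, lineD_eq, eps_odd]
    push_cast
    rw [neg_smul, neg_smul]
  · obtain ⟨K, hK, -, hsub⟩ := exists_field K0 hK0 {Complex.I} (Set.finite_singleton _) (by
        rintro x hx
        rw [Set.mem_singleton_iff.1 hx]; exact isAlg_I)
    refine ⟨K, hK, fun τ hτ σ => ?_⟩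
    rw [lineD_eq, lineD_eq, eps_fix (hτ _ (hsub rfl)), map_smul', map_one', map_intCast]
  · have hC : ∀ σ, Cjf (lineD fun σ => -eps σ) ρ σ =
        ((-eps (σ.trans ρ.symm) : ℤ) : ℂ) • (1 : Matrix (Fin 1) (Fin 1) ℂ) := by
      intro σ
      unfold Cjf
      rw [lineD_eq, map_smul', map_one', map_intCast]
    rw [hC, hC, hC, eps_con, conjTranspose_smul, conjTranspose_one, Matrix.mul_one, Matrix.one_mul,
      smul_mul_smul_comm, smul_mul_smul_comm, Matrix.one_mul, Matrix.one_mul]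
    push_cast
    rw [show (-(eps ((RingEquiv.refl ℂ).trans ρ.symm) : ℂ) * - -(eps (σ.trans ρ.symm) : ℂ) *
      -(eps ((RingEquiv.refl ℂ).trans ρ.symm) : ℂ)) =
      ((eps ((RingEquiv.refl ℂ).trans ρ.symm) : ℂ) * (eps ((RingEquiv.refl ℂ).trans ρ.symm) : ℂ)) *
        (eps (σ.trans ρ.symm) : ℂ) by ring, eps_sq, one_mul, ← neg_smul]
    congr 1
    simp

lemma mulK1 {d m m' : ℕ} (N : Matrix (Fin d) (Fin m × Fin m') ℂ) (M : Matrix (Fin m) (Fin m) ℂ)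
    (i : Fin d) (k : Fin m) (l : Fin m') :
    (N * kroneckerMap (fun a b => a * b) M (1 : Matrix (Fin m') (Fin m') ℂ)) i (k, l) =
      ∑ k', N i (k', l) * M k' k := by
  rw [Matrix.mul_apply, Fintype.sum_prod_type]
  refine Finset.sum_congr rfl fun k' _ => ?_
  simp [kroneckerMap_apply, Matrix.one_apply]

lemma mulK2 {d m m' : ℕ} (N : Matrix (Fin d) (Fin m × Fin m') ℂ) (M : Matrix (Fin m') (Fin m') ℂ)
    (i : Fin d) (k : Fin m) (l : Fin m') :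
    (N * kroneckerMap (fun a b => a * b) (1 : Matrix (Fin m) (Fin m) ℂ) M) i (k, l) =
      ∑ l', N i (k, l') * M l' l := by
  rw [Matrix.mul_apply, Fintype.sum_prod_type_right]
  refine Finset.sum_congr rfl fun l' _ => ?_
  simp [kroneckerMap_apply, Matrix.one_apply]

end GK7

open GK7 in
theorem r1_of (h1 : St_spr) (h2 : St_lalg) : St_r1 := by
  classical
  rintro d Δ hG hI ⟨J₀, hcom, ⟨s, hs, hsn⟩, ⟨t, ht, htn⟩⟩
  obtain ⟨K0, hK0, -⟩ := hG.eqv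
  obtain ⟨u, hu⟩ : ∃ u, R Δ s u := by
    by_contra hcon
    push Not at hcon
    obtain ⟨c, hc⟩ := schur hI (X := Δ s) fun σ => by
      by_contra h
      exact hcon σ h
    exact hsn c hc
  set J := Cp Δ s with hJd
  have hJJ : ∀ σ ∈ J, σ ∈ J₀ := by
    intro σ hσ
    have hσ' : Relation.ReflTransGen (R Δ) s σ := hσ
    induction hσ' with
    | refl => exact hs
    | tail h3 h4 ih =>
      by_contra h5
      exact h4 (hcom _ (ih h3) _ h5)
  have htJ : t ∉ J := fun h => ht (hJJ t h)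
  have hJ : JP Δ J := Cp_JP hG hI hu
  have hJc := hJ.compl
  have hsJ : s ∈ J := Cp_self s
  obtain ⟨n, X, hX, hXa⟩ := alg_basis h2 hG hJ
  obtain ⟨n', Y, hY, hYa⟩ := alg_basis h2 hG hJc
  obtain ⟨v0, a, b, hv0, hva, hvb⟩ := ev_lem hI.1 (hG.sq s) (hG.sq t) (hJ.com s hsJ t htJ)
  obtain ⟨l, hl, hl0⟩ := row_lem (Δ := Δ) (J := J) htn (fun σ hσ => hJ.com σ hσ t htJ) hvb
  obtain ⟨l', hl', hl0'⟩ := row_lem (Δ := Δ) (J := Jᶜ) hsn
    (fun σ hσ => (hJ.com s hsJ σ hσ).symm) hva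
  obtain ⟨v, w, w', hv, hw, hw', hval, hwX, hwY⟩ := vec_lem h1 hXa hYa hv0 hl hl'
    (fun a => hl0 _ ((hX _).1 (Submodule.subset_span ⟨a, rfl⟩)))
    (fun a => hl0' _ ((hY _).1 (Submodule.subset_span ⟨a, rfl⟩)))
  obtain ⟨m, P, Q, c, hm0, hmd, hQP, hPa, hQa, hc, hPc, hZ⟩ := cols h1 hX hXa hv hw hval hwX
  obtain ⟨m', P', Q', c', hm0', hmd', hQP', hPa', hQa', hc', hPc', hZ'⟩ :=
    cols h1 hY hYa hv hw' hval hwY
  have hst := st_cols (Q := Q) hc hPc hZ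
  have hst' := st_cols (Q := Q') hc' hPc' hZ'
  have hcc : ∀ k l, c' l * c k = c k * c' l := by
    intro k l
    refine alg_comm (hc' l) fun σ hσ => ?_
    exact (alg_comm (hc k) fun τ hτ => hJ.com τ hτ σ hσ).symm
  -- the homomorphism
  set N : Matrix (Fin d) (Fin m × Fin m') ℂ := fun i p => (c' p.2 * P) i p.1 with hN
  have hN1 : ∀ i k l, N i (k, l) = (c' l * P) i k := fun i k l => rfl
  have hN2 : ∀ i k l, N i (k, l) = (c k * P') i l := by
    intro i k l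
    rw [hN1]
    have e1 : (c' l * P) i k = ((c' l * c k) *ᵥ v) i := by
      rw [← mulVec_mulVec]
      change ∑ j, c' l i j * P j k = ∑ j, c' l i j * (c k *ᵥ v) j
      exact Finset.sum_congr rfl fun j _ => by rw [hPc]
    have e2 : (c k * P') i l = ((c k * c' l) *ᵥ v) i := by
      rw [← mulVec_mulVec]
      change ∑ j, c k i j * P' j l = ∑ j, c k i j * (c' l *ᵥ v) j
      exact Finset.sum_congr rfl fun j _ => by rw [hPc']
    rw [e1, e2, hcc]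
  refine ⟨m, m', fam Δ J P Q, fam Δ Jᶜ P' Q', fun σ => -eps σ, hm0, hm0', hmd, hmd',
    gd_fam hG hJ hQP hst hPa hQa, gd_fam hG hJc hQP' hst' hPa' hQa', fun σ => ?_, gd_line K0 hK0,
    Or.inl ⟨N, ?_, fun σ => ?_⟩⟩
  · change -eps σ = 1 ∨ -eps σ = -1
    rcases eps_or σ with h | h <;> rw [h]
    · exact Or.inr rfl
    · exact Or.inl rfl
  · intro h0
    have hvP : v = P *ᵥ (Q *ᵥ v) := by
      have := hZ 1 (Subalgebra.one_mem _)
      rw [one_mulVec] at this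
      exact this.symm
    have h3 : ∀ l, c' l *ᵥ v = 0 := by
      intro l
      have h4 : c' l * P = 0 := by
        ext i k
        have := congrFun (congrFun h0 i) (k, l)
        rw [hN1] at this
        exact this
      rw [hvP, mulVec_mulVec, h4, zero_mulVec]
    have h4 : P' = 0 := by
      ext i l
      rw [hPc', h3]
      rfl
    rw [h4, Matrix.mul_zero] at hQP'
    have h5 := congrFun (congrFun hQP' ⟨0, hm0'⟩) ⟨0, hm0'⟩
    simp at h5
  · by_cases hσ : σ ∈ J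
    · have hσ' : σ ∉ Jᶜ := fun h => h hσ
      rw [fam_pos hσ, fam_neg hσ']
      have e1 : tpD (Q * Δ σ * P) ((eps σ : ℂ) • (1 : Matrix (Fin m') (Fin m') ℂ))
          ((-eps σ : ℤ) : ℂ) = kroneckerMap (fun a b => a * b) (Q * Δ σ * P)
            (1 : Matrix (Fin m') (Fin m') ℂ) := by
        unfold tpD
        have e2 : kroneckerMap (fun a b => a * b) (1 : Matrix (Fin m) (Fin m) ℂ)
            ((eps σ : ℂ) • (1 : Matrix (Fin m') (Fin m') ℂ)) = (eps σ : ℂ) • 1 := by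
          ext ⟨p, q⟩ ⟨p', q'⟩
          simp only [kroneckerMap_apply, Matrix.smul_apply, Matrix.one_apply, Prod.mk.injEq,
            smul_eq_mul]
          by_cases h : p = p' <;> by_cases h' : q = q' <;> simp [h, h']
        rw [e2]
        push_cast
        rw [neg_smul]
        abel
      rw [e1]
      ext i ⟨k, l⟩
      rw [mulK1]
      calc (Δ σ * N) i (k, l) = (Δ σ * (c' l * P)) i k := rfl
        _ = (c' l * P * (Q * Δ σ * P)) i k := by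
          have e3 : Δ σ * c' l = c' l * Δ σ :=
            (alg_comm (hc' l) fun τ hτ => (hJ.com σ hσ τ hτ).symm).symm
          rw [← Matrix.mul_assoc, e3, Matrix.mul_assoc, hst σ hσ, ← Matrix.mul_assoc]
        _ = _ := by
          rw [Matrix.mul_apply]
    · rw [fam_neg hσ, fam_pos (J := Jᶜ) hσ]
      have e1 : tpD ((eps σ : ℂ) • (1 : Matrix (Fin m) (Fin m) ℂ)) (Q' * Δ σ * P')
          ((-eps σ : ℤ) : ℂ) = kroneckerMap (fun a b => a * b) (1 : Matrix (Fin m) (Fin m) ℂ)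
            (Q' * Δ σ * P') := by
        unfold tpD
        have e2 : kroneckerMap (fun a b => a * b) ((eps σ : ℂ) • (1 : Matrix (Fin m) (Fin m) ℂ))
            (1 : Matrix (Fin m') (Fin m') ℂ) = (eps σ : ℂ) • 1 := by
          ext ⟨p, q⟩ ⟨p', q'⟩
          simp only [kroneckerMap_apply, Matrix.smul_apply, Matrix.one_apply, Prod.mk.injEq,
            smul_eq_mul]
          by_cases h : p = p' <;> by_cases h' : q = q' <;> simp [h, h']
        rw [e2]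
        push_cast
        rw [neg_smul]
        abel
      rw [e1]
      ext i ⟨k, l⟩
      rw [mulK2]
      calc (Δ σ * N) i (k, l) = ∑ j, Δ σ i j * N j (k, l) := rfl
        _ = ∑ j, Δ σ i j * (c k * P') j l := Finset.sum_congr rfl fun j _ => by rw [hN2]
        _ = (Δ σ * (c k * P')) i l := rfl
        _ = (c k * P' * (Q' * Δ σ * P')) i l := by
          have e3 : Δ σ * c k = c k * Δ σ :=
            (alg_comm (hc k) fun τ hτ => hJ.com τ hτ σ hσ).symm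
          rw [← Matrix.mul_assoc, e3, Matrix.mul_assoc, hst' σ hσ, ← Matrix.mul_assoc]
        _ = ∑ l', (c k * P') i l' * (Q' * Δ σ * P') l' l := Matrix.mul_apply
        _ = _ := Finset.sum_congr rfl fun l' _ => by rw [hN2]

end

end Pool.Agent.NH32
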