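import Mathlib
import Pool.Agent.NH32.GtB

/-!
# Project G, stage 2, K8: algebraicity in the case of exterior powers
-/

set_option linter.unusedSectionVars false

namespace Pool.Agent.NH32

open Matrix Module

noncomputable section

namespace GK8

/-! ### specializations -/

/-- A specialization to the algebraic numbers. -/
structure Sp (R : Subring ℂ) (f : R →+* ℂ) : Prop where
  alg : ∀ x : ℂ, IsAlgebraic ℚ x → ∃ hx : x ∈ R, f ⟨x, hx⟩ = x
  res : ∀ x : R, IsAlgebraic ℚ (f x)

open Classical in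
/-- The specialization as a function. -/
def F (R : Subring ℂ) (f : R →+* ℂ) (x : ℂ) : ℂ := if h : x ∈ R then f ⟨x, h⟩ else 0

variable {R : Subring ℂ} {f : R →+* ℂ}

theorem F_of {x : ℂ} (h : x ∈ R) : F R f x = f ⟨x, h⟩ := dif_pos h

theorem F_add {x y : ℂ} (hx : x ∈ R) (hy : y ∈ R) : F R f (x + y) = F R f x + F R f y := by
  rw [F_of hx, F_of hy, F_of (R.add_mem hx hy), ← map_add]
  rfl

theorem F_sub {x y : ℂ} (hx : x ∈ R) (hy : y ∈ R) : F R f (x - y) = F R f x - F R f y := by
  rw [F_of hx, F_of hy, F_of (R.sub_mem hx hy), ← map_sub]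
  rfl

theorem F_mul {x y : ℂ} (hx : x ∈ R) (hy : y ∈ R) : F R f (x * y) = F R f x * F R f y := by
  rw [F_of hx, F_of hy, F_of (R.mul_mem hx hy), ← map_mul]
  rfl

theorem F_zero : F R f 0 = 0 := by
  rw [F_of R.zero_mem]
  exact map_zero f

theorem F_sum {α : Type*} (s : Finset α) (g : α → ℂ) (hg : ∀ i ∈ s, g i ∈ R) :
    F R f (∑ i ∈ s, g i) = ∑ i ∈ s, F R f (g i) := by
  classical
  induction s using Finset.induction_on with
  | empty => rw [Finset.sum_empty, Finset.sum_empty, F_zero]
  | insert a s ha ih =>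
    have h1 : ∀ i ∈ s, g i ∈ R := fun i hi => hg i (Finset.mem_insert_of_mem hi)
    rw [Finset.sum_insert ha, Finset.sum_insert ha,
      F_add (hg a (Finset.mem_insert_self _ _)) (R.sum_mem h1), ih h1]

theorem Sp.mem (h : Sp R f) {x : ℂ} (hx : IsAlgebraic ℚ x) : x ∈ R := (h.alg x hx).1

theorem Sp.F_alg (h : Sp R f) {x : ℂ} (hx : IsAlgebraic ℚ x) : F R f x = x := by
  obtain ⟨h1, h2⟩ := h.alg x hx
  rw [F_of h1, h2]

theorem Sp.isAlg (h : Sp R f) (x : ℂ) : IsAlgebraic ℚ (F R f x) := by
  unfold F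
  split_ifs with h1
  · exact h.res _
  · exact isAlgebraic_zero

theorem exists_sp (h1 : St_spr) (S : Set ℂ) (hS : S.Finite) :
    ∃ (R : Subring ℂ) (f : R →+* ℂ), Sp R f ∧ ∀ x ∈ S, x ∈ R := by
  have : Fintype S := hS.fintype
  obtain ⟨R, f, h2, h3, h4⟩ := h1 (Fintype.card S) fun i => ((Fintype.equivFin S).symm i : ℂ)
  refine ⟨R, f, ⟨h3, h4⟩, fun x hx => ?_⟩
  have h5 := h2 (Fintype.equivFin S ⟨x, hx⟩)
  rwa [Equiv.symm_apply_apply] at h5

/-! ### coefficient functionals with algebraic entries -/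

theorem exists_coef {d N : ℕ} {X : Fin N → Matrix (Fin d) (Fin d) ℂ}
    (hX : LinearIndependent ℂ X) (hA : ∀ a i j, IsAlgebraic ℚ (X a i j)) :
    ∃ G : Fin d → Fin d → Fin N → ℂ, (∀ i j a, IsAlgebraic ℚ (G i j a)) ∧
      ∀ a b, ∑ i, ∑ j, X b i j * G i j a = if a = b then 1 else 0 := by
  classical
  let K := algebraicClosure ℚ ℂ
  let x : Fin N → (Fin d × Fin d → K) := fun a p => ⟨X a p.1 p.2, mem_algebraicClosure_iff.2 (hA _ _ _)⟩
  let g : (Fin d × Fin d → K) →ₗ[K] Matrix (Fin d) (Fin d) ℂ :=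
    { toFun := fun y => Matrix.of fun i j => ((y (i, j) : K) : ℂ)
      map_add' := fun y z => by
        ext i j
        rfl
      map_smul' := fun c y => by
        ext i j
        rfl }
  have h1 : LinearIndependent K X := hX.restrict_scalars (by
    intro a b hab
    have h2 : (a : ℂ) * 1 = (b : ℂ) * 1 := hab
    rw [mul_one, mul_one] at h2
    exact Subtype.ext h2)
  have h2 : LinearIndependent K x := by
    refine LinearIndependent.of_comp g ?_
    exact h1
  rw [linearIndependent_iff_injective_fintypeLinearCombination] at h2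
  obtain ⟨c, hc⟩ := LinearMap.exists_leftInverse_of_injective (Fintype.linearCombination K x)
    (LinearMap.ker_eq_bot.2 h2)
  refine ⟨fun i j a => ((c (Pi.single (i, j) 1) a : K) : ℂ), fun i j a =>
    mem_algebraicClosure_iff.1 (c (Pi.single (i, j) 1) a).2, fun a b => ?_⟩
  have h3 : c (x b) = Pi.single b 1 := by
    have h4 := LinearMap.congr_fun hc (Pi.single b 1)
    rw [LinearMap.comp_apply, Fintype.linearCombination_apply_single, one_smul] at h4
    exact h4
  have h5 : x b = ∑ p : Fin d × Fin d, x b p • Pi.single p (1 : K) := by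
    ext p
    rw [Finset.sum_apply, Finset.sum_eq_single p]
    · simp
    · intro q _ hq
      simp [hq.symm]
    · intro h
      exact absurd (Finset.mem_univ _) h
  rw [h5, map_sum] at h3
  have h6 := congrArg (fun y : Fin N → K => ((y a : K) : ℂ)) h3
  beta_reduce at h6
  rw [Finset.sum_apply, AddSubmonoidClass.coe_finsetSum, Fintype.sum_prod_type] at h6
  have h7 : (((Pi.single b (1 : K) : Fin N → K) a : K) : ℂ) = if a = b then 1 else 0 := by
    by_cases h : a = b
    · rw [h, if_pos rfl, Pi.single_eq_same]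
      rfl
    · rw [if_neg h, Pi.single_eq_of_ne h]
      rfl
  rw [h7] at h6
  rw [← h6]
  refine Finset.sum_congr rfl fun i _ => Finset.sum_congr rfl fun j _ => ?_
  rw [map_smul, Pi.smul_apply, smul_eq_mul]
  rfl

theorem alg_int (z : ℤ) : IsAlgebraic ℚ (z : ℂ) := isAlgebraic_intCast z

/-- The coefficient functional. -/
def cf {d N : ℕ} (G : Fin d → Fin d → Fin N → ℂ) (a : Fin N) : Matrix (Fin d) (Fin d) ℂ →ₗ[ℂ] ℂ where
  toFun Z := ∑ i, ∑ j, Z i j * G i j a
  map_add' Z Z' := by
    simp only [Matrix.add_apply, add_mul, Finset.sum_add_distrib]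
  map_smul' c Z := by
    simp only [Matrix.smul_apply, smul_eq_mul, RingHom.id_apply, Finset.mul_sum, mul_assoc]

theorem cf_alg {d N : ℕ} {G : Fin d → Fin d → Fin N → ℂ} (hG : ∀ i j a, IsAlgebraic ℚ (G i j a))
    (a : Fin N) {Z : Matrix (Fin d) (Fin d) ℂ} (hZ : ∀ i j, IsAlgebraic ℚ (Z i j)) :
    IsAlgebraic ℚ (cf G a Z) := by
  have h1 : cf G a Z ∈ algebraicClosure ℚ ℂ := by
    show ∑ i, ∑ j, Z i j * G i j a ∈ algebraicClosure ℚ ℂ
    refine (algebraicClosure ℚ ℂ).sum_mem fun i _ => (algebraicClosure ℚ ℂ).sum_mem fun j _ =>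
      (algebraicClosure ℚ ℂ).mul_mem ?_ ?_
    · exact mem_algebraicClosure_iff.2 (hZ i j)
    · exact mem_algebraicClosure_iff.2 (hG i j a)
  exact mem_algebraicClosure_iff.1 h1

/-- The alternating tensor of a family of indices. -/
def at0 {k n : ℕ} (J₀ J : Fin k → Fin n) : ℤ :=
  ∑ σ : Equiv.Perm (Fin k), (Equiv.Perm.sign σ : ℤ) * if J = fun l => J₀ (σ l) then 1 else 0

theorem at0_alt {k n : ℕ} (J₀ : Fin k → Fin n) : IsAlt fun J => ((at0 J₀ J : ℤ) : ℂ) := by
  intro τ J
  beta_reduce
  rw [← Int.cast_mul]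
  congr 1
  unfold at0
  rw [Finset.mul_sum]
  refine Fintype.sum_equiv (Equiv.mulRight τ⁻¹) _ _ fun σ => ?_
  rw [Equiv.coe_mulRight, Equiv.Perm.sign_mul, Equiv.Perm.sign_inv]
  have h1 : (fun l => J (τ l)) = (fun l => J₀ (σ l)) ↔ J = fun l => J₀ ((σ * τ⁻¹) l) := by
    constructor
    · intro h
      funext l
      have h2 := congrFun h (τ⁻¹ l)
      simpa using h2
    · intro h
      funext l
      have h2 := congrFun h (τ l)
      simpa using h2
  have h2 : ((Equiv.Perm.sign τ : ℤˣ) : ℤ) * ((Equiv.Perm.sign τ : ℤˣ) : ℤ) = 1 := by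
    rw [← Units.val_mul, Int.units_mul_self, Units.val_one]
  by_cases h : (fun l => J (τ l)) = (fun l => J₀ (σ l))
  · rw [if_pos h, if_pos (h1.1 h), Units.val_mul]
    linear_combination (-((Equiv.Perm.sign σ : ℤˣ) : ℤ)) * h2
  · rw [if_neg h, if_neg (fun h' => h (h1.2 h'))]
    ring

theorem at0_sum {k n : ℕ} {x : (Fin k → Fin n) → ℂ} (hx : IsAlt x) (J : Fin k → Fin n) :
    ∑ J₀, x J₀ * (at0 J₀ J : ℂ) = (k.factorial : ℂ) * x J := by
  unfold at0
  have h1 : ∀ J₀ : Fin k → Fin n, x J₀ * ((∑ σ : Equiv.Perm (Fin k),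
      (Equiv.Perm.sign σ : ℤ) * if J = fun l => J₀ (σ l) then 1 else 0 : ℤ) : ℂ) =
      ∑ σ : Equiv.Perm (Fin k), if J₀ = (fun l => J (σ⁻¹ l)) then x J else 0 := by
    intro J₀
    push_cast
    rw [Finset.mul_sum]
    refine Finset.sum_congr rfl fun σ _ => ?_
    by_cases h : J = fun l => J₀ (σ l)
    · have h2 : J₀ = fun l => J (σ⁻¹ l) := by
        funext l
        rw [h]
        simp
      have h3 := hx σ J₀
      rw [← h] at h3
      rw [if_pos h, if_pos h2, h3]
      push_cast
      ring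
    · have h2 : J₀ ≠ fun l => J (σ⁻¹ l) := by
        intro h'
        apply h
        funext l
        rw [h']
        simp
      rw [if_neg h, if_neg h2]
      ring
  rw [Finset.sum_congr rfl (fun J₀ _ => h1 J₀), Finset.sum_comm]
  have h2 : ∀ σ : Equiv.Perm (Fin k), ∑ J₀ : Fin k → Fin n,
      (if J₀ = (fun l => J (σ⁻¹ l)) then x J else 0) = x J := by
    intro σ
    rw [Finset.sum_ite_eq' Finset.univ, if_pos (Finset.mem_univ _)]
  rw [Finset.sum_congr rfl (fun σ _ => h2 σ), Finset.sum_const, Finset.card_univ,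
    Fintype.card_perm, Fintype.card_fin, nsmul_eq_mul]

/-- Integral matrices spanning the matrices of trace zero. -/
def zm {n : ℕ} (i₀ i j : Fin n) : Matrix (Fin n) (Fin n) ℤ :=
  Matrix.single i j 1 - if i = j then Matrix.single i₀ i₀ 1 else 0

theorem zm_sum {n : ℕ} (i₀ : Fin n) (Z : Matrix (Fin n) (Fin n) ℂ) (hZ : trace Z = 0) :
    ∑ i, ∑ j, Z i j • (zm i₀ i j).map (Int.cast : ℤ → ℂ) = Z := by
  have h1 : ∀ i j, (zm i₀ i j).map (Int.cast : ℤ → ℂ) = Matrix.single i j (1 : ℂ) -
      if i = j then Matrix.single i₀ i₀ 1 else 0 := by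
    intro i j
    unfold zm
    ext a b
    by_cases h : i = j
    · simp [h, Matrix.single_apply]
    · simp [h, Matrix.single_apply]
  simp_rw [h1, smul_sub, Finset.sum_sub_distrib]
  have h2 : ∑ i, ∑ j, Z i j • Matrix.single i j (1 : ℂ) = Z := by
    conv_rhs => rw [Matrix.matrix_eq_sum_single Z]
    refine Finset.sum_congr rfl fun i _ => Finset.sum_congr rfl fun j _ => ?_
    rw [Matrix.smul_single, smul_eq_mul, mul_one]
  have h3 : ∑ i, ∑ j, Z i j • (if i = j then Matrix.single i₀ i₀ (1 : ℂ) else 0) = 0 := by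
    have h4 : ∀ i, ∑ j, Z i j • (if i = j then Matrix.single i₀ i₀ (1 : ℂ) else 0) =
        Z i i • Matrix.single i₀ i₀ (1 : ℂ) := by
      intro i
      rw [Finset.sum_eq_single i]
      · rw [if_pos rfl]
      · intro j _ hj
        rw [if_neg hj.symm, smul_zero]
      · intro h
        exact absurd (Finset.mem_univ _) h
    simp_rw [h4]
    rw [← Finset.sum_smul]
    have h5 : ∑ i, Z i i = 0 := hZ
    rw [h5, zero_smul]
  rw [h2, h3, sub_zero]

end GK8

open GK8

theorem r2a_of (h1 : St_spr) (h2 : St_lalg) : St_r2a := by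
  intro d Δ hG _hI n k φ ι hA
  classical
  -- an algebraic basis of the Lie algebra
  have hbm : ∀ X ∈ LieD Δ, ∀ Y ∈ LieD Δ, X * Y - Y * X ∈ LieD Δ :=
    fun X hX Y hY M h1 h2 => h2 _ (hX M h1 h2) _ (hY M h1 h2)
  have hst : ∃ K : Subfield ℂ, FiniteDimensional ℚ K ∧
      ∀ τ : ℂ ≃+* ℂ, (∀ z ∈ K, τ z = z) → ∀ X ∈ LieD Δ, X.map τ ∈ LieD Δ := by
    obtain ⟨K, hK, h3⟩ := hG.eqv
    refine ⟨K, hK, fun τ hτ X hX => ?_⟩
    let M : Submodule ℂ (Matrix (Fin d) (Fin d) ℂ) :=
      { carrier := {X | X.map τ ∈ LieD Δ}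
        add_mem' := by
          intro X Y hX hY
          have h4 : (X + Y).map τ = X.map τ + Y.map τ := by
            ext i j
            exact map_add τ _ _
          show (X + Y).map τ ∈ LieD Δ
          rw [h4]
          exact (LieD Δ).add_mem hX hY
        zero_mem' := by
          have h4 : (0 : Matrix (Fin d) (Fin d) ℂ).map τ = 0 := by
            ext i j
            exact map_zero τ
          show (0 : Matrix (Fin d) (Fin d) ℂ).map τ ∈ LieD Δ
          rw [h4]
          exact (LieD Δ).zero_mem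
        smul_mem' := by
          intro c X hX
          have h4 : (c • X).map τ = τ c • X.map τ := by
            ext i j
            exact map_mul τ _ _
          show (c • X).map τ ∈ LieD Δ
          rw [h4]
          exact (LieD Δ).smul_mem _ hX }
    refine hX M (fun σ => ?_) (fun X hX Y hY => ?_)
    · show (Δ σ).map τ ∈ LieD Δ
      rw [← h3 τ hτ σ]
      exact fun M h1 _ => h1 _
    · have h4 : (X * Y - Y * X).map τ = X.map τ * Y.map τ - Y.map τ * X.map τ := by
        have h5 : ∀ A B : Matrix (Fin d) (Fin d) ℂ, (A * B).map τ = A.map τ * B.map τ :=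
          fun A B => Matrix.map_mul (f := (τ : ℂ →+* ℂ))
        rw [← h5, ← h5]
        ext i j
        exact map_sub τ _ _
      show (X * Y - Y * X).map τ ∈ LieD Δ
      rw [h4]
      exact hbm _ hX _ hY
  obtain ⟨N, X, hLI, hspan, hXa⟩ := h2 d (LieD Δ) hst
  obtain ⟨G, hGa, hGX⟩ := exists_coef hLI hXa
  have hcX : ∀ a b, cf G a (X b) = if a = b then 1 else 0 := hGX
  have hXL : ∀ a, X a ∈ LieD Δ := by
    intro a
    rw [← hspan]
    exact Submodule.subset_span ⟨a, rfl⟩
  have hexp : ∀ Z ∈ LieD Δ, Z = ∑ a, cf G a Z • X a := by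
    intro Z hZ
    rw [← hspan, Submodule.mem_span_range_iff_exists_fun] at hZ
    obtain ⟨c, rfl⟩ := hZ
    refine Finset.sum_congr rfl fun a _ => ?_
    congr 1
    rw [map_sum, Finset.sum_eq_single a]
    · rw [map_smul, hcX, if_pos rfl, smul_eq_mul, mul_one]
    · intro b _ hb
      rw [map_smul, hcX, if_neg hb.symm, smul_zero]
    · intro h
      exact absurd (Finset.mem_univ _) h
  -- the data
  have hn0 : 0 < n := by
    have := hA.kn
    omega
  let i₀ : Fin n := ⟨0, hn0⟩
  obtain ⟨Y, hY⟩ : ∃ Y : Fin N → Matrix (Fin n) (Fin n) ℂ, ∀ a, Y a = φ (X a) :=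
    ⟨_, fun _ => rfl⟩
  obtain ⟨I, hI⟩ : ∃ I : (Fin k → Fin n) → Fin d → ℂ, ∀ J i, I J i = ι (Pi.single i 1) J :=
    ⟨_, fun _ _ => rfl⟩
  have hιv : ∀ (v : Fin d → ℂ) (J : Fin k → Fin n), ι v J = ∑ i, I J i * v i := by
    intro v J
    have h3 : v = ∑ i, v i • Pi.single i (1 : ℂ) := by
      ext i
      rw [Finset.sum_apply, Finset.sum_eq_single i]
      · simp
      · intro j _ hj
        simp [hj.symm]
      · intro h
        exact absurd (Finset.mem_univ _) h
    conv_lhs => rw [h3]
    rw [map_sum, Finset.sum_apply]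
    refine Finset.sum_congr rfl fun i _ => ?_
    rw [map_smul, Pi.smul_apply, smul_eq_mul, hI, mul_comm]
  obtain ⟨g, hg⟩ := LinearMap.exists_leftInverse_of_injective ι (by
    rw [LinearMap.ker_eq_bot']
    exact hA.inj)
  obtain ⟨κ, hκ⟩ : ∃ κ : Fin d → (Fin k → Fin n) → ℂ, ∀ i i', ∑ J, κ i J * I J i' =
      if i = i' then 1 else 0 := by
    refine ⟨fun i J => g (Pi.single J 1) i, fun i i' => ?_⟩
    have h3 := congrFun (LinearMap.congr_fun hg (Pi.single i' 1)) i
    rw [LinearMap.comp_apply] at h3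
    have h4 : ι (Pi.single i' 1) = ∑ J, I J i' • Pi.single J (1 : ℂ) := by
      ext J
      rw [Finset.sum_apply, Finset.sum_eq_single J]
      · simp [hI]
      · intro J' _ hJ
        simp [hJ.symm]
      · intro h
        exact absurd (Finset.mem_univ _) h
    rw [h4, map_sum, Finset.sum_apply] at h3
    rw [LinearMap.id_apply, Pi.single_apply] at h3
    rw [← h3]
    refine Finset.sum_congr rfl fun J _ => ?_
    rw [map_smul, Pi.smul_apply, smul_eq_mul, mul_comm]
  have hω : ∀ J₀ : Fin k → Fin n, ∃ w : Fin d → ℂ, ∀ J, ∑ i, I J i * w i = (at0 J₀ J : ℂ) := by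
    intro J₀
    obtain ⟨w, hw⟩ := hA.sur _ (at0_alt J₀)
    refine ⟨w, fun J => ?_⟩
    rw [← hιv, hw]
  choose ω hω using hω
  have hχ : ∀ i j : Fin n, ∃ c : Fin N → ℂ,
      ∑ a, c a • Y a = (zm i₀ i j).map (Int.cast : ℤ → ℂ) := by
    intro i j
    have h3 : trace ((zm i₀ i j).map (Int.cast : ℤ → ℂ)) = 0 := by
      have h4 : trace (zm i₀ i j) = 0 := by
        unfold zm
        rw [trace_sub]
        by_cases h : i = j
        · rw [if_pos h, h, trace_single_eq_same, trace_single_eq_same, sub_self]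
        · rw [if_neg h, trace_zero, trace_single_eq_of_ne _ _ _ h, sub_zero]
      have h5 : trace ((zm i₀ i j).map (Int.cast : ℤ → ℂ)) = ((trace (zm i₀ i j) : ℤ) : ℂ) := by
        unfold trace
        rw [Int.cast_sum]
        rfl
      rw [h5, h4, Int.cast_zero]
    obtain ⟨Z, hZ, hZφ⟩ := hA.on _ h3
    refine ⟨fun a => cf G a Z, ?_⟩
    rw [← hZφ]
    conv_rhs => rw [hexp Z hZ]
    rw [map_sum]
    refine Finset.sum_congr rfl fun a _ => ?_
    rw [map_smul, hY]
  choose χ hχ using hχ
  -- the specialization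
  obtain ⟨R, f, hS, hmem⟩ := exists_sp h1
    (Set.range (fun p : Fin N × Fin n × Fin n => Y p.1 p.2.1 p.2.2) ∪
      (Set.range (fun p : (Fin k → Fin n) × Fin d => I p.1 p.2) ∪
      (Set.range (fun p : Fin d × (Fin k → Fin n) => κ p.1 p.2) ∪
      (Set.range (fun p : (Fin k → Fin n) × Fin d => ω p.1 p.2) ∪
        Set.range (fun p : Fin n × Fin n × Fin N => χ p.1 p.2.1 p.2.2)))))
    ((Set.finite_range _).union ((Set.finite_range _).union ((Set.finite_range _).union
      ((Set.finite_range _).union (Set.finite_range _)))))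
  have mY : ∀ a i j, Y a i j ∈ R := fun a i j => hmem _ (Or.inl ⟨(a, i, j), rfl⟩)
  have mI : ∀ J i, I J i ∈ R := fun J i => hmem _ (Or.inr (Or.inl ⟨(J, i), rfl⟩))
  have mκ : ∀ i J, κ i J ∈ R := fun i J => hmem _ (Or.inr (Or.inr (Or.inl ⟨(i, J), rfl⟩)))
  have mω : ∀ J i, ω J i ∈ R :=
    fun J i => hmem _ (Or.inr (Or.inr (Or.inr (Or.inl ⟨(J, i), rfl⟩))))
  have mχ : ∀ i j a, χ i j a ∈ R :=
    fun i j a => hmem _ (Or.inr (Or.inr (Or.inr (Or.inr ⟨(i, j, a), rfl⟩))))
  obtain ⟨Y', hY'⟩ : ∃ Y' : Fin N → Matrix (Fin n) (Fin n) ℂ,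
      ∀ a i j, Y' a i j = F R f (Y a i j) :=
    ⟨fun a => Matrix.of fun i j => F R f (Y a i j), fun _ _ _ => rfl⟩
  -- linear relations with coefficients in `R`
  have hlin : ∀ (c : Fin N → ℂ) (Z : Matrix (Fin n) (Fin n) ℂ), (∀ a, c a ∈ R) →
      ∑ a, c a • Y a = Z → ∑ a, F R f (c a) • Y' a = Matrix.of fun i j => F R f (Z i j) := by
    intro c Z hc hZ
    ext i j
    rw [Matrix.of_apply, ← hZ, Matrix.sum_apply, Matrix.sum_apply, F_sum _ _ (fun a _ => by
      rw [Matrix.smul_apply, smul_eq_mul]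
      exact R.mul_mem (hc a) (mY a i j))]
    refine Finset.sum_congr rfl fun a _ => ?_
    rw [Matrix.smul_apply, Matrix.smul_apply, smul_eq_mul, smul_eq_mul, F_mul (hc a) (mY a i j),
      hY']
  obtain ⟨φ', hφ'⟩ : ∃ φ' : Matrix (Fin d) (Fin d) ℂ →ₗ[ℂ] Matrix (Fin n) (Fin n) ℂ,
      ∀ Z, φ' Z = ∑ a, cf G a Z • Y' a := by
    refine ⟨∑ a, (cf G a).smulRight (Y' a), fun Z => ?_⟩
    rw [LinearMap.sum_apply]
    rfl
  have hφX : ∀ b, φ' (X b) = Y' b := by
    intro b
    rw [hφ', Finset.sum_eq_single b]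
    · rw [hcX, if_pos rfl, one_smul]
    · intro a _ ha
      rw [hcX, if_neg ha, zero_smul]
    · intro h
      exact absurd (Finset.mem_univ _) h
  obtain ⟨ι', hι'⟩ : ∃ ι' : (Fin d → ℂ) →ₗ[ℂ] ((Fin k → Fin n) → ℂ),
      ∀ v J, ι' v J = ∑ i, F R f (I J i) * v i := by
    refine ⟨{ toFun := fun v J => ∑ i, F R f (I J i) * v i
              map_add' := fun v w => ?_
              map_smul' := fun c v => ?_ }, fun _ _ => rfl⟩
    · ext J
      simp only [Pi.add_apply, mul_add, Finset.sum_add_distrib]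
    · ext J
      simp only [Pi.smul_apply, smul_eq_mul, RingHom.id_apply, Finset.mul_sum]
      exact Finset.sum_congr rfl fun i _ => by ring
  refine ⟨φ', ι', ⟨hA.k2, hA.kn, ?_, ?_, ?_, ?_, ?_, ?_, ?_, ?_⟩, ?_⟩
  · -- brackets
    have key : ∀ a b, φ' (X a * X b - X b * X a) = Y' a * Y' b - Y' b * Y' a := by
      intro a b
      have hZ := hbm _ (hXL a) _ (hXL b)
      have hZa : ∀ e, IsAlgebraic ℚ (cf G e (X a * X b - X b * X a)) := by
        intro e
        refine cf_alg hGa e fun i j => ?_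
        have h3 : (X a * X b - X b * X a) i j ∈ algebraicClosure ℚ ℂ := by
          rw [Matrix.sub_apply, Matrix.mul_apply, Matrix.mul_apply]
          refine (algebraicClosure ℚ ℂ).sub_mem ?_ ?_
          · exact (algebraicClosure ℚ ℂ).sum_mem fun l _ => (algebraicClosure ℚ ℂ).mul_mem
              (mem_algebraicClosure_iff.2 (hXa _ _ _)) (mem_algebraicClosure_iff.2 (hXa _ _ _))
          · exact (algebraicClosure ℚ ℂ).sum_mem fun l _ => (algebraicClosure ℚ ℂ).mul_mem
              (mem_algebraicClosure_iff.2 (hXa _ _ _)) (mem_algebraicClosure_iff.2 (hXa _ _ _))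
        exact mem_algebraicClosure_iff.1 h3
      have h3 : ∑ e, cf G e (X a * X b - X b * X a) • Y e = Y a * Y b - Y b * Y a := by
        rw [hY a, hY b, ← hA.br _ (hXL a) _ (hXL b)]
        conv_rhs => rw [hexp _ hZ]
        rw [map_sum]
        refine Finset.sum_congr rfl fun e _ => ?_
        rw [map_smul, hY]
      have h4 := hlin _ _ (fun e => hS.mem (hZa e)) h3
      rw [hφ']
      have h5 : ∀ e, cf G e (X a * X b - X b * X a) • Y' e =
          F R f (cf G e (X a * X b - X b * X a)) • Y' e := fun e => by rw [hS.F_alg (hZa e)]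
      rw [Finset.sum_congr rfl (fun e _ => h5 e), h4]
      ext i j
      rw [Matrix.of_apply, Matrix.sub_apply, Matrix.sub_apply, Matrix.mul_apply, Matrix.mul_apply,
        Matrix.mul_apply, Matrix.mul_apply,
        F_sub (R.sum_mem fun l _ => R.mul_mem (mY _ _ _) (mY _ _ _))
          (R.sum_mem fun l _ => R.mul_mem (mY _ _ _) (mY _ _ _)),
        F_sum _ _ (fun l _ => R.mul_mem (mY _ _ _) (mY _ _ _)),
        F_sum _ _ (fun l _ => R.mul_mem (mY _ _ _) (mY _ _ _))]
      congr 1
      · exact Finset.sum_congr rfl fun l _ => by rw [F_mul (mY _ _ _) (mY _ _ _), hY', hY']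
      · exact Finset.sum_congr rfl fun l _ => by rw [F_mul (mY _ _ _) (mY _ _ _), hY', hY']
    have e1 : ∀ a, ∀ Z ∈ LieD Δ, φ' (X a * Z - Z * X a) = Y' a * φ' Z - φ' Z * Y' a := by
      intro a Z hZ
      rw [← hspan] at hZ
      induction hZ using Submodule.span_induction with
      | mem Z hZ =>
        obtain ⟨b, rfl⟩ := hZ
        rw [key, hφX]
      | zero => simp
      | add Z W _ _ h3 h4 =>
        have h5 : X a * (Z + W) - (Z + W) * X a = (X a * Z - Z * X a) + (X a * W - W * X a) := by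
          noncomm_ring
        rw [h5, map_add, h3, h4, map_add]
        noncomm_ring
      | smul c Z _ h3 =>
        have h5 : X a * (c • Z) - (c • Z) * X a = c • (X a * Z - Z * X a) := by
          rw [Matrix.mul_smul, Matrix.smul_mul, smul_sub]
        rw [h5, map_smul, h3, map_smul, Matrix.mul_smul, Matrix.smul_mul, smul_sub]
    intro Z hZ W hW
    rw [← hspan] at hZ
    induction hZ using Submodule.span_induction with
    | mem Z hZ =>
      obtain ⟨a, rfl⟩ := hZ
      rw [e1 a W hW, hφX]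
    | zero => simp
    | add Z V _ _ h3 h4 =>
      have h5 : (Z + V) * W - W * (Z + V) = (Z * W - W * Z) + (V * W - W * V) := by
        noncomm_ring
      rw [h5, map_add, h3, h4, map_add]
      noncomm_ring
    | smul c Z _ h3 =>
      have h5 : (c • Z) * W - W * (c • Z) = c • (Z * W - W * Z) := by
        rw [Matrix.mul_smul, Matrix.smul_mul, smul_sub]
      rw [h5, map_smul, h3, map_smul, Matrix.mul_smul, Matrix.smul_mul, smul_sub]
  · -- traces
    intro Z _
    rw [hφ', trace_sum]
    refine Finset.sum_eq_zero fun a _ => ?_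
    have h3 : trace (Y' a) = 0 := by
      have h4 : trace (Y a) = 0 := by rw [hY]; exact hA.tr _ (hXL a)
      have h5 : trace (Y' a) = F R f (trace (Y a)) := by
        show ∑ i, Y' a i i = F R f (∑ i, Y a i i)
        rw [F_sum _ _ (fun i _ => mY a i i)]
        exact Finset.sum_congr rfl fun i _ => hY' a i i
      rw [h5, h4, F_zero]
    rw [trace_smul, h3, smul_zero]
  · -- surjectivity
    intro Z hZ
    refine ⟨∑ i, ∑ j, Z i j • ∑ a, F R f (χ i j a) • X a,
      Submodule.sum_mem _ fun i _ => Submodule.sum_mem _ fun j _ => Submodule.smul_mem _ _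
        (Submodule.sum_mem _ fun a _ => Submodule.smul_mem _ _ (hXL a)), ?_⟩
    have h3 : ∀ i j, φ' (∑ a, F R f (χ i j a) • X a) = (zm i₀ i j).map (Int.cast : ℤ → ℂ) := by
      intro i j
      have h4 := hlin _ _ (mχ i j) (hχ i j)
      rw [map_sum]
      have h5 : ∀ a, φ' (F R f (χ i j a) • X a) = F R f (χ i j a) • Y' a := fun a => by
        rw [map_smul, hφX]
      rw [Finset.sum_congr rfl (fun a _ => h5 a), h4]
      ext p q
      rw [Matrix.of_apply, Matrix.map_apply, hS.F_alg (alg_int _)]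
    rw [map_sum]
    conv_rhs => rw [← zm_sum i₀ Z hZ]
    refine Finset.sum_congr rfl fun i _ => ?_
    rw [map_sum]
    refine Finset.sum_congr rfl fun j _ => ?_
    rw [map_smul, h3]
  · -- scalars
    rintro Z hZ ⟨c, hc⟩
    by_cases h0 : c = 0
    · rw [hc, h0, zero_smul, map_zero]
    · have h3 : (1 : Matrix (Fin d) (Fin d) ℂ) ∈ LieD Δ := by
        have h4 : (1 : Matrix (Fin d) (Fin d) ℂ) = c⁻¹ • Z := by
          rw [hc, smul_smul, inv_mul_cancel₀ h0, one_smul]
        rw [h4]
        exact Submodule.smul_mem _ _ hZ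
      have h4 : φ 1 = 0 := hA.sc 1 h3 ⟨1, by rw [one_smul]⟩
      have h5 : ∀ a, IsAlgebraic ℚ (cf G a 1) := by
        intro a
        refine cf_alg hGa a fun i j => ?_
        rw [Matrix.one_apply]
        split_ifs
        · exact isAlgebraic_one
        · exact isAlgebraic_zero
      have h6 : ∑ a, cf G a 1 • Y a = 0 := by
        rw [← h4]
        conv_rhs => rw [hexp 1 h3]
        rw [map_sum]
        refine Finset.sum_congr rfl fun a _ => ?_
        rw [map_smul, hY]
      have h7 := hlin _ _ (fun a => hS.mem (h5 a)) h6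
      have h8 : φ' 1 = 0 := by
        rw [hφ']
        have h9 : ∀ a, cf G a 1 • Y' a = F R f (cf G a 1) • Y' a := fun a => by
          rw [hS.F_alg (h5 a)]
        rw [Finset.sum_congr rfl (fun a _ => h9 a), h7]
        ext i j
        rw [Matrix.of_apply, Matrix.zero_apply, F_zero]
      rw [hc, map_smul, h8, smul_zero]
  · -- alternating
    intro v σ J
    rw [hι', hι', Finset.mul_sum]
    refine Finset.sum_congr rfl fun i _ => ?_
    have h3 : I (fun l => J (σ l)) i = ((Equiv.Perm.sign σ : ℤ) : ℂ) * I J i := by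
      rw [hI, hI]
      exact hA.al _ σ J
    rw [h3, F_mul (hS.mem (alg_int _)) (mI J i), hS.F_alg (alg_int _), mul_assoc]
  · -- injective
    intro v hv
    ext i
    have h3 : ∀ i', ∑ J, F R f (κ i J) * F R f (I J i') = if i = i' then 1 else 0 := by
      intro i'
      have h4 := congrArg (F R f) (hκ i i')
      rw [F_sum _ _ (fun J _ => R.mul_mem (mκ i J) (mI J i'))] at h4
      have h5 : F R f (if i = i' then (1 : ℂ) else 0) = if i = i' then 1 else 0 := by
        split_ifs
        · exact hS.F_alg isAlgebraic_one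
        · exact F_zero
      rw [h5] at h4
      rw [← h4]
      exact Finset.sum_congr rfl fun J _ => (F_mul (mκ i J) (mI J i')).symm
    have h4 : v i = ∑ J, F R f (κ i J) * ι' v J := by
      simp_rw [hι', Finset.mul_sum]
      rw [Finset.sum_comm]
      rw [Finset.sum_eq_single i]
      · simp_rw [← mul_assoc]
        rw [← Finset.sum_mul, h3, if_pos rfl, one_mul]
      · intro i' _ hi
        simp_rw [← mul_assoc]
        rw [← Finset.sum_mul, h3, if_neg hi.symm, zero_mul]
      · intro h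
        exact absurd (Finset.mem_univ _) h
    rw [h4, hv]
    simp
  · -- all alternating tensors
    intro x hx
    refine ⟨((k.factorial : ℂ))⁻¹ • fun i => ∑ J₀, x J₀ * F R f (ω J₀ i), ?_⟩
    have h3 : ∀ J₀ J, ∑ i, F R f (I J i) * F R f (ω J₀ i) = (at0 J₀ J : ℂ) := by
      intro J₀ J
      have h4 := congrArg (F R f) (hω J₀ J)
      rw [F_sum _ _ (fun i _ => R.mul_mem (mI J i) (mω J₀ i)), hS.F_alg (alg_int _)] at h4
      rw [← h4]
      exact Finset.sum_congr rfl fun i _ => (F_mul (mI J i) (mω J₀ i)).symm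
    have hk : (k.factorial : ℂ) ≠ 0 := by exact_mod_cast k.factorial_ne_zero
    rw [map_smul]
    ext J
    rw [Pi.smul_apply, hι', smul_eq_mul]
    have h4 : ∑ i, F R f (I J i) * ∑ J₀, x J₀ * F R f (ω J₀ i) =
        ∑ J₀, x J₀ * (at0 J₀ J : ℂ) := by
      simp_rw [Finset.mul_sum]
      rw [Finset.sum_comm]
      refine Finset.sum_congr rfl fun J₀ _ => ?_
      rw [← h3, Finset.mul_sum]
      exact Finset.sum_congr rfl fun i _ => by ring
    rw [h4, at0_sum hx, ← mul_assoc, inv_mul_cancel₀ hk, one_mul]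
  · -- equivariance
    intro Z hZ
    rw [← hspan] at hZ
    induction hZ using Submodule.span_induction with
    | mem Z hZ =>
      obtain ⟨a, rfl⟩ := hZ
      intro v
      rw [hφX]
      have htr : IsAlgebraic ℚ (trace (X a) / d) := by
        have h3 : trace (X a) / (d : ℂ) ∈ algebraicClosure ℚ ℂ :=
          (algebraicClosure ℚ ℂ).div_mem ((algebraicClosure ℚ ℂ).sum_mem fun i _ =>
            mem_algebraicClosure_iff.2 (hXa a i i)) (natCast_mem _ d)
        exact mem_algebraicClosure_iff.1 h3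
      -- the identity for the basis vectors
      have h3 : ∀ J i', ∑ i, I J i * X a i i' =
          ∑ l, ∑ j, Y a (J l) j * I (Function.update J l j) i' + trace (X a) / d * I J i' := by
        intro J i'
        have h4 := congrFun (hA.eqv _ (hXL a) (Pi.single i' 1)) J
        rw [Pi.add_apply, Pi.smul_apply, smul_eq_mul, dm_mulVec_apply, hιv, ← hY] at h4
        rw [hI J i']
        have h5 : ∀ l j, ι (Pi.single i' 1) (Function.update J l j) =
            I (Function.update J l j) i' := fun l j => (hI _ _).symm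
        simp only [h5] at h4
        rw [← h4]
        refine Finset.sum_congr rfl fun i _ => ?_
        congr 1
        rw [mulVec_single_one]
        rfl
      have h4 : ∀ J i', ∑ i, F R f (I J i) * X a i i' =
          ∑ l, ∑ j, Y' a (J l) j * F R f (I (Function.update J l j) i') +
            trace (X a) / d * F R f (I J i') := by
        intro J i'
        have h5 := congrArg (F R f) (h3 J i')
        rw [F_sum _ _ (fun i _ => R.mul_mem (mI J i) (hS.mem (hXa a i i'))),
          F_add (R.sum_mem fun l _ => R.sum_mem fun j _ => R.mul_mem (mY _ _ _) (mI _ _))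
            (R.mul_mem (hS.mem htr) (mI J i')),
          F_sum _ _ (fun l _ => R.sum_mem fun j _ => R.mul_mem (mY _ _ _) (mI _ _)),
          F_mul (hS.mem htr) (mI J i'), hS.F_alg htr] at h5
        have h6 : ∀ l, F R f (∑ j, Y a (J l) j * I (Function.update J l j) i') =
            ∑ j, Y' a (J l) j * F R f (I (Function.update J l j) i') := by
          intro l
          rw [F_sum _ _ (fun j _ => R.mul_mem (mY _ _ _) (mI _ _))]
          exact Finset.sum_congr rfl fun j _ => by rw [F_mul (mY _ _ _) (mI _ _), hY']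
        rw [Finset.sum_congr rfl (fun l _ => h6 l)] at h5
        rw [← h5]
        refine Finset.sum_congr rfl fun i _ => ?_
        rw [F_mul (mI J i) (hS.mem (hXa a i i')), hS.F_alg (hXa a i i')]
      ext J
      rw [Pi.add_apply, Pi.smul_apply, smul_eq_mul, dm_mulVec_apply, hι', hι']
      have h5 : ∑ i, F R f (I J i) * (X a *ᵥ v) i =
          ∑ i', (∑ i, F R f (I J i) * X a i i') * v i' := by
        simp_rw [Matrix.mulVec, dotProduct, Finset.mul_sum, Finset.sum_mul]
        rw [Finset.sum_comm]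
        exact Finset.sum_congr rfl fun i' _ => Finset.sum_congr rfl fun i _ => by ring
      rw [h5]
      simp_rw [h4, hι', add_mul, Finset.sum_add_distrib, Finset.mul_sum, Finset.sum_mul]
      congr 1
      · rw [Finset.sum_comm]
        refine Finset.sum_congr rfl fun l _ => ?_
        rw [Finset.sum_comm]
        exact Finset.sum_congr rfl fun j _ => Finset.sum_congr rfl fun i' _ => by ring
      · exact Finset.sum_congr rfl fun i' _ => by ring
    | zero =>
      intro v
      rw [zero_mulVec, map_zero, map_zero, dm_zero, zero_mulVec, trace_zero, zero_div, zero_smul,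
        add_zero]
    | add Z W _ _ h3 h4 =>
      intro v
      rw [add_mulVec, map_add, h3, h4, map_add, dm_add, add_mulVec, trace_add, add_div, add_smul]
      abel
    | smul c Z _ h3 =>
      intro v
      rw [smul_mulVec, map_smul, h3, map_smul, dm_smul, smul_mulVec, trace_smul, smul_eq_mul,
        mul_div_assoc, mul_smul, smul_add]
  · -- algebraic entries
    intro i j p q
    have h3 : φ' (Matrix.single i j 1) p q ∈ algebraicClosure ℚ ℂ := by
      rw [hφ', Matrix.sum_apply]
      refine (algebraicClosure ℚ ℂ).sum_mem fun a _ => ?_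
      rw [Matrix.smul_apply, smul_eq_mul, hY']
      refine (algebraicClosure ℚ ℂ).mul_mem (mem_algebraicClosure_iff.2 ?_)
        (mem_algebraicClosure_iff.2 (hS.isAlg _))
      refine cf_alg hGa a fun i' j' => ?_
      rw [Matrix.single_apply]
      split_ifs
      · exact isAlgebraic_one
      · exact isAlgebraic_zero
    exact mem_algebraicClosure_iff.1 h3

end

end Pool.Agent.NH32
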