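import Mathlib
import Pool.Agent.NH32.GJ1
import Pool.Agent.NH32.GJ3
import Pool.Agent.NH32.GJ6
import Pool.Agent.NH32.GJ7
import Pool.Agent.NH32.GJ8
import Pool.Agent.NH32.GJ9

/-!
# Project G: relations by lines, the special linear class
-/

set_option linter.unusedSectionVars false

namespace Pool.Agent.NH32

open Matrix Module Pool.Agent.W437.HC Pool.Agent.W437.HD Pool.Agent.TH504.CB Pool.Agent.Y90
open Pool.Agent.H204R3.CM (IsHodge)
open Pool.Agent.W548.Odd hiding cv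

noncomputable section

namespace Gm

variable {B : Type} [Fintype B] [DecidableEq B] {Om : Matrix B B ℂ}
  {L : Submodule ℂ (Matrix B B ℂ)}

/-- The functional `f` on `L` is the opposite of a sum of lines, with the corresponding product of
scalars. -/
def Rl (L : Submodule ℂ (Matrix B B ℂ)) (v : USp Om) (f : Matrix B B ℂ → ℂ) (c : ℂ) : Prop :=
  ∃ l : List (Matrix B B ℂ × ℂ), (∀ p ∈ l, Li L p.1 ∧ mt v * p.1 = p.2 • p.1) ∧
    (∀ X ∈ L, f X + (l.map fun p => fc p.1 X).sum = 0) ∧ c * (l.map fun p => p.2).prod = 1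

theorem Mi_st (hO : IsOm Om) (hL : LD Om L) {F : Matrix B B ℂ} (h : Mi L F) : Mi L (st Om F) := by
  obtain ⟨h1, h2, h3, h4, h5⟩ := h
  refine ⟨WJ12.st_CM hO hL h1, ?_, ?_, ?_, fun M hM => ?_⟩
  · rw [← WJ12.st_mul hO, h2]
  · rw [GJ3.st_H hO, h3]
  · intro h0
    apply h4
    rw [← WJ12.st_st hO F, h0]
    unfold st
    simp
  · obtain ⟨c, hc⟩ := h5 _ (WJ12.st_CM hO hL hM)
    refine ⟨c, ?_⟩
    have h6 := congrArg (st Om) hc
    rw [WJ12.st_mul hO, WJ12.st_mul hO, WJ12.st_st hO, WJ12.st_smul] at h6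
    rw [mul_assoc]
    exact h6

theorem v_st (hO : IsOm Om) (hL : LD Om L) {v : USp Om}
    (hv : ∀ x ∈ InvL L (Fin 2), kp (Fin 2) (mt v) *ᵥ x = x) {F : Matrix B B ℂ} (h : Mi L F)
    {mu : ℂ} (hF : mt v * F = mu • F) : mu ≠ 0 ∧ mt v * st Om F = mu⁻¹ • st Om F := by
  have hmu : mu ≠ 0 := by
    rintro rfl
    rw [zero_smul] at hF
    have h1 : F = mt v⁻¹ * (mt v * F) := by rw [← mul_assoc, mt_inv_mul, one_mul]
    rw [hF, mul_zero] at h1
    exact h.2.2.2.1 h1
  refine ⟨hmu, ?_⟩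
  have h1 : F * mt v = mu • F := by rw [← GJ3.comm_f2 hO hL hv h.1, hF]
  have h2 := congrArg (st Om) h1
  have h3 : st Om (mt v) = mt v⁻¹ := by
    rw [hO.inv_eq]
    unfold st
    noncomm_ring
  rw [WJ12.st_mul hO, WJ12.st_smul, h3] at h2
  have h4 : st Om F = mu • (mt v * st Om F) := by
    calc st Om F = mt v * (mt v⁻¹ * st Om F) := by rw [← mul_assoc, mt_mul_inv, one_mul]
      _ = _ := by rw [h2, Matrix.mul_smul]
  conv_rhs => rw [h4]
  rw [smul_smul, inv_mul_cancel₀ hmu, one_smul]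

theorem fc_st (hO : IsOm Om) (hL : LD Om L) {F X : Matrix B B ℂ} (hX : X ∈ L) :
    fc (st Om F) X = -fc F X := by
  have h1 : X * st Om F = -st Om (F * X) := by
    rw [WJ12.st_mul hO, WJ12.st_L hO hL hX, neg_mul, neg_neg]
  unfold fc
  rw [h1, trace_neg, WJ12.trace_st hO, WJ12.trace_st hO, trace_mul_comm, neg_div]

variable {v : USp Om} {f g : Matrix B B ℂ → ℂ} {c d : ℂ}

theorem Rl.zero (h : ∀ X ∈ L, f X = 0) : Rl L v f 1 :=
  ⟨[], fun _ hp => absurd hp (List.not_mem_nil), fun X hX => by simp [h X hX], by simp⟩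

theorem Rl.congr (hf : Rl L v f c) (h : ∀ X ∈ L, g X = f X) (hc : d = c) : Rl L v g d := by
  obtain ⟨l, h1, h2, h3⟩ := hf
  exact ⟨l, h1, fun X hX => by rw [h X hX, h2 X hX], by rw [hc, h3]⟩

theorem Rl.add (hf : Rl L v f c) (hg : Rl L v g d) : Rl L v (fun X => f X + g X) (c * d) := by
  obtain ⟨l, h1, h2, h3⟩ := hf
  obtain ⟨l', h1', h2', h3'⟩ := hg
  refine ⟨l ++ l', fun p hp => ?_, fun X hX => ?_, ?_⟩
  · rcases List.mem_append.1 hp with hp | hp
    · exact h1 p hp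
    · exact h1' p hp
  · rw [List.map_append, List.sum_append]
    have e1 := h2 X hX
    have e2 := h2' X hX
    linear_combination e1 + e2
  · rw [List.map_append, List.prod_append]
    calc c * d * ((l.map fun p => p.2).prod * (l'.map fun p => p.2).prod)
        = (c * (l.map fun p => p.2).prod) * (d * (l'.map fun p => p.2).prod) := by ring
      _ = 1 := by rw [h3, h3', one_mul]

theorem Rl.ne (hf : Rl L v f c) : c ≠ 0 := by
  obtain ⟨l, -, -, h3⟩ := hf
  rintro rfl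
  rw [zero_mul] at h3
  exact zero_ne_one h3

theorem Rl.neg (hO : IsOm Om) (hL : LD Om L) (hv : FixU Om L v) (hf : Rl L v f c) :
    Rl L v (fun X => -f X) c⁻¹ := by
  have hc := hf.ne
  obtain ⟨l, h1, h2, h3⟩ := hf
  refine ⟨l.map fun p => (st Om p.1, p.2⁻¹), fun p hp => ?_, fun X hX => ?_, ?_⟩
  · obtain ⟨q, hq, rfl⟩ := List.mem_map.1 hp
    obtain ⟨h4, h5⟩ := h1 q hq
    exact ⟨GJ3.Li_st hO hL h4, (v_st hO hL hv.f2 h4.1 h5).2⟩
  · have h4 : ((l.map fun p => (st Om p.1, p.2⁻¹)).map fun p => fc p.1 X) =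
        l.map fun p => -fc p.1 X := by
      rw [List.map_map]
      refine List.map_congr_left fun p _ => ?_
      exact fc_st hO hL hX
    have h5 : (l.map fun p => -fc p.1 X).sum = -(l.map fun p => fc p.1 X).sum := by
      clear h1 h2 h3 h4
      induction l with
      | nil => simp
      | cons a l ih => rw [List.map_cons, List.sum_cons, ih, List.map_cons, List.sum_cons]; ring
    rw [h4, h5]
    linear_combination -h2 X hX
  · have h4 : ((l.map fun p => (st Om p.1, p.2⁻¹)).map fun p => p.2) = l.map fun p => p.2⁻¹ := by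
      rw [List.map_map]
      rfl
    have h5 : (l.map fun p => p.2⁻¹).prod = ((l.map fun p => p.2).prod)⁻¹ := by
      clear h1 h2 h3 h4
      induction l with
      | nil => simp
      | cons a l ih => rw [List.map_cons, List.prod_cons, ih, List.map_cons, List.prod_cons,
          mul_inv]
    rw [h4, h5, ← mul_inv, h3, inv_one]

theorem Rl.line (hO : IsOm Om) (hL : LD Om L) (hv : FixU Om L v) {F : Matrix B B ℂ} (hF : Li L F)
    {b : ℂ} (hb : mt v * F = b • F) : Rl L v (fun X => fc F X) b := by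
  obtain ⟨h1, h2⟩ := v_st hO hL hv.f2 hF.1 hb
  refine ⟨[(st Om F, b⁻¹)], fun p hp => ?_, fun X hX => ?_, ?_⟩
  · rw [List.mem_singleton.1 hp]
    exact ⟨GJ3.Li_st hO hL hF, h2⟩
  · simp [fc_st hO hL hX]
  · simp [h1]

theorem Rl.sum {ι : Type} (s : Finset ι) {f : ι → Matrix B B ℂ → ℂ} {c : ι → ℂ}
    (h : ∀ i ∈ s, Rl L v (f i) (c i)) : Rl L v (fun X => ∑ i ∈ s, f i X) (∏ i ∈ s, c i) := by
  classical
  induction s using Finset.induction_on with
  | empty => exact (Rl.zero (f := fun _ => 0) fun _ _ => rfl).congr (fun X _ => by simp) (by simp)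
  | insert a s ha ih =>
    have h1 := (h a (Finset.mem_insert_self a s)).add (ih fun i hi => h i (Finset.mem_insert_of_mem hi))
    exact h1.congr (fun X _ => Finset.sum_insert ha) (Finset.prod_insert ha)

theorem Rl.nsmul (hf : Rl L v f c) (n : ℕ) : Rl L v (fun X => (n : ℂ) * f X) (c ^ n) := by
  induction n with
  | zero => exact Rl.congr (Rl.zero (f := fun _ => 0) fun _ _ => rfl) (fun X _ => by simp) (by simp)
  | succ n ih =>
    exact (ih.add hf).congr (fun X _ => by push_cast; ring) (pow_succ c n)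

theorem Rl.zsmul (hO : IsOm Om) (hL : LD Om L) (hv : FixU Om L v) (hf : Rl L v f c) (n : ℤ) :
    Rl L v (fun X => (n : ℂ) * f X) (c ^ n) := by
  rcases n with n | n
  · exact (hf.nsmul n).congr (fun X _ => by simp) (by simp)
  · refine ((hf.nsmul (n + 1)).neg hO hL hv).congr (fun X _ => ?_) ?_
    · push_cast
      ring
    · rw [zpow_negSucc]

/-- Conversion to the form used in the definition of `Cls`. -/
theorem Rl.fin {κ : Type} [Fintype κ] {e : κ → Matrix B B ℂ} {lam : κ → ℂ}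
    (h : Rl L v (fun X => ∑ k, fc (e k) X) (∏ k, lam k)) :
    ∃ (n : ℕ) (F : Fin n → Matrix B B ℂ) (mu : Fin n → ℂ),
      (∀ j, Li L (F j) ∧ mt v * F j = mu j • F j) ∧
      (∀ X ∈ L, ∑ k, fc (e k) X + ∑ j, fc (F j) X = 0) ∧ (∏ k, lam k) * ∏ j, mu j = 1 := by
  obtain ⟨l, h1, h2, h3⟩ := h
  refine ⟨l.length, fun j => (l.get j).1, fun j => (l.get j).2, fun j => h1 _ (List.get_mem l j),
    fun X hX => ?_, ?_⟩
  · have h4 : ∑ j, fc (l.get j).1 X = (l.map fun p => fc p.1 X).sum := by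
      rw [← List.sum_ofFn]
      congr 1
      conv_rhs => rw [← List.ofFn_get l, List.map_ofFn]
      rfl
    rw [h4]
    exact h2 X hX
  · have h4 : ∏ j, (l.get j).2 = (l.map fun p => p.2).prod := by
      rw [← List.prod_ofFn]
      congr 1
      conv_rhs => rw [← List.ofFn_get l, List.map_ofFn]
      rfl
    rw [h4]
    exact h3

/-- Linked modules. -/
theorem Rl.link (hO : IsOm Om) (hL : LD Om L) {Dm : (ℂ ≃+* ℂ) → Matrix B B ℂ} (H : Hull L Dm)
    (hv : FixU Om L v) {e e' M : Matrix B B ℂ} {a a' : ℂ} (he : Mi L e) (he' : Mi L e')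
    (h0 : M ≠ 0) (h1 : e * M = M) (h2 : M * e' = M) (hM : ∀ X ∈ Dr L, X * M = M * X)
    (ha : mt v * e = a • e) (ha' : mt v * e' = a' • e') :
    Rl L v (fun X => fc e' X - fc e X) (a' * a⁻¹) := by
  obtain ⟨F, F', b, b', hF, hF', hb, hb', h3, h4⟩ :=
    rel_of B Om L hO hL Dm H v hv e e' M a a' he he' h0 h1 h2 hM ha ha'
  have h5 := (v_st hO hL hv.f2 he ha).1
  refine ((Rl.line hO hL hv hF hb).add (Rl.line hO hL hv hF' hb')).congr (fun X hX => ?_) ?_
  · rw [← h3 X hX]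
    ring
  · rw [← h4]
    field_simp

/-- The general form of the relations for modules linked to one module. -/
theorem cls_gen (hO : IsOm Om) (hL : LD Om L) {Dm : (ℂ ≃+* ℂ) → Matrix B B ℂ} (H : Hull L Dm)
    (hv : FixU Om L v) {κ : Type} [Fintype κ] (S : Finset κ) (e : κ → Matrix B B ℂ) (lam : κ → ℂ)
    (he : ∀ k ∈ S, Mi L (e k)) (hl : ∀ k ∈ S, mt v * e k = lam k • e k) {e₁ : Matrix B B ℂ}
    {l₁ : ℂ} (he₁ : Mi L e₁) (hl₁ : mt v * e₁ = l₁ • e₁) (s : κ → Bool)
    (hM : ∀ k ∈ S, ∃ M : Matrix B B ℂ, M ≠ 0 ∧ e₁ * M = M ∧ (∀ X ∈ Dr L, X * M = M * X) ∧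
      M * (if s k then e k else st Om (e k)) = M) (N : ℕ)
    (hN : Rl L v (fun X => (N : ℂ) * fc e₁ X) (l₁ ^ N))
    (hd : (N : ℤ) ∣ ∑ k ∈ S, (if s k then (1 : ℤ) else -1)) :
    Rl L v (fun X => ∑ k ∈ S, fc (e k) X) (∏ k ∈ S, lam k) := by
  have hl0 := (v_st hO hL hv.f2 he₁ hl₁).1
  have h1 : ∀ k ∈ S, Rl L v (fun X => fc (e k) X - ((if s k then (1 : ℤ) else -1 : ℤ) : ℂ) * fc e₁ X)
      (lam k * l₁ ^ (-(if s k then (1 : ℤ) else -1))) := by
    intro k hk
    obtain ⟨M, h0, h2, h3, h4⟩ := hM k hk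
    have hk0 := (v_st hO hL hv.f2 (he k hk) (hl k hk)).1
    cases hs : s k with
    | true =>
      rw [hs, if_pos rfl] at h4
      refine (Rl.link hO hL H hv he₁ (he k hk) h0 h2 h4 h3 hl₁ (hl k hk)).congr (fun X _ => ?_) ?_
      · simp
      · simp
    | false =>
      rw [hs, if_neg (by simp)] at h4
      have h5 := (v_st hO hL hv.f2 (he k hk) (hl k hk)).2
      refine ((Rl.link hO hL H hv he₁ (Mi_st hO hL (he k hk)) h0 h2 h4 h3 hl₁ h5).neg hO hL
        hv).congr (fun X hX => ?_) ?_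
      · rw [fc_st hO hL hX]
        simp
        ring
      · simp
        field_simp
  obtain ⟨m, hm⟩ := hd
  have h2 := (Rl.sum S h1).add (hN.zsmul hO hL hv m)
  refine h2.congr (fun X _ => ?_) ?_
  · rw [Finset.sum_sub_distrib, ← Finset.sum_mul]
    have h3 : ((∑ k ∈ S, ((if s k then (1 : ℤ) else -1 : ℤ) : ℂ))) = (N : ℂ) * m := by
      rw [← Int.cast_sum, hm]
      push_cast
      ring
    rw [h3]
    ring
  · rw [Finset.prod_mul_distrib]
    have h3 : ∏ k ∈ S, l₁ ^ (-(if s k then (1 : ℤ) else -1)) = l₁ ^ (-((N : ℤ) * m)) := by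
      rw [← hm]
      clear hM hN hm h1 h2 he hl
      classical
      induction S using Finset.induction_on with
      | empty => simp
      | insert a S ha ih =>
        rw [Finset.prod_insert ha, ih, Finset.sum_insert ha, ← zpow_add₀ hl0]
        congr 1
        ring
    rw [h3, ← zpow_natCast, ← _root_.zpow_mul, mul_assoc, ← zpow_add₀ hl0]
    simp

/-- The special linear class. -/
theorem slcls (hO : IsOm Om) (hL : LD Om L) {Dm : (ℂ ≃+* ℂ) → Matrix B B ℂ} (H : Hull L Dm)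
    {T : Set (Matrix B B ℂ)} {e₀ : Matrix B B ℂ}
    (hT : ∀ e ∈ T, Ide L e = Ide L e₀ → Sl L e) : Cls Om L T e₀ := by
  intro v hv κ _ _ e lam hk x hx hex hdx
  by_cases hne : Nonempty κ
  · obtain ⟨k₀⟩ := hne
    have hSl : ∀ k, Sl L (e k) := fun k => hT _ (hk k).1 (hk k).2.1
    have h1 : ∀ k, ∃ (M : Matrix B B ℂ) (s : Bool), M ≠ 0 ∧ e k₀ * M = M ∧
        (∀ X ∈ Dr L, X * M = M * X) ∧ M * (if s then e k else st Om (e k)) = M := by
      intro k
      obtain ⟨M, h0, h2, h3, h4⟩ := link_of B Om L hO hL (e k₀) (e k) (hSl k₀) (hSl k)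
        ((hk k).2.1.trans (hk k₀).2.1.symm)
      rcases h4 with h4 | h4
      · exact ⟨M, true, h0, h2, h3, by rw [if_pos rfl]; exact h4⟩
      · exact ⟨M, false, h0, h2, h3, by rw [if_neg (by simp)]; exact h4⟩
    choose M s hM using h1
    obtain ⟨d, F, b, hd, hF, hF2, hF3⟩ := dl_of B Om L hO hL Dm H v hv (e k₀) (lam k₀) (hSl k₀).1
      (hk k₀).2.2
    have hN : Rl L v (fun X => (d : ℂ) * fc (e k₀) X) (lam k₀ ^ d) := by
      have h2 := (Rl.sum Finset.univ fun j (_ : j ∈ Finset.univ) =>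
        Rl.line hO hL hv (hF j).1 (hF j).2).neg hO hL hv
      refine h2.congr (fun X hX => ?_) ?_
      · linear_combination hF2 X hX
      · exact eq_inv_of_mul_eq_one_left hF3
    have h2 := cnt_of B Om L hO hL (e k₀) d (hSl k₀) hd κ e M s (fun k => ⟨(hSl k).1, (hM k).1,
      (hM k).2.1, (hM k).2.2.1, (hM k).2.2.2⟩) x hx hex (by rw [(hk k₀).2.1]; exact hdx)
    exact (cls_gen hO hL H hv Finset.univ e lam (fun k _ => (hSl k).1) (fun k _ => (hk k).2.2)
      (hSl k₀).1 (hk k₀).2.2 s (fun k _ => ⟨M k, hM k⟩) d hN h2).fin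
  · have h1 : IsEmpty κ := not_nonempty_iff.1 hne
    exact ⟨0, fun j => j.elim0, fun j => j.elim0, fun j => j.elim0, fun X _ => by simp, by simp⟩

end Gm

end

end Pool.Agent.NH32
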