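import Mathlib
import Pool.Agent.NH32.GC2
import Pool.Agent.NH32.GC3
import Pool.Agent.NH32.GC4
import Pool.Agent.NH32.GC5
import Pool.Agent.NH32.GC1

/-!
# Project G: the classification of the root data of level one
-/

set_option linter.unusedSectionVars false

namespace Pool.Agent.NH32

open Matrix

noncomputable section

namespace Gm

theorem RS_neg {r : ℕ} {Φ : Finset (Fin r → ℝ)} {h : Fin r → ℝ} (H : RS Φ h) : RS Φ (-h) where
  z := H.z
  neg := H.neg
  rfl := H.rfl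
  int := H.int
  red := H.red
  spn := H.spn
  irr := H.irr
  lev := by
    intro γ hγ
    rw [dotProduct_neg]
    rcases H.lev γ hγ with h1 | h1 | h1
    · left; rw [h1, neg_zero]
    · right; right; rw [h1]
    · right; left; rw [h1, neg_neg]
  ex := by
    obtain ⟨γ, hγ, h1⟩ := H.ex
    exact ⟨-γ, H.neg γ hγ, by rw [dotProduct_neg, neg_dotProduct, neg_neg, h1]⟩

theorem MW_neg {r : ℕ} {Φ : Finset (Fin r → ℝ)} {h : Fin r → ℝ} {S : Finset (Fin r → ℝ)}
    (H : MW Φ h S) : MW Φ (-h) S where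
  ne := H.ne
  nz := H.nz
  rfl := H.rfl
  min := H.min
  tr := H.tr
  two := by
    obtain ⟨a, ha⟩ := H.two
    refine ⟨1 - a, fun s hs => ?_⟩
    rw [dotProduct_neg]
    rcases ha s hs with h1 | h1
    · right; rw [h1]; ring
    · left; rw [h1]; ring

/-- The classification. -/
theorem cls0 {r : ℕ} {Φ : Finset (Fin r → ℝ)} {h : Fin r → ℝ} {S : Finset (Fin r → ℝ)}
    (H : RS Φ h) (HS : MW Φ h S) :
    Ty1 Φ S ∨ Ty2 Φ S ∨ Ty3 Φ h S ∨ Ty4 Φ h S ∨ Ty5 Φ S ∨ Ty6 Φ S := by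
  by_cases hl : ∃ c, ∀ γ ∈ Φ, γ ⬝ᵥ γ = c
  · have hno : No0 Φ h → Ty1 Φ S ∨ Ty2 Φ S ∨ Ty3 Φ h S ∨ Ty4 Φ h S ∨ Ty5 Φ S ∨ Ty6 Φ S := by
      intro h0
      rcases c4_of gen_of pai_of r Φ h S H HS hl h0 with h1 | h1
      · exact Or.inl h1
      · exact Or.inr (Or.inr (Or.inl h1))
    by_cases hc : ∀ s ∈ S, ∀ γ₁ ∈ Φ, ∀ γ₂ ∈ Φ, γ₁ ⬝ᵥ h = 0 →
        γ₂ ⬝ᵥ h = 0 → pr γ₁ s = 1 → pr γ₂ s = 1 → γ₁ ⬝ᵥ γ₂ ≠ 0
    · rcases c3_of gen_of wtr_of pai_of r Φ h S H HS hl hc with h1 | h1 | h1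
      · exact Or.inl h1
      · exact Or.inr (Or.inl h1)
      · exact hno h1
    · push Not at hc
      obtain ⟨s, hs, γ₁, h1, γ₂, h2, h3, h4, h5, h6, h7⟩ := hc
      obtain ⟨a, ha⟩ := HS.two
      rcases ha s hs with h8 | h8
      · have h9 : ∀ s' ∈ S, s' ⬝ᵥ h ≤ s ⬝ᵥ h := by
          intro s' hs'
          rcases ha s' hs' with h9 | h9 <;> rw [h8, h9] <;> linarith
        rcases c2_of gen_of wtr_of pai_of r Φ h S H HS hl s hs h9 γ₁ h1 γ₂ h2 h3 h4 h5 h6 h7
          with h10 | h10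
        · exact hno h10
        · exact Or.inr (Or.inr (Or.inr (Or.inl h10)))
      · have h9 : ∀ s' ∈ S, s' ⬝ᵥ (-h) ≤ s ⬝ᵥ (-h) := by
          intro s' hs'
          rw [dotProduct_neg, dotProduct_neg]
          rcases ha s' hs' with h9 | h9 <;> rw [h8, h9] <;> linarith
        rcases c2_of gen_of wtr_of pai_of r Φ (-h) S (RS_neg H) (MW_neg HS) hl s hs h9 γ₁ h1 γ₂ h2
          (by rw [dotProduct_neg, h3, neg_zero]) (by rw [dotProduct_neg, h4, neg_zero]) h5 h6 h7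
          with h10 | h10
        · refine hno fun α hα β hβ hα1 hβ1 h11 => ?_
          refine h10 (-α) (H.neg α hα) (-β) (H.neg β hβ) ?_ ?_ ?_
          · rw [dotProduct_neg, neg_dotProduct, neg_neg, hα1]
          · rw [dotProduct_neg, neg_dotProduct, neg_neg, hβ1]
          · rw [dotProduct_neg, neg_dotProduct, neg_neg, h11]
        · refine Or.inr (Or.inr (Or.inr (Or.inl ?_)))
          obtain ⟨n, c, e, g1, g2, g3, g4, i₀, g5, g6⟩ := h10
          refine ⟨n, c, e, g1, g2, g3, g4, i₀, ?_, fun i hi => ?_⟩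
          · rw [dotProduct_neg] at g5
            rcases g5 with g5 | g5
            · right; linarith
            · left; linarith
          · have g7 := g6 i hi
            rw [dotProduct_neg] at g7
            linarith
  · rcases c5_of pai_of r Φ h S H HS hl with h1 | h1
    · exact Or.inr (Or.inr (Or.inr (Or.inr (Or.inl h1))))
    · exact Or.inr (Or.inr (Or.inr (Or.inr (Or.inr h1))))

end Gm

end

end Pool.Agent.NH32
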