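import Mathlib
import Pool.Agent.NH32.GmA
import Pool.Agent.NH32.GmB
import Pool.Agent.NH32.GtB
import Pool.Agent.NH32.GC6
import Pool.Agent.NH32.GC7
import Pool.Agent.NH32.GJ1
import Pool.Agent.NH32.GJ2

/-!
# Project G: the relations of the classes which are not special linear
-/

set_option linter.unusedSectionVars false

namespace Pool.Agent.NH32

open Matrix Module Pool.Agent.W437.HC Pool.Agent.W437.HD Pool.Agent.TH504.CB Pool.Agent.Y90
open Pool.Agent.H204R3.CM (IsHodge)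
open Pool.Agent.W548.Odd hiding cv
open scoped ComplexOrder

noncomputable section

namespace Gm

variable {B : Type} [Fintype B] [DecidableEq B] {Om : Matrix B B ℂ}
  {L : Submodule ℂ (Matrix B B ℂ)} {r : ℕ} {T : Fin r → Matrix B B ℂ}
  {Φ : Finset (Fin r → ℝ)} {X : (Fin r → ℝ) → Matrix B B ℂ} {h : Fin r → ℝ}

/-- The data for `e₀` are data for each pure `e` with the same ideal. -/
theorem Rd_tr {e₀ D : Matrix B B ℂ} (H : Rd Om L e₀ D r T Φ X h) {e : Matrix B B ℂ} (he : Pu L e)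
    (hI : Ide L e = Ide L e₀) : Rd Om L e D r T Φ X h where
  om := H.om
  ld := H.ld
  pu := he
  dm := H.dm
  dh := H.dh
  d2 := H.d2
  rv := by rw [hI]; exact H.rv
  dn := by
    intro c hc
    obtain ⟨γ, hγ, h1⟩ := H.rv.rs.ex
    have h2 : X γ ∈ Ide L e := by rw [hI]; exact (H.rv.Xm γ hγ).1
    have h3 : X γ ∈ L := GJ1.Dr_le H.ld h2.1
    have h4 : D * X γ - X γ * D = (2 : ℂ) • X γ := by
      rw [H.rv.tv.d (X γ) (H.rv.Xm γ hγ).1, H.rv.Xw γ hγ, dotProduct_smul, h1]
      norm_num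
    have h5 : e * X γ = X γ * e := (he.1.1 _ h3).symm
    have h6 : (D * X γ - X γ * D) * e = 0 := by
      rw [sub_mul, mul_assoc, mul_assoc, hc, ← h5, ← mul_assoc, hc, Matrix.smul_mul,
        Matrix.mul_smul, h5, sub_self]
    rw [h4, Matrix.smul_mul] at h6
    have h7 : X γ * e = 0 := (smul_eq_zero.1 h6).resolve_left two_ne_zero
    exact (H.rv.Xm γ hγ).2.1 (GJ1.Ide_zero H.ld he.1.1 he.1.2.2.1 h2 h7)

theorem tor_single (T : Fin r → Matrix B B ℂ) (i : Fin r) : tor T (Pi.single i 1) = T i := by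
  unfold tor
  rw [Finset.sum_eq_single i]
  · simp
  · intro j _ hj
    rw [Pi.single_eq_of_ne hj]
    simp
  · intro h
    exact absurd (Finset.mem_univ _) h

/-- Tensors killed by the torus have a component of weight zero. -/
theorem wt0 {κ : Type} [Fintype κ] [DecidableEq κ] {e : κ → Matrix B B ℂ}
    {S : κ → Finset (Fin r → ℝ)} {v : κ → (Fin r → ℝ) → B → ℂ} (hTH : ∀ i, (T i)ᴴ = T i)
    (hV : ∀ k, MV T Φ X h (e k) (S k) (v k)) {x : (κ → B) → ℂ} (hx : x ≠ 0)
    (hex : kpp e *ᵥ x = x) (hT : ∀ i, dm κ (T i) *ᵥ x = 0) :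
    ∃ s : κ → Fin r → ℝ, (∀ k, s k ∈ S k) ∧ ∑ k, s k = 0 := by
  obtain ⟨P, hP⟩ : ∃ P : (κ → Fin r → ℝ) → Matrix (κ → B) (κ → B) ℂ, ∀ s, P s =
    kpp fun k => vecMulVec (v k (s k)) (star (v k (s k))) := ⟨_, fun _ => rfl⟩
  have h1 : kpp e = ∑ s ∈ Fintype.piFinset S, P s := by
    ext I J
    rw [kpp_apply, Matrix.sum_apply]
    have h2 : ∀ k, e k (I k) (J k) =
        ∑ s ∈ S k, vecMulVec (v k s) (star (v k s)) (I k) (J k) := by
      intro k
      conv_lhs => rw [(hV k).ee]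
      rw [Matrix.sum_apply]
    rw [Finset.prod_congr rfl fun k _ => h2 k, Finset.prod_univ_sum]
    refine Finset.sum_congr rfl fun s _ => ?_
    rw [hP]
    rfl
  obtain ⟨s, hs, hne⟩ : ∃ s ∈ Fintype.piFinset S, P s *ᵥ x ≠ 0 := by
    by_contra hcon
    push Not at hcon
    apply hx
    rw [← hex, h1, sum_mulVec]
    exact Finset.sum_eq_zero fun s hs => hcon s hs
  rw [Fintype.mem_piFinset] at hs
  refine ⟨s, hs, ?_⟩
  funext i
  have h2 : ∀ k, T i * vecMulVec (v k (s k)) (star (v k (s k))) =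
      ((s k i : ℝ) : ℂ) • vecMulVec (v k (s k)) (star (v k (s k))) := by
    intro k
    have h3 := (hV k).Tv (s k) (hs k) (Pi.single i 1)
    rw [tor_single, single_dotProduct, one_mul] at h3
    rw [mul_vecMulVec, h3, smul_vecMulVec]
  have h3 : dm κ (T i) * P s = (∑ k, ((s k i : ℝ) : ℂ)) • P s := by
    rw [hP]
    exact WJ2.dm_mul_kpp h2
  have h4 : (P s)ᴴ = P s := by
    rw [hP, kpp_conjTranspose]
    congr 1
    funext k
    rw [conjTranspose_vecMulVec, star_star]
  have h5 : P s * dm κ (T i) = (∑ k, ((s k i : ℝ) : ℂ)) • P s := by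
    have h6 := congrArg conjTranspose h3
    rw [conjTranspose_mul, dm_conjTranspose, hTH, h4, conjTranspose_smul, h4] at h6
    rw [h6]
    congr 1
    rw [← Complex.ofReal_sum]
    exact Complex.conj_ofReal _
  have h6 : (∑ k, ((s k i : ℝ) : ℂ)) • (P s *ᵥ x) = 0 := by
    rw [← smul_mulVec, ← h5, ← mulVec_mulVec, hT, mulVec_zero]
  have h7 := (smul_eq_zero.1 h6).resolve_right hne
  rw [← Complex.ofReal_sum] at h7
  rw [Finset.sum_apply, Pi.zero_apply]
  exact_mod_cast h7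

/-- The commutant of the derived algebra. -/
theorem cDr (hL : LD Om L) {e K : Matrix B B ℂ} (he : Mi L e) (hK : ∀ Y ∈ Dr L, Y * K = K * Y) :
    ∃ c : ℂ, e * K * e = c • e := by
  have h1 : e * K * e ∈ CM L := by
    intro Y hY
    obtain ⟨z, hz, hzL, d, hd, rfl⟩ := GJ1.L_dec hL hY
    have h2 := GJ7.ce_scal he hz.1 (hz.2 e he.1)
    have h3 : e * z = z * e := hz.2 e he.1
    have h4 : d * e = e * d := he.1 d (GJ1.Dr_le hL hd)
    have h5 : z * (e * K * e) = e * K * e * z := by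
      rw [mul_assoc (e * K) e z, h3, h2, Matrix.mul_smul, ← mul_assoc, ← mul_assoc, h2,
        Matrix.smul_mul, Matrix.smul_mul]
    have h6 : d * (e * K * e) = e * K * e * d := by
      calc d * (e * K * e) = (d * e) * K * e := by simp only [mul_assoc]
        _ = e * (d * K) * e := by rw [h4]; simp only [mul_assoc]
        _ = e * K * (d * e) := by rw [hK d hd]; simp only [mul_assoc]
        _ = _ := by rw [h4]; simp only [mul_assoc]
    rw [add_mul, mul_add, h5, h6]
  obtain ⟨c, hc⟩ := he.2.2.2.2 _ h1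
  refine ⟨c, ?_⟩
  rw [← hc]
  calc e * K * e = (e * e) * K * (e * e) := by rw [he.2.1]
    _ = _ := by simp only [mul_assoc]

theorem adj_Dr (hL : LD Om L) {M : Matrix B B ℂ} (hM : ∀ Y ∈ Dr L, Y * M = M * Y) :
    ∀ Y ∈ Dr L, Y * Mᴴ = Mᴴ * Y := by
  intro Y hY
  have h1 := congrArg conjTranspose (hM _ (GJ1.Dr_adj hL hY))
  rw [conjTranspose_mul, conjTranspose_mul, conjTranspose_conjTranspose] at h1
  exact h1.symm

/-- Intertwiners are invertible. -/
theorem itw_inv (hL : LD Om L) {e e' M : Matrix B B ℂ} (he : Mi L e) (he' : Mi L e')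
    (h0 : M ≠ 0) (h1 : e * M = M) (h2 : M * e' = M) (hM : ∀ Y ∈ Dr L, Y * M = M * Y) :
    ∃ c c' : ℂ, c ≠ 0 ∧ c' ≠ 0 ∧ M * Mᴴ = c • e ∧ Mᴴ * M = c' • e' := by
  have h3 : Mᴴ * e = Mᴴ := by
    have h := congrArg conjTranspose h1
    rwa [conjTranspose_mul, he.2.2.1] at h
  have h4 : e' * Mᴴ = Mᴴ := by
    have h := congrArg conjTranspose h2
    rwa [conjTranspose_mul, he'.2.2.1] at h
  obtain ⟨c, hc⟩ := cDr hL (K := M * Mᴴ) he fun Y hY => by
    rw [← mul_assoc, hM Y hY, mul_assoc, adj_Dr hL hM Y hY, ← mul_assoc]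
  obtain ⟨c', hc'⟩ := cDr hL (K := Mᴴ * M) he' fun Y hY => by
    rw [← mul_assoc, adj_Dr hL hM Y hY, mul_assoc, hM Y hY, ← mul_assoc]
  have h5 : M * Mᴴ = c • e := by
    rw [← hc, ← mul_assoc, h1, mul_assoc, h3]
  have h6 : Mᴴ * M = c' • e' := by
    rw [← hc', ← mul_assoc, h4, mul_assoc, h2]
  refine ⟨c, c', ?_, ?_, h5, h6⟩
  · rintro rfl
    rw [zero_smul] at h5
    exact h0 (self_mul_conjTranspose_eq_zero.1 h5)
  · rintro rfl
    rw [zero_smul] at h6
    exact h0 (conjTranspose_mul_self_eq_zero.1 h6)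

/-- Schur. -/
theorem schur_c (hL : LD Om L) {e e' M N : Matrix B B ℂ} (he : Mi L e) (he' : Mi L e')
    (h0 : M ≠ 0) (h1 : e * M = M) (h2 : M * e' = M) (hM : ∀ Y ∈ Dr L, Y * M = M * Y)
    (k1 : e * N = N) (k2 : N * e' = N) (hN : ∀ Y ∈ Dr L, Y * N = N * Y) :
    ∃ c : ℂ, N = c • M := by
  obtain ⟨c, c', hc, hc', h3, h4⟩ := itw_inv hL he he' h0 h1 h2 hM
  have h5 : Mᴴ * e = Mᴴ := by
    have h := congrArg conjTranspose h1
    rwa [conjTranspose_mul, he.2.2.1] at h
  obtain ⟨d, hd⟩ := cDr hL (K := N * Mᴴ) he fun Y hY => by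
    rw [← mul_assoc, hN Y hY, mul_assoc, adj_Dr hL hM Y hY, ← mul_assoc]
  have h6 : N * Mᴴ = d • e := by
    rw [← hd, ← mul_assoc, k1, mul_assoc, h5]
  refine ⟨c'⁻¹ * d, ?_⟩
  have h7 : c' • N = d • M := by
    calc c' • N = N * (Mᴴ * M) := by rw [h4, Matrix.mul_smul, k2]
      _ = d • M := by rw [← mul_assoc, h6, Matrix.smul_mul, h1]
  rw [mul_smul, ← h7, smul_smul, inv_mul_cancel₀ hc', one_smul]

/-- The traces of involutions on linked modules. -/
theorem fc_zero (hL : LD Om L) {e e' M : Matrix B B ℂ} (he : Mi L e) (he' : Mi L e')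
    (h0 : M ≠ 0) (h1 : e * M = M) (h2 : M * e' = M) (hM : ∀ Y ∈ Dr L, Y * M = M * Y)
    {D' : Matrix B B ℂ} (hD : D' ∈ L) (hD2 : D' * D' = 1) (hn : ∀ c : ℂ, D' * e ≠ c • e)
    (ht : fc e D' = 0) : fc e' D' = 0 := by
  obtain ⟨c, c', hc, hc', h3, h4⟩ := itw_inv hL he he' h0 h1 h2 hM
  have h5 := GJ7.itw hL he he' h1 h2 hM hD
  rw [ht, zero_sub] at h5
  obtain ⟨z, hz⟩ : ∃ z, z = fc e' D' := ⟨_, rfl⟩
  rw [← hz] at h5 ⊢
  by_contra hz0
  have h6 : M * D' = D' * M + z • M := by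
    rw [h5, neg_smul]
    abel
  have h7 : M = M + (2 * z) • (D' * M) + (z * z) • M := by
    calc M = (M * D') * D' := by rw [mul_assoc, hD2, mul_one]
      _ = D' * (M * D') + z • (M * D') := by rw [h6, add_mul, Matrix.smul_mul, mul_assoc, h6]
      _ = _ := by
        rw [h6, mul_add, ← mul_assoc, hD2, one_mul, Matrix.mul_smul, smul_add, smul_smul]
        module
  have h8 : (2 * z) • (D' * M) = -((z * z) • M) := by
    have h9 : (2 * z) • (D' * M) + (z * z) • M = 0 := by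
      have := h7
      rw [add_assoc] at this
      exact (left_eq_add.1 this)
    exact eq_neg_of_add_eq_zero_left h9
  have h9 : D' * M = (-(z / 2)) • M := by
    have h10 : (2 * z)⁻¹ • ((2 * z) • (D' * M)) = (2 * z)⁻¹ • -((z * z) • M) := by rw [h8]
    rw [smul_smul, inv_mul_cancel₀ (by simpa using hz0), one_smul, smul_neg, smul_smul] at h10
    rw [h10, ← neg_smul]
    congr 1
    field_simp
  apply hn (-(z / 2))
  have h10 : D' * (M * Mᴴ) = (-(z / 2)) • (M * Mᴴ) := by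
    rw [← mul_assoc, h9, Matrix.smul_mul]
  rw [h3, Matrix.mul_smul, smul_comm] at h10
  have h11 := congrArg (fun Z => c⁻¹ • Z) h10
  simp only [smul_smul, inv_mul_cancel₀ hc, one_smul, inv_mul_cancel_left₀ hc] at h11
  exact h11

/-- The element acts on linked modules by scalars. -/
theorem link_scal (hO : IsOm Om) (hL : LD Om L) {v : USp Om} (hv : FixU Om L v)
    {e e' M : Matrix B B ℂ} (he : Mi L e) (he' : Mi L e')
    (h0 : M ≠ 0) (h1 : e * M = M) (h2 : M * e' = M) (hM : ∀ Y ∈ Dr L, Y * M = M * Y) {l : ℂ}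
    (hl : mt v * e = l • e) : ∃ l' : ℂ, mt v * e' = l' • e' := by
  have hF : GJ1.F24 L v := ⟨hv.f2, hv.f4⟩
  have hve := GJ1.comm hO hL hF he.1
  have hve' := GJ1.comm hO hL hF he'.1
  have hie := GJ1.comm hO hL hF.inv he'.1
  have hl0 := (v_st hO hL hv.f2 he hl).1
  obtain ⟨c, c', hc, hc', h3, h4⟩ := itw_inv hL he he' h0 h1 h2 hM
  obtain ⟨d, hd⟩ := schur_c hL (N := mt v * M * mt v⁻¹) he he' h0 h1 h2 hM (by
    rw [← mul_assoc, ← mul_assoc, ← hve, mul_assoc (mt v) e M, h1]) (by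
    rw [mul_assoc, hie, ← mul_assoc, mul_assoc (mt v) M e', h2]) (by
    intro Y hY
    have h5 := GJ1.conj_Dr hO hL hF.inv hY
    rw [inv_inv] at h5
    calc Y * (mt v * M * mt v⁻¹) = (mt v * mt v⁻¹) * Y * mt v * M * mt v⁻¹ := by
          rw [mt_mul_inv]; noncomm_ring
      _ = mt v * ((mt v⁻¹ * Y * mt v) * M) * mt v⁻¹ := by noncomm_ring
      _ = mt v * (M * (mt v⁻¹ * Y * mt v)) * mt v⁻¹ := by rw [hM _ h5]
      _ = mt v * M * mt v⁻¹ * Y * (mt v * mt v⁻¹) := by noncomm_ring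
      _ = _ := by rw [mt_mul_inv, mul_one])
  have h5 : l • M = d • (M * mt v) := by
    calc l • M = mt v * M := by
          conv_rhs => rw [← h1, ← mul_assoc, hl, Matrix.smul_mul, h1]
      _ = mt v * M * (mt v⁻¹ * mt v) := by rw [mt_inv_mul, mul_one]
      _ = (mt v * M * mt v⁻¹) * mt v := by noncomm_ring
      _ = _ := by rw [hd, Matrix.smul_mul]
  have hd0 : d ≠ 0 := by
    rintro rfl
    rw [zero_smul] at h5
    exact h0 ((smul_eq_zero.1 h5).resolve_left hl0)
  refine ⟨d⁻¹ * l, ?_⟩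
  have h6 : M * mt v = (d⁻¹ * l) • M := by
    rw [mul_smul, h5, smul_smul, inv_mul_cancel₀ hd0, one_smul]
  have h7 : c' • (e' * mt v) = c' • ((d⁻¹ * l) • e') := by
    calc c' • (e' * mt v) = Mᴴ * (M * mt v) := by rw [← mul_assoc, h4, Matrix.smul_mul]
      _ = _ := by rw [h6, Matrix.mul_smul, h4, smul_comm]
  have h8 := congrArg (fun Z => c'⁻¹ • Z) h7
  simp only [smul_smul, inv_mul_cancel₀ hc', one_smul, inv_mul_cancel_left₀ hc'] at h8
  rw [hve', h8]

/-- The relation in the symmetric case. -/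
theorem rel2 (hO : IsOm Om) (hL : LD Om L) {Dm : (ℂ ≃+* ℂ) → Matrix B B ℂ} (H : Hull L Dm)
    {u : USp Om} (hv : FixU Om L u) {e M : Matrix B B ℂ} (he : Mi L e) (h0 : M ≠ 0)
    (h1 : e * M = M) (h2 : M * st Om e = M) (hM : ∀ Y ∈ Dr L, Y * M = M * Y) {l : ℂ}
    (hl : mt u * e = l • e) : Rl L u (fun Y => ((2 : ℕ) : ℂ) * fc e Y) (l ^ 2) := by
  obtain ⟨hl0, hls⟩ := v_st hO hL hv.f2 he hl
  refine ((Rl.link hO hL H hv he (Mi_st hO hL he) h0 h1 h2 hM hl hls).neg hO hL hv).congr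
    (fun Y hY => ?_) ?_
  · rw [fc_st hO hL hY]
    push_cast
    ring
  · field_simp

/-- The relation in the half spin case. -/
theorem rel4 (hq : St_quad) (hf : St_fc0) {Dm : (ℂ ≃+* ℂ) → Matrix B B ℂ} (H : Hull L Dm)
    {u : USp Om} (hv : FixU Om L u) {e D : Matrix B B ℂ} (HR : Rd Om L e D r T Φ X h)
    {S : Finset (Fin r → ℝ)} {w : (Fin r → ℝ) → B → ℂ} (HV : MV T Φ X h e S w)
    (h4 : Ty4 Φ h S) (hns : ¬ ∀ x ∈ S, -x ∈ S) (htw : Twc L Dm e) {l : ℂ}
    (hl : mt u * e = l • e) : Rl L u (fun Y => ((4 : ℕ) : ℂ) * fc e Y) (l ^ 4) := by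
  have hO := HR.om
  have hL := HR.ld
  have he := HR.pu.1
  obtain ⟨hl0, hls⟩ := v_st hO hL hv.f2 he hl
  obtain ⟨e', M, he', h0, h1, h2, hM, hsc⟩ := htw
  -- the sum of the functionals vanishes
  have hfc : ∀ Y ∈ L, fc e' Y = -fc e Y := by
    let N : Submodule ℂ (Matrix B B ℂ) :=
      { carrier := {Y | Y ∈ L ∧ fc e' Y = -fc e Y}
        add_mem' := by
          rintro a b ⟨ha, ha'⟩ ⟨hb, hb'⟩
          exact ⟨L.add_mem ha hb, by rw [GJ7.fc_add, GJ7.fc_add, ha', hb']; ring⟩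
        zero_mem' := ⟨L.zero_mem, by unfold fc; simp⟩
        smul_mem' := by
          rintro c a ⟨ha, ha'⟩
          exact ⟨L.smul_mem c ha, by rw [GJ7.fc_smul, GJ7.fc_smul, ha']; ring⟩ }
    have h5 : L ≤ N := by
      refine H.gen N (fun σ => ⟨H.mem σ, ?_⟩) fun Y hY Z hZ => ?_
      · by_cases hs : ∃ c : ℂ, Dm σ * e = c • e
        · exact hsc σ hs
        · push Not at hs
          have h6 : fc e (Dm σ) = 0 := by
            unfold fc
            rw [hf B Om L e D r T Φ X h HR S w HV h4 (Dm σ) (H.mem σ) (H.sq σ) hs, zero_div]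
          rw [h6, neg_zero]
          exact fc_zero hL he he' h0 h1 h2 hM (H.mem σ) (H.sq σ) hs h6
      · have h6 := GJ1.br_mem hY.1 hZ.1
        exact ⟨GJ1.Dr_le hL h6, by rw [GJ7.fc_Dr he.1 h6, GJ7.fc_Dr he'.1 h6, neg_zero]⟩
    exact fun Y hY => (h5 hY).2
  obtain ⟨l', hl'⟩ := link_scal hO hL hv he he' h0 h1 h2 hM hl
  obtain ⟨x, hx0, hx1, hx2⟩ := hq B Om L e D r T Φ X h HR S w HV h4 hns e' M he' h0 h1 h2 hM
  have hx : x ∈ InvL L (Fin 4) := by
    intro Y hY
    obtain ⟨z, hz, hzL, d, hd, rfl⟩ := GJ1.L_dec hL hY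
    have h5 := GJ7.ce_scal he hz.1 (hz.2 e he.1)
    have h6 := GJ7.ce_scal he' hz.1 (hz.2 e' he'.1)
    have h7 : dm (Fin 4) z *ᵥ x = 0 := by
      rw [← hx1, mulVec_mulVec, WJ2.dm_mul_kpp (c := ![fc e z, fc e z, fc e' z, fc e' z])
        (by
          intro k
          fin_cases k
          · exact h5
          · exact h5
          · exact h6
          · exact h6)]
      have h8 : ∑ k, (![fc e z, fc e z, fc e' z, fc e' z] : Fin 4 → ℂ) k = 0 := by
        rw [Fin.sum_univ_four]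
        simp only [Matrix.cons_val]
        rw [hfc z hzL]
        ring
      rw [h8, zero_smul, zero_mulVec]
    have h8 : dm (Fin 4) (z + d) = dm (Fin 4) z + dm (Fin 4) d := kd_add _ _ _
    rw [h8, add_mulVec, h7, hx2 d hd, add_zero]
  have h5 := hv.f4 x hx
  rw [← hx1, mulVec_mulVec] at h5
  unfold kp at h5
  rw [kpp_mul] at h5
  have h6 : (fun k => mt u * (![e, e, e', e'] : Fin 4 → Matrix B B ℂ) k) =
      fun k => (![l, l, l', l'] : Fin 4 → ℂ) k • (![e, e, e', e'] : Fin 4 → Matrix B B ℂ) k := by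
    funext k
    fin_cases k
    · exact hl
    · exact hl
    · exact hl'
    · exact hl'
  rw [h6, WJ2.kpp_smul, smul_mulVec, hx1] at h5
  have h7 : ∏ k, (![l, l, l', l'] : Fin 4 → ℂ) k = 1 := by
    have h8 : (∏ k, (![l, l, l', l'] : Fin 4 → ℂ) k - 1) • x = 0 := by
      rw [sub_smul, one_smul, h5, sub_self]
    exact sub_eq_zero.1 ((smul_eq_zero.1 h8).resolve_right hx0)
  rw [Fin.prod_univ_four] at h7
  simp only [Matrix.cons_val] at h7
  have hl'0 : l' ≠ 0 := (v_st hO hL hv.f2 he' hl').1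
  have h8 := ((Rl.link hO hL H hv he he' h0 h1 h2 hM hl hl').nsmul 2).neg hO hL hv
  refine h8.congr (fun Y hY => ?_) ?_
  · rw [hfc Y hY]
    push_cast
    ring
  · field_simp
    linear_combination h7

/-- Symmetric sets of weights. -/
theorem sym_of {S : Finset (Fin r → ℝ)} (hS : Ty2 Φ S ∨ Ty5 Φ S ∨ Ty6 Φ S) : ∀ x ∈ S, -x ∈ S := by
  rcases hS with ⟨p, c, e, -, -, h1, -⟩ | ⟨n, c, e, -, -, -, h1⟩ | ⟨p, c, e, -, -, -, h1⟩
  · intro x hx
    rw [h1] at hx ⊢
    obtain ⟨i, rfl | rfl⟩ := hx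
    · exact ⟨i, Or.inr rfl⟩
    · exact ⟨i, Or.inl (neg_neg _)⟩
  · intro x hx
    rw [h1] at hx ⊢
    obtain ⟨τ, hτ, rfl⟩ := hx
    refine ⟨fun i => -τ i, fun i => ?_, ?_⟩
    · rcases hτ i with h2 | h2
      · right; change -τ i = -1; rw [h2]
      · left; change -τ i = 1; rw [h2]; rfl
    · rw [← Finset.sum_neg_distrib]
      refine Finset.sum_congr rfl fun i _ => ?_
      push_cast
      rw [neg_div, neg_smul]
  · intro x hx
    rw [h1] at hx ⊢
    obtain ⟨i, rfl | rfl⟩ := hx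
    · exact ⟨i, Or.inr rfl⟩
    · exact ⟨i, Or.inl (neg_neg _)⟩

/-- The relations for a class. -/
theorem clsF (hmv : St_mv) (hhw : St_hw) (ht1 : St_t1) (ht3 : St_t3) (hq : St_quad) (hf : St_fc0)
    {Dm : (ℂ ≃+* ℂ) → Matrix B B ℂ} (H : Hull L Dm) {e₀ D : Matrix B B ℂ}
    (HR : Rd Om L e₀ D r T Φ X h) {T' : Set (Matrix B B ℂ)}
    (hT : ∀ e ∈ T', Ide L e = Ide L e₀ → Pu L e ∧ ¬ ATy L e ∧ Twc L Dm e) : Cls Om L T' e₀ := by
  classical
  have hO := HR.om
  have hL := HR.ld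
  have hty : ∀ e ∈ T', Ide L e = Ide L e₀ → ∀ S w, MV T Φ X h e S w →
      Ty1 Φ S ∨ (Ty2 Φ S ∨ Ty4 Φ h S ∨ Ty5 Φ S ∨ Ty6 Φ S) := by
    intro e he hI S w HV
    rcases cls0 HR.rv.rs HV.mw with h1 | h1 | h1 | h1 | h1 | h1
    · exact Or.inl h1
    · exact Or.inr (Or.inl h1)
    · exact absurd (ht3 B Om L e D r T Φ X h (Rd_tr HR (hT e he hI).1 hI) S w HV h1) (hT e he hI).2.1
    · exact Or.inr (Or.inr (Or.inl h1))
    · exact Or.inr (Or.inr (Or.inr (Or.inl h1)))
    · exact Or.inr (Or.inr (Or.inr (Or.inr h1)))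
  by_cases h1 : ∃ e ∈ T', Ide L e = Ide L e₀ ∧ ∃ S w, MV T Φ X h e S w ∧ Ty1 Φ S
  · obtain ⟨e₁, he₁, hI₁, S₁, w₁, HV₁, h1⟩ := h1
    refine slcls hO hL H fun e he hI => ?_
    obtain ⟨S, w, HV⟩ := hmv B Om L e₀ D r T Φ X h HR e (hT e he hI).1.1 hI
    rcases hty e he hI S w HV with h2 | h2
    · exact ht1 B Om L e D r T Φ X h (Rd_tr HR (hT e he hI).1 hI) S w HV h2
    · exact (c7_of pai_of r Φ h S₁ S HR.rv.rs HV₁.mw HV.mw h1 h2).elim
  · intro u hu κ _ _ e lam hk x hx hex hdx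
    refine Rl.fin ?_
    have hk1 : ∀ k, ∃ (S : Finset (Fin r → ℝ)) (w : (Fin r → ℝ) → B → ℂ), MV T Φ X h (e k) S w :=
      fun k => hmv B Om L e₀ D r T Φ X h HR (e k) (hT _ (hk k).1 (hk k).2.1).1.1 (hk k).2.1
    choose S w HV using hk1
    have hMi : ∀ k, Mi L (e k) := fun k => (hT _ (hk k).1 (hk k).2.1).1.1
    have hRd : ∀ k, Rd Om L (e k) D r T Φ X h := fun k =>
      Rd_tr HR (hT _ (hk k).1 (hk k).2.1).1 (hk k).2.1
    have hty' : ∀ k, Ty2 Φ (S k) ∨ Ty4 Φ h (S k) ∨ Ty5 Φ (S k) ∨ Ty6 Φ (S k) := by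
      intro k
      rcases hty _ (hk k).1 (hk k).2.1 _ _ (HV k) with h2 | h2
      · exact absurd ⟨e k, (hk k).1, (hk k).2.1, S k, w k, HV k, h2⟩ h1
      · exact h2
    obtain ⟨s, hs, hs0⟩ := wt0 (fun i => (HR.rv.tv.m i).2) HV hx hex
      fun i => hdx _ (HR.rv.tv.m i).1
    have hc6 := c6_of pai_of r Φ h HR.rv.rs κ S (fun k => ⟨(HV k).mw, hty' k⟩) s hs hs0
    -- the fibers
    obtain ⟨q, hq'⟩ : ∃ q : κ → Finset (Finset (Fin r → ℝ)), ∀ k, q k =
      {S k, (S k).image Neg.neg} := ⟨_, fun _ => rfl⟩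
    have hnn : ∀ A : Finset (Fin r → ℝ), (A.image Neg.neg).image Neg.neg = A := by
      intro A
      rw [Finset.image_image]
      have h2 : (Neg.neg ∘ Neg.neg : (Fin r → ℝ) → (Fin r → ℝ)) = id := by
        funext x
        exact neg_neg x
      rw [h2, Finset.image_id]
    have hqq : ∀ k k₀, q k = q k₀ ↔ (S k = S k₀ ∨ S k = (S k₀).image Neg.neg) := by
      intro k k₀
      constructor
      · intro h2
        have h3 : S k ∈ q k := by
          rw [hq']
          exact Finset.mem_insert_self _ _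
        rw [h2, hq'] at h3
        simpa using h3
      · rintro (h2 | h2)
        · rw [hq', hq', h2]
        · rw [hq', hq', h2, hnn, Finset.pair_comm]
    have hfib : ∀ b ∈ Finset.univ.image q,
        Rl L u (fun Y => ∑ k ∈ Finset.univ.filter (fun k => q k = b), fc (e k) Y)
          (∏ k ∈ Finset.univ.filter (fun k => q k = b), lam k) := by
      intro b hb
      obtain ⟨k₀, -, rfl⟩ := Finset.mem_image.1 hb
      obtain ⟨p1, p2⟩ := hc6 k₀
      by_cases hsym : ∀ y, y ∈ S k₀ → -y ∈ S k₀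
      · have hS : (S k₀).image Neg.neg = S k₀ := by
          ext y
          rw [Finset.mem_image]
          constructor
          · rintro ⟨z, hz, rfl⟩
            exact hsym z hz
          · intro hy
            exact ⟨-y, hsym y hy, neg_neg y⟩
        have hmem : ∀ k, q k = q k₀ ↔ S k = S k₀ := by
          intro k
          rw [hqq, hS, or_self]
        obtain ⟨M₀, g0, g1, g2, g3⟩ := (hhw B Om L e₀ D r T Φ X h HR (e k₀) (e k₀) (hMi k₀)
          (hMi k₀) (hk k₀).2.1 (hk k₀).2.1 (S k₀) (S k₀) (w k₀) (w k₀) (HV k₀) (HV k₀)).2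
          (fun y => ⟨fun hy => hsym y hy, fun hy => by
            have := hsym _ hy
            rwa [neg_neg] at this⟩)
        refine cls_gen hO hL H hu (Finset.univ.filter fun k => q k = q k₀) e lam
          (fun k _ => hMi k) (fun k _ => (hk k).2.2) (hMi k₀) (hk k₀).2.2 (fun _ => true)
          (fun k hk' => ?_) 2 (rel2 hO hL H hu (hMi k₀) g0 g1 g3 g2 (hk k₀).2.2) ?_
        · rw [Finset.mem_filter, hmem] at hk'
          obtain ⟨M, k0, k1, k2, k3⟩ := (hhw B Om L e₀ D r T Φ X h HR (e k₀) (e k) (hMi k₀)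
            (hMi k) (hk k₀).2.1 (hk k).2.1 (S k₀) (S k) (w k₀) (w k) (HV k₀) (HV k)).1 hk'.2
          exact ⟨M, k0, k1, k2, by rw [if_pos rfl]; exact k3⟩
        · have h2 := p1 hsym
          have h3 : (Finset.univ.filter fun k => q k = q k₀) =
              Finset.univ.filter fun k => S k = S k₀ := Finset.filter_congr fun k _ => hmem k
          rw [h3, Finset.sum_congr rfl fun k _ => if_pos rfl, Finset.sum_const, nsmul_eq_mul,
            mul_one]
          exact_mod_cast h2.two_dvd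
      · have hT4 : Ty4 Φ h (S k₀) := by
          rcases hty' k₀ with h2 | h2 | h2 | h2
          · exact absurd (sym_of (Or.inl h2)) hsym
          · exact h2
          · exact absurd (sym_of (Or.inr (Or.inl h2))) hsym
          · exact absurd (sym_of (Or.inr (Or.inr h2))) hsym
        have hneq : (S k₀).image Neg.neg ≠ S k₀ := by
          intro h2
          apply hsym
          intro y hy
          rw [← h2]
          exact Finset.mem_image_of_mem _ hy
        refine cls_gen hO hL H hu (Finset.univ.filter fun k => q k = q k₀) e lam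
          (fun k _ => hMi k) (fun k _ => (hk k).2.2) (hMi k₀) (hk k₀).2.2
          (fun k => decide (S k = S k₀)) (fun k hk' => ?_) 4
          (rel4 hq hf H hu (hRd k₀) (HV k₀) hT4 (fun hh => hsym fun y hy => hh y hy)
            (hT _ (hk k₀).1 (hk k₀).2.1).2.2 (hk k₀).2.2) ?_
        · rw [Finset.mem_filter, hqq] at hk'
          by_cases h2 : S k = S k₀
          · obtain ⟨M, k0, k1, k2, k3⟩ := (hhw B Om L e₀ D r T Φ X h HR (e k₀) (e k) (hMi k₀)
              (hMi k) (hk k₀).2.1 (hk k).2.1 (S k₀) (S k) (w k₀) (w k) (HV k₀) (HV k)).1 h2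
            exact ⟨M, k0, k1, k2, by rw [if_pos (by simpa using h2)]; exact k3⟩
          · have h3 := hk'.2.resolve_left h2
            obtain ⟨M, k0, k1, k2, k3⟩ := (hhw B Om L e₀ D r T Φ X h HR (e k₀) (e k) (hMi k₀)
              (hMi k) (hk k₀).2.1 (hk k).2.1 (S k₀) (S k) (w k₀) (w k) (HV k₀) (HV k)).2
              (fun y => by
                rw [h3, Finset.mem_image]
                constructor
                · rintro ⟨z, hz, rfl⟩
                  rwa [neg_neg]
                · intro hy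
                  exact ⟨-y, hy, neg_neg y⟩)
            exact ⟨M, k0, k1, k2, by rw [if_neg (by simpa using h2)]; exact k3⟩
        · have h2 := p2 hsym
          have h3 : ∑ k ∈ Finset.univ.filter (fun k => q k = q k₀),
              (if (decide (S k = S k₀)) = true then (1 : ℤ) else -1) =
              ((Finset.univ.filter fun k => S k = S k₀).card : ℤ) -
              (Finset.univ.filter fun k => S k = (S k₀).image Neg.neg).card := by
            rw [Finset.sum_ite, Finset.sum_const, Finset.sum_const, Finset.filter_filter,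
              Finset.filter_filter]
            have h4 : (Finset.univ.filter fun k => q k = q k₀ ∧ (decide (S k = S k₀)) = true) =
                Finset.univ.filter fun k => S k = S k₀ := by
              refine Finset.filter_congr fun k _ => ?_
              rw [hqq, decide_eq_true_iff]
              tauto
            have h5 : (Finset.univ.filter fun k => q k = q k₀ ∧ ¬ (decide (S k = S k₀)) = true) =
                Finset.univ.filter fun k => S k = (S k₀).image Neg.neg := by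
              refine Finset.filter_congr fun k _ => ?_
              rw [hqq, decide_eq_true_iff]
              constructor
              · rintro ⟨h6 | h6, h7⟩
                · exact absurd h6 h7
                · exact h6
              · intro h6
                exact ⟨Or.inr h6, fun h7 => hneq (h6.symm.trans h7)⟩
            rw [h4, h5]
            simp
            ring
          rw [h3]
          exact h2
    refine (Rl.sum (Finset.univ.image q) hfib).congr (fun Y _ => ?_) ?_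
    · exact (Finset.sum_fiberwise_of_maps_to
        (fun k _ => Finset.mem_image_of_mem q (Finset.mem_univ k)) _).symm
    · exact (Finset.prod_fiberwise_of_maps_to
        (fun k _ => Finset.mem_image_of_mem q (Finset.mem_univ k)) _).symm

end Gm

end

end Pool.Agent.NH32
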