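import Mathlib
import Pool.Agent.NH32.GmC
import Pool.Agent.NH32.GJ4
import Pool.Agent.NH32.GJ5

/-!
# Project G: the main theorem for the Lie algebra
-/

set_option linter.unusedSectionVars false

namespace Pool.Agent.NH32

open Matrix Module Pool.Agent.W437.HC Pool.Agent.W437.HD Pool.Agent.TH504.CB Pool.Agent.Y90
open Pool.Agent.H204R3.CM (IsHodge)
open Pool.Agent.W548.Odd hiding cv
open scoped ComplexOrder

noncomputable section

namespace Gm

variable {B : Type} [Fintype B] [DecidableEq B] {Om : Matrix B B ℂ}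
  {L : Submodule ℂ (Matrix B B ℂ)}

/-- The statements used for the main theorem. -/
structure Hyp : Prop where
  herm : St_herm
  tv : St_tv
  rv : St_rv
  mv : St_mv
  hw : St_hw
  t1 : St_t1
  t2 : St_t2
  t3 : St_t3
  funor : St_funor
  spnor : St_spnor
  quad : St_quad
  fc0 : St_fc0
  dec2 : St_dec2
  red : St_red

/-- Some involution is not a scalar on `e`. -/
theorem ex_nonsc (hL : LD Om L) {Dm : (ℂ ≃+* ℂ) → Matrix B B ℂ} (H : Hull L Dm)
    {e : Matrix B B ℂ} (he : Mi L e) (ht : ¬ trace e = 1) :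
    ∃ σ, ∀ c : ℂ, Dm σ * e ≠ c • e := by
  by_contra hcon
  push Not at hcon
  let N : Submodule ℂ (Matrix B B ℂ) :=
    { carrier := {Y | Y ∈ L ∧ ∃ c : ℂ, Y * e = c • e}
      add_mem' := by
        rintro a b ⟨ha, c, hc⟩ ⟨hb, d, hd⟩
        exact ⟨L.add_mem ha hb, c + d, by rw [add_mul, hc, hd, add_smul]⟩
      zero_mem' := ⟨L.zero_mem, 0, by rw [zero_mul, zero_smul]⟩
      smul_mem' := by
        rintro c a ⟨ha, d, hd⟩
        exact ⟨L.smul_mem c ha, c * d, by rw [Matrix.smul_mul, hd, smul_smul]⟩ }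
  have h1 : L ≤ N := by
    refine H.gen N (fun σ => ⟨H.mem σ, hcon σ⟩) fun X hX Y hY => ?_
    obtain ⟨hX1, c, hc⟩ := hX
    obtain ⟨hY1, d, hd⟩ := hY
    refine ⟨hL.br X hX1 Y hY1, 0, ?_⟩
    rw [sub_mul, mul_assoc, hd, mul_assoc, hc, Matrix.mul_smul, Matrix.mul_smul, hc, hd, smul_smul,
      smul_smul, mul_comm, sub_self, zero_smul]
  have h2 : ∀ X ∈ Dr L, X * e = 0 := by
    intro X hX
    unfold Dr at hX
    induction hX using Submodule.span_induction with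
    | mem Z hZ =>
      obtain ⟨X, hX, Y, hY, rfl⟩ := hZ
      obtain ⟨-, c, hc⟩ := h1 hX
      obtain ⟨-, d, hd⟩ := h1 hY
      rw [sub_mul, mul_assoc, hd, mul_assoc, hc, Matrix.mul_smul, Matrix.mul_smul, hc, hd,
        smul_smul, smul_smul, mul_comm, sub_self]
    | zero => exact zero_mul _
    | add x y _ _ hx hy => rw [add_mul, hx, hy, add_zero]
    | smul c x _ hx => rw [Matrix.smul_mul, hx, smul_zero]
  obtain ⟨X, hX, hX0⟩ := GJ1.Ide_ne hL he ht
  exact hX0 (GJ1.Ide_zero hL he.1 he.2.2.1 hX (h2 X hX.1))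

/-- The root data of a pure minimal idempotent. -/
theorem ex_Rd (HY : Hyp) (hO : IsOm Om) (hL : LD Om L) {Dm : (ℂ ≃+* ℂ) → Matrix B B ℂ}
    (H : Hull L Dm) {e : Matrix B B ℂ} (he : Pu L e) :
    ∃ (D : Matrix B B ℂ) (r : ℕ) (T : Fin r → Matrix B B ℂ) (Φ : Finset (Fin r → ℝ))
      (X : (Fin r → ℝ) → Matrix B B ℂ) (h : Fin r → ℝ), Rd Om L e D r T Φ X h := by
  obtain ⟨σ, hσ⟩ := ex_nonsc hL H he.1 he.2.1
  obtain ⟨D, hD, hDh, hD2, g, gi, hg, hDg, hgc, -⟩ := HY.herm B Om L hO hL (Dm σ) (H.mem σ)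
    (H.sq σ)
  have hgi : gi * g = 1 := mul_eq_one_comm.1 hg
  have hn : ∀ c : ℂ, D * e ≠ c • e := by
    intro c hc
    apply hσ c
    have h1 : g * e = e * g := hgc e he.1.1
    have h2 : gi * e = e * gi := by
      calc gi * e = gi * (e * g) * gi := by rw [mul_assoc, mul_assoc, hg, mul_one]
        _ = _ := by rw [← h1, ← mul_assoc, hgi, one_mul]
    have h3 : Dm σ = gi * D * g := by
      rw [hDg]
      calc Dm σ = (gi * g) * Dm σ * (gi * g) := by rw [hgi, one_mul, mul_one]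
        _ = _ := by simp only [mul_assoc]
    rw [h3, mul_assoc, h1, ← mul_assoc, mul_assoc gi, hc, Matrix.mul_smul, Matrix.smul_mul, h2,
      mul_assoc, hgi, mul_one]
  obtain ⟨r, T, h, hTV⟩ := HY.tv B Om L hO hL e he D hD hDh hD2
  obtain ⟨Φ, X, hRV⟩ := HY.rv B Om L hO hL e he D hD hDh hD2 hn r T h hTV
  exact ⟨D, r, T, Φ, X, h, hO, hL, he, hD, hDh, hD2, hn, hRV⟩

/-- The group of a pure minimal idempotent. -/
theorem nor_of (HY : Hyp) (hO : IsOm Om) (hL : LD Om L) {Dm : (ℂ ≃+* ℂ) → Matrix B B ℂ}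
    (H : Hull L Dm) {e : Matrix B B ℂ} (he : Pu L e) (hA : ¬ ATy L e) {u : USp Om}
    (hu : FixU Om L u) : Nor Om L u e := by
  obtain ⟨D, r, T, Φ, X, h, HR⟩ := ex_Rd HY hO hL H he
  obtain ⟨S, w, HV⟩ := HY.mv B Om L e D r T Φ X h HR e he.1 rfl
  rcases cls0 HR.rv.rs HV.mw with h1 | h1 | h1 | h1 | h1 | h1
  · exact slnor_of B Om L hO hL u hu e (HY.t1 B Om L e D r T Φ X h HR S w HV h1)
  · exact HY.funor B Om L hO hL Dm H u hu e (HY.t2 B Om L e D r T Φ X h HR S w HV (Or.inl h1))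
  · exact absurd (HY.t3 B Om L e D r T Φ X h HR S w HV h1) hA
  · exact HY.spnor B Om L e D r T Φ X h HR S w HV (Or.inl h1) u hu
  · exact HY.spnor B Om L e D r T Φ X h HR S w HV (Or.inr h1) u hu
  · exact HY.funor B Om L hO hL Dm H u hu e (HY.t2 B Om L e D r T Φ X h HR S w HV (Or.inr h1))

/-- The ideal of a line is zero. -/
theorem Ide_line (hL : LD Om L) {e : Matrix B B ℂ} (he : Li L e) {X : Matrix B B ℂ}
    (hX : X ∈ Ide L e) : X = 0 :=
  GJ1.Ide_zero hL he.1.1 he.1.2.2.1 hX (GJ3.kill_li hL he hX.1)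

/-- **The main theorem for the Lie algebra.** -/
theorem mainL (HY : Hyp) (hO : IsOm Om) (hL : LD Om L) {Dm : (ℂ ≃+* ℂ) → Matrix B B ℂ}
    (H : Hull L Dm) (hR : ∀ e, Mi L e → ¬ trace e = 1 → Twc L Dm e ∧
      ((DecL Dm e ∨ ATy L e) → RedL Om L e)) {u : USp Om} (hu : FixU Om L u)
    (κ : Type) [Fintype κ] [DecidableEq κ] : ∀ x ∈ InvL L κ, kp κ (mt u) *ᵥ x = x := by
  obtain ⟨T, hT⟩ : ∃ T : Set (Matrix B B ℂ), ∀ e, e ∈ T ↔
      (Li L e ∨ (Pu L e ∧ ¬ ATy L e)) := ⟨{e | _}, fun e => Iff.rfl⟩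
  refine HY.red B Om L hO hL u hu T (fun e he => (hT e).2 (Or.inl he)) (fun e he => ?_)
    (fun e he => ?_) ?_ κ
  · rcases (hT e).1 he with h1 | h1
    · exact h1.1
    · exact h1.1.1
  · by_cases ht : trace e = 1
    · exact Or.inl ((hT e).2 (Or.inl ⟨he, ht⟩))
    · by_cases hP : Pu L e
      · by_cases hA : ATy L e
        · exact Or.inr ((hR e he ht).2 (Or.inr hA))
        · exact Or.inl ((hT e).2 (Or.inr ⟨hP, hA⟩))
      · exact Or.inr ((hR e he ht).2 (Or.inl (HY.dec2 B Om L hO hL Dm H e he ht hP)))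
  · have h1 : ∀ e ∈ T, Li L e ∨ Pu L e := fun e he => by
      rcases (hT e).1 he with h2 | h2
      · exact Or.inl h2
      · exact Or.inr h2.1
    obtain ⟨k, hk, hk2⟩ := n1_of B Om L hO hL T h1 u hu (fun e he hLi => by
      rcases (hT e).1 he with h2 | h2
      · exact absurd h2 hLi
      · exact nor_of HY hO hL H h2.1 h2.2 hu)
    have hv := kfix_of B Om L hO hL u hu k hk
    have h2 : ∀ e ∈ T, Li L e ∨ (Pu L e ∧ Cls Om L T e) := by
      intro e he
      rcases (hT e).1 he with h3 | h3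
      · exact Or.inl h3
      · refine Or.inr ⟨h3.1, ?_⟩
        obtain ⟨D, r, T₀, Φ, X, h, HR⟩ := ex_Rd HY hO hL H h3.1
        refine clsF HY.mv HY.hw HY.t1 HY.t3 HY.quad HY.fc0 H HR fun e' he' hI => ?_
        have h4 : ¬ Li L e' := by
          intro h5
          obtain ⟨Y, hY, hY0⟩ := GJ1.Ide_ne hL h3.1.1 h3.1.2.1
          rw [← hI] at hY
          exact hY0 (Ide_line hL h5 hY)
        rcases (hT e').1 he' with h5 | h5
        · exact absurd h5 h4
        · exact ⟨h5.1, h5.2, (hR e' h5.1.1 h5.1.2.1).1⟩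
    intro κ _ _ e he x hx hex
    have h3 := n2_of B Om L hO hL T h2 (k⁻¹ * u) hv hk2 κ e he x hx hex
    have h4 : mt u = mt k * mt (k⁻¹ * u) := by
      rw [← mt_mul, mul_inv_cancel_left]
    rw [h4, kp_mul, ← mulVec_mulVec, h3]
    exact hk κ x hx

end Gm

end

end Pool.Agent.NH32
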