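import Mathlib
import Pool.Agent.NH32.GmD
import Pool.Agent.NH32.GJ11
import Pool.Agent.NH32.GJ14
import Pool.Agent.NH32.GJ17
import Pool.Agent.NH32.GJ18
import Pool.Agent.NH32.WlW

/-!
# Project G: the main theorem for abelian varieties
-/

set_option linter.unusedSectionVars false

namespace Pool.Agent.NH32

open Matrix Module Pool.Agent.W437.HC Pool.Agent.W437.HD Pool.Agent.TH504.CB Pool.Agent.Y90
open Pool.Agent.H204R3.CM (IsHodge)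
open Pool.Agent.W548.Odd hiding cv

noncomputable section

namespace Gm

variable {g : ℕ} {Z : Matrix (Fin g) (Fin g) ℂ} {X : AV} {e : X.H ≃ₗ[ℚ] (Fin g ⊕ Fin g → ℚ)}
  {y yi : Matrix (Fin g ⊕ Fin g) (Fin g ⊕ Fin g) ℝ}

theorem DS_odd (σ : ℂ ≃+* ℂ) : DS Z (cj.trans σ) = -DS Z σ := by
  have h1 : DS Z (cj.trans σ) = ((DZ Z).map (starRingEnd ℂ)).map σ := rfl
  have h2 : (DZ Z).map (starRingEnd ℂ) = -DZ Z := Pool.Agent.W437.HD.DZ_conj Z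
  rw [h1, h2]
  ext i j
  exact map_neg σ _

theorem Dy_sq (hZ : PM Z) (hy : YD Z y yi) (σ : ℂ ≃+* ℂ) : Dy Z y yi σ * Dy Z y yi σ = 1 := by
  unfold Dy
  rw [← transpose_mul]
  have h1 : cm y * DS Z σ * cm yi * (cm y * DS Z σ * cm yi) = 1 := by
    calc cm y * DS Z σ * cm yi * (cm y * DS Z σ * cm yi)
        = cm y * DS Z σ * (cm yi * cm y) * DS Z σ * cm yi := by noncomm_ring
      _ = cm y * (DS Z σ * DS Z σ) * cm yi := by rw [hy.cl]; noncomm_ring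
      _ = 1 := by rw [DS_sq hZ.det, mul_one, hy.cr]
  rw [h1, transpose_one]

/-- The hull in coordinates. -/
theorem hull_ly (hm : St_mi) (hZ : PM Z)
    (hc : Cht (X.per.comp e.symm.toLinearMap.toAddMonoidHom) (JR Z)) (hy : YD Z y yi)
    (hX : HullAV X) : Hull (Ly Z y yi) (Dy Z y yi) := by
  obtain ⟨hm1, hm2⟩ := hm g Z X e y yi hZ hc hy
  have hir : ∀ Δ : (ℂ ≃+* ℂ) → Matrix (Fin 1) (Fin 1) ℂ, IrD Δ := by
    intro Δ
    refine ⟨Nat.one_pos, fun W _ => ?_⟩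
    have h1 : finrank ℂ (Fin 1 → ℂ) = 1 := by simp
    have h2 : IsSimpleOrder (Submodule ℂ (Fin 1 → ℂ)) := is_simple_module_of_finrank_eq_one h1
    exact eq_bot_or_eq_top W
  have hli : ∀ Δ : (ℂ ≃+* ℂ) → Matrix (Fin 1) (Fin 1) ℂ, Rz X 1 Δ →
      ∃ ε, Li (Ly Z y yi) ε ∧ ∀ σ, Dy Z y yi σ * ε = Δ σ 0 0 • ε := by
    intro Δ hΔ
    obtain ⟨P, Q, h1, h2, h3⟩ := hm2 1 Δ (hir Δ) hΔ
    refine ⟨P * Q, ⟨h1, ?_⟩, fun σ => ?_⟩
    · rw [trace_mul_comm, h2, trace_one, Fintype.card_fin, Nat.cast_one]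
    · have h4 : Dy Z y yi σ * (P * Q) = P * Q * Dy Z y yi σ :=
        h1.1 _ (GJ17.Dy_mem hy σ)
      have h5 : Dy Z y yi σ * (P * Q) = P * (Q * Dy Z y yi σ * P) * Q := by
        calc Dy Z y yi σ * (P * Q) = Dy Z y yi σ * ((P * Q) * (P * Q)) := by rw [h1.2.1]
          _ = (Dy Z y yi σ * (P * Q)) * (P * Q) := by simp only [Matrix.mul_assoc]
          _ = P * Q * Dy Z y yi σ * (P * Q) := by rw [h4]
          _ = _ := by simp only [Matrix.mul_assoc]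
      rw [h5, h3]
      have h6 : Δ σ = Δ σ 0 0 • (1 : Matrix (Fin 1) (Fin 1) ℂ) := by
        ext i j
        rw [Subsingleton.elim i 0, Subsingleton.elim j 0]
        simp
      conv_lhs => rw [h6]
      rw [Matrix.mul_smul, Matrix.smul_mul, Matrix.mul_one]
  refine ⟨GJ17.Dy_mem hy, Dy_sq hZ hy, GJ17.Ly_le hy, fun σ => ?_, ?_, fun F hF1 hF2 hF3 => ?_⟩
  · unfold Dy
    rw [DS_odd]
    simp
  · obtain ⟨Δ, hΔ⟩ := hX.1
    obtain ⟨ε, h1, -⟩ := hli Δ hΔ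
    exact ⟨ε, h1⟩
  · have h1 : Rz X 1 (lineD F) := by
      refine hX.2 F hF1 hF2 fun σ τ h => hF3 σ τ fun ε hε => ?_
      obtain ⟨d, P, Q, h2, h3, h4, h5⟩ := hm1 ε hε
      have h6 := h d _ h4 h5
      have h7 : ∀ σ, trace (Dy Z y yi σ * ε) = trace (Q * Dy Z y yi σ * P) := by
        intro σ
        rw [← h2, ← Matrix.mul_assoc, trace_mul_comm, ← Matrix.mul_assoc]
      rw [h7, h7]
      exact h6
    obtain ⟨ε, h2, h3⟩ := hli _ h1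
    exact ⟨ε, h2, fun σ => h3 σ⟩

/-- **The main theorem** for abelian varieties with a large hull. -/
theorem mainAV (HY : Hyp) (hb : St_br) (hX : Hul2 X) (𝒜 : Sys)
    (h2 : ∀ (Y : AV) (f : Y.H [⋀^Fin 2]→ₗ[ℚ] ℚ), IsHodge Y.per f → 𝒜.A Y (Fin 2) f)
    (h4 : ∀ (Y : AV) (f : Y.H [⋀^Fin 4]→ₗ[ℚ] ℚ), IsHodge Y.per f → 𝒜.A Y (Fin 4) f)
    (hW : ∀ (Y : AV) (n : ℕ) (w : Y.H [⋀^Fin n]→ₗ[ℚ] ℚ), IsWeil Y w → 𝒜.A Y (Fin n) w)
    (P : AV) (n : ℕ) (hP : IsPower X P n) : 𝒜.AllHodge P := by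
  obtain ⟨E, hE⟩ := X.pol
  obtain ⟨g, Z, hZ, e, hc, -⟩ := exists_ppavE X.span X.rank hE
  obtain ⟨y, yi, hy⟩ := exists_YD hZ
  obtain ⟨i, hP⟩ := hP
  refine allHodge_iso 𝒜 (isoP hP) (isoP_hom hP) ?_
  have hO := hy.isOm hZ.det
  have hld := hy.ld hZ
  have hH := hull_ly (mi_of coo_of) hZ hc hy hX.1
  have hfix : ∀ u ∈ Fx (Oy yi) (TY e 𝒜 Z y yi), ∀ (κ : Type) [Fintype κ] [DecidableEq κ],
      ∀ x ∈ InvL (Ly Z y yi) κ, kp κ (mt u) *ᵥ x = x := by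
    intro u hu κ _ _
    exact mainL HY hO hld hH (hb g Z X e y yi hZ hc hy hX)
      (fixu_of g Z X e y yi hZ hc hy 𝒜 h2 h4 hW u hu) κ
  have hT := tan_div hZ h2 hc hy
  refine allHodge_of hc fun κ _ _ c hcH => ?_
  have h14 : kp κ (cm y)ᵀ *ᵥ (kp κ (cm yi)ᵀ *ᵥ cst ℂ c) = cst ℂ c := by
    rw [mulVec_mulVec, ← kp_mul, hy.clT, kp_one, one_mulVec]
  have h15 : kp κ (cm yi)ᵀ *ᵥ cst ℂ c ∈ InvL (Ly Z y yi) κ := by
    refine hy.inv_from ?_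
    rw [h14]
    exact inv_of_isH hcH
  have h16 := (mem_TY.1 (tannaka hT hO _ fun u hu => hfix u hu κ _ h15)).1
  rwa [h14] at h16

/-- **The main theorem.** -/
theorem mainAll (HY : Hyp) (hb : St_br) (hh : St_hul2) (𝒜 : Sys)
    (h2 : ∀ (Y : AV) (f : Y.H [⋀^Fin 2]→ₗ[ℚ] ℚ), IsHodge Y.per f → 𝒜.A Y (Fin 2) f)
    (h4 : ∀ (Y : AV) (f : Y.H [⋀^Fin 4]→ₗ[ℚ] ℚ), IsHodge Y.per f → 𝒜.A Y (Fin 4) f)
    (hW : ∀ (Y : AV) (n : ℕ) (w : Y.H [⋀^Fin n]→ₗ[ℚ] ℚ), IsWeil Y w → 𝒜.A Y (Fin n) w)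
    (A : AV) : 𝒜.AllHodge A := by
  obtain ⟨X, hAX, hX⟩ := hh A
  refine fac_of.2.2 𝒜 A X hAX (fun P n hP => mainAV HY hb hX 𝒜 h2 h4 hW P n hP) A 1 ?_
  refine ⟨fun _ => LinearMap.id, fun _ => ⟨LinearMap.id, fun _ => rfl⟩, ?_⟩
  constructor
  · intro v w h
    simp only [Fin.sum_univ_one, LinearMap.id_coe, id_eq] at h
    funext k
    rw [Subsingleton.elim k 0]
    exact h
  · intro w
    exact ⟨fun _ => w, by simp⟩

end Gm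

end

end Pool.Agent.NH32
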