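import Mathlib
import Pool.Agent.NH32.GmE
import Pool.Agent.NH32.GH1
import Pool.Agent.NH32.GH2
import Pool.Agent.NH32.GH3
import Pool.Agent.NH32.GH4
import Pool.Agent.NH32.GH5
import Pool.Agent.NH32.GH6
import Pool.Agent.NH32.GH7
import Pool.Agent.NH32.GH8
import Pool.Agent.NH32.GH9
import Pool.Agent.NH32.GH10
import Pool.Agent.NH32.GH11
import Pool.Agent.NH32.GH12
import Pool.Agent.NH32.GH13

/-!
# Project G: the hypotheses for the Lie algebra
-/

namespace Pool.Agent.NH32

namespace Gm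

theorem hyp : Hyp :=
  ⟨herm_of, tv_of, rv_of, mv_of, hw_of, t1_of, t2_of hw_of, t3_of, funor_of, spnor_of c8_of c9_of,
    quad_of pai_of, fc0_of herm_of, dec2_of, red_of⟩

end Gm

end Pool.Agent.NH32
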