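import Mathlib
import Pool.Agent.NH32.GmF
import Pool.Agent.NH32.GJ11
import Pool.Agent.NH32.GJ12
import Pool.Agent.NH32.GJ13
import Pool.Agent.NH32.GJ14
import Pool.Agent.NH32.GJ16
import Pool.Agent.NH32.GJ17
import Pool.Agent.NH32.GK1
import Pool.Agent.NH32.GK2
import Pool.Agent.NH32.GK3
import Pool.Agent.NH32.GK4
import Pool.Agent.NH32.GK5
import Pool.Agent.NH32.GK6
import Pool.Agent.NH32.GK7
import Pool.Agent.NH32.GK8
import Pool.Agent.NH32.GK9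
import Pool.Agent.NH32.GK10
import Pool.Agent.NH32.GK11
import Pool.Agent.NH32.GK12
import Pool.Agent.NH32.GK13
import Pool.Agent.NH32.GK14

/-!
# Project G: the main theorem
-/

namespace Pool.Agent.NH32

open Module Pool.Agent.Y90
open Pool.Agent.H204R3.CM (IsHodge)

/-- The Hodge classes of degree two and four and the Weil classes generate all Hodge classes. -/
theorem generation (𝒜 : Sys)
    (h2 : ∀ (Y : AV) (f : Y.H [⋀^Fin 2]→ₗ[ℚ] ℚ), IsHodge Y.per f → 𝒜.A Y (Fin 2) f)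
    (h4 : ∀ (Y : AV) (f : Y.H [⋀^Fin 4]→ₗ[ℚ] ℚ), IsHodge Y.per f → 𝒜.A Y (Fin 4) f)
    (hW : ∀ (Y : AV) (n : ℕ) (w : Y.H [⋀^Fin n]→ₗ[ℚ] ℚ), IsWeil Y w → 𝒜.A Y (Fin n) w)
    (A : AV) : 𝒜.AllHodge A :=
  Gm.mainAll Gm.hyp (br_of coo_of (mi_of coo_of))
    (hul2_of (ex_of ej_of pd_of gdm_of) (df_of coo_of (mi_of coo_of)) (r1_of spr_of lalg_of)
      (r2_of (r2a_of spr_of lalg_of) fam_of dtc_of unit_of typ_of) dtc_of fin_of pr_of fac_of
      (hull_of cm_of (fld_of coo_of) pr_of fac_of)) 𝒜 h2 h4 hW A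

end Pool.Agent.NH32
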