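import Mathlib
import Pool.Agent.NH32.GtD
import Pool.Agent.NH32.GmG

/-!
# Project G, stage 3: the main theorem with split Weil classes
-/

set_option linter.unusedSectionVars false

namespace Pool.Agent.NH32

open Matrix Module Pool.Agent.W437.HC Pool.Agent.W437.HD Pool.Agent.TH504.CB Pool.Agent.Y90
open Pool.Agent.H204R3.CM (IsHodge)
open Pool.Agent.W548.Odd hiding cv

noncomputable section

namespace Gp

section mat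

variable {B : Type} [Fintype B] [DecidableEq B] {Om : Matrix B B ℂ}
  {L : Submodule ℂ (Matrix B B ℂ)}

/-- The relations for the determinants follow from those with lines. -/
theorem fixU (h : St_lin) (hO : IsOm Om) (hL : LD Om L) {Dm : (ℂ ≃+* ℂ) → Matrix B B ℂ}
    (H : Hull L Dm) {u : USp Om} (hu : FixS Om L u) : FixU Om L u := by
  refine ⟨hu.f2, hu.f4, fun s e he hs => ?_⟩
  choose d F b h1 h2 h3 using fun i => hu.dl (e i) (he i)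
  have key : ∏ i, ∏ j, b i j = 1 := by
    let φ := (Fintype.equivFin (Σ i, Fin (d i))).symm
    have h4 := h B Om L hO hL Dm H u hu.f2 hu.f4 _ (fun k => F (φ k).1 (φ k).2)
      (fun k => b (φ k).1 (φ k).2) (fun k => h1 _ _) (fun X hX => by
        rw [Equiv.sum_comp φ (fun k => fc (F k.1 k.2) X), Fintype.sum_sigma]
        have h5 : ∀ i, ∑ j, fc (F i j) X = -trace (X * e i) := fun i => by
          linear_combination h2 i X hX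
        simp only [h5]
        rw [Finset.sum_neg_distrib, hs X hX, neg_zero])
    rw [Equiv.prod_comp φ (fun k => b k.1 k.2), Fintype.prod_sigma] at h4
    exact h4
  have h5 : (∏ i, det (mt u * e i + 1 - e i)) * ∏ i, ∏ j, b i j = 1 := by
    rw [← Finset.prod_mul_distrib]
    exact Finset.prod_eq_one fun i _ => h3 i
  rwa [key, mul_one] at h5

/-- Lines. -/
theorem dl_line (hO : IsOm Om) (hL : LD Om L) {u : USp Om}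
    (hu : ∀ x ∈ InvL L (Fin 2), kp (Fin 2) (mt u) *ᵥ x = x) {e : Matrix B B ℂ} (he : Li L e)
    {P : Matrix B (Fin 1) ℂ} {Q : Matrix (Fin 1) B ℂ} (h1 : P * Q = e) (h2 : Q * P = 1) :
    ∃ (d : ℕ) (F : Fin d → Matrix B B ℂ) (b : Fin d → ℂ),
      (∀ j, Li L (F j) ∧ mt u * F j = b j • F j) ∧
      (∀ X ∈ L, trace (X * e) + ∑ j, fc (F j) X = 0) ∧ det (mt u * e + 1 - e) * ∏ j, b j = 1 := by
  have hue : mt u * e = e * mt u := GJ3.comm_f2 hO hL hu he.1.1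
  obtain ⟨c, hc⟩ : ∃ c : ℂ, Q * mt u * P = c • (1 : Matrix (Fin 1) (Fin 1) ℂ) := by
    refine ⟨(Q * mt u * P) 0 0, ?_⟩
    ext i j
    rw [Subsingleton.elim i 0, Subsingleton.elim j 0]
    simp
  have h3 : mt u * e = c • e := by
    calc mt u * e = (e * mt u) * e := by rw [← hue, mul_assoc, he.1.2.1]
      _ = P * (Q * mt u * P) * Q := by rw [← h1]; simp only [Matrix.mul_assoc]
      _ = c • e := by rw [hc, Matrix.mul_smul, Matrix.smul_mul, Matrix.mul_one, h1]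
  obtain ⟨h4, h5⟩ := Gm.v_st hO hL hu he.1 h3
  refine ⟨1, fun _ => st Om e, fun _ => c⁻¹, fun _ => ⟨GJ3.Li_st hO hL he, h5⟩,
    fun X hX => ?_, ?_⟩
  · rw [Fin.sum_univ_one, Gm.fc_st hO hL hX]
    unfold fc
    rw [he.2, div_one, add_neg_cancel]
  · have h6 : mt u * e + 1 - e = 1 + (c - 1) • (P * Q) := by
      rw [h3, h1, sub_smul, one_smul]
      abel
    have h7 : det (1 + (c - 1) • (P * Q)) = c := by
      rw [← Matrix.smul_mul, det_one_add_mul_comm, Matrix.mul_smul, h2]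
      simp
    rw [h6, h7, Fin.prod_univ_one, mul_inv_cancel₀ h4]

end mat

section av

variable {g : ℕ} {Z : Matrix (Fin g) (Fin g) ℂ} {X : AV} {e : X.H ≃ₗ[ℚ] (Fin g ⊕ Fin g → ℚ)}
  {y yi : Matrix (Fin g ⊕ Fin g) (Fin g ⊕ Fin g) ℝ}

/-- The relations in the large hull. -/
theorem fixS_AV (htn : St_tnK) (hdl : St_dlM) {X₀ : AV} (hF : Fac X₀ X) {K : Subfield ℂ}
    (hK : CMF K) (hM : ∀ (d : ℕ) (Δ : (ℂ ≃+* ℂ) → Matrix (Fin d) (Fin d) ℂ), IrD Δ → Rz X₀ d Δ →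
      ∃ (P : Fin d → (X₀.H →ₗ[ℚ] K)) (κ : Fin d → K) (Δ' : (ℂ ≃+* ℂ) → Matrix (Fin d) (Fin d) ℂ)
        (Y : AV) (b : Y.H ≃ₗ[ℚ] (Fin d → K)), LinearIndependent ℂ (fun j => toC (P j)) ∧
        (∀ j, cjk hK (κ j) = -κ j ∧ κ j ≠ 0) ∧ IsoD Δ' Δ ∧
        (∀ σ j, IsD X₀ σ (toC (P j)) (∑ i, Δ' σ i j • toC (P i))) ∧
        (∀ σ, trace (Δ σ) = ∑ j, (sgf (κ j) σ : ℂ)) ∧ KAct b ∧ KHom b P ∧
        IsPolarization Y.per fun v w => frK hK (fun j => -κ j) (b v) (b w))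
    (hlines : ∀ F : (ℂ ≃+* ℂ) → ℤ, (∀ σ, F σ = 1 ∨ F σ = -1) → (∀ σ, F (cj.trans σ) = -F σ) →
      (∀ σ τ : ℂ ≃+* ℂ, (∀ z ∈ K, σ z = τ z) → F σ = F τ) → Rz X 1 (lineD F))
    (hirr : ∀ (d : ℕ) (Δ : (ℂ ≃+* ℂ) → Matrix (Fin d) (Fin d) ℂ), IrD Δ → Rz X d Δ →
      d = 1 ∨ Rz X₀ d Δ) (hZ : PM Z)
    (hc : Cht (X.per.comp e.symm.toLinearMap.toAddMonoidHom) (JR Z)) (hy : YD Z y yi) (𝒜 : Sys)
    (h2 : ∀ (Y : AV) (f : Y.H [⋀^Fin 2]→ₗ[ℚ] ℚ), IsHodge Y.per f → 𝒜.A Y (Fin 2) f)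
    (h4 : ∀ (Y : AV) (f : Y.H [⋀^Fin 4]→ₗ[ℚ] ℚ), IsHodge Y.per f → 𝒜.A Y (Fin 4) f)
    (hW : ∀ (Y : AV) (n : ℕ) (w : Y.H [⋀^Fin n]→ₗ[ℚ] ℚ), IsSplitWeil Y w → 𝒜.A Y (Fin n) w)
    {u : USp (Oy yi)} (hu : u ∈ Fx (Oy yi) (TY e 𝒜 Z y yi)) :
    FixS (Oy yi) (Ly Z y yi) u := by
  have hO := hy.isOm hZ.det
  have hL := hy.ld hZ
  have hf2 := GJ18.fix_deg h2 hc hy hu
  refine ⟨hf2, GJ18.fix_deg h4 hc hy hu, fun ε hε => ?_⟩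
  obtain ⟨d, P, Q, hPQ, hQP, hI, hR⟩ := (mi_of coo_of g Z X e y yi hZ hc hy).1 ε hε
  rcases hirr d _ hI hR with hd | hR₀
  · subst hd
    refine dl_line hO hL hf2 ⟨hε, ?_⟩ hPQ hQP
    rw [← hPQ, trace_mul_comm, hQP, trace_one, Fintype.card_fin, Nat.cast_one]
  · obtain ⟨P₀, κ, Δ', Y, b, k1, k2, k3, k4, k5, k6, k7, k8⟩ := hM d _ hI hR₀
    obtain ⟨P', f, m1, m2, m3, m4, m5⟩ := htn X₀ X hF K hK hlines d hI.1 P₀ κ Y b k1 k2 k6 k7 k8 𝒜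
      hW _ e
    obtain ⟨F, c, n1, n2, n3⟩ := hdl g Z X e y yi hZ hc hy 𝒜 h2 u hu ε hε d P Q hPQ hQP Δ'
      (fun j σ => sgf (κ j) σ) k3 k5 P' f m1 m2 (fun σ j => m3 σ j _ (k4 σ j)) m4 m5
    exact ⟨d, F, c, n1, n2, n3⟩

/-- The main theorem for abelian varieties in a large hull. -/
theorem mainAV (hlin : St_lin) (htn : St_tnK) (hdl : St_dlM) (HY : Gm.Hyp) (hb : St_br)
    {X₀ : AV} (hF : Fac X₀ X) {K : Subfield ℂ}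
    (hK : CMF K) (hM : ∀ (d : ℕ) (Δ : (ℂ ≃+* ℂ) → Matrix (Fin d) (Fin d) ℂ), IrD Δ → Rz X₀ d Δ →
      ∃ (P : Fin d → (X₀.H →ₗ[ℚ] K)) (κ : Fin d → K) (Δ' : (ℂ ≃+* ℂ) → Matrix (Fin d) (Fin d) ℂ)
        (Y : AV) (b : Y.H ≃ₗ[ℚ] (Fin d → K)), LinearIndependent ℂ (fun j => toC (P j)) ∧
        (∀ j, cjk hK (κ j) = -κ j ∧ κ j ≠ 0) ∧ IsoD Δ' Δ ∧
        (∀ σ j, IsD X₀ σ (toC (P j)) (∑ i, Δ' σ i j • toC (P i))) ∧
        (∀ σ, trace (Δ σ) = ∑ j, (sgf (κ j) σ : ℂ)) ∧ KAct b ∧ KHom b P ∧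
        IsPolarization Y.per fun v w => frK hK (fun j => -κ j) (b v) (b w))
    (hX : Hul2 X)
    (hlines : ∀ F : (ℂ ≃+* ℂ) → ℤ, (∀ σ, F σ = 1 ∨ F σ = -1) → (∀ σ, F (cj.trans σ) = -F σ) →
      (∀ σ τ : ℂ ≃+* ℂ, (∀ z ∈ K, σ z = τ z) → F σ = F τ) → Rz X 1 (lineD F))
    (hirr : ∀ (d : ℕ) (Δ : (ℂ ≃+* ℂ) → Matrix (Fin d) (Fin d) ℂ), IrD Δ → Rz X d Δ →
      d = 1 ∨ Rz X₀ d Δ) (𝒜 : Sys)
    (h2 : ∀ (Y : AV) (f : Y.H [⋀^Fin 2]→ₗ[ℚ] ℚ), IsHodge Y.per f → 𝒜.A Y (Fin 2) f)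
    (h4 : ∀ (Y : AV) (f : Y.H [⋀^Fin 4]→ₗ[ℚ] ℚ), IsHodge Y.per f → 𝒜.A Y (Fin 4) f)
    (hW : ∀ (Y : AV) (n : ℕ) (w : Y.H [⋀^Fin n]→ₗ[ℚ] ℚ), IsSplitWeil Y w → 𝒜.A Y (Fin n) w)
    (P : AV) (n : ℕ) (hP : IsPower X P n) : 𝒜.AllHodge P := by
  obtain ⟨E, hE⟩ := X.pol
  obtain ⟨g, Z, hZ, e, hc, -⟩ := exists_ppavE X.span X.rank hE
  obtain ⟨y, yi, hy⟩ := exists_YD hZ
  obtain ⟨i, hP⟩ := hP
  refine allHodge_iso 𝒜 (isoP hP) (isoP_hom hP) ?_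
  have hO := hy.isOm hZ.det
  have hld := hy.ld hZ
  have hH := Gm.hull_ly (mi_of coo_of) hZ hc hy hX.1
  have hfix : ∀ u ∈ Fx (Oy yi) (TY e 𝒜 Z y yi), ∀ (κ : Type) [Fintype κ] [DecidableEq κ],
      ∀ x ∈ InvL (Ly Z y yi) κ, kp κ (mt u) *ᵥ x = x := by
    intro u hu κ _ _
    exact Gm.mainL HY hO hld hH (hb g Z X e y yi hZ hc hy hX)
      (fixU hlin hO hld hH (fixS_AV htn hdl hF hK hM hlines hirr hZ hc hy 𝒜 h2 h4 hW hu)) κ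
  have hT := tan_div hZ h2 hc hy
  refine allHodge_of hc fun κ _ _ c hcH => ?_
  have h14 : kp κ (cm y)ᵀ *ᵥ (kp κ (cm yi)ᵀ *ᵥ cst ℂ c) = cst ℂ c := by
    rw [mulVec_mulVec, ← kp_mul, hy.clT, kp_one, one_mulVec]
  have h15 : kp κ (cm yi)ᵀ *ᵥ cst ℂ c ∈ InvL (Ly Z y yi) κ := by
    refine hy.inv_from ?_
    rw [h14]
    exact inv_of_isH hcH
  have h16 := (mem_TY.1 (tannaka hT hO _ fun u hu => hfix u hu κ _ h15)).1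
  rwa [h14] at h16

/-- The main theorem. -/
theorem mainAll (hlin : St_lin) (hm : St_modK) (htn : St_tnK) (hdl : St_dlM) (hk : St_hulK)
    (HY : Gm.Hyp) (hb : St_br) (hh : St_hul2) (𝒜 : Sys)
    (h2 : ∀ (Y : AV) (f : Y.H [⋀^Fin 2]→ₗ[ℚ] ℚ), IsHodge Y.per f → 𝒜.A Y (Fin 2) f)
    (h4 : ∀ (Y : AV) (f : Y.H [⋀^Fin 4]→ₗ[ℚ] ℚ), IsHodge Y.per f → 𝒜.A Y (Fin 4) f)
    (hW : ∀ (Y : AV) (n : ℕ) (w : Y.H [⋀^Fin n]→ₗ[ℚ] ℚ), IsSplitWeil Y w → 𝒜.A Y (Fin n) w)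
    (A : AV) : 𝒜.AllHodge A := by
  obtain ⟨X₀, hA, hX₀⟩ := hh A
  obtain ⟨K, hK, hM⟩ := hm X₀
  obtain ⟨X, hF, hX, hlines, hirr⟩ := hk X₀ hX₀ K hK
  refine fac_of.2.2 𝒜 A X (fac_of.2.1 A X₀ X hA hF) (fun P n hP =>
    mainAV hlin htn hdl HY hb hF hK hM hX hlines hirr 𝒜 h2 h4 hW P n hP) A 1 ?_
  refine ⟨fun _ => LinearMap.id, fun _ => ⟨LinearMap.id, fun _ => rfl⟩, ?_⟩
  constructor
  · intro v w h
    simp only [Fin.sum_univ_one, LinearMap.id_coe, id_eq] at h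
    funext k
    rw [Subsingleton.elim k 0]
    exact h
  · intro w
    exact ⟨fun _ => w, by simp⟩

end av

end Gp

end

end Pool.Agent.NH32
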