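import Mathlib
import Pool.Agent.NH32.GpA
import Pool.Agent.NH32.GD1
import Pool.Agent.NH32.GD2
import Pool.Agent.NH32.GD3
import Pool.Agent.NH32.GD4a
import Pool.Agent.NH32.GD4b
import Pool.Agent.NH32.GD4
import Pool.Agent.NH32.GD5
import Pool.Agent.NH32.GD6
import Pool.Agent.NH32.GD7a
import Pool.Agent.NH32.GD7b
import Pool.Agent.NH32.GD7c
import Pool.Agent.NH32.GD7d
import Pool.Agent.NH32.GD8
import Pool.Agent.NH32.GD9
import Pool.Agent.NH32.GD10
import Pool.Agent.NH32.GD11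
import Pool.Agent.NH32.GD12
import Pool.Agent.NH32.GD13
import Pool.Agent.NH32.GD14

/-!
# Project G, stage 3: the theorem
-/

namespace Pool.Agent.NH32

open Module Pool.Agent.Y90
open Pool.Agent.H204R3.CM (IsHodge)

/-- The Hodge classes of degree four and the split Weil classes generate all Hodge classes. -/
theorem generationS (𝒜 : Sys)
    (h4 : ∀ (Y : AV) (f : Y.H [⋀^Fin 4]→ₗ[ℚ] ℚ), IsHodge Y.per f → 𝒜.A Y (Fin 4) f)
    (hW : ∀ (Y : AV) (n : ℕ) (w : Y.H [⋀^Fin n]→ₗ[ℚ] ℚ), IsSplitWeil Y w → 𝒜.A Y (Fin n) w)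
    (A : AV) : 𝒜.AllHodge A :=
  Gp.mainAll lin_of (modK_of rat_of diag_of (pola_of polq_of yk_of) sig_of)
    (tnK_of cmav_of prK_of (spw_of hsp_of) ten_of lineK_of) (dlM_of dT_of)
    (hulK_of cm_of (fld_of coo_of) pr_of fac_of) Gm.hyp (br_of coo_of (mi_of coo_of))
    (hul2_of (ex_of ej_of pd_of gdm_of) (df_of coo_of (mi_of coo_of)) (r1_of spr_of lalg_of)
      (r2_of (r2a_of spr_of lalg_of) fam_of dtc_of unit_of typ_of) dtc_of fin_of pr_of fac_of
      (hull_of cm_of (fld_of coo_of) pr_of fac_of)) 𝒜 (two_of_four 𝒜 h4) h4 hW A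

end Pool.Agent.NH32
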